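import Pool.Agent.P.MP_65ad7c_ag.Defs
import Pool.Agent.Lib.Sob.Poinc
import Pool.Agent.Lib.Sob.Chain
import Pool.Agent.Lib.Flow.Smooth
import Mathlib

-- part Pool.Agent.P.MP_65ad7c_ag.Base
section

/-! Definitions for the analytic part: matrix valued forms, atlases, harmonic metrics. -/

open MeasureTheory Set Filter Topology Metric Matrix
open scoped ComplexOrder ContDiff Matrix.Norms.Frobenius RealInnerProductSpace ENNReal
open Pool.Agent.Lib.Sob

noncomputable section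
namespace Pool.Agent.PW

/-- Complex matrices (always with the Frobenius norm). -/
abbrev Mat (r : ℕ) := Matrix (Fin r) (Fin r) ℂ

/-- the uniformity of the Frobenius norm (definitionally the product uniformity) -/
scoped instance (priority := high) matUnif (r s : ℕ) : UniformSpace (Matrix (Fin r) (Fin s) ℂ) :=
  PseudoMetricSpace.toUniformSpace

/-- the topology of the Frobenius norm (definitionally the product topology) -/
scoped instance (priority := high) matTop (r s : ℕ) :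
    TopologicalSpace (Matrix (Fin r) (Fin s) ℂ) := UniformSpace.toTopologicalSpace

scoped instance matComplete (r s : ℕ) : CompleteSpace (Matrix (Fin r) (Fin s) ℂ) :=
  FiniteDimensional.complete ℝ _

scoped instance matSC (r s : ℕ) : SecondCountableTopology (Matrix (Fin r) (Fin s) ℂ) :=
  inferInstanceAs (SecondCountableTopology (Fin r → Fin s → ℂ))

section pointwise
variable {E : Type} [NormedAddCommGroup E] [InnerProductSpace ℝ E] [FiniteDimensional ℝ E]
  {r : ℕ}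

variable (E) in
/-- A fixed orthonormal basis. -/
def ob : OrthonormalBasis (Fin (Module.finrank ℝ E)) ℝ E := stdOrthonormalBasis ℝ E

/-- left multiplication of a matrix valued form -/
def lmul (P : Mat r) (X : E →L[ℝ] Mat r) : E →L[ℝ] Mat r :=
  (ContinuousLinearMap.mul ℝ (Mat r) P).comp X

/-- right multiplication of a matrix valued form -/
def rmul (X : E →L[ℝ] Mat r) (P : Mat r) : E →L[ℝ] Mat r :=
  ((ContinuousLinearMap.mul ℝ (Mat r)).flip P).comp X

/-- conjugate transpose as a real linear map -/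
def adjL (r : ℕ) : Mat r →L[ℝ] Mat r :=
  LinearMap.toContinuousLinearMap
    { toFun := fun X => Xᴴ
      map_add' := fun X Y => conjTranspose_add X Y
      map_smul' := fun c X => by ext i j; simp }

/-- real part of the trace as a real linear map -/
def trL (r : ℕ) : Mat r →L[ℝ] ℝ :=
  LinearMap.toContinuousLinearMap
    { toFun := fun X => X.trace.re
      map_add' := fun X Y => by simp
      map_smul' := fun c X => by simp }

omit [FiniteDimensional ℝ E] in
@[simp] theorem lmul_apply (P : Mat r) (X : E →L[ℝ] Mat r) (v : E) : lmul P X v = P * X v := rfl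
omit [FiniteDimensional ℝ E] in
@[simp] theorem rmul_apply (X : E →L[ℝ] Mat r) (P : Mat r) (v : E) : rmul X P v = X v * P := rfl
@[simp] theorem adjL_apply (X : Mat r) : adjL r X = Xᴴ := rfl
@[simp] theorem trL_apply (X : Mat r) : trL r X = X.trace.re := rfl

/-- Maurer-Cartan form `h⁻¹ dh` -/
def mc (h : Mat r) (D : E →L[ℝ] Mat r) : E →L[ℝ] Mat r := lmul h⁻¹ D

/-- commutator -/
def cm (X Y : Mat r) : Mat r := X * Y - Y * X

/-- contraction of two matrix valued forms -/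
def pair (α : E →L[ℝ] E) (X Y : E →L[ℝ] Mat r) : ℝ :=
  ∑ p, (X (ob E p) * Y (α (ob E p))).trace.re

/-- contraction of two covectors -/
def spair (α : E →L[ℝ] E) (p q : E →L[ℝ] ℝ) : ℝ := ∑ i, p (ob E i) * q (α (ob E i))

/-- the positive form `re tr (X P⁻¹ Yᴴ Q)` -/
def nf (P Q X Y : Mat r) : ℝ := (X * P⁻¹ * Yᴴ * Q).trace.re

/-- contraction with the positive form -/
def npair (α : E →L[ℝ] E) (P Q : Mat r) (X : E →L[ℝ] Mat r) : ℝ :=
  ∑ p, nf P Q (X (ob E p)) (X (α (ob E p)))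

/-- Donaldson's distance function (without the additive constant) -/
def sg (P Q : Mat r) : ℝ := (P⁻¹ * Q).trace.re + (Q⁻¹ * P).trace.re

/-- `C⁻¹ P ≤ Q ≤ C P` -/
def Obst (C : ℝ) (P Q : Mat r) : Prop := (Q - C⁻¹ • P).PosSemidef ∧ (C • P - Q).PosSemidef

/-- `C⁻¹ ≤ h ≤ C` -/
def Bd (C : ℝ) (h : Mat r) : Prop := Obst C 1 h

/-- symmetric, with ellipticity constants -/
def Ell (l L : ℝ) (α : E →L[ℝ] E) : Prop :=
  (∀ v w, ⟪α v, w⟫ = ⟪v, α w⟫) ∧ (∀ v, l * ‖v‖ ^ 2 ≤ ⟪v, α v⟫) ∧ ‖α‖ ≤ L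

/-- a form with Hermitian values -/
def HermF (D : E →L[ℝ] Mat r) : Prop := ∀ v, (D v)ᴴ = D v

/-- derivative of `h⁻¹ h'` -/
def dk (h h' : Mat r) (D D' : E →L[ℝ] Mat r) : E →L[ℝ] Mat r :=
  lmul h⁻¹ D' - lmul h⁻¹ (rmul D (h⁻¹ * h'))

/-- `k - k⁻¹` for `k = h⁻¹ h'` -/
def kz (h h' : Mat r) : Mat r := h⁻¹ * h' - h'⁻¹ * h

/-- derivative of `kz` -/
def dkz (h h' : Mat r) (D D' : E →L[ℝ] Mat r) : E →L[ℝ] Mat r := dk h h' D D' - dk h' h D' D

/-- derivative of `sg` -/
def dsg (h h' : Mat r) (D D' : E →L[ℝ] Mat r) : E →L[ℝ] ℝ :=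
  (trL r).comp (dk h h' D D' + dk h' h D' D)

/-- the good term of the key identity -/
def qq (α : E →L[ℝ] E) (h h' : Mat r) (D D' : E →L[ℝ] Mat r) : ℝ :=
  npair α h' h (dk h h' D D') + npair α h h' (dk h' h D' D)

/-- energy density -/
def en (α : E →L[ℝ] E) (h : Mat r) (D : E →L[ℝ] Mat r) : ℝ := pair α (mc h D) (mc h D)

/-- the metric `uᴴ h u` -/
def gm (h u : Mat r) : Mat r := uᴴ * h * u

/-- derivative of `uᴴ h u` -/
def dgm (h u : Mat r) (D W : E →L[ℝ] Mat r) : E →L[ℝ] Mat r :=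
  rmul ((adjL r).comp W) (h * u) + lmul uᴴ (rmul D u) + lmul (uᴴ * h) W

end pointwise

section loc
variable {E : Type} [NormedAddCommGroup E] [InnerProductSpace ℝ E] [FiniteDimensional ℝ E]
  [MeasurableSpace E] [BorelSpace E] {r : ℕ}
  {V : Type} [NormedAddCommGroup V] [NormedSpace ℝ V]

/-- `L²` norm on a set -/
def N2 (K : Set E) (u : E → V) : ℝ≥0∞ := eLpNorm u 2 (volume.restrict K)

/-- bounded on compact subsets -/
def LB (U : Set E) (u : E → V) : Prop :=
  ∀ K, IsCompact K → K ⊆ U → ∃ C : ℝ, ∀ x ∈ K, ‖u x‖ ≤ C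

/-- locally uniformly positive and bounded -/
def LBd (U : Set E) (h : E → Mat r) : Prop :=
  ∀ K, IsCompact K → K ⊆ U → ∃ C : ℝ, 1 ≤ C ∧ ∀ x ∈ K, Bd C (h x)

/-- vanishes on `U` outside a compact subset -/
def CS (U : Set E) (u : E → V) : Prop :=
  ∃ K, IsCompact K ∧ K ⊆ U ∧ ∀ x ∈ U, x ∉ K → u x = 0

/-- continuous, symmetric and positive on `U` -/
def Coef (U : Set E) (α : E → E →L[ℝ] E) : Prop :=
  ContDiffOn ℝ ∞ α U ∧ ∀ x ∈ U, (∀ v w, ⟪α x v, w⟫ = ⟪v, α x w⟫) ∧ ∀ v, v ≠ 0 → 0 < ⟪v, α x v⟫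

/-- weak form of `div (α A) = 0` -/
def Harm (U : Set E) (α : E → E →L[ℝ] E) (A : E → E →L[ℝ] Mat r) : Prop :=
  ∀ φ, IsTest U φ → ∫ x, ∑ p, fderiv ℝ φ x (α x (ob E p)) • A x (ob E p) = 0

/-- weak form of `d om = Φ` -/
def WCurl (U : Set E) (om : E → E →L[ℝ] Mat r) (Φ : E → E → E → Mat r) : Prop :=
  ∀ φ, IsTest U φ → ∀ v w : E,
    ∫ x, (fderiv ℝ φ x v • om x w - fderiv ℝ φ x w • om x v) = -∫ x, φ x • Φ x v w

end loc

section atlas
variable (E : Type) [NormedAddCommGroup E] [InnerProductSpace ℝ E] [FiniteDimensional ℝ E]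
  (Γ : Type) [Group Γ]

/-- Finitely many charts with domain the ball of radius 6, with a locally constant cocycle. -/
structure Pre where
  ι : Type
  fin : Fintype ι
  a0 : ι
  O : ι → ι → Set E
  T : ι → ι → E → E
  c : ι → ι → E → Γ
  S : Finset Γ
  O_open : ∀ a b, IsOpen (O a b)
  O_sub : ∀ a b, O a b ⊆ ball 0 6
  O_self : ∀ a, O a a = ball 0 6
  T_self : ∀ a, ∀ x ∈ ball (0 : E) 6, T a a x = x
  c_self : ∀ a, ∀ x ∈ ball (0 : E) 6, c a a x = 1
  T_mem : ∀ a b, ∀ x ∈ O a b, T a b x ∈ O b a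
  T_inv : ∀ a b, ∀ x ∈ O a b, T b a (T a b x) = x
  T_smooth : ∀ a b, ContDiffOn ℝ ∞ (T a b) (O a b)
  cocycle : ∀ a b d, ∀ x ∈ O a b, T a b x ∈ O b d →
    x ∈ O a d ∧ T a d x = T b d (T a b x) ∧ c a d x = c a b x * c b d (T a b x)
  c_loc : ∀ a b, ∀ x ∈ O a b, ∀ᶠ y in 𝓝 x, c a b y = c a b x
  sep : ∀ a b (K : Set E), IsCompact K → K ⊆ ball 0 6 → ∀ x ∈ ball (0 : E) 6, x ∉ O a b →
    ∀ᶠ y in 𝓝 x, y ∈ O a b → T a b y ∉ K
  cover : ∀ a, ∀ x ∈ ball (0 : E) 6, ∃ b, x ∈ O a b ∧ T a b x ∈ ball (0 : E) 1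
  S_mem : ∀ a b, ∀ x ∈ O a b, ‖x‖ ≤ 5 → ‖T a b x‖ ≤ 5 → c a b x ∈ S
  S_inv : ∀ s ∈ S, s⁻¹ ∈ S

variable {E Γ}

instance (A : Pre E Γ) : Fintype A.ι := A.fin

/-- overlap inside `U` -/
def Pre.ov (A : Pre E Γ) (U : Set E) (a b : A.ι) : Set E :=
  {x | x ∈ A.O a b ∧ x ∈ U ∧ A.T a b x ∈ U}

/-- products of the cocycle along chains of unit balls -/
inductive Pre.Chain (A : Pre E Γ) : A.ι → A.ι → Γ → Prop
  | nil (a : A.ι) : A.Chain a a 1
  | cons (a b d : A.ι) (x : E) (γ : Γ) : x ∈ A.ov (ball 0 1) a b → A.Chain b d γ →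
      A.Chain a d (A.c a b x * γ)

/-- Jacobian of the transition -/
def Pre.jac (A : Pre E Γ) (a b : A.ι) (x : E) : ℝ := |(fderiv ℝ (A.T a b) x).det|

open Classical in
/-- a function `ψ` on the chart `a`, seen in the chart `b` -/
def Pre.ext (A : Pre E Γ) (ψ : E → ℝ) (a b : A.ι) (x : E) : ℝ :=
  if x ∈ A.O b a then ψ (A.T b a x) else 0

/-- partition of unity with supports in `U` -/
def Pre.Pou (A : Pre E Γ) (U : Set E) (χ : A.ι → E → ℝ) : Prop :=
  (∀ a, IsTest U (χ a) ∧ ∀ x, 0 ≤ χ a x) ∧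
    ∀ b, ∀ x ∈ ball (0 : E) 6, ∑ a, A.ext (χ a) a b x = 1

/-- `∑_a χ_a F (c_{ba})` in the chart `b` -/
def Pre.gau {r : ℕ} (A : Pre E Γ) (χ : A.ι → E → ℝ) (F : Γ → Mat r) (b : A.ι) (x : E) : Mat r :=
  ∑ a, A.ext (χ a) a b x • F (A.c b a x)

/-- the reference metric -/
def Pre.h0 {r : ℕ} (A : Pre E Γ) (χ : A.ι → E → ℝ) (ρ : Γ →* Mat r) : A.ι → E → Mat r :=
  A.gau χ fun γ => (ρ γ⁻¹)ᴴ * ρ γ⁻¹

/-- compatibility of a metric -/
def Pre.MC {r : ℕ} (A : Pre E Γ) (U : Set E) (ρ : Γ →* Mat r) (h : A.ι → E → Mat r) : Prop :=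
  ∀ a b, ∀ x ∈ A.ov U a b, h b (A.T a b x) = gm (h a x) (ρ (A.c a b x))

/-- size of a representation -/
def Pre.Sz {r : ℕ} (A : Pre E Γ) (N : ℝ) (ρ : Γ →* Mat r) : Prop := ∀ s ∈ A.S, ‖ρ s‖ ≤ N

/-- distance of two representations -/
def Pre.Cl {r : ℕ} (A : Pre E Γ) (ε : ℝ) (ρ ρ' : Γ →* Mat r) : Prop :=
  ∀ s ∈ A.S, ‖ρ s - ρ' s‖ ≤ ε

/-- irreducible (Burnside form) -/
def Irr {r : ℕ} (ρ : Γ →* Mat r) : Prop := Submodule.span ℂ (range ρ) = ⊤

/-- quantitatively irreducible -/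
def Burn {r m : ℕ} (γs : Fin m → Γ) (β : ℝ) (ρ : Γ →* Mat r) : Prop :=
  ∀ X : Mat r, ∃ x : Fin m → ℂ, ‖x‖ ≤ β * ‖X‖ ∧ X = ∑ l, x l • ρ (γs l)

variable (E Γ) in
/-- An atlas with a Riemannian coefficient field, whose cocycle presents `Γ`. -/
structure Atlas extends Pre E Γ where
  α : ι → E → E →L[ℝ] E
  coef : ∀ a, Coef (ball 0 6) (α a)
  α_inv : ∀ a b, ∀ x ∈ O a b, ∀ v w : E,
    ⟪(fderiv ℝ (T a b) x).adjoint v, α a x ((fderiv ℝ (T a b) x).adjoint w)⟫ =
      toPre.jac a b x * ⟪v, α b (T a b x) w⟫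
  chain : ∀ γ, toPre.Chain a0 a0 γ
  reach : ∀ a, ∃ γ, toPre.Chain a0 a γ
  lift : ∀ (G : Type) [Group G] (τ : ι → ι → E → G),
    (∀ a b, ∀ x ∈ toPre.ov (ball 0 2) a b, ∀ᶠ y in 𝓝 x, τ a b y = τ a b x) →
    (∀ a b d, ∀ x ∈ toPre.ov (ball 0 2) a b, T a b x ∈ toPre.ov (ball 0 2) b d →
      τ a d x = τ a b x * τ b d (T a b x)) →
    ∃ (ρ : Γ →* G) (u : ι → G), u a0 = 1 ∧
      ∀ a b, ∀ x ∈ toPre.ov (ball 0 2) a b, τ a b x = (u a)⁻¹ * ρ (c a b x) * u b

variable [MeasurableSpace E] [BorelSpace E] {r : ℕ}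

/-- the obstacle class -/
structure Atlas.Adm (A : Atlas E Γ) (ρ : Γ →* Mat r) (H : A.ι → E → Mat r) (C : ℝ)
    (h : A.ι → E → Mat r) (D : A.ι → E → E →L[ℝ] Mat r) : Prop where
  wd : ∀ a, WD 2 (ball 0 6) (h a) (D a)
  ob : ∀ a, ∀ x ∈ ball (0 : E) 6, Obst C (H a x) (h a x)
  mc : A.MC (ball 0 6) ρ h

/-- total energy -/
def Atlas.energy (A : Atlas E Γ) (χ : A.ι → E → ℝ) (h : A.ι → E → Mat r)
    (D : A.ι → E → E →L[ℝ] Mat r) : ℝ :=
  ∑ a, ∫ x, χ a x * en (A.α a x) (h a x) (D a x)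

/-- a smooth compatible reference metric -/
structure Atlas.Ref (A : Atlas E Γ) (ρ : Γ →* Mat r) (H : A.ι → E → Mat r) : Prop where
  sm : ∀ a, ContDiffOn ℝ ∞ (H a) (ball 0 6)
  pos : ∀ a, ∀ x ∈ ball (0 : E) 6, (H a x).PosDef
  mc : A.MC (ball 0 6) ρ H

/-- a minimiser in the obstacle class -/
def Atlas.IsMin (A : Atlas E Γ) (χ : A.ι → E → ℝ) (ρ : Γ →* Mat r) (H : A.ι → E → Mat r) (C : ℝ)
    (h : A.ι → E → Mat r) (D : A.ι → E → E →L[ℝ] Mat r) : Prop :=
  A.Adm ρ H C h D ∧ ∀ h' D', A.Adm ρ H C h' D' → A.energy χ h D ≤ A.energy χ h' D'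

/-- bounds for a reference metric on the closed ball of radius `9/2` -/
def Atlas.RefBd (A : Atlas E Γ) (C : ℝ) (H : A.ι → E → Mat r) : Prop :=
  ∀ a, ∀ x ∈ closedBall (0 : E) (9 / 2), Bd C (H a x) ∧ ‖fderiv ℝ (H a) x‖ ≤ C ∧
    ‖fderiv ℝ (fderiv ℝ (H a)) x‖ ≤ C

/-- a bounded weakly harmonic metric -/
structure Atlas.HM (A : Atlas E Γ) (ρ : Γ →* Mat r) (C : ℝ)
    (h : A.ι → E → Mat r) (D : A.ι → E → E →L[ℝ] Mat r) : Prop where
  wd : ∀ a, WD 2 (ball 0 6) (h a) (D a)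
  lbd : ∀ a, LBd (ball 0 6) (h a)
  mc : A.MC (ball 0 6) ρ h
  harm : ∀ a, Harm (ball 0 6) (A.α a) fun x => PW.mc (h a x) (D a x)
  bd : ∀ a, ∀ x ∈ closedBall (0 : E) 4, Bd C (h a x)
  n2 : ∀ a, N2 (closedBall 0 4) (D a) ≤ ENNReal.ofReal C

end atlas

section kaehler
variable {n r : ℕ} {V : Type} [NormedAddCommGroup V] [NormedSpace ℝ V] [NormedSpace ℂ V]
  [IsScalarTower ℝ ℂ V]

/-- multiplication by `i` -/
def IL (n : ℕ) : EC n →L[ℝ] EC n := (Complex.I • ContinuousLinearMap.id ℂ (EC n)).restrictScalars ℝ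

@[simp] theorem IL_apply (v : EC n) : IL n v = Complex.I • v := rfl

/-- `(1,0)` component of a form -/
def d1 (X : EC n →L[ℝ] V) (j : Fin n) : V :=
  (2 : ℂ)⁻¹ • (X (EuclideanSpace.single j 1) - Complex.I • X (EuclideanSpace.single j Complex.I))

/-- `(0,1)` component of a form -/
def d2 (X : EC n →L[ℝ] V) (j : Fin n) : V :=
  (2 : ℂ)⁻¹ • (X (EuclideanSpace.single j 1) + Complex.I • X (EuclideanSpace.single j Complex.I))

/-- `β (∂_l, ∂bar_m)` -/
def d12 (β : EC n →L[ℝ] EC n →L[ℝ] V) (l m : Fin n) : V :=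
  (2 : ℂ)⁻¹ • (d2 (β (EuclideanSpace.single l 1)) m -
    Complex.I • d2 (β (EuclideanSpace.single l Complex.I)) m)

/-- `β (∂bar_m, ∂_j)` -/
def d21 (β : EC n →L[ℝ] EC n →L[ℝ] V) (m j : Fin n) : V :=
  (2 : ℂ)⁻¹ • (d1 (β (EuclideanSpace.single m 1)) j +
    Complex.I • d1 (β (EuclideanSpace.single m Complex.I)) j)

/-- complexified covector -/
def cx (p : EC n →L[ℝ] ℝ) : EC n →L[ℝ] ℂ := Complex.ofRealCLM.comp p

/-- complexified bilinear form -/
def cx2 (q : EC n →L[ℝ] EC n →L[ℝ] ℝ) : EC n →L[ℝ] EC n →L[ℝ] ℂ :=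
  (ContinuousLinearMap.compL ℝ (EC n) ℝ ℂ Complex.ofRealCLM).comp q

/-- inverse metric `g^{j kbar}` -/
def kW (g : Mat n) : Mat n := (gᵀ)⁻¹

/-- first cofactor -/
def kH (g : Mat n) : Mat n := g.det • kW g

/-- second cofactor -/
def kG (g : Mat n) (j k l m : Fin n) : ℂ :=
  g.det * (kW g j k * kW g l m - kW g j m * kW g l k)

/-- the Riemannian coefficient of a Hermitian metric -/
def kα (g : Mat n) : EC n →L[ℝ] EC n :=
  (Matrix.toEuclideanCLM (𝕜 := ℂ) (n := Fin n) (kH g)).restrictScalars ℝ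

/-- the signed integrand of the Siu-Sampson formula -/
def SF (G : Fin n → Fin n → Fin n → Fin n → ℂ) (A : EC n →L[ℝ] Mat r)
    (β : EC n →L[ℝ] EC n →L[ℝ] Mat r) : ℂ :=
  ∑ j, ∑ k, ∑ l, ∑ m, G j k l m * ((d21 β m j * d12 β l k).trace -
    4⁻¹ * (cm (d1 A l) (d1 A j) * cm (d2 A m) (d2 A k)).trace)

/-- the boundary integrand of the Siu-Sampson formula -/
def SP (G : Fin n → Fin n → Fin n → Fin n → ℂ) (A : EC n →L[ℝ] Mat r) (p : EC n →L[ℝ] ℝ)
    (q : EC n →L[ℝ] EC n →L[ℝ] ℝ) : ℂ :=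
  ∑ j, ∑ k, ∑ l, ∑ m, G j k l m * (d12 (cx2 q) l m * (d1 A j * d2 A k).trace -
    2⁻¹ * d1 (cx p) l * (d1 A j * cm (d2 A m) (d2 A k)).trace -
    2⁻¹ * d2 (cx p) m * (cm (d1 A l) (d1 A j) * d2 A k).trace)

/-- `N_{j kbar}` -/
def SN (β : EC n →L[ℝ] EC n →L[ℝ] Mat r) (j k : Fin n) : Mat r :=
  (2 : ℂ)⁻¹ • (d21 β k j + d12 β j k)

/-- pointwise relations between `h`, `A = h⁻¹ dh` and `β = dA` -/
structure Jet (h : Mat r) (A : EC n →L[ℝ] Mat r) (β : EC n →L[ℝ] EC n →L[ℝ] Mat r) : Prop where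
  herm : ∀ v, (h * A v)ᴴ = h * A v
  flat : ∀ v w, β v w - β w v = -cm (A v) (A w)
  adj : ∀ v w, (β v w)ᴴ * h = h * β w v

/-- the commutation relation of a pluriharmonic metric -/
def PH1 (A : EC n →L[ℝ] Mat r) : Prop :=
  ∀ v w, cm (A (Complex.I • v)) (A (Complex.I • w)) = cm (A v) (A w)

/-- the connection form `p A + q A(i ·)`; flat when `p ^ 2 - p + q ^ 2 = 0` -/
def rotB (p q : ℂ) (A : EC n →L[ℝ] Mat r) : EC n →L[ℝ] Mat r := p • A + q • A.comp (IL n)

variable (n) (Γ : Type) [Group Γ]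

/-- A Kaehler atlas. -/
structure KAtlas extends Atlas (EC n) Γ where
  g : ι → EC n → Mat n
  kae : ∀ a, IsKahlerOn (ball 0 6) (g a)
  hol : ∀ a b, DifferentiableOn ℂ (T a b) (O a b)
  g_inv : ∀ a b, ∀ x ∈ O a b, ∀ u v, herm (g a x) u v =
    herm (g b (T a b x)) (fderiv ℂ (T a b) x u) (fderiv ℂ (T a b) x v)
  α_eq : ∀ a x, α a x = kα (g a x)

variable {n Γ}

/-- local part of a bounded pluriharmonic metric -/
structure PHL (U : Set (EC n)) (C : ℝ) (h : EC n → Mat r) (D : EC n → EC n →L[ℝ] Mat r) :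
    Prop where
  cont : ContinuousOn h U
  bd : ∀ x ∈ U, Bd C (h x)
  wd : WD 2 U h D
  dbd : ∀ᵐ x, x ∈ U → ‖D x‖ ≤ C
  ph1 : ∀ᵐ x, x ∈ U → PH1 (mc (h x) (D x))
  ph2 : WCurl U (fun x => (mc (h x) (D x)).comp (IL n)) fun _ _ _ => 0

/-- a bounded pluriharmonic metric -/
structure KAtlas.PH (A : KAtlas n Γ) (U : Set (EC n)) (ρ : Γ →* Mat r) (C : ℝ)
    (h : A.ι → EC n → Mat r) (D : A.ι → EC n → EC n →L[ℝ] Mat r) : Prop where
  loc : ∀ a, PHL U C (h a) (D a)
  mc : A.MC U ρ h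

end kaehler

/-- the twistor line through a character -/
def TWc (Γ : Type) [Group Γ] (r : ℕ) (χ : Γ → ℂ) : Prop :=
  ∃ F : ℂ → Γ → ℂ, (∀ w, F w ∈ charVar Γ r) ∧ (∀ γ, Differentiable ℂ fun w => F w γ) ∧
    (∀ w, F (w + 2 * Real.pi * Complex.I) = F w) ∧
    (∀ γ, ∃ C : ℝ, ∀ w, ‖F w γ‖ ≤ Real.exp (C * Real.exp |w.re|)) ∧ F 0 = χ ∧
    ∀ γ, F (Real.pi * Complex.I) γ = (starRingEnd ℂ) (χ γ⁻¹)

/-- every rational map from a component of the character variety to an abelian variety is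
constant -/
def AlbTrivial (Γ : Type) [Group Γ] (r : ℕ) : Prop :=
  ∀ P ∈ (MvPolynomial.vanishingIdeal ℂ (charVar Γ r)).minimalPrimes,
    ∀ (g M : ℕ) (Λ : Submodule ℤ (EC g)) [DiscreteTopology Λ] [IsZLattice ℝ Λ]
      (Θ : EC g → Fin (M + 1) → ℂ), IsAbelianEmb Λ Θ →
      ∀ f : Fin (M + 1) → MvPolynomial Γ ℂ,
        (∀ y ∈ charVar Γ r ∩ MvPolynomial.zeroLocus ℂ P, (fun i => MvPolynomial.eval y (f i)) ≠ 0 →
          ∃ (c : ℂ) (z : EC g), (fun i => MvPolynomial.eval y (f i)) = c • Θ z) →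
        ∀ y ∈ charVar Γ r ∩ MvPolynomial.zeroLocus ℂ P,
          ∀ y' ∈ charVar Γ r ∩ MvPolynomial.zeroLocus ℂ P,
            (fun i => MvPolynomial.eval y (f i)) ≠ 0 → (fun i => MvPolynomial.eval y' (f i)) ≠ 0 →
            ∃ c : ℂ, (fun i => MvPolynomial.eval y' (f i)) = c • fun i => MvPolynomial.eval y (f i)

end Pool.Agent.PW
end
end

-- part Pool.Agent.P.MP_65ad7c_ag.FDefs
section

open MeasureTheory Set Filter Topology Metric Matrix
open scoped ComplexOrder ContDiff Matrix.Norms.Frobenius RealInnerProductSpace ENNReal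
open Pool.Agent.Lib.Sob

noncomputable section
namespace Pool.Agent.PW

open Pool.Agent.Lib.Flow

section pointwise
variable {E : Type} [NormedAddCommGroup E] [InnerProductSpace ℝ E] [FiniteDimensional ℝ E] {r : ℕ}

/-- two-sided bound for left multiplication by `g` -/
def Bil (L : ℝ) (g : Mat r) : Prop := ∀ Y : Mat r, ‖g * Y‖ ≤ L * ‖Y‖ ∧ ‖Y‖ ≤ L * ‖g * Y‖

/-- the bilinear map `(v, w) ↦ [X v, X w]` -/
def cmF (X : E →L[ℝ] Mat r) : E →L[ℝ] E →L[ℝ] Mat r :=
  (ContinuousLinearMap.mul ℝ (Mat r)).bilinearComp X X -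
    ((ContinuousLinearMap.mul ℝ (Mat r)).bilinearComp X X).flip

omit [FiniteDimensional ℝ E] in
@[simp] theorem cmF_apply (X : E →L[ℝ] Mat r) (v w : E) : cmF X v w = cm (X v) (X w) := rfl

/-- curvature of a smooth connection form -/
def curv (B : E → E →L[ℝ] Mat r) (x : E) : E →L[ℝ] E →L[ℝ] Mat r :=
  fderiv ℝ B x - (fderiv ℝ B x).flip + cmF (B x)

omit [FiniteDimensional ℝ E] in
theorem curv_apply (B : E → E →L[ℝ] Mat r) (x v w : E) :
    curv B x v w = fderiv ℝ B x v w - fderiv ℝ B x w v + cm (B x v) (B x w) := rfl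

/-- the connection form along the segment from `0` to `x` -/
def ray (B : C(E, E →L[ℝ] Mat r)) (x : E) : C(J, Mat r) :=
  ⟨fun s => B ((s : ℝ) • x) x, by fun_prop⟩

omit [FiniteDimensional ℝ E] in
@[simp] theorem ray_apply (B : C(E, E →L[ℝ] Mat r)) (x : E) (s : J) :
    ray B x s = B ((s : ℝ) • x) x := rfl

/-- `P β` solves `u' = -β u`, `u 0 = 1`, and depends holomorphically on `β` -/
def IsPexp (P : C(J, Mat r) → C(J, Mat r)) : Prop :=
  ContDiff ℂ ∞ P ∧ ∀ β, P β + prim (β * P β) = 1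

/-- the radial frame -/
def radial (P : C(J, Mat r) → C(J, Mat r)) (B : C(E, E →L[ℝ] Mat r)) (x : E) : Mat r :=
  P (ray B x) 1

/-- solutions of `u' = -β u`, `u 0 = 1` with `β` in `L` stay in the closed set `G` -/
def OdeInv (L : Submodule ℂ (Mat r)) (G : Set (Mat r)) : Prop :=
  IsClosed G ∧ ∀ β u : ℝ → Mat r, Continuous β → (∀ s, β s ∈ L) → u 0 = 1 →
    (∀ s ∈ Icc (0 : ℝ) 1, HasDerivAt u (-(β s * u s)) s) → u 1 ∈ G

end pointwise

section loc
variable {E : Type} [NormedAddCommGroup E] [InnerProductSpace ℝ E] [FiniteDimensional ℝ E]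
  [MeasurableSpace E] [BorelSpace E] {r : ℕ} {V : Type} [NormedAddCommGroup V] [NormedSpace ℝ V]

/-- bounded and measurable on `U` -/
def BM (U : Set E) (K : ℝ) (B : E → V) : Prop :=
  AEStronglyMeasurable B (volume.restrict U) ∧ ∀ᵐ x, x ∈ U → ‖B x‖ ≤ K

/-- weakly flat -/
def Flat (U : Set E) (B : E → E →L[ℝ] Mat r) : Prop :=
  WCurl U B fun x v w => -cm (B x v) (B x w)

/-- a parallel frame: `dg = -B g` -/
structure Frame (U : Set E) (B : E → E →L[ℝ] Mat r) (g : E → Mat r) : Prop where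
  cont : ContinuousOn g U
  unit : ∀ x ∈ U, IsUnit (g x).det
  wd : WD 2 U g fun x => -rmul (B x) (g x)

/-- cut off at the ball and mollify -/
def mB (R : ℝ) (k : ℕ) (B : E → V) : E → V := moll k ((ball (0 : E) R).indicator B)

end loc

section rot
variable {n r : ℕ} {Γ : Type} [Group Γ]

/-- the rotated connection form of a metric -/
def rotA (p q : ℂ) (h : EC n → Mat r) (D : EC n → EC n →L[ℝ] Mat r) (x : EC n) :
    EC n →L[ℝ] Mat r := rotB p q (mc (h x) (D x))

/-- `ρ'` is the holonomy of the rotated connection, with the global gauge `g` -/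
structure KAtlas.Rot (A : KAtlas n Γ) (U : Set (EC n)) (ρ : Γ →* Mat r) (h : A.ι → EC n → Mat r)
    (D : A.ι → EC n → EC n →L[ℝ] Mat r) (p q : ℂ) (ρ' : Γ →* Mat r) (g : A.ι → EC n → Mat r) :
    Prop where
  fr : ∀ a, Frame U (rotA p q (h a) (D a)) (g a)
  rel : ∀ a b, ∀ x ∈ A.ov U a b, ρ (A.c a b x) * g b (A.T a b x) = g a x * ρ' (A.c a b x)

end rot

end Pool.Agent.PW
end
end

-- part Pool.Agent.P.MP_65ad7c_ag.FOde
section

open MeasureTheory Set Filter Topology Metric Matrix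
open scoped ComplexOrder ContDiff Matrix.Norms.Frobenius RealInnerProductSpace ENNReal
open Pool.Agent.Lib.Sob

noncomputable section
namespace Pool.Agent.PW

open Pool.Agent.Lib.Flow

theorem fode_inv {X : Type} [NormedAddCommGroup X] [NormedSpace ℂ X] [CompleteSpace X]
    (K : X →L[ℂ] X →L[ℂ] X) (hK : ∀ b y, ∃! u, u + K b u = y) (y : X) :
    ∃ P : X → X, ContDiff ℂ ∞ P ∧ ∀ b, P b + K b (P b) = y := by
  have hu : ∀ b, IsUnit (1 + K b) := by
    intro b
    rw [ContinuousLinearMap.isUnit_iff_bijective, Function.bijective_iff_existsUnique]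
    exact hK b
  refine ⟨fun b => Ring.inverse (1 + K b) y, ?_, fun b => ?_⟩
  · refine ContDiff.clm_apply (contDiff_iff_contDiffAt.2 fun b => ?_) contDiff_const
    obtain ⟨w, hw⟩ := hu b
    have h1 : ContDiffAt ℂ ∞ (Ring.inverse : (X →L[ℂ] X) → _) (1 + K b) := by
      rw [← hw]; exact contDiffAt_ringInverse ℂ (R := X →L[ℂ] X) w
    exact h1.comp b (contDiff_const.add K.contDiff).contDiffAt
  · exact congrArg (fun T : X →L[ℂ] X => T y) (Ring.mul_inverse_cancel _ (hu b))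

section abs
variable {A : Type} [NormedRing A] [NormedAlgebra ℂ A] [NormedSpace ℝ A]
  [CompleteSpace A]

omit [CompleteSpace A] in
theorem fode_smul (c : ℂ) (γ : C(J, A)) : prim (c • γ) = c • prim γ := by
  ext s
  exact intervalIntegral.integral_smul c (ext γ)

omit [CompleteSpace A] in
/-- the primitive as a complex linear map -/
def fode_prim : C(J, A) →L[ℂ] C(J, A) where
  toFun := prim
  map_add' := map_add _
  map_smul' := fode_smul
  cont := (prim (E := A)).continuous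

theorem fode_abs : ∃ P : C(J, A) → C(J, A), ContDiff ℂ ∞ P ∧ ∀ β, P β + prim (β * P β) = 1 := by
  let K : C(J, A) →L[ℂ] C(J, A) →L[ℂ] C(J, A) :=
    ((ContinuousLinearMap.compL ℂ C(J, A) C(J, A) C(J, A)) fode_prim).comp
      (ContinuousLinearMap.mul ℂ C(J, A))
  have hK : ∀ b u, K b u = prim (b * u) := fun b u => rfl
  have := fode_inv K (fun b y => ?_) 1
  · simpa only [hK] using this
  · have := volterra (fun u : C(J, A) => b * u) ‖b‖ (norm_nonneg _) (fun γ η s => by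
      rw [ContinuousMap.mul_apply, ContinuousMap.mul_apply, ← mul_sub]
      exact (norm_mul_le _ _).trans
        (mul_le_mul_of_nonneg_right (b.norm_coe_le_norm s) (norm_nonneg _))) (-1) y
    simpa only [hK, neg_smul, one_smul, sub_neg_eq_add] using this

end abs

/-- the path ordered exponential -/
theorem exists_pexp (r : ℕ) : ∃ P : C(J, Mat r) → C(J, Mat r), IsPexp P := by
  exact fode_abs

end Pool.Agent.PW
end
end

-- part Pool.Agent.P.MP_65ad7c_ag.FGron
section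

open MeasureTheory Set Filter Topology Metric Matrix
open scoped ComplexOrder ContDiff Matrix.Norms.Frobenius RealInnerProductSpace ENNReal
open Pool.Agent.Lib.Sob

noncomputable section
namespace Pool.Agent.PW

open Pool.Agent.Lib.Flow

variable {r : ℕ} {β u Z f : C(J, Mat r)} {g g' : Mat r} {K L L' : ℝ}

theorem Bil.mono (h : Bil L g) (hL : L ≤ L') : Bil L' g := fun Y =>
  ⟨(h Y).1.trans (mul_le_mul_of_nonneg_right hL (norm_nonneg _)),
    (h Y).2.trans (mul_le_mul_of_nonneg_right hL (norm_nonneg _))⟩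

theorem bil_one (hL : 1 ≤ L) : Bil L (1 : Mat r) := by
  intro Y
  rw [Matrix.one_mul]
  exact ⟨le_mul_of_one_le_left (norm_nonneg _) hL, le_mul_of_one_le_left (norm_nonneg _) hL⟩

theorem Bil.mul (h : Bil L g) (h' : Bil L' g') (hL : 0 ≤ L) (hL' : 0 ≤ L') :
    Bil (L * L') (g * g') := by
  intro Y
  rw [Matrix.mul_assoc]
  constructor
  · refine (h (g' * Y)).1.trans ?_
    rw [mul_assoc]
    exact mul_le_mul_of_nonneg_left (h' Y).1 hL
  · refine (h' Y).2.trans ?_
    rw [mul_comm L L', mul_assoc]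
    exact mul_le_mul_of_nonneg_left (h (g' * Y)).2 hL'

theorem Bil.isUnit (h : Bil L g) : IsUnit g.det := by
  have hi : Function.Injective (LinearMap.mulLeft ℂ g) := by
    rw [← LinearMap.ker_eq_bot, LinearMap.ker_eq_bot']
    intro Y hY
    have h1 := (h Y).2
    rw [LinearMap.mulLeft_apply] at hY
    rw [hY, norm_zero, mul_zero] at h1
    exact norm_le_zero_iff.1 h1
  obtain ⟨Y, hY⟩ := LinearMap.injective_iff_surjective.1 hi 1
  exact Matrix.isUnit_det_of_right_inverse hY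

theorem Bil.inv (h : Bil L g) : Bil L g⁻¹ := by
  intro Y
  have h1 := h (g⁻¹ * Y)
  rw [← Matrix.mul_assoc, Matrix.mul_nonsing_inv _ h.isUnit, Matrix.one_mul] at h1
  exact ⟨h1.2, h1.1⟩

theorem Bil.norm_le (h : Bil L g) : ‖g‖ ≤ L * ‖(1 : Mat r)‖ := by
  simpa using (h 1).1

theorem bil_of_norm (hg : g' * g = 1) (h : ‖g‖ ≤ L) (h' : ‖g'‖ ≤ L) : Bil L g := by
  intro Y
  refine ⟨(norm_mul_le _ _).trans (mul_le_mul_of_nonneg_right h (norm_nonneg _)), ?_⟩
  have h1 : Y = g' * (g * Y) := by rw [← Matrix.mul_assoc, hg, Matrix.one_mul]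
  calc ‖Y‖ = ‖g' * (g * Y)‖ := by rw [← h1]
    _ ≤ ‖g'‖ * ‖g * Y‖ := norm_mul_le _ _
    _ ≤ L * ‖g * Y‖ := mul_le_mul_of_nonneg_right h' (norm_nonneg _)

theorem isClosed_bil (L : ℝ) : IsClosed {g : Mat r | Bil L g} := by
  unfold Bil
  rw [Set.ofPred_forall]
  refine isClosed_iInter fun Y => ?_
  have hc : Continuous fun g : Mat r => ‖g * Y‖ := (continuous_id.mul continuous_const).norm
  rw [Set.ofPred_and]
  exact (isClosed_le hc continuous_const).inter
    (isClosed_le continuous_const (continuous_const.mul hc))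

theorem fgron_ext (γ : C(J, Mat r)) (s : J) : ext γ s = γ s := ext_of_mem γ s.2

/-- integral form of the Gronwall inequality -/
theorem gron (hK : ∀ s, ‖β s‖ ≤ K) (h : Z + prim (β * Z) = prim f) :
    ‖Z 1‖ ≤ Real.exp K * ∫ s in (0 : ℝ)..1, ‖ext f s‖ := by
  have hK0 : 0 ≤ K := (norm_nonneg _).trans (hK 0)
  have cf : Continuous fun s => ‖ext f s‖ := (continuous_ext f).norm
  have cZ : Continuous fun s => ‖ext Z s‖ := (continuous_ext Z).norm
  obtain ⟨M, hM⟩ : ∃ M, M = ∫ s in (0 : ℝ)..1, ‖ext f s‖ := ⟨_, rfl⟩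
  obtain ⟨y, hy⟩ : ∃ y : ℝ → ℝ, y = fun t => M + K * ∫ s in (0 : ℝ)..t, ‖ext Z s‖ := ⟨_, rfl⟩
  have hd : ∀ t, HasDerivAt y (K * ‖ext Z t‖) t := fun t => by
    rw [hy]
    exact ((cZ.integral_hasStrictDerivAt 0 t).hasDerivAt.const_mul K).const_add M
  have hZ : ∀ s : J, ‖Z s‖ ≤ y s := by
    intro s
    have e : Z s = prim f s - prim (β * Z) s := by
      rw [← h, ContinuousMap.add_apply, add_sub_cancel_right]
    have h1 : ‖prim f s‖ ≤ M := by
      rw [prim_apply, hM]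
      refine (norm_int_le f s _ cf fun t => (congrArg norm (fgron_ext f t)).ge).trans ?_
      exact intervalIntegral.integral_mono_interval le_rfl s.2.1 s.2.2
        (Eventually.of_forall fun _ => norm_nonneg _) (cf.intervalIntegrable _ _)
    have h2 : ‖prim (β * Z) s‖ ≤ K * ∫ t in (0 : ℝ)..s, ‖ext Z t‖ := by
      rw [prim_apply, ← intervalIntegral.integral_const_mul]
      refine norm_int_le (β * Z) s _ (continuous_const.mul cZ) fun t => ?_
      rw [fgron_ext, ContinuousMap.mul_apply]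
      exact (norm_mul_le _ _).trans (mul_le_mul_of_nonneg_right (hK t) (norm_nonneg _))
    rw [e, hy]
    exact (norm_sub_le _ _).trans (add_le_add h1 h2)
  have hM0 : 0 ≤ M := by
    rw [hM]
    exact intervalIntegral.integral_nonneg zero_le_one fun _ _ => norm_nonneg _
  have key := norm_le_gronwallBound_of_norm_deriv_right_le (f := y)
    (f' := fun t => K * ‖ext Z t‖) (δ := M) (K := K) (ε := 0) (a := 0) (b := 1)
    (fun t _ => (hd t).continuousAt.continuousWithinAt)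
    (fun t _ => (hd t).hasDerivWithinAt)
    (by simp [hy, abs_of_nonneg hM0])
    (fun t ht => by
      have ht' : t ∈ Icc (0 : ℝ) 1 := Ico_subset_Icc_self ht
      rw [add_zero, Real.norm_of_nonneg (mul_nonneg hK0 (norm_nonneg _)), ext_of_mem Z ht']
      exact mul_le_mul_of_nonneg_left ((hZ ⟨t, ht'⟩).trans (le_abs_self _)) hK0)
    1 ⟨zero_le_one, le_rfl⟩
  rw [gronwallBound_ε0, sub_zero, mul_one] at key
  rw [← hM, mul_comm]
  exact (hZ 1).trans ((le_abs_self _).trans key)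

/-- the differentiable extension of a solution -/
theorem fgron_sol (h : u + prim (β * u) = 1) : ∃ W : ℝ → Mat r, (∀ s : J, W s = u s) ∧
    W 0 = 1 ∧ Continuous W ∧ ∀ t ∈ Icc (0 : ℝ) 1, HasDerivAt W (-(ext β t * W t)) t := by
  have hd : ∀ t, HasDerivAt (fun t => 1 - ∫ s in (0 : ℝ)..t, ext (β * u) s)
      (-ext (β * u) t) t := fun t =>
    ((continuous_ext (β * u)).integral_hasStrictDerivAt 0 t).hasDerivAt.const_sub 1
  have he : ∀ s : J, 1 - ∫ t in (0 : ℝ)..s, ext (β * u) t = u s := by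
    intro s
    have := congrArg (fun γ : C(J, Mat r) => γ s) h
    simp only [ContinuousMap.add_apply, ContinuousMap.one_apply, prim_apply] at this
    rw [← this, add_sub_cancel_right]
  refine ⟨_, he, by simp, continuous_iff_continuousAt.2 fun t => (hd t).continuousAt,
    fun t ht => ?_⟩
  have h1 := hd t
  have h2 := he ⟨t, ht⟩
  rw [ext_of_mem _ ht, ContinuousMap.mul_apply, ← h2, ← ext_of_mem β ht] at h1
  exact h1

theorem pexp_bil (hK : ∀ s, ‖β s‖ ≤ K) (h : u + prim (β * u) = 1) (s : J) :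
    Bil (Real.exp K) (u s) := by
  have hK0 : 0 ≤ K := (norm_nonneg _).trans (hK 0)
  obtain ⟨W, h1, h0, hc, hd⟩ := fgron_sol h
  have hb : ∀ t ∈ Icc (0 : ℝ) 1, ∀ X : Mat r, ‖ext β t * X‖ ≤ K * ‖X‖ + 0 := by
    intro t ht X
    rw [add_zero, ext_of_mem β ht]
    exact (norm_mul_le _ _).trans (mul_le_mul_of_nonneg_right (hK _) (norm_nonneg _))
  have he : Real.exp (K * (s - 0)) ≤ Real.exp K := by
    rw [sub_zero]
    exact Real.exp_le_exp.2 (mul_le_of_le_one_right hK0 s.2.2)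
  intro Y
  rw [← h1 s]
  constructor
  · have key := norm_le_gronwallBound_of_norm_deriv_right_le (f := fun t => W t * Y)
      (f' := fun t => -(ext β t * W t) * Y) (δ := ‖Y‖) (K := K) (ε := 0) (a := 0) (b := s)
      (hc.mul continuous_const).continuousOn
      (fun t ht => ((hd t ⟨ht.1, ht.2.le.trans s.2.2⟩).mul_const Y).hasDerivWithinAt)
      (by rw [h0, Matrix.one_mul])
      (fun t ht => by
        rw [neg_mul, norm_neg, Matrix.mul_assoc]
        exact hb t ⟨ht.1, ht.2.le.trans s.2.2⟩ _)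
      s ⟨s.2.1, le_rfl⟩
    rw [gronwallBound_ε0] at key
    rw [mul_comm]
    exact key.trans (mul_le_mul_of_nonneg_left he (norm_nonneg _))
  · have hm : ∀ t ∈ Ico (0 : ℝ) s, (s : ℝ) - t ∈ Icc (0 : ℝ) 1 := fun t ht =>
      ⟨by linarith [ht.2], by linarith [ht.1, s.2.2]⟩
    have key := norm_le_gronwallBound_of_norm_deriv_right_le (f := fun t => W (s - t) * Y)
      (f' := fun t => (ext β (s - t) * W (s - t)) * Y) (δ := ‖W s * Y‖) (K := K) (ε := 0)
      (a := 0) (b := s)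
      ((hc.comp (continuous_const.sub continuous_id)).mul continuous_const).continuousOn
      (fun t ht => by
        have h3 := (HasDerivAt.comp_const_sub (s : ℝ) t (hd _ (hm t ht))).mul_const Y
        rw [neg_neg] at h3
        exact h3.hasDerivWithinAt)
      (by rw [sub_zero])
      (fun t ht => by
        rw [Matrix.mul_assoc]
        exact hb _ (hm t ht) _)
      s ⟨s.2.1, le_rfl⟩
    rw [gronwallBound_ε0, sub_self, h0, Matrix.one_mul] at key
    rw [mul_comm]
    exact key.trans (mul_le_mul_of_nonneg_left he (norm_nonneg _))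

theorem pexp_mem {S : Submodule ℂ (Mat r)} {G : Set (Mat r)} (hG : OdeInv S G) (hβ : ∀ s, β s ∈ S)
    (h : u + prim (β * u) = 1) : u 1 ∈ G := by
  obtain ⟨W, h1, h0, -, hd⟩ := fgron_sol h
  rw [← h1 1]
  exact hG.2 (ext β) W (continuous_ext β) (fun s => hβ _) h0 hd

end Pool.Agent.PW
end
end

-- part Pool.Agent.P.MP_65ad7c_ag.FRad
section

open MeasureTheory Set Filter Topology Metric Matrix
open scoped ComplexOrder ContDiff Matrix.Norms.Frobenius RealInnerProductSpace ENNReal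
open Pool.Agent.Lib.Sob

noncomputable section
namespace Pool.Agent.PW

open Pool.Agent.Lib.Flow

variable {E : Type} [NormedAddCommGroup E] [InnerProductSpace ℝ E] [FiniteDimensional ℝ E] {r : ℕ}
  {P : C(J, Mat r) → C(J, Mat r)} {B : C(E, E →L[ℝ] Mat r)} {K : ℝ}

/-- the path `s ↦ (s x, x)` as a linear function of `x` -/
def frad_eta (E : Type) [NormedAddCommGroup E] [InnerProductSpace ℝ E] [FiniteDimensional ℝ E] :
    E →L[ℝ] C(J, E × E) :=
  LinearMap.toContinuousLinearMap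
    { toFun := fun x => ⟨fun s => ((s : ℝ) • x, x), by fun_prop⟩
      map_add' := fun x y => by
        ext s
        · simp
        · simp
      map_smul' := fun c x => by
        ext s
        · simp [smul_smul, mul_comm]
        · simp }

theorem ray_contDiff (hB : ContDiff ℝ ∞ B) : ContDiff ℝ ∞ (ray B) := by
  let F : C(E × E, Mat r) := ⟨fun z => B z.1 z.2, by fun_prop⟩
  have hF : ContDiff ℝ ∞ F := (hB.comp contDiff_fst).clm_apply contDiff_snd
  exact (contDiff_postcomp (X := J) (n := ⊤) F hF).comp (frad_eta E).contDiff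

theorem ray_fderiv (hB : ContDiff ℝ ∞ B) (x v : E) (s : J) :
    fderiv ℝ (ray B) x v s = (s : ℝ) • fderiv ℝ B ((s : ℝ) • x) v x + B ((s : ℝ) • x) v := by
  have h1 : HasFDerivAt (ray B) (fderiv ℝ (ray B) x) x :=
    ((ray_contDiff hB).differentiable (by simp) x).hasFDerivAt
  have h2 := (ContinuousMap.evalCLM ℝ (M := Mat r) s).hasFDerivAt.comp x h1
  have h3 : HasFDerivAt (fun y : E => (s : ℝ) • y) ((s : ℝ) • ContinuousLinearMap.id ℝ E) x :=
    (hasFDerivAt_id x).const_smul (s : ℝ)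
  have h4 := (((hB.differentiable (by simp) _).hasFDerivAt).comp x h3).clm_apply (hasFDerivAt_id x)
  have h5 := congrArg (fun L => L v) (h2.unique h4)
  simpa [add_comm] using h5

theorem norm_ray_le (hK : ∀ x, ‖B x‖ ≤ K) (x : E) (s : J) : ‖ray B x s‖ ≤ K * ‖x‖ := by
  exact ((B _).le_opNorm x).trans (mul_le_mul_of_nonneg_right (hK _) (norm_nonneg x))

theorem radial_contDiff (hP : IsPexp P) (hB : ContDiff ℝ ∞ B) : ContDiff ℝ 1 (radial P B) := by
  exact ((ContinuousMap.evalCLM ℝ (M := Mat r) (1 : J)).contDiff.comp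
    ((hP.1.restrict_scalars ℝ).comp (ray_contDiff hB))).of_le (by simp)

theorem radial_zero (hP : IsPexp P) : radial P B 0 = 1 := by
  have h0 : ray B 0 = 0 := by
    ext1 s
    simp
  have h1 := hP.2 0
  rw [zero_mul, map_zero, add_zero] at h1
  rw [radial, h0, h1]
  rfl

theorem radial_bil (hP : IsPexp P) (hK : ∀ x, ‖B x‖ ≤ K) (x : E) :
    Bil (Real.exp (K * ‖x‖)) (radial P B x) :=
  pexp_bil (norm_ray_le hK x) (hP.2 _) 1

theorem radial_mem (hP : IsPexp P) {S : Submodule ℂ (Mat r)} {G : Set (Mat r)} (hG : OdeInv S G)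
    (hB : ∀ x v, B x v ∈ S) (x : E) : radial P B x ∈ G :=
  pexp_mem hG (fun _ => hB _ _) (hP.2 _)

theorem radial_hol (hP : IsPexp P) (B1 B2 : C(E, E →L[ℝ] Mat r)) {p q : ℂ → ℂ}
    (hp : Differentiable ℂ p) (hq : Differentiable ℂ q) (x : E) :
    Differentiable ℂ fun w => radial P (p w • B1 + q w • B2) x := by
  have h0 : ∀ w, ray (p w • B1 + q w • B2) x = p w • ray B1 x + q w • ray B2 x := fun w => by
    ext1 s
    rfl
  simp only [radial, h0]
  exact (ContinuousMap.evalCLM ℂ (M := Mat r) (1 : J)).differentiable.comp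
    ((hP.1.differentiable (by simp)).comp ((hp.smul_const _).add (hq.smul_const _)))

end Pool.Agent.PW
end
end

-- part Pool.Agent.P.MP_65ad7c_ag.FErr
section

open MeasureTheory Set Filter Topology Metric Matrix
open scoped ComplexOrder ContDiff Matrix.Norms.Frobenius RealInnerProductSpace ENNReal
open Pool.Agent.Lib.Sob

noncomputable section
namespace Pool.Agent.PW

open Pool.Agent.Lib.Flow

variable {E : Type} [NormedAddCommGroup E] [InnerProductSpace ℝ E] [FiniteDimensional ℝ E] {r : ℕ}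
  {P : C(J, Mat r) → C(J, Mat r)} {B : C(E, E →L[ℝ] Mat r)} {K : ℝ}

omit [FiniteDimensional ℝ E] in
theorem ferr_cont_abs {R : Type} [NormedRing R] [NormedAlgebra ℝ R] :
    Continuous fun X : E →L[ℝ] R => (ContinuousLinearMap.mul ℝ R).bilinearComp X X -
      ((ContinuousLinearMap.mul ℝ R).bilinearComp X X).flip := by
  have h1 : Continuous fun X : E →L[ℝ] R => (ContinuousLinearMap.mul ℝ R).bilinearComp X X := by
    have e : (fun X : E →L[ℝ] R => (ContinuousLinearMap.mul ℝ R).bilinearComp X X) =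
        fun X => (((ContinuousLinearMap.compL ℝ E R R).flip X).comp
          (ContinuousLinearMap.mul ℝ R)).comp X := by
      funext X; ext v w; rfl
    rw [e]
    exact ((((ContinuousLinearMap.compL ℝ E R R).flip).continuous).clm_comp
      continuous_const).clm_comp continuous_id
  exact h1.sub ((ContinuousLinearMap.flipₗᵢ ℝ E E R).continuous.comp h1)

omit [FiniteDimensional ℝ E] in
theorem ferr_cont_norm {R : Type} [NormedAddCommGroup R] [NormedSpace ℝ R]
    {f : E → E →L[ℝ] E →L[ℝ] R} (hf : Continuous f) (x : E) :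
    Continuous fun s : ℝ => ‖f (s • x)‖ :=
  (continuous_norm (E := E →L[ℝ] E →L[ℝ] R)).comp (hf.comp (continuous_id.smul continuous_const))

omit [FiniteDimensional ℝ E] in
theorem ferr_cont_comb {R : Type} [NormedAddCommGroup R] [NormedSpace ℝ R]
    {f g : E → E →L[ℝ] E →L[ℝ] R} (hf : Continuous f) (hg : Continuous g) :
    Continuous fun x => f x - (f x).flip + g x :=
  (hf.sub ((ContinuousLinearMap.flipₗᵢ ℝ E E R).continuous.comp hf)).add hg

omit [FiniteDimensional ℝ E] in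
theorem ferr_cont_cmF : Continuous fun X : E →L[ℝ] Mat r => cmF X := ferr_cont_abs

omit [FiniteDimensional ℝ E] in
theorem continuous_curv (hB : ContDiff ℝ ∞ B) : Continuous (curv B) := by
  have h1 : Continuous (fderiv ℝ B) := hB.continuous_fderiv (by simp)
  exact ferr_cont_comb h1 (ferr_cont_cmF.comp B.continuous)

omit [FiniteDimensional ℝ E] in
/-- differentiating the integral equation in the parameter -/
theorem ferr_lin {F G : E → C(J, Mat r)} {F' G' : E →L[ℝ] C(J, Mat r)} {x : E}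
    (hF : HasFDerivAt F F' x) (hG : HasFDerivAt G G' x) (h : ∀ y, G y + prim (F y * G y) = 1)
    (v : E) : G' v + prim (F x * G' v + F' v * G x) = 0 := by
  have h1 := hG.add ((prim (E := Mat r)).hasFDerivAt.comp x (hF.mul' hG))
  have h2 : HasFDerivAt (G + (prim (E := Mat r)) ∘ (F * G)) (0 : E →L[ℝ] C(J, Mat r)) x := by
    have e : (G + (prim (E := Mat r)) ∘ (F * G)) = fun _ => 1 := funext h
    rw [e]; exact hasFDerivAt_const _ _
  have h3 := congrArg (fun L : E →L[ℝ] C(J, Mat r) => L v) (h1.unique h2)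
  simpa using h3

/-- a product with the solution is the primitive of its derivative -/
theorem ferr_prim {β u : C(J, Mat r)} (h : u + prim (β * u) = 1) {g g' : ℝ → Mat r}
    (hg : ∀ t, HasDerivAt g (g' t) t) (h0 : g 0 = 0) (W W' : C(J, Mat r))
    (hW : ∀ s : J, W s = g s * u s) (hW' : ∀ s : J, W' s = g' s * u s - g s * (β s * u s)) :
    W = prim W' := by
  let U : ℝ → Mat r := fun t => 1 - ∫ a in (0 : ℝ)..t, ext (β * u) a
  have hU : ∀ t, HasDerivAt U (-ext (β * u) t) t := fun t =>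
    ((continuous_ext (β * u)).integral_hasStrictDerivAt 0 t).hasDerivAt.const_sub 1
  have hUu : ∀ s : J, U s = u s := fun s => by
    have := congrArg (fun γ : C(J, Mat r) => γ s) h
    simp only [ContinuousMap.add_apply, prim_apply, ContinuousMap.one_apply] at this
    simp only [U]
    rw [← this]; abel
  refine ContinuousMap.ext fun s => ?_
  rw [prim_apply, intervalIntegral.integral_eq_sub_of_hasDerivAt (f := fun t => g t * U t)
    (fun t ht => ?_) ((continuous_ext W').intervalIntegrable _ _), hW, h0, hUu, zero_mul, sub_zero]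
  rw [uIcc_of_le s.2.1] at ht
  have ht' : t ∈ Icc (0 : ℝ) 1 := ⟨ht.1, ht.2.trans s.2.2⟩
  have h1 := (hg t).mul (hU t)
  rw [ext_of_mem _ ht'] at h1
  rw [ext_of_mem _ ht', hW']
  have e := hUu ⟨t, ht'⟩
  simp only at e
  refine h1.congr_deriv ?_
  rw [e, ContinuousMap.mul_apply, mul_neg, sub_eq_add_neg]

/-- the defect of the radial frame is controlled by the curvature along the ray -/
theorem radial_err (hP : IsPexp P) (hB : ContDiff ℝ ∞ B) (hK : ∀ x, ‖B x‖ ≤ K) (x : E) :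
    ‖fderiv ℝ (radial P B) x + rmul (B x) (radial P B x)‖ ≤
      Real.exp (K * ‖x‖) ^ 2 * ‖(1 : Mat r)‖ * ‖x‖ * ∫ s in (0 : ℝ)..1, ‖curv B (s • x)‖ := by
  have hcc : Continuous fun s : ℝ => ‖curv B (s • x)‖ :=
    ferr_cont_norm (continuous_curv hB) x
  have hI : 0 ≤ ∫ s in (0 : ℝ)..1, ‖curv B (s • x)‖ :=
    intervalIntegral.integral_nonneg zero_le_one fun _ _ => ContinuousLinearMap.opNorm_nonneg _
  refine ContinuousLinearMap.opNorm_le_bound _ (by positivity) fun v => ?_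
  have hF : HasFDerivAt (ray B) (fderiv ℝ (ray B) x) x :=
    ((ray_contDiff hB).differentiable (by simp) x).hasFDerivAt
  have hPd : Differentiable ℝ P := (hP.1.differentiable (by simp)).restrictScalars ℝ
  have hG : HasFDerivAt (fun y => P (ray B y)) (fderiv ℝ (fun y => P (ray B y)) x) x :=
    ((hPd _).comp x hF.differentiableAt).hasFDerivAt
  set Y := fderiv ℝ (fun y => P (ray B y)) x v with hY
  set β := ray B x with hβ
  set u := P β with hu
  have hlin : Y + prim (β * Y + fderiv ℝ (ray B) x v * u) = 0 :=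
    ferr_lin hF hG (fun y => hP.2 _) v
  have hY1 : fderiv ℝ (radial P B) x v = Y 1 := by
    have := ((ContinuousMap.evalCLM ℝ (1 : J) : C(J, Mat r) →L[ℝ] Mat r).hasFDerivAt.comp x
      hG).fderiv
    exact congrArg (fun L : E →L[ℝ] Mat r => L v) this
  have hBd : Differentiable ℝ B := hB.differentiable (by simp)
  have hB' : Continuous (fderiv ℝ B) := hB.continuous_fderiv (by simp)
  have hg : ∀ t : ℝ, HasDerivAt (fun t : ℝ => t • B (t • x) v)
      (t • fderiv ℝ B (t • x) x v + B (t • x) v) t := fun t => by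
    have h1 : HasDerivAt (fun t : ℝ => t • x) x t := by
      simpa using (hasDerivAt_id t).smul_const x
    have h2 := ((hBd (t • x)).hasFDerivAt.comp_hasDerivAt t h1).clm_apply
      (hasDerivAt_const t v)
    have h3 := (hasDerivAt_id t).smul h2
    refine HasDerivAt.congr_deriv h3 ?_
    simp
  let W : C(J, Mat r) := ⟨fun s => ((s : ℝ) • B ((s : ℝ) • x) v) * u s, by fun_prop⟩
  let W' : C(J, Mat r) :=
    ⟨fun s => ((s : ℝ) • fderiv ℝ B ((s : ℝ) • x) x v + B ((s : ℝ) • x) v) * u s -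
      ((s : ℝ) • B ((s : ℝ) • x) v) * (β s * u s), by fun_prop⟩
  have hW : W = prim W' := ferr_prim (hP.2 β) hg (by simp) W W' (fun _ => rfl) (fun _ => rfl)
  let f : C(J, Mat r) := W' - fderiv ℝ (ray B) x v * u + β * W
  have hZ : (Y + W) + prim (β * (Y + W)) = prim f := by
    have e : Y = -prim (β * Y + fderiv ℝ (ray B) x v * u) := eq_neg_of_add_eq_zero_left hlin
    simp only [f, mul_add, map_add, map_sub, ← hW] at e ⊢
    rw [← sub_eq_zero]
    have e2 : Y + W + (prim (β * Y) + prim (β * W)) -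
        (W - prim (fderiv ℝ (ray B) x v * u) + prim (β * W)) =
        Y - -(prim (β * Y) + prim (fderiv ℝ (ray B) x v * u)) := by abel
    rw [e2, ← e, sub_self]
  have hf : ∀ s : J, f s = ((s : ℝ) • curv B ((s : ℝ) • x) x v) * u s := fun s => by
    simp only [f, W, W', ContinuousMap.add_apply, ContinuousMap.sub_apply, ContinuousMap.mul_apply,
      ContinuousMap.coe_mk, ray_fderiv hB, curv_apply, hβ, ray_apply, cm, smul_add, smul_sub,
      add_mul, sub_mul, smul_mul_assoc, mul_smul_comm, mul_assoc]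
    abel
  have hb := gron (norm_ray_le hK x) hZ
  have hu1 : ∀ s : J, ‖u s‖ ≤ Real.exp (K * ‖x‖) * ‖(1 : Mat r)‖ := fun s =>
    (pexp_bil (norm_ray_le hK x) (hP.2 _) s).norm_le
  have hint : ∫ s in (0 : ℝ)..1, ‖ext f s‖ ≤ ∫ s in (0 : ℝ)..1,
      (‖x‖ * ‖v‖ * (Real.exp (K * ‖x‖) * ‖(1 : Mat r)‖)) * ‖curv B (s • x)‖ := by
    refine intervalIntegral.integral_mono_on zero_le_one
      ((continuous_ext f).norm.intervalIntegrable _ _)
      ((continuous_const.mul hcc).intervalIntegrable _ _) fun s hs => ?_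
    rw [ext_of_mem _ hs, hf]
    have h1 : ‖s • curv B (s • x) x v‖ ≤ ‖curv B (s • x)‖ * ‖x‖ * ‖v‖ := by
      rw [norm_smul, Real.norm_eq_abs, abs_of_nonneg hs.1]
      exact (mul_le_of_le_one_left (norm_nonneg _) hs.2).trans
        (ContinuousLinearMap.le_opNorm₂ _ _ _)
    refine (norm_mul_le _ _).trans ((mul_le_mul h1 (hu1 _) (norm_nonneg _) (by positivity)).trans
      (le_of_eq (by ring)))
  rw [intervalIntegral.integral_const_mul] at hint
  have e : (fderiv ℝ (radial P B) x + rmul (B x) (radial P B x)) v = (Y + W) 1 := by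
    rw [_root_.add_apply, hY1, rmul_apply, ContinuousMap.add_apply]
    simp [W, radial, hu, hβ]
  rw [e]
  refine hb.trans ((mul_le_mul_of_nonneg_left hint (Real.exp_pos _).le).trans (le_of_eq ?_))
  ring

end Pool.Agent.PW
end
end

-- part Pool.Agent.P.MP_65ad7c_ag.FMoll
section

open MeasureTheory Set Filter Topology Metric Matrix
open scoped ComplexOrder ContDiff Matrix.Norms.Frobenius RealInnerProductSpace ENNReal
open Pool.Agent.Lib.Sob

noncomputable section
namespace Pool.Agent.PW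

variable {E : Type} [NormedAddCommGroup E] [InnerProductSpace ℝ E] [FiniteDimensional ℝ E]
  [MeasurableSpace E] [BorelSpace E] {r : ℕ} {U : Set E}

variable {V : Type} [NormedAddCommGroup V] [NormedSpace ℝ V] [CompleteSpace V] {R K : ℝ}
  {u : E → V} {B A1 A2 : E → E →L[ℝ] Mat r}

theorem BM.integrable (h : BM (ball 0 R) K u) : Integrable ((ball (0 : E) R).indicator u) := by
  have : IsFiniteMeasure (volume.restrict (ball (0 : E) R)) :=
    ⟨by simpa using measure_ball_lt_top⟩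
  refine (integrable_indicator_iff measurableSet_ball).2 (Integrable.of_bound h.1 K ?_)
  filter_upwards [ae_restrict_mem measurableSet_ball, ae_restrict_of_ae h.2] with x hx h' using h' hx

theorem BM.locLp (n : ℕ) (h : BM U K u) : LocLp n U u := by
  intro K' hK hKU
  have : IsFiniteMeasure (volume.restrict K') := ⟨by simpa using hK.measure_lt_top⟩
  refine MemLp.of_bound (h.1.mono_measure (Measure.restrict_mono hKU le_rfl)) K ?_
  filter_upwards [ae_restrict_mem hK.measurableSet, ae_restrict_of_ae h.2] with x hx h'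
    using h' (hKU hx)

theorem BM.lin (h1 : BM U K A1) (h2 : BM U K A2) (p q : ℂ) :
    BM U (K * (‖p‖ + ‖q‖)) fun x => p • A1 x + q • A2 x := by
  refine ⟨(h1.1.const_smul p).add (h2.1.const_smul q), ?_⟩
  filter_upwards [h1.2, h2.2] with x a b hx
  calc ‖p • A1 x + q • A2 x‖ ≤ ‖p‖ * ‖A1 x‖ + ‖q‖ * ‖A2 x‖ :=
        (norm_add_le _ _).trans (add_le_add (ContinuousLinearMap.opNorm_smul_le p (A1 x))
          (ContinuousLinearMap.opNorm_smul_le q (A2 x)))
    _ ≤ ‖p‖ * K + ‖q‖ * K := add_le_add (mul_le_mul_of_nonneg_left (a hx) (norm_nonneg _))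
        (mul_le_mul_of_nonneg_left (b hx) (norm_nonneg _))
    _ = K * (‖p‖ + ‖q‖) := by ring

omit [FiniteDimensional ℝ E] [MeasurableSpace E] [BorelSpace E] in
theorem norm_cmF_le (X : E →L[ℝ] Mat r) : ‖cmF X‖ ≤ 2 * ‖X‖ ^ 2 := by
  refine ContinuousLinearMap.opNorm_le_bound₂ _ (by positivity) fun v w => ?_
  have a := X.le_opNorm v
  have b := X.le_opNorm w
  have c : ‖X v‖ * ‖X w‖ ≤ (‖X‖ * ‖v‖) * (‖X‖ * ‖w‖) :=
    mul_le_mul a b (norm_nonneg _) (by positivity)
  rw [cmF_apply, cm]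
  have d := norm_mul_le (X v) (X w)
  have e := norm_mul_le (X w) (X v)
  have f := norm_sub_le (X v * X w) (X w * X v)
  nlinarith

omit [FiniteDimensional ℝ E] [MeasurableSpace E] [BorelSpace E] [CompleteSpace V] in
theorem fmoll_cont (f : V →L[ℝ] V →L[ℝ] V) :
    (Continuous fun X : E →L[ℝ] V => f.bilinearComp X X) ∧
      Continuous fun X : E →L[ℝ] V => (f.bilinearComp X X).flip := by
  have a : Continuous fun X : E →L[ℝ] V => f.comp X := continuous_const.clm_comp continuous_id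
  have b : Continuous fun X : E →L[ℝ] V => (f.comp X).flip :=
    (ContinuousLinearMap.flipₗᵢ ℝ E V V).continuous.comp a
  have c : Continuous fun X : E →L[ℝ] V => (f.comp X).flip.comp X := b.clm_comp continuous_id
  have d : Continuous fun X : E →L[ℝ] V => f.bilinearComp X X :=
    (ContinuousLinearMap.flipₗᵢ ℝ E E V).continuous.comp c
  exact ⟨d, (ContinuousLinearMap.flipₗᵢ ℝ E E V).continuous.comp d⟩

omit [FiniteDimensional ℝ E] [MeasurableSpace E] [BorelSpace E] in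
theorem continuous_cmF : Continuous (cmF : (E →L[ℝ] Mat r) → _) := by
  have a := fmoll_cont (E := E) (ContinuousLinearMap.mul ℝ (Mat r))
  exact a.1.sub a.2

theorem BM.cmF (h : BM U K B) : BM U (2 * K ^ 2) fun x => cmF (B x) := by
  refine ⟨continuous_cmF.comp_aestronglyMeasurable h.1, ?_⟩
  filter_upwards [h.2] with x a hx
  refine (norm_cmF_le _).trans ?_
  have := pow_le_pow_left₀ (norm_nonneg _) (a hx) 2
  linarith

theorem mB_contDiff (h : BM (ball 0 R) K u) (k : ℕ) : ContDiff ℝ ∞ (mB R k u) := by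
  exact contDiff_moll k h.integrable.locallyIntegrable

theorem mB_norm_le (hK : 0 ≤ K) (h : BM (ball 0 R) K u) (k : ℕ) (x : E) : ‖mB R k u x‖ ≤ K := by
  have h0 : ∀ᵐ y, ‖(ball (0 : E) R).indicator u y‖ ≤ K := by
    filter_upwards [h.2] with y hy
    by_cases hb : y ∈ ball (0 : E) R
    · rw [indicator_of_mem hb]; exact hy hb
    · rw [indicator_of_notMem hb, norm_zero]; exact hK
  unfold mB moll
  rw [convolution_lsmul_swap]
  have hi : Integrable fun t => (bump E k).normed volume (x - t) * K :=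
    ((bump E k).integrable_normed.comp_sub_left x).mul_const K
  refine (norm_integral_le_of_norm_le hi ?_).trans (le_of_eq ?_)
  · filter_upwards [h0] with y hy
    rw [norm_smul, Real.norm_of_nonneg ((bump E k).nonneg_normed _)]
    exact mul_le_mul_of_nonneg_left hy ((bump E k).nonneg_normed _)
  · rw [integral_mul_const, integral_sub_left_eq_self, (bump E k).integral_normed, one_mul]

theorem mB_tendsto (h : BM (ball 0 R) K u) :
    ∀ᵐ x, x ∈ ball (0 : E) R → Tendsto (fun k => mB R k u x) atTop (𝓝 (u x)) := by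
  filter_upwards [ae_tendsto_moll h.integrable.locallyIntegrable] with x hx hb
  rwa [indicator_of_mem hb] at hx

theorem fmoll_int (h : BM (ball 0 R) K u) (k : ℕ) (x : E) :
    Integrable fun t => (bump E k).normed volume (x - t) • (ball (0 : E) R).indicator u t :=
  ((bump E k).hasCompactSupport_normed.convolutionExists_left (ContinuousLinearMap.lsmul ℝ ℝ)
    (bump E k).continuous_normed h.integrable.locallyIntegrable x).integrable_swap

theorem mB_lin (h1 : BM (ball 0 R) K A1) (h2 : BM (ball 0 R) K A2) (p q : ℂ) (k : ℕ) (x : E) :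
    mB R k (fun y => p • A1 y + q • A2 y) x = p • mB R k A1 x + q • mB R k A2 x := by
  have i1 := fmoll_int h1 k x
  have i2 := fmoll_int h2 k x
  unfold mB moll
  rw [convolution_lsmul_swap, convolution_lsmul_swap, convolution_lsmul_swap, ← integral_smul,
    ← integral_smul]
  refine Eq.trans ?_ (integral_add (i1.smul p) (i2.smul q))
  refine integral_congr_ae (Eventually.of_forall fun t => ?_)
  by_cases hb : t ∈ ball (0 : E) R
  · simp only [indicator_of_mem hb, smul_add, smul_comm _ p, smul_comm _ q]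
  · simp only [indicator_of_notMem hb, smul_zero, add_zero]

theorem mB_mem (h : BM (ball 0 R) K B) {S : Submodule ℂ (Mat r)}
    (hS : ∀ᵐ x, x ∈ ball (0 : E) R → ∀ v, B x v ∈ S) (k : ℕ) (x v : E) : mB R k B x v ∈ S := by
  have i1 := fmoll_int h k x
  unfold mB moll
  rw [convolution_lsmul_swap, ContinuousLinearMap.integral_apply i1]
  by_contra hn
  obtain ⟨f, hf, hf0⟩ := Submodule.exists_dual_map_eq_bot_of_notMem hn inferInstance
  have hz : ∀ y ∈ S, f y = 0 := fun y hy => by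
    have : f y ∈ S.map f := Submodule.mem_map_of_mem hy
    rwa [hf0, Submodule.mem_bot] at this
  have i2 := (ContinuousLinearMap.apply ℝ (Mat r) v).integrable_comp i1
  have key := (LinearMap.toContinuousLinearMap f).integral_comp_comm i2
  refine hf (key.symm.trans (integral_eq_zero_of_ae ?_))
  filter_upwards [hS] with y hy
  refine hz _ ?_
  by_cases hb : y ∈ ball (0 : E) R
  · simp only [indicator_of_mem hb, ContinuousLinearMap.apply_apply, _root_.smul_apply]
    exact S.smul_of_tower_mem _ (hy hb v)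
  · simp only [indicator_of_notMem hb, smul_zero, map_zero, S.zero_mem]

end Pool.Agent.PW
end
end

-- part Pool.Agent.P.MP_65ad7c_ag.FCurv
section

open MeasureTheory Set Filter Topology Metric Matrix
open scoped ComplexOrder ContDiff Matrix.Norms.Frobenius RealInnerProductSpace ENNReal
open Pool.Agent.Lib.Sob

noncomputable section
namespace Pool.Agent.PW

variable {E : Type} [NormedAddCommGroup E] [InnerProductSpace ℝ E] [FiniteDimensional ℝ E]
  [MeasurableSpace E] [BorelSpace E] {r : ℕ} {U : Set E}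

section aux
variable {V : Type} [NormedAddCommGroup V] [NormedSpace ℝ V] [CompleteSpace V] {R K : ℝ}
  {u : E → V}

/-- the translated bump -/
def fcurvPhi (k : ℕ) (x : E) : E → ℝ := fun t => (bump E k).normed volume (x - t)

theorem fcurv_test {R' : ℝ} {k : ℕ} (hk : 1 / ((k : ℝ) + 1) < R - R') {x : E}
    (hx : x ∈ closedBall (0 : E) R') : IsTest (ball (0 : E) R) (fcurvPhi k x) := by
  refine ⟨(bump E k).contDiff_normed.comp (contDiff_const.sub contDiff_id),
    (bump E k).hasCompactSupport_normed.comp_homeomorph (Homeomorph.subLeft x), ?_⟩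
  have h1 : Function.support (fcurvPhi k x) ⊆ closedBall x (1 / ((k : ℝ) + 1)) := by
    intro t ht
    have h' : x - t ∈ Function.support ((bump E k).normed volume) := ht
    rw [(bump E k).support_normed_eq, mem_ball, dist_zero_right] at h'
    rw [mem_closedBall, dist_comm, dist_eq_norm]
    exact h'.le
  refine (closure_minimal h1 isClosed_closedBall).trans fun t ht => ?_
  rw [mem_closedBall] at ht hx
  rw [mem_ball]
  have := dist_triangle t x 0
  linarith

omit [CompleteSpace V] in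
theorem fcurv_moll {k : ℕ} {x : E} (hφ : IsTest (ball (0 : E) R) (fcurvPhi k x)) (u : E → V) :
    mB R k u x = ∫ t, fcurvPhi k x t • u t := by
  unfold mB moll
  rw [convolution_lsmul_swap]
  refine integral_congr_ae (Eventually.of_forall fun t => ?_)
  by_cases ht : t ∈ ball (0 : E) R
  · simp only [indicator_of_mem ht, fcurvPhi]
  · have := hφ.zero_of_notMem ht
    simp only [indicator_of_notMem ht, smul_zero, this, zero_smul]

theorem fcurv_fderiv (h : BM (ball 0 R) K u) {k : ℕ} {x : E}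
    (hφ : IsTest (ball (0 : E) R) (fcurvPhi k x)) (e : E) :
    fderiv ℝ (mB R k u) x e = -∫ t, fderiv ℝ (fcurvPhi k x) t e • u t := by
  have sρ : ContDiff ℝ ∞ ((bump E k).normed volume) := (bump E k).contDiff_normed
  have cρ : HasCompactSupport ((bump E k).normed volume) := (bump E k).hasCompactSupport_normed
  have lu := h.integrable.locallyIntegrable
  have h1 := (cρ.hasFDerivAt_convolution_left (ContinuousLinearMap.lsmul ℝ ℝ)
    (sρ.of_le (by simp)) lu x).fderiv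
  unfold mB moll
  rw [h1]
  have i1 := ((cρ.fderiv ℝ).convolutionExists_left
    ((ContinuousLinearMap.lsmul ℝ ℝ : ℝ →L[ℝ] V →L[ℝ] V).precompL E)
    (sρ.continuous_fderiv (by simp)) lu x).integrable_swap
  rw [convolution_eq_swap, ContinuousLinearMap.integral_apply i1, ← integral_neg]
  have hd : ∀ t, fderiv ℝ (fcurvPhi k x) t e =
      -fderiv ℝ ((bump E k).normed volume) (x - t) e := by
    intro t
    have := ((sρ.differentiable (by simp) (x - t)).hasFDerivAt.comp t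
      ((hasFDerivAt_id t).const_sub x)).fderiv
    rw [show fcurvPhi k x = (bump E k).normed volume ∘ HSub.hSub x from rfl, this]
    simp
  refine integral_congr_ae (Eventually.of_forall fun t => ?_)
  by_cases ht : t ∈ ball (0 : E) R
  · simp [indicator_of_mem ht, hd]
  · have := hφ.fderiv_zero_of_notMem ht
    simp [indicator_of_notMem ht, this]

omit [NormedSpace ℝ V] [CompleteSpace V] in
theorem fcurv_sub {f g : ℕ → V} {a : V} (h1 : Tendsto f atTop (𝓝 a)) (h2 : Tendsto g atTop (𝓝 a)) :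
    Tendsto (fun k => f k - g k) atTop (𝓝 0) := by
  simpa using h1.sub h2

end aux

variable {R K : ℝ} {B : E → E →L[ℝ] Mat r}

/-- the curvature of the mollified connection -/
theorem curv_mB (h : BM (ball 0 R) K B) (hf : Flat (ball 0 R) B) {R' : ℝ} (hR : R' < R) :
    ∀ᶠ k in atTop, ∀ x ∈ closedBall (0 : E) R',
      curv (mB R k B) x = cmF (mB R k B x) - mB R k (fun y => cmF (B y)) x := by
  filter_upwards [(tendsto_one_div_add_atTop_nhds_zero_nat (𝕜 := ℝ)).eventually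
    (gt_mem_nhds (sub_pos.2 hR))] with k hk x hx
  have hφ := fcurv_test hk hx
  refine ContinuousLinearMap.ext fun v => ContinuousLinearMap.ext fun w => ?_
  have l1 : LocLp 1 (ball (0 : E) R) B := h.locLp 1
  have l2 : LocLp 1 (ball (0 : E) R) fun y => cmF (B y) := h.cmF.locLp 1
  have e1 : ∀ a b : E, fderiv ℝ (mB R k B) x a b =
      -∫ t, fderiv ℝ (fcurvPhi k x) t a • B t b := by
    intro a b
    rw [fcurv_fderiv h hφ a, _root_.neg_apply,
      ContinuousLinearMap.integral_apply (l1.integrable_dtest le_rfl hφ a)]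
    rfl
  have e2 : mB R k (fun y => cmF (B y)) x v w =
      ∫ t, fcurvPhi k x t • cm (B t v) (B t w) := by
    have i1 := l2.integrable_test le_rfl hφ
    have i2 := (l2.apply v).integrable_test le_rfl hφ
    rw [fcurv_moll hφ, ContinuousLinearMap.integral_apply i1]
    exact ContinuousLinearMap.integral_apply i2 w
  have key := hf _ hφ v w
  rw [integral_sub ((l1.apply w).integrable_dtest le_rfl hφ v)
    ((l1.apply v).integrable_dtest le_rfl hφ w)] at key
  simp only [smul_neg, integral_neg, neg_neg] at key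
  rw [curv_apply, _root_.sub_apply, _root_.sub_apply, cmF_apply, e1, e1,
    e2, ← key]
  abel

theorem curv_mB_le (hK : 0 ≤ K) (h : BM (ball 0 R) K B) (hf : Flat (ball 0 R) B) {R' : ℝ}
    (hR : R' < R) : ∀ᶠ k in atTop, ∀ x ∈ closedBall (0 : E) R', ‖curv (mB R k B) x‖ ≤ 4 * K ^ 2 := by
  filter_upwards [curv_mB h hf hR] with k hk x hx
  rw [hk x hx]
  have h1 := norm_cmF_le (mB R k B x)
  have h2 := mB_norm_le (by positivity) h.cmF k x
  have h3 := pow_le_pow_left₀ (norm_nonneg _) (mB_norm_le hK h k x) 2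
  have h4 := norm_sub_le (cmF (mB R k B x)) (mB R k (fun y => cmF (B y)) x)
  linarith

theorem curv_mB_tendsto (h : BM (ball 0 R) K B) (hf : Flat (ball 0 R) B) :
    ∀ᵐ x, x ∈ ball (0 : E) R → Tendsto (fun k => curv (mB R k B) x) atTop (𝓝 0) := by
  filter_upwards [mB_tendsto h, mB_tendsto h.cmF] with x h1 h2 hx
  have h3 := fcurv_sub (V := E →L[ℝ] E →L[ℝ] Mat r)
    ((continuous_cmF.tendsto _).comp (h1 hx)) (h2 hx)
  refine h3.congr' ?_
  filter_upwards [curv_mB h hf (mem_ball.1 hx)] with k hk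
  exact (hk x (mem_closedBall.2 le_rfl)).symm

end Pool.Agent.PW
end
end

-- part Pool.Agent.P.MP_65ad7c_ag.FRay
section

open MeasureTheory Set Filter Topology Metric Matrix
open scoped ComplexOrder ContDiff Matrix.Norms.Frobenius RealInnerProductSpace ENNReal
open Pool.Agent.Lib.Sob

noncomputable section
namespace Pool.Agent.PW

variable {E : Type} [NormedAddCommGroup E] [InnerProductSpace ℝ E] [FiniteDimensional ℝ E]
  [MeasurableSpace E] [BorelSpace E] {r : ℕ} {U : Set E}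

variable {V : Type} [NormedAddCommGroup V]

/-- integrals along rays of bounded functions that tend to zero almost everywhere -/
theorem ray_tendsto {F : ℕ → E → V} (hF : ∀ k, Continuous (F k)) {R M : ℝ}
    (hb : ∀ᶠ k in atTop, ∀ x ∈ closedBall (0 : E) R, ‖F k x‖ ≤ M)
    (h0 : ∀ᵐ x, x ∈ closedBall (0 : E) R → Tendsto (fun k => F k x) atTop (𝓝 0)) :
    Tendsto (fun k => ∫⁻ x in closedBall (0 : E) R,
      ENNReal.ofReal (∫ s in (0 : ℝ)..1, ‖F k (s • x)‖)) atTop (𝓝 0) := by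
  obtain ⟨N, hN, mN, zN⟩ := exists_measurable_superset_of_null (ae_iff.1 h0)
  have h1 : ∀ᵐ s : ℝ, ∀ᵐ x : E, s • x ∉ N := by
    filter_upwards [compl_mem_ae_iff.2 (measure_singleton (0 : ℝ))] with s hs
    have : volume ((fun x : E => s • x) ⁻¹' N) = 0 := by
      rw [Measure.addHaar_preimage_smul volume hs, zN, mul_zero]
    exact compl_mem_ae_iff.2 this
  have h2 : ∀ᵐ x : E, ∀ᵐ s : ℝ, s • x ∉ N :=
    (Measure.ae_ae_comm (p := fun (x : E) (s : ℝ) => s • x ∉ N)
      ((measurable_snd.smul measurable_fst) mN).compl).2 h1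
  have mem : ∀ x ∈ closedBall (0 : E) R, ∀ s ∈ uIoc (0 : ℝ) 1, s • x ∈ closedBall (0 : E) R := by
    intro x hx s hs
    rw [uIoc_of_le zero_le_one] at hs
    rw [mem_closedBall_zero_iff] at hx ⊢
    rw [norm_smul, Real.norm_of_nonneg hs.1.le]
    exact (mul_le_of_le_one_left (norm_nonneg _) hs.2).trans hx
  have key := tendsto_lintegral_filter_of_dominated_convergence
    (μ := volume.restrict (closedBall (0 : E) R)) (l := atTop)
    (F := fun k x => ENNReal.ofReal (∫ s in (0 : ℝ)..1, ‖F k (s • x)‖)) (f := fun _ => 0)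
    (fun _ => ENNReal.ofReal M) (Eventually.of_forall fun k => ?_) ?_ ?_ ?_
  · simpa using key
  · have hk := hF k
    exact (intervalIntegral.continuous_parametric_intervalIntegral_of_continuous'
      (f := fun (x : E) (s : ℝ) => ‖F k (s • x)‖) (by fun_prop) 0 1).measurable.ennreal_ofReal
  · filter_upwards [hb] with k hk
    filter_upwards [ae_restrict_mem measurableSet_closedBall] with x hx
    refine ENNReal.ofReal_le_ofReal ((le_abs_self _).trans ?_)
    have := intervalIntegral.norm_integral_le_of_norm_le_const (a := 0) (b := 1) (C := M)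
      (f := fun s => ‖F k (s • x)‖) fun s hs => by
        rw [norm_norm]; exact hk _ (mem x hx s hs)
    simpa using this
  · rw [setLIntegral_const]
    exact ENNReal.mul_ne_top ENNReal.ofReal_ne_top measure_closedBall_lt_top.ne
  · filter_upwards [ae_restrict_mem measurableSet_closedBall, ae_restrict_of_ae h2] with x hx hx2
    have := intervalIntegral.tendsto_integral_filter_of_dominated_convergence (l := atTop)
      (μ := volume) (a := 0) (b := 1) (F := fun k s => ‖F k (s • x)‖) (f := fun _ => (0 : ℝ))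
      (fun _ => M) (Eventually.of_forall fun k => ?_) ?_ intervalIntegrable_const ?_
    · simpa using ENNReal.tendsto_ofReal this
    · have hk := hF k
      exact Continuous.aestronglyMeasurable (by fun_prop)
    · filter_upwards [hb] with k hk
      exact Eventually.of_forall fun s hs => by
        rw [norm_norm]; exact hk _ (mem x hx s hs)
    · filter_upwards [hx2] with s hs hs'
      by_contra h
      exact hs (hN fun h' => h (by simpa using (h' (mem x hx s hs')).norm))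

end Pool.Agent.PW
end
end

-- part Pool.Agent.P.MP_65ad7c_ag.FLim
section

open MeasureTheory Set Filter Topology Metric Matrix
open scoped ComplexOrder ContDiff Matrix.Norms.Frobenius RealInnerProductSpace ENNReal
open Pool.Agent.Lib.Sob

noncomputable section
namespace Pool.Agent.PW

open scoped NNReal

theorem flim_unif {X V ι : Type} [PseudoMetricSpace X] [PseudoMetricSpace V] {K : Set X}
    (hK : IsCompact K) {f : ι → X → V} {F : X → V} {L : ℝ≥0} {l : Filter ι} [l.NeBot]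
    (hL : ∀ᶠ k in l, LipschitzOnWith L (f k) K)
    (hc : ∀ x ∈ K, Tendsto (fun k => f k x) l (𝓝 (F x))) : TendstoUniformlyOn f F l K := by
  have hF : ∀ x ∈ K, ∀ y ∈ K, dist (F x) (F y) ≤ L * dist x y := by
    intro x hx y hy
    refine le_of_tendsto ((hc x hx).dist (hc y hy)) ?_
    filter_upwards [hL] with k hk using hk.dist_le_mul x hx y hy
  rw [Metric.tendstoUniformlyOn_iff]
  intro ε hε
  have hδ : 0 < ε / (3 * (L + 1)) := by positivity
  obtain ⟨t, htK, ht, hcov⟩ := finite_cover_balls_of_compact hK hδ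
  have h1 : ∀ᶠ k in l, ∀ y ∈ t, dist (f k y) (F y) < ε / 3 := by
    rw [Filter.eventually_all_finite ht]
    intro y hy
    exact (Metric.tendsto_nhds.1 (hc y (htK hy))) _ (by positivity)
  filter_upwards [h1, hL] with k hk hLk x hx
  obtain ⟨y, hy, hxy⟩ := mem_iUnion₂.1 (hcov hx)
  have hxy' : dist x y < ε / (3 * (L + 1)) := hxy
  have hb : (L : ℝ) * dist x y ≤ ε / 3 := by
    have h2 : (L : ℝ) * dist x y ≤ (L + 1) * (ε / (3 * (L + 1))) :=
      mul_le_mul (by linarith) hxy'.le dist_nonneg (by positivity)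
    have h3 : ((L : ℝ) + 1) * (ε / (3 * (L + 1))) = ε / 3 := by field_simp
    linarith
  have e1 := hF x hx y (htK hy)
  have e2 := hLk.dist_le_mul x hx y (htK hy)
  have e3 := hk y hy
  have e4 := dist_triangle4 (F x) (F y) (f k y) (f k x)
  rw [dist_comm (F y) (f k y), dist_comm (f k y) (f k x)] at e4
  linarith

/-- equi-Lipschitz functions converging along a filter finer than `atTop` -/
theorem filter_subseq {X V : Type} [PseudoMetricSpace X] [PseudoMetricSpace V] {K : Set X}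
    (hK : IsCompact K) {f : ℕ → X → V} {F : X → V} {L : ℝ≥0} {l : Filter ℕ} [l.NeBot]
    (hl : l ≤ atTop) (hL : ∀ᶠ k in atTop, LipschitzOnWith L (f k) K)
    (hc : ∀ x ∈ K, Tendsto (fun k => f k x) l (𝓝 (F x))) :
    ∃ φ : ℕ → ℕ, StrictMono φ ∧ TendstoUniformlyOn (fun j => f (φ j)) F atTop K := by
  have hu := Metric.tendstoUniformlyOn_iff.1 (flim_unif hK (hL.filter_mono hl) hc)
  have hfr : ∀ j : ℕ, ∃ᶠ k in atTop, ∀ x ∈ K, dist (F x) (f k x) < 1 / ((j : ℝ) + 1) := fun j =>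
    (hu _ (by positivity)).frequently.filter_mono hl
  obtain ⟨φ, hφ, hφ'⟩ := Filter.extraction_forall_of_frequently hfr
  refine ⟨φ, hφ, Metric.tendstoUniformlyOn_iff.2 fun ε hε => ?_⟩
  filter_upwards [(tendsto_one_div_add_atTop_nhds_zero_nat (𝕜 := ℝ)).eventually
    (gt_mem_nhds hε)] with j hj x hx
  exact (hφ' j x hx).trans hj

/-- pointwise limits of locally bounded entire functions are entire -/
theorem filter_hol {V : Type} [NormedAddCommGroup V] [NormedSpace ℂ V] [CompleteSpace V]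
    {f : ℕ → ℂ → V} {F : ℂ → V} {M : ℂ → ℝ} {l : Filter ℕ} [l.NeBot] (hl : l ≤ atTop)
    (hM : Continuous M) (hf : ∀ k, Differentiable ℂ (f k)) (hb : ∀ k w, ‖f k w‖ ≤ M w)
    (hc : ∀ w, Tendsto (fun k => f k w) l (𝓝 (F w))) : Differentiable ℂ F := by
  intro w
  obtain ⟨B, hB⟩ := (isCompact_closedBall w 2).exists_bound_of_continuousOn hM.continuousOn
  have hB0 : 0 ≤ B := (norm_nonneg _).trans (hB w (mem_closedBall_self (by norm_num)))
  have hLip : ∀ k, LipschitzOnWith ⟨B, hB0⟩ (f k) (closedBall w 1) := by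
    intro k
    refine (convex_closedBall w 1).lipschitzOnWith_of_nnnorm_deriv_le (𝕜 := ℂ)
      (fun x _ => hf k x) fun x hx => ?_
    have h := Complex.norm_deriv_le_of_forall_mem_sphere_norm_le (f := f k) (c := x) (R := 1)
      (C := B) one_pos (hf k).diffContOnCl fun z hz => by
        have hz2 : z ∈ closedBall w 2 := by
          have := dist_triangle z x w
          rw [mem_sphere] at hz
          rw [mem_closedBall] at hx ⊢
          linarith
        exact (hb k z).trans ((le_abs_self _).trans (hB z hz2))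
    rw [div_one] at h
    exact_mod_cast h
  have hu := flim_unif (isCompact_closedBall w 1) (l := l) (Eventually.of_forall hLip)
    fun x _ => hc x
  have hd : DifferentiableOn ℂ F (ball w 1) :=
    (hu.mono ball_subset_closedBall).tendstoLocallyUniformlyOn.differentiableOn
      (Eventually.of_forall fun k => (hf k).differentiableOn) isOpen_ball
  exact hd.differentiableAt (ball_mem_nhds w one_pos)

end Pool.Agent.PW
end
end

-- part Pool.Agent.P.MP_65ad7c_ag.FWd
section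

open MeasureTheory Set Filter Topology Metric Matrix
open scoped ComplexOrder ContDiff Matrix.Norms.Frobenius RealInnerProductSpace ENNReal
open Pool.Agent.Lib.Sob

noncomputable section
namespace Pool.Agent.PW

variable {E : Type} [NormedAddCommGroup E] [InnerProductSpace ℝ E] [FiniteDimensional ℝ E]
  [MeasurableSpace E] [BorelSpace E] {r : ℕ} {U : Set E}

omit [FiniteDimensional ℝ E] [MeasurableSpace E] [BorelSpace E] in
theorem fwd_cont : Continuous fun p : (E →L[ℝ] Mat r) × Mat r => rmul p.1 p.2 :=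
  (((ContinuousLinearMap.mul ℝ (Mat r)).flip.continuous).comp continuous_snd).clm_comp
    continuous_fst

omit [FiniteDimensional ℝ E] [MeasurableSpace E] [BorelSpace E] in
theorem fwd_norm {X : E →L[ℝ] Mat r} {P : Mat r} {K M : ℝ} (hX : ‖X‖ ≤ K) (hP : ‖P‖ ≤ M) :
    ‖rmul X P‖ ≤ K * M := by
  have hK := (norm_nonneg _).trans hX
  have hM := (norm_nonneg _).trans hP
  refine ContinuousLinearMap.opNorm_le_bound _ (mul_nonneg hK hM) fun v => ?_
  rw [rmul_apply]
  calc ‖X v * P‖ ≤ ‖X v‖ * ‖P‖ := norm_mul_le _ _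
    _ ≤ K * ‖v‖ * M := mul_le_mul ((X.le_opNorm v).trans
        (mul_le_mul_of_nonneg_right hX (norm_nonneg _))) hP (norm_nonneg _) (by positivity)
    _ = K * M * ‖v‖ := by ring

omit [FiniteDimensional ℝ E] [MeasurableSpace E] [BorelSpace E] in
theorem fwd_tendsto {X : ℕ → E →L[ℝ] Mat r} {P : ℕ → Mat r} {X0 : E →L[ℝ] Mat r} {P0 : Mat r}
    (h1 : Tendsto X atTop (𝓝 X0)) (h2 : Tendsto P atTop (𝓝 P0)) :
    Tendsto (fun j => rmul X0 P0 - rmul (X j) (P j)) atTop (𝓝 0) := by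
  have h5 := (fwd_cont.tendsto (X0, P0)).comp (h1.prodMk_nhds h2)
  rw [Function.comp_def] at h5
  dsimp only at h5
  have h6 := (tendsto_const_nhds (x := rmul X0 P0)).sub h5
  rwa [sub_self] at h6

omit [FiniteDimensional ℝ E] [BorelSpace E] in
theorem fwd_meas {μ : Measure E} {X : E → E →L[ℝ] Mat r} {P : E → Mat r}
    (h1 : AEStronglyMeasurable X μ) (h2 : AEStronglyMeasurable P μ) :
    AEStronglyMeasurable (fun x => rmul (X x) (P x)) μ :=
  fwd_cont.comp_aestronglyMeasurable (f := fun x => (X x, P x)) (h1.prodMk h2)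

theorem fwd_dom {V : Type} [NormedAddCommGroup V] {K : Set E} (hK : IsCompact K)
    {f : ℕ → E → V} {c : ℝ} (hm : ∀ k, AEStronglyMeasurable (f k) (volume.restrict K))
    (hb : ∀ k, ∀ᵐ x, x ∈ K → ‖f k x‖ ≤ c)
    (ht : ∀ᵐ x, x ∈ K → Tendsto (fun k => f k x) atTop (𝓝 0)) :
    Tendsto (fun k => ∫⁻ x in K, ‖f k x‖ₑ) atTop (𝓝 0) := by
  have h := tendsto_lintegral_of_dominated_convergence' (μ := volume.restrict K)
    (F := fun k x => ‖f k x‖ₑ) (f := fun _ => 0) (fun _ => ENNReal.ofReal c)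
    (fun k => (hm k).enorm)
    (fun k => ((ae_restrict_iff' hK.measurableSet).2 (hb k)).mono fun x hx => enorm_le_ofReal hx)
    (by
      rw [lintegral_const, Measure.restrict_apply_univ]
      exact ENNReal.mul_ne_top ENNReal.ofReal_ne_top hK.measure_lt_top.ne)
    (((ae_restrict_iff' hK.measurableSet).2 ht).mono fun x hx => by simpa using hx.enorm)
  simpa using h

/-- passing to the limit in `dg = -B g` -/
theorem wd_limit {R K M : ℝ} {B : E → E →L[ℝ] Mat r} (hB : BM (ball 0 R) K B)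
    {Bk : ℕ → E → E →L[ℝ] Mat r} {gk : ℕ → E → Mat r} {g : E → Mat r}
    (hBc : ∀ k, Continuous (Bk k)) (hBb : ∀ k x, ‖Bk k x‖ ≤ K)
    (hBt : ∀ᵐ x, x ∈ ball (0 : E) R → Tendsto (fun k => Bk k x) atTop (𝓝 (B x)))
    (hg : ∀ k, ContDiff ℝ 1 (gk k)) (hgb : ∀ k, ∀ x ∈ ball (0 : E) R, ‖gk k x‖ ≤ M)
    (herr : ∀ R' < R, Tendsto (fun k => ∫⁻ x in closedBall (0 : E) R',
      ‖fderiv ℝ (gk k) x + rmul (Bk k x) (gk k x)‖ₑ) atTop (𝓝 0))
    (hu : ∀ R' < R, ∃ φ : ℕ → ℕ, StrictMono φ ∧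
      TendstoUniformlyOn (fun j => gk (φ j)) g atTop (closedBall 0 R')) :
    ContinuousOn g (ball 0 R) ∧ WD 2 (ball 0 R) g fun x => -rmul (B x) (g x) := by
  have hpt : ∀ R' < R, ∃ φ : ℕ → ℕ, StrictMono φ ∧ ∀ x ∈ closedBall (0 : E) R',
      Tendsto (fun j => gk (φ j) x) atTop (𝓝 (g x)) := fun R' h => by
    obtain ⟨φ, h1, h2⟩ := hu R' h
    exact ⟨φ, h1, fun x hx => h2.tendsto_at hx⟩
  have hc : ContinuousOn g (ball 0 R) := fun x hx => by
    obtain ⟨R', h1, h2⟩ := exists_between (mem_ball_zero_iff.1 hx)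
    obtain ⟨φ, -, h3⟩ := hu R' h2
    have h4 : ContinuousOn g (closedBall 0 R') :=
      h3.continuousOn (Frequently.of_forall fun j => (hg _).continuous.continuousOn)
    exact (h4.continuousAt (closedBall_mem_nhds_of_mem (mem_ball_zero_iff.2 h1))).continuousWithinAt
  have hM : ∀ x ∈ ball (0 : E) R, ‖g x‖ ≤ M := fun x hx => by
    obtain ⟨φ, -, h3⟩ := hpt ‖x‖ (mem_ball_zero_iff.1 hx)
    exact le_of_tendsto' (h3 x (mem_closedBall_zero_iff.2 le_rfl)).norm fun j => hgb _ x hx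
  have hgm : AEStronglyMeasurable g (volume.restrict (ball (0 : E) R)) :=
    hc.aestronglyMeasurable measurableSet_ball
  have hD : BM (ball 0 R) (K * M) fun x => rmul (B x) (g x) :=
    ⟨fwd_meas hB.1 hgm,
      hB.2.mono fun x hx hxR => fwd_norm (hx hxR) (hM x hxR)⟩
  refine ⟨hc, WD.of_tendsto_one (by norm_num) (LocLp.of_continuousOn hc) (hD.locLp 2).neg
    fun L hL hLR => ?_⟩
  obtain ⟨R', h1, h2⟩ := exists_lt_subset_ball hL.isClosed hLR
  have h3 : L ⊆ closedBall 0 R' := h2.trans ball_subset_closedBall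
  obtain ⟨φ, hφ, h4⟩ := hpt R' h1
  have hle : volume.restrict L ≤ volume.restrict (ball (0 : E) R) :=
    Measure.restrict_mono hLR le_rfl
  refine ⟨univ, subset_univ _, fun j => gk (φ j), fun j => fderiv ℝ (gk (φ j)),
    fun j => WD.of_contDiff (by norm_num) (hg _), ?_, ?_⟩
  · refine fwd_dom (c := M + M) hL
      (fun j => (hg _).continuous.aestronglyMeasurable.sub (hgm.mono_measure hle))
      (fun j => Eventually.of_forall fun x hx =>
        (norm_sub_le _ _).trans (add_le_add (hgb _ x (hLR hx)) (hM x (hLR hx))))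
      (Eventually.of_forall fun x hx => tendsto_sub_nhds_zero_iff.2 (h4 x (h3 hx)))
  · have hk : ∀ j, Continuous fun x => rmul (Bk (φ j) x) (gk (φ j) x) := fun j =>
      fwd_cont.comp (f := fun x => (Bk (φ j) x, gk (φ j) x)) ((hBc _).prodMk (hg _).continuous)
    have t1 := (herr R' h1).comp hφ.tendsto_atTop
    have t2 := fwd_dom (c := K * M + K * M) hL
      (f := fun j x => rmul (B x) (g x) - rmul (Bk (φ j) x) (gk (φ j) x))
      (fun j => (hD.1.mono_measure hle).sub (hk j).aestronglyMeasurable)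
      (fun j => hD.2.mono fun x hx hxL => (norm_sub_le _ _).trans
        (add_le_add (hx (hLR hxL)) (fwd_norm (hBb _ x) (hgb _ x (hLR hxL)))))
      (hBt.mono fun x hx hxL =>
        fwd_tendsto ((hx (hLR hxL)).comp hφ.tendsto_atTop) (h4 x (h3 hxL)))
    have t3 := t1.add t2
    rw [add_zero] at t3
    refine tendsto_of_tendsto_of_tendsto_of_le_of_le tendsto_const_nhds t3
      (fun _ => zero_le) fun j => ?_
    have hm : AEMeasurable (fun x => ‖fderiv ℝ (gk (φ j)) x + rmul (Bk (φ j) x) (gk (φ j) x)‖ₑ)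
        (volume.restrict L) :=
      ((((hg _).continuous_fderiv (by norm_num)).add (hk j)).aestronglyMeasurable).enorm
    refine le_trans ?_ (add_le_add (lintegral_mono_set h3) le_rfl)
    rw [← lintegral_add_left' hm]
    refine lintegral_mono fun x => ?_
    have e : fderiv ℝ (gk (φ j)) x - -rmul (B x) (g x) =
        (fderiv ℝ (gk (φ j)) x + rmul (Bk (φ j) x) (gk (φ j) x)) +
          (rmul (B x) (g x) - rmul (Bk (φ j) x) (gk (φ j) x)) := by abel
    simp only [e, ← ofReal_norm]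
    rw [← ENNReal.ofReal_add (norm_nonneg _) (norm_nonneg _)]
    exact ENNReal.ofReal_le_ofReal (norm_add_le _ _)

end Pool.Agent.PW
end
end

-- part Pool.Agent.P.MP_65ad7c_ag.FGauge
section

open MeasureTheory Set Filter Topology Metric Matrix
open scoped ComplexOrder ContDiff Matrix.Norms.Frobenius RealInnerProductSpace ENNReal
open Pool.Agent.Lib.Sob

noncomputable section
namespace Pool.Agent.PW

variable {E : Type} [NormedAddCommGroup E] [InnerProductSpace ℝ E] [FiniteDimensional ℝ E]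
  [MeasurableSpace E] [BorelSpace E] {r : ℕ} {U : Set E}

open Pool.Agent.Lib.Flow

theorem fgauge_frame {R K : ℝ} (hK : 0 ≤ K) {B : E → E →L[ℝ] Mat r} (hB : BM (ball 0 R) K B)
    (hf : Flat (ball 0 R) B) {P : C(J, Mat r) → C(J, Mat r)} (hP : IsPexp P)
    {M : ℕ → C(E, E →L[ℝ] Mat r)} (hM : ∀ k x, M k x = mB R k B x) {l : Filter ℕ} [l.NeBot]
    (hl : l ≤ atTop) {g : E → Mat r}
    (hg : ∀ x, Tendsto (fun k => radial P (M k) x) l (𝓝 (g x))) :
    ContinuousOn g (ball 0 R) ∧ WD 2 (ball 0 R) g fun x => -rmul (B x) (g x) := by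
  have hM' : ∀ k, (M k : E → E →L[ℝ] Mat r) = mB R k B := fun k => funext (hM k)
  have hs : ∀ k, ContDiff ℝ ∞ (M k) := fun k => by rw [hM']; exact mB_contDiff hB k
  have hb : ∀ k x, ‖M k x‖ ≤ K := fun k x => by rw [hM]; exact mB_norm_le hK hB k x
  set N : ℝ := ‖(1 : Mat r)‖ with hN
  have hN0 : 0 ≤ N := norm_nonneg _
  have hgb : ∀ k (x : E) (ρ : ℝ), ‖x‖ ≤ ρ → ‖radial P (M k) x‖ ≤ Real.exp (K * ρ) * N :=
    fun k x ρ hx => (radial_bil hP (hb k) x).norm_le.trans
      (mul_le_mul_of_nonneg_right (Real.exp_le_exp.2 (mul_le_mul_of_nonneg_left hx hK)) hN0)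
  have herr : ∀ k (x : E) (ρ : ℝ), ‖x‖ ≤ ρ →
      ‖fderiv ℝ (radial P (M k)) x + rmul (M k x) (radial P (M k) x)‖ ≤
        Real.exp (K * ρ) ^ 2 * N * ρ * ∫ s in (0 : ℝ)..1, ‖curv (M k) (s • x)‖ := by
    intro k x ρ hx
    refine (radial_err hP (hs k) (hb k) x).trans ?_
    have h0 : 0 ≤ ∫ s in (0 : ℝ)..1, ‖curv (M k) (s • x)‖ :=
      intervalIntegral.integral_nonneg zero_le_one fun s _ => norm_nonneg (curv (M k) (s • x))
    have h1 : Real.exp (K * ‖x‖) ≤ Real.exp (K * ρ) :=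
      Real.exp_le_exp.2 (mul_le_mul_of_nonneg_left hx hK)
    gcongr
  refine wd_limit (K := K) (M := Real.exp (K * R) * N) (Bk := fun k => M k)
    (gk := fun k => radial P (M k)) hB (fun k => (M k).continuous) hb ?_
    (fun k => radial_contDiff hP (hs k))
    (fun k x hx => hgb k x R (mem_ball_zero_iff.1 hx).le) ?_ ?_
  · simpa only [hM] using mB_tendsto hB
  · intro R' hR'
    have h1 := ray_tendsto (F := fun k => curv (M k)) (fun k => continuous_curv (hs k))
      (R := R') (M := 4 * K ^ 2) (by simpa only [hM'] using curv_mB_le hK hB hf hR') (by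
        filter_upwards [curv_mB_tendsto hB hf] with x hx hx'
        simpa only [hM'] using hx (closedBall_subset_ball hR' hx'))
    have h2 := ENNReal.Tendsto.const_mul
      (a := ENNReal.ofReal (Real.exp (K * R') ^ 2 * N * R')) h1 (Or.inr ENNReal.ofReal_ne_top)
    rw [mul_zero] at h2
    refine tendsto_of_tendsto_of_tendsto_of_le_of_le tendsto_const_nhds h2
      (fun _ => zero_le) fun k => ?_
    dsimp only
    rw [← lintegral_const_mul' _ _ ENNReal.ofReal_ne_top]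
    refine setLIntegral_mono' measurableSet_closedBall fun x hx => ?_
    have hx' := mem_closedBall_zero_iff.1 hx
    have hR0 : 0 ≤ R' := (norm_nonneg x).trans hx'
    rw [← ENNReal.ofReal_mul (by positivity)]
    exact enorm_le_ofReal (herr k x R' hx')
  · intro R' hR'
    set L : ℝ := Real.exp (K * R') ^ 2 * N * |R'| * (4 * K ^ 2) + K * (Real.exp (K * R') * N)
      with hL
    have hL0 : 0 ≤ L := by positivity
    refine filter_subseq (isCompact_closedBall 0 R') (L := ⟨L, hL0⟩) hl ?_ fun x _ => hg x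
    filter_upwards [curv_mB_le hK hB hf hR'] with k hk
    refine (convex_closedBall (0 : E) R').lipschitzOnWith_of_nnnorm_fderiv_le (𝕜 := ℝ)
      (fun x _ => (radial_contDiff hP (hs k)).differentiable one_ne_zero x) fun x hx => ?_
    have hx' := mem_closedBall_zero_iff.1 hx
    have hR0 : 0 ≤ R' := (norm_nonneg x).trans hx'
    change ‖fderiv ℝ (radial P (M k)) x‖ ≤ L
    have h1 : ∫ s in (0 : ℝ)..1, ‖curv (M k) (s • x)‖ ≤ 4 * K ^ 2 := by
      have : ∫ s in (0 : ℝ)..1, ‖curv (M k) (s • x)‖ ≤ ∫ _ in (0 : ℝ)..1, 4 * K ^ 2 := by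
        have hc : Continuous fun s : ℝ => curv (M k) (s • x) :=
          (continuous_curv (hs k)).comp (by fun_prop)
        have hc' := Continuous.norm (E := E →L[ℝ] E →L[ℝ] Mat r) hc
        refine intervalIntegral.integral_mono_on zero_le_one (hc'.intervalIntegrable _ _)
          (continuous_const.intervalIntegrable _ _) fun s hs' => ?_
        rw [hM']
        refine hk _ (mem_closedBall_zero_iff.2 ?_)
        rw [norm_smul, Real.norm_of_nonneg hs'.1]
        exact (mul_le_of_le_one_left (norm_nonneg _) hs'.2).trans hx'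
      simpa using this
    have h2 : ‖rmul (M k x) (radial P (M k) x)‖ ≤ K * (Real.exp (K * R') * N) := by
      refine ContinuousLinearMap.opNorm_le_bound _ (by positivity) fun v => ?_
      rw [rmul_apply]
      calc ‖M k x v * radial P (M k) x‖ ≤ ‖M k x v‖ * ‖radial P (M k) x‖ := norm_mul_le _ _
        _ ≤ K * ‖v‖ * (Real.exp (K * R') * N) :=
          mul_le_mul (((M k x).le_opNorm v).trans
            (mul_le_mul_of_nonneg_right (hb k x) (norm_nonneg _))) (hgb k x R' hx')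
            (norm_nonneg _) (by positivity)
        _ = _ := by ring
    have h3 := (herr k x R' hx').trans (mul_le_mul_of_nonneg_left h1 (by positivity))
    calc ‖fderiv ℝ (radial P (M k)) x‖
        = ‖(fderiv ℝ (radial P (M k)) x + rmul (M k x) (radial P (M k) x)) -
            rmul (M k x) (radial P (M k) x)‖ := by rw [add_sub_cancel_right]
      _ ≤ _ := (norm_sub_le _ _).trans (add_le_add h3 h2)
      _ = L := by rw [hL, abs_of_nonneg hR0]

/-- parallel frames of `p A1 + q A2`, holomorphic in the parameters -/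
theorem exists_frames {R K : ℝ} (hK : 0 ≤ K) {A1 A2 : E → E →L[ℝ] Mat r}
    (h1 : BM (ball 0 R) K A1) (h2 : BM (ball 0 R) K A2) :
    ∃ g : ℂ → ℂ → E → Mat r, (∀ p q, g p q 0 = 1) ∧
      (∀ p q, ∀ x ∈ ball (0 : E) R, Bil (Real.exp (K * (‖p‖ + ‖q‖) * R)) (g p q x)) ∧
      (∀ p q : ℂ → ℂ, Differentiable ℂ p → Differentiable ℂ q → ∀ x,
        Differentiable ℂ fun w => g (p w) (q w) x) ∧
      (∀ p q, Flat (ball 0 R) (fun x => p • A1 x + q • A2 x) →
        Frame (ball 0 R) (fun x => p • A1 x + q • A2 x) (g p q)) ∧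
      ∀ (S : Submodule ℂ (Mat r)) (G : Set (Mat r)), OdeInv S G →
        (∀ᵐ x, x ∈ ball (0 : E) R → ∀ v, A1 x v ∈ S ∧ A2 x v ∈ S) → ∀ p q x, g p q x ∈ G := by
  obtain ⟨P, hP⟩ := exists_pexp r
  let l : Ultrafilter ℕ := hyperfilter ℕ
  have hl : (l : Filter ℕ) ≤ atTop := Nat.hyperfilter_le_atTop
  let M1 : ℕ → C(E, E →L[ℝ] Mat r) := fun k => ⟨mB R k A1, (mB_contDiff h1 k).continuous⟩
  let M2 : ℕ → C(E, E →L[ℝ] Mat r) := fun k => ⟨mB R k A2, (mB_contDiff h2 k).continuous⟩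
  have hM : ∀ (p q : ℂ) k x, (p • M1 k + q • M2 k) x = mB R k (fun y => p • A1 y + q • A2 y) x :=
    fun p q k x => (mB_lin h1 h2 p q k x).symm
  have hb : ∀ (p q : ℂ) k x, ‖(p • M1 k + q • M2 k) x‖ ≤ K * (‖p‖ + ‖q‖) := fun p q k x => by
    rw [hM]; exact mB_norm_le (by positivity) (h1.lin h2 p q) k x
  have hbil : ∀ (p q : ℂ) k x,
      Bil (Real.exp (K * (‖p‖ + ‖q‖) * ‖x‖)) (radial P (p • M1 k + q • M2 k) x) :=
    fun p q k x => radial_bil hP (hb p q k) x
  have hlim : ∀ (p q : ℂ) x, ∃ y,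
      Tendsto (fun k => radial P (p • M1 k + q • M2 k) x) l (𝓝 y) := by
    intro p q x
    have : ProperSpace (Mat r) := FiniteDimensional.proper ℝ (Mat r)
    obtain ⟨y, -, hy⟩ := (isCompact_closedBall (0 : Mat r)
      (Real.exp (K * (‖p‖ + ‖q‖) * ‖x‖) * ‖(1 : Mat r)‖)).ultrafilter_le_nhds
      (l.map fun k => radial P (p • M1 k + q • M2 k) x) (by
        rw [Ultrafilter.coe_map, le_principal_iff, mem_map]
        exact Eventually.of_forall fun k => mem_closedBall_zero_iff.2 (hbil p q k x).norm_le)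
    exact ⟨y, hy⟩
  choose g hg using hlim
  have hgb : ∀ p q, ∀ x ∈ ball (0 : E) R, Bil (Real.exp (K * (‖p‖ + ‖q‖) * R)) (g p q x) :=
    fun p q x hx => (isClosed_bil _).mem_of_tendsto (hg p q x) (Eventually.of_forall fun k =>
      (hbil p q k x).mono (Real.exp_le_exp.2
        (mul_le_mul_of_nonneg_left (mem_ball_zero_iff.1 hx).le (by positivity))))
  refine ⟨g, fun p q => ?_, hgb, fun p q hp hq x => ?_, fun p q hf => ?_,
    fun S G hG hS p q x => ?_⟩
  · have := hg p q 0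
    simp only [radial_zero hP] at this
    exact tendsto_nhds_unique this tendsto_const_nhds
  · refine filter_hol (f := fun k w => radial P (p w • M1 k + q w • M2 k) x)
      (M := fun w => Real.exp (K * (‖p w‖ + ‖q w‖) * ‖x‖) * ‖(1 : Mat r)‖) hl ?_
      (fun k => radial_hol hP _ _ hp hq x) (fun k w => (hbil _ _ k x).norm_le) fun w => hg _ _ x
    have := hp.continuous
    have := hq.continuous
    fun_prop
  · obtain ⟨hc, hw⟩ := fgauge_frame (by positivity) (h1.lin h2 p q) hf hP (hM p q) hl (hg p q)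
    exact ⟨hc, fun x hx => (hgb p q x hx).isUnit, hw⟩
  · refine hG.1.mem_of_tendsto (hg p q x) (Eventually.of_forall fun k =>
      radial_mem hP hG (fun y v => ?_) x)
    exact S.add_mem
      (S.smul_mem p (mB_mem h1 (by filter_upwards [hS] with z hz hz' v using (hz hz' v).1) k y v))
      (S.smul_mem q (mB_mem h2 (by filter_upwards [hS] with z hz hz' v using (hz hz' v).2) k y v))

end Pool.Agent.PW
end
end

-- part Pool.Agent.P.MP_65ad7c_ag.TChain
section

open MeasureTheory Set Filter Topology Metric Matrix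
open scoped ComplexOrder ContDiff Matrix.Norms.Frobenius RealInnerProductSpace ENNReal
open Pool.Agent.Lib.Sob

noncomputable section
namespace Pool.Agent.PW

variable {E : Type} [NormedAddCommGroup E] [InnerProductSpace ℝ E] [FiniteDimensional ℝ E]
  [MeasurableSpace E] [BorelSpace E] {r : ℕ} {U : Set E}
  {V W : Type} [NormedAddCommGroup V] [NormedSpace ℝ V] [NormedAddCommGroup W] [NormedSpace ℝ W]

theorem wd_prodMk [CompleteSpace V] [CompleteSpace W] {n : ℕ} (hn : 1 ≤ n) {u : E → V}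
    {v : E → W} {D : E → E →L[ℝ] V} {D' : E → E →L[ℝ] W} (h : WD n U u D) (h' : WD n U v D') :
    WD n U (fun x => (u x, v x)) fun x => (D x).prod (D' x) := by
  refine ((h.clm hn (ContinuousLinearMap.inl ℝ V W)).add hn
    (h'.clm hn (ContinuousLinearMap.inr ℝ V W))).congr' (fun x _ => by simp) fun x _ => ?_
  ext e <;> simp

/-- chain rule for a `C¹` map with bounded derivative -/
theorem wd_chain_global [CompleteSpace V] [CompleteSpace W] {n : ℕ} (hn : 1 ≤ n) (hU : IsOpen U)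
    {u : E → V} {D : E → E →L[ℝ] V} (h : WD n U u D) {F : V → W} (hF : ContDiff ℝ 1 F) {L : ℝ}
    (hL : ∀ y, ‖fderiv ℝ F y‖ ≤ L) :
    WD n U (fun x => F (u x)) fun x => (fderiv ℝ F (u x)).comp (D x) := by
  set ψ : V → V →L[ℝ] W := fderiv ℝ F with hψdef
  have hψ : Continuous ψ := hF.continuous_fderiv one_ne_zero
  have hdF : Differentiable ℝ F := hF.differentiable one_ne_zero
  have hlip : ∀ s t, ‖F s - F t‖ ≤ L * ‖s - t‖ := fun s t =>
    convex_univ.norm_image_sub_le_of_norm_fderiv_le (fun x _ => hdF x) (fun x _ => hL x)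
      (mem_univ t) (mem_univ s)
  have hL0 : 0 ≤ L := (norm_nonneg _).trans (hL 0)
  have hcomp : ∀ {α : Type} [MeasurableSpace α] {μ : Measure α} {a : α → V →L[ℝ] W}
      {b : α → E →L[ℝ] V}, AEStronglyMeasurable a μ → AEStronglyMeasurable b μ →
      AEStronglyMeasurable (fun x => (a x).comp (b x)) μ := fun ha hb =>
    (ContinuousLinearMap.compL ℝ E V W).aestronglyMeasurable_comp₂ ha hb
  have hen : ∀ (a : V →L[ℝ] W) (b : E →L[ℝ] V) (c : ℝ), ‖a‖ ≤ c →
      ‖a.comp b‖ₑ ≤ ENNReal.ofReal c * ‖b‖ₑ := fun a b c hc => by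
    rw [← ofReal_norm b, ← ENNReal.ofReal_mul ((norm_nonneg _).trans hc)]
    exact enorm_le_ofReal ((a.opNorm_comp_le b).trans
      (mul_le_mul_of_nonneg_right hc (norm_nonneg _)))
  have l1 : LocLp n U fun x => F (u x) := by
    have a1 : LocLp n U fun x => F (u x) - F 0 :=
      h.1.of_le_mul (continuousOn_const (c := L))
        (fun K hK hKU => (hF.continuous.comp_aestronglyMeasurable (h.1 K hK hKU).1).sub
          aestronglyMeasurable_const)
        (Eventually.of_forall fun x _ => by simpa using hlip (u x) 0)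
    simpa using a1.add (LocLp.of_continuousOn (continuousOn_const (c := F 0)))
  have l2 : LocLp n U fun x => (ψ (u x)).comp (D x) :=
    h.2.1.of_le_mul (continuousOn_const (c := L))
      (fun K hK hKU => hcomp (hψ.comp_aestronglyMeasurable (h.1 K hK hKU).1) (h.2.1 K hK hKU).1)
      (Eventually.of_forall fun x _ => ((ψ (u x)).opNorm_comp_le _).trans
        (mul_le_mul_of_nonneg_right (hL _) (norm_nonneg _)))
  refine WD.of_tendsto hn l1 l2 fun K hK hKU => ?_
  obtain ⟨v, sv, t0, t1, t2⟩ := h.approx hn hU hK hKU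
  refine ⟨univ, subset_univ _, fun k x => F (v k x), fun k x => (ψ (v k x)).comp (fderiv ℝ (v k) x),
    fun k => ?_, ?_, ?_⟩
  · refine (WD.of_contDiff hn (hF.comp ((sv k).of_le (by simp)))).congr' (fun _ _ => rfl)
      fun x _ => ?_
    exact fderiv_comp x (hdF _) ((sv k).differentiable (by simp) x)
  · have t := ENNReal.Tendsto.const_mul (a := ENNReal.ofReal L ^ n) t1 (Or.inr (by simp))
    rw [mul_zero] at t
    refine tendsto_of_tendsto_of_tendsto_of_le_of_le tendsto_const_nhds t (fun _ => zero_le)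
      fun k => ?_
    rw [← lintegral_const_mul' _ _ (by simp)]
    refine lintegral_mono fun x => ?_
    rw [← mul_pow]
    refine pow_le_pow_left' ((enorm_le_ofReal (hlip _ _)).trans ?_) n
    rw [ENNReal.ofReal_mul hL0, ofReal_norm]
  · have mu := (h.1 K hK hKU).1
    have mD := (h.2.1 K hK hKU).1
    have t3 : Tendsto (fun k => ∫⁻ x in K, ‖(ψ (v k x) - ψ (u x)).comp (D x)‖ₑ ^ n) atTop
        (𝓝 0) := by
      have := tendsto_lintegral_of_dominated_convergence' (μ := volume.restrict K)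
        (F := fun k x => ‖(ψ (v k x) - ψ (u x)).comp (D x)‖ₑ ^ n) (f := fun _ => 0)
        (fun x => ENNReal.ofReal (L + L) ^ n * ‖D x‖ₑ ^ n) (fun k =>
          ((hcomp ((hψ.comp (sv k).continuous).aestronglyMeasurable.sub
            (hψ.comp_aestronglyMeasurable mu)) mD).enorm.pow_const n))
        (fun k => Eventually.of_forall fun x => ?_) ?_ ?_
      · simpa using this
      · simp only
        rw [← mul_pow]
        exact pow_le_pow_left' (hen _ _ _ ((norm_sub_le _ _).trans (add_le_add (hL _) (hL _)))) n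
      · rw [lintegral_const_mul' _ _ (by simp)]
        exact ENNReal.mul_ne_top (by simp) (lintegral_pow_lt_top hn (h.2.1 K hK hKU)).ne
      · filter_upwards [ae_restrict_of_ae t0, ae_restrict_mem hK.measurableSet] with x hx hxK
        simp only [ContinuousLinearMap.sub_comp]
        exact tendsto_enorm_sub_pow hn
          (((continuous_id.clm_comp (continuous_const (y := D x))).tendsto _).comp
            ((hψ.tendsto _).comp (hx hxK)))
    have t := ENNReal.Tendsto.const_mul (a := 2 ^ n)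
      ((ENNReal.Tendsto.const_mul (a := ENNReal.ofReal L ^ n) t2 (Or.inr (by simp))).add t3)
      (Or.inr (by simp))
    simp only [mul_zero, add_zero] at t
    refine tendsto_of_tendsto_of_tendsto_of_le_of_le tendsto_const_nhds t (fun _ => zero_le)
      fun k => ?_
    have m1 : AEMeasurable (fun x => ENNReal.ofReal L ^ n * ‖fderiv ℝ (v k) x - D x‖ₑ ^ n)
        (volume.restrict K) :=
      ((((sv k).continuous_fderiv (by simp)).aestronglyMeasurable.sub mD).enorm.pow_const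
        n).const_mul _
    simp only
    rw [← lintegral_const_mul' _ _ (by simp), ← lintegral_add_left' m1,
      ← lintegral_const_mul' _ _ (by simp)]
    refine lintegral_mono fun x => ?_
    have e : (ψ (v k x)).comp (fderiv ℝ (v k) x) - (ψ (u x)).comp (D x) =
        (ψ (v k x)).comp (fderiv ℝ (v k) x - D x) + (ψ (v k x) - ψ (u x)).comp (D x) := by
      rw [ContinuousLinearMap.comp_sub, ContinuousLinearMap.sub_comp]; abel
    simp only
    rw [e]
    refine (enorm_add_pow_le n _ _).trans ?_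
    rw [← mul_pow]
    gcongr
    exact hen _ _ _ (hL _)

omit [InnerProductSpace ℝ E] [FiniteDimensional ℝ E] [MeasurableSpace E] [BorelSpace E] in
/-- a `C¹` map on an open set agrees near a compact subset with a compactly supported one -/
theorem tchain_cut [FiniteDimensional ℝ V] {F : V → W} {Ω L : Set V} (hΩ : IsOpen Ω)
    (hF : ContDiffOn ℝ 1 F Ω) (hL : IsCompact L) (hLΩ : L ⊆ Ω) :
    ∃ G : V → W, ContDiff ℝ 1 G ∧ HasCompactSupport G ∧ ∀ y ∈ L, G =ᶠ[𝓝 y] F := by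
  have : LocallyCompactSpace V := by
    have := FiniteDimensional.proper_real V
    infer_instance
  obtain ⟨K', hK', hKK', hK'O⟩ := exists_compact_between hL hΩ hLΩ
  obtain ⟨f, h1, h0, -⟩ := exists_contMDiffMap_one_nhds_of_subset_interior
    (n := (⊤ : ℕ∞)) (modelWithCornersSelf ℝ V) hL.isClosed hKK'
  have hs : tsupport f ⊆ K' := closure_minimal (fun x hx => by
    by_contra h; exact hx (h0 x h)) hK'.isClosed
  have hf : ContDiff ℝ 1 f := f.contMDiff.contDiff.of_le (by simp)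
  refine ⟨fun y => f y • F y, contDiff_iff_contDiffAt.2 fun y => ?_, ?_, fun y hy => ?_⟩
  · by_cases hy : y ∈ Ω
    · exact hf.contDiffAt.smul (hF.contDiffAt (hΩ.mem_nhds hy))
    · have h2 : (fun y => f y • F y) =ᶠ[𝓝 y] fun _ => 0 := by
        filter_upwards [hK'.isClosed.isOpen_compl.mem_nhds fun h => hy (hK'O h)] with z hz
        rw [h0 z hz, zero_smul]
      exact contDiffAt_const.congr_of_eventuallyEq h2
  · exact HasCompactSupport.intro hK' fun z hz => by rw [h0 z hz, zero_smul]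
  · filter_upwards [(eventually_nhdsSet_iff_forall.1 h1) y hy] with z hz
    rw [hz, one_smul]

/-- chain rule for a `C¹` map on an open set, locally compact range -/
theorem wd_chain [FiniteDimensional ℝ V] [CompleteSpace W] {n : ℕ} (hn : 1 ≤ n) (hU : IsOpen U)
    {u : E → V} {D : E → E →L[ℝ] V} (h : WD n U u D) {F : V → W} {Ω : Set V} (hΩ : IsOpen Ω)
    (hF : ContDiffOn ℝ 1 F Ω)
    (hK : ∀ K, IsCompact K → K ⊆ U → ∃ L, IsCompact L ∧ L ⊆ Ω ∧ ∀ᵐ x, x ∈ K → u x ∈ L) :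
    WD n U (fun x => F (u x)) fun x => (fderiv ℝ F (u x)).comp (D x) := by
  have : CompleteSpace V := FiniteDimensional.complete ℝ V
  refine WD.of_local hn fun x hx => ?_
  obtain ⟨K, hKc, hxK, hKU⟩ := exists_compact_subset hU hx
  obtain ⟨L, hLc, hLΩ, hL⟩ := hK K hKc hKU
  obtain ⟨G, hG, hGc, hGF⟩ := tchain_cut hΩ hF hLc hLΩ
  obtain ⟨C, hC⟩ := (hG.continuous_fderiv one_ne_zero).bounded_above_of_compact_support
    (hGc.fderiv ℝ)
  refine ⟨interior K, isOpen_interior, hxK, (wd_chain_global hn isOpen_interior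
    (h.mono (interior_subset.trans hKU)) hG hC).congr ?_ ?_⟩
  · filter_upwards [hL] with y hy hyK using (hGF _ (hy (interior_subset hyK))).eq_of_nhds
  · filter_upwards [hL] with y hy hyK
    rw [(hGF _ (hy (interior_subset hyK))).fderiv_eq]

end Pool.Agent.PW
end
end

-- part Pool.Agent.P.MP_65ad7c_ag.TBil
section

open MeasureTheory Set Filter Topology Metric Matrix
open scoped ComplexOrder ContDiff Matrix.Norms.Frobenius RealInnerProductSpace ENNReal
open Pool.Agent.Lib.Sob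

noncomputable section
namespace Pool.Agent.PW

variable {E : Type} [NormedAddCommGroup E] [InnerProductSpace ℝ E] [FiniteDimensional ℝ E]
  [MeasurableSpace E] [BorelSpace E] {r : ℕ} {U : Set E}
  {V W : Type} [NormedAddCommGroup V] [NormedSpace ℝ V] [NormedAddCommGroup W] [NormedSpace ℝ W]
  {Z : Type} [NormedAddCommGroup Z] [NormedSpace ℝ Z]

section general
variable {α : Type} [MeasurableSpace α] {μ : Measure α}

theorem tbil_tendsto_eLp {n : ℕ} (hn : 1 ≤ n) {f : ℕ → α → V}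
    (h : Tendsto (fun k => ∫⁻ x, ‖f k x‖ₑ ^ n ∂μ) atTop (𝓝 0)) :
    Tendsto (fun k => eLpNorm (f k) n μ) atTop (𝓝 0) := by
  simp only [lintegral_pow_eq hn] at h
  have := h.ennrpow_const ((n : ℝ)⁻¹)
  have hn' : (0 : ℝ) < n := by exact_mod_cast hn
  rw [ENNReal.zero_rpow_of_pos (inv_pos.2 hn')] at this
  refine this.congr fun k => ?_
  rw [← ENNReal.rpow_natCast, ← ENNReal.rpow_mul, mul_inv_cancel₀ hn'.ne', ENNReal.rpow_one]

theorem tbil_holder (B : V →L[ℝ] W →L[ℝ] Z) {f : α → V} {g : α → W}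
    (hf : AEStronglyMeasurable f μ) (hg : AEStronglyMeasurable g μ) :
    ∫⁻ x, ‖B (f x) (g x)‖ₑ ∂μ ≤ ‖B‖₊ * eLpNorm f 2 μ * eLpNorm g 2 μ := by
  rw [← eLpNorm_one_eq_lintegral_enorm]
  exact eLpNorm_le_eLpNorm_mul_eLpNorm'_of_norm hf hg (fun a b => B a b) ‖B‖₊
    (Eventually.of_forall fun x => B.le_opNorm₂ _ _)

theorem tbil_tendsto_add {a b : ℕ → α → Z} (ha : ∀ k, AEStronglyMeasurable (a k) μ)
    (h1 : Tendsto (fun k => ∫⁻ x, ‖a k x‖ₑ ∂μ) atTop (𝓝 0))
    (h2 : Tendsto (fun k => ∫⁻ x, ‖b k x‖ₑ ∂μ) atTop (𝓝 0)) :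
    Tendsto (fun k => ∫⁻ x, ‖a k x + b k x‖ₑ ∂μ) atTop (𝓝 0) := by
  have t := h1.add h2
  rw [add_zero] at t
  refine tendsto_of_tendsto_of_tendsto_of_le_of_le tendsto_const_nhds t (fun _ => zero_le)
    fun k => ?_
  rw [← lintegral_add_left' (ha k).enorm]
  exact lintegral_mono fun x => enorm_add_le _ _

/-- continuity of the product `L² × L² → L¹` -/
theorem tbil_tendsto_two (B : V →L[ℝ] W →L[ℝ] Z) {f : α → V} {g : α → W} {fk : ℕ → α → V}
    {gk : ℕ → α → W} (hf : MemLp f (2 : ℕ) μ) (hg : MemLp g (2 : ℕ) μ)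
    (mf : ∀ k, AEStronglyMeasurable (fk k) μ) (mg : ∀ k, AEStronglyMeasurable (gk k) μ)
    (t1 : Tendsto (fun k => ∫⁻ x, ‖fk k x - f x‖ₑ ^ 2 ∂μ) atTop (𝓝 0))
    (t2 : Tendsto (fun k => ∫⁻ x, ‖gk k x - g x‖ₑ ^ 2 ∂μ) atTop (𝓝 0)) :
    Tendsto (fun k => ∫⁻ x, ‖B (fk k x) (gk k x) - B (f x) (g x)‖ₑ ∂μ) atTop (𝓝 0) := by
  have s1 := tbil_tendsto_eLp (n := 2) (by norm_num) t1
  have s2 := tbil_tendsto_eLp (n := 2) (by norm_num) t2
  simp only [Nat.cast_ofNat] at s1 s2 hf hg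
  have m1 : ∀ k, AEStronglyMeasurable (fun x => fk k x - f x) μ := fun k => (mf k).sub hf.1
  have m2 : ∀ k, AEStronglyMeasurable (fun x => gk k x - g x) μ := fun k => (mg k).sub hg.1
  have c1 := ENNReal.Tendsto.const_mul (a := (‖B‖₊ : ℝ≥0∞)) s1 (Or.inr ENNReal.coe_ne_top)
  rw [mul_zero] at c1
  have a1 : Tendsto (fun k => ∫⁻ x, ‖B (fk k x - f x) (gk k x - g x)‖ₑ ∂μ) atTop (𝓝 0) := by
    have t := ENNReal.Tendsto.mul c1 (Or.inr ENNReal.zero_ne_top) s2 (Or.inr ENNReal.zero_ne_top)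
    rw [mul_zero] at t
    exact tendsto_of_tendsto_of_tendsto_of_le_of_le tendsto_const_nhds t (fun _ => zero_le)
      fun k => tbil_holder B (m1 k) (m2 k)
  have a2 : Tendsto (fun k => ∫⁻ x, ‖B (fk k x - f x) (g x)‖ₑ ∂μ) atTop (𝓝 0) := by
    have t := ENNReal.Tendsto.mul_const (b := eLpNorm g 2 μ) c1 (Or.inr hg.2.ne)
    rw [zero_mul] at t
    exact tendsto_of_tendsto_of_tendsto_of_le_of_le tendsto_const_nhds t (fun _ => zero_le)
      fun k => tbil_holder B (m1 k) hg.1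
  have a3 : Tendsto (fun k => ∫⁻ x, ‖B (f x) (gk k x - g x)‖ₑ ∂μ) atTop (𝓝 0) := by
    have t := ENNReal.Tendsto.const_mul (a := (‖B‖₊ : ℝ≥0∞) * eLpNorm f 2 μ) s2
      (Or.inr (ENNReal.mul_ne_top ENNReal.coe_ne_top hf.2.ne))
    rw [mul_zero] at t
    exact tendsto_of_tendsto_of_tendsto_of_le_of_le tendsto_const_nhds t (fun _ => zero_le)
      fun k => tbil_holder B hf.1 (m2 k)
  refine (tbil_tendsto_add (fun k => B.aestronglyMeasurable_comp₂ (m1 k) (m2 k)) a1
    (tbil_tendsto_add (fun k => B.aestronglyMeasurable_comp₂ (m1 k) hg.1) a2 a3)).congr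
    fun k => lintegral_congr fun x => ?_
  congr 1
  simp only [map_sub, _root_.sub_apply]
  abel

/-- continuity of the product with a bounded function in `L¹` -/
theorem tbil_tendsto_bd (B : V →L[ℝ] W →L[ℝ] Z) {f : α → V} {g : α → W} {gk : ℕ → α → W} {C : ℝ}
    (hf : ∀ᵐ x ∂μ, ‖f x‖ ≤ C)
    (t : Tendsto (fun k => ∫⁻ x, ‖gk k x - g x‖ₑ ∂μ) atTop (𝓝 0)) :
    Tendsto (fun k => ∫⁻ x, ‖B (f x) (gk k x) - B (f x) (g x)‖ₑ ∂μ) atTop (𝓝 0) := by
  have hc : ‖B‖ₑ * ENNReal.ofReal C ≠ ⊤ := ENNReal.mul_ne_top enorm_ne_top ENNReal.ofReal_ne_top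
  have t' := ENNReal.Tendsto.const_mul (a := ‖B‖ₑ * ENNReal.ofReal C) t (Or.inr hc)
  rw [mul_zero] at t'
  refine tendsto_of_tendsto_of_tendsto_of_le_of_le tendsto_const_nhds t' (fun _ => zero_le)
    fun k => ?_
  rw [← lintegral_const_mul' _ _ hc]
  refine lintegral_mono_ae ?_
  filter_upwards [hf] with x hx
  rw [← map_sub]
  refine (B.le_opENorm₂ _ _).trans ?_
  gcongr
  exact enorm_le_ofReal hx

end general

theorem tbil_locLp_one (B : V →L[ℝ] W →L[ℝ] Z) {u : E → V} {v : E → W} (h : LocLp 2 U u)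
    (h' : LocLp 2 U v) : LocLp 1 U fun x => B (u x) (v x) := by
  intro K hK hKU
  have h1 := h K hK hKU
  have h2 := h' K hK hKU
  simp only [Nat.cast_ofNat] at h1 h2
  simp only [Nat.cast_one]
  exact B.memLp_of_bilin 1 h1 h2

theorem tbil_locLp_lb {n m : ℕ} (B : V →L[ℝ] W →L[ℝ] Z) {u : E → V} {v : E → W}
    (h : LocLp m U u) (hu : LB U u) (h' : LocLp n U v) : LocLp n U fun x => B (u x) (v x) := by
  intro K hK hKU
  obtain ⟨C, hC⟩ := hu K hK hKU
  exact B.memLp_of_bilin n (memLp_top_of_bound (h K hK hKU).1 C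
    ((ae_restrict_mem hK.measurableSet).mono hC)) (h' K hK hKU)

omit [InnerProductSpace ℝ E] [FiniteDimensional ℝ E] [MeasurableSpace E] [BorelSpace E]
  [NormedSpace ℝ V] in
theorem tbil_lb_cont {u : E → V} (h : ContinuousOn u U) : LB U u :=
  fun _ hK hKU => hK.exists_bound_of_continuousOn (h.mono hKU)

/-- product of two locally bounded Sobolev functions -/
theorem wd_bilin [FiniteDimensional ℝ V] [FiniteDimensional ℝ W] [CompleteSpace Z] {n : ℕ}
    (hn : 1 ≤ n) (hU : IsOpen U) (B : V →L[ℝ] W →L[ℝ] Z) {u : E → V} {v : E → W}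
    {D : E → E →L[ℝ] V} {D' : E → E →L[ℝ] W} (h : WD n U u D) (h' : WD n U v D') (hu : LB U u)
    (hv : LB U v) : WD n U (fun x => B (u x) (v x))
      fun x => (B.flip (v x)).comp (D x) + (B (u x)).comp (D' x) := by
  have cV : CompleteSpace V := FiniteDimensional.complete ℝ V
  have cW : CompleteSpace W := FiniteDimensional.complete ℝ W
  have pV : ProperSpace V := FiniteDimensional.proper ℝ V
  have pW : ProperSpace W := FiniteDimensional.proper ℝ W
  have key := wd_chain hn hU (wd_prodMk hn h h') (F := fun p : V × W => B p.1 p.2) isOpen_univ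
    B.isBoundedBilinearMap.contDiff.contDiffOn fun K hK hKU => by
      obtain ⟨C, hC⟩ := hu K hK hKU
      obtain ⟨C', hC'⟩ := hv K hK hKU
      exact ⟨closedBall 0 C ×ˢ closedBall 0 C', (isCompact_closedBall _ _).prod
        (isCompact_closedBall _ _), subset_univ _, Eventually.of_forall fun x hx =>
          ⟨mem_closedBall_zero_iff.2 (hC x hx), mem_closedBall_zero_iff.2 (hC' x hx)⟩⟩
  refine key.congr' (fun _ _ => rfl) fun x _ => ?_
  ext e
  rw [(B.isBoundedBilinearMap.hasFDerivAt (u x, v x)).fderiv]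
  simp [IsBoundedBilinearMap.deriv_apply, add_comm]

/-- product `W^{1,2} × W^{1,2} → W^{1,1}` -/
theorem wd_bilin_one [CompleteSpace V] [CompleteSpace W] [CompleteSpace Z] (hU : IsOpen U)
    (B : V →L[ℝ] W →L[ℝ] Z) {u : E → V} {v : E → W}
    {D : E → E →L[ℝ] V} {D' : E → E →L[ℝ] W} (h : WD 2 U u D) (h' : WD 2 U v D') :
    WD 1 U (fun x => B (u x) (v x))
      fun x => (B.flip (v x)).comp (D x) + (B (u x)).comp (D' x) := by
  refine WD.of_tendsto_one le_rfl (tbil_locLp_one B h.1 h'.1)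
    ((tbil_locLp_one (B.precompL E) h.2.1 h'.1).add (tbil_locLp_one (B.precompR E) h.1 h'.2.1))
    fun K hK hKU => ?_
  obtain ⟨a, sa, -, a1, a2⟩ := h.approx (by norm_num) hU hK hKU
  obtain ⟨b, sb, -, b1, b2⟩ := h'.approx (by norm_num) hU hK hKU
  have ma : ∀ k, AEStronglyMeasurable (a k) (volume.restrict K) := fun k =>
    (sa k).continuous.aestronglyMeasurable
  have mb : ∀ k, AEStronglyMeasurable (b k) (volume.restrict K) := fun k =>
    (sb k).continuous.aestronglyMeasurable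
  have ma' : ∀ k, AEStronglyMeasurable (fderiv ℝ (a k)) (volume.restrict K) := fun k =>
    ((sa k).continuous_fderiv (by simp)).aestronglyMeasurable
  have mb' : ∀ k, AEStronglyMeasurable (fderiv ℝ (b k)) (volume.restrict K) := fun k =>
    ((sb k).continuous_fderiv (by simp)).aestronglyMeasurable
  refine ⟨univ, subset_univ _, fun k x => B (a k x) (b k x), fun k x =>
    B.precompL E (fderiv ℝ (a k) x) (b k x) + B.precompR E (a k x) (fderiv ℝ (b k) x),
    fun k => ?_, tbil_tendsto_two B (h.1 K hK hKU) (h'.1 K hK hKU) ma mb a1 b1, ?_⟩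
  · refine (WD.of_contDiff le_rfl ((B.contDiff.comp ((sa k).of_le (by simp))).clm_apply
      ((sb k).of_le (by simp)))).congr' (fun _ _ => rfl) fun x _ => ?_
    exact (B.fderiv_of_bilinear ((sa k).differentiable (by simp) x)
      ((sb k).differentiable (by simp) x)).trans (add_comm _ _)
  · refine (tbil_tendsto_add (fun k => ((B.precompL E).aestronglyMeasurable_comp₂ (ma' k)
      (mb k)).sub ((B.precompL E).aestronglyMeasurable_comp₂ (h.2.1 K hK hKU).1
        (h'.1 K hK hKU).1))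
      (tbil_tendsto_two (B.precompL E) (h.2.1 K hK hKU) (h'.1 K hK hKU) ma' mb a2 b1)
      (tbil_tendsto_two (B.precompR E) (h.1 K hK hKU) (h'.2.1 K hK hKU) ma mb' a1 b2)).congr
      fun k => lintegral_congr fun x => ?_
    rw [Pi.sub_apply, sub_add_sub_comm]
    rfl

/-- product of a `C¹` function with a Sobolev function -/
theorem wd_bilin_cd [CompleteSpace V] [CompleteSpace W] [CompleteSpace Z] {n : ℕ} (hn : 1 ≤ n)
    (hU : IsOpen U) (B : V →L[ℝ] W →L[ℝ] Z) {u : E → V} {v : E → W} {D' : E → E →L[ℝ] W}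
    (h : ContDiffOn ℝ 1 u U) (h' : WD n U v D') : WD n U (fun x => B (u x) (v x))
      fun x => (B.flip (v x)).comp (fderiv ℝ u x) + (B (u x)).comp (D' x) := by
  have c1 : ContinuousOn u U := h.continuousOn
  have c2 : ContinuousOn (fderiv ℝ u) U := h.continuousOn_fderiv_of_isOpen hU le_rfl
  have l1 : LocLp n U u := .of_continuousOn c1
  have l2 : LocLp n U (fderiv ℝ u) := .of_continuousOn c2
  refine WD.of_tendsto_one hn (tbil_locLp_lb B l1 (tbil_lb_cont c1) h'.1)
    ((tbil_locLp_lb (B.precompL E) l2 (tbil_lb_cont c2) h'.1).add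
      (tbil_locLp_lb (B.precompR E) l1 (tbil_lb_cont c1) h'.2.1)) fun K hK hKU => ?_
  obtain ⟨b, sb, -, b1, b2⟩ := h'.approx hn hU hK hKU
  have : IsFiniteMeasure (volume.restrict K) := ⟨by simpa using hK.measure_lt_top⟩
  have mb : ∀ k, AEStronglyMeasurable (b k) (volume.restrict K) := fun k =>
    (sb k).continuous.aestronglyMeasurable
  have mb' : ∀ k, AEStronglyMeasurable (fderiv ℝ (b k)) (volume.restrict K) := fun k =>
    ((sb k).continuous_fderiv (by simp)).aestronglyMeasurable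
  have b3 := tendsto_lintegral_one_of_pow hn (fun k => (mb k).sub (h'.1 K hK hKU).1) b1
  have b4 := tendsto_lintegral_one_of_pow hn (fun k => (mb' k).sub (h'.2.1 K hK hKU).1) b2
  obtain ⟨C1, hC1⟩ := tbil_lb_cont c1 K hK hKU
  obtain ⟨C2, hC2⟩ := tbil_lb_cont c2 K hK hKU
  have e1 := (ae_restrict_mem (μ := volume) hK.measurableSet).mono hC1
  have e2 := (ae_restrict_mem (μ := volume) hK.measurableSet).mono hC2
  refine ⟨U, hKU, fun k x => B (u x) (b k x), fun k x =>
    B.precompL E (fderiv ℝ u x) (b k x) + B.precompR E (u x) (fderiv ℝ (b k) x),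
    fun k => ?_, tbil_tendsto_bd B e1 b3, ?_⟩
  · refine (WD.of_contDiffOn hn hU ((B.contDiff.comp_contDiffOn h).clm_apply
      ((sb k).of_le (by simp)).contDiffOn)).congr' (fun _ _ => rfl) fun x hx => ?_
    exact (B.fderiv_of_bilinear
      ((h.differentiableOn one_ne_zero).differentiableAt (hU.mem_nhds hx))
      ((sb k).differentiable (by simp) x)).trans (add_comm _ _)
  · refine (tbil_tendsto_add (fun k => ((B.precompL E).aestronglyMeasurable_comp₂
      (l2 K hK hKU).1 (mb k)).sub ((B.precompL E).aestronglyMeasurable_comp₂ (l2 K hK hKU).1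
        (h'.1 K hK hKU).1))
      (tbil_tendsto_bd (B.precompL E) e2 b3) (tbil_tendsto_bd (B.precompR E) e1 b4)).congr
      fun k => lintegral_congr fun x => ?_
    rw [Pi.sub_apply, sub_add_sub_comm]
    rfl

/-- the product of two `L²_loc` functions is in `L¹_loc` -/
theorem locLp_bilin_one (B : V →L[ℝ] W →L[ℝ] Z) {u : E → V} {v : E → W} (h : LocLp 2 U u)
    (h' : LocLp 2 U v) : LocLp 1 U fun x => B (u x) (v x) := by
  exact tbil_locLp_one B h h'

/-- the product of a locally bounded function with an `L^n_loc` function -/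
theorem locLp_bilin_lb {n m : ℕ} (B : V →L[ℝ] W →L[ℝ] Z) {u : E → V} {v : E → W}
    (h : LocLp m U u) (hu : LB U u) (h' : LocLp n U v) : LocLp n U fun x => B (u x) (v x) := by
  exact tbil_locLp_lb B h hu h'

theorem locLp_one_of_two {u : E → V} (h : LocLp 2 U u) : LocLp 1 U u := by
  intro K hK hKU
  have : IsFiniteMeasure (volume.restrict K) := ⟨by simpa using hK.measure_lt_top⟩
  exact (h K hK hKU).mono_exponent (by norm_num)

theorem wd_one_of_two {u : E → V} {D : E → E →L[ℝ] V} (h : WD 2 U u D) : WD 1 U u D :=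
  ⟨locLp_one_of_two h.1, locLp_one_of_two h.2.1, h.2.2⟩

theorem LB.of_continuousOn {u : E → V} (h : ContinuousOn u U) : LB U u := by
  exact tbil_lb_cont h

theorem LB.mono {U' : Set E} {u : E → V} (h : LB U u) (hU : U' ⊆ U) : LB U' u :=
  fun K hK hKU => h K hK (hKU.trans hU)

theorem LB.add {u v : E → V} (h : LB U u) (h' : LB U v) : LB U fun x => u x + v x := by
  intro K hK hKU
  obtain ⟨C, hC⟩ := h K hK hKU
  obtain ⟨C', hC'⟩ := h' K hK hKU
  exact ⟨C + C', fun x hx => (norm_add_le _ _).trans (add_le_add (hC x hx) (hC' x hx))⟩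

theorem LB.sub {u v : E → V} (h : LB U u) (h' : LB U v) : LB U fun x => u x - v x := by
  intro K hK hKU
  obtain ⟨C, hC⟩ := h K hK hKU
  obtain ⟨C', hC'⟩ := h' K hK hKU
  exact ⟨C + C', fun x hx => (norm_sub_le _ _).trans (add_le_add (hC x hx) (hC' x hx))⟩

theorem LB.bilin (B : V →L[ℝ] W →L[ℝ] Z) {u : E → V} {v : E → W} (h : LB U u) (h' : LB U v) :
    LB U fun x => B (u x) (v x) := by
  intro K hK hKU
  obtain ⟨C, hC⟩ := h K hK hKU
  obtain ⟨C', hC'⟩ := h' K hK hKU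
  refine ⟨‖B‖ * C * C', fun x hx => (B.le_opNorm₂ _ _).trans ?_⟩
  have h0 : 0 ≤ C := (norm_nonneg _).trans (hC x hx)
  gcongr
  · exact hC x hx
  · exact hC' x hx

end Pool.Agent.PW
end
end

-- part Pool.Agent.P.MP_65ad7c_ag.ABd0
section

open MeasureTheory Set Filter Topology Metric Matrix
open scoped ComplexOrder ContDiff Matrix.Norms.Frobenius RealInnerProductSpace ENNReal
open Pool.Agent.Lib.Sob

noncomputable section
namespace Pool.Agent.PW

variable {E : Type} [NormedAddCommGroup E] [InnerProductSpace ℝ E] [FiniteDimensional ℝ E] {r : ℕ}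

variable {P Q R h u u' : Mat r} {C C' : ℝ}

theorem Obst.posDef (hP : P.PosDef) (hC : 0 < C) (h : Obst C P Q) : Q.PosDef := by
  have h1 := (hP.smul (inv_pos.2 hC)).add_posSemidef h.1
  rwa [add_sub_cancel] at h1

theorem Obst.refl (hP : P.PosSemidef) (hC : 1 ≤ C) : Obst C P P := by
  constructor
  · have h1 := hP.smul (a := 1 - C⁻¹) (sub_nonneg.2 (inv_le_one_of_one_le₀ hC))
    rwa [sub_smul, one_smul] at h1
  · have h1 := hP.smul (a := C - 1) (sub_nonneg.2 hC)
    rwa [sub_smul, one_smul] at h1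

theorem Obst.mono (hP : P.PosSemidef) (hC : 0 < C) (hCC : C ≤ C') (h : Obst C P Q) :
    Obst C' P Q := by
  constructor
  · have h1 := h.1.add (hP.smul (a := C⁻¹ - C'⁻¹) (sub_nonneg.2 (inv_anti₀ hC hCC)))
    rwa [sub_smul, sub_add_sub_cancel] at h1
  · have h1 := (hP.smul (a := C' - C) (sub_nonneg.2 hCC)).add h.2
    rwa [sub_smul, sub_add_sub_cancel] at h1

theorem Obst.symm (hC : 0 < C) (h : Obst C P Q) : Obst C Q P := by
  constructor
  · have h1 := h.2.smul (inv_pos.2 hC).le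
    rwa [smul_sub, smul_smul, inv_mul_cancel₀ hC.ne', one_smul] at h1
  · have h1 := h.1.smul hC.le
    rwa [smul_sub, smul_smul, mul_inv_cancel₀ hC.ne', one_smul] at h1

theorem Obst.trans (hC : 0 < C) (hC' : 0 < C') (h : Obst C P Q) (h' : Obst C' Q R) :
    Obst (C * C') P R := by
  constructor
  · have h1 := h'.1.add (h.1.smul (inv_pos.2 hC').le)
    rwa [smul_sub, smul_smul, sub_add_sub_cancel, ← mul_inv, mul_comm C' C] at h1
  · have h1 := (h.2.smul hC'.le).add h'.2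
    rwa [smul_sub, smul_smul, sub_add_sub_cancel, mul_comm C' C] at h1

theorem Obst.gm (h : Obst C P Q) (u : Mat r) : Obst C (gm P u) (gm Q u) := by
  constructor
  · have h1 := h.1.conjTranspose_mul_mul_same u
    rwa [Matrix.mul_sub, Matrix.sub_mul, Matrix.mul_smul, Matrix.smul_mul] at h1
  · have h1 := h.2.conjTranspose_mul_mul_same u
    rwa [Matrix.mul_sub, Matrix.sub_mul, Matrix.mul_smul, Matrix.smul_mul] at h1

theorem Obst.smul (h : Obst C P Q) {t : ℝ} (ht : 0 ≤ t) : Obst C (t • P) (t • Q) := by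
  constructor
  · have h1 := h.1.smul ht
    rwa [smul_sub, smul_comm t C⁻¹ P] at h1
  · have h1 := h.2.smul ht
    rwa [smul_sub, smul_comm t C P] at h1

theorem abd0_isClosed_psd : IsClosed {Q : Mat r | Q.PosSemidef} := by
  have e : {Q : Mat r | Q.PosSemidef} =
      {Q : Mat r | Qᴴ = Q} ∩ ⋂ x : Fin r → ℂ, {Q : Mat r | 0 ≤ star x ⬝ᵥ (Q *ᵥ x)} := by
    ext Q
    simp only [mem_ofPred_eq, mem_inter_iff, mem_iInter, posSemidef_iff_dotProduct_mulVec]
    rfl
  rw [e]
  refine (isClosed_eq continuous_id.matrix_conjTranspose continuous_id).inter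
    (isClosed_iInter fun x => isClosed_le continuous_const ?_)
  exact continuous_const.dotProduct (continuous_id.matrix_mulVec continuous_const)

theorem isClosed_obst (C : ℝ) (P : Mat r) : IsClosed {Q | Obst C P Q} :=
  (abd0_isClosed_psd.preimage (f := fun Q : Mat r => Q - C⁻¹ • P)
    (continuous_id.sub continuous_const)).inter
    (abd0_isClosed_psd.preimage (f := fun Q : Mat r => C • P - Q)
      (continuous_const.sub continuous_id))

theorem convex_obst (C : ℝ) (P : Mat r) : Convex ℝ {Q | Obst C P Q} := by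
  intro X hX Y hY a b ha hb hab
  constructor
  · have h1 := (hX.1.smul ha).add (hY.1.smul hb)
    have e : a • (X - C⁻¹ • P) + b • (Y - C⁻¹ • P) = a • X + b • Y - C⁻¹ • P := by
      rw [smul_sub, smul_sub, sub_add_sub_comm, ← add_smul, hab, one_smul]
    rwa [e] at h1
  · have h1 := (hX.2.smul ha).add (hY.2.smul hb)
    have e : a • (C • P - X) + b • (C • P - Y) = C • P - (a • X + b • Y) := by
      rw [smul_sub, smul_sub, sub_add_sub_comm, ← add_smul, hab, one_smul]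
    rwa [e] at h1

theorem gm_gm (h u v : Mat r) : gm (gm h u) v = gm h (u * v) := by
  simp only [gm, conjTranspose_mul, Matrix.mul_assoc]

theorem gm_one (h : Mat r) : gm h 1 = h := by simp [gm]

theorem gm_posDef (hP : P.PosDef) (hu : u * u' = 1) : (gm P u).PosDef :=
  hP.conjTranspose_mul_mul_same (mulVec_injective_of_isUnit (IsUnit.of_mul_eq_one u' hu))

theorem gm_inv (hP : P.PosDef) (hu : u * u' = 1) : (gm P u)⁻¹ = u' * P⁻¹ * u'ᴴ := by
  refine Matrix.inv_eq_right_inv ?_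
  have h1 : P * P⁻¹ = 1 := Matrix.mul_nonsing_inv _ ((isUnit_iff_isUnit_det _).1 hP.isUnit)
  have h2 : uᴴ * u'ᴴ = 1 := by
    rw [← conjTranspose_mul, mul_eq_one_comm.1 hu, conjTranspose_one]
  calc gm P u * (u' * P⁻¹ * u'ᴴ) = uᴴ * (P * (u * u') * P⁻¹) * u'ᴴ := by
        simp only [gm, Matrix.mul_assoc]
    _ = 1 := by rw [hu, Matrix.mul_one, h1, Matrix.mul_one, h2]

end Pool.Agent.PW
end
end

-- part Pool.Agent.P.MP_65ad7c_ag.ABd
section

open MeasureTheory Set Filter Topology Metric Matrix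
open scoped ComplexOrder ContDiff Matrix.Norms.Frobenius RealInnerProductSpace ENNReal
open Pool.Agent.Lib.Sob

open scoped MatrixOrder in
theorem Pool.Agent.PWAbd.exists_sqrt {r : ℕ} {P : Matrix (Fin r) (Fin r) ℂ} (hP : P.PosSemidef) :
    ∃ B : Matrix (Fin r) (Fin r) ℂ, P = Bᴴ * B :=
  CStarAlgebra.nonneg_iff_eq_star_mul_self.1 hP.nonneg

noncomputable section
namespace Pool.Agent.PW

variable {E : Type} [NormedAddCommGroup E] [InnerProductSpace ℝ E] [FiniteDimensional ℝ E] {r : ℕ}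

variable {P Q R h u u' : Mat r} {C C' : ℝ}

theorem Bd.posDef (hC : 0 < C) (hh : Bd C h) : h.PosDef := Obst.posDef PosDef.one hC hh

theorem Bd.mono (hC : 0 < C) (hCC : C ≤ C') (hh : Bd C h) : Bd C' h :=
  Obst.mono PosSemidef.one hC hCC hh

theorem abd_smul_psd (hP : P.PosSemidef) (hC : 0 ≤ C) : (C • P).PosSemidef := hP.smul hC

theorem abd_inv_lower (hC : 0 < C) (hh : h.PosDef) (hK : (C • (1 : Mat r) - h).PosSemidef) :
    (h⁻¹ - C⁻¹ • (1 : Mat r)).PosSemidef := by
  have hu : IsUnit h.det := (Matrix.isUnit_iff_isUnit_det h).1 hh.isUnit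
  have h1 : h * h⁻¹ = 1 := Matrix.mul_nonsing_inv h hu
  have h2 : h⁻¹ * h = 1 := Matrix.nonsing_inv_mul h hu
  have hA := hh.inv.posSemidef.conjTranspose_mul_mul_same (C • (1 : Mat r) - h)
  rw [hK.1] at hA
  have hB := abd_smul_psd (hA.add hK) (C := C⁻¹ * C⁻¹) (by positivity)
  have e : (C⁻¹ * C⁻¹) • ((C • (1 : Mat r) - h) * h⁻¹ * (C • (1 : Mat r) - h) +
      (C • (1 : Mat r) - h)) = h⁻¹ - C⁻¹ • (1 : Mat r) := by
    simp only [Matrix.sub_mul, Matrix.mul_sub, Matrix.smul_mul, Matrix.mul_smul, Matrix.one_mul,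
      Matrix.mul_one, h1, h2]
    match_scalars <;> field_simp <;> ring
  rwa [e] at hB

theorem abd_inv_upper (hC : 0 < C) (hh : h.PosDef) (hL : (h - C⁻¹ • (1 : Mat r)).PosSemidef) :
    (C • (1 : Mat r) - h⁻¹).PosSemidef := by
  have hu : IsUnit h.det := (Matrix.isUnit_iff_isUnit_det h).1 hh.isUnit
  have h1 : h * h⁻¹ = 1 := Matrix.mul_nonsing_inv h hu
  have h2 : h⁻¹ * h = 1 := Matrix.nonsing_inv_mul h hu
  have hi : (h⁻¹)ᴴ = h⁻¹ := hh.inv.1
  have hA := hL.conjTranspose_mul_mul_same h⁻¹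
  rw [hi] at hA
  have hB := Matrix.posSemidef_conjTranspose_mul_self ((1 : Mat r) - C⁻¹ • h⁻¹)
  have hH : ((1 : Mat r) - C⁻¹ • h⁻¹)ᴴ = (1 : Mat r) - C⁻¹ • h⁻¹ := by
    rw [conjTranspose_sub, conjTranspose_one, conjTranspose_smul, hi]; simp
  rw [hH] at hB
  have hD := (abd_smul_psd hB hC.le).add hA
  have e : C • (((1 : Mat r) - C⁻¹ • h⁻¹) * ((1 : Mat r) - C⁻¹ • h⁻¹)) +
      h⁻¹ * (h - C⁻¹ • (1 : Mat r)) * h⁻¹ = C • (1 : Mat r) - h⁻¹ := by
    simp only [Matrix.sub_mul, Matrix.mul_sub, Matrix.smul_mul, Matrix.mul_smul, Matrix.one_mul,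
      Matrix.mul_one, h2]
    match_scalars <;> field_simp <;> ring
  rwa [e] at hD

theorem Bd.inv (hC : 0 < C) (hh : Bd C h) : Bd C h⁻¹ :=
  ⟨abd_inv_lower hC (hh.posDef hC) hh.2, abd_inv_upper hC (hh.posDef hC) hh.1⟩

theorem abd_norm_eq (X : Mat r) : ‖X‖ = √(∑ p : Fin r × Fin r, ‖X p.1 p.2‖ ^ 2) := by
  rw [Matrix.frobenius_norm_def, Real.sqrt_eq_rpow, Fintype.sum_prod_type]
  simp only [Real.rpow_two]

theorem abd_norm_sq (X : Mat r) : ‖X‖ ^ 2 = (Xᴴ * X).trace.re := by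
  rw [abd_norm_eq, Real.sq_sqrt (Finset.sum_nonneg fun _ _ => sq_nonneg _), Fintype.sum_prod_type,
    Finset.sum_comm]
  simp only [Matrix.trace, Matrix.diag, Matrix.mul_apply, conjTranspose_apply, Complex.re_sum]
  refine Finset.sum_congr rfl fun i _ => Finset.sum_congr rfl fun j _ => ?_
  rw [Complex.star_def, Complex.conj_mul', ← Complex.ofReal_pow, Complex.ofReal_re]

theorem abd_exists_sqrt (hP : P.PosSemidef) : ∃ B : Mat r, P = Bᴴ * B :=
  Pool.Agent.PWAbd.exists_sqrt hP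

theorem norm_le_trace (hP : P.PosSemidef) : ‖P‖ ≤ P.trace.re := by
  obtain ⟨B, rfl⟩ := abd_exists_sqrt hP
  rw [← abd_norm_sq, sq]
  calc ‖Bᴴ * B‖ ≤ ‖Bᴴ‖ * ‖B‖ := norm_mul_le _ _
    _ = ‖B‖ * ‖B‖ := by rw [Matrix.frobenius_norm_conjTranspose]

theorem Bd.norm_le (hC : 0 < C) (hh : Bd C h) : ‖h‖ ≤ r * C := by
  refine (norm_le_trace (hh.posDef hC).posSemidef).trans ?_
  have h1 := (Complex.nonneg_iff.1 hh.2.trace_nonneg).1
  simp only [trace_sub, trace_smul, trace_one, Fintype.card_fin, Complex.sub_re,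
    Complex.real_smul, Complex.mul_re, Complex.ofReal_re, Complex.ofReal_im, Complex.natCast_re,
    Complex.natCast_im] at h1
  linarith

theorem Bd.norm_inv_le (hC : 0 < C) (hh : Bd C h) : ‖h⁻¹‖ ≤ r * C := (hh.inv hC).norm_le hC

theorem abs_trace_mul_le (X Y : Mat r) : ‖(X * Y).trace‖ ≤ ‖X‖ * ‖Y‖ := by
  have e : (X * Y).trace = ∑ p : Fin r × Fin r, X p.1 p.2 * Y p.2 p.1 := by
    simp only [Matrix.trace, Matrix.diag, Matrix.mul_apply, Fintype.sum_prod_type]
  have e2 : ‖Y‖ = √(∑ p : Fin r × Fin r, ‖Y p.2 p.1‖ ^ 2) := by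
    rw [abd_norm_eq, Fintype.sum_prod_type, Fintype.sum_prod_type, Finset.sum_comm]
  rw [e, abd_norm_eq X, e2]
  refine (norm_sum_le _ _).trans ?_
  simp only [norm_mul]
  exact Real.sum_mul_le_sqrt_mul_sqrt _ _ _

theorem abd_upper (hh : h.IsHermitian) (h1 : ‖h‖ ≤ C) : (C • (1 : Mat r) - h).PosSemidef := by
  have hC : 0 ≤ C := (norm_nonneg _).trans h1
  have hH : (C • (1 : Mat r) - h).IsHermitian := by
    unfold IsHermitian
    rw [conjTranspose_sub, conjTranspose_smul, conjTranspose_one, hh]; simp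
  refine Matrix.posSemidef_iff_dotProduct_mulVec.2 ⟨hH, fun x => ?_⟩
  have hY : (vecMulVec x (star x)).PosSemidef := Matrix.posSemidef_vecMulVec_self_star x
  have e : ∀ M : Mat r, star x ⬝ᵥ (M *ᵥ x) = (M * vecMulVec x (star x)).trace := by
    intro M
    simp only [Matrix.trace, Matrix.diag, Matrix.mul_apply, vecMulVec_apply, dotProduct, mulVec,
      Finset.mul_sum]
    exact Finset.sum_congr rfl fun i _ => Finset.sum_congr rfl fun j _ => by ring
  refine Complex.nonneg_iff.2 ⟨?_, (hH.im_star_dotProduct_mulVec_self x).symm⟩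
  rw [e, Matrix.sub_mul, Matrix.smul_mul, Matrix.one_mul, trace_sub, trace_smul]
  have a1 := abs_trace_mul_le h (vecMulVec x (star x))
  have a2 := norm_le_trace hY
  have a3 := Complex.re_le_norm (h * vecMulVec x (star x)).trace
  have a4 : ‖h‖ * ‖vecMulVec x (star x)‖ ≤ C * (vecMulVec x (star x)).trace.re :=
    mul_le_mul h1 a2 (norm_nonneg _) hC
  simp only [Complex.sub_re, Complex.real_smul, Complex.mul_re, Complex.ofReal_re,
    Complex.ofReal_im]
  linarith

theorem bd_of_norm (hC : 0 < C) (hh : h.PosDef) (h1 : ‖h‖ ≤ C) (h2 : ‖h⁻¹‖ ≤ C) : Bd C h := by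
  refine ⟨?_, abd_upper hh.1 h1⟩
  have hu : IsUnit h.det := (Matrix.isUnit_iff_isUnit_det h).1 hh.isUnit
  have := abd_inv_lower hC hh.inv (abd_upper hh.inv.1 h2)
  rwa [Matrix.nonsing_inv_nonsing_inv h hu] at this

theorem trace_mul_nonneg (hP : P.PosSemidef) (hQ : Q.PosSemidef) : 0 ≤ (P * Q).trace.re := by
  obtain ⟨B, rfl⟩ := abd_exists_sqrt hP
  rw [Matrix.mul_assoc, trace_mul_comm]
  exact (Complex.nonneg_iff.1 (hQ.mul_mul_conjTranspose_same B).trace_nonneg).1

omit [InnerProductSpace ℝ E] [FiniteDimensional ℝ E] in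
theorem LBd.of_continuousOn {U : Set E} {H : E → Mat r} (hc : ContinuousOn H U)
    (hp : ∀ x ∈ U, (H x).PosDef) : LBd U H := by
  intro K hK hKU
  have hi : ContinuousOn (fun x => (H x)⁻¹) U := by
    intro x hx
    have hu : IsUnit (H x).det := (Matrix.isUnit_iff_isUnit_det _).1 (hp x hx).isUnit
    have : ContinuousAt Inv.inv (H x) := by
      refine continuousAt_matrix_inv _ ?_
      rw [Ring.inverse_eq_inv']
      exact continuousAt_inv₀ hu.ne_zero
    exact this.comp_continuousWithinAt (hc x hx)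
  obtain ⟨a, ha⟩ := hK.exists_bound_of_continuousOn (hc.mono hKU)
  obtain ⟨b, hb⟩ := hK.exists_bound_of_continuousOn (hi.mono hKU)
  refine ⟨max 1 (max a b), le_max_left _ _, fun x hx => ?_⟩
  exact bd_of_norm (lt_of_lt_of_le one_pos (le_max_left _ _)) (hp x (hKU hx))
    ((ha x hx).trans ((le_max_left _ _).trans (le_max_right _ _)))
    ((hb x hx).trans ((le_max_right _ _).trans (le_max_right _ _)))

omit [InnerProductSpace ℝ E] [FiniteDimensional ℝ E] in
theorem LBd.of_obst {U : Set E} {H h : E → Mat r} (hH : LBd U H) (hC : 1 ≤ C)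
    (ho : ∀ x ∈ U, Obst C (H x) (h x)) : LBd U h := by
  intro K hK hKU
  obtain ⟨B, hB, hb⟩ := hH K hK hKU
  exact ⟨B * C, one_le_mul_of_one_le_of_one_le hB hC, fun x hx =>
    Obst.trans (by linarith) (by linarith) (hb x hx) (ho x (hKU hx))⟩

omit [InnerProductSpace ℝ E] [FiniteDimensional ℝ E] in
theorem LBd.mono {U U' : Set E} {h : E → Mat r} (hh : LBd U h) (hU : U' ⊆ U) : LBd U' h :=
  fun K hK hKU => hh K hK (hKU.trans hU)

omit [InnerProductSpace ℝ E] [FiniteDimensional ℝ E] in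
theorem LBd.posDef {U : Set E} {h : E → Mat r} (hh : LBd U h) : ∀ x ∈ U, (h x).PosDef := by
  intro x hx
  obtain ⟨B, hB, hb⟩ := hh {x} isCompact_singleton (singleton_subset_iff.2 hx)
  exact (hb x rfl).posDef (by linarith)

omit [InnerProductSpace ℝ E] [FiniteDimensional ℝ E] in
theorem LBd.lb {U : Set E} {h : E → Mat r} (hh : LBd U h) : LB U h := by
  intro K hK hKU
  obtain ⟨B, hB, hb⟩ := hh K hK hKU
  exact ⟨r * B, fun x hx => (hb x hx).norm_le (by linarith)⟩

omit [InnerProductSpace ℝ E] [FiniteDimensional ℝ E] in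
theorem LBd.lb_inv {U : Set E} {h : E → Mat r} (hh : LBd U h) : LB U fun x => (h x)⁻¹ := by
  intro K hK hKU
  obtain ⟨B, hB, hb⟩ := hh K hK hKU
  exact ⟨r * B, fun x hx => (hb x hx).norm_inv_le (by linarith)⟩

end Pool.Agent.PW
end
end

-- part Pool.Agent.P.MP_65ad7c_ag.ANf0
section

open MeasureTheory Set Filter Topology Metric Matrix
open scoped ComplexOrder ContDiff Matrix.Norms.Frobenius RealInnerProductSpace ENNReal
open Pool.Agent.Lib.Sob

noncomputable section
namespace Pool.Agent.PW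

variable {E : Type} [NormedAddCommGroup E] [InnerProductSpace ℝ E] [FiniteDimensional ℝ E] {r : ℕ}

variable {P Q h : Mat r} {C l L : ℝ} {α : E →L[ℝ] E}

theorem nf_comm (hP : P.PosDef) (hQ : Q.PosDef) (X Y : Mat r) : nf P Q X Y = nf P Q Y X := by
  have h1 : (X * P⁻¹ * Yᴴ * Q)ᴴ = Q * (Y * P⁻¹ * Xᴴ) := by
    simp only [conjTranspose_mul, conjTranspose_conjTranspose, hQ.isHermitian.eq,
      hP.inv.isHermitian.eq, Matrix.mul_assoc]
  have h2 : (Y * P⁻¹ * Xᴴ * Q).trace = star (X * P⁻¹ * Yᴴ * Q).trace := by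
    rw [← trace_conjTranspose, h1, trace_mul_comm]
  simp only [nf, h2]
  simp

theorem nf_nonneg (hP : P.PosDef) (hQ : Q.PosDef) (X : Mat r) : 0 ≤ nf P Q X X :=
  trace_mul_nonneg (hP.inv.posSemidef.mul_mul_conjTranspose_same X) hQ.posSemidef

theorem anf0_expand (X Y : Mat r) (t : ℝ) : nf P Q (t • X + Y) (t • X + Y) =
    nf P Q X X * (t * t) + (nf P Q X Y + nf P Q Y X) * t + nf P Q Y Y := by
  have e : (t • X + Y)ᴴ = t • Xᴴ + Yᴴ := by
    ext i j; simp
  simp only [nf, e, Matrix.add_mul, Matrix.mul_add, Matrix.smul_mul, Matrix.mul_smul, trace_add,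
    trace_smul, Complex.add_re, Complex.real_smul, Complex.re_ofReal_mul]
  ring

theorem nf_sq_le (hP : P.PosDef) (hQ : Q.PosDef) (X Y : Mat r) :
    nf P Q X Y ^ 2 ≤ nf P Q X X * nf P Q Y Y := by
  have h := discrim_le_zero (a := nf P Q X X) (b := nf P Q X Y + nf P Q Y X) (c := nf P Q Y Y)
    fun t => by rw [← anf0_expand]; exact nf_nonneg hP hQ _
  rw [discrim, ← nf_comm hP hQ X Y] at h
  nlinarith

theorem anf0_norm_sq (X : Mat r) : ‖X‖ ^ 2 = (X * Xᴴ).trace.re := by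
  rw [Matrix.frobenius_norm_def, ← Real.sqrt_eq_rpow, Real.sq_sqrt (by positivity)]
  simp only [trace, diag, Matrix.mul_apply, conjTranspose_apply, Complex.re_sum]
  refine Finset.sum_congr rfl fun i _ => Finset.sum_congr rfl fun j _ => ?_
  rw [Complex.star_def, Complex.mul_conj, Complex.normSq_eq_norm_sq, Complex.ofReal_re,
    Real.rpow_two]

theorem anf0_tr_nonneg (hP : P.PosSemidef) : 0 ≤ P.trace.re := by
  simpa using trace_mul_nonneg hP PosSemidef.one

theorem le_nf (hC : 0 < C) (hP : Bd C P) (hQ : Bd C Q) (X : Mat r) :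
    ‖X‖ ^ 2 ≤ C ^ 2 * nf P Q X X := by
  have hP' := (hP.posDef hC).inv.posSemidef.mul_mul_conjTranspose_same X
  have h1 := trace_mul_nonneg hP' hQ.1
  have h2 := anf0_tr_nonneg ((hP.inv hC).1.mul_mul_conjTranspose_same X)
  simp only [Matrix.mul_sub, Matrix.sub_mul, Matrix.mul_smul, Matrix.smul_mul, Matrix.mul_one,
    trace_sub, trace_smul, Complex.sub_re, Complex.real_smul, Complex.re_ofReal_mul] at h1 h2
  rw [anf0_norm_sq, nf]
  have e : C⁻¹ * C = 1 := inv_mul_cancel₀ hC.ne'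
  set a := (X * Xᴴ).trace.re
  set b := (X * P⁻¹ * Xᴴ).trace.re
  set c := (X * P⁻¹ * Xᴴ * Q).trace.re
  have h3 : a ≤ C * b := by
    have := mul_nonneg hC.le h2
    rw [mul_sub, ← mul_assoc, mul_comm C C⁻¹, e, one_mul] at this; linarith
  have h4 : b ≤ C * c := by
    have := mul_nonneg hC.le h1
    rw [mul_sub, ← mul_assoc, mul_comm C C⁻¹, e, one_mul] at this; linarith
  nlinarith [mul_le_mul_of_nonneg_left h4 hC.le]

theorem nf_le (hC : 0 < C) (hP : Bd C P) (hQ : Bd C Q) (X : Mat r) :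
    nf P Q X X ≤ C ^ 2 * ‖X‖ ^ 2 := by
  have hP' := (hP.posDef hC).inv.posSemidef.mul_mul_conjTranspose_same X
  have h1 := trace_mul_nonneg hP' hQ.2
  have h2 := anf0_tr_nonneg ((hP.inv hC).2.mul_mul_conjTranspose_same X)
  simp only [Matrix.mul_sub, Matrix.sub_mul, Matrix.mul_smul, Matrix.smul_mul, Matrix.mul_one,
    trace_sub, trace_smul, Complex.sub_re, Complex.real_smul, Complex.re_ofReal_mul] at h1 h2
  rw [anf0_norm_sq, nf]
  set a := (X * Xᴴ).trace.re
  set b := (X * P⁻¹ * Xᴴ).trace.re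
  set c := (X * P⁻¹ * Xᴴ * Q).trace.re
  nlinarith [mul_nonneg hC.le h2]

theorem anf0_indep {V ι κ : Type} [AddCommGroup V] [Module ℝ V] [Fintype ι] [Fintype κ]
    (B : E →ₗ[ℝ] E →ₗ[ℝ] V) (e : OrthonormalBasis ι ℝ E) (b : OrthonormalBasis κ ℝ E) :
    ∑ p, B (e p) (e p) = ∑ i, B (b i) (b i) := by
  have h1 : ∀ p, B (e p) (e p) = ∑ i, ⟪b i, e p⟫ • B (b i) (e p) := fun p => by
    conv_lhs => rw [show B (e p) = B (∑ i, ⟪b i, e p⟫ • b i) by rw [b.sum_repr']]
    rw [map_sum, LinearMap.sum_apply]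
    refine Finset.sum_congr rfl fun i _ => ?_
    rw [map_smul, LinearMap.smul_apply]
  have h2 : ∀ i, B (b i) (b i) = ∑ p, ⟪b i, e p⟫ • B (b i) (e p) := fun i => by
    conv_lhs => rw [show B (b i) (b i) = B (b i) (∑ p, ⟪e p, b i⟫ • e p) by rw [e.sum_repr']]
    rw [map_sum]
    refine Finset.sum_congr rfl fun p _ => ?_
    rw [map_smul, real_inner_comm]
  simp only [h1]
  rw [Finset.sum_comm]
  exact Finset.sum_congr rfl fun i _ => (h2 i).symm

/-- contraction of a positive symmetric bilinear form with `α ≥ l` -/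
theorem contr_ge (B : E →ₗ[ℝ] E →ₗ[ℝ] ℝ) (hs : ∀ v w, B v w = B w v) (hp : ∀ v, 0 ≤ B v v)
    (hα : ∀ v w, ⟪α v, w⟫ = ⟪v, α w⟫) (hl : ∀ v, l * ‖v‖ ^ 2 ≤ ⟪v, α v⟫) :
    l * ∑ p, B (ob E p) (ob E p) ≤ ∑ p, B (ob E p) (α (ob E p)) := by
  have hsym : (α : E →ₗ[ℝ] E).IsSymmetric := hα
  set b := hsym.eigenvectorBasis rfl with hb
  have h1 := anf0_indep (B.compl₂ (α : E →ₗ[ℝ] E)) (ob E) b
  simp only [LinearMap.compl₂_apply, ContinuousLinearMap.coe_coe] at h1
  rw [h1, anf0_indep B (ob E) b, Finset.mul_sum]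
  refine Finset.sum_le_sum fun i _ => ?_
  have h2 : α (b i) = hsym.eigenvalues rfl i • b i := hsym.apply_eigenvectorBasis rfl i
  have h3 := hl (b i)
  rw [h2, inner_smul_right, real_inner_self_eq_norm_sq, b.orthonormal.1 i] at h3
  rw [h2, map_smul, smul_eq_mul]
  exact mul_le_mul_of_nonneg_right (by simpa using h3) (hp _)

/-- the contraction of a bilinear map with a symmetric `α` is symmetric -/
theorem contr_symm {V : Type} [AddCommGroup V] [Module ℝ V] (B : E →ₗ[ℝ] E →ₗ[ℝ] V)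
    (hα : ∀ v w, ⟪α v, w⟫ = ⟪v, α w⟫) :
    ∑ p, B (ob E p) (α (ob E p)) = ∑ p, B (α (ob E p)) (ob E p) := by
  have h1 : ∀ p, B (ob E p) (α (ob E p)) =
      ∑ q, ⟪ob E q, α (ob E p)⟫ • B (ob E p) (ob E q) := fun p => by
    conv_lhs => rw [← (ob E).sum_repr' (α (ob E p))]
    rw [map_sum]
    exact Finset.sum_congr rfl fun q _ => map_smul _ _ _
  have h2 : ∀ q, B (α (ob E q)) (ob E q) =
      ∑ p, ⟪ob E q, α (ob E p)⟫ • B (ob E p) (ob E q) := fun q => by
    conv_lhs => rw [← (ob E).sum_repr' (α (ob E q))]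
    rw [map_sum, LinearMap.sum_apply]
    refine Finset.sum_congr rfl fun p _ => ?_
    rw [map_smul, LinearMap.smul_apply, ← hα (ob E q), real_inner_comm]
  simp only [h1, h2]
  exact Finset.sum_comm

theorem norm_sq_le_sum {V : Type} [NormedAddCommGroup V] [NormedSpace ℝ V] (X : E →L[ℝ] V) :
    ‖X‖ ^ 2 ≤ ∑ p, ‖X (ob E p)‖ ^ 2 := by
  have h0 : 0 ≤ ∑ p, ‖X (ob E p)‖ ^ 2 := Finset.sum_nonneg fun _ _ => sq_nonneg _
  rw [← Real.le_sqrt (norm_nonneg _) h0]
  refine X.opNorm_le_bound (Real.sqrt_nonneg _) fun v => ?_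
  have h1 : ‖X v‖ ≤ ∑ p, ‖X (ob E p)‖ * |⟪ob E p, v⟫| := by
    conv_lhs => rw [← (ob E).sum_repr' v, map_sum]
    refine (norm_sum_le _ _).trans (Finset.sum_le_sum fun p _ => ?_)
    rw [map_smul, norm_smul, Real.norm_eq_abs, mul_comm]
  have h2 := Finset.sum_mul_sq_le_sq_mul_sq Finset.univ (fun p => ‖X (ob E p)‖)
    (fun p => |⟪ob E p, v⟫|)
  have h3 : ∑ p, |⟪ob E p, v⟫| ^ 2 = ‖v‖ ^ 2 := by
    simpa using (ob E).sum_sq_norm_inner_right v
  rw [h3] at h2
  refine h1.trans ?_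
  rw [← Real.sqrt_sq (norm_nonneg v), ← Real.sqrt_mul h0]
  exact Real.le_sqrt_of_sq_le h2

end Pool.Agent.PW
end
end

-- part Pool.Agent.P.MP_65ad7c_ag.ANf
section

open MeasureTheory Set Filter Topology Metric Matrix
open scoped ComplexOrder ContDiff Matrix.Norms.Frobenius RealInnerProductSpace ENNReal
open Pool.Agent.Lib.Sob

noncomputable section
namespace Pool.Agent.PW

variable {E : Type} [NormedAddCommGroup E] [InnerProductSpace ℝ E] [FiniteDimensional ℝ E] {r : ℕ}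

variable {P Q h : Mat r} {C l L : ℝ} {α : E →L[ℝ] E}

/-- the bilinear form `(v, w) ↦ re tr (X v * M * T (Y w) * N)` -/
def anfB (M N : Mat r) (T : Mat r →L[ℝ] Mat r) (X Y : E →L[ℝ] Mat r) : E →ₗ[ℝ] E →ₗ[ℝ] ℝ :=
  LinearMap.mk₂ ℝ (fun v w => trL r (X v * M * T (Y w) * N))
    (fun _ _ _ => by simp only [map_add, add_mul])
    (fun _ _ _ => by simp only [map_smul, smul_mul_assoc])
    (fun _ _ _ => by simp only [map_add, add_mul, mul_add])
    (fun _ _ _ => by simp only [map_smul, smul_mul_assoc, mul_smul_comm])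

/-- the bilinear form `(v, w) ↦ p v * q w` -/
def anfS (p q : E →L[ℝ] ℝ) : E →ₗ[ℝ] E →ₗ[ℝ] ℝ :=
  LinearMap.mk₂ ℝ (fun v w => p v * q w) (fun _ _ _ => by simp only [map_add, add_mul])
    (fun _ _ _ => by simp only [map_smul, smul_mul_assoc])
    (fun _ _ _ => by simp only [map_add, mul_add])
    (fun _ _ _ => by simp only [map_smul, mul_smul_comm])

theorem anf_sum_le (α : E →L[ℝ] E) {V W : Type} [NormedAddCommGroup V] [NormedSpace ℝ V]
    [NormedAddCommGroup W] [NormedSpace ℝ W] (X : E →L[ℝ] V) (Y : E →L[ℝ] W)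
    (f : Fin (Module.finrank ℝ E) → ℝ) (hf : ∀ p, |f p| ≤ ‖X (ob E p)‖ * ‖Y (α (ob E p))‖) :
    |∑ p, f p| ≤ Module.finrank ℝ E * ‖α‖ * ‖X‖ * ‖Y‖ := by
  refine (Finset.abs_sum_le_sum_abs _ _).trans
    ((Finset.sum_le_card_nsmul _ _ (‖α‖ * ‖X‖ * ‖Y‖) fun p _ => (hf p).trans ?_).trans_eq ?_)
  · have h0 : ‖ob E p‖ = 1 := (ob E).orthonormal.1 p
    have h1 := X.le_opNorm (ob E p)
    have h2 := α.le_opNorm (ob E p)
    rw [h0, mul_one] at h1 h2
    calc _ ≤ ‖X‖ * (‖Y‖ * ‖α‖) := mul_le_mul h1 (Y.le_of_opNorm_le_of_le le_rfl h2)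
          (norm_nonneg _) (norm_nonneg _)
      _ = _ := by ring
  · simp [mul_assoc]

theorem npair_ge (hP : P.PosDef) (hQ : Q.PosDef) (hα : ∀ v w, ⟪α v, w⟫ = ⟪v, α w⟫)
    (hl : ∀ v, l * ‖v‖ ^ 2 ≤ ⟪v, α v⟫) (X : E →L[ℝ] Mat r) :
    l * npair (ContinuousLinearMap.id ℝ E) P Q X ≤ npair α P Q X := by
  exact contr_ge (anfB P⁻¹ Q (adjL r) X X) (fun _ _ => nf_comm hP hQ _ _)
    (fun _ => nf_nonneg hP hQ _) hα hl

theorem npair_nonneg (hP : P.PosDef) (hQ : Q.PosDef) (hα : ∀ v w, ⟪α v, w⟫ = ⟪v, α w⟫)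
    (hl : ∀ v, 0 ≤ ⟪v, α v⟫) (X : E →L[ℝ] Mat r) : 0 ≤ npair α P Q X := by
  simpa using npair_ge (l := 0) hP hQ hα (by simpa using hl) X

theorem norm_sq_le_npair (hC : 0 < C) (hP : Bd C P) (hQ : Bd C Q) (hl : 0 ≤ l) (hα : Ell l L α)
    (X : E →L[ℝ] Mat r) : l * ‖X‖ ^ 2 ≤ C ^ 2 * npair α P Q X := by
  have h1 : ‖X‖ ^ 2 ≤ C ^ 2 * npair (ContinuousLinearMap.id ℝ E) P Q X := by
    rw [npair, Finset.mul_sum]
    exact (norm_sq_le_sum X).trans (Finset.sum_le_sum fun p _ => le_nf hC hP hQ _)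
  have h2 := npair_ge (hP.posDef hC) (hQ.posDef hC) hα.1 hα.2.1 X
  calc _ ≤ l * (C ^ 2 * npair (ContinuousLinearMap.id ℝ E) P Q X) :=
        mul_le_mul_of_nonneg_left h1 hl
    _ = C ^ 2 * (l * npair (ContinuousLinearMap.id ℝ E) P Q X) := by ring
    _ ≤ _ := mul_le_mul_of_nonneg_left h2 (sq_nonneg C)

theorem en_eq_npair (hh : h.PosDef) {D : E →L[ℝ] Mat r} (hD : HermF D) (α : E →L[ℝ] E) :
    en α h D = npair α h h (mc h D) := by
  rw [en, pair, npair]
  refine Finset.sum_congr rfl fun p _ => ?_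
  simp only [mc, nf, lmul_apply, conjTranspose_mul, hD _, hh.inv.isHermitian.eq, Matrix.mul_assoc,
    Matrix.nonsing_inv_mul h (isUnit_iff_isUnit_det h |>.1 hh.isUnit), Matrix.mul_one]

theorem abs_pair_le (α : E →L[ℝ] E) (X Y : E →L[ℝ] Mat r) :
    |pair α X Y| ≤ Module.finrank ℝ E * ‖α‖ * ‖X‖ * ‖Y‖ := by
  exact anf_sum_le α X Y _ fun p => (Complex.abs_re_le_norm _).trans (abs_trace_mul_le _ _)

theorem abs_spair_le (α : E →L[ℝ] E) (p q : E →L[ℝ] ℝ) :
    |spair α p q| ≤ Module.finrank ℝ E * ‖α‖ * ‖p‖ * ‖q‖ := by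
  exact anf_sum_le α p q _ fun i => (abs_mul _ _).le

theorem le_spair (hl : 0 ≤ l) (hα : Ell l L α) (p : E →L[ℝ] ℝ) : l * ‖p‖ ^ 2 ≤ spair α p p := by
  have h1 := contr_ge (anfS p p) (fun _ _ => mul_comm _ _) (fun _ => mul_self_nonneg _) hα.1 hα.2.1
  refine (mul_le_mul_of_nonneg_left ((norm_sq_le_sum p).trans_eq ?_) hl).trans h1
  exact Finset.sum_congr rfl fun i _ => (sq_abs _).trans (sq _)

theorem pair_comm (hα : ∀ v w, ⟪α v, w⟫ = ⟪v, α w⟫) (X Y : E →L[ℝ] Mat r) :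
    pair α X Y = pair α Y X := by
  have h1 := contr_symm (anfB 1 1 (ContinuousLinearMap.id ℝ _) X Y) hα
  simp only [anfB, LinearMap.mk₂_apply, Matrix.mul_one, ContinuousLinearMap.id_apply,
    trL_apply] at h1
  rw [pair, h1]
  exact Finset.sum_congr rfl fun p _ => by rw [trace_mul_comm]

theorem spair_comm (hα : ∀ v w, ⟪α v, w⟫ = ⟪v, α w⟫) (p q : E →L[ℝ] ℝ) :
    spair α p q = spair α q p := by
  exact (contr_symm (anfS p q) hα).trans (Finset.sum_congr rfl fun _ _ => mul_comm _ _)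

theorem norm_lmul_le (P : Mat r) (X : E →L[ℝ] Mat r) : ‖lmul P X‖ ≤ ‖P‖ * ‖X‖ := by
  refine ContinuousLinearMap.opNorm_le_bound _ (by positivity) fun v => ?_
  rw [mul_assoc]
  exact (norm_mul_le _ _).trans (mul_le_mul_of_nonneg_left (X.le_opNorm v) (norm_nonneg _))

theorem norm_rmul_le (X : E →L[ℝ] Mat r) (P : Mat r) : ‖rmul X P‖ ≤ ‖X‖ * ‖P‖ := by
  refine ContinuousLinearMap.opNorm_le_bound _ (by positivity) fun v => ?_
  rw [mul_right_comm]
  exact (norm_mul_le _ _).trans (mul_le_mul_of_nonneg_right (X.le_opNorm v) (norm_nonneg _))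

theorem lmul_mc (hh : h.PosDef) (D : E →L[ℝ] Mat r) : lmul h (mc h D) = D := by
  refine ContinuousLinearMap.ext fun v => ?_
  simp only [mc, lmul_apply, ← Matrix.mul_assoc,
    Matrix.mul_nonsing_inv h (isUnit_iff_isUnit_det h |>.1 hh.isUnit), Matrix.one_mul]

theorem mc_smul (hh : h.PosDef) {t : ℝ} (ht : 0 < t) (D : E →L[ℝ] Mat r) :
    mc (t • h) (t • D) = mc h D := by
  have h1 : (t • h)⁻¹ = t⁻¹ • h⁻¹ := Matrix.inv_eq_left_inv (by
    rw [smul_mul_smul_comm, inv_mul_cancel₀ ht.ne', one_smul,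
      Matrix.nonsing_inv_mul h (isUnit_iff_isUnit_det h |>.1 hh.isUnit)])
  refine ContinuousLinearMap.ext fun v => ?_
  simp only [mc, lmul_apply, h1, _root_.smul_apply, smul_mul_smul_comm,
    inv_mul_cancel₀ ht.ne', one_smul]

/-- uniform ellipticity on compact sets -/
theorem Coef.ell {U K : Set E} {α : E → E →L[ℝ] E} (h : Coef U α) (hK : IsCompact K)
    (hKU : K ⊆ U) : ∃ l L : ℝ, 0 < l ∧ ∀ x ∈ K, Ell l L (α x) := by
  have hc : ContinuousOn α K := h.1.continuousOn.mono hKU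
  obtain ⟨L, hL⟩ := hK.exists_bound_of_continuousOn hc
  have hc2 : ContinuousOn (fun z : E × E => ⟪z.2, α z.1 z.2⟫) (K ×ˢ sphere 0 1) :=
    ContinuousOn.inner (𝕜 := ℝ) continuousOn_snd
      ((hc.comp continuousOn_fst fun _ hz => hz.1).clm_apply continuousOn_snd)
  obtain ⟨l, hl, h1⟩ := (hK.prod (isCompact_sphere (0 : E) 1)).exists_forall_le' hc2 (a := 0)
    fun z hz => (h.2 z.1 (hKU hz.1)).2 z.2 (ne_of_mem_sphere hz.2 one_ne_zero)
  refine ⟨l, L, hl, fun x hx => ⟨(h.2 x (hKU hx)).1, fun v => ?_, hL x hx⟩⟩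
  rcases eq_or_ne v 0 with rfl | hv
  · simp
  have h0 : 0 < ‖v‖ := norm_pos_iff.2 hv
  have h2 := h1 (x, ‖v‖⁻¹ • v) ⟨hx, by simp [norm_smul, h0.ne']⟩
  simp only [map_smul, real_inner_smul_left, real_inner_smul_right] at h2
  rw [← le_div_iff₀ (by positivity)]
  refine h2.trans_eq ?_
  field_simp

end Pool.Agent.PW
end
end

-- part Pool.Agent.P.MP_65ad7c_ag.TTest
section

open MeasureTheory Set Filter Topology Metric Matrix
open scoped ComplexOrder ContDiff Matrix.Norms.Frobenius RealInnerProductSpace ENNReal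
open Pool.Agent.Lib.Sob

noncomputable section
namespace Pool.Agent.PW

variable {E : Type} [NormedAddCommGroup E] [InnerProductSpace ℝ E] [FiniteDimensional ℝ E]
  [MeasurableSpace E] [BorelSpace E] {r : ℕ} {U : Set E}
  {V W : Type} [NormedAddCommGroup V] [NormedSpace ℝ V] [NormedAddCommGroup W] [NormedSpace ℝ W]

/-- the derivative of a compactly supported function is compactly supported -/
theorem wd_cs_ae [CompleteSpace V] {n : ℕ} (hn : 1 ≤ n) (hU : IsOpen U) {u : E → V}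
    {D : E → E →L[ℝ] V} (h : WD n U u D) {K : Set E} (hK : IsClosed K)
    (h0 : ∀ x ∈ U, x ∉ K → u x = 0) : ∀ᵐ x, x ∈ U → x ∉ K → D x = 0 := by
  have hz : ∀ᵐ x, x ∈ U \ K → D x = 0 :=
    ((h.mono sdiff_subset).congr' (fun x hx => h0 x hx.1 hx.2) (fun _ _ => rfl)).unique hn
      (hU.sdiff hK) (WD.const hn 0)
  filter_upwards [hz] with x hx h1 h2 using hx ⟨h1, h2⟩

/-- a locally integrable function vanishing a.e. off a compact set is integrable -/
theorem integrableOn_of_cs (hU : IsOpen U) {u : E → V} (h : LocLp 1 U u) {K : Set E}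
    (hK : IsCompact K) (hKU : K ⊆ U) (h0 : ∀ᵐ x, x ∈ U → x ∉ K → u x = 0) :
    IntegrableOn u U ∧ ∫ x in U, u x = ∫ x in K, u x := by
  have hz : ∀ᵐ x, x ∈ U \ K → u x = 0 := by
    filter_upwards [h0] with x hx h1 using hx h1.1 h1.2
  exact ⟨(h.integrableOn le_rfl hK hKU).of_ae_sdiff_eq_zero hU.measurableSet.nullMeasurableSet hz,
    setIntegral_eq_of_subset_of_ae_sdiff_eq_zero hU.measurableSet.nullMeasurableSet hKU hz⟩

/-- pairing with a fixed `L²` function is continuous for `L²` convergence -/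
theorem ttest_lim {X A B C : Type*} [MeasurableSpace X] {μ : Measure X}
    [NormedAddCommGroup A] [NormedSpace ℝ A] [NormedAddCommGroup B] [NormedSpace ℝ B]
    [NormedAddCommGroup C] [NormedSpace ℝ C] (L : A →L[ℝ] B →L[ℝ] C) {f : X → A}
    (hf : MemLp f 2 μ) {g : ℕ → X → B} {g0 : X → B} (hg : ∀ k, MemLp (g k) 2 μ)
    (hg0 : MemLp g0 2 μ)
    (h : Tendsto (fun k => ∫⁻ x, ‖g k x - g0 x‖ₑ ^ 2 ∂μ) atTop (𝓝 0)) :
    Tendsto (fun k => ∫ x, L (f x) (g k x) ∂μ) atTop (𝓝 (∫ x, L (f x) (g0 x) ∂μ)) := by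
  have h2 : Tendsto (fun k => eLpNorm (fun x => g k x - g0 x) 2 μ) atTop (𝓝 0) := by
    have e : ∀ k, eLpNorm (fun x => g k x - g0 x) 2 μ =
        (∫⁻ x, ‖g k x - g0 x‖ₑ ^ 2 ∂μ) ^ (2⁻¹ : ℝ) := by
      intro k
      have := lintegral_pow_eq (n := 2) (μ := μ) (by norm_num) (fun x => g k x - g0 x)
      rw [this]
      have h3 := ENNReal.pow_rpow_inv_natCast (n := 2) (by norm_num)
        (eLpNorm (fun x => g k x - g0 x) 2 μ)
      simpa using h3.symm
    simp only [e]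
    have := (ENNReal.continuous_rpow_const (y := (2⁻¹ : ℝ))).tendsto 0
    rw [ENNReal.zero_rpow_of_pos (by norm_num)] at this
    exact this.comp h
  refine tendsto_integral_of_L1 _ (L.aestronglyMeasurable_comp₂ hf.1 hg0.1)
    (Eventually.of_forall fun k => memLp_one_iff_integrable.1 (L.memLp_of_bilin 1 hf (hg k))) ?_
  have h3 : Tendsto (fun k => (‖L‖₊ * eLpNorm f 2 μ) * eLpNorm (fun x => g k x - g0 x) 2 μ)
      atTop (𝓝 0) := by
    have := ENNReal.Tendsto.const_mul (a := ‖L‖₊ * eLpNorm f 2 μ) h2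
      (Or.inr (ENNReal.mul_ne_top ENNReal.coe_ne_top hf.2.ne))
    simpa using this
  refine tendsto_of_tendsto_of_tendsto_of_le_of_le tendsto_const_nhds h3 (fun _ => zero_le)
    fun k => ?_
  have h4 := eLpNorm_le_eLpNorm_mul_eLpNorm_of_nnnorm (p := 2) (q := 2) (r := 1) hf.1
    ((hg k).1.sub hg0.1) (fun a b => L a b) ‖L‖₊ (.of_forall fun _ => L.le_opNorm₂ _ _)
  rw [eLpNorm_one_eq_lintegral_enorm] at h4
  simp only [Pi.sub_apply, map_sub] at h4
  exact h4

/-- weak identities extend to compactly supported `W^{1,2}` test functions -/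
theorem test_ext [CompleteSpace V] (hU : IsOpen U) {X : E → (E →L[ℝ] ℝ) →L[ℝ] V} {Z : E → V}
    (hX : LocLp 2 U X) (hZ : LocLp 2 U Z)
    (h : ∀ φ, IsTest U φ → ∫ x, X x (fderiv ℝ φ x) = ∫ x, φ x • Z x) {η : E → ℝ}
    {Dη : E → E →L[ℝ] ℝ} (hη : WD 2 U η Dη) (hc : CS U η) :
    ∫ x in U, X x (Dη x) = ∫ x in U, η x • Z x := by
  obtain ⟨K, hK, hKU, h0⟩ := hc
  obtain ⟨K', hK', hKK', hK'U, φ, hφ, t1, t2⟩ := hη.approx_test (by norm_num) hU hK hKU h0
  have hD := wd_cs_ae (by norm_num) hU hη hK.isClosed h0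
  have mK := hK.measurableSet
  have r1 : Tendsto (fun k => ∫⁻ x in K', ‖φ k x - K.indicator η x‖ₑ ^ 2) atTop (𝓝 0) :=
    tendsto_of_tendsto_of_tendsto_of_le_of_le tendsto_const_nhds t1 (fun _ => zero_le)
      fun k => setLIntegral_le_lintegral _ _
  have r2 : Tendsto (fun k => ∫⁻ x in K', ‖fderiv ℝ (φ k) x - K.indicator Dη x‖ₑ ^ 2) atTop
      (𝓝 0) :=
    tendsto_of_tendsto_of_tendsto_of_le_of_le tendsto_const_nhds t2 (fun _ => zero_le)
      fun k => setLIntegral_le_lintegral _ _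
  have a1 := ttest_lim (ContinuousLinearMap.id ℝ ((E →L[ℝ] ℝ) →L[ℝ] V)) (hX K' hK' hK'U)
    (fun k => LocLp.of_continuousOn (n := 2) (hφ k).continuous_fderiv.continuousOn K' hK' hK'U)
    ((hη.2.1 K' hK' hK'U).indicator mK) r2
  have a2 := ttest_lim (ContinuousLinearMap.lsmul ℝ ℝ (E := V)).flip (hZ K' hK' hK'U)
    (fun k => LocLp.of_continuousOn (n := 2) (hφ k).continuous.continuousOn K' hK' hK'U)
    ((hη.1 K' hK' hK'U).indicator mK) r1
  simp only [ContinuousLinearMap.id_apply, ContinuousLinearMap.flip_apply,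
    ContinuousLinearMap.lsmul_apply] at a1 a2
  have e : ∀ k, ∫ x in K', X x (fderiv ℝ (φ k) x) = ∫ x in K', φ k x • Z x := by
    intro k
    rw [setIntegral_eq_integral_of_forall_compl_eq_zero
        (fun x hx => by rw [(hφ k).fderiv_zero_of_notMem hx, map_zero]),
      setIntegral_eq_integral_of_forall_compl_eq_zero
        (fun x hx => by rw [(hφ k).zero_of_notMem hx, zero_smul])]
    exact h _ ((hφ k).mono hK'U)
  simp only [e] at a1
  have key := tendsto_nhds_unique a1 a2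
  have e1 : ∫ x in U, X x (Dη x) = ∫ x in K', X x (K.indicator Dη x) := by
    rw [setIntegral_eq_of_subset_of_ae_sdiff_eq_zero hU.measurableSet.nullMeasurableSet hK'U]
    · refine setIntegral_congr_ae hK'.measurableSet ?_
      filter_upwards [hD] with x hx hxK'
      by_cases hxK : x ∈ K
      · rw [indicator_of_mem hxK]
      · rw [indicator_of_notMem hxK, hx (hK'U hxK') hxK]
    · filter_upwards [hD] with x hx hx'
      rw [hx hx'.1 fun h' => hx'.2 (hKK' h'), map_zero]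
  have e2 : ∫ x in U, η x • Z x = ∫ x in K', K.indicator η x • Z x := by
    rw [setIntegral_eq_of_subset_of_ae_sdiff_eq_zero hU.measurableSet.nullMeasurableSet hK'U]
    · refine setIntegral_congr_fun hK'.measurableSet fun x hxK' => ?_
      by_cases hxK : x ∈ K
      · simp only [indicator_of_mem hxK]
      · simp only [indicator_of_notMem hxK, h0 x (hK'U hxK') hxK]
    · refine Eventually.of_forall fun x hx' => ?_
      rw [h0 x hx'.1 fun h' => hx'.2 (hKK' h'), zero_smul]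
  rw [e1, e2, key]

theorem ttest_smulRight {n : ℕ} {u : E → V} (h : LocLp n U u) {ζ : E → W →L[ℝ] ℝ}
    (hζ : ContinuousOn ζ U) : LocLp n U (fun x => (ζ x).smulRight (u x)) := by
  refine h.of_le_mul hζ.norm (fun K hK hKU => ?_) (Eventually.of_forall fun x _ => ?_)
  · have h1 := (hζ.mono hKU).aestronglyMeasurable hK.measurableSet (μ := volume)
    exact (ContinuousLinearMap.smulRightL ℝ W V).aestronglyMeasurable_comp₂ h1 (h K hK hKU).1
  · rw [ContinuousLinearMap.norm_smulRight_apply]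

omit [NormedSpace ℝ V] in
theorem ttest_sum {ι : Type} [Fintype ι] {n : ℕ} {u : ι → E → V} (h : ∀ i, LocLp n U (u i)) :
    LocLp n U fun x => ∑ i, u i x :=
  fun K hK hKU => memLp_finsetSum _ fun i _ => h i K hK hKU

/-- vector valued test functions, paired by a bilinear form -/
theorem ttest_gen [FiniteDimensional ℝ V] (Q : V →ₗ[ℝ] V →ₗ[ℝ] ℝ) (hU : IsOpen U)
    {α : E → E →L[ℝ] E} (hα : ContinuousOn α U)
    {Y : E → E →L[ℝ] V} {Z : E → V} (hY : LocLp 2 U Y) (hZ : LocLp 2 U Z)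
    (h : ∀ φ, IsTest U φ →
      ∫ x, ∑ p, fderiv ℝ φ x (α x (ob E p)) • Y x (ob E p) = ∫ x, φ x • Z x)
    {ζ : E → V} {Dζ : E → E →L[ℝ] V} (hζ : WD 2 U ζ Dζ) (hc : CS U ζ) :
    ∫ x in U, ∑ p, Q (Y x (ob E p)) (Dζ x (α x (ob E p))) = ∫ x in U, Q (Z x) (ζ x) := by
  have : CompleteSpace V := FiniteDimensional.complete ℝ V
  obtain ⟨K, hK, hKU, h0⟩ := hc
  have hD := wd_cs_ae (by norm_num) hU hζ hK.isClosed h0
  let b := Module.finBasis ℝ V
  let l : Fin (Module.finrank ℝ V) → V →L[ℝ] ℝ :=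
    fun a => LinearMap.toContinuousLinearMap (b.coord a)
  let T : Fin (Module.finrank ℝ V) → V →L[ℝ] ℝ :=
    fun a => LinearMap.toContinuousLinearMap (Q.flip (b a))
  have hT : ∀ a M, T a M = Q M (b a) := fun a M => rfl
  have hl : ∀ a M, l a M = b.repr M a := fun a M => rfl
  have hQ : ∀ A B, Q A B = ∑ a, b.repr B a * Q A (b a) := by
    intro A B
    conv_lhs => rw [← b.sum_repr B]
    simp only [map_sum, map_smul, smul_eq_mul]
  let X : E → (E →L[ℝ] ℝ) →L[ℝ] V := fun x => ∑ p : Fin (Module.finrank ℝ E),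
    (ContinuousLinearMap.apply ℝ ℝ (α x (ob E p))).smulRight (Y x (ob E p))
  have hXa : ∀ x q, X x q = ∑ p, q (α x (ob E p)) • Y x (ob E p) := by
    intro x q
    simp only [X, _root_.sum_apply, ContinuousLinearMap.smulRight_apply,
      ContinuousLinearMap.apply_apply]
  have hX : LocLp 2 U X := by
    refine ttest_sum fun p => ?_
    have c : ContinuousOn (fun x => α x (ob E p)) U := hα.clm_apply continuousOn_const
    exact ttest_smulRight (hY.apply _)
      ((ContinuousLinearMap.apply ℝ ℝ (E := E)).continuous.comp_continuousOn c)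
  have hw : ∀ a, WD 2 U (fun x => l a (ζ x)) fun x => (l a).comp (Dζ x) :=
    fun a => hζ.clm (by norm_num) (l a)
  have key : ∀ a, ∫ x in U, X x ((l a).comp (Dζ x)) = ∫ x in U, l a (ζ x) • Z x := by
    intro a
    refine test_ext hU hX hZ (fun φ hφ => ?_) (hw a) ⟨K, hK, hKU, fun x hx hxK => ?_⟩
    · simp only [hXa]
      exact h φ hφ
    · simp only [h0 x hx hxK, map_zero]
  have i1 : ∀ a, IntegrableOn (fun x => X x ((l a).comp (Dζ x))) U := by
    intro a
    refine (integrableOn_of_cs hU (locLp_bilin_one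
      (ContinuousLinearMap.id ℝ ((E →L[ℝ] ℝ) →L[ℝ] V)) hX (hw a).2.1) hK hKU ?_).1
    filter_upwards [hD] with x hx h1 h2
    simp only [hx h1 h2, ContinuousLinearMap.comp_zero, map_zero]
  have i2 : ∀ a, IntegrableOn (fun x => l a (ζ x) • Z x) U := by
    intro a
    refine (integrableOn_of_cs hU (locLp_bilin_one
      (ContinuousLinearMap.lsmul ℝ ℝ (E := V)) (hw a).1 hZ) hK hKU ?_).1
    refine Eventually.of_forall fun x h1 h2 => ?_
    simp only [h0 x h1 h2, map_zero, _root_.zero_apply]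
  have e1 : ∀ x, ∑ p, Q (Y x (ob E p)) (Dζ x (α x (ob E p))) =
      ∑ a, T a (X x ((l a).comp (Dζ x))) := by
    intro x
    simp only [hXa, map_sum, map_smul, hT, ContinuousLinearMap.comp_apply, hl, smul_eq_mul,
      LinearMap.sum_apply, LinearMap.smul_apply]
    rw [Finset.sum_comm]
    exact Finset.sum_congr rfl fun p _ => hQ _ _
  have e2 : ∀ x, Q (Z x) (ζ x) = ∑ a, T a (l a (ζ x) • Z x) := by
    intro x
    simp only [map_smul, hT, hl]
    exact hQ _ _
  simp only [e1, e2]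
  rw [integral_finsetSum _ fun a _ => (T a).integrable_comp (i1 a),
    integral_finsetSum _ fun a _ => (T a).integrable_comp (i2 a)]
  refine Finset.sum_congr rfl fun a _ => ?_
  rw [(T a).integral_comp_comm (i1 a), (T a).integral_comp_comm (i2 a), key]

/-- matrix valued test functions for `- div (α Y) = Z` -/
theorem div_test (hU : IsOpen U) {α : E → E →L[ℝ] E} (hα : ContinuousOn α U)
    {Y : E → E →L[ℝ] Mat r} {Z : E → Mat r} (hY : LocLp 2 U Y) (hZ : LocLp 2 U Z)
    (h : ∀ φ, IsTest U φ →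
      ∫ x, ∑ p, fderiv ℝ φ x (α x (ob E p)) • Y x (ob E p) = ∫ x, φ x • Z x)
    {ζ : E → Mat r} {Dζ : E → E →L[ℝ] Mat r} (hζ : WD 2 U ζ Dζ) (hc : CS U ζ) :
    ∫ x in U, pair (α x) (Y x) (Dζ x) = ∫ x in U, (Z x * ζ x).trace.re :=
  ttest_gen ((LinearMap.mul ℝ (Mat r)).compr₂ (trL r).toLinearMap) hU hα hY hZ h hζ hc

theorem harm_test (hU : IsOpen U) {α : E → E →L[ℝ] E} (hα : ContinuousOn α U)
    {A : E → E →L[ℝ] Mat r} (hA : LocLp 2 U A) (h : Harm U α A)
    {ζ : E → Mat r} {Dζ : E → E →L[ℝ] Mat r} (hζ : WD 2 U ζ Dζ) (hc : CS U ζ) :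
    ∫ x in U, pair (α x) (A x) (Dζ x) = 0 := by
  have := div_test hU hα hA (Z := fun _ => 0) (LocLp.of_continuousOn continuousOn_const)
    (fun φ hφ => by simpa using h φ hφ) hζ hc
  simpa using this

end Pool.Agent.PW
end
end

-- part Pool.Agent.P.MP_65ad7c_ag.FCurl
section

open MeasureTheory Set Filter Topology Metric Matrix
open scoped ComplexOrder ContDiff Matrix.Norms.Frobenius RealInnerProductSpace ENNReal
open Pool.Agent.Lib.Sob

noncomputable section
namespace Pool.Agent.PW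

variable {E : Type} [NormedAddCommGroup E] [InnerProductSpace ℝ E] [FiniteDimensional ℝ E]
  [MeasurableSpace E] [BorelSpace E] {r : ℕ} {U : Set E}

variable {om om' : E → E →L[ℝ] Mat r} {Φ Φ' : E → E → E → Mat r}

theorem WCurl.mono {U' : Set E} (h : WCurl U om Φ) (hU : U' ⊆ U) : WCurl U' om Φ :=
  fun φ hφ => h φ (hφ.mono hU)

theorem WCurl.congr (h : WCurl U om Φ) (h1 : ∀ᵐ x, x ∈ U → om x = om' x)
    (h2 : ∀ᵐ x, x ∈ U → ∀ v w, Φ x v w = Φ' x v w) : WCurl U om' Φ' := by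
  intro φ hφ v w
  have := h φ hφ v w
  rw [← integral_congr_ae (f := fun x => fderiv ℝ φ x v • om x w - fderiv ℝ φ x w • om x v), this,
    integral_congr_ae (f := fun x => φ x • Φ x v w)]
  · filter_upwards [h2] with x hx
    by_cases hxU : x ∈ U
    · rw [hx hxU]
    · simp [hφ.zero_of_notMem hxU]
  · filter_upwards [h1] with x hx
    by_cases hxU : x ∈ U
    · rw [hx hxU]
    · simp [hφ.fderiv_zero_of_notMem hxU]

theorem WCurl.lin (h : WCurl U om Φ) (h' : WCurl U om' Φ') (l : LocLp 1 U om) (l' : LocLp 1 U om')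
    (m : ∀ v w, LocLp 1 U fun x => Φ x v w) (m' : ∀ v w, LocLp 1 U fun x => Φ' x v w) (p q : ℂ) :
    WCurl U (fun x => p • om x + q • om' x) fun x v w => p • Φ x v w + q • Φ' x v w := by
  intro φ hφ v w
  have i1 := ((l.apply w).integrable_dtest le_rfl hφ v).sub' ((l.apply v).integrable_dtest le_rfl hφ w)
  have i2 := ((l'.apply w).integrable_dtest le_rfl hφ v).sub'
    ((l'.apply v).integrable_dtest le_rfl hφ w)
  have i3 := (m v w).integrable_test le_rfl hφ
  have i4 := (m' v w).integrable_test le_rfl hφ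
  have e1 : ∀ x, fderiv ℝ φ x v • (p • om x + q • om' x) w - fderiv ℝ φ x w • (p • om x + q • om' x) v
      = p • (fderiv ℝ φ x v • om x w - fderiv ℝ φ x w • om x v)
        + q • (fderiv ℝ φ x v • om' x w - fderiv ℝ φ x w • om' x v) := by
    intro x
    simp only [_root_.add_apply, _root_.smul_apply, smul_add, smul_sub,
      smul_comm _ p, smul_comm _ q]
    abel
  have e2 : ∀ x, φ x • (p • Φ x v w + q • Φ' x v w) = p • (φ x • Φ x v w) + q • (φ x • Φ' x v w) := by
    intro x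
    simp only [smul_add, smul_comm _ p, smul_comm _ q]
  simp only [e1, e2]
  rw [integral_add (i1.fun_smul p) (i2.fun_smul q), integral_add (i3.fun_smul p) (i4.fun_smul q), integral_smul,
    integral_smul, integral_smul, integral_smul, h φ hφ v w, h' φ hφ v w, smul_neg, smul_neg, neg_add]

/-- weak gradients are weakly closed -/
theorem wcurl_of_wd {n : ℕ} (hn : 1 ≤ n) {u : E → Mat r} {D : E → E →L[ℝ] Mat r}
    (h : WD n U u D) : WCurl U D fun _ _ _ => 0 := by
  intro φ hφ v w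
  have ht : ∀ e : E, IsTest U fun x => fderiv ℝ φ x e := fun e =>
    ⟨(hφ.1.fderiv_right (m := ∞) le_rfl).clm_apply contDiff_const, hφ.2.1.fderiv_apply ℝ e,
      (tsupport_fderiv_apply_subset ℝ e).trans hφ.2.2⟩
  have hs : ∀ x, fderiv ℝ (fun x => fderiv ℝ φ x v) x w = fderiv ℝ (fun x => fderiv ℝ φ x w) x v := by
    intro x
    have hd : DifferentiableAt ℝ (fderiv ℝ φ) x :=
      (hφ.1.fderiv_right (m := ∞) le_rfl).differentiable (by simp) x
    rw [fderiv_clm_apply hd (differentiableAt_const _), fderiv_clm_apply hd (differentiableAt_const _)]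
    have := (hφ.1.contDiffAt (x := x)).isSymmSndFDerivAt (by simp; exact WithTop.coe_le_coe.2 le_top)
    simp [this.eq v w]
  rw [integral_sub ((h.2.1.apply w).integrable_test hn (ht v))
    ((h.2.1.apply v).integrable_test hn (ht w))]
  have a1 := h.2.2 _ (ht v) w
  have a2 := h.2.2 _ (ht w) v
  simp only [hs] at a1
  rw [a1, neg_inj] at a2
  simp [a2]

theorem fcurl_scal {V : Type} [NormedAddCommGroup V] [NormedSpace ℝ V] [CompleteSpace V]
    {om : E → E →L[ℝ] V} {Φ : E → V} {v w : E}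
    (hU : IsOpen U) {a : E → ℝ} {Da : E → E →L[ℝ] ℝ} (ha : WD 2 U a Da)
    (ho : LocLp 2 U om) (hΦ : LocLp 2 U Φ) (h : ∀ φ, IsTest U φ →
      ∫ x, (fderiv ℝ φ x v • om x w - fderiv ℝ φ x w • om x v) = -∫ x, φ x • Φ x)
    {φ : E → ℝ} (hφ : IsTest U φ) :
    ∫ x, (fderiv ℝ φ x v • a x • om x w - fderiv ℝ φ x w • a x • om x v) =
      -∫ x, φ x • (Da x v • om x w - Da x w • om x v + a x • Φ x) := by
  set A : E → V →L[ℝ] (E →L[ℝ] ℝ) →L[ℝ] V := fun e =>
    ContinuousLinearMap.smulRightL ℝ (E →L[ℝ] ℝ) V (ContinuousLinearMap.apply ℝ ℝ e) with hA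
  have hAa : ∀ e y ξ, A e y ξ = ξ e • y := fun e y ξ => rfl
  clear_value A
  have h1 := LocLp.clm (W := (E →L[ℝ] ℝ) →L[ℝ] V) (ho.apply w) (A v)
  have h2 := LocLp.clm (W := (E →L[ℝ] ℝ) →L[ℝ] V) (ho.apply v) (A w)
  have hX := h1.sub h2
  have hη := ha.smul (by norm_num) hφ.1
  have key := test_ext hU hX hΦ.neg (fun ψ hψ => by
      simp only [_root_.sub_apply, hAa, smul_neg, integral_neg]
      exact h ψ hψ) hη
    ⟨tsupport φ, hφ.2.1, hφ.2.2, fun x _ hx => by simp [image_eq_zero_of_notMem_tsupport hx]⟩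
  rw [setIntegral_eq_integral_of_forall_compl_eq_zero, setIntegral_eq_integral_of_forall_compl_eq_zero]
    at key
  rotate_left
  · intro x hx
    simp [hφ.zero_of_notMem hx]
  · intro x hx
    simp [hφ.zero_of_notMem hx, hφ.fderiv_zero_of_notMem hx]
  have B := fun {f : E → ℝ} {g : E → V} (hf : LocLp 2 U f) (hg : LocLp 2 U g) =>
    locLp_bilin_one (ContinuousLinearMap.lsmul ℝ ℝ) hf hg
  simp only [ContinuousLinearMap.lsmul_apply] at B
  have i1 := ((B ha.1 (ho.apply w)).integrable_dtest le_rfl hφ v).sub'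
    ((B ha.1 (ho.apply v)).integrable_dtest le_rfl hφ w)
  have i2 := ((B (ha.2.1.apply v) (ho.apply w)).sub (B (ha.2.1.apply w) (ho.apply v))).integrable_test
    le_rfl hφ
  have i3 := (B ha.1 hΦ).integrable_test le_rfl hφ
  have e1 : ∀ x, (A v (om x w) - A w (om x v)) (φ x • Da x + (fderiv ℝ φ x).smulRight (a x))
      = (fderiv ℝ φ x v • a x • om x w - fderiv ℝ φ x w • a x • om x v)
        + φ x • (Da x v • om x w - Da x w • om x v) := by
    intro x
    simp only [_root_.sub_apply, hAa, _root_.add_apply,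
      _root_.smul_apply, ContinuousLinearMap.smulRight_apply, smul_eq_mul, add_smul,
      mul_smul, smul_sub]
    abel
  have e2 : ∀ x, (φ x • a x) • -Φ x = -(φ x • a x • Φ x) := by
    intro x
    rw [smul_neg, smul_eq_mul, mul_smul]
  simp only [e1, e2] at key
  rw [integral_add i1 i2, integral_neg] at key
  simp only [smul_add]
  rw [integral_add i2 i3, neg_add, ← key]
  abel

/-- product rule for the weak curl; `L = mul` gives `lmul`, `L = mul.flip` gives `rmul` -/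
theorem wcurl_bilin (L : Mat r →L[ℝ] Mat r →L[ℝ] Mat r) (hU : IsOpen U) {u : E → Mat r}
    {D : E → E →L[ℝ] Mat r} (hu : WD 2 U u D) (ho : LocLp 2 U om)
    (hΦ : ∀ v w, LocLp 2 U fun x => Φ x v w) (h : WCurl U om Φ) :
    WCurl U (fun x => (L (u x)).comp (om x))
      fun x v w => L (D x v) (om x w) - L (D x w) (om x v) + L (u x) (Φ x v w) := by
  intro φ hφ v w
  set b := Module.finBasis ℝ (Mat r) with hb
  set c : Fin (Module.finrank ℝ (Mat r)) → Mat r →L[ℝ] ℝ := fun i =>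
    LinearMap.toContinuousLinearMap (b.coord i) with hc
  have hL : ∀ y z : Mat r, L y z = ∑ i, c i y • L (b i) z := by
    intro y z
    conv_lhs => rw [← b.sum_repr y, map_sum, _root_.sum_apply]
    refine Finset.sum_congr rfl fun i _ => ?_
    rw [map_smul]
    rfl
  have B := fun {f : E → ℝ} {g : E → Mat r} (hf : LocLp 2 U f) (hg : LocLp 2 U g) =>
    locLp_bilin_one (ContinuousLinearMap.lsmul ℝ ℝ) hf hg
  simp only [ContinuousLinearMap.lsmul_apply] at B
  have hw := fun i => hu.clm (by norm_num) (c i)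
  have key := fun i => fcurl_scal hU (hw i) ho (hΦ v w) (fun ψ hψ => h ψ hψ v w) hφ
  have i1 := fun i => ((B (hw i).1 (ho.apply w)).integrable_dtest le_rfl hφ v).sub'
    ((B (hw i).1 (ho.apply v)).integrable_dtest le_rfl hφ w)
  have i2 := fun i => (((B ((hw i).2.1.apply v) (ho.apply w)).sub
    (B ((hw i).2.1.apply w) (ho.apply v))).add (B (hw i).1 (hΦ v w))).integrable_test le_rfl hφ
  have e1 : ∀ x, fderiv ℝ φ x v • (L (u x)).comp (om x) w - fderiv ℝ φ x w • (L (u x)).comp (om x) v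
      = ∑ i, L (b i) (fderiv ℝ φ x v • c i (u x) • om x w - fderiv ℝ φ x w • c i (u x) • om x v) := by
    intro x
    simp only [ContinuousLinearMap.comp_apply, map_sub, map_smul, Finset.sum_sub_distrib,
      ← Finset.smul_sum, ← hL]
  have e2 : ∀ x, φ x • (L (D x v) (om x w) - L (D x w) (om x v) + L (u x) (Φ x v w))
      = ∑ i, L (b i) (φ x • ((c i).comp (D x) v • om x w - (c i).comp (D x) w • om x v
        + c i (u x) • Φ x v w)) := by
    intro x
    simp only [ContinuousLinearMap.comp_apply, map_sub, map_add, map_smul, Finset.sum_sub_distrib,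
      Finset.sum_add_distrib, ← Finset.smul_sum, ← hL]
  simp only [e1, e2]
  rw [integral_finsetSum _ fun i _ => (L (b i)).integrable_comp (i1 i),
    integral_finsetSum _ fun i _ => (L (b i)).integrable_comp (i2 i), ← Finset.sum_neg_distrib]
  refine Finset.sum_congr rfl fun i _ => ?_
  rw [(L (b i)).integral_comp_comm (i1 i), (L (b i)).integral_comp_comm (i2 i), ← map_neg, ← key i]

end Pool.Agent.PW
end
end

-- part Pool.Agent.P.MP_65ad7c_ag.ASg
section

open MeasureTheory Set Filter Topology Metric Matrix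
open scoped ComplexOrder ContDiff Matrix.Norms.Frobenius RealInnerProductSpace ENNReal
open Pool.Agent.Lib.Sob

noncomputable section

namespace Pool.Agent.PWAsg

open scoped MatrixOrder in
theorem asg_fact {r : ℕ} {Q : Matrix (Fin r) (Fin r) ℂ} (hQ : Q.PosSemidef) :
    ∃ B : Matrix (Fin r) (Fin r) ℂ, Q = Bᴴ * B :=
  CStarAlgebra.nonneg_iff_eq_star_mul_self.1 hQ.nonneg

end Pool.Agent.PWAsg

namespace Pool.Agent.PW

variable {E : Type} [NormedAddCommGroup E] [InnerProductSpace ℝ E] [FiniteDimensional ℝ E] {r : ℕ}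

variable {P Q R u u' : Mat r} {C : ℝ}

theorem asg_det (hP : P.PosDef) : IsUnit P.det := (Matrix.isUnit_iff_isUnit_det P).1 hP.isUnit

theorem asg_inv_mul (hP : P.PosDef) : P⁻¹ * P = 1 := Matrix.nonsing_inv_mul P (asg_det hP)

theorem asg_mul_inv (hP : P.PosDef) : P * P⁻¹ = 1 := Matrix.mul_nonsing_inv P (asg_det hP)

theorem asg_tr_one : (1 : Mat r).trace.re = r := by simp

theorem asg_tr_smul (t : ℝ) (X : Mat r) : (t • X).trace.re = t * X.trace.re := by simp

theorem asg_tr_nonneg (hP : P.PosSemidef) : 0 ≤ P.trace.re := by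
  simpa using trace_mul_nonneg hP PosSemidef.one

theorem asg_nn (hP : P.PosDef) (hQ : Q.PosDef) : 0 ≤ (P⁻¹ * Q).trace.re :=
  trace_mul_nonneg hP.inv.posSemidef hQ.posSemidef

theorem asg_tr_mul_le (hP : P.PosSemidef) (hQ : Q.PosSemidef) :
    (P * Q).trace.re ≤ P.trace.re * Q.trace.re :=
  ((Complex.re_le_norm _).trans (abs_trace_mul_le P Q)).trans
    (mul_le_mul (norm_le_trace hP) (norm_le_trace hQ) (norm_nonneg _) (asg_tr_nonneg hP))

theorem asg_sqrt (hQ : Q.PosDef) : ∃ B B' : Mat r, Q = Bᴴ * B ∧ B * B' = 1 := by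
  obtain ⟨B, hB⟩ := PWAsg.asg_fact hQ.posSemidef
  refine ⟨B, Q⁻¹ * Bᴴ, hB, mul_eq_one_comm.1 ?_⟩
  rw [Matrix.mul_assoc, ← hB, asg_inv_mul hQ]

theorem asg_three (hP : P.PosSemidef) (hQ : Q.PosDef) (hR : R.PosSemidef) :
    (P * R).trace.re ≤ (P * Q).trace.re * (Q⁻¹ * R).trace.re := by
  obtain ⟨B, B', hB, h1⟩ := asg_sqrt hQ
  have h2 : B' * B = 1 := mul_eq_one_comm.1 h1
  have h3 : Bᴴ * B'ᴴ = 1 := by rw [← conjTranspose_mul, h2, conjTranspose_one]
  have h4 : B'ᴴ * Bᴴ = 1 := mul_eq_one_comm.1 h3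
  have hi : Q⁻¹ = B' * B'ᴴ := by
    refine Matrix.inv_eq_left_inv ?_
    rw [hB, Matrix.mul_assoc, ← Matrix.mul_assoc B'ᴴ, h4, Matrix.one_mul, h2]
  have a := asg_tr_mul_le (hP.mul_mul_conjTranspose_same B) (hR.conjTranspose_mul_mul_same B')
  have e1 : (B * P * Bᴴ * (B'ᴴ * R * B')).trace = (P * R).trace := by
    have : B * P * Bᴴ * (B'ᴴ * R * B') = B * (P * (Bᴴ * B'ᴴ) * R * B') := by
      simp only [Matrix.mul_assoc]
    rw [this, h3, Matrix.mul_one, trace_mul_comm, Matrix.mul_assoc, h2, Matrix.mul_one]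
  have e2 : (B * P * Bᴴ).trace = (P * Q).trace := by
    rw [hB, Matrix.mul_assoc, trace_mul_comm, Matrix.mul_assoc]
  have e3 : (B'ᴴ * R * B').trace = (Q⁻¹ * R).trace := by
    rw [hi, trace_mul_comm, Matrix.mul_assoc]
  rwa [e1, e2, e3] at a

theorem asg_psd {M : Mat r} (hM : M.IsHermitian)
    (h : ∀ A : Mat r, A.PosSemidef → 0 ≤ (A * M).trace.re) : M.PosSemidef := by
  refine PosSemidef.of_dotProduct_mulVec_nonneg hM fun x => ?_
  have a := h _ (posSemidef_vecMulVec_self_star x)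
  have e : (vecMulVec x (star x) * M).trace = star x ⬝ᵥ M *ᵥ x := by
    rw [vecMulVec_mul, trace_vecMulVec, dotProduct_comm, dotProduct_mulVec]
  rw [e] at a
  exact Complex.nonneg_iff.2 ⟨a, (hM.im_star_dotProduct_mulVec_self x).symm⟩

theorem asg_herm (t : ℝ) (hP : P.IsHermitian) : (t • P).IsHermitian := by
  unfold IsHermitian at hP ⊢
  rw [conjTranspose_smul, hP, star_trivial]

theorem asg_inv_smul {t : ℝ} (ht : 0 < t) (hP : P.PosDef) : (t • P)⁻¹ = t⁻¹ • P⁻¹ := by
  refine Matrix.inv_eq_left_inv ?_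
  rw [smul_mul_smul_comm, asg_inv_mul hP, inv_mul_cancel₀ ht.ne', one_smul]

theorem asg_low {A : Mat r} {t : ℝ} (hA : A.PosSemidef) (h : (Q - t • P).PosSemidef) :
    t * (A * P).trace.re ≤ (A * Q).trace.re := by
  have := trace_mul_nonneg hA h
  rw [Matrix.mul_sub, trace_sub, Complex.sub_re, Matrix.mul_smul, asg_tr_smul] at this
  linarith

theorem asg_up {A : Mat r} {t : ℝ} (hA : A.PosSemidef) (h : (t • P - Q).PosSemidef) :
    (A * Q).trace.re ≤ t * (A * P).trace.re := by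
  have := trace_mul_nonneg hA h
  rw [Matrix.mul_sub, trace_sub, Complex.sub_re, Matrix.mul_smul, asg_tr_smul] at this
  linarith

theorem asg_gm (hP : P.PosDef) (hu : u * u' = 1) :
    ((gm P u)⁻¹ * gm Q u).trace = (P⁻¹ * Q).trace := by
  have h3 : u'ᴴ * uᴴ = 1 := by rw [← conjTranspose_mul, hu, conjTranspose_one]
  have : u' * P⁻¹ * u'ᴴ * (uᴴ * Q * u) = u' * (P⁻¹ * (u'ᴴ * uᴴ) * Q * u) := by
    simp only [Matrix.mul_assoc]
  rw [gm_inv hP hu, gm, this, h3, Matrix.mul_one, trace_mul_comm, Matrix.mul_assoc, hu,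
    Matrix.mul_one]

theorem asg_smul {t : ℝ} (ht : 0 < t) (hP : P.PosDef) : (t • P)⁻¹ * (t • Q) = P⁻¹ * Q := by
  rw [asg_inv_smul ht hP, smul_mul_smul_comm, inv_mul_cancel₀ ht.ne', one_smul]

theorem sg_comm (P Q : Mat r) : sg P Q = sg Q P := add_comm _ _

theorem sg_self (hP : P.PosDef) : sg P P = 2 * r := by
  rw [sg, asg_inv_mul hP, asg_tr_one]; ring

theorem sg_sub_eq (hP : P.PosDef) (hQ : Q.PosDef) :
    sg P Q - 2 * r = nf Q P (P⁻¹ * Q - 1) (P⁻¹ * Q - 1) := by
  have e1 : (P⁻¹ * Q - 1) * Q⁻¹ = P⁻¹ - Q⁻¹ := by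
    rw [Matrix.sub_mul, Matrix.mul_assoc, asg_mul_inv hQ, Matrix.mul_one, Matrix.one_mul]
  have e2 : (P⁻¹ * Q - 1)ᴴ * P = Q - P := by
    rw [conjTranspose_sub, conjTranspose_mul, conjTranspose_one, hQ.isHermitian.eq,
      hP.inv.isHermitian.eq, Matrix.sub_mul, Matrix.mul_assoc, asg_inv_mul hP, Matrix.mul_one,
      Matrix.one_mul]
  rw [nf, Matrix.mul_assoc, e1, e2, Matrix.sub_mul, Matrix.mul_sub, Matrix.mul_sub, asg_inv_mul hP,
    asg_inv_mul hQ, sg]
  simp only [trace_sub, Complex.sub_re, asg_tr_one]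
  ring

theorem le_sg (hP : P.PosDef) (hQ : Q.PosDef) : 2 * (r : ℝ) ≤ sg P Q := by
  have := trace_mul_nonneg (hQ.inv.posSemidef.mul_mul_conjTranspose_same (P⁻¹ * Q - 1))
    hP.posSemidef
  have e := sg_sub_eq hP hQ
  rw [nf] at e
  linarith

theorem trace_inv_mul_le (hP : P.PosDef) (hQ : Q.PosDef) (hR : R.PosDef) :
    (P⁻¹ * R).trace.re ≤ (P⁻¹ * Q).trace.re * (Q⁻¹ * R).trace.re := by
  exact asg_three hP.inv.posSemidef hQ hR.posSemidef

theorem sg_mul_le (hP : P.PosDef) (hQ : Q.PosDef) (hR : R.PosDef) :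
    sg P R ≤ sg P Q * sg Q R := by
  have a := trace_inv_mul_le hP hQ hR
  have b := trace_inv_mul_le hR hQ hP
  have c := mul_nonneg (asg_nn hP hQ) (asg_nn hR hQ)
  have d := mul_nonneg (asg_nn hQ hP) (asg_nn hQ hR)
  simp only [sg]
  nlinarith

theorem log_sg_nonneg (hr : 0 < r) (hP : P.PosDef) (hQ : Q.PosDef) : 0 ≤ Real.log (sg P Q) := by
  have : (1 : ℝ) ≤ r := by exact_mod_cast hr
  exact Real.log_nonneg (by linarith [le_sg hP hQ])

theorem log_sg_le (hr : 0 < r) (hP : P.PosDef) (hQ : Q.PosDef) (hR : R.PosDef) :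
    Real.log (sg P R) ≤ Real.log (sg P Q) + Real.log (sg Q R) := by
  have : (1 : ℝ) ≤ r := by exact_mod_cast hr
  have a : 0 < sg P Q := by linarith [le_sg hP hQ]
  have b : 0 < sg Q R := by linarith [le_sg hQ hR]
  have c : 0 < sg P R := by linarith [le_sg hP hR]
  rw [← Real.log_mul a.ne' b.ne']
  exact Real.log_le_log c (sg_mul_le hP hQ hR)

theorem sg_gm (hP : P.PosDef) (hQ : Q.PosDef) (hu : u * u' = 1) :
    sg (gm P u) (gm Q u) = sg P Q := by
  rw [sg, sg, asg_gm hP hu, asg_gm hQ hu]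

theorem sg_smul {t : ℝ} (ht : 0 < t) (hP : P.PosDef) (hQ : Q.PosDef) :
    sg (t • P) (t • Q) = sg P Q := by
  rw [sg, sg, asg_smul ht hP, asg_smul ht hQ]

theorem kz_smul {t : ℝ} (ht : 0 < t) (hP : P.PosDef) (hQ : Q.PosDef) :
    kz (t • P) (t • Q) = kz P Q := by
  rw [kz, kz, asg_smul ht hP, asg_smul ht hQ]

theorem sg_le_of_obst (hP : P.PosDef) (hC : 0 < C) (h : Obst C P Q) : sg P Q ≤ 2 * r * C := by
  have hQ := h.posDef hP hC
  have a := asg_up hP.inv.posSemidef h.2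
  have b := asg_up hQ.inv.posSemidef (h.symm hC).2
  rw [asg_inv_mul hP, asg_tr_one] at a
  rw [asg_inv_mul hQ, asg_tr_one] at b
  rw [sg]
  linarith

theorem obst_of_sg (hP : P.PosDef) (hQ : Q.PosDef) (hC : 0 < C) (h : sg P Q ≤ C) :
    Obst C P Q := by
  have n1 := asg_nn hP hQ
  have n2 := asg_nn hQ hP
  rw [sg] at h
  refine ⟨asg_psd (hQ.isHermitian.sub (asg_herm _ hP.isHermitian)) fun A hA => ?_,
    asg_psd ((asg_herm _ hP.isHermitian).sub hQ.isHermitian) fun A hA => ?_⟩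
  · have a := asg_three hA hQ hP.posSemidef
    have b := trace_mul_nonneg hA hQ.posSemidef
    rw [Matrix.mul_sub, trace_sub, Complex.sub_re, Matrix.mul_smul, asg_tr_smul, sub_nonneg,
      inv_mul_le_iff₀ hC]
    nlinarith
  · have a := asg_three hA hP hQ.posSemidef
    have b := trace_mul_nonneg hA hP.posSemidef
    rw [Matrix.mul_sub, trace_sub, Complex.sub_re, Matrix.mul_smul, asg_tr_smul, sub_nonneg]
    nlinarith

theorem norm_kz_le (hP : P.PosDef) (hC : 0 < C) (hQ : Bd C Q) :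
    ‖kz P Q‖ ≤ r * C ^ 2 * sg P Q := by
  have hQ' := hQ.posDef hC
  have a := asg_low hP.inv.posSemidef hQ.1
  have b := asg_low hP.posSemidef (hQ.inv hC).1
  rw [Matrix.mul_one, inv_mul_le_iff₀ hC] at a b
  rw [trace_mul_comm] at b
  have rc : (0 : ℝ) ≤ r * C := by positivity
  have a1 : ‖P⁻¹ * Q‖ ≤ C * (P⁻¹ * Q).trace.re * (r * C) :=
    (norm_mul_le _ _).trans (mul_le_mul ((norm_le_trace hP.inv.posSemidef).trans a)
      (hQ.norm_le hC) (norm_nonneg _) (mul_nonneg hC.le (asg_nn hP hQ')))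
  have b1 : ‖Q⁻¹ * P‖ ≤ r * C * (C * (Q⁻¹ * P).trace.re) :=
    (norm_mul_le _ _).trans (mul_le_mul (hQ.norm_inv_le hC)
      ((norm_le_trace hP.posSemidef).trans b) (norm_nonneg _) rc)
  calc ‖kz P Q‖ ≤ ‖P⁻¹ * Q‖ + ‖Q⁻¹ * P‖ := norm_sub_le _ _
    _ ≤ _ := add_le_add a1 b1
    _ = _ := by rw [sg]; ring

/-- the scale of `Q` relative to `P` -/
theorem exists_scale (hr : 0 < r) (hP : P.PosDef) (hC : 0 < C) (h : Obst C P Q) {B L : ℝ}
    (hB : 0 < B) (hb : Bd B P) (hL : Q.trace.re * Q⁻¹.trace.re ≤ L) :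
    ∃ t : ℝ, C⁻¹ ≤ t ∧ t ≤ C ∧ sg (t • P) Q ≤ r + r * B ^ 2 * L := by
  have hQ := h.posDef hP hC
  have r1 : (1 : ℝ) ≤ r := by exact_mod_cast hr
  have r0 : (0 : ℝ) < r := by linarith
  have a := asg_low hP.inv.posSemidef h.1
  have b := asg_up hP.inv.posSemidef h.2
  rw [asg_inv_mul hP, asg_tr_one] at a b
  have c := asg_up hQ.posSemidef (hb.inv hB).2
  have d := asg_up hQ.inv.posSemidef hb.2
  rw [Matrix.mul_one] at c d
  rw [trace_mul_comm] at c
  have n1 := asg_nn hP hQ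
  have n2 := asg_nn hQ hP
  have q1 := asg_tr_nonneg hQ.posSemidef
  have q2 := asg_tr_nonneg hQ.inv.posSemidef
  have l : C⁻¹ ≤ (P⁻¹ * Q).trace.re / r := (le_div_iff₀ r0).2 a
  have t0 : 0 < (P⁻¹ * Q).trace.re / r := (inv_pos.2 hC).trans_le l
  have p0 : 0 < (P⁻¹ * Q).trace.re := (div_pos_iff_of_pos_right r0).1 t0
  refine ⟨(P⁻¹ * Q).trace.re / r, l, (div_le_iff₀ r0).2 b, ?_⟩
  rw [sg, asg_inv_smul t0 hP, Matrix.smul_mul, Matrix.mul_smul, asg_tr_smul, asg_tr_smul]
  have e : ((P⁻¹ * Q).trace.re / r)⁻¹ * (P⁻¹ * Q).trace.re = r := by field_simp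
  have m : (P⁻¹ * Q).trace.re * (Q⁻¹ * P).trace.re ≤ B ^ 2 * L :=
    calc _ ≤ B * Q.trace.re * (B * Q⁻¹.trace.re) := mul_le_mul c d n2 (by positivity)
      _ = B ^ 2 * (Q.trace.re * Q⁻¹.trace.re) := by ring
      _ ≤ _ := mul_le_mul_of_nonneg_left hL (sq_nonneg B)
  have m0 : 0 ≤ B ^ 2 * L := (mul_nonneg n1 n2).trans m
  have f : (P⁻¹ * Q).trace.re / r * (Q⁻¹ * P).trace.re ≤ r * B ^ 2 * L := by
    rw [div_mul_eq_mul_div, div_le_iff₀ r0]
    have : (1 : ℝ) ≤ r * r := by nlinarith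
    nlinarith [mul_le_mul_of_nonneg_left this m0]
  rw [e]
  linarith

end Pool.Agent.PW
end
end

-- part Pool.Agent.P.MP_65ad7c_ag.TMul0
section

open MeasureTheory Set Filter Topology Metric Matrix
open scoped ComplexOrder ContDiff Matrix.Norms.Frobenius RealInnerProductSpace ENNReal
open Pool.Agent.Lib.Sob

noncomputable section
namespace Pool.Agent.PW

variable {E : Type} [NormedAddCommGroup E] [InnerProductSpace ℝ E] [FiniteDimensional ℝ E]
  [MeasurableSpace E] [BorelSpace E] {r : ℕ} {U : Set E}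
  {V W : Type} [NormedAddCommGroup V] [NormedSpace ℝ V] [NormedAddCommGroup W] [NormedSpace ℝ W]

variable {u v h h' : E → Mat r} {D D' : E → E →L[ℝ] Mat r}

theorem LB.mul (h1 : LB U u) (h2 : LB U v) : LB U fun x => u x * v x :=
  h1.bilin (ContinuousLinearMap.mul ℝ (Mat r)) h2

theorem wd_mul (hU : IsOpen U) (h1 : WD 2 U u D) (h2 : WD 2 U v D') (b1 : LB U u) (b2 : LB U v) :
    WD 2 U (fun x => u x * v x) fun x => rmul (D x) (v x) + lmul (u x) (D' x) := by
  exact wd_bilin (by norm_num) hU (ContinuousLinearMap.mul ℝ (Mat r)) h1 h2 b1 b2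

theorem wd_mul_one (hU : IsOpen U) (h1 : WD 2 U u D) (h2 : WD 2 U v D') :
    WD 1 U (fun x => u x * v x) fun x => rmul (D x) (v x) + lmul (u x) (D' x) := by
  exact wd_bilin_one hU (ContinuousLinearMap.mul ℝ (Mat r)) h1 h2

theorem wd_smul (hU : IsOpen U) {η : E → ℝ} {Dη : E → E →L[ℝ] ℝ} (h1 : WD 2 U η Dη)
    (h2 : WD 2 U v D') (b1 : LB U η) (b2 : LB U v) :
    WD 2 U (fun x => η x • v x) fun x => η x • D' x + (Dη x).smulRight (v x) := by
  refine (wd_bilin (by norm_num) hU (ContinuousLinearMap.lsmul ℝ ℝ : ℝ →L[ℝ] Mat r →L[ℝ] Mat r)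
    h1 h2 b1 b2).congr' (fun _ _ => rfl) fun x _ => ?_
  refine ContinuousLinearMap.ext fun e => ?_
  simp [add_comm]

theorem wd_adj (h1 : WD 2 U u D) : WD 2 U (fun x => (u x)ᴴ) fun x => (adjL r).comp (D x) := by
  exact h1.clm (by norm_num) (adjL r)

theorem wd_inv (hU : IsOpen U) (h1 : WD 2 U u D)
    (hb : ∀ K, IsCompact K → K ⊆ U →
      ∃ C : ℝ, ∀ x ∈ K, IsUnit (u x).det ∧ ‖u x‖ ≤ C ∧ ‖(u x)⁻¹‖ ≤ C) :
    WD 2 U (fun x => (u x)⁻¹) fun x => -lmul (u x)⁻¹ (rmul (D x) (u x)⁻¹) := by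
  have hΩ : IsOpen {X : Mat r | IsUnit X} := Units.isOpen
  have hF : ContDiffOn ℝ 1 (Ring.inverse : Mat r → Mat r) {X : Mat r | IsUnit X} := by
    rintro _ ⟨y, rfl⟩
    exact (contDiffAt_ringInverse ℝ y).contDiffWithinAt
  have hu : ∀ x ∈ U, IsUnit (u x) := fun x hx => by
    obtain ⟨C, hC⟩ := hb {x} isCompact_singleton (singleton_subset_iff.2 hx)
    exact (Matrix.isUnit_iff_isUnit_det _).2 (hC x rfl).1
  refine (wd_chain (by norm_num) hU h1 hΩ hF fun K hK hKU => ?_).congr'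
    (fun x _ => (Matrix.nonsing_inv_eq_ringInverse _).symm) fun x hx => ?_
  · obtain ⟨C, hC⟩ := hb K hK hKU
    have hc : IsCompact ((closedBall (0 : Mat r) C ×ˢ closedBall (0 : Mat r) C) ∩
        {p : Mat r × Mat r | p.1 * p.2 = 1}) :=
      ((isCompact_closedBall _ _).prod (isCompact_closedBall _ _)).inter_right
        (isClosed_eq (continuous_fst.mul continuous_snd) continuous_const)
    refine ⟨_, hc.image continuous_fst, ?_, Eventually.of_forall fun x hx => ?_⟩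
    · rintro _ ⟨p, hp, rfl⟩
      exact (Matrix.isUnit_iff_isUnit_det _).2 (Matrix.isUnit_det_of_right_inverse hp.2)
    · obtain ⟨a, b, c⟩ := hC x hx
      exact ⟨(u x, (u x)⁻¹), ⟨⟨mem_closedBall_zero_iff.2 b, mem_closedBall_zero_iff.2 c⟩,
        Matrix.mul_nonsing_inv _ a⟩, rfl⟩
  · obtain ⟨y, hy⟩ := hu x hx
    rw [← hy, (hasFDerivAt_ringInverse (𝕜 := ℝ) y).fderiv]
    refine ContinuousLinearMap.ext fun e => ?_
    simp [mul_assoc]

theorem wd_gm (hU : IsOpen U) (h1 : WD 2 U h D) (h2 : WD 2 U u D') (b1 : LB U h) (b2 : LB U u) :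
    WD 2 U (fun x => gm (h x) (u x)) fun x => dgm (h x) (u x) (D x) (D' x) := by
  have b3 : LB U fun x => (u x)ᴴ := fun K hK hKU => by
    obtain ⟨C, hC⟩ := b2 K hK hKU
    exact ⟨C, fun x hx => by rw [Matrix.frobenius_norm_conjTranspose]; exact hC x hx⟩
  refine (wd_mul hU (wd_mul hU (wd_adj h2) h1 b3 b1) h2 (b3.mul b1) b2).congr'
    (fun _ _ => rfl) fun x _ => ?_
  refine ContinuousLinearMap.ext fun e => ?_
  simp [dgm, add_mul, mul_assoc]

/-- the derivative of a Hermitian function is Hermitian -/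
theorem wd_herm {n : ℕ} (hn : 1 ≤ n) (hU : IsOpen U) (h1 : WD n U h D)
    (hh : ∀ x ∈ U, (h x)ᴴ = h x) : ∀ᵐ x, x ∈ U → HermF (D x) := by
  have h2 : WD n U h fun x => (adjL r).comp (D x) :=
    (h1.clm hn (adjL r)).congr' hh fun _ _ => rfl
  filter_upwards [WD.unique hn hU h2 h1] with x hx hxU v
  exact congrArg (fun L : E →L[ℝ] Mat r => L v) (hx hxU)

end Pool.Agent.PW
end
end

-- part Pool.Agent.P.MP_65ad7c_ag.TMul
section

open MeasureTheory Set Filter Topology Metric Matrix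
open scoped ComplexOrder ContDiff Matrix.Norms.Frobenius RealInnerProductSpace ENNReal
open Pool.Agent.Lib.Sob

noncomputable section
namespace Pool.Agent.PW

variable {E : Type} [NormedAddCommGroup E] [InnerProductSpace ℝ E] [FiniteDimensional ℝ E]
  [MeasurableSpace E] [BorelSpace E] {r : ℕ} {U : Set E}
  {V W : Type} [NormedAddCommGroup V] [NormedSpace ℝ V] [NormedAddCommGroup W] [NormedSpace ℝ W]

variable {u v h h' : E → Mat r} {D D' : E → E →L[ℝ] Mat r}

theorem tmul_wd_inv (hU : IsOpen U) (h1 : WD 2 U h D) (b1 : LBd U h) :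
    WD 2 U (fun x => (h x)⁻¹) fun x => -lmul (h x)⁻¹ (rmul (D x) (h x)⁻¹) := by
  refine wd_inv hU h1 fun K hK hKU => ?_
  obtain ⟨C, hC, hb⟩ := b1 K hK hKU
  have hC0 : 0 < C := by linarith
  exact ⟨r * C, fun x hx => ⟨(Matrix.isUnit_iff_isUnit_det _).1 ((hb x hx).posDef hC0).isUnit,
    (hb x hx).norm_le hC0, (hb x hx).norm_inv_le hC0⟩⟩

omit [NormedSpace ℝ V] in
theorem tmul_sum {ι : Type} [Fintype ι] {n : ℕ} {f : ι → E → V} (hf : ∀ i, LocLp n U (f i)) :
    LocLp n U fun x => ∑ i, f i x :=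
  fun K hK hKU => memLp_finsetSum _ fun i _ => hf i K hK hKU

theorem tmul_app {n : ℕ} {α : E → E →L[ℝ] E} (hα : ContinuousOn α U) {Y : E → E →L[ℝ] V}
    (hY : LocLp n U Y) (e : E) : LocLp n U fun x => Y x (α x e) := by
  have hc : ContinuousOn (fun x => α x e) U := hα.clm_apply continuousOn_const
  exact locLp_bilin_lb (m := 1) (ContinuousLinearMap.apply ℝ V) (LocLp.of_continuousOn hc)
    (LB.of_continuousOn hc) hY

omit [FiniteDimensional ℝ E] [MeasurableSpace E] [BorelSpace E] [InnerProductSpace ℝ E] in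
theorem tmul_lb_clm {f : E → V} (hf : LB U f) (L : V →L[ℝ] W) : LB U fun x => L (f x) := by
  intro K hK hKU
  obtain ⟨C, hC⟩ := hf K hK hKU
  exact ⟨‖L‖ * C, fun x hx => (L.le_opNorm _).trans
    (mul_le_mul_of_nonneg_left (hC x hx) (norm_nonneg _))⟩

theorem tmul_npair {α : E → E →L[ℝ] E} (hα : ContinuousOn α U) {P Q : E → Mat r}
    {X : E → E →L[ℝ] Mat r} (p1 : LocLp 2 U fun x => (P x)⁻¹) (p2 : LB U fun x => (P x)⁻¹)
    (q1 : LocLp 2 U Q) (q2 : LB U Q) (hX : LocLp 2 U X) :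
    LocLp 1 U fun x => npair (α x) (P x) (Q x) (X x) := by
  refine tmul_sum (f := fun p x => nf (P x) (Q x) (X x (ob E p)) (X x (α x (ob E p)))) fun p => ?_
  have a1 : LocLp 2 U fun x => X x (ob E p) * (P x)⁻¹ :=
    locLp_bilin_lb (ContinuousLinearMap.mul ℝ (Mat r)).flip p1 p2 (hX.apply _)
  have a2 : LocLp 2 U fun x => (X x (α x (ob E p)))ᴴ * Q x :=
    locLp_bilin_lb (ContinuousLinearMap.mul ℝ (Mat r)).flip q1 q2
      ((tmul_app hα hX _).clm (adjL r))
  have a3 := (locLp_bilin_one (ContinuousLinearMap.mul ℝ (Mat r)) a1 a2).clm (trL r)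
  refine a3.congr (Eventually.of_forall fun x _ => ?_)
  simp only [ContinuousLinearMap.mul_apply', trL_apply, nf, mul_assoc]

theorem locLp_mc (hU : IsOpen U) (h1 : WD 2 U h D) (b1 : LBd U h) :
    LocLp 2 U fun x => mc (h x) (D x) :=
  locLp_bilin_lb ((ContinuousLinearMap.compL ℝ E (Mat r) (Mat r)).comp
    (ContinuousLinearMap.mul ℝ (Mat r))) (tmul_wd_inv hU h1 b1).1 b1.lb_inv h1.2.1

theorem wd_k (hU : IsOpen U) (h1 : WD 2 U h D) (h2 : WD 2 U h' D') (b1 : LBd U h)
    (b2 : LBd U h') :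
    WD 2 U (fun x => (h x)⁻¹ * h' x) fun x => dk (h x) (h' x) (D x) (D' x) := by
  refine (wd_mul hU (tmul_wd_inv hU h1 b1) h2 b1.lb_inv b2.lb).congr' (fun _ _ => rfl)
    fun x _ => ?_
  refine ContinuousLinearMap.ext fun e => ?_
  simp only [dk, _root_.add_apply, _root_.sub_apply,
    _root_.neg_apply, rmul_apply, lmul_apply, neg_mul, mul_assoc]
  abel

theorem wd_kz (hU : IsOpen U) (h1 : WD 2 U h D) (h2 : WD 2 U h' D') (b1 : LBd U h)
    (b2 : LBd U h') :
    WD 2 U (fun x => kz (h x) (h' x)) (fun x => dkz (h x) (h' x) (D x) (D' x)) ∧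
      LB U fun x => kz (h x) (h' x) :=
  ⟨(wd_k hU h1 h2 b1 b2).sub (by norm_num) (wd_k hU h2 h1 b2 b1),
    (b1.lb_inv.mul b2.lb).sub (b2.lb_inv.mul b1.lb)⟩

theorem wd_sg (hU : IsOpen U) (h1 : WD 2 U h D) (h2 : WD 2 U h' D') (b1 : LBd U h)
    (b2 : LBd U h') :
    WD 2 U (fun x => sg (h x) (h' x)) (fun x => dsg (h x) (h' x) (D x) (D' x)) ∧
      LB U fun x => sg (h x) (h' x) := by
  refine ⟨(((wd_k hU h1 h2 b1 b2).add (by norm_num) (wd_k hU h2 h1 b2 b1)).clm (by norm_num)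
    (trL r)).congr' (fun x _ => ?_) fun _ _ => rfl, ?_⟩
  · rw [map_add]; rfl
  · exact (tmul_lb_clm (b1.lb_inv.mul b2.lb) (trL r)).add (tmul_lb_clm (b2.lb_inv.mul b1.lb) (trL r))

theorem locLp_pair {α : E → E →L[ℝ] E} (hα : ContinuousOn α U) {X Y : E → E →L[ℝ] Mat r}
    (hX : LocLp 2 U X) (hY : LocLp 2 U Y) : LocLp 1 U fun x => pair (α x) (X x) (Y x) :=
  tmul_sum (f := fun p x => (X x (ob E p) * Y x (α x (ob E p))).trace.re) fun p =>
    (locLp_bilin_one (ContinuousLinearMap.mul ℝ (Mat r)) (hX.apply (ob E p))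
      (tmul_app hα hY (ob E p))).clm (trL r)

theorem locLp_spair {α : E → E →L[ℝ] E} (hα : ContinuousOn α U) {p q : E → E →L[ℝ] ℝ}
    (hp : LocLp 2 U p) (hq : LocLp 2 U q) : LocLp 1 U fun x => spair (α x) (p x) (q x) :=
  tmul_sum (f := fun i x => p x (ob E i) * q x (α x (ob E i))) fun i =>
    locLp_bilin_one (ContinuousLinearMap.mul ℝ ℝ) (hp.apply (ob E i)) (tmul_app hα hq (ob E i))

theorem locLp_qq (hU : IsOpen U) {α : E → E →L[ℝ] E} (hα : ContinuousOn α U) (h1 : WD 2 U h D)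
    (h2 : WD 2 U h' D') (b1 : LBd U h) (b2 : LBd U h') :
    LocLp 1 U fun x => qq (α x) (h x) (h' x) (D x) (D' x) :=
  (tmul_npair hα (tmul_wd_inv hU h2 b2).1 b2.lb_inv h1.1 b1.lb (wd_k hU h1 h2 b1 b2).2.1).add
    (tmul_npair hα (tmul_wd_inv hU h1 b1).1 b1.lb_inv h2.1 b2.lb (wd_k hU h2 h1 b2 b1).2.1)

end Pool.Agent.PW
end
end

-- part Pool.Agent.P.MP_65ad7c_ag.FFlat
section

open MeasureTheory Set Filter Topology Metric Matrix
open scoped ComplexOrder ContDiff Matrix.Norms.Frobenius RealInnerProductSpace ENNReal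
open Pool.Agent.Lib.Sob

noncomputable section
namespace Pool.Agent.PW

variable {E : Type} [NormedAddCommGroup E] [InnerProductSpace ℝ E] [FiniteDimensional ℝ E]
  [MeasurableSpace E] [BorelSpace E] {r : ℕ} {U : Set E}

/-- the Maurer-Cartan form is weakly flat -/
theorem flat_mc (hU : IsOpen U) {h : E → Mat r} {D : E → E →L[ℝ] Mat r} (hw : WD 2 U h D)
    (hb : LBd U h) : Flat U fun x => mc (h x) (D x) := by
  have hi := wd_inv hU hw fun K hK hKU => by
    obtain ⟨C, hC, hx⟩ := hb K hK hKU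
    have h0 : 0 < C := by linarith
    exact ⟨r * C, fun x hxK => ⟨((hx x hxK).posDef h0).isUnit.map detMonoidHom,
      (hx x hxK).norm_le h0, (hx x hxK).norm_inv_le h0⟩⟩
  have := wcurl_bilin (ContinuousLinearMap.mul ℝ (Mat r)) hU hi hw.2.1
    (fun _ _ => LocLp.of_continuousOn continuousOn_const) (wcurl_of_wd (by norm_num) hw)
  refine this.congr (Eventually.of_forall fun _ _ => rfl)
    (Eventually.of_forall fun x _ v w => ?_)
  simp [mc, cm, Matrix.mul_assoc]
  abel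

section
variable {n : ℕ} {O : Set (EC n)} {C : ℝ} {h : EC n → Mat r} {D : EC n → EC n →L[ℝ] Mat r}

theorem PHL.lbd (hC : 1 ≤ C) (hp : PHL O C h D) : LBd O h :=
  fun _ _ hK => ⟨C, hC, fun x hx => hp.bd x (hK hx)⟩

theorem PHL.bm (hO : IsOpen O) (hC : 1 ≤ C) (hp : PHL O C h D) :
    BM O (r * C * C) (fun x => mc (h x) (D x)) ∧
      BM O (r * C * C) fun x => (mc (h x) (D x)).comp (IL n) := by
  have h0 : 0 < C := by linarith
  have m := (locLp_mc hO hp.wd (hp.lbd hC)).aestronglyMeasurable (by norm_num) hO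
  have b : ∀ᵐ x, x ∈ O → ‖mc (h x) (D x)‖ ≤ r * C * C := by
    filter_upwards [hp.dbd] with x hx hxO
    refine (ContinuousLinearMap.opNorm_comp_le _ _).trans ?_
    exact mul_le_mul ((ContinuousLinearMap.opNorm_mul_apply_le _ _ _).trans
      ((hp.bd x hxO).norm_inv_le h0)) (hx hxO) (norm_nonneg _) (by positivity)
  have hI : ‖IL n‖ ≤ 1 := ContinuousLinearMap.opNorm_le_bound _ zero_le_one fun v => by
    simp [norm_smul]
  refine ⟨⟨m, b⟩, ((ContinuousLinearMap.compL ℝ (EC n) (EC n) (Mat r)).flip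
    (IL n)).continuous.comp_aestronglyMeasurable m, ?_⟩
  filter_upwards [b] with x hx hxO
  exact (ContinuousLinearMap.opNorm_comp_le _ _).trans
    ((mul_le_of_le_one_right (norm_nonneg _) hI).trans (hx hxO))

/-- the commutator of the rotated form -/
theorem PH1.cm_rotB {A : EC n →L[ℝ] Mat r} (hA : PH1 A) (p q : ℂ) (v w : EC n) :
    cm (rotB p q A v) (rotB p q A w) = (p ^ 2 + q ^ 2) • cm (A v) (A w) := by
  have h1 := hA v w
  have h2 := hA v (Complex.I • w)
  rw [smul_smul, Complex.I_mul_I, neg_one_smul, map_neg] at h2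
  have e : ∀ X Y X' Y' : Mat r, cm (p • X + q • X') (p • Y + q • Y') =
      p ^ 2 • cm X Y + (p * q) • (cm X Y' - cm X' (-Y)) + q ^ 2 • cm X' Y' := fun X Y X' Y' => by
    simp only [cm, Matrix.add_mul, Matrix.mul_add, Matrix.smul_mul, Matrix.mul_smul,
      Matrix.mul_neg, Matrix.neg_mul]
    module
  change cm (p • A v + q • A (Complex.I • v)) (p • A w + q • A (Complex.I • w)) = _
  rw [e, h1, h2, sub_self, smul_zero, add_zero, add_smul]

/-- the rotated connection is weakly flat on the conic -/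
theorem PHL.flat (hO : IsOpen O) (hC : 1 ≤ C) (hp : PHL O C h D) {p q : ℂ}
    (hpq : p ^ 2 - p + q ^ 2 = 0) : Flat O (rotA p q h D) := by
  obtain ⟨b1, b2⟩ := hp.bm hO hC
  have := (flat_mc hO hp.wd (hp.lbd hC)).lin hp.ph2 (b1.locLp 1) (b2.locLp 1)
    (fun v w => (((b1.cmF.locLp 1).apply v).apply w).clm (-ContinuousLinearMap.id ℝ _))
    (fun _ _ => LocLp.of_continuousOn continuousOn_const) p q
  refine this.congr (Eventually.of_forall fun _ _ => rfl) ?_
  filter_upwards [hp.ph1] with x hx hxO v w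
  rw [rotA, (hx hxO).cm_rotB, show p ^ 2 + q ^ 2 = p by linear_combination hpq]
  simp

end

end Pool.Agent.PW
end
end

-- part Pool.Agent.P.MP_65ad7c_ag.TComp
section

open MeasureTheory Set Filter Topology Metric Matrix
open scoped ComplexOrder ContDiff Matrix.Norms.Frobenius RealInnerProductSpace ENNReal
open Pool.Agent.Lib.Sob

noncomputable section
namespace Pool.Agent.PW

variable {E : Type} [NormedAddCommGroup E] [InnerProductSpace ℝ E] [FiniteDimensional ℝ E]
  [MeasurableSpace E] [BorelSpace E] {r : ℕ} {U : Set E}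
  {V W : Type} [NormedAddCommGroup V] [NormedSpace ℝ V] [NormedAddCommGroup W] [NormedSpace ℝ W]

/-- a diffeomorphism between open sets -/
structure Diffeo (O O' : Set E) (T T' : E → E) : Prop where
  o : IsOpen O
  o' : IsOpen O'
  m : MapsTo T O O'
  m' : MapsTo T' O' O
  l : ∀ x ∈ O, T' (T x) = x
  r : ∀ y ∈ O', T (T' y) = y
  s : ContDiffOn ℝ ∞ T O
  s' : ContDiffOn ℝ ∞ T' O'

variable {O O' : Set E} {T T' : E → E}

theorem Diffeo.symm (h : Diffeo O O' T T') : Diffeo O' O T' T :=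
  ⟨h.o', h.o, h.m', h.m, h.r, h.l, h.s', h.s⟩

omit [FiniteDimensional ℝ E] [MeasurableSpace E] [BorelSpace E] in
theorem tcomp_hasFDerivAt (h : Diffeo O O' T T') {x : E} (hx : x ∈ O) :
    HasFDerivAt T (fderiv ℝ T x) x :=
  ((h.s.contDiffAt (h.o.mem_nhds hx)).differentiableAt (by simp)).hasFDerivAt

omit [FiniteDimensional ℝ E] [MeasurableSpace E] [BorelSpace E] in
theorem tcomp_injOn (h : Diffeo O O' T T') : InjOn T O := fun x hx y hy hxy => by
  rw [← h.l x hx, hxy, h.l y hy]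

omit [FiniteDimensional ℝ E] [MeasurableSpace E] [BorelSpace E] in
theorem tcomp_image (h : Diffeo O O' T T') : T '' O = O' := by
  refine Subset.antisymm h.m.image_subset fun y hy => ⟨T' y, h.m' hy, h.r y hy⟩

omit [FiniteDimensional ℝ E] [MeasurableSpace E] [BorelSpace E] in
theorem tcomp_cont_fderiv (h : Diffeo O O' T T') : ContinuousOn (fderiv ℝ T) O :=
  h.s.continuousOn_fderiv_of_isOpen h.o (by simp)

theorem Diffeo.det_ne (h : Diffeo O O' T T') {x : E} (hx : x ∈ O) : (fderiv ℝ T x).det ≠ 0 := by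
  have h1 := tcomp_hasFDerivAt h hx
  have h2 := tcomp_hasFDerivAt h.symm (h.m hx)
  have h3 : HasFDerivAt (fun y => T' (T y)) ((fderiv ℝ T' (T x)).comp (fderiv ℝ T x)) x :=
    h2.comp x h1
  have h4 : HasFDerivAt (fun y => T' (T y)) (ContinuousLinearMap.id ℝ E) x := by
    refine (hasFDerivAt_id x).congr_of_eventuallyEq ?_
    filter_upwards [h.o.mem_nhds hx] with y hy using h.l y hy
  have h5 := h3.unique h4
  intro h0
  have h6 : ((fderiv ℝ T' (T x)).comp (fderiv ℝ T x)).det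
      = (fderiv ℝ T' (T x)).det * (fderiv ℝ T x).det :=
    LinearMap.det_comp ((fderiv ℝ T' (T x) : E →L[ℝ] E) : E →ₗ[ℝ] E)
      ((fderiv ℝ T x : E →L[ℝ] E) : E →ₗ[ℝ] E)
  have h7 : (ContinuousLinearMap.id ℝ E).det = 1 := LinearMap.det_id
  rw [h5, h7, h0, mul_zero] at h6
  exact one_ne_zero h6

theorem Diffeo.ae_comp (h : Diffeo O O' T T') {p : E → Prop} (hp : ∀ᵐ y, y ∈ O' → p y) :
    ∀ᵐ x, x ∈ O → p (T x) := by
  have hd : DifferentiableOn ℝ T' {y | ¬ (y ∈ O' → p y)} := fun y hy => by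
    have hy' : y ∈ O' := by
      by_contra hn
      exact hy fun hh => absurd hh hn
    exact (tcomp_hasFDerivAt h.symm hy').differentiableAt.differentiableWithinAt
  have h0 := addHaar_image_eq_zero_of_differentiableOn_of_addHaar_eq_zero (volume : Measure E) hd
    (ae_iff.1 hp)
  refine ae_iff.2 (measure_mono_null (fun x hx => ?_) h0)
  have hx1 : x ∈ O := by
    by_contra hn
    exact hx fun hh => absurd hh hn
  exact ⟨T x, fun hh => hx fun _ => hh (h.m hx1), h.l x hx1⟩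

theorem Diffeo.lintegral_comp (h : Diffeo O O' T T') (F : E → ℝ≥0∞) :
    ∫⁻ x in O, ENNReal.ofReal |(fderiv ℝ T x).det| * F (T x) = ∫⁻ y in O', F y := by
  rw [← tcomp_image h]
  exact (lintegral_image_eq_lintegral_abs_det_fderiv_mul volume h.o.measurableSet
    (fun x hx => (tcomp_hasFDerivAt h hx).hasFDerivWithinAt) (tcomp_injOn h) F).symm

theorem Diffeo.integral_comp (h : Diffeo O O' T T') (F : E → V) :
    ∫ x in O, |(fderiv ℝ T x).det| • F (T x) = ∫ y in O', F y := by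
  rw [← tcomp_image h]
  exact (integral_image_eq_integral_abs_det_fderiv_smul volume h.o.measurableSet
    (fun x hx => (tcomp_hasFDerivAt h hx).hasFDerivWithinAt) (tcomp_injOn h) F).symm

theorem tcomp_lint_le (h : Diffeo O O' T T') {K : Set E} (hK : IsCompact K) (hKO : K ⊆ O) :
    ∃ C : ℝ≥0∞, C ≠ ⊤ ∧ ∀ F : E → ℝ≥0∞, ∫⁻ x in K, F (T x) ≤ C * ∫⁻ y in T '' K, F y := by
  have hc : ContinuousOn (fun x => |(fderiv ℝ T x).det|⁻¹) K := by
    refine ContinuousOn.inv₀ ?_ fun x hx => abs_ne_zero.2 (h.det_ne (hKO hx))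
    exact (ContinuousLinearMap.continuous_det.comp_continuousOn
      ((tcomp_cont_fderiv h).mono hKO)).abs
  obtain ⟨C, hC⟩ := hK.exists_bound_of_continuousOn hc
  refine ⟨ENNReal.ofReal C, ENNReal.ofReal_ne_top, fun F => ?_⟩
  rw [lintegral_image_eq_lintegral_abs_det_fderiv_mul volume hK.measurableSet
    (fun x hx => (tcomp_hasFDerivAt h (hKO hx)).hasFDerivWithinAt) ((tcomp_injOn h).mono hKO) F,
    ← lintegral_const_mul' _ _ ENNReal.ofReal_ne_top]
  refine setLIntegral_mono' hK.measurableSet fun x hx => ?_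
  have hp : 0 < |(fderiv ℝ T x).det| := abs_pos.2 (h.det_ne (hKO hx))
  have h1 : |(fderiv ℝ T x).det|⁻¹ ≤ C := (le_abs_self _).trans (hC x hx)
  have hC0 : 0 ≤ C := (inv_pos.2 hp).le.trans h1
  have h2 : (1 : ℝ) ≤ C * |(fderiv ℝ T x).det| := by
    have := mul_le_mul_of_nonneg_right h1 hp.le
    rwa [inv_mul_cancel₀ hp.ne'] at this
  rw [← mul_assoc, ← ENNReal.ofReal_mul hC0]
  exact le_mul_of_one_le_left' (ENNReal.one_le_ofReal.2 h2)

omit [NormedSpace ℝ V] in
theorem tcomp_aesm (h : Diffeo O O' T T') {K : Set E} (hK : IsCompact K) (hKO : K ⊆ O)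
    {u : E → V} (hu : AEStronglyMeasurable u (volume.restrict (T '' K))) :
    AEStronglyMeasurable (fun x => u (T x)) (volume.restrict K) := by
  have hK' : IsCompact (T '' K) := hK.image_of_continuousOn (h.s.continuousOn.mono hKO)
  have hT : AEMeasurable T (volume.restrict K) :=
    (h.s.continuousOn.mono hKO).aemeasurable hK.measurableSet
  have h1 : AEStronglyMeasurable (hu.mk u ∘ T) (volume.restrict K) :=
    hu.stronglyMeasurable_mk.aestronglyMeasurable.comp_aemeasurable hT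
  refine h1.congr ?_
  have h2 : ∀ᵐ y, y ∈ T '' K → u y = hu.mk u y :=
    (ae_restrict_iff' hK'.measurableSet).1 hu.ae_eq_mk
  have h3 : ∀ᵐ y, y ∈ O' → y ∈ T '' K → u y = hu.mk u y := h2.mono fun y hy _ => hy
  have h4 := h.ae_comp h3
  filter_upwards [ae_restrict_mem hK.measurableSet, ae_restrict_of_ae h4] with x hx hx'
  exact (hx' (hKO hx) ⟨x, hx, rfl⟩).symm

theorem Diffeo.locLp_comp (h : Diffeo O O' T T') {n : ℕ} (hn : 1 ≤ n) {u : E → V}
    (hu : LocLp n O' u) : LocLp n O fun x => u (T x) := by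
  intro K hK hKO
  have hK' : IsCompact (T '' K) := hK.image_of_continuousOn (h.s.continuousOn.mono hKO)
  have hKO' : T '' K ⊆ O' := (h.m.mono_left hKO).image_subset
  have h1 := hu _ hK' hKO'
  obtain ⟨C, hC, hle⟩ := tcomp_lint_le h hK hKO
  refine memLp_of_lintegral_pow hn (tcomp_aesm h hK hKO h1.1) ?_
  refine (hle fun y => ‖u y‖ₑ ^ n).trans_lt ?_
  exact ENNReal.mul_lt_top hC.lt_top (lintegral_pow_lt_top hn h1)

theorem Diffeo.wd_comp [CompleteSpace V] (h : Diffeo O O' T T') {n : ℕ} (hn : 1 ≤ n) {u : E → V}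
    {D : E → E →L[ℝ] V} (hu : WD n O' u D) :
    WD n O (fun x => u (T x)) fun x => (D (T x)).comp (fderiv ℝ T x) := by
  have l1 := h.locLp_comp hn hu.1
  have l2' := h.locLp_comp hn hu.2.1
  have l2 : LocLp n O fun x => (D (T x)).comp (fderiv ℝ T x) := by
    refine l2'.of_le_mul (tcomp_cont_fderiv h).norm (fun K hK hKO => ?_)
      (Eventually.of_forall fun x _ => ?_)
    · have h1 := ((tcomp_cont_fderiv h).mono hKO).aestronglyMeasurable hK.measurableSet
        (μ := volume)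
      exact (ContinuousLinearMap.compL ℝ E E V).aestronglyMeasurable_comp₂ (l2' K hK hKO).1 h1
    · rw [mul_comm]
      exact ContinuousLinearMap.opNorm_comp_le _ _
  refine WD.of_tendsto hn l1 l2 fun K hK hKO => ⟨O, hKO, ?_⟩
  have hK' : IsCompact (T '' K) := hK.image_of_continuousOn (h.s.continuousOn.mono hKO)
  have hKO' : T '' K ⊆ O' := (h.m.mono_left hKO).image_subset
  obtain ⟨v, hv, -, t1, t2⟩ := hu.approx hn h.o' hK' hKO'
  obtain ⟨C, hC, hle⟩ := tcomp_lint_le h hK hKO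
  obtain ⟨M, hM⟩ := hK.exists_bound_of_continuousOn ((tcomp_cont_fderiv h).mono hKO)
  refine ⟨fun k x => v k (T x), fun k => fderiv ℝ fun x => v k (T x), fun k => ?_, ?_, ?_⟩
  · refine WD.of_contDiffOn hn h.o ?_
    exact ((hv k).of_le (by simp)).comp_contDiffOn (h.s.of_le (by simp))
  · have t3 := ENNReal.Tendsto.const_mul (a := C) t1 (Or.inr hC)
    rw [mul_zero] at t3
    refine tendsto_of_tendsto_of_tendsto_of_le_of_le tendsto_const_nhds t3 (fun k => zero_le)
      fun k => hle fun y => ‖v k y - u y‖ₑ ^ n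
  · have hM' : ENNReal.ofReal M ^ n ≠ ⊤ := ENNReal.pow_ne_top ENNReal.ofReal_ne_top
    have t3 := ENNReal.Tendsto.const_mul (a := ENNReal.ofReal M ^ n * C) t2
      (Or.inr (ENNReal.mul_ne_top hM' hC))
    rw [mul_zero] at t3
    refine tendsto_of_tendsto_of_tendsto_of_le_of_le tendsto_const_nhds t3 (fun k => zero_le)
      fun k => ?_
    calc ∫⁻ x in K, ‖fderiv ℝ (fun x => v k (T x)) x - (D (T x)).comp (fderiv ℝ T x)‖ₑ ^ n
        ≤ ∫⁻ x in K, ENNReal.ofReal M ^ n * ‖fderiv ℝ (v k) (T x) - D (T x)‖ₑ ^ n := by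
          refine setLIntegral_mono' hK.measurableSet fun x hx => ?_
          have h1 : fderiv ℝ (fun x => v k (T x)) x
              = (fderiv ℝ (v k) (T x)).comp (fderiv ℝ T x) :=
            ((((hv k).differentiable (by simp)) (T x)).hasFDerivAt.comp x
              (tcomp_hasFDerivAt h (hKO hx))).fderiv
          rw [h1, ← ContinuousLinearMap.sub_comp, ← mul_pow]
          refine pow_le_pow_left' ?_ n
          rw [← ofReal_norm, ← ofReal_norm,
            ← ENNReal.ofReal_mul ((norm_nonneg _).trans (hM x hx))]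
          refine ENNReal.ofReal_le_ofReal ((ContinuousLinearMap.opNorm_comp_le _ _).trans ?_)
          rw [mul_comm]
          exact mul_le_mul_of_nonneg_right (hM x hx) (norm_nonneg _)
      _ = ENNReal.ofReal M ^ n * ∫⁻ x in K, ‖fderiv ℝ (v k) (T x) - D (T x)‖ₑ ^ n :=
          lintegral_const_mul' _ _ hM'
      _ ≤ ENNReal.ofReal M ^ n * (C * ∫⁻ y in T '' K, ‖fderiv ℝ (v k) y - D y‖ₑ ^ n) :=
          mul_le_mul_right (hle fun y => ‖fderiv ℝ (v k) y - D y‖ₑ ^ n) _
      _ = _ := (mul_assoc _ _ _).symm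

end Pool.Agent.PW
end
end

-- part Pool.Agent.P.MP_65ad7c_ag.ABurn
section

open MeasureTheory Set Filter Topology Metric Matrix
open scoped ComplexOrder ContDiff Matrix.Norms.Frobenius RealInnerProductSpace ENNReal
open Pool.Agent.Lib.Sob

noncomputable section
namespace Pool.Agent.PW

variable {Γ : Type} [Group Γ] {r m : ℕ}

/-- an irreducible representation is quantitatively irreducible -/
theorem Irr.burn {ρ : Γ →* Mat r} (h : Irr ρ) :
    ∃ (m : ℕ) (γs : Fin m → Γ) (β : ℝ), Burn γs β ρ := by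
  have hfg : (Submodule.span ℂ (range ρ)).FG := by
    rw [show Submodule.span ℂ (range ρ) = ⊤ from h]
    exact Module.Finite.fg_top
  obtain ⟨s, hs, hspan⟩ := (Submodule.fg_span_iff_fg_span_finset_subset _).1 hfg
  have hch : ∀ l : Fin s.card, ∃ γ, ρ γ = (s.equivFin.symm l : Mat r) := fun l =>
    hs (s.equivFin.symm l).2
  choose γs hγ using hch
  have htop : ⊤ ≤ Submodule.span ℂ (range fun l => ρ (γs l)) := by
    rw [← show Submodule.span ℂ (range ρ) = ⊤ from h, hspan]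
    refine Submodule.span_mono fun X hX => ⟨s.equivFin ⟨X, hX⟩, ?_⟩
    simp only [hγ, Equiv.symm_apply_apply]
  have hsurj : LinearMap.range (Fintype.linearCombination ℂ fun l => ρ (γs l)) = ⊤ := by
    rw [Fintype.range_linearCombination]
    exact top_le_iff.1 htop
  obtain ⟨S, hS⟩ := LinearMap.exists_rightInverse_of_surjective _ hsurj
  refine ⟨s.card, γs, ‖LinearMap.toContinuousLinearMap S‖, fun X =>
    ⟨S X, (LinearMap.toContinuousLinearMap S).le_opNorm X, ?_⟩⟩
  have h1 := LinearMap.congr_fun hS X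
  rw [LinearMap.comp_apply, Fintype.linearCombination_apply] at h1
  exact h1.symm

theorem rep_mul_inv (ρ : Γ →* Mat r) (γ : Γ) : ρ γ * ρ γ⁻¹ = 1 := by
  rw [← map_mul, mul_inv_cancel, map_one]

theorem rep_inv_mul (ρ : Γ →* Mat r) (γ : Γ) : ρ γ⁻¹ * ρ γ = 1 := by
  rw [← map_mul, inv_mul_cancel, map_one]

theorem aburn_nf_sum (P Q : Mat r) (X : Fin m → Mat r) :
    nf P Q (∑ l, X l) (∑ l, X l) = ∑ l, ∑ k, nf P Q (X l) (X k) := by
  simp only [nf, conjTranspose_sum, Finset.sum_mul, Finset.mul_sum, trace_sum, Complex.re_sum]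
  exact Finset.sum_comm

theorem aburn_nf_smul (P Q X : Mat r) (c : ℂ) :
    nf P Q (c • X) (c • X) = ‖c‖ ^ 2 * nf P Q X X := by
  simp only [nf, conjTranspose_smul, Matrix.smul_mul, Matrix.mul_smul, trace_smul, smul_eq_mul]
  rw [← mul_assoc, Complex.star_def, Complex.conj_mul', ← Complex.ofReal_pow,
    Complex.re_ofReal_mul]

theorem aburn_nf_single {Q : Mat r} (hQ : Q.PosDef) (i j : Fin r) :
    nf Q Q (single i j 1) (single i j 1) = (Q i i).re * (Q⁻¹ j j).re := by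
  have h1 : (Q i i).im = 0 := (Complex.nonneg_iff.1 (hQ.posSemidef.diag_nonneg (i := i))).2.symm
  rw [nf, conjTranspose_single, star_one, single_mul_mul_single, trace_single_mul]
  simp [h1, mul_comm]

theorem aburn_norm_single (i j : Fin r) : ‖(single i j 1 : Mat r)‖ = 1 := by
  rw [Matrix.frobenius_norm_def, Finset.sum_eq_single i, Finset.sum_eq_single j]
  · simp
  · intro b _ hb
    simp [hb.symm]
  · simp
  · intro b _ hb
    simp [hb.symm]
  · simp

theorem aburn_nf_rep {Q u u' : Mat r} (hQ : Q.PosDef) (hu : u * u' = 1) :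
    nf Q Q u u ≤ sg (gm Q u) Q := by
  have h1 := trace_mul_nonneg (gm_posDef hQ hu).inv.posSemidef hQ.posSemidef
  have h2 : nf Q Q u u = (Q⁻¹ * gm Q u).trace.re := by
    rw [nf, gm, Matrix.mul_assoc, Matrix.mul_assoc, trace_mul_comm]
    simp only [Matrix.mul_assoc]
  rw [h2, sg]
  linarith

/-- an almost invariant metric of an irreducible representation has bounded condition number -/
theorem burn_cond {γs : Fin m → Γ} {β L : ℝ} {ρ : Γ →* Mat r} (hb : Burn γs β ρ) {Q : Mat r}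
    (hQ : Q.PosDef) (hL0 : 0 ≤ L) (hL : ∀ l, sg (gm Q (ρ (γs l))) Q ≤ L) :
    Q.trace.re * Q⁻¹.trace.re ≤ r ^ 2 * m ^ 2 * β ^ 2 * L := by
  have key : ∀ i j, (Q i i).re * (Q⁻¹ j j).re ≤ m ^ 2 * β ^ 2 * L := by
    intro i j
    obtain ⟨x, hx, hX⟩ := hb (single i j 1)
    rw [aburn_norm_single, mul_one] at hx
    have h1 : ∀ l, nf Q Q (x l • ρ (γs l)) (x l • ρ (γs l)) ≤ β ^ 2 * L := fun l => by
      rw [aburn_nf_smul]
      exact mul_le_mul (pow_le_pow_left₀ (norm_nonneg _) ((norm_le_pi_norm x l).trans hx) 2)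
        ((aburn_nf_rep hQ (rep_mul_inv ρ _)).trans (hL l)) (nf_nonneg hQ hQ _) (sq_nonneg _)
    have h0 : 0 ≤ β ^ 2 * L := mul_nonneg (sq_nonneg _) hL0
    have h2 : ∀ l k, nf Q Q (x l • ρ (γs l)) (x k • ρ (γs k)) ≤ β ^ 2 * L := fun l k => by
      refine (abs_le_of_sq_le_sq' ((nf_sq_le hQ hQ _ _).trans ?_) h0).2
      rw [sq (β ^ 2 * L)]
      exact mul_le_mul (h1 l) (h1 k) (nf_nonneg hQ hQ _) h0
    rw [← aburn_nf_single hQ, hX, aburn_nf_sum]
    refine (Finset.sum_le_sum fun l _ => Finset.sum_le_sum fun k _ => h2 l k).trans (le_of_eq ?_)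
    simp only [Finset.sum_const, Finset.card_univ, Fintype.card_fin, nsmul_eq_mul]
    ring
  rw [trace, trace, Complex.re_sum, Complex.re_sum, Finset.sum_mul_sum]
  refine (Finset.sum_le_sum fun i _ => Finset.sum_le_sum fun j _ => key i j).trans (le_of_eq ?_)
  simp only [Finset.sum_const, Finset.card_univ, Fintype.card_fin, nsmul_eq_mul]
  ring

end Pool.Agent.PW
end
end

-- part Pool.Agent.P.MP_65ad7c_ag.BExt
section

open MeasureTheory Set Filter Topology Metric Matrix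
open scoped ComplexOrder ContDiff Matrix.Norms.Frobenius RealInnerProductSpace ENNReal
open Pool.Agent.Lib.Sob

noncomputable section
namespace Pool.Agent.PW

variable {E : Type} [NormedAddCommGroup E] [InnerProductSpace ℝ E] [FiniteDimensional ℝ E]
  [MeasurableSpace E] [BorelSpace E] {r : ℕ} {U : Set E} {Γ : Type} [Group Γ]
  {V : Type} [NormedAddCommGroup V] [NormedSpace ℝ V]

theorem Pre.c_symm (A : Pre E Γ) {a b : A.ι} {x : E} (hx : x ∈ A.O a b) :
    A.c b a (A.T a b x) = (A.c a b x)⁻¹ := by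
  have h := (A.cocycle a b a x hx (A.T_mem a b x hx)).2.2
  rw [A.c_self a x (A.O_sub a b hx)] at h
  exact eq_inv_of_mul_eq_one_right h.symm

theorem Pre.ov_open (A : Pre E Γ) (hU : IsOpen U) (a b : A.ι) : IsOpen (A.ov U a b) := by
  have h := ((A.T_smooth a b).continuousOn.isOpen_inter_preimage (A.O_open a b) hU).inter hU
  convert h using 1
  ext x
  exact ⟨fun h => ⟨⟨h.1, h.2.2⟩, h.2.1⟩, fun h => ⟨h.1.1, h.2, h.1.2⟩⟩

theorem Pre.ov_six (A : Pre E Γ) (a b : A.ι) : A.ov (ball 0 6) a b = A.O a b := by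
  ext x
  exact ⟨fun h => h.1, fun h => ⟨h, A.O_sub a b h, A.O_sub b a (A.T_mem a b x h)⟩⟩

theorem Pre.diffeo (A : Pre E Γ) (hU : IsOpen U) (a b : A.ι) :
    Diffeo (A.ov U a b) (A.ov U b a) (A.T a b) (A.T b a) := by
  have hm : ∀ a b, MapsTo (A.T a b) (A.ov U a b) (A.ov U b a) := fun a b x hx =>
    ⟨A.T_mem a b x hx.1, hx.2.2, by rw [A.T_inv a b x hx.1]; exact hx.2.1⟩
  exact ⟨A.ov_open hU a b, A.ov_open hU b a, hm a b, hm b a, fun x hx => A.T_inv a b x hx.1,
    fun x hx => A.T_inv b a x hx.1, (A.T_smooth a b).mono fun _ hx => hx.1,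
    (A.T_smooth b a).mono fun _ hx => hx.1⟩

theorem Pre.MC.mono {A : Pre E Γ} {U' : Set E} {ρ : Γ →* Mat r} {h : A.ι → E → Mat r}
    (hm : A.MC U ρ h) (hU : U' ⊆ U) : A.MC U' ρ h :=
  fun a b x hx => hm a b x ⟨hx.1, hU hx.2.1, hU hx.2.2⟩

theorem bext_trans {A : Pre E Γ} {a b d : A.ι} {γ γ' : Γ} (h : A.Chain a b γ)
    (h' : A.Chain b d γ') : A.Chain a d (γ * γ') := by
  induction h with
  | nil a => rwa [one_mul]
  | cons a b e x γ hx _ ih =>
    rw [mul_assoc]
    exact Pre.Chain.cons a b d x _ hx (ih h')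

theorem Pre.Chain.symm {A : Pre E Γ} {a b : A.ι} {γ : Γ} (h : A.Chain a b γ) :
    A.Chain b a γ⁻¹ := by
  induction h with
  | nil a => rw [inv_one]; exact Pre.Chain.nil a
  | cons a b d x γ hx _ ih =>
    have h1 : A.T a b x ∈ A.ov (ball 0 1) b a := (A.diffeo isOpen_ball a b).m hx
    have h2 := bext_trans ih (Pre.Chain.cons b a a _ 1 h1 (Pre.Chain.nil a))
    rwa [mul_one, A.c_symm hx.1, ← _root_.mul_inv_rev] at h2

theorem Pre.Chain.trans {A : Pre E Γ} {a b d : A.ι} {γ γ' : Γ} (h : A.Chain a b γ)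
    (h' : A.Chain b d γ') : A.Chain a d (γ * γ') := by
  exact bext_trans h h'

/-- the set where a compactly supported function of the chart `a` is seen in the chart `b` is
relatively closed -/
theorem Pre.isOpen_off (A : Pre E Γ) (a b : A.ι) {K : Set E} (hK : IsCompact K)
    (hK6 : K ⊆ ball 0 6) : IsOpen {x | x ∈ ball (0 : E) 6 ∧ ¬(x ∈ A.O b a ∧ A.T b a x ∈ K)} := by
  refine isOpen_iff_mem_nhds.2 fun x hx => ?_
  have h6 : ∀ᶠ y in 𝓝 x, y ∈ ball (0 : E) 6 := isOpen_ball.mem_nhds hx.1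
  by_cases hO : x ∈ A.O b a
  · have hc : ContinuousAt (A.T b a) x :=
      (A.T_smooth b a).continuousOn.continuousAt ((A.O_open b a).mem_nhds hO)
    have h1 : ∀ᶠ y in 𝓝 x, A.T b a y ∈ Kᶜ :=
      hc.eventually (hK.isClosed.isOpen_compl.mem_nhds fun h => hx.2 ⟨hO, h⟩)
    filter_upwards [h6, h1] with y hy hy' using ⟨hy, fun h => hy' h.2⟩
  · filter_upwards [h6, A.sep b a K hK hK6 x hx.1 hO] with y hy hy' using
      ⟨hy, fun h => hy' h.1 h.2⟩

theorem Pre.ext_smooth (A : Pre E Γ) {ψ : E → ℝ} (hψ : IsTest (ball 0 6) ψ) (a b : A.ι)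
    (F : Γ → V) : ContDiffOn ℝ ∞ (fun x => A.ext ψ a b x • F (A.c b a x)) (ball 0 6) := by
  intro x hx
  refine ContDiffAt.contDiffWithinAt ?_
  by_cases hO : x ∈ A.O b a
  · have hn := (A.O_open b a).mem_nhds hO
    have h1 : ContDiffAt ℝ ∞ (fun y => ψ (A.T b a y) • F (A.c b a x)) x :=
      (hψ.1.contDiffAt.comp x ((A.T_smooth b a).contDiffAt hn)).smul contDiffAt_const
    refine h1.congr_of_eventuallyEq ?_
    filter_upwards [hn, A.c_loc b a x hO] with y hy hy'
    rw [hy', Pre.ext, if_pos hy]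
  · have hn := (A.isOpen_off a b hψ.2.1 hψ.2.2).mem_nhds ⟨hx, fun h => hO h.1⟩
    refine (contDiffAt_const (c := (0 : V))).congr_of_eventuallyEq ?_
    filter_upwards [hn] with y hy
    have h0 : A.ext ψ a b y = 0 := by
      unfold Pre.ext
      split_ifs with h
      · exact image_eq_zero_of_notMem_tsupport fun h' => hy.2 ⟨h, h'⟩
      · rfl
    rw [h0, zero_smul]

theorem Pre.ext_smooth' (A : Pre E Γ) {ψ : E → ℝ} (hψ : IsTest (ball 0 6) ψ) (a b : A.ι) :
    ContDiffOn ℝ ∞ (A.ext ψ a b) (ball 0 6) := by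
  simpa using A.ext_smooth hψ a b fun _ => (1 : ℝ)

/-- `ext` is compatible with the transitions -/
theorem Pre.ext_comp (A : Pre E Γ) (ψ : E → ℝ) (a : A.ι) {b d : A.ι} {x : E} (hx : x ∈ A.O b d) :
    A.ext ψ a d (A.T b d x) = A.ext ψ a b x := by
  unfold Pre.ext
  by_cases h : A.T b d x ∈ A.O d a
  · have h1 := A.cocycle b d a x hx h
    rw [if_pos h, if_pos h1.1, h1.2.1]
  · have h1 : x ∉ A.O b a := fun h' =>
      h (A.cocycle d b a _ (A.T_mem b d x hx) (by rwa [A.T_inv b d x hx])).1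
    rw [if_neg h, if_neg h1]

theorem Pre.Pou.mono {A : Pre E Γ} {U' : Set E} {χ : A.ι → E → ℝ} (h : A.Pou U χ) (hU : U ⊆ U') :
    A.Pou U' χ := ⟨fun a => ⟨(h.1 a).1.mono hU, (h.1 a).2⟩, h.2⟩

theorem Pre.exists_pou (A : Pre E Γ) {R R' : ℝ} (h1 : 1 ≤ R) (h2 : R < R') (h3 : R' < 6) :
    ∃ χ, A.Pou (closedBall 0 R') χ ∧ ∀ a, ∀ x ∈ closedBall (0 : E) R, 0 < χ a x := by
  obtain ⟨β, hβ, hβ1, hβ0⟩ := exists_cutoff (isCompact_closedBall (0 : E) R)
    (isOpen_ball (x := (0 : E)) (ε := R')) (closedBall_subset_ball h2)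
  have hβ6 : IsTest (ball 0 6) β := hβ.mono (ball_subset_ball h3.le)
  have hone : ∀ x ∈ closedBall (0 : E) R, β x = 1 := fun x hx => hβ1.self_of_nhdsSet x hx
  have he : ∀ a b x, 0 ≤ A.ext β a b x := fun a b x => by
    unfold Pre.ext
    split_ifs
    exacts [(hβ0 _).1, le_rfl]
  let s : A.ι → E → ℝ := fun b x => ∑ a, A.ext β a b x
  have hs0 : ∀ b x, 0 ≤ s b x := fun b x => Finset.sum_nonneg fun a _ => he a b x
  have hs : ∀ b, ∀ x ∈ ball (0 : E) 6, 0 < s b x := fun b x hx => by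
    obtain ⟨a, ha, hT⟩ := A.cover b x hx
    refine Finset.sum_pos' (fun a _ => he a b x) ⟨a, Finset.mem_univ _, ?_⟩
    rw [Pre.ext, if_pos ha,
      hone _ (ball_subset_closedBall.trans (closedBall_subset_closedBall h1) hT)]
    exact one_pos
  have hsm : ∀ b, ContDiffOn ℝ ∞ (s b) (ball 0 6) := fun b =>
    ContDiffOn.sum fun a _ => A.ext_smooth' hβ6 a b
  have hts : ∀ a, tsupport (fun x => β x / s a x) ⊆ tsupport β := fun a => by
    simp only [div_eq_mul_inv]
    exact tsupport_mul_subset_left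
  refine ⟨fun a x => β x / s a x, ⟨fun a => ⟨⟨?_, ?_, ?_⟩, fun x => div_nonneg (hβ0 x).1 (hs0 a x)⟩,
    fun b x hx => ?_⟩, fun a x hx => ?_⟩
  · refine contDiff_iff_contDiffAt.2 fun x => ?_
    by_cases hx : x ∈ ball (0 : E) 6
    · exact hβ.1.contDiffAt.div ((hsm a).contDiffAt (isOpen_ball.mem_nhds hx)) (hs a x hx).ne'
    · refine (contDiffAt_const (c := (0 : ℝ))).congr_of_eventuallyEq ?_
      exact notMem_tsupport_iff_eventuallyEq.1 fun h => hx (hβ6.2.2 (hts a h))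
  · exact hβ.2.1.of_isClosed_subset (isClosed_tsupport _) (hts a)
  · exact (hts a).trans (hβ.2.2.trans ball_subset_closedBall)
  · have e : ∀ a, A.ext (fun x => β x / s a x) a b x = A.ext β a b x / s b x := fun a => by
      by_cases h : x ∈ A.O b a
      · have e1 : s a (A.T b a x) = s b x := Finset.sum_congr rfl fun d _ => A.ext_comp β d h
        rw [Pre.ext, Pre.ext, if_pos h, if_pos h, e1]
      · rw [Pre.ext, Pre.ext, if_neg h, if_neg h, zero_div]
    simp only [e]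
    rw [← Finset.sum_div]
    exact div_self (hs b x hx).ne'
  · exact div_pos (by rw [hone x hx]; exact one_pos)
      (hs a x (closedBall_subset_ball (h2.trans h3) hx))

end Pool.Agent.PW
end
end

-- part Pool.Agent.P.MP_65ad7c_ag.BDc
section

open MeasureTheory Set Filter Topology Metric Matrix
open scoped ComplexOrder ContDiff Matrix.Norms.Frobenius RealInnerProductSpace ENNReal
open Pool.Agent.Lib.Sob

noncomputable section
namespace Pool.Agent.PW

variable {E : Type} [NormedAddCommGroup E] [InnerProductSpace ℝ E] [FiniteDimensional ℝ E]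
  [MeasurableSpace E] [BorelSpace E] {r : ℕ} {U : Set E} {Γ : Type} [Group Γ]
  {V : Type} [NormedAddCommGroup V] [NormedSpace ℝ V]

/-- `X ↦ gm X τ` as a real linear map -/
def bdc_gmL (τ : Mat r) : Mat r →L[ℝ] Mat r :=
  ((ContinuousLinearMap.mul ℝ (Mat r)).flip τ).comp (ContinuousLinearMap.mul ℝ (Mat r) τᴴ)

@[simp] theorem bdc_gmL_apply (τ X : Mat r) : bdc_gmL τ X = gm X τ := rfl

/-- compatibility of weak derivatives -/
theorem Pre.dcompat (A : Pre E Γ) (hU : IsOpen U) {ρ : Γ →* Mat r} {h : A.ι → E → Mat r}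
    {D : A.ι → E → E →L[ℝ] Mat r} (hw : ∀ a, WD 2 U (h a) (D a)) (hm : A.MC U ρ h) (a b : A.ι) :
    ∀ᵐ x, x ∈ A.ov U a b → ∀ v, D b (A.T a b x) (fderiv ℝ (A.T a b) x v) =
      gm (D a x v) (ρ (A.c a b x)) := by
  have hd := A.diffeo hU a b
  have hO : IsOpen (A.ov U a b) := A.ov_open hU a b
  have w1 := hd.wd_comp (n := 2) (by norm_num) ((hw b).mono fun y hy => hy.2.1)
  have w2 : WD 2 (A.ov U a b) (fun x => h b (A.T a b x))
      fun x => (bdc_gmL (ρ (A.c a b x))).comp (D a x) := by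
    refine WD.of_local (by norm_num) fun x hx => ?_
    obtain ⟨O1, hO1, hO1o, hxO1⟩ := _root_.eventually_nhds_iff.1 (A.c_loc a b x hx.1)
    refine ⟨O1 ∩ A.ov U a b, hO1o.inter hO, ⟨hxO1, hx⟩, ?_⟩
    have w3 := ((hw a).mono (U' := O1 ∩ A.ov U a b) fun y hy => hy.2.2.1).clm (by norm_num)
      (bdc_gmL (ρ (A.c a b x)))
    refine w3.congr' (fun y hy => ?_) fun y hy => ?_
    · rw [hm a b y hy.2, hO1 y hy.1]
      rfl
    · rw [hO1 y hy.1]
  filter_upwards [WD.unique (by norm_num) hO w1 w2] with x hx hx' v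
  exact congrArg (fun L : E →L[ℝ] Mat r => L v) (hx hx')

theorem Pre.mc_compat (A : Pre E Γ) (hU : IsOpen U) {ρ : Γ →* Mat r} {h : A.ι → E → Mat r}
    {D : A.ι → E → E →L[ℝ] Mat r} (hw : ∀ a, WD 2 U (h a) (D a)) (hm : A.MC U ρ h)
    (hp : ∀ a, ∀ x ∈ U, (h a x).PosDef) (a b : A.ι) :
    ∀ᵐ x, x ∈ A.ov U a b → ∀ v, mc (h a x) (D a x) v = ρ (A.c a b x) *
      mc (h b (A.T a b x)) (D b (A.T a b x)) (fderiv ℝ (A.T a b) x v) * ρ (A.c a b x)⁻¹ := by
  filter_upwards [A.dcompat hU hw hm a b] with x hx hx' v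
  have h1 := rep_mul_inv ρ (A.c a b x)
  have h2 : (ρ (A.c a b x)⁻¹)ᴴ * (ρ (A.c a b x))ᴴ = 1 := by
    rw [← conjTranspose_mul, h1, conjTranspose_one]
  simp only [mc, lmul_apply]
  rw [hx hx' v, hm a b x hx', gm_inv (hp a x hx'.2.1) h1, gm]
  set τ := ρ (A.c a b x)
  set τ' := ρ (A.c a b x)⁻¹
  calc (h a x)⁻¹ * D a x v
      = (τ * τ') * (h a x)⁻¹ * (τ'ᴴ * τᴴ) * D a x v * (τ * τ') := by
        rw [h1, h2, Matrix.one_mul, Matrix.mul_one, Matrix.mul_one]
    _ = _ := by simp only [Matrix.mul_assoc]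

omit [MeasurableSpace E] [BorelSpace E] in
theorem bdc_contr (B : E →ₗ[ℝ] E →ₗ[ℝ] V) (S R : E →L[ℝ] E) :
    ∑ p, B (S (ob E p)) (R (ob E p)) = ∑ q, B (ob E q) (R (S.adjoint (ob E q))) := by
  have h1 : ∀ p, B (S (ob E p)) (R (ob E p))
      = ∑ q, ⟪ob E q, S (ob E p)⟫ • B (ob E q) (R (ob E p)) := fun p => by
    conv_lhs => rw [← (ob E).sum_repr' (S (ob E p))]
    simp only [map_sum, map_smul, LinearMap.sum_apply, LinearMap.smul_apply]
  have h2 : ∀ q, B (ob E q) (R (S.adjoint (ob E q)))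
      = ∑ p, ⟪ob E q, S (ob E p)⟫ • B (ob E q) (R (ob E p)) := fun q => by
    conv_lhs => rw [← (ob E).sum_repr' (S.adjoint (ob E q))]
    simp only [map_sum, map_smul]
    refine Finset.sum_congr rfl fun p _ => ?_
    rw [ContinuousLinearMap.adjoint_inner_right, real_inner_comm]
  simp only [h1, h2]
  exact Finset.sum_comm

/-- invariance of the contraction of a bilinear map -/
theorem Atlas.contr_inv (A : Atlas E Γ) {a b : A.ι} {x : E} (hx : x ∈ A.O a b)
    (B : E →ₗ[ℝ] E →ₗ[ℝ] V) :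
    ∑ p, B (fderiv ℝ (A.T a b) x (ob E p)) (fderiv ℝ (A.T a b) x (A.α a x (ob E p))) =
      A.jac a b x • ∑ p, B (ob E p) (A.α b (A.T a b x) (ob E p)) := by
  have h1 := bdc_contr B (fderiv ℝ (A.T a b) x) ((fderiv ℝ (A.T a b) x).comp (A.α a x))
  simp only [ContinuousLinearMap.comp_apply] at h1
  rw [h1, Finset.smul_sum]
  refine Finset.sum_congr rfl fun p _ => ?_
  rw [← map_smul]
  congr 1
  refine ext_inner_left ℝ fun v => ?_
  rw [← ContinuousLinearMap.adjoint_inner_left, A.α_inv a b x hx, real_inner_smul_right]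

theorem Atlas.pair_inv (A : Atlas E Γ) {a b : A.ι} {x : E} (hx : x ∈ A.O a b)
    {X Y X' Y' : E →L[ℝ] Mat r} {τ τ' : Mat r} (hτ : τ' * τ = 1)
    (hX : ∀ v, X v = τ * X' (fderiv ℝ (A.T a b) x v) * τ')
    (hY : ∀ v, Y v = τ * Y' (fderiv ℝ (A.T a b) x v) * τ') :
    pair (A.α a x) X Y = A.jac a b x * pair (A.α b (A.T a b x)) X' Y' := by
  let B : E →ₗ[ℝ] E →ₗ[ℝ] ℝ := LinearMap.mk₂ ℝ (fun v w => (X' v * Y' w).trace.re)
    (fun v v' w => by simp [Matrix.add_mul])
    (fun c v w => by simp)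
    (fun v w w' => by simp [Matrix.mul_add])
    (fun c v w => by simp)
  have h1 := A.contr_inv hx B
  simp only [B, LinearMap.mk₂_apply, smul_eq_mul] at h1
  unfold pair
  rw [← h1]
  refine Finset.sum_congr rfl fun p _ => ?_
  rw [hX, hY]
  congr 1
  set P := X' (fderiv ℝ (A.T a b) x (ob E p))
  set Q := Y' (fderiv ℝ (A.T a b) x (A.α a x (ob E p)))
  calc (τ * P * τ' * (τ * Q * τ')).trace = (τ * (P * (τ' * τ) * Q * τ')).trace := by
        simp only [Matrix.mul_assoc]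
    _ = (P * (τ' * τ) * Q * τ' * τ).trace := Matrix.trace_mul_comm _ _
    _ = (P * (τ' * τ) * Q * (τ' * τ)).trace := by simp only [Matrix.mul_assoc]
    _ = (P * Q).trace := by rw [hτ, Matrix.mul_one, Matrix.mul_one]

theorem Atlas.en_inv (A : Atlas E Γ) (hU : IsOpen U) {ρ : Γ →* Mat r} {h : A.ι → E → Mat r}
    {D : A.ι → E → E →L[ℝ] Mat r} (hw : ∀ a, WD 2 U (h a) (D a)) (hm : A.MC U ρ h)
    (hp : ∀ a, ∀ x ∈ U, (h a x).PosDef) (a b : A.ι) :
    ∀ᵐ x, x ∈ A.ov U a b → en (A.α a x) (h a x) (D a x) =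
      A.jac a b x * en (A.α b (A.T a b x)) (h b (A.T a b x)) (D b (A.T a b x)) := by
  filter_upwards [A.mc_compat hU hw hm hp a b] with x hx hx'
  exact A.pair_inv hx'.1 (rep_inv_mul ρ _) (hx hx') (hx hx')

end Pool.Agent.PW
end
end

-- part Pool.Agent.P.MP_65ad7c_ag.TLip
section

open MeasureTheory Set Filter Topology Metric Matrix
open scoped ComplexOrder ContDiff Matrix.Norms.Frobenius RealInnerProductSpace ENNReal
open Pool.Agent.Lib.Sob

noncomputable section
namespace Pool.Agent.PW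

variable {E : Type} [NormedAddCommGroup E] [InnerProductSpace ℝ E] [FiniteDimensional ℝ E]
  [MeasurableSpace E] [BorelSpace E] {r : ℕ} {U : Set E}
  {V W : Type} [NormedAddCommGroup V] [NormedSpace ℝ V] [NormedAddCommGroup W] [NormedSpace ℝ W]

theorem tlip_int (k : ℕ) {g : E → V} {L : ℝ}
    (h : ∀ᵐ t : E, ‖t‖ < 1 / ((k : ℝ) + 1) → ‖g t‖ ≤ L) :
    ‖∫ t, (bump E k).normed volume t • g t‖ ≤ L := by
  have h1 : ∫ t, (bump E k).normed volume t * L = L := by
    rw [integral_mul_const, (bump E k).integral_normed, one_mul]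
  rw [← h1]
  refine norm_integral_le_of_norm_le ((bump E k).integrable_normed.mul_const L) ?_
  filter_upwards [h] with t ht
  by_cases h0 : (bump E k).normed volume t = 0
  · simp [h0]
  · have h' : t ∈ Function.support ((bump E k).normed volume) := h0
    rw [(bump E k).support_normed_eq, mem_ball, dist_zero_right] at h'
    rw [norm_smul, Real.norm_of_nonneg ((bump E k).nonneg_normed t)]
    exact mul_le_mul_of_nonneg_left (ht h') ((bump E k).nonneg_normed t)

theorem tlip_moll_le (k : ℕ) {g : E → V} {L : ℝ} {x : E}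
    (h : ∀ᵐ t : E, t ∈ ball x (1 / ((k : ℝ) + 1)) → ‖g t‖ ≤ L) : ‖moll k g x‖ ≤ L := by
  unfold moll
  rw [convolution_lsmul]
  refine tlip_int k ?_
  filter_upwards [(Measure.measurePreserving_sub_left volume x).quasiMeasurePreserving.ae h]
    with t ht h1
  exact ht (by simpa [mem_ball, dist_eq_norm] using h1)

theorem tlip_small {δ : ℝ} (hδ : 0 < δ) : ∀ᶠ k : ℕ in atTop, 1 / ((k : ℝ) + 1) < δ :=
  tendsto_one_div_add_atTop_nhds_zero_nat.eventually (gt_mem_nhds hδ)

theorem lipschitz_of_wd [CompleteSpace V] {n : ℕ} (hn : 1 ≤ n) (hU : IsOpen U) (hc : Convex ℝ U)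
    {u : E → V} {D : E → E →L[ℝ] V} (h : WD n U u D) (hu : ContinuousOn u U) {L : ℝ}
    (hL : ∀ᵐ x, x ∈ U → ‖D x‖ ≤ L) : ∀ x ∈ U, ∀ y ∈ U, ‖u x - u y‖ ≤ L * ‖x - y‖ := by
  intro x hx y hy
  have hK : IsCompact (segment ℝ x y) := by
    rw [segment_eq_image]
    exact isCompact_Icc.image (by fun_prop)
  obtain ⟨u', D', K', O, hg, -, -, -, hK'U, hO, hKO, hOK, -, -, e1, e2, hcu⟩ :=
    h.exists_global hn hU hK (hc.segment_subset hx hy)
  obtain ⟨δ, hδ, hth⟩ := hK.exists_thickening_subset_open hO hKO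
  have lu := hg.1.locallyIntegrable hn
  have t := ((tendsto_moll_of_continuous (hcu hu) x).sub
    (tendsto_moll_of_continuous (hcu hu) y)).norm
  rw [e1 x (hKO (left_mem_segment ℝ x y)), e1 y (hKO (right_mem_segment ℝ x y))] at t
  refine le_of_tendsto t ?_
  filter_upwards [tlip_small hδ] with k hk
  refine (convex_segment x y).norm_image_sub_le_of_norm_fderiv_le (𝕜 := ℝ)
    (fun z _ => (contDiff_moll k lu).differentiable (by simp) z) (fun z hz => ?_)
    (right_mem_segment ℝ x y) (left_mem_segment ℝ x y)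
  rw [hg.fderiv_moll hn]
  refine tlip_moll_le k ?_
  filter_upwards [hL] with t ht h1
  have h2 : t ∈ O := hth (mem_thickening_iff.2 ⟨z, hz, (mem_ball.1 h1).trans hk⟩)
  rw [e2 t h2]
  exact ht (hK'U (hOK h2))

theorem wd_norm_le [CompleteSpace V] {n : ℕ} (hn : 1 ≤ n) (hU : IsOpen U)
    {u : E → V} {D : E → E →L[ℝ] V} (h : WD n U u D) {L : ℝ} (hL0 : 0 ≤ L)
    (hL : ∀ x ∈ U, ∀ y ∈ U, ‖u x - u y‖ ≤ L * ‖x - y‖) : ∀ᵐ x, x ∈ U → ‖D x‖ ≤ L := by
  have key : ∀ x ∈ U, ∃ O, IsOpen O ∧ x ∈ O ∧ ∀ᵐ z, z ∈ O → ‖D z‖ ≤ L := by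
    intro x hx
    obtain ⟨u', D', K', O, hg, -, -, -, hK'U, hO, hKO, hOK, -, -, e1, e2, -⟩ :=
      h.exists_global hn hU isCompact_singleton (singleton_subset_iff.2 hx)
    refine ⟨O, hO, hKO rfl, ?_⟩
    have lu := hg.1.locallyIntegrable hn
    filter_upwards [ae_tendsto_moll (hg.2.1.locallyIntegrable hn)] with z hz hzO
    rw [← e2 z hzO]
    obtain ⟨ε, hε, hb⟩ := Metric.isOpen_iff.1 hO z hzO
    refine le_of_tendsto hz.norm ?_
    filter_upwards [tlip_small (half_pos hε)] with k hk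
    rw [← hg.fderiv_moll hn]
    refine norm_fderiv_le_of_lip' ℝ hL0 ?_
    filter_upwards [ball_mem_nhds z (half_pos hε)] with a ha
    have ex := (bump E k).hasCompactSupport_normed.convolutionExists_left
      (ContinuousLinearMap.lsmul ℝ ℝ) (μ := volume) ((bump E k).continuous_normed (μ := volume)) lu
    have i1 : Integrable fun t => (bump E k).normed volume t • u' (a - t) := ex a
    have i2 : Integrable fun t => (bump E k).normed volume t • u' (z - t) := ex z
    unfold moll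
    rw [convolution_lsmul, convolution_lsmul, ← integral_sub i1 i2]
    simp only [← smul_sub]
    refine tlip_int k (Eventually.of_forall fun t ht => ?_)
    have m : ∀ b ∈ ball z (ε / 2), b - t ∈ O := fun b hb' => hb (by
      rw [mem_ball, dist_eq_norm] at hb' ⊢
      have : b - t - z = (b - z) - t := by abel
      rw [this]
      linarith [norm_sub_le (b - z) t])
    have m1 := m a ha
    have m2 := m z (mem_ball_self (half_pos hε))
    rw [e1 _ m1, e1 _ m2]
    simpa using hL _ (hK'U (hOK m1)) _ (hK'U (hOK m2))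
  rw [ae_iff]
  refine measure_null_of_locally_null _ fun x hx => ?_
  simp only [mem_ofPred_eq, Classical.not_imp] at hx
  obtain ⟨O, hO, hxO, hae⟩ := key x hx.1
  refine ⟨_, inter_mem_nhdsWithin _ (hO.mem_nhds hxO), measure_mono_null ?_ (ae_iff.1 hae)⟩
  intro z hz h1
  exact hz.1 fun _ => h1 hz.2

/-- a continuous function with zero weak derivative is locally constant -/
theorem locConst_of_wd [CompleteSpace V] {n : ℕ} (hn : 1 ≤ n) (hU : IsOpen U)
    {u : E → V} {D : E → E →L[ℝ] V} (h : WD n U u D) (hu : ContinuousOn u U)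
    (h0 : ∀ᵐ x, x ∈ U → D x = 0) : ∀ x ∈ U, ∀ᶠ y in 𝓝 x, u y = u x := by
  intro x hx
  obtain ⟨ε, hε, hb⟩ := Metric.isOpen_iff.1 hU x hx
  have := lipschitz_of_wd hn isOpen_ball (convex_ball x ε) (h.mono hb) (hu.mono hb) (L := 0)
    (by filter_upwards [h0] with y hy h1 using by rw [hy (hb h1), norm_zero])
  filter_upwards [ball_mem_nhds x hε] with y hy
  have h1 := this y hy x (mem_ball_self hε)
  rwa [zero_mul, norm_le_zero_iff, sub_eq_zero] at h1

/-- two continuous functions that agree a.e. on an open set agree -/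
theorem eqOn_of_ae (hU : IsOpen U) {u v : E → V} (hu : ContinuousOn u U) (hv : ContinuousOn v U)
    (h : ∀ᵐ x, x ∈ U → u x = v x) : ∀ x ∈ U, u x = v x :=
  Measure.eqOn_open_of_ae_eq (μ := volume) ((ae_restrict_iff' hU.measurableSet).2 h) hU hu hv

end Pool.Agent.PW
end
end

-- part Pool.Agent.P.MP_65ad7c_ag.FUniq
section

open MeasureTheory Set Filter Topology Metric Matrix
open scoped ComplexOrder ContDiff Matrix.Norms.Frobenius RealInnerProductSpace ENNReal
open Pool.Agent.Lib.Sob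

noncomputable section
namespace Pool.Agent.PW

variable {E : Type} [NormedAddCommGroup E] [InnerProductSpace ℝ E] [FiniteDimensional ℝ E]
  [MeasurableSpace E] [BorelSpace E] {r : ℕ} {U : Set E}

variable {B B' : E → E →L[ℝ] Mat r} {g g' : E → Mat r}

theorem Frame.mono {U' : Set E} (h : Frame U B g) (hU : U' ⊆ U) : Frame U' B g :=
  ⟨h.cont.mono hU, fun x hx => h.unit x (hU hx), h.wd.mono hU⟩

theorem Frame.congr (h : Frame U B g) (hB : ∀ᵐ x, x ∈ U → B x = B' x) : Frame U B' g :=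
  ⟨h.cont, h.unit, h.wd.congr (Eventually.of_forall fun _ _ => rfl)
    (hB.mono fun x hx hU => by rw [hx hU])⟩

theorem Frame.mul_const (h : Frame U B g) {κ : Mat r} (hκ : IsUnit κ.det) :
    Frame U B fun x => g x * κ := by
  refine ⟨h.cont.mul continuousOn_const, fun x hx => by
    rw [det_mul]; exact (h.unit x hx).mul hκ, ?_⟩
  refine (h.wd.clm (by norm_num) ((ContinuousLinearMap.mul ℝ (Mat r)).flip κ)).congr'
    (fun _ _ => rfl) fun x _ => ?_
  ext1 v
  simp [Matrix.mul_assoc]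

omit [InnerProductSpace ℝ E] [FiniteDimensional ℝ E] [MeasurableSpace E] [BorelSpace E] in
theorem funiq_cont (hc : ContinuousOn g U) (hu : ∀ x ∈ U, IsUnit (g x).det) :
    ContinuousOn (fun x => (g x)⁻¹) U := fun x hx => by
  have h1 : ContinuousAt Ring.inverse (g x).det := by
    obtain ⟨u, hu⟩ := hu x hx
    rw [← hu]
    exact NormedRing.inverse_continuousAt u
  exact (continuousAt_matrix_inv (g x) h1).comp_continuousWithinAt (hc x hx)

omit [InnerProductSpace ℝ E] [FiniteDimensional ℝ E] [MeasurableSpace E] [BorelSpace E] in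
theorem funiq_bd (hc : ContinuousOn g U) (hu : ∀ x ∈ U, IsUnit (g x).det) (K : Set E)
    (hK : IsCompact K) (hKU : K ⊆ U) :
    ∃ C : ℝ, ∀ x ∈ K, IsUnit (g x).det ∧ ‖g x‖ ≤ C ∧ ‖(g x)⁻¹‖ ≤ C := by
  obtain ⟨C, hC⟩ := hK.exists_bound_of_continuousOn (hc.mono hKU)
  obtain ⟨C', hC'⟩ := hK.exists_bound_of_continuousOn ((funiq_cont hc hu).mono hKU)
  exact ⟨max C C', fun x hx => ⟨hu x (hKU hx), (hC x hx).trans (le_max_left _ _),
    (hC' x hx).trans (le_max_right _ _)⟩⟩

theorem Frame.wd_inv (hU : IsOpen U) (h : Frame U B g) :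
    ContinuousOn (fun x => (g x)⁻¹) U ∧ WD 2 U (fun x => (g x)⁻¹) fun x => lmul (g x)⁻¹ (B x) := by
  refine ⟨funiq_cont h.cont h.unit, (PW.wd_inv hU h.wd (funiq_bd h.cont h.unit)).congr'
    (fun _ _ => rfl) fun x hx => ?_⟩
  ext1 v
  simp [Matrix.mul_assoc, Matrix.mul_nonsing_inv _ (h.unit x hx)]

theorem funiq_wd (hU : IsOpen U) (h : Frame U B g) (h' : Frame U B g') :
    ContinuousOn (fun y => (g y)⁻¹ * g' y) U ∧
      WD 2 U (fun y => (g y)⁻¹ * g' y) fun _ => (0 : E →L[ℝ] Mat r) := by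
  obtain ⟨c, w⟩ := h.wd_inv hU
  refine ⟨c.mul h'.cont, (wd_mul hU w h'.wd (LB.of_continuousOn c)
    (LB.of_continuousOn h'.cont)).congr' (fun _ _ => rfl) fun x _ => ?_⟩
  ext1 v
  simp [Matrix.mul_assoc]

/-- two frames differ by a locally constant matrix -/
theorem Frame.locConst (hU : IsOpen U) (h : Frame U B g) (h' : Frame U B g') :
    ∀ x ∈ U, ∀ᶠ y in 𝓝 x, (g y)⁻¹ * g' y = (g x)⁻¹ * g' x :=
  locConst_of_wd (by norm_num) hU (funiq_wd hU h h').2 (funiq_wd hU h h').1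
    (Eventually.of_forall fun _ _ => rfl)

theorem Frame.eq_ball {R : ℝ} (h : Frame (ball 0 R) B g) (h' : Frame (ball 0 R) B g') :
    ∀ x ∈ ball (0 : E) R, g' x = g x * ((g 0)⁻¹ * g' 0) := by
  intro x hx
  obtain ⟨c, w⟩ := funiq_wd isOpen_ball h h'
  have h1 := lipschitz_of_wd (by norm_num) isOpen_ball (convex_ball 0 R) w c (L := 0)
    (Eventually.of_forall fun _ _ => by simp) x hx 0 (mem_ball_self (pos_of_mem_ball hx))
  rw [zero_mul, norm_le_zero_iff, sub_eq_zero] at h1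
  rw [← h1, ← Matrix.mul_assoc, Matrix.mul_nonsing_inv _ (h.unit x hx), Matrix.one_mul]

theorem frame_one : Frame U (fun _ => 0) fun _ => (1 : Mat r) := by
  refine ⟨continuousOn_const, fun _ _ => by simp, (WD.const (by norm_num) _).congr'
    (fun _ _ => rfl) fun x _ => ?_⟩
  ext1 v
  simp

theorem frame_inv (hU : IsOpen U) {h : E → Mat r} {D : E → E →L[ℝ] Mat r} (hw : WD 2 U h D)
    (hc : ContinuousOn h U) (hb : LBd U h) :
    Frame U (fun x => mc (h x) (D x)) fun x => (h x)⁻¹ := by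
  have hu : ∀ x ∈ U, IsUnit (h x).det := fun x hx =>
    (Matrix.isUnit_iff_isUnit_det _).1 (hb.posDef x hx).isUnit
  refine ⟨funiq_cont hc hu, fun x hx => Matrix.isUnit_nonsing_inv_det _ (hu x hx),
    (wd_inv hU hw (funiq_bd hc hu)).congr' (fun _ _ => rfl) fun x _ => ?_⟩
  ext1 v
  simp [mc, Matrix.mul_assoc]

/-- a frame seen in another chart and another constant gauge -/
theorem Frame.comp {O O' : Set E} {T T' : E → E} (hT : Diffeo O O' T T') (h : Frame O' B' g)
    {τ τ' : Mat r} (hτ : τ' * τ = 1)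
    (hB : ∀ᵐ x, x ∈ O → ∀ v, B x v = τ * B' (T x) (fderiv ℝ T x v) * τ') :
    Frame O B fun x => τ * g (T x) := by
  have hu : IsUnit τ.det := Matrix.isUnit_det_of_left_inverse hτ
  refine ⟨continuousOn_const.mul (h.cont.comp hT.s.continuousOn hT.m), fun x hx => by
    rw [det_mul]; exact hu.mul (h.unit _ (hT.m hx)), ?_⟩
  refine ((hT.wd_comp (by norm_num) h.wd).clm (by norm_num)
    (ContinuousLinearMap.mul ℝ (Mat r) τ)).congr (Eventually.of_forall fun _ _ => rfl) ?_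
  filter_upwards [hB] with x hx hO
  ext1 v
  have e : τ' * (τ * g (T x)) = g (T x) := by rw [← Matrix.mul_assoc, hτ, Matrix.one_mul]
  simp [hx hO v, Matrix.mul_assoc, e]

end Pool.Agent.PW
end
end

-- part Pool.Agent.P.MP_65ad7c_ag.FTrans
section

open MeasureTheory Set Filter Topology Metric Matrix
open scoped ComplexOrder ContDiff Matrix.Norms.Frobenius RealInnerProductSpace ENNReal
open Pool.Agent.Lib.Sob

noncomputable section
namespace Pool.Agent.PW

variable {n r : ℕ} {Γ : Type} [Group Γ]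

theorem ftrans_restrict {O O' W : Set (EC n)} {T T' : EC n → EC n} (h : Diffeo O O' T T')
    (hW : IsOpen W) : Diffeo (O ∩ W) (O' ∩ T' ⁻¹' W) T T' where
  o := h.o.inter hW
  o' := h.s'.continuousOn.isOpen_inter_preimage h.o' hW
  m := fun x hx => ⟨h.m hx.1, by rw [mem_preimage, h.l x hx.1]; exact hx.2⟩
  m' := fun y hy => ⟨h.m' hy.1, hy.2⟩
  l := fun x hx => h.l x hx.1
  r := fun y hy => h.r y hy.1
  s := h.s.mono inter_subset_left
  s' := h.s'.mono inter_subset_left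

theorem ftrans_hol (A : KAtlas n Γ) {a b : A.ι} {y : EC n} (hy : y ∈ A.O a b) (v : EC n) :
    fderiv ℝ (A.T a b) y (Complex.I • v) = Complex.I • fderiv ℝ (A.T a b) y v := by
  have hd : DifferentiableAt ℂ (A.T a b) y :=
    (A.hol a b).differentiableAt ((A.O_open a b).mem_nhds hy)
  rw [hd.fderiv_restrictScalars ℝ]
  exact (fderiv ℂ (A.T a b) y).map_smul Complex.I v

/-- the transition matrices of two families of frames are locally constant -/
theorem KAtlas.trans_locConst (A : KAtlas n Γ) {U : Set (EC n)} (hU : IsOpen U) {C : ℝ}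
    (hC : 1 ≤ C) {ρ : Γ →* Mat r} {h : A.ι → EC n → Mat r} {D : A.ι → EC n → EC n →L[ℝ] Mat r}
    (hp : A.PH U ρ C h D) {p q : ℂ} {g : A.ι → EC n → Mat r}
    (hg : ∀ a, Frame U (rotA p q (h a) (D a)) (g a)) (a b : A.ι) :
    ∀ x ∈ A.ov U a b, ∀ᶠ y in 𝓝 x, (g a y)⁻¹ * ρ (A.c a b y) * g b (A.T a b y) =
      (g a x)⁻¹ * ρ (A.c a b x) * g b (A.T a b x) := by
  intro x hx
  obtain ⟨W, hWc, hWo, hxW⟩ := _root_.eventually_nhds_iff.mp (A.c_loc a b x hx.1)
  have hT := ftrans_restrict (A.diffeo hU a b) hWo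
  have hm := A.mc_compat hU (fun a => (hp.loc a).wd) hp.mc
    (fun a y hy => ((hp.loc a).bd y hy).posDef (by linarith)) a b
  have h1 : Frame (A.ov U a b ∩ W) (rotA p q (h a) (D a))
      fun y => ρ (A.c a b x) * g b (A.T a b y) := by
    refine Frame.comp hT ((hg b).mono fun y hy => hy.1.2.1) (rep_inv_mul ρ (A.c a b x)) ?_
    filter_upwards [hm] with y hy hy' v
    have e1 := hy hy'.1 v
    have e2 := hy hy'.1 (Complex.I • v)
    rw [hWc y hy'.2] at e1 e2
    rw [ftrans_hol A hy'.1.1] at e2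
    simp only [rotA, rotB, ContinuousLinearMap.add_apply, ContinuousLinearMap.smul_apply,
      ContinuousLinearMap.comp_apply, IL_apply]
    rw [e1, e2, Matrix.mul_add, Matrix.add_mul, Matrix.mul_smul, Matrix.mul_smul, Matrix.smul_mul,
      Matrix.smul_mul]
  have h2 := Frame.locConst hT.o ((hg a).mono fun y hy => hy.1.2.1) h1 x ⟨hx, hxW⟩
  filter_upwards [h2, hWo.mem_nhds hxW] with y hy hyW
  rw [hWc y hyW, Matrix.mul_assoc, Matrix.mul_assoc]
  exact hy

theorem ftrans_sq (t : Mat r) : ‖t‖ ^ 2 = (tᴴ * t).trace.re := by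
  have h0 : (0 : ℝ) ≤ ∑ i, ∑ j, ‖t i j‖ ^ (2 : ℝ) :=
    Finset.sum_nonneg fun _ _ => Finset.sum_nonneg fun _ _ => by positivity
  rw [Matrix.frobenius_norm_def, ← Real.rpow_natCast, ← Real.rpow_mul h0]
  norm_num
  rw [Finset.sum_comm]
  simp only [trace, diag, mul_apply, conjTranspose_apply, Complex.re_sum]
  refine Finset.sum_congr rfl fun j _ => Finset.sum_congr rfl fun i _ => ?_
  rw [Complex.star_def, ← Complex.normSq_eq_conj_mul_self, Complex.ofReal_re,
    Complex.normSq_eq_norm_sq]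

theorem ftrans_norm {C : ℝ} (hC : 1 ≤ C) {P t : Mat r} (hP : Bd C P) (hQ : Bd C (gm P t)) :
    ‖t‖ ≤ r * C := by
  have h1 := ((Obst.gm hP t).1.add hQ.2).trace_nonneg
  have e : gm P t - C⁻¹ • gm 1 t + (C • (1 : Mat r) - gm P t) = C • (1 : Mat r) - C⁻¹ • (tᴴ * t) := by
    rw [show gm (1 : Mat r) t = tᴴ * t by simp [gm]]
    abel
  rw [e] at h1
  have h2 := (Complex.le_def.mp h1).1
  have h3 : (C • (1 : Mat r) - C⁻¹ • (tᴴ * t)).trace.re = C * r - C⁻¹ * ‖t‖ ^ 2 := by
    rw [ftrans_sq]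
    simp [trace_sub, trace_smul]
  rw [h3, Complex.zero_re] at h2
  have hC0 : 0 < C := by linarith
  have h4 : ‖t‖ ^ 2 ≤ C * (C * r) := by
    rw [← inv_mul_le_iff₀ hC0]; linarith
  have h5 : (r : ℝ) ≤ (r : ℝ) ^ 2 := by exact_mod_cast Nat.le_self_pow two_ne_zero r
  refine le_of_sq_le_sq (le_trans h4 ?_) (by positivity)
  nlinarith [mul_le_mul_of_nonneg_left h5 (mul_pos hC0 hC0).le]

/-- the links of a representation with a bounded metric are bounded -/
theorem KAtlas.PH.norm_link {A : KAtlas n Γ} {U : Set (EC n)} {C : ℝ} (hC : 1 ≤ C)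
    {ρ : Γ →* Mat r} {h : A.ι → EC n → Mat r} {D : A.ι → EC n → EC n →L[ℝ] Mat r}
    (hp : A.PH U ρ C h D) {a b : A.ι} {x : EC n} (hx : x ∈ A.ov U a b) :
    ‖ρ (A.c a b x)‖ ≤ r * C ∧ ‖ρ (A.c a b x)⁻¹‖ ≤ r * C := by
  have key : ∀ a b x, x ∈ A.ov U a b → ‖ρ (A.c a b x)‖ ≤ r * C := fun a b x hx =>
    ftrans_norm hC ((hp.loc a).bd x hx.2.1) (hp.mc a b x hx ▸ (hp.loc b).bd _ hx.2.2)
  refine ⟨key a b x hx, ?_⟩
  rw [← A.c_symm hx.1]
  refine key b a _ ⟨A.T_mem a b x hx.1, hx.2.2, ?_⟩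
  rw [A.T_inv a b x hx.1]
  exact hx.2.1

end Pool.Agent.PW
end
end

-- part Pool.Agent.P.MP_65ad7c_ag.FLift
section

open MeasureTheory Set Filter Topology Metric Matrix
open scoped ComplexOrder ContDiff Matrix.Norms.Frobenius RealInnerProductSpace ENNReal
open Pool.Agent.Lib.Sob

noncomputable section
namespace Pool.Agent.PW

variable {E : Type} [NormedAddCommGroup E] [InnerProductSpace ℝ E] [FiniteDimensional ℝ E]
  {Γ : Type} [Group Γ]

theorem flift_tri (A : Pre E Γ) {a b e : A.ι} {x : E} (hb : x ∈ A.O a b) (he : x ∈ A.O a e) :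
    A.T a b x ∈ A.O b e ∧ A.T b e (A.T a b x) = A.T a e x ∧
      A.c a e x = A.c a b x * A.c b e (A.T a b x) := by
  have h1 := A.T_mem a b x hb
  have h2 := A.T_inv a b x hb
  have h3 := A.cocycle b a e _ h1 (by rw [h2]; exact he)
  have h4 := A.cocycle a b e x hb h3.1
  exact ⟨h3.1, h4.2.1.symm, h4.2.2⟩

/-- the lifting property on larger balls -/
theorem Atlas.lift_ball (A : Atlas E Γ) {R : ℝ} (h2 : 2 ≤ R) (h6 : R ≤ 6) (G : Type) [Group G]
    (τ : A.ι → A.ι → E → G)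
    (hl : ∀ a b, ∀ x ∈ A.ov (ball 0 R) a b, ∀ᶠ y in 𝓝 x, τ a b y = τ a b x)
    (hc : ∀ a b d, ∀ x ∈ A.ov (ball 0 R) a b, A.T a b x ∈ A.ov (ball 0 R) b d →
      τ a d x = τ a b x * τ b d (A.T a b x)) :
    ∃ (ρ : Γ →* G) (u : A.ι → G), u A.a0 = 1 ∧
      ∀ a b, ∀ x ∈ A.ov (ball 0 R) a b, τ a b x = (u a)⁻¹ * ρ (A.c a b x) * u b := by
  have s12 : ball (0 : E) 1 ⊆ ball 0 2 := ball_subset_ball (by norm_num)
  have s2R : ball (0 : E) 2 ⊆ ball 0 R := ball_subset_ball h2
  have sR6 : ball (0 : E) R ⊆ ball 0 6 := ball_subset_ball h6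
  have mono : ∀ {a b : A.ι} {x : E}, x ∈ A.ov (ball 0 2) a b → x ∈ A.ov (ball 0 R) a b :=
    fun hx => ⟨hx.1, s2R hx.2.1, s2R hx.2.2⟩
  obtain ⟨ρ, u, hu, hρ⟩ := A.lift G τ (fun a b x hx => hl a b x (mono hx))
    (fun a b d x hx hx' => hc a b d x (mono hx) (mono hx'))
  have hcov : ∀ a, ∀ x : E, ∃ e, x ∈ ball (0 : E) 6 → x ∈ A.O a e ∧ A.T a e x ∈ ball (0 : E) 1 := by
    intro a x
    by_cases hx : x ∈ ball (0 : E) 6
    · obtain ⟨e, he⟩ := A.cover a x hx
      exact ⟨e, fun _ => he⟩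
    · exact ⟨a, fun h => absurd h hx⟩
  choose e he using hcov
  let F : A.ι → A.ι → E → G := fun a d x => u a * τ a d x * (u d)⁻¹ * (ρ (A.c a d x))⁻¹
  have indep : ∀ a, ∀ x ∈ ball (0 : E) R, ∀ d d', x ∈ A.O a d → A.T a d x ∈ ball (0 : E) 1 →
      x ∈ A.O a d' → A.T a d' x ∈ ball (0 : E) 1 → F a d' x = F a d x := by
    intro a x hx d d' h1 h2 h3 h4
    obtain ⟨t1, t2, t3⟩ := flift_tri A.toPre h1 h3
    have hz : A.T a d x ∈ A.ov (ball 0 2) d d' := ⟨t1, s12 h2, by rw [t2]; exact s12 h4⟩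
    have t4 := hc a d d' x ⟨h1, hx, s2R (s12 h2)⟩ (mono hz)
    simp only [F]
    rw [t4, hρ d d' _ hz, t3, map_mul]
    group
  have loc : ∀ a, ∀ x ∈ ball (0 : E) R, ∀ᶠ y in 𝓝 x, F a (e a y) y = F a (e a x) x := by
    intro a x hx
    obtain ⟨h1, h2⟩ := he a x (sR6 hx)
    have o1 := (A.O_open a (e a x)).mem_nhds h1
    have o2 : ∀ᶠ y in 𝓝 x, A.T a (e a x) y ∈ ball (0 : E) 1 :=
      ((A.T_smooth a (e a x)).continuousOn.continuousAt o1).eventually (isOpen_ball.mem_nhds h2)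
    filter_upwards [o1, o2, isOpen_ball.mem_nhds hx, hl a (e a x) x ⟨h1, hx, s2R (s12 h2)⟩,
      A.c_loc a (e a x) x h1] with y y1 y2 y3 y4 y5
    obtain ⟨h3, h4⟩ := he a y (sR6 y3)
    rw [indep a y y3 (e a x) (e a y) y1 y2 h3 h4]
    simp only [F]
    rw [y4, y5]
  have key : ∀ a, ∀ x ∈ ball (0 : E) R, ∀ d, x ∈ A.O a d → A.T a d x ∈ ball (0 : E) 1 →
      τ a d x = (u a)⁻¹ * ρ (A.c a d x) * u d := by
    intro a x hx d h1 h2
    letI : TopologicalSpace G := ⊥
    haveI : DiscreteTopology G := ⟨rfl⟩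
    have h0 : (0 : E) ∈ ball (0 : E) 2 := mem_ball_self (by norm_num)
    have h3 : F a (e a x) x = F a (e a 0) 0 :=
      (convex_ball (0 : E) R).isPreconnected.constant (f := fun y => F a (e a y) y)
        (fun y hy => (continuousAt_const.congr (EventuallyEq.symm (loc a y hy))).continuousWithinAt)
        hx (s2R h0)
    obtain ⟨h4, h5⟩ := he a 0 (sR6 (s2R h0))
    obtain ⟨h6, h7⟩ := he a x (sR6 hx)
    have h8 : F a (e a 0) 0 = 1 := by
      simp only [F]
      rw [hρ a (e a 0) 0 ⟨h4, h0, s12 h5⟩]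
      group
    have h9 : F a d x = 1 := by rw [indep a x hx (e a x) d h6 h7 h1 h2, h3, h8]
    calc τ a d x = (u a)⁻¹ * F a d x * ρ (A.c a d x) * u d := by simp only [F]; group
      _ = _ := by rw [h9, mul_one]
  refine ⟨ρ, u, hu, fun a b x hx => ?_⟩
  obtain ⟨h1, h3⟩ := he a x (sR6 hx.2.1)
  obtain ⟨t1, t2, t3⟩ := flift_tri A.toPre hx.1 h1
  have h4 : A.T b (e a x) (A.T a b x) ∈ ball (0 : E) 1 := by rw [t2]; exact h3
  have t4 := hc a b (e a x) x hx ⟨t1, hx.2.2, s2R (s12 h4)⟩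
  rw [key a x hx.2.1 _ h1 h3, key b _ hx.2.2 _ t1 h4, t3, map_mul] at t4
  calc τ a b x = τ a b x * ((u b)⁻¹ * ρ (A.c b (e a x) (A.T a b x)) * u (e a x)) *
        ((u b)⁻¹ * ρ (A.c b (e a x) (A.T a b x)) * u (e a x))⁻¹ := by group
    _ = _ := by rw [← t4]; group

/-- induction along chains -/
theorem Pre.chain_mem (A : Pre E Γ) {W G : Type} [Group G] (S : Submonoid (W → G))
    (ρ : W → Γ →* G) (u : W → A.ι → G)
    (hS : ∀ a b, ∀ x ∈ A.ov (ball 0 1) a b, (fun w => (u w a)⁻¹ * ρ w (A.c a b x) * u w b) ∈ S)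
    {a b : A.ι} {γ : Γ} (h : A.Chain a b γ) : (fun w => (u w a)⁻¹ * ρ w γ * u w b) ∈ S := by
  induction h with
  | nil a =>
    have e : (fun w => (u w a)⁻¹ * ρ w 1 * u w a) = 1 := by
      funext w; simp
    rw [e]; exact S.one_mem
  | cons a b d x γ hx _ ih =>
    have e : (fun w => (u w a)⁻¹ * ρ w (A.c a b x * γ) * u w d) =
        (fun w => (u w a)⁻¹ * ρ w (A.c a b x) * u w b) * fun w => (u w b)⁻¹ * ρ w γ * u w d := by
      funext w
      simp only [Pi.mul_apply, map_mul]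
      group
    rw [e]; exact S.mul_mem (hS a b x hx) ih

theorem Atlas.rep_mem (A : Atlas E Γ) {W G : Type} [Group G] (S : Submonoid (W → G))
    (ρ : W → Γ →* G) (u : W → A.ι → G) (hu : ∀ w, u w A.a0 = 1)
    (hS : ∀ a b, ∀ x ∈ A.ov (ball 0 1) a b, (fun w => (u w a)⁻¹ * ρ w (A.c a b x) * u w b) ∈ S) :
    (∀ γ, (fun w => ρ w γ) ∈ S) ∧ ∀ a, (fun w => u w a) ∈ S ∧ (fun w => (u w a)⁻¹) ∈ S := by
  borelize E
  have h1 : ∀ γ, (fun w => ρ w γ) ∈ S := fun γ => by
    simpa only [hu, inv_one, one_mul, mul_one] using A.toPre.chain_mem S ρ u hS (A.chain γ)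
  refine ⟨h1, fun a => ?_⟩
  obtain ⟨γ, hγ⟩ := A.reach a
  have h2 := S.mul_mem (h1 γ⁻¹) (A.toPre.chain_mem S ρ u hS hγ)
  have h3 := S.mul_mem (A.toPre.chain_mem S ρ u hS hγ.symm) (h1 γ)
  have e2 : ((fun w => ρ w γ⁻¹) * fun w => (u w A.a0)⁻¹ * ρ w γ * u w a) = fun w => u w a := by
    funext w
    simp only [Pi.mul_apply, map_inv, hu]
    group
  have e3 : ((fun w => (u w a)⁻¹ * ρ w γ⁻¹ * u w A.a0) * fun w => ρ w γ) =
      fun w => (u w a)⁻¹ := by
    funext w
    simp only [Pi.mul_apply, map_inv, hu]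
    group
  rw [e2] at h2
  rw [e3] at h3
  exact ⟨h2, h3⟩

/-- a constant gauge between two representations -/
theorem Pre.chain_conj (A : Pre E Γ) {M : Type} [Monoid M] (ρ ρ' : Γ →* M) (κ : A.ι → M)
    (hκ : ∀ a b, ∀ x ∈ A.ov (ball 0 1) a b, ρ (A.c a b x) * κ b = κ a * ρ' (A.c a b x))
    {a b : A.ι} {γ : Γ} (h : A.Chain a b γ) : ρ γ * κ b = κ a * ρ' γ := by
  induction h with
  | nil a => simp
  | cons a b d x γ hx _ ih =>
    rw [map_mul, map_mul, mul_assoc, ih, ← mul_assoc, hκ a b x hx, mul_assoc]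

end Pool.Agent.PW
end
end

-- part Pool.Agent.P.MP_65ad7c_ag.FRot
section

open MeasureTheory Set Filter Topology Metric Matrix
open scoped ComplexOrder ContDiff Matrix.Norms.Frobenius RealInnerProductSpace ENNReal
open Pool.Agent.Lib.Sob

noncomputable section
namespace Pool.Agent.PW

variable {n r : ℕ} {Γ : Type} [Group Γ]

open Classical in
/-- a matrix as a unit -/
def frotUn (m : Mat r) : GL (Fin r) ℂ := if h : IsUnit m then h.unit else 1

theorem frotUn_coe {m : Mat r} (h : IsUnit m) : (frotUn m : Mat r) = m := by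
  simp [frotUn, h]

theorem frot_inv_hol {f : ℂ → Mat r} (hf : Differentiable ℂ f) (hu : ∀ w, IsUnit (f w).det) :
    Differentiable ℂ fun w => (f w)⁻¹ := by
  intro w
  simp only [Matrix.nonsing_inv_eq_ringInverse]
  obtain ⟨u, hu'⟩ := (Matrix.isUnit_iff_isUnit_det _).2 (hu w)
  have h1 : DifferentiableAt ℂ (Ring.inverse : Mat r → Mat r) (f w) := by
    rw [← hu']; exact (hasFDerivAt_ringInverse (𝕜 := ℂ) u).differentiableAt
  exact h1.comp w (hf w)

/-- the global gauge attached to a family of frames -/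
theorem frot_lift (A : KAtlas n Γ) {R C : ℝ} (h2 : 2 ≤ R) (h6 : R ≤ 6) (hC : 1 ≤ C)
    {ρ : Γ →* Mat r} {h : A.ι → EC n → Mat r} {D : A.ι → EC n → EC n →L[ℝ] Mat r}
    (hp : A.PH (ball 0 R) ρ C h D) {p q : ℂ} {g : A.ι → EC n → Mat r}
    (hg : ∀ a, Frame (ball 0 R) (rotA p q (h a) (D a)) (g a)) :
    ∃ (ρ' : Γ →* GL (Fin r) ℂ) (u : A.ι → GL (Fin r) ℂ), u A.a0 = 1 ∧
      ∀ a b, ∀ x ∈ A.ov (ball 0 R) a b, (((u a)⁻¹ * ρ' (A.c a b x) * u b : GL (Fin r) ℂ) : Mat r) =
        (g a x)⁻¹ * ρ (A.c a b x) * g b (A.T a b x) := by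
  have hun : ∀ a b, ∀ x ∈ A.ov (ball 0 R) a b,
      IsUnit ((g a x)⁻¹ * ρ (A.c a b x) * g b (A.T a b x)) := fun a b x hx =>
    (((Matrix.isUnit_iff_isUnit_det _).2
      (Matrix.isUnit_nonsing_inv_det _ ((hg a).unit x hx.2.1))).mul
      ((Group.isUnit _).map ρ)).mul ((Matrix.isUnit_iff_isUnit_det _).2 ((hg b).unit _ hx.2.2))
  obtain ⟨ρ', u, hu, hr⟩ := A.toAtlas.lift_ball h2 h6 (GL (Fin r) ℂ)
    (fun a b x => frotUn ((g a x)⁻¹ * ρ (A.c a b x) * g b (A.T a b x)))
    (fun a b x hx => by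
      filter_upwards [A.trans_locConst isOpen_ball hC hp hg a b x hx] with y hy
      rw [hy])
    (fun a b d x hx hx' => by
      obtain ⟨h1, h2, h3⟩ := A.cocycle a b d x hx.1 hx'.1
      have hd : x ∈ A.ov (ball 0 R) a d := ⟨h1, hx.2.1, h2 ▸ hx'.2.2⟩
      ext1
      rw [Units.val_mul, frotUn_coe (hun a d x hd), frotUn_coe (hun a b x hx),
        frotUn_coe (hun b d _ hx'), h2, h3, map_mul]
      simp only [Matrix.mul_assoc]
      rw [Matrix.mul_nonsing_inv_cancel_left _ _ ((hg b).unit _ hx.2.2)])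
  exact ⟨ρ', u, hu, fun a b x hx => by rw [← hr a b x hx, frotUn_coe (hun a b x hx)]⟩

/-- the rotated representations exist and depend holomorphically on the parameters -/
theorem KAtlas.exists_rot (A : KAtlas n Γ) {R C : ℝ} (h2 : 2 ≤ R) (h6 : R ≤ 6) (hC : 1 ≤ C)
    {ρ : Γ →* Mat r} {h : A.ι → EC n → Mat r} {D : A.ι → EC n → EC n →L[ℝ] Mat r}
    (hp : A.PH (ball 0 R) ρ C h D) :
    ∃ (ρ' : ℂ → ℂ → Γ →* Mat r) (g : ℂ → ℂ → A.ι → EC n → Mat r),
      (∀ p q, p ^ 2 - p + q ^ 2 = 0 →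
        A.Rot (ball 0 R) ρ h D p q (ρ' p q) (g p q) ∧ g p q A.a0 0 = 1) ∧
      (∀ p q : ℂ → ℂ, Differentiable ℂ p → Differentiable ℂ q →
        (∀ w, p w ^ 2 - p w + q w ^ 2 = 0) → ∀ γ, Differentiable ℂ fun w => ρ' (p w) (q w) γ) ∧
      ∀ (S : Submodule ℂ (Mat r)) (G : Submonoid (Mat r)), OdeInv S G →
        (∀ m ∈ G, IsUnit m.det → m⁻¹ ∈ G) → (∀ γ, ρ γ ∈ G) →
        (∀ a, ∀ᵐ x, x ∈ ball (0 : EC n) R → ∀ v, mc (h a x) (D a x) v ∈ S) →
        ∀ p q, p ^ 2 - p + q ^ 2 = 0 →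
          (∀ γ, ρ' p q γ ∈ G) ∧ ∀ a, ∀ x ∈ ball (0 : EC n) R, g p q a x ∈ G := by
  have hK : (0 : ℝ) ≤ r * C * C := by positivity
  choose gt h0 hbil hhol hfr hG using fun a =>
    exists_frames hK ((hp.loc a).bm isOpen_ball hC).1 ((hp.loc a).bm isOpen_ball hC).2
  have hF : ∀ p q : ℂ, p ^ 2 - p + q ^ 2 = 0 →
      ∀ a, Frame (ball 0 R) (rotA p q (h a) (D a)) (gt a p q) :=
    fun p q hpq a => hfr a p q ((hp.loc a).flat isOpen_ball hC hpq)
  have hex : ∀ p q : ℂ, ∃ (ρ' : Γ →* GL (Fin r) ℂ) (u : A.ι → GL (Fin r) ℂ), u A.a0 = 1 ∧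
      (p ^ 2 - p + q ^ 2 = 0 → ∀ a b, ∀ x ∈ A.ov (ball 0 R) a b,
        (((u a)⁻¹ * ρ' (A.c a b x) * u b : GL (Fin r) ℂ) : Mat r) =
          (gt a p q x)⁻¹ * ρ (A.c a b x) * gt b p q (A.T a b x)) := by
    intro p q
    by_cases hpq : p ^ 2 - p + q ^ 2 = 0
    · obtain ⟨ρ', u, hu, hr⟩ := frot_lift A h2 h6 hC hp (hF p q hpq)
      exact ⟨ρ', u, hu, fun _ => hr⟩
    · exact ⟨1, 1, rfl, fun h => absurd h hpq⟩
  choose ρ' u hu hr using hex
  have hov : ∀ a b, A.ov (ball 0 1) a b ⊆ A.ov (ball 0 R) a b := fun a b x hx =>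
    ⟨hx.1, ball_subset_ball (by linarith) hx.2.1, ball_subset_ball (by linarith) hx.2.2⟩
  refine ⟨fun p q => (Units.coeHom _).comp (ρ' p q),
    fun p q a x => gt a p q x * ((u p q a)⁻¹ : GL (Fin r) ℂ), fun p q hpq => ⟨⟨fun a => ?_,
      fun a b x hx => ?_⟩, by simp [h0, hu]⟩, fun p q hp' hq' hpq γ => ?_,
    fun S G hS hi hρ hm p q hpq => ?_⟩
  · exact (hF p q hpq a).mul_const ((Matrix.isUnit_iff_isUnit_det _).1 (Units.isUnit _))
  · have h1 := hr p q hpq a b x hx
    have h3 := (hF p q hpq a).unit x hx.2.1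
    simp only [Units.val_mul] at h1
    simp only [MonoidHom.comp_apply, Units.coeHom_apply]
    calc ρ (A.c a b x) * (gt b p q (A.T a b x) * ((u p q b)⁻¹ : GL (Fin r) ℂ))
        = gt a p q x * ((gt a p q x)⁻¹ * ρ (A.c a b x) * gt b p q (A.T a b x)) *
            ((u p q b)⁻¹ : GL (Fin r) ℂ) := by
          simp only [Matrix.mul_assoc]
          rw [Matrix.mul_nonsing_inv_cancel_left _ _ h3]
      _ = _ := by
          rw [← h1]
          simp only [Matrix.mul_assoc, Units.mul_inv, Matrix.mul_one]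
  · let S : Submonoid (ℂ → GL (Fin r) ℂ) :=
      { carrier := {f | Differentiable ℂ fun w => (f w : Mat r)}
        one_mem' := differentiable_const _
        mul_mem' := fun {f f'} hf hf' => Differentiable.mul hf hf' }
    refine (A.toAtlas.rep_mem S (fun w => ρ' (p w) (q w)) (fun w => u (p w) (q w))
      (fun w => hu _ _) fun a b x hx => ?_).1 γ
    change Differentiable ℂ fun w => _
    simp only [fun w => hr (p w) (q w) (hpq w) a b x (hov a b hx)]
    exact ((frot_inv_hol (hhol a p q hp' hq' x) fun w =>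
      (hbil a _ _ x (hov a b hx).2.1).isUnit).mul_const _).mul (hhol b p q hp' hq' _)
  · have hg : ∀ a x, gt a p q x ∈ G := fun a x => hG a S G hS
      (by filter_upwards [hm a] with y hy hy' v using ⟨hy hy' v, hy hy' _⟩) p q x
    let S' : Submonoid (Unit → GL (Fin r) ℂ) :=
      { carrier := {f | (f () : Mat r) ∈ G}
        one_mem' := G.one_mem
        mul_mem' := fun {f f'} hf hf' => G.mul_mem hf hf' }
    have h1 := A.toAtlas.rep_mem S' (fun _ => ρ' p q) (fun _ => u p q) (fun _ => hu _ _)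
      fun a b x hx => by
        change _ ∈ G
        rw [hr p q hpq a b x (hov a b hx)]
        exact G.mul_mem (G.mul_mem (hi _ (hg a x) (hbil a _ _ x (hov a b hx).2.1).isUnit) (hρ _))
          (hg b _)
    exact ⟨h1.1, fun a x _ => G.mul_mem (hg a x) (h1.2 a).2⟩

end Pool.Agent.PW
end
end

-- part Pool.Agent.P.MP_65ad7c_ag.FRot2
section

open MeasureTheory Set Filter Topology Metric Matrix
open scoped ComplexOrder ContDiff Matrix.Norms.Frobenius RealInnerProductSpace ENNReal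
open Pool.Agent.Lib.Sob

noncomputable section
namespace Pool.Agent.PW

variable {n r : ℕ} {Γ : Type} [Group Γ] {A : KAtlas n Γ} {R C : ℝ} {ρ ρ1 ρ2 : Γ →* Mat r}
  {h : A.ι → EC n → Mat r} {D : A.ι → EC n → EC n →L[ℝ] Mat r} {p q : ℂ}
  {g1 g2 : A.ι → EC n → Mat r}

theorem frot2_ov (hR : 1 ≤ R) {a b : A.ι} {x : EC n} (hx : x ∈ A.ov (ball 0 1) a b) :
    x ∈ A.ov (ball 0 R) a b := ⟨hx.1, ball_subset_ball hR hx.2.1, ball_subset_ball hR hx.2.2⟩

/-- uniqueness up to a constant conjugation -/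
theorem KAtlas.Rot.unique (hR : 1 ≤ R) (h1 : A.Rot (ball 0 R) ρ h D p q ρ1 g1)
    (h2 : A.Rot (ball 0 R) ρ h D p q ρ2 g2) (γ : Γ) :
    ρ1 γ * ((g1 A.a0 0)⁻¹ * g2 A.a0 0) = (g1 A.a0 0)⁻¹ * g2 A.a0 0 * ρ2 γ := by
  refine A.toPre.chain_conj ρ1 ρ2 (fun a => (g1 a 0)⁻¹ * g2 a 0) (fun a b x hx => ?_) (A.chain γ)
  have hx' := frot2_ov hR hx
  have e1 := h1.rel a b x hx'
  have e2 := h2.rel a b x hx'
  rw [(h1.fr a).eq_ball (h2.fr a) x hx'.2.1, (h1.fr b).eq_ball (h2.fr b) _ hx'.2.2,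
    ← Matrix.mul_assoc, e1, Matrix.mul_assoc, Matrix.mul_assoc] at e2
  have e3 := congrArg (fun M => (g1 a x)⁻¹ * M) e2
  simpa only [Matrix.nonsing_inv_mul_cancel_left _ _ ((h1.fr a).unit x hx'.2.1)] using e3

theorem KAtlas.rot_zero (A : KAtlas n Γ) (U : Set (EC n)) (ρ : Γ →* Mat r)
    (h : A.ι → EC n → Mat r) (D : A.ι → EC n → EC n →L[ℝ] Mat r) :
    A.Rot U ρ h D 0 0 ρ fun _ _ => 1 := by
  refine ⟨fun a => frame_one.congr (Eventually.of_forall fun x _ => ?_), fun a b x _ => by simp⟩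
  simp [rotA, rotB]

/-- the dual representation `γ ↦ ρ(γ⁻¹)ᴴ` -/
def dualRep (ρ : Γ →* Mat r) : Γ →* Mat r where
  toFun γ := (ρ γ⁻¹)ᴴ
  map_one' := by simp
  map_mul' a b := by simp [conjTranspose_mul]

theorem KAtlas.PH.rot_one {U : Set (EC n)} (hU : IsOpen U) (hC : 1 ≤ C) (hp : A.PH U ρ C h D) :
    A.Rot U ρ h D 1 0 (dualRep ρ) fun a x => (h a x)⁻¹ := by
  refine ⟨fun a => (frame_inv hU (hp.loc a).wd (hp.loc a).cont ((hp.loc a).lbd hC)).congr
    (Eventually.of_forall fun x _ => ?_), fun a b x hx => ?_⟩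
  · simp [rotA, rotB]
  · have e : ρ (A.c a b x) * ρ (A.c a b x)⁻¹ = 1 := by rw [← map_mul, mul_inv_cancel, map_one]
    rw [hp.mc a b x hx, gm_inv (((hp.loc a).bd x hx.2.1).posDef (by linarith)) e,
      ← Matrix.mul_assoc, ← Matrix.mul_assoc, e, Matrix.one_mul]
    rfl

theorem frot2_chain {a b : A.ι} {γ : Γ} (hc : A.Chain a b γ) :
    ∃ m : ℕ, ∀ (ρ' : Γ →* Mat r) (k : A.ι → Mat r) (L : ℝ), 0 ≤ L → (∀ a, IsUnit (k a).det) →
      (∀ a b, ∀ x ∈ A.ov (ball 0 1) a b, Bil L (k a * ρ' (A.c a b x) * (k b)⁻¹)) →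
      Bil (L ^ m) (k a * ρ' γ * (k b)⁻¹) := by
  induction hc with
  | nil a =>
    refine ⟨0, fun ρ' k L _ hk _ => ?_⟩
    rw [map_one, Matrix.mul_one, Matrix.mul_nonsing_inv _ (hk a), pow_zero]
    exact bil_one le_rfl
  | cons a b d x γ hx _ ih =>
    obtain ⟨m, hm⟩ := ih
    refine ⟨m + 1, fun ρ' k L hL hk hl => ?_⟩
    have h1 := (hl a b x hx).mul (hm ρ' k L hL hk hl) hL (pow_nonneg hL m)
    have e : k a * ρ' (A.c a b x) * (k b)⁻¹ * (k b * ρ' γ * (k d)⁻¹) =
        k a * ρ' (A.c a b x * γ) * (k d)⁻¹ := by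
      simp only [map_mul, Matrix.mul_assoc, Matrix.nonsing_inv_mul_cancel_left _ _ (hk b)]
    rwa [e, ← pow_succ'] at h1

theorem frot2_link (h1 : 1 ≤ R) (hC : 1 ≤ C) {ρ' : Γ →* Mat r} {g : A.ι → EC n → Mat r}
    (hp : A.PH (ball 0 R) ρ C h D) (hpq : p ^ 2 - p + q ^ 2 = 0)
    (hr : A.Rot (ball 0 R) ρ h D p q ρ' g) :
    (∀ a b, ∀ x ∈ A.ov (ball 0 1) a b,
      Bil (Real.exp ((2 * (r * C * C) * R + r * C) * (1 + ‖p‖ + ‖q‖)))
        (g a 0 * ρ' (A.c a b x) * (g b 0)⁻¹)) ∧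
    ∀ a, ∀ x ∈ ball (0 : EC n) R,
      Bil (Real.exp ((2 * (r * C * C) * R + r * C) * (1 + ‖p‖ + ‖q‖))) (g a x * (g a 0)⁻¹) := by
  have hK : (0 : ℝ) ≤ r * C * C := by positivity
  have hK' : (0 : ℝ) ≤ r * C := by positivity
  have hR : (0 : ℝ) ≤ R := by linarith
  have hs : 0 ≤ ‖p‖ + ‖q‖ := by positivity
  have h0 : (0 : EC n) ∈ ball (0 : EC n) R := mem_ball_self (by linarith)
  have key : ∀ a, ∀ x ∈ ball (0 : EC n) R,
      Bil (Real.exp (r * C * C * (‖p‖ + ‖q‖) * R)) (g a x * (g a 0)⁻¹) := fun a x hx => by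
    obtain ⟨b1, b2⟩ := (hp.loc a).bm isOpen_ball hC
    obtain ⟨G, G0, Gb, -, Gf, -⟩ := exists_frames hK b1 b2
    have hF : Frame (ball 0 R) (rotA p q (h a) (D a)) (G p q) :=
      Gf p q ((hp.loc a).flat isOpen_ball hC hpq)
    have e := hF.eq_ball (hr.fr a) x hx
    rw [G0, inv_one, Matrix.one_mul] at e
    rw [e, Matrix.mul_nonsing_inv_cancel_right _ _ ((hr.fr a).unit 0 h0)]
    exact Gb p q x hx
  have hP := mul_nonneg (mul_nonneg hK hs) hR
  refine ⟨fun a b x hx => ?_, fun a x hx => (key a x hx).mono (Real.exp_le_exp.2 ?_)⟩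
  · have hx' := frot2_ov h1 hx
    obtain ⟨n1, n2⟩ := hp.norm_link hC hx'
    have b1 : Bil (r * C) (ρ (A.c a b x)) := bil_of_norm (rep_inv_mul ρ _) n1 n2
    have b2 := ((key a x hx'.2.1).inv.mul b1 (Real.exp_pos _).le hK').mul (key b _ hx'.2.2)
      (by positivity) (Real.exp_pos _).le
    have e : (g a x * (g a 0)⁻¹)⁻¹ * ρ (A.c a b x) * (g b (A.T a b x) * (g b 0)⁻¹) =
        g a 0 * ρ' (A.c a b x) * (g b 0)⁻¹ := by
      rw [Matrix.mul_inv_rev, Matrix.nonsing_inv_nonsing_inv _ ((hr.fr a).unit 0 h0),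
        ← Matrix.mul_assoc, Matrix.mul_assoc _ (ρ _), hr.rel a b x hx', Matrix.mul_assoc (g a 0),
        Matrix.nonsing_inv_mul_cancel_left _ _ ((hr.fr a).unit x hx'.2.1)]
    rw [e] at b2
    refine b2.mono ?_
    have e1 : (r * C : ℝ) ≤ Real.exp (r * C) := by linarith [Real.add_one_le_exp (r * C : ℝ)]
    calc _ ≤ Real.exp (r * C * C * (‖p‖ + ‖q‖) * R) * Real.exp (r * C) *
          Real.exp (r * C * C * (‖p‖ + ‖q‖) * R) := by gcongr
      _ ≤ _ := by
        rw [← Real.exp_add, ← Real.exp_add]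
        refine Real.exp_le_exp.2 ?_
        nlinarith [mul_nonneg hK hR, mul_nonneg hK' hs]
  · nlinarith [mul_nonneg hK hR, mul_nonneg hK' hs]

/-- bounds that depend only on the atlas and on `C` -/
theorem KAtlas.rot_bound (A : KAtlas n Γ) (r : ℕ) {R C : ℝ} (h1 : 1 ≤ R) (hC : 1 ≤ C) :
    ∃ (c : Γ → ℝ) (c' : ℝ), ∀ (ρ ρ' : Γ →* Mat r) (h g : A.ι → EC n → Mat r)
      (D : A.ι → EC n → EC n →L[ℝ] Mat r) (p q : ℂ), A.PH (ball 0 R) ρ C h D →
      p ^ 2 - p + q ^ 2 = 0 → A.Rot (ball 0 R) ρ h D p q ρ' g → g A.a0 0 = 1 →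
      (∀ γ, Bil (Real.exp (c γ * (1 + ‖p‖ + ‖q‖))) (ρ' γ)) ∧
        ∀ a, ∀ x ∈ ball (0 : EC n) R, Bil (Real.exp (c' * (1 + ‖p‖ + ‖q‖))) (g a x) := by
  choose m hm using fun γ => frot2_chain (r := r) (A.chain γ)
  have hb : ∀ a, A.Chain a A.a0 1 := fun a => by
    obtain ⟨γ, hγ⟩ := A.reach a
    simpa using hγ.symm.trans (A.chain γ)
  choose m' hm' using fun a => frot2_chain (r := r) (hb a)
  set c0 : ℝ := 2 * (r * C * C) * R + r * C with hc0
  have hc : 0 ≤ c0 := by rw [hc0]; positivity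
  refine ⟨fun γ => m γ * c0, ((∑ a, m' a : ℕ) + 1) * c0, fun ρ ρ' h g D p q hp hpq hr h0 => ?_⟩
  obtain ⟨l1, l2⟩ := frot2_link h1 hC hp hpq hr
  have hu : ∀ a, IsUnit (g a 0).det := fun a => (hr.fr a).unit 0 (mem_ball_self (by linarith))
  refine ⟨fun γ => ?_, fun a x hx => ?_⟩
  · have b := hm γ ρ' (fun a => g a 0) _ (Real.exp_pos _).le hu l1
    rwa [h0, inv_one, Matrix.one_mul, Matrix.mul_one, ← Real.exp_nat_mul, ← mul_assoc] at b
  · have b := hm' a ρ' (fun a => g a 0) _ (Real.exp_pos _).le hu l1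
    rw [h0, inv_one, map_one, Matrix.mul_one, Matrix.mul_one, ← Real.exp_nat_mul] at b
    have b2 := (l2 a x hx).mul b (Real.exp_pos _).le (Real.exp_pos _).le
    rw [Matrix.nonsing_inv_mul_cancel_right _ _ (hu a), ← Real.exp_add] at b2
    refine b2.mono (Real.exp_le_exp.2 ?_)
    have e : (m' a : ℝ) ≤ (∑ a, m' a : ℕ) := by
      exact_mod_cast Finset.single_le_sum (fun i _ => Nat.zero_le (m' i)) (Finset.mem_univ a)
    have hs : 0 ≤ c0 * (1 + ‖p‖ + ‖q‖) := by positivity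
    nlinarith

end Pool.Agent.PW
end
end

-- part Pool.Agent.P.MP_65ad7c_ag.GRep
section

/-! Every character is a sum of irreducible characters, so it lies on a twistor line. -/

open Set Module

namespace Pool.Agent.PW.G

variable {Γ : Type} [Group Γ]

lemma burnside {R W : Type*} [Ring R] [Algebra ℂ R] [AddCommGroup W] [Module ℂ W] [Module R W]
    [IsScalarTower ℂ R W] [IsSimpleModule R W] [FiniteDimensional ℂ W] (f : Module.End ℂ W) :
    ∃ x : R, Algebra.lsmul ℂ ℂ W x = f := by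
  classical
  let f' : Module.End (Module.End R W) W :=
    { toFun := f
      map_add' := f.map_add
      map_smul' := fun φ w => by
        obtain ⟨c, rfl⟩ := (IsSimpleModule.algebraMap_end_bijective_of_isAlgClosed ℂ).2 φ
        simp }
  let b := Module.finBasis ℂ W
  obtain ⟨x, hx⟩ := jacobson_density f' (Finset.univ.image b)
  refine ⟨x, b.ext fun i => ?_⟩
  exact (hx (b i) (Finset.mem_image_of_mem _ (Finset.mem_univ i))).symm

lemma trace_split {V : Type*} [AddCommGroup V] [Module ℂ V] [FiniteDimensional ℂ V]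
    (U : Submodule ℂ V) (f : V →ₗ[ℂ] V) (hf : ∀ x ∈ U, f x ∈ U) :
    LinearMap.trace ℂ V f = LinearMap.trace ℂ U (f.restrict hf) +
      LinearMap.trace ℂ (V ⧸ U) (U.mapQ U f hf) := by
  obtain ⟨s, hs⟩ := U.mkQ.exists_rightInverse_of_surjective U.range_mkQ
  have hs' : ∀ y, U.mkQ (s y) = y := fun y => LinearMap.congr_fun hs y
  let p : V →ₗ[ℂ] U := (LinearMap.id - s ∘ₗ U.mkQ).codRestrict U fun x => by
    rw [← Submodule.Quotient.mk_eq_zero, ← Submodule.mkQ_apply]
    simp only [LinearMap.sub_apply, LinearMap.id_apply, LinearMap.comp_apply, map_sub, hs',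
      sub_self]
  have e : f = (f ∘ₗ U.subtype) ∘ₗ p + (f ∘ₗ s) ∘ₗ U.mkQ := by
    ext x; simp [p]
  conv_lhs => rw [e]
  rw [map_add, LinearMap.trace_comp_comm' p, LinearMap.trace_comp_comm' U.mkQ]
  congr 2
  · ext x
    have := (Submodule.Quotient.mk_eq_zero U).2 (hf x x.2)
    simp [p, this]
  · refine LinearMap.ext fun y => ?_
    conv_rhs => rw [← hs' y]
    rfl

lemma mem_charVar {r : ℕ} (ρ : Γ →* Mat r) : (fun γ => (ρ γ).trace) ∈ charVar Γ r :=
  ⟨ρ.toHomUnits, fun _ => rfl⟩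

lemma exists_mat {V : Type*} [AddCommGroup V] [Module ℂ V] [FiniteDimensional ℂ V]
    (ρ : Γ →* Module.End ℂ V) : ∃ ρ' : Γ →* Mat (finrank ℂ V),
      (∀ γ, (ρ' γ).trace = LinearMap.trace ℂ V (ρ γ)) ∧
        (Submodule.span ℂ (range ρ) = ⊤ → Irr ρ') := by
  let e := LinearMap.toMatrixAlgEquiv (Module.finBasis ℂ V)
  refine ⟨(e : Module.End ℂ V →* _).comp ρ, fun γ =>
    (LinearMap.trace_eq_matrix_trace ℂ (Module.finBasis ℂ V) (ρ γ)).symm, fun h => ?_⟩
  refine eq_top_iff.2 fun M _ => ?_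
  have := Submodule.apply_mem_span_image_of_mem_span e.toLinearMap
    (h ▸ Submodule.mem_top : e.symm M ∈ Submodule.span ℂ (range ρ))
  rw [← Set.range_comp] at this
  simpa using this

lemma add_mem_charVar {s t : ℕ} {χ ψ : Γ → ℂ} (hχ : χ ∈ charVar Γ s) (hψ : ψ ∈ charVar Γ t) :
    χ + ψ ∈ charVar Γ (s + t) := by
  obtain ⟨ρ, hρ⟩ := hχ
  obtain ⟨τ, hτ⟩ := hψ
  let m : Γ →* Module.End ℂ ((Fin s → ℂ) × (Fin t → ℂ)) :=
    { toFun := fun γ => (Matrix.toLin' (ρ γ).val).prodMap (Matrix.toLin' (τ γ).val)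
      map_one' := by simp [Module.End.one_eq_id]
      map_mul' := fun a b => by
        simp [Matrix.toLin'_mul, Module.End.mul_eq_comp, LinearMap.prodMap_comp] }
  obtain ⟨ρ', h, -⟩ := exists_mat m
  have h1 := mem_charVar ρ'
  have e : finrank ℂ ((Fin s → ℂ) × (Fin t → ℂ)) = s + t := by simp
  convert h1 using 1
  · rw [e]
  · funext γ
    rw [h, Pi.add_apply, hρ, hτ]
    simp [m, LinearMap.trace_prodMap']

lemma exp_add_le (C D x : ℝ) : Real.exp (C * Real.exp |x|) + Real.exp (D * Real.exp |x|) ≤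
    Real.exp ((|C| + |D| + 1) * Real.exp |x|) := by
  have h1 : 1 ≤ Real.exp |x| := Real.one_le_exp (abs_nonneg x)
  have hC := le_abs_self C
  have hD := le_abs_self D
  have hC0 := abs_nonneg C
  have hD0 := abs_nonneg D
  have a1 : Real.exp (C * Real.exp |x|) ≤ Real.exp ((|C| + |D|) * Real.exp |x|) := by
    gcongr; linarith
  have a2 : Real.exp (D * Real.exp |x|) ≤ Real.exp ((|C| + |D|) * Real.exp |x|) := by
    gcongr; linarith
  have a3 : 2 ≤ Real.exp (Real.exp |x|) := by linarith [Real.add_one_le_exp (Real.exp |x|)]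
  rw [add_mul _ 1, one_mul, Real.exp_add]
  nlinarith [Real.exp_pos ((|C| + |D|) * Real.exp |x|)]

lemma TWc.add {s t : ℕ} {χ ψ : Γ → ℂ} (hχ : TWc Γ s χ) (hψ : TWc Γ t ψ) :
    TWc Γ (s + t) (χ + ψ) := by
  obtain ⟨F, a1, a2, a3, a4, a5, a6⟩ := hχ
  obtain ⟨H, b1, b2, b3, b4, b5, b6⟩ := hψ
  refine ⟨F + H, fun w => add_mem_charVar (a1 w) (b1 w), fun γ => (a2 γ).add (b2 γ),
    fun w => by simp only [Pi.add_apply, a3, b3], fun γ => ?_, by simp [a5, b5],
    fun γ => by simp [a6, b6]⟩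
  obtain ⟨C, hC⟩ := a4 γ
  obtain ⟨D, hD⟩ := b4 γ
  exact ⟨_, fun w => (norm_add_le _ _).trans ((add_le_add (hC w) (hD w)).trans (exp_add_le C D _))⟩

lemma tw_trivial (r : ℕ) : TWc Γ r fun _ => r := by
  refine ⟨fun _ _ => r, fun _ => ⟨1, fun _ => by simp⟩, fun _ => differentiable_const _,
    fun _ => rfl, fun _ => ⟨r, fun w => ?_⟩, rfl, fun _ => by simp⟩
  have h1 : 1 ≤ Real.exp |w.re| := Real.one_le_exp (abs_nonneg _)
  have h2 := Real.add_one_le_exp (r * Real.exp |w.re|)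
  rw [Complex.norm_natCast]
  nlinarith [Nat.cast_nonneg (α := ℝ) r]

lemma tw_rep (htw : ∀ s : ℕ, 0 < s → ∀ ρ : Γ →* Mat s, Irr ρ → TWc Γ s fun γ => (ρ γ).trace)
    (n : ℕ) : ∀ (V : Type) [AddCommGroup V] [Module ℂ V] [FiniteDimensional ℂ V]
      (ρ : Γ →* Module.End ℂ V), finrank ℂ V = n →
        TWc Γ n fun γ => LinearMap.trace ℂ V (ρ γ) := by
  induction n using Nat.strong_induction_on with
  | _ n ih =>
  intro V _ _ _ ρ hn
  rcases Nat.eq_zero_or_pos n with rfl | hpos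
  · have : Subsingleton V := Module.finrank_zero_iff.1 hn
    convert tw_trivial (Γ := Γ) 0 using 2 with γ
    rw [Subsingleton.elim (ρ γ) 0]; simp
  by_cases h : ∃ U : Submodule ℂ V, U ≠ ⊥ ∧ U ≠ ⊤ ∧ ∀ γ, ∀ x ∈ U, ρ γ x ∈ U
  · obtain ⟨U, h0, h1, hU⟩ := h
    let ρ1 : Γ →* Module.End ℂ U :=
      { toFun := fun γ => (ρ γ).restrict (hU γ)
        map_one' := by ext x; simp
        map_mul' := fun a b => by ext x; simp }
    let ρ2 : Γ →* Module.End ℂ (V ⧸ U) :=
      { toFun := fun γ => U.mapQ U (ρ γ) (hU γ)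
        map_one' := by ext x; simp
        map_mul' := fun a b => by ext x; simp }
    have e := U.finrank_quotient_add_finrank
    have l1 : finrank ℂ U < n := hn ▸ Submodule.finrank_lt h1
    have l2 : 0 < finrank ℂ U := Nat.pos_of_ne_zero fun h => h0 (Submodule.finrank_eq_zero.1 h)
    have := TWc.add (ih _ l1 U ρ1 rfl) (ih _ (by omega) (V ⧸ U) ρ2 rfl)
    convert this using 1
    · omega
    · funext γ; exact trace_split U _ (hU γ)
  · push Not at h
    obtain ⟨ρ', h1, h2⟩ := exists_mat ρ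
    have : Nontrivial V := Module.finrank_pos_iff.1 (hn ▸ hpos)
    let R := Algebra.adjoin ℂ (range ρ)
    have : IsSimpleModule R V := by
      refine { exists_pair_ne := exists_pair_ne _, eq_bot_or_eq_top := fun U => ?_ }
      by_contra! hU
      obtain ⟨γ, x, hx, hγ⟩ := h (U.restrictScalars ℂ) (by simpa using hU.1) (by simpa using hU.2)
      exact hγ (U.smul_mem (⟨ρ γ, Algebra.subset_adjoin ⟨γ, rfl⟩⟩ : R) hx)
    have hs : Submodule.span ℂ (range ρ) = ⊤ := by
      refine eq_top_iff.2 fun f _ => ?_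
      obtain ⟨x, hx⟩ := burnside (R := R) f
      have h3 : x.1 ∈ Subalgebra.toSubmodule R := x.2
      rw [Algebra.adjoin_eq_span, ← MonoidHom.coe_mrange, Submonoid.closure_eq] at h3
      have e : f = x.1 := by rw [← hx]; rfl
      rw [e]; exact h3
    subst hn
    simpa only [h1] using htw _ hpos ρ' (h2 hs)

theorem tw_all (htw : ∀ s : ℕ, 0 < s → ∀ ρ : Γ →* Mat s, Irr ρ → TWc Γ s fun γ => (ρ γ).trace)
    {r : ℕ} {χ : Γ → ℂ} (hχ : χ ∈ charVar Γ r) : TWc Γ r χ := by
  obtain ⟨ρ, hρ⟩ := hχ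
  let m : Γ →* Module.End ℂ (Fin r → ℂ) :=
    { toFun := fun γ => Matrix.toLin' (ρ γ).val
      map_one' := by simp [Module.End.one_eq_id]
      map_mul' := fun a b => by simp [Matrix.toLin'_mul, Module.End.mul_eq_comp] }
  convert tw_rep htw r (Fin r → ℂ) m (by simp) using 2 with γ
  rw [hρ]; simp [m]

end Pool.Agent.PW.G
end

-- part Pool.Agent.P.MP_65ad7c_ag.KPath
section

/-! Induction over path classes, and the monodromy of a locally constant cocycle. -/

open Set Filter Topology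

noncomputable section
namespace Pool.Agent.PW

/-- homotopy classes of paths -/
abbrev HQ {X : Type} [TopologicalSpace X] (x y : X) := Path.Homotopic.Quotient x y

variable {X ι : Type} [TopologicalSpace X]

theorem kp_ind (V : ι → Set X) (hV : ∀ a, IsOpen (V a)) (hc : ∀ p, ∃ a, p ∈ V a) {x₀ : X}
    (Pr : ∀ p, HQ x₀ p → Prop) (h0 : Pr x₀ (.refl x₀))
    (hs : ∀ a p p' (m : HQ x₀ p) (δ : Path p p'), (∀ t, δ t ∈ V a) → Pr p m →
      Pr p' (m.trans (.mk δ))) (p : X) (m : HQ x₀ p) : Pr p m := by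
  induction m using Path.Homotopic.Quotient.ind with
  | _ γ =>
  obtain ⟨f, rfl, rfl⟩ := γ
  set γ : Path (f 0) (f 1) := ⟨f, rfl, rfl⟩ with hγ
  obtain ⟨t, t0, tm, ⟨n, hn⟩, ht⟩ := exists_monotone_Icc_subset_open_cover_unitInterval
    (c := fun a => f ⁻¹' V a) (fun a => (hV a).preimage f.continuous)
    (fun s _ => by obtain ⟨a, ha⟩ := hc (f s); exact mem_iUnion.2 ⟨a, ha⟩)
  have key : ∀ s : unitInterval, (∃ k, t k = s) → Pr (f s) (.mk (γ.subpath 0 s)) := by
    rintro s ⟨k, rfl⟩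
    induction k with
    | zero =>
      have : ∀ s : unitInterval, s = 0 → Pr (f s) (.mk (γ.subpath 0 s)) := by
        rintro s rfl
        rw [Path.subpath_self]
        exact h0
      exact this _ t0
    | succ k ih =>
      obtain ⟨a, ha⟩ := ht k
      have h1 := hs a _ _ _ (γ.subpath (t k) (t (k + 1))) (fun s => by
        have : γ.subpath (t k) (t (k + 1)) s ∈ range (γ.subpath (t k) (t (k + 1))) := ⟨s, rfl⟩
        rw [Path.range_subpath_of_le _ _ _ (tm k.le_succ)] at this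
        obtain ⟨u, hu, hu'⟩ := this
        rw [← hu']
        exact ha hu) ih
      have h2 : (Path.Homotopic.Quotient.mk (γ.subpath 0 (t k))).trans
          (.mk (γ.subpath (t k) (t (k + 1)))) = .mk (γ.subpath 0 (t (k + 1))) := by
        rw [← Path.Homotopic.Quotient.mk_trans, Path.Homotopic.Quotient.eq]
        exact ⟨Path.Homotopy.subpathTransSubpath γ _ _ _⟩
      exact h2 ▸ h1
  have := key 1 ⟨n, hn n le_rfl⟩
  rw [Path.subpath_zero_one] at this
  exact this

/-- The monodromy of a locally constant cocycle, read in the trivialisations. -/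
theorem kp_mono (V : ι → Set X) (hV : ∀ a, IsOpen (V a)) (hc : ∀ p, ∃ a, p ∈ V a) {x₀ : X}
    {a0 : ι} (h0 : x₀ ∈ V a0) {G : Type} [Group G] (τ : ι → ι → X → G)
    (hl : ∀ a b, ∀ p ∈ V a ∩ V b, ∀ᶠ q in 𝓝 p, τ a b q = τ a b p)
    (hco : ∀ a b d p, p ∈ V a → p ∈ V b → p ∈ V d → τ a d p = τ a b p * τ b d p) :
    ∃ Φ : ∀ p, HQ x₀ p → ι → G,
      (∀ p m a b, p ∈ V a → p ∈ V b → Φ p m b = Φ p m a * τ a b p) ∧
      (∀ a p p' (m : HQ x₀ p) (δ : Path p p'), (∀ t, δ t ∈ V a) →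
        Φ p' (m.trans (.mk δ)) a = Φ p m a) ∧
      (∀ p (γ : HQ x₀ x₀) (m : HQ x₀ p) a, Φ p (γ.trans m) a = Φ x₀ γ a0 * Φ p m a) ∧
      Φ x₀ (.refl x₀) a0 = 1 := by
  classical
  let _ : TopologicalSpace G := ⊥
  have : DiscreteTopology G := ⟨rfl⟩
  choose ix hix using hc
  have hself : ∀ a p, p ∈ V a → τ a a p = 1 := fun a p hp => by
    have := hco a a a p hp hp hp
    exact (left_eq_mul.1 this)
  let Z : FiberBundleCore ι X G :=
    { baseSet := V
      isOpen_baseSet := hV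
      indexAt := ix
      mem_baseSet_at := hix
      coordChange := fun a b p g => g * τ a b p
      coordChange_self := fun a p hp g => by rw [hself a p hp, mul_one]
      continuousOn_coordChange := fun a b => by
        rintro ⟨p, g⟩ ⟨hp, -⟩
        apply ContinuousAt.continuousWithinAt
        have h1 : ∀ᶠ z : X × G in 𝓝 (p, g), z.2 * τ a b z.1 = g * τ a b p := by
          have e1 : ∀ᶠ z : X × G in 𝓝 (p, g), τ a b z.1 = τ a b p :=
            (continuous_fst.tendsto (p, g)).eventually (hl a b p hp)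
          have e2 : ∀ᶠ z : X × G in 𝓝 (p, g), z.2 = g :=
            continuous_snd.continuousAt.eventually (p := fun y => y = g)
              ((isOpen_discrete {g}).mem_nhds rfl)
          filter_upwards [e1, e2] with z h1 h2
          rw [h1, h2]
        exact (continuousAt_const.congr (EventuallyEq.symm h1))
      coordChange_comp := fun a b d p hp g => by
        rw [hco a b d p hp.1.1 hp.1.2 hp.2, mul_assoc] }
  have cov : IsCoveringMap Z.proj := IsFiberBundle.isCoveringMap fun x =>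
    ⟨Z.localTriv (ix x), hix x⟩
  let sn : Z.TotalSpace → G := fun e => e.2
  let val : ι → Z.TotalSpace → G := fun a e => sn e * τ (ix e.1) a e.1
  have hloc : ∀ a p p' (δ : Path p p'), (∀ t, δ t ∈ V a) → ∀ e : Z.proj ⁻¹' {p},
      val a (cov.monodromy (.mk δ) e) = val a e := by
    intro a p p' δ hδ e
    have hp : p ∈ V a := δ.source ▸ hδ 0
    have hp' : p' ∈ V a := δ.target ▸ hδ 1
    obtain ⟨⟨q, g⟩, he⟩ := e
    obtain rfl : q = p := he
    let Γ : unitInterval → Z.TotalSpace := fun s =>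
      (Z.localTriv a).toOpenPartialHomeomorph.symm (δ s, val a ⟨q, g⟩)
    have hΓ : ∀ s, Γ s = ⟨δ s, val a ⟨q, g⟩ * τ a (ix (δ s)) (δ s)⟩ := fun s => rfl
    have hcont : Continuous Γ := by
      refine (Z.localTriv a).toOpenPartialHomeomorph.continuousOn_symm.comp_continuous
        (δ.continuous.prodMk continuous_const) fun s => ?_
      exact (Z.mem_localTriv_target a _).2 (hδ s)
    have hE : Γ = cov.liftPath δ ⟨q, g⟩ δ.source := by
      refine (cov.eq_liftPath_iff _).2 ⟨hcont, funext fun s => rfl, ?_⟩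
      rw [hΓ]
      have : ∀ y, y = q → (⟨y, val a ⟨q, g⟩ * τ a (ix y) y⟩ : Z.TotalSpace) = ⟨q, g⟩ := by
        rintro y rfl
        congr 1
        change sn ⟨y, g⟩ * τ (ix y) a y * τ a (ix y) y = sn ⟨y, g⟩
        rw [mul_assoc, ← hco _ _ _ _ (hix y) hp (hix y), hself _ _ (hix y), mul_one]
      exact this _ δ.source
    change val a (cov.liftPath δ ⟨q, g⟩ δ.source 1) = _
    rw [← hE, hΓ]
    change val a ⟨q, g⟩ * τ a (ix (δ 1)) (δ 1) * τ (ix (δ 1)) a (δ 1) = _
    rw [mul_assoc, ← hco _ _ _ _ (hδ 1) (hix _) (hδ 1), hself _ _ (hδ 1), mul_one]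
  have hrat : ∀ a {p} (e e' : Z.proj ⁻¹' {p}), val a e * (val a e')⁻¹ =
      sn e * (sn e')⁻¹ := by
    intro a p e e'
    have he : e.1.1 = p := e.2
    have he' : e'.1.1 = p := e'.2
    simp only [val, he, he']
    group
  have hinv : ∀ p (m : HQ x₀ p) (e e' : Z.proj ⁻¹' {x₀}) a,
      val a (cov.monodromy m e) * (val a (cov.monodromy m e'))⁻¹ = val a0 e * (val a0 e')⁻¹ := by
    refine kp_ind V hV (fun p => ⟨_, hix p⟩) _ ?_ ?_
    · intro e e' a
      rw [cov.monodromy_refl, hrat, hrat]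
      rfl
    · intro b p p' m δ hδ ih e e' a
      rw [cov.monodromy_trans_apply, cov.monodromy_trans_apply, hrat, ← hrat b, hloc b _ _ δ hδ,
        hloc b _ _ δ hδ, ih]
  let e0 : Z.proj ⁻¹' {x₀} := ⟨⟨x₀, τ a0 (ix x₀) x₀⟩, rfl⟩
  have he0 : val a0 e0 = 1 := by
    change τ a0 (ix x₀) x₀ * τ (ix x₀) a0 x₀ = 1
    rw [← hco _ _ _ _ h0 (hix _) h0, hself _ _ h0]
  refine ⟨fun p m a => val a (cov.monodromy m e0), ?_, ?_, ?_, ?_⟩
  · intro p m a b ha hb
    have he : (cov.monodromy m e0).1.1 = p := (cov.monodromy m e0).2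
    simp only [val, he]
    rw [mul_assoc, ← hco _ _ _ _ (hix p) ha hb]
  · intro a p p' m δ hδ
    simp only
    rw [cov.monodromy_trans_apply, hloc a _ _ δ hδ]
  · intro p γ m a
    simp only
    have := hinv p m (cov.monodromy γ e0) e0 a
    rw [he0, inv_one, mul_one, mul_inv_eq_iff_eq_mul] at this
    rw [cov.monodromy_trans_apply, this]
  · simp only
    rw [cov.monodromy_refl]
    exact he0

end Pool.Agent.PW
end
end

-- part Pool.Agent.P.MP_65ad7c_ag.KPre
section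

/-! The cocycle of a finite family of charts onto the ball of radius 6. -/

open Set Filter Topology Metric
open scoped ContDiff

noncomputable section
namespace Pool.Agent.PW

variable (E : Type) [NormedAddCommGroup E] [InnerProductSpace ℝ E]
  (X : Type) [TopologicalSpace X]

/-- charts onto the ball of radius 6 whose unit balls cover -/
structure KCh where
  ι : Type
  fin : Fintype ι
  e : ι → OpenPartialHomeomorph X E
  tgt : ∀ a, (e a).target = ball 0 6
  cover : ∀ p, ∃ a, p ∈ (e a).source ∧ e a p ∈ ball (0 : E) 1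
  smooth : ∀ a b, ContDiffOn ℝ ∞ (fun u => e b ((e a).symm u))
    {u | u ∈ ball (0 : E) 6 ∧ (e a).symm u ∈ (e b).source}

variable {E X}

namespace KCh
variable (K : KCh E X)

/-- the ball of radius `R` of a chart -/
def U (R : ℝ) (a : K.ι) : Set X := {p | p ∈ (K.e a).source ∧ K.e a p ∈ ball (0 : E) R}

theorem U_open (R : ℝ) (a : K.ι) : IsOpen (K.U R a) :=
  (K.e a).isOpen_inter_preimage isOpen_ball

theorem map_mem {a : K.ι} {p : X} (hp : p ∈ (K.e a).source) : K.e a p ∈ ball (0 : E) 6 :=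
  K.tgt a ▸ (K.e a).map_source hp

theorem symm_mem (a : K.ι) {u : E} (hu : u ∈ ball (0 : E) 6) :
    (K.e a).symm u ∈ (K.e a).source := (K.e a).map_target (by rw [K.tgt]; exact hu)

theorem right_inv (a : K.ι) {u : E} (hu : u ∈ ball (0 : E) 6) :
    K.e a ((K.e a).symm u) = u := (K.e a).right_inv (by rw [K.tgt]; exact hu)

theorem symm_cont (a : K.ι) : ContinuousOn (K.e a).symm (ball (0 : E) 6) :=
  K.tgt a ▸ (K.e a).continuousOn_symm

theorem line_mem {R : ℝ} {u v : E} (hu : u ∈ ball (0 : E) R) (hv : v ∈ ball (0 : E) R)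
    (t : unitInterval) : AffineMap.lineMap u v (t : ℝ) ∈ ball (0 : E) R :=
  (convex_ball (0 : E) R).lineMap_mem hu hv t.2

theorem exists_path {R : ℝ} (hR : R ≤ 6) {a : K.ι} {p p' : X} (hp : p ∈ K.U R a)
    (hp' : p' ∈ K.U R a) : ∃ δ : Path p p', ∀ t, δ t ∈ K.U R a := by
  have hm : ∀ t : unitInterval, AffineMap.lineMap (K.e a p) (K.e a p') (t : ℝ) ∈ ball (0 : E) 6 :=
    fun t => ball_subset_ball hR (line_mem hp.2 hp'.2 t)
  refine ⟨⟨⟨fun t => (K.e a).symm (AffineMap.lineMap (K.e a p) (K.e a p') (t : ℝ)), ?_⟩, ?_, ?_⟩,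
    fun t => ⟨K.symm_mem a (hm t), ?_⟩⟩
  · exact (K.symm_cont a).comp_continuous
      (AffineMap.lineMap_continuous.comp continuous_subtype_val) hm
  · simp [(K.e a).left_inv hp.1]
  · simp [(K.e a).left_inv hp'.1]
  · change K.e a ((K.e a).symm _) ∈ _
    rw [K.right_inv a (hm t)]
    exact line_mem hp.2 hp'.2 t

theorem homotopic {a : K.ι} {p p' : X} (δ δ' : Path p p') (h : ∀ t, δ t ∈ (K.e a).source)
    (h' : ∀ t, δ' t ∈ (K.e a).source) :
    Path.Homotopic.Quotient.mk δ = Path.Homotopic.Quotient.mk δ' := by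
  rw [Path.Homotopic.Quotient.eq]
  have hm : ∀ z : unitInterval × unitInterval,
      AffineMap.lineMap (K.e a (δ z.2)) (K.e a (δ' z.2)) (z.1 : ℝ) ∈ ball (0 : E) 6 :=
    fun z => line_mem (K.map_mem (h _)) (K.map_mem (h' _)) _
  have c1 : Continuous fun t => K.e a (δ t) :=
    (K.e a).continuousOn.comp_continuous δ.continuous h
  have c2 : Continuous fun t => K.e a (δ' t) :=
    (K.e a).continuousOn.comp_continuous δ'.continuous h'
  refine ⟨⟨⟨⟨fun z => (K.e a).symm
    (AffineMap.lineMap (K.e a (δ z.2)) (K.e a (δ' z.2)) (z.1 : ℝ)), ?_⟩, ?_, ?_⟩, ?_⟩⟩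
  · refine (K.symm_cont a).comp_continuous ?_ hm
    simp only [AffineMap.lineMap_apply, vsub_eq_sub, vadd_eq_add]
    exact ((continuous_subtype_val.comp continuous_fst).smul
      ((c2.comp continuous_snd).sub (c1.comp continuous_snd))).add (c1.comp continuous_snd)
  · intro t; simp [(K.e a).left_inv (h t)]
  · intro t; simp [(K.e a).left_inv (h' t)]
  · intro s t ht
    rcases ht with rfl | rfl
    · have := h 0
      simp only [Path.source] at this
      simp [(K.e a).left_inv this]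
    · have := h 1
      simp only [Path.target] at this
      simp [(K.e a).left_inv this]

theorem U_six (a : K.ι) : K.U 6 a = (K.e a).source :=
  Set.ext fun _ => ⟨fun h => h.1, fun h => ⟨h, K.map_mem h⟩⟩

theorem exists_Q [PathConnectedSpace X] (x₀ : X) (a0 : K.ι) :
    ∃ Q : K.ι → ∀ p, HQ x₀ p, Q a0 x₀ = .refl x₀ ∧
      ∀ a p p' (δ : Path p p'), (∀ t, δ t ∈ (K.e a).source) →
        (Q a p).trans (.mk δ) = Q a p' := by
  classical
  have h06 : (0 : E) ∈ ball (0 : E) 6 := mem_ball_self (by norm_num)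
  have hs : ∀ a p, p ∈ (K.e a).source → ∃ δ : Path ((K.e a).symm 0) p,
      ∀ t, δ t ∈ (K.e a).source := fun a p hp => by
    have := K.exists_path le_rfl (a := a) (p := (K.e a).symm 0) (p' := p)
      (by rw [U_six]; exact K.symm_mem a h06) (by rw [U_six]; exact hp)
    simpa only [U_six] using this
  choose sg hsg using hs
  let Q0 : K.ι → ∀ p, HQ x₀ p := fun a p =>
    if h : p ∈ (K.e a).source then
      (Path.Homotopic.Quotient.mk (PathConnectedSpace.somePath x₀ ((K.e a).symm 0))).trans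
        (.mk (sg a p h))
    else .mk (PathConnectedSpace.somePath x₀ p)
  refine ⟨fun a p => (Q0 a0 x₀).symm.trans (Q0 a p), by simp, fun a p p' δ hδ => ?_⟩
  have hp : p ∈ (K.e a).source := δ.source ▸ hδ 0
  have hp' : p' ∈ (K.e a).source := δ.target ▸ hδ 1
  simp only [Q0, dif_pos hp, dif_pos hp', Path.Homotopic.Quotient.trans_assoc]
  congr 2
  rw [← Path.Homotopic.Quotient.mk_trans]
  refine K.homotopic (a := a) _ _ (fun t => ?_) (hsg a p' hp')
  have : ((sg a p hp).trans δ) t ∈ range ((sg a p hp).trans δ) := ⟨t, rfl⟩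
  rw [Path.trans_range] at this
  rcases this with ⟨s, hs⟩ | ⟨s, hs⟩
  · exact hs ▸ hsg a p hp s
  · exact hs ▸ hδ s

end KCh

variable (E) in
/-- charts with a choice of path classes from the base point -/
structure KQ (x₀ : X) extends KCh E X where
  a0 : ι
  mem0 : x₀ ∈ toKCh.U 1 a0
  Q : ι → ∀ p, HQ x₀ p
  Q0 : Q a0 x₀ = .refl x₀
  step : ∀ a p p' (δ : Path p p'), (∀ t, δ t ∈ (e a).source) → (Q a p).trans (.mk δ) = Q a p'

namespace KQ
variable {x₀ : X} (K : KQ E x₀)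

/-- the cocycle -/
def C (a b : K.ι) (p : X) : FundamentalGroup X x₀ := (K.Q b p).trans (K.Q a p).symm

theorem C_self (a : K.ι) (p : X) : K.C a a p = 1 := by
  rw [C, Path.Homotopic.Quotient.trans_symm]
  rfl

theorem C_mul (a b d : K.ι) (p : X) : K.C a d p = K.C a b p * K.C b d p := by
  rw [FundamentalGroup.mul_def]
  simp only [C, Path.Homotopic.Quotient.trans_assoc]
  rw [← Path.Homotopic.Quotient.trans_assoc (K.Q b p).symm]
  simp

theorem C_path (a b : K.ι) {p p' : X} (δ : Path p p') (ha : ∀ t, δ t ∈ (K.e a).source)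
    (hb : ∀ t, δ t ∈ (K.e b).source) : K.C a b p' = K.C a b p := by
  have h1 : (K.Q a p').symm = (Path.Homotopic.Quotient.mk δ).symm.trans (K.Q a p).symm := by
    rw [← K.step a p p' δ ha]
    generalize K.Q a p = m
    induction m using Path.Homotopic.Quotient.ind with
    | _ m =>
    rw [← Path.Homotopic.Quotient.mk_trans, ← Path.Homotopic.Quotient.mk_symm, Path.trans_symm]
    rfl
  simp only [C]
  rw [h1, ← K.step b p p' δ hb, Path.Homotopic.Quotient.trans_assoc,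
    ← Path.Homotopic.Quotient.trans_assoc (Path.Homotopic.Quotient.mk δ)]
  simp

theorem C_loc (a b : K.ι) {p : X} (ha : p ∈ (K.e a).source) (hb : p ∈ (K.e b).source) :
    ∀ᶠ q in 𝓝 p, K.C a b q = K.C a b p := by
  have hu := K.map_mem ha
  have h1 : ∀ᶠ u in 𝓝 (K.e a p), u ∈ ball (0 : E) 6 ∧ (K.e a).symm u ∈ (K.e b).source := by
    refine Filter.Eventually.and (isOpen_ball.mem_nhds hu) ?_
    refine ((K.symm_cont a).continuousAt (isOpen_ball.mem_nhds hu)).eventually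
      ((K.e b).open_source.mem_nhds ?_)
    rwa [(K.e a).left_inv ha]
  obtain ⟨r, hr, hb'⟩ := Metric.eventually_nhds_iff_ball.1 h1
  have h2 : ∀ᶠ q in 𝓝 p, K.e a q ∈ ball (K.e a p) r :=
    ((K.e a).continuousAt ha).eventually (isOpen_ball.mem_nhds (mem_ball_self hr))
  filter_upwards [h2, (K.e a).open_source.mem_nhds ha] with q hq hqa
  have hm : ∀ t : unitInterval, AffineMap.lineMap (K.e a p) (K.e a q) (t : ℝ) ∈ ball (K.e a p) r :=
    fun t => (convex_ball _ r).lineMap_mem (mem_ball_self hr) hq t.2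
  refine K.C_path a b ⟨⟨fun t => (K.e a).symm (AffineMap.lineMap (K.e a p) (K.e a q) (t : ℝ)),
    ?_⟩, ?_, ?_⟩ (fun t => K.symm_mem a (hb' _ (hm t)).1) fun t => (hb' _ (hm t)).2
  · exact (K.symm_cont a).comp_continuous
      (AffineMap.lineMap_continuous.comp continuous_subtype_val) fun t => (hb' _ (hm t)).1
  · simp [(K.e a).left_inv ha]
  · simp [(K.e a).left_inv hqa]

theorem cpt (a : K.ι) {L : Set E} (hL : IsCompact L) (h : L ⊆ ball 0 6) :
    IsCompact ((K.e a).symm '' L) := hL.image_of_continuousOn ((K.symm_cont a).mono h)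

theorem finite_vals [T2Space X] [FiniteDimensional ℝ E] (a b : K.ι) :
    (K.C a b '' ((K.e a).symm '' closedBall 0 5 ∩ (K.e b).symm '' closedBall 0 5)).Finite := by
  have h56 : closedBall (0 : E) 5 ⊆ ball 0 6 := closedBall_subset_ball (by norm_num)
  have hc := (K.cpt a (isCompact_closedBall 0 5) h56).inter (K.cpt b (isCompact_closedBall 0 5) h56)
  obtain ⟨t, ht, hcov⟩ := hc.elim_nhds_subcover (fun p => {q | K.C a b q = K.C a b p}) (by
    rintro p ⟨⟨u, hu, rfl⟩, v, hv, hv'⟩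
    exact K.C_loc a b (K.symm_mem a (h56 hu)) (hv' ▸ K.symm_mem b (h56 hv)))
  refine (t.finite_toSet.image (K.C a b)).subset ?_
  rintro _ ⟨q, hq, rfl⟩
  obtain ⟨p, hp, hpq⟩ := mem_iUnion₂.1 (hcov hq)
  exact ⟨p, hp, (show K.C a b q = K.C a b p from hpq).symm⟩

theorem exists_S [T2Space X] [FiniteDimensional ℝ E] : ∃ S : Finset (FundamentalGroup X x₀),
    (∀ a b u v, ‖u‖ ≤ 5 → ‖v‖ ≤ 5 → (K.e b).symm v = (K.e a).symm u →
      K.C a b ((K.e a).symm u) ∈ S) ∧ ∀ s ∈ S, s⁻¹ ∈ S := by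
  have := K.fin
  have hf : (⋃ a, ⋃ b, K.C a b '' ((K.e a).symm '' closedBall 0 5 ∩
      (K.e b).symm '' closedBall 0 5)).Finite :=
    finite_iUnion fun a => finite_iUnion fun b => K.finite_vals a b
  refine ⟨(hf.union hf.inv).toFinset, fun a b u v hu hv h => ?_, fun s hs => ?_⟩
  · rw [Finite.mem_toFinset]
    refine Or.inl (mem_iUnion₂.2 ⟨a, b, _, ⟨⟨u, by simpa using hu, rfl⟩, v, by simpa using hv, h⟩,
      rfl⟩)
  · rw [Finite.mem_toFinset] at hs ⊢
    rcases hs with hs | hs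
    · exact Or.inr (by simpa only [Set.mem_inv, inv_inv] using hs)
    · exact Or.inl (Set.mem_inv.1 hs)

variable [T2Space X] [FiniteDimensional ℝ E]

/-- the atlas with its cocycle -/
def pre : Pre E (FundamentalGroup X x₀) where
  ι := K.ι
  fin := K.fin
  a0 := K.a0
  O := fun a b => {u | u ∈ ball (0 : E) 6 ∧ (K.e a).symm u ∈ (K.e b).source}
  T := fun a b u => K.e b ((K.e a).symm u)
  c := fun a b u => K.C a b ((K.e a).symm u)
  S := K.exists_S.choose
  O_open := fun a b => (K.symm_cont a).isOpen_inter_preimage isOpen_ball (K.e b).open_source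
  O_sub := fun _ _ _ h => h.1
  O_self := fun a => Set.ext fun _ => ⟨fun h => h.1, fun h => ⟨h, K.symm_mem a h⟩⟩
  T_self := fun a _ hx => K.right_inv a hx
  c_self := fun a _ _ => K.C_self a _
  T_mem := fun a b x hx => ⟨K.map_mem hx.2, by
    rw [(K.e b).left_inv hx.2]; exact K.symm_mem a hx.1⟩
  T_inv := fun a b x hx => by rw [(K.e b).left_inv hx.2, K.right_inv a hx.1]
  T_smooth := K.smooth
  cocycle := fun a b d x hx hy => by
    have h2 := hy.2
    rw [(K.e b).left_inv hx.2] at h2 ⊢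
    exact ⟨⟨hx.1, h2⟩, rfl, K.C_mul a b d _⟩
  c_loc := fun a b x hx => ((K.symm_cont a).continuousAt (isOpen_ball.mem_nhds hx.1)).eventually
    (K.C_loc a b (K.symm_mem a hx.1) hx.2)
  sep := fun a b L hL hL6 x hx hxO => by
    have h1 : (K.e a).symm x ∈ ((K.e b).symm '' L)ᶜ := by
      rintro ⟨v, hv, hv'⟩
      exact hxO ⟨hx, hv' ▸ K.symm_mem b (hL6 hv)⟩
    filter_upwards [((K.symm_cont a).continuousAt (isOpen_ball.mem_nhds hx)).eventually
      ((K.cpt b hL hL6).isClosed.isOpen_compl.mem_nhds h1)] with y hy hyO hT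
    exact hy ⟨_, hT, (K.e b).left_inv hyO.2⟩
  cover := fun a x hx => by
    obtain ⟨b, hb, hb'⟩ := K.cover ((K.e a).symm x)
    exact ⟨b, ⟨hx, hb⟩, hb'⟩
  S_mem := fun a b x hx h1 h2 => K.exists_S.choose_spec.1 a b x _ h1 h2 ((K.e b).left_inv hx.2)
  S_inv := K.exists_S.choose_spec.2

theorem mem_ov {R : ℝ} (hR : R ≤ 6) {a b : K.ι} {p : X} (ha : p ∈ K.U R a) (hb : p ∈ K.U R b) :
    K.e a p ∈ K.pre.ov (ball 0 R) a b := by
  refine ⟨⟨ball_subset_ball hR ha.2, ?_⟩, ha.2, ?_⟩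
  · rw [(K.e a).left_inv ha.1]; exact hb.1
  · change K.e b ((K.e a).symm (K.e a p)) ∈ _
    rw [(K.e a).left_inv ha.1]; exact hb.2

theorem of_ov {R : ℝ} {a b : K.ι} {x : E} (hx : x ∈ K.pre.ov (ball 0 R) a b) :
    (K.e a).symm x ∈ K.U R a ∧ (K.e a).symm x ∈ K.U R b :=
  ⟨⟨K.symm_mem a hx.1.1, by rw [K.right_inv a hx.1.1]; exact hx.2.1⟩, hx.1.2, hx.2.2⟩

end KQ

theorem Pre.Chain.append {Γ : Type} [Group Γ] [FiniteDimensional ℝ E] {A : Pre E Γ}
    {a b d : A.ι} {γ γ' : Γ} (h : A.Chain a b γ) (h' : A.Chain b d γ') : A.Chain a d (γ * γ') := by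
  induction h with
  | nil a => simpa using h'
  | cons a b d x γ hx _ ih => rw [mul_assoc]; exact .cons _ _ _ _ _ hx (ih h')

namespace KQ
variable {x₀ : X} (K : KQ E x₀) [T2Space X] [FiniteDimensional ℝ E]

theorem chain_one {a b : K.ι} {p : X} (ha : p ∈ K.U 1 a) (hb : p ∈ K.U 1 b) :
    K.pre.Chain a b (K.C a b p) := by
  have := Pre.Chain.cons (A := K.pre) a b b _ 1 (K.mem_ov (by norm_num) ha hb)
    (Pre.Chain.nil (A := K.pre) b)
  rw [mul_one] at this
  change K.pre.Chain a b (K.C a b ((K.e a).symm (K.e a p))) at this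
  rwa [(K.e a).left_inv ha.1] at this

theorem chain_all (p : X) (m : HQ x₀ p) : ∀ a, p ∈ K.U 1 a →
    K.pre.Chain K.a0 a (show FundamentalGroup X x₀ from (K.Q a p).trans m.symm) := by
  refine kp_ind (K.U 1) (K.U_open 1) K.cover
    (fun p m => ∀ a, p ∈ K.U 1 a →
      K.pre.Chain K.a0 a (show FundamentalGroup X x₀ from (K.Q a p).trans m.symm)) ?_ ?_ p m
  · intro a ha
    have := K.chain_one K.mem0 ha
    rw [C, K.Q0] at this
    exact this
  · intro b p p' m δ hδ ih a ha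
    have hp : p ∈ K.U 1 b := δ.source ▸ hδ 0
    have hp' : p' ∈ K.U 1 b := δ.target ▸ hδ 1
    have h1 := (ih b hp).append (K.chain_one hp' ha)
    have h2 : (m.trans (Path.Homotopic.Quotient.mk δ)).symm =
        (Path.Homotopic.Quotient.mk δ).symm.trans m.symm := by
      induction m using Path.Homotopic.Quotient.ind with
      | _ m =>
      rw [← Path.Homotopic.Quotient.mk_trans, ← Path.Homotopic.Quotient.mk_symm, Path.trans_symm]
      rfl
    have h3 : (K.Q b p').symm.trans (K.Q b p) = (Path.Homotopic.Quotient.mk δ).symm := by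
      have h4 : K.Q b p = (K.Q b p').trans (Path.Homotopic.Quotient.mk δ).symm := by
        rw [← K.step b p p' δ fun t => (hδ t).1]
        simp
      rw [h4, ← Path.Homotopic.Quotient.trans_assoc]
      simp
    rw [FundamentalGroup.mul_def, C] at h1
    rw [h2, ← h3]
    simpa only [Path.Homotopic.Quotient.trans_assoc] using h1

theorem chain (γ : FundamentalGroup X x₀) : K.pre.Chain K.a0 K.a0 γ := by
  have := K.chain_all x₀ (γ⁻¹ : FundamentalGroup X x₀) K.a0 K.mem0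
  rw [K.Q0, Path.Homotopic.Quotient.refl_trans] at this
  change K.pre.Chain K.a0 K.a0 (γ⁻¹⁻¹) at this
  rwa [inv_inv] at this

theorem reach (a : K.ι) : ∃ γ, K.pre.Chain K.a0 a γ := by
  have h06 : (0 : E) ∈ ball (0 : E) 6 := mem_ball_self (by norm_num)
  exact ⟨_, K.chain_all ((K.e a).symm 0) (K.Q a _) a
    ⟨K.symm_mem a h06, by rw [K.right_inv a h06]; exact mem_ball_self one_pos⟩⟩

theorem lift (G : Type) [Group G] (τ : K.ι → K.ι → E → G)
    (hl : ∀ a b, ∀ x ∈ K.pre.ov (ball 0 2) a b, ∀ᶠ y in 𝓝 x, τ a b y = τ a b x)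
    (hc : ∀ a b d, ∀ x ∈ K.pre.ov (ball 0 2) a b, K.pre.T a b x ∈ K.pre.ov (ball 0 2) b d →
      τ a d x = τ a b x * τ b d (K.pre.T a b x)) :
    ∃ (ρ : FundamentalGroup X x₀ →* G) (u : K.ι → G), u K.a0 = 1 ∧
      ∀ a b, ∀ x ∈ K.pre.ov (ball 0 2) a b, τ a b x = (u a)⁻¹ * ρ (K.pre.c a b x) * u b := by
  have h12 : ∀ {a p}, p ∈ K.U 1 a → p ∈ K.U 2 a := fun h =>
    ⟨h.1, ball_subset_ball (by norm_num) h.2⟩
  have h26 : (2 : ℝ) ≤ 6 := by norm_num
  obtain ⟨Φ, h1, h2, h3, h4⟩ := kp_mono (K.U 2) (K.U_open 2)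
    (fun p => by obtain ⟨a, ha⟩ := K.cover p; exact ⟨a, h12 ha⟩) (h12 K.mem0)
    (fun a b p => τ a b (K.e a p))
    (fun a b p hp => ((K.e a).continuousAt hp.1.1).eventually (hl a b _ (K.mem_ov h26 hp.1 hp.2)))
    (fun a b d p ha hb hd => by
      have e1 : K.pre.T a b (K.e a p) = K.e b p := by
        change K.e b ((K.e a).symm (K.e a p)) = _
        rw [(K.e a).left_inv ha.1]
      have := hc a b d _ (K.mem_ov h26 ha hb) (by rw [e1]; exact K.mem_ov h26 hb hd)
      rwa [e1] at this)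
  have h06 : (0 : E) ∈ ball (0 : E) 6 := mem_ball_self (by norm_num)
  have hcen : ∀ a, (K.e a).symm 0 ∈ K.U 2 a := fun a =>
    ⟨K.symm_mem a h06, by rw [K.right_inv a h06]; exact mem_ball_self two_pos⟩
  have hu : ∀ a p, p ∈ K.U 2 a → Φ p (K.Q a p) a = Φ _ (K.Q a ((K.e a).symm 0)) a := by
    intro a p hp
    obtain ⟨δ, hδ⟩ := K.exists_path h26 (hcen a) hp
    rw [← K.step a _ _ δ fun t => (hδ t).1, h2 a _ _ _ δ hδ]
  refine ⟨MonoidHom.mk' (fun γ => (Φ x₀ γ K.a0)⁻¹) fun γ γ' => ?_,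
    fun a => Φ _ (K.Q a ((K.e a).symm 0)) a, ?_, fun a b x hx => ?_⟩
  · rw [FundamentalGroup.mul_def, h3, mul_inv_rev]
  · simp only
    rw [← hu _ _ (h12 K.mem0), K.Q0, h4]
  · obtain ⟨ha, hb⟩ := K.of_ov hx
    have e1 : K.Q b ((K.e a).symm x) =
        Path.Homotopic.Quotient.trans (K.C a b ((K.e a).symm x)) (K.Q a ((K.e a).symm x)) := by
      simp [C]
    have e2 := h1 _ (K.Q b ((K.e a).symm x)) a b ha hb
    rw [hu b _ hb, K.right_inv a hx.1.1] at e2
    have e3 := h3 _ (K.C a b ((K.e a).symm x)) (K.Q a ((K.e a).symm x)) a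
    rw [e1, e3, hu a _ ha] at e2
    change τ a b x = _ * (Φ x₀ (K.C a b ((K.e a).symm x)) K.a0)⁻¹ * _
    simp only
    rw [e2]
    group

end KQ

end Pool.Agent.PW
end
end

-- part Pool.Agent.P.MP_65ad7c_ag.KLin
section

/-! Linear algebra of the Riemannian coefficient of a Hermitian metric. -/

open Set Filter Topology Metric Matrix
open scoped ComplexOrder ContDiff Matrix.Norms.Frobenius RealInnerProductSpace

noncomputable section
namespace Pool.Agent.PW

variable {n : ℕ}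

/-- a complex matrix as a real linear map -/
def rc (M : Mat n) : EC n →L[ℝ] EC n :=
  (Matrix.toEuclideanCLM (𝕜 := ℂ) (n := Fin n) M).restrictScalars ℝ

theorem kα_eq (g : Mat n) : kα g = rc (kH g) := rfl

theorem kl_inner (u v : EC n) : ⟪u, v⟫ = (inner ℂ u v).re := by
  simp [PiLp.inner_apply, Complex.inner, mul_comm]

theorem rc_apply (M : Mat n) (v : EC n) :
    rc M v = Matrix.toEuclideanCLM (𝕜 := ℂ) (n := Fin n) M v := rfl

theorem rc_mul (M N : Mat n) (v : EC n) : rc (M * N) v = rc M (rc N v) := by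
  simp [rc_apply]

theorem rc_smul (c : ℝ) (M : Mat n) (v : EC n) : rc ((c : ℂ) • M) v = c • rc M v := by
  rw [rc_apply, map_smul, _root_.smul_apply, Complex.coe_smul, rc_apply]

theorem rc_inner (M : Mat n) (v w : EC n) : ⟪rc M v, w⟫ = ⟪v, rc Mᴴ w⟫ := by
  rw [kl_inner, kl_inner, rc_apply, rc_apply, ← Matrix.star_eq_conjTranspose, map_star,
    ContinuousLinearMap.star_eq_adjoint, ContinuousLinearMap.adjoint_inner_right]

theorem rc_adjoint (M : Mat n) : (rc M).adjoint = rc Mᴴ := by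
  symm
  rw [ContinuousLinearMap.eq_adjoint_iff]
  intro v w
  rw [rc_inner, conjTranspose_conjTranspose]

theorem rc_det (M : Mat n) : (rc M).det = Complex.normSq M.det := by
  have h1 : (rc M : EC n →ₗ[ℝ] EC n) = (Matrix.toLpLin 2 2 M).restrictScalars ℝ := rfl
  rw [ContinuousLinearMap.det, h1, LinearMap.det_restrictScalars, Algebra.norm_complex_apply,
    Matrix.toLpLin_eq_toLin, LinearMap.det_toLin]

theorem rc_pos {M : Mat n} (h : M.PosDef) (v : EC n) (hv : v ≠ 0) : 0 < ⟪v, rc M v⟫ := by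
  rw [kl_inner, rc_apply, EuclideanSpace.inner_eq_star_dotProduct, Matrix.ofLp_toEuclideanCLM,
    dotProduct_comm]
  exact h.re_dotProduct_pos (by simpa using hv)

theorem kH_pos {g : Mat n} (h : g.PosDef) : (kH g).PosDef :=
  h.transpose.inv.smul h.det_pos

theorem kH_eq {g : Mat n} (h : g.det ≠ 0) : kH g = adjugate gᵀ := by
  rw [kH, kW, Matrix.inv_def, det_transpose, smul_smul, Ring.inverse_eq_inv',
    mul_inv_cancel₀ h, one_smul]

theorem kl_det_smooth {U : Set (EC n)} {M : EC n → Mat n}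
    (h : ∀ j k, ContDiffOn ℝ ∞ (fun z => M z j k) U) : ContDiffOn ℝ ∞ (fun z => (M z).det) U := by
  simp only [Matrix.det_apply']
  exact ContDiffOn.sum fun σ _ => contDiffOn_const.mul (contDiffOn_prod fun i _ => h _ _)

theorem rc_sum (M : Mat n) : rc M = ∑ j, ∑ k, ((M j k).re • rc (single j k 1) +
    (M j k).im • rc (single j k Complex.I)) := by
  ext1 v
  simp only [_root_.sum_apply, _root_.add_apply,
    _root_.smul_apply, ← rc_smul]
  simp only [rc_apply, ← _root_.add_apply, ← map_add, ← _root_.sum_apply,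
    ← map_sum]
  congr 2
  conv_lhs => rw [matrix_eq_sum_single M]
  refine Finset.sum_congr rfl fun j _ => Finset.sum_congr rfl fun k _ => ?_
  rw [smul_single, smul_single, ← single_add]
  simp

theorem kl_coef {U : Set (EC n)} {g : EC n → Mat n} (h : IsKahlerOn U g) :
    Coef U fun x => kα (g x) := by
  refine ⟨?_, fun x hx => ⟨fun v w => ?_, fun v hv => rc_pos (kH_pos (h.2.1 x hx)) v hv⟩⟩
  · have h1 : ∀ j k, ContDiffOn ℝ ∞ (fun z => adjugate (g z)ᵀ j k) U := fun j k => by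
      simp only [adjugate_apply]
      refine kl_det_smooth fun p q => ?_
      simp only [updateRow_apply, transpose_apply]
      split_ifs
      · exact contDiffOn_const
      · exact h.1 _ _
    refine ContDiffOn.congr (f := fun z => rc (adjugate (g z)ᵀ)) ?_ fun x hx => ?_
    · simp only [fun z => rc_sum (adjugate (g z)ᵀ)]
      refine ContDiffOn.sum fun j _ => ContDiffOn.sum fun k _ => ?_
      exact ((Complex.reCLM.contDiff.comp_contDiffOn (h1 j k)).smul contDiffOn_const).add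
        ((Complex.imCLM.contDiff.comp_contDiffOn (h1 j k)).smul contDiffOn_const)
    · rw [kα_eq, kH_eq (h.2.1 x hx).det_pos.ne']
  · simp only
    rw [kα_eq, rc_inner, (kH_pos (h.2.1 x hx)).isHermitian.eq]

theorem kl_herm {g g' L : Mat n} (h : ∀ u v, herm g u v =
    herm g' (Matrix.toEuclideanCLM (𝕜 := ℂ) (n := Fin n) L u)
      (Matrix.toEuclideanCLM (𝕜 := ℂ) (n := Fin n) L v)) : gᵀ = Lᴴ * g'ᵀ * L := by
  ext k j
  have := h (EuclideanSpace.single j 1) (EuclideanSpace.single k 1)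
  simp only [herm, Matrix.ofLp_toEuclideanCLM, PiLp.ofLp_single, mulVec_single_one, col_apply,
    PiLp.single_apply] at this
  simp only [mul_ite, mul_one, mul_zero, apply_ite (starRingEnd ℂ), map_one, map_zero,
    Finset.sum_ite_eq', Finset.mem_univ, if_true] at this
  rw [transpose_apply, this]
  simp only [mul_apply, conjTranspose_apply, transpose_apply, Finset.sum_mul]
  refine Finset.sum_congr rfl fun p _ => Finset.sum_congr rfl fun q _ => ?_
  rw [← Complex.star_def]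
  ring

theorem kl_kH {g g' L : Mat n} (hg : g.det ≠ 0) (h : gᵀ = Lᴴ * g'ᵀ * L) :
    L * kH g * Lᴴ = ((Complex.normSq L.det : ℝ) : ℂ) • kH g' := by
  have hd : g.det = (Complex.normSq L.det : ℝ) * g'.det := by
    rw [← det_transpose g, h, det_mul, det_mul, det_conjTranspose, det_transpose,
      Complex.normSq_eq_conj_mul_self, Complex.star_def]
    ring
  have hL : L.det ≠ 0 := by
    rintro h0
    rw [h0] at hd
    simp at hd
    exact hg hd
  have hL' : Lᴴ.det ≠ 0 := by rw [det_conjTranspose]; exact star_ne_zero.2 hL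
  rw [kH, kH, kW, kW, h, Matrix.mul_inv_rev, Matrix.mul_inv_rev, smul_smul, ← hd, mul_smul_comm,
    smul_mul_assoc, ← mul_assoc, mul_nonsing_inv _ (Ne.isUnit hL), one_mul, mul_assoc,
    nonsing_inv_mul _ (Ne.isUnit hL'), mul_one]

theorem kl_inv {g g' : Mat n} (hg : g.PosDef) (L : EC n →L[ℂ] EC n)
    (h : ∀ u v, herm g u v = herm g' (L u) (L v)) (v w : EC n) :
    ⟪(L.restrictScalars ℝ).adjoint v, kα g ((L.restrictScalars ℝ).adjoint w)⟫ =
      |(L.restrictScalars ℝ).det| * ⟪v, kα g' w⟫ := by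
  obtain ⟨M, rfl⟩ := (Matrix.toEuclideanCLM (𝕜 := ℂ) (n := Fin n)).surjective L
  change ⟪(rc M).adjoint v, kα g ((rc M).adjoint w)⟫ = |(rc M).det| * ⟪v, kα g' w⟫
  rw [rc_adjoint, rc_det, abs_of_nonneg (Complex.normSq_nonneg _), rc_inner,
    conjTranspose_conjTranspose, kα_eq, kα_eq, ← rc_mul, ← rc_mul,
    kl_kH hg.det_pos.ne' (kl_herm h), rc_smul, real_inner_smul_right]

end Pool.Agent.PW
end
end

-- part Pool.Agent.P.MP_65ad7c_ag.Sec0
section

open MeasureTheory Set Filter Topology Metric Matrix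
open scoped ComplexOrder ContDiff Matrix.Norms.Frobenius RealInnerProductSpace ENNReal
open Pool.Agent.Lib.Sob

noncomputable section
namespace Pool.Agent.PW

section resc
variable {n : ℕ}

/-- the affine rescaling `u ↦ z + ε u` -/
def aff (z : EC n) (ε : ℝ) (u : EC n) : EC n := z + (ε : ℂ) • u

theorem aff_hasFDerivAt (z : EC n) (ε : ℝ) (u : EC n) :
    HasFDerivAt (aff z ε) ((ε : ℂ) • ContinuousLinearMap.id ℂ (EC n)) u :=
  ((hasFDerivAt_id u).const_smul (ε : ℂ)).const_add z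

theorem aff_smooth (z : EC n) (ε : ℝ) : ContDiff ℝ ∞ (aff z ε) :=
  contDiff_const.add (contDiff_id.const_smul (ε : ℂ))

theorem aff_inv (z : EC n) {ε : ℝ} (hε : 0 < ε) (u : EC n) :
    ((ε⁻¹ : ℝ) : ℂ) • (aff z ε u - z) = u := by
  rw [aff, add_sub_cancel_left, smul_smul, ← Complex.ofReal_mul, inv_mul_cancel₀ hε.ne',
    Complex.ofReal_one, one_smul]

theorem aff_inv' (z : EC n) {ε : ℝ} (hε : 0 < ε) (w : EC n) :
    aff z ε (((ε⁻¹ : ℝ) : ℂ) • (w - z)) = w := by
  rw [aff, smul_smul, ← Complex.ofReal_mul, mul_inv_cancel₀ hε.ne', Complex.ofReal_one, one_smul,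
    add_sub_cancel]

/-- the rescaling as a homeomorphism -/
def affH (z : EC n) {ε : ℝ} (hε : 0 < ε) : EC n ≃ₜ EC n where
  toFun := fun w => ((ε⁻¹ : ℝ) : ℂ) • (w - z)
  invFun := aff z ε
  left_inv := aff_inv' z hε
  right_inv := aff_inv z hε
  continuous_toFun := by fun_prop
  continuous_invFun := (aff_smooth z ε).continuous

theorem aff_mem (z : EC n) {ε R : ℝ} (hε : 0 < ε) {u : EC n} (hu : u ∈ ball (0 : EC n) R) :
    aff z ε u ∈ ball z (R * ε) := by
  rw [mem_ball_zero_iff] at hu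
  rw [mem_ball_iff_norm, aff, add_sub_cancel_left, norm_smul, Complex.norm_real,
    Real.norm_of_nonneg hε.le, mul_comm]
  exact mul_lt_mul_of_pos_right hu hε

theorem herm_smul (g : Mat n) (c : ℝ) (u v : EC n) :
    herm (((c ^ 2 : ℝ) : ℂ) • g) u v = herm g ((c : ℂ) • u) ((c : ℂ) • v) := by
  simp only [herm, Matrix.smul_apply, smul_eq_mul, PiLp.smul_apply, map_mul, Complex.conj_ofReal]
  refine Finset.sum_congr rfl fun j _ => Finset.sum_congr rfl fun k _ => ?_
  push_cast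
  ring

theorem dz_aff (z : EC n) (ε c : ℝ) {f : EC n → ℂ} {u : EC n} (j : Fin n)
    (hf : DifferentiableAt ℝ f (aff z ε u)) :
    dz j (fun w => (c : ℂ) * f (aff z ε w)) u = c * ε * dz j f (aff z ε u) := by
  have h1 := (hf.hasFDerivAt.comp u ((aff_hasFDerivAt z ε u).restrictScalars ℝ)).const_mul (c : ℂ)
  have h2 : fderiv ℝ (fun w => (c : ℂ) * f (aff z ε w)) u = _ := h1.fderiv
  simp only [dz, h2, _root_.smul_apply, ContinuousLinearMap.comp_apply,
    ContinuousLinearMap.coe_restrictScalars', ContinuousLinearMap.id_apply, Complex.coe_smul,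
    map_smul, smul_eq_mul, Complex.real_smul]
  ring

theorem IsKahlerOn.resc {U : Set (EC n)} {g : EC n → Mat n} (h : IsKahlerOn U g) (hU : IsOpen U)
    (z : EC n) {ε : ℝ} (hε : 0 < ε) (hs : ball z (6 * ε) ⊆ U) :
    IsKahlerOn (ball 0 6) fun u => ((ε ^ 2 : ℝ) : ℂ) • g (aff z ε u) := by
  have hm : ∀ u ∈ ball (0 : EC n) 6, aff z ε u ∈ U := fun u hu => hs (aff_mem z hε hu)
  refine ⟨fun j k => ?_, fun u hu => ?_, fun u hu j k l => ?_⟩
  · exact contDiffOn_const.mul ((h.1 j k).comp (aff_smooth z ε).contDiffOn hm)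
  · exact (h.2.1 _ (hm u hu)).smul (Complex.zero_lt_real.2 (by positivity))
  · have hd : ∀ j k, DifferentiableAt ℝ (fun w => g w j k) (aff z ε u) := fun j k =>
      ((h.1 j k).contDiffAt (hU.mem_nhds (hm u hu))).differentiableAt (by simp)
    have e1 := dz_aff z ε (ε ^ 2) l (hd j k)
    have e2 := dz_aff z ε (ε ^ 2) j (hd l k)
    simp only [Matrix.smul_apply, smul_eq_mul]
    rw [e1, e2, h.2.2 _ (hm u hu)]

variable {X : Type} [TopologicalSpace X]

/-- a chart rescaled to the ball of radius 6 -/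
def resc (φ : OpenPartialHomeomorph X (EC n)) (z : EC n) {ε : ℝ} (hε : 0 < ε) :
    OpenPartialHomeomorph X (EC n) :=
  ((φ.transHomeomorph (affH z hε)).symm.restrOpen (ball 0 6) isOpen_ball).symm

theorem resc_apply (φ : OpenPartialHomeomorph X (EC n)) (z : EC n) {ε : ℝ} (hε : 0 < ε) (p : X) :
    resc φ z hε p = ((ε⁻¹ : ℝ) : ℂ) • (φ p - z) := rfl

theorem resc_symm (φ : OpenPartialHomeomorph X (EC n)) (z : EC n) {ε : ℝ} (hε : 0 < ε)
    (u : EC n) : (resc φ z hε).symm u = φ.symm (aff z ε u) := rfl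

theorem resc_target (φ : OpenPartialHomeomorph X (EC n)) (z : EC n) {ε : ℝ} (hε : 0 < ε)
    (hs : ball z (6 * ε) ⊆ φ.target) : (resc φ z hε).target = ball 0 6 :=
  Set.ext fun _ => ⟨fun h => h.2, fun h => ⟨hs (aff_mem z hε h), h⟩⟩

theorem resc_source (φ : OpenPartialHomeomorph X (EC n)) (z : EC n) {ε : ℝ} (hε : 0 < ε) (p : X) :
    p ∈ (resc φ z hε).source ↔ p ∈ φ.source ∧ resc φ z hε p ∈ ball (0 : EC n) 6 := Iff.rfl

end resc

open scoped Manifold in
theorem chart_trans {n : ℕ} {X : Type} [TopologicalSpace X] [ChartedSpace (EC n) X]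
    [IsManifold 𝓘(ℂ, EC n) ω X] (x y : X) {w : EC n} (hw : w ∈ (chartAt (EC n) x).target)
    (hw' : (chartAt (EC n) x).symm w ∈ (chartAt (EC n) y).source) :
    ContDiffAt ℂ ω (fun w => chartAt (EC n) y ((chartAt (EC n) x).symm w)) w := by
  have h := (contDiffGroupoid ω 𝓘(ℂ, EC n)).compatible (chart_mem_atlas (EC n) x)
    (chart_mem_atlas (EC n) y)
  have h1 := (mem_groupoid_of_pregroupoid.1 h).1
  simp only [contDiffPregroupoid, mfld_simps] at h1
  exact h1.contDiffAt (((chartAt (EC n) x).symm.isOpen_inter_preimage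
    (chartAt (EC n) y).open_source).mem_nhds ⟨hw, hw'⟩)

open scoped Manifold in
/-- SEC 0: the Kaehler atlas of a compact Kaehler manifold. -/
theorem exists_katlas (n : ℕ) (X : Type) [TopologicalSpace X] [T2Space X] [CompactSpace X]
    [ConnectedSpace X] [ChartedSpace (EC n) X] [IsManifold 𝓘(ℂ, EC n) ω X] (hK : IsKahler n X)
    (x₀ : X) : Nonempty (KAtlas n (FundamentalGroup X x₀)) := by
  obtain ⟨g, hg, hinv⟩ := hK
  have := ChartedSpace.locallyPathConnectedSpace (EC n) X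
  have : PathConnectedSpace X := .of_locallyPathConnectedSpace
  have hε : ∀ x : X, ∃ ε : ℝ, 0 < ε ∧
      ball (chartAt (EC n) x x) (6 * ε) ⊆ (chartAt (EC n) x).target := fun x => by
    obtain ⟨r, hr, h⟩ := Metric.isOpen_iff.1 (chartAt (EC n) x).open_target _
      (mem_chart_target (EC n) x)
    exact ⟨r / 6, by positivity, by rwa [mul_div_cancel₀ _ (by norm_num)]⟩
  choose ε hε hs using hε
  let e : X → OpenPartialHomeomorph X (EC n) := fun x =>
    resc (chartAt (EC n) x) (chartAt (EC n) x x) (hε x)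
  obtain ⟨t, ht⟩ := isCompact_univ.elim_finite_subcover
    (fun x => (e x).source ∩ e x ⁻¹' ball 0 1)
    (fun x => (e x).isOpen_inter_preimage isOpen_ball) fun x _ => by
      have h0 : e x x = 0 := by simp [e, resc_apply]
      refine mem_iUnion.2 ⟨x, (resc_source _ _ _ _).2 ⟨mem_chart_source _ x, ?_⟩, ?_⟩
      · change e x x ∈ _
        rw [h0]; exact mem_ball_self (by norm_num)
      · rw [mem_preimage, h0]; exact mem_ball_self one_pos
  have hT : ∀ x y u, u ∈ ball (0 : EC n) 6 → (e x).symm u ∈ (e y).source →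
      ContDiffAt ℂ ω (fun u => e y ((e x).symm u)) u ∧ ∀ v, (ε y : ℂ) •
        fderiv ℂ (fun u => e y ((e x).symm u)) u v =
        fderiv ℂ (fun w => chartAt (EC n) y ((chartAt (EC n) x).symm w))
          (aff (chartAt (EC n) x x) (ε x) u) ((ε x : ℂ) • v) := by
    intro x y u hu hu'
    have h1 := chart_trans x y (hs x (aff_mem _ (hε x) hu)) ((resc_source _ _ _ _).1 hu').1
    have ha : ContDiff ℂ ω (aff (chartAt (EC n) x x) (ε x)) :=
      contDiff_const.add (contDiff_id.const_smul (ε x : ℂ))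
    refine ⟨((h1.comp u ha.contDiffAt).sub (contDiffAt_const (c := chartAt (EC n) y y))).const_smul
      (((ε y)⁻¹ : ℝ) : ℂ), fun v => ?_⟩
    have h2 := (((h1.differentiableAt (by simp)).hasFDerivAt.comp u
      (aff_hasFDerivAt _ (ε x) u)).sub_const (chartAt (EC n) y y)).const_smul
        (((ε y)⁻¹ : ℝ) : ℂ)
    have h3 : fderiv ℂ (fun u => e y ((e x).symm u)) u = _ := h2.fderiv
    rw [h3, _root_.smul_apply, smul_smul, ← Complex.ofReal_mul, mul_inv_cancel₀ (hε y).ne',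
      Complex.ofReal_one, one_smul]
    rfl
  let K0 : KCh (EC n) X :=
    { ι := t
      fin := inferInstance
      e := fun a => e a
      tgt := fun a => resc_target _ _ _ (hs a)
      cover := fun p => by
        obtain ⟨a, ha, hp⟩ := mem_iUnion₂.1 (ht (mem_univ p))
        exact ⟨⟨a, ha⟩, hp⟩
      smooth := fun a b u hu =>
        (((hT a b u hu.1 hu.2).1.of_le le_top).restrict_scalars ℝ).contDiffWithinAt }
  obtain ⟨a0, h0⟩ := K0.cover x₀
  obtain ⟨Q, hQ0, hQ⟩ := K0.exists_Q x₀ a0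
  let K : KQ (EC n) x₀ := { K0 with a0 := a0, mem0 := h0, Q := Q, Q0 := hQ0, step := hQ }
  let g' : t → EC n → Mat n := fun a u =>
    (((ε a) ^ 2 : ℝ) : ℂ) • g a (aff (chartAt (EC n) (a : X) a) (ε a) u)
  have hk : ∀ a, IsKahlerOn (ball 0 6) (g' a) := fun a =>
    (hg a).resc (chartAt (EC n) (a : X)).open_target _ (hε a) (hs a)
  have hgi : ∀ a b : t, ∀ x ∈ K.pre.O a b, ∀ u v, herm (g' a x) u v =
      herm (g' b (K.pre.T a b x)) (fderiv ℂ (K.pre.T a b) x u) (fderiv ℂ (K.pre.T a b) x v) := by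
    intro a b x hx u v
    have h1 := (hT a b x hx.1 hx.2).2
    have h2 : aff (chartAt (EC n) (b : X) b) (ε b) (K.pre.T a b x) =
        chartAt (EC n) (b : X) ((chartAt (EC n) (a : X)).symm
          (aff (chartAt (EC n) (a : X) a) (ε a) x)) := aff_inv' _ (hε b) _
    simp only [g', herm_smul]
    rw [h2]
    erw [h1, h1]
    exact hinv a b _ (hs a (aff_mem _ (hε a) hx.1)) ((resc_source _ _ _ _).1 hx.2).1 _ _
  exact ⟨{
    toPre := K.pre
    α := fun a x => kα (g' a x)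
    coef := fun a => kl_coef (hk a)
    α_inv := fun a b x hx v w => by
      have hd : DifferentiableAt ℂ (K.pre.T a b) x :=
        (hT a.1 b.1 x hx.1 hx.2).1.differentiableAt (by simp)
      rw [Pre.jac, hd.fderiv_restrictScalars ℝ]
      exact kl_inv ((hk a).2.1 x hx.1) _ (hgi a b x hx) v w
    chain := K.chain
    reach := K.reach
    lift := K.lift
    g := g'
    kae := hk
    hol := fun a b x hx =>
      ((hT a.1 b.1 x hx.1 hx.2).1.differentiableAt (by simp)).differentiableWithinAt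
    g_inv := hgi
    α_eq := fun _ _ => rfl }⟩

/-- SEC 0: finite generation, from `chain` and `S_mem`. -/
theorem Atlas.fg {E : Type} [NormedAddCommGroup E] [InnerProductSpace ℝ E] [FiniteDimensional ℝ E]
    {Γ : Type} [Group Γ] (A : Atlas E Γ) : Group.FG Γ := by
  have key : ∀ {a b γ}, A.toPre.Chain a b γ → γ ∈ Subgroup.closure (A.S : Set Γ) := by
    intro a b γ h
    induction h with
    | nil a => exact one_mem _
    | cons a b d x γ hx _ ih =>
      refine mul_mem (Subgroup.subset_closure (A.S_mem a b x hx.1 ?_ ?_)) ih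
      · exact (mem_ball_zero_iff.1 hx.2.1).le.trans (by norm_num)
      · exact (mem_ball_zero_iff.1 hx.2.2).le.trans (by norm_num)
  exact ⟨⟨A.S, eq_top_iff.2 fun γ _ => key (A.chain γ)⟩⟩

/-- SEC 0: in dimension zero the group is trivial. -/
theorem subsingleton_pi1 (X : Type) [TopologicalSpace X] [ConnectedSpace X]
    [ChartedSpace (EC 0) X] (x₀ : X) : Subsingleton (FundamentalGroup X x₀) := by
  have : DiscreteTopology X := ChartedSpace.discreteTopology (EC 0) X
  have : Subsingleton X := PreconnectedSpace.trivial_of_discrete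
  refine ⟨fun p q => ?_⟩
  obtain ⟨p⟩ := p
  obtain ⟨q⟩ := q
  have : p = q := Path.ext (funext fun _ => Subsingleton.elim _ _)
  rw [this]

end Pool.Agent.PW
end
end

-- part Pool.Agent.P.MP_65ad7c_ag.BGau
section

open MeasureTheory Set Filter Topology Metric Matrix
open scoped ComplexOrder ContDiff Matrix.Norms.Frobenius RealInnerProductSpace ENNReal
open Pool.Agent.Lib.Sob

noncomputable section
namespace Pool.Agent.PW

variable {E : Type} [NormedAddCommGroup E] [InnerProductSpace ℝ E] [FiniteDimensional ℝ E]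
  [MeasurableSpace E] [BorelSpace E] {r : ℕ} {U : Set E} {Γ : Type} [Group Γ]
  {V : Type} [NormedAddCommGroup V] [NormedSpace ℝ V]

theorem bgau_convex_sum {J : Type} [Fintype J] {s : Set V} (hs : Convex ℝ s) {w : J → ℝ}
    {z : J → V} (h0 : ∀ j, 0 ≤ w j) (h1 : ∑ j, w j = 1) (hz : ∀ j, w j ≠ 0 → z j ∈ s) :
    ∑ j, w j • z j ∈ s := by
  classical
  have h := hs.sum_mem (t := Finset.univ.filter fun j => w j ≠ 0) (w := w) (z := z)
    (fun j _ => h0 j) (by rw [Finset.sum_filter_ne_zero, h1])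
    fun j hj => hz j (Finset.mem_filter.1 hj).2
  rwa [Finset.sum_filter_of_ne] at h
  intro j _ hj hw
  exact hj (by rw [hw, zero_smul])

theorem bgau_convex_posDef : Convex ℝ {P : Mat r | P.PosDef} := by
  intro P hP Q hQ a b ha hb hab
  rcases ha.eq_or_lt with rfl | ha'
  · have : b = 1 := by linarith
    subst this
    simpa using hQ
  · exact (PosDef.smul hP ha').add_posSemidef (PosSemidef.smul (PosDef.posSemidef hQ) hb)

omit [FiniteDimensional ℝ E] [MeasurableSpace E] [BorelSpace E] in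
theorem bgau_c0_bound {Θ : E → V} (hΘ : ContDiffOn ℝ ∞ Θ U) {K : Set E}
    (hK : IsCompact K) (hKU : K ⊆ U) : ∃ M : ℝ, ∀ x ∈ K, ‖Θ x‖ ≤ M :=
  hK.exists_bound_of_continuousOn (hΘ.continuousOn.mono hKU)

omit [FiniteDimensional ℝ E] [MeasurableSpace E] [BorelSpace E] in
theorem bgau_c2_bound {Θ : E → V} (hU : IsOpen U) (hΘ : ContDiffOn ℝ ∞ Θ U) {K : Set E}
    (hK : IsCompact K) (hKU : K ⊆ U) : ∃ M : ℝ, 0 ≤ M ∧ ∀ x ∈ K, ‖Θ x‖ ≤ M ∧
      ‖fderiv ℝ Θ x‖ ≤ M ∧ ‖fderiv ℝ (fderiv ℝ Θ) x‖ ≤ M := by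
  have h1 : ContDiffOn ℝ ∞ (fderiv ℝ Θ) U := hΘ.fderiv_of_isOpen hU (by simp)
  have h2 : ContDiffOn ℝ ∞ (fderiv ℝ (fderiv ℝ Θ)) U := h1.fderiv_of_isOpen hU (by simp)
  obtain ⟨M0, b0⟩ := bgau_c0_bound hΘ hK hKU
  obtain ⟨M1, b1⟩ := bgau_c0_bound h1 hK hKU
  obtain ⟨M2, b2⟩ := bgau_c0_bound h2 hK hKU
  refine ⟨|M0| + |M1| + |M2|, by positivity, fun x hx => ⟨?_, ?_, ?_⟩⟩
  · linarith [b0 x hx, le_abs_self M0, abs_nonneg M1, abs_nonneg M2]
  · linarith [b1 x hx, le_abs_self M1, abs_nonneg M0, abs_nonneg M2]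
  · linarith [b2 x hx, le_abs_self M2, abs_nonneg M0, abs_nonneg M1]

omit [FiniteDimensional ℝ E] [MeasurableSpace E] [BorelSpace E] in
theorem bgau_clm {W : Type} [NormedAddCommGroup W] [NormedSpace ℝ W] {Θ : E → V} {G : E → W}
    (hU : IsOpen U) (hΘ : ContDiffOn ℝ ∞ Θ U) (Λ : V →L[ℝ] W) (hG : ∀ x ∈ U, G x = Λ (Θ x))
    {x : E} (hx : x ∈ U) : ‖G x‖ ≤ ‖Λ‖ * ‖Θ x‖ ∧ ‖fderiv ℝ G x‖ ≤ ‖Λ‖ * ‖fderiv ℝ Θ x‖ ∧
      ‖fderiv ℝ (fderiv ℝ G) x‖ ≤ ‖Λ‖ * ‖fderiv ℝ (fderiv ℝ Θ) x‖ := by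
  have h1 : ContDiffOn ℝ ∞ (fderiv ℝ Θ) U := hΘ.fderiv_of_isOpen hU (by simp)
  have e1 : ∀ y ∈ U, fderiv ℝ G y = ContinuousLinearMap.compL ℝ E V W Λ (fderiv ℝ Θ y) := by
    intro y hy
    have d : DifferentiableAt ℝ Θ y :=
      (hΘ.contDiffAt (hU.mem_nhds hy)).differentiableAt (by simp)
    have ev : G =ᶠ[𝓝 y] fun z => Λ (Θ z) := by
      filter_upwards [hU.mem_nhds hy] with z hz using hG z hz
    rw [ev.fderiv_eq]
    exact (Λ.hasFDerivAt.comp y d.hasFDerivAt).fderiv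
  have e2 : fderiv ℝ (fderiv ℝ G) x
      = (ContinuousLinearMap.compL ℝ E V W Λ).comp (fderiv ℝ (fderiv ℝ Θ) x) := by
    have d : DifferentiableAt ℝ (fderiv ℝ Θ) x :=
      (h1.contDiffAt (hU.mem_nhds hx)).differentiableAt (by simp)
    have ev : fderiv ℝ G =ᶠ[𝓝 x]
        fun z => ContinuousLinearMap.compL ℝ E V W Λ (fderiv ℝ Θ z) := by
      filter_upwards [hU.mem_nhds hx] with z hz using e1 z hz
    rw [ev.fderiv_eq]
    exact ((ContinuousLinearMap.compL ℝ E V W Λ).hasFDerivAt.comp x d.hasFDerivAt).fderiv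
  have hn : ‖ContinuousLinearMap.compL ℝ E V W Λ‖ ≤ ‖Λ‖ :=
    ContinuousLinearMap.opNorm_le_bound _ (norm_nonneg _) fun X => Λ.opNorm_comp_le X
  refine ⟨?_, ?_, ?_⟩
  · rw [hG x hx]
    exact Λ.le_opNorm _
  · rw [e1 x hx]
    exact Λ.opNorm_comp_le _
  · rw [e2]
    exact (ContinuousLinearMap.opNorm_comp_le _ _).trans
      (mul_le_mul_of_nonneg_right hn (norm_nonneg _))

theorem bgau_lin {J : Type} [Fintype J] (v : J → V) {N : ℝ} (hN : 0 ≤ N) (hv : ∀ j, ‖v j‖ ≤ N) :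
    ∃ Λ : (J → ℝ) →L[ℝ] V, (∀ a, Λ a = ∑ j, a j • v j) ∧ ‖Λ‖ ≤ Fintype.card J * N := by
  refine ⟨∑ j, (ContinuousLinearMap.proj j : (J → ℝ) →L[ℝ] ℝ).smulRight (v j), fun a => by simp,
    ContinuousLinearMap.opNorm_le_bound _ (by positivity) fun a => ?_⟩
  simp only [_root_.sum_apply, ContinuousLinearMap.smulRight_apply,
    ContinuousLinearMap.proj_apply]
  refine (norm_sum_le _ _).trans ?_
  have h : ∀ j ∈ (Finset.univ : Finset J), ‖a j • v j‖ ≤ N * ‖a‖ := by
    intro j _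
    rw [norm_smul, mul_comm]
    exact mul_le_mul (hv j) (norm_le_pi_norm a j) (norm_nonneg _) hN
  refine (Finset.sum_le_sum h).trans ?_
  rw [Finset.sum_const, Finset.card_univ, nsmul_eq_mul, mul_assoc]

omit [FiniteDimensional ℝ E] [MeasurableSpace E] [BorelSpace E] in
theorem bgau_ext_nonneg (A : Pre E Γ) {ψ : E → ℝ} (h : ∀ x, 0 ≤ ψ x) (a b : A.ι) (x : E) :
    0 ≤ A.ext ψ a b x := by
  unfold Pre.ext
  split_ifs
  · exact h _
  · exact le_rfl

omit [FiniteDimensional ℝ E] [MeasurableSpace E] [BorelSpace E] in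
theorem bgau_ext_mem (A : Pre E Γ) {ψ : E → ℝ} {a b : A.ι} {x : E} (h : A.ext ψ a b x ≠ 0) :
    x ∈ A.O b a ∧ A.T b a x ∈ tsupport ψ := by
  unfold Pre.ext at h
  split_ifs at h with hx
  · exact ⟨hx, subset_tsupport _ h⟩
  · exact absurd rfl h

omit [MeasurableSpace E] [BorelSpace E] in
theorem bgau_c_mem (A : Pre E Γ) {χ : A.ι → E → ℝ} (hχ : A.Pou (closedBall 0 (9 / 2)) χ)
    {a b : A.ι} {x : E} (hx : ‖x‖ ≤ 5) (h : A.ext (χ a) a b x ≠ 0) : A.c b a x ∈ A.S := by
  obtain ⟨h1, h2⟩ := bgau_ext_mem A h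
  have h3 := (hχ.1 a).1.2.2 h2
  rw [mem_closedBall, dist_zero_right] at h3
  exact A.S_mem b a x h1 hx (by linarith)

theorem bgau_gm (ρ : Γ →* Mat r) (γ : Γ) : (ρ γ⁻¹)ᴴ * ρ γ⁻¹ = gm 1 (ρ γ⁻¹) := by
  simp [gm]

theorem bgau_inv (ρ : Γ →* Mat r) (γ : Γ) : ρ γ⁻¹ * ρ γ = 1 := by
  rw [← map_mul, inv_mul_cancel, map_one]

theorem Pre.gau_smooth (A : Pre E Γ) {χ : A.ι → E → ℝ} (hχ : A.Pou (ball 0 6) χ) (F : Γ → Mat r)
    (b : A.ι) : ContDiffOn ℝ ∞ (A.gau χ F b) (ball 0 6) := by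
  exact ContDiffOn.sum fun a _ => A.ext_smooth (hχ.1 a).1 a b F

/-- uniform `C²` bounds -/
theorem Pre.gau_bound (A : Pre E Γ) {χ : A.ι → E → ℝ} (hχ : A.Pou (closedBall 0 (9 / 2)) χ) :
    ∃ L : ℝ, 0 ≤ L ∧ ∀ (F : Γ → Mat r) (N : ℝ), 0 ≤ N → (∀ s ∈ A.S, ‖F s‖ ≤ N) →
      ∀ b, ∀ x ∈ closedBall (0 : E) (9 / 2), ‖A.gau χ F b x‖ ≤ L * N ∧
        ‖fderiv ℝ (A.gau χ F b) x‖ ≤ L * N ∧ ‖fderiv ℝ (fderiv ℝ (A.gau χ F b)) x‖ ≤ L * N := by
  classical
  have h96 : closedBall (0 : E) (9 / 2) ⊆ ball 0 6 := closedBall_subset_ball (by norm_num)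
  have h95 : closedBall (0 : E) (9 / 2) ⊆ ball 0 5 := closedBall_subset_ball (by norm_num)
  have h56 : ball (0 : E) 5 ⊆ ball 0 6 := ball_subset_ball (by norm_num)
  set Θ : A.ι → E → (A.ι × A.S → ℝ) := fun b x j =>
    A.ext (χ j.1) j.1 b x • (if A.c b j.1 x = j.2 then (1 : ℝ) else 0) with hΘ
  have sΘ : ∀ b, ContDiffOn ℝ ∞ (Θ b) (ball 0 5) := fun b => contDiffOn_pi.2 fun j =>
    (A.ext_smooth ((hχ.1 j.1).1.mono h96) j.1 b
      fun γ => if γ = j.2 then (1 : ℝ) else 0).mono h56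
  choose M hM0 hM using fun b => bgau_c2_bound isOpen_ball (sΘ b) (isCompact_closedBall _ _) h95
  have hMs : ∀ b, M b ≤ ∑ d, M d := fun b =>
    Finset.single_le_sum (fun d _ => hM0 d) (Finset.mem_univ b)
  have hM1 : 0 ≤ ∑ d, M d := Finset.sum_nonneg fun d _ => hM0 d
  refine ⟨Fintype.card (A.ι × A.S) * ∑ d, M d, by positivity, fun F N hN hF b x hx => ?_⟩
  obtain ⟨Λ, hΛ, hΛn⟩ := bgau_lin (J := A.ι × A.S) (fun j => F j.2) hN fun j => hF _ j.2.2
  have hG : ∀ y ∈ ball (0 : E) 5, A.gau χ F b y = Λ (Θ b y) := by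
    intro y hy
    rw [hΛ, Fintype.sum_prod_type]
    refine Finset.sum_congr rfl fun a _ => ?_
    by_cases h : A.ext (χ a) a b y = 0
    · simp [hΘ, h]
    · have hc := bgau_c_mem A hχ (mem_ball_zero_iff.1 hy).le h
      rw [Finset.sum_eq_single (⟨_, hc⟩ : A.S)]
      · simp [hΘ]
      · intro s _ hs
        have : A.c b a y ≠ s := fun e => hs (Subtype.ext e.symm)
        simp [hΘ, this]
      · simp
  obtain ⟨k0, k1, k2⟩ := bgau_clm isOpen_ball (sΘ b) Λ hG (h95 hx)
  obtain ⟨m0, m1, m2⟩ := hM b x hx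
  have key : ∀ t : ℝ, 0 ≤ t → t ≤ M b →
      ‖Λ‖ * t ≤ Fintype.card (A.ι × A.S) * (∑ d, M d) * N := by
    intro t ht htM
    rw [mul_right_comm]
    exact mul_le_mul hΛn (htM.trans (hMs b)) ht (by positivity)
  exact ⟨k0.trans (key _ (norm_nonneg _) m0), k1.trans (key _ (norm_nonneg _) m1),
    k2.trans (key _ (ContinuousLinearMap.opNorm_nonneg _) m2)⟩

theorem Atlas.h0_ref (A : Atlas E Γ) {χ : A.ι → E → ℝ} (hχ : A.Pou (ball 0 6) χ)
    (ρ : Γ →* Mat r) : A.Ref ρ (A.h0 χ ρ) := by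
  refine ⟨fun a => A.gau_smooth hχ _ a, fun b x hx => ?_, fun a b x hx => ?_⟩
  · refine bgau_convex_sum bgau_convex_posDef
      (fun a => bgau_ext_nonneg A.toPre (hχ.1 a).2 a b x) (hχ.2 b x hx) fun a _ => ?_
    simp only [mem_ofPred_eq, bgau_gm]
    exact gm_posDef PosDef.one (bgau_inv ρ _)
  · simp only [Pre.h0, Pre.gau, gm, Finset.mul_sum, Finset.sum_mul]
    refine Finset.sum_congr rfl fun d _ => ?_
    by_cases h : A.ext (χ d) d b (A.T a b x) = 0
    · have h' := h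
      rw [A.ext_comp _ _ hx.1] at h'
      simp [h, h']
    · obtain ⟨-, -, hc⟩ := A.cocycle a b d x hx.1 (bgau_ext_mem A.toPre h).1
      have e : ρ (A.c b d (A.T a b x))⁻¹ = ρ (A.c a d x)⁻¹ * ρ (A.c a b x) := by
        rw [← map_mul, hc]
        simp
      rw [A.ext_comp _ _ hx.1, e]
      simp only [conjTranspose_mul, Matrix.mul_smul, Matrix.smul_mul, Matrix.mul_assoc]

theorem Atlas.h0_bd (A : Atlas E Γ) {χ : A.ι → E → ℝ} (hχ : A.Pou (closedBall 0 (9 / 2)) χ)
    (N : ℝ) : ∃ B : ℝ, 1 ≤ B ∧ ∀ ρ : Γ →* Mat r, A.Sz N ρ → A.RefBd B (A.h0 χ ρ) := by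
  obtain ⟨L, hL0, hL⟩ := A.gau_bound (r := r) hχ
  have h96 : closedBall (0 : E) (9 / 2) ⊆ ball 0 6 := closedBall_subset_ball (by norm_num)
  set N₁ := max N 1 with hN₁
  have hN1 : 1 ≤ N₁ := le_max_right _ _
  have hN2 : 1 ≤ N₁ * N₁ := one_le_mul_of_one_le_of_one_le hN1 hN1
  have hLN : 0 ≤ L * (N₁ * N₁) := by positivity
  refine ⟨N₁ * N₁ + L * (N₁ * N₁), by linarith, fun ρ hρ b x hx => ?_⟩
  have hρ' : ∀ s ∈ A.S, ‖ρ s‖ ≤ N₁ := fun s hs => (hρ s hs).trans (le_max_left _ _)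
  have hct : ∀ X : Mat r, ‖Xᴴ‖ = ‖X‖ := fun X => Matrix.frobenius_norm_conjTranspose X
  have hF : ∀ s ∈ A.S, ‖(ρ s⁻¹)ᴴ * ρ s⁻¹‖ ≤ N₁ * N₁ := by
    intro s hs
    have h1 := hρ' _ (A.S_inv s hs)
    refine (norm_mul_le _ _).trans ?_
    rw [hct]
    exact mul_le_mul h1 h1 (norm_nonneg _) (by linarith)
  obtain ⟨-, k1, k2⟩ := hL (fun γ => (ρ γ⁻¹)ᴴ * ρ γ⁻¹) (N₁ * N₁) (by linarith) hF b x hx
  refine ⟨Bd.mono (C := N₁ * N₁) (by linarith) (by linarith) ?_, k1.trans (by linarith),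
    k2.trans (by linarith)⟩
  refine bgau_convex_sum (convex_obst (N₁ * N₁) 1)
    (fun a => bgau_ext_nonneg A.toPre (hχ.1 a).2 a b x) (hχ.2 b x (h96 hx)) fun a ha => ?_
  have hs := bgau_c_mem A.toPre hχ ((mem_closedBall_zero_iff.1 hx).trans (by norm_num)) ha
  refine bd_of_norm (by linarith) ?_ (hF _ hs) ?_
  · beta_reduce
    rw [bgau_gm]
    exact gm_posDef PosDef.one (bgau_inv ρ _)
  · have h1 := hρ' _ hs
    beta_reduce
    rw [bgau_gm, gm_inv PosDef.one (bgau_inv ρ _), inv_one, Matrix.mul_one]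
    refine (norm_mul_le _ _).trans ?_
    rw [hct]
    exact mul_le_mul h1 h1 (norm_nonneg _) (by linarith)

end Pool.Agent.PW
end
end

-- part Pool.Agent.P.MP_65ad7c_ag.BInt0
section

open MeasureTheory Set Filter Topology Metric Matrix
open scoped ComplexOrder ContDiff Matrix.Norms.Frobenius RealInnerProductSpace ENNReal
open Pool.Agent.Lib.Sob

noncomputable section
namespace Pool.Agent.PW

variable {E : Type} [NormedAddCommGroup E] [InnerProductSpace ℝ E] [FiniteDimensional ℝ E]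
  [MeasurableSpace E] [BorelSpace E] {r : ℕ} {U : Set E} {Γ : Type} [Group Γ]
  {V : Type} [NormedAddCommGroup V] [NormedSpace ℝ V]

omit [FiniteDimensional ℝ E] [MeasurableSpace E] [BorelSpace E] in
theorem bint0_diffeo (A : Pre E Γ) (a b : A.ι) :
    Diffeo {x | x ∈ A.O a b ∧ A.T a b x ∈ ball (0 : E) 1} {y | y ∈ A.O b a ∧ y ∈ ball (0 : E) 1}
      (A.T a b) (A.T b a) where
  o := (A.T_smooth a b).continuousOn.isOpen_inter_preimage (A.O_open a b) isOpen_ball
  o' := (A.O_open b a).inter isOpen_ball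
  m := fun x hx => ⟨A.T_mem a b x hx.1, hx.2⟩
  m' := fun y hy => ⟨A.T_mem b a y hy.1, by rw [A.T_inv b a y hy.1]; exact hy.2⟩
  l := fun x hx => A.T_inv a b x hx.1
  r := fun y hy => A.T_inv b a y hy.1
  s := (A.T_smooth a b).mono fun _ hx => hx.1
  s' := (A.T_smooth b a).mono fun _ hx => hx.1

/-- a property that holds a.e. on the unit balls holds a.e. everywhere, in some chart -/
theorem Pre.ae_cover (A : Pre E Γ) {p : A.ι → E → Prop}
    (hp : ∀ b, ∀ᵐ y, y ∈ ball (0 : E) 1 → p b y) (a : A.ι) :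
    ∀ᵐ x, x ∈ ball (0 : E) 6 → ∃ b, x ∈ A.O a b ∧ A.T a b x ∈ ball (0 : E) 1 ∧
      p b (A.T a b x) := by
  have h := fun b => (bint0_diffeo A a b).ae_comp (p := p b)
    ((hp b).mono fun y hy h1 => hy h1.2)
  filter_upwards [ae_all_iff.2 h] with x hx h6
  obtain ⟨b, h1, h2⟩ := A.cover a x h6
  exact ⟨b, h1, h2, hx b ⟨h1, h2⟩⟩

/-- a density is controlled by its integrals over the unit balls -/
theorem Pre.cov_dens (A : Pre E Γ) {F : A.ι → E → ℝ≥0∞} (a : A.ι)
    (hF : ∀ b, ∀ᵐ x, x ∈ A.O a b → F a x ≤ ENNReal.ofReal (A.jac a b x) * F b (A.T a b x)) :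
    ∫⁻ x in ball (0 : E) 6, F a x ≤ ∑ b, ∫⁻ x in ball (0 : E) 1, F b x := by
  have h1 : ball (0 : E) 6 ⊆ ⋃ b, {x | x ∈ A.O a b ∧ A.T a b x ∈ ball (0 : E) 1} := fun x hx =>
    mem_iUnion.2 (A.cover a x hx)
  refine (lintegral_mono_set h1).trans ((lintegral_iUnion_le _ _).trans ?_)
  rw [tsum_fintype]
  refine Finset.sum_le_sum fun b _ => ?_
  have hd := bint0_diffeo A a b
  refine le_trans ?_ ((hd.lintegral_comp (F b)).le.trans (lintegral_mono_set fun y hy => hy.2))
  refine lintegral_mono_ae ((ae_restrict_iff' hd.o.measurableSet).2 ?_)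
  filter_upwards [hF b] with x hx h2 using hx h2.1

/-- the integral of a density supported in one chart -/
theorem Pre.int_dens [CompleteSpace V] (A : Pre E Γ) (hU : IsOpen U) (hU6 : U ⊆ ball 0 6)
    {χ : A.ι → E → ℝ} (hχ : A.Pou U χ) {F : A.ι → E → V} (b : A.ι) {K : Set E}
    (hK : IsCompact K) (hKU : K ⊆ U) (hb : LocLp 1 U (F b))
    (hF : ∀ a, ∀ᵐ x, x ∈ A.ov U a b → F a x = A.jac a b x • F b (A.T a b x))
    (h0 : ∀ᵐ x, x ∈ U → x ∉ K → F b x = 0)
    (h1 : ∀ a, ∀ᵐ x, x ∈ U → x ∉ A.ov U a b → F a x = 0) :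
    ∑ a, ∫ x, χ a x • F a x = ∫ x in U, F b x := by
  have key : ∀ a, ∫ x, χ a x • F a x = ∫ y in U, A.ext (χ a) a b y • F b y := by
    intro a
    have hd := A.diffeo hU a b
    have z : ∀ {x}, x ∉ U → χ a x = 0 := (hχ.1 a).1.zero_of_notMem
    calc ∫ x, χ a x • F a x = ∫ x in A.ov U a b, χ a x • F a x := by
          refine (setIntegral_eq_integral_of_ae_compl_eq_zero ?_).symm
          filter_upwards [h1 a] with x hx h2
          by_cases hxU : x ∈ U
          · rw [hx hxU h2, smul_zero]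
          · rw [z hxU, zero_smul]
      _ = ∫ x in A.ov U a b, |(fderiv ℝ (A.T a b) x).det| •
            (fun y => χ a (A.T b a y) • F b y) (A.T a b x) := by
          refine setIntegral_congr_ae hd.o.measurableSet ?_
          filter_upwards [hF a] with x hx h2
          rw [hx h2, hd.l x h2, smul_comm]
          rfl
      _ = ∫ y in A.ov U b a, χ a (A.T b a y) • F b y :=
          hd.integral_comp fun y => χ a (A.T b a y) • F b y
      _ = ∫ y in A.ov U b a, A.ext (χ a) a b y • F b y :=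
          setIntegral_congr_fun hd.o'.measurableSet fun y hy => by simp only [Pre.ext, if_pos hy.1]
      _ = ∫ y in U, A.ext (χ a) a b y • F b y := by
          refine (setIntegral_eq_of_subset_of_forall_sdiff_eq_zero hU.measurableSet
            (fun y hy => hy.2.1) fun y hy => ?_).symm
          by_cases h2 : y ∈ A.O b a
          · have h3 : A.T b a y ∉ U := fun h3 => hy.2 ⟨h2, hy.1, h3⟩
            simp only [Pre.ext, if_pos h2, z h3, zero_smul]
          · simp only [Pre.ext, if_neg h2, zero_smul]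
  have hint : ∀ a, IntegrableOn (fun y => A.ext (χ a) a b y • F b y) U := by
    intro a
    have c := ((A.ext_smooth' ((hχ.1 a).1.mono hU6) a b).continuousOn).mono hU6
    refine ((hb.smul c).integrableOn le_rfl hK hKU).of_ae_sdiff_eq_zero
      hU.measurableSet.nullMeasurableSet ?_
    filter_upwards [h0] with y hy h2
    rw [hy h2.1 h2.2, smul_zero]
  simp only [key]
  rw [← integral_finsetSum _ fun a _ => hint a]
  refine setIntegral_congr_fun hU.measurableSet fun y hy => ?_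
  rw [← Finset.sum_smul, hχ.2 b y (hU6 hy), one_smul]

end Pool.Agent.PW
end
end

-- part Pool.Agent.P.MP_65ad7c_ag.BInt
section

open MeasureTheory Set Filter Topology Metric Matrix
open scoped ComplexOrder ContDiff Matrix.Norms.Frobenius RealInnerProductSpace ENNReal
open Pool.Agent.Lib.Sob

noncomputable section
namespace Pool.Agent.PW

variable {E : Type} [NormedAddCommGroup E] [InnerProductSpace ℝ E] [FiniteDimensional ℝ E]
  [MeasurableSpace E] [BorelSpace E] {r : ℕ} {U : Set E} {Γ : Type} [Group Γ]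
  {V : Type} [NormedAddCommGroup V] [NormedSpace ℝ V]

theorem bint_two : (2 : WithTop ℕ∞) ≤ ((⊤ : ℕ∞) : WithTop ℕ∞) :=
  WithTop.coe_le_coe.2 (le_top : (2 : ℕ∞) ≤ ⊤)

set_option linter.unusedSectionVars false

theorem bint_jet {f g : E → ℝ} {x : E} (h : f =ᶠ[𝓝 x] g) :
    fderiv ℝ f x = fderiv ℝ g x ∧ fderiv ℝ (fderiv ℝ f) x = fderiv ℝ (fderiv ℝ g) x :=
  ⟨h.fderiv_eq, h.fderiv.fderiv_eq⟩

theorem bint_jet_const {f : E → ℝ} {x : E} {c : ℝ} (h : f =ᶠ[𝓝 x] fun _ => c) :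
    fderiv ℝ f x = 0 ∧ fderiv ℝ (fderiv ℝ f) x = 0 := by
  obtain ⟨h1, h2⟩ := bint_jet h
  have h3 : fderiv ℝ (fun _ : E => c) = fun _ => 0 := by
    funext y; simp
  refine ⟨by rw [h1, h3], ?_⟩
  rw [h2, h3]; simp

theorem bint_jet_sum {ι : Type} (s : Finset ι) {f : ι → E → ℝ} {x : E}
    (hf : ∀ i ∈ s, ContDiffAt ℝ 2 (f i) x) :
    fderiv ℝ (fun y => ∑ i ∈ s, f i y) x = ∑ i ∈ s, fderiv ℝ (f i) x ∧
      fderiv ℝ (fderiv ℝ fun y => ∑ i ∈ s, f i y) x = ∑ i ∈ s, fderiv ℝ (fderiv ℝ (f i)) x := by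
  have hev : ∀ᶠ y in 𝓝 x, ∀ i ∈ s, DifferentiableAt ℝ (f i) y := by
    rw [Filter.eventually_all_finset]
    intro i hi
    filter_upwards [(hf i hi).eventually (by simp)] with y hy
    exact hy.differentiableAt (by simp)
  have h1 : (fderiv ℝ fun y => ∑ i ∈ s, f i y) =ᶠ[𝓝 x] fun y => ∑ i ∈ s, fderiv ℝ (f i) y := by
    filter_upwards [hev] with y hy
    exact fderiv_fun_sum hy
  refine ⟨h1.eq_of_nhds, ?_⟩
  rw [h1.fderiv_eq]
  refine fderiv_fun_sum fun i hi => ?_
  exact ((hf i hi).fderiv_right (m := 1) (by norm_num)).differentiableAt (by simp)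

/-- an invariant density that is additive in the 2-jet of a function sums to zero over a
partition of unity -/
theorem Pre.pou_zero [CompleteSpace V] (A : Pre E Γ) (hU : IsOpen U) (hU6 : U ⊆ ball 0 6)
    {χ : A.ι → E → ℝ} (hχ : A.Pou U χ)
    (P : A.ι → E → (E →L[ℝ] ℝ) → (E →L[ℝ] E →L[ℝ] ℝ) → V)
    (hadd : ∀ a x p p' q q', P a x (p + p') (q + q') = P a x p q + P a x p' q')
    (hint : ∀ a φ, ContDiffOn ℝ ∞ φ U →
      LocLp 1 U fun x => P a x (fderiv ℝ φ x) (fderiv ℝ (fderiv ℝ φ) x))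
    (hinv : ∀ a b, ∀ᵐ x, x ∈ A.ov U a b → ∀ φ : E → ℝ, ContDiffAt ℝ 2 φ (A.T a b x) →
      P a x (fderiv ℝ (fun y => φ (A.T a b y)) x)
          (fderiv ℝ (fderiv ℝ fun y => φ (A.T a b y)) x) =
        A.jac a b x • P b (A.T a b x) (fderiv ℝ φ (A.T a b x))
          (fderiv ℝ (fderiv ℝ φ) (A.T a b x))) :
    ∑ a, ∫ x, P a x (fderiv ℝ (χ a) x) (fderiv ℝ (fderiv ℝ (χ a)) x) = 0 := by
  classical
  have hP0 : ∀ a x, P a x 0 0 = 0 := fun a x => by
    have := hadd a x 0 0 0 0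
    have e : (0 : E →L[ℝ] E →L[ℝ] ℝ) + 0 = 0 := by ext; simp
    rw [add_zero, e] at this
    exact left_eq_add.1 this
  have hPsum : ∀ a x (s : Finset A.ι) (p : A.ι → E →L[ℝ] ℝ) (q : A.ι → E →L[ℝ] E →L[ℝ] ℝ),
      P a x (∑ b ∈ s, p b) (∑ b ∈ s, q b) = ∑ b ∈ s, P a x (p b) (q b) := by
    intro a x s p q
    induction s using Finset.induction_on with
    | empty => simpa using hP0 a x
    | insert b s hb ih => rw [Finset.sum_insert hb, Finset.sum_insert hb, Finset.sum_insert hb,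
        hadd, ih]
  have ht6 : ∀ b, IsTest (ball 0 6) (χ b) := fun b => (hχ.1 b).1.mono hU6
  have hsm : ∀ b a, ContDiffOn ℝ ∞ (A.ext (χ b) b a) (ball 0 6) := fun b a =>
    A.ext_smooth' (ht6 b) b a
  set F : A.ι → A.ι → E → V := fun b a x => P a x (fderiv ℝ (A.ext (χ b) b a) x)
    (fderiv ℝ (fderiv ℝ (A.ext (χ b) b a)) x) with hFdef
  have hloc : ∀ b a, LocLp 1 U (F b a) := fun b a => hint a _ ((hsm b a).mono hU6)
  have hself : ∀ b, ∀ x ∈ ball (0 : E) 6, A.ext (χ b) b b =ᶠ[𝓝 x] χ b := by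
    intro b x hx
    filter_upwards [isOpen_ball.mem_nhds hx] with y hy
    have : y ∈ A.O b b := by rw [A.O_self]; exact hy
    simp only [Pre.ext, if_pos this, A.T_self b y hy]
  have hout : ∀ b x, x ∉ tsupport (χ b) →
      P b x (fderiv ℝ (χ b) x) (fderiv ℝ (fderiv ℝ (χ b)) x) = 0 := by
    intro b x hx
    have : χ b =ᶠ[𝓝 x] fun _ => (0 : ℝ) := notMem_tsupport_iff_eventuallyEq.1 hx
    obtain ⟨h1, h2⟩ := bint_jet_const this
    rw [h1, h2, hP0]
  have key : ∀ b, ∑ a, ∫ x, χ a x • F b a x =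
      ∫ x, P b x (fderiv ℝ (χ b) x) (fderiv ℝ (fderiv ℝ (χ b)) x) := by
    intro b
    have hK : IsCompact (tsupport (χ b)) := (hχ.1 b).1.2.1
    have hKU : tsupport (χ b) ⊆ U := (hχ.1 b).1.2.2
    have hFb : ∀ x ∈ U, F b b x = P b x (fderiv ℝ (χ b) x) (fderiv ℝ (fderiv ℝ (χ b)) x) := by
      intro x hx
      obtain ⟨h1, h2⟩ := bint_jet (hself b x (hU6 hx))
      simp only [hFdef, h1, h2]
    rw [A.int_dens hU hU6 hχ (F := F b) b hK hKU (hloc b b)]
    · rw [setIntegral_congr_fun hU.measurableSet hFb]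
      exact setIntegral_eq_integral_of_forall_compl_eq_zero fun x hx =>
        hout b x fun h => hx (hKU h)
    · intro a
      filter_upwards [hinv a b] with x hx hxo
      have hT : A.T a b x ∈ ball (0 : E) 6 := hU6 hxo.2.2
      have hc : ContDiffAt ℝ 2 (A.ext (χ b) b b) (A.T a b x) :=
        ((hsm b b).contDiffAt (isOpen_ball.mem_nhds hT)).of_le bint_two
      have hev : A.ext (χ b) b a =ᶠ[𝓝 x] fun y => A.ext (χ b) b b (A.T a b y) := by
        filter_upwards [(A.O_open a b).mem_nhds hxo.1] with y hy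
        exact (A.ext_comp (χ b) b hy).symm
      obtain ⟨h1, h2⟩ := bint_jet hev
      simp only [hFdef, h1, h2]
      exact hx hxo _ hc
    · refine Eventually.of_forall fun x hx hxK => ?_
      rw [hFb x hx]; exact hout b x hxK
    · intro a
      refine Eventually.of_forall fun x hx hxo => ?_
      have hop := A.isOpen_off b a hK (hKU.trans hU6)
      have hmem : x ∈ {x | x ∈ ball (0 : E) 6 ∧ ¬(x ∈ A.O a b ∧ A.T a b x ∈ tsupport (χ b))} :=
        ⟨hU6 hx, fun h => hxo ⟨h.1, hx, hKU h.2⟩⟩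
      have hev : A.ext (χ b) b a =ᶠ[𝓝 x] fun _ => (0 : ℝ) := by
        filter_upwards [hop.mem_nhds hmem] with y hy
        by_cases hyo : y ∈ A.O a b
        · simp only [Pre.ext, if_pos hyo]
          exact image_eq_zero_of_notMem_tsupport fun h => hy.2 ⟨hyo, h⟩
        · simp only [Pre.ext, if_neg hyo]
      obtain ⟨h1, h2⟩ := bint_jet_const hev
      simp only [hFdef, h1, h2, hP0]
  rw [← Finset.sum_congr rfl fun b _ => key b, Finset.sum_comm]
  refine Finset.sum_eq_zero fun a _ => ?_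
  have hi : ∀ b, Integrable fun x => χ a x • F b a x := fun b =>
    (hloc b a).integrable_test le_rfl (hχ.1 a).1
  rw [← integral_finsetSum _ fun b _ => hi b]
  refine integral_eq_zero_of_ae (Eventually.of_forall fun x => ?_)
  by_cases hx : x ∈ U
  · have hx6 := hU6 hx
    have hev : (fun y => ∑ b, A.ext (χ b) b a y) =ᶠ[𝓝 x] fun _ => (1 : ℝ) := by
      filter_upwards [isOpen_ball.mem_nhds hx6] with y hy
      exact hχ.2 a y hy
    obtain ⟨h1, h2⟩ := bint_jet_const hev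
    obtain ⟨h3, h4⟩ := bint_jet_sum (Finset.univ : Finset A.ι) (f := fun b => A.ext (χ b) b a)
      (x := x) fun b _ =>
        ((hsm b a).contDiffAt (isOpen_ball.mem_nhds hx6)).of_le bint_two
    show ∑ b, χ a x • F b a x = 0
    rw [← Finset.smul_sum]
    simp only [hFdef]
    rw [← hPsum, ← h3, ← h4, h1, h2, hP0, smul_zero]
  · have : χ a x = 0 := image_eq_zero_of_notMem_tsupport fun h => hx ((hχ.1 a).1.2.2 h)
    show ∑ b, χ a x • F b a x = 0
    simp [this]

end Pool.Agent.PW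
end
end

-- part Pool.Agent.P.MP_65ad7c_ag.EEn
section

open MeasureTheory Set Filter Topology Metric Matrix
open scoped ComplexOrder ContDiff Matrix.Norms.Frobenius RealInnerProductSpace ENNReal
open Pool.Agent.Lib.Sob

noncomputable section
namespace Pool.Agent.PW

variable {E : Type} [NormedAddCommGroup E] [InnerProductSpace ℝ E] [FiniteDimensional ℝ E]
  [MeasurableSpace E] [BorelSpace E] {r : ℕ} {U : Set E} {Γ : Type} [Group Γ]
  {V : Type} [NormedAddCommGroup V] [NormedSpace ℝ V]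
  {A : Atlas E Γ} {χ : A.ι → E → ℝ} {ρ : Γ →* Mat r} {H h : A.ι → E → Mat r}
  {D : A.ι → E → E →L[ℝ] Mat r} {C : ℝ}

theorem Atlas.Ref.lbd (hH : A.Ref ρ H) (a : A.ι) : LBd (ball 0 6) (H a) :=
  LBd.of_continuousOn (hH.sm a).continuousOn (hH.pos a)

theorem Atlas.Adm.lbd (hH : A.Ref ρ H) (hC : 1 ≤ C) (hh : A.Adm ρ H C h D) (a : A.ι) :
    LBd (ball 0 6) (h a) := (hH.lbd a).of_obst hC (hh.ob a)

theorem Atlas.Ref.adm (hH : A.Ref ρ H) (hC : 1 ≤ C) :
    A.Adm ρ H C H fun a => fderiv ℝ (H a) :=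
  ⟨fun a => WD.of_contDiffOn (by norm_num) isOpen_ball ((hH.sm a).of_le (by simp)),
    fun a x hx => Obst.refl (hH.pos a x hx).posSemidef hC, hH.mc⟩

/-- the energy density is locally integrable and nonnegative -/
theorem en_loc (hU : IsOpen U) {α : E → E →L[ℝ] E} (hα : Coef U α) {u : E → Mat r}
    {D : E → E →L[ℝ] Mat r} (hw : WD 2 U u D) (hb : LBd U u) :
    LocLp 1 U (fun x => en (α x) (u x) (D x)) ∧ ∀ᵐ x, x ∈ U → 0 ≤ en (α x) (u x) (D x) := by
  refine ⟨locLp_pair hα.1.continuousOn (locLp_mc hU hw hb) (locLp_mc hU hw hb), ?_⟩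
  filter_upwards [wd_herm (by norm_num) hU hw fun x hx => (hb.posDef x hx).isHermitian.eq]
    with x hx hxU
  rw [en_eq_npair (hb.posDef x hxU) (hx hxU)]
  refine npair_nonneg (hb.posDef x hxU) (hb.posDef x hxU) (hα.2 x hxU).1 (fun v => ?_) _
  rcases eq_or_ne v 0 with rfl | hv
  · simp
  · exact ((hα.2 x hxU).2 v hv).le

theorem een_term (hχ : A.Pou (ball 0 6) χ) (hH : A.Ref ρ H) (hC : 1 ≤ C)
    (hh : A.Adm ρ H C h D) (a : A.ι) :
    Integrable (fun x => χ a x * en (A.α a x) (h a x) (D a x)) ∧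
      ∀ᵐ x, 0 ≤ χ a x * en (A.α a x) (h a x) (D a x) := by
  obtain ⟨h1, h2⟩ := en_loc isOpen_ball (A.coef a) (hh.wd a) (hh.lbd hH hC a)
  refine ⟨h1.integrable_test le_rfl (hχ.1 a).1, ?_⟩
  filter_upwards [h2] with x hx
  by_cases hxU : x ∈ ball (0 : E) 6
  · exact mul_nonneg ((hχ.1 a).2 x) (hx hxU)
  · rw [(hχ.1 a).1.zero_of_notMem hxU, zero_mul]

theorem Atlas.Adm.energy_nonneg (hχ : A.Pou (ball 0 6) χ) (hH : A.Ref ρ H) (hC : 1 ≤ C)
    (hh : A.Adm ρ H C h D) : 0 ≤ A.energy χ h D :=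
  Finset.sum_nonneg fun a _ => integral_nonneg_of_ae (een_term hχ hH hC hh a).2

/-- the energy controls the energy density in every chart -/
theorem Atlas.energy_ctrl (A : Atlas E Γ) {χ : A.ι → E → ℝ} (hχ : A.Pou (ball 0 6) χ)
    (hp : ∀ a, ∀ x ∈ closedBall (0 : E) 1, 0 < χ a x) : ∃ L : ℝ, 0 ≤ L ∧
    ∀ (ρ : Γ →* Mat r) H C h D, A.Ref ρ H → 1 ≤ C → A.Adm ρ H C h D → ∀ a,
      ∫⁻ x in ball (0 : E) 6, ENNReal.ofReal (en (A.α a x) (h a x) (D a x)) ≤
        ENNReal.ofReal (L * A.energy χ h D) := by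
  have hc : ∀ b, ∃ c : ℝ, 0 < c ∧ ∀ x ∈ closedBall (0 : E) 1, c ≤ χ b x := fun b =>
    (isCompact_closedBall (0 : E) 1).exists_forall_le' (hχ.1 b).1.continuous.continuousOn (hp b)
  choose c hc0 hc using hc
  refine ⟨∑ b, (c b)⁻¹, Finset.sum_nonneg fun b _ => (inv_pos.2 (hc0 b)).le,
    fun ρ H C h D hH hC hh a => ?_⟩
  have hE := hh.energy_nonneg hχ hH hC
  refine (A.cov_dens (F := fun a x => ENNReal.ofReal (en (A.α a x) (h a x) (D a x))) a
    fun b => ?_).trans ?_
  · filter_upwards [A.en_inv isOpen_ball hh.wd hh.mc (fun a => (hh.lbd hH hC a).posDef) a b]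
      with x hx hxO
    rw [hx (by rw [A.ov_six]; exact hxO), ENNReal.ofReal_mul (p := A.jac a b x) (abs_nonneg _)]
  rw [Finset.sum_mul, ENNReal.ofReal_sum_of_nonneg fun b _ =>
    mul_nonneg (inv_pos.2 (hc0 b)).le hE]
  refine Finset.sum_le_sum fun b _ => ?_
  obtain ⟨i1, i2⟩ := een_term hχ hH hC hh b
  have h1 : ∫ x, χ b x * en (A.α b x) (h b x) (D b x) ≤ A.energy χ h D :=
    Finset.single_le_sum (f := fun a => ∫ x, χ a x * en (A.α a x) (h a x) (D a x))
      (fun a _ => integral_nonneg_of_ae (een_term hχ hH hC hh a).2) (Finset.mem_univ b)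
  calc ∫⁻ x in ball (0 : E) 1, ENNReal.ofReal (en (A.α b x) (h b x) (D b x))
      ≤ ∫⁻ x in ball (0 : E) 1, ENNReal.ofReal (c b)⁻¹ *
          ENNReal.ofReal (χ b x * en (A.α b x) (h b x) (D b x)) := by
        refine setLIntegral_mono' measurableSet_ball fun x hx => ?_
        rw [← ENNReal.ofReal_mul (inv_pos.2 (hc0 b)).le]
        rcases le_total (en (A.α b x) (h b x) (D b x)) 0 with h0 | h0
        · rw [ENNReal.ofReal_of_nonpos h0]; exact zero_le
        · refine ENNReal.ofReal_le_ofReal ?_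
          rw [le_inv_mul_iff₀ (hc0 b)]
          exact mul_le_mul_of_nonneg_right (hc b x (ball_subset_closedBall hx)) h0
    _ ≤ ∫⁻ x, ENNReal.ofReal (c b)⁻¹ * ENNReal.ofReal (χ b x * en (A.α b x) (h b x) (D b x)) :=
        setLIntegral_le_lintegral _ _
    _ = ENNReal.ofReal ((c b)⁻¹ * ∫ x, χ b x * en (A.α b x) (h b x) (D b x)) := by
        rw [lintegral_const_mul' _ _ ENNReal.ofReal_ne_top,
          ← ofReal_integral_eq_lintegral_ofReal i1 i2, ENNReal.ofReal_mul (inv_pos.2 (hc0 b)).le]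
    _ ≤ _ := ENNReal.ofReal_le_ofReal (mul_le_mul_of_nonneg_left h1 (inv_pos.2 (hc0 b)).le)

/-- the energy density controls the gradient -/
theorem n2_le_of_en {α : E → E →L[ℝ] E} (hα : Coef U α) {K : Set E} (hK : IsCompact K)
    (hKU : K ⊆ U) {B : ℝ} (hB : 1 ≤ B) : ∃ L : ℝ, 0 ≤ L ∧
    ∀ (u : E → Mat r) (D : E → E →L[ℝ] Mat r) (M : ℝ), 0 ≤ M → (∀ x ∈ K, Bd B (u x)) →
      (∀ᵐ x, x ∈ K → HermF (D x)) →
      ∫⁻ x in K, ENNReal.ofReal (en (α x) (u x) (D x)) ≤ ENNReal.ofReal M →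
      N2 K D ≤ ENNReal.ofReal (L * (1 + M)) := by
  obtain ⟨l, L0, hl, hE⟩ := hα.ell hK hKU
  have hB0 : 0 < B := by linarith
  set c : ℝ := (r * B) ^ 2 * (B ^ 2 / l) with hc
  have hc0 : 0 ≤ c := by positivity
  refine ⟨c + 1, by positivity, fun u D M hM hu hD hI => ?_⟩
  refine (ENNReal.pow_le_pow_left_iff (n := 2) (by norm_num)).1 ?_
  have e : N2 K D ^ 2 = ∫⁻ x in K, ‖D x‖ₑ ^ 2 := by
    rw [lintegral_pow_eq (n := 2) (by norm_num) D]
    simp [N2]
  rw [e, ← ENNReal.ofReal_pow (by positivity)]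
  calc ∫⁻ x in K, ‖D x‖ₑ ^ 2
      ≤ ∫⁻ x in K, ENNReal.ofReal c * ENNReal.ofReal (en (α x) (u x) (D x)) := by
        refine lintegral_mono_ae ?_
        filter_upwards [ae_restrict_of_ae hD, ae_restrict_mem hK.measurableSet] with x hx hxK
        have hp := (hu x hxK).posDef hB0
        rw [← ENNReal.ofReal_mul hc0, ← ofReal_norm, ← ENNReal.ofReal_pow (norm_nonneg _)]
        refine ENNReal.ofReal_le_ofReal ?_
        have h1 := norm_sq_le_npair hB0 (hu x hxK) (hu x hxK) hl.le (hE x hxK) (mc (u x) (D x))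
        rw [← en_eq_npair hp (hx hxK)] at h1
        have h2 : ‖D x‖ ≤ r * B * ‖mc (u x) (D x)‖ := by
          conv_lhs => rw [← lmul_mc hp (D x)]
          exact (norm_lmul_le _ _).trans
            (mul_le_mul_of_nonneg_right ((hu x hxK).norm_le hB0) (norm_nonneg _))
        have h3 : ‖mc (u x) (D x)‖ ^ 2 ≤ B ^ 2 / l * en (α x) (u x) (D x) := by
          rw [div_mul_eq_mul_div, le_div_iff₀ hl]
          linarith
        calc ‖D x‖ ^ 2 ≤ (r * B * ‖mc (u x) (D x)‖) ^ 2 := by gcongr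
          _ = (r * B) ^ 2 * ‖mc (u x) (D x)‖ ^ 2 := by ring
          _ ≤ (r * B) ^ 2 * (B ^ 2 / l * en (α x) (u x) (D x)) := by gcongr
          _ = _ := by rw [hc]; ring
    _ ≤ ENNReal.ofReal c * ENNReal.ofReal M := by
        rw [lintegral_const_mul' _ _ ENNReal.ofReal_ne_top]
        gcongr
    _ ≤ _ := by
        rw [← ENNReal.ofReal_mul hc0]
        refine ENNReal.ofReal_le_ofReal ?_
        have h1 : c ≤ (c + 1) ^ 2 := by nlinarith
        have h2 : M ≤ (1 + M) ^ 2 := by nlinarith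
        rw [mul_pow]
        exact mul_le_mul h1 h2 hM (by positivity)

theorem Atlas.energy_ref_le (A : Atlas E Γ) {χ : A.ι → E → ℝ}
    (hχ : A.Pou (closedBall 0 (9 / 2)) χ) {B : ℝ} (hB : 1 ≤ B) : ∃ M : ℝ, 0 ≤ M ∧
    ∀ H : A.ι → E → Mat r, A.RefBd B H → A.energy χ H (fun a => fderiv ℝ (H a)) ≤ M := by
  have hs : closedBall (0 : E) (9 / 2) ⊆ ball 0 6 := closedBall_subset_ball (by norm_num)
  have hB0 : 0 < B := by linarith
  choose l L hl hE using fun a => (A.coef a).ell (isCompact_closedBall (0 : E) (9 / 2)) hs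
  refine ⟨∑ a, ∫ x, χ a x * (Module.finrank ℝ E * |L a| * (r * B * B) * (r * B * B)),
    Finset.sum_nonneg fun a _ => integral_nonneg fun x =>
      mul_nonneg ((hχ.1 a).2 x) (by positivity), fun H hH => Finset.sum_le_sum fun a _ => ?_⟩
  refine (Real.le_norm_self _).trans (norm_integral_le_of_norm_le
    (((hχ.1 a).1.continuous.integrable_of_hasCompactSupport (hχ.1 a).1.2.1).mul_const _)
    (Eventually.of_forall fun x => ?_))
  by_cases hx : x ∈ closedBall (0 : E) (9 / 2)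
  · rw [norm_mul, Real.norm_of_nonneg ((hχ.1 a).2 x)]
    refine mul_le_mul_of_nonneg_left ((abs_pair_le _ _ _).trans ?_) ((hχ.1 a).2 x)
    obtain ⟨b1, b2, -⟩ := hH a x hx
    have h1 : ‖mc (H a x) (fderiv ℝ (H a) x)‖ ≤ r * B * B :=
      (norm_lmul_le _ _).trans (mul_le_mul (b1.norm_inv_le hB0) b2 (norm_nonneg _) (by positivity))
    have h2 : ‖A.α a x‖ ≤ |L a| := (hE a x hx).2.2.trans (le_abs_self _)
    gcongr
  · rw [(hχ.1 a).1.zero_of_notMem hx]
    simp

end Pool.Agent.PW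
end
end

-- part Pool.Agent.P.MP_65ad7c_ag.ELsc
section

open MeasureTheory Set Filter Topology Metric Matrix
open scoped ComplexOrder ContDiff Matrix.Norms.Frobenius RealInnerProductSpace ENNReal
open Pool.Agent.Lib.Sob

noncomputable section
namespace Pool.Agent.PW

variable {E : Type} [NormedAddCommGroup E] [InnerProductSpace ℝ E] [FiniteDimensional ℝ E]
  [MeasurableSpace E] [BorelSpace E] {r : ℕ} {U : Set E} {Γ : Type} [Group Γ]
  {V : Type} [NormedAddCommGroup V] [NormedSpace ℝ V]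

/-- abstract lower semicontinuity for a convex quadratic integrand -/
theorem elsc_abs {X : Type} [MeasurableSpace X] {μ : Measure X} {F : Type} [NormedAddCommGroup F]
    [NormedSpace ℝ F] {D : ℕ → X → F} {D' : X → F} {W : ℕ → X → F →L[ℝ] ℝ} {w : X → F →L[ℝ] ℝ}
    {e : ℕ → X → ℝ} {C M : ℝ} (hD : ∀ m, MemLp (D m) 2 μ) (hD' : MemLp D' 2 μ) (hC0 : 0 < C)
    (hC : ∀ m, eLpNorm (D m) 2 μ ≤ ENNReal.ofReal C)
    (hW : ∀ m, AEStronglyMeasurable (W m) μ) (hw : AEStronglyMeasurable w μ)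
    (hWb : ∀ m, ∀ᵐ x ∂μ, ‖W m x‖ ≤ M * ‖D' x‖) (hwb : ∀ᵐ x ∂μ, ‖w x‖ ≤ M * ‖D' x‖)
    (hlim : ∀ᵐ x ∂μ, Tendsto (fun m => W m x) atTop (𝓝 (w x)))
    (hweak : Tendsto (fun m => ∫ x, w x (D m x) ∂μ) atTop (𝓝 (∫ x, w x (D' x) ∂μ)))
    (he : ∀ m, Integrable (e m) μ)
    (hle : ∀ m, ∀ᵐ x ∂μ, 2 * W m x (D m x) - W m x (D' x) ≤ e m x) {ε : ℝ} (hε : 0 < ε) :
    ∀ᶠ m in atTop, (∫ x, w x (D' x) ∂μ) - ε ≤ ∫ x, e m x ∂μ := by
  have happ : ∀ {a : X → F →L[ℝ] ℝ} {b : X → F}, AEStronglyMeasurable a μ →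
      AEStronglyMeasurable b μ → AEStronglyMeasurable (fun x => a x (b x)) μ := fun ha hb =>
    (isBoundedBilinearMap_apply (𝕜 := ℝ) (E := F) (F := ℝ)).continuous.comp_aestronglyMeasurable
      (ha.prodMk hb)
  have hsq : ∀ m, Integrable (fun x => ‖D m x‖ ^ 2) μ := fun m =>
    (memLp_two_iff_integrable_sq_norm (hD m).1).1 (hD m)
  have hsq' : Integrable (fun x => ‖D' x‖ ^ 2) μ :=
    (memLp_two_iff_integrable_sq_norm hD'.1).1 hD'
  have hI : ∀ m, ∫ x, ‖D m x‖ ^ 2 ∂μ ≤ C ^ 2 := by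
    intro m
    have h1 := lintegral_pow_eq (μ := μ) (n := 2) (by norm_num) (D m)
    have h2 : ENNReal.ofReal (∫ x, ‖D m x‖ ^ 2 ∂μ) = ∫⁻ x, ‖D m x‖ₑ ^ 2 ∂μ := by
      rw [ofReal_integral_eq_lintegral_ofReal (hsq m)
        (Eventually.of_forall fun x => by positivity)]
      refine lintegral_congr fun x => ?_
      rw [ENNReal.ofReal_pow (norm_nonneg _), ofReal_norm]
    have h3 : ENNReal.ofReal (∫ x, ‖D m x‖ ^ 2 ∂μ) ≤ ENNReal.ofReal (C ^ 2) := by
      rw [h2, h1, ENNReal.ofReal_pow hC0.le]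
      exact pow_le_pow_left' (by exact_mod_cast hC m) 2
    exact (ENNReal.ofReal_le_ofReal_iff (by positivity)).1 h3
  set δ : ℝ := ε / (4 * C ^ 2) with hδ
  have hδ0 : 0 < δ := by positivity
  have hδC : δ * C ^ 2 = ε / 4 := by rw [hδ]; field_simp
  set G : ℕ → X → ℝ := fun m x => W m x (D' x) + δ⁻¹ * ‖W m x - w x‖ ^ 2 with hG
  have hGm : ∀ m, AEStronglyMeasurable (G m) μ := fun m =>
    (happ (hW m) hD'.1).add ((((hW m).sub hw).norm.pow 2).const_mul _)
  have hGb : ∀ m, ∀ᵐ x ∂μ, ‖G m x‖ ≤ (M + δ⁻¹ * (2 * M) ^ 2) * ‖D' x‖ ^ 2 := by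
    intro m
    filter_upwards [hWb m, hwb] with x h1 h2
    have h3 : ‖W m x (D' x)‖ ≤ M * ‖D' x‖ ^ 2 := by
      refine ((W m x).le_opNorm _).trans ?_
      have := mul_le_mul_of_nonneg_right h1 (norm_nonneg (D' x))
      nlinarith
    have h4 : ‖W m x - w x‖ ≤ 2 * M * ‖D' x‖ := (norm_sub_le _ _).trans (by linarith)
    have h5 : ‖W m x - w x‖ ^ 2 ≤ (2 * M * ‖D' x‖) ^ 2 := pow_le_pow_left₀ (norm_nonneg _) h4 2
    have h6 : ‖δ⁻¹ * ‖W m x - w x‖ ^ 2‖ ≤ δ⁻¹ * (2 * M * ‖D' x‖) ^ 2 := by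
      rw [Real.norm_of_nonneg (by positivity)]
      exact mul_le_mul_of_nonneg_left h5 (by positivity)
    refine (norm_add_le _ _).trans ((add_le_add h3 h6).trans (le_of_eq ?_))
    ring
  have hGi : ∀ m, Integrable (G m) μ := fun m => (hsq'.const_mul _).mono' (hGm m) (hGb m)
  have hGt : Tendsto (fun m => ∫ x, G m x ∂μ) atTop (𝓝 (∫ x, w x (D' x) ∂μ)) := by
    refine tendsto_integral_of_dominated_convergence _ hGm (hsq'.const_mul _) hGb ?_
    filter_upwards [hlim] with x hx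
    have h1 : Tendsto (fun m => W m x (D' x)) atTop (𝓝 (w x (D' x))) :=
      ((ContinuousLinearMap.apply ℝ ℝ (D' x)).continuous.tendsto _).comp hx
    have h2 : Tendsto (fun m => δ⁻¹ * ‖W m x - w x‖ ^ 2) atTop (𝓝 (δ⁻¹ * ‖w x - w x‖ ^ 2)) :=
      (((hx.sub_const _).norm).pow 2).const_mul _
    have := h1.add h2
    simpa using this
  have hwi : ∀ m, Integrable (fun x => w x (D m x)) μ := by
    intro m
    refine (((hsq'.const_mul (M ^ 2)).add (hsq m))).mono' (happ hw (hD m).1) ?_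
    filter_upwards [hwb] with x h1
    refine ((w x).le_opNorm _).trans ?_
    have := mul_le_mul_of_nonneg_right h1 (norm_nonneg (D m x))
    have h2 := sq_nonneg (M * ‖D' x‖ - ‖D m x‖)
    have h3 := sq_nonneg (M * ‖D' x‖)
    have h4 := sq_nonneg (‖D m x‖)
    simp only [Pi.add_apply]
    nlinarith
  have hmain : ∀ m, 2 * (∫ x, w x (D m x) ∂μ) - ε / 4 - ∫ x, G m x ∂μ ≤ ∫ x, e m x ∂μ := by
    intro m
    have h1 : ∫ x, (2 * w x (D m x) - δ * ‖D m x‖ ^ 2 - G m x) ∂μ ≤ ∫ x, e m x ∂μ := by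
      refine integral_mono_ae
        ((((hwi m).const_mul 2).sub ((hsq m).const_mul δ)).sub (hGi m)) (he m) ?_
      filter_upwards [hle m] with x hx
      have h2 : ‖(W m x - w x) (D m x)‖ ≤ ‖W m x - w x‖ * ‖D m x‖ := (W m x - w x).le_opNorm _
      have h3 : -(‖W m x - w x‖ * ‖D m x‖) ≤ W m x (D m x) - w x (D m x) := by
        have := (abs_le.1 h2).1
        simpa using this
      have h4 : 2 * (‖W m x - w x‖ * ‖D m x‖) ≤
          δ * ‖D m x‖ ^ 2 + δ⁻¹ * ‖W m x - w x‖ ^ 2 := by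
        have h5 : 0 ≤ δ⁻¹ * (δ * ‖D m x‖ - ‖W m x - w x‖) ^ 2 := by positivity
        have h6 : δ⁻¹ * (δ * ‖D m x‖ - ‖W m x - w x‖) ^ 2 = δ * ‖D m x‖ ^ 2 +
            δ⁻¹ * ‖W m x - w x‖ ^ 2 - 2 * (‖W m x - w x‖ * ‖D m x‖) := by
          field_simp
          ring
        linarith
      simp only [hG]
      linarith
    have h8 : Integrable (fun x => 2 * w x (D m x) - δ * ‖D m x‖ ^ 2) μ :=
      ((hwi m).const_mul 2).sub ((hsq m).const_mul δ)
    rw [integral_sub h8 (hGi m),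
      integral_sub ((hwi m).const_mul 2) ((hsq m).const_mul δ), integral_const_mul,
      integral_const_mul] at h1
    have h7 := mul_le_mul_of_nonneg_left (hI m) hδ0.le
    linarith
  have e1 := hweak.eventually (lt_mem_nhds (show (∫ x, w x (D' x) ∂μ) - ε / 4 <
    ∫ x, w x (D' x) ∂μ by linarith))
  have e2 := hGt.eventually (gt_mem_nhds (show (∫ x, w x (D' x) ∂μ) <
    (∫ x, w x (D' x) ∂μ) + ε / 4 by linarith))
  filter_upwards [e1, e2] with m h1 h2
  have := hmain m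
  linarith

section gen
omit [MeasurableSpace E] [BorelSpace E]
variable {R : Type} [NormedRing R] [NormedAlgebra ℝ R]

/-- the form `(X, Y) ↦ ∑ τ (Q X Q Y)` -/
def elsc_q (τ : R →L[ℝ] ℝ) (α : E →L[ℝ] E) (Q : R) (Y X : E →L[ℝ] R) : ℝ :=
  ∑ p, τ (Q * X (ob E p) * (Q * Y (α (ob E p))))

/-- the same as a functional -/
def elsc_b (τ : R →L[ℝ] ℝ) (α : E →L[ℝ] E) (Q : R) (Y : E →L[ℝ] R) : (E →L[ℝ] R) →L[ℝ] ℝ :=
  ∑ p, τ.comp (((ContinuousLinearMap.mul ℝ R).flip (Q * Y (α (ob E p)))).comp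
    ((ContinuousLinearMap.mul ℝ R Q).comp (ContinuousLinearMap.apply ℝ R (ob E p))))

theorem elsc_b_apply (τ : R →L[ℝ] ℝ) (α : E →L[ℝ] E) (Q : R) (Y X : E →L[ℝ] R) :
    elsc_b τ α Q Y X = elsc_q τ α Q Y X := by
  simp [elsc_b, elsc_q]

set_option maxSynthPendingDepth 3 in
theorem elsc_b_cont (τ : R →L[ℝ] ℝ) :
    Continuous fun z : ℝ × (E →L[ℝ] E) × R × (E →L[ℝ] R) =>
      z.1 • elsc_b τ z.2.1 z.2.2.1 z.2.2.2 := by
  refine continuous_fst.smul ?_
  unfold elsc_b
  refine continuous_finsetSum _ fun p _ => continuous_const.clm_comp ?_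
  have hQ : Continuous fun z : ℝ × (E →L[ℝ] E) × R × (E →L[ℝ] R) => z.2.2.1 :=
    continuous_fst.comp (continuous_snd.comp continuous_snd)
  have hY : Continuous fun z : ℝ × (E →L[ℝ] E) × R × (E →L[ℝ] R) =>
      z.2.2.2 (z.2.1 (ob E p)) :=
    (continuous_snd.comp (continuous_snd.comp continuous_snd)).clm_apply
      ((continuous_fst.comp continuous_snd).clm_apply continuous_const)
  refine Continuous.clm_comp ?_ (Continuous.clm_comp ?_ continuous_const)
  · exact (ContinuousLinearMap.mul ℝ R).flip.continuous.comp (hQ.mul hY)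
  · exact (ContinuousLinearMap.mul ℝ R).continuous.comp hQ

theorem elsc_b_norm (τ : R →L[ℝ] ℝ) (α : E →L[ℝ] E) (Q : R) (Y : E →L[ℝ] R) :
    ‖elsc_b τ α Q Y‖ ≤ Module.finrank ℝ E * (‖τ‖ * ‖α‖ * ‖Q‖ ^ 2) * ‖Y‖ := by
  refine ContinuousLinearMap.opNorm_le_bound _ (by positivity) fun X => ?_
  rw [elsc_b_apply, elsc_q]
  refine (norm_sum_le _ _).trans ?_
  have h : ∀ p, ‖τ (Q * X (ob E p) * (Q * Y (α (ob E p))))‖ ≤
      ‖τ‖ * ‖α‖ * ‖Q‖ ^ 2 * ‖Y‖ * ‖X‖ := by
    intro p
    have h0 : ‖ob E p‖ = 1 := (ob E).orthonormal.1 p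
    have h1 : ‖X (ob E p)‖ ≤ ‖X‖ := by simpa [h0] using X.le_opNorm (ob E p)
    have h2 : ‖α (ob E p)‖ ≤ ‖α‖ := by simpa [h0] using α.le_opNorm (ob E p)
    have h3 : ‖Y (α (ob E p))‖ ≤ ‖Y‖ * ‖α‖ :=
      (Y.le_opNorm _).trans (mul_le_mul_of_nonneg_left h2 (norm_nonneg _))
    calc ‖τ (Q * X (ob E p) * (Q * Y (α (ob E p))))‖
        ≤ ‖τ‖ * ‖Q * X (ob E p) * (Q * Y (α (ob E p)))‖ := τ.le_opNorm _
      _ ≤ ‖τ‖ * ((‖Q‖ * ‖X (ob E p)‖) * (‖Q‖ * ‖Y (α (ob E p))‖)) := by
          gcongr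
          refine (norm_mul_le _ _).trans ?_
          gcongr <;> exact norm_mul_le _ _
      _ ≤ ‖τ‖ * ((‖Q‖ * ‖X‖) * (‖Q‖ * (‖Y‖ * ‖α‖))) := by gcongr
      _ = _ := by ring
  refine (Finset.sum_le_sum fun p _ => h p).trans (le_of_eq ?_)
  simp only [Finset.sum_const, Finset.card_univ, Fintype.card_fin, nsmul_eq_mul]
  ring

set_option maxSynthPendingDepth 3 in
theorem elsc_gen {X : Type} [MeasurableSpace X] {μ : Measure X} (τ : R →L[ℝ] ℝ) {χ : X → ℝ}
    {α : X → E →L[ℝ] E} {Q : ℕ → X → R} {Q' : X → R} {D : ℕ → X → E →L[ℝ] R}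
    {D' : X → E →L[ℝ] R} {e : ℕ → X → ℝ} {C c L B : ℝ}
    (hD : ∀ m, MemLp (D m) 2 μ) (hD' : MemLp D' 2 μ) (hC0 : 0 < C)
    (hC : ∀ m, eLpNorm (D m) 2 μ ≤ ENNReal.ofReal C)
    (mχ : AEStronglyMeasurable χ μ) (mα : AEStronglyMeasurable α μ)
    (mQ : ∀ m, AEStronglyMeasurable (Q m) μ) (mQ' : AEStronglyMeasurable Q' μ)
    (bχ : ∀ᵐ x ∂μ, ‖χ x‖ ≤ c) (bα : ∀ᵐ x ∂μ, ‖α x‖ ≤ L) (bQ : ∀ m, ∀ᵐ x ∂μ, ‖Q m x‖ ≤ B)
    (bQ' : ∀ᵐ x ∂μ, ‖Q' x‖ ≤ B)
    (hlim : ∀ᵐ x ∂μ, Tendsto (fun m => Q m x) atTop (𝓝 (Q' x)))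
    (hweak : ∀ w : X → (E →L[ℝ] R) →L[ℝ] ℝ, MemLp w 2 μ →
      Tendsto (fun m => ∫ x, w x (D m x) ∂μ) atTop (𝓝 (∫ x, w x (D' x) ∂μ)))
    (he : ∀ m, Integrable (e m) μ)
    (hle : ∀ m, ∀ᵐ x ∂μ, 2 * (χ x * elsc_q τ (α x) (Q m x) (D' x) (D m x)) -
      χ x * elsc_q τ (α x) (Q m x) (D' x) (D' x) ≤ e m x) {ε : ℝ} (hε : 0 < ε) :
    ∀ᶠ m in atTop, (∫ x, χ x * elsc_q τ (α x) (Q' x) (D' x) (D' x) ∂μ) - ε ≤ ∫ x, e m x ∂μ := by
  have hmeas : ∀ {P : X → R}, AEStronglyMeasurable P μ →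
      AEStronglyMeasurable (fun x => χ x • elsc_b τ (α x) (P x) (D' x)) μ :=
    fun hP => (elsc_b_cont τ).comp_aestronglyMeasurable (mχ.prodMk (mα.prodMk (hP.prodMk hD'.1)))
  have hbd : ∀ {P : X → R}, (∀ᵐ x ∂μ, ‖P x‖ ≤ B) → ∀ᵐ x ∂μ,
      ‖χ x • elsc_b τ (α x) (P x) (D' x)‖ ≤
        c * (Module.finrank ℝ E * (‖τ‖ * L * B ^ 2)) * ‖D' x‖ := by
    intro P hP
    filter_upwards [hP, bα, bχ] with x h1 h2 h3
    have h4 : 0 ≤ L := (norm_nonneg _).trans h2
    have h5 : 0 ≤ c := (norm_nonneg _).trans h3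
    rw [norm_smul]
    calc ‖χ x‖ * ‖elsc_b τ (α x) (P x) (D' x)‖
        ≤ c * (Module.finrank ℝ E * (‖τ‖ * ‖α x‖ * ‖P x‖ ^ 2) * ‖D' x‖) :=
          mul_le_mul h3 (elsc_b_norm _ _ _ _) (norm_nonneg _) h5
      _ ≤ c * (Module.finrank ℝ E * (‖τ‖ * L * B ^ 2) * ‖D' x‖) := by gcongr
      _ = _ := by ring
  have key := elsc_abs (μ := μ) (D := D) (D' := D')
    (W := fun m x => χ x • elsc_b τ (α x) (Q m x) (D' x))
    (w := fun x => χ x • elsc_b τ (α x) (Q' x) (D' x)) (e := e) hD hD' hC0 hC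
    (fun m => hmeas (mQ m)) (hmeas mQ') (fun m => hbd (bQ m)) (hbd bQ') ?_
    (hweak _ (hD'.of_le_mul (hmeas mQ') (hbd bQ'))) he ?_ hε
  · simpa only [_root_.smul_apply, smul_eq_mul, elsc_b_apply] using key
  · filter_upwards [hlim] with x h2
    exact ((elsc_b_cont τ).tendsto (χ x, α x, Q' x, D' x)).comp
      (tendsto_const_nhds.prodMk_nhds (tendsto_const_nhds.prodMk_nhds
        (h2.prodMk_nhds tendsto_const_nhds)))
  · simpa only [_root_.smul_apply, smul_eq_mul, elsc_b_apply] using hle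

theorem elsc_pt {α : E →L[ℝ] E} {h : Mat r} (hh : h.PosDef) (hα : ∀ v w, ⟪α v, w⟫ = ⟪v, α w⟫)
    (hp : ∀ v, 0 ≤ ⟪v, α v⟫) {D D' : E →L[ℝ] Mat r} (hD : HermF D) (hD' : HermF D') :
    2 * pair α (mc h D) (mc h D') - pair α (mc h D') (mc h D') ≤ en α h D := by
  have hs : HermF (D - D') := fun v => by
    simp only [_root_.sub_apply, conjTranspose_sub, hD v, hD' v]
  have h0 : 0 ≤ en α h (D - D') := by
    rw [en_eq_npair hh hs]
    exact npair_nonneg hh hh hα hp _
  have h1 : en α h (D - D') = en α h D - pair α (mc h D) (mc h D') -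
      (pair α (mc h D') (mc h D) - pair α (mc h D') (mc h D')) := by
    simp only [en, pair, mc, lmul_apply, _root_.sub_apply, Matrix.mul_sub,
      Matrix.sub_mul, trace_sub, Complex.sub_re, Finset.sum_sub_distrib]
    ring
  rw [pair_comm hα (mc h D') (mc h D)] at h1
  linarith

end gen

theorem elsc_inv (hU : IsOpen U) {u : E → Mat r} {D : E → E →L[ℝ] Mat r} (hw : WD 2 U u D)
    (hb : LBd U u) : LocLp 2 U fun x => (u x)⁻¹ := by
  refine (wd_inv hU hw fun K hK hKU => ?_).1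
  obtain ⟨C, hC, hx⟩ := hb K hK hKU
  have hC0 : 0 < C := by linarith
  exact ⟨r * C, fun x h => ⟨(isUnit_iff_isUnit_det _).1 ((hx x h).posDef hC0).isUnit,
    (hx x h).norm_le hC0, (hx x h).norm_inv_le hC0⟩⟩

/-- lower semicontinuity of the local energy -/
theorem lsc_local (hU : IsOpen U) {χ : E → ℝ} (hχ : IsTest U χ) (h0 : ∀ x, 0 ≤ χ x)
    {α : E → E →L[ℝ] E} (hα : Coef U α) {u : ℕ → E → Mat r} {D : ℕ → E → E →L[ℝ] Mat r}
    {v : E → Mat r} {D' : E → E →L[ℝ] Mat r} (hw : ∀ m, WD 2 U (u m) (D m)) (hv : WD 2 U v D')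
    (hb : ∀ K, IsCompact K → K ⊆ U → ∃ C : ℝ, 1 ≤ C ∧ (∀ x ∈ K, Bd C (v x)) ∧
      ∀ m, (∀ x ∈ K, Bd C (u m x)) ∧ N2 K (D m) ≤ ENNReal.ofReal C)
    (hae : ∀ᵐ x, x ∈ U → Tendsto (fun m => u m x) atTop (𝓝 (v x)))
    (hweak : ∀ K, IsCompact K → K ⊆ U → ∀ w : E → (E →L[ℝ] Mat r) →L[ℝ] ℝ,
      MemLp w 2 (volume.restrict K) →
      Tendsto (fun m => ∫ x in K, w x (D m x)) atTop (𝓝 (∫ x in K, w x (D' x))))
    {ε : ℝ} (hε : 0 < ε) :
    ∀ᶠ m in atTop, (∫ x, χ x * en (α x) (v x) (D' x)) - ε ≤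
      ∫ x, χ x * en (α x) (u m x) (D m x) := by
  have hK : IsCompact (tsupport χ) := hχ.2.1
  have hKU : tsupport χ ⊆ U := hχ.2.2
  set K := tsupport χ with hKdef
  have hKm : MeasurableSet K := hK.measurableSet
  have hres : ∀ f : E → ℝ, ∫ x, χ x * f x = ∫ x in K, χ x * f x := fun f =>
    (setIntegral_eq_integral_of_forall_compl_eq_zero fun x hx => by
      rw [image_eq_zero_of_notMem_tsupport hx, zero_mul]).symm
  have bu : ∀ m, LBd U (u m) := fun m K' h1 h2 => by
    obtain ⟨C, hC, -, h⟩ := hb K' h1 h2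
    exact ⟨C, hC, (h m).1⟩
  have bv : LBd U v := fun K' h1 h2 => by
    obtain ⟨C, hC, h, -⟩ := hb K' h1 h2
    exact ⟨C, hC, h⟩
  obtain ⟨C, hC, hCv, hCu⟩ := hb K hK hKU
  have hC0 : 0 < C := by linarith
  have hαK : ContinuousOn α K := hα.1.continuousOn.mono hKU
  obtain ⟨L, hL⟩ := hK.exists_bound_of_continuousOn hαK
  obtain ⟨c, hc⟩ := hK.exists_bound_of_continuousOn hχ.continuous.continuousOn
  have hD' : MemLp D' 2 (volume.restrict K) := by exact_mod_cast hv.2.1 K hK hKU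
  have hD : ∀ m, MemLp (D m) 2 (volume.restrict K) := fun m => by
    exact_mod_cast (hw m).2.1 K hK hKU
  have key := elsc_gen (μ := volume.restrict K) (R := Mat r) (trL r) (χ := χ) (α := α)
    (Q := fun m x => (u m x)⁻¹) (Q' := fun x => (v x)⁻¹) (D := D) (D' := D')
    (e := fun m x => χ x * en (α x) (u m x) (D m x)) (c := c) (L := L) (B := r * C)
    hD hD' hC0 (fun m => (hCu m).2) hχ.continuous.aestronglyMeasurable
    (hαK.aestronglyMeasurable_of_isCompact hK hKm)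
    (fun m => (elsc_inv hU (hw m) (bu m) K hK hKU).1) (elsc_inv hU hv bv K hK hKU).1
    ((ae_restrict_mem hKm).mono hc) ((ae_restrict_mem hKm).mono hL)
    (fun m => (ae_restrict_mem hKm).mono fun x hx => ((hCu m).1 x hx).norm_inv_le hC0)
    ((ae_restrict_mem hKm).mono fun x hx => (hCv x hx).norm_inv_le hC0) ?_
    (hweak K hK hKU) ?_ ?_ hε
  · filter_upwards [key] with m hm
    rw [hres, hres]
    exact hm
  · filter_upwards [ae_restrict_mem hKm, ae_restrict_of_ae hae] with x hx h1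
    have hu : IsUnit (v x).det := (isUnit_iff_isUnit_det _).1 ((hCv x hx).posDef hC0).isUnit
    have hi : ContinuousAt (fun A : Mat r => A⁻¹) (v x) := by
      refine continuousAt_matrix_inv _ ?_
      obtain ⟨a, ha⟩ := hu
      rw [← ha]
      exact NormedRing.inverse_continuousAt a
    exact hi.tendsto.comp (h1 (hKU hx))
  · intro m
    have h1 := ((en_loc hU hα (hw m) (bu m)).1.integrableOn le_rfl hK hKU)
    refine Integrable.bdd_mul (c := c) h1 hχ.continuous.aestronglyMeasurable ?_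
    filter_upwards [ae_restrict_mem hKm] with x hx using hc x hx
  · intro m
    have a1 := wd_herm (by norm_num) hU (hw m) fun x hx => ((bu m).posDef x hx).isHermitian
    have a2 := wd_herm (by norm_num) hU hv fun x hx => (bv.posDef x hx).isHermitian
    filter_upwards [ae_restrict_mem hKm, ae_restrict_of_ae a1, ae_restrict_of_ae a2] with
      x hx h1 h2
    have hxU := hKU hx
    have hp : ∀ w, 0 ≤ ⟪w, α x w⟫ := fun w => by
      by_cases hw0 : w = 0
      · simp [hw0]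
      · exact ((hα.2 x hxU).2 w hw0).le
    have := elsc_pt ((bu m).posDef x hxU) (hα.2 x hxU).1 hp (h1 hxU) (h2 hxU)
    have h3 := mul_le_mul_of_nonneg_left this (h0 x)
    change 2 * (χ x * pair (α x) (mc (u m x) (D m x)) (mc (u m x) (D' x))) -
      χ x * pair (α x) (mc (u m x) (D' x)) (mc (u m x) (D' x)) ≤ χ x * en (α x) (u m x) (D m x)
    linarith

end Pool.Agent.PW
end
end

-- part Pool.Agent.P.MP_65ad7c_ag.TDq
section

open MeasureTheory Set Filter Topology Metric Matrix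
open scoped ComplexOrder ContDiff Matrix.Norms.Frobenius RealInnerProductSpace ENNReal
open Pool.Agent.Lib.Sob

noncomputable section
namespace Pool.Agent.PW

variable {E : Type} [NormedAddCommGroup E] [InnerProductSpace ℝ E] [FiniteDimensional ℝ E]
  [MeasurableSpace E] [BorelSpace E] {r : ℕ} {U : Set E}
  {V W : Type} [NormedAddCommGroup V] [NormedSpace ℝ V] [NormedAddCommGroup W] [NormedSpace ℝ W]

omit [NormedSpace ℝ V] in
theorem tdq_mem {p : ℝ≥0∞} {u : E → V} {K L : Set E} (hL : MeasurableSet L) {w : E}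
    (h : ∀ x ∈ K, x + w ∈ L) (hu : MemLp u p (volume.restrict L)) :
    MemLp (fun x => u (x + w)) p (volume.restrict K) :=
  (hu.comp_measurePreserving ((measurePreserving_add_right volume w).restrict_preimage hL)).mono_measure
    (Measure.restrict_mono h le_rfl)

omit [NormedSpace ℝ V] in
theorem tdq_n2 {u : E → V} {K L : Set E} (hL : MeasurableSet L) {w : E}
    (h : ∀ x ∈ K, x + w ∈ L) (hu : AEStronglyMeasurable u (volume.restrict L)) :
    N2 K (fun x => u (x + w)) ≤ N2 L u := by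
  unfold N2
  rw [← eLpNorm_comp_measurePreserving hu
    ((measurePreserving_add_right volume w).restrict_preimage hL)]
  exact eLpNorm_mono_measure _ (Measure.restrict_mono h le_rfl)

theorem tdq_lint {K L : Set E} (hL : MeasurableSet L) {w : E} (h : ∀ x ∈ K, x + w ∈ L)
    {G : E → ℝ≥0∞} (hG : Measurable G) : ∫⁻ x in K, G (x + w) ≤ ∫⁻ x in L, G x := by
  rw [← ((measurePreserving_add_right volume w).restrict_preimage hL).lintegral_comp hG]
  exact lintegral_mono' (Measure.restrict_mono h le_rfl) le_rfl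

omit [NormedSpace ℝ V] in
theorem tdq_sq (K : Set E) (u : E → V) : ∫⁻ x in K, ‖u x‖ₑ ^ 2 = N2 K u ^ 2 := by
  rw [lintegral_pow_eq (n := 2) (by norm_num) u]
  simp [N2]

omit [NormedSpace ℝ V] in
theorem tdq_tend {K : Set E} {f : ℕ → E → V}
    (h : Tendsto (fun k => ∫⁻ x in K, ‖f k x‖ₑ ^ 2) atTop (𝓝 0)) :
    Tendsto (fun k => N2 K (f k)) atTop (𝓝 0) := by
  simp only [tdq_sq] at h
  have := h.ennrpow_const ((2 : ℝ)⁻¹)
  rw [ENNReal.zero_rpow_of_pos (by norm_num)] at this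
  refine this.congr fun k => ?_
  rw [← ENNReal.rpow_natCast, ← ENNReal.rpow_mul]
  simp

theorem wd_translate {n : ℕ} {u : E → V} {D : E → E →L[ℝ] V} (h : WD n U u D) (v : E) :
    WD n {x | x + v ∈ U} (fun x => u (x + v)) fun x => D (x + v) := by
  have hc : ∀ K : Set E, IsCompact K → IsCompact ((fun x => x + v) '' K) := fun K hK =>
    hK.image (continuous_add_const v)
  refine ⟨fun K hK hKU => ?_, fun K hK hKU => ?_, fun φ hφ e => ?_⟩
  · exact tdq_mem (hc K hK).measurableSet (fun x hx => mem_image_of_mem _ hx)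
      (h.1 _ (hc K hK) (image_subset_iff.2 hKU))
  · exact tdq_mem (hc K hK).measurableSet (fun x hx => mem_image_of_mem _ hx)
      (h.2.1 _ (hc K hK) (image_subset_iff.2 hKU))
  · have hs : tsupport (fun y => φ (y - v)) ⊆ (fun x => x + v) '' tsupport φ :=
      closure_minimal (fun y hy => ⟨y - v, subset_tsupport φ hy, sub_add_cancel y v⟩)
        (hc _ hφ.2.1.isCompact).isClosed
    have hψ : IsTest U fun y => φ (y - v) :=
      ⟨hφ.1.comp (contDiff_id.sub contDiff_const),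
        (hc _ hφ.2.1.isCompact).of_isClosed_subset (isClosed_tsupport _) hs,
        hs.trans (image_subset_iff.2 hφ.2.2)⟩
    have := h.2.2 _ hψ e
    rw [← integral_add_right_eq_self _ v,
      ← integral_add_right_eq_self (fun y => φ (y - v) • D y e) v] at this
    simpa only [fderiv_comp_sub, add_sub_cancel_right] using this

omit [FiniteDimensional ℝ E] [MeasurableSpace E] [BorelSpace E] in
theorem tdq_seg {K : Set E} {δ : ℝ} {v : E} (hv : ‖v‖ ≤ δ) {t : ℝ} (h0 : 0 ≤ t) (h1 : t ≤ 1) :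
    ∀ x ∈ K, x + t • v ∈ cthickening δ K := fun x hx =>
  mem_cthickening_of_dist_le _ x δ K hx (by
    rw [dist_self_add_left, norm_smul, Real.norm_of_nonneg h0]
    exact (mul_le_of_le_one_left (norm_nonneg _) h1).trans hv)

theorem tdq_smooth [CompleteSpace V] {w : E → V} (hw : ContDiff ℝ 1 w) {K : Set E} {δ : ℝ} {v : E}
    (hv : ‖v‖ ≤ δ) :
    N2 K (fun x => w (x + v) - w x) ≤ ENNReal.ofReal ‖v‖ * N2 (cthickening δ K) (fderiv ℝ w) := by
  refine (ENNReal.pow_le_pow_left_iff (n := 2) (by norm_num)).1 ?_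
  rw [mul_pow, ← tdq_sq, ← tdq_sq]
  set G : E → ℝ≥0∞ := fun x => ‖fderiv ℝ w x‖ₑ ^ 2 with hGdef
  have hG : Measurable G := (hw.continuous_fderiv one_ne_zero).enorm.measurable.pow_const 2
  calc ∫⁻ x in K, ‖w (x + v) - w x‖ₑ ^ 2
      ≤ ∫⁻ x in K, ENNReal.ofReal ‖v‖ ^ 2 * ∫⁻ t in Ioc (0 : ℝ) 1, G (x + t • v) := by
        refine lintegral_mono fun x => ?_
        have := enorm_sub_pow_le_segment (n := 2) (by norm_num) hw (x + v) x
        simpa only [add_sub_cancel_left, ofReal_norm] using this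
    _ = ENNReal.ofReal ‖v‖ ^ 2 * ∫⁻ t in Ioc (0 : ℝ) 1, ∫⁻ x in K, G (x + t • v) := by
        rw [lintegral_const_mul' _ _ (by simp),
          lintegral_lintegral_swap (f := fun x (t : ℝ) => G (x + t • v))
            (hG.comp (show Measurable fun z : E × ℝ => z.1 + z.2 • v by fun_prop)).aemeasurable]
    _ ≤ _ := by
        gcongr
        refine (setLIntegral_mono' measurableSet_Ioc fun t ht =>
          tdq_lint isClosed_cthickening.measurableSet (tdq_seg hv ht.1.le ht.2) hG).trans ?_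
        simp [hGdef]

omit [NormedSpace ℝ V] in
theorem tdq_add {K : Set E} {f g : E → V} (hf : AEStronglyMeasurable f (volume.restrict K))
    (hg : AEStronglyMeasurable g (volume.restrict K)) :
    N2 K (fun x => f x + g x) ≤ N2 K f + N2 K g :=
  eLpNorm_add_le hf hg (by norm_num)

omit [NormedSpace ℝ V] in
theorem tdq_sub {K : Set E} {f g : E → V} (hf : AEStronglyMeasurable f (volume.restrict K))
    (hg : AEStronglyMeasurable g (volume.restrict K)) :
    N2 K (fun x => f x - g x) ≤ N2 K f + N2 K g :=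
  eLpNorm_sub_le hf hg (by norm_num)

theorem dq_le [CompleteSpace V] (hU : IsOpen U) {u : E → V} {D : E → E →L[ℝ] V} (h : WD 2 U u D)
    {K : Set E} (hK : IsCompact K) {δ : ℝ} (hδ : cthickening δ K ⊆ U) {v : E} (hv : ‖v‖ ≤ δ) :
    N2 K (fun x => u (x + v) - u x) ≤ ENNReal.ofReal ‖v‖ * N2 (cthickening δ K) D := by
  have hK' : IsCompact (cthickening δ K) := hK.cthickening
  have hm : MeasurableSet (cthickening δ K) := hK'.measurableSet
  obtain ⟨w, sw, -, t1, t2⟩ := h.approx (by norm_num) hU hK' hδ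
  have a1 := tdq_tend t1
  have a2 := tdq_tend t2
  have hx1 : ∀ x ∈ K, x + v ∈ cthickening δ K := by
    simpa using tdq_seg (K := K) hv zero_le_one le_rfl
  have hx0 : volume.restrict K ≤ volume.restrict (cthickening δ K) :=
    Measure.restrict_mono (self_subset_cthickening K) le_rfl
  have mu := (h.1 _ hK' hδ).1
  have mD := (h.2.1 _ hK' hδ).1
  have lim : Tendsto (fun k => ENNReal.ofReal ‖v‖ *
      (N2 (cthickening δ K) (fun x => fderiv ℝ (w k) x - D x) + N2 (cthickening δ K) D) +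
      (N2 (cthickening δ K) (fun x => w k x - u x) + N2 (cthickening δ K) (fun x => w k x - u x)))
      atTop (𝓝 (ENNReal.ofReal ‖v‖ * (0 + N2 (cthickening δ K) D) + (0 + 0))) :=
    (ENNReal.Tendsto.const_mul (a2.add tendsto_const_nhds) (Or.inr ENNReal.ofReal_ne_top)).add
      (a1.add a1)
  simp only [zero_add, add_zero] at lim
  refine ge_of_tendsto' lim fun k => ?_
  have cw := (sw k).continuous
  have cD : Continuous (fderiv ℝ (w k)) := (sw k).continuous_fderiv (by simp)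
  have m1 : AEStronglyMeasurable (fun x => w k x - u x) (volume.restrict (cthickening δ K)) :=
    cw.aestronglyMeasurable.sub mu
  have m2 : AEStronglyMeasurable (fun x => w k (x + v) - u (x + v)) (volume.restrict K) :=
    (cw.comp (continuous_add_const v)).aestronglyMeasurable.sub
      (tdq_mem hm hx1 (h.1 _ hK' hδ)).1
  have e : (fun x => u (x + v) - u x) = fun x => (w k (x + v) - w k x) +
      ((w k x - u x) - (w k (x + v) - u (x + v))) := by
    funext x; abel
  rw [e]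
  refine (tdq_add ((cw.comp (continuous_add_const v)).sub cw).aestronglyMeasurable
    ((m1.mono_measure hx0).sub m2)).trans (add_le_add ?_ ?_)
  · refine (tdq_smooth ((sw k).of_le (by simp)) hv).trans ?_
    gcongr
    have := tdq_add (f := fun x => fderiv ℝ (w k) x - D x) (cD.aestronglyMeasurable.sub mD) mD
    simp only [sub_add_cancel] at this
    exact this
  · exact (tdq_sub (m1.mono_measure hx0) m2).trans (add_le_add (eLpNorm_mono_measure _ hx0)
      (tdq_n2 (u := fun x => w k x - u x) hm hx1 m1))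

omit [MeasurableSpace E] [BorelSpace E] in
theorem tdq_unif {w : E → V} (hw : ContDiff ℝ 1 w) {K : Set E} (hK : IsCompact K) (e : E) {η : ℝ}
    (hη : 0 < η) : ∀ᶠ s in 𝓝[>] (0 : ℝ), ∀ x ∈ K,
      ‖s⁻¹ • (w (x + s • e) - w x) - fderiv ℝ w x e‖ ≤ η * ‖e‖ := by
  have hK' : IsCompact (cthickening 1 K) := hK.cthickening
  obtain ⟨ρ, hρ, hu⟩ := Metric.uniformContinuousOn_iff.1
    (hK'.uniformContinuousOn_of_continuous (hw.continuous_fderiv one_ne_zero).continuousOn) η hη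
  have ht : Tendsto (fun s : ℝ => ‖s • e‖) (𝓝[>] 0) (𝓝 0) := by
    have : Continuous fun s : ℝ => ‖s • e‖ := by fun_prop
    simpa using (this.tendsto 0).mono_left nhdsWithin_le_nhds
  filter_upwards [ht.eventually (eventually_le_nhds (lt_min (half_pos hρ) one_pos)),
    self_mem_nhdsWithin] with s hs hs0 x hx
  have hs0' : 0 < s := hs0
  have := (convex_closedBall x (min (ρ / 2) 1)).norm_image_sub_le_of_norm_fderiv_le'
    (𝕜 := ℝ) (f := w) (φ := fderiv ℝ w x) (C := η) (x := x) (y := x + s • e)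
    (fun y _ => hw.differentiable one_ne_zero y)
    (fun y hy => by
      have hy' : dist y x ≤ min (ρ / 2) 1 := hy
      have := hu y (mem_cthickening_of_dist_le y x 1 K hx (hy'.trans (min_le_right _ _))) x
        (self_subset_cthickening K hx) (by linarith [min_le_left (ρ / 2) 1])
      rw [dist_eq_norm] at this
      exact this.le)
    (mem_closedBall_self (lt_min (half_pos hρ) one_pos).le)
    (by rw [mem_closedBall, dist_self_add_left]; exact hs)
  rw [add_sub_cancel_left, norm_smul, Real.norm_of_nonneg hs0'.le, map_smul] at this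
  have e1 : s⁻¹ • (w (x + s • e) - w x) - fderiv ℝ w x e =
      s⁻¹ • (w (x + s • e) - w x - s • fderiv ℝ w x e) := by
    rw [smul_sub s⁻¹ _ (s • _), inv_smul_smul₀ hs0'.ne']
  rw [e1, norm_smul, norm_inv, Real.norm_of_nonneg hs0'.le, inv_mul_le_iff₀ hs0']
  linarith

theorem dq_tendsto [CompleteSpace V] (hU : IsOpen U) {u : E → V} {D : E → E →L[ℝ] V}
    (h : WD 2 U u D) {K : Set E} (hK : IsCompact K) (hKU : K ⊆ U) (e : E) :
    Tendsto (fun s : ℝ => N2 K fun x => s⁻¹ • (u (x + s • e) - u x) - D x e) (𝓝[>] 0) (𝓝 0) := by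
  obtain ⟨δ, hδ, hδU⟩ := hK.exists_cthickening_subset_open hU hKU
  have hK' : IsCompact (cthickening δ K) := hK.cthickening
  have hm : MeasurableSet (cthickening δ K) := hK'.measurableSet
  obtain ⟨w, sw, -, -, t2⟩ := h.approx (by norm_num) hU hK' hδU
  have a2 := tdq_tend t2
  have hx0 : volume.restrict K ≤ volume.restrict (cthickening δ K) :=
    Measure.restrict_mono (self_subset_cthickening K) le_rfl
  set A : ℝ≥0∞ := volume.restrict K univ ^ (2 : ℝ≥0∞).toReal⁻¹ with hA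
  have hA' : A ≠ ⊤ := ENNReal.rpow_ne_top_of_nonneg (by simp) (by simpa using hK.measure_lt_top.ne)
  have lim : Tendsto (fun η : ℝ => ENNReal.ofReal ‖e‖ * ENNReal.ofReal η +
      (A * ENNReal.ofReal (η * ‖e‖) + ENNReal.ofReal ‖e‖ * ENNReal.ofReal η)) (𝓝[>] 0) (𝓝 0) := by
    have l1 : Tendsto (fun η : ℝ => ENNReal.ofReal η) (𝓝[>] 0) (𝓝 0) := by
      simpa using (ENNReal.continuous_ofReal.tendsto 0).mono_left nhdsWithin_le_nhds
    have l2 : Tendsto (fun η : ℝ => ENNReal.ofReal (η * ‖e‖)) (𝓝[>] 0) (𝓝 0) := by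
      have : Continuous fun η : ℝ => ENNReal.ofReal (η * ‖e‖) :=
        ENNReal.continuous_ofReal.comp (by fun_prop)
      simpa using (this.tendsto 0).mono_left nhdsWithin_le_nhds
    have l3 := ENNReal.Tendsto.const_mul (a := ENNReal.ofReal ‖e‖) l1 (Or.inr ENNReal.ofReal_ne_top)
    simpa using l3.add ((ENNReal.Tendsto.const_mul l2 (Or.inr hA')).add l3)
  refine ENNReal.tendsto_nhds_zero.2 fun ε hε => ?_
  obtain ⟨η, hηε, hη⟩ := ((ENNReal.tendsto_nhds_zero.1 lim ε hε).and self_mem_nhdsWithin).exists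
  have hη0 : 0 < η := hη
  obtain ⟨k, hk⟩ := (ENNReal.tendsto_nhds_zero.1 a2 _ (ENNReal.ofReal_pos.2 hη0)).exists
  have w1 : ContDiff ℝ 1 (w k) := (sw k).of_le (by simp)
  have cw := w1.continuous
  have cD : Continuous (fderiv ℝ (w k)) := w1.continuous_fderiv one_ne_zero
  have hd : WD 2 U (fun x => w k x - u x) fun x => fderiv ℝ (w k) x - D x :=
    (WD.of_contDiff (by norm_num) w1).sub (by norm_num) h
  have ht : Tendsto (fun s : ℝ => ‖s • e‖) (𝓝[>] 0) (𝓝 0) := by
    have : Continuous fun s : ℝ => ‖s • e‖ := by fun_prop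
    simpa using (this.tendsto 0).mono_left nhdsWithin_le_nhds
  filter_upwards [ht.eventually (eventually_le_nhds hδ), tdq_unif w1 hK e hη0,
    self_mem_nhdsWithin] with s hs hu hs0
  have hs0' : 0 < s := hs0
  refine le_trans ?_ hηε
  have hx1 : ∀ x ∈ K, x + s • e ∈ cthickening δ K := by
    simpa using tdq_seg (K := K) hs zero_le_one le_rfl
  have m1 : AEStronglyMeasurable (fun x => (fderiv ℝ (w k) x - D x) e) (volume.restrict K) :=
    ((hd.2.1.apply e) K hK hKU).1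
  have m2 : AEStronglyMeasurable (fun x => s⁻¹ • (w k (x + s • e) - w k x) - fderiv ℝ (w k) x e)
      (volume.restrict K) := Continuous.aestronglyMeasurable (by fun_prop)
  have m3 : AEStronglyMeasurable (fun x => s⁻¹ • ((w k (x + s • e) - u (x + s • e)) - (w k x - u x)))
      (volume.restrict K) :=
    ((tdq_mem (u := fun x => w k x - u x) hm hx1 (hd.1 _ hK' hδU)).1.sub
      (hd.1 K hK hKU).1).const_smul s⁻¹
  have e1 : (fun x => s⁻¹ • (u (x + s • e) - u x) - D x e) = fun x =>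
      (fderiv ℝ (w k) x - D x) e + ((s⁻¹ • (w k (x + s • e) - w k x) - fderiv ℝ (w k) x e) -
        s⁻¹ • ((w k (x + s • e) - u (x + s • e)) - (w k x - u x))) := by
    funext x
    simp only [_root_.sub_apply, smul_sub]
    abel
  rw [e1]
  refine (tdq_add m1 (m2.sub m3)).trans (add_le_add ?_ ((tdq_sub m2 m3).trans (add_le_add ?_ ?_)))
  · refine (eLpNorm_le_mul_eLpNorm_of_ae_le_mul (g := fun x => fderiv ℝ (w k) x - D x) (c := ‖e‖)
      (Eventually.of_forall fun x => ?_) 2).trans ?_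
    · rw [mul_comm]; exact ContinuousLinearMap.le_opNorm _ _
    · gcongr
      exact (eLpNorm_mono_measure _ hx0).trans hk
  · exact eLpNorm_le_of_ae_bound ((ae_restrict_mem hK.measurableSet).mono hu)
  · have h1 := dq_le hU hd hK hδU hs
    refine (eLpNorm_le_mul_eLpNorm_of_ae_le_mul (c := s⁻¹)
      (g := fun x => (w k (x + s • e) - u (x + s • e)) - (w k x - u x))
      (Eventually.of_forall fun x => ?_) 2).trans ?_
    · rw [norm_smul, norm_inv, Real.norm_of_nonneg hs0'.le]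
    · refine (mul_le_mul_right h1 _).trans ?_
      rw [← mul_assoc, ← ENNReal.ofReal_mul (inv_pos.2 hs0').le, norm_smul,
        Real.norm_of_nonneg hs0'.le, inv_mul_cancel_left₀ hs0'.ne']
      gcongr

end Pool.Agent.PW
end
end

-- part Pool.Agent.P.MP_65ad7c_ag.TRell
section

open MeasureTheory Set Filter Topology Metric Matrix
open scoped ComplexOrder ContDiff Matrix.Norms.Frobenius RealInnerProductSpace ENNReal
open Pool.Agent.Lib.Sob

noncomputable section
namespace Pool.Agent.PW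

variable {E : Type} [NormedAddCommGroup E] [InnerProductSpace ℝ E] [FiniteDimensional ℝ E]
  [MeasurableSpace E] [BorelSpace E] {r : ℕ} {U : Set E}
  {V W : Type} [NormedAddCommGroup V] [NormedSpace ℝ V] [NormedAddCommGroup W] [NormedSpace ℝ W]

theorem trell_norm_le (k : ℕ) {g : E → V} {C : ℝ} (hg : ∀ x, ‖g x‖ ≤ C) (x : E) :
    ‖moll k g x‖ ≤ C := by
  unfold moll
  rw [convolution_lsmul]
  have hi : Integrable (fun t => (bump E k).normed volume t * C) :=
    (bump E k).integrable_normed.mul_const C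
  refine (norm_integral_le_of_norm_le hi (Eventually.of_forall fun t => ?_)).trans ?_
  · rw [norm_smul, Real.norm_of_nonneg ((bump E k).nonneg_normed t)]
    exact mul_le_mul_of_nonneg_left (hg _) ((bump E k).nonneg_normed t)
  · rw [integral_mul_const, (bump E k).integral_normed, one_mul]

theorem trell_lip (k : ℕ) : ∃ L : ℝ, 0 ≤ L ∧ ∀ g : E → V, Integrable g → ∀ x y : E,
    ‖moll k g x - moll k g y‖ ≤ L * ‖x - y‖ * ∫ t, ‖g t‖ := by
  have sρ : ContDiff ℝ ∞ ((bump E k).normed volume) := (bump E k).contDiff_normed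
  have cρ : HasCompactSupport ((bump E k).normed volume) := (bump E k).hasCompactSupport_normed
  obtain ⟨L, hL⟩ := sρ.lipschitzWith_of_hasCompactSupport cρ (by simp)
  refine ⟨L, L.2, fun g hg x y => ?_⟩
  have hi : ∀ z : E, Integrable (fun t => (bump E k).normed volume (z - t) • g t) := fun z =>
    (cρ.convolutionExists_left (ContinuousLinearMap.lsmul ℝ ℝ) sρ.continuous
      hg.locallyIntegrable z).integrable_swap
  unfold moll
  rw [convolution_lsmul_swap, convolution_lsmul_swap, ← integral_sub (hi x) (hi y),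
    ← integral_const_mul]
  refine norm_integral_le_of_norm_le (hg.norm.const_mul _) (Eventually.of_forall fun t => ?_)
  rw [← sub_smul, norm_smul]
  refine mul_le_mul_of_nonneg_right ?_ (norm_nonneg _)
  have := hL.dist_le_mul (x - t) (y - t)
  rwa [dist_eq_norm, dist_eq_norm, sub_sub_sub_cancel_right] at this

theorem trell_approx [CompleteSpace V] (k : ℕ) {g : E → V} (hg : Integrable g) {K : Set E}
    {A : ℝ≥0∞}
    (hA : ∀ t : E, ‖t‖ < 1 / ((k : ℝ) + 1) → ∫⁻ x in K, ‖g (x - t) - g x‖ₑ ≤ A) :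
    ∫⁻ x in K, ‖moll k g x - g x‖ₑ ≤ A := by
  set ρ := (bump E k).normed volume with hρ
  have sρ : Continuous ρ := (bump E k).continuous_normed
  have cρ : HasCompactSupport ρ := (bump E k).hasCompactSupport_normed
  have mρ : Measurable fun t => ENNReal.ofReal (ρ t) := sρ.measurable.ennreal_ofReal
  have h1 : ∀ x, ‖moll k g x - g x‖ₑ ≤ ∫⁻ t, ENNReal.ofReal (ρ t) * ‖g (x - t) - g x‖ₑ := by
    intro x
    have i1 : Integrable (fun t => ρ t • g (x - t)) :=
      (cρ.convolutionExists_left (ContinuousLinearMap.lsmul ℝ ℝ) sρ hg.locallyIntegrable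
        x).integrable
    have i2 : Integrable (fun t => ρ t • g x) := (bump E k).integrable_normed.smul_const _
    have e1 : moll k g x - g x = ∫ t, ρ t • (g (x - t) - g x) := by
      simp only [smul_sub]
      rw [integral_sub i1 i2, integral_smul_const, (bump E k).integral_normed, one_smul]
      unfold moll
      rw [convolution_lsmul]
    rw [e1]
    refine (enorm_integral_le_lintegral_enorm _).trans (le_of_eq (lintegral_congr fun t => ?_))
    rw [enorm_smul, Real.enorm_eq_ofReal ((bump E k).nonneg_normed t)]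
  refine (lintegral_mono h1).trans ?_
  have hm0 : AEStronglyMeasurable (fun p : E × E => g (p.1 - p.2) - g p.1)
      ((volume : Measure E).prod volume) :=
    (hg.1.comp_quasiMeasurePreserving
      (quasiMeasurePreserving_sub_of_right_invariant volume volume)).sub hg.1.comp_fst
  have hm : AEMeasurable (fun p : E × E => ENNReal.ofReal (ρ p.2) * ‖g (p.1 - p.2) - g p.1‖ₑ)
      (((volume : Measure E).restrict K).prod volume) :=
    ((mρ.comp measurable_snd).aemeasurable.mul hm0.enorm).mono_ac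
      (Measure.AbsolutelyContinuous.prod Measure.absolutelyContinuous_restrict
        Measure.AbsolutelyContinuous.rfl)
  rw [lintegral_lintegral_swap hm]
  have h2 : ∀ t, ∫⁻ x in K, ENNReal.ofReal (ρ t) * ‖g (x - t) - g x‖ₑ
      ≤ ENNReal.ofReal (ρ t) * A := by
    intro t
    rw [lintegral_const_mul' _ _ ENNReal.ofReal_ne_top]
    by_cases ht : ρ t = 0
    · simp [ht]
    · have h' : t ∈ Function.support ρ := ht
      rw [hρ, (bump E k).support_normed_eq, mem_ball, dist_zero_right] at h'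
      exact mul_le_mul_right (hA t h') _
  refine (lintegral_mono h2).trans ?_
  rw [lintegral_mul_const _ mρ, ← ofReal_integral_eq_lintegral_ofReal
    (bump E k).integrable_normed (Eventually.of_forall (bump E k).nonneg_normed),
    (bump E k).integral_normed]
  simp

omit [InnerProductSpace ℝ E] [FiniteDimensional ℝ E] [MeasurableSpace E] [BorelSpace E] in
theorem trell_diag [TopologicalSpace.SeparableSpace E] [FiniteDimensional ℝ V]
    {w : ℕ → ℕ → E → V} {C : ℝ} (hC : ∀ k m x, ‖w k m x‖ ≤ C)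
    (hL : ∀ k, ∃ L : ℝ, 0 ≤ L ∧ ∀ m x y, ‖w k m x - w k m y‖ ≤ L * ‖x - y‖) :
    ∃ φ : ℕ → ℕ, StrictMono φ ∧ ∀ k x, CauchySeq fun m => w k (φ m) x := by
  have : ProperSpace V := FiniteDimensional.proper_real V
  set q := TopologicalSpace.denseSeq E
  have hq : DenseRange q := TopologicalSpace.denseRange_denseSeq E
  have hc : IsCompact (Set.pi univ fun _ : ℕ × ℕ => closedBall (0 : V) C) :=
    isCompact_univ_pi fun _ => isCompact_closedBall _ _
  obtain ⟨a, -, φ, hφ, ha⟩ := hc.tendsto_subseq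
    (x := fun m (p : ℕ × ℕ) => w p.1 m (q p.2)) fun m p _ => by simpa using hC p.1 m (q p.2)
  refine ⟨φ, hφ, fun k x => ?_⟩
  obtain ⟨L, hL0, hL⟩ := hL k
  rw [Metric.cauchySeq_iff]
  intro ε hε
  obtain ⟨j, hj⟩ := hq.exists_dist_lt x (ε := ε / 3 / (L + 1)) (by positivity)
  have h1 : CauchySeq fun m => w k (φ m) (q j) := (tendsto_pi_nhds.1 ha (k, j)).cauchySeq
  obtain ⟨N, hN⟩ := Metric.cauchySeq_iff.1 h1 (ε / 3) (by positivity)
  have h2 : ∀ m, dist (w k m x) (w k m (q j)) ≤ ε / 3 := by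
    intro m
    rw [dist_eq_norm] at hj ⊢
    refine (hL m x (q j)).trans ?_
    rw [lt_div_iff₀ (by positivity)] at hj
    nlinarith [norm_nonneg (x - q j)]
  refine ⟨N, fun m hm n hn => ?_⟩
  have h3 := hN m hm n hn
  have h4 := dist_triangle4 (w k (φ m) x) (w k (φ m) (q j)) (w k (φ n) (q j)) (w k (φ n) x)
  have h5 := h2 (φ m)
  have h6 := h2 (φ n)
  rw [dist_comm] at h6
  linarith

omit [NormedSpace ℝ V] in
theorem trell_dct {α : Type} [MeasurableSpace α] {μ : Measure α} [IsFiniteMeasure μ]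
    {f : ℕ → α → V} (hf : ∀ m, AEStronglyMeasurable (f m) μ) {C : ℝ} (hC : ∀ m x, ‖f m x‖ ≤ C)
    (hc : ∀ x, CauchySeq fun m => f m x) :
    Tendsto (fun p : ℕ × ℕ => ∫⁻ x, ‖f p.1 x - f p.2 x‖ₑ ∂μ) atTop (𝓝 0) := by
  have h := tendsto_lintegral_filter_of_dominated_convergence' (μ := μ) (l := atTop)
    (F := fun (p : ℕ × ℕ) x => ‖f p.1 x - f p.2 x‖ₑ) (f := fun _ => 0)
    (fun _ => ENNReal.ofReal (C + C))
    (Eventually.of_forall fun p => ((hf p.1).sub (hf p.2)).enorm)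
    (Eventually.of_forall fun p => Eventually.of_forall fun x =>
      enorm_le_ofReal ((norm_sub_le _ _).trans (add_le_add (hC _ _) (hC _ _))))
    (by
      rw [lintegral_const]
      exact ENNReal.mul_ne_top ENNReal.ofReal_ne_top (measure_ne_top _ _))
    (Eventually.of_forall fun x => by
      have h1 := cauchySeq_iff_tendsto_dist_atTop_0.1 (hc x)
      have h2 := ENNReal.tendsto_ofReal h1
      simpa only [dist_eq_norm, ofReal_norm, ENNReal.ofReal_zero] using h2)
  simpa using h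

omit [NormedSpace ℝ V] in
theorem trell_ae [CompleteSpace V] {α : Type} [MeasurableSpace α] {μ : Measure α}
    {f : ℕ → α → V} (hf : ∀ m, AEStronglyMeasurable (f m) μ)
    (hc : Tendsto (fun p : ℕ × ℕ => ∫⁻ x, ‖f p.1 x - f p.2 x‖ₑ ∂μ) atTop (𝓝 0)) :
    ∃ ψ : ℕ → ℕ, StrictMono ψ ∧ ∀ᵐ x ∂μ, ∃ y, Tendsto (fun m => f (ψ m) x) atTop (𝓝 y) := by
  have h1 : ∀ N : ℕ, ∃ M : ℕ, ∀ n m, M ≤ n → M ≤ m →
      ∫⁻ x, ‖f n x - f m x‖ₑ ∂μ < (2⁻¹ : ℝ≥0∞) ^ N := by
    intro N
    have hpos : (0 : ℝ≥0∞) < 2⁻¹ ^ N := ENNReal.pow_pos (by simp) N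
    obtain ⟨p, hp⟩ := eventually_atTop.1 (hc.eventually (gt_mem_nhds hpos))
    exact ⟨max p.1 p.2, fun n m hn hm =>
      hp (n, m) ⟨(le_max_left _ _).trans hn, (le_max_right _ _).trans hm⟩⟩
  choose M hM using h1
  obtain ⟨ψ, hψ, hψM⟩ := extraction_forall_of_eventually (P := fun N k => M N ≤ k)
    fun N => eventually_ge_atTop _
  refine ⟨ψ, hψ, Lp.ae_tendsto_of_cauchy_eLpNorm (p := 1) (fun m => hf (ψ m)) le_rfl
    (B := fun N => (2⁻¹ : ℝ≥0∞) ^ N) (by simp) fun N n m hn hm => ?_⟩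
  rw [eLpNorm_one_eq_lintegral_enorm]
  exact hM N _ _ ((hψM N).trans (hψ.monotone hn)) ((hψM N).trans (hψ.monotone hm))

/-- Rellich: an almost everywhere convergent subsequence on a compact set -/
theorem rellich [FiniteDimensional ℝ V] (hU : IsOpen U) {u : ℕ → E → V}
    {D : ℕ → E → E →L[ℝ] V} (hw : ∀ m, WD 2 U (u m) (D m))
    (hb : ∀ K, IsCompact K → K ⊆ U →
      ∃ C : ℝ, ∀ m, (∀ x ∈ K, ‖u m x‖ ≤ C) ∧ N2 K (D m) ≤ ENNReal.ofReal C)
    {K : Set E} (hK : IsCompact K) (hKU : K ⊆ U) :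
    ∃ φ : ℕ → ℕ, StrictMono φ ∧
      ∀ᵐ x, x ∈ K → ∃ y, Tendsto (fun m => u (φ m) x) atTop (𝓝 y) := by
  have : CompleteSpace V := FiniteDimensional.complete ℝ V
  obtain ⟨δ, hδ, hδU⟩ := hK.exists_cthickening_subset_open hU hKU
  have hK' : IsCompact (cthickening δ K) := hK.cthickening
  have mK' : MeasurableSet (cthickening δ K) := hK'.measurableSet
  have mK : MeasurableSet K := hK.measurableSet
  have fK : IsFiniteMeasure ((volume : Measure E).restrict K) :=
    isFiniteMeasure_restrict.2 hK.measure_lt_top.ne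
  obtain ⟨C₀, hC₀⟩ := hb _ hK' hδU
  set C := max C₀ 0 with hC
  set g : ℕ → E → V := fun m => (cthickening δ K).indicator (u m) with hg
  have gi : ∀ m, Integrable (g m) := fun m =>
    (integrable_indicator_iff mK').2 ((hw m).1.integrableOn (by norm_num) hK' hδU)
  have gC : ∀ m x, ‖g m x‖ ≤ C := by
    intro m x
    by_cases hx : x ∈ cthickening δ K
    · simp only [hg, indicator_of_mem hx]
      exact ((hC₀ m).1 x hx).trans (le_max_left _ _)
    · simp only [hg, indicator_of_notMem hx, norm_zero]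
      exact le_max_right _ _
  have gI : ∀ m, ∫ t, ‖g m t‖ ≤ C * (volume : Measure E).real (cthickening δ K) := by
    intro m
    have h1 : ∫ t, ‖g m t‖ = ∫ t in cthickening δ K, ‖g m t‖ := by
      refine (setIntegral_eq_integral_of_forall_compl_eq_zero fun x hx => ?_).symm
      simp only [hg, indicator_of_notMem hx, norm_zero]
    rw [h1]
    refine (le_abs_self _).trans ?_
    rw [← Real.norm_eq_abs]
    exact norm_setIntegral_le_of_norm_le_const hK'.measure_lt_top fun x _ => by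
      simpa using gC m x
  obtain ⟨φ, hφ, hcau⟩ := trell_diag (w := fun k m => moll k (g m)) (C := C)
    (fun k m x => trell_norm_le k (gC m) x) fun k => by
      obtain ⟨L, hL0, hL⟩ := trell_lip (E := E) (V := V) k
      refine ⟨L * (C * (volume : Measure E).real (cthickening δ K)), by positivity,
        fun m x y => (hL _ (gi m) x y).trans ?_⟩
      rw [mul_right_comm]
      exact mul_le_mul_of_nonneg_right (mul_le_mul_of_nonneg_left (gI m) hL0) (norm_nonneg _)
  set B : ℝ≥0∞ := ENNReal.ofReal C₀ * volume K ^ (1 / 2 : ℝ) with hB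
  have hBt : B ≠ ⊤ := ENNReal.mul_ne_top ENNReal.ofReal_ne_top
    (ENNReal.rpow_ne_top_of_nonneg (by norm_num) hK.measure_lt_top.ne)
  have happ : ∀ k : ℕ, 1 / ((k : ℝ) + 1) ≤ δ → ∀ m,
      ∫⁻ x in K, ‖moll k (g m) x - g m x‖ₑ ≤ ENNReal.ofReal (1 / ((k : ℝ) + 1)) * B := by
    intro k hk m
    refine trell_approx k (gi m) fun t ht => ?_
    have ht' : ‖-t‖ ≤ δ := by rw [norm_neg]; exact ht.le.trans hk
    have h1 := dq_le hU (hw m) hK hδU ht'
    have h2 : (fun x => g m (x - t) - g m x) =ᵐ[volume.restrict K]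
        fun x => u m (x + -t) - u m x := by
      filter_upwards [ae_restrict_mem mK] with x hx
      have a1 : x ∈ cthickening δ K := self_subset_cthickening _ hx
      have a2 : x - t ∈ cthickening δ K :=
        mem_cthickening_of_dist_le _ x _ K hx (by simpa [dist_eq_norm] using ht')
      simp only [hg, indicator_of_mem a1, indicator_of_mem a2]
      rw [sub_eq_add_neg x t]
    have h3 : AEStronglyMeasurable (fun x => g m (x - t) - g m x) (volume.restrict K) :=
      (((gi m).comp_sub_right t).1.sub (gi m).1).restrict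
    have h4 := eLpNorm_le_eLpNorm_mul_rpow_measure_univ (p := 1) (q := 2) (by norm_num) h3
    rw [eLpNorm_one_eq_lintegral_enorm, eLpNorm_congr_ae h2, Measure.restrict_apply_univ] at h4
    refine h4.trans ?_
    have h5 : (1 / (1 : ℝ≥0∞).toReal - 1 / (2 : ℝ≥0∞).toReal : ℝ) = 1 / 2 := by norm_num
    rw [h5, hB, ← mul_assoc]
    refine mul_le_mul_left (le_trans h1 (mul_le_mul' ?_ (hC₀ m).2)) _
    rw [norm_neg]
    exact ENNReal.ofReal_le_ofReal ht.le
  have hsmall : Tendsto (fun k : ℕ => ENNReal.ofReal (1 / ((k : ℝ) + 1)) * B) atTop (𝓝 0) := by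
    have h1 := ENNReal.tendsto_ofReal (tendsto_one_div_add_atTop_nhds_zero_nat (𝕜 := ℝ))
    rw [ENNReal.ofReal_zero] at h1
    simpa using ENNReal.Tendsto.mul_const h1 (Or.inr hBt)
  have hmm : ∀ k m, AEStronglyMeasurable (moll k (g m)) (volume.restrict K) := fun k m =>
    (contDiff_moll k (gi m).locallyIntegrable).continuous.aestronglyMeasurable
  have hgm : ∀ m, AEStronglyMeasurable (g m) (volume.restrict K) := fun m => (gi m).1.restrict
  have hL1 : Tendsto (fun p : ℕ × ℕ => ∫⁻ x in K, ‖g (φ p.1) x - g (φ p.2) x‖ₑ) atTop (𝓝 0) := by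
    rw [ENNReal.tendsto_nhds_zero]
    intro ε hε
    have hε3 : 0 < ε / 3 := ENNReal.div_pos hε.ne' (by norm_num)
    obtain ⟨k, hk1, hk2⟩ := ((ENNReal.tendsto_nhds_zero.1 hsmall _ hε3).and
      ((tendsto_one_div_add_atTop_nhds_zero_nat (𝕜 := ℝ)).eventually (ge_mem_nhds hδ))).exists
    have h1 := trell_dct (μ := volume.restrict K) (f := fun m => moll k (g (φ m)))
      (fun m => hmm k _) (fun m x => trell_norm_le k (gC _) x) (hcau k)
    filter_upwards [ENNReal.tendsto_nhds_zero.1 h1 _ hε3] with p hp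
    have h2 := (happ k hk2 (φ p.1)).trans hk1
    have h3 := (happ k hk2 (φ p.2)).trans hk1
    calc ∫⁻ x in K, ‖g (φ p.1) x - g (φ p.2) x‖ₑ
        ≤ ∫⁻ x in K, (‖moll k (g (φ p.1)) x - g (φ p.1) x‖ₑ
            + ‖moll k (g (φ p.1)) x - moll k (g (φ p.2)) x‖ₑ
            + ‖moll k (g (φ p.2)) x - g (φ p.2) x‖ₑ) := by
          refine lintegral_mono fun x => ?_
          simp only [← edist_eq_enorm_sub]
          rw [edist_comm (moll k (g (φ p.1)) x) (g (φ p.1) x)]
          exact edist_triangle4 _ _ _ _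
      _ = (∫⁻ x in K, ‖moll k (g (φ p.1)) x - g (φ p.1) x‖ₑ)
            + (∫⁻ x in K, ‖moll k (g (φ p.1)) x - moll k (g (φ p.2)) x‖ₑ)
            + ∫⁻ x in K, ‖moll k (g (φ p.2)) x - g (φ p.2) x‖ₑ := by
          have m1 : AEMeasurable (fun x => ‖moll k (g (φ p.2)) x - g (φ p.2) x‖ₑ)
              (volume.restrict K) := ((hmm k _).sub (hgm _)).enorm
          have m2 : AEMeasurable (fun x => ‖moll k (g (φ p.1)) x - moll k (g (φ p.2)) x‖ₑ)
              (volume.restrict K) := ((hmm k _).sub (hmm k _)).enorm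
          rw [lintegral_add_right' _ m1, lintegral_add_right' _ m2]
      _ ≤ ε / 3 + ε / 3 + ε / 3 := add_le_add (add_le_add h2 hp) h3
      _ = ε := ENNReal.add_thirds ε
  obtain ⟨ψ, hψ, hae⟩ := trell_ae (f := fun m => g (φ m)) (fun m => hgm _) hL1
  refine ⟨φ ∘ ψ, hφ.comp hψ, ?_⟩
  filter_upwards [(ae_restrict_iff' mK).1 hae] with x hx hxK
  obtain ⟨y, hy⟩ := hx hxK
  refine ⟨y, ?_⟩
  simpa only [hg, indicator_of_mem (self_subset_cthickening _ hxK), Function.comp] using hy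

end Pool.Agent.PW
end
end

-- part Pool.Agent.P.MP_65ad7c_ag.EMin0
section

open MeasureTheory Set Filter Topology Metric Matrix
open scoped ComplexOrder ContDiff Matrix.Norms.Frobenius RealInnerProductSpace ENNReal
open Pool.Agent.Lib.Sob

noncomputable section
namespace Pool.Agent.PW

variable {E : Type} [NormedAddCommGroup E] [InnerProductSpace ℝ E] [FiniteDimensional ℝ E]
  [MeasurableSpace E] [BorelSpace E] {r : ℕ} {U : Set E} {Γ : Type} [Group Γ]
  {V : Type} [NormedAddCommGroup V] [NormedSpace ℝ V]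
  {A : Atlas E Γ} {χ : A.ι → E → ℝ} {ρ : Γ →* Mat r} {H h : A.ι → E → Mat r}
  {D : A.ι → E → E →L[ℝ] Mat r} {C : ℝ}

/-- uniform local bounds in the obstacle class under an energy bound -/
theorem Atlas.adm_bounds (hχ : A.Pou (ball 0 6) χ)
    (hp : ∀ a, ∀ x ∈ closedBall (0 : E) 1, 0 < χ a x) (hH : A.Ref ρ H) (hC : 1 ≤ C) (M : ℝ)
    (a : A.ι) {K : Set E} (hK : IsCompact K) (hK6 : K ⊆ ball 0 6) : ∃ B : ℝ, 1 ≤ B ∧
      ∀ h D, A.Adm ρ H C h D → (∀ x ∈ K, Bd B (h a x)) ∧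
        (A.energy χ h D ≤ M → N2 K (D a) ≤ ENNReal.ofReal B) := by
  obtain ⟨C0, hC0, hb⟩ := hH.lbd a K hK hK6
  have hB : 1 ≤ C0 * C := one_le_mul_of_one_le_of_one_le hC0 hC
  obtain ⟨L, hL, hE⟩ := A.energy_ctrl hχ hp
  obtain ⟨L', hL', hN⟩ := n2_le_of_en (r := r) (A.coef a) hK hK6 hB
  have hbd : ∀ h D, A.Adm ρ H C h D → ∀ x ∈ K, Bd (C0 * C) (h a x) := fun h D hh x hx =>
    Obst.trans (by linarith) (by linarith) (hb x hx) (hh.ob a x (hK6 hx))
  refine ⟨max (C0 * C) (L' * (1 + L * max M 0)), le_max_of_le_left hB, fun h D hh =>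
    ⟨fun x hx => (hbd h D hh x hx).mono (by linarith) (le_max_left _ _), fun hM => ?_⟩⟩
  refine (hN (h a) (D a) (L * max M 0) (mul_nonneg hL (le_max_right _ _)) (hbd h D hh) ?_
    ?_).trans (ENNReal.ofReal_le_ofReal (le_max_right _ _))
  · filter_upwards [wd_herm (by norm_num) isOpen_ball (hh.wd a)
      fun x hx => ((hh.lbd hH hC a).posDef x hx).isHermitian] with x hx hxK
    exact hx (hK6 hxK)
  · refine (lintegral_mono_set hK6).trans ((hE ρ H C h D hH hC hh a).trans ?_)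
    exact ENNReal.ofReal_le_ofReal (mul_le_mul_of_nonneg_left (hM.trans (le_max_left _ _)) hL)

/-- an a.e. convergent subsequence, with a compatible limit inside the obstacles -/
theorem Atlas.adm_subseq (hχ : A.Pou (ball 0 6) χ)
    (hp : ∀ a, ∀ x ∈ closedBall (0 : E) 1, 0 < χ a x) (hH : A.Ref ρ H) (hC : 1 ≤ C)
    {u : ℕ → A.ι → E → Mat r} {Du : ℕ → A.ι → E → E →L[ℝ] Mat r}
    (hu : ∀ m, A.Adm ρ H C (u m) (Du m)) {M : ℝ} (hM : ∀ m, A.energy χ (u m) (Du m) ≤ M) :
    ∃ (φ : ℕ → ℕ) (h : A.ι → E → Mat r), StrictMono φ ∧ A.MC (ball 0 6) ρ h ∧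
      (∀ a, ∀ x ∈ ball (0 : E) 6, Obst C (H a x) (h a x)) ∧
      ∀ a, ∀ᵐ x, x ∈ ball (0 : E) 6 → Tendsto (fun m => u (φ m) a x) atTop (𝓝 (h a x)) := by
  classical
  have h16 : closedBall (0 : E) 1 ⊆ ball 0 6 := closedBall_subset_ball (by norm_num)
  have step : ∀ (a : A.ι) (ψ : ℕ → ℕ), ∃ φ : ℕ → ℕ, StrictMono φ ∧ ∀ᵐ x, x ∈ closedBall (0 : E) 1 →
      ∃ y, Tendsto (fun m => u (ψ (φ m)) a x) atTop (𝓝 y) := fun a ψ => by
    refine rellich (u := fun m => u (ψ m) a) (D := fun m => Du (ψ m) a) isOpen_ball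
      (fun m => (hu _).wd a) (fun K hK hK6 => ?_) (isCompact_closedBall _ _) h16
    obtain ⟨B, hB, hb⟩ := Atlas.adm_bounds hχ hp hH hC M a hK hK6
    refine ⟨max (r * B) B, fun m => ⟨fun x hx => ?_, ?_⟩⟩
    · exact (((hb _ _ (hu _)).1 x hx).norm_le (by linarith)).trans (le_max_left _ _)
    · exact ((hb _ _ (hu _)).2 (hM _)).trans (ENNReal.ofReal_le_ofReal (le_max_right _ _))
  have all : ∀ s : Finset A.ι, ∃ φ : ℕ → ℕ, StrictMono φ ∧ ∀ a ∈ s, ∀ᵐ x,
      x ∈ closedBall (0 : E) 1 → ∃ y, Tendsto (fun m => u (φ m) a x) atTop (𝓝 y) := fun s => by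
    induction s using Finset.induction_on with
    | empty => exact ⟨id, strictMono_id, by simp⟩
    | insert a s _ ih =>
      obtain ⟨ψ, hψ, h1⟩ := ih
      obtain ⟨φ, hφ, h2⟩ := step a ψ
      refine ⟨ψ ∘ φ, hψ.comp hφ, fun b hb => ?_⟩
      rcases Finset.mem_insert.1 hb with rfl | hb
      · exact h2
      · filter_upwards [h1 b hb] with x hx hx1
        obtain ⟨y, hy⟩ := hx hx1
        exact ⟨y, hy.comp hφ.tendsto_atTop⟩
  obtain ⟨φ, hφ, hall⟩ := all Finset.univ
  have cg : ∀ g : Mat r, Continuous fun X : Mat r => gm X g := fun g =>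
    (continuous_const.mul continuous_id).mul continuous_const
  have fwd : ∀ a b, ∀ x ∈ A.O a b, ∀ y, Tendsto (fun m => u (φ m) a x) atTop (𝓝 y) →
      Tendsto (fun m => u (φ m) b (A.T a b x)) atTop (𝓝 (gm y (ρ (A.c a b x)))) :=
    fun a b x hx y hy => by
      refine (((cg _).tendsto y).comp hy).congr fun m => ?_
      exact ((hu (φ m)).mc a b x ⟨hx, A.O_sub a b hx, A.O_sub b a (A.T_mem a b x hx)⟩).symm
  have bwd : ∀ a b, ∀ x ∈ A.O a b, (∃ y, Tendsto (fun m => u (φ m) b (A.T a b x)) atTop (𝓝 y)) →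
      ∃ y, Tendsto (fun m => u (φ m) a x) atTop (𝓝 y) := fun a b x hx ⟨y, hy⟩ => by
    have := fwd b a _ (A.T_mem a b x hx) y hy
    rw [A.T_inv a b x hx] at this
    exact ⟨_, this⟩
  refine ⟨φ, fun a x => if hx : ∃ y, Tendsto (fun m => u (φ m) a x) atTop (𝓝 y) then hx.choose
    else H a x, hφ, fun a b x hx => ?_, fun a x hx => ?_, fun a => ?_⟩
  · by_cases h1 : ∃ y, Tendsto (fun m => u (φ m) a x) atTop (𝓝 y)
    · have h2 := fwd a b x hx.1 _ h1.choose_spec
      have h3 : ∃ y, Tendsto (fun m => u (φ m) b (A.T a b x)) atTop (𝓝 y) := ⟨_, h2⟩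
      simp only [dif_pos h1, dif_pos h3]
      exact tendsto_nhds_unique h3.choose_spec h2
    · simp only [dif_neg h1, dif_neg (mt (bwd a b x hx.1) h1)]
      exact hH.mc a b x hx
  · by_cases h1 : ∃ y, Tendsto (fun m => u (φ m) a x) atTop (𝓝 y)
    · simp only [dif_pos h1]
      exact (isClosed_obst C (H a x)).mem_of_tendsto h1.choose_spec
        (Eventually.of_forall fun m => (hu (φ m)).ob a x hx)
    · simp only [dif_neg h1]
      exact Obst.refl (hH.pos a x hx).posSemidef hC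
  · have hc := A.toPre.ae_cover
      (p := fun b y => ∃ z, Tendsto (fun m => u (φ m) b y) atTop (𝓝 z))
      (fun b => (hall b (Finset.mem_univ b)).mono fun y hy hy1 =>
        hy (ball_subset_closedBall hy1)) a
    filter_upwards [hc] with x hx hx6
    obtain ⟨b, h1, -, h2⟩ := hx hx6
    have h3 := bwd a b x h1 h2
    simp only [dif_pos h3]
    exact h3.choose_spec

end Pool.Agent.PW
end
end

-- part Pool.Agent.P.MP_65ad7c_ag.TWeak
section

open MeasureTheory Set Filter Topology Metric Matrix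
open scoped ComplexOrder ContDiff Matrix.Norms.Frobenius RealInnerProductSpace ENNReal
open Pool.Agent.Lib.Sob

noncomputable section
namespace Pool.Agent.PW

variable {E : Type} [NormedAddCommGroup E] [InnerProductSpace ℝ E] [FiniteDimensional ℝ E]
  [MeasurableSpace E] [BorelSpace E] {r : ℕ} {U : Set E}
  {V W : Type} [NormedAddCommGroup V] [NormedSpace ℝ V] [NormedAddCommGroup W] [NormedSpace ℝ W]

theorem tweak_hilbert {H : Type} [NormedAddCommGroup H] [InnerProductSpace ℝ H] [CompleteSpace H]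
    (u : ℕ → H) (h : ∀ w, CauchySeq fun m => ⟪w, u m⟫) :
    ∃ g : H, ∀ w, Tendsto (fun m => ⟪w, u m⟫) atTop (𝓝 ⟪w, g⟫) := by
  choose l hl using fun w => cauchySeq_tendsto_of_complete (h w)
  have ht : Tendsto (fun m x => (innerSL ℝ (u m)) x) atTop (𝓝 l) := by
    refine tendsto_pi_nhds.2 fun w => ?_
    simpa only [innerSL_apply_apply, real_inner_comm] using hl w
  refine ⟨(InnerProductSpace.toDual ℝ H).symm (continuousLinearMapOfTendsto _ ht), fun w => ?_⟩
  rw [real_inner_comm, InnerProductSpace.toDual_symm_apply]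
  exact hl w

theorem tweak_inner {α : Type} [MeasurableSpace α] {μ : Measure α} {a b : α → ℝ}
    (ha : MemLp a 2 μ) (hb : MemLp b 2 μ) : ⟪ha.toLp a, hb.toLp b⟫ = ∫ x, a x * b x ∂μ := by
  rw [L2.inner_def]
  refine integral_congr_ae ?_
  filter_upwards [ha.coeFn_toLp, hb.coeFn_toLp] with x h1 h2
  rw [h1, h2]
  simp [mul_comm]

theorem tweak_cs {α : Type} [MeasurableSpace α] {μ : Measure α} {a b : α → ℝ}
    (ha : MemLp a 2 μ) (hb : MemLp b 2 μ) :
    |∫ x, a x * b x ∂μ| ≤ (eLpNorm a 2 μ).toReal * (eLpNorm b 2 μ).toReal := by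
  rw [← tweak_inner ha hb, ← Lp.norm_toLp a ha, ← Lp.norm_toLp b hb]
  exact abs_real_inner_le_norm _ _

theorem tweak_two {α : Type} [MeasurableSpace α] {μ : Measure α} {a : α → ℝ}
    (ha : MemLp a ((2 : ℕ) : ℝ≥0∞) μ) : MemLp a 2 μ := by
  simpa using ha

theorem tweak_two' {α : Type} [MeasurableSpace α] {μ : Measure α} {a : α → ℝ}
    (ha : MemLp a 2 μ) : MemLp a ((2 : ℕ) : ℝ≥0∞) μ := by
  simpa using ha

/-- approximation by test functions -/
theorem tweak_approx {K : Set E} (hK : IsCompact K) {δ : ℝ} (hδ : 0 < δ) {g : E → ℝ}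
    (hg : MemLp g 2 volume) (h0 : ∀ x ∉ K, g x = 0) {ε : ℝ} (hε : 0 < ε) :
    ∃ φ : E → ℝ, IsTest (cthickening δ K) φ ∧
      eLpNorm (fun x => φ x - g x) 2 volume ≤ ENNReal.ofReal ε := by
  have h1 := tendsto_lintegral_moll (n := 2) (by norm_num) (tweak_two' hg)
  have hpos : (0 : ℝ≥0∞) < ENNReal.ofReal ε ^ 2 :=
    ENNReal.pow_pos (ENNReal.ofReal_pos.2 hε) 2
  have h2 := h1.eventually (eventually_le_nhds hpos)
  have h3 := (tendsto_one_div_add_atTop_nhds_zero_nat (𝕜 := ℝ)).eventually (eventually_le_nhds hδ)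
  obtain ⟨k, hk2, hk3⟩ := (h2.and h3).exists
  have hl : LocallyIntegrable g := hg.locallyIntegrable (by norm_num)
  have hs : tsupport (moll k g) ⊆ cthickening δ K :=
    closure_minimal (fun x hx => by
      by_contra h
      exact hx (moll_eq_zero h0 fun h' => h (cthickening_mono hk3 K h'))) isClosed_cthickening
  refine ⟨moll k g, ⟨contDiff_moll k hl, hK.cthickening.of_isClosed_subset (isClosed_tsupport _) hs,
    hs⟩, ?_⟩
  rw [lintegral_pow_eq (n := 2) (by norm_num) (fun x => moll k g x - g x)] at hk2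
  have := (ENNReal.pow_le_pow_left_iff (n := 2) (by norm_num)).1 hk2
  simpa using this

/-- weak limits, scalar case on one compact set: the limit functional is an `L²` function -/
theorem exists_weak_limit {K : Set E} (hK : IsCompact K) (hU : IsOpen U) (hKU : K ⊆ U)
    {f : ℕ → E → ℝ} (hf : ∀ m, LocLp 2 U (f m))
    (hb : ∀ K', IsCompact K' → K' ⊆ U → ∃ C : ℝ, ∀ m, N2 K' (f m) ≤ ENNReal.ofReal C)
    (hc : ∀ φ, IsTest U φ → ∃ l, Tendsto (fun m => ∫ x, φ x * f m x) atTop (𝓝 l)) :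
    ∃ g : E → ℝ, MemLp g 2 (volume.restrict K) ∧ ∀ w : E → ℝ, MemLp w 2 (volume.restrict K) →
      Tendsto (fun m => ∫ x in K, w x * f m x) atTop (𝓝 (∫ x in K, w x * g x)) := by
  obtain ⟨δ, hδ, hδU⟩ := hK.exists_cthickening_subset_open hU hKU
  have hK' : IsCompact (cthickening δ K) := hK.cthickening
  obtain ⟨C, hC⟩ := hb _ hK' hδU
  have hfK : ∀ m, MemLp (f m) 2 (volume.restrict K) := fun m => tweak_two (hf m K hK hKU)
  have hfK' : ∀ m, MemLp (f m) 2 (volume.restrict (cthickening δ K)) :=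
    fun m => tweak_two (hf m _ hK' hδU)
  have hcau : ∀ w : E → ℝ, MemLp w 2 (volume.restrict K) →
      CauchySeq fun m => ∫ x in K, w x * f m x := by
    intro w hw
    have hw' : MemLp (K.indicator w) 2 volume := (memLp_indicator_iff_restrict hK.measurableSet).2 hw
    refine Metric.cauchySeq_iff.2 fun ε hε => ?_
    have hC1 : 0 < |C| + 1 := by positivity
    obtain ⟨φ, hφ, hφw⟩ := tweak_approx hK hδ hw' (fun x hx => indicator_of_notMem hx w)
      (ε := ε / 3 / (|C| + 1)) (by positivity)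
    obtain ⟨l, hl⟩ := hc φ (hφ.mono hδU)
    obtain ⟨N, hN⟩ := Metric.cauchySeq_iff.1 hl.cauchySeq (ε / 3) (by positivity)
    have hφ2 : MemLp φ 2 volume := hφ.continuous.memLp_of_hasCompactSupport hφ.2.1
    have key : ∀ m, |(∫ x, φ x * f m x) - ∫ x in K, w x * f m x| ≤ ε / 3 := by
      intro m
      have e1 : ∫ x, φ x * f m x = ∫ x in cthickening δ K, φ x * f m x :=
        (setIntegral_eq_integral_of_forall_compl_eq_zero fun x hx => by
          rw [hφ.zero_of_notMem hx, zero_mul]).symm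
      have e2 : ∫ x in K, w x * f m x = ∫ x in cthickening δ K, K.indicator w x * f m x := by
        rw [setIntegral_eq_integral_of_forall_compl_eq_zero (s := cthickening δ K) fun x hx => by
          rw [indicator_of_notMem (fun h => hx (self_subset_cthickening K h)), zero_mul],
          ← integral_indicator hK.measurableSet]
        refine integral_congr_ae (Eventually.of_forall fun x => ?_)
        by_cases hx : x ∈ K <;> simp [hx]
      have i1 : Integrable (fun x => φ x * f m x) (volume.restrict (cthickening δ K)) :=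
        (hφ2.restrict _).integrable_mul (hfK' m)
      have i2 : Integrable (fun x => K.indicator w x * f m x) (volume.restrict (cthickening δ K)) :=
        (hw'.restrict _).integrable_mul (hfK' m)
      rw [e1, e2, ← integral_sub i1 i2]
      have h1 := tweak_cs ((hφ2.sub hw').restrict (cthickening δ K)) (hfK' m)
      have h2 : (eLpNorm (φ - K.indicator w) 2 (volume.restrict (cthickening δ K))).toReal ≤
          ε / 3 / (|C| + 1) :=
        ENNReal.toReal_le_of_le_ofReal (by positivity)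
          ((eLpNorm_mono_measure _ Measure.restrict_le_self).trans hφw)
      have h3 : (eLpNorm (f m) 2 (volume.restrict (cthickening δ K))).toReal ≤ |C| + 1 :=
        ENNReal.toReal_le_of_le_ofReal hC1.le ((hC m).trans (ENNReal.ofReal_le_ofReal
          (by linarith [le_abs_self C])))
      have h4 := mul_le_mul h2 h3 ENNReal.toReal_nonneg (by positivity)
      rw [div_mul_cancel₀ _ hC1.ne'] at h4
      refine le_trans (le_of_eq ?_) (h1.trans h4)
      congr 1
      refine integral_congr_ae (Eventually.of_forall fun x => ?_)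
      simp only [Pi.sub_apply, sub_mul]
    refine ⟨N, fun m hm n hn => ?_⟩
    have a1 := abs_le.1 (key m)
    have a2 := abs_le.1 (key n)
    have a3 := hN m hm n hn
    rw [Real.dist_eq, abs_lt] at a3 ⊢
    constructor <;> linarith [a1.1, a1.2, a2.1, a2.2, a3.1, a3.2]
  obtain ⟨g, hg⟩ := tweak_hilbert (fun m => (hfK m).toLp (f m)) fun w => by
    have := hcau w (Lp.memLp w)
    simpa only [← tweak_inner (Lp.memLp w) (hfK _), Lp.toLp_coeFn] using this
  refine ⟨g, Lp.memLp g, fun w hw => ?_⟩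
  have := hg (hw.toLp w)
  rw [← Lp.toLp_coeFn g (Lp.memLp g), tweak_inner] at this
  simpa only [tweak_inner] using this

/-- `g` represents the weak limit on `K` -/
def TweakRep (f : ℕ → E → ℝ) (K : Set E) (g : E → ℝ) : Prop :=
  MemLp g 2 (volume.restrict K) ∧ ∀ w : E → ℝ, MemLp w 2 (volume.restrict K) →
    Tendsto (fun m => ∫ x in K, w x * f m x) atTop (𝓝 (∫ x in K, w x * g x))

theorem TweakRep.mono {f : ℕ → E → ℝ} {K L : Set E} {g : E → ℝ} (h : TweakRep f L g)
    (hK : MeasurableSet K) (hKL : K ⊆ L) : TweakRep f K g := by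
  refine ⟨h.1.mono_measure (Measure.restrict_mono hKL le_rfl), fun w hw => ?_⟩
  have hw' : MemLp (K.indicator w) 2 (volume.restrict L) :=
    ((memLp_indicator_iff_restrict hK).2 hw).restrict L
  have e : ∀ v : E → ℝ, ∫ x in L, K.indicator w x * v x = ∫ x in K, w x * v x := by
    intro v
    rw [setIntegral_eq_integral_of_forall_compl_eq_zero (s := L) fun x hx => by
      rw [indicator_of_notMem (fun h => hx (hKL h)), zero_mul], ← integral_indicator hK]
    refine integral_congr_ae (Eventually.of_forall fun x => ?_)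
    by_cases hx : x ∈ K <;> simp [hx]
  simpa only [e] using h.2 _ hw'

theorem TweakRep.unique {f : ℕ → E → ℝ} {K : Set E} {g g' : E → ℝ} (h : TweakRep f K g)
    (h' : TweakRep f K g') : g =ᵐ[volume.restrict K] g' := by
  have e : h.1.toLp g = h'.1.toLp g' := by
    refine ext_inner_left ℝ fun w => ?_
    rw [← Lp.toLp_coeFn w (Lp.memLp w), tweak_inner, tweak_inner]
    exact tendsto_nhds_unique (h.2 _ (Lp.memLp w)) (h'.2 _ (Lp.memLp w))
  exact (MemLp.toLp_eq_toLp_iff h.1 h'.1).1 e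

theorem TweakRep.congr {f : ℕ → E → ℝ} {K : Set E} {g g' : E → ℝ} (h : TweakRep f K g)
    (e : g =ᵐ[volume.restrict K] g') : TweakRep f K g' := by
  refine ⟨h.1.ae_eq e, fun w hw => ?_⟩
  have : ∫ x in K, w x * g' x = ∫ x in K, w x * g x :=
    integral_congr_ae (e.mono fun x hx => by simp only [hx])
  rw [this]
  exact h.2 w hw

omit [MeasurableSpace E] [BorelSpace E] in
theorem tweak_exh (hU : IsOpen U) : ∃ L : ℕ → Set E, (∀ j, IsCompact (L j) ∧ L j ⊆ U) ∧
    ∀ K, IsCompact K → K ⊆ U → ∃ j, K ⊆ L j := by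
  refine ⟨fun j => closedBall 0 j \ thickening (1 / ((j : ℝ) + 1)) Uᶜ, fun j => ⟨?_, ?_⟩, ?_⟩
  · exact (isCompact_closedBall _ _).diff isOpen_thickening
  · intro x hx
    by_contra h
    exact hx.2 (self_subset_thickening (by positivity) _ h)
  · intro K hK hKU
    obtain ⟨δ, hδ, hδU⟩ := hK.exists_thickening_subset_open hU hKU
    obtain ⟨R, hR⟩ := hK.isBounded.subset_closedBall (0 : E)
    have h3 := (tendsto_one_div_add_atTop_nhds_zero_nat (𝕜 := ℝ)).eventually (eventually_le_nhds hδ)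
    have h4 := (tendsto_natCast_atTop_atTop (R := ℝ)).eventually (eventually_ge_atTop R)
    obtain ⟨j, hj3, hj4⟩ := (h3.and h4).exists
    refine ⟨j, fun x hx => ⟨closedBall_subset_closedBall hj4 (hR hx), fun h => ?_⟩⟩
    obtain ⟨y, hy, hxy⟩ := mem_thickening_iff.1 h
    exact hy (hδU (mem_thickening_iff.2 ⟨x, hx, by rw [dist_comm]; exact hxy.trans_le hj3⟩))

/-- weak limits on an open set -/
theorem exists_weak_limit_loc (hU : IsOpen U) {f : ℕ → E → ℝ} (hf : ∀ m, LocLp 2 U (f m))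
    (hb : ∀ K', IsCompact K' → K' ⊆ U → ∃ C : ℝ, ∀ m, N2 K' (f m) ≤ ENNReal.ofReal C)
    (hc : ∀ φ, IsTest U φ → ∃ l, Tendsto (fun m => ∫ x, φ x * f m x) atTop (𝓝 l)) :
    ∃ g : E → ℝ, LocLp 2 U g ∧ ∀ K, IsCompact K → K ⊆ U → ∀ w : E → ℝ,
      MemLp w 2 (volume.restrict K) →
      Tendsto (fun m => ∫ x in K, w x * f m x) atTop (𝓝 (∫ x in K, w x * g x)) := by
  classical
  obtain ⟨L, hL, hLK⟩ := tweak_exh hU
  have hG : ∀ j, ∃ g, TweakRep f (L j) g := fun j =>
    exists_weak_limit (hL j).1 hU (hL j).2 hf hb hc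
  choose G hG using hG
  have key : ∀ K, IsCompact K → K ⊆ U →
      TweakRep f K fun x => if h : ∃ i, x ∈ L i then G (Nat.find h) x else 0 := by
    intro K hK hKU
    obtain ⟨j, hj⟩ := hLK K hK hKU
    refine ((hG j).mono hK.measurableSet hj).congr ?_
    have h1 : ∀ i, ∀ᵐ x, x ∈ K ∩ L i → G j x = G i x := fun i => by
      have hm : MeasurableSet (K ∩ L i) := hK.measurableSet.inter (hL i).1.measurableSet
      exact (ae_restrict_iff' hm).1 (((hG j).mono hm (inter_subset_left.trans hj)).unique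
        ((hG i).mono hm inter_subset_right))
    refine (ae_restrict_iff' hK.measurableSet).2 ?_
    filter_upwards [ae_all_iff.2 h1] with x hx hxK
    have hex : ∃ i, x ∈ L i := ⟨j, hj hxK⟩
    simp only [dif_pos hex]
    exact hx _ ⟨hxK, Nat.find_spec hex⟩
  exact ⟨_, fun K hK hKU => tweak_two' (key K hK hKU).1, fun K hK hKU => (key K hK hKU).2⟩

end Pool.Agent.PW
end
end
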