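import Pool.Agent.K.MP_65ad7c_ag.C0

-- part Pool.Agent.P.MP_65ad7c_ag.TWeak2
section

open MeasureTheory Set Filter Topology Metric Matrix
open scoped ComplexOrder ContDiff Matrix.Norms.Frobenius RealInnerProductSpace ENNReal
open Pool.Agent.Lib.Sob

noncomputable section
namespace Pool.Agent.PW

variable {E : Type} [NormedAddCommGroup E] [InnerProductSpace ℝ E] [FiniteDimensional ℝ E]
  [MeasurableSpace E] [BorelSpace E] {r : ℕ} {U : Set E}
  {V W : Type} [NormedAddCommGroup V] [NormedSpace ℝ V] [NormedAddCommGroup W] [NormedSpace ℝ W]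

/-- `L¹_loc` convergence gives convergence against continuous compactly supported functions -/
theorem tweak2_l1 {u : ℕ → E → V} {v : E → V} (hu : ∀ m, LocLp 2 U (u m)) (hv : LocLp 2 U v)
    (hc : ∀ K, IsCompact K → K ⊆ U →
      Tendsto (fun m => ∫⁻ x in K, ‖u m x - v x‖ₑ) atTop (𝓝 0))
    {ψ : E → ℝ} (cψ : Continuous ψ) (cs : HasCompactSupport ψ) (sψ : tsupport ψ ⊆ U) :
    Tendsto (fun k => ∫ x, ψ x • u k x) atTop (𝓝 (∫ x, ψ x • v x)) := by
  have hn : 1 ≤ 2 := by norm_num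
  obtain ⟨C, hC⟩ := cs.exists_bound_of_continuous cψ
  refine tendsto_integral_of_L1 _ (hv.integrable_smul hn cψ cs sψ).1
    (Eventually.of_forall fun k => (hu k).integrable_smul hn cψ cs sψ) ?_
  have t := ENNReal.Tendsto.const_mul (a := ENNReal.ofReal C) (hc _ cs sψ)
    (Or.inr ENNReal.ofReal_ne_top)
  rw [mul_zero] at t
  refine tendsto_of_tendsto_of_tendsto_of_le_of_le tendsto_const_nhds t (fun _ => zero_le)
    fun k => ?_
  rw [← lintegral_const_mul' _ _ ENNReal.ofReal_ne_top,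
    ← lintegral_indicator (isClosed_tsupport ψ).measurableSet]
  refine lintegral_mono fun x => ?_
  by_cases hx : x ∈ tsupport ψ
  · rw [indicator_of_mem hx, ← smul_sub, enorm_smul]
    gcongr
    rw [← ofReal_norm]; exact ENNReal.ofReal_le_ofReal (hC x)
  · simp [image_eq_zero_of_notMem_tsupport hx]

/-- weak limits of vector valued functions -/
theorem tweak2_vec [FiniteDimensional ℝ W] (hU : IsOpen U) {D : ℕ → E → W}
    (hD : ∀ m, LocLp 2 U (D m))
    (hb : ∀ K, IsCompact K → K ⊆ U → ∃ C : ℝ, ∀ m, N2 K (D m) ≤ ENNReal.ofReal C)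
    (hc : ∀ φ, IsTest U φ → ∃ l, Tendsto (fun m => ∫ x, φ x • D m x) atTop (𝓝 l)) :
    ∃ D' : E → W, LocLp 2 U D' ∧ ∀ K, IsCompact K → K ⊆ U →
      ∀ w : E → W →L[ℝ] ℝ, MemLp w 2 (volume.restrict K) →
        Tendsto (fun m => ∫ x in K, w x (D m x)) atTop (𝓝 (∫ x in K, w x (D' x))) := by
  have hn : 1 ≤ 2 := by norm_num
  haveI : CompleteSpace W := FiniteDimensional.complete ℝ W
  let b := Module.finBasis ℝ W
  let c : Fin (Module.finrank ℝ W) → W →L[ℝ] ℝ := fun i =>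
    LinearMap.toContinuousLinearMap (b.coord i)
  have hsum : ∀ y : W, y = ∑ i, c i y • b i := fun y => (b.sum_repr y).symm
  have key : ∀ i, ∃ g : E → ℝ, LocLp 2 U g ∧ ∀ K, IsCompact K → K ⊆ U → ∀ w : E → ℝ,
      MemLp w 2 (volume.restrict K) →
      Tendsto (fun m => ∫ x in K, w x * c i (D m x)) atTop (𝓝 (∫ x in K, w x * g x)) := by
    intro i
    refine exists_weak_limit_loc hU (f := fun m x => c i (D m x)) (fun m => (hD m).clm (c i))
      (fun K hK hKU => ?_) (fun φ hφ => ?_)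
    · obtain ⟨C, hC⟩ := hb K hK hKU
      refine ⟨‖c i‖ * C, fun m => ?_⟩
      rw [ENNReal.ofReal_mul (norm_nonneg _)]
      refine le_trans (eLpNorm_le_mul_eLpNorm_of_ae_le_mul (g := D m) (c := ‖c i‖)
        (Eventually.of_forall fun x => (c i).le_opNorm _) 2) ?_
      exact mul_le_mul_right (hC m) _
    · obtain ⟨l, hl⟩ := hc φ hφ
      refine ⟨c i l, ?_⟩
      refine (((c i).continuous.tendsto l).comp hl).congr fun m => ?_
      simp only [Function.comp]
      rw [← (c i).integral_comp_comm ((hD m).integrable_test hn hφ)]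
      simp only [map_smul, smul_eq_mul]
  choose g hg1 hg2 using key
  refine ⟨fun x => ∑ i, g i x • b i, fun K hK hKU => ?_, fun K hK hKU w hw => ?_⟩
  · refine memLp_finsetSum _ fun i _ => ?_
    exact ((hg1 i).clm (ContinuousLinearMap.toSpanSingleton ℝ (b i))) K hK hKU
  · have hwi : ∀ i, MemLp (fun x => w x (b i)) 2 (volume.restrict K) := fun i =>
      (ContinuousLinearMap.apply ℝ ℝ (b i)).comp_memLp' hw
    have e1 : ∀ m, ∫ x in K, w x (D m x) = ∑ i, ∫ x in K, w x (b i) * c i (D m x) := by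
      intro m
      rw [← integral_finsetSum (f := fun i x => w x (b i) * c i (D m x)) _ fun i _ =>
        (hwi i).integrable_mul (q := 2) (((hD m).clm (c i)) K hK hKU)]
      refine integral_congr_ae (Eventually.of_forall fun x => ?_)
      beta_reduce
      conv_lhs => rw [hsum (D m x)]
      simp only [map_sum, map_smul, smul_eq_mul, mul_comm]
    have e2 : ∫ x in K, w x (∑ i, g i x • b i) = ∑ i, ∫ x in K, w x (b i) * g i x := by
      rw [← integral_finsetSum (f := fun i x => w x (b i) * g i x) _ fun i _ =>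
        (hwi i).integrable_mul (q := 2) (hg1 i K hK hKU)]
      refine integral_congr_ae (Eventually.of_forall fun x => ?_)
      simp only [map_sum, map_smul, smul_eq_mul, mul_comm]
    simp only [e1, e2]
    exact tendsto_finsetSum _ fun i _ => hg2 i K hK hKU _ (hwi i)

omit [MeasurableSpace E] [BorelSpace E] in
/-- pointwise convergence of linear maps on a finite dimensional space is convergence -/
theorem tweak2_clm {A : ℕ → E →L[ℝ] V} (h : ∀ e, ∃ l, Tendsto (fun m => A m e) atTop (𝓝 l)) :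
    ∃ l, Tendsto A atTop (𝓝 l) := by
  choose l hl using h
  refine ⟨∑ p, ContinuousLinearMap.smulRightL ℝ E V (innerSL ℝ (ob E p)) (l (ob E p)), ?_⟩
  have e : ∀ m, A m =
      ∑ p, ContinuousLinearMap.smulRightL ℝ E V (innerSL ℝ (ob E p)) (A m (ob E p)) := by
    intro m
    ext e
    conv_lhs => rw [← (ob E).sum_repr' e]
    simp [map_sum, ContinuousLinearMap.sum_apply]
  have := tendsto_finsetSum (f := fun p m =>
      ContinuousLinearMap.smulRightL ℝ E V (innerSL ℝ (ob E p)) (A m (ob E p))) Finset.univ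
    fun p _ => ((ContinuousLinearMap.smulRightL ℝ E V
      (innerSL ℝ (ob E p))).continuous.tendsto _).comp (hl (ob E p))
  exact this.congr fun m => (e m).symm

/-- a limit of functions with bounded gradients has a weak derivative, the weak limit of the
gradients -/
theorem wd_weak [FiniteDimensional ℝ V] (hU : IsOpen U) {u : ℕ → E → V}
    {D : ℕ → E → E →L[ℝ] V} {v : E → V} (hw : ∀ m, WD 2 U (u m) (D m)) (hv : LocLp 2 U v)
    (hc : ∀ K, IsCompact K → K ⊆ U →
      Tendsto (fun m => ∫⁻ x in K, ‖u m x - v x‖ₑ) atTop (𝓝 0))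
    (hb : ∀ K, IsCompact K → K ⊆ U → ∃ C : ℝ, ∀ m, N2 K (D m) ≤ ENNReal.ofReal C) :
    ∃ D' : E → E →L[ℝ] V, WD 2 U v D' ∧ ∀ K, IsCompact K → K ⊆ U →
      ∀ w : E → (E →L[ℝ] V) →L[ℝ] ℝ, MemLp w 2 (volume.restrict K) →
        Tendsto (fun m => ∫ x in K, w x (D m x)) atTop (𝓝 (∫ x in K, w x (D' x))) := by
  have hn : 1 ≤ 2 := by norm_num
  haveI : CompleteSpace V := FiniteDimensional.complete ℝ V
  have h1 : ∀ φ, IsTest U φ → ∀ e : E, Tendsto (fun m => ∫ x, φ x • D m x e) atTop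
      (𝓝 (-∫ x, fderiv ℝ φ x e • v x)) := by
    intro φ hφ e
    have a1 := tweak2_l1 (fun m => (hw m).1) hv hc (hφ.continuous_fderiv_apply e)
      (hφ.2.1.fderiv_apply ℝ e) ((tsupport_fderiv_apply_subset ℝ e).trans hφ.2.2)
    refine a1.neg.congr fun m => ?_
    rw [(hw m).2.2 φ hφ e, neg_neg]
  obtain ⟨D', l2, hD'⟩ := tweak2_vec (W := E →L[ℝ] V) hU (fun m => (hw m).2.1) hb
    (fun φ hφ => tweak2_clm fun e => ⟨_, (h1 φ hφ e).congr fun m => by
      rw [ContinuousLinearMap.integral_apply ((hw m).2.1.integrable_test hn hφ)]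
      rfl⟩)
  refine ⟨D', ⟨hv, l2, fun φ hφ e => ?_⟩, hD'⟩
  rw [← neg_eq_iff_eq_neg, SeparatingDual.eq_iff_forall_dual_eq (R := ℝ)]
  intro l
  let L : (E →L[ℝ] V) →L[ℝ] ℝ := l.comp (ContinuousLinearMap.apply ℝ V e)
  have hwm : MemLp (fun x => φ x • L) 2 (volume.restrict (tsupport φ)) :=
    (LocLp.of_continuousOn (V := (E →L[ℝ] V) →L[ℝ] ℝ) (n := 2) (U := U) (u := fun x => φ x • L)
      (hφ.continuous.smul continuous_const).continuousOn) _ hφ.2.1 hφ.2.2
  have e1 : ∀ X : E → E →L[ℝ] V, LocLp 2 U X →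
      ∫ x in tsupport φ, (φ x • L) (X x) = l (∫ x, φ x • X x e) := by
    intro X hX
    rw [setIntegral_eq_integral_of_forall_compl_eq_zero
      (fun x hx => by simp [image_eq_zero_of_notMem_tsupport hx]),
      ← l.integral_comp_comm ((hX.apply e).integrable_test hn hφ)]
    refine integral_congr_ae (Eventually.of_forall fun x => ?_)
    simp [L]
  have a2 := hD' _ hφ.2.1 hφ.2.2 _ hwm
  rw [e1 D' l2] at a2
  simp only [fun m => e1 (D m) (hw m).2.1] at a2
  exact tendsto_nhds_unique ((l.continuous.tendsto _).comp (h1 φ hφ e)) a2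

end Pool.Agent.PW
end
end

-- part Pool.Agent.P.MP_65ad7c_ag.EMin
section

open MeasureTheory Set Filter Topology Metric Matrix
open scoped ComplexOrder ContDiff Matrix.Norms.Frobenius RealInnerProductSpace ENNReal
open Pool.Agent.Lib.Sob

noncomputable section
namespace Pool.Agent.PW

variable {E : Type} [NormedAddCommGroup E] [InnerProductSpace ℝ E] [FiniteDimensional ℝ E]
  [MeasurableSpace E] [BorelSpace E] {r : ℕ} {U : Set E} {Γ : Type} [Group Γ]
  {V : Type} [NormedAddCommGroup V] [NormedSpace ℝ V]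
  {A : Atlas E Γ} {χ : A.ι → E → ℝ} {ρ : Γ →* Mat r} {H h : A.ι → E → Mat r}
  {D : A.ι → E → E →L[ℝ] Mat r} {C : ℝ}

/-- bounded a.e. convergence gives local `L²` membership and local `L¹` convergence -/
theorem emin_loc {u : ℕ → E → V} {v : E → V} (hu : ∀ m, LocLp 2 U (u m))
    (hb : ∀ K, IsCompact K → K ⊆ U → ∃ B : ℝ, ∀ m, ∀ x ∈ K, ‖u m x‖ ≤ B)
    (hae : ∀ᵐ x, x ∈ U → Tendsto (fun m => u m x) atTop (𝓝 (v x))) :
    LocLp 2 U v ∧ ∀ K, IsCompact K → K ⊆ U →
      Tendsto (fun m => ∫⁻ x in K, ‖u m x - v x‖ₑ) atTop (𝓝 0) := by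
  have hK : ∀ K, IsCompact K → K ⊆ U →
      ∀ᵐ x ∂(volume.restrict K), Tendsto (fun m => u m x) atTop (𝓝 (v x)) := by
    intro K hK hKU
    filter_upwards [ae_restrict_mem hK.measurableSet, ae_restrict_of_ae hae] with x hx h'
      using h' (hKU hx)
  refine ⟨fun K hc hKU => ?_, fun K hc hKU => ?_⟩
  · have : IsFiniteMeasure (volume.restrict K) := ⟨by simpa using hc.measure_lt_top⟩
    obtain ⟨B, hB⟩ := hb K hc hKU
    refine MemLp.of_bound (aestronglyMeasurable_of_tendsto_ae atTop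
      (fun m => (hu m K hc hKU).1) (hK K hc hKU)) B ?_
    filter_upwards [ae_restrict_mem hc.measurableSet, hK K hc hKU] with x hx h'
    exact le_of_tendsto' h'.norm fun m => hB m x hx
  · have : IsFiniteMeasure (volume.restrict K) := ⟨by simpa using hc.measure_lt_top⟩
    obtain ⟨B, hB⟩ := hb K hc hKU
    have := tendsto_lintegral_norm_of_dominated_convergence (μ := volume.restrict K)
      (F := u) (f := v) (bound := fun _ => B) (fun m => (hu m K hc hKU).1)
      (integrable_const B).2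
      (fun m => (ae_restrict_mem hc.measurableSet).mono fun x hx => hB m x hx) (hK K hc hKU)
    simpa only [ofReal_norm] using this

/-- compactness of the obstacle class under an energy bound -/
theorem Atlas.adm_compact (hχ : A.Pou (ball 0 6) χ)
    (hp : ∀ a, ∀ x ∈ closedBall (0 : E) 1, 0 < χ a x) (hH : A.Ref ρ H) (hC : 1 ≤ C)
    {u : ℕ → A.ι → E → Mat r} {Du : ℕ → A.ι → E → E →L[ℝ] Mat r}
    (hu : ∀ m, A.Adm ρ H C (u m) (Du m)) {M : ℝ} (hM : ∀ m, A.energy χ (u m) (Du m) ≤ M) :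
    ∃ (φ : ℕ → ℕ) (h : A.ι → E → Mat r) (D : A.ι → E → E →L[ℝ] Mat r), StrictMono φ ∧
      A.Adm ρ H C h D ∧ ∀ ε : ℝ, 0 < ε →
        ∀ᶠ m in atTop, A.energy χ h D - ε ≤ A.energy χ (u (φ m)) (Du (φ m)) := by
  obtain ⟨φ, h, hφ, hmc, hob, hae⟩ := Atlas.adm_subseq hχ hp hH hC hu hM
  have hbd : ∀ a K, IsCompact K → K ⊆ ball (0 : E) 6 → ∃ B : ℝ, 1 ≤ B ∧
      ∀ m, (∀ x ∈ K, Bd B (u (φ m) a x)) ∧ N2 K (Du (φ m) a) ≤ ENNReal.ofReal B := by
    intro a K hK hK6
    obtain ⟨B, hB, hB'⟩ := Atlas.adm_bounds hχ hp hH hC M a hK hK6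
    exact ⟨B, hB, fun m => ⟨(hB' _ _ (hu (φ m))).1, (hB' _ _ (hu (φ m))).2 (hM _)⟩⟩
  have key : ∀ a, ∃ D' : E → E →L[ℝ] Mat r, WD 2 (ball 0 6) (h a) D' ∧
      ∀ K, IsCompact K → K ⊆ ball (0 : E) 6 → ∀ w : E → (E →L[ℝ] Mat r) →L[ℝ] ℝ,
        MemLp w 2 (volume.restrict K) →
        Tendsto (fun m => ∫ x in K, w x (Du (φ m) a x)) atTop (𝓝 (∫ x in K, w x (D' x))) := by
    intro a
    obtain ⟨h1, h2⟩ := emin_loc (U := ball (0 : E) 6) (u := fun m => u (φ m) a) (v := h a)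
      (fun m => ((hu (φ m)).wd a).1) (fun K hK hK6 => by
        obtain ⟨B, hB, hB'⟩ := hbd a K hK hK6
        exact ⟨r * B, fun m x hx => ((hB' m).1 x hx).norm_le (by linarith)⟩) (hae a)
    exact wd_weak isOpen_ball (fun m => (hu (φ m)).wd a) h1 h2 fun K hK hK6 => by
      obtain ⟨B, -, hB'⟩ := hbd a K hK hK6
      exact ⟨B, fun m => (hB' m).2⟩
  choose D hD hw using key
  refine ⟨φ, h, D, hφ, ⟨hD, hob, hmc⟩, fun ε hε => ?_⟩
  have hN : (0 : ℝ) < Fintype.card A.ι := by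
    have : Nonempty A.ι := ⟨A.a0⟩
    exact_mod_cast Fintype.card_pos
  have hl : ∀ a, ∀ᶠ m in atTop, (∫ x, χ a x * en (A.α a x) (h a x) (D a x)) -
      ε / Fintype.card A.ι ≤ ∫ x, χ a x * en (A.α a x) (u (φ m) a x) (Du (φ m) a x) := by
    intro a
    refine lsc_local isOpen_ball (hχ.1 a).1 (hχ.1 a).2 (A.coef a) (u := fun m => u (φ m) a)
      (D := fun m => Du (φ m) a) (fun m => (hu (φ m)).wd a) (hD a) (fun K hK hK6 => ?_) (hae a)
      (hw a) (div_pos hε hN)
    obtain ⟨B, hB, hB'⟩ := hbd a K hK hK6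
    obtain ⟨B', hB1, hB2⟩ := (hH.lbd a).of_obst hC (hob a) K hK hK6
    refine ⟨max B B', le_max_of_le_left hB, fun x hx => (hB2 x hx).mono (by linarith)
      (le_max_right _ _), fun m => ⟨fun x hx => ((hB' m).1 x hx).mono (by linarith)
        (le_max_left _ _), (hB' m).2.trans (ENNReal.ofReal_le_ofReal (le_max_left _ _))⟩⟩
  filter_upwards [eventually_all.2 hl] with m hm
  have := Finset.sum_le_sum fun a (_ : a ∈ Finset.univ) => hm a
  rw [Finset.sum_sub_distrib, Finset.sum_const, Finset.card_univ, nsmul_eq_mul,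
    mul_div_cancel₀ _ hN.ne'] at this
  exact this

theorem Atlas.exists_min (hχ : A.Pou (ball 0 6) χ)
    (hp : ∀ a, ∀ x ∈ closedBall (0 : E) 1, 0 < χ a x) (hH : A.Ref ρ H) (hC : 1 ≤ C) :
    ∃ h D, A.IsMin χ ρ H C h D := by
  let S : Set ℝ := {t | ∃ h D, A.Adm ρ H C h D ∧ A.energy χ h D = t}
  have hne : S.Nonempty := ⟨_, H, _, hH.adm hC, rfl⟩
  have hbd : BddBelow S := ⟨0, by
    rintro t ⟨h, D, hh, rfl⟩
    exact hh.energy_nonneg hχ hH hC⟩
  obtain ⟨t, hanti, hlim, hmem⟩ := exists_seq_tendsto_sInf hne hbd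
  choose u Du hu hE using hmem
  obtain ⟨φ, h, D, hφ, hadm, hle⟩ := Atlas.adm_compact hχ hp hH hC hu (M := t 0)
    (fun m => (hE m).le.trans (hanti (Nat.zero_le m)))
  refine ⟨h, D, hadm, fun h' D' hh' => ?_⟩
  have h1 : sInf S ≤ A.energy χ h' D' := csInf_le hbd ⟨h', D', hh', rfl⟩
  refine le_trans (le_of_forall_pos_le_add fun ε hε => ?_) h1
  have h2 : A.energy χ h D - ε ≤ sInf S := by
    refine ge_of_tendsto (hlim.comp hφ.tendsto_atTop) ?_
    filter_upwards [hle ε hε] with m hm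
    exact hm.trans (hE (φ m)).le
  linarith

end Pool.Agent.PW
end
end

-- part Pool.Agent.P.MP_65ad7c_ag.EMod
section

open MeasureTheory Set Filter Topology Metric Matrix
open scoped ComplexOrder ContDiff Matrix.Norms.Frobenius RealInnerProductSpace ENNReal
open Pool.Agent.Lib.Sob

noncomputable section
namespace Pool.Agent.PW

variable {E : Type} [NormedAddCommGroup E] [InnerProductSpace ℝ E] [FiniteDimensional ℝ E]
  [MeasurableSpace E] [BorelSpace E] {r : ℕ} {U : Set E} {Γ : Type} [Group Γ]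
  {V : Type} [NormedAddCommGroup V] [NormedSpace ℝ V]
  {A : Atlas E Γ} {χ : A.ι → E → ℝ} {ρ : Γ →* Mat r} {H h : A.ι → E → Mat r}
  {D : A.ι → E → E →L[ℝ] Mat r} {C : ℝ}

/-- `X ↦ τᴴ X τ` as a continuous linear map -/
def emod_gmL (τ : Mat r) : Mat r →L[ℝ] Mat r :=
  ((ContinuousLinearMap.mul ℝ (Mat r)).flip τ).comp (ContinuousLinearMap.mul ℝ (Mat r) τᴴ)

theorem emod_gmL_apply (τ X : Mat r) : emod_gmL τ X = gm X τ := rfl

/-- gluing of weak derivatives on two open sets -/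
theorem emod_glue [CompleteSpace V] {O₁ O₂ : Set E} (h₁ : IsOpen O₁) (h₂ : IsOpen O₂) {u : E → V}
    {D₁ D₂ : E → E →L[ℝ] V} (a : WD 2 O₁ u D₁) (b : WD 2 O₂ u D₂) :
    ∃ D', WD 2 (O₁ ∪ O₂) u D' := by
  classical
  refine ⟨fun x => if x ∈ O₁ then D₁ x else D₂ x, WD.union (by norm_num) h₁ h₂ ?_ ?_⟩
  · exact a.congr' (fun _ _ => rfl) fun x hx => by simp [hx]
  · refine b.congr (Eventually.of_forall fun _ _ => rfl) ?_
    filter_upwards [WD.unique (by norm_num) (h₁.inter h₂) (a.mono inter_subset_left)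
      (b.mono inter_subset_right)] with x hx hx2
    by_cases hx1 : x ∈ O₁
    · simp [hx1, hx ⟨hx1, hx2⟩]
    · simp [hx1]

omit [MeasurableSpace E] [BorelSpace E] in
theorem emod_back {g : A.ι → E → Mat r} (hm : A.MC (ball 0 6) ρ g) {a b : A.ι} {x : E}
    (hx : x ∈ A.O a b) : gm (g b (A.T a b x)) (ρ (A.c a b x)⁻¹) = g a x := by
  have hx' : x ∈ A.ov (ball 0 6) a b :=
    ⟨hx, A.O_sub a b hx, A.O_sub b a (A.T_mem a b x hx)⟩
  rw [hm a b x hx', gm_gm, rep_mul_inv, gm_one]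

open Classical in
/-- the modified metric -/
def emod_h (A : Atlas E Γ) (ρ : Γ →* Mat r) (h : A.ι → E → Mat r) (b : A.ι) (u : E → Mat r)
    (a : A.ι) (x : E) : Mat r :=
  if x ∈ A.O a b then gm (u (A.T a b x)) (ρ (A.c a b x)⁻¹) else h a x

omit [MeasurableSpace E] [BorelSpace E] in
theorem emod_h_in {b : A.ι} {u : E → Mat r} {a : A.ι} {x : E} (hx : x ∈ A.O a b) :
    emod_h A ρ h b u a x = gm (u (A.T a b x)) (ρ (A.c a b x)⁻¹) := by
  simp [emod_h, hx]

omit [MeasurableSpace E] [BorelSpace E] in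
theorem emod_h_out {b : A.ι} {u : E → Mat r} {a : A.ι} {x : E} (hx : x ∉ A.O a b) :
    emod_h A ρ h b u a x = h a x := by
  simp [emod_h, hx]

omit [MeasurableSpace E] [BorelSpace E] in
theorem emod_h_off (hm : A.MC (ball 0 6) ρ h) {b : A.ι} {K : Set E} {u : E → Mat r}
    (he : ∀ x ∈ ball (0 : E) 6, x ∉ K → u x = h b x) {a : A.ι} {x : E}
    (hx : ¬(x ∈ A.O a b ∧ A.T a b x ∈ K)) : emod_h A ρ h b u a x = h a x := by
  by_cases hO : x ∈ A.O a b
  · rw [emod_h_in hO, he _ (A.O_sub b a (A.T_mem a b x hO)) fun hk => hx ⟨hO, hk⟩,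
      emod_back hm hO]
  · exact emod_h_out hO

omit [MeasurableSpace E] [BorelSpace E] in
theorem emod_h_self {b : A.ι} {u : E → Mat r} {x : E} (hx : x ∈ ball (0 : E) 6) :
    emod_h A ρ h b u b x = u x := by
  rw [emod_h_in (by rw [A.O_self]; exact hx), A.T_self b x hx, A.c_self b x hx, inv_one, map_one,
    gm_one]

omit [MeasurableSpace E] [BorelSpace E] in
theorem emod_h_mc (hm : A.MC (ball 0 6) ρ h) (b : A.ι) (u : E → Mat r) :
    A.MC (ball 0 6) ρ (emod_h A ρ h b u) := by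
  intro a d x hx
  by_cases hO : x ∈ A.O a b
  · have hy : A.T a d x ∈ A.O d a := A.T_mem a d x hx.1
    have hi : A.T d a (A.T a d x) = x := A.T_inv a d x hx.1
    obtain ⟨h1, -, -⟩ := A.cocycle d a b _ hy (by rw [hi]; exact hO)
    obtain ⟨-, h2, h3⟩ := A.cocycle a d b x hx.1 h1
    rw [emod_h_in h1, emod_h_in hO, gm_gm, ← h2, ← map_mul, h3]
    congr 2
    group
  · have h1 : A.T a d x ∉ A.O d b := fun h1 => hO (A.cocycle a d b x hx.1 h1).1
    rw [emod_h_out h1, emod_h_out hO]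
    exact hm a d x hx

theorem emod_h_wd (hm : A.MC (ball 0 6) ρ h) (hw : ∀ a, WD 2 (ball 0 6) (h a) (D a)) {b : A.ι}
    {K : Set E} (hK : IsCompact K) (hK6 : K ⊆ ball 0 6) {u : E → Mat r}
    {Du : E → E →L[ℝ] Mat r} (hu : WD 2 (ball 0 6) u Du)
    (he : ∀ x ∈ ball (0 : E) 6, x ∉ K → u x = h b x) (a : A.ι) :
    ∃ D', WD 2 (ball 0 6) (emod_h A ρ h b u a) D' := by
  have hd := A.toPre.diffeo (U := ball 0 6) isOpen_ball a b
  rw [A.toPre.ov_six, A.toPre.ov_six] at hd
  have w1 := hd.wd_comp (n := 2) (by norm_num) (hu.mono (A.O_sub b a))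
  have w2 : WD 2 (A.O a b) (emod_h A ρ h b u a) fun x => (emod_gmL (ρ (A.c a b x)⁻¹)).comp
      ((Du (A.T a b x)).comp (fderiv ℝ (A.T a b) x)) := by
    refine WD.of_local (by norm_num) fun x hx => ?_
    obtain ⟨N, hN, hNo, hxN⟩ := _root_.eventually_nhds_iff.1 (A.c_loc a b x hx)
    refine ⟨N ∩ A.O a b, hNo.inter (A.O_open a b), ⟨hxN, hx⟩, ?_⟩
    refine ((w1.mono inter_subset_right).clm (by norm_num)
      (emod_gmL (ρ (A.c a b x)⁻¹))).congr' (fun y hy => ?_) fun y hy => ?_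
    · rw [emod_h_in hy.2, hN y hy.1, emod_gmL_apply]
    · rw [hN y hy.1]
  have ho := A.toPre.isOpen_off b a hK hK6
  have w3 : WD 2 {x | x ∈ ball (0 : E) 6 ∧ ¬(x ∈ A.O a b ∧ A.T a b x ∈ K)}
      (emod_h A ρ h b u a) (D a) :=
    ((hw a).mono fun x hx => hx.1).congr' (fun x hx => (emod_h_off hm he hx.2).symm) fun _ _ => rfl
  obtain ⟨D', hD'⟩ := emod_glue (A.O_open a b) ho w2 w3
  refine ⟨D', hD'.mono fun x hx => ?_⟩
  by_cases hO : x ∈ A.O a b
  · exact Or.inl hO
  · exact Or.inr ⟨hx, fun h' => hO h'.1⟩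

/-- a modification inside one chart -/
theorem Atlas.adm_modify (hχ : A.Pou (ball 0 6) χ) (hH : A.Ref ρ H) (hC : 1 ≤ C)
    (hh : A.Adm ρ H C h D) (b : A.ι) {K : Set E} (hK : IsCompact K) (hK6 : K ⊆ ball 0 6)
    {u : E → Mat r} {Du : E → E →L[ℝ] Mat r} (hu : WD 2 (ball 0 6) u Du)
    (ho : ∀ x ∈ ball (0 : E) 6, Obst C (H b x) (u x))
    (he : ∀ x ∈ ball (0 : E) 6, x ∉ K → u x = h b x) :
    ∃ h' D', A.Adm ρ H C h' D' ∧ A.energy χ h' D' - A.energy χ h D =
      ∫ x in ball (0 : E) 6, (en (A.α b x) (u x) (Du x) - en (A.α b x) (h b x) (D b x)) := by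
  choose D' hD' using emod_h_wd hh.mc hh.wd hK hK6 hu he
  have hA : A.Adm ρ H C (emod_h A ρ h b u) D' := by
    refine ⟨hD', fun a x hx => ?_, emod_h_mc hh.mc b u⟩
    by_cases hO : x ∈ A.O a b
    · rw [emod_h_in hO, ← emod_back hH.mc hO]
      exact (ho _ (A.O_sub b a (A.T_mem a b x hO))).gm _
    · rw [emod_h_out hO]
      exact hh.ob a x hx
  refine ⟨_, D', hA, ?_⟩
  have l1 := fun a => (en_loc isOpen_ball (A.coef a) (hD' a) (hA.lbd hH hC a)).1
  have l2 := fun a => (en_loc isOpen_ball (A.coef a) (hh.wd a) (hh.lbd hH hC a)).1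
  have off : ∀ a, ∀ᵐ x, x ∈ ball (0 : E) 6 → ¬(x ∈ A.O a b ∧ A.T a b x ∈ K) →
      en (A.α a x) (emod_h A ρ h b u a x) (D' a x) - en (A.α a x) (h a x) (D a x) = 0 := by
    intro a
    have ho := A.toPre.isOpen_off b a hK hK6
    have w3 : WD 2 {x | x ∈ ball (0 : E) 6 ∧ ¬(x ∈ A.O a b ∧ A.T a b x ∈ K)}
        (emod_h A ρ h b u a) (D a) :=
      ((hh.wd a).mono fun x hx => hx.1).congr' (fun x hx => (emod_h_off hh.mc he hx.2).symm)
        fun _ _ => rfl
    filter_upwards [WD.unique (by norm_num) ho ((hD' a).mono fun x hx => hx.1) w3] with x hx h1 h2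
    rw [hx ⟨h1, h2⟩, emod_h_off hh.mc he h2, sub_self]
  have key := A.toPre.int_dens (U := ball 0 6) isOpen_ball Subset.rfl hχ
    (F := fun a x => en (A.α a x) (emod_h A ρ h b u a x) (D' a x) - en (A.α a x) (h a x) (D a x))
    b hK hK6 ((l1 b).sub (l2 b)) (fun a => ?_) ?_ (fun a => ?_)
  · have e1 : A.energy χ (emod_h A ρ h b u) D' - A.energy χ h D = ∑ a, ∫ x, χ a x •
        (en (A.α a x) (emod_h A ρ h b u a x) (D' a x) - en (A.α a x) (h a x) (D a x)) := by
      unfold Atlas.energy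
      rw [← Finset.sum_sub_distrib]
      refine Finset.sum_congr rfl fun a _ => ?_
      have i1 := (l1 a).integrable_test le_rfl (hχ.1 a).1
      have i2 := (l2 a).integrable_test le_rfl (hχ.1 a).1
      simp only [smul_eq_mul] at i1 i2 ⊢
      rw [← integral_sub i1 i2]
      simp only [mul_sub]
    rw [e1, key]
    have w : WD 2 (ball 0 6) u (D' b) := (hD' b).congr' (fun x hx => emod_h_self hx) fun _ _ => rfl
    refine setIntegral_congr_ae measurableSet_ball ?_
    filter_upwards [WD.unique (by norm_num) isOpen_ball w hu] with x hx h1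
    rw [hx h1, emod_h_self h1]
  · filter_upwards [A.en_inv isOpen_ball hD' hA.mc (fun a => (hA.lbd hH hC a).posDef) a b,
      A.en_inv isOpen_ball hh.wd hh.mc (fun a => (hh.lbd hH hC a).posDef) a b] with x h1 h2 hx
    rw [h1 hx, h2 hx, smul_eq_mul, mul_sub]
  · filter_upwards [off b] with x hx h1 h2
    exact hx h1 fun h' => h2 (by rw [← A.T_self b x h1]; exact h'.2)
  · filter_upwards [off a] with x hx h1 h2
    exact hx h1 fun h' => h2 ⟨h'.1, h1, A.O_sub b a (A.T_mem a b x h'.1)⟩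

end Pool.Agent.PW
end
end

-- part Pool.Agent.P.MP_65ad7c_ag.AEn
section

open MeasureTheory Set Filter Topology Metric Matrix
open scoped ComplexOrder ContDiff Matrix.Norms.Frobenius RealInnerProductSpace ENNReal
open Pool.Agent.Lib.Sob

noncomputable section
namespace Pool.Agent.PW

variable {E : Type} [NormedAddCommGroup E] [InnerProductSpace ℝ E] [FiniteDimensional ℝ E] {r : ℕ}

theorem aen_pair_add_left (α : E →L[ℝ] E) (X Y Z : E →L[ℝ] Mat r) :
    pair α (X + Y) Z = pair α X Z + pair α Y Z := by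
  simp only [pair, _root_.add_apply, Matrix.add_mul, trace_add, Complex.add_re,
    Finset.sum_add_distrib]

theorem aen_pair_add_right (α : E →L[ℝ] E) (X Y Z : E →L[ℝ] Mat r) :
    pair α X (Y + Z) = pair α X Y + pair α X Z := by
  simp only [pair, _root_.add_apply, Matrix.mul_add, trace_add, Complex.add_re,
    Finset.sum_add_distrib]

theorem aen_pair_smul_right (α : E →L[ℝ] E) (t : ℝ) (X Y : E →L[ℝ] Mat r) :
    pair α X (t • Y) = t * pair α X Y := by
  simp only [pair, _root_.smul_apply, Matrix.mul_smul, trace_smul, Finset.mul_sum,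
    Complex.smul_re, smul_eq_mul]

theorem aen_pair_conj (α : E →L[ℝ] E) {u u' : Mat r} (hu : u * u' = 1) (X Y : E →L[ℝ] Mat r) :
    pair α (lmul u' (rmul X u)) (lmul u' (rmul Y u)) = pair α X Y := by
  unfold pair
  refine Finset.sum_congr rfl fun p _ => ?_
  simp only [lmul_apply, rmul_apply]
  congr 1
  have h1 : u' * (X (ob E p) * u) * (u' * (Y (α (ob E p)) * u)) =
      u' * ((X (ob E p) * Y (α (ob E p))) * u) := by
    calc u' * (X (ob E p) * u) * (u' * (Y (α (ob E p)) * u))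
        = u' * (X (ob E p) * (u * u') * Y (α (ob E p)) * u) := by
          simp only [Matrix.mul_assoc]
      _ = _ := by rw [hu, Matrix.mul_one]
  rw [h1, Matrix.trace_mul_comm, Matrix.mul_assoc, hu, Matrix.mul_one]

theorem aen_re_trace_conjTranspose (X : Mat r) : (Xᴴ).trace.re = X.trace.re := by
  rw [Matrix.trace_conjTranspose]
  simp

theorem aen_pair_star (α : E →L[ℝ] E) {h : Mat r} (hh : h.PosDef) {D : E →L[ℝ] Mat r}
    (hD : HermF D) (w : E →L[ℝ] Mat r) :
    pair α (mc h D) (lmul h⁻¹ (rmul ((adjL r).comp w) h)) = pair α (mc h D) w := by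
  unfold pair
  refine Finset.sum_congr rfl fun p _ => ?_
  have hdet : IsUnit h.det := (Matrix.isUnit_iff_isUnit_det h).1 hh.isUnit
  have h1 : h * h⁻¹ = 1 := Matrix.mul_nonsing_inv h hdet
  have h2 : (h⁻¹)ᴴ = h⁻¹ := hh.inv.isHermitian
  simp only [mc, lmul_apply, rmul_apply, ContinuousLinearMap.comp_apply, adjL_apply]
  set Dp := D (ob E p) with hDp
  set wq := w (α (ob E p))
  have hDh : Dpᴴ = Dp := hD _
  have e1 : (h⁻¹ * Dp * (h⁻¹ * (wqᴴ * h))).trace = (Dp * h⁻¹ * wqᴴ).trace := by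
    calc (h⁻¹ * Dp * (h⁻¹ * (wqᴴ * h))).trace
        = ((h⁻¹ * (Dp * h⁻¹ * wqᴴ)) * h).trace := by simp only [Matrix.mul_assoc]
      _ = (h * (h⁻¹ * (Dp * h⁻¹ * wqᴴ))).trace := Matrix.trace_mul_comm _ _
      _ = _ := by rw [← Matrix.mul_assoc, h1, Matrix.one_mul]
  have e2 : (Dp * h⁻¹ * wqᴴ)ᴴ = wq * (h⁻¹ * Dp) := by
    rw [conjTranspose_mul, conjTranspose_mul, conjTranspose_conjTranspose, h2, hDh]
  rw [e1, ← aen_re_trace_conjTranspose, e2, Matrix.trace_mul_comm]

theorem aen_inv {z : Mat r} (hz : ‖z‖ ≤ 1 / 2) :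
    ∃ n : Mat r, (1 + z) * (1 + n) = 1 ∧ (1 + n) * (1 + z) = 1 ∧ ‖n‖ ≤ 2 * ‖z‖ := by
  have hlt : ‖-z‖ < 1 := by rw [norm_neg]; linarith
  obtain ⟨U, hU⟩ := isUnit_one_sub_of_norm_lt_one hlt
  have hU' : (U : Mat r) = 1 + z := by rw [hU, sub_neg_eq_add]
  have h1 : (1 + z) * (1 + ((U⁻¹ : (Mat r)ˣ) - 1 : Mat r)) = 1 := by
    rw [add_sub_cancel, ← hU', Units.mul_inv]
  have h2 : (1 + ((U⁻¹ : (Mat r)ˣ) - 1 : Mat r)) * (1 + z) = 1 := by
    rw [add_sub_cancel, ← hU', Units.inv_mul]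
  refine ⟨_, h1, h2, ?_⟩
  generalize ((U⁻¹ : (Mat r)ˣ) - 1 : Mat r) = n at h1
  have h3 : n = -z - z * n := by
    have : (1 + z) * (1 + n) = 1 + n + z + z * n := by noncomm_ring
    rw [this] at h1
    have h4 : n + z + z * n = 0 := by
      have := congrArg (fun x => x - 1) h1
      simp only [sub_self] at this
      rw [← this]; abel
    rw [← sub_eq_zero, ← h4]; abel
  have h5 : ‖n‖ ≤ ‖z‖ + ‖z‖ * ‖n‖ := by
    calc ‖n‖ = ‖-z - z * n‖ := by rw [← h3]
      _ ≤ ‖-z‖ + ‖z * n‖ := norm_sub_le _ _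
      _ ≤ ‖z‖ + ‖z‖ * ‖n‖ := by rw [norm_neg]; exact add_le_add le_rfl (norm_mul_le _ _)
  nlinarith [norm_nonneg n, norm_nonneg z]

omit [FiniteDimensional ℝ E] in
theorem aen_norm_adj (w : E →L[ℝ] Mat r) : ‖(adjL r).comp w‖ ≤ ‖w‖ := by
  refine ContinuousLinearMap.opNorm_le_bound _ (norm_nonneg _) fun v => ?_
  rw [ContinuousLinearMap.comp_apply, adjL_apply, Matrix.frobenius_norm_conjTranspose]
  exact w.le_opNorm v

omit [FiniteDimensional ℝ E] in
theorem aen_mc {h u u' : Mat r} (hh : h.PosDef) (hu : u * u' = 1) (hu' : u' * u = 1)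
    (D W : E →L[ℝ] Mat r) :
    mc (gm h u) (dgm h u D W) = lmul u' (rmul (mc h D + (rmul W u' +
      lmul h⁻¹ (rmul ((adjL r).comp (rmul W u')) h))) u) := by
  ext1 v
  have hdet : IsUnit h.det := (Matrix.isUnit_iff_isUnit_det h).1 hh.isUnit
  have h1 : ∀ X : Mat r, h⁻¹ * (h * X) = X := fun X => by
    rw [← Matrix.mul_assoc, Matrix.nonsing_inv_mul h hdet, Matrix.one_mul]
  have h2 : ∀ X : Mat r, u'ᴴ * (uᴴ * X) = X := fun X => by
    rw [← Matrix.mul_assoc, ← conjTranspose_mul, hu, conjTranspose_one, Matrix.one_mul]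
  simp only [mc, dgm, gm_inv hh hu, lmul_apply, rmul_apply, _root_.add_apply,
    ContinuousLinearMap.comp_apply, adjL_apply, Matrix.mul_add, Matrix.add_mul,
    conjTranspose_mul, Matrix.mul_assoc, h1, h2, hu', Matrix.mul_one]
  abel

theorem aen_fin {d a b M τ x y nA nR nS P Q : ℝ} (hd : 0 ≤ d) (ha : 0 ≤ a) (hb : 0 ≤ b)
    (hM : 0 ≤ M) (hτ : 0 ≤ τ) (hx : 0 ≤ x) (hy : 0 ≤ y) (hR : 0 ≤ nR) (hS : 0 ≤ nS)
    (h1 : nA ≤ b * x) (h2 : nR ≤ τ * y * (2 * (τ * M))) (h3 : nS ≤ (1 + b ^ 2) * (2 * (τ * y)))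
    (hP : |P| ≤ d * a * nA * nR) (hQ : |Q| ≤ d * a * nS * nS) :
    |4 * P + Q| ≤ d * (4 * M * b + 4 * (1 + b ^ 2) ^ 2) * τ ^ 2 * a * (x ^ 2 + y ^ 2) := by
  have b1 : |P| ≤ d * a * (b * x) * (τ * y * (2 * (τ * M))) :=
    hP.trans (mul_le_mul (mul_le_mul_of_nonneg_left h1 (by positivity)) h2 hR (by positivity))
  have b2 : |Q| ≤ d * a * ((1 + b ^ 2) * (2 * (τ * y))) * ((1 + b ^ 2) * (2 * (τ * y))) :=
    hQ.trans (mul_le_mul (mul_le_mul_of_nonneg_left h3 (by positivity)) h3 hS (by positivity))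
  have hDW : 2 * (x * y) ≤ x ^ 2 + y ^ 2 := by nlinarith [sq_nonneg (x - y)]
  have hWW : y ^ 2 ≤ x ^ 2 + y ^ 2 := by nlinarith
  calc |4 * P + Q| ≤ 4 * |P| + |Q| := by
        refine (abs_add_le _ _).trans ?_
        rw [abs_mul, abs_of_pos (by norm_num : (0 : ℝ) < 4)]
    _ ≤ 4 * (d * a * (b * x) * (τ * y * (2 * (τ * M)))) +
        d * a * ((1 + b ^ 2) * (2 * (τ * y))) * ((1 + b ^ 2) * (2 * (τ * y))) := by
        linarith
    _ = d * (4 * M * b) * τ ^ 2 * a * (2 * (x * y)) +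
        d * (4 * (1 + b ^ 2) ^ 2) * τ ^ 2 * a * y ^ 2 := by ring
    _ ≤ d * (4 * M * b) * τ ^ 2 * a * (x ^ 2 + y ^ 2) +
        d * (4 * (1 + b ^ 2) ^ 2) * τ ^ 2 * a * (x ^ 2 + y ^ 2) :=
        add_le_add (mul_le_mul_of_nonneg_left hDW (by positivity))
          (mul_le_mul_of_nonneg_left hWW (by positivity))
    _ = _ := by ring

/-- second order expansion of the energy density -/
theorem en_var (r : ℕ) {B M : ℝ} (hB : 1 ≤ B) (hM : 0 ≤ M) : ∃ K t₀ : ℝ, 0 ≤ K ∧ 0 < t₀ ∧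
    ∀ (h ζ : Mat r) (D W : E →L[ℝ] Mat r) (α : E →L[ℝ] E) (t : ℝ), Bd B h → HermF D → ‖ζ‖ ≤ M →
      (∀ v w, ⟪α v, w⟫ = ⟪v, α w⟫) → |t| ≤ t₀ →
      |en α (gm h (1 + t • ζ)) (dgm h (1 + t • ζ) D (t • W)) - en α h D -
        4 * t * pair α (mc h D) W| ≤ K * t ^ 2 * ‖α‖ * (‖D‖ ^ 2 + ‖W‖ ^ 2) := by
  have hB0 : 0 < B := by linarith
  set d : ℝ := (Module.finrank ℝ E : ℝ) with hd
  set b : ℝ := (r : ℝ) * B with hb
  have hd0 : 0 ≤ d := Nat.cast_nonneg _
  have hb0 : 0 ≤ b := mul_nonneg (Nat.cast_nonneg _) hB0.le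
  refine ⟨d * (4 * M * b + 4 * (1 + b ^ 2) ^ 2), 1 / (2 * (M + 1)), by positivity, by positivity,
    fun h ζ D W α t hh hD hζ hα ht => ?_⟩
  have hp : h.PosDef := hh.posDef hB0
  have ht0 : 0 ≤ |t| := abs_nonneg t
  have htM : |t| * M ≤ 1 / 2 := by
    have h1 : |t| * (2 * (M + 1)) ≤ 1 := by
      rwa [le_div_iff₀ (by positivity)] at ht
    nlinarith
  have hz : ‖t • ζ‖ ≤ |t| * M := by
    rw [norm_smul, Real.norm_eq_abs]
    exact mul_le_mul_of_nonneg_left hζ ht0
  obtain ⟨n, hu, hu', hn⟩ := aen_inv (hz.trans htM)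
  have hn1 : ‖n‖ ≤ 2 * (|t| * M) := hn.trans (by linarith)
  have hn2 : ‖n‖ ≤ 1 := hn1.trans (by linarith)
  set A := mc h D with hA
  set w := rmul (t • W) (1 + n) with hw
  set w' := lmul h⁻¹ (rmul ((adjL r).comp w) h) with hw'
  have hw1 : w = t • W + rmul (t • W) n := by
    ext1 v
    simp only [hw, rmul_apply, _root_.add_apply, Matrix.mul_add, Matrix.mul_one]
  have e1 : en α (gm h (1 + t • ζ)) (dgm h (1 + t • ζ) D (t • W)) =
      pair α (A + (w + w')) (A + (w + w')) := by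
    rw [en, aen_mc hp hu hu', aen_pair_conj α hu]
  have e2 : pair α A (w + w') = 2 * (t * pair α A W + pair α A (rmul (t • W) n)) := by
    rw [aen_pair_add_right, hw', aen_pair_star α hp hD, ← hA, ← two_mul]
    conv_lhs => rw [hw1]
    rw [aen_pair_add_right, aen_pair_smul_right]
  have e3 : en α (gm h (1 + t • ζ)) (dgm h (1 + t • ζ) D (t • W)) - en α h D -
      4 * t * pair α A W = 4 * pair α A (rmul (t • W) n) + pair α (w + w') (w + w') := by
    rw [e1, aen_pair_add_left, aen_pair_add_right α A A, aen_pair_add_right α (w + w') A,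
      pair_comm hα (w + w') A, e2, en, ← hA]
    ring
  have nA : ‖A‖ ≤ b * ‖D‖ :=
    (norm_lmul_le _ _).trans (mul_le_mul_of_nonneg_right (hh.norm_inv_le hB0) (norm_nonneg _))
  have nW : ‖t • W‖ = |t| * ‖W‖ := by rw [norm_smul, Real.norm_eq_abs]
  have nR : ‖rmul (t • W) n‖ ≤ |t| * ‖W‖ * (2 * (|t| * M)) := by
    refine (norm_rmul_le _ _).trans ?_
    rw [nW]
    exact mul_le_mul_of_nonneg_left hn1 (mul_nonneg ht0 (norm_nonneg _))
  have nw : ‖w‖ ≤ 2 * (|t| * ‖W‖) := by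
    rw [hw1]
    refine (norm_add_le _ _).trans ?_
    have := (norm_rmul_le (t • W) n).trans (mul_le_mul_of_nonneg_left hn2 (norm_nonneg _))
    rw [nW] at this ⊢
    linarith
  have nw' : ‖w'‖ ≤ b ^ 2 * ‖w‖ := by
    refine (norm_lmul_le _ _).trans ?_
    have h1 : ‖rmul ((adjL r).comp w) h‖ ≤ ‖w‖ * b :=
      (norm_rmul_le _ _).trans
        (mul_le_mul (aen_norm_adj w) (hh.norm_le hB0) (norm_nonneg _) (norm_nonneg _))
    calc ‖h⁻¹‖ * ‖rmul ((adjL r).comp w) h‖ ≤ b * (‖w‖ * b) :=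
          mul_le_mul (hh.norm_inv_le hB0) h1 (norm_nonneg _) hb0
      _ = b ^ 2 * ‖w‖ := by ring
  have nww : ‖w + w'‖ ≤ (1 + b ^ 2) * (2 * (|t| * ‖W‖)) := by
    calc ‖w + w'‖ ≤ ‖w‖ + b ^ 2 * ‖w‖ := (norm_add_le _ _).trans (add_le_add le_rfl nw')
      _ = (1 + b ^ 2) * ‖w‖ := by ring
      _ ≤ _ := mul_le_mul_of_nonneg_left nw (add_nonneg zero_le_one (sq_nonneg b))
  rw [e3, ← sq_abs t]
  exact aen_fin hd0 (norm_nonneg _) hb0 hM ht0 (norm_nonneg _) (norm_nonneg _) (norm_nonneg _)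
    (norm_nonneg _) nA nR nww (abs_pair_le _ _ _) (abs_pair_le _ _ _)

end Pool.Agent.PW
end
end

-- part Pool.Agent.P.MP_65ad7c_ag.EVar
section

open MeasureTheory Set Filter Topology Metric Matrix
open scoped ComplexOrder ContDiff Matrix.Norms.Frobenius RealInnerProductSpace ENNReal
open Pool.Agent.Lib.Sob

noncomputable section
namespace Pool.Agent.PW

variable {E : Type} [NormedAddCommGroup E] [InnerProductSpace ℝ E] [FiniteDimensional ℝ E]
  [MeasurableSpace E] [BorelSpace E] {r : ℕ} {U : Set E} {Γ : Type} [Group Γ]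
  {V : Type} [NormedAddCommGroup V] [NormedSpace ℝ V]
  {A : Atlas E Γ} {χ : A.ι → E → ℝ} {ρ : Γ →* Mat r} {H h : A.ι → E → Mat r}
  {D : A.ι → E → E →L[ℝ] Mat r} {C : ℝ}

omit [MeasurableSpace E] [BorelSpace E] [FiniteDimensional ℝ E] in
theorem evar_dgm (h : Mat r) (D : E →L[ℝ] Mat r) : dgm h 1 D 0 = D := by
  ext1 v
  simp [dgm]

omit [MeasurableSpace E] [BorelSpace E] in
theorem evar_pair (α : E →L[ℝ] E) (X : E →L[ℝ] Mat r) : pair α X 0 = 0 := by
  simp [pair]

theorem evar_lim {I J t₀ : ℝ} (ht : 0 < t₀)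
    (h : ∀ t, 0 < t → t ≤ t₀ → 0 ≤ 4 * t * I + t ^ 2 * J) : 0 ≤ I := by
  have h1 : Tendsto (fun t : ℝ => 4 * I + t * J) (𝓝[>] 0) (𝓝 (4 * I + 0 * J)) :=
    tendsto_nhdsWithin_of_tendsto_nhds (Continuous.tendsto (by fun_prop) 0)
  have h2 : ∀ᶠ t : ℝ in 𝓝[>] 0, 0 ≤ 4 * I + t * J := by
    filter_upwards [Ioc_mem_nhdsGT ht] with t h2
    refine nonneg_of_mul_nonneg_right ((h t h2.1 h2.2).trans_eq (by ring)) h2.1
  have := ge_of_tendsto h1 h2
  linarith

/-- first variation inequality -/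
theorem Atlas.min_var (hχ : A.Pou (ball 0 6) χ) (hH : A.Ref ρ H) (hC : 1 ≤ C)
    (hh : A.IsMin χ ρ H C h D) (b : A.ι) {ζ : E → Mat r} {Dζ : E → E →L[ℝ] Mat r}
    (hζ : WD 2 (ball 0 6) ζ Dζ) (hb : LB (ball 0 6) ζ) (hc : CS (ball 0 6) ζ) {t₀ : ℝ}
    (ht : 0 < t₀) (ho : ∀ t ∈ Icc 0 t₀, ∀ x ∈ ball (0 : E) 6,
      Obst C (H b x) (gm (h b x) (1 + t • ζ x))) :
    0 ≤ ∫ x in ball (0 : E) 6, pair (A.α b x) (mc (h b x) (D b x)) (Dζ x) := by
  obtain ⟨K, hK, hKU, h0⟩ := hc
  have hU : IsOpen (ball (0 : E) 6) := isOpen_ball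
  have hl := hh.1.lbd hH hC b
  have hw := hh.1.wd b
  obtain ⟨B, hB, hBd⟩ := hl K hK hKU
  obtain ⟨M, hM⟩ := hb K hK hKU
  obtain ⟨l, L, -, hL⟩ := (A.coef b).ell hK hKU
  obtain ⟨K₀, t₁, hK₀, ht₁, hv⟩ := en_var (E := E) r hB (le_max_right M 0)
  have hz := wd_cs_ae (by norm_num) hU hζ hK.isClosed h0
  have hP : LocLp 1 (ball (0 : E) 6) fun x => pair (A.α b x) (mc (h b x) (D b x)) (Dζ x) :=
    locLp_pair (A.coef b).1.continuousOn (locLp_mc hU hw hl) hζ.2.1
  have hI := (integrableOn_of_cs hU hP hK hKU (by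
    filter_upwards [hz] with x hx h1 h2
    rw [hx h1 h2, evar_pair])).2
  have iP := hP.integrableOn le_rfl hK hKU
  have iG : IntegrableOn (fun x => ‖D b x‖ ^ 2 + ‖Dζ x‖ ^ 2) K :=
    ((memLp_two_iff_integrable_sq_norm (hw.2.1 K hK hKU).1).1 (hw.2.1 K hK hKU)).add
      ((memLp_two_iff_integrable_sq_norm (hζ.2.1 K hK hKU).1).1 (hζ.2.1 K hK hKU))
  have hherm := wd_herm (by norm_num) hU hw fun x hx => (hl.posDef x hx).1
  rw [hI]
  refine evar_lim (J := K₀ * L * ∫ x in K, (‖D b x‖ ^ 2 + ‖Dζ x‖ ^ 2)) (lt_min ht ht₁)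
    fun t t0 t1 => ?_
  have ho' := ho t ⟨t0.le, t1.trans (min_le_left _ _)⟩
  have w1 : WD 2 (ball (0 : E) 6) (fun x => 1 + t • ζ x) fun x => t • Dζ x :=
    ((hζ.const_smul t).add_const (by norm_num) 1).congr' (fun x _ => add_comm _ _) fun _ _ => rfl
  have b1 : LB (ball (0 : E) 6) fun x => 1 + t • ζ x :=
    (LB.of_continuousOn continuousOn_const).add
      ((LB.of_continuousOn (u := fun _ => t) continuousOn_const).bilin
        (ContinuousLinearMap.lsmul ℝ ℝ) hb)
  have w2 := wd_gm hU hw w1 hl.lb b1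
  obtain ⟨h', D', ha, he⟩ := A.adm_modify hχ hH hC hh.1 b hK hKU w2 ho' fun x hx hx' => by
    rw [h0 x hx hx', smul_zero, add_zero, gm_one]
  have hF : LocLp 1 (ball (0 : E) 6) fun x => en (A.α b x) (gm (h b x) (1 + t • ζ x))
      (dgm (h b x) (1 + t • ζ x) (D b x) (t • Dζ x)) - en (A.α b x) (h b x) (D b x) :=
    (en_loc hU (A.coef b) w2 ((hH.lbd b).of_obst hC ho')).1.sub (en_loc hU (A.coef b) hw hl).1
  rw [(integrableOn_of_cs hU hF hK hKU (by
    filter_upwards [hz] with x hx h1 h2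
    rw [hx h1 h2, h0 x h1 h2, smul_zero, smul_zero, add_zero, gm_one, evar_dgm, sub_self])).2] at he
  have h1 := sub_nonneg.2 (hh.2 h' D' ha)
  rw [he] at h1
  refine h1.trans ((integral_mono_ae (hF.integrableOn le_rfl hK hKU)
    ((iP.const_mul (4 * t)).add (iG.const_mul (t ^ 2 * (K₀ * L)))) ?_).trans_eq ?_)
  · filter_upwards [ae_restrict_mem hK.measurableSet, ae_restrict_of_ae hherm] with x hx h2
    have h3 := (abs_le.1 (hv (h b x) (ζ x) (D b x) (Dζ x) (A.α b x) t (hBd x hx) (h2 (hKU hx))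
      ((hM x hx).trans (le_max_left _ _)) (hL x hx).1
      (by rw [abs_of_pos t0]; exact t1.trans (min_le_right _ _)))).2
    have h4 : K₀ * t ^ 2 * ‖A.α b x‖ * (‖D b x‖ ^ 2 + ‖Dζ x‖ ^ 2) ≤
        K₀ * t ^ 2 * L * (‖D b x‖ ^ 2 + ‖Dζ x‖ ^ 2) :=
      mul_le_mul_of_nonneg_right (mul_le_mul_of_nonneg_left (hL x hx).2.2 (by positivity))
        (by positivity)
    simp only [Pi.add_apply]
    linarith
  · simp only [Pi.add_apply]
    rw [integral_add (iP.const_mul (4 * t)) (iG.const_mul (t ^ 2 * (K₀ * L))), integral_const_mul,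
      integral_const_mul]
    ring

end Pool.Agent.PW
end
end

-- part Pool.Agent.P.MP_65ad7c_ag.ERef
section

open MeasureTheory Set Filter Topology Metric Matrix
open scoped ComplexOrder ContDiff Matrix.Norms.Frobenius RealInnerProductSpace ENNReal
open Pool.Agent.Lib.Sob

noncomputable section
namespace Pool.Agent.PW

variable {E : Type} [NormedAddCommGroup E] [InnerProductSpace ℝ E] [FiniteDimensional ℝ E]
  [MeasurableSpace E] [BorelSpace E] {r : ℕ} {U : Set E} {Γ : Type} [Group Γ]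
  {V : Type} [NormedAddCommGroup V] [NormedSpace ℝ V]

omit [FiniteDimensional ℝ E] [MeasurableSpace E] [BorelSpace E] in
theorem eref_inv_hasFDerivAt {H : E → Mat r} {x : E} {D : E →L[ℝ] Mat r}
    (hH : HasFDerivAt H D x) (hu : IsUnit (H x)) :
    HasFDerivAt (fun y => (H y)⁻¹)
      ((-ContinuousLinearMap.mulLeftRight ℝ (Mat r) (H x)⁻¹ (H x)⁻¹).comp D) x := by
  obtain ⟨w, hw⟩ := hu
  have h1 := hasFDerivAt_ringInverse (𝕜 := ℝ) w
  rw [Matrix.coe_units_inv, hw] at h1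
  simp only [nonsing_inv_eq_ringInverse] at h1 ⊢
  exact h1.comp x hH

omit [FiniteDimensional ℝ E] [MeasurableSpace E] [BorelSpace E] in
theorem eref_inv_contDiffOn {H : E → Mat r} (hH : ContDiffOn ℝ ∞ H U)
    (hu : ∀ x ∈ U, IsUnit (H x)) : ContDiffOn ℝ ∞ (fun y => (H y)⁻¹) U := by
  intro x hx
  obtain ⟨w, hw⟩ := hu x hx
  have h1 := contDiffAt_ringInverse ℝ (n := ∞) w
  rw [hw] at h1
  simp only [nonsing_inv_eq_ringInverse]
  exact h1.comp_contDiffWithinAt x (hH x hx)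

omit [FiniteDimensional ℝ E] [MeasurableSpace E] [BorelSpace E] in
theorem eref_bound {H : E → Mat r} {a : E → ℝ} {x v w : E} {M B N : ℝ}
    (ha : DifferentiableAt ℝ a x) (hH : DifferentiableAt ℝ H x)
    (hH2 : DifferentiableAt ℝ (fderiv ℝ H) x) (hu : IsUnit (H x)) (hv : ‖v‖ = 1) (hw : ‖w‖ = 1)
    (h1 : |a x| ≤ M) (h2 : ‖fderiv ℝ a x‖ ≤ M) (h3 : ‖(H x)⁻¹‖ ≤ N) (h4 : ‖fderiv ℝ H x‖ ≤ B)
    (h5 : ‖fderiv ℝ (fderiv ℝ H) x‖ ≤ B) :
    ‖fderiv ℝ (fun y => a y • ((H y)⁻¹ * fderiv ℝ H y v)) x w‖ ≤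
      M * (N * B + N * B * N * B) + M * (N * B) := by
  have d1 := eref_inv_hasFDerivAt hH.hasFDerivAt hu
  have d2 : HasFDerivAt (fun y => fderiv ℝ H y v)
      ((ContinuousLinearMap.apply ℝ (Mat r) v).comp (fderiv ℝ (fderiv ℝ H) x)) x :=
    (ContinuousLinearMap.apply ℝ (Mat r) v).hasFDerivAt.comp x hH2.hasFDerivAt
  have d3 := ha.hasFDerivAt.smul (d1.mul' d2)
  have e : fderiv ℝ (fun y => a y • ((H y)⁻¹ * fderiv ℝ H y v)) x w =
      a x • ((H x)⁻¹ * fderiv ℝ (fderiv ℝ H) x w v +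
        -((H x)⁻¹ * fderiv ℝ H x w * (H x)⁻¹) * fderiv ℝ H x v) +
        fderiv ℝ a x w • ((H x)⁻¹ * fderiv ℝ H x v) := by
    have := d3.fderiv
    rw [show (fun y => a y • ((H y)⁻¹ * fderiv ℝ H y v)) =
      a • ((fun y => (H y)⁻¹) * fun y => fderiv ℝ H y v) from rfl, this]
    rfl
  have hM : 0 ≤ M := (abs_nonneg _).trans h1
  have hN : 0 ≤ N := (norm_nonneg _).trans h3
  have hB : 0 ≤ B := (norm_nonneg _).trans h4
  have b1 : ‖fderiv ℝ H x v‖ ≤ B := by
    simpa [hv] using (fderiv ℝ H x).le_of_opNorm_le h4 v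
  have b2 : ‖fderiv ℝ H x w‖ ≤ B := by
    simpa [hw] using (fderiv ℝ H x).le_of_opNorm_le h4 w
  have b3 : ‖fderiv ℝ (fderiv ℝ H) x w‖ ≤ B := by
    simpa [hw] using (fderiv ℝ (fderiv ℝ H) x).le_of_opNorm_le h5 w
  have b4 : ‖fderiv ℝ (fderiv ℝ H) x w v‖ ≤ B := by
    simpa [hv] using (fderiv ℝ (fderiv ℝ H) x w).le_of_opNorm_le b3 v
  have b5 : ‖fderiv ℝ a x w‖ ≤ M := by
    simpa [hw] using (fderiv ℝ a x).le_of_opNorm_le h2 w
  have b6 : ‖(H x)⁻¹ * fderiv ℝ H x v‖ ≤ N * B :=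
    (norm_mul_le _ _).trans (mul_le_mul h3 b1 (norm_nonneg _) hN)
  have b7 : ‖(H x)⁻¹ * fderiv ℝ (fderiv ℝ H) x w v‖ ≤ N * B :=
    (norm_mul_le _ _).trans (mul_le_mul h3 b4 (norm_nonneg _) hN)
  have b8 : ‖(H x)⁻¹ * fderiv ℝ H x w‖ ≤ N * B :=
    (norm_mul_le _ _).trans (mul_le_mul h3 b2 (norm_nonneg _) hN)
  have b9 : ‖(H x)⁻¹ * fderiv ℝ H x w * (H x)⁻¹‖ ≤ N * B * N :=
    (norm_mul_le _ _).trans (mul_le_mul b8 h3 (norm_nonneg _) (by positivity))
  have b10 : ‖-((H x)⁻¹ * fderiv ℝ H x w * (H x)⁻¹) * fderiv ℝ H x v‖ ≤ N * B * N * B :=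
    (norm_mul_le _ _).trans (mul_le_mul (by rwa [norm_neg]) b1 (norm_nonneg _) (by positivity))
  rw [e]
  refine (norm_add_le _ _).trans (add_le_add ?_ ?_)
  · rw [norm_smul]
    exact mul_le_mul h1 ((norm_add_le _ _).trans (add_le_add b7 b10)) (norm_nonneg _) hM
  · rw [norm_smul]
    exact mul_le_mul b5 b6 (norm_nonneg _) hM

/-- a smooth metric is almost harmonic -/
theorem ref_test {α : E → E →L[ℝ] E} (hα : Coef (ball 0 6) α) {B : ℝ} (hB : 1 ≤ B) :
    ∃ C₁ : ℝ, 0 ≤ C₁ ∧ ∀ H : E → Mat r, ContDiffOn ℝ ∞ H (ball 0 6) →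
      (∀ x ∈ ball (0 : E) 6, (H x).PosDef) →
      (∀ x ∈ closedBall (0 : E) (9 / 2), Bd B (H x) ∧ ‖fderiv ℝ H x‖ ≤ B ∧
        ‖fderiv ℝ (fderiv ℝ H) x‖ ≤ B) →
      ∀ (ζ : E → Mat r) (Dζ : E → E →L[ℝ] Mat r), WD 2 (ball 0 6) ζ Dζ →
        (∀ x ∈ ball (0 : E) 6, x ∉ closedBall (0 : E) 2 → ζ x = 0) →
        ∫ x in ball (0 : E) 6, pair (α x) (mc (H x) (fderiv ℝ H x)) (Dζ x) ≤
          C₁ * ∫ x in ball (0 : E) 6, ‖ζ x‖ := by
  have hU : IsOpen (ball (0 : E) 6) := isOpen_ball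
  have hK : IsCompact (closedBall (0 : E) 2) := isCompact_closedBall _ _
  have hKU : closedBall (0 : E) 2 ⊆ ball 0 6 := closedBall_subset_ball (by norm_num)
  set a : Fin (Module.finrank ℝ E) → Fin (Module.finrank ℝ E) → E → ℝ :=
    fun p q x => ⟪ob E q, α x (ob E p)⟫ with ha
  have hac : ∀ p q, ContDiffOn ℝ ∞ (a p q) (ball 0 6) := fun p q =>
    contDiffOn_const.inner ℝ (hα.1.clm_apply contDiffOn_const)
  have hM : ∀ p q, ∃ M : ℝ, ∀ x ∈ closedBall (0 : E) 2,
      |a p q x| ≤ M ∧ ‖fderiv ℝ (a p q) x‖ ≤ M := fun p q => by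
    obtain ⟨M₁, h1⟩ := hK.exists_bound_of_continuousOn ((hac p q).continuousOn.mono hKU)
    obtain ⟨M₂, h2⟩ := hK.exists_bound_of_continuousOn
      (((hac p q).continuousOn_fderiv_of_isOpen hU (by simp)).mono hKU)
    exact ⟨max M₁ M₂, fun x hx => ⟨(h1 x hx).trans (le_max_left _ _),
      (h2 x hx).trans (le_max_right _ _)⟩⟩
  choose M hM using hM
  have hM0 : ∀ p q, 0 ≤ M p q := fun p q =>
    (abs_nonneg _).trans (hM p q 0 (mem_closedBall_self (by norm_num))).1
  have hB0 : 0 < B := by linarith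
  set N : ℝ := r * B with hN
  have hN0 : 0 ≤ N := by positivity
  set C₁ : ℝ := ∑ p, ∑ q, (M p q * (N * B + N * B * N * B) + M p q * (N * B)) with hC₁
  have hC0 : 0 ≤ C₁ := Finset.sum_nonneg fun p _ => Finset.sum_nonneg fun q _ => by
    have := hM0 p q
    positivity
  refine ⟨C₁, hC0, fun H hH hpos hbd ζ Dζ hζ h0 => ?_⟩
  have hD : ContDiffOn ℝ ∞ (fderiv ℝ H) (ball 0 6) := hH.fderiv_of_isOpen hU (by simp)
  have hI : ContDiffOn ℝ ∞ (fun y => (H y)⁻¹) (ball 0 6) :=
    eref_inv_contDiffOn hH fun x hx => (hpos x hx).isUnit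
  set W : Fin (Module.finrank ℝ E) → Fin (Module.finrank ℝ E) → E → Mat r :=
    fun p q y => a p q y • ((H y)⁻¹ * fderiv ℝ H y (ob E p)) with hW
  have hWc : ∀ p q, ContDiffOn ℝ ∞ (W p q) (ball 0 6) := fun p q =>
    (hac p q).smul (hI.mul (hD.clm_apply contDiffOn_const))
  have hWd : ∀ p q, WD 2 (ball 0 6) (W p q) (fderiv ℝ (W p q)) := fun p q =>
    WD.of_contDiffOn (by norm_num) hU ((hWc p q).of_le (by simp))
  set Z : E → Mat r := fun x => -∑ p, ∑ q, fderiv ℝ (W p q) x (ob E q) with hZ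
  have hZc : ContinuousOn Z (ball 0 6) :=
    (continuousOn_finsetSum _ fun p _ => continuousOn_finsetSum _ fun q _ =>
      ((hWc p q).continuousOn_fderiv_of_isOpen hU (by simp)).clm_apply continuousOn_const).neg
  have hYc : ContinuousOn (fun x => mc (H x) (fderiv ℝ H x)) (ball 0 6) :=
    ((ContinuousLinearMap.mul ℝ (Mat r)).continuous.comp_continuousOn hI.continuousOn).clm_comp
      hD.continuousOn
  have hZb : ∀ x ∈ closedBall (0 : E) 2, ‖Z x‖ ≤ C₁ := fun x hx => by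
    have hx' : x ∈ closedBall (0 : E) (9 / 2) := closedBall_subset_closedBall (by norm_num) hx
    have hn := hU.mem_nhds (hKU hx)
    rw [hZ, norm_neg]
    refine (norm_sum_le _ _).trans (Finset.sum_le_sum fun p _ =>
      (norm_sum_le _ _).trans (Finset.sum_le_sum fun q _ => ?_))
    exact eref_bound (((hac p q).contDiffAt hn).differentiableAt (by simp))
      ((hH.contDiffAt hn).differentiableAt (by simp))
      ((hD.contDiffAt hn).differentiableAt (by simp)) (hpos x (hKU hx)).isUnit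
      ((ob E).orthonormal.1 p) ((ob E).orthonormal.1 q) (hM p q x hx).1 (hM p q x hx).2
      ((hbd x hx').1.norm_inv_le hB0) (hbd x hx').2.1 (hbd x hx').2.2
  have key := div_test hU hα.1.continuousOn (LocLp.of_continuousOn hYc) (LocLp.of_continuousOn hZc)
    (fun φ hφ => by
      have e1 : ∀ x, ∑ p, fderiv ℝ φ x (α x (ob E p)) • mc (H x) (fderiv ℝ H x) (ob E p) =
          ∑ p, ∑ q, fderiv ℝ φ x (ob E q) • W p q x := fun x => by
        refine Finset.sum_congr rfl fun p _ => ?_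
        conv_lhs => rw [← (ob E).sum_repr' (α x (ob E p))]
        rw [map_sum, Finset.sum_smul]
        refine Finset.sum_congr rfl fun q _ => ?_
        rw [map_smul, smul_eq_mul, mul_comm, mul_smul]
        rfl
      have e2 : ∀ x, φ x • Z x = -∑ p, ∑ q, φ x • fderiv ℝ (W p q) x (ob E q) := fun x => by
        simp only [hZ, smul_neg, Finset.smul_sum]
      simp only [e1, e2]
      have i1 : ∀ p q, Integrable fun x => fderiv ℝ φ x (ob E q) • W p q x := fun p q =>
        (hWd p q).1.integrable_dtest (by norm_num) hφ _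
      have i2 : ∀ p q, Integrable fun x => φ x • fderiv ℝ (W p q) x (ob E q) := fun p q =>
        ((hWd p q).2.1.apply _).integrable_test (by norm_num) hφ
      rw [integral_neg, integral_finsetSum _ fun p _ => integrable_finsetSum _ fun q _ => i1 p q,
        integral_finsetSum _ fun p _ => integrable_finsetSum _ fun q _ => i2 p q,
        ← Finset.sum_neg_distrib]
      refine Finset.sum_congr rfl fun p _ => ?_
      rw [integral_finsetSum _ fun q _ => i1 p q, integral_finsetSum _ fun q _ => i2 p q,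
        ← Finset.sum_neg_distrib]
      exact Finset.sum_congr rfl fun q _ => (hWd p q).2.2 φ hφ _)
    hζ ⟨_, hK, hKU, h0⟩
  rw [key, ← integral_const_mul]
  have hint : IntegrableOn ζ (ball 0 6) :=
    (integrableOn_of_cs hU (locLp_one_of_two hζ.1) hK hKU (Eventually.of_forall h0)).1
  refine (le_abs_self _).trans ?_
  rw [← Real.norm_eq_abs]
  refine norm_integral_le_of_norm_le (hint.norm.const_mul C₁) ?_
  filter_upwards [ae_restrict_mem hU.measurableSet] with x hx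
  by_cases hx2 : x ∈ closedBall (0 : E) 2
  · exact (Complex.abs_re_le_norm _).trans ((abs_trace_mul_le _ _).trans
      (mul_le_mul_of_nonneg_right (hZb x hx2) (norm_nonneg _)))
  · simp [h0 x hx hx2]

end Pool.Agent.PW
end
end

-- part Pool.Agent.P.MP_65ad7c_ag.TCacc
section

open MeasureTheory Set Filter Topology Metric Matrix
open scoped ComplexOrder ContDiff Matrix.Norms.Frobenius RealInnerProductSpace ENNReal
open Pool.Agent.Lib.Sob

noncomputable section
namespace Pool.Agent.PW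

variable {E : Type} [NormedAddCommGroup E] [InnerProductSpace ℝ E] [FiniteDimensional ℝ E]
  [MeasurableSpace E] [BorelSpace E] {r : ℕ} {U : Set E}
  {V W : Type} [NormedAddCommGroup V] [NormedSpace ℝ V] [NormedAddCommGroup W] [NormedSpace ℝ W]

/-- weak subsolution of `- div (α ∇ f) ≤ c`, tested on `K` -/
def SubSol (U K : Set E) (α : E → E →L[ℝ] E) (Df : E → E →L[ℝ] ℝ) (c : ℝ) : Prop :=
  ∀ (η : E → ℝ) (Dη : E → E →L[ℝ] ℝ), WD 2 U η Dη → LB U η → (∀ x ∈ U, 0 ≤ η x) →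
    (∀ x ∈ U, x ∉ K → η x = 0) → ∫ x in U, spair (α x) (Df x) (Dη x) ≤ c * ∫ x in U, η x

/-- derivative of the positive part -/
def caccPsi (k s : ℝ) : ℝ := if k < s then 1 else 0

theorem cacc_int (k s : ℝ) : ∫ t in k..s, caccPsi k t = max (s - k) 0 := by
  rcases le_or_gt k s with h | h
  · rw [intervalIntegral.integral_of_le h, max_eq_left (sub_nonneg.2 h),
      setIntegral_congr_fun (g := fun _ => (1 : ℝ)) measurableSet_Ioc
        (fun t ht => by simp [caccPsi, ht.1])]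
    simp [h]
  · rw [intervalIntegral.integral_of_ge h.le, max_eq_right (sub_nonpos.2 h.le),
      setIntegral_congr_fun (g := fun _ => (0 : ℝ)) measurableSet_Ioc
        (fun t ht => by simp [caccPsi, not_lt.2 ht.2])]
    simp

theorem cacc_wd (hU : IsOpen U) {f : E → ℝ} {Df : E → E →L[ℝ] ℝ} (h : WD 2 U f Df) (k : ℝ) :
    WD 2 U (fun x => max (f x - k) 0) (fun x => caccPsi k (f x) • Df x) := by
  have := h.comp_primitive (by norm_num) hU (ψ := caccPsi k)
    (ψk := fun j s => min (max ((j : ℝ) * (s - k)) 0) 1) (fun j => by fun_prop) (L := 1)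
    (fun j s => by
      rw [Real.norm_eq_abs, abs_le]
      refine ⟨?_, min_le_right _ _⟩
      have : (0 : ℝ) ≤ min (max ((j : ℝ) * (s - k)) 0) 1 := le_min (le_max_right _ _) zero_le_one
      linarith)
    (fun s => by
      rcases lt_or_ge k s with hs | hs
      · have h1 : Tendsto (fun j : ℕ => (j : ℝ) * (s - k)) atTop atTop :=
          tendsto_natCast_atTop_atTop.atTop_mul_const (sub_pos.2 hs)
        refine tendsto_const_nhds.congr' ?_
        filter_upwards [h1.eventually_ge_atTop 1] with j hj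
        simp only [caccPsi, hs, if_true]
        rw [min_eq_right (le_max_of_le_left hj)]
      · refine tendsto_const_nhds.congr' (Eventually.of_forall fun j => ?_)
        have : (j : ℝ) * (s - k) ≤ 0 :=
          mul_nonpos_of_nonneg_of_nonpos (Nat.cast_nonneg j) (sub_nonpos.2 hs)
        simp only [caccPsi, not_lt.2 hs, if_false]
        rw [max_eq_right this, min_eq_left zero_le_one]) k
  simpa only [cacc_int] using this

theorem cacc_integrableOn {α : E → E →L[ℝ] E} (hα : ContinuousOn α U) {p q : E → E →L[ℝ] ℝ}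
    (hp : LocLp 2 U p) (hq : LocLp 2 U q) {K : Set E} (hK : IsCompact K) (hKU : K ⊆ U) :
    IntegrableOn (fun x => spair (α x) (p x) (q x)) K := by
  unfold spair
  refine integrable_finsetSum _ fun i _ => ?_
  have h1 : LocLp 2 U fun x => p x (ob E i) := hp.apply _
  have hc : ContinuousOn (fun x => α x (ob E i)) U := hα.clm_apply continuousOn_const
  have h2 : LocLp 2 U fun x => q x (α x (ob E i)) := by
    refine hq.of_le_mul hc.norm (fun K' hK' hKU' => ?_) (Eventually.of_forall fun x _ => ?_)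
    · exact (ContinuousLinearMap.id ℝ (E →L[ℝ] ℝ)).aestronglyMeasurable_comp₂ (hq K' hK' hKU').1
        ((hc.mono hKU').aestronglyMeasurable hK'.measurableSet)
    · rw [mul_comm]; exact (q x).le_opNorm _
  have a1 : MemLp (fun x => p x (ob E i)) 2 (volume.restrict K) := by
    simpa using h1 K hK hKU
  have a2 : MemLp (fun x => q x (α x (ob E i))) 2 (volume.restrict K) := by
    simpa using h2 K hK hKU
  exact a1.integrable_mul a2

omit [MeasurableSpace E] [BorelSpace E] in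
theorem cacc_pt {l L G : ℝ} (hl : 0 < l) {α : E →L[ℝ] E} (hα : Ell l L α) (p q : E →L[ℝ] ℝ)
    (hq : ‖q‖ ≤ G) (z s k : ℝ) :
    l * ‖z • caccPsi k s • p + q.smulRight (max (s - k) 0)‖ ^ 2 ≤
      spair α p (z • (z • caccPsi k s • p + q.smulRight (max (s - k) 0)) +
        q.smulRight (z • max (s - k) 0)) +
      Module.finrank ℝ E * |L| * G ^ 2 * max (s - k) 0 ^ 2 := by
  have h1 := le_spair hl.le hα (z • caccPsi k s • p + q.smulRight (max (s - k) 0))
  have h2 := spair_comm hα.1 p q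
  have h3 : spair α q q ≤ Module.finrank ℝ E * |L| * G ^ 2 := by
    refine (le_abs_self _).trans ((abs_spair_le α q q).trans ?_)
    have a1 : ‖α‖ ≤ |L| := hα.2.2.trans (le_abs_self _)
    have a2 : ‖q‖ * ‖q‖ ≤ G ^ 2 := by
      rw [sq]; exact mul_self_le_mul_self (norm_nonneg _) hq
    rw [mul_assoc _ ‖q‖]
    gcongr
  rcases lt_or_ge k s with hs | hs
  · have e : spair α (z • caccPsi k s • p + q.smulRight (max (s - k) 0))
        (z • caccPsi k s • p + q.smulRight (max (s - k) 0)) =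
        spair α p (z • (z • caccPsi k s • p + q.smulRight (max (s - k) 0)) +
          q.smulRight (z • max (s - k) 0)) + max (s - k) 0 ^ 2 * spair α q q +
          z * max (s - k) 0 * (spair α q p - spair α p q) := by
      simp only [spair, caccPsi, hs, if_true, one_smul, _root_.add_apply,
        _root_.smul_apply, ContinuousLinearMap.smulRight_apply, smul_eq_mul,
        Finset.mul_sum, ← Finset.sum_sub_distrib, ← Finset.sum_add_distrib]
      exact Finset.sum_congr rfl fun i _ => by ring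
    rw [e, h2, sub_self, mul_zero, add_zero] at h1
    have := mul_le_mul_of_nonneg_left h3 (sq_nonneg (max (s - k) 0))
    linarith
  · have e1 : max (s - k) 0 = 0 := max_eq_right (sub_nonpos.2 hs)
    have e2 : caccPsi k s = 0 := by simp [caccPsi, not_lt.2 hs]
    have e3 : q.smulRight (0 : ℝ) = 0 := by ext v; simp
    simp [e1, e2, e3, spair]

/-- Caccioppoli inequality for the truncation `ζ (f - k)₊` -/
theorem caccioppoli {l L : ℝ} (hl : 0 < l) : ∃ C : ℝ, 0 < C ∧
    ∀ (U K : Set E) (α : E → E →L[ℝ] E) (f : E → ℝ) (Df : E → E →L[ℝ] ℝ) (c k G : ℝ) (ζ : E → ℝ),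
      IsOpen U → IsCompact K → K ⊆ U → (∀ x ∈ K, Ell l L (α x)) → ContinuousOn α U →
      WD 2 U f Df → LB U f → 0 ≤ c → SubSol U K α Df c → IsTest K ζ →
      (∀ x, ζ x ∈ Icc (0 : ℝ) 1) → (∀ x, ‖fderiv ℝ ζ x‖ ≤ G) →
      ∃ Dv, WD 2 univ (fun x => ζ x * max (f x - k) 0) Dv ∧ MemLp Dv 2 volume ∧
        ∫ x, ‖Dv x‖ ^ 2 ≤ C * (G ^ 2 * (∫ x in tsupport ζ, max (f x - k) 0 ^ 2) +
          c * ∫ x in tsupport ζ, max (f x - k) 0) := by
  refine ⟨(Module.finrank ℝ E * |L| + 1) / l, by positivity, ?_⟩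
  intro U K α f Df c k G ζ hU hK hKU hα hαc hf hfb hc hsub hζ hζ1 hG
  have hT : IsCompact (tsupport ζ) := hζ.2.1
  have hTK : tsupport ζ ⊆ K := hζ.2.2
  have hTU : tsupport ζ ⊆ U := hTK.trans hKU
  have hu := cacc_wd hU hf k
  have hv := hu.globalize (by norm_num) hU (hζ.mono hKU)
  have hη := (hv.mono (subset_univ U)).smul (by norm_num) hζ.1
  set u : E → ℝ := fun x => max (f x - k) 0 with hudef
  set Dv : E → E →L[ℝ] ℝ := fun x => ζ x • caccPsi k (f x) • Df x +
    (fderiv ℝ ζ x).smulRight (max (f x - k) 0) with hDv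
  set Dη : E → E →L[ℝ] ℝ := fun x => ζ x • Dv x +
    (fderiv ℝ ζ x).smulRight (ζ x • max (f x - k) 0) with hDη
  have u0 : ∀ x, 0 ≤ u x := fun x => le_max_right _ _
  have z0 : ∀ x ∉ tsupport ζ, ζ x = 0 := fun x hx => image_eq_zero_of_notMem_tsupport hx
  have z1 : ∀ x ∉ tsupport ζ, fderiv ℝ ζ x = 0 := fun x hx =>
    image_eq_zero_of_notMem_tsupport (fun h' => hx (tsupport_fderiv_subset ℝ h'))
  have z2 : ∀ x ∉ tsupport ζ, Dv x = 0 := fun x hx => by simp [hDv, z0 x hx, z1 x hx]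
  have z3 : ∀ x ∉ tsupport ζ, Dη x = 0 := fun x hx => by simp [hDη, z0 x hx, z1 x hx]
  have le1 : ∀ x, ζ x • ζ x • u x ≤ u x := fun x => by
    have a1 : ζ x * ζ x ≤ 1 := mul_le_one₀ (hζ1 x).2 (hζ1 x).1 (hζ1 x).2
    have := mul_le_mul_of_nonneg_right a1 (u0 x)
    simp only [smul_eq_mul]
    linarith
  have ge0 : ∀ x, 0 ≤ ζ x • ζ x • u x := fun x =>
    mul_nonneg (hζ1 x).1 (mul_nonneg (hζ1 x).1 (u0 x))
  have hm : MemLp Dv 2 volume := by
    simpa using hv.2.1.memLp_of_support hT (subset_univ _) z2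
  refine ⟨Dv, hv, hm, ?_⟩
  have key := hsub (fun x => ζ x • ζ x • u x) Dη hη
    (fun K' hK' hKU' => by
      obtain ⟨C, hC⟩ := hfb K' hK' hKU'
      refine ⟨C + |k|, fun x hx => ?_⟩
      rw [Real.norm_of_nonneg (ge0 x)]
      refine (le1 x).trans (max_le ?_ ?_)
      · have := (le_abs_self _).trans (hC x hx)
        have := neg_abs_le k
        linarith
      · have := (norm_nonneg _).trans (hC x hx)
        positivity)
    (fun x _ => ge0 x) (fun x _ hx => by simp [z0 x (fun h => hx (hTK h))])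
  rw [setIntegral_eq_of_subset_of_forall_sdiff_eq_zero hU.measurableSet hTU
      (fun x hx => by simp [z3 x hx.2, spair]),
    setIntegral_eq_of_subset_of_forall_sdiff_eq_zero hU.measurableSet hTU
      (fun x hx => by simp [z0 x hx.2])] at key
  have iu : IntegrableOn u (tsupport ζ) := hu.1.integrableOn (by norm_num) hT hTU
  have iu2 : IntegrableOn (fun x => u x ^ 2) (tsupport ζ) := by
    have : MemLp u 2 (volume.restrict (tsupport ζ)) := by simpa using hu.1 _ hT hTU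
    exact this.integrable_sq
  have iη : IntegrableOn (fun x => ζ x • ζ x • u x) (tsupport ζ) :=
    hη.1.integrableOn (by norm_num) hT hTU
  have is := cacc_integrableOn hαc hf.2.1 hη.2.1 hT hTU
  have iv : IntegrableOn (fun x => ‖Dv x‖ ^ 2) (tsupport ζ) :=
    (hm.norm.integrable_sq).integrableOn
  have b1 : ∫ x in tsupport ζ, ζ x • ζ x • u x ≤ ∫ x in tsupport ζ, u x :=
    setIntegral_mono_on iη iu hT.measurableSet fun x _ => le1 x
  have b2 : ∫ x in tsupport ζ, l * ‖Dv x‖ ^ 2 ≤ ∫ x in tsupport ζ,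
      (spair (α x) (Df x) (Dη x) + Module.finrank ℝ E * |L| * G ^ 2 * u x ^ 2) :=
    setIntegral_mono_on (iv.const_mul _) (is.add (iu2.const_mul _)) hT.measurableSet
      fun x hx => cacc_pt hl (hα x (hTK hx)) _ _ (hG x) _ _ _
  rw [integral_const_mul, integral_add is (iu2.const_mul _), integral_const_mul,
    setIntegral_eq_integral_of_forall_compl_eq_zero (fun x hx => by simp [z2 x hx])] at b2
  have p1 : 0 ≤ ∫ x in tsupport ζ, u x := integral_nonneg fun x => u0 x
  have p2 : 0 ≤ ∫ x in tsupport ζ, u x ^ 2 := integral_nonneg fun x => sq_nonneg _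
  have b3 := mul_le_mul_of_nonneg_left b1 hc
  have p3 : 0 ≤ G ^ 2 * ∫ x in tsupport ζ, u x ^ 2 := by positivity
  have p4 : 0 ≤ (Module.finrank ℝ E * |L|) * (c * ∫ x in tsupport ζ, u x) := by positivity
  rw [div_mul_eq_mul_div, le_div_iff₀ hl]
  change _ ≤ _ * (G ^ 2 * (∫ x in tsupport ζ, u x ^ 2) + c * ∫ x in tsupport ζ, u x)
  nlinarith

end Pool.Agent.PW
end
end

-- part Pool.Agent.P.MP_65ad7c_ag.AKey
section

open MeasureTheory Set Filter Topology Metric Matrix
open scoped ComplexOrder ContDiff Matrix.Norms.Frobenius RealInnerProductSpace ENNReal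
open Pool.Agent.Lib.Sob

noncomputable section
namespace Pool.Agent.PW

variable {E : Type} [NormedAddCommGroup E] [InnerProductSpace ℝ E] [FiniteDimensional ℝ E] {r : ℕ}

variable {h h' : Mat r} {D D' : E →L[ℝ] Mat r} {α : E →L[ℝ] E}

theorem akey_det (hh : h.PosDef) : IsUnit h.det :=
  (Matrix.isUnit_iff_isUnit_det h).1 hh.isUnit

theorem akey_mul_inv (hh : h.PosDef) : h * h⁻¹ = 1 := Matrix.mul_nonsing_inv h (akey_det hh)

theorem akey_inv_mul (hh : h.PosDef) : h⁻¹ * h = 1 := Matrix.nonsing_inv_mul h (akey_det hh)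

theorem akey_mul_inv' (hh : h.PosDef) (X : Mat r) : h * (h⁻¹ * X) = X := by
  rw [← Matrix.mul_assoc, akey_mul_inv hh, Matrix.one_mul]

theorem akey_inv_mul' (hh : h.PosDef) (X : Mat r) : h⁻¹ * (h * X) = X := by
  rw [← Matrix.mul_assoc, akey_inv_mul hh, Matrix.one_mul]

theorem akey_inv_herm (hh : h.PosDef) : (h⁻¹)ᴴ = h⁻¹ := hh.isHermitian.inv

omit [FiniteDimensional ℝ E] in
theorem akey_dk_apply (v : E) :
    dk h h' D D' v = h⁻¹ * D' v - h⁻¹ * (D v * (h⁻¹ * h')) := rfl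

omit [FiniteDimensional ℝ E] in
theorem akey_mc_apply (v : E) : mc h D v = h⁻¹ * D v := rfl

omit [FiniteDimensional ℝ E] in
theorem akey_dsg_apply (v : E) :
    dsg h h' D D' v = (dk h h' D D' v).trace.re + (dk h' h D' D v).trace.re := by
  simp [dsg]

omit [FiniteDimensional ℝ E] in
/-- the adjoint of `dk` for the positive form -/
theorem akey_adj (hh : h.PosDef) (hh' : h'.PosDef) (hD : HermF D) (hD' : HermF D') (w : E) :
    h'⁻¹ * (dk h h' D D' w)ᴴ * h = mc h' D' w - mc h D w := by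
  rw [akey_dk_apply, akey_mc_apply, akey_mc_apply]
  simp only [conjTranspose_sub, conjTranspose_mul, akey_inv_herm hh, hD w, hD' w,
    hh'.isHermitian.eq, Matrix.mul_sub, Matrix.sub_mul, Matrix.mul_assoc, akey_inv_mul hh,
    akey_inv_mul' hh', Matrix.mul_one]

omit [FiniteDimensional ℝ E] in
theorem akey_nf_dk (hh : h.PosDef) (hh' : h'.PosDef) (hD : HermF D) (hD' : HermF D')
    (X : Mat r) (w : E) :
    nf h' h X (dk h h' D D' w) = (X * (mc h' D' w - mc h D w)).trace.re := by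
  rw [nf, ← akey_adj hh hh' hD hD' w]
  simp only [Matrix.mul_assoc]

omit [FiniteDimensional ℝ E] in
theorem akey_tr_dk (hh' : h'.PosDef) (v : E) :
    ((mc h' D' v - mc h D v) * (h⁻¹ * h')).trace = (dk h h' D D' v).trace := by
  rw [akey_dk_apply, akey_mc_apply, akey_mc_apply, Matrix.sub_mul, trace_sub, trace_sub,
    trace_mul_comm (h'⁻¹ * D' v)]
  simp only [Matrix.mul_assoc, akey_mul_inv' hh']

theorem akey_qq (hh : h.PosDef) (hh' : h'.PosDef) (hD : HermF D) (hD' : HermF D')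
    (hα : ∀ v w, ⟪α v, w⟫ = ⟪v, α w⟫) :
    qq α h h' D D' = pair α (mc h' D' - mc h D) (dkz h h' D D') := by
  rw [pair_comm hα, qq, npair, npair, pair, ← Finset.sum_add_distrib]
  refine Finset.sum_congr rfl fun i _ => ?_
  rw [akey_nf_dk hh hh' hD hD', akey_nf_dk hh' hh hD' hD, ← Complex.add_re, ← trace_add]
  congr 2
  simp only [dkz, _root_.sub_apply, Matrix.mul_sub, Matrix.sub_mul]
  abel

/-- the key identity -/
theorem pair_key (hh : h.PosDef) (hh' : h'.PosDef) (hD : HermF D) (hD' : HermF D')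
    (hα : ∀ v w, ⟪α v, w⟫ = ⟪v, α w⟫) (η : ℝ) (p : E →L[ℝ] ℝ) :
    pair α (mc h' D') (η • dkz h h' D D' + p.smulRight (kz h h')) -
      pair α (mc h D) (η • dkz h h' D D' + p.smulRight (kz h h')) =
      η * qq α h h' D D' + spair α (dsg h h' D D') p := by
  rw [akey_qq hh hh' hD hD' hα]
  simp only [pair, spair, Finset.mul_sum, ← Finset.sum_sub_distrib, ← Finset.sum_add_distrib]
  refine Finset.sum_congr rfl fun i _ => ?_
  have h1 := akey_tr_dk (h := h) (D := D) (D' := D') hh' (ob E i)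
  have h2 := akey_tr_dk (h := h') (D := D') (D' := D) hh (ob E i)
  rw [akey_dsg_apply, ← h1, ← h2]
  simp only [_root_.add_apply, _root_.smul_apply,
    ContinuousLinearMap.smulRight_apply, _root_.sub_apply, kz, Matrix.mul_add,
    Matrix.mul_smul, Matrix.mul_sub, Matrix.sub_mul, trace_add, trace_sub, trace_smul,
    Complex.add_re, Complex.sub_re, Complex.smul_re, smul_eq_mul]
  ring

theorem qq_nonneg (hh : h.PosDef) (hh' : h'.PosDef) (hα : ∀ v w, ⟪α v, w⟫ = ⟪v, α w⟫)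
    (hp : ∀ v, 0 ≤ ⟪v, α v⟫) : 0 ≤ qq α h h' D D' :=
  add_nonneg (npair_nonneg hh' hh hα hp _) (npair_nonneg hh hh' hα hp _)

theorem akey_nf_add (P Q X X' Y : Mat r) : nf P Q (X + X') Y = nf P Q X Y + nf P Q X' Y := by
  simp [nf, Matrix.add_mul]

theorem akey_nf_smul (P Q X Y : Mat r) (c : ℝ) : nf P Q (c • X) Y = c * nf P Q X Y := by
  simp [nf]

theorem akey_nf_add' (P Q X Y Y' : Mat r) : nf P Q X (Y + Y') = nf P Q X Y + nf P Q X Y' := by
  simp [nf, Matrix.add_mul, Matrix.mul_add]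

theorem akey_nf_smul' (P Q X Y : Mat r) (c : ℝ) : nf P Q X (c • Y) = c * nf P Q X Y := by
  simp [nf]

theorem akey_cs {a b s t m n : ℝ} (hs : 0 ≤ s) (ht : 0 ≤ t) (hm : 0 ≤ m) (hn : 0 ≤ n)
    (ha : a ^ 2 ≤ m * s) (hb : b ^ 2 ≤ n * t) : (a + b) ^ 2 ≤ (s + t) * (m + n) := by
  have h1 : (2 * a * b) ^ 2 ≤ (s * n + t * m) ^ 2 := by
    have h2 : a ^ 2 * b ^ 2 ≤ (m * s) * (n * t) :=
      mul_le_mul ha hb (sq_nonneg b) (mul_nonneg hm hs)
    nlinarith [sq_nonneg (s * n - t * m)]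
  have h3 : 2 * a * b ≤ s * n + t * m :=
    le_of_sq_le_sq h1 (add_nonneg (mul_nonneg hs hn) (mul_nonneg ht hm))
  nlinarith

/-- Cauchy-Schwarz for the contraction -/
theorem akey_contr (hh : h.PosDef) (hh' : h'.PosDef) (hα : ∀ v w, ⟪α v, w⟫ = ⟪v, α w⟫)
    (hp : ∀ v, 0 ≤ ⟪v, α v⟫) (X X' : E →L[ℝ] Mat r) (Y Y' : Mat r) (p : E →L[ℝ] ℝ)
    (hpv : ∀ v, p v = nf h' h (X v) Y + nf h h' (X' v) Y') :
    spair α p p ≤ (nf h' h Y Y + nf h h' Y' Y') * (npair α h' h X + npair α h h' X') := by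
  set s := nf h' h Y Y + nf h h' Y' Y' with hs
  let B : E →ₗ[ℝ] E →ₗ[ℝ] ℝ := LinearMap.mk₂ ℝ
    (fun v w => s * (nf h' h (X v) (X w) + nf h h' (X' v) (X' w)) - p v * p w)
    (fun v v' w => by simp only [map_add, akey_nf_add]; ring)
    (fun c v w => by simp only [map_smul, akey_nf_smul, smul_eq_mul]; ring)
    (fun v w w' => by simp only [map_add, akey_nf_add']; ring)
    (fun c v w => by simp only [map_smul, akey_nf_smul', smul_eq_mul]; ring)
  have hB : ∀ v w, B v w = s * (nf h' h (X v) (X w) + nf h h' (X' v) (X' w)) - p v * p w :=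
    fun v w => rfl
  have key := contr_ge (l := 0) B
    (fun v w => by rw [hB, hB, nf_comm hh' hh (X v), nf_comm hh hh' (X' v), mul_comm (p v)])
    (fun v => by
      rw [hB, ← sq, hpv v, sub_nonneg]
      exact akey_cs (nf_nonneg hh' hh _) (nf_nonneg hh hh' _) (nf_nonneg hh' hh _)
        (nf_nonneg hh hh' _) (nf_sq_le hh' hh _ _) (nf_sq_le hh hh' _ _))
    hα (fun v => by simpa using hp v)
  simp only [hB, zero_mul, Finset.sum_sub_distrib, ← Finset.mul_sum, Finset.sum_add_distrib,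
    sub_nonneg] at key
  exact key

theorem akey_nf_k (hh : h.PosDef) (hh' : h'.PosDef) (X : Mat r) :
    nf h' h X (h⁻¹ * h') = X.trace.re := by
  simp only [nf, conjTranspose_mul, akey_inv_herm hh, hh'.isHermitian.eq, Matrix.mul_assoc,
    akey_inv_mul hh, akey_inv_mul hh', Matrix.mul_one]

theorem spair_dsg_le (hh : h.PosDef) (hh' : h'.PosDef) (hα : ∀ v w, ⟪α v, w⟫ = ⟪v, α w⟫)
    (hp : ∀ v, 0 ≤ ⟪v, α v⟫) :
    spair α (dsg h h' D D') (dsg h h' D D') ≤ sg h h' * qq α h h' D D' := by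
  have key := akey_contr hh hh' hα hp (dk h h' D D') (dk h' h D' D) (h⁻¹ * h') (h'⁻¹ * h)
    (dsg h h' D D') fun v => by rw [akey_nf_k hh hh', akey_nf_k hh' hh, akey_dsg_apply]
  rwa [akey_nf_k hh hh', akey_nf_k hh' hh] at key

theorem akey_nf_k1 (hh : h.PosDef) (hh' : h'.PosDef) (X : Mat r) :
    nf h' h X (h⁻¹ * h' - 1) = X.trace.re - (X * (h'⁻¹ * h)).trace.re := by
  rw [← akey_nf_k hh hh' X]
  simp only [nf, conjTranspose_sub, conjTranspose_one, Matrix.mul_sub, Matrix.sub_mul,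
    Matrix.mul_one, trace_sub, Complex.sub_re, Matrix.mul_assoc]

omit [FiniteDimensional ℝ E] in
theorem akey_tr_dk' (hh : h.PosDef) (hh' : h'.PosDef) (v : E) :
    (dk h h' D D' v * (h'⁻¹ * h)).trace = (h'⁻¹ * D' v).trace - (h⁻¹ * D v).trace := by
  rw [akey_dk_apply, Matrix.sub_mul, trace_sub, trace_mul_comm (h⁻¹ * D' v)]
  simp only [Matrix.mul_assoc, akey_mul_inv' hh, akey_mul_inv' hh', akey_inv_mul hh,
    Matrix.mul_one]

theorem spair_dsg_le' (hh : h.PosDef) (hh' : h'.PosDef) (hα : ∀ v w, ⟪α v, w⟫ = ⟪v, α w⟫)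
    (hp : ∀ v, 0 ≤ ⟪v, α v⟫) :
    spair α (dsg h h' D D') (dsg h h' D D') ≤ 2 * (sg h h' - 2 * r) * qq α h h' D D' := by
  have key := akey_contr hh hh' hα hp (dk h h' D D') (dk h' h D' D) (h⁻¹ * h' - 1)
    (h'⁻¹ * h - 1) (dsg h h' D D') fun v => by
      rw [akey_nf_k1 hh hh', akey_nf_k1 hh' hh, akey_dsg_apply, akey_tr_dk' hh hh',
        akey_tr_dk' hh' hh, Complex.sub_re, Complex.sub_re]
      ring
  rw [← sg_sub_eq hh hh', ← sg_sub_eq hh' hh, sg_comm h' h, ← two_mul] at key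
  exact key

theorem dk_symm (hh : h.PosDef) (hh' : h'.PosDef) :
    dk h' h D' D = -lmul (h'⁻¹ * h) (rmul (dk h h' D D') (h'⁻¹ * h)) := by
  ext1 v
  simp only [_root_.neg_apply, lmul_apply, rmul_apply, akey_dk_apply,
    Matrix.mul_sub, Matrix.sub_mul, Matrix.mul_assoc, akey_mul_inv' hh, akey_mul_inv' hh',
    akey_inv_mul hh, Matrix.mul_one, neg_sub]

end Pool.Agent.PW
end
end

-- part Pool.Agent.P.MP_65ad7c_ag.ELog
section

open MeasureTheory Set Filter Topology Metric Matrix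
open scoped ComplexOrder ContDiff Matrix.Norms.Frobenius RealInnerProductSpace ENNReal
open Pool.Agent.Lib.Sob

noncomputable section
namespace Pool.Agent.PW

variable {E : Type} [NormedAddCommGroup E] [InnerProductSpace ℝ E] [FiniteDimensional ℝ E]
  [MeasurableSpace E] [BorelSpace E] {r : ℕ} {U : Set E} {Γ : Type} [Group Γ]
  {V : Type} [NormedAddCommGroup V] [NormedSpace ℝ V]

theorem elog_chain (hU : IsOpen U) {s : E → ℝ} {Ds : E → E →L[ℝ] ℝ} (hs : WD 2 U s Ds)
    (bs : LB U s) (h1 : ∀ x ∈ U, 1 ≤ s x) {F F' : ℝ → ℝ} (hF : ContDiffOn ℝ 1 F (Ioi 0))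
    (hF' : ∀ t, 0 < t → HasDerivAt F (F' t) t) :
    WD 2 U (fun x => F (s x)) (fun x => F' (s x) • Ds x) ∧ LB U fun x => F (s x) := by
  have key : ∀ K, IsCompact K → K ⊆ U → ∃ C : ℝ, ∀ x ∈ K, s x ∈ Icc 1 C := fun K hK hKU => by
    obtain ⟨C, hC⟩ := bs K hK hKU
    exact ⟨C, fun x hx => ⟨h1 x (hKU hx), (le_abs_self _).trans (hC x hx)⟩⟩
  have hsub : ∀ C : ℝ, Icc 1 C ⊆ Ioi (0 : ℝ) := fun C t ht => lt_of_lt_of_le one_pos ht.1
  constructor
  · refine (wd_chain one_le_two hU hs isOpen_Ioi hF fun K hK hKU => ?_).congr' (fun _ _ => rfl)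
      fun x hx => ?_
    · obtain ⟨C, hC⟩ := key K hK hKU
      exact ⟨Icc 1 C, isCompact_Icc, hsub C, Eventually.of_forall hC⟩
    · rw [(hF' (s x) (lt_of_lt_of_le one_pos (h1 x hx))).hasFDerivAt.fderiv]
      ext e
      simp [mul_comm]
  · intro K hK hKU
    obtain ⟨C, hC⟩ := key K hK hKU
    obtain ⟨B, hB⟩ := isCompact_Icc.exists_bound_of_continuousOn (hF.continuousOn.mono (hsub C))
    exact ⟨B, fun x hx => hB _ (hC x hx)⟩

theorem elog_mul (hU : IsOpen U) {a b : E → ℝ} {Da Db : E → E →L[ℝ] ℝ} (ha : WD 2 U a Da)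
    (hb : WD 2 U b Db) (ba : LB U a) (bb : LB U b) :
    WD 2 U (fun x => a x * b x) (fun x => b x • Da x + a x • Db x) ∧ LB U fun x => a x * b x := by
  refine ⟨(wd_bilin one_le_two hU (ContinuousLinearMap.mul ℝ ℝ) ha hb ba bb).congr'
    (fun _ _ => rfl) fun x _ => ?_, ba.bilin (ContinuousLinearMap.mul ℝ ℝ) bb⟩
  ext e
  simp

omit [MeasurableSpace E] [BorelSpace E] in
theorem elog_point {α : E →L[ℝ] E} {p q : E →L[ℝ] ℝ} {s φ Q : ℝ} (hs : 0 < s) (hφ : 0 ≤ φ)
    (h : spair α p p ≤ s * Q) :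
    spair α (s⁻¹ • p) q ≤ φ * s⁻¹ * Q + spair α p (s⁻¹ • q + φ • (-(s ^ 2)⁻¹ • p)) := by
  have e1 : spair α (s⁻¹ • p) q = s⁻¹ * spair α p q := by
    simp only [spair, _root_.smul_apply, smul_eq_mul, Finset.mul_sum, mul_assoc]
  have e2 : spair α p (s⁻¹ • q + φ • (-(s ^ 2)⁻¹ • p)) =
      s⁻¹ * spair α p q - φ * (s ^ 2)⁻¹ * spair α p p := by
    simp only [spair, _root_.smul_apply, _root_.add_apply, smul_eq_mul, Finset.mul_sum,
      ← Finset.sum_sub_distrib]
    exact Finset.sum_congr rfl fun i _ => by ring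
  have e3 : φ * (s ^ 2)⁻¹ * spair α p p ≤ φ * (s ^ 2)⁻¹ * (s * Q) :=
    mul_le_mul_of_nonneg_left h (by positivity)
  have e4 : φ * (s ^ 2)⁻¹ * (s * Q) = φ * s⁻¹ * Q := by field_simp
  rw [e1, e2]
  linarith

/-- from the differential inequality for `sg` to the one for `log sg` -/
theorem sub_log_local (hr : 0 < r) (hU : IsOpen U) {K : Set E} (hK : IsCompact K) (hKU : K ⊆ U)
    {α : E → E →L[ℝ] E} (hα : Coef U α) {u v : E → Mat r} {D D' : E → E →L[ℝ] Mat r}
    (hu : WD 2 U u D) (hv : WD 2 U v D') (bu : LBd U u) (bv : LBd U v) {c : ℝ}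
    (h : ∀ (η : E → ℝ) (Dη : E → E →L[ℝ] ℝ), WD 2 U η Dη → LB U η → (∀ x ∈ U, 0 ≤ η x) →
      (∀ x ∈ U, x ∉ K → η x = 0) →
      ∫ x in U, (η x * qq (α x) (u x) (v x) (D x) (D' x) +
        spair (α x) (dsg (u x) (v x) (D x) (D' x)) (Dη x)) ≤
        c * ∫ x in U, η x * sg (u x) (v x)) :
    ∃ Df, WD 2 U (fun x => Real.log (sg (u x) (v x))) Df ∧
      LB U (fun x => Real.log (sg (u x) (v x))) ∧ SubSol U K α Df c := by
  obtain ⟨hs, bs⟩ := wd_sg hU hu hv bu bv
  have h1 : ∀ x ∈ U, 1 ≤ sg (u x) (v x) := fun x hx => by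
    have h2 := le_sg (bu.posDef x hx) (bv.posDef x hx)
    have h3 : (1 : ℝ) ≤ r := by exact_mod_cast hr
    linarith
  have h0 : ∀ x ∈ U, 0 < sg (u x) (v x) := fun x hx => lt_of_lt_of_le one_pos (h1 x hx)
  obtain ⟨hf, bf⟩ := elog_chain hU hs bs h1 (F := Real.log) (F' := fun t => t⁻¹)
    (Real.contDiffOn_log.mono fun t ht => ne_of_gt ht) fun t ht => Real.hasDerivAt_log ht.ne'
  obtain ⟨hw, bw⟩ := elog_chain hU hs bs h1 (F := fun t => t⁻¹) (F' := fun t => -(t ^ 2)⁻¹)
    ((contDiffOn_inv ℝ).mono fun t ht => ne_of_gt ht) fun t ht => hasDerivAt_inv ht.ne'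
  refine ⟨_, hf, bf, fun φ Dφ hφ bφ pφ zφ => ?_⟩
  obtain ⟨hη, bη⟩ := elog_mul hU hφ hw bφ bw
  have zη : ∀ x ∈ U, x ∉ K → φ x * (sg (u x) (v x))⁻¹ = 0 := fun x hx hx' => by
    rw [zφ x hx hx', zero_mul]
  have h2 := h _ _ hη bη (fun x hx => mul_nonneg (pφ x hx) (inv_nonneg.2 (h0 x hx).le)) zη
  have h3 : ∫ x in U, φ x * (sg (u x) (v x))⁻¹ * sg (u x) (v x) = ∫ x in U, φ x :=
    setIntegral_congr_fun hU.measurableSet fun x hx => by
      simp only [mul_assoc, inv_mul_cancel₀ (h0 x hx).ne', mul_one]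
  rw [h3] at h2
  have cα : ContinuousOn α U := hα.1.continuousOn
  refine le_trans (setIntegral_mono_on ?_ ?_ hU.measurableSet fun x hx => ?_) h2
  · refine (integrableOn_of_cs hU (locLp_spair cα hf.2.1 hφ.2.1) hK hKU ?_).1
    filter_upwards [wd_cs_ae one_le_two hU hφ hK.isClosed zφ] with x h4 hx hx'
    simp [spair, h4 hx hx']
  · refine (integrableOn_of_cs hU ((locLp_bilin_lb (ContinuousLinearMap.mul ℝ ℝ) hη.1 bη
      (locLp_qq hU cα hu hv bu bv)).add (locLp_spair cα hs.2.1 hη.2.1)) hK hKU ?_).1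
    filter_upwards [wd_cs_ae one_le_two hU hη hK.isClosed zη] with x h4 hx hx'
    rw [h4 hx hx', zη x hx hx']
    simp [spair]
  · refine elog_point (h0 x hx) (pφ x hx) (spair_dsg_le (bu.posDef x hx) (bv.posDef x hx)
      (hα.2 x hx).1 fun w => ?_)
    rcases eq_or_ne w 0 with rfl | hw0
    · simp
    · exact ((hα.2 x hx).2 w hw0).le

end Pool.Agent.PW
end
end

-- part Pool.Agent.P.MP_65ad7c_ag.AVar
section

open MeasureTheory Set Filter Topology Metric Matrix
open scoped ComplexOrder ContDiff Matrix.Norms.Frobenius RealInnerProductSpace ENNReal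
open Pool.Agent.Lib.Sob

noncomputable section
namespace Pool.Agent.PW

variable {E : Type} [NormedAddCommGroup E] [InnerProductSpace ℝ E] [FiniteDimensional ℝ E] {r : ℕ}

/-- unitary diagonalisation -/
theorem avar_unit {Q : Mat r} (hQ : Q.IsHermitian) :
    ∃ (U : Mat r) (μ : Fin r → ℝ), U * Uᴴ = 1 ∧ Uᴴ * U = 1 ∧
      gm Q U = diagonal fun i => (μ i : ℂ) := by
  refine ⟨hQ.eigenvectorUnitary, hQ.eigenvalues, ?_, ?_, ?_⟩
  · exact Unitary.coe_mul_star_self hQ.eigenvectorUnitary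
  · exact Unitary.coe_star_mul_self hQ.eigenvectorUnitary
  · have h := hQ.conjStarAlgAut_star_eigenvectorUnitary
    rw [Unitary.conjStarAlgAut_star_apply] at h
    exact h

theorem avar_gm_herm {Q : Mat r} (hQ : Q.IsHermitian) (u : Mat r) : (gm Q u).IsHermitian := by
  unfold gm
  exact isHermitian_conjTranspose_mul_mul u hQ

theorem avar_gm_diag (a b : Fin r → ℝ) :
    gm (diagonal fun i => (a i : ℂ)) (diagonal fun i => (b i : ℂ)) =
      diagonal fun i => ((a i * b i ^ 2 : ℝ) : ℂ) := by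
  unfold gm
  rw [diagonal_conjTranspose, diagonal_mul_diagonal, diagonal_mul_diagonal]
  congr 1
  funext i
  simp only [Pi.star_apply, RCLike.star_def, Complex.conj_ofReal]
  push_cast
  ring

theorem avar_normalise {P : Mat r} (hP : P.PosDef) :
    ∃ u u' : Mat r, u * u' = 1 ∧ gm P u = 1 := by
  obtain ⟨U, μ, h1, -, h3⟩ := avar_unit hP.isHermitian
  have hpos : ∀ i, 0 < μ i := by
    have h4 := gm_posDef hP h1
    rw [h3, posDef_diagonal_iff] at h4
    intro i
    exact_mod_cast h4 i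
  have hs : ∀ i, √(μ i) ≠ 0 := fun i => (Real.sqrt_pos.2 (hpos i)).ne'
  refine ⟨U * diagonal fun i => (((√(μ i))⁻¹ : ℝ) : ℂ),
    (diagonal fun i => ((√(μ i) : ℝ) : ℂ)) * Uᴴ, ?_, ?_⟩
  · rw [Matrix.mul_assoc, ← Matrix.mul_assoc (diagonal _), diagonal_mul_diagonal]
    have : (fun i => (((√(μ i))⁻¹ : ℝ) : ℂ) * ((√(μ i) : ℝ) : ℂ)) = fun _ => 1 := by
      funext i
      rw [← Complex.ofReal_mul, inv_mul_cancel₀ (hs i), Complex.ofReal_one]
    rw [this, diagonal_one, Matrix.one_mul, h1]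
  · rw [← gm_gm, h3, avar_gm_diag]
    have : (fun i => ((μ i * ((√(μ i))⁻¹) ^ 2 : ℝ) : ℂ)) = fun _ => 1 := by
      funext i
      rw [inv_pow, Real.sq_sqrt (hpos i).le, mul_inv_cancel₀ (hpos i).ne', Complex.ofReal_one]
    rw [this, diagonal_one]

/-- simultaneous diagonalisation -/
theorem exists_simul_diag {P Q : Mat r} (hP : P.PosDef) (hQ : Q.IsHermitian) :
    ∃ (u u' : Mat r) (μ : Fin r → ℝ), u * u' = 1 ∧ gm P u = 1 ∧
      gm Q u = diagonal fun i => (μ i : ℂ) := by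
  obtain ⟨v, v', h1, h2⟩ := avar_normalise hP
  obtain ⟨U, μ, h3, h4, h5⟩ := avar_unit (avar_gm_herm hQ v)
  refine ⟨v * U, Uᴴ * v', μ, ?_, ?_, ?_⟩
  · rw [Matrix.mul_assoc, ← Matrix.mul_assoc U, h3, Matrix.one_mul, h1]
  · rw [← gm_gm, h2]
    unfold gm
    rw [Matrix.mul_one, h4]
  · rw [← gm_gm, h5]

theorem avar_smul_one (c : ℝ) : c • (1 : Mat r) = Matrix.diagonal fun _ => (c : ℂ) := by
  ext i j
  by_cases hij : i = j
  · subst hij
    simp
  · simp [hij]

theorem avar_obst_diag (C : ℝ) (μ : Fin r → ℝ) :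
    Obst C 1 (diagonal fun i => (μ i : ℂ)) ↔ ∀ i, C⁻¹ ≤ μ i ∧ μ i ≤ C := by
  unfold Obst
  rw [avar_smul_one, avar_smul_one, diagonal_sub, diagonal_sub, posSemidef_diagonal_iff,
    posSemidef_diagonal_iff, ← forall_and]
  refine forall_congr' fun i => ?_
  rw [← Complex.ofReal_sub, ← Complex.ofReal_sub, Complex.zero_le_real, Complex.zero_le_real,
    sub_nonneg, sub_nonneg]

theorem avar_inv_diag {a : Fin r → ℝ} (ha : ∀ i, a i ≠ 0) :
    (diagonal fun i => (a i : ℂ))⁻¹ = diagonal fun i => (((a i)⁻¹ : ℝ) : ℂ) := by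
  apply Matrix.inv_eq_right_inv
  rw [diagonal_mul_diagonal]
  have : (fun i => (a i : ℂ) * (((a i)⁻¹ : ℝ) : ℂ)) = fun _ => 1 := by
    funext i
    rw [← Complex.ofReal_mul, mul_inv_cancel₀ (ha i), Complex.ofReal_one]
  rw [this, diagonal_one]

theorem avar_kz_diag {a b : Fin r → ℝ} (ha : ∀ i, a i ≠ 0) (hb : ∀ i, b i ≠ 0) :
    kz (diagonal fun i => (a i : ℂ)) (diagonal fun i => (b i : ℂ)) =
      diagonal fun i => (((a i)⁻¹ * b i - (b i)⁻¹ * a i : ℝ) : ℂ) := by
  unfold kz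
  rw [avar_inv_diag ha, avar_inv_diag hb, diagonal_mul_diagonal, diagonal_mul_diagonal,
    diagonal_sub]
  congr 1
  funext i
  push_cast
  ring

theorem avar_inv_mul_gm {P Q u u' : Mat r} (hP : P.PosDef) (hu : u * u' = 1) :
    (gm P u)⁻¹ * gm Q u = u' * (P⁻¹ * Q) * u := by
  rw [gm_inv hP hu]
  have h1 : u'ᴴ * uᴴ = 1 := by rw [← conjTranspose_mul, hu, conjTranspose_one]
  unfold gm
  calc u' * P⁻¹ * u'ᴴ * (uᴴ * Q * u) = u' * P⁻¹ * (u'ᴴ * uᴴ) * Q * u := by
        simp only [Matrix.mul_assoc]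
    _ = u' * (P⁻¹ * Q) * u := by
        rw [h1]
        simp only [Matrix.mul_assoc, Matrix.mul_one]

theorem avar_kz_gm {P Q u u' : Mat r} (hP : P.PosDef) (hQ : Q.PosDef) (hu : u * u' = 1) :
    kz (gm P u) (gm Q u) = u' * kz P Q * u := by
  unfold kz
  rw [avar_inv_mul_gm hP hu, avar_inv_mul_gm hQ hu, Matrix.mul_sub, Matrix.sub_mul]

theorem avar_gm_smul (t : ℝ) (P u : Mat r) : gm (t • P) u = t • gm P u := by
  unfold gm
  rw [Matrix.mul_smul, Matrix.smul_mul]

/-- the scalar inequality, normalised -/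
theorem avar_scalar0 {K κ s : ℝ} (hK : 1 ≤ K) (h1 : K⁻¹ ≤ κ) (h2 : κ ≤ K) (hs0 : 0 ≤ s)
    (hs : s ≤ (8 * K)⁻¹) :
    min 1 κ ≤ (1 + s * (κ - κ⁻¹)) ^ 2 ∧ (1 + s * (κ - κ⁻¹)) ^ 2 ≤ max 1 κ := by
  have hK0 : 0 < K := by linarith
  have hκ : 0 < κ := lt_of_lt_of_le (inv_pos.2 hK0) h1
  have hsK : s * K ≤ 1 / 8 := by
    have := mul_le_mul_of_nonneg_right hs hK0.le
    rwa [mul_inv, mul_assoc, inv_mul_cancel₀ hK0.ne', mul_one, ← one_div] at this
  have hs1 : s ≤ 1 / 8 := by nlinarith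
  have hi0 : 0 < κ⁻¹ := inv_pos.2 hκ
  have hiK : κ⁻¹ ≤ K := by
    have := inv_anti₀ (inv_pos.2 hK0) h1
    rwa [inv_inv] at this
  have hm : κ * κ⁻¹ = 1 := mul_inv_cancel₀ hκ.ne'
  have hid : κ - κ⁻¹ = (κ - 1) * (1 + κ⁻¹) := by
    rw [sub_mul, mul_add, hm]
    ring
  rcases le_total 1 κ with hc | hc
  · have hi1 : κ⁻¹ ≤ 1 := inv_le_one_of_one_le₀ hc
    rw [min_eq_left hc, max_eq_right hc]
    have ha0 : 0 ≤ s * (κ - κ⁻¹) := mul_nonneg hs0 (by linarith)
    have ha1 : s * (κ - κ⁻¹) ≤ (κ - 1) / 4 := by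
      rw [hid]
      have h3 : (κ - 1) * (1 + κ⁻¹) ≤ (κ - 1) * 2 :=
        mul_le_mul_of_nonneg_left (by linarith) (by linarith)
      have h4 : 0 ≤ (κ - 1) * (1 + κ⁻¹) := mul_nonneg (by linarith) (by linarith)
      nlinarith
    have ha2 : s * (κ - κ⁻¹) ≤ 1 / 8 := by
      have : s * (κ - κ⁻¹) ≤ s * K := mul_le_mul_of_nonneg_left (by linarith) hs0
      linarith
    generalize s * (κ - κ⁻¹) = a at ha0 ha1 ha2
    constructor <;> nlinarith
  · rw [min_eq_right hc, max_eq_left hc]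
    have hi1 : 1 ≤ κ⁻¹ := (one_le_inv₀ hκ).2 hc
    have ha0 : s * (κ - κ⁻¹) ≤ 0 := mul_nonpos_of_nonneg_of_nonpos hs0 (by linarith)
    have ha1 : -((1 - κ) / 4) ≤ s * (κ - κ⁻¹) := by
      rw [hid]
      have h3 : s * (1 + κ⁻¹) ≤ 1 / 4 := by
        have : s * κ⁻¹ ≤ s * K := mul_le_mul_of_nonneg_left hiK hs0
        linarith
      have h4 : (1 - κ) * (s * (1 + κ⁻¹)) ≤ (1 - κ) * (1 / 4) :=
        mul_le_mul_of_nonneg_left h3 (by linarith)
      linarith
    generalize s * (κ - κ⁻¹) = a at ha0 ha1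
    constructor <;> nlinarith

theorem avar_scalar {C μ t s : ℝ} (hC : 1 ≤ C) (hμ1 : C⁻¹ ≤ μ) (hμ2 : μ ≤ C) (h1 : C⁻¹ ≤ t)
    (h2 : t ≤ C) (hs0 : 0 ≤ s) (hs : s ≤ (8 * C ^ 2)⁻¹) :
    C⁻¹ ≤ μ * (1 + s * (μ⁻¹ * t - t⁻¹ * μ)) ^ 2 ∧ μ * (1 + s * (μ⁻¹ * t - t⁻¹ * μ)) ^ 2 ≤ C := by
  have hC0 : 0 < C := by linarith
  have hCi : 0 < C⁻¹ := inv_pos.2 hC0
  have hμ : 0 < μ := lt_of_lt_of_le hCi hμ1
  have ht : 0 < t := lt_of_lt_of_le hCi h1
  have hi1 : C⁻¹ ≤ μ⁻¹ := inv_anti₀ hμ hμ2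
  have hi2 : μ⁻¹ ≤ C := by
    have := inv_anti₀ hCi hμ1
    rwa [inv_inv] at this
  have hk1 : (C ^ 2)⁻¹ ≤ μ⁻¹ * t := by
    rw [← inv_pow, sq]
    exact mul_le_mul hi1 h1 hCi.le (inv_pos.2 hμ).le
  have hk2 : μ⁻¹ * t ≤ C ^ 2 := by
    rw [sq]
    exact mul_le_mul hi2 h2 ht.le hC0.le
  have hinv : (μ⁻¹ * t)⁻¹ = t⁻¹ * μ := by rw [_root_.mul_inv_rev, inv_inv]
  obtain ⟨h3, h4⟩ := avar_scalar0 (one_le_pow₀ hC) hk1 hk2 hs0 hs
  rw [hinv] at h3 h4
  have hmt : μ * (μ⁻¹ * t) = t := by rw [← mul_assoc, mul_inv_cancel₀ hμ.ne', one_mul]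
  constructor
  · refine le_trans ?_ (mul_le_mul_of_nonneg_left h3 hμ.le)
    rw [mul_min_of_nonneg _ _ hμ.le, mul_one, hmt]
    exact le_min hμ1 h1
  · refine le_trans (mul_le_mul_of_nonneg_left h4 hμ.le) ?_
    rw [mul_max_of_nonneg _ _ hμ.le, mul_one, hmt]
    exact max_le hμ2 h2

/-- the variation towards `t H` respects the obstacles -/
theorem obst_var {C : ℝ} (hC : 1 ≤ C) {H h : Mat r} (hH : H.PosDef) (ho : Obst C H h) {t s : ℝ}
    (h1 : C⁻¹ ≤ t) (h2 : t ≤ C) (hs0 : 0 ≤ s) (hs : s ≤ (8 * C ^ 2)⁻¹) :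
    Obst C H (gm h (1 + s • kz h (t • H))) := by
  have hC0 : 0 < C := by linarith
  have hCi : 0 < C⁻¹ := inv_pos.2 hC0
  have ht : 0 < t := lt_of_lt_of_le hCi h1
  have hh : h.PosDef := ho.posDef hH hC0
  have htH : (t • H).PosDef := hH.smul ht
  obtain ⟨u, u', μ, hu, hHu, hhu⟩ := exists_simul_diag hH hh.isHermitian
  have hu' : u' * u = 1 := mul_eq_one_comm.1 hu
  have hμ : ∀ i, C⁻¹ ≤ μ i ∧ μ i ≤ C := by
    have := ho.gm u
    rwa [hHu, hhu, avar_obst_diag] at this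
  have hμ0 : ∀ i, μ i ≠ 0 := fun i => (lt_of_lt_of_le hCi (hμ i).1).ne'
  have hk : u' * kz h (t • H) * u =
      diagonal fun i => (((μ i)⁻¹ * t - t⁻¹ * μ i : ℝ) : ℂ) := by
    rw [← avar_kz_gm hh htH hu, avar_gm_smul, hHu, hhu, avar_smul_one,
      avar_kz_diag hμ0 fun _ => ht.ne']
  have hw : (1 + s • kz h (t • H)) * u =
      u * diagonal fun i => ((1 + s * ((μ i)⁻¹ * t - t⁻¹ * μ i) : ℝ) : ℂ) := by
    have h3 : (diagonal fun i => ((1 + s * ((μ i)⁻¹ * t - t⁻¹ * μ i) : ℝ) : ℂ)) =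
        1 + s • (u' * kz h (t • H) * u) := by
      rw [hk, ← diagonal_one, ← diagonal_smul, diagonal_add]
      congr 1
      funext i
      simp only [Pi.smul_apply, Complex.real_smul]
      push_cast
      ring
    rw [h3, Matrix.add_mul, Matrix.mul_add, Matrix.one_mul, Matrix.mul_one, Matrix.smul_mul,
      Matrix.mul_smul, ← Matrix.mul_assoc, ← Matrix.mul_assoc, hu, Matrix.one_mul]
  have hfin : Obst C (gm H u) (gm (gm h (1 + s • kz h (t • H))) u) := by
    rw [hHu, gm_gm, hw, ← gm_gm, hhu, avar_gm_diag, avar_obst_diag]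
    exact fun i => avar_scalar hC (hμ i).1 (hμ i).2 h1 h2 hs0 hs
  have := hfin.gm u'
  rwa [gm_gm, gm_gm _ u, hu, gm_one, gm_one] at this

/-- a Hermitian matrix is bounded below by minus its norm -/
theorem avar_psd {W : Mat r} (hW : W.IsHermitian) {c : ℝ} (hc : ‖W‖ ≤ c) :
    (c • (1 : Mat r) + W).PosSemidef := by
  obtain ⟨U, μ, h1, h2, h3⟩ := avar_unit hW
  have hμ : ∀ i, 0 ≤ c + μ i := by
    intro i
    have hE : (single i i (1 : ℂ) : Mat r).PosSemidef := by
      rw [← diagonal_single, posSemidef_diagonal_iff]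
      intro j
      by_cases hij : j = i
      · subst hij
        simp
      · simp [hij]
    have hP : (U * single i i (1 : ℂ) * Uᴴ : Mat r).PosSemidef := hE.mul_mul_conjTranspose_same U
    have ht : (U * single i i (1 : ℂ) * Uᴴ : Mat r).trace = 1 := by
      rw [trace_mul_cycle, h2, Matrix.one_mul, trace_single_eq_same]
    have hn := norm_le_trace hP
    rw [ht, Complex.one_re] at hn
    have h4 : (W * (U * single i i (1 : ℂ) * Uᴴ)).trace = μ i := by
      rw [← Matrix.mul_assoc, trace_mul_comm, ← Matrix.mul_assoc, ← Matrix.mul_assoc]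
      change (gm W U * single i i (1 : ℂ)).trace = μ i
      rw [h3, trace_mul_single]
      simp
    have h5 := abs_trace_mul_le W (U * single i i (1 : ℂ) * Uᴴ)
    rw [h4, Complex.norm_real, Real.norm_eq_abs] at h5
    have h6 : ‖W‖ * ‖(U * single i i (1 : ℂ) * Uᴴ : Mat r)‖ ≤ ‖W‖ * 1 :=
      mul_le_mul_of_nonneg_left hn (norm_nonneg _)
    have := neg_abs_le (μ i)
    linarith
  have h7 : c • (1 : Mat r) + W = U * (diagonal fun i => ((c + μ i : ℝ) : ℂ)) * Uᴴ := by
    have h8 : (diagonal fun i => ((c + μ i : ℝ) : ℂ)) = c • (1 : Mat r) + gm W U := by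
      rw [h3, avar_smul_one, diagonal_add]
      congr 1
      funext i
      push_cast
      ring
    rw [h8, Matrix.mul_add, Matrix.add_mul, Matrix.mul_smul, Matrix.smul_mul, Matrix.mul_one, h1]
    congr 1
    unfold gm
    calc W = (U * Uᴴ) * W * (U * Uᴴ) := by rw [h1, Matrix.one_mul, Matrix.mul_one]
      _ = _ := by simp only [Matrix.mul_assoc]
  rw [h7]
  refine PosSemidef.mul_mul_conjTranspose_same ?_ U
  rw [posSemidef_diagonal_iff]
  intro i
  exact Complex.zero_le_real.2 (hμ i)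

/-- small variations -/
theorem obst_free (r : ℕ) {B : ℝ} (hB : 1 ≤ B) : ∃ δ : ℝ, 0 < δ ∧
    ∀ h Z : Mat r, Bd B h → ‖Z‖ ≤ δ → Obst 2 h (gm h (1 + Z)) := by
  have hB0 : 0 < B := by linarith
  have hr : (0 : ℝ) ≤ r := Nat.cast_nonneg r
  have hD : 0 < 6 * r * B ^ 2 + 1 := by positivity
  refine ⟨(6 * r * B ^ 2 + 1)⁻¹, inv_pos.2 hD, fun h Z hh hZ => ?_⟩
  have hp := hh.posDef hB0
  have hn := hh.norm_le hB0
  have hZ0 := norm_nonneg Z
  have hZ1 : ‖Z‖ * (6 * r * B ^ 2 + 1) ≤ 1 := by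
    have := mul_le_mul_of_nonneg_right hZ hD.le
    rwa [inv_mul_cancel₀ hD.ne'] at this
  have hZ2 : ‖Z‖ ≤ 1 := by
    have : 0 ≤ ‖Z‖ * (6 * r * B ^ 2) := by positivity
    linarith
  obtain ⟨W, hWd⟩ : ∃ W, W = gm h (1 + Z) - h := ⟨_, rfl⟩
  have hWh : W.IsHermitian := hWd ▸ (avar_gm_herm hp.isHermitian _).sub hp.isHermitian
  have hWe : W = Zᴴ * h + h * Z + Zᴴ * h * Z := by
    rw [hWd]
    unfold gm
    rw [conjTranspose_add, conjTranspose_one]
    noncomm_ring
  have hZH : ‖Zᴴ‖ = ‖Z‖ := Matrix.frobenius_norm_conjTranspose Z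
  have hWn : ‖W‖ ≤ (2 * B)⁻¹ := by
    have e1 : ‖Zᴴ * h‖ ≤ ‖Z‖ * (r * B) := by
      refine (norm_mul_le _ _).trans ?_
      rw [hZH]
      exact mul_le_mul_of_nonneg_left hn hZ0
    have e2 : ‖h * Z‖ ≤ (r * B) * ‖Z‖ :=
      (norm_mul_le _ _).trans (mul_le_mul_of_nonneg_right hn hZ0)
    have e3 : ‖Zᴴ * h * Z‖ ≤ ‖Z‖ * (r * B) * 1 :=
      (norm_mul_le _ _).trans (mul_le_mul e1 hZ2 hZ0 (by positivity))
    have e4 : ‖W‖ ≤ 3 * (‖Z‖ * (r * B)) := by
      rw [hWe]
      have := norm_add₃_le (a := Zᴴ * h) (b := h * Z) (c := Zᴴ * h * Z)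
      linarith
    rw [← one_div, le_div_iff₀ (by positivity)]
    have e5 := mul_le_mul_of_nonneg_right e4 (show 0 ≤ 2 * B by positivity)
    nlinarith
  have hg : gm h (1 + Z) = h + W := by rw [hWd]; abel
  have p1 := avar_psd hWh hWn
  have p2 := avar_psd hWh.neg (c := (2 * B)⁻¹) (by rwa [norm_neg])
  have p3 : (h - B⁻¹ • (1 : Mat r)).PosSemidef := hh.1
  have p4 : ((2 * B)⁻¹ • (1 : Mat r)).PosSemidef := PosSemidef.one.smul (by positivity)
  have hBi : B⁻¹ = 2 * (2 * B)⁻¹ := by field_simp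
  rw [hg]
  constructor
  · have : h + W - (2 : ℝ)⁻¹ • h =
        (2 : ℝ)⁻¹ • (h - B⁻¹ • (1 : Mat r)) + ((2 * B)⁻¹ • (1 : Mat r) + W) := by
      rw [hBi]
      module
    rw [this]
    exact (p3.smul (by positivity)).add p1
  · have : (2 : ℝ) • h - (h + W) = (h - B⁻¹ • (1 : Mat r)) + ((2 * B)⁻¹ • (1 : Mat r) + -W) +
        (2 * B)⁻¹ • (1 : Mat r) := by
      rw [hBi]
      module
    rw [this]
    exact (p3.add p2).add p4

end Pool.Agent.PW
end
end

-- part Pool.Agent.P.MP_65ad7c_ag.ESub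
section

open MeasureTheory Set Filter Topology Metric Matrix
open scoped ComplexOrder ContDiff Matrix.Norms.Frobenius RealInnerProductSpace ENNReal
open Pool.Agent.Lib.Sob

noncomputable section
namespace Pool.Agent.PW

variable {E : Type} [NormedAddCommGroup E] [InnerProductSpace ℝ E] [FiniteDimensional ℝ E]
  [MeasurableSpace E] [BorelSpace E] {r : ℕ} {U : Set E} {Γ : Type} [Group Γ]
  {V : Type} [NormedAddCommGroup V] [NormedSpace ℝ V]
  {A : Atlas E Γ} {χ : A.ι → E → ℝ} {ρ : Γ →* Mat r} {H h : A.ι → E → Mat r}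
  {D : A.ι → E → E →L[ℝ] Mat r} {C : ℝ}

/-- `log sg (h, t H)` is a subsolution -/
theorem Atlas.sub_log (A : Atlas E Γ) (hr : 0 < r) {χ : A.ι → E → ℝ} (hχ : A.Pou (ball 0 6) χ)
    {B : ℝ} (hB : 1 ≤ B) : ∃ C₁ : ℝ, 0 ≤ C₁ ∧
    ∀ (ρ : Γ →* Mat r) H C h D (t : ℝ), A.Ref ρ H → A.RefBd B H → 1 ≤ C → A.IsMin χ ρ H C h D →
      C⁻¹ ≤ t → t ≤ C → ∀ b, ∃ Df,
        WD 2 (ball 0 6) (fun x => Real.log (sg (h b x) (t • H b x))) Df ∧
        LB (ball 0 6) (fun x => Real.log (sg (h b x) (t • H b x))) ∧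
        SubSol (ball 0 6) (closedBall 0 2) (A.α b) Df C₁ := by
  choose C₁ hC₁ href using fun b => ref_test (r := r) (A.coef b) hB
  refine ⟨(∑ b, C₁ b) * (r * B ^ 2), mul_nonneg (Finset.sum_nonneg fun b _ => hC₁ b)
    (by positivity), ?_⟩
  intro ρ H C h D t hH hRB hC hmin ht1 ht2 b
  have hC0 : 0 < C := by linarith
  have hB0 : 0 < B := by linarith
  have ht : 0 < t := (inv_pos.2 hC0).trans_le ht1
  have hU : IsOpen (ball (0 : E) 6) := isOpen_ball
  have hK : IsCompact (closedBall (0 : E) 2) := isCompact_closedBall _ _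
  have hKU : closedBall (0 : E) 2 ⊆ ball 0 6 := closedBall_subset_ball (by norm_num)
  have hα := A.coef b
  have hu : WD 2 (ball 0 6) (h b) (D b) := hmin.1.wd b
  have bu : LBd (ball 0 6) (h b) := hmin.1.lbd hH hC b
  have hv : WD 2 (ball 0 6) (fun x => t • H b x) fun x => t • fderiv ℝ (H b) x :=
    (WD.of_contDiffOn (by norm_num) hU ((hH.sm b).of_le (by simp))).const_smul t
  have bv : LBd (ball 0 6) fun x => t • H b x :=
    LBd.of_continuousOn ((hH.sm b).continuousOn.const_smul t) fun x hx => (hH.pos b x hx).smul ht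
  refine sub_log_local hr hU hK hKU hα hu hv bu bv fun η Dη hη lη pη zη => ?_
  obtain ⟨wk, lk⟩ := wd_kz hU hu hv bu bv
  obtain ⟨ws, -⟩ := wd_sg hU hu hv bu bv
  have hζ := wd_smul hU hη wk lη lk
  have lζ : LB (ball 0 6) fun x => η x • kz (h b x) (t • H b x) :=
    lη.bilin (ContinuousLinearMap.lsmul ℝ ℝ) lk
  have zζ : ∀ x ∈ ball (0 : E) 6, x ∉ closedBall (0 : E) 2 →
      η x • kz (h b x) (t • H b x) = 0 := fun x hx hx' => by rw [zη x hx hx', zero_smul]
  obtain ⟨M, hM⟩ := lη _ hK hKU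
  have hM' : ∀ x ∈ ball (0 : E) 6, η x ≤ |M| + 1 := fun x hx => by
    by_cases h' : x ∈ closedBall (0 : E) 2
    · linarith [le_abs_self (η x), hM x h', le_abs_self M, Real.norm_eq_abs (η x)]
    · rw [zη x hx h']; positivity
  have h1 := Atlas.min_var hχ hH hC hmin b hζ lζ ⟨_, hK, hKU, zζ⟩
    (t₀ := (8 * C ^ 2)⁻¹ * (|M| + 1)⁻¹) (by positivity) fun s hs x hx => by
      rw [smul_smul]
      refine obst_var hC (hH.pos b x hx) (hmin.1.ob b x hx) ht1 ht2
        (mul_nonneg hs.1 (pη x hx)) ?_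
      calc s * η x ≤ (8 * C ^ 2)⁻¹ * (|M| + 1)⁻¹ * (|M| + 1) :=
            mul_le_mul hs.2 (hM' x hx) (pη x hx) (by positivity)
        _ = _ := by rw [mul_assoc, inv_mul_cancel₀ (by positivity), mul_one]
  have h2 := href b (H b) (hH.sm b) (hH.pos b) (hRB b) _ _ hζ zζ
  have hz := wd_cs_ae (by norm_num) hU hζ isClosed_closedBall zζ
  have hi : ∀ Y : E → E →L[ℝ] Mat r, LocLp 2 (ball 0 6) Y → IntegrableOn (fun x => pair (A.α b x)
      (Y x) (η x • dkz (h b x) (t • H b x) (D b x) (t • fderiv ℝ (H b) x) +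
        (Dη x).smulRight (kz (h b x) (t • H b x)))) (ball 0 6) := fun Y hY => by
    refine (integrableOn_of_cs hU (locLp_pair hα.1.continuousOn hY hζ.2.1) hK hKU ?_).1
    filter_upwards [hz] with x hx hx1 hx2
    rw [hx hx1 hx2]; simp [pair]
  have i1 := hi _ (locLp_mc hU hu bu)
  have i2 := hi _ (locLp_mc hU hv bv)
  have hm : MeasurableSet (ball (0 : E) 6) := measurableSet_ball
  have e1 : ∫ x in ball (0 : E) 6, (η x * qq (A.α b x) (h b x) (t • H b x) (D b x)
        (t • fderiv ℝ (H b) x) + spair (A.α b x) (dsg (h b x) (t • H b x) (D b x)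
        (t • fderiv ℝ (H b) x)) (Dη x)) =
      ∫ x in ball (0 : E) 6, (pair (A.α b x) (mc (t • H b x) (t • fderiv ℝ (H b) x))
        (η x • dkz (h b x) (t • H b x) (D b x) (t • fderiv ℝ (H b) x) +
        (Dη x).smulRight (kz (h b x) (t • H b x))) - pair (A.α b x) (mc (h b x) (D b x))
        (η x • dkz (h b x) (t • H b x) (D b x) (t • fderiv ℝ (H b) x) +
        (Dη x).smulRight (kz (h b x) (t • H b x)))) := by
    refine setIntegral_congr_ae hm ?_
    filter_upwards [wd_herm (by norm_num) hU hu fun x hx => (bu.posDef x hx).isHermitian.eq,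
      wd_herm (by norm_num) hU hv fun x hx => (bv.posDef x hx).isHermitian.eq] with x a1 a2 hx
    exact (pair_key (bu.posDef x hx) (bv.posDef x hx) (a1 hx) (a2 hx) (hα.2 x hx).1 _ _).symm
  have e2 : ∫ x in ball (0 : E) 6, pair (A.α b x) (mc (t • H b x) (t • fderiv ℝ (H b) x))
        (η x • dkz (h b x) (t • H b x) (D b x) (t • fderiv ℝ (H b) x) +
        (Dη x).smulRight (kz (h b x) (t • H b x))) =
      ∫ x in ball (0 : E) 6, pair (A.α b x) (mc (H b x) (fderiv ℝ (H b) x))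
        (η x • dkz (h b x) (t • H b x) (D b x) (t • fderiv ℝ (H b) x) +
        (Dη x).smulRight (kz (h b x) (t • H b x))) :=
    setIntegral_congr_fun hm fun x hx => by
      rw [mc_smul (hH.pos b x hx) ht]
  have i3 : IntegrableOn (fun x => η x * sg (h b x) (t • H b x)) (ball 0 6) := by
    refine (integrableOn_of_cs hU (locLp_bilin_one (ContinuousLinearMap.mul ℝ ℝ) hη.1 ws.1)
      hK hKU (Eventually.of_forall fun x hx hx' => ?_)).1
    simp [zη x hx hx']
  have h3 : ∫ x in ball (0 : E) 6, ‖η x • kz (h b x) (t • H b x)‖ ≤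
      r * B ^ 2 * ∫ x in ball (0 : E) 6, η x * sg (h b x) (t • H b x) := by
    rw [← integral_const_mul]
    refine integral_mono_of_nonneg (Eventually.of_forall fun x => norm_nonneg _)
      (i3.const_mul _) ((ae_restrict_iff' hm).2 (Eventually.of_forall fun x hx => ?_))
    dsimp only
    by_cases h' : x ∈ closedBall (0 : E) 2
    · have hp : (t⁻¹ • h b x).PosDef := (bu.posDef x hx).smul (inv_pos.2 ht)
      have e : h b x = t • t⁻¹ • h b x := by rw [smul_smul, mul_inv_cancel₀ ht.ne', one_smul]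
      have h4 := norm_kz_le hp hB0 (hRB b x (closedBall_subset_closedBall (by norm_num) h')).1
      rw [← kz_smul ht hp (hH.pos b x hx), ← sg_smul ht hp (hH.pos b x hx), ← e] at h4
      rw [norm_smul, Real.norm_eq_abs, abs_of_nonneg (pη x hx)]
      calc _ ≤ η x * (r * B ^ 2 * sg (h b x) (t • H b x)) :=
            mul_le_mul_of_nonneg_left h4 (pη x hx)
        _ = _ := by ring
    · simp [zη x hx h']
  have h5 : 0 ≤ ∫ x in ball (0 : E) 6, η x * sg (h b x) (t • H b x) :=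
    setIntegral_nonneg hm fun x hx => mul_nonneg (pη x hx)
      ((by positivity : (0 : ℝ) ≤ 2 * r).trans (le_sg (bu.posDef x hx) (bv.posDef x hx)))
  have h6 : C₁ b ≤ ∑ b, C₁ b :=
    Finset.single_le_sum (fun b _ => hC₁ b) (Finset.mem_univ b)
  rw [e1, integral_sub i2 i1, e2]
  calc _ ≤ C₁ b * ∫ x in ball (0 : E) 6, ‖η x • kz (h b x) (t • H b x)‖ := by linarith
    _ ≤ C₁ b * (r * B ^ 2 * ∫ x in ball (0 : E) 6, η x * sg (h b x) (t • H b x)) :=
        mul_le_mul_of_nonneg_left h3 (hC₁ b)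
    _ ≤ (∑ b, C₁ b) * (r * B ^ 2 * ∫ x in ball (0 : E) 6, η x * sg (h b x) (t • H b x)) :=
        mul_le_mul_of_nonneg_right h6 (by positivity)
    _ = _ := by ring

end Pool.Agent.PW
end
end

-- part Pool.Agent.P.MP_65ad7c_ag.EDp
section

open MeasureTheory Set Filter Topology Metric Matrix
open scoped ComplexOrder ContDiff Matrix.Norms.Frobenius RealInnerProductSpace ENNReal
open Pool.Agent.Lib.Sob

noncomputable section
namespace Pool.Agent.PW

variable {E : Type} [NormedAddCommGroup E] [InnerProductSpace ℝ E] [FiniteDimensional ℝ E]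
  [MeasurableSpace E] [BorelSpace E] {r : ℕ} {U : Set E} {Γ : Type} [Group Γ]
  {V : Type} [NormedAddCommGroup V] [NormedSpace ℝ V]

theorem edp_inv {Q : ℝ → Mat r} {B : Mat r} {t : ℝ} (h : HasDerivAt Q B t) (hp : (Q t).PosDef) :
    HasDerivAt (fun s => (Q s)⁻¹) (-((Q t)⁻¹ * B * (Q t)⁻¹)) t := by
  obtain ⟨u, hu⟩ := hp.isUnit
  have h1 := (hasFDerivAt_ringInverse (𝕜 := ℝ) u).comp_hasDerivAt_of_eq t h hu
  have e : ((u⁻¹ : (Mat r)ˣ) : Mat r) = (Q t)⁻¹ := by
    rw [← hu, Matrix.coe_units_inv]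
  simp only [Matrix.nonsing_inv_eq_ringInverse] at e ⊢
  rw [← e]
  exact h1

theorem edp_sq {P Q : Mat r} (hP : P.PosDef) (hQ : Q.PosDef) :
    (P⁻¹ * Q * (P⁻¹ * Q)).trace.re ≤ (P⁻¹ * Q).trace.re ^ 2 := by
  have hq : IsUnit Q.det := (Matrix.isUnit_iff_isUnit_det _).1 hQ.isUnit
  have hR : (gm P⁻¹ Q).PosDef := gm_posDef hP.inv (Matrix.mul_nonsing_inv Q hq)
  have h := trace_inv_mul_le hP hQ hR
  have e1 : P⁻¹ * gm P⁻¹ Q = P⁻¹ * Q * (P⁻¹ * Q) := by
    simp only [gm, hQ.isHermitian.eq, Matrix.mul_assoc]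
  have e2 : Q⁻¹ * gm P⁻¹ Q = P⁻¹ * Q := by
    simp only [gm, hQ.isHermitian.eq, Matrix.mul_assoc]
    rw [← Matrix.mul_assoc, Matrix.nonsing_inv_mul Q hq, Matrix.one_mul]
  rw [e1, e2] at h
  rw [sq]; exact h

theorem edp_abs {a b c n : ℝ} (hc : 0 ≤ c) (hn : 0 ≤ n) (h1 : a ^ 2 ≤ n * b) (h2 : b ≤ c ^ 2) :
    |a| ≤ c * √n := by
  refine abs_le_of_sq_le_sq' ?_ (by positivity) |> abs_le.2
  rw [mul_pow, Real.sq_sqrt hn]
  nlinarith [mul_le_mul_of_nonneg_left h2 hn]

theorem edp_one {P Q B : Mat r} (hP : P.PosDef) (hQ : Q.PosDef) :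
    |(P⁻¹ * B).trace.re - (Q⁻¹ * B * Q⁻¹ * P).trace.re| ≤
      sg P Q * √(nf Q Q (Q⁻¹ * B) (Q⁻¹ * B)) := by
  have hq : IsUnit Q.det := (Matrix.isUnit_iff_isUnit_det _).1 hQ.isUnit
  have i1 := Matrix.mul_nonsing_inv Q hq
  have i2 := Matrix.nonsing_inv_mul Q hq
  have c1 : ∀ X : Mat r, Q * (Q⁻¹ * X) = X := fun X => by rw [← Matrix.mul_assoc, i1, Matrix.one_mul]
  have c2 : ∀ X : Mat r, Q⁻¹ * (Q * X) = X := fun X => by rw [← Matrix.mul_assoc, i2, Matrix.one_mul]
  have hn := nf_nonneg hQ hQ (Q⁻¹ * B)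
  have a1 := nf_sq_le hQ hQ (Q⁻¹ * B) (P⁻¹ * Q)
  have a2 := nf_sq_le hQ hQ (Q⁻¹ * B) (Q⁻¹ * P)
  have e1 : nf Q Q (Q⁻¹ * B) (P⁻¹ * Q) = (P⁻¹ * B).trace.re := by
    unfold nf
    rw [Matrix.trace_mul_comm, conjTranspose_mul, hQ.isHermitian.eq, hP.inv.isHermitian.eq,
      Matrix.trace_mul_comm P⁻¹]
    simp only [Matrix.mul_assoc, c1, c2]
  have e2 : nf Q Q (P⁻¹ * Q) (P⁻¹ * Q) = (P⁻¹ * Q * (P⁻¹ * Q)).trace.re := by
    unfold nf
    rw [conjTranspose_mul, hQ.isHermitian.eq, hP.inv.isHermitian.eq]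
    simp only [Matrix.mul_assoc, c1, c2]
  have e3 : nf Q Q (Q⁻¹ * B) (Q⁻¹ * P) = (Q⁻¹ * B * Q⁻¹ * P).trace.re := by
    unfold nf
    rw [conjTranspose_mul, hP.isHermitian.eq, hQ.inv.isHermitian.eq]
    simp only [Matrix.mul_assoc, i2, Matrix.mul_one]
  have e4 : nf Q Q (Q⁻¹ * P) (Q⁻¹ * P) = (Q⁻¹ * P * (Q⁻¹ * P)).trace.re := by
    unfold nf
    rw [conjTranspose_mul, hP.isHermitian.eq, hQ.inv.isHermitian.eq]
    simp only [Matrix.mul_assoc, i2, Matrix.mul_one]
  rw [e1, e2] at a1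
  rw [e3, e4] at a2
  have b1 := edp_abs (trace_mul_nonneg hP.inv.posSemidef hQ.posSemidef) hn a1 (edp_sq hP hQ)
  have b2 := edp_abs (trace_mul_nonneg hQ.inv.posSemidef hP.posSemidef) hn a2 (edp_sq hQ hP)
  refine (abs_sub _ _).trans ?_
  unfold sg
  linarith

omit [MeasurableSpace E] [BorelSpace E] in
theorem edp_pt {P Q : Mat r} (hP : P.PosDef) (hQ : Q.PosDef) {D : E →L[ℝ] Mat r} (hD : HermF D)
    (w : E) : (P⁻¹ * D w).trace.re - (Q⁻¹ * D w * Q⁻¹ * P).trace.re ≤
      sg P Q * (‖w‖ * √(en (ContinuousLinearMap.id ℝ E) Q D)) := by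
  set p : E →L[ℝ] ℝ := (trL r).comp (lmul P⁻¹ D) - (trL r).comp (rmul (rmul (lmul Q⁻¹ D) Q⁻¹) P)
    with hp
  have hv : ∀ v, p v = (P⁻¹ * D v).trace.re - (Q⁻¹ * D v * Q⁻¹ * P).trace.re := fun v => rfl
  have hs : 0 ≤ sg P Q := le_trans (by positivity) (le_sg hP hQ)
  have h1 : ‖p‖ ^ 2 ≤ en (ContinuousLinearMap.id ℝ E) Q D * sg P Q ^ 2 := by
    refine (norm_sq_le_sum p).trans ?_
    rw [en_eq_npair hQ hD, npair, Finset.sum_mul]
    refine Finset.sum_le_sum fun i _ => ?_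
    have h2 := edp_one (B := D (ob E i)) hP hQ
    rw [← hv] at h2
    have h3 := nf_nonneg hQ hQ (Q⁻¹ * D (ob E i))
    have h4 := pow_le_pow_left₀ (abs_nonneg _) h2 2
    rw [mul_pow, Real.sq_sqrt h3, mul_comm] at h4
    exact h4
  have hn : 0 ≤ en (ContinuousLinearMap.id ℝ E) Q D := by
    rw [en_eq_npair hQ hD, npair]
    exact Finset.sum_nonneg fun i _ => nf_nonneg hQ hQ _
  have h5 := edp_abs hs hn h1 le_rfl
  rw [abs_of_nonneg (norm_nonneg _)] at h5
  rw [← hv]
  calc p w ≤ ‖p‖ * ‖w‖ := (le_abs_self _).trans (p.le_opNorm w)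
    _ ≤ (sg P Q * √(en (ContinuousLinearMap.id ℝ E) Q D)) * ‖w‖ := by gcongr
    _ = _ := by ring

theorem edp_moll_mem [CompleteSpace V] {S : Set V} (hS : Convex ℝ S) (hc : IsClosed S) {g : E → V}
    (hg : LocallyIntegrable g) (k : ℕ) (x : E)
    (h : ∀ t, ‖t‖ < 1 / ((k : ℝ) + 1) → g (x - t) ∈ S) : moll k g x ∈ S := by
  set ρ := (bump E k).normed volume with hρ
  have cρ : Continuous ρ := (bump E k).continuous_normed
  have nρ : ∀ t, 0 ≤ ρ t := (bump E k).nonneg_normed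
  have mρ : Measurable fun t => ENNReal.ofReal (ρ t) := cρ.measurable.ennreal_ofReal
  have fρ : ∀ᵐ t, ENNReal.ofReal (ρ t) < ⊤ := Eventually.of_forall fun _ => ENNReal.ofReal_lt_top
  have hi : Integrable fun t => ρ t • g (x - t) :=
    (bump E k).hasCompactSupport_normed.convolutionExists_left (ContinuousLinearMap.lsmul ℝ ℝ)
      cρ hg x
  have : IsProbabilityMeasure (volume.withDensity fun t => ENNReal.ofReal (ρ t)) := ⟨by
    rw [withDensity_apply _ MeasurableSet.univ, Measure.restrict_univ,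
      ← ofReal_integral_eq_lintegral_ofReal (bump E k).integrable_normed (Eventually.of_forall nρ),
      (bump E k).integral_normed, ENNReal.ofReal_one]⟩
  have key := hS.integral_mem (μ := volume.withDensity fun t => ENNReal.ofReal (ρ t))
    (f := fun t => g (x - t)) hc
    ((ae_withDensity_iff mρ).2 (Eventually.of_forall fun t ht => h t (by
      have h' : t ∈ Function.support ρ := fun h0 => ht (by simp [h0])
      rw [hρ, (bump E k).support_normed_eq, mem_ball, dist_zero_right] at h'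
      exact h')))
    ((integrable_withDensity_iff_integrable_smul' mρ fρ).2
      (by simpa only [ENNReal.toReal_ofReal (nρ _)] using hi))
  rw [integral_withDensity_eq_integral_toReal_smul mρ fρ] at key
  simp only [ENNReal.toReal_ofReal (nρ _)] at key
  exact key

omit [MeasurableSpace E] [BorelSpace E] [FiniteDimensional ℝ E] in
theorem edp_herm {v : E → Mat r} {x : E} (hv : DifferentiableAt ℝ v x)
    (h : ∀ᶠ y in 𝓝 x, (v y)ᴴ = v y) : HermF (fderiv ℝ v x) := by
  have h1 := (adjL r).hasFDerivAt.comp x hv.hasFDerivAt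
  have h2 : HasFDerivAt v ((adjL r).comp (fderiv ℝ v x)) x :=
    h1.congr_of_eventuallyEq (h.mono fun y hy => hy.symm)
  intro w
  have := DFunLike.congr_fun (h2.unique hv.hasFDerivAt) w
  exact this

/-- the segment inequality for a smooth positive function -/
theorem log_sg_segment (hr : 0 < r) {v : E → Mat r} (hv : ContDiff ℝ 1 v) {x y : E}
    (hp : ∀ z ∈ segment ℝ y x, (v z).PosDef) (hh : ∀ z ∈ segment ℝ y x, HermF (fderiv ℝ v z)) :
    Real.log (sg (v y) (v x)) ≤ Real.log (2 * r) + ‖x - y‖ * ∫ t in (0 : ℝ)..1,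
      √(en (ContinuousLinearMap.id ℝ E) (v (y + t • (x - y))) (fderiv ℝ v (y + t • (x - y)))) := by
  set w := x - y with hw
  set γ : ℝ → E := fun t => y + t • w with hγ
  have mem : ∀ t ∈ Icc (0 : ℝ) 1, γ t ∈ segment ℝ y x := fun t ht => by
    rw [segment_eq_image']
    exact ⟨t, ht, rfl⟩
  have hd : Differentiable ℝ v := hv.differentiable one_ne_zero
  have dγ : ∀ t, HasDerivAt γ w t := fun t => by
    have := ((hasDerivAt_id t).smul_const w).const_add y
    rw [one_smul] at this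
    exact this
  have cγ : Continuous γ := by fun_prop
  have dQ : ∀ t, HasDerivAt (fun s => v (γ s)) (fderiv ℝ v (γ t) w) t := fun t =>
    (hd (γ t)).hasFDerivAt.comp_hasDerivAt t (dγ t)
  have dI := fun t (ht : t ∈ Icc (0 : ℝ) 1) => edp_inv (dQ t) (hp _ (mem t ht))
  have hP : (v y).PosDef := hp y (left_mem_segment ℝ y x)
  have ds : ∀ t ∈ Icc (0 : ℝ) 1, HasDerivAt (fun s => sg (v y) (v (γ s)))
      (((v y)⁻¹ * fderiv ℝ v (γ t) w).trace.re -
        ((v (γ t))⁻¹ * fderiv ℝ v (γ t) w * (v (γ t))⁻¹ * v y).trace.re) t := fun t ht => by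
    have a1 := (trL r).hasFDerivAt.comp_hasDerivAt t ((dQ t).const_mul (v y)⁻¹)
    have a2 := (trL r).hasFDerivAt.comp_hasDerivAt t ((dI t ht).mul_const (v y))
    have a3 := a1.add a2
    rw [neg_mul, map_neg, ← sub_eq_add_neg] at a3
    exact a3
  have hr' : (0 : ℝ) < 2 * r := by positivity
  have pos : ∀ t ∈ Icc (0 : ℝ) 1, 0 < sg (v y) (v (γ t)) := fun t ht =>
    hr'.trans_le (le_sg hP (hp _ (mem t ht)))
  have dl := fun t (ht : t ∈ Icc (0 : ℝ) 1) => (ds t ht).log (pos t ht).ne'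
  have cI : ContinuousOn (fun s => (v (γ s))⁻¹) (Icc (0 : ℝ) 1) := fun t ht =>
    (dI t ht).continuousAt.continuousWithinAt
  have cD : Continuous fun s => fderiv ℝ v (γ s) := (hv.continuous_fderiv one_ne_zero).comp cγ
  have cE : ContinuousOn (fun t => en (ContinuousLinearMap.id ℝ E) (v (γ t)) (fderiv ℝ v (γ t)))
      (Icc (0 : ℝ) 1) := by
    unfold en pair
    refine continuousOn_finsetSum _ fun i _ => ?_
    have c1 : ContinuousOn (fun t => (v (γ t))⁻¹ * fderiv ℝ v (γ t) (ob E i)) (Icc (0 : ℝ) 1) :=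
      cI.mul (cD.clm_apply continuous_const).continuousOn
    exact (trL r).continuous.comp_continuousOn (c1.mul c1)
  have key := intervalIntegral.sub_le_integral_of_hasDeriv_right_of_le zero_le_one
    (g := fun s => Real.log (sg (v y) (v (γ s))))
    (φ := fun t => ‖w‖ * √(en (ContinuousLinearMap.id ℝ E) (v (γ t)) (fderiv ℝ v (γ t))))
    (fun t ht => (dl t ht).continuousAt.continuousWithinAt)
    (fun t ht => (dl t (Ioo_subset_Icc_self ht)).hasDerivWithinAt)
    ((continuousOn_const.mul cE.sqrt).integrableOn_compact isCompact_Icc)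
    (fun t ht => by
      have ht' := Ioo_subset_Icc_self ht
      rw [div_le_iff₀ (pos t ht'), mul_comm]
      exact edp_pt hP (hp _ (mem t ht')) (hh _ (mem t ht')) w)
  have e0 : γ 0 = y := by simp [hγ]
  have e1 : γ 1 = x := by simp [hγ, hw]
  simp only [e0, e1, sg_self hP] at key
  rw [intervalIntegral.integral_const_mul] at key
  linarith

/-- approximation by smooth functions that keep the bounds -/
theorem approx_bd (hU : IsOpen U) {u : E → Mat r} {D : E → E →L[ℝ] Mat r} (hw : WD 2 U u D)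
    (hb : LBd U u) {K : Set E} (hK : IsCompact K) (hKU : K ⊆ U) :
    ∃ (C : ℝ) (v : ℕ → E → Mat r), 1 ≤ C ∧ (∀ x ∈ K, Bd C (u x)) ∧ (∀ k, ContDiff ℝ ∞ (v k)) ∧
      (∀ k, ∀ x ∈ K, Bd C (v k x) ∧ HermF (fderiv ℝ (v k) x)) ∧
      (∀ᵐ x, x ∈ K → Tendsto (fun k => v k x) atTop (𝓝 (u x))) ∧
      Tendsto (fun k => ∫⁻ x in K, ‖fderiv ℝ (v k) x - D x‖ₑ ^ 2) atTop (𝓝 0) := by
  obtain ⟨u', D', K', O, hg, m1, m2, hK', hK'U, hO, hKO, hOK', -, -, e1, e2, -⟩ :=
    hw.exists_global (by norm_num) hU hK hKU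
  obtain ⟨C, hC, hCb⟩ := hb K' hK' hK'U
  obtain ⟨δ, hδ, hδO⟩ := hK.exists_thickening_subset_open hO hKO
  obtain ⟨k0, hk0⟩ := exists_nat_one_div_lt (half_pos hδ)
  have lu := hg.1.locallyIntegrable (by norm_num)
  have hC0 : 0 < C := by linarith
  have bd : ∀ k, ∀ x ∈ thickening (δ / 2) K, Bd C (moll (k + k0) u' x) := fun k x hx => by
    refine edp_moll_mem (convex_obst C 1) (isClosed_obst C 1) lu _ x fun t ht => ?_
    have h1 : 1 / (((k + k0 : ℕ) : ℝ) + 1) ≤ 1 / ((k0 : ℝ) + 1) := by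
      gcongr
      exact Nat.le_add_left _ _
    obtain ⟨z, hz, hxz⟩ := mem_thickening_iff.1 hx
    have h2 : x - t ∈ O := hδO (mem_thickening_iff.2 ⟨z, hz, by
      have := dist_triangle (x - t) x z
      rw [dist_eq_norm (x - t) x, sub_sub_cancel_left, norm_neg] at this
      linarith⟩)
    rw [mem_ofPred_eq, e1 _ h2]
    exact hCb _ (hOK' h2)
  have sub : K ⊆ thickening (δ / 2) K := self_subset_thickening (half_pos hδ) K
  refine ⟨C, fun k => moll (k + k0) u', hC, fun x hx => hCb x (hOK' (hKO hx)),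
    fun k => contDiff_moll _ lu, fun k x hx => ⟨bd k x (sub hx), ?_⟩, ?_, ?_⟩
  · refine edp_herm ((contDiff_moll _ lu).differentiable (by simp) x) ?_
    filter_upwards [isOpen_thickening.mem_nhds (sub hx)] with y hy
    exact ((bd k y hy).posDef hC0).isHermitian.eq
  · filter_upwards [ae_tendsto_moll lu] with x hx hxK
    rw [e1 x (hKO hxK)] at hx
    exact hx.comp (tendsto_add_atTop_nat k0)
  · refine tendsto_of_tendsto_of_tendsto_of_le_of_le tendsto_const_nhds
      ((tendsto_lintegral_moll (by norm_num) m2).comp (tendsto_add_atTop_nat k0))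
      (fun _ => zero_le) fun k => ?_
    refine le_trans (le_of_eq ?_) (setLIntegral_le_lintegral K _)
    exact setLIntegral_congr_fun hK.measurableSet fun x hx => by
      rw [e2 x (hKO hx), hg.fderiv_moll (by norm_num)]

end Pool.Agent.PW
end
end

-- part Pool.Agent.P.MP_65ad7c_ag.EDp2
section

open MeasureTheory Set Filter Topology Metric Matrix
open scoped ComplexOrder ContDiff Matrix.Norms.Frobenius RealInnerProductSpace ENNReal
open Pool.Agent.Lib.Sob

noncomputable section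
namespace Pool.Agent.PW

variable {E : Type} [NormedAddCommGroup E] [InnerProductSpace ℝ E] [FiniteDimensional ℝ E]
  [MeasurableSpace E] [BorelSpace E] {r : ℕ} {U : Set E} {Γ : Type} [Group Γ]
  {V : Type} [NormedAddCommGroup V] [NormedSpace ℝ V]

theorem edp2_sm_inv {α : Type} [MeasurableSpace α] {f : α → Mat r} (hf : StronglyMeasurable f) :
    StronglyMeasurable fun x => (f x)⁻¹ := by
  simp only [Matrix.inv_def, Ring.inverse_eq_inv']
  have c1 : Continuous fun A : Mat r => A.det := continuous_id.matrix_det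
  have c2 : Continuous fun A : Mat r => A.adjugate := continuous_id.matrix_adjugate
  exact (c1.comp_stronglyMeasurable hf).measurable.inv.stronglyMeasurable.smul
    (c2.comp_stronglyMeasurable hf)

theorem edp2_asm_inv {α : Type} [MeasurableSpace α] {μ : Measure α} {f : α → Mat r}
    (hf : AEStronglyMeasurable f μ) : AEStronglyMeasurable (fun x => (f x)⁻¹) μ := by
  refine ⟨_, edp2_sm_inv hf.stronglyMeasurable_mk, ?_⟩
  filter_upwards [hf.ae_eq_mk] with x hx
  rw [hx]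

theorem edp2_tendsto_inv {f : ℕ → Mat r} {P : Mat r} (hP : P.PosDef)
    (hf : Tendsto f atTop (𝓝 P)) : Tendsto (fun k => (f k)⁻¹) atTop (𝓝 P⁻¹) := by
  have h : ContinuousAt (fun A : Mat r => A⁻¹) P := by
    refine continuousAt_matrix_inv P ?_
    rw [Ring.inverse_eq_inv']
    exact continuousAt_inv₀ ((isUnit_iff_isUnit_det P).1 hP.isUnit).ne_zero
  exact h.tendsto.comp hf

theorem edp2_cont_tr : Continuous fun p : Mat r × Mat r => (p.1 * p.2).trace.re :=
  (trL r).continuous.comp (continuous_fst.mul continuous_snd)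

theorem edp2_am_sg {α : Type} [MeasurableSpace α] {μ : Measure α} {f g : α → Mat r}
    (hf : AEStronglyMeasurable f μ) (hg : AEStronglyMeasurable g μ) :
    AEMeasurable (fun x => ‖Real.log (sg (f x) (g x))‖ₑ ^ 2) μ := by
  have h1 := edp2_cont_tr.comp_aestronglyMeasurable ((edp2_asm_inv hf).prodMk hg)
  have h2 := edp2_cont_tr.comp_aestronglyMeasurable ((edp2_asm_inv hg).prodMk hf)
  have h3 : AEMeasurable (fun x => sg (f x) (g x)) μ := (h1.add h2).aemeasurable
  exact h3.log.enorm.pow_const 2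

theorem edp2_tendsto_sg (hr : 0 < r) {f g : ℕ → Mat r} {P Q : Mat r} (hP : P.PosDef)
    (hQ : Q.PosDef) (hf : Tendsto f atTop (𝓝 P)) (hg : Tendsto g atTop (𝓝 Q)) :
    Tendsto (fun k => ‖Real.log (sg (f k) (g k))‖ₑ ^ 2) atTop (𝓝 (‖Real.log (sg P Q)‖ₑ ^ 2)) := by
  have h1 := (edp2_cont_tr.tendsto (P⁻¹, Q)).comp ((edp2_tendsto_inv hP hf).prodMk_nhds hg)
  have h2 := (edp2_cont_tr.tendsto (Q⁻¹, P)).comp ((edp2_tendsto_inv hQ hg).prodMk_nhds hf)
  have h3 : Tendsto (fun k => sg (f k) (g k)) atTop (𝓝 (sg P Q)) := h1.add h2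
  have h4 : sg P Q ≠ 0 := by
    have := le_sg hP hQ
    have h5 : (0 : ℝ) < r := by exact_mod_cast hr
    linarith
  exact ENNReal.Tendsto.pow (h3.log h4).enorm

/-- the energy density as a function of the inverse metric -/
def edp2F (p : Mat r × (E →L[ℝ] Mat r)) : ℝ :=
  ∑ i, trL r (p.1 * p.2 (ob E i) * (p.1 * p.2 (ob E i)))

omit [MeasurableSpace E] [BorelSpace E] in
theorem edp2_en_eq (h : Mat r) (X : E →L[ℝ] Mat r) :
    en (ContinuousLinearMap.id ℝ E) h X = edp2F (h⁻¹, X) := by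
  simp only [en, pair, mc, lmul_apply, ContinuousLinearMap.id_apply, edp2F, trL_apply]

omit [MeasurableSpace E] [BorelSpace E] in
theorem edp2_cont_en : Continuous (edp2F : Mat r × (E →L[ℝ] Mat r) → ℝ) := by
  refine continuous_finsetSum _ fun i _ => ?_
  have h : Continuous fun p : Mat r × (E →L[ℝ] Mat r) => p.1 * p.2 (ob E i) :=
    continuous_fst.mul (continuous_snd.clm_apply continuous_const)
  exact (trL r).continuous.comp (h.mul h)

omit [MeasurableSpace E] [BorelSpace E] in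
theorem edp2_en_le {C : ℝ} (hC : 0 < C) {h : Mat r} (hh : Bd C h) (X : E →L[ℝ] Mat r) :
    en (ContinuousLinearMap.id ℝ E) h X ≤ Module.finrank ℝ E * (r * C) ^ 2 * ‖X‖ ^ 2 := by
  have h1 := abs_pair_le (ContinuousLinearMap.id ℝ E) (mc h X) (mc h X)
  have h2 : ‖mc h X‖ ≤ r * C * ‖X‖ := (norm_lmul_le _ _).trans
    (mul_le_mul_of_nonneg_right (hh.norm_inv_le hC) (norm_nonneg _))
  have h3 : ‖ContinuousLinearMap.id ℝ E‖ ≤ 1 := ContinuousLinearMap.norm_id_le
  refine (le_abs_self _).trans (h1.trans ?_)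
  calc _ ≤ (Module.finrank ℝ E : ℝ) * 1 * (r * C * ‖X‖) * (r * C * ‖X‖) := by gcongr
    _ = _ := by ring

omit [MeasurableSpace E] [BorelSpace E] in
theorem edp2_en_split {h : Mat r} (hh : h.PosDef) {X Y : E →L[ℝ] Mat r} (hX : HermF X)
    (hY : HermF Y) : en (ContinuousLinearMap.id ℝ E) h X ≤
      2 * en (ContinuousLinearMap.id ℝ E) h Y + 2 * en (ContinuousLinearMap.id ℝ E) h (X - Y) := by
  have hZ : HermF (Y - (X - Y)) := fun v => by
    simp only [_root_.sub_apply, conjTranspose_sub, hX v, hY v]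
  have h0 : 0 ≤ en (ContinuousLinearMap.id ℝ E) h (Y - (X - Y)) := by
    rw [en_eq_npair hh hZ]
    exact npair_nonneg hh hh (fun _ _ => rfl) (fun v => real_inner_self_nonneg) _
  have key : en (ContinuousLinearMap.id ℝ E) h X + en (ContinuousLinearMap.id ℝ E) h (Y - (X - Y))
      = 2 * en (ContinuousLinearMap.id ℝ E) h Y +
        2 * en (ContinuousLinearMap.id ℝ E) h (X - Y) := by
    simp only [en, pair, mc, lmul_apply, ContinuousLinearMap.id_apply,
      _root_.sub_apply, Finset.mul_sum, ← Finset.sum_add_distrib]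
    refine Finset.sum_congr rfl fun p _ => ?_
    simp only [Matrix.mul_sub, Matrix.sub_mul, trace_sub, Complex.sub_re]
    ring
  linarith

theorem edp2_meas_en {v : E → Mat r} (hv : ContDiff ℝ 1 v) : Measurable fun x =>
    en (ContinuousLinearMap.id ℝ E) (v x) (fderiv ℝ v x) := by
  simp only [edp2_en_eq]
  exact (edp2_cont_en.comp_stronglyMeasurable ((edp2_sm_inv hv.continuous.stronglyMeasurable).prodMk
    (hv.continuous_fderiv one_ne_zero).stronglyMeasurable)).measurable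

theorem edp2_enorm_sq (a : ℝ) : ‖a‖ₑ ^ 2 = ENNReal.ofReal (a ^ 2) := by
  rw [Real.enorm_eq_ofReal_abs, ← ENNReal.ofReal_pow (abs_nonneg a), sq_abs]

theorem edp2_point (hr : 0 < r) {v : E → Mat r} (hv : ContDiff ℝ 1 v) {x y : E}
    (hp : ∀ z ∈ segment ℝ y x, (v z).PosDef) (hh : ∀ z ∈ segment ℝ y x, HermF (fderiv ℝ v z))
    (hd : ‖x - y‖ ≤ 4) :
    ‖Real.log (sg (v y) (v x))‖ₑ ^ 2 ≤ ENNReal.ofReal (2 * Real.log (2 * r) ^ 2) +
      32 * ∫⁻ t in Ioc (0 : ℝ) 1, ENNReal.ofReal (en (ContinuousLinearMap.id ℝ E)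
        (v (y + t • (x - y))) (fderiv ℝ v (y + t • (x - y)))) := by
  have h1 := log_sg_segment hr hv hp hh
  have h0 := log_sg_nonneg hr (hp y (left_mem_segment ℝ y x)) (hp x (right_mem_segment ℝ y x))
  set e : ℝ → ℝ := fun t => en (ContinuousLinearMap.id ℝ E) (v (y + t • (x - y)))
    (fderiv ℝ v (y + t • (x - y))) with he
  have me : Measurable e := (edp2_meas_en hv).comp (by fun_prop)
  have hI0 : 0 ≤ ∫ t in (0 : ℝ)..1, √(e t) :=
    intervalIntegral.integral_nonneg zero_le_one fun t _ => Real.sqrt_nonneg _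
  have : IsProbabilityMeasure (volume.restrict (Ioc (0 : ℝ) 1)) := ⟨by simp⟩
  have h2 : ‖∫ t in (0 : ℝ)..1, √(e t)‖ₑ ^ 2 ≤ ∫⁻ t in Ioc (0 : ℝ) 1, ENNReal.ofReal (e t) := by
    rw [intervalIntegral.integral_of_le zero_le_one]
    refine (pow_le_pow_left' (enorm_integral_le_lintegral_enorm _) 2).trans
      ((lintegral_pow_jensen one_le_two me.sqrt.enorm.aemeasurable).trans
        (lintegral_mono fun t => ?_))
    rw [edp2_enorm_sq, Real.sq_sqrt', ENNReal.ofReal_max, ENNReal.ofReal_zero, max_zero]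
  refine le_trans ?_ (add_le_add_right (mul_le_mul_right h2 32) _)
  rw [edp2_enorm_sq, edp2_enorm_sq, show (32 : ℝ≥0∞) = ENNReal.ofReal 32 by simp,
    ← ENNReal.ofReal_mul (by norm_num), ← ENNReal.ofReal_add (by positivity) (by positivity)]
  refine ENNReal.ofReal_le_ofReal ?_
  have h3 := mul_le_mul_of_nonneg_right hd hI0
  have h4 := pow_le_pow_left₀ h0 (h1.trans (add_le_add_right h3 _)) 2
  nlinarith [sq_nonneg (Real.log (2 * r) - 4 * ∫ t in (0 : ℝ)..1, √(e t))]

theorem edp2_smooth (hr : 0 < r) {v : E → Mat r} (hv : ContDiff ℝ 1 v) {K : Set E}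
    (hK : MeasurableSet K) (hc : Convex ℝ K) (hd : ∀ x ∈ K, ∀ y ∈ K, ‖x - y‖ ≤ 4)
    (hp : ∀ z ∈ K, (v z).PosDef) (hh : ∀ z ∈ K, HermF (fderiv ℝ v z)) :
    ∫⁻ y in K, ∫⁻ x in K, ‖Real.log (sg (v y) (v x))‖ₑ ^ 2 ≤
      ENNReal.ofReal (2 * Real.log (2 * r) ^ 2) * volume K * volume K +
        32 * (2 ^ Module.finrank ℝ E * volume K * ∫⁻ x in K,
          ENNReal.ofReal (en (ContinuousLinearMap.id ℝ E) (v x) (fderiv ℝ v x))) := by
  set G : E → ℝ≥0∞ := fun x =>
    ENNReal.ofReal (en (ContinuousLinearMap.id ℝ E) (v x) (fderiv ℝ v x)) with hGdef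
  have hG : Measurable G := (edp2_meas_en hv).ennreal_ofReal
  calc ∫⁻ y in K, ∫⁻ x in K, ‖Real.log (sg (v y) (v x))‖ₑ ^ 2
      ≤ ∫⁻ y in K, ∫⁻ x in K, (ENNReal.ofReal (2 * Real.log (2 * r) ^ 2) +
          32 * ∫⁻ t in Ioc (0 : ℝ) 1, G (y + t • (x - y))) := by
        refine setLIntegral_mono' hK fun y hy => setLIntegral_mono' hK fun x hx => ?_
        have hs := hc.segment_subset hy hx
        exact edp2_point hr hv (fun z hz => hp z (hs hz)) (fun z hz => hh z (hs hz)) (hd x hx y hy)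
    _ = ENNReal.ofReal (2 * Real.log (2 * r) ^ 2) * volume K * volume K +
          32 * ∫⁻ y in K, ∫⁻ t in Ioc (0 : ℝ) 1, ∫⁻ x in K, G (y + t • (x - y)) := by
        rw [← lintegral_const_mul' _ _ (by simp), ← setLIntegral_const K (_ * volume K),
          ← lintegral_add_left measurable_const]
        refine lintegral_congr fun y => ?_
        rw [lintegral_add_left measurable_const, setLIntegral_const,
          lintegral_const_mul' _ _ (by simp),
          lintegral_lintegral_swap (f := fun x (t : ℝ) => G (y + t • (x - y)))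
            (hG.comp (show Measurable fun z : E × ℝ =>
            y + z.2 • (z.1 - y) by fun_prop)).aemeasurable]
    _ = ENNReal.ofReal (2 * Real.log (2 * r) ^ 2) * volume K * volume K +
          32 * ∫⁻ t in Ioc (0 : ℝ) 1, ∫⁻ y in K, ∫⁻ x in K, G (y + t • (x - y)) := by
        rw [lintegral_lintegral_swap]
        refine (Measurable.lintegral_prod_right' (f := fun z : (E × ℝ) × E =>
          G (z.1.1 + z.1.2 • (z.2 - z.1.1))) (hG.comp (by fun_prop))).aemeasurable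
    _ ≤ _ := by
        gcongr
        refine (setLIntegral_mono' measurableSet_Ioc fun t ht =>
          lintegral_segment₂_le hG hK hc ht.1.le ht.2).trans ?_
        simp [hGdef]

/-- the energies of the smooth approximations -/
theorem edp2_energy {u : E → Mat r} {D : E → E →L[ℝ] Mat r} {K : Set E} (hK : MeasurableSet K)
    (hD : MemLp D (2 : ℕ) (volume.restrict K)) (hH : ∀ᵐ x, x ∈ K → HermF (D x)) {C : ℝ}
    (hC : 0 < C) {v : ℕ → E → Mat r} (hu : ∀ x ∈ K, Bd C (u x)) (hv : ∀ k, ContDiff ℝ 1 (v k))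
    (hb : ∀ k, ∀ x ∈ K, Bd C (v k x) ∧ HermF (fderiv ℝ (v k) x))
    (t0 : ∀ᵐ x, x ∈ K → Tendsto (fun k => v k x) atTop (𝓝 (u x)))
    (t2 : Tendsto (fun k => ∫⁻ x in K, ‖fderiv ℝ (v k) x - D x‖ₑ ^ 2) atTop (𝓝 0)) :
    ∃ B : ℕ → ℝ≥0∞, (∀ k, ∫⁻ x in K, ENNReal.ofReal (en (ContinuousLinearMap.id ℝ E) (v k x)
      (fderiv ℝ (v k) x)) ≤ B k) ∧ Tendsto B atTop (𝓝 (2 * ∫⁻ x in K,
        ENNReal.ofReal (en (ContinuousLinearMap.id ℝ E) (u x) (D x)))) := by
  obtain ⟨c, hc, hc0⟩ : ∃ c : ℝ, c = Module.finrank ℝ E * (r * C) ^ 2 ∧ 0 ≤ c :=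
    ⟨_, rfl, by positivity⟩
  have hle : ∀ {h : Mat r}, Bd C h → ∀ X : E →L[ℝ] Mat r,
      ENNReal.ofReal (en (ContinuousLinearMap.id ℝ E) h X) ≤ ENNReal.ofReal c * ‖X‖ₑ ^ 2 := by
    intro h hh X
    rw [← ofReal_norm, ← ENNReal.ofReal_pow (norm_nonneg _), ← ENNReal.ofReal_mul hc0, hc]
    exact ENNReal.ofReal_le_ofReal (edp2_en_le hC hh X)
  have m1 : ∀ k, AEMeasurable (fun x => ENNReal.ofReal (en (ContinuousLinearMap.id ℝ E) (v k x)
      (D x))) (volume.restrict K) := fun k => by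
    simp only [edp2_en_eq]
    exact (edp2_cont_en.comp_aestronglyMeasurable
      ((edp2_asm_inv (hv k).continuous.aestronglyMeasurable).prodMk
        hD.1)).aemeasurable.ennreal_ofReal
  have t1 : Tendsto (fun k => ∫⁻ x in K, ENNReal.ofReal (en (ContinuousLinearMap.id ℝ E) (v k x)
      (D x))) atTop (𝓝 (∫⁻ x in K,
        ENNReal.ofReal (en (ContinuousLinearMap.id ℝ E) (u x) (D x)))) := by
    refine tendsto_lintegral_of_dominated_convergence'
      (fun x => ENNReal.ofReal c * ‖D x‖ₑ ^ 2) m1 (fun k => ?_) ?_ ?_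
    · filter_upwards [ae_restrict_mem hK] with x hx using hle (hb k x hx).1 _
    · rw [lintegral_const_mul' _ _ ENNReal.ofReal_ne_top]
      exact ENNReal.mul_ne_top ENNReal.ofReal_ne_top (lintegral_pow_lt_top one_le_two hD).ne
    · filter_upwards [ae_restrict_mem hK, ae_restrict_of_ae t0] with x hx h1
      simp only [edp2_en_eq]
      exact ENNReal.tendsto_ofReal ((edp2_cont_en.tendsto ((u x)⁻¹, D x)).comp
        ((edp2_tendsto_inv ((hu x hx).posDef hC) (h1 hx)).prodMk_nhds tendsto_const_nhds))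
  refine ⟨fun k => 2 * (∫⁻ x in K, ENNReal.ofReal (en (ContinuousLinearMap.id ℝ E) (v k x) (D x)))
    + 2 * ENNReal.ofReal c * ∫⁻ x in K, ‖fderiv ℝ (v k) x - D x‖ₑ ^ 2, fun k => ?_, ?_⟩
  · beta_reduce
    rw [← lintegral_const_mul' _ _ (by simp),
      ← lintegral_const_mul' _ _ (ENNReal.mul_ne_top (by simp) ENNReal.ofReal_ne_top),
      ← lintegral_add_left' ((m1 k).const_mul 2)]
    refine lintegral_mono_ae ?_
    filter_upwards [ae_restrict_mem hK, ae_restrict_of_ae hH] with x hx h1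
    refine (ENNReal.ofReal_le_ofReal
      (edp2_en_split ((hb k x hx).1.posDef hC) (hb k x hx).2 (h1 hx))).trans
        (ENNReal.ofReal_add_le.trans ?_)
    rw [ENNReal.ofReal_mul zero_le_two, ENNReal.ofReal_mul zero_le_two, ENNReal.ofReal_ofNat,
      mul_assoc]
    gcongr
    exact hle (hb k x hx).1 _
  · have h1 := ENNReal.Tendsto.const_mul (a := 2) t1 (Or.inr (by simp))
    have h2 := ENNReal.Tendsto.const_mul (a := 2 * ENNReal.ofReal c) t2
      (Or.inr (ENNReal.mul_ne_top (by simp) ENNReal.ofReal_ne_top))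
    simpa using h1.add h2

theorem edp2_double (hr : 0 < r) (hU : IsOpen U) {u : E → Mat r} {D : E → E →L[ℝ] Mat r}
    (hw : WD 2 U u D) (hb : LBd U u) {K : Set E} (hK : IsCompact K) (hc : Convex ℝ K)
    (hKU : K ⊆ U) (hd : ∀ x ∈ K, ∀ y ∈ K, ‖x - y‖ ≤ 4) :
    ∫⁻ y in K, ∫⁻ x in K, ‖Real.log (sg (u y) (u x))‖ₑ ^ 2 ≤
      ENNReal.ofReal (2 * Real.log (2 * r) ^ 2) * volume K * volume K +
        32 * (2 ^ Module.finrank ℝ E * volume K * (2 * ∫⁻ x in K,
          ENNReal.ofReal (en (ContinuousLinearMap.id ℝ E) (u x) (D x)))) := by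
  obtain ⟨C, v, hC, hu, sv, hv, t0, t2⟩ := approx_bd hU hw hb hK hKU
  have hC0 : 0 < C := by linarith
  have sv1 : ∀ k, ContDiff ℝ 1 (v k) := fun k => (sv k).of_le (by simp)
  have hH : ∀ᵐ x, x ∈ K → HermF (D x) := by
    filter_upwards [wd_herm one_le_two hU hw fun x hx => (hb.posDef x hx).isHermitian.eq]
      with x h1 hx using h1 (hKU hx)
  obtain ⟨B, hB, tB⟩ := edp2_energy hK.measurableSet (hw.2.1 K hK hKU) hH hC0 hu sv1 hv t0 t2
  have t0' : ∀ᵐ x ∂(volume.restrict K), (u x).PosDef ∧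
      Tendsto (fun k => v k x) atTop (𝓝 (u x)) := by
    filter_upwards [ae_restrict_of_ae t0, ae_restrict_mem hK.measurableSet] with x h1 h2
      using ⟨(hu x h2).posDef hC0, h1 h2⟩
  have cv := fun k => (sv k).continuous
  have t3 := (ENNReal.Tendsto.const_mul (a := 32) (ENNReal.Tendsto.const_mul
    (a := 2 ^ Module.finrank ℝ E * volume K) tB (Or.inr
      (ENNReal.mul_ne_top (by simp) hK.measure_lt_top.ne))) (Or.inr (by simp))).const_add
        (ENNReal.ofReal (2 * Real.log (2 * r) ^ 2) * volume K * volume K)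
  calc ∫⁻ y in K, ∫⁻ x in K, ‖Real.log (sg (u y) (u x))‖ₑ ^ 2
      ≤ ∫⁻ y in K, liminf (fun k => ∫⁻ x in K, ‖Real.log (sg (v k y) (v k x))‖ₑ ^ 2) atTop := by
        refine lintegral_mono_ae ?_
        filter_upwards [t0'] with y hy
        refine le_trans (le_of_eq (lintegral_congr_ae ?_)) (lintegral_liminf_le' fun k =>
          edp2_am_sg aestronglyMeasurable_const (cv k).aestronglyMeasurable)
        filter_upwards [t0'] with x hx
        exact (edp2_tendsto_sg hr hy.1 hx.1 hy.2 hx.2).liminf_eq.symm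
    _ ≤ liminf (fun k => ∫⁻ y in K, ∫⁻ x in K, ‖Real.log (sg (v k y) (v k x))‖ₑ ^ 2) atTop := by
        refine lintegral_liminf_le' fun k => ?_
        exact AEMeasurable.lintegral_prod_right' (f := fun z : E × E =>
          ‖Real.log (sg (v k z.1) (v k z.2))‖ₑ ^ 2) (edp2_am_sg
            ((cv k).comp continuous_fst).aestronglyMeasurable
            ((cv k).comp continuous_snd).aestronglyMeasurable)
    _ ≤ _ := by
        rw [← t3.liminf_eq]
        refine liminf_le_liminf (Eventually.of_forall fun k => ?_)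
        refine (edp2_smooth hr (sv1 k) hK.measurableSet hc hd
          (fun z hz => (hv k z hz).1.posDef hC0) fun z hz => (hv k z hz).2).trans ?_
        gcongr
        exact hB k

/-- double Poincare inequality: a centre -/
theorem exists_centre (hr : 0 < r) : ∃ L : ℝ, 0 ≤ L ∧
    ∀ (u : E → Mat r) (D : E → E →L[ℝ] Mat r) (M : ℝ), WD 2 (ball 0 6) u D → LBd (ball 0 6) u →
      0 ≤ M → ∫⁻ x in closedBall (0 : E) 2,
        ENNReal.ofReal (en (ContinuousLinearMap.id ℝ E) (u x) (D x)) ≤ ENNReal.ofReal M →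
      ∃ y ∈ closedBall (0 : E) 2,
        N2 (closedBall 0 2) (fun x => Real.log (sg (u y) (u x))) ≤ ENNReal.ofReal (L * (1 + M)) := by
  have hK : IsCompact (closedBall (0 : E) 2) := isCompact_closedBall _ _
  have h0 : volume (closedBall (0 : E) 2) ≠ 0 := (measure_closedBall_pos _ _ two_pos).ne'
  have h1 : volume (closedBall (0 : E) 2) ≠ ⊤ := hK.measure_lt_top.ne
  obtain ⟨A, hA, hA0⟩ : ∃ A : ℝ, ENNReal.ofReal (2 * Real.log (2 * r) ^ 2) *
      volume (closedBall (0 : E) 2) = ENNReal.ofReal A ∧ 0 ≤ A :=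
    ⟨_, (ENNReal.ofReal_toReal (ENNReal.mul_ne_top ENNReal.ofReal_ne_top h1)).symm,
      ENNReal.toReal_nonneg⟩
  obtain ⟨B, hB, hB0⟩ : ∃ B : ℝ, (64 * 2 ^ Module.finrank ℝ E : ℝ≥0∞) = ENNReal.ofReal B ∧
      0 ≤ B := ⟨_, (ENNReal.ofReal_toReal (ENNReal.mul_ne_top (by simp) (by simp))).symm,
        ENNReal.toReal_nonneg⟩
  refine ⟨A + B + 1, by linarith, fun u D M hw hb hM hE => ?_⟩
  have hKU : closedBall (0 : E) 2 ⊆ ball 0 6 := closedBall_subset_ball (by norm_num)
  have h2 := edp2_double hr isOpen_ball hw hb hK (convex_closedBall _ _) hKU fun x hx y hy => by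
    have := norm_sub_le x y
    rw [mem_closedBall_zero_iff] at hx hy
    linarith
  have mu := (hw.1 _ hK hKU).1
  have m : AEMeasurable (fun y => ∫⁻ x in closedBall (0 : E) 2,
      ‖Real.log (sg (u y) (u x))‖ₑ ^ 2) (volume.restrict (closedBall (0 : E) 2)) :=
    AEMeasurable.lintegral_prod_right' (f := fun z : E × E =>
      ‖Real.log (sg (u z.1) (u z.2))‖ₑ ^ 2) (edp2_am_sg mu.comp_fst mu.comp_snd)
  obtain ⟨y, hy, hy'⟩ := exists_le_setLAverage h0 h1 m
  refine ⟨y, hy, ?_⟩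
  have h3 : ∫⁻ x in closedBall (0 : E) 2, ‖Real.log (sg (u y) (u x))‖ₑ ^ 2 ≤
      ENNReal.ofReal A + ENNReal.ofReal B * ENNReal.ofReal M := by
    refine hy'.trans ?_
    rw [setLAverage_eq]
    refine ENNReal.div_le_of_le_mul (h2.trans ?_)
    rw [hA, ← hB, add_mul]
    refine add_le_add_right ?_ _
    calc _ ≤ 32 * (2 ^ Module.finrank ℝ E * volume (closedBall (0 : E) 2) *
          (2 * ENNReal.ofReal M)) := by gcongr
      _ = _ := by ring
  rw [lintegral_pow_eq one_le_two, ← ENNReal.ofReal_mul hB0,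
    ← ENNReal.ofReal_add hA0 (mul_nonneg hB0 hM)] at h3
  refine (ENNReal.pow_le_pow_left_iff two_ne_zero).1 (h3.trans ?_)
  rw [← ENNReal.ofReal_pow (by positivity)]
  refine ENNReal.ofReal_le_ofReal ?_
  have e1 : A + B * M ≤ (A + B + 1) * (1 + M) := by nlinarith [mul_nonneg hA0 hM]
  have e2 : 1 ≤ (A + B + 1) * (1 + M) := by nlinarith [mul_nonneg hA0 hM, mul_nonneg hB0 hM]
  nlinarith

end Pool.Agent.PW
end
end

-- part Pool.Agent.P.MP_65ad7c_ag.BPick
section

open MeasureTheory Set Filter Topology Metric Matrix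
open scoped ComplexOrder ContDiff Matrix.Norms.Frobenius RealInnerProductSpace ENNReal
open Pool.Agent.Lib.Sob

noncomputable section
namespace Pool.Agent.PW

variable {E : Type} [NormedAddCommGroup E] [InnerProductSpace ℝ E] [FiniteDimensional ℝ E]
  [MeasurableSpace E] [BorelSpace E] {r : ℕ} {U : Set E} {Γ : Type} [Group Γ]
  {V : Type} [NormedAddCommGroup V] [NormedSpace ℝ V]

theorem bpick_cheb {F : E → ℝ} {η L : ℝ} (hη : 0 ≤ η) (hL : 1 ≤ L)
    (hF : AEStronglyMeasurable F (volume.restrict (closedBall 0 1)))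
    (hN : N2 (closedBall 0 1) F ≤ ENNReal.ofReal η) :
    volume ({y | L * η < F y} ∩ closedBall (0 : E) 1) ≤ ENNReal.ofReal L⁻¹ := by
  rw [← Measure.restrict_apply' measurableSet_closedBall]
  unfold N2 at hN
  rcases hη.eq_or_lt with rfl | hη
  · rw [ENNReal.ofReal_zero, nonpos_iff_eq_zero, eLpNorm_eq_zero_iff hF two_ne_zero] at hN
    have h0 : (volume.restrict (closedBall (0 : E) 1)) {y | L * 0 < F y} = 0 := by
      refine measure_mono_null (fun y hy => ?_) (ae_iff.1 hN)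
      have hy' : L * 0 < F y := hy
      rw [mul_zero] at hy'
      exact hy'.ne'
    rw [h0]
    exact zero_le
  · have hL0 : 0 < L := by linarith
    have hp : 0 < L * η := mul_pos hL0 hη
    have h1 := mul_meas_ge_le_pow_eLpNorm' (volume.restrict (closedBall (0 : E) 1)) two_ne_zero
      ENNReal.ofNat_ne_top hF (ENNReal.ofReal (L * η))
    simp only [ENNReal.toReal_ofNat, ENNReal.rpow_two] at h1
    have h2 : (volume.restrict (closedBall (0 : E) 1)) {y | L * η < F y} ≤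
        (volume.restrict (closedBall (0 : E) 1)) {y | ENNReal.ofReal (L * η) ≤ ‖F y‖ₑ} := by
      refine measure_mono fun y hy => ?_
      have hy' : L * η < F y := hy
      show ENNReal.ofReal (L * η) ≤ ‖F y‖ₑ
      rw [← ofReal_norm]
      exact ENNReal.ofReal_le_ofReal (hy'.le.trans (le_abs_self _))
    have h3 : ENNReal.ofReal η ^ 2 ≤ ENNReal.ofReal (L * η) ^ 2 * ENNReal.ofReal L⁻¹ := by
      rw [← ENNReal.ofReal_pow hη.le, ← ENNReal.ofReal_pow hp.le,
        ← ENNReal.ofReal_mul (by positivity)]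
      refine ENNReal.ofReal_le_ofReal ?_
      have h4 : (L * η) ^ 2 * L⁻¹ = L * η ^ 2 := by field_simp
      rw [h4]
      nlinarith [sq_nonneg η]
    refine h2.trans ?_
    have h5 : ENNReal.ofReal (L * η) ^ 2 ≠ 0 := pow_ne_zero _ (ENNReal.ofReal_pos.2 hp).ne'
    have h6 : ENNReal.ofReal (L * η) ^ 2 ≠ ⊤ := ENNReal.pow_ne_top ENNReal.ofReal_ne_top
    exact (ENNReal.mul_le_mul_iff_right h5 h6).1
      (h1.trans ((pow_le_pow_left₀ zero_le hN 2).trans h3))

theorem bpick_image {O O' : Set E} {T T' : E → E} (h : Diffeo O O' T T') {x : E} (hx : x ∈ O') :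
    ∃ K : ℝ, 0 ≤ K ∧ ∃ W ∈ 𝓝 x, ∀ Z : Set E,
      volume (T' '' (W ∩ Z)) ≤ ENNReal.ofReal K * volume Z := by
  have hc : ContinuousAt (fderiv ℝ T') x :=
    (h.s'.continuousOn_fderiv_of_isOpen h.o' (by simp)).continuousAt (h.o'.mem_nhds hx)
  have hd : ContinuousAt (fun y => |(fderiv ℝ T' y).det|) x :=
    (ContinuousLinearMap.continuous_det.continuousAt.comp hc).abs
  have he : ∀ᶠ y in 𝓝 x, |(fderiv ℝ T' y).det| < |(fderiv ℝ T' x).det| + 1 ∧ y ∈ O' :=
    (hd.eventually (gt_mem_nhds (lt_add_one _))).and (h.o'.mem_nhds hx)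
  obtain ⟨W, hW, hWo, hxW⟩ := _root_.eventually_nhds_iff.1 he
  refine ⟨|(fderiv ℝ T' x).det| + 1, by positivity, W, hWo.mem_nhds hxW, fun Z => ?_⟩
  have hm : MeasurableSet (W ∩ toMeasurable volume Z) :=
    hWo.measurableSet.inter (measurableSet_toMeasurable _ _)
  have h1 := addHaar_image_le_lintegral_abs_det_fderiv (volume : Measure E) hm (f := T')
    (f' := fderiv ℝ T') fun y hy =>
      ((h.s'.differentiableOn (by simp)).differentiableAt
        (h.o'.mem_nhds (hW y hy.1).2)).hasFDerivAt.hasFDerivWithinAt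
  have h2 : ∫⁻ y in W ∩ toMeasurable volume Z, ENNReal.ofReal |(fderiv ℝ T' y).det| ≤
      ∫⁻ _ in W ∩ toMeasurable volume Z, ENNReal.ofReal (|(fderiv ℝ T' x).det| + 1) :=
    setLIntegral_mono' hm fun y hy => ENNReal.ofReal_le_ofReal (hW y hy.1).1.le
  rw [setLIntegral_const] at h2
  refine (measure_mono (image_mono (inter_subset_inter_right _
    (subset_toMeasurable volume Z)))).trans (h1.trans (h2.trans ?_))
  refine mul_le_mul_right ?_ _
  exact (measure_mono inter_subset_right).trans (measure_toMeasurable Z).le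

/-- Chebyshev on a link -/
theorem Pre.pick (A : Pre E Γ) {a b : A.ι} {x : E} (hx : x ∈ A.ov (ball 0 1) a b) :
    ∃ L : ℝ, 0 ≤ L ∧ ∀ (F G : E → ℝ) (η : ℝ), 0 ≤ η →
      AEStronglyMeasurable F (volume.restrict (closedBall 0 1)) →
      AEStronglyMeasurable G (volume.restrict (closedBall 0 1)) →
      N2 (closedBall 0 1) F ≤ ENNReal.ofReal η → N2 (closedBall 0 1) G ≤ ENNReal.ofReal η →
      ∃ y ∈ A.ov (ball 0 1) a b, A.c a b y = A.c a b x ∧ F y ≤ L * η ∧
        G (A.T a b y) ≤ L * η := by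
  have hd := A.diffeo (U := ball 0 1) isOpen_ball a b
  obtain ⟨K, hK, W', hW', hZ⟩ := bpick_image hd (hd.m hx)
  have hT : ContinuousAt (A.T a b) x := hd.s.continuousOn.continuousAt (hd.o.mem_nhds hx)
  have hW : {y | y ∈ A.ov (ball 0 1) a b ∧ A.T a b y ∈ W' ∧ A.c a b y = A.c a b x} ∈ 𝓝 x := by
    filter_upwards [hd.o.mem_nhds hx, hT.eventually hW', A.c_loc a b x hx.1] with y h1 h2 h3
    exact ⟨h1, h2, h3⟩
  obtain ⟨m, hm0, hm1, hm2⟩ := ENNReal.lt_iff_exists_real_btwn.1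
    (Measure.measure_pos_of_mem_nhds volume hW)
  have hm : 0 < m := ENNReal.ofReal_pos.1 hm1
  have hq : 0 ≤ (1 + K) / m := by positivity
  refine ⟨(1 + K) / m + 1, by positivity, fun F G η hη hF hG hNF hNG => ?_⟩
  have hL : 1 ≤ (1 + K) / m + 1 := by linarith
  have h1 := bpick_cheb hη hL hF hNF
  have h2 := bpick_cheb hη hL hG hNG
  have h3 : ((1 + K) / m + 1)⁻¹ + K * ((1 + K) / m + 1)⁻¹ ≤ m := by
    rw [← one_add_mul, ← div_eq_mul_inv, div_le_iff₀ (by linarith), mul_add,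
      mul_div_cancel₀ _ hm.ne']
    linarith
  have hi : 0 ≤ ((1 + K) / m + 1)⁻¹ := by positivity
  generalize (1 + K) / m + 1 = L at *
  by_contra hc
  have hs : {y | y ∈ A.ov (ball 0 1) a b ∧ A.T a b y ∈ W' ∧ A.c a b y = A.c a b x} ⊆
      ({y | L * η < F y} ∩ closedBall (0 : E) 1) ∪
        A.T b a '' (W' ∩ ({y | L * η < G y} ∩ closedBall (0 : E) 1)) := by
    rintro y ⟨y1, y2, y3⟩
    by_cases hy : L * η < F y
    · exact Or.inl ⟨hy, ball_subset_closedBall y1.2.1⟩
    · refine Or.inr ⟨A.T a b y, ⟨y2, ?_, ball_subset_closedBall y1.2.2⟩, hd.l y y1⟩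
      by_contra hy2
      exact hc ⟨y, y1, y3, not_lt.1 hy, not_lt.1 hy2⟩
  have h4 := (measure_mono hs).trans ((measure_union_le _ _).trans
    (add_le_add h1 ((hZ _).trans (mul_le_mul_right h2 _))))
  rw [← ENNReal.ofReal_mul hK, ← ENNReal.ofReal_add hi (mul_nonneg hK hi)] at h4
  exact absurd (hm2.trans_le (h4.trans (ENNReal.ofReal_le_ofReal h3))) (lt_irrefl _)

/-- centres are almost invariant along chains -/
theorem Pre.chain_sg (A : Pre E Γ) (hr : 0 < r) {a b : A.ι} {γ : Γ} (hc : A.Chain a b γ) :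
    ∃ L : ℝ, 0 ≤ L ∧ ∀ (ρ : Γ →* Mat r) (h : A.ι → E → Mat r) (Q : A.ι → Mat r) (η : ℝ), 1 ≤ η →
      A.MC (ball 0 1) ρ h → (∀ d, ∀ x ∈ ball (0 : E) 1, (h d x).PosDef) → (∀ d, (Q d).PosDef) →
      (∀ d, AEStronglyMeasurable (fun x => Real.log (sg (Q d) (h d x)))
        (volume.restrict (closedBall 0 1))) →
      (∀ d, N2 (closedBall 0 1) (fun x => Real.log (sg (Q d) (h d x))) ≤ ENNReal.ofReal η) →
      Real.log (sg (gm (Q a) (ρ γ)) (Q b)) ≤ L * η := by
  induction hc with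
  | nil a =>
    have h1 : (1 : ℝ) ≤ r := by exact_mod_cast hr
    have h0 : 0 ≤ Real.log (2 * r) := Real.log_nonneg (by linarith)
    refine ⟨Real.log (2 * r), h0, fun ρ h Q η hη _ _ hQ _ _ => ?_⟩
    rw [map_one, gm_one, sg_self (hQ a)]
    exact le_mul_of_one_le_right h0 hη
  | cons a b d x γ hx _ ih =>
    obtain ⟨L0, hL0, h0⟩ := A.pick hx
    obtain ⟨L1, hL1, h1⟩ := ih
    refine ⟨2 * L0 + L1, by positivity, fun ρ h Q η hη hm hp hQ hme hN => ?_⟩
    obtain ⟨y, hy, hyc, ha, hb⟩ := h0 _ _ η (by linarith) (hme a) (hme b) (hN a) (hN b)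
    have h2 := h1 ρ h Q η hη hm hp hQ hme hN
    have h3 := hm a b y hy
    rw [hyc] at h3
    have u1 := rep_mul_inv ρ (A.c a b x)
    have u2 := rep_mul_inv ρ γ
    have p1 := gm_posDef (hQ a) u1
    have h4 := log_sg_le hr (gm_posDef p1 u2) (gm_posDef (hQ b) u2) (hQ d)
    rw [sg_gm p1 (hQ b) u2] at h4
    have h5 := log_sg_le hr p1 (hp b _ hy.2.2) (hQ b)
    rw [sg_comm (h b _) (Q b)] at h5
    have h6 : sg (gm (Q a) (ρ (A.c a b x))) (h b (A.T a b y)) = sg (Q a) (h a y) := by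
      rw [h3, sg_gm (hQ a) (hp a y hy.2.1) u1]
    rw [h6] at h5
    rw [map_mul, ← gm_gm]
    linarith

end Pool.Agent.PW
end
end

-- part Pool.Agent.P.MP_65ad7c_ag.ECen
section

open MeasureTheory Set Filter Topology Metric Matrix
open scoped ComplexOrder ContDiff Matrix.Norms.Frobenius RealInnerProductSpace ENNReal
open Pool.Agent.Lib.Sob

noncomputable section
namespace Pool.Agent.PW

variable {E : Type} [NormedAddCommGroup E] [InnerProductSpace ℝ E] [FiniteDimensional ℝ E]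
  [MeasurableSpace E] [BorelSpace E] {r : ℕ} {U : Set E} {Γ : Type} [Group Γ]
  {V : Type} [NormedAddCommGroup V] [NormedSpace ℝ V]
  {A : Atlas E Γ} {χ : A.ι → E → ℝ} {ρ : Γ →* Mat r} {H h : A.ι → E → Mat r}
  {D : A.ι → E → E →L[ℝ] Mat r} {C : ℝ}

/-- measurability of `log sg (Q, u x)` -/
theorem aesm_log_sg (hU : IsOpen U) {u : E → Mat r} {D : E → E →L[ℝ] Mat r} (hw : WD 2 U u D)
    (hb : LBd U u) {Q : Mat r} (hQ : Q.PosDef) {K : Set E} (hK : IsCompact K) (hKU : K ⊆ U) :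
    AEStronglyMeasurable (fun x => Real.log (sg Q (u x))) (volume.restrict K) := by
  have hc : LBd U fun _ : E => Q := LBd.of_continuousOn continuousOn_const fun _ _ => hQ
  have h1 := ((wd_sg hU (WD.const (by norm_num) Q) hw hc hb).1.1 K hK hKU).1
  exact (Real.measurable_log.comp_aemeasurable h1.aemeasurable).aestronglyMeasurable

/-- centres in every chart -/
theorem Atlas.exists_centres (A : Atlas E Γ) (hr : 0 < r) {M : ℝ} (hM : 0 ≤ M) : ∃ η : ℝ, 1 ≤ η ∧
    ∀ (h : A.ι → E → Mat r) (D : A.ι → E → E →L[ℝ] Mat r), (∀ a, WD 2 (ball 0 6) (h a) (D a)) →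
      (∀ a, LBd (ball 0 6) (h a)) →
      (∀ a, ∫⁻ x in ball (0 : E) 6, ENNReal.ofReal (en (A.α a x) (h a x) (D a x)) ≤
        ENNReal.ofReal M) →
      ∃ y : A.ι → E, ∀ a, y a ∈ closedBall (0 : E) 2 ∧
        N2 (closedBall 0 2) (fun x => Real.log (sg (h a (y a)) (h a x))) ≤ ENNReal.ofReal η := by
  obtain ⟨L, hL, hc⟩ := exists_centre (E := E) hr
  have hs : closedBall (0 : E) 2 ⊆ ball 0 6 := closedBall_subset_ball (by norm_num)
  choose l L' hl he using fun a => (A.coef a).ell (isCompact_closedBall (0 : E) 2) hs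
  have hnn : ∀ a, 0 ≤ L * (1 + (l a)⁻¹ * M) := fun a => by have := hl a; positivity
  refine ⟨1 + ∑ a, L * (1 + (l a)⁻¹ * M),
    le_add_of_nonneg_right (Finset.sum_nonneg fun a _ => hnn a), fun h D hw hb hE => ?_⟩
  have key : ∀ a, ∃ y ∈ closedBall (0 : E) 2,
      N2 (closedBall 0 2) (fun x => Real.log (sg (h a y) (h a x))) ≤
        ENNReal.ofReal (L * (1 + (l a)⁻¹ * M)) := by
    intro a
    have hla := hl a
    refine hc (h a) (D a) ((l a)⁻¹ * M) (hw a) (hb a) (by positivity) ?_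
    have hH := wd_herm (by norm_num) isOpen_ball (hw a) fun x hx => ((hb a).posDef x hx).1.eq
    calc ∫⁻ x in closedBall (0 : E) 2,
          ENNReal.ofReal (en (ContinuousLinearMap.id ℝ E) (h a x) (D a x))
        ≤ ∫⁻ x in closedBall (0 : E) 2,
          ENNReal.ofReal (l a)⁻¹ * ENNReal.ofReal (en (A.α a x) (h a x) (D a x)) := by
          refine lintegral_mono_ae ?_
          filter_upwards [ae_restrict_mem measurableSet_closedBall, ae_restrict_of_ae hH]
            with x hx hD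
          have hp := (hb a).posDef x (hs hx)
          rw [← ENNReal.ofReal_mul (by positivity), en_eq_npair hp (hD (hs hx)),
            en_eq_npair hp (hD (hs hx))]
          refine ENNReal.ofReal_le_ofReal ?_
          rw [le_inv_mul_iff₀ hla]
          exact npair_ge hp hp (he a x hx).1 (he a x hx).2.1 _
      _ = ENNReal.ofReal (l a)⁻¹ * ∫⁻ x in closedBall (0 : E) 2,
          ENNReal.ofReal (en (A.α a x) (h a x) (D a x)) :=
          lintegral_const_mul' _ _ ENNReal.ofReal_ne_top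
      _ ≤ ENNReal.ofReal (l a)⁻¹ * ENNReal.ofReal M := by
          gcongr
          exact (lintegral_mono_set hs).trans (hE a)
      _ = ENNReal.ofReal ((l a)⁻¹ * M) := (ENNReal.ofReal_mul (by positivity)).symm
  choose y hy1 hy2 using key
  refine ⟨y, fun a => ⟨hy1 a, (hy2 a).trans (ENNReal.ofReal_le_ofReal ?_)⟩⟩
  have := Finset.single_le_sum (f := fun a => L * (1 + (l a)⁻¹ * M)) (fun a _ => hnn a)
    (Finset.mem_univ a)
  linarith

end Pool.Agent.PW
end
end

-- part Pool.Agent.P.MP_65ad7c_ag.ECoer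
section

open MeasureTheory Set Filter Topology Metric Matrix
open scoped ComplexOrder ContDiff Matrix.Norms.Frobenius RealInnerProductSpace ENNReal
open Pool.Agent.Lib.Sob

noncomputable section
namespace Pool.Agent.PW

variable {E : Type} [NormedAddCommGroup E] [InnerProductSpace ℝ E] [FiniteDimensional ℝ E]
  [MeasurableSpace E] [BorelSpace E] {r : ℕ} {U : Set E} {Γ : Type} [Group Γ]
  {V : Type} [NormedAddCommGroup V] [NormedSpace ℝ V]
  {A : Atlas E Γ} {χ : A.ι → E → ℝ} {ρ : Γ →* Mat r} {H h : A.ι → E → Mat r}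
  {D : A.ι → E → E →L[ℝ] Mat r} {C : ℝ}

omit [NormedSpace ℝ V] in
theorem ecoer_n2_mono {K K' : Set E} (hK : K ⊆ K') (u : E → V) : N2 K u ≤ N2 K' u :=
  eLpNorm_mono_measure u (Measure.restrict_mono hK le_rfl)

/-- the `L²` norm of a constant on the ball of radius 2 -/
theorem ecoer_n2_const : ∃ κ : ℝ, 0 ≤ κ ∧ ∀ c : ℝ, 0 ≤ c →
    N2 (closedBall (0 : E) 2) (fun _ => c) ≤ ENNReal.ofReal (c * κ) := by
  have hfin : (volume.restrict (closedBall (0 : E) 2)) univ ^ (2 : ℝ≥0∞).toReal⁻¹ ≠ ⊤ :=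
    ENNReal.rpow_ne_top_of_nonneg (by positivity)
      (by simpa using (isCompact_closedBall (0 : E) 2).measure_lt_top.ne)
  refine ⟨((volume.restrict (closedBall (0 : E) 2)) univ ^ (2 : ℝ≥0∞).toReal⁻¹).toReal,
    ENNReal.toReal_nonneg, fun c hc => ?_⟩
  refine (eLpNorm_le_of_ae_bound (C := c) (Eventually.of_forall fun _ => ?_)).trans (le_of_eq ?_)
  · rw [Real.norm_of_nonneg hc]
  · rw [ENNReal.ofReal_mul hc, ENNReal.ofReal_toReal hfin, mul_comm]

theorem ecoer_n2_le {K : Set E} (hK : MeasurableSet K) {f g : E → ℝ}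
    (hfg : ∀ x ∈ K, 0 ≤ f x ∧ f x ≤ g x) : N2 K f ≤ N2 K g := by
  refine eLpNorm_mono_ae ((ae_restrict_mem hK).mono fun x hx => ?_)
  rw [Real.norm_of_nonneg (hfg x hx).1]
  exact (hfg x hx).2.trans (le_abs_self _)

theorem ecoer_sg_pos (hr : 0 < r) {P Q : Mat r} (hP : P.PosDef) (hQ : Q.PosDef) : 0 < sg P Q := by
  have h1 : (0 : ℝ) < r := by exact_mod_cast hr
  exact lt_of_lt_of_le (by positivity) (le_sg hP hQ)

theorem ecoer_log_bd (hr : 0 < r) {B : ℝ} (hB : 0 < B) {P Q : Mat r} (hP : Bd B P) (hQ : Bd B Q) :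
    Real.log (sg P Q) ≤ 2 * r * (B * B) := by
  have h1 : Obst (B * B) P Q := Obst.trans hB hB (Obst.symm hB hP) hQ
  have h2 := sg_le_of_obst (hP.posDef hB) (mul_pos hB hB) h1
  have h3 := Real.log_le_sub_one_of_pos (ecoer_sg_pos hr (hP.posDef hB) (hQ.posDef hB))
  linarith

theorem ecoer_gm_smul (t : ℝ) (P u : Mat r) : gm (t • P) u = t • gm P u := by
  simp [gm]

theorem ecoer_smul_posDef {t : ℝ} (ht : 0 < t) {P : Mat r} (hP : P.PosDef) : (t • P).PosDef :=
  hP.smul ht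

/-- coercivity, with a constant independent of the obstacle -/
theorem Atlas.coercive (A : Atlas E Γ) (hr : 0 < r) {m : ℕ} (γs : Fin m → Γ) (β : ℝ) {B M : ℝ}
    (hB : 1 ≤ B) (hM : 0 ≤ M) : ∃ C₂ : ℝ, 0 ≤ C₂ ∧
    ∀ (ρ : Γ →* Mat r) H C h D, Burn γs β ρ → A.Ref ρ H → A.RefBd B H → 1 ≤ C →
      A.Adm ρ H C h D →
      (∀ a, ∫⁻ x in ball (0 : E) 6, ENNReal.ofReal (en (A.α a x) (h a x) (D a x)) ≤
        ENNReal.ofReal M) →
      ∃ t : ℝ, C⁻¹ ≤ t ∧ t ≤ C ∧ ∀ a,
        N2 (closedBall 0 2) (fun x => Real.log (sg (h a x) (t • H a x))) ≤ ENNReal.ofReal C₂ := by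
  obtain ⟨η, hη, hcen⟩ := A.exists_centres (r := r) hr hM
  obtain ⟨κ, hκ, hconst⟩ := ecoer_n2_const (E := E)
  choose L1 hL1 hc1 using fun l : Fin m => A.toPre.chain_sg (r := r) hr (A.chain (γs l))
  choose γa hγa using A.reach
  choose L2 hL2 hc2 using fun a : A.ι => A.toPre.chain_sg (r := r) hr (hγa a)
  have hB0 : 0 < B := one_pos.trans_le hB
  have hη0 : 0 ≤ η := zero_le_one.trans hη
  set ℓ : ℝ := 2 * r * (B * B) with hℓ
  have hℓ0 : 0 ≤ ℓ := by positivity
  set η' : ℝ := 1 + ℓ * κ with hη'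
  have hη'1 : 1 ≤ η' := le_add_of_nonneg_right (by positivity)
  set S1 : ℝ := ∑ l, L1 l with hS1
  set S2 : ℝ := ∑ a, L2 a with hS2
  have hS20 : 0 ≤ S2 := Finset.sum_nonneg fun a _ => hL2 a
  set L3 : ℝ := r ^ 2 * m ^ 2 * β ^ 2 * Real.exp (S1 * η) with hL3
  have hL30 : 0 ≤ L3 := by positivity
  set L4 : ℝ := r + r * B ^ 2 * L3 with hL4
  have hL40 : 0 ≤ L4 := by positivity
  set c : ℝ := S2 * η + L4 + S2 * η' + ℓ with hc
  have hc0 : 0 ≤ c := by positivity
  refine ⟨η + c * κ, by positivity, fun ρ H C h D hburn hH hHB hC hh hen => ?_⟩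
  have hC0 : 0 < C := one_pos.trans_le hC
  have hlb : ∀ a, LBd (ball 0 6) (h a) := hh.lbd hH hC
  obtain ⟨y, hy⟩ := hcen h D hh.wd hlb hen
  have s26 : closedBall (0 : E) 2 ⊆ ball 0 6 := closedBall_subset_ball (by norm_num)
  have s16 : closedBall (0 : E) 1 ⊆ ball 0 6 := closedBall_subset_ball (by norm_num)
  have b16 : ball (0 : E) 1 ⊆ ball 0 6 := ball_subset_ball (by norm_num)
  have s12 : closedBall (0 : E) 1 ⊆ closedBall 0 2 := closedBall_subset_closedBall (by norm_num)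
  have s29 : closedBall (0 : E) 2 ⊆ closedBall 0 (9 / 2) :=
    closedBall_subset_closedBall (by norm_num)
  have hpos : ∀ a, ∀ x ∈ ball (0 : E) 6, (h a x).PosDef := fun a => (hlb a).posDef
  have hQ : ∀ a, (h a (y a)).PosDef := fun a => hpos a _ (s26 (hy a).1)
  have hP : ∀ a, (H a (y a)).PosDef := fun a => hH.pos a _ (s26 (hy a).1)
  have hHb : ∀ a, ∀ x ∈ closedBall (0 : E) 2, Bd B (H a x) := fun a x hx => (hHB a x (s29 hx)).1
  have hHl : ∀ a, ∀ x ∈ closedBall (0 : E) 2, Real.log (sg (H a (y a)) (H a x)) ≤ ℓ :=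
    fun a x hx => ecoer_log_bd hr hB0 (hHb a _ (hy a).1) (hHb a x hx)
  have m1 : ∀ d, AEStronglyMeasurable (fun x => Real.log (sg (h d (y d)) (h d x)))
      (volume.restrict (closedBall 0 1)) := fun d =>
    aesm_log_sg isOpen_ball (hh.wd d) (hlb d) (hQ d) (isCompact_closedBall _ _) s16
  have m2 : ∀ d, AEStronglyMeasurable (fun x => Real.log (sg (H d (y d)) (H d x)))
      (volume.restrict (closedBall 0 1)) := fun d =>
    aesm_log_sg isOpen_ball ((hH.adm hC).wd d) (hH.lbd d) (hP d) (isCompact_closedBall _ _) s16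
  have n1 : ∀ d, N2 (closedBall 0 1) (fun x => Real.log (sg (h d (y d)) (h d x))) ≤
      ENNReal.ofReal η := fun d => (ecoer_n2_mono s12 _).trans (hy d).2
  have n2 : ∀ d, N2 (closedBall 0 1) (fun x => Real.log (sg (H d (y d)) (H d x))) ≤
      ENNReal.ofReal η' := by
    intro d
    refine (ecoer_n2_mono s12 _).trans ((ecoer_n2_le (g := fun _ => ℓ) measurableSet_closedBall
      fun x hx => ⟨log_sg_nonneg hr (hP d) (hH.pos d x (s26 hx)), hHl d x hx⟩).trans
        ((hconst ℓ hℓ0).trans (ENNReal.ofReal_le_ofReal ?_)))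
    exact le_add_of_nonneg_left zero_le_one
  have k1 : ∀ l, sg (gm (h A.a0 (y A.a0)) (ρ (γs l))) (h A.a0 (y A.a0)) ≤ Real.exp (S1 * η) := by
    intro l
    have h1 := hc1 l ρ h (fun d => h d (y d)) η hη (hh.mc.mono b16)
      (fun d x hx => hpos d x (b16 hx)) hQ m1 n1
    have h2 : L1 l ≤ S1 := Finset.single_le_sum (fun j _ => hL1 j) (Finset.mem_univ l)
    rw [← Real.log_le_iff_le_exp (ecoer_sg_pos hr (gm_posDef (hQ _) (rep_mul_inv ρ _)) (hQ _))]
    exact h1.trans (mul_le_mul_of_nonneg_right h2 hη0)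
  obtain ⟨t, ht1, ht2, ht3⟩ := exists_scale hr (hP A.a0) hC0 (hh.ob A.a0 _ (s26 (hy _).1)) hB0
    (hHb _ _ (hy _).1) (burn_cond hburn (hQ A.a0) (Real.exp_pos _).le k1)
  have ht0 : 0 < t := (inv_pos.2 hC0).trans_le ht1
  refine ⟨t, ht1, ht2, fun a => ?_⟩
  have hLa : L2 a ≤ S2 := Finset.single_le_sum (fun j _ => hL2 j) (Finset.mem_univ a)
  have hu := rep_mul_inv ρ (γa a)
  have p1 : (gm (h A.a0 (y A.a0)) (ρ (γa a))).PosDef := gm_posDef (hQ _) hu
  have p2 : (gm (H A.a0 (y A.a0)) (ρ (γa a))).PosDef := gm_posDef (hP _) hu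
  have p3 : (t • gm (H A.a0 (y A.a0)) (ρ (γa a))).PosDef := ecoer_smul_posDef ht0 p2
  have p4 : (t • H a (y a)).PosDef := ecoer_smul_posDef ht0 (hP a)
  have p5 : (t • H A.a0 (y A.a0)).PosDef := ecoer_smul_posDef ht0 (hP _)
  have q2 : Real.log (sg (h a (y a)) (gm (h A.a0 (y A.a0)) (ρ (γa a)))) ≤ S2 * η := by
    rw [sg_comm]
    exact (hc2 a ρ h (fun d => h d (y d)) η hη (hh.mc.mono b16)
      (fun d x hx => hpos d x (b16 hx)) hQ m1 n1).trans (mul_le_mul_of_nonneg_right hLa hη0)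
  have q3 : Real.log (sg (gm (h A.a0 (y A.a0)) (ρ (γa a)))
      (t • gm (H A.a0 (y A.a0)) (ρ (γa a)))) ≤ L4 := by
    rw [← ecoer_gm_smul, sg_gm (hQ _) p5 hu, sg_comm]
    have h3 := Real.log_le_sub_one_of_pos (ecoer_sg_pos hr p5 (hQ A.a0))
    linarith
  have q4 : Real.log (sg (t • gm (H A.a0 (y A.a0)) (ρ (γa a))) (t • H a (y a))) ≤ S2 * η' := by
    rw [sg_smul ht0 p2 (hP a)]
    exact (hc2 a ρ H (fun d => H d (y d)) η' hη'1 (hH.mc.mono b16)
      (fun d x hx => hH.pos d x (b16 hx)) hP m2 n2).trans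
        (mul_le_mul_of_nonneg_right hLa (zero_le_one.trans hη'1))
  have key : ∀ x ∈ closedBall (0 : E) 2, 0 ≤ Real.log (sg (h a x) (t • H a x)) ∧
      Real.log (sg (h a x) (t • H a x)) ≤ Real.log (sg (h a (y a)) (h a x)) + c := by
    intro x hx
    have r1 : (h a x).PosDef := hpos a x (s26 hx)
    have r2 : (t • H a x).PosDef := ecoer_smul_posDef ht0 (hH.pos a x (s26 hx))
    refine ⟨log_sg_nonneg hr r1 r2, ?_⟩
    have q5 : Real.log (sg (t • H a (y a)) (t • H a x)) ≤ ℓ := by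
      rw [sg_smul ht0 (hP a) (hH.pos a x (s26 hx))]
      exact hHl a x hx
    have e1 := log_sg_le hr r1 (hQ a) r2
    have e2 := log_sg_le hr (hQ a) p1 r2
    have e3 := log_sg_le hr p1 p3 r2
    have e4 := log_sg_le hr p3 p4 r2
    rw [sg_comm (h a x) (h a (y a))] at e1
    linarith
  refine (ecoer_n2_le measurableSet_closedBall key).trans ?_
  have m3 : AEStronglyMeasurable (fun x => Real.log (sg (h a (y a)) (h a x)))
      (volume.restrict (closedBall 0 2)) :=
    aesm_log_sg isOpen_ball (hh.wd a) (hlb a) (hQ a) (isCompact_closedBall _ _) s26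
  refine (eLpNorm_add_le m3 aestronglyMeasurable_const (by norm_num)).trans ?_
  rw [ENNReal.ofReal_add hη0 (by positivity)]
  exact add_le_add (hy a).2 (hconst c hc0)

end Pool.Agent.PW
end
end

-- part Pool.Agent.P.MP_65ad7c_ag.ERes
section

open MeasureTheory Set Filter Topology Metric Matrix
open scoped ComplexOrder ContDiff Matrix.Norms.Frobenius RealInnerProductSpace ENNReal
open Pool.Agent.Lib.Sob

noncomputable section
namespace Pool.Agent.PW

variable {E : Type} [NormedAddCommGroup E] [InnerProductSpace ℝ E] [FiniteDimensional ℝ E]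
  [MeasurableSpace E] [BorelSpace E] {r : ℕ} {U : Set E} {Γ : Type} [Group Γ]
  {V : Type} [NormedAddCommGroup V] [NormedSpace ℝ V]
  {A : Atlas E Γ} {χ : A.ι → E → ℝ} {ρ : Γ →* Mat r} {H h : A.ι → E → Mat r}
  {D : A.ι → E → E →L[ℝ] Mat r} {C : ℝ}

theorem eres_gm_smul (t : ℝ) (P u : Mat r) : gm (t • P) u = t • gm P u := by
  simp only [gm, Matrix.mul_smul, Matrix.smul_mul]

theorem eres_posDef_smul {t : ℝ} (ht : 0 < t) {P : Mat r} (hP : P.PosDef) : (t • P).PosDef :=
  hP.smul ht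

omit [MeasurableSpace E] [BorelSpace E] in
theorem eres_pair (α : E →L[ℝ] E) (Y : E →L[ℝ] Mat r) (p : E →L[ℝ] ℝ) (X : Mat r) :
    pair α Y (p.smulRight X) = ((∑ i, p (α (ob E i)) • Y (ob E i)) * X).trace.re := by
  simp only [pair, ContinuousLinearMap.smulRight_apply, Finset.sum_mul, trace_sum, Complex.re_sum,
    Matrix.mul_smul, Matrix.smul_mul]

theorem eres_eq_zero {M : Mat r} (h : 0 ≤ (M * -Mᴴ).trace.re) : M = 0 := by
  have b : Bd 1 (1 : Mat r) := Obst.refl PosSemidef.one le_rfl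
  have h1 := le_nf one_pos b b M
  simp only [nf, inv_one, Matrix.mul_one, one_pow, one_mul] at h1
  rw [Matrix.mul_neg, trace_neg, Complex.neg_re] at h
  have h2 : ‖M‖ ^ 2 = 0 := le_antisymm (by linarith) (sq_nonneg _)
  exact norm_eq_zero.1 (pow_eq_zero_iff two_ne_zero |>.1 h2)

/-- rescaling a minimiser into the interior of the obstacle class -/
theorem Atlas.min_rescale (hH : A.Ref ρ H) (hC : 1 ≤ C) (hχ : A.Pou (ball 0 6) χ)
    (hh : A.IsMin χ ρ H C h D) {t C' : ℝ} (ht : 0 < t) (h1 : 1 ≤ C') (h2 : C' ≤ C)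
    (hs : ∀ a, ∀ᵐ x, x ∈ ball (0 : E) 1 → sg (h a x) (t • H a x) ≤ C') :
    ∃ h' D', A.IsMin χ ρ H C h' D' ∧ ∀ a, ∀ x ∈ ball (0 : E) 6, Obst C' (H a x) (h' a x) := by
  classical
  have hC0 : 0 < C := lt_of_lt_of_le one_pos hC
  have hC0' : 0 < C' := lt_of_lt_of_le one_pos h1
  have ht' : 0 < t⁻¹ := inv_pos.2 ht
  have hp : ∀ a, ∀ x ∈ ball (0 : E) 6, (h a x).PosDef := fun a x hx =>
    (hh.1.ob a x hx).posDef (hH.pos a x hx) hC0
  have hinv : ∀ a b, ∀ x ∈ A.ov (ball 0 6) a b,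
      sg (h b (A.T a b x)) (t • H b (A.T a b x)) = sg (h a x) (t • H a x) := by
    intro a b x hx
    rw [hh.1.mc a b x hx, hH.mc a b x hx, ← eres_gm_smul]
    exact sg_gm (hp a x hx.2.1) (eres_posDef_smul ht (hH.pos a x hx.2.1)) (rep_mul_inv ρ _)
  have hae : ∀ a, ∀ᵐ x, x ∈ ball (0 : E) 6 → sg (h a x) (t • H a x) ≤ C' := by
    intro a
    filter_upwards [A.ae_cover (p := fun b y => sg (h b y) (t • H b y) ≤ C') hs a] with x hx hx6
    obtain ⟨b, hb, hb1, hb2⟩ := hx hx6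
    rw [← hinv a b x ⟨hb, hx6, ball_subset_ball (by norm_num) hb1⟩]
    exact hb2
  set h' : A.ι → E → Mat r :=
    fun a x => if sg (h a x) (t • H a x) ≤ C' then t⁻¹ • h a x else H a x with hh'
  have hae' : ∀ a, ∀ᵐ x, x ∈ ball (0 : E) 6 → t⁻¹ • h a x = h' a x := by
    intro a
    filter_upwards [hae a] with x hx hx6
    simp only [hh', if_pos (hx hx6)]
  have hob : ∀ a, ∀ x ∈ ball (0 : E) 6, Obst C' (H a x) (h' a x) := by
    intro a x hx
    by_cases hc : sg (h a x) (t • H a x) ≤ C'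
    · simp only [hh', if_pos hc]
      refine obst_of_sg (hH.pos a x hx) (eres_posDef_smul ht' (hp a x hx)) hC0' ?_
      rw [← sg_smul ht' (hp a x hx) (eres_posDef_smul ht (hH.pos a x hx)), smul_smul,
        inv_mul_cancel₀ ht.ne', one_smul, sg_comm] at hc
      exact hc
    · simp only [hh', if_neg hc]
      exact Obst.refl (hH.pos a x hx).posSemidef h1
  have hen : A.energy χ h' (fun a x => t⁻¹ • D a x) = A.energy χ h D := by
    refine Finset.sum_congr rfl fun a _ => integral_congr_ae ?_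
    filter_upwards [hae' a] with x hx
    by_cases hx6 : x ∈ ball (0 : E) 6
    · rw [← hx hx6]
      simp only [en, mc_smul (hp a x hx6) ht']
    · simp only [(hχ.1 a).1.zero_of_notMem hx6, zero_mul]
  refine ⟨h', fun a x => t⁻¹ • D a x, ⟨⟨fun a => ?_, fun a x hx => ?_, fun a b x hx => ?_⟩,
    fun h'' D'' hA => ?_⟩, hob⟩
  · exact ((hh.1.wd a).const_smul t⁻¹).congr (hae' a) (Eventually.of_forall fun _ _ => rfl)
  · exact (hob a x hx).mono (hH.pos a x hx).posSemidef hC0' h2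
  · simp only [hh', hinv a b x hx]
    by_cases hc : sg (h a x) (t • H a x) ≤ C'
    · rw [if_pos hc, if_pos hc, hh.1.mc a b x hx, eres_gm_smul]
    · rw [if_neg hc, if_neg hc, hH.mc a b x hx]
  · rw [hen]
    exact hh.2 h'' D'' hA

/-- an interior minimiser is weakly harmonic -/
theorem Atlas.harm_of_min (hχ : A.Pou (ball 0 6) χ) (hH : A.Ref ρ H)
    (hh : A.IsMin χ ρ H C h D) {C' : ℝ} (h1 : 1 ≤ C') (h2 : C' * 2 ≤ C)
    (ho : ∀ a, ∀ x ∈ ball (0 : E) 6, Obst C' (H a x) (h a x)) (a : A.ι) :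
    Harm (ball 0 6) (A.α a) fun x => mc (h a x) (D a x) := by
  intro φ hφ
  have hC : 1 ≤ C := by linarith
  have hC0' : 0 < C' := lt_of_lt_of_le one_pos h1
  set F : E → Mat r :=
    fun x => ∑ p, fderiv ℝ φ x (A.α a x (ob E p)) • mc (h a x) (D a x) (ob E p) with hF
  by_cases hI : Integrable F
  swap
  · exact integral_undef hI
  obtain ⟨B, hB, hBd⟩ := Atlas.Adm.lbd hH hC hh.1 a (tsupport φ) hφ.2.1 hφ.2.2
  obtain ⟨δ, hδ, hfree⟩ := obst_free r hB
  obtain ⟨L, hL⟩ := hφ.2.1.exists_bound_of_continuous hφ.continuous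
  have hL0 : 0 ≤ L := (norm_nonneg _).trans (hL 0)
  have key : ∀ X : Mat r, 0 ≤ ((∫ x, F x) * X).trace.re := by
    intro X
    have hw : WD 2 (ball (0 : E) 6) (fun x => φ x • X) fun x => (fderiv ℝ φ x).smulRight X :=
      ((WD.const (U := ball (0 : E) 6) (by norm_num) X).smul (by norm_num) hφ.1).congr'
        (fun _ _ => rfl) fun _ _ => by simp
    have hn : ∀ x, ‖φ x • X‖ ≤ L * ‖X‖ := fun x => by
      rw [norm_smul]; exact mul_le_mul_of_nonneg_right (hL x) (norm_nonneg _)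
    have hd : 0 < L * ‖X‖ + 1 := by positivity
    have hv := Atlas.min_var hχ hH hC hh a hw (fun K _ _ => ⟨_, fun x _ => hn x⟩)
      ⟨tsupport φ, hφ.2.1, hφ.2.2, fun x _ hx => by
        simp [image_eq_zero_of_notMem_tsupport hx]⟩ (t₀ := δ / (L * ‖X‖ + 1)) (div_pos hδ hd) (by
        intro t ht x hx
        by_cases hxK : x ∈ tsupport φ
        · have hz : ‖t • φ x • X‖ ≤ δ := by
            rw [norm_smul, Real.norm_of_nonneg ht.1]
            calc t * ‖φ x • X‖ ≤ δ / (L * ‖X‖ + 1) * (L * ‖X‖ + 1) :=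
                  mul_le_mul ht.2 ((hn x).trans (by linarith)) (norm_nonneg _) (by positivity)
              _ = δ := div_mul_cancel₀ _ hd.ne'
          exact (Obst.trans hC0' two_pos (ho a x hx) (hfree _ _ (hBd x hxK) hz)).mono
            (hH.pos a x hx).posSemidef (by positivity) h2
        · simp only [image_eq_zero_of_notMem_tsupport hxK, zero_smul, smul_zero, add_zero, gm_one]
          exact hh.1.ob a x hx)
    set T : Mat r →L[ℝ] ℝ := (trL r).comp ((ContinuousLinearMap.mul ℝ (Mat r)).flip X) with hT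
    have hTa : ∀ Y, T Y = (Y * X).trace.re := fun _ => rfl
    rw [← hTa, ← T.integral_comp_comm hI]
    rw [setIntegral_eq_integral_of_forall_compl_eq_zero] at hv
    · simpa only [eres_pair, hTa] using hv
    · intro x hx
      simp [pair, hφ.fderiv_zero_of_notMem hx]
  exact eres_eq_zero (key _)

end Pool.Agent.PW
end
end

-- part Pool.Agent.P.MP_65ad7c_ag.TSob
section

open MeasureTheory Set Filter Topology Metric Matrix
open scoped ComplexOrder ContDiff Matrix.Norms.Frobenius RealInnerProductSpace ENNReal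
open Pool.Agent.Lib.Sob

noncomputable section
namespace Pool.Agent.PW

variable {E : Type} [NormedAddCommGroup E] [InnerProductSpace ℝ E] [FiniteDimensional ℝ E]
  [MeasurableSpace E] [BorelSpace E] {r : ℕ} {U : Set E}
  {V W : Type} [NormedAddCommGroup V] [NormedSpace ℝ V] [NormedAddCommGroup W] [NormedSpace ℝ W]

theorem tsob_tendsto_sub {α G : Type*} [MeasurableSpace α] {μ : Measure α}
    [NormedAddCommGroup G] {f : ℕ → α → G}
    (h : Tendsto (fun k => ∫⁻ x, ‖f k x‖ₑ ^ 2 ∂μ) atTop (𝓝 0)) :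
    Tendsto (fun k => eLpNorm (f k) 2 μ) atTop (𝓝 0) := by
  simp only [lintegral_pow_eq (show 1 ≤ 2 by norm_num)] at h
  have := h.ennrpow_const ((2 : ℝ)⁻¹)
  rw [ENNReal.zero_rpow_of_pos (by norm_num)] at this
  refine this.congr fun k => ?_
  rw [← ENNReal.rpow_natCast, ← ENNReal.rpow_mul]
  norm_num

theorem tsob_tendsto_norm {α G : Type*} [MeasurableSpace α] {μ : Measure α}
    [NormedAddCommGroup G] {f : ℕ → α → G} {g : α → G}
    (hf : ∀ k, AEStronglyMeasurable (f k) μ) (hg : MemLp g 2 μ)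
    (h : Tendsto (fun k => eLpNorm (fun x => f k x - g x) 2 μ) atTop (𝓝 0)) :
    Tendsto (fun k => eLpNorm (f k) 2 μ) atTop (𝓝 (eLpNorm g 2 μ)) := by
  have lo := ENNReal.Tendsto.sub (tendsto_const_nhds (x := eLpNorm g 2 μ)) h (Or.inl hg.2.ne)
  have hi := h.add (tendsto_const_nhds (x := eLpNorm g 2 μ))
  rw [tsub_zero] at lo
  rw [zero_add] at hi
  refine tendsto_of_tendsto_of_tendsto_of_le_of_le lo hi (fun k => ?_) fun k => ?_
  · rw [tsub_le_iff_right]
    have := eLpNorm_sub_le (p := 2) (hf k) ((hf k).sub hg.1) (by norm_num)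
    rwa [sub_sub_cancel] at this
  · have := eLpNorm_add_le (p := 2) ((hf k).sub hg.1) hg.1 (by norm_num)
    rwa [sub_add_cancel] at this

theorem tsob_ind {α G : Type*} [MeasurableSpace α] {μ : Measure α}
    [NormedAddCommGroup G] {f : α → G} {K : Set α} (hK : MeasurableSet K)
    (h : MemLp f 2 (μ.restrict K)) : MemLp (K.indicator f) 2 μ :=
  (memLp_indicator_iff_restrict hK).2 h

theorem tsob_ind_le {α G : Type*} [MeasurableSpace α] {μ : Measure α}
    [NormedAddCommGroup G] (K : Set α) (f : α → G) :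
    eLpNorm (K.indicator f) 2 μ ≤ eLpNorm f 2 μ := eLpNorm_indicator_le _

theorem tsob_sq {α : Type*} [MeasurableSpace α] {μ : Measure α} (f : α → ℝ) :
    eLpNorm f 2 μ ^ 2 = eLpNorm (fun x => f x * f x) 1 μ := by
  have := lintegral_pow_eq (μ := μ) (show 1 ≤ 2 by norm_num) f
  rw [Nat.cast_ofNat] at this
  rw [← this, eLpNorm_one_eq_lintegral_enorm]
  simp only [enorm_mul, sq]

theorem tsob_smooth (hE : 2 ≤ Module.finrank ℝ E) : ∃ C : NNReal,
    ∀ (φ : E → ℝ) (S : Set E), ContDiff ℝ ∞ φ → HasCompactSupport φ →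
      eLpNorm φ 2 (volume.restrict S) ^ 2 ≤ C * eLpNorm φ 2 volume *
        eLpNorm (fderiv ℝ φ) 2 volume * volume S ^ ((Module.finrank ℝ E : ℝ)⁻¹) := by
  have hd : (1 : NNReal) < (Module.finrank ℝ E : NNReal) := by exact_mod_cast hE
  set p : NNReal := NNReal.conjExponent (Module.finrank ℝ E : NNReal)
  have hp : NNReal.HolderConjugate (Module.finrank ℝ E) p :=
    NNReal.HolderConjugate.conjExponent hd
  refine ⟨eLpNormLESNormFDerivOneConst (volume : Measure E) p * 2, fun φ S hφ hc => ?_⟩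
  have h1 : ContDiff ℝ 1 φ := hφ.of_le (by simp)
  have cd : Continuous (fderiv ℝ φ) := hφ.continuous_fderiv (by simp)
  have gn := eLpNorm_le_eLpNorm_fderiv_one (volume : Measure E) (u := fun x => φ x * φ x)
    (h1.mul h1) hc.mul_right hp
  have hder : fderiv ℝ (fun x => φ x * φ x) = fun x => (2 * φ x) • fderiv ℝ φ x := by
    funext x
    rw [fderiv_fun_mul (h1.differentiable one_ne_zero x) (h1.differentiable one_ne_zero x),
      two_mul, add_smul]
  have ho := eLpNorm_le_eLpNorm_mul_eLpNorm'_of_norm (μ := (volume : Measure E)) (p := 2) (q := 2)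
    (r := 1) hφ.continuous.aestronglyMeasurable cd.aestronglyMeasurable
    (fun (a : ℝ) (L : E →L[ℝ] ℝ) => (2 * a) • L) 2 (Eventually.of_forall fun x => by
      simp [norm_smul])
  have hS := eLpNorm_le_eLpNorm_mul_rpow_measure_univ (μ := volume.restrict S) (p := 1) (q := p)
    (f := fun x => φ x * φ x) (by exact_mod_cast hp.symm.lt.le)
    (hφ.continuous.mul hφ.continuous).aestronglyMeasurable
  have he : 1 / (1 : ℝ≥0∞).toReal - 1 / (p : ℝ≥0∞).toReal = (Module.finrank ℝ E : ℝ)⁻¹ := by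
    have := hp.coe.inv_add_inv_eq_one
    simp only [NNReal.coe_natCast] at this
    simp only [ENNReal.toReal_one, ENNReal.coe_toReal, one_div]
    linarith
  rw [he, Measure.restrict_apply_univ] at hS
  rw [tsob_sq]
  refine hS.trans (mul_le_mul_left ?_ _)
  refine (eLpNorm_restrict_le _ _ _ _).trans (gn.trans ?_)
  rw [hder, ENNReal.coe_mul, mul_assoc, mul_assoc, ← mul_assoc ((2 : NNReal) : ℝ≥0∞)]
  exact mul_le_mul_right ho _

/-- the Sobolev step of the De Giorgi iteration: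
`∫ v² ≤ C ‖v‖₂ ‖Dv‖₂ |{v ≠ 0}|^{1/d}` (apply the `L¹` Gagliardo-Nirenberg inequality to `v²`) -/
theorem sobolev_step (hE : 2 ≤ Module.finrank ℝ E) : ∃ C : ℝ, 0 < C ∧
    ∀ (v : E → ℝ) (D : E → E →L[ℝ] ℝ) (K S : Set E), WD 2 univ v D → IsCompact K →
      MeasurableSet S → (∀ x, x ∉ K → v x = 0) → (∀ᵐ x, x ∉ S → v x = 0) →
      eLpNorm v 2 volume ^ 2 ≤ ENNReal.ofReal C * eLpNorm v 2 volume * eLpNorm D 2 volume *
        volume S ^ ((Module.finrank ℝ E : ℝ)⁻¹) := by
  obtain ⟨C, hC⟩ := tsob_smooth hE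
  refine ⟨C + 1, by positivity, fun v D K S h hK hS h0 hS0 => ?_⟩
  obtain ⟨K', -, -, -, φ, hφ, t1, t2⟩ :=
    h.approx_test (by norm_num) isOpen_univ hK (subset_univ _) (fun x _ hx => h0 x hx)
  have ev : K.indicator v = v := indicator_eq_self.2 fun x hx => by
    by_contra h'; exact hx (h0 x h')
  rw [ev] at t1
  have mv : MemLp v 2 volume := by
    simpa using h.1.memLp_of_support hK (subset_univ _) h0
  have mD : MemLp (K.indicator D) 2 volume := by
    have m : MemLp D 2 (volume.restrict K) := by simpa using h.2.1 K hK (subset_univ _)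
    exact tsob_ind hK.measurableSet m
  have s1 := tsob_tendsto_sub t1
  have s2 := tsob_tendsto_sub t2
  have s3 : Tendsto (fun k => eLpNorm (fun x => φ k x - v x) 2 (volume.restrict (S ∩ K))) atTop
      (𝓝 0) := tendsto_of_tendsto_of_tendsto_of_le_of_le tendsto_const_nhds s1
    (fun _ => zero_le) fun k => eLpNorm_restrict_le _ _ _ _
  have n1 := tsob_tendsto_norm (fun k => (hφ k).continuous.aestronglyMeasurable) mv s1
  have n2 := tsob_tendsto_norm (fun k => (hφ k).continuous_fderiv.aestronglyMeasurable) mD s2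
  have n3 := tsob_tendsto_norm (fun k => (hφ k).continuous.aestronglyMeasurable)
    (mv.restrict (S ∩ K)) s3
  have hfin : volume (S ∩ K) ^ ((Module.finrank ℝ E : ℝ)⁻¹) ≠ ⊤ :=
    ENNReal.rpow_ne_top_of_nonneg (by positivity)
      ((measure_mono inter_subset_right).trans_lt hK.measure_lt_top).ne
  have n4 := ENNReal.Tendsto.mul_const (ENNReal.Tendsto.mul
    (ENNReal.Tendsto.const_mul (a := (C : ℝ≥0∞)) n1 (Or.inr ENNReal.coe_ne_top))
    (Or.inr mD.2.ne) n2 (Or.inr (ENNReal.mul_ne_top ENNReal.coe_ne_top mv.2.ne))) (Or.inr hfin)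
  have key := le_of_tendsto_of_tendsto' (ENNReal.Tendsto.pow (n := 2) n3) n4
    fun k => hC (φ k) (S ∩ K) (hφ k).1 (hφ k).2.1
  have er : eLpNorm v 2 (volume.restrict (S ∩ K)) = eLpNorm v 2 volume := by
    rw [← eLpNorm_indicator_eq_eLpNorm_restrict (hS.inter hK.measurableSet)]
    refine eLpNorm_congr_ae ?_
    filter_upwards [hS0] with x hx
    by_cases hx' : x ∈ S ∩ K
    · simp [hx']
    · rw [indicator_of_notMem hx']
      by_cases hxS : x ∈ S
      · exact (h0 x fun hxK => hx' ⟨hxS, hxK⟩).symm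
      · exact (hx hxS).symm
  rw [er] at key
  refine key.trans ?_
  refine mul_le_mul' (mul_le_mul' (mul_le_mul' ?_ le_rfl) (tsob_ind_le K D))
    (ENNReal.rpow_le_rpow (measure_mono inter_subset_left) (by positivity))
  rw [← ENNReal.ofReal_coe_nnreal]
  exact ENNReal.ofReal_le_ofReal (by linarith)

/-- the geometric iteration lemma -/
theorem iter_tendsto {Y : ℕ → ℝ} {C b δ : ℝ} (hC : 0 < C) (hb : 1 ≤ b) (hδ : 0 < δ)
    (h0 : ∀ j, 0 ≤ Y j) (hs : ∀ j, Y (j + 1) ≤ C * b ^ j * Y j ^ (1 + δ))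
    (hY : Y 0 ≤ C ^ (-δ⁻¹) * b ^ (-(δ ^ 2)⁻¹)) (hb1 : 1 < b) : Tendsto Y atTop (𝓝 0) := by
  have hb0 : 0 < b := by linarith
  set q : ℝ := b ^ (-δ⁻¹) with hq
  have hq0 : 0 < q := Real.rpow_pos_of_pos hb0 _
  have hq1 : q < 1 := Real.rpow_lt_one_of_one_lt_of_neg hb1 (by simpa using hδ)
  have hqδ : q ^ δ = b⁻¹ := by
    rw [hq, ← Real.rpow_mul hb0.le, neg_mul, inv_mul_cancel₀ hδ.ne', Real.rpow_neg_one]
  have hY0 : Y 0 ^ δ ≤ C⁻¹ * q := by
    refine (Real.rpow_le_rpow (h0 0) hY hδ.le).trans (le_of_eq ?_)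
    rw [Real.mul_rpow (Real.rpow_nonneg hC.le _) (Real.rpow_nonneg hb0.le _),
      ← Real.rpow_mul hC.le, ← Real.rpow_mul hb0.le, neg_mul, inv_mul_cancel₀ hδ.ne',
      Real.rpow_neg_one, hq]
    congr 2
    field_simp
  have key : ∀ j, Y j ≤ Y 0 * q ^ j := by
    intro j
    induction j with
    | zero => simp
    | succ j ih =>
      have hA : 0 ≤ Y 0 * q ^ j := mul_nonneg (h0 0) (pow_nonneg hq0.le _)
      have e1 : Y j ^ (1 + δ) ≤ (Y 0 * q ^ j) * (Y 0 ^ δ * b⁻¹ ^ j) := by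
        refine (Real.rpow_le_rpow (h0 j) ih (by linarith)).trans (le_of_eq ?_)
        rw [Real.rpow_add' hA (by linarith), Real.rpow_one,
          Real.mul_rpow (h0 0) (pow_nonneg hq0.le _), ← Real.rpow_natCast q j,
          ← Real.rpow_mul hq0.le, mul_comm (j : ℝ) δ, Real.rpow_mul hq0.le, hqδ,
          Real.rpow_natCast, Real.rpow_natCast]
      calc Y (j + 1) ≤ C * b ^ j * Y j ^ (1 + δ) := hs j
        _ ≤ C * b ^ j * ((Y 0 * q ^ j) * ((C⁻¹ * q) * b⁻¹ ^ j)) := by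
          refine mul_le_mul_of_nonneg_left (e1.trans ?_) (by positivity)
          gcongr
        _ = Y 0 * q ^ (j + 1) := by
          rw [inv_pow]
          field_simp
          ring
  have lim := (tendsto_pow_atTop_nhds_zero_of_lt_one hq0.le hq1).const_mul (Y 0)
  rw [mul_zero] at lim
  exact tendsto_of_tendsto_of_tendsto_of_le_of_le tendsto_const_nhds lim h0 key

end Pool.Agent.PW
end
end

-- part Pool.Agent.P.MP_65ad7c_ag.TDG
section

open MeasureTheory Set Filter Topology Metric Matrix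
open scoped ComplexOrder ContDiff Matrix.Norms.Frobenius RealInnerProductSpace ENNReal
open Pool.Agent.Lib.Sob

noncomputable section
namespace Pool.Agent.PW

variable {E : Type} [NormedAddCommGroup E] [InnerProductSpace ℝ E] [FiniteDimensional ℝ E]
  [MeasurableSpace E] [BorelSpace E] {r : ℕ} {U : Set E}
  {V W : Type} [NormedAddCommGroup V] [NormedSpace ℝ V] [NormedAddCommGroup W] [NormedSpace ℝ W]

theorem tdg_deriv_bound : ∃ B : ℝ, 0 < B ∧ ∀ u, |deriv Real.smoothTransition u| ≤ B := by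
  have hc : Continuous (deriv Real.smoothTransition) :=
    (Real.smoothTransition.contDiff (n := 1)).continuous_deriv le_rfl
  obtain ⟨B, hB⟩ := (isCompact_Icc (a := (0 : ℝ)) (b := 1)).exists_bound_of_continuousOn
    hc.continuousOn
  refine ⟨|B| + 1, by positivity, fun u => ?_⟩
  by_cases h0 : u < 0
  · have : Real.smoothTransition =ᶠ[𝓝 u] fun _ => (0 : ℝ) := by
      filter_upwards [Iio_mem_nhds h0] with y hy using
        Real.smoothTransition.zero_of_nonpos (le_of_lt hy)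
    rw [this.deriv_eq]; simp; positivity
  by_cases h1 : 1 < u
  · have : Real.smoothTransition =ᶠ[𝓝 u] fun _ => (1 : ℝ) := by
      filter_upwards [Ioi_mem_nhds h1] with y hy using
        Real.smoothTransition.one_of_one_le (le_of_lt hy)
    rw [this.deriv_eq]; simp; positivity
  have := hB u ⟨not_lt.1 h0, not_lt.1 h1⟩
  rw [Real.norm_eq_abs] at this
  linarith [le_abs_self B]

/-- cutoff functions with a gradient bound -/
theorem exists_cutoff_grad : ∃ G : ℝ, 0 < G ∧ ∀ (x₀ : E) (s t : ℝ), 0 < s → s < t →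
    ∃ ζ : E → ℝ, IsTest (closedBall x₀ t) ζ ∧ (∀ x, ζ x ∈ Icc (0 : ℝ) 1) ∧
      (∀ x ∈ closedBall x₀ s, ζ x = 1) ∧ ∀ x, ‖fderiv ℝ ζ x‖ ≤ G * t / (s * (t - s)) := by
  obtain ⟨B, hB0, hB⟩ := tdg_deriv_bound
  refine ⟨2 * B, by positivity, fun x₀ s t hs hst => ?_⟩
  have ht : 0 < t := hs.trans hst
  have hd : 0 < t ^ 2 - s ^ 2 := by nlinarith
  set q : E → ℝ := fun x => (t ^ 2 - s ^ 2)⁻¹ * (‖x - x₀‖ ^ 2 - s ^ 2) with hq
  have hqc : ContDiff ℝ ∞ q := by
    refine contDiff_const.mul (ContDiff.sub ?_ contDiff_const)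
    exact (contDiff_id.sub contDiff_const).norm_sq ℝ
  set ζ : E → ℝ := fun x => 1 - Real.smoothTransition (q x) with hζ
  have hz : ∀ x, x ∉ closedBall x₀ t → ζ x = 0 := by
    intro x hx
    rw [mem_closedBall, dist_eq_norm, not_le] at hx
    have : 1 ≤ q x := by
      rw [hq]; dsimp only
      rw [inv_mul_eq_div, le_div_iff₀ hd]; nlinarith
    simp [hζ, Real.smoothTransition.one_of_one_le this]
  have hts : tsupport ζ ⊆ closedBall x₀ t := by
    refine closure_minimal (fun x hx => ?_) isClosed_closedBall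
    by_contra h; exact hx (hz x h)
  have htest : IsTest (closedBall x₀ t) ζ :=
    ⟨contDiff_const.sub (Real.smoothTransition.contDiff.comp hqc),
      (isCompact_closedBall x₀ t).of_isClosed_subset (isClosed_tsupport ζ) hts, hts⟩
  refine ⟨ζ, htest, fun x => ⟨?_, ?_⟩, fun x hx => ?_, fun x => ?_⟩
  · simp only [hζ]; linarith [Real.smoothTransition.le_one (q x)]
  · simp only [hζ]; linarith [Real.smoothTransition.nonneg (q x)]
  · rw [mem_closedBall, dist_eq_norm] at hx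
    have : q x ≤ 0 := by
      rw [hq]; dsimp only
      refine mul_nonpos_of_nonneg_of_nonpos (inv_nonneg.2 hd.le) ?_
      nlinarith [norm_nonneg (x - x₀)]
    simp [hζ, Real.smoothTransition.zero_of_nonpos this]
  · by_cases hx : x ∈ closedBall x₀ t
    · rw [mem_closedBall, dist_eq_norm] at hx
      have h1 : HasFDerivAt (fun y : E => ‖y - x₀‖ ^ 2) (2 • innerSL ℝ (x - x₀)) x := by
        have := ((hasFDerivAt_id (𝕜 := ℝ) x).sub_const x₀).norm_sq
        simpa using this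
      have h2 : HasFDerivAt q ((t ^ 2 - s ^ 2)⁻¹ • (2 • innerSL ℝ (x - x₀))) x :=
        (h1.sub_const (s ^ 2)).const_mul _
      have h3 : HasDerivAt Real.smoothTransition (deriv Real.smoothTransition (q x)) (q x) :=
        ((Real.smoothTransition.contDiff (n := 1)).differentiable (by simp) _).hasDerivAt
      have h4 := (h3.comp_hasFDerivAt x h2).const_sub 1
      have h5 : fderiv ℝ ζ x = -(deriv Real.smoothTransition (q x) •
          (t ^ 2 - s ^ 2)⁻¹ • (2 • innerSL ℝ (x - x₀))) := h4.fderiv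
      rw [h5, norm_neg, norm_smul, norm_smul, Real.norm_eq_abs, Real.norm_eq_abs,
        abs_of_pos (inv_pos.2 hd), two_smul]
      have h6 : ‖innerSL ℝ (x - x₀) + innerSL ℝ (x - x₀)‖ ≤ 2 * t := by
        refine (norm_add_le _ _).trans ?_
        rw [innerSL_apply_norm]; linarith
      have h7 : (t ^ 2 - s ^ 2)⁻¹ ≤ (s * (t - s))⁻¹ := by
        apply inv_anti₀ (mul_pos hs (sub_pos.2 hst)); nlinarith
      calc _ ≤ B * ((s * (t - s))⁻¹ * (2 * t)) := by
            refine mul_le_mul (hB _) (mul_le_mul h7 h6 (norm_nonneg _) ?_) (by positivity) hB0.le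
            exact inv_nonneg.2 (mul_pos hs (sub_pos.2 hst)).le
        _ = 2 * B * t / (s * (t - s)) := by rw [div_eq_mul_inv]; ring
    · rw [htest.fderiv_zero_of_notMem hx, norm_zero]
      have := sub_pos.2 hst
      positivity

theorem tdg_norm {X F : Type} [MeasurableSpace X] [NormedAddCommGroup F] {μ : Measure X}
    {v : X → F} (h : MemLp v 2 μ) :
    eLpNorm v 2 μ = ENNReal.ofReal (√(∫ x, ‖v x‖ ^ 2 ∂μ)) := by
  rw [h.eLpNorm_eq_integral_rpow_norm two_ne_zero ENNReal.ofNat_ne_top, Real.sqrt_eq_rpow]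
  simp

/-- the truncated energy -/
def tdgY (f : E → ℝ) (x₀ : E) (t k : ℝ) : ℝ := ∫ x in closedBall x₀ t, max (f x - k) 0 ^ 2

theorem tdg_memLp {f : E → ℝ} (h : LocLp 2 U f) (k : ℝ) {K : Set E} (hK : IsCompact K)
    (hKU : K ⊆ U) : MemLp (fun x => max (f x - k) 0) 2 (volume.restrict K) := by
  have := h.comp_of_le (H := fun s => max (s - k) 0) (a := k) (L := 1)
    (by fun_prop) (fun s => by
      rw [one_mul, Real.norm_eq_abs, abs_of_nonneg (le_max_right _ _)]
      exact max_le (le_abs_self _) (abs_nonneg _))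
  simpa using this K hK hKU

theorem tdgY_nonneg (f : E → ℝ) (x₀ : E) (t k : ℝ) : 0 ≤ tdgY f x₀ t k :=
  integral_nonneg fun _ => sq_nonneg _

/-- the real form of the Sobolev step -/
theorem tdg_sob (hE : 2 ≤ Module.finrank ℝ E) : ∃ C : ℝ, 0 < C ∧
    ∀ (v : E → ℝ) (D : E → E →L[ℝ] ℝ) (K S : Set E), WD 2 univ v D → MemLp D 2 volume →
      IsCompact K → (∀ x, x ∉ K → v x = 0) → S ⊆ K → (∀ x, x ∉ S → v x = 0) →
      Integrable (fun x => v x ^ 2) ∧ ∫ x, v x ^ 2 ≤ C * (∫ x, ‖D x‖ ^ 2) *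
        volume.real S ^ (2 * (Module.finrank ℝ E : ℝ)⁻¹) := by
  obtain ⟨C, hC, hs⟩ := sobolev_step hE
  refine ⟨C ^ 2, by positivity, fun v D K S hv hD hK h0 hSK hS => ?_⟩
  have hv2 : MemLp v 2 volume := by
    have h1 : MemLp v 2 (volume.restrict K) := by simpa using hv.1 K hK (subset_univ _)
    have h2 := (memLp_indicator_iff_restrict hK.measurableSet).2 h1
    have e : K.indicator v = v := by
      ext x; by_cases hx : x ∈ K
      · simp [hx]
      · simp [hx, h0 x hx]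
    rwa [e] at h2
  refine ⟨hv2.integrable_sq, ?_⟩
  have h := hs v D K (toMeasurable volume S) hv hK (measurableSet_toMeasurable _ _) h0
    (Eventually.of_forall fun x hx => hS x fun h' => hx (subset_toMeasurable _ _ h'))
  have hfin : volume S ≠ ⊤ := ((measure_mono hSK).trans_lt hK.measure_lt_top).ne
  rw [measure_toMeasurable, tdg_norm hv2, tdg_norm hD, ← ofReal_measureReal hfin,
    ENNReal.ofReal_rpow_of_nonneg measureReal_nonneg (by positivity),
    ← ENNReal.ofReal_pow (Real.sqrt_nonneg _), ← ENNReal.ofReal_mul hC.le,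
    ← ENNReal.ofReal_mul (by positivity), ← ENNReal.ofReal_mul (by positivity),
    ENNReal.ofReal_le_ofReal_iff (by positivity)] at h
  have e1 : ∫ x, ‖v x‖ ^ 2 = ∫ x, v x ^ 2 := by simp
  rw [e1] at h
  set a := √(∫ x, v x ^ 2) with ha
  set b := √(∫ x, ‖D x‖ ^ 2) with hb
  set m := volume.real S ^ ((Module.finrank ℝ E : ℝ)⁻¹) with hm
  have ea : ∫ x, v x ^ 2 = a ^ 2 := (Real.sq_sqrt (integral_nonneg fun _ => sq_nonneg _)).symm
  have eb : ∫ x, ‖D x‖ ^ 2 = b ^ 2 :=
    (Real.sq_sqrt (integral_nonneg fun _ => sq_nonneg _)).symm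
  have em : volume.real S ^ (2 * (Module.finrank ℝ E : ℝ)⁻¹) = m ^ 2 := by
    rw [hm, mul_comm, Real.rpow_mul measureReal_nonneg, Real.rpow_two]
  have a0 : 0 ≤ a := Real.sqrt_nonneg _
  have b0 : 0 ≤ b := Real.sqrt_nonneg _
  have m0 : 0 ≤ m := by positivity
  rw [ea, eb, em]
  have hle : a ≤ C * b * m := by
    rcases a0.eq_or_lt with h' | h'
    · rw [← h']; positivity
    · by_contra hcon
      have := mul_lt_mul_of_pos_left (not_le.1 hcon) h'
      nlinarith
  calc a ^ 2 ≤ (C * b * m) ^ 2 := by gcongr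
    _ = _ := by ring

/-- Chebyshev bounds at a higher level -/
theorem tdg_cheb {f : E → ℝ} (h : LocLp 2 U f) {x₀ : E} {t k k' : ℝ} (hk : k < k')
    (hU : closedBall x₀ t ⊆ U) :
    volume.real (closedBall x₀ t ∩ {x | k' < f x}) ≤ tdgY f x₀ t k / (k' - k) ^ 2 ∧
    (∀ T : Set E, T ⊆ closedBall x₀ t →
      ∫ x in T, max (f x - k') 0 ^ 2 ≤ tdgY f x₀ t k ∧
      ∫ x in T, max (f x - k') 0 ≤ tdgY f x₀ t k / (k' - k)) := by
  have hc := isCompact_closedBall x₀ t
  have hd : 0 < k' - k := sub_pos.2 hk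
  have m1 := tdg_memLp h k hc hU
  have m2 := tdg_memLp h k' hc hU
  have : IsFiniteMeasure (volume.restrict (closedBall x₀ t)) :=
    ⟨by simpa using hc.measure_lt_top⟩
  refine ⟨?_, fun T hT => ⟨?_, ?_⟩⟩
  · have h1 := mul_meas_ge_le_integral_of_nonneg
      (Eventually.of_forall fun x => sq_nonneg (max (f x - k) 0)) m1.integrable_sq ((k' - k) ^ 2)
    rw [le_div_iff₀ (by positivity), mul_comm]
    refine le_trans (mul_le_mul_of_nonneg_left ?_ (by positivity)) h1
    rw [measureReal_restrict_apply' hc.measurableSet]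
    refine measureReal_mono (fun x hx => ⟨?_, hx.1⟩)
      (((measure_mono inter_subset_right).trans_lt hc.measure_lt_top).ne)
    have h2 : k' - k ≤ max (f x - k) 0 := le_max_of_le_left (by linarith [hx.2.out])
    show (k' - k) ^ 2 ≤ _
    gcongr
  · refine (setIntegral_mono_set m2.integrable_sq
      (Eventually.of_forall fun x => sq_nonneg _) hT.eventuallyLE).trans ?_
    refine integral_mono m2.integrable_sq m1.integrable_sq fun x => ?_
    have : max (f x - k') 0 ≤ max (f x - k) 0 := max_le_max (by linarith) le_rfl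
    have h0 : 0 ≤ max (f x - k') 0 := le_max_right _ _
    dsimp only
    gcongr
  · refine (setIntegral_mono_set (m2.integrable (by norm_num))
      (Eventually.of_forall fun x => le_max_right _ _) hT.eventuallyLE).trans ?_
    rw [tdgY, ← integral_div]
    refine integral_mono (m2.integrable (by norm_num)) (m1.integrable_sq.div_const _) fun x => ?_
    dsimp only
    rw [le_div_iff₀ hd]
    rcases le_total (f x - k') 0 with h' | h'
    · rw [max_eq_right h', zero_mul]; positivity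
    · rw [max_eq_left h', max_eq_left (by linarith)]; nlinarith

/-- one step of the iteration -/
theorem tdg_step (hE : 2 ≤ Module.finrank ℝ E) {l L : ℝ} (hl : 0 < l) : ∃ A G : ℝ, 0 < A ∧
    0 < G ∧ ∀ (x₀ : E) (U : Set E) (α : E → E →L[ℝ] E) (f : E → ℝ) (Df : E → E →L[ℝ] ℝ)
      (c R' s t k k' : ℝ), IsOpen U → closedBall x₀ R' ⊆ U →
      (∀ x ∈ closedBall x₀ R', Ell l L (α x)) → ContinuousOn α U → WD 2 U f Df → LB U f →
      0 ≤ c → SubSol U (closedBall x₀ R') α Df c → 0 < s → s < t → t ≤ R' → k < k' →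
      tdgY f x₀ s k' ≤ A * ((G * t / (s * (t - s))) ^ 2 + c / (k' - k)) * tdgY f x₀ t k *
        (tdgY f x₀ t k / (k' - k) ^ 2) ^ (2 * (Module.finrank ℝ E : ℝ)⁻¹) := by
  obtain ⟨C1, hC1, hsob⟩ := tdg_sob hE
  obtain ⟨C2, hC2, hcac⟩ := caccioppoli (E := E) (L := L) hl
  obtain ⟨G, hG, hcut⟩ := exists_cutoff_grad (E := E)
  refine ⟨C1 * C2, G, by positivity, hG, ?_⟩
  intro x₀ U α f Df c R' s t k k' hU hRU hell hα hf hlb hc hsub hs hst htR hk
  obtain ⟨ζ, hζ, hζ01, hζ1, hζd⟩ := hcut x₀ s t hs hst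
  have hsubt : closedBall x₀ t ⊆ closedBall x₀ R' := closedBall_subset_closedBall htR
  obtain ⟨Dv, hv, hDv, hint⟩ := hcac U (closedBall x₀ R') α f Df c k' _ ζ hU
    (isCompact_closedBall _ _) hRU hell hα hf hlb hc hsub (hζ.mono hsubt) hζ01 hζd
  obtain ⟨hS, hT⟩ := tdg_cheb hf.1 hk (hsubt.trans hRU)
  obtain ⟨hT1, hT2⟩ := hT _ hζ.2.2
  obtain ⟨hi, hle⟩ := hsob _ Dv (closedBall x₀ t) (closedBall x₀ t ∩ {x | k' < f x}) hv hDv
    (isCompact_closedBall _ _) (fun x hx => by rw [hζ.zero_of_notMem hx, zero_mul])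
    inter_subset_left (fun x hx => by
      by_cases h1 : x ∈ closedBall x₀ t
      · have : f x ≤ k' := not_lt.1 fun h2 => hx ⟨h1, h2⟩
        rw [max_eq_right (by linarith), mul_zero]
      · rw [hζ.zero_of_notMem h1, zero_mul])
  have hY := tdgY_nonneg f x₀ t k
  have hd : 0 < k' - k := sub_pos.2 hk
  have h1 : tdgY f x₀ s k' ≤ ∫ x, (ζ x * max (f x - k') 0) ^ 2 := by
    have e : tdgY f x₀ s k' = ∫ x in closedBall x₀ s, (ζ x * max (f x - k') 0) ^ 2 :=
      setIntegral_congr_fun measurableSet_closedBall fun x hx => by simp [hζ1 x hx]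
    rw [e]
    exact setIntegral_le_integral hi (Eventually.of_forall fun x => sq_nonneg _)
  have h2 : ∫ x, ‖Dv x‖ ^ 2 ≤
      C2 * (((G * t / (s * (t - s))) ^ 2 + c / (k' - k)) * tdgY f x₀ t k) := by
    refine hint.trans (mul_le_mul_of_nonneg_left ?_ hC2.le)
    have e : ((G * t / (s * (t - s))) ^ 2 + c / (k' - k)) * tdgY f x₀ t k =
        (G * t / (s * (t - s))) ^ 2 * tdgY f x₀ t k + c * (tdgY f x₀ t k / (k' - k)) := by ring
    rw [e]
    gcongr
  have h3 : volume.real (closedBall x₀ t ∩ {x | k' < f x}) ^ (2 * (Module.finrank ℝ E : ℝ)⁻¹) ≤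
      (tdgY f x₀ t k / (k' - k) ^ 2) ^ (2 * (Module.finrank ℝ E : ℝ)⁻¹) :=
    Real.rpow_le_rpow measureReal_nonneg hS (by positivity)
  refine h1.trans (hle.trans ?_)
  calc _ ≤ C1 * (C2 * (((G * t / (s * (t - s))) ^ 2 + c / (k' - k)) * tdgY f x₀ t k)) *
        (tdgY f x₀ t k / (k' - k) ^ 2) ^ (2 * (Module.finrank ℝ E : ℝ)⁻¹) := by
        gcongr
    _ = _ := by ring

theorem tdg_arith {A G R R' c K δ y z : ℝ} (hA : 0 < A) (hG : 0 < G) (hR : 0 < R) (hRR : R < R')
    (hc : 0 ≤ c) (hcK : c ≤ K) (hK : 0 < K) (hδ : 0 < δ) (hδ1 : δ ≤ 1) (hy : 0 ≤ y) (j : ℕ)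
    (hz : z ≤ A * ((G * (R + (R' - R) / 2 ^ j) / ((R + (R' - R) / 2 ^ (j + 1)) *
      ((R + (R' - R) / 2 ^ j) - (R + (R' - R) / 2 ^ (j + 1))))) ^ 2 +
      c / ((K - K / 2 ^ (j + 1)) - (K - K / 2 ^ j))) * y *
      (y / ((K - K / 2 ^ (j + 1)) - (K - K / 2 ^ j)) ^ 2) ^ δ) :
    z / K ^ 2 ≤ 16 * A * ((G * R' / (R * (R' - R))) ^ 2 + 1) * 16 ^ j * (y / K ^ 2) ^ (1 + δ) := by
  have hD : 0 < R' - R := sub_pos.2 hRR
  set p : ℝ := 2 ^ (j + 1) with hp
  have hp1 : 1 ≤ p := one_le_pow₀ (by norm_num)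
  have hp0 : 0 < p := by positivity
  have hpj : (2 : ℝ) ^ j = p / 2 := by rw [hp, pow_succ]; ring
  have hp2 : 2 ≤ p := by
    have : (1 : ℝ) ≤ 2 ^ j := one_le_pow₀ (by norm_num)
    rw [hpj] at this; linarith
  have e1 : (K - K / p) - (K - K / 2 ^ j) = K / p := by rw [hpj]; field_simp; ring
  have e2 : (R + (R' - R) / 2 ^ j) - (R + (R' - R) / p) = (R' - R) / p := by
    rw [hpj]; field_simp; ring
  rw [e1, e2] at hz
  set G0 := G * R' / (R * (R' - R)) with hG0
  have hG0p : 0 < G0 := by have := hR.trans hRR; positivity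
  have b1 : G * (R + (R' - R) / 2 ^ j) / ((R + (R' - R) / p) * ((R' - R) / p)) ≤ G0 * p := by
    have t1 : R + (R' - R) / 2 ^ j ≤ R' := by
      have : (R' - R) / 2 ^ j ≤ R' - R := div_le_self hD.le (one_le_pow₀ (by norm_num))
      linarith
    have t2 : R ≤ R + (R' - R) / p := le_add_of_nonneg_right (by positivity)
    calc _ ≤ G * R' / (R * ((R' - R) / p)) := by
          have := hR.trans hRR
          gcongr
      _ = G0 * p := by rw [hG0]; field_simp
  have b1' : 0 ≤ G * (R + (R' - R) / 2 ^ j) / ((R + (R' - R) / p) * ((R' - R) / p)) := by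
    positivity
  have b2 : c / (K / p) ≤ p ^ 2 := by
    rw [div_div_eq_mul_div, div_le_iff₀ hK]
    calc c * p ≤ K * p := by gcongr
      _ = 1 * p * K := by ring
      _ ≤ p * p * K := by gcongr
      _ = p ^ 2 * K := by ring
  have e3 : y / (K / p) ^ 2 = p ^ 2 * (y / K ^ 2) := by field_simp
  have hw : 0 ≤ y / K ^ 2 := by positivity
  have b3 : (y / (K / p) ^ 2) ^ δ ≤ p ^ 2 * (y / K ^ 2) ^ δ := by
    rw [e3, Real.mul_rpow (by positivity) hw]
    refine mul_le_mul_of_nonneg_right ?_ (by positivity)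
    have : (1 : ℝ) ≤ p ^ 2 := one_le_pow₀ hp1
    simpa using Real.rpow_le_rpow_of_exponent_le this hδ1
  have e4 : p ^ 4 = 16 * 16 ^ j := by
    rw [hp, ← pow_mul, mul_comm, pow_mul, pow_succ]; norm_num; ring
  have e5 : (y / K ^ 2) ^ (1 + δ) = y / K ^ 2 * (y / K ^ 2) ^ δ := by
    rw [Real.rpow_add' hw (by linarith), Real.rpow_one]
  have hz2 : z ≤ A * ((G0 * p) ^ 2 + p ^ 2) * y * (p ^ 2 * (y / K ^ 2) ^ δ) := by
    refine hz.trans ?_
    gcongr
  rw [e5, div_le_iff₀ (by positivity)]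
  refine hz2.trans (le_of_eq ?_)
  have : 16 * A * (G0 ^ 2 + 1) * 16 ^ j = A * (G0 ^ 2 + 1) * p ^ 4 := by rw [e4]; ring
  rw [this]; field_simp

/-- De Giorgi: local boundedness of subsolutions -/
theorem degiorgi (hE : 2 ≤ Module.finrank ℝ E) {l L R R' : ℝ} (hl : 0 < l) (hR : 0 < R)
    (hRR : R < R') : ∃ C : ℝ, 0 < C ∧
    ∀ (x₀ : E) (U : Set E) (α : E → E →L[ℝ] E) (f : E → ℝ) (Df : E → E →L[ℝ] ℝ) (c M : ℝ),
      IsOpen U → closedBall x₀ R' ⊆ U → (∀ x ∈ closedBall x₀ R', Ell l L (α x)) →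
      ContinuousOn α U → WD 2 U f Df → LB U f → 0 ≤ c → 0 ≤ M →
      SubSol U (closedBall x₀ R') α Df c → N2 (closedBall x₀ R') f ≤ ENNReal.ofReal M →
      ∀ᵐ x, x ∈ closedBall x₀ R → f x ≤ C * (M + c) := by
  obtain ⟨A, G, hA, hG, hstep⟩ := tdg_step hE (L := L) hl
  set δ : ℝ := 2 * (Module.finrank ℝ E : ℝ)⁻¹ with hδ
  have hE' : (2 : ℝ) ≤ (Module.finrank ℝ E : ℝ) := by exact_mod_cast hE
  have hδ0 : 0 < δ := by rw [hδ]; have : (0 : ℝ) < Module.finrank ℝ E := by linarith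
                         positivity
  have hδ1 : δ ≤ 1 := by
    rw [hδ, ← div_eq_mul_inv, div_le_one (by linarith)]; exact hE'
  set C0 := 16 * A * ((G * R' / (R * (R' - R))) ^ 2 + 1) with hC0
  have hC0p : 0 < C0 := by positivity
  set ε := C0 ^ (-δ⁻¹) * (16 : ℝ) ^ (-(δ ^ 2)⁻¹) with hε
  have hεp : 0 < ε := by positivity
  refine ⟨1 + (√ε)⁻¹, by positivity, ?_⟩
  intro x₀ U α f Df c M hU hRU hell hα hf hlb hc hM hsub hN
  have hD : 0 < R' - R := sub_pos.2 hRR
  have hcR := isCompact_closedBall x₀ R'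
  have hsq : 0 < √ε := Real.sqrt_pos.2 hεp
  have key : ∀ K : ℝ, (1 + (√ε)⁻¹) * (M + c) < K → ∀ᵐ x, x ∈ closedBall x₀ R → f x ≤ K := by
    intro K hK
    have i0 : 0 < (√ε)⁻¹ := inv_pos.2 hsq
    have hK0 : 0 < K := lt_of_le_of_lt (by positivity) hK
    have hcK : c ≤ K := by nlinarith [mul_nonneg i0.le hM, mul_nonneg i0.le hc]
    have hMK : M ≤ √ε * K := by
      have h1 : (√ε)⁻¹ * M ≤ K := by nlinarith [mul_nonneg i0.le hc]
      have := mul_le_mul_of_nonneg_left h1 hsq.le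
      rwa [← mul_assoc, mul_inv_cancel₀ hsq.ne', one_mul] at this
    have hr : ∀ j : ℕ, R + (R' - R) / 2 ^ j ≤ R' := fun j => by
      have : (R' - R) / 2 ^ j ≤ R' - R := div_le_self hD.le (one_le_pow₀ (by norm_num))
      linarith
    set Z : ℕ → ℝ := fun j => tdgY f x₀ (R + (R' - R) / 2 ^ j) (K - K / 2 ^ j) / K ^ 2 with hZ
    have hlim : Tendsto Z atTop (𝓝 0) := by
      refine iter_tendsto (C := C0) (b := 16) (δ := δ) hC0p (by norm_num) hδ0
        (fun j => div_nonneg (tdgY_nonneg _ _ _ _) (sq_nonneg _)) (fun j => ?_) ?_ (by norm_num)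
      · refine tdg_arith hA hG hR hRR hc hcK hK0 hδ0 hδ1 (tdgY_nonneg _ _ _ _) j ?_
        refine hstep x₀ U α f Df c R' _ _ _ _ hU hRU hell hα hf hlb hc hsub (by positivity) ?_
          (hr j) ?_
        · have : (R' - R) / 2 ^ (j + 1) < (R' - R) / 2 ^ j :=
            div_lt_div_of_pos_left hD (by positivity) (pow_lt_pow_right₀ (by norm_num) (by omega))
          linarith
        · have : K / 2 ^ (j + 1) < K / 2 ^ j :=
            div_lt_div_of_pos_left hK0 (by positivity) (pow_lt_pow_right₀ (by norm_num) (by omega))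
          linarith
      · have m0 : MemLp f 2 (volume.restrict (closedBall x₀ R')) := by
          simpa using hf.1 _ hcR hRU
        have h1 : tdgY f x₀ R' 0 ≤ ∫ x in closedBall x₀ R', ‖f x‖ ^ 2 := by
          refine integral_mono (tdg_memLp hf.1 0 hcR hRU).integrable_sq m0.norm.integrable_sq
            fun x => ?_
          have h0 : 0 ≤ max (f x - 0) 0 := le_max_right _ _
          have : max (f x - 0) 0 ≤ ‖f x‖ :=
            max_le (by rw [sub_zero]; exact le_abs_self _) (norm_nonneg _)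
          dsimp only
          gcongr
        rw [N2, tdg_norm m0, ENNReal.ofReal_le_ofReal_iff hM, Real.sqrt_le_left hM] at hN
        have h2 : M ^ 2 ≤ ε * K ^ 2 := by
          calc M ^ 2 ≤ (√ε * K) ^ 2 := by gcongr
            _ = ε * K ^ 2 := by rw [mul_pow, Real.sq_sqrt hεp.le]
        show Z 0 ≤ ε
        simp only [hZ, pow_zero, div_one, add_sub_cancel, sub_self]
        rw [div_le_iff₀ (by positivity)]
        linarith
    have hRU' : closedBall x₀ R ⊆ U := (closedBall_subset_closedBall hRR.le).trans hRU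
    have hle : ∀ j, tdgY f x₀ R K / K ^ 2 ≤ Z j := fun j => by
      refine div_le_div_of_nonneg_right ?_ (sq_nonneg _)
      have hk : K - K / 2 ^ j < K := sub_lt_self _ (by positivity)
      exact ((tdg_cheb hf.1 hk ((closedBall_subset_closedBall (hr j)).trans hRU)).2 _
        (closedBall_subset_closedBall (le_add_of_nonneg_right (by positivity)))).1
    have h0 : tdgY f x₀ R K / K ^ 2 ≤ 0 := ge_of_tendsto' hlim hle
    have h1 : tdgY f x₀ R K = 0 := by
      refine le_antisymm ?_ (tdgY_nonneg _ _ _ _)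
      rwa [div_le_iff₀ (by positivity), zero_mul] at h0
    rw [tdgY, integral_eq_zero_iff_of_nonneg (fun x => sq_nonneg _)
      (tdg_memLp hf.1 K (isCompact_closedBall _ _) hRU').integrable_sq] at h1
    have h2 := (ae_restrict_iff' measurableSet_closedBall).1 h1
    filter_upwards [h2] with x hx hx'
    have h3 : max (f x - K) 0 = 0 := by simpa using hx hx'
    linarith [le_max_left (f x - K) 0]
  have hall := ae_all_iff.2 fun n : ℕ =>
    key ((1 + (√ε)⁻¹) * (M + c) + 1 / ((n : ℝ) + 1)) (lt_add_of_pos_right _ (by positivity))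
  filter_upwards [hall] with x hx hx'
  have ht : Tendsto (fun n : ℕ => (1 + (√ε)⁻¹) * (M + c) + 1 / ((n : ℝ) + 1)) atTop
      (𝓝 ((1 + (√ε)⁻¹) * (M + c) + 0)) :=
    tendsto_const_nhds.add tendsto_one_div_add_atTop_nhds_zero_nat
  rw [add_zero] at ht
  exact ge_of_tendsto' ht fun n => hx n hx'

end Pool.Agent.PW
end
end

-- part Pool.Agent.P.MP_65ad7c_ag.Sec1
section

open MeasureTheory Set Filter Topology Metric Matrix
open scoped ComplexOrder ContDiff Matrix.Norms.Frobenius RealInnerProductSpace ENNReal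
open Pool.Agent.Lib.Sob

noncomputable section
namespace Pool.Agent.PW

/-- SEC 1: bounded weakly harmonic metrics, uniformly, with an energy bound that depends only on
the size of the representation. -/
theorem exists_hm_en {E : Type} [NormedAddCommGroup E] [InnerProductSpace ℝ E]
    [FiniteDimensional ℝ E] [MeasurableSpace E] [BorelSpace E] {Γ : Type} [Group Γ] (A : Atlas E Γ)
    (hE : 2 ≤ Module.finrank ℝ E) {r : ℕ} (hr : 0 < r) (N : ℝ) : ∃ M : ℝ, 0 ≤ M ∧
    ∀ (m : ℕ) (γs : Fin m → Γ) (β : ℝ), ∃ C : ℝ, 1 ≤ C ∧ ∀ ρ : Γ →* Mat r, Burn γs β ρ →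
      A.Sz N ρ → ∃ h D, A.HM ρ C h D ∧ ∀ a,
        ∫⁻ x in ball (0 : E) 6, ENNReal.ofReal (en (A.α a x) (h a x) (D a x)) ≤
          ENNReal.ofReal M := by
  obtain ⟨χ, hχ', hpos⟩ := A.toPre.exists_pou (R := 4) (R' := 9 / 2) (by norm_num) (by norm_num)
    (by norm_num)
  have s96 : closedBall (0 : E) (9 / 2) ⊆ ball 0 6 := closedBall_subset_ball (by norm_num)
  have s26 : closedBall (0 : E) 2 ⊆ ball 0 6 := closedBall_subset_ball (by norm_num)
  have s46 : closedBall (0 : E) 4 ⊆ ball 0 6 := closedBall_subset_ball (by norm_num)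
  have hχ : A.Pou (ball 0 6) χ := hχ'.mono s96
  have hp1 : ∀ a, ∀ x ∈ closedBall (0 : E) 1, 0 < χ a x := fun a x hx =>
    hpos a x (closedBall_subset_closedBall (by norm_num) hx)
  obtain ⟨B, hB, hBd⟩ := A.h0_bd (r := r) hχ' N
  obtain ⟨M₀, hM₀, hMe⟩ := A.energy_ref_le (r := r) hχ' hB
  obtain ⟨L, hL, hLe⟩ := A.energy_ctrl (r := r) hχ hp1
  have hLM : 0 ≤ L * M₀ := mul_nonneg hL hM₀
  refine ⟨L * M₀, hLM, fun m γs β => ?_⟩
  obtain ⟨C₂, hC₂, hco⟩ := A.coercive hr γs β hB hLM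
  obtain ⟨C₁, hC₁, hsub⟩ := A.sub_log hr hχ hB
  have hdg : ∀ a : A.ι, ∃ G : ℝ, 0 < G ∧ ∀ (f : E → ℝ) (Df : E → E →L[ℝ] ℝ),
      WD 2 (ball 0 6) f Df → LB (ball 0 6) f → SubSol (ball 0 6) (closedBall 0 2) (A.α a) Df C₁ →
      N2 (closedBall 0 2) f ≤ ENNReal.ofReal C₂ →
      ∀ᵐ x, x ∈ closedBall (0 : E) 1 → f x ≤ G * (C₂ + C₁) := by
    intro a
    obtain ⟨l, L', hl, he⟩ := (A.coef a).ell (isCompact_closedBall 0 2) s26
    obtain ⟨G, hG, h⟩ := degiorgi hE (L := L') (R := 1) (R' := 2) hl one_pos one_lt_two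
    exact ⟨G, hG, fun f Df h1 h2 h3 h4 => h 0 (ball 0 6) (A.α a) f Df C₁ C₂ isOpen_ball s26 he
      (A.coef a).1.continuousOn h1 h2 hC₁ hC₂ h3 h4⟩
  choose G hG hdg using hdg
  set C' : ℝ := Real.exp ((∑ a, G a) * (C₂ + C₁)) with hC'
  have hGs : ∀ a, G a ≤ ∑ a, G a := fun a =>
    Finset.single_le_sum (f := G) (fun a _ => (hG a).le) (Finset.mem_univ a)
  have h1C' : 1 ≤ C' := Real.one_le_exp
    (mul_nonneg (Finset.sum_nonneg fun a _ => (hG a).le) (add_nonneg hC₂ hC₁))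
  have hBC : 1 ≤ B * C' := one_le_mul_of_one_le_of_one_le hB h1C'
  have hn2 := fun a : A.ι => n2_le_of_en (r := r) (A.coef a) (isCompact_closedBall 0 4) s46 hBC
  choose L₂ hL₂ hn2 using hn2
  have hLs : ∀ a, L₂ a ≤ ∑ a, L₂ a := fun a =>
    Finset.single_le_sum (f := L₂) (fun a _ => hL₂ a) (Finset.mem_univ a)
  have hS0 : 0 ≤ (∑ a, L₂ a) * (1 + L * M₀) :=
    mul_nonneg (Finset.sum_nonneg fun a _ => hL₂ a) (by linarith)
  refine ⟨B * C' + (∑ a, L₂ a) * (1 + L * M₀), by linarith, fun ρ hb hz => ?_⟩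
  have hH := A.h0_ref hχ ρ
  have hHb := hBd ρ hz
  have hC : 1 ≤ C' * 2 := by linarith
  have hen : ∀ h D, A.IsMin χ ρ (A.h0 χ ρ) (C' * 2) h D → ∀ a,
      ∫⁻ x in ball (0 : E) 6, ENNReal.ofReal (en (A.α a x) (h a x) (D a x)) ≤
        ENNReal.ofReal (L * M₀) := fun h D hh a =>
    (hLe ρ _ _ h D hH hC hh.1 a).trans (ENNReal.ofReal_le_ofReal (mul_le_mul_of_nonneg_left
      ((hh.2 _ _ (hH.adm hC)).trans (hMe _ hHb)) hL))
  obtain ⟨h, D, hh⟩ := A.exists_min hχ hp1 hH hC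
  obtain ⟨t, t1, t2, ht⟩ := hco ρ _ _ h D hb hH hHb hC hh.1 (hen h D hh)
  have t0 : 0 < t := lt_of_lt_of_le (by positivity) t1
  have hs : ∀ a, ∀ᵐ x, x ∈ ball (0 : E) 1 → sg (h a x) (t • A.h0 χ ρ a x) ≤ C' := by
    intro a
    obtain ⟨Df, w1, w2, w3⟩ := hsub ρ _ _ h D t hH hHb hC hh t1 t2 a
    filter_upwards [hdg a _ Df w1 w2 w3 (ht a)] with x hx hx1
    have e1 := hx (ball_subset_closedBall hx1)
    have e2 : G a * (C₂ + C₁) ≤ (∑ a, G a) * (C₂ + C₁) :=
      mul_le_mul_of_nonneg_right (hGs a) (add_nonneg hC₂ hC₁)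
    exact (Real.le_exp_log _).trans (Real.exp_le_exp.2 (e1.trans e2))
  obtain ⟨h', D', hm, ho⟩ := Atlas.min_rescale hH hC hχ hh t0 h1C' (by linarith) hs
  have hbd : ∀ a, ∀ x ∈ closedBall (0 : E) 4, Bd (B * C') (h' a x) := fun a x hx =>
    Obst.trans (by linarith) (by linarith)
      (hHb a x (closedBall_subset_closedBall (by norm_num) hx)).1 (ho a x (s46 hx))
  have hl := hm.1.lbd hH hC
  refine ⟨h', D', ⟨hm.1.wd, hl, hm.1.mc, Atlas.harm_of_min hχ hH hm h1C' le_rfl ho,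
    fun a x hx => (hbd a x hx).mono (by linarith) (by linarith), fun a => ?_⟩, hen h' D' hm⟩
  have hher : ∀ᵐ x, x ∈ closedBall (0 : E) 4 → HermF (D' a x) := by
    filter_upwards [wd_herm (by norm_num) isOpen_ball (hm.1.wd a)
      fun x hx => ((hl a).posDef x hx).isHermitian] with x hx hx4 using hx (s46 hx4)
  refine (hn2 a (h' a) (D' a) (L * M₀) hLM (hbd a) hher
    ((lintegral_mono_set s46).trans (hen h' D' hm a))).trans (ENNReal.ofReal_le_ofReal ?_)
  have := mul_le_mul_of_nonneg_right (hLs a) (show 0 ≤ 1 + L * M₀ by linarith)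
  linarith

/-- SEC 1: bounded weakly harmonic metrics, uniformly. -/
theorem exists_hm {E : Type} [NormedAddCommGroup E] [InnerProductSpace ℝ E] [FiniteDimensional ℝ E]
    [MeasurableSpace E] [BorelSpace E] {Γ : Type} [Group Γ] (A : Atlas E Γ)
    (hE : 2 ≤ Module.finrank ℝ E) {r m : ℕ} (hr : 0 < r) (γs : Fin m → Γ) (β N : ℝ) :
    ∃ C : ℝ, 1 ≤ C ∧ ∀ ρ : Γ →* Mat r, Burn γs β ρ → A.Sz N ρ → ∃ h D, A.HM ρ C h D := by
  obtain ⟨M, -, h⟩ := exists_hm_en A hE hr N
  obtain ⟨C, hC, h⟩ := h m γs β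
  refine ⟨C, hC, fun ρ h1 h2 => ?_⟩
  obtain ⟨h, D, h3, -⟩ := h ρ h1 h2
  exact ⟨h, D, h3⟩

end Pool.Agent.PW
end
end

-- part Pool.Agent.P.MP_65ad7c_ag.RBase
section

/-! Definitions for sections 2 and 3. -/

open MeasureTheory Set Filter Topology Metric Matrix
open scoped ComplexOrder ContDiff Matrix.Norms.Frobenius RealInnerProductSpace ENNReal
open Pool.Agent.Lib.Sob

noncomputable section
namespace Pool.Agent.PW

section kaehler
variable {n r : ℕ} {V : Type} [NormedAddCommGroup V] [NormedSpace ℝ V] [NormedSpace ℂ V]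
  [IsScalarTower ℝ ℂ V]

/-- `β (∂_l, ∂_j)` -/
def d11 (β : EC n →L[ℝ] EC n →L[ℝ] V) (l j : Fin n) : V :=
  (2 : ℂ)⁻¹ • (d1 (β (EuclideanSpace.single l 1)) j -
    Complex.I • d1 (β (EuclideanSpace.single l Complex.I)) j)

/-- `β (∂bar_m, ∂bar_k)` -/
def d22 (β : EC n →L[ℝ] EC n →L[ℝ] V) (m k : Fin n) : V :=
  (2 : ℂ)⁻¹ • (d2 (β (EuclideanSpace.single m 1)) k +
    Complex.I • d2 (β (EuclideanSpace.single m Complex.I)) k)

/-- multiplication by a complex number as a real linear map -/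
def smulC (V : Type) [NormedAddCommGroup V] [NormedSpace ℝ V] [NormedSpace ℂ V]
    [IsScalarTower ℝ ℂ V] (c : ℂ) : V →L[ℝ] V :=
  (c • ContinuousLinearMap.id ℂ V).restrictScalars ℝ

@[simp] theorem smulC_apply (c : ℂ) (v : V) : smulC V c v = c • v := rfl

/-- `d1` as a real linear map -/
def d1L (j : Fin n) : (EC n →L[ℝ] V) →L[ℝ] V :=
  (smulC V (2 : ℂ)⁻¹).comp (ContinuousLinearMap.apply ℝ V (EuclideanSpace.single j 1) -
    (smulC V Complex.I).comp (ContinuousLinearMap.apply ℝ V (EuclideanSpace.single j Complex.I)))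

/-- `d2` as a real linear map -/
def d2L (j : Fin n) : (EC n →L[ℝ] V) →L[ℝ] V :=
  (smulC V (2 : ℂ)⁻¹).comp (ContinuousLinearMap.apply ℝ V (EuclideanSpace.single j 1) +
    (smulC V Complex.I).comp (ContinuousLinearMap.apply ℝ V (EuclideanSpace.single j Complex.I)))

@[simp] theorem d1L_apply (j : Fin n) (X : EC n →L[ℝ] V) : d1L j X = d1 X j := rfl
@[simp] theorem d2L_apply (j : Fin n) (X : EC n →L[ℝ] V) : d2L j X = d2 X j := rfl

theorem d1_d1L (β : EC n →L[ℝ] EC n →L[ℝ] V) (l j : Fin n) :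
    d1 ((d1L j).comp β) l = d11 β l j := rfl
theorem d1_d2L (β : EC n →L[ℝ] EC n →L[ℝ] V) (l k : Fin n) :
    d1 ((d2L k).comp β) l = d12 β l k := rfl
theorem d2_d1L (β : EC n →L[ℝ] EC n →L[ℝ] V) (m j : Fin n) :
    d2 ((d1L j).comp β) m = d21 β m j := rfl
theorem d2_d2L (β : EC n →L[ℝ] EC n →L[ℝ] V) (m k : Fin n) :
    d2 ((d2L k).comp β) m = d22 β m k := rfl

theorem dz_eq_d1 (j : Fin n) (f : EC n → ℂ) (z : EC n) : dz j f z = d1 (fderiv ℝ f z) j := by
  simp only [dz, d1, smul_eq_mul]; ring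

/-- flatness of a jet -/
def JFlat (A : EC n →L[ℝ] Mat r) (β : EC n →L[ℝ] EC n →L[ℝ] Mat r) : Prop :=
  ∀ v w, β v w - β w v = -cm (A v) (A w)

/-- antisymmetry of a coefficient tensor -/
def Anti (G : Fin n → Fin n → Fin n → Fin n → ℂ) : Prop :=
  (∀ j k l m, G l k j m = -G j k l m) ∧ ∀ j k l m, G j m l k = -G j k l m

theorem anti_kG (g : Mat n) : Anti (kG g) :=
  ⟨fun j k l m => by simp only [kG]; ring, fun j k l m => by simp only [kG]; ring⟩

/-- the integrand of the Siu-Sampson formula as a null Lagrangian -/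
def SF2 (G : Fin n → Fin n → Fin n → Fin n → ℂ) (β : EC n →L[ℝ] EC n →L[ℝ] Mat r) : ℂ :=
  ∑ j, ∑ k, ∑ l, ∑ m, G j k l m * ((d21 β m j * d12 β l k).trace - (d11 β l j * d22 β m k).trace)

/-- pointwise form of pluriharmonicity -/
def PH2 (β : EC n →L[ℝ] EC n →L[ℝ] Mat r) : Prop :=
  ∀ v w, β v (Complex.I • w) = β w (Complex.I • v)

end kaehler

section loc
variable {E : Type} [NormedAddCommGroup E] [InnerProductSpace ℝ E] [FiniteDimensional ℝ E]
  [MeasurableSpace E] [BorelSpace E] {r : ℕ}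

/-- complex test functions -/
def IsTestC (U : Set E) (ψ : E → ℂ) : Prop :=
  ContDiff ℝ ∞ ψ ∧ HasCompactSupport ψ ∧ tsupport ψ ⊆ U

/-- a locally bounded weakly harmonic metric on an open set -/
structure LH (U : Set E) (α : E → E →L[ℝ] E) (h : E → Mat r) (D : E → E →L[ℝ] Mat r) : Prop where
  wd : WD 2 U h D
  lbd : LBd U h
  harm : Harm U α fun x => mc (h x) (D x)

/-- divergence free coefficients -/
def DivFree (U : Set E) (α : E → E →L[ℝ] E) : Prop :=
  ∀ x ∈ U, ∀ v, ∑ q, ⟪ob E q, fderiv ℝ α x (ob E q) v⟫ = 0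

end loc

end Pool.Agent.PW
end
end

-- part Pool.Agent.P.MP_65ad7c_ag.RCof
section

open MeasureTheory Set Filter Topology Metric Matrix
open scoped ComplexOrder ContDiff Matrix.Norms.Frobenius RealInnerProductSpace ENNReal
open Pool.Agent.Lib.Sob

noncomputable section
namespace Pool.Agent.PW

variable {n : ℕ} {U : Set (EC n)} {g : EC n → Mat n}

theorem cof_det_smooth {M : EC n → Mat n} (h : ∀ j k, ContDiffOn ℝ ∞ (fun z => M z j k) U) :
    ContDiffOn ℝ ∞ (fun z => (M z).det) U := by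
  simp only [Matrix.det_apply']
  exact ContDiffOn.sum fun σ _ => contDiffOn_const.mul (contDiffOn_prod fun i _ => h _ _)

theorem cof_det_ne (hg : IsKahlerOn U g) {x : EC n} (hx : x ∈ U) : (g x).det ≠ 0 :=
  ((Matrix.isUnit_iff_isUnit_det _).1 (hg.2.1 x hx).isUnit).ne_zero

theorem cof_kW_eq (M : Mat n) (j k : Fin n) : kW M j k = M.det⁻¹ * M.adjugate k j := by
  rw [kW, ← Matrix.transpose_nonsing_inv, Matrix.transpose_apply, Matrix.inv_def,
    Ring.inverse_eq_inv', Matrix.smul_apply, smul_eq_mul]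

theorem kW_contDiffOn (hg : IsKahlerOn U g) (j k : Fin n) :
    ContDiffOn ℝ ∞ (fun x => kW (g x) j k) U := by
  simp only [cof_kW_eq, Matrix.adjugate_apply]
  refine ((cof_det_smooth hg.1).inv fun x hx => cof_det_ne hg hx).mul (cof_det_smooth ?_)
  intro p q
  simp only [Matrix.updateRow_apply]
  split_ifs
  · exact contDiffOn_const
  · exact hg.1 p q

theorem kH_contDiffOn (hg : IsKahlerOn U g) (j k : Fin n) :
    ContDiffOn ℝ ∞ (fun x => kH (g x) j k) U := by
  exact (cof_det_smooth hg.1).mul (kW_contDiffOn hg j k)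

theorem kG_contDiffOn (hg : IsKahlerOn U g) (j k l m : Fin n) :
    ContDiffOn ℝ ∞ (fun x => kG (g x) j k l m) U := by
  exact (cof_det_smooth hg.1).mul (((kW_contDiffOn hg j k).mul (kW_contDiffOn hg l m)).sub
    ((kW_contDiffOn hg j m).mul (kW_contDiffOn hg l k)))

theorem cof_has (hU : IsOpen U) {f : EC n → ℂ} (hf : ContDiffOn ℝ ∞ f U) {x : EC n}
    (hx : x ∈ U) : HasFDerivAt f (fderiv ℝ f x) x :=
  ((hf.contDiffAt (hU.mem_nhds hx)).differentiableAt (by simp)).hasFDerivAt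

theorem cof_jacobi (A B : Mat n) :
    ∑ σ : Equiv.Perm (Fin n), ((Equiv.Perm.sign σ : ℤ) : ℂ) *
      ∑ i, (∏ j ∈ Finset.univ.erase i, A (σ j) j) * B (σ i) i =
    ∑ p, ∑ q, A.adjugate q p * B p q := by
  simp only [Finset.mul_sum]
  rw [Finset.sum_comm, Finset.sum_comm (f := fun p q => A.adjugate q p * B p q)]
  refine Finset.sum_congr rfl fun i _ => ?_
  have h1 : (A.updateCol i fun p => B p i).det = ∑ p, A.adjugate i p * B p i := by
    rw [← Matrix.cramer_apply, Matrix.cramer_eq_adjugate_mulVec]; rfl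
  rw [← h1, Matrix.det_apply']
  refine Finset.sum_congr rfl fun σ _ => ?_
  rw [← Finset.mul_prod_erase _ _ (Finset.mem_univ i), Matrix.updateCol_self, mul_comm (B _ _)]
  congr 2
  exact Finset.prod_congr rfl fun j hj => (Matrix.updateCol_ne (Finset.ne_of_mem_erase hj)).symm

theorem cof_det_has (hU : IsOpen U) (hg : IsKahlerOn U g) {x : EC n} (hx : x ∈ U) :
    HasFDerivAt (fun y => (g y).det)
      (∑ p, ∑ q, ((g x).det * kW (g x) p q) • fderiv ℝ (fun y => g y p q) x) x := by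
  have h1 := HasFDerivAt.fun_sum (u := Finset.univ) fun (σ : Equiv.Perm (Fin n)) _ =>
    (HasFDerivAt.finsetProd (u := Finset.univ) fun i _ =>
      cof_has hU (hg.1 (σ i) i) hx).const_mul ((Equiv.Perm.sign σ : ℤ) : ℂ)
  simp only [Matrix.det_apply' (g _)] at h1 ⊢
  simp only [← Matrix.det_apply' (g x)]
  refine h1.congr_fderiv (ContinuousLinearMap.ext fun v => ?_)
  have h2 := cof_jacobi (g x) (Matrix.of fun p q => fderiv ℝ (fun y => g y p q) x v)
  simp only [Matrix.of_apply] at h2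
  simp only [_root_.sum_apply, _root_.smul_apply, smul_eq_mul, h2,
    cof_kW_eq, mul_inv_cancel_left₀ (cof_det_ne hg hx)]

theorem cof_kW_has (hU : IsOpen U) (hg : IsKahlerOn U g) {x : EC n} (hx : x ∈ U) (j k : Fin n) :
    HasFDerivAt (fun y => kW (g y) j k)
      (-∑ p, ∑ q, (kW (g x) j q * kW (g x) p k) • fderiv ℝ (fun y => g y p q) x) x := by
  have hu : ∀ y ∈ U, IsUnit (g y)ᵀ.det := fun y hy => by
    rw [Matrix.det_transpose]; exact (cof_det_ne hg hy).isUnit
  refine (cof_has hU (kW_contDiffOn hg j k) hx).congr_fderiv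
    (ContinuousLinearMap.ext fun v => ?_)
  set B : Mat n := Matrix.of fun p q => fderiv ℝ (fun y => g y p q) x v with hB
  set W' : Mat n := Matrix.of fun p q => fderiv ℝ (fun y => kW (g y) p q) x v with hW
  have h1 : kW (g x) * Bᵀ + W' * (g x)ᵀ = 0 := by
    ext a b
    have h2 := HasFDerivAt.fun_sum (u := Finset.univ) fun c _ =>
      (cof_has hU (kW_contDiffOn hg a c) hx).fun_mul (cof_has hU (hg.1 b c) hx)
    have h3 : HasFDerivAt (fun y => ∑ c, kW (g y) a c * g y b c) (0 : EC n →L[ℝ] ℂ) x := by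
      refine (hasFDerivAt_const ((1 : Mat n) a b) x).congr_of_eventuallyEq ?_
      filter_upwards [hU.mem_nhds hx] with y hy
      rw [← Matrix.nonsing_inv_mul _ (hu y hy)]
      rfl
    have h4 := congrArg (fun L : EC n →L[ℝ] ℂ => L v) (h2.unique h3)
    simp only [_root_.sum_apply, _root_.add_apply,
      _root_.smul_apply, smul_eq_mul, _root_.zero_apply,
      Finset.sum_add_distrib] at h4
    simp only [Matrix.add_apply, Matrix.mul_apply, Matrix.transpose_apply, hB, hW,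
      Matrix.of_apply, Matrix.zero_apply, mul_comm _ (g x b _)]
    exact h4
  have h5 : W' = -(kW (g x) * Bᵀ * kW (g x)) := by
    have h6 : (g x)ᵀ * kW (g x) = 1 := Matrix.mul_nonsing_inv _ (hu x hx)
    rw [← neg_mul, neg_eq_of_add_eq_zero_right h1, mul_assoc, h6, mul_one]
  have h7 := congrFun (congrFun h5 j) k
  simp only [hW, hB, Matrix.of_apply, Matrix.neg_apply, Matrix.mul_apply, Matrix.transpose_apply,
    Finset.sum_mul] at h7
  simp only [h7, _root_.neg_apply, _root_.sum_apply,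
    _root_.smul_apply, smul_eq_mul, neg_inj]
  exact Finset.sum_congr rfl fun p _ => Finset.sum_congr rfl fun q _ => by ring

/-- `d1` as a complex linear functional -/
def cofD1 (j : Fin n) : (EC n →L[ℝ] ℂ) →ₗ[ℂ] ℂ where
  toFun X := d1 X j
  map_add' X Y := by simp only [d1, _root_.add_apply, smul_eq_mul]; ring
  map_smul' c X := by
    simp only [d1, _root_.smul_apply, smul_eq_mul, RingHom.id_apply]; ring

/-- `d2` as a complex linear functional -/
def cofD2 (j : Fin n) : (EC n →L[ℝ] ℂ) →ₗ[ℂ] ℂ where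
  toFun X := d2 X j
  map_add' X Y := by simp only [d2, _root_.add_apply, smul_eq_mul]; ring
  map_smul' c X := by
    simp only [d2, _root_.smul_apply, smul_eq_mul, RingHom.id_apply]; ring

theorem cof_kH (hU : IsOpen U) (hg : IsKahlerOn U g) {x : EC n} (hx : x ∈ U)
    (δ : (EC n →L[ℝ] ℂ) →ₗ[ℂ] ℂ) (j k : Fin n) :
    δ (fderiv ℝ (fun y => kH (g y) j k) x) = ∑ p, ∑ q, δ (fderiv ℝ (fun y => g y p q) x) *
      ((g x).det * (kW (g x) j k * kW (g x) p q - kW (g x) j q * kW (g x) p k)) := by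
  have h := ((cof_det_has hU hg hx).fun_mul (cof_kW_has hU hg hx j k)).fderiv
  change δ (fderiv ℝ (fun y => (g y).det * kW (g y) j k) x) = _
  rw [h]
  simp only [map_add, map_smul, map_neg, map_sum, smul_eq_mul, mul_neg, Finset.mul_sum,
    ← Finset.sum_neg_distrib, ← Finset.sum_add_distrib]
  exact Finset.sum_congr rfl fun p _ => Finset.sum_congr rfl fun q _ => by ring

theorem cof_kG (hU : IsOpen U) (hg : IsKahlerOn U g) {x : EC n} (hx : x ∈ U)
    (δ : (EC n →L[ℝ] ℂ) →ₗ[ℂ] ℂ) (j k l m : Fin n) :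
    δ (fderiv ℝ (fun y => kG (g y) j k l m) x) = ∑ p, ∑ q, δ (fderiv ℝ (fun y => g y p q) x) *
      ((g x).det * (kW (g x) p q * (kW (g x) j k * kW (g x) l m - kW (g x) j m * kW (g x) l k) -
        kW (g x) j q * kW (g x) p k * kW (g x) l m - kW (g x) j k * kW (g x) l q * kW (g x) p m +
        kW (g x) j q * kW (g x) p m * kW (g x) l k +
        kW (g x) j m * kW (g x) l q * kW (g x) p k)) := by
  have h := ((cof_det_has hU hg hx).fun_mul
    (((cof_kW_has hU hg hx j k).fun_mul (cof_kW_has hU hg hx l m)).fun_sub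
      ((cof_kW_has hU hg hx j m).fun_mul (cof_kW_has hU hg hx l k)))).fderiv
  change δ (fderiv ℝ (fun y => (g y).det *
    (kW (g y) j k * kW (g y) l m - kW (g y) j m * kW (g y) l k)) x) = _
  rw [h]
  simp only [map_add, map_sub, map_smul, map_neg, map_sum, smul_eq_mul, mul_neg, Finset.mul_sum,
    ← Finset.sum_neg_distrib, ← Finset.sum_add_distrib, ← Finset.sum_sub_distrib]
  exact Finset.sum_congr rfl fun p _ => Finset.sum_congr rfl fun q _ => by ring

theorem cof_anti {S B : Fin n → Fin n → Fin n → ℂ} (hS : ∀ l p q, S l p q = S p l q)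
    (hB : ∀ l p q, B p l q = -B l p q) : ∑ l, ∑ p, ∑ q, S l p q * B l p q = 0 := by
  have h : ∑ l, ∑ p, ∑ q, S l p q * B l p q = -∑ l, ∑ p, ∑ q, S l p q * B l p q := by
    conv_lhs => rw [Finset.sum_comm]
    simp only [← Finset.sum_neg_distrib]
    exact Finset.sum_congr rfl fun l _ => Finset.sum_congr rfl fun p _ =>
      Finset.sum_congr rfl fun q _ => by rw [hS p l q, hB l p q, mul_neg]
  linear_combination h / 2

theorem cof_symm1 (hg : IsKahlerOn U g) {x : EC n} (hx : x ∈ U) (l p q : Fin n) :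
    cofD1 l (fderiv ℝ (fun y => g y p q) x) = cofD1 p (fderiv ℝ (fun y => g y l q) x) := by
  have := hg.2.2 x hx p q l
  rwa [dz_eq_d1, dz_eq_d1] at this

theorem cof_conj (hU : IsOpen U) (hg : IsKahlerOn U g) {x : EC n} (hx : x ∈ U) (m p q : Fin n) :
    cofD2 m (fderiv ℝ (fun y => g y p q) x) =
      (starRingEnd ℂ) (cofD1 m (fderiv ℝ (fun y => g y q p) x)) := by
  have h1 := (Complex.conjCLE : ℂ →L[ℝ] ℂ).hasFDerivAt.comp x (cof_has hU (hg.1 q p) hx)
  have h2 : (fun y => g y p q) =ᶠ[𝓝 x] (Complex.conjCLE : ℂ →L[ℝ] ℂ) ∘ fun y => g y q p := by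
    filter_upwards [hU.mem_nhds hx] with y hy
    exact ((hg.2.1 y hy).isHermitian.apply p q).symm
  rw [(h1.congr_of_eventuallyEq h2).fderiv]
  change d2 _ m = (starRingEnd ℂ) (d1 _ m)
  simp [d1, d2, map_ofNat]

theorem cof_symm2 (hU : IsOpen U) (hg : IsKahlerOn U g) {x : EC n} (hx : x ∈ U) (m p q : Fin n) :
    cofD2 m (fderiv ℝ (fun y => g y p q) x) = cofD2 q (fderiv ℝ (fun y => g y p m) x) := by
  rw [cof_conj hU hg hx, cof_conj hU hg hx, cof_symm1 hg hx]

/-- the first cofactor is divergence free -/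
theorem kH_div (hU : IsOpen U) (hg : IsKahlerOn U g) {x : EC n} (hx : x ∈ U) (k : Fin n) :
    ∑ j, d1 (fderiv ℝ (fun y => kH (g y) j k) x) j = 0 := by
  have h : ∀ j, d1 (fderiv ℝ (fun y => kH (g y) j k) x) j = _ := fun j =>
    cof_kH hU hg hx (cofD1 j) j k
  simp only [h]
  exact cof_anti (S := fun l p q => cofD1 l (fderiv ℝ (fun y => g y p q) x)) (cof_symm1 hg hx)
    fun l p q => by ring

/-- the second cofactor is divergence free in the third slot -/
theorem kG_div1 (hU : IsOpen U) (hg : IsKahlerOn U g) {x : EC n} (hx : x ∈ U) (j k m : Fin n) :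
    ∑ l, d1 (fderiv ℝ (fun y => kG (g y) j k l m) x) l = 0 := by
  have h : ∀ l, d1 (fderiv ℝ (fun y => kG (g y) j k l m) x) l = _ := fun l =>
    cof_kG hU hg hx (cofD1 l) j k l m
  simp only [h]
  exact cof_anti (S := fun l p q => cofD1 l (fderiv ℝ (fun y => g y p q) x)) (cof_symm1 hg hx)
    fun l p q => by ring

/-- the second cofactor is divergence free in the fourth slot -/
theorem kG_div2 (hU : IsOpen U) (hg : IsKahlerOn U g) {x : EC n} (hx : x ∈ U) (j k l : Fin n) :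
    ∑ m, d2 (fderiv ℝ (fun y => kG (g y) j k l m) x) m = 0 := by
  have h : ∀ m, d2 (fderiv ℝ (fun y => kG (g y) j k l m) x) m = _ := fun m =>
    (cof_kG hU hg hx (cofD2 m) j k l m).trans Finset.sum_comm
  simp only [h]
  exact cof_anti (S := fun m q p => cofD2 m (fderiv ℝ (fun y => g y p q) x))
    (fun m q p => cof_symm2 hU hg hx m p q) fun m q p => by ring

end Pool.Agent.PW
end
end

-- part Pool.Agent.P.MP_65ad7c_ag.RInv
section

open MeasureTheory Set Filter Topology Metric Matrix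
open scoped ComplexOrder ContDiff Matrix.Norms.Frobenius RealInnerProductSpace ENNReal
open Pool.Agent.Lib.Sob

noncomputable section
namespace Pool.Agent.PW

variable {n r : ℕ}

section aux
variable {V : Type} [NormedAddCommGroup V] [NormedSpace ℝ V] [NormedSpace ℂ V] [IsScalarTower ℝ ℂ V]

theorem rinv_single (j : Fin n) :
    (EuclideanSpace.single j Complex.I : EC n) = Complex.I • EuclideanSpace.single j (1 : ℂ) := by
  ext p
  by_cases h : p = j <;> simp [h]

theorem rinv_exp (X : EC n →L[ℝ] V) (v : EC n) :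
    X v = ∑ p, (v p • d1 X p + (starRingEnd ℂ) (v p) • d2 X p) := by
  have e : v = ∑ p, ((v p).re • (EuclideanSpace.single p (1 : ℂ) : EC n) +
      (v p).im • (EuclideanSpace.single p Complex.I : EC n)) := by
    ext q
    simp [Finset.sum_apply, Finset.sum_add_distrib, Pi.single_apply]
  conv_lhs => rw [e]
  rw [map_sum]
  refine Finset.sum_congr rfl fun p _ => ?_
  rw [map_add, map_smul, map_smul, ← algebraMap_smul ℂ (v p).re, ← algebraMap_smul ℂ (v p).im]
  simp only [d1, d2, Complex.coe_algebraMap]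
  have h1 : ((v p).re : ℂ) = (v p + (starRingEnd ℂ) (v p)) / 2 := Complex.re_eq_add_conj _
  have h2 : ((v p).im : ℂ) = -Complex.I * (v p - (starRingEnd ℂ) (v p)) / 2 := by
    rw [Complex.sub_conj]
    push_cast
    linear_combination ((v p).im : ℂ) * Complex.I_mul_I
  rw [h1, h2]
  match_scalars <;> ring

theorem rinv_hol (X : EC n →L[ℝ] V) (w : EC n) :
    (2 : ℂ)⁻¹ • (X w - Complex.I • X (Complex.I • w)) = ∑ p, w p • d1 X p := by
  rw [rinv_exp X w, rinv_exp X (Complex.I • w), Finset.smul_sum, ← Finset.sum_sub_distrib,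
    Finset.smul_sum]
  refine Finset.sum_congr rfl fun p _ => ?_
  simp only [PiLp.smul_apply, smul_eq_mul, map_mul, Complex.conj_I]
  match_scalars
  · linear_combination (-(w p) / 2) * Complex.I_mul_I
  · linear_combination ((starRingEnd ℂ) (w p) / 2) * Complex.I_mul_I

theorem rinv_anti (X : EC n →L[ℝ] V) (w : EC n) :
    (2 : ℂ)⁻¹ • (X w + Complex.I • X (Complex.I • w)) = ∑ p, (starRingEnd ℂ) (w p) • d2 X p := by
  rw [rinv_exp X w, rinv_exp X (Complex.I • w), Finset.smul_sum, ← Finset.sum_add_distrib,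
    Finset.smul_sum]
  refine Finset.sum_congr rfl fun p _ => ?_
  simp only [PiLp.smul_apply, smul_eq_mul, map_mul, Complex.conj_I]
  match_scalars
  · linear_combination ((w p) / 2) * Complex.I_mul_I
  · linear_combination (-(starRingEnd ℂ) (w p) / 2) * Complex.I_mul_I

end aux

theorem rinv_tr (x y : Fin n → ℂ) (a b : Fin n → Mat r) :
    ((∑ p, x p • a p) * ∑ q, y q • b q).trace = ∑ p, ∑ q, x p * y q * (a p * b q).trace := by
  rw [Finset.sum_mul_sum, trace_sum]
  refine Finset.sum_congr rfl fun p _ => ?_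
  rw [trace_sum]
  refine Finset.sum_congr rfl fun q _ => ?_
  rw [smul_mul_smul_comm, trace_smul, smul_eq_mul]

theorem rinv_cm (x y : Fin n → ℂ) (a b : Fin n → Mat r) :
    cm (∑ p, x p • a p) (∑ q, y q • b q) = ∑ q, ∑ p, (y q * x p) • cm (a p) (b q) := by
  unfold cm
  rw [Finset.sum_mul_sum, Finset.sum_comm, Finset.sum_mul_sum, ← Finset.sum_sub_distrib]
  refine Finset.sum_congr rfl fun q _ => ?_
  rw [← Finset.sum_sub_distrib]
  refine Finset.sum_congr rfl fun p _ => ?_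
  rw [smul_mul_smul_comm, smul_mul_smul_comm, mul_comm (x p), smul_sub]

theorem rinv_multi (x y z w p1 p2 : Fin n → ℂ) (Q : Fin n → Fin n → ℂ) (a b : Fin n → Mat r) :
    (∑ s, ∑ t, z s * w t * Q s t) * ((∑ p, x p • a p) * ∑ q, y q • b q).trace -
      2⁻¹ * (∑ s, z s * p1 s) *
        ((∑ p, x p • a p) * cm (∑ t, w t • b t) (∑ q, y q • b q)).trace -
      2⁻¹ * (∑ t, w t * p2 t) *
        (cm (∑ s, z s • a s) (∑ p, x p • a p) * ∑ q, y q • b q).trace =
    ∑ p, ∑ q, ∑ s, ∑ t, x p * y q * z s * w t * (Q s t * (a p * b q).trace -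
      2⁻¹ * p1 s * (a p * cm (b t) (b q)).trace - 2⁻¹ * p2 t * (cm (a s) (a p) * b q).trace) := by
  have h1 : (∑ s, ∑ t, z s * w t * Q s t) * ((∑ p, x p • a p) * ∑ q, y q • b q).trace =
      ∑ p, ∑ q, ∑ s, ∑ t, x p * y q * z s * w t * (Q s t * (a p * b q).trace) := by
    rw [rinv_tr, Finset.mul_sum]
    refine Finset.sum_congr rfl fun p _ => ?_
    rw [Finset.mul_sum]
    refine Finset.sum_congr rfl fun q _ => ?_
    rw [Finset.sum_mul]
    refine Finset.sum_congr rfl fun s _ => ?_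
    rw [Finset.sum_mul]
    exact Finset.sum_congr rfl fun t _ => by ring
  have h2 : 2⁻¹ * (∑ s, z s * p1 s) *
      ((∑ p, x p • a p) * cm (∑ t, w t • b t) (∑ q, y q • b q)).trace =
      ∑ p, ∑ q, ∑ s, ∑ t, x p * y q * z s * w t * (2⁻¹ * p1 s * (a p * cm (b t) (b q)).trace) := by
    rw [rinv_cm, Finset.sum_mul_sum, trace_sum, Finset.mul_sum]
    refine Finset.sum_congr rfl fun p _ => ?_
    rw [trace_sum, Finset.mul_sum]
    refine Finset.sum_congr rfl fun q _ => ?_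
    rw [Finset.mul_sum _ _ (x p • a p), trace_sum, Finset.mul_sum _ _ (2⁻¹ : ℂ), Finset.sum_mul_sum]
    refine Finset.sum_congr rfl fun s _ => Finset.sum_congr rfl fun t _ => ?_
    rw [smul_mul_smul_comm, trace_smul, smul_eq_mul]
    ring
  have h3 : 2⁻¹ * (∑ t, w t * p2 t) *
      (cm (∑ s, z s • a s) (∑ p, x p • a p) * ∑ q, y q • b q).trace =
      ∑ p, ∑ q, ∑ s, ∑ t, x p * y q * z s * w t * (2⁻¹ * p2 t * (cm (a s) (a p) * b q).trace) := by
    rw [rinv_cm, Finset.sum_mul_sum, trace_sum, Finset.mul_sum]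
    refine Finset.sum_congr rfl fun p _ => ?_
    rw [trace_sum, Finset.mul_sum]
    refine Finset.sum_congr rfl fun q _ => ?_
    rw [Finset.sum_mul _ _ (y q • b q), trace_sum, Finset.mul_sum]
    refine Finset.sum_congr rfl fun s _ => ?_
    rw [Finset.mul_sum _ _ (2⁻¹ : ℂ), Finset.sum_mul]
    refine Finset.sum_congr rfl fun t _ => ?_
    rw [smul_mul_smul_comm, trace_smul, smul_eq_mul]
    ring
  rw [h1, h2, h3]
  simp only [← Finset.sum_sub_distrib, mul_sub]

theorem rinv_swap (f : Fin n → Fin n → Fin n → Fin n → Fin n → Fin n → Fin n → Fin n → ℂ) :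
    ∑ j, ∑ k, ∑ l, ∑ m, ∑ p, ∑ q, ∑ s, ∑ t, f j k l m p q s t =
      ∑ p, ∑ q, ∑ s, ∑ t, ∑ j, ∑ k, ∑ l, ∑ m, f j k l m p q s t := by
  have h : ∀ g : Fin n → Fin n → Fin n → Fin n → ℂ, ∑ j, ∑ k, ∑ l, ∑ m, g j k l m =
      ∑ x : Fin n × Fin n × Fin n × Fin n, g x.1 x.2.1 x.2.2.1 x.2.2.2 := fun g => by
    simp only [Fintype.sum_prod_type]
  rw [h, h fun p q s t => ∑ j, ∑ k, ∑ l, ∑ m, f j k l m p q s t]
  rw [Finset.sum_congr rfl fun x _ => h _, Finset.sum_comm]
  exact Finset.sum_congr rfl fun y _ => (h fun j k l m => f j k l m y.1 y.2.1 y.2.2.1 y.2.2.2).symm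

theorem rinv_contr {M N Wa Wb : Fin n → Fin n → ℂ}
    (hW : ∀ p q, ∑ j, ∑ k, M p j * Wa j k * N q k = Wb p q) (d : ℂ)
    (T : Fin n → Fin n → Fin n → Fin n → ℂ) :
    ∑ j, ∑ k, ∑ l, ∑ m, d * (Wa j k * Wa l m - Wa j m * Wa l k) *
        ∑ p, ∑ q, ∑ s, ∑ t, M p j * N q k * M s l * N t m * T p q s t =
      ∑ p, ∑ q, ∑ s, ∑ t, d * (Wb p q * Wb s t - Wb p t * Wb s q) * T p q s t := by
  simp only [Finset.mul_sum]
  rw [rinv_swap]
  refine Finset.sum_congr rfl fun p _ => Finset.sum_congr rfl fun q _ =>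
    Finset.sum_congr rfl fun s _ => Finset.sum_congr rfl fun t _ => ?_
  have h1 : Wb p q * Wb s t = ∑ j, ∑ k, ∑ l, ∑ m,
      M p j * Wa j k * N q k * (M s l * Wa l m * N t m) := by
    rw [← hW, ← hW, Finset.sum_mul]
    refine Finset.sum_congr rfl fun j _ => ?_
    rw [Finset.sum_mul]
    refine Finset.sum_congr rfl fun k _ => ?_
    simp only [Finset.mul_sum]
  have h2 : Wb p t * Wb s q = ∑ j, ∑ k, ∑ l, ∑ m,
      M p j * Wa j m * N t m * (M s l * Wa l k * N q k) := by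
    rw [← hW, ← hW, Finset.sum_mul]
    refine Finset.sum_congr rfl fun j _ => ?_
    rw [Finset.sum_comm (f := fun l k => M s l * Wa l k * N q k), Finset.mul_sum]
    refine Finset.sum_congr rfl fun k _ => ?_
    rw [Finset.mul_sum]
    refine Finset.sum_congr rfl fun l _ => ?_
    rw [Finset.sum_mul]
  rw [h1, h2]
  simp only [← Finset.sum_sub_distrib, Finset.mul_sum, Finset.sum_mul]
  exact Finset.sum_congr rfl fun j _ => Finset.sum_congr rfl fun k _ =>
    Finset.sum_congr rfl fun l _ => Finset.sum_congr rfl fun m _ => by ring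

theorem rinv_det (J : EC n →L[ℂ] EC n) : (J.restrictScalars ℝ).det =
    Complex.normSq (Matrix.of fun p j => J (EuclideanSpace.single j 1) p).det := by
  have e : (J.restrictScalars ℝ).det =
      LinearMap.det ((J : EC n →ₗ[ℂ] EC n).restrictScalars ℝ) := rfl
  rw [e, LinearMap.det_restrictScalars, Algebra.norm_complex_apply,
    ← LinearMap.det_toMatrix (EuclideanSpace.basisFun (Fin n) ℂ).toBasis]
  congr 2

theorem rinv_conj {τ τ' : Mat r} (hτ : τ' * τ = 1) (x y : Mat r) :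
    τ * x * τ' * (τ * y * τ') = τ * (x * y) * τ' := by
  calc τ * x * τ' * (τ * y * τ') = τ * x * (τ' * τ) * y * τ' := by simp only [Matrix.mul_assoc]
    _ = _ := by rw [hτ]; simp only [Matrix.mul_one, Matrix.mul_assoc]

theorem rinv_conj_tr {τ τ' : Mat r} (hτ : τ' * τ = 1) (x : Mat r) :
    (τ * x * τ').trace = x.trace := by
  rw [trace_mul_comm, ← Matrix.mul_assoc, hτ, Matrix.one_mul]

theorem rinv_conj_cm {τ τ' : Mat r} (hτ : τ' * τ = 1) (x y : Mat r) :
    cm (τ * x * τ') (τ * y * τ') = τ * cm x y * τ' := by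
  unfold cm
  rw [rinv_conj hτ, rinv_conj hτ, Matrix.mul_sub, Matrix.sub_mul]

/-- invariance of the boundary integrand under a holomorphic change of coordinates with
derivative `J`, second derivative `S`, and a constant gauge transformation -/
theorem SP_inv (J : EC n →L[ℂ] EC n) {ga gb : Mat n} (hga : ga.PosDef) (hgb : gb.PosDef)
    (hg : ∀ u v, herm ga u v = herm gb (J u) (J v)) {τ τ' : Mat r} (hτ : τ' * τ = 1)
    {Aa Ab : EC n →L[ℝ] Mat r} (hA : ∀ v, Aa v = τ * Ab (J v) * τ') {pa pb : EC n →L[ℝ] ℝ}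
    (hp : ∀ v, pa v = pb (J v)) {qa qb : EC n →L[ℝ] EC n →L[ℝ] ℝ}
    {S : EC n →L[ℝ] EC n →L[ℝ] EC n} (hS : ∀ v w, S (Complex.I • v) w = Complex.I • S v w)
    (hS' : ∀ v w, S v (Complex.I • w) = Complex.I • S v w)
    (hq : ∀ v w, qa v w = qb (J v) (J w) + pb (S v w)) :
    SP (kG ga) Aa pa qa = ((|(J.restrictScalars ℝ).det| : ℝ) : ℂ) * SP (kG gb) Ab pb qb := by
  set M : Mat n := Matrix.of fun p j => J (EuclideanSpace.single j 1) p with hM
  have hMa : ∀ p j, J (EuclideanSpace.single j 1) p = M p j := fun _ _ => rfl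
  have hg1 : gaᵀ = Mᴴ * gbᵀ * M := by
    ext k j
    have := hg (EuclideanSpace.single j 1) (EuclideanSpace.single k 1)
    simp only [herm, hMa] at this
    rw [transpose_apply, show ga j k = _ from Eq.trans (by simp) this]
    simp only [Matrix.mul_apply, conjTranspose_apply, transpose_apply, Finset.sum_mul]
    exact Finset.sum_congr rfl fun p _ => Finset.sum_congr rfl fun q _ => by
      rw [Complex.star_def]; ring
  have hdet : ga.det = (Complex.normSq M.det : ℂ) * gb.det := by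
    rw [← det_transpose ga, hg1, det_mul, det_mul, det_conjTranspose, det_transpose,
      Complex.normSq_eq_conj_mul_self, Complex.star_def]
    ring
  have hMu : IsUnit M.det := by
    refine isUnit_iff_ne_zero.2 fun h => hga.det_pos.ne' ?_
    rw [hdet, h]; simp
  have hMu' : IsUnit Mᴴ.det := by
    rw [det_conjTranspose]; exact hMu.star
  have hW : M * kW ga * Mᴴ = kW gb := by
    unfold kW
    rw [hg1, Matrix.mul_inv_rev, Matrix.mul_inv_rev, ← Matrix.mul_assoc, mul_nonsing_inv _ hMu,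
      Matrix.one_mul, Matrix.mul_assoc, nonsing_inv_mul _ hMu', Matrix.mul_one]
  have hW' : ∀ p q, ∑ j, ∑ k, M p j * kW ga j k * (starRingEnd ℂ) (M q k) = kW gb p q := by
    intro p q
    rw [← hW, Finset.sum_comm]
    simp only [Matrix.mul_apply, conjTranspose_apply, Finset.sum_mul, Complex.star_def]
  have ha : ∀ j, d1 Aa j = τ * (∑ p, M p j • d1 Ab p) * τ' := by
    intro j
    simp only [← hMa, ← rinv_hol]
    rw [d1, rinv_single, hA, hA, map_smul]
    simp only [Matrix.mul_smul, Matrix.smul_mul, Matrix.mul_sub, Matrix.sub_mul]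
  have hb : ∀ k, d2 Aa k = τ * (∑ q, (starRingEnd ℂ) (M q k) • d2 Ab q) * τ' := by
    intro k
    simp only [← hMa, ← rinv_anti]
    rw [d2, rinv_single, hA, hA, map_smul]
    simp only [Matrix.mul_smul, Matrix.smul_mul, Matrix.mul_add, Matrix.add_mul]
  have hp1 : ∀ l, d1 (cx pa) l = ∑ s, M s l * d1 (cx pb) s := by
    intro l
    simp only [← hMa, ← smul_eq_mul, ← rinv_hol]
    rw [d1, rinv_single]
    simp only [cx, ContinuousLinearMap.comp_apply, hp, map_smul]
  have hp2 : ∀ m, d2 (cx pa) m = ∑ t, (starRingEnd ℂ) (M t m) * d2 (cx pb) t := by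
    intro m
    simp only [← hMa, ← smul_eq_mul, ← rinv_anti]
    rw [d2, rinv_single]
    simp only [cx, ContinuousLinearMap.comp_apply, hp, map_smul]
  have hq1 : ∀ v m, d2 (cx2 qa v) m = ∑ t, (starRingEnd ℂ) (M t m) * d2 (cx2 qb (J v)) t +
      2⁻¹ * (pb (S v (EuclideanSpace.single m 1)) +
        Complex.I * pb (Complex.I • S v (EuclideanSpace.single m 1))) := by
    intro v m
    simp only [← hMa, ← smul_eq_mul, ← rinv_anti]
    rw [d2, rinv_single]
    simp only [cx2, ContinuousLinearMap.comp_apply, ContinuousLinearMap.compL_apply, hq, map_smul,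
      hS', Complex.ofRealCLM_apply, smul_eq_mul]
    push_cast
    ring
  have hq2 : ∀ l m, d12 (cx2 qa) l m =
      ∑ s, ∑ t, M s l * (starRingEnd ℂ) (M t m) * d12 (cx2 qb) s t := by
    intro l m
    have h1 : ∀ t, ∑ s, M s l * d12 (cx2 qb) s t =
        2⁻¹ * (d2 (cx2 qb (J (EuclideanSpace.single l 1))) t -
          Complex.I * d2 (cx2 qb (Complex.I • J (EuclideanSpace.single l 1))) t) := fun t =>
      (rinv_hol ((d2L t).comp (cx2 qb)) (J (EuclideanSpace.single l 1))).symm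
    have h2 : ∑ s, ∑ t, M s l * (starRingEnd ℂ) (M t m) * d12 (cx2 qb) s t =
        ∑ t, (starRingEnd ℂ) (M t m) * ∑ s, M s l * d12 (cx2 qb) s t := by
      rw [Finset.sum_comm]
      refine Finset.sum_congr rfl fun t _ => ?_
      rw [Finset.mul_sum]
      exact Finset.sum_congr rfl fun s _ => by ring
    rw [h2, d12, hq1, hq1, rinv_single l, J.map_smul, hS, smul_smul, Complex.I_mul_I, neg_one_smul,
      map_neg]
    have e1 : ∀ u f g : Fin n → ℂ, ∑ t, u t * (2⁻¹ * (f t - Complex.I * g t)) =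
        2⁻¹ * (∑ t, u t * f t - Complex.I * ∑ t, u t * g t) := fun u f g => by
      rw [Finset.mul_sum, ← Finset.sum_sub_distrib, Finset.mul_sum]
      exact Finset.sum_congr rfl fun t _ => by ring
    simp only [h1, smul_eq_mul, e1]
    push_cast
    linear_combination (4⁻¹ * (pb (S (EuclideanSpace.single l 1) (EuclideanSpace.single m 1)) : ℂ)) *
      Complex.I_mul_I
  rw [rinv_det, ← hM, abs_of_nonneg (Complex.normSq_nonneg _)]
  unfold SP kG
  simp only [ha, hb, hp1, hp2, hq2, rinv_conj_cm hτ, rinv_conj hτ, rinv_conj_tr hτ, rinv_multi]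
  rw [rinv_contr hW', hdet]
  simp only [Finset.mul_sum, mul_assoc]

end Pool.Agent.PW
end
end

-- part Pool.Agent.P.MP_65ad7c_ag.RAlg
section

open MeasureTheory Set Filter Topology Metric Matrix
open scoped ComplexOrder ContDiff Matrix.Norms.Frobenius RealInnerProductSpace ENNReal
open Pool.Agent.Lib.Sob

noncomputable section
namespace Pool.Agent.PW

variable {n r : ℕ} {A : EC n →L[ℝ] Mat r} {β : EC n →L[ℝ] EC n →L[ℝ] Mat r}
  {G : Fin n → Fin n → Fin n → Fin n → ℂ}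

theorem JFlat.ralg_eq (h : JFlat A β) (v w : EC n) :
    β v w = β w v - (A v * A w - A w * A v) := by
  have := h v w
  rw [cm, sub_eq_iff_eq_add] at this
  rw [this]; abel

theorem JFlat.d11_sub (h : JFlat A β) (l j : Fin n) :
    d11 β l j - d11 β j l = -cm (d1 A l) (d1 A j) := by
  simp only [d11, d1, cm]
  rw [h.ralg_eq (EuclideanSpace.single l 1) (EuclideanSpace.single j 1),
    h.ralg_eq (EuclideanSpace.single l 1) (EuclideanSpace.single j Complex.I),
    h.ralg_eq (EuclideanSpace.single l Complex.I) (EuclideanSpace.single j 1),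
    h.ralg_eq (EuclideanSpace.single l Complex.I) (EuclideanSpace.single j Complex.I)]
  simp only [Matrix.mul_sub, Matrix.sub_mul, Matrix.smul_mul, Matrix.mul_smul]
  module

theorem JFlat.d22_sub (h : JFlat A β) (m k : Fin n) :
    d22 β m k - d22 β k m = -cm (d2 A m) (d2 A k) := by
  simp only [d22, d2, cm]
  rw [h.ralg_eq (EuclideanSpace.single m 1) (EuclideanSpace.single k 1),
    h.ralg_eq (EuclideanSpace.single m 1) (EuclideanSpace.single k Complex.I),
    h.ralg_eq (EuclideanSpace.single m Complex.I) (EuclideanSpace.single k 1),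
    h.ralg_eq (EuclideanSpace.single m Complex.I) (EuclideanSpace.single k Complex.I)]
  simp only [Matrix.mul_add, Matrix.add_mul, Matrix.smul_mul, Matrix.mul_smul]
  module

theorem JFlat.d21_sub (h : JFlat A β) (m j : Fin n) :
    d21 β m j - d12 β j m = -cm (d2 A m) (d1 A j) := by
  simp only [d21, d12, d1, d2, cm]
  rw [h.ralg_eq (EuclideanSpace.single m 1) (EuclideanSpace.single j 1),
    h.ralg_eq (EuclideanSpace.single m 1) (EuclideanSpace.single j Complex.I),
    h.ralg_eq (EuclideanSpace.single m Complex.I) (EuclideanSpace.single j 1),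
    h.ralg_eq (EuclideanSpace.single m Complex.I) (EuclideanSpace.single j Complex.I)]
  simp only [Matrix.mul_add, Matrix.add_mul, Matrix.mul_sub, Matrix.sub_mul, Matrix.smul_mul,
    Matrix.mul_smul]
  module

theorem ralg_swap3 (f : Fin n → Fin n → Fin n → ℂ) :
    ∑ a, ∑ b, ∑ c, f a b c = ∑ a, ∑ b, ∑ c, f c b a := by
  calc ∑ a, ∑ b, ∑ c, f a b c = ∑ a, ∑ c, ∑ b, f a b c :=
        Finset.sum_congr rfl fun a _ => Finset.sum_comm
    _ = ∑ c, ∑ a, ∑ b, f a b c := Finset.sum_comm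
    _ = ∑ c, ∑ b, ∑ a, f a b c := Finset.sum_congr rfl fun c _ => Finset.sum_comm

/-- contraction with `G` -/
def ralgS (G F : Fin n → Fin n → Fin n → Fin n → ℂ) : ℂ :=
  ∑ j, ∑ k, ∑ l, ∑ m, G j k l m * F j k l m

theorem ralgS_add (F F' : Fin n → Fin n → Fin n → Fin n → ℂ) :
    ralgS G (fun j k l m => F j k l m + F' j k l m) = ralgS G F + ralgS G F' := by
  simp only [ralgS, mul_add, Finset.sum_add_distrib]

theorem ralgS_sub (F F' : Fin n → Fin n → Fin n → Fin n → ℂ) :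
    ralgS G (fun j k l m => F j k l m - F' j k l m) = ralgS G F - ralgS G F' := by
  simp only [ralgS, mul_sub, Finset.sum_sub_distrib]

theorem ralgS_mul (c : ℂ) (F : Fin n → Fin n → Fin n → Fin n → ℂ) :
    ralgS G (fun j k l m => c * F j k l m) = c * ralgS G F := by
  simp only [ralgS, Finset.mul_sum, mul_left_comm c]

theorem ralgS_swap13 (hG : Anti G) (F : Fin n → Fin n → Fin n → Fin n → ℂ) :
    ralgS G (fun j k l m => F l k j m) = -ralgS G F := by
  simp only [ralgS]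
  rw [ralg_swap3 fun j k l => ∑ m, G j k l m * F l k j m]
  simp only [← Finset.sum_neg_distrib]
  refine Finset.sum_congr rfl fun j _ => Finset.sum_congr rfl fun k _ =>
    Finset.sum_congr rfl fun l _ => Finset.sum_congr rfl fun m _ => ?_
  rw [hG.1 j k l m, neg_mul]

theorem ralgS_swap24 (hG : Anti G) (F : Fin n → Fin n → Fin n → Fin n → ℂ) :
    ralgS G (fun j k l m => F j m l k) = -ralgS G F := by
  simp only [ralgS, ← Finset.sum_neg_distrib]
  refine Finset.sum_congr rfl fun j _ => ?_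
  rw [ralg_swap3 fun k l m => G j k l m * F j m l k]
  refine Finset.sum_congr rfl fun k _ =>
    Finset.sum_congr rfl fun l _ => Finset.sum_congr rfl fun m _ => ?_
  rw [hG.2 j k l m, neg_mul]

theorem ralgS_anti13 (hG : Anti G) {F F' : Fin n → Fin n → Fin n → Fin n → ℂ}
    (hF : ∀ j k l m, F j k l m - F l k j m = 2 * F' j k l m) : ralgS G F = ralgS G F' := by
  have h1 := ralgS_sub (G := G) F fun j k l m => F l k j m
  simp only [hF] at h1
  rw [ralgS_mul, ralgS_swap13 hG F] at h1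
  linear_combination (-2⁻¹ : ℂ) * h1

theorem ralgS_anti24 (hG : Anti G) {F F' : Fin n → Fin n → Fin n → Fin n → ℂ}
    (hF : ∀ j k l m, F j k l m - F j m l k = 2 * F' j k l m) : ralgS G F = ralgS G F' := by
  have h1 := ralgS_sub (G := G) F fun j k l m => F j m l k
  simp only [hF] at h1
  rw [ralgS_mul, ralgS_swap24 hG F] at h1
  linear_combination (-2⁻¹ : ℂ) * h1

theorem ralgS_swap (hG : Anti G) (F : Fin n → Fin n → Fin n → Fin n → ℂ) :
    ralgS G (fun j k l m => F l m j k) = ralgS G F := by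
  rw [ralgS_swap13 hG fun j k l m => F j m l k, ralgS_swap24 hG, neg_neg]

/-- antisymmetrisation in `(l, j)` -/
theorem JFlat.sum_d11 (h : JFlat A β) (hG : Anti G) (Y : Fin n → Fin n → Mat r) :
    ∑ j, ∑ k, ∑ l, ∑ m, G j k l m * (d11 β l j * Y k m).trace =
      ∑ j, ∑ k, ∑ l, ∑ m, G j k l m * (-2⁻¹ * (cm (d1 A l) (d1 A j) * Y k m).trace) := by
  refine ralgS_anti13 hG fun j k l m => ?_
  rw [← trace_sub, ← Matrix.sub_mul, h.d11_sub, Matrix.neg_mul, trace_neg]
  ring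

/-- antisymmetrisation in `(m, k)` -/
theorem JFlat.sum_d22 (h : JFlat A β) (hG : Anti G) (Y : Fin n → Fin n → Mat r) :
    ∑ j, ∑ k, ∑ l, ∑ m, G j k l m * (Y j l * d22 β m k).trace =
      ∑ j, ∑ k, ∑ l, ∑ m, G j k l m * (-2⁻¹ * (Y j l * cm (d2 A m) (d2 A k)).trace) := by
  refine ralgS_anti24 hG fun j k l m => ?_
  rw [← trace_sub, ← Matrix.mul_sub, h.d22_sub, Matrix.mul_neg, trace_neg]
  ring

theorem JFlat.SF_eq_SF2 (h : JFlat A β) (hG : Anti G) : SF G A β = SF2 G β := by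
  have h1 : ralgS G (fun j k l m => (d11 β l j * d22 β m k).trace) =
      ralgS G (fun j k l m => -2⁻¹ * (cm (d1 A l) (d1 A j) * d22 β m k).trace) :=
    h.sum_d11 hG fun k m => d22 β m k
  have h2 : ralgS G (fun j k l m => (cm (d1 A l) (d1 A j) * d22 β m k).trace) =
      ralgS G (fun j k l m => -2⁻¹ * (cm (d1 A l) (d1 A j) * cm (d2 A m) (d2 A k)).trace) :=
    h.sum_d22 hG fun j l => cm (d1 A l) (d1 A j)
  change ralgS G _ = ralgS G _
  rw [ralgS_mul] at h1 h2
  rw [ralgS_sub, ralgS_sub, ralgS_mul, h1, h2]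
  ring

theorem ralg_tr (a a' b b' : Mat r) :
    (cm a b * cm a' b').trace - (cm a b' * cm a' b).trace = -(cm a' a * cm b b').trace := by
  have e1 : (b' * (a * (b * a'))).trace = (a * (b * (a' * b'))).trace := by
    rw [trace_mul_comm]; simp only [Matrix.mul_assoc]
  have e2 : (b * (a * (b' * a'))).trace = (a * (b' * (a' * b))).trace := by
    rw [trace_mul_comm]; simp only [Matrix.mul_assoc]
  have e3 : (a' * (a * (b * b'))).trace = (a * (b * (b' * a'))).trace := by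
    rw [trace_mul_comm]; simp only [Matrix.mul_assoc]
  have e4 : (a' * (a * (b' * b))).trace = (a * (b' * (b * a'))).trace := by
    rw [trace_mul_comm]; simp only [Matrix.mul_assoc]
  have e5 : (b * (a * (a' * b'))).trace = (a * (a' * (b' * b))).trace := by
    rw [trace_mul_comm]; simp only [Matrix.mul_assoc]
  have e6 : (b' * (a * (a' * b))).trace = (a * (a' * (b * b'))).trace := by
    rw [trace_mul_comm]; simp only [Matrix.mul_assoc]
  simp only [cm, Matrix.mul_sub, Matrix.sub_mul, Matrix.mul_assoc, trace_sub]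
  rw [e1, e2, e3, e4, e5, e6]
  ring

theorem JFlat.ralg_d21 (h : JFlat A β) (m j : Fin n) :
    d21 β m j = SN β j m + (2 : ℂ)⁻¹ • cm (d1 A j) (d2 A m) := by
  have h1 := h.d21_sub m j
  simp only [SN, cm] at h1 ⊢
  linear_combination (norm := module) (2 : ℂ)⁻¹ • h1

theorem JFlat.ralg_d12 (h : JFlat A β) (l k : Fin n) :
    d12 β l k = SN β l k - (2 : ℂ)⁻¹ • cm (d1 A l) (d2 A k) := by
  have h1 := h.d21_sub k l
  simp only [SN, cm] at h1 ⊢
  linear_combination (norm := module) (-(2 : ℂ)⁻¹) • h1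

/-- the integrand in terms of `N` and `[a, a]` -/
theorem JFlat.SF_eq (h : JFlat A β) (hG : Anti G) :
    SF G A β = ∑ j, ∑ k, ∑ l, ∑ m, G j k l m * ((SN β j m * SN β l k).trace -
      8⁻¹ * (cm (d1 A l) (d1 A j) * cm (d2 A m) (d2 A k)).trace) := by
  have h1 : ∀ j k l m, (d21 β m j * d12 β l k).trace =
      (SN β j m * SN β l k).trace + 2⁻¹ * (cm (d1 A j) (d2 A m) * SN β l k).trace -
        2⁻¹ * (cm (d1 A l) (d2 A k) * SN β j m).trace -
        4⁻¹ * (cm (d1 A j) (d2 A m) * cm (d1 A l) (d2 A k)).trace := by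
    intro j k l m
    rw [h.ralg_d21, h.ralg_d12, trace_mul_comm (cm (d1 A l) (d2 A k)) (SN β j m)]
    simp only [Matrix.mul_sub, Matrix.add_mul, Matrix.smul_mul, Matrix.mul_smul, trace_sub,
      trace_add, trace_smul, smul_eq_mul]
    ring
  have h2 := ralgS_swap hG fun j k l m => (cm (d1 A j) (d2 A m) * SN β l k).trace
  have h3 : ralgS G (fun j k l m => (cm (d1 A j) (d2 A m) * cm (d1 A l) (d2 A k)).trace) =
      ralgS G (fun j k l m => -2⁻¹ * (cm (d1 A l) (d1 A j) * cm (d2 A m) (d2 A k)).trace) := by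
    refine ralgS_anti24 hG fun j k l m => ?_
    rw [ralg_tr]; ring
  change ralgS G _ = ralgS G _
  simp only [h1]
  rw [ralgS_mul] at h3
  rw [ralgS_sub, ralgS_sub, ralgS_sub, ralgS_sub, ralgS_add, ralgS_mul, ralgS_mul, ralgS_mul,
    ralgS_mul, ralgS_mul, h2, h3]
  ring

theorem ralg_ind (P : EC n → Prop) (h0 : P 0) (ha : ∀ v w, P v → P w → P (v + w))
    (hs : ∀ (c : ℝ) v, P v → P (c • v)) (h1 : ∀ j, P (EuclideanSpace.single j 1))
    (hI : ∀ j, P (EuclideanSpace.single j Complex.I)) (v : EC n) : P v := by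
  have hv : v = ∑ j, ((v j).re • EuclideanSpace.single j (1 : ℂ) +
      (v j).im • EuclideanSpace.single j Complex.I) := by
    ext i
    simp [Finset.sum_apply, Pi.single_apply, Finset.sum_add_distrib]
  rw [hv]
  exact Finset.sum_induction _ P ha h0 fun j _ => ha _ _ (hs _ _ (h1 j)) (hs _ _ (hI j))

theorem ralg_I1 (j : Fin n) :
    Complex.I • EuclideanSpace.single j (1 : ℂ) = (EuclideanSpace.single j Complex.I : EC n) := by
  ext i; simp

theorem ralg_II (j : Fin n) :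
    Complex.I • EuclideanSpace.single j Complex.I = -(EuclideanSpace.single j 1 : EC n) := by
  ext i; by_cases hi : i = j <;> simp [hi]

theorem ralg_split {P Q : Mat r} (h1 : P - Complex.I • Q = 0) (h2 : P + Complex.I • Q = 0) :
    P = 0 ∧ Q = 0 := by
  have hP : P = 0 := by linear_combination (norm := module) (2 : ℂ)⁻¹ • h1 + (2 : ℂ)⁻¹ • h2
  refine ⟨hP, ?_⟩
  rw [hP, zero_add] at h2
  exact (smul_eq_zero.1 h2).resolve_left Complex.I_ne_zero

theorem ralg_cm1 (p q p' q' : Mat r) :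
    (cm p p' - cm q q') - Complex.I • (cm p q' + cm q p') =
      (4 : ℂ) • cm ((2 : ℂ)⁻¹ • (p - Complex.I • q)) ((2 : ℂ)⁻¹ • (p' - Complex.I • q')) := by
  simp only [cm, Matrix.mul_sub, Matrix.sub_mul, Matrix.smul_mul, Matrix.mul_smul]
  match_scalars <;> ring_nf <;> simp

theorem ralg_cm2 (p q p' q' : Mat r) :
    (cm p p' - cm q q') + Complex.I • (cm p q' + cm q p') =
      (4 : ℂ) • cm ((2 : ℂ)⁻¹ • (p + Complex.I • q)) ((2 : ℂ)⁻¹ • (p' + Complex.I • q')) := by
  simp only [cm, Matrix.mul_add, Matrix.add_mul, Matrix.smul_mul, Matrix.mul_smul]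
  match_scalars <;> ring_nf <;> simp

theorem ralg_bil {V : Type} [AddCommGroup V] [Module ℝ V] (B : EC n → EC n → V)
    (ha : ∀ u v w, B (u + v) w = B u w + B v w) (hs : ∀ (c : ℝ) v w, B (c • v) w = c • B v w)
    (ha' : ∀ u v w, B u (v + w) = B u v + B u w) (hs' : ∀ (c : ℝ) v w, B v (c • w) = c • B v w)
    (h11 : ∀ l j, B (EuclideanSpace.single l 1) (EuclideanSpace.single j 1) = 0)
    (h12 : ∀ l j, B (EuclideanSpace.single l 1) (EuclideanSpace.single j Complex.I) = 0)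
    (h21 : ∀ l j, B (EuclideanSpace.single l Complex.I) (EuclideanSpace.single j 1) = 0)
    (h22 : ∀ l j, B (EuclideanSpace.single l Complex.I) (EuclideanSpace.single j Complex.I) = 0)
    (v w : EC n) : B v w = 0 := by
  have z : ∀ w, B 0 w = 0 := fun w => by simpa using hs 0 0 w
  have z' : ∀ v, B v 0 = 0 := fun v => by simpa using hs' 0 v 0
  have key : ∀ v, (∀ j, B v (EuclideanSpace.single j 1) = 0) →
      (∀ j, B v (EuclideanSpace.single j Complex.I) = 0) → ∀ w, B v w = 0 := fun v k1 k2 =>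
    ralg_ind (fun w => B v w = 0) (z' v) (fun a b h1 h2 => by rw [ha', h1, h2, add_zero])
      (fun c a h1 => by rw [hs', h1, smul_zero]) k1 k2
  exact ralg_ind (fun v => B v w = 0) (z w) (fun a b h1 h2 => by rw [ha, h1, h2, add_zero])
    (fun c a h1 => by rw [hs, h1, smul_zero]) (fun l => key _ (h11 l) (h12 l) w)
    (fun l => key _ (h21 l) (h22 l) w) v

/-- pluriharmonicity from the vanishing of `N` and of the commutators -/
theorem JFlat.ph (h : JFlat A β) (hN : ∀ j k, SN β j k = 0)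
    (ha : ∀ j l, cm (d1 A l) (d1 A j) = 0) (hb : ∀ k m, cm (d2 A m) (d2 A k) = 0) :
    PH1 A ∧ PH2 β := by
  have hc : ∀ l j,
      cm (A (EuclideanSpace.single l 1)) (A (EuclideanSpace.single j 1)) -
        cm (A (EuclideanSpace.single l Complex.I)) (A (EuclideanSpace.single j Complex.I)) = 0 ∧
      cm (A (EuclideanSpace.single l 1)) (A (EuclideanSpace.single j Complex.I)) +
        cm (A (EuclideanSpace.single l Complex.I)) (A (EuclideanSpace.single j 1)) = 0 := by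
    intro l j
    refine ralg_split ?_ ?_
    · rw [ralg_cm1]; exact (congrArg ((4 : ℂ) • ·) (ha j l)).trans (smul_zero _)
    · rw [ralg_cm2]; exact (congrArg ((4 : ℂ) • ·) (hb j l)).trans (smul_zero _)
  have hd : ∀ l j,
      β (EuclideanSpace.single l 1) (EuclideanSpace.single j 1) +
        β (EuclideanSpace.single l Complex.I) (EuclideanSpace.single j Complex.I) +
        β (EuclideanSpace.single j 1) (EuclideanSpace.single l 1) +
        β (EuclideanSpace.single j Complex.I) (EuclideanSpace.single l Complex.I) = 0 ∧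
      β (EuclideanSpace.single l 1) (EuclideanSpace.single j Complex.I) -
        β (EuclideanSpace.single l Complex.I) (EuclideanSpace.single j 1) -
        β (EuclideanSpace.single j 1) (EuclideanSpace.single l Complex.I) +
        β (EuclideanSpace.single j Complex.I) (EuclideanSpace.single l 1) = 0 := by
    intro l j
    refine ralg_split ?_ ?_
    · refine Eq.trans ?_ ((congrArg ((8 : ℂ) • ·) (hN j l)).trans (smul_zero _))
      simp only [SN, d21, d12, d1, d2]
      match_scalars <;> ring_nf <;> simp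
    · refine Eq.trans ?_ ((congrArg ((8 : ℂ) • ·) (hN l j)).trans (smul_zero _))
      simp only [SN, d21, d12, d1, d2]
      match_scalars <;> ring_nf <;> simp
  constructor
  · intro v w
    rw [← sub_eq_zero]
    refine ralg_bil (fun v w => cm (A (Complex.I • v)) (A (Complex.I • w)) - cm (A v) (A w))
      ?_ ?_ ?_ ?_ ?_ ?_ ?_ ?_ v w
    · intro u v w
      simp only [smul_add, map_add, cm, Matrix.mul_add, Matrix.add_mul]; abel
    · intro c v w
      simp only [smul_comm Complex.I c, map_smul, cm, Matrix.smul_mul, Matrix.mul_smul, smul_sub]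
    · intro u v w
      simp only [smul_add, map_add, cm, Matrix.mul_add, Matrix.add_mul]; abel
    · intro c v w
      simp only [smul_comm Complex.I c, map_smul, cm, Matrix.smul_mul, Matrix.mul_smul, smul_sub]
    all_goals
      intro l j
      obtain ⟨c1, c2⟩ := hc l j
      simp only [ralg_I1, ralg_II, map_neg, cm, Matrix.mul_neg, Matrix.neg_mul] at c1 c2 ⊢
    · linear_combination (norm := abel) -c1
    · linear_combination (norm := abel) -c2
    · linear_combination (norm := abel) -c2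
    · linear_combination (norm := abel) c1
  · intro v w
    rw [← sub_eq_zero]
    refine ralg_bil (fun v w => β v (Complex.I • w) - β w (Complex.I • v))
      ?_ ?_ ?_ ?_ ?_ ?_ ?_ ?_ v w
    · intro u v w
      simp only [smul_add, map_add, _root_.add_apply]; abel
    · intro c v w
      simp only [smul_comm Complex.I c, map_smul, _root_.smul_apply, smul_sub]
    · intro u v w
      simp only [smul_add, map_add, _root_.add_apply]; abel
    · intro c v w
      simp only [smul_comm Complex.I c, map_smul, _root_.smul_apply, smul_sub]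
    all_goals
      intro l j
      obtain ⟨c1, c2⟩ := hc l j
      obtain ⟨e1, e2⟩ := hd l j
      have f11 := h (EuclideanSpace.single l 1) (EuclideanSpace.single j 1)
      have f12 := h (EuclideanSpace.single l 1) (EuclideanSpace.single j Complex.I)
      have f21 := h (EuclideanSpace.single l Complex.I) (EuclideanSpace.single j 1)
      have f22 := h (EuclideanSpace.single l Complex.I) (EuclideanSpace.single j Complex.I)
      simp only [ralg_I1, ralg_II, map_neg]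
    · linear_combination (norm := module) (2 : ℂ)⁻¹ • (e2 + f12 + f21 - c2)
    · linear_combination (norm := module) (-(2 : ℂ)⁻¹) • (e1 + f11 - f22 - c1)
    · linear_combination (norm := module) (2 : ℂ)⁻¹ • (e1 - f11 + f22 + c1)
    · linear_combination (norm := module) (2 : ℂ)⁻¹ • (e2 - f12 - f21 + c2)

end Pool.Agent.PW
end
end

-- part Pool.Agent.P.MP_65ad7c_ag.RNull
section

open MeasureTheory Set Filter Topology Metric Matrix
open scoped ComplexOrder ContDiff Matrix.Norms.Frobenius RealInnerProductSpace ENNReal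
open Pool.Agent.Lib.Sob

noncomputable section
namespace Pool.Agent.PW

variable {E : Type} [NormedAddCommGroup E] [InnerProductSpace ℝ E] [FiniteDimensional ℝ E]
  [MeasurableSpace E] [BorelSpace E] {U : Set E}
  {V₁ V₂ V₃ : Type} [NormedAddCommGroup V₁] [NormedSpace ℝ V₁] [CompleteSpace V₁]
  [NormedAddCommGroup V₂] [NormedSpace ℝ V₂] [CompleteSpace V₂]
  [NormedAddCommGroup V₃] [NormedSpace ℝ V₃] [CompleteSpace V₃]

omit [CompleteSpace V₁] [CompleteSpace V₂] [CompleteSpace V₃] in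
theorem null_lim {W : Type} [NormedAddCommGroup W] [NormedSpace ℝ W] (B : W →L[ℝ] V₂ →L[ℝ] V₃)
    {K : Set E} (hK : IsCompact K) (hKU : K ⊆ U) {c : E → ℝ} (hc : Continuous c)
    (hs : tsupport c ⊆ K) {Xk : ℕ → E → W} {X : E → W} {Y : E → V₂} (hk : ∀ k, LocLp 2 U (Xk k))
    (hX : LocLp 2 U X) (hY : LocLp 2 U Y)
    (ht : Tendsto (fun k => ∫⁻ x in K, ‖Xk k x - X x‖ₑ ^ 2) atTop (𝓝 0)) :
    Tendsto (fun k => ∫ x, c x • B (Xk k x) (Y x)) atTop (𝓝 (∫ x, c x • B (X x) (Y x))) := by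
  have cs : HasCompactSupport c := hK.of_isClosed_subset (isClosed_tsupport _) hs
  refine tendsto_integral_of_L1 _
    ((locLp_bilin_one B hX hY).integrable_smul le_rfl hc cs (hs.trans hKU)).1
    (Eventually.of_forall fun k =>
      (locLp_bilin_one B (hk k) hY).integrable_smul le_rfl hc cs (hs.trans hKU)) ?_
  have h1 : Tendsto (fun k => eLpNorm (fun x => Xk k x - X x) (2 : ℕ) (volume.restrict K)) atTop
      (𝓝 0) := by
    simp only [lintegral_pow_eq (n := 2) one_le_two] at ht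
    have := ht.ennrpow_const (((2 : ℕ) : ℝ)⁻¹)
    have hn' : (0 : ℝ) < (2 : ℕ) := by norm_num
    rw [ENNReal.zero_rpow_of_pos (inv_pos.2 hn')] at this
    refine this.congr fun k => ?_
    rw [← ENNReal.rpow_natCast, ← ENNReal.rpow_mul, mul_inv_cancel₀ hn'.ne', ENNReal.rpow_one]
  have hg := (hY.smul hc.continuousOn) K hK hKU
  have h2 := ENNReal.Tendsto.mul_const (b := eLpNorm (fun x => c x • Y x) (2 : ℕ) (volume.restrict K))
    (ENNReal.Tendsto.const_mul (a := (‖B‖₊ : ℝ≥0∞)) h1 (Or.inr ENNReal.coe_ne_top)) (Or.inr hg.2.ne)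
  rw [mul_zero, zero_mul] at h2
  refine tendsto_of_tendsto_of_tendsto_of_le_of_le tendsto_const_nhds h2 (fun _ => zero_le)
    fun k => ?_
  have hf := ((hk k).sub hX) K hK hKU
  have h3 := eLpNorm_le_eLpNorm_mul_eLpNorm'_of_norm (p := 2) (q := 2) (r := 1) hf.1 hg.1
    (fun a y => B a y) ‖B‖₊ (Eventually.of_forall fun x => B.le_opNorm₂ _ _)
  rw [eLpNorm_one_eq_lintegral_enorm] at h3
  refine le_trans ?_ h3
  rw [← lintegral_indicator hK.measurableSet]
  refine lintegral_mono fun x => ?_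
  by_cases hx : x ∈ K
  · rw [indicator_of_mem hx, map_smul, map_sub, _root_.sub_apply, smul_sub]
  · simp [image_eq_zero_of_notMem_tsupport (fun h => hx (hs h))]

theorem null_parts (hU : IsOpen U) (B : V₁ →L[ℝ] V₂ →L[ℝ] V₃) {u : E → V₁} {w : E → V₂}
    {Dw : E → E →L[ℝ] V₂} (hu : ContDiff ℝ ∞ u) (hw : WD 2 U w Dw)
    {ψ : E → ℝ} (hψ : IsTest U ψ) (v v' : E) :
    ∫ x, fderiv ℝ ψ x v' • B (fderiv ℝ u x v) (w x) =
      -((∫ x, ψ x • B (fderiv ℝ (fderiv ℝ u) x v' v) (w x)) +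
        ∫ x, ψ x • B (fderiv ℝ u x v) (Dw x v')) := by
  have h1 : ContDiff ℝ ∞ (fderiv ℝ u) := hu.fderiv_right (m := ∞) (by simp)
  have h2 : ContDiff ℝ 1 fun x => fderiv ℝ u x v :=
    (h1.of_le (by simp)).clm_apply contDiff_const
  have h3 := (wd_bilin_cd one_le_two hU B h2.contDiffOn hw).2.2 ψ hψ v'
  have h4 : ∀ x, fderiv ℝ (fun y => fderiv ℝ u y v) x v' = fderiv ℝ (fderiv ℝ u) x v' v := by
    intro x
    rw [fderiv_clm_apply (h1.differentiable (by simp) x) (differentiableAt_const v)]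
    simp
  have c1 : Continuous fun x => fderiv ℝ (fderiv ℝ u) x v' v :=
    ((h1.continuous_fderiv (by simp)).clm_apply continuous_const).clm_apply continuous_const
  rw [h3, ← integral_add
    ((locLp_bilin_one B (.of_continuousOn c1.continuousOn) hw.1).integrable_test le_rfl hψ)
    ((locLp_bilin_one B (.of_continuousOn h2.continuous.continuousOn)
      (hw.2.1.apply v')).integrable_test le_rfl hψ)]
  congr 2
  funext x
  simp only [_root_.add_apply, ContinuousLinearMap.comp_apply,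
    ContinuousLinearMap.flip_apply, h4, smul_add]

omit [CompleteSpace V₁] [CompleteSpace V₂] [CompleteSpace V₃] in
theorem null_split (B : V₁ →L[ℝ] V₂ →L[ℝ] V₃) {w : E → V₂} {X : E → E →L[ℝ] V₁}
    {Dw : E → E →L[ℝ] V₂} (hX : LocLp 2 U X) (hw : WD 2 U w Dw) {ψ : E → ℝ} (hψ : IsTest U ψ)
    (v v' : E) :
    (∫ x, ψ x • (B (X x v) (Dw x v') - B (X x v') (Dw x v)) =
      (∫ x, ψ x • B (X x v) (Dw x v')) - ∫ x, ψ x • B (X x v') (Dw x v)) ∧
    ∫ x, (fderiv ℝ ψ x v • B (X x v') (w x) - fderiv ℝ ψ x v' • B (X x v) (w x)) =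
      (∫ x, fderiv ℝ ψ x v • B (X x v') (w x)) - ∫ x, fderiv ℝ ψ x v' • B (X x v) (w x) := by
  constructor
  · simp only [smul_sub]
    exact integral_sub
      ((locLp_bilin_one B (hX.apply v) (hw.2.1.apply v')).integrable_test le_rfl hψ)
      ((locLp_bilin_one B (hX.apply v') (hw.2.1.apply v)).integrable_test le_rfl hψ)
  · exact integral_sub ((locLp_bilin_one B (hX.apply v') hw.1).integrable_dtest le_rfl hψ v)
      ((locLp_bilin_one B (hX.apply v) hw.1).integrable_dtest le_rfl hψ v')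

/-- null Lagrangians, smooth first factor -/
theorem null_lagr_smooth (hU : IsOpen U) (B : V₁ →L[ℝ] V₂ →L[ℝ] V₃) {u : E → V₁} {w : E → V₂}
    {Dw : E → E →L[ℝ] V₂} (hu : ContDiff ℝ ∞ u) (hw : WD 2 U w Dw)
    {ψ : E → ℝ} (hψ : IsTest U ψ) (v v' : E) :
    ∫ x, ψ x • (B (fderiv ℝ u x v) (Dw x v') - B (fderiv ℝ u x v') (Dw x v)) =
      ∫ x, (fderiv ℝ ψ x v • B (fderiv ℝ u x v') (w x) -
        fderiv ℝ ψ x v' • B (fderiv ℝ u x v) (w x)) := by
  obtain ⟨h1, h2⟩ := null_split B (X := fderiv ℝ u)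
    (.of_continuousOn (hu.continuous_fderiv (by simp)).continuousOn) hw hψ v v'
  have hs : ∀ x, fderiv ℝ (fderiv ℝ u) x v v' = fderiv ℝ (fderiv ℝ u) x v' v := fun x =>
    (hu.contDiffAt.isSymmSndFDerivAt (by
      rw [minSmoothness_of_isRCLikeNormedField]; exact WithTop.coe_le_coe.2 le_top)).eq v v'
  rw [h1, h2, null_parts hU B hu hw hψ v v', null_parts hU B hu hw hψ v' v]
  simp only [hs]
  abel

/-- null Lagrangians -/
theorem null_lagr (hU : IsOpen U) (B : V₁ →L[ℝ] V₂ →L[ℝ] V₃) {u : E → V₁} {w : E → V₂}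
    {Du : E → E →L[ℝ] V₁} {Dw : E → E →L[ℝ] V₂} (hu : WD 2 U u Du) (hw : WD 2 U w Dw)
    {ψ : E → ℝ} (hψ : IsTest U ψ) (v v' : E) :
    ∫ x, ψ x • (B (Du x v) (Dw x v') - B (Du x v') (Dw x v)) =
      ∫ x, (fderiv ℝ ψ x v • B (Du x v') (w x) - fderiv ℝ ψ x v' • B (Du x v) (w x)) := by
  obtain ⟨g, hg, -, -, ht⟩ := hu.approx one_le_two hU hψ.2.1 hψ.2.2
  have lg : ∀ k, LocLp 2 U (fderiv ℝ (g k)) := fun k =>
    .of_continuousOn ((hg k).continuous_fderiv (by simp)).continuousOn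
  have a : ∀ (e : E) {c : E → ℝ} {Y : E → V₂}, Continuous c → tsupport c ⊆ tsupport ψ →
      LocLp 2 U Y → Tendsto (fun k => ∫ x, c x • B (fderiv ℝ (g k) x e) (Y x)) atTop
        (𝓝 (∫ x, c x • B (Du x e) (Y x))) := fun e c Y hc hs hY =>
    null_lim (B.comp (ContinuousLinearMap.apply ℝ V₁ e)) hψ.2.1 hψ.2.2 hc hs lg hu.2.1 hY ht
  have t1 := (a v hψ.continuous Subset.rfl (hw.2.1.apply v')).sub
    (a v' hψ.continuous Subset.rfl (hw.2.1.apply v))
  have t2 := (a v' (hψ.continuous_fderiv_apply v) (tsupport_fderiv_apply_subset ℝ v) hw.1).sub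
    (a v (hψ.continuous_fderiv_apply v') (tsupport_fderiv_apply_subset ℝ v') hw.1)
  obtain ⟨h1, h2⟩ := null_split B hu.2.1 hw hψ v v'
  rw [h1, h2]
  refine tendsto_nhds_unique t1 (t2.congr fun k => ?_)
  obtain ⟨h3, h4⟩ := null_split B (lg k) hw hψ v v'
  rw [← h3, ← h4, null_lagr_smooth hU B (hg k) hw hψ v v']

end Pool.Agent.PW
end
end

-- part Pool.Agent.P.MP_65ad7c_ag.RCx
section

open MeasureTheory Set Filter Topology Metric Matrix
open scoped ComplexOrder ContDiff Matrix.Norms.Frobenius RealInnerProductSpace ENNReal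
open Pool.Agent.Lib.Sob

noncomputable section
namespace Pool.Agent.PW

variable {n r : ℕ} {U : Set (EC n)}

/-- the trace form as a real bilinear map -/
def rcxTau (r : ℕ) : Mat r →L[ℝ] Mat r →L[ℝ] ℂ :=
  (ContinuousLinearMap.compL ℝ (Mat r) (Mat r) ℂ
    (LinearMap.toContinuousLinearMap (Matrix.traceLinearMap (Fin r) ℝ ℂ))).comp
    (ContinuousLinearMap.mul ℝ (Mat r))

theorem rcxTau_apply (X Y : Mat r) : rcxTau r X Y = (X * Y).trace := rfl

/-- integrability against complex test functions -/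
theorem integrable_testC {ψ F : EC n → ℂ} (hψ : Continuous ψ) (hc : HasCompactSupport ψ)
    (hs : tsupport ψ ⊆ U) (hF : LocLp 1 U F) : Integrable fun x => ψ x * F x := by
  have h1 : IntegrableOn (fun x => ψ x * F x) (tsupport ψ) :=
    (hF.integrableOn le_rfl hc hs).continuousOn_mul hψ.continuousOn hc
  refine h1.integrable_of_forall_notMem_eq_zero fun x hx => ?_
  rw [image_eq_zero_of_notMem_tsupport hx, zero_mul]

/-- traces of products of `L²` functions -/
theorem locLp_trace {u w : EC n → Mat r} (hu : LocLp 2 U u) (hw : LocLp 2 U w) :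
    LocLp 1 U fun x => (u x * w x).trace := locLp_bilin_one (rcxTau r) hu hw

theorem rcx_test {ψ : EC n → ℂ} (hψ : IsTestC U ψ) (L : ℂ →L[ℝ] ℝ) :
    IsTest U fun x => L (ψ x) := by
  have hs : tsupport (fun x => L (ψ x)) ⊆ tsupport ψ :=
    closure_mono fun x hx h0 => hx (by simp [h0])
  exact ⟨L.contDiff.comp hψ.1, hψ.2.1.of_isClosed_subset (isClosed_tsupport _) hs,
    hs.trans hψ.2.2⟩

theorem rcx_dint {ψ F : EC n → ℂ} (hψ : IsTestC U ψ) (hF : LocLp 1 U F) (v : EC n) :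
    Integrable fun x => fderiv ℝ ψ x v * F x :=
  integrable_testC ((hψ.1.continuous_fderiv (by simp)).clm_apply continuous_const)
    (hψ.2.1.fderiv_apply ℝ v) ((tsupport_fderiv_apply_subset ℝ v).trans hψ.2.2) hF

theorem rcx_fderiv {ψ : EC n → ℂ} (hψ : IsTestC U ψ) (L : ℂ →L[ℝ] ℝ) (x v : EC n) :
    fderiv ℝ (fun x => L (ψ x)) x v = L (fderiv ℝ ψ x v) := by
  have := (L.hasFDerivAt.comp x (hψ.1.differentiable (by simp) x).hasFDerivAt).fderiv
  rw [show (fun x => L (ψ x)) = L ∘ ψ from rfl, this]; rfl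

/-- from real to complex test functions -/
theorem rcx_cplx {F G G' : EC n → ℂ} (hF : LocLp 1 U F) (hG : LocLp 1 U G) (hG' : LocLp 1 U G')
    {v v' : EC n} (h : ∀ φ, IsTest U φ →
      ∫ x, φ x • F x = ∫ x, (fderiv ℝ φ x v • G x - fderiv ℝ φ x v' • G' x))
    {ψ : EC n → ℂ} (hψ : IsTestC U ψ) :
    ∫ x, ψ x * F x = ∫ x, (fderiv ℝ ψ x v * G x - fderiv ℝ ψ x v' * G' x) := by
  have t1 := rcx_test hψ Complex.reCLM
  have t2 := rcx_test hψ Complex.imCLM
  have e1 : ∀ x, ψ x * F x =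
      Complex.reCLM (ψ x) • F x + Complex.I * (Complex.imCLM (ψ x) • F x) := fun x => by
    conv_lhs => rw [← Complex.re_add_im (ψ x)]
    simp only [Complex.reCLM_apply, Complex.imCLM_apply, Complex.real_smul]; ring
  have e2 : ∀ x, fderiv ℝ ψ x v * G x - fderiv ℝ ψ x v' * G' x =
      (fderiv ℝ (fun x => Complex.reCLM (ψ x)) x v • G x -
        fderiv ℝ (fun x => Complex.reCLM (ψ x)) x v' • G' x) +
      Complex.I * (fderiv ℝ (fun x => Complex.imCLM (ψ x)) x v • G x -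
        fderiv ℝ (fun x => Complex.imCLM (ψ x)) x v' • G' x) := fun x => by
    simp only [rcx_fderiv hψ]
    conv_lhs => rw [← Complex.re_add_im (fderiv ℝ ψ x v), ← Complex.re_add_im (fderiv ℝ ψ x v')]
    simp only [Complex.reCLM_apply, Complex.imCLM_apply, Complex.real_smul]; ring
  have i : ∀ φ, IsTest U φ →
      Integrable fun x => fderiv ℝ φ x v • G x - fderiv ℝ φ x v' • G' x := fun φ hφ =>
    (hG.integrable_dtest le_rfl hφ v).sub (hG'.integrable_dtest le_rfl hφ v')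
  simp only [e1, e2]
  rw [integral_add (hF.integrable_test le_rfl t1) ((hF.integrable_test le_rfl t2).const_mul _),
    integral_add (i _ t1) ((i _ t2).const_mul _),
    integral_const_mul, integral_const_mul, h _ t1, h _ t2]

theorem rcx_int2 {a b : EC n → ℂ} (ha : Integrable a) (hb : Integrable b) (c d : ℂ) :
    ∫ x, (c * a x + d * b x) = c * (∫ x, a x) + d * ∫ x, b x := by
  rw [integral_add (ha.const_mul _) (hb.const_mul _), integral_const_mul, integral_const_mul]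

theorem rcx_int4 {a b a' b' : EC n → ℂ} (ha : Integrable a) (hb : Integrable b)
    (ha' : Integrable a') (hb' : Integrable b') (c d c' d' : ℂ) :
    ∫ x, ((c * a x + d * b x) + (c' * a' x + d' * b' x)) =
      (c * (∫ x, a x) + d * ∫ x, b x) + (c' * (∫ x, a' x) + d' * ∫ x, b' x) := by
  have i1 : Integrable fun x => c * a x + d * b x := (ha.const_mul _).add (hb.const_mul _)
  have i2 : Integrable fun x => c' * a' x + d' * b' x := (ha'.const_mul _).add (hb'.const_mul _)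
  rw [integral_add i1 i2, rcx_int2 ha hb, rcx_int2 ha' hb']

/-- complex form of the null Lagrangian identity -/
theorem null_lagr_cx (hU : IsOpen U) {u w : EC n → Mat r} {Du Dw : EC n → EC n →L[ℝ] Mat r}
    (hu : WD 2 U u Du) (hw : WD 2 U w Dw) {ψ : EC n → ℂ} (hψ : IsTestC U ψ) (l m : Fin n) :
    ∫ x, ψ x * ((d2 (Du x) m * d1 (Dw x) l).trace - (d1 (Du x) l * d2 (Dw x) m).trace) =
      ∫ x, (d2 (fderiv ℝ ψ x) m * (d1 (Du x) l * w x).trace -
        d1 (fderiv ℝ ψ x) l * (d2 (Du x) m * w x).trace) := by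
  have lF : ∀ v v' : EC n, LocLp 1 U fun x =>
      (Du x v * Dw x v').trace - (Du x v' * Dw x v).trace := fun v v' =>
    (locLp_trace (hu.2.1.apply v) (hw.2.1.apply v')).sub
      (locLp_trace (hu.2.1.apply v') (hw.2.1.apply v))
  have lG : ∀ v : EC n, LocLp 1 U fun x => (Du x v * w x).trace := fun v =>
    locLp_trace (hu.2.1.apply v) hw.1
  have key : ∀ v v' : EC n, ∫ x, ψ x * ((Du x v * Dw x v').trace - (Du x v' * Dw x v).trace) =
      ∫ x, (fderiv ℝ ψ x v * (Du x v' * w x).trace - fderiv ℝ ψ x v' * (Du x v * w x).trace) :=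
    fun v v' => rcx_cplx (lF v v') (lG v') (lG v)
      (fun φ hφ => null_lagr hU (rcxTau r) hu hw hφ v v') hψ
  have iL : ∀ v v' : EC n, Integrable fun x =>
      ψ x * ((Du x v * Dw x v').trace - (Du x v' * Dw x v).trace) := fun v v' =>
    integrable_testC hψ.1.continuous hψ.2.1 hψ.2.2 (lF v v')
  have iR : ∀ v v' : EC n, Integrable fun x =>
      fderiv ℝ ψ x v * (Du x v' * w x).trace - fderiv ℝ ψ x v' * (Du x v * w x).trace :=
    fun v v' => (rcx_dint hψ (lG v') v).sub (rcx_dint hψ (lG v) v')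
  set a : EC n := EuclideanSpace.single m 1 with ha
  set b : EC n := EuclideanSpace.single m Complex.I with hb
  set c : EC n := EuclideanSpace.single l 1 with hc
  set d : EC n := EuclideanSpace.single l Complex.I with hd
  have h1 := rcx_int4 (iL a c) (iL a d) (iL b c) (iL b d) 4⁻¹ (-(4⁻¹ * Complex.I))
    (4⁻¹ * Complex.I) (-(4⁻¹ * Complex.I * Complex.I))
  have h2 := rcx_int4 (iR a c) (iR a d) (iR b c) (iR b d) 4⁻¹ (-(4⁻¹ * Complex.I))
    (4⁻¹ * Complex.I) (-(4⁻¹ * Complex.I * Complex.I))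
  rw [key, key, key, key, ← h2] at h1
  refine Eq.trans (integral_congr_ae (Eventually.of_forall fun x => ?_))
    (h1.trans (integral_congr_ae (Eventually.of_forall fun x => ?_)))
  · simp only [d1, d2, ← ha, ← hb, ← hc, ← hd, Matrix.smul_mul, Matrix.mul_smul, Matrix.add_mul,
      Matrix.mul_add, Matrix.sub_mul, Matrix.mul_sub, trace_smul, trace_add, trace_sub,
      smul_eq_mul]
    ring
  · simp only [d1, d2, ← ha, ← hb, ← hc, ← hd, Matrix.smul_mul, Matrix.add_mul,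
      Matrix.sub_mul, trace_smul, trace_add, trace_sub, smul_eq_mul]
    ring

/-- complex form of the product rule -/
theorem prod_cx (hU : IsOpen U) {u w : EC n → Mat r} {Du Dw : EC n → EC n →L[ℝ] Mat r}
    (hu : WD 2 U u Du) (hw : WD 2 U w Dw) {ψ : EC n → ℂ} (hψ : IsTestC U ψ) (m : Fin n) :
    ∫ x, d2 (fderiv ℝ ψ x) m * (u x * w x).trace =
      -∫ x, ψ x * ((d2 (Du x) m * w x).trace + (u x * d2 (Dw x) m).trace) := by
  have hT := wd_bilin_one hU (rcxTau r) hu hw
  have lF : ∀ v : EC n, LocLp 1 U fun x => (Du x v * w x).trace + (u x * Dw x v).trace :=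
    fun v => (locLp_trace (hu.2.1.apply v) hw.1).add (locLp_trace hu.1 (hw.2.1.apply v))
  have lG : LocLp 1 U fun x => (u x * w x).trace := locLp_trace hu.1 hw.1
  have key : ∀ v : EC n, ∫ x, ψ x * ((Du x v * w x).trace + (u x * Dw x v).trace) =
      -∫ x, fderiv ℝ ψ x v * (u x * w x).trace := fun v => by
    have := rcx_cplx (lF v) (LocLp.of_continuousOn (continuousOn_const (c := (0 : ℂ)))) lG
      (v := v) (v' := v) (fun φ hφ => by
        have h := hT.2.2 φ hφ v
        simp only [smul_zero, zero_sub]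
        rw [integral_neg]
        exact (neg_eq_iff_eq_neg.2 h).symm) hψ
    simpa [integral_neg] using this
  have iL : ∀ v : EC n, Integrable fun x =>
      ψ x * ((Du x v * w x).trace + (u x * Dw x v).trace) := fun v =>
    integrable_testC hψ.1.continuous hψ.2.1 hψ.2.2 (lF v)
  set a : EC n := EuclideanSpace.single m 1 with ha
  set b : EC n := EuclideanSpace.single m Complex.I with hb
  have h1 := rcx_int2 (iL a) (iL b) 2⁻¹ (2⁻¹ * Complex.I)
  have h2 := rcx_int2 (rcx_dint hψ lG a) (rcx_dint hψ lG b) 2⁻¹ (2⁻¹ * Complex.I)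
  rw [key, key] at h1
  have e1 : ∫ x, d2 (fderiv ℝ ψ x) m * (u x * w x).trace =
      ∫ x, (2⁻¹ * (fderiv ℝ ψ x a * (u x * w x).trace) +
        2⁻¹ * Complex.I * (fderiv ℝ ψ x b * (u x * w x).trace)) :=
    integral_congr_ae (Eventually.of_forall fun x => by
      simp only [d2, ← ha, ← hb, smul_eq_mul]; ring)
  have e2 : ∫ x, ψ x * ((d2 (Du x) m * w x).trace + (u x * d2 (Dw x) m).trace) =
      ∫ x, (2⁻¹ * (ψ x * ((Du x a * w x).trace + (u x * Dw x a).trace)) +
        2⁻¹ * Complex.I * (ψ x * ((Du x b * w x).trace + (u x * Dw x b).trace))) :=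
    integral_congr_ae (Eventually.of_forall fun x => by
      simp only [d2, ← ha, ← hb, Matrix.smul_mul, Matrix.mul_smul, Matrix.add_mul,
        Matrix.mul_add, trace_smul, trace_add, smul_eq_mul]
      ring)
  rw [e1, e2, h1, h2]
  ring

end Pool.Agent.PW
end
end

-- part Pool.Agent.P.MP_65ad7c_ag.RGlob
section

open MeasureTheory Set Filter Topology Metric Matrix
open scoped ComplexOrder ContDiff Matrix.Norms.Frobenius RealInnerProductSpace ENNReal
open Pool.Agent.Lib.Sob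

noncomputable section
namespace Pool.Agent.PW

variable {n r : ℕ} {Γ : Type} [Group Γ]

theorem SP_add (G : Fin n → Fin n → Fin n → Fin n → ℂ) (A : EC n →L[ℝ] Mat r)
    (p p' : EC n →L[ℝ] ℝ) (q q' : EC n →L[ℝ] EC n →L[ℝ] ℝ) :
    SP G A (p + p') (q + q') = SP G A p q + SP G A p' q' := by
  have e1 : ∀ l, d1 (cx (p + p')) l = d1 (cx p) l + d1 (cx p') l := fun l => by
    simp only [← d1L_apply, cx, ContinuousLinearMap.comp_add, map_add]
  have e2 : ∀ l, d2 (cx (p + p')) l = d2 (cx p) l + d2 (cx p') l := fun l => by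
    simp only [← d2L_apply, cx, ContinuousLinearMap.comp_add, map_add]
  have e3 : ∀ l m, d12 (cx2 (q + q')) l m = d12 (cx2 q) l m + d12 (cx2 q') l m := fun l m => by
    simp only [← d1_d2L, ← d1L_apply, cx2, ContinuousLinearMap.comp_add, map_add]
  simp only [SP, e1, e2, e3, ← Finset.sum_add_distrib]
  refine Finset.sum_congr rfl fun j _ => Finset.sum_congr rfl fun k _ =>
    Finset.sum_congr rfl fun l _ => Finset.sum_congr rfl fun m _ => ?_
  ring

/-- second order chain rule under a holomorphic map -/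
theorem chain_two {O : Set (EC n)} (hO : IsOpen O) {T : EC n → EC n}
    (hT : DifferentiableOn ℂ T O) (hT' : ContDiffOn ℝ ∞ T O) {x : EC n} (hx : x ∈ O) :
    fderiv ℝ T x = (fderiv ℂ T x).restrictScalars ℝ ∧
    ∃ S : EC n →L[ℝ] EC n →L[ℝ] EC n, (∀ v w, S (Complex.I • v) w = Complex.I • S v w) ∧
      (∀ v w, S v (Complex.I • w) = Complex.I • S v w) ∧
      ∀ φ : EC n → ℝ, ContDiffAt ℝ 2 φ (T x) →
        (∀ v, fderiv ℝ (fun y => φ (T y)) x v = fderiv ℝ φ (T x) (fderiv ℂ T x v)) ∧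
        ∀ v w, fderiv ℝ (fderiv ℝ fun y => φ (T y)) x v w =
          fderiv ℝ (fderiv ℝ φ) (T x) (fderiv ℂ T x v) (fderiv ℂ T x w) +
            fderiv ℝ φ (T x) (S v w) := by
  have h1 : ∀ y ∈ O, fderiv ℝ T y = (fderiv ℂ T y).restrictScalars ℝ := fun y hy =>
    ((hT.differentiableAt (hO.mem_nhds hy)).hasFDerivAt.restrictScalars ℝ).fderiv
  have hx' : ContDiffAt ℝ 2 T x := (hT'.contDiffAt (hO.mem_nhds hx)).of_le (by norm_cast)
  have hd : DifferentiableAt ℝ (fderiv ℝ T) x :=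
    (hx'.fderiv_right (m := 1) (by norm_num)).differentiableAt one_ne_zero
  have hap : ∀ v w, fderiv ℝ (fun y => fderiv ℝ T y w) x v = fderiv ℝ (fderiv ℝ T) x v w := by
    intro v w
    rw [fderiv_clm_apply hd (differentiableAt_const w)]
    simp
  have h2 : ∀ v w, fderiv ℝ (fderiv ℝ T) x v (Complex.I • w) =
      Complex.I • fderiv ℝ (fderiv ℝ T) x v w := by
    intro v w
    have e : (fun y => fderiv ℝ T y (Complex.I • w)) =ᶠ[𝓝 x]
        fun y => IL n (fderiv ℝ T y w) := by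
      filter_upwards [hO.mem_nhds hx] with y hy
      simp [h1 y hy]
    have hw : DifferentiableAt ℝ (fun y => fderiv ℝ T y w) x :=
      hd.clm_apply (differentiableAt_const w)
    rw [← hap, ← hap, e.fderiv_eq]
    exact congrArg (fun L : EC n →L[ℝ] EC n => L v)
      ((IL n).hasFDerivAt.comp x hw.hasFDerivAt).fderiv
  have hs : IsSymmSndFDerivAt ℝ T x := hx'.isSymmSndFDerivAt (by simp)
  refine ⟨h1 x hx, fderiv ℝ (fderiv ℝ T) x, fun v w => by rw [hs.eq, h2, hs.eq], h2,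
    fun φ hφ => ?_⟩
  have hT1 : DifferentiableAt ℝ T x := hx'.differentiableAt (by norm_num)
  have hφ1 : DifferentiableAt ℝ φ (T x) := hφ.differentiableAt (by norm_num)
  have hφ2 : DifferentiableAt ℝ (fderiv ℝ φ) (T x) :=
    (hφ.fderiv_right (m := 1) (by norm_num)).differentiableAt one_ne_zero
  refine ⟨fun v => ?_, fun v w => ?_⟩
  · have := (hφ1.hasFDerivAt.comp x hT1.hasFDerivAt).fderiv
    rw [h1 x hx] at this
    exact congrArg (fun L : EC n →L[ℝ] ℝ => L v) this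
  · have e : fderiv ℝ (fun y => φ (T y)) =ᶠ[𝓝 x]
        fun y => (fderiv ℝ φ (T y)).comp (fderiv ℝ T y) := by
      filter_upwards [hT1.continuousAt.eventually (hφ.eventually (by simp)),
        hx'.eventually (by simp)] with y a b
      exact ((a.differentiableAt (by norm_num)).hasFDerivAt.comp y
        (b.differentiableAt (by norm_num)).hasFDerivAt).fderiv
    have := ((hφ2.hasFDerivAt.comp x hT1.hasFDerivAt).clm_comp hd.hasFDerivAt).fderiv
    rw [e.fderiv_eq]
    refine (congrArg (fun L : EC n →L[ℝ] EC n →L[ℝ] ℝ => L v w) this).trans ?_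
    simp [h1 x hx, add_comm]

theorem rglob_mul {U : Set (EC n)} {c F : EC n → ℂ} (hc : ContinuousOn c U) (hF : LocLp 1 U F) :
    LocLp 1 U fun x => c x * F x :=
  locLp_bilin_lb (m := 1) (ContinuousLinearMap.mul ℝ ℂ) (LocLp.of_continuousOn hc)
    (LB.of_continuousOn hc) hF

theorem rglob_sum {U : Set (EC n)} {f : Fin n → EC n → ℂ} (hf : ∀ i, LocLp 1 U (f i)) :
    LocLp 1 U fun x => ∑ i, f i x :=
  fun K hK hKU => memLp_finsetSum _ fun i _ => hf i K hK hKU

theorem rglob_c1 {U : Set (EC n)} {p : EC n → EC n →L[ℝ] ℝ} (hp : ContinuousOn p U) (l : Fin n) :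
    ContinuousOn (fun x => 2⁻¹ * d1 (cx (p x)) l) U := by
  have h1 : ∀ v, ContinuousOn (fun x => (p x v : ℂ)) U := fun v =>
    Complex.continuous_ofReal.comp_continuousOn (hp.clm_apply continuousOn_const)
  simp only [d1, cx, ContinuousLinearMap.comp_apply, Complex.ofRealCLM_apply, smul_eq_mul]
  exact continuousOn_const.mul (continuousOn_const.mul ((h1 _).sub (continuousOn_const.mul (h1 _))))

theorem rglob_c2 {U : Set (EC n)} {p : EC n → EC n →L[ℝ] ℝ} (hp : ContinuousOn p U) (l : Fin n) :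
    ContinuousOn (fun x => 2⁻¹ * d2 (cx (p x)) l) U := by
  have h1 : ∀ v, ContinuousOn (fun x => (p x v : ℂ)) U := fun v =>
    Complex.continuous_ofReal.comp_continuousOn (hp.clm_apply continuousOn_const)
  simp only [d2, cx, ContinuousLinearMap.comp_apply, Complex.ofRealCLM_apply, smul_eq_mul]
  exact continuousOn_const.mul (continuousOn_const.mul ((h1 _).add (continuousOn_const.mul (h1 _))))

theorem rglob_c3 {U : Set (EC n)} {q : EC n → EC n →L[ℝ] EC n →L[ℝ] ℝ} (hq : ContinuousOn q U)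
    (l m : Fin n) : ContinuousOn (fun x => d12 (cx2 (q x)) l m) U := by
  have h1 : ∀ v w, ContinuousOn (fun x => (q x v w : ℂ)) U := fun v w =>
    Complex.continuous_ofReal.comp_continuousOn
      ((hq.clm_apply continuousOn_const).clm_apply continuousOn_const)
  have h2 : ∀ v, ContinuousOn (fun x => d2 (cx2 (q x) v) m) U := fun v => by
    simp only [d2, cx2, ContinuousLinearMap.comp_apply, ContinuousLinearMap.compL_apply,
      Complex.ofRealCLM_apply, smul_eq_mul]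
    exact continuousOn_const.mul ((h1 _ _).add (continuousOn_const.mul (h1 _ _)))
  simp only [d12, smul_eq_mul]
  exact continuousOn_const.mul ((h2 _).sub (continuousOn_const.mul (h2 _)))

theorem rglob_cm {U : Set (EC n)} {A : EC n → EC n →L[ℝ] Mat r}
    {β : EC n → EC n →L[ℝ] EC n →L[ℝ] Mat r} (hA : WD 2 U A β)
    (hf : ∀ᵐ x, x ∈ U → JFlat (A x) (β x)) (l j : Fin n) :
    (LocLp 2 U fun x => cm (d1 (A x) l) (d1 (A x) j)) ∧
      LocLp 2 U fun x => cm (d2 (A x) l) (d2 (A x) j) := by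
  have b1 : ∀ l j, LocLp 2 U fun x => d11 (β x) l j := fun l j =>
    (hA.clm (by norm_num) (d1L j)).2.1.clm (d1L l)
  have b2 : ∀ l j, LocLp 2 U fun x => d22 (β x) l j := fun l j =>
    (hA.clm (by norm_num) (d2L j)).2.1.clm (d2L l)
  refine ⟨((b1 l j).sub (b1 j l)).neg.congr ?_, ((b2 l j).sub (b2 j l)).neg.congr ?_⟩
  · filter_upwards [hf] with x hx hxU
    rw [(hx hxU).d11_sub, neg_neg]
  · filter_upwards [hf] with x hx hxU
    rw [(hx hxU).d22_sub, neg_neg]

theorem locLp_SP {U : Set (EC n)} (hU : IsOpen U) {g : EC n → Mat n} (hg : IsKahlerOn U g)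
    {A : EC n → EC n →L[ℝ] Mat r} {β : EC n → EC n →L[ℝ] EC n →L[ℝ] Mat r} (hA : WD 2 U A β)
    (hf : ∀ᵐ x, x ∈ U → JFlat (A x) (β x)) {φ : EC n → ℝ} (hφ : ContDiffOn ℝ ∞ φ U) :
    LocLp 1 U fun x => SP (kG (g x)) (A x) (fderiv ℝ φ x) (fderiv ℝ (fderiv ℝ φ) x) := by
  have hp : ContinuousOn (fderiv ℝ φ) U := hφ.continuousOn_fderiv_of_isOpen hU (by simp)
  have hq : ContinuousOn (fderiv ℝ (fderiv ℝ φ)) U :=
    (hφ.fderiv_of_isOpen (m := 1) hU (by norm_cast)).continuousOn_fderiv_of_isOpen hU le_rfl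
  have a1 : ∀ j, LocLp 2 U fun x => d1 (A x) j := fun j => hA.1.clm (d1L j)
  have a2 : ∀ j, LocLp 2 U fun x => d2 (A x) j := fun j => hA.1.clm (d2L j)
  unfold SP
  refine rglob_sum fun j => rglob_sum fun k => rglob_sum fun l => rglob_sum fun m =>
    rglob_mul (kG_contDiffOn hg j k l m).continuousOn ?_
  exact ((rglob_mul (rglob_c3 hq l m) (locLp_trace (a1 j) (a2 k))).sub
    (rglob_mul (rglob_c1 hp l) (locLp_trace (a1 j) (rglob_cm hA hf m k).2))).sub
      (rglob_mul (rglob_c2 hp m) (locLp_trace (rglob_cm hA hf l j).1 (a2 k)))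

theorem IsKahlerOn.mono {U U' : Set (EC n)} {g : EC n → Mat n} (hg : IsKahlerOn U g)
    (hU : U' ⊆ U) : IsKahlerOn U' g :=
  ⟨fun j k => (hg.1 j k).mono hU, fun z hz => hg.2.1 z (hU hz), fun z hz => hg.2.2 z (hU hz)⟩

/-- the boundary terms cancel -/
theorem sum_SP_zero (A : KAtlas n Γ) {U : Set (EC n)} (hU : IsOpen U) (hU6 : U ⊆ ball 0 6)
    {χ : A.ι → EC n → ℝ} (hχ : A.Pou U χ) {ρ : Γ →* Mat r} {h : A.ι → EC n → Mat r}
    {D : A.ι → EC n → EC n →L[ℝ] Mat r} {β : A.ι → EC n → EC n →L[ℝ] EC n →L[ℝ] Mat r}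
    (hw : ∀ a, WD 2 U (h a) (D a)) (hm : A.MC U ρ h) (hp : ∀ a, ∀ x ∈ U, (h a x).PosDef)
    (hA : ∀ a, WD 2 U (fun x => mc (h a x) (D a x)) (β a))
    (hf : ∀ a, ∀ᵐ x, x ∈ U → JFlat (mc (h a x) (D a x)) (β a x)) :
    ∑ a, ∫ x, SP (kG (A.g a x)) (mc (h a x) (D a x)) (fderiv ℝ (χ a) x)
      (fderiv ℝ (fderiv ℝ (χ a)) x) = 0 := by
  refine A.toPre.pou_zero hU hU6 hχ (fun a x p q => SP (kG (A.g a x)) (mc (h a x) (D a x)) p q)
    (fun a x p p' q q' => SP_add _ _ p p' q q')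
    (fun a φ hφ => locLp_SP hU ((A.kae a).mono hU6) (hA a) (hf a) hφ) fun a b => ?_
  filter_upwards [A.toPre.mc_compat hU hw hm hp a b] with x hx hx' φ hφ
  obtain ⟨h1, S, hS, hS', h2⟩ := chain_two (A.O_open a b) (A.hol a b) (A.T_smooth a b) hx'.1
  obtain ⟨h3, h4⟩ := h2 φ hφ
  have h5 := SP_inv (fderiv ℂ (A.T a b) x) ((A.kae a).2.1 x (hU6 hx'.2.1))
    ((A.kae b).2.1 _ (hU6 hx'.2.2)) (A.g_inv a b x hx'.1) (rep_inv_mul ρ (A.c a b x))
    (Aa := mc (h a x) (D a x)) (Ab := mc (h b (A.T a b x)) (D b (A.T a b x)))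
    (fun v => by rw [hx hx' v, h1]; rfl) h3 hS hS' h4
  rw [h5, Pre.jac, h1, Complex.real_smul]

end Pool.Agent.PW
end
end

-- part Pool.Agent.P.MP_65ad7c_ag.RHarm
section

open MeasureTheory Set Filter Topology Metric Matrix
open scoped ComplexOrder ContDiff Matrix.Norms.Frobenius RealInnerProductSpace ENNReal
open Pool.Agent.Lib.Sob

noncomputable section
namespace Pool.Agent.PW

variable {E : Type} [NormedAddCommGroup E] [InnerProductSpace ℝ E] [FiniteDimensional ℝ E]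
  [MeasurableSpace E] [BorelSpace E] {r : ℕ} {U : Set E}
  {V : Type} [NormedAddCommGroup V] [NormedSpace ℝ V]

omit [FiniteDimensional ℝ E] [MeasurableSpace E] [BorelSpace E] in
theorem rharm_glue (hU : IsOpen U) {f : E → V} {K : Set E} (hK : IsClosed K) (hKU : K ⊆ U)
    (hf : ContDiffOn ℝ ∞ f U) (h0 : ∀ x ∉ K, f x = 0) : ContDiff ℝ ∞ f := by
  refine contDiff_iff_contDiffAt.2 fun x => ?_
  by_cases hx : x ∈ U
  · exact hf.contDiffAt (hU.mem_nhds hx)
  · have : f =ᶠ[𝓝 x] fun _ => 0 := by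
      filter_upwards [hK.isOpen_compl.mem_nhds fun h => hx (hKU h)] with y hy using h0 y hy
    exact contDiffAt_const.congr_of_eventuallyEq this

omit [FiniteDimensional ℝ E] [MeasurableSpace E] [BorelSpace E] in
theorem rharm_dtest {φ : E → ℝ} (hφ : IsTest U φ) (v : E) :
    IsTest U fun x => fderiv ℝ φ x v :=
  ⟨(hφ.1.fderiv_right (m := ∞) le_rfl).clm_apply contDiff_const, hφ.2.1.fderiv_apply ℝ v,
    (tsupport_fderiv_apply_subset ℝ v).trans hφ.2.2⟩

omit [NormedSpace ℝ V] in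
theorem rharm_sum {ι : Type} (s : Finset ι) {n : ℕ} {f : ι → E → V} (h : ∀ i, LocLp n U (f i)) :
    LocLp n U fun x => ∑ i ∈ s, f i x := fun K hK hKU =>
  memLp_finsetSum s fun i _ => h i K hK hKU

omit [FiniteDimensional ℝ E] [MeasurableSpace E] [BorelSpace E] in
/-- a test function times a function smooth on `U` -/
theorem isTest_mul_of_contDiffOn (hU : IsOpen U) {φ ζ : E → ℝ} (hφ : IsTest U φ)
    (hζ : ContDiffOn ℝ ∞ ζ U) : IsTest U fun x => φ x * ζ x := by
  refine ⟨rharm_glue hU (isClosed_tsupport φ) hφ.2.2 (hφ.1.contDiffOn.mul hζ) fun x hx => ?_,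
    hφ.2.1.mul_right, (tsupport_mul_subset_left).trans hφ.2.2⟩
  rw [image_eq_zero_of_notMem_tsupport hx, zero_mul]

omit [FiniteDimensional ℝ E] [MeasurableSpace E] [BorelSpace E] in
/-- complex version -/
theorem isTestC_mul_of_contDiffOn (hU : IsOpen U) {φ : E → ℝ} {ζ : E → ℂ} (hφ : IsTest U φ)
    (hζ : ContDiffOn ℝ ∞ ζ U) : IsTestC U fun x => (φ x : ℂ) * ζ x := by
  have h0 : ∀ x ∉ tsupport φ, (φ x : ℂ) * ζ x = 0 := fun x hx => by
    rw [image_eq_zero_of_notMem_tsupport hx, Complex.ofReal_zero, zero_mul]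
  have hs : tsupport (fun x => (φ x : ℂ) * ζ x) ⊆ tsupport φ :=
    closure_minimal (fun x hx => by by_contra h; exact hx (h0 x h)) (isClosed_tsupport φ)
  exact ⟨rharm_glue hU (isClosed_tsupport φ) hφ.2.2
    ((Complex.ofRealCLM.contDiff.comp hφ.1).contDiffOn.mul hζ) h0,
    hφ.2.1.of_isClosed_subset (isClosed_tsupport _) hs, hs.trans hφ.2.2⟩

omit [FiniteDimensional ℝ E] [MeasurableSpace E] [BorelSpace E] in
/-- complex version -/
theorem IsTestC.mul_contDiffOn (hU : IsOpen U) {ψ ζ : E → ℂ} (hψ : IsTestC U ψ)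
    (hζ : ContDiffOn ℝ ∞ ζ U) : IsTestC U fun x => ψ x * ζ x := by
  refine ⟨rharm_glue hU (isClosed_tsupport ψ) hψ.2.2 (hψ.1.contDiffOn.mul hζ) fun x hx => ?_,
    hψ.2.1.mul_right, (tsupport_mul_subset_left).trans hψ.2.2⟩
  rw [image_eq_zero_of_notMem_tsupport hx, zero_mul]

/-- fundamental lemma of the calculus of variations -/
theorem ae_zero_of_tests [CompleteSpace V] (hU : IsOpen U) {F : E → V} (hF : LocLp 1 U F)
    (h : ∀ φ, IsTest U φ → ∫ x, φ x • F x = 0) : ∀ᵐ x, x ∈ U → F x = 0 := by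
  exact hU.ae_eq_zero_of_integral_contDiff_smul_eq_zero (hF.locallyIntegrableOn le_rfl hU)
    fun g a b c => h g ⟨a, b, c⟩

/-- weak second derivatives are symmetric -/
theorem second_symm [CompleteSpace V] (hU : IsOpen U) {u : E → V} {D : E → E →L[ℝ] V}
    (hu : WD 1 U u D) {v w : E} {γv γw : E → E →L[ℝ] V} (hv : WD 1 U (fun x => D x v) γv)
    (hw : WD 1 U (fun x => D x w) γw) : ∀ᵐ x, x ∈ U → γw x v = γv x w := by
  have l1 := hw.2.1.apply v
  have l2 := hv.2.1.apply w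
  have key := ae_zero_of_tests hU (l1.sub l2) fun φ hφ => ?_
  · filter_upwards [key] with x hx hxU using sub_eq_zero.1 (hx hxU)
  simp only [smul_sub]
  rw [integral_sub (l1.integrable_test le_rfl hφ) (l2.integrable_test le_rfl hφ), sub_eq_zero,
    ← neg_inj, ← hw.2.2 φ hφ v, ← hv.2.2 φ hφ w, ← neg_inj, ← hu.2.2 _ (rharm_dtest hφ v) w,
    ← hu.2.2 _ (rharm_dtest hφ w) v]
  refine integral_congr_ae (Eventually.of_forall fun x => ?_)
  have hd : DifferentiableAt ℝ (fderiv ℝ φ) x :=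
    (hφ.1.fderiv_right (m := 1) (by norm_cast)).differentiable one_ne_zero x
  have e : ∀ a b : E, fderiv ℝ (fun y => fderiv ℝ φ y a) x b = fderiv ℝ (fderiv ℝ φ) x b a := by
    intro a b
    rw [fderiv_clm_apply hd (differentiableAt_const a)]
    simp
  have hs : IsSymmSndFDerivAt ℝ φ x :=
    hφ.1.contDiffAt.isSymmSndFDerivAt (by simp only [minSmoothness_of_isRCLikeNormedField]; norm_cast)
  simp only [e]
  rw [hs.eq w v]

/-- the strong form of the harmonic map equation -/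
theorem harm_ae (hU : IsOpen U) {α : E → E →L[ℝ] E} (hα : ContDiffOn ℝ ∞ α U) (hd : DivFree U α)
    {A : E → E →L[ℝ] Mat r} {β : E → E →L[ℝ] E →L[ℝ] Mat r} (hA : WD 2 U A β)
    (hh : Harm U α A) : ∀ᵐ x, x ∈ U → ∑ p, β x (α x (ob E p)) (ob E p) = 0 := by
  set a : Fin (Module.finrank ℝ E) → Fin (Module.finrank ℝ E) → E → ℝ :=
    fun p q x => ⟪ob E q, α x (ob E p)⟫ with ha
  have sa : ∀ p q, ContDiffOn ℝ ∞ (a p q) U := fun p q =>
    contDiffOn_const.inner ℝ (hα.clm_apply contDiffOn_const)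
  have ex : ∀ p x, α x (ob E p) = ∑ q, a p q x • ob E q := fun p x =>
    ((ob E).sum_repr' _).symm
  have hp : ∀ p, WD 2 U (fun x => A x (ob E p))
      fun x => (ContinuousLinearMap.apply ℝ (Mat r) (ob E p)).comp (β x) := fun p =>
    hA.clm (by norm_num) (ContinuousLinearMap.apply ℝ (Mat r) (ob E p))
  have lβ : ∀ p q, LocLp 2 U fun x => β x (ob E q) (ob E p) := fun p q => (hp p).2.1.apply _
  have eF : ∀ x, ∑ p, β x (α x (ob E p)) (ob E p) =
      ∑ p, ∑ q, a p q x • β x (ob E q) (ob E p) := by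
    intro x
    refine Finset.sum_congr rfl fun p _ => ?_
    rw [ex p x, map_sum, _root_.sum_apply]
    refine Finset.sum_congr rfl fun q _ => ?_
    rw [map_smul, _root_.smul_apply]
  simp only [eF]
  refine ae_zero_of_tests hU (locLp_one_of_two (rharm_sum _ fun p => rharm_sum _ fun q =>
    (lβ p q).smul (sa p q).continuousOn)) fun φ hφ => ?_
  have hψ : ∀ p q, IsTest U fun x => φ x * a p q x := fun p q =>
    isTest_mul_of_contDiffOn hU hφ (sa p q)
  have hdiv : ∀ p x, ∑ q, fderiv ℝ (fun y => φ y * a p q y) x (ob E q) =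
      fderiv ℝ φ x (α x (ob E p)) := by
    intro p x
    by_cases hx : x ∈ U
    · have dα : HasFDerivAt α (fderiv ℝ α x) x :=
        ((hα.contDiffAt (hU.mem_nhds hx)).differentiableAt (by simp)).hasFDerivAt
      have da : ∀ q, fderiv ℝ (fun y => φ y * a p q y) x (ob E q) =
          φ x * ⟪ob E q, fderiv ℝ α x (ob E q) (ob E p)⟫ + a p q x * fderiv ℝ φ x (ob E q) := by
        intro q
        have h1 : HasFDerivAt (a p q) (((innerSL ℝ (ob E q)).comp
            (ContinuousLinearMap.apply ℝ E (ob E p))).comp (fderiv ℝ α x)) x :=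
          ((innerSL ℝ (ob E q)).comp
            (ContinuousLinearMap.apply ℝ E (ob E p))).hasFDerivAt.comp x dα
        rw [fderiv_fun_mul (hφ.differentiable x) h1.differentiableAt, h1.fderiv]
        simp
      simp only [da]
      rw [Finset.sum_add_distrib, ← Finset.mul_sum, hd x hx, mul_zero, zero_add, ex p x, map_sum]
      simp only [map_smul, smul_eq_mul]
    · simp [hφ.fderiv_zero_of_notMem hx, (hψ p _).fderiv_zero_of_notMem hx]
  have i1 : ∀ p q, Integrable fun x => (φ x * a p q x) • β x (ob E q) (ob E p) := fun p q =>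
    (lβ p q).integrable_test (by norm_num) (hψ p q)
  have i2 : ∀ p q, Integrable fun x =>
      fderiv ℝ (fun y => φ y * a p q y) x (ob E q) • A x (ob E p) := fun p q =>
    (hp p).1.integrable_dtest (by norm_num) (hψ p q) _
  have e1 : ∫ x, ∑ p, fderiv ℝ φ x (α x (ob E p)) • A x (ob E p) =
      ∑ p, ∑ q, ∫ x, fderiv ℝ (fun y => φ y * a p q y) x (ob E q) • A x (ob E p) := by
    simp only [← hdiv, Finset.sum_smul]
    rw [integral_finsetSum _ fun p _ => integrable_finsetSum _ fun q _ => i2 p q]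
    exact Finset.sum_congr rfl fun p _ => integral_finsetSum _ fun q _ => i2 p q
  have e2 : ∫ x, φ x • ∑ p, ∑ q, a p q x • β x (ob E q) (ob E p) =
      ∑ p, ∑ q, ∫ x, (φ x * a p q x) • β x (ob E q) (ob E p) := by
    simp only [Finset.smul_sum, smul_smul]
    rw [integral_finsetSum _ fun p _ => integrable_finsetSum _ fun q _ => i1 p q]
    exact Finset.sum_congr rfl fun p _ => integral_finsetSum _ fun q _ => i1 p q
  rw [e2, ← neg_eq_zero, ← hh φ hφ, e1, ← Finset.sum_neg_distrib]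
  refine Finset.sum_congr rfl fun p _ => ?_
  rw [← Finset.sum_neg_distrib]
  exact Finset.sum_congr rfl fun q _ => ((hp p).2.2 _ (hψ p q) (ob E q)).symm

/-- from the strong to the weak form of closedness -/
theorem wcurl_of_ae {A : E → E →L[ℝ] Mat r} {β : E → E →L[ℝ] E →L[ℝ] Mat r} (hA : WD 2 U A β)
    (L : E →L[ℝ] E) (h : ∀ᵐ x, x ∈ U → ∀ v w, β x v (L w) = β x w (L v)) :
    WCurl U (fun x => (A x).comp L) fun _ _ _ => 0 := by
  intro φ hφ v w
  have hp : ∀ z, WD 2 U (fun x => A x z)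
      fun x => (ContinuousLinearMap.apply ℝ (Mat r) z).comp (β x) := fun z =>
    hA.clm (by norm_num) (ContinuousLinearMap.apply ℝ (Mat r) z)
  simp only [ContinuousLinearMap.comp_apply, smul_zero, integral_zero, neg_zero]
  rw [integral_sub ((hp (L w)).1.integrable_dtest (by norm_num) hφ v)
    ((hp (L v)).1.integrable_dtest (by norm_num) hφ w), (hp (L w)).2.2 φ hφ v,
    (hp (L v)).2.2 φ hφ w, sub_eq_zero, neg_inj]
  refine integral_congr_ae ?_
  filter_upwards [h] with x hx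
  by_cases hxU : x ∈ U
  · change φ x • β x v (L w) = φ x • β x w (L v)
    rw [hx hxU]
  · simp [hφ.zero_of_notMem hxU]

end Pool.Agent.PW
end
end

-- part Pool.Agent.P.MP_65ad7c_ag.RLocal
section

open MeasureTheory Set Filter Topology Metric Matrix
open scoped ComplexOrder ContDiff Matrix.Norms.Frobenius RealInnerProductSpace ENNReal
open Pool.Agent.Lib.Sob

noncomputable section
namespace Pool.Agent.PW

variable {n r : ℕ} {U : Set (EC n)} {g : EC n → Mat n} {A : EC n → EC n →L[ℝ] Mat r}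
  {β : EC n → EC n →L[ℝ] EC n →L[ℝ] Mat r}

theorem loc_int4 (f : Fin n → Fin n → Fin n → Fin n → EC n → ℂ)
    (hf : ∀ j k l m, Integrable (f j k l m)) :
    Integrable (fun x => ∑ j, ∑ k, ∑ l, ∑ m, f j k l m x) ∧
      ∫ x, ∑ j, ∑ k, ∑ l, ∑ m, f j k l m x = ∑ j, ∑ k, ∑ l, ∑ m, ∫ x, f j k l m x := by
  have h1 : ∀ j k l, Integrable fun x => ∑ m, f j k l m x :=
    fun j k l => integrable_finsetSum _ fun m _ => hf j k l m
  have h2 : ∀ j k, Integrable fun x => ∑ l, ∑ m, f j k l m x :=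
    fun j k => integrable_finsetSum _ fun l _ => h1 j k l
  have h3 : ∀ j, Integrable fun x => ∑ k, ∑ l, ∑ m, f j k l m x :=
    fun j => integrable_finsetSum _ fun k _ => h2 j k
  refine ⟨integrable_finsetSum _ fun j _ => h3 j, ?_⟩
  rw [integral_finsetSum _ fun j _ => h3 j]
  refine Finset.sum_congr rfl fun j _ => ?_
  rw [integral_finsetSum _ fun k _ => h2 j k]
  refine Finset.sum_congr rfl fun k _ => ?_
  rw [integral_finsetSum _ fun l _ => h1 j k l]
  exact Finset.sum_congr rfl fun l _ => integral_finsetSum _ fun m _ => hf j k l m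

theorem loc_test_clm {ψ : EC n → ℂ} (hψ : IsTestC U ψ) (L : (EC n →L[ℝ] ℂ) →L[ℝ] ℂ) :
    IsTestC U fun x => L (fderiv ℝ ψ x) := by
  have h1 : tsupport (fun x => L (fderiv ℝ ψ x)) ⊆ tsupport ψ :=
    (tsupport_comp_subset (g := L) (map_zero L) _).trans (tsupport_fderiv_subset ℝ)
  exact ⟨L.contDiff.comp (hψ.1.fderiv_right (m := ∞) (by simp)),
    hψ.2.1.of_isClosed_subset (isClosed_tsupport _) h1, h1.trans hψ.2.2⟩

theorem loc_int {ψ F : EC n → ℂ} (hψ : IsTestC U ψ) (hF : LocLp 1 U F) :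
    Integrable fun x => ψ x * F x := integrable_testC hψ.1.continuous hψ.2.1 hψ.2.2 hF

theorem loc_zero {ψ : EC n → ℂ} (hψ : IsTestC U ψ) {x : EC n} (hx : x ∉ U) :
    ψ x = 0 ∧ fderiv ℝ ψ x = 0 :=
  ⟨image_eq_zero_of_notMem_tsupport fun h => hx (hψ.2.2 h),
    image_eq_zero_of_notMem_tsupport fun h => hx (hψ.2.2 (tsupport_fderiv_subset ℝ h))⟩

theorem loc_d1_mul {f G : EC n → ℂ} {x : EC n} (hf : DifferentiableAt ℝ f x)
    (hG : DifferentiableAt ℝ G x) (l : Fin n) :
    d1 (fderiv ℝ (fun y => f y * G y) x) l =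
      f x * d1 (fderiv ℝ G x) l + G x * d1 (fderiv ℝ f x) l := by
  rw [fderiv_fun_mul hf hG]
  simp only [d1, _root_.add_apply, _root_.smul_apply, smul_eq_mul]
  ring

theorem loc_d2_mul {f G : EC n → ℂ} {x : EC n} (hf : DifferentiableAt ℝ f x)
    (hG : DifferentiableAt ℝ G x) (l : Fin n) :
    d2 (fderiv ℝ (fun y => f y * G y) x) l =
      f x * d2 (fderiv ℝ G x) l + G x * d2 (fderiv ℝ f x) l := by
  rw [fderiv_fun_mul hf hG]
  simp only [d2, _root_.add_apply, _root_.smul_apply, smul_eq_mul]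
  ring

theorem loc_fderiv_ofReal {χ : EC n → ℝ} (hχ : Differentiable ℝ χ) (x : EC n) :
    fderiv ℝ (fun y => (χ y : ℂ)) x = cx (fderiv ℝ χ x) :=
  (Complex.ofRealCLM.hasFDerivAt.comp x (hχ x).hasFDerivAt).fderiv

theorem loc_second {χ : EC n → ℝ} (hχ : ContDiff ℝ ∞ χ) (x : EC n) (l m : Fin n) :
    d2 (fderiv ℝ (fun y => d1 (cx (fderiv ℝ χ y)) l) x) m =
      d12 (cx2 (fderiv ℝ (fderiv ℝ χ) x)) l m := by
  have h1 : DifferentiableAt ℝ (fderiv ℝ χ) x :=
    ((hχ.fderiv_right (m := 1) (by norm_cast)).differentiable one_ne_zero) x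
  have h2 : HasFDerivAt (fun y => d1 (cx (fderiv ℝ χ y)) l)
      (((d1L l).comp (ContinuousLinearMap.compL ℝ (EC n) ℝ ℂ Complex.ofRealCLM)).comp
        (fderiv ℝ (fderiv ℝ χ) x)) x :=
    ((d1L l).comp (ContinuousLinearMap.compL ℝ (EC n) ℝ ℂ Complex.ofRealCLM)).hasFDerivAt.comp x
      h1.hasFDerivAt
  have h3 := (hχ.contDiffAt (x := x)).isSymmSndFDerivAt (by simp; norm_cast)
  rw [h2.fderiv]
  simp only [d2, d1, d12, cx2, ContinuousLinearMap.comp_apply, d1L_apply,
    ContinuousLinearMap.compL_apply, Complex.ofRealCLM_apply, smul_eq_mul]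
  rw [h3.eq (EuclideanSpace.single m 1) (EuclideanSpace.single l 1),
    h3.eq (EuclideanSpace.single m 1) (EuclideanSpace.single l Complex.I),
    h3.eq (EuclideanSpace.single m Complex.I) (EuclideanSpace.single l 1),
    h3.eq (EuclideanSpace.single m Complex.I) (EuclideanSpace.single l Complex.I)]
  ring

theorem loc_lp_d11 (hβ : LocLp 2 U β) (l j : Fin n) : LocLp 2 U fun x => d11 (β x) l j :=
  (hβ.clm (ContinuousLinearMap.compL ℝ (EC n) (EC n →L[ℝ] Mat r) (Mat r) (d1L j))).clm (d1L l)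

theorem loc_lp_d12 (hβ : LocLp 2 U β) (l k : Fin n) : LocLp 2 U fun x => d12 (β x) l k :=
  (hβ.clm (ContinuousLinearMap.compL ℝ (EC n) (EC n →L[ℝ] Mat r) (Mat r) (d2L k))).clm (d1L l)

theorem loc_lp_d21 (hβ : LocLp 2 U β) (m j : Fin n) : LocLp 2 U fun x => d21 (β x) m j :=
  (hβ.clm (ContinuousLinearMap.compL ℝ (EC n) (EC n →L[ℝ] Mat r) (Mat r) (d1L j))).clm (d2L m)

theorem loc_lp_d22 (hβ : LocLp 2 U β) (m k : Fin n) : LocLp 2 U fun x => d22 (β x) m k :=
  (hβ.clm (ContinuousLinearMap.compL ℝ (EC n) (EC n →L[ℝ] Mat r) (Mat r) (d2L k))).clm (d2L m)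

theorem loc_lp_sum {ι : Type} [Fintype ι] {f : ι → EC n → ℂ} (hf : ∀ i, LocLp 1 U (f i)) :
    LocLp 1 U fun x => ∑ i, f i x := fun K hK hKU =>
  memLp_finsetSum _ fun i _ => hf i K hK hKU

theorem loc_lp_mul {c F : EC n → ℂ} (hc : ContinuousOn c U) (hF : LocLp 1 U F) :
    LocLp 1 U fun x => c x * F x :=
  locLp_bilin_lb (m := 1) (ContinuousLinearMap.mul ℝ ℂ) (LocLp.of_continuousOn hc)
    (LB.of_continuousOn hc) hF

theorem locLp_SF (_hU : IsOpen U) (hg : IsKahlerOn U g) (hA : WD 2 U A β)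
    (hf : ∀ᵐ x, x ∈ U → JFlat (A x) (β x)) :
    LocLp 1 U fun x => SF (kG (g x)) (A x) (β x) := by
  have h1 : LocLp 1 U fun x => SF2 (kG (g x)) (β x) :=
    loc_lp_sum fun j => loc_lp_sum fun k => loc_lp_sum fun l => loc_lp_sum fun m =>
      loc_lp_mul (kG_contDiffOn hg j k l m).continuousOn
        ((locLp_trace (loc_lp_d21 hA.2.1 m j) (loc_lp_d12 hA.2.1 l k)).sub
          (locLp_trace (loc_lp_d11 hA.2.1 l j) (loc_lp_d22 hA.2.1 m k)))
  exact h1.congr (hf.mono fun x hx hx' => ((hx hx').SF_eq_SF2 (anti_kG _)).symm)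

/-- the pointwise algebra of the local formula -/
theorem loc_alg {G dG1 dG2 : Fin n → Fin n → Fin n → Fin n → ℂ} {A : EC n →L[ℝ] Mat r}
    {β : EC n →L[ℝ] EC n →L[ℝ] Mat r} (hf : JFlat A β) (hG : Anti G)
    (h1 : ∀ j k m, ∑ l, dG1 j k l m = 0) (h2 : ∀ j k l, ∑ m, dG2 j k l m = 0) (c : ℂ)
    (p : EC n →L[ℝ] ℝ) (q : EC n →L[ℝ] EC n →L[ℝ] ℝ) :
    ∑ j, ∑ k, ∑ l, ∑ m,
      (((c * dG2 j k l m + G j k l m * d2 (cx p) m) * (d11 β l j * d2 A k).trace -
        (c * dG1 j k l m + G j k l m * d1 (cx p) l) * (d21 β m j * d2 A k).trace) +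
      ((d1 (cx p) l * dG2 j k l m + G j k l m * d12 (cx2 q) l m) * (d1 A j * d2 A k).trace +
        d1 (cx p) l * G j k l m * ((d21 β m j * d2 A k).trace + (d1 A j * d22 β m k).trace))) =
      SP G A p q := by
  have e1 := hf.sum_d11 hG fun k m => d2 (cx p) m • d2 A k
  have e2 := hf.sum_d22 hG fun j l => d1 (cx p) l • d1 A j
  have e3 : ∑ j, ∑ k, ∑ l, ∑ m, dG2 j k l m *
      (c * (d11 β l j * d2 A k).trace + d1 (cx p) l * (d1 A j * d2 A k).trace) = 0 := by
    simp only [← Finset.sum_mul, h2, zero_mul, Finset.sum_const_zero]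
  have e4 : ∑ j, ∑ k, ∑ l, ∑ m, dG1 j k l m * (c * (d21 β m j * d2 A k).trace) = 0 := by
    refine Finset.sum_eq_zero fun j _ => Finset.sum_eq_zero fun k _ => ?_
    rw [Finset.sum_comm]
    simp only [← Finset.sum_mul, h1, zero_mul, Finset.sum_const_zero]
  simp only [Matrix.mul_smul, Matrix.smul_mul, trace_smul, smul_eq_mul] at e1 e2
  have e5 : SP G A p q = (∑ j, ∑ k, ∑ l, ∑ m,
      G j k l m * (d12 (cx2 q) l m * (d1 A j * d2 A k).trace)) +
      (∑ j, ∑ k, ∑ l, ∑ m, G j k l m * (d2 (cx p) m * (d11 β l j * d2 A k).trace)) +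
      (∑ j, ∑ k, ∑ l, ∑ m, G j k l m * (d1 (cx p) l * (d1 A j * d22 β m k).trace)) +
      (∑ j, ∑ k, ∑ l, ∑ m, dG2 j k l m *
        (c * (d11 β l j * d2 A k).trace + d1 (cx p) l * (d1 A j * d2 A k).trace)) -
      ∑ j, ∑ k, ∑ l, ∑ m, dG1 j k l m * (c * (d21 β m j * d2 A k).trace) := by
    rw [e1, e2, e3, e4, add_zero, sub_zero]
    simp only [SP, ← Finset.sum_add_distrib]
    refine Finset.sum_congr rfl fun j _ => Finset.sum_congr rfl fun k _ =>
      Finset.sum_congr rfl fun l _ => Finset.sum_congr rfl fun m _ => ?_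
    ring
  rw [e5]
  simp only [← Finset.sum_add_distrib, ← Finset.sum_sub_distrib]
  refine Finset.sum_congr rfl fun j _ => Finset.sum_congr rfl fun k _ =>
    Finset.sum_congr rfl fun l _ => Finset.sum_congr rfl fun m _ => ?_
  ring

/-- the local Siu-Sampson formula -/
theorem local_ss (hU : IsOpen U) (hg : IsKahlerOn U g) (hA : WD 2 U A β)
    (hf : ∀ᵐ x, x ∈ U → JFlat (A x) (β x)) {χ : EC n → ℝ} (hχ : IsTest U χ) :
    ∫ x, (χ x : ℂ) * SF (kG (g x)) (A x) (β x) =
      ∫ x, SP (kG (g x)) (A x) (fderiv ℝ χ x) (fderiv ℝ (fderiv ℝ χ) x) := by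
  have ha : ∀ j, WD 2 U (fun x => d1 (A x) j) fun x => (d1L j).comp (β x) :=
    fun j => hA.clm (by norm_num) (d1L j)
  have hb : ∀ k, WD 2 U (fun x => d2 (A x) k) fun x => (d2L k).comp (β x) :=
    fun k => hA.clm (by norm_num) (d2L k)
  have hχc : IsTestC U fun x => (χ x : ℂ) := by
    simpa using isTestC_mul_of_contDiffOn hU hχ (ζ := fun _ => 1) contDiffOn_const
  have hp : ∀ l, IsTestC U fun x => d1 (cx (fderiv ℝ χ x)) l := fun l => by
    simpa only [loc_fderiv_ofReal hχ.differentiable, d1L_apply] using loc_test_clm hχc (d1L l)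
  have hψ : ∀ j k l m, IsTestC U fun x => (χ x : ℂ) * kG (g x) j k l m :=
    fun j k l m => isTestC_mul_of_contDiffOn hU hχ (kG_contDiffOn hg j k l m)
  have hψ' : ∀ j k l m, IsTestC U fun x => d1 (cx (fderiv ℝ χ x)) l * kG (g x) j k l m :=
    fun j k l m => (hp l).mul_contDiffOn hU (kG_contDiffOn hg j k l m)
  have l11 := loc_lp_d11 hA.2.1
  have l12 := loc_lp_d12 hA.2.1
  have l21 := loc_lp_d21 hA.2.1
  have l22 := loc_lp_d22 hA.2.1
  obtain ⟨-, e0⟩ := loc_int4 (fun j k l m x => (χ x : ℂ) * kG (g x) j k l m *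
      ((d21 (β x) m j * d12 (β x) l k).trace - (d11 (β x) l j * d22 (β x) m k).trace))
    fun j k l m => loc_int (hψ j k l m)
      ((locLp_trace (l21 m j) (l12 l k)).sub (locLp_trace (l11 l j) (l22 m k)))
  have i1 : ∀ j k l m, Integrable fun x =>
      d2 (fderiv ℝ (fun y => (χ y : ℂ) * kG (g y) j k l m) x) m *
          (d11 (β x) l j * d2 (A x) k).trace -
        d1 (fderiv ℝ (fun y => (χ y : ℂ) * kG (g y) j k l m) x) l *
          (d21 (β x) m j * d2 (A x) k).trace := fun j k l m =>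
    (loc_int (loc_test_clm (hψ j k l m) (d2L m)) (locLp_trace (l11 l j) (hb k).1)).sub
      (loc_int (loc_test_clm (hψ j k l m) (d1L l)) (locLp_trace (l21 m j) (hb k).1))
  have i2 : ∀ j k l m, Integrable fun x =>
      d2 (fderiv ℝ (fun y => d1 (cx (fderiv ℝ χ y)) l * kG (g y) j k l m) x) m *
        (d1 (A x) j * d2 (A x) k).trace := fun j k l m =>
    loc_int (loc_test_clm (hψ' j k l m) (d2L m)) (locLp_trace (ha j).1 (hb k).1)
  have i3 : ∀ j k l m, Integrable fun x => d1 (cx (fderiv ℝ χ x)) l * kG (g x) j k l m *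
      ((d21 (β x) m j * d2 (A x) k).trace + (d1 (A x) j * d22 (β x) m k).trace) :=
    fun j k l m => loc_int (hψ' j k l m)
      ((locLp_trace (l21 m j) (hb k).1).add (locLp_trace (ha j).1 (l22 m k)))
  obtain ⟨-, e1⟩ := loc_int4 _ fun j k l m => (i1 j k l m).add ((i2 j k l m).add (i3 j k l m))
  calc ∫ x, (χ x : ℂ) * SF (kG (g x)) (A x) (β x)
      = ∫ x, ∑ j, ∑ k, ∑ l, ∑ m, (χ x : ℂ) * kG (g x) j k l m *
        ((d21 (β x) m j * d12 (β x) l k).trace - (d11 (β x) l j * d22 (β x) m k).trace) := by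
        refine integral_congr_ae (hf.mono fun x hx => ?_)
        by_cases hx' : x ∈ U
        · simp only [(hx hx').SF_eq_SF2 (anti_kG _), SF2, Finset.mul_sum, mul_assoc]
        · simp [hχ.zero_of_notMem hx']
    _ = _ := by
        rw [e0]
        refine Eq.trans ?_ (e1.symm.trans ?_)
        · refine Finset.sum_congr rfl fun j _ => Finset.sum_congr rfl fun k _ =>
            Finset.sum_congr rfl fun l _ => Finset.sum_congr rfl fun m _ => ?_
          have n1 := null_lagr_cx hU (ha j) (hb k) (hψ j k l m) l m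
          have n2 := prod_cx hU (ha j) (hb k) (hψ' j k l m) m
          simp only [d1_d1L, d1_d2L, d2_d1L, d2_d2L] at n1 n2
          rw [integral_add' (i1 j k l m) ((i2 j k l m).add (i3 j k l m)),
            integral_add' (i2 j k l m) (i3 j k l m), n1, n2, neg_add_cancel, add_zero]
        · refine integral_congr_ae (hf.mono fun x hx => ?_)
          simp only [Pi.add_apply]
          by_cases hx' : x ∈ U
          · have hG : ∀ j k l m, DifferentiableAt ℝ (fun y => kG (g y) j k l m) x :=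
              fun j k l m => ((kG_contDiffOn hg j k l m).contDiffAt
                (hU.mem_nhds hx')).differentiableAt (by simp)
            have hd : DifferentiableAt ℝ (fun y => (χ y : ℂ)) x :=
              hχc.1.differentiable (by simp) x
            have hd' : ∀ l, DifferentiableAt ℝ (fun y => d1 (cx (fderiv ℝ χ y)) l) x :=
              fun l => (hp l).1.differentiable (by simp) x
            simp only [loc_d1_mul hd (hG _ _ _ _), loc_d2_mul hd (hG _ _ _ _),
              loc_d2_mul (hd' _) (hG _ _ _ _), loc_fderiv_ofReal hχ.differentiable,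
              loc_second hχ.1]
            exact loc_alg (hx hx') (anti_kG _) (kG_div1 hU hg hx') (kG_div2 hU hg hx') _ _ _
          · have z1 : fderiv ℝ χ x = 0 := hχ.fderiv_zero_of_notMem hx'
            have z2 : fderiv ℝ (fderiv ℝ χ) x = 0 := image_eq_zero_of_notMem_tsupport fun h =>
              hx' (hχ.2.2 (tsupport_fderiv_subset ℝ (tsupport_fderiv_subset ℝ h)))
            simp only [(loc_zero (hψ _ _ _ _) hx').2, (loc_zero (hψ' _ _ _ _) hx').2, z1, z2]
            simp [SP, d1, d2, d12, cx, cx2]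

end Pool.Agent.PW
end
end

-- part Pool.Agent.P.MP_65ad7c_ag.RJet
section

open MeasureTheory Set Filter Topology Metric Matrix
open scoped ComplexOrder ContDiff Matrix.Norms.Frobenius RealInnerProductSpace ENNReal
open Pool.Agent.Lib.Sob

noncomputable section
namespace Pool.Agent.PW

variable {n r : ℕ} {U : Set (EC n)} {h : EC n → Mat r} {D : EC n → EC n →L[ℝ] Mat r}
  {β : EC n → EC n →L[ℝ] EC n →L[ℝ] Mat r}

theorem jet_of {h : Mat r} {D A : EC n →L[ℝ] Mat r} {β : EC n →L[ℝ] EC n →L[ℝ] Mat r}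
    (hb : h.PosDef) (e : ∀ v, h * A v = D v) (hD : HermF D)
    (h1 : ∀ v w, D v * A w + h * β v w = D w * A v + h * β w v)
    (h2 : ∀ v w, (D v * A w + h * β v w)ᴴ = D v * A w + h * β v w) : Jet h A β := by
  refine ⟨fun v => by rw [e, hD], fun v w => hb.isUnit.mul_left_cancel ?_, fun v w => ?_⟩
  · have h3 := h1 v w
    rw [← e v, ← e w] at h3
    simp only [cm, mul_sub, mul_neg, ← mul_assoc]
    linear_combination (norm := abel) h3
  · have h3 := h2 v w
    rw [conjTranspose_add, conjTranspose_mul, conjTranspose_mul, hD, hb.1.eq, h1 v w, ← e v,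
      ← mul_assoc, ← hD w, ← e w, conjTranspose_mul, hb.1.eq] at h3
    exact add_left_cancel h3

/-- the pointwise relations hold almost everywhere -/
theorem jet_ae (hU : IsOpen U) (hh : WD 2 U h D) (hb : ∀ x ∈ U, (h x).PosDef)
    (hA : WD 2 U (fun x => mc (h x) (D x)) β) :
    ∀ᵐ x, x ∈ U → Jet (h x) (mc (h x) (D x)) (β x) := by
  have e : ∀ x ∈ U, ∀ v, h x * mc (h x) (D x) v = D x v := fun x hx v =>
    DFunLike.congr_fun (lmul_mc (hb x hx) (D x)) v
  have hD := wd_herm one_le_two hU hh fun x hx => (hb x hx).1.eq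
  have hw := fun w => (wd_mul_one hU hh (hA.clm one_le_two
    (ContinuousLinearMap.apply ℝ (Mat r) w))).congr' (v := fun x => D x w)
      (fun x hx => e x hx w) fun _ _ => rfl
  obtain ⟨s, hs, hd⟩ := TopologicalSpace.exists_countable_dense (EC n × EC n)
  have h1 := (ae_ball_iff hs).2 fun p _ => second_symm hU (wd_one_of_two hh) (hw p.1) (hw p.2)
  have h2 := (ae_ball_iff hs).2 fun p _ => (((hw p.2).clm le_rfl (adjL r)).congr
    (v := fun x => D x p.2) (hD.mono fun x hx hxU => hx hxU p.2) (ae_of_all _ fun _ _ => rfl)).unique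
      le_rfl hU (hw p.2)
  filter_upwards [hD, h1, h2] with x a0 a1 a2 hx
  refine jet_of (hb x hx) (e x hx) (a0 hx) (fun v w => ?_) fun v w => ?_
  · refine hd.induction (P := fun p => D x p.1 * mc (h x) (D x) p.2 + h x * β x p.1 p.2 =
      D x p.2 * mc (h x) (D x) p.1 + h x * β x p.2 p.1) (fun p hp => a1 p hp hx)
      (isClosed_eq (by fun_prop) (by fun_prop)) (v, w)
  · refine hd.induction (P := fun p =>
      adjL r (D x p.1 * mc (h x) (D x) p.2 + h x * β x p.1 p.2) =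
      D x p.1 * mc (h x) (D x) p.2 + h x * β x p.1 p.2)
      (fun p hp => DFunLike.congr_fun (a2 p hp hx) p.1)
      (isClosed_eq (by fun_prop) (by fun_prop)) (v, w)

end Pool.Agent.PW
end
end

-- part Pool.Agent.P.MP_65ad7c_ag.RSign
section

open MeasureTheory Set Filter Topology Metric Matrix
open scoped ComplexOrder ContDiff Matrix.Norms.Frobenius RealInnerProductSpace ENNReal
open Pool.Agent.Lib.Sob

noncomputable section
namespace Pool.Agent.PW

variable {n r : ℕ} {h : Mat r} {A : EC n →L[ℝ] Mat r} {β : EC n →L[ℝ] EC n →L[ℝ] Mat r}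

theorem Jet.d1_adj (J : Jet h A β) (hh : h.PosDef) (j : Fin n) :
    (d1 A j)ᴴ * h = h * d2 A j := by
  have key : ∀ v, (A v)ᴴ * h = h * A v := fun v => by
    rw [← J.herm v, conjTranspose_mul, hh.1.eq]
  simp [d1, d2, conjTranspose_smul, conjTranspose_sub, add_mul, mul_add, key]

theorem Jet.SN_adj (J : Jet h A β) (j k : Fin n) : (SN β j k)ᴴ * h = h * SN β k j := by
  simp only [SN, d21, d12, d1, d2, conjTranspose_smul, conjTranspose_sub, conjTranspose_add,
    add_mul, mul_add, sub_mul, mul_sub, smul_mul_assoc, mul_smul_comm, J.adj, star_inv₀,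
    star_ofNat, RCLike.star_def, Complex.conj_I]
  match_scalars <;> ring

theorem rsign_nf (hh : h.PosDef) {M M' : Mat r} (e : Mᴴ * h = h * M') :
    0 ≤ (M * M').trace.re ∧ ((M * M').trace.re = 0 → M = 0) := by
  have hu : IsUnit h.det := (isUnit_iff_isUnit_det _).1 hh.isUnit
  have e2 : (M * M').trace.re = nf h h M M := by
    rw [nf, Matrix.mul_assoc, Matrix.mul_assoc, e, nonsing_inv_mul_cancel_left _ _ hu]
  rw [e2]
  refine ⟨nf_nonneg hh hh M, fun h0 => ?_⟩
  have hC : 0 < ‖h‖ + ‖h⁻¹‖ + 1 := by positivity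
  have hb := bd_of_norm hC hh (by linarith [norm_nonneg h⁻¹]) (by linarith [norm_nonneg h])
  have := le_nf hC hb hb M
  rw [h0, mul_zero] at this
  exact norm_eq_zero.1 (pow_eq_zero_iff two_ne_zero |>.1 (le_antisymm this (sq_nonneg _)))

open scoped MatrixOrder in
theorem rsign_fac {ι : Type} [Fintype ι] [DecidableEq ι] {K : Matrix ι ι ℂ} (hK : K.PosDef) :
    ∃ B : Matrix ι ι ℂ, IsUnit B ∧ K = Bᴴ * B :=
  CStarAlgebra.isStrictlyPositive_iff_eq_star_mul_self.mp hK.isStrictlyPositive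

theorem rsign_one {ι : Type} [Fintype ι] [DecidableEq ι] {K : Matrix ι ι ℂ} (hK : K.PosDef)
    (hh : h.PosDef) (X Y : ι → Mat r) (hXY : ∀ p, (X p)ᴴ * h = h * Y p) :
    0 ≤ (∑ p, ∑ q, K p q * (X p * Y q).trace).re ∧
      ((∑ p, ∑ q, K p q * (X p * Y q).trace).re = 0 → ∀ p, X p = 0) := by
  obtain ⟨B, hB, rfl⟩ := rsign_fac hK
  have e1 : ∑ p, ∑ q, (Bᴴ * B) p q * (X p * Y q).trace =
      ∑ s, ((∑ p, star (B s p) • X p) * ∑ q, B s q • Y q).trace := by
    simp only [Matrix.mul_apply, conjTranspose_apply, Finset.sum_mul, Finset.mul_sum, trace_sum,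
      smul_mul_assoc, mul_smul_comm, trace_smul, smul_eq_mul]
    rw [Finset.sum_comm]
    refine (Finset.sum_congr rfl fun q _ => Finset.sum_comm).trans (Finset.sum_comm.trans ?_)
    refine Finset.sum_congr rfl fun s _ => Finset.sum_congr rfl fun q _ =>
      Finset.sum_congr rfl fun p _ => ?_
    ring
  have e2 := fun s => rsign_nf hh (M := ∑ p, star (B s p) • X p) (M' := ∑ q, B s q • Y q) (by
    simp only [conjTranspose_sum, conjTranspose_smul, star_star, Finset.sum_mul, Finset.mul_sum,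
      smul_mul_assoc, mul_smul_comm, hXY])
  rw [e1, Complex.re_sum]
  refine ⟨Finset.sum_nonneg fun s _ => (e2 s).1, fun h0 p => ?_⟩
  have h1 := fun s => (e2 s).2
    ((Finset.sum_eq_zero_iff_of_nonneg fun s _ => (e2 s).1).1 h0 s (Finset.mem_univ s))
  ext a b
  have h2 : (fun p => X p a b) ᵥ* Bᴴ = 0 ᵥ* Bᴴ := by
    funext s
    have := congrFun (congrFun (h1 s) a) b
    simp only [Matrix.sum_apply, Matrix.smul_apply, smul_eq_mul, Matrix.zero_apply] at this
    rw [zero_vecMul, Pi.zero_apply, ← this]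
    simp only [vecMul, dotProduct, conjTranspose_apply, mul_comm]
  exact congrFun (vecMul_injective_of_isUnit hB.star h2) p

open scoped Kronecker in
/-- the contraction of a two index tensor with its adjoint is nonnegative and definite -/
theorem contr_pos {W W' : Mat n} (hW : W.PosDef) (hW' : W'.PosDef) (hh : h.PosDef)
    (X Y : Fin n → Fin n → Mat r) (hXY : ∀ j m, (X j m)ᴴ * h = h * Y j m) :
    0 ≤ (∑ j, ∑ k, ∑ l, ∑ m, W j k * W' l m * (X j l * Y k m).trace).re ∧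
      ((∑ j, ∑ k, ∑ l, ∑ m, W j k * W' l m * (X j l * Y k m).trace).re = 0 →
        ∀ j l, X j l = 0) := by
  have := rsign_one (hW.kronecker hW') hh (fun p => X p.1 p.2) (fun p => Y p.1 p.2)
    fun p => hXY p.1 p.2
  simp only [Fintype.sum_prod_type, kroneckerMap_apply, Prod.forall] at this
  rw [Finset.sum_congr rfl fun j _ => Finset.sum_comm]
  exact this

/-- the same with one index of each type -/
theorem contr_pos' {W : Mat n} (hW : W.PosDef) (hh : h.PosDef) (X : Fin n → Fin n → Mat r)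
    (hX : ∀ j m, (X j m)ᴴ * h = h * X m j) :
    0 ≤ (∑ j, ∑ k, ∑ l, ∑ m, W j k * W l m * (X j m * X l k).trace).re ∧
      ((∑ j, ∑ k, ∑ l, ∑ m, W j k * W l m * (X j m * X l k).trace).re = 0 → ∀ j m, X j m = 0) := by
  have := contr_pos hW hW.transpose hh X (fun k l => X l k) hX
  rw [Finset.sum_congr rfl fun j _ => Finset.sum_congr rfl fun k _ => Finset.sum_comm]
  exact this

theorem rsign_swap (F : Fin n → Fin n → Fin n → Fin n → ℂ) :
    ∑ j, ∑ k, ∑ l, ∑ m, F j k l m = ∑ j, ∑ k, ∑ l, ∑ m, F j m l k := by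
  refine Finset.sum_congr rfl fun j _ => ?_
  rw [Finset.sum_comm]
  exact (Finset.sum_congr rfl fun l _ => Finset.sum_comm).trans Finset.sum_comm

theorem rsign_cm (X Y : Mat r) : cm X Y = -cm Y X := by simp [cm]

/-- the sign of the Siu-Sampson integrand -/
theorem Jet.SF_sign (J : Jet h A β) (hh : h.PosDef) {g : Mat n} (hg : g.PosDef)
    (h0 : ∑ j, ∑ k, kH g j k • SN β j k = 0) :
    0 ≤ (SF (kG g) A β).re ∧ ((SF (kG g) A β).re = 0 → PH1 A ∧ PH2 β) := by
  have hF : JFlat A β := J.flat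
  have hW : (kW g).PosDef := hg.transpose.inv
  obtain ⟨d, hd, hdet⟩ : ∃ d : ℝ, 0 < d ∧ g.det = d := by
    obtain ⟨h1, h2⟩ := Complex.pos_iff.1 hg.det_pos
    exact ⟨g.det.re, h1, Complex.ext rfl h2.symm⟩
  have ht : ∑ j, ∑ k, kW g j k • SN β j k = 0 := by
    have : g.det • ∑ j, ∑ k, kW g j k • SN β j k = 0 := by
      simpa only [kH, Finset.smul_sum, smul_smul, Matrix.smul_apply, smul_eq_mul] using h0
    exact (smul_eq_zero.1 this).resolve_left hg.det_pos.ne'
  have hX : ∀ j l, (cm (d1 A l) (d1 A j))ᴴ * h = h * cm (d2 A j) (d2 A l) := by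
    intro j l
    simp only [cm, conjTranspose_sub, conjTranspose_mul, sub_mul, mul_sub, Matrix.mul_assoc,
      J.d1_adj hh]
    simp only [← Matrix.mul_assoc, J.d1_adj hh]
  obtain ⟨p1, z1⟩ := contr_pos' hW hh (SN β) J.SN_adj
  obtain ⟨p2, z2⟩ := contr_pos hW hW hh (fun j l => cm (d1 A l) (d1 A j))
    (fun k m => cm (d2 A k) (d2 A m)) hX
  have t1 : ∑ j, ∑ k, ∑ l, ∑ m, kW g j m * kW g l k * (SN β j m * SN β l k).trace = 0 := by
    have e : ∑ j, ∑ k, ∑ l, ∑ m, kW g j k * kW g l m * (SN β j k * SN β l m).trace =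
        ((∑ j, ∑ k, kW g j k • SN β j k) * ∑ l, ∑ m, kW g l m • SN β l m).trace := by
      simp only [Finset.sum_mul]
      simp only [Finset.mul_sum, trace_sum, smul_mul_assoc, mul_smul_comm, trace_smul,
        smul_eq_mul, mul_assoc, mul_left_comm]
    rw [rsign_swap, e, ht, Matrix.zero_mul, trace_zero]
  have t2 : ∑ j, ∑ k, ∑ l, ∑ m, kW g j m * kW g l k *
        (cm (d1 A l) (d1 A j) * cm (d2 A m) (d2 A k)).trace =
      ∑ j, ∑ k, ∑ l, ∑ m, kW g j k * kW g l m *
        (cm (d1 A l) (d1 A j) * cm (d2 A k) (d2 A m)).trace := rsign_swap _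
  have t3 : ∑ j, ∑ k, ∑ l, ∑ m, kW g j k * kW g l m *
        (cm (d1 A l) (d1 A j) * cm (d2 A m) (d2 A k)).trace =
      -∑ j, ∑ k, ∑ l, ∑ m, kW g j k * kW g l m *
        (cm (d1 A l) (d1 A j) * cm (d2 A k) (d2 A m)).trace := by
    simp only [← Finset.sum_neg_distrib]
    refine Finset.sum_congr rfl fun j _ => Finset.sum_congr rfl fun k _ =>
      Finset.sum_congr rfl fun l _ => Finset.sum_congr rfl fun m _ => ?_
    rw [rsign_cm (d2 A m), Matrix.mul_neg, trace_neg, mul_neg]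
  have e : SF (kG g) A β = (d : ℂ) *
      (∑ j, ∑ k, ∑ l, ∑ m, kW g j k * kW g l m * (SN β j m * SN β l k).trace -
        ∑ j, ∑ k, ∑ l, ∑ m, kW g j m * kW g l k * (SN β j m * SN β l k).trace) -
      ((d / 8 : ℝ) : ℂ) * (∑ j, ∑ k, ∑ l, ∑ m, kW g j k * kW g l m *
        (cm (d1 A l) (d1 A j) * cm (d2 A m) (d2 A k)).trace -
        ∑ j, ∑ k, ∑ l, ∑ m, kW g j m * kW g l k *
          (cm (d1 A l) (d1 A j) * cm (d2 A m) (d2 A k)).trace) := by
    rw [hF.SF_eq (anti_kG g)]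
    simp only [← Finset.sum_sub_distrib, Finset.mul_sum]
    refine Finset.sum_congr rfl fun j _ => Finset.sum_congr rfl fun k _ =>
      Finset.sum_congr rfl fun l _ => Finset.sum_congr rfl fun m _ => ?_
    rw [kG, hdet]
    push_cast
    ring
  rw [e, t1, t2, t3, sub_zero, Complex.sub_re, Complex.re_ofReal_mul, Complex.re_ofReal_mul,
    Complex.sub_re, Complex.neg_re]
  have q1 := mul_nonneg hd.le p1
  have q2 := mul_nonneg hd.le p2
  refine ⟨by linarith, fun hz => ?_⟩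
  have a1 := z1 ((mul_eq_zero.1 (le_antisymm (by linarith) q1)).resolve_left hd.ne')
  have a2 := z2 ((mul_eq_zero.1 (le_antisymm (by linarith) q2)).resolve_left hd.ne')
  refine hF.ph a1 a2 fun k m => ?_
  have := hX m k
  rw [a2, conjTranspose_zero, Matrix.zero_mul] at this
  exact (hh.isUnit.mul_right_eq_zero).1 this.symm

end Pool.Agent.PW
end
end

-- part Pool.Agent.P.MP_65ad7c_ag.RDiv
section

open MeasureTheory Set Filter Topology Metric Matrix
open scoped ComplexOrder ContDiff Matrix.Norms.Frobenius RealInnerProductSpace ENNReal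
open Pool.Agent.Lib.Sob

noncomputable section
namespace Pool.Agent.PW

variable {n r : ℕ} {V : Type} [NormedAddCommGroup V] [NormedSpace ℝ V]

theorem div_decomp (v : EC n) :
    v = ∑ k, ((v k).re • (EuclideanSpace.single k 1 : EC n) +
      (v k).im • (EuclideanSpace.single k Complex.I : EC n)) := by
  ext j
  simp only [WithLp.ofLp_sum, WithLp.ofLp_add, WithLp.ofLp_smul, Finset.sum_apply, Pi.add_apply,
    Pi.smul_apply, PiLp.single_apply]
  rw [Finset.sum_eq_single j]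
  · simp only [if_true]
    apply Complex.ext <;> simp
  · intro b _ hb
    simp [Ne.symm hb]
  · simp

theorem div_inner1 (v : EC n) (k : Fin n) :
    ⟪v, (EuclideanSpace.single k 1 : EC n)⟫ = (v k).re := by
  rw [PiLp.inner_apply, Finset.sum_eq_single k]
  · simp
  · intro b _ hb
    simp [hb]
  · simp

theorem div_innerI (v : EC n) (k : Fin n) :
    ⟪v, (EuclideanSpace.single k Complex.I : EC n)⟫ = (v k).im := by
  rw [PiLp.inner_apply, Finset.sum_eq_single k]
  · simp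
  · intro b _ hb
    simp [hb]
  · simp

theorem div_clm (X : EC n →L[ℝ] V) (v : EC n) :
    X v = ∑ k, ((v k).re • X (EuclideanSpace.single k 1) +
      (v k).im • X (EuclideanSpace.single k Complex.I)) := by
  conv_lhs => rw [div_decomp v]
  simp only [map_sum, map_add, map_smul]

theorem div_ob (X : EC n →L[ℝ] V) (w : EC n) :
    ∑ p, ⟪ob (EC n) p, w⟫ • X (ob (EC n) p) = X w := by
  conv_rhs => rw [← (ob (EC n)).sum_repr' w]
  simp only [map_sum, map_smul]

/-- the trace of a bilinear map in the complex coordinates -/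
theorem sum_ob_EC (B : EC n →L[ℝ] EC n →L[ℝ] V) :
    ∑ p, B (ob (EC n) p) (ob (EC n) p) =
      ∑ k, (B (EuclideanSpace.single k 1) (EuclideanSpace.single k 1) +
        B (EuclideanSpace.single k Complex.I) (EuclideanSpace.single k Complex.I)) := by
  have h : ∀ p, B (ob (EC n) p) (ob (EC n) p) =
      ∑ k, (⟪ob (EC n) p, (EuclideanSpace.single k 1 : EC n)⟫ •
          B (EuclideanSpace.single k 1) (ob (EC n) p) +
        ⟪ob (EC n) p, (EuclideanSpace.single k Complex.I : EC n)⟫ •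
          B (EuclideanSpace.single k Complex.I) (ob (EC n) p)) := by
    intro p
    have := div_clm (B.flip (ob (EC n) p)) (ob (EC n) p)
    simp only [ContinuousLinearMap.flip_apply] at this
    rw [this]
    simp only [div_inner1, div_innerI]
  simp only [h]
  rw [Finset.sum_comm]
  refine Finset.sum_congr rfl fun k _ => ?_
  rw [Finset.sum_add_distrib, div_ob, div_ob]

theorem div_kα_apply (g : Mat n) (v : EC n) (j : Fin n) :
    kα g v j = ∑ k, kH g j k * v k := rfl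

/-- elementary maps -/
def divE (j k : Fin n) : EC n →L[ℝ] EC n :=
  ((EuclideanSpace.proj k : EC n →L[ℂ] ℂ).smulRight
    (EuclideanSpace.single j 1 : EC n)).restrictScalars ℝ

theorem divE_apply (j k : Fin n) (v : EC n) :
    divE j k v = v k • (EuclideanSpace.single j 1 : EC n) := rfl

theorem div_kα_eq (g : Mat n) : kα g = ∑ j, ∑ k, kH g j k • divE j k := by
  ext v i
  simp only [div_kα_apply, _root_.sum_apply, _root_.smul_apply,
    divE_apply, WithLp.ofLp_sum, WithLp.ofLp_smul, Finset.sum_apply, Pi.smul_apply,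
    PiLp.single_apply, smul_eq_mul]
  symm
  rw [Finset.sum_eq_single i]
  · simp
  · intro b _ hb
    simp [Ne.symm hb]
  · simp

/-- the Riemannian coefficient of a Kaehler metric is divergence free -/
theorem divFree_kα {U : Set (EC n)} {g : EC n → Mat n} (hU : IsOpen U) (hg : IsKahlerOn U g) :
    DivFree U fun x => kα (g x) := by
  intro x hx v
  have hd : ∀ j k, HasFDerivAt (fun y => kH (g y) j k) (fderiv ℝ (fun y => kH (g y) j k) x) x :=
    fun j k => (((kH_contDiffOn hg j k).contDiffAt (hU.mem_nhds hx)).differentiableAt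
      (by simp)).hasFDerivAt
  have hF : HasFDerivAt (fun y => kα (g y))
      (∑ j, ∑ k, (fderiv ℝ (fun y => kH (g y) j k) x).smulRight (divE j k)) x := by
    simp only [div_kα_eq]
    exact HasFDerivAt.fun_sum fun j _ => HasFDerivAt.fun_sum fun k _ => (hd j k).smul_const (divE j k)
  have hc : ∀ (u : EC n) (i : Fin n), fderiv ℝ (fun y => kα (g y)) x u v i =
      ∑ k, fderiv ℝ (fun y => kH (g y) i k) x u * v k := by
    intro u i
    rw [hF.fderiv]
    simp only [_root_.sum_apply, _root_.smul_apply,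
      ContinuousLinearMap.smulRight_apply,
      divE_apply, WithLp.ofLp_sum, WithLp.ofLp_smul, Finset.sum_apply, Pi.smul_apply,
      PiLp.single_apply, smul_eq_mul]
    rw [Finset.sum_eq_single i]
    · simp
    · intro b _ hb
      simp [Ne.symm hb]
    · simp
  have h := sum_ob_EC ((innerSL ℝ : EC n →L[ℝ] EC n →L[ℝ] ℝ).comp
    ((fderiv ℝ (fun y => kα (g y)) x).flip v))
  simp only [ContinuousLinearMap.comp_apply, ContinuousLinearMap.flip_apply] at h
  have h' : ∀ a b : EC n, (innerSL ℝ : EC n →L[ℝ] EC n →L[ℝ] ℝ) a b = ⟪a, b⟫ := fun _ _ => rfl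
  simp only [h', div_inner1, div_innerI, hc] at h
  simp only [real_inner_comm (fderiv ℝ (fun y => kα (g y)) x _ v)]
  rw [h]
  have h2 : (2 * ∑ k, (∑ j, d1 (fderiv ℝ (fun y => kH (g y) j k) x) j) * v k).re = 0 := by
    simp [kH_div hU hg hx]
  rw [← h2]
  simp only [Finset.sum_mul, Finset.mul_sum, Complex.re_sum, Complex.im_sum,
    ← Finset.sum_add_distrib]
  rw [Finset.sum_comm]
  refine Finset.sum_congr rfl fun k _ => Finset.sum_congr rfl fun j _ => ?_
  simp only [d1, smul_eq_mul]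
  generalize fderiv ℝ (fun y => kH (g y) j k) x (EuclideanSpace.single j 1) = a
  generalize fderiv ℝ (fun y => kH (g y) j k) x (EuclideanSpace.single j Complex.I) = b
  have e : 2 * ((2 : ℂ)⁻¹ * (a - Complex.I * b) * v k) = a * v k - Complex.I * (b * v k) := by
    ring
  rw [e]
  simp
  ring

theorem div_kH_herm {g : Mat n} (hg : g.PosDef) (j k : Fin n) :
    kH g k j = (starRingEnd ℂ) (kH g j k) := by
  have h1 : (kW g).IsHermitian := hg.isHermitian.transpose.inv
  have h2 : (starRingEnd ℂ) g.det = g.det := by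
    have := Matrix.det_conjTranspose g
    rw [hg.isHermitian.eq] at this
    exact this.symm
  have h3 : kW g k j = (starRingEnd ℂ) (kW g j k) := (h1.apply k j).symm
  simp only [kH, Matrix.smul_apply, smul_eq_mul, map_mul, h2, h3]

theorem div_kα_single (g : Mat n) (k : Fin n) (c : ℂ) (j : Fin n) :
    kα g (EuclideanSpace.single k c) j = kH g j k * c := by
  rw [div_kα_apply, Finset.sum_eq_single k]
  · simp
  · intro b _ hb
    simp [hb]
  · simp

/-- the tension field is the trace of `N` -/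
theorem trace_formula {g : Mat n} (hg : g.PosDef) (β : EC n →L[ℝ] EC n →L[ℝ] Mat r) :
    ∑ p, β (kα g (ob (EC n) p)) (ob (EC n) p) = (4 : ℂ) • ∑ j, ∑ k, kH g j k • SN β j k := by
  have h := sum_ob_EC (β.comp (kα g))
  simp only [ContinuousLinearMap.comp_apply] at h
  rw [h]
  have hb : ∀ v w : EC n, β v w = ∑ j, ((v j).re • β (EuclideanSpace.single j 1) w +
      (v j).im • β (EuclideanSpace.single j Complex.I) w) := fun v w => by
    simpa only [ContinuousLinearMap.flip_apply] using div_clm (β.flip w) v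
  have hs : ∑ j, ∑ k, kH g j k • SN β j k =
      ∑ k, ∑ j, (2 : ℂ)⁻¹ • ((starRingEnd ℂ) (kH g j k) • d21 β j k + kH g j k • d12 β j k) := by
    have e1 : ∑ j, ∑ k, kH g j k • d21 β k j =
        ∑ k, ∑ j, (starRingEnd ℂ) (kH g j k) • d21 β j k :=
      Finset.sum_congr rfl fun k _ => Finset.sum_congr rfl fun j _ => by rw [div_kH_herm hg j k]
    have e2 : ∑ j, ∑ k, kH g j k • d12 β j k = ∑ k, ∑ j, kH g j k • d12 β j k :=
      Finset.sum_comm
    simp only [SN, smul_comm (kH g _ _) (2 : ℂ)⁻¹, smul_add, Finset.sum_add_distrib,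
      ← Finset.smul_sum]
    rw [e1, e2]
  rw [hs, Finset.smul_sum]
  refine Finset.sum_congr rfl fun k _ => ?_
  rw [hb (kα g (EuclideanSpace.single k 1)), hb (kα g (EuclideanSpace.single k Complex.I)),
    ← Finset.sum_add_distrib, Finset.smul_sum]
  refine Finset.sum_congr rfl fun j _ => ?_
  simp only [div_kα_single, d21, d12, d1, d2]
  generalize β (EuclideanSpace.single j 1) (EuclideanSpace.single k 1) = a
  generalize β (EuclideanSpace.single j 1) (EuclideanSpace.single k Complex.I) = b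
  generalize β (EuclideanSpace.single j Complex.I) (EuclideanSpace.single k 1) = c
  generalize β (EuclideanSpace.single j Complex.I) (EuclideanSpace.single k Complex.I) = d
  generalize kH g j k = z
  ext s t
  simp only [Matrix.add_apply, Matrix.smul_apply, Matrix.sub_apply, smul_eq_mul,
    Complex.real_smul]
  obtain ⟨x, y, rfl⟩ : ∃ x y : ℝ, z = x + y * Complex.I := ⟨z.re, z.im, (Complex.re_add_im z).symm⟩
  simp
  linear_combination ((x : ℂ) * d s t + y * c s t - y * b s t) * Complex.I_mul_I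

/-- a form with `A (i ·)` weakly closed is weakly coclosed for the flat metric -/
theorem harm_of_wcurl {U : Set (EC n)} {A : EC n → EC n →L[ℝ] Mat r} (hA : LocLp 2 U A)
    (h : WCurl U (fun x => (A x).comp (IL n)) fun _ _ _ => 0) :
    Harm U (fun _ => ContinuousLinearMap.id ℝ (EC n)) A := by
  intro φ hφ
  have hp : ∀ x, ∑ p, fderiv ℝ φ x (ContinuousLinearMap.id ℝ (EC n) (ob (EC n) p)) •
      A x (ob (EC n) p) = ∑ k, (fderiv ℝ φ x (EuclideanSpace.single k 1) •
        A x (EuclideanSpace.single k 1) + fderiv ℝ φ x (EuclideanSpace.single k Complex.I) •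
          A x (EuclideanSpace.single k Complex.I)) := fun x => by
    simpa only [ContinuousLinearMap.smulRight_apply, _root_.smul_apply,
      ContinuousLinearMap.id_apply] using sum_ob_EC ((fderiv ℝ φ x).smulRight (A x))
  simp only [hp]
  rw [integral_finsetSum]
  · refine Finset.sum_eq_zero fun k _ => ?_
    have h1 := h φ hφ (EuclideanSpace.single k Complex.I) (EuclideanSpace.single k 1)
    have e1 : Complex.I • (EuclideanSpace.single k 1 : EC n) =
        EuclideanSpace.single k Complex.I := by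
      ext i; simp [PiLp.single_apply]
    have e2 : Complex.I • (EuclideanSpace.single k Complex.I : EC n) =
        -EuclideanSpace.single k 1 := by
      ext i
      by_cases hi : i = k <;> simp [hi]
    simp only [ContinuousLinearMap.comp_apply, IL_apply, e1, e2, map_neg, smul_neg, sub_neg_eq_add,
      smul_zero, integral_zero, neg_zero] at h1
    simpa only [add_comm] using h1
  · intro k _
    exact ((hA.apply _).integrable_dtest (by norm_num) hφ _).add
      ((hA.apply _).integrable_dtest (by norm_num) hφ _)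

end Pool.Agent.PW
end
end

-- part Pool.Agent.P.MP_65ad7c_ag.RCmp
section

open MeasureTheory Set Filter Topology Metric Matrix
open scoped ComplexOrder ContDiff Matrix.Norms.Frobenius RealInnerProductSpace ENNReal
open Pool.Agent.Lib.Sob

noncomputable section
namespace Pool.Agent.PW

variable {E : Type} [NormedAddCommGroup E] [InnerProductSpace ℝ E] [FiniteDimensional ℝ E]
  [MeasurableSpace E] [BorelSpace E] {r : ℕ} {U : Set E}
  {α α' : E → E →L[ℝ] E} {h h' : E → Mat r} {D D' : E → E →L[ℝ] Mat r}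

theorem LH.mono {U' : Set E} (H : LH U α h D) (hU : U' ⊆ U) : LH U' α h D :=
  ⟨H.wd.mono hU, H.lbd.mono hU, fun φ hφ => H.harm φ (hφ.mono hU)⟩

theorem LH.translate (H : LH U α h D) (v : E) :
    LH {x | x + v ∈ U} (fun x => α (x + v)) (fun x => h (x + v)) fun x => D (x + v) := by
  refine ⟨wd_translate H.wd v, fun K hK hKU => ?_, fun φ hφ => ?_⟩
  · obtain ⟨C, hC, hb⟩ := H.lbd ((fun x => x + v) '' K) (hK.image (by fun_prop))
      (by rintro _ ⟨x, hx, rfl⟩; exact hKU hx)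
    exact ⟨C, hC, fun x hx => hb _ (mem_image_of_mem _ hx)⟩
  · have hψ : IsTest U fun y => φ (y - v) := by
      refine ⟨hφ.1.comp (contDiff_id.sub contDiff_const),
        hφ.2.1.comp_homeomorph (Homeomorph.subRight v), fun y hy => ?_⟩
      have h1 : y - v ∈ tsupport φ :=
        tsupport_comp_subset_preimage φ (f := fun y => y - v) (by fun_prop) hy
      simpa using hφ.2.2 h1
    have h1 := H.harm _ hψ
    rw [← integral_add_right_eq_self _ v] at h1
    simpa only [fderiv_comp_sub, add_sub_cancel_right] using h1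

/-- real and extended `L²` norms -/
theorem integral_sq_eq_N2 {V : Type} [NormedAddCommGroup V] {K : Set E} {u : E → V}
    (hu : MemLp u 2 (volume.restrict K)) : ∫ x in K, ‖u x‖ ^ 2 = (N2 K u).toReal ^ 2 := by
  have h0 : 0 ≤ ∫ x in K, ‖u x‖ ^ 2 := integral_nonneg fun x => by positivity
  rw [N2, hu.eLpNorm_eq_integral_rpow_norm two_ne_zero ENNReal.ofNat_ne_top]
  simp only [ENNReal.toReal_ofNat, Real.rpow_two]
  rw [ENNReal.toReal_ofReal (Real.rpow_nonneg h0 _), ← Real.rpow_two, ← Real.rpow_mul h0]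
  norm_num

theorem integral_sq_le_of_N2 {V : Type} [NormedAddCommGroup V] {K : Set E} {u : E → V}
    (hu : MemLp u 2 (volume.restrict K)) {M : ℝ} (hM : 0 ≤ M) (h : N2 K u ≤ ENNReal.ofReal M) :
    ∫ x in K, ‖u x‖ ^ 2 ≤ M ^ 2 := by
  rw [integral_sq_eq_N2 hu]
  exact pow_le_pow_left₀ ENNReal.toReal_nonneg (ENNReal.toReal_le_of_le_ofReal hM h) 2

theorem N2_le_of_integral_sq {V : Type} [NormedAddCommGroup V] {K : Set E} {u : E → V}
    (hu : MemLp u 2 (volume.restrict K)) {M : ℝ} (hM : 0 ≤ M) (h : ∫ x in K, ‖u x‖ ^ 2 ≤ M ^ 2) :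
    N2 K u ≤ ENNReal.ofReal M := by
  rw [integral_sq_eq_N2 hu] at h
  have h1 : (N2 K u).toReal ≤ M := le_of_pow_le_pow_left₀ two_ne_zero hM h
  exact (ENNReal.le_ofReal_iff_toReal_le hu.eLpNorm_ne_top hM).2 h1

omit [MeasurableSpace E] [BorelSpace E] in
theorem cmp_pair_sub (a a' : E →L[ℝ] E) (X Y : E →L[ℝ] Mat r) :
    pair (a - a') X Y = pair a X Y - pair a' X Y := by
  simp [pair, Matrix.mul_sub, Finset.sum_sub_distrib]

/-- comparison of two weakly harmonic metrics -/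
theorem cmp_identity (hU : IsOpen U) (hα : ContinuousOn α U) (hα' : ContinuousOn α' U)
    (hs : ∀ x ∈ U, ∀ v w, ⟪α x v, w⟫ = ⟪v, α x w⟫) (H : LH U α h D) (H' : LH U α' h' D')
    {η : E → ℝ} {Dη : E → E →L[ℝ] ℝ} (hη : WD 2 U η Dη) (hb : LB U η) (hc : CS U η) :
    IntegrableOn (fun x => η x * qq (α x) (h x) (h' x) (D x) (D' x)) U ∧
    IntegrableOn (fun x => spair (α x) (dsg (h x) (h' x) (D x) (D' x)) (Dη x)) U ∧
    IntegrableOn (fun x => pair (α x - α' x) (mc (h' x) (D' x))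
      (η x • dkz (h x) (h' x) (D x) (D' x) + (Dη x).smulRight (kz (h x) (h' x)))) U ∧
    (∫ x in U, η x * qq (α x) (h x) (h' x) (D x) (D' x)) +
        ∫ x in U, spair (α x) (dsg (h x) (h' x) (D x) (D' x)) (Dη x) =
      ∫ x in U, pair (α x - α' x) (mc (h' x) (D' x))
        (η x • dkz (h x) (h' x) (D x) (D' x) + (Dη x).smulRight (kz (h x) (h' x))) := by
  obtain ⟨K, hK, hKU, hη0⟩ := hc
  obtain ⟨hkz, hkzb⟩ := wd_kz hU H.wd H'.wd H.lbd H'.lbd
  have hζ := wd_smul hU hη hkz hb hkzb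
  have hζc : CS U fun x => η x • kz (h x) (h' x) :=
    ⟨K, hK, hKU, fun x hx hxK => by simp only [hη0 x hx hxK, zero_smul]⟩
  have hD0 := wd_cs_ae (by norm_num) hU hη hK.isClosed hη0
  have hA := locLp_mc hU H.wd H.lbd
  have hA' := locLp_mc hU H'.wd H'.lbd
  have hint : ∀ {β : E → E →L[ℝ] E} {X : E → E →L[ℝ] Mat r}, ContinuousOn β U → LocLp 2 U X →
      IntegrableOn (fun x => pair (β x) (X x)
        (η x • dkz (h x) (h' x) (D x) (D' x) + (Dη x).smulRight (kz (h x) (h' x)))) U := by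
    intro β X hβ hX
    refine (integrableOn_of_cs hU (locLp_pair hβ hX hζ.2.1) hK hKU ?_).1
    filter_upwards [hD0] with x hx hxU hxK
    simp [pair, hη0 x hxU hxK, hx hxU hxK]
  have i1 : IntegrableOn (fun x => η x * qq (α x) (h x) (h' x) (D x) (D' x)) U := by
    refine (integrableOn_of_cs hU (locLp_bilin_lb (ContinuousLinearMap.mul ℝ ℝ) hη.1 hb
      (locLp_qq hU hα H.wd H'.wd H.lbd H'.lbd)) hK hKU
      (Eventually.of_forall fun x hxU hxK => ?_)).1
    simp [hη0 x hxU hxK]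
  have i2 : IntegrableOn (fun x => spair (α x) (dsg (h x) (h' x) (D x) (D' x)) (Dη x)) U := by
    refine (integrableOn_of_cs hU (locLp_spair hα (wd_sg hU H.wd H'.wd H.lbd H'.lbd).1.2.1
      hη.2.1) hK hKU ?_).1
    filter_upwards [hD0] with x hx hxU hxK
    simp [spair, hx hxU hxK]
  refine ⟨i1, i2, hint (hα.sub hα') hA', ?_⟩
  have e1 := harm_test hU hα hA H.harm hζ hζc
  have e2 := harm_test hU hα' hA' H'.harm hζ hζc
  have e3 : ∫ x in U, pair (α x - α' x) (mc (h' x) (D' x))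
        (η x • dkz (h x) (h' x) (D x) (D' x) + (Dη x).smulRight (kz (h x) (h' x))) =
      ∫ x in U, pair (α x) (mc (h' x) (D' x))
        (η x • dkz (h x) (h' x) (D x) (D' x) + (Dη x).smulRight (kz (h x) (h' x))) := by
    simp only [cmp_pair_sub]
    rw [integral_sub (hint hα hA') (hint hα' hA'), e2, sub_zero]
  rw [e3, ← integral_add i1 i2, ← sub_zero (∫ x in U, pair (α x) (mc (h' x) (D' x)) _), ← e1,
    ← integral_sub (hint hα hA') (hint hα hA)]
  refine integral_congr_ae ?_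
  have m1 := wd_herm (by norm_num) hU H.wd fun x hx => (H.lbd.posDef x hx).isHermitian
  have m2 := wd_herm (by norm_num) hU H'.wd fun x hx => (H'.lbd.posDef x hx).isHermitian
  filter_upwards [ae_restrict_mem hU.measurableSet, ae_restrict_of_ae m1, ae_restrict_of_ae m2]
    with x hx a1 a2
  exact (pair_key (H.lbd.posDef x hx) (H'.lbd.posDef x hx) (a1 hx) (a2 hx) (hs x hx) _ _).symm

end Pool.Agent.PW
end
end

-- part Pool.Agent.P.MP_65ad7c_ag.RPt
section

open MeasureTheory Set Filter Topology Metric Matrix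
open scoped ComplexOrder ContDiff Matrix.Norms.Frobenius RealInnerProductSpace ENNReal
open Pool.Agent.Lib.Sob

noncomputable section
namespace Pool.Agent.PW

variable {E : Type} [NormedAddCommGroup E] [InnerProductSpace ℝ E] [FiniteDimensional ℝ E] {r : ℕ}
  {P Q : Mat r} {C : ℝ}

theorem rpt_inv_mul (hP : P.PosDef) : P⁻¹ * P = 1 :=
  Matrix.nonsing_inv_mul P ((Matrix.isUnit_iff_isUnit_det P).1 hP.isUnit)

theorem rpt_mul_inv (hP : P.PosDef) : P * P⁻¹ = 1 :=
  Matrix.mul_nonsing_inv P ((Matrix.isUnit_iff_isUnit_det P).1 hP.isUnit)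

theorem rpt_young {t X Y : ℝ} (hX : 0 ≤ X) (hY : 0 ≤ Y) (h : t ^ 2 ≤ 4 * X * Y) : t ≤ X + Y := by
  refine le_trans (le_abs_self t) (abs_le_of_sq_le_sq' ?_ (add_nonneg hX hY) |> abs_le.2)
  nlinarith [sq_nonneg (X - Y)]

omit [FiniteDimensional ℝ E] in
theorem rpt_pos {l L : ℝ} (hl : 0 ≤ l) {α : E →L[ℝ] E} (hα : Ell l L α) (v : E) :
    0 ≤ ⟪v, α v⟫ := (mul_nonneg hl (sq_nonneg _)).trans (hα.2.1 v)

theorem sg_sub_le (hC : 0 < C) (hP : Bd C P) (hQ : Bd C Q) :
    sg P Q - 2 * r ≤ r ^ 2 * C ^ 4 * ‖Q - P‖ ^ 2 := by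
  have e : P⁻¹ * Q - 1 = P⁻¹ * (Q - P) := by rw [Matrix.mul_sub, rpt_inv_mul (hP.posDef hC)]
  rw [sg_sub_eq (hP.posDef hC) (hQ.posDef hC), e]
  refine (nf_le hC hQ hP _).trans ?_
  have h1 : ‖P⁻¹ * (Q - P)‖ ≤ r * C * ‖Q - P‖ :=
    (norm_mul_le _ _).trans (mul_le_mul_of_nonneg_right (hP.norm_inv_le hC) (norm_nonneg _))
  have h2 := pow_le_pow_left₀ (norm_nonneg _) h1 2
  calc C ^ 2 * ‖P⁻¹ * (Q - P)‖ ^ 2 ≤ C ^ 2 * (r * C * ‖Q - P‖) ^ 2 :=
        mul_le_mul_of_nonneg_left h2 (sq_nonneg _)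
    _ = _ := by ring

theorem norm_sub_sq_le_sg (hC : 0 < C) (hP : Bd C P) (hQ : Bd C Q) :
    ‖Q - P‖ ^ 2 ≤ r ^ 2 * C ^ 4 * (sg P Q - 2 * r) := by
  have e : Q - P = P * (P⁻¹ * Q - 1) := by
    rw [Matrix.mul_sub, ← Matrix.mul_assoc, rpt_mul_inv (hP.posDef hC), Matrix.one_mul,
      Matrix.mul_one]
  rw [sg_sub_eq (hP.posDef hC) (hQ.posDef hC)]
  have h0 := le_nf hC hQ hP (P⁻¹ * Q - 1)
  have h1 : ‖Q - P‖ ≤ r * C * ‖P⁻¹ * Q - 1‖ := by
    conv_lhs => rw [e]
    exact (norm_mul_le _ _).trans (mul_le_mul_of_nonneg_right (hP.norm_le hC) (norm_nonneg _))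
  have h2 := pow_le_pow_left₀ (norm_nonneg _) h1 2
  calc ‖Q - P‖ ^ 2 ≤ (r * C) ^ 2 * ‖P⁻¹ * Q - 1‖ ^ 2 := by rw [← mul_pow]; exact h2
    _ ≤ (r * C) ^ 2 * (C ^ 2 * nf Q P (P⁻¹ * Q - 1) (P⁻¹ * Q - 1)) :=
        mul_le_mul_of_nonneg_left h0 (sq_nonneg _)
    _ = _ := by ring

theorem norm_kz_le_sub (hC : 0 < C) (hP : Bd C P) (hQ : Bd C Q) :
    ‖kz P Q‖ ≤ 2 * r * C * ‖Q - P‖ := by
  have e : kz P Q = P⁻¹ * (Q - P) + Q⁻¹ * (Q - P) := by
    rw [Matrix.mul_sub, Matrix.mul_sub, rpt_inv_mul (hP.posDef hC), rpt_inv_mul (hQ.posDef hC),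
      kz]
    abel
  have h1 : ‖P⁻¹ * (Q - P)‖ ≤ r * C * ‖Q - P‖ :=
    (norm_mul_le _ _).trans (mul_le_mul_of_nonneg_right (hP.norm_inv_le hC) (norm_nonneg _))
  have h2 : ‖Q⁻¹ * (Q - P)‖ ≤ r * C * ‖Q - P‖ :=
    (norm_mul_le _ _).trans (mul_le_mul_of_nonneg_right (hQ.norm_inv_le hC) (norm_nonneg _))
  rw [e]
  refine (norm_add_le _ _).trans ?_
  linarith

theorem norm_dk_sq_le {l L : ℝ} (hC : 0 < C) (hP : Bd C P) (hQ : Bd C Q) (hl : 0 ≤ l)
    {α : E →L[ℝ] E} (hα : Ell l L α) (D D' : E →L[ℝ] Mat r) :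
    l * ‖dk P Q D D'‖ ^ 2 ≤ C ^ 2 * qq α P Q D D' := by
  refine (norm_sq_le_npair hC hQ hP hl hα _).trans (mul_le_mul_of_nonneg_left ?_ (sq_nonneg _))
  exact le_add_of_nonneg_right
    (npair_nonneg (hP.posDef hC) (hQ.posDef hC) hα.1 (rpt_pos hl hα) _)

theorem norm_dkz_sq_le {l L : ℝ} (hC : 0 < C) (hP : Bd C P) (hQ : Bd C Q) (hl : 0 ≤ l)
    {α : E →L[ℝ] E} (hα : Ell l L α) (D D' : E →L[ℝ] Mat r) :
    l * ‖dkz P Q D D'‖ ^ 2 ≤ 2 * C ^ 2 * qq α P Q D D' := by
  have h1 := norm_sq_le_npair hC hQ hP hl hα (dk P Q D D')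
  have h2 := norm_sq_le_npair hC hP hQ hl hα (dk Q P D' D)
  have h3 : ‖dkz P Q D D'‖ ≤ ‖dk P Q D D'‖ + ‖dk Q P D' D‖ := norm_sub_le _ _
  have h4 : ‖dkz P Q D D'‖ ^ 2 ≤ 2 * (‖dk P Q D D'‖ ^ 2 + ‖dk Q P D' D‖ ^ 2) :=
    (pow_le_pow_left₀ (norm_nonneg _) h3 2).trans
      (by nlinarith [sq_nonneg (‖dk P Q D D'‖ - ‖dk Q P D' D‖)])
  have h5 := mul_le_mul_of_nonneg_left h4 hl
  unfold qq
  linarith

variable (E) in
/-- the pointwise inequality behind the difference quotient estimate -/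
theorem dq_pointwise (r : ℕ) {C l L : ℝ} (hC : 0 < C) (hl : 0 < l) : ∃ C₁ : ℝ, 0 ≤ C₁ ∧
    ∀ (P Q : Mat r) (D D' : E →L[ℝ] Mat r) (α α' : E →L[ℝ] E) (χ ε : ℝ) (p : E →L[ℝ] ℝ),
      Bd C P → Bd C Q → Ell l L α → ‖α - α'‖ ≤ ε →
      pair (α - α') (mc Q D') (χ ^ 2 • dkz P Q D D' + ((2 * χ) • p).smulRight (kz P Q)) -
          spair α (dsg P Q D D') ((2 * χ) • p) ≤
        2⁻¹ * (χ ^ 2 * qq α P Q D D') +
          C₁ * (ε ^ 2 * (χ ^ 2 * ‖D'‖ ^ 2) + ‖p‖ ^ 2 * ‖Q - P‖ ^ 2) := by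
  set d : ℝ := (Module.finrank ℝ E : ℝ) with hd
  have hd0 : 0 ≤ d := Nat.cast_nonneg _
  refine ⟨2 * C ^ 2 / l * (d * (r * C)) ^ 2 + 2 * d * (r * C) ^ 2
    + 8 * d ^ 2 * L ^ 2 * (r ^ 2 * C ^ 4) / l, by positivity, ?_⟩
  intro P Q D D' α α' χ ε p hP hQ hα hε
  have hε0 : 0 ≤ ε := (norm_nonneg _).trans hε
  have hL0 : 0 ≤ L := (norm_nonneg _).trans hα.2.2
  have hq : 0 ≤ qq α P Q D D' := qq_nonneg (hP.posDef hC) (hQ.posDef hC) hα.1 (rpt_pos hl.le hα)
  have hz := norm_dkz_sq_le hC hP hQ hl.le hα D D'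
  have hk := norm_kz_le_sub hC hP hQ
  have hs : l * ‖dsg P Q D D'‖ ^ 2 ≤ 2 * (r ^ 2 * C ^ 4 * ‖Q - P‖ ^ 2) * qq α P Q D D' :=
    ((le_spair hl.le hα _).trans
      (spair_dsg_le' (hP.posDef hC) (hQ.posDef hC) hα.1 (rpt_pos hl.le hα))).trans
      (mul_le_mul_of_nonneg_right (by linarith [sg_sub_le hC hP hQ]) hq)
  have hm : ‖mc Q D'‖ ≤ r * C * ‖D'‖ :=
    (norm_lmul_le _ _).trans (mul_le_mul_of_nonneg_right (hQ.norm_inv_le hC) (norm_nonneg _))
  have hp : ‖(2 * χ) • p‖ = 2 * |χ| * ‖p‖ := by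
    rw [norm_smul, Real.norm_eq_abs, abs_mul, abs_two]
  have hW : ‖χ ^ 2 • dkz P Q D D' + ((2 * χ) • p).smulRight (kz P Q)‖
      ≤ χ ^ 2 * ‖dkz P Q D D'‖ + 2 * |χ| * ‖p‖ * (2 * r * C * ‖Q - P‖) := by
    refine (norm_add_le _ _).trans (add_le_add (le_of_eq ?_) ?_)
    · rw [norm_smul, Real.norm_of_nonneg (sq_nonneg _)]
    · rw [ContinuousLinearMap.norm_smulRight_apply, hp]
      exact mul_le_mul_of_nonneg_left hk (by positivity)
  have b1 : pair (α - α') (mc Q D') (χ ^ 2 • dkz P Q D D' + ((2 * χ) • p).smulRight (kz P Q))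
      ≤ d * ε * (r * C * ‖D'‖)
        * (χ ^ 2 * ‖dkz P Q D D'‖ + 2 * |χ| * ‖p‖ * (2 * r * C * ‖Q - P‖)) := by
    refine (le_abs_self _).trans ((abs_pair_le _ _ _).trans ?_)
    gcongr
  have b2 : -spair α (dsg P Q D D') ((2 * χ) • p)
      ≤ d * L * ‖dsg P Q D D'‖ * (2 * |χ| * ‖p‖) := by
    refine (neg_le_abs _).trans ((abs_spair_le _ _ _).trans ?_)
    rw [hp]
    gcongr
    exact hα.2.2
  generalize qq α P Q D D' = q at *
  generalize ‖dkz P Q D D'‖ = z at *
  generalize ‖dsg P Q D D'‖ = s at *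
  generalize ‖Q - P‖ = k at *
  generalize ‖D'‖ = a at *
  generalize ‖p‖ = π at *
  have hχ : |χ| ^ 2 = χ ^ 2 := sq_abs χ
  have hz' : z ^ 2 ≤ 2 * C ^ 2 * q / l := by rw [le_div_iff₀ hl]; linarith
  have hs' : s ^ 2 ≤ 2 * (r ^ 2 * C ^ 4 * k ^ 2) * q / l := by rw [le_div_iff₀ hl]; linarith
  have t1 : d * ε * (r * C * a) * (χ ^ 2 * z) ≤ χ ^ 2 * q / 4
      + 2 * C ^ 2 / l * (d * (r * C)) ^ 2 * (ε ^ 2 * (χ ^ 2 * a ^ 2)) := by
    refine rpt_young (by positivity) (by positivity) ?_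
    calc (d * ε * (r * C * a) * (χ ^ 2 * z)) ^ 2
        = (d * ε * (r * C * a) * χ ^ 2) ^ 2 * z ^ 2 := by ring
      _ ≤ (d * ε * (r * C * a) * χ ^ 2) ^ 2 * (2 * C ^ 2 * q / l) :=
          mul_le_mul_of_nonneg_left hz' (sq_nonneg _)
      _ = _ := by ring
  have t2 : d * ε * (r * C * a) * (2 * |χ| * π * (2 * r * C * k))
      ≤ 2 * d * (r * C) ^ 2 * (ε ^ 2 * (χ ^ 2 * a ^ 2) + π ^ 2 * k ^ 2) := by
    have h1 : 2 * (ε * |χ| * a) * (π * k) ≤ ε ^ 2 * (χ ^ 2 * a ^ 2) + π ^ 2 * k ^ 2 := by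
      rw [← hχ]
      nlinarith [sq_nonneg (ε * |χ| * a - π * k)]
    calc d * ε * (r * C * a) * (2 * |χ| * π * (2 * r * C * k))
        = 2 * d * (r * C) ^ 2 * (2 * (ε * |χ| * a) * (π * k)) := by ring
      _ ≤ _ := mul_le_mul_of_nonneg_left h1 (by positivity)
  have t3 : d * L * s * (2 * |χ| * π) ≤ χ ^ 2 * q / 4
      + 8 * d ^ 2 * L ^ 2 * (r ^ 2 * C ^ 4) / l * (π ^ 2 * k ^ 2) := by
    refine rpt_young (by positivity) (by positivity) ?_
    calc (d * L * s * (2 * |χ| * π)) ^ 2 = (2 * d * L * π) ^ 2 * |χ| ^ 2 * s ^ 2 := by ring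
      _ ≤ (2 * d * L * π) ^ 2 * χ ^ 2 * (2 * (r ^ 2 * C ^ 4 * k ^ 2) * q / l) := by
          rw [hχ]
          exact mul_le_mul_of_nonneg_left hs' (by positivity)
      _ = _ := by ring
  have p1 : 0 ≤ 2 * C ^ 2 / l * (d * (r * C)) ^ 2 * (π ^ 2 * k ^ 2) := by positivity
  have p2 : 0 ≤ 8 * d ^ 2 * L ^ 2 * (r ^ 2 * C ^ 4) / l * (ε ^ 2 * (χ ^ 2 * a ^ 2)) := by
    positivity
  rw [mul_add] at b1
  linarith

end Pool.Agent.PW
end
end

-- part Pool.Agent.P.MP_65ad7c_ag.RDq1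
section

open MeasureTheory Set Filter Topology Metric Matrix
open scoped ComplexOrder ContDiff Matrix.Norms.Frobenius RealInnerProductSpace ENNReal
open Pool.Agent.Lib.Sob

noncomputable section
namespace Pool.Agent.PW

variable {E : Type} [NormedAddCommGroup E] [InnerProductSpace ℝ E] [FiniteDimensional ℝ E]
  [MeasurableSpace E] [BorelSpace E] {r : ℕ} {U : Set E}
  {α : E → E →L[ℝ] E} {h : E → Mat r} {D : E → E →L[ℝ] Mat r}

theorem rdq1_shift {V : Type} [NormedAddCommGroup V] {u : E → V} {K K' : Set E}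
    (hK' : MeasurableSet K') (hu : AEStronglyMeasurable u (volume.restrict K')) {v : E}
    (hv : ∀ x ∈ K, x + v ∈ K') : N2 K (fun x => u (x + v)) ≤ N2 K' u := by
  have a := (measurePreserving_add_right (volume : Measure E) v).restrict_preimage hK'
  have b := eLpNorm_comp_measurePreserving (p := 2) hu a
  exact (eLpNorm_mono_measure _ (Measure.restrict_mono (fun x hx => hv x hx) le_rfl)).trans b.le

omit [MeasurableSpace E] [BorelSpace E] in
theorem rdq1_lip (hU : IsOpen U) (hα : Coef U α) {K : Set E} (hK : IsCompact K) {δ : ℝ}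
    (hδ : 0 ≤ δ) (hs : cthickening δ K ⊆ U) :
    ∃ M : ℝ, ∀ x ∈ K, ∀ v : E, ‖v‖ ≤ δ → ‖α x - α (x + v)‖ ≤ M * ‖v‖ := by
  obtain ⟨M, hM⟩ := hK.cthickening.exists_bound_of_continuousOn
    ((hα.1.continuousOn_fderiv_of_isOpen hU (by simp)).mono hs)
  refine ⟨M, fun x hx v hv => ?_⟩
  have hb : closedBall x δ ⊆ cthickening δ K := closedBall_subset_cthickening hx δ
  have := (convex_closedBall x δ).norm_image_sub_le_of_norm_fderiv_le (𝕜 := ℝ) (f := α)
    (fun y hy => (hα.1.contDiffAt (hU.mem_nhds (hs (hb hy)))).differentiableAt (by simp))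
    (fun y hy => hM y (hb hy)) (x := x + v) (y := x) (by simpa using hv) (mem_closedBall_self hδ)
  simpa using this

/-- the difference quotient estimate -/
theorem dq_bound (hU : IsOpen U) (hα : Coef U α) (H : LH U α h D) {K : Set E} (hK : IsCompact K)
    (hKU : K ⊆ U) : ∃ δ C : ℝ, 0 < δ ∧ 0 ≤ C ∧ cthickening δ K ⊆ U ∧ ∀ v : E, ‖v‖ ≤ δ →
      N2 K (fun x => dk (h x) (h (x + v)) (D x) (D (x + v))) ≤ ENNReal.ofReal (C * ‖v‖) := by
  obtain ⟨χ, hχ, h1, h01⟩ := exists_cutoff hK hU hKU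
  have χ1 : ∀ x ∈ K, χ x = 1 := fun x hx => h1.self_of_nhdsSet x hx
  have c1 : IsCompact (tsupport χ) := hχ.2.1.isCompact
  have s1 : K ⊆ tsupport χ := fun x hx => subset_tsupport χ (by
    rw [Function.mem_support, χ1 x hx]; exact one_ne_zero)
  obtain ⟨δ, hδ, s2⟩ := c1.exists_cthickening_subset_open hU hχ.2.2
  have c2 : IsCompact (cthickening δ (tsupport χ)) := c1.cthickening
  obtain ⟨C, hC1, hC⟩ := H.lbd _ c2 s2
  have C0 : 0 < C := by linarith
  obtain ⟨l, L, hl, hE⟩ := hα.ell c1 hχ.2.2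
  obtain ⟨M, hM⟩ := rdq1_lip hU hα c1 hδ.le s2
  obtain ⟨G, hG⟩ := (hχ.2.1.fderiv ℝ).exists_bound_of_continuous hχ.continuous_fderiv
  obtain ⟨C₁, hC₁, hp⟩ := dq_pointwise E r (L := L) C0 hl
  have mD := H.wd.2.1 _ c2 s2
  obtain ⟨N, N0, hN⟩ : ∃ N : ℝ, 0 ≤ N ∧ N2 (cthickening δ (tsupport χ)) D = ENNReal.ofReal N :=
    ⟨_, ENNReal.toReal_nonneg, (ENNReal.ofReal_toReal mD.2.ne).symm⟩
  refine ⟨δ, √(2 * C ^ 2 * C₁ * (M ^ 2 + G ^ 2) * N ^ 2 / l), hδ, Real.sqrt_nonneg _,
    (cthickening_subset_of_subset δ s1).trans s2, fun v hv => ?_⟩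
  have m2 : ∀ x ∈ tsupport χ, x + v ∈ cthickening δ (tsupport χ) := fun x hx =>
    mem_cthickening_of_dist_le _ x δ _ hx (by simpa using hv)
  have m1 : ∀ x ∈ tsupport χ, x ∈ cthickening δ (tsupport χ) := fun x hx =>
    self_subset_cthickening _ hx
  have cv : Continuous fun x : E => x + v := continuous_id.add continuous_const
  have o1 : IsOpen (U ∩ {x | x + v ∈ U}) := hU.inter (hU.preimage cv)
  have k1 : tsupport χ ⊆ U ∩ {x | x + v ∈ U} := fun x hx => ⟨hχ.2.2 hx, s2 (m2 x hx)⟩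
  have H1 := H.mono (U' := U ∩ {x | x + v ∈ U}) inter_subset_left
  have H2 := (H.translate v).mono (U' := U ∩ {x | x + v ∈ U}) inter_subset_right
  have hη : WD 2 (U ∩ {x | x + v ∈ U}) (fun x => χ x ^ 2) fun x => (2 * χ x) • fderiv ℝ χ x := by
    refine (WD.of_contDiff (by norm_num) ((hχ.1.of_le (by simp)).pow 2)).congr' (fun _ _ => rfl)
      fun x _ => ?_
    simpa using ((hχ.differentiable x).hasFDerivAt.pow 2).fderiv
  obtain ⟨i1, i2, i3, e⟩ := cmp_identity o1 (hα.1.continuousOn.mono inter_subset_left)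
    (hα.1.continuousOn.comp cv.continuousOn fun x hx => hx.2) (fun x hx => (hα.2 x hx.1).1) H1 H2 hη
    (fun _ _ _ => ⟨1, fun x _ => by
      rw [Real.norm_of_nonneg (sq_nonneg _)]
      exact pow_le_one₀ (h01 x).1 (h01 x).2⟩)
    ⟨_, c1, k1, fun x _ hx => by simp [image_eq_zero_of_notMem_tsupport hx]⟩
  rw [setIntegral_eq_of_subset_of_forall_sdiff_eq_zero o1.measurableSet k1 fun x hx => by
      simp [image_eq_zero_of_notMem_tsupport hx.2],
    setIntegral_eq_of_subset_of_forall_sdiff_eq_zero o1.measurableSet k1 fun x hx => by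
      simp [image_eq_zero_of_notMem_tsupport hx.2, spair],
    setIntegral_eq_of_subset_of_forall_sdiff_eq_zero o1.measurableSet k1 fun x hx => by
      simp [image_eq_zero_of_notMem_tsupport hx.2, pair]] at e
  replace i1 := i1.mono_set k1
  replace i2 := i2.mono_set k1
  replace i3 := i3.mono_set k1
  have a1 : MemLp (fun x => D (x + v)) 2 (volume.restrict (tsupport χ)) := H2.wd.2.1 _ c1 k1
  have a2 : MemLp (fun x => h (x + v) - h x) 2 (volume.restrict (tsupport χ)) :=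
    (H2.wd.1.sub H1.wd.1) _ c1 k1
  have b1 := integral_sq_le_of_N2 a1 N0 ((rdq1_shift c2.measurableSet mD.1 m2).trans hN.le)
  have b2 := integral_sq_le_of_N2 a2 (mul_nonneg (norm_nonneg v) N0)
    ((dq_le hU H.wd c1 s2 hv).trans (by rw [hN, ENNReal.ofReal_mul (norm_nonneg v)]))
  have j1 := a1.integrable_norm_pow two_ne_zero
  have j2 := a2.integrable_norm_pow two_ne_zero
  have j3 : Integrable (fun x => (M * ‖v‖) ^ 2 * ‖D (x + v)‖ ^ 2 + G ^ 2 * ‖h (x + v) - h x‖ ^ 2)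
      (volume.restrict (tsupport χ)) := (j1.const_mul _).add (j2.const_mul _)
  have key := setIntegral_mono_on (i3.sub i2) ((i1.const_mul 2⁻¹).add (j3.const_mul C₁))
    c1.measurableSet fun x hx => by
      have := hp (h x) (h (x + v)) (D x) (D (x + v)) (α x) (α (x + v)) (χ x) (M * ‖v‖)
        (fderiv ℝ χ x) (hC _ (m1 x hx)) (hC _ (m2 x hx)) (hE x hx) (hM x hx v hv)
      refine this.trans (add_le_add le_rfl (mul_le_mul_of_nonneg_left (add_le_add ?_ ?_) hC₁))
      · exact mul_le_mul_of_nonneg_left (mul_le_of_le_one_left (sq_nonneg _)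
          (pow_le_one₀ (h01 x).1 (h01 x).2)) (sq_nonneg _)
      · exact mul_le_mul_of_nonneg_right (pow_le_pow_left₀ (norm_nonneg _) (hG x) 2) (sq_nonneg _)
  simp only [Pi.sub_apply, Pi.add_apply] at key
  rw [integral_sub i3 i2, integral_add (i1.const_mul _) (j3.const_mul _), integral_const_mul,
    integral_const_mul,
    integral_add (j1.const_mul _) (j2.const_mul _), integral_const_mul, integral_const_mul] at key
  have f1 : ∫ x in tsupport χ, χ x ^ 2 * qq (α x) (h x) (h (x + v)) (D x) (D (x + v)) ≤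
      2 * C₁ * (M ^ 2 + G ^ 2) * N ^ 2 * ‖v‖ ^ 2 := by
    have t1 := mul_le_mul_of_nonneg_left b1 (sq_nonneg (M * ‖v‖))
    have t2 := mul_le_mul_of_nonneg_left b2 (sq_nonneg G)
    have t3 := mul_le_mul_of_nonneg_left (add_le_add t1 t2) hC₁
    linear_combination 2 * e + 2 * key + 2 * t3
  have a3 : MemLp (fun x => dk (h x) (h (x + v)) (D x) (D (x + v))) 2 (volume.restrict K) :=
    (wd_k o1 H1.wd H2.wd H1.lbd H2.lbd).2.1 _ hK (s1.trans k1)
  have q : ∀ x ∈ tsupport χ, l * ‖dk (h x) (h (x + v)) (D x) (D (x + v))‖ ^ 2 ≤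
      C ^ 2 * qq (α x) (h x) (h (x + v)) (D x) (D (x + v)) := fun x hx =>
    norm_dk_sq_le C0 (hC _ (m1 x hx)) (hC _ (m2 x hx)) hl.le (hE x hx) _ _
  have f2 := setIntegral_mono_on ((a3.integrable_norm_pow two_ne_zero).const_mul l)
    ((i1.mono_set s1).const_mul (C ^ 2)) hK.measurableSet fun x hx => by
      rw [χ1 x hx, one_pow, one_mul]
      exact q x (s1 hx)
  rw [integral_const_mul, integral_const_mul] at f2
  have f3 := setIntegral_mono_set i1 (ae_restrict_of_forall_mem c1.measurableSet fun x hx =>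
    mul_nonneg (sq_nonneg _) (nonneg_of_mul_nonneg_right
      ((mul_nonneg hl.le (sq_nonneg _)).trans (q x hx)) (by positivity))) s1.eventuallyLE
  refine N2_le_of_integral_sq a3 (by positivity) ?_
  rw [mul_pow, Real.sq_sqrt (by positivity), div_mul_eq_mul_div, le_div_iff₀ hl]
  have := mul_le_mul_of_nonneg_left (f3.trans f1) (sq_nonneg C)
  linear_combination f2 + this

end Pool.Agent.PW
end
end

-- part Pool.Agent.P.MP_65ad7c_ag.RDq2
section

open MeasureTheory Set Filter Topology Metric Matrix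
open scoped ComplexOrder ContDiff Matrix.Norms.Frobenius RealInnerProductSpace ENNReal
open Pool.Agent.Lib.Sob

noncomputable section
namespace Pool.Agent.PW

variable {E : Type} [NormedAddCommGroup E] [InnerProductSpace ℝ E] [FiniteDimensional ℝ E]
  [MeasurableSpace E] [BorelSpace E] {r : ℕ} {U : Set E}
  {α : E → E →L[ℝ] E} {h : E → Mat r} {D : E → E →L[ℝ] Mat r}

/-- a form whose components are Sobolev functions is a Sobolev function -/
theorem wd_of_components {V : Type} [NormedAddCommGroup V] [NormedSpace ℝ V] [CompleteSpace V]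
    {A : E → E →L[ℝ] V} (h : ∀ p, ∃ γ, WD 2 U (fun x => A x (ob E p)) γ) : ∃ β, WD 2 U A β := by
  choose γ hγ using h
  have key : ∀ s : Finset (Fin (Module.finrank ℝ E)), ∃ β, WD 2 U (fun x => ∑ p ∈ s,
      ContinuousLinearMap.smulRightL ℝ E V (innerSL ℝ (ob E p)) (A x (ob E p))) β := by
    intro s
    induction s using Finset.induction_on with
    | empty => exact ⟨_, by simpa using WD.const one_le_two (0 : E →L[ℝ] V)⟩
    | insert p s hp ih =>
      obtain ⟨β, hβ⟩ := ih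
      simp only [Finset.sum_insert hp]
      exact ⟨_, ((hγ p).clm one_le_two _).add one_le_two hβ⟩
  obtain ⟨β, hβ⟩ := key Finset.univ
  refine ⟨β, hβ.congr' (fun x _ => ?_) fun _ _ => rfl⟩
  ext v
  conv_rhs => rw [← (ob E).sum_repr' v, map_sum]
  simp

theorem rdq2_smul {V : Type} [NormedAddCommGroup V] [NormedSpace ℝ V] (K : Set E) (c : ℝ)
    (f : E → V) : N2 K (fun x => c • f x) ≤ ‖c‖ₑ * eLpNorm f 2 (volume.restrict K) :=
  eLpNorm_const_smul_le (c := c) (f := f)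

theorem rdq2_alg {P Q X : Mat r} (hP : P.PosDef) (t : ℝ) :
    t • (P⁻¹ * Q - 1) - P⁻¹ * X = P⁻¹ * (t • (Q - P) - X) := by
  rw [Matrix.mul_sub, Matrix.mul_smul, Matrix.mul_sub,
    Matrix.nonsing_inv_mul P ((isUnit_iff_isUnit_det P).1 hP.isUnit)]

/-- the Maurer-Cartan form of a weakly harmonic metric is in `W^{1,2}` -/
theorem wd_mc (hU : IsOpen U) (hα : Coef U α) (H : LH U α h D) {U' K : Set E} (hU' : IsOpen U')
    (hK : IsCompact K) (h1 : U' ⊆ K) (h2 : K ⊆ U) :
    ∃ β, WD 2 U' (fun x => mc (h x) (D x)) β := by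
  obtain ⟨δ, C, hδ, hC, hth, hb⟩ := dq_bound hU hα H hK h2
  refine wd_of_components fun p => ?_
  obtain ⟨e, he⟩ : ∃ e, e = ob E p := ⟨_, rfl⟩
  have hn : ‖e‖ = 1 := by rw [he]; exact (ob E).norm_eq_one p
  rw [← he]
  obtain ⟨s, s0, sδ, st⟩ : ∃ s : ℕ → ℝ, (∀ m, 0 < s m) ∧ (∀ m, s m ≤ δ) ∧
      Tendsto s atTop (𝓝[>] 0) := by
    obtain ⟨s, -, hs, ht⟩ := exists_seq_strictAnti_tendsto' hδ
    exact ⟨s, fun m => (hs m).1, fun m => (hs m).2.le,
      tendsto_nhdsWithin_iff.2 ⟨ht, Eventually.of_forall fun m => (hs m).1⟩⟩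
  have hse : ∀ m, ‖s m • e‖ = s m := fun m => by
    rw [norm_smul, hn, mul_one, Real.norm_of_nonneg (s0 m).le]
  have H1 := H.mono (h1.trans h2)
  have H2 : ∀ m, LH U' (fun x => α (x + s m • e)) (fun x => h (x + s m • e))
      fun x => D (x + s m • e) := fun m => (H.translate (s m • e)).mono fun x hx =>
    hth (mem_cthickening_of_dist_le _ x δ K (h1 hx) (by
      rw [dist_eq_norm, add_sub_cancel_left, hse]; exact sδ m))
  refine Exists.imp (fun _ hβ => hβ.1) (wd_weak hU' (v := fun x => mc (h x) (D x) e)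
    (fun m => ((wd_k hU' H1.wd (H2 m).wd H1.lbd (H2 m).lbd).sub_const one_le_two 1).const_smul
      (s m)⁻¹) ((locLp_mc hU' H1.wd H1.lbd).apply e) (fun K' hK' hK'U => ?_)
    fun K' hK' hK'U => ⟨C, fun m => ?_⟩)
  · obtain ⟨B, hB⟩ := H1.lbd.lb_inv K' hK' hK'U
    have : IsFiniteMeasure (volume.restrict K') := ⟨by simpa using hK'.measure_lt_top⟩
    have t1 := (dq_tendsto hU H.wd hK' (hK'U.trans (h1.trans h2)) e).comp st
    have t2 : Tendsto (fun m => ∫⁻ x in K',
        ‖(s m)⁻¹ • (h (x + s m • e) - h x) - D x e‖ₑ) atTop (𝓝 0) := by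
      refine tendsto_lintegral_one_of_pow one_le_two (fun m => ?_) ?_
      · exact ((((H2 m).wd.1.sub H1.wd.1).smul (continuousOn_const (c := (s m)⁻¹))).sub
          (H1.wd.2.1.apply e) K' hK' hK'U).1
      · simp only [lintegral_pow_eq one_le_two]
        simpa [N2] using ENNReal.Tendsto.pow (n := 2) t1
    have t3 := ENNReal.Tendsto.const_mul (a := ENNReal.ofReal B) t2
      (Or.inr ENNReal.ofReal_ne_top)
    rw [mul_zero] at t3
    refine tendsto_of_tendsto_of_tendsto_of_le_of_le tendsto_const_nhds t3 (fun _ => zero_le)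
      fun m => ?_
    beta_reduce
    rw [← lintegral_const_mul' _ _ ENNReal.ofReal_ne_top]
    refine setLIntegral_mono' hK'.measurableSet fun x hx => ?_
    rw [mc, lmul_apply, rdq2_alg (H1.lbd.posDef x (hK'U hx)), ← ofReal_norm, ← ofReal_norm,
      ← ENNReal.ofReal_mul ((norm_nonneg _).trans (hB x hx))]
    exact ENNReal.ofReal_le_ofReal ((norm_mul_le _ _).trans
      (mul_le_mul_of_nonneg_right (hB x hx) (norm_nonneg _)))
  · have h3 := hb (s m • e) ((hse m).trans_le (sδ m))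
    rw [hse] at h3
    have h4 := (eLpNorm_mono_measure _ (Measure.restrict_mono (hK'U.trans h1) le_rfl)).trans h3
    refine (rdq2_smul K' (s m)⁻¹ _).trans ((mul_le_mul_right h4 _).trans (le_of_eq ?_))
    rw [Real.enorm_eq_ofReal (inv_nonneg.2 (s0 m).le),
      ← ENNReal.ofReal_mul (inv_nonneg.2 (s0 m).le), mul_comm C, ← mul_assoc,
      inv_mul_cancel₀ (s0 m).ne', one_mul]

end Pool.Agent.PW
end
end

-- part Pool.Agent.P.MP_65ad7c_ag.RRep
section

open MeasureTheory Set Filter Topology Metric Matrix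
open scoped ComplexOrder ContDiff Matrix.Norms.Frobenius RealInnerProductSpace ENNReal
open Pool.Agent.Lib.Sob

noncomputable section
namespace Pool.Agent.PW

variable {E : Type} [NormedAddCommGroup E] [InnerProductSpace ℝ E] [FiniteDimensional ℝ E]
  [MeasurableSpace E] [BorelSpace E] {r : ℕ} {U : Set E}
  {V : Type} [NormedAddCommGroup V] [NormedSpace ℝ V] {Γ : Type} [Group Γ]

theorem rrep_norm_moll_le {k : ℕ} {g : E → V} {x : E} {L : ℝ}
    (h : ∀ᵐ t, t ∈ ball x (1 / ((k : ℝ) + 1)) → ‖g t‖ ≤ L) : ‖moll k g x‖ ≤ L := by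
  unfold moll
  rw [convolution_lsmul_swap]
  have hi : Integrable fun t => (bump E k).normed volume (x - t) * L :=
    ((bump E k).integrable_normed.comp_sub_left x).mul_const L
  refine (norm_integral_le_of_norm_le hi ?_).trans (le_of_eq ?_)
  · filter_upwards [h] with t ht
    rw [norm_smul, Real.norm_of_nonneg ((bump E k).nonneg_normed _)]
    by_cases h0 : (bump E k).normed volume (x - t) = 0
    · simp [h0]
    · have h' : x - t ∈ Function.support ((bump E k).normed volume) := h0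
      rw [(bump E k).support_normed_eq, mem_ball, dist_zero_right] at h'
      refine mul_le_mul_of_nonneg_left (ht ?_) ((bump E k).nonneg_normed _)
      rw [mem_ball, dist_comm, dist_eq_norm]
      exact h'
  · rw [integral_mul_const, integral_sub_left_eq_self ((bump E k).normed volume) volume x,
      (bump E k).integral_normed, one_mul]

/-- the continuous representative -/
theorem exists_rep [FiniteDimensional ℝ V] (hU : IsOpen U) {u : E → V} {D : E → E →L[ℝ] V}
    (h : WD 2 U u D) {R L : ℝ} (hR : closedBall (0 : E) R ⊆ U)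
    (hL : ∀ᵐ x, x ∈ ball (0 : E) R → ‖D x‖ ≤ L) :
    ∃ u' : E → V, Continuous u' ∧ ∀ᵐ x, x ∈ ball (0 : E) R → u' x = u x := by
  have : CompleteSpace V := FiniteDimensional.complete ℝ V
  obtain ⟨u', D', K', O, hg, -, -, -, -, -, hKO, -, -, -, e1, e2, -⟩ :=
    h.exists_global (by norm_num) hU (isCompact_closedBall (0 : E) R) hR
  have lu := hg.1.locallyIntegrable (by norm_num)
  have hL' : ∀ᵐ x, x ∈ ball (0 : E) R → ‖D' x‖ ≤ max L 0 := by
    filter_upwards [hL] with x hx hxR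
    rw [e2 x (hKO (ball_subset_closedBall hxR))]
    exact (hx hxR).trans (le_max_left _ _)
  set S : Set E := {x | x ∈ ball (0 : E) R ∧ Tendsto (fun k => moll k u' x) atTop (𝓝 (u' x))}
    with hS
  have hlip : LipschitzOnWith (Real.toNNReal (max L 0)) u' S := by
    refine LipschitzOnWith.of_dist_le_mul fun x hx y hy => ?_
    rw [Real.coe_toNNReal _ (le_max_right _ _), dist_eq_norm, dist_eq_norm]
    have hxR : ‖x‖ < R := by simpa using hx.1
    have hyR : ‖y‖ < R := by simpa using hy.1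
    have hρ : 0 < R - max ‖x‖ ‖y‖ := sub_pos.2 (max_lt hxR hyR)
    have hev : ∀ᶠ k : ℕ in atTop, 1 / ((k : ℝ) + 1) < R - max ‖x‖ ‖y‖ :=
      (tendsto_one_div_add_atTop_nhds_zero_nat (𝕜 := ℝ)).eventually (gt_mem_nhds hρ)
    refine le_of_tendsto (hx.2.sub hy.2).norm ?_
    filter_upwards [hev] with k hk
    refine (convex_closedBall (0 : E) (max ‖x‖ ‖y‖)).norm_image_sub_le_of_norm_fderiv_le
      (𝕜 := ℝ) (f := moll k u') (fun z _ => (contDiff_moll k lu).differentiable (by simp) z)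
      (fun z hz => ?_) (by simp) (by simp)
    rw [hg.fderiv_moll (by norm_num)]
    refine rrep_norm_moll_le ?_
    filter_upwards [hL'] with t ht htz
    refine ht ?_
    have h1 : ‖z‖ ≤ max ‖x‖ ‖y‖ := by simpa only [mem_closedBall, dist_zero_right] using hz
    have h2 : ‖t - z‖ < 1 / ((k : ℝ) + 1) := by simpa only [mem_ball, dist_eq_norm] using htz
    have h3 : ‖t‖ ≤ ‖t - z‖ + ‖z‖ := by simpa using norm_add_le (t - z) z
    rw [mem_ball, dist_zero_right]
    linarith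
  obtain ⟨g, hgl, hge⟩ := hlip.extend_finite_dimension
  refine ⟨g, hgl.continuous, ?_⟩
  filter_upwards [ae_tendsto_moll lu] with x hx hxR
  rw [← hge ⟨hxR, hx⟩, e1 x (hKO (ball_subset_closedBall hxR))]

omit [NormedSpace ℝ V] in
/-- closed conditions that hold a.e. hold everywhere for a continuous function -/
theorem mem_closed_of_ae (hU : IsOpen U) {u : E → V} (hu : ContinuousOn u U) {F : Set V}
    (hF : IsClosed F) (h : ∀ᵐ x, x ∈ U → u x ∈ F) : ∀ x ∈ U, u x ∈ F := by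
  have ho : IsOpen (U ∩ u ⁻¹' Fᶜ) := hu.isOpen_inter_preimage hU hF.isOpen_compl
  have h0 : volume (U ∩ u ⁻¹' Fᶜ) = 0 := by
    refine measure_mono_null (fun x hx => ?_) (ae_iff.1 h)
    exact fun hh => hx.2 (hh hx.1)
  have he := (ho.measure_eq_zero_iff volume).1 h0
  intro x hx
  by_contra hn
  have : x ∈ U ∩ u ⁻¹' Fᶜ := ⟨hx, hn⟩
  rw [he] at this
  exact this

/-- compatibility passes to continuous representatives -/
theorem Pre.MC.rep {A : Pre E Γ} (hU : IsOpen U) {ρ : Γ →* Mat r} {h h' : A.ι → E → Mat r}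
    (hm : A.MC U ρ h) (hc : ∀ a, ContinuousOn (h' a) U)
    (he : ∀ a, ∀ᵐ x, x ∈ U → h' a x = h a x) : A.MC U ρ h' := by
  intro a b
  have hd := A.diffeo hU a b
  have c1 : ContinuousOn (fun x => h' b (A.T a b x)) (A.ov U a b) :=
    (hc b).comp hd.s.continuousOn fun x hx => hx.2.2
  have c2 : ContinuousOn (fun x => ρ (A.c a b x)) (A.ov U a b) := fun x hx => by
    refine ContinuousAt.continuousWithinAt ?_
    refine (continuousAt_const (y := ρ (A.c a b x))).congr ?_
    filter_upwards [A.c_loc a b x hx.1] with y hy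
    rw [hy]
  have c3 : ContinuousOn (fun x => gm (h' a x) (ρ (A.c a b x))) (A.ov U a b) := by
    have c4 : ContinuousOn (fun x => (ρ (A.c a b x))ᴴ) (A.ov U a b) :=
      (adjL r).continuous.comp_continuousOn c2
    exact (c4.mul ((hc a).mono fun x hx => hx.2.1)).mul c2
  refine eqOn_of_ae hd.o c1 c3 ?_
  have h1 : ∀ᵐ y, y ∈ A.ov U b a → h' b y = h b y := (he b).mono fun y hy hy' => hy hy'.2.1
  filter_upwards [hd.ae_comp h1, he a] with x hx hx' hxo
  rw [hx hxo, hx' hxo.2.1, hm a b x hxo]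

theorem WCurl.congrR {om om' : E → E →L[ℝ] Mat r} {Φ : E → E → E → Mat r} (h : WCurl U om Φ)
    (he : ∀ᵐ x, x ∈ U → om x = om' x) : WCurl U om' Φ := by
  intro φ hφ v w
  rw [← h φ hφ v w]
  refine integral_congr_ae ?_
  filter_upwards [he] with x hx
  by_cases hxU : x ∈ U
  · rw [hx hxU]
  · simp [hφ.fderiv_zero_of_notMem hxU]

theorem WCurl.monoR {U' : Set E} {om : E → E →L[ℝ] Mat r} {Φ : E → E → E → Mat r}
    (h : WCurl U om Φ) (hU : U' ⊆ U) : WCurl U' om Φ := fun φ hφ => h φ (hφ.mono hU)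

end Pool.Agent.PW
end
end

-- part Pool.Agent.P.MP_65ad7c_ag.RPh
section

open MeasureTheory Set Filter Topology Metric Matrix
open scoped ComplexOrder ContDiff Matrix.Norms.Frobenius RealInnerProductSpace ENNReal
open Pool.Agent.Lib.Sob

noncomputable section
namespace Pool.Agent.PW

variable {n r : ℕ} {Γ : Type} [Group Γ]

theorem Coef.mono {E : Type} [NormedAddCommGroup E] [InnerProductSpace ℝ E] {U U' : Set E}
    {α : E → E →L[ℝ] E} (h : Coef U α) (hU : U' ⊆ U) : Coef U' α :=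
  ⟨h.1.mono hU, fun x hx => h.2 x (hU hx)⟩

/-- harmonic metrics on a compact Kaehler manifold are pluriharmonic -/
theorem ph_ae (A : KAtlas n Γ) {ρ : Γ →* Mat r} {C : ℝ} {h : A.ι → EC n → Mat r}
    {D : A.ι → EC n → EC n →L[ℝ] Mat r} (H : A.toAtlas.HM ρ C h D) (a : A.ι) :
    (∀ᵐ x, x ∈ ball (0 : EC n) 4 → PH1 (mc (h a x) (D a x))) ∧
      WCurl (ball 0 4) (fun x => (mc (h a x) (D a x)).comp (IL n)) fun _ _ _ => 0 := by
  have hU : IsOpen (ball (0 : EC n) (11 / 2)) := isOpen_ball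
  have hU6 : ball (0 : EC n) (11 / 2) ⊆ ball 0 6 := ball_subset_ball (by norm_num)
  have h46 : ball (0 : EC n) 4 ⊆ ball 0 (11 / 2) := ball_subset_ball (by norm_num)
  have hL : ∀ a, LH (ball 0 6) (A.α a) (h a) (D a) := fun a => ⟨H.wd a, H.lbd a, H.harm a⟩
  choose β hβ using fun a => wd_mc isOpen_ball (A.coef a) (hL a) hU
    (isCompact_closedBall 0 (11 / 2)) ball_subset_closedBall (closedBall_subset_ball (by norm_num))
  have hp : ∀ a, ∀ x ∈ ball (0 : EC n) (11 / 2), (h a x).PosDef :=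
    fun a x hx => (H.lbd a).posDef x (hU6 hx)
  have hw : ∀ a, WD 2 (ball (0 : EC n) (11 / 2)) (h a) (D a) := fun a => (H.wd a).mono hU6
  have hJ := fun a => jet_ae hU (hw a) (hp a) (hβ a)
  have hf : ∀ a, ∀ᵐ x, x ∈ ball (0 : EC n) (11 / 2) → JFlat (mc (h a x) (D a x)) (β a x) :=
    fun a => (hJ a).mono fun x hx hx' => (hx hx').flat
  have hg : ∀ a, IsKahlerOn (ball (0 : EC n) (11 / 2)) (A.g a) := fun a => (A.kae a).mono hU6
  obtain ⟨χ, hχ, hχp⟩ := A.toPre.exists_pou (R := 4) (R' := 5) (by norm_num) (by norm_num)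
    (by norm_num)
  have hχ' : A.Pou (ball 0 (11 / 2)) χ := hχ.mono (closedBall_subset_ball (by norm_num))
  have hs : ∀ a, ∀ᵐ x, x ∈ ball (0 : EC n) (11 / 2) →
      0 ≤ (SF (kG (A.g a x)) (mc (h a x) (D a x)) (β a x)).re ∧
      ((SF (kG (A.g a x)) (mc (h a x) (D a x)) (β a x)).re = 0 →
        PH1 (mc (h a x) (D a x)) ∧ PH2 (β a x)) := by
    intro a
    have e : A.α a = fun x => kα (A.g a x) := funext (A.α_eq a)
    have h1 := harm_ae hU ((A.coef a).mono hU6).1 (e ▸ divFree_kα hU (hg a)) (hβ a)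
      ((hL a).mono hU6).harm
    filter_upwards [h1, hJ a] with x hx1 hx2 hx
    refine (hx2 hx).SF_sign (hp a x hx) ((hg a).2.1 x hx) ?_
    have h2 := hx1 hx
    rw [A.α_eq a x, trace_formula ((hg a).2.1 x hx)] at h2
    exact (smul_eq_zero.1 h2).resolve_left (by norm_num)
  have hi : ∀ a, Integrable fun x =>
      (χ a x : ℂ) * SF (kG (A.g a x)) (mc (h a x) (D a x)) (β a x) := fun a => by
    have := (locLp_SF hU (hg a) (hβ a) (hf a)).integrable_test le_rfl (hχ'.1 a).1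
    simpa only [Complex.real_smul] using this
  have hi' : ∀ a, Integrable fun x =>
      χ a x * (SF (kG (A.g a x)) (mc (h a x) (D a x)) (β a x)).re := fun a => by
    simpa using (hi a).re
  have hn : ∀ a, 0 ≤ᵐ[volume] fun x =>
      χ a x * (SF (kG (A.g a x)) (mc (h a x) (D a x)) (β a x)).re := fun a => by
    filter_upwards [hs a] with x hx
    by_cases hx' : x ∈ ball (0 : EC n) (11 / 2)
    · exact mul_nonneg ((hχ'.1 a).2 x) (hx hx').1
    · simp [(hχ'.1 a).1.zero_of_notMem hx']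
  have h0 : ∑ a, ∫ x, χ a x * (SF (kG (A.g a x)) (mc (h a x) (D a x)) (β a x)).re = 0 := by
    have h1 := sum_SP_zero A hU hU6 hχ' hw (H.mc.mono hU6) hp hβ hf
    rw [← Finset.sum_congr rfl fun a _ => local_ss hU (hg a) (hβ a) (hf a) (hχ'.1 a).1] at h1
    have h2 := congrArg Complex.re h1
    rw [Complex.re_sum] at h2
    rw [← Complex.zero_re, ← h2]
    refine Finset.sum_congr rfl fun a _ => ?_
    have := integral_re (hi a)
    simpa using this
  have h1 := (Finset.sum_eq_zero_iff_of_nonneg fun a _ => integral_nonneg_of_ae (hn a)).1 h0 a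
    (Finset.mem_univ a)
  have h2 := (integral_eq_zero_iff_of_nonneg_ae (hn a) (hi' a)).1 h1
  have h3 : ∀ᵐ x, x ∈ ball (0 : EC n) 4 → PH1 (mc (h a x) (D a x)) ∧ PH2 (β a x) := by
    filter_upwards [h2, hs a] with x hx1 hx2 hx
    exact (hx2 (h46 hx)).2
      ((mul_eq_zero.1 hx1).resolve_left (hχp a x (ball_subset_closedBall hx)).ne')
  exact ⟨h3.mono fun x hx hx' => (hx hx').1,
    wcurl_of_ae ((hβ a).mono h46) (IL n) (h3.mono fun x hx hx' => (hx hx').2)⟩

end Pool.Agent.PW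
end
end

-- part Pool.Agent.P.MP_65ad7c_ag.RSub
section

open MeasureTheory Set Filter Topology Metric Matrix
open scoped ComplexOrder ContDiff Matrix.Norms.Frobenius RealInnerProductSpace ENNReal
open Pool.Agent.Lib.Sob

noncomputable section
namespace Pool.Agent.PW

variable {E : Type} [NormedAddCommGroup E] [InnerProductSpace ℝ E] [FiniteDimensional ℝ E]
  [MeasurableSpace E] [BorelSpace E] {r : ℕ} {U : Set E}
  {α : E → E →L[ℝ] E} {h h' : E → Mat r} {D D' : E → E →L[ℝ] Mat r}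

/-- chain rule for a real function of a real Sobolev function bounded below -/
theorem rsub_chain (hU : IsOpen U) {s : E → ℝ} {G : E → E →L[ℝ] ℝ} (hs : WD 2 U s G)
    (hb : LB U s) {a b : ℝ} (hab : b < a) (ha : ∀ x ∈ U, a ≤ s x) {F F' : ℝ → ℝ}
    (hF : ContDiffOn ℝ 1 F (Ioi b)) (hF' : ∀ t, b < t → HasDerivAt F (F' t) t) :
    WD 2 U (fun x => F (s x)) (fun x => F' (s x) • G x) ∧ LB U fun x => F (s x) := by
  have hr : ∀ K, IsCompact K → K ⊆ U → ∃ C : ℝ, ∀ x ∈ K, s x ∈ Icc a C := by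
    intro K hK hKU
    obtain ⟨C, hC⟩ := hb K hK hKU
    exact ⟨C, fun x hx => ⟨ha x (hKU hx), (le_abs_self _).trans (hC x hx)⟩⟩
  have hsub : ∀ C, Icc a C ⊆ Ioi b := fun C t ht => hab.trans_le ht.1
  constructor
  · refine (wd_chain (by norm_num) hU hs isOpen_Ioi hF ?_).congr' (fun _ _ => rfl) ?_
    · intro K hK hKU
      obtain ⟨C, hC⟩ := hr K hK hKU
      exact ⟨Icc a C, isCompact_Icc, hsub C, Eventually.of_forall hC⟩
    · intro x hx
      rw [(hF' (s x) (hab.trans_le (ha x hx))).hasFDerivAt.fderiv]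
      ext v
      simp [mul_comm]
  · intro K hK hKU
    obtain ⟨C, hC⟩ := hr K hK hKU
    obtain ⟨M, hM⟩ := isCompact_Icc.exists_bound_of_continuousOn (hF.continuousOn.mono (hsub C))
    exact ⟨M, fun x hx => hM _ (hC x hx)⟩

omit [MeasurableSpace E] [BorelSpace E] in
theorem rsub_spair (β : E →L[ℝ] E) (G p : E →L[ℝ] ℝ) (a b e : ℝ) :
    spair β G (((ContinuousLinearMap.mul ℝ ℝ).flip e).comp (b • G) +
        ((ContinuousLinearMap.mul ℝ ℝ) a).comp p) =
      e * b * spair β G G + spair β (a • G) p := by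
  unfold spair
  rw [Finset.mul_sum, ← Finset.sum_add_distrib]
  refine Finset.sum_congr rfl fun i _ => ?_
  simp
  ring

theorem rsub_deriv {c t : ℝ} (ht : 0 < t + c) :
    HasDerivAt (fun t => √(t + c)) (2 * √(t + c))⁻¹ t := by
  have := ((hasDerivAt_id t).add_const c).sqrt ht.ne'
  simpa using this

theorem rsub_deriv' {c t : ℝ} (ht : 0 < t + c) :
    HasDerivAt (fun t => (2 * √(t + c))⁻¹) (-(4 * √(t + c) ^ 3)⁻¹) t := by
  have h0 : 0 < √(t + c) := Real.sqrt_pos.2 ht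
  have h1 := ((rsub_deriv ht).const_mul 2).inv (by positivity)
  have h2 : -(2 * (2 * √(t + c))⁻¹) / (2 * √(t + c)) ^ 2 = -(4 * √(t + c) ^ 3)⁻¹ := by
    field_simp
    ring
  rw [h2] at h1
  exact h1

theorem rsub_cd (c : ℝ) : ContDiffOn ℝ 1 (fun t => √(t + c)) (Ioi (-c)) :=
  (contDiffOn_id.add contDiffOn_const).sqrt fun t ht => by
    have : -c < t := ht
    have h : 0 < t + c := by linarith
    exact h.ne'

theorem rsub_cd' (c : ℝ) : ContDiffOn ℝ 1 (fun t => (2 * √(t + c))⁻¹) (Ioi (-c)) :=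
  (contDiffOn_const.mul (rsub_cd c)).inv fun t ht => by
    have : -c < t := ht
    have h : 0 < t + c := by linarith
    have := Real.sqrt_pos.2 h
    positivity

/-- the square root of the distance function of two harmonic metrics is a subsolution -/
theorem sqrt_subsol (hU : IsOpen U) (hα : ContinuousOn α U)
    (hs : ∀ x ∈ U, ∀ v w, ⟪α x v, w⟫ = ⟪v, α x w⟫) (hp : ∀ x ∈ U, ∀ v, 0 ≤ ⟪v, α x v⟫)
    (H : LH U α h D) (H' : LH U α h' D') {ε : ℝ} (hε : 0 < ε) {K : Set E} (hK : IsCompact K)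
    (hKU : K ⊆ U) :
    ∃ Df, WD 2 U (fun x => √(sg (h x) (h' x) - 2 * r + ε)) Df ∧
      LB U (fun x => √(sg (h x) (h' x) - 2 * r + ε)) ∧ SubSol U K α Df 0 := by
  obtain ⟨w, b⟩ := wd_sg hU H.wd H'.wd H.lbd H'.lbd
  have hab : -(-2 * (r : ℝ) + ε) < 2 * r := by linarith
  have ha : ∀ x ∈ U, 2 * (r : ℝ) ≤ sg (h x) (h' x) := fun x hx =>
    le_sg (H.lbd.posDef x hx) (H'.lbd.posDef x hx)
  have e : ∀ x, sg (h x) (h' x) - 2 * r + ε = sg (h x) (h' x) + (-2 * r + ε) := fun x => by ring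
  obtain ⟨w1, b1⟩ := rsub_chain hU w b hab ha (rsub_cd _)
    (fun t ht => rsub_deriv (by linarith))
  obtain ⟨w2, b2⟩ := rsub_chain hU w b hab ha (rsub_cd' _)
    (fun t ht => rsub_deriv' (by linarith))
  simp only [e]
  refine ⟨_, w1, b1, fun η Dη hη hb h0 hc => ?_⟩
  rw [zero_mul]
  by_cases hi : IntegrableOn (fun x => spair (α x)
      ((2 * √(sg (h x) (h' x) + (-2 * r + ε)))⁻¹ • dsg (h x) (h' x) (D x) (D' x)) (Dη x)) U
  swap
  · exact (integral_undef hi).le
  have w3 := wd_bilin (by norm_num) hU (ContinuousLinearMap.mul ℝ ℝ) w2 hη b2 hb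
  have b3 := b2.bilin (ContinuousLinearMap.mul ℝ ℝ) hb
  obtain ⟨i1, i2, -, i4⟩ := cmp_identity hU hα hα hs H H' w3 b3
    ⟨K, hK, hKU, fun x hx hxK => by simp [hc x hx hxK]⟩
  have z : ∀ (x : E) (X Y : E →L[ℝ] Mat r), pair (α x - α x) X Y = 0 := by
    intro x X Y
    simp [pair]
  simp only [z, integral_zero] at i4
  rw [← i4, ← integral_add i1 i2]
  refine setIntegral_mono_on hi (i1.add i2) hU.measurableSet fun x hx => ?_
  rw [rsub_spair]
  have p1 := H.lbd.posDef x hx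
  have p2 := H'.lbd.posDef x hx
  have q1 := spair_dsg_le' (D := D x) (D' := D' x) p1 p2 (hs x hx) (hp x hx)
  have q2 := qq_nonneg (D := D x) (D' := D' x) p1 p2 (hs x hx) (hp x hx)
  have q3 := ha x hx
  have q4 := h0 x hx
  have q5 : 0 < sg (h x) (h' x) + (-2 * r + ε) := by linarith
  have q6 := Real.sq_sqrt q5.le
  have q7 := Real.sqrt_pos.2 q5
  simp only [ContinuousLinearMap.mul_apply']
  generalize √(sg (h x) (h' x) + (-2 * r + ε)) = f at q6 q7 ⊢
  generalize spair (α x) (dsg (h x) (h' x) (D x) (D' x)) (dsg (h x) (h' x) (D x) (D' x)) = S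
    at q1 ⊢
  generalize qq (α x) (h x) (h' x) (D x) (D' x) = Q at q1 q2 ⊢
  have q8 : S ≤ 2 * f ^ 2 * Q := by
    refine q1.trans (mul_le_mul_of_nonneg_right ?_ q2)
    linarith
  have q9 : (4 * f ^ 3)⁻¹ * S ≤ (2 * f)⁻¹ * Q := by
    have : (2 * f)⁻¹ * Q = (4 * f ^ 3)⁻¹ * (2 * f ^ 2 * Q) := by
      field_simp
      ring
    rw [this]
    exact mul_le_mul_of_nonneg_left q8 (by positivity)
  have q10 := mul_le_mul_of_nonneg_left q9 q4
  linarith

end Pool.Agent.PW
end
end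

-- part Pool.Agent.P.MP_65ad7c_ag.RLip
section

open MeasureTheory Set Filter Topology Metric Matrix
open scoped ComplexOrder ContDiff Matrix.Norms.Frobenius RealInnerProductSpace ENNReal
open Pool.Agent.Lib.Sob

noncomputable section
namespace Pool.Agent.PW

variable {E : Type} [NormedAddCommGroup E] [InnerProductSpace ℝ E] [FiniteDimensional ℝ E]
  [MeasurableSpace E] [BorelSpace E] {r : ℕ} {U : Set E}

/-- bounded difference quotients bound the weak derivative -/
theorem norm_wd_le_of_diff {V : Type} [NormedAddCommGroup V] [NormedSpace ℝ V] [CompleteSpace V]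
    (hU : IsOpen U) {u : E → V} {D : E → E →L[ℝ] V} (h : WD 2 U u D) {K : Set E}
    (hK : IsCompact K) (hKU : K ⊆ U) {δ L : ℝ} (hδ : 0 < δ) (hL : 0 ≤ L)
    (hd : ∀ v : E, ‖v‖ ≤ δ → ∀ᵐ x, x ∈ K → ‖u (x + v) - u x‖ ≤ L * ‖v‖) :
    ∀ᵐ x, x ∈ K → ‖D x‖ ≤ Module.finrank ℝ E * L := by
  have hKm := hK.measurableSet
  have key : ∀ p, ∀ᵐ x, x ∈ K → ‖D x (ob E p)‖ ≤ L := fun p => by
    have he : ‖ob E p‖ = 1 := (ob E).orthonormal.1 p
    have hm : AEStronglyMeasurable (fun x => max (‖D x (ob E p)‖ - L) 0) (volume.restrict K) :=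
      (continuous_id.max continuous_const).comp_aestronglyMeasurable
        (((h.2.1.apply (ob E p)) K hK hKU).1.norm.sub aestronglyMeasurable_const)
    have h0 : eLpNorm (fun x => max (‖D x (ob E p)‖ - L) 0) 2 (volume.restrict K) ≤ 0 := by
      refine ge_of_tendsto (dq_tendsto hU h hK hKU (ob E p)) ?_
      filter_upwards [Ioc_mem_nhdsGT hδ] with s hs
      have hn : ‖s • ob E p‖ = s := by rw [norm_smul, he, mul_one, Real.norm_of_nonneg hs.1.le]
      refine eLpNorm_mono_ae ((ae_restrict_iff' hKm).2 ?_)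
      filter_upwards [hd (s • ob E p) (hn.le.trans hs.2)] with x hx hxK
      have h1 : ‖s⁻¹ • (u (x + s • ob E p) - u x)‖ ≤ L := by
        rw [norm_smul, Real.norm_of_nonneg (inv_pos.2 hs.1).le, inv_mul_le_iff₀ hs.1, mul_comm]
        simpa only [hn] using hx hxK
      have h2 := norm_sub_norm_le (D x (ob E p)) (s⁻¹ • (u (x + s • ob E p) - u x))
      rw [norm_sub_rev] at h2
      rw [Real.norm_of_nonneg (le_max_right _ _)]
      exact max_le (by linarith) (norm_nonneg _)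
    have h1 := (eLpNorm_eq_zero_iff hm two_ne_zero).1 (le_antisymm h0 zero_le)
    filter_upwards [(ae_restrict_iff' hKm).1 h1] with x hx hxK
    have h2 : max (‖D x (ob E p)‖ - L) 0 = 0 := hx hxK
    linarith [le_max_left (‖D x (ob E p)‖ - L) 0]
  filter_upwards [ae_all_iff.2 key] with x hx hxK
  have h1 : ∑ p, ‖D x (ob E p)‖ ^ 2 ≤ Module.finrank ℝ E * L ^ 2 := by
    have := Finset.sum_le_card_nsmul Finset.univ (fun p => ‖D x (ob E p)‖ ^ 2) (L ^ 2)
      fun p _ => pow_le_pow_left₀ (norm_nonneg _) (hx p hxK) 2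
    simpa using this
  have h2 : (Module.finrank ℝ E : ℝ) ≤ (Module.finrank ℝ E : ℝ) ^ 2 := by
    exact_mod_cast Nat.le_self_pow two_ne_zero _
  refine le_of_sq_le_sq ((norm_sq_le_sum (D x)).trans (h1.trans ?_)) (by positivity)
  rw [mul_pow]
  exact mul_le_mul_of_nonneg_right h2 (sq_nonneg L)

/-- differences of a flat harmonic metric -/
theorem diff_bound (hE : 2 ≤ Module.finrank ℝ E) (r : ℕ) {C : ℝ} (hC : 1 ≤ C) :
    ∃ L : ℝ, 0 ≤ L ∧ ∀ (h : E → Mat r) (D : E → E →L[ℝ] Mat r),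
      LH (ball 0 4) (fun _ => ContinuousLinearMap.id ℝ E) h D →
      (∀ x ∈ ball (0 : E) 4, Bd C (h x)) → N2 (closedBall 0 4) D ≤ ENNReal.ofReal C →
      ∀ v : E, ‖v‖ ≤ 1 / 4 → ∀ᵐ x, x ∈ closedBall (0 : E) 3 → ‖h (x + v) - h x‖ ≤ L * ‖v‖ := by
  obtain ⟨C₀, hC₀, hDG⟩ := degiorgi hE (l := 1) (L := 1) (R := 3) (R' := 7 / 2) one_pos
    (by norm_num) (by norm_num)
  have hC0 : 0 < C := one_pos.trans_le hC
  have hK : IsCompact (closedBall (0 : E) (7 / 2)) := isCompact_closedBall _ _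
  obtain ⟨W, hW0, hW⟩ : ∃ W : ℝ, 0 ≤ W ∧
      (volume.restrict (closedBall (0 : E) (7 / 2))) univ ^ (2 : ℝ≥0∞).toReal⁻¹ =
        ENNReal.ofReal W := by
    refine ⟨_, ENNReal.toReal_nonneg, (ENNReal.ofReal_toReal ?_).symm⟩
    rw [Measure.restrict_apply_univ]
    exact ENNReal.rpow_ne_top_of_nonneg (by simp) hK.measure_lt_top.ne
  refine ⟨r * C ^ 2 * (C₀ * (r * C ^ 3 + W)), by positivity, fun h D H hb hn v hv => ?_⟩
  rcases eq_or_ne v 0 with rfl | hv0
  · exact Eventually.of_forall fun x _ => by simp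
  have hvp : 0 < ‖v‖ := norm_pos_iff.2 hv0
  have s1 : ball (0 : E) (15 / 4) ⊆ ball 0 4 := ball_subset_ball (by norm_num)
  have s2 : ball (0 : E) (15 / 4) ⊆ {x | x + v ∈ ball (0 : E) 4} := fun x hx => by
    rw [mem_ball_zero_iff] at hx
    change x + v ∈ ball (0 : E) 4
    rw [mem_ball_zero_iff]
    linarith [norm_add_le x v]
  have s3 : closedBall (0 : E) (7 / 2) ⊆ ball 0 (15 / 4) := closedBall_subset_ball (by norm_num)
  have H1 := H.mono s1
  have H2 : LH (ball 0 (15 / 4)) (fun _ => ContinuousLinearMap.id ℝ E) (fun x => h (x + v))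
      fun x => D (x + v) := (H.translate v).mono s2
  obtain ⟨Df, hwd, hlb, hsub⟩ := sqrt_subsol isOpen_ball continuousOn_const (fun _ _ _ _ => rfl)
    (fun _ _ _ => real_inner_self_nonneg) H1 H2 (ε := ‖v‖ ^ 2) (by positivity) hK s3
  have hell : Ell 1 1 (ContinuousLinearMap.id ℝ E) :=
    ⟨fun _ _ => rfl, fun w => by simp, ContinuousLinearMap.norm_id_le⟩
  have hN : N2 (closedBall 0 (7 / 2)) (fun x => √(sg (h x) (h (x + v)) - 2 * r + ‖v‖ ^ 2)) ≤
      ENNReal.ofReal ((r * C ^ 3 + W) * ‖v‖) := by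
    have hm := ((H2.wd.1.sub H1.wd.1) _ hK s3).1
    have hc : cthickening (1 / 4) (closedBall (0 : E) (7 / 2)) = closedBall 0 (1 / 4 + 7 / 2) :=
      cthickening_closedBall (by norm_num) (by norm_num) _
    have h1 : N2 (closedBall 0 (7 / 2)) (fun x => h (x + v) - h x) ≤
        ENNReal.ofReal ‖v‖ * ENNReal.ofReal C := by
      refine (dq_le isOpen_ball H.wd hK (δ := 1 / 4) ?_ hv).trans (mul_le_mul_right ?_ _)
      · rw [hc]
        exact closedBall_subset_ball (by norm_num)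
      · refine le_trans (eLpNorm_mono_measure _ (Measure.restrict_mono ?_ le_rfl)) hn
        rw [hc]
        exact closedBall_subset_closedBall (by norm_num)
    have h2 : eLpNorm (fun x => r * C ^ 2 * ‖h (x + v) - h x‖) 2
        (volume.restrict (closedBall (0 : E) (7 / 2))) ≤
        ENNReal.ofReal (r * C ^ 2) * (ENNReal.ofReal ‖v‖ * ENNReal.ofReal C) := by
      refine (eLpNorm_le_mul_eLpNorm_of_ae_le_mul (c := r * C ^ 2)
        (g := fun x => h (x + v) - h x) (Eventually.of_forall fun x => ?_) 2).trans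
        (mul_le_mul_right h1 _)
      rw [Real.norm_of_nonneg (by positivity)]
    have h3 : eLpNorm (fun _ : E => ‖v‖) 2 (volume.restrict (closedBall (0 : E) (7 / 2))) ≤
        ENNReal.ofReal W * ENNReal.ofReal ‖v‖ := by
      rw [← hW]
      exact eLpNorm_le_of_ae_bound (Eventually.of_forall fun _ => by simp)
    have h4 := eLpNorm_add_le (p := 2) (hm.norm.const_mul (r * C ^ 2))
      (aestronglyMeasurable_const (b := ‖v‖)) one_le_two
    refine (eLpNorm_mono_ae_real ((ae_restrict_iff' hK.measurableSet).2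
      (Eventually.of_forall fun x hx => ?_))).trans (h4.trans ((add_le_add h2 h3).trans_eq ?_))
    · have h5 := sg_sub_le hC0 (hb x (s1 (s3 hx))) (hb _ (s2 (s3 hx)))
      have h6 : 0 ≤ r * C ^ 2 * ‖h (x + v) - h x‖ := by positivity
      rw [Real.norm_of_nonneg (Real.sqrt_nonneg _)]
      change _ ≤ r * C ^ 2 * ‖h (x + v) - h x‖ + ‖v‖
      refine Real.sqrt_le_iff.2 ⟨by positivity, ?_⟩
      nlinarith [mul_nonneg h6 hvp.le]
    · rw [← ENNReal.ofReal_mul hvp.le, ← ENNReal.ofReal_mul (by positivity),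
        ← ENNReal.ofReal_mul hW0, ← ENNReal.ofReal_add (by positivity) (by positivity)]
      congr 1
      ring
  filter_upwards [hDG 0 _ _ _ Df 0 _ isOpen_ball s3 (fun _ _ => hell) continuousOn_const hwd hlb
    le_rfl (by positivity) hsub hN] with x hx hx3
  have hx7 : x ∈ ball (0 : E) (15 / 4) := closedBall_subset_ball (by norm_num) hx3
  have b1 := hb x (s1 hx7)
  have b2 := hb _ (s2 hx7)
  have h1 := norm_sub_sq_le_sg hC0 b1 b2
  have h2 := le_sg (b1.posDef hC0) (b2.posDef hC0)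
  have h3 := hx hx3
  have h4 : sg (h x) (h (x + v)) - 2 * r + ‖v‖ ^ 2 ≤ (C₀ * ((r * C ^ 3 + W) * ‖v‖ + 0)) ^ 2 :=
    (Real.sqrt_le_iff.1 h3).2
  refine le_of_sq_le_sq (h1.trans ?_) (by positivity)
  have h5 : sg (h x) (h (x + v)) - 2 * r ≤ (C₀ * ((r * C ^ 3 + W) * ‖v‖ + 0)) ^ 2 := by
    linarith [sq_nonneg ‖v‖]
  exact (mul_le_mul_of_nonneg_left h5 (by positivity)).trans_eq (by ring)

/-- the gradient bound -/
theorem lip_bound (hE : 2 ≤ Module.finrank ℝ E) (r : ℕ) {C : ℝ} (hC : 1 ≤ C) :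
    ∃ L : ℝ, ∀ (h : E → Mat r) (D : E → E →L[ℝ] Mat r),
      LH (ball 0 4) (fun _ => ContinuousLinearMap.id ℝ E) h D →
      (∀ x ∈ ball (0 : E) 4, Bd C (h x)) → N2 (closedBall 0 4) D ≤ ENNReal.ofReal C →
      ∀ᵐ x, x ∈ closedBall (0 : E) 3 → ‖D x‖ ≤ L := by
  obtain ⟨L, hL, h1⟩ := diff_bound hE r hC
  exact ⟨_, fun h D H hb hn => norm_wd_le_of_diff isOpen_ball H.wd (isCompact_closedBall _ _)
    (closedBall_subset_ball (by norm_num)) (δ := 1 / 4) (by norm_num) hL (h1 h D H hb hn)⟩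

end Pool.Agent.PW
end
end

-- part Pool.Agent.P.MP_65ad7c_ag.Sec23
section

open MeasureTheory Set Filter Topology Metric Matrix
open scoped ComplexOrder ContDiff Matrix.Norms.Frobenius RealInnerProductSpace ENNReal
open Pool.Agent.Lib.Sob

noncomputable section
namespace Pool.Agent.PW

/-- SEC 2-3 (writer h79): harmonic metrics are Lipschitz and pluriharmonic. -/
theorem ph_of_hm {n r : ℕ} {Γ : Type} [Group Γ] (A : KAtlas n Γ) (hn : 0 < n) (_hr : 0 < r)
    {C : ℝ} (hC : 1 ≤ C) :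
    ∃ C' : ℝ, 1 ≤ C' ∧ ∀ (ρ : Γ →* Mat r) h D, A.toAtlas.HM ρ C h D →
      ∃ h' D', A.PH (ball 0 3) ρ C' h' D' := by
  have hE : 2 ≤ Module.finrank ℝ (EC n) := by
    rw [finrank_real_of_complex, finrank_euclideanSpace_fin]; omega
  obtain ⟨L, hL⟩ := lip_bound hE r hC
  refine ⟨max C L, hC.trans (le_max_left _ _), fun ρ h D H => ?_⟩
  have h46 : ball (0 : EC n) 4 ⊆ ball 0 6 := ball_subset_ball (by norm_num)
  have h34 : ball (0 : EC n) 3 ⊆ ball 0 4 := ball_subset_ball (by norm_num)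
  have hd : ∀ a, ∀ᵐ x, x ∈ ball (0 : EC n) 3 → ‖D a x‖ ≤ L := fun a => by
    have hw := (H.wd a).mono h46
    have hb := (H.lbd a).mono h46
    refine (hL (h a) (D a) ⟨hw, hb, harm_of_wcurl (locLp_mc isOpen_ball hw hb) (ph_ae A H a).2⟩
      (fun x hx => H.bd a x (ball_subset_closedBall hx)) (H.n2 a)).mono
      fun x hx hx' => hx (ball_subset_closedBall hx')
  choose h' hc he using fun a => exists_rep isOpen_ball (H.wd a) (R := 3)
    (closedBall_subset_ball (by norm_num)) (hd a)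
  refine ⟨h', D, fun a => ⟨(hc a).continuousOn, fun x hx => ?_, ?_, ?_, ?_, ?_⟩,
    (H.mc.mono (h34.trans h46)).rep isOpen_ball (fun a => (hc a).continuousOn) he⟩
  · refine Bd.mono (by linarith) (le_max_left _ _) ?_
    refine mem_closed_of_ae isOpen_ball (hc a).continuousOn (isClosed_obst C 1) ?_ x hx
    filter_upwards [he a] with y hy hy'
    rw [hy hy']
    exact H.bd a y (ball_subset_closedBall (h34 hy'))
  · exact ((H.wd a).mono (h34.trans h46)).congr ((he a).mono fun x hx hx' => (hx hx').symm)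
      (Eventually.of_forall fun _ _ => rfl)
  · exact (hd a).mono fun x hx hx' => (hx hx').trans (le_max_right _ _)
  · filter_upwards [he a, (ph_ae A H a).1] with x h1 h2 hx
    rw [h1 hx]
    exact h2 (h34 hx)
  · refine ((ph_ae A H a).2.monoR h34).congrR ?_
    filter_upwards [he a] with x h1 hx
    rw [h1 hx]

end Pool.Agent.PW
end
end
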