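import Pool.Agent.K.MP_65ad7c_ag.C9

/-! Definitions for block N (the flow on the Betti moduli space). -/

open MeasureTheory Set Filter Topology Metric Matrix
open scoped ComplexOrder ContDiff Matrix.Norms.Frobenius RealInnerProductSpace ENNReal
open Pool.Agent.Lib.Sob

noncomputable section
namespace Pool.Agent.PW

section alg
variable {Γ : Type} [Group Γ] {r s : ℕ}

/-- the conjugate representation -/
def cj {u u' : Mat r} (h : u * u' = 1) (ρ : Γ →* Mat r) : Γ →* Mat r where
  toFun γ := u' * ρ γ * u
  map_one' := by rw [map_one, Matrix.mul_one, mul_eq_one_comm.1 h]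
  map_mul' a b := by
    rw [map_mul]
    calc u' * (ρ a * ρ b) * u = u' * ρ a * (u * u') * ρ b * u := by
          rw [h]; simp only [Matrix.mul_one, Matrix.mul_assoc]
      _ = _ := by simp only [Matrix.mul_assoc]

theorem cj_spec {u u' : Mat r} (h : u * u' = 1) (ρ : Γ →* Mat r) : Cj u u' ρ (cj h ρ) :=
  ⟨h, fun _ => rfl⟩

/-- `c` commutes with the representation -/
def Cm (ρ : Γ →* Mat r) (c : Mat r) : Prop := ∀ γ, c * ρ γ = ρ γ * c

/-- a smooth multiplicative map that preserves conjugate transposition -/
structure Prep (R : Mat r →* Mat s) : Prop where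
  sm : ContDiff ℝ ∞ R
  adj : ∀ x, R xᴴ = (R x)ᴴ

end alg

end Pool.Agent.PW
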