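import Pool.Agent.P.MP_65ad7c_ag.DDefs
import Pool.Agent.P.MP_65ad7c_ag.VBas2
import Mathlib
import Pool.Agent.P.MP_65ad7c_ag.VBas1
import Pool.Agent.P.MP_65ad7c_ag.VDefs
import Pool.Agent.P.MP_65ad7c_ag.VTr
import Pool.Agent.P.MP_65ad7c_ag.VInt

-- part Pool.Agent.P.MP_65ad7c_ag.VFlab
section

/-! Elementary properties of complexes of sheaves; injective sheaves are flabby. -/

open Set CategoryTheory TopologicalSpace Opposite

noncomputable section
namespace Pool.Agent.PWD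

variable {Y : Type} [TopologicalSpace Y] {I : Cx Y} {n : ℕ} {W W' W'' : Opens Y}

theorem vf_rs_rs (h : W' ≤ W) (h' : W'' ≤ W') (s : Sec I n W) :
    rs h' (rs h s) = rs (h'.trans h) s := by
  unfold rs
  rw [← ModuleCat.comp_apply, ← Functor.map_comp]
  rfl

theorem vf_rs_self (s : Sec I n W) : rs le_rfl s = s := by
  unfold rs
  rw [show (homOfLE (le_rfl : W ≤ W)).op = 𝟙 _ from rfl, CategoryTheory.Functor.map_id]
  rfl

theorem vf_rs_dd (h : W' ≤ W) (k n : ℕ) (s : Sec I k W) :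
    rs h (dd k n s) = dd k n (rs h s) := by
  unfold rs dd
  rw [← ModuleCat.comp_apply, ← ModuleCat.comp_apply, (I.d k n).hom.naturality]

theorem vf_dd_dd (i j k : ℕ) (s : Sec I i W) : dd j k (dd i j s) = 0 := by
  unfold dd
  rw [← ModuleCat.comp_apply, ← NatTrans.comp_app]
  have : (I.d i j).hom ≫ (I.d j k).hom = 0 := congrArg (fun f => f.hom) (I.d_comp_d i j k)
  rw [this]
  rfl

theorem vf_dd_ne {k n : ℕ} (h : k + 1 ≠ n) (s : Sec I k W) : dd k n s = 0 := by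
  unfold dd
  rw [I.shape k n h]
  rfl

/-- The sheaf in degree `n`. -/
abbrev vfSh (I : Cx Y) (n : ℕ) : TopCat.Sheaf (ModuleCat.{0} ℂ) (TopCat.of Y) := I.X n

theorem vf_sep (s : Sec I n W) (h : ∀ y ∈ W, ∃ (W' : Opens Y) (h : W' ≤ W), y ∈ W' ∧ rs h s = 0) :
    s = 0 := by
  choose! V hV hy h0 using h
  refine (vfSh I n).eq_of_locally_eq' (fun y : W => V y.1) W (fun y => homOfLE (hV y.1 y.2))
    (fun y hy' => Opens.mem_iSup.2 ⟨⟨y, hy'⟩, hy y hy'⟩) s 0 fun y => ?_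
  rw [map_zero]
  exact h0 y.1 y.2

theorem vf_glue {ι : Type} (O : ι → Opens Y) (s : ∀ i, Sec I n (O i))
    (h : ∀ i j, rs (inf_le_left : O i ⊓ O j ≤ O i) (s i) = rs inf_le_right (s j)) :
    ∃ t : Sec I n (iSup O), ∀ i, rs (le_iSup O i) t = s i := by
  obtain ⟨t, ht, -⟩ := (vfSh I n).existsUnique_gluing O s h
  exact ⟨t, ht⟩

/-- The presheaf of discontinuous sections. -/
def vfGod (M : Y → ModuleCat.{0} ℂ) : TopCat.Presheaf (ModuleCat.{0} ℂ) (TopCat.of Y) where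
  obj W := ModuleCat.of ℂ (∀ y : W.unop, M y.1)
  map {W W'} i := ModuleCat.ofHom
    (LinearMap.pi fun y => LinearMap.proj (⟨y.1, leOfHom i.unop y.2⟩ : W.unop))

theorem vfGod_isSheaf (M : Y → ModuleCat.{0} ℂ) : (vfGod M).IsSheaf := by
  rw [TopCat.Presheaf.isSheaf_iff_isSheafUniqueGluing]
  intro ι O s hs
  have hi : ∀ y : (iSup O : Opens Y), ∃ i, y.1 ∈ O i := fun y => Opens.mem_iSup.1 y.2
  choose i hi using hi
  refine ⟨fun y => s (i y) ⟨y.1, hi y⟩, fun j => funext fun y => ?_, fun t ht => funext fun y => ?_⟩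
  · exact congrFun (hs (i ⟨y.1, le_iSup O j y.2⟩) j) ⟨y.1, hi ⟨y.1, le_iSup O j y.2⟩, y.2⟩
  · exact congrFun (ht (i y)) ⟨y.1, hi y⟩

theorem vf_flabby (hI : Injective (I.X n)) (s : Sec I n W) :
    ∃ v : Sec I n ⊤, rs le_top v = s := by
  classical
  let F := vfSh I n
  let M : Y → ModuleCat.{0} ℂ := fun y => F.presheaf.stalk y
  let G : TopCat.Sheaf (ModuleCat.{0} ℂ) (TopCat.of Y) := ⟨vfGod M, vfGod_isSheaf M⟩
  let η₀ : F.obj ⟶ G.obj :=
    { app := fun W => ModuleCat.ofHom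
        (LinearMap.pi fun y => (F.presheaf.germ W.unop y.1 y.2).hom)
      naturality := fun W W' i => by
        ext t
        funext y
        exact F.presheaf.germ_res_apply i.unop y.1 y.2 t }
  let η : F ⟶ G := ⟨η₀⟩
  have : ∀ W, Mono (η₀.app W) := fun W => (ModuleCat.mono_iff_injective _).2 fun a b hab =>
    TopCat.Presheaf.section_ext F W.unop a b fun y hy => congrFun hab ⟨y, hy⟩
  have : Mono η₀ := NatTrans.mono_of_mono_app η₀
  have : Mono η := Sheaf.Hom.mono_of_presheaf_mono _ _ η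
  have : Injective F := hI
  let r := Injective.factorThru (𝟙 F) η
  have hr : η ≫ r = 𝟙 F := Injective.comp_factorThru _ _
  let g : G.obj.obj (op ⊤) := fun y =>
    if h : y.1 ∈ W then F.presheaf.germ W y.1 h s else 0
  refine ⟨r.hom.app (op ⊤) g, ?_⟩
  have h1 := ConcreteCategory.congr_hom (r.hom.naturality (homOfLE (le_top : W ≤ ⊤)).op) g
  have h2 : G.obj.map (homOfLE (le_top : W ≤ ⊤)).op g = η₀.app (op W) s := by
    funext y
    exact dif_pos y.2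
  have h3 := ConcreteCategory.congr_hom (congrArg (fun f => f.hom.app (op W)) hr) s
  rw [ConcreteCategory.comp_apply, ConcreteCategory.comp_apply, h2] at h1
  exact h1.symm.trans h3

end Pool.Agent.PWD
end
end

-- part Pool.Agent.P.MP_65ad7c_ag.VSh
section

/-! A complex of injective sheaves as a flabby complex. -/

open Set Filter Topology CategoryTheory TopologicalSpace
open Pool.Agent.PWD

noncomputable section
namespace Pool.Agent.PWV

variable {Y : Type} [TopologicalSpace Y]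

/-- The complex of global sections. -/
@[reducible] def cxI (I : PWD.Cx Y) : Cx where
  V n := Sec I n.toNat ⊤
  d n := dd n.toNat (n + 1).toNat
  dd _ v := vf_dd_dd _ _ _ v

/-- Global sections with zero germ. -/
def zI (I : PWD.Cx Y) (n : ℕ) (y : Y) : Submodule ℂ (Sec I n ⊤) where
  carrier := {s | ∃ W : Opens Y, y ∈ W ∧ rs (le_top : W ≤ ⊤) s = 0}
  add_mem' := by
    rintro a b ⟨W, hW, ha⟩ ⟨W', hW', hb⟩
    refine ⟨W ⊓ W', ⟨hW, hW'⟩, ?_⟩
    rw [map_add, ← vf_rs_rs le_top inf_le_left, ha, ← vf_rs_rs le_top inf_le_right b, hb]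
    simp
  zero_mem' := ⟨⊤, trivial, map_zero _⟩
  smul_mem' := by
    rintro c a ⟨W, hW, ha⟩
    exact ⟨W, hW, by rw [map_smul, ha, smul_zero]⟩

variable {I : PWD.Cx Y} {n : ℕ} {W : Opens Y} {C : Set Y}

theorem mem_zI {y : Y} {s : Sec I n ⊤} :
    s ∈ zI I n y ↔ ∃ W : Opens Y, y ∈ W ∧ rs (le_top : W ≤ ⊤) s = 0 := Iff.rfl

theorem zI_le {y : Y} {s : Sec I n ⊤} (h : s ∈ zI I n y) (hy : y ∈ W) :
    ∃ (W' : Opens Y) (_ : W' ≤ W), y ∈ W' ∧ rs (le_top : W' ≤ ⊤) s = 0 := by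
  obtain ⟨W', h1, h2⟩ := h
  exact ⟨W ⊓ W', inf_le_left, ⟨hy, h1⟩, by rw [← vf_rs_rs le_top inf_le_right, h2, map_zero]⟩

theorem rs_eq_zero {s : Sec I n ⊤} (h : ∀ y ∈ W, s ∈ zI I n y) : rs (le_top : W ≤ ⊤) s = 0 :=
  vf_sep _ fun y hy => by
    obtain ⟨W', h1, h2, h3⟩ := zI_le (h y hy) hy
    exact ⟨W', h1, h2, by rw [vf_rs_rs, h3]⟩

theorem dd_zI {y : Y} {s : Sec I n ⊤} (h : s ∈ zI I n y) (k : ℕ) : dd n k s ∈ zI I k y := by
  obtain ⟨W, h1, h2⟩ := h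
  exact ⟨W, h1, by rw [vf_rs_dd, h2, map_zero]⟩

theorem supp_rs {s : Sec I n ⊤} :
    PWD.Supp C (rs (le_top : W ≤ ⊤) s) ↔ ∀ y ∈ W, y ∉ C → s ∈ zI I n y := by
  refine forall₃_congr fun y hy _ => ⟨?_, fun h => ?_⟩
  · rintro ⟨W', h1, h2, h3⟩
    exact ⟨W', h2, by rw [← h3, vf_rs_rs]⟩
  · obtain ⟨W', h1, h2, h3⟩ := zI_le h hy
    exact ⟨W', h1, h2, by rw [vf_rs_rs, h3]⟩

theorem supp_top {s : Sec I n ⊤} : PWD.Supp C s ↔ ∀ y ∉ C, s ∈ zI I n y := by
  have := supp_rs (C := C) (W := ⊤) (s := s)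
  rw [vf_rs_self] at this
  rw [this]
  exact ⟨fun h y hy => h y trivial hy, fun h y _ hy => h y hy⟩

theorem glue_top (hI : Injective (I.X n)) {ι : Type} (O : ι → Set Y) (v : ι → Sec I n ⊤)
    (hO : ∀ i, IsOpen (O i)) (h : ∀ i j, ∀ x ∈ O i ∩ O j, v i - v j ∈ zI I n x) :
    ∃ w : Sec I n ⊤, ∀ i, ∀ x ∈ O i, w - v i ∈ zI I n x := by
  obtain ⟨t, ht⟩ := vf_glue (fun i => (⟨O i, hO i⟩ : Opens Y)) (fun i => rs le_top (v i))
    fun i j => by
      rw [vf_rs_rs, vf_rs_rs, ← sub_eq_zero, ← map_sub]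
      exact rs_eq_zero (h i j)
  obtain ⟨w, rfl⟩ := vf_flabby hI t
  refine ⟨w, fun i x hx => ⟨⟨O i, hO i⟩, hx, ?_⟩⟩
  rw [map_sub, ← ht i, vf_rs_rs, sub_self]

theorem extend_supp (hI : Injective (I.X n)) (hC : IsClosed C) {s : Sec I n W}
    (hs : PWD.Supp C s) : ∃ v : Sec I n ⊤, rs le_top v = s ∧ ∀ y ∉ C, v ∈ zI I n y := by
  obtain ⟨v, rfl⟩ := vf_flabby hI s
  have hs' := supp_rs.1 hs
  obtain ⟨w, hw⟩ := glue_top hI (fun b : Bool => cond b (W : Set Y) Cᶜ) (fun b => cond b v 0)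
    (fun b => by cases b; exacts [hC.isOpen_compl, W.2]) (by
      rintro (_ | _) (_ | _) x hx
      · simp
      · simpa using hs' x hx.2 hx.1
      · simpa using hs' x hx.1 hx.2
      · simp)
  refine ⟨w, ?_, fun y hy => by simpa using hw false y hy⟩
  rw [← sub_eq_zero, ← map_sub]
  exact rs_eq_zero (hw true)

theorem dd_cast {j k k' : ℕ} (h : k = k') {s : Sec I j W} : dd j k s = 0 ↔ dd j k' s = 0 := by
  subst h
  rfl

/-- The flabby complex of a complex of injective sheaves. -/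
def fcI (hI : ∀ n, Injective (I.X n)) : FC (cxI I) Y where
  top n := if n < 0 then ⊥ else ⊤
  z n y := zI I n.toNat y
  d_top n v hv := by
    beta_reduce at hv ⊢
    by_cases h : n < 0
    · rw [if_pos h, Submodule.mem_bot] at hv
      rw [hv, map_zero]
      exact zero_mem _
    · rw [if_neg (by omega)]
      trivial
  d_z y n v hv := dd_zI hv _
  opn n v := isOpen_iff_forall_mem_open.2 fun y ⟨W, h1, h2⟩ => ⟨W, fun _ h => ⟨W, h, h2⟩, W.2, h1⟩
  glue n ι O v hO hv h := by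
    by_cases hn : n < 0
    · simp only [if_pos hn, Submodule.mem_bot] at hv
      exact ⟨0, zero_mem _, fun i x _ => by rw [hv i, sub_self]; exact zero_mem _⟩
    · obtain ⟨w, hw⟩ := glue_top (hI _) O v hO h
      exact ⟨w, by rw [if_neg hn]; trivial, hw⟩
  neg n hn y := by
    rw [if_pos hn]
    exact bot_le

variable {T : Type} [MetricSpace T] {e : C(Y, T)} (hI : ∀ n, Injective (I.X n))

theorem qz_emb (he : IsClosedEmbedding e) {m : ℤ} {v : (cxI I).V m} {y : Y} :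
    v ∈ ((fcI hI).map e).z m (e y) ↔ v ∈ zI I m.toNat y := by
  change (∀ᶠ x in comap e (𝓝 (e y)), v ∈ zI I m.toNat x) ↔ _
  rw [← he.isInducing.nhds_eq_comap]
  exact ⟨fun h => h.self_of_nhds, fun h => ((fcI hI).opn m v).mem_nhds h⟩

theorem q_supp (he : IsClosedEmbedding e) : ((fcI hI).map e).Supp (range e) := fun m v _ x hx =>
  eventually_comap.2 (by
    filter_upwards [he.isClosed_range.isOpen_compl.mem_nhds hx] with x' hx' y hy
    exact (hx' ⟨y, hy⟩).elim)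

theorem q_top {m : ℤ} (hm : 0 ≤ m) (v : (cxI I).V m) : v ∈ ((fcI hI).map e).top m := by
  change v ∈ (if m < 0 then ⊥ else ⊤ : Submodule ℂ _)
  rw [if_neg (by omega)]
  trivial

theorem q_Z (he : IsClosedEmbedding e) {m : ℤ} {v : (cxI I).V m} {A : Set T} :
    v ∈ ((fcI hI).map e).Z A m ↔ ∀ y, e y ∈ A → v ∈ zI I m.toNat y := by
  rw [FC.mem_Z]
  refine ⟨fun h y hy => (qz_emb hI he).1 (h _ hy), fun h x hx => ?_⟩
  by_cases hr : x ∈ range e
  · obtain ⟨y, rfl⟩ := hr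
    exact (qz_emb hI he).2 (h y hx)
  · exact eventually_comap.2 (by
      filter_upwards [he.isClosed_range.isOpen_compl.mem_nhds hr] with x' hx' y hy
      exact (hx' ⟨y, hy⟩).elim)

theorem q_ZT (he : IsClosedEmbedding e) {m : ℤ} (hm : 0 ≤ m) {v : (cxI I).V m} {A : Set T} :
    v ∈ ((fcI hI).map e).ZT A m ↔ ∀ y, e y ∈ A → v ∈ zI I m.toNat y :=
  ⟨fun h => (q_Z hI he).1 h.2, fun h => ⟨q_top hI hm v, (q_Z hI he).2 h⟩⟩

theorem qg_ZT (he : IsClosedEmbedding e) (hC : IsClosed C) {m : ℤ} (hm : 0 ≤ m)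
    {v : (cxI I).V m} {A : Set T} : v ∈ (((fcI hI).map e).gam (e '' C)).ZT A m ↔
      (∀ y ∉ C, v ∈ zI I m.toNat y) ∧ ∀ y, e y ∈ A → v ∈ zI I m.toNat y := by
  rw [FC.gam_ZT _ (he.isClosedMap _ hC), q_ZT hI he hm]
  refine ⟨fun h => ⟨fun y hy => h y (Or.inr ?_), fun y hy => h y (Or.inl hy)⟩,
    fun h y hy => hy.elim (h.2 y) fun hy => h.1 y fun hy' => hy ⟨y, hy', rfl⟩⟩
  rwa [mem_compl_iff, he.injective.mem_set_image]

theorem good_iff_cob (he : IsClosedEmbedding e) (hC : IsClosed C) {m : ℤ} (hm : 0 ≤ m + 1)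
    {v : (cxI I).V (m + 1)} (hv : ∀ y ∉ C, v ∈ zI I (m + 1).toNat y) {y : Y} (hy : y ∈ W) :
    (((fcI hI).map e).gam (e '' C)).Good m v {e y} ∅ ↔
      Cob C y (rs (le_top : W ≤ ⊤) (v : Sec I (m + 1).toNat ⊤)) := by
  constructor
  · rintro ⟨w, hw, hd⟩
    obtain ⟨W', h1, h2, h3⟩ := zI_le (((qg_ZT hI he hC hm).1 hd).2 y rfl) hy
    refine ⟨W', h1, m.toNat, rs le_top (w : Sec I m.toNat ⊤), h2, supp_rs.2 fun y' _ hy' => ?_, ?_⟩
    · refine (qz_emb hI he).1 (FC.supp_gam _ (he.isClosedMap _ hC) m w hw.1 _ ?_)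
      rwa [he.injective.mem_set_image]
    · rw [vf_rs_rs, ← vf_rs_dd]
      exact (sub_eq_zero.1 ((map_sub _ _ _).symm.trans h3)).symm
  · rintro ⟨W', h1, k, t, h2, h3, h4⟩
    rw [vf_rs_rs] at h4
    by_cases hk : k + 1 = (m + 1).toNat
    · obtain rfl : k = m.toNat := by omega
      obtain ⟨w, rfl, hw⟩ := extend_supp (hI _) hC h3
      refine ⟨w, (qg_ZT hI he hC (by omega)).2 ⟨hw, fun _ h => h.elim⟩,
        (qg_ZT hI he hC hm).2 ⟨fun y' hy' => sub_mem (hv y' hy') (dd_zI (hw y' hy') _),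
          fun y' hy' => ?_⟩⟩
      obtain rfl := he.injective hy'
      rw [← vf_rs_dd] at h4
      exact ⟨W', h2, (map_sub _ _ _).trans (sub_eq_zero.2 h4.symm)⟩
    · rw [vf_dd_ne hk] at h4
      refine ⟨0, zero_mem _, ?_⟩
      rw [map_zero, sub_zero]
      refine (qg_ZT hI he hC hm).2 ⟨hv, fun y' hy' => ?_⟩
      obtain rfl := he.injective hy'
      exact ⟨W', h2, h4.symm⟩

theorem coc_near {m : ℤ} (hm : 0 ≤ m + 1) {v : (cxI I).V (m + 1)}
    (hv : ∀ y ∉ C, v ∈ zI I (m + 1).toNat y) {y : Y} (hy : y ∈ W)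
    (hd : (cxI I).d (m + 1) v ∈ zI I (m + 1 + 1).toNat y) : ∃ (W' : Opens Y) (_ : W' ≤ W), y ∈ W' ∧
      Coc C (rs (le_top : W' ≤ ⊤) (v : Sec I (m + 1).toNat ⊤)) := by
  obtain ⟨W', h1, h2, h3⟩ := zI_le hd hy
  refine ⟨W', h1, h2, supp_rs.2 fun y' _ hy' => hv y' hy', ?_⟩
  rw [dd_cast (k' := (m + 1 + 1).toNat) (by omega), ← vf_rs_dd]
  exact h3

theorem ex_pt (he : IsClosedEmbedding e) (hC : IsClosed C) {m : ℤ} {y : Y}
    (h : 0 ≤ m + 1 → ∀ (W : Opens Y) (s : Sec I (m + 1).toNat W), Coc C s → y ∈ W → Cob C y s) :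
    (((fcI hI).map e).gam (e '' C)).Ex m {e y} ∅ := by
  by_cases hm : m + 1 < 0
  · exact FC.ex_neg _ hm _ _
  intro v hv hd
  have hv' := ((qg_ZT hI he hC (by omega)).1 hv).1
  obtain ⟨W', -, h2, h3⟩ := coc_near (W := ⊤) (by omega) hv' trivial
    (((qg_ZT hI he hC (by omega)).1 hd).2 y rfl)
  exact (good_iff_cob hI he hC (by omega) hv' h2).2 (h (by omega) _ _ h3 h2)

theorem lcn_of_lc (he : IsClosedEmbedding e) (hC : IsClosed C) {S : Set Y}
    (h : ∀ n, PWD.LC I C S n) (m : ℤ) : (((fcI hI).map e).gam (e '' C)).LCn (e '' S) m := by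
  rintro _ ⟨x, hx, rfl⟩
  by_cases hm : m + 1 < 0
  · refine ⟨univ, ⊥, isOpen_univ, trivial, fun b hb => ?_, fun y _ => ⟨fun b hb _ => ?_,
      fun v hv _ => ⟨0, zero_mem _, 0, zero_mem _, ?_⟩⟩⟩
    · rw [(Submodule.mem_bot _).1 hb, map_zero]
      exact ⟨zero_mem _, zero_mem _⟩
    · rw [(Submodule.mem_bot _).1 hb]
      exact zero_mem _
    · rw [map_zero, sub_zero, sub_zero]
      exact FC.mem_ZT.2 ⟨hv, fun x _ => FC.neg _ _ hm x hv⟩
  have hm' : 0 ≤ m + 1 := by omega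
  obtain ⟨W, B, hW, hB, hS⟩ := h (m + 1).toNat x hx
  obtain ⟨W₁, hW₁, hWW⟩ := he.isInducing.isOpen_iff.1 W.2
  have hmem : ∀ y, e y ∈ W₁ ↔ y ∈ W := fun y => Set.ext_iff.1 hWW y
  have htop : ∀ v : (cxI I).V (m + 1), v ∈ (((fcI hI).map e).gam (e '' C)).top (m + 1) ↔
      ∀ y ∉ C, v ∈ zI I (m + 1).toNat y := fun v => by
    rw [← FC.ZT_empty, qg_ZT hI he hC hm']
    exact ⟨fun h => h.1, fun h => ⟨h, fun _ h => h.elim⟩⟩
  refine ⟨W₁, (((fcI hI).map e).gam (e '' C)).top (m + 1) ⊓ B.comap (rs le_top), hW₁,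
    (hmem x).2 hW, fun b hb => ⟨hb.1, (q_Z hI he).2 fun y hy => ⟨W, (hmem y).1 hy, ?_⟩⟩, ?_⟩
  · have := (dd_cast (k' := (m + 1 + 1).toNat) (by omega)).1 (hB _ hb.2).2
    rw [← vf_rs_dd] at this
    exact this
  rintro _ ⟨⟨y, hy, rfl⟩, hyW⟩
  have hyW' := (hmem y).1 hyW
  obtain ⟨h1, h2⟩ := hS y hy hyW'
  refine ⟨fun b hb hg => (q_Z hI he).2 fun y' hy' => ⟨W, (hmem y').1 hy',
    h1 _ hb.2 ((good_iff_cob hI he hC hm' ((htop b).1 hb.1) hyW').1 hg)⟩, fun v hv hd => ?_⟩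
  obtain ⟨W', h3, h4, h5⟩ := coc_near hm' ((htop v).1 hv) hyW' ((qz_emb hI he).1 hd)
  obtain ⟨b, hb, h6⟩ := h2 W' h3 _ h4 h5
  obtain ⟨b', rfl, hb'⟩ := extend_supp (hI _) hC (hB b hb).1
  refine ⟨b', ⟨(htop b').2 hb', hb⟩, (good_iff_cob hI he hC hm'
    (fun y' hy' => sub_mem ((htop v).1 hv y' hy') (hb' y' hy')) h4).2 ?_⟩
  rw [vf_rs_rs] at h6
  exact (map_sub (rs (le_top : W' ≤ ⊤)) _ _).symm ▸ h6

end Pool.Agent.PWV
end
end

-- part Pool.Agent.P.MP_65ad7c_ag.YC3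
section

/-! Flabby sheaves of vector spaces are injective. -/

open Set Filter Topology CategoryTheory TopologicalSpace Opposite

noncomputable section
namespace Pool.Agent.PWV

section
variable {Y : Type} [TopologicalSpace Y]

/-- presheaves of vector spaces -/
abbrev Pre_YC3 (Y : Type) [TopologicalSpace Y] := TopCat.Presheaf (ModuleCat.{0} ℂ) (TopCat.of Y)

/-- restriction -/
def rs_YC3 (P : Pre_YC3 Y) {V W : Opens Y} (h : W ≤ V) : P.obj (op V) →ₗ[ℂ] P.obj (op W) :=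
  (P.map (homOfLE h).op).hom

theorem rs_rs_YC3 (P : Pre_YC3 Y) {V W T : Opens Y} (h : W ≤ V) (h' : T ≤ W) (s : P.obj (op V)) :
    rs_YC3 P h' (rs_YC3 P h s) = rs_YC3 P (h'.trans h) s := by
  have e := P.map_comp (homOfLE h).op (homOfLE h').op
  exact (congrArg (fun g => g.hom s) e).symm

theorem rs_self_YC3 (P : Pre_YC3 Y) {V : Opens Y} (h : V ≤ V) (s : P.obj (op V)) :
    rs_YC3 P h s = s := by
  have e := P.map_id (op V)
  exact congrArg (fun g => g.hom s) e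

variable {B F : Pre_YC3 Y}

/-- restriction of pairs -/
def rp_YC3 (B F : Pre_YC3 Y) {V W : Opens Y} (h : W ≤ V) :
    B.obj (op V) × F.obj (op V) →ₗ[ℂ] B.obj (op W) × F.obj (op W) :=
  (rs_YC3 B h).prodMap (rs_YC3 F h)

theorem rp_rp_YC3 {V W T : Opens Y} (h : W ≤ V) (h' : T ≤ W) (s : B.obj (op V) × F.obj (op V)) :
    rp_YC3 B F h' (rp_YC3 B F h s) = rp_YC3 B F (h'.trans h) s :=
  Prod.ext (rs_rs_YC3 B h h' s.1) (rs_rs_YC3 F h h' s.2)

theorem rp_self_YC3 {V : Opens Y} (h : V ≤ V) (s : B.obj (op V) × F.obj (op V)) :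
    rp_YC3 B F h s = s :=
  Prod.ext (rs_self_YC3 B h s.1) (rs_self_YC3 F h s.2)

/-- families of subspaces -/
abbrev Gr_YC3 (B F : Pre_YC3 Y) := ∀ V : Opens Y, Submodule ℂ (B.obj (op V) × F.obj (op V))

/-- graphs that are stable under restriction -/
structure Good_YC3 (Γ : Gr_YC3 B F) : Prop where
  res : ∀ (V W : Opens Y) (h : W ≤ V), ∀ p ∈ Γ V, rp_YC3 B F h p ∈ Γ W
  gr : ∀ (V : Opens Y) (k : F.obj (op V)), (0, k) ∈ Γ V → k = 0

theorem Good_YC3.uniq {Γ : Gr_YC3 B F} (h : Good_YC3 Γ) {V : Opens Y} {b : B.obj (op V)}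
    {k k' : F.obj (op V)} (h1 : (b, k) ∈ Γ V) (h2 : (b, k') ∈ Γ V) : k = k' := by
  have h3 := sub_mem h1 h2
  rw [Prod.mk_sub_mk, sub_self] at h3
  exact sub_eq_zero.1 (h.gr V _ h3)

theorem max_YC3 {Γ0 : Gr_YC3 B F} (h0 : Good_YC3 Γ0) :
    ∃ Γ, Γ0 ≤ Γ ∧ Maximal (· ∈ {Γ : Gr_YC3 B F | Good_YC3 Γ}) Γ := by
  refine zorn_le_nonempty₀ _ (fun c hc hch y hy => ?_) Γ0 h0
  have : Nonempty c := ⟨⟨y, hy⟩⟩
  have hm : ∀ V p, p ∈ (⨆ Γ : c, Γ.1 V) ↔ ∃ Γ : c, p ∈ Γ.1 V := fun V p =>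
    Submodule.mem_iSup_of_directed _ fun a b =>
      let ⟨z, hz, h1, h2⟩ := hch.directedOn a.1 a.2 b.1 b.2
      ⟨⟨z, hz⟩, h1 V, h2 V⟩
  refine ⟨fun V => ⨆ Γ : c, Γ.1 V, ⟨fun V W h p hp => ?_, fun V k hk => ?_⟩,
    fun z hz V => le_iSup (fun Γ : c => Γ.1 V) ⟨z, hz⟩⟩
  · obtain ⟨Γ, hΓ⟩ := (hm V p).1 hp
    exact (hm W _).2 ⟨Γ, (hc Γ.2).res V W h p hΓ⟩
  · obtain ⟨Γ, hΓ⟩ := (hm V _).1 hk
    exact (hc Γ.2).gr V k hΓ

/-- pairs that are locally in the graph -/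
def loc_YC3 {Γ : Gr_YC3 B F} (h : Good_YC3 Γ) : Gr_YC3 B F := fun V =>
  { carrier := {p | ∀ y ∈ V, ∃ (W : Opens Y) (hW : W ≤ V), y ∈ W ∧ rp_YC3 B F hW p ∈ Γ W}
    zero_mem' := fun y hy => ⟨V, le_rfl, hy, by rw [map_zero]; exact zero_mem _⟩
    add_mem' := fun {p q} hp hq y hy => by
      obtain ⟨W, hW, h1, h2⟩ := hp y hy
      obtain ⟨W', hW', h1', h2'⟩ := hq y hy
      have h3 := h.res _ _ (inf_le_left : W ⊓ W' ≤ W) _ h2
      have h4 := h.res _ _ (inf_le_right : W ⊓ W' ≤ W') _ h2'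
      rw [rp_rp_YC3] at h3 h4
      exact ⟨W ⊓ W', inf_le_left.trans hW, ⟨h1, h1'⟩, by rw [map_add]; exact add_mem h3 h4⟩
    smul_mem' := fun a p hp y hy => by
      obtain ⟨W, hW, h1, h2⟩ := hp y hy
      exact ⟨W, hW, h1, by rw [map_smul]; exact Submodule.smul_mem _ a h2⟩ }

theorem loc_good_YC3 (hF : F.IsSheaf) {Γ : Gr_YC3 B F} (h : Good_YC3 Γ) :
    Good_YC3 (loc_YC3 h) := by
  refine ⟨fun V V' hV p hp y hy => ?_, fun V k hk => ?_⟩
  · obtain ⟨W, hW, h1, h2⟩ := hp y (hV hy)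
    have h3 := h.res _ _ (inf_le_left : W ⊓ V' ≤ W) _ h2
    rw [rp_rp_YC3] at h3
    exact ⟨W ⊓ V', inf_le_right, ⟨h1, hy⟩, by rw [rp_rp_YC3]; exact h3⟩
  · choose W hW h1 h2 using fun y : V => hk y.1 y.2
    refine TopCat.Sheaf.eq_of_locally_eq' (⟨F, hF⟩ : TopCat.Sheaf (ModuleCat.{0} ℂ) (TopCat.of Y))
      W V (fun x => homOfLE (hW x)) (fun y hy => Opens.mem_iSup.2 ⟨⟨y, hy⟩, h1 _⟩) k 0 fun x => ?_
    have h3 : rp_YC3 B F (hW x) (0, k) = (0, rs_YC3 F (hW x) k) :=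
      Prod.ext (map_zero (rs_YC3 B (hW x))) rfl
    exact (h.gr _ _ (h3 ▸ h2 x)).trans (map_zero (rs_YC3 F (hW x))).symm

/-- the graph enlarged by one pair -/
def ext_YC3 (Γ : Gr_YC3 B F) {W : Opens Y} (q : B.obj (op W) × F.obj (op W)) : Gr_YC3 B F :=
  fun T =>
  { carrier := {p | ∃ a : ℂ, (∀ h : T ≤ W, p - a • rp_YC3 B F h q ∈ Γ T) ∧ (¬T ≤ W → p ∈ Γ T)}
    zero_mem' := ⟨0, fun h => by rw [zero_smul, sub_zero]; exact zero_mem _, fun _ => zero_mem _⟩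
    add_mem' := fun {p p'} ⟨a, h1, h2⟩ ⟨a', h1', h2'⟩ => ⟨a + a', fun h => by
      rw [add_smul, add_sub_add_comm]
      exact add_mem (h1 h) (h1' h), fun h => add_mem (h2 h) (h2' h)⟩
    smul_mem' := fun c p ⟨a, h1, h2⟩ => ⟨c * a, fun h => by
      rw [mul_smul, ← smul_sub]
      exact Submodule.smul_mem _ c (h1 h), fun h => Submodule.smul_mem _ c (h2 h)⟩ }

theorem ext_good_YC3 {Γ : Gr_YC3 B F} (h : Good_YC3 Γ) {W : Opens Y}
    (q : B.obj (op W) × F.obj (op W)) (hq : ∀ (T : Opens Y) (hT : T ≤ W) (k : F.obj (op T)),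
      (rs_YC3 B hT q.1, k) ∈ Γ T → rp_YC3 B F hT q ∈ Γ T) : Good_YC3 (ext_YC3 Γ q) := by
  refine ⟨fun T T' hT p ⟨a, h1, h2⟩ => ?_, fun T k ⟨a, h1, h2⟩ => ?_⟩
  · by_cases hW : T ≤ W
    · refine ⟨a, fun _ => ?_, fun h' => (h' (hT.trans hW)).elim⟩
      have h3 := h.res _ _ hT _ (h1 hW)
      rwa [map_sub, map_smul, rp_rp_YC3] at h3
    · have h3 := h.res _ _ hT _ (h2 hW)
      exact ⟨0, fun _ => by rwa [zero_smul, sub_zero], fun _ => h3⟩
  · by_cases hW : T ≤ W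
    · have h3 := h1 hW
      refine h.gr T k ?_
      rcases eq_or_ne a 0 with rfl | ha
      · rwa [zero_smul, sub_zero] at h3
      · have h4 := Submodule.smul_mem _ (-a⁻¹) h3
        have e : (-a⁻¹ • ((0, k) - a • rp_YC3 B F hW q)).1 = rs_YC3 B hW q.1 := by
          rw [Prod.smul_fst, Prod.fst_sub, Prod.smul_fst, zero_sub, smul_neg, neg_smul, neg_neg,
            smul_smul, inv_mul_cancel₀ ha, one_smul]
          rfl
        have h5 := hq T hW (-a⁻¹ • ((0, k) - a • rp_YC3 B F hW q)).2 (e ▸ h4)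
        have h6 := add_mem h3 (Submodule.smul_mem _ a h5)
        rwa [sub_add_cancel] at h6
    · exact h.gr T k (h2 hW)

theorem total_YC3 (hF : F.IsSheaf)
    (fl : ∀ (V W : Opens Y) (hle : W ≤ V), Function.Surjective (rs_YC3 F hle)) {Γ : Gr_YC3 B F}
    (hm : Maximal (· ∈ {Γ : Gr_YC3 B F | Good_YC3 Γ}) Γ) (W : Opens Y) (b : B.obj (op W)) :
    ∃ k, (b, k) ∈ Γ W := by
  have h : Good_YC3 Γ := hm.prop
  have hl : loc_YC3 h ≤ Γ := hm.le_of_ge (loc_good_YC3 hF h) fun V p hp y hy =>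
    ⟨V, le_rfl, hy, h.res _ _ _ p hp⟩
  let ι := {T : Opens Y // ∃ (hT : T ≤ W) (k : F.obj (op T)), (rs_YC3 B hT b, k) ∈ Γ T}
  choose hT κ hκ using fun T : ι => T.2
  obtain ⟨kV, hk, -⟩ := TopCat.Sheaf.existsUnique_gluing
    (⟨F, hF⟩ : TopCat.Sheaf (ModuleCat.{0} ℂ) (TopCat.of Y)) (fun T : ι => T.1) κ fun T T' => by
      have h1 : (rs_YC3 B _ (rs_YC3 B _ b), rs_YC3 F _ (κ T)) ∈ _ :=
        h.res _ _ (inf_le_left : T.1 ⊓ T'.1 ≤ T.1) _ (hκ T)
      have h2 : (rs_YC3 B _ (rs_YC3 B _ b), rs_YC3 F _ (κ T')) ∈ _ :=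
        h.res _ _ (inf_le_right : T.1 ⊓ T'.1 ≤ T'.1) _ (hκ T')
      rw [rs_rs_YC3] at h1 h2
      exact h.uniq h1 h2
  have hV : (⨆ T : ι, T.1) ≤ W := iSup_le hT
  obtain ⟨k, rfl⟩ := fl _ _ hV kV
  have hq : ∀ (T : Opens Y) (hT : T ≤ W) (k' : F.obj (op T)),
      (rs_YC3 B hT b, k') ∈ Γ T → rp_YC3 B F hT (b, k) ∈ Γ T := fun T hTW k' hk' => by
    have h1 : rs_YC3 F (le_iSup (fun T : ι => T.1) ⟨T, hTW, k', hk'⟩) (rs_YC3 F hV k) = _ :=
      hk ⟨T, hTW, k', hk'⟩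
    rw [rs_rs_YC3] at h1
    have h2 := hκ ⟨T, hTW, k', hk'⟩
    rw [← h1] at h2
    exact h2
  have he : ext_YC3 Γ (b, k) ≤ Γ := hm.le_of_ge (ext_good_YC3 h (b, k) hq) fun T p hp =>
    ⟨0, fun _ => by rwa [zero_smul, sub_zero], fun _ => hp⟩
  exact ⟨k, he W ⟨1, fun h' => by
    rw [one_smul, rp_self_YC3, sub_self]
    exact zero_mem _, fun h' => (h' le_rfl).elim⟩⟩

theorem extend_YC3 {A : Pre_YC3 Y} (hF : F.IsSheaf)
    (fl : ∀ (V W : Opens Y) (hle : W ≤ V), Function.Surjective (rs_YC3 F hle)) (f : A ⟶ B)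
    (g : A ⟶ F) (hf : ∀ V, Function.Injective (f.app V).hom) : ∃ e : B ⟶ F, f ≫ e = g := by
  have h0 : Good_YC3 (B := B) (F := F) fun V =>
      LinearMap.range ((f.app (op V)).hom.prod (g.app (op V)).hom) := by
    refine ⟨fun V W h p ⟨a, ha⟩ => ⟨rs_YC3 A h a, ?_⟩, fun V k ⟨a, ha⟩ => ?_⟩
    · rw [← ha]
      exact Prod.ext (congrArg (fun u => u.hom a) (f.naturality (homOfLE h).op))
        (congrArg (fun u => u.hom a) (g.naturality (homOfLE h).op))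
    · have h1 : a = 0 := hf _ ((congrArg Prod.fst ha).trans (map_zero _).symm)
      rw [h1, map_zero] at ha
      exact (congrArg Prod.snd ha).symm
  obtain ⟨Γ, hΓ, hm⟩ := max_YC3 h0
  have h : Good_YC3 Γ := hm.prop
  choose φ hφ using total_YC3 hF fl hm
  let L : ∀ V : Opens Y, B.obj (op V) →ₗ[ℂ] F.obj (op V) := fun V =>
    { toFun := φ V
      map_add' := fun a b => h.uniq (hφ V _) (add_mem (hφ V a) (hφ V b))
      map_smul' := fun c a => h.uniq (hφ V _) (Submodule.smul_mem _ c (hφ V a)) }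
  refine ⟨⟨fun V => ModuleCat.ofHom (L V.unop), fun V W i => ?_⟩, ?_⟩
  · exact ModuleCat.hom_ext (LinearMap.ext fun s =>
      h.uniq (hφ _ _) (h.res _ _ (leOfHom i.unop) _ (hφ V.unop s)))
  · refine NatTrans.ext (funext fun V => ModuleCat.hom_ext (LinearMap.ext fun a => ?_))
    exact h.uniq (hφ _ _) (hΓ V.unop ⟨a, rfl⟩)

end

theorem injective_of_flabby {Y : Type} [TopologicalSpace Y]
    (F : TopCat.Presheaf (ModuleCat.{0} ℂ) (TopCat.of Y)) (h : F.IsSheaf)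
    (fl : ∀ (V W : Opens Y) (hle : W ≤ V), Function.Surjective (F.map (homOfLE hle).op).hom) :
    Injective (⟨F, h⟩ : TopCat.Sheaf (ModuleCat.{0} ℂ) (TopCat.of Y)) := by
  refine ⟨fun {A B} g f _ => ?_⟩
  have m1 : Mono f.hom := (Sheaf.Hom.mono_iff_presheaf_mono _ _ f).1 inferInstance
  obtain ⟨e, he⟩ := extend_YC3 h fl f.hom g.hom fun V =>
    (ModuleCat.mono_iff_injective _).1 ((NatTrans.mono_iff_mono_app f.hom).1 m1 V)
  exact ⟨⟨e⟩, Sheaf.hom_ext he⟩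

end Pool.Agent.PWV
end
end

-- part Pool.Agent.P.MP_65ad7c_ag.YD0
section

open Set Filter Topology TopologicalSpace CategoryTheory Opposite
open Pool.Agent.PWD (Sec rs dd Coc Cob)

noncomputable section
namespace Pool.Agent.PWV

variable {X : Cx} {Y : Type} [TopologicalSpace Y]

/-- `I` is the complex of sheaves presented by `R`. -/
structure Pres (R : FC X Y) (I : PWD.Cx Y)
    (m : ∀ (n : ℕ) (W : Opens Y), R.top n →ₗ[ℂ] Sec I n W) : Prop where
  inj : ∀ n, Injective (I.X n)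
  sur : ∀ n W, Function.Surjective (m n W)
  ker : ∀ (n : ℕ) (W : Opens Y) v, m n W v = 0 ↔ ∀ y ∈ W, v.1 ∈ R.z n y
  res : ∀ n (W W' : Opens Y) (h : W' ≤ W) v, rs h (m n W v) = m n W' v
  d : ∀ (n : ℕ) W (v : R.top n), dd n (n + 1) (m n W v) = m (n + 1) W ⟨X.d n v.1, R.d_top n v.1 v.2⟩

section gen
variable {V V' : Type} [AddCommGroup V] [Module ℂ V] [AddCommGroup V'] [Module ℂ V']

/-- a vector space with the subspaces of elements that vanish on open sets -/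
structure Kr_YD0 (Y V : Type) [TopologicalSpace Y] [AddCommGroup V] [Module ℂ V] where
  K : Opens Y → Submodule ℂ V
  anti : ∀ {W W'}, W' ≤ W → K W ≤ K W'
  loc : ∀ (ι : Type) (O : ι → Opens Y) v, (∀ i, v ∈ K (O i)) → v ∈ K (iSup O)
  glue : ∀ (ι : Type) (O : ι → Opens Y) (v : ι → V), (∀ i j, v i - v j ∈ K (O i ⊓ O j)) →
    ∃ w, ∀ i, w - v i ∈ K (O i)

/-- the map of quotients -/
def q_YD0 {p : Submodule ℂ V} {q : Submodule ℂ V'} (f : V →ₗ[ℂ] V') (h : p ≤ q.comap f) :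
    ModuleCat.of ℂ (V ⧸ p) ⟶ ModuleCat.of ℂ (V' ⧸ q) := ModuleCat.ofHom (Submodule.mapQ p q f h)

theorem qmk_YD0 {p : Submodule ℂ V} {q : Submodule ℂ V'} (f : V →ₗ[ℂ] V') (h : p ≤ q.comap f)
    (v : V) : (q_YD0 f h).hom (Submodule.Quotient.mk v) = Submodule.Quotient.mk (f v) := rfl

theorem qext_YD0 {p : Submodule ℂ V} {B : ModuleCat.{0} ℂ} {f g : ModuleCat.of ℂ (V ⧸ p) ⟶ B}
    (h : ∀ v, f.hom (Submodule.Quotient.mk v) = g.hom (Submodule.Quotient.mk v)) : f = g :=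
  ModuleCat.hom_ext (LinearMap.ext fun v => Submodule.Quotient.induction_on p v h)

theorem qid_YD0 {p : Submodule ℂ V} (h : p ≤ p.comap LinearMap.id) :
    q_YD0 LinearMap.id h = 𝟙 (ModuleCat.of ℂ (V ⧸ p)) :=
  qext_YD0 fun v => by rw [qmk_YD0, ModuleCat.hom_id, LinearMap.id_apply, LinearMap.id_apply]

theorem qcomp_YD0 {V'' : Type} [AddCommGroup V''] [Module ℂ V''] {p : Submodule ℂ V}
    {q : Submodule ℂ V'} {r : Submodule ℂ V''} (f : V →ₗ[ℂ] V') (h : p ≤ q.comap f)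
    (g : V' →ₗ[ℂ] V'') (h' : q ≤ r.comap g) (v : V) :
    (q_YD0 f h ≫ q_YD0 g h').hom (Submodule.Quotient.mk v) = Submodule.Quotient.mk (g (f v)) := by
  rw [ModuleCat.hom_comp, LinearMap.comp_apply, qmk_YD0, qmk_YD0]

/-- the presheaf of sections -/
def pre_YD0 (A : Kr_YD0 Y V) : TopCat.Presheaf (ModuleCat.{0} ℂ) (TopCat.of Y) where
  obj W := ModuleCat.of ℂ (V ⧸ A.K W.unop)
  map i := q_YD0 LinearMap.id (A.anti (leOfHom i.unop))
  map_id _ := qid_YD0 _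
  map_comp _ _ := qext_YD0 fun v => by rw [qmk_YD0, qcomp_YD0]; rfl

theorem sheaf_YD0 (A : Kr_YD0 Y V) : (pre_YD0 A).IsSheaf := by
  rw [TopCat.Presheaf.isSheaf_iff_isSheafUniqueGluing]
  intro ι O s hs
  choose v hv using fun i => Submodule.Quotient.mk_surjective (A.K (O i)) (s i)
  obtain ⟨w, hw'⟩ := A.glue ι O v fun i j => by
      have h := hs i j
      rw [← hv i, ← hv j] at h
      exact (Submodule.Quotient.eq (A.K (O i ⊓ O j))).1 h
  refine ⟨Submodule.Quotient.mk (p := A.K (iSup O)) w, fun i => ?_, fun t ht => ?_⟩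
  · rw [← hv i]
    exact (Submodule.Quotient.eq (A.K (O i))).2 (hw' i)
  · obtain ⟨t, rfl⟩ := Submodule.Quotient.mk_surjective (A.K (iSup O)) t
    refine (Submodule.Quotient.eq (A.K (iSup O))).2 (A.loc ι O _ fun i => ?_)
    have h := ht i
    rw [← hv i] at h
    have h2 := sub_mem ((Submodule.Quotient.eq (A.K (O i))).1 h) (hw' i)
    rwa [sub_sub_sub_cancel_right] at h2

/-- the differential -/
def d_YD0 {A : Kr_YD0 Y V} {A' : Kr_YD0 Y V'} (d : V →ₗ[ℂ] V')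
    (hd : ∀ W, A.K W ≤ (A'.K W).comap d) : pre_YD0 A ⟶ pre_YD0 A' where
  app _ := q_YD0 d (hd _)
  naturality _ _ i := qext_YD0 fun v =>
    (qcomp_YD0 LinearMap.id (A.anti (leOfHom i.unop)) d (hd _) v).trans
      (qcomp_YD0 d (hd _) LinearMap.id (A'.anti (leOfHom i.unop)) v).symm

/-- the sheaf of sections -/
def sh_YD0 (A : Kr_YD0 Y V) : TopCat.Sheaf (ModuleCat.{0} ℂ) (TopCat.of Y) :=
  ⟨pre_YD0 A, sheaf_YD0 A⟩

theorem inj_YD0 (A : Kr_YD0 Y V) : Injective (sh_YD0 A) := by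
  refine injective_of_flabby _ (sheaf_YD0 A) fun U W h v => ?_
  obtain ⟨v, rfl⟩ := Submodule.Quotient.mk_surjective (A.K W) v
  exact ⟨Submodule.Quotient.mk (p := A.K U) v, qmk_YD0 LinearMap.id (A.anti h) v⟩

end gen

theorem gen_YD0 {V : ℕ → Type} [∀ n, AddCommGroup (V n)] [∀ n, Module ℂ (V n)]
    (A : ∀ n, Kr_YD0 Y (V n)) (d : ∀ n, V n →ₗ[ℂ] V (n + 1))
    (hd : ∀ n W, (A n).K W ≤ ((A (n + 1)).K W).comap (d n)) (hdd : ∀ n v, d (n + 1) (d n v) = 0) :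
    ∃ (I : PWD.Cx Y) (m : ∀ (n : ℕ) (W : Opens Y), V n →ₗ[ℂ] Sec I n W),
      (∀ n, Injective (I.X n)) ∧ (∀ n W, Function.Surjective (m n W)) ∧
      (∀ n W v, m n W v = 0 ↔ v ∈ (A n).K W) ∧
      (∀ n (W W' : Opens Y) (h : W' ≤ W) v, rs h (m n W v) = m n W' v) ∧
      ∀ n W v, dd n (n + 1) (m n W v) = m (n + 1) W (d n v) := by
  let D : ∀ n, sh_YD0 (A n) ⟶ sh_YD0 (A (n + 1)) := fun n => ⟨d_YD0 (d n) (hd n)⟩
  have hD : ∀ n, D n ≫ D (n + 1) = 0 := fun n =>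
    ObjectProperty.hom_ext _ (NatTrans.ext (funext fun W => qext_YD0 fun v =>
      (qcomp_YD0 (d n) (hd n _) (d (n + 1)) (hd (n + 1) _) v).trans (by rw [hdd]; rfl)))
  refine ⟨CochainComplex.of (fun n => sh_YD0 (A n)) D hD, fun n W => ((A n).K W).mkQ,
    fun n => inj_YD0 (A n), fun n W => Submodule.Quotient.mk_surjective _,
    fun n W v => Submodule.Quotient.mk_eq_zero _,
    fun n W W' h v => qmk_YD0 LinearMap.id ((A n).anti h) v, fun n W v => ?_⟩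
  have h := CochainComplex.of_d (fun n => sh_YD0 (A n)) D n
  exact (congrArg (fun f : sh_YD0 (A n) ⟶ sh_YD0 (A (n + 1)) =>
    (f.hom.app (op W)).hom (((A n).K W).mkQ v)) h).trans (qmk_YD0 (d n) (hd n W) v)

/-- the data of a presented complex -/
def kr_YD0 (R : FC X Y) (n : ℤ) : Kr_YD0 Y (R.top n) where
  K W := (R.Z W n).comap (R.top n).subtype
  anti h _ hv := FC.mem_Z.2 fun y hy => FC.mem_Z.1 hv y (h hy)
  loc ι O v hv := FC.mem_Z.2 fun y hy => by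
    obtain ⟨i, hi⟩ := Opens.mem_iSup.1 hy
    exact FC.mem_Z.1 (hv i) y hi
  glue ι O v hv := by
    obtain ⟨w, hw, hw'⟩ := R.glue n ι (fun i => O i) (fun i => (v i).1) (fun i => (O i).2)
      (fun i => (v i).2) fun i j x hx => FC.mem_Z.1 (hv i j) x hx
    exact ⟨⟨w, hw⟩, fun i => FC.mem_Z.2 (hw' i)⟩

theorem exists_pres (R : FC X Y) : ∃ I m, Pres R I m := by
  obtain ⟨I, m, h1, h2, h3, h4, h5⟩ := gen_YD0 (V := fun n : ℕ => R.top n) (fun n => kr_YD0 R n)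
    (fun n => (X.d n).restrict (R.d_top n))
    (fun n W v hv => FC.mem_Z.2 fun y hy => R.d_z y n _ (FC.mem_Z.1 hv y hy))
    fun n v => Subtype.ext (X.dd n v.1)
  exact ⟨I, m, h1, h2, fun n W v => (h3 n W v).trans FC.mem_Z, h4, h5⟩

end Pool.Agent.PWV
end
end

-- part Pool.Agent.P.MP_65ad7c_ag.VLG
section

open Set Filter Topology Metric

noncomputable section
namespace Pool.Agent.PWV

variable {X : Cx} {T T' : Type} [MetricSpace T] [MetricSpace T']

namespace FC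

theorem vlg_step {F : Type} [MetricSpace F] (Q : FC X T) {C B : Set T} (hC : IsCompact C)
    (hB : IsClosed B) (hBC : B ⊆ C) (f : T → F) (hf : ContinuousOn f C) (i : ℤ)
    (h : ∀ t, Q.Ex (i + 1) (C ∩ f ⁻¹' {t}) (B ∩ f ⁻¹' {t}))
    (ih : ∀ K, IsClosed K → Q.Ex i (C ∩ f ⁻¹' K) (B ∩ f ⁻¹' K)) (K : Set F) (hK : IsClosed K) :
    Q.Ex (i + 1) (C ∩ f ⁻¹' K) (B ∩ f ⁻¹' K) := by
  rw [ex_iff_good]
  intro v hv hdv
  have cC : ∀ L : Set F, IsClosed L → IsClosed (C ∩ f ⁻¹' L) := fun L hL =>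
    hf.preimage_isClosed_of_isClosed hC.isClosed hL
  have cB : ∀ L : Set F, IsClosed L → IsClosed (B ∩ f ⁻¹' L) := fun L hL =>
    (hf.mono hBC).preimage_isClosed_of_isClosed hB hL
  have hL : IsCompact (f '' C ∩ K) := (hC.image_of_continuousOn hf).inter_right hK
  have key : Q.Good (i + 1) v (C ∩ f ⁻¹' (K ∩ closure (f '' C ∩ K)))
      (B ∩ f ⁻¹' (K ∩ closure (f '' C ∩ K))) := by
    refine hL.induction_on (p := fun s => Q.Good (i + 1) v (C ∩ f ⁻¹' (K ∩ closure s))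
      (B ∩ f ⁻¹' (K ∩ closure s))) ?_ ?_ ?_ ?_
    · refine ⟨0, zero_mem _, mem_ZT.2 ⟨?_, fun x hx => ?_⟩⟩
      · rw [map_zero, sub_zero]
        exact (mem_ZT.1 hv).1
      · simp at hx
    · intro s t hst ht
      have e : f ⁻¹' (K ∩ closure s) ⊆ f ⁻¹' (K ∩ closure t) :=
        preimage_mono (inter_subset_inter_right _ (closure_mono hst))
      exact ht.mono (inter_subset_inter_right _ e) (inter_subset_inter_right _ e)
    · intro s t hs ht
      have cs : IsClosed (K ∩ closure s) := hK.inter isClosed_closure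
      have ct : IsClosed (K ∩ closure t) := hK.inter isClosed_closure
      have e : ∀ D : Set T, D ∩ f ⁻¹' (K ∩ closure s) ∩ (D ∩ f ⁻¹' (K ∩ closure t)) =
          D ∩ f ⁻¹' (K ∩ closure s ∩ (K ∩ closure t)) := fun D => by
        rw [preimage_inter (s := K ∩ closure s), ← inter_inter_distrib_left]
      have := mv_good (inter_subset_inter_left _ hBC) (inter_subset_inter_left _ hBC)
        (sep_of_isClosed (cC _ cs) (cC _ ct)) (sep_of_isClosed (cB _ cs) (cB _ ct))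
        (by rw [e, e]; exact ih _ (cs.inter ct)) hs ht
      rw [closure_union, inter_union_distrib_left, preimage_union, inter_union_distrib_left,
        inter_union_distrib_left]
      exact this
    · intro t ht
      have e : f ⁻¹' {t} ⊆ f ⁻¹' K := preimage_mono (singleton_subset_iff.2 ht.2)
      obtain ⟨w, hw, hw'⟩ := h t v (ZT_anti (inter_subset_inter_right _ e) _ hv)
        (ZT_anti (inter_subset_inter_right _ e) _ hdv)
      have c1 : IsCompact (C \ {x | v - X.d (i + 1) w ∈ Q.z (i + 1 + 1) x}) :=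
        hC.diff (Q.opn _ _)
      have c2 : IsCompact (B \ {x | w ∈ Q.z (i + 1) x}) :=
        (hC.of_isClosed_subset hB hBC).diff (Q.opn _ _)
      have c3 := (c1.union c2).image_of_continuousOn
        (hf.mono (union_subset sdiff_subset (sdiff_subset.trans hBC)))
      have c4 : t ∉ f '' ((C \ {x | v - X.d (i + 1) w ∈ Q.z (i + 1 + 1) x}) ∪
          (B \ {x | w ∈ Q.z (i + 1) x})) := by
        rintro ⟨x, hx | hx, rfl⟩
        · exact hx.2 ((mem_ZT.1 hw').2 x ⟨hx.1, rfl⟩)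
        · exact hx.2 ((mem_ZT.1 hw).2 x ⟨hx.1, rfl⟩)
      obtain ⟨s, hs, hsc, hs'⟩ := exists_mem_nhds_isClosed_subset
        (c3.isClosed.isOpen_compl.mem_nhds c4)
      refine ⟨s, mem_nhdsWithin_of_mem_nhds hs, w, mem_ZT.2 ⟨(mem_ZT.1 hw).1, fun x hx => ?_⟩,
        mem_ZT.2 ⟨(mem_ZT.1 hw').1, fun x hx => ?_⟩⟩
      · by_contra hn
        exact hs' (hsc.closure_subset hx.2.2) ⟨x, Or.inr ⟨hx.1, hn⟩, rfl⟩
      · by_contra hn
        exact hs' (hsc.closure_subset hx.2.2) ⟨x, Or.inl ⟨hx.1, hn⟩, rfl⟩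
  exact key.mono (fun x hx => ⟨hx.1, hx.2, subset_closure ⟨⟨x, hx.1, rfl⟩, hx.2⟩⟩)
    fun x hx => ⟨hx.1, hx.2, subset_closure ⟨⟨x, hBC hx.1, rfl⟩, hx.2⟩⟩

/-- Vietoris-Begle on a compact set. -/
theorem lg {F : Type} [MetricSpace F] (Q : FC X T) {C B : Set T} (hC : IsCompact C)
    (hB : IsClosed B) (hBC : B ⊆ C) (f : T → F) (hf : ContinuousOn f C) (n : ℤ)
    (h : ∀ t, ∀ i ≤ n, Q.Ex i (C ∩ f ⁻¹' {t}) (B ∩ f ⁻¹' {t})) : Q.Ex n C B := by
  by_cases hn : n + 1 < 0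
  · exact Q.ex_neg hn _ _
  have key : ∀ i, -2 ≤ i → i ≤ n → ∀ K, IsClosed K → Q.Ex i (C ∩ f ⁻¹' K) (B ∩ f ⁻¹' K) := by
    intro i hi
    induction i, hi using Int.leInduction with
    | base => exact fun _ _ _ => Q.ex_neg (by norm_num) _ _
    | succ i _ ih =>
      exact fun hin => vlg_step Q hC hB hBC f hf i (fun t => h t _ hin) (ih (by omega))
  simpa using key n (by omega) le_rfl univ isClosed_univ

end FC

end Pool.Agent.PWV
end
end

-- part Pool.Agent.P.MP_65ad7c_ag.VStar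
section

open Set Filter Topology Metric

noncomputable section
namespace Pool.Agent.PWV

variable {X : Cx} {E F : Type} [NormedAddCommGroup E] [NormedSpace ℝ E] [NormedAddCommGroup F]
  [NormedSpace ℝ F]

theorem vstar_seg (c t : E) {e s : ℝ} (h : e ≤ s) :
    segment ℝ (c + e • t) (c + s • t) = (fun m : ℝ => c + m • t) '' Icc e s := by
  have h1 := image_segment ℝ (AffineMap.lineMap c (c + t) : ℝ →ᵃ[ℝ] E) e s
  have h2 : ⇑(AffineMap.lineMap c (c + t) : ℝ →ᵃ[ℝ] E) = fun m : ℝ => c + m • t := by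
    funext m
    rw [AffineMap.lineMap_apply_module', add_sub_cancel_left, add_comm]
  rw [segment_eq_Icc h, h2] at h1
  exact h1.symm

theorem vstar_norm (c : E) {t : E} (ht : ‖t‖ = 1) {m : ℝ} (hm : 0 ≤ m) :
    ‖c + m • t - c‖ = m := by
  rw [add_sub_cancel_left, norm_smul, ht, mul_one, Real.norm_of_nonneg hm]

theorem vstar_fib (c : E) {t : E} (ht : ‖t‖ = 1) {e : ℝ} (he : 0 < e) (y : E) :
    (max e ‖y - c‖)⁻¹ • (y - c) = t ↔ ∃ m, e ≤ m ∧ y = c + m • t := by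
  constructor
  · intro h
    refine ⟨max e ‖y - c‖, le_max_left _ _, ?_⟩
    rw [← h, smul_inv_smul₀ (he.trans_le (le_max_left _ _)).ne', add_sub_cancel]
  · rintro ⟨m, hm, rfl⟩
    rw [vstar_norm c ht (he.le.trans hm), max_eq_right hm, add_sub_cancel_left,
      inv_smul_smul₀ (he.trans_le hm).ne']

namespace FC

theorem PC.segment {Q : FC X E} {S : Set E} (h : Q.PC S) {p q : E} (hs : segment ℝ p q ⊆ S) :
    Q.Acyc (segment ℝ p q) {p} := by
  rcases eq_or_ne p q with rfl | hpq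
  · rw [segment_same]
    exact fun n => Q.ex_self n _
  have h1 := h (AffineMap.lineMap p q : ℝ →ᵃ[ℝ] E) AffineMap.lineMap_continuous.continuousOn
    (AffineMap.lineMap_injective ℝ hpq).injOn
    fun t ht => hs (by rw [segment_eq_image_lineMap]; exact ⟨t, ht, rfl⟩)
  rwa [← segment_eq_image_lineMap, AffineMap.lineMap_apply_zero] at h1

theorem vstar_ball (Q : FC X E) {K : Set E} (hK : IsCompact K) {c : E} (hc : c ∈ K)
    (hs : StarConvex ℝ c K) (hP : Q.PC (K \ {c})) {e : ℝ} (he : 0 < e) (n : ℤ) :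
    Q.Ex n K (K ∩ closedBall c e) := by
  have hf : Continuous fun y : E => (max e ‖y - c‖)⁻¹ • (y - c) :=
    ((continuous_const.max (continuous_id.sub continuous_const).norm).inv₀
      fun y => (he.trans_le (le_max_left _ _)).ne').smul (continuous_id.sub continuous_const)
  refine Q.lg hK (hK.isClosed.inter isClosed_closedBall) inter_subset_left _ hf.continuousOn n
    fun t i _ => ?_
  set A := K ∩ (fun y : E => (max e ‖y - c‖)⁻¹ • (y - c)) ⁻¹' {t} with hA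
  rw [inter_right_comm, ← hA]
  by_cases h0 : A ⊆ closedBall c e
  · rw [inter_eq_left.2 h0]
    exact Q.ex_self i _
  obtain ⟨y₀, hy₀, h1⟩ := not_subset.1 h0
  rw [mem_closedBall_iff_norm, not_le] at h1
  have ht : ‖t‖ = 1 := by
    have h2 : (max e ‖y₀ - c‖)⁻¹ • (y₀ - c) = t := hy₀.2
    rw [← h2, max_eq_right h1.le, norm_smul, norm_inv, norm_norm,
      inv_mul_cancel₀ (he.trans h1).ne']
  obtain ⟨y, hy, hmax⟩ := (hK.inter_right (isClosed_singleton.preimage hf)).exists_isMaxOn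
    ⟨y₀, hy₀⟩ (f := fun y : E => ‖y - c‖) (continuous_id.sub continuous_const).norm.continuousOn
  obtain ⟨s, hes, rfl⟩ := (vstar_fib c ht he y).1 hy.2
  have hs0 : 0 < s := he.trans_le hes
  have h3 : A = (fun m : ℝ => c + m • t) '' Icc e s := by
    refine Subset.antisymm (fun z hz => ?_) ?_
    · obtain ⟨m, hm, rfl⟩ := (vstar_fib c ht he z).1 hz.2
      have h4 : ‖c + m • t - c‖ ≤ ‖c + s • t - c‖ := hmax hz
      rw [vstar_norm c ht (he.le.trans hm), vstar_norm c ht hs0.le] at h4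
      exact ⟨m, ⟨hm, h4⟩, rfl⟩
    · rintro _ ⟨m, hm, rfl⟩
      refine ⟨hs.segment_subset hy.1 ?_, (vstar_fib c ht he _).2 ⟨m, hm.1, rfl⟩⟩
      have h5 := vstar_seg c t hs0.le
      rw [zero_smul, add_zero] at h5
      rw [h5]
      exact ⟨m, ⟨he.le.trans hm.1, hm.2⟩, rfl⟩
  have h6 : A ∩ closedBall c e = {c + e • t} := by
    rw [h3]
    refine Subset.antisymm ?_ (singleton_subset_iff.2 ⟨⟨e, ⟨le_rfl, hes⟩, rfl⟩, ?_⟩)
    · rintro _ ⟨⟨m, hm, rfl⟩, h7⟩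
      rw [mem_closedBall_iff_norm, vstar_norm c ht (he.le.trans hm.1)] at h7
      rw [le_antisymm h7 hm.1]
      rfl
    · rw [mem_closedBall_iff_norm, vstar_norm c ht he.le]
  have h8 : segment ℝ (c + e • t) (c + s • t) = A := (vstar_seg c t hes).trans h3.symm
  rw [h6, ← h8]
  refine hP.segment (fun z hz => ⟨(h8 ▸ hz : z ∈ A).1, fun h9 => ?_⟩) i
  rw [vstar_seg c t hes] at hz
  obtain ⟨m, hm, rfl⟩ := hz
  have h10 := vstar_norm c ht (he.le.trans hm.1)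
  rw [show c + m • t = c from h9, sub_self, norm_zero] at h10
  exact (he.trans_le hm.1).ne h10

/-- A compact star-shaped set has the cohomology of its centre. -/
theorem star (Q : FC X E) {K : Set E} (hK : IsCompact K) {c : E} (hc : c ∈ K)
    (hs : StarConvex ℝ c K) (hP : Q.PC (K \ {c})) : Q.Acyc K {c} := by
  intro n v hv hd
  obtain ⟨e, he, h1⟩ := Metric.nhds_basis_closedBall.mem_iff.1
    ((Q.opn (n + 1) v).mem_nhds ((mem_ZT.1 hv).2 c rfl))
  exact Good.mono (Q.vstar_ball hK hc hs hP he n v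
    (mem_ZT.2 ⟨(mem_ZT.1 hv).1, fun x hx => h1 hx.2⟩) hd) subset_rfl
    (singleton_subset_iff.2 ⟨hc, mem_closedBall_self he.le⟩)

end FC

end Pool.Agent.PWV
end
end

-- part Pool.Agent.P.MP_65ad7c_ag.VArt1
section

open Set Filter Topology Metric

noncomputable section
namespace Pool.Agent.PWV

variable {X : Cx}

namespace FC

theorem vart1_pt (Q : FC X ℂ) {P : Set ℂ} {β : ℤ} {K : Set ℂ} (hK : IsCompact K)
    (hc : Convex ℝ K) (p0 : Q.PC (K \ P)) (d1 : Q.DegLe K β) (h : (K ∩ P).Subsingleton)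
    {j : ℤ} (hj : β < j + 1) : Q.Ex j K ∅ := by
  rcases K.eq_empty_or_nonempty with rfl | ⟨c₀, h₀⟩
  · exact Q.ex_self j ∅
  obtain ⟨c, h1, h2⟩ : ∃ c ∈ K, K \ {c} ⊆ K \ P := by
    rcases (K ∩ P).eq_empty_or_nonempty with e | ⟨c, h1⟩
    · exact ⟨c₀, h₀, fun x hx => ⟨hx.1, fun h2 => (e.subset ⟨hx.1, h2⟩).elim⟩⟩
    · exact ⟨c, h1.1, fun x hx => ⟨hx.1, fun h2 => hx.2 (h ⟨hx.1, h2⟩ h1)⟩⟩
  exact Ex.mid (singleton_subset_iff.2 h1) (empty_subset _)
    (Q.star hK h1 (hc.starConvex h1) (p0.mono h2) j) (d1 c h1 j hj)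

/-- Vanishing above the middle degree on a compact convex subset of the plane. -/
theorem art1 (Q : FC X ℂ) {P : Set ℂ} (hP : P.Finite) {β : ℤ} {K : Set ℂ} (hK : IsCompact K)
    (hc : Convex ℝ K) (p0 : Q.PC (K \ P)) (d0 : Q.DegLe (K \ P) (β - 1)) (d1 : Q.DegLe K β)
    {j : ℤ} (hj : β < j + 1) : Q.Ex j K ∅ := by
  induction hn : (K ∩ P).ncard using Nat.strong_induction_on generalizing K with
  | _ n ih =>
  rcases (K ∩ P).subsingleton_or_nontrivial with h | ⟨x, hx, y, hy, hxy⟩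
  · exact Q.vart1_pt hK hc p0 d1 h hj
  obtain ⟨f, hf⟩ := geometric_hahn_banach_point_point hxy
  obtain ⟨s, hs, hs'⟩ := (Ioo_infinite hf).exists_notMem_finite (hP.image f)
  have key : ∀ H : Set ℂ, IsClosed H → Convex ℝ H → ∀ z ∈ K ∩ P, z ∉ H → Q.Ex j (K ∩ H) ∅ :=
    fun H h1 h2 z hz hz' => ih _ (hn ▸ ncard_lt_ncard
      ⟨inter_subset_inter_left _ inter_subset_left, fun e => hz' (e hz).1.2⟩ (hP.inter_of_right _))
      (hK.inter_right h1) (hc.inter h2) (p0.mono fun _ h => ⟨h.1.1, h.2⟩)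
      (d0.mono (fun _ h => ⟨h.1.1, h.2⟩) le_rfl) (d1.mono inter_subset_left le_rfl) rfl
  have c1 : IsClosed {t | f t ≤ s} := isClosed_le f.continuous continuous_const
  have c2 : IsClosed {t | s ≤ f t} := isClosed_le continuous_const f.continuous
  have v1 : Convex ℝ {t | f t ≤ s} := convex_halfSpace_le f.toLinearMap.isLinear s
  have v2 : Convex ℝ {t | s ≤ f t} := convex_halfSpace_ge f.toLinearMap.isLinear s
  have e1 := key _ c1 v1 y hy hs.2.not_ge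
  have e2 := key _ c2 v2 x hx hs.1.not_ge
  have hu : K ∩ {t | f t ≤ s} ∪ K ∩ {t | s ≤ f t} = K := by
    rw [← inter_union_distrib_left]
    exact inter_eq_left.2 fun t _ => le_total (f t) s
  have hP' : ∀ t ∈ K ∩ {t | f t ≤ s} ∩ (K ∩ {t | s ≤ f t}), t ∉ P := fun t ht h =>
    hs' ⟨t, h, le_antisymm ht.1.2 ht.2.2⟩
  obtain ⟨m, rfl⟩ : ∃ m, j = m + 1 := ⟨j - 1, by ring⟩
  have e3 := Q.vart1_pt (P := P) (β := β - 1) (j := m)
    ((hK.inter_right c1).inter_right (hK.isClosed.inter c2)) ((hc.inter v1).inter (hc.inter v2))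
    (p0.mono fun _ h => ⟨h.1.1.1, h.2⟩) (d0.mono (fun t h => ⟨h.1.1, hP' t h⟩) le_rfl)
    (fun t h => (hP' t h.1 h.2).elim) (by omega)
  intro v hv hd
  have h := mv_good (empty_subset _) (empty_subset _)
    (sep_of_isClosed (hK.isClosed.inter c1) (hK.isClosed.inter c2))
    (sep_of_isClosed isClosed_empty isClosed_empty) (by rwa [inter_self])
    (e1 v hv (ZT_anti inter_subset_left _ hd)) (e2 v hv (ZT_anti inter_subset_left _ hd))
  rwa [hu, union_self] at h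

end FC

end Pool.Agent.PWV
end
end

-- part Pool.Agent.P.MP_65ad7c_ag.VStraight
section

open Set Filter Topology Metric

noncomputable section
namespace Pool.Agent.PWV

/-- A small fibrewise perturbation of the identity is a homeomorphism. -/
theorem vstraight_pert {B : Type} [TopologicalSpace B] (h : B × ℂ → ℂ) (hc : Continuous h)
    (hl : ∀ b t t', ‖h (b, t) - h (b, t')‖ ≤ 1 / 2 * ‖t - t'‖) :
    ∃ Φ : B × ℂ ≃ₜ B × ℂ, ∀ p, Φ p = (p.1, p.2 + h p) := by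
  have low : ∀ b t t', ‖t - t'‖ ≤ 2 * ‖t + h (b, t) - (t' + h (b, t'))‖ := fun b t t' => by
    have h1 := norm_sub_le (t + h (b, t) - (t' + h (b, t'))) (h (b, t) - h (b, t'))
    have h2 : t + h (b, t) - (t' + h (b, t')) - (h (b, t) - h (b, t')) = t - t' := by ring
    rw [h2] at h1
    linarith [hl b t t']
  have ex : ∀ p : B × ℂ, ∃ t, t + h (p.1, t) = p.2 := fun p => by
    have hK : ContractingWith (1 / 2) fun t => p.2 - h (p.1, t) := by
      refine ⟨by norm_num, LipschitzWith.of_dist_le_mul fun t t' => ?_⟩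
      rw [dist_eq_norm, dist_eq_norm, sub_sub_sub_cancel_left, norm_sub_rev]
      simpa using hl p.1 t t'
    exact ⟨_, eq_sub_iff_add_eq.1 hK.fixedPoint_isFixedPt.symm⟩
  choose ψ hψ using ex
  have cψ : Continuous ψ := continuous_iff_continuousAt.2 fun p₀ => by
    rw [ContinuousAt, tendsto_iff_norm_sub_tendsto_zero]
    have h1 : Continuous fun p : B × ℂ => 2 * ‖p.2 - (ψ p₀ + h (p.1, ψ p₀))‖ := by fun_prop
    have h2 := h1.tendsto p₀
    rw [hψ p₀, sub_self, norm_zero, mul_zero] at h2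
    refine squeeze_zero (fun _ => norm_nonneg _) (fun p => ?_) h2
    have h3 := low p.1 (ψ p) (ψ p₀)
    rwa [hψ p] at h3
  refine ⟨{ toFun := fun p => (p.1, p.2 + h p)
            invFun := fun p => (p.1, ψ p)
            left_inv := fun p => Prod.ext rfl ?_
            right_inv := fun p => Prod.ext rfl (hψ p)
            continuous_toFun := by fun_prop
            continuous_invFun := by fun_prop }, fun _ => rfl⟩
  have h3 := low p.1 (ψ (p.1, p.2 + h p)) p.2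
  rw [hψ (p.1, p.2 + h p), sub_self, norm_zero, mul_zero] at h3
  exact sub_eq_zero.1 (norm_le_zero_iff.1 h3)

theorem vstraight_rho {k : ℕ} (a : Fin k → ℂ) (hinj : Function.Injective a)
    (h1 : ∀ i, ‖a i‖ < 1) :
    ∃ ρ : ℝ, 0 < ρ ∧ (∀ i j, j ≠ i → ρ ≤ ‖a j - a i‖) ∧ ∀ i, ρ ≤ 1 - ‖a i‖ := by
  have e1 : ∀ᶠ ρ : ℝ in 𝓝 0, ∀ i j, j ≠ i → ρ ≤ ‖a j - a i‖ := by
    simp only [eventually_all]
    exact fun i j hij => eventually_le_nhds (norm_pos_iff.2 (sub_ne_zero.2 (hinj.ne hij)))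
  have e2 : ∀ᶠ ρ : ℝ in 𝓝 0, ∀ i, ρ ≤ 1 - ‖a i‖ :=
    eventually_all.2 fun i => eventually_le_nhds (sub_pos.2 (h1 i))
  have e3 : ∀ᶠ ρ : ℝ in 𝓝[>] 0, 0 < ρ := self_mem_nhdsWithin
  exact (e3.and ((e1.and e2).filter_mono nhdsWithin_le_nhds)).exists

/-- Local straightening of continuous distinct points of the open unit disc. -/
theorem straight {B : Type} [TopologicalSpace B] {k : ℕ} (r : Fin k → B → ℂ)
    (hr : ∀ i, Continuous (r i)) (b₀ : B) (hinj : Function.Injective fun i => r i b₀)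
    (h1 : ∀ i, ‖r i b₀‖ < 1) :
    ∃ W ∈ 𝓝 b₀, ∃ Φ : B × ℂ ≃ₜ B × ℂ, (∀ p, (Φ p).1 = p.1) ∧ (∀ p, (Φ p).2 ∈ Db ↔ p.2 ∈ Db) ∧
      ∀ b ∈ W, ∀ i, Φ (b, r i b₀) = (b, r i b) := by
  obtain ⟨ρ, hρ, hρ1, hρ2⟩ := vstraight_rho _ hinj h1
  obtain ⟨δ, hδ, hδ1⟩ : ∃ δ : ℝ, 0 < δ ∧ k * (δ / ρ) ≤ 1 / 2 := by
    refine ⟨ρ / (2 * (k + 1)), by positivity, ?_⟩
    rw [div_div_cancel_left' hρ.ne', ← div_eq_mul_inv, div_le_div_iff₀ (by positivity) two_pos]
    linarith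
  obtain ⟨χ, cχ, lχ, χ1, χ0⟩ : ∃ χ : Fin k → ℂ → ℝ, (∀ i, Continuous (χ i)) ∧
      (∀ i t t', |χ i t - χ i t'| ≤ ‖t - t'‖ / ρ) ∧ (∀ i, χ i (r i b₀) = 1) ∧
      ∀ i t, ρ ≤ ‖t - r i b₀‖ → χ i t = 0 := by
    refine ⟨fun i t => max (1 - ‖t - r i b₀‖ / ρ) 0, fun i => by fun_prop, fun i t t' => ?_,
      fun i => by simp, fun i t ht => max_eq_right (sub_nonpos.2 ((one_le_div hρ).2 ht))⟩
    refine (abs_max_sub_max_le_abs _ _ _).trans ?_
    rw [sub_sub_sub_cancel_left, ← sub_div, abs_div, abs_of_pos hρ]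
    refine div_le_div_of_nonneg_right ((abs_norm_sub_norm_le _ _).trans_eq ?_) hρ.le
    rw [sub_sub_sub_cancel_right, norm_sub_rev]
  obtain ⟨c, cc, bc, ec⟩ : ∃ c : ℂ → ℂ, Continuous c ∧ (∀ z, ‖c z‖ ≤ δ) ∧
      ∀ z, ‖z‖ ≤ δ → c z = z := by
    have hm : ∀ z : ℂ, 0 < max δ ‖z‖ := fun z => lt_max_of_lt_left hδ
    refine ⟨fun z => (δ / max δ ‖z‖) • z, ?_, fun z => ?_, fun z hz => ?_⟩
    · exact (continuous_const.div (by fun_prop) fun z => (hm z).ne').smul continuous_id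
    · rw [norm_smul, Real.norm_of_nonneg (div_pos hδ (hm z)).le, div_mul_eq_mul_div,
        div_le_iff₀ (hm z)]
      exact mul_le_mul_of_nonneg_left (le_max_right _ _) hδ.le
    · simp only [max_eq_left hz, div_self hδ.ne', one_smul]
  obtain ⟨Φ, hΦ⟩ := vstraight_pert (fun p : B × ℂ => ∑ i, χ i p.2 • c (r i p.1 - r i b₀))
    (by fun_prop) fun b t t' => by
      rw [← Finset.sum_sub_distrib]
      refine (norm_sum_le_of_le _ (n := fun _ => δ / ρ * ‖t - t'‖) fun i _ => ?_).trans ?_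
      · rw [← sub_smul, norm_smul, Real.norm_eq_abs]
        refine (mul_le_mul (lχ i t t') (bc _) (norm_nonneg _) (by positivity)).trans_eq ?_
        ring
      · rw [Finset.sum_const, Finset.card_univ, Fintype.card_fin, nsmul_eq_mul, ← mul_assoc]
        exact mul_le_mul_of_nonneg_right hδ1 (norm_nonneg _)
  have fix : ∀ p : B × ℂ, p.2 ∉ Db → Φ p = p := fun p hp => by
    have h2 : 1 < ‖p.2‖ := by simpa [Db] using hp
    rw [hΦ, Finset.sum_eq_zero, add_zero]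
    intro i _
    rw [χ0 i p.2 (by linarith [hρ2 i, norm_sub_norm_le p.2 (r i b₀)]), zero_smul]
  refine ⟨{b | ∀ i, ‖r i b - r i b₀‖ ≤ δ}, eventually_all.2 fun i => ?_, Φ, fun p => by rw [hΦ],
    fun p => not_iff_not.1 ⟨fun hp => ?_, fun hp => by rwa [fix p hp]⟩, fun b hb i => ?_⟩
  · have h2 : Continuous fun b => ‖r i b - r i b₀‖ := by fun_prop
    exact (h2.tendsto b₀).eventually (eventually_le_nhds (by simpa using hδ))
  · rwa [Φ.injective (fix _ hp)] at hp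
  · rw [hΦ, Finset.sum_eq_single i (fun j _ hj => by rw [χ0 j _ (hρ1 j i hj.symm), zero_smul])
      (fun h => absurd (Finset.mem_univ i) h), χ1, one_smul, ec _ (hb i), add_sub_cancel]

end Pool.Agent.PWV
end
end

-- part Pool.Agent.P.MP_65ad7c_ag.VArc
section

open Set Filter Topology Metric

noncomputable section
namespace Pool.Agent.PWV

variable {X : Cx} {T T' : Type} [MetricSpace T] [MetricSpace T']

/-- Induction along the unit interval. -/
theorem varc_ind (P : ℝ → ℝ → Prop)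
    (loc : ∀ t ∈ Icc (0 : ℝ) 1, ∃ δ > 0, ∀ a b, 0 ≤ a → a ≤ b → b ≤ 1 →
      (∀ s ∈ Icc a b, dist s t < δ) → P a b)
    (ch : ∀ a b c, 0 ≤ a → a ≤ b → b ≤ c → c ≤ 1 → P a b → P b c → P a c) : P 0 1 := by
  have h0 : (0 : ℝ) ∈ {s ∈ Icc (0 : ℝ) 1 | P 0 s} := by
    obtain ⟨δ, hδ, h⟩ := loc 0 ⟨le_rfl, zero_le_one⟩
    refine ⟨⟨le_rfl, zero_le_one⟩, h 0 0 le_rfl le_rfl zero_le_one fun s hs => ?_⟩
    rw [le_antisymm hs.2 hs.1, dist_self]
    exact hδ
  have hb : BddAbove {s ∈ Icc (0 : ℝ) 1 | P 0 s} := ⟨1, fun s hs => hs.1.2⟩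
  set c := sSup {s ∈ Icc (0 : ℝ) 1 | P 0 s}
  have hc0 : 0 ≤ c := le_csSup hb h0
  have hc1 : c ≤ 1 := csSup_le ⟨0, h0⟩ fun s hs => hs.1.2
  obtain ⟨δ, hδ, h⟩ := loc c ⟨hc0, hc1⟩
  obtain ⟨s, hs, hcs⟩ := exists_lt_of_lt_csSup ⟨0, h0⟩ (show c - δ < c by linarith)
  have hsc : s ≤ c := le_csSup hb hs
  have hsb : s ≤ min 1 (c + δ / 2) := le_min hs.1.2 (by linarith)
  have h1 : P 0 (min 1 (c + δ / 2)) := by
    refine ch 0 s _ le_rfl hs.1.1 hsb (min_le_left _ _) hs.2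
      (h s _ hs.1.1 hsb (min_le_left _ _) fun u hu => ?_)
    have := hu.2.trans (min_le_right _ _)
    rw [Real.dist_eq, abs_lt]
    constructor <;> linarith [hu.1]
  rcases le_total 1 (c + δ / 2) with h2 | h2
  · rwa [min_eq_left h2] at h1
  · rw [min_eq_right h2] at h1
    have : c + δ / 2 ≤ c := le_csSup hb ⟨⟨by linarith, h2⟩, h1⟩
    linarith

omit [MetricSpace T] in
theorem varc_inter {γ : ℝ → T} (hi : InjOn γ (Icc 0 1)) {a b c : ℝ} (ha : 0 ≤ a) (hab : a ≤ b)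
    (hbc : b ≤ c) (hc : c ≤ 1) : γ '' Icc a b ∩ γ '' Icc b c = {γ b} := by
  rw [← hi.image_inter (Icc_subset_Icc ha (hbc.trans hc)) (Icc_subset_Icc (ha.trans hab) hc),
    Icc_inter_Icc_eq_singleton hab hbc, image_singleton]

theorem varc_sep {γ : ℝ → T} (hγ : ContinuousOn γ (Icc 0 1)) {a b c d : ℝ} (ha : 0 ≤ a)
    (hb : b ≤ 1) (hc : 0 ≤ c) (hd : d ≤ 1) : Sep (γ '' Icc a b) (γ '' Icc c d) :=
  sep_of_isClosed (isCompact_Icc.image_of_continuousOn (hγ.mono (Icc_subset_Icc ha hb))).isClosed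
    (isCompact_Icc.image_of_continuousOn (hγ.mono (Icc_subset_Icc hc hd))).isClosed

omit [MetricSpace T] in
theorem varc_union (γ : ℝ → T) {a b c : ℝ} (hab : a ≤ b) (hbc : b ≤ c) :
    γ '' Icc a b ∪ γ '' Icc b c = γ '' Icc a c := by
  rw [← image_union, Icc_union_Icc_eq_Icc hab hbc]

namespace FC
variable {Q : FC X T}

theorem varc_sub {W : Set T} {n : ℤ} (h : Q.PCn n W) {γ : ℝ → T} (hγ : ContinuousOn γ (Icc 0 1))
    (hi : InjOn γ (Icc 0 1)) {a b : ℝ} (ha : 0 ≤ a) (hab : a ≤ b) (hb : b ≤ 1)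
    (hW : MapsTo γ (Icc a b) W) : Q.Ex n (γ '' Icc a b) {γ a} := by
  rcases hab.eq_or_lt with rfl | hlt
  · rw [Icc_self, image_singleton]
    exact Q.ex_self n _
  have him : (fun s : ℝ => (b - a) * s + a) '' Icc 0 1 = Icc a b := by
    rw [image_affine_Icc' (sub_pos.2 hlt)]
    congr 1 <;> ring
  have hm : MapsTo (fun s : ℝ => (b - a) * s + a) (Icc 0 1) (Icc a b) := him ▸ mapsTo_image _ _
  have hm' := hm.mono_right (Icc_subset_Icc ha hb)
  have := h (γ ∘ fun s => (b - a) * s + a) (hγ.comp (by fun_prop) hm')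
    (hi.comp (fun s _ t _ e => mul_left_cancel₀ (sub_pos.2 hlt).ne' (add_right_cancel e)) hm')
    (hW.comp hm)
  rw [image_comp, him] at this
  simpa using this

theorem pcn_local {S : Set T} {n : ℤ} (h : ∀ y ∈ S, ∃ W ∈ 𝓝[S] y, Q.PCn n W) : Q.PCn n S := by
  intro γ hγ hi hS
  refine varc_ind (fun a b => Q.Ex n (γ '' Icc a b) {γ a}) (fun t ht => ?_)
    fun a b c ha hab hbc hc h1 h2 => ?_
  · obtain ⟨W, hW, hP⟩ := h (γ t) (hS ht)
    obtain ⟨δ, hδ, hb⟩ := Metric.mem_nhdsWithin_iff.1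
      ((hγ t ht).tendsto_nhdsWithin hS hW)
    exact ⟨δ, hδ, fun a b ha hab hb1 hd => varc_sub hP hγ hi ha hab hb1
      fun s hs => hb ⟨hd s hs, ha.trans hs.1, hs.2.trans hb1⟩⟩
  · rw [← varc_union γ hab hbc, union_comm]
    refine Ex.mid subset_union_right (singleton_subset_iff.2 ⟨a, ⟨le_rfl, hab⟩, rfl⟩) ?_ h1
    rw [Q.ex_exc (varc_sep hγ (ha.trans hab) hc ha (hbc.trans hc)), inter_comm,
      varc_inter hi ha hab hbc hc]
    exact h2

/-- Constancy along arcs is a local property. -/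
theorem pc_local {S : Set T} (h : ∀ y ∈ S, ∃ W ∈ 𝓝[S] y, Q.PC W) : Q.PC S :=
  fun γ hγ hi hS n => pcn_local (fun y hy => (h y hy).imp fun _ hW =>
    ⟨hW.1, fun γ' h1 h2 h3 => hW.2 γ' h1 h2 h3 n⟩) γ hγ hi hS

theorem pc_of_acyc {W : Set T} (h : ∀ x ∈ W, Q.Acyc W {x}) : Q.PC W := by
  intro γ hγ hi hW
  have h0 : (0 : ℝ) ∈ Icc (0 : ℝ) 1 := ⟨le_rfl, zero_le_one⟩
  refine Acyc.right hW.image_subset (singleton_subset_iff.2 ⟨0, h0, rfl⟩) (h _ (hW h0)) fun n => ?_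
  obtain ⟨m, rfl⟩ : ∃ m, n = m + 1 := ⟨n - 1, by ring⟩
  intro v hv hd
  refine varc_ind (fun a b => Q.Good (m + 1) v W (γ '' Icc a b)) (fun t ht => ?_)
    fun a b c ha hab hbc hc h1 h2 => ?_
  · obtain ⟨w, hw, hvw⟩ := h _ (hW ht) (m + 1) v
      (ZT_anti (singleton_subset_iff.2 (mem_image_of_mem γ ht)) _ hv) hd
    obtain ⟨δ, hδ, hb⟩ := Metric.mem_nhdsWithin_iff.1
      (hγ t ht ((Q.opn _ w).mem_nhds ((mem_ZT.1 hw).2 _ rfl)))
    refine ⟨δ, hδ, fun a b ha hab hb1 hd' => ⟨w, mem_ZT.2 ⟨(mem_ZT.1 hw).1, ?_⟩, hvw⟩⟩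
    rintro _ ⟨s, hs, rfl⟩
    exact hb ⟨hd' s hs, ha.trans hs.1, hs.2.trans hb1⟩
  · have hs : ∀ {a b : ℝ}, 0 ≤ a → b ≤ 1 → γ '' Icc a b ⊆ W := fun h1 h2 =>
      (hW.mono_left (Icc_subset_Icc h1 h2)).image_subset
    have := mv_good (hs ha (hbc.trans hc)) (hs (ha.trans hab) hc) (sep_of_subset Subset.rfl)
      (varc_sep hγ ha (hbc.trans hc) (ha.trans hab) hc) (by
        rw [inter_self, varc_inter hi ha hab hbc hc]
        exact h _ (hW ⟨ha.trans hab, hbc.trans hc⟩) m) h1 h2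
    rwa [union_self, varc_union γ hab hbc] at this

theorem LC.pc {S : Set T} (h : Q.LC S) : Q.PC S :=
  pc_local fun y hy => (h y hy).imp fun _ hW => ⟨hW.2.1, pc_of_acyc hW.2.2⟩

end FC

end Pool.Agent.PWV
end
end

-- part Pool.Agent.P.MP_65ad7c_ag.VTA
section

open Set Filter Topology Metric

noncomputable section
namespace Pool.Agent.PWV

variable {X : Cx} {E : Type} [MetricSpace E]

theorem vta_compact : IsCompact Db := isCompact_closedBall _ _

namespace FC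

theorem vta_ZT (Q : FC X (E × ℂ)) (A : Set E) :
    ((Q.res (univ ×ˢ Db)).map (fstC E ℂ)).ZT A = Q.ZT (A ×ˢ Db) := by
  have hC : IsClosed ((univ : Set E) ×ˢ Db) := isClosed_univ.prod vta_compact.isClosed
  rw [(supp_res Q hC).map_fst_ZT, res_ZT Q hC, prod_inter_prod, inter_univ, inter_self]

theorem vta_ex (Q : FC X (E × ℂ)) (n : ℤ) (A B : Set E) :
    ((Q.res (univ ×ˢ Db)).map (fstC E ℂ)).Ex n A B ↔ Q.Ex n (A ×ˢ Db) (B ×ˢ Db) := by
  rw [Ex, vta_ZT, vta_ZT, Ex]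

theorem vta_arc (Q : FC X (E × ℂ)) {U : Set E} (h : ∀ t : ℂ, Q.PC (U ×ˢ {t})) {γ : ℝ → E}
    (hc : ContinuousOn γ (Icc 0 1)) (hi : InjOn γ (Icc 0 1)) (hm : MapsTo γ (Icc 0 1) U) (n : ℤ) :
    Q.Ex n ((γ '' Icc 0 1) ×ˢ Db) ({γ 0} ×ˢ Db) := by
  refine lg Q ((isCompact_Icc.image_of_continuousOn hc).prod vta_compact)
    (isClosed_singleton.prod vta_compact.isClosed)
    (prod_mono (singleton_subset_iff.2 ⟨0, left_mem_Icc.2 zero_le_one, rfl⟩) Subset.rfl)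
    Prod.snd continuous_snd.continuousOn n fun t i _ => ?_
  by_cases ht : t ∈ Db
  · have e1 : (γ '' Icc 0 1) ×ˢ Db ∩ Prod.snd ⁻¹' {t} = (fun s => (γ s, t)) '' Icc 0 1 := by
      ext ⟨x, τ⟩
      constructor
      · rintro ⟨⟨⟨s, hs, rfl⟩, -⟩, rfl⟩
        exact ⟨s, hs, rfl⟩
      · rintro ⟨s, hs, e⟩
        cases e
        exact ⟨⟨⟨s, hs, rfl⟩, ht⟩, rfl⟩
    have e2 : ({γ 0} ×ˢ Db ∩ Prod.snd ⁻¹' {t} : Set (E × ℂ)) = {(γ 0, t)} := by
      ext ⟨x, τ⟩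
      constructor
      · rintro ⟨⟨rfl, -⟩, rfl⟩
        rfl
      · intro e
        cases e
        exact ⟨⟨rfl, ht⟩, rfl⟩
    rw [e1, e2]
    exact h t (fun s => (γ s, t)) (hc.prodMk continuousOn_const)
      (fun a ha b hb e => hi ha hb (congrArg Prod.fst e)) (fun s hs => ⟨hm hs, rfl⟩) i
  · have e : ∀ A : Set E, A ×ˢ Db ∩ Prod.snd ⁻¹' {t} = ∅ := fun A =>
      eq_empty_of_forall_notMem fun x hx => ht (by rw [← mem_singleton_iff.1 hx.2]; exact hx.1.2)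
    rw [e, e]
    exact ex_self Q i ∅

theorem vta_deg (Q : FC X (E × ℂ)) {k : ℕ} (r : Fin k → ℂ) (y : E) {S₀ S₁ : Set (E × ℂ)}
    (hS₀ : ∀ τ, (∀ i, τ ≠ r i) → (y, τ) ∈ S₀) (hS₁ : ∀ i, (y, r i) ∈ S₁)
    {β : ℤ} (p0 : Q.PC S₀) (d0 : Q.DegLe S₀ (β - 1)) (d1 : Q.DegLe S₁ β) {j : ℤ}
    (hj : β < j + 1) : Q.Ex j ({y} ×ˢ Db) (∅ ×ˢ Db) := by
  have hφ : IsEmbedding (Prod.mk y : ℂ → E × ℂ) := isEmbedding_prodMkRight y
  have tr := tr_comap Q hφ.isInducing
  have hs : Prod.mk y '' (Db \ range r) ⊆ S₀ := by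
    rintro _ ⟨τ, hτ, rfl⟩
    exact hS₀ τ fun i e => hτ.2 ⟨i, e.symm⟩
  have h := art1 (Q.comap _ hφ.isInducing) (finite_range r) vta_compact (convex_closedBall _ _)
    ((tr.pc hφ _).2 (p0.mono hs)) ((tr.degLe _ _).2 (d0.mono hs le_rfl))
    ((tr.degLe _ _).2 (by
      rintro _ ⟨τ, -, rfl⟩ i hi
      by_cases hτ : τ ∈ range r
      · obtain ⟨l, rfl⟩ := hτ
        exact d1 _ (hS₁ l) i hi
      · exact d0 _ (hS₀ τ fun l e => hτ ⟨l, e.symm⟩) i (by omega))) hj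
  have h' := (tr j Db ∅ (empty_subset _)).1 h
  rwa [image_empty, ← singleton_prod, ← empty_prod (t := Db)] at h'

theorem ta (Q : FC X (E × ℂ)) {k : ℕ} (r : Fin k → E → ℂ) {W : Set E}
    (hr : ∀ i, ContinuousOn (r i) W) (hinj : ∀ y ∈ W, Function.Injective fun i => r i y)
    (h1 : ∀ y ∈ W, ∀ i, ‖r i y‖ < 1) {S₀ S₁ : Set (E × ℂ)}
    (hS₀ : ∀ y ∈ W, ∀ τ, (∀ i, τ ≠ r i y) → (y, τ) ∈ S₀) (hS₁ : ∀ y ∈ W, ∀ i, (y, r i y) ∈ S₁)
    {β : ℤ} (p0 : Q.PC S₀) (p1 : Q.PC S₁) (d0 : Q.DegLe S₀ (β - 1)) (d1 : Q.DegLe S₁ β) :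
    ((Q.res (univ ×ˢ Db)).map (fstC E ℂ)).PC W ∧
      ((Q.res (univ ×ˢ Db)).map (fstC E ℂ)).DegLe W β := by
  refine ⟨pc_local fun y hy => ?_, fun y hy j hj => (vta_ex Q j _ _).2
    (vta_deg Q (fun i => r i y) y (hS₀ y hy) (hS₁ y hy) p0 d0 d1 hj)⟩
  obtain ⟨U, hU, Φ, f1, f2, f3⟩ := straight (B := W) (fun i b => r i b.1)
    (fun i => continuousOn_iff_continuous_domRestrict.1 (hr i)) ⟨y, hy⟩ (hinj y hy) (h1 y hy)
  refine ⟨Subtype.val '' U, ?_, ?_⟩
  · rw [nhdsWithin_eq_map_subtype_coe hy]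
    exact image_mem_map hU
  have hv : IsEmbedding (Subtype.val : W → E) := IsEmbedding.subtypeVal
  have tr1 := tr_comap ((Q.res (univ ×ˢ Db)).map (fstC E ℂ)) hv.isInducing
  refine (tr1.pc hv U).1 ?_
  have hψ : IsEmbedding (Prod.map (Subtype.val : W → E) (id : ℂ → ℂ) ∘ Φ) :=
    (hv.prodMap IsEmbedding.id).comp Φ.isEmbedding
  have tr2 := tr_comap Q hψ.isInducing
  have him : ∀ A : Set W, (Prod.map (Subtype.val : W → E) (id : ℂ → ℂ) ∘ Φ) '' (A ×ˢ Db) =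
      (Subtype.val '' A) ×ˢ Db := by
    intro A
    ext ⟨x, τ⟩
    constructor
    · rintro ⟨p, hp, e⟩
      rw [← e]
      exact ⟨⟨(Φ p).1, by rw [f1]; exact hp.1, rfl⟩, (f2 p).2 hp.2⟩
    · rintro ⟨⟨b, hb, rfl⟩, hτ⟩
      obtain ⟨p, hp⟩ := Φ.surjective (b, τ)
      refine ⟨p, ⟨?_, ?_⟩, ?_⟩
      · rw [← f1 p, hp]; exact hb
      · rw [← f2 p, hp]; exact hτ
      · rw [Function.comp_apply, hp]; rfl
  have hpc : ∀ t : ℂ, (Q.comap _ hψ.isInducing).PC (U ×ˢ {t}) := by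
    intro t
    refine (tr2.pc hψ _).2 ?_
    by_cases ht : ∃ i, t = r i y
    · obtain ⟨i, rfl⟩ := ht
      refine p1.mono ?_
      rintro _ ⟨⟨b, τ⟩, ⟨hb, rfl⟩, rfl⟩
      rw [Function.comp_apply, f3 b hb i]
      exact hS₁ b.1 b.2 i
    · refine p0.mono ?_
      rintro _ ⟨⟨b, τ⟩, ⟨hb, rfl⟩, rfl⟩
      refine hS₀ _ (Φ (b, τ)).1.2 _ fun i e => ht ⟨i, ?_⟩
      have e1 : Φ (b, τ) = Φ (b, r i y) := by
        rw [f3 b hb i]
        refine Prod.ext (f1 _) ?_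
        have e2 : (Φ (b, τ)).2 = r i (Φ (b, τ)).1.1 := e
        rw [e2, f1]
      exact congrArg Prod.snd (Φ.injective e1)
  intro γ hc hi hm n
  have hsub : ({γ 0} : Set W) ⊆ γ '' Icc 0 1 :=
    singleton_subset_iff.2 ⟨0, left_mem_Icc.2 zero_le_one, rfl⟩
  refine (tr1 n _ _ hsub).2 ((vta_ex Q n _ _).2 ?_)
  rw [← him, ← him]
  exact (tr2 n _ _ (prod_mono hsub Subset.rfl)).1 (vta_arc _ hpc hc hi hm n)

end FC

end Pool.Agent.PWV
end
end

-- part Pool.Agent.P.MP_65ad7c_ag.VMonic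
section

open Set Filter Topology Metric

noncomputable section
namespace Pool.Agent.PWV

open MvPolynomial

variable {n : ℕ}

theorem vmonic_prod {R σ : Type} [CommRing R] {φ : σ → Polynomial R}
    (hφ : ∀ i, (φ i).natDegree ≤ 1) (a : σ → ℕ) (s : Finset σ) :
    (∏ i ∈ s, φ i ^ a i).natDegree ≤ ∑ i ∈ s, a i ∧
      (∏ i ∈ s, φ i ^ a i).coeff (∑ i ∈ s, a i) = ∏ i ∈ s, (φ i).coeff 1 ^ a i := by
  classical
  induction s using Finset.induction_on with
  | empty => simp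
  | insert i s hi ih =>
    have h1 : (φ i ^ a i).natDegree ≤ a i := by
      simpa using Polynomial.natDegree_pow_le_of_le (a i) (hφ i)
    have h2 : (φ i ^ a i).coeff (a i) = (φ i).coeff 1 ^ a i := by
      simpa using Polynomial.coeff_pow_of_natDegree_le (m := a i) (hφ i)
    rw [Finset.prod_insert hi, Finset.sum_insert hi, Finset.prod_insert hi]
    exact ⟨Polynomial.natDegree_mul_le_of_le h1 ih.1, by
      rw [Polynomial.coeff_mul_add_eq_of_natDegree_le h1 ih.1, h2, ih.2]⟩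

/-- The substitution of the shear. -/
def vmonic_phi (v : Fin n → ℂ) : Fin (n + 1) → Polynomial (MvPolynomial (Fin n) ℂ) :=
  Fin.cons Polynomial.X fun i => Polynomial.C (C (v i)) * Polynomial.X + Polynomial.C (X i)

theorem vmonic_deg (v : Fin n → ℂ) (i : Fin (n + 1)) : (vmonic_phi v i).natDegree ≤ 1 :=
  Fin.cases Polynomial.natDegree_X_le (fun _ => Polynomial.natDegree_linear_le) i

theorem vmonic_eval (v x : Fin n → ℂ) (t : ℂ) (g : MvPolynomial (Fin (n + 1)) ℂ) :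
    ((aeval (vmonic_phi v) g).map (eval x)).eval t = eval (shear v x t) g := by
  induction g using MvPolynomial.induction_on with
  | C a => simp
  | add p q hp hq => rw [map_add, Polynomial.map_add, Polynomial.eval_add, hp, hq, map_add]
  | mul_X p i hp =>
    rw [map_mul, Polynomial.map_mul, Polynomial.eval_mul, hp, map_mul, aeval_X, eval_X]
    refine congrArg _ (Fin.cases ?_ (fun i => ?_) i)
    · simp [vmonic_phi, shear]
    · simp only [vmonic_phi, shear, Fin.cons_succ, Polynomial.map_add, Polynomial.map_mul,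
        Polynomial.map_C, Polynomial.map_X, Polynomial.eval_add, Polynomial.eval_mul,
        Polynomial.eval_C, Polynomial.eval_X, eval_C, eval_X]
      ring

/-- In a generic direction a polynomial is monic up to a constant. -/
theorem monic_dir {g : MvPolynomial (Fin (n + 1)) ℂ} (hg : g ≠ 0) :
    ∃ h : MvPolynomial (Fin n) ℂ, h ≠ 0 ∧ ∀ v : Fin n → ℂ, eval v h ≠ 0 →
      ∃ G : Polynomial (MvPolynomial (Fin n) ℂ), G.Monic ∧
        ∀ x t, eval (shear v x t) g = 0 ↔ t ∈ rt G x := by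
  classical
  obtain ⟨a₀, ha₀, hd⟩ := Finset.exists_mem_eq_sup g.support (support_nonempty.2 hg)
    fun s => s.sum fun _ e => e
  have hd' : g.totalDegree = ∑ i, a₀ i := hd.trans (Finsupp.sum_fintype _ _ fun _ => rfl)
  have hle : ∀ a ∈ g.support, ∑ i, a i ≤ g.totalDegree := fun a ha =>
    (Finsupp.sum_fintype a (fun _ e => e) fun _ => rfl).symm.trans_le (le_totalDegree ha)
  refine ⟨∑ a ∈ g.support.filter (fun a => ∑ i, a i = g.totalDegree),
    monomial (Finsupp.tail a) (coeff a g), fun h0 => ?_, fun v hv => ?_⟩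
  · have h1 := congrArg (coeff (Finsupp.tail a₀)) h0
    rw [coeff_sum, Finset.sum_eq_single a₀, coeff_monomial, if_pos rfl, coeff_zero] at h1
    · exact mem_support_iff.1 ha₀ h1
    · intro a ha hne
      rw [coeff_monomial, if_neg]
      intro e
      have e1 : ∀ i : Fin n, a i.succ = a₀ i.succ := fun i => DFunLike.congr_fun e i
      have e2 := (Finset.mem_filter.1 ha).2
      rw [hd', Fin.sum_univ_succ, Fin.sum_univ_succ, Finset.sum_congr rfl fun i _ => e1 i] at e2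
      refine hne (Finsupp.ext fun i => ?_)
      exact Fin.cases (Nat.add_right_cancel e2) e1 i
    · intro h
      exact absurd (Finset.mem_filter.2 ⟨ha₀, hd'.symm⟩) h
  · generalize hc : eval v (∑ a ∈ g.support.filter (fun a => ∑ i, a i = g.totalDegree),
      monomial (Finsupp.tail a) (coeff a g)) = c at hv
    have hφ := vmonic_deg v
    have hexp : aeval (vmonic_phi v) g = ∑ a ∈ g.support,
        Polynomial.C (C (coeff a g)) * ∏ i, vmonic_phi v i ^ a i := by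
      conv_lhs => rw [g.as_sum]
      rw [map_sum]
      refine Finset.sum_congr rfl fun a _ => ?_
      rw [aeval_monomial, Finsupp.prod_fintype _ _ fun _ => pow_zero _]
      rfl
    have hdeg : (aeval (vmonic_phi v) g).natDegree ≤ g.totalDegree := by
      rw [hexp]
      refine Polynomial.natDegree_sum_le_of_forall_le _ _ fun a ha => ?_
      exact (Polynomial.natDegree_C_mul_le _ _).trans
        ((vmonic_prod hφ a Finset.univ).1.trans (hle a ha))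
    have hco : (aeval (vmonic_phi v) g).coeff g.totalDegree = C c := by
      rw [hexp, ← hc, Polynomial.finsetSum_coeff, map_sum, map_sum, Finset.sum_filter]
      refine Finset.sum_congr rfl fun a ha => ?_
      rw [Polynomial.coeff_C_mul]
      split_ifs with h
      · rw [← h, (vmonic_prod hφ a Finset.univ).2, eval_monomial,
          Finsupp.prod_fintype _ _ fun _ => pow_zero _, Fin.prod_univ_succ, map_mul, map_prod]
        simp [vmonic_phi, Finsupp.tail_apply]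
      · rw [Polynomial.coeff_eq_zero_of_natDegree_lt
          ((vmonic_prod hφ a Finset.univ).1.trans_lt (lt_of_le_of_ne (hle a ha) h)), mul_zero]
    refine ⟨Polynomial.C (C c⁻¹) * aeval (vmonic_phi v) g,
      Polynomial.monic_of_natDegree_le_of_coeff_eq_one g.totalDegree
        ((Polynomial.natDegree_C_mul_le _ _).trans hdeg) ?_, fun x t => ?_⟩
    · rw [Polynomial.coeff_C_mul, hco, ← map_mul, inv_mul_cancel₀ hv, map_one]
    · rw [rt, mem_ofPred_eq, Polynomial.map_mul, Polynomial.map_C, Polynomial.eval_mul,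
        Polynomial.eval_C, eval_C, vmonic_eval, mul_eq_zero, or_iff_right (inv_ne_zero hv)]

theorem prj_shear (v x : Fin n → ℂ) (t : ℂ) : prj v (shear v x t) = x := by
  funext i
  simp [prj, shear]

theorem shear_prj (v : Fin n → ℂ) (x : Fin (n + 1) → ℂ) : shear v (prj v x) (x 0) = x := by
  funext i
  refine Fin.cases rfl (fun i => ?_) i
  simp [prj, shear]

theorem prj_poly (v : Fin n → ℂ) : ∃ f : Fin n → MvPolynomial (Fin (n + 1)) ℂ,
    ∀ x, prj v x = fun i => eval x (f i) := by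
  refine ⟨fun i => X i.succ - X 0 * C (v i), fun x => ?_⟩
  funext i
  simp [prj]

theorem shear_poly (v : Fin n → ℂ) : ∃ f : Fin (n + 1) → MvPolynomial (Fin (n + 1)) ℂ,
    ∀ x : Fin (n + 1) → ℂ, shear v (Fin.tail x) (x 0) = fun i => eval x (f i) := by
  refine ⟨Fin.cons (X 0) fun i => X i.succ + X 0 * C (v i), fun x => ?_⟩
  funext i
  refine Fin.cases ?_ (fun i => ?_) i <;> simp [shear, Fin.tail]

theorem isHomeomorph_sc (v : Fin n → ℂ) {R : (Fin n → ℂ) → ℝ} (hR : Continuous R)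
    (h0 : ∀ x, 0 < R x) : IsHomeomorph (sc v R) := by
  have hne : ∀ x, (R x : ℂ) ≠ 0 := fun x => Complex.ofReal_ne_zero.2 (h0 x).ne'
  have hp : Continuous (prj v) := continuous_pi fun i =>
    (continuous_apply _).sub ((continuous_apply _).mul continuous_const)
  have ht : Continuous fun p : (Fin n → ℂ) × ℂ => (R p.1 : ℂ) * p.2 :=
    (Complex.continuous_ofReal.comp (hR.comp continuous_fst)).mul continuous_snd
  refine isHomeomorph_iff_exists_inverse.2 ⟨continuous_pi fun i => ?_,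
    fun x => (prj v x, x 0 / R (prj v x)), fun p => ?_, fun x => ?_, ?_⟩
  · refine Fin.cases ht (fun i => ?_) i
    exact ((continuous_apply i).comp continuous_fst).add (ht.mul continuous_const)
  · have e : prj v (sc v R p) = p.1 := prj_shear _ _ _
    refine Prod.ext e ?_
    change (R p.1 : ℂ) * p.2 / R (prj v (sc v R p)) = p.2
    rw [e, mul_div_cancel_left₀ _ (hne _)]
  · change shear v (prj v x) (R (prj v x) * (x 0 / R (prj v x))) = x
    rw [mul_div_cancel₀ _ (hne _), shear_prj]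
  · exact hp.prodMk ((continuous_apply 0).div (Complex.continuous_ofReal.comp (hR.comp hp))
      fun x => hne _)

theorem prj_sc (v : Fin n → ℂ) (R : (Fin n → ℂ) → ℝ) (p : (Fin n → ℂ) × ℂ) :
    prj v (sc v R p) = p.1 := by
  exact prj_shear _ _ _

end Pool.Agent.PWV
end
end

-- part Pool.Agent.P.MP_65ad7c_ag.VRootC
section

open Set Filter Topology Metric

noncomputable section
namespace Pool.Agent.PWV

open MvPolynomial

variable {n : ℕ} {G : Polynomial (MvPolynomial (Fin n) ℂ)}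

theorem vrootc_cont (G : Polynomial (MvPolynomial (Fin n) ℂ)) :
    Continuous fun p : (Fin n → ℂ) × ℂ => (G.map (MvPolynomial.eval p.1)).eval p.2 := by
  have e : (fun p : (Fin n → ℂ) × ℂ => (G.map (MvPolynomial.eval p.1)).eval p.2) =
      fun p => ∑ i ∈ Finset.range (G.natDegree + 1),
        MvPolynomial.eval p.1 (G.coeff i) * p.2 ^ i := by
    funext p
    rw [Polynomial.eval_map, Polynomial.eval₂_eq_sum_range]
  rw [e]
  refine continuous_finsetSum _ fun i _ => ?_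
  exact ((MvPolynomial.continuous_eval (G.coeff i)).comp continuous_fst).mul
    (continuous_snd.pow i)

theorem rt_finite (hG : G.Monic) (x : Fin n → ℂ) : (rt G x).Finite :=
  Polynomial.finite_setOfPred_isRoot (hG.map (MvPolynomial.eval x)).ne_zero

theorem isClosed_rt (G : Polynomial (MvPolynomial (Fin n) ℂ)) :
    IsClosed {p : (Fin n → ℂ) × ℂ | p.2 ∈ rt G p.1} :=
  isClosed_eq (vrootc_cont G) continuous_const

theorem isClosed_Rt (G : Polynomial (MvPolynomial (Fin n) ℂ)) {R : (Fin n → ℂ) → ℝ}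
    (hR : Continuous R) : IsClosed (Rt G R) := by
  have hc : Continuous fun p : (Fin n → ℂ) × ℂ => (p.1, (R p.1 : ℂ) * p.2) :=
    continuous_fst.prodMk
      ((Complex.continuous_ofReal.comp (hR.comp continuous_fst)).mul continuous_snd)
  exact (isClosed_rt G).preimage hc

theorem rootb (hG : G.Monic) : ∃ R : (Fin n → ℂ) → ℝ, Continuous R ∧ (∀ x, 0 < R x) ∧
    ∀ x, ∀ t ∈ rt G x, ‖t‖ < R x := by
  refine ⟨fun x => ∑ i ∈ Finset.range G.natDegree, ‖MvPolynomial.eval x (G.coeff i)‖ + 1,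
    ?_, fun x => ?_, fun x t ht => ?_⟩
  · exact (continuous_finsetSum _ fun i _ =>
      (MvPolynomial.continuous_eval (G.coeff i)).norm).add continuous_const
  · positivity
  · have hm := hG.map (MvPolynomial.eval x)
    have h1 := Polynomial.IsRoot.norm_lt_cauchyBound hm.ne_zero ht
    have h2 : (G.map (MvPolynomial.eval x)).cauchyBound ≤
        ∑ i ∈ Finset.range G.natDegree, ‖MvPolynomial.eval x (G.coeff i)‖₊ + 1 := by
      rw [Polynomial.cauchyBound, hm.leadingCoeff, nnnorm_one, div_one, hG.natDegree_map]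
      refine add_le_add_left (Finset.sup_le fun i hi => ?_) 1
      rw [Polynomial.coeff_map]
      exact Finset.single_le_sum (f := fun i => ‖MvPolynomial.eval x (G.coeff i)‖₊)
        (fun _ _ => zero_le) hi
    have h3 := NNReal.coe_lt_coe.2 (h1.trans_le h2)
    simpa using h3

theorem vrootc_lsc (hG : G.Monic) {x : Fin n → ℂ} {ρ : ℂ} (hρ : ρ ∈ rt G x) {U : Set ℂ}
    (hU : U ∈ 𝓝 ρ) : ∀ᶠ y in 𝓝 x, ∃ t ∈ rt G y, t ∈ U := by
  obtain ⟨e, he, hb⟩ := Metric.mem_nhds_iff.1 hU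
  have hc : Continuous fun y : Fin n → ℂ => ‖(G.map (MvPolynomial.eval y)).eval ρ‖ :=
    ((vrootc_cont G).comp (continuous_id.prodMk continuous_const)).norm
  have h0 : ‖(G.map (MvPolynomial.eval x)).eval ρ‖ < e ^ G.natDegree := by
    have : (G.map (MvPolynomial.eval x)).eval ρ = 0 := hρ
    rw [this, norm_zero]
    positivity
  filter_upwards [hc.continuousAt.eventually_lt continuousAt_const h0] with y hy
  by_contra hno
  push Not at hno
  have hm := hG.map (MvPolynomial.eval y)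
  have hs := IsAlgClosed.splits (G.map (MvPolynomial.eval y))
  have hcard : (G.map (MvPolynomial.eval y)).roots.card = G.natDegree := by
    rw [← hs.natDegree_eq_card_roots, hG.natDegree_map]
  have key : ∀ s : Multiset ℂ, (∀ t ∈ s, e ≤ ‖ρ - t‖) →
      e ^ s.card ≤ ‖(s.map (ρ - ·)).prod‖ := by
    intro s
    induction s using Multiset.induction_on with
    | empty => simp
    | cons a s ih =>
      intro h
      rw [Multiset.card_cons, Multiset.map_cons, Multiset.prod_cons, norm_mul, pow_succ']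
      exact mul_le_mul (h a (Multiset.mem_cons_self a s))
        (ih fun t ht => h t (Multiset.mem_cons_of_mem ht)) (by positivity) (norm_nonneg _)
  have := key (G.map (MvPolynomial.eval y)).roots fun t ht => by
    by_contra hlt
    refine hno t (Polynomial.isRoot_of_mem_roots ht) (hb ?_)
    rw [mem_ball, dist_comm, dist_eq_norm]
    exact not_le.1 hlt
  rw [hcard, ← hs.eval_eq_prod_roots_of_monic hm] at this
  exact absurd hy (not_lt.2 this)

/-- Where their number is constant, the roots are continuous functions. -/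
theorem rootc (hG : G.Monic) {W : Set (Fin n → ℂ)} {k : ℕ} (hk : ∀ y ∈ W, (rt G y).ncard = k)
    {x : Fin n → ℂ} (hx : x ∈ W) :
    ∃ W' ⊆ W, W' ∈ 𝓝[W] x ∧ ∃ r : Fin k → (Fin n → ℂ) → ℂ, (∀ i, ContinuousOn (r i) W') ∧
      ∀ y ∈ W', (Function.Injective fun i => r i y) ∧ rt G y = range fun i => r i y := by
  obtain ⟨m, ρ, hρ, hrg⟩ := (rt_finite hG x).fin_param
  have hm : m = k := by
    rw [← hk x hx, ← hrg, Set.ncard_range_of_injective hρ, Nat.card_eq_fintype_card,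
      Fintype.card_fin]
  subst hm
  obtain ⟨U, hU, hdisj⟩ := (rt_finite hG x).t2_separation
  have hmem : ∀ i, ρ i ∈ rt G x := fun i => hrg ▸ mem_range_self i
  have huniq : ∀ i j t, t ∈ U (ρ i) → t ∈ U (ρ j) → i = j := by
    intro i j t hi hj
    by_contra hij
    exact Set.disjoint_left.1 (hdisj (hmem i) (hmem j) fun e => hij (hρ e)) hi hj
  have hex : ∀ (i : Fin m) (y : Fin n → ℂ), ∃ t : ℂ,
      (∃ t ∈ rt G y, t ∈ U (ρ i)) → t ∈ rt G y ∧ t ∈ U (ρ i) := by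
    intro i y
    by_cases h : ∃ t ∈ rt G y, t ∈ U (ρ i)
    · obtain ⟨t, ht⟩ := h
      exact ⟨t, fun _ => ht⟩
    · exact ⟨0, fun h' => absurd h' h⟩
  choose r hr using hex
  have hmain : ∀ y ∈ W ∩ {y | ∀ i, ∃ t ∈ rt G y, t ∈ U (ρ i)},
      (Function.Injective fun i => r i y) ∧ rt G y = range fun i => r i y := by
    rintro y ⟨hy, hy'⟩
    have inj : Function.Injective fun i => r i y := by
      intro i j e
      have e' : r i y = r j y := e
      exact huniq i j (r i y) (hr i y (hy' i)).2 (e' ▸ (hr j y (hy' j)).2)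
    refine ⟨inj, (Set.eq_of_subset_of_ncard_le ?_ ?_ (rt_finite hG y)).symm⟩
    · rintro _ ⟨i, rfl⟩
      exact (hr i y (hy' i)).1
    · rw [hk y hy, Set.ncard_range_of_injective inj, Nat.card_eq_fintype_card, Fintype.card_fin]
  refine ⟨W ∩ {y | ∀ i, ∃ t ∈ rt G y, t ∈ U (ρ i)}, inter_subset_left, ?_, r, ?_, hmain⟩
  · refine inter_mem_nhdsWithin W (eventually_all.2 fun i => ?_)
    exact vrootc_lsc hG (hmem i) ((hU (ρ i)).2.mem_nhds (hU (ρ i)).1)
  · intro i y hy V hV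
    have h1 := hr i y (hy.2 i)
    have h2 := vrootc_lsc hG h1.1 (inter_mem hV ((hU (ρ i)).2.mem_nhds h1.2))
    rw [mem_map]
    filter_upwards [mem_nhdsWithin_of_mem_nhds h2, self_mem_nhdsWithin] with z hz hzW
    obtain ⟨t, ht, htV, htU⟩ := hz
    rw [(hmain z hzW).2] at ht
    obtain ⟨j, rfl⟩ := ht
    have := huniq i j (r j z) htU (hr j z (hzW.2 j)).2
    subst this
    exact htV

end Pool.Agent.PWV
end
end

-- part Pool.Agent.P.MP_65ad7c_ag.VPre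
section

open Set Filter Topology Metric

noncomputable section
namespace Pool.Agent.PWV

open MvPolynomial

variable {X : Cx} {n : ℕ}

namespace FC

theorem vpre_core {g : MvPolynomial (Fin (n + 1)) ℂ} {v : Fin n → ℂ}
    {G : Polynomial (MvPolynomial (Fin n) ℂ)} (hG : G.Monic)
    (hg : ∀ x t, eval (shear v x t) g = 0 ↔ t ∈ rt G x) (R : (Fin n → ℂ) → ℝ)
    {V : Set (Fin n → ℂ)} {e : ℕ} (hV : ZC V) (hd : Dim V (e + 1)) :
    ∃ W : Set (Fin (n + 1) → ℂ), ZC W ∧ Dim W (e + 1) ∧ sc v R ⁻¹' W = Rt G R ∩ V ×ˢ univ ∧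
      ∀ V4 : Set (Fin (n + 1) → ℂ), Dim V4 e → ∃ V', ZC V' ∧ Dim V' e ∧
        sc v R '' (Rt G R ∩ (V \ V') ×ˢ univ) ⊆ W \ V4 := by
  obtain ⟨f, hf⟩ := prj_poly v
  obtain ⟨f', hf'⟩ := shear_poly v
  have e1 : sc v R ⁻¹' ({x | eval x g = 0} ∩ {x | (fun i => eval x (f i)) ∈ V}) =
      Rt G R ∩ V ×ˢ univ := by
    ext p
    simp only [mem_preimage, mem_inter_iff, mem_ofPred_eq, mem_prod, mem_univ, and_true, ← hf,
      prj_sc]
    exact and_congr_left' (hg _ _)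
  refine ⟨_, (zc_zero g).inter (hV.preimage f), ((dim_roots hG hd).image f').mono ?_, e1,
    fun V4 d4 => ⟨_, zc_zcl _, (d4.image f).zcl, ?_⟩⟩
  · rintro x ⟨h1, h2⟩
    refine ⟨Fin.cons (x 0) (prj v x), ⟨?_, ?_⟩, ?_⟩
    · rw [Fin.tail_cons, hf]
      exact h2
    · rw [Fin.tail_cons, Fin.cons_zero, ← hg, shear_prj]
      exact h1
    · show (fun i => eval (Fin.cons (x 0) (prj v x) : Fin (n + 1) → ℂ) (f' i)) = x
      rw [← hf', Fin.tail_cons, Fin.cons_zero, shear_prj]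
  · rintro _ ⟨p, ⟨h1, h2, -⟩, rfl⟩
    refine ⟨?_, fun h => h2.2 (subset_zcl _ ⟨_, h, ?_⟩)⟩
    · rw [← mem_preimage, e1]
      exact ⟨h1, h2.1, trivial⟩
    · exact (hf _).symm.trans (prj_sc v R p)

theorem preW (Q : FC X (Fin (n + 1) → ℂ)) {a : ℤ} (h : GW Q a) {g : MvPolynomial (Fin (n + 1)) ℂ}
    {v : Fin n → ℂ} {G : Polynomial (MvPolynomial (Fin n) ℂ)} (hG : G.Monic)
    (hg : ∀ x t, eval (shear v x t) g = 0 ↔ t ∈ rt G x) {R : (Fin n → ℂ) → ℝ}
    (hs : IsHomeomorph (sc v R)) (V : Set (Fin n → ℂ)) (e : ℕ) (hV : ZC V) (hd : Dim V (e + 1)) :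
    ∃ V', ZC V' ∧ Dim V' e ∧
      ((Q.comap _ hs.isInducing).gam (Rt G R ∩ V ×ˢ univ)).PC (Rt G R ∩ (V \ V') ×ˢ univ) ∧
      ((Q.comap _ hs.isInducing).gam (Rt G R ∩ V ×ˢ univ)).Deg (Rt G R ∩ (V \ V') ×ˢ univ)
        (a - e) := by
  obtain ⟨W, h1, h2, h3, h4⟩ := vpre_core hG hg R hV hd
  obtain ⟨V4, -, d4, p4, q4⟩ := h W e h1 h2
  obtain ⟨V', z, d, s⟩ := h4 V4 d4
  have t := tr_gam_comap (supp_univ Q) hs.isInducing isOpen_univ
    (by rw [hs.surjective.range_eq, inter_self]) h1.isClosed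
  rw [h3] at t
  exact ⟨V', z, d, (t.pc hs.isEmbedding _).2 (p4.mono s), (t.deg _ _).2 (q4.mono s le_rfl)⟩

theorem preA (Q : FC X (Fin (n + 1) → ℂ)) {a : ℤ} (h : GA Q a) {g : MvPolynomial (Fin (n + 1)) ℂ}
    {v : Fin n → ℂ} {G : Polynomial (MvPolynomial (Fin n) ℂ)} (hG : G.Monic)
    (hg : ∀ x t, eval (shear v x t) g = 0 ↔ t ∈ rt G x) {R : (Fin n → ℂ) → ℝ}
    (hs : IsHomeomorph (sc v R)) (V : Set (Fin n → ℂ)) (e : ℕ) (hV : ZC V) (hd : Dim V (e + 1)) :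
    ∃ V', ZC V' ∧ Dim V' e ∧ (Q.comap _ hs.isInducing).PC (Rt G R ∩ (V \ V') ×ˢ univ) ∧
      (Q.comap _ hs.isInducing).DegLe (Rt G R ∩ (V \ V') ×ˢ univ) (a - e) := by
  obtain ⟨W, h1, h2, -, h4⟩ := vpre_core hG hg R hV hd
  obtain ⟨V4, -, d4, p4, q4⟩ := h W e h1 h2
  obtain ⟨V', z, d, s⟩ := h4 V4 d4
  have t := tr_comap Q hs.isInducing
  exact ⟨V', z, d, (t.pc hs.isEmbedding _).2 (p4.mono s), (t.degLe _ _).2 (q4.mono s le_rfl)⟩

theorem topW {N : ℕ} (Q : FC X (Fin N → ℂ)) {a : ℤ} (h : GW Q a) :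
    ∃ g : MvPolynomial (Fin N) ℂ, g ≠ 0 ∧ Q.PC {x | eval x g = 0}ᶜ ∧
      Q.Deg {x | eval x g = 0}ᶜ (a - N) := by
  obtain ⟨V', -, d, p, q⟩ := h univ N zc_univ (dim_univ N)
  obtain ⟨g, hg, h0⟩ := d.exists_poly
  rw [gam_univ] at p q
  have s : {x | eval x g = 0}ᶜ ⊆ univ \ V' := fun x hx => ⟨trivial, fun h' => hx (h0 x h')⟩
  exact ⟨g, hg, p.mono s, q.mono s le_rfl⟩

theorem topA {N : ℕ} (Q : FC X (Fin N → ℂ)) {a : ℤ} (h : GA Q a) :
    ∃ g : MvPolynomial (Fin N) ℂ, g ≠ 0 ∧ Q.PC {x | eval x g = 0}ᶜ ∧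
      Q.DegLe {x | eval x g = 0}ᶜ (a - N) := by
  obtain ⟨V', -, d, p, q⟩ := h univ N zc_univ (dim_univ N)
  obtain ⟨g, hg, h0⟩ := d.exists_poly
  have s : {x | eval x g = 0}ᶜ ⊆ univ \ V' := fun x hx => ⟨trivial, fun h' => hx (h0 x h')⟩
  exact ⟨g, hg, p.mono s, q.mono s le_rfl⟩

end FC

end Pool.Agent.PWV
end
end
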