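import Pool.Agent.K.MP_65ad7c_ag.C39

open Set Filter Topology Metric

noncomputable section
namespace Pool.Agent.PWV

variable {X X' : Cx} {E T : Type} {N n : ℕ} {ι : Type}

/-- The generic part of an irreducible variety. -/
def Gen {σ : Type} (p : Ideal (MvPolynomial σ ℂ)) (δ : MvPolynomial σ ℂ) : Set (σ → ℂ) :=
  ZI p ∩ {x | MvPolynomial.eval x δ ≠ 0}

/-- A family of complexes that are constructible on open sets, with the same strata. -/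
def CF (Q : ι → FC X (Fin N → ℂ)) (O : ι → Set (Fin N → ℂ)) : Prop :=
  ∀ p : Ideal (MvPolynomial (Fin N) ℂ), p.IsPrime → ∃ δ ∉ p, ∀ i, (Q i).PC (Gen p δ ∩ O i)

/-- A constructible complex. -/
def CF1 (Q : FC X (Fin N → ℂ)) : Prop := CF (fun _ : Unit => Q) fun _ => univ

/-- Direct images along open embeddings are constructible, for supports of dimension `< e`. -/
def TL (X : Cx) (e N : ℕ) : Prop :=
  ∀ (ι : Type) (Q : ι → FC X (Fin N → ℂ)) (O : ι → Set (Fin N → ℂ)) (Y C : Set (Fin N → ℂ)),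
    (∀ i, IsOpen (O i)) → ZC Y → Dim Y e → ZC C → (∀ i, (Q i).Supp Y) →
    (CF Q fun i => O i \ C) → CF (fun i => (Q i).loc Cᶜ) O

/-- The points over which the closed disc lies in `U` and its boundary misses `H`. -/
def Nice (U H : Set (E × ℂ)) (c : ℂ) (ρ : ℝ) : Set E :=
  {a | (∀ τ ∈ closedBall c ρ, (a, τ) ∈ U) ∧ ∀ τ ∈ sphere c ρ, (a, τ) ∉ H}

/-- Discs. -/
abbrev Dsc : Type := ℂ × {ρ : ℝ // 0 < ρ}

section top
variable [TopologicalSpace E] [TopologicalSpace T]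

/-- Over `W`, `H` is a disjoint union of graphs. -/
def Roots (H : Set (E × ℂ)) (W : Set E) : Prop :=
  ∃ (k : ℕ) (r : Fin k → E → ℂ), (∀ i, ContinuousOn (r i) W) ∧
    ∀ y ∈ W, (Function.Injective fun i => r i y) ∧ ∀ τ, (y, τ) ∈ H ↔ ∃ i, τ = r i y

/-- `Φ` straightens `H` in the disc bundle over `W`. -/
structure Str (H : Set (E × ℂ)) (W : Set E) (c : ℂ) (ρ : ℝ) (Φ : E × ℂ ≃ₜ E × ℂ) (P : Set ℂ) :
    Prop where
  fst : ∀ p, (Φ p).1 = p.1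
  cball : ∀ p, (Φ p).2 ∈ closedBall c ρ ↔ p.2 ∈ closedBall c ρ
  ball : ∀ p, (Φ p).2 ∈ ball c ρ ↔ p.2 ∈ ball c ρ
  fin : P.Finite
  mem : ∀ b ∈ W, ∀ τ ∈ closedBall c ρ, Φ (b, τ) ∈ H ↔ τ ∈ P

/-- `S` is a manifold. -/
def Mf (S : Set T) : Prop :=
  ∀ x ∈ S, ∀ U ∈ 𝓝 x, ∃ (k : ℕ) (χ : (Fin k → ℂ) → T), IsEmbedding χ ∧ χ 0 = x ∧
    range χ ⊆ S ∩ U ∧ range χ ∈ 𝓝[S] x

/-- Good neighbourhoods along `S`. -/
def FC.LA (Q : FC X T) (S : Set T) : Prop :=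
  ∀ x ∈ S, ∃ W K, IsOpen W ∧ x ∈ W ∧ W ⊆ K ∧ ∀ y ∈ S ∩ W, Q.Acyc K {y}

/-- Direct image of the restriction to an open set. -/
def FC.pushO (Q : FC X (E × ℂ)) (W : Set (E × ℂ)) : FC X E := (Q.loc W).map (fstC E ℂ)

/-- Surjective maps of complexes. -/
structure Mp (Q' : FC X' T) (Q : FC X T) where
  p : ∀ n, X'.V n →ₗ[ℂ] X.V n
  d : ∀ n v, p (n + 1) (X'.d n v) = X.d n (p n v)
  top : ∀ n, ∀ v ∈ Q'.top n, p n v ∈ Q.top n
  sur : ∀ n, ∀ v ∈ Q.top n, ∃ v' ∈ Q'.top n, p n v' = v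
  z : ∀ n x, ∀ v ∈ Q'.z n x, p n v ∈ Q.z n x

/-- The map is bijective on the stalks at the points of `A` in degree `n`. -/
def Mp.Iso {Q' : FC X' T} {Q : FC X T} (f : Mp Q' Q) (n : ℤ) (A : Set T) : Prop :=
  ∀ x ∈ A, ∀ v ∈ Q'.top n, f.p n v ∈ Q.z n x → v ∈ Q'.z n x

/-- `a` is a basis of the stalks of `H^0` at the points of `S`. -/
structure FC.One (Q : FC X T) (a : X.V 0) (S : Set T) : Prop where
  top : a ∈ Q.top 0
  cl : X.d 0 a = 0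
  ne : ∀ x ∈ S, a ∉ Q.z 0 x
  gen : ∀ x ∈ S, ∀ v ∈ Q.top 0, X.d 0 v ∈ Q.z (0 + 1) x → ∃ c : ℂ, v - c • a ∈ Q.z 0 x

end top

/-- Direct image of the restriction to `E × K`. -/
def FC.push [MetricSpace E] (Q : FC X (E × ℂ)) (K : Set ℂ) : FC X E :=
  (Q.res (univ ×ˢ K)).map (fstC E ℂ)

/-- A direction in which `g` is monic. -/
structure Prj (n : ℕ) where
  g : MvPolynomial (Fin (n + 1)) ℂ
  v : Fin n → ℂ
  G : Polynomial (MvPolynomial (Fin n) ℂ)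
  monic : G.Monic
  hg : ∀ x t, MvPolynomial.eval (shear v x t) g = 0 ↔ t ∈ rt G x

namespace Prj
variable (π : Prj n)

/-- The coordinates. -/
def φ : (Fin n → ℂ) × ℂ → Fin (n + 1) → ℂ := sc π.v fun _ => 1

theorem hφ : IsHomeomorph π.φ := isHomeomorph_sc π.v continuous_const fun _ => one_pos

/-- The hypersurface in the coordinates. -/
def H : Set ((Fin n → ℂ) × ℂ) := Rt π.G fun _ => 1

/-- The hypersurface. -/
def Z : Set (Fin (n + 1) → ℂ) := {x | MvPolynomial.eval x π.g = 0}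

/-- A complex in the coordinates. -/
def up (Q : FC X (Fin (n + 1) → ℂ)) : FC X ((Fin n → ℂ) × ℂ) := Q.comap π.φ π.hφ.isInducing

/-- The family of direct images along closed discs. -/
def dn (Q : ι → FC X (Fin (n + 1) → ℂ)) (j : ι × Dsc) : FC X (Fin n → ℂ) :=
  (π.up (Q j.1)).push (closedBall j.2.1 j.2.2)

/-- The open sets over which the direct images are considered. -/
def dnO (O : ι → Set (Fin (n + 1) → ℂ)) (j : ι × Dsc) : Set (Fin n → ℂ) :=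
  Nice (π.φ ⁻¹' O j.1) π.H j.2.1 j.2.2

theorem mem_H (p : (Fin n → ℂ) × ℂ) : p ∈ π.H ↔ π.φ p ∈ π.Z := (π.hg _ _).symm

theorem prj_φ (p : (Fin n → ℂ) × ℂ) : prj π.v (π.φ p) = p.1 := prj_sc _ _ p

theorem closed_H : IsClosed π.H := isClosed_Rt _ continuous_const

theorem tr_up (Q : FC X (Fin (n + 1) → ℂ)) : FC.Tr (π.up Q) Q π.φ := FC.tr_comap Q _

end Prj

/-- The axioms of the intersection complex along the first `c` strata. -/
structure FIC (d : ℕ) (F : ℕ → Set (Fin N → ℂ)) (Q : FC X (Fin N → ℂ)) (a : X.V 0) (c : ℕ) :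
    Prop where
  supp : Q.Supp (F 0)
  cf : CF1 Q
  zc : ∀ j, ZC (F j)
  anti : Antitone F
  dim : ∀ j ≤ c, Dim (F j) (d + 1 - j)
  chart : ∀ j < c, ∀ x ∈ F j \ F (j + 1),
    ∃ s : Fin (d - j) → Fin N, Chart (F j) (fun i => MvPolynomial.X (s i)) x
  one : Q.One a (F 0 \ F 1)
  pc : ∀ j < c, Q.PC (F j \ F (j + 1)) ∧ (Q.gam (F j)).PC (F j \ F (j + 1))
  deg : ∀ j < c, ∀ x ∈ F j \ F (j + 1), ∀ n : ℤ, 0 ≤ n → (j : ℤ) ≤ n + 1 → Q.Ex n {x} ∅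
  codeg : ∀ j < c, 0 < j → ∀ x ∈ F j \ F (j + 1), ∀ n : ℤ, n + 1 ≤ j →
    (Q.gam (F j)).Ex n {x} ∅

end Pool.Agent.PWV
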