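import Pool.Agent.K.MP_65ad7c_ag.C39
import Pool.Agent.K.MP_65ad7c_ag.C40
import Pool.Agent.P.MP_65ad7c_ag.VRat
import Pool.Agent.P.MP_65ad7c_ag.VDefs
import Pool.Agent.P.MP_65ad7c_ag.VElim
import Pool.Agent.P.MP_65ad7c_ag.VIft
import Pool.Agent.P.MP_65ad7c_ag.VOpen
import Pool.Agent.P.MP_65ad7c_ag.VInt
import Pool.Agent.P.MP_65ad7c_ag.VBas2
import Pool.Agent.P.MP_65ad7c_ag.DDefs
import Pool.Agent.P.MP_65ad7c_ag.VDim
import Pool.Agent.P.MP_65ad7c_ag.VPrime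
import Pool.Agent.P.MP_65ad7c_ag.DQ

-- part Pool.Agent.P.MP_65ad7c_ag.YD1
section

open Set Filter Topology TopologicalSpace CategoryTheory Opposite
open Pool.Agent.PWD (Sec rs dd Coc Cob)

noncomputable section
namespace Pool.Agent.PWV

variable {X : Cx} {Y T : Type} [TopologicalSpace Y] [MetricSpace T] {Q : FC X T} {e : Y → T}
  (he : IsClosedEmbedding e) {I : PWD.Cx Y}
  {m : ∀ (n : ℕ) (W : Opens Y), (Q.comap e he.isInducing).top n →ₗ[ℂ] Sec I n W}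
  (h : Pres (Q.comap e he.isInducing) I m) (hs : Q.Supp (range e)) {C S : Set Y}
  {D : Set T} (hD : IsClosed D) (hC : ∀ y, y ∈ C ↔ e y ∈ D) {j : ℤ} {n : ℕ} (hj : j + 1 = n)
include h hs hD hC hj

omit hs hD hC hj in
theorem supp_YD1 {W : Opens Y} (v : (Q.comap e he.isInducing).top n) :
    PWD.Supp C (m n W v) ↔ ∀ y ∈ W, y ∉ C → v.1 ∈ Q.z n (e y) := by
  refine forall₃_congr fun y hy _ => ⟨?_, fun hv => ?_⟩
  · rintro ⟨W', h1, h2, h3⟩
    rw [h.res] at h3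
    exact (h.ker n W' v).1 h3 y h2
  · refine ⟨W ⊓ ⟨_, (Q.comap e he.isInducing).opn n v.1⟩, inf_le_left, ⟨hy, hv⟩, ?_⟩
    rw [h.res]
    exact (h.ker n _ v).2 fun y' hy' => hy'.2

omit hs hj in
theorem gam_YD1 {W : Opens Y} {v : X.V n} (hv : v ∈ (Q.gam D).top n) :
    PWD.Supp C (m n W ⟨v, hv.1⟩) :=
  (supp_YD1 he h _).2 fun y _ hy => (FC.mem_ZT.1 hv).2 (e y) (by
    rw [hD.closure_eq]
    exact fun h1 => hy ((hC y).2 h1))

omit hj in
theorem lift_YD1 {W : Opens Y} {s : Sec I n W} (hc : PWD.Supp C s) :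
    ∃ (v : X.V n) (hv : v ∈ (Q.gam D).top n), m n W ⟨v, hv.1⟩ = s := by
  obtain ⟨v, rfl⟩ := h.sur n W s
  rw [supp_YD1 he h] at hc
  obtain ⟨W1, hW1, hW⟩ := he.isInducing.isOpen_iff.1 W.isOpen
  have key : ∀ x ∈ W1, x ∉ D → v.1 ∈ Q.z n x := fun x h1 h2 => by
    by_cases hx : x ∈ range e
    · obtain ⟨y, rfl⟩ := hx
      exact hc y (by rw [← SetLike.mem_coe, ← hW]; exact h1) fun h3 => h2 ((hC y).1 h3)
    · exact hs n v.1 v.2 x hx
  obtain ⟨w, hw, hw'⟩ := Q.glue n Bool (fun i => cond i W1 Dᶜ) (fun i => cond i v.1 0)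
    (fun i => by cases i; exacts [hD.isOpen_compl, hW1])
    (fun i => by cases i; exacts [zero_mem _, v.2])
    (fun i j x hx => by
      cases i <;> cases j
      · simp
      · simpa using key x hx.2 hx.1
      · simpa using key x hx.1 hx.2
      · simp)
  refine ⟨w, FC.mem_ZT.2 ⟨hw, fun x hx => ?_⟩, ?_⟩
  · rw [hD.closure_eq] at hx
    simpa using hw' false x hx
  · rw [← sub_eq_zero, ← map_sub]
    refine (h.ker n W _).2 fun y hy => hw' true (e y) ?_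
    rw [← SetLike.mem_coe, ← hW] at hy
    exact hy

omit hs hD hC hj in
theorem zero_YD1 {W : Opens Y} {y : Y} (hy : y ∈ W) (v : (Q.comap e he.isInducing).top n)
    (hv : v.1 ∈ Q.z n (e y)) : Cob C y (m n W v) := by
  refine ⟨W ⊓ ⟨_, (Q.comap e he.isInducing).opn n v.1⟩, inf_le_left, 0, 0, ⟨hy, hv⟩,
    fun y' hy' _ => ⟨_, le_rfl, hy', map_zero _⟩, ?_⟩
  rw [map_zero, h.res, eq_comm]
  exact (h.ker n _ v).2 fun y' hy' => hy'.2

omit hs hD hC hj in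
theorem ne_YD1 {W W' : Opens Y} {y : Y} (hy : y ∈ W') (h1 : W' ≤ W) {k : ℕ} (hk : k + 1 ≠ n)
    (t : Sec I k W') (v : (Q.comap e he.isInducing).top n) (h3 : dd k n t = rs h1 (m n W v)) :
    v.1 ∈ Q.z n (e y) := by
  rw [PWD.vf_dd_ne hk, h.res] at h3
  exact (h.ker n W' v).1 h3.symm y hy

/-- `Good` with a free index. -/
def Gd_YD1 (R : FC X T) (j N : ℤ) (hN : j + 1 = N) (v : X.V N) (x : T) : Prop :=
  R.Good j (hN ▸ v) {x} ∅

omit he h hs hD hC hj in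
theorem gd0_YD1 (R : FC X T) {N : ℤ} (hN : j + 1 = N) {v : X.V N} {x : T} (hv : v ∈ R.top N)
    (h1 : v ∈ R.z N x) : Gd_YD1 R j N hN v x := by
  subst hN
  refine ⟨0, zero_mem _, ?_⟩
  rw [map_zero, sub_zero]
  exact FC.mem_ZT.2 ⟨hv, fun x hx => by rw [mem_singleton_iff.1 hx]; exact h1⟩

omit he h hs hD hC hj in
theorem gd1_YD1 (R : FC X T) {N : ℤ} (hN : j + 1 = N) (h0 : j < 0) {v : X.V N} {x : T}
    (h1 : Gd_YD1 R j N hN v x) : v ∈ R.z N x := by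
  subst hN
  obtain ⟨w, hw, h1⟩ := h1
  have h3 := add_mem ((FC.mem_ZT.1 h1).2 x rfl) (R.d_z x _ w (R.neg j h0 x hw.1))
  rwa [sub_add_cancel] at h3

omit he h hs hD hC hj in
theorem gd2_YD1 (R : FC X T) {N : ℤ} (hN : j + 1 = N) {x : T} (hx : R.Ex j {x} ∅) {v : X.V N}
    (hv : v ∈ R.top N) (h1 : X.d N v ∈ R.z (N + 1) x) : Gd_YD1 R j N hN v x := by
  subst hN
  exact hx v (FC.mem_ZT.2 ⟨hv, fun x hx => hx.elim⟩) (FC.mem_ZT.2
    ⟨R.d_top _ v hv, fun x hx => by rw [mem_singleton_iff.1 hx]; exact h1⟩)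

omit he h hs hD hC hj in
theorem gd3_YD1 (R : FC X T) {N : ℤ} (hN : j + 1 = N) {S' : Set T} (hl : R.LCn S' j) :
    ∀ x ∈ S', ∃ (W : Set T) (B : Submodule ℂ (X.V N)), IsOpen W ∧ x ∈ W ∧
      (∀ b ∈ B, b ∈ R.top N ∧ X.d N b ∈ R.Z W (N + 1)) ∧
      ∀ y ∈ S' ∩ W, (∀ b ∈ B, Gd_YD1 R j N hN b y → b ∈ R.Z W N) ∧
        ∀ v ∈ R.top N, X.d N v ∈ R.z (N + 1) y → ∃ b ∈ B, Gd_YD1 R j N hN (v - b) y := by
  subst hN
  exact hl

theorem good_YD1 {W : Opens Y} {y : Y} (hy : y ∈ W) (v : X.V n) (hv : v ∈ (Q.gam D).top n) :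
    Gd_YD1 (Q.gam D) j n hj v (e y) ↔ Cob C y (m n W ⟨v, hv.1⟩) := by
  constructor
  · intro h0
    cases n with
    | zero => exact zero_YD1 he h hy _ (gd1_YD1 (Q.gam D) hj (by omega) h0 :)
    | succ k =>
      obtain rfl : j = k := by omega
      obtain ⟨w, hw, h1⟩ := h0
      refine ⟨W ⊓ ⟨_, (Q.comap e he.isInducing).opn ((k : ℤ) + 1)
        ((show X.V ((k : ℤ) + 1) from v) - X.d k w)⟩, inf_le_left, k,
        m k _ ⟨w, hw.1.1⟩, ⟨hy, (FC.mem_ZT.1 h1).2 (e y) rfl⟩, gam_YD1 he h hD hC hw.1, ?_⟩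
      rw [h.d, h.res, eq_comm, ← sub_eq_zero, ← map_sub]
      exact (h.ker (k + 1) _ _).2 fun y' hy' => hy'.2
  · rintro ⟨W', h1, k, t, h2, h5, h3⟩
    by_cases hk : k + 1 = n
    · subst hk
      obtain rfl : j = k := by omega
      obtain ⟨w, hw, rfl⟩ := lift_YD1 he h hs hD hC h5
      rw [h.d, h.res, eq_comm, ← sub_eq_zero, ← map_sub] at h3
      refine ⟨w, FC.mem_ZT.2 ⟨hw, fun x hx => hx.elim⟩, FC.mem_ZT.2
        ⟨sub_mem hv ((Q.gam D).d_top _ w hw), fun x hx => ?_⟩⟩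
      rw [mem_singleton_iff.1 hx]
      exact (h.ker (k + 1) W' _).1 h3 y h2
    · exact gd0_YD1 _ hj hv (ne_YD1 he h h2 h1 hk t _ h3)

omit hj in
theorem coc_YD1 {W : Opens Y} {s : Sec I n W} (hc : Coc C s) :
    ∃ (v : X.V n) (hv : v ∈ (Q.gam D).top n), m n W ⟨v, hv.1⟩ = s ∧
      ∀ y ∈ W, X.d n v ∈ Q.z (n + 1) (e y) := by
  obtain ⟨v, hv, rfl⟩ := lift_YD1 he h hs hD hC hc.1
  have h1 := hc.2
  rw [h.d] at h1
  exact ⟨v, hv, rfl, (h.ker (n + 1) W _).1 h1⟩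

theorem Pres.cob {y : Y} (hx : (Q.gam D).Ex j {e y} ∅) {W : Opens Y} {s : Sec I n W}
    (hc : Coc C s) (hy : y ∈ W) : Cob C y s := by
  obtain ⟨v, hv, rfl, h1⟩ := coc_YD1 he h hs hD hC hc
  exact (good_YD1 he h hs hD hC hj hy v hv).1 (gd2_YD1 _ hj hx hv (h1 y hy))

theorem Pres.lc {S' : Set T} (hS : ∀ y ∈ S, e y ∈ S') (hl : (Q.gam D).LCn S' j) :
    PWD.LC I C S n := by
  intro x hx
  obtain ⟨W, B, h1, h2, h3, h4⟩ := gd3_YD1 _ hj hl (e x) (hS x hx)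
  refine ⟨⟨e ⁻¹' W, h1.preimage he.continuous⟩,
    (B.comap ((Q.comap e he.isInducing).top n).subtype).map (m n _), h2, ?_,
    fun y hy hyW => ⟨?_, ?_⟩⟩
  · rintro _ ⟨b, hb, rfl⟩
    refine ⟨gam_YD1 he h hD hC (h3 b hb).1, ?_⟩
    rw [h.d]
    exact (h.ker (n + 1) _ _).2 fun y hy => FC.mem_Z.1 (h3 b hb).2 (e y) hy
  · rintro _ ⟨b, hb, rfl⟩ hc
    have := (h4 (e y) ⟨hS y hy, hyW⟩).1 b hb
      ((good_YD1 he h hs hD hC hj hyW b (h3 b hb).1).2 hc)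
    exact (h.ker n _ _).2 fun y' hy' => FC.mem_Z.1 this (e y') hy'
  · intro W' h5 s h6 hc
    obtain ⟨v, hv, rfl, h7⟩ := coc_YD1 he h hs hD hC hc
    obtain ⟨b, hb, h8⟩ := (h4 (e y) ⟨hS y hy, hyW⟩).2 v hv (h7 y h6)
    refine ⟨_, ⟨⟨b, (h3 b hb).1.1⟩, hb, rfl⟩, ?_⟩
    rw [h.res, ← map_sub]
    exact (good_YD1 he h hs hD hC hj h6 _ (sub_mem hv (h3 b hb).1)).1 h8

omit hs hD hC hj in
theorem Pres.one {a : X.V 0} {S' : Set T} (ha : Q.One a S') {U : Opens Y}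
    (hU : ∀ y ∈ U, e y ∈ S') :
    ∃ one : Sec I 0 U, dd 0 1 one = 0 ∧ (∀ y ∈ U, ¬Cob univ y one) ∧
      ∀ (W : Opens Y) (h : W ≤ U) (s : Sec I 0 W), Coc univ s → ∀ y ∈ W,
        ∃ c : ℂ, Cob univ y (s - c • rs h one) := by
  refine ⟨m 0 U ⟨a, ha.top⟩, ?_, fun y hy => ?_, fun W h1 s hc y hy => ?_⟩
  · rw [h.d]
    refine (h.ker (0 + 1) U _).2 fun y _ => ?_
    have : X.d 0 a ∈ Q.z (0 + 1) (e y) := by
      rw [ha.cl]
      exact zero_mem _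
    exact this
  · rintro ⟨W', h1, k, t, h2, -, h3⟩
    exact ha.ne (e y) (hU y hy) (ne_YD1 he h h2 h1 (Nat.succ_ne_zero k) t _ h3)
  · obtain ⟨v, rfl⟩ := h.sur 0 W s
    have h2 := hc.2
    rw [h.d] at h2
    obtain ⟨c, h3⟩ := ha.gen (e y) (hU y (h1 hy)) v.1 v.2 ((h.ker (0 + 1) W _).1 h2 y hy)
    refine ⟨c, ?_⟩
    rw [h.res, ← map_smul, ← map_sub]
    exact zero_YD1 he h hy _ h3

end Pool.Agent.PWV
end
end

-- part Pool.Agent.P.MP_65ad7c_ag.YA1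
section

open Set Filter Topology Metric

noncomputable section
namespace Pool.Agent.PWV

variable {E : Type} [MetricSpace E] {U H : Set (E × ℂ)} {c : ℂ} {ρ : ℝ}

theorem Str.mono {W W' : Set E} {Φ : E × ℂ ≃ₜ E × ℂ} {P : Set ℂ} (h : Str H W c ρ Φ P)
    (hW : W' ⊆ W) : Str H W' c ρ Φ P :=
  ⟨h.fst, h.cball, h.ball, h.fin, fun b hb => h.mem b (hW hb)⟩

theorem image_YA1 {Φ : E × ℂ ≃ₜ E × ℂ} (h1 : ∀ p, (Φ p).1 = p.1) {S : Set ℂ}
    (h2 : ∀ p, (Φ p).2 ∈ S ↔ p.2 ∈ S) (A : Set E) : Φ '' (A ×ˢ S) = A ×ˢ S := by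
  ext q
  obtain ⟨p, rfl⟩ := Φ.surjective q
  rw [Φ.injective.mem_set_image, mem_prod, mem_prod, h1, h2]

theorem Str.image {W : Set E} {Φ : E × ℂ ≃ₜ E × ℂ} {P : Set ℂ} (h : Str H W c ρ Φ P) (A : Set E) :
    Φ '' (A ×ˢ closedBall c ρ) = A ×ˢ closedBall c ρ ∧ Φ '' (A ×ˢ Metric.ball c ρ) = A ×ˢ Metric.ball c ρ :=
  ⟨image_YA1 h.fst h.cball A, image_YA1 h.fst h.ball A⟩

theorem rho_YA1 {ι : Type} [Fintype ι] (a : ι → ℂ) (hinj : Function.Injective a) {c : ℂ} {σ : ℝ}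
    (h1 : ∀ i, ‖a i - c‖ < σ) :
    ∃ ρ : ℝ, 0 < ρ ∧ (∀ i j, j ≠ i → ρ ≤ ‖a j - a i‖) ∧ ∀ i, ρ ≤ σ - ‖a i - c‖ := by
  have e1 : ∀ᶠ ρ : ℝ in 𝓝 0, ∀ i j, j ≠ i → ρ ≤ ‖a j - a i‖ := by
    simp only [eventually_all]
    exact fun i j hij => eventually_le_nhds (norm_pos_iff.2 (sub_ne_zero.2 (hinj.ne hij)))
  have e2 : ∀ᶠ ρ : ℝ in 𝓝 0, ∀ i, ρ ≤ σ - ‖a i - c‖ :=
    eventually_all.2 fun i => eventually_le_nhds (sub_pos.2 (h1 i))
  have e3 : ∀ᶠ ρ : ℝ in 𝓝[>] 0, 0 < ρ := self_mem_nhdsWithin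
  exact (e3.and ((e1.and e2).filter_mono nhdsWithin_le_nhds)).exists

theorem straight_YA1 {B ι : Type} [TopologicalSpace B] [Fintype ι] (r : ι → B → ℂ)
    (hr : ∀ i, Continuous (r i)) (b₀ : B) (hinj : Function.Injective fun i => r i b₀)
    {c₀ : ℂ} {σ : ℝ} (h1 : ∀ i, ‖r i b₀ - c₀‖ < σ) :
    ∃ W ∈ 𝓝 b₀, ∃ Φ : B × ℂ ≃ₜ B × ℂ, (∀ p, (Φ p).1 = p.1) ∧
      (∀ p, p.2 ∉ ball c₀ σ → Φ p = p) ∧ ∀ b ∈ W, ∀ i, Φ (b, r i b₀) = (b, r i b) := by
  classical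
  obtain ⟨ρ, hρ, hρ1, hρ2⟩ := rho_YA1 _ hinj h1
  obtain ⟨δ, hδ, hδ1⟩ : ∃ δ : ℝ, 0 < δ ∧ Fintype.card ι * (δ / ρ) ≤ 1 / 2 := by
    refine ⟨ρ / (2 * (Fintype.card ι + 1)), by positivity, ?_⟩
    rw [div_div_cancel_left' hρ.ne', ← div_eq_mul_inv, div_le_div_iff₀ (by positivity) two_pos]
    linarith
  obtain ⟨χ, cχ, lχ, χ1, χ0⟩ : ∃ χ : ι → ℂ → ℝ, (∀ i, Continuous (χ i)) ∧
      (∀ i t t', |χ i t - χ i t'| ≤ ‖t - t'‖ / ρ) ∧ (∀ i, χ i (r i b₀) = 1) ∧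
      ∀ i t, ρ ≤ ‖t - r i b₀‖ → χ i t = 0 := by
    refine ⟨fun i t => max (1 - ‖t - r i b₀‖ / ρ) 0, fun i => by fun_prop, fun i t t' => ?_,
      fun i => by simp, fun i t ht => max_eq_right (sub_nonpos.2 ((one_le_div hρ).2 ht))⟩
    refine (abs_max_sub_max_le_abs _ _ _).trans ?_
    rw [sub_sub_sub_cancel_left, ← sub_div, abs_div, abs_of_pos hρ]
    refine div_le_div_of_nonneg_right ((abs_norm_sub_norm_le _ _).trans_eq ?_) hρ.le
    rw [sub_sub_sub_cancel_right, norm_sub_rev]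
  obtain ⟨c, cc, bc, ec⟩ : ∃ c : ℂ → ℂ, Continuous c ∧ (∀ z, ‖c z‖ ≤ δ) ∧
      ∀ z, ‖z‖ ≤ δ → c z = z := by
    have hm : ∀ z : ℂ, 0 < max δ ‖z‖ := fun z => lt_max_of_lt_left hδ
    refine ⟨fun z => (δ / max δ ‖z‖) • z, ?_, fun z => ?_, fun z hz => ?_⟩
    · exact (continuous_const.div (by fun_prop) fun z => (hm z).ne').smul continuous_id
    · rw [norm_smul, Real.norm_of_nonneg (div_pos hδ (hm z)).le, div_mul_eq_mul_div,
        div_le_iff₀ (hm z)]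
      exact mul_le_mul_of_nonneg_left (le_max_right _ _) hδ.le
    · simp only [max_eq_left hz, div_self hδ.ne', one_smul]
  obtain ⟨Φ, hΦ⟩ := vstraight_pert (fun p : B × ℂ => ∑ i, χ i p.2 • c (r i p.1 - r i b₀))
    (by fun_prop) fun b t t' => by
      rw [← Finset.sum_sub_distrib]
      refine (norm_sum_le_of_le _ (n := fun _ => δ / ρ * ‖t - t'‖) fun i _ => ?_).trans ?_
      · rw [← sub_smul, norm_smul, Real.norm_eq_abs]
        refine (mul_le_mul (lχ i t t') (bc _) (norm_nonneg _) (by positivity)).trans_eq ?_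
        ring
      · rw [Finset.sum_const, Finset.card_univ, nsmul_eq_mul, ← mul_assoc]
        exact mul_le_mul_of_nonneg_right hδ1 (norm_nonneg _)
  refine ⟨{b | ∀ i, ‖r i b - r i b₀‖ ≤ δ}, eventually_all.2 fun i => ?_, Φ, fun p => by rw [hΦ],
    fun p hp => ?_, fun b hb i => ?_⟩
  · have h2 : Continuous fun b => ‖r i b - r i b₀‖ := by fun_prop
    exact (h2.tendsto b₀).eventually (eventually_le_nhds (by simpa using hδ))
  · have h2 : σ ≤ ‖p.2 - c₀‖ := by simpa [dist_eq_norm] using hp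
    rw [hΦ, Finset.sum_eq_zero, add_zero]
    intro i _
    have h3 := norm_sub_norm_le (p.2 - c₀) (r i b₀ - c₀)
    rw [sub_sub_sub_cancel_right] at h3
    rw [χ0 i p.2 (by linarith [hρ2 i]), zero_smul]
  · rw [hΦ, Finset.sum_eq_single i (fun j _ hj => by rw [χ0 j _ (hρ1 j i hj.symm), zero_smul])
      (fun h => absurd (Finset.mem_univ i) h), χ1, one_smul, ec _ (hb i), add_sub_cancel]

/-- Local straightening of the roots in a disc. -/
theorem exists_str {F W : Set E} (hF : IsClosed F) {x : E} (hx : x ∈ F) (hW : W ∈ 𝓝[F] x)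
    (hr : Roots H W) (hρ : 0 < ρ) (hs : ∀ τ ∈ sphere c ρ, (x, τ) ∉ H) :
    ∃ W' ∈ 𝓝[F] x, ∃ Φ P, Str H W' c ρ Φ P := by
  classical
  obtain ⟨k, r, hrc, hrW⟩ := hr
  obtain ⟨η, hη, hηW⟩ : ∃ η > 0, closedBall x η ∩ F ⊆ W :=
    (nhdsWithin_hasBasis nhds_basis_closedBall F).mem_iff.1 hW
  have hS : IsClosed (closedBall x η ∩ F) := isClosed_closedBall.inter hF
  have hxS : x ∈ closedBall x η ∩ F := ⟨mem_closedBall_self hη.le, hx⟩
  have hext : ∀ i, ∃ R : E → ℂ, Continuous R ∧ ∀ y ∈ closedBall x η ∩ F, R y = r i y := fun i => by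
    obtain ⟨g, hg⟩ := ContinuousMap.exists_restrict_eq hS
      ⟨_, continuousOn_iff_continuous_domRestrict.1 ((hrc i).mono hηW)⟩
    exact ⟨g, g.continuous, fun y hy => DFunLike.congr_fun hg ⟨y, hy⟩⟩
  choose R cR eR using hext
  have hinj : Function.Injective fun i : {i // R i x ∈ ball c ρ} => R i x := fun i j hij => by
    refine Subtype.ext ((hrW x (hηW hxS)).1 ?_)
    simpa only [eR _ x hxS] using hij
  obtain ⟨W0, hW0, Φ, h1, h2, h3⟩ := straight_YA1 (fun i : {i // R i x ∈ ball c ρ} => R i)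
    (fun i => cR i) x hinj (c₀ := c) (σ := ρ) fun i => by simpa [dist_eq_norm] using i.2
  have hpres : ∀ S : Set ℂ, ball c ρ ⊆ S → ∀ p, (Φ p).2 ∈ S ↔ p.2 ∈ S := fun S hS p => by
    refine not_iff_not.1 ⟨fun hp => ?_, fun hp => by rwa [h2 p fun h => hp (hS h)]⟩
    rwa [Φ.injective (h2 _ fun h => hp (hS h))] at hp
  have hout : ∀ᶠ b in 𝓝 x, ∀ i, R i x ∉ ball c ρ → R i b ∉ closedBall c ρ := by
    simp only [eventually_all]
    intro i hi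
    refine (cR i).continuousAt.eventually (isClosed_closedBall.isOpen_compl.mem_nhds fun h => ?_)
    refine hs (R i x) ?_ (((hrW x (hηW hxS)).2 _).2 ⟨i, eR i x hxS⟩)
    rw [← closedBall_sdiff_ball]
    exact ⟨h, hi⟩
  refine ⟨(W0 ∩ {b | ∀ i, R i x ∉ ball c ρ → R i b ∉ closedBall c ρ}) ∩ (closedBall x η ∩ F),
    inter_mem (mem_nhdsWithin_of_mem_nhds (inter_mem hW0 hout))
      (inter_mem (mem_nhdsWithin_of_mem_nhds (closedBall_mem_nhds x hη)) self_mem_nhdsWithin),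
    Φ, range fun i : {i // R i x ∈ ball c ρ} => R i x, h1, hpres _ ball_subset_closedBall,
    hpres _ Subset.rfl, finite_range _, fun b hb τ hτ => ⟨fun h => ?_, ?_⟩⟩
  · have e : Φ (b, τ) = (b, (Φ (b, τ)).2) := Prod.ext (h1 _) rfl
    rw [e] at h
    obtain ⟨i, hi⟩ := ((hrW b (hηW hb.2)).2 _).1 h
    rw [← eR i b hb.2] at hi
    have hin : R i x ∈ ball c ρ := by
      by_contra hn
      exact hb.1.2 i hn (hi ▸ (hpres _ ball_subset_closedBall (b, τ)).2 hτ)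
    refine ⟨⟨i, hin⟩, ?_⟩
    have h4 := h3 b hb.1.1 ⟨i, hin⟩
    rw [hi] at e
    exact congrArg Prod.snd (Φ.injective (h4.trans e.symm))
  · rintro ⟨i, rfl⟩
    rw [h3 b hb.1.1 i]
    exact ((hrW b (hηW hb.2)).2 _).2 ⟨i, eR i b hb.2⟩

theorem tube_YA1 {K : Set ℂ} (hK : IsCompact K) {V : Set (E × ℂ)} (hV : IsOpen V) :
    IsOpen {a | ∀ τ ∈ K, (a, τ) ∈ V} :=
  isOpen_iff_mem_nhds.2 fun _ ha =>
    hK.eventually_forall_of_forall_eventually (P := fun a τ => (a, τ) ∈ V)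
      fun τ hτ => hV.mem_nhds (ha τ hτ)

theorem nice_open (hU : IsOpen U) (hH : IsClosed H) (c : ℂ) (ρ : ℝ) : IsOpen (Nice U H c ρ) :=
  (tube_YA1 (isCompact_closedBall c ρ) hU).inter (tube_YA1 (isCompact_sphere c ρ) hH.isOpen_compl)

theorem scale_YA1 {A : Set E} (hA : IsCompact A) {K : Set ℂ} (hK : IsCompact K) {V : Set (E × ℂ)}
    (hV : IsOpen V) (h : ∀ a ∈ A, ∀ u ∈ K, (a, c + (ρ : ℂ) * u) ∈ V) :
    ∀ᶠ s : ℝ in 𝓝 ρ, ∀ q ∈ A ×ˢ K, (q.1, c + (s : ℂ) * q.2) ∈ V := by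
  refine (hA.prod hK).eventually_forall_of_forall_eventually
    (P := fun (s : ℝ) (q : E × ℂ) => (q.1, c + (s : ℂ) * q.2) ∈ V) fun q hq => ?_
  have hc : Continuous fun z : ℝ × E × ℂ => (z.2.1, c + (z.1 : ℂ) * z.2.2) := by fun_prop
  exact hc.continuousAt.eventually (hV.mem_nhds (h q.1 hq.1 q.2 hq.2))

theorem nice_right (hU : IsOpen U) (hH : IsClosed H) {A : Set E} (hA : IsCompact A) (hρ : 0 ≤ ρ)
    (h : A ⊆ Nice U H c ρ) : ∀ᶠ s in 𝓝[>] ρ, A ⊆ Nice U H c s := by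
  have hd : ∀ u : ℂ, dist (c + (ρ : ℂ) * u) c = ρ * ‖u‖ := fun u => by
    rw [dist_eq_norm, add_sub_cancel_left, norm_mul, Complex.norm_real, Real.norm_of_nonneg hρ]
  have e1 := scale_YA1 (c := c) (ρ := ρ) hA (isCompact_closedBall (0 : ℂ) 1) hU fun a ha u hu =>
    (h ha).1 _ (by
      rw [mem_closedBall, hd]
      exact mul_le_of_le_one_right hρ (by simpa using hu))
  have e2 := scale_YA1 (c := c) (ρ := ρ) hA (isCompact_sphere (0 : ℂ) 1) hH.isOpen_compl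
    fun a ha u hu => (h ha).2 _ (by
      rw [mem_sphere, hd, (by simpa using hu : ‖u‖ = 1), mul_one])
  filter_upwards [mem_nhdsWithin_of_mem_nhds e1, mem_nhdsWithin_of_mem_nhds e2,
    self_mem_nhdsWithin] with s h1 h2 hs a ha
  have hs0 : 0 < s := hρ.trans_lt hs
  have hs1 : (s : ℂ) ≠ 0 := Complex.ofReal_ne_zero.2 hs0.ne'
  have hτ : ∀ τ : ℂ, c + (s : ℂ) * ((τ - c) / s) = τ := fun τ => by field_simp; ring
  have hn : ∀ τ : ℂ, ‖(τ - c) / s‖ = dist τ c / s := fun τ => by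
    rw [norm_div, Complex.norm_real, Real.norm_of_nonneg hs0.le, dist_eq_norm]
  refine ⟨fun τ hτ' => ?_, fun τ hτ' => ?_⟩
  · have h3 := h1 (a, (τ - c) / s) ⟨ha, by
      rw [mem_closedBall_zero_iff, hn]
      exact (div_le_one hs0).2 hτ'⟩
    rwa [hτ] at h3
  · have h3 := h2 (a, (τ - c) / s) ⟨ha, by
      rw [mem_sphere_zero_iff_norm, hn, mem_sphere.1 hτ', div_self hs0.ne']⟩
    rwa [hτ] at h3

theorem nice_small (hU : IsOpen U) {a : E} (ha : (a, c) ∈ U) (hf : {τ | (a, τ) ∈ H}.Finite) :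
    ∃ s > 0, a ∈ Nice U H c s ∧ ∀ τ ∈ closedBall c s, τ ≠ c → (a, τ) ∉ H := by
  have e1 : {τ | (a, τ) ∈ U} ∈ 𝓝 c :=
    (hU.preimage (by fun_prop : Continuous fun τ : ℂ => (a, τ))).mem_nhds ha
  have e2 : ({τ | (a, τ) ∈ H} \ {c})ᶜ ∈ 𝓝 c :=
    (hf.subset sdiff_subset).isClosed.isOpen_compl.mem_nhds fun h => h.2 rfl
  obtain ⟨s, hs, hsub⟩ := nhds_basis_closedBall.mem_iff.1 (inter_mem e1 e2)
  have h1 : ∀ τ ∈ closedBall c s, τ ≠ c → (a, τ) ∉ H := fun τ hτ hne h => (hsub hτ).2 ⟨h, hne⟩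
  refine ⟨s, hs, ⟨fun τ hτ => (hsub hτ).1, fun τ hτ => h1 τ (sphere_subset_closedBall hτ) ?_⟩, h1⟩
  rintro rfl
  simp only [mem_sphere, dist_self] at hτ
  exact hs.ne hτ

end Pool.Agent.PWV
end
end

-- part Pool.Agent.P.MP_65ad7c_ag.YA2
section

open Set Filter Topology Metric

noncomputable section
namespace Pool.Agent.PWV

variable {X : Cx} {E T : Type} [MetricSpace E] [MetricSpace T]

namespace FC

theorem push_ZT (Q : FC X (E × ℂ)) {K : Set ℂ} (hK : IsCompact K) (A : Set E) :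
    (Q.push K).ZT A = Q.ZT (A ×ˢ K) := by
  have hC : IsClosed ((univ : Set E) ×ˢ K) := isClosed_univ.prod hK.isClosed
  have : CompactSpace K := isCompact_iff_compactSpace.1 hK
  rw [push, (supp_res Q hC).map_ZT hC (fstC E ℂ) fun D hD hc => ?_, res_ZT Q hC]
  · congr 1
    ext x
    simp [fstC]
  · have h1 := isClosedMap_fst_of_compactSpace (X := E) (Y := K) _
      (hc.preimage (continuous_fst.prodMk (continuous_subtype_val.comp continuous_snd)))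
    convert h1 using 1
    ext y
    exact ⟨fun ⟨x, hx, e⟩ => ⟨(x.1, ⟨x.2, (hD hx).2⟩), hx, e⟩, fun ⟨x, hx, e⟩ => ⟨_, hx, e⟩⟩

theorem push_ex (Q : FC X (E × ℂ)) {K : Set ℂ} (hK : IsCompact K) (n : ℤ) (A B : Set E) :
    (Q.push K).Ex n A B ↔ Q.Ex n (A ×ˢ K) (B ×ˢ K) := by
  rw [Ex, push_ZT Q hK, push_ZT Q hK, Ex]

theorem pc_slice (Q : FC X (E × ℂ)) (τ : ℂ) {S : Set E} (h : (Q.push {τ}).PC S) :
    Q.PC (S ×ˢ {τ}) := by
  intro γ hc hi hm n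
  have e : ∀ s ∈ Icc (0 : ℝ) 1, γ s = ((γ s).1, τ) := fun s hs => Prod.ext rfl (hm hs).2
  have h1 := (push_ex Q isCompact_singleton n _ _).1 (h (fun s => (γ s).1) hc.fst
    (fun a ha b hb hab => hi ha hb (by rw [e a ha, e b hb]; exact Prod.ext hab rfl))
    (fun s hs => (hm hs).1) n)
  have e1 : ((fun s => (γ s).1) '' Icc 0 1) ×ˢ ({τ} : Set ℂ) = γ '' Icc 0 1 := by
    ext ⟨x, t⟩
    constructor
    · rintro ⟨⟨s, hs, rfl⟩, rfl⟩
      exact ⟨s, hs, e s hs⟩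
    · rintro ⟨s, hs, h2⟩
      exact ⟨⟨s, hs, congrArg Prod.fst h2⟩, by rw [← h2]; exact (hm hs).2⟩
  rw [e1, singleton_prod_singleton, ← e 0 (left_mem_Icc.2 zero_le_one)] at h1
  exact h1

theorem ex_split (Q : FC X T) {A₁ A₂ B₁ B₂ : Set T} (h1 : IsClosed A₁) (h2 : IsClosed A₂)
    (hd : Disjoint A₁ A₂) (b1 : B₁ ⊆ A₁) (b2 : B₂ ⊆ A₂) {n : ℤ}
    (h : Q.Ex n (A₁ ∪ A₂) (B₁ ∪ B₂)) : Q.Ex n A₁ B₁ := by
  intro v hv hdv
  have ht : v ∈ (Q.ZT A₁ ⊔ Q.ZT A₂) (n + 1) := by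
    rw [← ZT_inter Q (sep_of_isClosed h1 h2), hd.inter_eq, ZT_empty]
    exact hv.1
  obtain ⟨a, ha, b, hb, rfl⟩ := Submodule.mem_sup.1 ht
  have hb1 : b ∈ Q.ZT (B₁ ∪ B₂) (n + 1) := by
    rw [ZT_union]
    refine ⟨?_, ZT_anti b2 _ hb⟩
    have := sub_mem hv (ZT_anti b1 _ ha)
    rwa [add_sub_cancel_left] at this
  have hb2 : X.d (n + 1) b ∈ Q.ZT (A₁ ∪ A₂) (n + 1 + 1) := by
    rw [ZT_union]
    refine ⟨?_, Q.ZT_stab _ _ _ hb⟩
    have := sub_mem hdv (Q.ZT_stab _ _ _ ha)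
    rwa [map_add, add_sub_cancel_left] at this
  obtain ⟨w, hw, hw'⟩ := h b hb1 hb2
  refine ⟨w, ZT_anti subset_union_left _ hw, ?_⟩
  rw [add_sub_assoc]
  exact add_mem ha (ZT_anti subset_union_left _ hw')

theorem arc_YA2 (Q : FC X (E × ℂ)) {K P : Set ℂ} (hK : IsCompact K) (hP : IsClosed P) {U : Set E}
    (h : ∀ t ∈ K, t ∉ P → Q.PC (U ×ˢ {t})) {γ : ℝ → E}
    (hc : ContinuousOn γ (Icc 0 1)) (hi : InjOn γ (Icc 0 1)) (hm : MapsTo γ (Icc 0 1) U) (n : ℤ) :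
    Q.Ex n ((γ '' Icc 0 1) ×ˢ K) ((γ '' Icc 0 1) ×ˢ (P ∩ K) ∪ {γ 0} ×ˢ K) := by
  have hA := isCompact_Icc.image_of_continuousOn hc
  refine lg Q (hA.prod hK)
    ((hA.isClosed.prod (hP.inter hK.isClosed)).union (isClosed_singleton.prod hK.isClosed))
    (union_subset (prod_mono Subset.rfl inter_subset_right)
      (prod_mono (singleton_subset_iff.2 ⟨0, left_mem_Icc.2 zero_le_one, rfl⟩) Subset.rfl))
    Prod.snd continuous_snd.continuousOn n fun t i _ => ?_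
  by_cases ht : t ∈ K ∧ t ∉ P
  · have e1 : (γ '' Icc 0 1) ×ˢ K ∩ Prod.snd ⁻¹' {t} = (fun s => (γ s, t)) '' Icc 0 1 := by
      ext ⟨x, τ⟩
      constructor
      · rintro ⟨⟨⟨s, hs, rfl⟩, -⟩, rfl⟩
        exact ⟨s, hs, rfl⟩
      · rintro ⟨s, hs, e⟩
        cases e
        exact ⟨⟨⟨s, hs, rfl⟩, ht.1⟩, rfl⟩
    have e2 : (((γ '' Icc 0 1) ×ˢ (P ∩ K) ∪ {γ 0} ×ˢ K) ∩ Prod.snd ⁻¹' {t} : Set (E × ℂ)) =
        {(γ 0, t)} := by
      ext ⟨x, τ⟩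
      constructor
      · rintro ⟨⟨-, h1, -⟩ | ⟨rfl, -⟩, rfl⟩
        · exact (ht.2 h1).elim
        · rfl
      · intro e
        cases e
        exact ⟨Or.inr ⟨rfl, ht.1⟩, rfl⟩
    rw [e1, e2]
    exact h t ht.1 ht.2 (fun s => (γ s, t)) (hc.prodMk continuousOn_const)
      (fun a ha b hb e => hi ha hb (congrArg Prod.fst e)) (fun s hs => ⟨hm hs, rfl⟩) i
  · have e : (((γ '' Icc 0 1) ×ˢ (P ∩ K) ∪ {γ 0} ×ˢ K) ∩ Prod.snd ⁻¹' {t} : Set (E × ℂ)) =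
        (γ '' Icc 0 1) ×ˢ K ∩ Prod.snd ⁻¹' {t} := by
      ext ⟨x, τ⟩
      constructor
      · rintro ⟨⟨h0, -, h1⟩ | ⟨rfl, h1⟩, rfl⟩
        · exact ⟨⟨h0, h1⟩, rfl⟩
        · exact ⟨⟨⟨0, left_mem_Icc.2 zero_le_one, rfl⟩, h1⟩, rfl⟩
      · rintro ⟨⟨h0, h1⟩, rfl⟩
        exact ⟨Or.inl ⟨h0, by_contra fun h2 => ht ⟨h1, h2⟩, h1⟩, rfl⟩
    rw [e]
    exact ex_self Q i _

variable {Q : FC X (E × ℂ)} {H : Set (E × ℂ)} {W : Set E} {c : ℂ} {ρ : ℝ} {Φ : E × ℂ ≃ₜ E × ℂ}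
  {P : Set ℂ}

/-- Direct images along a straightened disc bundle. -/
theorem ta_str (h : Str H W c ρ Φ P) (p0 : Q.PC (W ×ˢ closedBall c ρ \ H))
    (p1 : Q.PC (W ×ˢ closedBall c ρ ∩ H)) : (Q.push (closedBall c ρ)).PC W := by
  have tr := tr_comap Q Φ.isInducing
  have hpc : ∀ t ∈ closedBall c ρ, t ∉ (∅ : Set ℂ) → (Q.comap _ Φ.isInducing).PC (W ×ˢ {t}) := by
    intro t ht _
    refine (tr.pc Φ.isEmbedding _).2 ?_
    by_cases hP : t ∈ P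
    · refine p1.mono ?_
      rintro _ ⟨⟨b, τ⟩, ⟨hb, rfl⟩, rfl⟩
      exact ⟨⟨by rw [h.fst]; exact hb, (h.cball _).2 ht⟩, (h.mem b hb _ ht).2 hP⟩
    · refine p0.mono ?_
      rintro _ ⟨⟨b, τ⟩, ⟨hb, rfl⟩, rfl⟩
      exact ⟨⟨by rw [h.fst]; exact hb, (h.cball _).2 ht⟩, fun h1 => hP ((h.mem b hb _ ht).1 h1)⟩
  intro γ hc hi hm n
  have hsub : ({γ 0} : Set E) ⊆ γ '' Icc 0 1 :=
    singleton_subset_iff.2 ⟨0, left_mem_Icc.2 zero_le_one, rfl⟩
  refine (push_ex Q (isCompact_closedBall c ρ) n _ _).2 ?_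
  have h1 := arc_YA2 _ (isCompact_closedBall c ρ) isClosed_empty hpc hc hi hm n
  rw [empty_inter, prod_empty, empty_union] at h1
  have h2 := (tr n _ _ (prod_mono hsub Subset.rfl)).1 h1
  rwa [(h.image _).1, (h.image _).1] at h2

/-- Descent along a straightened disc bundle. -/
theorem fd_str (h : Str H W c ρ Φ P) (p0 : Q.PC (W ×ˢ closedBall c ρ \ H))
    (p1 : (Q.push (closedBall c ρ)).PC W) : Q.PC (W ×ˢ closedBall c ρ ∩ H) := by
  have tr := tr_comap Q Φ.isInducing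
  have hK := isCompact_closedBall c ρ
  have hpc : ∀ t ∈ closedBall c ρ, t ∉ P → (Q.comap _ Φ.isInducing).PC (W ×ˢ {t}) := by
    intro t ht hP
    refine (tr.pc Φ.isEmbedding _).2 (p0.mono ?_)
    rintro _ ⟨⟨b, τ⟩, ⟨hb, rfl⟩, rfl⟩
    exact ⟨⟨by rw [h.fst]; exact hb, (h.cball _).2 ht⟩, fun h1 => hP ((h.mem b hb _ ht).1 h1)⟩
  have hf : (P ∩ closedBall c ρ).Finite := h.fin.inter_of_left _
  have key : ∀ t ∈ P ∩ closedBall c ρ, (Q.comap _ Φ.isInducing).PC (W ×ˢ {t}) := by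
    intro t ht
    refine pc_slice _ t fun γ hc hi hm n => (push_ex _ isCompact_singleton n _ _).2 ?_
    have hsub : ({γ 0} : Set E) ⊆ γ '' Icc 0 1 :=
      singleton_subset_iff.2 ⟨0, left_mem_Icc.2 zero_le_one, rfl⟩
    have hA := (isCompact_Icc.image_of_continuousOn hc).isClosed
    have a1 : (Q.comap _ Φ.isInducing).Acyc ((γ '' Icc 0 1) ×ˢ closedBall c ρ)
        ({γ 0} ×ˢ closedBall c ρ) := fun m => by
      refine (tr m _ _ (prod_mono hsub Subset.rfl)).2 ?_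
      rw [(h.image _).1, (h.image _).1]
      exact (push_ex Q hK m _ _).1 (p1 γ hc hi hm m)
    have a2 := Acyc.right (union_subset (prod_mono Subset.rfl inter_subset_right)
      (prod_mono hsub Subset.rfl)) subset_union_right a1
      fun m => arc_YA2 _ hK h.fin.isClosed hpc hc hi hm m
    have a3 := (ex_exc _ (sep_of_isClosed (hA.prod hf.isClosed)
      (isClosed_singleton.prod hK.isClosed))).1 (a2 n)
    have e : P ∩ closedBall c ρ = {t} ∪ (P ∩ closedBall c ρ) \ {t} := by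
      rw [union_sdiff_self, union_eq_self_of_subset_left (singleton_subset_iff.2 ht)]
    rw [prod_inter_prod, inter_eq_self_of_subset_right hsub, inter_assoc, inter_self, e,
      prod_union, prod_union] at a3
    exact ex_split _ (hA.prod isClosed_singleton) (hA.prod (hf.subset sdiff_subset).isClosed)
      (disjoint_left.2 fun p h1 h2 => h2.2.2 h1.2) (prod_mono hsub Subset.rfl)
      (prod_mono hsub Subset.rfl) a3
  have all : (Q.comap _ Φ.isInducing).PC (W ×ˢ (P ∩ closedBall c ρ)) := by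
    intro γ hc hi hm
    have h0 : (0 : ℝ) ∈ Icc (0 : ℝ) 1 := left_mem_Icc.2 zero_le_one
    exact key _ (hm h0).2 γ hc hi fun s hs => ⟨(hm hs).1,
      isPreconnected_Icc.constant_of_mapsTo hf.isDiscrete hc.snd (fun s hs => (hm hs).2) hs h0⟩
  refine ((tr.pc Φ.isEmbedding _).1 all).mono ?_
  rintro p ⟨⟨h1, h2⟩, h3⟩
  obtain ⟨⟨b, τ⟩, rfl⟩ := Φ.surjective p
  rw [h.fst] at h1
  have h4 := (h.cball _).1 h2
  exact ⟨(b, τ), ⟨h1, (h.mem b h1 τ h4).1 h3, h4⟩, rfl⟩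

end FC

end Pool.Agent.PWV
end
end

-- part Pool.Agent.P.MP_65ad7c_ag.YA3
section

open Set Filter Topology Metric

noncomputable section
namespace Pool.Agent.PWV

variable {X : Cx} {E T T' : Type} [MetricSpace E] [MetricSpace T] [MetricSpace T']

namespace FC

variable {Q : FC X T} {A C S W W' : Set T}

theorem loc_loc (Q : FC X T) (hW : IsOpen W) (hW' : IsOpen W') :
    (Q.loc W).loc W' = Q.loc (W ∩ W') := by
  refine FC.ext rfl ?_
  funext n y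
  refine Submodule.ext fun v => ?_
  rw [mem_loc_z _ hW', mem_loc_z _ (hW.inter hW')]
  constructor
  · intro h
    filter_upwards [nhdsWithin_mono y inter_subset_right h, self_mem_nhdsWithin] with x h1 h2
    exact ((mem_loc_z Q hW).1 h1).self_of_nhdsWithin h2.1
  · intro h
    obtain ⟨N, hN, hy, hs⟩ := mem_nhdsWithin.1 h
    filter_upwards [nhdsWithin_le_nhds (hN.mem_nhds hy), self_mem_nhdsWithin] with x h1 h2
    rw [mem_loc_z Q hW]
    filter_upwards [nhdsWithin_le_nhds ((hN.inter hW').mem_nhds ⟨h1, h2⟩), self_mem_nhdsWithin]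
      with x' h3 h4
    exact hs ⟨h3.1, h4, h3.2⟩

theorem comap_loc (Q : FC X T) (hW : IsOpen W) {φ : T' → T} (hφ : IsHomeomorph φ) :
    (Q.loc W).comap φ hφ.isInducing = (Q.comap φ hφ.isInducing).loc (φ ⁻¹' W) := by
  refine FC.ext rfl ?_
  funext n y
  refine Submodule.ext fun v => ?_
  rw [mem_loc_z _ (hW.preimage hφ.continuous)]
  show v ∈ (Q.loc W).z n (φ y) ↔ ∀ᶠ x in 𝓝[φ ⁻¹' W] y, v ∈ Q.z n (φ x)
  rw [mem_loc_z _ hW, ← hφ.isOpenEmbedding.map_nhdsWithin_preimage_eq W y, eventually_map]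

theorem loc_le_YA3 (Q : FC X T) (hW : IsOpen W) (hW' : IsOpen W') {M : Set T} (hM : IsOpen M)
    (h : W' ∩ M ⊆ W) (hA : A ⊆ M) : (Q.loc W).ZT A ≤ (Q.loc W').ZT A := by
  intro n v hv
  obtain ⟨N, hN, hAN, hv⟩ := (mem_loc_ZT Q hW).1 hv
  refine (mem_loc_ZT Q hW').2 ⟨N ∩ M, hN.inter hM, subset_inter hAN hA, ZT_anti ?_ n hv⟩
  exact fun x hx => ⟨hx.1.1, h ⟨hx.2, hx.1.2⟩⟩

theorem loc_congr (Q : FC X T) (hW : IsOpen W) (hW' : IsOpen W') {M : Set T} (hM : IsOpen M)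
    (h : W ∩ M = W' ∩ M) (hA : A ⊆ M) : (Q.loc W).ZT A = (Q.loc W').ZT A :=
  le_antisymm (loc_le_YA3 Q hW hW' hM (h ▸ inter_subset_left) hA)
    (loc_le_YA3 Q hW' hW hM (h ▸ inter_subset_left) hA)

theorem gam_loc_eq (hW : IsOpen W) (h : Q.loc W = Q) (D : Set T) : (Q.gam D).loc W = Q.gam D := by
  refine FC.ext rfl ?_
  show (Q.loc W).z = Q.z
  rw [h]

theorem Supp.loc {Y Y' : Set T} (h : Q.Supp Y) (hW : IsOpen W) (hY : IsClosed Y')
    (hs : Y ∩ W ⊆ Y') : (Q.loc W).Supp Y' := by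
  intro n v hv x hx
  rw [mem_loc_z Q hW]
  filter_upwards [nhdsWithin_le_nhds (hY.isOpen_compl.mem_nhds hx), self_mem_nhdsWithin]
    with y h1 h2
  exact h n v hv y fun h3 => h1 (hs ⟨h3, h2⟩)

omit [MetricSpace T] in
theorem sub_YA3 (γ : ℝ → T) : {γ 0} ⊆ γ '' Icc 0 1 :=
  singleton_subset_iff.2 ⟨0, left_mem_Icc.2 zero_le_one, rfl⟩

theorem ex_loc_YA3 (hW : IsOpen W) (hA : A ⊆ W) {B : Set T} (hB : B ⊆ A) {n : ℤ} :
    (Q.loc W).Ex n A B ↔ Q.Ex n A B := by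
  rw [Ex, Ex, loc_ZT_sub Q hW hA, loc_ZT_sub Q hW (hB.trans hA)]

theorem pc_loc_iff (hW : IsOpen W) (hS : S ⊆ W) : (Q.loc W).PC S ↔ Q.PC S := by
  refine forall_congr' fun γ => forall₃_congr fun _ _ h3 => forall_congr' fun n => ?_
  exact ex_loc_YA3 hW (h3.image_subset.trans hS) (sub_YA3 γ)

theorem ex_loc_iff (hW : IsOpen W) (hA : A ⊆ W) {B : Set T} (hB : B ⊆ A) {n : ℤ} :
    (Q.loc W).Ex n A B ↔ Q.Ex n A B :=
  ex_loc_YA3 hW hA hB

theorem ex_gam_loc_iff (hW : IsOpen W) (hC : IsClosed C) (hCW : Cᶜ ⊆ W) (hA : A ⊆ W) {B : Set T}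
    (hB : B ⊆ A) {n : ℤ} : ((Q.loc W).gam C).Ex n A B ↔ (Q.gam C).Ex n A B := by
  rw [gam_ex _ hC, gam_ex _ hC]
  exact ex_loc_YA3 hW (union_subset hA hCW) (union_subset_union_left _ hB)

theorem pc_tri_mid (hC : IsClosed C) (h1 : (Q.gam C).PC S) (h3 : (Q.loc Cᶜ).PC S) : Q.PC S :=
  fun γ a b c n => tri_mid hC (sub_YA3 γ) (h1 γ a b c n) (h3 γ a b c n)

theorem pc_tri_left (hC : IsClosed C) (h2 : Q.PC S) (h3 : (Q.loc Cᶜ).PC S) : (Q.gam C).PC S := by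
  intro γ a b c n
  obtain ⟨m, rfl⟩ : ∃ m, n = m + 1 := ⟨n - 1, by ring⟩
  exact tri_left hC (sub_YA3 γ) (h2 γ a b c (m + 1)) (h3 γ a b c m)

theorem Supp.push {R : FC X (E × ℂ)} {Y : Set (E × ℂ)} (h : R.Supp Y) (K : Set ℂ) {Y' : Set E}
    (hY : IsClosed Y') (hs : ∀ p ∈ Y, p.1 ∈ Y') : (R.push K).Supp Y' := by
  intro n v hv y hy
  refine eventually_comap.2 ?_
  filter_upwards [hY.isOpen_compl.mem_nhds hy] with y' h1 x hx
  show v ∈ ⨅ _ : x ∈ closure (univ ×ˢ K), R.z n x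
  rw [Submodule.mem_iInf]
  refine fun _ => h n v hv x fun h2 => h1 ?_
  rw [← hx]
  exact hs x h2

/-- Localisation commutes with finite direct images. -/
theorem cm1 {R : FC X (E × ℂ)} {H : Set (E × ℂ)} (h : R.Supp H) (hH : IsClosed H) {B A : Set E}
    (hB : IsClosed B) {c : ℂ} {ρ : ℝ} (hA : ∀ a ∈ A, ∀ τ ∈ sphere c ρ, (a, τ) ∉ H) :
    ((R.loc (Bᶜ ×ˢ univ)).push (closedBall c ρ)).ZT A =
      ((R.push (closedBall c ρ)).loc Bᶜ).ZT A := by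
  have hK : IsCompact (closedBall c ρ) := isCompact_closedBall c ρ
  have hV : IsOpen (Bᶜ ×ˢ (univ : Set ℂ)) := hB.isOpen_compl.prod isOpen_univ
  rw [push_ZT _ hK]
  refine vb2_ext fun n v => ?_
  rw [mem_loc_ZT _ hV, mem_loc_ZT _ hB.isOpen_compl]
  constructor
  · rintro ⟨M, hM, hAM, hv⟩
    refine ⟨{a | ∀ τ ∈ closedBall c ρ, (a, τ) ∈ M}, ?_, fun a ha τ hτ => hAM ⟨ha, hτ⟩, ?_⟩
    · rw [isOpen_iff_mem_nhds]
      intro a ha
      exact hK.eventually_forall_of_forall_eventually (P := fun a τ => (a, τ) ∈ M)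
        fun τ hτ => hM.mem_nhds (ha τ hτ)
    · rw [push_ZT _ hK]
      refine ZT_anti ?_ n hv
      exact fun p hp => ⟨hp.1.1 p.2 hp.2, hp.1.2, mem_univ _⟩
  · rintro ⟨N, hN, hAN, hv⟩
    rw [push_ZT _ hK] at hv
    refine ⟨N ×ˢ ball c ρ ∪ Hᶜ, (hN.prod isOpen_ball).union hH.isOpen_compl, ?_, ?_⟩
    · rintro ⟨a, τ⟩ ⟨ha, hτ⟩
      rcases (mem_closedBall.1 hτ).lt_or_eq with h1 | h1
      · exact Or.inl ⟨hAN ha, h1⟩
      · exact Or.inr (hA a ha τ h1)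
    · refine mem_ZT.2 ⟨hv.1, fun p hp => ?_⟩
      rcases hp.1 with h1 | h1
      · exact (mem_ZT.1 hv).2 p ⟨⟨h1.1, hp.2.1⟩, ball_subset_closedBall h1.2⟩
      · exact h n v hv.1 p h1

theorem key_YA3 (R : FC X (E × ℂ)) {U : Set (E × ℂ)} (hU : IsOpen U) {Δ : Set E}
    (hΔ : IsClosed Δ) {O : Set ℂ} (hO : IsOpen O) (S : Set E) {m : ℤ} (x : X.V m) :
    x ∈ ((R.pushO (U ∩ univ ×ˢ O)).loc Δᶜ).ZT S m ↔
      ∃ N, IsOpen N ∧ S ⊆ N ∧ x ∈ R.ZT (N ×ˢ O ∩ (U ∩ Δᶜ ×ˢ univ)) m := by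
  rw [mem_loc_ZT _ hΔ.isOpen_compl]
  refine exists_congr fun N => and_congr_right fun hN => and_congr_right fun _ => ?_
  have h1 := hN.inter hΔ.isOpen_compl
  rw [pushO, map_ZT_open _ _ h1, loc_ZT_open _ (hU.inter (isOpen_univ.prod hO))
    (h1.preimage (fstC E ℂ).continuous)]
  have e : (fstC E ℂ) ⁻¹' (N ∩ Δᶜ) ∩ (U ∩ univ ×ˢ O) = N ×ˢ O ∩ (U ∩ Δᶜ ×ˢ univ) := by
    ext p
    exact ⟨fun h => ⟨⟨h.1.1, h.2.2.2⟩, h.2.1, h.1.2, mem_univ _⟩,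
      fun h => ⟨⟨h.1.1, h.2.2.1⟩, h.2.1, mem_univ _, h.1.2⟩⟩
  rw [e]

/-- Closed discs are limits of open discs. -/
theorem cm2 (R : FC X (E × ℂ)) {U : Set (E × ℂ)} (hU : IsOpen U) {Δ A B : Set E} (hΔ : IsClosed Δ)
    (hA : IsCompact A) (hB : IsCompact B) {c : ℂ} {ρ : ℝ} (hρ : 0 ≤ ρ) {n : ℤ}
    (h : ∀ᶠ s in 𝓝[>] ρ, ((R.pushO (U ∩ univ ×ˢ ball c s)).loc Δᶜ).Ex n A B) :
    ((R.loc (U ∩ Δᶜ ×ˢ univ)).push (closedBall c ρ)).Ex n A B := by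
  have hK : IsCompact (closedBall c ρ) := isCompact_closedBall c ρ
  have hV : IsOpen (U ∩ Δᶜ ×ˢ (univ : Set ℂ)) := hU.inter (hΔ.isOpen_compl.prod isOpen_univ)
  rw [push_ex _ hK]
  intro v hv hd
  obtain ⟨MB, hMB, sB, hv⟩ := (mem_loc_ZT _ hV).1 hv
  obtain ⟨MA, hMA, sA, hd⟩ := (mem_loc_ZT _ hV).1 hd
  obtain ⟨uB, wB, huB, hwB, b1, b2, b3⟩ := generalized_tube_lemma hB hK hMB sB
  obtain ⟨uA, wA, huA, hwA, a1, a2, a3⟩ := generalized_tube_lemma hA hK hMA sA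
  obtain ⟨δ, hδ, hs⟩ := hK.exists_thickening_subset_open (hwA.inter hwB) (subset_inter a2 b2)
  rw [thickening_closedBall hδ hρ] at hs
  have h2 : ∀ᶠ s in 𝓝[>] ρ, s ∈ Ioo ρ (δ + ρ) := Ioo_mem_nhdsGT (by linarith)
  obtain ⟨s, h3, h4⟩ := (h.and h2).exists
  have h5 : ball c s ⊆ wA ∩ wB := (ball_subset_ball h4.2.le).trans hs
  have h6 : closedBall c ρ ⊆ ball c s := closedBall_subset_ball h4.1
  have eB : uB ×ˢ ball c s ∩ (U ∩ Δᶜ ×ˢ univ) ⊆ MB ∩ (U ∩ Δᶜ ×ˢ univ) :=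
    fun p hp => ⟨b3 ⟨hp.1.1, (h5 hp.1.2).2⟩, hp.2⟩
  have eA : uA ×ˢ ball c s ∩ (U ∩ Δᶜ ×ˢ univ) ⊆ MA ∩ (U ∩ Δᶜ ×ˢ univ) :=
    fun p hp => ⟨a3 ⟨hp.1.1, (h5 hp.1.2).1⟩, hp.2⟩
  obtain ⟨w, hw, hw'⟩ := h3 v
    ((key_YA3 R hU hΔ isOpen_ball B v).2 ⟨uB, huB, b1, ZT_anti eB _ hv⟩)
    ((key_YA3 R hU hΔ isOpen_ball A _).2 ⟨uA, huA, a1, ZT_anti eA _ hd⟩)
  obtain ⟨N, hN, n1, n2⟩ := (key_YA3 R hU hΔ isOpen_ball B w).1 hw
  obtain ⟨N', hN', m1, m2⟩ := (key_YA3 R hU hΔ isOpen_ball A _).1 hw'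
  exact ⟨w, (mem_loc_ZT _ hV).2 ⟨_, hN.prod isOpen_ball, prod_mono n1 h6, n2⟩,
    (mem_loc_ZT _ hV).2 ⟨_, hN'.prod isOpen_ball, prod_mono m1 h6, m2⟩⟩

end FC

end Pool.Agent.PWV
end
end

-- part Pool.Agent.P.MP_65ad7c_ag.VLCn
section

open Set Filter Topology Metric

noncomputable section
namespace Pool.Agent.PWV

variable {X : Cx} {T T' : Type} [MetricSpace T] [MetricSpace T']

namespace FC

theorem vlcn_good {Q : FC X T} {n : ℤ} {v : X.V (n + 1)} {A : Set T} (hv : v ∈ Q.top (n + 1)) :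
    Q.Good n v A ∅ ↔ ∃ w ∈ Q.top n, ∀ x ∈ A, v - X.d n w ∈ Q.z (n + 1) x := by
  constructor
  · rintro ⟨w, hw, h⟩
    exact ⟨w, (mem_ZT.1 hw).1, (mem_ZT.1 h).2⟩
  · rintro ⟨w, hw, h⟩
    exact ⟨w, mem_ZT.2 ⟨hw, fun _ hx => hx.elim⟩, mem_ZT.2 ⟨sub_mem hv (Q.d_top _ _ hw), h⟩⟩

theorem vlcn_pt {Q : FC X T} {n : ℤ} {v : X.V (n + 1)} {y : T} (hv : v ∈ Q.top (n + 1)) :
    Q.Good n v {y} ∅ ↔ ∃ w ∈ Q.top n, v - X.d n w ∈ Q.z (n + 1) y := by
  simp only [vlcn_good hv, mem_singleton_iff, forall_eq]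

theorem vlcn_const {P : ℝ → Prop} (h : ∀ s ∈ Icc (0 : ℝ) 1, ∀ᶠ t in 𝓝[Icc 0 1] s, (P s ↔ P t))
    (h0 : P 0) {s : ℝ} (hs : s ∈ Icc (0 : ℝ) 1) : P s :=
  isPreconnected_Icc.induction₂' (fun a b => P a → P b)
    (fun x hx => (h x hx).mono fun _ hy => ⟨hy.1, hy.2⟩) (fun _ _ _ _ _ _ h1 h2 => h2 ∘ h1)
    (left_mem_Icc.2 zero_le_one) hs h0

/-- a closed element near a point is corrected to vanish there -/
theorem vlcn_fix {Q : FC X T} {W : Set T} {m : ℤ} {B : Submodule ℂ (X.V (m + 1))}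
    (h0 : ∀ b ∈ B, b ∈ Q.top (m + 1) ∧ X.d (m + 1) b ∈ Q.Z W (m + 1 + 1)) {y : T}
    (h0' : ∀ v ∈ Q.top (m + 1), X.d (m + 1) v ∈ Q.z (m + 1 + 1) y →
      ∃ b ∈ B, Q.Good m (v - b) {y} ∅) {u : X.V (m + 1)} (hu : u ∈ Q.top (m + 1))
    (hd : X.d (m + 1) u ∈ Q.z (m + 1 + 1) y) :
    ∃ c ∈ Q.top (m + 1), u - c ∈ Q.z (m + 1) y ∧ ∀ x ∈ W, X.d (m + 1) c ∈ Q.z (m + 1 + 1) x := by
  obtain ⟨b, hb, hg⟩ := h0' u hu hd
  obtain ⟨r, hr, h⟩ := (vlcn_pt (sub_mem hu (h0 b hb).1)).1 hg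
  refine ⟨b + X.d m r, add_mem (h0 b hb).1 (Q.d_top _ _ hr), by rwa [← sub_sub], fun x hx => ?_⟩
  rw [map_add, X.dd, add_zero]
  exact mem_Z.1 (h0 b hb).2 x hx

theorem vlcn_glue {Q : FC X T} {W A₁ A₂ : Set T} {m : ℤ} {y : T} (hs : Sep A₁ A₂)
    (hi : A₁ ∩ A₂ = {y}) (hW : A₂ ⊆ W)
    (fix : ∀ u ∈ Q.top (m + 1), X.d (m + 1) u ∈ Q.z (m + 1 + 1) y → ∃ c ∈ Q.top (m + 1),
      u - c ∈ Q.z (m + 1) y ∧ ∀ x ∈ W, X.d (m + 1) c ∈ Q.z (m + 1 + 1) x)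
    {v : X.V (m + 1 + 1)} (hv : v ∈ Q.top (m + 1 + 1)) (g1 : Q.Good (m + 1) v A₁ ∅)
    (g2 : Q.Good (m + 1) v A₂ ∅) : Q.Good (m + 1) v (A₁ ∪ A₂) ∅ := by
  obtain ⟨w1, hw1, h1⟩ := (vlcn_good hv).1 g1
  obtain ⟨w2, hw2, h2⟩ := (vlcn_good hv).1 g2
  have hy : y ∈ A₁ ∩ A₂ := hi ▸ mem_singleton y
  obtain ⟨c, hc, h3, h4⟩ := fix (w1 - w2) (sub_mem hw1 hw2) (by
    have := sub_mem (h2 y hy.2) (h1 y hy.1)
    rwa [sub_sub_sub_cancel_left, ← map_sub] at this)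
  have h5 : w1 - w2 - c ∈ Q.ZT (A₁ ∩ A₂) (m + 1) := by
    rw [hi]
    exact mem_ZT.2 ⟨sub_mem (sub_mem hw1 hw2) hc, fun x hx => hx ▸ h3⟩
  rw [Q.ZT_inter hs] at h5
  obtain ⟨a1, ha1, a2, ha2, e⟩ := Submodule.mem_sup.1 h5
  refine (vlcn_good hv).2 ⟨w1 - a1, sub_mem hw1 (mem_ZT.1 ha1).1, fun x hx => ?_⟩
  rcases hx with hx | hx
  · have := add_mem (h1 x hx) (Q.d_z x _ _ ((mem_ZT.1 ha1).2 x hx))
    convert this using 1
    rw [map_sub]
    abel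
  · have := sub_mem (sub_mem (h2 x hx) (h4 x (hW hx))) (Q.d_z x _ _ ((mem_ZT.1 ha2).2 x hx))
    convert this using 1
    rw [show w1 - a1 = w2 + c + a2 by rw [← sub_eq_iff_eq_add'.2 e.symm]; abel, map_add, map_add]
    abel

theorem vlcn_key {Q : FC X T} {W : Set T} {m : ℤ} {B : Submodule ℂ (X.V (m + 1 + 1))}
    (fix : ∀ y ∈ W, ∀ u ∈ Q.top (m + 1), X.d (m + 1) u ∈ Q.z (m + 1 + 1) y → ∃ c ∈ Q.top (m + 1),
      u - c ∈ Q.z (m + 1) y ∧ ∀ x ∈ W, X.d (m + 1) c ∈ Q.z (m + 1 + 1) x)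
    (h1 : ∀ b ∈ B, b ∈ Q.top (m + 1 + 1))
    (h2 : ∀ y ∈ W, ∀ b ∈ B, Q.Good (m + 1) b {y} ∅ → ∀ x ∈ W, b ∈ Q.z (m + 1 + 1) x)
    (h3 : ∀ y ∈ W, ∀ v ∈ Q.top (m + 1 + 1), X.d (m + 1 + 1) v ∈ Q.z (m + 1 + 1 + 1) y →
      ∃ b ∈ B, Q.Good (m + 1) (v - b) {y} ∅) : Q.PCn (m + 1) W := by
  intro γ hc hi hm v hv hd
  obtain ⟨hv, hv0⟩ := mem_ZT.1 hv
  have hv0 := hv0 _ (mem_singleton _)
  have hnear : ∀ s ∈ Icc (0 : ℝ) 1, ∀ u : X.V (m + 1 + 1), u ∈ Q.z _ (γ s) →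
      ∀ᶠ t in 𝓝[Icc 0 1] s, u ∈ Q.z _ (γ t) := fun s hs u hu =>
    (hc s hs).eventually ((Q.opn _ u).mem_nhds hu)
  have s1 : ∀ s ∈ Icc (0 : ℝ) 1, Q.Good (m + 1) v {γ s} ∅ := fun s hs => by
    refine vlcn_const (P := fun s => Q.Good (m + 1) v {γ s} ∅) (fun s hs => ?_)
      ((vlcn_pt hv).2 ⟨0, zero_mem _, by simpa using hv0⟩) hs
    obtain ⟨b, hb, hg⟩ := h3 _ (hm hs) v hv ((mem_ZT.1 hd).2 _ (mem_image_of_mem γ hs))
    obtain ⟨w0, hw0, e0⟩ := (vlcn_pt (sub_mem hv (h1 b hb))).1 hg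
    have key : ∀ t ∈ Icc (0 : ℝ) 1, v - b - X.d _ w0 ∈ Q.z _ (γ t) →
        (Q.Good (m + 1) v {γ t} ∅ ↔ ∀ x ∈ W, b ∈ Q.z (m + 1 + 1) x) := fun t ht e => by
      constructor
      · intro hg
        obtain ⟨w, hw, e1⟩ := (vlcn_pt hv).1 hg
        refine h2 _ (hm ht) b hb ((vlcn_pt (h1 b hb)).2 ⟨w - w0, sub_mem hw hw0, ?_⟩)
        convert sub_mem e1 e using 1
        rw [map_sub]
        abel
      · intro hb'
        refine (vlcn_pt hv).2 ⟨w0, hw0, ?_⟩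
        convert add_mem e (hb' _ (hm ht)) using 1
        abel
    filter_upwards [hnear s hs _ e0, self_mem_nhdsWithin] with t e ht
    rw [key s hs e0, key t ht e]
  have s2 : Q.Good (m + 1) v (γ '' Icc 0 1) ∅ := by
    refine vlcn_const (P := fun s => Q.Good (m + 1) v (γ '' Icc 0 s) ∅) (fun s hs => ?_)
      (by simpa using s1 0 (left_mem_Icc.2 zero_le_one)) (right_mem_Icc.2 zero_le_one)
    obtain ⟨w0, hw0, e0⟩ := (vlcn_pt hv).1 (s1 s hs)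
    obtain ⟨ε, hε, hb⟩ := Metric.mem_nhdsWithin_iff.1 (hnear s hs _ e0)
    have key : ∀ a ∈ ball s ε ∩ Icc (0 : ℝ) 1, ∀ b ∈ ball s ε ∩ Icc (0 : ℝ) 1, a ≤ b →
        (Q.Good (m + 1) v (γ '' Icc 0 a) ∅ ↔ Q.Good (m + 1) v (γ '' Icc 0 b) ∅) := by
      intro a ha b hb' hab
      refine ⟨fun hg => ?_, fun hg => hg.mono (image_mono (Icc_subset_Icc_right hab)) subset_rfl⟩
      have i1 : Icc 0 a ⊆ Icc (0 : ℝ) 1 := Icc_subset_Icc_right ha.2.2
      have i2 : Icc a b ⊆ Icc (0 : ℝ) 1 := Icc_subset_Icc ha.2.1 hb'.2.2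
      rw [← Icc_union_Icc_eq_Icc ha.2.1 hab, image_union]
      refine vlcn_glue (y := γ a) (sep_of_isClosed
        (isCompact_Icc.image_of_continuousOn (hc.mono i1)).isClosed
        (isCompact_Icc.image_of_continuousOn (hc.mono i2)).isClosed) ?_
        (image_subset_iff.2 fun t ht => hm (i2 ht)) (fix _ (hm ha.2)) hv hg
        ((vlcn_good hv).2 ⟨w0, hw0, ?_⟩)
      · rw [← hi.image_inter i1 i2, Icc_inter_Icc_eq_singleton ha.2.1 hab, image_singleton]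
      · rintro _ ⟨t, ht, rfl⟩
        exact hb ⟨(convex_ball s ε).ordConnected.out ha.1 hb'.1 ht, i2 ht⟩
    filter_upwards [inter_mem_nhdsWithin _ (ball_mem_nhds s hε)] with t ht
    rcases le_total s t with h | h
    · exact key s ⟨mem_ball_self hε, hs⟩ t ⟨ht.2, ht.1⟩ h
    · exact (key t ⟨ht.2, ht.1⟩ s ⟨mem_ball_self hε, hs⟩ h).symm
  obtain ⟨w, hw, e⟩ := (vlcn_good hv).1 s2
  have z0 : (0 : ℝ) ∈ Icc (0 : ℝ) 1 := left_mem_Icc.2 zero_le_one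
  obtain ⟨c, hc', e1, e2⟩ := fix _ (hm z0) w hw (by
    simpa using sub_mem hv0 (e _ (mem_image_of_mem γ z0)))
  refine ⟨w - c, mem_ZT.2 ⟨sub_mem hw hc', fun x hx => hx ▸ e1⟩,
    mem_ZT.2 ⟨sub_mem hv (Q.d_top _ _ (sub_mem hw hc')), fun x hx => ?_⟩⟩
  convert add_mem (e x hx) (e2 x (image_subset_iff.2 hm hx)) using 1
  rw [map_sub]
  abel

theorem pc_of_lcn {Q : FC X T} {S : Set T} (h : ∀ n, Q.LCn S n) : Q.PC S := by
  intro γ hc hi hm n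
  obtain ⟨m, rfl⟩ : ∃ m, n = m + 1 := ⟨n - 1, by ring⟩
  refine pcn_local (fun y hy => ?_) γ hc hi hm
  obtain ⟨W₀, B₀, o0, y0, a0, b0⟩ := h m y hy
  obtain ⟨W₁, B₁, o1, y1, a1, b1⟩ := h (m + 1) y hy
  refine ⟨S ∩ (W₀ ∩ W₁), inter_mem_nhdsWithin _ ((o0.inter o1).mem_nhds ⟨y0, y1⟩),
    vlcn_key (B := B₁) (fun x hx u hu hd => ?_) (fun b hb => (a1 b hb).1)
      (fun x hx b hb hg x' hx' => mem_Z.1 ((b1 x ⟨hx.1, hx.2.2⟩).1 b hb hg) x' hx'.2.2)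
      fun x hx => (b1 x ⟨hx.1, hx.2.2⟩).2⟩
  obtain ⟨c, hc, e1, e2⟩ := vlcn_fix a0 (b0 x ⟨hx.1, hx.2.1⟩).2 hu hd
  exact ⟨c, hc, e1, fun x' hx' => e2 x' hx'.2.1⟩

end FC

end Pool.Agent.PWV
end
end

-- part Pool.Agent.P.MP_65ad7c_ag.YC0
section

open Set Filter Topology Metric

noncomputable section
namespace Pool.Agent.PWV

variable {X X' : Cx} {T : Type} [MetricSpace T] {Q : FC X T} {Q' : FC X' T} {A B C S : Set T}
  {n : ℤ}

theorem Mp.Iso.mono {f : Mp Q' Q} (h : f.Iso n A) (hB : B ⊆ A) : f.Iso n B := by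
  exact fun x hx => h x (hB hx)

theorem Mp.up_YC0 (f : Mp Q' Q) {v : X'.V n} (hv : v ∈ Q'.ZT A n) : f.p n v ∈ Q.ZT A n :=
  FC.mem_ZT.2 ⟨f.top n v (FC.mem_ZT.1 hv).1, fun x hx => f.z n x v ((FC.mem_ZT.1 hv).2 x hx)⟩

theorem Mp.dn_YC0 (f : Mp Q' Q) (h : f.Iso n A) {v : X'.V n} (hv : v ∈ Q'.top n)
    (h' : f.p n v ∈ Q.ZT A n) : v ∈ Q'.ZT A n :=
  FC.mem_ZT.2 ⟨hv, fun x hx => h x hx v hv ((FC.mem_ZT.1 h').2 x hx)⟩

theorem Mp.ex_iff (f : Mp Q' Q) (h : ∀ n, f.Iso n A) (hB : B ⊆ A) :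
    Q'.Ex n A B ↔ Q.Ex n A B := by
  constructor
  · intro e v hv hd
    obtain ⟨v', hv', rfl⟩ := f.sur _ v (FC.mem_ZT.1 hv).1
    obtain ⟨w, hw, hw'⟩ := e v' (f.dn_YC0 ((h _).mono hB) hv' hv)
      (f.dn_YC0 (h _) (Q'.d_top _ _ hv') (by rwa [f.d]))
    refine ⟨f.p n w, f.up_YC0 hw, ?_⟩
    have := f.up_YC0 hw'
    rwa [map_sub, f.d] at this
  · intro e v hv hd
    obtain ⟨w, hw, hw'⟩ := e (f.p _ v) (f.up_YC0 hv) (by
      rw [← f.d]
      exact f.up_YC0 hd)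
    obtain ⟨w', hw1, rfl⟩ := f.sur _ w (FC.mem_ZT.1 hw).1
    refine ⟨w', f.dn_YC0 ((h _).mono hB) hw1 hw, f.dn_YC0 (h _)
      (sub_mem (FC.mem_ZT.1 hv).1 (Q'.d_top _ _ hw1)) ?_⟩
    rwa [map_sub, f.d]

theorem Mp.ex_gam_iff (f : Mp Q' Q) (hC : IsClosed C) (h : ∀ n, f.Iso n (A ∪ Cᶜ)) (hB : B ⊆ A) :
    (Q'.gam C).Ex n A B ↔ (Q.gam C).Ex n A B := by
  rw [FC.gam_ex Q' hC, FC.gam_ex Q hC]
  exact f.ex_iff h (union_subset_union_left _ hB)

theorem Mp.supp (f : Mp Q' Q) (h : ∀ n, f.Iso n Cᶜ) (hs : Q.Supp C) : Q'.Supp C := by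
  exact fun n v hv x hx => h n x hx v hv (hs n _ (f.top n v hv) x hx)

theorem Mp.lcn (f : Mp Q' Q) (h1 : f.Iso (n + 1) univ) (h2 : f.Iso (n + 1 + 1) univ)
    (h : Q.LCn S n) : Q'.LCn S n := by
  intro x hx
  obtain ⟨W, D, hW, hxW, a1, a2⟩ := h x hx
  refine ⟨W, D.comap (f.p (n + 1)) ⊓ Q'.top (n + 1), hW, hxW, fun b hb => ⟨hb.2, ?_⟩,
    fun y hy => ⟨fun b hb hg => ?_, fun v hv hd => ?_⟩⟩
  · refine FC.mem_Z.2 fun y hy => h2 y (mem_univ y) _ (Q'.d_top _ _ hb.2) ?_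
    rw [f.d]
    exact FC.mem_Z.1 (a1 _ hb.1).2 y hy
  · obtain ⟨w, hw, hw'⟩ := (FC.vlcn_pt hb.2).1 hg
    have h3 := (a2 y hy).1 _ hb.1 ((FC.vlcn_pt (f.top _ _ hb.2)).2 ⟨f.p n w, f.top _ _ hw, by
      have := f.z _ _ _ hw'
      rwa [map_sub, f.d] at this⟩)
    exact FC.mem_Z.2 fun t ht => h1 t (mem_univ t) _ hb.2 (FC.mem_Z.1 h3 t ht)
  · obtain ⟨b, hb, hg⟩ := (a2 y hy).2 (f.p _ v) (f.top _ _ hv) (by
      rw [← f.d]
      exact f.z _ _ _ hd)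
    obtain ⟨w, hw, hw'⟩ := (FC.vlcn_pt (sub_mem (f.top _ _ hv) (a1 b hb).1)).1 hg
    obtain ⟨b', hb', rfl⟩ := f.sur _ b (a1 b hb).1
    obtain ⟨w', hw1, rfl⟩ := f.sur _ w hw
    refine ⟨b', ⟨hb, hb'⟩, (FC.vlcn_pt (sub_mem hv hb')).2 ⟨w', hw1, h1 y (mem_univ y) _
      (sub_mem (sub_mem hv hb') (Q'.d_top _ _ hw1)) ?_⟩⟩
    rwa [map_sub, map_sub, f.d]

theorem Mp.one (f : Mp Q' Q) (h : f.Iso 0 S) {a : X.V 0} (ha : Q.One a S) {a' : X'.V 0}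
    (h1 : a' ∈ Q'.top 0) (h2 : f.p 0 a' = a) (h3 : X'.d 0 a' = 0) : Q'.One a' S := by
  refine ⟨h1, h3, fun x hx hz => ha.ne x hx (h2 ▸ f.z 0 x a' hz), fun x hx v hv hd => ?_⟩
  obtain ⟨c, hc⟩ := ha.gen x hx (f.p 0 v) (f.top 0 v hv) (by
    rw [← f.d]
    exact f.z _ _ _ hd)
  refine ⟨c, h x hx _ (sub_mem hv (Submodule.smul_mem _ c h1)) ?_⟩
  rwa [map_sub, map_smul, h2]

/-- There are no sections with support in `C` in low degrees. -/
theorem Mp.codeg {R : FC X T} (hC : IsClosed C) (f : Mp Q' (R.loc Cᶜ))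
    (h : f.Iso (n + 1) univ) (x : T) : (Q'.gam C).Ex n {x} ∅ := by
  intro v hv _
  have hv1 : v ∈ Q'.ZT (closure C)ᶜ (n + 1) := (FC.mem_ZT.1 hv).1
  refine ⟨0, zero_mem _, ?_⟩
  rw [map_zero, sub_zero]
  refine FC.mem_ZT.2 ⟨hv1, fun y _ => h y (mem_univ y) v (FC.mem_ZT.1 hv1).1 ?_⟩
  rw [FC.mem_loc_z R hC.isOpen_compl]
  filter_upwards [self_mem_nhdsWithin] with t ht
  have h1 := f.z _ t v ((FC.mem_ZT.1 hv1).2 t (by rwa [hC.closure_eq]))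
  exact ((FC.mem_loc_z R hC.isOpen_compl).1 h1).self_of_nhdsWithin ht

namespace FC

theorem pc_congr (h : ∀ n A B, B ⊆ A → A ⊆ S → (Q'.Ex n A B ↔ Q.Ex n A B)) :
    Q'.PC S ↔ Q.PC S := by
  have key : ∀ γ : ℝ → T, MapsTo γ (Icc 0 1) S → ∀ n,
      (Q'.Ex n (γ '' Icc 0 1) {γ 0} ↔ Q.Ex n (γ '' Icc 0 1) {γ 0}) := fun γ hγ n =>
    h n _ _ (singleton_subset_iff.2 ⟨0, left_mem_Icc.2 zero_le_one, rfl⟩) hγ.image_subset
  exact ⟨fun e γ h1 h2 h3 n => (key γ h3 n).1 (e γ h1 h2 h3 n),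
    fun e γ h1 h2 h3 n => (key γ h3 n).2 (e γ h1 h2 h3 n)⟩

theorem One.loc {a : X.V 0} (h : Q.One a S) {W : Set T} (hW : IsOpen W) (hS : S ⊆ W) :
    (Q.loc W).One a S := by
  refine ⟨h.top, h.cl, fun x hx hz => h.ne x hx
    (((mem_loc_z Q hW).1 hz).self_of_nhdsWithin (hS hx)), fun x hx v hv hd => ?_⟩
  obtain ⟨c, hc⟩ := h.gen x hx v hv (((mem_loc_z Q hW).1 hd).self_of_nhdsWithin (hS hx))
  exact ⟨c, (mem_loc_z Q hW).2 (nhdsWithin_le_nhds ((Q.opn _ _).mem_nhds hc))⟩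

theorem One.mono {a : X.V 0} (h : Q.One a S) (hS : A ⊆ S) : Q.One a A := by
  exact ⟨h.top, h.cl, fun x hx => h.ne x (hS hx), fun x hx => h.gen x (hS hx)⟩

theorem lcn_of_ex (h : ∀ x ∈ S, Q.Ex n {x} ∅) : Q.LCn S n := by
  intro x _
  refine ⟨univ, ⊥, isOpen_univ, mem_univ x, fun b hb => ?_, fun y hy => ⟨fun b hb _ => ?_,
    fun v hv hd => ⟨0, zero_mem _, ?_⟩⟩⟩
  · obtain rfl := (Submodule.mem_bot ℂ).1 hb
    exact ⟨zero_mem _, by
      rw [map_zero]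
      exact zero_mem _⟩
  · obtain rfl := (Submodule.mem_bot ℂ).1 hb
    exact zero_mem _
  · rw [sub_zero]
    exact h y hy.1 v (mem_ZT.2 ⟨hv, fun _ hx => hx.elim⟩)
      (mem_ZT.2 ⟨Q.d_top _ _ hv, fun t ht => ht ▸ hd⟩)

theorem lcn_one_YC0 (hn : n < 0) {a : X.V (n + 1)} (h1 : a ∈ Q.top (n + 1))
    (h2 : X.d (n + 1) a = 0) (h3 : ∀ x ∈ S, a ∉ Q.z (n + 1) x)
    (h4 : ∀ x ∈ S, ∀ v ∈ Q.top (n + 1), X.d (n + 1) v ∈ Q.z (n + 1 + 1) x →
      ∃ c : ℂ, v - c • a ∈ Q.z (n + 1) x) : Q.LCn S n := by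
  intro x _
  refine ⟨univ, Submodule.span ℂ {a}, isOpen_univ, mem_univ x, fun b hb => ?_,
    fun y hy => ⟨fun b hb hg => ?_, fun v hv hd => ?_⟩⟩
  · obtain ⟨c, rfl⟩ := Submodule.mem_span_singleton.1 hb
    refine ⟨Submodule.smul_mem _ c h1, ?_⟩
    rw [map_smul, h2, smul_zero]
    exact zero_mem _
  · obtain ⟨c, rfl⟩ := Submodule.mem_span_singleton.1 hb
    obtain ⟨w, hw, hw'⟩ := (vlcn_pt (Submodule.smul_mem _ c h1)).1 hg
    have h5 : c • a ∈ Q.z (n + 1) y := by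
      simpa using add_mem hw' (Q.d_z y n w (Q.neg n hn y hw))
    by_cases hc : c = 0
    · rw [hc, zero_smul]
      exact zero_mem _
    · exact absurd ((Submodule.smul_mem_iff _ hc).1 h5) (h3 y hy.1)
  · obtain ⟨c, hc⟩ := h4 y hy.1 v hv hd
    refine ⟨c • a, Submodule.mem_span_singleton.2 ⟨c, rfl⟩,
      (vlcn_pt (sub_mem hv (Submodule.smul_mem _ c h1))).2 ⟨0, zero_mem _, ?_⟩⟩
    rwa [map_zero, sub_zero]

theorem One.lcn {a : X.V 0} (h : Q.One a S) : Q.LCn S (-1) := by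
  exact lcn_one_YC0 (n := -1) (by norm_num) (a := a) h.top h.cl h.ne h.gen

theorem One.pc {a : X.V 0} (h : Q.One a S) (h0 : ∀ x ∈ S, ∀ n, 0 ≤ n → Q.Ex n {x} ∅) :
    Q.PC S := by
  refine pc_of_lcn fun n => ?_
  rcases lt_trichotomy n (-1) with hn | rfl | hn
  · exact lcn_of_ex fun x _ => Q.ex_neg (by omega) _ _
  · exact h.lcn
  · exact lcn_of_ex fun x hx => h0 x hx n (by omega)

theorem LA.lcn (h : Q.LA S) (n : ℤ) : Q.LCn S n := by
  intro x hx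
  obtain ⟨W, K, hW, hxW, hWK, hK⟩ := h x hx
  set Zc : Submodule ℂ (X.V (n + 1)) :=
    Q.top (n + 1) ⊓ (Q.Z K (n + 1 + 1)).comap (X.d (n + 1)) with hZc
  set Bd : Submodule ℂ (X.V (n + 1)) := (Q.top n).map (X.d n) ⊔ Q.Z K (n + 1) with hBd
  obtain ⟨D, hD⟩ := Submodule.exists_isCompl (Bd.comap Zc.subtype)
  refine ⟨W, D.map Zc.subtype, hW, hxW, ?_, fun y hy => ⟨?_, fun v hv hd => ?_⟩⟩
  · rintro _ ⟨b, _, rfl⟩
    exact ⟨b.2.1, mem_Z.2 fun t ht => mem_Z.1 b.2.2 t (hWK ht)⟩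
  · rintro _ ⟨b, hb, rfl⟩ hg
    obtain ⟨w, hw, hw'⟩ := (vlcn_pt b.2.1).1 hg
    obtain ⟨r, hr, hr'⟩ := hK y hy n (b.1 - X.d n w)
      (mem_ZT.2 ⟨sub_mem b.2.1 (Q.d_top _ _ hw), fun t ht => ht ▸ hw'⟩) (by
        rw [map_sub, X.dd, sub_zero]
        exact ⟨Q.d_top _ _ b.2.1, b.2.2⟩)
    have h1 : b ∈ Bd.comap Zc.subtype := by
      refine Submodule.mem_sup.2 ⟨X.d n (w + r), ⟨w + r, add_mem hw (mem_ZT.1 hr).1, rfl⟩,
        _, hr'.2, ?_⟩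
      rw [map_add]
      show _ = b.1
      abel
    have h2 : b = 0 := (Submodule.disjoint_def.1 hD.disjoint) b h1 hb
    rw [h2, map_zero]
    exact zero_mem _
  · obtain ⟨w, hw, hw'⟩ := hK y hy (n + 1) (X.d (n + 1) v)
      (mem_ZT.2 ⟨Q.d_top _ _ hv, fun t ht => ht ▸ hd⟩) (by
        rw [X.dd]
        exact zero_mem _)
    have hu : v - w ∈ Zc := ⟨sub_mem hv (mem_ZT.1 hw).1, by
      show X.d (n + 1) (v - w) ∈ Q.Z K (n + 1 + 1)
      rw [map_sub]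
      exact hw'.2⟩
    have hm : (⟨v - w, hu⟩ : Zc) ∈ Bd.comap Zc.subtype ⊔ D := by
      rw [hD.sup_eq_top]
      exact Submodule.mem_top
    obtain ⟨u1, h1, u2, h2, e⟩ := Submodule.mem_sup.1 hm
    obtain ⟨_, ⟨r, hr, rfl⟩, k, hk, e1⟩ := Submodule.mem_sup.1 (Submodule.mem_comap.1 h1)
    have e2 : u1.1 + u2.1 = v - w := congrArg Subtype.val e
    have e3 : X.d n r + k = u1.1 := e1
    refine ⟨u2.1, ⟨u2, h2, rfl⟩, (vlcn_pt (sub_mem hv u2.2.1)).2 ⟨r, hr, ?_⟩⟩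
    have e4 : v - u2.1 - X.d n r = w + k := by
      rw [← sub_eq_zero, show v - u2.1 - X.d n r - (w + k) = v - w - (X.d n r + k + u2.1) by abel,
        e3, e2, sub_self]
    rw [e4]
    exact add_mem ((mem_ZT.1 hw).2 y rfl) (mem_Z.1 hk y (hWK hy.2))

end FC

end Pool.Agent.PWV
end
end

-- part Pool.Agent.P.MP_65ad7c_ag.YC1
section

open Set Filter Topology Metric

noncomputable section
namespace Pool.Agent.PWV

variable {X : Cx} {T : Type} [TopologicalSpace T]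

theorem rec_YC1 {A : ℤ → Type} (a : ∀ n, A n) (s : ∀ n, A n → A (n + 1)) (k : ℤ) :
    ∃ g : ∀ n, A n, (∀ n ≤ k, g n = a n) ∧ ∀ n, k ≤ n → g (n + 1) = s n (g n) := by
  refine ⟨fun n => Int.inductionOn' n k (a k) (fun n _ x => s n x) fun n _ _ => a (n - 1),
    fun n hn => ?_, fun n hn => Int.inductionOn'_add_one hn⟩
  rcases hn.eq_or_lt with rfl | h
  · exact Int.inductionOn'_self
  · obtain ⟨m, rfl⟩ : ∃ m, n = m - 1 := ⟨n + 1, by omega⟩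
    exact Int.inductionOn'_sub_one (by omega)

theorem ker_YC1 {V F : Type} [AddCommGroup V] [Module ℂ V] [AddCommGroup F] [Module ℂ F]
    (ι : V →ₗ[ℂ] F) (hι : Function.Injective ι) (N : Submodule ℂ V) :
    ∃ ψ : V →ₗ[ℂ] F, ∀ v, ψ v = 0 ↔ v ∈ N := by
  obtain ⟨s, hs⟩ := N.mkQ.exists_rightInverse_of_surjective N.range_mkQ
  have h : Function.Injective s := fun a b hab => by
    have h1 := congrArg N.mkQ hab
    rwa [← LinearMap.comp_apply, ← LinearMap.comp_apply, hs] at h1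
  refine ⟨ι ∘ₗ s ∘ₗ N.mkQ, fun v => ?_⟩
  rw [LinearMap.comp_apply, LinearMap.comp_apply, map_eq_zero_iff _ hι, map_eq_zero_iff _ h,
    Submodule.mkQ_apply, Submodule.Quotient.mk_eq_zero]

/-- a large space -/
abbrev kF_YC1 (Q : FC X T) : Type := List T → ∀ n, Q.top n

/-- the terms of the new complex -/
abbrev kV_YC1 (Q : FC X T) (n : ℤ) : Type := Q.top n × (T → kF_YC1 Q)

/-- the terms embed in the large space -/
def kI_YC1 (Q : FC X T) (n : ℤ) : kV_YC1 Q n →ₗ[ℂ] kF_YC1 Q where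
  toFun u l := match l with
    | [] => Pi.single n u.1
    | x :: l => u.2 x l
  map_add' u v := by
    funext l
    cases l with
    | nil => exact Pi.single_add (f := fun n => Q.top n) n u.1 v.1
    | cons x l => rfl
  map_smul' c u := by
    funext l
    cases l with
    | nil => exact Pi.single_smul (f := fun n => Q.top n) n c u.1
    | cons x l => rfl

theorem kI_inj_YC1 (Q : FC X T) (n : ℤ) : Function.Injective (kI_YC1 Q n) := fun u v h =>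
  Prod.ext (Pi.single_injective n (congrFun h [])) (funext fun x => funext fun l => congrFun h (x :: l))

/-- the differential -/
def kD_YC1 (Q : FC X T) (n : ℤ) (ψ : T → kV_YC1 Q n →ₗ[ℂ] kF_YC1 Q) :
    kV_YC1 Q n →ₗ[ℂ] kV_YC1 Q (n + 1) :=
  (((X.d n).restrict (Q.d_top n)) ∘ₗ LinearMap.fst ℂ _ _).prod (LinearMap.pi ψ)

/-- the germ kernels -/
def kZ_YC1 (Q : FC X T) (Z : Set T) (k n : ℤ) (x : T) : Submodule ℂ (kV_YC1 Q n) where
  carrier := {u | u.1.1 ∈ Q.z n x ∧ (k + 2 ≤ n → ∀ᶠ y in 𝓝 x, y ∈ Z → u.2 y = 0)}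
  add_mem' := fun {u v} hu hv => ⟨add_mem hu.1 hv.1, fun h => by
    filter_upwards [hu.2 h, hv.2 h] with y h1 h2 hy
    show u.2 y + v.2 y = 0
    rw [h1 hy, h2 hy, add_zero]⟩
  zero_mem' := ⟨zero_mem _, fun _ => Eventually.of_forall fun _ _ => rfl⟩
  smul_mem' := fun c u hu => ⟨Submodule.smul_mem _ c hu.1, fun h => by
    filter_upwards [hu.2 h] with y h1 hy
    show c • u.2 y = 0
    rw [h1 hy, smul_zero]⟩

theorem kZ_open_YC1 (Q : FC X T) (Z : Set T) (k n : ℤ) (u : kV_YC1 Q n) :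
    IsOpen {x | u ∈ kZ_YC1 Q Z k n x} := by
  rw [isOpen_iff_eventually]
  intro x hx
  have h1 : ∀ᶠ y in 𝓝 x, u.1.1 ∈ Q.z n y := (Q.opn n u.1.1).mem_nhds hx.1
  by_cases h : k + 2 ≤ n
  · filter_upwards [h1, (hx.2 h).eventually_nhds] with y h2 h3 using ⟨h2, fun _ => h3⟩
  · filter_upwards [h1] with y h2 using ⟨h2, fun h' => absurd h' h⟩

/-- Killing the cohomology along `Z` in degrees `> k`. -/
theorem kill (Q : FC X T) {Z : Set T} (hZ : IsClosed Z) {k : ℤ} (hk : -1 ≤ k) {a : X.V 0}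
    (ha : a ∈ Q.top 0) (hd : X.d 0 a = 0) :
    ∃ (X' : Cx) (Q' : FC X' T) (f : Mp Q' Q) (a' : X'.V 0), a' ∈ Q'.top 0 ∧ f.p 0 a' = a ∧
      X'.d 0 a' = 0 ∧ (∀ n, f.Iso n Zᶜ) ∧ (∀ n ≤ k + 1, f.Iso n univ) ∧
      (∀ x ∈ Z, ∀ n, k ≤ n → 0 ≤ n → Q'.Ex n {x} ∅) ∧
      (k = -1 → ∀ x ∈ Z, ∀ v ∈ Q'.top 0, X'.d 0 v ∈ Q'.z (0 + 1) x →
        ∃ c : ℂ, v - c • a' ∈ Q'.z 0 x) := by
  classical
  let a' : kV_YC1 Q 0 := (⟨a, ha⟩, 0)
  let A : ∀ n, Submodule ℂ (kV_YC1 Q n) := Function.update (fun _ => ⊥) 0 (Submodule.span ℂ {a'})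
  choose s hs using fun n => ker_YC1 (kI_YC1 Q n) (kI_inj_YC1 Q n)
  obtain ⟨ψ, h0, h1⟩ := rec_YC1 (A := fun n => T → kV_YC1 Q n →ₗ[ℂ] kF_YC1 Q) (fun _ => 0)
    (fun n ψ x => s (n + 1) (kZ_YC1 Q Z k (n + 1) x ⊔ LinearMap.range (kD_YC1 Q n ψ) ⊔ A (n + 1))) k
  have h2 : ∀ n, k ≤ n → ∀ x v, ψ (n + 1) x v = 0 ↔
      v ∈ kZ_YC1 Q Z k (n + 1) x ⊔ LinearMap.range (kD_YC1 Q n (ψ n)) ⊔ A (n + 1) :=
    fun n hn x v => by rw [h1 n hn]; exact hs _ _ _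
  have h3 : ∀ n x, ∀ v ∈ kZ_YC1 Q Z k n x, ψ n x v = 0 := fun n x v hv => by
    rcases le_or_gt n k with h | h
    · rw [h0 n h]; rfl
    · obtain ⟨m, rfl⟩ : ∃ m, n = m + 1 := ⟨n - 1, by omega⟩
      exact (h2 m (by omega) x v).2 (Submodule.mem_sup_left (Submodule.mem_sup_left hv))
  let X' : Cx :=
    { V := kV_YC1 Q
      d := fun n => kD_YC1 Q n (ψ n)
      dd := fun n v => Prod.ext (Subtype.ext (X.dd n v.1.1)) (funext fun x => by
        show ψ (n + 1) x _ = 0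
        rcases le_or_gt k n with h | h
        · exact (h2 n h x _).2 (Submodule.mem_sup_left (Submodule.mem_sup_right ⟨v, rfl⟩))
        · rw [h0 (n + 1) h]; rfl) }
  let Q' : FC X' T :=
    { top := fun _ => ⊤
      z := kZ_YC1 Q Z k
      d_top := fun _ _ _ => trivial
      d_z := fun x n v hv => ⟨Q.d_z x n v.1.1 hv.1, fun _ => by
        filter_upwards [(kZ_open_YC1 Q Z k n v).mem_nhds hv] with y hy _ using h3 n y v hy⟩
      opn := kZ_open_YC1 Q Z k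
      glue := fun n ι O v hO _ h => by
        obtain ⟨w, hw, hw'⟩ := Q.glue n ι O (fun i => (v i).1.1) hO (fun i => (v i).1.2)
          fun i j x hx => (h i j x hx).1
        refine ⟨(⟨w, hw⟩, fun y => if hy : ∃ i, y ∈ O i then (v hy.choose).2 y else 0), trivial,
          fun i x hx => ⟨hw' i x hx, fun hn => ?_⟩⟩
        filter_upwards [(hO i).mem_nhds hx] with y hy hyZ
        have hy' : ∃ i, y ∈ O i := ⟨i, hy⟩
        show (if hy : ∃ i, y ∈ O i then (v hy.choose).2 y else 0) - (v i).2 y = 0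
        rw [dif_pos hy']
        exact ((h _ i y ⟨hy'.choose_spec, hy⟩).2 hn).self_of_nhds hyZ
      neg := fun n hn x v _ => ⟨Q.neg n hn x v.1.2, fun h => by omega⟩ }
  let f : Mp Q' Q :=
    { p := fun n => (Q.top n).subtype ∘ₗ LinearMap.fst ℂ _ _
      d := fun _ _ => rfl
      top := fun _ v _ => v.1.2
      sur := fun _ v hv => ⟨(⟨v, hv⟩, 0), trivial, rfl⟩
      z := fun _ _ _ hv => hv.1 }
  have h4 : ∀ x ∈ Z, ∀ n, k ≤ n → ∀ v : X'.V (n + 1), X'.d (n + 1) v ∈ Q'.z (n + 1 + 1) x →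
      v ∈ kZ_YC1 Q Z k (n + 1) x ⊔ LinearMap.range (kD_YC1 Q n (ψ n)) ⊔ A (n + 1) :=
    fun x hx n hn v hv => (h2 n hn x v).1 ((hv.2 (by omega)).self_of_nhds hx)
  refine ⟨X', Q', f, a', trivial, rfl, Prod.ext (Subtype.ext hd) (funext fun x => ?_),
    fun n x hx v _ hv => ⟨hv, fun _ => ?_⟩, fun n hn x _ v _ hv => ⟨hv, fun h => by omega⟩,
    fun x hx n hn hn0 v _ hv => ?_, fun hk' x hx v _ hv => ?_⟩
  · show ψ 0 x a' = 0
    rcases le_or_gt 0 k with h | h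
    · rw [h0 0 h]; rfl
    · have h7 := h2 (-1) (by omega) x
      refine (h7 a').2 (Submodule.mem_sup_right ?_)
      show a' ∈ A 0
      simp only [A, Function.update_self]
      exact Submodule.mem_span_singleton_self a'
  · filter_upwards [hZ.isOpen_compl.mem_nhds hx] with y hy hyZ using absurd hyZ hy
  · have h5 := h4 x hx n hn v ((FC.mem_ZT.1 hv).2 x rfl)
    have h6 : A (n + 1) = ⊥ := Function.update_of_ne (by omega) _ _
    rw [h6, sup_bot_eq] at h5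
    obtain ⟨b, hb, _, ⟨w, rfl⟩, rfl⟩ := Submodule.mem_sup.1 h5
    refine ⟨w, FC.mem_ZT.2 ⟨trivial, fun _ h => h.elim⟩, FC.mem_ZT.2 ⟨trivial, ?_⟩⟩
    rintro _ rfl
    show b + kD_YC1 Q n (ψ n) w - kD_YC1 Q n (ψ n) w ∈ _
    rwa [add_sub_cancel_right]
  · have h5 : v ∈ kZ_YC1 Q Z k 0 x ⊔ LinearMap.range (kD_YC1 Q (-1) (ψ (-1))) ⊔ A 0 :=
      h4 x hx (-1) hk'.le v hv
    obtain ⟨_, hb, t, ht, rfl⟩ := Submodule.mem_sup.1 h5
    obtain ⟨b, hb', _, ⟨w, rfl⟩, rfl⟩ := Submodule.mem_sup.1 hb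
    simp only [A, Function.update_self] at ht
    obtain ⟨c, rfl⟩ := Submodule.mem_span_singleton.1 ht
    refine ⟨c, ?_⟩
    rw [add_sub_cancel_right]
    exact add_mem hb' (Q'.d_z x (-1) w (Q'.neg (-1) (by omega) x trivial))

/-- functions in degree zero -/
def fn_YC1 (T : Type) : Cx where
  V _ := T → ℂ
  d _ := 0
  dd _ _ := rfl

/-- discontinuous functions on `Y` -/
def fc_YC1 (Y : Set T) : FC (fn_YC1 T) T where
  top _ := ⊤
  z n x :=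
    { carrier := {f : T → ℂ | n = 0 → ∀ᶠ y in 𝓝 x, y ∈ Y → f y = 0}
      add_mem' := fun {u v} hu hv h => by
        filter_upwards [hu h, hv h] with y h1 h2 hy
        show (u : T → ℂ) y + (v : T → ℂ) y = 0
        rw [h1 hy, h2 hy, add_zero]
      zero_mem' := fun _ => Eventually.of_forall fun _ _ => rfl
      smul_mem' := fun c u hu h => by
        filter_upwards [hu h] with y h1 hy
        show c • (u : T → ℂ) y = 0
        rw [h1 hy, smul_zero] }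
  d_top _ _ _ := trivial
  d_z _ _ _ _ _ := Eventually.of_forall fun _ _ => rfl
  opn n v := by
    rw [isOpen_iff_eventually]
    intro x hx
    by_cases h : n = 0
    · filter_upwards [(hx h).eventually_nhds] with y h3 _ using h3
    · exact Eventually.of_forall fun y h' => absurd h' h
  glue n ι O v hO _ h := by
    classical
    refine ⟨fun y => if hy : ∃ i, y ∈ O i then (v hy.choose : T → ℂ) y else 0, trivial,
      fun i x hx hn => ?_⟩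
    filter_upwards [(hO i).mem_nhds hx] with y hy hyZ
    have hy' : ∃ i, y ∈ O i := ⟨i, hy⟩
    show (if hy : ∃ i, y ∈ O i then (v hy.choose : T → ℂ) y else 0) - (v i : T → ℂ) y = 0
    rw [dif_pos hy']
    exact (h _ i y ⟨hy'.choose_spec, hy⟩ hn).self_of_nhds hyZ
  neg n hn x v _ h := by omega

/-- A flabby resolution of the constant sheaf on a closed set. -/
theorem exists_const {Y : Set T} (hY : IsClosed Y) :
    ∃ (X : Cx) (Q : FC X T) (a : X.V 0), Q.Supp Y ∧ Q.One a Y ∧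
      ∀ x ∈ Y, ∀ n, 0 ≤ n → Q.Ex n {x} ∅ := by
  obtain ⟨X, Q, f, a, h1, h2, h3, h4, -, h5, h6⟩ := kill (fc_YC1 Y) hY (k := -1) le_rfl
    (a := fun _ => (1 : ℂ)) trivial rfl
  refine ⟨X, Q, a, fun n v hv x hx => h4 n x hx v hv fun _ => ?_,
    ⟨h1, h3, fun x hx h => ?_, h6 rfl⟩, fun x hx n hn => h5 x hx n (by omega) hn⟩
  · filter_upwards [hY.isOpen_compl.mem_nhds hx] with y hy hyZ using absurd hyZ hy
  · have h7 := (f.z 0 x a h rfl).self_of_nhds hx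
    rw [h2] at h7
    exact one_ne_zero h7

end Pool.Agent.PWV
end
end

-- part Pool.Agent.P.MP_65ad7c_ag.YB0
section

open Set Filter Topology Metric

noncomputable section
namespace Pool.Agent.PWV

open MvPolynomial

variable {X X' : Cx} {N : ℕ} {ι κ : Type} {Q : ι → FC X (Fin N → ℂ)} {O : ι → Set (Fin N → ℂ)}
  {C Y : Set (Fin N → ℂ)}

theorem gen_mul {σ : Type} (p : Ideal (MvPolynomial σ ℂ)) (δ δ' : MvPolynomial σ ℂ) :
    Gen p (δ * δ') = Gen p δ ∩ Gen p δ' := by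
  ext x
  simp only [Gen, mem_inter_iff, mem_ofPred_eq, map_mul, mul_ne_zero_iff]
  tauto

theorem gen_mul' {σ : Type} (p : Ideal (MvPolynomial σ ℂ)) (δ δ' : MvPolynomial σ ℂ) :
    Gen p (δ * δ') = Gen p δ ∩ {x | eval x δ' ≠ 0} := by
  ext x
  simp only [Gen, mem_inter_iff, mem_ofPred_eq, map_mul, mul_ne_zero_iff]
  tauto

theorem CF.of_imp (h : CF Q O) {Q' : κ → FC X' (Fin N → ℂ)} {O' : κ → Set (Fin N → ℂ)} (s : κ → ι)
    (hO : ∀ j, O' j ⊆ O (s j)) (hP : ∀ j, ∀ S ⊆ O' j, (Q (s j)).PC S → (Q' j).PC S) :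
    CF Q' O' := by
  intro p hp
  obtain ⟨δ, hδ, H⟩ := h p hp
  exact ⟨δ, hδ, fun j => hP j _ inter_subset_right
    ((H (s j)).mono (inter_subset_inter_right _ (hO j)))⟩

theorem CF.mono (h : CF Q O) {O' : ι → Set (Fin N → ℂ)} (hO : ∀ i, O' i ⊆ O i) : CF Q O' := by
  exact h.of_imp id hO fun _ _ _ H => H

theorem cf_of_pc (h : ∀ i, (Q i).PC (O i)) : CF Q O := by
  intro p hp
  exact ⟨1, (Ideal.ne_top_iff_one p).1 hp.ne_top, fun i => (h i).mono inter_subset_right⟩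

theorem cf_zero (Q : ι → FC X (Fin 0 → ℂ)) (O : ι → Set (Fin 0 → ℂ)) : CF Q O := by
  refine cf_of_pc fun i γ _ hi _ => ?_
  have h01 : (0 : ℝ) = 1 :=
    hi (left_mem_Icc.2 zero_le_one) (right_mem_Icc.2 zero_le_one) (Subsingleton.elim _ _)
  exact absurd h01 zero_ne_one

theorem CF.dim (h : CF Q O) {V : Set (Fin N → ℂ)} {e : ℕ} (hV : ZC V) (hd : Dim V (e + 1)) :
    ∃ V', ZC V' ∧ Dim V' e ∧ ∀ i, (Q i).PC ((V \ V') ∩ O i) := by
  classical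
  choose δ hδ H using h
  let δ' : Ideal (MvPolynomial (Fin N) ℂ) → MvPolynomial (Fin N) ℂ := fun p =>
    if hp : p.IsPrime then δ p hp else 1
  have hδ' : ∀ p (hp : p.IsPrime), δ' p = δ p hp := fun p hp => dif_pos hp
  obtain ⟨V', h1, h2, h3⟩ := comp hV hd δ' fun p hp => by rw [hδ' p hp]; exact hδ p hp
  refine ⟨V', h1, h2, fun i => FC.pc_local fun y hy => ?_⟩
  obtain ⟨p, hp, -, -, -, hy2, hy3⟩ := h3 y hy.1
  rw [hδ' p hp] at hy2
  refine ⟨Gen p (δ p hp) ∩ O i, ?_, H p hp i⟩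
  have ho : IsOpen {x : Fin N → ℂ | eval x (δ p hp) ≠ 0} :=
    isOpen_ne_fun (MvPolynomial.continuous_eval _) continuous_const
  filter_upwards [nhdsWithin_le_nhds hy3, nhdsWithin_le_nhds (ho.mem_nhds hy2),
    self_mem_nhdsWithin] with x a b c
  exact ⟨⟨a c.1.1, b⟩, c.2⟩

theorem CF.top (h : CF Q O) :
    ∃ g : MvPolynomial (Fin N) ℂ, g ≠ 0 ∧ ∀ i, (Q i).PC (O i \ {x | eval x g = 0}) := by
  obtain ⟨δ, hδ, H⟩ := h ⊥ Ideal.isPrime_bot
  refine ⟨δ, fun h0 => hδ (by rw [h0]; exact zero_mem _), fun i => (H i).mono fun x hx => ?_⟩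
  refine ⟨⟨fun f hf => ?_, hx.2⟩, hx.1⟩
  rw [Ideal.mem_bot.1 hf, map_zero]

theorem CF.tri_mid (hC : IsClosed C) (h1 : CF (fun i => (Q i).gam C) O)
    (h3 : CF (fun i => (Q i).loc Cᶜ) O) : CF Q O := by
  intro p hp
  obtain ⟨δ, hδ, H⟩ := h1 p hp
  obtain ⟨δ', hδ', H'⟩ := h3 p hp
  refine ⟨δ * δ', fun hm => (hp.mem_or_mem hm).elim hδ hδ', fun i => ?_⟩
  rw [gen_mul]
  exact FC.pc_tri_mid hC ((H i).mono fun x hx => ⟨hx.1.1, hx.2⟩)
    ((H' i).mono fun x hx => ⟨hx.1.2, hx.2⟩)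

theorem CF.tri_left (hC : IsClosed C) (h2 : CF Q O) (h3 : CF (fun i => (Q i).loc Cᶜ) O) :
    CF (fun i => (Q i).gam C) O := by
  intro p hp
  obtain ⟨δ, hδ, H⟩ := h2 p hp
  obtain ⟨δ', hδ', H'⟩ := h3 p hp
  refine ⟨δ * δ', fun hm => (hp.mem_or_mem hm).elim hδ hδ', fun i => ?_⟩
  rw [gen_mul]
  exact FC.pc_tri_left hC ((H i).mono fun x hx => ⟨hx.1.1, hx.2⟩)
    ((H' i).mono fun x hx => ⟨hx.1.2, hx.2⟩)

theorem CF.supp (hY : ZC Y) (hs : ∀ i, (Q i).Supp Y) (h : CF Q fun i => O i ∩ Y) : CF Q O := by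
  intro p hp
  by_cases hs' : ZI p ⊆ Y
  · obtain ⟨δ, hδ, H⟩ := h p hp
    exact ⟨δ, hδ, fun i => (H i).mono fun x hx => ⟨hx.1, hx.2, hs' hx.1.1⟩⟩
  · obtain ⟨δ, hδ, H⟩ := hY.exists_not_mem hs'
    exact ⟨δ, hδ, fun i => (hs i).pc_off.mono fun x hx hx' => hx.1.2 (H x hx')⟩

theorem exists_resid (hY : ZC Y) (hC : ZC C) {e : ℕ} (hd : Dim Y (e + 1)) :
    ∃ Y', ZC Y' ∧ Y' ⊆ Y ∧ Y \ C ⊆ Y' ∧ Dim (C ∩ Y') e := by
  obtain ⟨s, hf, hp, -, rfl⟩ := hY.exists_primes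
  have hf' : {p ∈ s | ¬ ZI p ⊆ C}.Finite := hf.subset fun _ h => h.1
  refine ⟨⋃ p ∈ {p ∈ s | ¬ ZI p ⊆ C}, ZI p, zc_biUnion hf' fun p _ => zc_ZI p,
    biUnion_subset_biUnion_left fun _ h => h.1, fun x hx => ?_, ?_⟩
  · obtain ⟨p, hps, hxp⟩ := mem_iUnion₂.1 hx.1
    exact mem_iUnion₂.2 ⟨p, ⟨hps, fun hc => hx.2 (hc hxp)⟩, hxp⟩
  · rw [inter_iUnion₂]
    refine dim_biUnion hf' fun p hps => ?_
    obtain ⟨δ, hδ, H⟩ := hC.exists_not_mem hps.2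
    exact (drop (hp p hps.1) hδ (hd.mono (subset_biUnion_of_mem (u := fun p => ZI p) hps.1))).mono
      fun x hx => ⟨hx.2, H x hx.1⟩

/-- Reduction to a localisation and a complex with smaller support. -/
theorem TL.red {e : ℕ} (h : TL X e N) (hO : ∀ i, IsOpen (O i)) (hY : ZC Y) (hC : ZC C)
    {D : Set (Fin N → ℂ)} (hD : ZC D) (hd : Dim (D ∩ Y) e) (hs : ∀ i, (Q i).Supp Y)
    (hl : ∀ i, (Q i).loc Cᶜ = Q i) (h1 : CF Q fun i => O i \ C)
    (h2 : CF (fun i => (Q i).loc Dᶜ) O) : CF Q O := by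
  have hs' : ∀ i, ((Q i).gam D).Supp (D ∩ Y) := fun i n v hv x hx => by
    by_cases hxD : x ∈ D
    · exact (hs i).gam D n v hv x fun hxY => hx ⟨hxD, hxY⟩
    · exact FC.supp_gam (Q i) hD.isClosed n v hv x hxD
  have h3 := h ι (fun i => (Q i).gam D) O (D ∩ Y) C hO (hD.inter hY) hd hC hs'
    (CF.tri_left hD.isClosed h1 (h2.mono fun i => sdiff_subset))
  have h4 : (fun i => ((Q i).gam D).loc Cᶜ) = fun i => (Q i).gam D :=
    funext fun i => FC.gam_loc_eq hC.isClosed.isOpen_compl (hl i) D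
  rw [h4] at h3
  exact CF.tri_mid hD.isClosed h3 h2

end Pool.Agent.PWV
end
end

-- part Pool.Agent.P.MP_65ad7c_ag.VRootP
section

open Set Filter Topology Metric

noncomputable section
namespace Pool.Agent.PWV

section aux
open Polynomial

variable {D : Type} [CommRing D] [IsDomain D]

theorem vrootp_clear (q : (FractionRing D)[X]) : ∃ c ≠ (0 : D), ∃ Q : D[X],
    Q.map (algebraMap D (FractionRing D)) = C (algebraMap D (FractionRing D) c) * q := by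
  obtain ⟨c, hc, h⟩ := IsLocalization.integerNormalization_spec (nonZeroDivisors D) q
  exact ⟨c, nonZeroDivisors.ne_zero hc, _, by rw [h, ← smul_eq_C_mul, algebraMap_smul]⟩

theorem vrootp_dvd {a b : D[X]} (h : a.map (algebraMap D (FractionRing D)) ∣
    b.map (algebraMap D (FractionRing D))) : ∃ c ≠ (0 : D), a ∣ C c * b := by
  obtain ⟨q, hq⟩ := h
  obtain ⟨c, hc, Q, hQ⟩ := vrootp_clear q
  refine ⟨c, hc, Q, map_injective _ (IsFractionRing.injective D (FractionRing D)) ?_⟩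
  rw [Polynomial.map_mul, Polynomial.map_mul, map_C, hq, hQ, mul_left_comm]

theorem vrootp_cop {a b : D[X]} (h : IsCoprime (a.map (algebraMap D (FractionRing D)))
    (b.map (algebraMap D (FractionRing D)))) :
    ∃ c ≠ (0 : D), ∃ A B : D[X], A * a + B * b = C c := by
  obtain ⟨u, v, h⟩ := h
  obtain ⟨c, hc, U, hU⟩ := vrootp_clear u
  obtain ⟨c', hc', V, hV⟩ := vrootp_clear v
  refine ⟨c * c', mul_ne_zero hc hc', C c' * U, C c * V,
    map_injective _ (IsFractionRing.injective D (FractionRing D)) ?_⟩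
  simp only [Polynomial.map_add, Polynomial.map_mul, map_C, hU, hV, map_mul]
  linear_combination C (algebraMap D (FractionRing D) c) * C (algebraMap D (FractionRing D) c') * h

theorem vrootp_gen [CharZero D] {g : D[X]} (hg : g.Monic) : ∃ δ ≠ (0 : D), ∃ k : ℕ,
    ∀ φ : D →+* ℂ, φ δ ≠ 0 → {t | (g.map φ).eval t = 0}.ncard = k := by
  have : CharZero (FractionRing D) :=
    charZero_of_injective_algebraMap (IsFractionRing.injective D (FractionRing D))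
  obtain ⟨h, n, h1, h2, h3⟩ := exists_squarefree_dvd_pow_of_ne_zero
    (hg.map (algebraMap D (FractionRing D))).ne_zero
  obtain ⟨b, hb, H, hH⟩ := vrootp_clear h
  have hu : IsUnit (C (algebraMap D (FractionRing D) b)) :=
    isUnit_C.2 (Ne.isUnit (by simpa using hb))
  have ha : Associated (H.map (algebraMap D (FractionRing D))) h :=
    hH ▸ associated_unit_mul_left _ _ hu
  obtain ⟨c₁, n₁, d₁⟩ := vrootp_dvd (ha.dvd.trans h2)
  obtain ⟨c₂, n₂, d₂⟩ := vrootp_dvd (a := g) (b := H ^ n)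
    (by rw [Polynomial.map_pow]; exact h3.trans (pow_dvd_pow_of_dvd ha.symm.dvd n))
  obtain ⟨c₃, n₃, A, B, d₃⟩ := vrootp_cop (a := H) (b := derivative H) (by
    rw [← derivative_map]
    exact (PerfectField.separable_iff_squarefree.2 h1).of_dvd ha.dvd)
  have n₄ : H.leadingCoeff ≠ 0 := fun e => h1.ne_zero (by
    rw [leadingCoeff_eq_zero.1 e, Polynomial.map_zero] at ha
    exact (associated_zero_iff_eq_zero _).1 ha.symm)
  refine ⟨c₁ * c₂ * c₃ * H.leadingCoeff, mul_ne_zero (mul_ne_zero (mul_ne_zero n₁ n₂) n₃) n₄,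
    H.natDegree, fun φ hφ => ?_⟩
  simp only [map_mul, ne_eq, mul_eq_zero, not_or] at hφ
  obtain ⟨⟨⟨m₁, m₂⟩, m₃⟩, m₄⟩ := hφ
  have hs : (H.map φ).Separable := by
    refine ⟨C (φ c₃)⁻¹ * A.map φ, C (φ c₃)⁻¹ * B.map φ, ?_⟩
    rw [derivative_map, mul_assoc, mul_assoc, ← mul_add, ← Polynomial.map_mul,
      ← Polynomial.map_mul, ← Polynomial.map_add, d₃, map_C, ← C_mul, inv_mul_cancel₀ m₃, C_1]
  have he : {t | (g.map φ).eval t = 0} = (H.map φ).rootSet ℂ := by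
    ext t
    rw [mem_rootSet_of_ne hs.ne_zero, coe_aeval_eq_eval]
    constructor
    · intro ht
      have h4 := eval_dvd (x := t) (map_dvd φ d₂)
      rw [show (g.map φ).eval t = 0 from ht, zero_dvd_iff, Polynomial.map_mul, map_C, eval_mul,
        eval_C, Polynomial.map_pow, eval_pow] at h4
      exact eq_zero_of_pow_eq_zero ((mul_eq_zero.1 h4).resolve_left m₂)
    · intro ht
      have h4 := eval_dvd (x := t) (map_dvd φ d₁)
      rw [ht, zero_dvd_iff, Polynomial.map_mul, map_C, eval_mul, eval_C] at h4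
      exact (mul_eq_zero.1 h4).resolve_left m₁
  rw [he, ← Nat.card_coe_set_eq, Nat.card_eq_fintype_card,
    card_rootSet_eq_natDegree hs (IsAlgClosed.splits _), natDegree_map_of_leadingCoeff_ne_zero _ m₄]

end aux

open MvPolynomial

/-- The number of distinct roots is generically constant on an irreducible variety. -/
theorem rootp {σ : Type} {G : Polynomial (MvPolynomial σ ℂ)} (hG : G.Monic)
    {p : Ideal (MvPolynomial σ ℂ)} (hp : p.IsPrime) :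
    ∃ δ ∉ p, ∃ k : ℕ, ∀ x ∈ ZI p, eval x δ ≠ 0 → (rt G x).ncard = k := by
  have : CharZero (MvPolynomial σ ℂ ⧸ p) :=
    charZero_of_injective_algebraMap (algebraMap ℂ (MvPolynomial σ ℂ ⧸ p)).injective
  obtain ⟨δ, hδ, k, h⟩ := vrootp_gen (hG.map (Ideal.Quotient.mk p))
  obtain ⟨δ, rfl⟩ := Ideal.Quotient.mk_surjective δ
  refine ⟨δ, fun e => hδ (Ideal.Quotient.eq_zero_iff_mem.2 e), k, fun x hx h0 => ?_⟩
  have h1 := h (Ideal.Quotient.lift p (eval x) hx) h0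
  rwa [Polynomial.map_map] at h1

end Pool.Agent.PWV
end
end

-- part Pool.Agent.P.MP_65ad7c_ag.VSmooth
section

open Set Filter Topology Metric

noncomputable section
namespace Pool.Agent.PWV

open MvPolynomial

theorem vsmooth_eval_aeval {σ τ : Type} (x : σ → ℂ) (f : τ → MvPolynomial σ ℂ)
    (P : MvPolynomial τ ℂ) : eval x (aeval f P) = eval (fun i => eval x (f i)) P := by
  induction P using MvPolynomial.induction_on with
  | C a => simp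
  | add p q hp hq => simp only [map_add, hp, hq]
  | mul_X p i hp => simp only [map_mul, hp, aeval_X, eval_X]

theorem vsmooth_eval_rename {n : ℕ} (x : Fin (n + 1) → ℂ) (f : MvPolynomial (Fin n) ℂ) :
    eval x (rename Fin.succ f) = eval (Fin.tail x) f := by
  rw [eval_rename]
  rfl

theorem vsmooth_cyl {n e : ℕ} {V : Set (Fin n → ℂ)}
    (h : Dim {y : Fin (n + 1) → ℂ | Fin.tail y ∈ V} (e + 1)) : Dim V e := by
  intro f
  obtain ⟨P, hP, hv⟩ := h (Fin.cons (X 0) fun i => rename Fin.succ (f i))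
  have hQ : finSuccEquiv ℂ e P ≠ 0 := fun h0 => hP ((finSuccEquiv ℂ e).map_eq_zero_iff.1 h0)
  refine ⟨(finSuccEquiv ℂ e P).leadingCoeff, Polynomial.leadingCoeff_ne_zero.2 hQ, fun x hx => ?_⟩
  have h0 : (finSuccEquiv ℂ e P).map (eval fun i => eval x (f i)) = 0 := by
    apply Polynomial.funext
    intro t
    rw [← eval_eq_eval_mv_eval', Polynomial.eval_zero, ← hv (Fin.cons t x) (by simpa using hx)]
    congr 2
    funext i
    refine Fin.cases ?_ (fun j => ?_) i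
    · simp
    · simp only [Fin.cons_succ, vsmooth_eval_rename, Fin.tail_cons]
  have h1 := congrArg (fun Q => Polynomial.coeff Q (finSuccEquiv ℂ e P).natDegree) h0
  simpa only [Polynomial.coeff_map, Polynomial.coeff_zero, Polynomial.leadingCoeff] using h1

theorem vsmooth_root {n e : ℕ} {p : Ideal (MvPolynomial (Fin (n + 1)) ℂ)} (hp : p.IsPrime)
    (h : Dim (ZI p) e) :
    Dim (ZI (p.comap (rename (R := ℂ) (Fin.succ (n := n))).toRingHom)) e := by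
  intro f
  obtain ⟨P, hP, hv⟩ := h fun i => rename Fin.succ (f i)
  refine ⟨P, hP, fun x hx => ?_⟩
  rw [← vsmooth_eval_aeval]
  refine hx _ (Ideal.mem_comap.2 (null hp fun y hy => ?_))
  have h1 := hv y hy
  simp only [vsmooth_eval_rename] at h1
  change eval y (rename Fin.succ (aeval f P)) = 0
  rw [vsmooth_eval_rename, vsmooth_eval_aeval, h1]

/-- Generic flatness of an irreducible variety. -/
theorem smooth (n : ℕ) : ∀ p : Ideal (MvPolynomial (Fin n) ℂ), p.IsPrime →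
    ∃ δ ∉ p, ∃ e, ¬ Dim (ZI p) e ∧ ∀ x ∈ ZI p, eval x δ ≠ 0 → Flat (ZI p) e x := by
  induction n with
  | zero =>
    intro p hp
    have h1 : (1 : MvPolynomial (Fin 0) ℂ) ∉ p := (Ideal.ne_top_iff_one p).1 hp.ne_top
    refine ⟨1, h1, 0, fun h => h1 (null hp fun x hx => ?_), fun x hx _ => ?_⟩
    · rw [dim_zero.1 h] at hx
      exact hx.elim
    · refine ⟨0, rfl, fun _ => x, ?_, rfl, fun u => ⟨fun _ => Subsingleton.elim _ _, fun _ => hx⟩⟩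
      refine IsOpenEmbedding.of_continuous_injective_isOpenMap continuous_const
        (fun a b _ => Subsingleton.elim a b) fun U _ => isOpen_discrete _
  | succ n ih =>
    intro p hp
    have hq : (p.comap (rename (R := ℂ) (Fin.succ (n := n))).toRingHom).IsPrime :=
      Ideal.comap_isPrime _ p
    obtain ⟨δ, hδ, e, he, hf⟩ := ih _ hq
    rcases elim hp with hc | ⟨δ', hδ', m, hm⟩
    · have hZ : ZI p = {y : Fin (n + 1) → ℂ |
          Fin.tail y ∈ ZI (p.comap (rename (R := ℂ) (Fin.succ (n := n))).toRingHom)} :=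
        Set.ext hc
      refine ⟨rename Fin.succ δ, fun h => hδ (Ideal.mem_comap.2 h), e + 1, fun h => ?_,
        fun x hx h0 => ?_⟩
      · rw [hZ] at h
        exact he (vsmooth_cyl h)
      · rw [vsmooth_eval_rename] at h0
        rw [hZ]
        exact (hf _ ((hc x).1 hx) h0).cyl
    · refine ⟨rename Fin.succ (δ * δ'), fun h => ?_, e, fun h => he (vsmooth_root hp h),
        fun x hx h0 => ?_⟩
      · exact (hq.mem_or_mem (Ideal.mem_comap.2 h)).elim hδ hδ'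
      · rw [vsmooth_eval_rename, map_mul, mul_ne_zero_iff] at h0
        obtain ⟨h1, h2⟩ := hm x h0.2
        have h3 := (hf _ (h1.1 hx).1 h0.1).root (h1.1 hx).2 (h2 hx)
        have hc : Continuous fun y : Fin (n + 1) → ℂ => eval (Fin.tail y) δ' :=
          (MvPolynomial.continuous_eval δ').comp (continuous_pi fun i => continuous_apply i.succ)
        have h4 : ∀ᶠ y in 𝓝 x, eval (Fin.tail y) δ' ≠ 0 :=
          hc.continuousAt.eventually_ne h0.2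
        obtain ⟨k, hk, φ, hφ, hφ0, -, hφ1⟩ :=
          h3.shrink (V' := ZI p) (h4.mono fun y hy => (hm y hy).1) univ_mem
        exact ⟨k, hk, φ, hφ, hφ0, hφ1⟩

end Pool.Agent.PWV
end
end

-- part Pool.Agent.P.MP_65ad7c_ag.VPair
section

open Set Filter Topology Metric

noncomputable section
namespace Pool.Agent.PWV

open MvPolynomial

theorem vpair_eval {σ τ : Type} (G : τ → MvPolynomial σ ℂ) (x : σ → ℂ) (f : MvPolynomial τ ℂ) :
    eval x (aeval G f) = eval (pm G x) f := by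
  induction f using MvPolynomial.induction_on with
  | C a => simp
  | add f g hf hg => simp only [map_add, hf, hg]
  | mul_X f i hf => simp only [map_mul, hf, aeval_X, eval_X, pm]

theorem vpair_cont {σ τ : Type} (G : τ → MvPolynomial σ ℂ) : Continuous (pm G) :=
  continuous_pi fun i => MvPolynomial.continuous_eval (G i)

theorem vpair_mem {σ τ : Type} (G : τ → MvPolynomial σ ℂ) {p : Ideal (MvPolynomial σ ℂ)}
    {x : σ → ℂ} (hx : x ∈ ZI p) : pm G x ∈ ZI (p.comap (aeval G).toRingHom) := fun f hf => by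
  rw [← vpair_eval]
  exact hx _ hf

/-- An irreducible subvariety is generically flat in local coordinates of a larger set. -/
theorem pair {N k : ℕ} (G : Fin k → MvPolynomial (Fin N) ℂ) {p : Ideal (MvPolynomial (Fin N) ℂ)}
    (hp : p.IsPrime) : ∃ δ ∉ p, ∃ e, ¬ Dim (ZI p) e ∧ ∀ x ∈ ZI p, eval x δ ≠ 0 →
      ∀ Y V : Set (Fin N → ℂ), ZI p ⊆ Y → Chart Y G x → (∀ᶠ y in 𝓝 x, y ∈ V ↔ y ∈ ZI p) →
      ∀ U ∈ 𝓝 x, ∃ m, e + m = k ∧ ∃ (χ : (Fin e → ℂ) × (Fin m → ℂ) → Fin N → ℂ)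
        (O : Set (Fin N → ℂ)), IsEmbedding χ ∧ IsOpen O ∧ x ∈ O ∧ O ⊆ U ∧ range χ = Y ∩ O ∧
        ∀ u, χ u ∈ V ↔ u.2 = 0 := by
  have hp2 : (p.comap (aeval (R := ℂ) G).toRingHom).IsPrime := Ideal.comap_isPrime _ p
  obtain ⟨δo, ho, hopen⟩ := proj_open G hp
  obtain ⟨δs, hs, e, he, hflat⟩ := smooth k _ hp2
  refine ⟨δo * aeval G δs, fun h => (hp.mem_or_mem h).elim ho hs, e, fun hd => he ?_, ?_⟩
  · refine (hd.image G).zcl.mono fun y hy f hf => hy f ?_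
    refine null hp fun x hx => ?_
    exact (vpair_eval G x f).trans (hf _ ⟨x, hx, rfl⟩)
  intro x hx hδ Y V hY hch hV U hU
  obtain ⟨O, W, ψ, oO, oW, xW, cψ, hψ, hinv⟩ := hch
  rw [map_mul, vpair_eval] at hδ
  obtain ⟨y0, hy0, rfl⟩ : x ∈ ψ '' O := hψ ▸ ⟨hY hx, xW⟩
  have e0 : pm G (ψ y0) = y0 := hinv y0 hy0
  have nO : O ∈ 𝓝 y0 := oO.mem_nhds hy0
  have cy : ContinuousAt ψ y0 := cψ.continuousAt nO
  have h1 := hopen _ hx (left_ne_zero_of_mul hδ)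
    (image_mem_map (m := pm G) (inter_mem_nhdsWithin (ZI p) (oW.mem_nhds xW)))
  have h2 := hflat _ (vpair_mem G hx) (right_ne_zero_of_mul hδ)
  rw [e0] at h1 h2
  have h3 : ∀ᶠ y in 𝓝 y0, y ∈ {y | ψ y ∈ V} ↔ y ∈ ZI (p.comap (aeval (R := ℂ) G).toRingHom) := by
    filter_upwards [nO, cy.eventually hV, eventually_nhdsWithin_iff.1 h1] with y a b c
    refine b.trans ⟨fun h => hinv y a ▸ vpair_mem G h, fun h => ?_⟩
    obtain ⟨z, hz, rfl⟩ := c h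
    obtain ⟨y', hy', rfl⟩ : z ∈ ψ '' O := hψ ▸ ⟨hY hz.1, hz.2⟩
    rw [hinv y' hy']
    exact hz.1
  obtain ⟨m, hm, φ, oφ, φ0, rφ, hφ⟩ := h2.shrink h3
    (inter_mem nO (cy.preimage_mem_nhds (interior_mem_nhds.2 hU)))
  have r1 : ∀ u, φ u ∈ O := fun u => (rφ ⟨u, rfl⟩).1
  have r2 : pm G ∘ (ψ ∘ φ) = φ := funext fun u => hinv _ (r1 u)
  refine ⟨m, hm, ψ ∘ φ, W ∩ interior U ∩ pm G ⁻¹' range φ, ?_, ?_, ?_, ?_, ?_, hφ⟩
  · refine IsEmbedding.of_comp (cψ.comp_continuous oφ.continuous r1) (vpair_cont G) ?_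
    rw [r2]
    exact oφ.isEmbedding
  · exact (oW.inter isOpen_interior).inter (oφ.isOpen_range.preimage (vpair_cont G))
  · exact ⟨⟨xW, mem_interior_iff_mem_nhds.2 hU⟩, 0, φ0.trans e0.symm⟩
  · exact fun z hz => interior_subset hz.1.2
  · ext z
    constructor
    · rintro ⟨u, rfl⟩
      have : ψ (φ u) ∈ Y ∩ W := hψ.symm ▸ mem_image_of_mem ψ (r1 u)
      exact ⟨this.1, ⟨this.2, (rφ ⟨u, rfl⟩).2⟩, u, (hinv _ (r1 u)).symm⟩
    · rintro ⟨hz, ⟨hW, -⟩, u, hu⟩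
      obtain ⟨y', hy', rfl⟩ : z ∈ ψ '' O := hψ ▸ ⟨hz, hW⟩
      exact ⟨u, congrArg ψ (hu.trans (hinv y' hy'))⟩

end Pool.Agent.PWV
end
end

-- part Pool.Agent.P.MP_65ad7c_ag.YB1
section

open Set Filter Topology Metric

noncomputable section
namespace Pool.Agent.PWV

open MvPolynomial

variable {X : Cx} {n : ℕ} {ι : Type} {Q : ι → FC X (Fin (n + 1) → ℂ)}
  {O : ι → Set (Fin (n + 1) → ℂ)}

theorem ex_ne_YB1 {σ : Type} {h : MvPolynomial σ ℂ} (h0 : h ≠ 0) : ∃ v, eval v h ≠ 0 := by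
  by_contra hc
  push Not at hc
  exact h0 (MvPolynomial.funext fun x => by rw [hc x, map_zero])

theorem ex_dim_YB1 {p : Ideal (MvPolynomial (Fin n) ℂ)} (hp : p.IsPrime) :
    ∃ e, ¬ Dim (ZI p) e ∧ Dim (ZI p) (e + 1) := by
  classical
  have hex : ∃ k, Dim (ZI p) k := ⟨n + 1, (dim_univ n).mono (subset_univ _)⟩
  have h0 : Nat.find hex ≠ 0 := fun h => by
    have h1 := Nat.find_spec hex
    rw [h, dim_zero] at h1
    refine hp.ne_top ((Ideal.eq_top_iff_one p).2 (null hp fun x hx => ?_))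
    rw [h1] at hx
    exact hx.elim
  obtain ⟨e, he⟩ := Nat.exists_eq_succ_of_ne_zero h0
  exact ⟨e, Nat.find_min hex (by omega), by
    have := Nat.find_spec hex
    rwa [he] at this⟩

theorem exists_prj {g : MvPolynomial (Fin (n + 1)) ℂ} (hg : g ≠ 0) : ∃ π : Prj n, π.g = g := by
  obtain ⟨h, h0, hh⟩ := monic_dir hg
  obtain ⟨v, hv⟩ := ex_ne_YB1 h0
  obtain ⟨G, hG, e⟩ := hh v hv
  exact ⟨⟨g, v, G, hG, e⟩, rfl⟩

namespace Prj
variable (π : Prj n)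

theorem mem_H_YB1 (a : Fin n → ℂ) (τ : ℂ) : (a, τ) ∈ π.H ↔ τ ∈ rt π.G a := by
  show ((1 : ℝ) : ℂ) * τ ∈ rt π.G a ↔ _
  rw [Complex.ofReal_one, one_mul]

theorem fin_H (a : Fin n → ℂ) : {τ | (a, τ) ∈ π.H}.Finite := by
  refine (rt_finite π.monic a).subset fun τ h => ?_
  exact (π.mem_H_YB1 a τ).1 h

theorem roots {p : Ideal (MvPolynomial (Fin n) ℂ)} (hp : p.IsPrime) :
    ∃ δ ∉ p, ∀ x ∈ Gen p δ, ∃ W ∈ 𝓝[ZI p] x, Roots π.H W := by
  obtain ⟨δ, hδ, k, hk⟩ := rootp π.monic hp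
  refine ⟨δ, hδ, fun x hx => ?_⟩
  obtain ⟨W, -, hW, r, hr, hr'⟩ :=
    rootc π.monic (W := Gen p δ) (k := k) (fun y hy => hk y hy.1 hy.2) hx
  refine ⟨W, ?_, k, r, hr, fun y hy => ⟨(hr' y hy).1, fun τ => ?_⟩⟩
  · have ho : {y : Fin n → ℂ | eval y δ ≠ 0} ∈ 𝓝 x :=
      (isOpen_ne_fun (MvPolynomial.continuous_eval δ) continuous_const).mem_nhds hx.2
    rw [nhdsWithin_restrict' _ ho]
    exact hW
  · rw [π.mem_H_YB1, (hr' y hy).2]
    exact ⟨fun ⟨i, hi⟩ => ⟨i, hi.symm⟩, fun ⟨i, hi⟩ => ⟨i, hi.symm⟩⟩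

theorem zc_pre {B : Set (Fin n → ℂ)} (hB : ZC B) : ZC (prj π.v ⁻¹' B) := by
  obtain ⟨f, hf⟩ := prj_poly π.v
  have := hB.preimage f
  convert this using 1
  ext x
  rw [mem_preimage, hf]
  rfl

theorem dim_img {A : Set (Fin (n + 1) → ℂ)} {e : ℕ} (h : Dim A e) : Dim (prj π.v '' A) e := by
  obtain ⟨f, hf⟩ := prj_poly π.v
  have := h.image f
  rwa [show (fun x i => eval x (f i)) = prj π.v from (funext hf).symm] at this

theorem dim_pre {B : Set (Fin n → ℂ)} {e : ℕ} (h : Dim B e) : Dim (prj π.v ⁻¹' B ∩ π.Z) e := by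
  obtain ⟨f', hf'⟩ := shear_poly π.v
  refine ((dim_roots π.monic h).image f').mono ?_
  rintro x ⟨h2, h1⟩
  refine ⟨Fin.cons (x 0) (prj π.v x), ⟨?_, ?_⟩, ?_⟩
  · rw [Fin.tail_cons]
    exact h2
  · rw [Fin.tail_cons, Fin.cons_zero, ← π.hg, shear_prj]
    exact h1
  · show (fun i => eval (Fin.cons (x 0) (prj π.v x) : Fin (n + 1) → ℂ) (f' i)) = x
    rw [← hf', Fin.tail_cons, Fin.cons_zero, shear_prj]

theorem dim_cyl {δ : MvPolynomial (Fin n) ℂ} (h : δ ≠ 0) :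
    Dim (prj π.v ⁻¹' {x | eval x δ = 0}) (n + 1) := by
  obtain ⟨f, hf⟩ := prj_poly π.v
  obtain ⟨y, hy⟩ := ex_ne_YB1 h
  have h1 : aeval f δ ≠ 0 := fun h0 => hy (by
    have := vdim_subst (shear π.v y 0) f δ
    rw [h0, map_zero, ← hf, prj_shear] at this
    exact this.symm)
  refine (dim_hyp h1).mono fun x hx => ?_
  show eval x (aeval f δ) = 0
  rw [vdim_subst, ← hf]
  exact hx

theorem dim_Z : Dim π.Z (n + 1) := by
  refine dim_hyp (g := π.g) fun h0 => ?_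
  refine Set.infinite_univ (α := ℂ) ((rt_finite π.monic 0).subset fun t _ => ?_)
  rw [← π.hg, h0, map_zero]

theorem pre_prj (B : Set (Fin n → ℂ)) : π.φ ⁻¹' (prj π.v ⁻¹' B) = B ×ˢ univ := by
  ext p
  simp only [mem_preimage, π.prj_φ, mem_prod, mem_univ, and_true]

theorem open_dnO (hO : ∀ i, IsOpen (O i)) (j : ι × Dsc) : IsOpen (π.dnO O j) := by
  exact nice_open ((hO j.1).preimage π.hφ.continuous) π.closed_H _ _

/-- Direct images are constructible. -/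
theorem cf_dn (h : CF Q O) (p0 : ∀ i, (Q i).PC (O i \ π.Z)) : CF (π.dn Q) (π.dnO O) := by
  intro p hp
  obtain ⟨e, he, hd⟩ := ex_dim_YB1 hp
  obtain ⟨W, h1, h2, -, h4⟩ := FC.vpre_core π.monic π.hg (fun _ => 1) (zc_ZI p) hd
  obtain ⟨V4, -, d4, p4⟩ := h.dim h1 h2
  obtain ⟨V', z', d', s'⟩ := h4 V4 d4
  obtain ⟨δ1, hδ1, e1⟩ := z'.exists_not_mem (p := p) fun hs => he (d'.mono hs)
  obtain ⟨δ2, hδ2, e2⟩ := π.roots hp
  refine ⟨δ1 * δ2, fun hm => (hp.mem_or_mem hm).elim hδ1 hδ2, ?_⟩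
  rintro ⟨i, c, ρ, hρ⟩
  rw [gen_mul]
  refine FC.pc_local fun y hy => ?_
  obtain ⟨W0, hW0, hr⟩ := e2 y hy.1.2
  obtain ⟨W', hW', Φ, P, hS⟩ := exists_str (zc_ZI p).isClosed hy.1.1.1 hW0 hr hρ hy.2.2
  refine ⟨W' ∩ (Gen p δ1 ∩ Gen p δ2 ∩ π.dnO O (i, c, ⟨ρ, hρ⟩)),
    inter_mem (nhdsWithin_mono _ (fun z hz => hz.1.1.1) hW') self_mem_nhdsWithin, ?_⟩
  refine FC.ta_str (hS.mono inter_subset_left) ?_ ?_
  · refine ((π.tr_up (Q i)).pc π.hφ.isEmbedding _).2 ((p0 i).mono ?_)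
    rintro _ ⟨q, ⟨⟨hq1, hq2⟩, hq3⟩, rfl⟩
    exact ⟨hq1.2.2.1 q.2 hq2, fun hz => hq3 ((π.mem_H q).2 hz)⟩
  · refine ((π.tr_up (Q i)).pc π.hφ.isEmbedding _).2 ((p4 i).mono ?_)
    rintro _ ⟨q, ⟨⟨hq1, hq2⟩, hq3⟩, rfl⟩
    refine ⟨s' ⟨q, ⟨hq3, ⟨hq1.2.1.1.1, fun hv => hq1.2.1.1.2 (e1 _ hv)⟩, trivial⟩, rfl⟩, ?_⟩
    exact hq1.2.2.1 q.2 hq2

/-- Descent of constructibility. -/
theorem cf_desc (hO : ∀ i, IsOpen (O i))
    (h0 : ∀ p : Ideal (MvPolynomial (Fin n) ℂ), p.IsPrime → ∃ δ ∉ p, ∀ i,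
      (π.up (Q i)).PC (Gen p δ ×ˢ univ ∩ (π.φ ⁻¹' O i \ π.H)))
    (h1 : CF (π.dn Q) (π.dnO O)) : CF Q O := by
  intro p hp
  obtain ⟨f, hf⟩ := prj_poly π.v
  have hp' : (p.comap (aeval f : MvPolynomial (Fin n) ℂ →ₐ[ℂ] _).toRingHom).IsPrime :=
    Ideal.comap_isPrime _ _
  set p' := p.comap (aeval f : MvPolynomial (Fin n) ℂ →ₐ[ℂ] _).toRingHom with hp'd
  have hgen : ∀ (δ : MvPolynomial (Fin n) ℂ) (q : (Fin n → ℂ) × ℂ),
      π.φ q ∈ Gen p (aeval f δ) → q.1 ∈ Gen p' δ := by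
    intro δ q hq
    have e0 : pm f (π.φ q) = q.1 := (hf _).symm.trans (π.prj_φ q)
    refine ⟨e0 ▸ vpair_mem f hq.1, ?_⟩
    have := hq.2
    rw [mem_ofPred_eq, vpair_eval, e0] at this
    exact this
  obtain ⟨δ0, hδ0, e0⟩ := h0 p' hp'
  by_cases hg : π.g ∈ p
  · obtain ⟨δ1, hδ1, e1⟩ := h1 p' hp'
    obtain ⟨δ2, hδ2, e2⟩ := π.roots hp'
    have hδ : δ0 * δ1 * δ2 ∉ p' := fun hm =>
      (hp'.mem_or_mem hm).elim (fun hm => (hp'.mem_or_mem hm).elim hδ0 hδ1) hδ2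
    refine ⟨aeval f (δ0 * δ1 * δ2), hδ, fun i => ?_⟩
    have hU : IsOpen (π.φ ⁻¹' O i) := (hO i).preimage π.hφ.continuous
    have key : (π.up (Q i)).PC (Gen p' (δ0 * δ1 * δ2) ×ˢ univ ∩ π.H ∩ π.φ ⁻¹' O i) := by
      rw [gen_mul, gen_mul]
      refine FC.pc_local ?_
      rintro ⟨a, t⟩ ⟨⟨⟨ha, -⟩, -⟩, hat⟩
      obtain ⟨s, hs, hN, -⟩ := nice_small hU hat (π.fin_H a)
      obtain ⟨W0, hW0, hr⟩ := e2 a ha.2
      obtain ⟨W', hW', Φ, P, hS⟩ := exists_str (zc_ZI p').isClosed ha.2.1 hW0 hr hs hN.2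
      refine ⟨(W' ∩ (Gen p' δ0 ∩ Gen p' δ1 ∩ Gen p' δ2 ∩ Nice (π.φ ⁻¹' O i) π.H t s)) ×ˢ
        closedBall t s ∩ π.H, ?_, FC.fd_str (hS.mono inter_subset_left) ?_ ?_⟩
      · have t1 : Tendsto Prod.fst (𝓝[(Gen p' δ0 ∩ Gen p' δ1 ∩ Gen p' δ2) ×ˢ univ ∩ π.H ∩
            π.φ ⁻¹' O i] (a, t)) (𝓝[ZI p'] a) :=
          (continuous_fst.continuousWithinAt (x := (a, t))).tendsto_nhdsWithin
            fun q hq => hq.1.1.1.2.1
        have t2 : ∀ᶠ q in 𝓝 (a, t), q.1 ∈ Nice (π.φ ⁻¹' O i) π.H t s :=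
          (continuous_fst.tendsto (a, t)).eventually
            ((nice_open hU π.closed_H t s).mem_nhds hN)
        have t3 : ∀ᶠ q in 𝓝 (a, t), q.2 ∈ closedBall t s :=
          (continuous_snd.tendsto (a, t)).eventually (closedBall_mem_nhds t hs)
        filter_upwards [t1.eventually hW', nhdsWithin_le_nhds t2, nhdsWithin_le_nhds t3,
          self_mem_nhdsWithin] with q q1 q2 q3 q4
        exact ⟨⟨⟨q1, q4.1.1.1, q2⟩, q3⟩, q4.1.2⟩
      · refine (e0 i).mono ?_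
        rintro q ⟨⟨q1, q2⟩, q3⟩
        exact ⟨⟨q1.2.1.1.1, trivial⟩, q1.2.2.1 q.2 q2, q3⟩
      · exact (e1 (i, t, ⟨s, hs⟩)).mono fun q hq => ⟨hq.2.1.1.2, hq.2.2⟩
    refine (((π.tr_up (Q i)).pc π.hφ.isEmbedding _).1 key).mono fun x hx => ?_
    obtain ⟨q, rfl⟩ := π.hφ.surjective x
    exact ⟨q, ⟨⟨⟨hgen _ q hx.1, trivial⟩, (π.mem_H q).2 (hx.1.1 _ hg)⟩, hx.2⟩, rfl⟩
  · refine ⟨aeval f δ0 * π.g, fun hm => (hp.mem_or_mem hm).elim hδ0 hg, fun i => ?_⟩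
    rw [gen_mul']
    refine (((π.tr_up (Q i)).pc π.hφ.isEmbedding _).1 (e0 i)).mono fun x hx => ?_
    obtain ⟨q, rfl⟩ := π.hφ.surjective x
    exact ⟨q, ⟨⟨hgen _ q hx.1.1, trivial⟩, hx.2, fun hq => hx.1.2 ((π.mem_H q).1 hq)⟩, rfl⟩

end Prj

end Pool.Agent.PWV
end
end

-- part Pool.Agent.P.MP_65ad7c_ag.XK1
section

open Set Filter Topology MvPolynomial

noncomputable section
namespace Pool.Agent.PWV

theorem Chart.congr {σ : Type} {k : ℕ} {V V' : Set (σ → ℂ)} {G : Fin k → MvPolynomial σ ℂ}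
    {x : σ → ℂ} (h : Chart V G x) (e : ∀ᶠ y in 𝓝 x, y ∈ V ↔ y ∈ V') : Chart V' G x := by
  obtain ⟨O, N, ψ, hO, hN, hx, hψ, h1, h2⟩ := h
  obtain ⟨W, hW, hWo, hxW⟩ := eventually_nhds_iff.1 e
  refine ⟨O ∩ ψ ⁻¹' W, N ∩ W, ψ, hψ.isOpen_inter_preimage hO hWo, hN.inter hWo, ⟨hx, hxW⟩,
    hψ.mono inter_subset_left, ?_, fun y hy => h2 y hy.1⟩
  ext y
  constructor
  · rintro ⟨a, b, c⟩
    obtain ⟨u, hu, rfl⟩ := h1.le ⟨(hW y c).2 a, b⟩
    exact ⟨u, ⟨hu, c⟩, rfl⟩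
  · rintro ⟨u, ⟨hu, c⟩, rfl⟩
    have h3 := h1.ge ⟨u, hu, rfl⟩
    exact ⟨(hW _ c).1 h3.1, h3.2, c⟩

theorem tail_cont_XK1 (n : ℕ) : Continuous fun y : Fin (n + 1) → ℂ => Fin.tail y :=
  continuous_pi fun i => continuous_apply i.succ

theorem Chart.cyl_XK1 {n e : ℕ} {V : Set (Fin n → ℂ)} {ι : Fin e → Fin n} {x : Fin (n + 1) → ℂ}
    (h : Chart V (fun i => X (ι i)) (Fin.tail x)) :
    Chart {y : Fin (n + 1) → ℂ | Fin.tail y ∈ V}
      (fun i => X ((Fin.cons 0 fun j => (ι j).succ : Fin (e + 1) → Fin (n + 1)) i)) x := by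
  obtain ⟨O, N, ψ, hO, hN, hx, hψ, h1, h2⟩ := h
  refine ⟨{z | Fin.tail z ∈ O}, {y | Fin.tail y ∈ N}, fun z => Fin.cons (z 0) (ψ (Fin.tail z)),
    hO.preimage (tail_cont_XK1 e), hN.preimage (tail_cont_XK1 n), hx, ?_, ?_, fun z hz => ?_⟩
  · refine continuousOn_pi.2 fun i => ?_
    refine Fin.cases ?_ (fun j => ?_) i
    · exact (continuous_apply 0).continuousOn
    · exact (continuous_apply j).comp_continuousOn
        (hψ.comp (tail_cont_XK1 e).continuousOn fun z hz => hz)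
  · ext y
    constructor
    · rintro ⟨a, b⟩
      obtain ⟨u, hu, e1⟩ := h1.le ⟨a, b⟩
      refine ⟨Fin.cons (y 0) u, by simpa using hu, ?_⟩
      simp only [Fin.cons_zero, Fin.tail_cons, e1, Fin.cons_self_tail]
    · rintro ⟨z, hz, rfl⟩
      exact h1.ge ⟨_, hz, rfl⟩
  · funext i
    refine Fin.cases ?_ (fun j => ?_) i
    · simp [pm]
    · have h3 := congrFun (h2 _ hz) j
      simp only [pm, eval_X] at h3
      simp only [pm, eval_X, Fin.cons_succ]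
      exact h3

theorem Chart.root_XK1 {n e : ℕ} {V : Set (Fin n → ℂ)} {ι : Fin e → Fin n} {x : Fin (n + 1) → ℂ}
    (h : Chart V (fun i => X (ι i)) (Fin.tail x)) {m : MvPolynomial (Fin (n + 1)) ℂ}
    (hm : eval x (pderiv 0 m) ≠ 0) :
    Chart {y : Fin (n + 1) → ℂ | Fin.tail y ∈ V ∧ eval y m = 0} (fun i => X (ι i).succ) x := by
  obtain ⟨O, N, ψ, hO, hN, hx, hψ, h1, h2⟩ := h
  obtain ⟨E, hxE, hE⟩ := ift m hm
  have hc : ContinuousOn (fun u => (ψ u, (0 : ℂ))) O := hψ.prodMk continuousOn_const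
  have key : ∀ u, (ψ u, (0 : ℂ)) ∈ E.target →
      Fin.tail (E.symm (ψ u, 0)) = ψ u ∧ eval (E.symm (ψ u, 0)) m = 0 := fun u hu => by
    have h3 := E.right_inv hu
    rw [hE] at h3
    exact Prod.ext_iff.1 h3
  refine ⟨O ∩ (fun u => (ψ u, (0 : ℂ))) ⁻¹' E.target, E.source ∩ {y | Fin.tail y ∈ N},
    fun u => E.symm (ψ u, 0), hc.isOpen_inter_preimage hO E.open_target,
    E.open_source.inter (hN.preimage (tail_cont_XK1 n)), ⟨hxE, hx⟩,
    E.continuousOn_symm.comp (hc.mono inter_subset_left) fun u hu => hu.2, ?_, fun u hu => ?_⟩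
  · ext y
    constructor
    · rintro ⟨⟨a, b⟩, c, d⟩
      obtain ⟨u, hu, e1⟩ := h1.le ⟨a, d⟩
      have e2 : E y = (ψ u, 0) := by rw [hE, e1, b]
      refine ⟨u, ⟨hu, ?_⟩, ?_⟩
      · change (ψ u, (0 : ℂ)) ∈ E.target
        rw [← e2]
        exact E.map_source c
      · change E.symm (ψ u, 0) = y
        rw [← e2]
        exact E.left_inv c
    · rintro ⟨u, ⟨hu, c⟩, rfl⟩
      have h3 := h1.ge ⟨u, hu, rfl⟩
      obtain ⟨k1, k2⟩ := key u c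
      refine ⟨⟨?_, k2⟩, E.map_target c, ?_⟩
      · rw [k1]
        exact h3.1
      · change Fin.tail (E.symm (ψ u, 0)) ∈ N
        rw [k1]
        exact h3.2
  · funext i
    have h3 := congrFun (h2 _ hu.1) i
    have h4 := congrFun (key u hu.2).1 (ι i)
    simp only [pm, eval_X] at h3 ⊢
    exact h4.trans h3

theorem trdeg_le_XK1 {S T : Type} [CommRing S] [CommRing T] [IsDomain S] [IsDomain T] [Algebra ℂ S]
    [Algebra ℂ T] (φ : S →ₐ[ℂ] T) (hφ : Function.Injective φ) (t : T)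
    (hgen : ∀ Z : T → Prop, (∀ s, Z (φ s)) → Z t → (∀ a b, Z a → Z b → Z (a + b)) →
      (∀ a b, Z a → Z b → Z (a * b)) → ∀ a, Z a) :
    Algebra.trdeg ℂ T ≤ Algebra.trdeg ℂ S + 1 := by
  let : Algebra S T := (φ : S →+* T).toAlgebra
  have : IsScalarTower ℂ S T := IsScalarTower.of_algebraMap_eq fun a => (φ.commutes a).symm
  have : FaithfulSMul S T := (faithfulSMul_iff_algebraMap_injective S T).2 hφ
  have hs : Function.Surjective (Polynomial.aeval t : Polynomial S →ₐ[S] T) :=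
    hgen (fun a => ∃ P, Polynomial.aeval t P = a) (fun s => ⟨Polynomial.C s, Polynomial.aeval_C _ _⟩)
      ⟨Polynomial.X, Polynomial.aeval_X _⟩
      (by rintro _ _ ⟨P, rfl⟩ ⟨Q, rfl⟩; exact ⟨P + Q, map_add _ _ _⟩)
      (by rintro _ _ ⟨P, rfl⟩ ⟨Q, rfl⟩; exact ⟨P * Q, map_mul _ _ _⟩)
  have h1 := trdeg_le_of_surjective _ hs
  rw [Polynomial.trdeg_of_isDomain] at h1
  rw [← trdeg_add_eq ℂ S (A := T)]
  exact add_le_add le_rfl h1

theorem dim_XK1 {n : ℕ} {q : Ideal (MvPolynomial (Fin (n + 1)) ℂ)} (hq : q.IsPrime) {k : ℕ}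
    (h : Dim (ZI (q.comap
      (rename Fin.succ : MvPolynomial (Fin n) ℂ →ₐ[ℂ] MvPolynomial (Fin (n + 1)) ℂ))) k) :
    Dim (ZI q) (k + 1) ∧ ∀ m ∈ q, pderiv 0 m ∉ q → Dim (ZI q) k := by
  have := hq
  set ρ : MvPolynomial (Fin n) ℂ →ₐ[ℂ] MvPolynomial (Fin (n + 1)) ℂ := rename Fin.succ with hρ
  have hp : (q.comap ρ).IsPrime := Ideal.comap_isPrime ρ q
  rw [dim_iff_trdeg hp] at h
  have hφ : ∀ f, Ideal.quotientMapₐ q ρ le_rfl (Ideal.Quotient.mk (q.comap ρ) f) =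
      Ideal.Quotient.mk q (ρ f) := fun f => rfl
  have hi : Function.Injective (Ideal.quotientMapₐ q ρ le_rfl) := by
    refine (injective_iff_map_eq_zero _).2 fun a ha => ?_
    obtain ⟨f, rfl⟩ := Ideal.Quotient.mk_surjective a
    rw [hφ, Ideal.Quotient.eq_zero_iff_mem] at ha
    exact Ideal.Quotient.eq_zero_iff_mem.2 ha
  have hg : ∀ Z : MvPolynomial (Fin (n + 1)) ℂ ⧸ q → Prop,
      (∀ s, Z (Ideal.quotientMapₐ q ρ le_rfl s)) → Z (Ideal.Quotient.mk q (X 0)) →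
      (∀ a b, Z a → Z b → Z (a + b)) → (∀ a b, Z a → Z b → Z (a * b)) → ∀ a, Z a := by
    intro Z z1 z2 z3 z4 a
    obtain ⟨f, rfl⟩ := Ideal.Quotient.mk_surjective a
    induction f using MvPolynomial.induction_on with
    | C c =>
      have h3 := z1 (Ideal.Quotient.mk _ (C c))
      rwa [hφ, hρ, rename_C] at h3
    | add P Q hP hQ =>
      rw [map_add]
      exact z3 _ _ hP hQ
    | mul_X P i hP =>
      rw [map_mul]
      refine z4 _ _ hP (Fin.cases z2 (fun j => ?_) i)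
      have h3 := z1 (Ideal.Quotient.mk _ (X j))
      rwa [hφ, hρ, rename_X] at h3
  refine ⟨?_, fun m hm hm' => ?_⟩
  · rw [dim_iff_trdeg hq]
    refine (trdeg_le_XK1 _ hi _ hg).trans_lt ?_
    obtain ⟨j, hj⟩ := Cardinal.lt_aleph0.1 (h.trans (Cardinal.natCast_lt_aleph0))
    rw [hj] at h ⊢
    have h' : j < k := by exact_mod_cast h
    exact_mod_cast Nat.succ_lt_succ h'
  · rw [dim_iff_trdeg hq, vint_trdeg _ hi (Ideal.Quotient.mk q (X 0))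
      ((finSuccEquiv ℂ n m).map (Ideal.Quotient.mk (q.comap ρ))) ?_ ?_ hg]
    · exact h
    · intro h0
      refine hm' (velim_mem fun i => ?_)
      have h3 := congrArg (fun P => Polynomial.coeff (Polynomial.derivative P) i) h0
      simp only [Polynomial.derivative_map, Polynomial.coeff_map, Polynomial.derivative_zero,
        Polynomial.coeff_zero] at h3
      rw [velim_pderiv]
      have h4 := Ideal.Quotient.eq_zero_iff_mem.1 h3
      exact h4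
    · have h2 : (finSuccEquiv ℂ n m).eval₂ (ρ : MvPolynomial (Fin n) ℂ →+* _) (X 0) ∈ q := by
        refine null hq fun x hx => ?_
        rw [vint_eval₂, ← eval_eq_eval_mv_eval', Fin.cons_self_tail]
        exact hx m hm
      rw [Polynomial.eval₂_map, ← Ideal.Quotient.eq_zero_iff_mem.2 h2, Polynomial.hom_eval₂]
      rfl

/-- generically, some of the coordinates are local coordinates -/
theorem gchart (n : ℕ) : ∀ p : Ideal (MvPolynomial (Fin n) ℂ), p.IsPrime →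
    ∃ δ ∉ p, ∃ (e : ℕ) (ι : Fin e → Fin n), ¬ Dim (ZI p) e ∧ Dim (ZI p) (e + 1) ∧
      ∀ x ∈ ZI p, eval x δ ≠ 0 → Chart (ZI p) (fun i => X (ι i)) x := by
  induction n with
  | zero =>
    intro p hp
    have h1 : (1 : MvPolynomial (Fin 0) ℂ) ∉ p := (Ideal.ne_top_iff_one p).1 hp.ne_top
    refine ⟨1, h1, 0, id, fun h => h1 (null hp fun x hx => ?_), (dim_univ 0).mono (subset_univ _),
      fun x hx _ => ?_⟩
    · rw [dim_zero.1 h] at hx
      exact hx.elim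
    · refine ⟨univ, univ, fun _ => x, isOpen_univ, isOpen_univ, trivial, continuousOn_const, ?_,
        fun y _ => Subsingleton.elim _ _⟩
      ext y
      exact ⟨fun _ => ⟨x, trivial, Subsingleton.elim _ _⟩, fun ⟨_, _, e⟩ => ⟨e ▸ hx, trivial⟩⟩
  | succ n ih =>
    intro p hp
    have hq : (p.comap (rename (R := ℂ) (Fin.succ (n := n))).toRingHom).IsPrime :=
      Ideal.comap_isPrime _ p
    obtain ⟨δ, hδ, e, ι, he, he', hf⟩ := ih _ hq
    obtain ⟨d1, d2⟩ := dim_XK1 hp he'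
    rcases elim hp with hc | ⟨δ', hδ', m, hm⟩
    · have hZ : ZI p = {y : Fin (n + 1) → ℂ |
          Fin.tail y ∈ ZI (p.comap (rename (R := ℂ) (Fin.succ (n := n))).toRingHom)} :=
        Set.ext hc
      refine ⟨rename Fin.succ δ, fun h => hδ (Ideal.mem_comap.2 h), e + 1,
        Fin.cons 0 fun j => (ι j).succ, fun h => ?_, d1, fun x hx h0 => ?_⟩
      · rw [hZ] at h
        exact he (vsmooth_cyl h)
      · rw [vsmooth_eval_rename] at h0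
        rw [hZ]
        exact (hf _ ((hc x).1 hx) h0).cyl_XK1
    · have hδ'' : rename Fin.succ δ' ∉ p := fun h => hδ' (Ideal.mem_comap.2 h)
      refine ⟨rename Fin.succ (δ * δ'), fun h => ?_, e, fun i => (ι i).succ,
        fun h => he (vsmooth_root hp h), d2 m ?_ fun h => ?_, fun x hx h0 => ?_⟩
      · exact (hq.mem_or_mem (Ideal.mem_comap.2 h)).elim hδ hδ'
      · refine (hp.mem_or_mem (null hp (f := rename Fin.succ δ' * m) fun x hx => ?_)).resolve_left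
          hδ''
        rw [map_mul, vsmooth_eval_rename]
        by_cases h0 : eval (Fin.tail x) δ' = 0
        · rw [h0, zero_mul]
        · rw [((hm x h0).1.1 hx).2, mul_zero]
      · refine hδ'' (null hp fun x hx => ?_)
        rw [vsmooth_eval_rename]
        by_contra h0
        exact (hm x h0).2 hx (hx _ h)
      · rw [vsmooth_eval_rename, map_mul, mul_ne_zero_iff] at h0
        obtain ⟨h1, h2⟩ := hm x h0.2
        have h3 := (hf _ (h1.1 hx).1 h0.1).root_XK1 (h2 hx)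
        have hc : Continuous fun y : Fin (n + 1) → ℂ => eval (Fin.tail y) δ' :=
          (MvPolynomial.continuous_eval δ').comp (tail_cont_XK1 n)
        have h4 : ∀ᶠ y in 𝓝 x, eval (Fin.tail y) δ' ≠ 0 :=
          hc.continuousAt.eventually_ne h0.2
        exact h3.congr (h4.mono fun y hy => (hm y hy).1.symm)

end Pool.Agent.PWV
end
end

-- part Pool.Agent.P.MP_65ad7c_ag.YA5
section

open Set Filter Topology Metric

noncomputable section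
namespace Pool.Agent.PWV

variable {X : Cx} {E T : Type} [MetricSpace E] [MetricSpace T] {N : ℕ}

theorem Mf.inter {S O : Set T} (h : Mf S) (hO : IsOpen O) : Mf (S ∩ O) := by
  intro x hx U hU
  obtain ⟨k, χ, h1, h2, h3, h4⟩ := h x hx.1 (U ∩ O) (inter_mem hU (hO.mem_nhds hx.2))
  exact ⟨k, χ, h1, h2, fun y hy => ⟨⟨(h3 hy).1, (h3 hy).2.2⟩, (h3 hy).2.1⟩,
    nhdsWithin_mono _ inter_subset_left h4⟩

theorem mf_of_chart {V V' : Set (Fin N → ℂ)} (hV : IsClosed V')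
    (h : ∀ x ∈ V \ V', ∃ (k : ℕ) (G : Fin k → MvPolynomial (Fin N) ℂ), Chart V G x) :
    Mf (V \ V') := by
  intro x hx U hU
  obtain ⟨k, G, O, M, ψ, hO, hM, hxM, hψ, h1, h2⟩ := h x hx
  obtain ⟨y0, hy0, rfl⟩ := h1.le ⟨hx.1, hxM⟩
  have hc : ContinuousAt ψ y0 := hψ.continuousAt (hO.mem_nhds hy0)
  have hn : O ∩ ψ ⁻¹' (U ∩ V'ᶜ) ∈ 𝓝 y0 :=
    inter_mem (hO.mem_nhds hy0) (hc (inter_mem hU (hV.isOpen_compl.mem_nhds hx.2)))
  obtain ⟨r, hr, hb⟩ := Metric.mem_nhds_iff.1 hn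
  let β := OpenPartialHomeomorph.univBall y0 r
  have hs : β.source = univ := OpenPartialHomeomorph.univBall_source y0 r
  have ht : β.target = ball y0 r := OpenPartialHomeomorph.univBall_target y0 hr
  have hβ : IsOpenEmbedding β := β.isOpenEmbedding hs
  have hm : ∀ u, β u ∈ ball y0 r := fun u => ht ▸ β.map_source (hs ▸ mem_univ u)
  have hG : Continuous (pm G : (Fin N → ℂ) → Fin k → ℂ) :=
    continuous_pi fun i => MvPolynomial.continuous_eval (G i)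
  have hχ : Continuous (ψ ∘ β) := hψ.comp_continuous hβ.continuous fun u => (hb (hm u)).1
  have he : pm G ∘ (ψ ∘ β) = β := funext fun u => h2 _ (hb (hm u)).1
  refine ⟨k, ψ ∘ β, IsEmbedding.of_comp hχ hG (he.symm ▸ hβ.isEmbedding), ?_, ?_, ?_⟩
  · show ψ (β 0) = ψ y0
    rw [show β 0 = y0 from OpenPartialHomeomorph.univBall_apply_zero y0 r]
  · rintro _ ⟨u, rfl⟩
    have h3 := hb (hm u)
    exact ⟨⟨(h1.ge ⟨_, h3.1, rfl⟩).1, h3.2.2⟩, h3.2.1⟩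
  · refine mem_nhdsWithin.2 ⟨M ∩ pm G ⁻¹' ball y0 r, hM.inter (isOpen_ball.preimage hG),
      ⟨hxM, by rw [mem_preimage, h2 _ hy0]; exact mem_ball_self hr⟩, ?_⟩
    rintro z ⟨⟨z1, z2⟩, z3⟩
    obtain ⟨y, hy, rfl⟩ := h1.le ⟨z3.1, z1⟩
    rw [mem_preimage, h2 _ hy, ← ht] at z2
    exact ⟨β.symm y, congrArg ψ (β.right_inv z2)⟩

theorem gen_mf {p : Ideal (MvPolynomial (Fin N) ℂ)} (hp : p.IsPrime) : ∃ δ ∉ p, Mf (Gen p δ) := by
  obtain ⟨δ, hδ, e, s, -, -, h⟩ := gchart N p hp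
  refine ⟨δ, hδ, ?_⟩
  exact mf_of_chart (V := ZI p) (V' := {x | MvPolynomial.eval x δ = 0})
    (isClosed_eq (MvPolynomial.continuous_eval δ) continuous_const)
    fun x hx => ⟨e, _, h x hx.1 hx.2⟩

theorem gen_chart {V : Set (Fin N → ℂ)} {e : ℕ} (hV : ZC V) (hd : Dim V (e + 1)) :
    ∃ V', ZC V' ∧ Dim V' e ∧ ∀ x ∈ V \ V',
      ∃ s : Fin e → Fin N, Chart V (fun i => MvPolynomial.X (s i)) x := by
  have h0 : ∀ p : Ideal (MvPolynomial (Fin N) ℂ), ∃ δ : MvPolynomial (Fin N) ℂ, p.IsPrime →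
      δ ∉ p ∧ ∃ (e : ℕ) (s : Fin e → Fin N), ¬ Dim (ZI p) e ∧ Dim (ZI p) (e + 1) ∧
        ∀ x ∈ ZI p, MvPolynomial.eval x δ ≠ 0 →
          Chart (ZI p) (fun i => MvPolynomial.X (s i)) x := fun p => by
    by_cases hp : p.IsPrime
    · obtain ⟨δ, h⟩ := gchart N p hp
      exact ⟨δ, fun _ => h⟩
    · exact ⟨0, fun h => (hp h).elim⟩
  choose δ hδ using h0
  obtain ⟨V', h1, h2, h3⟩ := comp hV hd δ fun p hp => (hδ p hp).1
  refine ⟨V', h1, h2, fun x hx => ?_⟩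
  obtain ⟨p, hp, a1, a2, a3, a4, a5⟩ := h3 x hx
  obtain ⟨-, e', s, b1, b2, b3⟩ := hδ p hp
  have he : e' = e := by
    by_contra hne
    rcases Nat.lt_or_gt_of_ne hne with hl | hl
    · exact a2 (b2.mono_nat hl)
    · exact b1 ((hd.mono a1).mono_nat hl)
  subst he
  exact ⟨s, (b3 x a3 a4).congr (a5.mono fun y hy => ⟨fun h => a1 h, hy⟩)⟩

theorem ball_nhds_YA5 {k : ℕ} {χ : (Fin k → ℂ) → T} {S : Set T} {x : T} (h1 : IsEmbedding χ)
    (h2 : χ 0 = x) (h4 : range χ ∈ 𝓝[S] x) : χ '' closedBall 0 1 ∈ 𝓝[S] x := by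
  subst h2
  exact nhdsWithin_le_of_mem h4
    (h1.isInducing.image_mem_nhdsWithin (closedBall_mem_nhds 0 one_pos))

namespace FC

theorem acyc_chart (Q : FC X T) {k : ℕ} {χ : (Fin k → ℂ) → T} (hχ : IsEmbedding χ)
    (h : Q.PC (range χ)) {y : T} (hy : y ∈ χ '' closedBall 0 1) :
    Q.Acyc (χ '' closedBall 0 1) {y} := by
  obtain ⟨u, hu, rfl⟩ := hy
  have ht := tr_comap Q hχ.isInducing
  have h1 : (Q.comap χ hχ.isInducing).PC univ := (ht.pc hχ univ).2 (by rwa [image_univ])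
  have h2 := star (Q.comap χ hχ.isInducing) (isCompact_closedBall 0 1) hu
    ((convex_closedBall 0 1).starConvex hu) (h1.mono (subset_univ _))
  have h3 := (ht.acyc (singleton_subset_iff.2 hu)).1 h2
  rwa [image_singleton] at h3

/-- Horizontal and vertical constancy give constancy. -/
theorem box (R : FC X (E × ℂ)) {S : Set E} (hS : Mf S) {U : Set (E × ℂ)} (hU : IsOpen U)
    (hor : ∀ τ : ℂ, R.PC (S ×ˢ {τ} ∩ U))
    (ver : ∀ a ∈ S, ∀ K : Set ℂ, IsCompact K → Convex ℝ K → {a} ×ˢ K ⊆ U → ∀ τ ∈ K,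
      R.Acyc ({a} ×ˢ K) {(a, τ)}) : R.PC (S ×ˢ univ ∩ U) := by
  refine pc_local ?_
  rintro ⟨a, τ0⟩ ⟨⟨ha, -⟩, hy⟩
  obtain ⟨U1, hU1, U2, hU2, h12⟩ := mem_nhds_prod_iff.1 (hU.mem_nhds hy)
  obtain ⟨ε, hε, hb⟩ := Metric.nhds_basis_closedBall.mem_iff.1 hU2
  obtain ⟨k, χ, h1, h2, h3, h4⟩ := hS a ha U1 hU1
  have hB := ball_nhds_YA5 h1 h2 h4
  have hin : ∀ u, ∀ t ∈ closedBall τ0 ε, (χ u, t) ∈ U := fun u t ht =>
    h12 ⟨(h3 ⟨u, rfl⟩).2, hb ht⟩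
  refine ⟨(χ '' closedBall 0 1) ×ˢ closedBall τ0 ε, ?_, pc_of_acyc ?_⟩
  · refine nhdsWithin_mono _ inter_subset_left ?_
    exact nhdsWithin_prod hB (nhdsWithin_le_nhds (closedBall_mem_nhds τ0 hε))
  · rintro ⟨b, t⟩ ⟨⟨u, hu, rfl⟩, ht⟩
    have hsub : ({χ u} : Set E) ×ˢ closedBall τ0 ε ⊆ (χ '' closedBall 0 1) ×ˢ closedBall τ0 ε :=
      prod_mono (singleton_subset_iff.2 ⟨u, hu, rfl⟩) subset_rfl
    refine Acyc.mid hsub (singleton_subset_iff.2 ⟨rfl, ht⟩) (fun n => ?_)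
      (ver _ (h3 ⟨u, rfl⟩).1 _ (isCompact_closedBall τ0 ε) (convex_closedBall τ0 ε) ?_ t ht)
    · refine lg R (((isCompact_closedBall 0 1).image h1.continuous).prod
        (isCompact_closedBall τ0 ε)) (isClosed_singleton.prod isClosed_closedBall) hsub
        Prod.snd continuous_snd.continuousOn n fun s i _ => ?_
      by_cases hs : s ∈ closedBall τ0 ε
      · have he : IsEmbedding fun w => (χ w, s) := (isEmbedding_prodMkLeft s).comp h1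
        have h5 := acyc_chart R he ((hor s).mono (by
          rintro _ ⟨w, rfl⟩
          exact ⟨⟨(h3 ⟨w, rfl⟩).1, rfl⟩, hin w s hs⟩)) (y := (χ u, s)) ⟨u, hu, rfl⟩ i
        have e1 : (χ '' closedBall 0 1) ×ˢ closedBall τ0 ε ∩ Prod.snd ⁻¹' {s} =
            (fun w => (χ w, s)) '' closedBall 0 1 := by
          ext ⟨c, s'⟩
          constructor
          · rintro ⟨⟨⟨w, hw, rfl⟩, -⟩, rfl⟩
            exact ⟨w, hw, rfl⟩
          · rintro ⟨w, hw, e⟩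
            cases e
            exact ⟨⟨⟨w, hw, rfl⟩, hs⟩, rfl⟩
        have e2 : ({χ u} : Set E) ×ˢ closedBall τ0 ε ∩ Prod.snd ⁻¹' {s} = {(χ u, s)} := by
          ext ⟨c, s'⟩
          constructor
          · rintro ⟨⟨rfl, -⟩, rfl⟩
            rfl
          · intro e
            cases e
            exact ⟨⟨rfl, hs⟩, rfl⟩
        rw [e1, e2]
        exact h5
      · have e1 : ∀ A : Set E, A ×ˢ closedBall τ0 ε ∩ Prod.snd ⁻¹' {s} = ∅ := fun A =>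
          eq_empty_of_forall_notMem fun z hz => hs (hz.2 ▸ hz.1.2)
        rw [e1, e1]
        exact R.ex_self _ _
    · rintro ⟨c, s⟩ ⟨rfl, hs⟩
      exact hin u s hs

/-- Good neighbourhoods of points give good neighbourhoods along a manifold. -/
theorem la_of_gn (Q : FC X T) {S : Set T} (hS : Mf S) (hP : Q.PC S)
    (h : ∀ x ∈ S, ∃ K ∈ 𝓝 x, Q.Acyc K {x}) : Q.LA S := by
  intro x hx
  obtain ⟨K, hK, hA⟩ := h x hx
  obtain ⟨k, χ, h1, h2, h3, h4⟩ := hS x hx K hK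
  obtain ⟨W, hW, hxW, hWB⟩ := mem_nhdsWithin.1 (ball_nhds_YA5 h1 h2 h4)
  have hp : Q.PC (range χ) := hP.mono fun y hy => (h3 hy).1
  have hxB : x ∈ χ '' closedBall 0 1 := ⟨0, mem_closedBall_self zero_le_one, h2⟩
  have hBK : χ '' closedBall 0 1 ⊆ K := fun y hy => (h3 (image_subset_range _ _ hy)).2
  have hKB := Acyc.left hBK (singleton_subset_iff.2 hxB) hA (acyc_chart Q h1 hp hxB)
  refine ⟨W ∩ interior K, K, hW.inter isOpen_interior, ⟨hxW, mem_interior_iff_mem_nhds.2 hK⟩,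
    fun y hy => interior_subset hy.2, fun y hy => ?_⟩
  have hyB := hWB ⟨hy.2.1, hy.1⟩
  exact Acyc.mid hBK (singleton_subset_iff.2 hyB) hKB (acyc_chart Q h1 hp hyB)

end FC

end Pool.Agent.PWV
end
end

-- part Pool.Agent.P.MP_65ad7c_ag.YB2
section

open Set Filter Topology Metric

noncomputable section
namespace Pool.Agent.PWV

variable {X : Cx}

namespace FC

/-- Good neighbourhoods. -/
theorem gn (n : ℕ) : ∀ (Q : FC X (Fin n → ℂ)) (O : Set (Fin n → ℂ)), IsOpen O →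
    (CF (fun _ : Unit => Q) fun _ => O) → ∀ x ∈ O,
    ∃ K, IsCompact K ∧ K ∈ 𝓝 x ∧ K ⊆ O ∧ Q.Acyc K {x} := by
  induction n with
  | zero =>
    intro Q O _ _ x hx
    refine ⟨{x}, isCompact_singleton, ?_, singleton_subset_iff.2 hx, fun k => Q.ex_self k _⟩
    exact mem_of_superset univ_mem fun y _ => Subsingleton.elim y x
  | succ n ih =>
    intro Q O hO h x hx
    obtain ⟨g, hg, hP⟩ := h.top
    obtain ⟨π, rfl⟩ := exists_prj hg
    obtain ⟨⟨a, t⟩, rfl⟩ := π.hφ.surjective x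
    obtain ⟨s, hs, ha, hτ⟩ := nice_small (U := π.φ ⁻¹' O) (H := π.H) (c := t)
      (hO.preimage π.hφ.continuous) (a := a) hx (π.fin_H a)
    have h1 := π.cf_dn h hP
    have h2 : CF (fun _ : Unit => (π.up Q).push (closedBall t s))
        fun _ => Nice (π.φ ⁻¹' O) π.H t s :=
      h1.of_imp (fun _ => ((), (t, ⟨s, hs⟩))) (fun _ => Subset.rfl) fun _ _ _ hS => hS
    obtain ⟨K, hK, hKa, hKO, hA⟩ := ih _ _
      (nice_open (hO.preimage π.hφ.continuous) π.closed_H t s) h2 a ha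
    have haK : a ∈ K := mem_of_mem_nhds hKa
    have a1 : (π.up Q).Acyc (K ×ˢ closedBall t s) ({a} ×ˢ closedBall t s) := fun k =>
      ((π.up Q).push_ex (isCompact_closedBall t s) k K {a}).1 (hA k)
    have hm : (a, t) ∈ ({a} : Set (Fin n → ℂ)) ×ˢ closedBall t s :=
      ⟨rfl, mem_closedBall_self hs.le⟩
    have a2 : (π.up Q).Acyc ({a} ×ˢ closedBall t s) {(a, t)} := by
      refine star _ (isCompact_singleton.prod (isCompact_closedBall t s)) hm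
        (((convex_singleton a).prod (convex_closedBall t s)).starConvex hm) ?_
      rw [(π.tr_up Q).pc π.hφ.isEmbedding]
      refine (hP ()).mono ?_
      rintro _ ⟨⟨b, τ⟩, ⟨⟨hb, hτ'⟩, hne⟩, rfl⟩
      obtain rfl : b = a := hb
      refine ⟨ha.1 τ hτ', fun hz => hτ τ hτ' ?_ ((π.mem_H _).2 hz)⟩
      rintro rfl
      exact hne rfl
    have s1 : ({a} : Set (Fin n → ℂ)) ×ˢ closedBall t s ⊆ K ×ˢ closedBall t s :=
      prod_mono (singleton_subset_iff.2 haK) Subset.rfl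
    have s2 : ({(a, t)} : Set ((Fin n → ℂ) × ℂ)) ⊆ {a} ×ˢ closedBall t s :=
      singleton_subset_iff.2 hm
    have a3 := ((π.tr_up Q).acyc (s2.trans s1)).1 (a1.mid s1 s2 a2)
    rw [image_singleton] at a3
    refine ⟨_, (hK.prod (isCompact_closedBall t s)).image π.hφ.continuous, ?_, ?_, a3⟩
    · exact π.hφ.isOpenMap.image_mem_nhds (prod_mem_nhds hKa (closedBall_mem_nhds t hs))
    · rintro _ ⟨⟨b, τ⟩, ⟨hb, hτ'⟩, rfl⟩
      exact (hKO hb).1 τ hτ'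

theorem la_of_cf {N : ℕ} {Q : FC X (Fin N → ℂ)} (h : CF1 Q) {S : Set (Fin N → ℂ)} (hS : Mf S)
    (hP : Q.PC S) : Q.LA S := by
  refine la_of_gn Q hS hP fun x _ => ?_
  obtain ⟨K, -, h1, -, h2⟩ := gn N Q univ isOpen_univ h x (mem_univ x)
  exact ⟨K, h1, h2⟩

end FC

variable {n : ℕ} {ι : Type} {Q : ι → FC X (Fin (n + 1) → ℂ)} {O : ι → Set (Fin (n + 1) → ℂ)}
  {C Y : Set (Fin (n + 1) → ℂ)}

/-- The support lies in a hypersurface. -/
theorem TL.caseA {e : ℕ} (h : TL X (e + 1) n) (he : e ≤ n) (hO : ∀ i, IsOpen (O i)) (hY : ZC Y)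
    (hd : Dim Y (e + 1)) (hC : ZC C) (hdC : Dim C e) (hs : ∀ i, (Q i).Supp Y)
    (h1 : CF Q fun i => O i \ C) :
    ∃ D, ZC D ∧ Dim (D ∩ Y) e ∧ CF (fun i => (Q i).loc Dᶜ) O := by
  obtain ⟨g, hg, hgY⟩ := (hd.mono_nat (Nat.succ_le_succ he)).exists_poly
  obtain ⟨π, rfl⟩ := exists_prj hg
  have hYZ : Y ⊆ π.Z := hgY
  have hYH : π.φ ⁻¹' Y ⊆ π.H := fun p hp => (π.mem_H p).2 (hYZ hp)
  have hB : ZC (zcl (prj π.v '' C)) := zc_zcl _
  have hdB : Dim (zcl (prj π.v '' C)) e := (π.dim_img hdC).zcl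
  have hCB : prj π.v '' C ⊆ zcl (prj π.v '' C) := subset_zcl _
  generalize zcl (prj π.v '' C) = B at hB hdB hCB
  have hD := π.zc_pre hB
  have hDo : IsOpen (prj π.v ⁻¹' B)ᶜ := hD.isClosed.isOpen_compl
  refine ⟨prj π.v ⁻¹' B, hD, (π.dim_pre hdB).mono (inter_subset_inter_right _ hYZ), ?_⟩
  refine π.cf_desc hO (fun p hp => ⟨1, (Ideal.ne_top_iff_one p).1 hp.ne_top, fun i => ?_⟩) ?_
  · have s1 : ((Q i).loc (prj π.v ⁻¹' B)ᶜ).Supp Y :=
      (hs i).loc hDo hY.isClosed inter_subset_left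
    exact (s1.comap π.hφ.isInducing).pc_off.mono fun p hp hy => hp.2.2 (hYH hy)
  · have c1 : CF (π.dn Q) (π.dnO fun i => O i \ C) :=
      π.cf_dn h1 fun i => (hs i).pc_off.mono fun x hx hy => hx.2 (hYZ hy)
    have c2 : CF (π.dn Q) fun j => π.dnO O j \ B := by
      refine c1.mono fun j a ha => ⟨fun τ hτ => ⟨ha.1.1 τ hτ, fun hc => ha.2 (hCB ?_)⟩, ha.1.2⟩
      exact ⟨_, hc, π.prj_φ (a, τ)⟩
    have c3 := h _ (π.dn Q) (π.dnO O) (zcl (prj π.v '' Y)) B (π.open_dnO hO) (zc_zcl _)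
      (π.dim_img hd).zcl hB (fun j => ((hs j.1).comap π.hφ.isInducing).push _
        (zc_zcl _).isClosed fun p hp => subset_zcl _ ⟨_, hp, π.prj_φ p⟩) c2
    refine c3.of_imp id (fun _ => Subset.rfl) fun j S hS hP γ g1 g2 g3 k => ?_
    have e1 : π.up ((Q j.1).loc (prj π.v ⁻¹' B)ᶜ) = (π.up (Q j.1)).loc (Bᶜ ×ˢ univ) := by
      rw [← π.pre_prj Bᶜ]
      exact FC.comap_loc _ hDo π.hφ
    have sH : (π.up (Q j.1)).Supp π.H := ((hs j.1).comap π.hφ.isInducing).mono hYH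
    have e2 : ∀ A ⊆ S, (π.dn (fun i => (Q i).loc (prj π.v ⁻¹' B)ᶜ) j).ZT A =
        ((π.dn Q j).loc Bᶜ).ZT A := fun A hA => by
      unfold Prj.dn
      rw [e1]
      exact FC.cm1 sH π.closed_H hB.isClosed fun a ha => (hS (hA ha)).2
    have := hP γ g1 g2 g3 k
    unfold FC.Ex at this ⊢
    rw [e2 _ g3.image_subset, e2 _ (singleton_subset_iff.2 (g3 ⟨le_rfl, zero_le_one⟩))]
    exact this

end Pool.Agent.PWV
end
end

-- part Pool.Agent.P.MP_65ad7c_ag.VTower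
section

open Set Filter Topology Metric

noncomputable section
namespace Pool.Agent.PWV

variable {X : Cx} {T T' : Type} [MetricSpace T] [MetricSpace T']

namespace FC

theorem vtower_step (Q : FC X T) {A B C C' : Set T} (hm : C ⊆ C') (hc : RelCl C A)
    (hc' : RelCl C' A) (hB : RelCl B A) {n : ℤ} (h0 : Q.Ex n C (B ∩ C)) {v : X.V (n + 1 + 1)}
    {w w₂ : X.V (n + 1)} (a1 : w ∈ Q.ZT (B ∩ C) (n + 1))
    (a2 : v - X.d (n + 1) w ∈ Q.ZT C (n + 1 + 1)) (b1 : w₂ ∈ Q.ZT (B ∩ C') (n + 1))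
    (b2 : v - X.d (n + 1) w₂ ∈ Q.ZT C' (n + 1 + 1)) :
    ∃ w', (w' ∈ Q.ZT (B ∩ C') (n + 1) ∧ v - X.d (n + 1) w' ∈ Q.ZT C' (n + 1 + 1)) ∧
      w' - w ∈ Q.ZT C (n + 1) := by
  obtain ⟨s, hs, hs'⟩ := h0 (w₂ - w)
    (sub_mem (ZT_anti (inter_subset_inter_right _ hm) _ b1) a1) (by
      have := sub_mem a2 (ZT_anti hm _ b2)
      rwa [sub_sub_sub_cancel_left, ← map_sub] at this)
  have e : B ∩ C = C ∩ (B ∩ C') := by
    ext x; exact ⟨fun h => ⟨h.2, h.1, hm h.2⟩, fun h => ⟨h.2.1, h.1⟩⟩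
  rw [e, Q.ZT_inter (sep_of_relCl hc (hB.inter hc'))] at hs
  obtain ⟨s₁, h1, s₂, h2, rfl⟩ := Submodule.mem_sup.1 hs
  refine ⟨w₂ - X.d n s₂, ⟨sub_mem b1 (Q.ZT_stab _ n _ h2), ?_⟩, ?_⟩
  · rwa [map_sub, X.dd, sub_zero]
  · have := add_mem hs' (Q.ZT_stab _ n _ h1)
    have e2 : w₂ - w - X.d n (s₁ + s₂) + X.d n s₁ = w₂ - X.d n s₂ - w := by
      rw [map_add]; abel
    rwa [e2] at this

theorem tower (Q : FC X T) {A B : Set T} (As : ℕ → Set T) (hm : Monotone As)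
    (hc : ∀ i, RelCl (As i) A) (hB : RelCl B A) (hcov : ∀ x ∈ A, ∃ i, As i ∈ 𝓝[A] x) (n : ℤ)
    (h0 : ∀ i, Q.Ex n (As i) (B ∩ As i)) (h1 : ∀ i, Q.Ex (n + 1) (As i) (B ∩ As i)) :
    Q.Ex (n + 1) A B := by
  intro v hv hd
  have ex : ∀ i, ∃ w ∈ Q.ZT (B ∩ As i) (n + 1), v - X.d (n + 1) w ∈ Q.ZT (As i) (n + 1 + 1) :=
    fun i => h1 i v (ZT_anti inter_subset_left _ hv) (ZT_anti (hc i).1 _ hd)
  have step : ∀ i w, ∃ w', w ∈ Q.ZT (B ∩ As i) (n + 1) ∧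
      v - X.d (n + 1) w ∈ Q.ZT (As i) (n + 1 + 1) →
      (w' ∈ Q.ZT (B ∩ As (i + 1)) (n + 1) ∧ v - X.d (n + 1) w' ∈ Q.ZT (As (i + 1)) (n + 1 + 1)) ∧
        w' - w ∈ Q.ZT (As i) (n + 1) := fun i w => by
    by_cases h : w ∈ Q.ZT (B ∩ As i) (n + 1) ∧ v - X.d (n + 1) w ∈ Q.ZT (As i) (n + 1 + 1)
    · obtain ⟨w₂, b1, b2⟩ := ex (i + 1)
      obtain ⟨w', h'⟩ := Q.vtower_step (hm (Nat.le_succ i)) (hc i) (hc (i + 1)) hB (h0 i)
        h.1 h.2 b1 b2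
      exact ⟨w', fun _ => h'⟩
    · exact ⟨w, fun h' => absurd h' h⟩
  choose g hg using step
  obtain ⟨w₀, hw₀⟩ := ex 0
  obtain ⟨w, e0, e1⟩ : ∃ w : ℕ → X.V (n + 1), w 0 = w₀ ∧ ∀ i, w (i + 1) = g i (w i) :=
    ⟨fun i => Nat.rec w₀ g i, rfl, fun _ => rfl⟩
  have hP : ∀ i, w i ∈ Q.ZT (B ∩ As i) (n + 1) ∧
      v - X.d (n + 1) (w i) ∈ Q.ZT (As i) (n + 1 + 1) := fun i => by
    induction i with
    | zero => rw [e0]; exact hw₀
    | succ i ih => rw [e1]; exact (hg i _ ih).1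
  have hD : ∀ i j, i ≤ j → w j - w i ∈ Q.ZT (As i) (n + 1) := fun i j hij => by
    induction j, hij using Nat.le_induction with
    | base => rw [sub_self]; exact zero_mem _
    | succ j hij ih =>
      have := add_mem (ZT_anti (hm hij) _ (hg j _ (hP j)).2) ih
      rwa [← e1, sub_add_sub_cancel] at this
  obtain ⟨W, hW, hW'⟩ := Q.glue_res A (n + 1) ℕ (fun i => {x | ∀ᶠ y in 𝓝[A] x, y ∈ As i}) w
    (fun i => isOpen_iff_eventually.2 fun y hy => eventually_nhds_nhdsWithin.2 hy)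
    (fun i => (mem_ZT.1 (hP i).1).1) (fun i j x hx hi hj => by
      rcases le_total i j with h | h
      · have := neg_mem ((mem_ZT.1 (hD i j h)).2 x (Eventually.self_of_nhdsWithin hi hx))
        rwa [neg_sub] at this
      · exact (mem_ZT.1 (hD j i h)).2 x (Eventually.self_of_nhdsWithin hj hx))
  refine ⟨W, mem_ZT.2 ⟨hW, fun x hx => ?_⟩,
    mem_ZT.2 ⟨sub_mem (mem_ZT.1 hv).1 (Q.d_top _ _ hW), fun x hx => ?_⟩⟩
  · obtain ⟨i, hi⟩ := hcov x (hB.1 hx)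
    have := add_mem (hW' i x (hB.1 hx) hi)
      ((mem_ZT.1 (hP i).1).2 x ⟨hx, mem_of_mem_nhdsWithin (hB.1 hx) hi⟩)
    rwa [sub_add_cancel] at this
  · obtain ⟨i, hi⟩ := hcov x hx
    have := sub_mem ((mem_ZT.1 (hP i).2).2 x (mem_of_mem_nhdsWithin hx hi))
      (Q.d_z x _ _ (hW' i x hx hi))
    rwa [map_sub, sub_sub, add_sub_cancel] at this

theorem vb_tower {F : Type} [MetricSpace F] (Q : FC X T) {A B : Set T} (As : ℕ → Set T)
    (hm : Monotone As) (hK : ∀ i, IsCompact (As i)) (hs : ∀ i, As i ⊆ A) (hB : RelCl B A)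
    (hcov : ∀ x ∈ A, ∃ i, As i ∈ 𝓝[A] x) (f : T → F) (hf : ContinuousOn f A)
    (h : ∀ i t, Q.Acyc (As i ∩ f ⁻¹' {t}) (B ∩ As i ∩ f ⁻¹' {t})) : Q.Acyc A B := by
  have key : ∀ i n, Q.Ex n (As i) (B ∩ As i) := fun i n => by
    refine Q.lg (hK i) (isClosed_of_closure_subset fun x hx => ?_) inter_subset_right f
      (hf.mono (hs i)) n fun t j _ => h i t j
    have h1 : x ∈ As i := (hK i).isClosed.closure_subset (closure_mono inter_subset_right hx)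
    exact ⟨hB.2 ⟨closure_mono inter_subset_left hx, hs i h1⟩, h1⟩
  intro n
  obtain ⟨m, rfl⟩ : ∃ m, n = m + 1 := ⟨n - 1, by ring⟩
  exact Q.tower As hm (fun i => relCl_of_isClosed (hK i).isClosed (hs i)) hB hcov m
    (fun i => key i m) fun i => key i (m + 1)

end FC

end Pool.Agent.PWV
end
end

-- part Pool.Agent.P.MP_65ad7c_ag.VProd
section

open Set Filter Topology Metric

noncomputable section
namespace Pool.Agent.PWV

variable {X : Cx} {E F : Type} [NormedAddCommGroup E] [NormedSpace ℝ E] [FiniteDimensional ℝ E]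
  [NormedAddCommGroup F] [NormedSpace ℝ F] [FiniteDimensional ℝ F]

theorem vprod_exh {G : Type} [NormedAddCommGroup G] [ProperSpace G] {Ω : Set G} (hΩ : IsOpen Ω) :
    ∃ L : ℕ → Set G, Monotone L ∧ (∀ i, IsCompact (L i)) ∧ (∀ i, L i ⊆ Ω) ∧
      ∀ t ∈ Ω, ∀ᶠ i in atTop, L i ∈ 𝓝 t := by
  have hpos : ∀ i : ℕ, (0 : ℝ) < 1 / ((i : ℝ) + 1) := fun i => by positivity
  refine ⟨fun i => closedBall 0 (i : ℝ) ∩ (thickening (1 / ((i : ℝ) + 1)) Ωᶜ)ᶜ, ?_, ?_, ?_, ?_⟩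
  · intro i j hij
    have h : (i : ℝ) ≤ j := by exact_mod_cast hij
    refine inter_subset_inter (closedBall_subset_closedBall h) (compl_subset_compl.2 ?_)
    exact thickening_mono (one_div_le_one_div_of_le (by positivity) (by linarith)) _
  · intro i
    exact (isCompact_closedBall _ _).inter_right isOpen_thickening.isClosed_compl
  · intro i t ht
    by_contra h
    exact ht.2 (self_subset_thickening (hpos i) _ h)
  · intro t ht
    obtain ⟨r, hr, hb⟩ := Metric.isOpen_iff.1 hΩ t ht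
    have e1 : ∀ᶠ i : ℕ in atTop, 1 / ((i : ℝ) + 1) < r / 2 :=
      (tendsto_one_div_add_atTop_nhds_zero_nat (𝕜 := ℝ)).eventually
        (gt_mem_nhds (by positivity))
    have e2 : ∀ᶠ i : ℕ in atTop, ‖t‖ + r / 2 ≤ (i : ℝ) :=
      tendsto_natCast_atTop_atTop.eventually (eventually_ge_atTop _)
    filter_upwards [e1, e2] with i h1 h2
    filter_upwards [ball_mem_nhds t (half_pos hr)] with s hs
    rw [mem_ball] at hs
    refine ⟨?_, fun h => ?_⟩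
    · rw [mem_closedBall_zero_iff]
      have := norm_le_norm_add_norm_sub' s t
      rw [dist_eq_norm] at hs
      linarith
    · obtain ⟨z, hz, hd⟩ := mem_thickening_iff.1 h
      refine hz (hb ?_)
      rw [mem_ball]
      have := dist_triangle z s t
      rw [dist_comm] at hd
      linarith

theorem vprod_thick {G : Type} [NormedAddCommGroup G] (K : Set G) (ε : ℝ) :
    ∃ δ : ℕ → ℝ, Monotone δ ∧ (∀ i, δ i < ε) ∧
      ∀ y ∈ thickening ε K, ∀ᶠ i in atTop, cthickening (δ i) K ∈ 𝓝 y := by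
  refine ⟨fun i => ε - 1 / ((i : ℝ) + 1), ?_, ?_, ?_⟩
  · intro i j hij
    have h : (i : ℝ) ≤ j := by exact_mod_cast hij
    have := one_div_le_one_div_of_le (a := (i : ℝ) + 1) (b := (j : ℝ) + 1) (by positivity)
      (by linarith)
    dsimp only
    linarith
  · intro i
    have : (0 : ℝ) < 1 / ((i : ℝ) + 1) := by positivity
    linarith
  · intro y hy
    obtain ⟨z, hz, hd⟩ := mem_thickening_iff.1 hy
    have e1 : ∀ᶠ i : ℕ in atTop, 1 / ((i : ℝ) + 1) < ε - dist y z :=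
      (tendsto_one_div_add_atTop_nhds_zero_nat (𝕜 := ℝ)).eventually
        (gt_mem_nhds (by linarith))
    filter_upwards [e1] with i h1
    refine mem_of_superset (isOpen_thickening.mem_nhds ?_) (thickening_subset_cthickening _ _)
    exact mem_thickening_iff.2 ⟨z, hz, by linarith⟩

namespace FC

theorem starb (Q : FC X (E × F)) {K : Set E} (hK : IsCompact K) (hc : Convex ℝ K) {x : E}
    (hx : x ∈ K) {ε : ℝ} (hε : 0 < ε) {Ω : Set F} (hΩ : IsOpen Ω)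
    (hP : Q.PC (thickening ε K ×ˢ Ω)) : Q.Acyc (thickening ε K ×ˢ Ω) ({x} ×ˢ Ω) := by
  have : ProperSpace E := FiniteDimensional.proper_real E
  have : ProperSpace F := FiniteDimensional.proper_real F
  obtain ⟨L, hLm, hLc, hLs, hLn⟩ := vprod_exh hΩ
  obtain ⟨δ, hδm, hδl, hδn⟩ := vprod_thick K ε
  have hsub : ∀ i, cthickening (δ i) K ⊆ thickening ε K := fun i =>
    cthickening_subset_thickening' hε (hδl i) K
  refine vb_tower Q (fun i => cthickening (δ i) K ×ˢ L i) ?_ ?_ ?_ ?_ ?_ Prod.snd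
    continuous_snd.continuousOn ?_
  · intro i j hij
    exact prod_mono (cthickening_mono (hδm hij) K) (hLm hij)
  · intro i
    exact (hK.cthickening).prod (hLc i)
  · intro i
    exact prod_mono (hsub i) (hLs i)
  · refine ⟨prod_mono (singleton_subset_iff.2 (self_subset_thickening hε K hx)) subset_rfl, ?_⟩
    intro p hp
    have h1 : closure ({x} ×ˢ Ω) ⊆ ({x} : Set E) ×ˢ (univ : Set F) :=
      closure_minimal (prod_mono subset_rfl (subset_univ _)) (isClosed_singleton.prod isClosed_univ)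
    exact ⟨(h1 hp.1).1, hp.2.2⟩
  · intro p hp
    obtain ⟨i, h1, h2⟩ := ((hδn p.1 hp.1).and (hLn p.2 hp.2)).exists
    exact ⟨i, nhdsWithin_le_nhds (prod_mem_nhds h1 h2)⟩
  · intro i t
    by_cases ht : t ∈ L i
    · have hxi : x ∈ cthickening (δ i) K := self_subset_cthickening K hx
      have e1 : (cthickening (δ i) K ×ˢ L i) ∩ Prod.snd ⁻¹' {t} =
          cthickening (δ i) K ×ˢ ({t} : Set F) := by
        ext p
        constructor
        · rintro ⟨⟨h1, _⟩, h3⟩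
          exact ⟨h1, h3⟩
        · rintro ⟨h1, h3⟩
          have h4 : p.2 = t := h3
          exact ⟨⟨h1, h4 ▸ ht⟩, h3⟩
      have e2 : ({x} ×ˢ Ω) ∩ (cthickening (δ i) K ×ˢ L i) ∩ Prod.snd ⁻¹' {t} = {(x, t)} := by
        ext p
        constructor
        · rintro ⟨⟨⟨h1, _⟩, _⟩, h3⟩
          exact Prod.ext h1 h3
        · rintro rfl
          exact ⟨⟨⟨rfl, hLs i ht⟩, hxi, ht⟩, rfl⟩
      rw [e1, e2]
      have hmem : (x, t) ∈ cthickening (δ i) K ×ˢ ({t} : Set F) := ⟨hxi, rfl⟩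
      refine star Q (hK.cthickening.prod isCompact_singleton) hmem
        (((hc.cthickening _).prod (convex_singleton t)).starConvex hmem) (hP.mono ?_)
      exact sdiff_subset.trans (prod_mono (hsub i) (singleton_subset_iff.2 (hLs i ht)))
    · have e1 : (cthickening (δ i) K ×ˢ L i) ∩ Prod.snd ⁻¹' {t} = ∅ := by
        refine eq_empty_of_forall_notMem ?_
        rintro p ⟨⟨_, h2⟩, h3⟩
        have h4 : p.2 = t := h3
        exact ht (h4 ▸ h2)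
      have e2 : ({x} ×ˢ Ω) ∩ (cthickening (δ i) K ×ˢ L i) ∩ Prod.snd ⁻¹' {t} = ∅ := by
        rw [inter_assoc, e1, inter_empty]
      rw [e1, e2]
      exact fun n => Q.ex_self n ∅

theorem prodloc (Q : FC X (E × F)) {N : Set E} (hN : IsOpen N) {Ω : Set F} (hΩ : IsOpen Ω)
    {W : Set (E × F)} (hW : IsOpen W) (hWN : ∀ y ∈ N, ∀ τ, (y, τ) ∈ W ↔ τ ∈ Ω)
    (hP : Q.PC (N ×ˢ Ω)) {K : Set E} (hK : IsCompact K) (hc : Convex ℝ K) (hKN : K ⊆ N) {x : E}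
    (hx : x ∈ K) (τ : F) : (Q.loc W).Acyc (K ×ˢ {τ}) {(x, τ)} := by
  intro n v hv hdv
  obtain ⟨N₁, hN₁, hs₁, hv₁⟩ := (Q.mem_loc_ZT hW).1 hv
  obtain ⟨N₂, hN₂, hs₂, hv₂⟩ := (Q.mem_loc_ZT hW).1 hdv
  obtain ⟨u, w, hu, hw, hKu, hτw, huw⟩ := generalized_tube_lemma hK isCompact_singleton hN₂ hs₂
  obtain ⟨e₁, he₁, h₁⟩ := hK.exists_thickening_subset_open (hu.inter hN) (subset_inter hKu hKN)
  obtain ⟨e₂, he₂, h₂⟩ := Metric.isOpen_iff.1 hw τ (hτw rfl)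
  obtain ⟨e₃, he₃, h₃⟩ := Metric.isOpen_iff.1 hN₁ (x, τ) (hs₁ rfl)
  obtain ⟨e, he, l₁, l₂, l₃⟩ : ∃ e : ℝ, 0 < e ∧ e ≤ e₁ ∧ e ≤ e₂ ∧ e ≤ e₃ :=
    ⟨min e₁ (min e₂ e₃), by positivity, min_le_left _ _,
      (min_le_right _ _).trans (min_le_left _ _), (min_le_right _ _).trans (min_le_right _ _)⟩
  have hU : thickening e K ⊆ u ∩ N := (thickening_mono l₁ K).trans h₁
  have hUN : thickening e K ⊆ N := hU.trans inter_subset_right
  have hbU : ball x e ⊆ thickening e K := ball_subset_thickening hx e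
  have hΩ₂ : IsOpen (Ω ∩ ball τ e) := hΩ.inter isOpen_ball
  have hPA : Q.PC (thickening e K ×ˢ (Ω ∩ ball τ e)) :=
    hP.mono (prod_mono hUN inter_subset_left)
  have hBA : ball x e ×ˢ (Ω ∩ ball τ e) ⊆ thickening e K ×ˢ (Ω ∩ ball τ e) :=
    prod_mono hbU subset_rfl
  have a₁ := starb Q hK hc hx he hΩ₂ hPA
  have a₂ := starb Q (K := {x}) isCompact_singleton (convex_singleton x) (mem_singleton x) he hΩ₂
    (by rw [thickening_singleton]; exact hPA.mono hBA)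
  rw [thickening_singleton] at a₂
  have a₃ : Q.Acyc (thickening e K ×ˢ (Ω ∩ ball τ e)) (ball x e ×ˢ (Ω ∩ ball τ e)) :=
    Acyc.left hBA (prod_mono (singleton_subset_iff.2 (mem_ball_self he)) subset_rfl) a₁ a₂
  have sB : ball x e ×ˢ (Ω ∩ ball τ e) ⊆ N₁ ∩ W := by
    rintro ⟨y, s⟩ ⟨h1, h2, h3⟩
    refine ⟨h₃ ?_, (hWN y (hUN (hbU h1)) s).2 h2⟩
    rw [← ball_prod_same]
    exact ⟨ball_subset_ball l₃ h1, ball_subset_ball l₃ h3⟩
  have sA : thickening e K ×ˢ (Ω ∩ ball τ e) ⊆ N₂ ∩ W := by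
    rintro ⟨y, s⟩ ⟨h1, h2, h3⟩
    exact ⟨huw ⟨(hU h1).1, h₂ (ball_subset_ball l₂ h3)⟩, (hWN y (hUN h1) s).2 h2⟩
  obtain ⟨z, hz, hvz⟩ := a₃ n v (ZT_anti sB _ hv₁) (ZT_anti sA _ hv₂)
  have tr : ∀ {S : Set E}, S ⊆ N → S ×ˢ ball τ e ∩ W ⊆ S ×ˢ (Ω ∩ ball τ e) := by
    rintro S hS ⟨y, s⟩ ⟨⟨h1, h2⟩, h3⟩
    exact ⟨h1, (hWN y (hS h1) s).1 h3, h2⟩
  refine ⟨z, (Q.mem_loc_ZT hW).2 ⟨ball x e ×ˢ ball τ e, isOpen_ball.prod isOpen_ball, ?_,
    ZT_anti (tr (hbU.trans hUN)) _ hz⟩, (Q.mem_loc_ZT hW).2 ⟨thickening e K ×ˢ ball τ e,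
    isOpen_thickening.prod isOpen_ball, ?_, ZT_anti (tr hUN) _ hvz⟩⟩
  · exact singleton_subset_iff.2 ⟨mem_ball_self he, mem_ball_self he⟩
  · exact prod_mono (self_subset_thickening he K) (singleton_subset_iff.2 (mem_ball_self he))

end FC

end Pool.Agent.PWV
end
end

-- part Pool.Agent.P.MP_65ad7c_ag.YA4
section

open Set Filter Topology Metric

noncomputable section
namespace Pool.Agent.PWV

variable {X : Cx} {E : Type} [NormedAddCommGroup E] [NormedSpace ℝ E] [FiniteDimensional ℝ E]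

namespace FC

theorem pc_prod_YA4 (Q : FC X E) (R : FC X (E × ℂ)) {W : Set E} (hW : IsOpen W) {Ω : Set ℂ}
    (hΩ : IsOpen Ω) (hZ : ∀ A, IsOpen A → A ⊆ W → Q.ZT A = R.ZT (A ×ˢ Ω))
    (hP : R.PC (W ×ˢ Ω)) : Q.PC W := by
  have : ProperSpace E := FiniteDimensional.proper_real E
  refine pc_local fun y hy => ?_
  obtain ⟨r, hr, hrW⟩ := (nhds_basis_closedBall.mem_iff).1 (hW.mem_nhds hy)
  refine ⟨closedBall y r, nhdsWithin_le_nhds (closedBall_mem_nhds y hr), pc_of_acyc fun x hx => ?_⟩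
  have hK : IsCompact (closedBall y r) := isCompact_closedBall y r
  have hc : Convex ℝ (closedBall y r) := convex_closedBall y r
  generalize closedBall y r = K at hrW hx hK hc
  intro n v hv hdv
  obtain ⟨hv0, hv1⟩ := mem_ZT.1 hv
  obtain ⟨hd0, hd1⟩ := mem_ZT.1 hdv
  obtain ⟨e₁, he₁, h₁⟩ := hK.exists_thickening_subset_open
    ((Q.opn (n + 1 + 1) (X.d (n + 1) v)).inter hW) (subset_inter (fun z hz => hd1 z hz) hrW)
  obtain ⟨e₂, he₂, h₂⟩ := Metric.isOpen_iff.1 (Q.opn (n + 1) v) x (hv1 x rfl)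
  obtain ⟨e, he, l₁, l₂⟩ : ∃ e : ℝ, 0 < e ∧ e ≤ e₁ ∧ e ≤ e₂ :=
    ⟨min e₁ e₂, by positivity, min_le_left _ _, min_le_right _ _⟩
  have hU := (thickening_mono l₁ K).trans h₁
  have hUW : thickening e K ⊆ W := hU.trans inter_subset_right
  have hbU : ball x e ⊆ thickening e K := ball_subset_thickening hx e
  have hPA : R.PC (thickening e K ×ˢ Ω) := hP.mono (prod_mono hUW subset_rfl)
  have hBA : ball x e ×ˢ Ω ⊆ thickening e K ×ˢ Ω := prod_mono hbU subset_rfl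
  have a₁ := starb R hK hc hx he hΩ hPA
  have a₂ := starb R (K := {x}) isCompact_singleton (convex_singleton x) (mem_singleton x) he hΩ
    (by rw [thickening_singleton]; exact hPA.mono hBA)
  rw [thickening_singleton] at a₂
  have a₃ : R.Acyc (thickening e K ×ˢ Ω) (ball x e ×ˢ Ω) :=
    Acyc.left hBA (prod_mono (singleton_subset_iff.2 (mem_ball_self he)) subset_rfl) a₁ a₂
  have e1 := hZ _ isOpen_thickening hUW
  have e2 := hZ _ isOpen_ball (hbU.trans hUW)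
  have a₄ : Q.Ex n (thickening e K) (ball x e) := by
    unfold Ex
    rw [e1, e2]
    exact a₃ n
  obtain ⟨z, hz, hvz⟩ := a₄ v (mem_ZT.2 ⟨hv0, fun z hz => h₂ (ball_subset_ball l₂ hz)⟩)
    (mem_ZT.2 ⟨hd0, fun z hz => (hU hz).1⟩)
  exact ⟨z, ZT_anti (singleton_subset_iff.2 (mem_ball_self he)) _ hz,
    ZT_anti (self_subset_thickening he K) _ hvz⟩

/-- Direct images of the complement of the roots in an open disc bundle. -/
theorem po_str {Q : FC X (E × ℂ)} {H : Set (E × ℂ)} (hH : IsClosed H) {W : Set E} (hW : IsOpen W)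
    {c : ℂ} {ρ : ℝ} {Φ : E × ℂ ≃ₜ E × ℂ} {P : Set ℂ} (h : Str H W c ρ Φ P)
    (p0 : Q.PC (W ×ˢ ball c ρ \ H)) : (Q.pushO (Hᶜ ∩ univ ×ˢ ball c ρ)).PC W := by
  have hΩ : IsOpen (ball c ρ \ P) := isOpen_ball.sdiff h.fin.isClosed
  have hO : IsOpen (Hᶜ ∩ (univ : Set E) ×ˢ ball c ρ) :=
    hH.isOpen_compl.inter (isOpen_univ.prod isOpen_ball)
  have him : ∀ A ⊆ W, Φ '' (A ×ˢ (ball c ρ \ P)) =
      fstC E ℂ ⁻¹' A ∩ (Hᶜ ∩ (univ : Set E) ×ˢ ball c ρ) := by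
    intro A hA
    ext q
    constructor
    · rintro ⟨⟨a, τ⟩, ⟨h1, h2, h3⟩, rfl⟩
      refine ⟨?_, fun hm => h3 ((h.mem a (hA h1) τ (ball_subset_closedBall h2)).1 hm),
        mem_univ _, (h.ball _).2 h2⟩
      change (Φ (a, τ)).1 ∈ A
      rw [h.fst]
      exact h1
    · rintro ⟨h1, h2, -, h3⟩
      obtain ⟨⟨a, τ⟩, rfl⟩ := Φ.surjective q
      have h4 : a ∈ A := by
        have h5 : (Φ (a, τ)).1 ∈ A := h1
        rwa [h.fst] at h5
      have h6 : τ ∈ ball c ρ := (h.ball _).1 h3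
      exact ⟨(a, τ), ⟨h4, h6, fun hm =>
        h2 ((h.mem a (hA h4) τ (ball_subset_closedBall h6)).2 hm)⟩, rfl⟩
  refine pc_prod_YA4 _ (Q.comap Φ Φ.isInducing) hW hΩ (fun A hA hAW => ?_) ?_
  · rw [comap_ZT, him A hAW, pushO, map_ZT_open _ _ hA,
      loc_ZT_open _ hO (hA.preimage (fstC E ℂ).continuous)]
  · refine ((tr_comap Q Φ.isInducing).pc Φ.isEmbedding _).2 (p0.mono ?_)
    rw [him W subset_rfl]
    rintro q ⟨h1, h2, -, h3⟩
    exact ⟨⟨h1, h3⟩, h2⟩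

/-- Constancy in the vertical direction. -/
theorem ver (Q : FC X (E × ℂ)) {U U₀ : Set (E × ℂ)} (hU : IsOpen U) (hU₀ : IsOpen U₀) (h : U₀ ⊆ U)
    (p0 : Q.PC U₀) {Δ : Set E} (hΔ : IsClosed Δ) {a : E} {K : Set ℂ} (hK : IsCompact K)
    (hc : Convex ℝ K) (hs : {a} ×ˢ K ⊆ U₀) {τ : ℂ} (hτ : τ ∈ K) :
    (Q.loc (U ∩ Δᶜ ×ˢ univ)).Acyc ({a} ×ˢ K) {(a, τ)} := by
  obtain ⟨u, N, hu, hN, hau, hKN, huN⟩ := generalized_tube_lemma isCompact_singleton hK hU₀ hs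
  have hV : IsOpen (U ∩ Δᶜ ×ˢ (univ : Set ℂ)) := hU.inter (hΔ.isOpen_compl.prod isOpen_univ)
  have hσ : IsHomeomorph (Prod.swap : ℂ × E → E × ℂ) := (Homeomorph.prodComm ℂ E).isHomeomorph
  have hΩ : IsOpen (u \ Δ) := hu.sdiff hΔ
  have hW : IsOpen ((univ : Set ℂ) ×ˢ (u \ Δ)) := isOpen_univ.prod hΩ
  have hP : (Q.comap _ hσ.isInducing).PC (N ×ˢ (u \ Δ)) := by
    refine ((tr_comap Q hσ.isInducing).pc hσ.isEmbedding _).2 (p0.mono ?_)
    rintro q ⟨⟨s, b⟩, ⟨h1, h2, h3⟩, rfl⟩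
    exact huN ⟨h2, h1⟩
  have a₁ := prodloc (Q.comap _ hσ.isInducing) hN hΩ hW
    (fun y _ b => ⟨fun hb => hb.2, fun hb => ⟨mem_univ _, hb⟩⟩) hP hK hc hKN hτ a
  have hM : IsOpen (N ×ˢ u) := hN.prod hu
  have hcg : Prod.swap ⁻¹' (U ∩ Δᶜ ×ˢ (univ : Set ℂ)) ∩ N ×ˢ u =
      (univ : Set ℂ) ×ˢ (u \ Δ) ∩ N ×ˢ u := by
    ext ⟨s, b⟩
    constructor
    · rintro ⟨⟨h1, h2, h3⟩, h4, h5⟩
      exact ⟨⟨mem_univ _, h5, h2⟩, h4, h5⟩
    · rintro ⟨⟨h1, h2, h3⟩, h4, h5⟩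
      exact ⟨⟨h (huN ⟨h5, h4⟩), h3, mem_univ _⟩, h4, h5⟩
  have hBA : ({(τ, a)} : Set (ℂ × E)) ⊆ K ×ˢ {a} := singleton_subset_iff.2 ⟨hτ, rfl⟩
  have hA : K ×ˢ ({a} : Set E) ⊆ N ×ˢ u := prod_mono hKN hau
  have e1 := loc_congr (Q.comap _ hσ.isInducing) (hV.preimage hσ.continuous) hW hM hcg hA
  have e2 := loc_congr (Q.comap _ hσ.isInducing) (hV.preimage hσ.continuous) hW hM hcg
    (hBA.trans hA)
  have a₂ : ((Q.loc (U ∩ Δᶜ ×ˢ univ)).comap _ hσ.isInducing).Acyc (K ×ˢ {a}) {(τ, a)} := by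
    rw [comap_loc Q hV hσ]
    intro n
    unfold Ex
    rw [e1, e2]
    exact a₁ n
  have a₃ := ((tr_comap _ hσ.isInducing).acyc hBA).1 a₂
  rwa [image_swap_prod, image_singleton, Prod.swap_prod_mk] at a₃

end FC

end Pool.Agent.PWV
end
end

-- part Pool.Agent.P.MP_65ad7c_ag.YB3
section

open Set Filter Topology Metric

noncomputable section
namespace Pool.Agent.PWV

variable {X : Cx} {n : ℕ} {ι : Type} {Q : ι → FC X (Fin (n + 1) → ℂ)}
  {O : ι → Set (Fin (n + 1) → ℂ)} {C : Set (Fin (n + 1) → ℂ)}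

theorem bot_YB3 {N : ℕ} : ZI (⊥ : Ideal (MvPolynomial (Fin N) ℂ)) = univ :=
  eq_univ_of_forall fun x f hf => by rw [(Submodule.mem_bot _).1 hf, map_zero]

/-- the direct images of the complement of the roots are constant off the discriminant -/
theorem po_YB3 (π : Prj n) (hO : ∀ i, IsOpen (O i)) (p0 : ∀ i, (Q i).PC (O i \ π.Z))
    {Δ : Set (Fin n → ℂ)} (hr : ∀ x ∉ Δ, ∃ W ∈ 𝓝 x, Roots π.H W) (j : ι × Dsc) :
    ((π.up (Q j.1)).pushO (π.Hᶜ ∩ univ ×ˢ ball j.2.1 j.2.2)).PC (π.dnO O j \ Δ) := by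
  refine FC.pc_local fun x hx => ?_
  obtain ⟨W, hW, h1⟩ := hr x hx.2
  obtain ⟨W', hW', Φ, P, h2⟩ := exists_str isClosed_univ (mem_univ x) (nhdsWithin_le_nhds hW) h1
    j.2.2.2 hx.1.2
  rw [nhdsWithin_univ] at hW'
  obtain ⟨W₁, h3, h4, h5⟩ :=
    _root_.mem_nhds_iff.1 (inter_mem hW' ((π.open_dnO hO j).mem_nhds hx.1))
  refine ⟨W₁, nhdsWithin_le_nhds (h4.mem_nhds h5), FC.po_str π.closed_H h4
    (h2.mono (h3.trans inter_subset_left)) ?_⟩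
  refine ((π.tr_up _).pc π.hφ.isEmbedding _).2 ((p0 j.1).mono ?_)
  rintro _ ⟨p, ⟨⟨h6, h7⟩, h8⟩, rfl⟩
  exact ⟨(h3 h6).2.1 p.2 (ball_subset_closedBall h7), fun h => h8 ((π.mem_H p).2 h)⟩

/-- passage from open to closed discs -/
theorem key_YB3 {E : Type} [MetricSpace E] (R : FC X (E × ℂ)) {U H : Set (E × ℂ)} (hU : IsOpen U)
    (hH : IsClosed H) {Δ S : Set E} (hΔ : IsClosed Δ) {c : ℂ} {ρ : ℝ} (hρ : 0 ≤ ρ)
    (h : ∀ s, 0 < s → ((R.pushO (Hᶜ ∩ univ ×ˢ ball c s)).loc Δᶜ).PC (S ∩ Nice U H c s)) :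
    ((R.loc (Hᶜ ∩ Δᶜ ×ˢ univ)).push (closedBall c ρ)).PC (S ∩ Nice U H c ρ) := by
  intro γ hc hi hm k
  have hA : IsCompact (γ '' Icc 0 1) := isCompact_Icc.image_of_continuousOn hc
  have hs : γ '' Icc 0 1 ⊆ S ∩ Nice U H c ρ := hm.image_subset
  refine FC.cm2 R hH.isOpen_compl hΔ hA isCompact_singleton hρ ?_
  filter_upwards [nice_right hU hH hA hρ (hs.trans inter_subset_right), self_mem_nhdsWithin]
    with s h1 h2
  exact h s (hρ.trans_lt h2) γ hc hi (fun t ht => ⟨(hm ht).1, h1 ⟨t, ht, rfl⟩⟩) k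

/-- The support is the whole space. -/
theorem TL.caseB (h : TL X (n + 1) n) (hO : ∀ i, IsOpen (O i)) (hdC : Dim C (n + 1))
    (h1 : CF Q fun i => O i \ C) :
    ∃ D, ZC D ∧ Dim D (n + 1) ∧ CF (fun i => (Q i).loc Dᶜ) O := by
  obtain ⟨g₁, hg₁, p1⟩ := h1.top
  obtain ⟨g₂, hg₂, h2⟩ := hdC.exists_poly
  obtain ⟨π, hπ⟩ := exists_prj (mul_ne_zero hg₁ hg₂)
  have p0 : ∀ i, (Q i).PC (O i \ π.Z) := fun i => (p1 i).mono fun x hx => by
    have h3 : MvPolynomial.eval x g₁ * MvPolynomial.eval x g₂ ≠ 0 := by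
      rw [← map_mul, ← hπ]; exact hx.2
    exact ⟨⟨hx.1, fun hc => right_ne_zero_of_mul h3 (h2 x hc)⟩, left_ne_zero_of_mul h3⟩
  obtain ⟨δ, hδ, hr⟩ := π.roots (p := ⊥) Ideal.isPrime_bot
  set Δ : Set (Fin n → ℂ) := {x | MvPolynomial.eval x δ = 0} with hΔ
  have zΔ : ZC Δ := zc_zero δ
  have hr' : ∀ x ∉ Δ, ∃ W ∈ 𝓝 x, Roots π.H W := fun x hx => by
    have h3 := hr x ⟨bot_YB3 ▸ mem_univ x, hx⟩
    rwa [bot_YB3, nhdsWithin_univ] at h3
  have zD : ZC (π.Z ∪ prj π.v ⁻¹' Δ) := (zc_zero π.g).union (π.zc_pre zΔ)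
  refine ⟨_, zD, π.dim_Z.union (π.dim_cyl fun h0 => hδ (h0 ▸ zero_mem _)), ?_⟩
  have e1 : ∀ i, π.up ((Q i).loc (π.Z ∪ prj π.v ⁻¹' Δ)ᶜ) =
      (π.up (Q i)).loc (π.Hᶜ ∩ Δᶜ ×ˢ univ) := fun i => by
    refine (FC.comap_loc _ zD.isClosed.isOpen_compl π.hφ).trans (congrArg _ ?_)
    ext p
    simp only [mem_preimage, mem_compl_iff, mem_union, mem_inter_iff, mem_prod, mem_univ, and_true,
      π.mem_H, π.prj_φ, not_or]
  have h3 := h (ι × Dsc) (fun j => (π.up (Q j.1)).pushO (π.Hᶜ ∩ univ ×ˢ ball j.2.1 j.2.2))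
    (π.dnO O) univ Δ (π.open_dnO hO) zc_univ (dim_univ n) zΔ (fun _ => FC.supp_univ _)
    (cf_of_pc (po_YB3 π hO p0 hr'))
  have hU : ∀ i, IsOpen (π.φ ⁻¹' O i) := fun i => (hO i).preimage π.hφ.continuous
  have h4 : ∀ p : Ideal (MvPolynomial (Fin n) ℂ), p.IsPrime → ∃ δ ∉ p, ∀ i c ρ, 0 ≤ ρ →
      (((π.up (Q i)).loc (π.Hᶜ ∩ Δᶜ ×ˢ univ)).push (closedBall c ρ)).PC
        (Gen p δ ∩ Nice (π.φ ⁻¹' O i) π.H c ρ) := fun p hp =>
    (h3 p hp).imp fun δ' h5 => ⟨h5.1, fun i c ρ hρ => key_YB3 _ (hU i) π.closed_H zΔ.isClosed hρ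
      fun s hs => h5.2 (i, c, ⟨s, hs⟩)⟩
  refine π.cf_desc hO (fun p hp => ?_) fun p hp => (h4 p hp).imp fun δ' h5 => ⟨h5.1, fun j => ?_⟩
  · obtain ⟨δ₁, a1, a2⟩ := h4 p hp
    obtain ⟨δ₂, b1, b2⟩ := gen_mf hp
    refine ⟨δ₂ * δ₁, fun hm => (hp.mem_or_mem hm).elim b1 a1, fun i => ?_⟩
    have hU₀ : IsOpen (π.φ ⁻¹' O i \ π.H) := (hU i).sdiff π.closed_H
    rw [e1]
    refine FC.box _ ?_ hU₀ (fun τ => ?_) fun a _ K hK hc hs τ hτ => ?_
    · rw [gen_mul']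
      exact b2.inter ((MvPolynomial.continuous_eval δ₁).isOpen_preimage _ isOpen_ne)
    · have h6 := a2 i τ 0 le_rfl
      rw [closedBall_zero] at h6
      refine (FC.pc_slice _ τ h6).mono ?_
      rintro ⟨a, t⟩ ⟨⟨h7, rfl⟩, h8⟩
      rw [gen_mul] at h7
      refine ⟨⟨h7.2, fun s hs => ?_, fun s hs => ?_⟩, rfl⟩
      · rw [closedBall_zero] at hs
        exact hs ▸ h8.1
      · rw [sphere_zero] at hs
        exact hs ▸ h8.2
    · refine FC.ver _ π.closed_H.isOpen_compl hU₀ (fun p hp => hp.2) ?_ zΔ.isClosed hK hc hs hτ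
      refine ((π.tr_up _).pc π.hφ.isEmbedding _).2 ((p0 i).mono ?_)
      rintro _ ⟨p, hp, rfl⟩
      exact ⟨hp.1, fun h => hp.2 ((π.mem_H p).2 h)⟩
  · show ((π.up ((Q j.1).loc (π.Z ∪ prj π.v ⁻¹' Δ)ᶜ)).push _).PC _
    rw [e1]
    exact h5.2 j.1 j.2.1 j.2.2 j.2.2.2.le

theorem tl (X : Cx) (e : ℕ) : ∀ N, TL X e N := by
  induction e with
  | zero =>
    intro N ι Q O Y C _ _ hd hC hs _
    refine cf_of_pc fun i => ?_
    have h1 : ((Q i).loc Cᶜ).Supp ∅ :=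
      (hs i).loc hC.isClosed.isOpen_compl isClosed_empty (by rw [dim_zero.1 hd, empty_inter])
    exact h1.pc_off.mono fun _ _ h => h
  | succ e ih =>
    intro N
    induction N with
    | zero => exact fun ι Q O Y C _ _ _ _ _ _ => cf_zero _ _
    | succ n ihn =>
      intro ι Q O Y C hO hY hd hC hs h
      rcases lt_or_ge (n + 1) e with he | he
      · exact ih _ ι Q O Y C hO hY (((dim_univ _).mono (subset_univ Y)).mono_nat he) hC hs h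
      obtain ⟨Y', z', s1, s2, d'⟩ := exists_resid hY hC hd
      have hW : IsOpen Cᶜ := hC.isClosed.isOpen_compl
      have hs' : ∀ i, ((Q i).loc Cᶜ).Supp Y' := fun i => (hs i).loc hW z'.isClosed s2
      have hl : ∀ i, ((Q i).loc Cᶜ).loc Cᶜ = (Q i).loc Cᶜ := fun i => by
        rw [FC.loc_loc _ hW hW, inter_self]
      have h1 : CF (fun i => (Q i).loc Cᶜ) fun i => O i \ C :=
        h.of_imp id (fun _ => Subset.rfl) fun i S hS hP =>
          (FC.pc_loc_iff hW fun x hx => (hS hx).2).2 hP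
      have h2 : CF (fun i => (Q i).loc Cᶜ) fun i => O i \ (C ∩ Y') :=
        CF.supp z' hs' (h1.mono fun i x hx => ⟨hx.1.1, fun hc => hx.1.2 ⟨hc, hx.2⟩⟩)
      rcases he.eq_or_lt with rfl | he
      · obtain ⟨D, zD, dD, h3⟩ := (ih n).caseB hO d' h2
        exact (ih _).red hO z' hC zD (dD.mono inter_subset_left) hs' hl h1 h3
      · obtain ⟨D, zD, dD, h3⟩ := ihn.caseA (by omega) hO z' (hd.mono s1) (hC.inter z') d' hs' h2
        exact (ih _).red hO z' hC zD dD hs' hl h1 h3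

theorem CF1.loc {N : ℕ} {R : FC X (Fin N → ℂ)} (h : CF1 R) {C : Set (Fin N → ℂ)} (hC : ZC C) :
    CF1 (R.loc Cᶜ) :=
  tl X (N + 1) N Unit (fun _ => R) (fun _ => univ) univ C (fun _ => isOpen_univ) zc_univ
    (dim_univ N) hC (fun _ => FC.supp_univ R) (CF.mono h fun _ => subset_univ _)

theorem CF1.gam {N : ℕ} {R : FC X (Fin N → ℂ)} (h : CF1 R) {C : Set (Fin N → ℂ)} (hC : ZC C) :
    CF1 (R.gam C) :=
  CF.tri_left (Q := fun _ : Unit => R) hC.isClosed h (h.loc hC)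

end Pool.Agent.PWV
end
end

-- part Pool.Agent.P.MP_65ad7c_ag.YC2
section

open Set Filter Topology Metric

noncomputable section
namespace Pool.Agent.PWV

variable {X X' : Cx} {N d c : ℕ}

theorem cf_kill {Q : FC X (Fin N → ℂ)} {Q' : FC X' (Fin N → ℂ)} (h : CF1 Q)
    {Z : Set (Fin N → ℂ)} (hZ : ZC Z) (f : Mp Q' Q) {k : ℤ} (h1 : ∀ n, f.Iso n Zᶜ)
    (h2 : ∀ n ≤ k + 1, f.Iso n univ) (h3 : ∀ x ∈ Z, ∀ n, k ≤ n → Q'.Ex n {x} ∅) : CF1 Q' := by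
  intro p hp
  obtain ⟨δ, hδ, hP⟩ := h p hp
  have hP0 : Q.PC (Gen p δ) := by simpa using hP ()
  by_cases hs : ZI p ⊆ Z
  · obtain ⟨ε, hε, hM⟩ := gen_mf hp
    refine ⟨ε * δ, fun e => (hp.mem_or_mem e).elim hε hδ, fun _ => ?_⟩
    have hS : Mf (Gen p (ε * δ)) := by
      rw [gen_mul']
      exact hM.inter (isOpen_ne_fun (MvPolynomial.continuous_eval δ) continuous_const)
    have hQ : Q.PC (Gen p (ε * δ)) := hP0.mono (by rw [gen_mul]; exact inter_subset_right)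
    have hL := FC.la_of_cf h hS hQ
    refine (FC.pc_of_lcn (S := Gen p (ε * δ)) fun n => ?_).mono inter_subset_left
    rcases le_or_gt k n with hn | hn
    · exact FC.lcn_of_ex fun x hx => h3 x (hs hx.1) n hn
    · exact f.lcn (h2 _ (by omega)) (h2 _ (by omega)) (hL.lcn n)
  · obtain ⟨ε, hε, hz⟩ := hZ.exists_not_mem hs
    refine ⟨δ * ε, fun e => (hp.mem_or_mem e).elim hδ hε, fun _ => ?_⟩
    have hsub : Gen p (δ * ε) ∩ univ ⊆ Zᶜ := by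
      rw [gen_mul']
      exact fun x hx hxZ => hx.1.2 (hz x hxZ)
    refine (FC.pc_congr fun n A B hB hA =>
      f.ex_iff (fun m => (h1 m).mono (hA.trans hsub)) hB).2 (hP0.mono ?_)
    rw [gen_mul]
    exact fun x hx => hx.1.1

theorem fic_one {p : Ideal (MvPolynomial (Fin N) ℂ)} (hp : p.IsPrime) :
    ∃ (d : ℕ) (X : Cx) (Q : FC X (Fin N → ℂ)) (a : X.V 0) (F : ℕ → Set (Fin N → ℂ)),
      F 0 = ZI p ∧ (F 0 \ F 1).Nonempty ∧ FIC d F Q a 1 := by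
  obtain ⟨δ, hδ, e, ι, n1, n2, hch⟩ := gchart N p hp
  have hY := (zc_ZI p).isClosed
  obtain ⟨X, Q, a, hs, ho, hx⟩ := exists_const hY
  have hP : Q.PC (ZI p) := ho.pc hx
  have hd := drop hp hδ n2
  refine ⟨e, X, Q, a, fun j => if j = 0 then ZI p else ZI p ∩ {x | MvPolynomial.eval x δ = 0},
    rfl, ?_, ⟨hs, ?_, fun j => ?_, fun i j hij => ?_, fun j hj => ?_, fun j hj x hx' => ?_,
      ho.mono sdiff_subset, fun j hj => ?_, fun j hj x hx' n h0 _ => ?_,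
      fun j hj h0 => by omega⟩⟩
  · by_contra hne
    rw [not_nonempty_iff_eq_empty, sdiff_eq_empty] at hne
    exact n1 (hd.mono hne)
  · exact CF.supp (zc_ZI p) (fun _ => hs) (cf_of_pc fun _ => hP.mono inter_subset_right)
  · split_ifs
    exacts [zc_ZI p, (zc_ZI p).inter (zc_zero δ)]
  · by_cases hi : i = 0
    · simp only [hi, if_true]
      split_ifs
      exacts [Subset.rfl, inter_subset_left]
    · have hj : j ≠ 0 := by omega
      simp only [hi, hj, if_false]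
      exact Subset.rfl
  · rcases Nat.le_one_iff_eq_zero_or_eq_one.1 hj with rfl | rfl
    exacts [n2, hd]
  · obtain rfl : j = 0 := by omega
    exact ⟨ι, hch x hx'.1 fun h0 => hx'.2 ⟨hx'.1, h0⟩⟩
  · obtain rfl : j = 0 := by omega
    refine ⟨hP.mono sdiff_subset, ?_⟩
    have : Q.gam (ZI p) = Q := hs.gam_eq hY
    exact (this.symm ▸ hP : (Q.gam (ZI p)).PC (ZI p)).mono sdiff_subset
  · obtain rfl : j = 0 := by omega
    exact hx x hx'.1 n h0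

/-- The step of the construction of Deligne. -/
theorem FIC.step {Q : FC X (Fin N → ℂ)} {a : X.V 0} {F : ℕ → Set (Fin N → ℂ)}
    (h : FIC d F Q a c) (h0 : 0 < c) (hc : c ≤ d) :
    ∃ (X' : Cx) (Q' : FC X' (Fin N → ℂ)) (a' : X'.V 0) (F' : ℕ → Set (Fin N → ℂ)),
      (∀ j ≤ c, F' j = F j) ∧ FIC d F' Q' a' (c + 1) := by
  have cl : ∀ j, IsClosed (F j) := fun j => (h.zc j).isClosed
  have op : IsOpen (F c)ᶜ := (cl c).isOpen_compl
  obtain ⟨X', Q', f, a', a1, a2, a3, i1, i2, i3, -⟩ := kill (Q.loc (F c)ᶜ) (cl c)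
    (k := (c : ℤ) - 1) (by omega) (a := a) h.one.top h.one.cl
  have c1 : CF1 Q' := cf_kill (h.cf.loc (h.zc c)) (h.zc c) f i1 i2
    fun x hx n hn => i3 x hx n hn (by omega)
  have c2 : CF1 (Q'.gam (F c)) := c1.gam (h.zc c)
  have hd : Dim (F c) (d - c + 1) := by
    have := h.dim c le_rfl
    rwa [show d + 1 - c = d - c + 1 by omega] at this
  obtain ⟨V1, z1, d1, p1⟩ := CF.dim c1 (h.zc c) hd
  obtain ⟨V2, z2, d2, p2⟩ := CF.dim c2 (h.zc c) hd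
  obtain ⟨V3, z3, d3, p3⟩ := gen_chart (h.zc c) hd
  obtain ⟨F', hF⟩ : ∃ F' : ℕ → Set (Fin N → ℂ),
      F' = fun j => if j ≤ c then F j else F c ∩ (V1 ∪ V2 ∪ V3) := ⟨_, rfl⟩
  have e1 : ∀ j ≤ c, F' j = F j := fun j hj => by simp only [hF, hj, if_true]
  have e2 : ∀ j, c < j → F' j = F c ∩ (V1 ∪ V2 ∪ V3) := fun j hj => by
    simp only [hF, hj.not_ge, if_false]
  have s1 : ∀ j < c, F j \ F (j + 1) ⊆ (F c)ᶜ := fun j hj x hx hx' => hx.2 (h.anti hj hx')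
  have s2 : ∀ j ≤ c, (F j)ᶜ ⊆ (F c)ᶜ := fun j hj => compl_subset_compl.2 (h.anti hj)
  have t1 : ∀ n A B, B ⊆ A → A ⊆ (F c)ᶜ → (Q'.Ex n A B ↔ Q.Ex n A B) := fun n A B hB hA =>
    (f.ex_iff (fun m => (i1 m).mono hA) hB).trans (FC.ex_loc_iff op hA hB)
  have t2 : ∀ j ≤ c, ∀ n A B, B ⊆ A → A ⊆ (F c)ᶜ →
      ((Q'.gam (F j)).Ex n A B ↔ (Q.gam (F j)).Ex n A B) := fun j hj n A B hB hA =>
    (f.ex_gam_iff (cl j) (fun m => (i1 m).mono (union_subset hA (s2 j hj))) hB).trans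
      (FC.ex_gam_loc_iff op (cl j) (s2 j hj) hA hB)
  have old : ∀ j < c, F' j = F j ∧ F' (j + 1) = F (j + 1) := fun j hj => ⟨e1 j hj.le, e1 _ hj⟩
  have new : F' c \ F' (c + 1) ⊆ F c \ (V1 ∪ V2 ∪ V3) := by
    rw [e1 c le_rfl, e2 _ c.lt_succ_self]
    exact fun x hx => ⟨hx.1, fun hv => hx.2 ⟨hx.1, hv⟩⟩
  refine ⟨X', Q', a', F', e1, ?_, c1, fun j => ?_, fun i j hij => ?_, fun j hj => ?_,
    fun j hj x hx => ?_, ?_, fun j hj => ?_, fun j hj x hx n n0 n1 => ?_,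
    fun j hj j0 x hx n n1 => ?_⟩
  · rw [e1 0 h0.le]
    exact f.supp (fun n => (i1 n).mono (s2 0 h0.le)) (h.supp.loc op (cl 0) inter_subset_left)
  · rcases le_or_gt j c with hj | hj
    · rw [e1 j hj]
      exact h.zc j
    · rw [e2 j hj]
      exact (h.zc c).inter ((z1.union z2).union z3)
  · rcases le_or_gt j c with hj | hj
    · rw [e1 j hj, e1 i (hij.trans hj)]
      exact h.anti hij
    · rcases le_or_gt i c with hi | hi
      · rw [e2 j hj, e1 i hi]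
        exact inter_subset_left.trans (h.anti hi)
      · rw [e2 j hj, e2 i hi]
  · rcases le_or_gt j c with hj' | hj'
    · rw [e1 j hj']
      exact h.dim j hj'
    · rw [e2 j hj', show d + 1 - j = d - c by omega]
      exact ((d1.union d2).union d3).mono inter_subset_right
  · rcases (Nat.lt_succ_iff.1 hj).lt_or_eq with hj' | rfl
    · rw [(old j hj').2] at hx
      rw [(old j hj').1] at hx ⊢
      exact h.chart j hj' x hx
    · rw [e1 j le_rfl]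
      exact p3 x ⟨(new hx).1, fun hv => (new hx).2 (Or.inr hv)⟩
  · rw [(old 0 h0).1, (old 0 h0).2]
    exact f.one ((i2 0 (by omega)).mono (subset_univ _)) (h.one.loc op (s1 0 h0)) a1 a2 a3
  · rcases (Nat.lt_succ_iff.1 hj).lt_or_eq with hj' | rfl
    · rw [(old j hj').1, (old j hj').2]
      exact ⟨(FC.pc_congr fun n A B hB hA => t1 n A B hB (hA.trans (s1 j hj'))).2 (h.pc j hj').1,
        (FC.pc_congr fun n A B hB hA => t2 j hj'.le n A B hB (hA.trans (s1 j hj'))).2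
          (h.pc j hj').2⟩
    · refine ⟨(p1 ()).mono fun x hx =>
        ⟨⟨(new hx).1, fun hv => (new hx).2 (Or.inl (Or.inl hv))⟩, trivial⟩, ?_⟩
      have := (p2 ()).mono (B := F' j \ F' (j + 1)) fun x hx =>
        ⟨⟨(new hx).1, fun hv => (new hx).2 (Or.inl (Or.inr hv))⟩, trivial⟩
      rwa [← e1 j le_rfl] at this
  · rcases (Nat.lt_succ_iff.1 hj).lt_or_eq with hj' | rfl
    · rw [(old j hj').1, (old j hj').2] at hx
      exact (t1 n _ _ (empty_subset _) (singleton_subset_iff.2 (s1 j hj' hx))).2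
        (h.deg j hj' x hx n n0 n1)
    · exact i3 x (new hx).1 n (by omega) n0
  · rcases (Nat.lt_succ_iff.1 hj).lt_or_eq with hj' | rfl
    · rw [(old j hj').2] at hx
      rw [(old j hj').1] at hx ⊢
      exact (t2 j hj'.le n _ _ (empty_subset _) (singleton_subset_iff.2 (s1 j hj' hx))).2
        (h.codeg j hj' j0 x hx n n1)
    · rw [e1 j le_rfl]
      exact f.codeg (cl j) (i2 _ (by omega)) x

theorem exists_fic {p : Ideal (MvPolynomial (Fin N) ℂ)} (hp : p.IsPrime) :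
    ∃ (d : ℕ) (X : Cx) (Q : FC X (Fin N → ℂ)) (a : X.V 0) (F : ℕ → Set (Fin N → ℂ)),
      F 0 = ZI p ∧ (F 0 \ F 1).Nonempty ∧ ∀ c, FIC d F Q a c := by
  obtain ⟨d, X, Q, a, F, b⟩ := fic_one hp
  have key : ∀ c ≤ d, ∃ (X : Cx) (Q : FC X (Fin N → ℂ)) (a : X.V 0)
      (F : ℕ → Set (Fin N → ℂ)), F 0 = ZI p ∧ (F 0 \ F 1).Nonempty ∧ FIC d F Q a (c + 1) := by
    intro c
    induction c with
    | zero => exact fun _ => ⟨X, Q, a, F, b⟩
    | succ c ih =>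
      intro hc
      obtain ⟨X, Q, a, F, b1, b2, b3⟩ := ih (by omega)
      obtain ⟨X', Q', a', F', e, h⟩ := b3.step c.succ_pos hc
      refine ⟨X', Q', a', F', (e 0 (by omega)).trans b1, ?_, h⟩
      rwa [e 0 (by omega), e 1 (by omega)]
  obtain ⟨X, Q, a, F, b1, b2, h⟩ := key d le_rfl
  have em : ∀ j, d + 1 ≤ j → F j = ∅ := fun j hj => by
    have := h.dim (d + 1) le_rfl
    rw [Nat.sub_self, dim_zero] at this
    exact subset_eq_empty (h.anti hj) this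
  have lt : ∀ j x, x ∈ F j \ F (j + 1) → j < d + 1 := fun j x hx => by
    by_contra hj
    have := hx.1
    rw [em j (by omega)] at this
    exact this
  have pe : ∀ (R : FC X (Fin N → ℂ)) (j : ℕ), d + 1 ≤ j → R.PC (F j \ F (j + 1)) :=
    fun R j hj γ _ _ hm => absurd (lt j _ (hm (left_mem_Icc.2 zero_le_one))) (by omega)
  refine ⟨d, X, Q, a, F, b1, b2, fun c => ⟨h.supp, h.cf, h.zc, h.anti, fun j _ => ?_,
    fun j _ x hx => h.chart j (lt j x hx) x hx, h.one, fun j _ => ?_,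
    fun j _ x hx => h.deg j (lt j x hx) x hx, fun j _ j0 x hx => h.codeg j (lt j x hx) j0 x hx⟩⟩
  · rcases le_or_gt j (d + 1) with hj | hj
    · exact h.dim j hj
    · rw [em j hj.le]
      exact dim_empty _
  · rcases lt_or_ge j (d + 1) with hj | hj
    exacts [h.pc j hj, ⟨pe _ j hj, pe _ j hj⟩]

theorem FIC.lcn {Q : FC X (Fin N → ℂ)} {a : X.V 0} {F : ℕ → Set (Fin N → ℂ)}
    (h : FIC d F Q a c) {j : ℕ} (hj : j < c) (n : ℤ) :
    Q.LCn (F j \ F (j + 1)) n ∧ (Q.gam (F j)).LCn (F j \ F (j + 1)) n := by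
  have hM : Mf (F j \ F (j + 1)) := mf_of_chart (h.zc _).isClosed fun x hx =>
    (h.chart j hj x hx).elim fun s hs => ⟨_, _, hs⟩
  exact ⟨(FC.la_of_cf h.cf hM (h.pc j hj).1).lcn n,
    (FC.la_of_cf (h.cf.gam (h.zc j)) hM (h.pc j hj).2).lcn n⟩

end Pool.Agent.PWV
end
end

-- part Pool.Agent.P.MP_65ad7c_ag.DVar
section

/-! An affine variety is a closed subset of complex affine space. -/

open Set TopologicalSpace Topology Filter

noncomputable section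
namespace Pool.Agent.PWD

variable {R : Type} [CommRing R] [Algebra ℂ R] {Y : Set (R → ℂ)}

/-- `Y` is the set of complex points of a closed subvariety of `Spec R` -/
def IsVar (Y : Set (R → ℂ)) : Prop :=
  ∃ P : Set R, Y = {y | (∃ φ : R →ₐ[ℂ] ℂ, ⇑φ = y) ∧ ∀ f ∈ P, y f = 0}

variable {N : ℕ} {f : Fin N → R}

theorem dvar_surj (hf : Algebra.adjoin ℂ (range f) = ⊤) :
    Function.Surjective (MvPolynomial.aeval f : MvPolynomial (Fin N) ℂ →ₐ[ℂ] R) := by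
  rw [Algebra.adjoin_range_eq_range_aeval] at hf
  exact (AlgHom.range_eq_top _).1 hf

theorem dvar_eval (φ : R →ₐ[ℂ] ℂ) (p : MvPolynomial (Fin N) ℂ) :
    φ (MvPolynomial.aeval f p) = MvPolynomial.eval (fun j => φ (f j)) p := by
  rw [MvPolynomial.comp_aeval_apply]
  rfl

/-- regular functions are polynomials in the coordinates -/
theorem IsVar.exists_poly (hY : IsVar Y) (hf : Algebra.adjoin ℂ (range f) = ⊤) (g : R) :
    ∃ p : MvPolynomial (Fin N) ℂ, ∀ y : Y, y.1 g = MvPolynomial.eval (fun j => y.1 (f j)) p := by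
  obtain ⟨p, rfl⟩ := dvar_surj hf g
  obtain ⟨P, rfl⟩ := hY
  refine ⟨p, fun y => ?_⟩
  obtain ⟨φ, hφ⟩ := y.2.1
  rw [← hφ, dvar_eval]

/-- the coordinates embed `Y` as a closed subset of `ℂ^N` -/
theorem IsVar.closedEmb (hY : IsVar Y) (hf : Algebra.adjoin ℂ (range f) = ⊤) :
    Topology.IsClosedEmbedding fun (y : Y) j => y.1 (f j) := by
  choose p hp using hY.exists_poly hf
  have hc : Continuous fun (y : Y) j => y.1 (f j) :=
    continuous_pi fun j => (continuous_apply (f j)).comp continuous_subtype_val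
  have hr : Continuous fun (z : Fin N → ℂ) (g : R) => MvPolynomial.eval z (p g) :=
    continuous_pi fun g => MvPolynomial.continuous_eval (p g)
  have he : (fun (z : Fin N → ℂ) (g : R) => MvPolynomial.eval z (p g)) ∘
      (fun (y : Y) j => y.1 (f j)) = Subtype.val := funext fun y => funext fun g => (hp g y).symm
  refine ⟨IsEmbedding.of_comp hc hr (by rw [he]; exact IsEmbedding.subtypeVal), ?_⟩
  obtain ⟨P, hP⟩ := hY
  have : range (fun (y : Y) j => y.1 (f j)) = ⋂ q ∈ {q : MvPolynomial (Fin N) ℂ |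
      MvPolynomial.aeval f q = 0 ∨ MvPolynomial.aeval f q ∈ P},
      {z | MvPolynomial.eval z q = 0} := by
    ext z
    simp only [mem_iInter, mem_ofPred_eq, mem_range]
    constructor
    · rintro ⟨y, rfl⟩ q hq
      obtain ⟨⟨φ, hφ⟩, hy⟩ : (∃ φ : R →ₐ[ℂ] ℂ, ⇑φ = y.1) ∧ ∀ g ∈ P, y.1 g = 0 :=
        hP.le y.2
      rw [← hφ, ← dvar_eval]
      rcases hq with h | h
      · rw [h, map_zero]
      · rw [hφ]
        exact hy _ h
    · intro hz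
      let φ : R →ₐ[ℂ] ℂ := AlgHom.liftOfSurjective _ (dvar_surj hf) (MvPolynomial.aeval z)
        fun q hq => hz q (Or.inl hq)
      have hφ : ∀ q, φ (MvPolynomial.aeval f q) = MvPolynomial.eval z q := fun q =>
        AlgHom.liftOfSurjective_apply _ _ _ _ q
      refine ⟨⟨φ, ?_⟩, funext fun j => ?_⟩
      · rw [hP]
        refine ⟨⟨φ, rfl⟩, fun g hg => ?_⟩
        obtain ⟨q, rfl⟩ := dvar_surj hf g
        rw [hφ]
        exact hz q (Or.inr hg)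
      · simpa using hφ (MvPolynomial.X j)
  rw [this]
  exact isClosed_biInter fun q _ => isClosed_eq (MvPolynomial.continuous_eval q) continuous_const

theorem IsVar.locallyCompact (hY : IsVar Y) (hf : Algebra.adjoin ℂ (range f) = ⊤) :
    LocallyCompactSpace Y := (hY.closedEmb hf).locallyCompactSpace

theorem IsVar.secondCountable (hY : IsVar Y) (hf : Algebra.adjoin ℂ (range f) = ⊤) :
    SecondCountableTopology Y := (hY.closedEmb hf).isEmbedding.secondCountableTopology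

theorem IsVar.metrizable (hY : IsVar Y) (hf : Algebra.adjoin ℂ (range f) = ⊤) :
    MetrizableSpace Y := (hY.closedEmb hf).isEmbedding.metrizableSpace

end Pool.Agent.PWD
end
end

-- part Pool.Agent.P.MP_65ad7c_ag.VEmb
section

/-! Algebraic subsets, dimension and charts of an affine variety in coordinates. -/

open Set Filter Topology TopologicalSpace MvPolynomial
open Pool.Agent.PWD

noncomputable section
namespace Pool.Agent.PWV

variable {R : Type} [CommRing R] [Algebra ℂ R] {Y : Set (R → ℂ)} {N : ℕ} {f : Fin N → R}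

/-- The coordinates. -/
def emb (f : Fin N → R) : C(Y, Fin N → ℂ) :=
  ⟨fun y j => y.1 (f j), continuous_pi fun j => (continuous_apply (f j)).comp continuous_subtype_val⟩

theorem emb_aeval (hY : IsVar Y) (y : Y) (p : MvPolynomial (Fin N) ℂ) :
    y.1 (aeval f p) = eval (emb f y) p := by
  obtain ⟨P, rfl⟩ := hY
  obtain ⟨φ, hφ⟩ := y.2.1
  change _ = eval (fun j => y.1 (f j)) p
  rw [← hφ, dvar_eval]

theorem zc_range (hY : IsVar Y) (hf : Algebra.adjoin ℂ (range f) = ⊤) :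
    ZC (range (emb (Y := Y) f)) := by
  obtain ⟨P, hP⟩ := id hY
  refine ⟨{q | aeval f q = 0 ∨ aeval f q ∈ P}, Set.ext fun z => ⟨?_, fun hz => ?_⟩⟩
  · rintro ⟨y, rfl⟩ q hq
    obtain ⟨⟨φ, hφ⟩, hy⟩ : (∃ φ : R →ₐ[ℂ] ℂ, ⇑φ = y.1) ∧ ∀ g ∈ P, y.1 g = 0 := hP.le y.2
    rw [← emb_aeval hY]
    rcases hq with h | h
    · rw [h, ← hφ, map_zero]
    · exact hy _ h
  · let φ : R →ₐ[ℂ] ℂ := AlgHom.liftOfSurjective _ (dvar_surj hf) (aeval z)
      fun q hq => hz q (Or.inl hq)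
    have hφ : ∀ q, φ (aeval f q) = eval z q := fun q => AlgHom.liftOfSurjective_apply _ _ _ _ q
    refine ⟨⟨φ, ?_⟩, funext fun j => ?_⟩
    · rw [hP]
      refine ⟨⟨φ, rfl⟩, fun g hg => ?_⟩
      obtain ⟨q, rfl⟩ := dvar_surj hf g
      rw [hφ]
      exact hz q (Or.inr hg)
    · simpa [emb] using hφ (X j)

theorem zc_image (hY : IsVar Y) (hf : Algebra.adjoin ℂ (range f) = ⊤) {H : Set Y}
    (hH : ∃ T : Set R, ∀ y, y ∈ H ↔ ∀ g ∈ T, y.1 g = 0) : ZC (emb f '' H) := by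
  obtain ⟨T, hT⟩ := hH
  have : emb f '' H = range (emb (Y := Y) f) ∩ {x | ∀ q ∈ {q | aeval f q ∈ T}, eval x q = 0} := by
    ext x
    constructor
    · rintro ⟨y, hy, rfl⟩
      exact ⟨⟨y, rfl⟩, fun q hq => by rw [← emb_aeval hY]; exact (hT y).1 hy _ hq⟩
    · rintro ⟨⟨y, rfl⟩, h⟩
      refine ⟨y, (hT y).2 fun g hg => ?_, rfl⟩
      obtain ⟨q, rfl⟩ := dvar_surj hf g
      rw [emb_aeval hY]
      exact h q hg
  rw [this]
  exact (zc_range hY hf).inter ⟨_, rfl⟩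

theorem dim_image (hY : IsVar Y) {A : Set Y} {k : ℕ} (h : DimLT A k) : Dim (emb f '' A) k := by
  intro F
  obtain ⟨p, hp, h'⟩ := h fun i => aeval f (F i)
  refine ⟨p, hp, ?_⟩
  rintro _ ⟨y, hy, rfl⟩
  simpa only [emb_aeval hY] using h' y hy

theorem chart_image (hY : IsVar Y) (hf : Algebra.adjoin ℂ (range f) = ⊤) {k : ℕ}
    {G : Fin k → MvPolynomial (Fin N) ℂ} {W F : Set Y} (hW : IsOpen W) {x : Y} (hx : x ∈ W ∩ F)
    (h : IsOpenEmbedding fun (y : ↥(W ∩ F)) i => y.1.1 (aeval f (G i))) :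
    Chart (emb f '' F) G (emb f x) := by
  classical
  have he : IsClosedEmbedding (emb (Y := Y) f) := hY.closedEmb hf
  obtain ⟨W₁, hW₁, hWW⟩ := he.isInducing.isOpen_iff.1 hW
  set g := fun (y : ↥(W ∩ F)) i => y.1.1 (aeval f (G i)) with hg
  have : Nonempty ↥(W ∩ F) := ⟨⟨x, hx⟩⟩
  have hinv : ∀ y, Function.invFun g (g y) = y := Function.leftInverse_invFun h.injective
  refine ⟨range g, W₁, fun z => emb f (Function.invFun g z).1, h.isOpen_range, hW₁,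
    by rw [← mem_preimage, hWW]; exact hx.1, ?_, ?_, ?_⟩
  · refine ((emb f).continuous.comp continuous_subtype_val).comp_continuousOn ?_
    rw [h.isInducing.continuousOn_iff]
    exact continuousOn_id.congr (by rintro _ ⟨y, rfl⟩; simp [hinv])
  · ext z
    constructor
    · rintro ⟨⟨y, hy, rfl⟩, hz⟩
      rw [← mem_preimage, hWW] at hz
      exact ⟨g ⟨y, hz, hy⟩, ⟨_, rfl⟩, by simp only [hinv]⟩
    · rintro ⟨z, -, rfl⟩
      refine ⟨⟨_, (Function.invFun g z).2.2, rfl⟩, ?_⟩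
      rw [← mem_preimage, hWW]
      exact (Function.invFun g z).2.1
  · rintro _ ⟨y, rfl⟩
    funext i
    simp only [hinv, pm]
    exact (emb_aeval hY _ _).symm

theorem strat_chart (hY : IsVar Y) (hf : Algebra.adjoin ℂ (range f) = ⊤) {d : ℕ}
    {U : ℕ → Opens Y} (hU : IsStrat d U) {c k : ℕ} (hk : k = d - c) :
    ∃ 𝒢 : Set (Fin k → MvPolynomial (Fin N) ℂ), 𝒢.Finite ∧
      ∀ y ∈ (U (c + 1) \ U c : Set Y), ∃ G ∈ 𝒢, Chart (emb f '' (U c : Set Y)ᶜ) G (emb f y) := by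
  subst hk
  obtain ⟨T, hT⟩ := hU.chart c
  choose p hp using dvar_surj hf
  refine ⟨{G | ∀ i, G i ∈ p '' T}, Set.Finite.pi' fun _ => T.finite_toSet.image p, fun y hy => ?_⟩
  obtain ⟨g, W, h1, h2, h3⟩ := hT y hy
  refine ⟨fun i => p (g i), fun i => ⟨_, h1 i, rfl⟩, chart_image hY hf (W := W ∩ U (c + 1))
    (W.2.inter (U _).2) ⟨⟨h2, hy.1⟩, hy.2⟩ ?_⟩
  simp only [hp]
  have e : (W : Set Y) ∩ U (c + 1) ∩ (U c : Set Y)ᶜ =
      (W : Set Y) ∩ ((U (c + 1) : Set Y) \ U c) := inter_assoc _ _ _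
  exact h3.comp (Homeomorph.setCongr e).isOpenEmbedding

end Pool.Agent.PWV
end
end

-- part Pool.Agent.P.MP_65ad7c_ag.XJ0
section

open Set Filter Topology TopologicalSpace MvPolynomial
open Pool.Agent.PWD
open Pool.Agent.PWF (Pts)

noncomputable section
namespace Pool.Agent.PWV

variable {R : Type} [CommRing R] [Algebra ℂ R] {Y : Set (R → ℂ)} {N d : ℕ} {f : Fin N → R}
  {U : ℕ → Opens Y}

theorem open_zero_XJ0 {k : ℕ} {p : MvPolynomial (Fin k) ℂ} {O : Set (Fin k → ℂ)} (hO : IsOpen O)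
    {z : Fin k → ℂ} (hz : z ∈ O) (h : ∀ x ∈ O, eval x p = 0) : p = 0 := by
  obtain ⟨ε, hε, hb⟩ := Metric.isOpen_iff.1 hO z hz
  refine MvPolynomial.funext_set (fun i => Metric.ball (z i) ε)
    (fun i => infinite_of_mem_nhds (z i) (Metric.ball_mem_nhds _ hε)) fun x hx => ?_
  rw [map_zero]
  refine h x (hb ?_)
  rw [ball_pi _ hε]
  exact hx

theorem range_emb (hf : Algebra.adjoin ℂ (range f) = ⊤) (P : Ideal R) :
    range (emb (Y := Pts P) f) = ZI (P.comap (aeval f : MvPolynomial (Fin N) ℂ →ₐ[ℂ] R)) := by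
  have hY : IsVar (Pts P) := ⟨P, rfl⟩
  ext z
  constructor
  · rintro ⟨y, rfl⟩ q hq
    rw [← emb_aeval hY]
    exact y.2.2 _ hq
  · intro hz
    let φ : R →ₐ[ℂ] ℂ := AlgHom.liftOfSurjective _ (dvar_surj hf) (aeval z)
      fun q hq => hz q (by
        have h0 : aeval f q = 0 := hq
        rw [Ideal.mem_comap, h0]
        exact P.zero_mem)
    have hφ : ∀ q, φ (aeval f q) = eval z q := fun q => AlgHom.liftOfSurjective_apply _ _ _ _ q
    refine ⟨⟨φ, ⟨φ, rfl⟩, fun g hg => ?_⟩, funext fun j => ?_⟩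
    · obtain ⟨q, rfl⟩ := dvar_surj hf g
      rw [hφ]
      exact hz q hg
    · simpa [emb] using hφ (X j)

theorem dimLT_of_dim (hY : IsVar Y) (hf : Algebra.adjoin ℂ (range f) = ⊤) {A : Set Y} {k : ℕ}
    (h : Dim (emb f '' A) k) : DimLT A k := by
  intro g
  choose p hp using dvar_surj hf
  obtain ⟨q, hq, h'⟩ := h fun i => p (g i)
  refine ⟨q, hq, fun y hy => ?_⟩
  have h2 := h' _ ⟨y, hy, rfl⟩
  simpa only [← emb_aeval hY, hp] using h2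

theorem dim_range (hY : IsVar Y) (hU : IsStrat d U) : Dim (range (emb (Y := Y) f)) (d + 1) := by
  have h := hU.dim 0
  rw [hU.zero] at h
  have h2 := dim_image (f := f) hY h
  simpa using h2

theorem not_dim_range (hY : IsVar Y) (hf : Algebra.adjoin ℂ (range f) = ⊤) (hU : IsStrat d U)
    (h1 : (U 1).1.Nonempty) : ¬ Dim (range (emb (Y := Y) f)) d := by
  intro h
  rw [← image_univ] at h
  have h2 := dimLT_of_dim hY hf h
  obtain ⟨x, hx⟩ := h1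
  obtain ⟨T, hT⟩ := hU.chart 0
  have hx0 : x ∉ (U 0 : Set Y) := by rw [hU.zero]; simp
  obtain ⟨g, W, -, hW, he⟩ := hT x ⟨hx, hx0⟩
  obtain ⟨p, hp, h3⟩ := h2 g
  refine hp (open_zero_XJ0 he.isOpen_range ⟨⟨x, hW, hx, hx0⟩, rfl⟩ ?_)
  rintro _ ⟨y, rfl⟩
  exact h3 y.1 trivial

theorem exists_eqn (hY : IsVar Y) (hf : Algebra.adjoin ℂ (range f) = ⊤) (hU : IsStrat d U)
    (h1 : (U 1).1.Nonempty) : ∃ h : MvPolynomial (Fin N) ℂ, (∃ y : Y, eval (emb f y) h ≠ 0) ∧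
      ∀ y : Y, y ∉ U 1 → eval (emb f y) h = 0 := by
  obtain ⟨T, hT⟩ := hU.alg 1
  obtain ⟨x, hx⟩ := h1
  have h2 : ¬ ∀ g ∈ T, x.1 g = 0 := fun h => (hT x).2 h hx
  push Not at h2
  obtain ⟨g, hg, hxg⟩ := h2
  obtain ⟨q, rfl⟩ := dvar_surj hf g
  refine ⟨q, ⟨x, by rwa [← emb_aeval hY]⟩, fun y hy => ?_⟩
  rw [← emb_aeval hY]
  exact (hT y).1 hy _ hg

/-- local coordinates on the image give local coordinates on the variety -/
theorem emb_of_chart (hY : IsVar Y) (hf : Algebra.adjoin ℂ (range f) = ⊤) {k : ℕ}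
    {ι : Fin k → Fin N} {F : Set (Fin N → ℂ)} (hF : F ⊆ range (emb (Y := Y) f)) {O : Opens Y}
    {x : Y} (hx : x ∈ O) (h : Chart F (fun i => X (ι i)) (emb f x)) :
    ∃ W : Opens Y, x ∈ W ∧ IsOpenEmbedding
      fun (y : ↥((W : Set Y) ∩ ((O : Set Y) \ (emb f ⁻¹' F)ᶜ))) i => y.1.1 (f (ι i)) := by
  have he : IsClosedEmbedding (emb (Y := Y) f) := hY.closedEmb hf
  obtain ⟨O', N', ψ, hO', hN', hxN, hψ, hFN, hinv⟩ := h
  refine ⟨O ⊓ ⟨emb f ⁻¹' N', hN'.preimage (emb f).continuous⟩, ⟨hx, hxN⟩, ?_⟩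
  have hpm : ∀ y : Y, (fun i => y.1 (f (ι i))) = pm (fun i => X (ι i)) (emb f y) := fun y => by
    funext i; simp [pm, emb]
  have key : ∀ y : Y, emb f y ∈ F → emb f y ∈ N' →
      (fun i => y.1 (f (ι i))) ∈ O' ∧ ψ (fun i => y.1 (f (ι i))) = emb f y := fun y h1 h2 => by
    obtain ⟨u, hu, hu'⟩ : emb f y ∈ ψ '' O' := hFN ▸ ⟨h1, h2⟩
    rw [hpm, ← hu', hinv u hu]
    exact ⟨hu, rfl⟩
  refine IsOpenEmbedding.of_continuous_injective_isOpenMap ?_ ?_ ?_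
  · exact continuous_pi fun i => (continuous_apply _).comp
      (continuous_subtype_val.comp continuous_subtype_val)
  · intro y y' hyy
    have h1 := (key y.1 (not_not.1 y.2.2.2) y.2.1.2).2
    have h2 := (key y'.1 (not_not.1 y'.2.2.2) y'.2.1.2).2
    have h3 : (fun i => y.1.1 (f (ι i))) = fun i => y'.1.1 (f (ι i)) := hyy
    rw [h3, h2] at h1
    exact Subtype.ext (he.injective h1.symm)
  · intro V hV
    obtain ⟨V1, hV1, rfl⟩ := isOpen_induced_iff.1 hV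
    obtain ⟨V2, hV2, hVV⟩ := he.isInducing.isOpen_iff.1 (hV1.inter O.2)
    have h1 := hψ.isOpen_inter_preimage hO' hV2
    refine (congrArg IsOpen (Set.ext fun u => ⟨?_, ?_⟩)).mpr h1
    · rintro ⟨y, hy, rfl⟩
      obtain ⟨h2, h3⟩ := key y.1 (not_not.1 y.2.2.2) y.2.1.2
      refine ⟨h2, ?_⟩
      have h4 : y.1 ∈ emb f ⁻¹' V2 := by rw [hVV]; exact ⟨hy, y.2.2.1⟩
      rw [mem_preimage, h3]
      exact h4
    · rintro ⟨hu, hu2⟩
      have h2 : ψ u ∈ F ∩ N' := hFN ▸ ⟨u, hu, rfl⟩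
      obtain ⟨y, hy⟩ := hF h2.1
      have h3 : y ∈ V1 ∩ (O : Set Y) := by
        have h4 : y ∈ emb f ⁻¹' V2 := by rw [mem_preimage, hy]; exact hu2
        rw [hVV] at h4
        exact h4
      have h5 : emb f y ∈ F := by rw [hy]; exact h2.1
      have h6 : emb f y ∈ N' := by rw [hy]; exact h2.2
      refine ⟨⟨y, ⟨h3.2, h6⟩, h3.2, not_not.2 h5⟩, h3.1, ?_⟩
      show (fun i => y.1 (f (ι i))) = u
      rw [hpm, hy, hinv u hu]

end Pool.Agent.PWV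
end
end

-- part Pool.Agent.P.MP_65ad7c_ag.YD2
section

open Set Filter Topology TopologicalSpace CategoryTheory Opposite
open Pool.Agent.PWD (Sec rs dd Coc Cob IsIC IsStrat IsVar)

noncomputable section
namespace Pool.Agent.PWV

variable {R : Type} [CommRing R] [Algebra ℂ R] {N : ℕ} {f : Fin N → R}

theorem strat_of_filt {Y : Set (R → ℂ)} (hY : IsVar Y) (hf : Algebra.adjoin ℂ (range f) = ⊤)
    {d : ℕ} {F : ℕ → Set (Fin N → ℂ)} (h0 : F 0 = range (emb (Y := Y) f)) (hz : ∀ j, ZC (F j))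
    (ha : Antitone F) (hd : ∀ j, Dim (F j) (d + 1 - j))
    (hc : ∀ j, ∀ x ∈ F j \ F (j + 1),
      ∃ s : Fin (d - j) → Fin N, Chart (F j) (fun i => MvPolynomial.X (s i)) x) :
    ∃ U : ℕ → Opens Y, IsStrat d U ∧ ∀ j y, y ∉ U j ↔ emb f y ∈ F j := by
  classical
  let U' : ℕ → Opens Y := fun c =>
    ⟨(emb f ⁻¹' F c)ᶜ, ((hz c).isClosed.preimage (emb f).continuous).isOpen_compl⟩
  have hm : ∀ c y, y ∉ U' c ↔ emb f y ∈ F c := fun c y => not_not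
  have hr : ∀ c, F c ⊆ range (emb (Y := Y) f) := fun c => (ha (Nat.zero_le c)).trans h0.le
  refine ⟨U', ⟨?_, fun a b hab y hy h => hy (ha hab h), fun c => ?_, fun c => ?_, fun c => ?_⟩, hm⟩
  · refine le_bot_iff.1 fun y hy => absurd hy ((hm 0 y).2 ?_)
    rw [h0]
    exact ⟨y, rfl⟩
  · obtain ⟨S, hS⟩ := hz c
    refine ⟨MvPolynomial.aeval f '' S, fun y => ?_⟩
    rw [hm, hS, forall_mem_image]
    simp only [emb_aeval hY, mem_ofPred_eq]
  · refine dimLT_of_dim hY hf ((hd c).mono ?_)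
    rintro _ ⟨y, hy, rfl⟩
    exact (hm c y).1 hy
  · refine ⟨Finset.univ.image f, fun x hx => ?_⟩
    obtain ⟨ι, hι⟩ := hc c (emb f x) ⟨(hm c x).1 hx.2, hx.1⟩
    obtain ⟨W, h1, h2⟩ := emb_of_chart hY hf (hr c) (O := U' (c + 1)) hx.1 hι
    exact ⟨fun i => f (ι i), W, fun i => Finset.mem_image_of_mem f (Finset.mem_univ _), h1, h2⟩

theorem stratum_YD2 {T : Type} {F : ℕ → Set T} {x : T} (h0 : x ∈ F 0) {c : ℕ}
    (hc : x ∉ F (c + 1)) : ∃ j ≤ c, x ∈ F j \ F (j + 1) := by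
  induction c with
  | zero => exact ⟨0, le_rfl, h0, hc⟩
  | succ c ih =>
    by_cases h : x ∈ F (c + 1)
    · exact ⟨c + 1, le_rfl, h, hc⟩
    · obtain ⟨j, hj, hx⟩ := ih h
      exact ⟨j, hj.trans (Nat.le_succ c), hx⟩

theorem cob_off_YD2 {Y : Type} [TopologicalSpace Y] {I : PWD.Cx Y} {n : ℕ} {W : Opens Y}
    {C : Set Y} {s : Sec I n W} (hs : Coc C s) {y : Y} (hy : y ∈ W) (hC : y ∉ C) : Cob C y s := by
  obtain ⟨W', h, h1, h2⟩ := hs.1 y hy hC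
  exact ⟨W', h, 0, 0, h1, fun z hz _ => ⟨W', le_rfl, hz, map_zero _⟩, by rw [map_zero, h2]⟩

/-- The intersection complex exists. -/
theorem exists_ic {P : Ideal R} (hP : P.IsPrime) (hf : Algebra.adjoin ℂ (range f) = ⊤) :
    ∃ (d : ℕ) (U : ℕ → Opens (PWF.Pts P)) (I : PWD.Cx (PWF.Pts P)) (one : Sec I 0 (U 1)),
      IsStrat d U ∧ (U 1).1.Nonempty ∧ IsIC U I one := by
  have hY : IsVar (PWF.Pts P) := ⟨P, rfl⟩
  have he : IsClosedEmbedding (emb (Y := PWF.Pts P) f) := hY.closedEmb hf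
  obtain ⟨d, X, Q, a, F, h0, hne, hF⟩ := exists_fic
    (Ideal.IsPrime.comap (MvPolynomial.aeval f : MvPolynomial (Fin N) ℂ →ₐ[ℂ] R) (K := P))
  rw [← range_emb hf P] at h0
  obtain ⟨U, hU, hm⟩ := strat_of_filt hY hf h0 (hF 0).zc (hF 0).anti
    (fun j => (hF j).dim j le_rfl) (fun j => (hF (j + 1)).chart j (Nat.lt_succ_self j))
  have hm' : ∀ j y, y ∈ U j ↔ emb f y ∉ F j := fun j y => by rw [← hm, not_not]
  have hr : ∀ y, emb (Y := PWF.Pts P) f y ∈ F 0 := fun y => h0 ▸ ⟨y, rfl⟩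
  obtain ⟨I, m, h⟩ := exists_pres (Q.comap (emb f) he.isInducing)
  have hs : Q.Supp (range (emb (Y := PWF.Pts P) f)) := h0 ▸ (hF 0).supp
  obtain ⟨one, o1, o2, o3⟩ := Pres.one he h (hF 0).one (U := U 1)
    (fun y hy => ⟨hr y, (hm' 1 y).1 hy⟩)
  have hu : ∀ y : PWF.Pts P, y ∈ (univ : Set (PWF.Pts P)) ↔ emb f y ∈ (univ : Set (Fin N → ℂ)) :=
    fun y => Iff.rfl
  have hC : ∀ c, ∀ y : PWF.Pts P, y ∈ ((U c : Set (PWF.Pts P)))ᶜ ↔ emb f y ∈ F c := hm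
  have hj : ∀ n : ℕ, (n : ℤ) - 1 + 1 = n := fun n => by ring
  have hS : ∀ c, ∀ y ∈ ((U (c + 1) : Set (PWF.Pts P)) \ U c), emb f y ∈ F c \ F (c + 1) :=
    fun c y hy => ⟨(hm c y).1 hy.2, (hm' _ y).1 hy.1⟩
  refine ⟨d, U, I, one, hU, ?_, h.inj, o1, o2, o3, fun c n W s hn hc hs' y hy hy' => ?_,
    fun c n W s hc hn hs' y hy hy' => ?_, fun c n => ⟨?_, ?_⟩⟩
  · obtain ⟨x, hx0, hx1⟩ := hne
    rw [h0] at hx0
    obtain ⟨y, rfl⟩ := hx0
    exact ⟨y, (hm' 1 y).2 hx1⟩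
  · obtain ⟨j, hjc, hx⟩ := stratum_YD2 (hr y) ((hm' _ y).1 hy')
    refine Pres.cob he h hs isClosed_univ hu (hj n) ?_ hs' hy
    rw [FC.gam_univ]
    exact (hF (j + 1)).deg j (Nat.lt_succ_self j) _ hx _ (by omega) (by omega)
  · by_cases hyc : y ∈ U c
    · exact cob_off_YD2 hs' hy (not_not.2 hyc)
    · exact Pres.cob he h hs ((hF 0).zc c).isClosed (hC c) (hj n)
        ((hF (c + 1)).codeg c (Nat.lt_succ_self c) hc _ (hS c y ⟨hy', hyc⟩) _ (by omega)) hs' hy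
  · refine Pres.lc he h hs isClosed_univ hu (hj n) (hS c) ?_
    rw [FC.gam_univ]
    exact ((hF (c + 1)).lcn (Nat.lt_succ_self c) _).1
  · exact Pres.lc he h hs ((hF 0).zc c).isClosed (hC c) (hj n) (hS c)
      ((hF (c + 1)).lcn (Nat.lt_succ_self c) _).2

end Pool.Agent.PWV
end
end
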