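import Pool.Agent.P.MP_65ad7c_ag.XI4
import Pool.Agent.P.MP_65ad7c_ag.XI5
import Pool.Agent.P.MP_65ad7c_ag.XG6

open Set Filter Topology Asymptotics
open scoped ComplexConjugate
open Pool.Agent.HT (Amb proj cj IsChart IsSNC)
open Pool.Agent.PWV (ZC ZI Dim)

noncomputable section
namespace Pool.Agent.HIR

variable {n d N : ℕ} {p : Ideal (MvPolynomial (Fin N) ℂ)} {S : Sp n} {G : Alg S.M}
  {ph : Amb S.M → Amb (N + 1)} {H₀ H : MvPolynomial (Fin (N + 1)) ℂ}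

/-- a centre that dominates the variety is a resolution -/
theorem md_of_ctr (hp : p.IsPrime) (hd : Dim (ZI p) (d + 1)) (hd' : ¬ Dim (ZI p) d)
    (h : RI S G ph (ZI p) H₀ H) {C : Set (Amb S.M)} (hC : Ctr S C) (hs : C ⊆ Sg S G)
    (h2 : ∀ (P : MvPolynomial (Fin (N + 1)) ℂ) (k : ℕ), P.IsHomogeneous k → NV (ZI p) P →
      ¬ ∀ x ∈ C, ph x ∈ Wo H → ph x ∈ Zs {P}) :
    ∃ (S' : Sp d) (ph' : Amb S'.M → Amb (N + 1)), S'.r = 0 ∧ Md d S'.X ph' (ZI p) H := by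
  obtain ⟨e, hCe⟩ := hC.mf
  obtain ⟨k, hk⟩ := h.rh.hom
  have hsub : closure (C ∩ ph ⁻¹' Wo H) ⊆ C := closure_minimal inter_subset_left hC.closed
  have hX : closure (C ∩ ph ⁻¹' Wo H) ⊆ S.X := hsub.trans hC.sub
  have hm : Mf e (closure (C ∩ ph ⁻¹' Wo H)) := mf_clo hCe (h.hol.sub S.mf hC.sub) hk
  have hcj : MapsTo (cj S.M) (closure (C ∩ ph ⁻¹' Wo H)) (closure (C ∩ ph ⁻¹' Wo H)) := by
    refine MapsTo.closure (fun x hx => ⟨hC.rl hx.1, ?_⟩) (cj S.M).continuous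
    rw [mem_preimage, h.rl, cj_Wo h.rh]
    exact hx.2
  have hhol : HolP e (closure (C ∩ ph ⁻¹' Wo H)) ph := h.hol.sub S.mf hX
  have himm : ∀ x ∈ closure (C ∩ ph ⁻¹' Wo H), ph x ∈ Wo H →
      ImmP e (closure (C ∩ ph ⁻¹' Wo H)) ph x := fun x hx hw => by
    obtain ⟨ψ, w, hp⟩ := hm.chart x hx
    exact (h.imm x (hX hx) hw).sub hX hp
  have hmd : Md e (closure (C ∩ ph ⁻¹' Wo H)) ph (ZI p) H := by
    refine ⟨hhol, h.rl, fun x hx => h.ovr x (hs (hsub hx)), fun y hy => ?_,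
      h.inj.mono (inter_subset_inter_left _ hX),
      closure_mono fun x hx => ⟨subset_closure hx, hx.2⟩⟩
    by_contra hne
    obtain ⟨P, l, hP, hv, hz⟩ := chow1 hm hhol
      (closure_mono fun x hx => ⟨subset_closure hx, himm x (subset_closure hx) hx.2⟩) (cons_ne y)
      (fun ⟨x, hx, e⟩ => hne ⟨x, hx, e⟩)
    refine h2 P l hP ⟨y, hy, hv⟩ fun x hx hw => ?_
    obtain ⟨u, hu, hux⟩ := h.hol.prj S.mf (hC.sub hx)
    rw [← hux, proj_Zs (fun Q hQ => ⟨l, by rw [mem_singleton_iff.mp hQ]; exact hP⟩) hu]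
    intro Q hQ
    rw [mem_singleton_iff.mp hQ]
    exact hz u hu ⟨x, subset_closure ⟨hx, hw⟩, hux.symm⟩
  obtain rfl : e = d := hmd.dim hm hp h.nv himm hd hd'
  exact ⟨hm.sp hcj, ph, rfl, hmd⟩

end Pool.Agent.HIR
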