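import Pool.Agent.P.MP_65ad7c_ag.XI2
import Pool.Agent.P.MP_65ad7c_ag.XI3
import Pool.Agent.K.MP_65ad7c_ag.C42
import Pool.Agent.P.MP_65ad7c_ag.XF7
import Pool.Agent.P.MP_65ad7c_ag.XH1
import Pool.Agent.P.MP_65ad7c_ag.XI4
import Pool.Agent.P.MP_65ad7c_ag.XI0
import Pool.Agent.P.MP_65ad7c_ag.XI1
import Pool.Agent.P.MP_65ad7c_ag.VPrime
import Pool.Agent.K.MP_65ad7c_ag.C39
import Pool.Agent.K.MP_65ad7c_ag.C41
import Pool.Agent.P.MP_65ad7c_ag.VTr
import Pool.Agent.P.MP_65ad7c_ag.VBas2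
import Pool.Agent.P.MP_65ad7c_ag.VRat

-- part Pool.Agent.P.MP_65ad7c_ag.XI7
section

open Set Filter Topology Asymptotics
open scoped ComplexConjugate
open Pool.Agent.HT (Amb proj cj IsChart IsSNC)
open Pool.Agent.PWV (ZC ZI Dim)

noncomputable section
namespace Pool.Agent.HIR

variable {n d N : ℕ} {p : Ideal (MvPolynomial (Fin N) ℂ)} {Y : Set (Fin N → ℂ)}
  {H₀ H P : MvPolynomial (Fin (N + 1)) ℂ}

theorem RI.step {S : Sp n} {G : Alg S.M} {ph : Amb S.M → Amb (N + 1)} (h : RI S G ph Y H₀ H)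
    (β : Bl S) (hC : β.C ⊆ Sg S G) (hP : RH P) (hn : NV Y (H * P))
    (hv : ∀ x ∈ β.C, ph x ∈ Wo H → ph x ∈ Zs {P}) :
    RI β.S' (tr β G) (ph ∘ β.π) Y H₀ (H * P) := by
  obtain ⟨k, hk⟩ := hP.hom
  have key : ∀ x, ph x ∈ Wo (H * P) → ph x ∈ Wo H ∧ x ∉ β.C := fun x hx => by
    rw [Wo_mul] at hx
    exact ⟨hx.1, fun hc => Zs_Wo hk (hv x hc hx.1) hx.2⟩
  refine ⟨h.good.tr hC, h.hol.bl β, fun x => ?_, h.rh.mul hP, hn, fun v h0 => ?_, ?_,
    fun x hx hw => ?_, fun y hy hw => ?_, fun x hx h0 => h.ovr _ (sg_tr h.good.rees hC hx) h0⟩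
  · simp only [Function.comp_apply, β.rl, h.rl]
  · rw [ev_mul_XG7, Pi.mul_apply, h.dvd v h0, zero_mul]
  · intro x hx y hy e
    have a := key _ hx.2
    have b := key _ hy.2
    exact β.inj ⟨hx.1, a.2⟩ ⟨hy.1, b.2⟩ (h.inj ⟨β.maps hx.1, a.1⟩ ⟨β.maps hy.1, b.1⟩ e)
  · have a := key _ hw
    exact ImmP.off β hx a.2 (h.imm _ (β.maps hx) a.1)
  · obtain ⟨x, hx, e⟩ := h.sur y hy (by rw [Wo_mul] at hw; exact hw.1)
    have a := key x (e ▸ hw)
    obtain ⟨x', hx', rfl⟩ := β.surj ⟨hx.1, a.2⟩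
    exact ⟨x', (sg_off h.good.rees hx' a.2).2 hx, e⟩

theorem ra_ind (hp : p.IsPrime) (hs : ∀ y ∈ ZI p, star y ∈ ZI p) (hd : Dim (ZI p) (d + 1))
    (hd' : ¬ Dim (ZI p) d) {S : Sp n} {G : Alg S.M} (hR : Res S G) :
    ∀ (ph : Amb S.M → Amb (N + 1)) (H : MvPolynomial (Fin (N + 1)) ℂ), RI S G ph (ZI p) H₀ H →
      ∃ (S' : Sp d) (ph' : Amb S'.M → Amb (N + 1)) (H' : MvPolynomial (Fin (N + 1)) ℂ),
        RH H' ∧ NV (ZI p) H' ∧ (∀ v, ev H₀ v = 0 → ev H' v = 0) ∧ S'.r = 0 ∧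
          Md d S'.X ph' (ZI p) H' := by
  induction hR with
  | done h0 =>
    intro ph H h
    obtain ⟨y, hy, hn⟩ := h.nv
    obtain ⟨x, hx, -⟩ := h.sur y hy (aff_Wo.2 hn)
    rw [h0] at hx
    exact hx.elim
  | step β hC _ ih =>
    intro ph H h
    by_cases h2 : ∀ (P : MvPolynomial (Fin (N + 1)) ℂ) (k : ℕ), P.IsHomogeneous k →
        NV (ZI p) P → ¬ ∀ x ∈ β.C, ph x ∈ Wo H → ph x ∈ Zs {P}
    · obtain ⟨S', ph', h3, h4⟩ := md_of_ctr hp hd hd' h β.ctr hC h2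
      exact ⟨S', ph', H, h.rh, h.nv, h.dvd, h3, h4⟩
    · obtain ⟨P, k, hk, hn, hv⟩ : ∃ (P : MvPolynomial (Fin (N + 1)) ℂ) (k : ℕ),
          P.IsHomogeneous k ∧ NV (ZI p) P ∧ ∀ x ∈ β.C, ph x ∈ Wo H → ph x ∈ Zs {P} := by
        by_contra h3
        exact h2 fun P k a b c => h3 ⟨P, k, a, b, c⟩
      obtain ⟨P', a1, a2, a3⟩ := exists_rh hp hs hk hn
      refine ih _ _ (h.step β hC a1 (h.nv.mul hp a2) fun x hx hw Q hQ i => ?_)
      rw [mem_singleton_iff.1 hQ]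
      exact a3 _ (hv x hx hw P rfl i)

/-- resolution of singularities -/
theorem exists_md (hp : p.IsPrime) (hs : ∀ y ∈ ZI p, star y ∈ ZI p) (hd : Dim (ZI p) (d + 1))
    (hd' : ¬ Dim (ZI p) d) {h₀ : MvPolynomial (Fin N) ℂ} (h0 : h₀ ∉ p) :
    ∃ (S : Sp d) (ph : Amb S.M → Amb (N + 1)) (H : MvPolynomial (Fin (N + 1)) ℂ),
      RH H ∧ NV (ZI p) H ∧ (∀ y, MvPolynomial.eval y h₀ = 0 → ev H (Fin.cons 1 y) = 0) ∧
        S.r = 0 ∧ Md d S.X ph (ZI p) H := by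
  obtain ⟨P, k, hk, hP⟩ := exists_homog h₀
  have hn : NV (ZI p) P := by
    by_contra hn
    refine h0 (Pool.Agent.PWV.null hp fun y hy => ?_)
    by_contra h1
    exact hn ⟨y, hy, by rwa [hP]⟩
  obtain ⟨H, a1, a2, a3⟩ := exists_rh hp hs hk hn
  obtain ⟨𝒬, b1, b2, b3⟩ := exists_eqs (Pool.Agent.PWV.zc_ZI p) hs
  have hol : HolP N ((mf_Prj N).sp (cj_Prj _)).X id := fun φ z x hx => by
    obtain ⟨g, e, c1, c2, -⟩ := hx.rep
    exact ⟨g, c1, c2, Filter.EventuallyEq.of_eq e⟩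
  have hG := good_pol (S := (mf_Prj N).sp (cj_Prj _)) hol (fun _ => rfl) b1 b2
  have hSg := sg_pol (S := (mf_Prj N).sp (cj_Prj _)) (𝒬 := 𝒬) hol fun Q hQ => (b2 Q hQ).hom
  obtain ⟨S', ph', H', c1, c2, c3, c4, c5⟩ := ra_ind (H₀ := P) hp hs hd hd' (prin (blx N) hG) id H
    ⟨hG, hol, fun _ => rfl, a1, a2, a3, injOn_id _, fun x hx _ => by
      obtain ⟨φ, z, hφ⟩ := (mf_Prj N).chart x hx
      obtain ⟨g, e, d1, d2, d3⟩ := hφ.rep
      exact ⟨φ, z, g, hφ, d1, d2, Filter.EventuallyEq.of_eq e, d3⟩,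
    fun y hy _ => ⟨aff y, by rw [hSg]; exact ⟨⟨_, cons_ne y, rfl⟩, (b3 y).2 hy⟩, rfl⟩,
    fun x hx h1 => by
      rw [hSg] at hx
      exact (b3 _).1 (by rw [show aff (deh (id x)) = x from aff_deh hx.1 h1]; exact hx.2)⟩
  exact ⟨S', ph', H', c1, c2, fun y hy => c3 _ (by rwa [hP]), c4, c5⟩

end Pool.Agent.HIR
end
end

-- part Pool.Agent.P.MP_65ad7c_ag.XI8
section

open Set Filter Topology Asymptotics
open scoped ComplexConjugate
open Pool.Agent.HT (Amb proj cj IsChart IsSNC)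
open Pool.Agent.PWV (ZC ZI Dim)

noncomputable section
namespace Pool.Agent.HIR

variable {n N : ℕ} {S : Sp n} {ph : Amb S.M → Amb (N + 1)} {Y : Set (Fin N → ℂ)}
  {H : MvPolynomial (Fin (N + 1)) ℂ}

theorem Md.tr (h : Md n S.X ph Y H) (β : Bl S) (hC : ∀ x ∈ β.C, ph x ∉ Wo H) :
    Md n β.S'.X (ph ∘ β.π) Y H := by
  refine ⟨h.hol.bl β, fun x => ?_, fun x hx => h.im _ (β.maps hx), fun y hy => ?_,
    fun x hx y hy e => ?_, ?_⟩
  · show ph (β.π _) = _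
    rw [β.rl, h.rl]
    rfl
  · obtain ⟨x, hx, e⟩ := h.surj y hy
    have h1 : IsClosed (β.π '' β.S'.X) := (β.S'.mf.compact.image β.cont).isClosed
    have h2 : S.X ∩ ph ⁻¹' Wo H ⊆ β.π '' β.S'.X := fun u hu =>
      β.surj ⟨hu.1, fun hc => hC u hc hu.2⟩
    obtain ⟨x', hx', e'⟩ := h1.closure_subset_iff.2 h2 (h.dense hx)
    exact ⟨x', hx', by rw [Function.comp_apply, e', e]⟩
  · exact β.inj ⟨hx.1, fun hc => hC _ hc hx.2⟩ ⟨hy.1, fun hc => hC _ hc hy.2⟩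
      (h.inj ⟨β.maps hx.1, hx.2⟩ ⟨β.maps hy.1, hy.2⟩ e)
  · refine β.dense.trans (isClosed_closure.closure_subset_iff.2 fun x' hx' => ?_)
    obtain ⟨φ, z, hp, -⟩ := Sp.chart (β.maps hx'.1)
    obtain ⟨φ', ho⟩ := Bl.exists_off hx'.1 hx'.2 hp
    have h1 := (closure_iff_XG1 hp inter_subset_left).1 (h.dense (β.maps hx'.1))
    refine (closure_iff_XG1 ho.pt' inter_subset_left).2 (h1.mp ?_)
    filter_upwards [ho.ev] with u hu hm
    refine ⟨hu.2.pt'.mem, ?_⟩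
    show ph (β.π (φ' u)) ∈ Wo H
    rw [hu.1]
    exact hm.2

/-- a divisor that does not contain the centre pulls back to its strict transform -/
theorem pull_XI8 (β : Bl S) {x' : Amb β.S'.M} (hx : x' ∈ β.S'.X) {j : ℕ} (hj : j ≠ S.r)
    (h : β.π x' ∈ β.C → ¬ Cin β.C (S.D j) (β.π x')) :
    ∀ᶠ y in 𝓝[β.S'.X] x', β.π y ∈ S.D j → y ∈ β.S'.D j := by
  have ht : Tendsto β.π (𝓝[β.S'.X] x') (𝓝 (β.π x')) :=
    β.cont.continuousAt.tendsto.mono_left nhdsWithin_le_nhds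
  by_cases hD : β.π x' ∈ S.D j
  · by_cases hc : β.π x' ∈ β.C
    · obtain ⟨s, hs⟩ := β.ctr.chart
      obtain ⟨φ, z, T, hp, -, hT, hco⟩ := hs _ hc
      obtain ⟨i, hi⟩ := hco j hD
      have hiT : i ∉ T := fun hm => h hc ((cin_iff hp β.ctr.sub hT hc hi).2 hm)
      have hz : z i = 0 := hi.zero.1 (hp.eq ▸ hD)
      obtain ⟨φ', w, p, rfl, hu⟩ := Bl.exists_up hx hc hp hT
      have h1 := hu.str hj hi hz fun e => hiT (e ▸ hu.mem)
      refine (hu.pt'.ev_iff (P := fun y => β.π y ∈ S.D j → y ∈ β.S'.D j)).2 ?_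
      filter_upwards [h1, hu.comm, (tb_XE6 T p w).eventually hi] with u a1 a2 a3 a4
      rw [show β.π (φ' u) = φ (bet T p u) from a2] at a4
      have a5 := a3.1 a4
      rw [bet, if_neg fun hm => hiT (Finset.mem_of_mem_erase hm)] at a5
      exact a1.2 a5
    · filter_upwards [ht.eventually (β.ctr.closed.isOpen_compl.mem_nhds hc), self_mem_nhdsWithin]
        with y a1 a2 a3
      exact (Bl.mem_off a2 a1).2 a3
  · filter_upwards [ht.eventually ((S.closedD j).isOpen_compl.mem_nhds hD)] with y a1 a2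
    exact absurd a2 a1

theorem LocU.tr {A : Set (Amb S.M)} (h : LocU S A) (β : Bl S) : LocU β.S' (β.π ⁻¹' A) := by
  intro x' hx
  obtain ⟨J, hJ⟩ := h _ (β.maps hx)
  have h1 := (β.tendsto x').eventually hJ
  have ht : Tendsto β.π (𝓝[β.S'.X] x') (𝓝 (β.π x')) :=
    β.cont.continuousAt.tendsto.mono_left nhdsWithin_le_nhds
  by_cases hc : ∃ j ∈ J, Cin β.C (S.D j) (β.π x')
  · obtain ⟨j₀, hj₀, hc⟩ := hc
    refine ⟨insert S.r J, ?_⟩
    filter_upwards [h1, ht.eventually (eventually_nhdsWithin_iff.1 hc), self_mem_nhdsWithin]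
      with y a1 a2 a3
    rw [mem_preimage, a1]
    constructor
    · rintro ⟨j, hj, hy⟩
      by_cases hy' : β.π y ∈ β.C
      · exact ⟨S.r, mem_insert _ _, β.exc ▸ ⟨a3, hy'⟩⟩
      · exact ⟨j, mem_insert_of_mem _ hj, (Bl.mem_off a3 hy').2 hy⟩
    · rintro ⟨j, hj, hy⟩
      by_cases e : j = S.r
      · rw [e, β.exc] at hy
        exact ⟨j₀, hj₀, a2 hy.2⟩
      · exact ⟨j, hj.resolve_left e, β.str_sub e hy⟩
  · refine ⟨J \ {S.r}, ?_⟩
    have h2 : ∀ᶠ y in 𝓝[β.S'.X] x', ∀ j ∈ Finset.range S.r,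
        j ∈ J → β.π y ∈ S.D j → y ∈ β.S'.D j := by
      refine (eventually_all_finset _).2 fun j hj => ?_
      by_cases hjJ : j ∈ J
      · filter_upwards [pull_XI8 β hx (Finset.mem_range.1 hj).ne fun _ hh => hc ⟨j, hjJ, hh⟩]
          with y a1 _
        exact a1
      · exact Eventually.of_forall fun y a1 => absurd a1 hjJ
    filter_upwards [h1, h2] with y a1 a2
    rw [mem_preimage, a1]
    constructor
    · rintro ⟨j, hj, hy⟩
      have hl := Sp.lt hy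
      exact ⟨j, ⟨hj, hl.ne⟩, a2 j (Finset.mem_range.2 hl) hj hy⟩
    · rintro ⟨j, hj, hy⟩
      exact ⟨j, hj.1, β.str_sub hj.2 hy⟩

theorem LocU.mem {A : Set (Amb S.M)} (h : LocU S A) {x : Amb S.M} (hx : x ∈ S.X) (hA : x ∈ A) :
    ∃ j, x ∈ S.D j := by
  obtain ⟨J, hJ⟩ := h x hx
  obtain ⟨j, -, hj⟩ := (hJ.self_of_nhdsWithin hx).1 hA
  exact ⟨j, hj⟩

end Pool.Agent.HIR
end
end

-- part Pool.Agent.P.MP_65ad7c_ag.XI9
section

open Set Filter Topology Asymptotics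
open scoped ComplexConjugate
open Pool.Agent.HT (Amb proj cj IsChart IsSNC)
open Pool.Agent.PWV (ZC ZI Dim)

noncomputable section
namespace Pool.Agent.HIR

variable {n N : ℕ} {Y : Set (Fin N → ℂ)} {H P : MvPolynomial (Fin (N + 1)) ℂ}

theorem rb_ind {A B Z : Set (Amb (N + 1))} (hZ : Z ⊆ B) (hW : Z ⊆ (Wo H)ᶜ) {S : Sp n} {G : Alg S.M}
    (hR : Res S G) : ∀ ph : Amb S.M → Amb (N + 1), Good S G 1 → Md n S.X ph Y H →
      (∀ j, S.D j ⊆ ph ⁻¹' B) → LocU S (ph ⁻¹' A) → Sg S G ⊆ ph ⁻¹' Z →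
      (∀ x ∈ S.X, ph x ∈ Z → x ∈ Sg S G ∨ ∃ j, x ∈ S.D j) →
      ∃ (S' : Sp n) (ph' : Amb S'.M → Amb (N + 1)), Md n S'.X ph' Y H ∧
        (∀ j, S'.D j ⊆ ph' ⁻¹' B) ∧ LocU S' (ph' ⁻¹' A) ∧
        ∀ x ∈ S'.X, ph' x ∈ Z → ∃ j, x ∈ S'.D j := by
  induction hR with
  | @done S G he =>
    intro ph _ hM hD hA _ hc
    refine ⟨S, ph, hM, hD, hA, fun x hx hz => (hc x hx hz).resolve_left ?_⟩
    rw [he]
    exact notMem_empty x
  | @step S G β hC _ ih =>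
    intro ph hG hM hD hA hS hc
    refine ih (ph ∘ β.π) (hG.tr hC) (hM.tr β fun x hx => hW (hS (hC hx))) (fun j x hx => ?_)
      (hA.tr β) (fun x hx => hS (sg_tr hG.rees hC hx)) fun x hx hz => ?_
    · by_cases hj : j = S.r
      · subst hj
        rw [β.exc] at hx
        exact hZ (hS (hC hx.2))
      · exact hD j (β.str_sub hj hx)
    · by_cases hx' : β.π x ∈ β.C
      · exact Or.inr ((Bl.union hx).2 (Or.inl hx'))
      · rcases hc _ (β.maps hx) hz with h1 | h1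
        · exact Or.inl ((sg_off hG.rees hx hx').2 h1)
        · exact Or.inr ((Bl.union hx).2 (Or.inr h1))

/-- the boundary becomes a normal crossing divisor -/
theorem exists_rb (hH : RH H) {S : Sp n} {ph : Amb S.M → Amb (N + 1)} (h : Md n S.X ph Y H)
    (hr : S.r = 0) : ∃ (S' : Sp n) (ph' : Amb S'.M → Amb (N + 1)), Md n S'.X ph' Y H ∧
      (∀ x ∈ S'.X, (∃ j, x ∈ S'.D j) ↔ ph' x ∉ Wo H) ∧ LocU S' {x | ph' x (0, 0) = 0} := by
  obtain ⟨k, hk⟩ := hH.hom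
  have r0 : ∀ P ∈ ({MvPolynomial.X 0} : Set (MvPolynomial (Fin (N + 1)) ℂ)), RH P := by
    intro P hP
    rw [mem_singleton_iff.1 hP]
    exact rh_X 0
  have rH : ∀ P ∈ ({H} : Set (MvPolynomial (Fin (N + 1)) ℂ)), RH P := by
    intro P hP
    rw [mem_singleton_iff.1 hP]
    exact hH
  have g0 := good_pol (S := S) h.hol h.rl (finite_singleton _) r0
  have s0 := sg_pol (S := S) h.hol fun P hP => (r0 P hP).hom
  obtain ⟨S1, ph1, m1, d1, -, c1⟩ := rb_ind (H := H) (Y := Y) (A := ∅)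
    (B := {x : Amb (N + 1) | x (0, 0) = 0})
    (Z := {x : Amb (N + 1) | x (0, 0) = 0} ∩ Zs {MvPolynomial.X 0}) inter_subset_left
    (fun x hx hw => hw.1 hx.1) (prin (blx n) g0) ph g0 h
    (fun j => by
      rw [S.fin j (by omega)]
      exact empty_subset _)
    (fun x _ => ⟨∅, Eventually.of_forall fun y => by simp⟩)
    (fun x hx => by
      rw [s0] at hx
      exact ⟨(Zs_X0 (h.hol.prj S.mf hx.1)).1 hx.2, hx.2⟩)
    (fun x hx hz => Or.inl (by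
      rw [s0]
      exact ⟨hx, hz.2⟩))
  have l1 : LocU S1 (ph1 ⁻¹' {x : Amb (N + 1) | x (0, 0) = 0}) := by
    intro x _
    refine ⟨univ, ?_⟩
    filter_upwards [self_mem_nhdsWithin] with y hy
    constructor
    · intro h0
      obtain ⟨j, hj⟩ := c1 y hy ⟨h0, (Zs_X0 (m1.hol.prj S1.mf hy)).2 h0⟩
      exact ⟨j, mem_univ j, hj⟩
    · rintro ⟨j, -, hj⟩
      exact d1 j hj
  have g1 := good_pol (S := S1) m1.hol m1.rl (finite_singleton _) rH
  have s1 := sg_pol (S := S1) m1.hol fun P hP => (rH P hP).hom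
  obtain ⟨S2, ph2, m2, d2, l2, c2⟩ := rb_ind (H := H) (Y := Y)
    (A := {x : Amb (N + 1) | x (0, 0) = 0}) (B := (Wo H)ᶜ) (Z := Zs {H}) (Zs_Wo hk) (Zs_Wo hk)
    (prin (blx n) g1) ph1 g1 m1 (fun j x hx hw => hw.1 (d1 j hx)) l1
    (fun x hx => by
      rw [s1] at hx
      exact hx.2)
    (fun x hx hz => Or.inl (by
      rw [s1]
      exact ⟨hx, hz⟩))
  refine ⟨S2, ph2, m2, fun x hx => ⟨fun ⟨j, hj⟩ => d2 j hj, fun hw => ?_⟩, l2⟩
  by_cases h0 : ph2 x (0, 0) = 0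
  · exact l2.mem hx h0
  · exact c2 x hx (mem_Zs_of hk (m2.hol.prj S2.mf hx) h0 hw)

end Pool.Agent.HIR
end
end

-- part Pool.Agent.P.MP_65ad7c_ag.XM1
section

open Set Filter Topology Asymptotics
open scoped ComplexConjugate
open Pool.Agent.HT (Amb proj cj IsChart IsSNC)
open Pool.Agent.PWV (ZC ZI Dim)

noncomputable section
namespace Pool.Agent.HIR

variable {n : ℕ}

theorem key_XM1 {S : Sp n} {A : Set (Amb S.M)} {J : Set ℕ} {y : Amb S.M} {j : ℕ}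
    (hy : y ∈ S.D j) (h : ∀ᶠ u in 𝓝[S.X] y, u ∈ A ↔ ∃ l ∈ J, u ∈ S.D l) :
    Cin (S.D j) A y ↔ j ∈ J := by
  classical
  refine ⟨fun hc => ?_, fun hj => ?_⟩
  · obtain ⟨φ, z, κ, hp, hi, hκ⟩ := chart_XE3 (S.snc.sub j hy)
    obtain ⟨k, e, hk⟩ := co_of_XE3 (hp.eq ▸ hy) (hκ j)
    have h1 := dense_mon (z := z) (T := {k}) (α := fun i => if i = k then 0 else 1)
      (by simpa using hk.zero.1 (hp.eq ▸ hy)) (fun i hi => by simpa using hi)
    have h2 := (hp.ev_sub (S.snc.sub j)).1 hc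
    have h3 := hp.ev_iff.1 h
    have h4 := (Finset.range S.r).eventually_all.2 fun l _ => hκ l
    obtain ⟨w, ⟨a1, a2⟩, a3, a4, a5, a6⟩ :=
      (h1.and_eventually (h2.and (h3.and (h4.and hk)))).exists
    obtain ⟨l, hl, hw⟩ := a4.1 (a3 (a6.2 (a1 k (Finset.mem_singleton_self k))))
    obtain ⟨k', e', hk'⟩ := (a5 l (Finset.mem_range.2 (Sp.lt hw))).1 hw
    have h5 : k' = k := by
      by_contra hne
      exact a2 (Finset.prod_eq_zero (Finset.mem_univ k') (by simp [hne, hk']))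
    exact hi l j k (h5 ▸ e') e ▸ hl
  · filter_upwards [h.filter_mono (nhdsWithin_mono y (S.snc.sub j)), self_mem_nhdsWithin]
      with u a b using a.2 ⟨j, hj, b⟩

theorem ev_XM1 {S : Sp n} {A : Set (Amb S.M)} (hA : LocU S A) {x : Amb S.M} (hx : x ∈ S.X) :
    ∃ J : Set ℕ, ∀ᶠ y in 𝓝[S.X] x, (y ∈ A ↔ ∃ l ∈ J, y ∈ S.D l) ∧
      ∀ j, y ∈ S.D j → (Cin (S.D j) A y ↔ j ∈ J) := by
  obtain ⟨J, hJ⟩ := hA x hx
  refine ⟨J, hJ.and ?_⟩
  filter_upwards [eventually_eventually_nhdsWithin.2 hJ] with y hy j hj using key_XM1 hj hy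

/-- split the divisors into the parts inside and outside `A` -/
theorem exists_split (S : Sp n) {A : Set (Amb S.M)} (hA : LocU S A) (hc : MapsTo (cj S.M) A A) :
    ∃ (D : ℕ → Set (Amb S.M)) (r : ℕ) (al : Set ℕ), DivOK S D r ∧
      (∀ x, (∃ j, x ∈ D j) ↔ ∃ j, x ∈ S.D j) ∧ ∀ x ∈ S.X, x ∈ A ↔ ∃ j ∈ al, x ∈ D j := by
  obtain ⟨D, hD⟩ : ∃ D : ℕ → Set (Amb S.M), ∀ m y, y ∈ D m ↔
      y ∈ S.D (m / 2) ∧ (Cin (S.D (m / 2)) A y ↔ m % 2 = 0) :=
    ⟨fun m => {y | y ∈ S.D (m / 2) ∧ (Cin (S.D (m / 2)) A y ↔ m % 2 = 0)}, fun _ _ => Iff.rfl⟩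
  have h0 : ∀ j y, y ∈ S.D j → Cin (S.D j) A y → y ∈ D (2 * j) := by
    intro j y a b
    rw [hD, show 2 * j / 2 = j by omega]
    exact ⟨a, iff_of_true b (by omega)⟩
  have h1 : ∀ j y, y ∈ S.D j → ¬ Cin (S.D j) A y → y ∈ D (2 * j + 1) := by
    intro j y a b
    rw [hD, show (2 * j + 1) / 2 = j by omega]
    exact ⟨a, iff_of_false b (by omega)⟩
  have hsub : ∀ m, D m ⊆ S.D (m / 2) := fun m y hy => ((hD m y).1 hy).1
  have hfin : ∀ m, 2 * S.r ≤ m → D m = ∅ := fun m hm =>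
    subset_eq_empty (hsub m) (S.fin _ (by omega))
  have hcl : ∀ m, IsClosed (D m) := by
    intro m
    refine isClosed_of_closure_subset fun x hx => ?_
    have hx1 : x ∈ S.D (m / 2) := (S.closedD _).closure_subset (closure_mono (hsub m) hx)
    obtain ⟨J, hJ⟩ := ev_XM1 hA (S.snc.sub _ hx1)
    have := mem_closure_iff_nhdsWithin_neBot.1 hx
    obtain ⟨y, a, b⟩ := ((hJ.filter_mono (nhdsWithin_mono x ((hsub m).trans (S.snc.sub _)))).and
      self_mem_nhdsWithin).exists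
    have c := (hD m y).1 b
    exact (hD m x).2 ⟨hx1, ((hJ.self_of_nhdsWithin (S.snc.sub _ hx1)).2 _ hx1).trans
      ((a.2 _ c.1).symm.trans c.2)⟩
  refine ⟨D, 2 * S.r, {m | m % 2 = 0}, ⟨?_, hfin, fun m y hy => ?_⟩, fun x => ?_, fun x hx => ?_⟩
  · refine snc_of_pt S.snc.compact (fun m => (hsub m).trans (S.snc.sub _)) hcl hfin fun x hx => ?_
    obtain ⟨φ, z, κ, hp, hi, hκ⟩ := chart_XE3 hx
    obtain ⟨J, hJ⟩ := ev_XM1 hA hx
    refine ⟨φ, z, fun m => κ (m / 2), hp, fun m m' i a a' e e' => ?_, fun m a => ?_⟩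
    · have b := hi _ _ _ e e'
      have c := ((hD m x).1 a).2
      have c' := ((hD m' x).1 a').2
      rw [b] at c
      have d := c.symm.trans c'
      omega
    · have c := (hD m x).1 a
      obtain ⟨k, e, hk⟩ := co_of_XE3 (hp.eq ▸ c.1) (hκ (m / 2))
      have d := ((hJ.self_of_nhdsWithin hx).2 _ c.1).symm.trans c.2
      refine ⟨k, e, ?_⟩
      filter_upwards [hk, hp.ev_iff.1 hJ] with w b b'
      rw [← b, hD]
      exact ⟨fun f => f.1, fun f => ⟨f, (b'.2 _ f).trans d⟩⟩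
  · have c := (hD m y).1 hy
    refine (hD m _).2 ⟨S.cjD _ c.1, Iff.trans ⟨fun a => ?_, fun a => a.bar (S.cjD _) hc⟩ c.2⟩
    have b := a.bar (S.cjD _) hc
    rwa [cj_cj] at b
  · refine ⟨fun ⟨m, a⟩ => ⟨_, hsub m a⟩, fun ⟨j, a⟩ => ?_⟩
    by_cases b : Cin (S.D j) A x
    · exact ⟨_, h0 j x a b⟩
    · exact ⟨_, h1 j x a b⟩
  · obtain ⟨J, hJ⟩ := ev_XM1 hA hx
    have c := hJ.self_of_nhdsWithin hx
    refine ⟨fun a => ?_, fun ⟨m, a, b⟩ => ?_⟩
    · obtain ⟨l, hl, b⟩ := c.1.1 a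
      exact ⟨2 * l, Nat.mul_mod_right 2 l, h0 l x b ((c.2 l b).2 hl)⟩
    · have d := (hD m x).1 b
      exact (d.2.2 a).self_of_nhdsWithin d.1

end Pool.Agent.HIR
end
end

-- part Pool.Agent.P.MP_65ad7c_ag.XM2
section

open Set Filter Topology Asymptotics
open scoped ComplexConjugate
open Pool.Agent.HT (Amb proj cj IsChart IsSNC)
open Pool.Agent.PWV (ZC ZI Dim)

noncomputable section
namespace Pool.Agent.HIR

variable {m : ℕ}

/-- a holomorphic function that vanishes at the real points near a real point is zero -/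
theorem real_ident {F : (Fin m → ℂ) → ℂ} {a : Fin m → ℝ}
    (hF : AnalyticAt ℂ F fun i => (a i : ℂ))
    (h : ∀ᶠ b : Fin m → ℝ in 𝓝 a, F (fun i => (b i : ℂ)) = 0) :
    F =ᶠ[𝓝 fun i => (a i : ℂ)] 0 := by
  obtain ⟨R1, hR1, h1⟩ := Metric.eventually_nhds_iff_ball.1 hF.eventually_analyticAt
  obtain ⟨R2, hR2, h2⟩ := Metric.eventually_nhds_iff_ball.1 h
  have hR : 0 < min R1 R2 := lt_min hR1 hR2
  set R := min R1 R2 with hRd
  have hRa : R ≤ R1 := min_le_left _ _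
  have hRb : R ≤ R2 := min_le_right _ _
  refine Metric.eventually_nhds_iff_ball.2 ⟨R / 4, by positivity, fun w hw => ?_⟩
  have hw' : ∀ i, ‖w i - (a i : ℂ)‖ < R / 4 := by
    intro i
    have h3 := (dist_pi_lt_iff (by positivity)).1 (Metric.mem_ball.1 hw) i
    rwa [dist_eq_norm] at h3
  have hre : ∀ i, |(w i).re - a i| < R / 4 := by
    intro i
    have h3 := Complex.abs_re_le_norm (w i - (a i : ℂ))
    simp only [Complex.sub_re, Complex.ofReal_re] at h3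
    exact h3.trans_lt (hw' i)
  have him : ∀ i, |(w i).im| < R / 4 := by
    intro i
    have h3 := Complex.abs_im_le_norm (w i - (a i : ℂ))
    simp only [Complex.sub_im, Complex.ofReal_im, sub_zero] at h3
    exact h3.trans_lt (hw' i)
  let γ : ℂ → Fin m → ℂ := fun s i => ((w i).re : ℂ) + s * ((w i).im : ℂ)
  have hγ : ∀ s, AnalyticAt ℂ γ s := by
    intro s
    refine analyticAt_pi_iff.2 fun i => ?_
    exact analyticAt_const.add (analyticAt_id.mul analyticAt_const)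
  have hmem : ∀ s ∈ Metric.ball (0 : ℂ) 2, γ s ∈ Metric.ball (fun i => (a i : ℂ)) R1 := by
    intro s hs
    rw [Metric.mem_ball, dist_pi_lt_iff hR1]
    intro i
    have hs' : ‖s‖ < 2 := by simpa using hs
    have e1 : γ s i - (a i : ℂ) = (((w i).re - a i : ℝ) : ℂ) + s * ((w i).im : ℂ) := by
      simp only [γ]
      push_cast
      ring
    rw [dist_eq_norm, e1]
    have h3 := norm_add_le ((((w i).re - a i : ℝ)) : ℂ) (s * ((w i).im : ℂ))
    rw [norm_mul, Complex.norm_real, Complex.norm_real, Real.norm_eq_abs, Real.norm_eq_abs] at h3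
    have h4 := hre i
    have h5 := him i
    have h6 : ‖s‖ * |(w i).im| ≤ 2 * |(w i).im| :=
      mul_le_mul_of_nonneg_right hs'.le (abs_nonneg _)
    linarith
  have hg : AnalyticOnNhd ℂ (fun s => F (γ s)) (Metric.ball (0 : ℂ) 2) := fun s hs =>
    (h1 _ (hmem s hs)).comp (hγ s)
  have hreal : ∀ t : ℝ, |t| < 2 → F (γ (t : ℂ)) = 0 := by
    intro t ht
    have hb : (fun i => (w i).re + t * (w i).im) ∈ Metric.ball a R2 := by
      rw [Metric.mem_ball, dist_pi_lt_iff hR2]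
      intro i
      rw [Real.dist_eq]
      have e1 : (w i).re + t * (w i).im - a i = ((w i).re - a i) + t * (w i).im := by ring
      rw [e1]
      have h3 := abs_add_le ((w i).re - a i) (t * (w i).im)
      rw [abs_mul] at h3
      have h4 := hre i
      have h5 := him i
      have h6 : |t| * |(w i).im| ≤ 2 * |(w i).im| :=
        mul_le_mul_of_nonneg_right ht.le (abs_nonneg _)
      linarith
    have h7 := h2 _ hb
    have e2 : γ (t : ℂ) = fun i => (((w i).re + t * (w i).im : ℝ) : ℂ) := by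
      funext i
      simp only [γ]
      push_cast
      ring
    rw [e2]
    exact h7
  have hfr : ∃ᶠ s in 𝓝[≠] (0 : ℂ), F (γ s) = 0 := by
    have ht : Tendsto (fun t : ℝ => (t : ℂ)) (𝓝[≠] 0) (𝓝[≠] 0) := by
      refine tendsto_nhdsWithin_iff.2 ⟨?_, ?_⟩
      · have h3 : Tendsto (fun t : ℝ => (t : ℂ)) (𝓝 0) (𝓝 ((0 : ℝ) : ℂ)) :=
          Complex.continuous_ofReal.tendsto 0
        rw [Complex.ofReal_zero] at h3
        exact h3.mono_left nhdsWithin_le_nhds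
      · filter_upwards [self_mem_nhdsWithin] with t ht
        simpa using ht
    refine ht.frequently (Eventually.frequently ?_)
    have h3 : ∀ᶠ t : ℝ in 𝓝 0, |t| < 2 := by
      filter_upwards [Metric.ball_mem_nhds (0 : ℝ) (by norm_num : (0 : ℝ) < 2)] with t ht
      simpa using ht
    filter_upwards [mem_nhdsWithin_of_mem_nhds h3] with t ht
    exact hreal t ht
  have hz := hg.eqOn_zero_of_preconnected_of_frequently_eq_zero
    (convex_ball (0 : ℂ) 2).isPreconnected (Metric.mem_ball_self (by norm_num)) hfr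
  have hI : Complex.I ∈ Metric.ball (0 : ℂ) 2 := by simp
  have h8 := hz hI
  have e3 : γ Complex.I = w := by
    funext i
    simp only [γ]
    rw [mul_comm]
    exact Complex.re_add_im (w i)
  simp only [e3] at h8
  exact h8

theorem zero_meagre_XM2 {F : (Fin m → ℂ) → ℂ} {z : Fin m → ℂ} (hF : AnalyticAt ℂ F z)
    (hne : ¬ F =ᶠ[𝓝 z] 0) :
    ∃ N ∈ 𝓝 z, IsMeagre {b : Fin m → ℝ | (fun i => (b i : ℂ)) ∈ N ∧
      F (fun i => (b i : ℂ)) = 0} := by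
  obtain ⟨R, hR, h1⟩ := Metric.eventually_nhds_iff_ball.1 hF.eventually_analyticAt
  have hA : AnalyticOnNhd ℂ F (Metric.ball z R) := h1
  have hsub : Metric.closedBall z (R / 2) ⊆ Metric.ball z R :=
    Metric.closedBall_subset_ball (by linarith)
  have hc : Continuous fun (b : Fin m → ℝ) (i : Fin m) => (b i : ℂ) := by fun_prop
  refine ⟨Metric.closedBall z (R / 2), Metric.closedBall_mem_nhds z (by positivity), ?_⟩
  have hcl : IsClosed {b : Fin m → ℝ | (fun i => (b i : ℂ)) ∈ Metric.closedBall z (R / 2) ∧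
      F (fun i => (b i : ℂ)) = 0} := by
    have h2 : IsClosed (Metric.closedBall z (R / 2) ∩ F ⁻¹' {0}) :=
      (hA.continuousOn.mono hsub).preimage_isClosed_of_isClosed Metric.isClosed_closedBall
        isClosed_singleton
    exact h2.preimage hc
  refine IsNowhereDense.isMeagre ?_
  rw [hcl.isNowhereDense_iff]
  refine eq_empty_of_forall_notMem fun b hb => hne ?_
  have hb1 := interior_subset hb
  have hb2 : ∀ᶠ b' : Fin m → ℝ in 𝓝 b, F (fun i => (b' i : ℂ)) = 0 := by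
    filter_upwards [mem_interior_iff_mem_nhds.1 hb] with b' hb'
    exact hb'.2
  have h3 := real_ident (hA _ (hsub hb1.1)) hb2
  have h4 := hA.eqOn_zero_of_preconnected_of_eventuallyEq_zero
    (convex_ball z R).isPreconnected (hsub hb1.1) h3
  filter_upwards [Metric.ball_mem_nhds z hR] with w hw
  exact h4 hw

theorem reg_meagre_XM2 {j : ℕ} (hj : j < m) {φ : (Fin j → ℂ) → Fin m → ℂ} {u : Fin j → ℂ}
    (hφ : AnalyticAt ℂ φ u) (hi : Function.Injective (fderiv ℂ φ u)) :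
    ∃ N ∈ 𝓝 u, IsMeagre {b : Fin m → ℝ | (fun i => (b i : ℂ)) ∈ φ '' N} := by
  obtain ⟨r, hr, hrφ⟩ := Weil.exists_left_inverse hφ hi
  have hru : r (φ u) = u := hrφ.self_of_nhds
  have hlt : LinearMap.range (fderiv ℂ φ u : (Fin j → ℂ) →ₗ[ℂ] (Fin m → ℂ)) < ⊤ := by
    refine lt_top_iff_ne_top.2 fun ht => ?_
    have h1 := LinearMap.finrank_range_le (fderiv ℂ φ u : (Fin j → ℂ) →ₗ[ℂ] (Fin m → ℂ))
    rw [ht] at h1
    simp at h1
    omega
  obtain ⟨l, hl0, hl⟩ := Submodule.exists_le_ker_of_lt_top _ hlt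
  let lc : (Fin m → ℂ) →L[ℂ] ℂ := LinearMap.toContinuousLinearMap l
  have hφ' : AnalyticAt ℂ φ (r (φ u)) := by rwa [hru]
  have hF : AnalyticAt ℂ (fun w => lc (w - φ (r w))) (φ u) :=
    (lc.analyticAt _).comp (analyticAt_id.sub (hφ'.comp hr))
  have hne : ¬ (fun w => lc (w - φ (r w))) =ᶠ[𝓝 (φ u)] 0 := by
    intro h0
    have h1 : HasFDerivAt φ (fderiv ℂ φ u) (r (φ u)) := by
      rw [hru]
      exact hφ.differentiableAt.hasFDerivAt
    have h2 := lc.hasFDerivAt.comp (φ u)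
      ((hasFDerivAt_id (φ u)).sub (h1.comp (φ u) hr.differentiableAt.hasFDerivAt))
    have h3 : HasFDerivAt (fun w => lc (w - φ (r w))) (0 : (Fin m → ℂ) →L[ℂ] ℂ) (φ u) :=
      (hasFDerivAt_const (0 : ℂ) (φ u)).congr_of_eventuallyEq h0
    have h4 := h2.unique h3
    refine hl0 (LinearMap.ext fun v => ?_)
    have h5 := congrArg (fun T : (Fin m → ℂ) →L[ℂ] ℂ => T v) h4
    have h6 : l (fderiv ℂ φ u (fderiv ℂ r (φ u) v)) = 0 := hl ⟨_, rfl⟩
    simp only [ContinuousLinearMap.comp_apply, sub_apply,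
      ContinuousLinearMap.id_apply, map_sub, zero_apply] at h5
    have h7 : l v - l (fderiv ℂ φ u (fderiv ℂ r (φ u) v)) = 0 := h5
    rw [h6, sub_zero] at h7
    exact h7
  obtain ⟨N, hN, hM⟩ := zero_meagre_XM2 hF hne
  refine ⟨{v | r (φ v) = v} ∩ φ ⁻¹' N, inter_mem hrφ (hφ.continuousAt hN), hM.mono ?_⟩
  rintro b ⟨v, ⟨hv1, hv2⟩, hv⟩
  refine ⟨hv ▸ hv2, ?_⟩
  have hv1' : r (φ v) = v := hv1
  rw [← hv, hv1', sub_self, map_zero]

theorem thin_meagre (k : ℕ) : ∀ S : Set (Fin m → ℂ), k ≤ m → Weil.Thin k S →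
    IsMeagre {b : Fin m → ℝ | (fun i => (b i : ℂ)) ∈ S} := by
  induction k using Nat.strong_induction_on with
  | _ k ih =>
  rintro S hk ⟨J, hJ, d, U, φ, h1, h2⟩
  have key : ∀ j, IsMeagre {b : Fin m → ℝ | (fun i => (b i : ℂ)) ∈ φ j '' U j} := by
    intro j
    have hd : d j < m := (h1 j).1.trans_le hk
    have hcr := ih (d j) (h1 j).1 _ hd.le (Weil.thin_crit (h1 j).2 (d j))
    let A : Set (Fin (d j) → ℂ) := {u | u ∈ U j ∧ Function.Injective (fderiv ℂ (φ j) u)}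
    have hA : ∀ u ∈ A, ∃ N ∈ 𝓝 u,
        IsMeagre {b : Fin m → ℝ | (fun i => (b i : ℂ)) ∈ φ j '' N} := fun u hu =>
      reg_meagre_XM2 hd ((h1 j).2 u hu.1) hu.2
    choose! N hN hM using hA
    obtain ⟨t, htA, htc, hcov⟩ := TopologicalSpace.countable_cover_nhdsWithin
      (f := N) (s := A) fun x hx => mem_nhdsWithin_of_mem_nhds (hN x hx)
    have : Countable t := htc.to_subtype
    have hreg := isMeagre_iUnion (fun x : t => hM x (htA x.2))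
    refine (hcr.union hreg).mono ?_
    rintro b ⟨u, hu, hb⟩
    by_cases hr : Module.finrank ℂ (LinearMap.range
        (fderiv ℂ (φ j) u : (Fin (d j) → ℂ) →ₗ[ℂ] (Fin m → ℂ))) < d j
    · exact Or.inl ⟨u, ⟨hu, hr⟩, hb⟩
    · right
      have hinj : Function.Injective (fderiv ℂ (φ j) u) := by
        have h3 := LinearMap.finrank_range_add_finrank_ker
          (fderiv ℂ (φ j) u : (Fin (d j) → ℂ) →ₗ[ℂ] (Fin m → ℂ))
        have h4 : Module.finrank ℂ (LinearMap.ker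
            (fderiv ℂ (φ j) u : (Fin (d j) → ℂ) →ₗ[ℂ] (Fin m → ℂ))) = 0 := by
          simp only [Module.finrank_fintype_fun_eq_card, Fintype.card_fin] at h3
          omega
        have h5 := Submodule.finrank_eq_zero.1 h4
        exact LinearMap.ker_eq_bot.1 h5
      obtain ⟨y, hy, hxy⟩ := mem_iUnion₂.1 (hcov ⟨hu, hinj⟩)
      exact mem_iUnion.2 ⟨⟨y, hy⟩, u, hxy, hb⟩
  refine (isMeagre_iUnion key).mono fun b hb => ?_
  obtain ⟨j, hj⟩ := mem_iUnion.1 (h2 hb)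
  exact mem_iUnion.2 ⟨j, hj⟩

/-- a thin set does not contain all real points -/
theorem exists_real {S : Set (Fin m → ℂ)} (h : Weil.Thin m S) :
    ∃ c : Fin m → ℂ, star c = c ∧ c ∉ S := by
  have h1 := thin_meagre m S le_rfl h
  obtain ⟨b, hb⟩ := (dense_of_mem_residual h1).nonempty
  refine ⟨fun i => (b i : ℂ), ?_, hb⟩
  funext i
  simp

end Pool.Agent.HIR
end
end

-- part Pool.Agent.P.MP_65ad7c_ag.XM3
section

open Set Filter Topology Asymptotics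
open scoped ComplexConjugate
open Pool.Agent.HT (Amb proj cj IsChart IsSNC)
open Pool.Agent.PWV (ZC ZI Dim)

noncomputable section
namespace Pool.Agent.HIR

variable {n N : ℕ}

theorem thin_hyper {u : Fin N → ℂ} (hu : u ≠ 0) : Weil.Thin N {c : Fin N → ℂ | c ⬝ᵥ u = 0} := by
  obtain ⟨i, hi⟩ := Function.ne_iff.1 hu
  have ha : AnalyticOnNhd ℂ (fun c : Fin N → ℂ => c ⬝ᵥ u) univ := fun c _ =>
    Finset.analyticAt_fun_sum _ fun j _ =>
      ((ContinuousLinearMap.proj (R := ℂ) (φ := fun _ : Fin N => ℂ) j).analyticAt c).mul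
        analyticAt_const
  have h := Weil.thin_zero_set isOpen_univ isPreconnected_univ ha
    ⟨Pi.single i 1, mem_univ _, by simpa using hi⟩
  exact h.mono (fun c hc => ⟨mem_univ _, hc⟩) (by simp)

theorem lin_XM3 (c : Fin (N + 1) → ℂ) : ∃ δ : MvPolynomial (Fin N) ℂ, ∀ y : Fin N → ℂ,
    MvPolynomial.eval y δ = c ⬝ᵥ (Fin.cons 1 y : Fin (N + 1) → ℂ) :=
  ⟨MvPolynomial.C (c 0) + ∑ j, MvPolynomial.C (c j.succ) * MvPolynomial.X j, fun y => by
    simp [dotProduct, Fin.sum_univ_succ]⟩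

/-- generic hyperplane sections have smaller dimension -/
theorem thin_dim {V : Set (Fin N → ℂ)} (hV : ZC V) {k : ℕ} (hd : Dim V k) :
    Weil.Thin (N + 1) {c : Fin (N + 1) → ℂ |
      ¬ Dim (V ∩ {y | c ⬝ᵥ (Fin.cons 1 y : Fin (N + 1) → ℂ) = 0}) (k - 1)} := by
  cases k with
  | zero =>
    refine (Weil.thin_empty _).mono (fun c hc => hc ?_) le_rfl
    exact hd.mono inter_subset_left
  | succ e =>
    obtain ⟨s, h1, h2, -, rfl⟩ := hV.exists_primes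
    have h3 : ∀ p : s, ∃ y, y ∈ ZI p.1 := fun p => by
      by_contra h
      exact (h2 p p.2).ne_top ((Ideal.eq_top_iff_one _).2
        (PWV.null (h2 p p.2) fun x hx => absurd ⟨x, hx⟩ h))
    choose y hy using h3
    have : Finite s := h1.to_subtype
    refine (Weil.thin_iUnion fun p : s => thin_hyper (cons_ne (y p))).mono (fun c hc => ?_) le_rfl
    by_contra h
    simp only [mem_iUnion, not_exists] at h
    refine hc ?_
    obtain ⟨δ, hδ⟩ := lin_XM3 c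
    rw [iUnion₂_inter]
    refine PWV.dim_biUnion h1 fun p hp => ?_
    have h4 : δ ∉ p := fun h5 => h ⟨p, hp⟩ ((hδ _).symm.trans (hy ⟨p, hp⟩ δ h5))
    refine (PWV.drop (h2 p hp) h4 (hd.mono (subset_biUnion_of_mem (u := ZI) hp))).mono ?_
    exact fun x hx => ⟨hx.1, (hδ x).trans hx.2⟩

theorem zc_hyp (c : Fin (N + 1) → ℂ) :
    ZC {y : Fin N → ℂ | c ⬝ᵥ (Fin.cons 1 y : Fin (N + 1) → ℂ) = 0} := by
  obtain ⟨δ, hδ⟩ := lin_XM3 c
  simpa only [hδ] using PWV.zc_zero δ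

/-- add a transverse real hyperplane section to the divisor -/
theorem Tv.add {S : Sp n} {ph : Amb S.M → Amb N} {c : Fin N → ℂ} (h : Tv S ph c)
    (hph : HolP n S.X ph) (hr : ∀ x, ph (cj S.M x) = cj N (ph x)) (hc : star c = c) :
    DivOK S (Function.update S.D S.r (hyp S.X ph c)) (S.r + 1) := by
  obtain ⟨D, hD⟩ : ∃ D, D = Function.update S.D S.r (hyp S.X ph c) := ⟨_, rfl⟩
  rw [← hD]
  have cs : ∀ (P : Set (Amb S.M) → Prop) (j : ℕ), (j = S.r → P (hyp S.X ph c)) →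
      P (S.D j) → P (D j) := by
    intro P j h1 h2
    by_cases hj : j = S.r
    · rw [hD, hj, Function.update_self]
      exact h1 hj
    · rw [hD, Function.update_of_ne hj]
      exact h2
  have hf : ∀ j, S.r + 1 ≤ j → D j = ∅ := fun j hj =>
    cs (· = ∅) j (fun e => by omega) (S.fin j (by omega))
  have hcl : IsClosed (hyp S.X ph c) := by
    have h1 : IsClosed {a : Amb N | ∀ k, ∑ j, c j * a (j, k) = 0} := by
      rw [setOf_forall]
      exact isClosed_iInter fun k => isClosed_eq (by fun_prop) continuous_const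
    exact (hph.cont S.mf).preimage_isClosed_of_isClosed S.closedX h1
  refine ⟨snc_of_pt (r := S.r + 1) S.snc.compact
    (fun j => cs (· ⊆ S.X) j (fun _ _ hx => hx.1) (S.snc.sub j))
    (fun j => cs IsClosed j (fun _ => hcl) (S.closedD j)) hf fun x hx => ?_, hf, fun j => ?_⟩
  · by_cases hxh : x ∈ hyp S.X ph c
    · obtain ⟨φ, z, l, hp, hl, hco⟩ := h x hxh
      refine ⟨φ, z, (kappa_XG1 (P := fun j => x ∈ D j) (Q := fun j i => Co (D j) φ z i)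
        (R := fun j i => (j = S.r ∧ i = l) ∨ (i ≠ l ∧ x ∈ S.D j ∧ Co (S.D j) φ z i))
        (fun j => ?_) ?_).imp fun κ hκ => ⟨hp, hκ⟩⟩
      · refine cs (fun Y => x ∈ Y → ∃ i, Co Y φ z i ∧ ((j = S.r ∧ i = l) ∨
          (i ≠ l ∧ x ∈ S.D j ∧ Co (S.D j) φ z i))) j (fun hj _ => ⟨l, hl, Or.inl ⟨hj, rfl⟩⟩)
          fun hj => ?_
        obtain ⟨i, h1, h2⟩ := hco j hj
        exact ⟨i, h2, Or.inr ⟨h1, hj, h2⟩⟩
      · rintro j j' i (⟨a, b⟩ | ⟨a, b, d⟩) (⟨a', b'⟩ | ⟨a', b', d'⟩)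
        · exact a.trans a'.symm
        · exact absurd b a'
        · exact absurd b' a
        · exact Co.inj hp d d' b
    · obtain ⟨φ, z, hp, hco⟩ := Sp.chart hx
      refine ⟨φ, z, (kappa_XG1 (P := fun j => x ∈ D j) (Q := fun j i => Co (D j) φ z i)
        (R := fun j i => x ∈ S.D j ∧ Co (S.D j) φ z i) (fun j => ?_)
        fun j j' i a b => Co.inj hp a.2 b.2 a.1).imp fun κ hκ => ⟨hp, hκ⟩⟩
      refine cs (fun Y => x ∈ Y → ∃ i, Co Y φ z i ∧ x ∈ S.D j ∧ Co (S.D j) φ z i) j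
        (fun _ hj => absurd hj hxh) fun hj => ?_
      obtain ⟨i, hi⟩ := hco j hj
      exact ⟨i, hi, hj, hi⟩
  · refine cs (fun Y => MapsTo (cj S.M) Y Y) j (fun _ x hx => ⟨S.cjX hx.1, fun k => ?_⟩) (S.cjD j)
    have h1 := congrArg conj (hx.2 k)
    rw [map_sum, map_zero] at h1
    rw [← h1]
    refine Finset.sum_congr rfl fun i _ => ?_
    have h2 : conj (c i) = c i := congrFun hc i
    rw [hr, cj_apply, map_mul, h2]

end Pool.Agent.HIR
end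
end

-- part Pool.Agent.P.MP_65ad7c_ag.XM4
section

open Set Filter Topology Asymptotics
open scoped ComplexConjugate
open Pool.Agent.HT (Amb proj cj IsChart IsSNC)
open Pool.Agent.PWV (ZC ZI Dim)

noncomputable section
namespace Pool.Agent.HIR

variable {n N : ℕ} {S : Sp n} {ph : Amb S.M → Amb N}

/-- countably many charts adapted to the divisors -/
theorem cover_adapted (hph : HolP n S.X ph) :
    ∃ (J : Type) (_ : Countable J) (φ : J → E n → Amb S.M) (g : J → E n → Fin N → ℂ)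
      (O : J → Set (E n)), (∀ k, IsOpen (O k) ∧ ∀ w ∈ O k, Pt S.X (φ k) w (φ k w) ∧
        AnalyticAt ℂ (g k) w ∧ g k w ≠ 0 ∧ ph (φ k w) = proj (g k w) ∧
        ∀ j, φ k w ∈ S.D j → ∃ i, Co (S.D j) (φ k) w i) ∧ ∀ x ∈ S.X, ∃ k, ∃ w ∈ O k, φ k w = x := by
  have key : ∀ x ∈ S.X, ∃ (φ : E n → Amb S.M) (g : E n → Fin N → ℂ) (O : Set (E n)),
      (IsOpen O ∧ ∀ w ∈ O, Pt S.X φ w (φ w) ∧ AnalyticAt ℂ g w ∧ g w ≠ 0 ∧
        ph (φ w) = proj (g w) ∧ ∀ j, φ w ∈ S.D j → ∃ i, Co (S.D j) φ w i) ∧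
      φ '' O ∈ 𝓝[S.X] x := by
    intro x hx
    obtain ⟨φ, z, κ, hp, -, hκ⟩ := chart_XE3 hx
    obtain ⟨g, hg, hg0, hge⟩ := hph φ z x hp
    have h1 : ∀ᶠ w in 𝓝 z, ∀ j ∈ Finset.range S.r, φ w ∈ S.D j → ∃ i, Co (S.D j) φ w i := by
      rw [Filter.eventually_all_finset]
      intro j _
      filter_upwards [eventually_eventually_nhds.2 (hκ j)] with w hw hm
      obtain ⟨k, -, hk⟩ := co_of_XE3 hm hw
      exact ⟨k, hk⟩
    have h2 : ∀ᶠ w in 𝓝 z, Pt S.X φ w (φ w) ∧ AnalyticAt ℂ g w ∧ g w ≠ 0 ∧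
        ph (φ w) = proj (g w) ∧ ∀ j, φ w ∈ S.D j → ∃ i, Co (S.D j) φ w i := by
      filter_upwards [hp.ev, hg.eventually_analyticAt, hg.continuousAt.eventually_ne hg0, hge, h1]
        with w a b c d e
      exact ⟨a, b, c, d, fun j hj => e j (Finset.mem_range.2 (Sp.lt hj)) hj⟩
    obtain ⟨O, hO1, hO2, hO3⟩ := eventually_nhds_iff.1 h2
    refine ⟨φ, g, O, ⟨hO2, hO1⟩, ?_⟩
    rw [← hp.map]
    exact image_mem_map (hO2.mem_nhds hO3)
  choose! φ g O h1 h2 using key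
  obtain ⟨t, ht, htc, hcov⟩ := TopologicalSpace.countable_cover_nhdsWithin
    (f := fun x => φ x '' O x) h2
  refine ⟨t, htc.to_subtype, fun k => φ k, fun k => g k, fun k => O k,
    fun k => h1 k (ht k.2), fun x hx => ?_⟩
  obtain ⟨k, hk, w, hw, e⟩ := mem_iUnion₂.1 (hcov hx)
  exact ⟨⟨k, hk⟩, w, hw, e⟩

theorem dot_der_XM4 {P : Type} [NormedAddCommGroup P] [NormedSpace ℂ P] {a b : P → Fin N → ℂ}
    {p : P} (ha : DifferentiableAt ℂ a p) (hb : DifferentiableAt ℂ b p) (q : P) :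
    fderiv ℂ (fun y => a y ⬝ᵥ b y) p q = fderiv ℂ a p q ⬝ᵥ b p + a p ⬝ᵥ fderiv ℂ b p q := by
  have h1 := hasFDerivAt_pi'.1 ha.hasFDerivAt
  have h2 := hasFDerivAt_pi'.1 hb.hasFDerivAt
  have h3 := HasFDerivAt.fun_sum (u := Finset.univ) fun j _ => (h1 j).fun_mul (h2 j)
  have h4 : fderiv ℂ (fun y => a y ⬝ᵥ b y) p = _ := h3.fderiv
  rw [h4]
  simp only [dotProduct, sum_apply, add_apply,
    smul_apply, ContinuousLinearMap.comp_apply, ContinuousLinearMap.proj_apply,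
    smul_eq_mul, ← Finset.sum_add_distrib]
  exact Finset.sum_congr rfl fun j _ => by ring

theorem an_dot_XM4 {P : Type} [NormedAddCommGroup P] [NormedSpace ℂ P] {a b : P → Fin N → ℂ}
    {p : P} (ha : AnalyticAt ℂ a p) (hb : AnalyticAt ℂ b p) :
    AnalyticAt ℂ (fun y => a y ⬝ᵥ b y) p :=
  Finset.analyticAt_fun_sum _ fun j _ => (analyticAt_pi_iff.1 ha j).mul (analyticAt_pi_iff.1 hb j)

/-- the parametrisation of the incidence variety -/
def psi_XM4 (g : E n → Fin N → ℂ) (T : Finset (Fin n)) (i : Fin N) (p : (Fin N → ℂ) × E n) :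
    Fin N → ℂ :=
  p.1 - (p.1 ⬝ᵥ g (rho T p.2) / g (rho T p.2) i) • Pi.single i 1

theorem an_G_XM4 {g : E n → Fin N → ℂ} {T : Finset (Fin n)} {p : (Fin N → ℂ) × E n}
    (hg : AnalyticAt ℂ g (rho T p.2)) :
    AnalyticAt ℂ (fun p : (Fin N → ℂ) × E n => g (rho T p.2)) p :=
  AnalyticAt.comp (f := fun p : (Fin N → ℂ) × E n => rho T p.2) hg
    (AnalyticAt.comp (f := fun p : (Fin N → ℂ) × E n => p.2) (an_rho T p.2) analyticAt_snd)

theorem an_psi_XM4 {g : E n → Fin N → ℂ} {T : Finset (Fin n)} {i : Fin N} {p : (Fin N → ℂ) × E n}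
    (hg : AnalyticAt ℂ g (rho T p.2)) (hi : g (rho T p.2) i ≠ 0) :
    AnalyticAt ℂ (psi_XM4 g T i) p :=
  analyticAt_fst.sub (((an_dot_XM4 analyticAt_fst (an_G_XM4 hg)).div
    (analyticAt_pi_iff.1 (an_G_XM4 hg) i) hi).smul analyticAt_const)

theorem psi_dot_XM4 {g : E n → Fin N → ℂ} {T : Finset (Fin n)} {i : Fin N}
    {p : (Fin N → ℂ) × E n} (hi : g (rho T p.2) i ≠ 0) :
    psi_XM4 g T i p ⬝ᵥ g (rho T p.2) = 0 := by
  rw [psi_XM4, sub_dotProduct, smul_dotProduct, single_dotProduct, one_mul, smul_eq_mul,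
    div_mul_cancel₀ _ hi, sub_self]

/-- Sard for the incidence variety -/
theorem thin_tangent {g : E n → Fin N → ℂ} {O : Set (E n)} (hO : IsOpen O)
    (hg : ∀ w ∈ O, AnalyticAt ℂ g w ∧ g w ≠ 0) (T : Finset (Fin n)) :
    Weil.Thin N {c : Fin N → ℂ | ∃ w ∈ O, (∀ i ∈ T, w i = 0) ∧ c ⬝ᵥ g w = 0 ∧
      ∀ l, l ∉ T → pd l (fun y => c ⬝ᵥ g y) w = 0} := by
  have hth : ∀ i : Fin N, Weil.Thin N _ := fun i =>
    Weil.thin_crit (U := {p : (Fin N → ℂ) × E n | rho T p.2 ∈ O ∧ g (rho T p.2) i ≠ 0})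
      (g := psi_XM4 g T i) (fun p hp => an_psi_XM4 (hg _ hp.1).1 hp.2) N
  refine (Weil.thin_iUnion hth).mono ?_ le_rfl
  rintro c ⟨w, hw, hT, hc, hl⟩
  obtain ⟨i, hi⟩ := Function.ne_iff.1 (hg w hw).2
  have hr : rho T w = w := rho_fix hT
  have hi' : g (rho T (c, w).2) i ≠ 0 := by rw [hr]; exact hi
  have hg' : AnalyticAt ℂ g (rho T (c, w).2) := by rw [hr]; exact (hg w hw).1
  have hval : psi_XM4 g T i (c, w) = c := by
    simp only [psi_XM4, hr, hc, zero_div, zero_smul, sub_zero]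
  refine mem_iUnion.2 ⟨i, (c, w), ⟨⟨by rw [hr]; exact hw, hi'⟩, ?_⟩, hval⟩
  have hG := an_G_XM4 hg'
  have hf : An w fun y => c ⬝ᵥ g y := an_dot_XM4 analyticAt_const (hg w hw).1
  have key : ∀ q, fderiv ℂ (psi_XM4 g T i) (c, w) q ⬝ᵥ g w = 0 := by
    intro q
    have h1 := dot_der_XM4 (an_psi_XM4 hg' hi').differentiableAt hG.differentiableAt q
    have h2 : (fun y => psi_XM4 g T i y ⬝ᵥ g (rho T y.2)) =ᶠ[𝓝 (c, w)] fun _ => 0 := by
      filter_upwards [(analyticAt_pi_iff.1 hG i).continuousAt.eventually_ne hi'] with y hy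
      exact psi_dot_XM4 hy
    have h3 := dot_der_XM4 (differentiableAt_const c) hG.differentiableAt q
    have h4 : fderiv ℂ (fun y : (Fin N → ℂ) × E n => c ⬝ᵥ g (rho T y.2)) (c, w) q = 0 := by
      have h5 := HasFDerivAt.comp (f := fun y : (Fin N → ℂ) × E n => y.2) (c, w)
        (hf.rho hT).differentiableAt.hasFDerivAt (hasFDerivAt_snd (𝕜 := ℂ) (p := (c, w)))
      have h6 : fderiv ℂ (fun y : (Fin N → ℂ) × E n => c ⬝ᵥ g (rho T y.2)) (c, w) = _ := h5.fderiv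
      rw [h6, ContinuousLinearMap.comp_apply, fderiv_rho hf hT, fderiv_eq_sum]
      refine Finset.sum_eq_zero fun l _ => ?_
      by_cases h : l ∈ T
      · simp [rho, h]
      · rw [hl l h, mul_zero]
    rw [h4, fderiv_fun_const] at h3
    rw [h2.fderiv_eq, fderiv_fun_const, hval, hr] at h1
    simp only [Pi.zero_apply, zero_apply, zero_dotProduct, zero_add] at h1 h3
    rw [← h3, add_zero] at h1
    exact h1.symm
  have hne : LinearMap.range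
      (fderiv ℂ (psi_XM4 g T i) (c, w) : ((Fin N → ℂ) × E n) →ₗ[ℂ] (Fin N → ℂ)) ≠ ⊤ := by
    intro e
    obtain ⟨q, hq⟩ := LinearMap.range_eq_top.1 e (Pi.single i 1)
    have h1 := key q
    rw [show fderiv ℂ (psi_XM4 g T i) (c, w) q = Pi.single i 1 from hq, single_dotProduct,
      one_mul] at h1
    exact hi h1
  simpa using Submodule.finrank_lt hne

/-- Bertini -/
theorem thin_tv (hph : HolP n S.X ph) : Weil.Thin N {c : Fin N → ℂ | ¬ Tv S ph c} := by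
  classical
  obtain ⟨J, hJ, φ, g, O, h1, h2⟩ := cover_adapted hph
  have hth := fun (k : J) (T : Finset (Fin n)) =>
    thin_tangent (h1 k).1 (fun w hw => ⟨((h1 k).2 w hw).2.1, ((h1 k).2 w hw).2.2.1⟩) T
  refine (Weil.thin_iUnion fun k => Weil.thin_iUnion fun T => hth k T).mono ?_ le_rfl
  intro c hc
  by_contra hn
  refine hc fun x hx => ?_
  obtain ⟨k, w, hw, rfl⟩ := h2 x hx.1
  obtain ⟨hp, hg, hg0, he, hD⟩ := (h1 k).2 w hw
  let T : Finset (Fin n) := Finset.univ.filter fun i => ∃ j, φ k w ∈ S.D j ∧ Co (S.D j) (φ k) w i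
  have hT : ∀ i ∈ T, w i = 0 := fun i hi => by
    obtain ⟨j, hj, hco⟩ := (Finset.mem_filter.1 hi).2
    exact hco.zero.1 hj
  have hc0 : c ⬝ᵥ g k w = 0 := (proj_hyp hg0 c).1 (he ▸ hx.2)
  obtain ⟨l, hlT, hl⟩ : ∃ l, l ∉ T ∧ pd l (fun y => c ⬝ᵥ g k y) w ≠ 0 := by
    by_contra hcon
    refine hn (mem_iUnion.2 ⟨k, mem_iUnion.2 ⟨T, w, hw, hT, hc0, fun l hl => ?_⟩⟩)
    by_contra h0
    exact hcon ⟨l, hl, h0⟩
  obtain ⟨σ, hb⟩ := bi_update (an_dot_XM4 analyticAt_const hg) hl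
  refine ⟨φ k ∘ σ, _, l, hp.comp hb, ?_, fun j hj => ?_⟩
  · filter_upwards [hb.symm.tendsto.eventually ((h1 k).1.mem_nhds hw), hb.right] with y hy hr
    obtain ⟨hp', -, hg0', he', -⟩ := (h1 k).2 _ hy
    have e : c ⬝ᵥ g k (σ y) = y l := by
      have := congrFun hr l
      rwa [Function.update_self] at this
    rw [← e, ← proj_hyp hg0' c, ← he']
    exact ⟨fun h => h.2, fun h => ⟨hp'.mem, h⟩⟩
  · obtain ⟨i, hi⟩ := hD j hj
    have hil : i ≠ l := fun e =>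
      hlT (e ▸ Finset.mem_filter.2 ⟨Finset.mem_univ _, j, hj, hi⟩)
    refine ⟨i, hil, hi.comp hb (Eventually.of_forall fun y => ?_)⟩
    exact Function.update_of_ne hil _ _

end Pool.Agent.HIR
end
end

-- part Pool.Agent.P.MP_65ad7c_ag.XM5
section

open Set Filter Topology Asymptotics
open scoped ComplexConjugate
open Pool.Agent.HT (Amb proj cj IsChart IsSNC)
open Pool.Agent.PWV (ZC ZI Dim)

noncomputable section
namespace Pool.Agent.HIR

variable {n N : ℕ} {S : Sp n} {ph : Amb S.M → Amb (N + 1)}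

theorem zc_cut_XM5 {V : Set (Fin N → ℂ)} (hV : ZC V) (c : ℕ → Fin (N + 1) → ℂ) (b : ℕ) :
    ZC (V ∩ {y | ∀ i < b, c i ⬝ᵥ (Fin.cons 1 y : Fin (N + 1) → ℂ) = 0}) := by
  induction b with
  | zero => simpa using hV
  | succ b ih =>
    have e : V ∩ {y | ∀ i < b + 1, c i ⬝ᵥ (Fin.cons 1 y : Fin (N + 1) → ℂ) = 0} =
        (V ∩ {y | ∀ i < b, c i ⬝ᵥ (Fin.cons 1 y : Fin (N + 1) → ℂ) = 0}) ∩
          {y | c b ⬝ᵥ (Fin.cons 1 y : Fin (N + 1) → ℂ) = 0} := by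
      ext y
      simp only [mem_inter_iff, mem_ofPred_eq, Nat.forall_lt_succ_right, and_assoc]
    rw [e]
    exact ih.inter (zc_hyp _)

theorem snc_comp_XM5 {M : ℕ} {X : Set (Amb M)} {ι κ : Type} {D : ι → Set (Amb M)}
    (h : IsSNC n X D) {u : κ → ι} (hu : Function.Injective u) : IsSNC n X fun i => D (u i) := by
  refine ⟨h.compact, fun i => h.sub _, fun x hx => ?_⟩
  obtain ⟨O, f, k, h1, h2, h3, h4⟩ := h.chart x hx
  exact ⟨O, f, fun i => k (u i), h1, h2, fun i j l hi hj => hu (h3 _ _ l hi hj), fun i => h4 _⟩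

theorem bert_iter (hph : HolP n S.X ph) (hr : ∀ x, ph (cj S.M x) = cj (N + 1) (ph x))
    {V : ℕ → Set (Fin N → ℂ)} (hV : ∀ e, ZC (V e)) {k : ℕ → ℕ} (hk : ∀ e, Dim (V e) (k e)) (a : ℕ) :
    ∃ (c : ℕ → Fin (N + 1) → ℂ) (D : ℕ → Set (Amb S.M)), DivOK S D (S.r + a) ∧
      (∀ j < S.r, D j = S.D j) ∧ (∀ i < a, D (S.r + i) = hyp S.X ph (c i)) ∧
      ∀ b ≤ a, ∀ e, Dim (V e ∩ {y | ∀ i < b, c i ⬝ᵥ (Fin.cons 1 y : Fin (N + 1) → ℂ) = 0})
        (k e - b) := by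
  induction a with
  | zero =>
    refine ⟨fun _ => 0, S.D, ⟨S.snc, S.fin, S.cjD⟩, fun _ _ => rfl, fun i hi => absurd hi (by omega),
      fun b hb e => ?_⟩
    obtain rfl : b = 0 := by omega
    simpa using hk e
  | succ a ih =>
    obtain ⟨c, D, h, h1, h2, h3⟩ := ih
    have t1 := thin_tv (S := h.sp) (ph := ph) hph
    have t2 := Weil.thin_iUnion fun e : ℕ => thin_dim (zc_cut_XM5 (hV e) c a) (h3 a le_rfl e)
    obtain ⟨c0, hc0, hn⟩ := exists_real (t1.union t2)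
    have n1 : Tv h.sp ph c0 := by
      by_contra hh
      exact hn (Or.inl hh)
    have n2 : ∀ e, Dim ((V e ∩ {y | ∀ i < a, c i ⬝ᵥ (Fin.cons 1 y : Fin (N + 1) → ℂ) = 0}) ∩
        {y | c0 ⬝ᵥ (Fin.cons 1 y : Fin (N + 1) → ℂ) = 0}) (k e - a - 1) := fun e => by
      by_contra hh
      exact hn (Or.inr (mem_iUnion.2 ⟨e, hh⟩))
    have h' := n1.add hph hr hc0
    refine ⟨Function.update c a c0, Function.update D (S.r + a) (hyp S.X ph c0),
      ⟨h'.snc, h'.fin, h'.cjD⟩, fun j hj => ?_, fun i hi => ?_, fun b hb e => ?_⟩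
    · rw [Function.update_of_ne (by omega), h1 j hj]
    · by_cases hia : i = a
      · subst hia
        rw [Function.update_self, Function.update_self]
      · rw [Function.update_of_ne (by omega), Function.update_of_ne hia, h2 i (by omega)]
    · have key : ∀ b ≤ a, ∀ y : Fin N → ℂ,
          (∀ i < b, Function.update c a c0 i ⬝ᵥ (Fin.cons 1 y : Fin (N + 1) → ℂ) = 0) ↔
          ∀ i < b, c i ⬝ᵥ (Fin.cons 1 y : Fin (N + 1) → ℂ) = 0 := fun b hb y =>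
        forall₂_congr fun i hi => by rw [Function.update_of_ne (by omega)]
      by_cases hba : b ≤ a
      · simp only [key b hba]
        exact h3 b hba e
      · obtain rfl : b = a + 1 := by omega
        have e1 : V e ∩ {y | ∀ i < a + 1,
            Function.update c a c0 i ⬝ᵥ (Fin.cons 1 y : Fin (N + 1) → ℂ) = 0} =
            (V e ∩ {y | ∀ i < a, c i ⬝ᵥ (Fin.cons 1 y : Fin (N + 1) → ℂ) = 0}) ∩
              {y | c0 ⬝ᵥ (Fin.cons 1 y : Fin (N + 1) → ℂ) = 0} := by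
          ext y
          simp only [mem_inter_iff, mem_ofPred_eq, Nat.forall_lt_succ_right, and_assoc, key a le_rfl,
            Function.update_self]
        rw [e1, ← Nat.sub_sub]
        exact n2 e

/-- the divisors of the model -/
theorem exists_geo {H : MvPolynomial (Fin (N + 1)) ℂ} (hph : HolP n S.X ph)
    (hr : ∀ x, ph (cj S.M x) = cj (N + 1) (ph x))
    (hD : ∀ x ∈ S.X, (∃ j, x ∈ S.D j) ↔ ph x ∉ Wo H) (hA : LocU S {x | ph x (0, 0) = 0})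
    {V : ℕ → Set (Fin N → ℂ)} (hV : ∀ e, ZC (V e)) {k : ℕ → ℕ} (hk : ∀ e, Dim (V e) (k e)) (a : ℕ) :
    ∃ (r : ℕ) (D : Fin r → Set (Amb S.M)) (al be : Finset (Fin r)) (h : Fin (a + 1) ↪ Fin r)
      (c : Fin (a + 1) → Fin (N + 1) → ℂ), IsSNC n S.X D ∧
      (∀ i, MapsTo (cj S.M) (D i) (D i)) ∧ Disjoint al be ∧ (∀ i, h i ∉ al ∪ be) ∧
      (∀ x ∈ S.X, x ∈ ⋃ i ∈ al, D i ↔ ph x (0, 0) = 0) ∧
      (∀ x ∈ S.X, ph x (0, 0) ≠ 0 → (x ∈ ⋃ i ∈ be, D i ↔ ph x ∉ Wo H)) ∧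
      (∀ i, D (h i) = hyp S.X ph (c i)) ∧
      (∀ e, Dim (V e ∩ {y | ∀ i, c i ⬝ᵥ (Fin.cons 1 y : Fin (N + 1) → ℂ) = 0}) (k e - (a + 1))) ∧
      ∀ e, Dim (V e ∩ {y | ∀ i : Fin a, c i.castSucc ⬝ᵥ (Fin.cons 1 y : Fin (N + 1) → ℂ) = 0})
        (k e - a) := by
  classical
  have hc : MapsTo (cj S.M) {x | ph x (0, 0) = 0} {x | ph x (0, 0) = 0} := fun x hx => by
    have hx' : ph x (0, 0) = 0 := hx
    show ph (cj S.M x) (0, 0) = 0
    rw [hr, cj_apply, hx', map_zero]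
  obtain ⟨D0, r0, al0, h0, hu, hal⟩ := exists_split S hA hc
  obtain ⟨c, D, h, h1, h2, h3⟩ := bert_iter (S := h0.sp) (ph := ph) hph hr hV hk (a + 1)
  have h1' : ∀ j < r0, D j = D0 j := h1
  have hlt : ∀ {j x}, x ∈ D0 j → j < r0 := fun {j x} hx => by
    by_contra hj
    rw [h0.fin j (not_lt.1 hj)] at hx
    exact hx
  refine ⟨r0 + (a + 1), fun i => D i, Finset.univ.filter fun i => (i : ℕ) < r0 ∧ (i : ℕ) ∈ al0,
    Finset.univ.filter fun i => (i : ℕ) < r0 ∧ (i : ℕ) ∉ al0, Fin.natAddEmb r0, fun i => c i,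
    snc_comp_XM5 h.snc Fin.val_injective, fun i => h.cjD _, ?_, fun i => ?_, fun x hx => ?_,
    fun x hx hx0 => ?_, fun i => h2 i i.2, fun e => ?_, fun e => ?_⟩
  · rw [Finset.disjoint_filter]
    exact fun i _ hi hi' => hi'.2 hi.2
  · simp
  · refine Iff.trans ?_ (hal x hx).symm
    simp only [mem_iUnion, Finset.mem_filter, Finset.mem_univ, true_and, exists_prop]
    constructor
    · rintro ⟨i, ⟨hi, hi'⟩, hxi⟩
      exact ⟨i, hi', h1' i hi ▸ hxi⟩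
    · rintro ⟨j, hj, hxj⟩
      have := hlt hxj
      exact ⟨⟨j, by omega⟩, ⟨this, hj⟩, (h1' j this).symm ▸ hxj⟩
  · rw [← hD x hx, ← hu x]
    simp only [mem_iUnion, Finset.mem_filter, Finset.mem_univ, true_and, exists_prop]
    constructor
    · rintro ⟨i, ⟨hi, -⟩, hxi⟩
      exact ⟨i, h1' i hi ▸ hxi⟩
    · rintro ⟨j, hxj⟩
      have := hlt hxj
      exact ⟨⟨j, by omega⟩, ⟨this, fun hj => hx0 ((hal x hx).2 ⟨j, hj, hxj⟩)⟩,
        (h1' j this).symm ▸ hxj⟩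
  · have e1 : {y : Fin N → ℂ | ∀ i : Fin (a + 1), c i ⬝ᵥ (Fin.cons 1 y : Fin (N + 1) → ℂ) = 0} =
        {y | ∀ i < a + 1, c i ⬝ᵥ (Fin.cons 1 y : Fin (N + 1) → ℂ) = 0} :=
      Set.ext fun y => ⟨fun hy i hi => hy ⟨i, hi⟩, fun hy i => hy i i.2⟩
    rw [e1]
    exact h3 (a + 1) le_rfl e
  · have e1 : {y : Fin N → ℂ | ∀ i : Fin a,
        c (i.castSucc : ℕ) ⬝ᵥ (Fin.cons 1 y : Fin (N + 1) → ℂ) = 0} =
        {y | ∀ i < a, c i ⬝ᵥ (Fin.cons 1 y : Fin (N + 1) → ℂ) = 0} :=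
      Set.ext fun y => ⟨fun hy i hi => hy ⟨i, hi⟩, fun hy i => hy i i.2⟩
    rw [e1]
    exact h3 a (by omega) e

end Pool.Agent.HIR
end
end

-- part Pool.Agent.P.MP_65ad7c_ag.VStepA
section

open Set Filter Topology Metric

noncomputable section
namespace Pool.Agent.PWV

variable {X : Cx} {n : ℕ}

namespace FC

/-- The local step: near a point where the number of roots is constant. -/
theorem vstepa_local {G : Polynomial (MvPolynomial (Fin n) ℂ)} (hG : G.Monic)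
    {R : (Fin n → ℂ) → ℝ} (hR : Continuous R) (h0 : ∀ x, 0 < R x)
    (hb : ∀ x, ∀ t ∈ rt G x, ‖t‖ < R x) (Q : FC X ((Fin n → ℂ) × ℂ)) {β : ℤ}
    (p0 : Q.PC (Rt G R)ᶜ) (d0 : Q.DegLe (Rt G R)ᶜ (β - 1)) {U W : Set (Fin n → ℂ)}
    (p1 : Q.PC (Rt G R ∩ U ×ˢ univ)) (d1 : Q.DegLe (Rt G R ∩ U ×ˢ univ) β) (hWU : W ⊆ U)
    {k : ℕ} (hk : ∀ y ∈ W, (rt G y).ncard = k) {x : Fin n → ℂ} (hx : x ∈ W) :
    ∃ W' ∈ 𝓝[W] x, ((Q.res (univ ×ˢ Db)).map (fstC _ ℂ)).PC W' ∧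
      ((Q.res (univ ×ˢ Db)).map (fstC _ ℂ)).DegLe W' β := by
  obtain ⟨W', hW'W, hW', r, hr, hrt⟩ := rootc hG hk hx
  have hne : ∀ y, (R y : ℂ) ≠ 0 := fun y => Complex.ofReal_ne_zero.2 (h0 y).ne'
  have hmem : ∀ y ∈ W', ∀ i, r i y ∈ rt G y := fun y hy i => by
    rw [(hrt y hy).2]; exact mem_range_self i
  refine ⟨W', hW', ta Q (fun i y => r i y / R y) ?_ ?_ ?_ ?_ ?_ p0 p1 d0 d1⟩
  · intro i
    exact (hr i).div (Complex.continuous_ofReal.comp hR).continuousOn fun y _ => hne y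
  · intro y hy i j hij
    exact (hrt y hy).1 ((div_left_inj' (hne y)).1 hij)
  · intro y hy i
    rw [norm_div, Complex.norm_real, Real.norm_eq_abs, abs_of_pos (h0 y), div_lt_one (h0 y)]
    exact hb y _ (hmem y hy i)
  · intro y hy τ hτ hin
    have h1 : (R y : ℂ) * τ ∈ rt G y := hin
    rw [(hrt y hy).2] at h1
    obtain ⟨i, hi⟩ := h1
    refine hτ i ?_
    have hi' : r i y = (R y : ℂ) * τ := hi
    show τ = r i y / R y
    rw [hi', mul_div_cancel_left₀ _ (hne y)]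
  · intro y hy i
    refine ⟨?_, hWU (hW'W hy), mem_univ _⟩
    show (R y : ℂ) * (r i y / R y) ∈ rt G y
    rw [mul_div_cancel₀ _ (hne y)]
    exact hmem y hy i

theorem stepA {G : Polynomial (MvPolynomial (Fin n) ℂ)} (hG : G.Monic) {R : (Fin n → ℂ) → ℝ}
    (hR : Continuous R) (h0 : ∀ x, 0 < R x) (hb : ∀ x, ∀ t ∈ rt G x, ‖t‖ < R x)
    (Q : FC X ((Fin n → ℂ) × ℂ)) {a : ℤ} (p0 : Q.PC (Rt G R)ᶜ)
    (d0 : Q.DegLe (Rt G R)ᶜ (a - (n + 1)))
    (hS : ∀ V (e : ℕ), ZC V → Dim V (e + 1) → ∃ V', ZC V' ∧ Dim V' e ∧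
      Q.PC (Rt G R ∩ (V \ V') ×ˢ univ) ∧ Q.DegLe (Rt G R ∩ (V \ V') ×ˢ univ) (a - e)) :
    GA ((Q.res (univ ×ˢ Db)).map (fstC _ ℂ)) a := by
  intro V e hV hd
  rcases lt_or_ge n e with hne | hen
  · refine ⟨V, hV, ((dim_univ n).mono (subset_univ V)).mono_nat hne, ?_, ?_⟩
    · intro γ _ _ hm
      have := hm (left_mem_Icc.2 zero_le_one)
      exact absurd this.1 this.2
    · intro x hx
      exact absurd hx.1 hx.2
  obtain ⟨V1, hV1, hd1, p1, d1⟩ := hS V e hV hd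
  have hδk : ∀ p : Ideal (MvPolynomial (Fin n) ℂ), ∃ δ : MvPolynomial (Fin n) ℂ, p.IsPrime →
      δ ∉ p ∧ ∃ k : ℕ, ∀ x ∈ ZI p, MvPolynomial.eval x δ ≠ 0 → (rt G x).ncard = k := by
    intro p
    by_cases hp : p.IsPrime
    · obtain ⟨δ, h1, h2⟩ := rootp hG hp
      exact ⟨δ, fun _ => ⟨h1, h2⟩⟩
    · exact ⟨0, fun h => absurd h hp⟩
  choose δ hδ using hδk
  obtain ⟨V2, hV2, hd2, hc⟩ := comp hV hd δ fun p hp => (hδ p hp).1
  have hen' : (e : ℤ) ≤ n := by exact_mod_cast hen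
  have d0' : Q.DegLe (Rt G R)ᶜ (a - e - 1) := DegLe.mono d0 subset_rfl (by omega)
  have key : ∀ x ∈ V \ (V1 ∪ V2), ∃ W' ∈ 𝓝[V \ (V1 ∪ V2)] x,
      ((Q.res (univ ×ˢ Db)).map (fstC _ ℂ)).PC W' ∧
      ((Q.res (univ ×ˢ Db)).map (fstC _ ℂ)).DegLe W' (a - e) := by
    intro x hx
    obtain ⟨p, hp, -, -, hxp, hxδ, hev⟩ := hc x ⟨hx.1, fun h => hx.2 (Or.inr h)⟩
    obtain ⟨k, hk⟩ := (hδ p hp).2
    set W : Set (Fin n → ℂ) :=
      {y | y ∈ V \ (V1 ∪ V2) ∧ y ∈ ZI p ∧ MvPolynomial.eval y (δ p) ≠ 0} with hW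
    have hWn : W ∈ 𝓝[V \ (V1 ∪ V2)] x := by
      have h2 : ∀ᶠ y in 𝓝 x, MvPolynomial.eval y (δ p) ≠ 0 :=
        (MvPolynomial.continuous_eval (δ p)).continuousAt.eventually_ne hxδ
      filter_upwards [self_mem_nhdsWithin, nhdsWithin_le_nhds hev, nhdsWithin_le_nhds h2]
        with y h3 h4 h5
      exact ⟨h3, h4 h3.1, h5⟩
    obtain ⟨W', hW', h1, h2⟩ := vstepa_local hG hR h0 hb Q p0 d0' p1 d1
      (W := W) (fun y hy => ⟨hy.1.1, fun h => hy.1.2 (Or.inl h)⟩)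
      (fun y hy => hk y hy.2.1 hy.2.2) (x := x) ⟨hx, hxp, hxδ⟩
    exact ⟨W', nhdsWithin_le_of_mem hWn hW', h1, h2⟩
  refine ⟨V1 ∪ V2, hV1.union hV2, hd1.union hd2, pc_local fun y hy => ?_, fun x hx => ?_⟩
  · obtain ⟨W', h1, h2, -⟩ := key y hy
    exact ⟨W', h1, h2⟩
  · obtain ⟨W', h1, -, h3⟩ := key x hx
    exact h3 x (mem_of_mem_nhdsWithin hx h1)

end FC

end Pool.Agent.PWV
end
end

-- part Pool.Agent.P.MP_65ad7c_ag.VCc
section

open Set Filter Topology Metric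

noncomputable section
namespace Pool.Agent.PWV

variable {X : Cx} {T T' : Type} [MetricSpace T] [MetricSpace T']

namespace FC
variable {Q : FC X T} {n : ℤ}

theorem mem_Cc {v : X.V n} : v ∈ Q.Cc n ↔ ∃ K, IsCompact K ∧ v ∈ Q.ZT Kᶜ n := by
  have : Nonempty {K : Set T // IsCompact K} := ⟨⟨∅, isCompact_empty⟩⟩
  have hd : Directed (· ≤ ·) fun K : {K : Set T // IsCompact K} => Q.ZT K.1ᶜ n := by
    intro K K'
    have h1 : Q.ZT K.1ᶜ ≤ Q.ZT (K.1 ∪ K'.1)ᶜ := ZT_anti (compl_subset_compl.2 subset_union_left)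
    have h2 : Q.ZT K'.1ᶜ ≤ Q.ZT (K.1 ∪ K'.1)ᶜ := ZT_anti (compl_subset_compl.2 subset_union_right)
    exact ⟨⟨K.1 ∪ K'.1, K.2.union K'.2⟩, h1 n, h2 n⟩
  refine (Submodule.mem_iSup_of_directed _ hd).trans ?_
  exact ⟨fun ⟨K, h⟩ => ⟨K.1, K.2, h⟩, fun ⟨K, hK, h⟩ => ⟨⟨K, hK⟩, h⟩⟩

theorem Cc_stab (Q : FC X T) : X.Stab Q.Cc := by
  intro n v hv
  obtain ⟨K, hK, h⟩ := mem_Cc.1 hv
  exact mem_Cc.2 ⟨K, hK, Q.ZT_stab _ n v h⟩

theorem cs_iff : Q.CS n ↔ ∀ K, IsCompact K → ∀ v ∈ Q.ZT Kᶜ (n + 1),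
    X.d (n + 1) v ∈ Q.ZT univ (n + 1 + 1) → ∃ K', IsCompact K' ∧ Q.Good n v univ K'ᶜ := by
  constructor
  · intro h K hK v hv hd
    obtain ⟨w, hw, h1⟩ := h v (mem_Cc.2 ⟨K, hK, hv⟩) hd
    obtain ⟨K', hK', h2⟩ := mem_Cc.1 hw
    exact ⟨K', hK', w, h2, h1⟩
  · intro h v hv hd
    obtain ⟨K, hK, h0⟩ := mem_Cc.1 hv
    obtain ⟨K', hK', w, h2, h1⟩ := h K hK v h0 hd
    exact ⟨w, mem_Cc.2 ⟨K', hK', h2⟩, h1⟩

theorem vcc_le (Q : FC X T) : Q.ZT univ ≤ Q.Cc := fun _ _ hv =>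
  mem_Cc.2 ⟨∅, isCompact_empty, by rwa [compl_empty]⟩

theorem cs_tri {C : Set T} (hC : IsClosed C) (h1 : (Q.gam C).CS n) (h3 : (Q.loc Cᶜ).CS n) :
    Q.CS n := by
  have e1 : ∀ A, (Q.gam C).ZT A = Q.ZT A ⊓ Q.ZT Cᶜ := fun A => by rw [gam_ZT Q hC, ZT_union]
  have e2 : (Q.gam C).Cc = Q.Cc ⊓ Q.ZT Cᶜ := by
    ext m v
    rw [mem_Cc]
    simp only [e1]
    exact ⟨fun ⟨K, hK, h⟩ => ⟨mem_Cc.2 ⟨K, hK, h.1⟩, h.2⟩,
      fun ⟨h, h'⟩ => (mem_Cc.1 h).imp fun K hK => ⟨hK.1, hK.2, h'⟩⟩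
  have e3 : (Q.loc Cᶜ).Cc = Q.Cc ⊔ Q.ZT Cᶜ := by
    funext m
    simp only [Cc, loc_ZT_compl Q hC, Pi.sup_apply]
    exact le_antisymm (iSup_le fun K => sup_le_sup_right
      (le_iSup (fun K : {K : Set T // IsCompact K} => Q.ZT K.1ᶜ m) K) _)
      (sup_le (iSup_mono fun K => le_sup_left)
        (le_iSup_of_le ⟨∅, isCompact_empty⟩ le_sup_right))
  rw [CS, e1, e2] at h1
  rw [CS, loc_ZT_compl Q hC, e3] at h3
  exact Cx.tri_mid Q.vcc_le (Q.ZT_stab _) Q.Cc_stab (Q.ZT_stab _) h1 h3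

theorem cs_comap {φ : T' → T} (hφ : IsHomeomorph φ) : (Q.comap φ hφ.isInducing).CS n ↔ Q.CS n := by
  have e : (Q.comap φ hφ.isInducing).Cc = Q.Cc := by
    ext m v
    simp only [mem_Cc, comap_ZT, image_compl_eq hφ.bijective]
    refine ⟨fun ⟨K, hK, h⟩ => ⟨_, hK.image hφ.continuous, h⟩, fun ⟨K, hK, h⟩ =>
      ⟨φ ⁻¹' K, hφ.isClosedEmbedding.isCompact_preimage hK, ?_⟩⟩
    rwa [image_preimage_eq K hφ.surjective]
  rw [CS, CS, e, comap_ZT, image_univ_of_surjective hφ.surjective]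

theorem cs_map_fst {R : FC X (T × ℂ)} (h : R.Supp (univ ×ˢ Db)) :
    (R.map (fstC T ℂ)).CS n ↔ R.CS n := by
  have e : (R.map (fstC T ℂ)).Cc = R.Cc := by
    ext m v
    simp only [mem_Cc, h.map_fst_ZT]
    constructor
    · rintro ⟨K, hK, h1⟩
      have h2 : (K ×ˢ Db)ᶜ ∩ univ ×ˢ Db ⊆ Kᶜ ×ˢ Db := fun p hp =>
        ⟨fun h2 => hp.1 ⟨h2, hp.2.2⟩, hp.2.2⟩
      refine ⟨K ×ˢ Db, hK.prod (isCompact_closedBall 0 1), ?_⟩
      rw [h.ZT_eq]
      exact ZT_anti h2 m h1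
    · rintro ⟨K, hK, h1⟩
      have h2 : (Prod.fst '' K)ᶜ ×ˢ Db ⊆ Kᶜ := fun p hp hp' => hp.1 ⟨p, hp', rfl⟩
      exact ⟨Prod.fst '' K, hK.image continuous_fst, ZT_anti h2 m h1⟩
  rw [CS, CS, e, h.map_fst_ZT, h.ZT_eq univ, univ_inter]

theorem mem_Cf {Φ : ℕ → Set T} (hm : Monotone Φ) {v : X.V n} :
    v ∈ Q.Cf Φ n ↔ ∃ k, v ∈ Q.ZT (Φ k)ᶜ n := by
  have h : Monotone fun k => Q.ZT (Φ k)ᶜ n := fun k l h =>
    ZT_anti (compl_subset_compl.2 (hm h)) n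
  exact Submodule.mem_iSup_of_directed _ h.directed_le

theorem vcc_stab (Q : FC X T) {Φ : ℕ → Set T} (hm : Monotone Φ) : X.Stab (Q.Cf Φ) := by
  intro n v hv
  obtain ⟨k, h⟩ := (mem_Cf hm).1 hv
  exact (mem_Cf hm).2 ⟨k, Q.ZT_stab _ n v h⟩

theorem vcc_le' (Q : FC X T) (Φ : ℕ → Set T) : Q.ZT univ ≤ Q.Cf Φ := fun n =>
  le_iSup_of_le 0 (ZT_anti (subset_univ _) n)

theorem vcc_mono (Q : FC X T) {P R : ℕ → Set T} (h : ∀ k, P k ⊆ R k) : Q.Cf P ≤ Q.Cf R := fun n =>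
  iSup_mono fun k => ZT_anti (compl_subset_compl.2 (h k)) n

theorem vcc_union (Q : FC X T) {P R : ℕ → Set T} (hP : ∀ k, IsClosed (P k))
    (hR : ∀ k, IsClosed (R k)) : (Q.Cf fun k => P k ∪ R k) = Q.Cf P ⊔ Q.Cf R := by
  refine le_antisymm (fun n => iSup_le fun k => ?_) (sup_le
    (Q.vcc_mono fun _ => subset_union_left) (Q.vcc_mono fun _ => subset_union_right))
  rw [compl_union, Q.ZT_inter (sep_of_isOpen (hP k).isOpen_compl (hR k).isOpen_compl)]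
  exact sup_le_sup (le_iSup (fun k => Q.ZT (P k)ᶜ n) k) (le_iSup (fun k => Q.ZT (R k)ᶜ n) k)

theorem vcc_inter (Q : FC X T) {P R : ℕ → Set T} (hP : Monotone P) (hR : Monotone R) :
    (Q.Cf fun k => P k ∩ R k) = Q.Cf P ⊓ Q.Cf R := by
  refine le_antisymm (le_inf (Q.vcc_mono fun _ => inter_subset_left)
    (Q.vcc_mono fun _ => inter_subset_right)) fun n v hv => ?_
  obtain ⟨k, hk⟩ := (mem_Cf hP).1 hv.1
  obtain ⟨l, hl⟩ := (mem_Cf hR).1 hv.2
  refine (mem_Cf (hP.inter hR)).2 ⟨max k l, ?_⟩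
  rw [compl_inter, ZT_union]
  exact ⟨ZT_anti (compl_subset_compl.2 (hP (le_max_left k l))) n hk,
    ZT_anti (compl_subset_compl.2 (hR (le_max_right k l))) n hl⟩

theorem vcc_fam {ι : Type} [DecidableEq ι] (Φ : ι → ℕ → Set T) (hc : ∀ i k, IsClosed (Φ i k))
    (hm : ∀ i, Monotone (Φ i)) {b : ℤ}
    (h : ∀ J : Finset ι, J.Nonempty → ∀ j, j + 1 < b →
      X.ExS j (Q.ZT univ) (Q.Cf fun k => ⋂ i ∈ J, Φ i k))
    (L : Finset ι) : ∀ (J : Finset ι) (j : ℤ), j + 1 + L.card ≤ b →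
    X.ExS j (Q.ZT univ) (Q.Cf fun k => (⋂ i ∈ J, Φ i k) ∩ ⋃ i ∈ L, Φ i k) := by
  have mI : ∀ J : Finset ι, Monotone fun k => ⋂ i ∈ J, Φ i k := fun J k l hkl =>
    iInter₂_mono fun i _ => hm i hkl
  have mU : ∀ J : Finset ι, Monotone fun k => ⋃ i ∈ J, Φ i k := fun J k l hkl =>
    iUnion₂_mono fun i _ => hm i hkl
  have cI : ∀ (J : Finset ι) k, IsClosed (⋂ i ∈ J, Φ i k) := fun J k =>
    isClosed_biInter fun i _ => hc i k
  induction L using Finset.induction_on with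
  | empty =>
    intro J j _
    have e : (Q.Cf fun k => (⋂ i ∈ J, Φ i k) ∩ ⋃ i ∈ (∅ : Finset ι), Φ i k) = Q.ZT univ := by
      funext m
      simp [Cf]
    rw [e]
    exact Q.ex_self j univ
  | insert a L ha ih =>
    intro J j hj
    rw [Finset.card_insert_of_notMem ha] at hj
    push_cast at hj
    have e1 : (fun k => (⋂ i ∈ J, Φ i k) ∩ ⋃ i ∈ insert a L, Φ i k) = fun k =>
        (⋂ i ∈ insert a J, Φ i k) ∪ ((⋂ i ∈ J, Φ i k) ∩ ⋃ i ∈ L, Φ i k) := by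
      funext k
      rw [Finset.set_biUnion_insert, Finset.set_biInter_insert, inter_union_distrib_left,
        inter_comm (Φ a k)]
    have e2 : (fun k => (⋂ i ∈ insert a J, Φ i k) ∩ ⋃ i ∈ L, Φ i k) = fun k =>
        (⋂ i ∈ insert a J, Φ i k) ∩ ((⋂ i ∈ J, Φ i k) ∩ ⋃ i ∈ L, Φ i k) := by
      funext k
      rw [Finset.set_biInter_insert, ← inter_assoc, inter_assoc (Φ a k) _ (⋂ i ∈ J, Φ i k),
        inter_self]
    have mB := (mI J).inter (mU L)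
    have sA := Q.vcc_stab (mI (insert a J))
    have sB := Q.vcc_stab mB
    have h3 := ih (insert a J) (j + 1) (by omega)
    rw [e2, Q.vcc_inter (mI _) mB] at h3
    rw [e1, Q.vcc_union (cI _) fun k =>
      (cI J k).inter (isClosed_biUnion_finset fun i _ => hc i k)]
    exact Cx.exs_mid le_sup_left (Q.vcc_le' _) sA
      (h _ (Finset.insert_nonempty a J) j (by omega))
      ((Cx.exs_exc sA sB).1 (Cx.exs_right (le_inf (Q.vcc_le' _) (Q.vcc_le' _)) inf_le_right sB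
        (sA.inf sB) (ih J j (by omega)) h3))

/-- Mayer-Vietoris for families of supports. -/
theorem mv_fam {ι : Type} [DecidableEq ι] (Φ : ι → ℕ → Set T) (hc : ∀ i k, IsClosed (Φ i k))
    (hm : ∀ i, Monotone (Φ i)) {b : ℤ}
    (h : ∀ J : Finset ι, J.Nonempty → ∀ j, j + 1 < b →
      X.ExS j (Q.ZT univ) (Q.Cf fun k => ⋂ i ∈ J, Φ i k))
    (L : Finset ι) (j : ℤ) (hj : j + 1 + L.card ≤ b) :
    X.ExS j (Q.ZT univ) (Q.Cf fun k => ⋃ i ∈ L, Φ i k) := by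
  simpa using vcc_fam Φ hc hm h L ∅ j hj

end FC

end Pool.Agent.PWV
end
end

-- part Pool.Agent.P.MP_65ad7c_ag.VRad
section

open Set Filter Topology Metric

noncomputable section
namespace Pool.Agent.PWV

variable {X : Cx} {E F : Type} [NormedAddCommGroup E] [NormedSpace ℝ E] [FiniteDimensional ℝ E]
  [NormedAddCommGroup F] [NormedSpace ℝ F] [FiniteDimensional ℝ F]

/-- a radial segment -/
def vradR (y : E) (u : ℂ) (s t : ℝ) : Set (E × ℂ) :=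
  {p | p.1 = y ∧ s ≤ ‖p.2‖ ∧ ‖p.2‖ ≤ t ∧ ‖p.2‖⁻¹ • p.2 = u}

omit [NormedAddCommGroup E] [NormedSpace ℝ E] [FiniteDimensional ℝ E] in
theorem vradR_mono (y : E) (u : ℂ) {s t s' t' : ℝ} (h1 : s ≤ s') (h2 : t' ≤ t) :
    vradR y u s' t' ⊆ vradR y u s t :=
  fun _ h => ⟨h.1, h1.trans h.2.1, h.2.2.1.trans h2, h.2.2.2⟩

omit [FiniteDimensional ℝ E] in
theorem vradR_seg (y : E) {u : ℂ} (hu : ‖u‖ = 1) {s t : ℝ} (h0 : 0 < s) (h : s ≤ t) :
    vradR y u s t = segment ℝ (y, s • u) (y, t • u) := by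
  ext p
  constructor
  · rintro ⟨h1, h2, h3, h4⟩
    have h5 : ‖p.2‖ ∈ segment ℝ s t := by
      rw [segment_eq_Icc h]
      exact ⟨h2, h3⟩
    obtain ⟨a, b, ha, hb, hab, e⟩ := h5
    refine ⟨a, b, ha, hb, hab, Prod.ext ?_ ?_⟩
    · change a • y + b • y = p.1
      rw [← add_smul, hab, one_smul, h1]
    · change a • s • u + b • t • u = p.2
      have h6 : a * s + b * t = ‖p.2‖ := e
      rw [smul_smul, smul_smul, ← add_smul, h6, ← h4, smul_smul,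
        mul_inv_cancel₀ (h0.trans_le h2).ne', one_smul]
  · rintro ⟨a, b, ha, hb, hab, rfl⟩
    have h5 : a * s + b * t ∈ Icc s t := by
      rw [← segment_eq_Icc h]
      exact ⟨a, b, ha, hb, hab, rfl⟩
    have h6 : (a • (y, s • u) + b • (y, t • u)).2 = (a * s + b * t) • u := by
      change a • s • u + b • t • u = _
      rw [smul_smul, smul_smul, ← add_smul]
    have h7 : 0 < a * s + b * t := h0.trans_le h5.1
    have h8 : ‖(a * s + b * t) • u‖ = a * s + b * t := by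
      rw [norm_smul, hu, mul_one, Real.norm_of_nonneg h7.le]
    refine ⟨?_, ?_, ?_, ?_⟩
    · change a • y + b • y = y
      rw [← add_smul, hab, one_smul]
    · rw [h6, h8]; exact h5.1
    · rw [h6, h8]; exact h5.2
    · rw [h6, h8, smul_smul, inv_mul_cancel₀ h7.ne', one_smul]

omit [NormedAddCommGroup E] [NormedSpace ℝ E] [FiniteDimensional ℝ E] in
theorem vradR_empty (y : E) {u : ℂ} (hu : ‖u‖ ≠ 1) {s : ℝ} (h0 : 0 < s) (t : ℝ) :
    vradR y u s t = ∅ := by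
  refine eq_empty_of_forall_notMem fun p h => hu ?_
  rw [← h.2.2.2, norm_smul, norm_inv, norm_norm, inv_mul_cancel₀ (h0.trans_le h.2.1).ne']

namespace FC

omit [FiniteDimensional ℝ E] in
theorem vrad_acyc (Q : FC X (E × ℂ)) {S : Set (E × ℂ)} (hP : Q.PC S) (y : E) (u : ℂ)
    {s t s' t' : ℝ} (h0 : 0 < s) (h1 : s ≤ s') (h2 : s' ≤ t') (h3 : t' ≤ t)
    (hS : vradR y u s t ⊆ S) : Q.Acyc (vradR y u s t) (vradR y u s' t') := by
  by_cases hu : ‖u‖ = 1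
  swap
  · rw [vradR_empty y hu h0, vradR_empty y hu (h0.trans_le h1)]
    exact fun n => Q.ex_self n _
  have kl : ∀ a b, s ≤ a → a ≤ b → b ≤ t → Q.Acyc (vradR y u a b) {(y, a • u)} ∧
      Q.Acyc (vradR y u a b) {(y, b • u)} ∧ {(y, a • u)} ⊆ vradR y u a b ∧
      {(y, b • u)} ⊆ vradR y u a b := by
    intro a b ha hab hb
    have e := (vradR_mono y u ha hb).trans hS
    rw [vradR_seg y hu (h0.trans_le ha) hab] at e ⊢
    refine ⟨hP.segment e, ?_, singleton_subset_iff.2 (left_mem_segment _ _ _),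
      singleton_subset_iff.2 (right_mem_segment _ _ _)⟩
    rw [segment_symm] at e ⊢
    exact hP.segment e
  have k1 := kl s t le_rfl (h1.trans (h2.trans h3)) le_rfl
  have k2 := kl s' t h1 (h2.trans h3) le_rfl
  have k3 := kl s' t' h1 h2 h3
  exact Acyc.mid (vradR_mono y u h1 le_rfl) (vradR_mono y u le_rfl h3)
    (Acyc.left (vradR_mono y u h1 le_rfl) k2.2.2.2 k1.2.1 k2.2.1)
    (Acyc.left (vradR_mono y u le_rfl h3) k3.2.2.1 k2.1 k3.1)

theorem vrad_tower (Q : FC X (E × ℂ)) {A B : Set (E × ℂ)} (hP : Q.PC A) (a b : ℕ → ℝ)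
    (ha : Antitone a) (hb : Monotone b) (h0 : ∀ i, 0 < a i) (hA : ∀ p ∈ A, p.2 ≠ 0)
    (hs : ∀ i (p : E × ℂ), a i ≤ ‖p.2‖ → p ∈ A) (hB : RelCl B A)
    (hcov : ∀ x ∈ A, ∃ i : ℕ, ‖x.1‖ < i ∧ ‖x.2‖ < b i ∧ ∀ᶠ p in 𝓝[A] x, a i ≤ ‖p.2‖)
    (h : ∀ i y, ∃ s t, a i ≤ s ∧ s ≤ t ∧ t ≤ b i ∧
      ∀ τ : ℂ, a i ≤ ‖τ‖ → ‖τ‖ ≤ b i → ((y, τ) ∈ B ↔ s ≤ ‖τ‖ ∧ ‖τ‖ ≤ t)) : Q.Acyc A B := by
  refine Q.vb_tower (fun i => closedBall (0 : E) i ×ˢ ({τ : ℂ | a i ≤ ‖τ‖} ∩ closedBall 0 (b i)))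
    (fun i j hij => prod_mono (closedBall_subset_closedBall (by exact_mod_cast hij))
      (inter_subset_inter (fun τ hτ => (ha hij).trans hτ) (closedBall_subset_closedBall (hb hij))))
    (fun i => (isCompact_closedBall _ _).prod ((isCompact_closedBall _ _).inter_left
      (isClosed_le continuous_const continuous_norm)))
    (fun i p hp => hs i p hp.2.1) hB (fun x hx => ?_)
    (fun p => (p.1, ‖p.2‖⁻¹ • p.2)) ?_ fun i q => ?_
  · obtain ⟨i, h1, h2, h3⟩ := hcov x hx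
    have h4 : ∀ᶠ p : E × ℂ in 𝓝 x, ‖p.1‖ < i :=
      (continuous_fst.norm.tendsto x).eventually (gt_mem_nhds h1)
    have h5 : ∀ᶠ p : E × ℂ in 𝓝 x, ‖p.2‖ < b i :=
      (continuous_snd.norm.tendsto x).eventually (gt_mem_nhds h2)
    refine ⟨i, ?_⟩
    filter_upwards [h3, nhdsWithin_le_nhds h4, nhdsWithin_le_nhds h5] with p k1 k2 k3
    exact ⟨mem_closedBall_zero_iff.2 k2.le, k1, mem_closedBall_zero_iff.2 k3.le⟩
  · exact continuousOn_fst.prodMk ((continuousOn_snd.norm.inv₀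
      fun p hp => norm_ne_zero_iff.2 (hA p hp)).smul continuousOn_snd)
  · obtain ⟨y, u⟩ := q
    by_cases hy : ‖y‖ ≤ i
    · obtain ⟨s, t, k1, k2, k3, k4⟩ := h i y
      have e := Q.vrad_acyc hP y u (h0 i) k1 k2 k3 fun p hp => hs i p hp.2.1
      refine (congrArg₂ Q.Acyc ?_ ?_).mp e
      · ext ⟨z, τ⟩
        simp only [vradR, mem_ofPred_eq, mem_inter_iff, mem_prod, mem_closedBall_zero_iff,
          mem_preimage, mem_singleton_iff, Prod.mk.injEq]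
        constructor
        · rintro ⟨rfl, m1, m2, m3⟩
          exact ⟨⟨hy, m1, m2⟩, rfl, m3⟩
        · rintro ⟨⟨-, m1, m2⟩, m0, m3⟩
          exact ⟨m0, m1, m2, m3⟩
      · ext ⟨z, τ⟩
        simp only [vradR, mem_ofPred_eq, mem_inter_iff, mem_prod, mem_closedBall_zero_iff,
          mem_preimage, mem_singleton_iff, Prod.mk.injEq]
        constructor
        · rintro ⟨rfl, m1, m2, m3⟩
          exact ⟨⟨(k4 τ (k1.trans m1) (m2.trans k3)).2 ⟨m1, m2⟩, hy, k1.trans m1, m2.trans k3⟩,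
            rfl, m3⟩
        · rintro ⟨⟨m, -, m1, m2⟩, rfl, m3⟩
          exact ⟨rfl, ((k4 τ m1 m2).1 m).1, ((k4 τ m1 m2).1 m).2, m3⟩
    · have e : ∀ p : E × ℂ, p.1 ∈ closedBall (0 : E) i → (p.1, ‖p.2‖⁻¹ • p.2) ≠ (y, u) :=
        fun p hp he => hy (by
          rw [← show p.1 = y from congrArg Prod.fst he]
          exact mem_closedBall_zero_iff.1 hp)
      refine (congrArg₂ Q.Acyc ?_ ?_).mp fun n => Q.ex_self n ∅
      · exact (eq_empty_of_forall_notMem fun p hp => e p hp.1.1 hp.2).symm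
      · exact (eq_empty_of_forall_notMem fun p hp => e p hp.1.2.1 hp.2).symm

theorem rad (Q : FC X (E × ℂ)) (hP : Q.PC (univ ×ˢ {τ | 1 ≤ ‖τ‖})) :
    Q.Acyc univ (univ ×ˢ Db) := by
  have hc : IsClosed ((univ : Set E) ×ˢ {τ : ℂ | 1 ≤ ‖τ‖}) :=
    isClosed_univ.prod (isClosed_le continuous_const continuous_norm)
  have hc' : IsClosed ((univ : Set E) ×ˢ Db) := isClosed_univ.prod isClosed_closedBall
  have e : (univ : Set E) ×ˢ {τ : ℂ | 1 ≤ ‖τ‖} ∪ univ ×ˢ Db = univ :=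
    eq_univ_of_forall fun p => (le_total 1 ‖p.2‖).imp (fun h => ⟨trivial, h⟩)
      fun h => ⟨trivial, mem_closedBall_zero_iff.2 h⟩
  intro n
  have key := Q.vrad_tower hP (fun _ => 1) (fun i => i + 1) antitone_const
    (fun i j hij => by have : (i : ℝ) ≤ j := (by exact_mod_cast hij); simpa using this)
    (fun _ => one_pos) (fun p hp => norm_pos_iff.1 (one_pos.trans_le hp.2))
    (fun _ _ h => ⟨trivial, h⟩) (relCl_inter hc') (fun x _ => by
      obtain ⟨i, hi⟩ := exists_nat_gt (max ‖x.1‖ ‖x.2‖)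
      refine ⟨i, (le_max_left _ _).trans_lt hi, ?_, ?_⟩
      · linarith [(le_max_right _ _).trans_lt hi]
      · filter_upwards [self_mem_nhdsWithin] with p hp using hp.2)
    (fun i y => ⟨1, 1, le_rfl, le_rfl, by simp, fun τ h1 _ =>
      ⟨fun h => ⟨h1, mem_closedBall_zero_iff.1 h.2.2⟩,
        fun h => ⟨⟨trivial, h1⟩, trivial, mem_closedBall_zero_iff.2 h.2⟩⟩⟩)
  have h := (Q.ex_exc (sep_of_isClosed hc hc')).2 (key n)
  rwa [e] at h

theorem radc (Q : FC X (E × ℂ)) (hP : Q.PC (univ ×ˢ Db)ᶜ) (n : ℤ) :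
    (Q.loc (univ ×ˢ Db)ᶜ).CS n := by
  have hc' : IsClosed ((univ : Set E) ×ˢ Db) := isClosed_univ.prod isClosed_closedBall
  have hW : ∀ p : E × ℂ, p ∈ ((univ : Set E) ×ˢ Db)ᶜ ↔ 1 < ‖p.2‖ := fun p => by
    simp [Db]
  generalize ((univ : Set E) ×ˢ Db) = G at hP hc' hW
  have ho := hc'.isOpen_compl
  refine cs_iff.2 fun K hK v hv hd => ?_
  obtain ⟨r, hr, hKr⟩ := hK.isBounded.subset_ball_lt 2 0
  have hpos : ∀ i : ℕ, (0 : ℝ) < 1 / (i + 1) := fun i => by positivity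
  have hle : ∀ i : ℕ, 1 + 1 / ((i : ℝ) + 1) ≤ r := fun i => by
    have : 1 / ((i : ℝ) + 1) ≤ 1 := by
      rw [div_le_one (by positivity)]
      simp
    linarith
  have hle' : ∀ i : ℕ, r ≤ r + i := fun i => by simp
  have key := Q.vrad_tower (B := Gᶜ ∩ (ball 0 r)ᶜ) hP (fun i => 1 + 1 / (i + 1))
    (fun i => r + i)
    (fun i j hij => by
      have : (i : ℝ) ≤ j := by exact_mod_cast hij
      change 1 + 1 / ((j : ℝ) + 1) ≤ 1 + 1 / ((i : ℝ) + 1)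
      gcongr)
    (fun i j hij => by have : (i : ℝ) ≤ j := (by exact_mod_cast hij); simpa using this)
    (fun i => by linarith [hpos i]) (fun p hp => norm_pos_iff.1 (one_pos.trans ((hW p).1 hp)))
    (fun i p h => (hW p).2 (by linarith [hpos i])) (relCl_inter isOpen_ball.isClosed_compl)
    (fun x hx => by
      obtain ⟨i, hi⟩ := exists_nat_gt (max ‖x.1‖ ‖x.2‖)
      obtain ⟨j, hj⟩ := exists_nat_one_div_lt (sub_pos.2 ((hW x).1 hx))
      have h1 : (i : ℝ) ≤ (max i j : ℕ) := by exact_mod_cast le_max_left i j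
      have h2 : (j : ℝ) ≤ (max i j : ℕ) := by exact_mod_cast le_max_right i j
      have h3 : 1 / (((max i j : ℕ) : ℝ) + 1) ≤ 1 / ((j : ℝ) + 1) := by gcongr
      refine ⟨max i j, ((le_max_left _ _).trans_lt hi).trans_le h1, ?_, ?_⟩
      · linarith [(le_max_right _ _).trans_lt hi]
      · have h4 : ∀ᶠ p : E × ℂ in 𝓝 x, 1 + 1 / (((max i j : ℕ) : ℝ) + 1) < ‖p.2‖ :=
          (continuous_snd.norm.tendsto x).eventually (lt_mem_nhds (by linarith))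
        exact nhdsWithin_le_nhds (h4.mono fun p hp => hp.le))
    (fun i y => by
      have hm : ∀ τ : ℂ, 1 + 1 / ((i : ℝ) + 1) ≤ ‖τ‖ →
          ((y, τ) ∈ Gᶜ ∩ (ball 0 r)ᶜ ↔ r ≤ ‖y‖ ∨ r ≤ ‖τ‖) := fun τ h => by
        rw [mem_inter_iff, hW, mem_compl_iff, mem_ball_zero_iff, not_lt, Prod.norm_def, le_max_iff]
        exact and_iff_right (by linarith [hpos i])
      by_cases hy : r ≤ ‖y‖
      · exact ⟨_, _, le_rfl, (hle i).trans (hle' i), le_rfl, fun τ h1 h2 =>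
          ⟨fun _ => ⟨h1, h2⟩, fun _ => (hm τ h1).2 (Or.inl hy)⟩⟩
      · exact ⟨r, _, hle i, hle' i, le_rfl, fun τ h1 h2 =>
          ⟨fun h => ⟨((hm τ h1).1 h).resolve_left hy, h2⟩, fun h => (hm τ h1).2 (Or.inr h.1)⟩⟩)
  rw [Q.loc_ZT_open ho hK.isClosed.isOpen_compl] at hv
  rw [Q.loc_ZT_open ho isOpen_univ, univ_inter] at hd
  obtain ⟨w, hw, hw'⟩ := key n v
    (ZT_anti (A := Kᶜ ∩ Gᶜ) (fun p hp => ⟨fun h => hp.2 (hKr h), hp.1⟩) _ hv) hd
  refine ⟨closedBall 0 r, isCompact_closedBall _ _, w, ?_, ?_⟩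
  · rw [Q.loc_ZT_open ho isClosed_closedBall.isOpen_compl]
    exact ZT_anti (A := Gᶜ ∩ (ball 0 r)ᶜ)
      (fun p hp => ⟨hp.2, fun h => hp.1 (ball_subset_closedBall h)⟩) _ hw
  · rw [Q.loc_ZT_open ho isOpen_univ, univ_inter]
    exact hw'

end FC

end Pool.Agent.PWV
end
end

-- part Pool.Agent.P.MP_65ad7c_ag.VStratA
section

open Set Filter Topology Metric

noncomputable section
namespace Pool.Agent.PWV

variable {X : Cx} {N : ℕ}

theorem vstrata_not_mem {σ : Type} {W : Set (σ → ℂ)} (hW : ZC W) {p : Ideal (MvPolynomial σ ℂ)}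
    (h : ¬ ZI p ⊆ W) : ∃ δ ∉ p, ∀ x, MvPolynomial.eval x δ ≠ 0 → x ∉ W := by
  obtain ⟨S, rfl⟩ := hW
  obtain ⟨x, hx, hx'⟩ := not_subset.1 h
  by_contra hc
  refine hx' fun f hf => ?_
  by_contra h0
  exact hc ⟨f, fun hp => h0 (hx f hp), fun y hy hy' => hy (hy' f hf)⟩

/-- An irreducible variety lies generically in one stratum. -/
theorem exists_stratum (Y : ℕ → Set (Fin N → ℂ)) (hY : ∀ k, ZC (Y k)) (h0 : Y 0 = ∅) (D : ℕ)
    {p : Ideal (MvPolynomial (Fin N) ℂ)} (hp : p.IsPrime) :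
    ∃ δ ∉ p, (∀ x, MvPolynomial.eval x δ ≠ 0 → x ∉ Y D) ∨
      ∃ k, ZI p ⊆ Y (k + 1) ∧ ∀ x, MvPolynomial.eval x δ ≠ 0 → x ∉ Y k := by
  classical
  by_cases h : ZI p ⊆ Y D
  · have hex : ∃ k, ZI p ⊆ Y k := ⟨D, h⟩
    have h1 := Nat.find_spec hex
    have h2 : Nat.find hex ≠ 0 := fun e => by
      rw [e, h0] at h1
      exact hp.ne_top ((Ideal.eq_top_iff_one p).2 (null hp fun x hx => (h1 hx).elim))
    obtain ⟨k, hk⟩ := Nat.exists_eq_succ_of_ne_zero h2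
    obtain ⟨δ, g1, g2⟩ := vstrata_not_mem (hY k) (Nat.find_min hex (show k < Nat.find hex by omega))
    rw [hk] at h1
    exact ⟨δ, g1, Or.inr ⟨k, h1, g2⟩⟩
  · obtain ⟨δ, g1, g2⟩ := vstrata_not_mem (hY D) h
    exact ⟨δ, g1, Or.inl g2⟩

namespace FC

theorem stratA (Q : FC X (Fin N → ℂ)) (Y : ℕ → Set (Fin N → ℂ)) (hY : ∀ k, ZC (Y k))
    (hd : ∀ k, Dim (Y k) k) {D : ℕ} (hs : Q.Supp (Y D)) {a : ℤ}
    (hP : ∀ k, Q.PC (Y (k + 1) \ Y k)) (hD : ∀ k : ℕ, Q.DegLe (Y (k + 1) \ Y k) (a - k)) :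
    GA Q a := by
  intro V e hV hVd
  choose! δ h1 h2 using fun (p : Ideal (MvPolynomial (Fin N) ℂ)) (hp : p.IsPrime) =>
    exists_stratum Y hY (dim_zero.1 (hd 0)) D hp
  obtain ⟨V', g1, g2, g3⟩ := comp hV hVd δ h1
  have key : ∀ x ∈ V \ V', ∃ W ∈ 𝓝[V \ V'] x, Q.PC W ∧ Q.DegLe W (a - e) := by
    intro x hx
    obtain ⟨p, hp, -, hpe, -, hxδ, hev⟩ := g3 x hx
    have hne : ∀ᶠ y in 𝓝 x, MvPolynomial.eval y (δ p) ≠ 0 :=
      (MvPolynomial.continuous_eval (δ p)).continuousAt.eventually_ne hxδ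
    rcases h2 p hp with h | ⟨k, hk, h⟩
    · exact ⟨(Y D)ᶜ, mem_nhdsWithin_of_mem_nhds (hne.mono h), hs.pc_off, (hs.deg_off _).2⟩
    · have hek : e ≤ k := by
        by_contra hc
        exact hpe (((hd (k + 1)).mono hk).mono_nat (by omega))
      refine ⟨Y (k + 1) \ Y k, ?_, hP k, (hD k).mono Subset.rfl (by omega)⟩
      filter_upwards [mem_nhdsWithin_of_mem_nhds hne, mem_nhdsWithin_of_mem_nhds hev,
        self_mem_nhdsWithin] with y a1 a2 a3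
      exact ⟨hk (a2 a3.1), h y a1⟩
  refine ⟨V', g1, g2, pc_local fun x hx => ?_, fun x hx => ?_⟩
  · obtain ⟨W, a1, a2, -⟩ := key x hx
    exact ⟨W, a1, a2⟩
  · obtain ⟨W, a1, -, a3⟩ := key x hx
    exact a3 x (mem_of_mem_nhdsWithin hx a1)

end FC

end Pool.Agent.PWV
end
end

-- part Pool.Agent.P.MP_65ad7c_ag.VAV
section

open Set Filter Topology Metric

noncomputable section
namespace Pool.Agent.PWV

variable {X : Cx}

namespace FC

theorem vav_ex {T : Type} [MetricSpace T] {Q : FC X T} {H A B : Set T} (hH : IsClosed H)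
    (hA : A ⊆ H) (hB : B ⊆ H) {n : ℤ} : (Q.res H).Ex n A B ↔ Q.Ex n A B := by
  rw [Ex, res_ZT _ hH, res_ZT _ hH, inter_eq_left.2 hA, inter_eq_left.2 hB, Ex]

theorem vav_pc {T : Type} [MetricSpace T] {Q : FC X T} {H S : Set T} (hH : IsClosed H)
    (h : Q.PC S) (hS : S ⊆ H) : (Q.res H).PC S := fun γ h1 h2 h3 n =>
  (vav_ex hH (h3.image_subset.trans hS)
    (singleton_subset_iff.2 (hS (h3 ⟨le_rfl, zero_le_one⟩)))).2 (h γ h1 h2 h3 n)

/-- Artin vanishing. -/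
theorem av (n : ℕ) : ∀ (Q : FC X (Fin n → ℂ)) (a : ℤ), GA Q a →
    ∀ j : ℤ, a < j + 1 → Q.Ex j univ ∅ := by
  induction n with
  | zero =>
    intro Q a h j hj
    obtain ⟨V', -, hd, -, hD⟩ := h univ 0 zc_univ (dim_univ 0)
    rw [dim_zero.1 hd] at hD
    have e : (univ : Set (Fin 0 → ℂ)) = {0} := by
      ext x
      simp only [mem_univ, mem_singleton_iff, true_iff]
      exact Subsingleton.elim _ _
    have := hD 0 ⟨mem_univ _, notMem_empty _⟩ j (by simpa using hj)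
    rwa [e]
  | succ n ih =>
    intro Q a h j hj
    obtain ⟨g, hg, hP, hD⟩ := topA Q h
    obtain ⟨h₀, hh, hv⟩ := monic_dir hg
    obtain ⟨v, hv0⟩ : ∃ v, MvPolynomial.eval v h₀ ≠ 0 := by
      by_contra hc
      push Not at hc
      exact hh (MvPolynomial.funext fun x => by rw [hc x, map_zero])
    obtain ⟨G, hG, hgG⟩ := hv v hv0
    obtain ⟨R, hR, h0, hb⟩ := rootb hG
    have hs := isHomeomorph_sc v hR h0
    have tr := tr_comap Q hs.isInducing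
    have hsub : sc v R '' (Rt G R)ᶜ ⊆ {x | MvPolynomial.eval x g = 0}ᶜ := by
      rintro _ ⟨p, hp, rfl⟩ hx
      exact hp ((hgG p.1 _).1 hx)
    have p0 : (Q.comap _ hs.isInducing).PC (Rt G R)ᶜ :=
      (tr.pc hs.isEmbedding _).2 (hP.mono hsub)
    have d0 : (Q.comap _ hs.isInducing).DegLe (Rt G R)ᶜ (a - (n + 1)) :=
      (tr.degLe _ _).2 (hD.mono hsub (by push_cast; exact le_rfl))
    have h1 := ih _ a (stepA hG hR h0 hb _ p0 d0 (preA Q h hG hgG hs)) j hj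
    have hF : IsClosed (univ ×ˢ Db : Set ((Fin n → ℂ) × ℂ)) := isClosed_univ.prod isClosed_closedBall
    have hsup := supp_res (Q.comap _ hs.isInducing) hF
    rw [Ex, hsup.map_fst_ZT, hsup.map_fst_ZT, res_ZT _ hF, res_ZT _ hF, inter_self, empty_prod,
      empty_inter] at h1
    have h2 : (Q.comap _ hs.isInducing).Acyc univ (univ ×ˢ Db) := by
      refine rad _ (p0.mono fun p hp hr => ?_)
      have h3 := hb p.1 _ hr
      have h4 : 1 ≤ ‖p.2‖ := hp.2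
      rw [norm_mul, Complex.norm_real, Real.norm_of_nonneg (h0 _).le] at h3
      exact absurd h3 (not_lt.2 (le_mul_of_one_le_right (h0 _).le h4))
    have h5 := (tr j univ ∅ (empty_subset _)).1
      (Ex.mid (subset_univ _) (empty_subset _) (h2 j) h1)
    rwa [image_univ, hs.surjective.range_eq, image_empty] at h5

/-- Artin vanishing on an algebraic subset of a stratified set. -/
theorem av_strat {N : ℕ} (Q : FC X (Fin N → ℂ)) (F : ℕ → Set (Fin N → ℂ)) (hF : ∀ c, ZC (F c))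
    (hP : ∀ c, Q.PC (F c \ F (c + 1))) {H : Set (Fin N → ℂ)} (hH : ZC H) (h0 : H ⊆ F 0) {m : ℕ}
    (hd : ∀ c, Dim (F c ∩ H) (m - c)) {a : ℤ}
    (hD : ∀ c : ℕ, Q.DegLe ((F c \ F (c + 1)) ∩ H) (a + c + 1 - m)) {j : ℤ} (hj : a < j + 1) :
    Q.Ex j H ∅ := by
  have hc := hH.isClosed
  have hsub : ∀ k, ∃ c, (F (m - (k + 1)) ∩ H) \ (F (m - k) ∩ H) ⊆ (F c \ F (c + 1)) ∩ H ∧
      ((F (m - (k + 1)) ∩ H) \ (F (m - k) ∩ H) = ∅ ∨ c + k + 1 = m) := by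
    intro k
    by_cases hk : k < m
    · refine ⟨m - (k + 1), fun x hx => ⟨⟨hx.1.1, fun h => hx.2 ⟨?_, hx.1.2⟩⟩, hx.1.2⟩,
        Or.inr (by omega)⟩
      rwa [show m - k = m - (k + 1) + 1 by omega]
    · have e : (F (m - (k + 1)) ∩ H) \ (F (m - k) ∩ H) = ∅ := by
        rw [show m - (k + 1) = m - k by omega, sdiff_self]
      exact ⟨0, e ▸ empty_subset _, Or.inl e⟩
  have hGA : GA (Q.res H) a := by
    refine stratA (Q.res H) (fun k => F (m - k) ∩ H) (fun k => (hF _).inter hH)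
      (fun k => (hd _).mono_nat (by omega)) (D := m) ((supp_res Q hc).mono fun x hx => ?_)
      (fun k => ?_) fun k => ?_
    · exact ⟨by rw [Nat.sub_self]; exact h0 hx, hx⟩
    · obtain ⟨c, h1, -⟩ := hsub k
      exact vav_pc hc (((hP c).mono inter_subset_left).mono h1) (h1.trans inter_subset_right)
    · obtain ⟨c, h1, h2 | h2⟩ := hsub k
      · intro x hx
        exact absurd (h2 ▸ hx) (notMem_empty x)
      · intro x hx i hi
        refine (vav_ex hc (singleton_subset_iff.2 (h1 hx).2) (empty_subset _)).2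
          (hD c x (h1 hx) i ?_)
        omega
  have h1 := av N _ a hGA j hj
  rwa [Ex, res_ZT _ hc, res_ZT _ hc, univ_inter, empty_inter] at h1

end FC

end Pool.Agent.PWV
end
end

-- part Pool.Agent.P.MP_65ad7c_ag.VLow
section

open Set Filter Topology Metric

noncomputable section
namespace Pool.Agent.PWV

variable {X : Cx} {T T' : Type} [MetricSpace T] [MetricSpace T']

namespace FC

/-- A locally exact element is exact on an open set if the cocycles one degree lower are flabby. -/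
theorem sur_of_fl (Q : FC X T) (n : ℤ)
    (fl : ∀ N, IsOpen N → ∀ w ∈ Q.top n, X.d n w ∈ Q.ZT N (n + 1) →
      ∃ k ∈ Q.top n, X.d n k ∈ Q.ZT univ (n + 1) ∧ w - k ∈ Q.ZT N n)
    {U : Set T} (hU : IsOpen U) {v : X.V (n + 1)} (hv : v ∈ Q.top (n + 1))
    (h : ∀ x ∈ U, Q.Good n v {x} ∅) : Q.Good n v U ∅ := by
  have key : ∀ {x : T} {w w' : X.V n}, v - X.d n w ∈ Q.z (n + 1) x → w' - w ∈ Q.z n x →
      v - X.d n w' ∈ Q.z (n + 1) x := fun {x w w'} h1 h2 => by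
    have h3 := sub_mem h1 (Q.d_z x n _ h2)
    rwa [map_sub, sub_sub, add_sub_cancel] at h3
  let S := {p : Set T × X.V n // IsOpen p.1 ∧ p.2 ∈ Q.top n ∧
    ∀ x ∈ p.1, v - X.d n p.2 ∈ Q.z (n + 1) x}
  obtain ⟨m, hm⟩ := exists_maximal_of_chains_bounded
    (r := fun p q : S => p.1.1 ⊆ q.1.1 ∧ ∀ x ∈ p.1.1, q.1.2 - p.1.2 ∈ Q.z n x)
    (fun c hc => by
      obtain ⟨w, hw, hw'⟩ := Q.glue n c (fun i => i.1.1.1) (fun i => i.1.1.2) (fun i => i.1.2.1)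
        (fun i => i.1.2.2.1) (fun i j x hx => by
          by_cases e : i.1 = j.1
          · rw [e, sub_self]
            exact zero_mem _
          · rcases hc i.2 j.2 e with h1 | h1
            · exact sub_mem_comm_iff.1 (h1.2 x hx.1)
            · exact h1.2 x hx.2)
      refine ⟨⟨(⋃ i : c, i.1.1.1, w), isOpen_iUnion fun i => i.1.2.1, hw, fun x hx => ?_⟩,
        fun a ha => ⟨subset_iUnion (fun i : c => i.1.1.1) ⟨a, ha⟩, hw' ⟨a, ha⟩⟩⟩
      obtain ⟨i, hi⟩ := mem_iUnion.1 hx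
      exact key (i.1.2.2.2 x hi) (hw' i x hi))
    (fun {a b c} h1 h2 => ⟨h1.1.trans h2.1, fun x hx => by
      have h3 := add_mem (h2.2 x (h1.1 hx)) (h1.2 x hx)
      rwa [sub_add_sub_cancel] at h3⟩)
  obtain ⟨⟨U₀, w₀⟩, hU₀, hw₀, hv₀⟩ := m
  refine ⟨w₀, mem_ZT.2 ⟨hw₀, fun _ hx => hx.elim⟩,
    mem_ZT.2 ⟨sub_mem hv (Q.d_top n _ hw₀), fun x hx => hv₀ x ?_⟩⟩
  obtain ⟨w₁, hw₁, hv₁⟩ := h x hx
  replace hw₁ := (mem_ZT.1 hw₁).1
  have hN := Q.opn (n + 1) (v - X.d n w₁)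
  obtain ⟨k, hk, hdk, hwk⟩ := fl _ (hU₀.inter hN) (w₀ - w₁) (sub_mem hw₀ hw₁)
    (mem_ZT.2 ⟨Q.d_top n _ (sub_mem hw₀ hw₁), fun y hy => by
      have h3 := sub_mem hy.2 (hv₀ y hy.1)
      rwa [sub_sub_sub_cancel_left, ← map_sub] at h3⟩)
  obtain ⟨w, hw, hw'⟩ := Q.glue n Bool (fun i => cond i U₀ {y | v - X.d n w₁ ∈ Q.z (n + 1) y})
    (fun i => cond i w₀ (w₁ + k)) (fun i => by cases i; exacts [hN, hU₀])
    (fun i => by cases i; exacts [add_mem hw₁ hk, hw₀]) (fun i j y hy => by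
      cases i <;> cases j
      · simp
      · have h3 := (mem_ZT.1 hwk).2 y ⟨hy.2, hy.1⟩
        rw [sub_sub] at h3
        exact sub_mem_comm_iff.1 h3
      · have h3 := (mem_ZT.1 hwk).2 y ⟨hy.1, hy.2⟩
        rwa [sub_sub] at h3
      · simp)
  refine (hm ⟨(U₀ ∪ {y | v - X.d n w₁ ∈ Q.z (n + 1) y}, w), hU₀.union hN, hw, ?_⟩
    ⟨subset_union_left, hw' true⟩).1 (Or.inr ((mem_ZT.1 hv₁).2 x rfl))
  rintro y (hy | hy)
  · exact key (hv₀ y hy) (hw' true y hy)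
  · refine key (w := w₁ + k) ?_ (hw' false y hy)
    rw [map_add, ← sub_sub]
    exact sub_mem hy ((mem_ZT.1 hdk).2 y trivial)

theorem vlow_fl (Q : FC X T) (n : ℤ) (hlow : ∀ x, ∀ i < n, Q.Ex i {x} ∅) :
    ∀ N, IsOpen N → ∀ w ∈ Q.top n, X.d n w ∈ Q.ZT N (n + 1) →
      ∃ k ∈ Q.top n, X.d n k ∈ Q.ZT univ (n + 1) ∧ w - k ∈ Q.ZT N n := by
  let P : ℤ → Prop := fun i => i ≤ n → ∀ N, IsOpen N → ∀ w ∈ Q.top i, X.d i w ∈ Q.ZT N (i + 1) →
      ∃ k ∈ Q.top i, X.d i k ∈ Q.ZT univ (i + 1) ∧ w - k ∈ Q.ZT N i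
  have h0 : ∀ i < 0, P i := fun i hi _ N _ w hw _ =>
    ⟨0, zero_mem _, by rw [map_zero]; exact zero_mem _,
      by rw [sub_zero]; exact mem_ZT.2 ⟨hw, fun x _ => Q.neg i hi x hw⟩⟩
  have h1 : ∀ i, P i → P (i + 1) := fun i ih hi N hN w hw hd => by
    obtain ⟨u, hu, hu'⟩ := sur_of_fl Q i (ih (by omega)) hN hw fun x hx =>
      hlow x i (by omega) w (mem_ZT.2 ⟨hw, fun _ hy => hy.elim⟩)
        (mem_ZT.2 ⟨(mem_ZT.1 hd).1, fun y hy => (mem_ZT.1 hd).2 y (hy ▸ hx)⟩)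
    exact ⟨X.d i u, Q.d_top i u (mem_ZT.1 hu).1, by rw [X.dd]; exact zero_mem _, hu'⟩
  rcases lt_or_ge n 0 with hn | hn
  · exact h0 n hn le_rfl
  · exact Int.leInduction (motive := fun i _ => P i) (m := -1) (h0 _ (by omega))
      (fun i _ => h1 i) n (by omega) le_rfl

theorem low_good (Q : FC X T) {A B : Set T} (hBA : B ⊆ A) (n : ℤ)
    (hlow : ∀ x ∈ A, ∀ i < n, Q.Ex i {x} ∅) {v : X.V (n + 1)} (hv : v ∈ Q.ZT B (n + 1))
    (hloc : ∀ x ∈ A, Q.Good n v {x} ∅) : Q.Good n v A B := by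
  let Q₂ := Q.comap (Subtype.val : A → T) IsInducing.subtypeVal
  have e1 : ∀ x : A, Q₂.ZT {x} = Q.ZT {x.1} := fun x => funext fun i => Submodule.ext fun u => by
    simp only [mem_ZT, mem_singleton_iff, forall_eq]
    rfl
  have e2 : Q₂.ZT ∅ = Q.ZT ∅ := (ZT_empty Q₂).trans (ZT_empty Q).symm
  have fl := vlow_fl Q₂ n fun x i hi => by
    rw [Ex, e1, e2]
    exact hlow x x.2 i hi
  obtain ⟨hv1, hv2⟩ := mem_ZT.1 hv
  obtain ⟨w, hw, hw'⟩ := sur_of_fl Q₂ n fl isOpen_univ hv1 fun x _ => by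
    rw [Good, e1, e2]
    exact hloc x x.2
  replace hw := (mem_ZT.1 hw).1
  obtain ⟨k, -, hdk, hwk⟩ := fl _ (Q₂.opn (n + 1) v) w hw (mem_ZT.2 ⟨Q.d_top n w hw, fun y hy => by
    have h3 := sub_mem hy ((mem_ZT.1 hw').2 y trivial)
    rwa [sub_sub_cancel] at h3⟩)
  have h4 := mem_ZT.1 (add_mem hw' hdk)
  rw [sub_add, ← map_sub] at h4
  exact ⟨w - k, mem_ZT.2 ⟨(mem_ZT.1 hwk).1, fun x hx => (mem_ZT.1 hwk).2 ⟨x, hBA hx⟩ (hv2 x hx)⟩,
    mem_ZT.2 ⟨h4.1, fun x hx => h4.2 ⟨x, hx⟩ trivial⟩⟩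

theorem Deg.ex_low {Q : FC X T} {A B : Set T} {b j : ℤ} (h : Q.Deg A b) (hBA : B ⊆ A)
    (hj : j + 1 < b) : Q.Ex j A B := by
  intro v hv hd
  exact low_good Q hBA j (fun x hx i hi => h x hx i (by omega)) hv fun x hx =>
    h x hx j hj v (ZT_anti (empty_subset B) _ hv) (ZT_anti (singleton_subset_iff.2 hx) _ hd)

end FC

end Pool.Agent.PWV
end
end

-- part Pool.Agent.P.MP_65ad7c_ag.VUC
section

open Set Filter Topology Metric

noncomputable section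
namespace Pool.Agent.PWV

variable {X : Cx} {E F : Type} [NormedAddCommGroup E] [NormedSpace ℝ E] [NormedAddCommGroup F]
  [NormedSpace ℝ F]

namespace FC

/-- Unique continuation in the lowest degree. -/
theorem uc (Q : FC X E) {A B : Set E} {b j : ℤ} (hBA : B ⊆ A) (hP : Q.PC A) (hD : Q.Deg A b)
    (hj : ∀ x ∈ A, ∃ y ∈ B, Relation.ReflTransGen (fun p q => segment ℝ p q ⊆ A) x y)
    (hjb : j + 1 ≤ b) : Q.Ex j A B := by
  intro v hv hd
  refine Q.low_good hBA j (fun x hx i hi => hD x hx i (by omega)) hv fun x hx => ?_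
  obtain ⟨y, hy, h⟩ := hj x hx
  clear hx
  induction h using Relation.ReflTransGen.head_induction_on with
  | refl =>
    refine ⟨0, zero_mem _, ?_⟩
    rw [map_zero, sub_zero]
    exact ZT_anti (singleton_subset_iff.2 hy) _ hv
  | @head p q hpq _ ih =>
    obtain ⟨w, hw, hw'⟩ := ih
    rw [segment_symm] at hpq
    obtain ⟨u, hu, hu'⟩ := hP.segment hpq j (v - X.d j w) hw' (by
      rw [map_sub, X.dd, sub_zero]
      exact ZT_anti hpq _ hd)
    refine ⟨w + u, add_mem hw (ZT_anti (empty_subset _) _ hu), ?_⟩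
    rw [map_add, ← sub_sub]
    exact ZT_anti (singleton_subset_iff.2 (right_mem_segment ℝ q p)) _ hu'

end FC

/-- From a point of the plane there is a segment of prescribed length that misses a finite set. -/
theorem exists_ray {P : Set ℂ} (hP : P.Finite) {τ : ℂ} (hτ : τ ∉ P) {s : ℝ} (hs : ‖τ‖ ≤ s) :
    ∃ τ' : ℂ, ‖τ'‖ = s ∧ Disjoint (segment ℝ τ τ') P := by
  obtain ⟨t, ht⟩ := (hP.image fun p => (p - τ).im / (p - τ).re).infinite_compl.nonempty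
  obtain ⟨u, hu⟩ : ∃ u : ℂ, u = ⟨1, t⟩ := ⟨_, rfl⟩
  have hu1 : 1 ≤ ‖u‖ := by
    have := Complex.re_le_norm u
    rwa [show u.re = 1 by rw [hu]] at this
  have h0 : 0 ≤ s + ‖τ‖ := add_nonneg ((norm_nonneg τ).trans hs) (norm_nonneg τ)
  have hc : ContinuousOn (fun l : ℝ => ‖τ + l • u‖) (Icc 0 (s + ‖τ‖)) := by fun_prop
  have h1 : s ≤ ‖τ + (s + ‖τ‖) • u‖ := by
    have a := norm_sub_le (τ + (s + ‖τ‖) • u) τ
    rw [add_sub_cancel_left, norm_smul, Real.norm_of_nonneg h0] at a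
    have b := le_mul_of_one_le_right h0 hu1
    linarith
  obtain ⟨l, -, hl⟩ := intermediate_value_Icc h0 hc (show s ∈ Icc _ _ from ⟨by simpa using hs, h1⟩)
  refine ⟨τ + l • u, hl, disjoint_left.2 fun p hp hpP => ?_⟩
  rw [segment_eq_image'] at hp
  obtain ⟨θ, -, rfl⟩ := hp
  simp only [add_sub_cancel_left, smul_smul] at hpP
  have hne : θ * l ≠ 0 := fun h => hτ (by rwa [h, zero_smul, add_zero] at hpP)
  refine ht ⟨_, hpP, ?_⟩
  simp only [add_sub_cancel_left, Complex.smul_re, Complex.smul_im, hu, smul_eq_mul]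
  rw [mul_one, mul_div_cancel_left₀ _ hne]

end Pool.Agent.PWV
end
end

-- part Pool.Agent.P.MP_65ad7c_ag.VCod1
section

open Set Filter Topology Metric

noncomputable section
namespace Pool.Agent.PWV

variable {X : Cx} {E F : Type} [NormedAddCommGroup E] [NormedSpace ℝ E] [FiniteDimensional ℝ E]
  [NormedAddCommGroup F] [NormedSpace ℝ F] [FiniteDimensional ℝ F]

namespace FC

theorem cod1 (Q : FC X (E × ℂ)) {b : ℤ} (hP : Q.PC univ) (hD : Q.Deg univ b) :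
    (Q.gam (univ ×ˢ {0})).PC (univ ×ˢ {0}) ∧ (Q.gam (univ ×ˢ {0})).Deg (univ ×ˢ {0}) (b + 1) := by
  have := FiniteDimensional.proper_real E
  have hC : IsClosed (univ ×ˢ {0} : Set (E × ℂ)) := isClosed_univ.prod isClosed_singleton
  refine ⟨LC.pc fun y hy => ⟨closedBall y.1 1 ×ˢ {0}, prod_mono (subset_univ _) subset_rfl, ?_,
    fun x hx n => ?_⟩, fun x hx j hj => ?_⟩
  · refine mem_of_superset (inter_mem (nhdsWithin_le_nhds (continuous_fst.continuousAt.preimage_mem_nhds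
      (closedBall_mem_nhds y.1 one_pos))) self_mem_nhdsWithin) fun z hz => ⟨hz.1, hz.2.2⟩
  · obtain ⟨m, rfl⟩ : ∃ m, n = m + 1 := ⟨n - 1, by ring⟩
    obtain ⟨x, t⟩ := x
    obtain rfl : t = 0 := hx.2
    refine tri_left hC (singleton_subset_iff.2 hx) (Q.star
      ((isCompact_closedBall _ _).prod isCompact_singleton) hx
      (((convex_closedBall _ _).prod (convex_singleton _)).starConvex hx)
      (hP.mono (subset_univ _)) _) ?_
    exact Q.prodloc isOpen_univ (Ω := {0}ᶜ) isOpen_compl_singleton hC.isOpen_compl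
      (fun _ _ _ => by simp) (hP.mono (subset_univ _)) (isCompact_closedBall _ _)
      (convex_closedBall _ _) (subset_univ _) hx.1 0 m
  · rw [Q.gam_ex hC, ex_iff_good]
    intro v hv hd
    obtain ⟨e, he, hN⟩ := Metric.isOpen_iff.1 (Q.opn _ (X.d (j + 1) v)) x
      ((mem_ZT.1 hd).2 x (Or.inl rfl))
    have h0 : x.2 = 0 := hx.2
    have hy : (x.1, ((e / 2 : ℝ) : ℂ)) ∈ ball x e ∩ (univ ×ˢ {0} : Set (E × ℂ))ᶜ := by
      refine ⟨?_, fun h => ?_⟩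
      · rw [mem_ball, Prod.dist_eq, dist_self, h0, dist_zero_right, Complex.norm_real,
          Real.norm_of_nonneg (by positivity)]
        exact max_lt he (by linarith)
      · have h1 : ((e / 2 : ℝ) : ℂ) = 0 := h.2
        rw [Complex.ofReal_eq_zero] at h1
        linarith
    have h1 : Q.Ex j (ball x e) (ball x e ∩ (univ ×ˢ {0} : Set (E × ℂ))ᶜ) :=
      Q.uc inter_subset_left (hP.mono (subset_univ _)) (hD.mono (subset_univ _) le_rfl)
        (fun z hz => ⟨_, hy, .single ((convex_ball x e).segment_subset hz hy.1)⟩) (by omega)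
    have h2 := (Q.ex_exc (sep_of_isOpen isOpen_ball hC.isOpen_compl)).2 h1
    rw [empty_union] at hv ⊢
    refine Good.mono (ex_iff_good.1 h2 v hv (mem_ZT.2 ⟨(mem_ZT.1 hd).1, ?_⟩))
      (union_subset_union_left _ (singleton_subset_iff.2 (mem_ball_self he))) subset_rfl
    rintro z (hz | hz)
    · exact hN hz
    · exact (mem_ZT.1 hd).2 z (Or.inr hz)

end FC

end Pool.Agent.PWV
end
end

-- part Pool.Agent.P.MP_65ad7c_ag.VCod
section

open Set Filter Topology Metric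

noncomputable section
namespace Pool.Agent.PWV

variable {X : Cx} {T : Type} [MetricSpace T]

/-- Splitting off the first coordinate. -/
def vcod_h (E : Type) [TopologicalSpace E] (m : ℕ) :
    (E × ℂ) × (Fin m → ℂ) ≃ₜ E × (Fin (m + 1) → ℂ) where
  toFun p := (p.1.1, Fin.cons p.1.2 p.2)
  invFun q := ((q.1, q.2 0), fun i => q.2 i.succ)
  left_inv p := by simp
  right_inv q := by
    refine Prod.ext rfl ?_
    funext i
    refine Fin.cases ?_ (fun j => ?_) i <;> simp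
  continuous_toFun := by
    refine (continuous_fst.comp continuous_fst).prodMk (continuous_pi fun i => ?_)
    refine Fin.cases ?_ (fun j => ?_) i
    · simp only [Fin.cons_zero]
      exact continuous_snd.comp continuous_fst
    · simp only [Fin.cons_succ]
      exact (continuous_apply j).comp continuous_snd
  continuous_invFun := by
    refine (continuous_fst.prodMk ((continuous_apply 0).comp continuous_snd)).prodMk
      (continuous_pi fun i => (continuous_apply i.succ).comp continuous_snd)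

theorem vcod_h_zero {E : Type} [TopologicalSpace E] {m : ℕ} (p : (E × ℂ) × (Fin m → ℂ)) :
    (vcod_h E m p).2 = 0 ↔ p.1.2 = 0 ∧ p.2 = 0 := by
  change (Fin.cons p.1.2 p.2 : Fin (m + 1) → ℂ) = 0 ↔ _
  constructor
  · intro h
    refine ⟨by simpa using congrFun h 0, funext fun i => ?_⟩
    simpa using congrFun h i.succ
  · rintro ⟨h1, h2⟩
    rw [h1, h2]
    funext i
    refine Fin.cases ?_ (fun j => ?_) i <;> simp

namespace FC

theorem cod (m : ℕ) : ∀ (E : Type) [NormedAddCommGroup E] [NormedSpace ℝ E] [FiniteDimensional ℝ E]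
    (Q : FC X (E × (Fin m → ℂ))) (b : ℤ), Q.PC univ → Q.Deg univ b →
    (Q.gam (univ ×ˢ {0})).PC (univ ×ˢ {0}) ∧ (Q.gam (univ ×ˢ {0})).Deg (univ ×ˢ {0}) (b + m) := by
  induction m with
  | zero =>
    intro E _ _ _ Q b hP hD
    have e : (univ ×ˢ {0} : Set (E × (Fin 0 → ℂ))) = univ :=
      eq_univ_of_forall fun p => ⟨mem_univ _, Subsingleton.elim _ _⟩
    rw [e, gam_univ]
    exact ⟨hP, by simpa using hD⟩
  | succ m ih =>
    intro E _ _ _ Q b hP hD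
    have hh : IsEmbedding (vcod_h E m) := (vcod_h E m).isEmbedding
    have t1 := tr_comap Q hh.isInducing
    have P1 : (Q.comap _ hh.isInducing).PC univ := (t1.pc hh univ).2 (hP.mono (subset_univ _))
    have D1 : (Q.comap _ hh.isInducing).Deg univ b :=
      (t1.deg univ b).2 (hD.mono (subset_univ _) le_rfl)
    obtain ⟨P2, D2⟩ := ih (E × ℂ) (Q.comap _ hh.isInducing) b P1 D1
    have hY : IsClosed (univ ×ˢ {0} : Set ((E × ℂ) × (Fin m → ℂ))) :=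
      isClosed_univ.prod isClosed_singleton
    have hι : IsEmbedding (fun p : E × ℂ => (p, (0 : Fin m → ℂ))) := isEmbedding_prodMkLeft _
    have t2 := tr_comap ((Q.comap _ hh.isInducing).gam (univ ×ˢ {0})) hι.isInducing
    have sub : (fun p : E × ℂ => (p, (0 : Fin m → ℂ))) '' univ ⊆ univ ×ˢ {0} := by
      rintro _ ⟨p, -, rfl⟩
      exact ⟨mem_univ _, rfl⟩
    have P3 := (t2.pc hι univ).2 (P2.mono sub)
    have D3 := (t2.deg univ (b + m)).2 (D2.mono sub le_rfl)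
    obtain ⟨P4, D4⟩ := cod1 _ P3 D3
    have hC0 : IsClosed {p : (E × ℂ) × (Fin m → ℂ) | p.1.2 = 0} :=
      isClosed_eq (continuous_snd.comp continuous_fst) continuous_const
    have t3 := tr_gam_comap (supp_gam (Q.comap _ hh.isInducing) hY) hι.isInducing isOpen_univ
      (by
        ext p
        constructor
        · rintro ⟨q, rfl⟩
          exact ⟨⟨mem_univ _, rfl⟩, mem_univ _⟩
        · rintro ⟨⟨-, h⟩, -⟩
          exact ⟨p.1, Prod.ext rfl (mem_singleton_iff.1 h).symm⟩) hC0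
    have e3 : (fun p : E × ℂ => (p, (0 : Fin m → ℂ))) ⁻¹' {p | p.1.2 = 0} = univ ×ˢ {0} := by
      ext p
      simp
    have hC : IsClosed (univ ×ˢ {0} : Set (E × (Fin (m + 1) → ℂ))) :=
      isClosed_univ.prod isClosed_singleton
    have e4 : (univ ×ˢ {0} : Set ((E × ℂ) × (Fin m → ℂ))) ∩ {p | p.1.2 = 0} =
        vcod_h E m ⁻¹' (univ ×ˢ {0}) := by
      ext p
      simp only [mem_inter_iff, mem_prod, mem_univ, mem_singleton_iff, true_and, mem_preimage,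
        vcod_h_zero]
      exact and_comm
    rw [e3, gam_gam _ hY hC0, e4] at t3
    have t4 := tr_gam_comap (supp_univ Q) hh.isInducing isOpen_univ
      (by rw [(vcod_h E m).surjective.range_eq, univ_inter]) hC
    have sub2 : (univ ×ˢ {0} : Set (E × (Fin (m + 1) → ℂ))) ⊆
        vcod_h E m '' ((fun p : E × ℂ => (p, (0 : Fin m → ℂ))) '' (univ ×ˢ {0})) := by
      rintro q ⟨-, hq⟩
      refine ⟨((q.1, 0), 0), ⟨(q.1, 0), ⟨mem_univ _, rfl⟩, rfl⟩, Prod.ext rfl ?_⟩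
      rw [mem_singleton_iff.1 hq]
      exact (vcod_h_zero _).2 ⟨rfl, rfl⟩
    refine ⟨((t4.pc hh _).1 ((t3.pc hι _).1 P4)).mono sub2,
      ((t4.deg _ _).1 ((t3.deg _ _).1 D4)).mono sub2 ?_⟩
    push_cast
    omega

theorem vcod_loc {E : Type} [NormedAddCommGroup E] [NormedSpace ℝ E] [FiniteDimensional ℝ E] {m : ℕ}
    {Q : FC X T} {Y O C S : Set T} (h : Q.Supp Y) {χ : E × (Fin m → ℂ) → T} (hχ : IsEmbedding χ)
    (hO : IsOpen O) (hr : range χ = Y ∩ O) (hC : IsClosed C) (hχC : ∀ u, χ u ∈ C ↔ u.2 = 0)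
    (hS : IsOpen (χ ⁻¹' S)) {b : ℤ} (hP : Q.PC S) (hD : Q.Deg S b) {y : T}
    (hy : y ∈ C ∩ range χ ∩ S) :
    ∃ W ∈ 𝓝[C ∩ range χ ∩ S] y, (Q.gam C).PC W ∧ (Q.gam C).Deg W (b + m) := by
  obtain ⟨⟨hyC, u, rfl⟩, hyS⟩ := hy
  obtain ⟨u0, u1⟩ := u
  obtain rfl : u1 = 0 := (hχC _).1 hyC
  obtain ⟨χ0, h0, h00, hN, hz⟩ := exists_chart u0 (hS.mem_nhds hyS)
  have h2 : IsEmbedding (χ ∘ χ0) := hχ.comp h0.isEmbedding
  obtain ⟨O2, hO2, e2⟩ := hχ.isInducing.isOpen_iff.1 h0.isOpen_range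
  have hr2 : range (χ ∘ χ0) = Y ∩ (O ∩ O2) := by
    rw [range_comp, ← e2, image_preimage_eq_range_inter, hr, inter_assoc]
  have sub : (χ ∘ χ0) '' univ ⊆ S := by
    rintro _ ⟨w, -, rfl⟩
    exact hN ⟨w, rfl⟩
  have t1 := tr_comap Q h2.isInducing
  obtain ⟨P2, D2⟩ := cod m E (Q.comap _ h2.isInducing) b ((t1.pc h2 univ).2 (hP.mono sub))
    ((t1.deg univ b).2 (hD.mono sub le_rfl))
  have t2 := tr_gam_comap h h2.isInducing (hO.inter hO2) hr2 hC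
  have e3 : (χ ∘ χ0) ⁻¹' C = univ ×ˢ {0} := by
    ext w
    simp only [mem_preimage, Function.comp_apply, hχC, hz, mem_prod, mem_univ, true_and,
      mem_singleton_iff]
  rw [e3] at t2
  refine ⟨_, ?_, (t2.pc h2 _).1 P2, (t2.deg _ _).1 D2⟩
  refine mem_nhdsWithin.2 ⟨O2, hO2, ?_, ?_⟩
  · have : (u0, (0 : Fin m → ℂ)) ∈ χ ⁻¹' O2 := by
      rw [e2]
      exact ⟨0, h00⟩
    exact this
  · rintro _ ⟨hz2, ⟨hzC, v, rfl⟩, -⟩
    have : v ∈ range χ0 := by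
      rw [← e2]
      exact hz2
    obtain ⟨w, rfl⟩ := this
    exact ⟨w, ⟨mem_univ _, (hz w).1 ((hχC _).1 hzC)⟩, rfl⟩

/-- Local cohomology along a flat subset of a piece of the support. -/
theorem cod_gen {E : Type} [NormedAddCommGroup E] [NormedSpace ℝ E] [FiniteDimensional ℝ E] {m : ℕ}
    {Q : FC X T} {Y O C S : Set T} (h : Q.Supp Y) {χ : E × (Fin m → ℂ) → T} (hχ : IsEmbedding χ)
    (hO : IsOpen O) (hr : range χ = Y ∩ O) (hC : IsClosed C) (hχC : ∀ u, χ u ∈ C ↔ u.2 = 0)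
    (hS : IsOpen (χ ⁻¹' S)) {b : ℤ} (hP : Q.PC S) (hD : Q.Deg S b) :
    (Q.gam C).PC (C ∩ range χ ∩ S) ∧ (Q.gam C).Deg (C ∩ range χ ∩ S) (b + m) := by
  refine ⟨pc_local fun y hy => ?_, fun y hy => ?_⟩
  · obtain ⟨W, hW, h1, -⟩ := vcod_loc h hχ hO hr hC hχC hS hP hD hy
    exact ⟨W, hW, h1⟩
  · obtain ⟨W, hW, -, h2⟩ := vcod_loc h hχ hO hr hC hχC hS hP hD hy
    exact h2 y (mem_of_mem_nhdsWithin hy hW)

end FC

end Pool.Agent.PWV
end
end

-- part Pool.Agent.P.MP_65ad7c_ag.VStratW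
section

open Set Filter Topology Metric

noncomputable section
namespace Pool.Agent.PWV

variable {X : Cx} {N : ℕ}

/-- One polynomial that works for a finite family of coordinate systems. -/
theorem vsw_pair {k : ℕ} {𝒢 : Set (Fin k → MvPolynomial (Fin N) ℂ)} (h𝒢 : 𝒢.Finite)
    {p : Ideal (MvPolynomial (Fin N) ℂ)} (hp : p.IsPrime) :
    ∃ δ ∉ p, ∀ G ∈ 𝒢, ∃ e, ¬ Dim (ZI p) e ∧ ∀ x ∈ ZI p, MvPolynomial.eval x δ ≠ 0 →
      ∀ Y V : Set (Fin N → ℂ), ZI p ⊆ Y → Chart Y G x → (∀ᶠ y in 𝓝 x, y ∈ V ↔ y ∈ ZI p) →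
      ∀ U ∈ 𝓝 x, ∃ m, e + m = k ∧ ∃ (χ : (Fin e → ℂ) × (Fin m → ℂ) → Fin N → ℂ)
        (O : Set (Fin N → ℂ)), IsEmbedding χ ∧ IsOpen O ∧ x ∈ O ∧ O ⊆ U ∧ range χ = Y ∩ O ∧
        ∀ u, χ u ∈ V ↔ u.2 = 0 := by
  choose δ hδ e he H using fun G : Fin k → MvPolynomial (Fin N) ℂ => pair G hp
  refine ⟨∏ G ∈ h𝒢.toFinset, δ G, fun h => ?_, fun G hG => ⟨e G, he G, fun x hx h0 => ?_⟩⟩
  · obtain ⟨G, -, hG⟩ := (Ideal.IsPrime.prod_mem_iff (hp := hp)).1 h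
    exact hδ G hG
  · refine H G x hx fun h1 => h0 ?_
    rw [map_prod]
    exact Finset.prod_eq_zero (h𝒢.mem_toFinset.2 hG) h1

namespace FC

/-- Transfer along equal germs of supports. -/
theorem vsw_congr (Q : FC X (Fin N → ℂ)) {U C D W : Set (Fin N → ℂ)} (hU : IsOpen U)
    (hC : IsClosed C) (hD : IsClosed D) (h : C ∩ U = D ∩ U) (hW : W ⊆ U) {b : ℤ}
    (h1 : (Q.gam D).PC W) (h2 : (Q.gam D).Deg W b) : (Q.gam C).PC W ∧ (Q.gam C).Deg W b := by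
  refine ⟨fun γ g1 g2 g3 n => ?_, fun x hx j hj => ?_⟩
  · refine (Q.ex_gam_congr hU hC hD h ((mapsTo_iff_image_subset.1 g3).trans hW) ?_ n).2
      (h1 γ g1 g2 g3 n)
    exact singleton_subset_iff.2 (mem_image_of_mem γ ⟨le_rfl, zero_le_one⟩)
  · exact (Q.ex_gam_congr hU hC hD h (singleton_subset_iff.2 (hW hx)) (empty_subset _) j).2
      (h2 x hx j hj)

theorem vsw_key (Q : FC X (Fin N → ℂ)) (Y : ℕ → Set (Fin N → ℂ)) (hY : ∀ k, ZC (Y k))
    (hd : ∀ k, Dim (Y k) k)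
    (hg : ∀ k, ∃ 𝒢 : Set (Fin k → MvPolynomial (Fin N) ℂ), 𝒢.Finite ∧
      ∀ x ∈ Y (k + 1) \ Y k, ∃ G ∈ 𝒢, Chart (Y (k + 1)) G x) {D : ℕ}
    (hs : Q.Supp (Y D)) {a : ℤ} (hP : ∀ k, (Q.gam (Y (k + 1))).PC (Y (k + 1) \ Y k))
    (hD : ∀ k : ℕ, (Q.gam (Y (k + 1))).Deg (Y (k + 1) \ Y k) (a - k))
    (p : Ideal (MvPolynomial (Fin N) ℂ)) (hp : p.IsPrime) :
    ∃ δ ∉ p, ∀ x ∈ ZI p, MvPolynomial.eval x δ ≠ 0 → ∀ V : Set (Fin N → ℂ), IsClosed V →
      ZI p ⊆ V → (∀ᶠ y in 𝓝 x, y ∈ V → y ∈ ZI p) → ∀ e : ℕ, Dim (ZI p) (e + 1) →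
      ∃ W ∈ 𝓝[V] x, (Q.gam V).PC W ∧ (Q.gam V).Deg W (a - e) := by
  obtain ⟨δ, hδ, h | ⟨k, hk, h⟩⟩ := exists_stratum Y hY (dim_zero.1 (hd 0)) D hp
  · refine ⟨δ, hδ, fun x _ hx V _ _ _ e _ => ⟨(Y D)ᶜ, mem_nhdsWithin_of_mem_nhds
      ((hY D).isClosed.isOpen_compl.mem_nhds (h x hx)), (hs.gam V).pc_off,
      ((hs.gam V).deg_off _).1⟩⟩
  obtain ⟨𝒢, h𝒢, hG⟩ := hg k
  obtain ⟨δ', hδ', H⟩ := vsw_pair h𝒢 hp
  refine ⟨δ * δ', fun h1 => (hp.mem_or_mem h1).elim hδ hδ', fun x hx h0 V hV hpV hev e he => ?_⟩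
  rw [map_mul] at h0
  have hxk : x ∉ Y k := h x (left_ne_zero_of_mul h0)
  obtain ⟨G, hG𝒢, hch⟩ := hG x ⟨hk hx, hxk⟩
  obtain ⟨e', he', H'⟩ := H G hG𝒢
  have hU : (Y k)ᶜ ∩ {y | y ∈ V → y ∈ ZI p} ∈ 𝓝 x :=
    inter_mem ((hY k).isClosed.isOpen_compl.mem_nhds hxk) hev
  obtain ⟨m, hm, χ, O, hχ, hO, hxO, hOU, hr, hχV⟩ := H' x hx (right_ne_zero_of_mul h0)
    (Y (k + 1)) V hk hch (hev.mono fun y hy => ⟨hy, fun h2 => hpV h2⟩) _ hU
  have hY1 := (hY (k + 1)).isClosed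
  have hrS : range χ ⊆ Y (k + 1) \ Y k := by
    rw [hr]
    exact fun y hy => ⟨hy.1, (hOU hy.2).1⟩
  have hS : IsOpen (χ ⁻¹' (Y (k + 1) \ Y k)) := by
    rw [preimage_eq_univ_iff.2 hrS]
    exact isOpen_univ
  obtain ⟨c1, c2⟩ := cod_gen (Q.supp_gam hY1) hχ hO hr hV hχV hS (hP k) (hD k)
  rw [Q.gam_gam hY1 hV] at c1 c2
  have hVO : V ∩ O ⊆ Y (k + 1) := fun y hy => hk ((hOU hy.2).2 hy.1)
  have hW : V ∩ O ⊆ V ∩ range χ ∩ (Y (k + 1) \ Y k) := fun y hy => by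
    have h3 : y ∈ range χ := by
      rw [hr]
      exact ⟨hVO hy, hy.2⟩
    exact ⟨⟨hy.1, h3⟩, hrS h3⟩
  have hee : e' ≤ e := by
    by_contra h4
    exact he' (he.mono_nat (by omega))
  refine ⟨V ∩ O, inter_mem_nhdsWithin V (hO.mem_nhds hxO),
    Q.vsw_congr hO hV (hY1.inter hV) ?_ inter_subset_right (c1.mono hW) (c2.mono hW ?_)⟩
  · ext y
    exact ⟨fun hy => ⟨⟨hVO hy, hy.1⟩, hy.2⟩, fun hy => ⟨hy.1.2, hy.2⟩⟩
  · omega

theorem stratW (Q : FC X (Fin N → ℂ)) (Y : ℕ → Set (Fin N → ℂ)) (hY : ∀ k, ZC (Y k))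
    (hd : ∀ k, Dim (Y k) k)
    (hg : ∀ k, ∃ 𝒢 : Set (Fin k → MvPolynomial (Fin N) ℂ), 𝒢.Finite ∧
      ∀ x ∈ Y (k + 1) \ Y k, ∃ G ∈ 𝒢, Chart (Y (k + 1)) G x) {D : ℕ}
    (hs : Q.Supp (Y D)) {a : ℤ} (hP : ∀ k, (Q.gam (Y (k + 1))).PC (Y (k + 1) \ Y k))
    (hD : ∀ k : ℕ, (Q.gam (Y (k + 1))).Deg (Y (k + 1) \ Y k) (a - k)) : GW Q a := by
  intro V e hV hdV
  choose! δ hδ H using Q.vsw_key Y hY hd hg hs hP hD
  obtain ⟨V', hV', hdV', h⟩ := comp hV hdV δ hδ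
  have key : ∀ x ∈ V \ V', ∃ W ∈ 𝓝[V] x, (Q.gam V).PC W ∧ (Q.gam V).Deg W (a - e) := by
    intro x hx
    obtain ⟨p, hp, hpV, -, hxp, h0, hev⟩ := h x hx
    exact H p hp x hxp h0 V hV.isClosed hpV hev e (hdV.mono hpV)
  refine ⟨V', hV', hdV', pc_local fun x hx => ?_, fun x hx => ?_⟩
  · obtain ⟨W, hW, h1, -⟩ := key x hx
    exact ⟨W, nhdsWithin_mono x sdiff_subset hW, h1⟩
  · obtain ⟨W, hW, -, h2⟩ := key x hx
    exact h2 x (mem_of_mem_nhdsWithin hx.1 hW)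

end FC

end Pool.Agent.PWV
end
end

-- part Pool.Agent.P.MP_65ad7c_ag.VIC
section

/-! The intersection complex satisfies the hypotheses of the vanishing theorems. -/

open Set Filter Topology TopologicalSpace
open Pool.Agent.PWD

noncomputable section
namespace Pool.Agent.PWV

variable {R : Type} [CommRing R] [Algebra ℂ R] {Y : Set (R → ℂ)} {N d : ℕ} {f : Fin N → R}
  {U : ℕ → Opens Y} {I : PWD.Cx Y} {one : Sec I 0 (U 1)}

/-- The intersection complex on affine space. -/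
abbrev icQ (f : Fin N → R) (hI : IsIC U I one) : FC (cxI I) (Fin N → ℂ) :=
  (fcI hI.inj).map (emb f)

/-- The closed strata in affine space. -/
abbrev icF (f : Fin N → R) (U : ℕ → Opens Y) (c : ℕ) : Set (Fin N → ℂ) := emb f '' (U c : Set Y)ᶜ

variable (hY : IsVar Y) (hf : Algebra.adjoin ℂ (range f) = ⊤) (hU : IsStrat d U)
  (hI : IsIC U I one)
include hY hf

theorem ic_emb : IsClosedEmbedding (emb (Y := Y) f) := hY.closedEmb hf

theorem ic_diff (c : ℕ) :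
    icF f U c \ icF f U (c + 1) = emb f '' ((U (c + 1) : Set Y) \ U c) := by
  rw [← image_sdiff (ic_emb hY hf).injective]
  congr 1
  ext y
  simp [and_comm]

theorem ic_gam_univ : (icQ f hI).gam (emb f '' (univ : Set Y)) = icQ f hI := by
  rw [image_univ]
  exact (q_supp hI.inj (ic_emb hY hf)).gam_eq (ic_emb hY hf).isClosed_range

theorem ic_pc (c : ℕ) : (icQ f hI).PC (icF f U c \ icF f U (c + 1)) := by
  rw [ic_diff hY hf, ← ic_gam_univ hY hf hI]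
  exact FC.pc_of_lcn (lcn_of_lc hI.inj (ic_emb hY hf) isClosed_univ fun n => (hI.lc c n).1)

theorem ic_degLe (c : ℕ) {b : ℤ} (h0 : 0 ≤ b) (hb : (c : ℤ) ≤ b + 1) :
    (icQ f hI).DegLe (icF f U c \ icF f U (c + 1)) b := by
  rw [ic_diff hY hf, ← ic_gam_univ hY hf hI]
  rintro _ ⟨y, hy, rfl⟩ j hj
  exact ex_pt hI.inj (ic_emb hY hf) isClosed_univ fun _ W s hs hW =>
    hI.supp c _ W s (by omega) (by omega) hs y hW hy.1

theorem ic_gam_pc (c : ℕ) : ((icQ f hI).gam (icF f U c)).PC (icF f U c \ icF f U (c + 1)) := by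
  rw [ic_diff hY hf]
  exact FC.pc_of_lcn (lcn_of_lc hI.inj (ic_emb hY hf) (U c).2.isClosed_compl
    fun n => (hI.lc c n).2)

theorem ic_gam_deg {c : ℕ} (hc : 0 < c) :
    ((icQ f hI).gam (icF f U c)).Deg (icF f U c \ icF f U (c + 1)) (c + 1) := by
  rw [ic_diff hY hf]
  rintro _ ⟨y, hy, rfl⟩ j hj
  exact ex_pt hI.inj (ic_emb hY hf) (U c).2.isClosed_compl fun _ W s hs hW =>
    hI.cosupp c _ W s hc (by omega) hs y hW hy.1

include hU

theorem ic_zc (c : ℕ) : ZC (icF f U c) := zc_image hY hf (hU.alg c)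

theorem ic_gw : GW ((icQ f hI).gam (icF f U 1)) (d + 1) := by
  have hz := ic_zc hY hf hU
  have key : ∀ k : ℕ, (∃ c, 0 < c ∧ d = k + c) ∨ d ≤ k := fun k => by
    rcases Nat.lt_or_ge k d with h | h
    exacts [Or.inl ⟨d - k, by omega, by omega⟩, Or.inr h]
  have hsub : ∀ c, 0 < c → icF f U 1 ∩ icF f U c = icF f U c := fun c hc =>
    inter_eq_right.2 (image_mono (compl_subset_compl.2 (hU.mono hc)))
  have hoff : ∀ k, d ≤ k → icF f U (d + 1 - (k + 1)) \ icF f U (d + 1 - k) ⊆ (icF f U 1)ᶜ :=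
    fun k hk x hx h1 => hx.2 (image_mono (compl_subset_compl.2 (hU.mono (by omega))) h1)
  have hs := FC.supp_gam (icQ f hI) (hz 1).isClosed
  refine FC.stratW _ (fun k => icF f U (d + 1 - k)) (fun k => hz _)
    (fun k => (dim_image hY (hU.dim _)).mono_nat (by omega)) (fun k => ?_) (D := d)
    (by simpa using hs) (fun k => ?_) (fun k => ?_)
  · rcases Nat.lt_or_ge d k with h | h
    · refine ⟨∅, finite_empty, fun x hx => (hx.2 ?_).elim⟩
      have := hx.1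
      rwa [show d + 1 - (k + 1) = d + 1 - k by omega] at this
    · obtain ⟨𝒢, h1, h2⟩ := strat_chart hY hf hU (c := d - k) (k := k) (by omega)
      refine ⟨𝒢, h1, ?_⟩
      rw [show d + 1 - (k + 1) = d - k by omega, show d + 1 - k = d - k + 1 by omega,
        ic_diff hY hf]
      rintro _ ⟨y, hy, rfl⟩
      exact h2 y hy
  · rcases key k with ⟨c, hc, rfl⟩ | h
    · rw [show k + c + 1 - (k + 1) = c by omega, show k + c + 1 - k = c + 1 by omega,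
        FC.gam_gam _ (hz 1).isClosed (hz c).isClosed, hsub c hc]
      exact ic_gam_pc hY hf hI c
    · exact (hs.gam _).pc_off.mono (hoff k h)
  · rcases key k with ⟨c, hc, rfl⟩ | h
    · rw [show k + c + 1 - (k + 1) = c by omega, show k + c + 1 - k = c + 1 by omega,
        FC.gam_gam _ (hz 1).isClosed (hz c).isClosed, hsub c hc]
      exact (ic_gam_deg hY hf hI hc).mono subset_rfl (by push_cast; omega)
    · exact ((hs.gam _).deg_off _).1.mono (hoff k h) le_rfl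

theorem ic_av {H : Set Y} (hH : ∃ T : Set R, ∀ y, y ∈ H ↔ ∀ g ∈ T, y.1 g = 0) {m : ℕ}
    (hd : ∀ e, DimLT ((U e : Set Y)ᶜ ∩ H) (m - e)) {j : ℤ} (hj : (m : ℤ) ≤ j + 1) :
    (icQ f hI).Ex j (emb f '' H) ∅ := by
  refine FC.av_strat _ (icF f U) (ic_zc hY hf hU) (ic_pc hY hf hI) (zc_image hY hf hH)
    (image_mono fun y _ => by simp [hU.zero]) (m := m) (a := m - 1) (fun c => ?_) (fun c => ?_)
    (by omega)
  · rw [← image_inter (ic_emb hY hf).injective]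
    exact dim_image hY (hd c)
  · exact (ic_degLe hY hf hI c (by omega) (by omega)).mono inter_subset_left le_rfl

theorem ic_av' {H : Set Y} (hH : ∃ T : Set R, ∀ y, y ∈ H ↔ ∀ g ∈ T, y.1 g = 0) {m : ℕ}
    (hd : ∀ e, DimLT ((U e : Set Y)ᶜ ∩ H) (m - e)) {j : ℤ} (hj : (m : ℤ) ≤ j + 2) :
    (icQ f hI).Ex j (emb f '' (H \ U 1)) ∅ := by
  have he : emb f '' (H \ U 1) = emb f '' H ∩ icF f U 1 :=
    image_inter (ic_emb hY hf).injective
  rw [he]
  refine FC.av_strat _ (icF f U) (ic_zc hY hf hU) (ic_pc hY hf hI)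
    ((zc_image hY hf hH).inter (ic_zc hY hf hU 1))
    (inter_subset_left.trans (image_mono fun y _ => by simp [hU.zero])) (m := m) (a := m - 2)
    (fun c => ?_) (fun c => ?_) (by omega)
  · refine (dim_image (f := f) hY (hd c)).mono ?_
    rw [image_inter (ic_emb hY hf).injective]
    exact inter_subset_inter_right _ inter_subset_left
  · cases c with
    | zero => exact fun x hx => (hx.1.2 hx.2.2).elim
    | succ c =>
      exact (ic_degLe hY hf hI (c + 1) (by omega) (by omega)).mono inter_subset_left le_rfl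

end Pool.Agent.PWV
end
end

-- part Pool.Agent.P.MP_65ad7c_ag.VGWT
section

open Set Filter Topology Metric

noncomputable section
namespace Pool.Agent.PWV

open MvPolynomial

variable {X : Cx} {N M : ℕ}

theorem vgwt_emb (f : Fin M → MvPolynomial (Fin N) ℂ) (h : MvPolynomial (Fin N) ℂ)
    (g : Fin N → MvPolynomial (Fin M) ℂ) (t : MvPolynomial (Fin M) ℂ)
    (h1 : ∀ x, eval x h ≠ 0 → eval (ratm f h x) t ≠ 0)
    (h2 : ∀ x, eval x h ≠ 0 → ratm g t (ratm f h x) = x) : IsEmbedding (ratC f h) := by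
  have h3 : IsEmbedding fun x : {x : Fin N → ℂ // eval x h ≠ 0} =>
      (⟨ratC f h x, h1 x.1 x.2⟩ : {y : Fin M → ℂ // eval y t ≠ 0}) := by
    refine IsEmbedding.of_comp ((ratC f h).continuous.subtype_mk _) (ratC g t).continuous ?_
    convert IsEmbedding.subtypeVal (p := fun x : Fin N → ℂ => eval x h ≠ 0) using 1
    exact funext fun x => h2 x.1 x.2
  exact IsEmbedding.subtypeVal.comp h3

theorem vgwt_open (h : MvPolynomial (Fin N) ℂ) : IsOpen {x : Fin N → ℂ | eval x h ≠ 0} :=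
  isOpen_ne_fun (continuous_eval h) continuous_const

namespace FC

theorem vgwt_supp {T T' : Type} [MetricSpace T] [MetricSpace T'] {Q : FC X T} {C : Set T}
    (hQ : Q.Supp C) (p : C(T, T')) {D : Set T'} (hD : IsClosed D) (h : MapsTo p C D) :
    (Q.map p).Supp D := fun n v hv y hy => eventually_comap.2 <| by
  filter_upwards [hD.isOpen_compl.mem_nhds hy] with y' hy' x hx
  exact hQ n v hv x fun hc => hy' (hx ▸ h hc)

/-- The class `GW` is stable under direct images along rational embeddings. -/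
theorem gwt (Q : FC X (Fin N → ℂ)) {a : ℤ} (hQ : GW Q a) (f : Fin M → MvPolynomial (Fin N) ℂ)
    (h : MvPolynomial (Fin N) ℂ) (g : Fin N → MvPolynomial (Fin M) ℂ) (t : MvPolynomial (Fin M) ℂ)
    {W : Set (Fin M → ℂ)} (hW : ZC W)
    (h1 : ∀ x, eval x h ≠ 0 →
      eval (ratm f h x) t ≠ 0 ∧ ratm f h x ∈ W ∧ ratm g t (ratm f h x) = x)
    (h2 : ∀ y ∈ W, eval y t ≠ 0 → eval (ratm g t y) h ≠ 0 ∧ ratm f h (ratm g t y) = y) :
    GW (Q.pushR f h) a := by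
  intro V e hV hd
  have hκ := vgwt_emb f h g t (fun x hx => (h1 x hx).1) fun x hx => (h1 x hx).2.2
  have d0 : Dim {x | eval x h ≠ 0 ∧ ratm f h x ∈ V} (e + 1) :=
    ((hd.mono (B := V ∩ {y | eval y t ≠ 0}) inter_subset_left).ratm g fun y hy => hy.2).mono
      fun x hx => ⟨_, ⟨hx.2, (h1 x hx.1).1⟩, (h1 x hx.1).2.2⟩
  obtain ⟨V₄, z4, d4, p4, g4⟩ := hQ _ e (zc_zcl _) d0.zcl
  set Vh := zcl {x | eval x h ≠ 0 ∧ ratm f h x ∈ V}
  have e1 : ratC f h ⁻¹' V = Subtype.val ⁻¹' Vh :=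
    Set.ext fun x => ⟨fun hx => subset_zcl _ ⟨x.2, hx⟩, fun hx => hV.ratm f h x.2 hx⟩
  have t1 := tr_gam_comap (φ := (Subtype.val : {x : Fin N → ℂ // eval x h ≠ 0} → _)) Q.supp_univ
    IsInducing.subtypeVal (vgwt_open h) (by rw [univ_inter]; exact Subtype.range_coe_subtype)
    (C := Vh) (zc_zcl _).isClosed
  have t2 := tr_map_emb ((Q.comap _ IsInducing.subtypeVal).gam (Subtype.val ⁻¹' Vh)) _ hκ
  have e2 : (Q.pushR f h).gam V =
      ((Q.comap _ IsInducing.subtypeVal).gam (Subtype.val ⁻¹' Vh)).map (ratC f h) :=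
    (map_gam _ _ hV.isClosed).trans (congrArg (fun C => (gam _ C).map (ratC f h)) e1)
  rw [← e2] at t2
  have p5 : ((Q.pushR f h).gam V).PC (ratC f h '' (Subtype.val ⁻¹' (Vh \ V₄))) :=
    (t2.pc hκ _).1 ((t1.pc IsEmbedding.subtypeVal _).2 (p4.mono (image_preimage_subset _ _)))
  have g5 : ((Q.pushR f h).gam V).Deg (ratC f h '' (Subtype.val ⁻¹' (Vh \ V₄))) (a - e) :=
    (t2.deg _ _).1 ((t1.deg _ _).2 (g4.mono (image_preimage_subset _ _) le_rfl))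
  have sW : ((Q.pushR f h).gam V).Supp W :=
    (vgwt_supp (supp_univ _) (ratC f h) hW.isClosed fun x _ => (h1 x.1 x.2).2.1).gam V
  have z0 : IsClosed (V ∩ {y | eval y t = 0}) := (hV.inter (zc_zero t)).isClosed
  have s0 : ((Q.pushR f h).gam (V ∩ {y | eval y t = 0})).Supp ∅ := by
    rw [pushR, map_gam _ _ z0]
    exact vgwt_supp (supp_gam _ (z0.preimage (ratC f h).continuous)) _ isClosed_empty
      fun x hx => (h1 x.1 x.2).1 hx.2
  have hδ : ∀ p : Ideal (MvPolynomial (Fin M) ℂ), ∃ δ, p.IsPrime → δ ∉ p ∧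
      (t ∈ p ∨ (ZI p ⊆ W ∧ δ = t) ∨ ∀ x ∈ W, eval x δ = 0) := fun p => by
    by_cases k1 : t ∈ p
    · exact ⟨1, fun hp => ⟨hp.one_notMem, Or.inl k1⟩⟩
    by_cases k2 : ZI p ⊆ W
    · exact ⟨t, fun _ => ⟨k1, Or.inr (Or.inl ⟨k2, rfl⟩)⟩⟩
    obtain ⟨δ, k3, k4⟩ := hW.exists_not_mem k2
    exact ⟨δ, fun _ => ⟨k3, Or.inr (Or.inr k4)⟩⟩
  choose δ hδ using hδ
  obtain ⟨V₂, z2, d2, h3⟩ := comp hV hd δ fun p hp => (hδ p hp).1
  have d1 : Dim (zcl (ratm f h '' (V₄ ∩ {x | eval x h ≠ 0}))) e :=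
    ((d4.mono inter_subset_left).ratm f fun x hx => hx.2).zcl
  refine ⟨_, (zc_zcl _).union z2, d1.union d2, ?_⟩
  generalize hS : V \ (zcl (ratm f h '' (V₄ ∩ {x | eval x h ≠ 0})) ∪ V₂) = S
  suffices key : ∀ x ∈ S, ∃ A ∈ 𝓝[S] x, ((Q.pushR f h).gam V).PC A ∧
      ((Q.pushR f h).gam V).Deg A (a - e) by
    refine ⟨pc_local fun x hx => (key x hx).imp fun A hA => ⟨hA.1, hA.2.1⟩, fun x hx => ?_⟩
    obtain ⟨A, k1, -, k2⟩ := key x hx
    exact k2 x (mem_of_mem_nhdsWithin hx k1)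
  subst hS
  intro x hx
  obtain ⟨p, hp, -, -, -, k1, k2⟩ := h3 x ⟨hx.1, fun k => hx.2 (Or.inr k)⟩
  rcases (hδ p hp).2 with k3 | ⟨k3, k4⟩ | k3
  · obtain ⟨U, k4, k5, k6⟩ := _root_.eventually_nhds_iff.1 k2
    have k7 : ∀ n A B, A ⊆ U → B ⊆ A → ((Q.pushR f h).gam V).Ex n A B := fun n A B hA hB =>
      (ex_gam_congr _ k5 hV.isClosed z0 (Set.ext fun y => ⟨fun hy => ⟨⟨hy.1, k4 y hy.2 hy.1 t k3⟩,
        hy.2⟩, fun hy => ⟨hy.1.1, hy.2⟩⟩) hA hB n).2 (s0.ex_off (by simp) hB)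
    refine ⟨U, mem_nhdsWithin_of_mem_nhds (k5.mem_nhds k6), fun γ _ _ hm n => ?_,
      fun y hy j _ => k7 j _ _ (singleton_subset_iff.2 hy) (empty_subset _)⟩
    exact k7 n _ _ hm.image_subset (singleton_subset_iff.2 ⟨0, left_mem_Icc.2 zero_le_one, rfl⟩)
  · refine ⟨_, ?_, p5, g5⟩
    rw [k4] at k1
    filter_upwards [self_mem_nhdsWithin, nhdsWithin_le_nhds k2,
      nhdsWithin_le_nhds ((vgwt_open t).mem_nhds k1)] with y k5 k6 k7
    obtain ⟨k8, k9⟩ := h2 y (k3 (k6 k5.1)) k7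
    exact ⟨⟨_, k8⟩, ⟨subset_zcl _ ⟨k8, k9.symm ▸ k5.1⟩,
      fun k => k5.2 (Or.inl (subset_zcl _ ⟨_, ⟨k, k8⟩, k9⟩))⟩, k9⟩
  · exact ⟨Wᶜ, mem_nhdsWithin_of_mem_nhds (hW.isClosed.isOpen_compl.mem_nhds fun k => k1 (k3 x k)),
      sW.pc_off, (sW.deg_off _).1⟩

end FC

end Pool.Agent.PWV
end
end

-- part Pool.Agent.P.MP_65ad7c_ag.VKap
section

open Set Filter Topology Metric

noncomputable section
namespace Pool.Agent.PWV

open MvPolynomial

/-- homogeneous coordinates as polynomials -/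
def vkap_U (N : ℕ) : Fin (N + 1) → MvPolynomial (Fin N) ℂ := Fin.cons 1 X

/-- the affine form with coefficients `c` -/
def vkap_l {N : ℕ} (c : Fin (N + 1) → ℂ) : MvPolynomial (Fin N) ℂ := ∑ j, C (c j) * vkap_U N j

theorem vkap_eval_U {N : ℕ} (x : Fin N → ℂ) (j : Fin (N + 1)) :
    eval x (vkap_U N j) = (Fin.cons 1 x : Fin (N + 1) → ℂ) j := by
  refine Fin.cases ?_ (fun j => ?_) j <;> simp [vkap_U]

theorem vkap_eval_l {N : ℕ} (c : Fin (N + 1) → ℂ) (x : Fin N → ℂ) :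
    eval x (vkap_l c) = c ⬝ᵥ (Fin.cons 1 x : Fin (N + 1) → ℂ) := by
  simp only [vkap_l, map_sum, map_mul, eval_C, vkap_eval_U, dotProduct]

theorem vkap_norm {N : ℕ} (x : Fin N → ℂ) : 1 ≤ ‖(Fin.cons 1 x : Fin (N + 1) → ℂ)‖ := by
  simpa using norm_le_pi_norm (Fin.cons 1 x : Fin (N + 1) → ℂ) 0

/-- numerators of the embedding -/
def vkap_f {N a : ℕ} (c : Fin (a + 1) → Fin (N + 1) → ℂ) (m : Fin ((a + 1) * (N + 1))) :
    MvPolynomial (Fin N) ℂ :=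
  vkap_U N (finProdFinEquiv.symm m).2 *
    ∏ i ∈ Finset.univ.erase (finProdFinEquiv.symm m).1, vkap_l (c i)

theorem vkap_h {N a : ℕ} (c : Fin (a + 1) → Fin (N + 1) → ℂ) (x : Fin N → ℂ) :
    eval x (∏ i, vkap_l (c i)) ≠ 0 ↔ ∀ i, c i ⬝ᵥ (Fin.cons 1 x : Fin (N + 1) → ℂ) ≠ 0 := by
  simp only [map_prod, vkap_eval_l, Finset.prod_ne_zero_iff, Finset.mem_univ, true_imp_iff]

theorem vkap_rat {N a : ℕ} (c : Fin (a + 1) → Fin (N + 1) → ℂ) {x : Fin N → ℂ}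
    (hx : ∀ i, c i ⬝ᵥ (Fin.cons 1 x : Fin (N + 1) → ℂ) ≠ 0) (i : Fin (a + 1)) (j : Fin (N + 1)) :
    ratm (vkap_f c) (∏ i, vkap_l (c i)) x (finProdFinEquiv (i, j)) =
      (Fin.cons 1 x : Fin (N + 1) → ℂ) j / (c i ⬝ᵥ (Fin.cons 1 x : Fin (N + 1) → ℂ)) := by
  have h1 : (∏ k ∈ Finset.univ.erase i, c k ⬝ᵥ (Fin.cons 1 x : Fin (N + 1) → ℂ)) ≠ 0 :=
    Finset.prod_ne_zero_iff.2 fun k _ => hx k
  simp only [ratm, vkap_f, Equiv.symm_apply_apply, map_mul, map_prod, vkap_eval_U, vkap_eval_l]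
  rw [← Finset.mul_prod_erase Finset.univ _ (Finset.mem_univ i), mul_div_mul_right _ _ h1]

/-- The embedding `x ↦ ((1, x) / l_i x)_i`. -/
theorem exists_kappa {N a : ℕ} (c : Fin (a + 1) → Fin (N + 1) → ℂ) :
    ∃ (M : ℕ) (f : Fin M → MvPolynomial (Fin N) ℂ) (h : MvPolynomial (Fin N) ℂ)
      (g : Fin N → MvPolynomial (Fin M) ℂ) (t : MvPolynomial (Fin M) ℂ) (W : Set (Fin M → ℂ)),
      ZC W ∧ (∀ x, eval x h ≠ 0 →
        eval (ratm f h x) t ≠ 0 ∧ ratm f h x ∈ W ∧ ratm g t (ratm f h x) = x) ∧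
      (∀ y ∈ W, eval y t ≠ 0 → eval (ratm g t y) h ≠ 0 ∧ ratm f h (ratm g t y) = y) ∧
      ∀ ε > 0, ∀ x, x ∈ ⋂ i, Far (c i) ε ↔ eval x h ≠ 0 ∧ ‖ratm f h x‖ ≤ ε⁻¹ := by
  refine ⟨(a + 1) * (N + 1), vkap_f c, ∏ i, vkap_l (c i),
    fun j => X (finProdFinEquiv (0, j.succ)), X (finProdFinEquiv (0, 0)),
    {y | (∀ i, ∑ j, c i j * y (finProdFinEquiv (i, j)) = 1) ∧
      ∀ i j, y (finProdFinEquiv (i, j)) * y (finProdFinEquiv (0, 0)) =
        y (finProdFinEquiv (i, 0)) * y (finProdFinEquiv (0, j))}, ?_, ?_, ?_, ?_⟩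
  · refine ⟨range (fun i : Fin (a + 1) => ∑ j, C (c i j) * X (finProdFinEquiv (i, j)) - 1) ∪
      range (fun p : Fin (a + 1) × Fin (N + 1) =>
        X (finProdFinEquiv p) * X (finProdFinEquiv (0, 0)) -
          X (finProdFinEquiv (p.1, 0)) * X (finProdFinEquiv (0, p.2))), ?_⟩
    ext y
    simp only [mem_ofPred_eq, mem_union, or_imp, forall_and, forall_mem_range, map_sub, map_sum,
      map_mul, eval_C, eval_X, map_one, sub_eq_zero, Prod.forall]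
  · intro x hx
    rw [vkap_h] at hx
    refine ⟨?_, ⟨fun i => ?_, fun i j => ?_⟩, ?_⟩
    · rw [eval_X, vkap_rat c hx]
      exact div_ne_zero (by simp) (hx 0)
    · simp only [vkap_rat c hx, ← mul_div_assoc, ← Finset.sum_div]
      exact div_self (hx i)
    · simp only [vkap_rat c hx]
      ring
    · funext j
      show eval _ (X _) / eval _ (X _) = _
      rw [eval_X, eval_X, vkap_rat c hx, vkap_rat c hx, Fin.cons_succ, Fin.cons_zero]
      have := hx 0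
      field_simp
  · rintro y ⟨h1, h2⟩ ht
    rw [eval_X] at ht
    generalize hx : ratm (fun j : Fin N => X (finProdFinEquiv ((0 : Fin (a + 1)), j.succ)))
      (X (finProdFinEquiv ((0 : Fin (a + 1)), (0 : Fin (N + 1))))) y = x
    have hu : ∀ j, (Fin.cons 1 x : Fin (N + 1) → ℂ) j =
        y (finProdFinEquiv (0, j)) / y (finProdFinEquiv (0, 0)) := fun j => by
      refine Fin.cases ?_ (fun j => ?_) j
      · rw [Fin.cons_zero, div_self ht]
      · rw [Fin.cons_succ, ← hx]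
        simp only [ratm, eval_X]
    have hv : ∀ i j, y (finProdFinEquiv (i, 0)) * (Fin.cons 1 x : Fin (N + 1) → ℂ) j =
        y (finProdFinEquiv (i, j)) := fun i j => by
      rw [hu, ← mul_div_assoc, ← h2, mul_div_cancel_right₀ _ ht]
    have hL : ∀ i, y (finProdFinEquiv (i, 0)) * (c i ⬝ᵥ (Fin.cons 1 x : Fin (N + 1) → ℂ)) = 1 :=
      fun i => by
        rw [dotProduct, Finset.mul_sum]
        refine (Finset.sum_congr rfl fun j _ => ?_).trans (h1 i)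
        rw [← hv i j]
        ring
    have hne : ∀ i, c i ⬝ᵥ (Fin.cons 1 x : Fin (N + 1) → ℂ) ≠ 0 := fun i e => by
      have := hL i
      rw [e, mul_zero] at this
      exact zero_ne_one this
    refine ⟨(vkap_h c x).2 hne, funext fun m => ?_⟩
    obtain ⟨⟨i, j⟩, rfl⟩ := finProdFinEquiv.surjective m
    rw [vkap_rat c hne, div_eq_iff (hne i), ← hv i j, mul_right_comm, hL, one_mul]
  · intro ε hε x
    have hn := vkap_norm x
    rw [mem_iInter, vkap_h]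
    constructor
    · intro hx
      have hpos : ∀ i, 0 < ‖c i ⬝ᵥ (Fin.cons 1 x : Fin (N + 1) → ℂ)‖ := fun i =>
        lt_of_lt_of_le (mul_pos hε (lt_of_lt_of_le one_pos hn)) (hx i)
      have hne : ∀ i, c i ⬝ᵥ (Fin.cons 1 x : Fin (N + 1) → ℂ) ≠ 0 := fun i =>
        norm_pos_iff.1 (hpos i)
      refine ⟨hne, (pi_norm_le_iff_of_nonneg (inv_pos.2 hε).le).2 fun m => ?_⟩
      obtain ⟨⟨i, j⟩, rfl⟩ := finProdFinEquiv.surjective m
      rw [vkap_rat c hne, norm_div, div_le_iff₀ (hpos i), inv_mul_eq_div, le_div_iff₀ hε, mul_comm]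
      exact (mul_le_mul_of_nonneg_left (norm_le_pi_norm _ j) hε.le).trans (hx i)
    · rintro ⟨hne, hx⟩ i
      have hpos : 0 < ‖c i ⬝ᵥ (Fin.cons 1 x : Fin (N + 1) → ℂ)‖ := norm_pos_iff.2 (hne i)
      show ε * _ ≤ _
      rw [mul_comm, ← le_div_iff₀ hε]
      refine (pi_norm_le_iff_of_nonneg (div_pos hpos hε).le).2 fun j => ?_
      have h1 := (norm_le_pi_norm _ (finProdFinEquiv (i, j))).trans hx
      rwa [vkap_rat c hne, norm_div, div_le_iff₀ hpos, inv_mul_eq_div] at h1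

theorem isClosed_Far {N : ℕ} (c : Fin (N + 1) → ℂ) (ε : ℝ) : IsClosed (Far c ε) := by
  have h : Continuous fun x : Fin N → ℂ => (Fin.cons 1 x : Fin (N + 1) → ℂ) :=
    continuous_pi fun j => by
      refine Fin.cases ?_ (fun j => ?_) j
      · simpa using continuous_const
      · simpa using continuous_apply j
  exact isClosed_le (continuous_const.mul h.norm) (continuous_const.dotProduct h).norm

theorem Far_anti {N : ℕ} (c : Fin (N + 1) → ℂ) : Antitone (Far c) := by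
  intro ε ε' h x hx
  exact (mul_le_mul_of_nonneg_right h (norm_nonneg _)).trans hx

end Pool.Agent.PWV
end
end

-- part Pool.Agent.P.MP_65ad7c_ag.VTW1
section

open Set Filter Topology Metric

noncomputable section
namespace Pool.Agent.PWV

variable {X : Cx} {E F : Type} [NormedAddCommGroup E] [NormedSpace ℝ E] [FiniteDimensional ℝ E]
  [NormedAddCommGroup F] [NormedSpace ℝ F] [FiniteDimensional ℝ F]

namespace FC

omit [FiniteDimensional ℝ E] in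
theorem vtw1_loc (Q : FC X (E × ℂ)) {S : Set (E × ℂ)} (hS : IsClosed S)
    (hfin : ∀ y, {τ | (y, τ) ∈ S}.Finite) {β j : ℤ} (p0 : Q.PC Sᶜ) (d0 : Q.Deg Sᶜ (β - 1))
    (hj : j + 1 < β) {u : Set E} (hu : IsOpen u) {δ : ℝ} (hδ : 0 < δ) :
    (Q.gam (univ ×ˢ Db)).Ex j ((u ×ˢ ball (0 : ℂ) (δ + 1)) ∩ Sᶜ) ∅ := by
  have hF : IsClosed ((univ : Set E) ×ˢ Db) := isClosed_univ.prod isClosed_closedBall
  have hA : IsOpen ((u ×ˢ ball (0 : ℂ) (δ + 1)) ∩ Sᶜ) := (hu.prod isOpen_ball).inter hS.isOpen_compl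
  rw [gam_ex Q hF, empty_union, ex_exc Q (sep_of_isOpen hA hF.isOpen_compl)]
  refine uc Q (b := β - 1) inter_subset_left (p0.mono inter_subset_right)
    (d0.mono inter_subset_right le_rfl) ?_ (by omega)
  rintro ⟨y, τ⟩ ⟨⟨hy, hτ⟩, hS'⟩
  obtain ⟨τ', h1, h2⟩ := exists_ray (hfin y) (τ := τ) hS' (le_max_left ‖τ‖ (1 + δ / 2))
  have hτ' : τ' ∈ ball (0 : ℂ) (δ + 1) := by
    rw [mem_ball_zero_iff] at hτ ⊢
    rw [h1]
    exact max_lt hτ (by linarith)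
  have hseg : segment ℝ (y, τ) (y, τ') ⊆ (u ×ˢ ball (0 : ℂ) (δ + 1)) ∩ Sᶜ := by
    rw [← Prod.image_mk_segment_right]
    rintro _ ⟨σ, hσ, rfl⟩
    exact ⟨⟨hy, (convex_ball 0 _).segment_subset hτ hτ' hσ⟩, Set.disjoint_left.1 h2 hσ⟩
  refine ⟨(y, τ'), ⟨hseg (right_mem_segment ℝ _ _), fun h => ?_⟩, .single hseg⟩
  have h3 : ‖τ'‖ ≤ 1 := mem_closedBall_zero_iff.1 h.2
  have := le_max_right ‖τ‖ (1 + δ / 2)
  linarith

theorem tw_deg (Q : FC X (E × ℂ)) {S : Set (E × ℂ)} (hS : IsClosed S)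
    (hfin : ∀ y, {τ | (y, τ) ∈ S}.Finite) (h1 : ∀ p ∈ S, ‖p.2‖ < 1) {β : ℤ} (p0 : Q.PC Sᶜ)
    (d0 : Q.Deg Sᶜ (β - 1)) (d1 : (Q.gam S).Deg S β) :
    ((Q.gam (univ ×ˢ Db)).map (fstC E ℂ)).Deg univ β := by
  intro y _ j hj
  have hF : IsClosed ((univ : Set E) ×ˢ Db) := isClosed_univ.prod isClosed_closedBall
  have hR := supp_gam Q hF
  show X.ExS j _ _
  rw [hR.map_fst_ZT, hR.map_fst_ZT, empty_prod]
  refine tri_mid hS (empty_subset _) ?_ ?_
  · have hSF : (univ ×ˢ Db) ∩ S = S :=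
      inter_eq_right.2 fun p hp => ⟨trivial, mem_closedBall_zero_iff.2 (h1 p hp).le⟩
    rw [gam_gam Q hF hS, hSF]
    refine Deg.ex_low (fun x _ => ?_) (empty_subset _) hj
    by_cases hx : x ∈ S
    · exact d1 x hx
    · exact ((supp_gam Q hS).deg_off β).1 x hx
  · intro v hv hd
    obtain ⟨N, hN, hKN, hd⟩ := (mem_loc_ZT _ hS.isOpen_compl).1 hd
    obtain ⟨u, u', hu, hu', hy, hD, huu⟩ :=
      generalized_tube_lemma isCompact_singleton (isCompact_closedBall (0 : ℂ) 1) hN hKN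
    obtain ⟨δ, hδ, hth⟩ := (isCompact_closedBall (0 : ℂ) 1).exists_thickening_subset_open hu' hD
    rw [thickening_closedBall hδ zero_le_one] at hth
    rw [loc_ZT_sub _ hS.isOpen_compl (empty_subset _)] at hv ⊢
    obtain ⟨w, hw, hw'⟩ := vtw1_loc Q hS hfin p0 d0 hj hu hδ v hv
      (ZT_anti (inter_subset_inter_left _ ((prod_mono Subset.rfl hth).trans huu)) _ hd)
    refine ⟨w, hw, (mem_loc_ZT _ hS.isOpen_compl).2 ⟨_, hu.prod isOpen_ball, ?_, hw'⟩⟩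
    exact prod_mono hy (closedBall_subset_ball (by linarith))

end FC

end Pool.Agent.PWV
end
end

-- part Pool.Agent.P.MP_65ad7c_ag.VTW2
section

open Set Filter Topology Metric

noncomputable section
namespace Pool.Agent.PWV

variable {X : Cx} {E F : Type} [NormedAddCommGroup E] [NormedSpace ℝ E] [FiniteDimensional ℝ E]
  [NormedAddCommGroup F] [NormedSpace ℝ F] [FiniteDimensional ℝ F]

namespace FC

omit [FiniteDimensional ℝ E] in
theorem vtw2_star (Q : FC X (E × ℂ)) {K : Set E} (hK : IsCompact K) (hc : Convex ℝ K) {x : E}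
    (hx : x ∈ K) (t : ℂ) (hP : Q.PC (K ×ˢ {t})) : Q.Acyc (K ×ˢ {t}) {(x, t)} :=
  star Q (hK.prod isCompact_singleton) (c := (x, t)) ⟨hx, rfl⟩
    ((hc.prod (convex_singleton t)).starConvex ⟨hx, rfl⟩) (hP.mono sdiff_subset)

theorem vtw2_closed_Db : IsClosed Db := isClosed_closedBall

theorem vtw2_mem_Db {t : ℂ} : t ∈ Db ↔ ‖t‖ ≤ 1 := by simp [Db]

theorem tw_pc0 (Q : FC X (E × ℂ)) {S : Set (E × ℂ)} (hS : IsClosed S) {P : Set ℂ} (hP : P.Finite)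
    (h1 : ∀ τ ∈ P, ‖τ‖ < 1) {N : Set E} (hN : IsOpen N) (hSN : ∀ y ∈ N, ∀ τ, (y, τ) ∈ S ↔ τ ∈ P)
    (p0 : Q.PC Sᶜ) (p1 : (Q.gam S).PC S) {K : Set E} (hK : IsCompact K) (hc : Convex ℝ K)
    (hKN : K ⊆ N) {x : E} (hx : x ∈ K) :
    (Q.gam (univ ×ˢ Db)).Acyc (K ×ˢ Db) ({x} ×ˢ Db) := by
  intro n
  have hF : IsClosed ((univ : Set E) ×ˢ Db) := isClosed_univ.prod vtw2_closed_Db
  have hDc : IsCompact Db := isCompact_closedBall _ _
  refine lg _ (hK.prod hDc) (isClosed_singleton.prod vtw2_closed_Db)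
    (prod_mono (singleton_subset_iff.2 hx) subset_rfl) Prod.snd continuous_snd.continuousOn n ?_
  intro t i _
  by_cases ht : t ∈ Db
  · have e1 : (K ×ˢ Db) ∩ Prod.snd ⁻¹' {t} = K ×ˢ {t} := by
      ext ⟨y, τ⟩
      simp only [mem_inter_iff, mem_prod, mem_preimage, mem_singleton_iff]
      constructor
      · rintro ⟨⟨h, _⟩, h'⟩; exact ⟨h, h'⟩
      · rintro ⟨h, rfl⟩; exact ⟨⟨h, ht⟩, rfl⟩
    have e2 : (({x} : Set E) ×ˢ Db) ∩ Prod.snd ⁻¹' {t} = {(x, t)} := by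
      ext ⟨y, τ⟩
      simp only [mem_inter_iff, mem_prod, mem_preimage, mem_singleton_iff, Prod.mk.injEq]
      constructor
      · rintro ⟨⟨h, _⟩, h'⟩; exact ⟨h, h'⟩
      · rintro ⟨h, rfl⟩; exact ⟨⟨h, ht⟩, rfl⟩
    rw [e1, e2]
    have hBA : ({(x, t)} : Set (E × ℂ)) ⊆ K ×ˢ {t} := singleton_subset_iff.2 ⟨hx, rfl⟩
    by_cases htP : t ∈ P
    · have hint : K ×ˢ ({t} : Set ℂ) ⊆ interior ((univ : Set E) ×ˢ Db) := by
        refine subset_trans ?_ (interior_maximal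
          (prod_mono subset_rfl ball_subset_closedBall) (isOpen_univ.prod isOpen_ball))
        rintro ⟨y, τ⟩ ⟨_, h⟩
        refine ⟨mem_univ _, ?_⟩
        have h' : τ = t := h
        simpa [h'] using h1 t htP
      rw [ex_gam_interior Q hF hBA hint]
      refine tri_mid hS hBA (vtw2_star (Q.gam S) hK hc hx t (p1.mono ?_) i)
        (prodloc Q hN (Ω := Pᶜ) hP.isClosed.isOpen_compl hS.isOpen_compl ?_ (p0.mono ?_) hK hc hKN
          hx t i)
      · rintro ⟨y, τ⟩ ⟨hy, h⟩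
        have h' : τ = t := h
        exact (hSN y (hKN hy) τ).2 (h' ▸ htP)
      · intro y hy τ
        simp only [mem_compl_iff, hSN y hy τ]
      · rintro ⟨y, τ⟩ ⟨hy, h⟩ hs
        exact h ((hSN y hy τ).1 hs)
    · obtain ⟨m, rfl⟩ : ∃ m, i = m + 1 := ⟨i - 1, by ring⟩
      refine tri_left hF hBA (vtw2_star Q hK hc hx t (p0.mono ?_) (m + 1))
        (prodloc Q hN (Ω := Dbᶜ) vtw2_closed_Db.isOpen_compl hF.isOpen_compl ?_ (p0.mono ?_) hK hc
          hKN hx t m)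
      · rintro ⟨y, τ⟩ ⟨hy, h⟩ hs
        have h' : τ = t := h
        exact htP (h' ▸ (hSN y (hKN hy) τ).1 hs)
      · intro y _ τ
        simp
      · rintro ⟨y, τ⟩ ⟨hy, h⟩ hs
        exact h (vtw2_mem_Db.2 (h1 τ ((hSN y hy τ).1 hs)).le)
  · have e1 : (K ×ˢ Db) ∩ Prod.snd ⁻¹' {t} = ∅ := by
      ext ⟨y, τ⟩
      simp only [mem_inter_iff, mem_prod, mem_preimage, mem_singleton_iff, mem_empty_iff_false,
        iff_false]
      rintro ⟨⟨_, h⟩, rfl⟩; exact ht h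
    have e2 : (({x} : Set E) ×ˢ Db) ∩ Prod.snd ⁻¹' {t} = ∅ := by
      ext ⟨y, τ⟩
      simp only [mem_inter_iff, mem_prod, mem_preimage, mem_singleton_iff, mem_empty_iff_false,
        iff_false]
      rintro ⟨⟨_, h⟩, rfl⟩; exact ht h
    rw [e1, e2]
    exact ex_self _ _ _

theorem tw_pc (Q : FC X (E × ℂ)) {k : ℕ} (r : Fin k → E → ℂ) (hr : ∀ i, Continuous (r i))
    (hinj : ∀ y, Function.Injective fun i => r i y) (h1 : ∀ y i, ‖r i y‖ < 1) {S : Set (E × ℂ)}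
    (hS : ∀ p, p ∈ S ↔ ∃ i, p.2 = r i p.1) (p0 : Q.PC Sᶜ) (p1 : (Q.gam S).PC S) :
    ((Q.gam (univ ×ˢ Db)).map (fstC E ℂ)).PC univ := by
  have hF : IsClosed ((univ : Set E) ×ˢ Db) := isClosed_univ.prod vtw2_closed_Db
  have hSc : IsClosed S := by
    have : S = ⋃ i, {p : E × ℂ | p.2 = r i p.1} := by
      ext p
      simp only [hS, mem_iUnion, mem_ofPred_eq]
    rw [this]
    exact isClosed_iUnion_of_finite fun i =>
      isClosed_eq continuous_snd ((hr i).comp continuous_fst)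
  refine LC.pc ?_
  intro y _
  obtain ⟨W, hW, Φ, hΦ1, hΦ2, hΦ3⟩ := straight r hr y (hinj y) (h1 y)
  obtain ⟨ε, hε, hball⟩ := nhds_basis_closedBall.mem_iff.1 (interior_mem_nhds.2 hW)
  refine ⟨closedBall y ε, subset_univ _, mem_nhdsWithin_of_mem_nhds (closedBall_mem_nhds y hε), ?_⟩
  intro x hx
  have hrange : range Φ = univ ∩ univ := by rw [Φ.range_coe, inter_self]
  have tF := tr_gam_comap (supp_univ Q) Φ.isInducing isOpen_univ hrange hF
  have tS := tr_gam_comap (supp_univ Q) Φ.isInducing isOpen_univ hrange hSc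
  have hpre : Φ ⁻¹' ((univ : Set E) ×ˢ Db) = univ ×ˢ Db := by
    ext p
    simp only [mem_preimage, mem_prod, mem_univ, true_and, hΦ2]
  have him : ∀ A : Set E, Φ '' (A ×ˢ Db) = A ×ˢ Db := by
    intro A
    rw [← Φ.preimage_symm]
    ext p
    obtain ⟨q, rfl⟩ := Φ.surjective p
    simp only [mem_preimage, Homeomorph.symm_apply_apply, mem_prod, hΦ1, hΦ2]
  rw [hpre] at tF
  have key := tw_pc0 (Q.comap Φ Φ.isInducing) (S := Φ ⁻¹' S) (hSc.preimage Φ.continuous)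
    (P := range fun i => r i y) (finite_range _) (by rintro _ ⟨i, rfl⟩; exact h1 y i)
    (N := interior W) isOpen_interior ?_ ?_ ?_ (isCompact_closedBall y ε) (convex_closedBall y ε)
    hball hx
  · rw [tF.acyc (prod_mono (singleton_subset_iff.2 hx) subset_rfl), him, him] at key
    intro n
    have := key n
    unfold Ex at this ⊢
    rw [Supp.map_fst_ZT (supp_gam Q hF), Supp.map_fst_ZT (supp_gam Q hF)]
    exact this
  · intro b hb τ
    rw [mem_preimage, hS]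
    constructor
    · rintro ⟨i, hi⟩
      refine ⟨i, ?_⟩
      have h2 : Φ (b, τ) = Φ (b, r i y) := by
        rw [hΦ3 b (interior_subset hb) i]
        refine Prod.ext (hΦ1 _) ?_
        rw [hi, hΦ1]
      exact (congrArg Prod.snd (Φ.injective h2)).symm
    · rintro ⟨i, rfl⟩
      exact ⟨i, by rw [hΦ3 b (interior_subset hb) i]⟩
  · rw [(tr_comap Q Φ.isInducing).pc Φ.isEmbedding, ← preimage_compl,
      image_preimage_eq _ Φ.surjective]
    exact p0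
  · rw [tS.pc Φ.isEmbedding, image_preimage_eq _ Φ.surjective]
    exact p1

end FC

end Pool.Agent.PWV
end
end

-- part Pool.Agent.P.MP_65ad7c_ag.VStepW0
section

open Set Filter Topology Metric

noncomputable section
namespace Pool.Agent.PWV

variable {X : Cx} {T : Type} [MetricSpace T]

/-- Exchange of the last two factors. -/
def vstepw0_swap (A B C : Type) [TopologicalSpace A] [TopologicalSpace B] [TopologicalSpace C] :
    (A × C) × B ≃ₜ (A × B) × C where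
  toFun p := ((p.1.1, p.2), p.1.2)
  invFun p := ((p.1.1, p.2), p.1.2)
  left_inv _ := rfl
  right_inv _ := rfl
  continuous_toFun := by fun_prop
  continuous_invFun := by fun_prop

namespace FC

theorem stepW_loc {e m k : ℕ} (Q : FC X (T × ℂ)) {φ : (Fin e → ℂ) × (Fin m → ℂ) → T}
    (hφ : IsOpenEmbedding φ) {V : Set T} (hV : IsClosed V) (hφV : ∀ u, φ u ∈ V ↔ u.2 = 0)
    {S : Set (T × ℂ)} (hS : IsClosed S) (r : Fin k → (Fin e → ℂ) → ℂ) (hr : ∀ i, Continuous (r i))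
    (hinj : ∀ u, Function.Injective fun i => r i u) (h1 : ∀ u i, ‖r i u‖ < 1)
    (hSr : ∀ u τ, (φ (u, 0), τ) ∈ S ↔ ∃ i, τ = r i u) {b β : ℤ} (hb : β - 1 ≤ b + m)
    (p0 : Q.PC Sᶜ) (d0 : Q.Deg Sᶜ b) {S₁ : Set (T × ℂ)} (hS₁ : ∀ u i, (φ (u, 0), r i u) ∈ S₁)
    (p1 : (Q.gam (S ∩ V ×ˢ univ)).PC S₁) (d1 : (Q.gam (S ∩ V ×ˢ univ)).Deg S₁ β) :
    (((Q.gam (univ ×ˢ Db)).map (fstC T ℂ)).gam V).PC (V ∩ range φ) ∧
      (((Q.gam (univ ×ˢ Db)).map (fstC T ℂ)).gam V).Deg (V ∩ range φ) β := by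
  let φ0 : (Fin e → ℂ) → T := fun u => φ (u, 0)
  have hφ0 : IsEmbedding φ0 := hφ.isEmbedding.comp (isEmbedding_prodMkLeft 0)
  have hr0 : φ0 '' univ = V ∩ range φ := by
    ext x
    constructor
    · rintro ⟨u, -, rfl⟩
      exact ⟨(hφV _).2 rfl, _, rfl⟩
    · rintro ⟨hx, ⟨u, w⟩, rfl⟩
      obtain rfl : w = 0 := (hφV _).1 hx
      exact ⟨u, trivial, rfl⟩
  let ψ : (Fin e → ℂ) × ℂ → T × ℂ := Prod.map φ0 id
  have hψ : IsEmbedding ψ := hφ0.prodMap IsEmbedding.id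
  have hC : IsClosed (V ×ˢ (univ : Set ℂ)) := hV.prod isClosed_univ
  have hO : IsOpen (range φ ×ˢ (univ : Set ℂ)) := hφ.isOpen_range.prod isOpen_univ
  have hDb : IsClosed Db := isClosed_closedBall
  have hrψ : range ψ = V ×ˢ (univ : Set ℂ) ∩ range φ ×ˢ (univ : Set ℂ) := by
    ext ⟨x, t⟩
    constructor
    · rintro ⟨⟨u, t'⟩, h⟩
      obtain ⟨rfl, rfl⟩ := Prod.mk.inj h
      exact ⟨⟨(hφV _).2 rfl, trivial⟩, ⟨_, rfl⟩, trivial⟩
    · rintro ⟨⟨hx, -⟩, ⟨⟨u, w⟩, hu⟩, -⟩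
      obtain rfl : φ (u, w) = x := hu
      obtain rfl : w = 0 := (hφV _).1 hx
      exact ⟨(u, t), rfl⟩
  let χ : ((Fin e → ℂ) × ℂ) × (Fin m → ℂ) → T × ℂ := fun p => (φ (p.1.1, p.2), p.1.2)
  have hχ : IsEmbedding χ :=
    (hφ.isEmbedding.prodMap IsEmbedding.id).comp (vstepw0_swap _ _ ℂ).isEmbedding
  have hrχ : range χ = univ ∩ range φ ×ˢ (univ : Set ℂ) := by
    ext ⟨x, t⟩
    constructor
    · rintro ⟨p, h⟩
      obtain ⟨rfl, rfl⟩ := Prod.mk.inj h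
      exact ⟨trivial, ⟨_, rfl⟩, trivial⟩
    · rintro ⟨-, ⟨⟨u, w⟩, hu⟩, -⟩
      obtain rfl : φ (u, w) = x := hu
      exact ⟨((u, t), w), rfl⟩
  obtain ⟨c1, c2⟩ := cod_gen (supp_univ Q) hχ hO hrχ hC
    (fun u => ⟨fun h => (hφV _).1 h.1, fun h => ⟨(hφV _).2 h, trivial⟩⟩)
    (hS.isOpen_compl.preimage hχ.continuous) p0 d0
  have hsub : ψ '' (ψ ⁻¹' S)ᶜ ⊆ V ×ˢ (univ : Set ℂ) ∩ range χ ∩ Sᶜ := by
    rintro _ ⟨⟨u, t⟩, h, rfl⟩
    exact ⟨⟨⟨(hφV _).2 rfl, trivial⟩, ((u, t), 0), rfl⟩, h⟩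
  have hsub' : ψ '' (ψ ⁻¹' S) ⊆ S₁ := by
    rintro _ ⟨⟨u, t⟩, h, rfl⟩
    obtain ⟨i, rfl⟩ := (hSr u t).1 h
    exact hS₁ u i
  have t0 := tr_comap (Q.gam (V ×ˢ univ)) hψ.isInducing
  have t1 := tr_gam_comap (supp_gam Q hC) hψ.isInducing hO hrψ hS
  rw [gam_gam Q hC hS, inter_comm] at t1
  have hF : IsClosed ((univ : Set T) ×ˢ Db) := isClosed_univ.prod hDb
  have hF' : IsClosed ((univ : Set (Fin e → ℂ)) ×ˢ Db) := isClosed_univ.prod hDb
  have t2 := tr_gam_comap (supp_gam Q hC) hψ.isInducing hO hrψ hF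
  have eF : ψ ⁻¹' ((univ : Set T) ×ˢ Db) = (univ : Set (Fin e → ℂ)) ×ˢ Db := by
    ext p
    exact ⟨fun h => ⟨trivial, h.2⟩, fun h => ⟨trivial, h.2⟩⟩
  rw [eF] at t2
  have t3 := Tr.map_fst (supp_gam _ hF) (supp_gam _ hF') t2
  have q0 := (t0.pc hψ _).2 (c1.mono hsub)
  have g0 := (t0.deg _ _).2 (c2.mono hsub hb)
  have q1 := (t1.pc hψ _).2 (p1.mono hsub')
  have g1 := (t1.deg _ _).2 (d1.mono hsub' le_rfl)
  have a1 := tw_pc _ r hr hinj h1 (S := ψ ⁻¹' S) (fun p => hSr p.1 p.2) q0 q1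
  have a2 := tw_deg _ (hS.preimage hψ.continuous)
    (fun y => (finite_range fun i => r i y).subset fun τ h => by
      obtain ⟨i, rfl⟩ := (hSr y τ).1 h
      exact ⟨i, rfl⟩)
    (fun p h => by
      obtain ⟨i, hi⟩ := (hSr p.1 p.2).1 h
      rw [hi]
      exact h1 _ _) q0 g0 g1
  have eV : (fstC T ℂ) ⁻¹' V = V ×ˢ (univ : Set ℂ) := by
    ext p
    exact ⟨fun h => ⟨h, trivial⟩, fun h => h.1⟩
  rw [map_gam _ _ hV, eV, gam_gam Q hF hC, inter_comm (univ ×ˢ Db), ← gam_gam Q hC hF, ← hr0]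
  exact ⟨(t3.pc hφ0 _).1 a1, (t3.deg _ _).1 a2⟩

end FC

end Pool.Agent.PWV
end
end

-- part Pool.Agent.P.MP_65ad7c_ag.VStepW
section

open Set Filter Topology Metric

noncomputable section
namespace Pool.Agent.PWV

variable {X : Cx} {n : ℕ}

theorem vstepw_gen {G : Polynomial (MvPolynomial (Fin n) ℂ)} (hG : G.Monic)
    (p : Ideal (MvPolynomial (Fin n) ℂ)) : ∃ δ : MvPolynomial (Fin n) ℂ, p.IsPrime → δ ∉ p ∧
      ∃ k e : ℕ, ¬ Dim (ZI p) e ∧ ∀ x ∈ ZI p, MvPolynomial.eval x δ ≠ 0 →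
        (rt G x).ncard = k ∧ Flat (ZI p) e x := by
  by_cases hp : p.IsPrime
  · obtain ⟨δ, h1, k, h2⟩ := rootp hG hp
    obtain ⟨δ', h3, e, h4, h5⟩ := smooth n p hp
    refine ⟨δ * δ', fun _ => ⟨fun h => (hp.mem_or_mem h).elim h1 h3, k, e, h4, fun x hx h => ?_⟩⟩
    rw [map_mul] at h
    exact ⟨h2 x hx (left_ne_zero_of_mul h), h5 x hx (right_ne_zero_of_mul h)⟩
  · exact ⟨0, fun h => absurd h hp⟩

namespace FC

theorem stepW {G : Polynomial (MvPolynomial (Fin n) ℂ)} (hG : G.Monic) {R : (Fin n → ℂ) → ℝ}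
    (hR : Continuous R) (h0 : ∀ x, 0 < R x) (hb : ∀ x, ∀ t ∈ rt G x, ‖t‖ < R x)
    (Q : FC X ((Fin n → ℂ) × ℂ)) {a : ℤ} (p0 : Q.PC (Rt G R)ᶜ)
    (d0 : Q.Deg (Rt G R)ᶜ (a - (n + 1)))
    (hS : ∀ V (e : ℕ), ZC V → Dim V (e + 1) → ∃ V', ZC V' ∧ Dim V' e ∧
      (Q.gam (Rt G R ∩ V ×ˢ univ)).PC (Rt G R ∩ (V \ V') ×ˢ univ) ∧
      (Q.gam (Rt G R ∩ V ×ˢ univ)).Deg (Rt G R ∩ (V \ V') ×ˢ univ) (a - e)) :
    GW ((Q.gam (univ ×ˢ Db)).map (fstC _ ℂ)) a := by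
  intro V e hV hd
  obtain ⟨V1, z1, d1, p1, g1⟩ := hS V e hV hd
  choose δ hδ using vstepw_gen hG
  obtain ⟨V2, z2, d2, h2⟩ := comp hV hd δ fun p hp => (hδ p hp).1
  have key : ∀ x ∈ V \ (V1 ∪ V2), ∃ O, IsOpen O ∧ x ∈ O ∧
      (((Q.gam (univ ×ˢ Db)).map (fstC _ ℂ)).gam V).PC (V ∩ O) ∧
      (((Q.gam (univ ×ˢ Db)).map (fstC _ ℂ)).gam V).Deg (V ∩ O) (a - e) := by
    intro x hx
    obtain ⟨p, hp, pV, -, xp, xδ, ev⟩ := h2 x ⟨hx.1, fun h => hx.2 (Or.inr h)⟩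
    obtain ⟨-, k, e2, nd, hk⟩ := hδ p hp
    have he : e2 ≤ e := by
      by_contra hc
      exact nd ((hd.mono pV).mono_nat (by omega))
    obtain ⟨W, -, hW, r, rc, hr⟩ := rootc hG
      (W := {y | y ∈ ZI p ∧ MvPolynomial.eval y (δ p) ≠ 0}) (fun y hy => (hk y hy.1 hy.2).1)
      (x := x) ⟨xp, xδ⟩
    have hN : {y | (y ∈ V → y ∈ W) ∧ y ∉ V1} ∈ 𝓝 x := by
      filter_upwards [ev, eventually_nhdsWithin_iff.1 hW,
        (MvPolynomial.continuous_eval (δ p)).continuousAt.eventually_ne xδ,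
        z1.isClosed.isOpen_compl.mem_nhds fun h => hx.2 (Or.inl h)] with y a1 a2 a3 a4
      exact ⟨fun h => a2 ⟨a1 h, a3⟩, a4⟩
    obtain ⟨m, hm, φ, hφ, φ0, φN, φV⟩ := (hk x xp xδ).2.shrink (V' := V)
      (ev.mono fun y h => ⟨h, fun h' => pV h'⟩) hN
    have mV : ∀ u, φ (u, 0) ∈ V := fun u => (φV _).2 rfl
    have mW : ∀ u, φ (u, 0) ∈ W := fun u => (φN (mem_range_self _)).1 (mV u)
    have cφ : Continuous fun u => φ (u, 0) :=
      hφ.continuous.comp (continuous_id.prodMk continuous_const)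
    have R0 : ∀ y, (R y : ℂ) ≠ 0 := fun y => Complex.ofReal_ne_zero.2 (h0 y).ne'
    have hSr : ∀ u τ, (φ (u, 0), τ) ∈ Rt G R ↔ ∃ i, τ = r i (φ (u, 0)) / R (φ (u, 0)) := by
      intro u τ
      show (R (φ (u, 0)) : ℂ) * τ ∈ rt G (φ (u, 0)) ↔ _
      rw [(hr _ (mW u)).2]
      refine exists_congr fun i => ?_
      rw [eq_div_iff (R0 _), mul_comm, eq_comm]
    refine ⟨range φ, hφ.isOpen_range, ⟨0, φ0⟩, stepW_loc Q hφ hV.isClosed φV (isClosed_Rt G hR)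
      (fun i u => r i (φ (u, 0)) / R (φ (u, 0)))
      (fun i => ((rc i).comp_continuous cφ mW).div
        (Complex.continuous_ofReal.comp (hR.comp cφ)) fun u => R0 _)
      (fun u i j h => (hr _ (mW u)).1 ((div_left_inj' (R0 _)).1 h)) (fun u i => ?_) hSr
      (by omega) p0 d0 (S₁ := Rt G R ∩ (V \ V1) ×ˢ univ)
      (fun u i => ⟨(hSr u _).2 ⟨i, rfl⟩, ⟨mV u, (φN (mem_range_self _)).2⟩, trivial⟩) p1 g1⟩
    rw [norm_div, Complex.norm_real, Real.norm_eq_abs, abs_of_pos (h0 _), div_lt_one (h0 _)]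
    exact hb _ _ ((hr _ (mW u)).2.ge (mem_range_self i))
  refine ⟨V1 ∪ V2, z1.union z2, d1.union d2, pc_local fun x hx => ?_, fun x hx => ?_⟩
  · obtain ⟨O, o1, o2, o3, -⟩ := key x hx
    exact ⟨V ∩ O, mem_nhdsWithin.2 ⟨O, o1, o2, fun y hy => ⟨hy.2.1, hy.1⟩⟩, o3⟩
  · obtain ⟨O, -, o2, -, o4⟩ := key x hx
    exact o4 x ⟨hx.1, o2⟩

end FC

end Pool.Agent.PWV
end
end

-- part Pool.Agent.P.MP_65ad7c_ag.VCS
section

open Set Filter Topology Metric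

noncomputable section
namespace Pool.Agent.PWV

variable {X : Cx}

namespace FC

theorem vcs_ne {N : ℕ} {g : MvPolynomial (Fin N) ℂ} (hg : g ≠ 0) :
    ∃ x, MvPolynomial.eval x g ≠ 0 := by
  by_contra h
  push Not at h
  exact hg (MvPolynomial.funext fun x => by rw [h x, map_zero])

theorem vcs_zero (Q : FC X (Fin 0 → ℂ)) (a : ℤ) (h : GW Q a) (j : ℤ) (hj : j + 1 < a) : Q.CS j := by
  obtain ⟨g, hg, -, hd⟩ := topW Q h
  obtain ⟨x, hx⟩ := vcs_ne hg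
  have h1 := hd x hx j (by simpa using hj)
  have hu : ({x} : Set (Fin 0 → ℂ)) = univ := eq_univ_of_forall fun y => Subsingleton.elim y x
  rw [hu] at h1
  refine cs_iff.2 fun K _ v hv hdv => ⟨univ, ?_, ?_⟩
  · rw [← hu]; exact isCompact_singleton
  · rw [compl_univ]
    exact h1 v (ZT_anti (empty_subset _) _ hv) hdv

/-- Artin vanishing with compact supports. -/
theorem cs (n : ℕ) : ∀ (Q : FC X (Fin n → ℂ)) (a : ℤ), GW Q a → ∀ j : ℤ, j + 1 < a → Q.CS j := by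
  induction n with
  | zero => exact vcs_zero
  | succ n ih =>
    intro Q a h j hj
    obtain ⟨g, hg, hp, hd⟩ := topW Q h
    obtain ⟨k, hk, hk'⟩ := monic_dir hg
    obtain ⟨v, hv⟩ := vcs_ne hk
    obtain ⟨G, hG, hgG⟩ := hk' v hv
    obtain ⟨R, hR, h0, hb⟩ := rootb hG
    have hs := isHomeomorph_sc v hR h0
    have tr := tr_comap Q hs.isInducing
    have him : sc v R '' (Rt G R)ᶜ ⊆ {x | MvPolynomial.eval x g = 0}ᶜ := by
      rintro _ ⟨p, hp, rfl⟩ e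
      exact hp ((hgG p.1 _).1 e)
    have p0 : (Q.comap _ hs.isInducing).PC (Rt G R)ᶜ := (tr.pc hs.isEmbedding _).2 (hp.mono him)
    have d0 : (Q.comap _ hs.isInducing).Deg (Rt G R)ᶜ (a - (n + 1)) :=
      (tr.deg _ _).2 (hd.mono him (by push_cast; exact le_rfl))
    have hW := stepW hG hR h0 hb _ p0 d0 (preW Q h hG hgG hs)
    have hF : IsClosed ((univ : Set (Fin n → ℂ)) ×ˢ Db) := isClosed_univ.prod isClosed_closedBall
    refine (cs_comap hs).1 (cs_tri hF ((cs_map_fst (supp_gam _ hF)).1 (ih _ a hW j hj))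
      (radc _ (p0.mono (compl_subset_compl.2 fun p hp => ⟨trivial, ?_⟩)) j))
    have h1 := hb p.1 _ hp
    rw [norm_mul, Complex.norm_real, Real.norm_eq_abs, abs_of_pos (h0 p.1)] at h1
    exact mem_closedBall_zero_iff.2 ((mul_lt_iff_lt_one_right (h0 p.1)).1 h1).le

end FC

end Pool.Agent.PWV
end
end

-- part Pool.Agent.P.MP_65ad7c_ag.VWLP
section

open Set Filter Topology Metric

noncomputable section
namespace Pool.Agent.PWV

variable {X : Cx} {N : ℕ}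

namespace FC

theorem vwlp_push (Q : FC X (Fin N → ℂ)) {M : ℕ} (f : Fin M → MvPolynomial (Fin N) ℂ)
    (h : MvPolynomial (Fin N) ℂ) {A : Set (Fin M → ℂ)} (hA : IsOpen A) :
    (Q.pushR f h).ZT A = Q.ZT {x | MvPolynomial.eval x h ≠ 0 ∧ ratm f h x ∈ A} := by
  unfold pushR
  rw [map_ZT_open _ _ hA, comap_ZT]
  congr 1
  ext x
  constructor
  · rintro ⟨y, hy, rfl⟩
    exact ⟨y.2, hy⟩
  · rintro ⟨h1, h2⟩
    exact ⟨⟨x, h1⟩, h2, rfl⟩

theorem vwlp_mono (c : Fin (N + 1) → ℂ) : Monotone fun k : ℕ => Far c (1 / ((k : ℝ) + 1)) :=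
  fun k l hkl => Far_anti c (one_div_le_one_div_of_le (by positivity)
    (by have : (k : ℝ) ≤ l := by exact_mod_cast hkl
        linarith))

theorem vwlp_cut {T : Type} [TopologicalSpace T] (Q : FC X T) {n : ℤ} {O O' : Set T}
    (hO : IsOpen O) (hO' : IsOpen O') {w : X.V n} (hw : w ∈ Q.ZT (O ∩ O') n) :
    ∃ u ∈ Q.ZT O' n, ∀ x ∈ O, u - w ∈ Q.z n x := by
  obtain ⟨h1, h2⟩ := mem_ZT.1 hw
  obtain ⟨u, hu, hu'⟩ := Q.glue n Bool (fun i => cond i O O') (fun i => cond i w 0)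
    (fun i => by cases i <;> assumption) (fun i => by cases i; exacts [zero_mem _, h1]) (by
      rintro (_ | _) (_ | _) x hx
      · simp
      · simpa using h2 x ⟨hx.2, hx.1⟩
      · simpa using h2 x hx
      · simp)
  exact ⟨u, mem_ZT.2 ⟨hu, fun x hx => by simpa using hu' false x hx⟩, hu' true⟩

theorem wlp_all (Q : FC X (Fin N → ℂ)) {b : ℤ} (hQ : GW Q b) {a : ℕ}
    (c : Fin (a + 1) → Fin (N + 1) → ℂ) {j : ℤ} (hj : j + 1 < b) :
    X.ExS j (Q.ZT univ) (Q.Cf fun k => ⋂ i, Far (c i) (1 / ((k : ℝ) + 1))) := by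
  obtain ⟨M, f, h, g, t, W, hW, h1, h2, hF⟩ := exists_kappa c
  have hcs := cs_iff.1 (cs M _ b (gwt Q hQ f h g t hW h1 h2) j hj)
  have hm : Monotone fun k : ℕ => ⋂ i, Far (c i) (1 / ((k : ℝ) + 1)) :=
    fun k l hkl => iInter_mono fun i => vwlp_mono (c i) hkl
  have hΦ : ∀ (k : ℕ) x, x ∈ ⋂ i, Far (c i) (1 / ((k : ℝ) + 1)) ↔
      MvPolynomial.eval x h ≠ 0 ∧ ratm f h x ∈ closedBall 0 ((k : ℝ) + 1) := by
    intro k x
    rw [hF _ (by positivity), one_div, inv_inv, mem_closedBall_zero_iff]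
  intro v hv hd
  obtain ⟨k, hk⟩ := (mem_Cf hm).1 hv
  obtain ⟨K, hK, w, hw, hvw⟩ := hcs (closedBall 0 ((k : ℝ) + 1)) (isCompact_closedBall _ _) v
    (by
      rw [vwlp_push _ _ _ isClosed_closedBall.isOpen_compl]
      exact ZT_anti (fun x hx hx' => hx.2 ((hΦ k x).1 hx').2) _ hk)
    (by
      rw [vwlp_push _ _ _ isOpen_univ]
      exact ZT_anti (subset_univ _) _ hd)
  rw [vwlp_push _ _ _ hK.isClosed.isOpen_compl] at hw
  rw [vwlp_push _ _ _ isOpen_univ] at hvw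
  obtain ⟨r, hr⟩ := hK.isBounded.subset_closedBall 0
  obtain ⟨l, hl⟩ := exists_nat_ge r
  have hO : IsOpen {x : Fin N → ℂ | MvPolynomial.eval x h ≠ 0} :=
    isOpen_ne_fun (MvPolynomial.continuous_eval h) continuous_const
  have hO' : IsOpen (⋂ i, Far (c i) (1 / ((l : ℝ) + 1)))ᶜ :=
    (isClosed_iInter fun i => isClosed_Far _ _).isOpen_compl
  obtain ⟨u, hu, hu'⟩ := vwlp_cut Q hO hO' (w := w) (by
    refine ZT_anti ?_ _ hw
    exact fun x hx => ⟨hx.1, fun hx' =>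
      hx.2 ((hΦ l x).2 ⟨hx.1, closedBall_subset_closedBall (by linarith) (hr hx')⟩)⟩)
  refine ⟨u, (mem_Cf hm).2 ⟨l, hu⟩, mem_ZT.2 ⟨sub_mem (mem_ZT.1 hk).1
    (Q.d_top _ _ (mem_ZT.1 hu).1), fun x _ => ?_⟩⟩
  by_cases hx : MvPolynomial.eval x h = 0
  · exact sub_mem ((mem_ZT.1 hk).2 x fun hx' => ((hΦ k x).1 hx').1 hx)
      (Q.d_z x _ _ ((mem_ZT.1 hu).2 x fun hx' => ((hΦ l x).1 hx').1 hx))
  · have := sub_mem ((mem_ZT.1 hvw).2 x ⟨hx, trivial⟩) (Q.d_z x _ _ (hu' x hx))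
    have e : v - X.d j u = v - X.d j w - X.d j (u - w) := by rw [map_sub]; abel
    rwa [e]

/-- Weak Lefschetz for projective germs. -/
theorem wlpF (Q : FC X (Fin N → ℂ)) {b : ℤ} (hQ : GW Q b) {a : ℕ} (c : Fin a → Fin (N + 1) → ℂ)
    {j : ℤ} (hj : j + 1 + a ≤ b) {ε : ℝ} (hε : 0 < ε) {v : X.V (j + 1)}
    (hv : v ∈ Q.ZT (⋃ i, Far (c i) ε)ᶜ (j + 1)) (hd : X.d (j + 1) v ∈ Q.ZT univ (j + 1 + 1)) :
    ∃ ε' > 0, Q.Good j v univ (⋃ i, Far (c i) ε')ᶜ := by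
  have h := mv_fam (Q := Q) (fun i (k : ℕ) => Far (c i) (1 / ((k : ℝ) + 1)))
    (fun i k => isClosed_Far _ _) (fun i => vwlp_mono (c i)) (b := b) (fun J hJ j hj => by
      obtain ⟨m, hm⟩ : ∃ m, J.card = m + 1 := ⟨J.card - 1, by have := hJ.card_pos; omega⟩
      have e : (fun k : ℕ => ⋂ i ∈ J, Far (c i) (1 / ((k : ℝ) + 1))) =
          fun k : ℕ => ⋂ i, Far (c (J.orderEmbOfFin hm i)) (1 / ((k : ℝ) + 1)) := by
        funext k
        ext x
        simp only [mem_iInter]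
        refine ⟨fun h i => h _ (J.orderEmbOfFin_mem hm i), fun h i hi => ?_⟩
        have : i ∈ range (J.orderEmbOfFin hm) := by rw [J.range_orderEmbOfFin]; exact hi
        obtain ⟨i', rfl⟩ := this
        exact h i'
      rw [e]
      exact wlp_all Q hQ (fun i => c (J.orderEmbOfFin hm i)) hj) Finset.univ j (by simpa using hj)
  simp only [Finset.mem_univ, iUnion_true] at h
  have hm : Monotone fun k : ℕ => ⋃ i, Far (c i) (1 / ((k : ℝ) + 1)) :=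
    fun k l hkl => iUnion_mono fun i => vwlp_mono (c i) hkl
  obtain ⟨k, hk⟩ := exists_nat_one_div_lt hε
  obtain ⟨w, hw, hvw⟩ := h v ((mem_Cf hm).2 ⟨k, ZT_anti (compl_subset_compl.2
    (iUnion_mono fun i => Far_anti (c i) hk.le)) _ hv⟩) hd
  obtain ⟨l, hl⟩ := (mem_Cf hm).1 hw
  exact ⟨1 / ((l : ℝ) + 1), by positivity, w, hl, hvw⟩

end FC

end Pool.Agent.PWV
end
end

-- part Pool.Agent.P.MP_65ad7c_ag.DVI
section

/-! Block V (vanishing theorems). -/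

open Set TopologicalSpace

noncomputable section
namespace Pool.Agent.PWD

variable {R : Type} [CommRing R] [Algebra ℂ R] {Y : Set (R → ℂ)}

/-- homogeneous coordinates -/
def vecf {N : ℕ} (f : Fin N → R) (y : Y) : Fin (N + 1) → ℂ := Fin.cons 1 fun j => y.1 (f j)

omit [CommRing R] [Algebra ℂ R] in
theorem Data.vec_eq {a : ℕ} (Q : Data Y a) (y : Y) : Q.vec y = vecf Q.f y := rfl

/-- projective neighbourhood of a linear section -/
def PN {N a : ℕ} (f : Fin N → R) (c : Fin a → Fin (N + 1) → ℂ) (ε : ℝ) : Set Y :=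
  {y | ∀ i, ‖c i ⬝ᵥ vecf f y‖ < ε * ‖vecf f y‖}

variable {N d : ℕ} {f : Fin N → R} {U : ℕ → Opens Y} {I : Cx Y} {one : Sec I 0 (U 1)}

open PWV

omit [CommRing R] [Algebra ℂ R] in
theorem dv_far {a : ℕ} (c : Fin a → Fin (N + 1) → ℂ) (ε : ℝ) (y : Y) :
    emb f y ∈ (⋃ i, Far (c i) ε)ᶜ ↔ y ∈ PN f c ε := by
  simp only [mem_compl_iff, mem_iUnion, not_exists, Far, mem_ofPred_eq, not_le]
  rfl

theorem dv_nat (j : ℕ) : ∃ n : ℤ, 0 ≤ n + 1 ∧ j = (n + 1).toNat := ⟨j - 1, by omega, by omega⟩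

omit [CommRing R] [Algebra ℂ R] in
theorem dv_closed {n : ℤ} (hn : 0 ≤ n + 1) {O : Opens Y} {v : Sec I (n + 1).toNat ⊤}
    (h : dd (n + 1).toNat ((n + 1).toNat + 1) (rs (le_top : O ≤ ⊤) v) = 0) {y : Y} (hy : y ∈ O) :
    (cxI I).d (n + 1) v ∈ zI I (n + 1 + 1).toNat y := by
  rw [dd_cast (k' := (n + 1 + 1).toNat) (by omega), ← vf_rs_dd] at h
  exact ⟨O, hy, h⟩

/-- from germs along a subset to sections over an open neighbourhood -/
theorem dv_near (hY : IsVar Y) (hf : Algebra.adjoin ℂ (range f) = ⊤) (hI : IsIC U I one)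
    {A B : Set Y} {j : ℕ} (h : (icQ f hI).Ex (j - 1) (emb f '' A) (emb f '' B)) {O : Opens Y}
    (hO : A ⊆ O) (hB : B ⊆ A) {s : Sec I j O} (hs : Coc Bᶜ s) :
    ∃ (O' : Opens Y) (h : O' ≤ O) (k : ℕ) (t : Sec I k O'), A ⊆ O' ∧ Supp Bᶜ t ∧
      dd k j t = rs h s := by
  obtain ⟨n, hn, rfl⟩ := dv_nat j
  rw [show (((n + 1).toNat : ℕ) : ℤ) - 1 = n by omega] at h
  have he := ic_emb hY hf
  obtain ⟨v, rfl⟩ := vf_flabby (hI.inj _) s
  obtain ⟨w, hw, hd⟩ := h v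
    ((q_ZT hI.inj he hn).2 fun y hy => supp_rs.1 hs.1 y (hO (hB (he.injective.mem_set_image.1 hy)))
      (not_not.2 (he.injective.mem_set_image.1 hy)))
    ((q_ZT hI.inj he (by omega)).2 fun y hy =>
      dv_closed hn hs.2 (hO (he.injective.mem_set_image.1 hy)))
  let O₁ : Opens Y := ⟨_, (fcI hI.inj).opn (n + 1) (v - (cxI I).d n w)⟩
  refine ⟨O ⊓ O₁, inf_le_left, n.toNat, rs le_top w,
    fun y hy => ⟨hO hy, (q_Z hI.inj he).1 hd.2 y ⟨y, hy, rfl⟩⟩,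
    supp_rs.2 fun y _ hy => (q_Z hI.inj he).1 hw.2 y ⟨y, not_not.1 hy, rfl⟩, ?_⟩
  rw [vf_rs_rs, ← vf_rs_dd, eq_comm, ← sub_eq_zero, ← map_sub]
  exact rs_eq_zero fun y hy => hy.2

/-- WLP: weak Lefschetz for projective germs of an arbitrary linear section -/
theorem wlp (hY : IsVar Y) (hf : Algebra.adjoin ℂ (range f) = ⊤) (hU : IsStrat d U)
    (hI : IsIC U I one) {a j : ℕ} (c : Fin a → Fin (N + 1) → ℂ) (hj : j + a ≤ d + 1) {ε : ℝ}
    (hε : 0 < ε) {s : Sec I j ⊤} (hs : Coc ((U 1 : Set Y)ᶜ ∩ (PN f c ε)ᶜ) s) :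
    ∃ ε' > 0, ∃ (k : ℕ) (t : Sec I k ⊤), Supp ((U 1 : Set Y)ᶜ ∩ (PN f c ε')ᶜ) t ∧ dd k j t = s := by
  obtain ⟨n, hn, rfl⟩ := dv_nat j
  have he := ic_emb hY hf
  have hC : IsClosed (U 1 : Set Y)ᶜ := (U 1).2.isClosed_compl
  have h1 := supp_top.1 hs.1
  have h2 : ∀ y, (cxI I).d (n + 1) s ∈ zI I (n + 1 + 1).toNat y := fun y =>
    dv_closed (O := ⊤) hn (by rw [vf_rs_self]; exact hs.2) trivial
  obtain ⟨ε', hε', w, hw, hd⟩ := FC.wlpF _ (ic_gw hY hf hU hI) c (j := n) (by omega) hε (v := s)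
    ((qg_ZT hI.inj he hC hn).2 ⟨fun y hy => h1 y fun h => hy h.1,
      fun y hy => h1 y fun h => h.2 ((dv_far c ε y).1 hy)⟩)
    ((qg_ZT hI.inj he hC (by omega)).2 ⟨fun y _ => h2 y, fun y _ => h2 y⟩)
  refine ⟨ε', hε', n.toNat, w, supp_top.2 fun y hy => (qz_emb hI.inj he).1 ?_, ?_⟩
  · by_cases h : y ∈ (U 1 : Set Y)ᶜ
    · exact (FC.mem_ZT.1 hw).2 _ ((dv_far c ε' y).2 (not_not.1 fun h' => hy ⟨h, h'⟩))
    · exact FC.supp_gam _ (he.isClosedMap _ hC) n w hw.1 _ (he.injective.mem_set_image.not.2 h)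
  · have := rs_eq_zero (W := ⊤) fun y _ => ((qg_ZT hI.inj he hC hn).1 hd).2 y trivial
    rw [vf_rs_self, sub_eq_zero] at this
    exact this.symm

/-- AV1: `H^j(H, H ∩ Σ) = 0` for `j ≥ m`, germs along an algebraic subset of dimension `< m` -/
theorem av1 (hY : IsVar Y) (hf : Algebra.adjoin ℂ (range f) = ⊤) (hU : IsStrat d U)
    (hI : IsIC U I one) {H : Set Y} (hH : ∃ T : Set R, ∀ y, y ∈ H ↔ ∀ g ∈ T, y.1 g = 0) {m j : ℕ}
    (hd : ∀ e, DimLT ((U e : Set Y)ᶜ ∩ H) (m - e)) (hj : m ≤ j) {O : Opens Y} (hO : H ⊆ O)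
    {s : Sec I j O} (hs : Coc (H \ U 1)ᶜ s) :
    ∃ (O' : Opens Y) (h : O' ≤ O) (k : ℕ) (t : Sec I k O'), H ⊆ O' ∧ Supp (H \ U 1)ᶜ t ∧
      dd k j t = rs h s := by
  refine dv_near hY hf hI ?_ hO sdiff_subset hs
  rw [show (j : ℤ) - 1 = j - 2 + 1 by ring]
  exact FC.Ex.left (image_mono sdiff_subset) (empty_subset _) (ic_av hY hf hU hI hH hd (by omega))
    (ic_av' hY hf hU hI hH hd (by omega))

/-- AV2: `H^j(H ∩ Σ, I) = 0` for `j ≥ m - 1` -/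
theorem av2 (hY : IsVar Y) (hf : Algebra.adjoin ℂ (range f) = ⊤) (hU : IsStrat d U)
    (hI : IsIC U I one) {H : Set Y} (hH : ∃ T : Set R, ∀ y, y ∈ H ↔ ∀ g ∈ T, y.1 g = 0) {m j : ℕ}
    (hd : ∀ e, DimLT ((U e : Set Y)ᶜ ∩ H) (m - e)) (hj : m ≤ j + 1) {O : Opens Y}
    (hO : H \ U 1 ⊆ O) {s : Sec I j O} (hs : dd j (j + 1) s = 0) :
    ∃ (O' : Opens Y) (h : O' ≤ O) (k : ℕ) (t : Sec I k O'), H \ U 1 ⊆ O' ∧ dd k j t = rs h s := by
  obtain ⟨O', h, k, t, h1, -, h2⟩ := dv_near (B := ∅) hY hf hI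
    (by rw [image_empty]; exact ic_av' hY hf hU hI hH hd (by omega)) hO (empty_subset _)
    ⟨fun y _ hy => (hy (by simp)).elim, hs⟩
  exact ⟨O', h, k, t, h1, h2⟩

/-- AV3: `IH^j(Y) = 0` for `j > d` -/
theorem av3 (hY : IsVar Y) (hf : Algebra.adjoin ℂ (range f) = ⊤) (hU : IsStrat d U)
    (hI : IsIC U I one) {j : ℕ} (hj : d < j) {s : Sec I j ⊤} (hs : dd j (j + 1) s = 0) :
    ∃ (k : ℕ) (t : Sec I k ⊤), dd k j t = s := by
  obtain ⟨O', h, k, t, h1, -, h2⟩ := dv_near (A := univ) (B := ∅) (O := ⊤) hY hf hI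
    (by
      rw [image_empty]
      exact ic_av (m := d + 1) hY hf hU hI ⟨∅, by simp⟩
        (fun e => by rw [inter_univ]; exact hU.dim e) (by push_cast; omega))
    subset_rfl (empty_subset _) ⟨fun y _ hy => (hy (by simp)).elim, hs⟩
  obtain rfl : O' = ⊤ := top_le_iff.1 h1
  exact ⟨k, t, h2.trans (vf_rs_self s)⟩

end Pool.Agent.PWD
end
end
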