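import Pool.Agent.K.MP_65ad7c_ag.C8
import Pool.Agent.P.MP_65ad7c_ag.SIso
import Pool.Agent.K.MP_65ad7c_ag.C0

-- part Pool.Agent.P.MP_65ad7c_ag.DTV
section

/-! Isotopy invariance for the textbook axioms. -/

open Set Filter Topology TopologicalSpace Pool.Agent.PW.S

set_option backward.isDefEq.respectTransparency false

noncomputable section
namespace Pool.Agent.PWD.TI

variable {Y : Type} [TopologicalSpace Y]
  {d : ℕ} {U : ℕ → Opens Y} {I : Cx Y} {one : (I.X 0).obj (U 1)}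

/-- the homeomorphism at time `t` -/
def timeH (Φ Φ' : C(Y × unitInterval, Y)) (h1 : ∀ y t, Φ' (Φ (y, t), t) = y)
    (h2 : ∀ y t, Φ (Φ' (y, t), t) = y) (t : unitInterval) : Y ≃ₜ Y where
  toFun y := Φ (y, t)
  invFun y := Φ' (y, t)
  left_inv y := h1 y t
  right_inv y := h2 y t
  continuous_toFun := by fun_prop
  continuous_invFun := by fun_prop

/-- a map `I → s_* I` with `one ↦ ε one` where both are defined acts on cohomology as `ε` -/
theorem SX.iso (h : SX d U I one) (Φ Φ' : C(Y × unitInterval, Y)) (h0 : ∀ y, Φ (y, 0) = y)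
    (h1 : ∀ y t, Φ' (Φ (y, t), t) = y) (h2 : ∀ y t, Φ (Φ' (y, t), t) = y) (s : C(Y, Y))
    (hs : ∀ y, s y = Φ (y, 1)) (g : CMap I (I.push s)) (ε : ℂ)
    (hg : ∀ (W : Opens Y) (l : W ≤ U 1) (l' : pre s W ≤ U 1),
      (g.f 0).app W ((I.X 0).res l one) = ε • (I.X 0).res l' one)
    (n : ℕ) (z : (I.X n).obj ⊤) (hz : (I.d n).app ⊤ z = 0) :
    (show (I.X n).obj ⊤ from (g.f n).app ⊤ z) - ε • z ∈ I.Bd n ⊤ := by
  obtain ⟨σ, rfl⟩ : ∃ σ : Y ≃ₜ Y, s = (σ : C(Y, Y)) :=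
    ⟨timeH Φ Φ' h1 h2 1, ContinuousMap.ext hs⟩
  obtain ⟨one', hc, he⟩ := h.exists_sat
  have hs0 : pre (σ : C(Y, Y)) (sat (U 1)) ≤ sat (U 1) := fun x hx => (sat_inv σ).1 hx
  refine iso_main (U := realF fun c => sat (U c)) (one := one') hc.toAX.1 hc.toAX.2.1
    hc.toAX.2.2 Φ Φ' h0 h1 h2 (fun k y t => sat_inv (timeH Φ Φ' h1 h2 t)) _ hs hs0 g ε ?_ n z hz
  show (g.f 0).app (sat (U 1)) one' = ε • (I.X 0).res hs0 one'
  have h' := h.push σ
  have c2 := h'.cax_inf (V := fun c => U c ⊓ img σ (U c)) h.mono h.top' h.ld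
    (fun _ => inf_comm _ _) inf_le_right
  refine sub_eq_zero.1 (c2.eq_zero (W := sat (U 1)) ?_ ?_)
  · rw [map_sub, g.map_cocycle hc.closed, zero_sub, neg_eq_zero]
    show (I.d 0).app _ (ε • (I.X 0).res hs0 one') = 0
    rw [map_smul, I.res_cocycle hs0 hc.closed, smul_zero]
  · have l : sat (U 1) ⊓ (U 1 ⊓ img σ (U 1)) ≤ U 1 := inf_le_right.trans inf_le_left
    have l' : pre (σ : C(Y, Y)) (sat (U 1) ⊓ (U 1 ⊓ img σ (U 1))) ≤ U 1 :=
      (pre_mono _ (inf_le_right.trans inf_le_right)).trans (pre_img_le σ _)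
    have e := hg _ l l'
    rw [← he, PS.res_res, PS.res_res] at e
    rw [map_sub, (g.f 0).nat, sub_eq_zero]
    refine e.trans ?_
    show _ = (I.X 0).res (pre_mono _ inf_le_left) (ε • (I.X 0).res hs0 one')
    rw [map_smul, PS.res_res]

/-- the canonical map `I → s_* I` -/
theorem SX.theta (h : SX d U I one) (Φ Φ' : C(Y × unitInterval, Y)) (h0 : ∀ y, Φ (y, 0) = y)
    (h1 : ∀ y t, Φ' (Φ (y, t), t) = y) (h2 : ∀ y t, Φ (Φ' (y, t), t) = y) (s : C(Y, Y))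
    (hs : ∀ y, s y = Φ (y, 1)) : ∃ g : CMap I (I.push s),
      (∀ (W : Opens Y) (l : W ≤ U 1) (l' : pre s W ≤ U 1),
        (g.f 0).app W ((I.X 0).res l one) = (I.X 0).res l' one) ∧
      ∀ (n : ℕ) (z : (I.X n).obj ⊤), (I.d n).app ⊤ z = 0 →
        (show (I.X n).obj ⊤ from (g.f n).app ⊤ z) - z ∈ I.Bd n ⊤ := by
  obtain ⟨σ, rfl⟩ : ∃ σ : Y ≃ₜ Y, s = (σ : C(Y, Y)) :=
    ⟨timeH Φ Φ' h1 h2 1, ContinuousMap.ext hs⟩
  obtain ⟨b, a, -, he⟩ := (h.push σ).heq h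
  have key : ∀ (W : Opens Y) (l : W ≤ U 1) (l' : pre (σ : C(Y, Y)) W ≤ U 1),
      (a.f 0).app W ((I.X 0).res l one) = (I.X 0).res l' one := by
    intro W l l'
    have l2 : W ≤ img σ (U 1) ⊓ U 1 := le_inf (fun x hx => l' (by simpa using hx)) l
    have e := congrArg (((I.push (σ : C(Y, Y))).X 0).res l2) he
    rw [PS.res_res, PS.res_res, (a.f 0).nat] at e
    refine e.trans ?_
    exact (I.X 0).res_res _ _ _
  refine ⟨a, key, fun n z hz => ?_⟩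
  simpa using h.iso Φ Φ' h0 h1 h2 _ hs a 1 (fun W l l' => by rw [key W l l', one_smul]) n z hz

end Pool.Agent.PWD.TI
end
end

-- part Pool.Agent.P.MP_65ad7c_ag.ZBase
section

open MeasureTheory Set Filter Topology Metric Matrix
open scoped ComplexOrder ContDiff Matrix.Norms.Frobenius RealInnerProductSpace ENNReal
open Pool.Agent.Lib.Sob

noncomputable section
namespace Pool.Agent.PW

variable {E : Type} [NormedAddCommGroup E] [InnerProductSpace ℝ E] [FiniteDimensional ℝ E]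
  [MeasurableSpace E] [BorelSpace E] {r : ℕ} {U : Set E} {Γ : Type} [Group Γ]
  {V : Type} [NormedAddCommGroup V] [NormedSpace ℝ V]

/-- semisimple representation -/
def SSimple (ρ : Γ →* Mat r) : Prop :=
  ∀ W : Submodule ℂ (Fin r → ℂ), (∀ γ, ∀ v ∈ W, ρ γ *ᵥ v ∈ W) →
    ∃ W' : Submodule ℂ (Fin r → ℂ), (∀ γ, ∀ v ∈ W', ρ γ *ᵥ v ∈ W') ∧ IsCompl W W'

/-- `ρ' = u⁻¹ ρ u` -/
def Cj (u u' : Mat r) (ρ ρ' : Γ →* Mat r) : Prop := u * u' = 1 ∧ ∀ γ, ρ' γ = u' * ρ γ * u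

/-- block diagonal matrix -/
def bdiag {s t : ℕ} (e : Fin s ⊕ Fin t ≃ Fin r) (X : Mat s) (Y : Mat t) : Mat r :=
  Matrix.reindex e e (Matrix.fromBlocks X 0 0 Y)

/-- energy bound in every chart -/
def Atlas.EB (A : Atlas E Γ) (M : ℝ) (h : A.ι → E → Mat r) (D : A.ι → E → E →L[ℝ] Mat r) : Prop :=
  ∀ a, ∫⁻ x in ball (0 : E) 6, ENNReal.ofReal (en (A.α a x) (h a x) (D a x)) ≤ ENNReal.ofReal M

/-- there is a harmonic metric of energy at most `M` -/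
def Atlas.HasHM (A : Atlas E Γ) (M : ℝ) (ρ : Γ →* Mat r) : Prop :=
  ∃ C h D, 1 ≤ C ∧ A.HM ρ C h D ∧ A.EB M h D

end Pool.Agent.PW
end
end
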