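import Pool.Agent.K.MP_65ad7c_ag.C41
import Pool.Agent.K.MP_65ad7c_ag.C39
import Pool.Agent.P.MP_65ad7c_ag.SBrI
import Pool.Agent.K.MP_65ad7c_ag.C9
import Pool.Agent.P.MP_65ad7c_ag.DS0

-- part Pool.Agent.P.MP_65ad7c_ag.DTI
section

/-! Block TI (invariance under the flow). -/

open Set TopologicalSpace

set_option backward.isDefEq.respectTransparency false

noncomputable section
namespace Pool.Agent.PWD

section conv
variable {Y : Type} [TopologicalSpace Y] {I : Cx Y} {n : ℕ} {W : Opens Y}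

/-- the elementary complex -/
def tiCx (I : Cx Y) : PW.S.Cx Y where
  X n := PW.S.toPS (I.X n).obj
  d n := ⟨fun _ => dd n (n + 1), fun h s => vf_rs_dd h n (n + 1) s⟩
  dd n _ s := vf_dd_dd n (n + 1) (n + 1 + 1) s

theorem ti_bd {s : Sec I n W} :
    s ∈ (tiCx I).Bd n W ↔ ∃ (k : ℕ) (t : Sec I k W), dd k n t = s := by
  constructor
  · intro h
    cases n with
    | zero => exact ⟨0, 0, (map_zero _).trans (Submodule.mem_bot ℂ |>.1 h).symm⟩
    | succ n =>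
      obtain ⟨t, ht⟩ := h
      exact ⟨n, t, ht⟩
  · rintro ⟨k, t, rfl⟩
    by_cases hk : k + 1 = n
    · subst hk
      exact ⟨t, rfl⟩
    · rw [vf_dd_ne hk]
      exact Submodule.zero_mem _

theorem ti_supp {O : Opens Y} {s : Sec I n W} :
    Supp (O : Set Y)ᶜ s ↔ rs (inf_le_left : W ⊓ O ≤ W) s = 0 := by
  constructor
  · intro h
    refine vf_sep _ fun y hy => ?_
    obtain ⟨W', h', hy', e⟩ := h y hy.1 (fun hc => hc hy.2)
    refine ⟨W' ⊓ O, inf_le_inf_right O h', ⟨hy', hy.2⟩, ?_⟩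
    rw [vf_rs_rs, ← vf_rs_rs h' (inf_le_left : W' ⊓ O ≤ W'), e, map_zero]
  · intro h y hy hc
    exact ⟨W ⊓ O, inf_le_left, ⟨hy, not_not.1 hc⟩, h⟩

theorem ti_cob_univ {y : Y} {s : Sec I n W} : Cob univ y s ↔ (tiCx I).LocBd y (n := n) s := by
  constructor
  · rintro ⟨W', h, k, t, hy, -, e⟩
    exact ⟨W', h, hy, ti_bd.2 ⟨k, t, e⟩⟩
  · rintro ⟨W', h, hy, e⟩
    obtain ⟨k, t, e⟩ := ti_bd.1 e
    exact ⟨W', h, k, t, hy, fun _ _ hc => (hc trivial).elim, e⟩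

theorem ti_cob {O : Opens Y} {y : Y} {s : (((tiCx I).gam O).X n).obj W} :
    Cob (I := I) (n := n) (W := W) (O : Set Y)ᶜ y s.1 ↔ ((tiCx I).gam O).LocBd y s := by
  constructor
  · rintro ⟨W', h, k, t, hy, ht, e⟩
    refine ⟨W', h, hy, ?_⟩
    by_cases hk : k + 1 = n
    · subst hk
      exact ⟨⟨t, ti_supp.1 ht⟩, Subtype.ext e⟩
    · rw [vf_dd_ne hk] at e
      have : (((tiCx I).gam O).X n).res h s = 0 := Subtype.ext e.symm
      rw [this]
      exact Submodule.zero_mem _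
  · rintro ⟨W', h, hy, e⟩
    cases n with
    | zero =>
      have e' : rs (I := I) (n := 0) h s.1 = 0 :=
        congrArg Subtype.val (Submodule.mem_bot ℂ |>.1 e)
      exact ⟨W', h, 0, 0, hy, ti_supp.2 (map_zero _), (map_zero _).trans e'.symm⟩
    | succ n =>
      obtain ⟨t, ht⟩ := e
      exact ⟨W', h, n, t.1, hy, ti_supp.2 t.2, congrArg Subtype.val ht⟩

theorem ti_lc {O : Opens Y} {S : Set Y} (h : LC I (O : Set Y)ᶜ S n) :
    TI.LCon ((tiCx I).gam O) S n := by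
  intro x hx
  obtain ⟨W, B, hW, hB, h⟩ := h x hx
  refine ⟨W, B.comap (Submodule.subtype _), hW, fun b hb => Subtype.ext (hB _ hb).2,
    fun y hy hyW => ⟨fun b hb e => Subtype.ext ((h y hy hyW).1 _ hb (ti_cob.2 e)),
      fun W' l s hy' hs => ?_⟩⟩
  obtain ⟨b, hb, e⟩ := (h y hy hyW).2 W' l s.1 hy' ⟨ti_supp.2 s.2, congrArg Subtype.val hs⟩
  exact ⟨⟨b, ti_supp.1 (hB b hb).1⟩, hb, ti_cob.1 e⟩

theorem ti_cax {U : ℕ → Opens Y} {one : Sec I 0 (U 1)} (hm : Monotone U) (ht : ∃ m, U m = ⊤)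
    (hI : IsIC U I one) : TI.CAX U (tiCx I) one where
  mono := hm
  top := ht
  inj n := PW.S.inj_of_injective (I.X n).obj (I.X n).property (hI.inj n)
  closed := hI.closed
  ne V h hV e := by
    obtain ⟨y, hy⟩ : (V : Set Y).Nonempty := by
      rw [Set.nonempty_iff_ne_empty]
      exact fun hc => hV (Opens.coe_eq_empty.1 hc)
    exact hI.ne y (h hy) ⟨V, h, 0, 0, hy, fun _ _ hc => (hc trivial).elim,
      (map_zero _).trans (Eq.symm e)⟩
  gen x V h hx c hc := by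
    obtain ⟨a, ha⟩ := hI.norm V h c ⟨fun _ _ hc => (hc trivial).elim, hc⟩ x hx
    obtain ⟨W, l, hW, e⟩ := ti_cob_univ.1 ha
    refine ⟨W, l, a, hW, sub_eq_zero.1 ?_⟩
    have e' : rs (I := I) (n := 0) l ((show Sec I 0 V from c) - a • rs h one) = 0 :=
      Submodule.mem_bot ℂ |>.1 e
    rw [map_sub, map_smul, vf_rs_rs] at e'
    exact e'
  supp c x hx n h0 hn V hV s hs :=
    ti_cob_univ.1 (hI.supp c n V s h0 hn ⟨fun _ _ hc => (hc trivial).elim, hs⟩ x hV hx)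
  cosupp c h0 x hx n hn V hV s hs :=
    ti_cob.1 (hI.cosupp c n V s.1 h0 hn ⟨ti_supp.2 s.2, congrArg Subtype.val hs⟩ x hV hx)

end conv

variable {R : Type} [CommRing R] [Algebra ℂ R] {Y : Set (R → ℂ)}
  {N d : ℕ} {f : Fin N → R} {U : ℕ → Opens Y} {I : Cx Y} {one : Sec I 0 (U 1)}

omit [CommRing R] [Algebra ℂ R] in
theorem IsStrat.top (hU : IsStrat d U) : U (d + 1) = ⊤ := by
  have h := hU.dim (d + 1)
  rw [Nat.sub_self] at h
  obtain ⟨p, hp, h⟩ := h Fin.elim0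
  refine top_le_iff.1 fun y _ => by_contra fun hy => hp ?_
  have e := h y hy
  rw [MvPolynomial.eq_C_of_isEmpty p] at e ⊢
  rw [MvPolynomial.eval_C] at e
  rw [e, map_zero]

omit [CommRing R] [Algebra ℂ R] in
theorem ti_sx (hU : IsStrat d U) (hI : IsIC U I one) : TI.SX d U (tiCx I) one where
  toCAX := ti_cax hU.mono ⟨_, hU.top⟩ hI
  zero := hU.zero
  top' := hU.top
  chart c x hx := by
    obtain ⟨T, hT⟩ := hU.chart c
    obtain ⟨g, W, -, hW, h⟩ := hT x hx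
    exact ⟨W, _, hW, h⟩
  lc c n := ti_lc (hI.lc c n).2

/-- a chain map `I → s_* I` that fixes `one` and acts trivially on `IH` -/
structure IsTheta (one : Sec I 0 (U 1)) (s : C(Y, Y))
    (θ : ∀ n W, Sec I n W →ₗ[ℂ] Sec I n (Opens.comap s W)) : Prop where
  res : ∀ n (W W' : Opens Y) (h : W' ≤ W) x,
    rs (Opens.comap_mono s h) (θ n W x) = θ n W' (rs h x)
  d : ∀ k n W x, dd k n (θ k W x) = θ n W (dd k n x)
  one : ∀ h : Opens.comap s (U 1) ≤ U 1, θ 0 (U 1) one = rs h one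
  triv : ∀ n (α : Sec I n ⊤), dd n (n + 1) α = 0 →
    ∃ (k : ℕ) (t : Sec I k (Opens.comap s ⊤)), θ n ⊤ α - rs le_top α = dd k n t

theorem exists_theta (hY : IsVar Y) (hf : Algebra.adjoin ℂ (range f) = ⊤) (hU : IsStrat d U)
    (hI : IsIC U I one) (Φ Φ' : C(Y × unitInterval, Y)) (h0 : ∀ y, Φ (y, 0) = y)
    (h1 : ∀ y t, Φ' (Φ (y, t), t) = y) (h2 : ∀ y t, Φ (Φ' (y, t), t) = y) (s : C(Y, Y))
    (hs : ∀ y, s y = Φ (y, 1)) (hsU : ∀ y, s y ∈ U 1 ↔ y ∈ U 1) :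
    ∃ θ, IsTheta one s θ := by
  have _ := hY
  have _ := hf
  have _ := hsU
  obtain ⟨g, hg, ht⟩ := (ti_sx hU hI).theta Φ Φ' h0 h1 h2 s hs
  refine ⟨fun n W => (g.f n).app W, fun n W W' h x => (g.f n).nat h x, fun k n W x => ?_,
    fun h => ?_, fun n α hα => ?_⟩
  · by_cases hk : k + 1 = n
    · subst hk
      exact g.comm k W x
    · rw [vf_dd_ne hk, vf_dd_ne hk, map_zero]
  · have e := hg (U 1) le_rfl h
    rw [PW.S.PS.res_self] at e
    exact e
  · obtain ⟨k, t, e⟩ := ti_bd.1 (ht n α hα)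
    refine ⟨k, t, Eq.trans ?_ e.symm⟩
    exact congrArg (fun z => (show Sec I n ⊤ from (g.f n).app ⊤ α) - z) (vf_rs_self α)

end Pool.Agent.PWD
end
end

-- part Pool.Agent.P.MP_65ad7c_ag.DY0
section

/-! An abstract de Rham complex extended by zero, with its map to `I`. -/

open Set TopologicalSpace

noncomputable section
namespace Pool.Agent.PWD

variable {Y : Type} [TopologicalSpace Y] {U : ℕ → Opens Y} {I : Cx Y}

/-- a soft resolution of the constant sheaf on `U 1`, extended by zero, with a map to `I` -/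
structure DR (one : Sec I 0 (U 1)) where
  A : ℕ → PSh ℂ Y
  d : ∀ n, Hom (A n) (A (n + 1))
  e : (A 0).obj (U 1)
  u : ∀ n W, (A n).obj W →ₗ[ℂ] Sec I n W
  d_d : ∀ n W x, (d (n + 1)).app W ((d n).app W x) = 0
  sh : ∀ n, (A n).IsSh
  soft : ∀ n, (⊤ : Sub (A n)).Soft
  zero : ∀ n W (x : (A n).obj W), ∀ y ∈ W, y ∉ U 1 → (⊥ : Sub (A n)).Near x y
  de : (d 0).app _ e = 0
  poin0 : ∀ (W : Opens Y) (h : W ≤ U 1) (x : (A 0).obj W), (d 0).app W x = 0 → ∀ y ∈ W,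
    ∃ c : ℂ, (⊥ : Sub (A 0)).Near (x - c • (A 0).res h e) y
  poin : ∀ n (W : Opens Y) (x : (A (n + 1)).obj W), (d (n + 1)).app W x = 0 → ∀ y ∈ W,
    (Sub.map (d n) ⊤).Near x y
  u_res : ∀ n (W W' : Opens Y) (h : W' ≤ W) x, rs h (u n W x) = u n W' ((A n).res h x)
  u_d : ∀ n W x, dd n (n + 1) (u n W x) = u (n + 1) W ((d n).app W x)
  u_e : u 0 _ e = one

namespace DR
variable {one : Sec I 0 (U 1)} (C : DR one) {n : ℕ} {W : Opens Y}

/-- `x` vanishes near the points of `B` -/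
def Van (B : Set Y) (x : (C.A n).obj W) : Prop := ∀ y ∈ W, y ∈ B → (⊥ : Sub (C.A n)).Near x y

/-- `x` is the differential of a section that vanishes near `B` -/
def Ex (B : Set Y) : {n : ℕ} → (C.A n).obj W → Prop
  | 0, x => x = 0
  | n + 1, x => ∃ z, C.Van B z ∧ (C.d n).app W z = x

/-- `u x` is cohomologous to `α` near `Z` -/
def Rel (Z : Set Y) (x : (C.A n).obj W) (α : Sec I n ⊤) : Prop :=
  ∃ (O : Opens Y) (h : O ≤ W) (k : ℕ) (t : Sec I k O), Z ⊆ O ∧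
    rs le_top α - C.u n O ((C.A n).res h x) = dd k n t

/-- a chain map `A → s_* A` that fixes the unit -/
structure IsSig (s : C(Y, Y)) (σ : ∀ n W, (C.A n).obj W →ₗ[ℂ] (C.A n).obj (Opens.comap s W)) :
    Prop where
  res : ∀ n (W W' : Opens Y) (h : W' ≤ W) x,
    (C.A n).res (Opens.comap_mono s h) (σ n W x) = σ n W' ((C.A n).res h x)
  d : ∀ n W x, (C.d n).app _ (σ n W x) = σ (n + 1) W ((C.d n).app W x)
  e : ∀ h : Opens.comap s (U 1) ≤ U 1, σ 0 _ C.e = (C.A 0).res h C.e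

end DR

end Pool.Agent.PWD
end
end
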