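import Mathlib

/-! Complexes of flabby sheaves, described by their global sections. -/

open Set Filter Topology

noncomputable section
namespace Pool.Agent.PWD.TI

/-- `V` is a group of sections, `G n` are those of degree `n`, `z x` those vanishing near `x`. -/
structure FC (T : Type) [TopologicalSpace T] (V : Type) [AddCommGroup V] where
  d : V →+ V
  G : ℤ → AddSubgroup V
  z : T → AddSubgroup V
  dd : ∀ a, d (d a) = 0
  dG : ∀ n, ∀ a ∈ G n, d a ∈ G (n + 1)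
  dz : ∀ x, ∀ a ∈ z x, d a ∈ z x
  opn : ∀ a, IsOpen {x | a ∈ z x}
  neg : ∀ n < 0, ∀ a ∈ G n, a = 0
  glue : ∀ n (ι : Type) (O : ι → Set T) (a : ι → V), (∀ i, IsOpen (O i)) → (∀ i, a i ∈ G n) →
    (∀ i j, ∀ x ∈ O i ∩ O j, a i - a j ∈ z x) → ∃ b ∈ G n, ∀ i, ∀ x ∈ O i, b - a i ∈ z x

namespace FC
variable {T : Type} [TopologicalSpace T] {V : Type} [AddCommGroup V] (Q : FC T V)

/-- sections vanishing near every point of `A` -/
def van (A : Set T) : AddSubgroup V := ⨅ x ∈ A, Q.z x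

variable {Q}

theorem mem_van {A : Set T} {a : V} : a ∈ Q.van A ↔ ∀ x ∈ A, a ∈ Q.z x := by
  simp only [van, AddSubgroup.mem_iInf]

theorem van_anti {A A' : Set T} (h : A ⊆ A') : Q.van A' ≤ Q.van A := fun _ ha =>
  mem_van.2 fun x hx => mem_van.1 ha x (h hx)

theorem van_single {x : T} {a : V} : a ∈ Q.van {x} ↔ a ∈ Q.z x := by simp [mem_van]

theorem van_empty (a : V) : a ∈ Q.van ∅ := mem_van.2 fun _ h => h.elim

theorem van_union {A A' : Set T} {a : V} : a ∈ Q.van (A ∪ A') ↔ a ∈ Q.van A ∧ a ∈ Q.van A' :=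
  ⟨fun h => ⟨van_anti subset_union_left h, van_anti subset_union_right h⟩,
    fun h => mem_van.2 fun x hx => hx.elim (mem_van.1 h.1 x) (mem_van.1 h.2 x)⟩

theorem d_van {A : Set T} {a : V} (h : a ∈ Q.van A) : Q.d a ∈ Q.van A :=
  mem_van.2 fun x hx => Q.dz x a (mem_van.1 h x hx)

theorem dG' {n : ℤ} {a : V} (h : a ∈ Q.G (n - 1)) : Q.d a ∈ Q.G n := by
  simpa using Q.dG _ a h

theorem van_self (a : V) : a ∈ Q.van {x | a ∈ Q.z x} := mem_van.2 fun _ h => h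

theorem glue2 {n : ℤ} {O O' : Set T} (hO : IsOpen O) (hO' : IsOpen O') {a a' : V} (ha : a ∈ Q.G n)
    (ha' : a' ∈ Q.G n) (h : a - a' ∈ Q.van (O ∩ O')) :
    ∃ b ∈ Q.G n, b - a ∈ Q.van O ∧ b - a' ∈ Q.van O' := by
  obtain ⟨b, hb, h'⟩ := Q.glue n Bool (fun i => cond i O O') (fun i => cond i a a')
    (fun i => by cases i <;> assumption) (fun i => by cases i <;> assumption) (by
      rintro (_ | _) (_ | _) x hx
      · simp
      · simpa using (Q.z x).neg_mem (mem_van.1 h x ⟨hx.2, hx.1⟩)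
      · exact mem_van.1 h x hx
      · simp)
  exact ⟨b, hb, mem_van.2 (h' true), mem_van.2 (h' false)⟩

/-- cut a section: keep it on `O`, make it zero on `O'` -/
theorem cut {n : ℤ} {O O' : Set T} (hO : IsOpen O) (hO' : IsOpen O') {a : V} (ha : a ∈ Q.G n)
    (h : a ∈ Q.van (O ∩ O')) : ∃ b ∈ Q.G n, b - a ∈ Q.van O ∧ b ∈ Q.van O' := by
  simpa using glue2 hO hO' ha (Q.G n).zero_mem (by simpa using h)

variable (Q)

/-- the subcomplex of sections vanishing on the open set `O` -/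
def sub (O : Set T) (hO : IsOpen O) : FC T V where
  d := Q.d
  G n := Q.G n ⊓ Q.van O
  z := Q.z
  dd := Q.dd
  dG n a ha := ⟨Q.dG n a ha.1, d_van ha.2⟩
  dz := Q.dz
  opn := Q.opn
  neg n hn a ha := Q.neg n hn a ha.1
  glue n ι O' a h1 h2 h3 := by
    obtain ⟨b, hb, h'⟩ := Q.glue n ι O' a h1 (fun i => (h2 i).1) h3
    obtain ⟨c, hc, c1, c2⟩ := cut (isOpen_iUnion h1) hO hb (mem_van.2 fun x hx => by
      obtain ⟨i, hi⟩ := mem_iUnion.1 hx.1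
      simpa using (Q.z x).add_mem (h' i x hi) (mem_van.1 (h2 i).2 x hx.2))
    refine ⟨c, ⟨hc, c2⟩, fun i x hx => ?_⟩
    simpa using (Q.z x).add_mem (mem_van.1 c1 x (mem_iUnion.2 ⟨i, hx⟩)) (h' i x hx)

/-- the cohomology of germs along `A` vanishes in degree `n` -/
def Ex (n : ℤ) (A : Set T) : Prop :=
  ∀ a ∈ Q.G n, Q.d a ∈ Q.van A → ∃ c ∈ Q.G (n - 1), a - Q.d c ∈ Q.van A

/-- the cohomology at `x` of the sections vanishing on `O` is zero in degree `n` -/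
def Cos (n : ℤ) (O : Set T) (x : T) : Prop :=
  ∀ a ∈ Q.G n, a ∈ Q.van O → Q.d a ∈ Q.z x →
    ∃ c ∈ Q.G (n - 1), c ∈ Q.van O ∧ a - Q.d c ∈ Q.z x

/-- the cohomology with supports in `F` is zero in degree `j` -/
def Zs (j : ℤ) (F : Set T) : Prop :=
  ∀ a ∈ Q.G j, a ∈ Q.van Fᶜ → Q.d a ∈ Q.van univ →
    ∃ c ∈ Q.G (j - 1), c ∈ Q.van Fᶜ ∧ a - Q.d c ∈ Q.van univ

/-- cocycles supported near `C` bound with support in `K` -/
def PZ (j : ℤ) (C K : Set T) : Prop :=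
  ∃ K', IsClosed K' ∧ K' ∈ 𝓝ˢ C ∧ ∀ a ∈ Q.G j, a ∈ Q.van K'ᶜ → Q.d a ∈ Q.van univ →
    ∃ c ∈ Q.G (j - 1), c ∈ Q.van Kᶜ ∧ a - Q.d c ∈ Q.van univ

/-- the system of groups with supports near `C` is pro-zero in degrees `< j₀` -/
def PZA (j₀ : ℤ) (C : Set T) : Prop := ∀ j < j₀, ∀ K, IsClosed K → K ∈ 𝓝ˢ C → Q.PZ j C K

/-- the cohomology sheaves are constant, equal to `B n`, in degrees `< n₀` -/
structure LC (n₀ : ℤ) (B : ℤ → AddSubgroup V) : Prop where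
  mem : ∀ n < n₀, ∀ b ∈ B n, b ∈ Q.G n
  cl : ∀ n < n₀, ∀ b ∈ B n, Q.d b ∈ Q.van univ
  sur : ∀ n < n₀, ∀ x, ∀ a ∈ Q.G n, Q.d a ∈ Q.z x →
    ∃ b ∈ B n, ∃ c ∈ Q.G (n - 1), a - b - Q.d c ∈ Q.z x
  inj : ∀ n < n₀, ∀ x, ∀ b ∈ B n, ∀ c ∈ Q.G (n - 1), b - Q.d c ∈ Q.z x → b ∈ Q.van univ

/-- the cohomology of germs along `A` is generated by `B` -/
def AC (B : ℤ → AddSubgroup V) (n : ℤ) (A : Set T) : Prop :=
  ∀ a ∈ Q.G n, Q.d a ∈ Q.van A → ∃ b ∈ B n, ∃ c ∈ Q.G (n - 1), a - b - Q.d c ∈ Q.van A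

end FC

/-- `R` has, near each of its points, a continuous injection into `ℝ^m` -/
def LD {T : Type} [TopologicalSpace T] (m : ℕ) (R : Set T) : Prop :=
  ∀ x ∈ R, ∃ (W : Set T) (f : T → Fin m → ℝ), IsOpen W ∧ x ∈ W ∧ ContinuousOn f (W ∩ R) ∧
    InjOn f (W ∩ R)

/-- first degree in which the costalk along the stratum of codimension `c` may be non-zero -/
def eC (c : ℕ) : ℤ := if c = 0 then 0 else c + 1

/-- `U c` is the union of the strata of complex codimension `< c`; the strata are topological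
manifolds and the cohomology with supports in a stratum is locally constant, zero below `eC c` -/
structure SAX {Y : Type} [TopologicalSpace Y] {V : Type} [AddCommGroup V] (Q : FC Y V) (d : ℕ)
    (U : ℕ → Set Y) : Prop where
  opn : ∀ c, IsOpen (U c)
  mono : Monotone U
  zero : U 0 = ∅
  top : U (d + 1) = univ
  chart : ∀ c, ∀ x ∈ U (c + 1) \ U c, ∀ W₀, IsOpen W₀ → x ∈ W₀ →
    ∃ (W : Set Y) (ψ : (Fin (2 * (d - c)) → ℝ) → Y), IsOpen W ∧ x ∈ W ∧ W ⊆ W₀ ∧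
      IsEmbedding ψ ∧ range ψ = W ∩ (U (c + 1) \ U c)
  cos : ∀ c, ∀ x ∈ U (c + 1) \ U c, ∀ n < eC c, Q.Cos n (U c) x
  lc : ∀ c, ∀ x ∈ U (c + 1) \ U c, ∀ n, ∃ (W : Set Y) (B : AddSubgroup V), IsOpen W ∧ x ∈ W ∧
    (∀ b ∈ B, b ∈ Q.G n ∧ b ∈ Q.van (U c) ∧ Q.d b ∈ Q.van W) ∧
    ∀ y ∈ W ∩ (U (c + 1) \ U c),
      (∀ a ∈ Q.G n, a ∈ Q.van (U c) → Q.d a ∈ Q.z y →
        ∃ b ∈ B, ∃ e ∈ Q.G (n - 1), e ∈ Q.van (U c) ∧ a - b - Q.d e ∈ Q.z y) ∧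
      ∀ b ∈ B, ∀ e ∈ Q.G (n - 1), e ∈ Q.van (U c) → b - Q.d e ∈ Q.z y → b ∈ Q.van W

end Pool.Agent.PWD.TI
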