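import Pool.Agent.P.MP_65ad7c_ag.SBase
import Pool.Agent.K.MP_65ad7c_ag.C2
import Pool.Agent.K.MP_65ad7c_ag.C4

-- part Pool.Agent.P.MP_65ad7c_ag.DTP0
section

open Set Filter Topology TopologicalSpace Pool.Agent.PW.S

set_option backward.isDefEq.respectTransparency false

noncomputable section
namespace Pool.Agent.PWD.TI

variable {Y : Type} [TopologicalSpace Y]

/-- sections which vanish near a point -/
def dtp0_LZ (F : PS Y) {x : Y} {V : Opens Y} (hx : x ∈ V) : Submodule ℂ (F.obj V) where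
  carrier := {s | F.LocZero x s}
  zero_mem' := ⟨V, le_rfl, hx, map_zero _⟩
  add_mem' := by
    rintro a b ⟨W, h, hW, e⟩ ⟨W', h', hW', e'⟩
    refine ⟨W ⊓ W', inf_le_left.trans h, ⟨hW, hW'⟩, ?_⟩
    rw [map_add, ← F.res_res h inf_le_left, e, ← F.res_res h' inf_le_right, e', map_zero, map_zero,
      add_zero]
  smul_mem' := by
    rintro c a ⟨W, h, hW, e⟩
    exact ⟨W, h, hW, by rw [map_smul, e, smul_zero]⟩

/-- the sum of the constant presheaves on the members of a family of open sets -/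
def dtp0_A {ι : Type} (O : ι → Opens Y) : PS Y where
  obj W := Finsupp.supported ℂ ℂ {i | W ≤ O i}
  acg _ := inferInstance
  mod _ := inferInstance
  res h := Submodule.inclusion (Finsupp.supported_mono fun _ hi => h.trans hi)
  res_self _ _ _ := rfl
  res_res _ _ _ := rfl

open Classical in
/-- restriction of a member of the family -/
def dtp0_e (F : PS Y) {ι : Type} {O : ι → Opens Y} (s : ∀ i, F.obj (O i)) (W : Opens Y) (i : ι) :
    F.obj W := if h : W ≤ O i then F.res h (s i) else 0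

theorem dtp0_e_eq (F : PS Y) {ι : Type} {O : ι → Opens Y} (s : ∀ i, F.obj (O i)) {W : Opens Y}
    {i : ι} (h : W ≤ O i) : dtp0_e F s W i = F.res h (s i) := dif_pos h

theorem dtp0_glue {F : PS Y} (h : Inj univ F) {ι : Type} (O : ι → Opens Y) (s : ∀ i, F.obj (O i))
    (hs : ∀ i j, ∀ x ∈ O i, x ∈ O j → F.LocZero x
      (F.res (inf_le_left : O i ⊓ O j ≤ O i) (s i) - F.res inf_le_right (s j))) :
    ∃ t : F.obj ⊤, ∀ i, F.res le_top t = s i := by
  let f : Mor (dtp0_A O) PS.const :=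
    ⟨fun W => (Finsupp.linearCombination ℂ fun _ : ι => (1 : ℂ)).comp (Submodule.subtype _),
      fun _ _ => rfl⟩
  let g : Mor (dtp0_A O) F :=
    ⟨fun W => (Finsupp.linearCombination ℂ (dtp0_e F s W)).comp (Submodule.subtype _),
      fun {V W} hW a => by
        show F.res hW (Finsupp.linearCombination ℂ (dtp0_e F s V) a.1) =
          Finsupp.linearCombination ℂ (dtp0_e F s W) a.1
        rw [Finsupp.linearCombination_apply, Finsupp.linearCombination_apply, Finsupp.sum,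
          Finsupp.sum, map_sum]
        refine Finset.sum_congr rfl fun i hi => ?_
        have h1 : V ≤ O i := a.2 hi
        rw [map_smul, dtp0_e_eq F s h1, dtp0_e_eq F s (hW.trans h1), F.res_res]⟩
  obtain ⟨k, hk⟩ := h _ _ f g (by
    rintro x - V hx a ⟨W, hW, -, e⟩
    have e1 : ∑ i ∈ a.1.support, a.1 i • (1 : ℂ) = 0 := e
    show ∑ i ∈ a.1.support, a.1 i • dtp0_e F s V i ∈ dtp0_LZ F hx
    rcases a.1.support.eq_empty_or_nonempty with e2 | ⟨j, hj⟩
    · rw [e2, Finset.sum_empty]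
      exact zero_mem _
    · have e3 : ∑ i ∈ a.1.support, a.1 i • dtp0_e F s V i =
          ∑ i ∈ a.1.support, a.1 i • (dtp0_e F s V i - dtp0_e F s V j) := by
        simp only [smul_eq_mul, mul_one] at e1
        simp only [smul_sub, Finset.sum_sub_distrib, ← Finset.sum_smul, e1, zero_smul, sub_zero]
      rw [e3]
      refine Submodule.sum_mem _ fun i hi => Submodule.smul_mem _ _ ?_
      have h1 : V ≤ O i := a.2 hi
      have h2 : V ≤ O j := a.2 hj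
      obtain ⟨W', hW', hx', e4⟩ := hs i j x (h1 hx) (h2 hx)
      refine ⟨W' ⊓ V, inf_le_right, ⟨hx', hx⟩, ?_⟩
      have e5 := congrArg (F.res (inf_le_left : W' ⊓ V ≤ W')) e4
      simp only [map_sub, F.res_res, map_zero] at e5
      rw [dtp0_e_eq F s h1, dtp0_e_eq F s h2, map_sub, F.res_res, F.res_res, e5])
  refine ⟨k.app ⊤ (1 : ℂ), fun i => ?_⟩
  have e := hk (O i) ⟨Finsupp.single i 1, Finsupp.single_mem_supported ℂ 1 (le_refl (O i))⟩
  have e1 : f.app (O i) ⟨Finsupp.single i 1, Finsupp.single_mem_supported ℂ 1 (le_refl (O i))⟩ =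
      (1 : ℂ) := (Finsupp.linearCombination_single ℂ (1 : ℂ) i).trans (one_smul _ _)
  have e2 : g.app (O i) ⟨Finsupp.single i 1, Finsupp.single_mem_supported ℂ 1 (le_refl (O i))⟩ =
      s i := (Finsupp.linearCombination_single ℂ (1 : ℂ) i).trans
        (by rw [one_smul, dtp0_e_eq F s le_rfl, F.res_self])
  rw [e1, e2] at e
  rw [k.nat, ← e]
  rfl

theorem inj_sep {F : PS Y} (h : Inj univ F) {V : Opens Y} (s : F.obj V)
    (hs : ∀ x ∈ V, F.LocZero x s) : s = 0 := by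
  have hm : ∀ x (hx : x ∈ V) (b : Bool), (if b then s else 0) ∈ dtp0_LZ F hx := fun x hx b => by
    cases b
    · exact zero_mem _
    · exact hs x hx
  obtain ⟨t, ht⟩ := dtp0_glue h (fun _ : Bool => V) (fun b => if b then s else 0)
    fun i j x hx _ => by
      obtain ⟨W, hW, hx', e⟩ := sub_mem (hm x hx i) (hm x hx j)
      exact ⟨W, le_inf hW hW, hx', by rw [← map_sub, F.res_res, e]⟩
  exact (ht true).symm.trans (ht false)

theorem inj_glue' {F : PS Y} (h : Inj univ F) {ι : Type} (O : ι → Opens Y) (s : ∀ i, F.obj (O i))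
    (hs : ∀ i j, F.res (inf_le_left : O i ⊓ O j ≤ O i) (s i) = F.res inf_le_right (s j)) :
    ∃ t : F.obj ⊤, ∀ i, F.res le_top t = s i :=
  dtp0_glue h O s fun i j _ hx hx' =>
    ⟨O i ⊓ O j, le_rfl, ⟨hx, hx'⟩, by rw [hs i j, sub_self, map_zero]⟩

theorem inj_flabby {F : PS Y} (h : Inj univ F) {V : Opens Y} (s : F.obj V) :
    ∃ t : F.obj ⊤, F.res le_top t = s :=
  (inj_glue' h (fun _ : Unit => V) (fun _ => s) fun _ _ => rfl).imp fun _ ht => ht ()

theorem inj_glue {F : PS Y} (h : Inj univ F) {ι : Type} (O : ι → Opens Y) (s : ι → F.obj ⊤)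
    (hs : ∀ i j, ∀ x ∈ O i, x ∈ O j → F.LocZero x (s i - s j)) :
    ∃ t : F.obj ⊤, ∀ i, ∀ x ∈ O i, F.LocZero x (t - s i) := by
  obtain ⟨t, ht⟩ := dtp0_glue h O (fun i => F.res le_top (s i)) fun i j x hx hx' => by
    obtain ⟨W, hW, hx'', e⟩ := hs i j x hx hx'
    refine ⟨W ⊓ (O i ⊓ O j), inf_le_right, ⟨hx'', hx, hx'⟩, ?_⟩
    rw [F.res_res, F.res_res, ← map_sub, F.res_res, ← F.res_res hW inf_le_left, e, map_zero]
  exact ⟨t, fun i x hx => ⟨O i, le_top, hx, by rw [map_sub, ht i, sub_self]⟩⟩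

theorem inj_push {F : PS Y} (h : Inj univ F) (g : Y ≃ₜ Y) : Inj univ (F.push (g : C(Y, Y))) := by
  intro A B f k hk
  have h1 : ∀ V : Opens Y, V ≤ pre (g : C(Y, Y)) (pre (g.symm : C(Y, Y)) V) := fun V x hx => by
    show g.symm (g x) ∈ V
    rwa [g.symm_apply_apply]
  have h2 : ∀ V : Opens Y, pre (g.symm : C(Y, Y)) (pre (g : C(Y, Y)) V) ≤ V := fun V x hx => by
    have : g (g.symm x) ∈ V := hx
    rwa [g.apply_symm_apply] at this
  let k2 : Mor (A.push (g.symm : C(Y, Y))) F :=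
    ⟨fun V => (F.res (h1 V)).comp (k.app (pre (g.symm : C(Y, Y)) V)), fun {V W} hW a => by
      show F.res hW (F.res (h1 V) (k.app _ a)) =
        F.res (h1 W) (k.app _ (A.res (pre_mono _ hW) a))
      rw [← k.nat]
      exact (F.res_res _ _ _).trans (F.res_res _ _ _).symm⟩
  obtain ⟨l, hl⟩ := h _ _ (f.comap _ (pre_mono (g.symm : C(Y, Y)))) k2 (by
    rintro x - V hx a ⟨W, hW, hx', e⟩
    obtain ⟨W', hW', hx'', e'⟩ := hk (g x) trivial (pre (g.symm : C(Y, Y)) V) (h1 V hx) a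
      ⟨pre (g.symm : C(Y, Y)) W, pre_mono _ hW, h1 W hx', e⟩
    refine ⟨pre (g : C(Y, Y)) W' ⊓ V, inf_le_right, ⟨hx'', hx⟩, ?_⟩
    have e2 : F.res (pre_mono _ hW') (k.app _ a) = 0 := e'
    show F.res _ (F.res (h1 V) (k.app _ a)) = 0
    rw [F.res_res, ← F.res_res (pre_mono _ hW') inf_le_left, e2, map_zero])
  refine ⟨⟨fun W => (l.app (pre (g : C(Y, Y)) W)).comp (B.res (h2 W)), fun {V W} hW b => ?_⟩,
    fun V a => ?_⟩
  · show F.res (pre_mono _ hW) (l.app _ (B.res (h2 V) b)) = l.app _ (B.res (h2 W) (B.res hW b))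
    rw [l.nat]
    exact congrArg _ ((B.res_res _ _ _).trans (B.res_res _ _ _).symm)
  · show l.app _ (B.res (h2 V) (f.app V a)) = k.app V a
    rw [f.nat]
    refine (hl _ (A.res (h2 V) a)).trans ?_
    show F.res (h1 _) (k.app _ (A.res (h2 V) a)) = _
    rw [← k.nat]
    exact (F.res_res _ _ _).trans (F.res_self _ _ _)

/-- exactness at a point passes to homotopy retracts -/
theorem exAt_of_retract {A B : Cx Y} (a : CMap A B) (b : CMap B A)
    (h : (b.comp a - CMap.id A).Null) {x : Y} {n : ℕ} (hB : B.ExAt x n) : A.ExAt x n := by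
  intro V hx c hc
  obtain ⟨k, k0, k1⟩ := h
  obtain ⟨W, hW, hx', e⟩ := hB V hx ((a.f n).app V c) (by rw [a.comm, hc, map_zero])
  refine ⟨W, hW, hx', ?_⟩
  have hc' : (A.d n).app W ((A.X n).res hW c) = 0 := by rw [← (A.d n).nat, hc, map_zero]
  rw [(a.f n).nat] at e
  generalize (A.X n).res hW c = c' at e hc'
  rcases n with _ | n
  · have e1 : (a.f 0).app W c' = 0 := e
    have e2 := k0 W c'
    rw [CMap.sub_app, CMap.comp_app, CMap.id_app, e1, hc', map_zero, map_zero, zero_sub,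
      neg_eq_zero] at e2
    exact e2
  · obtain ⟨β, e1⟩ := e
    have e2 := k1 n W c'
    rw [CMap.sub_app, CMap.comp_app, CMap.id_app, ← e1, hc', map_zero, add_zero, ← b.comm] at e2
    exact ⟨(b.f n).app W β - (k n).app W c', by rw [map_sub, ← e2, sub_sub_cancel]⟩

end Pool.Agent.PWD.TI
end
end

-- part Pool.Agent.P.MP_65ad7c_ag.DTP1
section

open Set Filter Topology TopologicalSpace Pool.Agent.PW.S

noncomputable section
namespace Pool.Agent.PWD.TI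

variable {Y : Type} [TopologicalSpace Y]

/-- the differential on the product of the groups of global sections -/
def dTot (I : Cx Y) : (∀ n, (I.X n).obj ⊤) →+ (∀ n, (I.X n).obj ⊤) where
  toFun a n := match n with
    | 0 => 0
    | n + 1 => (I.d n).app ⊤ (a n)
  map_zero' := by
    funext n
    cases n <;> simp
  map_add' a b := by
    funext n
    cases n <;> simp

/-- sections of degree `n` -/
def gTot (I : Cx Y) (n : ℤ) : AddSubgroup (∀ n, (I.X n).obj ⊤) where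
  carrier := {a | ∀ m : ℕ, (m : ℤ) ≠ n → a m = 0}
  add_mem' ha hb m hm := by simp [ha m hm, hb m hm]
  zero_mem' _ _ := rfl
  neg_mem' ha m hm := by simp [ha m hm]

/-- sections vanishing near `x` -/
def zTot (I : Cx Y) (x : Y) : AddSubgroup (∀ n, (I.X n).obj ⊤) where
  carrier := {a | ∃ W : Opens Y, x ∈ W ∧ ∀ m, (I.X m).res (le_top : W ≤ ⊤) (a m) = 0}
  add_mem' := by
    rintro a b ⟨W, hW, ha⟩ ⟨W', hW', hb⟩
    refine ⟨W ⊓ W', ⟨hW, hW'⟩, fun m => ?_⟩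
    rw [Pi.add_apply, map_add, ← (I.X m).res_res le_top (inf_le_left : W ⊓ W' ≤ W), ha,
      ← (I.X m).res_res le_top (inf_le_right : W ⊓ W' ≤ W'), hb]
    simp
  zero_mem' := ⟨⊤, trivial, fun m => by simp⟩
  neg_mem' := by
    rintro a ⟨W, hW, ha⟩
    exact ⟨W, hW, fun m => by rw [Pi.neg_apply, map_neg, ha, neg_zero]⟩

theorem dTot_dTot (I : Cx Y) (a) : dTot I (dTot I a) = 0 := by
  funext n
  rcases n with _ | _ | n
  · rfl
  · exact map_zero ((I.d 0).app ⊤)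
  · exact I.dd n ⊤ (a n)

theorem dTot_gTot (I : Cx Y) (n : ℤ) : ∀ a ∈ gTot I n, dTot I a ∈ gTot I (n + 1) := by
  intro a ha m hm
  rcases m with _ | m
  · rfl
  · change (I.d m).app ⊤ (a m) = 0
    rw [ha m fun h => hm (by rw [← h]; push_cast; rfl), map_zero]

theorem dTot_zTot (I : Cx Y) (x : Y) : ∀ a ∈ zTot I x, dTot I a ∈ zTot I x := by
  rintro a ⟨W, hW, ha⟩
  refine ⟨W, hW, fun m => ?_⟩
  rcases m with _ | m
  · exact map_zero _
  · change (I.X (m + 1)).res _ ((I.d m).app ⊤ (a m)) = 0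
    rw [(I.d m).nat, ha, map_zero]

theorem zTot_open (I : Cx Y) (a) : IsOpen {x | a ∈ zTot I x} := by
  refine isOpen_iff_forall_mem_open.2 ?_
  rintro x ⟨W, hW, ha⟩
  exact ⟨W, fun y hy => ⟨W, hy, ha⟩, W.2, hW⟩

theorem gTot_neg (I : Cx Y) : ∀ n < 0, ∀ a ∈ gTot I n, a = 0 := by
  intro n hn a ha
  funext m
  exact ha m (by omega)

theorem single_mem_gTot (I : Cx Y) (n : ℕ) (s : (I.X n).obj ⊤) : Pi.single n s ∈ gTot I n := by
  intro m hm
  have h : m ≠ n := fun h => hm (by rw [h])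
  exact Pi.single_eq_of_ne (M := fun n => (I.X n).obj ⊤) h s

theorem eq_single_of_mem {I : Cx Y} {n : ℕ} {a} (h : a ∈ gTot I n) : a = Pi.single n (a n) := by
  funext m
  by_cases hm : m = n
  · subst hm
    rw [Pi.single_eq_same]
  · rw [Pi.single_eq_of_ne hm]
    exact h m (by exact_mod_cast hm)

theorem single_mem_zTot {I : Cx Y} {n : ℕ} {s : (I.X n).obj ⊤} {x : Y} :
    Pi.single n s ∈ zTot I x ↔ (I.X n).LocZero x s := by
  constructor
  · rintro ⟨W, hW, ha⟩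
    refine ⟨W, le_top, hW, ?_⟩
    have := ha n
    rwa [Pi.single_eq_same] at this
  · rintro ⟨W, h, hW, ha⟩
    refine ⟨W, hW, fun m => ?_⟩
    by_cases hm : m = n
    · subst hm
      rw [Pi.single_eq_same]
      exact ha
    · rw [Pi.single_eq_of_ne hm, map_zero]

theorem dTot_single (I : Cx Y) (n : ℕ) (s : (I.X n).obj ⊤) :
    dTot I (Pi.single n s) = Pi.single (n + 1) ((I.d n).app ⊤ s) := by
  funext m
  rcases m with _ | m
  · rw [Pi.single_eq_of_ne (Nat.succ_ne_zero n).symm]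
    rfl
  · change (I.d m).app ⊤ (Pi.single (M := fun n => (I.X n).obj ⊤) n s m) = _
    by_cases hm : m = n
    · subst hm
      rw [Pi.single_eq_same, Pi.single_eq_same]
    · rw [Pi.single_eq_of_ne hm, Pi.single_eq_of_ne (by omega), map_zero]

theorem tot_glue {I : Cx Y} (hI : CInj univ I) (n : ℤ) (ι : Type) (O : ι → Set Y)
    (a : ι → ∀ n, (I.X n).obj ⊤) (hO : ∀ i, IsOpen (O i)) (ha : ∀ i, a i ∈ gTot I n)
    (h : ∀ i j, ∀ x ∈ O i ∩ O j, a i - a j ∈ zTot I x) :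
    ∃ b ∈ gTot I n, ∀ i, ∀ x ∈ O i, b - a i ∈ zTot I x := by
  rcases lt_or_ge n 0 with hn | hn
  · refine ⟨0, zero_mem _, fun i x _ => ?_⟩
    rw [gTot_neg I n hn _ (ha i), sub_zero]
    exact zero_mem _
  obtain ⟨k, rfl⟩ := Int.eq_ofNat_of_zero_le hn
  obtain ⟨t, ht⟩ := inj_glue (hI k) (fun i => ⟨O i, hO i⟩) (fun i => a i k) fun i j x hi hj => by
    obtain ⟨W, hW, hW'⟩ := h i j x ⟨hi, hj⟩
    exact ⟨W, le_top, hW, hW' k⟩
  refine ⟨Pi.single k t, single_mem_gTot I k t, fun i x hx => ?_⟩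
  rw [eq_single_of_mem (ha i), ← Pi.single_sub]
  exact single_mem_zTot.2 (ht i x hx)

/-- the global sections of a complex of injective sheaves -/
def toFC (I : Cx Y) (hI : CInj univ I) : FC Y (∀ n, (I.X n).obj ⊤) where
  d := dTot I
  G := gTot I
  z := zTot I
  dd := dTot_dTot I
  dG := dTot_gTot I
  dz := dTot_zTot I
  opn := zTot_open I
  neg := gTot_neg I
  glue := tot_glue hI

theorem single_mem_van {I : Cx Y} (hI : CInj univ I) {n : ℕ} {s : (I.X n).obj ⊤} {O : Opens Y} :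
    Pi.single n s ∈ (toFC I hI).van O ↔ (I.X n).res (le_top : O ≤ ⊤) s = 0 := by
  rw [FC.mem_van]
  constructor
  · intro h
    refine inj_sep (hI n) _ fun x hx => ?_
    obtain ⟨W, h1, hW, h2⟩ := single_mem_zTot.1 (h x hx)
    refine ⟨W ⊓ O, inf_le_right, ⟨hW, hx⟩, ?_⟩
    rw [(I.X n).res_res, ← (I.X n).res_res h1 (inf_le_left : W ⊓ O ≤ W), h2, map_zero]
  · intro h x hx
    exact single_mem_zTot.2 ⟨O, le_top, hx, h⟩

end Pool.Agent.PWD.TI
end
end

-- part Pool.Agent.P.MP_65ad7c_ag.DTP2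
section

open Set Filter Topology TopologicalSpace Pool.Agent.PW.S

set_option backward.isDefEq.respectTransparency false

noncomputable section
namespace Pool.Agent.PWD.TI

variable {Y : Type} [TopologicalSpace Y]

/-- a section vanishing on `V ⊓ O` extends to a global section vanishing on `O` -/
theorem gam_extend {F : PS Y} (h : Inj univ F) (O : Opens Y) {V : Opens Y} (s : (F.gam O).obj V) :
    ∃ t : F.obj ⊤, F.res (le_top : V ≤ ⊤) t = s.1 ∧ F.res (le_top : O ≤ ⊤) t = 0 := by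
  have hs : F.res (inf_le_left : V ⊓ O ≤ V) s.1 = 0 := s.2
  have hs' : F.res (inf_le_right : O ⊓ V ≤ V) s.1 = 0 := by
    rw [← F.res_res (inf_le_left : V ⊓ O ≤ V) (le_inf inf_le_right inf_le_left), hs, map_zero]
  obtain ⟨t, ht⟩ := inj_glue' h (ι := Bool) (fun b => Bool.rec O V b)
    (fun b => Bool.rec (motive := fun b => F.obj (Bool.rec O V b)) 0 s.1 b) (by
      rintro (_ | _) (_ | _)
      · rfl
      · exact (map_zero _).trans hs'.symm
      · exact hs.trans (map_zero _).symm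
      · rfl)
  exact ⟨t, ht true, ht false⟩

/-- the restriction of a global section vanishing on `O` -/
def dtp2_sec {F : PS Y} {O : Opens Y} {t : F.obj ⊤} (ht : F.res (le_top : O ≤ ⊤) t = 0)
    (W : Opens Y) : (F.gam O).obj W :=
  ⟨F.res le_top t, LinearMap.mem_ker.2 (by
    rw [F.res_res, ← F.res_res (le_top : O ≤ ⊤) (inf_le_right : W ⊓ O ≤ O), ht, map_zero])⟩

/-- being a boundary near `y`, in terms of global sections -/
theorem locBd_iff {I : Cx Y} (hI : CInj univ I) (O : Opens Y) {n : ℕ} {V : Opens Y} {y : Y}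
    (hy : y ∈ V) (s : ((I.gam O).X n).obj V) (t : (I.X n).obj ⊤)
    (ht : (I.X n).res (le_top : V ≤ ⊤) t = s.1) :
    (I.gam O).LocBd y s ↔ ∃ e ∈ (toFC I hI).G ((n : ℤ) - 1), e ∈ (toFC I hI).van O ∧
      Pi.single n t - (toFC I hI).d e ∈ (toFC I hI).z y := by
  have hr : ∀ {W : Opens Y} (h : W ≤ V),
      (((I.gam O).X n).res h s).1 = (I.X n).res (le_top : W ≤ ⊤) t := fun h => by
    rw [← (I.X n).res_res le_top h, ht]
    rfl
  cases n with
  | zero =>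
    constructor
    · rintro ⟨W, h, hW, h0⟩
      refine ⟨0, zero_mem _, zero_mem _, ?_⟩
      rw [map_zero, sub_zero]
      refine single_mem_zTot.2 ⟨W, le_top, hW, ?_⟩
      rw [← hr h, (Submodule.mem_bot ℂ).1 h0]
      rfl
    · rintro ⟨e, he, -, h0⟩
      rw [(toFC I hI).neg _ (by simp) e he, map_zero, sub_zero] at h0
      obtain ⟨W, h, hW, h1⟩ := single_mem_zTot.1 h0
      refine ⟨W ⊓ V, inf_le_right, ⟨hW, hy⟩, (Submodule.mem_bot ℂ).2 (Subtype.ext ?_)⟩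
      rw [hr, ← (I.X 0).res_res h inf_le_left, h1, map_zero]
      rfl
  | succ n =>
    have e1 : ((n + 1 : ℕ) : ℤ) - 1 = n := by
      push_cast
      ring
    have e2 : ∀ u : (I.X n).obj ⊤, Pi.single (n + 1) t - (toFC I hI).d (Pi.single n u) =
        Pi.single (n + 1) (t - (I.d n).app ⊤ u) := fun u => by
      rw [Pi.single_sub, ← dTot_single]
      rfl
    rw [e1]
    constructor
    · rintro ⟨W, h, hW, b, hb⟩
      obtain ⟨u, h1, h2⟩ := gam_extend (hI n) O b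
      refine ⟨Pi.single n u, single_mem_gTot I n u, (single_mem_van hI).2 h2, ?_⟩
      rw [e2]
      refine single_mem_zTot.2 ⟨W, le_top, hW, ?_⟩
      rw [map_sub, ← hr h, ← hb, (I.d n).nat, h1]
      exact sub_self _
    · rintro ⟨e, he, h1, h2⟩
      rw [eq_single_of_mem he] at h1 h2
      rw [e2] at h2
      obtain ⟨W, h, hW, h3⟩ := single_mem_zTot.1 h2
      refine ⟨W ⊓ V, inf_le_right, ⟨hW, hy⟩, dtp2_sec ((single_mem_van hI).1 h1) _,
        Subtype.ext ?_⟩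
      have h4 := congrArg ((I.X (n + 1)).res (inf_le_left : W ⊓ V ≤ W)) h3
      rw [(I.X (n + 1)).res_res, map_zero, map_sub, (I.d n).nat, sub_eq_zero] at h4
      rw [hr, h4]
      rfl

theorem cos_iff {I : Cx Y} (hI : CInj univ I) (O : Opens Y) (n : ℕ) (x : Y) :
    (toFC I hI).Cos n O x ↔ (I.gam O).ExAt x n := by
  have e : ∀ u : (I.X n).obj ⊤, (toFC I hI).d (Pi.single n u) ∈ (toFC I hI).z x ↔
      (I.X (n + 1)).LocZero x ((I.d n).app ⊤ u) := fun u => by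
    rw [← single_mem_zTot, ← dTot_single]
    rfl
  constructor
  · intro h V hx c hc
    obtain ⟨t, h1, h2⟩ := gam_extend (hI n) O c
    refine (locBd_iff hI O hx c t h1).2 (h _ (single_mem_gTot I n t) ((single_mem_van hI).2 h2)
      ((e t).2 ⟨V, le_top, hx, ?_⟩))
    rw [(I.d n).nat, h1]
    exact congrArg Subtype.val hc
  · intro h a ha h1 h2
    rw [eq_single_of_mem ha] at h1 h2 ⊢
    obtain ⟨W, hW, hx, h3⟩ := (e _).1 h2
    refine (locBd_iff hI O hx (dtp2_sec ((single_mem_van hI).1 h1) W) _ rfl).1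
      (h W hx _ (Subtype.ext ?_))
    rw [(I.d n).nat] at h3
    exact h3

theorem cos_neg {V : Type} [AddCommGroup V] (Q : FC Y V) {n : ℤ} (hn : n < 0) (O : Set Y) (x : Y) :
    Q.Cos n O x := by
  intro a ha _ _
  refine ⟨0, zero_mem _, zero_mem _, ?_⟩
  rw [Q.neg n hn a ha, map_zero, sub_zero]
  exact zero_mem _

end Pool.Agent.PWD.TI
end
end

-- part Pool.Agent.P.MP_65ad7c_ag.DTS
section

open Set Filter Topology

noncomputable section
namespace Pool.Agent.PWD.TI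

variable {T : Type} [TopologicalSpace T] {V : Type} [AddCommGroup V] {Q : FC T V}

/-- slicing a compact set along a continuous function -/
theorem slice_ind {K : Set T} (hK : IsCompact K) {g : T → ℝ} (hg : ContinuousOn g K)
    (P : Set T → Prop) (h0 : P ∅) (hm : ∀ A A', A' ⊆ A → P A → P A')
    (hs : ∀ t, ∃ W, IsOpen W ∧ K ∩ g ⁻¹' {t} ⊆ W ∧ P W)
    (hu : ∀ t t', t ≤ t' → P (K ∩ g ⁻¹' Iic t) → P (K ∩ g ⁻¹' Icc t t') → P (K ∩ g ⁻¹' Iic t')) :
    P K := by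
  have hloc : IsLocallyConstant fun t : ℝ => P (K ∩ g ⁻¹' Iic t) := by
    refine (IsLocallyConstant.iff_eventually_eq _).2 fun t => ?_
    obtain ⟨W, hW, h1, h2⟩ := hs t
    have hc : IsClosed (g '' (K \ W)) :=
      ((hK.diff hW).image_of_continuousOn (hg.mono sdiff_subset)).isClosed
    have ht : t ∈ (g '' (K \ W))ᶜ := by
      rintro ⟨x, hx, e⟩
      exact hx.2 (h1 ⟨hx.1, e⟩)
    obtain ⟨ε, hε, h3⟩ := Metric.nhds_basis_closedBall.mem_iff.1 (hc.isOpen_compl.mem_nhds ht)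
    rw [Real.closedBall_eq_Icc] at h3
    have key : ∀ s ∈ Icc (t - ε) (t + ε), ∀ s' ∈ Icc (t - ε) (t + ε),
        P (K ∩ g ⁻¹' Iic s) → P (K ∩ g ⁻¹' Iic s') := by
      intro s h4 s' h5 h6
      rcases le_total s' s with h | h
      · exact hm _ _ (inter_subset_inter_right _ (preimage_mono (Iic_subset_Iic.2 h))) h6
      · refine hu s s' h h6 (hm _ _ (fun x hx => ?_) h2)
        by_contra hxW
        exact h3 ⟨h4.1.trans hx.2.1, hx.2.2.trans h5.2⟩ ⟨x, ⟨hx.1, hxW⟩, rfl⟩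
    have h7 : t ∈ Icc (t - ε) (t + ε) := ⟨by linarith, by linarith⟩
    filter_upwards [Icc_mem_nhds (by linarith : t - ε < t) (by linarith : t < t + ε)] with s h8
    exact propext ⟨key s h8 t h7, key t h7 s h8⟩
  obtain ⟨a, ha⟩ := (hK.image_of_continuousOn hg).bddBelow
  obtain ⟨b, hb⟩ := (hK.image_of_continuousOn hg).bddAbove
  have e := hloc.apply_eq_of_preconnectedSpace (a - 1) b
  have h1 : P (K ∩ g ⁻¹' Iic (a - 1)) := by
    refine hm _ _ (fun x hx => ?_) h0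
    have h2 : a ≤ g x := ha ⟨x, hx.1, rfl⟩
    have h3 : g x ≤ a - 1 := hx.2
    exact absurd h3 (by linarith)
  exact hm (K ∩ g ⁻¹' Iic b) K (fun x hx => ⟨hx, hb ⟨x, hx, rfl⟩⟩) (e ▸ h1)

theorem exists_open_inter [T2Space T] {A A' M : Set T} (hA : IsCompact A) (hA' : IsCompact A')
    (hM : IsOpen M) (h : A ∩ A' ⊆ M) :
    ∃ O O', IsOpen O ∧ IsOpen O' ∧ A ⊆ O ∧ A' ⊆ O' ∧ O ∩ O' ⊆ M := by
  obtain ⟨N, N', h1, h2, h3, h4, h5⟩ := SeparatedNhds.of_isCompact_isCompact (hA.diff hM)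
    (hA'.diff hM) (disjoint_left.2 fun x hx hx' => hx.2 (h ⟨hx.1, hx'.1⟩))
  refine ⟨N ∪ M, N' ∪ M, h1.union hM, h2.union hM, fun x hx => ?_, fun x hx => ?_, ?_⟩
  · by_cases hxM : x ∈ M
    · exact Or.inr hxM
    · exact Or.inl (h3 ⟨hx, hxM⟩)
  · by_cases hxM : x ∈ M
    · exact Or.inr hxM
    · exact Or.inl (h4 ⟨hx, hxM⟩)
  · rintro x ⟨k1 | k1, k2 | k2⟩
    · exact (disjoint_left.1 h5 k1 k2).elim
    all_goals assumption

theorem exists_closed_inter [T2Space T] [RegularSpace T] {A A' K K' M : Set T} (hA : IsCompact A)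
    (hA' : IsCompact A') (hK : K ∈ 𝓝ˢ A) (hK' : K' ∈ 𝓝ˢ A') (hM : M ∈ 𝓝ˢ (A ∩ A')) :
    ∃ L L', IsClosed L ∧ IsClosed L' ∧ L ∈ 𝓝ˢ A ∧ L' ∈ 𝓝ˢ A' ∧ L ⊆ K ∧ L' ⊆ K' ∧ L ∩ L' ⊆ M := by
  obtain ⟨O, O', h1, h2, h3, h4, h5⟩ := exists_open_inter hA hA' isOpen_interior
    (subset_interior_iff_mem_nhdsSet.2 hM)
  obtain ⟨N, k1, k2, k3⟩ := hA.exists_isOpen_closure_subset (inter_mem hK (h1.mem_nhdsSet.2 h3))
  obtain ⟨N', l1, l2, l3⟩ :=
    hA'.exists_isOpen_closure_subset (inter_mem hK' (h2.mem_nhdsSet.2 h4))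
  exact ⟨closure N, closure N', isClosed_closure, isClosed_closure,
    mem_of_superset (k1.mem_nhdsSet.2 k2) subset_closure,
    mem_of_superset (l1.mem_nhdsSet.2 l2) subset_closure, fun x hx => (k3 hx).1,
    fun x hx => (l3 hx).1, fun x hx => interior_subset (h5 ⟨(k3 hx.1).2, (l3 hx.2).2⟩)⟩

/-- gluing along compact sets -/
theorem FC.glueK [T2Space T] {n : ℤ} {A A' : Set T} (hA : IsCompact A) (hA' : IsCompact A')
    {a a' : V} (ha : a ∈ Q.G n) (ha' : a' ∈ Q.G n) (h : a - a' ∈ Q.van (A ∩ A')) :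
    ∃ b ∈ Q.G n, b - a ∈ Q.van A ∧ b - a' ∈ Q.van A' := by
  obtain ⟨O, O', h1, h2, h3, h4, h5⟩ := exists_open_inter hA hA' (Q.opn (a - a')) (FC.mem_van.1 h)
  obtain ⟨b, hb, k1, k2⟩ := FC.glue2 h1 h2 ha ha' (FC.mem_van.2 h5)
  exact ⟨b, hb, FC.van_anti h3 k1, FC.van_anti h4 k2⟩

/-- splitting along supports -/
theorem FC.split {n : ℤ} {F F' : Set T} (hF : IsClosed F) (hF' : IsClosed F') {a : V}
    (ha : a ∈ Q.G n) (h : a ∈ Q.van (F ∪ F')ᶜ) :
    ∃ b ∈ Q.G n, b ∈ Q.van Fᶜ ∧ a - b ∈ Q.van F'ᶜ := by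
  obtain ⟨b, hb, k1, k2⟩ := FC.cut hF'.isOpen_compl hF.isOpen_compl ha
    (by rwa [inter_comm, ← compl_union])
  exact ⟨b, hb, k2, by simpa using neg_mem k1⟩

/-- Mayer-Vietoris for an intersection of supports -/
theorem FC.Zs.inter {j : ℤ} {F F' : Set T} (hF : IsClosed F) (hF' : IsClosed F')
    (hu : Q.Zs (j - 1) (F ∪ F')) (h : Q.Zs j F) (h' : Q.Zs j F') : Q.Zs j (F ∩ F') := by
  intro a ha h1 h2
  rw [compl_inter, FC.van_union] at h1
  obtain ⟨b, hb, k1, k2⟩ := h a ha h1.1 h2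
  obtain ⟨b', hb', l1, l2⟩ := h' a ha h1.2 h2
  obtain ⟨g, hg, m1, m2⟩ := hu (b - b') (sub_mem hb hb')
    (sub_mem (FC.van_anti (compl_subset_compl.2 subset_union_left) k1)
      (FC.van_anti (compl_subset_compl.2 subset_union_right) l1))
    (by
      have e : Q.d (b - b') = (a - Q.d b') - (a - Q.d b) := by rw [map_sub]; abel
      rw [e]
      exact sub_mem l2 k2)
  obtain ⟨g₁, hg₁, n1, n2⟩ := FC.split hF hF' hg m1
  refine ⟨b - Q.d g₁, sub_mem hb (FC.dG' hg₁), ?_, ?_⟩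
  · rw [compl_inter, FC.van_union]
    refine ⟨sub_mem k1 (FC.d_van n1), ?_⟩
    have e : b - Q.d g₁ = (b - b' - Q.d g) + b' + Q.d (g - g₁) := by rw [map_sub]; abel
    rw [e]
    exact add_mem (add_mem (FC.van_anti (subset_univ _) m2) l1) (FC.d_van n2)
  · rwa [map_sub, Q.dd, sub_zero]

end Pool.Agent.PWD.TI
end
end

-- part Pool.Agent.P.MP_65ad7c_ag.DTB
section

open Set Filter Topology

noncomputable section
namespace Pool.Agent.PWD.TI

variable {T : Type} [TopologicalSpace T] {V : Type} [AddCommGroup V] {Q : FC T V}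

theorem FC.LC.const {n₀ : ℤ} {B : ℤ → AddSubgroup V} (h : Q.LC n₀ B) {n : ℤ} (hn : n < n₀)
    {A : Set T} (hA : IsPreconnected A) {a : V} (ha : a ∈ Q.G n) (hd : Q.d a ∈ Q.van A) :
    ∃ b ∈ B n, ∀ x ∈ A, ∃ c ∈ Q.G (n - 1), a - b - Q.d c ∈ Q.z x := by
  rcases A.eq_empty_or_nonempty with rfl | ⟨x₀, hx₀⟩
  · exact ⟨0, (B n).zero_mem, fun _ hx => hx.elim⟩
  obtain ⟨S, hS⟩ : ∃ S : V → Set T,
      ∀ b x, x ∈ S b ↔ ∃ c ∈ Q.G (n - 1), a - b - Q.d c ∈ Q.z x :=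
    ⟨fun b => {x | ∃ c ∈ Q.G (n - 1), a - b - Q.d c ∈ Q.z x}, fun _ _ => Iff.rfl⟩
  have hO : ∀ b, IsOpen (S b) := fun b => isOpen_iff_forall_mem_open.2 fun x hx => by
    obtain ⟨c, c1, c2⟩ := (hS b x).1 hx
    exact ⟨_, fun y hy => (hS b y).2 ⟨c, c1, hy⟩, Q.opn (a - b - Q.d c), c2⟩
  have hs : ∀ x ∈ A, ∃ b ∈ B n, x ∈ S b := fun x hx => by
    obtain ⟨b, b1, b2⟩ := h.sur n hn x a ha (FC.mem_van.1 hd x hx)
    exact ⟨b, b1, (hS b x).2 b2⟩
  obtain ⟨b₀, hb₀, h0⟩ := hs x₀ hx₀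
  refine ⟨b₀, hb₀, fun x hx => (hS b₀ x).1 (hA.subset_left_of_subset_union (hO b₀)
    (v := ⋃ b ∈ {b | Disjoint (S b₀) (S b)}, S b) (isOpen_biUnion fun b _ => hO b)
    (disjoint_iUnion₂_right.2 fun b hb => hb) (fun y hy => ?_) ⟨x₀, hx₀, h0⟩ hx)⟩
  obtain ⟨b, b1, b2⟩ := hs y hy
  by_cases hb : Disjoint (S b₀) (S b)
  · exact Or.inr (mem_biUnion (s := {b | Disjoint (S b₀) (S b)}) hb b2)
  obtain ⟨w, w1, w2⟩ := not_disjoint_iff.1 hb
  obtain ⟨c₀, c1, c2⟩ := (hS _ _).1 w1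
  obtain ⟨c, c3, c4⟩ := (hS _ _).1 w2
  obtain ⟨e, e1, e2⟩ := (hS _ _).1 b2
  have h1 := sub_mem c2 c4
  have h2 : a - b₀ - Q.d c₀ - (a - b - Q.d c) = b - b₀ - Q.d (c₀ - c) := by
    rw [map_sub]
    abel
  rw [h2] at h1
  have h3 := add_mem e2 (FC.mem_van.1
    (h.inj n hn w _ (sub_mem b1 hb₀) _ (sub_mem c1 c3) h1) y (mem_univ _))
  have h4 : a - b - Q.d e + (b - b₀) = a - b₀ - Q.d e := by abel
  rw [h4] at h3
  exact Or.inl ((hS _ _).2 ⟨e, e1, h3⟩)

theorem dtb_ind {N : ℕ} {Q : FC (Fin N → ℝ) V} {n₀ : ℤ} {B : ℤ → AddSubgroup V}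
    (h : Q.LC n₀ B) (m : ℕ) : ∀ K : Set (Fin N → ℝ), IsCompact K → Convex ℝ K →
    (∀ x ∈ K, ∀ y ∈ K, ∀ i : Fin N, m ≤ i.val → x i = y i) → ∀ n < n₀, ∀ a ∈ Q.G n,
    (∀ x ∈ K, ∃ c ∈ Q.G (n - 1), a - Q.d c ∈ Q.z x) →
    ∃ c ∈ Q.G (n - 1), a - Q.d c ∈ Q.van K := by
  induction m with
  | zero =>
    intro K _ _ hm n _ a _ hl
    rcases K.eq_empty_or_nonempty with rfl | ⟨x, hx⟩
    · exact ⟨0, (Q.G _).zero_mem, FC.van_empty _⟩
    · obtain ⟨c, hc, h1⟩ := hl x hx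
      refine ⟨c, hc, FC.mem_van.2 fun y hy => ?_⟩
      have e : y = x := funext fun i => hm y hy x hx i (Nat.zero_le _)
      rw [e]
      exact h1
  | succ m ih =>
    intro K hK hc hm n hn a ha hl
    by_cases hN : m < N
    swap
    · exact ih K hK hc (fun x _ y _ i hi => absurd i.2 (by omega)) n hn a ha hl
    obtain ⟨g, hg⟩ : ∃ g : (Fin N → ℝ) → ℝ, g = fun x => x ⟨m, hN⟩ := ⟨_, rfl⟩
    have g1 : Continuous g := hg ▸ continuous_apply _
    have k1 : ∀ {F : Set ℝ}, IsClosed F → IsCompact (K ∩ g ⁻¹' F) := fun hF =>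
      hK.inter_right (hF.preimage g1)
    have k2 : ∀ t, Convex ℝ (K ∩ g ⁻¹' {t}) := fun t => by
      rw [hg]
      exact hc.inter ((convex_singleton t).linear_preimage
        (LinearMap.proj (R := ℝ) (φ := fun _ : Fin N => ℝ) ⟨m, hN⟩))
    have k3 : ∀ t, ∀ x ∈ K ∩ g ⁻¹' {t}, ∀ y ∈ K ∩ g ⁻¹' {t}, ∀ i : Fin N, m ≤ i.val →
        x i = y i := by
      intro t x hx y hy i hi
      rcases hi.eq_or_lt with e | e
      · have e1 : i = ⟨m, hN⟩ := Fin.ext e.symm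
        have e2 : g x = g y := hx.2.trans hy.2.symm
        rw [hg] at e2
        rw [e1]
        exact e2
      · exact hm x hx.1 y hy.1 i e
    refine slice_ind hK g1.continuousOn (fun A => ∃ c ∈ Q.G (n - 1), a - Q.d c ∈ Q.van A)
      ⟨0, (Q.G _).zero_mem, FC.van_empty _⟩
      (fun A A' e ⟨c, hc, h1⟩ => ⟨c, hc, FC.van_anti e h1⟩) (fun t => ?_) ?_
    · obtain ⟨c, c1, c2⟩ := ih _ (k1 isClosed_singleton) (k2 t) (k3 t) n hn a ha
        fun x hx => hl x hx.1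
      exact ⟨_, Q.opn (a - Q.d c), FC.mem_van.1 c2, c, c1, FC.van_self _⟩
    · rintro t t' htt ⟨c, c1, c2⟩ ⟨c', c1', c2'⟩
      have s1 : K ∩ g ⁻¹' {t} ⊆ K ∩ g ⁻¹' Iic t := fun x hx => ⟨hx.1, le_of_eq hx.2⟩
      have s2 : K ∩ g ⁻¹' {t} ⊆ K ∩ g ⁻¹' Icc t t' := fun x hx =>
        ⟨hx.1, ge_of_eq hx.2, (le_of_eq hx.2).trans htt⟩
      have s3 : K ∩ g ⁻¹' Iic t ∩ (K ∩ g ⁻¹' Icc t t') ⊆ K ∩ g ⁻¹' {t} := fun x hx =>
        ⟨hx.1.1, le_antisymm hx.1.2 hx.2.2.1⟩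
      have s4 : K ∩ g ⁻¹' Iic t' ⊆ K ∩ g ⁻¹' Iic t ∪ K ∩ g ⁻¹' Icc t t' := fun x hx =>
        (le_total (g x) t).imp (fun e => ⟨hx.1, e⟩) fun e => ⟨hx.1, e, hx.2⟩
      have hn' : n - 1 < n₀ := by omega
      have e1 : Q.d (c - c') ∈ Q.van (K ∩ g ⁻¹' {t}) := by
        have h1 := sub_mem (FC.van_anti s2 c2') (FC.van_anti s1 c2)
        have h2 : a - Q.d c' - (a - Q.d c) = Q.d (c - c') := by
          rw [map_sub]
          abel
        rwa [h2] at h1
      obtain ⟨b, b1, b2⟩ := h.const hn' (k2 t).isPreconnected (sub_mem c1 c1') e1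
      obtain ⟨e, e2, e3⟩ := ih _ (k1 isClosed_singleton) (k2 t) (k3 t) (n - 1) hn' _
        (sub_mem (sub_mem c1 c1') (h.mem _ hn' b b1)) b2
      have e4 : c - (c' + b + Q.d e) ∈ Q.van (K ∩ g ⁻¹' Iic t ∩ (K ∩ g ⁻¹' Icc t t')) := by
        have h2 : c - c' - b - Q.d e = c - (c' + b + Q.d e) := by abel
        rw [← h2]
        exact FC.van_anti s3 e3
      obtain ⟨u, u1, u2, u3⟩ := FC.glueK (k1 isClosed_Iic) (k1 isClosed_Icc) c1
        (add_mem (add_mem c1' (h.mem _ hn' b b1)) (FC.dG' e2)) e4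
      refine ⟨u, u1, FC.van_anti s4 (FC.van_union.2 ⟨?_, ?_⟩)⟩
      · have h1 := sub_mem c2 (FC.d_van u2)
        have h2 : a - Q.d c - Q.d (u - c) = a - Q.d u := by
          rw [map_sub]
          abel
        rwa [h2] at h1
      · have h1 := sub_mem (sub_mem c2' (FC.van_anti (subset_univ _) (h.cl _ hn' b b1)))
          (FC.d_van u3)
        have h2 : a - Q.d c' - Q.d b - Q.d (u - (c' + b + Q.d e)) = a - Q.d u := by
          rw [map_sub, map_add, map_add, Q.dd]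
          abel
        rwa [h2] at h1

/-- compact convex sets are acyclic -/
theorem FC.LC.exact_compact {N : ℕ} {Q : FC (Fin N → ℝ) V} {n₀ : ℤ} {B : ℤ → AddSubgroup V}
    (h : Q.LC n₀ B) {K : Set (Fin N → ℝ)} (hK : IsCompact K) (hc : Convex ℝ K) {n : ℤ}
    (hn : n < n₀) {a : V} (ha : a ∈ Q.G n)
    (hl : ∀ x ∈ K, ∃ c ∈ Q.G (n - 1), a - Q.d c ∈ Q.z x) :
    ∃ c ∈ Q.G (n - 1), a - Q.d c ∈ Q.van K := by
  exact dtb_ind h N K hK hc (fun x _ y _ i hi => absurd i.2 (by omega)) n hn a ha hl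

theorem FC.LC.ac_compact {N : ℕ} {Q : FC (Fin N → ℝ) V} {n₀ : ℤ} {B : ℤ → AddSubgroup V}
    (h : Q.LC n₀ B) {K : Set (Fin N → ℝ)} (hK : IsCompact K) (hc : Convex ℝ K) {n : ℤ}
    (hn : n < n₀) : Q.AC B n K := by
  intro a ha hd
  obtain ⟨b, b1, b2⟩ := h.const hn hc.isPreconnected ha hd
  exact ⟨b, b1, h.exact_compact hK hc hn (sub_mem ha (h.mem n hn b b1)) b2⟩

end Pool.Agent.PWD.TI
end
end

-- part Pool.Agent.P.MP_65ad7c_ag.DTB2
section

open Set Filter Topology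

noncomputable section
namespace Pool.Agent.PWD.TI

variable {T : Type} [TopologicalSpace T] {V : Type} [AddCommGroup V] {Q : FC T V}

theorem exists_convex_exhaustion {N : ℕ} {O : Set (Fin N → ℝ)} (hO : IsOpen O) (hc : Convex ℝ O) :
    ∃ K : ℕ → Set (Fin N → ℝ), (∀ i, IsCompact (K i) ∧ Convex ℝ (K i) ∧ K i ⊆ O) ∧ Monotone K ∧
      ∀ x ∈ O, ∃ i, x ∈ interior (K i) := by
  refine ⟨fun i => {x | ∀ y ∉ O, 1 / ((i : ℝ) + 1) ≤ dist y x} ∩ Metric.closedBall 0 i,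
    fun i => ⟨?_, ?_, ?_⟩, ?_, ?_⟩
  · refine (isCompact_closedBall _ _).inter_left ?_
    have e : {x : Fin N → ℝ | ∀ y ∉ O, 1 / ((i : ℝ) + 1) ≤ dist y x} =
        ⋂ y ∈ Oᶜ, {x | 1 / ((i : ℝ) + 1) ≤ dist y x} := by
      ext x; simp only [mem_iInter, mem_compl_iff]; rfl
    rw [e]
    exact isClosed_biInter fun y _ => isClosed_le continuous_const (by fun_prop)
  · refine Convex.inter ?_ (convex_closedBall _ _)
    intro x1 h1 x2 h2 s t hs ht hst y hy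
    by_contra hlt
    have k : ∀ x, (∀ y ∉ O, 1 / ((i : ℝ) + 1) ≤ dist y x) → x + (y - (s • x1 + t • x2)) ∈ O := by
      intro x hx
      by_contra hn
      have := hx _ hn
      rw [dist_eq_norm, add_sub_cancel_left, ← dist_eq_norm] at this
      exact hlt this
    have := hc (k x1 h1) (k x2 h2) hs ht hst
    have e : s • (x1 + (y - (s • x1 + t • x2))) + t • (x2 + (y - (s • x1 + t • x2))) = y := by
      rw [smul_add, smul_add, add_add_add_comm, ← add_smul, hst, one_smul, add_sub_cancel]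
    exact hy (e ▸ this)
  · rintro x ⟨hx, -⟩
    by_contra hn
    have := hx x hn
    rw [dist_self] at this
    have h0 : (0 : ℝ) < 1 / ((i : ℝ) + 1) := by positivity
    linarith
  · rintro i j hij x ⟨h1, h2⟩
    have hij' : (i : ℝ) ≤ j := by exact_mod_cast hij
    refine ⟨fun y hy => le_trans ?_ (h1 y hy), Metric.closedBall_subset_closedBall hij' h2⟩
    exact one_div_le_one_div_of_le (by positivity) (by linarith)
  · intro x hx
    obtain ⟨ε, hε, hb⟩ := Metric.isOpen_iff.1 hO x hx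
    obtain ⟨i, hi⟩ := exists_nat_gt (max (2 / ε) (‖x‖ + ε / 2))
    have i1 : 2 / ε < i := (le_max_left _ _).trans_lt hi
    have i2 : ‖x‖ + ε / 2 < i := (le_max_right _ _).trans_lt hi
    refine ⟨i, mem_interior.2 ⟨Metric.ball x (ε / 2), fun x' hx' => ⟨fun y hy => ?_, ?_⟩,
      Metric.isOpen_ball, Metric.mem_ball_self (by positivity)⟩⟩
    · have a1 : ε ≤ dist y x := not_lt.1 fun hl => hy (hb hl)
      have a2 := dist_triangle y x' x
      have a3 : dist x' x < ε / 2 := hx'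
      have a4 : 1 / ((i : ℝ) + 1) ≤ ε / 2 := by
        rw [div_le_iff₀ (by positivity)]
        rw [div_lt_iff₀ hε] at i1
        nlinarith
      linarith
    · have a3 : dist x' x < ε / 2 := hx'
      have a2 := dist_triangle x' x 0
      rw [dist_zero_right x] at a2
      exact Metric.mem_closedBall.2 (by linarith)

/-- open convex sets are acyclic -/
theorem FC.LC.ac_open {N : ℕ} {Q : FC (Fin N → ℝ) V} {n₀ : ℤ} {B : ℤ → AddSubgroup V}
    (h : Q.LC n₀ B) {O : Set (Fin N → ℝ)} (hO : IsOpen O) (hc : Convex ℝ O) {n : ℤ}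
    (hn : n < n₀) : Q.AC B n O := by
  intro a ha hd
  obtain ⟨K, hK, hm, hi⟩ := exists_convex_exhaustion hO hc
  obtain ⟨b, hb, hl⟩ := h.const hn hc.isPreconnected ha hd
  have he : ∀ i, ∃ c ∈ Q.G (n - 1), a - b - Q.d c ∈ Q.van (K i) := fun i =>
    h.exact_compact (hK i).1 (hK i).2.1 hn (sub_mem ha (h.mem n hn b hb))
      fun x hx => hl x ((hK i).2.2 hx)
  have step : ∀ i, ∀ c : {c // c ∈ Q.G (n - 1) ∧ a - b - Q.d c ∈ Q.van (K i)},
      ∃ c' : {c // c ∈ Q.G (n - 1) ∧ a - b - Q.d c ∈ Q.van (K (i + 1))},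
        c'.1 - c.1 ∈ Q.van (K i) := by
    rintro i ⟨c, hc1, hc2⟩
    obtain ⟨e, he1, he2⟩ := he (i + 1)
    have hde : Q.d (e - c) ∈ Q.van (K i) := by
      have := sub_mem hc2 (FC.van_anti (hm (Nat.le_succ i)) he2)
      have e1 : Q.d (e - c) = a - b - Q.d c - (a - b - Q.d e) := by
        rw [map_sub]; abel
      rwa [e1]
    obtain ⟨b2, hb2, g, hg, hs⟩ := h.ac_compact (hK i).1 (hK i).2.1 (n := n - 1) (by omega)
      (e - c) (sub_mem he1 hc1) hde
    refine ⟨⟨e - b2 - Q.d g, sub_mem (sub_mem he1 (h.mem _ (by omega) _ hb2)) (FC.dG' hg), ?_⟩, ?_⟩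
    · have := add_mem he2 (FC.van_anti (subset_univ _) (h.cl (n - 1) (by omega) _ hb2))
      have e1 : a - b - Q.d (e - b2 - Q.d g) = a - b - Q.d e + Q.d b2 := by
        rw [map_sub, map_sub, Q.dd]; abel
      rwa [e1]
    · have e1 : e - b2 - Q.d g - c = e - c - b2 - Q.d g := by abel
      simp only
      rwa [e1]
  choose f hf using step
  obtain ⟨c0, hc0⟩ := he 0
  let c : ∀ i, {c // c ∈ Q.G (n - 1) ∧ a - b - Q.d c ∈ Q.van (K i)} := fun i =>
    Nat.rec ⟨c0, hc0⟩ (fun i ci => f i ci) i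
  have hc1 : ∀ i, (c (i + 1)).1 - (c i).1 ∈ Q.van (K i) := fun i => hf i (c i)
  have hc2 : ∀ i j, i ≤ j → (c j).1 - (c i).1 ∈ Q.van (K i) := by
    intro i j hij
    induction j, hij using Nat.le_induction with
    | base => rw [sub_self]; exact zero_mem _
    | succ j hij ih =>
      have := add_mem (FC.van_anti (hm hij) (hc1 j)) ih
      rwa [sub_add_sub_cancel] at this
  obtain ⟨g, hg, hgl⟩ := Q.glue (n - 1) ℕ (fun i => interior (K i)) (fun i => (c i).1)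
    (fun _ => isOpen_interior) (fun i => (c i).2.1) (by
      intro i j x hx
      rcases le_total i j with hij | hij
      · have := neg_mem (FC.mem_van.1 (hc2 i j hij) x (interior_subset hx.1))
        rwa [neg_sub] at this
      · exact FC.mem_van.1 (hc2 j i hij) x (interior_subset hx.2))
  refine ⟨b, hb, g, hg, FC.mem_van.2 fun x hx => ?_⟩
  obtain ⟨i, hxi⟩ := hi x hx
  have := sub_mem (FC.mem_van.1 (c i).2.2 x (interior_subset hxi)) (Q.dz x _ (hgl i x hxi))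
  have e1 : a - b - Q.d g = a - b - Q.d (c i).1 - Q.d (g - (c i).1) := by
    rw [map_sub]; abel
  rwa [e1]

theorem FC.LC.zs_univ {N : ℕ} {Q : FC (Fin N → ℝ) V} {n₀ : ℤ} {B : ℤ → AddSubgroup V}
    (h : Q.LC n₀ B) {n : ℤ} (hn : n < n₀) (hB : B n = ⊥) : Q.Zs n univ := by
  intro a ha _ hd
  obtain ⟨b, hb, c, hc, hs⟩ := h.ac_open isOpen_univ convex_univ hn a ha hd
  rw [hB, AddSubgroup.mem_bot] at hb
  rw [hb, sub_zero] at hs
  exact ⟨c, hc, by rw [compl_univ]; exact FC.van_empty c, hs⟩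

theorem FC.LC.zs_compl {N : ℕ} {Q : FC (Fin N → ℝ) V} {n₀ : ℤ} {B : ℤ → AddSubgroup V}
    (h : Q.LC n₀ B) {A : Set (Fin N → ℝ)} (hO : IsOpen A) (hc : Convex ℝ A) (hne : A.Nonempty)
    {n : ℤ} (hn : n < n₀) : Q.Zs n Aᶜ := by
  intro a ha h0 hd
  rw [compl_compl] at h0 ⊢
  obtain ⟨b, hb, c, hc1, hs⟩ := h.ac_open isOpen_univ convex_univ hn a ha hd
  obtain ⟨x, hx⟩ := hne
  have hb0 : b ∈ Q.van univ := by
    refine h.inj n hn x b hb (-c) (neg_mem hc1) ?_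
    have := sub_mem (FC.mem_van.1 h0 x hx) (FC.mem_van.1 hs x trivial)
    have e1 : b - Q.d (-c) = a - (a - b - Q.d c) := by rw [map_neg]; abel
    rwa [e1]
  have hs' : a - Q.d c ∈ Q.van univ := by
    have := add_mem hs hb0
    have e1 : a - Q.d c = a - b - Q.d c + b := by abel
    rwa [e1]
  have hdc : Q.d c ∈ Q.van A := by
    have := sub_mem h0 (FC.van_anti (subset_univ A) hs')
    rwa [sub_sub_cancel] at this
  obtain ⟨b2, hb2, g, hg, hs2⟩ := h.ac_open hO hc (n := n - 1) (by omega) c hc1 hdc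
  refine ⟨c - b2 - Q.d g, sub_mem (sub_mem hc1 (h.mem _ (by omega) _ hb2)) (FC.dG' hg), hs2, ?_⟩
  have := add_mem hs' (h.cl (n - 1) (by omega) _ hb2)
  have e1 : a - Q.d (c - b2 - Q.d g) = a - Q.d c + Q.d b2 := by
    rw [map_sub, map_sub, Q.dd]; abel
  rwa [e1]

end Pool.Agent.PWD.TI
end
end

-- part Pool.Agent.P.MP_65ad7c_ag.DTC
section

open Set Filter Topology

noncomputable section
namespace Pool.Agent.PWD.TI

variable {T : Type} [TopologicalSpace T] {V : Type} [AddCommGroup V] {Q : FC T V}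

theorem dtc_mv {j : ℤ} {K A A' : Set T} (hK : IsClosed K) (hA : IsOpen A) (hA' : IsOpen A')
    (hu : Q.Zs (j - 1) (K ∩ (A ∩ A')ᶜ)) (h : Q.Zs j (K ∩ Aᶜ)) (h' : Q.Zs j (K ∩ A'ᶜ)) :
    Q.Zs j (K ∩ (A ∪ A')ᶜ) := by
  have := FC.Zs.inter (hK.inter hA.isClosed_compl) (hK.inter hA'.isClosed_compl)
    (by rwa [← inter_union_distrib_left, ← compl_inter]) h h'
  rwa [← inter_inter_distrib_left, ← compl_union] at this

/-- the box in the first `m` coordinates -/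
def dtc_K {N : ℕ} (p : Fin N → ℝ) (r : ℝ) (m : ℕ) : Set (Fin N → ℝ) :=
  {x | ∀ i : Fin N, i.val < m → |x i - p i| ≤ r}

/-- open convex sets that do not depend on the first `m` coordinates -/
def dtc_G {N : ℕ} (m : ℕ) (A : Set (Fin N → ℝ)) : Prop :=
  IsOpen A ∧ Convex ℝ A ∧ A.Nonempty ∧ ∀ x ∈ A, ∀ y, (∀ i : Fin N, m ≤ i.val → y i = x i) → y ∈ A

theorem dtc_closed {N : ℕ} (p : Fin N → ℝ) (r : ℝ) (m : ℕ) : IsClosed (dtc_K p r m) := by
  simp only [dtc_K, ofPred_forall]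
  exact isClosed_iInter fun i => isClosed_iInter fun _ =>
    isClosed_le (by fun_prop) continuous_const

theorem dtc_half {N : ℕ} (i : Fin N) {S : Set ℝ} (ho : IsOpen S) (hc : Convex ℝ S)
    (hn : S.Nonempty) : dtc_G i.val {x : Fin N → ℝ | x i ∈ S} :=
  ⟨ho.preimage (continuous_apply i), fun _ hx _ hy _ _ ha hb hab => hc hx hy ha hb hab,
    hn.elim fun t ht => ⟨fun _ => t, ht⟩, fun x hx y h => by
      show y i ∈ S
      rw [h i le_rfl]
      exact hx⟩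

theorem dtc_mono {N m : ℕ} {A : Set (Fin N → ℝ)} (h : dtc_G (m + 1) A) : dtc_G m A :=
  ⟨h.1, h.2.1, h.2.2.1, fun x hx y e => h.2.2.2 x hx y fun i hi => e i (by omega)⟩

theorem dtc_inter {N : ℕ} (i : Fin N) {S : Set ℝ} (ho : IsOpen S) (hc : Convex ℝ S)
    (hn : S.Nonempty) {A : Set (Fin N → ℝ)} (h : dtc_G (i.val + 1) A) :
    dtc_G i.val (A ∩ {x : Fin N → ℝ | x i ∈ S}) := by
  have g := dtc_half i ho hc hn
  obtain ⟨x, hx⟩ := h.2.2.1
  obtain ⟨t, ht⟩ := hn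
  refine ⟨h.1.inter g.1, h.2.1.inter g.2.1, ⟨Function.update x i t,
    h.2.2.2 x hx _ fun k hk => Function.update_of_ne (by rintro rfl; omega) _ _, ?_⟩,
    fun x hx y e => ⟨(dtc_mono h).2.2.2 x hx.1 y e, g.2.2.2 x hx.2 y e⟩⟩
  show Function.update x i t i ∈ S
  rwa [Function.update_self]

theorem dtc_ind {N : ℕ} {Q : FC (Fin N → ℝ) V} {n₀ e : ℤ} {B : ℤ → AddSubgroup V}
    (h : Q.LC n₀ B) (he : ∀ n < e, B n = ⊥) (hn : e + N ≤ n₀) (p : Fin N → ℝ) {r : ℝ} (hr : 0 ≤ r)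
    (m : ℕ) (hm : m ≤ N) : (∀ j < e + m, Q.Zs j (dtc_K p r m)) ∧
      ∀ A, dtc_G m A → ∀ j < n₀, Q.Zs j (dtc_K p r m ∩ Aᶜ) := by
  induction m with
  | zero =>
    have e0 : dtc_K p r 0 = univ := eq_univ_of_forall fun x i hi => absurd hi (Nat.not_lt_zero _)
    rw [e0]
    refine ⟨fun j hj => h.zs_univ (by omega) (he j (by omega)), fun A hA j hj => ?_⟩
    rw [univ_inter]
    exact h.zs_compl hA.1 hA.2.1 hA.2.2.1 hj
  | succ m ih =>
    obtain ⟨ia, ib⟩ := ih (by omega)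
    set i : Fin N := ⟨m, hm⟩ with hi
    have hK := dtc_closed p r m
    have g1 : dtc_G m _ := dtc_half i isOpen_Ioi (convex_Ioi (p i + r)) nonempty_Ioi
    have g2 : dtc_G m _ := dtc_half i isOpen_Iio (convex_Iio (p i - r)) nonempty_Iio
    have e0 : {x : Fin N → ℝ | x i ∈ Ioi (p i + r)} ∩ {x : Fin N → ℝ | x i ∈ Iio (p i - r)} = ∅ :=
      eq_empty_of_forall_notMem fun x hx => by
        have h1 : p i + r < x i := hx.1
        have h2 : x i < p i - r := hx.2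
        linarith
    have e1 : dtc_K p r (m + 1) = dtc_K p r m ∩
        ({x : Fin N → ℝ | x i ∈ Ioi (p i + r)} ∪ {x : Fin N → ℝ | x i ∈ Iio (p i - r)})ᶜ := by
      ext x
      simp only [dtc_K, mem_inter_iff, mem_compl_iff, mem_union, mem_ofPred_eq, mem_Ioi, mem_Iio,
        not_or, not_lt]
      constructor
      · intro hx
        have := abs_le.1 (hx i (Nat.lt_succ_self m))
        exact ⟨fun k hk => hx k (by omega), by linarith [this.2], by linarith [this.1]⟩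
      · rintro ⟨h1, h2, h3⟩ k hk
        rcases Nat.lt_succ_iff_lt_or_eq.1 hk with h4 | h4
        · exact h1 k h4
        · rw [show k = i from Fin.ext h4]
          exact abs_le.2 ⟨by linarith, by linarith⟩
    rw [e1]
    refine ⟨fun j hj => dtc_mv hK g1.1 g2.1 ?_ (ib _ g1 j (by push_cast at hj; omega))
      (ib _ g2 j (by push_cast at hj; omega)), fun A hA j hj => ?_⟩
    · rw [e0, compl_empty, inter_univ]
      exact ia _ (by push_cast at hj; omega)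
    · have hA' := dtc_mono hA
      have k1 := dtc_mv hK hA.1 g1.1 (ib _ (dtc_inter i isOpen_Ioi (convex_Ioi (p i + r))
        nonempty_Ioi hA) _ (by omega)) (ib _ hA' j hj) (ib _ g1 j hj)
      have k2 := dtc_mv hK hA.1 g2.1 (ib _ (dtc_inter i isOpen_Iio (convex_Iio (p i - r))
        nonempty_Iio hA) _ (by omega)) (ib _ hA' j hj) (ib _ g2 j hj)
      have := dtc_mv hK (hA.1.union g1.1) (hA.1.union g2.1) (by
        rw [← union_inter_distrib_left, e0, union_empty]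
        exact ib _ hA' _ (by omega)) k1 k2
      rwa [← union_union_distrib_left, union_comm, compl_union, ← inter_assoc] at this

/-- cohomology with supports in a closed box -/
theorem FC.LC.zs_box {N : ℕ} {Q : FC (Fin N → ℝ) V} {n₀ e : ℤ} {B : ℤ → AddSubgroup V}
    (h : Q.LC n₀ B) (he : ∀ n < e, B n = ⊥) (hn : e + N ≤ n₀) (p : Fin N → ℝ) {r : ℝ} (hr : 0 ≤ r)
    {j : ℤ} (hj : j < e + N) : Q.Zs j (Metric.closedBall p r) := by
  have e1 : Metric.closedBall p r = dtc_K p r N := by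
    ext x
    simp only [Metric.mem_closedBall, dist_pi_le_iff hr, Real.dist_eq, dtc_K, mem_ofPred_eq]
    exact ⟨fun hx i _ => hx i, fun hx i => hx i i.2⟩
  rw [e1]
  exact (dtc_ind h he hn p hr N le_rfl).1 j hj

theorem FC.LC.pza_point {N : ℕ} {Q : FC (Fin N → ℝ) V} {n₀ e : ℤ} {B : ℤ → AddSubgroup V}
    (h : Q.LC n₀ B) (he : ∀ n < e, B n = ⊥) (hn : e + N ≤ n₀) (p : Fin N → ℝ) :
    Q.PZA (e + N) {p} := by
  intro j hj K _ hK
  rw [nhdsSet_singleton] at hK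
  obtain ⟨r, hr, h1⟩ := Metric.nhds_basis_closedBall.mem_iff.1 hK
  refine ⟨Metric.closedBall p r, Metric.isClosed_closedBall, ?_, fun a ha h2 h3 => ?_⟩
  · rw [nhdsSet_singleton]
    exact Metric.closedBall_mem_nhds p hr
  · obtain ⟨c, c1, c2, c3⟩ := h.zs_box he hn p hr.le hj a ha h2 h3
    exact ⟨c, c1, FC.van_anti (compl_subset_compl.2 h1) c2, c3⟩

end Pool.Agent.PWD.TI
end
end

-- part Pool.Agent.P.MP_65ad7c_ag.DTD
section

open Set Filter Topology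

noncomputable section
namespace Pool.Agent.PWD.TI

variable {T : Type} [TopologicalSpace T] {V : Type} [AddCommGroup V] {Q : FC T V}

theorem FC.PZ.mono {j : ℤ} {C C' K : Set T} (h : Q.PZ j C K) (hs : C' ⊆ C) : Q.PZ j C' K := by
  obtain ⟨K', h1, h2, h3⟩ := h
  exact ⟨K', h1, nhdsSet_mono hs h2, h3⟩

theorem FC.pz_empty (j : ℤ) (K : Set T) : Q.PZ j ∅ K := by
  refine ⟨∅, isClosed_empty, by simp, fun a _ ha _ => ⟨0, zero_mem _, zero_mem _, ?_⟩⟩
  simpa using ha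

theorem FC.PZ.union [T2Space T] [RegularSpace T] {j : ℤ} {C C' K : Set T} (hC : IsCompact C)
    (hC' : IsCompact C') (h : Q.PZ j C K) (h' : Q.PZ j C' K)
    (hi : ∀ M, IsClosed M → M ∈ 𝓝ˢ (C ∩ C') → Q.PZ (j + 1) (C ∩ C') M) : Q.PZ j (C ∪ C') K := by
  obtain ⟨K1, k1, n1, p1⟩ := h
  obtain ⟨K2, k2, n2, p2⟩ := h'
  obtain ⟨M, -, nM, pM⟩ := hi (K1 ∩ K2) (k1.inter k2)
    (inter_mem (nhdsSet_mono inter_subset_left n1) (nhdsSet_mono inter_subset_right n2))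
  obtain ⟨L, L', l1, l2, m1, m2, s1, s2, s3⟩ := exists_closed_inter hC hC' n1 n2 nM
  refine ⟨L ∪ L', l1.union l2, union_mem_nhdsSet m1 m2, fun a ha hv hd => ?_⟩
  obtain ⟨b, hb, b1, b2⟩ := FC.split l1 l2 ha hv
  have e1 : Q.d b = Q.d a - Q.d (a - b) := by rw [map_sub, sub_sub_cancel]
  have d1 : Q.d b ∈ Q.van Mᶜ := by
    refine FC.van_anti (compl_subset_compl.2 s3) ?_
    rw [compl_inter, FC.van_union]
    refine ⟨FC.d_van b1, ?_⟩
    rw [e1]
    exact sub_mem (FC.van_anti (subset_univ _) hd) (FC.d_van b2)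
  obtain ⟨β, hβ, β1, β2⟩ := pM (Q.d b) (Q.dG j b hb) d1 (by rw [Q.dd]; exact zero_mem _)
  rw [add_sub_cancel_right] at hβ
  obtain ⟨c1, g1, v1, w1⟩ := p1 (b - β) (sub_mem hb hβ)
    (sub_mem (FC.van_anti (compl_subset_compl.2 s1) b1)
      (FC.van_anti (compl_subset_compl.2 inter_subset_left) β1)) (by rw [map_sub]; exact β2)
  obtain ⟨c2, g2, v2, w2⟩ := p2 (a - b + β) (add_mem (sub_mem ha hb) hβ)
    (add_mem (FC.van_anti (compl_subset_compl.2 s2) b2)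
      (FC.van_anti (compl_subset_compl.2 inter_subset_right) β1)) (by
      have e : Q.d (a - b + β) = Q.d a - (Q.d b - Q.d β) := by
        rw [map_add, map_sub]; abel
      rw [e]
      exact sub_mem hd β2)
  refine ⟨c1 + c2, add_mem g1 g2, add_mem v1 v2, ?_⟩
  have e : a - Q.d (c1 + c2) = (b - β - Q.d c1) + (a - b + β - Q.d c2) := by
    rw [map_add]; abel
  rw [e]
  exact add_mem w1 w2

theorem FC.pza_finite [T2Space T] [RegularSpace T] {j₁ : ℤ} (hp : ∀ p, Q.PZA j₁ {p}) {C : Set T}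
    (hC : C.Finite) : Q.PZA j₁ C := by
  intro j hj K hK
  induction C, hC using Set.Finite.induction_on with
  | empty => exact fun _ => FC.pz_empty j K
  | @insert p s hp' hs ih =>
    intro hn
    rw [insert_eq] at hn ⊢
    refine FC.PZ.union isCompact_singleton hs.isCompact
      (hp p j hj K hK (nhdsSet_mono subset_union_left hn))
      (ih (nhdsSet_mono subset_union_right hn)) fun M _ _ => ?_
    rw [singleton_inter_eq_empty.2 hp']
    exact FC.pz_empty _ _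

/-- a compact set with a finite-to-one map to `ℝ^m` -/
theorem FC.pza_dim [T2Space T] [RegularSpace T] {j₁ : ℤ} (hp : ∀ p, Q.PZA j₁ {p}) (m : ℕ)
    {C : Set T} (hC : IsCompact C) {f : T → Fin m → ℝ} (hf : ContinuousOn f C)
    (hfin : ∀ v, (C ∩ f ⁻¹' {v}).Finite) : Q.PZA (j₁ - m) C := by
  induction m generalizing C with
  | zero =>
    have h : C.Finite := (hfin 0).subset fun x hx => ⟨hx, Subsingleton.elim (f x) 0⟩
    simpa using FC.pza_finite hp h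
  | succ m ih =>
    intro j hj K hK hn
    have hg : ContinuousOn (fun x => f x 0) C := continuousOn_pi.1 hf 0
    have hc : ∀ S : Set ℝ, IsClosed S → IsCompact (C ∩ (fun x => f x 0) ⁻¹' S) := fun S hS =>
      hC.of_isClosed_subset (hg.preimage_isClosed_of_isClosed hC.isClosed hS) inter_subset_left
    have hsl : ∀ t : ℝ, Q.PZA (j₁ - m) (C ∩ (fun x => f x 0) ⁻¹' {t}) := fun t =>
      ih (hc _ isClosed_singleton) (f := fun x => Fin.tail (f x))
        (continuousOn_pi.2 fun i => (continuousOn_pi.1 hf i.succ).mono inter_subset_left)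
        fun v => (hfin (Fin.cons t v)).subset fun x hx => ⟨hx.1.1, by
          have h1 : f x 0 = t := hx.1.2
          have h2 : Fin.tail (f x) = v := hx.2
          rw [mem_preimage, mem_singleton_iff, ← h1, ← h2, Fin.cons_self_tail]⟩
    push_cast at hj
    refine slice_ind hC hg (fun A => Q.PZ j A K) (FC.pz_empty j K) (fun A A' h1 h2 => h2.mono h1)
      (fun t => ?_) fun t t' _ h1 h2 => ?_
    · obtain ⟨K', h1, h2, h3⟩ := hsl t j (by omega) K hK (nhdsSet_mono inter_subset_left hn)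
      exact ⟨interior K', isOpen_interior, subset_interior_iff_mem_nhdsSet.2 h2, K', h1,
        subset_interior_iff_mem_nhdsSet.1 Subset.rfl, h3⟩
    · have e : C ∩ (fun x => f x 0) ⁻¹' Iic t ∩ (C ∩ (fun x => f x 0) ⁻¹' Icc t t') =
          C ∩ (fun x => f x 0) ⁻¹' {t} := by
        ext x
        simp only [mem_inter_iff, mem_preimage, mem_Iic, mem_Icc, mem_singleton_iff]
        exact ⟨fun h => ⟨h.1.1, le_antisymm h.1.2 h.2.2.1⟩, fun h =>
          ⟨⟨h.1, h.2.le⟩, h.1, h.2.ge, by rwa [h.2]⟩⟩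
      refine (FC.PZ.union (hc _ isClosed_Iic) (hc _ isClosed_Icc) h1 h2 fun M hM hM' => ?_).mono
        fun x hx => ?_
      · rw [e] at hM' ⊢
        exact hsl t (j + 1) (by omega) M hM hM'
      · exact (le_total (f x 0) t).imp (fun h => ⟨hx.1, h⟩) fun h => ⟨hx.1, h, hx.2⟩

end Pool.Agent.PWD.TI
end
end

-- part Pool.Agent.P.MP_65ad7c_ag.DTE
section

open Set Filter Topology

noncomputable section
namespace Pool.Agent.PWD.TI

variable {T : Type} [TopologicalSpace T] {V : Type} [AddCommGroup V] {Q : FC T V}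

/-- cocycles supported in `K'` bound with support in `K` -/
def dte_Bd (Q : FC T V) (n : ℤ) (K' K : Set T) : Prop :=
  ∀ a ∈ Q.G n, a ∈ Q.van K'ᶜ → Q.d a ∈ Q.van univ →
    ∃ c ∈ Q.G (n - 1), c ∈ Q.van Kᶜ ∧ a - Q.d c ∈ Q.van univ

theorem dte_mono {n : ℤ} {K' K'' K : Set T} (h : dte_Bd Q n K' K) (e : K'' ⊆ K') :
    dte_Bd Q n K'' K := fun a ha h1 h2 => h a ha (FC.van_anti (compl_subset_compl.2 e) h1) h2

theorem dte_seq {T : Type} [MetricSpace T] {Q : FC T V} {j₀ : ℤ} {C : Set T}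
    (h : Q.PZA j₀ C) {j : ℤ} (hj : j < j₀) : ∃ K : ℕ → Set T, (∀ i, IsClosed (K i)) ∧
      (∀ i, C ⊆ K i) ∧ (∀ i, K (i + 1) ⊆ K i) ∧
      (∀ i : ℕ, K (i + 1) ⊆ Metric.cthickening (1 / ((i : ℝ) + 1)) C) ∧
      (∀ i, dte_Bd Q j (K (i + 1)) (K i)) ∧ ∀ i, dte_Bd Q (j - 1) (K (i + 1)) (K i) := by
  have step : ∀ (i : ℕ) (K : {K : Set T // IsClosed K ∧ K ∈ 𝓝ˢ C}),
      ∃ K' : {K : Set T // IsClosed K ∧ K ∈ 𝓝ˢ C}, K'.1 ⊆ K.1 ∧
        K'.1 ⊆ Metric.cthickening (1 / ((i : ℝ) + 1)) C ∧ dte_Bd Q j K'.1 K.1 ∧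
        dte_Bd Q (j - 1) K'.1 K.1 := by
    intro i K
    obtain ⟨K1, c1, n1, b1⟩ := h j hj K.1 K.2.1 K.2.2
    obtain ⟨K2, c2, n2, b2⟩ := h (j - 1) (by omega) K.1 K.2.1 K.2.2
    refine ⟨⟨(K1 ∩ K2) ∩ (K.1 ∩ Metric.cthickening (1 / ((i : ℝ) + 1)) C),
      (c1.inter c2).inter (K.2.1.inter Metric.isClosed_cthickening),
      inter_mem (inter_mem n1 n2) (inter_mem K.2.2
        (Metric.cthickening_mem_nhdsSet C (by positivity)))⟩,
      fun x hx => hx.2.1, fun x hx => hx.2.2, dte_mono b1 fun x hx => hx.1.1,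
      dte_mono b2 fun x hx => hx.1.2⟩
  choose f hf using step
  let K : ℕ → {K : Set T // IsClosed K ∧ K ∈ 𝓝ˢ C} :=
    fun n => Nat.rec ⟨univ, isClosed_univ, univ_mem⟩ (fun i K => f i K) n
  exact ⟨fun i => (K i).1, fun i => (K i).2.1, fun i => subset_of_mem_nhdsSet (K i).2.2,
    fun i => (hf i (K i)).1, fun i => (hf i (K i)).2.1, fun i => (hf i (K i)).2.2.1,
    fun i => (hf i (K i)).2.2.2⟩

/-- pro-zero implies zero -/
theorem FC.PZA.zs {T : Type} [MetricSpace T] {Q : FC T V} {j₀ : ℤ} {C : Set T} (hC : IsCompact C)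
    (h : Q.PZA j₀ C) {j : ℤ} (hj : j < j₀) : Q.Zs j C := by
  obtain ⟨K, hc, hs, hm, ht, b1, b2⟩ := dte_seq h hj
  have anti : Antitone K := antitone_nat_of_succ_le hm
  intro a ha h1 h2
  choose β hβ1 hβ2 hβ3 using fun i =>
    b1 i a ha (FC.van_anti (compl_subset_compl.2 (hs (i + 1))) h1) h2
  have hγ : ∀ i, ∃ c ∈ Q.G (j - 1 - 1), c ∈ Q.van (K i)ᶜ ∧
      β (i + 1) - β (i + 2) - Q.d c ∈ Q.van univ := fun i =>
    b2 i _ (sub_mem (hβ1 _) (hβ1 _))
      (sub_mem (hβ2 _) (FC.van_anti (compl_subset_compl.2 (hm (i + 1))) (hβ2 _))) (by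
        have := sub_mem (hβ3 (i + 2)) (hβ3 (i + 1))
        rwa [show a - Q.d (β (i + 2)) - (a - Q.d (β (i + 1))) = Q.d (β (i + 1) - β (i + 2)) by
          rw [map_sub]; abel] at this)
  choose γ hγ1 hγ2 hγ3 using hγ
  have hle : ∀ M M', M ≤ M' → ∑ i ∈ Finset.range M', γ i - ∑ i ∈ Finset.range M, γ i ∈
      Q.van (K M)ᶜ := by
    intro M M' e
    rw [← Finset.sum_Ico_eq_sub _ e]
    exact sum_mem fun i hi =>
      FC.van_anti (compl_subset_compl.2 (anti (Finset.mem_Ico.1 hi).1)) (hγ2 i)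
  obtain ⟨g, hg1, hg2⟩ := Q.glue (j - 1 - 1) ℕ (fun M => (K M)ᶜ)
    (fun M => ∑ i ∈ Finset.range M, γ i) (fun M => (hc M).isOpen_compl)
    (fun M => sum_mem fun i _ => hγ1 i) (fun M M' x hx => by
      rcases le_total M M' with e | e
      · simpa using (Q.z x).neg_mem (FC.mem_van.1 (hle M M' e) x hx.1)
      · exact FC.mem_van.1 (hle M' M e) x hx.2)
  have tel : ∀ M, β 1 - β (M + 1) - Q.d (∑ i ∈ Finset.range M, γ i) ∈ Q.van univ := by
    intro M
    induction M with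
    | zero => simp
    | succ M ih =>
      have := add_mem ih (hγ3 M)
      rwa [show β 1 - β (M + 1) - Q.d (∑ i ∈ Finset.range M, γ i) +
          (β (M + 1) - β (M + 2) - Q.d (γ M)) =
          β 1 - β (M + 1 + 1) - Q.d (∑ i ∈ Finset.range (M + 1), γ i) by
        rw [Finset.sum_range_succ, map_add]; abel] at this
  refine ⟨β 1 - Q.d g, sub_mem (hβ1 1) (FC.dG' hg1), FC.mem_van.2 fun x hx => ?_, ?_⟩
  · obtain ⟨M, hM⟩ : ∃ M, x ∉ K M := by
      by_contra h0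
      push Not at h0
      refine hx (hC.isClosed.closure_subset ?_)
      rw [Metric.closure_eq_iInter_cthickening]
      refine mem_iInter₂.2 fun δ hδ => ?_
      obtain ⟨i, hi⟩ := exists_nat_one_div_lt hδ
      exact Metric.cthickening_mono hi.le C (ht i (h0 (i + 1)))
    have := sub_mem (add_mem (FC.mem_van.1 (tel M) x trivial)
      (FC.mem_van.1 (hβ2 (M + 1)) x fun h' => hM (hm M h'))) (Q.dz x _ (hg2 M x hM))
    rwa [show β 1 - β (M + 1) - Q.d (∑ i ∈ Finset.range M, γ i) + β (M + 1) -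
        Q.d (g - ∑ i ∈ Finset.range M, γ i) = β 1 - Q.d g by rw [map_sub]; abel] at this
  · rw [map_sub, Q.dd, sub_zero]
    exact hβ3 1

end Pool.Agent.PWD.TI
end
end

-- part Pool.Agent.P.MP_65ad7c_ag.DTE2
section

open Set Filter Topology

noncomputable section
namespace Pool.Agent.PWD.TI

variable {T : Type} [TopologicalSpace T] {V : Type} [AddCommGroup V] {Q : FC T V}

theorem sphere_proj_finite {m : ℕ} (c : Fin (m + 1) → ℝ) (ρ : ℝ) (v : Fin m → ℝ) :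
    {w : Fin (m + 1) → ℝ | ∑ i, (w i - c i) ^ 2 = ρ ∧ Fin.tail w = v}.Finite := by
  obtain ⟨s, hs⟩ : ∃ s, s = ρ - ∑ i : Fin m, (v i - c i.succ) ^ 2 := ⟨_, rfl⟩
  refine ((toFinite ({c 0 + √s, c 0 - √s} : Set ℝ)).image
    fun t => (Fin.cons t v : Fin (m + 1) → ℝ)).subset ?_
  rintro w ⟨h1, rfl⟩
  refine ⟨w 0, ?_, Fin.cons_self_tail w⟩
  rw [Fin.sum_univ_succ] at h1
  have h2 : (w 0 - c 0) ^ 2 = s := by
    rw [hs, ← h1]
    exact (add_sub_cancel_right _ _).symm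
  rw [← h2, Real.sqrt_sq_eq_abs]
  rcases abs_cases (w 0 - c 0) with ⟨h, -⟩ | ⟨h, -⟩
  · exact Or.inl (by rw [h]; ring)
  · exact Or.inr (by rw [h]; show w 0 = _; ring)

theorem dte2_zs_empty (j : ℤ) : Q.Zs j ∅ := fun a _ h _ =>
  ⟨0, zero_mem _, zero_mem _, by simpa using h⟩

theorem dte2_sphere {T : Type} [MetricSpace T] {Q : FC T V} {j₁ : ℤ} (hp : ∀ p, Q.PZA j₁ {p})
    {m : ℕ} {C : Set T} (hC : IsCompact C) {f : T → Fin m → ℝ} (hf : ContinuousOn f C)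
    (hi : InjOn f C) {c : Fin m → ℝ} {ρ : ℝ} (hρ : 0 < ρ) (hq : ∀ y ∈ C, ∑ i, (f y i - c i) ^ 2 = ρ)
    {j : ℤ} (hj : j < j₁ - m) : Q.Zs (j + 1) C := by
  rcases m with _ | m
  · obtain rfl : C = ∅ := eq_empty_of_forall_notMem fun y hy => hρ.ne (by simpa using hq y hy)
    exact dte2_zs_empty _
  · refine (FC.pza_dim hp m hC (f := fun y => Fin.tail (f y))
      (continuousOn_pi.2 fun i => continuousOn_pi.1 hf i.succ) fun v => ?_).zs hC
      (by push_cast at hj; omega)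
    exact Finite.of_injOn (f := f) (fun y hy => And.intro (hq y hy.1) hy.2)
      (hi.mono inter_subset_left) (sphere_proj_finite c ρ v)

/-- the local form: costalks along a closed set of dimension `≤ m` -/
theorem FC.cos_dim {T : Type} [MetricSpace T] [LocallyCompactSpace T] {Q : FC T V} {j₁ : ℤ}
    (hp : ∀ p, Q.PZA j₁ {p}) {m : ℕ} {O W : Set T} (hO : IsOpen O) (hW : IsOpen W) {x : T}
    (hx : x ∈ W) {f : T → Fin m → ℝ} (hf : ContinuousOn f (W \ O)) (hi : InjOn f (W \ O)) {j : ℤ}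
    (hj : j < j₁ - m) : Q.Cos j O x := by
  intro a ha h0 hd
  by_cases hxO : x ∈ O
  · exact ⟨0, zero_mem _, zero_mem _, by simpa using FC.mem_van.1 h0 x hxO⟩
  obtain ⟨D, hD, hxD, hDW⟩ := exists_compact_subset (hW.inter (Q.opn (Q.d a))) ⟨hx, hd⟩
  have hR : IsCompact (D \ O) := hD.diff hO
  have hRW : D \ O ⊆ W \ O := fun y hy => ⟨(hDW hy.1).1, hy.2⟩
  obtain ⟨q, hq⟩ : ∃ q : T → ℝ, q = fun y => ∑ i, (f y i - f x i) ^ 2 := ⟨_, rfl⟩
  have hqc : ContinuousOn q (D \ O) := by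
    rw [hq]
    exact continuousOn_finsetSum _ fun i _ =>
      ((continuousOn_pi.1 (hf.mono hRW) i).sub continuousOn_const).pow 2
  have hqx : q x = 0 := by simp [hq]
  obtain ⟨ρ', hρ', h1⟩ := (hR.diff isOpen_interior : IsCompact ((D \ O) \ interior D)).exists_forall_le'
    (hqc.mono sdiff_subset) (a := 0) fun y hy => by
      have h2 : 0 ≤ q y := by
        rw [hq]
        exact Finset.sum_nonneg fun i _ => sq_nonneg _
      refine h2.lt_of_ne fun h3 => hy.2 ?_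
      rw [hq] at h3
      have h4 := (Finset.sum_eq_zero_iff_of_nonneg fun i _ => sq_nonneg _).1 h3.symm
      have h5 : f y = f x := funext fun i =>
        sub_eq_zero.1 (pow_eq_zero_iff two_ne_zero |>.1 (h4 i (Finset.mem_univ i)))
      rwa [hi (hRW hy.1) ⟨hx, hxO⟩ h5]
  have hρ : 0 < ρ' / 2 := half_pos hρ'
  have hc : ∀ S : Set ℝ, IsClosed S → IsCompact ((D \ O) ∩ q ⁻¹' S) := fun S hS =>
    hR.of_isClosed_subset (hqc.preimage_isClosed_of_isClosed hR.isClosed hS) inter_subset_left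
  have hC := hc _ (isClosed_Iic (a := ρ' / 2))
  have hC1 := hc _ (isClosed_singleton (x := ρ' / 2))
  have hC2 := hc _ (isClosed_Ici (a := ρ' / 2))
  obtain ⟨a1, ha1, e1, e2⟩ := FC.cut (isOpen_interior.sdiff hC2.isClosed : IsOpen (interior D \ _))
    hC.isClosed.isOpen_compl ha (FC.van_anti (fun y hy => by
      by_contra h2
      have h3 : y ∈ D \ O := ⟨interior_subset hy.1.1, h2⟩
      rcases le_total (q y) (ρ' / 2) with h4 | h4
      · exact hy.2 ⟨h3, h4⟩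
      · exact hy.1.2 ⟨h3, h4⟩) h0)
  have e3 : Q.d a1 ∈ Q.van ((D \ O) ∩ q ⁻¹' {ρ' / 2})ᶜ := FC.mem_van.2 fun y hy => by
    by_cases h2 : y ∈ (D \ O) ∩ q ⁻¹' Iic (ρ' / 2)
    · have h3 : q y < ρ' / 2 := lt_of_le_of_ne h2.2 fun h => hy ⟨h2.1, h⟩
      have h4 : y ∈ interior D := by
        by_contra h
        linarith [h1 y ⟨h2.1, h⟩]
      have h5 := add_mem (Q.dz y _ (FC.mem_van.1 e1 y ⟨h4, fun h => h3.not_ge h.2⟩))
        (hDW h2.1.1).2
      simpa using h5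
    · exact Q.dz y _ (FC.mem_van.1 e2 y h2)
  obtain ⟨β, hβ, b1, b2⟩ := dte2_sphere hp hC1 (hf.mono (inter_subset_left.trans hRW))
    (hi.mono (inter_subset_left.trans hRW)) (c := f x) hρ (fun y hy => by
      have := hy.2
      rwa [hq] at this) hj _ (Q.dG _ _ ha1) e3 (by rw [Q.dd]; exact zero_mem _)
  rw [add_sub_cancel_right] at hβ
  have hfin : ∀ v, (((D \ O) ∩ q ⁻¹' Iic (ρ' / 2)) ∩ f ⁻¹' {v}).Finite := fun v =>
    Finite.of_injOn (f := f) (t := {v}) (fun y hy => hy.2)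
      (hi.mono (inter_subset_left.trans (inter_subset_left.trans hRW))) (finite_singleton v)
  have hz : Q.Zs j ((D \ O) ∩ q ⁻¹' Iic (ρ' / 2)) :=
    (FC.pza_dim hp m hC (hf.mono (inter_subset_left.trans hRW)) hfin).zs hC hj
  have hs : ((D \ O) ∩ q ⁻¹' Iic (ρ' / 2))ᶜ ⊆ ((D \ O) ∩ q ⁻¹' {ρ' / 2})ᶜ :=
    fun y hy h => hy ⟨h.1, le_of_eq h.2⟩
  obtain ⟨c, hc1, c1, c2⟩ := hz (a1 - β) (sub_mem ha1 hβ) (sub_mem e2 (FC.van_anti hs b1))
    (by rwa [map_sub])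
  refine ⟨c, hc1, FC.van_anti (fun y hy h => h.1.2 hy) c1, ?_⟩
  have h6 := add_mem (sub_mem (FC.mem_van.1 c2 x trivial)
    (FC.mem_van.1 e1 x ⟨hxD, fun h => by
      have h7 : ρ' / 2 ≤ q x := h.2
      linarith⟩)) (FC.mem_van.1 b1 x fun h => by
      have h7 : q x = ρ' / 2 := h.2
      linarith)
  rwa [show a1 - β - Q.d c - (a1 - a) + β = a - Q.d c by abel] at h6

end Pool.Agent.PWD.TI
end
end

-- part Pool.Agent.P.MP_65ad7c_ag.DTH
section

open Set Filter Topology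

noncomputable section
namespace Pool.Agent.PWD.TI

variable {T : Type} [TopologicalSpace T] {V : Type} [AddCommGroup V] {Q : FC T V}

theorem dth_fix {A : Set T} {a b c : V} (h : a - Q.d c ∈ Q.van A) (h' : b - c ∈ Q.van A) :
    a - Q.d b ∈ Q.van A := by
  have e : a - Q.d b = (a - Q.d c) - Q.d (b - c) := by
    rw [map_sub]; abel
  rw [e]
  exact (Q.van A).sub_mem h (FC.d_van h')

theorem dth_neg {A : Set T} {b c : V} (h' : b - c ∈ Q.van A) : c - b ∈ Q.van A := by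
  have := (Q.van A).neg_mem h'
  rwa [neg_sub] at this

theorem dth_step {n : ℤ} {O : Set T} (hO : IsOpen O) (h : ∀ x ∈ O, Q.Ex n {x})
    (ih : ∀ O', IsOpen O' → O' ⊆ O → Q.Ex (n - 1) O') : Q.Ex n O := by
  intro a ha hda
  let P : Type := {p : Set T × V //
    IsOpen p.1 ∧ p.1 ⊆ O ∧ p.2 ∈ Q.G (n - 1) ∧ a - Q.d p.2 ∈ Q.van p.1}
  let r : P → P → Prop := fun p q => p.1.1 ⊆ q.1.1 ∧ p.1.2 - q.1.2 ∈ Q.van p.1.1
  have htr : ∀ {p q s : P}, r p q → r q s → r p s := by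
    intro p q s h1 h2
    refine ⟨h1.1.trans h2.1, ?_⟩
    have := (Q.van p.1.1).add_mem h1.2 (FC.van_anti h1.1 h2.2)
    rwa [sub_add_sub_cancel] at this
  have hch : ∀ c : Set P, IsChain r c → ∃ ub, ∀ p ∈ c, r p ub := by
    intro c hc
    obtain ⟨b, hb, hb'⟩ := Q.glue (n - 1) c (fun i => i.1.1.1) (fun i => i.1.1.2)
      (fun i => i.1.2.1) (fun i => i.1.2.2.2.1) (by
        intro i j x hx
        by_cases e : i.1 = j.1
        · rw [e, sub_self]; exact (Q.z x).zero_mem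
        · rcases hc i.2 j.2 e with h1 | h1
          · exact FC.mem_van.1 h1.2 x hx.1
          · exact FC.mem_van.1 (dth_neg h1.2) x hx.2)
    refine ⟨⟨(⋃ i : c, i.1.1.1, b), isOpen_iUnion fun i => i.1.2.1,
      iUnion_subset fun i => i.1.2.2.1, hb, ?_⟩, ?_⟩
    · refine FC.mem_van.2 fun x hx => ?_
      obtain ⟨i, hi⟩ := mem_iUnion.1 hx
      exact FC.mem_van.1 (dth_fix i.1.2.2.2.2 (FC.mem_van.2 (hb' i))) x hi
    · intro p hp
      exact ⟨subset_iUnion (fun i : c => i.1.1.1) ⟨p, hp⟩, dth_neg (FC.mem_van.2 (hb' ⟨p, hp⟩))⟩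
  obtain ⟨⟨⟨W, c⟩, hW, hWO, hc, hac⟩, hm⟩ := exists_maximal_of_chains_bounded hch htr
  refine ⟨c, hc, FC.van_anti (fun x hx => ?_) hac⟩
  obtain ⟨cx, hcx, hx'⟩ := h x hx a ha (FC.van_single.2 (FC.mem_van.1 hda x hx))
  have hWx : IsOpen (O ∩ {y | a - Q.d cx ∈ Q.z y}) := hO.inter (Q.opn _)
  have hax : a - Q.d cx ∈ Q.van (O ∩ {y | a - Q.d cx ∈ Q.z y}) :=
    FC.van_anti inter_subset_right (FC.van_self _)
  obtain ⟨g, hg, hg'⟩ := ih (W ∩ (O ∩ {y | a - Q.d cx ∈ Q.z y})) (hW.inter hWx)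
    (inter_subset_left.trans hWO) (c - cx) ((Q.G _).sub_mem hc hcx) (by
      have e : Q.d (c - cx) = (a - Q.d cx) - (a - Q.d c) := by rw [map_sub]; abel
      rw [e]
      exact (Q.van _).sub_mem (FC.van_anti inter_subset_right hax)
        (FC.van_anti inter_subset_left hac))
  obtain ⟨b, hb, b1, b2⟩ := FC.glue2 hW hWx hc ((Q.G _).add_mem hcx (FC.dG' hg)) (by
    rw [← sub_sub]; exact hg')
  have hq : a - Q.d b ∈ Q.van (W ∪ (O ∩ {y | a - Q.d cx ∈ Q.z y})) := by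
    refine FC.van_union.2 ⟨dth_fix hac b1, dth_fix ?_ b2⟩
    rw [map_add, Q.dd, add_zero]
    exact hax
  have := hm ⟨(W ∪ (O ∩ {y | a - Q.d cx ∈ Q.z y}), b), hW.union hWx,
    union_subset hWO inter_subset_left, hb, hq⟩ ⟨subset_union_left, dth_neg b1⟩
  exact this.1 (Or.inr ⟨hx, FC.van_single.1 hx'⟩)

/-- locally exact in degrees `≤ a` implies exact -/
theorem FC.Ex.of_loc {O : Set T} (hO : IsOpen O) {a : ℤ} (h : ∀ n ≤ a, ∀ x ∈ O, Q.Ex n {x}) :
    ∀ n ≤ a, Q.Ex n O := by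
  have key : ∀ k : ℕ, ∀ n ≤ a, n < k → ∀ O', IsOpen O' → O' ⊆ O → Q.Ex n O' := by
    intro k
    induction k with
    | zero =>
      intro n _ hn O' _ _ s hs _
      refine ⟨0, (Q.G _).zero_mem, ?_⟩
      rw [Q.neg n (by simpa using hn) s hs, map_zero, sub_zero]
      exact (Q.van _).zero_mem
    | succ k ih =>
      intro n hna hn O' hO' hs
      refine dth_step hO' (fun x hx => h n hna x (hs hx)) fun O'' hO'' hs' => ?_
      exact ih (n - 1) (by omega) (by push_cast at hn; omega) O'' hO'' (hs'.trans hs)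
  intro n hn
  exact key (n.toNat + 1) n hn (by push_cast; omega) O hO subset_rfl

theorem FC.cos_iff_sub {n : ℤ} {O : Set T} (hO : IsOpen O) {x : T} :
    Q.Cos n O x ↔ (Q.sub O hO).Ex n {x} := by
  constructor
  · intro h a ha hd
    obtain ⟨c, hc, hc', h'⟩ := h a ha.1 ha.2 (FC.van_single.1 hd)
    exact ⟨c, ⟨hc, hc'⟩, FC.van_single.2 h'⟩
  · intro h a ha ha' hd
    obtain ⟨c, hc, h'⟩ := h a ⟨ha, ha'⟩ (FC.van_single.2 hd)
    exact ⟨c, hc.1, hc.2, FC.van_single.1 h'⟩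

theorem FC.cos_of_mem {n : ℤ} {O : Set T} {x : T} (hx : x ∈ O) : Q.Cos n O x := by
  intro a _ ha _
  refine ⟨0, (Q.G _).zero_mem, (Q.van _).zero_mem, ?_⟩
  rw [map_zero, sub_zero]
  exact FC.mem_van.1 ha x hx

theorem FC.Cos.loc {n : ℤ} {O W : Set T} {x : T} (h : Q.Cos n O x) (hO : IsOpen O)
    (hW : IsOpen W) (hx : x ∈ W) {a : V} (ha : a ∈ Q.G n) (h0 : a ∈ Q.van (W ∩ O))
    (hd : Q.d a ∈ Q.z x) : ∃ c ∈ Q.G (n - 1), c ∈ Q.van O ∧ a - Q.d c ∈ Q.z x := by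
  obtain ⟨b, hb, b1, b2⟩ := FC.cut hW hO ha h0
  have b3 : b - a ∈ Q.z x := FC.mem_van.1 b1 x hx
  obtain ⟨c, hc, c1, c2⟩ := h b hb b2 (by
    have e : Q.d b = Q.d a + Q.d (b - a) := by rw [map_sub]; abel
    rw [e]
    exact (Q.z x).add_mem hd (Q.dz x _ b3))
  refine ⟨c, hc, c1, ?_⟩
  have e : a - Q.d c = (b - Q.d c) - (b - a) := by abel
  rw [e]
  exact (Q.z x).sub_mem c2 b3

theorem FC.Cos.congr {n : ℤ} {O O' W : Set T} {x : T} (h : Q.Cos n O x) (hO : IsOpen O)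
    (hO' : IsOpen O') (hW : IsOpen W) (hx : x ∈ W) (he : W ∩ O = W ∩ O') : Q.Cos n O' x := by
  intro a ha ha' hd
  obtain ⟨c, hc, c1, c2⟩ := h.loc hO hW hx ha
    (by rw [he]; exact FC.van_anti inter_subset_right ha') hd
  obtain ⟨b, hb, b1, b2⟩ := FC.cut hW hO' hc
    (by rw [← he]; exact FC.van_anti inter_subset_right c1)
  refine ⟨b, hb, b2, ?_⟩
  exact FC.van_single.1
    (dth_fix (FC.van_single.2 c2) (FC.van_single.2 (FC.mem_van.1 b1 x hx)))

theorem FC.Cos.add {a : ℤ} {O' O'' W : Set T} {x : T} (hO' : IsOpen O') (hO'' : IsOpen O'')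
    (hs : O' ⊆ O'') (hW : IsOpen W) (hx : x ∈ W) (h1 : ∀ y ∈ W ∩ O'', ∀ n ≤ a, Q.Cos n O' y)
    (h2 : Q.Cos a O'' x) : Q.Cos a O' x := by
  intro s hsG hsv hd
  have hW2 : IsOpen (W ∩ {y | Q.d s ∈ Q.z y}) := hW.inter (Q.opn _)
  have hE : (Q.sub O' hO').Ex a ((W ∩ {y | Q.d s ∈ Q.z y}) ∩ O'') :=
    FC.Ex.of_loc (hW2.inter hO'')
      (fun n hn y hy => (FC.cos_iff_sub hO').1 (h1 y ⟨hy.1.1, hy.2⟩ n hn)) a le_rfl
  obtain ⟨β, hβ, hβ'⟩ := hE s ⟨hsG, hsv⟩ (FC.mem_van.2 fun y hy => hy.1.2)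
  have hβ2 : s - Q.d β ∈ Q.van ((W ∩ {y | Q.d s ∈ Q.z y}) ∩ O'') :=
    FC.mem_van.2 fun y hy => FC.mem_van.1 hβ' y hy
  obtain ⟨c, hc, c1, c2⟩ := h2.loc hO'' hW2 ⟨hx, hd⟩ ((Q.G a).sub_mem hsG (FC.dG' hβ.1)) hβ2 (by
    rw [map_sub, Q.dd, sub_zero]; exact hd)
  refine ⟨β + c, (Q.G _).add_mem hβ.1 hc, (Q.van _).add_mem hβ.2 (FC.van_anti hs c1), ?_⟩
  rw [map_add, ← sub_sub]
  exact c2

end Pool.Agent.PWD.TI
end
end

-- part Pool.Agent.P.MP_65ad7c_ag.DTF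
section

open Set Filter Topology

noncomputable section
namespace Pool.Agent.PWD.TI

variable {T : Type} [TopologicalSpace T] {V : Type} [AddCommGroup V] {Q : FC T V}

/-- sections vanishing on `A`, seen on a chart `ψ` of the complement of `A` in `W` -/
def dtfPull (Q : FC T V) {S : Type} [TopologicalSpace S] {ψ : S → T} (hψ : IsInducing ψ)
    {A W : Set T} (hA : IsOpen A) (hW : IsOpen W) (h1 : ∀ t, ψ t ∈ W)
    (h2 : ∀ y ∈ W, y ∉ A → y ∈ range ψ) : FC S V where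
  d := Q.d
  G n := Q.G n ⊓ Q.van A
  z t := Q.z (ψ t)
  dd := Q.dd
  dG n a ha := ⟨Q.dG n a ha.1, FC.d_van ha.2⟩
  dz t := Q.dz (ψ t)
  opn a := (Q.opn a).preimage hψ.continuous
  neg n hn a ha := Q.neg n hn a ha.1
  glue n ι O a hO ha hc := by
    choose P hP hPO using fun i => hψ.isOpen_iff.1 (hO i)
    obtain ⟨b, hb, h'⟩ := (Q.sub A hA).glue n ι (fun i => P i ∩ W) a (fun i => (hP i).inter hW) ha
      fun i j y hy => by
        by_cases hy' : y ∈ A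
        · exact (Q.z y).sub_mem (FC.mem_van.1 (ha i).2 y hy') (FC.mem_van.1 (ha j).2 y hy')
        · obtain ⟨t, rfl⟩ := h2 y hy.1.2 hy'
          exact hc i j t ⟨hPO i ▸ hy.1.1, hPO j ▸ hy.2.1⟩
    exact ⟨b, hb, fun i t ht => h' i (ψ t) ⟨(hPO i).ge ht, h1 t⟩⟩

/-- costalks along a subset of dimension `≤ m` of a stratum -/
theorem SAX.cos_piece {d : ℕ} {U : ℕ → Set T} (h : SAX Q d U) {c : ℕ} {x : T}
    (hx : x ∈ U (c + 1) \ U c) {O W : Set T} (hO : IsOpen O) (hW : IsOpen W) (hxW : x ∈ W) {m : ℕ}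
    {f : T → Fin m → ℝ} (hf : ContinuousOn f (W \ O)) (hi : InjOn f (W \ O)) {j : ℤ}
    (hj : j < eC c + (2 * (d - c) : ℕ) - m) : Q.Cos j (O ∪ U c) x := by
  choose W' B hW' hxW' hB hS using h.lc c x hx
  obtain ⟨W₁, ψ, hW₁, hx₁, hs, hψ, hr⟩ := h.chart c x hx
    (W ∩ U (c + 1) ∩ ⋂ n ∈ Finset.Ico (eC c) (eC c + (2 * (d - c) : ℕ)), W' n)
    ((hW.inter (h.opn _)).inter (isOpen_biInter_finset fun n _ => hW' n))
    ⟨⟨hxW, hx.1⟩, mem_iInter₂.2 fun n _ => hxW' n⟩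
  have h0 : ∀ t, ψ t ∈ W₁ ∩ (U (c + 1) \ U c) := fun t => hr.le (mem_range_self t)
  have h2 : ∀ y ∈ W₁, y ∉ U c → y ∈ range ψ := fun y hy hy' => hr.ge ⟨hy, (hs hy).1.2, hy'⟩
  have h3 : ∀ n, eC c ≤ n → n < eC c + (2 * (d - c) : ℕ) → ∀ t, ψ t ∈ W' n := fun n h1 h2 t =>
    mem_iInter₂.1 (hs (h0 t).1).2 n (Finset.mem_Ico.2 ⟨h1, h2⟩)
  have hL : (dtfPull Q hψ.isInducing (h.opn c) hW₁ (fun t => (h0 t).1) h2).LC
      (eC c + (2 * (d - c) : ℕ)) fun n => if eC c ≤ n then B n else ⊥ := by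
    refine ⟨fun n _ b hb => ?_, fun n hn b hb => ?_, fun n hn t a ha hd => ?_,
      fun n hn t b hb e he hd => ?_⟩
    · split_ifs at hb with h1
      · exact ⟨(hB n b hb).1, (hB n b hb).2.1⟩
      · rw [AddSubgroup.mem_bot.1 hb]
        exact zero_mem _
    · split_ifs at hb with h1
      · exact FC.mem_van.2 fun t _ => FC.mem_van.1 (hB n b hb).2.2 _ (h3 n h1 hn t)
      · rw [AddSubgroup.mem_bot.1 hb, map_zero]
        exact zero_mem _
    · split_ifs with h1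
      · obtain ⟨b, hb, e, he, he', h4⟩ := (hS n (ψ t) ⟨h3 n h1 hn t, (h0 t).2⟩).1 a ha.1 ha.2 hd
        exact ⟨b, hb, e, ⟨he, he'⟩, h4⟩
      · obtain ⟨e, he, he', h4⟩ := h.cos c (ψ t) (h0 t).2 n (not_le.1 h1) a ha.1 ha.2 hd
        exact ⟨0, zero_mem _, e, ⟨he, he'⟩, by rw [sub_zero]; exact h4⟩
    · split_ifs at hb with h1
      · exact FC.mem_van.2 fun s _ => FC.mem_van.1
          ((hS n (ψ t) ⟨h3 n h1 hn t, (h0 t).2⟩).2 b hb e he.1 he.2 hd) _ (h3 n h1 hn s)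
      · rw [AddSubgroup.mem_bot.1 hb]
        exact zero_mem _
  obtain ⟨t₀, rfl⟩ := h2 x hx₁ hx.2
  have hm : MapsTo ψ (univ \ ψ ⁻¹' O) (W \ O) := fun t ht => ⟨(hs (h0 t).1).1.1, ht.2⟩
  have hC := FC.cos_dim (hL.pza_point (fun n hn => if_neg (not_le.2 hn)) le_rfl)
    (hO.preimage hψ.continuous) isOpen_univ (mem_univ t₀)
    (hf.comp hψ.continuous.continuousOn hm) (hi.comp hψ.injective.injOn hm) hj
  intro a ha h4 hd
  obtain ⟨h5, h6⟩ := FC.van_union.1 h4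
  obtain ⟨e, he, he', h7⟩ := hC a ⟨ha, h6⟩ (FC.mem_van.2 fun t ht => FC.mem_van.1 h5 _ ht) hd
  obtain ⟨b, hb, h8, h9⟩ := FC.cut hW₁ (hO.union (h.opn c)) he.1 (FC.mem_van.2 fun y hy => by
    by_cases hy' : y ∈ U c
    · exact FC.mem_van.1 he.2 y hy'
    · obtain ⟨t, rfl⟩ := h2 y hy.1 hy'
      exact FC.mem_van.1 he' t (hy.2.resolve_right hy'))
  refine ⟨b, hb, h9, ?_⟩
  have := (Q.z _).sub_mem (show a - Q.d e ∈ Q.z (ψ t₀) from h7)
    (Q.dz _ _ (FC.mem_van.1 h8 _ hx₁))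
  convert this using 1
  rw [map_sub]
  abel

end Pool.Agent.PWD.TI
end
end

-- part Pool.Agent.P.MP_65ad7c_ag.DTG
section

open Set Filter Topology

noncomputable section
namespace Pool.Agent.PWD.TI

variable {T : Type} [TopologicalSpace T] {V : Type} [AddCommGroup V] {Q : FC T V}

theorem dtg_ld {d : ℕ} {U : ℕ → Set T} (h : SAX Q d U) (c : ℕ) :
    LD (2 * (d - c)) (U (c + 1) \ U c) := by
  intro x hx
  obtain ⟨W, ψ, hW, hxW, -, hψ, hr⟩ := h.chart c x hx univ isOpen_univ (mem_univ x)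
  have key : ∀ y ∈ W ∩ (U (c + 1) \ U c), ψ (Function.invFun ψ y) = y := fun y hy =>
    Function.invFun_eq (show y ∈ range ψ from hr ▸ hy)
  refine ⟨W, Function.invFun ψ, hW, hxW, ?_, fun y hy y' hy' e => ?_⟩
  · exact hψ.isInducing.continuousOn_iff.2 (continuousOn_id.congr key)
  · rw [← key y hy, e, key y' hy']

theorem SAX.cos_low {d : ℕ} {U : ℕ → Set T} (h : SAX Q d U) {c : ℕ} {x : T}
    (hx : x ∈ U (c + 1) \ U c) {O : Set T} (hO : IsOpen O) {j : ℤ} (hj : j < eC c) :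
    Q.Cos j (O ∪ U c) x := by
  obtain ⟨W, f, hW, hxW, hf, hi⟩ := dtg_ld h c x hx
  have hs : (W ∩ U (c + 1)) \ (O ∪ U c) ⊆ W ∩ (U (c + 1) \ U c) := fun y hy =>
    ⟨hy.1.1, hy.1.2, fun h' => hy.2 (Or.inr h')⟩
  have := h.cos_piece hx (hO.union (h.opn c)) (hW.inter (h.opn (c + 1))) ⟨hxW, hx.1⟩ (hf.mono hs)
    (hi.mono hs) (j := j) (by rwa [add_sub_cancel_right])
  rwa [union_assoc, union_self] at this

/-- COS: the cosupport condition along any locally closed set of dimension `≤ 2 (d - k)` -/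
theorem SAX.cos_dim {d : ℕ} {U : ℕ → Set T} (h : SAX Q d U) {k : ℕ} (hk : 1 ≤ k) (hkd : k ≤ d)
    {O O' : Set T} (hO : IsOpen O) (hO' : IsOpen O') (hd : LD (2 * (d - k)) (O' \ O)) {x : T}
    (hx : x ∈ O') {j : ℤ} (hj : j ≤ k) : Q.Cos j O x := by
  have key : ∀ t i, i + t = d + 1 → Q.Cos j (O ∪ U i) x := by
    intro t
    induction t with
    | zero =>
      intro i hi
      refine FC.cos_of_mem (Or.inr ?_)
      rw [show i = d + 1 from hi, h.top]; trivial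
    | succ t ih =>
      intro i hi
      refine FC.Cos.add (hO.union (h.opn i)) (hO.union (h.opn (i + 1)))
        (union_subset_union_right _ (h.mono (Nat.le_succ i))) hO' hx (fun y hy n hn => ?_)
        (ih (i + 1) (by omega))
      by_cases hm : y ∈ O ∪ U i
      · exact FC.cos_of_mem hm
      have hyO : y ∉ O := fun h' => hm (Or.inl h')
      have hyU : y ∈ U (i + 1) \ U i := ⟨hy.2.resolve_left hyO, fun h' => hm (Or.inr h')⟩
      rcases le_or_gt k i with hki | hki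
      · refine h.cos_low hyU hO ?_
        rw [eC, if_neg (by omega)]
        omega
      · obtain ⟨W, f, hW, hyW, hf, hi'⟩ := hd y ⟨hy.1, hyO⟩
        have hs : (W ∩ O') \ O ⊆ W ∩ (O' \ O) := fun w hw => ⟨hw.1.1, hw.1.2, hw.2⟩
        refine h.cos_piece hyU hO (hW.inter hO') ⟨hyW, hy.1⟩ (hf.mono hs) (hi'.mono hs) ?_
        unfold eC
        split_ifs <;> omega
  have := key (d + 1) 0 (by omega)
  rwa [h.zero, union_empty] at this

theorem SAX.ld {d : ℕ} {U : ℕ → Set T} (h : SAX Q d U) (c : ℕ) :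
    LD (2 * (d - c)) (U (c + 1) \ U c) := dtg_ld h c

theorem LD.mono {m : ℕ} {R R' : Set T} (h : LD m R) (hs : R' ⊆ R) : LD m R' := by
  intro x hx
  obtain ⟨W, f, hW, hxW, hf, hi⟩ := h x (hs hx)
  exact ⟨W, f, hW, hxW, hf.mono (inter_subset_inter_right _ hs),
    hi.mono (inter_subset_inter_right _ hs)⟩

theorem LD.image {T' : Type} [TopologicalSpace T'] {m : ℕ} {R : Set T} (h : LD m R)
    (g : T ≃ₜ T') : LD m (g '' R) := by
  rintro _ ⟨x, hx, rfl⟩
  obtain ⟨W, f, hW, hxW, hf, hi⟩ := h x hx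
  have hm : MapsTo g.symm (g.symm ⁻¹' W ∩ g '' R) (W ∩ R) := by
    rintro _ ⟨h1, y, hy, rfl⟩
    exact ⟨h1, by simpa using hy⟩
  exact ⟨g.symm ⁻¹' W, f ∘ g.symm, hW.preimage g.symm.continuous, by simpa using hxW,
    hf.comp g.symm.continuous.continuousOn hm, hi.comp g.symm.injective.injOn hm⟩

theorem LD.of_loc {m : ℕ} {R : Set T}
    (h : ∀ x ∈ R, ∃ W R', IsOpen W ∧ x ∈ W ∧ LD m R' ∧ W ∩ R ⊆ R') : LD m R := by
  intro x hx
  obtain ⟨W, R', hW, hxW, hR, hs⟩ := h x hx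
  obtain ⟨W', f, hW', hxW', hf, hi⟩ := hR x (hs ⟨hxW, hx⟩)
  have hs' : W' ∩ W ∩ R ⊆ W' ∩ R' := fun y hy => ⟨hy.1.1, hs ⟨hy.1.2, hy.2⟩⟩
  exact ⟨W' ∩ W, f, hW'.inter hW, ⟨hxW', hxW⟩, hf.mono hs', hi.mono hs'⟩

end Pool.Agent.PWD.TI
end
end

-- part Pool.Agent.P.MP_65ad7c_ag.DTQ2
section

open Set Filter Topology TopologicalSpace Pool.Agent.PW.S

noncomputable section
namespace Pool.Agent.PWD.TI

variable {Y : Type} [TopologicalSpace Y]

variable {d : ℕ} {U : ℕ → Opens Y} {I : Cx Y} {one : (I.X 0).obj (U 1)}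

/-- the global sections of degree `k` vanishing on `O` whose restriction to `W` lies in `B` -/
def dtq2B (I : Cx Y) (O W : Opens Y) (k : ℕ) (B : Submodule ℂ (((I.gam O).X k).obj W)) :
    AddSubgroup (∀ n, (I.X n).obj ⊤) where
  carrier := {a | ∃ t : (I.X k).obj ⊤, a = Pi.single k t ∧ (I.X k).res (le_top : O ≤ ⊤) t = 0 ∧
    ∃ b ∈ B, (I.X k).res (le_top : W ≤ ⊤) t = b.1}
  add_mem' := by
    rintro _ _ ⟨t, rfl, h1, b, hb, e⟩ ⟨t', rfl, h1', b', hb', e'⟩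
    refine ⟨t + t', (Pi.single_add _ _ _).symm, by rw [map_add, h1, h1', add_zero], b + b',
      B.add_mem hb hb', ?_⟩
    rw [map_add, e, e']
    rfl
  zero_mem' := ⟨0, (Pi.single_zero _).symm, map_zero _, 0, B.zero_mem, map_zero _⟩
  neg_mem' := by
    rintro _ ⟨t, rfl, h1, b, hb, e⟩
    refine ⟨-t, (Pi.single_neg _ _).symm, by rw [map_neg, h1, neg_zero], -b, B.neg_mem hb, ?_⟩
    rw [map_neg, e]
    rfl

theorem dtq2_lc (hI : CInj univ I) (O : Opens Y) {S : Set Y} {k : ℕ} (h : LCon (I.gam O) S k)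
    {x : Y} (hx : x ∈ S) : ∃ (W : Set Y) (B : AddSubgroup (∀ n, (I.X n).obj ⊤)), IsOpen W ∧ x ∈ W ∧
    (∀ b ∈ B, b ∈ (toFC I hI).G k ∧ b ∈ (toFC I hI).van O ∧
      (toFC I hI).d b ∈ (toFC I hI).van W) ∧ ∀ y ∈ W ∩ S,
      (∀ a ∈ (toFC I hI).G k, a ∈ (toFC I hI).van O → (toFC I hI).d a ∈ (toFC I hI).z y →
        ∃ b ∈ B, ∃ e ∈ (toFC I hI).G ((k : ℤ) - 1), e ∈ (toFC I hI).van O ∧
          a - b - (toFC I hI).d e ∈ (toFC I hI).z y) ∧
      ∀ b ∈ B, ∀ e ∈ (toFC I hI).G ((k : ℤ) - 1), e ∈ (toFC I hI).van O →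
        b - (toFC I hI).d e ∈ (toFC I hI).z y → b ∈ (toFC I hI).van W := by
  obtain ⟨W, B, hxW, hcl, H⟩ := h x hx
  refine ⟨W, dtq2B I O W k B, W.2, hxW, ?_, fun y hy => ⟨fun a ha haO hda => ?_, ?_⟩⟩
  · rintro _ ⟨t, rfl, h1, b, hb, e⟩
    refine ⟨single_mem_gTot I k t, (single_mem_van hI).2 h1, ?_⟩
    change dTot I _ ∈ _
    rw [dTot_single, single_mem_van, (I.d k).nat, e]
    exact congrArg Subtype.val (hcl b hb)
  · have ea : a = Pi.single k (a k) := eq_single_of_mem ha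
    generalize a k = t at ea
    subst ea
    have h1 := (single_mem_van hI).1 haO
    have h2 : dTot I (Pi.single k t) ∈ zTot I y := hda
    rw [dTot_single, single_mem_zTot] at h2
    obtain ⟨W₁, hW₁, hy₁, h2⟩ := h2
    let s : ((I.gam O).X k).obj (W ⊓ W₁) := ⟨(I.X k).res le_top t, by
      change (I.X k).res _ _ = 0
      rw [(I.X k).res_res, ← (I.X k).res_res le_top (inf_le_right : (W ⊓ W₁) ⊓ O ≤ O), h1,
        map_zero]⟩
    have hs : ((I.gam O).d k).app _ s = 0 := by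
      refine Subtype.ext ?_
      change (I.d k).app _ ((I.X k).res le_top t) = 0
      rw [← (I.d k).nat, ← (I.X (k + 1)).res_res hW₁ (inf_le_right : W ⊓ W₁ ≤ W₁), h2, map_zero]
    obtain ⟨b, hb, hbd⟩ := (H y hy.2 hy.1).2 (W ⊓ W₁) inf_le_left s ⟨hy.1, hy₁⟩ hs
    obtain ⟨tb, e1, e2⟩ := gam_extend (hI k) O b
    obtain ⟨e, he, heO, hz⟩ := (locBd_iff hI O (V := W ⊓ W₁) ⟨hy.1, hy₁⟩ _ (t - tb) (by
      rw [map_sub, ← (I.X k).res_res le_top (inf_le_left : W ⊓ W₁ ≤ W) tb, e1]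
      rfl)).1 hbd
    refine ⟨Pi.single k tb, ⟨tb, rfl, e2, b, hb, e1⟩, e, he, heO, ?_⟩
    rwa [Pi.single_sub] at hz
  · rintro _ ⟨t, rfl, h1, b, hb, e1⟩ e he heO hz
    have h2 := (H y hy.2 hy.1).1 b hb ((locBd_iff hI O hy.1 b t e1).2 ⟨e, he, heO, hz⟩)
    rw [single_mem_van, e1, h2]
    rfl

theorem SX.toSAX (h : SX d U I one) : SAX (toFC I h.inj) d fun c => (U c : Set Y) := by
  refine ⟨fun c => (U c).2, fun a b hab => h.mono hab, by rw [h.zero]; rfl, by rw [h.top']; rfl,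
    fun c x hx W₀ h₀ hx₀ => ?_, fun c x hx n hn => ?_, fun c x hx n => ?_⟩
  · obtain ⟨W, φ, hxW, hφ⟩ := h.chart c x hx
    exact exists_chart_univ hφ hx hxW h₀ hx₀
  · rcases lt_or_ge n 0 with h0 | h0
    · exact cos_neg _ h0 _ _
    · lift n to ℕ using h0
      unfold eC at hn
      split_ifs at hn with hc
      · omega
      · exact (cos_iff h.inj (U c) n x).2 (h.cosupp c (by omega) x hx.1 n (by omega))
  · rcases lt_or_ge n 0 with h0 | h0
    · refine ⟨univ, ⊥, isOpen_univ, trivial, fun b hb => ?_, fun y _ => ⟨fun a ha _ _ => ?_,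
        fun b hb _ _ _ _ => ?_⟩⟩
      · rw [AddSubgroup.mem_bot.1 hb, map_zero]
        exact ⟨zero_mem _, zero_mem _, zero_mem _⟩
      · refine ⟨0, zero_mem _, 0, zero_mem _, zero_mem _, ?_⟩
        rw [(toFC I h.inj).neg n h0 a ha, map_zero, sub_zero, sub_zero]
        exact zero_mem _
      · rw [AddSubgroup.mem_bot.1 hb]
        exact zero_mem _
    · lift n to ℕ using h0
      exact dtq2_lc h.inj (U c) (h.lc c n) hx

theorem SX.ld (h : SX d U I one) (c : ℕ) : LD (2 * (d - c)) (U (c + 1) \ U c : Set Y) :=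
  h.toSAX.ld c

theorem SX.cos (h : SX d U I one) {k : ℕ} (hk : 1 ≤ k) (hkd : k ≤ d) {O O' : Opens Y}
    (hd : LD (2 * (d - k)) (O' \ O : Set Y)) {x : Y} (hx : x ∈ O') {n : ℕ} (hn : n ≤ k) :
    (I.gam O).ExAt x n :=
  (cos_iff h.inj O n x).1 (h.toSAX.cos_dim hk hkd O.2 O'.2 hd hx (by exact_mod_cast hn))

theorem SX.cos2 (h : SX d U I one) {k : ℕ} (hk : 1 ≤ k) (hkd : k ≤ d) {O O₁ O' : Opens Y}
    (h1 : O ≤ O₁) (hd : LD (2 * (d - k)) (O₁ \ O : Set Y))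
    (hd' : LD (2 * (d - k)) (O' \ O₁ : Set Y)) {x : Y} (hx : x ∈ O') {n : ℕ} (hn : n ≤ k) :
    (I.gam O).ExAt x n :=
  (cos_iff h.inj O n x).1 (FC.Cos.add O.2 O₁.2 h1 isOpen_univ (mem_univ x)
    (fun _ hy _ hm => h.toSAX.cos_dim hk hkd O.2 O₁.2 hd hy.2 (hm.trans (by exact_mod_cast hn)))
    (h.toSAX.cos_dim hk hkd O₁.2 O'.2 hd' hx (by exact_mod_cast hn)))

end Pool.Agent.PWD.TI
end
end
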