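import Pool.Agent.K.MP_65ad7c_ag.C41
import Pool.Agent.K.MP_65ad7c_ag.C43
import Pool.Agent.P.MP_65ad7c_ag.DDefs
import Pool.Agent.K.MP_65ad7c_ag.C5
import Pool.Agent.P.MP_65ad7c_ag.DS0
import Pool.Agent.K.MP_65ad7c_ag.C45

-- part Pool.Agent.P.MP_65ad7c_ag.XK2
section

open Set Filter Topology MvPolynomial

noncomputable section
namespace Pool.Agent.PWV

variable {N d : ℕ}

/-- `F` is flat at `x` in a stratum of `Z` -/
def FlatIn (Z : ℕ → Set (Fin N → ℂ)) (F : Set (Fin N → ℂ)) (x : Fin N → ℂ) : Prop :=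
  ∃ k, x ∈ Z k \ Z (k + 1) ∧ ∀ W ∈ 𝓝 x, ∃ (O : Set (Fin N → ℂ)) (e m : ℕ)
    (χ : (Fin e → ℂ) × (Fin m → ℂ) → Fin N → ℂ), IsOpen O ∧ x ∈ O ∧ O ⊆ W ∧ IsEmbedding χ ∧
    range χ = Z k ∩ O ∧ O ∩ F ⊆ Z k ∧ ∀ u, χ u ∈ F ↔ u.2 = 0

theorem ne_XK2 {p : Ideal (MvPolynomial (Fin N) ℂ)} (hp : p.IsPrime) : ¬ ZI p ⊆ ∅ := fun h =>
  hp.ne_top ((Ideal.eq_top_iff_one p).2 (null hp fun _ hx => (h hx).elim))

theorem strat_XK2 {Z : ℕ → Set (Fin N → ℂ)} (h0 : Z (d + 1) = ∅)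
    {p : Ideal (MvPolynomial (Fin N) ℂ)} (hp : p.IsPrime) :
    ∃ k, (ZI p ⊆ Z 0 → ZI p ⊆ Z k) ∧ ¬ ZI p ⊆ Z (k + 1) := by
  classical
  have hex : ∃ k, ¬ ZI p ⊆ Z (k + 1) := ⟨d, h0 ▸ ne_XK2 hp⟩
  refine ⟨Nat.find hex, fun h => ?_, Nat.find_spec hex⟩
  rcases hk : Nat.find hex with _ | j
  · exact h
  · exact not_not.1 (Nat.find_min hex (show j < Nat.find hex by omega))

theorem prime_XK2 {Z : ℕ → Set (Fin N → ℂ)} (hZ : ∀ c, ZC (Z c)) (h0 : Z (d + 1) = ∅)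
    (hch : ∀ c, ∃ 𝒢 : Set (Fin (d - c) → MvPolynomial (Fin N) ℂ), 𝒢.Finite ∧
      ∀ x ∈ Z c \ Z (c + 1), ∃ G ∈ 𝒢, Chart (Z c) G x)
    {p : Ideal (MvPolynomial (Fin N) ℂ)} (hp : p.IsPrime) :
    ∃ δ ∉ p, ∀ (F : Set (Fin N → ℂ)) (e : ℕ), ZI p ⊆ F → F ⊆ Z 0 → ¬ Dim (ZI p) e →
      Dim (ZI p) (e + 1) → ∀ x ∈ ZI p, eval x δ ≠ 0 → (∀ᶠ y in 𝓝 x, y ∈ F → y ∈ ZI p) →
      (∃ ι : Fin e → Fin N, Chart F (fun i => X (ι i)) x) ∧ FlatIn Z F x := by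
  obtain ⟨δ₁, a1, e₁, ι, a2, a3, a4⟩ := gchart N p hp
  obtain ⟨k, b1, b2⟩ := strat_XK2 h0 hp
  obtain ⟨δ₂, c1, c2⟩ := vstrata_not_mem (hZ (k + 1)) b2
  obtain ⟨𝒢, g1, g2⟩ := hch k
  obtain ⟨δ₃, d1, d2⟩ := vsw_pair g1 hp
  refine ⟨δ₁ * δ₂ * δ₃, fun h => ?_, fun F e hF hs he he' x hx hδ hev => ?_⟩
  · rcases hp.mem_or_mem h with h | h
    · exact (hp.mem_or_mem h).elim a1 c1
    · exact d1 h
  rw [map_mul, map_mul] at hδ
  have k1 : eval x δ₁ ≠ 0 := left_ne_zero_of_mul (left_ne_zero_of_mul hδ)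
  have k2 : eval x δ₂ ≠ 0 := right_ne_zero_of_mul (left_ne_zero_of_mul hδ)
  have k3 : eval x δ₃ ≠ 0 := right_ne_zero_of_mul hδ
  have hiff : ∀ᶠ y in 𝓝 x, y ∈ F ↔ y ∈ ZI p := hev.mono fun y hy => ⟨hy, fun h => hF h⟩
  have hee : e₁ = e := by
    by_contra hne
    rcases Nat.lt_or_gt_of_ne hne with h | h
    · exact he (a3.mono_nat h)
    · exact a2 (he'.mono_nat h)
  subst hee
  have hk : ZI p ⊆ Z k := b1 (hF.trans hs)
  have hxk : x ∈ Z k \ Z (k + 1) := ⟨hk hx, c2 x k2⟩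
  refine ⟨⟨ι, (a4 x hx k1).congr (hiff.mono fun y hy => hy.symm)⟩, k, hxk, fun W hW => ?_⟩
  obtain ⟨G, hG, hc⟩ := g2 x hxk
  obtain ⟨e', -, H⟩ := d2 G hG
  obtain ⟨m, -, χ, O, q1, q2, q3, q4, q5, q6⟩ :=
    H x hx k3 (Z k) F hk hc hiff (W ∩ {y | y ∈ F → y ∈ ZI p}) (inter_mem hW hev)
  exact ⟨O, e', m, χ, q2, q3, fun y hy => (q4 hy).1, q1, q5,
    fun y hy => hk ((q4 hy.1).2 hy.2), q6⟩

theorem filt_step {Z : ℕ → Set (Fin N → ℂ)} (hZ : ∀ c, ZC (Z c)) (h0 : Z (d + 1) = ∅)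
    (hch : ∀ c, ∃ 𝒢 : Set (Fin (d - c) → MvPolynomial (Fin N) ℂ), 𝒢.Finite ∧
      ∀ x ∈ Z c \ Z (c + 1), ∃ G ∈ 𝒢, Chart (Z c) G x)
    {F : Set (Fin N → ℂ)} (hF : ZC F) (hs : F ⊆ Z 0) {e : ℕ} (hd : Dim F (e + 1)) :
    ∃ V, ZC V ∧ Dim V e ∧ ∀ x ∈ F \ V,
      (∃ ι : Fin e → Fin N, Chart F (fun i => X (ι i)) x) ∧ FlatIn Z F x := by
  choose! δ h1 h2 using fun (p : Ideal (MvPolynomial (Fin N) ℂ)) (hp : p.IsPrime) =>
    prime_XK2 hZ h0 hch hp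
  obtain ⟨V, g1, g2, g3⟩ := comp hF hd δ h1
  refine ⟨V, g1, g2, fun x hx => ?_⟩
  obtain ⟨p, k1, k2, k3, k4, k5, k6⟩ := g3 x hx
  exact h2 p k1 F e k2 hs k3 (hd.mono k2) x k4 k5 k6

theorem exists_filt {Z : ℕ → Set (Fin N → ℂ)} (hZ : ∀ c, ZC (Z c)) (ha : Antitone Z)
    (hd : ∀ c, Dim (Z c) (d + 1 - c))
    (hch : ∀ c, ∃ 𝒢 : Set (Fin (d - c) → MvPolynomial (Fin N) ℂ), 𝒢.Finite ∧
      ∀ x ∈ Z c \ Z (c + 1), ∃ G ∈ 𝒢, Chart (Z c) G x)
    {F₁ : Set (Fin N → ℂ)} (h1 : ZC F₁) (h10 : F₁ ⊆ Z 0) (h11 : Z 1 ⊆ F₁) (hd1 : Dim F₁ d) :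
    ∃ F : ℕ → Set (Fin N → ℂ), F 0 = Z 0 ∧ F 1 = F₁ ∧ Antitone F ∧ (∀ c, ZC (F c)) ∧
      (∀ c, Z c ⊆ F c) ∧ (∀ c, Dim (F c) (d + 1 - c)) ∧ ∀ c, 0 < c → ∀ x ∈ F c \ F (c + 1),
        (∃ ι : Fin (d - c) → Fin N, Chart (F c) (fun i => X (ι i)) x) ∧ FlatIn Z (F c) x := by
  have h0 : Z (d + 1) = ∅ := dim_zero.1 (by simpa using hd (d + 1))
  have step : ∀ (c : ℕ) (A : Set (Fin N → ℂ)), ∃ B : Set (Fin N → ℂ),
      ZC A → A ⊆ Z 0 → Z (c + 1) ⊆ A → Dim A (d + 1 - (c + 1)) →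
      ZC B ∧ B ⊆ A ∧ Z (c + 2) ⊆ B ∧ Dim B (d + 1 - (c + 2)) ∧ ∀ x ∈ A \ B,
        (∃ ι : Fin (d - (c + 1)) → Fin N, Chart A (fun i => X (ι i)) x) ∧ FlatIn Z A x := by
    intro c A
    by_cases hA : ZC A ∧ A ⊆ Z 0 ∧ Z (c + 1) ⊆ A ∧ Dim A (d + 1 - (c + 1))
    swap
    · exact ⟨∅, fun a1 a2 a3 a4 => absurd ⟨a1, a2, a3, a4⟩ hA⟩
    obtain ⟨a1, a2, a3, a4⟩ := hA
    have hz : Z (c + 2) ⊆ A := (ha (show c + 1 ≤ c + 2 by omega)).trans a3
    by_cases hc : c + 1 ≤ d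
    · obtain ⟨V, v1, v2, v3⟩ := filt_step hZ h0 hch a1 a2 (e := d - (c + 1))
        (a4.mono_nat (by omega))
      refine ⟨(V ∩ A) ∪ Z (c + 2), fun _ _ _ _ => ⟨(v1.inter a1).union (hZ _),
        union_subset inter_subset_right hz, subset_union_right,
        Dim.union ((v2.mono inter_subset_left).mono_nat (by omega)) (hd _), fun x hx => ?_⟩⟩
      exact v3 x ⟨hx.1, fun h => hx.2 (Or.inl ⟨h, hx.1⟩)⟩
    · refine ⟨A, fun _ _ _ _ => ⟨a1, Subset.rfl, hz, a4.mono_nat (by omega),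
        fun x hx => absurd hx.1 hx.2⟩⟩
  choose B hB using step
  let G : ℕ → Set (Fin N → ℂ) := fun c => Nat.rec F₁ B c
  have hG0 : G 0 = F₁ := rfl
  have hGs : ∀ c, G (c + 1) = B c (G c) := fun c => rfl
  have inv : ∀ c, ZC (G c) ∧ G c ⊆ Z 0 ∧ Z (c + 1) ⊆ G c ∧ Dim (G c) (d + 1 - (c + 1)) := by
    intro c
    induction c with
    | zero => exact ⟨h1, h10, h11, hd1.mono_nat (by omega)⟩
    | succ c ih =>
      obtain ⟨b1, b2, b3, b4, -⟩ := hB c (G c) ih.1 ih.2.1 ih.2.2.1 ih.2.2.2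
      exact ⟨b1, b2.trans ih.2.1, b3, b4⟩
  have hst := fun c => hB c (G c) (inv c).1 (inv c).2.1 (inv c).2.2.1 (inv c).2.2.2
  refine ⟨fun c => Nat.casesOn c (Z 0) G, rfl, rfl, antitone_nat_of_succ_le fun c => ?_,
    fun c => ?_, fun c => ?_, fun c => ?_, fun c hc => ?_⟩
  · cases c with
    | zero => exact h10
    | succ c => exact (hst c).2.1
  · cases c with
    | zero => exact hZ 0
    | succ c => exact (inv c).1
  · cases c with
    | zero => exact Subset.rfl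
    | succ c => exact (inv c).2.2.1
  · cases c with
    | zero => exact hd 0
    | succ c => exact (inv c).2.2.2
  · cases c with
    | zero => exact absurd hc (lt_irrefl 0)
    | succ c => exact (hst c).2.2.2.2

end Pool.Agent.PWV
end
end

-- part Pool.Agent.P.MP_65ad7c_ag.XK0
section

open Set Topology TopologicalSpace

noncomputable section
namespace Pool.Agent.PWD

/-- the strata of `U'` are flat in the strata of `U` -/
def Flt {Y : Type} [TopologicalSpace Y] (U U' : ℕ → Opens Y) : Prop :=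
  ∀ c, 0 < c → ∀ x ∈ (U' (c + 1) \ U' c : Set Y), ∃ k, x ∈ (U (k + 1) \ U k : Set Y) ∧
    ∀ W : Set Y, IsOpen W → x ∈ W → ∃ (O : Set Y) (e m : ℕ)
      (χ : (Fin e → ℂ) × (Fin m → ℂ) → Y), IsOpen O ∧ x ∈ O ∧ O ⊆ W ∧ IsEmbedding χ ∧
      range χ = O \ U k ∧ O ∩ U k ⊆ U' c ∧ ∀ u, χ u ∉ U' c ↔ u.2 = 0

end Pool.Agent.PWD
end
end

-- part Pool.Agent.P.MP_65ad7c_ag.XK3
section

open Set Filter Topology TopologicalSpace MvPolynomial
open Pool.Agent.PWD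

noncomputable section
namespace Pool.Agent.PWV

variable {R : Type} [CommRing R] [Algebra ℂ R] {Y : Set (R → ℂ)} {N d : ℕ} {f : Fin N → R}
  {U : ℕ → Opens Y}

theorem mem_img_XK3 (hY : IsVar Y) (hf : Algebra.adjoin ℂ (range f) = ⊤) {W : Opens Y} {y : Y} :
    emb f y ∈ emb f '' (W : Set Y)ᶜ ↔ y ∉ W :=
  (show Function.Injective (emb (Y := Y) f) from (hY.closedEmb hf).injective).mem_set_image

theorem flt_XK3 (hY : IsVar Y) (hf : Algebra.adjoin ℂ (range f) = ⊤) {F : Set (Fin N → ℂ)}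
    {V : Opens Y} (hV : ∀ y, y ∉ V ↔ emb f y ∈ F) {x : Y}
    (h : FlatIn (fun c => emb f '' (U c : Set Y)ᶜ) F (emb f x)) :
    ∃ k, x ∈ (U (k + 1) \ U k : Set Y) ∧
      ∀ W : Set Y, IsOpen W → x ∈ W → ∃ (O : Set Y) (e m : ℕ)
        (χ : (Fin e → ℂ) × (Fin m → ℂ) → Y), IsOpen O ∧ x ∈ O ∧ O ⊆ W ∧ IsEmbedding χ ∧
        range χ = O \ U k ∧ O ∩ U k ⊆ V ∧ ∀ u, χ u ∉ V ↔ u.2 = 0 := by
  have he : IsClosedEmbedding (emb (Y := Y) f) := hY.closedEmb hf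
  obtain ⟨k, ⟨h1, h2⟩, h3⟩ := h
  refine ⟨k, ⟨not_not.1 fun h => h2 ((mem_img_XK3 hY hf).2 h), (mem_img_XK3 hY hf).1 h1⟩,
    fun W hW hx => ?_⟩
  obtain ⟨W₁, hW₁, rfl⟩ := he.isInducing.isOpen_iff.1 hW
  obtain ⟨O, e, m, χ, a1, a2, a3, a4, a5, a6, a7⟩ := h3 W₁ (hW₁.mem_nhds hx)
  have hm : ∀ u, χ u ∈ emb f '' (U k : Set Y)ᶜ ∩ O := fun u => a5 ▸ mem_range_self u
  choose χ' b1 b2 using fun u => (hm u).1
  refine ⟨emb f ⁻¹' O, e, m, χ', a1.preimage (emb f).continuous, a2, preimage_mono a3,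
    he.isEmbedding.of_comp_iff.1 (by rwa [show emb f ∘ χ' = χ from funext b2]),
    Set.ext fun y => ⟨?_, fun hy => ?_⟩, fun y hy => ?_, fun u => by rw [hV, b2, a7]⟩
  · rintro ⟨u, rfl⟩
    exact ⟨by rw [mem_preimage, b2]; exact (hm u).2, b1 u⟩
  · obtain ⟨u, hu⟩ : emb f y ∈ range χ := a5 ▸ ⟨⟨y, hy.2, rfl⟩, hy.1⟩
    exact ⟨u, he.injective ((b2 u).trans hu)⟩
  · exact not_not.1 fun h => (mem_img_XK3 hY hf).1 (a6 ⟨hy.1, (hV y).1 h⟩) hy.2

/-- refine a stratification -/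
theorem exists_refine (hY : IsVar Y) (hf : Algebra.adjoin ℂ (range f) = ⊤) (hU : IsStrat d U)
    {h : MvPolynomial (Fin N) ℂ} (h0 : ∀ y : Y, y ∉ U 1 → eval (emb f y) h = 0)
    (hd : Dim (range (emb (Y := Y) f) ∩ {x | eval x h = 0}) d) :
    ∃ U' : ℕ → Opens Y, IsStrat d U' ∧ (∀ c, U' c ≤ U c) ∧
      (∀ y, y ∈ U' 1 ↔ eval (emb f y) h ≠ 0) ∧ Flt U U' := by
  classical
  have hz : ∀ y : Y, y ∉ U 0 := fun y hy => by
    rw [hU.zero] at hy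
    exact hy
  obtain ⟨F, e0, e1, ha, hF, hZF, hD, hch⟩ := exists_filt (d := d)
    (Z := fun c => emb f '' (U c : Set Y)ᶜ) (fun c => zc_image hY hf (hU.alg c))
    (fun a b hab => image_mono (compl_subset_compl.2 (hU.mono hab)))
    (fun c => dim_image hY (hU.dim c))
    (fun c => by
      obtain ⟨𝒢, h1, h2⟩ := strat_chart hY hf hU (c := c) rfl
      refine ⟨𝒢, h1, ?_⟩
      rintro _ ⟨⟨y, hy, rfl⟩, h3⟩
      exact h2 y ⟨not_not.1 fun h => h3 ⟨y, h, rfl⟩, hy⟩)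
    (F₁ := range (emb (Y := Y) f) ∩ {x | eval x h = 0})
    ((zc_range hY hf).inter ⟨{h}, by simp⟩)
    (by
      rintro _ ⟨⟨y, rfl⟩, -⟩
      exact ⟨y, hz y, rfl⟩)
    (by
      rintro _ ⟨y, hy, rfl⟩
      exact ⟨⟨y, rfl⟩, h0 y hy⟩) hd
  let U' : ℕ → Opens Y := fun c =>
    ⟨(emb f ⁻¹' F c)ᶜ, ((hF c).isClosed.preimage (emb f).continuous).isOpen_compl⟩
  have hm : ∀ c y, y ∉ U' c ↔ emb f y ∈ F c := fun c y => not_not
  have hle : ∀ c, U' c ≤ U c := fun c y hy => not_not.1 fun h => hy (hZF c ⟨y, h, rfl⟩)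
  have hr : ∀ c, F c ⊆ range (emb (Y := Y) f) := fun c =>
    (ha (Nat.zero_le c)).trans (e0.le.trans (image_subset_range _ _))
  have hx' : ∀ c, ∀ x ∈ (U' (c + 1) \ U' c : Set Y), emb f x ∈ F c \ F (c + 1) := fun c x hx =>
    ⟨(hm c x).1 hx.2, hx.1⟩
  refine ⟨U', ⟨?_, fun a b hab y hy h => hy (ha hab h), fun c => ?_, fun c => ?_, fun c => ?_⟩,
    hle, fun y => ?_, fun c hc x hx => flt_XK3 hY hf (hm c) (hch c hc _ (hx' c x hx)).2⟩
  · exact le_bot_iff.1 (hU.zero ▸ hle 0)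
  · obtain ⟨S, hS⟩ := hF c
    refine ⟨aeval f '' S, fun y => ?_⟩
    rw [hm, hS, forall_mem_image]
    simp only [emb_aeval hY, mem_ofPred_eq]
  · refine dimLT_of_dim hY hf ((hD c).mono ?_)
    rintro _ ⟨y, hy, rfl⟩
    exact (hm c y).1 hy
  · rcases Nat.eq_zero_or_pos c with rfl | hc
    · obtain ⟨T, hT⟩ := hU.chart 0
      refine ⟨T, fun x hx => ?_⟩
      obtain ⟨g, W, h1, h2, h3⟩ := hT x ⟨hle _ hx.1, hz x⟩
      have hs : (W : Set Y) ∩ ((U' (0 + 1) : Set Y) \ U' 0) ⊆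
          (W : Set Y) ∩ ((U (0 + 1) : Set Y) \ U 0) := fun y hy => ⟨hy.1, hle _ hy.2.1, hz y⟩
      refine ⟨g, W, h1, h2, h3.comp (IsOpenEmbedding.inclusion hs ?_)⟩
      have e : (Subtype.val ⁻¹' ((W : Set Y) ∩ ((U' (0 + 1) : Set Y) \ U' 0)) :
          Set ↥((W : Set Y) ∩ ((U (0 + 1) : Set Y) \ U 0))) = Subtype.val ⁻¹' (U' (0 + 1)) :=
        Set.ext fun y => ⟨fun hy => hy.2.1, fun hy => ⟨y.2.1, hy, fun h => hz _ (hle 0 h)⟩⟩
      rw [e]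
      exact (U' _).2.preimage continuous_subtype_val
    · refine ⟨Finset.univ.image f, fun x hx => ?_⟩
      obtain ⟨ι, hι⟩ := (hch c hc _ (hx' c x hx)).1
      obtain ⟨W, h1, h2⟩ := emb_of_chart hY hf (hr c) (O := U' (c + 1)) hx.1 hι
      exact ⟨fun i => f (ι i), W, fun i => Finset.mem_image_of_mem f (Finset.mem_univ _), h1, h2⟩
  · rw [← not_iff_not, hm, e1, not_not]
    exact ⟨fun h => h.2, fun h => ⟨⟨y, rfl⟩, h⟩⟩

end Pool.Agent.PWV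
end
end

-- part Pool.Agent.P.MP_65ad7c_ag.XK4
section

open Set Filter Topology

noncomputable section
namespace Pool.Agent.PWD.TI

variable {T : Type} [TopologicalSpace T] {V : Type} [AddCommGroup V]

theorem box_XK4 {N m : ℕ} {Q : FC (Fin N → ℝ) V} {y : Fin N → ℝ} (hy : y ∈ dtc_K 0 0 m) {a : V}
    (h1 : a ∈ Q.van (dtc_K 0 0 m)ᶜ) (h2 : a ∈ Q.z y) :
    ∃ A, dtc_G m A ∧ y ∈ A ∧ a ∈ Q.van (dtc_K 0 0 m ∩ Aᶜ)ᶜ := by
  obtain ⟨r, hr, h3⟩ := Metric.isOpen_iff.1 (Q.opn a) y h2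
  refine ⟨{x | ∀ i : Fin N, m ≤ i.val → x i ∈ Metric.ball (y i) r}, ⟨?_, ?_, ?_, ?_⟩, ?_, ?_⟩
  · simp only [ofPred_forall]
    exact isOpen_iInter_of_finite fun i => isOpen_iInter_of_finite fun _ =>
      Metric.isOpen_ball.preimage (continuous_apply i)
  · intro x hx x' hx' s t hs ht hst i hi
    exact convex_ball (y i) r (hx i hi) (hx' i hi) hs ht hst
  · exact ⟨y, fun i _ => Metric.mem_ball_self hr⟩
  · intro x hx x' e i hi
    rw [e i hi]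
    exact hx i hi
  · exact fun i _ => Metric.mem_ball_self hr
  · refine FC.mem_van.2 fun x hx => ?_
    by_cases hK : x ∈ dtc_K 0 0 m
    · refine h3 ((dist_pi_lt_iff hr).2 fun i => ?_)
      rcases lt_or_ge i.val m with hi | hi
      · have e1 : x i = 0 := by simpa using hK i hi
        have e2 : y i = 0 := by simpa using hy i hi
        rw [e1, e2, dist_self]
        exact hr
      · exact (not_not.1 fun hh => hx ⟨hK, hh⟩ :
          x ∈ {x : Fin N → ℝ | ∀ i : Fin N, m ≤ i.val → x i ∈ Metric.ball (y i) r}) i hi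
    · exact FC.mem_van.1 h1 x hK

/-- cohomology with supports in a linear subspace is constant along it -/
theorem FC.LC.flat {N m : ℕ} {Q : FC (Fin N → ℝ) V} {n₀ e : ℤ} {B : ℤ → AddSubgroup V}
    (h : Q.LC n₀ B) (he : ∀ n < e, B n = ⊥) (hn : e + N ≤ n₀) (hm : m ≤ N) {n : ℤ}
    (hn' : n + 1 < n₀) {y : Fin N → ℝ} (hy : y ∈ dtc_K 0 0 m) :
    (∀ a ∈ Q.G n, a ∈ Q.van (dtc_K 0 0 m)ᶜ → Q.d a ∈ Q.z y →
      ∃ b ∈ Q.G n, b ∈ Q.van (dtc_K 0 0 m)ᶜ ∧ Q.d b ∈ Q.van univ ∧ b - a ∈ Q.z y) ∧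
    ∀ b ∈ Q.G n, b ∈ Q.van (dtc_K 0 0 m)ᶜ → Q.d b ∈ Q.van univ →
      ∀ c ∈ Q.G (n - 1), c ∈ Q.van (dtc_K 0 0 m)ᶜ → b - Q.d c ∈ Q.z y →
      ∃ c' ∈ Q.G (n - 1), c' ∈ Q.van (dtc_K 0 0 m)ᶜ ∧ b - Q.d c' ∈ Q.van univ := by
  have hz := (dtc_ind h he hn 0 le_rfl m hm).2
  refine ⟨fun a ha h1 h2 => ?_, fun b hb h1 h2 c hc h3 h4 => ?_⟩
  · obtain ⟨A, hA, hyA, h3⟩ := box_XK4 hy (FC.d_van h1) h2
    obtain ⟨c, hc, c1, c2⟩ := hz A hA (n + 1) hn' (Q.d a) (Q.dG n a ha) h3 (by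
      rw [Q.dd]
      exact zero_mem _)
    rw [add_sub_cancel_right] at hc
    refine ⟨a - c, sub_mem ha hc, sub_mem h1 (FC.van_anti (compl_subset_compl.2 inter_subset_left) c1),
      by rw [map_sub]; exact c2, ?_⟩
    rw [sub_sub_cancel_left]
    exact neg_mem (FC.mem_van.1 c1 y fun hh => hh.2 hyA)
  · obtain ⟨A, hA, hyA, h5⟩ := box_XK4 hy (sub_mem h1 (FC.d_van h3)) h4
    obtain ⟨c', hc', c1, c2⟩ := hz A hA n (by omega) (b - Q.d c) (sub_mem hb (FC.dG' hc)) h5 (by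
      rw [map_sub, Q.dd, sub_zero]
      exact h2)
    refine ⟨c + c', add_mem hc hc',
      add_mem h3 (FC.van_anti (compl_subset_compl.2 inter_subset_left) c1), ?_⟩
    rw [map_add, ← sub_sub]
    exact c2

/-- real coordinates, the normal ones first -/
theorem exists_real_coords (e m : ℕ) :
    ∃ θ : (Fin (2 * m + 2 * e) → ℝ) ≃ₜ (Fin e → ℂ) × (Fin m → ℂ),
      ∀ t, t ∈ dtc_K 0 0 (2 * m) ↔ (θ t).2 = 0 := by
  have L : ∀ k : ℕ, Nonempty ((Fin (2 * k) → ℝ) ≃L[ℝ] (Fin k → ℂ)) := fun k =>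
    ⟨ContinuousLinearEquiv.ofFinrankEq (by
      rw [Module.finrank_pi_fintype, Module.finrank_pi_fintype]
      simp [mul_comm])⟩
  obtain ⟨Lm⟩ := L m
  obtain ⟨Le⟩ := L e
  refine ⟨((Fin.appendHomeomorph (X := ℝ) (2 * m) (2 * e)).symm.trans (Homeomorph.prodComm _ _)).trans
    (Le.toHomeomorph.prodCongr Lm.toHomeomorph), fun t => ?_⟩
  show _ ↔ Lm (fun i => t (Fin.castAdd (2 * e) i)) = 0
  rw [Lm.map_eq_zero_iff]
  constructor
  · intro ht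
    funext i
    simpa using ht (Fin.castAdd (2 * e) i) i.2
  · intro ht i hi
    have : t i = 0 := congrFun ht ⟨i.val, hi⟩
    simp [this]

/-- costalks along a flat subset of a stratum -/
theorem SAX.flat {Q : FC T V} {d : ℕ} {U : ℕ → Set T} (h : SAX Q d U) {k : ℕ} {x : T}
    (hx : x ∈ U (k + 1) \ U k) (n : ℤ) : ∃ W, IsOpen W ∧ x ∈ W ∧
    ∀ (O A : Set T) (e m : ℕ) (χ : (Fin e → ℂ) × (Fin m → ℂ) → T), IsOpen O → IsOpen A → O ⊆ W →
      IsEmbedding χ → range χ = O \ U k → O ∩ U k ⊆ A → (∀ u, χ u ∉ A ↔ u.2 = 0) → ∀ y ∈ O \ A,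
      (∀ a ∈ Q.G n, a ∈ Q.van (O ∩ A) → Q.d a ∈ Q.z y →
        ∃ b ∈ Q.G n, b ∈ Q.van (O ∩ A) ∧ Q.d b ∈ Q.van O ∧ b - a ∈ Q.z y) ∧
      ∀ b ∈ Q.G n, b ∈ Q.van (O ∩ A) → Q.d b ∈ Q.van O →
        ∀ c ∈ Q.G (n - 1), c ∈ Q.van (O ∩ A) → b - Q.d c ∈ Q.z y →
        ∃ c' ∈ Q.G (n - 1), c' ∈ Q.van (O ∩ A) ∧ b - Q.d c' ∈ Q.van O := by
  choose W' B hW' hxW' hB hS using h.lc k x hx
  refine ⟨U (k + 1) ∩ ⋂ j ∈ Finset.Ico 0 (n + 2), W' j,
    (h.opn _).inter (isOpen_biInter_finset fun j _ => hW' j),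
    ⟨hx.1, mem_iInter₂.2 fun j _ => hxW' j⟩, fun O A e m χ hO _ hs hχ hr hUA hχA y hy => ?_⟩
  obtain ⟨θ, hθ⟩ := exists_real_coords e m
  have hψ : IsEmbedding (χ ∘ θ) := hχ.comp θ.isEmbedding
  have h0 : ∀ t, (χ ∘ θ) t ∈ O \ U k := fun t => hr.le (mem_range_self (θ t))
  have h0' : ∀ t, (χ ∘ θ) t ∈ U (k + 1) \ U k := fun t => ⟨(hs (h0 t).1).1, (h0 t).2⟩
  have h2 : ∀ y ∈ O, y ∉ U k → y ∈ range (χ ∘ θ) := fun y hy hy' => by
    obtain ⟨u, rfl⟩ : y ∈ range χ := hr.ge ⟨hy, hy'⟩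
    exact ⟨θ.symm u, by simp⟩
  have hK : ∀ t, t ∈ dtc_K 0 0 (2 * m) ↔ (χ ∘ θ) t ∉ A := fun t => (hθ t).trans (hχA _).symm
  generalize χ ∘ θ = ψ at hψ h0 h0' h2 hK
  have h3 : ∀ j, 0 ≤ j → j < n + 2 → ∀ t, ψ t ∈ W' j := fun j h1 h2 t =>
    mem_iInter₂.1 (hs (h0 t).1).2 j (Finset.mem_Ico.2 ⟨h1, h2⟩)
  have hL : (dtfPull Q hψ.isInducing (h.opn k) hO (fun t => (h0 t).1) h2).LC
      (n + 2) fun j => if 0 ≤ j then B j else ⊥ := by
    refine ⟨fun j _ b hb => ?_, fun j hn b hb => ?_, fun j hn t a ha hd => ?_,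
      fun j hn t b hb e he hd => ?_⟩
    · split_ifs at hb with h1
      · exact ⟨(hB j b hb).1, (hB j b hb).2.1⟩
      · rw [AddSubgroup.mem_bot.1 hb]
        exact zero_mem _
    · split_ifs at hb with h1
      · exact FC.mem_van.2 fun t _ => FC.mem_van.1 (hB j b hb).2.2 _ (h3 j h1 hn t)
      · rw [AddSubgroup.mem_bot.1 hb, map_zero]
        exact zero_mem _
    · split_ifs with h1
      · obtain ⟨b, hb, e, he, he', h4⟩ := (hS j (ψ t) ⟨h3 j h1 hn t, h0' t⟩).1 a ha.1 ha.2 hd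
        exact ⟨b, hb, e, ⟨he, he'⟩, h4⟩
      · refine ⟨0, zero_mem _, 0, zero_mem _, ?_⟩
        rw [Q.neg j (not_le.1 h1) a ha.1, map_zero, sub_zero, sub_zero]
        exact zero_mem _
    · split_ifs at hb with h1
      · exact FC.mem_van.2 fun s _ => FC.mem_van.1
          ((hS j (ψ t) ⟨h3 j h1 hn t, h0' t⟩).2 b hb e he.1 he.2 hd) _ (h3 j h1 hn s)
      · rw [AddSubgroup.mem_bot.1 hb]
        exact zero_mem _
  obtain ⟨t₀, rfl⟩ := h2 y hy.1 fun hh => hy.2 (hUA ⟨hy.1, hh⟩)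
  obtain ⟨F1, F2⟩ := hL.flat (e := min 0 (n + 2 - (2 * m + 2 * e : ℕ))) (m := 2 * m) (n := n)
    (fun j hj => if_neg (by omega)) (by omega) (by omega) (by omega) ((hK t₀).2 hy.2)
  have cut : ∀ j, ∀ a ∈ Q.G j, a ∈ Q.van (O ∩ A) → ∃ a' ∈ Q.G j ⊓ Q.van (U k),
      a' - a ∈ Q.van O ∧ ∀ t ∈ (dtc_K 0 0 (2 * m))ᶜ, a' ∈ Q.z (ψ t) := fun j a ha h4 => by
    obtain ⟨a', ha', h5, h6⟩ := FC.cut hO (h.opn k) ha
      (FC.van_anti (subset_inter inter_subset_left hUA) h4)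
    refine ⟨a', ⟨ha', h6⟩, h5, fun t ht => ?_⟩
    have := add_mem (FC.mem_van.1 h5 _ (h0 t).1)
      (FC.mem_van.1 h4 _ ⟨(h0 t).1, not_not.1 fun hh => ht ((hK t).2 hh)⟩)
    rwa [sub_add_cancel] at this
  have back : ∀ a ∈ Q.van (U k), (∀ t ∈ (dtc_K 0 0 (2 * m))ᶜ, a ∈ Q.z (ψ t)) →
      a ∈ Q.van (O ∩ A) := fun a h4 h5 => FC.mem_van.2 fun p hp => by
    by_cases hp' : p ∈ U k
    · exact FC.mem_van.1 h4 p hp'
    · obtain ⟨t, rfl⟩ := h2 p hp.1 hp'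
      exact h5 t fun hh => (hK t).1 hh hp.2
  have back' : ∀ a ∈ Q.van (U k), (∀ t ∈ (univ : Set (Fin (2 * m + 2 * e) → ℝ)), a ∈ Q.z (ψ t)) →
      a ∈ Q.van O := fun a h4 h5 => FC.mem_van.2 fun p hp => by
    by_cases hp' : p ∈ U k
    · exact FC.mem_van.1 h4 p hp'
    · obtain ⟨t, rfl⟩ := h2 p hp hp'
      exact h5 t (mem_univ t)
  refine ⟨fun a ha h4 hd => ?_, fun b hb h4 hd c hc h5 h6 => ?_⟩
  · obtain ⟨a', ha', a1, a2⟩ := cut n a ha h4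
    have a3 : a' - a ∈ Q.z (ψ t₀) := FC.mem_van.1 a1 _ hy.1
    obtain ⟨b, hb, b1, b2, b3⟩ := F1 a' ha' (FC.mem_van.2 a2) (by
      have := add_mem (Q.dz _ _ a3) hd
      rw [map_sub, sub_add_cancel] at this
      exact this)
    refine ⟨b, hb.1, back b hb.2 (FC.mem_van.1 b1), back' _ (FC.d_van hb.2) (FC.mem_van.1 b2), ?_⟩
    have := add_mem (show b - a' ∈ Q.z (ψ t₀) from b3) a3
    rwa [sub_add_sub_cancel] at this
  · obtain ⟨b', hb', b1, b2⟩ := cut n b hb h4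
    obtain ⟨c', hc', c1, c2⟩ := cut (n - 1) c hc h5
    obtain ⟨c'', hc'', e1, e2⟩ := F2 b' hb' (FC.mem_van.2 b2) (FC.mem_van.2 fun t _ => by
      have := add_mem (Q.dz _ _ (FC.mem_van.1 b1 _ (h0 t).1)) (FC.mem_van.1 hd _ (h0 t).1)
      rw [map_sub, sub_add_cancel] at this
      exact this) c' hc' (FC.mem_van.2 c2) (by
      have := sub_mem (add_mem h6 (FC.mem_van.1 b1 _ hy.1)) (Q.dz _ _ (FC.mem_van.1 c1 _ hy.1))
      have e : b - Q.d c + (b' - b) - Q.d (c' - c) = b' - Q.d c' := by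
        rw [map_sub]
        abel
      rw [e] at this
      exact this)
    refine ⟨c'', hc''.1, back _ hc''.2 (FC.mem_van.1 e1), ?_⟩
    have := sub_mem (back' (b' - Q.d c'') (sub_mem hb'.2 (FC.d_van hc''.2)) (FC.mem_van.1 e2)) b1
    have e : b' - Q.d c'' - (b' - b) = b - Q.d c'' := by abel
    rwa [e] at this

end Pool.Agent.PWD.TI
end
end

-- part Pool.Agent.P.MP_65ad7c_ag.DS1
section

/-! Basic facts on elementary sheaves. -/

open Set TopologicalSpace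

noncomputable section
namespace Pool.Agent.PWD.SY

variable {k : Type} [Ring k] {X : Type} [TopologicalSpace X] {P Q : PSh k X}

/-- sections near a compact subset of `M` extend -/
def SoftOn (M : Set X) (S : Sub P) : Prop :=
  ∀ (K : Set X) (O O₁ : Opens X), IsCompact K → K ⊆ M → K ⊆ O → K ⊆ O₁ → ∀ x ∈ S.sub O,
    ∃ x' ∈ S.sub O₁, ∃ (O₂ : Opens X) (h : O₂ ≤ O) (h₁ : O₂ ≤ O₁), K ⊆ O₂ ∧ P.res h₁ x' = P.res h x

/-- the kernel of `f` on `S` -/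
def ker (f : Hom P Q) (S : Sub P) : Sub P := S ⊓ Sub.comap f ⊥

theorem mem_ker {f : Hom P Q} {S : Sub P} {O : Opens X} {x : P.obj O} :
    x ∈ (ker f S).sub O ↔ x ∈ S.sub O ∧ f.app O x = 0 := Iff.rfl

theorem near_bot {O : Opens X} {x : P.obj O} {y : X} :
    (⊥ : Sub P).Near x y ↔ ∃ (O' : Opens X) (h : O' ≤ O), y ∈ O' ∧ P.res h x = 0 := Iff.rfl

theorem near_map {f : Hom P Q} {S : Sub P} {O : Opens X} {t : Q.obj O} {y : X} :
    (S.map f).Near t y ↔ ∃ (O' : Opens X) (h : O' ≤ O), y ∈ O' ∧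
      ∃ z ∈ S.sub O', f.app O' z = Q.res h t := Iff.rfl

theorem near_zero (S : Sub P) {O : Opens X} {y : X} (hy : y ∈ O) : S.Near (0 : P.obj O) y :=
  ⟨O, le_rfl, hy, by rw [map_zero]; exact zero_mem _⟩

theorem near_add {S : Sub P} {O : Opens X} {x x' : P.obj O} {y : X} (h : S.Near x y)
    (h' : S.Near x' y) : S.Near (x + x') y := by
  obtain ⟨A, hA, hy, h1⟩ := h
  obtain ⟨B, hB, hy', h2⟩ := h'
  refine ⟨A ⊓ B, inf_le_left.trans hA, ⟨hy, hy'⟩, ?_⟩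
  have h3 := S.res_mem (inf_le_left : A ⊓ B ≤ A) h1
  have h4 := S.res_mem (inf_le_right : A ⊓ B ≤ B) h2
  rw [P.res_res] at h3 h4
  rw [map_add]
  exact add_mem h3 h4

theorem near_smul {S : Sub P} {O : Opens X} {x : P.obj O} {y : X} (c : k) (h : S.Near x y) :
    S.Near (c • x) y := by
  obtain ⟨A, hA, hy, h1⟩ := h
  exact ⟨A, hA, hy, by rw [map_smul]; exact Submodule.smul_mem _ c h1⟩

theorem near_res {S : Sub P} {O O' : Opens X} (h : O' ≤ O) {x : P.obj O} {y : X} (hy : y ∈ O') :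
    S.Near (P.res h x) y ↔ S.Near x y := by
  constructor
  · rintro ⟨A, hA, hy', h1⟩
    rw [P.res_res] at h1
    exact ⟨A, hA.trans h, hy', h1⟩
  · rintro ⟨A, hA, hy', h1⟩
    have h2 := S.res_mem (inf_le_left : A ⊓ O' ≤ A) h1
    rw [P.res_res] at h2
    exact ⟨A ⊓ O', inf_le_right, ⟨hy', hy⟩, by rw [P.res_res]; exact h2⟩

/-- sections that vanish near the points of `B` -/
def van (P : PSh k X) (B : Set X) : Sub P where
  sub O :=
    { carrier := {x | ∀ y ∈ O, y ∈ B → (⊥ : Sub P).Near x y}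
      add_mem' := fun h h' y hy hB => near_add (h y hy hB) (h' y hy hB)
      zero_mem' := fun _ hy _ => near_zero _ hy
      smul_mem' := fun c _ h y hy hB => near_smul c (h y hy hB) }
  res_mem h _ hx y hy hB := (near_res h hy).2 (hx y (h hy) hB)

theorem mem_van {B : Set X} {O : Opens X} {x : P.obj O} :
    x ∈ (van P B).sub O ↔ ∀ y ∈ O, y ∈ B → (⊥ : Sub P).Near x y := Iff.rfl

theorem van_loc (P : PSh k X) (B : Set X) : (van P B).Loc := fun O x h y hy hB => by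
  obtain ⟨A, hA, hy', h1⟩ := h y hy
  exact (near_res hA hy').1 (h1 y hy' hB)

theorem van_maps (f : Hom P Q) (B : Set X) : Sub.Maps f (van P B) (van Q B) := fun O x h y hy hB => by
  obtain ⟨A, hA, hy', h1⟩ := near_bot.1 (h y hy hB)
  exact near_bot.2 ⟨A, hA, hy', by rw [f.nat, h1, map_zero]⟩

theorem van_prod {B : Set X} {O : Opens X} {x : (P.prod Q).obj O} :
    x ∈ (van (P.prod Q) B).sub O ↔ x.1 ∈ (van P B).sub O ∧ x.2 ∈ (van Q B).sub O := by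
  constructor
  · refine fun h => ⟨fun y hy hB => ?_, fun y hy hB => ?_⟩
    · obtain ⟨A, hA, hy', h1⟩ := near_bot.1 (h y hy hB)
      exact near_bot.2 ⟨A, hA, hy', congrArg Prod.fst h1⟩
    · obtain ⟨A, hA, hy', h1⟩ := near_bot.1 (h y hy hB)
      exact near_bot.2 ⟨A, hA, hy', congrArg Prod.snd h1⟩
  · rintro ⟨h, h'⟩ y hy hB
    obtain ⟨A, hA, hy1, h1⟩ := near_bot.1 (h y hy hB)
    obtain ⟨A', hA', hy2, h2⟩ := near_bot.1 (h' y hy hB)
    refine near_bot.2 ⟨A ⊓ A', inf_le_left.trans hA, ⟨hy1, hy2⟩, Prod.ext ?_ ?_⟩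
    · have h3 := congrArg (P.res (inf_le_left : A ⊓ A' ≤ A)) h1
      rw [P.res_res, map_zero] at h3
      exact h3
    · have h3 := congrArg (Q.res (inf_le_right : A ⊓ A' ≤ A')) h2
      rw [Q.res_res, map_zero] at h3
      exact h3

theorem softOn_of_soft {S : Sub P} (h : S.Soft) (M : Set X) : SoftOn M S :=
  fun K O O₁ hK _ => h K O O₁ hK

theorem sh_ext (hP : P.IsSh) {O : Opens X} {x x' : P.obj O}
    (h : ∀ y ∈ O, ∃ (O' : Opens X) (h : O' ≤ O), y ∈ O' ∧ P.res h x = P.res h x') : x = x' := by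
  refine sub_eq_zero.1 (hP.sep O (x - x') fun y hy => ?_)
  obtain ⟨A, hA, hy', h1⟩ := h y hy
  exact near_bot.2 ⟨A, hA, hy', by rw [map_sub, h1, sub_self]⟩

/-- the largest open set on which `x` vanishes -/
theorem exists_zero_set (hP : P.IsSh) {O : Opens X} (x : P.obj O) :
    ∃ (Z : Opens X) (h : Z ≤ O), P.res h x = 0 ∧ ∀ y, (⊥ : Sub P).Near x y → y ∈ Z := by
  have h1 : sSup {A : Opens X | ∃ h : A ≤ O, P.res h x = 0} ≤ O := sSup_le fun A hA => hA.1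
  refine ⟨_, h1, hP.sep _ _ fun y hy => (near_res h1 hy).2 ?_, fun y hy => ?_⟩
  · obtain ⟨A, ⟨hA, h2⟩, hy'⟩ := Opens.mem_sSup.1 hy
    exact near_bot.2 ⟨A, hA, hy', h2⟩
  · obtain ⟨A, hA, hy', h2⟩ := near_bot.1 hy
    exact Opens.mem_sSup.2 ⟨A, ⟨hA, h2⟩, hy'⟩

theorem sh_glue (hP : P.IsSh) {ι : Type} {W : Opens X} (O : ι → Opens X) (hO : ∀ i, O i ≤ W)
    (hc : ∀ y ∈ W, ∃ i, y ∈ O i) (x : ∀ i, P.obj (O i))
    (hx : ∀ i j, P.res (inf_le_left : O i ⊓ O j ≤ O i) (x i) = P.res inf_le_right (x j)) :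
    ∃ z : P.obj W, ∀ i, P.res (hO i) z = x i := by
  obtain ⟨z, hz⟩ := hP.glue O x hx
  have h1 : W ≤ ⨆ i, O i := fun y hy => Opens.mem_iSup.2 (hc y hy)
  exact ⟨P.res h1 z, fun i => by rw [P.res_res]; exact hz i⟩

theorem sh_glue2 (hP : P.IsSh) {V V' W : Opens X} (h : V ≤ W) (h' : V' ≤ W) (hc : W ≤ V ⊔ V')
    (x : P.obj V) (x' : P.obj V')
    (hx : P.res (inf_le_left : V ⊓ V' ≤ V) x = P.res inf_le_right x') :
    ∃ z : P.obj W, P.res h z = x ∧ P.res h' z = x' := by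
  obtain ⟨z, hz⟩ := sh_glue hP (W := W) (fun b : Bool => cond b V V')
    (fun b => match b with
      | true => h
      | false => h')
    (fun y hy => (Opens.mem_sup.1 (hc hy)).elim (fun h1 => ⟨true, h1⟩) fun h1 => ⟨false, h1⟩)
    (fun b => match b with
      | true => x
      | false => x')
    (by
      rintro (_ | _) (_ | _)
      · rfl
      · have h1 := congrArg (P.res (le_inf inf_le_right inf_le_left : V' ⊓ V ≤ V ⊓ V')) hx
        rw [P.res_res, P.res_res] at h1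
        exact h1.symm
      · exact hx
      · rfl)
  exact ⟨z, hz true, hz false⟩

theorem sh_prod (hP : P.IsSh) (hQ : Q.IsSh) : (P.prod Q).IsSh := by
  refine ⟨fun O x h => Prod.ext (hP.sep O x.1 fun y hy => ?_) (hQ.sep O x.2 fun y hy => ?_),
    fun O x hx => ?_⟩
  · obtain ⟨A, hA, hy', h1⟩ := near_bot.1 (h y hy)
    exact near_bot.2 ⟨A, hA, hy', congrArg Prod.fst h1⟩
  · obtain ⟨A, hA, hy', h1⟩ := near_bot.1 (h y hy)
    exact near_bot.2 ⟨A, hA, hy', congrArg Prod.snd h1⟩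
  · obtain ⟨z, hz⟩ := hP.glue O (fun i => (x i).1) fun i j => congrArg Prod.fst (hx i j)
    obtain ⟨z', hz'⟩ := hQ.glue O (fun i => (x i).2) fun i j => congrArg Prod.snd (hx i j)
    exact ⟨(z, z'), fun i => Prod.ext (hz i) (hz' i)⟩

theorem soft_prod (hP : (⊤ : Sub P).Soft) (hQ : (⊤ : Sub Q).Soft) : (⊤ : Sub (P.prod Q)).Soft :=
  fun K O O₁ hK h1 h2 x _ => by
  obtain ⟨a, -, A, hA, hA', hKA, ha⟩ := hP K O O₁ hK h1 h2 x.1 trivial
  obtain ⟨b, -, B, hB, hB', hKB, hb⟩ := hQ K O O₁ hK h1 h2 x.2 trivial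
  refine ⟨(a, b), trivial, A ⊓ B, inf_le_left.trans hA, inf_le_left.trans hA',
    fun y hy => ⟨hKA hy, hKB hy⟩, Prod.ext ?_ ?_⟩
  · have h3 := congrArg (P.res (inf_le_left : A ⊓ B ≤ A)) ha
    rw [P.res_res, P.res_res] at h3
    exact h3
  · have h3 := congrArg (Q.res (inf_le_right : A ⊓ B ≤ B)) hb
    rw [Q.res_res, Q.res_res] at h3
    exact h3

theorem ds1_sep {K L : Set X} {G : Opens X} (h : SeparatedNhds (K \ G) (L \ G)) :
    ∃ V V' : Opens X, K ⊆ V ∧ L ⊆ V' ∧ V ⊓ V' ≤ G := by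
  obtain ⟨A, B, hA, hB, h1, h2, h3⟩ := h
  refine ⟨⟨A, hA⟩ ⊔ G, ⟨B, hB⟩ ⊔ G, fun y hy => ?_, fun y hy => ?_, fun y hy => ?_⟩
  · by_cases hG : y ∈ G
    · exact Or.inr hG
    · exact Or.inl (h1 ⟨hy, hG⟩)
  · by_cases hG : y ∈ G
    · exact Or.inr hG
    · exact Or.inl (h2 ⟨hy, hG⟩)
  · by_contra hG
    exact disjoint_left.1 h3 (hy.1.resolve_right hG) (hy.2.resolve_right hG)

omit [TopologicalSpace X] in
theorem ds1_disj {K L G : Set X} (h : K ∩ L ⊆ G) : Disjoint (K \ G) (L \ G) :=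
  disjoint_left.2 fun _ h1 h2 => h1.2 (h ⟨h1.1, h2.1⟩)

theorem sep_compact [T2Space X] {K L : Set X} (hK : IsCompact K) (hL : IsCompact L) {G : Opens X}
    (h : K ∩ L ⊆ G) : ∃ V V' : Opens X, K ⊆ V ∧ L ⊆ V' ∧ V ⊓ V' ≤ G :=
  ds1_sep (SeparatedNhds.of_isCompact_isCompact (hK.diff G.isOpen) (hL.diff G.isOpen)
    (ds1_disj h))

theorem sep_closed [NormalSpace X] {K L : Set X} (hK : IsClosed K) (hL : IsClosed L) {G : Opens X}
    (h : K ∩ L ⊆ G) : ∃ V V' : Opens X, K ⊆ V ∧ L ⊆ V' ∧ V ⊓ V' ≤ G :=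
  ds1_sep (normal_separation (hK.sdiff G.isOpen) (hL.sdiff G.isOpen) (ds1_disj h))

end Pool.Agent.PWD.SY
end
end

-- part Pool.Agent.P.MP_65ad7c_ag.DYB
section

/-! The terms of `I` as elementary sheaves; the extension property of injective sheaves. -/

open Set TopologicalSpace CategoryTheory

set_option backward.isDefEq.respectTransparency false

noncomputable section
namespace Pool.Agent.PWD.SY

variable {Y : Type} [TopologicalSpace Y] {I : Cx Y} {n k : ℕ} {W W' W'' : Opens Y}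

@[simp] theorem rs_self (h : W ≤ W) (s : Sec I n W) : rs h s = s :=
  congrArg (fun f => ModuleCat.Hom.hom f s) ((I.X n).obj.map_id (Opposite.op W))

@[simp] theorem rs_comp (h : W' ≤ W) (h' : W'' ≤ W') (s : Sec I n W) :
    rs h' (rs h s) = rs (h'.trans h) s :=
  congrArg (fun f => ModuleCat.Hom.hom f s)
    ((I.X n).obj.map_comp (homOfLE h).op (homOfLE h').op).symm

theorem rs_d (h : W' ≤ W) (t : Sec I k W) : rs h (dd k n t) = dd k n (rs h t) :=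
  congrArg (fun f => ModuleCat.Hom.hom f t) ((I.d k n).hom.naturality (homOfLE h).op).symm

/-- the term `I^n` -/
def IP (I : Cx Y) (n : ℕ) : PSh ℂ Y where
  obj W := Sec I n W
  res h := rs h
  res_id _ x := rs_self _ x
  res_res h h' x := rs_comp h h' x

theorem IP_sh (I : Cx Y) (n : ℕ) : (IP I n).IsSh := by
  let F : TopCat.Sheaf (ModuleCat.{0} ℂ) (TopCat.of Y) := I.X n
  refine ⟨fun O x hx => ?_, fun O x hx => ?_⟩
  · choose V hV hy h0 using fun y : O => hx y.1 y.2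
    exact F.eq_of_locally_eq' V O (fun y => homOfLE (hV y))
      (fun y h => Opens.mem_iSup.2 ⟨⟨y, h⟩, hy ⟨y, h⟩⟩) x (0 : Sec I n O)
      fun y => (h0 y).trans (map_zero (rs (hV y))).symm
  · exact (F.existsUnique_gluing O (fun i => (x i : Sec I n (O i))) fun i j => hx i j).exists

/-- the extension property -/
def Ext (J : PSh ℂ Y) : Prop :=
  ∀ (A B : PSh ℂ Y) (f : Hom A B) (g : Hom A J), (∀ V a, f.app V a = 0 → g.app V a = 0) →
    ∃ h : Hom B J, ∀ V a, h.app V (f.app V a) = g.app V a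

/-- an elementary presheaf as a functor -/
def dybF (A : PSh ℂ Y) : (Opens Y)ᵒᵖ ⥤ ModuleCat.{0} ℂ where
  obj V := ModuleCat.of ℂ (A.obj V.unop)
  map h := ModuleCat.ofHom (A.res (leOfHom h.unop))
  map_id V := ModuleCat.hom_ext (LinearMap.ext fun x => A.res_id V.unop x)
  map_comp _ _ := ModuleCat.hom_ext (LinearMap.ext fun x => (A.res_res _ _ x).symm)

/-- the coimage -/
def dybQ {A B : PSh ℂ Y} (f : Hom A B) : (Opens Y)ᵒᵖ ⥤ ModuleCat.{0} ℂ where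
  obj V := ModuleCat.of ℂ (A.obj V.unop ⧸ LinearMap.ker (f.app V.unop))
  map h := ModuleCat.ofHom (Submodule.mapQ _ _ (A.res (leOfHom h.unop)) fun x hx => by
    rw [Submodule.mem_comap, LinearMap.mem_ker, ← f.nat, LinearMap.mem_ker.1 hx, map_zero])
  map_id V := ModuleCat.hom_ext (Submodule.linearMap_qext _ (LinearMap.ext fun x =>
    congrArg Submodule.Quotient.mk (A.res_id V.unop x)))
  map_comp _ _ := ModuleCat.hom_ext (Submodule.linearMap_qext _ (LinearMap.ext fun x =>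
    congrArg Submodule.Quotient.mk (A.res_res _ _ x).symm))

theorem ext_of_inj (hI : Injective (I.X n)) : Ext (IP I n) := by
  intro A B f g hfg
  have hP : Injective (I.X n).obj :=
    Injective.injective_of_adjoint (sheafificationAdjunction _ (ModuleCat.{0} ℂ)) (I.X n)
  let f' : dybQ f ⟶ dybF B :=
    { app := fun V => ModuleCat.ofHom ((LinearMap.ker (f.app V.unop)).liftQ (f.app V.unop) le_rfl)
      naturality := fun _ _ h => ModuleCat.hom_ext (Submodule.linearMap_qext _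
        (LinearMap.ext fun x => (f.nat (leOfHom h.unop) x).symm)) }
  let g' : dybQ f ⟶ (I.X n).obj :=
    { app := fun V => ModuleCat.ofHom ((LinearMap.ker (f.app V.unop)).liftQ (g.app V.unop)
        fun x hx => hfg _ x hx)
      naturality := fun _ _ h => ModuleCat.hom_ext (Submodule.linearMap_qext _
        (LinearMap.ext fun x => (g.nat (leOfHom h.unop) x).symm)) }
  have : ∀ V, Mono (f'.app V) := fun V => (ModuleCat.mono_iff_injective _).2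
    (LinearMap.ker_eq_bot.1 (Submodule.ker_liftQ_eq_bot _ _ _ le_rfl))
  have : Mono f' := NatTrans.mono_of_mono_app f'
  obtain ⟨h, hh⟩ := hP.factors g' f'
  refine ⟨⟨fun V => (h.app (Opposite.op V)).hom, fun hV x => ?_⟩, fun V a => ?_⟩
  · exact congrArg (fun f => ModuleCat.Hom.hom f x) (h.naturality (homOfLE hV).op).symm
  · exact congrArg (fun f : dybQ f ⟶ (I.X n).obj =>
      ModuleCat.Hom.hom (f.app (Opposite.op V)) (Submodule.Quotient.mk a)) hh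

end Pool.Agent.PWD.SY
end
end

-- part Pool.Agent.P.MP_65ad7c_ag.DYH
section

/-! Consequences of the extension property. -/

open Set TopologicalSpace CategoryTheory

noncomputable section
namespace Pool.Agent.PWD.SY

variable {Y : Type} [TopologicalSpace Y] {J : PSh ℂ Y}

/-- constants, only zero outside `W` -/
def dyhSub (W O : Opens Y) : Submodule ℂ ℂ where
  carrier := {c | O ≤ W ∨ c = 0}
  add_mem' := by
    rintro a b (ha | ha) (hb | hb)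
    · exact Or.inl ha
    · exact Or.inl ha
    · exact Or.inl hb
    · exact Or.inr (by rw [ha, hb, add_zero])
  zero_mem' := Or.inr rfl
  smul_mem' := by
    rintro c a (ha | ha)
    · exact Or.inl ha
    · exact Or.inr (by rw [ha, smul_zero])

theorem dyhSub_le (W : Opens Y) {O O' : Opens Y} (h : O' ≤ O) : dyhSub W O ≤ dyhSub W O' := by
  rintro c (hc | hc)
  · exact Or.inl (h.trans hc)
  · exact Or.inr hc

/-- the constant presheaf extended by zero -/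
def dyhA (W : Opens Y) : PSh ℂ Y where
  obj O := dyhSub W O
  res h := Submodule.inclusion (dyhSub_le W h)
  res_id _ _ := rfl
  res_res _ _ _ := rfl

/-- the constant presheaf -/
def dyhB (Y : Type) [TopologicalSpace Y] : PSh ℂ Y where
  obj _ := ℂ
  res _ := LinearMap.id
  res_id _ _ := rfl
  res_res _ _ _ := rfl

/-- the inclusion -/
def dyhF (W : Opens Y) : Hom (dyhA W) (dyhB Y) where
  app O := (dyhSub W O).subtype
  nat _ _ := rfl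

open Classical in
/-- the restriction of `s`, or zero -/
def dyhV {W : Opens Y} (s : J.obj W) (O : Opens Y) : J.obj O :=
  if h : O ≤ W then J.res h s else 0

theorem dyhV_of_le {W : Opens Y} (s : J.obj W) {O : Opens Y} (h : O ≤ W) :
    dyhV s O = J.res h s := dif_pos h

/-- the map given by a section -/
def dyhG {W : Opens Y} (s : J.obj W) : Hom (dyhA W) J where
  app O := (LinearMap.toSpanSingleton ℂ (J.obj O) (dyhV s O)).comp (dyhSub W O).subtype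
  nat {O O'} h x := by
    obtain ⟨c, hc⟩ := x
    change J.res h (c • dyhV s O) = c • dyhV s O'
    rcases hc with hc | hc
    · rw [dyhV_of_le s hc, dyhV_of_le s (h.trans hc), map_smul, J.res_res]
    · rw [hc, zero_smul, zero_smul, map_zero]

theorem Ext.flabby (hJ : Ext J) {V W : Opens Y} (h : W ≤ V) (s : J.obj W) :
    ∃ t : J.obj V, J.res h t = s := by
  obtain ⟨k, hk⟩ := hJ (dyhA W) (dyhB Y) (dyhF W) (dyhG s) (by
    rintro O ⟨c, hc⟩ h0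
    have h1 : c = 0 := h0
    change c • dyhV s O = 0
    rw [h1, zero_smul])
  refine ⟨k.app V (1 : ℂ), ?_⟩
  rw [k.nat]
  have h2 := hk W (⟨1, Or.inl le_rfl⟩ : dyhSub W W)
  refine Eq.trans h2 ?_
  change (1 : ℂ) • dyhV s W = s
  rw [one_smul, dyhV_of_le s le_rfl, J.res_id]

/-- direct image -/
def push (J : PSh ℂ Y) (s : C(Y, Y)) : PSh ℂ Y where
  obj W := J.obj (Opens.comap s W)
  res h := J.res (Opens.comap_mono s h)
  res_id _ x := J.res_id _ x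
  res_res _ _ x := J.res_res _ _ x

theorem dyh_le1 (s : Y ≃ₜ Y) (V : Opens Y) :
    V ≤ Opens.comap (s : C(Y, Y)) (Opens.comap (s.symm : C(Y, Y)) V) := by
  intro y hy
  change s.symm (s y) ∈ V
  rwa [s.symm_apply_apply]

theorem dyh_le2 (s : Y ≃ₜ Y) (V : Opens Y) :
    Opens.comap (s.symm : C(Y, Y)) (Opens.comap (s : C(Y, Y)) V) ≤ V := by
  intro y hy
  have h : s (s.symm y) ∈ V := hy
  rwa [s.apply_symm_apply] at h

/-- direct image of a map -/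
def dyhPush {A B : PSh ℂ Y} (f : Hom A B) (s : C(Y, Y)) : Hom (push A s) (push B s) where
  app W := f.app (Opens.comap s W)
  nat h x := f.nat (Opens.comap_mono s h) x

/-- first transposition -/
def dyhL {A : PSh ℂ Y} (s : Y ≃ₜ Y) (g : Hom A (push J (s : C(Y, Y)))) :
    Hom (push A (s.symm : C(Y, Y))) J where
  app V := (J.res (dyh_le1 s V)).comp (g.app (Opens.comap (s.symm : C(Y, Y)) V))
  nat {O O'} h x := by
    have h1 := g.nat (Opens.comap_mono (s.symm : C(Y, Y)) h) x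
    change J.res h (J.res (dyh_le1 s O) (g.app _ x)) = J.res (dyh_le1 s O') (g.app _ (A.res _ x))
    erw [← h1]
    exact (J.res_res _ _ _).trans (J.res_res _ _ _).symm

/-- second transposition -/
def dyhR {B : PSh ℂ Y} (s : Y ≃ₜ Y) (k : Hom (push B (s.symm : C(Y, Y))) J) :
    Hom B (push J (s : C(Y, Y))) where
  app W := (k.app (Opens.comap (s : C(Y, Y)) W)).comp (B.res (dyh_le2 s W))
  nat {O O'} h x := by
    have h1 := k.nat (Opens.comap_mono (s : C(Y, Y)) h) (B.res (dyh_le2 s O) x)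
    refine Eq.trans h1 ?_
    exact congrArg (k.app _) ((B.res_res _ _ _).trans (B.res_res _ _ _).symm)

theorem Ext.push (hJ : Ext J) (s : Y ≃ₜ Y) : Ext (push J (s : C(Y, Y))) := by
  intro A B f g hfg
  obtain ⟨k, hk⟩ := hJ _ _ (dyhPush f (s.symm : C(Y, Y))) (dyhL s g) (by
    intro V a ha
    have h1 := hfg _ a ha
    exact (congrArg (J.res (dyh_le1 s V)) h1).trans (map_zero _))
  refine ⟨dyhR s k, fun V a => ?_⟩
  have h1 := hk (Opens.comap (s : C(Y, Y)) V) (A.res (dyh_le2 s V) a)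
  have h2 := f.nat (dyh_le2 s V) a
  have h3 := g.nat (dyh_le2 s V) a
  refine (congrArg (k.app _) h2).trans (h1.trans ?_)
  refine (congrArg (J.res (dyh_le1 s _)) h3.symm).trans ?_
  exact (J.res_res _ _ _).trans (J.res_id _ _)

theorem push_sep (hJ : (⊥ : Sub J).Loc) (s : C(Y, Y)) : (⊥ : Sub (push J s)).Loc := by
  intro O x hx
  refine hJ (Opens.comap s O) x fun y hy => ?_
  obtain ⟨O', h, hy', h0⟩ := hx (s y) hy
  exact ⟨Opens.comap s O', Opens.comap_mono s h, hy', h0⟩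

theorem dyh_step {A B J J' : PSh ℂ Y} (f : Hom A B) (k : Hom B J) (δ : Hom J J') (φ : Hom B J')
    (sep : (⊥ : Sub J').Loc) (h : ∀ W z, δ.app W (k.app W (f.app W z)) = φ.app W (f.app W z))
    (W : Opens Y) (x : B.obj W) (hx : ∀ y ∈ W, (Sub.map f ⊤).Near x y) :
    δ.app W (k.app W x) = φ.app W x := by
  refine sub_eq_zero.1 ((Submodule.mem_bot ℂ).1 (sep W _ fun y hy => ?_))
  obtain ⟨O, hO, hyO, z, -, hz⟩ := near_map.1 (hx y hy)
  refine near_bot.2 ⟨O, hO, hyO, ?_⟩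
  rw [map_sub, δ.nat, k.nat, φ.nat, ← hz, h, sub_self]

/-- the corrected map -/
def dyhC {A J J' : PSh ℂ Y} (φ : Hom A J') (k : Hom A J) (δ : Hom J J') : Hom A J' where
  app W := φ.app W - (δ.app W).comp (k.app W)
  nat {O O'} h x := by
    change J'.res h (φ.app O x - δ.app O (k.app O x)) = φ.app O' _ - δ.app O' (k.app O' _)
    rw [map_sub, φ.nat, δ.nat, k.nat]

theorem dyhC_app {A J J' : PSh ℂ Y} (φ : Hom A J') (k : Hom A J) (δ : Hom J J') (W : Opens Y)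
    (x : A.obj W) : (dyhC φ k δ).app W x = φ.app W x - δ.app W (k.app W x) := rfl

/-- a chain map from a locally exact complex that kills the cocycles of degree zero sends
cocycles to coboundaries -/
theorem null_bd {A J : ℕ → PSh ℂ Y} (d : ∀ n, Hom (A n) (A (n + 1)))
    (δ : ∀ n, Hom (J n) (J (n + 1))) (δδ : ∀ n W x, (δ (n + 1)).app W ((δ n).app W x) = 0)
    (hJ : ∀ n, Ext (J n)) (sep : ∀ n, (⊥ : Sub (J n)).Loc) (φ : ∀ n, Hom (A n) (J n))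
    (comm : ∀ n W x, (δ n).app W ((φ n).app W x) = (φ (n + 1)).app W ((d n).app W x))
    (h0 : ∀ W x, (d 0).app W x = 0 → (φ 0).app W x = 0)
    (poin : ∀ n (W : Opens Y) (x : (A (n + 1)).obj W), (d (n + 1)).app W x = 0 → ∀ y ∈ W,
      (Sub.map (d n) ⊤).Near x y)
    (n : ℕ) (W : Opens Y) (x : (A (n + 1)).obj W) (hx : (d (n + 1)).app W x = 0) :
    ∃ t, (δ n).app W t = (φ (n + 1)).app W x := by
  have key : ∀ n, ∃ k : Hom (A (n + 1)) (J n), ∀ W x, (d (n + 1)).app W x = 0 →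
      (δ n).app W (k.app W x) = (φ (n + 1)).app W x := by
    intro n
    induction n with
    | zero =>
      obtain ⟨k, hk⟩ := hJ 0 _ _ (d 0) (φ 0) h0
      refine ⟨k, fun W x hx => dyh_step (d 0) k (δ 0) (φ 1) (sep 1) ?_ W x (poin 0 W x hx)⟩
      intro W z
      rw [hk, comm]
    | succ n ih =>
      obtain ⟨k, hk⟩ := ih
      obtain ⟨k', hk'⟩ := hJ (n + 1) _ _ (d (n + 1)) (dyhC (φ (n + 1)) k (δ n)) (by
        intro V a ha
        rw [dyhC_app, hk V a ha, sub_self])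
      refine ⟨k', fun W x hx => dyh_step (d (n + 1)) k' (δ (n + 1)) (φ (n + 1 + 1))
        (sep (n + 1 + 1)) ?_ W x (poin (n + 1) W x hx)⟩
      intro W z
      rw [hk', dyhC_app, map_sub, δδ, comm, sub_zero]
  obtain ⟨k, hk⟩ := key n
  exact ⟨k.app W x, hk W x hx⟩

end Pool.Agent.PWD.SY
end
end

-- part Pool.Agent.P.MP_65ad7c_ag.DYT
section

/-! Supports, coboundaries with supports, flabby gluing. -/

open Set TopologicalSpace CategoryTheory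

noncomputable section
namespace Pool.Agent.PWD.SY

variable {Y : Type} [TopologicalSpace Y] {I : Cx Y} {n k m : ℕ} {W W' : Opens Y} {C C' : Set Y}
  {s s' : Sec I n W}

theorem d_d (t : Sec I k W) : dd n m (dd k n t) = 0 :=
  congrArg (fun f : I.X k ⟶ I.X m => (f.hom.app (Opposite.op W)).hom t) (I.d_comp_d k n m)

theorem d_ne (h : k + 1 ≠ n) (t : Sec I k W) : dd k n t = 0 :=
  congrArg (fun f : I.X k ⟶ I.X n => (f.hom.app (Opposite.op W)).hom t) (I.shape k n h)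

theorem supp_iff {B : Set Y} : Supp Bᶜ s ↔ s ∈ (van (IP I n) B).sub W :=
  ⟨fun h y hy hB => h y hy (fun h' => h' hB), fun h y hy hB => h y hy (not_not.1 hB)⟩

theorem supp_univ (s : Sec I n W) : Supp univ s := fun _ _ h => (h trivial).elim

theorem supp_zero (C : Set Y) : Supp C (0 : Sec I n W) :=
  fun _ hy _ => ⟨W, le_rfl, hy, map_zero _⟩

theorem supp_add (h : Supp C s) (h' : Supp C s') : Supp C (s + s') := by
  intro y hy hC
  obtain ⟨A, hA, yA, eA⟩ := h y hy hC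
  obtain ⟨B, hB, yB, eB⟩ := h' y hy hC
  refine ⟨A ⊓ B, inf_le_left.trans hA, ⟨yA, yB⟩, ?_⟩
  rw [map_add, ← rs_comp hA (inf_le_left : A ⊓ B ≤ A), eA, map_zero, zero_add]
  have := rs_comp hB (inf_le_right : A ⊓ B ≤ B) s'
  rw [eB, map_zero] at this
  exact this.symm

theorem supp_neg (h : Supp C s) : Supp C (-s) := by
  intro y hy hC
  obtain ⟨A, hA, yA, eA⟩ := h y hy hC
  exact ⟨A, hA, yA, by rw [map_neg, eA, neg_zero]⟩

theorem supp_sub (h : Supp C s) (h' : Supp C s') : Supp C (s - s') := by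
  rw [sub_eq_add_neg]
  exact supp_add h (supp_neg h')

theorem supp_mono (h : Supp C s) (hC : ∀ y ∈ W, y ∈ C → y ∈ C') : Supp C' s :=
  fun y hy hy' => h y hy fun hc => hy' (hC y hy hc)

theorem supp_inter (h : Supp C s) (h' : Supp C' s) : Supp (C ∩ C') s := by
  intro y hy hC
  by_cases hc : y ∈ C
  · exact h' y hy fun hc' => hC ⟨hc, hc'⟩
  · exact h y hy hc

theorem supp_rs (h : Supp C s) (hW : W' ≤ W) : Supp C (rs hW s) := by
  intro y hy hC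
  obtain ⟨A, hA, yA, eA⟩ := h y (hW hy) hC
  refine ⟨A ⊓ W', inf_le_right, ⟨yA, hy⟩, ?_⟩
  have := rs_comp hA (inf_le_left : A ⊓ W' ≤ A) s
  rw [eA, map_zero] at this
  rw [rs_comp]
  exact this.symm

theorem supp_d (h : Supp C s) : Supp C (dd n m s) := by
  intro y hy hC
  obtain ⟨A, hA, yA, eA⟩ := h y hy hC
  exact ⟨A, hA, yA, by rw [rs_d, eA, map_zero]⟩

theorem supp_of_rs (hW : W' ≤ W) (h0 : rs hW s = 0) (hC : ∀ y ∈ W, y ∉ C → y ∈ W') : Supp C s :=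
  fun y hy hc => ⟨W', hW, hC y hy hc, h0⟩

theorem rs_eq_zero (h : Supp C s) (hW : W' ≤ W) (hC : ∀ y ∈ W', y ∉ C) : rs hW s = 0 :=
  (IP_sh I n).sep W' (rs hW s) fun y hy => supp_rs h hW y hy (hC y hy)

/-- `s` is the coboundary of a section with support in `C` -/
def Bd (C : Set Y) (s : Sec I n W) : Prop := ∃ (k : ℕ) (t : Sec I k W), Supp C t ∧ dd k n t = s

theorem bd_zero_iff {s : Sec I 0 W} : Bd C s ↔ s = 0 :=
  ⟨fun ⟨k, t, _, e⟩ => e.symm.trans (d_ne (Nat.succ_ne_zero k) t),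
    fun e => ⟨0, 0, supp_zero C, by rw [map_zero, e]⟩⟩

theorem bd_succ_iff {s : Sec I (n + 1) W} :
    Bd C s ↔ ∃ t : Sec I n W, Supp C t ∧ dd n (n + 1) t = s := by
  refine ⟨fun ⟨k, t, ht, e⟩ => ?_, fun ⟨t, ht, e⟩ => ⟨n, t, ht, e⟩⟩
  by_cases hk : k + 1 = n + 1
  · obtain rfl : k = n := Nat.succ_injective hk
    exact ⟨t, ht, e⟩
  · exact ⟨0, supp_zero C, by rw [map_zero, ← e, d_ne hk]⟩

theorem bd_zero (C : Set Y) : Bd C (0 : Sec I n W) := ⟨0, 0, supp_zero C, map_zero _⟩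

theorem bd_univ (t : Sec I k W) : Bd univ (dd k n t) := ⟨k, t, supp_univ t, rfl⟩

theorem Bd.add (h : Bd C s) (h' : Bd C s') : Bd C (s + s') := by
  cases n with
  | zero => rw [bd_zero_iff.1 h, bd_zero_iff.1 h', add_zero]; exact bd_zero C
  | succ n =>
    obtain ⟨t, ht, e⟩ := bd_succ_iff.1 h
    obtain ⟨t', ht', e'⟩ := bd_succ_iff.1 h'
    exact ⟨n, t + t', supp_add ht ht', by rw [map_add, e, e']⟩

theorem Bd.neg (h : Bd C s) : Bd C (-s) := by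
  obtain ⟨k, t, ht, e⟩ := h
  exact ⟨k, -t, supp_neg ht, by rw [map_neg, e]⟩

theorem Bd.sub (h : Bd C s) (h' : Bd C s') : Bd C (s - s') := by
  rw [sub_eq_add_neg]
  exact h.add h'.neg

theorem Bd.mono (h : Bd C s) (hC : ∀ y ∈ W, y ∈ C → y ∈ C') : Bd C' s := by
  obtain ⟨k, t, ht, e⟩ := h
  exact ⟨k, t, supp_mono ht hC, e⟩

theorem Bd.res (h : Bd C s) (hW : W' ≤ W) : Bd C (rs hW s) := by
  obtain ⟨k, t, ht, e⟩ := h
  exact ⟨k, rs hW t, supp_rs ht hW, by rw [← rs_d, e]⟩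

theorem Bd.closed (h : Bd C s) : dd n m s = 0 := by
  obtain ⟨k, t, -, e⟩ := h
  rw [← e, d_d]

theorem Bd.supp (h : Bd C s) : Supp C s := by
  obtain ⟨k, t, ht, e⟩ := h
  rw [← e]
  exact supp_d ht

theorem flab (hI : ∀ n, Injective (I.X n)) (h : W' ≤ W) (s : Sec I n W') :
    ∃ v : Sec I n W, rs h v = s := (ext_of_inj (hI n)).flabby h s

theorem IP_soft (hI : ∀ n, Injective (I.X n)) (n : ℕ) : (⊤ : Sub (IP I n)).Soft := by
  intro K O O₁ _ hO hO₁ x _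
  obtain ⟨v, hv⟩ := flab hI (inf_le_right : O ⊓ O₁ ≤ O₁) (rs (inf_le_left : O ⊓ O₁ ≤ O) x)
  exact ⟨v, trivial, O ⊓ O₁, inf_le_left, inf_le_right, fun y hy => ⟨hO hy, hO₁ hy⟩, hv⟩

/-- glue two sections and extend -/
theorem glue_ext (hI : ∀ n, Injective (I.X n)) {V : Opens Y} (h : W ≤ V) (h' : W' ≤ V)
    (s : Sec I n W) (s' : Sec I n W')
    (e : rs (inf_le_left : W ⊓ W' ≤ W) s = rs inf_le_right s') :
    ∃ v : Sec I n V, rs h v = s ∧ rs h' v = s' := by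
  obtain ⟨z, hz, hz'⟩ := sh_glue2 (IP_sh I n) (le_sup_left : W ≤ W ⊔ W') le_sup_right le_rfl s s' e
  obtain ⟨v, hv⟩ := flab hI (sup_le h h') z
  refine ⟨v, ?_, ?_⟩
  · have := rs_comp (sup_le h h') (le_sup_left : W ≤ W ⊔ W') v
    rw [hv] at this
    exact this.symm.trans hz
  · have := rs_comp (sup_le h h') (le_sup_right : W' ≤ W ⊔ W') v
    rw [hv] at this
    exact this.symm.trans hz'

theorem Bd.extend (hI : ∀ n, Injective (I.X n)) {V : Opens Y} (h : W ≤ V) (hs : Bd univ s) :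
    ∃ v : Sec I n V, Bd univ v ∧ rs h v = s := by
  obtain ⟨k, t, -, e⟩ := hs
  obtain ⟨u, hu⟩ := flab hI h t
  exact ⟨dd k n u, bd_univ u, by rw [rs_d, hu, e]⟩

theorem Bd.extend_zero (hI : ∀ n, Injective (I.X n)) {P : Opens Y} (hs : Bd (P : Set Y)ᶜ s) :
    ∃ v : Sec I n ⊤, Bd univ v ∧ rs le_top v = s ∧ rs (le_top : P ≤ ⊤) v = 0 := by
  obtain ⟨k, t, ht, e⟩ := hs
  obtain ⟨u, hu, hu'⟩ := glue_ext hI (le_top : W ≤ ⊤) (le_top : P ≤ ⊤) t 0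
    (by rw [map_zero]; exact rs_eq_zero ht _ fun y hy hc => hc hy.2)
  exact ⟨dd k n u, bd_univ u, by rw [rs_d, hu, e], by rw [rs_d, hu', map_zero]⟩

end Pool.Agent.PWD.SY
end
end

-- part Pool.Agent.P.MP_65ad7c_ag.XK5
section

open Set Filter Topology TopologicalSpace

set_option backward.isDefEq.respectTransparency false

noncomputable section
namespace Pool.Agent.PWD

section top
variable {Y : Type} [TopologicalSpace Y] {I : Cx Y} {C S : Set Y} {n : ℕ}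

theorem cob_iff_XK5 {W : Opens Y} {y : Y} {s : Sec I n W} :
    Cob C y s ↔ ∃ (W' : Opens Y) (h : W' ≤ W), y ∈ W' ∧ SY.Bd C (rs h s) :=
  ⟨fun ⟨W', h, k, t, hy, ht, e⟩ => ⟨W', h, hy, k, t, ht, e⟩,
    fun ⟨W', h, hy, k, t, ht, e⟩ => ⟨W', h, k, t, hy, ht, e⟩⟩

theorem cob_of_rs_XK5 {W W' : Opens Y} {y : Y} {s : Sec I n W} (h : W' ≤ W)
    (hs : Cob C y (rs h s)) : Cob C y s := by
  obtain ⟨V, hV, hy, e⟩ := cob_iff_XK5.1 hs
  rw [vf_rs_rs] at e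
  exact cob_iff_XK5.2 ⟨V, hV.trans h, hy, e⟩

theorem cob_add_XK5 {W : Opens Y} {y : Y} {s s' : Sec I n W} (hs : Cob C y s)
    (hs' : SY.Bd C s') : Cob C y (s + s') := by
  obtain ⟨V, hV, hy, e⟩ := cob_iff_XK5.1 hs
  exact cob_iff_XK5.2 ⟨V, hV, hy, by rw [map_add]; exact e.add (hs'.res hV)⟩

theorem coc_rs_XK5 {W W' : Opens Y} {s : Sec I n W} (hs : Coc C s) (h : W' ≤ W) :
    Coc C (rs h s) :=
  ⟨SY.supp_rs hs.1 h, by rw [← vf_rs_dd, hs.2, map_zero]⟩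

theorem supp_smul_XK5 {W : Opens Y} {s : Sec I n W} (a : ℂ) (h : Supp C s) : Supp C (a • s) := by
  intro y hy hC
  obtain ⟨A, hA, yA, eA⟩ := h y hy hC
  exact ⟨A, hA, yA, by rw [map_smul, eA, smul_zero]⟩

/-- coboundaries with supports -/
def bdS_XK5 (I : Cx Y) (C : Set Y) (n : ℕ) (W : Opens Y) : Submodule ℂ (Sec I n W) where
  carrier := {s | SY.Bd C s}
  add_mem' h h' := SY.Bd.add h h'
  zero_mem' := SY.bd_zero C
  smul_mem' a _ := fun ⟨k, t, ht, e⟩ => ⟨k, a • t, supp_smul_XK5 a ht, by rw [map_smul, e]⟩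

/-- cocycles with supports -/
def cocS_XK5 (I : Cx Y) (C : Set Y) (n : ℕ) (W : Opens Y) : Submodule ℂ (Sec I n W) where
  carrier := {s | Coc C s}
  add_mem' h h' := ⟨SY.supp_add h.1 h'.1, by rw [map_add, h.2, h'.2, add_zero]⟩
  zero_mem' := ⟨SY.supp_zero C, map_zero _⟩
  smul_mem' a _ h := ⟨supp_smul_XK5 a h.1, by rw [map_smul, h.2, smul_zero]⟩

theorem LC.of_loc (h : ∀ x ∈ S, ∃ (O : Opens Y) (S' : Set Y), x ∈ O ∧ LC I C S' n ∧
    (O : Set Y) ∩ S ⊆ S') : LC I C S n := by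
  intro x hx
  obtain ⟨O, S', hO, hL, hS⟩ := h x hx
  obtain ⟨W, B, hW, hB, H⟩ := hL x (hS ⟨hO, hx⟩)
  refine ⟨W ⊓ O, B.map (rs inf_le_left), ⟨hW, hO⟩, ?_, fun y hy hyW => ⟨?_, ?_⟩⟩
  · rintro _ ⟨b, hb, rfl⟩
    exact coc_rs_XK5 (hB b hb) _
  · rintro _ ⟨b, hb, rfl⟩ hc
    rw [(H y (hS ⟨hyW.2, hy⟩) hyW.1).1 b hb (cob_of_rs_XK5 _ hc), map_zero]
  · intro W' hW' s hy' hs
    obtain ⟨b, hb, e⟩ := (H y (hS ⟨hyW.2, hy⟩) hyW.1).2 W' (hW'.trans inf_le_left) s hy' hs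
    exact ⟨_, ⟨b, hb, rfl⟩, by rwa [vf_rs_rs]⟩

theorem lc_of_sur_inj (h : ∀ x ∈ S, ∃ O : Opens Y, x ∈ O ∧ ∀ y ∈ S, y ∈ O →
    (∀ s : Sec I n O, Coc C s → Cob C y s → SY.Bd C s) ∧
    ∀ (W : Opens Y) (hW : W ≤ O) (s : Sec I n W), y ∈ W → Coc C s →
      ∃ b : Sec I n O, Coc C b ∧ Cob C y (s - rs hW b)) : LC I C S n := by
  intro x hx
  obtain ⟨O, hO, H⟩ := h x hx
  obtain ⟨N, hN⟩ := (bdS_XK5 I C n O).exists_isCompl
  refine ⟨O, N ⊓ cocS_XK5 I C n O, hO, fun b hb => hb.2, fun y hy hyO => ⟨fun b hb hc => ?_, ?_⟩⟩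
  · exact (Submodule.mem_bot ℂ).1 (hN.inf_eq_bot ▸ (⟨(H y hy hyO).1 b hb.2 hc, hb.1⟩ :
      b ∈ bdS_XK5 I C n O ⊓ N))
  · intro W hW s hyW hs
    obtain ⟨b, hb, e⟩ := (H y hy hyO).2 W hW s hyW hs
    obtain ⟨u, hu, v, hv, rfl⟩ := Submodule.mem_sup.1 (hN.sup_eq_top ▸ Submodule.mem_top :
      b ∈ bdS_XK5 I C n O ⊔ N)
    have hu' : SY.Bd C u := hu
    refine ⟨v, ⟨hv, ?_⟩, ?_⟩
    · have := (cocS_XK5 I C n O).sub_mem hb (show u ∈ cocS_XK5 I C n O from ⟨hu'.supp, hu'.closed⟩)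
      rwa [add_sub_cancel_left] at this
    · have := cob_add_XK5 e (hu'.res hW)
      rwa [map_add, add_comm (rs hW u), ← sub_sub, sub_add_cancel] at this

end top

variable {R : Type} {Y : Set (R → ℂ)} {d : ℕ} {U U' : ℕ → Opens Y} {I : Cx Y}
  {one : Sec I 0 (U 1)}

theorem lc_flt (hU : IsStrat d U) (hI : IsIC U I one) (hF : Flt U U') {c : ℕ} (hc : 0 < c)
    (n : ℕ) : LC I (U' c : Set Y)ᶜ (U' (c + 1) \ U' c) n := by
  have hs := ti_sx hU hI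
  refine lc_of_sur_inj fun x hx => ?_
  obtain ⟨k, hk, H⟩ := hF c hc x hx
  obtain ⟨W₀, h₀, hx₀, H₀⟩ := hs.toSAX.flat hk (n : ℤ)
  obtain ⟨O₀, e, m, χ, hO, hxO, hOW, hχ, hr, hA, hz⟩ := H W₀ h₀ hx₀
  let O : Opens Y := ⟨O₀, hO⟩
  refine ⟨O, hxO, fun y hy hyO => ?_⟩
  obtain ⟨H1, H2⟩ := H₀ O₀ (U' c) e m χ hO (U' c).2 hOW hχ hr hA hz y ⟨hyO, hy.2⟩
  have v1 : ∀ {j : ℕ} {t : Sec I j ⊤} {P : Opens Y}, Pi.single j t ∈
      (TI.toFC (tiCx I) hs.inj).van P ↔ rs (le_top : P ≤ ⊤) t = 0 := TI.single_mem_van hs.inj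
  have v2 : ∀ {j : ℕ} {t : Sec I j ⊤}, Pi.single j t ∈ (TI.toFC (tiCx I) hs.inj).van
      (O₀ ∩ U' c) ↔ Supp (U' c : Set Y)ᶜ (rs (le_top : O ≤ ⊤) t) := by
    intro j t
    rw [ti_supp, vf_rs_rs]
    exact v1 (P := O ⊓ U' c)
  have v3 : ∀ (j : ℕ) (t : Sec I j ⊤), (TI.toFC (tiCx I) hs.inj).d (Pi.single j t) =
      Pi.single (j + 1) (dd j (j + 1) t) := TI.dTot_single (tiCx I)
  refine ⟨fun s hs' hb => ?_, fun W hW s hyW hs' => ?_⟩
  · obtain ⟨t, rfl⟩ := vf_flabby (hI.inj n) s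
    have hb' : Cob ((O ⊓ U' c : Opens Y) : Set Y)ᶜ y (rs (le_top : O ≤ ⊤) t) := by
      obtain ⟨V, hV, hyV, hb⟩ := cob_iff_XK5.1 hb
      exact cob_iff_XK5.2 ⟨V, hV, hyV, hb.mono fun z _ h1 h2 => h1 h2.2⟩
    let s' : (((tiCx I).gam (O ⊓ U' c)).X n).obj O := ⟨rs (le_top : O ≤ ⊤) t,
      ti_supp.1 (SY.supp_mono hs'.1 fun z _ h1 h2 => h1 h2.2)⟩
    obtain ⟨a, ha, h1, h2⟩ := (TI.locBd_iff hs.inj (O ⊓ U' c) hyO s' t rfl).1 (ti_cob.1 hb')
    obtain ⟨b, hb, h3, h4⟩ := H2 _ (TI.single_mem_gTot (tiCx I) n t) (v2.2 hs'.1)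
      (by rw [v3]; exact (v1 (P := O)).2 (by rw [vf_rs_dd]; exact hs'.2)) a ha h1 h2
    cases n with
    | zero =>
      rw [(TI.toFC (tiCx I) hs.inj).neg _ (by simp) b hb, map_zero, sub_zero] at h4
      exact SY.bd_zero_iff.2 ((v1 (P := O)).1 h4)
    | succ n =>
      have hb' : b ∈ TI.gTot (tiCx I) n := by
        have e1 : ((n + 1 : ℕ) : ℤ) - 1 = n := by omega
        rwa [e1] at hb
      obtain ⟨u, rfl⟩ : ∃ u : Sec I n ⊤, b = Pi.single n u := ⟨_, TI.eq_single_of_mem hb'⟩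
      rw [v3, ← Pi.single_sub] at h4
      have h5 := (v1 (P := O)).1 h4
      rw [map_sub, sub_eq_zero, vf_rs_dd] at h5
      exact ⟨n, _, v2.1 h3, h5.symm⟩
  · obtain ⟨t, rfl, ht⟩ := SY.glue_ext hI.inj (le_top : W ≤ ⊤) (le_top : O ⊓ U' c ≤ ⊤) s 0
      (by rw [map_zero]; exact SY.rs_eq_zero hs'.1 _ fun z hz h => h hz.2.2)
    obtain ⟨b, hb, h1, h2, h3⟩ := H1 _ (TI.single_mem_gTot (tiCx I) n t)
      ((v1 (P := O ⊓ U' c)).2 ht) (by
        rw [v3]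
        exact TI.single_mem_zTot.2 ⟨W, le_top, hyW, (vf_rs_dd _ _ _ t).trans hs'.2⟩)
    obtain ⟨u, rfl⟩ : ∃ u : Sec I n ⊤, b = Pi.single n u := ⟨_, TI.eq_single_of_mem hb⟩
    rw [v3] at h2
    rw [← Pi.single_sub] at h3
    obtain ⟨V, hV, hyV, h4⟩ := TI.single_mem_zTot.1 h3
    have h5 : rs hV (u - t) = 0 := h4
    refine ⟨rs le_top u, ⟨v2.1 h1, by rw [← vf_rs_dd]; exact (v1 (P := O)).1 h2⟩,
      cob_iff_XK5.2 ⟨W ⊓ V, inf_le_left, ⟨hyW, hyV⟩, ?_⟩⟩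
    have h6 := congrArg (rs (inf_le_right : W ⊓ V ≤ V)) h5
    rw [vf_rs_rs, map_zero, map_sub, sub_eq_zero] at h6
    rw [map_sub, vf_rs_rs, vf_rs_rs, vf_rs_rs, h6, sub_self]
    exact SY.bd_zero _

/-- the axioms hold for a finer stratification -/
theorem IsIC.refine (hI : IsIC U I one) (hU : IsStrat d U) (hU' : IsStrat d U')
    (hle : ∀ c, U' c ≤ U c) (hF : Flt U U') : IsIC U' I (rs (hle 1) one) := by
  have ld : ∀ c, TI.LD (2 * (d - c)) (U' (c + 1) \ U' c : Set Y) := fun c x hx => by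
    obtain ⟨T, hT⟩ := hU'.chart c
    obtain ⟨g, W, -, hW, h⟩ := hT x hx
    let θ : (Fin (d - c) → ℂ) ≃L[ℝ] Fin (2 * (d - c)) → ℝ :=
      ContinuousLinearEquiv.ofFinrankEq (by simp [Module.finrank_pi_fintype, mul_comm])
    refine ⟨W, fun y => θ fun k => y.1 (g k), W.2, hW, Continuous.continuousOn
      (θ.continuous.comp (continuous_pi fun k => (continuous_apply _).comp continuous_subtype_val)),
      fun y hy z hz e => ?_⟩
    exact congrArg Subtype.val (h.injective (a₁ := ⟨y, hy⟩) (a₂ := ⟨z, hz⟩) (θ.injective e))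
  have cax := (ti_sx hU hI).cax_inf (V := U') hU'.mono hU'.top ld
    (fun c => (inf_eq_right.2 (hle c)).symm) (hle 1)
  refine ⟨hI.inj, by rw [← vf_rs_dd, hI.closed, map_zero],
    fun y hy h => hI.ne y (hle 1 hy) (cob_of_rs_XK5 _ h), fun W h s hs y hy => ?_,
    fun c n W s h0 hn hs y hy hy' => hI.supp c n W s h0 hn hs y hy (hle _ hy'),
    fun c n W s hc hn hs y hy hy' => ?_, fun c n => ?_⟩
  · rw [vf_rs_rs]
    exact hI.norm W _ s hs y hy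
  · exact (ti_cob (s := ⟨s, ti_supp.1 hs.1⟩)).2
      (cax.cosupp c hc y hy' n hn W hy _ (Subtype.ext hs.2))
  · rcases Nat.eq_zero_or_pos c with rfl | hc
    · have e : U' 0 = U 0 := hU'.zero.trans hU.zero.symm
      rw [e]
      exact ⟨LC.of_loc fun x _ => ⟨⊤, _, trivial, (hI.lc 0 n).1, fun y hy => ⟨hle _ hy.2.1, hy.2.2⟩⟩,
        LC.of_loc fun x _ => ⟨⊤, _, trivial, (hI.lc 0 n).2, fun y hy => ⟨hle _ hy.2.1, hy.2.2⟩⟩⟩
    · refine ⟨LC.of_loc fun x hx => ?_, lc_flt hU hI hF hc n⟩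
      obtain ⟨k, hk, H⟩ := hF c hc x hx
      obtain ⟨O, e, m, χ, hO, hxO, hOW, -, -, hA, -⟩ := H _ (U (k + 1)).2 hk.1
      exact ⟨⟨O, hO⟩, _, hxO, (hI.lc k n).1, fun y hy => ⟨hOW hy.1, fun h => hy.2.2 (hA ⟨hy.1, h⟩)⟩⟩

end Pool.Agent.PWD
end
end
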