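import Pool.Agent.K.MP_65ad7c_ag.C43
import Pool.Agent.K.MP_65ad7c_ag.C68

/-! Projective neighbourhoods; the sheaf side of Y1. -/

open Set TopologicalSpace CategoryTheory

noncomputable section
namespace Pool.Agent.PWD.SY

section
variable {R : Type} {Y : Set (R → ℂ)} {N a : ℕ} (f : Fin N → R)

theorem dyp_cont : Continuous (vecf f : Y → Fin (N + 1) → ℂ) :=
  continuous_pi fun i => Fin.cases continuous_const
    (fun j => (continuous_apply (f j)).comp continuous_subtype_val) i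

theorem pn_open (c : Fin a → Fin (N + 1) → ℂ) (ε : ℝ) : IsOpen (PN f c ε : Set Y) := by
  have e : (PN f c ε : Set Y) = ⋂ i, {y | ‖c i ⬝ᵥ vecf f y‖ < ε * ‖vecf f y‖} := by
    ext y
    simp only [PN, mem_iInter, mem_ofPred_eq]
  rw [e]
  exact isOpen_iInter_of_finite fun i => isOpen_lt
    (continuous_const.dotProduct (dyp_cont f)).norm (continuous_const.mul (dyp_cont f).norm)

theorem pn_zero (c : Fin a → Fin (N + 1) → ℂ) {ε : ℝ} (hε : 0 < ε) :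
    {y : Y | ∀ i, c i ⬝ᵥ vecf f y = 0} ⊆ PN f c ε := by
  intro y hy i
  have h1 : ‖vecf f y 0‖ ≤ ‖vecf f y‖ := norm_le_pi_norm _ _
  have h2 : ‖vecf f y 0‖ = 1 := norm_one
  rw [hy i, norm_zero]
  exact mul_pos hε (by linarith)

theorem pn_mono (c : Fin a → Fin (N + 1) → ℂ) {ε ε' : ℝ} (h : ε ≤ ε') :
    (PN f c ε : Set Y) ⊆ PN f c ε' := by
  exact fun y hy i => (hy i).trans_le (mul_le_mul_of_nonneg_right h (norm_nonneg _))

theorem pn_cast (c : Fin (a + 1) → Fin (N + 1) → ℂ) (ε : ℝ) :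
    (PN f c ε : Set Y) ⊆ PN f (fun i : Fin a => c i.castSucc) ε := by
  exact fun y hy i => hy i.castSucc

theorem alg_closed {H : Set Y} (hH : ∃ T : Set R, ∀ y, y ∈ H ↔ ∀ g ∈ T, y.1 g = 0) :
    IsClosed H := by
  obtain ⟨T, hT⟩ := hH
  have e : H = ⋂ g ∈ T, {y : Y | y.1 g = 0} := by
    ext y
    simp only [hT, mem_iInter, mem_ofPred_eq]
  rw [e]
  exact isClosed_biInter fun g _ =>
    isClosed_eq ((continuous_apply g).comp continuous_subtype_val) continuous_const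

end

variable {R : Type} [CommRing R] [Algebra ℂ R] {Y : Set (R → ℂ)}
  {N d : ℕ} {f : Fin N → R} {U : ℕ → Opens Y} {I : Cx Y} {one : Sec I 0 (U 1)}

/-- WLP for coboundaries with supports -/
theorem wlp_bd (hY : IsVar Y) (hf : Algebra.adjoin ℂ (range f) = ⊤) (hU : IsStrat d U)
    (hI : IsIC U I one) {a j : ℕ} (c : Fin a → Fin (N + 1) → ℂ) (hj : j + a ≤ d + 1) {ε : ℝ}
    (hε : 0 < ε) {s : Sec I j ⊤} (hd : dd j (j + 1) s = 0) (h1 : rs (le_top : U 1 ≤ ⊤) s = 0)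
    {P : Opens Y} (hP : PN f c ε ⊆ (P : Set Y)) (h2 : rs (le_top : P ≤ ⊤) s = 0) :
    ∃ ε' > 0, Bd ((U 1 : Set Y)ᶜ ∩ (PN f c ε')ᶜ) s := by
  exact wlp hY hf hU hI c hj hε ⟨supp_inter (supp_of_rs le_top h1 fun y _ hy => not_not.1 hy)
    (supp_of_rs le_top h2 fun y _ hy => hP (not_not.1 hy)), hd⟩

/-- a primitive can be chosen to vanish near the singular points of `H` -/
theorem y1_prim (hY : IsVar Y) (hf : Algebra.adjoin ℂ (range f) = ⊤) (hU : IsStrat d U)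
    (hI : IsIC U I one) {H : Set Y} (hH : ∃ T : Set R, ∀ y, y ∈ H ↔ ∀ g ∈ T, y.1 g = 0)
    {m : ℕ} (hd : ∀ e, DimLT ((U e : Set Y)ᶜ ∩ H) (m - e)) {O : Opens Y} (hO : H ⊆ O)
    {s : Sec I m O} (hs : Supp (U 1 : Set Y) s) (hb : Bd univ s) : Bd (H \ U 1)ᶜ s := by
  cases m with
  | zero => rw [bd_zero_iff.1 hb]; exact bd_zero _
  | succ n =>
    obtain ⟨g, -, hg⟩ := bd_succ_iff.1 hb
    obtain ⟨O₁, h₁, k, t, k1, k2, k3⟩ := av1 hY hf hU hI hH hd le_rfl hO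
      (s := s) ⟨supp_mono hs fun y _ hy hy' => hy'.2 hy, hb.closed⟩
    obtain ⟨t₁, k4, k5⟩ := bd_succ_iff.1 (⟨k, t, k2, k3⟩ : Bd (H \ U 1)ᶜ (rs h₁ s))
    obtain ⟨O₂, h₂, k', t₂, l1, l2⟩ := av2 hY hf hU hI hH hd le_rfl (O := O₁)
      (fun y hy => k1 hy.1) (s := rs h₁ g - t₁) (by rw [map_sub, ← rs_d, hg, k5, sub_self])
    obtain ⟨v, l3, l4⟩ := Bd.extend hI.inj (h₂.trans h₁)
      (⟨k', t₂, supp_univ _, l2⟩ : Bd univ (rs h₂ (rs h₁ g - t₁)))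
    refine ⟨n, g - v, fun y _ hy => ?_, by rw [map_sub, hg, l3.closed, sub_zero]⟩
    obtain ⟨W, h₃, m1, m2⟩ := supp_rs k4 h₂ y (l1 (not_not.1 hy)) hy
    refine ⟨W, h₃.trans (h₂.trans h₁), m1, ?_⟩
    rw [← rs_comp (h₂.trans h₁) h₃, map_sub (rs (h₂.trans h₁)), l4, map_sub (rs h₂), rs_comp,
      sub_sub_cancel, m2]

/-- the sheaf side of Y1 -/
theorem y1_sheaf (hY : IsVar Y) (hf : Algebra.adjoin ℂ (range f) = ⊤) (hI : IsIC U I one)
    {H : Set Y} (hH : IsClosed H) {m : ℕ} {O : Opens Y} (hO : H ⊆ O)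
    {s : Sec I m O} (hs : Supp (U 1 : Set Y) s) (hb : Bd (H \ U 1)ᶜ s) :
    ∃ s' : Sec I m O, Bd (U 1 : Set Y) (s - s') ∧ Supp (H ∪ (U 1 : Set Y)ᶜ)ᶜ s' ∧ Bd Hᶜ s' := by
  cases m with
  | zero =>
    refine ⟨0, ?_, supp_zero _, bd_zero _⟩
    rw [bd_zero_iff.1 hb, sub_zero]
    exact bd_zero _
  | succ n =>
    have := hY.metrizable hf
    obtain ⟨g, k1, hg⟩ := bd_succ_iff.1 hb
    obtain ⟨Z, hZ, k2, k3⟩ := exists_zero_set (IP_sh I n) (O := O) g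
    have k4 : rs hZ g = 0 := k2
    obtain ⟨V, V', l1, l2, l3⟩ := sep_closed hH (U 1).isOpen.isClosed_compl (G := Z)
      fun y hy => k3 y (k1 y (hO hy.1) fun h => h hy)
    obtain ⟨τ, m1, m2⟩ := glue_ext hI.inj (inf_le_right : V ⊓ O ≤ O) (inf_le_right : V' ⊓ O ≤ O)
      (rs inf_le_right g) 0 (by
        have h : (V ⊓ O) ⊓ (V' ⊓ O) ≤ Z := (inf_le_inf inf_le_left inf_le_left).trans l3
        rw [map_zero, rs_comp, ← rs_comp hZ h, k4, map_zero])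
    have m3 : Bd (U 1 : Set Y) (dd n (n + 1) τ) :=
      ⟨n, τ, supp_of_rs inf_le_right m2 fun y hy hy' => ⟨l2 hy', hy⟩, rfl⟩
    have m4 : Bd Hᶜ (s - dd n (n + 1) τ) :=
      ⟨n, g - τ, supp_of_rs (inf_le_right : V ⊓ O ≤ O) (by rw [map_sub, m1, sub_self])
        fun y hy hy' => ⟨l1 (not_not.1 hy'), hy⟩, by rw [map_sub, hg]⟩
    refine ⟨s - dd n (n + 1) τ, by rwa [sub_sub_cancel], ?_, m4⟩
    rw [compl_union, compl_compl]
    exact supp_inter m4.supp (supp_sub hs m3.supp)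

end Pool.Agent.PWD.SY
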