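import Pool.Agent.K.MP_65ad7c_ag.C92
import Pool.Agent.K.MP_65ad7c_ag.C100

/-! The subspaces `P` and `N` come from intersection cohomology. -/

open Set Filter Topology TopologicalSpace
open scoped ContDiff
open Pool.Agent.HT (Form Amb cj pull)

noncomputable section
namespace Pool.Agent.PWD.Data.IsModel

variable {R : Type} [CommRing R] [Algebra ℂ R] {Y : Set (R → ℂ)} {a d m n : ℕ} {Q : Data Y a}
  {S : (R → ℂ) → (R → ℂ) → Prop} {U : ℕ → Opens Y} {I : Cx Y} {one : Sec I 0 (U 1)}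
  {u : ∀ n W, Form (Amb Q.M) n →ₗ[ℂ] Sec I n W} (hQ : Q.IsModel S d m U) (hG : (Q.C d).Glob Q.X)
  (hY : IsVar Y) (hu : Q.IsNat one u) (hU : IsStrat d U) (hI : IsIC U I one) (ha : n + a ≤ d)
  {x : (Q.C d).K Q.X Q.T Q.al Q.be}
include hQ hG hY hu hU hI ha

theorem p2 (hx : x ∈ (Q.C d).kP Q.X Q.T Q.al Q.be n) :
    ∃ (η : Form (Amb Q.M) n) (α : Sec I n ⊤) (hs : Sm (St Q.X Q.D Q.T \ Off Q.D Q.al) η),
      dd n (n + 1) α = 0 ∧ Rp u η α ∧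
      x - (Q.C d).kf Q.X Q.T Q.al Q.be η hs ∈ (Q.C d).kB Q.X Q.T Q.al Q.be n := by
  obtain ⟨hx0, z, hz, h1⟩ := Ctx.mem_kP.1 hx
  obtain ⟨ε, hε, η, hs, hη, hd, h2⟩ := hQ.s0 hG hx0
  obtain ⟨ψ, hs4, hψ, hd4, h3⟩ := hQ.s4 hG hz
  have a1 : Q.Adm (Q.PZ ε ⊓ U 1 : Opens Y) η := hη.anti inter_subset_left
  have a2 : Q.Adm (Q.PZ ε ⊓ U 1 : Opens Y) ψ := hψ.anti inter_subset_right
  have s1 := hQ.sm3 (Q.Z_PZ hε) a1
  have s2 := hQ.sm3 (Q.Z_PZ hε) a2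
  have hb := add_mem (sub_mem h1 (Ctx.kmap_B subset_rfl Finset.subset_union_left
    (Finset.empty_subset _) _ _ h2)) (Ctx.kmap_B (Finset.empty_subset Q.T) subset_rfl subset_rfl _ _ h3)
  rw [map_sub, map_sub, Ctx.kmap_kf (C := Q.C d) _ _ _ hs s1, Ctx.kmap_kf (C := Q.C d) _ _ _ hs4 s2,
    show ∀ a b c e : (Q.C d).K Q.X Q.T (Q.al ∪ Q.be) ∅, a - b - (a - c) + (b - e) = c - e from
      fun a b c e => by abel, Ctx.kf_sub (C := Q.C d) s1 s2] at hb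
  obtain ⟨ε', hε', hle, he⟩ := hQ.j3 hG hY hu hε (a1.sub a2)
    (((hd.anti (pre_mono inter_subset_left)).sub (hd4.anti (pre_mono inter_subset_right))).congr
      fun y hy => extDeriv_sub' (a1.1.diff hy) (a2.1.diff hy)) (s1.sub s2) hb
  have hη' : Q.Adm (Q.PZ ε') η := hη.anti (Q.PZ_mono hle)
  have hd' := (hQ.dr_d hY hu hη').2 (hd.anti (pre_mono (Q.PZ_mono hle)))
  obtain ⟨α, hα, hr⟩ := (hQ.dr hY hu).y4 hY hQ.gen hU hI ha (fun i => Q.c i.castSucc) hε'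
    (W := Q.PZ ε') subset_rfl hd' (ψ := cl ψ hψ) ((hQ.dr_d hY hu hψ).2 hd4)
    (he ((hη'.anti inter_subset_left).sub (hψ.anti inter_subset_right)))
  exact ⟨η, α, hs, hα, (hQ.rp_iff hY hu).2 ⟨_, hη', Q.Z_PZ hε', hd', hr⟩, h2⟩

theorem n2 (hx : x ∈ (Q.C d).kN Q.X Q.T Q.al Q.be Q.h0 n) :
    ∃ (η : Form (Amb Q.M) n) (hs : Sm (St Q.X Q.D Q.T \ Off Q.D Q.al) η), Rp u η 0 ∧
      x - (Q.C d).kf Q.X Q.T Q.al Q.be η hs ∈ (Q.C d).kB Q.X Q.T Q.al Q.be n := by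
  obtain ⟨z, hz, h1, h0⟩ := Ctx.mem_kN.1 hx
  obtain ⟨ε, hε, η, hs, hη, hd, hv, h2⟩ := hQ.s1 hG hz
  have a1 : Q.Adm (Q.PZ ε ⊓ U 1 : Opens Y) η := hη.anti inter_subset_left
  have s1 := hQ.sm3 (Q.Z_PZ hε) a1
  have hb := sub_mem h1 (Ctx.kmap_B subset_rfl Finset.subset_union_left
    (Finset.singleton_subset_iff.2 (Finset.mem_insert_self _ _)) _ _ h2)
  rw [map_sub, Ctx.kmap_kf (C := Q.C d) _ _ _ hs s1, sub_sub_cancel] at hb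
  obtain ⟨ε', hε', hle, he⟩ := hQ.j2 hG hY hu hε a1 (hd.anti (pre_mono inter_subset_left))
    (hv.anti (pre_mono inter_subset_left)) s1 hb
  have hη' : Q.Adm (Q.PZ ε') η := hη.anti (Q.PZ_mono hle)
  have hd' := (hQ.dr_d hY hu hη').2 (hd.anti (pre_mono (Q.PZ_mono hle)))
  have hr := (hQ.dr hY hu).y2 hY hQ.gen hU hI ha Q.c hε' (W := Q.PZ ε') subset_rfl hd'
    ((hQ.dr_van_open hY hu (Q.PH ε').isOpen hη').2
      (hv.anti (pre_mono (inter_subset_right.trans (Q.PH_mono hle)))))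
    (he (hη'.anti inter_subset_left))
  refine ⟨η, hs, (hQ.rp_iff hY hu).2 ⟨_, hη', Q.Z_PZ hε', hd', hr⟩, ?_⟩
  have h3 := add_mem h0 (Ctx.kmap_B subset_rfl subset_rfl (Finset.subset_insert _ _) _ _ h2)
  rwa [map_sub, Ctx.kmap_kf (C := Q.C d) _ _ _ hs hs, sub_add_sub_cancel] at h3

end Pool.Agent.PWD.Data.IsModel
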