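import Pool.Agent.P.MP_65ad7c_ag.HAlg
import Pool.Agent.P.MP_65ad7c_ag.HKD
import Pool.Agent.P.MP_65ad7c_ag.HPoly

/-! The Hodge decomposition from the `d d^c` lemma; the de Rham complex as one column. -/

open Set
open Complex (I)

noncomputable section
namespace Pool.Agent.HT

namespace KD
variable {T : Type} [AddCommGroup T] [Module ℂ T] {K : KD T} {p n a a' : ℕ} {x u v g : T}

theorem hd1 (hx : x ∈ K.H p n) (hg : x ∈ Sp K.g (GE (2 * (a : ℝ) - n)) ⊤) (e : x = K.d g) :
    ∃ w ∈ K.F a, K.d w = x := by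
  obtain ⟨h, hh, _, ⟨β, hβ, rfl⟩, e'⟩ :=
    Submodule.mem_sup.1 (L4 (n + 1) a x (by omega) hx hg (by rw [e, K.dd]))
  have h1 : h = K.d (g - β) := by rw [map_sub, ← e, ← e', add_sub_cancel_right]
  obtain ⟨w, hw, hw'⟩ := L5 hh.1.2 (dc_of_d hh.1.1.2 h1) hh.2
  exact ⟨w + β, add_mem hw.1 hβ.1, by rw [map_add, hw', e']⟩

theorem hd2 (ha : a + a' = n + 1) (hx : x ∈ K.H p n) (hd : K.d x = 0) :
    ∃ u ∈ K.F a, ∃ v ∈ K.Fb a', ∃ g, K.d u = 0 ∧ K.d v = 0 ∧ x = u + v + K.d g := by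
  obtain ⟨h, hh, β, -, e⟩ := HA hx hd
  obtain ⟨u, hu, v, hv, rfl⟩ :=
    Sp.split (GE (2 * (a : ℝ) - n)) (Sp.dec (inv_B.inf inv_H) hh (sp_of_H hh.2))
  refine ⟨u, F_of_H (Sp.le_self hu).2 (Sp.mono inter_subset_right le_top hu), v,
    F_of_H (K := K.neg) (Sp.le_self hv).2 ?_, β, (Sp.le_self hu).1.1, (Sp.le_self hv).1.1, e⟩
  refine (Sp.le (q := Sp K.neg.g (GE (2 * (a' : ℝ) - n)) ⊤)
    fun lam hl y _ hg => Sp.mem (lam := -lam) ?_ trivial ?_) hv
  · obtain ⟨⟨b, hb, rfl⟩, h2⟩ := hl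
    rw [mem_compl_iff, mem_GE, im_sv, not_le] at h2
    rw [mem_GE, Complex.neg_im, im_sv]
    have h3 : b < a := by exact_mod_cast (by linarith : (b : ℝ) < a)
    have h4 : (a' : ℝ) + b ≤ n := by exact_mod_cast (by omega : a' + b ≤ n)
    linarith
  · change -K.g y = _
    rw [hg, neg_smul]

theorem hd0 (p n : ℕ) (hu : u ∈ K.F a) (du : K.d u = 0) : ∃ h ∈ K.B,
    h ∈ Sp K.g (GE (2 * (a : ℝ) - n)) ⊤ ∧ ∃ β, h + K.d β = K.e p n u := by
  obtain ⟨h, hh, _, ⟨β, -, rfl⟩, e1⟩ := Submodule.mem_sup.1 (L4 (n + 1) a _ (by omega)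
    (K.e_mem p n u) (mem_F'.1 hu p n) (by rw [← K.ed, du, map_zero]))
  exact ⟨h, hh.1.1, hh.2, β, e1⟩

theorem hd3 (ha : n + 1 ≤ a + a') (hu : u ∈ K.F a) (hv : v ∈ K.Fb a') (du : K.d u = 0)
    (dv : K.d v = 0) (e : u - v = K.d g) : ∃ g', K.e p n u = K.d g' := by
  obtain ⟨h, hB, hh, β, e1⟩ := hd0 p n hu du
  obtain ⟨h', hB', hh', β', e2⟩ := hd0 (K := K.neg) (a := a') (u := v) p n hv dv
  have e2' : h' + K.d β' = K.e p n v := e2
  have hh'' : h' ∈ Sp (-K.g) (GE (2 * (a' : ℝ) - n)) ⊤ := hh'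
  obtain ⟨b, -, hb⟩ := K.e_d_ex p n g
  rw [← e, map_sub, ← e1, ← e2'] at hb
  have h2 : h + -h' = K.d (b - β + β') := by
    rw [map_add, map_sub, ← hb]
    abel
  have h3 : h + -h' ∈ K.B := add_mem hB (neg_mem (neg_B.1 hB'))
  obtain ⟨w, hw⟩ : h ∈ LinearMap.range K.dc := by
    refine Sp.part inv_dc hh (neg_mem (Sp.mono ?_ le_rfl (Sp.neg hh''))) (dc_of_d h3.2 h2)
    intro lam hl h4
    have h5 : 2 * (a' : ℝ) - n ≤ -lam.im := hl
    have h6 : 2 * (a : ℝ) - n ≤ lam.im := h4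
    have h7 : (n : ℝ) + 1 ≤ a + a' := by exact_mod_cast ha
    linarith
  exact ⟨K.c w + β, by rw [map_add, ← dc_apply, hw, e1]⟩

end KD

theorem fold_iff {T : Type} [AddCommGroup T] [Module ℂ T] {g : Module.End ℂ T} {n : ℕ} {x : T}
    (hx : x ∈ ⨆ b ∈ Finset.range (n + 1), g.eigenspace (I * (2 * (b : ℂ) - n))) (a : ℕ) :
    (List.range' a (n + 1 - a)).foldr (fun (b : ℕ) y => g y - (I * (2 * (b : ℂ) - n)) • y) x = 0 ↔
      x ∈ EGe g (2 * (a : ℝ) - n) := by
  constructor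
  · intro h
    have h1 := hp_mem_of_fold g (fun b => I * (2 * (b : ℂ) - n)) (fun b b' e => by
      have := congrArg Complex.im e
      simp only [KD.im_sv] at this
      exact_mod_cast (by linarith : (b : ℝ) = b')) _ (List.nodup_range' ..) x h
    refine (iSup₂_le fun b hb y hy => ?_ : _ ≤ EGe g (2 * (a : ℝ) - n)) h1
    refine EGe.mem_of ?_ (Module.End.mem_eigenspace_iff.1 hy)
    have : (a : ℝ) ≤ b := by exact_mod_cast (List.mem_range'_1.1 hb).1
    rw [KD.im_sv]
    linarith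
  · intro h
    rw [EGe_eq] at h
    have h1 : x ∈ Sp g (KD.sv n) ⊤ := by
      refine (iSup₂_le fun b hb y hy => ?_ : _ ≤ Sp g (KD.sv n) ⊤) hx
      exact Sp.mem ⟨b, Nat.lt_succ_iff.1 (Finset.mem_range.1 hb), rfl⟩ trivial
        (Module.End.mem_eigenspace_iff.1 hy)
    refine hp_fold_zero g (fun b => I * (2 * (b : ℂ) - n)) _
      ((Sp.le fun lam hl y hy hg => ?_) (Sp.dec GInv.sp h h1))
    obtain ⟨b, hb, rfl⟩ := hl
    by_cases hab : a ≤ b
    · exact (le_iSup₂_of_le b (List.mem_range'_1.2 ⟨hab, by omega⟩) le_rfl :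
        g.eigenspace _ ≤ _) (Module.End.mem_eigenspace_iff.2 hg)
    · rw [Sp.eq_zero (g := g) (disjoint_compl_right (a := GE (2 * (a : ℝ) - n))) hy
        (Sp.mem (fun h' => ?_) trivial hg)]
      · exact zero_mem _
      · rw [mem_GE, KD.im_sv] at h'
        have : (b : ℝ) < a := by exact_mod_cast not_le.1 hab
        linarith

variable {V : Type} [NormedAddCommGroup V] [NormedSpace ℝ V] {J : V → V →L[ℝ] V} {S : Set V}

/-- one form on `S` in each degree -/
abbrev C1 (S : Set V) := (n : ℕ) → Om S n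

variable (S) in
/-- the exterior derivative -/
def c1D : Module.End ℂ (C1 S) where
  toFun y n := match n with
    | 0 => 0
    | n + 1 => Om.d S n (y n)
  map_add' x y := by
    funext n
    cases n
    exacts [(add_zero _).symm, map_add _ _ _]
  map_smul' c x := by
    funext n
    cases n
    exacts [(smul_zero (A := Om S 0) c).symm, map_smul (Om.d S _) c _]

variable (S) in
/-- the projections -/
def c1E (p n : ℕ) : Module.End ℂ (C1 S) where
  toFun y m := if p = 0 ∧ m = n then y m else 0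
  map_add' x y := by
    funext m
    simp only [Pi.add_apply]
    split_ifs
    exacts [rfl, (add_zero _).symm]
  map_smul' c x := by
    funext m
    simp only [Pi.smul_apply, RingHom.id_apply]
    split_ifs
    exacts [rfl, (smul_zero _).symm]

variable (S) in
/-- conjugation -/
def c1C : C1 S →ₗ⋆[ℂ] C1 S where
  toFun y n := Om.conj S n (y n)
  map_add' x y := by
    funext n
    exact map_add _ _ _
  map_smul' c x := by
    funext n
    exact map_smulₛₗ (Om.conj S n) c _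

/-- the type operator -/
def c1G (h : GamOK J S) : Module.End ℂ (C1 S) where
  toFun y n := Om.gam h n (y n)
  map_add' x y := by
    funext n
    exact map_add _ _ _
  map_smul' c x := by
    funext n
    exact map_smul (Om.gam h n) c _

theorem c1D_zero (y : C1 S) : c1D S y 0 = 0 := rfl
theorem c1D_succ (y : C1 S) (n : ℕ) : c1D S y (n + 1) = Om.d S n (y n) := rfl
theorem c1E_apply (p n : ℕ) (y : C1 S) (m : ℕ) :
    c1E S p n y m = if p = 0 ∧ m = n then y m else 0 := rfl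
theorem c1C_apply (y : C1 S) (n : ℕ) : c1C S y n = Om.conj S n (y n) := rfl
theorem c1E_same (n : ℕ) (y : C1 S) : c1E S 0 n y n = y n := if_pos ⟨rfl, rfl⟩

theorem c1E_eq (n : ℕ) (y : C1 S) : c1E S 0 n y = Pi.single n (y n) := by
  funext m
  by_cases e : m = n
  · rw [e, c1E_same, Pi.single_eq_same]
  · rw [c1E_apply, if_neg fun h => e h.2, Pi.single_eq_of_ne e]

theorem c1E_ne {p : ℕ} (hp : p ≠ 0) (n : ℕ) (y : C1 S) : c1E S p n y = 0 :=
  funext fun _ => if_neg fun h => hp h.1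

theorem c1C_C (y : C1 S) : c1C S (c1C S y) = y := funext fun _ => Om.conj_conj _ _

theorem c1C_d (y : C1 S) : c1D S (c1C S y) = c1C S (c1D S y) := by
  funext n
  cases n
  exacts [(map_zero (Om.conj S 0)).symm, Om.d_conj _ _]

theorem c1C_e (p n : ℕ) (y : C1 S) : c1E S p n (c1C S y) = c1C S (c1E S p n y) := by
  funext m
  simp only [c1E_apply, c1C_apply]
  split_ifs
  exacts [rfl, (map_zero _).symm]

variable (h : GamOK J S)

theorem c1G_apply (y : C1 S) (n : ℕ) : c1G h y n = Om.gam h n (y n) := rfl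

theorem c1C_g (y : C1 S) : c1C S (c1G h y) = c1G h (c1C S y) :=
  funext fun _ => (Om.gam_conj h _).symm

theorem c1c_zero (y : C1 S) : (c1G h * c1D S - c1D S * c1G h) y 0 = 0 := by
  change Om.gam h 0 0 - 0 = 0
  rw [map_zero, sub_zero]

theorem c1c_succ (y : C1 S) (m : ℕ) :
    (c1G h * c1D S - c1D S * c1G h) y (m + 1) = Om.dc h m (y m) := rfl

theorem c1G_single (n : ℕ) (a : Om S n) :
    (Pi.single n (Om.gam h n a) : C1 S) = c1G h (Pi.single n a) := by
  funext m
  rw [c1G_apply]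
  by_cases e : m = n
  · subst e
    rw [Pi.single_eq_same, Pi.single_eq_same]
  · rw [Pi.single_eq_of_ne e, Pi.single_eq_of_ne e, map_zero]

/-- the de Rham complex as a complex with one column -/
def c1KD (hH : Hodge h) : KD (C1 S) where
  d := c1D S
  δ := 0
  e := c1E S
  ee p n x := by
    funext m
    simp only [c1E_apply]
    split_ifs <;> rfl
  ee' p n p' n' x e := by
    funext m
    simp only [c1E_apply, Pi.zero_apply]
    split_ifs with h1 h2
    exacts [absurd ⟨h1.1.trans h2.1.symm, h1.2.symm.trans h2.2⟩ e, rfl, rfl]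
  ext x e := funext fun n => (c1E_same n x).symm.trans (congrFun (e 0 n) n)
  ed p n x := by
    funext m
    rcases m with _ | m
    · simp only [c1E_apply, c1D_zero, ite_self]
    · simp only [c1E_apply, c1D_succ, Nat.add_right_cancel_iff]
      split_ifs
      exacts [rfl, (map_zero _).symm]
  ed0 p x := by
    funext m
    rw [c1E_apply]
    split_ifs with h1
    · rw [h1.2]
      rfl
    · rfl
  eδ p n x := map_zero _
  eδ0 n x := map_zero _
  dd x := by
    funext m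
    rcases m with _ | _ | m
    exacts [rfl, map_zero (Om.d S 0), Om.d_d _ _]
  δδ x := rfl
  dδ x := (map_zero _).trans neg_zero.symm
  g := c1G h
  eg p n x := by
    funext m
    simp only [c1G_apply, c1E_apply]
    split_ifs
    exacts [rfl, (map_zero _).symm]
  gδ x := map_zero _
  poly p m x := by
    by_cases hp : p = 0
    swap
    · rw [c1E_ne hp]
      exact zero_mem _
    rw [hp, c1E_eq]
    refine (iSup₂_le fun b hb y hy => ?_ : _ ≤ Submodule.comap
      (LinearMap.single ℂ (fun n => Om S n) m) (⨆ b ∈ Finset.range (m + 1),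
        (c1G h).eigenspace (I * (2 * (b : ℂ) - m)))) (hH.poly m (x m))
    refine Submodule.mem_iSup_of_mem b
      (Submodule.mem_iSup_of_mem hb (Module.End.mem_eigenspace_iff.2 ?_))
    rw [← map_smul, ← Module.End.mem_eigenspace_iff.1 hy]
    exact (c1G_single h m y).symm
  hA x hx := by
    choose b hb using fun m => hH.hA m (x (m + 1)) (congrFun hx (m + 2))
    refine ⟨b, funext fun m => ?_⟩
    rcases m with _ | _ | m
    · rfl
    · rw [c1D_succ, c1G_apply, Om.gam_zero, map_zero]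
      rfl
    · exact hb m
  hB x := by
    funext m
    rcases m with _ | m
    · simp only [Pi.sub_apply, Pi.neg_apply, c1G_apply, c1c_zero, c1D_zero, map_zero, sub_zero,
        neg_zero]
    · exact hH.hB m (x m)
  hC y hy := by
    choose b hb using fun m => hH.hC m (y (m + 1)) (congrFun hy (m + 3))
    refine ⟨b, funext fun m => ?_⟩
    rcases m with _ | _ | m
    · rfl
    · rw [c1D_succ, c1D_succ, c1c_zero, map_zero]
      exact hH.hC0 _ (congrFun hy 2)
    · exact hb m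
  hD y hy := by
    choose b hb using fun m => hH.hD m (y (m + 1)) (congrFun hy (m + 3))
    refine ⟨b, funext fun m => ?_⟩
    rcases m with _ | _ | m
    · exact c1c_zero h y
    · rw [c1c_succ, c1D_succ, c1c_zero, map_zero]
      exact hH.hD0 _ (congrFun hy 2)
    · exact hb m

variable {h} (hH : Hodge h) {a a' m : ℕ} {y z u v : C1 S}

theorem mem_c1F : y ∈ (c1KD h hH).F a ↔ ∀ n, y n ∈ EGe (Om.gam h n) (2 * (a : ℝ) - n) := by
  rw [KD.mem_F]
  refine ⟨fun hy n => ?_, fun hy p n => ?_⟩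
  · have := EGe.map (g' := Om.gam h n) (LinearMap.proj n : C1 S →ₗ[ℂ] Om S n) (fun _ => rfl) (hy 0 n)
    exact c1E_same n y ▸ this
  · change c1E S p n y ∈ EGe (c1G h) _
    by_cases hp : p = 0
    · rw [hp, c1E_eq]
      exact EGe.map (LinearMap.single ℂ (fun n => Om S n) n) (c1G_single h n) (hy n)
    · rw [c1E_ne hp]
      exact zero_mem _

theorem c1C_Fb (hy : y ∈ (c1KD h hH).F a) : c1C S y ∈ (c1KD h hH).Fb a := by
  rw [KD.mem_F] at hy
  refine KD.mem_Fb _ |>.2 fun p m => ?_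
  have := EGe.map_conj (g' := -c1G h) (c1C S)
    (fun x => by rw [LinearMap.neg_apply, neg_neg]; exact c1C_g h x) (hy p m)
  exact (c1C_e p m y).symm ▸ this

theorem c1C_F (hy : y ∈ (c1KD h hH).Fb a) : c1C S y ∈ (c1KD h hH).F a := by
  rw [KD.mem_Fb] at hy
  refine KD.mem_F _ |>.2 fun p m => ?_
  have := EGe.map_conj (g := -c1G h) (g' := c1G h) (c1C S)
    (fun x => by rw [LinearMap.neg_apply, map_neg, c1C_g]) (hy p m)
  exact (c1C_e p m y).symm ▸ this

theorem c1_h1 (hy : y ∈ (c1KD h hH).F a) (e : y = c1D S z) :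
    ∃ z' ∈ (c1KD h hH).F a, y = c1D S z' := by
  have h1 : ∀ n, ∃ w ∈ (c1KD h hH).F a, c1D S w = c1E S 0 n y := fun n => by
    obtain ⟨b, -, hb⟩ := (c1KD h hH).e_d_ex 0 n z
    exact KD.hd1 ((c1KD h hH).e_mem 0 n y) (KD.mem_F'.1 hy 0 n) (e ▸ hb)
  choose w hw hw' using h1
  refine ⟨fun n => w (n + 1) n, (mem_c1F hH).2 fun n => (mem_c1F hH).1 (hw _) n, funext fun n => ?_⟩
  cases n with
  | zero => rw [e]; rfl
  | succ n => exact (c1E_same _ y).symm.trans (congrFun (hw' (n + 1)) (n + 1)).symm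

theorem c1_h2 (ha : a + a' = m + 1) (hy : c1D S y = 0) :
    ∃ u ∈ (c1KD h hH).F a, ∃ v ∈ (c1KD h hH).F a', ∃ z, c1D S u = 0 ∧ c1D S v = 0 ∧
      c1E S 0 m y - u - c1C S v - c1D S z = 0 := by
  obtain ⟨u, hu, v, hv, z, du, dv, e⟩ := KD.hd2 ha ((c1KD h hH).e_mem 0 m y)
    (((c1KD h hH).ed 0 m y).symm.trans ((congrArg _ hy).trans (map_zero _)))
  refine ⟨u, hu, c1C S v, c1C_F hH hv, z, du, ?_, ?_⟩
  · rw [c1C_d, show c1D S v = 0 from dv, map_zero]
  · rw [c1C_C, show c1E S 0 m y = u + v + c1D S z from e]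
    abel

theorem c1_h3 (ha : m + 1 ≤ a + a') (hu : u ∈ (c1KD h hH).F a) (hv : v ∈ (c1KD h hH).F a')
    (du : c1D S u = 0) (dv : c1D S v = 0) (e : u - c1C S v - c1D S z = 0) :
    ∃ z', c1E S 0 m u = c1D S z' :=
  KD.hd3 (K := c1KD h hH) ha hu (c1C_Fb hH hv) du
    (show c1D S _ = 0 by rw [c1C_d, dv, map_zero]) (sub_eq_zero.1 e)

end Pool.Agent.HT
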