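import Pool.Agent.P.MP_65ad7c_ag.DK1
import Pool.Agent.P.MP_65ad7c_ag.HMain
import Pool.Agent.K.MP_65ad7c_ag.C102

/-! Block HD: Hodge theory on the strata. -/

open Set Filter Topology
open Pool.Agent.HT

noncomputable section
namespace Pool.Agent.PWD

section rep
variable {V : Type} [NormedAddCommGroup V] [NormedSpace ℝ V] {J : V → V →L[ℝ] V} {S : Set V}
  {f g : GF V} {y z : C1 S}

variable (S) in
/-- near `S`, `f` is a smooth representative of `y` -/
def RepH (f : GF V) (y : C1 S) : Prop :=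
  ∀ n, ∃ F : SF V n, Om.mk S F = y n ∧ ∀ x ∈ S, f n =ᶠ[𝓝 x] F.1

theorem RepH.ex [FiniteDimensional ℝ V] (hS : IsCompact S) (h : SmS S f) : ∃ y, RepH S f y := by
  have h1 : ∀ n, ∃ F : SF V n, ∀ x ∈ S, f n =ᶠ[𝓝 x] F.1 := fun n => by
    obtain ⟨χ, -, -, h1, h2⟩ := exists_cut hS isOpen_univ (subset_univ _) (h n)
    refine ⟨SF.mk _ h2, fun x hx => (h1.filter_mono (nhds_le_nhdsSet hx)).mono fun y hy => ?_⟩
    show f n y = χ y • f n y
    rw [hy, one_smul]
  choose F hF using h1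
  exact ⟨fun n => Om.mk S (F n), fun n => ⟨F n, rfl, hF n⟩⟩

theorem RepH.surj (y : C1 S) : ∃ f, RepH S f y := by
  choose F hF using fun n => Submodule.Quotient.mk_surjective _ (y n)
  exact ⟨fun n => (F n).1, fun n => ⟨F n, hF n, fun _ _ => EventuallyEq.rfl⟩⟩

theorem RepH.sm (h : RepH S f y) : SmS S f := fun n => by
  obtain ⟨F, -, hF⟩ := h n
  exact (Sm.of_contDiff F.smooth).congr hF

theorem RepH.van (h : RepH S f y) : VanG S f ↔ y = 0 := by
  rw [funext_iff]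
  refine forall_congr' fun n => ?_
  obtain ⟨F, e, hF⟩ := h n
  rw [← e, Pi.zero_apply, Submodule.Quotient.mk_eq_zero, ← van_iff_nul]
  exact ⟨fun h => h.congr fun x hx => (hF x hx).self_of_nhds.symm,
    fun h => h.congr fun x hx => (hF x hx).self_of_nhds⟩

theorem RepH.sub (h : RepH S f y) (h' : RepH S g z) : RepH S (f - g) (y - z) := fun n => by
  obtain ⟨F, e, hF⟩ := h n
  obtain ⟨G, e', hG⟩ := h' n
  exact ⟨F - G, by rw [Pi.sub_apply, ← e, ← e']; rfl, fun x hx => (hF x hx).sub (hG x hx)⟩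

theorem RepH.d (h : RepH S f y) : RepH S (dG f) (c1D S y) := fun n => by
  cases n with
  | zero => exact ⟨0, rfl, fun _ _ => EventuallyEq.rfl⟩
  | succ n =>
    obtain ⟨F, e, hF⟩ := h n
    exact ⟨SF.d n F, by rw [c1D_succ, ← e]; rfl,
      fun x hx => (hF x hx).eventually_nhds.mono fun _ hy => EventuallyEq.extDeriv_eq hy⟩

theorem RepH.conj (h : RepH S f y) : RepH S (conjG f) (c1C S y) := fun n => by
  obtain ⟨F, e, hF⟩ := h n
  exact ⟨SF.conj n F, by rw [c1C_apply, ← e]; rfl,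
    fun x hx => (hF x hx).mono fun _ hy => congrArg _ hy⟩

theorem RepH.prj (h : RepH S f y) (m : ℕ) : RepH S (prj m f) (c1E S 0 m y) := fun n => by
  rw [c1E_eq, PWD.prj]
  by_cases e : n = m
  · subst e
    rw [Pi.single_eq_same, Pi.single_eq_same]
    exact h n
  · rw [Pi.single_eq_of_ne e, Pi.single_eq_of_ne e]
    exact ⟨0, rfl, fun _ _ => EventuallyEq.rfl⟩

/-- evaluation at a point -/
def evH (x : V) (n : ℕ) : SF V n →ₗ[ℂ] Alt V n where
  toFun F := F.1 x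
  map_add' _ _ := rfl
  map_smul' _ _ := rfl

theorem RepH.ty {hJ : GamOK J S} (hH : Hodge hJ) (h : RepH S f y) (p : ℕ) :
    TyV J S p f ↔ y ∈ (c1KD hJ hH).F p := by
  have h1 : RepH S (fun n x => tyA (J x) p n (f n x)) fun n => (List.range' p (n + 1 - p)).foldr
      (fun (b : ℕ) a => Om.gam hJ n a - (Complex.I * (2 * (b : ℂ) - n)) • a) (y n) := fun n => by
    obtain ⟨F, e, hF⟩ := h n
    refine ⟨(List.range' p (n + 1 - p)).foldr (fun (b : ℕ) a =>
      SF.gam J hJ.smooth n a - (Complex.I * (2 * (b : ℂ) - n)) • a) F, ?_,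
      fun x hx => (hF x hx).mono fun w hw => ?_⟩
    · beta_reduce
      rw [← e]
      exact hp_fold_map (Nul S n).mkQ (g' := Om.gam hJ n) (fun _ => rfl) _ _ F
    · show tyA (J w) p n (f n w) = _
      rw [hw]
      exact (hp_fold_map (evH w n) (g' := der (J w)) (fun _ => rfl) _ _ F).symm
  rw [TyV, h1.van, mem_c1F, funext_iff]
  exact forall_congr' fun n => fold_iff (hH.poly n _) p

theorem hdg_of [FiniteDimensional ℝ V] (hS : IsCompact S) {hJ : GamOK J S} (hH : Hodge hJ) :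
    Hdg J S where
  h1 p f g hf hg ht hv := by
    obtain ⟨y, hy⟩ := RepH.ex hS hf
    obtain ⟨z, hz⟩ := RepH.ex hS hg
    obtain ⟨z', h1, h2⟩ := c1_h1 hH ((hy.ty hH p).1 ht) (sub_eq_zero.1 ((hy.sub hz.d).van.1 hv))
    obtain ⟨g', hg'⟩ := RepH.surj z'
    exact ⟨g', hg'.sm, (hg'.ty hH p).2 h1, (hy.sub hg'.d).van.2 (sub_eq_zero.2 h2)⟩
  h2 m p p' f hp hf hd := by
    obtain ⟨y, hy⟩ := RepH.ex hS hf
    obtain ⟨u, hu, v, hv, z, du, dv, e⟩ := c1_h2 hH hp (hy.d.van.1 hd)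
    obtain ⟨U, hU⟩ := RepH.surj u
    obtain ⟨W, hW⟩ := RepH.surj v
    obtain ⟨G, hG⟩ := RepH.surj z
    exact ⟨U, W, G, hU.sm, hW.sm, hG.sm, (hU.ty hH p).2 hu, (hW.ty hH p').2 hv, hU.d.van.2 du,
      hW.d.van.2 dv, ((((hy.prj m).sub hU).sub hW.conj).sub hG.d).van.2 e⟩
  h3 m p p' U W G hp hU hW hG tu tv du dv e := by
    obtain ⟨u, hu⟩ := RepH.ex hS hU
    obtain ⟨v, hv⟩ := RepH.ex hS hW
    obtain ⟨z, hz⟩ := RepH.ex hS hG
    obtain ⟨z', h1⟩ := c1_h3 hH hp ((hu.ty hH p).1 tu) ((hv.ty hH p').1 tv) (hu.d.van.1 du)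
      (hv.d.van.1 dv) (((hu.sub hv.conj).sub hz.d).van.1 e)
    obtain ⟨g', hg'⟩ := RepH.surj z'
    exact ⟨g', hg'.sm, ((hu.prj m).sub hg'.d).van.2 (sub_eq_zero.2 h1)⟩

end rep

theorem amb_hdg {M d : ℕ} {ι : Type} [Finite ι] {X : Set (Amb M)} {D : ι → Set (Amb M)}
    (h : IsSNC d X D) (T : Finset ι) : Hdg (JP M) (St X D T) := by
  have e : St X D T = strat X D fun j => (T.equivFin.symm j).1 := by
    refine congrArg _ (subset_antisymm (subset_iInter fun j => ?_) (subset_iInter₂ fun i hi => ?_))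
    · exact biInter_subset_of_mem (T.equivFin.symm j).2
    · refine (iInter_subset _ (T.equivFin ⟨i, hi⟩)).trans ?_
      simp only [Equiv.symm_apply_apply, Subset.rfl]
  obtain ⟨hJ, hH, -⟩ := h.geo.good _ fun j => (T.equivFin.symm j).1
  rw [e]
  exact hdg_of (h.geo.isSubmanifold _).2 hH

end Pool.Agent.PWD
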