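import Pool.Agent.K.MP_65ad7c_ag.C65
import Pool.Agent.K.MP_65ad7c_ag.C89

/-! The real structure acts on `K(T, α, β)`. -/

open Set Filter Topology
open scoped ContDiff
open Pool.Agent.HT (Form Amb cj pull)

noncomputable section
namespace Pool.Agent.PWD

variable {M d m : ℕ} {ι : Type} [LinearOrder ι] {X : Set (Amb M)} {D : ι → Set (Amb M)}
  {T α β : Finset ι}

theorem rho_smulDFe (c : ℂ) (f : GF (Amb M)) : rhoG (c • f) = starRingEnd ℂ c • rhoG f := by
  rw [rhoG, pullG_smul, conjG_smul, rhoG]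

theorem rho_epsDFe (f : GF (Amb M)) : rhoG (epsG f) = epsG (rhoG f) := by
  funext n x
  ext v
  simp [rhoG, epsG, conjG, pullG, pull]

theorem rho_sumDFe {κ : Type} (s : Finset κ) (f : κ → GF (Amb M)) :
    rhoG (∑ i ∈ s, f i) = ∑ i ∈ s, rhoG (f i) :=
  map_sum (AddMonoidHom.mk' rhoG rhoG_add) f s

theorem rho_cobDFe (c : Finset ι → GF (Amb M)) (J : Finset ι) :
    rhoG (cobG c J) = cobG (fun J => rhoG (c J)) J := by
  unfold cobG
  rw [rho_epsDFe, rho_sumDFe]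
  refine congrArg epsG (Finset.sum_congr rfl fun i _ => ?_)
  rw [rho_smulDFe, map_pow, map_neg, map_one]

theorem rho_prjDFe (z : ℤ) (f : GF (Amb M)) : prjZ z (rhoG f) = rhoG (prjZ z f) := by
  rw [rhoG, prjZ_conjG, prjZ_pullG, rhoG]

theorem rho_conjDFe (f : GF (Amb M)) : rhoG (conjG f) = pullG (cj M) f := by
  rw [rhoG, ← conjG_pullG, conjG_conjG]

theorem pull_singleDFe (η : Form (Amb M) m) :
    pullG (cj M) (Pi.single m η) = Pi.single m (pull (cj M) η) := by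
  funext n
  by_cases e : n = m
  · subst e
    rw [pullG, Pi.single_eq_same, Pi.single_eq_same]
  · rw [pullG, Pi.single_eq_of_ne e, Pi.single_eq_of_ne e]
    rfl

theorem rho_smDFe {S S' : Set (Amb M)} (hS : MapsTo (cj M) S S') {f : GF (Amb M)} (h : SmS S' f) :
    SmS S (rhoG f) := (h.pull isOpen_univ (subset_univ _) (cj M).contDiff.contDiffOn hS).conj

theorem rho_dDFe {S S' : Set (Amb M)} (hS : MapsTo (cj M) S S') {f : GF (Amb M)} (h : SmS S' f) :
    VanG S (dG (rhoG f) - rhoG (dG f)) := by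
  have h1 := (VanG.d_pull isOpen_univ (subset_univ _) (cj M).contDiff.contDiffOn hS h).conj
  have e : conjG (dG (pullG (cj M) f) - pullG (cj M) (dG f)) = dG (rhoG f) - rhoG (dG f) := by
    rw [rhoG, rhoG, dG_conjG]
    funext n x
    ext v
    simp [conjG]
  rwa [e] at h1

section maps
variable (hX : MapsTo (cj M) X X) (hD : ∀ i, MapsTo (cj M) (D i) (D i))
include hX hD

theorem maps_SJDFe (J : Finset ι) :
    MapsTo (cj M) ((Ctx.amb d X D).SJ X T β J) ((Ctx.amb d X D).SJ X T β J) := by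
  by_cases hJ : J ⊆ β
  · rw [Ctx.SJ_of hJ]
    exact rho_st hX hD _
  · rw [Ctx.SJ_of_not hJ]
    exact mapsTo_empty _ _

theorem maps_SKDFe (J : Finset ι) :
    MapsTo (cj M) ((Ctx.amb d X D).SK X T α β J) ((Ctx.amb d X D).SK X T α β J) := by
  have := rho_maps hD (maps_SJDFe (d := d) (T := T) (β := β) hX hD J) univ α
  rwa [preimage_univ, inter_univ] at this

theorem okDFe : Ok ((Ctx.amb d X D).SK X T α β) ((Ctx.amb d X D).SK X T α β)
    fun c J => rhoG (c J) where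
  sm _ h J := rho_smDFe (maps_SKDFe hX hD J) (h J)
  add c c' _ _ J := by
    show VanG _ (rhoG (c J + c' J) - (rhoG (c J) + rhoG (c' J)))
    rw [rhoG_add, sub_self]
    exact VanG.zero
  van _ _ h J := rho_van (maps_SKDFe hX hD J) (h J)

theorem degDFe (n : ℤ) : ∀ a ∈ (Ctx.amb d X D).kDg X T α β n,
    Fam.map (okDFe hX hD) a ∈ (Ctx.amb d X D).kDg X T α β n := by
  intro a ha
  obtain ⟨c, hc, rfl, hd⟩ := Fam.deg_surj ha
  rw [Fam.map_mk]
  exact Fam.mem_deg_of fun J => by rw [rho_prjDFe, hd J]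

theorem endoDFe (h : (Ctx.amb d X D).Tri X T α β) :
    Ctx.Endo (C := Ctx.amb d X D) (X := X) (T := T) (α := α) (β := β) (Fam.map (okDFe hX hD)) where
  D a := by
    obtain ⟨c, hc, rfl⟩ := a.surj
    rw [Fam.map_mk _ hc, Ctx.kD_mk, Ctx.kD_mk]
    refine (Fam.map_mk _ _).trans (Fam.mk_eq.2 fun J => ?_)
    show VanG _ (rhoG (dG (c J) + cobG c J) - (dG (rhoG (c J)) + cobG (fun J => rhoG (c J)) J))
    rw [rhoG_add, rho_cobDFe, add_sub_add_right_eq_sub, ← neg_sub]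
    exact (rho_dDFe (maps_SKDFe hX hD J) (hc J)).neg
  κ a := by
    obtain ⟨c, hc, rfl⟩ := a.surj
    rw [Fam.map_mk _ hc, Ctx.kκ_mk, Ctx.kκ_mk]
    rfl
  deg := degDFe hX hD
  W q n a ha := by
    obtain ⟨c, hc, rfl⟩ := a.surj
    refine (Submodule.mem_iInf _).2 fun x => ?_
    have h1 := h.g.mem_kW.1 ((Submodule.mem_iInf _).1 ha ⟨cj M x, hX x.2⟩)
    have h2 := degDFe hX hD n _ h1.1
    rw [Fam.map_mk] at h2 ⊢
    refine h.g.mem_kW.2 ⟨h2, fun J => ?_⟩
    have h3 := h1.2 J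
    by_cases hJ : J ⊆ β
    · rw [Ctx.SJ_of hJ] at h3 ⊢
      exact rho_wn hX hD h3
    · rw [Ctx.SJ_of_not hJ]
      exact Ctx.WN.of_nul (Ctx.NulN.of_notMem isClosed_empty (notMem_empty _) _)
  F p n a ha := by
    obtain ⟨c, hc, rfl⟩ := a.surj
    have h1 := h.mem_kF.1 ha
    have h2 := degDFe hX hD n _ h1.1
    rw [Fam.map_mk] at h2 ⊢
    refine h.mem_kF.2 ⟨h2, fun J => Ctx.FN.glob fun x hx => ?_⟩
    have h3 : (Ctx.amb d X D).FN ((Ctx.amb d X D).SJ X T β J) α p.toNat (cj M x) (c J) :=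
      Ctx.FN.of_ty (h1.2 J)
    by_cases hJ : J ⊆ β
    · rw [Ctx.SJ_of hJ] at h3 ⊢
      exact rho_fn hX hD h3
    · rw [Ctx.SJ_of_not hJ] at hx
      exact hx.elim

end maps

theorem exists_rho (h : (Ctx.amb d X D).Tri X T α β) (hX : MapsTo (cj M) X X)
    (hD : ∀ i, MapsTo (cj M) (D i) (D i)) :
    ∃ ρ : (Ctx.amb d X D).K X T α β →ₗ[ℤ] (Ctx.amb d X D).K X T α β, Ctx.Endo ρ ∧
      ∀ (η : Form (Amb M) m) (hη : Sm (St X D T \ Off D α) η),
        ∃ hη' : Sm (St X D T \ Off D α) (pull (cj M) η),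
          ρ ((Ctx.amb d X D).kκ X T α β ((Ctx.amb d X D).kf X T α β η hη)) =
            (Ctx.amb d X D).kf X T α β (pull (cj M) η) hη' := by
  refine ⟨Fam.map (okDFe hX hD), endoDFe hX hD h, fun η hη => ?_⟩
  have hm : MapsTo (cj M) (St X D T \ Off D α) (St X D T \ Off D α) := by
    have := rho_maps hD (rho_st hX hD T) univ α
    rwa [preimage_univ, inter_univ] at this
  refine ⟨hη.pull (fun _ _ => Eventually.of_forall fun _ => (cj M).contDiff.contDiffAt) hm, ?_⟩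
  unfold Ctx.kf Ctx.k0
  rw [Ctx.kκ_mk]
  refine (Fam.map_mk _ _).trans (Fam.mk_eq.2 fun J => ?_)
  have e : rhoG (conjG ((Pi.single ∅ (Pi.single m η) : Finset ι → GF (Amb M)) J)) =
      (Pi.single ∅ (Pi.single m (pull (cj M) η)) : Finset ι → GF (Amb M)) J := by
    rw [rho_conjDFe]
    by_cases hJ : J = ∅
    · subst hJ
      rw [Pi.single_eq_same, Pi.single_eq_same, pull_singleDFe]
    · rw [Pi.single_eq_of_ne hJ, Pi.single_eq_of_ne hJ]
      rfl
  show VanG _ (rhoG (conjG ((Pi.single ∅ (Pi.single m η) : Finset ι → GF (Amb M)) J)) -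
    (Pi.single ∅ (Pi.single m (pull (cj M) η)) : Finset ι → GF (Amb M)) J)
  rw [e, sub_self]
  exact VanG.zero

end Pool.Agent.PWD
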