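import Pool.Agent.K.MP_65ad7c_ag.C64

/-! Calculus of the natural maps and of the classes of single forms. -/

open Set Filter Topology
open scoped ContDiff
open Pool.Agent.HT (Form)

noncomputable section
namespace Pool.Agent.PWD

variable {V : Type} [NormedAddCommGroup V] [NormedSpace ℝ V] {ι : Type} [LinearOrder ι]

section single
variable {S : Set V} {m : ℕ} {η η' : Form V m}

theorem vanG_single : VanG S (Pi.single m η) ↔ Van S η := by
  refine ⟨fun h => ?_, fun h n => ?_⟩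
  · have := h m
    rwa [Pi.single_eq_same] at this
  · by_cases e : n = m
    · subst e; rwa [Pi.single_eq_same]
    · rw [Pi.single_eq_of_ne e]; exact Van.zero
theorem dG_single (η : Form V m) : dG (Pi.single m η) = Pi.single (m + 1) (extDeriv η) := by
  funext n
  cases n with
  | zero => rw [Pi.single_eq_of_ne (Nat.succ_ne_zero m).symm]; rfl
  | succ n =>
    rw [dG_succDL1a]
    by_cases e : n = m
    · subst e; rw [Pi.single_eq_same, Pi.single_eq_same]
    · rw [Pi.single_eq_of_ne e, Pi.single_eq_of_ne (fun h => e (Nat.succ_injective h))]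
      exact extDeriv_zeroDL1a
theorem prj_single (η : Form V m) : prj m (Pi.single m η) = Pi.single m η := by
  rw [prj, Pi.single_eq_same]
theorem single_subG (η η' : Form V m) :
    (Pi.single m (η - η') : GF V) = Pi.single m η - Pi.single m η' :=
  Pi.single_sub (f := fun n => Form V n) m η η'
theorem ExF.anti {S' B B' : Set V} (h : ExF S B η) (hS : S' ⊆ S) (hB : B' ⊆ B) : ExF S' B' η := by
  cases m with
  | zero => exact Van.anti h hS
  | succ n =>
    obtain ⟨ζ, h1, h2, h3⟩ := h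
    exact ⟨ζ, h1.anti hS, h2.anti hB, h3.anti hS⟩

end single

namespace Ctx
variable {C : Ctx V ι} {X : Set V} {T T' α α' β β' : Finset ι} {m : ℕ} {η η' : Form V m}

theorem van_single_DFa {f : GF V} (h : VanG (St X C.D T \ Off C.D α) f) :
    VanK (C.SK X T α β) (Pi.single ∅ f) := fun J => by
  by_cases e : J = ∅
  · subst e; rwa [Pi.single_eq_same, SK, SJ_empty]
  · rw [Pi.single_eq_of_ne e]; exact VanG.zero

theorem kf_deg (h : Sm (St X C.D T \ Off C.D α) η) : C.kf X T α β η h ∈ C.kDg X T α β m := by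
  refine Fam.mem_deg_of fun J => ?_
  by_cases e : J = ∅
  · subst e
    rw [Pi.single_eq_same, Finset.card_empty, Nat.cast_zero, sub_zero, prjZ_nat, prj_single]
  · rw [Pi.single_eq_of_ne e, prjZ_zero]

theorem kf_sub (h : Sm (St X C.D T \ Off C.D α) η) (h' : Sm (St X C.D T \ Off C.D α) η') :
    C.kf X T α β η h - C.kf X T α β η' h' = C.kf X T α β (η - η') (h.sub h') := by
  refine (Fam.mk_sub _ _).trans (Fam.mk_eq.2 ?_)
  rw [single_subG, Pi.single_sub (f := fun _ : Finset ι => GF V), sub_self]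
  exact fun _ => VanG.zero

theorem kf_zero (h : Sm (St X C.D T \ Off C.D α) η) (hv : Van (St X C.D T \ Off C.D α) η) :
    C.kf X T α β η h = 0 :=
  Fam.mk_eq_zero.2 (van_single_DFa (vanG_single.2 hv))

theorem kD_kf (h : Sm (St X C.D T \ Off C.D α) η)
    (hv : Van ((St X C.D T ∩ Off C.D β) \ Off C.D α) η) :
    C.kD X T α β (C.kf X T α β η h) = C.kf X T α β (extDeriv η) h.d := by
  refine kD_mk.trans (Fam.mk_eq.2 fun J => ?_)
  have e1 : dG ((Pi.single ∅ (Pi.single m η) : Finset ι → GF V) J) =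
      (Pi.single ∅ (Pi.single (m + 1) (extDeriv η)) : Finset ι → GF V) J := by
    by_cases e : J = ∅
    · subst e; rw [Pi.single_eq_same, Pi.single_eq_same, dG_single]
    · rw [Pi.single_eq_of_ne e, Pi.single_eq_of_ne e, dG_zero]
  show VanG _ (dG ((Pi.single ∅ (Pi.single m η) : Finset ι → GF V) J) + cobG _ J -
    (Pi.single ∅ (Pi.single (m + 1) (extDeriv η)) : Finset ι → GF V) J)
  rw [e1, add_sub_cancel_left]
  refine (VanG.sum _ fun i hi => VanG.smul _ ?_).eps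
  by_cases e : J.erase i = ∅
  · rw [e, Pi.single_eq_same]
    by_cases hJ : J ⊆ β
    · refine (vanG_single.2 hv).anti ?_
      rintro y ⟨hy, hy'⟩
      refine ⟨⟨SJ_sub J hy, ?_⟩, hy'⟩
      rw [SJ_of hJ] at hy
      exact mem_biUnion (Finset.mem_coe.2 (hJ hi))
        (mem_iInter₂.1 hy.2 i (Finset.mem_union_right _ hi))
    · rw [SK, SJ_of_not hJ, empty_sdiff]; exact VanG.empty
  · rw [Pi.single_eq_of_ne e]; exact VanG.zero

theorem kf_Z (h : Sm (St X C.D T \ Off C.D α) η)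
    (hd : Van (St X C.D T \ Off C.D α) (extDeriv η))
    (hv : Van ((St X C.D T ∩ Off C.D β) \ Off C.D α) η) :
    C.kf X T α β η h ∈ C.kZ X T α β m :=
  ⟨kf_deg h, LinearMap.mem_ker.2 ((kD_kf h hv).trans (kf_zero _ hd))⟩

theorem kf_B (h : Sm (St X C.D T \ Off C.D α) η)
    (he : ExF (St X C.D T \ Off C.D α) ((St X C.D T ∩ Off C.D β) \ Off C.D α) η) :
    C.kf X T α β η h ∈ C.kB X T α β m := by
  cases m with
  | zero => rw [kf_zero h he]; exact zero_mem _
  | succ n =>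
    obtain ⟨ζ, h1, h2, h3⟩ := he
    have e : ((n + 1 : ℕ) : ℤ) - 1 = n := by omega
    refine ⟨C.kf X T α β ζ h1, e ▸ kf_deg h1, ?_⟩
    rw [kD_kf h1 h2, ← sub_eq_zero, kf_sub]
    exact kf_zero _ h3

theorem kB_kZ (n : ℤ) : C.kB X T α β n ≤ C.kZ X T α β n := by
  rintro _ ⟨a, ha, rfl⟩
  refine ⟨?_, LinearMap.mem_ker.2 (C.kD_kD X T α β a)⟩
  have := add_mem (C.kd_mem X T α β _ a ha) (C.kδ_mem X T α β _ a ha)
  rwa [sub_add_cancel] at this

theorem kκ_kB (n : ℤ) : ∀ a ∈ C.kB X T α β n, C.kκ X T α β a ∈ C.kB X T α β n := by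
  rintro _ ⟨a, ha, rfl⟩
  refine ⟨_, C.kκ_mem X T α β _ a ha, ?_⟩
  rw [LinearMap.add_apply, LinearMap.add_apply, map_add, kκ_kd, kκ_kδ]

theorem Endo.kB {ρ : C.K X T α β →ₗ[ℤ] C.K X T α β} (h : Endo ρ) (n : ℤ) :
    ∀ a ∈ C.kB X T α β n, ρ a ∈ C.kB X T α β n := by
  rintro _ ⟨a, ha, rfl⟩
  exact ⟨_, h.deg _ a ha, (h.D a).symm⟩

section kmap
variable (hT : T ⊆ T') (hα : α ⊆ α') (hβ : β' ⊆ β)

theorem kmap_mk_DFa (c : Finset ι → GF V) (hc : SmK (C.SK X T α β) c) :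
    C.kmap X hT hα hβ (Fam.mk c hc) =
      Fam.mk c fun J => (hc J).anti (C.SK_anti X hT hα hβ J) := rfl

theorem kmap_kf (h : Sm (St X C.D T \ Off C.D α) η) (h' : Sm (St X C.D T' \ Off C.D α') η) :
    C.kmap X hT hα hβ (C.kf X T α β η h) = C.kf X T' α' β' η h' := rfl

theorem kmap_D (a : C.K X T α β) :
    C.kmap X hT hα hβ (C.kD X T α β a) = C.kD X T' α' β' (C.kmap X hT hα hβ a) := by
  obtain ⟨c, hc, rfl⟩ := a.surj
  rw [kD_mk, kmap_mk_DFa, kmap_mk_DFa, kD_mk]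

theorem kmap_κ (a : C.K X T α β) :
    C.kmap X hT hα hβ (C.kκ X T α β a) = C.kκ X T' α' β' (C.kmap X hT hα hβ a) := by
  obtain ⟨c, hc, rfl⟩ := a.surj
  rw [kκ_mk, kmap_mk_DFa, kmap_mk_DFa, kκ_mk]

theorem kmap_deg (n : ℤ) : ∀ a ∈ C.kDg X T α β n, C.kmap X hT hα hβ a ∈ C.kDg X T' α' β' n := by
  intro a ha
  obtain ⟨c, hc, rfl⟩ := a.surj
  rw [kmap_mk_DFa]
  exact mem_kDg.2 fun J => (mem_kDg.1 ha J).anti (C.SK_anti X hT hα hβ J)

theorem kmap_Z (n : ℤ) : ∀ a ∈ C.kZ X T α β n, C.kmap X hT hα hβ a ∈ C.kZ X T' α' β' n :=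
  fun a ha => ⟨kmap_deg hT hα hβ n a ha.1, LinearMap.mem_ker.2 (by
    rw [← kmap_D, LinearMap.mem_ker.1 ha.2, map_zero])⟩

theorem kmap_B (n : ℤ) : ∀ a ∈ C.kB X T α β n, C.kmap X hT hα hβ a ∈ C.kB X T' α' β' n := by
  rintro _ ⟨a, ha, rfl⟩
  exact ⟨_, kmap_deg hT hα hβ _ a ha, (kmap_D hT hα hβ a).symm⟩

end kmap

end Ctx

end Pool.Agent.PWD
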