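import Pool.Agent.K.MP_65ad7c_ag.C47
import Pool.Agent.K.MP_65ad7c_ag.C65

/-! The linear sections and their neighbourhoods, seen on the model. -/

open Set Filter Topology TopologicalSpace
open scoped ContDiff
open Pool.Agent.HT (Form Amb cj pull)

noncomputable section
namespace Pool.Agent.PWD

variable {R : Type} {Y : Set (R → ℂ)} {a d m : ℕ}

namespace Data
section defs
variable (Q : Data Y a)

/-- the divisors that cut out the section -/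
abbrev T : Finset (Fin Q.r) := Finset.univ.map (Fin.castSuccEmb.trans Q.h)
/-- the last divisor -/
abbrev h0 : Fin Q.r := Q.h (Fin.last a)
/-- the local data -/
abbrev C (d : ℕ) : Ctx (Amb Q.M) (Fin Q.r) := Ctx.amb d Q.X Q.D
/-- the linear section -/
def Z : Set Y := {y | ∀ i : Fin a, Q.c i.castSucc ⬝ᵥ vecf Q.f y = 0}
/-- its hyperplane section -/
def H : Set Y := {y | ∀ i, Q.c i ⬝ᵥ vecf Q.f y = 0}
/-- projective neighbourhoods of `Z` -/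
def PZ (ε : ℝ) : Opens Y := ⟨PN Q.f (fun i : Fin a => Q.c i.castSucc) ε, isOpen_PN _ _ _⟩
/-- projective neighbourhoods of `H` -/
def PH (ε : ℝ) : Opens Y := ⟨PN Q.f Q.c ε, isOpen_PN _ _ _⟩

theorem H_Z : Q.H ⊆ Q.Z := fun _ h _ => h _
theorem PH_PZ (ε : ℝ) : Q.PH ε ≤ Q.PZ ε := fun _ h _ => h _
theorem Z_PZ {ε : ℝ} (h : 0 < ε) : Q.Z ⊆ Q.PZ ε := sub_PN _ _ h
theorem H_PH {ε : ℝ} (h : 0 < ε) : Q.H ⊆ Q.PH ε := sub_PN _ _ h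
theorem PZ_mono {ε ε' : ℝ} (h : ε ≤ ε') : Q.PZ ε ≤ Q.PZ ε' := PN_mono _ _ h
theorem PH_mono {ε ε' : ℝ} (h : ε ≤ ε') : Q.PH ε ≤ Q.PH ε' := PN_mono _ _ h

theorem St_T_DFf : St Q.X Q.D Q.T = Q.X ∩ ⋂ i : Fin a, Q.D (Q.h i.castSucc) := by
  ext x
  simp [St]

theorem St_H_DFf : St Q.X Q.D Q.T ∩ Q.D Q.h0 = Q.X ∩ ⋂ i, Q.D (Q.h i) := by
  rw [St_T_DFf]
  ext x
  simp only [mem_inter_iff, mem_iInter, Fin.forall_fin_succ', and_assoc]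

theorem off_DFf (A : Set (Amb Q.M)) :
    (A \ Off Q.D Q.al) \ Off Q.D Q.be = A \ Off Q.D (Q.al ∪ Q.be) := by
  unfold Off
  rw [Finset.set_biUnion_union, Set.sdiff_sdiff]

end defs

variable [CommRing R] [Algebra ℂ R] {Q : Data Y a} {S : (R → ℂ) → (R → ℂ) → Prop}
  {U : ℕ → Opens Y}

theorem H_alg (hY : IsVar Y) (Q : Data Y a) :
    ∃ T : Set R, ∀ y, y ∈ Q.H ↔ ∀ g ∈ T, y.1 g = 0 := by
  obtain ⟨P, hP⟩ := hY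
  refine ⟨range fun i => algebraMap ℂ R (Q.c i 0) + ∑ j, Q.c i j.succ • Q.f j, fun y => ?_⟩
  obtain ⟨φ, hφ⟩ := ((Set.ext_iff.1 hP y.1).1 y.2).1
  rw [forall_mem_range]
  refine forall_congr' fun i => ?_
  have e : Q.c i ⬝ᵥ vecf Q.f y =
      y.1 (algebraMap ℂ R (Q.c i 0) + ∑ j, Q.c i j.succ • Q.f j) := by
    unfold vecf
    rw [← hφ]
    simp [dotProduct, Fin.sum_univ_succ]
  rw [e]

namespace IsModel
variable (hQ : Q.IsModel S d m U)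
include hQ

theorem disjT : Disjoint Q.T (Q.al ∪ Q.be) :=
  Finset.disjoint_left.2 fun i hi => by
    obtain ⟨j, -, rfl⟩ := Finset.mem_map.1 hi
    exact hQ.disj.2 _
theorem disjT' : Disjoint Q.T Q.al := hQ.disjT.mono_right Finset.subset_union_left
theorem disjB : Disjoint Q.be Q.al := hQ.disj.1.symm
theorem h0_not : Q.h0 ∉ Q.al ∪ Q.be := hQ.disj.2 _
theorem disjB' : Disjoint (insert Q.h0 Q.be) Q.al :=
  Finset.disjoint_insert_left.2 ⟨fun h => hQ.h0_not (Finset.mem_union_left _ h), hQ.disjB⟩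
theorem disjH : Disjoint {Q.h0} (Q.al ∪ Q.be) := Finset.disjoint_singleton_left.2 hQ.h0_not

theorem pre_Z : Q.pre Q.Z = St Q.X Q.D Q.T \ Off Q.D Q.al := by
  rw [St_T_DFf]
  exact hQ.pre_hyp Fin.castSucc
theorem pre_H : Q.pre Q.H = (St Q.X Q.D Q.T ∩ Q.D Q.h0) \ Off Q.D Q.al := by
  rw [St_H_DFf]
  exact hQ.pre_hyp id
theorem pre_U (W : Set Y) : Q.pre (W ∩ U 1) = Q.pre W \ Off Q.D Q.be :=
  Set.ext fun x => ⟨fun hx => ⟨⟨hx.1, hx.2.1⟩, fun h => (hQ.exc x ⟨hx.1, trivial⟩).2 h hx.2.2⟩,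
    fun hx => ⟨hx.1.1, hx.1.2, by_contra fun h => hx.2 ((hQ.exc x ⟨hx.1.1, trivial⟩).1 h)⟩⟩
theorem pre_U1 : Q.pre (U 1) = Q.X \ Off Q.D (Q.al ∪ Q.be) := by
  rw [← off_DFf, ← univ_inter (U 1 : Set Y), hQ.pre_U, Data.pre_univ]
  rfl
theorem pre_ZU : Q.pre (Q.Z ∩ U 1) = St Q.X Q.D Q.T \ Off Q.D (Q.al ∪ Q.be) := by
  rw [hQ.pre_U, hQ.pre_Z, off_DFf]
theorem pre_HU : Q.pre (Q.H ∩ U 1) = (St Q.X Q.D Q.T ∩ Q.D Q.h0) \ Off Q.D (Q.al ∪ Q.be) := by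
  rw [hQ.pre_U, hQ.pre_H, off_DFf]

theorem PZ_in {G : Set (Amb Q.M)} (hG : IsOpen G) (h : St Q.X Q.D Q.T ⊆ G) :
    ∃ ε > 0, Q.pre (Q.PZ ε) ⊆ G :=
  hQ.exists_PN Fin.castSucc hG (St_T_DFf Q ▸ h)
theorem PH_in {G : Set (Amb Q.M)} (hG : IsOpen G) (h : St Q.X Q.D Q.T ∩ Q.D Q.h0 ⊆ G) :
    ∃ ε > 0, Q.pre (Q.PH ε) ⊆ G :=
  hQ.exists_PN id hG ((St_H_DFf Q).symm.subset.trans h)
theorem PZ_out {ε : ℝ} (hε : 0 < ε) : ∃ G, IsOpen G ∧ St Q.X Q.D Q.T ⊆ G ∧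
    (Q.X ∩ G) \ Off Q.D Q.al = Q.pre (Q.PZ ε) ∧
    (Q.X ∩ G) \ Off Q.D (Q.al ∪ Q.be) = Q.pre (Q.PZ ε ⊓ U 1 : Opens Y) := by
  obtain ⟨G, hG, h1, h2⟩ := hQ.PN_open Fin.castSucc hε
  have h3 : (Q.X ∩ G) \ Off Q.D Q.al = Q.pre (Q.PZ ε) := h2
  refine ⟨G, hG, (St_T_DFf Q).subset.trans h1, h3, ?_⟩
  rw [← off_DFf, h3]
  exact (hQ.pre_U _).symm
theorem PH_out {ε : ℝ} (hε : 0 < ε) : ∃ G, IsOpen G ∧ St Q.X Q.D Q.T ∩ Q.D Q.h0 ⊆ G ∧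
    (Q.X ∩ G) \ Off Q.D Q.al = Q.pre (Q.PH ε) ∧
    (Q.X ∩ G) \ Off Q.D (Q.al ∪ Q.be) = Q.pre (Q.PH ε ⊓ U 1 : Opens Y) := by
  obtain ⟨G, hG, h1, h2⟩ := hQ.PN_open id hε
  have h3 : (Q.X ∩ G) \ Off Q.D Q.al = Q.pre (Q.PH ε) := h2
  refine ⟨G, hG, (St_H_DFf Q).subset.trans h1, h3, ?_⟩
  rw [← off_DFf, h3]
  exact (hQ.pre_U _).symm

section real
variable {s : Y → Y} (hS : ∀ y y' : Y, S y.1 y'.1 → y' = s y)
include hS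

theorem s_U (y : Y) : s y ∈ U 1 ↔ y ∈ U 1 := by
  obtain ⟨x, hx, rfl⟩ := hQ.surj (mem_univ y)
  have h1 : cj Q.M x ∈ Q.pre univ := hQ.cj_pre hS (W := univ) hx
  rw [← hS _ _ (hQ.real x hx), ← not_iff_not, hQ.exc _ h1, hQ.exc _ hx]
  exact hQ.cj_mem _
theorem s_Z : MapsTo s Q.Z Q.Z := by
  intro y hy
  obtain ⟨x, hx, rfl⟩ := hQ.surj (mem_univ y)
  have h1 : cj Q.M x ∈ Q.pre univ := hQ.cj_pre hS (W := univ) hx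
  have h2 : x ∈ Q.pre Q.Z := ⟨hx.1, hy⟩
  rw [hQ.pre_Z, St_T_DFf] at h2
  have h3 : cj Q.M x ∈ Q.pre Q.Z := by
    rw [hQ.pre_Z, St_T_DFf]
    exact ⟨⟨h1.1.1, mem_iInter.2 fun i => hQ.cjD _ (mem_iInter.1 h2.1.2 i)⟩, h1.1.2⟩
  rw [← hS _ _ (hQ.real x hx)]
  exact h3.2

end real

end IsModel

end Data

end Pool.Agent.PWD
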