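import Pool.Agent.K.MP_65ad7c_ag.C43
import Pool.Agent.K.MP_65ad7c_ag.C67
import Pool.Agent.K.MP_65ad7c_ag.C68
import Pool.Agent.K.MP_65ad7c_ag.C69
import Pool.Agent.K.MP_65ad7c_ag.C105

open Set Filter Topology TopologicalSpace
open Pool.Agent.PWD (IsVar IsStrat IsIC Cx Sec dd)
open Pool.Agent.PWF (Pts)

noncomputable section
namespace Pool.Agent.HIR

variable {R : Type} [CommRing R] [Algebra ℂ R] {N d : ℕ} {f : Fin N → R} {P : Ideal R}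

/-- the weight filtration is exhaustive -/
theorem wt_all (hP : P.IsPrime) (hf : Algebra.adjoin ℂ (range f) = ⊤)
    {Sr : (R → ℂ) → (R → ℂ) → Prop}
    (hS : ∀ y y' : Pts P, PWV.emb f y' = star (PWV.emb f y) → Sr y.1 y'.1)
    (hs : ∀ y : Pts P, ∃ y' : Pts P, PWV.emb f y' = star (PWV.emb f y)) {U : ℕ → Opens (Pts P)}
    (hU : IsStrat d U) (h1 : (U 1).1.Nonempty) {I : Cx (Pts P)} {one : Sec I 0 (U 1)}
    (hI : IsIC U I one) {m : ℕ} {α : Sec I m ⊤} (hα : dd m (m + 1) α = 0) :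
    ∃ (U' : ℕ → Opens (Pts P)) (one' : Sec I 0 (U' 1)), IsStrat d U' ∧ IsIC U' I one' ∧
      α ∈ PWD.Wt Sr d one' m (2 * m) := by
  have hY : IsVar (Pts P) := ⟨P, rfl⟩
  have hr := PWV.range_emb hf P
  generalize hq : P.comap (MvPolynomial.aeval f : MvPolynomial (Fin N) ℂ →ₐ[ℂ] R) = p at hr
  have hp : p.IsPrime := hq ▸ Ideal.comap_isPrime _ _
  have hs' : ∀ y ∈ PWV.ZI p, star y ∈ PWV.ZI p := by
    rw [← hr]
    rintro _ ⟨y, rfl⟩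
    exact hs y
  have hd := PWV.dim_range (f := f) hY hU
  have hd' := PWV.not_dim_range hY hf hU h1
  rw [hr] at hd hd'
  obtain ⟨h₀, ⟨y₀, hy₀⟩, h0⟩ := PWV.exists_eqn hY hf hU h1
  have hy : PWV.emb f y₀ ∈ PWV.ZI p := hr ▸ mem_range_self y₀
  obtain ⟨S, ph, H, hH, hN, hdv, hr0, hmd⟩ := exists_md hp hs' hd hd' fun hm => hy₀ (hy h₀ hm)
  obtain ⟨S', ph', hmd', hD, hA⟩ := exists_rb hH hmd hr0
  obtain ⟨h, hh, hdim⟩ := hN.drop hp hd
  rw [← hr] at hdim hmd'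
  obtain ⟨U', hU', hle, hU1, hF⟩ := PWV.exists_refine hY hf hU
    (fun y hy => (hh _).trans (hdv _ (h0 y hy))) hdim
  have hI' := hI.refine hU hU' hle hF
  haveI : Nonempty (Pts P) := ⟨y₀⟩
  obtain ⟨Q, hQ, hZ⟩ := exists_model hY hf hS hmd' hD hA hU' (fun y => by rw [hU1, hh]) m
  obtain ⟨u, hu⟩ := hQ.exists_nat hY hI'
  obtain ⟨η, hη⟩ := hQ.exists_rp hY hu hU' hI' hZ hα
  have hW := hQ.inW_top hη
  obtain ⟨O, j, t, h2, h3, h4, h5⟩ := hη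
  exact ⟨U', _, hU', hI', hα, Q, u, O, η, j, t, hQ, hu, h2, h3, h4, h5, hW⟩

end Pool.Agent.HIR
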