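import Pool.Agent.K.MP_65ad7c_ag.C34
import Pool.Agent.P.MP_65ad7c_ag.DQ

-- part Pool.Agent.P.MP_65ad7c_ag.XJ2
section

open Set

noncomputable section
namespace Pool.Agent.PW.L

theorem coeff_XJ2 {A : Type} [CommRing A] [Algebra ℂ A] (V : Submodule ℂ A) (s : Set A)
    (hs : s ⊆ V) {p : Polynomial A}
    (hp : p ∈ Algebra.adjoin ℂ ((fun v : A => Polynomial.monomial 1 v) '' s)) (k : ℕ) :
    p.coeff k ∈ V ^ k := by
  induction hp using Algebra.adjoin_induction generalizing k with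
  | mem x hx =>
    obtain ⟨v, hv, rfl⟩ := hx
    rw [Polynomial.coeff_monomial]
    split_ifs with h
    · rw [← h, pow_one]
      exact hs hv
    · exact zero_mem _
  | algebraMap c =>
    rw [Polynomial.algebraMap_apply, Polynomial.coeff_C]
    split_ifs with h
    · rw [h, pow_zero]
      exact Submodule.algebraMap_mem c
    · exact zero_mem _
  | add x y _ _ hx hy =>
    rw [Polynomial.coeff_add]
    exact add_mem (hx k) (hy k)
  | mul x y _ _ hx hy =>
    rw [Polynomial.coeff_mul]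
    refine Submodule.sum_mem _ fun c hc => ?_
    rw [← Finset.HasAntidiagonal.mem_antidiagonal.1 hc, pow_add]
    exact Submodule.mul_mem_mul (hx _) (hy _)

theorem mono_XJ2 {A : Type} [CommRing A] [Algebra ℂ A] (s : Set A) (k : ℕ) :
    ∀ b ∈ Submodule.span ℂ s ^ k, Polynomial.monomial k b ∈
      Algebra.adjoin ℂ ((fun v : A => Polynomial.monomial 1 v) '' s) := by
  have h1 : ∀ v ∈ Submodule.span ℂ s, Polynomial.monomial 1 v ∈
      Algebra.adjoin ℂ ((fun v : A => Polynomial.monomial 1 v) '' s) := by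
    intro v hv
    induction hv using Submodule.span_induction with
    | mem x hx => exact Algebra.subset_adjoin ⟨x, hx, rfl⟩
    | zero => rw [map_zero]; exact zero_mem _
    | add x y _ _ hx hy => rw [map_add]; exact add_mem hx hy
    | smul c x _ hx => rw [← Polynomial.smul_monomial]; exact Subalgebra.smul_mem _ hx c
  induction k with
  | zero =>
    intro b hb
    rw [pow_zero] at hb
    obtain ⟨c, rfl⟩ := Submodule.mem_one.1 hb
    rw [Polynomial.monomial_zero_left, ← Polynomial.algebraMap_apply]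
    exact Subalgebra.algebraMap_mem _ c
  | succ k ih =>
    intro b hb
    rw [pow_succ] at hb
    refine Submodule.mul_induction_on hb (fun m hm n hn => ?_) fun x y hx hy => ?_
    · rw [← Polynomial.monomial_mul_monomial]
      exact mul_mem (ih m hm) (h1 n hn)
    · rw [map_add]
      exact add_mem hx hy

/-- Hilbert's argument -/
theorem hilb_abs {A : Type} [CommRing A] [Algebra ℂ A] (V : Submodule ℂ A) (hV : V.FG)
    (B : Subalgebra ℂ A) (hB : ∀ b ∈ B, ∃ k, b ∈ V ^ k)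
    (hT : ∀ s : Finset A, (∀ a ∈ s, ∃ k, a ∈ V ^ k) → ∃ T : A →ₗ[ℂ] A, T 1 = 1 ∧
      (∀ a, ∀ b ∈ B, T (a * b) = T a * b) ∧ (∀ k, ∀ a ∈ V ^ k, T a ∈ V ^ k) ∧ ∀ a ∈ s, T a ∈ B) :
    B.FG := by
  classical
  obtain ⟨s, rfl⟩ := hV
  let R : Subalgebra ℂ (Polynomial A) :=
    Algebra.adjoin ℂ ((fun v : A => Polynomial.monomial 1 v) '' (s : Set A))
  have hR : R.FG := ⟨s.image fun v : A => Polynomial.monomial 1 v, by rw [Finset.coe_image]⟩
  have : IsNoetherianRing R := isNoetherianRing_of_fg hR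
  let Z : Set R := {p | ∃ (k : ℕ) (b : A), 0 < k ∧ b ∈ B ∧ p.1 = Polynomial.monomial k b}
  obtain ⟨t, ht, hsp⟩ := (Submodule.fg_span_iff_fg_span_finset_subset (R := R) Z).1
    (IsNoetherian.noetherian _)
  have hch : ∀ p : R, ∃ (k : ℕ) (b : A), p ∈ t →
      0 < k ∧ b ∈ B ∧ p.1 = Polynomial.monomial k b := by
    intro p
    by_cases hp : p ∈ t
    · obtain ⟨k, b, h⟩ := ht hp
      exact ⟨k, b, fun _ => h⟩
    · exact ⟨0, 0, fun h => absurd h hp⟩
  choose d β hd using hch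
  have key : ∀ k, ∀ b ∈ B, b ∈ Submodule.span ℂ (s : Set A) ^ k →
      b ∈ Algebra.adjoin ℂ (t.image β : Set A) := by
    intro k
    induction k using Nat.strong_induction_on with
    | _ k ih =>
      intro b hb hk
      rcases Nat.eq_zero_or_pos k with rfl | k0
      · rw [pow_zero] at hk
        obtain ⟨c, rfl⟩ := Submodule.mem_one.1 hk
        exact Subalgebra.algebraMap_mem _ c
      have hm : (⟨Polynomial.monomial k b, mono_XJ2 _ k b hk⟩ : R) ∈ Submodule.span R (t : Set R) :=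
        hsp ▸ Submodule.subset_span ⟨k, b, k0, hb, rfl⟩
      obtain ⟨f, -, hf⟩ := Submodule.mem_span_finset.1 hm
      let a : R → A := fun p => if d p ≤ k then (f p).1.coeff (k - d p) else 0
      have ha : ∀ p, a p ∈ Submodule.span ℂ (s : Set A) ^ (k - d p) := by
        intro p
        simp only [a]
        split_ifs
        · exact coeff_XJ2 _ _ Submodule.subset_span (f p).2 _
        · exact zero_mem _
      have e : b = ∑ p ∈ t, a p * β p := by
        have h1 := congrArg (fun q : R => q.1.coeff k) hf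
        simp only [AddSubmonoidClass.coe_finsetSum, Polynomial.finsetSum_coeff,
          Polynomial.coeff_monomial_same] at h1
        rw [← h1]
        refine Finset.sum_congr rfl fun p hp => ?_
        rw [smul_eq_mul, Subalgebra.coe_mul, (hd p hp).2.2, ← Polynomial.C_mul_X_pow_eq_monomial,
          ← mul_assoc, Polynomial.coeff_mul_X_pow', Polynomial.coeff_mul_C]
        simp only [a]
        split_ifs
        · rfl
        · rw [zero_mul]
      obtain ⟨T, t1, t2, t3, t4⟩ := hT (t.image a) fun x hx => by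
        obtain ⟨p, -, rfl⟩ := Finset.mem_image.1 hx
        exact ⟨_, ha p⟩
      have e2 : b = ∑ p ∈ t, T (a p) * β p := by
        have h1 := t2 1 b hb
        rw [one_mul, t1, one_mul] at h1
        rw [← h1]
        conv_lhs => rw [e, map_sum]
        exact Finset.sum_congr rfl fun p hp => t2 _ _ (hd p hp).2.1
      rw [e2]
      refine Subalgebra.sum_mem _ fun p hp => mul_mem ?_ ?_
      · have := (hd p hp).1
        exact ih (k - d p) (by omega) _ (t4 _ (Finset.mem_image_of_mem a hp)) (t3 _ _ (ha p))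
      · exact Algebra.subset_adjoin (Finset.mem_coe.2 (Finset.mem_image_of_mem β hp))
  refine ⟨t.image β, le_antisymm (Algebra.adjoin_le fun x hx => ?_) fun b hb => ?_⟩
  · obtain ⟨p, hp, rfl⟩ := Finset.mem_image.1 (Finset.mem_coe.1 hx)
    exact (hd p hp).2.1
  · obtain ⟨k, hk⟩ := hB b hb
    exact key k b hb hk

theorem le_XJ2 {A : Type} [CommRing A] [Algebra ℂ A] {V : Submodule ℂ A} (h1 : (1 : A) ∈ V)
    {a : A} {k : ℕ} (ha : a ∈ V ^ k) (l : ℕ) : a ∈ V ^ (k + l) := by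
  induction l with
  | zero => exact ha
  | succ l ih =>
    rw [← add_assoc, pow_succ, ← mul_one a]
    exact Submodule.mul_mem_mul ih h1

/-- the elements of the powers of a subspace that contains one -/
def sub_XJ2 {A : Type} [CommRing A] [Algebra ℂ A] {V : Submodule ℂ A} (h1 : (1 : A) ∈ V) :
    Subalgebra ℂ A where
  carrier := {a | ∃ k, a ∈ V ^ k}
  mul_mem' := fun ⟨k, hk⟩ ⟨l, hl⟩ => ⟨k + l, by rw [pow_add]; exact Submodule.mul_mem_mul hk hl⟩
  add_mem' := fun ⟨k, hk⟩ ⟨l, hl⟩ =>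
    ⟨k + l, add_mem (le_XJ2 h1 hk l) (by rw [add_comm k l]; exact le_XJ2 h1 hl k)⟩
  algebraMap_mem' c := ⟨0, by rw [pow_zero]; exact Submodule.algebraMap_mem c⟩

theorem pow_XJ2 {A : Type} [CommRing A] [Algebra ℂ A] {V : Submodule ℂ A} (φ : A →ₐ[ℂ] A)
    (h : ∀ v ∈ V, φ v ∈ V) {a : A} {k : ℕ} (ha : a ∈ V ^ k) : φ a ∈ V ^ k := by
  have h1 : Submodule.map φ.toLinearMap V ≤ V := Submodule.map_le_iff_le_comap.2 h
  have h2 : Submodule.map φ.toLinearMap (V ^ k) ≤ V ^ k := by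
    rw [Submodule.map_pow]
    exact pow_le_pow_left' h1 k
  exact h2 ⟨a, ha, rfl⟩

variable {r : ℕ} {G : Subgroup (GL (Fin r) ℂ)} {Γ : Type} [Group Γ]

/-- conjugation acting on functions -/
def cj_XJ2 (g : G) : ((Γ →* G) → ℂ) →ₐ[ℂ] ((Γ →* G) → ℂ) where
  toFun f ρ := f (cjG g ρ)
  map_one' := rfl
  map_mul' _ _ := rfl
  map_zero' := rfl
  map_add' _ _ := rfl
  commutes' _ := rfl

theorem ent_XJ2 (g : G) (γ : Γ) (i j : Fin r) :
    cj_XJ2 g (fun ρ : Γ →* G => (ρ γ).1.1 i j) =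
      ∑ b, ∑ a, (g.1.1 i a * (g⁻¹).1.1 b j) • fun ρ : Γ →* G => (ρ γ).1.1 a b := by
  funext ρ
  have := mat_cjG g ρ γ
  rw [mat_apply, mat_apply] at this
  change (cjG g ρ γ).1.1 i j = _
  rw [this]
  simp only [Matrix.mul_apply, Finset.sum_apply, Pi.smul_apply, smul_eq_mul, Finset.sum_mul]
  exact Finset.sum_congr rfl fun b _ => Finset.sum_congr rfl fun a _ => by ring

/-- the ring of invariants is finitely generated -/
theorem inv_finiteType (hG : IsRed G) (S : Finset Γ) (hS : Submonoid.closure (S : Set Γ) = ⊤) :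
    Algebra.FiniteType ℂ (Inv Γ G) := by
  classical
  rw [← Subalgebra.fg_iff_finiteType]
  let F : Γ × Fin r × Fin r → (Γ →* G) → ℂ := fun x ρ => (ρ x.1).1.1 x.2.1 x.2.2
  let s : Finset ((Γ →* G) → ℂ) := insert 1 ((S ×ˢ Finset.univ).image F)
  let V : Submodule ℂ ((Γ →* G) → ℂ) := Submodule.span ℂ (s : Set _)
  have h1 : (1 : (Γ →* G) → ℂ) ∈ V :=
    Submodule.subset_span (Finset.mem_coe.2 (Finset.mem_insert_self _ _))
  have h2 : ∀ γ ∈ S, ∀ i j, (fun ρ : Γ →* G => (ρ γ).1.1 i j) ∈ V := fun γ hγ i j =>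
    Submodule.subset_span (Finset.mem_coe.2 (Finset.mem_insert_of_mem (Finset.mem_image.2
      ⟨(γ, i, j), Finset.mem_product.2 ⟨hγ, Finset.mem_univ _⟩, rfl⟩)))
  have h3 : OO G Γ ≤ sub_XJ2 h1 := by
    refine Algebra.adjoin_le ?_
    rintro f ⟨γ, i, j, rfl⟩
    have hγ : γ ∈ Submonoid.closure (S : Set Γ) := hS ▸ Submonoid.mem_top γ
    induction hγ using Submonoid.closure_induction generalizing i j with
    | mem x hx => exact ⟨1, by rw [pow_one]; exact h2 x hx i j⟩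
    | one =>
      rw [lpt_one]
      exact Subalgebra.algebraMap_mem _ _
    | mul γ δ _ _ e1 e2 =>
      rw [lpt_mul]
      exact Subalgebra.sum_mem _ fun k _ => Subalgebra.mul_mem _ (e1 i k) (e2 k j)
  have h4 : ∀ v ∈ V, v ∈ OO G Γ := by
    have : V ≤ (OO G Γ).toSubmodule := by
      refine Submodule.span_le.2 fun x hx => ?_
      rcases Finset.mem_insert.1 (Finset.mem_coe.1 hx) with rfl | hx
      · exact one_mem (OO G Γ)
      · obtain ⟨y, -, rfl⟩ := Finset.mem_image.1 hx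
        exact Algebra.subset_adjoin ⟨y.1, y.2.1, y.2.2, rfl⟩
    exact fun v hv => this hv
  have h5 : ∀ k, ∀ a ∈ V ^ k, a ∈ OO G Γ := fun k a ha =>
    Submodule.pow_induction_on_left V (C := fun a => a ∈ OO G Γ)
      (fun c => Subalgebra.algebraMap_mem _ c) (fun _ _ => add_mem)
      (fun m hm _ hx => mul_mem (h4 m hm) hx) ha
  have h6 : ∀ g : G, ∀ v ∈ V, cj_XJ2 g v ∈ V := by
    intro g
    have : V ≤ V.comap (cj_XJ2 g).toLinearMap := by
      refine Submodule.span_le.2 fun x hx => ?_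
      rcases Finset.mem_insert.1 (Finset.mem_coe.1 hx) with rfl | hx
      · exact h1
      · obtain ⟨y, hy, rfl⟩ := Finset.mem_image.1 hx
        change cj_XJ2 g (fun ρ : Γ →* G => (ρ y.1).1.1 y.2.1 y.2.2) ∈ V
        rw [ent_XJ2]
        exact Submodule.sum_mem _ fun b _ => Submodule.sum_mem _ fun a _ =>
          Submodule.smul_mem _ _ (h2 _ (Finset.mem_product.1 hy).1 a b)
    exact fun v hv => this hv
  refine hilb_abs V ⟨s, rfl⟩ (Inv Γ G) (fun b hb => h3 (mem_Inv.1 hb).1) fun t ht => ?_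
  obtain ⟨c, c1, c2⟩ := rey hG (κ := t) (f := fun x => x.1) fun x => by
    obtain ⟨k, hk⟩ := ht x.1 x.2
    exact h5 k _ hk
  let T : ((Γ →* G) → ℂ) →ₗ[ℂ] ((Γ →* G) → ℂ) := ∑ h ∈ c.support, c h • (cj_XJ2 h).toLinearMap
  have hT : ∀ f, T f = ∑ h ∈ c.support, c h • cj_XJ2 h f := fun f => by
    simp only [T, LinearMap.sum_apply, LinearMap.smul_apply, AlgHom.toLinearMap_apply]
  refine ⟨T, ?_, fun a b hb => ?_, fun k a ha => ?_, fun a ha => ?_⟩
  · rw [hT]
    simp only [map_one]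
    rw [← Finset.sum_smul]
    change (c.sum fun _ x => x) • _ = _
    rw [c1, one_smul]
  · rw [hT, hT, Finset.sum_mul]
    refine Finset.sum_congr rfl fun h _ => ?_
    have : cj_XJ2 h b = b := funext fun ρ => (mem_Inv.1 hb).2 h ρ
    rw [map_mul, this, smul_mul_assoc]
  · rw [hT]
    exact Submodule.sum_mem _ fun h _ => Submodule.smul_mem _ _ (pow_XJ2 _ (h6 h) ha)
  · have e : T a = av c a := by
      rw [hT]
      funext ρ
      simp only [av, Finsupp.sum, Finset.sum_apply, Pi.smul_apply, smul_eq_mul]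
      rfl
    rw [e]
    exact c2 ⟨a, ha⟩

end Pool.Agent.PW.L
end
end

-- part Pool.Agent.P.MP_65ad7c_ag.DFl
section

/-! The flow on the Betti moduli space, for an abstract coordinate ring. -/

open Set TopologicalSpace
open scoped Manifold ContDiff
open Pool.Agent.PW

noncomputable section
namespace Pool.Agent.PWF

theorem equiv_DFl {r : ℕ} {Γ : Type} [Group Γ] {G : Subgroup (GL (Fin r) ℂ)} {R : Type}
    [CommRing R] [Algebra ℂ R] {e : (Γ →* G) → R →ₐ[ℂ] ℂ} (he : IsInv e) :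
    ∃ φ : R ≃ₐ[ℂ] Inv Γ G, ∀ f ρ, (φ f).1 ρ = e ρ f := by
  let ψ : R →ₐ[ℂ] Inv Γ G :=
    (AlgHom.pi e).codRestrict (Inv Γ G) fun f => (he.2 _).1 ⟨f, fun _ => rfl⟩
  have hψ : ∀ f ρ, (ψ f).1 ρ = e ρ f := fun _ _ => rfl
  refine ⟨AlgEquiv.ofBijective ψ ⟨(injective_iff_map_eq_zero ψ).2 fun f hf => he.1 f fun ρ => ?_,
    fun F => ?_⟩, hψ⟩
  · rw [← hψ, hf]
    rfl
  · obtain ⟨f, hf⟩ := (he.2 F.1).2 F.2
    exact ⟨f, Subtype.ext (funext hf)⟩

theorem minimal_DFl {R S : Type} [CommRing R] [CommRing S] (φ : S ≃+* R) {P : Ideal R}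
    (hP : P ∈ minimalPrimes R) : P.comap φ ∈ minimalPrimes S := by
  have h := Ideal.minimalPrimes_comap_of_surjective (f := (φ : S →+* R)) φ.surjective hP
  rwa [Ideal.comap_bot_of_injective (φ : S →+* R) φ.injective] at h

/-- transport of points along an isomorphism of rings -/
def homeo_DFl {R S : Type} [CommRing R] [Algebra ℂ R] [CommRing S] [Algebra ℂ S] (φ : R ≃ₐ[ℂ] S)
    (P : Ideal R) : Pts P ≃ₜ Pts (P.comap φ.symm.toRingEquiv) where
  toFun y := ⟨fun F => y.1 (φ.symm F), by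
    obtain ⟨ψ, h⟩ := y.2.1
    exact ⟨ψ.comp φ.symm, funext fun F => congrFun h _⟩, fun F hF => y.2.2 _ hF⟩
  invFun y := ⟨fun f => y.1 (φ f), by
    obtain ⟨ψ, h⟩ := y.2.1
    exact ⟨ψ.comp φ, funext fun F => congrFun h _⟩, fun f hf => y.2.2 _ (by
      show φ.symm (φ f) ∈ P
      rwa [φ.symm_apply_apply])⟩
  left_inv y := Subtype.ext (funext fun f => congrArg y.1 (φ.symm_apply_apply f))
  right_inv y := Subtype.ext (funext fun F => congrArg y.1 (φ.apply_symm_apply F))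
  continuous_toFun := by
    refine Continuous.subtype_mk (continuous_pi fun F => ?_) _
    exact (continuous_apply (φ.symm F)).comp continuous_subtype_val
  continuous_invFun := by
    refine Continuous.subtype_mk (continuous_pi fun f => ?_) _
    exact (continuous_apply (φ f)).comp continuous_subtype_val

theorem conj_DFl {A B : Type} [TopologicalSpace A] [TopologicalSpace B] (τ : A ≃ₜ B)
    {S : A → A → Prop} {S' : B → B → Prop} (hS : ∀ y y', S y y' → S' (τ y) (τ y'))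
    (h : ∃ Φ Φ' : C(B × unitInterval, B), (∀ y, Φ (y, 0) = y) ∧
      (∀ y t, Φ' (Φ (y, t), t) = y) ∧ (∀ y t, Φ (Φ' (y, t), t) = y) ∧
      (∀ y, Φ (Φ (y, 1), 1) = y) ∧ ∀ y y', S' y y' → y' = Φ (y, 1)) :
    ∃ Φ Φ' : C(A × unitInterval, A), (∀ y, Φ (y, 0) = y) ∧
      (∀ y t, Φ' (Φ (y, t), t) = y) ∧ (∀ y t, Φ (Φ' (y, t), t) = y) ∧
      (∀ y, Φ (Φ (y, 1), 1) = y) ∧ ∀ y y', S y y' → y' = Φ (y, 1) := by
  obtain ⟨Φ, Φ', h1, h2, h3, h4, h5⟩ := h
  refine ⟨⟨fun p => τ.symm (Φ (τ p.1, p.2)), by fun_prop⟩,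
    ⟨fun p => τ.symm (Φ' (τ p.1, p.2)), by fun_prop⟩, fun y => ?_, fun y t => ?_, fun y t => ?_,
    fun y => ?_, fun y y' h => ?_⟩
  · simp [h1]
  · simp [h2]
  · simp [h3]
  · simp [h4]
  · simp [← h5 _ _ (hS y y' h)]

theorem exists_flow (n r : ℕ) (X : Type) [TopologicalSpace X] [T2Space X] [CompactSpace X]
    [ConnectedSpace X] [ChartedSpace (EC n) X] [IsManifold 𝓘(ℂ, EC n) ω X] (hK : IsKahler n X)
    (x₀ : X) (G : Subgroup (GL (Fin r) ℂ)) (hG : Red G) (R : Type) [CommRing R] [Algebra ℂ R]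
    (e : (FundamentalGroup X x₀ →* G) → R →ₐ[ℂ] ℂ) (he : IsInv e)
    (P : Ideal R) (hP : P ∈ minimalPrimes R) :
    ∃ Φ Φ' : C(Pts P × unitInterval, Pts P), (∀ y, Φ (y, 0) = y) ∧
      (∀ y t, Φ' (Φ (y, t), t) = y) ∧ (∀ y t, Φ (Φ' (y, t), t) = y) ∧
      (∀ y, Φ (Φ (y, 1), 1) = y) ∧ ∀ y y' : Pts P, Cnj e y.1 y'.1 → y' = Φ (y, 1) := by
  obtain ⟨φ, hφ⟩ := equiv_DFl he
  refine conj_DFl (homeo_DFl φ P) (S := fun y y' => Cnj e y.1 y'.1)
    (S' := fun y y' => IsS y.1 y'.1) (fun y y' h F F' hF => ?_)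
    (PW.exists_flow n r X hK x₀ G hG _ (minimal_DFl φ.symm.toRingEquiv hP))
  refine h (φ.symm F) (φ.symm F') fun ρ ρ' hρ => ?_
  rw [← hφ, ← hφ, φ.apply_symm_apply, φ.apply_symm_apply]
  exact hF ρ ρ' hρ

end Pool.Agent.PWF
end
end

-- part Pool.Agent.P.MP_65ad7c_ag.XJ3
section

open Set Matrix
open scoped ComplexConjugate
open Pool.Agent.PW

noncomputable section
namespace Pool.Agent.PWF

variable {r : ℕ} {Γ : Type} [Group Γ] {G : Subgroup (GL (Fin r) ℂ)} {R : Type} [CommRing R]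
  [Algebra ℂ R] {e : (Γ →* G) → R →ₐ[ℂ] ℂ}

theorem ext_XJ3 (he : IsInv e) {a b : R} (h : ∀ ρ, e ρ a = e ρ b) : a = b :=
  sub_eq_zero.mp (he.1 _ fun ρ => by rw [map_sub, h, sub_self])

theorem star_XJ3 (hG : Red G) (he : IsInv e) (g : R) : ∃ g' : R, ∀ ρ ρ' : Γ →* G,
    (∀ γ, (ρ' γ).1.1 = (ρ γ⁻¹).1.1ᴴ) → e ρ g' = conj (e ρ' g) := by
  obtain ⟨φ, hφ⟩ := equiv_DFl he
  obtain ⟨f', hf'⟩ := L.exists_star hG (φ g)
  refine ⟨φ.symm f', fun ρ ρ' h => ?_⟩
  rw [← hφ, ← hφ, φ.apply_symm_apply]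
  exact hf' ρ ρ' h

/-- the real structure of the coordinate ring -/
theorem exists_invol (hG : Red G) (he : IsInv e) : ∃ τ : R →+* R, (∀ g, τ (τ g) = g) ∧
    (∀ (c : ℂ) g, τ (c • g) = conj c • τ g) ∧
    ∀ y y' : R → ℂ, Cnj e y y' ↔ ∀ g, y' g = conj (y (τ g)) := by
  choose th hth using fun ρ : Γ →* G => L.exists_dual hG ρ
  choose t ht using star_XJ3 hG he
  have h1 : ∀ g ρ, e ρ (t g) = conj (e (th ρ) g) := fun g ρ => ht g ρ (th ρ) (hth ρ)
  refine ⟨{ toFun := t
            map_one' := ext_XJ3 he fun ρ => by rw [h1, map_one, map_one, map_one]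
            map_mul' := fun a b => ext_XJ3 he fun ρ => by
              rw [map_mul, h1, h1, h1, map_mul, map_mul]
            map_zero' := ext_XJ3 he fun ρ => by rw [h1, map_zero, map_zero, map_zero]
            map_add' := fun a b => ext_XJ3 he fun ρ => by
              rw [map_add, h1, h1, h1, map_add, map_add] },
    fun g => ext_XJ3 he fun ρ => ?_, fun c g => ext_XJ3 he fun ρ => ?_,
    fun y y' => ⟨fun h g => h g (t g) (ht g), fun h f f' hf => ?_⟩⟩
  · change e ρ (t (t g)) = e ρ g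
    rw [h1, ht g (th ρ) ρ (L.linv_symm (hth ρ)), Complex.conj_conj]
  · change e ρ (t (c • g)) = e ρ (conj c • t g)
    rw [map_smul, h1, h1, map_smul, smul_eq_mul, smul_eq_mul, map_mul]
  · have h2 : f' = t f := ext_XJ3 he fun ρ => by rw [h1, hf ρ (th ρ) (hth ρ)]
    rw [h2]
    exact h f

/-- real generators -/
theorem exists_real_gens (hG : Red G) (he : IsInv e) (S : Finset Γ)
    (hS : Submonoid.closure (S : Set Γ) = ⊤) :
    ∃ (N : ℕ) (f : Fin N → R), Algebra.adjoin ℂ (range f) = ⊤ ∧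
      ∀ y y' : R →ₐ[ℂ] ℂ, Cnj e y y' ↔ ∀ j, y' (f j) = conj (y (f j)) := by
  obtain ⟨τ, h1, h2, h3⟩ := exists_invol hG he
  obtain ⟨φ, -⟩ := equiv_DFl he
  have hft : Algebra.FiniteType ℂ R :=
    Algebra.FiniteType.equiv (L.inv_finiteType hG S hS) φ.symm
  obtain ⟨s, hs⟩ := hft.out
  let F : s ⊕ s → R := Sum.elim (fun g => g.1 + τ g.1) fun g => Complex.I • (g.1 - τ g.1)
  have hF : ∀ j, τ (F j) = F j := by
    rintro (g | g)
    · change τ (g.1 + τ g.1) = g.1 + τ g.1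
      rw [map_add, h1, add_comm]
    · change τ (Complex.I • (g.1 - τ g.1)) = Complex.I • (g.1 - τ g.1)
      rw [h2, map_sub, h1, Complex.conj_I, neg_smul, ← smul_neg, neg_sub]
  have hr : range (F ∘ (Fintype.equivFin (s ⊕ s)).symm) = range F :=
    (Fintype.equivFin (s ⊕ s)).symm.surjective.range_comp F
  have ht : Algebra.adjoin ℂ (range F) = ⊤ := by
    rw [eq_top_iff, ← hs]
    refine Algebra.adjoin_le fun g hg => ?_
    have e1 : g = (2⁻¹ : ℂ) • (F (Sum.inl ⟨g, hg⟩) - Complex.I • F (Sum.inr ⟨g, hg⟩)) := by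
      change g = (2⁻¹ : ℂ) • (g + τ g - Complex.I • Complex.I • (g - τ g))
      rw [smul_smul, Complex.I_mul_I, neg_smul, one_smul, sub_neg_eq_add, add_add_sub_cancel,
        ← two_smul ℂ g, smul_smul, inv_mul_cancel₀ two_ne_zero, one_smul]
    rw [e1]
    exact Subalgebra.smul_mem _ (sub_mem (Algebra.subset_adjoin (mem_range_self _))
      (Subalgebra.smul_mem _ (Algebra.subset_adjoin (mem_range_self _)) _)) _
  refine ⟨_, F ∘ (Fintype.equivFin (s ⊕ s)).symm, hr ▸ ht, fun y y' => ?_⟩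
  rw [h3]
  refine ⟨fun h j => by rw [h, Function.comp_apply, hF], fun h g => ?_⟩
  have hg : g ∈ Algebra.adjoin ℂ (range F) := ht ▸ Algebra.mem_top
  induction hg using Algebra.adjoin_induction with
  | mem x hx =>
    obtain ⟨j, rfl⟩ := hx
    have h4 := h (Fintype.equivFin (s ⊕ s) j)
    rw [Function.comp_apply, Equiv.symm_apply_apply] at h4
    rw [hF, h4]
  | algebraMap c =>
    rw [Algebra.algebraMap_eq_smul_one, h2, map_one, map_smul, map_smul, map_one, map_one,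
      smul_eq_mul, smul_eq_mul, mul_one, mul_one, Complex.conj_conj]
  | add a b _ _ ha hb => rw [map_add, map_add, map_add, map_add, ha, hb]
  | mul a b _ _ ha hb => rw [map_mul, map_mul, map_mul, map_mul, ha, hb]

end Pool.Agent.PWF
end
end
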