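import Pool.Agent.K.MP_65ad7c_ag.C107

/-! The real structure maps every component of the Betti moduli space to itself. -/

open Set TopologicalSpace
open scoped Manifold ContDiff
open Pool.Agent.PW

noncomputable section
namespace Pool.Agent.PWF

theorem rot_DFm {r : ℕ} {Γ : Type} [Group Γ] {G : Subgroup (GL (Fin r) ℂ)} (K : RotSys Γ)
    (hG : IsRed G) (P : Ideal (Inv Γ G)) (hP : P ∈ minimalPrimes _) (y : Comp P) :
    ∃ y' : Comp P, IsS y.1 y'.1 := by
  rcases Nat.eq_zero_or_pos r with rfl | hr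
  · refine ⟨y, fun f f' h => ?_⟩
    obtain ⟨φ, hφ⟩ := y.2.1
    have hf : ∀ f : Inv Γ G, y.1 f = f.1 1 := fun f => by
      have hf : f = algebraMap ℂ (Inv Γ G) (f.1 1) := by
        refine Subtype.ext (funext fun ρ => ?_)
        have : ρ = 1 := MonoidHom.ext fun γ => Subtype.ext (Units.ext (Subsingleton.elim _ _))
        rw [this]
        rfl
      rw [← hφ, hf, AlgHom.commutes]
      rfl
    rw [hf, hf, h 1 1 fun _ => Subsingleton.elim _ _, Complex.conj_conj]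
  · obtain ⟨Ψ, h⟩ := L.exists_Flow K hG hr
    exact ⟨⟨Ψ y.1 Real.pi, h.mem_comp hG hP y.2 _⟩, h.isS y.2.1⟩

theorem exists_cnj (n r : ℕ) (X : Type) [TopologicalSpace X] [T2Space X] [CompactSpace X]
    [ConnectedSpace X] [ChartedSpace (EC n) X] [IsManifold 𝓘(ℂ, EC n) ω X] (hK : IsKahler n X)
    (x₀ : X) (G : Subgroup (GL (Fin r) ℂ)) (hG : Red G) (R : Type) [CommRing R] [Algebra ℂ R]
    (e : (FundamentalGroup X x₀ →* G) → R →ₐ[ℂ] ℂ) (he : IsInv e)
    (P : Ideal R) (hP : P ∈ minimalPrimes R) (y : Pts P) : ∃ y' : Pts P, Cnj e y.1 y'.1 := by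
  obtain ⟨φ, hφ⟩ := equiv_DFl he
  obtain ⟨K⟩ := exists_rotSys n X hK x₀
  obtain ⟨z, hz⟩ := rot_DFm K hG _ (minimal_DFl φ.symm.toRingEquiv hP) (homeo_DFl φ P y)
  refine ⟨(homeo_DFl φ P).symm z, fun f f' h => ?_⟩
  have h1 := hz (φ f) (φ f') fun ρ ρ' hρ => by
    rw [hφ, hφ]
    exact h ρ ρ' hρ
  refine h1.trans (congrArg _ ?_)
  exact congrArg y.1 (φ.symm_apply_apply f')

end Pool.Agent.PWF
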