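import Pool.Agent.K.MP_65ad7c_ag.C10
import Pool.Agent.K.MP_65ad7c_ag.C0

/-! Definitions for the analytic part of block N. -/

open MeasureTheory Set Filter Topology Metric Matrix
open scoped ComplexOrder ContDiff Matrix.Norms.Frobenius RealInnerProductSpace ENNReal
open Pool.Agent.Lib.Sob

noncomputable section
namespace Pool.Agent.PW

section ana
variable {E : Type} [NormedAddCommGroup E] [InnerProductSpace ℝ E] [FiniteDimensional ℝ E]
  [MeasurableSpace E] [BorelSpace E] {Γ : Type} [Group Γ] {r : ℕ}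

/-- local part of a Lipschitz harmonic metric -/
structure HL (α : E → E →L[ℝ] E) (C : ℝ) (h : E → Mat r) (D : E → E →L[ℝ] Mat r) : Prop where
  cont : ContinuousOn h (ball 0 2)
  bd : ∀ x ∈ ball (0 : E) 2, Bd C (h x)
  wd : WD 2 (ball 0 2) h D
  dbd : ∀ᵐ x, x ∈ ball (0 : E) 2 → ‖D x‖ ≤ C
  harm : Harm (ball 0 2) α fun x => mc (h x) (D x)

/-- a Lipschitz harmonic metric -/
structure Atlas.HD (A : Atlas E Γ) (ρ : Γ →* Mat r) (C : ℝ)
    (h : A.ι → E → Mat r) (D : A.ι → E → E →L[ℝ] Mat r) : Prop where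
  one_le : 1 ≤ C
  loc : ∀ a, HL (A.α a) C (h a) (D a)
  mc : A.MC (ball 0 2) ρ h

/-- a section of the endomorphism bundle -/
def Pre.Sec (A : Pre E Γ) (ρ : Γ →* Mat r) (ζ : A.ι → E → Mat r) : Prop :=
  ∀ a b, ∀ x ∈ A.ov (ball 0 2) a b, ζ a x * ρ (A.c a b x) = ρ (A.c a b x) * ζ b (A.T a b x)

theorem HL.lbd {α : E → E →L[ℝ] E} {C : ℝ} {h : E → Mat r} {D : E → E →L[ℝ] Mat r} (hC : 1 ≤ C)
    (H : HL α C h D) : LBd (ball 0 2) h := fun _ _ hK => ⟨C, hC, fun x hx => H.bd x (hK hx)⟩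

end ana

section rot
variable {n r : ℕ} {Γ : Type} [Group Γ]

/-- first coefficient of the rotated connection -/
def pT (t : ℝ) : ℝ := (1 - Real.cos t) / 2

/-- second coefficient of the rotated connection -/
def qT (t : ℝ) : ℝ := -Real.sin t / 2

/-- two-sided bound on the ball of radius two -/
def GB (C : ℝ) (g : EC n → Mat r) : Prop := ∀ x ∈ ball (0 : EC n) 2, ‖g x‖ ≤ C ∧ ‖(g x)⁻¹‖ ≤ C

/-- `ρ'` is obtained from `ρ` by rotating the Higgs field by the angle `t`; `p` is the value of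
the harmonic metric at the base point -/
def KAtlas.Rel (A : KAtlas n Γ) (C t : ℝ) (p : Mat r) (ρ ρ' : Γ →* Mat r) : Prop :=
  ∃ h D g, A.toAtlas.HD ρ C h D ∧ h A.a0 0 = p ∧ A.Rot (ball 0 2) ρ h D (pT t) (qT t) ρ' g ∧
    g A.a0 0 = 1 ∧ ∀ a, GB C (g a)

end rot

end Pool.Agent.PW
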