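import Pool.Agent.P.MP_65ad7c_ag.YE0
import Pool.Agent.K.MP_65ad7c_ag.C41
import Pool.Agent.K.MP_65ad7c_ag.C110

open Set Filter Topology TopologicalSpace
open scoped Manifold ContDiff
open Pool.Agent.PW Pool.Agent.PWD Pool.Agent.HIR
open Pool.Agent.HT (Form Amb)

noncomputable section
namespace Pool.Agent.PWF

section
variable {R : Type} [CommRing R] [Algebra ℂ R] {Y : Set (R → ℂ)} {d m k : ℕ} {U : ℕ → Opens Y}
  {I : Cx Y} {one : Sec I 0 (U 1)} {Q : Data Y (d - m)} {S : (R → ℂ) → (R → ℂ) → Prop}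

theorem wq_iff {α : Glo I m} : α ∈ WQ one Q k ↔ dd m (m + 1) α = 0 ∧
    ∃ (u : ∀ n W, Form (Amb Q.M) n →ₗ[ℂ] Sec I n W) (η : Form (Amb Q.M) m), Q.IsNat one u ∧
      Data.Rp u η α ∧ InW d Q.X Q.D Q.T Q.al Q.be k η := by
  constructor
  · rintro ⟨hα, u, O, η, j, t, hu, h1, h2, h3, h4, h5⟩
    exact ⟨hα, fun n W => (hu.lin n W).mk' _, η, ⟨hu.van, hu.res, hu.d, hu.one⟩,
      ⟨O, j, t, h1, h2, h3, h4⟩, h5⟩
  · rintro ⟨hα, u, η, hu, ⟨O, j, t, h1, h2, h3, h4⟩, h5⟩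
    exact ⟨hα, fun n W => u n W, O, η, j, t,
      ⟨fun n W => (u n W).isLinear, hu.van, hu.res, hu.d, hu.one⟩, h1, h2, h3, h4, h5⟩

theorem wq_odd (hY : IsVar Y) (hU : IsStrat d U) (hI : IsIC U I one)
    (Φ Φ' : C(Y × unitInterval, Y)) (h0 : ∀ y, Φ (y, 0) = y) (h1 : ∀ y t, Φ' (Φ (y, t), t) = y)
    (h2 : ∀ y t, Φ (Φ' (y, t), t) = y) (hS : ∀ y y' : Y, S y.1 y'.1 → y' = Φ (y, 1))
    (hQ : Q.IsModel S d m U) (k : ℕ) : WQ one Q (2 * k + 1) = WQ one Q (2 * k) := by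
  ext α
  rw [wq_iff, wq_iff]
  refine and_congr_right fun hα => ⟨?_, fun ⟨u, η, hu, h3, h7⟩ => ⟨u, η, hu, h3, h7.succ⟩⟩
  rintro ⟨u, η, hu, h3, h7⟩
  rcases le_or_gt m d with hm | hm
  · let s : Y ≃ₜ Y :=
      { toFun := fun y => Φ (y, 1)
        invFun := fun y => Φ' (y, 1)
        left_inv := fun y => h1 y 1
        right_inv := fun y => h2 y 1
        continuous_toFun := by fun_prop
        continuous_invFun := by fun_prop }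
    obtain ⟨θ, hθ⟩ := exists_theta hY hQ.gen hU hI Φ Φ' h0 h1 h2 (s : C(Y, Y)) (fun _ => rfl)
      (hQ.s_U (s := s) hS)
    obtain ⟨η', g1, g5⟩ := hQ.drop hY hu hU hI (by omega) (s := s) hS hθ hα h3 h7
    exact ⟨u, η', hu, g1, g5⟩
  · obtain ⟨j', t', e⟩ := av3 hY hQ.gen hU hI hm hα
    refine ⟨u, 0, hu, ⟨⊤, j', t', fun _ _ => trivial, Data.Adm.zero, ?_, ?_⟩, InW.zero⟩
    · rw [extDeriv_zeroDL1a]; exact Van.zero
    · rw [map_zero, sub_zero, e]; exact vf_rs_self α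

end

section
variable {R : Type} [CommRing R] [Algebra ℂ R] {N d : ℕ} {f : Fin N → R} {P : Ideal R}

theorem wq_all (hP : P.IsPrime) (hf : Algebra.adjoin ℂ (range f) = ⊤)
    {Sr : (R → ℂ) → (R → ℂ) → Prop}
    (hS : ∀ y y' : Pts P, PWV.emb f y' = star (PWV.emb f y) → Sr y.1 y'.1)
    (hs : ∀ y : Pts P, ∃ y' : Pts P, PWV.emb f y' = star (PWV.emb f y)) {U : ℕ → Opens (Pts P)}
    (hU : IsStrat d U) (h1 : (U 1).1.Nonempty) {I : Cx (Pts P)} {one : Sec I 0 (U 1)}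
    (hI : IsIC U I one) :
    ∃ (U' : ℕ → Opens (Pts P)) (one' : Sec I 0 (U' 1)), IsStrat d U' ∧ IsIC U' I one' ∧
      ∀ m, ∃ Q : Data (Pts P) (d - m), Model Q Sr d m (fun e => U' e) ∧
        ∀ α : Glo I m, Coc univ α → α ∈ WQ one' Q (2 * m) := by
  have hY : IsVar (Pts P) := ⟨P, rfl⟩
  have hr := PWV.range_emb hf P
  generalize hq : P.comap (MvPolynomial.aeval f : MvPolynomial (Fin N) ℂ →ₐ[ℂ] R) = p at hr
  have hp : p.IsPrime := hq ▸ Ideal.comap_isPrime _ _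
  have hs' : ∀ y ∈ PWV.ZI p, star y ∈ PWV.ZI p := by
    rw [← hr]
    rintro _ ⟨y, rfl⟩
    exact hs y
  have hd := PWV.dim_range (f := f) hY hU
  have hd' := PWV.not_dim_range hY hf hU h1
  rw [hr] at hd hd'
  obtain ⟨h₀, ⟨y₀, hy₀⟩, h0⟩ := PWV.exists_eqn hY hf hU h1
  have hy : PWV.emb f y₀ ∈ PWV.ZI p := hr ▸ mem_range_self y₀
  obtain ⟨S, ph, H, hH, hN, hdv, hr0, hmd⟩ := exists_md hp hs' hd hd' fun hm => hy₀ (hy h₀ hm)
  obtain ⟨S', ph', hmd', hD, hA⟩ := exists_rb hH hmd hr0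
  obtain ⟨h, hh, hdim⟩ := hN.drop hp hd
  rw [← hr] at hdim hmd'
  obtain ⟨U', hU', hle, hU1, hF⟩ := PWV.exists_refine hY hf hU
    (fun y hy => (hh _).trans (hdv _ (h0 y hy))) hdim
  have hI' := hI.refine hU hU' hle hF
  haveI : Nonempty (Pts P) := ⟨y₀⟩
  refine ⟨U', _, hU', hI', fun m => ?_⟩
  obtain ⟨Q, hQ, hZ⟩ := exists_model hY hf hS hmd' hD hA hU' (fun y => by rw [hU1, hh]) m
  obtain ⟨u, hu⟩ := hQ.exists_nat hY hI'
  refine ⟨Q, model_iff.2 hQ, fun α hα => ?_⟩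
  obtain ⟨η, hη⟩ := hQ.exists_rp hY hu hU' hI' hZ hα.2
  exact wq_iff.2 ⟨hα.2, u, η, hu, hη, hQ.inW_top hη⟩

end

theorem fin_q (n r : ℕ) (X : Type) [TopologicalSpace X] [T2Space X] [CompactSpace X]
    [ConnectedSpace X] [ChartedSpace (EC n) X] [IsManifold 𝓘(ℂ, EC n) ω X] (hK : IsKahler n X)
    (x₀ : X) (G : Subgroup (GL (Fin r) ℂ)) (hG : Red G) (R : Type) [CommRing R] [Algebra ℂ R]
    (e : (FundamentalGroup X x₀ →* G) → R →ₐ[ℂ] ℂ) (he : IsInv e)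
    (P : Ideal R) (hP : P ∈ minimalPrimes R) :
    (∀ y : Pts P, ∃ y' : Pts P, Cnj e y.1 y'.1) ∧
      (∃ (d : ℕ) (U : ℕ → Opens (Pts P)) (I : Cx (Pts P)) (one : Sec I 0 (U 1)),
        IsStrat d U ∧ (U 1).1.Nonempty ∧ IsIC U I one) ∧
      ∀ (d : ℕ) (U : ℕ → Opens (Pts P)) (I : Cx (Pts P)) (one : Sec I 0 (U 1)),
        IsStrat d U → IsIC U I one →
        ((U 1).1.Nonempty → ∃ (U' : ℕ → Opens (Pts P)) (one' : Sec I 0 (U' 1)),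
          IsStrat d U' ∧ IsIC U' I one' ∧ ∀ m, ∃ Q : Data (Pts P) (d - m),
            Model Q (Cnj e) d m (fun c => U' c) ∧
            ∀ α : Glo I m, Coc univ α → α ∈ WQ one' Q (2 * m)) ∧
        ∀ (m : ℕ) (Q : Data (Pts P) (d - m)), Model Q (Cnj e) d m (fun c => U c) →
          ∀ k, WQ one Q (2 * k + 1) = WQ one Q (2 * k) := by
  obtain ⟨K⟩ := exists_rotSys n X hK x₀
  obtain ⟨N, f, hf, hc⟩ := exists_real_gens hG he K.S K.gen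
  have key : ∀ y y' : Pts P, Cnj e y.1 y'.1 ↔ PWV.emb f y' = star (PWV.emb f y) := fun y y' => by
    obtain ⟨φ, hφ⟩ := y.2.1
    obtain ⟨φ', hφ'⟩ := y'.2.1
    rw [← hφ, ← hφ', hc, funext_iff, hφ, hφ']
    rfl
  obtain ⟨Φ, Φ', h0, h1, h2, -, hS⟩ := exists_flow n r X hK x₀ G hG R e he P hP
  have h3 := exists_cnj n r X hK x₀ G hG R e he P hP
  exact ⟨h3, PWV.exists_ic hP.1.1 hf, fun d U I one hU hI =>
    ⟨fun h4 => wq_all hP.1.1 hf (fun y y' h => (key y y').2 h)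
      (fun y => (h3 y).imp fun y' h => (key y y').1 h) hU h4 hI,
    fun m Q hQ => wq_odd ⟨P, rfl⟩ hU hI Φ Φ' h0 h1 h2 hS (model_iff.1 hQ)⟩⟩

end Pool.Agent.PWF
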