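import Pool.Agent.K.MP_65ad7c_ag.C43

open Set Filter Topology Asymptotics

noncomputable section
namespace Pool.Agent.HIR

variable {n N a : ℕ}

theorem usard_meagre {S : Set (Fin a → Fin N → ℂ)} (h : Weil.Thin (a * N) S) :
    IsMeagre {c : Fin a → Fin N → ℝ | (fun i l => (c i l : ℂ)) ∈ S} := by
  have h1 := thin_meagre _ _ le_rfl (h.image
    (g := fun c (l : Fin (a * N)) => c (finProdFinEquiv.symm l).1 (finProdFinEquiv.symm l).2)
    fun c _ => analyticAt_pi_iff.2 fun l => analyticAt_pi_iff.1 (analyticAt_pi_iff.1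
      (show AnalyticAt ℂ (fun u : Fin a → Fin N → ℂ => u) c from analyticAt_id) _) _)
  refine (h1.preimage_of_isOpenMap (f := fun (c : Fin a → Fin N → ℝ) (l : Fin (a * N)) =>
    c (finProdFinEquiv.symm l).1 (finProdFinEquiv.symm l).2) (by fun_prop)
    (IsOpenMap.of_inverse (f' := fun u i l => u (finProdFinEquiv (i, l))) (by fun_prop)
      (fun u => ?_) fun c => ?_)).mono ?_
  · funext l
    simp only [Prod.mk.eta, Equiv.apply_symm_apply]
  · funext i l
    simp only [Equiv.symm_apply_apply]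
  · exact fun c hc => ⟨_, hc, rfl⟩

/-- Sard for the incidence variety of tuples of hyperplanes -/
theorem usard {g : E n → Fin N → ℂ} {O : Set (E n)}
    (hg : ∀ w ∈ O, AnalyticAt ℂ g w ∧ g w ≠ 0) (T : Finset (Fin n)) :
    Weil.Thin (a * N) {c : Fin a → Fin N → ℂ | ∃ w ∈ O, (∀ i ∈ T, w i = 0) ∧ ∃ lam : Fin a → ℂ,
      lam ≠ 0 ∧ (∀ i, lam i ≠ 0 → c i ⬝ᵥ g w = 0) ∧
      ∀ l, l ∉ T → pd l (fun y => (∑ i, lam i • c i) ⬝ᵥ g y) w = 0} := by
  classical
  let ψ : Finset (Fin a) → Fin N → (Fin a → Fin N → ℂ) × E n → Fin a → Fin N → ℂ :=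
    fun I k p i => if i ∈ I then psi_XM4 g T k (p.1 i, p.2) else p.1 i
  have an : ∀ I k (p : (Fin a → Fin N → ℂ) × E n), AnalyticAt ℂ g (rho T p.2) →
      g (rho T p.2) k ≠ 0 → AnalyticAt ℂ (ψ I k) p := by
    intro I k p h1 h2
    refine analyticAt_pi_iff.2 fun i => ?_
    have h3 : AnalyticAt ℂ (fun q : (Fin a → Fin N → ℂ) × E n => q.1 i) p :=
      analyticAt_pi_iff.1 analyticAt_fst i
    by_cases hi : i ∈ I
    · simp only [if_pos hi]
      exact AnalyticAt.comp (f := fun q : (Fin a → Fin N → ℂ) × E n => (q.1 i, q.2))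
        (an_psi_XM4 h1 h2) (h3.prod analyticAt_snd)
    · simpa only [ψ, if_neg hi] using h3
  have hth : ∀ (I : Finset (Fin a)) (k : Fin N), Weil.Thin (a * N) _ := fun I k =>
    Weil.thin_crit (U := {p : (Fin a → Fin N → ℂ) × E n | rho T p.2 ∈ O ∧ g (rho T p.2) k ≠ 0})
      (g := ψ I k) (fun p hp => an I k p (hg _ hp.1).1 hp.2) (a * N)
  refine (Weil.thin_iUnion fun I => Weil.thin_iUnion (hth I)).mono ?_ le_rfl
  rintro c ⟨w, hw, hT, lam, h0, hc, hl⟩
  obtain ⟨k, hk⟩ := Function.ne_iff.1 (hg w hw).2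
  obtain ⟨i0, hi0⟩ := Function.ne_iff.1 h0
  obtain ⟨I, hI⟩ : ∃ I : Finset (Fin a), ∀ i, i ∈ I ↔ lam i ≠ 0 :=
    ⟨Finset.univ.filter fun i => lam i ≠ 0, by simp⟩
  have hr : rho T w = w := rho_fix hT
  have hk' : g (rho T (c, w).2) k ≠ 0 := by rw [hr]; exact hk
  have hg' : AnalyticAt ℂ g (rho T (c, w).2) := by rw [hr]; exact (hg w hw).1
  have hval : ψ I k (c, w) = c := by
    funext i
    by_cases hi : i ∈ I
    · simp only [ψ, if_pos hi, psi_XM4, hr, hc i ((hI i).1 hi), zero_div, zero_smul, sub_zero]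
    · simp only [ψ, if_neg hi]
  refine mem_iUnion₂.2 ⟨I, k, (c, w), ⟨⟨by rw [hr]; exact hw, hk'⟩, ?_⟩, hval⟩
  have hG : AnalyticAt ℂ (fun p : (Fin a → Fin N → ℂ) × E n => g (rho T p.2)) (c, w) :=
    AnalyticAt.comp (f := fun p : (Fin a → Fin N → ℂ) × E n => rho T p.2) hg'
      (AnalyticAt.comp (f := fun p : (Fin a → Fin N → ℂ) × E n => p.2) (an_rho T _) analyticAt_snd)
  obtain ⟨A, hA⟩ : ∃ A : (Fin a → Fin N → ℂ) →L[ℂ] Fin N → ℂ, ∀ u, A u = ∑ i, lam i • u i :=
    ⟨∑ i, lam i • ContinuousLinearMap.proj i, fun u => by simp⟩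
  rw [← hA] at hl
  have hf : An w fun y => A c ⬝ᵥ g y := an_dot_XM4 analyticAt_const (hg w hw).1
  have hψ := (an I k _ hg' hk').differentiableAt.hasFDerivAt
  have key : ∀ q, A (fderiv ℂ (ψ I k) (c, w) q) ⬝ᵥ g w = 0 := by
    intro q
    have h7 := A.hasFDerivAt.comp (c, w) hψ
    have h1 := dot_der_XM4 h7.differentiableAt hG.differentiableAt q
    have h2 : (fun y => (A ∘ ψ I k) y ⬝ᵥ g (rho T y.2)) =ᶠ[𝓝 (c, w)] fun _ => 0 := by
      filter_upwards [(analyticAt_pi_iff.1 hG k).continuousAt.eventually_ne hk'] with y hy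
      rw [Function.comp_apply, hA, sum_dotProduct]
      refine Finset.sum_eq_zero fun i _ => ?_
      by_cases hi : i ∈ I
      · simp only [ψ, if_pos hi, smul_dotProduct]
        rw [psi_dot_XM4 (p := (y.1 i, y.2)) hy, smul_zero]
      · rw [not_not.1 ((hI i).not.1 hi), zero_smul, zero_dotProduct]
    have h3 := dot_der_XM4 (differentiableAt_const (A c)) hG.differentiableAt q
    have h4 : fderiv ℂ (fun y : (Fin a → Fin N → ℂ) × E n => A c ⬝ᵥ g (rho T y.2)) (c, w) q = 0 := by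
      have h5 := HasFDerivAt.comp (f := fun y : (Fin a → Fin N → ℂ) × E n => y.2) (c, w)
        (hf.rho hT).differentiableAt.hasFDerivAt (hasFDerivAt_snd (𝕜 := ℂ) (p := (c, w)))
      have h6 : fderiv ℂ (fun y : (Fin a → Fin N → ℂ) × E n => A c ⬝ᵥ g (rho T y.2)) (c, w) = _ :=
        h5.fderiv
      rw [h6, ContinuousLinearMap.comp_apply, fderiv_rho hf hT, fderiv_eq_sum]
      refine Finset.sum_eq_zero fun l _ => ?_
      by_cases h : l ∈ T
      · simp [rho, h]
      · rw [hl l h, mul_zero]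
    rw [h4, fderiv_fun_const] at h3
    rw [h2.fderiv_eq, fderiv_fun_const, h7.fderiv, Function.comp_apply, hval, hr] at h1
    simp only [Pi.zero_apply, zero_apply, zero_dotProduct, zero_add] at h1 h3
    rw [← h3, add_zero] at h1
    exact h1.symm
  have hne : LinearMap.range (fderiv ℂ (ψ I k) (c, w) :
      ((Fin a → Fin N → ℂ) × E n) →ₗ[ℂ] (Fin a → Fin N → ℂ)) ≠ ⊤ := by
    intro e
    obtain ⟨q, hq⟩ := LinearMap.range_eq_top.1 e (Pi.single i0 (Pi.single k 1))
    have h1 := key q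
    rw [show fderiv ℂ (ψ I k) (c, w) q = Pi.single i0 (Pi.single k 1) from hq, hA,
      Finset.sum_eq_single i0 (fun i _ hi => by rw [Pi.single_eq_of_ne hi, smul_zero])
        (fun h => absurd (Finset.mem_univ _) h), Pi.single_eq_same, smul_dotProduct,
      single_dotProduct, one_mul] at h1
    exact mul_ne_zero hi0 hk h1
  simpa [Module.finrank_pi_fintype] using Submodule.finrank_lt hne

end Pool.Agent.HIR
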