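import Pool.Agent.K.MP_65ad7c_ag.C43
import Mathlib

-- part Pool.Agent.P.MP_65ad7c_ag.ULow
section

open Set Filter Topology Metric

noncomputable section
namespace Pool.Agent.PWV

variable {X : Cx} {N : ℕ}

namespace FC

/-- all costalks along a subvariety of dimension `< e` -/
theorem ulow_gam (Q : FC X (Fin N → ℂ)) {b : ℤ} (h : GW Q b) (e : ℕ) :
    ∀ V : Set (Fin N → ℂ), ZC V → Dim V e → (Q.gam V).Deg univ (b - e + 1) := by
  induction e with
  | zero =>
    intro V hV hd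
    have hs := Q.supp_gam hV.isClosed
    rw [dim_zero.1 hd] at hs ⊢
    simpa using (hs.deg_off (b - (0 : ℕ) + 1)).1
  | succ e ih =>
    intro V hV hd x _ j hj
    obtain ⟨V', hV', hd', -, hD⟩ := h V e hV hd
    have hc := hV'.isClosed
    refine tri_mid hc (empty_subset _) ?_ ?_
    · rw [Q.gam_gam hV.isClosed hc]
      exact ih _ (hV.inter hV') (hd'.mono inter_subset_right) x trivial j (by push_cast at hj; omega)
    · intro v hv hdv
      obtain ⟨O, hO, hx, hdO⟩ := (mem_loc_ZT _ hc.isOpen_compl).1 hdv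
      have hlow : (Q.gam V).Deg (O ∩ V'ᶜ) (b - e) := fun y hy i hi => by
        by_cases hyV : y ∈ V
        · exact hD y ⟨hyV, hy.2⟩ i hi
        · exact ((Q.supp_gam hV.isClosed).deg_off (b - e)).1 y hyV i hi
      obtain ⟨w, hw, hvw⟩ := hlow.ex_low (empty_subset _) (j := j) (by push_cast at hj; omega) v
        (mem_ZT.2 ⟨hv.1, fun y hy => hy.elim⟩) hdO
      exact ⟨w, mem_ZT.2 ⟨hw.1, fun y hy => hy.elim⟩,
        (mem_loc_ZT _ hc.isOpen_compl).2 ⟨O, hO, hx, hvw⟩⟩

theorem ulow_two {P : Set ℂ} (hP : P.Finite) (h0 : (0 : ℂ) ∉ P) (h1 : (1 : ℂ) ∉ P) :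
    ∃ z : ℂ, Disjoint (segment ℝ 0 z) P ∧ Disjoint (segment ℝ z 1) P := by
  obtain ⟨r, hr⟩ := ((hP.image fun p => p.im / (2 * p.re)).union
    (hP.image fun p => p.im / (2 * (1 - p.re)))).infinite_compl.nonempty
  refine ⟨⟨1 / 2, r⟩, disjoint_left.2 ?_, disjoint_left.2 ?_⟩
  · rintro _ ⟨s, t, -, -, -, rfl⟩ hp
    have ht : t ≠ 0 := by
      rintro rfl
      exact h0 (by simpa using hp)
    refine hr (Or.inl ⟨_, hp, ?_⟩)
    simp
    field_simp
  · rintro _ ⟨s, t, -, -, hst, rfl⟩ hp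
    obtain rfl : t = 1 - s := by linarith
    have hs : s ≠ 0 := by
      rintro rfl
      exact h1 (by simpa using hp)
    refine hr (Or.inr ⟨_, hp, ?_⟩)
    simp only [Complex.add_im, Complex.smul_im, Complex.add_re, Complex.smul_re, smul_eq_mul,
      Complex.one_im, Complex.one_re]
    rw [show (2 : ℝ) * (1 - (s * (1 / 2) + (1 - s) * 1)) = s by ring]
    field_simp
    ring

theorem ulow_line (g : MvPolynomial (Fin N) ℂ) (x u : Fin N → ℂ) :
    ∃ p : Polynomial ℂ, ∀ s, p.eval s = MvPolynomial.eval (x + s • u) g := by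
  induction g using MvPolynomial.induction_on with
  | C a => exact ⟨Polynomial.C a, fun s => by simp⟩
  | add a b ha hb =>
    obtain ⟨p, hp⟩ := ha
    obtain ⟨q, hq⟩ := hb
    exact ⟨p + q, fun s => by simp [hp, hq]⟩
  | mul_X a i ha =>
    obtain ⟨p, hp⟩ := ha
    exact ⟨p * (Polynomial.C (x i) + Polynomial.X * Polynomial.C (u i)),
      fun s => by simp [hp, mul_comm s]⟩

theorem ulow_chain (g : MvPolynomial (Fin N) ℂ) {x t : Fin N → ℂ}
    (hx : MvPolynomial.eval x g ≠ 0) (ht : MvPolynomial.eval t g ≠ 0) :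
    Relation.ReflTransGen (fun p q => segment ℝ p q ⊆ {y | MvPolynomial.eval y g = 0}ᶜ) x t := by
  obtain ⟨p, hp⟩ := ulow_line g x (t - x)
  have e0 : x + (0 : ℂ) • (t - x) = x := by simp
  have e1 : x + (1 : ℂ) • (t - x) = t := by simp
  have hp0 : p ≠ 0 := fun e => hx (by rw [← e0, ← hp, e, Polynomial.eval_zero])
  obtain ⟨z, h1, h2⟩ := ulow_two (Polynomial.finite_setOfPred_isRoot hp0)
    (fun h => hx (by rw [← e0, ← hp]; exact h)) (fun h => ht (by rw [← e1, ← hp]; exact h))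
  have key : ∀ a c : ℂ, Disjoint (segment ℝ a c) {s | p.IsRoot s} →
      segment ℝ (x + a • (t - x)) (x + c • (t - x)) ⊆ {y | MvPolynomial.eval y g = 0}ᶜ := by
    rintro a c h _ ⟨l, m, hl, hm, hlm, rfl⟩ hy
    refine disjoint_left.1 h ⟨l, m, hl, hm, hlm, rfl⟩ ((hp _).trans ?_)
    rw [← show _ = (0 : ℂ) from hy]
    congr 2
    obtain rfl : m = 1 - l := by linarith
    funext i
    simp
    ring
  have k1 := key _ _ h1
  have k2 := key _ _ h2
  rw [e0] at k1
  rw [e1] at k2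
  exact Relation.ReflTransGen.head k1 (Relation.ReflTransGen.single k2)

/-- restriction to a general point -/
theorem ulow_point (Q : FC X (Fin N → ℂ)) {b : ℤ} (h : GW Q b) :
    ∃ g : MvPolynomial (Fin N) ℂ, g ≠ 0 ∧ ∀ t, MvPolynomial.eval t g ≠ 0 →
      ∀ j : ℤ, j + 1 + N ≤ b → Q.Ex j univ {t} := by
  obtain ⟨g, hg, hp, hd⟩ := topW Q h
  refine ⟨g, hg, fun t ht j hj => ?_⟩
  have hc := (zc_zero g).isClosed
  refine tri_mid hc (subset_univ _)
    ((ulow_gam Q h N _ (zc_zero g) (dim_hyp hg)).ex_low (subset_univ _) (by omega)) ?_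
  rw [Ex, loc_ZT_open _ hc.isOpen_compl isOpen_univ, univ_inter,
    loc_ZT_sub _ hc.isOpen_compl (singleton_subset_iff.2 ht)]
  exact uc Q (singleton_subset_iff.2 ht) hp hd
    (fun x hx => ⟨t, rfl, ulow_chain g hx ht⟩) (by omega)

section cyl
variable {E : Type} [NormedAddCommGroup E] [NormedSpace ℝ E] [FiniteDimensional ℝ E]

/-- outside the disc bundle nothing changes -/
theorem ulow_cyl (Q : FC X (E × ℂ)) (hP : Q.PC (univ ×ˢ Db)ᶜ) {L : Set E} (hL : IsClosed L)
    (hc : Convex ℝ L) {x : E} (hx : x ∈ L) : (Q.loc (univ ×ˢ Db)ᶜ).Acyc univ (L ×ˢ univ) := by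
  have : ProperSpace E := FiniteDimensional.proper_real E
  have hDb : IsClosed Db := isClosed_closedBall
  have hF : IsClosed ((univ : Set E) ×ˢ Db) := isClosed_univ.prod hDb
  have key : ∀ K : Set E, IsCompact K → Convex ℝ K → x ∈ K → ∀ τ : ℂ,
      (Q.loc (univ ×ˢ Db)ᶜ).Acyc (K ×ˢ {τ}) {(x, τ)} := fun K hK hK' hxK τ =>
    prodloc Q isOpen_univ hDb.isOpen_compl hF.isOpen_compl (fun y _ τ => by simp)
      (hP.mono fun p hp h => hp.2 h.2) hK hK' (subset_univ _) hxK τ
  refine vb_tower _ (fun i : ℕ => closedBall x i ×ˢ closedBall (0 : ℂ) i) (fun i j hij => ?_)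
    (fun i => (isCompact_closedBall _ _).prod (isCompact_closedBall _ _)) (fun _ => subset_univ _)
    (relCl_of_isClosed (hL.prod isClosed_univ) (subset_univ _)) (fun p _ => ?_) Prod.snd
    continuous_snd.continuousOn fun i τ => ?_
  · have h : (i : ℝ) ≤ j := by exact_mod_cast hij
    exact prod_mono (closedBall_subset_closedBall h) (closedBall_subset_closedBall h)
  · obtain ⟨i, hi⟩ := exists_nat_gt (max (dist p.1 x) (dist p.2 0))
    refine ⟨i, mem_nhdsWithin_of_mem_nhds (prod_mem_nhds ?_ ?_)⟩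
    · exact closedBall_mem_nhds_of_mem ((le_max_left _ _).trans_lt hi)
    · exact closedBall_mem_nhds_of_mem ((le_max_right _ _).trans_lt hi)
  · by_cases hτ : τ ∈ closedBall (0 : ℂ) i
    · have hi : x ∈ closedBall x (i : ℝ) := mem_closedBall_self (by positivity)
      have e1 : (closedBall x (i : ℝ) ×ˢ closedBall (0 : ℂ) i) ∩ Prod.snd ⁻¹' {τ} =
          closedBall x i ×ˢ {τ} := by
        ext p
        exact ⟨fun h => ⟨h.1.1, h.2⟩, fun h => ⟨⟨h.1, by rw [show p.2 = τ from h.2]; exact hτ⟩, h.2⟩⟩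
      have e2 : L ×ˢ univ ∩ (closedBall x (i : ℝ) ×ˢ closedBall (0 : ℂ) i) ∩ Prod.snd ⁻¹' {τ} =
          (L ∩ closedBall x i) ×ˢ {τ} := by
        rw [inter_assoc, e1, prod_inter_prod, univ_inter]
      rw [e1, e2]
      exact (key _ (isCompact_closedBall _ _) (convex_closedBall _ _) hi τ).left
        (prod_mono_left inter_subset_right) (singleton_subset_iff.2 (mk_mem_prod ⟨hx, hi⟩ rfl))
        (key _ ((isCompact_closedBall _ _).inter_left hL) (hc.inter (convex_closedBall _ _))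
          ⟨hx, hi⟩ τ)
    · have e1 : (closedBall x (i : ℝ) ×ˢ closedBall (0 : ℂ) i) ∩ Prod.snd ⁻¹' {τ} = ∅ :=
        eq_empty_of_forall_notMem fun p h => hτ (by rw [← show p.2 = τ from h.2]; exact h.1.2)
      rw [inter_assoc, e1, inter_empty]
      exact fun n => ex_self _ n _

end cyl

/-- one step of the tower of projections -/
theorem ulow_step {n : ℕ} (Q : FC X (Fin (n + 1) → ℂ)) {b : ℤ} (h : GW Q b) :
    ∃ k : MvPolynomial (Fin n) ℂ, k ≠ 0 ∧ ∀ v, MvPolynomial.eval v k ≠ 0 →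
      ∃ Q' : FC X (Fin n → ℂ), GW Q' b ∧ ∀ L : Set (Fin n → ℂ), IsClosed L → Convex ℝ L →
        L.Nonempty → ∀ j, Q'.Ex j univ L → Q.Ex j univ (prj v ⁻¹' L) := by
  obtain ⟨g, hg, hp, hd⟩ := topW Q h
  obtain ⟨k, hk, hk'⟩ := monic_dir hg
  refine ⟨k, hk, fun v hv => ?_⟩
  obtain ⟨G, hG, hgG⟩ := hk' v hv
  obtain ⟨R, hR, h0, hb⟩ := rootb hG
  have hs := isHomeomorph_sc v hR h0
  have tr := tr_comap Q hs.isInducing
  have him : sc v R '' (Rt G R)ᶜ ⊆ {x | MvPolynomial.eval x g = 0}ᶜ := by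
    rintro _ ⟨p, hp, rfl⟩ e
    exact hp ((hgG p.1 _).1 e)
  have p0 : (Q.comap _ hs.isInducing).PC (Rt G R)ᶜ := (tr.pc hs.isEmbedding _).2 (hp.mono him)
  have d0 : (Q.comap _ hs.isInducing).Deg (Rt G R)ᶜ (b - (n + 1)) :=
    (tr.deg _ _).2 (hd.mono him (by push_cast; exact le_rfl))
  have hF : IsClosed ((univ : Set (Fin n → ℂ)) ×ˢ Db) := isClosed_univ.prod isClosed_closedBall
  refine ⟨_, stepW hG hR h0 hb _ p0 d0 (preW Q h hG hgG hs), fun L hL hc ⟨x, hx⟩ j hj => ?_⟩
  have hsup := supp_gam (Q.comap _ hs.isInducing) hF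
  rw [Ex, hsup.map_fst_ZT, hsup.map_fst_ZT] at hj
  have h1 : ((Q.comap _ hs.isInducing).gam (univ ×ˢ Db)).Ex j univ (L ×ˢ univ) := by
    rw [Ex, hsup.ZT_eq univ, hsup.ZT_eq (L ×ˢ univ), univ_inter, prod_inter_prod, inter_univ,
      univ_inter]
    exact hj
  have h2 := ulow_cyl (Q.comap _ hs.isInducing)
    (p0.mono (compl_subset_compl.2 fun p hp => ⟨trivial, ?_⟩)) hL hc hx j
  · have h3 := (tr j univ _ (subset_univ _)).1 (tri_mid hF (subset_univ _) h1 h2)
    rw [image_univ, hs.surjective.range_eq] at h3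
    have e : prj v ⁻¹' L = sc v R '' L ×ˢ univ := by
      ext y
      obtain ⟨p, rfl⟩ := hs.surjective y
      rw [hs.injective.mem_set_image, mem_preimage, prj_sc]
      simp
    rwa [e]
  · have h1 := hb p.1 _ hp
    rw [norm_mul, Complex.norm_real, Real.norm_eq_abs, abs_of_pos (h0 p.1)] at h1
    exact mem_closedBall_zero_iff.2 ((mul_lt_iff_lt_one_right (h0 p.1)).1 h1).le

end FC

end Pool.Agent.PWV
end
end

-- part Pool.Agent.P.MP_65ad7c_ag.UKu
section

/-! Kuratowski-Ulam and two genericity lemmas. -/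

open Set Filter Topology

noncomputable section
namespace Pool.Agent.PWV

section
variable {X Y C : Type} [TopologicalSpace X] [TopologicalSpace Y] [TopologicalSpace C]

theorem uku_closed [SecondCountableTopology Y] {F : Set (X × Y)} (hF : IsClosed F)
    (h0 : interior F = ∅) : ∀ᶠ x in residual X, interior {y | (x, y) ∈ F} = ∅ := by
  obtain ⟨b, hb, hne, hB⟩ := TopologicalSpace.exists_countable_basis Y
  have key : ∀ U ∈ b, ∀ᶠ x in residual X, ¬ ∀ y ∈ U, (x, y) ∈ F := by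
    intro U hU
    have hc : IsClosed {x | ∀ y ∈ U, (x, y) ∈ F} := by
      simp only [ofPred_forall]
      exact isClosed_iInter fun y => isClosed_iInter fun _ => hF.preimage (by fun_prop)
    refine residual_of_dense_open hc.isOpen_compl (interior_eq_empty_iff_dense_compl.1 ?_)
    refine eq_empty_of_forall_notMem fun x hx => ?_
    obtain ⟨y, hy⟩ := nonempty_iff_ne_empty.2 fun e : U = ∅ => hne (e ▸ hU)
    have h1 : (x, y) ∈ interior F := mem_interior_iff_mem_nhds.2 (mem_of_superset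
      (prod_mem_nhds (mem_interior_iff_mem_nhds.1 hx) ((hB.isOpen hU).mem_nhds hy))
      fun p hp => hp.1 p.2 hp.2)
    rw [h0] at h1
    exact h1
  filter_upwards [(eventually_countable_ball hb).2 key] with x hx
  refine eq_empty_of_forall_notMem fun y hy => ?_
  obtain ⟨U, hU, -, h2⟩ := hB.exists_subset_of_mem_open hy isOpen_interior
  exact hx U hU fun z hz => (h2.trans interior_subset) hz

theorem uku_lift [SecondCountableTopology Y] [SecondCountableTopology C] [BaireSpace C]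
    {φ : X × C → Y} (hφ : Continuous φ) (ho : ∀ᶠ c in residual C, IsOpenMap fun x => φ (x, c))
    {M : Set (C × Y)} (hM : IsMeagre M) :
    ∀ᶠ x in residual X, IsMeagre {c | (c, φ (x, c)) ∈ M} := by
  obtain ⟨S, h1, h2, h3⟩ := isMeagre_iff_countable_union_isNowhereDense.1 hM
  have key : ∀ t ∈ S, ∀ᶠ x in residual X, IsMeagre {c | (c, φ (x, c)) ∈ closure t} := by
    intro t ht
    have hc : IsClosed {p : X × C | (p.2, φ p) ∈ closure t} :=
      isClosed_closure.preimage (continuous_snd.prodMk hφ)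
    have h0 : interior {p : X × C | (p.2, φ p) ∈ closure t} = ∅ := by
      refine eq_empty_of_forall_notMem fun p hp => ?_
      obtain ⟨V, hV, W, hW, hVW⟩ := mem_nhds_prod_iff.1 (mem_interior_iff_mem_nhds.1 hp)
      obtain ⟨c, ⟨a1, a2⟩, a3⟩ := (dense_of_mem_residual
        (ho.and (uku_closed isClosed_closure (h1 t ht)))).inter_nhds_nonempty hW
      have a4 : φ (p.1, c) ∈ interior {y | (c, y) ∈ closure t} :=
        mem_interior_iff_mem_nhds.2 (mem_of_superset (a1.image_mem_nhds hV) (by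
          rintro _ ⟨x, hx, rfl⟩
          exact hVW (mk_mem_prod hx a3)))
      rw [a2] at a4
      exact a4
    filter_upwards [uku_closed hc h0] with x hx
    have hs : IsClosed {c | (c, φ (x, c)) ∈ closure t} := hc.preimage (f := fun c => (x, c))
      (by fun_prop)
    exact (hs.isNowhereDense_iff.2 hx).isMeagre
  filter_upwards [(eventually_countable_ball h2).2 key] with x hx
  refine (isMeagre_biUnion h2 hx).mono fun c hc => ?_
  obtain ⟨t, ht, hc'⟩ := h3 hc
  exact mem_iUnion₂.2 ⟨t, ht, subset_closure hc'⟩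

end

theorem uku_poly {σ : Type} [Finite σ] {h : MvPolynomial σ ℂ} (h0 : h ≠ 0) :
    ∀ᶠ v in residual (σ → ℝ), MvPolynomial.eval (fun i => (v i : ℂ)) h ≠ 0 := by
  have hc : IsClosed {v : σ → ℝ | MvPolynomial.eval (fun i => (v i : ℂ)) h = 0} :=
    isClosed_eq ((MvPolynomial.continuous_eval h).comp (by fun_prop)) continuous_const
  refine residual_of_dense_open hc.isOpen_compl (interior_eq_empty_iff_dense_compl.1 ?_)
  refine eq_empty_of_forall_notMem fun x hx => h0 ?_
  have h1 := mem_interior_iff_mem_nhds.1 hx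
  rw [nhds_pi] at h1
  obtain ⟨I, -, t, ht, hI⟩ := Filter.mem_pi.1 h1
  refine MvPolynomial.funext_set (fun i => Complex.ofReal '' t i)
    (fun i => (infinite_of_mem_nhds _ (ht i)).image Complex.ofReal_injective.injOn) fun y hy => ?_
  choose u hu hu' using fun i => hy i trivial
  rw [map_zero, ← show (fun i => (u i : ℂ)) = y from funext hu']
  exact hI fun i _ => hu i

theorem uku_det (a p : ℕ) : ∀ᶠ B in residual (Fin (a + p) → Fin a → ℝ),
    (Matrix.of fun i j => B (Fin.castAdd p i) j).det ≠ 0 := by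
  refine residual_of_dense_open (isOpen_ne_fun (Continuous.matrix_det ?_) continuous_const)
    fun B => ?_
  · exact continuous_matrix fun i j => by simp only [Matrix.of_apply]; fun_prop
  · have ht : Tendsto (fun (s : ℝ) i j => B i j + s * if i = Fin.castAdd p j then 1 else 0)
        (𝓝[≠] 0) (𝓝 B) := by
      refine Tendsto.mono_left (Continuous.tendsto' (by fun_prop) _ _ ?_) nhdsWithin_le_nhds
      simp
    refine mem_closure_of_tendsto ht ?_
    have hf := Matrix.finite_spectrum (-Matrix.of fun i j => B (Fin.castAdd p i) j)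
    filter_upwards [nhdsNE_le_cofinite 0 hf.compl_mem_cofinite] with s hs
    have h1 := (Matrix.isUnit_iff_isUnit_det _).1 (spectrum.notMem_iff.1 hs)
    refine fun e => h1.ne_zero (Eq.trans (congrArg Matrix.det ?_) e)
    ext i j
    simp [Matrix.algebraMap_matrix_apply, add_comm, Fin.ext_iff]

theorem uku_onto {a p : ℕ} {B : Fin (a + p) → Fin a → ℝ}
    (h : (Matrix.of fun i j => B (Fin.castAdd p i) j).det ≠ 0) :
    IsOpenMap fun v : Fin (a + p) → ℝ => -∑ j, v j • B j := by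
  have e : ∀ v : Fin (a + p) → ℝ, (-(Matrix.of B).vecMulLinear) v = -∑ j, v j • B j := fun v => by
    ext i
    simp [Matrix.vecMul, dotProduct]
  rw [← funext e]
  refine LinearMap.isOpenMap_of_finiteDimensional _ fun y => ?_
  obtain ⟨u, hu⟩ := Matrix.vecMul_surjective_iff_isUnit.2
    ((Matrix.isUnit_iff_isUnit_det _).2 h.isUnit) (-y)
  refine ⟨Fin.append u 0, ?_⟩
  rw [e, neg_eq_iff_eq_neg, ← hu, Fin.sum_univ_add]
  ext i
  simp [Matrix.vecMul, dotProduct]

end Pool.Agent.PWV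
end
end

-- part Pool.Agent.P.MP_65ad7c_ag.UTow
section

open Set Filter Topology Metric

noncomputable section
namespace Pool.Agent.PWV

open MvPolynomial

variable {K : Cx} {a n : ℕ}

/-- real systems of `a` affine equations in `n` unknowns, by columns -/
abbrev UC (a n : ℕ) := (Fin a → ℝ) × (Fin n → Fin a → ℝ)

/-- the complex solutions -/
def UL (c : UC a n) : Set (Fin n → ℂ) := {x | ∀ i, (c.1 i : ℂ) + ∑ j, (c.2 j i : ℂ) * x j = 0}

theorem ul_closed (c : UC a n) : IsClosed (UL c) := by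
  simp only [UL, ofPred_forall]
  exact isClosed_iInter fun i => isClosed_eq (by fun_prop) continuous_const

theorem ul_convex (c : UC a n) : Convex ℝ (UL c) := by
  intro x hx y hy s t _ _ hst i
  have h : (s : ℂ) + t = 1 := by exact_mod_cast hst
  simp only [Pi.add_apply, Pi.smul_apply, Complex.real_smul, mul_add, Finset.sum_add_distrib,
    mul_left_comm _ (s : ℂ), mul_left_comm _ (t : ℂ), ← Finset.mul_sum]
  linear_combination s * hx i + t * hy i - (c.1 i : ℂ) * h

theorem ul_step (v : Fin n → ℝ) (c : UC a n) :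
    UL ((c.1, Fin.cons (-∑ j, v j • c.2 j) c.2) : UC a (n + 1)) =
      prj (fun i => (v i : ℂ)) ⁻¹' UL c := by
  ext x
  refine forall_congr' fun i => Eq.congr_left ?_
  simp only [Fin.sum_univ_succ, Fin.cons_zero, Fin.cons_succ, prj, Pi.neg_apply, Finset.sum_apply,
    Pi.smul_apply, smul_eq_mul, mul_sub, Finset.sum_sub_distrib]
  push_cast
  rw [neg_mul, Finset.sum_mul, Finset.sum_congr rfl fun j _ =>
    show (v j : ℂ) * c.2 j i * x 0 = c.2 j i * (x 0 * v j) by ring]
  ring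

theorem ul_point (t : Fin a → ℝ) {B : Fin a → Fin a → ℝ} (h : (Matrix.of B).det ≠ 0) :
    UL ((-∑ j, t j • B j, B) : UC a a) = {fun i => (t i : ℂ)} := by
  have e : ∀ (x : Fin a → ℂ) i, (((-∑ j, t j • B j) i : ℝ) : ℂ) + ∑ j, (B j i : ℂ) * x j =
      Matrix.vecMul (x - fun i => (t i : ℂ)) (Complex.ofRealHom.mapMatrix (Matrix.of B)) i := by
    intro x i
    simp [Matrix.vecMul, dotProduct, sub_mul, mul_comm (x _), neg_add_eq_sub]
  ext x
  simp only [UL, mem_ofPred_eq, e, mem_singleton_iff]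
  refine ⟨fun H => sub_eq_zero.1 (Matrix.eq_zero_of_vecMul_eq_zero ?_ (funext H)), fun H i => ?_⟩
  · rw [← RingHom.map_det]
    exact Complex.ofReal_ne_zero.2 h
  · simp [H]

theorem udim_step {V : Set (Fin (n + 1) → ℂ)} {k : ℕ} (hd : Dim V k) :
    ∃ h : MvPolynomial (Fin n) ℂ, h ≠ 0 ∧ ∀ v, eval v h ≠ 0 → k ≤ n + 1 → ∀ L m,
      Dim (prj v '' V ∩ L) m → Dim (V ∩ prj v ⁻¹' L) m := by
  by_cases hk : k ≤ n + 1
  · obtain ⟨g, hg, hV⟩ := (hd.mono_nat hk).exists_poly
    obtain ⟨h, h0, hh⟩ := monic_dir hg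
    refine ⟨h, h0, fun v hv _ L m hm => ?_⟩
    obtain ⟨G, hG, hgG⟩ := hh v hv
    obtain ⟨f', hf'⟩ := shear_poly v
    refine ((dim_roots hG hm).image f').mono ?_
    rintro x ⟨h1, h2⟩
    refine ⟨Fin.cons (x 0) (prj v x), ⟨?_, ?_⟩, ?_⟩
    · rw [Fin.tail_cons]
      exact ⟨⟨x, h1, rfl⟩, h2⟩
    · rw [Fin.tail_cons, Fin.cons_zero, ← hgG, shear_prj]
      exact hV x h1
    · show (fun i => eval (Fin.cons (x 0) (prj v x) : Fin (n + 1) → ℂ) (f' i)) = x
      rw [← hf', Fin.tail_cons, Fin.cons_zero, shear_prj]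
  · exact ⟨1, one_ne_zero, fun _ _ h => absurd h hk⟩

theorem udim_par {p m : ℕ} {L : Set (Fin n → ℂ)} {G : Fin n → MvPolynomial (Fin p) ℂ}
    (h : L ⊆ range fun x i => eval x (G i)) (hm : p + 1 ≤ m) (V : Set (Fin n → ℂ)) :
    Dim (V ∩ L) m :=
  (((dim_univ p).image G).mono (inter_subset_right.trans (by rwa [image_univ]))).mono_nat hm

/-- restriction to a general real affine subspace -/
theorem utow (a p : ℕ) : ∀ M : Set (UC a (a + p)), IsMeagre M →
    ∀ (Q : FC K (Fin (a + p) → ℂ)) (b : ℤ), GW Q b →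
    ∀ (V : ℕ → Set (Fin (a + p) → ℂ)) (k : ℕ → ℕ), (∀ e, Dim (V e) (k e)) →
    ∃ c ∉ M, (UL c).Nonempty ∧ (∀ j : ℤ, j + 1 + a ≤ b → Q.Ex j univ (UL c)) ∧
      (∃ G : Fin (a + p) → MvPolynomial (Fin p) ℂ, UL c ⊆ range fun x i => eval x (G i)) ∧
      ∀ e, Dim (V e ∩ UL c) (k e - a) := by
  induction p with
  | zero =>
    intro M hM Q b hQ V k hV
    obtain ⟨g, hg, hg'⟩ := FC.ulow_point Q hQ
    have h1 : ∀ e, ∃ g : MvPolynomial (Fin a) ℂ, g ≠ 0 ∧ (k e ≤ a → ∀ x ∈ V e, eval x g = 0) := by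
      intro e
      by_cases h : k e ≤ a
      · exact ((hV e).mono_nat h).exists_poly.imp fun g hg => ⟨hg.1, fun _ => hg.2⟩
      · exact ⟨1, one_ne_zero, fun h' => absurd h' h⟩
    choose w hw hw' using h1
    obtain ⟨t, t1, t2, t3⟩ := (dense_of_mem_residual ((uku_lift
      (φ := fun q : (Fin (a + 0) → ℝ) × (Fin (a + 0) → Fin a → ℝ) => -∑ j, q.1 j • q.2 j)
      (by fun_prop) ((uku_det a 0).mono fun B hB => uku_onto hB)
      (hM.preimage_of_isOpenMap continuous_swap (Homeomorph.prodComm _ _).isOpenMap)).and ((uku_poly hg).and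
      (eventually_countable_forall.2 fun e => uku_poly (hw e))))).nonempty
    obtain ⟨B, b1, b2⟩ := (dense_of_mem_residual (inter_mem t1 (uku_det a 0))).nonempty
    have e := ul_point t (B := B) b2
    have hG : ({fun i => (t i : ℂ)} : Set (Fin a → ℂ)) ⊆
        range fun (x : Fin 0 → ℂ) i => eval x (C (t i : ℂ)) := by
      rintro _ rfl
      exact ⟨0, by simp⟩
    refine ⟨(-∑ j, t j • B j, B), b1, ?_⟩
    rw [show UL _ = _ from e]
    refine ⟨singleton_nonempty _, hg' _ t2, ⟨_, hG⟩, fun e => ?_⟩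
    by_cases h : k e ≤ a
    · exact (dim_empty _).mono fun x hx => t3 e (hx.2 ▸ hw' e h x hx.1)
    · exact udim_par hG (by omega) _
  | succ p ih =>
    intro M hM Q b hQ V k hV
    obtain ⟨g, hg, hg'⟩ := FC.ulow_step (n := a + p) Q hQ
    choose w hw hw' using fun e => udim_step (n := a + p) (hV e)
    have hM' : IsMeagre ((fun q : UC a (a + p) × (Fin a → ℝ) =>
        ((q.1.1, Fin.cons q.2 q.1.2) : UC a (a + p + 1))) ⁻¹' M) :=
      hM.preimage_of_isOpenMap (by fun_prop) (IsOpenMap.of_inverse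
        (f' := fun c => ((c.1, fun j => c.2 j.succ), c.2 0)) (by fun_prop)
        (fun c => Prod.ext rfl (Fin.cons_self_tail _)) fun c => rfl)
    obtain ⟨v, v1, v2, v3⟩ := (dense_of_mem_residual ((uku_lift
      (φ := fun q : (Fin (a + p) → ℝ) × UC a (a + p) => -∑ j, q.1 j • q.2.2 j) (by fun_prop)
      (((tendsto_residual_of_isOpenMap continuous_snd isOpenMap_snd).eventually
        (uku_det a p)).mono fun B hB => uku_onto hB) hM').and ((uku_poly hg).and
      (eventually_countable_forall.2 fun e => uku_poly (hw e))))).nonempty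
    obtain ⟨Q', hQ', hE⟩ := hg' _ v2
    obtain ⟨f, hf⟩ := prj_poly fun i => (v i : ℂ)
    obtain ⟨c, c1, c2, c3, ⟨G, hG⟩, c4⟩ := ih _ v1 Q' b hQ'
      (fun e => prj (fun i => (v i : ℂ)) '' V e) k fun e => by
        rw [funext hf]
        exact (hV e).image f
    have hG' : prj (fun i => (v i : ℂ)) ⁻¹' UL c ⊆ range fun (x : Fin (p + 1) → ℂ) i =>
        eval x ((Fin.cons (X 0) fun i => rename Fin.succ (G i) + X 0 * C (v i : ℂ) :
          Fin (a + p + 1) → MvPolynomial (Fin (p + 1)) ℂ) i) := by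
      intro x hx
      obtain ⟨y, hy⟩ := hG hx
      refine ⟨Fin.cons (x 0) y, ?_⟩
      rw [← shear_prj (fun i => (v i : ℂ)) x, ← hy]
      funext i
      refine Fin.cases ?_ (fun i => ?_) i <;> simp [shear, eval_rename, Function.comp_def]
    refine ⟨(c.1, Fin.cons (-∑ j, v j • c.2 j) c.2), c1, ?_⟩
    rw [show UL _ = _ from ul_step v c]
    refine ⟨c2.preimage fun x => ⟨_, prj_shear _ x 0⟩, fun j hj =>
      hE _ (ul_closed c) (ul_convex c) c2 j (c3 j hj), ⟨_, hG'⟩, fun e => ?_⟩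
    by_cases h : k e ≤ a + p + 1
    · exact hw' e _ (v3 e) h _ _ (c4 e)
    · exact udim_par hG' (by omega) _

theorem utow' (h : a ≤ n) {M : Set (Fin a → Fin (n + 1) → ℝ)} (hM : IsMeagre M)
    {Q : FC K (Fin n → ℂ)} {b : ℤ} (hQ : GW Q b) {V : ℕ → Set (Fin n → ℂ)} {k : ℕ → ℕ}
    (hV : ∀ e, Dim (V e) (k e)) : ∃ c ∉ M, ∀ L, L = {y : Fin n → ℂ | ∀ i,
      (fun l => (c i l : ℂ)) ⬝ᵥ (Fin.cons 1 y : Fin (n + 1) → ℂ) = 0} →
      (∀ j : ℤ, j + 1 + a ≤ b → Q.Ex j univ L) ∧ ∀ e, Dim (V e ∩ L) (k e - a) := by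
  obtain ⟨p, rfl⟩ := Nat.exists_eq_add_of_le h
  obtain ⟨c, c1, -, c2, -, c3⟩ := utow a p _ (hM.preimage_of_isOpenMap
    (f := fun (c : UC a (a + p)) i => (Fin.cons (c.1 i) fun j => c.2 j i : Fin (a + p + 1) → ℝ))
    (by fun_prop) (IsOpenMap.of_inverse (f' := fun c => (fun i => c i 0, fun j i => c i j.succ))
      (by fun_prop) (fun c => funext fun i => Fin.cons_self_tail _) fun c => rfl)) Q b hQ V k hV
  refine ⟨_, c1, fun L hL => ?_⟩
  obtain rfl : L = UL c := by
    rw [hL]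
    ext y
    simp [UL, dotProduct, Fin.sum_univ_succ]
  exact ⟨c2, c3⟩

end Pool.Agent.PWV
end
end
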