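import Pool.Agent.K.MP_65ad7c_ag.C43
import Pool.Agent.K.MP_65ad7c_ag.C41
import Pool.Agent.K.MP_65ad7c_ag.C66
import Pool.Agent.K.MP_65ad7c_ag.C113
import Pool.Agent.K.MP_65ad7c_ag.C114

open Set Filter Topology TopologicalSpace
open scoped ComplexConjugate
open Pool.Agent.HT (Amb proj cj IsChart IsSNC)
open Pool.Agent.PWV (ZC ZI Dim FC GW)
open Pool.Agent.PWD (IsVar IsStrat DimLT Data)

noncomputable section
namespace Pool.Agent.HIR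

section
variable {n N : ℕ} {S : Sp n} {ph : Amb S.M → Amb (N + 1)}

theorem ubert (hph : HolP n S.X ph) (hr : ∀ x, ph (cj S.M x) = cj (N + 1) (ph x))
    {V : ℕ → Set (Fin N → ℂ)} (hV : ∀ e, ZC (V e)) {k : ℕ → ℕ} (hk : ∀ e, Dim (V e) (k e)) {a : ℕ}
    (ha : a ≤ N) {K : PWV.Cx} {F : FC K (Fin N → ℂ)} {b : ℤ} (hF : GW F b) :
    ∃ (c : Fin (a + 1) → Fin (N + 1) → ℂ) (D : ℕ → Set (Amb S.M)), DivOK S D (S.r + (a + 1)) ∧
      (∀ j < S.r, D j = S.D j) ∧ (∀ i : Fin (a + 1), D (S.r + i) = hyp S.X ph (c i)) ∧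
      (∀ e, Dim (V e ∩ {y | ∀ i, c i ⬝ᵥ (Fin.cons 1 y : Fin (N + 1) → ℂ) = 0}) (k e - (a + 1))) ∧
      (∀ e, Dim (V e ∩ {y | ∀ i : Fin a, c i.castSucc ⬝ᵥ (Fin.cons 1 y : Fin (N + 1) → ℂ) = 0})
        (k e - a)) ∧ ∀ j : ℤ, j + 1 + a ≤ b → F.Ex j univ
          {y | ∀ i : Fin a, c i.castSucc ⬝ᵥ (Fin.cons 1 y : Fin (N + 1) → ℂ) = 0} := by
  obtain ⟨u, u1, u2⟩ := PWV.utow' ha (usard_meagre (thin_ndg (a := a) hph)) hF hk
  obtain ⟨c, hc⟩ : ∃ c : Fin a → Fin (N + 1) → ℂ, c = fun i l => (u i l : ℂ) := ⟨_, rfl⟩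
  obtain ⟨u3, u4⟩ := u2 {y | ∀ i, c i ⬝ᵥ (Fin.cons 1 y : Fin (N + 1) → ℂ) = 0} (by rw [hc])
  obtain ⟨D, h, h1, h2, -⟩ := Ndg.iter (c := c) (hc ▸ not_not.1 u1) hph hr
    (fun i => by rw [hc]; funext l; simp) a le_rfl
  have hL : ZC {y : Fin N → ℂ | ∀ i, c i ⬝ᵥ (Fin.cons 1 y : Fin (N + 1) → ℂ) = 0} := by
    choose δ hδ using fun i => lin_XM3 (c i)
    exact ⟨range δ, by simp only [forall_mem_range, hδ]⟩
  obtain ⟨c0, hc0, hn⟩ := exists_real ((thin_tv (S := h.sp) (ph := ph) hph).union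
    (Weil.thin_iUnion fun e : ℕ => thin_dim ((hV e).inter hL) (u4 e)))
  have h' := Tv.add (S := h.sp) (not_not.1 fun hh => hn (Or.inl hh)) hph hr hc0
  refine ⟨Fin.snoc c c0, _, ⟨h'.snc, h'.fin, h'.cjD⟩, fun j hj => ?_, fun i => ?_, fun e => ?_,
    by simpa only [Fin.snoc_castSucc] using u4, by simpa only [Fin.snoc_castSucc] using u3⟩
  · exact (Function.update_of_ne (by dsimp only; omega) _ _).trans (h1 j hj)
  · refine Fin.lastCases ?_ (fun i => ?_) i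
    · rw [Fin.snoc_last]
      exact Function.update_self ..
    · rw [Fin.snoc_castSucc]
      exact (Function.update_of_ne (by simp [i.2.ne]) _ _).trans (h2 i i.2)
  · refine (not_not.1 fun hh => hn (Or.inr (mem_iUnion.2 ⟨e, hh⟩)) : Dim _ _).mono fun y hy => ?_
    exact ⟨⟨hy.1, fun i => by simpa using hy.2 i.castSucc⟩, by simpa using hy.2 (Fin.last a)⟩

/-- the divisors of the model -/
theorem exists_geo' {H : MvPolynomial (Fin (N + 1)) ℂ} (hph : HolP n S.X ph)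
    (hr : ∀ x, ph (cj S.M x) = cj (N + 1) (ph x))
    (hD : ∀ x ∈ S.X, (∃ j, x ∈ S.D j) ↔ ph x ∉ Wo H) (hA : LocU S {x | ph x (0, 0) = 0})
    {V : ℕ → Set (Fin N → ℂ)} (hV : ∀ e, ZC (V e)) {k : ℕ → ℕ} (hk : ∀ e, Dim (V e) (k e)) {a : ℕ}
    (ha : a ≤ N) {K : PWV.Cx} {F : FC K (Fin N → ℂ)} {b : ℤ} (hF : GW F b) :
    ∃ (r : ℕ) (D : Fin r → Set (Amb S.M)) (al be : Finset (Fin r)) (h : Fin (a + 1) ↪ Fin r)
      (c : Fin (a + 1) → Fin (N + 1) → ℂ), IsSNC n S.X D ∧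
      (∀ i, MapsTo (cj S.M) (D i) (D i)) ∧ Disjoint al be ∧ (∀ i, h i ∉ al ∪ be) ∧
      (∀ x ∈ S.X, x ∈ ⋃ i ∈ al, D i ↔ ph x (0, 0) = 0) ∧
      (∀ x ∈ S.X, ph x (0, 0) ≠ 0 → (x ∈ ⋃ i ∈ be, D i ↔ ph x ∉ Wo H)) ∧
      (∀ i, D (h i) = hyp S.X ph (c i)) ∧
      (∀ e, Dim (V e ∩ {y | ∀ i, c i ⬝ᵥ (Fin.cons 1 y : Fin (N + 1) → ℂ) = 0}) (k e - (a + 1))) ∧
      (∀ e, Dim (V e ∩ {y | ∀ i : Fin a, c i.castSucc ⬝ᵥ (Fin.cons 1 y : Fin (N + 1) → ℂ) = 0})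
        (k e - a)) ∧ ∀ j : ℤ, j + 1 + a ≤ b → F.Ex j univ
          {y | ∀ i : Fin a, c i.castSucc ⬝ᵥ (Fin.cons 1 y : Fin (N + 1) → ℂ) = 0} := by
  classical
  have hc : MapsTo (cj S.M) {x | ph x (0, 0) = 0} {x | ph x (0, 0) = 0} := fun x hx => by
    have hx' : ph x (0, 0) = 0 := hx
    show ph (cj S.M x) (0, 0) = 0
    rw [hr, cj_apply, hx', map_zero]
  obtain ⟨D0, r0, al0, h0, hu, hal⟩ := exists_split S hA hc
  obtain ⟨c, D, h, h1, h2, h3, h4, h5⟩ := ubert (S := h0.sp) (ph := ph) hph hr hV hk ha hF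
  have h1' : ∀ j < r0, D j = D0 j := h1
  have hlt : ∀ {j x}, x ∈ D0 j → j < r0 := fun {j x} hx => by
    by_contra hj
    rw [h0.fin j (not_lt.1 hj)] at hx
    exact hx
  refine ⟨r0 + (a + 1), fun i => D i, Finset.univ.filter fun i => (i : ℕ) < r0 ∧ (i : ℕ) ∈ al0,
    Finset.univ.filter fun i => (i : ℕ) < r0 ∧ (i : ℕ) ∉ al0, Fin.natAddEmb r0, c,
    snc_comp_XM5 h.snc Fin.val_injective, fun i => h.cjD _, ?_, fun i => ?_, fun x hx => ?_,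
    fun x hx hx0 => ?_, h2, h3, h4, h5⟩
  · rw [Finset.disjoint_filter]
    exact fun i _ hi hi' => hi'.2 hi.2
  · simp
  · refine Iff.trans ?_ (hal x hx).symm
    simp only [mem_iUnion, Finset.mem_filter, Finset.mem_univ, true_and, exists_prop]
    constructor
    · rintro ⟨i, ⟨hi, hi'⟩, hxi⟩
      exact ⟨i, hi', h1' i hi ▸ hxi⟩
    · rintro ⟨j, hj, hxj⟩
      have := hlt hxj
      exact ⟨⟨j, by omega⟩, ⟨this, hj⟩, (h1' j this).symm ▸ hxj⟩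
  · rw [← hD x hx, ← hu x]
    simp only [mem_iUnion, Finset.mem_filter, Finset.mem_univ, true_and, exists_prop]
    constructor
    · rintro ⟨i, ⟨hi, -⟩, hxi⟩
      exact ⟨i, h1' i hi ▸ hxi⟩
    · rintro ⟨j, hxj⟩
      have := hlt hxj
      exact ⟨⟨j, by omega⟩, ⟨this, fun hj => hx0 ((hal x hx).2 ⟨j, hj, hxj⟩)⟩,
        (h1' j this).symm ▸ hxj⟩

end

variable {R : Type} [CommRing R] [Algebra ℂ R] {Y : Set (R → ℂ)} {N d : ℕ} {f : Fin N → R}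
  {U : ℕ → Opens Y}

/-- models exist -/
theorem exists_model' (hY : IsVar Y) (hf : Algebra.adjoin ℂ (range f) = ⊤) [Nonempty Y]
    {Sr : (R → ℂ) → (R → ℂ) → Prop}
    (hS : ∀ y y' : Y, PWV.emb f y' = star (PWV.emb f y) → Sr y.1 y'.1) {S : Sp d}
    {ph : Amb S.M → Amb (N + 1)} {H : MvPolynomial (Fin (N + 1)) ℂ}
    (hm : Md d S.X ph (range (PWV.emb (Y := Y) f)) H)
    (hD : ∀ x ∈ S.X, (∃ j, x ∈ S.D j) ↔ ph x ∉ Wo H) (hA : LocU S {x | ph x (0, 0) = 0})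
    (hU : IsStrat d U) (h1 : ∀ y, y ∈ U 1 ↔ ev H (Fin.cons 1 (PWV.emb f y)) ≠ 0) (m : ℕ)
    (hd : d ≤ N) {K : PWV.Cx} {F : FC K (Fin N → ℂ)} {b : ℤ} (hF : GW F b) :
    ∃ Q : Data Y (d - m), Q.IsModel Sr d m U ∧
      (∀ e, DimLT ((U e : Set Y)ᶜ ∩ Q.Z) (m + 1 - e)) ∧ ∃ L, PWV.emb f ⁻¹' L = Q.Z ∧
        ∀ j : ℤ, j + 1 + (d - m : ℕ) ≤ b → F.Ex j univ L := by
  obtain ⟨r, D, al, be, h, c, snc, cjD, dj1, dj2, hal, hbe, hh, dm1, dm2, ex⟩ :=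
    exists_geo' hm.hol hm.rl hD hA (V := fun e => PWV.emb f '' (U e : Set Y)ᶜ)
      (fun e => PWV.zc_image hY hf (hU.alg e)) (k := fun e => d + 1 - e)
      (fun e => PWV.dim_image hY (hU.dim e)) (a := d - m) (by omega) hF
  have he : IsClosedEmbedding (PWV.emb (Y := Y) f) := hY.closedEmb hf
  obtain ⟨π, hπ, hπ'⟩ : ∃ π : Amb S.M → Y,
      (∀ x ∈ S.X, ph x (0, 0) ≠ 0 → PWV.emb f (π x) = deh (ph x)) ∧
      ∀ x ∈ S.X, ph x (0, 0) ≠ 0 → ph x = aff (PWV.emb f (π x)) := by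
    have a : ∀ x ∈ S.X, ph x (0, 0) ≠ 0 →
        PWV.emb f (Function.invFun (PWV.emb (Y := Y) f) (deh (ph x))) = deh (ph x) :=
      fun x hx h0 => Function.invFun_eq (hm.im x hx h0)
    exact ⟨fun x => Function.invFun (PWV.emb (Y := Y) f) (deh (ph x)), a, fun x hx h0 => by
      rw [a x hx h0, aff_deh (hm.hol.prj S.mf hx) h0]⟩
  let Q : Data Y (d - m) := ⟨N, f, c, S.M, r, S.X, D, al, be, h, π, ph⟩
  have pre : ∀ {W : Set Y} {x : Amb S.M}, x ∈ Q.pre W ↔ x ∈ S.X ∧ ph x (0, 0) ≠ 0 ∧ π x ∈ W :=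
    fun {W x} => ⟨fun hx => ⟨hx.1.1, fun h0 => hx.1.2 ((hal x hx.1.1).2 h0), hx.2⟩,
      fun hx => ⟨⟨hx.1, fun h0 => hx.2.1 ((hal x hx.1).1 h0)⟩, hx.2.2⟩⟩
  have wo : ∀ x ∈ S.X, ph x (0, 0) ≠ 0 → (π x ∈ U 1 ↔ ph x ∈ Wo H) := fun x hx h0 => by
    rw [h1, ← aff_Wo, ← hπ' x hx h0]
  refine ⟨Q, ⟨hf, fun e => ?_, snc, S.cjX, cjD, ⟨dj1, dj2⟩, ?_, ?_, ?_, ?_, ?_, ?_,
    hm.hol.cont S.mf, ?_, ?_, ?_⟩, fun e => ?_, _, rfl, ex⟩
  · refine PWV.dimLT_of_dim hY hf (((dm1 e).mono ?_).mono_nat (by omega))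
    rintro _ ⟨y, hy, rfl⟩
    exact ⟨⟨y, hy.1, rfl⟩, hy.2⟩
  · rw [he.isInducing.continuousOn_iff]
    refine ContinuousOn.congr (f := fun x => deh (ph x)) (fun x hx => ?_) fun x hx => ?_
    · exact (cont_deh (pre.1 hx).2.1).comp_continuousWithinAt
        ((hm.hol.cont S.mf x (pre.1 hx).1).mono fun y hy => (pre.1 hy).1)
    · exact hπ x (pre.1 hx).1 (pre.1 hx).2.1
  · intro y _
    obtain ⟨x, hx, e⟩ := hm.surj _ ⟨y, rfl⟩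
    have h0 : ph x (0, 0) ≠ 0 := by
      rw [e]
      exact aff_zero _
    refine ⟨x, pre.2 ⟨hx, h0, trivial⟩, he.injective ?_⟩
    show PWV.emb f (π x) = _
    rw [hπ x hx h0, e, deh_aff]
  · intro x hx x' hx' e
    obtain ⟨a1, a2, a3⟩ := pre.1 hx
    obtain ⟨b1, b2, b3⟩ := pre.1 hx'
    refine hm.inj ⟨a1, (wo x a1 a2).1 a3⟩ ⟨b1, (wo x' b1 b2).1 b3⟩ ?_
    have e' : π x = π x' := e
    rw [hπ' x a1 a2, hπ' x' b1 b2, e']
  · intro x hx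
    obtain ⟨a1, a2, -⟩ := pre.1 hx
    exact (wo x a1 a2).not.trans (hbe x a1 a2).symm
  · intro x hx
    obtain ⟨a1, a2, -⟩ := pre.1 hx
    have b2 : ph (cj S.M x) (0, 0) ≠ 0 := by
      rw [hm.rl, cj_apply]
      exact (map_ne_zero _).2 a2
    refine hS (π x) (π (cj S.M x)) ?_
    rw [hπ _ (S.cjX a1) b2, hπ x a1 a2, hm.rl, deh_cj]
  · intro O g hg j
    refine DifferentiableOn.congr (f := fun z => deh (ph (proj (g z))) j) (fun z hz => ?_)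
      fun z hz => congrFun (hπ _ (pre.1 hz.2).1 (pre.1 hz.2).2.1) j
    obtain ⟨G, hG, -, e⟩ := hm.hol (proj ∘ g) z _ ⟨O, g, hg, rfl, hz.1, rfl⟩
    have h0 : G z 0 ≠ 0 := fun h0 => (pre.1 hz.2).2.1 (by
      have e0 : ph ((proj ∘ g) z) = proj (G z) := e.self_of_nhds
      rw [e0]
      simp [proj, h0])
    have an : ∀ i, AnalyticAt ℂ (fun w => G w i) z := fun i => analyticAt_pi_iff.1 hG i
    refine DifferentiableAt.differentiableWithinAt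
      (((an j.succ).div (an 0) h0).differentiableAt.congr_of_eventuallyEq ?_)
    filter_upwards [e, (an 0).continuousAt.eventually_ne h0] with w e1 e2
    have e0 : ph (proj (g w)) = proj (G w) := e1
    rw [e0, deh_proj e2]
    rfl
  · intro x hx
    exact hπ' x (pre.1 hx).1 (pre.1 hx).2.1
  · intro x hx
    obtain ⟨i, -, hi⟩ := mem_iUnion₂.1 hx
    exact (hal x (snc.sub i hi)).1 hx
  · intro i x hx
    show x ∈ D (h i) ↔ _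
    rw [hh]
    exact ⟨fun a => a.2, fun a => ⟨hx, a⟩⟩
  · refine PWV.dimLT_of_dim hY hf (((dm2 e).mono ?_).mono_nat (by omega))
    rintro _ ⟨y, hy, rfl⟩
    exact ⟨⟨y, hy.1, rfl⟩, hy.2⟩

end Pool.Agent.HIR
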