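import Pool.Agent.K.MP_65ad7c_ag.C43
import Pool.Agent.K.MP_65ad7c_ag.C111
import Pool.Agent.K.MP_65ad7c_ag.C115
import Pool.Agent.P.MP_65ad7c_ag.UDef

-- part Pool.Agent.P.MP_65ad7c_ag.UIC
section

open Set Filter Topology TopologicalSpace
open Pool.Agent.PWD

noncomputable section
namespace Pool.Agent.PWV

variable {R : Type} [CommRing R] [Algebra ℂ R] {Y : Set (R → ℂ)} {N d : ℕ} {f : Fin N → R}
  {U : ℕ → Opens Y} {I : PWD.Cx Y} {one : Sec I 0 (U 1)}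
  (hY : IsVar Y) (hf : Algebra.adjoin ℂ (range f) = ⊤) (hI : IsIC U I one)
include hY hf

theorem uic_gw (hU : IsStrat d U) : GW (icQ f hI) d := by
  have hz := ic_zc hY hf hU
  have key : ∀ k : ℕ, (∃ c, d = k + c) ∨ icF f U (d + 1 - (k + 1)) \ icF f U (d + 1 - k) = ∅ :=
    fun k => by
      rcases Nat.lt_or_ge d k with h | h
      · rw [show d + 1 - (k + 1) = d + 1 - k by omega]
        exact Or.inr Set.sdiff_self
      · exact Or.inl ⟨d - k, by omega⟩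
  refine FC.stratW _ (fun k => icF f U (d + 1 - k)) (fun k => hz _)
    (fun k => (dim_image hY (hU.dim _)).mono_nat (by omega)) (fun k => ?_) (D := d + 1)
    ((q_supp hI.inj (ic_emb hY hf)).mono ?_) (fun k => ?_) (fun k => ?_)
  · rcases key k with ⟨c, rfl⟩ | h
    · obtain ⟨𝒢, h1, h2⟩ := strat_chart hY hf hU (c := c) (k := k) (by omega)
      refine ⟨𝒢, h1, ?_⟩
      rw [show k + c + 1 - (k + 1) = c by omega, show k + c + 1 - k = c + 1 by omega, ic_diff hY hf]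
      rintro _ ⟨y, hy, rfl⟩
      exact h2 y hy
    · exact ⟨∅, finite_empty, fun x hx => (h ▸ hx : x ∈ (∅ : Set _)).elim⟩
  · rintro _ ⟨y, rfl⟩
    exact ⟨y, by simp [hU.zero], rfl⟩
  · rcases key k with ⟨c, rfl⟩ | h
    · rw [show k + c + 1 - (k + 1) = c by omega, show k + c + 1 - k = c + 1 by omega]
      exact ic_gam_pc hY hf hI c
    · rw [h]
      exact fun γ _ _ h3 => (h3 ⟨le_rfl, zero_le_one⟩).elim
  · rcases key k with ⟨c, rfl⟩ | h
    · rw [show k + c + 1 - (k + 1) = c by omega, show k + c + 1 - k = c + 1 by omega]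
      rcases Nat.eq_zero_or_pos c with rfl | hc
      · exact fun x _ j hj => FC.ex_neg _ (by push_cast at hj; omega) _ _
      · exact (ic_gam_deg hY hf hI hc).mono subset_rfl (by push_cast; omega)
    · rw [h]
      exact fun x hx => hx.elim

theorem uic_inj {m j : ℕ} {L : Set (Fin N → ℂ)} (h : (icQ f hI).Ex (m - 1) univ L)
    {α : Sec I m ⊤} (hα : dd m (m + 1) α = 0) {O : Opens Y} (hO : emb f ⁻¹' L ⊆ (O : Set Y)) {t : Sec I j O}
    (ht : rs le_top α = dd j m t) : ∃ (k : ℕ) (s : Sec I k ⊤), α = dd k m s := by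
  have hs := q_supp hI.inj (ic_emb hY hf)
  rw [FC.Ex, hs.ZT_eq univ, hs.ZT_eq L, univ_inter, ← image_preimage_eq_inter_range,
    ← image_univ] at h
  obtain ⟨u, rfl⟩ := vf_flabby (hI.inj _) t
  obtain ⟨O', h0, k, s, h1, -, h2⟩ := dv_near (O := ⊤) (s := α - dd j m u) hY hf hI h subset_rfl
    (subset_univ _) ⟨supp_top.2 fun y hy => ⟨O, hO (not_not.1 hy), by
      rw [map_sub, vf_rs_dd, ht, sub_self]⟩, by rw [map_sub, hα, vf_dd_dd, sub_self]⟩
  obtain rfl : O' = ⊤ := top_le_iff.1 h1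
  rw [vf_rs_self, eq_sub_iff_add_eq] at h2
  by_cases hj : j + 1 = m
  · by_cases hk : k + 1 = m
    · obtain rfl : k = j := by omega
      exact ⟨k, s + u, by rw [map_add, h2]⟩
    · exact ⟨j, u, by rw [← h2, vf_dd_ne hk, zero_add]⟩
  · exact ⟨k, s, by rw [← h2, vf_dd_ne hj, add_zero]⟩

end Pool.Agent.PWV
end
end

-- part Pool.Agent.P.MP_65ad7c_ag.UFin
section

open Set Filter Topology TopologicalSpace
open scoped Manifold ContDiff
open Pool.Agent.PW Pool.Agent.PWD Pool.Agent.HIR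

noncomputable section
namespace Pool.Agent.PWF

section
variable {R : Type} [CommRing R] [Algebra ℂ R] {N d : ℕ} {f : Fin N → R} {P : Ideal R}

theorem wq_all' (hP : P.IsPrime) (hf : Algebra.adjoin ℂ (range f) = ⊤)
    {Sr : (R → ℂ) → (R → ℂ) → Prop}
    (hS : ∀ y y' : Pts P, PWV.emb f y' = star (PWV.emb f y) → Sr y.1 y'.1)
    (hs : ∀ y : Pts P, ∃ y' : Pts P, PWV.emb f y' = star (PWV.emb f y)) {U : ℕ → Opens (Pts P)}
    (hU : IsStrat d U) (h1 : (U 1).1.Nonempty) {I : Cx (Pts P)} {one : Sec I 0 (U 1)}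
    (hI : IsIC U I one) :
    ∃ (U' : ℕ → Opens (Pts P)) (one' : Sec I 0 (U' 1)), IsStrat d U' ∧ IsIC U' I one' ∧
      ∀ m, ∃ Q : Data (Pts P) (d - m), Model Q Sr d m (fun e => U' e) ∧
        (∀ α : Glo I m, Coc univ α → α ∈ WQ one' Q (2 * m)) ∧
        Inj I {y | ∀ i : Fin (d - m), Q.c i.castSucc ⬝ᵥ Q.vec y = 0} m := by
  have hY : IsVar (Pts P) := ⟨P, rfl⟩
  have hr := PWV.range_emb hf P
  generalize hq : P.comap (MvPolynomial.aeval f : MvPolynomial (Fin N) ℂ →ₐ[ℂ] R) = p at hr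
  have hp : p.IsPrime := hq ▸ Ideal.comap_isPrime _ _
  have hs' : ∀ y ∈ PWV.ZI p, star y ∈ PWV.ZI p := by
    rw [← hr]
    rintro _ ⟨y, rfl⟩
    exact hs y
  have hd := PWV.dim_range (f := f) hY hU
  have hd' := PWV.not_dim_range hY hf hU h1
  have hdN : d ≤ N := not_lt.1 fun h => hd' (((PWV.dim_univ N).mono (subset_univ _)).mono_nat h)
  rw [hr] at hd hd'
  obtain ⟨h₀, ⟨y₀, hy₀⟩, h0⟩ := PWV.exists_eqn hY hf hU h1
  have hy : PWV.emb f y₀ ∈ PWV.ZI p := hr ▸ mem_range_self y₀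
  obtain ⟨S, ph, H, hH, hN, hdv, hr0, hmd⟩ := exists_md hp hs' hd hd' fun hm => hy₀ (hy h₀ hm)
  obtain ⟨S', ph', hmd', hD, hA⟩ := exists_rb hH hmd hr0
  obtain ⟨h, hh, hdim⟩ := hN.drop hp hd
  rw [← hr] at hdim hmd'
  obtain ⟨U', hU', hle, hU1, hF⟩ := PWV.exists_refine hY hf hU
    (fun y hy => (hh _).trans (hdv _ (h0 y hy))) hdim
  have hI' := hI.refine hU hU' hle hF
  have : Nonempty (Pts P) := ⟨y₀⟩
  refine ⟨U', _, hU', hI', fun m => ?_⟩
  obtain ⟨Q, hQ, hZ, L, hL, hE⟩ := exists_model' hY hf hS hmd' hD hA hU' (fun y => by rw [hU1, hh])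
    m hdN (PWV.uic_gw hY hf hI' hU')
  obtain ⟨u, hu⟩ := hQ.exists_nat hY hI'
  refine ⟨Q, model_iff.2 hQ, fun α hα => ?_, fun α hα O j t hO ht => ?_⟩
  · obtain ⟨η, hη⟩ := hQ.exists_rp hY hu hU' hI' hZ hα.2
    exact wq_iff.2 ⟨hα.2, u, η, hu, hη, hQ.inW_top hη⟩
  rcases le_or_gt m d with hm | hm
  · exact PWV.uic_inj hY hf hI' (hE _ (by omega)) hα.2 (hL.le.trans hO) ht
  · obtain ⟨k, s, e⟩ := av3 hY hf hU hI hm hα.2
    exact ⟨k, s, e.symm⟩

end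

theorem fin_q' (n r : ℕ) (X : Type) [TopologicalSpace X] [T2Space X] [CompactSpace X]
    [ConnectedSpace X] [ChartedSpace (EC n) X] [IsManifold 𝓘(ℂ, EC n) ω X] (hK : IsKahler n X)
    (x₀ : X) (G : Subgroup (GL (Fin r) ℂ)) (hG : Red G) (R : Type) [CommRing R] [Algebra ℂ R]
    (e : (FundamentalGroup X x₀ →* G) → R →ₐ[ℂ] ℂ) (he : IsInv e)
    (P : Ideal R) (hP : P ∈ minimalPrimes R) :
    (∀ y : Pts P, ∃ y' : Pts P, Cnj e y.1 y'.1) ∧
      (∃ (d : ℕ) (U : ℕ → Opens (Pts P)) (I : Cx (Pts P)) (one : Sec I 0 (U 1)),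
        IsStrat d U ∧ (U 1).1.Nonempty ∧ IsIC U I one) ∧
      ∀ (d : ℕ) (U : ℕ → Opens (Pts P)) (I : Cx (Pts P)) (one : Sec I 0 (U 1)),
        IsStrat d U → IsIC U I one →
        ((U 1).1.Nonempty → ∃ (U' : ℕ → Opens (Pts P)) (one' : Sec I 0 (U' 1)),
          IsStrat d U' ∧ IsIC U' I one' ∧ ∀ m, ∃ Q : Data (Pts P) (d - m),
            Model Q (Cnj e) d m (fun c => U' c) ∧
            (∀ α : Glo I m, Coc univ α → α ∈ WQ one' Q (2 * m)) ∧
            Inj I {y | ∀ i : Fin (d - m), Q.c i.castSucc ⬝ᵥ Q.vec y = 0} m) ∧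
        ∀ (m : ℕ) (Q : Data (Pts P) (d - m)), Model Q (Cnj e) d m (fun c => U c) →
          ∀ k, WQ one Q (2 * k + 1) = WQ one Q (2 * k) := by
  obtain ⟨K⟩ := exists_rotSys n X hK x₀
  obtain ⟨N, f, hf, hc⟩ := exists_real_gens hG he K.S K.gen
  have key : ∀ y y' : Pts P, Cnj e y.1 y'.1 ↔ PWV.emb f y' = star (PWV.emb f y) := fun y y' => by
    obtain ⟨φ, hφ⟩ := y.2.1
    obtain ⟨φ', hφ'⟩ := y'.2.1
    rw [← hφ, ← hφ', hc, funext_iff, hφ, hφ']
    rfl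
  obtain ⟨h3, h4, h5⟩ := fin_q n r X hK x₀ G hG R e he P hP
  exact ⟨h3, h4, fun d U I one hU hI => ⟨fun h4 => wq_all' hP.1.1 hf (fun y y' h => (key y y').2 h)
    (fun y => (h3 y).imp fun y' h => (key y y').1 h) hU h4 hI, (h5 d U I one hU hI).2⟩⟩

end Pool.Agent.PWF
end
end
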