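import Pool.Agent.K.MP_65ad7c_ag.C11
import Pool.Agent.K.MP_65ad7c_ag.C0

open MeasureTheory Set Filter Topology Metric Matrix
open scoped ComplexOrder ContDiff Matrix.Norms.Frobenius RealInnerProductSpace ENNReal
open Pool.Agent.Lib.Sob

noncomputable section
namespace Pool.Agent.PW

variable {E : Type} [NormedAddCommGroup E] [InnerProductSpace ℝ E] [FiniteDimensional ℝ E]
  [MeasurableSpace E] [BorelSpace E] {r : ℕ} {Γ : Type} [Group Γ]
  {A : Atlas E Γ} {ρ : Γ →* Mat r} {C C' : ℝ} {h h' ζ : A.ι → E → Mat r}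
  {D D' Dζ : A.ι → E → E →L[ℝ] Mat r}

omit [MeasurableSpace E] [BorelSpace E] in
theorem ngi_add (α : E →L[ℝ] E) (X Y Z : E →L[ℝ] Mat r) :
    pair α X (Y + Z) = pair α X Y + pair α X Z := by
  simp only [pair, _root_.add_apply, Matrix.mul_add, trace_add, Complex.add_re,
    Finset.sum_add_distrib]

omit [MeasurableSpace E] [BorelSpace E] in
theorem ngi_smul (α : E →L[ℝ] E) (c : ℝ) (X Y : E →L[ℝ] Mat r) :
    pair α X (c • Y) = c * pair α X Y := by
  simp only [pair, _root_.smul_apply, Matrix.mul_smul, trace_smul, Complex.smul_re,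
    smul_eq_mul, Finset.mul_sum]

omit [MeasurableSpace E] [BorelSpace E] in
theorem ngi_zero (α : E →L[ℝ] E) (X : E →L[ℝ] Mat r) (z : Mat r) :
    pair α X ((0 : E →L[ℝ] ℝ).smulRight z) = 0 := by
  simp [pair]

theorem ngi_local {U : Set E} (hU : IsOpen U) {α : E → E →L[ℝ] E} (hα : ContinuousOn α U)
    {X : E → E →L[ℝ] Mat r} (hX : LocLp 2 U X) (hh : Harm U α X) {z : E → Mat r}
    {Dz : E → E →L[ℝ] Mat r} (hz : WD 2 U z Dz) {φ : E → ℝ} (hφ : IsTest U φ) :
    ∫ x, φ x * pair (α x) (X x) (Dz x) =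
      -∫ x, pair (α x) (X x) ((fderiv ℝ φ x).smulRight (z x)) := by
  have h1 := harm_test hU hα hX hh (hz.smul (by norm_num) hφ.1)
    ⟨tsupport φ, hφ.2.1, hφ.2.2, fun x _ hx => by
      simp only [image_eq_zero_of_notMem_tsupport hx, zero_smul]⟩
  simp only [ngi_add, ngi_smul] at h1
  have i1 : Integrable fun x => φ x * pair (α x) (X x) (Dz x) :=
    (locLp_pair hα hX hz.2.1).integrable_test le_rfl hφ
  have i2 : Integrable fun x => pair (α x) (X x) ((fderiv ℝ φ x).smulRight (z x)) := by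
    have := (locLp_pair hα hX (hz.1.smulRight hφ.continuous_fderiv.continuousOn)).memLp_of_support
      hφ.2.1 hφ.2.2 fun x hx => by
        rw [Function.notMem_support.1 fun e => hx (support_fderiv_subset ℝ e), ngi_zero]
    rwa [Nat.cast_one, memLp_one_iff_integrable] at this
  rw [setIntegral_eq_integral_of_forall_compl_eq_zero fun x hx => by
    rw [hφ.zero_of_notMem hx, hφ.fderiv_zero_of_notMem hx, ngi_zero, zero_mul, add_zero],
    integral_add i1 i2] at h1
  exact eq_neg_of_add_eq_zero_left h1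

/-- global integration by parts against a section of the endomorphism bundle -/
theorem Atlas.HD.glob (H : A.HD ρ C h D) {χ : A.ι → E → ℝ} (hχ : A.Pou (ball 0 2) χ)
    (hw : ∀ a, WD 2 (ball 0 2) (ζ a) (Dζ a)) (hb : ∀ a, LB (ball 0 2) (ζ a)) (hs : A.Sec ρ ζ) :
    ∑ a, ∫ x, χ a x * pair (A.α a x) (PW.mc (h a x) (D a x)) (Dζ a x) = 0 := by
  have hU : IsOpen (ball (0 : E) 2) := isOpen_ball
  have hU6 : ball (0 : E) 2 ⊆ ball 0 6 := ball_subset_ball (by norm_num)
  have hα : ∀ a, ContinuousOn (A.α a) (ball 0 2) := fun a => (A.coef a).1.continuousOn.mono hU6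
  have hX : ∀ a, LocLp 2 (ball 0 2) fun x => PW.mc (h a x) (D a x) := fun a =>
    locLp_mc hU (H.loc a).wd ((H.loc a).lbd H.one_le)
  have h1 := A.toPre.pou_zero hU hU6 hχ
    (fun a x p _ => pair (A.α a x) (PW.mc (h a x) (D a x)) (p.smulRight (ζ a x)))
    (fun a x p p' _ _ => by
      rw [← ngi_add]
      congr 1
      ext1 v
      simp only [ContinuousLinearMap.smulRight_apply, _root_.add_apply, add_smul])
    (fun a φ hφ => locLp_pair (hα a) (hX a)
      ((hw a).1.smulRight (hφ.continuousOn_fderiv_of_isOpen hU (by simp))))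
    fun a b => by
      filter_upwards [A.toPre.mc_compat hU (fun a => (H.loc a).wd) H.mc
        (fun a x hx => ((H.loc a).bd x hx).posDef (one_pos.trans_le H.one_le)) a b]
        with x hx ho φ hφ
      have hT : DifferentiableAt ℝ (A.T a b) x :=
        ((A.T_smooth a b).contDiffAt ((A.O_open a b).mem_nhds ho.1)).differentiableAt (by simp)
      have e1 : ρ (A.c a b x)⁻¹ * ρ (A.c a b x) = 1 := by rw [← map_mul, inv_mul_cancel, map_one]
      have e2 : ζ a x = ρ (A.c a b x) * ζ b (A.T a b x) * ρ (A.c a b x)⁻¹ := by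
        rw [← hs a b x ho, Matrix.mul_assoc, ← map_mul, mul_inv_cancel, map_one, Matrix.mul_one]
      refine A.pair_inv ho.1 e1 (hx ho) fun v => ?_
      rw [fderiv_fun_comp x (hφ.differentiableAt (by norm_num)) hT, e2]
      simp only [ContinuousLinearMap.smulRight_apply, ContinuousLinearMap.comp_apply,
        Matrix.mul_smul, Matrix.smul_mul]
  rw [Finset.sum_congr rfl fun a _ => ngi_local hU (hα a) (hX a) (H.loc a).harm (hw a) (hχ.1 a).1,
    Finset.sum_neg_distrib, h1, neg_zero]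

/-- a nonnegative density with vanishing integral vanishes -/
theorem Pre.ae_zero_of_pou (A : Pre E Γ) {F : A.ι → E → ℝ} (hF : ∀ a, LocLp 1 (ball 0 2) (F a))
    (h0 : ∀ a, ∀ᵐ x, x ∈ ball (0 : E) 2 → 0 ≤ F a x)
    (hz : ∀ χ, A.Pou (ball 0 2) χ → ∑ a, ∫ x, χ a x * F a x = 0) (a : A.ι) :
    ∀ᵐ x, x ∈ ball (0 : E) 2 → F a x = 0 := by
  have key : ∀ R : ℝ, 1 ≤ R → R < 2 → ∀ᵐ x, x ∈ closedBall (0 : E) R → F a x = 0 := by
    intro R h1 h2
    obtain ⟨χ, hχ, hp⟩ := A.exists_pou (R' := (R + 2) / 2) h1 (by linarith) (by linarith)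
    have hχ' : A.Pou (ball 0 2) χ := hχ.mono (closedBall_subset_ball (by linarith))
    have hn : ∀ b, 0 ≤ᵐ[volume] fun x => χ b x * F b x := fun b => by
      filter_upwards [h0 b] with x hx
      by_cases hb : x ∈ ball (0 : E) 2
      · exact mul_nonneg ((hχ'.1 b).2 x) (hx hb)
      · rw [(hχ'.1 b).1.zero_of_notMem hb, zero_mul]
        exact le_rfl
    have h3 := (Finset.sum_eq_zero_iff_of_nonneg fun b _ => integral_nonneg_of_ae (hn b)).1
      (hz χ hχ') a (Finset.mem_univ a)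
    have h4 := (integral_eq_zero_iff_of_nonneg_ae (hn a)
      ((hF a).integrable_test le_rfl (hχ'.1 a).1)).1 h3
    filter_upwards [h4] with x hx hb
    exact (mul_eq_zero.1 hx).resolve_left (hp a x hb).ne'
  have h1 : ∀ᵐ x, ∀ m : ℕ, x ∈ closedBall (0 : E) (2 - 1 / ((m : ℝ) + 1)) → F a x = 0 := by
    refine ae_all_iff.2 fun m => key _ ?_ ?_
    · have : 1 / ((m : ℝ) + 1) ≤ 1 := div_le_one_of_le₀ (by simp) (by positivity)
      linarith
    · linarith [Nat.one_div_pos_of_nat (α := ℝ) (n := m)]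
  filter_upwards [h1] with x hx hb
  obtain ⟨m, hm⟩ := exists_nat_one_div_lt (sub_pos.2 (mem_ball.1 hb))
  exact hx m (mem_closedBall.2 (by linarith))

end Pool.Agent.PW
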