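import Pool.Agent.K.MP_65ad7c_ag.C11
import Pool.Agent.K.MP_65ad7c_ag.C1
import Pool.Agent.K.MP_65ad7c_ag.C0

open MeasureTheory Set Filter Topology Metric Matrix
open scoped ComplexOrder ContDiff Matrix.Norms.Frobenius RealInnerProductSpace ENNReal
open Pool.Agent.Lib.Sob

noncomputable section
namespace Pool.Agent.PW

variable {E : Type} [NormedAddCommGroup E] [InnerProductSpace ℝ E] [FiniteDimensional ℝ E]
  [MeasurableSpace E] [BorelSpace E] {r : ℕ} {Γ : Type} [Group Γ]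
  {A : Atlas E Γ} {ρ : Γ →* Mat r} {C C' : ℝ} {h h' ζ : A.ι → E → Mat r}
  {D D' Dζ : A.ι → E → E →L[ℝ] Mat r}

theorem const_of_wd {u : E → Mat r} {W : E → E →L[ℝ] Mat r} (hw : WD 2 (ball 0 2) u W)
    (hc : ContinuousOn u (ball 0 2)) (h0 : ∀ᵐ x, x ∈ ball (0 : E) 2 → W x = 0) :
    ∀ x ∈ ball (0 : E) 2, u x = u 0 := by
  intro x hx
  have h1 := lipschitz_of_wd (by norm_num) isOpen_ball (convex_ball _ _) hw hc (L := 0)
    (h0.mono fun y hy hy' => by rw [hy hy', norm_zero]) x hx 0 (mem_ball_self two_pos)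
  rw [zero_mul, norm_le_zero_iff, sub_eq_zero] at h1
  exact h1

omit [MeasurableSpace E] [BorelSpace E] in
/-- a section that is constant in every chart commutes with the representation -/
theorem Atlas.cm_of_const (hs : A.Sec ρ ζ) (hc : ∀ a, ∀ x ∈ ball (0 : E) 2, ζ a x = ζ a 0) :
    Cm ρ (ζ A.a0 0) := by
  intro γ
  refine (A.toPre.chain_conj ρ ρ (fun a => ζ a 0) (fun a b x hx => ?_) (A.chain γ)).symm
  have h1 : x ∈ ball (0 : E) 2 := ball_subset_ball (by norm_num) hx.2.1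
  have h2 : A.T a b x ∈ ball (0 : E) 2 := ball_subset_ball (by norm_num) hx.2.2
  have h3 := hs a b x ⟨hx.1, h1, h2⟩
  rw [hc a x h1, hc b _ h2] at h3
  exact h3.symm

omit [MeasurableSpace E] [BorelSpace E] in
theorem npair_eq_zero {P Q : Mat r} (hP : P.PosDef) (hQ : Q.PosDef) {α : E →L[ℝ] E}
    (hα : ∀ v w, ⟪α v, w⟫ = ⟪v, α w⟫) (hp : ∀ v, v ≠ 0 → 0 < ⟪v, α v⟫) {X : E →L[ℝ] Mat r}
    (h0 : npair α P Q X = 0) : X = 0 := by
  obtain ⟨l, L, hl, he⟩ := Coef.ell (U := univ) (K := {0}) (α := fun _ : E => α)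
    ⟨contDiffOn_const, fun _ _ => ⟨hα, hp⟩⟩ isCompact_singleton (subset_univ _)
  have n1 := norm_nonneg P
  have n2 := norm_nonneg P⁻¹
  have n3 := norm_nonneg Q
  have n4 := norm_nonneg Q⁻¹
  have hC : 0 < 1 + ‖P‖ + ‖P⁻¹‖ + ‖Q‖ + ‖Q⁻¹‖ := by linarith
  have h1 := norm_sq_le_npair hC (bd_of_norm hC hP (by linarith) (by linarith))
    (bd_of_norm hC hQ (by linarith) (by linarith)) hl.le (he 0 rfl) X
  rw [h0, mul_zero] at h1
  have h2 : ‖X‖ ^ 2 ≤ 0 := le_of_mul_le_mul_left (by rwa [mul_zero]) hl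
  exact norm_eq_zero.1 (pow_eq_zero_iff two_ne_zero |>.1 (le_antisymm h2 (sq_nonneg _)))

omit [MeasurableSpace E] [BorelSpace E] [FiniteDimensional ℝ E] in
/-- if `h⁻¹ h'` has derivative zero, the Maurer-Cartan forms agree -/
theorem mc_eq_of_dk {P Q : Mat r} (hP : P.PosDef) (hQ : Q.PosDef) {X Y : E →L[ℝ] Mat r}
    (hX : HermF X) (hY : HermF Y) (h0 : dk P Q X Y = 0) : mc Q Y = mc P X := by
  have uP : IsUnit P.det := (Matrix.isUnit_iff_isUnit_det P).1 hP.isUnit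
  have uQ : IsUnit Q.det := (Matrix.isUnit_iff_isUnit_det Q).1 hQ.isUnit
  ext1 v
  have h1 : P⁻¹ * Y v = P⁻¹ * (X v * (P⁻¹ * Q)) := by
    have h2 : dk P Q X Y v = 0 := by rw [h0]; rfl
    exact sub_eq_zero.1 h2
  have h2 : Y v = X v * (P⁻¹ * Q) := by
    have h3 := congrArg (P * ·) h1
    simpa only [Matrix.mul_nonsing_inv_cancel_left P _ uP] using h3
  have h3 : Y v = Q * (P⁻¹ * X v) := by
    have h4 := congrArg conjTranspose h2
    rwa [hY v, conjTranspose_mul, conjTranspose_mul, hX v, hQ.isHermitian.eq,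
      hP.inv.isHermitian.eq, Matrix.mul_assoc] at h4
  show Q⁻¹ * Y v = P⁻¹ * X v
  rw [h3, Matrix.nonsing_inv_mul_cancel_left Q _ uQ]

omit [MeasurableSpace E] [BorelSpace E] in
/-- `h⁻¹ h'` is a section -/
theorem Pre.sec_k {A : Pre E Γ} {h h' : A.ι → E → Mat r} (hm : A.MC (ball 0 2) ρ h)
    (hm' : A.MC (ball 0 2) ρ h') (hp : ∀ a, ∀ x ∈ ball (0 : E) 2, (h a x).PosDef) :
    A.Sec ρ fun a x => (h a x)⁻¹ * h' a x := by
  intro a b x hx
  have e1 : ρ (A.c a b x) * ρ (A.c a b x)⁻¹ = 1 := by rw [← map_mul, mul_inv_cancel, map_one]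
  have e2 : (ρ (A.c a b x)⁻¹)ᴴ * (ρ (A.c a b x))ᴴ = 1 := by
    rw [← conjTranspose_mul, e1, conjTranspose_one]
  show (h a x)⁻¹ * h' a x * ρ (A.c a b x) =
    ρ (A.c a b x) * ((h b (A.T a b x))⁻¹ * h' b (A.T a b x))
  rw [hm a b x hx, hm' a b x hx, gm_inv (hp a x hx.2.1) e1, gm]
  generalize ρ (A.c a b x)⁻¹ = u' at e1 e2 ⊢
  generalize ρ (A.c a b x) = u at e1 e2 ⊢
  calc (h a x)⁻¹ * h' a x * u = (u * u') * (h a x)⁻¹ * (u'ᴴ * uᴴ) * h' a x * u := by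
        rw [e1, e2, Matrix.one_mul, Matrix.mul_one]
    _ = _ := by simp only [Matrix.mul_assoc]

omit [MeasurableSpace E] [BorelSpace E] in
/-- the links of a representation with a bounded metric are bounded -/
theorem Pre.link_le {A : Pre E Γ} {h : A.ι → E → Mat r} (hC : 1 ≤ C) (hm : A.MC (ball 0 2) ρ h)
    (hb : ∀ a, ∀ x ∈ ball (0 : E) 2, Bd C (h a x)) {a b : A.ι} {x : E}
    (hx : x ∈ A.ov (ball 0 2) a b) : ‖ρ (A.c a b x)‖ ≤ r * C := by
  have hC0 : 0 < C := by linarith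
  have b1 : Bd 1 (1 : Mat r) := Obst.refl PosSemidef.one le_rfl
  have h1 := le_nf one_pos b1 b1 (ρ (A.c a b x))
  have h2 := (Complex.le_def.1
    ((hb a x hx.2.1).1.conjTranspose_mul_mul_same (ρ (A.c a b x))).trace_nonneg).1
  have h3 := (Complex.le_def.1 (hb b _ hx.2.2).2.trace_nonneg).1
  rw [hm a b x hx, gm] at h3
  generalize ρ (A.c a b x) = u at h1 h2 h3 ⊢
  rw [nf, inv_one, Matrix.mul_one, Matrix.mul_one, trace_mul_comm, one_pow, one_mul] at h1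
  rw [Matrix.mul_sub, Matrix.sub_mul, Matrix.mul_smul, Matrix.smul_mul, Matrix.mul_one, trace_sub,
    trace_smul, Complex.sub_re, Complex.smul_re, Complex.zero_re, smul_eq_mul] at h2
  rw [trace_sub, trace_smul, Complex.sub_re, Complex.smul_re, Complex.zero_re, smul_eq_mul,
    trace_one, Fintype.card_fin, Complex.natCast_re] at h3
  have h4 : C⁻¹ * (uᴴ * u).trace.re ≤ C * r := by linarith
  rw [inv_mul_le_iff₀ hC0] at h4
  have h5 : (r : ℝ) ≤ r ^ 2 := by exact_mod_cast Nat.le_self_pow two_ne_zero r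
  refine (pow_le_pow_iff_left₀ (norm_nonneg _) (by positivity) two_ne_zero).1 ?_
  calc ‖u‖ ^ 2 ≤ C * (C * r) := h1.trans h4
    _ = r * C ^ 2 := by ring
    _ ≤ r ^ 2 * C ^ 2 := mul_le_mul_of_nonneg_right h5 (sq_nonneg C)
    _ = _ := by ring

omit [MeasurableSpace E] [BorelSpace E] in
/-- bounds along chains -/
theorem Pre.Chain.bound {A : Pre E Γ} {a b : A.ι} {γ : Γ} (hc : A.Chain a b γ) (r : ℕ) (B : ℝ) :
    ∃ B' : ℝ, ∀ ρ : Γ →* Mat r,
      (∀ a b, ∀ x ∈ A.ov (ball 0 1) a b, ‖ρ (A.c a b x)‖ ≤ B) → ‖ρ γ‖ ≤ B' := by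
  induction hc with
  | nil a => exact ⟨‖(1 : Mat r)‖, fun ρ _ => by rw [map_one]⟩
  | cons a b d x γ hx _ ih =>
    obtain ⟨B', hB'⟩ := ih
    refine ⟨B * B', fun ρ hρ => ?_⟩
    rw [map_mul]
    exact (norm_mul_le _ _).trans (mul_le_mul (hρ a b x hx) (hB' ρ hρ) (norm_nonneg _)
      ((norm_nonneg _).trans (hρ a b x hx)))

end Pool.Agent.PW
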