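import Pool.Agent.K.MP_65ad7c_ag.C12
import Pool.Agent.K.MP_65ad7c_ag.C13
import Pool.Agent.K.MP_65ad7c_ag.C0

open MeasureTheory Set Filter Topology Metric Matrix
open scoped ComplexOrder ContDiff Matrix.Norms.Frobenius RealInnerProductSpace ENNReal
open Pool.Agent.Lib.Sob

noncomputable section
namespace Pool.Agent.PW

section
variable {E : Type} [NormedAddCommGroup E] [InnerProductSpace ℝ E] [FiniteDimensional ℝ E]
  [MeasurableSpace E] [BorelSpace E] {r : ℕ} {Γ : Type} [Group Γ]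
  {A : Atlas E Γ} {ρ : Γ →* Mat r} {C C' : ℝ} {h h' ζ : A.ι → E → Mat r}
  {D D' Dζ : A.ι → E → E →L[ℝ] Mat r}

/-- uniqueness of harmonic metrics -/
theorem Atlas.HD.uniq (H : A.HD ρ C h D) (H' : A.HD ρ C' h' D') :
    Cm ρ ((h A.a0 0)⁻¹ * h' A.a0 0) ∧
      ∀ a, ∀ᵐ x, x ∈ ball (0 : E) 2 → PW.mc (h' a x) (D' a x) = PW.mc (h a x) (D a x) := by
  have hU : IsOpen (ball (0 : E) 2) := isOpen_ball
  have l : ∀ a, LBd (ball 0 2) (h a) := fun a => (H.loc a).lbd H.one_le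
  have l' : ∀ a, LBd (ball 0 2) (h' a) := fun a => (H'.loc a).lbd H'.one_le
  have hp : ∀ a, ∀ x ∈ ball (0 : E) 2, (h a x).PosDef := fun a => (l a).posDef
  have hp' : ∀ a, ∀ x ∈ ball (0 : E) 2, (h' a x).PosDef := fun a => (l' a).posDef
  have s1 := Pre.sec_k H.mc H'.mc hp
  have s2 := Pre.sec_k H'.mc H.mc hp'
  have hs : A.Sec ρ fun a x => kz (h a x) (h' a x) := by
    intro a b x hx
    have e1 := s1 a b x hx
    have e2 := s2 a b x hx
    simp only at e1 e2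
    simp only [kz, Matrix.sub_mul, Matrix.mul_sub]
    rw [e1, e2]
  have wk := fun a => wd_kz hU (H.loc a).wd (H'.loc a).wd (l a) (l' a)
  have sub6 : ball (0 : E) 2 ⊆ ball 0 6 := ball_subset_ball (by norm_num)
  have hαc : ∀ a, ContinuousOn (A.α a) (ball 0 2) := fun a =>
    (A.coef a).1.continuousOn.mono sub6
  have hsym : ∀ a, ∀ x ∈ ball (0 : E) 2, ∀ v w, ⟪A.α a x v, w⟫ = ⟪v, A.α a x w⟫ :=
    fun a x hx => ((A.coef a).2 x (sub6 hx)).1
  have hpos : ∀ a, ∀ x ∈ ball (0 : E) 2, ∀ v, v ≠ 0 → 0 < ⟪v, A.α a x v⟫ :=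
    fun a x hx => ((A.coef a).2 x (sub6 hx)).2
  have hnn : ∀ a, ∀ x ∈ ball (0 : E) 2, ∀ v, 0 ≤ ⟪v, A.α a x v⟫ := by
    intro a x hx v
    by_cases hv : v = 0
    · simp [hv]
    · exact (hpos a x hx v hv).le
  have hD := fun a => wd_herm one_le_two hU (H.loc a).wd fun x hx => (hp a x hx).1
  have hD' := fun a => wd_herm one_le_two hU (H'.loc a).wd fun x hx => (hp' a x hx).1
  have hq : ∀ a, ∀ᵐ x, x ∈ ball (0 : E) 2 →
      qq (A.α a x) (h a x) (h' a x) (D a x) (D' a x) = 0 := by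
    refine Pre.ae_zero_of_pou A.toPre
      (F := fun a x => qq (A.α a x) (h a x) (h' a x) (D a x) (D' a x))
      (fun a => locLp_qq hU (hαc a) (H.loc a).wd (H'.loc a).wd (l a) (l' a))
      (fun a => Eventually.of_forall fun x hx =>
        qq_nonneg (hp a x hx) (hp' a x hx) (hsym a x hx) (hnn a x hx)) fun χ hχ => ?_
    have g1 := H.glob hχ (fun a => (wk a).1) (fun a => (wk a).2) hs
    have g2 := H'.glob hχ (fun a => (wk a).1) (fun a => (wk a).2) hs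
    have e : ∀ a, ∫ x, χ a x * qq (A.α a x) (h a x) (h' a x) (D a x) (D' a x) =
        (∫ x, χ a x * pair (A.α a x) (PW.mc (h' a x) (D' a x))
          (dkz (h a x) (h' a x) (D a x) (D' a x))) -
        ∫ x, χ a x * pair (A.α a x) (PW.mc (h a x) (D a x))
          (dkz (h a x) (h' a x) (D a x) (D' a x)) := by
      intro a
      have i1 := (locLp_pair (hαc a) (locLp_mc hU (H'.loc a).wd (l' a)) (wk a).1.2.1).integrable_test
        le_rfl (hχ.1 a).1
      have i2 := (locLp_pair (hαc a) (locLp_mc hU (H.loc a).wd (l a)) (wk a).1.2.1).integrable_test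
        le_rfl (hχ.1 a).1
      simp only [smul_eq_mul] at i1 i2
      rw [← integral_sub i1 i2]
      refine integral_congr_ae ?_
      filter_upwards [hD a, hD' a] with x h1 h2
      by_cases hx : x ∈ ball (0 : E) 2
      · have k := pair_key (hp a x hx) (hp' a x hx) (h1 hx) (h2 hx) (hsym a x hx) 1 0
        have z1 : (0 : E →L[ℝ] ℝ).smulRight (kz (h a x) (h' a x)) = 0 := by
          ext1 v
          simp
        have z2 : spair (A.α a x) (dsg (h a x) (h' a x) (D a x) (D' a x)) 0 = 0 := by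
          simp [spair]
        rw [z1, z2, one_smul, add_zero, add_zero, one_mul] at k
        rw [← mul_sub, k]
      · have z : χ a x = 0 := image_eq_zero_of_notMem_tsupport fun hh => hx ((hχ.1 a).1.2.2 hh)
        simp [z]
    simp only [e, Finset.sum_sub_distrib, g1, g2, sub_self]
  have hdk : ∀ a, ∀ᵐ x, x ∈ ball (0 : E) 2 → dk (h a x) (h' a x) (D a x) (D' a x) = 0 := by
    intro a
    filter_upwards [hq a] with x h0 hx
    have n1 := npair_nonneg (hp' a x hx) (hp a x hx) (hsym a x hx) (hnn a x hx)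
      (dk (h a x) (h' a x) (D a x) (D' a x))
    have n2 := npair_nonneg (hp a x hx) (hp' a x hx) (hsym a x hx) (hnn a x hx)
      (dk (h' a x) (h a x) (D' a x) (D a x))
    have h1 := h0 hx
    unfold qq at h1
    exact npair_eq_zero (hp' a x hx) (hp a x hx) (hsym a x hx) (hpos a x hx) (by linarith)
  refine ⟨Atlas.cm_of_const (ζ := fun a x => (h a x)⁻¹ * h' a x) s1 fun a => ?_, fun a => ?_⟩
  · refine const_of_wd (wd_k hU (H.loc a).wd (H'.loc a).wd (l a) (l' a)) ?_ (hdk a)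
    exact (frame_inv hU (H.loc a).wd (H.loc a).cont (l a)).cont.mul (H'.loc a).cont
  · filter_upwards [hdk a, hD a, hD' a] with x h0 h1 h2 hx
    exact mc_eq_of_dk (hp a x hx) (hp' a x hx) (h1 hx) (h2 hx) (h0 hx)

end

variable {n r : ℕ} {Γ : Type} [Group Γ] {A : KAtlas n Γ} {C C' t t' : ℝ} {p p' : Mat r}
  {ρ ρ' ρ₁ ρ₂ : Γ →* Mat r}

theorem KAtlas.Rel.pos (H : A.Rel C t p ρ ρ') : 1 ≤ C ∧ Bd C p := by
  obtain ⟨h, D, g, h1, rfl, -⟩ := H
  exact ⟨h1.one_le, (h1.loc _).bd 0 (mem_ball_self two_pos)⟩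

theorem KAtlas.Rel.uniq (H : A.Rel C t p ρ ρ₁) (H' : A.Rel C' t' p' ρ ρ₂) :
    Cm ρ (p⁻¹ * p') ∧ (t = t' → ρ₁ = ρ₂) := by
  obtain ⟨h, D, g, h1, rfl, hr, hg, -⟩ := H
  obtain ⟨h', D', g', h1', rfl, hr', hg', -⟩ := H'
  obtain ⟨hc, hm⟩ := h1.uniq h1'
  refine ⟨hc, ?_⟩
  rintro rfl
  have hr2 : A.Rot (ball 0 2) ρ h D (pT t) (qT t) ρ₂ g' := by
    refine ⟨fun a => (hr'.fr a).congr ?_, hr'.rel⟩
    filter_upwards [hm a] with x hx hx'
    simp only [rotA]
    rw [hx hx']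
  ext1 γ
  have := KAtlas.Rot.unique one_le_two hr hr2 γ
  rwa [hg, hg', inv_one, Matrix.one_mul, Matrix.one_mul, Matrix.mul_one] at this

theorem KAtlas.Rel.zero (H : A.Rel C 0 p ρ ρ') : ρ' = ρ := by
  obtain ⟨h, D, g, -, -, hr, hg, -⟩ := H
  have e1 : ((pT 0 : ℝ) : ℂ) = 0 := by simp [pT]
  have e2 : ((qT 0 : ℝ) : ℂ) = 0 := by simp [qT]
  rw [e1, e2] at hr
  ext1 γ
  have := KAtlas.Rot.unique one_le_two hr (A.rot_zero (ball 0 2) ρ h D) γ
  rwa [hg, inv_one, Matrix.one_mul, Matrix.one_mul, Matrix.mul_one] at this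

theorem KAtlas.Rel.pi (H : A.Rel C Real.pi p ρ ρ') (γ : Γ) : ρ' γ = p⁻¹ * (ρ γ⁻¹)ᴴ * p := by
  obtain ⟨h, D, g, h1, rfl, hr, hg, -⟩ := H
  have e1 : ((pT Real.pi : ℝ) : ℂ) = 1 := by simp [pT]
  have e2 : ((qT Real.pi : ℝ) : ℂ) = 0 := by simp [qT]
  rw [e1, e2] at hr
  have l : ∀ a, LBd (ball 0 2) (h a) := fun a => (h1.loc a).lbd h1.one_le
  have hr2 : A.Rot (ball 0 2) ρ h D 1 0 (dualRep ρ) fun a x => (h a x)⁻¹ := by
    refine ⟨fun a => (frame_inv isOpen_ball (h1.loc a).wd (h1.loc a).cont (l a)).congr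
      (Eventually.of_forall fun x _ => ?_), fun a b x hx => ?_⟩
    · simp [rotA, rotB]
    · have e : ρ (A.c a b x) * ρ (A.c a b x)⁻¹ = 1 := by rw [← map_mul, mul_inv_cancel, map_one]
      rw [h1.mc a b x hx, gm_inv ((l a).posDef x hx.2.1) e,
        ← Matrix.mul_assoc, ← Matrix.mul_assoc, e, Matrix.one_mul]
      rfl
  have k := KAtlas.Rot.unique one_le_two hr hr2 γ
  rw [hg, inv_one, Matrix.one_mul] at k
  have hu : IsUnit (h A.a0 0).det :=
    (Matrix.isUnit_iff_isUnit_det _).1 ((l A.a0).posDef 0 (mem_ball_self two_pos)).isUnit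
  have k2 : ρ' γ * (h A.a0 0)⁻¹ * h A.a0 0 = (h A.a0 0)⁻¹ * dualRep ρ γ * h A.a0 0 := by
    rw [k]
  rwa [Matrix.nonsing_inv_mul_cancel_right _ _ hu] at k2

end Pool.Agent.PW
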