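import Pool.Agent.K.MP_65ad7c_ag.C11
import Pool.Agent.K.MP_65ad7c_ag.C0
import Pool.Agent.K.MP_65ad7c_ag.C1

open MeasureTheory Set Filter Topology Metric Matrix
open scoped ComplexOrder ContDiff Matrix.Norms.Frobenius RealInnerProductSpace ENNReal
open Pool.Agent.Lib.Sob

noncomputable section
namespace Pool.Agent.PW

variable {r s : ℕ} {R : Mat r →* Mat s}

theorem Prep.fderiv_left (hR : Prep R) (m X : Mat r) :
    fderiv ℝ R m (m * X) = R m * fderiv ℝ R 1 X := by
  have hd : Differentiable ℝ R := hR.sm.differentiable (by simp)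
  have h1 : HasFDerivAt (fun y : Mat r => R (m * y))
      ((fderiv ℝ R m).comp (ContinuousLinearMap.mul ℝ (Mat r) m)) 1 := by
    have h0 : HasFDerivAt R (fderiv ℝ R m) (ContinuousLinearMap.mul ℝ (Mat r) m 1) := by
      rw [ContinuousLinearMap.mul_apply', Matrix.mul_one]
      exact (hd m).hasFDerivAt
    exact h0.comp 1 (ContinuousLinearMap.mul ℝ (Mat r) m).hasFDerivAt
  have h2 : HasFDerivAt (fun y : Mat r => R (m * y))
      ((ContinuousLinearMap.mul ℝ (Mat s) (R m)).comp (fderiv ℝ R 1)) 1 := by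
    have e : (fun y : Mat r => R (m * y)) = fun y => ContinuousLinearMap.mul ℝ (Mat s) (R m) (R y) :=
      funext fun y => map_mul R m y
    rw [e]
    exact (ContinuousLinearMap.mul ℝ (Mat s) (R m)).hasFDerivAt.comp 1 (hd 1).hasFDerivAt
  exact congrArg (fun L : Mat r →L[ℝ] Mat s => L X) (h1.unique h2)

theorem Prep.fderiv_right (hR : Prep R) (m X : Mat r) :
    fderiv ℝ R m (X * m) = fderiv ℝ R 1 X * R m := by
  have hd : Differentiable ℝ R := hR.sm.differentiable (by simp)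
  have h1 : HasFDerivAt (fun y : Mat r => R (y * m))
      ((fderiv ℝ R m).comp ((ContinuousLinearMap.mul ℝ (Mat r)).flip m)) 1 := by
    have h0 : HasFDerivAt R (fderiv ℝ R m) ((ContinuousLinearMap.mul ℝ (Mat r)).flip m 1) := by
      rw [ContinuousLinearMap.flip_apply, ContinuousLinearMap.mul_apply', Matrix.one_mul]
      exact (hd m).hasFDerivAt
    exact h0.comp 1 ((ContinuousLinearMap.mul ℝ (Mat r)).flip m).hasFDerivAt
  have h2 : HasFDerivAt (fun y : Mat r => R (y * m))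
      (((ContinuousLinearMap.mul ℝ (Mat s)).flip (R m)).comp (fderiv ℝ R 1)) 1 := by
    have e : (fun y : Mat r => R (y * m)) =
        fun y => (ContinuousLinearMap.mul ℝ (Mat s)).flip (R m) (R y) :=
      funext fun y => map_mul R y m
    rw [e]
    exact ((ContinuousLinearMap.mul ℝ (Mat s)).flip (R m)).hasFDerivAt.comp 1 (hd 1).hasFDerivAt
  exact congrArg (fun L : Mat r →L[ℝ] Mat s => L X) (h1.unique h2)

theorem map_inv_mat (R : Mat r →* Mat s) {m : Mat r} (hm : IsUnit m.det) :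
    IsUnit (R m).det ∧ (R m)⁻¹ = R m⁻¹ := by
  have h : R m⁻¹ * R m = 1 := by rw [← map_mul, Matrix.nonsing_inv_mul m hm, map_one]
  exact ⟨Matrix.isUnit_det_of_left_inverse h, Matrix.inv_eq_left_inv h⟩

theorem Prep.gm (hR : Prep R) (P u : Mat r) : R (gm P u) = gm (R P) (R u) := by
  simp only [PW.gm, map_mul, hR.adj]

theorem Prep.posDef (hR : Prep R) {P : Mat r} (hP : P.PosDef) : (R P).PosDef := by
  obtain ⟨u, u', μ, h1, h2, -⟩ := exists_simul_diag hP hP.isHermitian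
  have h3 : P = PW.gm 1 u' := by rw [← h2, gm_gm, h1, gm_one]
  have h4 : R u' * R u = 1 := by rw [← map_mul, mul_eq_one_comm.1 h1, map_one]
  rw [h3, hR.gm, map_one]
  exact gm_posDef PosDef.one h4

/-- bounds on bounded sets -/
theorem Prep.bound (hR : Prep R) (B : ℝ) : ∃ B' : ℝ, 1 ≤ B' ∧ ∀ m : Mat r, ‖m‖ ≤ B →
    ‖R m‖ ≤ B' ∧ ‖fderiv ℝ R m‖ ≤ B' := by
  have hc : Continuous R := hR.sm.continuous
  have hc' : Continuous (fderiv ℝ R) := hR.sm.continuous_fderiv (by simp)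
  have : ProperSpace (Mat r) := FiniteDimensional.proper_real (Mat r)
  obtain ⟨B1, h1⟩ := (isCompact_closedBall (0 : Mat r) B).exists_bound_of_continuousOn
    hc.continuousOn
  obtain ⟨B2, h2⟩ := (isCompact_closedBall (0 : Mat r) B).exists_bound_of_continuousOn
    hc'.continuousOn
  refine ⟨max 1 (max B1 B2), le_max_left _ _, fun m hm => ⟨?_, ?_⟩⟩
  · exact (h1 m (mem_closedBall_zero_iff.2 hm)).trans
      ((le_max_left _ _).trans (le_max_right _ _))
  · exact (h2 m (mem_closedBall_zero_iff.2 hm)).trans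
      ((le_max_right _ _).trans (le_max_right _ _))

theorem Prep.bd (hR : Prep R) {C : ℝ} (hC : 1 ≤ C) : ∃ C' : ℝ, 1 ≤ C' ∧ ∀ P : Mat r, Bd C P →
    Bd C' (R P) := by
  obtain ⟨B, hB, h⟩ := hR.bound (r * C)
  have hC0 : 0 < C := lt_of_lt_of_le one_pos hC
  refine ⟨B, hB, fun P hP => ?_⟩
  have hp := hP.posDef hC0
  refine bd_of_norm (lt_of_lt_of_le one_pos hB) (hR.posDef hp) (h P (hP.norm_le hC0)).1 ?_
  rw [(map_inv_mat R ((Matrix.isUnit_iff_isUnit_det P).1 hp.isUnit)).2]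
  exact (h _ (hP.norm_inv_le hC0)).1

theorem Prep.mc (hR : Prep R) {E : Type} [NormedAddCommGroup E] [InnerProductSpace ℝ E]
    {P : Mat r} (hP : P.PosDef) (X : E →L[ℝ] Mat r) :
    PW.mc (R P) ((fderiv ℝ R P).comp X) = (fderiv ℝ R 1).comp (PW.mc P X) := by
  have hu : IsUnit P.det := (Matrix.isUnit_iff_isUnit_det P).1 hP.isUnit
  obtain ⟨h1, -⟩ := map_inv_mat R hu
  refine ContinuousLinearMap.ext fun v => ?_
  change (R P)⁻¹ * fderiv ℝ R P (X v) = fderiv ℝ R 1 (P⁻¹ * X v)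
  have e : X v = P * (P⁻¹ * X v) := by
    rw [← Matrix.mul_assoc, Matrix.mul_nonsing_inv P hu, Matrix.one_mul]
  have e2 := hR.fderiv_left P (P⁻¹ * X v)
  rw [← e] at e2
  rw [e2, ← Matrix.mul_assoc, Matrix.nonsing_inv_mul _ h1, Matrix.one_mul]

end Pool.Agent.PW
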