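import Pool.Agent.K.MP_65ad7c_ag.C11
import Pool.Agent.K.MP_65ad7c_ag.C1

open MeasureTheory Set Filter Topology Metric Matrix
open scoped ComplexOrder ContDiff Matrix.Norms.Frobenius RealInnerProductSpace ENNReal
open Pool.Agent.Lib.Sob

noncomputable section
namespace Pool.Agent.PW

variable {E : Type} [NormedAddCommGroup E] [InnerProductSpace ℝ E] [FiniteDimensional ℝ E]
  [MeasurableSpace E] [BorelSpace E] {r : ℕ} {Γ : Type} [Group Γ]
  {V : Type} [NormedAddCommGroup V] [NormedSpace ℝ V] [FiniteDimensional ℝ V] {ι : Type}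

theorem nlim0_ex {X : Type} [NormedAddCommGroup X] [ProperSpace X] (𝒰 : Ultrafilter ι)
    {a : ι → X} {M : ℝ} (hb : ∀ᶠ i in 𝒰, ‖a i‖ ≤ M) : ∃ y, ‖y‖ ≤ M ∧ Tendsto a 𝒰 (𝓝 y) := by
  obtain ⟨y, hy, h⟩ := (isCompact_closedBall (0 : X) M).ultrafilter_le_nhds (𝒰.map a)
    (by
      rw [Ultrafilter.coe_map, le_principal_iff, mem_map]
      filter_upwards [hb] with i hi
      exact mem_closedBall_zero_iff.2 hi)
  exact ⟨y, mem_closedBall_zero_iff.1 hy, h⟩

omit [MeasurableSpace E] [BorelSpace E] in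
/-- ultralimits of bounded equi-Lipschitz functions are uniform -/
theorem ulim_lip (𝒰 : Ultrafilter ι) {f : ι → E → V} {L M : ℝ}
    (hb : ∀ᶠ i in 𝒰, (∀ x ∈ ball (0 : E) 2, ‖f i x‖ ≤ M) ∧
      ∀ x ∈ ball (0 : E) 2, ∀ y ∈ ball (0 : E) 2, ‖f i x - f i y‖ ≤ L * ‖x - y‖) :
    ∃ F : E → V, TendstoUniformlyOn f F 𝒰 (ball 0 2) := by
  have : ProperSpace V := FiniteDimensional.proper_real V
  have h1 : ∀ x : E, ∃ y : V, x ∈ ball (0 : E) 2 → Tendsto (fun i => f i x) 𝒰 (𝓝 y) := by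
    intro x
    by_cases hx : x ∈ ball (0 : E) 2
    · obtain ⟨y, -, hy⟩ := nlim0_ex 𝒰 (a := fun i => f i x) (hb.mono fun i hi => hi.1 x hx)
      exact ⟨y, fun _ => hy⟩
    · exact ⟨0, fun h => absurd h hx⟩
  choose F hF using h1
  have hL : ∀ x ∈ ball (0 : E) 2, ∀ y ∈ ball (0 : E) 2, ‖F x - F y‖ ≤ L * ‖x - y‖ :=
    fun x hx y hy => le_of_tendsto ((hF x hx).sub (hF y hy)).norm
      (hb.mono fun i hi => hi.2 x hx y hy)
  refine ⟨F, Metric.tendstoUniformlyOn_iff.2 fun ε hε => ?_⟩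
  have hL0 : 0 < |L| + 1 := by positivity
  have htb : TotallyBounded (ball (0 : E) 2) :=
    (isCompact_closedBall (0 : E) 2).totallyBounded.subset ball_subset_closedBall
  obtain ⟨t, ht, hfin, hcov⟩ := Metric.finite_approx_of_totallyBounded htb
    (ε / 3 / (|L| + 1)) (by positivity)
  have h2 : ∀ᶠ i in 𝒰, ∀ y ∈ t, dist (f i y) (F y) < ε / 3 :=
    (eventually_all_finite hfin).2 fun y hy =>
      Metric.tendsto_nhds.1 (hF y (ht hy)) _ (by positivity)
  filter_upwards [h2, hb] with i hi hi' x hx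
  obtain ⟨y, hy, hxy⟩ := mem_iUnion₂.1 (hcov hx)
  have h3 : L * ‖x - y‖ ≤ ε / 3 := by
    have h4 : ‖x - y‖ < ε / 3 / (|L| + 1) := mem_ball_iff_norm.1 hxy
    rw [lt_div_iff₀ hL0] at h4
    nlinarith [le_abs_self L, norm_nonneg (x - y)]
  have h4 := hL x hx y (ht hy)
  have h5 := hi'.2 x hx y (ht hy)
  have h6 := hi y hy
  have h7 := dist_triangle4 (F x) (F y) (f i y) (f i x)
  rw [dist_comm (F y), dist_comm (f i y) (f i x), dist_eq_norm (F x) (F y),
    dist_eq_norm (f i x) (f i y)] at h7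
  linarith

/-- ultralimits of bounded representations -/
theorem ulim_rep (𝒰 : Ultrafilter ι) {ρ : ι → Γ →* Mat r}
    (hb : ∀ γ, ∃ B : ℝ, ∀ᶠ i in 𝒰, ‖ρ i γ‖ ≤ B) :
    ∃ ρ₀ : Γ →* Mat r, ∀ γ, Tendsto (fun i => ρ i γ) 𝒰 (𝓝 (ρ₀ γ)) := by
  have : ProperSpace (Mat r) := FiniteDimensional.proper_real (Mat r)
  have h1 : ∀ γ, ∃ y : Mat r, Tendsto (fun i => ρ i γ) 𝒰 (𝓝 y) := fun γ => by
    obtain ⟨B, hB⟩ := hb γ
    obtain ⟨y, -, hy⟩ := nlim0_ex 𝒰 hB
    exact ⟨y, hy⟩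
  choose F hF using h1
  refine ⟨{ toFun := F, map_one' := ?_, map_mul' := fun γ γ' => ?_ }, hF⟩
  · refine tendsto_nhds_unique (hF 1) ?_
    simp only [map_one]
    exact tendsto_const_nhds
  · refine tendsto_nhds_unique (hF (γ * γ')) ?_
    simp only [map_mul]
    exact (hF γ).mul (hF γ')

/-- limits of matrices with bounded inverses -/
theorem inv_lim {l : Filter ι} [l.NeBot] {u : ι → Mat r} {u₀ : Mat r} {C : ℝ}
    (hu : Tendsto u l (𝓝 u₀)) (hb : ∀ᶠ i in l, IsUnit (u i).det ∧ ‖(u i)⁻¹‖ ≤ C) :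
    IsUnit u₀.det ∧ ‖u₀⁻¹‖ ≤ C := by
  have : ProperSpace (Mat r) := FiniteDimensional.proper_real (Mat r)
  have hl : (Ultrafilter.of l : Filter ι) ≤ l := Ultrafilter.of_le l
  obtain ⟨v, hv, h1⟩ := nlim0_ex (Ultrafilter.of l) (a := fun i => (u i)⁻¹)
    ((hb.mono fun i hi => hi.2).filter_mono hl)
  have h2 : v * u₀ = 1 := by
    refine tendsto_nhds_unique (h1.mul (hu.mono_left hl)) (tendsto_const_nhds.congr' ?_)
    filter_upwards [hb.filter_mono hl] with i hi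
    exact (nonsing_inv_mul _ hi.1).symm
  exact ⟨isUnit_det_of_left_inverse h2, by rwa [inv_eq_left_inv h2]⟩

omit [MeasurableSpace E] [BorelSpace E] [InnerProductSpace ℝ E] [FiniteDimensional ℝ E] in
/-- inversion preserves uniform convergence -/
theorem tendstoUniformlyOn_inv {l : Filter ι} {u : ι → E → Mat r} {u₀ : E → Mat r} {K : Set E}
    {C : ℝ} (hu : TendstoUniformlyOn u u₀ l K)
    (hb : ∀ᶠ i in l, ∀ x ∈ K, IsUnit (u i x).det ∧ ‖(u i x)⁻¹‖ ≤ C)
    (h0 : ∀ x ∈ K, IsUnit (u₀ x).det ∧ ‖(u₀ x)⁻¹‖ ≤ C) :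
    TendstoUniformlyOn (fun i x => (u i x)⁻¹) (fun x => (u₀ x)⁻¹) l K := by
  refine Metric.tendstoUniformlyOn_iff.2 fun ε hε => ?_
  have hC : 0 < C ^ 2 + 1 := by positivity
  filter_upwards [Metric.tendstoUniformlyOn_iff.1 hu (ε / (C ^ 2 + 1)) (by positivity), hb]
    with i hi hi' x hx
  obtain ⟨h1, h2⟩ := hi' x hx
  obtain ⟨h3, h4⟩ := h0 x hx
  have h5 := hi x hx
  rw [dist_comm, dist_eq_norm, lt_div_iff₀ hC] at h5
  have h6 : (u₀ x)⁻¹ - (u i x)⁻¹ = (u₀ x)⁻¹ * (u i x - u₀ x) * (u i x)⁻¹ := by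
    rw [Matrix.mul_sub, Matrix.sub_mul, Matrix.mul_assoc, mul_nonsing_inv _ h1, Matrix.mul_one,
      nonsing_inv_mul _ h3, Matrix.one_mul]
  have hC0 : 0 ≤ C := (norm_nonneg _).trans h4
  rw [dist_eq_norm, h6]
  have h7 : ‖(u₀ x)⁻¹ * (u i x - u₀ x) * (u i x)⁻¹‖ ≤ C * ‖u i x - u₀ x‖ * C :=
    (norm_mul_le _ _).trans (mul_le_mul ((norm_mul_le _ _).trans
      (mul_le_mul_of_nonneg_right h4 (norm_nonneg _))) h2 (norm_nonneg _) (by positivity))
  nlinarith [norm_nonneg (u i x - u₀ x)]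

omit [FiniteDimensional ℝ V] in
theorem nlim0_int {X : Type} [NormedAddCommGroup X] [NormedSpace ℝ X] {K : Set E}
    (hK : IsCompact K) {D : E → X} (hm : MemLp D 2 (volume.restrict K)) {w : E → X →L[ℝ] V}
    (hw : ContinuousOn w K) : Integrable (fun x => w x (D x)) (volume.restrict K) := by
  have : IsFiniteMeasure ((volume : Measure E).restrict K) :=
    isFiniteMeasure_restrict.2 hK.measure_lt_top.ne
  obtain ⟨B, hB⟩ := hK.exists_bound_of_continuousOn hw
  refine ((hm.integrable one_le_two).norm.const_mul B).mono'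
    ((ContinuousLinearMap.id ℝ (X →L[ℝ] V)).aestronglyMeasurable_comp₂
      (hw.aestronglyMeasurable hK.measurableSet) hm.1) ?_
  filter_upwards [ae_restrict_mem hK.measurableSet] with x hx
  exact (w x).le_of_opNorm_le (hB x hx) _

/-- weak times strong convergence -/
theorem weak_strong {X : Type} [NormedAddCommGroup X] [NormedSpace ℝ X] {K : Set E}
    (hK : IsCompact K) {D : ℕ → E → X} {D₀ : E → X} {C : ℝ}
    (hm : ∀ m, MemLp (D m) 2 (volume.restrict K)) (hm₀ : MemLp D₀ 2 (volume.restrict K))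
    (hb : ∀ m, ∀ᵐ x, x ∈ K → ‖D m x‖ ≤ C)
    (hweak : ∀ w : E → X →L[ℝ] ℝ, MemLp w 2 (volume.restrict K) →
      Tendsto (fun m => ∫ x in K, w x (D m x)) atTop (𝓝 (∫ x in K, w x (D₀ x))))
    {w : ℕ → E → X →L[ℝ] V} {w₀ : E → X →L[ℝ] V} (hw : ∀ m, ContinuousOn (w m) K)
    (hw₀ : ContinuousOn w₀ K) (hu : TendstoUniformlyOn w w₀ atTop K) :
    Tendsto (fun m => ∫ x in K, w m x (D m x)) atTop (𝓝 (∫ x in K, w₀ x (D₀ x))) := by
  have : IsFiniteMeasure ((volume : Measure E).restrict K) :=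
    isFiniteMeasure_restrict.2 hK.measure_lt_top.ne
  have : CompleteSpace V := FiniteDimensional.complete ℝ V
  have h1 : Tendsto (fun m => ∫ x in K, w₀ x (D m x)) atTop (𝓝 (∫ x in K, w₀ x (D₀ x))) := by
    let e := (Module.finBasis ℝ V).equivFunL
    rw [e.toHomeomorph.isInducing.tendsto_nhds_iff, tendsto_pi_nhds]
    intro i
    let l : V →L[ℝ] ℝ := (ContinuousLinearMap.proj (R := ℝ)
      (φ := fun _ : Fin (Module.finrank ℝ V) => ℝ) i).comp e.toContinuousLinearMap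
    have h2 : ContinuousOn (fun x => l.comp (w₀ x)) K := continuousOn_const.clm_comp hw₀
    obtain ⟨B, hB⟩ := hK.exists_bound_of_continuousOn h2
    have h3 := hweak (fun x => l.comp (w₀ x))
      (MemLp.of_bound (h2.aestronglyMeasurable hK.measurableSet) B
        ((ae_restrict_mem hK.measurableSet).mono hB))
    simp only [ContinuousLinearMap.comp_apply] at h3
    rw [l.integral_comp_comm (nlim0_int hK hm₀ hw₀)] at h3
    exact h3.congr fun m => l.integral_comp_comm (nlim0_int hK (hm m) hw₀)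
  have h2 : Tendsto (fun m => (∫ x in K, w m x (D m x)) - ∫ x in K, w₀ x (D m x)) atTop (𝓝 0) := by
    refine Metric.tendsto_nhds.2 fun ε hε => ?_
    have h3 : 0 < |C| * volume.real K + 1 := by positivity
    filter_upwards [Metric.tendstoUniformlyOn_iff.1 hu (ε / (|C| * volume.real K + 1))
      (by positivity)] with m hm'
    rw [dist_zero_right, ← integral_sub (nlim0_int hK (hm m) (hw m)) (nlim0_int hK (hm m) hw₀)]
    have h4 : ‖∫ x in K, (w m x (D m x) - w₀ x (D m x))‖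
        ≤ ε / (|C| * volume.real K + 1) * |C| * volume.real K := by
      refine norm_setIntegral_le_of_norm_le_const_ae' hK.measure_lt_top ?_
      filter_upwards [hb m] with x hx hxK
      have h5 := hm' x hxK
      rw [dist_comm, dist_eq_norm] at h5
      exact ((w m x - w₀ x).le_opNorm (D m x)).trans
        (mul_le_mul h5.le ((hx hxK).trans (le_abs_self C)) (norm_nonneg _) (by positivity))
    refine lt_of_le_of_lt h4 ?_
    rw [mul_assoc, div_mul_eq_mul_div, div_lt_iff₀ h3]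
    nlinarith
  simpa using h2.add h1

end Pool.Agent.PW
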