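import Pool.Agent.K.MP_65ad7c_ag.C23

open MeasureTheory Set Filter Topology Metric Matrix
open scoped ComplexOrder ContDiff Matrix.Norms.Frobenius RealInnerProductSpace ENNReal
open Pool.Agent.Lib.Sob

noncomputable section
namespace Pool.Agent.PW

variable {n r : ℕ}

/-- pairs of uniformly convergent families -/
theorem nlim2_prod {ι X Y Z : Type} [UniformSpace Y] [UniformSpace Z] {l : Filter ι} {K : Set X}
    {f : ι → X → Y} {f₀ : X → Y} {g : ι → X → Z} {g₀ : X → Z} (hf : TendstoUniformlyOn f f₀ l K)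
    (hg : TendstoUniformlyOn g g₀ l K) :
    TendstoUniformlyOn (fun i x => (f i x, g i x)) (fun x => (f₀ x, g₀ x)) l K :=
  fun u hu => (tendsto_id.prodMk tendsto_id : Tendsto (fun i => (i, i)) l (l ×ˢ l)).eventually
    (hf.prodMk hg u hu)

/-- a continuous function of a uniformly convergent family -/
theorem nlim2_comp {ι X Y Z : Type} [UniformSpace Y] [UniformSpace Z] {l : Filter ι} {K : Set X}
    {f : ι → X → Y} {f₀ : X → Y} (hf : TendstoUniformlyOn f f₀ l K) (hK : IsCompact (f₀ '' K))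
    (Φ : Y → Z) (hΦ : ∀ x ∈ K, ContinuousAt Φ (f₀ x)) :
    TendstoUniformlyOn (fun i x => Φ (f i x)) (fun x => Φ (f₀ x)) l K := fun u hu => by
  filter_upwards [hf _ (hK.uniformContinuousAt_of_continuousAt Φ
    (by rintro _ ⟨x, hx, rfl⟩; exact hΦ x hx) hu)] with i hi x hx
  exact hi x hx (mem_image_of_mem _ hx)

/-- the test functional -/
def nlim2W (e : EC n) (y : ℝ × ℝ × ℝ × Mat r × Mat r) : (EC n →L[ℝ] Mat r) →L[ℝ] Mat r :=
  (-(y.1 * y.2.1)) • (ContinuousLinearMap.mulLeftRight ℝ (Mat r) y.2.2.2.1 y.2.2.2.2).comp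
      (ContinuousLinearMap.apply ℝ (Mat r) e) +
    (-(y.1 * y.2.2.1)) • (ContinuousLinearMap.mulLeftRight ℝ (Mat r) y.2.2.2.1 y.2.2.2.2).comp
      (ContinuousLinearMap.apply ℝ (Mat r) (IL n e))

theorem nlim2W_cont (e : EC n) : Continuous (nlim2W (r := r) e) := by
  unfold nlim2W
  fun_prop

theorem nlim2W_apply (e : EC n) (c p q : ℝ) (h g : Mat r) (X : EC n →L[ℝ] Mat r) :
    nlim2W e (c, p, q, h⁻¹, g) X = c • (-rmul (rotB p q (mc h X)) g) e := by
  simp [nlim2W, rotB, mc, add_mul, mul_smul, Complex.coe_smul, add_comm]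

theorem nlim2_inv {a : Mat r} (ha : IsUnit a.det) : ContinuousAt (fun X : Mat r => X⁻¹) a := by
  obtain ⟨u, hu⟩ := ha
  exact continuousAt_matrix_inv a (hu ▸ NormedRing.inverse_continuousAt u)

theorem nlim2_at (e : EC n) {y : ℝ × ℝ × ℝ × Mat r × Mat r} (hy : IsUnit y.2.2.2.1.det) :
    ContinuousAt (fun y : ℝ × ℝ × ℝ × Mat r × Mat r =>
      nlim2W e (y.1, y.2.1, y.2.2.1, y.2.2.2.1⁻¹, y.2.2.2.2)) y := by
  refine (nlim2W_cont e).continuousAt.comp (continuousAt_fst.prodMk (ContinuousAt.prodMk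
    (by fun_prop) (ContinuousAt.prodMk (by fun_prop) (ContinuousAt.prodMk ?_ (by fun_prop)))))
  exact ContinuousAt.comp (f := fun y : ℝ × ℝ × ℝ × Mat r × Mat r => y.2.2.2.1) (nlim2_inv hy)
    (by fun_prop)

theorem nlim2_unit {α : EC n → EC n →L[ℝ] EC n} {C : ℝ} (hC : 1 ≤ C) {h : EC n → Mat r}
    {D : EC n → EC n →L[ℝ] Mat r} (H : HL α C h D) {x : EC n} (hx : x ∈ ball (0 : EC n) 2) :
    IsUnit (h x).det :=
  (Matrix.isUnit_iff_isUnit_det _).1 ((H.bd x hx).posDef (by linarith)).isUnit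

/-- uniform limits of frames -/
theorem frame_limit {α : EC n → EC n →L[ℝ] EC n} {C : ℝ} (hC : 1 ≤ C)
    {h g : ℕ → EC n → Mat r} {D : ℕ → EC n → EC n →L[ℝ] Mat r} {h₀ g₀ : EC n → Mat r}
    {D₀ : EC n → EC n →L[ℝ] Mat r} (H : ∀ m, HL α C (h m) (D m)) (H₀ : HL α C h₀ D₀)
    (hu : TendstoUniformlyOn h h₀ atTop (ball 0 2)) (hw : WkC D D₀) {p q : ℕ → ℝ} {p₀ q₀ : ℝ}
    (hp : Tendsto p atTop (𝓝 p₀)) (hq : Tendsto q atTop (𝓝 q₀))
    (hf : ∀ m, Frame (ball 0 2) (rotA (p m) (q m) (h m) (D m)) (g m)) (hb : ∀ m, GB C (g m))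
    (hg : TendstoUniformlyOn g g₀ atTop (ball 0 2)) :
    Frame (ball 0 2) (rotA p₀ q₀ h₀ D₀) g₀ ∧ GB C g₀ := by
  have hpt : ∀ x ∈ ball (0 : EC n) 2, Tendsto (fun m => g m x) atTop (𝓝 (g₀ x)) :=
    fun x hx => hg.tendsto_at hx
  have hinv : ∀ x ∈ ball (0 : EC n) 2, IsUnit (g₀ x).det ∧ ‖(g₀ x)⁻¹‖ ≤ C := fun x hx =>
    inv_lim (hpt x hx) (Eventually.of_forall fun m => ⟨(hf m).unit x hx, (hb m x hx).2⟩)
  have hc : ContinuousOn g₀ (ball 0 2) :=
    hg.continuousOn (Eventually.of_forall fun m => (hf m).cont).frequently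
  refine ⟨⟨hc, fun x hx => (hinv x hx).1, LocLp.of_continuousOn hc, ?_, fun φ hφ e => ?_⟩,
    fun x hx => ⟨le_of_tendsto' (hpt x hx).norm fun m => (hb m x hx).1, (hinv x hx).2⟩⟩
  · have hA := locLp_mc isOpen_ball H₀.wd (H₀.lbd hC)
    have hB : LocLp 2 (ball 0 2) (rotA p₀ q₀ h₀ D₀) := fun K hK hKU =>
      ((hA K hK hKU).const_smul (p₀ : ℂ)).add (((hA.clm
        ((ContinuousLinearMap.compL ℝ (EC n) (EC n) (Mat r)).flip (IL n))) K hK hKU).const_smul
          (q₀ : ℂ))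
    exact (locLp_bilin_lb ((ContinuousLinearMap.compL ℝ (EC n) (Mat r) (Mat r)).comp
      (ContinuousLinearMap.mul ℝ (Mat r)).flip) (LocLp.of_continuousOn (n := 2) hc)
      (LB.of_continuousOn hc) hB).neg
  have hK : IsCompact (tsupport φ) := hφ.2.1
  have hKU := hφ.2.2
  have h0 : ∀ x ∉ ball (0 : EC n) 2, fderiv ℝ φ x e = 0 := fun x hx =>
    image_eq_zero_of_notMem_tsupport (f := fun x => fderiv ℝ φ x e) fun h =>
      hx (hKU (tsupport_fderiv_apply_subset ℝ e h))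
  have h1 : Tendsto (fun m => ∫ x, fderiv ℝ φ x e • g m x) atTop
      (𝓝 (∫ x, fderiv ℝ φ x e • g₀ x)) := by
    refine tendsto_integral_of_dominated_convergence (fun x => ‖fderiv ℝ φ x e‖ * C)
      (fun m => ((hf m).wd.1.integrable_dtest (by norm_num) hφ e).1)
      (((hφ.continuous_fderiv_apply e).integrable_of_hasCompactSupport
        (hφ.2.1.fderiv_apply ℝ e)).norm.mul_const C)
      (fun m => Eventually.of_forall fun x => ?_) (Eventually.of_forall fun x => ?_)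
    · by_cases hx : x ∈ ball (0 : EC n) 2
      · rw [norm_smul]
        exact mul_le_mul_of_nonneg_left (hb m x hx).1 (norm_nonneg _)
      · simp [h0 x hx]
    · by_cases hx : x ∈ ball (0 : EC n) 2
      · exact (hpt x hx).const_smul _
      · simp [h0 x hx]
  have hcont : ∀ {p q : ℝ} {h g : EC n → Mat r}, ContinuousOn h (ball 0 2) →
      ContinuousOn g (ball 0 2) → ContinuousOn (fun x => (φ x, p, q, h x, g x)) (tsupport φ) :=
    fun h1 h2 => hφ.continuous.continuousOn.prodMk (continuousOn_const.prodMk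
      (continuousOn_const.prodMk ((h1.mono hKU).prodMk (h2.mono hKU))))
  have h2 := weak_strong (w := fun m x => nlim2W e (φ x, p m, q m, (h m x)⁻¹, g m x))
    (w₀ := fun x => nlim2W e (φ x, p₀, q₀, (h₀ x)⁻¹, g₀ x)) hK
    (fun m => (H m).wd.2.1 _ hK hKU) (H₀.wd.2.1 _ hK hKU)
    (fun m => (H m).dbd.mono fun x hx hxK => hx (hKU hxK)) (hw _ hK hKU)
    (fun m x hx => (nlim2_at e (y := (φ x, p m, q m, h m x, g m x))
      (nlim2_unit hC (H m) (hKU hx))).comp_continuousWithinAt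
        (f := fun x => (φ x, p m, q m, h m x, g m x)) (hcont (H m).cont (hf m).cont x hx))
    (fun x hx => (nlim2_at e (y := (φ x, p₀, q₀, h₀ x, g₀ x))
      (nlim2_unit hC H₀ (hKU hx))).comp_continuousWithinAt
        (f := fun x => (φ x, p₀, q₀, h₀ x, g₀ x)) (hcont H₀.cont hc x hx))
    (nlim2_comp (nlim2_prod (f := fun _ => φ) (fun u hu => Eventually.of_forall fun _ _ _ =>
      refl_mem_uniformity hu) (nlim2_prod (hp.tendstoUniformlyOn_const _)
        (nlim2_prod (hq.tendstoUniformlyOn_const _) (nlim2_prod (hu.mono hKU) (hg.mono hKU)))))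
      (hK.image_of_continuousOn (hcont H₀.cont hc))
      (fun y => nlim2W e (y.1, y.2.1, y.2.2.1, y.2.2.2.1⁻¹, y.2.2.2.2))
      fun x hx => nlim2_at e (nlim2_unit hC H₀ (hKU hx)))
  have h3 : ∀ (p q : ℝ) (h g : EC n → Mat r) (D : EC n → EC n →L[ℝ] Mat r),
      ∫ x in tsupport φ, nlim2W e (φ x, p, q, (h x)⁻¹, g x) (D x) =
        ∫ x, φ x • (-rmul (rotA p q h D x) (g x)) e := fun p q h g D => by
    simp only [nlim2W_apply]
    exact setIntegral_eq_integral_of_forall_compl_eq_zero fun x hx => by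
      rw [image_eq_zero_of_notMem_tsupport hx, zero_smul]
  simp only [h3] at h2
  exact tendsto_nhds_unique h1 (h2.neg.congr fun m => ((hf m).wd.2.2 φ hφ e).symm)

/-- the local limit along any filter -/
theorem lim_local {α : EC n → EC n →L[ℝ] EC n} (hα : ContinuousOn α (ball 0 2)) {ι : Type}
    {l : Filter ι} [l.NeBot] {C t₀ : ℝ} (hC : 1 ≤ C) {t : ι → ℝ} {h g : ι → EC n → Mat r}
    {D : ι → EC n → EC n →L[ℝ] Mat r} {h₀ g₀ : EC n → Mat r}
    (H : ∀ᶠ i in l, HL α C (h i) (D i) ∧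
      Frame (ball 0 2) (rotA (pT (t i)) (qT (t i)) (h i) (D i)) (g i) ∧ GB C (g i))
    (ht : Tendsto t l (𝓝 t₀)) (hh : TendstoUniformlyOn h h₀ l (ball 0 2))
    (hg : TendstoUniformlyOn g g₀ l (ball 0 2)) :
    ∃ D₀, HL α C h₀ D₀ ∧ Frame (ball 0 2) (rotA (pT t₀) (qT t₀) h₀ D₀) g₀ ∧ GB C g₀ := by
  have key : ∀ m : ℕ, ∃ i, (HL α C (h i) (D i) ∧
      Frame (ball 0 2) (rotA (pT (t i)) (qT (t i)) (h i) (D i)) (g i) ∧ GB C (g i)) ∧
      dist (t i) t₀ < 1 / ((m : ℝ) + 1) ∧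
      (∀ x ∈ ball (0 : EC n) 2, dist (h₀ x) (h i x) < 1 / ((m : ℝ) + 1)) ∧
      ∀ x ∈ ball (0 : EC n) 2, dist (g₀ x) (g i x) < 1 / ((m : ℝ) + 1) := fun m =>
    (H.and ((Metric.tendsto_nhds.1 ht _ Nat.one_div_pos_of_nat).and
      ((Metric.tendstoUniformlyOn_iff.1 hh _ Nat.one_div_pos_of_nat).and
        (Metric.tendstoUniformlyOn_iff.1 hg _ Nat.one_div_pos_of_nat)))).exists
  choose i h1 h2 h3 h4 using key
  have hε : ∀ ε > (0 : ℝ), ∀ᶠ m : ℕ in atTop, 1 / ((m : ℝ) + 1) < ε := fun ε hε =>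
    tendsto_one_div_add_atTop_nhds_zero_nat.eventually (gt_mem_nhds hε)
  have ut : Tendsto (fun m => t (i m)) atTop (𝓝 t₀) := Metric.tendsto_nhds.2 fun ε h =>
    (hε ε h).mono fun m hm => (h2 m).trans hm
  have uh : TendstoUniformlyOn (fun m => h (i m)) h₀ atTop (ball 0 2) :=
    Metric.tendstoUniformlyOn_iff.2 fun ε h => (hε ε h).mono fun m hm x hx => (h3 m x hx).trans hm
  have ug : TendstoUniformlyOn (fun m => g (i m)) g₀ atTop (ball 0 2) :=
    Metric.tendstoUniformlyOn_iff.2 fun ε h => (hε ε h).mono fun m hm x hx => (h4 m x hx).trans hm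
  obtain ⟨D₀, H₀, hw⟩ := hl_limit hα hC (fun m => (h1 m).1) uh
  have cp : Continuous pT := by unfold pT; fun_prop
  have cq : Continuous qT := by unfold qT; fun_prop
  exact ⟨D₀, H₀, frame_limit hC (fun m => (h1 m).1) H₀ uh hw ((cp.tendsto _).comp ut)
    ((cq.tendsto _).comp ut) (fun m => (h1 m).2.1) (fun m => (h1 m).2.2) ug⟩

end Pool.Agent.PW
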