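import Pool.Agent.K.MP_65ad7c_ag.C9
import Pool.Agent.K.MP_65ad7c_ag.C0
import Pool.Agent.K.MP_65ad7c_ag.C1

-- part Pool.Agent.P.MP_65ad7c_ag.ZConj
section

open MeasureTheory Set Filter Topology Metric Matrix
open scoped ComplexOrder ContDiff Matrix.Norms.Frobenius RealInnerProductSpace ENNReal
open Pool.Agent.Lib.Sob

noncomputable section
namespace Pool.Agent.PW

variable {E : Type} [NormedAddCommGroup E] [InnerProductSpace ℝ E] [FiniteDimensional ℝ E]
  [MeasurableSpace E] [BorelSpace E] {r : ℕ} {U : Set E} {Γ : Type} [Group Γ]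
  {V : Type} [NormedAddCommGroup V] [NormedSpace ℝ V]
  {A : Atlas E Γ} {ρ ρ' : Γ →* Mat r} {H h : A.ι → E → Mat r}
  {D : A.ι → E → E →L[ℝ] Mat r} {C M : ℝ}

theorem zconj_inv {u u' : Mat r} (hu : u * u' = 1) (P : Mat r) :
    (gm P u)⁻¹ = u' * P⁻¹ * u'ᴴ := by
  have e : u⁻¹ = u' := Matrix.inv_eq_right_inv hu
  rw [gm, Matrix.mul_inv_rev, Matrix.mul_inv_rev, ← Matrix.conjTranspose_nonsing_inv, e,
    Matrix.mul_assoc]

omit [FiniteDimensional ℝ E] [MeasurableSpace E] [BorelSpace E] in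
theorem zconj_mc {u u' : Mat r} (hu : u * u' = 1) (P : Mat r) (X : E →L[ℝ] Mat r) (v : E) :
    mc (gm P u) (lmul uᴴ (rmul X u)) v = u' * mc P X v * u := by
  have e : u'ᴴ * uᴴ = 1 := by rw [← conjTranspose_mul, hu, conjTranspose_one]
  simp only [mc, lmul_apply, rmul_apply, zconj_inv hu]
  calc u' * P⁻¹ * u'ᴴ * (uᴴ * (X v * u)) = u' * P⁻¹ * (u'ᴴ * uᴴ) * (X v * u) := by
        simp only [Matrix.mul_assoc]
    _ = _ := by rw [e]; simp only [Matrix.mul_assoc, Matrix.one_mul]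

omit [MeasurableSpace E] [BorelSpace E] in
theorem zconj_en {u u' : Mat r} (hu : u * u' = 1) (α : E →L[ℝ] E) (P : Mat r)
    (X : E →L[ℝ] Mat r) : en α (gm P u) (lmul uᴴ (rmul X u)) = en α P X := by
  simp only [en, pair, zconj_mc hu]
  refine Finset.sum_congr rfl fun p _ => ?_
  congr 1
  generalize mc P X (ob E p) = Y
  generalize mc P X (α (ob E p)) = Z
  calc (u' * Y * u * (u' * Z * u)).trace = (u' * (Y * (u * u') * Z * u)).trace := by
        simp only [Matrix.mul_assoc]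
    _ = (Y * (u * u') * Z * u * u').trace := Matrix.trace_mul_comm _ _
    _ = (Y * Z).trace := by rw [Matrix.mul_assoc _ u u', hu]; simp

/-- two sided multiplication -/
def zconj_L (a b : Mat r) : Mat r →L[ℝ] Mat r :=
  (ContinuousLinearMap.mul ℝ (Mat r) a).comp ((ContinuousLinearMap.mul ℝ (Mat r)).flip b)

theorem zconj_L_apply (a b X : Mat r) : zconj_L a b X = a * X * b :=
  (Matrix.mul_assoc a X b).symm

theorem zconj_harm {u u' : Mat r} (hu : u * u' = 1) {α : E → E →L[ℝ] E}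
    {X Y : E → E →L[ℝ] Mat r} (hX : Harm U α X) (hY : ∀ x v, Y x v = u' * X x v * u) :
    Harm U α Y := by
  intro φ hφ
  have hu' : u' * u = 1 := mul_eq_one_comm.1 hu
  let L : Mat r ≃L[ℝ] Mat r := ContinuousLinearEquiv.equivOfInverse (zconj_L u' u) (zconj_L u u')
    (fun Z => by
      rw [zconj_L_apply, zconj_L_apply]
      calc u * (u' * Z * u) * u' = (u * u') * Z * (u * u') := by simp only [Matrix.mul_assoc]
        _ = Z := by rw [hu]; simp)
    (fun Z => by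
      rw [zconj_L_apply, zconj_L_apply]
      calc u' * (u * Z * u') * u = (u' * u) * Z * (u' * u) := by simp only [Matrix.mul_assoc]
        _ = Z := by rw [hu']; simp)
  have e : ∀ Z, L Z = u' * Z * u := fun Z => zconj_L_apply _ _ _
  have := L.integral_comp_comm (μ := volume)
    fun x => ∑ p, fderiv ℝ φ x (α x (ob E p)) • X x (ob E p)
  rw [hX φ hφ, map_zero] at this
  rw [← this]
  refine integral_congr_ae (Eventually.of_forall fun x => ?_)
  beta_reduce
  rw [map_sum]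
  simp only [map_smul]
  simp only [e, hY]

/-- constant change of frame -/
theorem Atlas.HM.conj {u u' : Mat r} (hc : Cj u u' ρ ρ') (hC : 1 ≤ C) (hh : A.HM ρ C h D)
    (he : A.EB M h D) : ∃ C' : ℝ, 1 ≤ C' ∧
      A.HM ρ' C' (fun a x => gm (h a x) u) (fun a x => lmul uᴴ (rmul (D a x) u)) ∧
      A.EB M (fun a x => gm (h a x) u) fun a x => lmul uᴴ (rmul (D a x) u) := by
  obtain ⟨hu, hρ⟩ := hc
  have hG : (gm 1 u).PosDef := gm_posDef PosDef.one hu
  obtain ⟨B, hB1, hB2, hB3⟩ : ∃ B : ℝ, 1 ≤ B ∧ Bd B (gm 1 u) ∧ ‖uᴴ‖ * ‖u‖ ≤ B := by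
    have a1 := norm_nonneg (gm 1 u)
    have a2 := norm_nonneg (gm 1 u)⁻¹
    have a3 : 0 ≤ ‖uᴴ‖ * ‖u‖ := by positivity
    refine ⟨1 + ‖gm 1 u‖ + ‖(gm 1 u)⁻¹‖ + ‖uᴴ‖ * ‖u‖, by linarith, ?_, by linarith⟩
    exact bd_of_norm (by linarith) hG (by linarith) (by linarith)
  have hbd : ∀ {c : ℝ} {P : Mat r}, 1 ≤ c → Bd c P → Bd (B * c) (gm P u) := by
    intro c P hc1 hP
    exact Obst.trans (by linarith) (by linarith) hB2 (Obst.gm hP u)
  refine ⟨B * C, one_le_mul_of_one_le_of_one_le hB1 hC, ⟨fun a => ?_, fun a K hK hKU => ?_,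
    fun a b x hx => ?_, fun a => ?_, fun a x hx => hbd hC (hh.bd a x hx), fun a => ?_⟩,
    fun a => ?_⟩
  · refine ((hh.wd a).clm (by norm_num) (zconj_L uᴴ u)).congr' (fun x _ => ?_) fun x _ => ?_
    · exact zconj_L_apply _ _ _
    · rfl
  · obtain ⟨c, hc1, hc2⟩ := hh.lbd a K hK hKU
    exact ⟨B * c, one_le_mul_of_one_le_of_one_le hB1 hc1, fun x hx => hbd hc1 (hc2 x hx)⟩
  · beta_reduce
    rw [hh.mc a b x hx, gm_gm, gm_gm, hρ]
    congr 1
    rw [← Matrix.mul_assoc, ← Matrix.mul_assoc, hu, Matrix.one_mul]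
  · exact zconj_harm hu (hh.harm a) fun x v => zconj_mc hu _ _ v
  · rw [ENNReal.ofReal_mul (by linarith)]
    refine le_trans (eLpNorm_le_mul_eLpNorm_of_ae_le_mul (g := D a) (c := B)
      (Eventually.of_forall fun x => ?_) 2) (mul_le_mul_right (hh.n2 a) _)
    calc ‖lmul uᴴ (rmul (D a x) u)‖ ≤ ‖uᴴ‖ * ‖rmul (D a x) u‖ := norm_lmul_le _ _
      _ ≤ ‖uᴴ‖ * (‖D a x‖ * ‖u‖) := by gcongr; exact norm_rmul_le _ _
      _ = ‖uᴴ‖ * ‖u‖ * ‖D a x‖ := by ring
      _ ≤ B * ‖D a x‖ := by gcongr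
  · simp only [zconj_en hu]
    exact he a

theorem Atlas.HasHM.conj {u u' : Mat r} (hc : Cj u u' ρ ρ') (hh : A.HasHM M ρ) :
    A.HasHM M ρ' := by
  obtain ⟨C, h, D, hC, h1, h2⟩ := hh
  obtain ⟨C', hC', h3, h4⟩ := h1.conj hc hC h2
  exact ⟨C', _, _, hC', h3, h4⟩

theorem Atlas.HasHM.mono {M' : ℝ} (hh : A.HasHM M ρ) (hM : M ≤ M') : A.HasHM M' ρ := by
  obtain ⟨C, h, D, hC, h1, h2⟩ := hh
  exact ⟨C, h, D, hC, h1, fun a => (h2 a).trans (ENNReal.ofReal_le_ofReal hM)⟩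

/-- modification on a null set -/
theorem Atlas.HM.modify (hh : A.HM ρ C h D) (hH : A.Ref ρ H) {C' : ℝ} (h1 : 1 ≤ C')
    (hs : ∀ a, ∀ᵐ x, x ∈ ball (0 : E) 1 → sg (h a x) (H a x) ≤ C') :
    ∃ h' : A.ι → E → Mat r, A.MC (ball 0 6) ρ h' ∧
      (∀ a, ∀ x ∈ ball (0 : E) 6, Obst C' (H a x) (h' a x)) ∧
      ∀ a, ∀ᵐ x, x ∈ ball (0 : E) 6 → h' a x = h a x := by
  classical
  have key : ∀ a b, ∀ x ∈ A.ov (ball 0 6) a b,
      sg (h b (A.T a b x)) (H b (A.T a b x)) = sg (h a x) (H a x) := by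
    intro a b x hx
    rw [hh.mc a b x hx, hH.mc a b x hx]
    refine sg_gm (u' := ρ (A.c a b x)⁻¹) ((hh.lbd a).posDef x hx.2.1) (hH.pos a x hx.2.1) ?_
    rw [← map_mul, mul_inv_cancel, map_one]
  refine ⟨fun a x => if sg (h a x) (H a x) ≤ C' then h a x else H a x, fun a b x hx => ?_,
    fun a x hx => ?_, fun a => ?_⟩
  · simp only [key a b x hx]
    split_ifs
    · exact hh.mc a b x hx
    · exact hH.mc a b x hx
  · beta_reduce
    split_ifs with h2
    · exact obst_of_sg (hH.pos a x hx) ((hh.lbd a).posDef x hx) (by linarith)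
        (by rw [sg_comm]; exact h2)
    · exact Obst.refl (hH.pos a x hx).posSemidef h1
  · filter_upwards [A.ae_cover (p := fun b y => sg (h b y) (H b y) ≤ C') hs a] with x hx hx6
    obtain ⟨b, hb1, hb2, hb3⟩ := hx hx6
    rw [key a b x ⟨hb1, hx6, ball_subset_ball (by norm_num) hb2⟩] at hb3
    exact if_pos hb3

end Pool.Agent.PW
end
end

-- part Pool.Agent.P.MP_65ad7c_ag.ZSum
section

open MeasureTheory Set Filter Topology Metric Matrix
open scoped ComplexOrder ContDiff Matrix.Norms.Frobenius RealInnerProductSpace ENNReal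
open Pool.Agent.Lib.Sob

noncomputable section
namespace Pool.Agent.PW

variable {E : Type} [NormedAddCommGroup E] [InnerProductSpace ℝ E] [FiniteDimensional ℝ E]
  [MeasurableSpace E] [BorelSpace E] {r : ℕ} {U : Set E} {Γ : Type} [Group Γ]
  {V : Type} [NormedAddCommGroup V] [NormedSpace ℝ V]
  {A : Atlas E Γ} {ρ ρ' : Γ →* Mat r} {H h : A.ι → E → Mat r}
  {D : A.ι → E → E →L[ℝ] Mat r} {C M : ℝ}

section alg
variable {s t : ℕ} (e : Fin s ⊕ Fin t ≃ Fin r)

theorem zsum_add (X X' : Mat s) (Y Y' : Mat t) :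
    bdiag e (X + X') (Y + Y') = bdiag e X Y + bdiag e X' Y' := by
  ext i j
  obtain ⟨i, rfl⟩ := e.surjective i
  obtain ⟨j, rfl⟩ := e.surjective j
  rcases i with i | i <;> rcases j with j | j <;> simp [bdiag]

theorem zsum_sub (X X' : Mat s) (Y Y' : Mat t) :
    bdiag e (X - X') (Y - Y') = bdiag e X Y - bdiag e X' Y' := by
  ext i j
  obtain ⟨i, rfl⟩ := e.surjective i
  obtain ⟨j, rfl⟩ := e.surjective j
  rcases i with i | i <;> rcases j with j | j <;> simp [bdiag]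

theorem zsum_smul (c : ℝ) (X : Mat s) (Y : Mat t) :
    bdiag e (c • X) (c • Y) = c • bdiag e X Y := by
  ext i j
  obtain ⟨i, rfl⟩ := e.surjective i
  obtain ⟨j, rfl⟩ := e.surjective j
  rcases i with i | i <;> rcases j with j | j <;> simp [bdiag]

theorem zsum_mul (X X' : Mat s) (Y Y' : Mat t) :
    bdiag e (X * X') (Y * Y') = bdiag e X Y * bdiag e X' Y' := by
  simp only [bdiag, reindex_apply, submatrix_mul_equiv, fromBlocks_multiply, Matrix.mul_zero,
    Matrix.zero_mul, add_zero, zero_add]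

theorem zsum_one : bdiag e (1 : Mat s) (1 : Mat t) = 1 := by
  simp only [bdiag, reindex_apply, fromBlocks_one, submatrix_one_equiv]

theorem zsum_adj (X : Mat s) (Y : Mat t) : bdiag e Xᴴ Yᴴ = (bdiag e X Y)ᴴ := by
  simp only [bdiag, reindex_apply, conjTranspose_submatrix, fromBlocks_conjTranspose,
    conjTranspose_zero]

theorem zsum_trace (X : Mat s) (Y : Mat t) : (bdiag e X Y).trace = X.trace + Y.trace := by
  simp only [Matrix.trace, Matrix.diag]
  rw [← e.sum_comp, Fintype.sum_sum_type]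
  simp [bdiag]

theorem zsum_inv {X : Mat s} {Y : Mat t} (hX : X.PosDef) (hY : Y.PosDef) :
    (bdiag e X Y)⁻¹ = bdiag e X⁻¹ Y⁻¹ := by
  apply Matrix.inv_eq_right_inv
  rw [← zsum_mul, Matrix.mul_nonsing_inv _ ((isUnit_iff_isUnit_det _).1 hX.isUnit),
    Matrix.mul_nonsing_inv _ ((isUnit_iff_isUnit_det _).1 hY.isUnit), zsum_one]

theorem zsum_psd {X : Mat s} {Y : Mat t} (hX : X.PosSemidef) (hY : Y.PosSemidef) :
    (bdiag e X Y).PosSemidef := by
  unfold bdiag
  rw [reindex_apply]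
  refine PosSemidef.submatrix ?_ _
  rw [posSemidef_iff_dotProduct_mulVec]
  refine ⟨IsHermitian.fromBlocks hX.isHermitian (by simp) hY.isHermitian, fun x => ?_⟩
  rw [← Sum.elim_comp_inl_inr x, fromBlocks_mulVec, Function.star_sumElim,
    sumElim_dotProduct_sumElim]
  simp only [Matrix.zero_mulVec, add_zero, zero_add, Sum.elim_comp_inl, Sum.elim_comp_inr]
  exact add_nonneg (hX.dotProduct_mulVec_nonneg _) (hY.dotProduct_mulVec_nonneg _)

theorem zsum_bd {X : Mat s} {Y : Mat t} (hX : Bd C X) (hY : Bd C Y) : Bd C (bdiag e X Y) := by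
  constructor
  · rw [← zsum_one e, ← zsum_smul, ← zsum_sub]
    exact zsum_psd e hX.1 hY.1
  · rw [← zsum_one e, ← zsum_smul, ← zsum_sub]
    exact zsum_psd e hX.2 hY.2

theorem zsum_gm (X u : Mat s) (Y v : Mat t) :
    gm (bdiag e X Y) (bdiag e u v) = bdiag e (gm X u) (gm Y v) := by
  unfold gm
  rw [← zsum_adj, ← zsum_mul, ← zsum_mul]

/-- the first block as a linear map -/
def zsumL : Mat s →L[ℝ] Mat r :=
  LinearMap.toContinuousLinearMap
    { toFun := fun X => bdiag e X 0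
      map_add' := fun X Y => by rw [← zsum_add, add_zero]
      map_smul' := fun c X => by rw [RingHom.id_apply, ← zsum_smul, smul_zero] }

/-- the second block as a linear map -/
def zsumR : Mat t →L[ℝ] Mat r :=
  LinearMap.toContinuousLinearMap
    { toFun := fun Y => bdiag e 0 Y
      map_add' := fun X Y => by rw [← zsum_add, add_zero]
      map_smul' := fun c X => by rw [RingHom.id_apply, ← zsum_smul, smul_zero] }

theorem zsum_split (X : Mat s) (Y : Mat t) : zsumL e X + zsumR e Y = bdiag e X Y := by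
  change bdiag e X 0 + bdiag e 0 Y = _
  rw [← zsum_add, add_zero, zero_add]

/-- the direct sum of two forms -/
def zsumD (X : E →L[ℝ] Mat s) (Y : E →L[ℝ] Mat t) : E →L[ℝ] Mat r :=
  (zsumL e).comp X + (zsumR e).comp Y

omit [FiniteDimensional ℝ E] [MeasurableSpace E] [BorelSpace E] in
theorem zsumD_apply (X : E →L[ℝ] Mat s) (Y : E →L[ℝ] Mat t) (v : E) :
    zsumD e X Y v = bdiag e (X v) (Y v) := zsum_split e _ _

omit [FiniteDimensional ℝ E] [MeasurableSpace E] [BorelSpace E] in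
theorem zsum_mc {P : Mat s} {Q : Mat t} (hP : P.PosDef) (hQ : Q.PosDef) (X : E →L[ℝ] Mat s)
    (Y : E →L[ℝ] Mat t) (v : E) :
    mc (bdiag e P Q) (zsumD e X Y) v = bdiag e (mc P X v) (mc Q Y v) := by
  simp only [mc, lmul_apply, zsumD_apply]
  rw [zsum_inv e hP hQ, ← zsum_mul]

omit [MeasurableSpace E] [BorelSpace E] in
theorem zsum_en {P : Mat s} {Q : Mat t} (hP : P.PosDef) (hQ : Q.PosDef) (α : E →L[ℝ] E)
    (X : E →L[ℝ] Mat s) (Y : E →L[ℝ] Mat t) :
    en α (bdiag e P Q) (zsumD e X Y) = en α P X + en α Q Y := by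
  simp only [en, pair, zsum_mc e hP hQ, ← zsum_mul, zsum_trace, Complex.add_re,
    Finset.sum_add_distrib]

theorem zsum_wd {u : E → Mat s} {v : E → Mat t} {X : E → E →L[ℝ] Mat s} {Y : E → E →L[ℝ] Mat t}
    (hu : WD 2 U u X) (hv : WD 2 U v Y) :
    WD 2 U (fun x => bdiag e (u x) (v x)) fun x => zsumD e (X x) (Y x) :=
  ((hu.clm one_le_two (zsumL e)).add one_le_two (hv.clm one_le_two (zsumR e))).congr'
    (fun _ _ => zsum_split e _ _) fun _ _ => rfl

omit [InnerProductSpace ℝ E] [FiniteDimensional ℝ E] [MeasurableSpace E] [BorelSpace E] in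
theorem zsum_lbd {u : E → Mat s} {v : E → Mat t} (hu : LBd U u) (hv : LBd U v) :
    LBd U fun x => bdiag e (u x) (v x) := by
  intro K hK hKU
  obtain ⟨C₁, a1, b1⟩ := hu K hK hKU
  obtain ⟨C₂, a2, b2⟩ := hv K hK hKU
  refine ⟨max C₁ C₂, le_max_of_le_left a1, fun x hx => zsum_bd e ?_ ?_⟩
  · exact (b1 x hx).mono (by linarith) (le_max_left _ _)
  · exact (b2 x hx).mono (by linarith) (le_max_right _ _)

end alg

/-- the integrand of the weak equation is integrable -/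
theorem zsum_int {α : E → E →L[ℝ] E} (hα : ContinuousOn α U) {X : E → E →L[ℝ] Mat r}
    (hX : LocLp 2 U X) {φ : E → ℝ} (hφ : IsTest U φ) :
    Integrable fun x => ∑ p, fderiv ℝ φ x (α x (ob E p)) • X x (ob E p) := by
  refine integrable_finsetSum _ fun p _ => ?_
  have h1 : ContinuousOn (fun x => fderiv ℝ φ x (α x (ob E p))) U :=
    hφ.continuous_fderiv.continuousOn.clm_apply (hα.clm_apply continuousOn_const)
  have h2 := locLp_one_of_two ((hX.apply (ob E p)).smul h1)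
  have h3 := h2.memLp_of_support hφ.2.1 hφ.2.2 fun x hx => by
    have h4 : fderiv ℝ φ x = 0 :=
      image_eq_zero_of_notMem_tsupport fun h' => hx (tsupport_fderiv_subset ℝ h')
    rw [h4, _root_.zero_apply, zero_smul]
  rw [Nat.cast_one] at h3
  exact memLp_one_iff_integrable.1 h3

theorem zsum_harm {s t : ℕ} (e : Fin s ⊕ Fin t ≃ Fin r) {α : E → E →L[ℝ] E}
    (hα : ContinuousOn α U) {X : E → E →L[ℝ] Mat s} {Y : E → E →L[ℝ] Mat t}
    {Z : E → E →L[ℝ] Mat r} (hX : LocLp 2 U X) (hY : LocLp 2 U Y) (h1 : Harm U α X)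
    (h2 : Harm U α Y) (hZ : ∀ x ∈ U, ∀ v, Z x v = bdiag e (X x v) (Y x v)) : Harm U α Z := by
  intro φ hφ
  have i1 := zsum_int hα hX hφ
  have i2 := zsum_int hα hY hφ
  have key : ∀ x, ∑ p, fderiv ℝ φ x (α x (ob E p)) • Z x (ob E p) =
      zsumL e (∑ p, fderiv ℝ φ x (α x (ob E p)) • X x (ob E p)) +
        zsumR e (∑ p, fderiv ℝ φ x (α x (ob E p)) • Y x (ob E p)) := by
    intro x
    by_cases hx : x ∈ U
    · simp only [map_sum, map_smul, ← Finset.sum_add_distrib, ← smul_add, zsum_split, hZ x hx]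
    · simp only [hφ.fderiv_zero_of_notMem hx, _root_.zero_apply, zero_smul,
        Finset.sum_const_zero, map_zero, add_zero]
  simp only [key]
  rw [integral_add ((zsumL e).integrable_comp i1) ((zsumR e).integrable_comp i2),
    (zsumL e).integral_comp_comm i1, (zsumR e).integral_comp_comm i2, h1 φ hφ, h2 φ hφ,
    map_zero, map_zero, add_zero]

theorem zsum_n2 (hw : ∀ a, WD 2 (ball 0 6) (h a) (D a)) :
    ∃ C₀ : ℝ, ∀ a, N2 (closedBall 0 4) (D a) ≤ ENNReal.ofReal C₀ := by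
  refine ⟨∑ a, (N2 (closedBall 0 4) (D a)).toReal, fun a => ?_⟩
  have h1 : N2 (closedBall 0 4) (D a) ≠ ⊤ := by
    have := ((hw a).2.1 (closedBall 0 4) (isCompact_closedBall _ _)
      (closedBall_subset_ball (by norm_num))).2
    rw [Nat.cast_ofNat] at this
    exact this.ne
  rw [← ENNReal.ofReal_toReal h1]
  refine ENNReal.ofReal_le_ofReal ?_
  exact Finset.single_le_sum (f := fun a => (N2 (closedBall 0 4) (D a)).toReal)
    (fun _ _ => ENNReal.toReal_nonneg) (Finset.mem_univ a)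

/-- direct sums -/
theorem Atlas.HasHM.sum {s t : ℕ} (e : Fin s ⊕ Fin t ≃ Fin r) {ρ₁ : Γ →* Mat s}
    {ρ₂ : Γ →* Mat t} (hρ : ∀ γ, ρ γ = bdiag e (ρ₁ γ) (ρ₂ γ)) {M₁ M₂ : ℝ} (h1 : 0 ≤ M₁)
    (h2 : 0 ≤ M₂) (h₁ : A.HasHM M₁ ρ₁) (h₂ : A.HasHM M₂ ρ₂) : A.HasHM (M₁ + M₂) ρ := by
  obtain ⟨C₁, u, X, c1, a1, b1⟩ := h₁
  obtain ⟨C₂, v, Y, c2, a2, b2⟩ := h₂
  have hw : ∀ a, WD 2 (ball 0 6) (fun x => bdiag e (u a x) (v a x))
      fun x => zsumD e (X a x) (Y a x) := fun a => zsum_wd e (a1.wd a) (a2.wd a)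
  obtain ⟨C₀, hC₀⟩ := zsum_n2 (A := A) (h := fun a x => bdiag e (u a x) (v a x))
    (D := fun a x => zsumD e (X a x) (Y a x)) hw
  refine ⟨max C₀ (max C₁ C₂), fun a x => bdiag e (u a x) (v a x),
    fun a x => zsumD e (X a x) (Y a x), le_max_of_le_right (le_max_of_le_left c1),
    ⟨hw, fun a => zsum_lbd e (a1.lbd a) (a2.lbd a), ?_, fun a => ?_, fun a x hx => ?_,
      fun a => (hC₀ a).trans (ENNReal.ofReal_le_ofReal (le_max_left _ _))⟩, fun a => ?_⟩
  · intro a b x hx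
    rw [hρ, zsum_gm, ← a1.mc a b x hx, ← a2.mc a b x hx]
  · refine zsum_harm e (A.coef a).1.continuousOn (locLp_mc isOpen_ball (a1.wd a) (a1.lbd a))
      (locLp_mc isOpen_ball (a2.wd a) (a2.lbd a)) (a1.harm a) (a2.harm a) fun x hx w => ?_
    exact zsum_mc e ((a1.lbd a).posDef x hx) ((a2.lbd a).posDef x hx) _ _ w
  · refine zsum_bd e ?_ ?_
    · exact (a1.bd a x hx).mono (by linarith) (le_max_of_le_right (le_max_left _ _))
    · exact (a2.bd a x hx).mono (by linarith) (le_max_of_le_right (le_max_right _ _))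
  · have m1 := ((en_loc isOpen_ball (A.coef a) (a1.wd a) (a1.lbd a)).1.aestronglyMeasurable le_rfl
      isOpen_ball).aemeasurable.ennreal_ofReal
    rw [ENNReal.ofReal_add h1 h2]
    refine le_trans ?_ (add_le_add (b1 a) (b2 a))
    rw [← lintegral_add_left' m1]
    refine setLIntegral_mono' measurableSet_ball fun x hx => ?_
    rw [zsum_en e ((a1.lbd a).posDef x hx) ((a2.lbd a).posDef x hx)]
    exact ENNReal.ofReal_add_le

theorem Atlas.hasHM_zero (A : Atlas E Γ) (ρ : Γ →* Mat 0) : A.HasHM 0 ρ := by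
  have hb : Bd 1 (1 : Mat 0) := Obst.refl PosSemidef.one le_rfl
  refine ⟨1, fun _ _ => 1, fun _ _ => 0, le_rfl, ⟨fun _ => WD.const one_le_two _,
    fun _ K _ _ => ⟨1, le_rfl, fun _ _ => hb⟩, fun _ _ _ _ => Subsingleton.elim _ _,
    fun _ _ _ => Subsingleton.elim _ _, fun _ _ _ => hb, fun _ => ?_⟩, fun a => ?_⟩
  · exact (eLpNorm_zero' (ε := E →L[ℝ] Mat 0)).le.trans zero_le
  · have : ∀ x, en (A.α a x) (1 : Mat 0) (0 : E →L[ℝ] Mat 0) = 0 := fun x => by
      simp [en, pair, mc]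
    simp only [this, ENNReal.ofReal_zero, lintegral_zero, le_refl]

end Pool.Agent.PW
end
end

-- part Pool.Agent.P.MP_65ad7c_ag.ZAlg
section

open MeasureTheory Set Filter Topology Metric Matrix
open scoped ComplexOrder ContDiff Matrix.Norms.Frobenius RealInnerProductSpace ENNReal
open Pool.Agent.Lib.Sob

noncomputable section
namespace Pool.Agent.PW

variable {Γ : Type} [Group Γ] {r : ℕ}

/-- Burnside: a representation whose image does not span has an invariant subspace -/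
theorem exists_inv_of_not_irr {ρ : Γ →* Mat r} (h : ¬Irr ρ) :
    ∃ W : Submodule ℂ (Fin r → ℂ), W ≠ ⊥ ∧ W ≠ ⊤ ∧ ∀ γ, ∀ v ∈ W, ρ γ *ᵥ v ∈ W := by
  rcases Nat.eq_zero_or_pos r with rfl | hr
  · exact absurd (Subsingleton.elim _ _) h
  by_contra! hW
  have : Nonempty (Fin r) := ⟨⟨0, hr⟩⟩
  let e : Mat r ≃ₐ[ℂ] Module.End ℂ (Fin r → ℂ) := Matrix.toLinAlgEquiv'
  let R := (Algebra.adjoin ℂ (range ρ)).map e.toAlgHom
  have : IsSimpleModule R (Fin r → ℂ) := by
    refine { exists_pair_ne := exists_pair_ne _, eq_bot_or_eq_top := fun U => ?_ }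
    by_contra! hU
    obtain ⟨γ, x, hx, hγ⟩ := hW (U.restrictScalars ℂ) (by simpa using hU.1) (by simpa using hU.2)
    exact hγ (U.smul_mem (⟨e (ρ γ), _, Algebra.subset_adjoin ⟨γ, rfl⟩, rfl⟩ : R) hx)
  refine h (eq_top_iff.2 fun f _ => ?_)
  obtain ⟨⟨_, x, h3, rfl⟩, hx⟩ := G.burnside (R := R) (e f)
  obtain rfl : x = f := e.injective hx
  have h4 : x ∈ Subalgebra.toSubmodule (Algebra.adjoin ℂ (range ρ)) := h3
  rwa [Algebra.adjoin_eq_span, ← MonoidHom.coe_mrange, Submonoid.closure_eq] at h4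

lemma zalg_sq {s t : ℕ} (X : Matrix (Fin s) (Fin t) ℂ) : ‖X‖ ^ 2 = (X * Xᴴ).trace.re := by
  rw [Matrix.frobenius_norm_def, ← Real.sqrt_eq_rpow, Real.sq_sqrt (by positivity)]
  simp [Matrix.trace, Matrix.mul_apply, Complex.mul_conj, Complex.normSq_eq_norm_sq,
    -Complex.ofReal_pow]

lemma zalg_le {s t k : ℕ} {a : Matrix (Fin r) (Fin s) ℂ} {b : Matrix (Fin r) (Fin t) ℂ}
    (h : a * aᴴ + b * bᴴ = 1) (X : Matrix (Fin k) (Fin r) ℂ) : ‖X * a‖ ≤ ‖X‖ := by
  have e : X * Xᴴ = X * a * (X * a)ᴴ + X * b * (X * b)ᴴ := by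
    have := congrArg (fun Y => X * Y * Xᴴ) h
    simpa only [Matrix.mul_add, Matrix.add_mul, Matrix.mul_one, conjTranspose_mul,
      Matrix.mul_assoc] using this.symm
  refine abs_le_of_sq_le_sq' ?_ (norm_nonneg _) |>.2
  rw [zalg_sq X, e, trace_add, Complex.add_re, ← zalg_sq, ← zalg_sq]
  linarith [sq_nonneg ‖X * b‖]

lemma zalg_le' {s t : ℕ} {a : Matrix (Fin r) (Fin s) ℂ} {b : Matrix (Fin r) (Fin t) ℂ}
    (h : a * aᴴ + b * bᴴ = 1) (X : Mat r) : ‖aᴴ * X * a‖ ≤ ‖X‖ := by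
  refine (zalg_le h _).trans ?_
  have := zalg_le h Xᴴ
  rwa [← frobenius_norm_conjTranspose, conjTranspose_mul, conjTranspose_conjTranspose,
    frobenius_norm_conjTranspose] at this

lemma SSimple.zalg_sub {s : ℕ} {ρ : Γ →* Mat r} {ρ₁ : Γ →* Mat s} (hs : SSimple ρ)
    {i : Matrix (Fin r) (Fin s) ℂ} {p : Matrix (Fin s) (Fin r) ℂ} (hp : p * i = 1)
    (h : ∀ γ, ρ γ * i = i * ρ₁ γ) : SSimple ρ₁ := fun W hW => by
  obtain ⟨W', h1, h2⟩ := hs (W.map i.mulVecLin) (by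
    rintro γ _ ⟨v, hv, rfl⟩
    exact ⟨_, hW γ v hv, by simp [h]⟩)
  refine ⟨W'.comap i.mulVecLin, fun γ v hv => ?_, ?_, ?_⟩
  · have := h1 γ _ hv
    simpa [h] using this
  · refine Submodule.disjoint_def.2 fun x hx hx' => ?_
    have := congrArg (p *ᵥ ·) (Submodule.disjoint_def.1 h2.1 _ ⟨x, hx, rfl⟩ hx')
    simpa [hp] using this
  · refine codisjoint_iff.2 (eq_top_iff.2 fun x _ => ?_)
    obtain ⟨_, ⟨w, hw, rfl⟩, w', hw', e⟩ := Submodule.mem_sup.1
      (h2.2.eq_top.ge (Submodule.mem_top (x := i.mulVecLin x)))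
    refine Submodule.mem_sup.2 ⟨w, hw, x - w, ?_, by simp⟩
    rwa [Submodule.mem_comap, map_sub, ← e, add_sub_cancel_left]

lemma zalg_frame (P : Mat r) (hP : P * P = P) :
    ∃ (s t : ℕ) (_ : Fin s ⊕ Fin t ≃ Fin r) (a : Matrix (Fin r) (Fin s) ℂ)
      (b : Matrix (Fin r) (Fin t) ℂ), aᴴ * a = 1 ∧ bᴴ * b = 1 ∧ bᴴ * a = 0 ∧
        a * aᴴ + b * bᴴ = 1 ∧ P * a = a ∧ bᴴ * P = 0 := by
  let W : Submodule ℂ (EC r) := LinearMap.range (Matrix.toEuclideanLin P)
  let α := stdOrthonormalBasis ℂ W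
  let β := stdOrthonormalBasis ℂ Wᗮ
  let a : Matrix (Fin r) _ ℂ := Matrix.of fun i j => (α j : EC r) i
  let b : Matrix (Fin r) _ ℂ := Matrix.of fun i j => (β j : EC r) i
  have key : ∀ {s t : ℕ} (x : Fin s → EC r) (y : Fin t → EC r) (i j),
      ((Matrix.of fun i j => x j i)ᴴ * (Matrix.of fun i j => y j i)) i j = inner ℂ (x i) (y j) :=
    fun x y i j => by simp [Matrix.mul_apply, PiLp.inner_apply, mul_comm]
  have e : Fin (Module.finrank ℂ W) ⊕ Fin (Module.finrank ℂ Wᗮ) ≃ Fin r :=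
    finSumFinEquiv.trans (finCongr (by simpa using W.finrank_add_finrank_orthogonal))
  have h1 : aᴴ * a = 1 := by
    ext i j; rw [key, one_apply]; exact orthonormal_iff_ite.1 α.orthonormal i j
  have h2 : bᴴ * b = 1 := by
    ext i j; rw [key, one_apply]; exact orthonormal_iff_ite.1 β.orthonormal i j
  have h3 : bᴴ * a = 0 := by
    ext i j; rw [key]; exact Submodule.inner_left_of_mem_orthogonal (α j).2 (β i).2
  have h4 : aᴴ * b = 0 := by simpa using congrArg conjTranspose h3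
  refine ⟨_, _, e, a, b, h1, h2, h3, ?_, ?_, ?_⟩
  · rw [← fromCols_mul_fromRows, fromCols_mul_fromRows_eq_one_comm e.symm, fromRows_mul_fromCols,
      h1, h2, h3, h4, fromBlocks_one]
  · ext i j
    obtain ⟨v, hv⟩ := (α j).2
    have : (P * a) i j = (P *ᵥ (α j : EC r)) i := rfl
    rw [this]
    simp only [a, of_apply, ← hv]
    simp [hP]
  · ext i j
    refine Eq.trans ?_ ((key (fun j => (β j : EC r))
      (fun j => Matrix.toEuclideanLin P (EuclideanSpace.single j 1)) i j).trans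
        (Submodule.inner_left_of_mem_orthogonal (K := W) ⟨_, rfl⟩ (β i).2))
    simp [Matrix.mul_apply, b]

/-- a semisimple reducible representation is conjugate to a direct sum of its diagonal blocks in
a unitary basis -/
theorem SSimple.split {ρ : Γ →* Mat r} (hs : SSimple ρ) (h : ¬Irr ρ) :
    ∃ (s t : ℕ) (e : Fin s ⊕ Fin t ≃ Fin r) (ρ₁ : Γ →* Mat s) (ρ₂ : Γ →* Mat t) (ρ' : Γ →* Mat r)
      (u u' : Mat r), 0 < s ∧ 0 < t ∧ SSimple ρ₁ ∧ SSimple ρ₂ ∧ (∀ γ, ‖ρ₁ γ‖ ≤ ‖ρ γ‖) ∧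
      (∀ γ, ‖ρ₂ γ‖ ≤ ‖ρ γ‖) ∧ (∀ γ, ρ' γ = bdiag e (ρ₁ γ) (ρ₂ γ)) ∧ Cj u u' ρ' ρ := by
  obtain ⟨W, h0, h1, hW⟩ := exists_inv_of_not_irr h
  obtain ⟨W', hW', hc⟩ := hs W hW
  let P : Mat r := LinearMap.toMatrix' (W.projection W' hc)
  have hPv : ∀ v, P *ᵥ v = W.projection W' hc v := fun v => LinearMap.toMatrix'_mulVec _ v
  have ext' : ∀ X Y : Mat r, (∀ v, X *ᵥ v = Y *ᵥ v) → X = Y := fun X Y h =>
    Matrix.toLin'.injective (LinearMap.ext h)
  have hPP : P * P = P := ext' _ _ fun v => by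
    rw [← mulVec_mulVec, hPv, hPv,
      Submodule.projection_apply_of_mem_left hc (Submodule.projection_apply_mem hc v)]
  have hcm : ∀ γ, P * ρ γ = ρ γ * P := fun γ => ext' _ _ fun v => by
    rw [← mulVec_mulVec, ← mulVec_mulVec, hPv, hPv]
    conv_lhs => rw [← Submodule.projection_add_projection_eq_self hc v, mulVec_add, map_add]
    rw [Submodule.projection_apply_of_mem_left hc (hW γ _ (Submodule.projection_apply_mem hc v)),
      Submodule.projection_apply_of_mem_right hc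
        (hW' γ _ (Submodule.projection_apply_mem hc.symm v)), add_zero]
  obtain ⟨s, t, e, a, b, a1, a2, a3, a4, a5, a6⟩ := zalg_frame P hPP
  have b1 : a * aᴴ * P = P := by
    have := congrArg (· * P) a4
    simpa only [Matrix.add_mul, Matrix.mul_assoc b, a6, Matrix.mul_zero, add_zero,
      Matrix.one_mul] using this
  have b2 : (1 - P) * b * bᴴ = 1 - P := by
    have := congrArg ((1 - P) * ·) a4
    simpa only [Matrix.mul_add, ← Matrix.mul_assoc, Matrix.sub_mul 1 P a, Matrix.one_mul, a5,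
      sub_self, Matrix.zero_mul, zero_add, Matrix.mul_one] using this
  have c1 : ∀ γ, ρ γ * a = a * (aᴴ * ρ γ * a) := fun γ => by
    conv_lhs => rw [← a5, ← Matrix.mul_assoc, ← hcm, ← b1, Matrix.mul_assoc _ P, hcm]
    simp only [Matrix.mul_assoc, a5]
  have c2 : ∀ γ, bᴴ * ρ γ = bᴴ * ρ γ * b * bᴴ := fun γ => by
    have := congrArg (bᴴ * ρ γ * ·) a4
    simp only [Matrix.mul_add, Matrix.mul_one, ← Matrix.mul_assoc] at this
    rw [Matrix.mul_assoc _ _ a, c1, ← Matrix.mul_assoc, a3] at this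
    simpa using this.symm
  have c3 : ∀ γ, ρ γ * ((1 - P) * b) = (1 - P) * b * (bᴴ * ρ γ * b) := fun γ => by
    simp only [← Matrix.mul_assoc, b2, mul_sub, sub_mul, hcm, mul_one, one_mul]
  have c4 : bᴴ * ((1 - P) * b) = 1 := by
    rw [← Matrix.mul_assoc, Matrix.mul_sub, a6, sub_zero, Matrix.mul_one, a2]
  let ρ₁ : Γ →* Mat s :=
    { toFun := fun γ => aᴴ * ρ γ * a
      map_one' := by simp [a1]
      map_mul' := fun x y => by
        rw [Matrix.mul_assoc (aᴴ * ρ x), ← c1]; simp only [map_mul, Matrix.mul_assoc] }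
  let ρ₂ : Γ →* Mat t :=
    { toFun := fun γ => bᴴ * ρ γ * b
      map_one' := by simp [a2]
      map_mul' := fun x y => by
        simp only [← Matrix.mul_assoc, ← c2, map_mul] }
  let ρ' : Γ →* Mat r :=
    { toFun := fun γ => bdiag e (ρ₁ γ) (ρ₂ γ)
      map_one' := by simp [bdiag]
      map_mul' := fun x y => by simp [bdiag, fromBlocks_multiply] }
  refine ⟨s, t, e, ρ₁, ρ₂, ρ', (fromRows (aᴴ * P) bᴴ).submatrix e.symm id,
    (fromCols a ((1 - P) * b)).submatrix id e.symm, Nat.pos_of_ne_zero ?_, Nat.pos_of_ne_zero ?_,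
    hs.zalg_sub a1 c1, hs.zalg_sub c4 c3, fun γ => zalg_le' a4 _,
    fun γ => zalg_le' ((add_comm _ _).trans a4) _, fun _ => rfl, ?_, fun γ => ?_⟩
  · rintro rfl
    refine h0 ((Submodule.eq_bot_iff _).2 fun v hv => ?_)
    rw [← Submodule.projection_apply_of_mem_left hc hv, ← hPv, ← b1, Subsingleton.elim a 0]
    simp
  · rintro rfl
    refine h1 (eq_top_iff.2 fun v _ => ?_)
    rw [Subsingleton.elim b 0, Matrix.mul_zero, Matrix.zero_mul, eq_comm, sub_eq_zero] at b2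
    have := Submodule.projection_apply_mem hc v
    rwa [← hPv, ← b2, one_mulVec] at this
  · rw [← submatrix_mul _ _ _ id _ Function.bijective_id, fromRows_mul_fromCols, c4, a3,
      Matrix.mul_assoc, a5, a1, ← Matrix.mul_assoc, Matrix.mul_assoc aᴴ, mul_sub, hPP]
    simp
  · change _ = _ * bdiag e (aᴴ * ρ γ * a) (bᴴ * ρ γ * b) * _
    rw [bdiag, reindex_apply, submatrix_mul_equiv, submatrix_mul_equiv, fromCols_mul_fromBlocks,
      fromCols_mul_fromRows, Matrix.mul_zero, Matrix.mul_zero, add_zero, zero_add, ← c1, ← c3,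
      Matrix.mul_assoc, Matrix.mul_assoc (ρ γ), b2, ← Matrix.mul_assoc a, b1]
    simp [← mul_add]

end Pool.Agent.PW
end
end

-- part Pool.Agent.P.MP_65ad7c_ag.ZSub
section

open MeasureTheory Set Filter Topology Metric Matrix
open scoped ComplexOrder ContDiff Matrix.Norms.Frobenius RealInnerProductSpace ENNReal
open Pool.Agent.Lib.Sob

noncomputable section
namespace Pool.Agent.PW

variable {E : Type} [NormedAddCommGroup E] [InnerProductSpace ℝ E] [FiniteDimensional ℝ E]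
  [MeasurableSpace E] [BorelSpace E] {r : ℕ} {U : Set E} {Γ : Type} [Group Γ]
  {V : Type} [NormedAddCommGroup V] [NormedSpace ℝ V]
  {A : Atlas E Γ} {ρ ρ' : Γ →* Mat r} {H h : A.ι → E → Mat r}
  {D : A.ι → E → E →L[ℝ] Mat r} {C M : ℝ}

/-- for a harmonic metric `log sg (h, H)` is a subsolution -/
theorem Atlas.harm_sub_log (A : Atlas E Γ) (hr : 0 < r) {B : ℝ} (hB : 1 ≤ B) : ∃ C₁ : ℝ, 0 ≤ C₁ ∧
    ∀ (ρ : Γ →* Mat r) H C h D, A.Ref ρ H → A.RefBd B H → A.HM ρ C h D → ∀ b, ∃ Df,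
        WD 2 (ball 0 6) (fun x => Real.log (sg (h b x) (H b x))) Df ∧
        LB (ball 0 6) (fun x => Real.log (sg (h b x) (H b x))) ∧
        SubSol (ball 0 6) (closedBall 0 2) (A.α b) Df C₁ := by
  choose c hc0 hc using fun b => ref_test (r := r) (A.coef b) hB
  have hS : 0 ≤ ∑ b, c b := Finset.sum_nonneg fun b _ => hc0 b
  refine ⟨(∑ b, c b) * (r * B ^ 2), by positivity, fun ρ H C h D hR hRB hM b => ?_⟩
  have hU : IsOpen (ball (0 : E) 6) := isOpen_ball
  have hK : IsCompact (closedBall (0 : E) 2) := isCompact_closedBall _ _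
  have hKU : closedBall (0 : E) 2 ⊆ ball 0 6 := closedBall_subset_ball (by norm_num)
  have hv : WD 2 (ball 0 6) (H b) (fderiv ℝ (H b)) :=
    WD.of_contDiffOn (by norm_num) hU ((hR.sm b).of_le (by simp))
  have bv : LBd (ball 0 6) (H b) := LBd.of_continuousOn (hR.sm b).continuousOn (hR.pos b)
  have hu := hM.wd b
  have bu := hM.lbd b
  have cα : ContinuousOn (A.α b) (ball 0 6) := (A.coef b).1.continuousOn
  refine sub_log_local hr hU hK hKU (A.coef b) hu hv bu bv fun η Dη hη bη η0 ηK => ?_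
  obtain ⟨wk, bk⟩ := wd_kz hU hu hv bu bv
  have wζ := wd_smul hU hη wk bη bk
  have z : ∀ x ∈ ball (0 : E) 6, x ∉ closedBall (0 : E) 2 → η x • kz (h b x) (H b x) = 0 :=
    fun x hx hxK => by rw [ηK x hx hxK, zero_smul]
  have zD := wd_cs_ae (by norm_num) hU wζ hK.isClosed z
  have t1 := harm_test hU cα (locLp_mc hU hu bu) (hM.harm b) wζ ⟨_, hK, hKU, z⟩
  have t2 := hc b (H b) (hR.sm b) (hR.pos b) (hRB b) _ _ wζ z
  have hint : ∀ {Y : E → E →L[ℝ] Mat r}, LocLp 2 (ball 0 6) Y → IntegrableOn (fun x =>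
      pair (A.α b x) (Y x) (η x • dkz (h b x) (H b x) (D b x) (fderiv ℝ (H b) x) +
        (Dη x).smulRight (kz (h b x) (H b x)))) (ball 0 6) := fun hY =>
    (integrableOn_of_cs hU (locLp_pair cα hY wζ.2.1) hK hKU (zD.mono fun x hx h1 h2 => by
      rw [hx h1 h2]; simp [pair])).1
  have hh1 := wd_herm (by norm_num) hU hu fun x hx => (bu.posDef x hx).1
  have hh2 := wd_herm (by norm_num) hU hv fun x hx => (hR.pos b x hx).1
  have e := integral_sub (hint (locLp_mc hU hv bv)) (hint (locLp_mc hU hu bu))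
  rw [t1, sub_zero] at e
  have i3 : IntegrableOn (fun x => η x * sg (h b x) (H b x)) (ball 0 6) :=
    (integrableOn_of_cs hU (locLp_bilin_one (ContinuousLinearMap.mul ℝ ℝ) hη.1
      (wd_sg hU hu hv bu bv).1.1) hK hKU (Eventually.of_forall fun x h1 h2 => by
        rw [ηK x h1 h2]; simp)).1
  have t3 : ∫ x in ball (0 : E) 6, ‖η x • kz (h b x) (H b x)‖ ≤
      r * B ^ 2 * ∫ x in ball (0 : E) 6, η x * sg (h b x) (H b x) := by
    rw [← integral_const_mul]
    refine integral_mono_of_nonneg (Eventually.of_forall fun x => norm_nonneg _) (i3.const_mul _)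
      ((ae_restrict_iff' hU.measurableSet).2 (Eventually.of_forall fun x hx => ?_))
    by_cases hxK : x ∈ closedBall (0 : E) 2
    · have := norm_kz_le (bu.posDef x hx) (by linarith : 0 < B)
        (hRB b x (closedBall_subset_closedBall (by norm_num) hxK)).1
      simp only
      rw [norm_smul, Real.norm_of_nonneg (η0 x hx), mul_left_comm]
      exact mul_le_mul_of_nonneg_left this (η0 x hx)
    · simp [ηK x hx hxK]
  have n0 : 0 ≤ ∫ x in ball (0 : E) 6, ‖η x • kz (h b x) (H b x)‖ :=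
    integral_nonneg fun x => norm_nonneg _
  calc _ = _ := by
        refine Eq.trans (setIntegral_congr_ae hU.measurableSet ?_) e
        filter_upwards [hh1, hh2] with x a1 a2 hx
        exact (pair_key (bu.posDef x hx) (hR.pos b x hx) (a1 hx) (a2 hx) ((A.coef b).2 x hx).1
          _ _).symm
    _ ≤ _ := t2
    _ ≤ (∑ b, c b) * ∫ x in ball (0 : E) 6, ‖η x • kz (h b x) (H b x)‖ :=
        mul_le_mul_of_nonneg_right
          (Finset.single_le_sum (fun b _ => hc0 b) (Finset.mem_univ b)) n0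
    _ ≤ _ := by rw [mul_assoc]; exact mul_le_mul_of_nonneg_left t3 hS

end Pool.Agent.PW
end
end

-- part Pool.Agent.P.MP_65ad7c_ag.ZNorm
section

open MeasureTheory Set Filter Topology Metric Matrix
open scoped ComplexOrder ContDiff Matrix.Norms.Frobenius RealInnerProductSpace ENNReal
open Pool.Agent.Lib.Sob

noncomputable section
namespace Pool.Agent.PW

variable {E : Type} [NormedAddCommGroup E] [InnerProductSpace ℝ E] [FiniteDimensional ℝ E]
  [MeasurableSpace E] [BorelSpace E] {r : ℕ} {U : Set E} {Γ : Type} [Group Γ]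
  {V : Type} [NormedAddCommGroup V] [NormedSpace ℝ V]
  {A : Atlas E Γ} {ρ ρ' : Γ →* Mat r} {H h : A.ι → E → Mat r}
  {D : A.ι → E → E →L[ℝ] Mat r} {C M : ℝ}

theorem znorm_norm_le {X X' : Mat r} (hX : X * X' = 1) {N : ℝ} (hN : 1 ≤ N)
    (h : sg (gm 1 X) 1 ≤ N) : ‖X‖ ≤ N := by
  have h1 := le_nf one_pos (Obst.refl PosSemidef.one le_rfl) (Obst.refl PosSemidef.one le_rfl) X
  have h2 := trace_mul_nonneg (gm_posDef PosDef.one hX).inv.posSemidef PosSemidef.one
  have h3 : nf 1 1 X X = ((1 : Mat r)⁻¹ * gm 1 X).trace.re := by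
    simp only [nf, gm, inv_one, Matrix.mul_one, Matrix.one_mul]
    rw [trace_mul_comm]
  rw [sg] at h
  nlinarith [norm_nonneg X]

/-- normalisation of the centre in the base chart -/
theorem Atlas.normalise (A : Atlas E Γ) (hr : 0 < r) {M : ℝ} (hM : 0 ≤ M) :
    ∃ N' η : ℝ, 1 ≤ N' ∧ 0 ≤ η ∧ ∀ (ρ : Γ →* Mat r) C h D, A.HM ρ C h D → A.EB M h D →
      ∃ (u u' : Mat r) (ρ' : Γ →* Mat r) (Q : A.ι → Mat r), Cj u u' ρ ρ' ∧ A.Sz N' ρ' ∧
        ∀ a, Bd N' (Q a) ∧ N2 (closedBall 0 2)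
          (fun x => Real.log (sg (Q a) (gm (h a x) u))) ≤ ENNReal.ofReal η := by
  obtain ⟨η, hη, hc⟩ := A.exists_centres hr hM
  choose g hg using A.reach
  choose L1 hL1 k1 using fun a => A.toPre.chain_sg hr (hg a)
  choose L2 hL2 k2 using fun γ => A.toPre.chain_sg hr (A.chain γ)
  have hη0 : 0 ≤ η := by linarith
  have hS : 0 ≤ ∑ s ∈ A.S, L2 s := Finset.sum_nonneg fun s _ => hL2 s
  have hT : 0 ≤ ∑ a, (L2 (g a) + L1 a) := Finset.sum_nonneg fun a _ => add_nonneg (hL2 _) (hL1 a)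
  set K := ∑ s ∈ A.S, L2 s + ∑ a, (L2 (g a) + L1 a) with hK
  have hN : 1 ≤ Real.exp (K * η) := Real.one_le_exp (by positivity)
  refine ⟨Real.exp (K * η), η, hN, hη0, fun ρ C h D hh hE => ?_⟩
  obtain ⟨y, hy⟩ := hc h D hh.wd hh.lbd hE
  have s26 : closedBall (0 : E) 2 ⊆ ball 0 6 := closedBall_subset_ball (by norm_num)
  have s16 : ball (0 : E) 1 ⊆ ball 0 6 := ball_subset_ball (by norm_num)
  have hQ : ∀ a, (h a (y a)).PosDef := fun a => (hh.lbd a).posDef _ (s26 (hy a).1)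
  have m1 : A.MC (ball 0 1) ρ h := fun a b x hx => hh.mc a b x ⟨hx.1, s16 hx.2.1, s16 hx.2.2⟩
  have m2 : ∀ d, ∀ x ∈ ball (0 : E) 1, (h d x).PosDef := fun d x hx =>
    (hh.lbd d).posDef _ (s16 hx)
  have m3 := fun d => aesm_log_sg isOpen_ball (hh.wd d) (hh.lbd d) (hQ d)
    (isCompact_closedBall (0 : E) 1) (closedBall_subset_ball (by norm_num))
  have m4 : ∀ d, N2 (closedBall 0 1) (fun x => Real.log (sg (h d (y d)) (h d x))) ≤
      ENNReal.ofReal η := fun d => (eLpNorm_mono_measure _ (Measure.restrict_mono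
        (closedBall_subset_closedBall (by norm_num)) le_rfl)).trans (hy d).2
  have e1 := fun a => k1 a ρ h _ η hη m1 m2 hQ m3 m4
  have e2 := fun γ => k2 γ ρ h _ η hη m1 m2 hQ m3 m4
  obtain ⟨u, u', -, hu, hu1, -⟩ := exists_simul_diag (hQ A.a0) (hQ A.a0).isHermitian
  have hu' : u' * u = 1 := mul_eq_one_comm.1 hu
  have hρ : ∀ γ, ρ γ * ρ γ⁻¹ = 1 := fun γ => by rw [← map_mul, mul_inv_cancel, map_one]
  have hg' := fun γ => gm_posDef (hQ A.a0) (hρ γ)
  have key : ∀ {P Q : Mat r} {L : ℝ}, P.PosDef → Q.PosDef → L ≤ K → Real.log (sg P Q) ≤ L * η →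
      sg (gm P u) (gm Q u) ≤ Real.exp (K * η) := fun hP hQ hL h => by
    rw [sg_gm hP hQ hu]
    exact (Real.le_exp_log _).trans
      (Real.exp_le_exp.2 (h.trans (mul_le_mul_of_nonneg_right hL hη0)))
  let ρ' : Γ →* Mat r :=
    { toFun := fun γ => u' * ρ γ * u
      map_one' := by rw [map_one, Matrix.mul_one, hu']
      map_mul' := fun a b => by
        simp only [map_mul, Matrix.mul_assoc]
        rw [← Matrix.mul_assoc u, hu, Matrix.one_mul] }
  refine ⟨u, u', ρ', fun a => gm (h a (y a)) u, ⟨hu, fun _ => rfl⟩, fun s hs => ?_,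
    fun a => ⟨?_, ?_⟩⟩
  · have h1 := key (hg' s) (hQ A.a0)
      ((Finset.single_le_sum (fun s _ => hL2 s) hs).trans (le_add_of_nonneg_right hT)) (e2 s)
    have h2 : ρ s * u = u * ρ' s := by
      change _ = u * (u' * ρ s * u)
      rw [← Matrix.mul_assoc, ← Matrix.mul_assoc, hu, Matrix.one_mul]
    rw [gm_gm, h2, ← gm_gm, hu1] at h1
    exact znorm_norm_le (X' := ρ' s⁻¹) (by rw [← map_mul, mul_inv_cancel, map_one]) hN h1
  · have h1 := log_sg_le hr (hQ A.a0) (hg' (g a)) (hQ a)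
    have h2 := key (L := L2 (g a) + L1 a) (hQ A.a0) (hQ a)
      ((Finset.single_le_sum (f := fun a => L2 (g a) + L1 a)
        (fun a _ => add_nonneg (hL2 _) (hL1 a)) (Finset.mem_univ a)).trans
        (le_add_of_nonneg_left hS)) (by
          have h3 := e2 (g a)
          rw [sg_comm] at h3
          linarith [e1 a])
    rw [hu1] at h2
    exact obst_of_sg PosDef.one (gm_posDef (hQ a) hu) (by positivity) h2
  · refine (eLpNorm_congr_ae ?_).trans_le (hy a).2
    filter_upwards [ae_restrict_mem measurableSet_closedBall] with x hx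
    rw [sg_gm (hQ a) ((hh.lbd a).posDef _ (s26 hx)) hu]

end Pool.Agent.PW
end
end

-- part Pool.Agent.P.MP_65ad7c_ag.ZMain
section

open MeasureTheory Set Filter Topology Metric Matrix
open scoped ComplexOrder ContDiff Matrix.Norms.Frobenius RealInnerProductSpace ENNReal
open Pool.Agent.Lib.Sob

noncomputable section
namespace Pool.Agent.PW

variable {E : Type} [NormedAddCommGroup E] [InnerProductSpace ℝ E] [FiniteDimensional ℝ E]
  [MeasurableSpace E] [BorelSpace E] {r : ℕ} {U : Set E} {Γ : Type} [Group Γ]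
  {V : Type} [NormedAddCommGroup V] [NormedSpace ℝ V]
  {A : Atlas E Γ} {ρ ρ' : Γ →* Mat r} {H h : A.ι → E → Mat r}
  {D : A.ι → E → E →L[ℝ] Mat r} {C M : ℝ}

/-- semisimple representations have harmonic metrics of controlled energy -/
theorem Atlas.hasHM_ss (A : Atlas E Γ) (hE : 2 ≤ Module.finrank ℝ E) (N : ℝ) (r : ℕ) :
    ∃ M : ℝ, 0 ≤ M ∧ ∀ ρ : Γ →* Mat r, SSimple ρ → A.Sz N ρ → A.HasHM M ρ := by
  suffices h : ∀ k : ℕ, ∃ M : ℝ, 0 ≤ M ∧ ∀ r ≤ k, ∀ ρ : Γ →* Mat r, SSimple ρ → A.Sz N ρ →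
      A.HasHM M ρ by
    obtain ⟨M, hM, h⟩ := h r
    exact ⟨M, hM, h r le_rfl⟩
  intro k
  induction k with
  | zero =>
    refine ⟨0, le_rfl, fun r hr ρ _ _ => ?_⟩
    obtain rfl := Nat.le_zero.1 hr
    exact A.hasHM_zero ρ
  | succ k ih =>
    obtain ⟨M, hM, ih⟩ := ih
    obtain ⟨M', hM', h'⟩ := exists_hm_en A hE (r := k + 1) k.succ_pos N
    refine ⟨M + M + M', by linarith, fun r hr ρ hs hz => ?_⟩
    rcases Nat.lt_or_ge r (k + 1) with hlt | hge
    · exact (ih r (Nat.lt_succ_iff.1 hlt) ρ hs hz).mono (by linarith)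
    obtain rfl : r = k + 1 := le_antisymm hr hge
    by_cases hi : Irr ρ
    · obtain ⟨m, γs, β, hb⟩ := hi.burn
      obtain ⟨C, hC, h⟩ := h' m γs β
      obtain ⟨h, D, h1, h2⟩ := h ρ hb hz
      exact Atlas.HasHM.mono ⟨C, h, D, hC, h1, h2⟩ (by linarith)
    · obtain ⟨s, t, e, ρ₁, ρ₂, ρ', u, u', hs0, ht0, s1, s2, n1, n2, hd, hc⟩ := hs.split hi
      have hst : s + t = k + 1 := by simpa using Fintype.card_congr e
      have a1 := ih s (by omega) ρ₁ s1 fun γ hγ => (n1 γ).trans (hz γ hγ)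
      have a2 := ih t (by omega) ρ₂ s2 fun γ hγ => (n2 γ).trans (hz γ hγ)
      exact ((Atlas.HasHM.sum e hd hM hM a1 a2).conj hc).mono (by linarith)

/-- uniform bounds after a constant change of frame -/
theorem Atlas.hm_uniform (A : Atlas E Γ) (hE : 2 ≤ Module.finrank ℝ E) (hr : 0 < r) {M : ℝ}
    (hM : 0 ≤ M) : ∃ C N' : ℝ, 1 ≤ C ∧ ∀ (ρ : Γ →* Mat r) C₀ h D, 1 ≤ C₀ → A.HM ρ C₀ h D →
      A.EB M h D → ∃ (u u' : Mat r) (ρ' : Γ →* Mat r) (h' : A.ι → E → Mat r),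
        Cj u u' ρ ρ' ∧ A.Sz N' ρ' ∧ A.HM ρ' C h' (fun a x => lmul uᴴ (rmul (D a x) u)) ∧
        ∀ a, ∀ᵐ x, x ∈ ball (0 : E) 6 → h' a x = gm (h a x) u := by
  obtain ⟨χ, hχ', -⟩ := A.toPre.exists_pou (R := 4) (R' := 9 / 2) (by norm_num) (by norm_num)
    (by norm_num)
  have s96 : closedBall (0 : E) (9 / 2) ⊆ ball 0 6 := closedBall_subset_ball (by norm_num)
  have s26 : closedBall (0 : E) 2 ⊆ ball 0 6 := closedBall_subset_ball (by norm_num)
  have s46 : closedBall (0 : E) 4 ⊆ ball 0 6 := closedBall_subset_ball (by norm_num)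
  have hχ : A.Pou (ball 0 6) χ := hχ'.mono s96
  obtain ⟨N', η, hN', hη, hno⟩ := A.normalise hr hM
  obtain ⟨B, hB, hBd⟩ := A.h0_bd (r := r) hχ' N'
  obtain ⟨C₁, hC₁, hsub⟩ := A.harm_sub_log hr hB
  set c : ℝ := Real.log (2 * r * (B * N')) with hc
  have hr1 : (1 : ℝ) ≤ r := by exact_mod_cast hr
  have hBN : 1 ≤ B * N' := one_le_mul_of_one_le_of_one_le hB hN'
  have hc0 : 0 ≤ c := Real.log_nonneg (by nlinarith)
  have hv : volume (closedBall (0 : E) 2) ≠ ⊤ := (isCompact_closedBall 0 2).measure_lt_top.ne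
  set v : ℝ := (volume (closedBall (0 : E) 2) ^ (1 / (2 : ℝ≥0∞).toReal)).toReal with hvdef
  have hv0 : 0 ≤ v := ENNReal.toReal_nonneg
  set C₂ : ℝ := η + c * v with hC₂def
  have hC₂ : 0 ≤ C₂ := add_nonneg hη (mul_nonneg hc0 hv0)
  have hdg : ∀ a : A.ι, ∃ G : ℝ, 0 < G ∧ ∀ (f : E → ℝ) (Df : E → E →L[ℝ] ℝ),
      WD 2 (ball 0 6) f Df → LB (ball 0 6) f → SubSol (ball 0 6) (closedBall 0 2) (A.α a) Df C₁ →
      N2 (closedBall 0 2) f ≤ ENNReal.ofReal C₂ →
      ∀ᵐ x, x ∈ closedBall (0 : E) 1 → f x ≤ G * (C₂ + C₁) := by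
    intro a
    obtain ⟨l, L', hl, he⟩ := (A.coef a).ell (isCompact_closedBall 0 2) s26
    obtain ⟨G, hG, h⟩ := degiorgi hE (L := L') (R := 1) (R' := 2) hl one_pos one_lt_two
    exact ⟨G, hG, fun f Df h1 h2 h3 h4 => h 0 (ball 0 6) (A.α a) f Df C₁ C₂ isOpen_ball s26 he
      (A.coef a).1.continuousOn h1 h2 hC₁ hC₂ h3 h4⟩
  choose G hG hdg using hdg
  set C' : ℝ := Real.exp ((∑ a, G a) * (C₂ + C₁)) with hC'
  have hGs : ∀ a, G a ≤ ∑ a, G a := fun a =>
    Finset.single_le_sum (f := G) (fun a _ => (hG a).le) (Finset.mem_univ a)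
  have h1C' : 1 ≤ C' := Real.one_le_exp
    (mul_nonneg (Finset.sum_nonneg fun a _ => (hG a).le) (add_nonneg hC₂ hC₁))
  have hBC : 1 ≤ B * C' := one_le_mul_of_one_le_of_one_le hB h1C'
  have hn2 := fun a : A.ι => n2_le_of_en (r := r) (A.coef a) (isCompact_closedBall 0 4) s46 hBC
  choose L₂ hL₂ hn2 using hn2
  have hLs : ∀ a, L₂ a ≤ ∑ a, L₂ a := fun a =>
    Finset.single_le_sum (f := L₂) (fun a _ => hL₂ a) (Finset.mem_univ a)
  have hS0 : 0 ≤ (∑ a, L₂ a) * (1 + M) :=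
    mul_nonneg (Finset.sum_nonneg fun a _ => hL₂ a) (by linarith)
  refine ⟨B * C' + (∑ a, L₂ a) * (1 + M), N', by linarith, fun ρ C₀ h D hC₀ hh he => ?_⟩
  obtain ⟨u, u', ρ', Q, hcj, hz, hQ⟩ := hno ρ C₀ h D hh he
  obtain ⟨C₃, -, hh', he'⟩ := hh.conj hcj hC₀ he
  have hH := A.h0_ref hχ ρ'
  have hHb := hBd ρ' hz
  have hs : ∀ a, ∀ᵐ x, x ∈ ball (0 : E) 1 → sg (gm (h a x) u) (A.h0 χ ρ' a x) ≤ C' := by
    intro a
    obtain ⟨Df, w1, w2, w3⟩ := hsub ρ' _ _ _ _ hH hHb hh' a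
    have pQ : (Q a).PosDef := (hQ a).1.posDef (by linarith)
    have hn : N2 (closedBall 0 2) (fun x => Real.log (sg (gm (h a x) u) (A.h0 χ ρ' a x))) ≤
        ENNReal.ofReal C₂ := by
      have m1 := aesm_log_sg isOpen_ball (hh'.wd a) (hh'.lbd a) pQ (isCompact_closedBall 0 2) s26
      calc N2 (closedBall 0 2) (fun x => Real.log (sg (gm (h a x) u) (A.h0 χ ρ' a x)))
          ≤ eLpNorm ((fun x => Real.log (sg (Q a) (gm (h a x) u))) + fun _ => c) 2
              (volume.restrict (closedBall (0 : E) 2)) := by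
            refine eLpNorm_mono_ae_real ?_
            filter_upwards [ae_restrict_mem measurableSet_closedBall] with x hx
            have p1 := (hh'.lbd a).posDef x (s26 hx)
            have p2 := hH.pos a x (s26 hx)
            have b2 := (hHb a x (closedBall_subset_closedBall (by norm_num) hx)).1
            have e1 := log_sg_le hr p1 pQ p2
            have e2 : sg (Q a) (A.h0 χ ρ' a x) ≤ 2 * r * (B * N') := by
              rw [mul_comm B N']
              exact sg_le_of_obst pQ (by nlinarith) (Obst.trans (by linarith) (by linarith)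
                (Obst.symm (by linarith) (hQ a).1) b2)
            have e3 : Real.log (sg (Q a) (A.h0 χ ρ' a x)) ≤ c :=
              Real.log_le_log (lt_of_lt_of_le (by linarith) (le_sg pQ p2)) e2
            rw [Real.norm_of_nonneg (log_sg_nonneg hr p1 p2), Pi.add_apply, sg_comm (Q a)]
            linarith
        _ ≤ N2 (closedBall 0 2) (fun x => Real.log (sg (Q a) (gm (h a x) u))) +
              eLpNorm (fun _ : E => c) 2 (volume.restrict (closedBall (0 : E) 2)) :=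
            eLpNorm_add_le m1 aestronglyMeasurable_const (by norm_num)
        _ ≤ ENNReal.ofReal η + ENNReal.ofReal (c * v) := by
            refine add_le_add (hQ a).2 (le_of_eq ?_)
            rw [eLpNorm_const' c (by norm_num) (by norm_num), Measure.restrict_apply_univ,
              ENNReal.ofReal_mul hc0, hvdef,
              ENNReal.ofReal_toReal (ENNReal.rpow_ne_top_of_nonneg (by norm_num) hv),
              Real.enorm_eq_ofReal hc0]
        _ = ENNReal.ofReal C₂ := (ENNReal.ofReal_add hη (mul_nonneg hc0 hv0)).symm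
    filter_upwards [hdg a _ Df w1 w2 w3 hn] with x hx hx1
    have e1 := hx (ball_subset_closedBall hx1)
    have e2 : G a * (C₂ + C₁) ≤ (∑ a, G a) * (C₂ + C₁) :=
      mul_le_mul_of_nonneg_right (hGs a) (add_nonneg hC₂ hC₁)
    exact (Real.le_exp_log _).trans (Real.exp_le_exp.2 (e1.trans e2))
  obtain ⟨h', m1, ho, hae⟩ := hh'.modify hH h1C' hs
  have hbd : ∀ a, ∀ x ∈ closedBall (0 : E) 4, Bd (B * C') (h' a x) := fun a x hx =>
    Obst.trans (by linarith) (by linarith)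
      (hHb a x (closedBall_subset_closedBall (by norm_num) hx)).1 (ho a x (s46 hx))
  have hw : ∀ a, WD 2 (ball 0 6) (h' a) fun x => lmul uᴴ (rmul (D a x) u) := fun a =>
    (hh'.wd a).congr ((hae a).mono fun x hx hx6 => (hx hx6).symm)
      (Eventually.of_forall fun _ _ => rfl)
  have hl : ∀ a, LBd (ball 0 6) (h' a) := fun a => (hH.lbd a).of_obst h1C' (ho a)
  refine ⟨u, u', ρ', h', hcj, hz, ⟨hw, hl, m1, fun a φ hφ => ?_,
    fun a x hx => (hbd a x hx).mono (by linarith) (by linarith), fun a => ?_⟩, hae⟩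
  · rw [← hh'.harm a φ hφ]
    refine integral_congr_ae ?_
    filter_upwards [hae a] with x hx
    by_cases hx6 : x ∈ ball (0 : E) 6
    · rw [hx hx6]
    · simp [hφ.fderiv_zero_of_notMem hx6]
  · have hher : ∀ᵐ x, x ∈ closedBall (0 : E) 4 → HermF (lmul uᴴ (rmul (D a x) u)) := by
      filter_upwards [wd_herm (by norm_num) isOpen_ball (hw a)
        fun x hx => ((hl a).posDef x hx).isHermitian] with x hx hx4 using hx (s46 hx4)
    refine (hn2 a (h' a) _ M hM (hbd a) hher ((lintegral_mono_set s46).trans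
      (le_trans (le_of_eq ?_) (he' a)))).trans (ENNReal.ofReal_le_ofReal ?_)
    · refine lintegral_congr_ae ?_
      filter_upwards [ae_restrict_mem measurableSet_ball, ae_restrict_of_ae (hae a)] with x h6 hx
      rw [hx h6]
    · have := mul_le_mul_of_nonneg_right (hLs a) (show 0 ≤ 1 + M by linarith)
      linarith

/-- A0: harmonic metrics for semisimple representations, with constants depending on the size -/
theorem Atlas.exists_hm_ss (A : Atlas E Γ) (hE : 2 ≤ Module.finrank ℝ E) (hr : 0 < r) (N : ℝ) :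
    ∃ C N' : ℝ, 1 ≤ C ∧ ∀ ρ : Γ →* Mat r, SSimple ρ → A.Sz N ρ →
      ∃ (u u' : Mat r) (ρ' : Γ →* Mat r) (h : A.ι → E → Mat r) (D : A.ι → E → E →L[ℝ] Mat r),
        Cj u u' ρ ρ' ∧ A.Sz N' ρ' ∧ A.HM ρ' C h D := by
  obtain ⟨M, hM, h1⟩ := A.hasHM_ss hE N r
  obtain ⟨C, N', hC, h2⟩ := A.hm_uniform hE hr hM
  refine ⟨C, N', hC, fun ρ hs hz => ?_⟩
  obtain ⟨C₀, h, D, hC₀, h3, h4⟩ := h1 ρ hs hz
  obtain ⟨u, u', ρ', h', c1, c2, c3, -⟩ := h2 ρ C₀ h D hC₀ h3 h4
  exact ⟨u, u', ρ', h', _, c1, c2, c3⟩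

end Pool.Agent.PW
end
end
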