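import Pool.Agent.P.MP_65ad7c_ag.LDefs
import Pool.Agent.P.MP_65ad7c_ag.LProj
import Pool.Agent.P.MP_65ad7c_ag.LFc0

-- part Pool.Agent.P.MP_65ad7c_ag.LRep
section

open Matrix Filter Topology Set
open scoped ComplexOrder Kronecker

noncomputable section
namespace Pool.Agent.PW.L

variable {n m : Type} [Fintype n] [DecidableEq n] [Fintype m] [DecidableEq m]
  {r : ℕ} {G : Subgroup (GL (Fin r) ℂ)} {Γ : Type}

theorem rep_isUnit [Group Γ] (ρ : Γ →* Matrix n n ℂ) (γ : Γ) : IsUnit (ρ γ) := by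
  exact (Group.isUnit γ).map ρ

theorem rep_bdd [Monoid Γ] {S : Set Γ} (hS : Submonoid.closure S = ⊤) (N : ℝ) (γ : Γ) :
    ∃ B : ℝ, ∀ ρ : Γ →* Matrix n n ℂ, (∀ s ∈ S, ∀ i j, ‖ρ s i j‖ ≤ N) → ∀ i j, ‖ρ γ i j‖ ≤ B := by
  have hγ : γ ∈ Submonoid.closure S := hS ▸ Submonoid.mem_top γ
  induction hγ using Submonoid.closure_induction with
  | mem s hs => exact ⟨N, fun ρ h => h s hs⟩
  | one =>
    refine ⟨1, fun ρ _ i j => ?_⟩
    rw [map_one, Matrix.one_apply]
    split_ifs <;> simp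
  | mul x y _ _ hx hy =>
    obtain ⟨B, hB⟩ := hx
    obtain ⟨B', hB'⟩ := hy
    refine ⟨∑ _k : n, B * B', fun ρ h i j => ?_⟩
    rw [map_mul, Matrix.mul_apply]
    refine (norm_sum_le _ _).trans (Finset.sum_le_sum fun k _ => ?_)
    rw [norm_mul]
    exact mul_le_mul (hB ρ h i k) (hB' ρ h k j) (norm_nonneg _)
      ((norm_nonneg _).trans (hB ρ h i k))

theorem mat_limit {ι : Type} (U : Ultrafilter ι) (a : ι → Matrix n m ℂ) {B : ℝ}
    (h : ∀ᶠ k in U, ∀ i j, ‖a k i j‖ ≤ B) :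
    ∃ a₀ : Matrix n m ℂ, ∀ i j, Tendsto (fun k => a k i j) U (𝓝 (a₀ i j)) := by
  have h1 : ∀ i j, ∃ z : ℂ, Tendsto (fun k => a k i j) U (𝓝 z) := fun i j => by
    obtain ⟨z, -, hz⟩ := (isCompact_closedBall (0 : ℂ) B).ultrafilter_le_nhds'
      (U.map fun k => a k i j) (h.mono fun k hk => by simpa using hk i j)
    exact ⟨z, hz⟩
  choose z hz using h1
  exact ⟨Matrix.of z, hz⟩

theorem rep_limit [Monoid Γ] {ι : Type} (U : Ultrafilter ι) (ρ : ι → Γ →* Matrix n n ℂ)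
    (h : ∀ γ, ∃ B : ℝ, ∀ᶠ k in U, ∀ i j, ‖ρ k γ i j‖ ≤ B) : ∃ ρ₀, RT U ρ ρ₀ := by
  have h1 : ∀ γ, ∃ a₀ : Matrix n n ℂ, ∀ i j, Tendsto (fun k => ρ k γ i j) U (𝓝 (a₀ i j)) :=
    fun γ => by
      obtain ⟨B, hB⟩ := h γ
      exact mat_limit U (fun k => ρ k γ) hB
  choose a ha using h1
  refine ⟨⟨⟨a, ?_⟩, fun x y => ?_⟩, ha⟩
  · ext i j
    refine tendsto_nhds_unique (ha 1 i j) ?_
    simp only [map_one]
    exact tendsto_const_nhds
  · ext i j
    refine tendsto_nhds_unique (ha (x * y) i j) ?_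
    simp only [map_mul, Matrix.mul_apply]
    exact tendsto_finsetSum _ fun k _ => (ha x i k).mul (ha y k j)

theorem exists_min_rep [Group Γ] (S : Finset Γ) (hS : Submonoid.closure (S : Set Γ) = ⊤)
    (Z : Set (Γ →* Matrix n n ℂ))
    (hZ : ∀ (U : Ultrafilter ℕ) (ρ : ℕ → Γ →* Matrix n n ℂ) ρ₀, (∀ k, ρ k ∈ Z) → RT U ρ ρ₀ → ρ₀ ∈ Z)
    (hne : Z.Nonempty) (φ : Matrix n n ℂ → ℝ) (h0 : ∀ a, 0 ≤ φ a)
    (hc : ContinuousOn φ {a | IsUnit a})
    (hL : ∀ L : ℝ, ∃ B : ℝ, ∀ a, IsUnit a → φ a ≤ L → ∀ i j, ‖a i j‖ ≤ B) :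
    ∃ ρ ∈ Z, ∀ ρ' ∈ Z, ∑ s ∈ S, φ (ρ s) ≤ ∑ s ∈ S, φ (ρ' s) := by
  let f : (Γ →* Matrix n n ℂ) → ℝ := fun ρ => ∑ s ∈ S, φ (ρ s)
  have hb : BddBelow (f '' Z) := ⟨0, by
    rintro _ ⟨ρ, -, rfl⟩
    exact Finset.sum_nonneg fun s _ => h0 _⟩
  obtain ⟨u, hu, hlim, hmem⟩ := exists_seq_tendsto_sInf (hne.image f) hb
  choose ρ hρZ hρ using hmem
  obtain ⟨B, hB⟩ := hL (u 0)
  have hbd : ∀ k, ∀ s ∈ (S : Set Γ), ∀ i j, ‖ρ k s i j‖ ≤ B := fun k s hs => by
    refine hB _ (rep_isUnit _ _) ?_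
    have h1 : φ (ρ k s) ≤ f (ρ k) :=
      Finset.single_le_sum (f := fun s => φ (ρ k s)) (fun s _ => h0 _) hs
    exact h1.trans ((hρ k).le.trans (hu (Nat.zero_le k)))
  let U : Ultrafilter ℕ := Ultrafilter.of atTop
  obtain ⟨ρ₀, hρ₀⟩ := rep_limit U ρ fun γ => by
    obtain ⟨B', hB'⟩ := rep_bdd (n := n) hS B γ
    exact ⟨B', Eventually.of_forall fun k => hB' _ (hbd k)⟩
  have h2 : Tendsto (fun k => f (ρ k)) U (𝓝 (f ρ₀)) := by
    refine tendsto_finsetSum _ fun s _ => ?_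
    refine (hc (ρ₀ s) (rep_isUnit _ _)).tendsto.comp (f := fun k => ρ k s) ?_
    exact tendsto_nhdsWithin_iff.2 ⟨tendsto_pi_nhds.2 fun i => tendsto_pi_nhds.2 fun j =>
      hρ₀ s i j, Eventually.of_forall fun k => rep_isUnit _ _⟩
  have h3 : Tendsto (fun k => f (ρ k)) U (𝓝 (sInf (f '' Z))) := by
    simp only [hρ]
    exact hlim.mono_left (Ultrafilter.of_le _)
  refine ⟨ρ₀, hZ U ρ ρ₀ hρZ hρ₀, fun ρ' hρ' => ?_⟩
  exact (tendsto_nhds_unique h2 h3).le.trans (csInf_le hb ⟨ρ', hρ', rfl⟩)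

/-- the conjugate of a representation -/
theorem exists_cj [Monoid Γ] (ρ : Γ →* Matrix n n ℂ) {u u' : Matrix n n ℂ} (h : u * u' = 1) :
    ∃ σ : Γ →* Matrix n n ℂ, ∀ γ, σ γ = u' * ρ γ * u := by
  refine ⟨⟨⟨fun γ => u' * ρ γ * u, ?_⟩, fun a b => ?_⟩, fun _ => rfl⟩
  · rw [map_one, Matrix.mul_one, mul_eq_one_comm.1 h]
  · show u' * ρ (a * b) * u = u' * ρ a * u * (u' * ρ b * u)
    rw [map_mul]
    calc u' * (ρ a * ρ b) * u = u' * ρ a * (u * u') * ρ b * u := by
          rw [h]; simp only [Matrix.mul_one, Matrix.mul_assoc]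
      _ = _ := by simp only [Matrix.mul_assoc]

theorem exists_unit_one_add (c : Matrix n n ℂ) : ∃ ε : ℂ, ε ≠ 0 ∧ IsUnit (1 + ε • c) := by
  have h1 : Continuous fun ε : ℂ => (1 + ε • c).det :=
    (continuous_const.add (continuous_id.smul continuous_const)).matrix_det
  have h2 : ∀ᶠ ε : ℂ in 𝓝 0, (1 + ε • c).det ≠ 0 :=
    h1.continuousAt.eventually_ne (by simp)
  obtain ⟨ε, h3, h4⟩ := ((h2.filter_mono (nhdsWithin_le_nhds (s := {0}ᶜ))).and
    self_mem_nhdsWithin).exists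
  exact ⟨ε, h4, (Matrix.isUnit_iff_isUnit_det _).2 h3.isUnit⟩

theorem SSm.cj {a b : Γ → Matrix n n ℂ} (h : SSm a) {u : Matrix n n ℂ} (hu : IsUnit u)
    (hb : ∀ γ, u * b γ = a γ * u) : SSm b := by
  intro W hW
  let e : (n → ℂ) ≃ₗ[ℂ] (n → ℂ) := u.toLinearEquiv' hu.invertible
  have he : ∀ v, e v = u *ᵥ v := fun v => rfl
  have hk : ∀ γ v, e (b γ *ᵥ v) = a γ *ᵥ e v := fun γ v => by
    rw [he, he, mulVec_mulVec, mulVec_mulVec, hb]
  obtain ⟨W', h1, h2⟩ := h (Submodule.orderIsoMapComap e W) (by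
    rintro γ _ ⟨v, hv, rfl⟩
    exact ⟨b γ *ᵥ v, hW γ v hv, hk γ v⟩)
  refine ⟨(Submodule.orderIsoMapComap e).symm W', fun γ v hv => ?_, ?_⟩
  · show e (b γ *ᵥ v) ∈ W'
    rw [hk]
    exact h1 γ _ hv
  · have h3 := (Submodule.orderIsoMapComap e).symm.isCompl h2
    rwa [OrderIso.symm_apply_apply] at h3

end Pool.Agent.PW.L
end
end

-- part Pool.Agent.P.MP_65ad7c_ag.LPrep0
section

open Matrix Filter Topology Set
open scoped ComplexOrder Kronecker

noncomputable section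
namespace Pool.Agent.PW.L

variable {n m : Type} [Fintype n] [DecidableEq n] [Fintype m] [DecidableEq m]
  {r : ℕ} {G : Subgroup (GL (Fin r) ℂ)} {Γ : Type}

/-- reindexing along `Fintype.equivFin` -/
def lprep0_rx (n : Type) [Fintype n] [DecidableEq n] :
    Matrix n n ℂ ≃ₐ[ℂ] Mx (Fintype.card n) :=
  Matrix.reindexAlgEquiv ℂ ℂ (Fintype.equivFin n)

theorem lprep0_rx_apply (a : Matrix n n ℂ) (i j : Fin (Fintype.card n)) :
    lprep0_rx n a i j = a ((Fintype.equivFin n).symm i) ((Fintype.equivFin n).symm j) := rfl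

theorem lprep0_rx_star (a : Matrix n n ℂ) : lprep0_rx n aᴴ = (lprep0_rx n a)ᴴ := by
  ext i j
  simp only [lprep0_rx_apply, conjTranspose_apply]

/-- the reindexed representation -/
def lprep0_R (R : Mx r →* Matrix n n ℂ) : Mx r →* Mx (Fintype.card n) where
  toFun a := lprep0_rx n (R a)
  map_one' := by rw [map_one, map_one]
  map_mul' a b := by rw [map_mul, map_mul]

theorem lprep0_R_apply (R : Mx r →* Matrix n n ℂ) (a : Mx r) :
    lprep0_R R a = lprep0_rx n (R a) := rfl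

variable [Group Γ] (K : RotSys Γ)

theorem lprep0_rel {C t : ℝ} {ρ ρ' : Γ →* Mx r} (R : Mx r →* Matrix n n ℂ) (hp : IsPoly R)
    (hs : ∀ a, R aᴴ = (R a)ᴴ) (h : K.Rel C t ρ ρ') :
    ∃ C' : ℝ, K.Rel C' t ((lprep0_R R).comp ρ) ((lprep0_R R).comp ρ') := by
  refine K.prep (lprep0_R R) ?_ ?_ h
  · intro i j
    obtain ⟨p, hp⟩ := hp ((Fintype.equivFin n).symm i) ((Fintype.equivFin n).symm j)
    exact ⟨p, fun a => by rw [lprep0_R_apply, lprep0_rx_apply, hp]⟩
  · intro a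
    rw [lprep0_R_apply, lprep0_R_apply, hs, lprep0_rx_star]

theorem prep_comm {C t : ℝ} {ρ ρ' : Γ →* Mx r} (R : Mx r →* Matrix n n ℂ) (hp : IsPoly R)
    (hs : ∀ a, R aᴴ = (R a)ᴴ) (h : K.Rel C t ρ ρ') {c : Matrix n n ℂ}
    (hc : c ∈ Com fun γ => R (ρ γ)) : c ∈ Com fun γ => R (ρ' γ) := by
  obtain ⟨C', h'⟩ := lprep0_rel K R hp hs h
  obtain ⟨ε, hε, hu⟩ := exists_unit_one_add c
  have key := K.uniq (lprep0_rx n (1 + ε • c)) h' h' (hu.map (lprep0_rx n)) (by
    intro γ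
    simp only [MonoidHom.comp_apply, lprep0_R_apply]
    rw [← map_mul, ← map_mul, add_mul, mul_add, one_mul, mul_one, smul_mul_assoc, mul_smul_comm,
      hc γ])
  intro γ
  have h1 := key γ
  simp only [MonoidHom.comp_apply, lprep0_R_apply] at h1
  rw [← map_mul, ← map_mul] at h1
  have h2 := (lprep0_rx n).injective h1
  rw [add_mul, mul_add, one_mul, mul_one, smul_mul_assoc, mul_smul_comm] at h2
  exact smul_right_injective _ hε (add_left_cancel h2)

theorem prep_perp {C t : ℝ} {ρ ρ' : Γ →* Mx r} (R : Mx r →* Matrix n n ℂ) (hp : IsPoly R)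
    (hs : ∀ a, R aᴴ = (R a)ᴴ) (h : K.Rel C t ρ ρ') : Perp fun γ => R (ρ γ) := by
  obtain ⟨C', h'⟩ := lprep0_rel K R hp hs h
  intro Q hQ hQ2 hinv γ
  have key := K.perp h' (lprep0_rx n Q) (by rw [← lprep0_rx_star, hQ])
    (by rw [← map_mul, hQ2]) (by
      intro γ
      simp only [MonoidHom.comp_apply, lprep0_R_apply]
      rw [← map_mul, ← map_mul, ← map_mul, hinv γ]) γ
  simp only [MonoidHom.comp_apply, lprep0_R_apply] at key
  rw [← map_mul, ← map_mul] at key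
  exact (lprep0_rx n).injective key

/-- `a ↦ R a ⊗ 1` -/
def lprep0_T (R : Mx r →* Matrix n n ℂ) : Mx r →* Matrix (n × n) (n × n) ℂ where
  toFun a := R a ⊗ₖ (1 : Matrix n n ℂ)
  map_one' := by rw [map_one, one_kronecker_one]
  map_mul' a b := by rw [map_mul, ← mul_kronecker_mul, one_mul]

theorem prep_span {C t : ℝ} {ρ ρ' : Γ →* Mx r} (R : Mx r →* Matrix n n ℂ) (hp : IsPoly R)
    (hs : ∀ a, R aᴴ = (R a)ᴴ) (h : K.Rel C t ρ ρ') : SpanC fun γ => R (ρ γ) := by
  have h1 : Perp fun γ => lprep0_T R (ρ γ) := by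
    refine prep_perp K (lprep0_T R) ?_ ?_ h
    · intro x y
      obtain ⟨p, hp⟩ := hp x.1 y.1
      refine ⟨p * MvPolynomial.C ((1 : Matrix n n ℂ) x.2 y.2), fun a => ?_⟩
      rw [map_mul, MvPolynomial.eval_C, ← hp]
      rfl
    · intro a
      show R aᴴ ⊗ₖ (1 : Matrix n n ℂ) = (R a ⊗ₖ (1 : Matrix n n ℂ))ᴴ
      rw [conjTranspose_kronecker, conjTranspose_one, hs]
  exact spanC_of_perp (R.comp ρ) h1

theorem rel_span {C t : ℝ} {ρ ρ' : Γ →* Mx r} (h : K.Rel C t ρ ρ') : SpanC ρ := by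
  refine prep_span K (MonoidHom.id (Mx r)) ?_ (fun _ => rfl) h
  intro i j
  exact ⟨MvPolynomial.X (i, j), fun a => by simp⟩

end Pool.Agent.PW.L
end
end

-- part Pool.Agent.P.MP_65ad7c_ag.LPrep
section

open Matrix Filter Topology Set
open scoped ComplexOrder Kronecker

noncomputable section
namespace Pool.Agent.PW.L

variable {n m : Type} [Fintype n] [DecidableEq n] [Fintype m] [DecidableEq m]
  {r : ℕ} {G : Subgroup (GL (Fin r) ℂ)} {Γ : Type}

/-- conjugation by a unitary matrix -/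
def lprep_cj {k : Mx r} (hk : Uni k) : Mx r →* Mx r where
  toFun a := kᴴ * a * k
  map_one' := by
    rw [Matrix.mul_one]
    exact hk
  map_mul' a b := by
    have h := hk.mul_self
    calc kᴴ * (a * b) * k = kᴴ * a * (k * kᴴ) * b * k := by
          rw [h, Matrix.mul_one, Matrix.mul_assoc kᴴ a b]
      _ = kᴴ * a * k * (kᴴ * b * k) := by simp only [Matrix.mul_assoc]

theorem lprep_cj_apply {k : Mx r} (hk : Uni k) (a : Mx r) : lprep_cj hk a = kᴴ * a * k := rfl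

theorem lprep_poly {k : Mx r} (hk : Uni k) : IsPoly (lprep_cj hk) := by
  intro i j
  refine ⟨∑ q, (∑ p, MvPolynomial.C (kᴴ i p) * MvPolynomial.X (p, q)) * MvPolynomial.C (k q j),
    fun a => ?_⟩
  simp only [lprep_cj_apply, Matrix.mul_apply, map_sum, map_mul, MvPolynomial.eval_C,
    MvPolynomial.eval_X]

theorem lprep_tendsto {ι : Type} {U : Filter ι} {k a : ι → Mx r} {k₀ a₀ : Mx r}
    (hk : ∀ i j, Tendsto (fun x => k x i j) U (𝓝 (k₀ i j)))
    (ha : ∀ i j, Tendsto (fun x => a x i j) U (𝓝 (a₀ i j))) (i j : Fin r) :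
    Tendsto (fun x => ((k x)ᴴ * a x * k x) i j) U (𝓝 ((k₀ᴴ * a₀ * k₀) i j)) := by
  simp only [Matrix.mul_apply, Matrix.conjTranspose_apply]
  refine tendsto_finsetSum _ fun q _ => Tendsto.mul ?_ (hk q j)
  exact tendsto_finsetSum _ fun p _ => Tendsto.mul (hk p i).star (ha p q)

variable [Group Γ] (K : RotSys Γ)

theorem rel_uni {C t : ℝ} {ρ ρ' σ σ' : Γ →* Mx r} {k : Mx r} (hk : Uni k) (h : K.Rel C t σ σ')
    (h₁ : ∀ γ, ρ γ = kᴴ * σ γ * k) (h₂ : ∀ γ, ρ' γ = kᴴ * σ' γ * k) : ∃ C', K.Rel C' t ρ ρ' := by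
  obtain ⟨C', h'⟩ := K.prep (lprep_cj hk) (lprep_poly hk) (fun a => by
    simp only [lprep_cj_apply, Matrix.conjTranspose_mul, Matrix.conjTranspose_conjTranspose,
      Matrix.mul_assoc]) h
  have e₁ : (lprep_cj hk).comp σ = ρ := MonoidHom.ext fun γ => (h₁ γ).symm
  have e₂ : (lprep_cj hk).comp σ' = ρ' := MonoidHom.ext fun γ => (h₂ γ).symm
  rw [e₁, e₂] at h'
  exact ⟨C', h'⟩

theorem URel.rel {C t : ℝ} {ρ ρ' : Γ →* Mx r} (h : URel K C t ρ ρ') : ∃ C', K.Rel C' t ρ ρ' := by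
  obtain ⟨k, σ, σ', hk, h, h₁, h₂⟩ := h
  exact rel_uni K hk h h₁ h₂

theorem URel.lim {C t₀ : ℝ} {ι : Type} (U : Ultrafilter ι) {t : ι → ℝ} {ρ ρ' : ι → Γ →* Mx r}
    (h : ∀ᶠ k in U, URel K C (t k) (ρ k) (ρ' k)) (ht : Tendsto t U (𝓝 t₀)) :
    ∃ (ρ₀ ρ₀' : Γ →* Mx r) (C' : ℝ), K.Rel C' t₀ ρ₀ ρ₀' ∧ RT U ρ ρ₀ ∧ RT U ρ' ρ₀' := by
  classical
  obtain ⟨x₀, hx₀⟩ := h.exists
  let f : ι → ι := fun x => if URel K C (t x) (ρ x) (ρ' x) then x else x₀
  have hf : ∀ x, URel K C (t (f x)) (ρ (f x)) (ρ' (f x)) := by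
    intro x
    by_cases hx : URel K C (t x) (ρ x) (ρ' x)
    · have e : f x = x := if_pos hx
      rw [e]
      exact hx
    · have e : f x = x₀ := if_neg hx
      rw [e]
      exact hx₀
  have hfe : ∀ᶠ x in U, f x = x := h.mono fun x hx => if_pos hx
  choose k σ σ' hk hR h₁ h₂ using hf
  obtain ⟨σ₀, hσ⟩ := rep_limit U σ fun γ => by
    obtain ⟨B, hB⟩ := K.bdd r C γ
    exact ⟨B, Eventually.of_forall fun x i j => (hB _ _ _ (hR x) i j).1⟩
  obtain ⟨σ₀', hσ'⟩ := rep_limit U σ' fun γ => by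
    obtain ⟨B, hB⟩ := K.bdd r C γ
    exact ⟨B, Eventually.of_forall fun x i j => (hB _ _ _ (hR x) i j).2⟩
  obtain ⟨k₀, hk₀⟩ := mat_limit U k (B := 1)
    (Eventually.of_forall fun x i j => (hk x).norm_le i j)
  have hu : Uni k₀ := by
    show k₀ᴴ * k₀ = 1
    ext i j
    have h1 := lprep_tendsto (a := fun _ => (1 : Mx r)) (a₀ := 1) hk₀
      (fun _ _ => tendsto_const_nhds) i j
    have h2 : ∀ x, ((k x)ᴴ * (1 : Mx r) * k x) i j = (1 : Mx r) i j := fun x => by
      rw [Matrix.mul_one, show (k x)ᴴ * k x = 1 from hk x]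
    rw [funext h2, Matrix.mul_one] at h1
    exact tendsto_nhds_unique h1 tendsto_const_nhds
  have ht' : Tendsto (fun x => t (f x)) U (𝓝 t₀) :=
    ht.congr' (hfe.mono fun x hx => by simp only [hx])
  obtain ⟨C₁, hC₁⟩ := K.lim ι U (fun x => t (f x)) t₀ σ σ' σ₀ σ₀' hR ht' hσ hσ'
  obtain ⟨ρ₀, e₀⟩ := exists_cj σ₀ hu.mul_self
  obtain ⟨ρ₀', e₀'⟩ := exists_cj σ₀' hu.mul_self
  obtain ⟨C', hC'⟩ := rel_uni K hu hC₁ e₀ e₀'
  refine ⟨ρ₀, ρ₀', C', hC', fun γ i j => ?_, fun γ i j => ?_⟩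
  · rw [e₀]
    refine (lprep_tendsto hk₀ (hσ γ) i j).congr' (hfe.mono fun x hx => ?_)
    have h3 := h₁ x γ
    rw [hx] at h3
    simp only [h3]
  · rw [e₀']
    refine (lprep_tendsto hk₀ (hσ' γ) i j).congr' (hfe.mono fun x hx => ?_)
    have h3 := h₂ x γ
    rw [hx] at h3
    simp only [h3]

end Pool.Agent.PW.L
end
end

-- part Pool.Agent.P.MP_65ad7c_ag.LFc1
section

open Matrix Filter Topology Set
open scoped ComplexOrder Kronecker

noncomputable section
namespace Pool.Agent.PW.L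

variable {n m : Type} [Fintype n] [DecidableEq n] [Fintype m] [DecidableEq m]
  {r : ℕ} {G : Subgroup (GL (Fin r) ℂ)} {Γ : Type}

omit [DecidableEq m] in
theorem lfc1_left {U : Matrix n n ℂ} {V : Matrix m m ℂ} (hU : Uni U)
    (d : n → ℝ) (a : Matrix m n ℂ) :
    Vᴴ * (a * Dg U d) * U = Vᴴ * a * U * diagonal fun i => (d i : ℂ) := by
  have h : Uᴴ * U = 1 := hU
  simp only [Dg, Matrix.mul_assoc, h, Matrix.mul_one]

omit [DecidableEq n] in
theorem lfc1_right {U : Matrix n n ℂ} {V : Matrix m m ℂ} (hV : Uni V)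
    (e : m → ℝ) (a : Matrix m n ℂ) :
    Vᴴ * (Dg V e * a) * U = (diagonal fun j => (e j : ℂ)) * (Vᴴ * a * U) := by
  have h : Vᴴ * V = 1 := hV
  simp only [Dg, ← Matrix.mul_assoc, h, Matrix.one_mul]

theorem lfc1_cancel {U : Matrix n n ℂ} {V : Matrix m m ℂ} (hU : Uni U) (hV : Uni V)
    {x y : Matrix m n ℂ} (h : Vᴴ * x * U = Vᴴ * y * U) : x = y := by
  have key : ∀ z : Matrix m n ℂ, V * (Vᴴ * z * U) * Uᴴ = z := fun z => by
    rw [← Matrix.mul_assoc, ← Matrix.mul_assoc, hV.mul_self, Matrix.one_mul, Matrix.mul_assoc,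
      hU.mul_self, Matrix.mul_one]
  rw [← key x, h, key y]

theorem Dg_intertwine {U : Matrix n n ℂ} {V : Matrix m m ℂ} (hU : Uni U) (hV : Uni V)
    {d : n → ℝ} {e : m → ℝ} {a : Matrix m n ℂ} (h : a * Dg U d = Dg V e * a) (f : ℝ → ℝ) :
    a * Dg U (fun i => f (d i)) = Dg V (fun j => f (e j)) * a := by
  have h1 : Vᴴ * a * U * (diagonal fun i => (d i : ℂ)) =
      (diagonal fun j => (e j : ℂ)) * (Vᴴ * a * U) := by
    rw [← lfc1_left hU, ← lfc1_right hV, h]
  refine lfc1_cancel hU hV ?_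
  rw [lfc1_left hU, lfc1_right hV]
  ext j i
  have h2 := congrFun (congrFun h1 j) i
  rw [mul_diagonal, diagonal_mul] at h2 ⊢
  by_cases h3 : (Vᴴ * a * U) j i = 0
  · rw [h3, zero_mul, mul_zero]
  · rw [mul_comm] at h2
    have h4 : d i = e j := by exact_mod_cast mul_right_cancel₀ h3 h2
    rw [h4, mul_comm]

theorem lfc1_spec {P : Matrix n n ℂ} (h : P.IsHermitian) :
    P = Dg (h.eigenvectorUnitary : Matrix n n ℂ) h.eigenvalues := by
  have := h.spectral_theorem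
  rw [Unitary.conjStarAlgAut_apply, star_eq_conjTranspose] at this
  exact this

theorem lfc1_uni {P : Matrix n n ℂ} (h : P.IsHermitian) :
    Uni (h.eigenvectorUnitary : Matrix n n ℂ) :=
  (Unitary.mem_iff.1 h.eigenvectorUnitary.2).1

theorem fc_Dg {U : Matrix n n ℂ} (hU : Uni U) (d : n → ℝ) (f : ℝ → ℝ) :
    fc f (Dg U d) = Dg U fun i => f (d i) := by
  have hP := Dg_herm U d
  have h1 : (1 : Matrix n n ℂ) * Dg (hP.eigenvectorUnitary : Matrix n n ℂ) hP.eigenvalues =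
      Dg U d * 1 := by
    rw [Matrix.one_mul, Matrix.mul_one, ← lfc1_spec hP]
  have h2 := Dg_intertwine (lfc1_uni hP) hU h1 f
  rw [Matrix.one_mul, Matrix.mul_one] at h2
  rw [fc, dif_pos hP, ← h2]
  rfl

theorem fc_herm (f : ℝ → ℝ) (P : Matrix n n ℂ) : (fc f P).IsHermitian := by
  unfold fc
  split_ifs
  · exact Dg_herm _ _
  · exact isHermitian_zero

theorem fc_intertwine {P : Matrix n n ℂ} {Q : Matrix m m ℂ} (hP : P.IsHermitian)
    (hQ : Q.IsHermitian) {a : Matrix m n ℂ} (h : a * P = Q * a) (f : ℝ → ℝ) :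
    a * fc f P = fc f Q * a := by
  obtain ⟨U, d, hU, rfl⟩ := exists_Dg hP
  obtain ⟨V, e, hV, rfl⟩ := exists_Dg hQ
  rw [fc_Dg hU, fc_Dg hV]
  exact Dg_intertwine hU hV h f

theorem lg_inv {P : Matrix n n ℂ} (h : P.PosDef) : lg P⁻¹ = -lg P := by
  obtain ⟨U, d, hU, hd, rfl⟩ := exists_Dg_pos h
  rw [Dg_inv hU fun i => (hd i).ne', lg, lg, fc_Dg hU, fc_Dg hU, ← Dg_neg]
  simp only [Real.log_inv]

theorem lg_comm {P : Matrix n n ℂ} (h : P.PosDef) : P * lg P = lg P * P :=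
  fc_intertwine h.isHermitian h.isHermitian rfl _

/-- `a log (aᴴ a) a⁻¹ = log (a aᴴ) = - log (bᴴ b)` for `b = a⁻¹` -/
theorem lg_conj {a b : Matrix n n ℂ} (h : a * b = 1) : a * lg (aᴴ * a) * b = -lg (bᴴ * b) := by
  have hb : b * a = 1 := mul_eq_one_comm.1 h
  have hbu : IsUnit b := IsUnit.of_mul_eq_one _ hb
  have h1 : a * (aᴴ * a) = (a * aᴴ) * a := (Matrix.mul_assoc _ _ _).symm
  have h2 := fc_intertwine (isHermitian_conjTranspose_mul_self a)
    (isHermitian_mul_conjTranspose_self a) h1 Real.log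
  have h3 : (bᴴ * b)⁻¹ = a * aᴴ := by
    refine inv_eq_right_inv ?_
    rw [Matrix.mul_assoc, ← Matrix.mul_assoc b, hb, Matrix.one_mul, ← conjTranspose_mul, h,
      conjTranspose_one]
  rw [← lg_inv (posDef_star_mul hbu), h3, lg, lg, h2, Matrix.mul_assoc, h, Matrix.mul_one]

theorem l2_Dg {U : Matrix n n ℂ} (hU : Uni U) (d : n → ℝ) :
    l2 (Dg U d) = ∑ i, Real.log (d i) ^ 2 := by
  rw [l2, lg, fc_Dg hU, Dg_mul hU, trace_Dg hU, Complex.ofReal_re]
  simp only [sq]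

theorem ph_nonneg (a : Matrix n n ℂ) : 0 ≤ ph a := by
  obtain ⟨U, d, hU, h⟩ := exists_Dg (isHermitian_conjTranspose_mul_self a)
  rw [ph, h, l2_Dg hU]
  exact Finset.sum_nonneg fun i _ => sq_nonneg _

theorem ex_zero {X : Matrix n n ℂ} (h : X.IsHermitian) : ex 0 X = 1 := by
  obtain ⟨U, d, hU, rfl⟩ := exists_Dg h
  rw [ex, fc_Dg hU, ← Dg_one hU]
  simp only [zero_mul, Real.exp_zero]

theorem ex_mul_neg {X : Matrix n n ℂ} (h : X.IsHermitian) (t : ℝ) : ex t X * ex (-t) X = 1 := by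
  obtain ⟨U, d, hU, rfl⟩ := exists_Dg h
  rw [ex, ex, fc_Dg hU, fc_Dg hU, Dg_mul hU, ← Dg_one hU]
  simp only [← Real.exp_add, neg_mul, add_neg_cancel, Real.exp_zero]

theorem ex_herm (t : ℝ) (X : Matrix n n ℂ) : (ex t X).IsHermitian := fc_herm _ _

/-- `exp (-(1/2) log P) = P ^ (-1/2)` -/
theorem ex_half {P : Matrix n n ℂ} (h : P.PosDef) :
    ex (-(1 / 2)) (lg P) * P * ex (-(1 / 2)) (lg P) = 1 := by
  obtain ⟨U, d, hU, hd, rfl⟩ := exists_Dg_pos h
  rw [lg, fc_Dg hU, ex, fc_Dg hU, Dg_mul hU, Dg_mul hU, ← Dg_one hU]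
  refine congrArg (Dg U) (funext fun i => ?_)
  have h1 : d i = Real.exp (Real.log (d i)) := (Real.exp_log (hd i)).symm
  generalize Real.log (d i) = x at h1
  rw [h1, ← Real.exp_add, ← Real.exp_add, Real.exp_eq_one_iff]
  ring

end Pool.Agent.PW.L
end
end

-- part Pool.Agent.P.MP_65ad7c_ag.LFc
section

open Matrix Filter Topology Set
open scoped ComplexOrder Kronecker

noncomputable section
namespace Pool.Agent.PW.L

variable {n m : Type} [Fintype n] [DecidableEq n] [Fintype m] [DecidableEq m]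
  {r : ℕ} {G : Subgroup (GL (Fin r) ℂ)} {Γ : Type}

theorem MD.const (A : Matrix n n ℂ) : MD (fun _ => A) 0 := by
  intro i j
  exact hasDerivAt_const _ _

theorem MD.add {c c' : ℝ → Matrix n n ℂ} {D D' : Matrix n n ℂ} (h : MD c D) (h' : MD c' D') :
    MD (fun t => c t + c' t) (D + D') := by
  intro i j
  exact (h i j).add (h' i j)

theorem MD.mul {c c' : ℝ → Matrix n n ℂ} {D D' : Matrix n n ℂ} (h : MD c D) (h' : MD c' D') :
    MD (fun t => c t * c' t) (D * c' 0 + c 0 * D') := by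
  intro i j
  have h1 := HasDerivAt.fun_sum (u := Finset.univ) fun k _ => (h i k).fun_mul (h' k j)
  simp only [Matrix.mul_apply, Matrix.add_apply, ← Finset.sum_add_distrib]
  exact h1

theorem MD.star {c : ℝ → Matrix n n ℂ} {D : Matrix n n ℂ} (h : MD c D) :
    MD (fun t => (c t)ᴴ) Dᴴ := by
  intro i j
  simp only [conjTranspose_apply]
  exact (Complex.conjCLE.toContinuousLinearMap.hasFDerivAt.comp_hasDerivAt (0 : ℝ) (h j i))

theorem MD.trace_re {c : ℝ → Matrix n n ℂ} {D : Matrix n n ℂ} (h : MD c D) :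
    HasDerivAt (fun t => (c t).trace.re) D.trace.re 0 := by
  have h1 : HasDerivAt (fun t => (c t).trace) D.trace 0 := by
    simp only [Matrix.trace, Matrix.diag_apply]
    exact HasDerivAt.fun_sum fun k _ => h k k
  exact Complex.reCLM.hasFDerivAt.comp_hasDerivAt (0 : ℝ) h1

theorem MD.eventually_isUnit {c : ℝ → Matrix n n ℂ} {D : Matrix n n ℂ} (h : MD c D)
    (h0 : IsUnit (c 0)) : ∀ᶠ t in 𝓝 (0 : ℝ), IsUnit (c t) := by
  have h1 : ContinuousAt c 0 :=
    continuousAt_pi.2 fun i => continuousAt_pi.2 fun j => (h i j).continuousAt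
  have h2 : ContinuousAt (fun t => (c t).det) 0 :=
    (continuous_id.matrix_det).continuousAt.comp h1
  have h3 : (c 0).det ≠ 0 := ((Matrix.isUnit_iff_isUnit_det _).1 h0).ne_zero
  filter_upwards [h2.eventually_ne h3] with t ht
  exact (Matrix.isUnit_iff_isUnit_det _).2 (Ne.isUnit ht)

theorem md_lin (z : Matrix n n ℂ) : MD (fun t => 1 + (t : ℂ) • z) z := by
  intro i j
  simp only [Matrix.add_apply, Matrix.smul_apply, smul_eq_mul]
  have h1 := (((hasDerivAt_id' (0 : ℝ)).ofReal_comp).mul_const (z i j)).const_add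
    ((1 : Matrix n n ℂ) i j)
  simpa using h1

theorem lfc_dg (U : Matrix n n ℂ) (d : n → ℝ) (s : ℝ) :
    MD (fun t => Dg U fun i => Real.exp (s * t * d i)) (Dg U fun i => s * d i) := by
  have h1 : MD (fun t => diagonal fun i => ((Real.exp (s * t * d i) : ℝ) : ℂ))
      (diagonal fun i => ((s * d i : ℝ) : ℂ)) := by
    intro i j
    by_cases hij : i = j
    · subst hij
      simp only [diagonal_apply_eq]
      have h2 : HasDerivAt (fun t : ℝ => s * t * d i) (s * 1 * d i) 0 :=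
        ((hasDerivAt_id' (0 : ℝ)).const_mul s).mul_const (d i)
      have h3 := h2.exp
      have h4 : Real.exp (s * 0 * d i) * (s * 1 * d i) = s * d i := by simp
      rw [h4] at h3
      exact h3.ofReal_comp
    · simp only [diagonal_apply_ne _ hij]
      exact hasDerivAt_const _ _
  have h5 := ((MD.const U).mul h1).mul (MD.const Uᴴ)
  simp only [Matrix.zero_mul, Matrix.mul_zero, zero_add, add_zero] at h5
  exact h5

theorem md_ex {X : Matrix n n ℂ} (h : X.IsHermitian) : MD (fun t => ex t X) X := by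
  obtain ⟨U, d, hU, rfl⟩ := exists_Dg h
  have h1 := lfc_dg U d 1
  simp only [one_mul] at h1
  simp only [ex, fc_Dg hU]
  exact h1

theorem md_ex_neg {X : Matrix n n ℂ} (h : X.IsHermitian) : MD (fun t => ex (-t) X) (-X) := by
  obtain ⟨U, d, hU, rfl⟩ := exists_Dg h
  have h1 := lfc_dg U d (-1)
  simp only [neg_mul, one_mul, Dg_neg] at h1
  simp only [ex, fc_Dg hU, neg_mul]
  exact h1

end Pool.Agent.PW.L
end
end

-- part Pool.Agent.P.MP_65ad7c_ag.LKlein0
section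

open Matrix Filter Topology Set
open scoped ComplexOrder Kronecker

noncomputable section
namespace Pool.Agent.PW.L

variable {n m : Type} [Fintype n] [DecidableEq n] [Fintype m] [DecidableEq m]
  {r : ℕ} {G : Subgroup (GL (Fin r) ℂ)} {Γ : Type}

theorem lklein0_trace (U V : Matrix n n ℂ) (g e : n → ℝ) :
    (Dg U g * Dg V e).trace.re = ∑ i, ∑ j, g i * ‖(Uᴴ * V) i j‖ ^ 2 * e j := by
  have h1 : (Dg U g * Dg V e).trace = (diagonal (fun i => (g i : ℂ)) * (Uᴴ * V) *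
      diagonal (fun i => (e i : ℂ)) * (Uᴴ * V)ᴴ).trace := by
    simp only [Dg, conjTranspose_mul, conjTranspose_conjTranspose, Matrix.mul_assoc]
    rw [trace_mul_comm U]
    simp only [Matrix.mul_assoc]
  rw [h1]
  generalize Uᴴ * V = W
  simp only [trace, diag_apply, Matrix.mul_apply (M := _ * _ * _), mul_diagonal, diagonal_mul,
    conjTranspose_apply, Complex.re_sum]
  refine Finset.sum_congr rfl fun i _ => Finset.sum_congr rfl fun j _ => ?_
  have h2 : (g i : ℂ) * W i j * e j * star (W i j) = ((g i * ‖W i j‖ ^ 2 * e j : ℝ) : ℂ) := by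
    have h3 := Complex.mul_conj (W i j)
    rw [Complex.normSq_eq_norm_sq] at h3
    push_cast at h3 ⊢
    rw [← h3, Complex.star_def]
    ring
  rw [h2, Complex.ofReal_re]

theorem lklein0_fro {U V : Matrix n n ℂ} (hU : Uni U) (hV : Uni V) (d e : n → ℝ) :
    fro (Dg V e - Dg U d) = ∑ i, ∑ j, ‖(Uᴴ * V) i j‖ ^ 2 * (e j - d i) ^ 2 := by
  have h1 : Uᴴ * (Dg V e - Dg U d) * V = Uᴴ * V * diagonal (fun i => (e i : ℂ)) -
      diagonal (fun i => (d i : ℂ)) * (Uᴴ * V) := by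
    have e1 : Uᴴ * U = 1 := hU
    have e2 : Vᴴ * V = 1 := hV
    simp only [Dg, Matrix.mul_sub, Matrix.sub_mul, Matrix.mul_assoc, e2, Matrix.mul_one]
    rw [← Matrix.mul_assoc Uᴴ U, e1, Matrix.one_mul]
  rw [← fro_uni hU hV, h1, fro]
  refine Finset.sum_congr rfl fun i _ => Finset.sum_congr rfl fun j _ => ?_
  rw [Matrix.sub_apply, mul_diagonal, diagonal_mul, mul_comm (d i : ℂ), ← mul_sub, norm_mul,
    mul_pow, ← Complex.ofReal_sub, Complex.norm_real, Real.norm_eq_abs, sq_abs]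

/-- Klein's inequality with a quadratic remainder -/
theorem klein {U V : Matrix n n ℂ} (hU : Uni U) (hV : Uni V) (d e : n → ℝ) (f f' : ℝ → ℝ) (K : ℝ)
    (h : ∀ i j, |f (e j) - f (d i) - f' (d i) * (e j - d i)| ≤ K * (e j - d i) ^ 2) :
    |∑ j, f (e j) - ∑ i, f (d i) - (Dg U (fun i => f' (d i)) * (Dg V e - Dg U d)).trace.re| ≤
      K * fro (Dg V e - Dg U d) := by
  have hW : Uni (Uᴴ * V) := hU.star.mul hV
  have e1 : ∑ j, f (e j) = ∑ i, ∑ j, ‖(Uᴴ * V) i j‖ ^ 2 * f (e j) := by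
    rw [Finset.sum_comm]
    simp only [← Finset.sum_mul, hW.col, one_mul]
  have e2 : ∀ g : n → ℝ, ∑ i, g i = ∑ i, ∑ j, ‖(Uᴴ * V) i j‖ ^ 2 * g i := fun g => by
    simp only [← Finset.sum_mul, hW.row, one_mul]
  rw [Matrix.mul_sub, trace_sub, Complex.sub_re, lklein0_trace U V, Dg_mul hU, trace_Dg hU,
    Complex.ofReal_re, lklein0_fro hU hV, e1, e2 fun i => f (d i), e2 fun i => f' (d i) * d i,
    Finset.mul_sum]
  simp only [← Finset.sum_sub_distrib, Finset.mul_sum]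
  refine (Finset.abs_sum_le_sum_abs _ _).trans (Finset.sum_le_sum fun i _ =>
    (Finset.abs_sum_le_sum_abs _ _).trans (Finset.sum_le_sum fun j _ => ?_))
  have e3 : ‖(Uᴴ * V) i j‖ ^ 2 * f (e j) - ‖(Uᴴ * V) i j‖ ^ 2 * f (d i) -
      (f' (d i) * ‖(Uᴴ * V) i j‖ ^ 2 * e j - ‖(Uᴴ * V) i j‖ ^ 2 * (f' (d i) * d i)) =
      ‖(Uᴴ * V) i j‖ ^ 2 * (f (e j) - f (d i) - f' (d i) * (e j - d i)) := by ring
  rw [e3, abs_mul, abs_of_nonneg (sq_nonneg _), mul_left_comm]
  exact mul_le_mul_of_nonneg_left (h i j) (sq_nonneg _)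

/-- every eigenvalue of a perturbed matrix is close to an eigenvalue -/
theorem near_eig {U V : Matrix n n ℂ} (hU : Uni U) (hV : Uni V) (d e : n → ℝ) (j : n) :
    ∃ i, (e j - d i) ^ 2 ≤ fro (Dg V e - Dg U d) := by
  have hW : Uni (Uᴴ * V) := hU.star.mul hV
  obtain ⟨i, -, hi⟩ := Finset.exists_min_image Finset.univ (fun i => (e j - d i) ^ 2)
    ⟨j, Finset.mem_univ j⟩
  refine ⟨i, ?_⟩
  rw [lklein0_fro hU hV]
  calc (e j - d i) ^ 2 = ∑ k, ‖(Uᴴ * V) k j‖ ^ 2 * (e j - d i) ^ 2 := by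
        rw [← Finset.sum_mul, hW.col, one_mul]
    _ ≤ _ := Finset.sum_le_sum fun k _ =>
        (mul_le_mul_of_nonneg_left (hi k (Finset.mem_univ k)) (sq_nonneg _)).trans
          (Finset.single_le_sum (f := fun l => ‖(Uᴴ * V) k l‖ ^ 2 * (e l - d k) ^ 2)
            (fun l _ => by positivity) (Finset.mem_univ j))

end Pool.Agent.PW.L
end
end

-- part Pool.Agent.P.MP_65ad7c_ag.LKlein
section

open Matrix Filter Topology Set
open scoped ComplexOrder Kronecker

noncomputable section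
namespace Pool.Agent.PW.L

variable {n m : Type} [Fintype n] [DecidableEq n] [Fintype m] [DecidableEq m]
  {r : ℕ} {G : Subgroup (GL (Fin r) ℂ)} {Γ : Type}

/-- second order Taylor bound for `log ^ 2` -/
theorem log_sq_taylor {a : ℝ} (ha : 0 < a) (b : ℝ) : ∃ K : ℝ, ∀ x ∈ Icc a b, ∀ y ∈ Icc a b,
    |Real.log y ^ 2 - Real.log x ^ 2 - 2 * (x⁻¹ * Real.log x) * (y - x)| ≤ K * (y - x) ^ 2 := by
  refine ⟨(1 + 2 * (|Real.log a| + |Real.log b|)) / a ^ 2, fun x hx y hy => ?_⟩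
  have hx0 : 0 < x := lt_of_lt_of_le ha hx.1
  have hy0 : 0 < y := lt_of_lt_of_le ha hy.1
  have h1 : Real.log y - Real.log x ≤ (y - x) / x := by
    have := Real.log_le_sub_one_of_pos (div_pos hy0 hx0)
    rw [Real.log_div hy0.ne' hx0.ne'] at this
    calc _ ≤ y / x - 1 := this
      _ = _ := by field_simp
  have h2 : (y - x) / y ≤ Real.log y - Real.log x := by
    have := Real.log_le_sub_one_of_pos (div_pos hx0 hy0)
    rw [Real.log_div hx0.ne' hy0.ne'] at this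
    have e : (y - x) / y = -(x / y - 1) := by field_simp; ring
    rw [e]; linarith
  have hxa : |(y - x) / x| ≤ |y - x| / a := by
    rw [abs_div, abs_of_pos hx0]
    exact div_le_div_of_nonneg_left (abs_nonneg _) ha hx.1
  have hya : |(y - x) / y| ≤ |y - x| / a := by
    rw [abs_div, abs_of_pos hy0]
    exact div_le_div_of_nonneg_left (abs_nonneg _) ha hy.1
  have hu : |Real.log y - Real.log x| ≤ |y - x| / a :=
    abs_le.2 ⟨(abs_le.1 hya).1.trans h2, h1.trans (abs_le.1 hxa).2⟩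
  have hu2 : (Real.log y - Real.log x) ^ 2 ≤ (y - x) ^ 2 / a ^ 2 := by
    have := pow_le_pow_left₀ (abs_nonneg _) hu 2
    rwa [sq_abs, div_pow, sq_abs] at this
  have hd : (y - x) / x - (y - x) / y ≤ (y - x) ^ 2 / a ^ 2 := by
    have e : (y - x) / x - (y - x) / y = (y - x) ^ 2 / (x * y) := by field_simp
    rw [e]
    refine div_le_div_of_nonneg_left (sq_nonneg _) (by positivity) ?_
    rw [sq]
    exact mul_le_mul hx.1 hy.1 ha.le hx0.le
  have hv : |Real.log y - Real.log x - (y - x) / x| ≤ (y - x) ^ 2 / a ^ 2 := by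
    rw [abs_le]
    constructor
    · linarith
    · have : 0 ≤ (y - x) ^ 2 / a ^ 2 := by positivity
      linarith
  have hl : |Real.log x| ≤ |Real.log a| + |Real.log b| := by
    have l1 : Real.log a ≤ Real.log x := Real.log_le_log ha hx.1
    have l2 : Real.log x ≤ Real.log b := Real.log_le_log hx0 hx.2
    have := neg_abs_le (Real.log a)
    have := le_abs_self (Real.log b)
    have := abs_nonneg (Real.log a)
    have := abs_nonneg (Real.log b)
    rw [abs_le]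
    constructor <;> linarith
  have e : Real.log y ^ 2 - Real.log x ^ 2 - 2 * (x⁻¹ * Real.log x) * (y - x) =
      (Real.log y - Real.log x) ^ 2 +
        2 * (Real.log x * (Real.log y - Real.log x - (y - x) / x)) := by
    field_simp
    ring
  have h3 : |Real.log x * (Real.log y - Real.log x - (y - x) / x)| ≤
      (|Real.log a| + |Real.log b|) * ((y - x) ^ 2 / a ^ 2) := by
    rw [abs_mul]
    exact mul_le_mul hl hv (abs_nonneg _) (by positivity)
  rw [e]
  refine (abs_add_le _ _).trans ?_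
  rw [abs_of_nonneg (sq_nonneg _), abs_mul, abs_two]
  calc _ ≤ (y - x) ^ 2 / a ^ 2 + 2 * ((|Real.log a| + |Real.log b|) * ((y - x) ^ 2 / a ^ 2)) := by
        linarith
    _ = _ := by ring

theorem l2_est {P : Matrix n n ℂ} (hP : P.PosDef) : ∃ δ K : ℝ, 0 < δ ∧
    ∀ Q : Matrix n n ℂ, Q.IsHermitian → fro (Q - P) < δ →
      |l2 Q - l2 P - 2 * (P⁻¹ * lg P * (Q - P)).trace.re| ≤ K * fro (Q - P) := by
  obtain ⟨U, d, hU, hd, rfl⟩ := exists_Dg_pos hP
  have hs : 0 ≤ ∑ i, (d i)⁻¹ := Finset.sum_nonneg fun i _ => (inv_pos.2 (hd i)).le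
  have ha : 0 < (1 + ∑ i, (d i)⁻¹)⁻¹ := inv_pos.2 (by linarith)
  have had : ∀ i, (1 + ∑ i, (d i)⁻¹)⁻¹ ≤ d i := by
    intro i
    have h1 : (d i)⁻¹ ≤ ∑ i, (d i)⁻¹ :=
      Finset.single_le_sum (f := fun i => (d i)⁻¹) (fun i _ => (inv_pos.2 (hd i)).le)
        (Finset.mem_univ i)
    exact inv_le_of_inv_le₀ (hd i) (by linarith)
  have hdb : ∀ i, d i ≤ ∑ i, d i := fun i =>
    Finset.single_le_sum (f := d) (fun i _ => (hd i).le) (Finset.mem_univ i)
  generalize (1 + ∑ i, (d i)⁻¹)⁻¹ = a at ha had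
  generalize ∑ i, d i = b at hdb
  obtain ⟨K, hK⟩ := log_sq_taylor (a := a / 2) (by positivity) (b + a)
  refine ⟨(a / 2) ^ 2, K, by positivity, fun Q hQ hδ => ?_⟩
  obtain ⟨V, e, hV, rfl⟩ := exists_Dg hQ
  have he : ∀ j, e j ∈ Icc (a / 2) (b + a) := by
    intro j
    obtain ⟨i, hi⟩ := near_eig hU hV d e j
    have h1 : |e j - d i| < a / 2 := abs_lt_of_sq_lt_sq (hi.trans_lt hδ) (by positivity)
    have h2 := abs_lt.1 h1
    have := had i
    have := hdb i
    constructor <;> linarith [h2.1, h2.2]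
  have hd' : ∀ i, d i ∈ Icc (a / 2) (b + a) := by
    intro i
    have := had i
    have := hdb i
    constructor <;> linarith
  have hk := klein hU hV d e (fun x => Real.log x ^ 2) (fun x => 2 * (x⁻¹ * Real.log x)) K
    fun i j => hK _ (hd' i) _ (he j)
  have e1 : (Dg U d)⁻¹ * lg (Dg U d) = Dg U fun i => (d i)⁻¹ * Real.log (d i) := by
    rw [Dg_inv hU fun i => (hd i).ne', lg, fc_Dg hU, Dg_mul hU]
  have e2 : Dg U (fun i => 2 * ((d i)⁻¹ * Real.log (d i))) =
      Dg U (fun i => (d i)⁻¹ * Real.log (d i)) + Dg U fun i => (d i)⁻¹ * Real.log (d i) := by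
    rw [← Dg_add]
    simp only [two_mul]
  rw [e2, Matrix.add_mul, trace_add, Complex.add_re, ← two_mul] at hk
  rw [e1, l2_Dg hU, l2_Dg hV]
  exact hk

end Pool.Agent.PW.L
end
end

-- part Pool.Agent.P.MP_65ad7c_ag.LDer0
section

open Matrix Filter Topology Set
open scoped ComplexOrder Kronecker

noncomputable section
namespace Pool.Agent.PW.L

variable {n m : Type} [Fintype n] [DecidableEq n] [Fintype m] [DecidableEq m]
  {r : ℕ} {G : Subgroup (GL (Fin r) ℂ)} {Γ : Type}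

theorem lder0_squeeze {R g : ℝ → ℝ} {K : ℝ} (hg : HasDerivAt g 0 0) (h0 : g 0 = 0)
    (h : ∀ᶠ t in 𝓝 (0 : ℝ), |R t| ≤ K * g t) : HasDerivAt R 0 0 := by
  have hR : R 0 = 0 := by
    have := h.self_of_nhds
    rw [h0, mul_zero] at this
    exact abs_nonpos_iff.1 this
  rw [hasDerivAt_iff_isLittleO] at hg ⊢
  simp only [h0, hR, sub_zero, smul_zero] at hg ⊢
  refine Asymptotics.IsBigO.trans_isLittleO (Asymptotics.IsBigO.of_bound |K| ?_) hg
  filter_upwards [h] with t ht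
  rw [Real.norm_eq_abs, Real.norm_eq_abs, ← abs_mul]
  exact ht.trans (le_abs_self _)

theorem l2_hasDerivAt {P D : Matrix n n ℂ} {c : ℝ → Matrix n n ℂ} (hP : P.PosDef) (h0 : c 0 = P)
    (hc : ∀ t, (c t).IsHermitian) (hD : MD c D) :
    HasDerivAt (fun t => l2 (c t)) (2 * (P⁻¹ * lg P * D).trace.re) 0 := by
  obtain ⟨δ, K, hδ, h⟩ := l2_est hP
  have hE : MD (fun t => c t - P) D := by
    have := hD.add (MD.const (-P))
    simpa only [add_zero, ← sub_eq_add_neg] using this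
  have hg : HasDerivAt (fun t => fro (c t - P)) 0 0 := by
    have := (hE.star.mul hE).trace_re
    simp only [h0, sub_self, mul_zero, conjTranspose_zero, zero_mul, add_zero, trace_zero,
      Complex.zero_re] at this
    simpa only [fro_eq] using this
  have hg0 : fro (c 0 - P) = 0 := by simp [h0, fro]
  have hsm : ∀ᶠ t in 𝓝 (0 : ℝ), fro (c t - P) < δ :=
    hg.continuousAt.eventually_lt continuousAt_const (by rw [hg0]; exact hδ)
  have hR : HasDerivAt
      (fun t => l2 (c t) - l2 P - 2 * (P⁻¹ * lg P * (c t - P)).trace.re) 0 0 := by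
    refine lder0_squeeze (K := K) hg hg0 ?_
    filter_upwards [hsm] with t ht
    exact h (c t) (hc t) ht
  have hL : HasDerivAt (fun t => (P⁻¹ * lg P * (c t - P)).trace.re)
      (P⁻¹ * lg P * D).trace.re 0 := by
    have := ((MD.const (P⁻¹ * lg P)).mul hE).trace_re
    simpa only [zero_mul, zero_add] using this
  have hS := (hR.add_const (l2 P)).add (hL.const_mul 2)
  rw [zero_add] at hS
  refine hS.congr_of_eventuallyEq (Eventually.of_forall fun t => ?_)
  simp only [Pi.add_apply]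
  ring

theorem ph_hasDerivAt {a D : Matrix n n ℂ} {c : ℝ → Matrix n n ℂ} (ha : IsUnit a) (h0 : c 0 = a)
    (hD : MD c D) : HasDerivAt (fun t => ph (c t)) (4 * (lg (aᴴ * a) * a⁻¹ * D).trace.re) 0 := by
  have hP := posDef_star_mul ha
  have hM := hD.star.mul hD
  simp only [h0] at hM
  have h := l2_hasDerivAt (c := fun t => (c t)ᴴ * c t) hP (by simp only [h0])
    (fun t => isHermitian_conjTranspose_mul_self _) hM
  have hdet : IsUnit a.det := (isUnit_iff_isUnit_det a).1 ha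
  have hdet' : IsUnit aᴴ.det := by
    rw [det_conjTranspose]
    exact hdet.star
  have hPdet : IsUnit (aᴴ * a).det := by
    rw [det_mul]
    exact hdet'.mul hdet
  have hX : (lg (aᴴ * a))ᴴ = lg (aᴴ * a) := fc_herm _ _
  have hcomm : (aᴴ * a)⁻¹ * lg (aᴴ * a) = lg (aᴴ * a) * (aᴴ * a)⁻¹ := by
    calc (aᴴ * a)⁻¹ * lg (aᴴ * a)
        = (aᴴ * a)⁻¹ * (lg (aᴴ * a) * (aᴴ * a)) * (aᴴ * a)⁻¹ := by
          rw [mul_assoc ((aᴴ * a)⁻¹), mul_assoc (lg (aᴴ * a)), mul_nonsing_inv _ hPdet, mul_one]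
      _ = lg (aᴴ * a) * (aᴴ * a)⁻¹ := by
          rw [← lg_comm hP, ← mul_assoc, nonsing_inv_mul _ hPdet, one_mul]
  have h1 : (aᴴ * a)⁻¹ * aᴴ = a⁻¹ := by
    rw [Matrix.mul_inv_rev, mul_assoc, nonsing_inv_mul _ hdet', mul_one]
  have h2 : a * (aᴴ * a)⁻¹ = (a⁻¹)ᴴ := by
    rw [Matrix.mul_inv_rev, ← mul_assoc, mul_nonsing_inv _ hdet, one_mul,
      conjTranspose_nonsing_inv]
  have h3 : (aᴴ * a)⁻¹ * lg (aᴴ * a) * (aᴴ * D) = lg (aᴴ * a) * a⁻¹ * D := by
    rw [hcomm, ← h1]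
    simp only [mul_assoc]
  have h4 : ((aᴴ * a)⁻¹ * lg (aᴴ * a) * (Dᴴ * a)).trace =
      star (lg (aᴴ * a) * a⁻¹ * D).trace := by
    rw [← trace_conjTranspose, conjTranspose_mul, conjTranspose_mul, hX, ← h2, trace_mul_comm]
    simp only [mul_assoc]
  have h5 : 2 * ((aᴴ * a)⁻¹ * lg (aᴴ * a) * (Dᴴ * a + aᴴ * D)).trace.re =
      4 * (lg (aᴴ * a) * a⁻¹ * D).trace.re := by
    rw [mul_add, trace_add, h3, h4, Complex.add_re, Complex.star_def, Complex.conj_re]
    ring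
  rw [h5] at h
  exact h

end Pool.Agent.PW.L
end
end

-- part Pool.Agent.P.MP_65ad7c_ag.LDer
section

open Matrix Filter Topology Set
open scoped ComplexOrder Kronecker

noncomputable section
namespace Pool.Agent.PW.L

variable {n m : Type} [Fintype n] [DecidableEq n] [Fintype m] [DecidableEq m]
  {r : ℕ} {G : Subgroup (GL (Fin r) ℂ)} {Γ : Type}

theorem continuousOn_l2 : ContinuousOn (l2 : Matrix n n ℂ → ℝ) {P | P.PosDef} := by
  intro P hP
  obtain ⟨δ, K, hδ, h⟩ := l2_est (P := P) hP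
  have hsub : Continuous fun Q : Matrix n n ℂ => Q - P := continuous_id.sub continuous_const
  have hf : Continuous fun Q : Matrix n n ℂ => fro (Q - P) := continuous_fro.comp hsub
  have hg : Continuous fun Q : Matrix n n ℂ => (P⁻¹ * lg P * (Q - P)).trace.re :=
    Complex.continuous_re.comp (continuous_const.matrix_mul hsub).matrix_trace
  have f0 : fro (P - P) = 0 := by simp [fro]
  have g0 : (P⁻¹ * lg P * (P - P)).trace.re = 0 := by simp
  have t1 : Tendsto (fun Q : Matrix n n ℂ =>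
      l2 P + 2 * (P⁻¹ * lg P * (Q - P)).trace.re - K * fro (Q - P)) (𝓝[{P | P.PosDef}] P)
      (𝓝 (l2 P)) := by
    have hc : Continuous fun Q : Matrix n n ℂ =>
        l2 P + 2 * (P⁻¹ * lg P * (Q - P)).trace.re - K * fro (Q - P) :=
      (continuous_const.add (continuous_const.mul hg)).sub (continuous_const.mul hf)
    have := hc.tendsto P
    rw [f0, g0, mul_zero, mul_zero, add_zero, sub_zero] at this
    exact this.mono_left nhdsWithin_le_nhds
  have t2 : Tendsto (fun Q : Matrix n n ℂ =>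
      l2 P + 2 * (P⁻¹ * lg P * (Q - P)).trace.re + K * fro (Q - P)) (𝓝[{P | P.PosDef}] P)
      (𝓝 (l2 P)) := by
    have hc : Continuous fun Q : Matrix n n ℂ =>
        l2 P + 2 * (P⁻¹ * lg P * (Q - P)).trace.re + K * fro (Q - P) :=
      (continuous_const.add (continuous_const.mul hg)).add (continuous_const.mul hf)
    have := hc.tendsto P
    rw [f0, g0, mul_zero, mul_zero, add_zero, add_zero] at this
    exact this.mono_left nhdsWithin_le_nhds
  have ev : ∀ᶠ Q in 𝓝[{P : Matrix n n ℂ | P.PosDef}] P,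
      |l2 Q - l2 P - 2 * (P⁻¹ * lg P * (Q - P)).trace.re| ≤ K * fro (Q - P) := by
    have e1 : ∀ᶠ Q in 𝓝 P, fro (Q - P) < δ := by
      have := hf.tendsto P
      rw [f0] at this
      exact this.eventually (gt_mem_nhds hδ)
    filter_upwards [self_mem_nhdsWithin, e1.filter_mono nhdsWithin_le_nhds] with Q hQ hQ'
    exact h Q (Matrix.PosDef.isHermitian hQ) hQ'
  refine tendsto_of_tendsto_of_tendsto_of_le_of_le' t1 t2 ?_ ?_
  · filter_upwards [ev] with Q hQ
    have := (abs_le.1 hQ).1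
    linarith
  · filter_upwards [ev] with Q hQ
    have := (abs_le.1 hQ).2
    linarith

theorem continuousOn_ph : ContinuousOn (ph : Matrix n n ℂ → ℝ) {a | IsUnit a} := by
  have hc : Continuous fun a : Matrix n n ℂ => aᴴ * a :=
    continuous_id.matrix_conjTranspose.matrix_mul continuous_id
  exact continuousOn_l2.comp hc.continuousOn fun a ha => posDef_star_mul ha

theorem ph_coer (L : ℝ) : ∃ B δ : ℝ, 0 < δ ∧ ∀ a : Matrix n n ℂ, IsUnit a → ph a ≤ L →
    (∀ i j, ‖a i j‖ ≤ B) ∧ δ ≤ ‖a.det‖ := by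
  refine ⟨1 + ∑ _i : n, Real.exp (Real.sqrt L), Real.sqrt (∏ _i : n, Real.exp (-Real.sqrt L)),
    Real.sqrt_pos.2 (Finset.prod_pos fun _ _ => Real.exp_pos _), fun a ha hL => ?_⟩
  obtain ⟨U, d, hU, hd, e⟩ := exists_Dg_pos (posDef_star_mul ha)
  have hsum : ∑ i, Real.log (d i) ^ 2 ≤ L := by
    rw [← l2_Dg hU, ← e]
    exact hL
  have hlog : ∀ i, |Real.log (d i)| ≤ Real.sqrt L := by
    intro i
    apply Real.abs_le_sqrt
    exact (Finset.single_le_sum (f := fun i => Real.log (d i) ^ 2) (fun _ _ => sq_nonneg _)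
      (Finset.mem_univ i)).trans hsum
  have hup : ∀ i, d i ≤ Real.exp (Real.sqrt L) := fun i =>
    (Real.log_le_iff_le_exp (hd i)).1 (abs_le.1 (hlog i)).2
  have hlo : ∀ i, Real.exp (-Real.sqrt L) ≤ d i := fun i =>
    (Real.le_log_iff_exp_le (hd i)).1 (abs_le.1 (hlog i)).1
  constructor
  · intro i j
    have h1 := sq_le_fro a i j
    rw [fro_eq, e, trace_Dg hU, Complex.ofReal_re] at h1
    have h2 : ∑ i, d i ≤ ∑ _i : n, Real.exp (Real.sqrt L) := Finset.sum_le_sum fun i _ => hup i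
    nlinarith [sq_nonneg (‖a i j‖ - 1), sq_nonneg ‖a i j‖]
  · have h1 : ‖a.det‖ ^ 2 = ∏ i, d i := by
      have h2 := congrArg (fun X : Matrix n n ℂ => ‖X.det‖) e
      simp only [det_mul, det_conjTranspose, norm_mul, norm_star] at h2
      rw [det_Dg hU, Complex.norm_real, Real.norm_of_nonneg
        (Finset.prod_nonneg fun i _ => (hd i).le)] at h2
      rw [sq, h2]
    apply Real.sqrt_le_iff.2
    refine ⟨norm_nonneg _, ?_⟩
    rw [h1]
    exact Finset.prod_le_prod (fun _ _ => (Real.exp_pos _).le) fun i _ => hlo i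

theorem exists_min_sub {Z : Set (Matrix n n ℂ)} (hZ : IsClosed Z) {a₀ : Matrix n n ℂ}
    (h₀ : a₀ ∈ Z) (hu : IsUnit a₀) :
    ∃ a ∈ Z, IsUnit a ∧ ∀ b ∈ Z, IsUnit b → ph a ≤ ph b := by
  obtain ⟨B, δ, hδ, h⟩ := ph_coer (n := n) (ph a₀)
  have c1 : IsCompact (Set.pi univ fun _ : n => Set.pi univ fun _ : n =>
      Metric.closedBall (0 : ℂ) B) :=
    isCompact_univ_pi fun _ => isCompact_univ_pi fun _ => isCompact_closedBall _ _
  have c2 : IsCompact {a : Matrix n n ℂ | ∀ i j, ‖a i j‖ ≤ B} := by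
    have e : {a : Matrix n n ℂ | ∀ i j, ‖a i j‖ ≤ B} = (Set.pi univ fun _ : n =>
        Set.pi univ fun _ : n => Metric.closedBall (0 : ℂ) B) := by
      ext a
      constructor
      · intro ha i _ j _
        exact mem_closedBall_zero_iff.2 (ha i j)
      · intro ha i j
        exact mem_closedBall_zero_iff.1 (ha i (mem_univ _) j (mem_univ _))
    rw [e]
    exact c1
  have c3 : IsClosed {a : Matrix n n ℂ | δ ≤ ‖a.det‖} :=
    isClosed_le continuous_const continuous_id.matrix_det.norm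
  have c4 : IsCompact (Z ∩ ({a : Matrix n n ℂ | ∀ i j, ‖a i j‖ ≤ B} ∩ {a | δ ≤ ‖a.det‖})) :=
    (c2.inter_right c3).inter_left hZ
  have un : ∀ a : Matrix n n ℂ, δ ≤ ‖a.det‖ → IsUnit a := fun a ha =>
    (isUnit_iff_isUnit_det a).2 (isUnit_iff_ne_zero.2 (norm_pos_iff.1 (hδ.trans_le ha)))
  have m0 : a₀ ∈ Z ∩ ({a : Matrix n n ℂ | ∀ i j, ‖a i j‖ ≤ B} ∩ {a | δ ≤ ‖a.det‖}) :=
    ⟨h₀, h a₀ hu le_rfl⟩
  obtain ⟨a, ha, hmin⟩ := c4.exists_isMinOn ⟨a₀, m0⟩
    (continuousOn_ph.mono fun a ha => un a ha.2.2)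
  refine ⟨a, ha.1, un a ha.2.2, fun b hb hbu => ?_⟩
  rcases le_total (ph b) (ph a₀) with h1 | h1
  · exact hmin ⟨hb, h b hbu h1⟩
  · exact le_trans (hmin m0) h1

end Pool.Agent.PW.L
end
end

-- part Pool.Agent.P.MP_65ad7c_ag.LTens0
section

open Matrix Filter Topology Set
open scoped ComplexOrder Kronecker

noncomputable section
namespace Pool.Agent.PW.L

variable {n m : Type} [Fintype n] [DecidableEq n] [Fintype m] [DecidableEq m]
  {r : ℕ} {G : Subgroup (GL (Fin r) ℂ)} {Γ : Type}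

theorem ox_star (c : ℂ) (a : Matrix n n ℂ) : (ox c a)ᴴ = ox (star c) aᴴ := by
  ext x y
  rcases x with _ | i <;> rcases y with _ | j <;> simp [conjTranspose_apply]

theorem tp_star {J : ℕ} (a : Fin J → Matrix n n ℂ) : (tp a)ᴴ = tp fun i => (a i)ᴴ := by
  ext x y
  simp only [conjTranspose_apply, tp_apply, star_prod]

theorem RJ_star (J : ℕ) (a : Matrix n n ℂ) : RJ J aᴴ = (RJ J a)ᴴ := by
  rw [RJ_apply, RJ_apply, tp_star]
  simp only [ox_star, star_one]

theorem RJ_uni (J : ℕ) {U : Matrix n n ℂ} (h : Uni U) : Uni (RJ J U) := by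
  unfold Uni at *
  rw [← RJ_star, ← map_mul, h, map_one]

theorem ltens0_diag (J : ℕ) (d : n → ℝ) :
    RJ J (diagonal fun i => (d i : ℂ)) =
      diagonal fun x : Fin J → Option n => ((∏ i, (x i).elim 1 d : ℝ) : ℂ) := by
  have h1 : ox 1 (diagonal fun i => (d i : ℂ)) =
      diagonal fun o : Option n => ((o.elim 1 d : ℝ) : ℂ) := by
    ext x y
    rcases x with _ | i <;> rcases y with _ | j <;> simp [diagonal_apply]
  ext x y
  rw [RJ_apply, tp_apply, h1]
  by_cases hxy : x = y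
  · subst hxy
    simp
  · obtain ⟨i, hi⟩ := Function.ne_iff.1 hxy
    rw [diagonal_apply_ne _ hxy]
    exact Finset.prod_eq_zero (Finset.mem_univ i) (diagonal_apply_ne _ hi)

theorem RJ_Dg (J : ℕ) (U : Matrix n n ℂ) (d : n → ℝ) :
    RJ J (Dg U d) = Dg (RJ J U) fun x => ∏ i, (x i).elim 1 d := by
  unfold Dg
  rw [map_mul, map_mul, RJ_star, ltens0_diag]

omit [Fintype n] [DecidableEq n] in
theorem ltens0_upd {J : ℕ} (a : Fin J → Matrix n n ℂ) (k : Fin J) (X : Matrix n n ℂ)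
    (x y : Fin J → n) : tp (Function.update a k X) x y =
      X (x k) (y k) * ∏ i ∈ Finset.univ.erase k, a i (x i) (y i) := by
  rw [tp_apply, ← Finset.mul_prod_erase _ _ (Finset.mem_univ k), Function.update_self]
  congr 1
  exact Finset.prod_congr rfl fun i hi => by
    rw [Function.update_of_ne (Finset.ne_of_mem_erase hi)]

theorem sl_add {J : ℕ} (k : Fin J) (X Y : Matrix n n ℂ) : sl k (X + Y) = sl k X + sl k Y := by
  ext x y
  simp only [sl, Matrix.add_apply, ltens0_upd, ← add_mul]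
  congr 1
  rcases x k with _ | i <;> rcases y k with _ | j <;> simp

theorem sl_smul {J : ℕ} (k : Fin J) (c : ℂ) (X : Matrix n n ℂ) : sl k (c • X) = c • sl k X := by
  ext x y
  simp only [sl, Matrix.smul_apply, ltens0_upd, smul_eq_mul, ← mul_assoc]
  congr 1
  rcases x k with _ | i <;> rcases y k with _ | j <;> simp

theorem sl_star {J : ℕ} (k : Fin J) (X : Matrix n n ℂ) : sl k Xᴴ = (sl k X)ᴴ := by
  unfold sl
  rw [tp_star]
  congr 1
  funext i
  by_cases h : i = k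
  · subst h
    simp [ox_star]
  · simp [Function.update_of_ne h]

theorem RJ_sl {J : ℕ} (k : Fin J) {g X Y : Matrix n n ℂ} (h : g * X = Y * g) :
    RJ J g * sl k X = sl k Y * RJ J g := by
  unfold sl
  rw [RJ_apply, tp_mul, tp_mul]
  congr 1
  funext i
  by_cases hi : i = k
  · subst hi
    simp [ox_mul, h]
  · simp [Function.update_of_ne hi]

theorem dR_add (J : ℕ) (X Y : Matrix n n ℂ) : dR J (X + Y) = dR J X + dR J Y := by
  simp only [dR, sl_add, Finset.sum_add_distrib]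

theorem dR_zero (J : ℕ) : dR J (0 : Matrix n n ℂ) = 0 := by
  have h := dR_add (n := n) J 0 0
  rw [add_zero] at h
  exact left_eq_add.1 h

theorem RJ_poly (J : ℕ) : IsPoly (RJ (n := n) J) := by
  intro x y
  have h : ∀ a b : Option n, ∃ p : MvPolynomial (n × n) ℂ, ∀ m : Matrix n n ℂ,
      ox 1 m a b = MvPolynomial.eval (fun x => m x.1 x.2) p := by
    rintro (_ | i) (_ | j)
    · exact ⟨1, fun m => by simp⟩
    · exact ⟨0, fun m => by simp⟩
    · exact ⟨0, fun m => by simp⟩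
    · exact ⟨MvPolynomial.X (i, j), fun m => by simp⟩
  choose p hp using h
  exact ⟨∏ i, p (x i) (y i), fun m => by
    rw [RJ_apply, tp_apply, map_prod]
    exact Finset.prod_congr rfl fun i _ => hp _ _ m⟩

end Pool.Agent.PW.L
end
end

-- part Pool.Agent.P.MP_65ad7c_ag.LTens
section

open Matrix Filter Topology Set
open scoped ComplexOrder Kronecker

noncomputable section
namespace Pool.Agent.PW.L

variable {n m : Type} [Fintype n] [DecidableEq n] [Fintype m] [DecidableEq m]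
  {r : ℕ} {G : Subgroup (GL (Fin r) ℂ)} {Γ : Type}

omit [Fintype n] in
theorem ltens_tp_diag {J : ℕ} (e : Fin J → n → ℂ) :
    tp (fun i => diagonal (e i)) = diagonal fun x => ∏ i, e i (x i) := by
  ext x y
  rw [tp_apply]
  by_cases h : x = y
  · subst h
    simp only [diagonal_apply_eq]
  · rw [diagonal_apply_ne _ h]
    obtain ⟨i, hi⟩ := Function.ne_iff.1 h
    exact Finset.prod_eq_zero (Finset.mem_univ i) (diagonal_apply_ne _ hi)

omit [Fintype n] in
theorem ltens_ox_diag (d : n → ℝ) :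
    ox 0 (diagonal fun i => (d i : ℂ)) = diagonal fun o : Option n => ((o.elim 0 d : ℝ) : ℂ) := by
  ext x y
  rcases x with _ | i <;> rcases y with _ | j <;> simp [diagonal_apply]

omit [Fintype n] in
theorem ltens_sl_diag {J : ℕ} (k : Fin J) (d : n → ℝ) :
    sl k (diagonal fun i => (d i : ℂ)) =
      diagonal fun x : Fin J → Option n => (((x k).elim 0 d : ℝ) : ℂ) := by
  have e : Function.update (fun _ : Fin J => (1 : Matrix (Option n) (Option n) ℂ)) k
      (ox 0 (diagonal fun i => (d i : ℂ))) = fun i => diagonal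
        fun o : Option n => if i = k then ((o.elim 0 d : ℝ) : ℂ) else 1 := by
    funext i
    by_cases h : i = k
    · subst h
      rw [Function.update_self, ltens_ox_diag]
      simp only [if_true]
    · rw [Function.update_of_ne h]
      simp only [if_neg h, diagonal_one]
  rw [sl, e, ltens_tp_diag]
  simp only [Finset.prod_ite_eq', Finset.mem_univ, if_true]

theorem ltens_sl_Dg {J : ℕ} (k : Fin J) {U : Matrix n n ℂ} (h : Uni U) (d : n → ℝ) :
    sl k (Dg U d) = Dg (RJ J U) fun x => (x k).elim 0 d := by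
  have h1 : U * diagonal (fun i => (d i : ℂ)) = Dg U d * U := by
    rw [Dg, Matrix.mul_assoc _ Uᴴ, show Uᴴ * U = 1 from h, Matrix.mul_one]
  have h2 := RJ_sl k h1
  rw [ltens_sl_diag] at h2
  generalize Dg U d = Y at h2 ⊢
  rw [Dg, h2, Matrix.mul_assoc, (RJ_uni J h).mul_self, Matrix.mul_one]

theorem dR_Dg (J : ℕ) {U : Matrix n n ℂ} (h : Uni U) (d : n → ℝ) :
    dR J (Dg U d) = Dg (RJ J U) fun x => ∑ i, (x i).elim 0 d := by
  have e : (diagonal fun x : Fin J → Option n => ((∑ i, (x i).elim 0 d : ℝ) : ℂ)) =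
      ∑ k : Fin J, diagonal fun x : Fin J → Option n => (((x k).elim 0 d : ℝ) : ℂ) := by
    ext x y
    rw [Matrix.sum_apply]
    by_cases hxy : x = y
    · subst hxy
      simp only [diagonal_apply_eq, Complex.ofReal_sum]
    · simp only [diagonal_apply_ne _ hxy, Finset.sum_const_zero]
  rw [dR, Finset.sum_congr rfl fun k _ => ltens_sl_Dg k h d]
  simp only [Dg]
  rw [e, Matrix.mul_sum, Matrix.sum_mul]

theorem dR_herm (J : ℕ) {X : Matrix n n ℂ} (h : X.IsHermitian) : (dR J X).IsHermitian := by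
  obtain ⟨U, d, hU, rfl⟩ := exists_Dg h
  rw [dR_Dg J hU]
  exact Dg_herm _ _

omit [Fintype n] [DecidableEq n] in
theorem ltens_pos {d : n → ℝ} (hd : ∀ i, 0 < d i) (o : Option n) : 0 < o.elim 1 d := by
  rcases o with _ | i
  · exact one_pos
  · exact hd i

theorem RJ_posDef (J : ℕ) {P : Matrix n n ℂ} (h : P.PosDef) : (RJ J P).PosDef := by
  obtain ⟨U, d, hU, hd, rfl⟩ := exists_Dg_pos h
  rw [RJ_Dg]
  exact Dg_posDef (RJ_uni J hU) fun x => Finset.prod_pos fun i _ => ltens_pos hd _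

theorem lg_RJ (J : ℕ) {P : Matrix n n ℂ} (h : P.PosDef) : lg (RJ J P) = dR J (lg P) := by
  obtain ⟨U, d, hU, hd, rfl⟩ := exists_Dg_pos h
  rw [RJ_Dg, lg, lg, fc_Dg (RJ_uni J hU), fc_Dg hU, dR_Dg J hU]
  congr 1
  funext x
  rw [Real.log_prod fun i _ => (ltens_pos hd _).ne']
  refine Finset.sum_congr rfl fun i _ => ?_
  rcases x i with _ | j
  · exact Real.log_one
  · rfl

theorem RJ_ex (J : ℕ) {X : Matrix n n ℂ} (h : X.IsHermitian) (t : ℝ) :
    RJ J (ex t X) = ex t (dR J X) := by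
  obtain ⟨U, d, hU, rfl⟩ := exists_Dg h
  rw [dR_Dg J hU, ex, ex, fc_Dg (RJ_uni J hU), fc_Dg hU, RJ_Dg]
  congr 1
  funext x
  rw [Finset.mul_sum, Real.exp_sum]
  refine Finset.prod_congr rfl fun i _ => ?_
  rcases x i with _ | j
  · simp
  · rfl

end Pool.Agent.PW.L
end
end

-- part Pool.Agent.P.MP_65ad7c_ag.LFun
section

open Matrix Filter Topology Set
open scoped ComplexOrder Kronecker

noncomputable section
namespace Pool.Agent.PW.L

variable {n m : Type} [Fintype n] [DecidableEq n] [Fintype m] [DecidableEq m]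
  {r : ℕ} {G : Subgroup (GL (Fin r) ℂ)} {Γ : Type}

/-- fixing the first slot of the row and of the column -/
def lfunCut {κ : Type} (J : ℕ) (u v : κ) :
    Matrix (Fin (J + 1) → κ) (Fin (J + 1) → κ) ℂ →ₗ[ℂ] Matrix (Fin J → κ) (Fin J → κ) ℂ where
  toFun T := Matrix.of fun x y => T (Fin.cons u x) (Fin.cons v y)
  map_add' _ _ := rfl
  map_smul' _ _ := rfl

theorem lfun_cut_tp {κ : Type} (J : ℕ) (u v : κ) (M : Fin (J + 1) → Matrix κ κ ℂ) :
    lfunCut J u v (tp M) = M 0 u v • tp (fun i : Fin J => M i.succ) := by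
  ext x y
  change tp M (Fin.cons u x) (Fin.cons v y) = M 0 u v * tp (fun i : Fin J => M i.succ) x y
  rw [tp_apply, tp_apply, Fin.prod_univ_succ]
  simp only [Fin.cons_zero, Fin.cons_succ]

/-- one entry of a matrix -/
def lfunEntry {κ : Type} (u v : κ) : Matrix κ κ ℂ →ₗ[ℂ] ℂ where
  toFun T := T u v
  map_add' _ _ := rfl
  map_smul' _ _ := rfl

omit [Fintype n] [DecidableEq n] in
theorem lfun_pev_C (a : Matrix n n ℂ) (c : ℂ) : pev a (MvPolynomial.C c) = c := by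
  simp [pev]

omit [Fintype n] [DecidableEq n] in
theorem lfun_pev_add (a : Matrix n n ℂ) (p q : MvPolynomial (n × n) ℂ) :
    pev a (p + q) = pev a p + pev a q := by
  simp [pev]

omit [Fintype n] [DecidableEq n] in
theorem lfun_pev_mul_X (a : Matrix n n ℂ) (p : MvPolynomial (n × n) ℂ) (x : n × n) :
    pev a (p * MvPolynomial.X x) = pev a p * a x.1 x.2 := by
  simp [pev]

/-- polynomials are linear functionals of the tensor powers -/
theorem exists_fun (p : MvPolynomial (n × n) ℂ) : ∃ J₀ : ℕ, ∀ J, J₀ ≤ J →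
    ∃ l : Matrix (Fin J → Option n) (Fin J → Option n) ℂ →ₗ[ℂ] ℂ, ∀ a, l (RJ J a) = pev a p := by
  induction p using MvPolynomial.induction_on with
  | C c =>
    refine ⟨0, fun J _ => ⟨c • lfunEntry (fun _ => none) (fun _ => none), fun a => ?_⟩⟩
    rw [lfun_pev_C, LinearMap.smul_apply]
    change c * tp (fun _ : Fin J => ox 1 a) (fun _ => none) (fun _ => none) = c
    rw [tp_apply]
    simp
  | add p q hp hq =>
    obtain ⟨J₁, h₁⟩ := hp
    obtain ⟨J₂, h₂⟩ := hq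
    refine ⟨max J₁ J₂, fun J hJ => ?_⟩
    obtain ⟨l₁, hl₁⟩ := h₁ J (le_trans (le_max_left _ _) hJ)
    obtain ⟨l₂, hl₂⟩ := h₂ J (le_trans (le_max_right _ _) hJ)
    refine ⟨l₁ + l₂, fun a => ?_⟩
    rw [LinearMap.add_apply, hl₁, hl₂, lfun_pev_add]
  | mul_X p x hp =>
    obtain ⟨J₁, h₁⟩ := hp
    refine ⟨J₁ + 1, fun J hJ => ?_⟩
    obtain ⟨J', rfl⟩ : ∃ J', J = J' + 1 := ⟨J - 1, by omega⟩
    obtain ⟨l₁, hl₁⟩ := h₁ J' (by omega)
    refine ⟨l₁.comp (lfunCut J' (some x.1) (some x.2)), fun a => ?_⟩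
    rw [LinearMap.comp_apply, RJ_apply, lfun_cut_tp, map_smul, ← RJ_apply, hl₁, lfun_pev_mul_X,
      ox_ss, smul_eq_mul, mul_comm]

theorem lfun_cut_right (J : ℕ) (g a : Matrix n n ℂ) (i j : n) :
    lfunCut J (some i) (some j) (RJ (J + 1) g * sl 0 a) = (g * a) i j • RJ J g := by
  rw [RJ_apply, sl, tp_mul, lfun_cut_tp, RJ_apply]
  simp only [Function.update_self, ox_mul, ox_ss, ne_eq, Fin.succ_ne_zero, not_false_eq_true,
    Function.update_of_ne, mul_one]

theorem lfun_cut_left (J : ℕ) (g b : Matrix n n ℂ) (i j : n) :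
    lfunCut J (some i) (some j) (sl 0 b * RJ (J + 1) g) = (b * g) i j • RJ J g := by
  rw [RJ_apply, sl, tp_mul, lfun_cut_tp, RJ_apply]
  simp only [Function.update_self, ox_mul, ox_ss, ne_eq, Fin.succ_ne_zero, not_false_eq_true,
    Function.update_of_ne, one_mul]

theorem exists_fun_slice (q : MvPolynomial (n × n) ℂ) (a b : Matrix n n ℂ) (i j : n) :
    ∃ J₀ : ℕ, ∀ J, J₀ ≤ J → ∃ l : Matrix (Fin J → Option n) (Fin J → Option n) ℂ →ₗ[ℂ] ℂ,
      (∀ g, l (RJ J g) = pev g q * (g * a - b * g) i j) ∧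
      ∀ T, (∀ k, T * sl k a = sl k b * T) → l T = 0 := by
  obtain ⟨J₁, h₁⟩ := exists_fun q
  refine ⟨J₁ + 1, fun J hJ => ?_⟩
  obtain ⟨J', rfl⟩ : ∃ J', J = J' + 1 := ⟨J - 1, by omega⟩
  obtain ⟨l₁, hl₁⟩ := h₁ J' (by omega)
  refine ⟨l₁.comp ((lfunCut J' (some i) (some j)).comp
    (LinearMap.mulRight ℂ (sl 0 a) - LinearMap.mulLeft ℂ (sl 0 b))), fun g => ?_, fun T hT => ?_⟩
  · rw [LinearMap.comp_apply, LinearMap.comp_apply, LinearMap.sub_apply, LinearMap.mulRight_apply,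
      LinearMap.mulLeft_apply, map_sub, lfun_cut_right, lfun_cut_left, map_sub, map_smul, map_smul,
      hl₁, Matrix.sub_apply, smul_eq_mul, smul_eq_mul]
    ring
  · rw [LinearMap.comp_apply, LinearMap.comp_apply, LinearMap.sub_apply, LinearMap.mulRight_apply,
      LinearMap.mulLeft_apply, hT 0, sub_self, map_zero, map_zero]

theorem exists_det_poly : ∃ p : MvPolynomial (n × n) ℂ, ∀ a : Matrix n n ℂ, pev a p = a.det := by
  refine ⟨(Matrix.mvPolynomialX n n ℂ).det, fun a => ?_⟩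
  unfold pev
  rw [RingHom.map_det]
  congr 1
  ext i j
  simp [Matrix.mvPolynomialX]

theorem tendsto_pev {ι : Type} {U : Filter ι} {a : ι → Matrix n n ℂ} {a₀ : Matrix n n ℂ}
    (h : ∀ i j, Tendsto (fun k => a k i j) U (𝓝 (a₀ i j))) (p : MvPolynomial (n × n) ℂ) :
    Tendsto (fun k => pev (a k) p) U (𝓝 (pev a₀ p)) := by
  induction p using MvPolynomial.induction_on with
  | C c =>
    simp only [lfun_pev_C]
    exact tendsto_const_nhds
  | add p q hp hq =>
    simp only [lfun_pev_add]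
    exact hp.add hq
  | mul_X p x hp =>
    simp only [lfun_pev_mul_X]
    exact hp.mul (h x.1 x.2)

end Pool.Agent.PW.L
end
end

-- part Pool.Agent.P.MP_65ad7c_ag.LDC0
section

open Matrix Filter Topology Set
open scoped ComplexOrder Kronecker

noncomputable section
namespace Pool.Agent.PW.L

variable {n m : Type} [Fintype n] [DecidableEq n] [Fintype m] [DecidableEq m]
  {r : ℕ} {G : Subgroup (GL (Fin r) ℂ)} {Γ : Type}

/-- a matrix as a vector -/
def ldc0_vec : Matrix n n ℂ →ₗ[ℂ] (n × n → ℂ) where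
  toFun X p := X p.1 p.2
  map_add' _ _ := rfl
  map_smul' _ _ := rfl

theorem ldc0_mulVec (a X : Matrix n n ℂ) :
    (a ⊗ₖ (1 : Matrix n n ℂ)) *ᵥ ldc0_vec X = ldc0_vec (a * X) := by
  funext p
  simp [ldc0_vec, mulVec, dotProduct, Fintype.sum_prod_type, Matrix.mul_apply, Matrix.one_apply]

theorem ldc0_left (Q : Matrix (n × n) (n × n) ℂ) (a : Matrix n n ℂ) (i j k l : n) :
    (Q * a ⊗ₖ (1 : Matrix n n ℂ)) (i, k) (j, l) =
      (Matrix.of (fun i j => Q (i, k) (j, l)) * a) i j := by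
  simp [Matrix.mul_apply, Fintype.sum_prod_type, Matrix.one_apply]

theorem ldc0_right (Q : Matrix (n × n) (n × n) ℂ) (a : Matrix n n ℂ) (i j k l : n) :
    (a ⊗ₖ (1 : Matrix n n ℂ) * Q) (i, k) (j, l) =
      (a * Matrix.of (fun i j => Q (i, k) (j, l))) i j := by
  simp [Matrix.mul_apply, Fintype.sum_prod_type, Matrix.one_apply]

/-- double commutant theorem -/
theorem dc (A : Submodule ℂ (Matrix n n ℂ)) (h1 : 1 ∈ A) (hm : ∀ a ∈ A, ∀ b ∈ A, a * b ∈ A)
    (hs : ∀ a ∈ A, aᴴ ∈ A) (T : Matrix n n ℂ)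
    (hT : ∀ c : Matrix n n ℂ, (∀ a ∈ A, c * a = a * c) → c * T = T * c) : T ∈ A := by
  obtain ⟨Q, hQ, -, hW, hfix⟩ := exists_proj (A.map ldc0_vec)
  have h2 : ∀ a ∈ A, Q * (a ⊗ₖ (1 : Matrix n n ℂ) * Q) = a ⊗ₖ (1 : Matrix n n ℂ) * Q := by
    intro a ha
    refine Matrix.toLin'.injective (LinearMap.ext fun v => ?_)
    obtain ⟨b, hb, e⟩ := hW v
    simp only [Matrix.toLin'_apply, ← Matrix.mulVec_mulVec, ← e, ldc0_mulVec]
    exact hfix _ ⟨a * b, hm a ha b hb, rfl⟩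
  have h3 : ∀ a ∈ A, Q * a ⊗ₖ (1 : Matrix n n ℂ) = a ⊗ₖ (1 : Matrix n n ℂ) * Q := by
    intro a ha
    have h4 := congrArg conjTranspose (h2 _ (hs a ha))
    simp only [conjTranspose_mul, hQ, conjTranspose_kronecker, conjTranspose_conjTranspose,
      conjTranspose_one] at h4
    rw [← h4, Matrix.mul_assoc, h2 a ha]
  have h5 : Q * T ⊗ₖ (1 : Matrix n n ℂ) = T ⊗ₖ (1 : Matrix n n ℂ) * Q := by
    ext ⟨i, k⟩ ⟨j, l⟩
    rw [ldc0_left, ldc0_right, hT]
    intro a ha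
    ext i' j'
    rw [← ldc0_left, ← ldc0_right, h3 a ha]
  have h6 : Q *ᵥ ldc0_vec T = ldc0_vec T := by
    have h7 := congrArg (fun M => M *ᵥ ldc0_vec (1 : Matrix n n ℂ)) h5
    simp only [← Matrix.mulVec_mulVec, hfix _ (Submodule.mem_map_of_mem h1), ldc0_mulVec, Matrix.mul_one] at h7
    exact h7
  obtain ⟨b, hb, e⟩ := hW (ldc0_vec T)
  rw [h6] at e
  have h8 : b = T := by
    ext i j
    exact congrFun e (i, j)
  exact h8 ▸ hb

theorem dc_span [Monoid Γ] (a : Γ →* Matrix n n ℂ) (h : SpanC a) (T : Matrix n n ℂ)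
    (hT : ∀ c ∈ Com a, c * T = T * c) : T ∈ Submodule.span ℂ (range a) := by
  refine dc (Submodule.span ℂ (range a)) (Submodule.subset_span ⟨1, map_one a⟩)
    (fun x hx y hy => ?_) (fun x hx => ?_) T
    fun c hc => hT c fun γ => hc _ (Submodule.subset_span ⟨γ, rfl⟩)
  · refine Submodule.span_induction₂ (p := fun x y _ _ => x * y ∈ Submodule.span ℂ (range a))
      ?_ ?_ ?_ ?_ ?_ ?_ ?_ hx hy
    · rintro _ _ ⟨g, rfl⟩ ⟨g', rfl⟩
      exact Submodule.subset_span ⟨g * g', map_mul a g g'⟩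
    · intro y _; simp
    · intro y _; simp
    · intro x y z _ _ _ h1 h2
      rw [add_mul]; exact add_mem h1 h2
    · intro x y z _ _ _ h1 h2
      rw [mul_add]; exact add_mem h1 h2
    · intro t x y _ _ h1
      rw [smul_mul_assoc]; exact Submodule.smul_mem _ _ h1
    · intro t x y _ _ h1
      rw [mul_smul_comm]; exact Submodule.smul_mem _ _ h1
  · induction hx using Submodule.span_induction with
    | mem x hx => obtain ⟨g, rfl⟩ := hx; exact h g
    | zero => simp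
    | add x y _ _ h1 h2 => rw [conjTranspose_add]; exact add_mem h1 h2
    | smul t x _ h1 => rw [conjTranspose_smul]; exact Submodule.smul_mem _ _ h1

end Pool.Agent.PW.L
end
end

-- part Pool.Agent.P.MP_65ad7c_ag.LDC
section

open Matrix Filter Topology Set
open scoped ComplexOrder Kronecker

noncomputable section
namespace Pool.Agent.PW.L

variable {n m : Type} [Fintype n] [DecidableEq n] [Fintype m] [DecidableEq m]
  {r : ℕ} {G : Subgroup (GL (Fin r) ℂ)} {Γ : Type}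

theorem ldc_ext {A B : Matrix n n ℂ} (h : ∀ v, A *ᵥ v = B *ᵥ v) : A = B := by
  ext i j
  have h1 := congrFun (h (Pi.single j 1)) i
  simpa using h1

omit [Fintype n] [DecidableEq n] in
theorem ldc_ox_star (a : Matrix n n ℂ) : (ox 1 a)ᴴ = ox 1 aᴴ := by
  ext x y
  rcases x with _ | i <;> rcases y with _ | j <;> simp [conjTranspose_apply]

omit [Fintype n] [DecidableEq n] in
theorem ldc_ox_sum (c : Γ →₀ ℂ) (a : Γ → Matrix n n ℂ) :
    (c.sum fun h x => x • ox 1 (a h)) = ox (c.sum fun _ x => x) (c.sum fun h x => x • a h) := by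
  ext x y
  rcases x with _ | i <;> rcases y with _ | j <;> simp [Finsupp.sum, Matrix.sum_apply]

/-- the representation with one more trivial summand -/
def ldcExt [Group Γ] (π : Γ →* Matrix n n ℂ) : Γ →* Matrix (Option n) (Option n) ℂ where
  toFun g := ox 1 (π g)
  map_one' := by rw [map_one, ox_one]
  map_mul' a b := by rw [ox_mul, one_mul, map_mul]

/-- fixed vectors -/
def ldcFix (p : Γ → Matrix n n ℂ) : Submodule ℂ (n → ℂ) where
  carrier := {v | ∀ g, p g *ᵥ v = v}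
  add_mem' := fun {u v} hu hv g => by rw [mulVec_add, hu g, hv g]
  zero_mem' := fun g => mulVec_zero _
  smul_mem' := fun c v hv g => by rw [mulVec_smul, hv g]

theorem ldc_proj [Group Γ] (p : Γ →* Matrix n n ℂ) (hp : ∀ g, ∃ g', p g' = (p g)ᴴ) :
    ∃ c : Γ →₀ ℂ, (∀ v, (∀ g, p g *ᵥ v = v) → (c.sum fun h x => x • p h) *ᵥ v = v) ∧
      ∀ g, (c.sum fun h x => x • p h) * p g = c.sum fun h x => x • p h := by
  have hs : SpanC p := fun g => Submodule.subset_span (hp g)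
  obtain ⟨Q, h1, -, h3, h4⟩ := exists_proj (ldcFix p)
  have h5 : ∀ c ∈ Com p, Q * (c * Q) = c * Q := fun c hc => ldc_ext fun v => by
    rw [← mulVec_mulVec]
    refine h4 _ fun g => ?_
    rw [mulVec_mulVec, ← Matrix.mul_assoc, ← hc g, Matrix.mul_assoc, ← mulVec_mulVec,
      ← mulVec_mulVec, h3 v g, mulVec_mulVec]
  have h6 : ∀ c ∈ Com p, c * Q = Q * c := fun c hc => by
    have h7 := congrArg conjTranspose (h5 _ (hs.com_star hc))
    rw [conjTranspose_mul, conjTranspose_mul, conjTranspose_conjTranspose, h1,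
      Matrix.mul_assoc] at h7
    rw [← h7, h5 c hc]
  obtain ⟨c, hc⟩ := Finsupp.mem_span_range_iff_exists_finsupp.1 (dc_span p hs Q h6)
  refine ⟨c, fun v hv => hc ▸ h4 v hv, fun g => ?_⟩
  obtain ⟨g', hg'⟩ := hp g
  have h7 : p g' * Q = Q := ldc_ext fun v => by rw [← mulVec_mulVec, h3 v g']
  have h8 := congrArg conjTranspose h7
  rw [conjTranspose_mul, hg', conjTranspose_conjTranspose, h1] at h8
  rw [hc, h8]

/-- finite averaging -/
theorem avg [Group Γ] (π : Γ →* Matrix n n ℂ) (hπ : ∀ g, ∃ g', π g' = (π g)ᴴ) :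
    ∃ c : Γ →₀ ℂ, (c.sum fun _ x => x) = 1 ∧
      ∀ g, (c.sum fun h x => x • π h) * π g = c.sum fun h x => x • π h := by
  obtain ⟨c, h1, h2⟩ := ldc_proj (ldcExt π) fun g => by
    obtain ⟨g', hg'⟩ := hπ g
    exact ⟨g', (congrArg (ox 1) hg').trans (ldc_ox_star _).symm⟩
  have h3 : (c.sum fun h x => x • ldcExt π h) =
      ox (c.sum fun _ x => x) (c.sum fun h x => x • π h) := ldc_ox_sum c π
  rw [h3] at h1 h2
  refine ⟨c, ?_, fun g => ?_⟩
  · have h4 := h1 (Pi.single none 1) fun g => by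
      funext x
      show (ox 1 (π g) *ᵥ Pi.single none 1) x = _
      rcases x with _ | i <;> simp
    simpa using congrFun h4 none
  · have h4 := (ox_mul _ 1 _ (π g)).symm.trans (h2 g)
    ext i j
    exact congrFun (congrFun h4 (some i)) (some j)

end Pool.Agent.PW.L
end
end
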