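import Pool.Agent.K.MP_65ad7c_ag.C28

open Matrix Filter Topology Set
open scoped ComplexOrder Kronecker

noncomputable section
namespace Pool.Agent.PW.L

variable {n m : Type} [Fintype n] [DecidableEq n] [Fintype m] [DecidableEq m]
  {r : ℕ} {G : Subgroup (GL (Fin r) ℂ)} {Γ : Type}

theorem Gs_one : (1 : Mx r) ∈ Gs G := by
  exact ⟨1, G.one_mem, rfl⟩

theorem Gs_mul {a b : Mx r} (ha : a ∈ Gs G) (hb : b ∈ Gs G) : a * b ∈ Gs G := by
  obtain ⟨g, hg, rfl⟩ := ha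
  obtain ⟨g', hg', rfl⟩ := hb
  exact ⟨g * g', G.mul_mem hg hg', rfl⟩

theorem Gs_unit {a : Mx r} (ha : a ∈ Gs G) : IsUnit a := by
  obtain ⟨g, -, rfl⟩ := ha
  exact g.isUnit

theorem Gs_inv {a b : Mx r} (ha : a ∈ Gs G) (h : a * b = 1) : b ∈ Gs G := by
  obtain ⟨g, hg, rfl⟩ := ha
  exact ⟨g⁻¹, G.inv_mem hg, Units.inv_eq_of_mul_eq_one_right h⟩

theorem Gs_star (hG : IsRed G) {a : Mx r} (ha : a ∈ Gs G) : aᴴ ∈ Gs G := by
  obtain ⟨g, hg, rfl⟩ := ha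
  exact hG.2 g hg

theorem mat_mem [Group Γ] (ρ : Γ →* G) (γ : Γ) : mat ρ γ ∈ Gs G := by
  exact ⟨(ρ γ).1, (ρ γ).2, rfl⟩

theorem exists_lift [Group Γ] (σ : Γ →* Mx r) (h : ∀ γ, σ γ ∈ Gs G) : ∃ ρ : Γ →* G, mat ρ = σ := by
  have hm : ∀ γ, σ.toHomUnits γ ∈ G := by
    intro γ
    obtain ⟨g, hg, e⟩ := h γ
    have : σ.toHomUnits γ = g := Units.ext e.symm
    rwa [this]
  exact ⟨σ.toHomUnits.codRestrict G hm, MonoidHom.ext fun _ => rfl⟩

theorem Gs_closed (hG : IsRed G) {ι : Type} {U : Filter ι} [U.NeBot] {a : ι → Mx r} {a₀ : Mx r}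
    (ha : ∀ᶠ k in U, a k ∈ Gs G) (h : ∀ i j, Tendsto (fun k => a k i j) U (𝓝 (a₀ i j)))
    (hu : IsUnit a₀) : a₀ ∈ Gs G := by
  obtain ⟨S, hS⟩ := hG.1
  refine ⟨hu.unit, (hS _).2 fun p hp => ?_, rfl⟩
  have h1 := tendsto_pev h p
  have h2 : Tendsto (fun k => pev (a k) p) U (𝓝 0) := by
    refine tendsto_const_nhds.congr' ?_
    filter_upwards [ha] with k hk
    obtain ⟨g, hg, e⟩ := hk
    rw [← e]
    exact ((hS g).1 hg p hp).symm
  exact tendsto_nhds_unique h1 h2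

theorem Cm_star (hG : IsRed G) {J : ℕ} {c} (hc : c ∈ Cm G J) : cᴴ ∈ Cm G J := by
  intro g hg
  have h1 := congrArg conjTranspose (hc gᴴ (Gs_star hG hg))
  rw [conjTranspose_mul, conjTranspose_mul, RJ_star, conjTranspose_conjTranspose] at h1
  exact h1.symm

theorem mem_span_of_comm (hG : IsRed G) {J : ℕ}
    (T : Matrix (Fin J → Option (Fin r)) (Fin J → Option (Fin r)) ℂ)
    (hT : ∀ c ∈ Cm G J, c * T = T * c) : T ∈ Submodule.span ℂ (RJ J '' Gs G) := by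
  have hr : range ((RJ J).comp (mat (MonoidHom.id G))) = RJ J '' Gs G := by
    ext x
    constructor
    · rintro ⟨g, rfl⟩
      exact ⟨_, mat_mem (MonoidHom.id G) g, rfl⟩
    · rintro ⟨_, ⟨g, hg, rfl⟩, rfl⟩
      exact ⟨⟨g, hg⟩, rfl⟩
  rw [← hr]
  refine dc_span _ (fun g => Submodule.subset_span ?_) T fun c hc => hT c ?_
  · rw [hr]
    exact ⟨_, Gs_star hG (mat_mem (MonoidHom.id G) g), RJ_star J _⟩
  · rintro _ ⟨g, hg, rfl⟩
    exact hc ⟨g, hg⟩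

theorem mem_of_inG (hG : IsRed G) {g : Mx r} (hu : IsUnit g) (h : InG G g) : g ∈ Gs G := by
  obtain ⟨S, hS⟩ := hG.1
  refine ⟨hu.unit, (hS _).2 fun p hp => ?_, rfl⟩
  obtain ⟨J, hJ⟩ := exists_fun p
  obtain ⟨l, hl⟩ := hJ J le_rfl
  have h1 : Submodule.span ℂ (RJ J '' Gs G) ≤ LinearMap.ker l := by
    rw [Submodule.span_le]
    rintro _ ⟨_, ⟨g', hg', rfl⟩, rfl⟩
    exact (hl _).trans ((hS g').1 hg' p hp)
  exact (hl g).symm.trans (h1 (mem_span_of_comm hG _ (h J)))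

theorem lieG_lg {P : Mx r} (hP : P.PosDef) (h : InG G P) : LieG G (lg P) := by
  intro J c hc
  rw [← lg_RJ J hP]
  exact fc_intertwine (RJ_posDef J hP).isHermitian (RJ_posDef J hP).isHermitian (h J c hc) _

theorem lieG_sum {ι : Type} (s : Finset ι) {X : ι → Mx r} (h : ∀ i ∈ s, LieG G (X i)) :
    LieG G (∑ i ∈ s, X i) := by
  classical
  induction s using Finset.induction_on with
  | empty =>
    intro J c _
    rw [Finset.sum_empty, dR_zero, Matrix.mul_zero, Matrix.zero_mul]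
  | insert i s hi ih =>
    intro J c hc
    rw [Finset.sum_insert hi, dR_add, Matrix.mul_add, Matrix.add_mul,
      h i (Finset.mem_insert_self _ _) J c hc,
      ih (fun k hk => h k (Finset.mem_insert_of_mem hk)) J c hc]

theorem LieG.ex_mem (hG : IsRed G) {X : Mx r} (hX : X.IsHermitian) (h : LieG G X) (t : ℝ) :
    ex t X ∈ Gs G := by
  refine mem_of_inG hG (IsUnit.of_mul_eq_one _ (ex_mul_neg hX t)) fun J c hc => ?_
  rw [RJ_ex J hX]
  exact fc_intertwine (dR_herm J hX) (dR_herm J hX) (h J c hc) _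

end Pool.Agent.PW.L
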