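import Pool.Agent.K.MP_65ad7c_ag.C28
import Pool.Agent.K.MP_65ad7c_ag.C29

-- part Pool.Agent.P.MP_65ad7c_ag.LLem0
section

open Matrix Filter Topology Set
open scoped ComplexOrder Kronecker

noncomputable section
namespace Pool.Agent.PW.L

variable {n m : Type} [Fintype n] [DecidableEq n] [Fintype m] [DecidableEq m]
  {r : ℕ} {G : Subgroup (GL (Fin r) ℂ)} {Γ : Type}

theorem llem0_diag (a b : n → ℝ) (y : Matrix n n ℂ) :
    (diagonal (fun i => (a i : ℂ)) * y * diagonal (fun i => (b i : ℂ)) * yᴴ).trace =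
      ((∑ i, ∑ j, a i * b j * ‖y i j‖ ^ 2 : ℝ) : ℂ) := by
  rw [Matrix.trace]
  push_cast
  refine Finset.sum_congr rfl fun i _ => ?_
  rw [diag_apply, Matrix.mul_apply]
  refine Finset.sum_congr rfl fun j _ => ?_
  rw [mul_diagonal, diagonal_mul, conjTranspose_apply, ← Complex.mul_conj', Complex.star_def]
  ring

theorem llem0_trace (U : Matrix n n ℂ) (a b : n → ℝ) (z : Matrix n n ℂ) :
    (Dg U a * z * Dg U b * zᴴ).trace =
      ((∑ i, ∑ j, a i * b j * ‖(Uᴴ * z * U) i j‖ ^ 2 : ℝ) : ℂ) := by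
  rw [← llem0_diag]
  simp only [Dg, conjTranspose_mul, conjTranspose_conjTranspose, Matrix.mul_assoc]
  rw [trace_mul_comm]
  simp only [Matrix.mul_assoc]

theorem llem0_term {s t : ℝ} (hs : 0 < s) (ht : 0 < t) :
    0 ≤ (Real.log s - Real.log t) * (s * t⁻¹ - 1) := by
  rcases le_total s t with h | h
  · apply mul_nonneg_of_nonpos_of_nonpos
    · exact sub_nonpos.2 (Real.log_le_log hs h)
    · rw [sub_nonpos, ← div_eq_mul_inv, div_le_one ht]
      exact h
  · apply mul_nonneg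
    · exact sub_nonneg.2 (Real.log_le_log ht h)
    · rw [sub_nonneg, ← div_eq_mul_inv, one_le_div ht]
      exact h

theorem llem0_term_eq {s t : ℝ} (hs : 0 < s) (ht : 0 < t)
    (h : (Real.log s - Real.log t) * (s * t⁻¹ - 1) = 0) : s = t := by
  rcases mul_eq_zero.1 h with h | h
  · exact Real.log_injOn_pos hs ht (sub_eq_zero.1 h)
  · rw [sub_eq_zero, ← div_eq_mul_inv, div_eq_one_iff_eq ht.ne'] at h
    exact h

theorem lemM {p : Matrix n n ℂ} (hp : p.PosDef) (Z : Set (Matrix n n ℂ))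
    (hm : ∀ a ∈ Z, ∀ b ∈ Z, a * b ∈ Z) (hd : ∀ z ∈ Z, p⁻¹ * zᴴ * p ∈ Z)
    (ht : ∀ z ∈ Z, (lg p * z).trace = 0) {z : Matrix n n ℂ} (hz : z ∈ Z) (hz' : zᴴ ∈ Z) :
    z * p = p * z := by
  obtain ⟨U, l, hU, hl, rfl⟩ := exists_Dg_pos hp
  have h1 := ht _ (hm _ hz _ (hd _ hz))
  have h2 := ht _ (hm _ (hd _ hz) _ hz)
  have h3 := ht _ (hm _ hz _ hz')
  have h4 := ht _ (hm _ hz' _ hz)
  rw [lg, fc_Dg hU] at h1 h2 h3 h4
  rw [Dg_inv hU fun i => (hl i).ne'] at h1 h2
  have e1 := llem0_trace U (fun i => l i * Real.log (l i)) (fun i => (l i)⁻¹) z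
  have e2 := llem0_trace U l (fun i => Real.log (l i) * (l i)⁻¹) z
  have e3 := llem0_trace U (fun i => Real.log (l i)) (fun _ => 1) z
  have e4 := llem0_trace U (fun _ => 1) (fun i => Real.log (l i)) z
  rw [← Dg_mul hU] at e1 e2
  rw [Dg_one hU] at e3 e4
  have f1 : (Dg U l * Dg U (fun i => Real.log (l i)) * z * Dg U (fun i => (l i)⁻¹) * zᴴ).trace
      = 0 := by
    rw [← h1]
    simp only [Matrix.mul_assoc]
    rw [trace_mul_comm]
    simp only [Matrix.mul_assoc]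
  have f2 : (Dg U l * z * (Dg U (fun i => Real.log (l i)) * Dg U (fun i => (l i)⁻¹)) * zᴴ).trace
      = 0 := by
    rw [← h2, Matrix.mul_assoc (Dg U l * z), trace_mul_comm]
    simp only [Matrix.mul_assoc]
  have f3 : (Dg U (fun i => Real.log (l i)) * z * 1 * zᴴ).trace = 0 := by
    rw [← h3]
    simp only [Matrix.mul_assoc, Matrix.one_mul]
  have f4 : (1 * z * Dg U (fun i => Real.log (l i)) * zᴴ).trace = 0 := by
    rw [← h4, Matrix.one_mul, Matrix.mul_assoc, trace_mul_comm]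
    simp only [Matrix.mul_assoc]
  rw [f1] at e1
  rw [f2] at e2
  rw [f3] at e3
  rw [f4] at e4
  have g1 := Complex.ofReal_eq_zero.1 e1.symm
  have g2 := Complex.ofReal_eq_zero.1 e2.symm
  have g3 := Complex.ofReal_eq_zero.1 e3.symm
  have g4 := Complex.ofReal_eq_zero.1 e4.symm
  set y := Uᴴ * z * U with hy
  have hs : ∑ i, ∑ j, (Real.log (l i) - Real.log (l j)) * (l i * (l j)⁻¹ - 1) * ‖y i j‖ ^ 2
      = 0 := by
    have : ∑ i, ∑ j, (Real.log (l i) - Real.log (l j)) * (l i * (l j)⁻¹ - 1) * ‖y i j‖ ^ 2 =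
        ∑ i, ∑ j, l i * Real.log (l i) * (l j)⁻¹ * ‖y i j‖ ^ 2 -
        ∑ i, ∑ j, l i * (Real.log (l j) * (l j)⁻¹) * ‖y i j‖ ^ 2 -
        ∑ i, ∑ j, Real.log (l i) * 1 * ‖y i j‖ ^ 2 +
        ∑ i, ∑ j, 1 * Real.log (l j) * ‖y i j‖ ^ 2 := by
      simp only [← Finset.sum_sub_distrib, ← Finset.sum_add_distrib]
      refine Finset.sum_congr rfl fun i _ => Finset.sum_congr rfl fun j _ => ?_
      ring
    rw [this, g1, g2, g3, g4]
    ring
  have hn : ∀ i j,
      0 ≤ (Real.log (l i) - Real.log (l j)) * (l i * (l j)⁻¹ - 1) * ‖y i j‖ ^ 2 :=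
    fun i j => mul_nonneg (llem0_term (hl i) (hl j)) (sq_nonneg _)
  have h0 : ∀ i j, y i j * (l j : ℂ) = (l i : ℂ) * y i j := by
    intro i j
    have k1 := (Finset.sum_eq_zero_iff_of_nonneg
      (fun i _ => Finset.sum_nonneg fun j _ => hn i j)).1 hs i (Finset.mem_univ _)
    have k2 := (Finset.sum_eq_zero_iff_of_nonneg (fun j _ => hn i j)).1 k1 j (Finset.mem_univ _)
    rcases mul_eq_zero.1 k2 with k | k
    · rw [llem0_term_eq (hl i) (hl j) k, mul_comm]
    · rw [norm_eq_zero.1 (pow_eq_zero_iff two_ne_zero |>.1 k)]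
      simp
  have h5 : y * diagonal (fun i => (l i : ℂ)) = diagonal (fun i => (l i : ℂ)) * y := by
    ext i j
    rw [mul_diagonal, diagonal_mul, h0]
  have h6 : U * Uᴴ = 1 := hU.mul_self
  calc z * Dg U l = (U * Uᴴ) * z * Dg U l := by rw [h6, Matrix.one_mul]
    _ = U * (y * diagonal (fun i => (l i : ℂ))) * Uᴴ := by
      simp only [hy, Dg, Matrix.mul_assoc]
    _ = Dg U l * z * (U * Uᴴ) := by
      rw [h5]
      simp only [hy, Dg, Matrix.mul_assoc]
    _ = Dg U l * z := by rw [h6, Matrix.mul_one]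

end Pool.Agent.PW.L
end
end

-- part Pool.Agent.P.MP_65ad7c_ag.LLem
section

open Matrix Filter Topology Set
open scoped ComplexOrder Kronecker

noncomputable section
namespace Pool.Agent.PW.L

variable {n m : Type} [Fintype n] [DecidableEq n] [Fintype m] [DecidableEq m]
  {r : ℕ} {G : Subgroup (GL (Fin r) ℂ)} {Γ : Type}

theorem llem_dual (φ : Matrix n n ℂ →ₗ[ℂ] ℂ) :
    ∃ w : Matrix n n ℂ, ∀ Y, φ Y = (Y * w).trace := by
  refine ⟨Matrix.of fun j i => φ (Matrix.single i j 1), fun Y => ?_⟩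
  conv_lhs => rw [Matrix.matrix_eq_sum_single Y]
  simp only [map_sum, Matrix.trace, Matrix.diag_apply, Matrix.mul_apply, Matrix.of_apply]
  refine Finset.sum_congr rfl fun i _ => Finset.sum_congr rfl fun j _ => ?_
  rw [← smul_eq_mul, ← map_smul, Matrix.smul_single, smul_eq_mul, mul_one]

theorem llem_slot [Group Γ] (ρ : Γ →* Matrix n n ℂ) {J : ℕ} (k : Fin J)
    {z : Matrix (Fin J → Option n) (Fin J → Option n) ℂ} (hz : z ∈ Com fun γ => RJ J (ρ γ)) :
    ∃ w ∈ Com ρ, ∀ Y, (sl k Y * z).trace = (Y * w).trace := by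
  obtain ⟨w, hw⟩ := llem_dual
    { toFun := fun Y : Matrix n n ℂ => (sl k Y * z).trace
      map_add' := fun X Y => by rw [sl_add, Matrix.add_mul, Matrix.trace_add]
      map_smul' := fun c X => by rw [sl_smul, Matrix.smul_mul, Matrix.trace_smul]; rfl }
  have hw' : ∀ Y, (sl k Y * z).trace = (Y * w).trace := hw
  refine ⟨w, fun γ => ?_, hw'⟩
  have h1 : ρ γ * ρ γ⁻¹ = 1 := by rw [← map_mul, mul_inv_cancel, map_one]
  have h2 : ρ γ⁻¹ * ρ γ = 1 := by rw [← map_mul, inv_mul_cancel, map_one]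
  have h3 : z * RJ J (ρ γ) = RJ J (ρ γ) * z := hz γ
  generalize ρ γ⁻¹ = g' at h1 h2
  generalize ρ γ = g at h1 h2 h3
  have r1 : RJ J g * RJ J g' = 1 := by rw [← map_mul, h1, map_one]
  have r2 : RJ J g' * RJ J g = 1 := by rw [← map_mul, h2, map_one]
  have key : g' * w * g = w := by
    refine Matrix.ext_iff_trace_mul_left.2 fun Y => ?_
    have e1 : RJ J g * sl k Y = sl k (g * Y * g') * RJ J g :=
      RJ_sl k (by rw [Matrix.mul_assoc (g * Y), h2, Matrix.mul_one])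
    have e2 : sl k (g * Y * g') = RJ J g * sl k Y * RJ J g' := by
      rw [e1, Matrix.mul_assoc (sl k _), r1, Matrix.mul_one]
    calc (Y * (g' * w * g)).trace = (g * Y * g' * w).trace := by
          rw [← Matrix.mul_assoc, Matrix.trace_mul_comm]
          simp only [Matrix.mul_assoc]
      _ = (RJ J g * (sl k Y * RJ J g' * z)).trace := by
          rw [← hw', e2]
          simp only [Matrix.mul_assoc]
      _ = (sl k Y * z).trace := by
          rw [Matrix.trace_mul_comm, Matrix.mul_assoc, h3, Matrix.mul_assoc,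
            ← Matrix.mul_assoc (RJ J g'), r2, Matrix.one_mul]
      _ = (Y * w).trace := hw' Y
  calc w * g = g * (g' * w * g) := by
        rw [← Matrix.mul_assoc, ← Matrix.mul_assoc, h1, Matrix.one_mul]
    _ = g * w := by rw [key]

/-- trace over all slots but one -/
theorem trace_dR [Group Γ] (ρ : Γ →* Matrix n n ℂ) {X : Matrix n n ℂ}
    (hX : ∀ z ∈ Com ρ, (X * z).trace = 0) (J : ℕ) :
    ∀ z ∈ Com fun γ => RJ J (ρ γ), (dR J X * z).trace = 0 := by
  intro z hz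
  rw [dR, Finset.sum_mul, Matrix.trace_sum]
  refine Finset.sum_eq_zero fun k _ => ?_
  obtain ⟨w, hw, h⟩ := llem_slot ρ k hz
  rw [h, hX w hw]

end Pool.Agent.PW.L
end
end

-- part Pool.Agent.P.MP_65ad7c_ag.LNorm
section

open Matrix Filter Topology Set
open scoped ComplexOrder Kronecker

noncomputable section
namespace Pool.Agent.PW.L

variable {n m : Type} [Fintype n] [DecidableEq n] [Fintype m] [DecidableEq m]
  {r : ℕ} {G : Subgroup (GL (Fin r) ℂ)} {Γ : Type}

theorem exists_orth (ρ σ : Γ → Matrix n n ℂ) {a₀ : Matrix n n ℂ} (hu : IsUnit a₀)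
    (h₀ : ∀ γ, σ γ * a₀ = a₀ * ρ γ) : ∃ a : Matrix n n ℂ, IsUnit a ∧ (∀ γ, σ γ * a = a * ρ γ) ∧
      ∀ z ∈ Com ρ, (lg (aᴴ * a) * z).trace = 0 := by
  have hZ : IsClosed {a : Matrix n n ℂ | ∀ γ, σ γ * a = a * ρ γ} := by
    rw [Set.ofPred_forall]
    exact isClosed_iInter fun γ => isClosed_eq (continuous_const.matrix_mul continuous_id)
      (continuous_id.matrix_mul continuous_const)
  obtain ⟨a, haZ, ha, hmin⟩ := exists_min_sub hZ h₀ hu
  refine ⟨a, ha, haZ, ?_⟩
  have key : ∀ z ∈ Com ρ, (lg (aᴴ * a) * z).trace.re = 0 := by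
    intro z hz
    have hD := (MD.const a).mul (md_lin z)
    have h0 : (fun t : ℝ => a * (1 + (t : ℂ) • z)) 0 = a := by simp
    have hd := ph_hasDerivAt ha h0 hD
    have hev := hD.eventually_isUnit (by simpa using ha)
    have hloc : IsLocalMin (fun t : ℝ => ph (a * (1 + (t : ℂ) • z))) 0 := by
      filter_upwards [hev] with t ht
      have e0 : a * (1 + ((0 : ℝ) : ℂ) • z) = a := h0
      rw [e0]
      refine hmin _ (fun γ => ?_) ht
      rw [← Matrix.mul_assoc, haZ γ, Matrix.mul_assoc, Matrix.mul_assoc, Matrix.mul_add,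
        Matrix.add_mul, Matrix.mul_smul, Matrix.smul_mul, hz γ, Matrix.mul_one, Matrix.one_mul]
    have h1 := hloc.hasDerivAt_eq_zero hd
    rw [Matrix.zero_mul, zero_add, Matrix.mul_assoc, ← Matrix.mul_assoc a⁻¹,
      Matrix.nonsing_inv_mul _ ((Matrix.isUnit_iff_isUnit_det a).1 ha), Matrix.one_mul] at h1
    linarith
  intro z hz
  have h1 := key z hz
  have h2 := key (Complex.I • z) fun γ => by rw [Matrix.smul_mul, Matrix.mul_smul, hz γ]
  rw [Matrix.mul_smul, trace_smul, smul_eq_mul] at h2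
  apply Complex.ext
  · exact h1
  · simpa using h2

theorem lnorm_com {κ : Type} {R S : κ → Matrix n n ℂ} {A A' : Matrix n n ℂ} (h1 : A * A' = 1)
    (h : ∀ γ, S γ * A = A * R γ) {z : Matrix n n ℂ} (hz : z ∈ Com R) : A * z * A' ∈ Com S := by
  intro γ
  have h2 : A' * A = 1 := mul_eq_one_comm.1 h1
  have h3 : A' * S γ = R γ * A' := by
    calc A' * S γ = A' * (S γ * A) * A' := by
          rw [Matrix.mul_assoc, Matrix.mul_assoc, h1, Matrix.mul_one]
      _ = R γ * A' := by rw [h γ, ← Matrix.mul_assoc, h2, Matrix.one_mul]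
  calc A * z * A' * S γ = A * (z * R γ) * A' := by
        rw [Matrix.mul_assoc, h3]; simp only [Matrix.mul_assoc]
    _ = S γ * (A * z * A') := by
        rw [hz γ, ← Matrix.mul_assoc, ← h γ]; simp only [Matrix.mul_assoc]

theorem norm_conj [Group Γ] (hG : IsRed G) (ρ : Γ →* G) (σ : Γ →* Mx r) {a₀ : Mx r}
    (hu : IsUnit a₀) (h₀ : ∀ γ, σ γ * a₀ = a₀ * mat ρ γ)
    (hσ : ∀ J, ∀ c ∈ Com fun γ => RJ J (σ γ), cᴴ ∈ Com fun γ => RJ J (σ γ)) :
    ∃ (g : G) (k : Mx r), Uni k ∧ ∀ γ, mat (cjG g ρ) γ = kᴴ * σ γ * k := by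
  obtain ⟨a, ha, haσ, htr⟩ := exists_orth (mat ρ) σ hu h₀
  have hQ := posDef_star_mul ha
  obtain ⟨a', ha'⟩ := ha.exists_right_inv
  have hin : InG G (aᴴ * a) := by
    intro J c hc
    have hA : RJ J a * RJ J a' = 1 := by rw [← map_mul, ha', map_one]
    have hA' : RJ J a' * RJ J a = 1 := mul_eq_one_comm.1 hA
    have hS : ∀ γ, RJ J (σ γ) * RJ J a = RJ J a * RJ J (mat ρ γ) := fun γ => by
      rw [← map_mul, haσ γ, map_mul]
    have hS' : ∀ γ, RJ J (mat ρ γ) * RJ J a' = RJ J a' * RJ J (σ γ) := fun γ => by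
      calc RJ J (mat ρ γ) * RJ J a' = RJ J a' * (RJ J a * RJ J (mat ρ γ)) * RJ J a' := by
            rw [← Matrix.mul_assoc, hA', Matrix.one_mul]
        _ = RJ J a' * RJ J (σ γ) := by
            rw [← hS γ, Matrix.mul_assoc, Matrix.mul_assoc, hA, Matrix.mul_one]
    refine lemM (RJ_posDef J hQ) (Com fun γ => RJ J (mat ρ γ)) ?_ ?_ ?_
      (fun γ => hc _ (mat_mem ρ γ)) (fun γ => Cm_star hG hc _ (mat_mem ρ γ))
    · intro x hx y hy γ
      rw [Matrix.mul_assoc, hy γ, ← Matrix.mul_assoc, hx γ, Matrix.mul_assoc]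
    · intro z hz
      have hw := lnorm_com hA' hS' (hσ J _ (lnorm_com hA hS hz))
      have hp : RJ J (aᴴ * a) = (RJ J a)ᴴ * RJ J a := by rw [map_mul, RJ_star]
      have hpi : (RJ J (aᴴ * a))⁻¹ = RJ J a' * (RJ J a')ᴴ := by
        apply Matrix.inv_eq_left_inv
        rw [hp, Matrix.mul_assoc, ← Matrix.mul_assoc _ _ (RJ J a), ← conjTranspose_mul, hA,
          conjTranspose_one, Matrix.one_mul, hA']
      rw [hpi, hp]
      simpa only [conjTranspose_mul, Matrix.mul_assoc] using hw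
    · rw [lg_RJ J hQ]
      exact trace_dR (mat ρ) htr J
  have hL := lieG_lg hQ hin
  have hH : (lg (aᴴ * a)).IsHermitian := fc_herm _ _
  obtain ⟨g, hg, hg0⟩ := hL.ex_mem hG hH (1 / 2)
  have h1 := ex_mul_neg hH (1 / 2)
  have h2 := ex_half hQ
  have h3 := ex_herm (-(1 / 2)) (lg (aᴴ * a))
  generalize ex (-(1 / 2)) (lg (aᴴ * a)) = E at h1 h2 h3
  rw [← hg0] at h1
  have h4 : E * (aᴴ * a) = g.1 := by
    calc E * (aᴴ * a) = E * (aᴴ * a) * (E * g.1) := by
          rw [mul_eq_one_comm.1 h1, Matrix.mul_one]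
      _ = g.1 := by rw [← Matrix.mul_assoc, h2, Matrix.one_mul]
  have h5 : (g⁻¹).1 = E := Units.inv_eq_of_mul_eq_one_right h1
  refine ⟨⟨g, hg⟩, a * E, ?_, fun γ => ?_⟩
  · unfold Uni
    rw [conjTranspose_mul, h3.eq, ← h2]
    simp only [Matrix.mul_assoc]
  · have h6 : mat (cjG ⟨g, hg⟩ ρ) γ = g.1 * mat ρ γ * (g⁻¹).1 := by simp [mat, cjG]
    rw [h6, h5, ← h4, conjTranspose_mul, h3.eq]
    simp only [Matrix.mul_assoc]
    rw [← Matrix.mul_assoc (σ γ), haσ γ, Matrix.mul_assoc]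

end Pool.Agent.PW.L
end
end

-- part Pool.Agent.P.MP_65ad7c_ag.LNull0
section

open Matrix Filter Topology Set
open scoped ComplexOrder Kronecker

noncomputable section
namespace Pool.Agent.PW.L

variable {n m : Type} [Fintype n] [DecidableEq n] [Fintype m] [DecidableEq m]
  {r : ℕ} {G : Subgroup (GL (Fin r) ℂ)} {Γ : Type}

theorem lnull0_add (g : Matrix n n ℂ) (p q : MvPolynomial (n × n) ℂ) :
    pev g (p + q) = pev g p + pev g q := by
  simp only [pev, map_add]

theorem lnull0_mul (g : Matrix n n ℂ) (p q : MvPolynomial (n × n) ℂ) :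
    pev g (p * q) = pev g p * pev g q := by
  simp only [pev, map_mul]

theorem lnull0_pow (g : Matrix n n ℂ) (p : MvPolynomial (n × n) ℂ) (e : ℕ) :
    pev g (p ^ e) = pev g p ^ e := by
  simp only [pev, map_pow]

theorem lnull0_det : ∃ D : MvPolynomial (n × n) ℂ, ∀ g : Matrix n n ℂ, pev g D = g.det := by
  refine ⟨(Matrix.of fun i j => (MvPolynomial.X (i, j) : MvPolynomial (n × n) ℂ)).det, fun g => ?_⟩
  rw [pev, RingHom.map_det]
  congr 1
  ext i j
  simp

theorem lnull0_entry (a b : Matrix n n ℂ) (i j : n) :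
    ∃ P : MvPolynomial (n × n) ℂ, ∀ g : Matrix n n ℂ, pev g P = (g * a - b * g) i j := by
  refine ⟨∑ k, MvPolynomial.X (i, k) * MvPolynomial.C (a k j) -
    ∑ k, MvPolynomial.C (b i k) * MvPolynomial.X (k, j), fun g => ?_⟩
  simp [pev, Matrix.mul_apply]

/-- Nullstellensatz certificate for the absence of intertwiners in `G` -/
theorem null_sep (hG : IsRed G) (a b : Γ → Mx r) (h : ∀ g ∈ Gs G, ¬ ∀ γ, g * a γ = b γ * g) :
    ∃ (e : ℕ) (κ : Type) (_ : Fintype κ) (q : κ → MvPolynomial (Fin r × Fin r) ℂ) (γ : κ → Γ)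
      (i j : κ → Fin r), ∀ g ∈ Gs G,
        g.det ^ e = ∑ k, pev g (q k) * (g * a (γ k) - b (γ k) * g) (i k) (j k) := by
  obtain ⟨S, hS⟩ := hG.1
  obtain ⟨D, hD⟩ := lnull0_det (n := Fin r)
  choose P hP using fun (γ : Γ) (i j : Fin r) => lnull0_entry (a γ) (b γ) i j
  obtain ⟨T, hT⟩ : ∃ T : Set (MvPolynomial (Fin r × Fin r) ℂ),
      T = S ∪ {p | ∃ γ i j, p = P γ i j} := ⟨_, rfl⟩
  have hrad : D ∈ (Ideal.span T).radical := by
    rw [← MvPolynomial.vanishingIdeal_zeroLocus_eq_radical (K := ℂ),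
      MvPolynomial.mem_vanishingIdeal_iff]
    intro x hx
    rw [MvPolynomial.zeroLocus_span] at hx
    obtain ⟨g, hg⟩ : ∃ g : Mx r, g = Matrix.of fun i j => x (i, j) := ⟨_, rfl⟩
    have hgx : ∀ p : MvPolynomial (Fin r × Fin r) ℂ, MvPolynomial.aeval x p = pev g p := by
      intro p
      rw [pev, hg, MvPolynomial.aeval_eq_eval]
      rfl
    rw [hgx, hD]
    by_contra hdet
    have hu : IsUnit g := (Matrix.isUnit_iff_isUnit_det g).2 (isUnit_iff_ne_zero.2 hdet)
    refine h g ⟨hu.unit, (hS _).2 fun p hp => ?_, rfl⟩ fun γ => ?_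
    · have h1 := hx p (by rw [hT]; exact Or.inl hp)
      rw [hgx] at h1
      exact h1
    · rw [← sub_eq_zero]
      ext i j
      have h1 := hx (P γ i j) (by rw [hT]; exact Or.inr ⟨γ, i, j, rfl⟩)
      rw [hgx, hP] at h1
      exact h1
  obtain ⟨e, he⟩ := hrad
  have key : ∀ p ∈ Ideal.span T, ∃ (κ : Type) (_ : Fintype κ)
      (q : κ → MvPolynomial (Fin r × Fin r) ℂ) (γ : κ → Γ) (i j : κ → Fin r), ∀ g ∈ Gs G,
        pev g p = ∑ k, pev g (q k) * (g * a (γ k) - b (γ k) * g) (i k) (j k) := by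
    intro p hp
    induction hp using Submodule.span_induction with
    | mem p hp =>
      rw [hT] at hp
      rcases hp with hp | ⟨γ, i, j, rfl⟩
      · refine ⟨Empty, inferInstance, Empty.elim, Empty.elim, Empty.elim, Empty.elim, ?_⟩
        rintro g ⟨g', hg', rfl⟩
        rw [Finset.univ_eq_empty, Finset.sum_empty]
        exact (hS g').1 hg' p hp
      · refine ⟨Unit, inferInstance, fun _ => 1, fun _ => γ, fun _ => i, fun _ => j, ?_⟩
        intro g _
        rw [hP]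
        simp [pev]
    | zero =>
      refine ⟨Empty, inferInstance, Empty.elim, Empty.elim, Empty.elim, Empty.elim, ?_⟩
      intro g _
      rw [Finset.univ_eq_empty, Finset.sum_empty]
      simp [pev]
    | add p p' _ _ ih ih' =>
      obtain ⟨κ, _, q, γ, i, j, h1⟩ := ih
      obtain ⟨κ', _, q', γ', i', j', h2⟩ := ih'
      refine ⟨κ ⊕ κ', inferInstance, Sum.elim q q', Sum.elim γ γ', Sum.elim i i',
        Sum.elim j j', fun g hg => ?_⟩
      rw [lnull0_add, h1 g hg, h2 g hg, Fintype.sum_sum_type]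
      rfl
    | smul c p _ ih =>
      obtain ⟨κ, _, q, γ, i, j, h1⟩ := ih
      refine ⟨κ, inferInstance, fun k => c * q k, γ, i, j, fun g hg => ?_⟩
      rw [smul_eq_mul, lnull0_mul, h1 g hg, Finset.mul_sum]
      refine Finset.sum_congr rfl fun k _ => ?_
      rw [lnull0_mul, mul_assoc]
  obtain ⟨κ, _, q, γ, i, j, h1⟩ := key _ he
  refine ⟨e, κ, inferInstance, q, γ, i, j, fun g hg => ?_⟩
  rw [← h1 g hg, lnull0_pow, hD]

end Pool.Agent.PW.L
end
end
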