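import Pool.Agent.K.MP_65ad7c_ag.C30

open Matrix Filter Topology Set
open scoped ComplexOrder Kronecker

noncomputable section
namespace Pool.Agent.PW.L

variable {n m : Type} [Fintype n] [DecidableEq n] [Fintype m] [DecidableEq m]
  {r : ℕ} {G : Subgroup (GL (Fin r) ℂ)} {Γ : Type}

/-- powers of the determinant give characters of the span of `RJ J G` -/
theorem det_char {J e : ℕ}
    (l : Matrix (Fin J → Option (Fin r)) (Fin J → Option (Fin r)) ℂ →ₗ[ℂ] ℂ)
    (hl : ∀ g ∈ Gs G, l (RJ J g) = g.det ^ e) {T T'}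
    (hT : T ∈ Submodule.span ℂ (RJ J '' Gs G)) (hT' : T' ∈ Submodule.span ℂ (RJ J '' Gs G)) :
    l (T * T') = l T * l T' := by
  induction hT using Submodule.span_induction with
  | mem x hx =>
    obtain ⟨g, hg, rfl⟩ := hx
    induction hT' using Submodule.span_induction with
    | mem y hy =>
      obtain ⟨g', hg', rfl⟩ := hy
      rw [← map_mul, hl _ (Gs_mul hg hg'), hl _ hg, hl _ hg', det_mul, mul_pow]
    | zero => simp
    | add y z _ _ hy hz => rw [mul_add, map_add, map_add, hy, hz, mul_add]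
    | smul c y _ hy => rw [Matrix.mul_smul, map_smul, map_smul, hy, smul_eq_mul, smul_eq_mul]; ring
  | zero => simp
  | add y z _ _ hy hz => rw [add_mul, map_add, map_add, hy, hz, add_mul]
  | smul c y _ hy => rw [Matrix.smul_mul, map_smul, map_smul, hy, smul_eq_mul, smul_eq_mul]; ring

theorem exists_intertwiner (hG : IsRed G) (a b : Γ → Mx r)
    (h : ∀ J, ∃ T : Matrix (Fin J → Option (Fin r)) (Fin J → Option (Fin r)) ℂ, IsUnit T ∧
      (∀ c ∈ Cm G J, T * c = c * T) ∧ ∀ k γ, T * sl k (a γ) = sl k (b γ) * T) :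
    ∃ g ∈ Gs G, ∀ γ, g * a γ = b γ * g := by
  by_contra hcon
  obtain ⟨e, κ, _, q, γ, i, j, H⟩ := null_sep hG a b fun g hg h' => hcon ⟨g, hg, h'⟩
  choose J₀ hJ₀ using fun k => exists_fun_slice (q k) (a (γ k)) (b (γ k)) (i k) (j k)
  obtain ⟨T, hu, hc, hs⟩ := h (Finset.univ.sup J₀)
  choose l hl1 hl2 using fun k => hJ₀ k (Finset.univ.sup J₀) (Finset.le_sup (Finset.mem_univ k))
  have hl : ∀ g ∈ Gs G, (∑ k, l k) (RJ (Finset.univ.sup J₀) g) = g.det ^ e := by
    intro g hg
    rw [H g hg, LinearMap.sum_apply]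
    exact Finset.sum_congr rfl fun k _ => hl1 k g
  obtain ⟨u, rfl⟩ := hu
  have h1 := mem_span_of_comm hG u.val fun c hc' => (hc c hc').symm
  have h2 := mem_span_of_comm hG (u⁻¹).val fun c hc' => by
    rw [Units.mul_inv_eq_iff_eq_mul, Matrix.mul_assoc, ← hc c hc', Units.inv_mul_cancel_left]
  have h3 := det_char _ hl h1 h2
  have h4 : (∑ k, l k) u.val = 0 := by
    rw [LinearMap.sum_apply]
    exact Finset.sum_eq_zero fun k _ => hl2 k _ fun k' => hs k' (γ k)
  have h5 := hl 1 Gs_one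
  rw [Units.mul_inv, h4, zero_mul] at h3
  rw [map_one, h3, det_one, one_pow] at h5
  exact zero_ne_one h5

end Pool.Agent.PW.L
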