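import Pool.Agent.P.MP_65ad7c_ag.LDefs
import Pool.Agent.K.MP_65ad7c_ag.C29

-- part Pool.Agent.P.MP_65ad7c_ag.LCH0
section

open Matrix Filter Topology Set
open scoped ComplexOrder Kronecker

noncomputable section
namespace Pool.Agent.PW.L

variable {n m : Type} [Fintype n] [DecidableEq n] [Fintype m] [DecidableEq m]
  {r : ℕ} {G : Subgroup (GL (Fin r) ℂ)} {Γ : Type}

section lch0

variable {R : Type} [Ring R] [Algebra ℂ R]
  {V : Type} [AddCommGroup V] [Module ℂ V] [Module R V] [IsScalarTower ℂ R V] [SMulCommClass R ℂ V]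
  {W : Type} [AddCommGroup W] [Module ℂ W] [Module R W] [IsScalarTower ℂ R W] [SMulCommClass R ℂ W]
  {K : Type} [AddCommGroup K] [Module ℂ K] [Module R K] [IsScalarTower ℂ R K] [SMulCommClass R ℂ K]
  {S : Type} [AddCommGroup S] [Module ℂ S] [Module R S] [IsScalarTower ℂ R S] [SMulCommClass R ℂ S]

theorem lch0_tr [FiniteDimensional ℂ K] [FiniteDimensional ℂ S] (e : V ≃ₗ[R] K × S) (x : R) :
    LinearMap.trace ℂ V (DistribSMul.toLinearMap ℂ V x) =
      LinearMap.trace ℂ K (DistribSMul.toLinearMap ℂ K x) +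
        LinearMap.trace ℂ S (DistribSMul.toLinearMap ℂ S x) := by
  rw [← LinearMap.trace_prodMap', ← LinearMap.trace_conj' _ (e.restrictScalars ℂ)]
  congr 1
  refine LinearMap.ext fun v => ?_
  change e (x • e.symm v) = x • v
  rw [map_smul, e.apply_symm_apply]

omit [SMulCommClass R ℂ V] in
theorem lch0_fd [FiniteDimensional ℂ V] (A : Submodule R V) : FiniteDimensional ℂ A :=
  Module.Finite.of_injective (A.subtype.restrictScalars ℂ) A.injective_subtype

omit [Algebra ℂ R] [Module ℂ V] [IsScalarTower ℂ R V] [SMulCommClass R ℂ V] [Module ℂ W]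
  [IsScalarTower ℂ R W] [SMulCommClass R ℂ W] in
theorem lch0_split [IsSemisimpleModule R V] [IsSemisimpleModule R W] (f : V →ₗ[R] W)
    (hf : f ≠ 0) : ∃ (A B : Submodule R V) (A' : Submodule R W), Nontrivial B ∧
      Nonempty (V ≃ₗ[R] A × B) ∧ Nonempty (W ≃ₗ[R] A' × B) := by
  obtain ⟨B, hB⟩ := exists_isCompl (LinearMap.ker f)
  obtain ⟨A', hA'⟩ := exists_isCompl (LinearMap.range f)
  refine ⟨LinearMap.ker f, B, A', ?_, ⟨(Submodule.prodEquivOfIsCompl _ _ hB).symm⟩,
    ⟨(Submodule.prodEquivOfIsCompl _ _ hA'.symm).symm.trans ((LinearEquiv.refl R A').prodCongr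
      (f.quotKerEquivRange.symm.trans (Submodule.quotientEquivOfIsCompl _ _ hB)))⟩⟩
  rw [Submodule.nontrivial_iff_ne_bot]
  rintro rfl
  exact hf (LinearMap.ker_eq_top.1 (eq_top_of_isCompl_bot hB))

omit [Algebra ℂ R] [IsScalarTower ℂ R V] [IsScalarTower ℂ R W] in
theorem lch0_zero [FiniteDimensional ℂ V] [FiniteDimensional ℂ W] [IsSemisimpleModule R V]
    [IsSemisimpleModule R W] (hf : ∀ f : V →ₗ[R] W, f = 0) (hg : ∀ g : W →ₗ[R] V, g = 0)
    (h : ∀ x : R, LinearMap.trace ℂ V (DistribSMul.toLinearMap ℂ V x) =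
      LinearMap.trace ℂ W (DistribSMul.toLinearMap ℂ W x)) : Module.finrank ℂ V = 0 := by
  classical
  let p : Module.End (Module.End R (V × W)) (V × W) :=
    { toFun := fun z => (z.1, 0)
      map_add' := fun z z' => by simp
      map_smul' := fun φ z => by
        have h1 : ∀ v : V, (φ (v, 0)).2 = 0 := fun v =>
          LinearMap.congr_fun (hf ((LinearMap.snd R V W).comp (φ.comp (LinearMap.inl R V W)))) v
        have h2 : ∀ w : W, (φ (0, w)).1 = 0 := fun w =>
          LinearMap.congr_fun (hg ((LinearMap.fst R V W).comp (φ.comp (LinearMap.inr R V W)))) w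
        have h3 : z = (z.1, 0) + (0, z.2) := by simp
        change ((φ z).1, (0 : W)) = φ (z.1, 0)
        refine Prod.ext ?_ (h1 _).symm
        conv_lhs => rw [h3, map_add, Prod.fst_add, h2, add_zero] }
  have : IsSemisimpleModule R (V × W) := by
    have h1 := IsSemisimpleModule.sup (IsSemisimpleModule.range (LinearMap.inl R V W))
      (IsSemisimpleModule.range (LinearMap.inr R V W))
    rw [LinearMap.sup_range_inl_inr] at h1
    exact IsSemisimpleModule.congr Submodule.topEquiv.symm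
  let bV := Module.finBasis ℂ V
  let bW := Module.finBasis ℂ W
  obtain ⟨x, hx⟩ := jacobson_density p
    (Finset.univ.image (fun i => ((bV i, 0) : V × W)) ∪
      Finset.univ.image fun i => ((0, bW i) : V × W))
  have h1 : DistribSMul.toLinearMap ℂ V x = LinearMap.id := bV.ext fun i =>
    (congrArg Prod.fst (hx _ (Finset.mem_union_left _
      (Finset.mem_image_of_mem _ (Finset.mem_univ i))))).symm
  have h2 : DistribSMul.toLinearMap ℂ W x = 0 := bW.ext fun i =>
    (congrArg Prod.snd (hx _ (Finset.mem_union_right _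
      (Finset.mem_image_of_mem _ (Finset.mem_univ i))))).symm
  have h3 := h x
  rw [h1, h2, LinearMap.trace_id, map_zero] at h3
  exact_mod_cast h3

omit [Algebra ℂ R] [IsScalarTower ℂ R V] [IsScalarTower ℂ R W] in
theorem lch0_rank [FiniteDimensional ℂ V] [FiniteDimensional ℂ W]
    (h : ∀ x : R, LinearMap.trace ℂ V (DistribSMul.toLinearMap ℂ V x) =
      LinearMap.trace ℂ W (DistribSMul.toLinearMap ℂ W x)) :
    Module.finrank ℂ V = Module.finrank ℂ W := by
  have h1 : DistribSMul.toLinearMap ℂ V (1 : R) = LinearMap.id := LinearMap.ext fun v => one_smul R v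
  have h2 : DistribSMul.toLinearMap ℂ W (1 : R) = LinearMap.id := LinearMap.ext fun v => one_smul R v
  have h3 := h 1
  rw [h1, h2, LinearMap.trace_id, LinearMap.trace_id] at h3
  exact_mod_cast h3

omit [SMulCommClass R ℂ V] [SMulCommClass R ℂ K] [SMulCommClass R ℂ S] in
theorem lch0_lt [FiniteDimensional ℂ K] [FiniteDimensional ℂ S] [Nontrivial S]
    (e : V ≃ₗ[R] K × S) : Module.finrank ℂ K < Module.finrank ℂ V := by
  rw [(e.restrictScalars ℂ).finrank_eq, Module.finrank_prod]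
  exact Nat.lt_add_of_pos_right Module.finrank_pos

end lch0

/-- semisimple modules of finite dimension are determined by their characters -/
theorem ch_mod (R : Type) [Ring R] [Algebra ℂ R] (d : ℕ) : ∀ (V W : Type) [AddCommGroup V]
    [Module ℂ V] [Module R V] [IsScalarTower ℂ R V] [SMulCommClass R ℂ V] [FiniteDimensional ℂ V]
    [IsSemisimpleModule R V] [AddCommGroup W] [Module ℂ W] [Module R W] [IsScalarTower ℂ R W]
    [SMulCommClass R ℂ W] [FiniteDimensional ℂ W] [IsSemisimpleModule R W],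
    Module.finrank ℂ V = d →
    (∀ x : R, LinearMap.trace ℂ V (DistribSMul.toLinearMap ℂ V x) =
      LinearMap.trace ℂ W (DistribSMul.toLinearMap ℂ W x)) → Nonempty (V ≃ₗ[R] W) := by
  induction d using Nat.strong_induction_on with
  | _ d IH =>
    intro V W _ _ _ _ _ _ _ _ _ _ _ _ _ _ hd h
    by_cases hf : ∀ f : V →ₗ[R] W, f = 0
    · by_cases hg : ∀ g : W →ₗ[R] V, g = 0
      · have h1 := lch0_zero hf hg h
        have h2 := (lch0_rank h).symm.trans h1
        have := (Module.finrank_zero_iff (R := ℂ) (M := V)).1 h1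
        have := (Module.finrank_zero_iff (R := ℂ) (M := W)).1 h2
        exact ⟨LinearEquiv.ofSubsingleton V W⟩
      · push Not at hg
        obtain ⟨g, hg⟩ := hg
        obtain ⟨A, B, A', hB, ⟨e⟩, ⟨e'⟩⟩ := lch0_split g hg
        have := lch0_fd A
        have := lch0_fd B
        have := lch0_fd A'
        obtain ⟨u⟩ := IH _ (hd ▸ lch0_lt e') A' A rfl fun x => by
          have h1 := h x
          rw [lch0_tr e x, lch0_tr e' x] at h1
          exact add_right_cancel h1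
        exact ⟨e'.trans ((u.prodCongr (LinearEquiv.refl R B)).trans e.symm)⟩
    · push Not at hf
      obtain ⟨f, hf⟩ := hf
      obtain ⟨A, B, A', hB, ⟨e⟩, ⟨e'⟩⟩ := lch0_split f hf
      have := lch0_fd A
      have := lch0_fd B
      have := lch0_fd A'
      obtain ⟨u⟩ := IH _ (hd ▸ lch0_lt e) A A' rfl fun x => by
        have h1 := h x
        rw [lch0_tr e x, lch0_tr e' x] at h1
        exact add_right_cancel h1
      exact ⟨e.trans ((u.prodCongr (LinearEquiv.refl R B)).trans e'.symm)⟩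

end Pool.Agent.PW.L
end
end

-- part Pool.Agent.P.MP_65ad7c_ag.LCH
section

open Matrix Filter Topology Set
open scoped ComplexOrder Kronecker

noncomputable section
namespace Pool.Agent.PW.L

variable {n m : Type} [Fintype n] [DecidableEq n] [Fintype m] [DecidableEq m]
  {r : ℕ} {G : Subgroup (GL (Fin r) ℂ)} {Γ : Type}

section
variable {R : Type} [Ring R] [Algebra ℂ R]

/-- column vectors as a module along an algebra map -/
def lchV (_φ : R →ₐ[ℂ] Matrix n n ℂ) : Type := n → ℂ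

variable (φ : R →ₐ[ℂ] Matrix n n ℂ)

instance : AddCommGroup (lchV φ) := inferInstanceAs (AddCommGroup (n → ℂ))

instance : Module ℂ (lchV φ) := inferInstanceAs (Module ℂ (n → ℂ))

instance : FiniteDimensional ℂ (lchV φ) := inferInstanceAs (FiniteDimensional ℂ (n → ℂ))

/-- the identification with column vectors -/
def lchE : lchV φ ≃ₗ[ℂ] (n → ℂ) := LinearEquiv.refl ℂ (n → ℂ)

instance : Module R (lchV φ) where
  smul x v := (lchE φ).symm (φ x *ᵥ lchE φ v)
  one_smul v := by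
    change (lchE φ).symm (φ 1 *ᵥ lchE φ v) = v
    rw [map_one, one_mulVec, LinearEquiv.symm_apply_apply]
  mul_smul x y v := by
    change (lchE φ).symm (φ (x * y) *ᵥ lchE φ v) =
      (lchE φ).symm (φ x *ᵥ lchE φ ((lchE φ).symm (φ y *ᵥ lchE φ v)))
    rw [map_mul, LinearEquiv.apply_symm_apply, mulVec_mulVec]
  smul_zero x := by
    change (lchE φ).symm (φ x *ᵥ lchE φ 0) = 0
    rw [map_zero, mulVec_zero, map_zero]
  smul_add x v w := by
    change (lchE φ).symm (φ x *ᵥ lchE φ (v + w)) =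
      (lchE φ).symm (φ x *ᵥ lchE φ v) + (lchE φ).symm (φ x *ᵥ lchE φ w)
    rw [map_add, mulVec_add, map_add]
  add_smul x y v := by
    change (lchE φ).symm (φ (x + y) *ᵥ lchE φ v) =
      (lchE φ).symm (φ x *ᵥ lchE φ v) + (lchE φ).symm (φ y *ᵥ lchE φ v)
    rw [map_add, add_mulVec, map_add]
  zero_smul v := by
    change (lchE φ).symm (φ 0 *ᵥ lchE φ v) = 0
    rw [map_zero, zero_mulVec, map_zero]

theorem lch_smul (x : R) (v : lchV φ) : lchE φ (x • v) = φ x *ᵥ lchE φ v := rfl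

instance : IsScalarTower ℂ R (lchV φ) where
  smul_assoc c x v := by
    apply (lchE φ).injective
    rw [lch_smul, map_smul, map_smul, lch_smul, smul_mulVec]

instance : SMulCommClass R ℂ (lchV φ) where
  smul_comm x c v := by
    apply (lchE φ).injective
    rw [lch_smul, map_smul, map_smul, lch_smul, mulVec_smul]

theorem lch_trace (x : R) :
    LinearMap.trace ℂ (lchV φ) (DistribSMul.toLinearMap ℂ (lchV φ) x) = (φ x).trace := by
  rw [← Matrix.trace_toLin'_eq]
  rfl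

theorem lch_ss (h : SSm fun x : R => φ x) : IsSemisimpleModule R (lchV φ) := by
  refine { exists_isCompl := fun W => ?_ }
  let W1 : Submodule ℂ (n → ℂ) := (W.restrictScalars ℂ).comap (lchE φ).symm.toLinearMap
  obtain ⟨W', h1, h2⟩ := h W1 fun x v hv => W.smul_mem x hv
  let W2 : Submodule R (lchV φ) :=
    { carrier := {v | lchE φ v ∈ W'}
      add_mem' := fun ha hb => W'.add_mem ha hb
      zero_mem' := W'.zero_mem
      smul_mem' := fun x v hv => h1 x _ hv }
  refine ⟨W2, ?_, ?_⟩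
  · rw [Submodule.disjoint_def]
    exact fun v hv hv' => Submodule.disjoint_def.1 h2.disjoint (lchE φ v) hv hv'
  · rw [codisjoint_iff, Submodule.eq_top_iff']
    intro v
    have hv : (lchE φ v) ∈ W1 ⊔ W' := by
      rw [codisjoint_iff.1 h2.codisjoint]
      trivial
    obtain ⟨y, hy, z, hz, e⟩ := Submodule.mem_sup.1 hv
    exact Submodule.mem_sup.2 ⟨(lchE φ).symm y, hy, (lchE φ).symm z, hz, e⟩

end

theorem lch_lift [Monoid Γ] {a : Γ →* Matrix n n ℂ} (ha : SSm a) :
    SSm fun x : MonoidAlgebra ℂ Γ => MonoidAlgebra.lift ℂ (Matrix n n ℂ) Γ a x := by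
  intro W hW
  obtain ⟨W', h1, h2⟩ := ha W fun γ v hv => by
    have := hW (MonoidAlgebra.of ℂ Γ γ) v hv
    simp only [MonoidAlgebra.lift_of] at this
    exact this
  refine ⟨W', fun x v hv => ?_, h2⟩
  induction x using MonoidAlgebra.induction_on with
  | of γ =>
    simp only [MonoidAlgebra.lift_of]
    exact h1 γ v hv
  | add x y hx hy =>
    simp only [map_add, add_mulVec]
    exact W'.add_mem hx hy
  | smul c x hx =>
    simp only [map_smul, smul_mulVec]
    exact W'.smul_mem c hx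

theorem ch [Monoid Γ] (a b : Γ →* Matrix n n ℂ) (ha : SSm a) (hb : SSm b)
    (h : ∀ x, (a x).trace = (b x).trace) : ∃ T : Matrix n n ℂ, IsUnit T ∧ ∀ x, T * a x = b x * T := by
  set φ := MonoidAlgebra.lift ℂ (Matrix n n ℂ) Γ a with hφ
  set ψ := MonoidAlgebra.lift ℂ (Matrix n n ℂ) Γ b with hψ
  have := lch_ss φ (lch_lift ha)
  have := lch_ss ψ (lch_lift hb)
  have ea : ∀ x, φ (MonoidAlgebra.of ℂ Γ x) = a x := fun x => MonoidAlgebra.lift_of _ x
  have eb : ∀ x, ψ (MonoidAlgebra.of ℂ Γ x) = b x := fun x => MonoidAlgebra.lift_of _ x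
  have ht : ∀ x, (φ x).trace = (ψ x).trace := by
    intro x
    induction x using MonoidAlgebra.induction_on with
    | of γ => rw [ea, eb, h]
    | add x y hx hy => simp only [map_add, trace_add, hx, hy]
    | smul c x hx => simp only [map_smul, trace_smul, hx]
  obtain ⟨e⟩ := ch_mod (MonoidAlgebra ℂ Γ) _ (lchV φ) (lchV ψ) rfl fun x => by
    rw [lch_trace, lch_trace, ht]
  let f : (n → ℂ) ≃ₗ[ℂ] (n → ℂ) := ((lchE φ).symm.trans (e.restrictScalars ℂ)).trans (lchE ψ)
  have hf : ∀ x v, f (a x *ᵥ v) = b x *ᵥ f v := by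
    intro x v
    have h1 := e.map_smul (MonoidAlgebra.of ℂ Γ x) ((lchE φ).symm v)
    have h2 := congrArg (lchE ψ) h1
    rw [lch_smul, eb] at h2
    have h3 : MonoidAlgebra.of ℂ Γ x • (lchE φ).symm v = (lchE φ).symm (a x *ᵥ v) := by
      apply (lchE φ).injective
      rw [lch_smul, ea]
      rfl
    rw [h3] at h2
    exact h2
  refine ⟨LinearMap.toMatrix' f.toLinearMap, ?_, fun x => ?_⟩
  · refine IsUnit.of_mul_eq_one (LinearMap.toMatrix' f.symm.toLinearMap) ?_
    rw [← LinearMap.toMatrix'_comp, LinearEquiv.comp_symm, LinearMap.toMatrix'_id]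
  · apply Matrix.toLin'.injective
    refine LinearMap.ext fun v => ?_
    rw [Matrix.toLin'_mul, Matrix.toLin'_mul, Matrix.toLin'_toMatrix']
    simp only [LinearMap.comp_apply, Matrix.toLin'_apply, LinearEquiv.coe_coe]
    exact hf x v

end Pool.Agent.PW.L
end
end

-- part Pool.Agent.P.MP_65ad7c_ag.LInv0
section

open Matrix Filter Topology Set
open scoped ComplexOrder Kronecker

noncomputable section
namespace Pool.Agent.PW.L

variable {n m : Type} [Fintype n] [DecidableEq n] [Fintype m] [DecidableEq m]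
  {r : ℕ} {G : Subgroup (GL (Fin r) ℂ)} {Γ : Type}

variable [Group Γ]

theorem ev_mem (ρ : Γ →* G) : ev ρ ∈ MB G Γ := by
  exact ⟨(Pi.evalAlgHom ℂ (fun _ : Γ →* G => ℂ) ρ).comp (Inv Γ G).val, rfl⟩

theorem ev_cjG (g : G) (ρ : Γ →* G) : ev (cjG g ρ) = ev ρ := by
  funext f
  exact (mem_Inv.1 f.2).2 g ρ

theorem mat_cjG (g : G) (ρ : Γ →* G) (γ : Γ) :
    mat (cjG g ρ) γ = g.1.1 * mat ρ γ * (g⁻¹).1.1 := by
  rfl

theorem mat_injective : Function.Injective (mat : (Γ →* G) → Γ →* Mx r) := by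
  intro ρ ρ' h
  ext1 γ
  have h1 : mat ρ γ = mat ρ' γ := by rw [h]
  exact Subtype.ext (Units.ext h1)

theorem GT.tendsto {ι : Type} {U : Filter ι} {ρ : ι → Γ →* G} {ρ₀ : Γ →* G} (h : GT U ρ ρ₀)
    {f : (Γ →* G) → ℂ} (hf : f ∈ OO G Γ) : Tendsto (fun k => f (ρ k)) U (𝓝 (f ρ₀)) := by
  unfold OO at hf
  induction hf using Algebra.adjoin_induction with
  | mem e he =>
    obtain ⟨γ, i, j, rfl⟩ := he
    exact h γ i j
  | algebraMap c => exact tendsto_const_nhds
  | add a b _ _ ha hb => exact ha.add hb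
  | mul a b _ _ ha hb => exact ha.mul hb

theorem GT.tendsto_ev {ι : Type} {U : Filter ι} {ρ : ι → Γ →* G} {ρ₀ : Γ →* G} (h : GT U ρ ρ₀) :
    Tendsto (fun k => ev (ρ k)) U (𝓝 (ev ρ₀)) := by
  exact tendsto_pi_nhds.2 fun f => h.tendsto (mem_Inv.1 f.2).1

theorem analytic_OO {F : ℝ → Γ →* G} (hF : AnR fun t => mat (F t)) {f : (Γ →* G) → ℂ}
    (hf : f ∈ OO G Γ) : AnalyticOnNhd ℝ (fun t => f (F t)) univ := by
  unfold OO at hf
  induction hf using Algebra.adjoin_induction with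
  | mem e he =>
    obtain ⟨γ, i, j, rfl⟩ := he
    exact hF γ i j
  | algebraMap c => exact analyticOnNhd_const
  | add a b _ _ ha hb => exact ha.add hb
  | mul a b _ _ ha hb => exact ha.mul hb

theorem trace_mem (γ : Γ) : (fun ρ : Γ →* G => (mat ρ γ).trace) ∈ Inv Γ G := by
  refine mem_Inv.2 ⟨?_, fun g ρ => ?_⟩
  · have e : (fun ρ : Γ →* G => (mat ρ γ).trace)
        = ∑ i : Fin r, fun ρ : Γ →* G => (ρ γ).1.1 i i := by
      funext ρ
      rw [Finset.sum_apply]
      rfl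
    rw [e]
    exact Subalgebra.sum_mem _ fun i _ => Algebra.subset_adjoin ⟨γ, i, i, rfl⟩
  · have e : (g⁻¹).1.1 * g.1.1 = (1 : Mx r) := by
      rw [Subgroup.coe_inv]
      exact Units.inv_mul _
    show (mat (cjG g ρ) γ).trace = (mat ρ γ).trace
    rw [mat_cjG, Matrix.trace_mul_cycle, e, Matrix.one_mul]

end Pool.Agent.PW.L
end
end

-- part Pool.Agent.P.MP_65ad7c_ag.LInv
section

open Matrix Filter Topology Set
open scoped ComplexOrder Kronecker

noncomputable section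
namespace Pool.Agent.PW.L

variable {n m : Type} [Fintype n] [DecidableEq n] [Fintype m] [DecidableEq m]
  {r : ℕ} {G : Subgroup (GL (Fin r) ℂ)} {Γ : Type}

variable [Group Γ]

theorem exists_dual (hG : IsRed G) (ρ : Γ →* G) :
    ∃ ρ' : Γ →* G, ∀ γ, (ρ' γ).1.1 = (ρ γ⁻¹).1.1ᴴ := by
  choose g hg he using fun γ : Γ => hG.2 (ρ γ⁻¹).1 (ρ γ⁻¹).2
  refine ⟨MonoidHom.mk' (fun γ => ⟨g γ, hg γ⟩) fun a b => ?_, he⟩
  refine Subtype.ext (Units.ext ?_)
  change (g (a * b)).1 = (g a).1 * (g b).1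
  rw [he, he, he, _root_.mul_inv_rev, map_mul, ← conjTranspose_mul]
  rfl

theorem linv_unique {ρ ρ₁ ρ₂ : Γ →* G} (h₁ : ∀ γ, (ρ₁ γ).1.1 = (ρ γ⁻¹).1.1ᴴ)
    (h₂ : ∀ γ, (ρ₂ γ).1.1 = (ρ γ⁻¹).1.1ᴴ) : ρ₁ = ρ₂ :=
  MonoidHom.ext fun γ => Subtype.ext (Units.ext ((h₁ γ).trans (h₂ γ).symm))

theorem linv_symm {ρ ρ' : Γ →* G} (h : ∀ γ, (ρ' γ).1.1 = (ρ γ⁻¹).1.1ᴴ) (γ : Γ) :
    (ρ γ).1.1 = (ρ' γ⁻¹).1.1ᴴ := by
  rw [h, inv_inv, conjTranspose_conjTranspose]

theorem linv_mem {th : (Γ →* G) → Γ →* G} (h : ∀ ρ γ, (th ρ γ).1.1 = (ρ γ⁻¹).1.1ᴴ)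
    {f : (Γ →* G) → ℂ} (hf : f ∈ OO G Γ) :
    (fun ρ => starRingEnd ℂ (f (th ρ))) ∈ OO G Γ := by
  induction hf using Algebra.adjoin_induction with
  | mem x hx =>
    obtain ⟨γ, i, j, rfl⟩ := hx
    refine Algebra.subset_adjoin ⟨γ⁻¹, j, i, funext fun ρ => ?_⟩
    have e : (th ρ γ).1.1 i j = star ((ρ γ⁻¹).1.1 j i) := congrFun (congrFun (h ρ γ) i) j
    exact (congrArg star e).trans (star_star _)
  | algebraMap c => exact Subalgebra.algebraMap_mem (OO G Γ) (starRingEnd ℂ c)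
  | add x y _ _ hx hy =>
    simp only [Pi.add_apply, map_add]
    exact add_mem hx hy
  | mul x y _ _ hx hy =>
    simp only [Pi.mul_apply, map_mul]
    exact mul_mem hx hy

theorem exists_star (hG : IsRed G) (f : Inv Γ G) : ∃ f' : Inv Γ G, ∀ ρ ρ' : Γ →* G,
    (∀ γ, (ρ' γ).1.1 = (ρ γ⁻¹).1.1ᴴ) → f'.1 ρ = starRingEnd ℂ (f.1 ρ') := by
  choose th hth using fun ρ : Γ →* G => exists_dual hG ρ
  refine ⟨⟨fun ρ => starRingEnd ℂ (f.1 (th ρ)), mem_Inv.2 ⟨linv_mem hth (mem_Inv.1 f.2).1,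
    fun g ρ => ?_⟩⟩, fun ρ ρ' h => ?_⟩
  · obtain ⟨g₂, hg₂, he⟩ := hG.2 (g⁻¹).1 (g⁻¹).2
    have h1 : g₂.1 * g.1.1ᴴ = 1 := by
      rw [he, ← conjTranspose_mul]
      change (g.1 * g.1⁻¹).1ᴴ = 1
      rw [mul_inv_cancel, Units.val_one, conjTranspose_one]
    have h2 : (g₂⁻¹).1 = g.1.1ᴴ := Units.inv_eq_of_mul_eq_one_right h1
    have h3 : th (cjG g ρ) = cjG ⟨g₂, hg₂⟩ (th ρ) := by
      refine linv_unique (hth _) fun γ => ?_
      have a1 := mat_cjG ⟨g₂, hg₂⟩ (th ρ) γ
      have a2 := mat_cjG g ρ γ⁻¹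
      rw [mat_apply, mat_apply] at a1 a2
      rw [a1, a2, conjTranspose_mul, conjTranspose_mul, hth, ← he, ← h2, Matrix.mul_assoc]
      rfl
    change starRingEnd ℂ (f.1 (th (cjG g ρ))) = _
    rw [h3, (mem_Inv.1 f.2).2]
  · change starRingEnd ℂ (f.1 (th ρ)) = _
    rw [linv_unique (hth ρ) h]

theorem isS_ev {τ τ' : Γ →* G} (h : ∀ γ, mat τ' γ = (mat τ γ⁻¹)ᴴ) : IsS (ev τ) (ev τ') := by
  intro f f' H
  change f.1 τ' = starRingEnd ℂ (f'.1 τ)
  rw [H τ τ' h]
  exact (star_star _).symm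

theorem isS_unique (hG : IsRed G) {y y₁ y₂ : Inv Γ G → ℂ} (h₁ : IsS y y₁) (h₂ : IsS y y₂) :
    y₁ = y₂ := by
  funext f
  obtain ⟨f', hf⟩ := exists_star hG f
  rw [h₁ f f' hf, h₂ f f' hf]

theorem isS_symm {y y' : Inv Γ G → ℂ} (h : IsS y y') : IsS y' y := by
  intro f f' H
  rw [h f' f fun ρ ρ' hρ => by rw [H ρ' ρ (linv_symm hρ)]; exact (star_star _).symm]
  exact (star_star _).symm

theorem linv_ann {R : Type} [CommRing R] [IsReduced R] {P : Ideal R} (hP : P ∈ minimalPrimes R)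
    {f : R} (hf : f ∈ P) : ∃ e : R, e ∉ P ∧ f * e = 0 := by
  have := hP.isPrime
  have h1 := IsLocalization.AtPrime.radical_map_of_mem_minimalPrimes
    (A := Localization.AtPrime P) P ⊥ hP
  have h2 : algebraMap R (Localization.AtPrime P) f ∈ P.map (algebraMap R _) :=
    Ideal.mem_map_of_mem _ hf
  rw [← h1, Ideal.map_bot] at h2
  obtain ⟨k, hk⟩ := h2
  rw [Ideal.mem_bot, ← map_pow, IsLocalization.map_eq_zero_iff P.primeCompl] at hk
  obtain ⟨s, hs⟩ := hk
  refine ⟨s.1, s.2, IsNilpotent.eq_zero ⟨k + 1, ?_⟩⟩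
  calc (f * s.1) ^ (k + 1) = f * s.1 ^ k * (s.1 * f ^ k) := by ring
    _ = 0 := by rw [hs, mul_zero]

theorem exists_ann {P : Ideal (Inv Γ G)} (hP : P ∈ minimalPrimes (Inv Γ G)) {f : Inv Γ G}
    (hf : f ∈ P) : ∃ e : Inv Γ G, e ∉ P ∧ f * e = 0 := by
  have : IsReduced (Inv Γ G) :=
    isReduced_of_injective (Inv Γ G).val Subtype.val_injective
  exact linv_ann hP hf

end Pool.Agent.PW.L
end
end
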