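import Pool.Agent.K.MP_65ad7c_ag.C31
import Pool.Agent.K.MP_65ad7c_ag.C32

open Matrix Filter Topology Set
open scoped ComplexOrder Kronecker

noncomputable section
namespace Pool.Agent.PW.L

variable {n m : Type} [Fintype n] [DecidableEq n] [Fintype m] [DecidableEq m]
  {r : ℕ} {G : Subgroup (GL (Fin r) ℂ)} {Γ : Type}

variable [Group Γ]

theorem lg2_const (c : ℂ) : (fun _ : Γ →* G => c) ∈ OO G Γ := Subalgebra.algebraMap_mem _ c

theorem lg2_ox (γ : Γ) (x y : Option (Fin r)) :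
    (fun ρ : Γ →* G => ox 0 (mat ρ γ) x y) ∈ OO G Γ := by
  rcases x with _ | i <;> rcases y with _ | j
  · exact lg2_const 0
  · exact lg2_const 0
  · exact lg2_const 0
  · exact Algebra.subset_adjoin ⟨γ, i, j, rfl⟩

theorem lg2_sl {J : ℕ} (k : Fin J) (γ : Γ) (x y : Fin J → Option (Fin r)) :
    (fun ρ : Γ →* G => sl k (mat ρ γ) x y) ∈ OO G Γ := by
  have e : (fun ρ : Γ →* G => sl k (mat ρ γ) x y) = ∏ i : Fin J, fun ρ : Γ →* G =>
      Function.update (fun _ => (1 : Matrix (Option (Fin r)) (Option (Fin r)) ℂ)) k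
        (ox 0 (mat ρ γ)) i (x i) (y i) := by
    funext ρ
    rw [Finset.prod_apply]
    rfl
  rw [e]
  refine Subalgebra.prod_mem _ fun i _ => ?_
  by_cases h : i = k
  · subst h
    simp only [Function.update_self]
    exact lg2_ox γ _ _
  · simp only [Function.update_of_ne h]
    exact lg2_const _

theorem lg2_entry {J : ℕ} (w : FreeMonoid ((Fin J × Γ) ⊕ Cm G J)) (x y : Fin J → Option (Fin r)) :
    (fun ρ : Γ →* G => wd G (mat ρ) w x y) ∈ OO G Γ := by
  induction w using FreeMonoid.inductionOn' generalizing x y with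
  | one =>
    simp only [map_one]
    exact lg2_const _
  | of_mul l w ih =>
    have e : (fun ρ : Γ →* G => wd G (mat ρ) (FreeMonoid.of l * w) x y) =
        ∑ z, (fun ρ : Γ →* G => wd G (mat ρ) (FreeMonoid.of l) x z) *
          fun ρ : Γ →* G => wd G (mat ρ) w z y := by
      funext ρ
      rw [map_mul, Matrix.mul_apply, Finset.sum_apply]
      rfl
    rw [e]
    refine Subalgebra.sum_mem _ fun z _ => Subalgebra.mul_mem _ ?_ (ih z y)
    rcases l with p | c
    · exact lg2_sl p.1 p.2 x z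
    · exact lg2_const (c.1 x z)

theorem lg2_cj {J : ℕ} (g : G) (ρ : Γ →* G) (w : FreeMonoid ((Fin J × Γ) ⊕ Cm G J)) :
    RJ J g.1.1 * wd G (mat ρ) w = wd G (mat (cjG g ρ)) w * RJ J g.1.1 := by
  induction w using FreeMonoid.inductionOn' with
  | one => rw [map_one, map_one, mul_one, one_mul]
  | of_mul l w ih =>
    have h : RJ J g.1.1 * wd G (mat ρ) (FreeMonoid.of l) =
        wd G (mat (cjG g ρ)) (FreeMonoid.of l) * RJ J g.1.1 := by
      rcases l with p | c
      · refine RJ_sl p.1 ?_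
        rw [mat_cjG, mul_assoc (g.1.1 * mat ρ p.2)]
        rw [show (g⁻¹).1.1 * g.1.1 = 1 from Units.inv_mul g.1, mul_one]
      · exact (c.2 g.1.1 ⟨g.1, g.2, rfl⟩).symm
    rw [map_mul, map_mul, ← mul_assoc, h, mul_assoc, ih, mul_assoc]

theorem wd_trace_mem {J : ℕ} (w : FreeMonoid ((Fin J × Γ) ⊕ Cm G J)) :
    (fun ρ : Γ →* G => (wd G (mat ρ) w).trace) ∈ Inv Γ G := by
  refine mem_Inv.2 ⟨?_, fun g ρ => ?_⟩
  · have e : (fun ρ : Γ →* G => (wd G (mat ρ) w).trace) =
        ∑ x, fun ρ : Γ →* G => wd G (mat ρ) w x x := by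
      funext ρ
      rw [Finset.sum_apply]
      rfl
    rw [e]
    exact Subalgebra.sum_mem _ fun x _ => lg2_entry w x x
  · have h1 : RJ J g.1.1 * RJ J (g⁻¹).1.1 = 1 := by
      rw [← map_mul, show g.1.1 * (g⁻¹).1.1 = 1 from Units.mul_inv g.1, map_one]
    have h2 : RJ J (g⁻¹).1.1 * RJ J g.1.1 = 1 := by
      rw [← map_mul, show (g⁻¹).1.1 * g.1.1 = 1 from Units.inv_mul g.1, map_one]
    show (wd G (mat (cjG g ρ)) w).trace = (wd G (mat ρ) w).trace
    rw [← mul_one (wd G (mat (cjG g ρ)) w), ← h1, ← mul_assoc, ← lg2_cj, trace_mul_cycle, h2,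
      one_mul]

theorem wd_spanC (hG : IsRed G) (J : ℕ) {a : Γ → Mx r} (h : SpanC a) :
    SpanC (wd (J := J) G a) := by
  refine spanC_lift _ fun l => ?_
  rcases l with p | c
  · have key : ∀ X ∈ Submodule.span ℂ (range a),
        sl p.1 X ∈ Submodule.span ℂ (range (wd (J := J) G a)) := by
      intro X hX
      induction hX using Submodule.span_induction with
      | mem X hX =>
        obtain ⟨γ, rfl⟩ := hX
        exact Submodule.subset_span ⟨FreeMonoid.of (Sum.inl (p.1, γ)), rfl⟩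
      | zero =>
        rw [← zero_smul ℂ (0 : Mx r), sl_smul, zero_smul]
        exact Submodule.zero_mem _
      | add X Y _ _ hX hY =>
        rw [sl_add]
        exact Submodule.add_mem _ hX hY
      | smul c X _ hX =>
        rw [sl_smul]
        exact Submodule.smul_mem _ c hX
    show (sl p.1 (a p.2))ᴴ ∈ _
    rw [← sl_star]
    exact key _ (h p.2)
  · exact Submodule.subset_span ⟨FreeMonoid.of (Sum.inr ⟨c.1ᴴ, Cm_star hG c.2⟩), rfl⟩

theorem g2 (hG : IsRed G) {ρ ρ' : Γ →* G} (h : SpanC (mat ρ)) (h' : SpanC (mat ρ'))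
    (he : ev ρ = ev ρ') : ∃ g ∈ Gs G, ∀ γ, g * mat ρ γ = mat ρ' γ * g := by
  refine exists_intertwiner hG _ _ fun J => ?_
  obtain ⟨T, hT, H⟩ := ch (wd (J := J) G (mat ρ)) (wd (J := J) G (mat ρ'))
    (ssm_of_perp (wd_spanC hG J h).perp) (ssm_of_perp (wd_spanC hG J h').perp)
    fun w => congrFun he ⟨_, wd_trace_mem w⟩
  exact ⟨T, hT, fun c hc => H (FreeMonoid.of (Sum.inr ⟨c, hc⟩)),
    fun k γ => H (FreeMonoid.of (Sum.inl (k, γ)))⟩

end Pool.Agent.PW.L
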