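import Pool.Agent.K.MP_65ad7c_ag.C28
import Pool.Agent.K.MP_65ad7c_ag.C30
import Pool.Agent.K.MP_65ad7c_ag.C33
import Pool.Agent.P.MP_65ad7c_ag.LProj
import Pool.Agent.K.MP_65ad7c_ag.C32
import Pool.Agent.P.MP_65ad7c_ag.LDenC
import Pool.Agent.K.MP_65ad7c_ag.C27
import Pool.Agent.K.MP_65ad7c_ag.C0

-- part Pool.Agent.P.MP_65ad7c_ag.LRot
section

open Matrix Filter Topology Set
open scoped ComplexOrder Kronecker

noncomputable section
namespace Pool.Agent.PW.L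

variable {n m : Type} [Fintype n] [DecidableEq n] [Fintype m] [DecidableEq m]
  {r : ℕ} {G : Subgroup (GL (Fin r) ℂ)} {Γ : Type}

variable [Group Γ] (K : RotSys Γ)

theorem rel_mem (hG : IsRed G) {C t : ℝ} {ρ ρ' : Γ →* Mx r} (h : K.Rel C t ρ ρ')
    (hρ : ∀ γ, ρ γ ∈ Gs G) (γ : Γ) : ρ' γ ∈ Gs G := by
  refine mem_of_inG hG (rep_isUnit ρ' γ) fun J c hc => ?_
  exact prep_comm K (RJ J) (RJ_poly J) (RJ_star J) h (fun γ' => hc _ (hρ γ')) γ

theorem rot_wd (hG : IsRed G) {t : ℝ} {τ₁ τ₁' τ₂ τ₂' : Γ →* G} (h₁ : Rot K t τ₁ τ₁')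
    (h₂ : Rot K t τ₂ τ₂') (he : ev τ₁ = ev τ₂) : ev τ₁' = ev τ₂' := by
  obtain ⟨C₁, h₁⟩ := h₁
  obtain ⟨C₂, h₂⟩ := h₂
  obtain ⟨g, hg, hc⟩ := g2 hG (rel_span K h₁) (rel_span K h₂) he
  have hc' := K.uniq g h₁ h₂ (Gs_unit hg) hc
  obtain ⟨g₀, hg₀, rfl⟩ := hg
  have e : τ₂' = cjG ⟨g₀, hg₀⟩ τ₁' := by
    refine mat_injective (MonoidHom.ext fun γ => ?_)
    rw [mat_cjG]
    have e1 : ((⟨g₀, hg₀⟩ : G)⁻¹).1.1 = (g₀⁻¹).1 := rfl
    rw [e1]
    change mat τ₂' γ = g₀.1 * mat τ₁' γ * (g₀⁻¹).1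
    rw [hc' γ, Matrix.mul_assoc, ← Units.val_mul, mul_inv_cancel, Units.val_one, Matrix.mul_one]
  rw [e, ev_cjG]

theorem rot_exists (hG : IsRed G) (hr : 0 < r) (N : ℝ) : ∃ C : ℝ, ∀ y : Inv Γ G → ℂ,
    Sml K.S N y → ∃ (τ : Γ →* G) (F : ℝ → Γ →* G), ev τ = y ∧ (AnR fun t => mat (F t)) ∧
      ∀ t, URel K C t (mat τ) (mat (F t)) ∧ Rot K (-t) (F t) τ := by
  obtain ⟨C, hC⟩ := K.exi r N hr
  refine ⟨C, fun y hy => ?_⟩
  obtain ⟨ρ, σ, u, hy, hss, hu, huσ, hN⟩ := hy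
  obtain ⟨u₀, σ₀, F₀, hu₀, hσ₀, hF, hRel⟩ := hC σ hss hN
  obtain ⟨w, hw⟩ := hu.mul hu₀
  have h1 : ∀ γ, w.1 * σ₀ γ = mat ρ γ * w.1 := by
    intro γ
    rw [hw, Matrix.mul_assoc, hσ₀, ← Matrix.mul_assoc, huσ, Matrix.mul_assoc]
  have h0 : ∀ γ, σ₀ γ * (w⁻¹).1 = (w⁻¹).1 * mat ρ γ := by
    intro γ
    have e : σ₀ γ * (w⁻¹).1 = (w⁻¹).1 * (w.1 * σ₀ γ) * (w⁻¹).1 := by
      rw [← Matrix.mul_assoc, ← Units.val_mul, inv_mul_cancel, Units.val_one, Matrix.one_mul]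
    rw [e, h1, Matrix.mul_assoc, Matrix.mul_assoc, ← Units.val_mul, mul_inv_cancel, Units.val_one,
      Matrix.mul_one]
  obtain ⟨g, k, hk, hτ⟩ := norm_conj hG ρ σ₀ (w⁻¹).isUnit h0 fun J c hc =>
    (prep_span K (RJ J) (RJ_poly J) (RJ_star J) (hRel 0).1).com_star hc
  have hex : ∀ t, ∃ F : Γ →* G, ∀ γ, mat F γ = kᴴ * F₀ t γ * k := by
    intro t
    obtain ⟨σ', hσ'⟩ := exists_cj (F₀ t) hk.mul_self
    obtain ⟨C', hC'⟩ := rel_uni K hk (hRel t).1 hτ hσ'
    obtain ⟨F, hF'⟩ := exists_lift σ' (rel_mem K hG hC' (mat_mem _))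
    exact ⟨F, fun γ => by rw [hF', hσ']⟩
  choose F hFe using hex
  refine ⟨cjG g ρ, F, by rw [ev_cjG, hy], fun γ i j => ?_, fun t => ⟨?_, ?_⟩⟩
  · have e : (fun t => mat (F t) γ i j) =
        fun t => ∑ b, (∑ a, kᴴ i a * F₀ t γ a b) * k b j := by
      funext t
      rw [hFe]
      simp only [Matrix.mul_apply]
    change AnalyticOnNhd ℝ (fun t => mat (F t) γ i j) univ
    rw [e]
    refine Finset.analyticOnNhd_fun_sum _ fun b _ => ?_
    refine AnalyticOnNhd.mul ?_ analyticOnNhd_const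
    refine Finset.analyticOnNhd_fun_sum _ fun a _ => ?_
    exact AnalyticOnNhd.mul analyticOnNhd_const (hF γ a b)
  · exact ⟨k, σ₀, F₀ t, hk, (hRel t).1, hτ, hFe t⟩
  · obtain ⟨C', hC'⟩ := (hRel t).2
    exact rel_uni K hk hC' (hFe t) hτ

theorem rot_lim (hG : IsRed G) {C t₀ : ℝ} {ι : Type} (U : Ultrafilter ι) {t : ι → ℝ}
    {τ τ' : ι → Γ →* G} (h : ∀ᶠ k in U, URel K C (t k) (mat (τ k)) (mat (τ' k)))
    (ht : Tendsto t U (𝓝 t₀)) : ∃ τ₀ τ₀' : Γ →* G, Rot K t₀ τ₀ τ₀' ∧ GT U τ τ₀ ∧ GT U τ' τ₀' := by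
  obtain ⟨ρ₀, ρ₀', C', hR, h₁, h₂⟩ := URel.lim K U h ht
  have m₁ : ∀ γ, ρ₀ γ ∈ Gs G := fun γ =>
    Gs_closed hG (U := (U : Filter ι)) (a := fun k => mat (τ k) γ)
      (Eventually.of_forall fun k => mat_mem _ γ) (h₁ γ) (rep_isUnit ρ₀ γ)
  have m₂ : ∀ γ, ρ₀' γ ∈ Gs G := fun γ =>
    Gs_closed hG (U := (U : Filter ι)) (a := fun k => mat (τ' k) γ)
      (Eventually.of_forall fun k => mat_mem _ γ) (h₂ γ) (rep_isUnit ρ₀' γ)
  obtain ⟨τ₀, rfl⟩ := exists_lift ρ₀ m₁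
  obtain ⟨τ₀', rfl⟩ := exists_lift ρ₀' m₂
  exact ⟨τ₀, τ₀', ⟨C', hR⟩, h₁, h₂⟩

end Pool.Agent.PW.L
end
end

-- part Pool.Agent.P.MP_65ad7c_ag.LJen0
section

open Matrix Filter Topology Set
open scoped ComplexOrder Kronecker

noncomputable section
namespace Pool.Agent.PW.L

variable {n m : Type} [Fintype n] [DecidableEq n] [Fintype m] [DecidableEq m]
  {r : ℕ} {G : Subgroup (GL (Fin r) ℂ)} {Γ : Type}

omit [Fintype m] [DecidableEq m] in
theorem ljen0_diag (w : Matrix n m ℂ) (l : n → ℝ) (j : m) :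
    (wᴴ * diagonal (fun i => (l i : ℂ)) * w) j j = ((∑ i, l i * ‖w i j‖ ^ 2 : ℝ) : ℂ) := by
  rw [Matrix.mul_apply, Complex.ofReal_sum]
  refine Finset.sum_congr rfl fun i _ => ?_
  rw [Matrix.mul_diagonal, Matrix.conjTranspose_apply]
  have h := Complex.conj_mul' (w i j)
  have h2 : star (w i j) * (l i : ℂ) * w i j = (l i : ℂ) * ((starRingEnd ℂ) (w i j) * w i j) := by
    rw [Complex.star_def]; ring
  rw [h2, h]
  push_cast
  ring

omit [DecidableEq n] [DecidableEq m] in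
theorem ljen0_scalar (w : n → m → ℝ) (hw : ∀ i j, 0 ≤ w i j) (l : n → ℝ) (hl : ∀ i, 0 < l i)
    (e : m → ℝ) (he : ∀ j, 0 < e j) (h1 : ∀ j, ∑ i, w i j = 1) (h2 : ∀ j, ∑ i, l i * w i j = e j) :
    ∑ j, ∑ i, Real.log (l i) * w i j ≤ ∑ j, Real.log (e j) ∧
    (∑ j, ∑ i, Real.log (l i) * w i j = ∑ j, Real.log (e j) →
      ∀ i j, w i j = 0 ∨ l i = e j) := by
  have key : ∑ j, ∑ i, w i j * (l i / e j - 1 - Real.log (l i / e j)) =
      ∑ j, Real.log (e j) - ∑ j, ∑ i, Real.log (l i) * w i j := by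
    rw [← Finset.sum_sub_distrib]
    refine Finset.sum_congr rfl fun j _ => ?_
    have h3 : ∀ i, w i j * (l i / e j - 1 - Real.log (l i / e j)) =
        (l i * w i j) * (e j)⁻¹ - w i j - Real.log (l i) * w i j + w i j * Real.log (e j) := by
      intro i
      rw [Real.log_div (hl i).ne' (he j).ne', div_eq_mul_inv]
      ring
    simp only [h3, Finset.sum_add_distrib, Finset.sum_sub_distrib, ← Finset.sum_mul, h1, h2]
    rw [mul_inv_cancel₀ (he j).ne']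
    ring
  have hnn : ∀ j i, 0 ≤ w i j * (l i / e j - 1 - Real.log (l i / e j)) := fun j i =>
    mul_nonneg (hw i j) (sub_nonneg.2 (Real.log_le_sub_one_of_pos (div_pos (hl i) (he j))))
  refine ⟨?_, fun h i j => ?_⟩
  · have : 0 ≤ ∑ j, ∑ i, w i j * (l i / e j - 1 - Real.log (l i / e j)) :=
      Finset.sum_nonneg fun j _ => Finset.sum_nonneg fun i _ => hnn j i
    linarith
  · have h0 : ∑ j, ∑ i, w i j * (l i / e j - 1 - Real.log (l i / e j)) = 0 := by
      rw [key, h, sub_self]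
    have h4 := (Finset.sum_eq_zero_iff_of_nonneg
      (fun j _ => Finset.sum_nonneg fun i _ => hnn j i)).1 h0 j (Finset.mem_univ _)
    have h5 := (Finset.sum_eq_zero_iff_of_nonneg (fun i _ => hnn j i)).1 h4 i (Finset.mem_univ _)
    rcases mul_eq_zero.1 h5 with h6 | h6
    · exact Or.inl h6
    · right
      by_contra hne
      have hne' : l i / e j ≠ 1 := fun hh => hne ((div_eq_one_iff_eq (he j).ne').1 hh)
      have := Real.log_lt_sub_one_of_pos (div_pos (hl i) (he j)) hne'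
      linarith

/-- Jensen's inequality for the compression to a subspace, with the case of equality -/
theorem jensen {P : Matrix n n ℂ} (hP : P.PosDef) {J : Matrix n m ℂ} (hJ : Jᴴ * J = 1) :
    (J * Jᴴ * lg P).trace.re ≤ Real.log (Jᴴ * P * J).det.re ∧
    ((J * Jᴴ * lg P).trace.re = Real.log (Jᴴ * P * J).det.re → P * (J * Jᴴ) = J * Jᴴ * P) := by
  have hinj : Function.Injective J.mulVec := by
    intro x y hxy
    have h := congrArg (fun v => Jᴴ *ᵥ v) hxy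
    simpa only [Matrix.mulVec_mulVec, hJ, Matrix.one_mulVec] using h
  have hQ : (Jᴴ * P * J).PosDef := hP.conjTranspose_mul_mul_same hinj
  have hPh := hP.isHermitian
  obtain ⟨V, e, hV, he, hQe⟩ := exists_Dg_pos hQ
  obtain ⟨U, l, hU, hl, hPl⟩ := exists_Dg_pos hP
  have hU1 : Uᴴ * U = 1 := hU
  have hV1 : Vᴴ * V = 1 := hV
  have hU2 := hU.mul_self
  have hV2 := hV.mul_self
  obtain ⟨w, hw⟩ : ∃ w : Matrix n m ℂ, w = Uᴴ * J * V := ⟨_, rfl⟩
  have hwH : wᴴ = Vᴴ * Jᴴ * U := by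
    rw [hw, Matrix.conjTranspose_mul, Matrix.conjTranspose_mul,
      Matrix.conjTranspose_conjTranspose, Matrix.mul_assoc]
  have hcomp : ∀ d : n → ℝ, wᴴ * diagonal (fun i => (d i : ℂ)) * w =
      Vᴴ * (Jᴴ * Dg U d * J) * V := by
    intro d
    rw [hwH, hw]
    simp only [Dg, Matrix.mul_assoc]
  have h1 : ∀ j, ∑ i, ‖w i j‖ ^ 2 = 1 := by
    intro j
    have h := ljen0_diag w (fun _ => 1) j
    rw [hcomp, Dg_one hU, Matrix.mul_one, hJ, Matrix.mul_one, hV1, Matrix.one_apply_eq] at h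
    have h' := congrArg Complex.re h
    simp only [Complex.one_re, Complex.ofReal_re, one_mul] at h'
    exact h'.symm
  have hdiag : wᴴ * diagonal (fun i => (l i : ℂ)) * w = diagonal (fun j => (e j : ℂ)) := by
    rw [hcomp, ← hPl, hQe]
    simp only [Dg, Matrix.mul_assoc, hV1, Matrix.mul_one]
    rw [← Matrix.mul_assoc, hV1, Matrix.one_mul]
  have h2 : ∀ j, ∑ i, l i * ‖w i j‖ ^ 2 = e j := by
    intro j
    have h := ljen0_diag w l j
    rw [hdiag, Matrix.diagonal_apply_eq] at h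
    exact (Complex.ofReal_injective h).symm
  have htr : (J * Jᴴ * lg P).trace.re = ∑ j, ∑ i, Real.log (l i) * ‖w i j‖ ^ 2 := by
    have hlg : lg P = Dg U fun i => Real.log (l i) := by
      rw [hPl, lg, fc_Dg hU]
    have h3 : (J * Jᴴ * lg P).trace =
        (wᴴ * diagonal (fun i => ((Real.log (l i) : ℝ) : ℂ)) * w).trace := by
      rw [hcomp, ← hlg, Matrix.trace_mul_comm (Vᴴ * _) V, ← Matrix.mul_assoc, hV2,
        Matrix.one_mul, Matrix.trace_mul_comm (Jᴴ * _) J, Matrix.mul_assoc]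
    rw [h3, Matrix.trace, Complex.re_sum]
    refine Finset.sum_congr rfl fun j _ => ?_
    rw [Matrix.diag_apply, ljen0_diag w (fun i => Real.log (l i)) j, Complex.ofReal_re]
  have hdet : Real.log (Jᴴ * P * J).det.re = ∑ j, Real.log (e j) := by
    rw [hQe, det_Dg hV, Complex.ofReal_re, Real.log_prod fun j _ => (he j).ne']
  obtain ⟨ha, hb⟩ := ljen0_scalar (fun i j => ‖w i j‖ ^ 2) (fun i j => by positivity) l hl e he
    h1 h2
  rw [htr, hdet]
  refine ⟨ha, fun h => ?_⟩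
  have hc := hb h
  have hint : diagonal (fun i => (l i : ℂ)) * w = w * diagonal (fun j => (e j : ℂ)) := by
    ext i j
    rw [Matrix.diagonal_mul, Matrix.mul_diagonal]
    rcases hc i j with h6 | h6
    · have h7 : w i j = 0 := by simpa using h6
      rw [h7, mul_zero, zero_mul]
    · rw [h6, mul_comm]
  have hPJ : P * J = J * Dg V e := by
    have h8 : U * (diagonal (fun i => (l i : ℂ)) * w) * Vᴴ = P * J := by
      rw [hw, hPl]
      simp only [Dg, Matrix.mul_assoc, hV2, Matrix.mul_one]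
    have h9 : U * (w * diagonal (fun j => (e j : ℂ))) * Vᴴ = J * Dg V e := by
      rw [hw]
      simp only [Dg, Matrix.mul_assoc]
      rw [← Matrix.mul_assoc U, hU2, Matrix.one_mul]
    rw [← h8, hint, h9]
  have hJP : Jᴴ * P = Dg V e * Jᴴ := by
    have h10 := congrArg Matrix.conjTranspose hPJ
    rw [Matrix.conjTranspose_mul, Matrix.conjTranspose_mul, hPh.eq, (Dg_herm V e).eq] at h10
    exact h10
  rw [← Matrix.mul_assoc, hPJ, Matrix.mul_assoc J Jᴴ P, hJP, Matrix.mul_assoc]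

end Pool.Agent.PW.L
end
end

-- part Pool.Agent.P.MP_65ad7c_ag.LJen
section

open Matrix Filter Topology Set
open scoped ComplexOrder Kronecker

noncomputable section
namespace Pool.Agent.PW.L

variable {n m : Type} [Fintype n] [DecidableEq n] [Fintype m] [DecidableEq m]
  {r : ℕ} {G : Subgroup (GL (Fin r) ℂ)} {Γ : Type}

theorem ljen_det (b : Matrix m m ℂ) : (bᴴ * b).det.re = ‖b.det‖ ^ 2 := by
  rw [det_mul, det_conjTranspose, mul_comm, ← Complex.normSq_eq_norm_sq]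
  have := Complex.mul_conj b.det
  rw [show star b.det = (starRingEnd ℂ) b.det from rfl, this, Complex.ofReal_re]

theorem ljen_log {b c : Matrix m m ℂ} (h : b * c = 1) :
    Real.log (bᴴ * b).det.re + Real.log (cᴴ * c).det.re = 0 := by
  have h1 : ‖b.det‖ * ‖c.det‖ = 1 := by
    rw [← norm_mul, ← det_mul, h, det_one, norm_one]
  have hb : ‖b.det‖ ≠ 0 := left_ne_zero_of_mul_eq_one h1
  have hc : ‖c.det‖ ≠ 0 := right_ne_zero_of_mul_eq_one h1
  rw [ljen_det, ljen_det, ← Real.log_mul (pow_ne_zero _ hb) (pow_ne_zero _ hc), ← mul_pow, h1,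
    one_pow, Real.log_one]

theorem ljen_step {a a' Q : Matrix n n ℂ} (hQ : Qᴴ = Q) (h : a * a' = 1)
    (h1 : Q * a * Q = a * Q) (h2 : Q * a' * Q = a' * Q) (hc : aᴴ * a * Q = Q * (aᴴ * a)) :
    Q * a = a * Q := by
  have e1 : aᴴ * Q = Q * aᴴ * Q := by
    calc aᴴ * Q = aᴴ * (a * a') * Q := by rw [h, mul_one]
      _ = aᴴ * a * (a' * Q) := by simp only [mul_assoc]
      _ = aᴴ * a * Q * a' * Q := by rw [← h2]; simp only [mul_assoc]
      _ = Q * aᴴ * (a * a') * Q := by rw [hc]; simp only [mul_assoc]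
      _ = Q * aᴴ * Q := by rw [h, mul_one]
  have e2 := congrArg conjTranspose e1
  simp only [conjTranspose_mul, conjTranspose_conjTranspose, hQ] at e2
  rw [e2, ← mul_assoc, h1]

theorem perp_of_sum_lg [Group Γ] (S : Finset Γ) (hs : ∀ s ∈ S, s⁻¹ ∈ S)
    (hS : Submonoid.closure (S : Set Γ) = ⊤) (a : Γ →* Matrix n n ℂ)
    (h : ∑ s ∈ S, lg ((a s)ᴴ * a s) = 0) : Perp a := by
  intro Q hQ hQ2 hinv
  obtain ⟨k, _, _, J, hJ, hJQ⟩ := exists_isom hQ hQ2
  have hQJ : Q * J = J := by rw [← hJQ, Matrix.mul_assoc, hJ, Matrix.mul_one]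
  have hinvm : ∀ s, a s * a s⁻¹ = 1 := fun s => by rw [← map_mul, mul_inv_cancel, map_one]
  have hunit : ∀ s, IsUnit (a s) := fun s => (Group.isUnit s).map a
  set b : Γ → Matrix k k ℂ := fun s => Jᴴ * a s * J with hb
  have haJ : ∀ s, a s * J = J * b s := fun s => by
    calc a s * J = a s * Q * J := by rw [Matrix.mul_assoc, hQJ]
      _ = Q * a s * Q * J := by rw [hinv]
      _ = Q * a s * J := by rw [Matrix.mul_assoc (Q * a s), hQJ]
      _ = J * b s := by rw [← hJQ]; simp only [hb, Matrix.mul_assoc]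
  have hP : ∀ s, Jᴴ * ((a s)ᴴ * a s) * J = (b s)ᴴ * b s := fun s => by
    calc Jᴴ * ((a s)ᴴ * a s) * J = (a s * J)ᴴ * (a s * J) := by
          simp only [conjTranspose_mul, Matrix.mul_assoc]
      _ = (b s)ᴴ * (Jᴴ * J) * b s := by
          rw [haJ]; simp only [conjTranspose_mul, Matrix.mul_assoc]
      _ = (b s)ᴴ * b s := by rw [hJ, Matrix.mul_one]
  have hbb : ∀ s, b s * b s⁻¹ = 1 := fun s => by
    calc b s * b s⁻¹ = Jᴴ * a s * (J * b s⁻¹) := by simp only [hb, Matrix.mul_assoc]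
      _ = Jᴴ * (a s * a s⁻¹) * J := by rw [← haJ]; simp only [Matrix.mul_assoc]
      _ = 1 := by rw [hinvm, Matrix.mul_one, hJ]
  set L : Γ → ℝ := fun s => Real.log ((b s)ᴴ * b s).det.re with hL
  have hL0 : ∑ s ∈ S, L s = 0 := by
    have e1 : ∑ s ∈ S, L s = ∑ s ∈ S, L s⁻¹ :=
      Finset.sum_nbij' (fun s => s⁻¹) (fun s => s⁻¹) hs hs (fun s _ => inv_inv s)
        (fun s _ => inv_inv s) (fun s _ => by rw [inv_inv])
    have e2 : ∑ s ∈ S, L s + ∑ s ∈ S, L s⁻¹ = 0 := by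
      rw [← Finset.sum_add_distrib]
      exact Finset.sum_eq_zero fun s _ => ljen_log (hbb s)
    linarith
  have hT0 : ∑ s ∈ S, (J * Jᴴ * lg ((a s)ᴴ * a s)).trace.re = 0 := by
    rw [← Complex.re_sum, ← trace_sum, ← Finset.mul_sum, h, mul_zero, trace_zero, Complex.zero_re]
  have hle : ∀ s ∈ S, (J * Jᴴ * lg ((a s)ᴴ * a s)).trace.re ≤ L s := fun s _ => by
    have := (jensen (posDef_star_mul (hunit s)) hJ).1
    rwa [hP] at this
  have heq := (Finset.sum_eq_sum_iff_of_le hle).1 (hT0.trans hL0.symm)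
  have hgen : ∀ s ∈ S, Q * a s = a s * Q := fun s hs' => by
    have h1 := (jensen (posDef_star_mul (hunit s)) hJ).2 (by rw [hP]; exact heq s hs')
    rw [hJQ] at h1
    exact ljen_step hQ (hinvm s) (hinv s) (hinv s⁻¹) h1
  intro γ
  have hγ : γ ∈ Submonoid.closure (S : Set Γ) := by rw [hS]; trivial
  induction hγ using Submonoid.closure_induction with
  | mem s hs' => exact hgen s hs'
  | one => rw [map_one, mul_one, one_mul]
  | mul x y _ _ hx hy => rw [map_mul, ← mul_assoc, hx, mul_assoc, hy, mul_assoc]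

end Pool.Agent.PW.L
end
end

-- part Pool.Agent.P.MP_65ad7c_ag.LG1
section

open Matrix Filter Topology Set
open scoped ComplexOrder Kronecker

noncomputable section
namespace Pool.Agent.PW.L

variable {n m : Type} [Fintype n] [DecidableEq n] [Fintype m] [DecidableEq m]
  {r : ℕ} {G : Subgroup (GL (Fin r) ℂ)} {Γ : Type}

theorem lg1_md {X : Matrix n n ℂ} (hX : X.IsHermitian) (a : Matrix n n ℂ) :
    MD (fun t => ex t X * a * ex (-t) X) (X * a - a * X) := by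
  have h1 := ((md_ex hX).mul (MD.const a)).mul (md_ex_neg hX)
  simp only [neg_zero, ex_zero hX, mul_zero, add_zero, mul_one, one_mul, mul_neg] at h1
  rw [sub_eq_add_neg]
  exact h1

theorem lg1_der {X : Matrix n n ℂ} (hX : X.IsHermitian) {a b : Matrix n n ℂ} (hab : a * b = 1) :
    HasDerivAt (fun t => ph (ex t X * a * ex (-t) X))
      (-4 * (lg (bᴴ * b) * X).trace.re - 4 * (lg (aᴴ * a) * X).trace.re) 0 := by
  have hba : b * a = 1 := mul_eq_one_comm.1 hab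
  have hu : IsUnit a := ⟨⟨a, b, hab, hba⟩, rfl⟩
  have h1 := ph_hasDerivAt hu (c := fun t => ex t X * a * ex (-t) X)
    (by simp only [neg_zero, ex_zero hX, mul_one, one_mul]) (lg1_md hX a)
  have hi : a⁻¹ = b := Matrix.inv_eq_right_inv hab
  have h2 : (lg (aᴴ * a) * a⁻¹ * (X * a - a * X)).trace
      = -(lg (bᴴ * b) * X).trace - (lg (aᴴ * a) * X).trace := by
    rw [hi, mul_sub, trace_sub]
    congr 1
    · rw [← mul_assoc, trace_mul_comm, ← mul_assoc, ← mul_assoc, lg_conj hab, neg_mul, trace_neg]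
    · rw [mul_assoc, ← mul_assoc b, hba, one_mul]
  rw [h2] at h1
  convert h1 using 1
  simp only [Complex.sub_re, Complex.neg_re]
  ring

variable [Group Γ]

theorem sum_lg_zero (hG : IsRed G) (S : Finset Γ) (hs : ∀ s ∈ S, s⁻¹ ∈ S) (τ : Γ →* G)
    (h : ∀ g : G, ∑ s ∈ S, ph (mat τ s) ≤ ∑ s ∈ S, ph (mat (cjG g τ) s)) :
    ∑ s ∈ S, lg ((mat τ s)ᴴ * mat τ s) = 0 := by
  set X : Mx r := ∑ s ∈ S, lg ((mat τ s)ᴴ * mat τ s) with hXd
  have hX : X.IsHermitian := by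
    rw [hXd]
    unfold Matrix.IsHermitian
    rw [conjTranspose_sum]
    exact Finset.sum_congr rfl fun s _ => fc_herm _ _
  have hL : LieG G X := lieG_sum S fun s _ =>
    lieG_lg (posDef_star_mul (rep_isUnit _ s)) fun J c hc =>
      hc _ (Gs_mul (Gs_star hG (mat_mem τ s)) (mat_mem τ s))
  have hmin : IsLocalMin (fun t : ℝ => ∑ s ∈ S, ph (ex t X * mat τ s * ex (-t) X)) 0 := by
    refine Filter.Eventually.of_forall fun t => ?_
    obtain ⟨g, hg, hgt⟩ := hL.ex_mem hG hX t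
    have h1 := h ⟨g, hg⟩
    have h2 : ((⟨g, hg⟩ : G)⁻¹).1.1 = ex (-t) X := by
      have h3 : ((⟨g, hg⟩ : G)⁻¹).1.1 * ex t X = 1 := by
        rw [← hgt]
        exact Units.inv_mul g
      exact left_inv_eq_right_inv h3 (ex_mul_neg hX t)
    simp only [mat_cjG, h2, hgt] at h1
    simpa only [neg_zero, ex_zero hX, mul_one, one_mul] using h1
  have hder : HasDerivAt (fun t : ℝ => ∑ s ∈ S, ph (ex t X * mat τ s * ex (-t) X))
      (∑ s ∈ S, (-4 * (lg ((mat τ s⁻¹)ᴴ * mat τ s⁻¹) * X).trace.re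
        - 4 * (lg ((mat τ s)ᴴ * mat τ s) * X).trace.re)) 0 :=
    HasDerivAt.fun_sum fun s _ => lg1_der hX (by rw [← map_mul, mul_inv_cancel, map_one])
  have h0 := hmin.hasDerivAt_eq_zero hder
  have h4 : ∑ s ∈ S, (lg ((mat τ s⁻¹)ᴴ * mat τ s⁻¹) * X).trace.re
      = ∑ s ∈ S, (lg ((mat τ s)ᴴ * mat τ s) * X).trace.re :=
    Finset.sum_nbij' (fun s => s⁻¹) (fun s => s⁻¹) hs hs (fun s _ => inv_inv s)
      (fun s _ => inv_inv s) fun s _ => rfl
  have h5 : ∑ s ∈ S, (lg ((mat τ s)ᴴ * mat τ s) * X).trace.re = fro X := by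
    rw [fro_eq, hX.eq, ← Complex.re_sum, ← trace_sum, ← Finset.sum_mul]
  rw [Finset.sum_sub_distrib, ← Finset.mul_sum, ← Finset.mul_sum, h4, h5] at h0
  exact fro_eq_zero (by linarith)

theorem g1 (hG : IsRed G) (S : Finset Γ) (hs : ∀ s ∈ S, s⁻¹ ∈ S)
    (hS : Submonoid.closure (S : Set Γ) = ⊤) (ρ : Γ →* G) :
    ∃ τ : Γ →* G, ev τ = ev ρ ∧ SSm (mat τ) := by
  obtain ⟨σ, ⟨τ, rfl, hτ⟩, hmin⟩ := exists_min_rep S hS
    {σ : Γ →* Mx r | ∃ τ : Γ →* G, mat τ = σ ∧ ev τ = ev ρ} (by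
      intro U σ σ₀ hσ hlim
      choose τ hτ hev using hσ
      obtain ⟨τ₀, rfl⟩ := exists_lift (G := G) σ₀ fun γ =>
        Gs_closed hG (U := (U : Filter ℕ)) (a := fun k => σ k γ)
          (Filter.Eventually.of_forall fun k => by rw [← hτ k]; exact mat_mem _ _)
          (hlim γ) (rep_isUnit _ _)
      have h1 : GT (U : Filter ℕ) τ τ₀ := by
        intro γ i j
        simpa only [hτ] using hlim γ i j
      have h2 := h1.tendsto_ev
      simp only [hev] at h2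
      exact ⟨τ₀, rfl, tendsto_nhds_unique h2 tendsto_const_nhds⟩)
    ⟨mat ρ, ρ, rfl, rfl⟩ ph ph_nonneg continuousOn_ph (fun L => by
      obtain ⟨B, δ, -, hB⟩ := ph_coer (n := Fin r) L
      exact ⟨B, fun a ha hL => (hB a ha hL).1⟩)
  refine ⟨τ, hτ, ssm_of_perp (perp_of_sum_lg S hs hS _ (sum_lg_zero hG S hs τ fun g => ?_))⟩
  exact hmin _ ⟨cjG g τ, rfl, by rw [ev_cjG, hτ]⟩

end Pool.Agent.PW.L
end
end

-- part Pool.Agent.P.MP_65ad7c_ag.LMu
section

open Matrix Filter Topology Set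
open scoped ComplexOrder Kronecker

noncomputable section
namespace Pool.Agent.PW.L

variable {n m : Type} [Fintype n] [DecidableEq n] [Fintype m] [DecidableEq m]
  {r : ℕ} {G : Subgroup (GL (Fin r) ℂ)} {Γ : Type}

omit [DecidableEq n] in
theorem lmu_key {Q a : Matrix n n ℂ} (h1 : Qᴴ = Q) (h2 : Q * Q = Q) (h3 : Q * a * Q = a * Q) :
    ((Q * a - a * Q)ᴴ * (Q * a - a * Q)).trace = -(Q * (aᴴ * a - a * aᴴ)).trace := by
  have h4 : Q * aᴴ * Q = Q * aᴴ := by
    have := congrArg conjTranspose h3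
    simpa only [conjTranspose_mul, h1, ← Matrix.mul_assoc] using this
  have e1 : (aᴴ * Q * (Q * a)).trace = (Q * (a * aᴴ)).trace := by
    rw [Matrix.mul_assoc, ← Matrix.mul_assoc Q Q, h2, trace_mul_comm, Matrix.mul_assoc]
  have e2 : (aᴴ * Q * (a * Q)).trace = (Q * (aᴴ * a)).trace := by
    rw [Matrix.mul_assoc, ← Matrix.mul_assoc Q a, h3, ← Matrix.mul_assoc, trace_mul_comm]
  have e3 : (Q * aᴴ * (Q * a)).trace = (Q * (aᴴ * a)).trace := by
    rw [← Matrix.mul_assoc, h4, Matrix.mul_assoc]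
  have e4 : (Q * aᴴ * (a * Q)).trace = (Q * (aᴴ * a)).trace := by
    rw [← Matrix.mul_assoc, trace_mul_comm, ← Matrix.mul_assoc, ← Matrix.mul_assoc, h2,
      Matrix.mul_assoc]
  rw [conjTranspose_sub, conjTranspose_mul, conjTranspose_mul, h1, Matrix.sub_mul,
    Matrix.mul_sub, Matrix.mul_sub, Matrix.mul_sub, trace_sub, trace_sub, trace_sub, trace_sub,
    e1, e2, e3, e4]
  ring

theorem perp_of_mu {ι : Type} [Fintype ι] (v : ι → Matrix n n ℂ) (h : mu v = 0) : Perp v := by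
  intro Q h1 h2 h3 i
  have hs : ∑ j, fro (Q * v j - v j * Q) = 0 := by
    have : ∑ j, fro (Q * v j - v j * Q) = -(Q * mu v).trace.re := by
      simp only [fro_eq, lmu_key h1 h2 (h3 _), mu, Matrix.mul_sum, trace_sum, Complex.re_sum,
        Complex.neg_re, Finset.sum_neg_distrib]
    rw [this, h]
    simp
  have h0 := (Finset.sum_eq_zero_iff_of_nonneg fun j _ => fro_nonneg _).1 hs i (Finset.mem_univ i)
  exact sub_eq_zero.1 (fro_eq_zero h0)

theorem lmu_ssm_lift {ι : Type} {v : ι → Matrix n n ℂ} (h : SSm v) : SSm (FreeMonoid.lift v) := by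
  intro W hW
  obtain ⟨W', hW', hc⟩ := h W fun i x hx => by simpa using hW (FreeMonoid.of i) x hx
  refine ⟨W', fun w => ?_, hc⟩
  induction w using FreeMonoid.inductionOn with
  | one => intro x hx; simpa using hx
  | of i => intro x hx; simpa using hW' i x hx
  | mul a b ha hb =>
    intro x hx
    rw [map_mul, ← mulVec_mulVec]
    exact ha _ (hb x hx)

theorem lmu_lift_zero {ι : Type} {w : FreeMonoid ι} (hw : w ≠ 1) :
    FreeMonoid.lift (0 : ι → Matrix n n ℂ) w = 0 := by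
  induction w using FreeMonoid.inductionOn' with
  | one => exact absurd rfl hw
  | of_mul i a _ => rw [map_mul]; simp

theorem nil_of_mu {ι : Type} [Fintype ι] (v : ι → Matrix n n ℂ) (h : mu v = 0)
    (ht : ∀ w : FreeMonoid ι, w ≠ 1 → (FreeMonoid.lift v w).trace = 0) : v = 0 := by
  have h0 : SSm (0 : ι → Matrix n n ℂ) := by
    intro W _
    obtain ⟨W', hc⟩ := Submodule.exists_isCompl W
    exact ⟨W', fun i x _ => by simp, hc⟩
  obtain ⟨T, hT, hx⟩ := ch (FreeMonoid.lift v) (FreeMonoid.lift (0 : ι → Matrix n n ℂ))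
    (lmu_ssm_lift (ssm_of_perp (perp_of_mu v h))) (lmu_ssm_lift h0) fun w => by
      by_cases hw : w = 1
      · rw [hw, map_one, map_one]
      · rw [ht w hw, lmu_lift_zero hw, trace_zero]
  funext i
  have h1 : T * v i = T * 0 := by simpa using hx (FreeMonoid.of i)
  exact hT.mul_left_cancel h1

omit [DecidableEq n] in
theorem lmu_herm {ι : Type} [Fintype ι] (v : ι → Matrix n n ℂ) : (mu v).IsHermitian := by
  unfold IsHermitian mu
  simp only [conjTranspose_sum, conjTranspose_sub, conjTranspose_mul, conjTranspose_conjTranspose]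

theorem lmu_der {M : Matrix n n ℂ} (hM : M.IsHermitian) (a : Matrix n n ℂ) :
    HasDerivAt (fun t => fro (ex (-t) M * a * ex t M))
      (2 * (M * (aᴴ * a - a * aᴴ)).trace.re) 0 := by
  have h1 : MD (fun t => ex (-t) M * a * ex t M) (-M * a + a * M) := by
    have := ((md_ex_neg hM).mul (MD.const a)).mul (md_ex hM)
    simpa only [neg_zero, ex_zero hM, Matrix.mul_zero, add_zero, Matrix.mul_one,
      Matrix.one_mul] using this
  have h2 := (h1.star.mul h1).trace_re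
  simp only [neg_zero, ex_zero hM, Matrix.mul_one, Matrix.one_mul] at h2
  have e1 : (aᴴ * M * a).trace = (M * (a * aᴴ)).trace := by
    rw [Matrix.mul_assoc, trace_mul_comm, Matrix.mul_assoc]
  have e2 : (aᴴ * (M * a)).trace = (M * (a * aᴴ)).trace := by
    rw [← Matrix.mul_assoc, e1]
  have e3 : (aᴴ * (a * M)).trace = (M * (aᴴ * a)).trace := by
    rw [← Matrix.mul_assoc, trace_mul_comm]
  have e4 : (M * aᴴ * a).trace = (M * (aᴴ * a)).trace := by
    rw [Matrix.mul_assoc]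
  have e : ((-M * a + a * M)ᴴ * a + aᴴ * (-M * a + a * M)).trace =
      2 * (M * (aᴴ * a - a * aᴴ)).trace := by
    simp only [conjTranspose_add, conjTranspose_mul, conjTranspose_neg, hM.eq, Matrix.add_mul,
      Matrix.mul_add, Matrix.neg_mul, Matrix.mul_neg, trace_add, trace_neg, Matrix.mul_sub,
      trace_sub, e1, e2, e3, e4]
    ring
  rw [e] at h2
  simp only [fro_eq]
  convert h2 using 1
  simp

theorem mu_of_min {ι : Type} [Fintype ι] (v : ι → Matrix n n ℂ)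
    (h : ∀ g g' : Matrix n n ℂ, g * g' = 1 → ∑ i, fro (v i) ≤ ∑ i, fro (g' * v i * g)) :
    mu v = 0 := by
  have hM := lmu_herm v
  have hd : HasDerivAt (fun t => ∑ i, fro (ex (-t) (mu v) * v i * ex t (mu v)))
      (∑ i, 2 * (mu v * ((v i)ᴴ * v i - v i * (v i)ᴴ)).trace.re) 0 :=
    HasDerivAt.fun_sum fun i _ => lmu_der hM (v i)
  have hmin : IsLocalMin (fun t => ∑ i, fro (ex (-t) (mu v) * v i * ex t (mu v))) 0 := by
    refine Filter.Eventually.of_forall fun t => ?_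
    simp only [neg_zero, ex_zero hM, Matrix.mul_one, Matrix.one_mul]
    exact h _ _ (ex_mul_neg hM t)
  have h0 := hmin.hasDerivAt_eq_zero hd
  rw [← Finset.mul_sum, ← Complex.re_sum, ← trace_sum, ← Matrix.mul_sum] at h0
  apply fro_eq_zero
  rw [fro_eq, hM.eq]
  have h1 : (mu v * mu v).trace.re = 0 := by
    have : (2 : ℝ) * (mu v * mu v).trace.re = 0 := h0
    linarith
  exact h1

end Pool.Agent.PW.L
end
end

-- part Pool.Agent.P.MP_65ad7c_ag.LG3
section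

open Matrix Filter Topology Set
open scoped ComplexOrder Kronecker

noncomputable section
namespace Pool.Agent.PW.L

variable {n m : Type} [Fintype n] [DecidableEq n] [Fintype m] [DecidableEq m]
  {r : ℕ} {G : Subgroup (GL (Fin r) ℂ)} {Γ : Type}

omit [DecidableEq n] in
theorem lg3_fro_smul (c : ℝ) (X : Matrix n n ℂ) : fro ((c : ℂ) • X) = c ^ 2 * fro X := by
  simp only [fro, Matrix.smul_apply, smul_eq_mul, norm_mul, mul_pow, Complex.norm_real,
    Real.norm_eq_abs, sq_abs, Finset.mul_sum]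

theorem lg3_cont {α : Type} (w : FreeMonoid α) :
    Continuous fun v : α → Matrix n n ℂ => FreeMonoid.lift v w := by
  induction w using FreeMonoid.inductionOn' with
  | one => simpa using continuous_const
  | of_mul a w ih =>
    simp only [map_mul, FreeMonoid.lift_eval_of]
    exact (continuous_apply a).matrix_mul ih

theorem lg3_lift [Monoid Γ] {α : Type} (e : α → Γ) (ρ : Γ →* Matrix n n ℂ) (c : ℂ)
    {u u' : Matrix n n ℂ} (h : u * u' = 1) (w : FreeMonoid α) :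
    FreeMonoid.lift (fun s => c • (u' * ρ (e s) * u)) w =
      c ^ w.length • (u' * ρ (FreeMonoid.lift e w) * u) := by
  induction w using FreeMonoid.inductionOn' with
  | one => simp [mul_eq_one_comm.1 h]
  | of_mul a w ih =>
    simp only [map_mul, FreeMonoid.lift_eval_of, ih, FreeMonoid.length_mul, FreeMonoid.length_of,
      Matrix.smul_mul, Matrix.mul_smul, smul_smul]
    rw [pow_add, pow_one, mul_comm c]
    congr 1
    calc u' * ρ (e a) * u * (u' * ρ (FreeMonoid.lift e w) * u)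
        = u' * ρ (e a) * (u * u') * ρ (FreeMonoid.lift e w) * u := by simp only [Matrix.mul_assoc]
      _ = _ := by rw [h]; simp only [Matrix.mul_assoc, Matrix.one_mul]

/-- an almost minimising conjugate -/
theorem lg3_min {α : Type} [Fintype α] (a : α → Matrix n n ℂ) :
    ∃ u u' : Matrix n n ℂ, u * u' = 1 ∧ ∀ w w' : Matrix n n ℂ, w * w' = 1 →
      ∑ s, fro (u' * a s * u) ≤ ∑ s, fro (w' * a s * w) + 1 := by
  set T : Set ℝ := {x | ∃ u u' : Matrix n n ℂ, u * u' = 1 ∧ x = ∑ s, fro (u' * a s * u)} with hT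
  have hne : T.Nonempty := ⟨_, 1, 1, by simp, rfl⟩
  have hb : BddBelow T := ⟨0, by
    rintro x ⟨u, u', -, rfl⟩
    exact Finset.sum_nonneg fun s _ => fro_nonneg _⟩
  obtain ⟨x, ⟨u, u', h, rfl⟩, hx⟩ := exists_lt_of_csInf_lt hne (lt_add_one (sInf T))
  refine ⟨u, u', h, fun w w' hw => ?_⟩
  have := csInf_le hb (show _ ∈ T from ⟨w, w', hw, rfl⟩)
  linarith

/-- bounded traces give bounded conjugates -/
theorem bdd_conj [Monoid Γ] {ι : Type} (U : Ultrafilter ι) (S : Finset Γ)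
    (ρ : ι → Γ →* Matrix n n ℂ) (h : ∀ γ, ∃ B : ℝ, ∀ᶠ k in U, ‖(ρ k γ).trace‖ ≤ B) :
    ∃ N : ℝ, ∀ᶠ k in U, ∃ u u' : Matrix n n ℂ, u * u' = 1 ∧
      ∀ s ∈ S, ∀ i j, ‖(u' * ρ k s * u) i j‖ ≤ N := by
  classical
  by_contra hcon
  choose u u' huu hmin using fun k => lg3_min (fun s : S => ρ k s)
  set E : ι → ℝ := fun k => ∑ s : S, fro (u' k * ρ k s * u k) with hE
  have hE0 : ∀ k, 0 ≤ E k := fun k => Finset.sum_nonneg fun s _ => fro_nonneg _
  have hEle : ∀ k (s : S) i j, ‖(u' k * ρ k s * u k) i j‖ ^ 2 ≤ E k := fun k s i j =>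
    (sq_le_fro _ i j).trans (Finset.single_le_sum (f := fun s : S => fro (u' k * ρ k s * u k))
      (fun s _ => fro_nonneg _) (Finset.mem_univ s))
  have htop : Tendsto E U atTop := by
    rw [tendsto_atTop]
    intro M
    by_contra hM
    rw [← Ultrafilter.eventually_not] at hM
    refine hcon ⟨√M, hM.mono fun k hk => ⟨u k, u' k, huu k, fun s hs i j => ?_⟩⟩
    exact Real.le_sqrt_of_sq_le ((hEle k ⟨s, hs⟩ i j).trans (not_le.1 hk).le)
  set c : ι → ℝ := fun k => (√(E k))⁻¹ with hc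
  have hc0 : Tendsto c U (𝓝 0) :=
    tendsto_inv_atTop_zero.comp (Real.tendsto_sqrt_atTop.comp htop)
  have hc2 : ∀ k, c k ^ 2 = (E k)⁻¹ := fun k => by
    simp only [hc, inv_pow, Real.sq_sqrt (hE0 k)]
  have hpos : ∀ᶠ k in U, 0 < E k := htop.eventually_gt_atTop 0
  set v : ι → S → Matrix n n ℂ := fun k s => (c k : ℂ) • (u' k * ρ k s * u k) with hv
  have hlim : ∀ s : S, ∃ a₀ : Matrix n n ℂ, ∀ i j, Tendsto (fun k => v k s i j) U (𝓝 (a₀ i j)) := by
    intro s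
    refine mat_limit U (fun k => v k s) (B := 1) (hpos.mono fun k hk i j => ?_)
    have h1 : ‖v k s i j‖ ^ 2 ≤ 1 := by
      have h2 : ‖v k s i j‖ ^ 2 = (E k)⁻¹ * ‖(u' k * ρ k s * u k) i j‖ ^ 2 := by
        simp only [hv, Matrix.smul_apply, smul_eq_mul, norm_mul, mul_pow, Complex.norm_real,
          Real.norm_eq_abs, sq_abs, hc2]
      rw [h2, inv_mul_le_iff₀ hk, mul_one]
      exact hEle k s i j
    exact (sq_le_one_iff₀ (norm_nonneg _)).1 h1
  choose v₀ hv₀ using hlim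
  have hvt : Tendsto v U (𝓝 v₀) :=
    tendsto_pi_nhds.2 fun s => tendsto_pi_nhds.2 fun i => tendsto_pi_nhds.2 fun j => hv₀ s i j
  have hcont : ∀ g g' : Matrix n n ℂ,
      Continuous fun x : S → Matrix n n ℂ => ∑ s, fro (g' * x s * g) := fun g g' =>
    continuous_finsetSum _ fun s _ => continuous_fro.comp
      ((continuous_const.matrix_mul (continuous_apply s)).matrix_mul continuous_const)
  have hval : ∀ k (g g' : Matrix n n ℂ), ∑ s, fro (g' * v k s * g) =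
      (E k)⁻¹ * ∑ s : S, fro (g' * u' k * ρ k s * (u k * g)) := fun k g g' => by
    rw [Finset.mul_sum]
    refine Finset.sum_congr rfl fun s _ => ?_
    simp only [hv, Matrix.mul_smul, Matrix.smul_mul, lg3_fro_smul, hc2, Matrix.mul_assoc]
  have hone : ∑ s, fro (v₀ s) = 1 := by
    have h1 := ((hcont 1 1).tendsto v₀).comp hvt
    have h2 : (fun x : S → Matrix n n ℂ => ∑ s, fro (1 * x s * 1)) ∘ v =ᶠ[U] fun _ => (1 : ℝ) := by
      filter_upwards [hpos] with k hk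
      rw [Function.comp_apply, hval]
      simp only [Matrix.one_mul, Matrix.mul_one]
      exact inv_mul_cancel₀ hk.ne'
    have h3 := tendsto_nhds_unique (h1.congr' h2) tendsto_const_nhds
    simpa using h3
  have hmu : mu v₀ = 0 := by
    refine mu_of_min v₀ fun g g' hg => ?_
    rw [hone]
    have h1 := ((hcont g g').tendsto v₀).comp hvt
    have h2 : Tendsto (fun k => 1 - (E k)⁻¹) U (𝓝 (1 - 0)) :=
      tendsto_const_nhds.sub (tendsto_inv_atTop_zero.comp htop)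
    rw [sub_zero] at h2
    refine le_of_tendsto_of_tendsto h2 h1 ?_
    filter_upwards [hpos] with k hk
    have h3 := hmin k (u k * g) (g' * u' k) (by
      rw [Matrix.mul_assoc, ← Matrix.mul_assoc g, hg, Matrix.one_mul, huu])
    rw [Function.comp_apply, hval, le_inv_mul_iff₀ hk, mul_sub, mul_one, mul_inv_cancel₀ hk.ne']
    exact sub_le_iff_le_add.2 h3
  have hnil : v₀ = 0 := by
    refine nil_of_mu v₀ hmu fun w hw => ?_
    have h1 := (((lg3_cont w).matrix_trace).tendsto v₀).comp hvt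
    obtain ⟨B, hB⟩ := h (FreeMonoid.lift (fun s : S => (s : Γ)) w)
    have hlen : w.length ≠ 0 := fun h0 => hw (FreeMonoid.length_eq_zero.1 h0)
    have h2 : Tendsto (fun k => ‖c k‖ ^ w.length * B) U (𝓝 0) := by
      have := (hc0.norm.pow w.length).mul_const B
      simpa [hlen] using this
    refine tendsto_nhds_unique h1 (squeeze_zero_norm' ?_ h2)
    filter_upwards [hB] with k hk
    have h3 : (FreeMonoid.lift (v k) w).trace = (c k : ℂ) ^ w.length *
        (ρ k (FreeMonoid.lift (fun s : S => (s : Γ)) w)).trace := by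
      rw [show v k = fun s : S => (c k : ℂ) • (u' k * ρ k ((fun s : S => (s : Γ)) s) * u k) from rfl,
        lg3_lift _ _ _ (huu k), trace_smul, smul_eq_mul, trace_mul_cycle, huu, Matrix.one_mul]
    rw [Function.comp_apply, h3, norm_mul, norm_pow, Complex.norm_real]
    exact mul_le_mul_of_nonneg_left hk (by positivity)
  rw [hnil] at hone
  simp [fro] at hone

end Pool.Agent.PW.L
end
end

-- part Pool.Agent.P.MP_65ad7c_ag.LGood
section

open Matrix Filter Topology Set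
open scoped ComplexOrder Kronecker

noncomputable section
namespace Pool.Agent.PW.L

variable {n m : Type} [Fintype n] [DecidableEq n] [Fintype m] [DecidableEq m]
  {r : ℕ} {G : Subgroup (GL (Fin r) ℂ)} {Γ : Type}

variable [Group Γ]

theorem lgood_mul (g h : G) : (g * h).1.1 = g.1.1 * h.1.1 := rfl

theorem lgood_one : (1 : G).1.1 = 1 := rfl

theorem lgood_inv_star {g g' : G} (h : g'.1.1 = g.1.1ᴴ) : (g'⁻¹).1.1 = (g⁻¹).1.1ᴴ := by
  have h1 : (g'⁻¹).1.1 * g'.1.1 = 1 := by rw [← lgood_mul, inv_mul_cancel, lgood_one]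
  have h2 : g'.1.1 * (g⁻¹).1.1ᴴ = 1 := by
    rw [h, ← conjTranspose_mul, ← lgood_mul, inv_mul_cancel, lgood_one, conjTranspose_one]
  exact left_inv_eq_right_inv h1 h2

/-- the conjugation action on matrices -/
def lgood_ad (G : Subgroup (GL (Fin r) ℂ)) : G →* Matrix (Fin r × Fin r) (Fin r × Fin r) ℂ where
  toFun g := g.1.1 ⊗ₖ (g⁻¹).1.1ᵀ
  map_one' := by rw [inv_one, lgood_one, transpose_one, one_kronecker_one]
  map_mul' g h := by
    rw [_root_.mul_inv_rev, lgood_mul, lgood_mul, transpose_mul, mul_kronecker_mul]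

theorem lgood_ad_apply (g : G) : lgood_ad G g = g.1.1 ⊗ₖ (g⁻¹).1.1ᵀ := rfl

theorem lgood_cj (g : G) (ρ : Γ →* G) (γ : Γ) :
    (cjG g ρ γ).1.1 = g.1.1 * (ρ γ).1.1 * (g⁻¹).1.1 := rfl

theorem good_entry (γ : Γ) (i j : Fin r) : Good fun (_ : Unit) (ρ : Γ →* G) => (ρ γ).1.1 i j := by
  refine ⟨Fin r × Fin r, inferInstance, inferInstance, lgood_ad G,
    fun ρ p => (ρ γ).1.1 p.1 p.2, fun _ => Pi.single (i, j) 1, fun g g' h => ?_, fun g ρ => ?_,
    fun _ ρ => ?_⟩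
  · rw [lgood_ad_apply, lgood_ad_apply, conjTranspose_kronecker, lgood_inv_star h, h]
    rfl
  · funext p
    beta_reduce
    rw [lgood_cj, lgood_ad_apply]
    simp only [Matrix.mul_apply, mulVec, dotProduct, Fintype.sum_prod_type, kroneckerMap_apply,
      transpose_apply, Finset.sum_mul]
    rw [Finset.sum_comm]
    exact Finset.sum_congr rfl fun a _ => Finset.sum_congr rfl fun b _ => by ring
  · rw [single_dotProduct, one_mul]

theorem good_const (c : ℂ) : Good fun (_ : Unit) (_ : Γ →* G) => c := by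
  refine ⟨Unit, inferInstance, inferInstance, 1, fun _ _ => c, fun _ _ => 1, fun g g' _ => ?_,
    fun g ρ => ?_, fun _ ρ => ?_⟩
  · rw [MonoidHom.one_apply, MonoidHom.one_apply, conjTranspose_one]
  · rw [MonoidHom.one_apply, one_mulVec]
  · simp [dotProduct]

/-- direct sum of two representations -/
def lgood_ds (π : G →* Matrix n n ℂ) (π' : G →* Matrix m m ℂ) :
    G →* Matrix (n ⊕ m) (n ⊕ m) ℂ where
  toFun g := fromBlocks (π g) 0 0 (π' g)
  map_one' := by rw [map_one, map_one, fromBlocks_one]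
  map_mul' g h := by simp [fromBlocks_multiply]

theorem lgood_ds_apply (π : G →* Matrix n n ℂ) (π' : G →* Matrix m m ℂ) (g : G) :
    lgood_ds π π' g = fromBlocks (π g) 0 0 (π' g) := rfl

/-- tensor product of two representations -/
def lgood_tn (π : G →* Matrix n n ℂ) (π' : G →* Matrix m m ℂ) :
    G →* Matrix (n × m) (n × m) ℂ where
  toFun g := π g ⊗ₖ π' g
  map_one' := by rw [map_one, map_one, one_kronecker_one]
  map_mul' g h := by rw [map_mul, map_mul, mul_kronecker_mul]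

theorem lgood_tn_apply (π : G →* Matrix n n ℂ) (π' : G →* Matrix m m ℂ) (g : G) :
    lgood_tn π π' g = π g ⊗ₖ π' g := rfl

theorem Good.sum {κ κ' : Type} {f : κ → (Γ →* G) → ℂ} {f' : κ' → (Γ →* G) → ℂ} (h : Good f)
    (h' : Good f') : Good (Sum.elim f f') := by
  obtain ⟨n, _, _, π, v, l, h1, h2, h3⟩ := h
  obtain ⟨m, _, _, π', v', l', h1', h2', h3'⟩ := h'
  refine ⟨n ⊕ m, inferInstance, inferInstance, lgood_ds π π', fun ρ => Sum.elim (v ρ) (v' ρ),
    Sum.elim (fun k => Sum.elim (l k) 0) fun k => Sum.elim 0 (l' k), fun g g' h => ?_,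
    fun g ρ => ?_, fun k ρ => ?_⟩
  · rw [lgood_ds_apply, lgood_ds_apply, fromBlocks_conjTranspose, conjTranspose_zero,
      conjTranspose_zero, h1 g g' h, h1' g g' h]
  · beta_reduce
    rw [lgood_ds_apply, fromBlocks_mulVec, h2, h2']
    simp
  · rcases k with k | k
    · simp [sumElim_dotProduct_sumElim, h3]
    · simp [sumElim_dotProduct_sumElim, h3']

theorem Good.mul {f f' : (Γ →* G) → ℂ} (h : Good fun _ : Unit => f) (h' : Good fun _ : Unit => f') :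
    Good fun _ : Unit => f * f' := by
  obtain ⟨n, _, _, π, v, l, h1, h2, h3⟩ := h
  obtain ⟨m, _, _, π', v', l', h1', h2', h3'⟩ := h'
  refine ⟨n × m, inferInstance, inferInstance, lgood_tn π π', fun ρ p => v ρ p.1 * v' ρ p.2,
    fun k p => l k p.1 * l' k p.2, fun g g' h => ?_, fun g ρ => ?_, fun k ρ => ?_⟩
  · rw [lgood_tn_apply, lgood_tn_apply, conjTranspose_kronecker, h1 g g' h, h1' g g' h]
  · funext p
    beta_reduce
    rw [lgood_tn_apply, h2, h2']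
    simp only [mulVec, dotProduct, Fintype.sum_prod_type, kroneckerMap_apply,
      Finset.sum_mul_sum]
    exact Finset.sum_congr rfl fun a _ => Finset.sum_congr rfl fun b _ => by ring
  · have e := h3 k ρ
    have e' := h3' k ρ
    beta_reduce at e e' ⊢
    rw [Pi.mul_apply, e, e']
    simp only [dotProduct, Fintype.sum_prod_type, Finset.sum_mul_sum]
    exact Finset.sum_congr rfl fun a _ => Finset.sum_congr rfl fun b _ => by ring

theorem Good.add {f f' : (Γ →* G) → ℂ} (h : Good fun _ : Unit => f) (h' : Good fun _ : Unit => f') :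
    Good fun _ : Unit => f + f' := by
  obtain ⟨n, i1, i2, π, v, l, h1, h2, h3⟩ := h.sum h'
  refine ⟨n, i1, i2, π, v, fun k => l (Sum.inl k) + l (Sum.inr k), h1, h2, fun k ρ => ?_⟩
  rw [add_dotProduct, ← h3, ← h3]
  rfl

theorem lgood_comp {κ κ' : Type} {f : κ → (Γ →* G) → ℂ} (h : Good f) (e : κ' → κ) :
    Good fun k => f (e k) := by
  obtain ⟨n, i1, i2, π, v, l, h1, h2, h3⟩ := h
  exact ⟨n, i1, i2, π, v, fun k => l (e k), h1, h2, fun k ρ => h3 (e k) ρ⟩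

theorem lgood_one_mem {f : (Γ →* G) → ℂ} (h : f ∈ OO G Γ) : Good fun _ : Unit => f := by
  induction h using Algebra.adjoin_induction with
  | mem x hx =>
    obtain ⟨γ, i, j, rfl⟩ := hx
    exact good_entry γ i j
  | algebraMap c => exact good_const c
  | add x y _ _ hx hy => exact hx.add hy
  | mul x y _ _ hx hy => exact hx.mul hy

theorem good_of_mem {κ : Type} [Finite κ] {f : κ → (Γ →* G) → ℂ} (h : ∀ k, f k ∈ OO G Γ) :
    Good f := by
  induction κ using Finite.induction_empty_option with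
  | of_equiv e ih =>
    have := lgood_comp (ih (f := fun k => f (e k)) fun k => h (e k)) e.symm
    simpa only [Equiv.apply_symm_apply] using this
  | h_empty =>
    have := lgood_comp (good_const (Γ := Γ) (G := G) 0) fun _ : PEmpty => ()
    exact (funext fun k => k.elim : (fun _ : PEmpty => fun _ : Γ →* G => (0 : ℂ)) = f) ▸ this
  | h_option ih =>
    have := lgood_comp ((lgood_one_mem (h none)).sum (ih (f := fun k => f (some k))
      fun k => h (some k))) fun k => Option.elim k (Sum.inl ()) Sum.inr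
    refine (funext fun k => ?_ : _ = f) ▸ this
    cases k <;> rfl

end Pool.Agent.PW.L
end
end

-- part Pool.Agent.P.MP_65ad7c_ag.LRey
section

open Matrix Filter Topology Set
open scoped ComplexOrder Kronecker

noncomputable section
namespace Pool.Agent.PW.L

variable {n m : Type} [Fintype n] [DecidableEq n] [Fintype m] [DecidableEq m]
  {r : ℕ} {G : Subgroup (GL (Fin r) ℂ)} {Γ : Type}

variable [Group Γ]

theorem comp_cjG_mem (g : G) {f : (Γ →* G) → ℂ} (hf : f ∈ OO G Γ) :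
    (fun ρ => f (cjG g ρ)) ∈ OO G Γ := by
  induction hf using Algebra.adjoin_induction with
  | mem x hx =>
    obtain ⟨γ, i, j, rfl⟩ := hx
    have e : (fun ρ : Γ →* G => ((cjG g ρ) γ).1.1 i j) =
        ∑ b, ∑ a, (g.1.1 i a * (g⁻¹).1.1 b j) • fun ρ : Γ →* G => (ρ γ).1.1 a b := by
      funext ρ
      have := mat_cjG g ρ γ
      rw [mat_apply, mat_apply] at this
      rw [this]
      simp only [Matrix.mul_apply, Finset.sum_apply, Pi.smul_apply, smul_eq_mul, Finset.sum_mul]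
      exact Finset.sum_congr rfl fun b _ => Finset.sum_congr rfl fun a _ => by ring
    rw [e]
    exact Subalgebra.sum_mem _ fun b _ => Subalgebra.sum_mem _ fun a _ =>
      Subalgebra.smul_mem _ (Algebra.subset_adjoin (by exact ⟨γ, a, b, rfl⟩)) _
  | algebraMap c => exact Subalgebra.algebraMap_mem _ c
  | add x y _ _ hx hy => exact add_mem hx hy
  | mul x y _ _ hx hy => exact mul_mem hx hy

theorem av_mem (c : G →₀ ℂ) {f : (Γ →* G) → ℂ} (hf : f ∈ OO G Γ) : av c f ∈ OO G Γ := by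
  have e : av c f = ∑ h ∈ c.support, c h • fun ρ => f (cjG h ρ) := by
    funext ρ
    simp only [av, Finsupp.sum, Finset.sum_apply, Pi.smul_apply, smul_eq_mul]
  rw [e]
  exact Subalgebra.sum_mem _ fun h _ => Subalgebra.smul_mem _ (comp_cjG_mem h hf) _

/-- finite Reynolds averaging -/
theorem rey (hG : IsRed G) {κ : Type} [Finite κ] {f : κ → (Γ →* G) → ℂ}
    (h : ∀ k, f k ∈ OO G Γ) : ∃ c : G →₀ ℂ, (c.sum fun _ x => x) = 1 ∧ ∀ k, av c (f k) ∈ Inv Γ G := by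
  obtain ⟨n, _, _, π, v, l, h1, h2, h3⟩ := good_of_mem h
  obtain ⟨c, c1, c2⟩ := avg π fun g => by
    obtain ⟨g', hg', e⟩ := hG.2 g.1 g.2
    exact ⟨⟨g', hg'⟩, h1 g ⟨g', hg'⟩ e⟩
  have key : ∀ k ρ, av c (f k) ρ = l k ⬝ᵥ ((c.sum fun h x => x • π h) *ᵥ v ρ) := by
    intro k ρ
    simp only [av, Finsupp.sum, h3, h2, Matrix.sum_mulVec, dotProduct_sum, Matrix.smul_mulVec,
      dotProduct_smul, smul_eq_mul]
  refine ⟨c, c1, fun k => mem_Inv.2 ⟨av_mem c (h k), fun g ρ => ?_⟩⟩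
  rw [key, key, h2, Matrix.mulVec_mulVec, c2]

/-- the ideal generated by the annihilator of `e` and the kernel of `y` is proper -/
theorem one_ne_sum (hG : IsRed G) (y : Inv Γ G →ₐ[ℂ] ℂ) (e : Inv Γ G)
    (h : ∀ o : Inv Γ G, o * e = 0 → y o = 0) {κ : Type} [Fintype κ] (a : κ → Inv Γ G)
    (ha : ∀ k, y (a k) = 0) (o : κ → (Γ →* G) → ℂ) (ho : ∀ k, o k ∈ OO G Γ)
    (j : (Γ →* G) → ℂ) (hj : j * e.1 = 0) : j + ∑ k, (a k).1 * o k ≠ 1 := by
  intro hs
  obtain ⟨c, c1, c2⟩ := rey hG ho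
  have hw : (1 - ∑ k, a k * ⟨av c (o k), c2 k⟩ : Inv Γ G) * e = 0 := by
    apply Subtype.ext
    funext ρ
    have e1 : ∀ g : G, 1 - ∑ k, (a k).1 ρ * o k (cjG g ρ) = j (cjG g ρ) := by
      intro g
      have := congrFun hs (cjG g ρ)
      simp only [Pi.add_apply, Finset.sum_apply, Pi.mul_apply, Pi.one_apply] at this
      rw [← this]
      simp only [(mem_Inv.1 (a _).2).2 g ρ]
      ring
    have e2 : ∀ g : G, j (cjG g ρ) * e.1 ρ = 0 := by
      intro g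
      have := congrFun hj (cjG g ρ)
      rwa [Pi.mul_apply, (mem_Inv.1 e.2).2 g ρ] at this
    have e3 : 1 - ∑ k, (a k).1 ρ * av c (o k) ρ = ∑ g ∈ c.support, c g * j (cjG g ρ) := by
      simp only [← e1, mul_sub, Finset.sum_sub_distrib, mul_one, av, Finsupp.sum, Finset.mul_sum]
      rw [Finset.sum_comm]
      have : ∑ g ∈ c.support, c g = 1 := c1
      rw [this]
      congr 1
      exact Finset.sum_congr rfl fun g _ => Finset.sum_congr rfl fun k _ => by ring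
    have e4 : ((1 - ∑ k, a k * ⟨av c (o k), c2 k⟩ : Inv Γ G) * e).1 ρ =
        (1 - ∑ k, (a k).1 ρ * av c (o k) ρ) * e.1 ρ := by
      simp only [MulMemClass.coe_mul, AddSubgroupClass.coe_sub, OneMemClass.coe_one,
        AddSubmonoidClass.coe_finsetSum, Pi.mul_apply, Pi.sub_apply, Pi.one_apply,
        Finset.sum_apply]
    rw [e4, e3, Finset.sum_mul]
    exact Finset.sum_eq_zero fun g _ => by rw [mul_assoc, e2, mul_zero]
  have := h _ hw
  simp only [map_sub, map_one, map_sum, map_mul, ha, zero_mul, Finset.sum_const_zero,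
    sub_zero] at this
  exact one_ne_zero this

end Pool.Agent.PW.L
end
end

-- part Pool.Agent.P.MP_65ad7c_ag.LPt
section

open Matrix Filter Topology Set
open scoped ComplexOrder Kronecker

noncomputable section
namespace Pool.Agent.PW.L

variable {n m : Type} [Fintype n] [DecidableEq n] [Fintype m] [DecidableEq m]
  {r : ℕ} {G : Subgroup (GL (Fin r) ℂ)} {Γ : Type}

variable [Group Γ]

theorem lpt_mul (γ δ : Γ) (i j : Fin r) : (fun ρ : Γ →* G => (ρ (γ * δ)).1.1 i j) =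
    ∑ k, (fun ρ : Γ →* G => (ρ γ).1.1 i k) * fun ρ : Γ →* G => (ρ δ).1.1 k j := by
  funext ρ
  rw [map_mul, Finset.sum_apply]
  exact Matrix.mul_apply

theorem lpt_one (i j : Fin r) : (fun ρ : Γ →* G => (ρ 1).1.1 i j) =
    algebraMap ℂ ((Γ →* G) → ℂ) ((1 : Mx r) i j) := by
  funext ρ
  rw [map_one]
  rfl

theorem OO_finiteType (S : Finset Γ) (hS : Submonoid.closure (S : Set Γ) = ⊤) :
    Algebra.FiniteType ℂ (OO G Γ) := by
  classical
  rw [← Subalgebra.fg_iff_finiteType]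
  let F : Γ × Fin r × Fin r → (Γ →* G) → ℂ := fun x ρ => (ρ x.1).1.1 x.2.1 x.2.2
  refine ⟨(S ×ˢ Finset.univ).image F, le_antisymm (Algebra.adjoin_mono ?_) (Algebra.adjoin_le ?_)⟩
  · intro f hf
    obtain ⟨x, -, rfl⟩ := Finset.mem_image.1 (Finset.mem_coe.1 hf)
    exact ⟨x.1, x.2.1, x.2.2, rfl⟩
  · rintro f ⟨γ, i, j, rfl⟩
    have hγ : γ ∈ Submonoid.closure (S : Set Γ) := hS ▸ Submonoid.mem_top γ
    induction hγ using Submonoid.closure_induction generalizing i j with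
    | mem s hs =>
      exact Algebra.subset_adjoin (Finset.mem_coe.2 (Finset.mem_image.2
        ⟨(s, i, j), Finset.mem_product.2 ⟨hs, Finset.mem_univ _⟩, rfl⟩))
    | one =>
      rw [lpt_one]
      exact Subalgebra.algebraMap_mem _ _
    | mul γ δ _ _ h1 h2 =>
      rw [lpt_mul]
      exact Subalgebra.sum_mem _ fun k _ => Subalgebra.mul_mem _ (h1 i k) (h2 k j)

/-- the entries as regular functions -/
def lptEnt (γ : Γ) (i j : Fin r) : OO G Γ :=
  ⟨fun ρ => (ρ γ).1.1 i j, Algebra.subset_adjoin ⟨γ, i, j, rfl⟩⟩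

/-- evaluation at a representation -/
def lptEv (ρ : Γ →* G) : OO G Γ →ₐ[ℂ] ℂ := (Pi.evalAlgHom ℂ (fun _ => ℂ) ρ).comp (OO G Γ).val

/-- the matrix representation defined by a point -/
def lptRep (ψ : OO G Γ →ₐ[ℂ] ℂ) : Γ →* Mx r where
  toFun γ := Matrix.of fun i j => ψ (lptEnt γ i j)
  map_one' := by
    ext i j
    have h : (lptEnt 1 i j : OO G Γ) = algebraMap ℂ _ ((1 : Mx r) i j) :=
      Subtype.ext (lpt_one i j)
    rw [Matrix.of_apply, h, AlgHom.commutes]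
    rfl
  map_mul' γ δ := by
    ext i j
    have h : (lptEnt (γ * δ) i j : OO G Γ) = ∑ k, lptEnt γ i k * lptEnt δ k j :=
      Subtype.ext (by
        rw [AddSubmonoidClass.coe_finsetSum]
        exact lpt_mul γ δ i j)
    rw [Matrix.of_apply, h, map_sum, Matrix.mul_apply]
    exact Finset.sum_congr rfl fun k _ => map_mul ψ _ _

theorem lpt_aeval (ψ : OO G Γ →ₐ[ℂ] ℂ) (x : Fin r × Fin r → OO G Γ)
    (p : MvPolynomial (Fin r × Fin r) ℂ) :
    MvPolynomial.eval (fun ij => ψ (x ij)) p = ψ (MvPolynomial.aeval x p) := by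
  rw [← AlgHom.comp_apply, MvPolynomial.comp_aeval, MvPolynomial.aeval_eq_eval]

theorem lpt_mem (hG : IsRed G) (ψ : OO G Γ →ₐ[ℂ] ℂ) (γ : Γ) : lptRep ψ γ ∈ Gs G := by
  obtain ⟨S, hS⟩ := hG.1
  refine ⟨(lptRep ψ).toHomUnits γ, (hS _).2 fun p hp => ?_, rfl⟩
  have h0 : MvPolynomial.aeval (fun ij : Fin r × Fin r => (lptEnt γ ij.1 ij.2 : OO G Γ)) p = 0 := by
    refine Subtype.ext (funext fun ρ => ?_)
    exact (lpt_aeval (lptEv ρ) _ p).symm.trans ((hS _).1 (ρ γ).2 p hp)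
  exact (lpt_aeval ψ (fun ij => lptEnt γ ij.1 ij.2) p).trans (by rw [h0, map_zero])

theorem algHom_OO (hG : IsRed G) (ψ : OO G Γ →ₐ[ℂ] ℂ) : ∃ ρ : Γ →* G, ∀ f, ψ f = f.1 ρ := by
  obtain ⟨ρ, hρ⟩ := exists_lift (lptRep ψ) (lpt_mem hG ψ)
  have h : ψ = lptEv ρ := by
    refine AlgHom.ext_of_eq_adjoin rfl ?_
    rintro _ ⟨γ, i, j, rfl⟩
    exact (congrFun₂ (DFunLike.congr_fun hρ γ) i j).symm
  exact ⟨ρ, fun f => by rw [h]; rfl⟩

theorem exists_algHom_of_ne_top {A : Type} [CommRing A] [Algebra ℂ A] [Algebra.FiniteType ℂ A]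
    {I : Ideal A} (hI : I ≠ ⊤) : ∃ ψ : A →ₐ[ℂ] ℂ, ∀ a ∈ I, ψ a = 0 := by
  obtain ⟨M, hM, hIM⟩ := Ideal.exists_le_maximal I hI
  let _ := Ideal.Quotient.field M
  have : Module.Finite ℂ (A ⧸ M) := finite_of_finite_type_of_isJacobsonRing ℂ (A ⧸ M)
  refine ⟨(IsAlgClosed.lift : (A ⧸ M) →ₐ[ℂ] ℂ).comp (Ideal.Quotient.mkₐ ℂ M), fun a ha => ?_⟩
  rw [AlgHom.comp_apply, Ideal.Quotient.mkₐ_eq_mk, Ideal.Quotient.eq_zero_iff_mem.2 (hIM ha),
    map_zero]

/-- invariant functions are regular -/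
def lptInc : Inv Γ G →ₐ[ℂ] OO G Γ := Subalgebra.inclusion fun _ hf => (mem_Inv.1 hf).1

theorem exists_point (hG : IsRed G) (S : Finset Γ) (hS : Submonoid.closure (S : Set Γ) = ⊤)
    (y : Inv Γ G →ₐ[ℂ] ℂ) (e : Inv Γ G) (h : ∀ o : Inv Γ G, o * e = 0 → y o = 0) :
    ∃ ρ : Γ →* G, ev ρ = y ∧ ∀ o ∈ OO G Γ, o * e.1 = 0 → o ρ = 0 := by
  have := OO_finiteType (G := G) S hS
  let I₁ : Ideal (OO G Γ) := LinearMap.ker (LinearMap.toSpanSingleton (OO G Γ) (OO G Γ) (lptInc e))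
  let I₂ : Ideal (OO G Γ) := Ideal.span (lptInc '' {a | y a = 0})
  have hI : I₁ ⊔ I₂ ≠ ⊤ := by
    intro hI
    obtain ⟨j, hj, b, hb, hjb⟩ := Submodule.mem_sup.1 ((Ideal.eq_top_iff_one _).1 hI)
    obtain ⟨N, o, g, rfl⟩ := Submodule.mem_span_set'.1 hb
    choose a ha hag using fun k => (g k).2
    refine one_ne_sum hG y e h a ha (fun k => (o k).1) (fun k => (o k).2) j.1
      (congrArg Subtype.val (LinearMap.mem_ker.1 hj)) ?_
    have h1 := congrArg Subtype.val hjb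
    rw [Subalgebra.coe_add, AddSubmonoidClass.coe_finsetSum] at h1
    refine Eq.trans ?_ h1
    refine congrArg (j.1 + ·) (Finset.sum_congr rfl fun k _ => ?_)
    rw [← hag k, mul_comm]
    rfl
  obtain ⟨ψ, hψ⟩ := exists_algHom_of_ne_top hI
  obtain ⟨ρ, hρ⟩ := algHom_OO hG ψ
  refine ⟨ρ, funext fun f => ?_, fun o ho hoe => ?_⟩
  · have h1 : y (f - algebraMap ℂ _ (y f)) = 0 := by
      rw [map_sub, AlgHom.commutes]
      exact sub_self _
    have h2 := hψ _ (Ideal.mem_sup_right (Ideal.subset_span ⟨_, h1, rfl⟩))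
    rw [map_sub, map_sub, AlgHom.commutes, AlgHom.commutes, hρ] at h2
    exact sub_eq_zero.1 h2
  · exact (hρ ⟨o, ho⟩).symm.trans
      (hψ _ (Ideal.mem_sup_left (LinearMap.mem_ker.2 (Subtype.ext hoe))))

theorem ev_surj (hG : IsRed G) (S : Finset Γ) (hS : Submonoid.closure (S : Set Γ) = ⊤)
    {y : Inv Γ G → ℂ} (hy : y ∈ MB G Γ) : ∃ ρ : Γ →* G, ev ρ = y := by
  obtain ⟨φ, rfl⟩ := hy
  obtain ⟨ρ, hρ, -⟩ := exists_point hG S hS φ 1 fun o ho => by
    rw [mul_one] at ho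
    rw [ho, map_zero]
  exact ⟨ρ, hρ⟩

end Pool.Agent.PW.L
end
end

-- part Pool.Agent.P.MP_65ad7c_ag.LFlow
section

open Matrix Filter Topology Set
open scoped ComplexOrder Kronecker

noncomputable section
namespace Pool.Agent.PW.L

variable {n m : Type} [Fintype n] [DecidableEq n] [Fintype m] [DecidableEq m]
  {r : ℕ} {G : Subgroup (GL (Fin r) ℂ)} {Γ : Type}

variable [Group Γ] (K : RotSys Γ)

include K in
theorem lflow_rep (hG : IsRed G) {y : Inv Γ G → ℂ} (hy : y ∈ MB G Γ) :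
    ∃ ρ : Γ →* G, ev ρ = y ∧ SSm (mat ρ) := by
  obtain ⟨ρ, hρ⟩ := ev_surj hG K.S K.gen hy
  obtain ⟨τ, h1, h2⟩ := g1 hG K.S K.symm K.gen ρ
  exact ⟨τ, h1.trans hρ, h2⟩

theorem sml_ev (hG : IsRed G) {ι : Type} (U : Ultrafilter ι) {y : ι → Inv Γ G → ℂ}
    {y₀ : Inv Γ G → ℂ} (hy : ∀ᶠ k in U, y k ∈ MB G Γ) (h : Tendsto y U (𝓝 y₀)) :
    ∃ N : ℝ, ∀ᶠ k in U, Sml K.S N (y k) := by
  have hex : ∀ k, ∃ ρ : Γ →* G, y k ∈ MB G Γ → ev ρ = y k ∧ SSm (mat ρ) := by
    intro k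
    by_cases hk : y k ∈ MB G Γ
    · obtain ⟨ρ, h⟩ := lflow_rep K hG hk
      exact ⟨ρ, fun _ => h⟩
    · exact ⟨1, fun h => absurd h hk⟩
  choose ρ hρ using hex
  have hb : ∀ γ, ∃ B : ℝ, ∀ᶠ k in U, ‖(mat (ρ k) γ).trace‖ ≤ B := by
    intro γ
    let f : Inv Γ G := ⟨_, trace_mem γ⟩
    have h1 : Tendsto (fun k => ‖y k f‖) U (𝓝 ‖y₀ f‖) := ((tendsto_pi_nhds.1 h) f).norm
    refine ⟨‖y₀ f‖ + 1, ?_⟩
    filter_upwards [hy, h1.eventually (Iio_mem_nhds (lt_add_one _))] with k hk hk'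
    have : y k f = (mat (ρ k) γ).trace := by rw [← (hρ k hk).1]; rfl
    rw [← this]
    exact le_of_lt hk'
  obtain ⟨N, hN⟩ := bdd_conj U K.S (fun k => mat (ρ k)) hb
  refine ⟨N, ?_⟩
  filter_upwards [hy, hN] with k hk ⟨u, u', huu, hs⟩
  obtain ⟨σ, hσ⟩ := exists_cj (mat (ρ k)) huu
  have hu : IsUnit u := IsUnit.of_mul_eq_one u' huu
  have hi : ∀ γ, u * σ γ = mat (ρ k) γ * u := by
    intro γ
    rw [hσ, ← Matrix.mul_assoc, ← Matrix.mul_assoc, huu, Matrix.one_mul]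
  refine ⟨ρ k, σ, u, (hρ k hk).1, (hρ k hk).2.cj hu hi, hu, hi, fun s hs' i j => ?_⟩
  rw [hσ]
  exact hs s hs' i j

theorem URel.rot {C t : ℝ} {τ τ' : Γ →* G} (h : URel K C t (mat τ) (mat τ')) : Rot K t τ τ' :=
  h.rel K

theorem lflow_exi (hG : IsRed G) (hr : 0 < r) {y : Inv Γ G → ℂ} (hy : y ∈ MB G Γ) :
    ∃ (τ : Γ →* G) (F : ℝ → Γ →* G), ev τ = y ∧ (AnR fun t => mat (F t)) ∧
      ∀ t, Rot K t τ (F t) ∧ Rot K (-t) (F t) τ := by
  obtain ⟨N, hN⟩ := sml_ev K hG (pure () : Ultrafilter Unit) (y := fun _ => y) (y₀ := y)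
    (Eventually.of_forall fun _ => hy) tendsto_const_nhds
  obtain ⟨C, hC⟩ := rot_exists K hG hr N
  obtain ⟨τ, F, h1, h2, h3⟩ := hC y hN.exists.choose_spec
  exact ⟨τ, F, h1, h2, fun t => ⟨(h3 t).1.rot K, (h3 t).2⟩⟩

theorem exists_Flow (hG : IsRed G) (hr : 0 < r) :
    ∃ Ψ : (Inv Γ G → ℂ) → ℝ → Inv Γ G → ℂ, Flow K Ψ := by
  have hex : ∀ y : Inv Γ G → ℂ, ∃ (τ : Γ →* G) (F : ℝ → Γ →* G), y ∈ MB G Γ →
      ev τ = y ∧ ∀ t, Rot K t τ (F t) := by
    intro y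
    by_cases hy : y ∈ MB G Γ
    · obtain ⟨τ, F, h1, -, h3⟩ := lflow_exi K hG hr hy
      exact ⟨τ, F, fun _ => ⟨h1, fun t => (h3 t).1⟩⟩
    · exact ⟨1, fun _ => 1, fun h => absurd h hy⟩
  choose τ F hF using hex
  have hrot : ∀ t (σ σ' : Γ →* G), Rot K t σ σ' → ev (F (ev σ) t) = ev σ' := fun t σ σ' h =>
    rot_wd K hG ((hF _ (ev_mem σ)).2 t) h (hF _ (ev_mem σ)).1
  refine ⟨fun y t => ev (F y t), hrot, fun y hy => lflow_exi K hG hr hy, ?_⟩
  rintro ⟨y₀, t₀⟩ ⟨hy₀, -⟩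
  refine tendsto_iff_ultrafilter _ _ _ |>.2 fun U hU => ?_
  have hU1 : (U : Filter _) ≤ 𝓝 (y₀, t₀) := hU.trans nhdsWithin_le_nhds
  have hmem : ∀ᶠ p in (U : Filter ((Inv Γ G → ℂ) × ℝ)), p.1 ∈ MB G Γ :=
    mem_of_superset (hU self_mem_nhdsWithin) fun p hp => hp.1
  have hy : Tendsto (fun p : (Inv Γ G → ℂ) × ℝ => p.1) U (𝓝 y₀) :=
    (continuous_fst.tendsto _).mono_left hU1
  have ht : Tendsto (fun p : (Inv Γ G → ℂ) × ℝ => p.2) U (𝓝 t₀) :=
    (continuous_snd.tendsto _).mono_left hU1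
  obtain ⟨N, hN⟩ := sml_ev K hG U hmem hy
  obtain ⟨C, hC⟩ := rot_exists K hG hr N
  have hex : ∀ p : (Inv Γ G → ℂ) × ℝ, ∃ σ σ' : Γ →* G, Sml K.S N p.1 →
      ev σ = p.1 ∧ URel K C p.2 (mat σ) (mat σ') := by
    intro p
    by_cases hp : Sml K.S N p.1
    · obtain ⟨σ, F', h1, -, h3⟩ := hC p.1 hp
      exact ⟨σ, F' p.2, fun _ => ⟨h1, (h3 p.2).1⟩⟩
    · exact ⟨1, 1, fun h => absurd h hp⟩
  choose σ σ' hσ using hex
  obtain ⟨σ₀, σ₀', h0, h1, h2⟩ := rot_lim K hG U (τ := σ) (τ' := σ')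
    (hN.mono fun p hp => (hσ p hp).2) ht
  have e0 : ev σ₀ = y₀ :=
    tendsto_nhds_unique (h1.tendsto_ev.congr' (hN.mono fun p hp => (hσ p hp).1)) hy
  have e1 : ev (F y₀ t₀) = ev σ₀' := by rw [← e0]; exact hrot _ _ _ h0
  show Tendsto (fun p : (Inv Γ G → ℂ) × ℝ => ev (F p.1 p.2)) U (𝓝 (ev (F y₀ t₀)))
  rw [e1]
  refine h2.tendsto_ev.congr' (hN.mono fun p hp => ?_)
  have := hrot _ _ _ ((hσ p hp).2.rot K)
  rw [(hσ p hp).1] at this
  exact this.symm

end Pool.Agent.PW.L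
end
end

-- part Pool.Agent.P.MP_65ad7c_ag.LDens
section

open Matrix Filter Topology Set
open scoped ComplexOrder Kronecker

noncomputable section
namespace Pool.Agent.PW.L

variable {n m : Type} [Fintype n] [DecidableEq n] [Fintype m] [DecidableEq m]
  {r : ℕ} {G : Subgroup (GL (Fin r) ℂ)} {Γ : Type}

variable [Group Γ]

theorem comp_dens (hG : IsRed G) (S : Finset Γ) (hS : Submonoid.closure (S : Set Γ) = ⊤)
    {P : Ideal (Inv Γ G)} (hP : P.IsPrime) {e : Inv Γ G} (he : e ∉ P) {y : Inv Γ G → ℂ}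
    (hy : y ∈ Comp P) : ∃ (U : Ultrafilter ℕ) (ρ : ℕ → Γ →* G),
      (∀ k, e.1 (ρ k) ≠ 0) ∧ Tendsto (fun k => ev (ρ k)) U (𝓝 y) := by
  obtain ⟨⟨φ, rfl⟩, hy⟩ := hy
  obtain ⟨ρ, h1, h2⟩ := exists_point hG S hS φ e fun o ho =>
    hy o ((hP.mem_or_mem (ho ▸ P.zero_mem)).resolve_right he)
  have := OO_finiteType (G := G) S hS
  have : IsReduced (OO G Γ) := isReduced_of_injective (OO G Γ).val Subtype.val_injective
  obtain ⟨U, ψ, h3, h4⟩ := dens_red (OO G Γ) ⟨e.1, (mem_Inv.1 e.2).1⟩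
    ((Pi.evalAlgHom ℂ (fun _ : Γ →* G => ℂ) ρ).comp (OO G Γ).val)
    fun o ho => h2 o.1 o.2 (congrArg Subtype.val ho)
  choose σ hσ using fun k => algHom_OO hG (ψ k)
  refine ⟨U, σ, fun k => by simpa only [hσ] using h3 k, tendsto_pi_nhds.2 fun f => ?_⟩
  have h5 := h4 ⟨f.1, (mem_Inv.1 f.2).1⟩
  simp only [hσ] at h5
  rw [← h1]
  exact h5

theorem ldens_zero {K : RotSys Γ} {Ψ : (Inv Γ G → ℂ) → ℝ → Inv Γ G → ℂ} (h : Flow K Ψ)
    {f e : Inv Γ G} (hfe : f * e = 0) {ρ : Γ →* G} (he : e.1 ρ ≠ 0) (t : ℝ) :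
    Ψ (ev ρ) t f = 0 := by
  obtain ⟨τ, F, h1, h2, h3⟩ := h.exi _ (ev_mem ρ)
  have h0 : F 0 = τ := by
    obtain ⟨C, hC⟩ := (h3 0).1
    exact mat_injective (MonoidHom.ext (K.zero hC))
  have a1 := analytic_OO h2 (mem_Inv.1 f.2).1
  have a2 := analytic_OO h2 (mem_Inv.1 e.2).1
  have h4 : e.1 (F 0) ≠ 0 := by
    rw [h0]
    have : e.1 τ = e.1 ρ := congrFun h1 e
    rwa [this]
  have h5 : (fun t => f.1 (F t)) =ᶠ[𝓝 0] 0 := by
    filter_upwards [(a2 0 (mem_univ _)).continuousAt.eventually_ne h4] with s hs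
    have : f.1 (F s) * e.1 (F s) = 0 := congrFun (congrArg Subtype.val hfe) (F s)
    exact (mul_eq_zero.1 this).resolve_right hs
  rw [← h1, h.rot t τ (F t) (h3 t).1]
  exact a1.eqOn_zero_of_preconnected_of_eventuallyEq_zero isPreconnected_univ (mem_univ 0) h5
    (mem_univ t)

/-- the flow preserves the components -/
theorem Flow.mem_comp (hG : IsRed G) {K : RotSys Γ} {Ψ : (Inv Γ G → ℂ) → ℝ → Inv Γ G → ℂ}
    (h : Flow K Ψ) {P : Ideal (Inv Γ G)} (hP : P ∈ minimalPrimes (Inv Γ G)) {y : Inv Γ G → ℂ}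
    (hy : y ∈ Comp P) (t : ℝ) : Ψ y t ∈ Comp P := by
  refine ⟨?_, fun f hf => ?_⟩
  · obtain ⟨τ, F, h1, -, h3⟩ := h.exi y hy.1
    rw [← h1, h.rot t τ (F t) (h3 t).1]
    exact ev_mem _
  · obtain ⟨e, he, hfe⟩ := exists_ann hP hf
    obtain ⟨U, ρ, h1, h2⟩ := comp_dens hG K.S K.gen hP.1.1 he hy
    have h3 : Tendsto (fun k => (ev (ρ k), t)) U (𝓝[MB G Γ ×ˢ univ] (y, t)) :=
      tendsto_nhdsWithin_iff.2 ⟨h2.prodMk_nhds tendsto_const_nhds,
        Eventually.of_forall fun k => ⟨ev_mem _, mem_univ _⟩⟩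
    have h4 := tendsto_pi_nhds.1 ((h.cont (y, t) ⟨hy.1, mem_univ _⟩).tendsto.comp h3) f
    refine tendsto_nhds_unique h4 ?_
    simp only [Function.comp_apply, ldens_zero h hfe (h1 _) t]
    exact tendsto_const_nhds

end Pool.Agent.PW.L
end
end

-- part Pool.Agent.P.MP_65ad7c_ag.LMain
section

open Matrix Filter Topology Set

noncomputable section
namespace Pool.Agent.PW

namespace L
variable {r : ℕ} {G : Subgroup (GL (Fin r) ℂ)} {Γ : Type} [Group Γ] {K : RotSys Γ}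
  {Ψ : (Inv Γ G → ℂ) → ℝ → Inv Γ G → ℂ}

theorem Flow.zero (h : Flow K Ψ) {y : Inv Γ G → ℂ} (hy : y ∈ MB G Γ) : Ψ y 0 = y := by
  obtain ⟨τ, F, rfl, -, h3⟩ := h.exi y hy
  rw [h.rot 0 _ _ (h3 0).1]
  obtain ⟨C, hC⟩ := (h3 0).1
  rw [mat_injective (MonoidHom.ext (K.zero hC))]

theorem Flow.neg (h : Flow K Ψ) {y : Inv Γ G → ℂ} (hy : y ∈ MB G Γ) (t : ℝ) :
    Ψ (Ψ y t) (-t) = y := by
  obtain ⟨τ, F, rfl, -, h3⟩ := h.exi y hy
  rw [h.rot t _ _ (h3 t).1, h.rot (-t) _ _ (h3 t).2]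

theorem Flow.isS (h : Flow K Ψ) {y : Inv Γ G → ℂ} (hy : y ∈ MB G Γ) : IsS y (Ψ y Real.pi) := by
  obtain ⟨τ, F, rfl, -, h3⟩ := h.exi y hy
  rw [h.rot _ _ _ (h3 Real.pi).1]
  obtain ⟨C, hC⟩ := (h3 Real.pi).1
  exact isS_ev (K.half hC)

theorem lmain_map (hG : IsRed G) (h : Flow K Ψ) {P : Ideal (Inv Γ G)}
    (hP : P ∈ minimalPrimes (Inv Γ G)) (c : ℝ) : ∃ Φ : C(Comp P × unitInterval, Comp P),
      ∀ y t, (Φ (y, t)).1 = Ψ y.1 (c * t.1) := by
  refine ⟨⟨fun p => ⟨Ψ p.1.1 (c * p.2.1), h.mem_comp hG hP p.1.2 _⟩, ?_⟩, fun _ _ => rfl⟩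
  refine Continuous.subtype_mk ?_ _
  have hc : Continuous fun p : Comp P × unitInterval => (p.1.1, c * p.2.1) := by fun_prop
  exact h.cont.comp_continuous hc fun p => ⟨p.1.2.1, trivial⟩

theorem lmain_sub {G : Subgroup (GL (Fin 0) ℂ)} (P : Ideal (Inv Γ G)) : Subsingleton (Comp P) := by
  refine ⟨fun y y' => Subtype.ext (funext fun f => ?_)⟩
  obtain ⟨φ, hφ⟩ := y.2.1
  obtain ⟨φ', hφ'⟩ := y'.2.1
  have hf : f = algebraMap ℂ (Inv Γ G) (f.1 1) := by
    refine Subtype.ext (funext fun ρ => ?_)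
    have : ρ = 1 := MonoidHom.ext fun γ => Subtype.ext (Units.ext (Subsingleton.elim _ _))
    rw [this]
    rfl
  rw [← hφ, ← hφ', hf, AlgHom.commutes, AlgHom.commutes]

end L

/-- N-algebra and assembly (captain h78). -/
theorem RotSys.exists_flow {Γ : Type} [Group Γ] (K : RotSys Γ) {r : ℕ}
    (G : Subgroup (GL (Fin r) ℂ)) (hG : IsRed G) (P : Ideal (Inv Γ G))
    (hP : P ∈ minimalPrimes _) :
    ∃ Φ Φ' : C(Comp P × unitInterval, Comp P), (∀ y, Φ (y, 0) = y) ∧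
      (∀ y t, Φ' (Φ (y, t), t) = y) ∧ (∀ y t, Φ (Φ' (y, t), t) = y) ∧
      (∀ y, Φ (Φ (y, 1), 1) = y) ∧ ∀ y y' : Comp P, IsS y.1 y'.1 → y' = Φ (y, 1) := by
  rcases Nat.eq_zero_or_pos r with rfl | hr
  · haveI := L.lmain_sub P
    exact ⟨ContinuousMap.fst, ContinuousMap.fst, fun _ => rfl, fun _ _ => rfl, fun _ _ => rfl,
      fun _ => rfl, fun _ _ _ => Subsingleton.elim _ _⟩
  obtain ⟨Ψ, h⟩ := L.exists_Flow K hG hr
  obtain ⟨Φ, hΦ⟩ := L.lmain_map hG h hP Real.pi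
  obtain ⟨Φ', hΦ'⟩ := L.lmain_map hG h hP (-Real.pi)
  have hS : ∀ y : Comp P, IsS y.1 (Φ (y, 1)).1 := by
    intro y
    rw [hΦ]
    simpa using h.isS y.2.1
  have hU : ∀ y y' : Comp P, IsS y.1 y'.1 → y' = Φ (y, 1) := fun y y' hy =>
    Subtype.ext (L.isS_unique hG hy (hS y))
  refine ⟨Φ, Φ', fun y => Subtype.ext ?_, fun y t => Subtype.ext ?_, fun y t => Subtype.ext ?_,
    fun y => (hU _ _ (L.isS_symm (hS y))).symm, hU⟩
  · rw [hΦ]
    simpa using h.zero y.2.1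
  · rw [hΦ', hΦ, neg_mul]
    exact h.neg y.2.1 _
  · rw [hΦ, hΦ', neg_mul]
    simpa using h.neg y.2.1 (-(Real.pi * t.1))

end Pool.Agent.PW
end
end

-- part Pool.Agent.P.MP_65ad7c_ag.NMain
section

open scoped Manifold ContDiff

noncomputable section
namespace Pool.Agent.PW

/-- the rotation system of a compact Kaehler manifold -/
theorem exists_rotSys (n : ℕ) (X : Type) [TopologicalSpace X] [T2Space X] [CompactSpace X]
    [ConnectedSpace X] [ChartedSpace (EC n) X] [IsManifold 𝓘(ℂ, EC n) ω X] (hK : IsKahler n X)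
    (x₀ : X) : Nonempty (RotSys (FundamentalGroup X x₀)) := by
  rcases Nat.eq_zero_or_pos n with rfl | hn
  · have := subsingleton_pi1 X x₀
    exact rotSys_of_subsingleton _
  · obtain ⟨A⟩ := exists_katlas n X hK x₀
    exact A.rotSys hn

/-- BLOCK N: the circle action gives an isotopy from the identity to `s`. -/
theorem exists_flow (n r : ℕ) (X : Type) [TopologicalSpace X] [T2Space X] [CompactSpace X]
    [ConnectedSpace X] [ChartedSpace (EC n) X] [IsManifold 𝓘(ℂ, EC n) ω X] (hK : IsKahler n X)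
    (x₀ : X) (G : Subgroup (GL (Fin r) ℂ)) (hG : IsRed G)
    (P : Ideal (Inv (FundamentalGroup X x₀) G)) (hP : P ∈ minimalPrimes _) :
    ∃ Φ Φ' : C(Comp P × unitInterval, Comp P), (∀ y, Φ (y, 0) = y) ∧
      (∀ y t, Φ' (Φ (y, t), t) = y) ∧ (∀ y t, Φ (Φ' (y, t), t) = y) ∧
      (∀ y, Φ (Φ (y, 1), 1) = y) ∧ ∀ y y' : Comp P, IsS y.1 y'.1 → y' = Φ (y, 1) := by
  obtain ⟨K⟩ := exists_rotSys n X hK x₀
  exact K.exists_flow G hG P hP

end Pool.Agent.PW
end
end
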