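import Pool.Agent.K.MP_65ad7c_ag.C0
import Mathlib
import Pool.Agent.Lib.SCV.Smooth
import Pool.Agent.K.MP_65ad7c_ag.C1

-- part Pool.Agent.P.MP_65ad7c_ag.Sec4
section

open MeasureTheory Set Filter Topology Metric Matrix
open scoped ComplexOrder ContDiff Matrix.Norms.Frobenius RealInnerProductSpace ENNReal
open Pool.Agent.Lib.Sob

noncomputable section
namespace Pool.Agent.PW

/-- SEC 4 (writer h23): the twistor line of a pluriharmonic metric. -/
theorem tw_of_ph {n r : ℕ} {Γ : Type} [Group Γ] (A : KAtlas n Γ) {ρ : Γ →* Mat r} {C : ℝ}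
    (hC : 1 ≤ C) {h : A.ι → EC n → Mat r} {D : A.ι → EC n → EC n →L[ℝ] Mat r}
    (hp : A.PH (ball 0 3) ρ C h D) : TWc Γ r fun γ => (ρ γ).trace := by
  obtain ⟨ρ', g, h1, h2, -⟩ := A.exists_rot (by norm_num) (by norm_num) hC hp
  obtain ⟨c, c', hb⟩ := A.rot_bound r (R := 3) (by norm_num) hC
  let p : ℂ → ℂ := fun w => (1 - Complex.cosh w) / 2
  let q : ℂ → ℂ := fun w => Complex.I / 2 * Complex.sinh w
  have hpq : ∀ w, p w ^ 2 - p w + q w ^ 2 = 0 := fun w => by
    have := Complex.cosh_sq w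
    simp only [p, q]
    linear_combination (4⁻¹ : ℂ) * this + (Complex.sinh w ^ 2 / 4) * Complex.I_sq
  have htr : ∀ {ρ1 ρ2 : Γ →* Mat r} {κ : Mat r} (γ : Γ), IsUnit κ.det → ρ1 γ * κ = κ * ρ2 γ →
      (ρ1 γ).trace = (ρ2 γ).trace := fun {ρ1 ρ2 κ} γ hκ he => by
    have : ρ1 γ = κ * ρ2 γ * κ⁻¹ := by rw [← he, Matrix.mul_nonsing_inv_cancel_right _ _ hκ]
    rw [this, Matrix.trace_mul_cycle, Matrix.nonsing_inv_mul _ hκ, Matrix.one_mul]
  have h03 : (0 : EC n) ∈ ball (0 : EC n) 3 := mem_ball_self (by norm_num)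
  refine ⟨fun w γ => (ρ' (p w) (q w) γ).trace, fun w => ⟨(ρ' (p w) (q w)).toHomUnits, fun γ => rfl⟩,
    fun γ => ?_, fun w => ?_, fun γ => ?_, ?_, fun γ => ?_⟩
  · exact (LinearMap.toContinuousLinearMap (Matrix.traceLinearMap (Fin r) ℂ ℂ)).differentiable.comp
      (h2 p q (by fun_prop) (by fun_prop) hpq γ)
  · have e1 : Complex.cosh (w + 2 * Real.pi * Complex.I) = Complex.cosh w := by
      rw [Complex.cosh_add, Complex.cosh_mul_I, Complex.sinh_mul_I]; simp
    have e2 : Complex.sinh (w + 2 * Real.pi * Complex.I) = Complex.sinh w := by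
      rw [Complex.sinh_add, Complex.cosh_mul_I, Complex.sinh_mul_I]; simp
    simp only [p, q, e1, e2]
  · refine ⟨3 * |c γ| + ‖(1 : Mat r)‖ ^ 2, fun w => ?_⟩
    have b1 := ((hb ρ _ h _ D _ _ hp (hpq w) (h1 _ _ (hpq w)).1 (h1 _ _ (hpq w)).2).1 γ).norm_le
    set N := ‖(1 : Mat r)‖
    set e := Real.exp |w.re|
    have he : 1 ≤ e := Real.one_le_exp (abs_nonneg _)
    have a1 : ‖Complex.exp w‖ ≤ e := by
      rw [Complex.norm_exp]; exact Real.exp_le_exp.2 (le_abs_self _)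
    have a2 : ‖Complex.exp (-w)‖ ≤ e := by
      rw [Complex.norm_exp]; exact Real.exp_le_exp.2 (neg_le_abs _)
    have a3 : ‖p w‖ ≤ e := by
      have : ‖Complex.cosh w‖ ≤ e := by
        rw [Complex.cosh, norm_div, Complex.norm_two]
        linarith [norm_add_le (Complex.exp w) (Complex.exp (-w))]
      simp only [p]
      rw [norm_div, Complex.norm_two]
      linarith [norm_sub_le (1 : ℂ) (Complex.cosh w), norm_one (α := ℂ)]
    have a4 : ‖q w‖ ≤ e := by
      have : ‖Complex.sinh w‖ ≤ e := by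
        rw [Complex.sinh, norm_div, Complex.norm_two]
        linarith [norm_sub_le (Complex.exp w) (Complex.exp (-w))]
      simp only [q]
      rw [norm_mul, norm_div, Complex.norm_two, Complex.norm_I]
      linarith
    have a5 : c γ * (1 + ‖p w‖ + ‖q w‖) ≤ 3 * |c γ| * e := by
      calc _ ≤ |c γ| * (1 + ‖p w‖ + ‖q w‖) := by gcongr; exact le_abs_self _
        _ ≤ |c γ| * (3 * e) := by gcongr; linarith
        _ = _ := by ring
    have a6 : N ^ 2 ≤ Real.exp (N ^ 2 * e) :=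
      (le_mul_of_one_le_right (sq_nonneg N) he).trans
        (by linarith [Real.add_one_le_exp (N ^ 2 * e)])
    calc ‖(ρ' (p w) (q w) γ).trace‖ = ‖(ρ' (p w) (q w) γ * 1).trace‖ := by rw [Matrix.mul_one]
      _ ≤ ‖ρ' (p w) (q w) γ‖ * N := abs_trace_mul_le _ _
      _ ≤ Real.exp (3 * |c γ| * e) * N * N := by
          gcongr
          exact b1.trans (by gcongr)
      _ = Real.exp (3 * |c γ| * e) * N ^ 2 := by ring
      _ ≤ Real.exp (3 * |c γ| * e) * Real.exp (N ^ 2 * e) := by gcongr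
      _ = _ := by rw [← Real.exp_add]; ring_nf
  · funext γ
    have e1 : p 0 = 0 := by simp [p]
    have e2 : q 0 = 0 := by simp [q]
    have hr := (h1 0 0 (by simp)).1
    simp only [e1, e2]
    exact htr γ (by simpa using (hr.fr A.a0).unit 0 h03)
      (hr.unique (by norm_num) (A.rot_zero _ ρ h D) γ)
  · have e1 : p (Real.pi * Complex.I) = 1 := by simp [p, Complex.cosh_mul_I]
    have e2 : q (Real.pi * Complex.I) = 0 := by simp [q, Complex.sinh_mul_I]
    have hr := (h1 1 0 (by simp)).1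
    have hr' := hp.rot_one isOpen_ball hC
    simp only [e1, e2]
    rw [htr γ (by
      rw [Matrix.det_mul]
      exact (Matrix.isUnit_nonsing_inv_det _ ((hr.fr A.a0).unit 0 h03)).mul
        ((hr'.fr A.a0).unit 0 h03)) (hr.unique (by norm_num) hr' γ)]
    exact Matrix.trace_conjTranspose _

end Pool.Agent.PW
end
end

-- part Pool.Agent.P.MP_65ad7c_ag.GAn
section

/-! One variable growth lemma: an entire periodic function whose square is dominated by the
Fubini-Study density of an entire periodic curve of exponential type is constant. -/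

namespace Pool.Agent.PW.G

open Complex MeasureTheory Filter Topology Set
open scoped InnerProductSpace Real

section Fourier

lemma In_indep {g : ℂ → ℂ} (hg : Differentiable ℂ g) (hp : ∀ w, g (w + 2 * π * I) = g w)
    (n : ℤ) (s : ℝ) :
    ∫ t in (0:ℝ)..2 * π, g (s + t * I) * exp (-(n * (s + t * I))) =
      ∫ t in (0:ℝ)..2 * π, g (t * I) * exp (-(n * (t * I))) := by
  have hF : Differentiable ℂ fun w => g w * exp (-(n * w)) := by fun_prop
  have h := integral_boundary_rect_eq_zero_of_differentiableOn (fun w => g w * exp (-(n * w)))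
    0 (s + (2 * π : ℝ) * I) hF.differentiableOn
  have e1 : (s + (2 * π : ℝ) * I : ℂ).re = s := by simp
  have e2 : (s + (2 * π : ℝ) * I : ℂ).im = 2 * π := by simp
  rw [e1, e2] at h
  have e3 : ∀ x : ℝ, g (x + ((2 * π : ℝ) : ℂ) * I) * exp (-(n * (x + ((2 * π : ℝ) : ℂ) * I))) =
      g (x + ((0 : ℂ).im : ℂ) * I) * exp (-(n * (x + ((0 : ℂ).im : ℂ) * I))) := by
    intro x
    have : exp (-(n * (x + ((2 * π : ℝ) : ℂ) * I))) = exp (-(n * x)) := by
      rw [Complex.exp_eq_exp_iff_exists_int]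
      exact ⟨-n, by push_cast; ring⟩
    rw [this]
    have h2 := hp x
    push_cast
    rw [h2]; simp
  simp only [e3, sub_self, zero_add] at h
  rw [sub_eq_zero] at h
  have h' := smul_right_injective ℂ I_ne_zero h
  simpa using h'

lemma In_zero {g : ℂ → ℂ} (hg : Differentiable ℂ g) (hp : ∀ w, g (w + 2 * π * I) = g w)
    {C : ℝ} (hb : ∀ K : ℝ, ∫ s in K..K + 1, ∫ t in (0:ℝ)..2 * π, ‖g (s + t * I)‖ ^ 2 ≤
      C * Real.exp |K|) {n : ℤ} (hn : n ≠ 0) :
    ∫ t in (0:ℝ)..2 * π, g (t * I) * exp (-(n * (t * I))) = 0 := by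
  set J := ∫ t in (0:ℝ)..2 * π, g (t * I) * exp (-(n * (t * I))) with hJ
  have hgc : Continuous g := hg.continuous
  have hh : Continuous fun s : ℝ => ∫ t in (0:ℝ)..2 * π, ‖g (s + t * I)‖ ^ 2 :=
    intervalIntegral.continuous_parametric_intervalIntegral_of_continuous' (by
      unfold Function.uncurry; fun_prop) _ _
  have hpi : (0:ℝ) ≤ 2 * π := by positivity
  have key : ∀ T : ℝ, 0 ≤ T → ‖J‖ ≤ Real.exp (-(T / 2)) * ((|C| * Real.exp 1 + 2 * π) / 2) := by
    intro T hT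
    obtain ⟨K, hK, hKs⟩ : ∃ K : ℝ, |K| ≤ T + 1 ∧ ∀ s ∈ Icc K (K + 1), -(n * s) ≤ -T := by
      rcases lt_or_gt_of_ne hn with h | h
      · refine ⟨-T - 1, by rw [abs_le]; constructor <;> linarith, fun s hs => ?_⟩
        have h1 : (n : ℝ) ≤ -1 := by exact_mod_cast (by omega : n ≤ -1)
        have := hs.2
        nlinarith
      · refine ⟨T, by rw [abs_le]; constructor <;> linarith, fun s hs => ?_⟩
        have h1 : (1 : ℝ) ≤ n := by exact_mod_cast (by omega : 1 ≤ n)
        have := hs.1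
        nlinarith
    set l := Real.exp (T / 2) with hl
    have hl0 : 0 < l := Real.exp_pos _
    have h1 : ∀ s ∈ Icc K (K + 1), ‖J‖ ≤ Real.exp (-T) *
        (((∫ t in (0:ℝ)..2 * π, ‖g (s + t * I)‖ ^ 2) / l + 2 * π * l) / 2) := by
      intro s hs
      rw [hJ, ← In_indep hg hp n s]
      refine (intervalIntegral.norm_integral_le_integral_norm hpi).trans ?_
      have e : Real.exp (-T) * (((∫ t in (0:ℝ)..2 * π, ‖g (s + t * I)‖ ^ 2) / l + 2 * π * l) / 2)
          = ∫ t in (0:ℝ)..2 * π, Real.exp (-T) * ((‖g (s + t * I)‖ ^ 2 / l + l) / 2) := by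
        rw [intervalIntegral.integral_const_mul, intervalIntegral.integral_div,
          intervalIntegral.integral_add, intervalIntegral.integral_div]
        · simp
        · exact Continuous.intervalIntegrable (by fun_prop) _ _
        · exact Continuous.intervalIntegrable (by fun_prop) _ _
      rw [e]
      refine intervalIntegral.integral_mono_on hpi
        (Continuous.intervalIntegrable (by fun_prop) _ _)
        (Continuous.intervalIntegrable (by fun_prop) _ _) fun t _ => ?_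
      rw [norm_mul, Complex.norm_exp, mul_comm]
      have e2 : (-(n * (s + t * I)) : ℂ).re = -(n * s) := by simp
      rw [e2]
      refine mul_le_mul (Real.exp_le_exp.2 (hKs s hs)) ?_ (norm_nonneg _) (Real.exp_pos _).le
      rw [le_div_iff₀ (by norm_num : (0:ℝ) < 2), div_add' _ _ _ hl0.ne', le_div_iff₀ hl0]
      nlinarith [sq_nonneg (‖g (s + t * I)‖ - l)]
    have h2 : ‖J‖ ≤ Real.exp (-T) * ((C * Real.exp |K| / l + 2 * π * l) / 2) := by
      have a1 : ∫ _ in K..K + 1, ‖J‖ ≤ ∫ s in K..K + 1, Real.exp (-T) *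
          (((∫ t in (0:ℝ)..2 * π, ‖g (s + t * I)‖ ^ 2) / l + 2 * π * l) / 2) :=
        intervalIntegral.integral_mono_on (by linarith)
          (Continuous.intervalIntegrable (by fun_prop) _ _)
          (Continuous.intervalIntegrable (by fun_prop) _ _) h1
      rw [intervalIntegral.integral_const_mul, intervalIntegral.integral_div,
        intervalIntegral.integral_add (Continuous.intervalIntegrable (by fun_prop) _ _)
          (Continuous.intervalIntegrable (by fun_prop) _ _), intervalIntegral.integral_div] at a1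
      simp only [intervalIntegral.integral_const, add_sub_cancel_left, smul_eq_mul, one_mul] at a1
      refine a1.trans ?_
      have := hb K
      gcongr
    refine h2.trans ?_
    have e3 : Real.exp (-T) = l⁻¹ * l⁻¹ := by
      rw [hl, ← Real.exp_neg, ← Real.exp_add]; congr 1; ring
    have e4 : Real.exp (-(T / 2)) = l⁻¹ := by rw [hl, Real.exp_neg]
    have e5 : C * Real.exp |K| ≤ |C| * Real.exp 1 * (l * l) := by
      have : Real.exp |K| ≤ Real.exp 1 * (l * l) := by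
        rw [hl, ← Real.exp_add, ← Real.exp_add]; exact Real.exp_le_exp.2 (by linarith)
      calc C * Real.exp |K| ≤ |C| * Real.exp |K| := by gcongr; exact le_abs_self C
        _ ≤ |C| * (Real.exp 1 * (l * l)) := by gcongr
        _ = _ := by ring
    rw [e3, e4]
    calc l⁻¹ * l⁻¹ * ((C * Real.exp |K| / l + 2 * π * l) / 2)
        ≤ l⁻¹ * l⁻¹ * ((|C| * Real.exp 1 * (l * l) / l + 2 * π * l) / 2) := by gcongr
      _ = _ := by field_simp
  have lim : Tendsto (fun T : ℝ => Real.exp (-(T / 2)) * ((|C| * Real.exp 1 + 2 * π) / 2))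
      atTop (𝓝 (0 * ((|C| * Real.exp 1 + 2 * π) / 2))) := by
    refine Tendsto.mul_const _ ?_
    exact Real.tendsto_exp_neg_atTop_nhds_zero.comp (tendsto_id.atTop_div_const (by norm_num))
  rw [zero_mul] at lim
  exact norm_le_zero_iff.1 (ge_of_tendsto lim ((eventually_ge_atTop 0).mono key))

lemma const_of_strip {g : ℂ → ℂ} (hg : Differentiable ℂ g) (hp : ∀ w, g (w + 2 * π * I) = g w)
    {C : ℝ} (hb : ∀ K : ℝ, ∫ s in K..K + 1, ∫ t in (0:ℝ)..2 * π, ‖g (s + t * I)‖ ^ 2 ≤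
      C * Real.exp |K|) (w : ℂ) : g w = g 0 := by
  have : Fact (0 < 2 * π) := ⟨by positivity⟩
  have hper : Function.Periodic (fun t : ℝ => g (t * I)) (2 * π) := fun t => by
    have := hp (t * I)
    simp only []
    rw [← this]; congr 1; push_cast; ring
  have hgc := hg.continuous
  let F : C(AddCircle (2 * π), ℂ) := ⟨hper.lift, by
    refine Continuous.quotient_lift ?_ _
    fun_prop⟩
  have hF : ∀ t : ℝ, F (t : AddCircle (2 * π)) = g (t * I) := fun t => hper.lift_coe t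
  have hc : ∀ n : ℤ, n ≠ 0 → fourierCoeff F n = 0 := by
    intro n hn
    rw [fourierCoeff_eq_intervalIntegral _ _ 0, zero_add]
    have : ∀ x : ℝ, @fourier (2 * π) (-n) x • F x = g (x * I) * exp (-(n * (x * I))) := by
      intro x
      rw [hF, fourier_coe_apply, smul_eq_mul, mul_comm]
      congr 2
      have : (π : ℂ) ≠ 0 := by exact_mod_cast Real.pi_ne_zero
      push_cast
      field_simp
    simp only [this]
    rw [In_zero hg hp hb hn, smul_zero]
  have hs : Summable (fourierCoeff F) :=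
    summable_of_ne_finset_zero (s := {0}) fun n hn => hc n (by simpa using hn)
  have hall : ∀ t : ℝ, g (t * I) = fourierCoeff F 0 := by
    intro t
    have h1 := has_pointwise_sum_fourier_series_of_summable hs (t : AddCircle (2 * π))
    have h2 : HasSum (fun i => fourierCoeff F i • fourier i (t : AddCircle (2 * π)))
        (fourierCoeff F 0 • fourier 0 (t : AddCircle (2 * π))) :=
      hasSum_single 0 fun i hi => by rw [hc i hi, zero_smul]
    rw [← hF, h1.unique h2]; simp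
  have h0 : g 0 = fourierCoeff F 0 := by simpa using hall 0
  have : g = fun _ => g 0 := by
    refine AnalyticOnNhd.eq_of_frequently_eq (z₀ := 0) (fun z _ => hg.analyticAt z)
      (fun z _ => analyticAt_const) ?_
    have ht : Tendsto (fun t : ℝ => (t : ℂ) * I) (𝓝[≠] 0) (𝓝[≠] 0) := by
      refine tendsto_nhdsWithin_iff.2 ⟨?_, ?_⟩
      · have : Continuous fun t : ℝ => (t : ℂ) * I := by fun_prop
        have := this.tendsto 0
        simp only [ofReal_zero, zero_mul] at this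
        exact this.mono_left nhdsWithin_le_nhds
      · filter_upwards [self_mem_nhdsWithin] with t ht
        simpa using ht
    exact ht.frequently (Eventually.of_forall fun t => by rw [hall, h0]).frequently
  exact congrFun this w

end Fourier

end Pool.Agent.PW.G
end

-- part Pool.Agent.P.MP_65ad7c_ag.GLap
section

/-! The Laplacian of `log (|f|^2 + ε)` on strips. -/

namespace Pool.Agent.PW.G

open Complex MeasureTheory Filter Topology Set
open scoped InnerProductSpace Real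

variable {W : Type*} [NormedAddCommGroup W] [InnerProductSpace ℂ W] [CompleteSpace W]

/-- Numerator of the Fubini-Study form. -/
noncomputable def QF (a b : W) : ℝ := ‖a‖ ^ 2 * ‖b‖ ^ 2 - ‖⟪a, b⟫_ℂ‖ ^ 2

noncomputable def V0 (f : ℂ → W) (ε : ℝ) (w : ℂ) : ℝ := Real.log (‖f w‖ ^ 2 + ε)

noncomputable def V1 (f : ℂ → W) (ε : ℝ) (u w : ℂ) : ℝ :=
  2 * (u * ⟪f w, deriv f w⟫_ℂ).re / (‖f w‖ ^ 2 + ε)

noncomputable def V2 (f : ℂ → W) (ε : ℝ) (u w : ℂ) : ℝ :=
  (2 * ‖u‖ ^ 2 * ‖deriv f w‖ ^ 2 + 2 * (u ^ 2 * ⟪f w, deriv (deriv f) w⟫_ℂ).re) / (‖f w‖ ^ 2 + ε)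
    - (2 * (u * ⟪f w, deriv f w⟫_ℂ).re) ^ 2 / (‖f w‖ ^ 2 + ε) ^ 2

omit [CompleteSpace W] in
lemma line_deriv {f : ℂ → W} (hf : Differentiable ℂ f) (w u : ℂ) (τ : ℝ) :
    HasDerivAt (fun τ : ℝ => f (w + τ * u)) (u • deriv f (w + τ * u)) τ := by
  have h1 : HasDerivAt (fun z : ℂ => w + z * u) u τ := by
    simpa using ((hasDerivAt_id (τ : ℂ)).mul_const u).const_add w
  have h2 := ((hf (w + τ * u)).hasDerivAt.hasFDerivAt.restrictScalars ℝ).comp_hasDerivAt τ
    h1.comp_ofReal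
  simpa [Function.comp_def] using h2

omit [CompleteSpace W] in
lemma normsq_deriv {f : ℂ → W} (hf : Differentiable ℂ f) (w u : ℂ) (τ : ℝ) :
    HasDerivAt (fun τ : ℝ => ‖f (w + τ * u)‖ ^ 2)
      (2 * (u * ⟪f (w + τ * u), deriv f (w + τ * u)⟫_ℂ).re) τ := by
  have h := (line_deriv hf w u τ).inner ℂ (line_deriv hf w u τ)
  have h2 := Complex.reCLM.hasFDerivAt.comp_hasDerivAt τ h
  refine (h2.congr_deriv ?_).congr_of_eventuallyEq (Eventually.of_forall fun x => ?_)
  · rw [← inner_conj_symm (u • deriv f (w + τ * u)), inner_smul_right]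
    simp only [reCLM_apply, add_re, conj_re]; ring
  · simp only [Function.comp, reCLM_apply]
    rw [← inner_self_eq_norm_sq (𝕜 := ℂ)]; rfl

omit [CompleteSpace W] in
lemma V0_deriv {f : ℂ → W} (hf : Differentiable ℂ f) {ε : ℝ} (hε : 0 < ε) (w u : ℂ) (τ : ℝ) :
    HasDerivAt (fun τ : ℝ => V0 f ε (w + τ * u)) (V1 f ε u (w + τ * u)) τ :=
  ((normsq_deriv hf w u τ).add_const ε).log (by positivity)

lemma V1_deriv {f : ℂ → W} (hf : Differentiable ℂ f) {ε : ℝ} (hε : 0 < ε) (w u : ℂ) (τ : ℝ) :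
    HasDerivAt (fun τ : ℝ => V1 f ε u (w + τ * u)) (V2 f ε u (w + τ * u)) τ := by
  have h := ((line_deriv hf w u τ).inner ℂ (line_deriv hf.deriv w u τ)).const_mul u
  have h2 := (Complex.reCLM.hasFDerivAt.comp_hasDerivAt τ h).const_mul 2
  have h3 := h2.div ((normsq_deriv hf w u τ).add_const ε) (by positivity)
  refine h3.congr_deriv ?_
  have hp : (‖f (w + τ * u)‖ ^ 2 + ε) ≠ 0 := by positivity
  have e : (u * (⟪f (w + τ * u), u • deriv (deriv f) (w + τ * u)⟫_ℂ +
      ⟪u • deriv f (w + τ * u), deriv f (w + τ * u)⟫_ℂ)).re =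
      ‖u‖ ^ 2 * ‖deriv f (w + τ * u)‖ ^ 2 +
        (u ^ 2 * ⟪f (w + τ * u), deriv (deriv f) (w + τ * u)⟫_ℂ).re := by
    rw [inner_smul_right, inner_smul_left, inner_self_eq_norm_sq_to_K, mul_add, add_re, add_comm,
      ← mul_assoc, ← mul_assoc, Complex.mul_conj', ← pow_two]
    congr 1
    norm_cast
    exact (congrArg re (ofReal_mul _ _).symm).trans (ofReal_re _)
  simp only [V2, Function.comp, reCLM_apply, e]
  field_simp

omit [CompleteSpace W] in
lemma lap_ge {f : ℂ → W} {ε : ℝ} (hε : 0 < ε) (w : ℂ) :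
    4 * QF (f w) (deriv f w) / (‖f w‖ ^ 2 + ε) ^ 2 ≤ V2 f ε 1 w + V2 f ε I w := by
  have hp : 0 < (‖f w‖ ^ 2 + ε) := by positivity
  set a := ⟪f w, deriv f w⟫_ℂ
  set b := ⟪f w, deriv (deriv f) w⟫_ℂ
  have e : V2 f ε 1 w + V2 f ε I w =
      (4 * ‖deriv f w‖ ^ 2 * (‖f w‖ ^ 2 + ε) - 4 * ‖a‖ ^ 2) / (‖f w‖ ^ 2 + ε) ^ 2 := by
    simp only [V2, norm_one, norm_I, one_pow, I_sq, one_mul, neg_mul, neg_re, I_mul_re]
    rw [Complex.sq_norm a, normSq_apply]
    field_simp
    ring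
  rw [e, QF]
  gcongr
  nlinarith [sq_nonneg ‖deriv f w‖]

lemma swap_int {P P' : ℂ → ℝ} (hP : Continuous P) (hP' : Continuous P')
    (h : ∀ (w : ℂ) (τ : ℝ), HasDerivAt (fun τ : ℝ => P (w + τ * 1)) (P' (w + τ * 1)) τ)
    (a b : ℝ) : (∫ t in (0:ℝ)..2 * π, P (b + t * I)) - ∫ t in (0:ℝ)..2 * π, P (a + t * I) =
      ∫ s in a..b, ∫ t in (0:ℝ)..2 * π, P' (s + t * I) := by
  rw [intervalIntegral_intervalIntegral_swap, ← intervalIntegral.integral_sub
    (Continuous.intervalIntegrable (by fun_prop) _ _)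
    (Continuous.intervalIntegrable (by fun_prop) _ _)]
  · refine intervalIntegral.integral_congr fun t _ => ?_
    have := intervalIntegral.integral_eq_sub_of_hasDerivAt (a := a) (b := b)
      (fun τ _ => h (t * I) τ) (Continuous.intervalIntegrable (by fun_prop) _ _)
    simp only [mul_one, add_comm ((t : ℂ) * I)] at this
    exact this.symm
  · have hc : Continuous (Function.uncurry fun s t : ℝ => P' (s + t * I)) := by
      unfold Function.uncurry; fun_prop
    exact (hc.continuousOn.integrableOn_compact (isCompact_uIcc.prod isCompact_uIcc)).mono_set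
      (prod_mono uIoc_subset_uIcc uIoc_subset_uIcc)

lemma convex_bound {m m1 m2 : ℝ → ℝ} (h1 : Continuous m1)
    (hp : ∀ s, 0 ≤ m2 s) (ha : ∀ a b, m b - m a = ∫ s in a..b, m1 s)
    (hb : ∀ a b, m1 b - m1 a = ∫ s in a..b, m2 s) {U D s0 : ℝ} (hU : 0 ≤ U)
    (hu : ∀ s, m s ≤ U * Real.exp |s|) (hD : -D ≤ m s0) (hs0 : |s0| ≤ 1) (K : ℝ) :
    ∫ s in K..K + 1, m2 s ≤ (2 * U * Real.exp 2 + 2 * |D| + 5 * (U * Real.exp 2 + |D|)) *
      Real.exp |K| := by
  have mono : Monotone m1 := fun a b hab => by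
    have := hb a b
    have h0 := intervalIntegral.integral_nonneg (μ := volume) hab fun s _ => hp s
    linarith
  have supp : ∀ x y, m1 y * (x - y) ≤ m x - m y := by
    intro x y
    rcases le_total y x with h | h
    · rw [ha]
      have := intervalIntegral.integral_mono_on (μ := volume) (f := fun _ => m1 y) h
        (by simp) (h1.intervalIntegrable _ _) fun s hs => mono hs.1
      simpa [mul_comm] using this
    · have := intervalIntegral.integral_mono_on (μ := volume) (g := fun _ => m1 y) h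
        (h1.intervalIntegrable _ _) (by simp) fun s hs => mono hs.2
      rw [← ha] at this
      simp only [intervalIntegral.integral_const, smul_eq_mul] at this
      linarith
  have ub : ∀ x y : ℝ, |x| ≤ y + 2 → m x ≤ U * Real.exp 2 * Real.exp y := by
    intro x y h
    refine (hu x).trans ?_
    rw [mul_assoc, ← Real.exp_add]
    gcongr
    linarith
  have hD' : -|D| ≤ m s0 := by linarith [le_abs_self D]
  set B := U * Real.exp 2 + |D| with hB
  have hB0 : 0 ≤ B := by positivity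
  have hs := abs_le.1 hs0
  have b1 : |m1 s0| ≤ B := by
    have u1 := ub (s0 + 1) 0 (by rw [abs_le]; constructor <;> linarith)
    have u2 := ub (s0 - 1) 0 (by rw [abs_le]; constructor <;> linarith)
    have := supp (s0 + 1) s0
    have := supp (s0 - 1) s0
    rw [Real.exp_zero, mul_one] at u1 u2
    rw [abs_le]; constructor <;> linarith
  have lb : ∀ x, -|D| - B * |x - s0| ≤ m x := by
    intro x
    have := supp x s0
    have h3 : |m1 s0 * (x - s0)| ≤ B * |x - s0| := by rw [abs_mul]; gcongr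
    linarith [neg_abs_le (m1 s0 * (x - s0))]
  have hK := le_abs_self K
  have hK' := neg_abs_le K
  have u1 := ub (K + 2) |K| (by rw [abs_le]; constructor <;> linarith)
  have u2 := ub (K - 1) |K| (by rw [abs_le]; constructor <;> linarith)
  have l1 := lb (K + 1)
  have l2 := lb K
  have s1 := supp (K + 2) (K + 1)
  have s2 := supp (K - 1) K
  have a1 : |K + 1 - s0| ≤ |K| + 2 := by rw [abs_le]; constructor <;> linarith
  have a2 : |K - s0| ≤ |K| + 1 := by rw [abs_le]; constructor <;> linarith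
  have e1 : |K| + 1 ≤ Real.exp |K| := Real.add_one_le_exp _
  have e0 : 0 ≤ |K| := abs_nonneg K
  have c1 : B * |K + 1 - s0| ≤ B * (2 * Real.exp |K|) := by gcongr; linarith
  have c2 : B * |K - s0| ≤ B * Real.exp |K| := by gcongr; linarith
  have c3 : |D| ≤ |D| * Real.exp |K| := le_mul_of_one_le_right (abs_nonneg D) (by linarith)
  have c4 : 0 ≤ B * Real.exp |K| := by positivity
  rw [← hb]
  nlinarith

lemma countable_zeros {f : ℂ → W} (hf : Differentiable ℂ f) {w0 : ℂ} (h0 : f w0 ≠ 0) :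
    {w | f w = 0}.Countable := by
  have h := AnalyticOnNhd.preimage_zero_mem_codiscrete (fun z _ => hf.analyticAt z) h0
  rw [mem_codiscrete'] at h
  have hd : DiscreteTopology ↥((f ⁻¹' {0}ᶜ)ᶜ) := h.2.to_subtype
  have : ((f ⁻¹' {0}ᶜ)ᶜ).Countable := by
    rw [← Set.countable_coe_iff]
    exact TopologicalSpace.separableSpace_iff_countable.1 inferInstance
  convert this using 1
  ext; simp

lemma strip_bound {f : ℂ → W} (hf : Differentiable ℂ f) (hp : ∀ w, f (w + 2 * π * I) = f w)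
    {C : ℝ} (hC : ∀ w, ‖f w‖ ≤ Real.exp (C * Real.exp |w.re|)) {w0 : ℂ} (h0 : f w0 ≠ 0) :
    ∃ B : ℝ, ∀ ε : ℝ, 0 < ε → ε ≤ 1 → ∀ K : ℝ, ∫ s in K..K + 1, ∫ t in (0:ℝ)..2 * π,
      4 * QF (f (s + t * I)) (deriv f (s + t * I)) / (‖f (s + t * I)‖ ^ 2 + ε) ^ 2 ≤
        B * Real.exp |K| := by
  have hpi : (0:ℝ) ≤ 2 * π := by positivity
  have c0 := hf.continuous
  have c1 := hf.deriv.continuous
  have c2 := hf.deriv.deriv.continuous
  obtain ⟨s0, hs0, hz⟩ : ∃ s0 : ℝ, |s0| ≤ 1 ∧ ∀ t : ℝ, f (s0 + t * I) ≠ 0 := by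
    have hc := (countable_zeros hf h0).image re
    obtain ⟨s0, h1, h2⟩ := (hc.dense_compl ℝ).inter_open_nonempty (Ioo (-1) 1) isOpen_Ioo
      ⟨0, by norm_num⟩
    refine ⟨s0, abs_le.2 ⟨h1.1.le, h1.2.le⟩, fun t ht => h2 ⟨_, ht, by simp⟩⟩
  obtain ⟨t0, -, ht0⟩ := (isCompact_Icc (a := (0:ℝ)) (b := 2 * π)).exists_isMinOn
    ⟨0, le_rfl, hpi⟩ (f := fun t : ℝ => ‖f (s0 + t * I)‖ ^ 2) (by fun_prop)
  set δ := ‖f (s0 + t0 * I)‖ ^ 2 with hδ
  have hδ0 : 0 < δ := pow_pos (norm_pos_iff.2 (hz t0)) 2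
  set U := 2 * π * (2 * |C| + 1) with hU
  set D := -(2 * π * Real.log δ) with hD
  refine ⟨2 * U * Real.exp 2 + 2 * |D| + 5 * (U * Real.exp 2 + |D|), fun ε hε hε1 K => ?_⟩
  have hne : ∀ w, ‖f w‖ ^ 2 + ε ≠ 0 := fun w => by positivity
  have hne2 : ∀ w, (‖f w‖ ^ 2 + ε) ^ 2 ≠ 0 := fun w => by positivity
  have k0 : Continuous (V0 f ε) := by unfold V0; fun_prop (disch := exact hne _)
  have k1 : ∀ u, Continuous (V1 f ε u) := fun u => by unfold V1; fun_prop (disch := exact hne _)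
  have k2 : ∀ u, Continuous (V2 f ε u) := fun u => by
    unfold V2; fun_prop (disch := first | exact hne _ | exact hne2 _)
  have kQ : Continuous fun w => 4 * QF (f w) (deriv f w) / (‖f w‖ ^ 2 + ε) ^ 2 := by
    unfold QF; fun_prop (disch := exact hne2 _)
  have hp1 : ∀ w, deriv f (w + 2 * π * I) = deriv f w := fun w => by
    rw [← deriv_comp_add_const f (2 * π * I) w]; simp only [hp]
  have hI : ∀ s : ℝ, ∫ t in (0:ℝ)..2 * π, V2 f ε I (s + t * I) = 0 := by
    intro s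
    have k := k2 I
    rw [intervalIntegral.integral_eq_sub_of_hasDerivAt (fun τ _ => V1_deriv hf hε s I τ)
      (Continuous.intervalIntegrable (by fun_prop) _ _)]
    push_cast
    simp only [V1, hp, hp1, zero_mul, add_zero, sub_self]
  have hge : ∀ s : ℝ, ∫ t in (0:ℝ)..2 * π,
      4 * QF (f (s + t * I)) (deriv f (s + t * I)) / (‖f (s + t * I)‖ ^ 2 + ε) ^ 2 ≤
      ∫ t in (0:ℝ)..2 * π, V2 f ε 1 (s + t * I) := by
    intro s
    have k := k2 I
    have k' := k2 1
    have e : ∫ t in (0:ℝ)..2 * π, V2 f ε 1 (s + t * I) =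
        ∫ t in (0:ℝ)..2 * π, (V2 f ε 1 (s + t * I) + V2 f ε I (s + t * I)) := by
      rw [intervalIntegral.integral_add (Continuous.intervalIntegrable (by fun_prop) _ _)
        (Continuous.intervalIntegrable (by fun_prop) _ _), hI, add_zero]
    rw [e]
    exact intervalIntegral.integral_mono_on hpi
      ((kQ.comp (f := fun t : ℝ => (s : ℂ) + t * I) (by fun_prop)).intervalIntegrable _ _)
      (Continuous.intervalIntegrable (by fun_prop) _ _) fun t _ => lap_ge hε _
  have hQ : ∀ a b : W, 0 ≤ QF a b := fun a b => by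
    have := norm_inner_le_norm (𝕜 := ℂ) a b
    rw [QF, ← mul_pow, sub_nonneg]
    gcongr
  have main := convex_bound (m := fun s : ℝ => ∫ t in (0:ℝ)..2 * π, V0 f ε (s + t * I))
    (m1 := fun s : ℝ => ∫ t in (0:ℝ)..2 * π, V1 f ε 1 (s + t * I))
    (m2 := fun s : ℝ => ∫ t in (0:ℝ)..2 * π, V2 f ε 1 (s + t * I))
    (intervalIntegral.continuous_parametric_intervalIntegral_of_continuous' (by
      have := k1 1
      unfold Function.uncurry; fun_prop) _ _)
    (fun s => le_trans (intervalIntegral.integral_nonneg hpi fun t _ => by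
      have := hQ (f (s + t * I)) (deriv f (s + t * I)); positivity) (hge s))
    (swap_int k0 (k1 1) fun w τ => V0_deriv hf hε w 1 τ)
    (swap_int (k1 1) (k2 1) fun w τ => V1_deriv hf hε w 1 τ) (U := U) (D := D) (s0 := s0)
    (by positivity) (fun s => by
      have : ∫ t in (0:ℝ)..2 * π, V0 f ε (s + t * I) ≤
          ∫ _ in (0:ℝ)..2 * π, (2 * |C| + 1) * Real.exp |s| := by
        refine intervalIntegral.integral_mono_on hpi
          (Continuous.intervalIntegrable (by fun_prop) _ _) (by simp) fun t _ => ?_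
        have h1 := hC (s + t * I)
        have e : (s + t * I : ℂ).re = s := by simp
        rw [e] at h1
        set x := |C| * Real.exp |s| with hx
        have hx0 : 0 ≤ x := by positivity
        have h2 : ‖f (s + t * I)‖ ≤ Real.exp x := h1.trans (Real.exp_le_exp.2 (by
          rw [hx]; gcongr; exact le_abs_self C))
        have h3 : ‖f (s + t * I)‖ ^ 2 ≤ Real.exp (2 * x) := by
          rw [two_mul, Real.exp_add, ← pow_two]; gcongr
        have h4 : 1 ≤ Real.exp (2 * x) := Real.one_le_exp (by positivity)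
        have h5 : 1 ≤ Real.exp |s| := Real.one_le_exp (abs_nonneg s)
        have h6 : ‖f (s + t * I)‖ ^ 2 + ε ≤ Real.exp (2 * x + 1) := by
          rw [Real.exp_add]
          have := Real.add_one_le_exp 1
          nlinarith
        rw [V0, Real.log_le_iff_le_exp (by positivity)]
        refine h6.trans (Real.exp_le_exp.2 ?_)
        rw [hx]; nlinarith
      rw [intervalIntegral.integral_const, sub_zero, smul_eq_mul, ← mul_assoc] at this
      exact this)
    (by
      have : ∫ _ in (0:ℝ)..2 * π, Real.log δ ≤ ∫ t in (0:ℝ)..2 * π, V0 f ε (s0 + t * I) := by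
        refine intervalIntegral.integral_mono_on hpi (by simp)
          (Continuous.intervalIntegrable (by fun_prop) _ _) fun t ht => ?_
        have := ht0 ht
        exact Real.log_le_log hδ0 (le_trans this (by linarith))
      simpa [hD] using this) hs0 K
  refine le_trans (intervalIntegral.integral_mono_on (by linarith) ?_ ?_ fun s _ => hge s) main
  · refine Continuous.intervalIntegrable
      (intervalIntegral.continuous_parametric_intervalIntegral_of_continuous' ?_ _ _) _ _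
    exact kQ.comp (f := fun p : ℝ × ℝ => (p.1 : ℂ) + p.2 * I) (by fun_prop)
  · refine Continuous.intervalIntegrable
      (intervalIntegral.continuous_parametric_intervalIntegral_of_continuous' ?_ _ _) _ _
    exact (k2 1).comp (f := fun p : ℝ × ℝ => (p.1 : ℂ) + p.2 * I) (by fun_prop)

/-- The growth lemma. -/
theorem growth_const {f : ℂ → W} (hf : Differentiable ℂ f) (hp : ∀ w, f (w + 2 * π * I) = f w)
    {C : ℝ} (hC : ∀ w, ‖f w‖ ≤ Real.exp (C * Real.exp |w.re|)) {w0 : ℂ} (h0 : f w0 ≠ 0)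
    {g : ℂ → ℂ} (hg : Differentiable ℂ g) (hgp : ∀ w, g (w + 2 * π * I) = g w) {c : ℝ}
    (hc : 0 < c) (hb : ∀ w, c * ‖f w‖ ^ 4 * ‖g w‖ ^ 2 ≤ QF (f w) (deriv f w)) (w : ℂ) :
    g w = g 0 := by
  obtain ⟨B, hB⟩ := strip_bound hf hp hC h0
  have hpi : (0:ℝ) ≤ 2 * π := by positivity
  have c0 := hf.continuous
  have c1 := hf.deriv.continuous
  have cg := hg.continuous
  refine const_of_strip hg hgp (C := B / (4 * c)) (fun K => ?_) w
  let F : ℝ → ℂ → ℝ := fun ε w => ‖g w‖ ^ 2 * (‖f w‖ ^ 2 / (‖f w‖ ^ 2 + ε)) ^ 2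
  have hF : ∀ ε, 0 < ε → Continuous (F ε) := fun ε hε => by
    have hne : ∀ w, ‖f w‖ ^ 2 + ε ≠ 0 := fun w => by positivity
    simp only [F]; fun_prop (disch := exact hne _)
  have hF0 : ∀ ε w, 0 ≤ F ε w := fun ε w => by simp only [F]; positivity
  have hF1 : ∀ ε, 0 < ε → ∀ w, F ε w ≤ ‖g w‖ ^ 2 := fun ε hε w => by
    refine mul_le_of_le_one_right (by positivity) (pow_le_one₀ (by positivity) ?_)
    rw [div_le_one (by positivity)]; linarith
  have hin : ∀ ε, 0 < ε → Continuous fun s : ℝ => ∫ t in (0:ℝ)..2 * π, F ε (s + t * I) :=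
    fun ε hε => by
      refine intervalIntegral.continuous_parametric_intervalIntegral_of_continuous' ?_ _ _
      exact (hF ε hε).comp (f := fun p : ℝ × ℝ => (p.1 : ℂ) + p.2 * I) (by fun_prop)
  have hh : Continuous fun s : ℝ => ∫ t in (0:ℝ)..2 * π, ‖g (s + t * I)‖ ^ 2 :=
    intervalIntegral.continuous_parametric_intervalIntegral_of_continuous' (by
      unfold Function.uncurry; fun_prop) _ _
  have lim1 : ∀ s : ℝ, Tendsto (fun ε => ∫ t in (0:ℝ)..2 * π, F ε (s + t * I)) (𝓝[>] 0)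
      (𝓝 (∫ t in (0:ℝ)..2 * π, ‖g (s + t * I)‖ ^ 2)) := by
    intro s
    refine intervalIntegral.tendsto_integral_filter_of_dominated_convergence
      (fun t => ‖g (s + t * I)‖ ^ 2) ?_ ?_ (Continuous.intervalIntegrable (by fun_prop) _ _) ?_
    · filter_upwards [self_mem_nhdsWithin] with ε hε
      exact ((hF ε hε).comp (f := fun t : ℝ => (s : ℂ) + t * I) (by fun_prop)).aestronglyMeasurable
    · filter_upwards [self_mem_nhdsWithin] with ε hε
      refine Eventually.of_forall fun t _ => ?_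
      rw [Real.norm_of_nonneg (hF0 _ _)]; exact hF1 ε hε _
    · have hn : volume (im '' {w | f w = 0}) = 0 :=
        ((countable_zeros hf h0).image im).measure_zero _
      filter_upwards [measure_eq_zero_iff_ae_notMem.1 hn] with t ht _
      have hne : ‖f (s + t * I)‖ ^ 2 ≠ 0 :=
        pow_ne_zero 2 (norm_ne_zero_iff.2 fun h => ht ⟨_, h, by simp⟩)
      have hc : ContinuousAt (fun ε : ℝ => F ε (s + t * I)) 0 := by
        simp only [F]; fun_prop (disch := simpa using hne)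
      have := hc.tendsto.mono_left (nhdsWithin_le_nhds (s := Ioi 0))
      simpa [F, div_self hne] using this
  have lim2 : Tendsto (fun ε => ∫ s in K..K + 1, ∫ t in (0:ℝ)..2 * π, F ε (s + t * I)) (𝓝[>] 0)
      (𝓝 (∫ s in K..K + 1, ∫ t in (0:ℝ)..2 * π, ‖g (s + t * I)‖ ^ 2)) := by
    refine intervalIntegral.tendsto_integral_filter_of_dominated_convergence
      (fun s => ∫ t in (0:ℝ)..2 * π, ‖g (s + t * I)‖ ^ 2) ?_ ?_ (hh.intervalIntegrable _ _)
      (Eventually.of_forall fun s _ => lim1 s)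
    · filter_upwards [self_mem_nhdsWithin] with ε hε
      exact (hin ε hε).aestronglyMeasurable
    · filter_upwards [self_mem_nhdsWithin] with ε hε
      refine Eventually.of_forall fun s _ => ?_
      rw [Real.norm_of_nonneg (intervalIntegral.integral_nonneg hpi fun t _ => hF0 _ _)]
      exact intervalIntegral.integral_mono_on hpi
        (((hF ε hε).comp (f := fun t : ℝ => (s : ℂ) + t * I) (by fun_prop)).intervalIntegrable _ _)
        (Continuous.intervalIntegrable (by fun_prop) _ _) fun t _ => hF1 ε hε _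
  refine le_of_tendsto lim2 ?_
  filter_upwards [Ioc_mem_nhdsGT (zero_lt_one' ℝ)] with ε hε
  have hε0 := hε.1
  have hne2 : ∀ w, (‖f w‖ ^ 2 + ε) ^ 2 ≠ 0 := fun w => by positivity
  have kQ : Continuous fun w => 4 * QF (f w) (deriv f w) / (‖f w‖ ^ 2 + ε) ^ 2 := by
    unfold QF; fun_prop (disch := exact hne2 _)
  rw [div_mul_eq_mul_div, le_div_iff₀' (by positivity), ← intervalIntegral.integral_const_mul]
  refine le_trans (intervalIntegral.integral_mono_on (by linarith)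
    (((hin ε hε0).const_mul _).intervalIntegrable _ _) ?_ fun s _ => ?_) (hB ε hε0 hε.2 K)
  · refine Continuous.intervalIntegrable
      (intervalIntegral.continuous_parametric_intervalIntegral_of_continuous' ?_ _ _) _ _
    exact kQ.comp (f := fun p : ℝ × ℝ => (p.1 : ℂ) + p.2 * I) (by fun_prop)
  · rw [← intervalIntegral.integral_const_mul]
    refine intervalIntegral.integral_mono_on hpi
      ((((hF ε hε0).comp (f := fun t : ℝ => (s : ℂ) + t * I)
        (by fun_prop)).const_mul _).intervalIntegrable _ _)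
      ((kQ.comp (f := fun t : ℝ => (s : ℂ) + t * I) (by fun_prop)).intervalIntegrable _ _)
      fun t _ => ?_
    have := hb (s + t * I)
    rw [le_div_iff₀ (by positivity)]
    simp only [F]
    have hne : ‖f (s + t * I)‖ ^ 2 + ε ≠ 0 := by positivity
    field_simp
    nlinarith

end Pool.Agent.PW.G
end

-- part Pool.Agent.P.MP_65ad7c_ag.GAb
section

/-! Local theory of an embedded complex torus and the growth theorem. -/

namespace Pool.Agent.PW.G

open Complex Filter Topology Set Metric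
open scoped InnerProductSpace Real

variable {E W : Type*} [NormedAddCommGroup E] [NormedSpace ℂ E] [FiniteDimensional ℂ E]
  [NormedAddCommGroup W] [InnerProductSpace ℂ W] [FiniteDimensional ℂ W]

/-- An embedded complex torus. -/
structure Ab (L : AddSubgroup E) (Θ : E → W) : Prop where
  hol : ContDiff ℂ 1 Θ
  ne : ∀ z, Θ z ≠ 0
  inj : ∀ z w, (∃ c : ℂ, Θ w = c • Θ z) ↔ w - z ∈ L
  imm : ∀ z v, (∃ c : ℂ, fderiv ℂ Θ z v = c • Θ z) → v = 0
  disc : ∃ ε > 0, ∀ l ∈ L, ‖l‖ < ε → l = 0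
  cpt : ∃ K, IsCompact K ∧ ∀ z, ∃ l ∈ L, z - l ∈ K

/-- The cone over a set of parameters. -/
def cone (Θ : E → W) (K : Set E) : Set W := {x | ∃ c : ℂ, ∃ z ∈ K, x = c • Θ z}

variable {L : AddSubgroup E} {Θ : E → W}

omit [FiniteDimensional ℂ E] [FiniteDimensional ℂ W] in
lemma Ab.closed_cpt (h : Ab L Θ) {K : Set E} (hK : IsCompact K) : IsClosed (cone Θ K) := by
  have hc := h.hol.continuous
  rcases K.eq_empty_or_nonempty with rfl | hne
  · have : cone Θ ∅ = ∅ := by ext; simp [cone]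
    rw [this]; exact isClosed_empty
  obtain ⟨z0, -, hz0⟩ := hK.exists_isMinOn hne (f := fun z => ‖Θ z‖) (by fun_prop)
  have hδ : 0 < ‖Θ z0‖ := norm_pos_iff.2 (h.ne z0)
  refine isClosed_of_closure_subset fun x hx => ?_
  have hS : IsCompact ((fun p : ℂ × E => p.1 • Θ p.2) ''
      (closedBall 0 ((‖x‖ + 1) / ‖Θ z0‖) ×ˢ K)) :=
    ((isCompact_closedBall _ _).prod hK).image (by fun_prop)
  have h1 := isOpen_ball.inter_closure ⟨mem_ball_self (x := x) zero_lt_one, hx⟩
  have h2 : ball x 1 ∩ cone Θ K ⊆ (fun p : ℂ × E => p.1 • Θ p.2) ''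
      (closedBall 0 ((‖x‖ + 1) / ‖Θ z0‖) ×ˢ K) := by
    rintro y ⟨hy, c, z, hz, rfl⟩
    refine ⟨(c, z), ⟨?_, hz⟩, rfl⟩
    rw [mem_closedBall_zero_iff, le_div_iff₀ hδ]
    have h3 : ‖c • Θ z‖ ≤ ‖x‖ + 1 := (norm_le_of_mem_closedBall (ball_subset_closedBall hy))
    rw [norm_smul] at h3
    exact le_trans (mul_le_mul_of_nonneg_left (hz0 hz) (norm_nonneg c)) h3
  obtain ⟨p, hp, rfl⟩ := hS.isClosed.closure_subset_iff.2 h2 h1
  exact ⟨p.1, p.2, hp.2, rfl⟩

omit [FiniteDimensional ℂ E] [FiniteDimensional ℂ W] in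
lemma Ab.shift (h : Ab L Θ) (z : E) {l : E} (hl : l ∈ L) : ∃ c : ℂ, Θ z = c • Θ (z - l) :=
  (h.inj _ _).2 (by simpa using hl)

omit [FiniteDimensional ℂ E] [FiniteDimensional ℂ W] in
lemma Ab.closed (h : Ab L Θ) : IsClosed (cone Θ univ) := by
  obtain ⟨K, hK, hL⟩ := h.cpt
  convert h.closed_cpt hK using 1
  refine Subset.antisymm ?_ ?_
  · rintro _ ⟨c, z, -, rfl⟩
    obtain ⟨l, hl, hz⟩ := hL z
    obtain ⟨c', hc'⟩ := h.shift z hl
    exact ⟨c * c', z - l, hz, by rw [hc', smul_smul]⟩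
  · rintro _ ⟨c, z, -, rfl⟩
    exact ⟨c, z, trivial, rfl⟩

omit [FiniteDimensional ℂ E] [FiniteDimensional ℂ W] in
lemma Ab.sub_mem (h : Ab L Θ) {c c' : ℂ} {z z' : E} (he : c • Θ z = c' • Θ z')
    (hne : c • Θ z ≠ 0) : z - z' ∈ L := by
  have hc : c ≠ 0 := fun h0 => hne (by simp [h0])
  exact (h.inj _ _).1 ⟨c⁻¹ * c', by rw [← smul_smul, ← he, smul_smul, inv_mul_cancel₀ hc, one_smul]⟩

omit [FiniteDimensional ℂ E] [FiniteDimensional ℂ W] in
lemma Ab.near (h : Ab L Θ) {u : ℂ} {z0 : E} (hu : u • Θ z0 ≠ 0) {U : Set E} (hU : IsOpen U)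
    (hz : z0 ∈ U) : ∀ᶠ x in 𝓝 (u • Θ z0), x ∈ cone Θ univ → x ∈ cone Θ U := by
  obtain ⟨K, hK, hL⟩ := h.cpt
  have hO : IsOpen (⋃ l ∈ L, (fun z => z - l) ⁻¹' U) :=
    isOpen_biUnion fun l _ => hU.preimage (by fun_prop)
  have hcl := h.closed_cpt (hK.diff hO)
  have hn : u • Θ z0 ∉ cone Θ (K \ ⋃ l ∈ L, (fun z => z - l) ⁻¹' U) := by
    rintro ⟨c, z, hz', he⟩
    refine hz'.2 (mem_iUnion₂.2 ⟨z - z0, ?_, by simpa using hz⟩)
    simpa using L.neg_mem (h.sub_mem he hu)
  filter_upwards [hcl.isOpen_compl.mem_nhds hn] with x hx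
  rintro ⟨c, z, -, rfl⟩
  obtain ⟨l, hl, hz⟩ := hL z
  obtain ⟨c', hc'⟩ := h.shift z hl
  by_cases hm : z - l ∈ ⋃ l ∈ L, (fun z => z - l) ⁻¹' U
  · obtain ⟨l', hl', hm⟩ := mem_iUnion₂.1 hm
    obtain ⟨c'', hc''⟩ := h.shift (z - l) hl'
    exact ⟨c * c' * c'', z - l - l', hm, by rw [hc', hc'', smul_smul, smul_smul]⟩
  · exact (hx ⟨c * c', z - l, ⟨hz, hm⟩, by rw [hc', smul_smul]⟩).elim

/-- A holomorphic local inverse of the embedding. -/
lemma Ab.lift (h : Ab L Θ) {u : ℂ} {z0 : E} (hu : u • Θ z0 ≠ 0) :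
    ∃ Φ : W → E, ContDiffAt ℂ 1 Φ (u • Θ z0) ∧
      ∀ᶠ x in 𝓝 (u • Θ z0), x ∈ cone Θ univ → x ≠ 0 → ∃ c : ℂ, x = c • Θ (Φ x) := by
  have : CompleteSpace E := FiniteDimensional.complete ℂ E
  have hu0 : u ≠ 0 := fun h0 => hu (by simp [h0])
  let T : (E × ℂ) →ₗ[ℂ] W := (fderiv ℂ Θ z0 : E →ₗ[ℂ] W).coprod (LinearMap.toSpanSingleton ℂ W (Θ z0))
  have hT : LinearMap.ker T = ⊥ := by
    rw [LinearMap.ker_eq_bot']
    rintro ⟨v, c⟩ hv
    have hv' : fderiv ℂ Θ z0 v + c • Θ z0 = 0 := hv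
    have h1 : v = 0 := h.imm z0 v ⟨-c, by rw [neg_smul]; exact eq_neg_of_add_eq_zero_left hv'⟩
    rw [h1, map_zero, zero_add, smul_eq_zero] at hv'
    rw [h1, hv'.resolve_right (h.ne z0)]; rfl
  obtain ⟨S, hS⟩ := T.exists_leftInverse_of_injective hT
  let P : W →L[ℂ] E := LinearMap.toContinuousLinearMap ((LinearMap.fst ℂ E ℂ).comp S)
  let ℓ : W →L[ℂ] ℂ := LinearMap.toContinuousLinearMap ((LinearMap.snd ℂ E ℂ).comp S)
  have s1 : ∀ v, S (fderiv ℂ Θ z0 v) = (v, 0) := fun v => by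
    have := LinearMap.congr_fun hS (v, 0)
    simpa [T] using this
  have s2 : S (Θ z0) = (0, 1) := by
    have := LinearMap.congr_fun hS (0, 1)
    simpa [T] using this
  have p1 : ∀ v, P (fderiv ℂ Θ z0 v) = v := fun v => congrArg Prod.fst (s1 v)
  have p2 : P (Θ z0) = 0 := congrArg Prod.fst s2
  have l2 : ℓ (Θ z0) = 1 := congrArg Prod.snd s2
  let pr : W → E := fun x => (ℓ x)⁻¹ • P x
  have hpr : ∀ x, ℓ x ≠ 0 → ContDiffAt ℂ 1 pr x := fun x hx =>
    (ℓ.contDiff.contDiffAt.inv hx).smul P.contDiff.contDiffAt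
  have hps : ∀ (c : ℂ) x, c ≠ 0 → pr (c • x) = pr x := fun c x hc => by
    simp only [pr, map_smul, smul_eq_mul, smul_smul]
    congr 1
    rw [mul_inv, mul_right_comm, inv_mul_cancel₀ hc, one_mul]
  have hψ : ContDiffAt ℂ 1 (pr ∘ Θ) z0 := (hpr _ (by rw [l2]; exact one_ne_zero)).comp _
    h.hol.contDiffAt
  have hd : HasFDerivAt Θ (fderiv ℂ Θ z0) z0 := (h.hol.differentiable one_ne_zero z0).hasFDerivAt
  have hψ' : HasFDerivAt (pr ∘ Θ) ((ContinuousLinearEquiv.refl ℂ E : E ≃L[ℂ] E) : E →L[ℂ] E) z0 := by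
    have a1 : DifferentiableAt ℂ (fun z => (ℓ (Θ z))⁻¹) z0 :=
      (ℓ.differentiableAt.comp z0 hd.differentiableAt).inv (by simp [l2])
    have a2 := a1.hasFDerivAt.smul (P.hasFDerivAt.comp z0 hd)
    refine a2.congr_fderiv ?_
    ext v
    simp [p1, p2, l2]
  have hinv := hψ.to_localInverse hψ' one_ne_zero
  have hleft := (hψ.hasStrictFDerivAt' hψ' one_ne_zero).eventually_left_inverse
  obtain ⟨U, hU, hUo, hz⟩ := _root_.eventually_nhds_iff.1 hleft
  refine ⟨hψ.localInverse hψ' one_ne_zero ∘ pr, ?_, ?_⟩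
  · refine ContDiffAt.comp _ ?_ (hpr _ (by simp [l2, hu0]))
    rw [hps _ _ hu0]; exact hinv
  · filter_upwards [h.near hu hUo hz] with x hx hc hx0
    obtain ⟨c, z, hzU, rfl⟩ := hx hc
    have hc0 : c ≠ 0 := fun h0 => hx0 (by simp [h0])
    refine ⟨c, ?_⟩
    have := hU z hzU
    simp only [Function.comp, hps _ _ hc0] at this ⊢
    rw [show hψ.localInverse hψ' one_ne_zero (pr (Θ z)) = z from this]

omit [FiniteDimensional ℂ W] in
lemma QF_pos {a b : W} (ha : a ≠ 0) (h : ¬ ∃ c : ℂ, b = c • a) : 0 < QF a b := by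
  have hb : b ≠ 0 := fun h0 => h ⟨0, by simp [h0]⟩
  have h1 : ‖⟪a, b⟫_ℂ‖ ≠ ‖a‖ * ‖b‖ := fun he => by
    obtain ⟨r, -, hr⟩ := (norm_inner_eq_norm_iff ha hb).1 he
    exact h ⟨r, hr⟩
  have h2 := lt_of_le_of_ne (norm_inner_le_norm (𝕜 := ℂ) a b) h1
  rw [QF, ← mul_pow, sub_pos]
  gcongr

omit [FiniteDimensional ℂ W] in
lemma QF_smul (e μ : ℂ) (a b : W) : QF (e • a) (e • b + μ • a) = ‖e‖ ^ 4 * QF a b := by
  have key : ∀ x y : W, (QF x y : ℂ) = ⟪x, x⟫_ℂ * ⟪y, y⟫_ℂ - ⟪x, y⟫_ℂ * ⟪y, x⟫_ℂ := fun x y => by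
    rw [QF, inner_self_eq_norm_sq_to_K, inner_self_eq_norm_sq_to_K, ← inner_conj_symm y x,
      Complex.mul_conj']
    push_cast; rfl
  have e1 : ((‖e‖ ^ 4 : ℝ) : ℂ) = (e * (starRingEnd ℂ) e) ^ 2 := by
    rw [Complex.mul_conj']; push_cast; ring
  apply ofReal_injective
  rw [ofReal_mul, key, key, e1]
  simp only [inner_add_left, inner_add_right, inner_smul_left, inner_smul_right]
  ring

omit [FiniteDimensional ℂ W] in
lemma Ab.fs (h : Ab L Θ) {K : Set E} (hK : IsCompact K) : ∃ c > 0, ∀ z ∈ K, ∀ v,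
    c * ‖Θ z‖ ^ 4 * ‖v‖ ^ 2 ≤ QF (Θ z) (fderiv ℂ Θ z v) := by
  have : ProperSpace E := FiniteDimensional.proper ℂ E
  have hc := h.hol.continuous
  have hc' := h.hol.continuous_fderiv one_ne_zero
  have hne : ∀ z, ‖Θ z‖ ^ 4 ≠ 0 := fun z => pow_ne_zero _ (norm_ne_zero_iff.2 (h.ne z))
  have hF : Continuous fun p : E × E => QF (Θ p.1) (fderiv ℂ Θ p.1 p.2) / ‖Θ p.1‖ ^ 4 := by
    unfold QF; fun_prop (disch := exact fun p => hne _)
  obtain ⟨c, hc0, hcb⟩ := (hK.prod (isCompact_sphere (0 : E) 1)).exists_forall_le' (a := 0)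
    hF.continuousOn fun p hp => by
      refine div_pos (QF_pos (h.ne _) fun he => ?_) (lt_of_le_of_ne (by positivity) (hne _).symm)
      have := hp.2
      rw [h.imm _ _ he] at this
      simp at this
  refine ⟨c, hc0, fun z hz v => ?_⟩
  rcases eq_or_ne v 0 with rfl | hv
  · simp [QF]
  have hv' : (‖v‖ : ℂ) ≠ 0 := by exact_mod_cast norm_ne_zero_iff.2 hv
  have h1 := hcb (z, (‖v‖ : ℂ)⁻¹ • v) ⟨hz, by simp [norm_smul, norm_ne_zero_iff.2 hv]⟩
  rw [le_div_iff₀ (lt_of_le_of_ne (by positivity) (hne _).symm)] at h1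
  have h2 : QF (Θ z) (fderiv ℂ Θ z v) =
      QF (Θ z) (fderiv ℂ Θ z ((‖v‖ : ℂ)⁻¹ • v)) * ‖v‖ ^ 2 := by
    have := norm_ne_zero_iff.2 hv
    simp only [QF, map_smul, inner_smul_right, norm_smul, norm_mul, norm_inv, Complex.norm_real,
      norm_norm]
    field_simp
  rw [h2]
  gcongr

end Pool.Agent.PW.G
end

-- part Pool.Agent.P.MP_65ad7c_ag.GGrow
section

/-! Entire periodic curves of exponential type in an embedded torus are one parameter cosets. -/

namespace Pool.Agent.PW.G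

open Complex Filter Topology Set Metric
open scoped InnerProductSpace Real

variable {E W : Type*} [NormedAddCommGroup E] [NormedSpace ℂ E] [FiniteDimensional ℂ E]
  [NormedAddCommGroup W] [InnerProductSpace ℂ W] [FiniteDimensional ℂ W]
  {L : AddSubgroup E} {Θ : E → W}

/-- A local holomorphic lift of a curve. -/
def IsLift (Θ : E → W) (f : ℂ → W) (w : ℂ) (G : ℂ → E) : Prop :=
  AnalyticAt ℂ G w ∧ ∀ᶠ x in 𝓝 w, ∃ c : ℂ, f x = c • Θ (G x)

omit [FiniteDimensional ℂ E] [FiniteDimensional ℂ W] in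
lemma Ab.disc_const (h : Ab L Θ) {X : Type*} [TopologicalSpace X] {D : X → E} {x0 : X}
    (hD : ContinuousAt D x0) : ∃ U ∈ 𝓝 x0, ∀ x ∈ U, ∀ y ∈ U, D x ∈ L → D y ∈ L → D x = D y := by
  obtain ⟨ε, hε, hd⟩ := h.disc
  refine ⟨_, hD (ball_mem_nhds (D x0) (half_pos hε)), fun x hx y hy h1 h2 => ?_⟩
  refine sub_eq_zero.1 (hd _ (L.sub_mem h1 h2) ?_)
  rw [← dist_eq_norm]
  have a1 : dist (D x) (D x0) < ε / 2 := hx
  have a2 : dist (D y) (D x0) < ε / 2 := hy
  linarith [dist_triangle_right (D x) (D y) (D x0)]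

lemma ev_ne {f : ℂ → W} (hf : Differentiable ℂ f) {w0 : ℂ} (h0 : f w0 ≠ 0) (w : ℂ) :
    ∀ᶠ x in 𝓝[≠] w, f x ≠ 0 := by
  have : CompleteSpace W := FiniteDimensional.complete ℂ W
  refine (hf.analyticAt w).eventually_eq_zero_or_eventually_ne_zero.resolve_left fun h => h0 ?_
  exact AnalyticOnNhd.eqOn_zero_of_preconnected_of_eventuallyEq_zero (U := univ)
    (fun z _ => hf.analyticAt z) isPreconnected_univ trivial h trivial

lemma Ab.exists_lift (h : Ab L Θ) {f : ℂ → W} (hf : Differentiable ℂ f)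
    (hc : ∀ w, f w ∈ cone Θ univ) {w0 : ℂ} (h0 : f w0 ≠ 0) (w : ℂ) : ∃ G, IsLift Θ f w G := by
  have : CompleteSpace W := FiniteDimensional.complete ℂ W
  have : CompleteSpace E := FiniteDimensional.complete ℂ E
  obtain ⟨n, F, hF, hF0, he⟩ := (hf.analyticAt w).exists_eventuallyEq_pow_smul_nonzero_iff.2
    fun hz => by
      obtain ⟨x, h1, h2⟩ := ((ev_ne hf h0 w).and (hz.filter_mono nhdsWithin_le_nhds)).exists
      exact h1 h2
  have h1 : ∀ᶠ x in 𝓝[≠] w, F x ∈ cone Θ univ := by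
    filter_upwards [he.filter_mono nhdsWithin_le_nhds, self_mem_nhdsWithin] with x hx hxw
    obtain ⟨c, z, -, hz⟩ := hc x
    have : (x - w) ^ n ≠ 0 := pow_ne_zero _ (sub_ne_zero.2 hxw)
    exact ⟨((x - w) ^ n)⁻¹ * c, z, trivial, by
      rw [← smul_smul, ← hz, hx, smul_smul, inv_mul_cancel₀ this, one_smul]⟩
  have h2 : F w ∈ cone Θ univ :=
    h.closed.mem_of_tendsto (hF.continuousAt.tendsto.mono_left nhdsWithin_le_nhds) h1
  have h3 : ∀ᶠ x in 𝓝 w, F x ∈ cone Θ univ := by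
    rw [← nhdsNE_sup_pure, eventually_sup]; exact ⟨h1, h2⟩
  obtain ⟨u, z0, -, hz0⟩ := h2
  obtain ⟨Φ, hΦ, hl⟩ := h.lift (hz0 ▸ hF0)
  rw [← hz0] at hΦ hl
  refine ⟨Φ ∘ F, ?_, ?_⟩
  · rw [analyticAt_iff_eventually_differentiableAt]
    filter_upwards [(hΦ.comp w hF.contDiffAt).eventually (by simp)] with x hx
    exact hx.differentiableAt one_ne_zero
  · filter_upwards [he, h3, hF.continuousAt.eventually hl, hF.continuousAt.eventually_ne hF0]
      with x e1 e2 e3 e4
    obtain ⟨c, hc⟩ := e3 e2 e4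
    exact ⟨(x - w) ^ n * c, by rw [e1, ← smul_smul]; exact congrArg _ hc⟩

omit [FiniteDimensional ℂ E] in
lemma Ab.lift_unique (h : Ab L Θ) {f : ℂ → W} (hf : Differentiable ℂ f) {w0 : ℂ} (h0 : f w0 ≠ 0)
    {w : ℂ} {G G' : ℂ → E} (hG : IsLift Θ f w G) (hG' : IsLift Θ f w G') :
    ∃ l ∈ L, ∀ᶠ x in 𝓝 w, G x = G' x + l := by
  have hD : ContinuousAt (fun x => G x - G' x) w := hG.1.continuousAt.sub hG'.1.continuousAt
  obtain ⟨U, hU, hu⟩ := h.disc_const hD
  have h1 : ∀ᶠ x in 𝓝[≠] w, x ∈ U ∧ G x - G' x ∈ L := by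
    filter_upwards [ev_ne hf h0 w, mem_nhdsWithin_of_mem_nhds hU,
      hG.2.filter_mono nhdsWithin_le_nhds, hG'.2.filter_mono nhdsWithin_le_nhds]
      with x e1 e2 ⟨c, e3⟩ ⟨c', e4⟩
    exact ⟨e2, h.sub_mem (e3.symm.trans e4) (e3 ▸ e1)⟩
  obtain ⟨y, hy, hyL⟩ := h1.exists
  have h2 : ∀ᶠ x in 𝓝[≠] w, G x - G' x = G y - G' y :=
    h1.mono fun x hx => hu x hx.1 y hy hx.2 hyL
  have h3 : G w - G' w = G y - G' y :=
    tendsto_nhds_unique (hD.tendsto.mono_left nhdsWithin_le_nhds) (tendsto_const_nhds.congr'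
      (h2.mono fun _ hx => hx.symm))
  refine ⟨_, hyL, ?_⟩
  rw [← nhdsNE_sup_pure, eventually_sup]
  exact ⟨h2.mono fun x hx => by rw [← hx]; abel, by rw [eventually_pure, ← h3]; abel⟩

omit [FiniteDimensional ℂ W] in
lemma IsLift.ev {f : ℂ → W} {w : ℂ} {G : ℂ → E} (hG : IsLift Θ f w G) :
    ∀ᶠ x in 𝓝 w, IsLift Θ f x G := by
  have : CompleteSpace E := FiniteDimensional.complete ℂ E
  exact hG.1.eventually_analyticAt.and hG.2.eventually_nhds

omit [FiniteDimensional ℂ W] in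
lemma Ab.fs_lift (h : Ab L Θ) : ∃ c > 0, ∀ (f : ℂ → W) (w : ℂ) (G : ℂ → E), IsLift Θ f w G →
    DifferentiableAt ℂ f w →
    c * ‖f w‖ ^ 4 * ‖deriv G w‖ ^ 2 ≤ QF (f w) (deriv f w) := by
  obtain ⟨K, hK, hL⟩ := h.cpt
  obtain ⟨c, hc, hb⟩ := h.fs hK
  refine ⟨c, hc, fun f w G hG hf => ?_⟩
  obtain ⟨l, hl, hz⟩ := hL (G w)
  set G' : ℂ → E := fun x => G x - l with hG'
  have hd : HasDerivAt G' (deriv G w) w := hG.1.differentiableAt.hasDerivAt.sub_const l
  have hT : HasDerivAt (fun x => Θ (G' x)) (fderiv ℂ Θ (G' w) (deriv G w)) w :=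
    (h.hol.differentiable one_ne_zero _).hasFDerivAt.comp_hasDerivAt w hd
  let ℓ : W →L[ℂ] ℂ := innerSL ℂ (Θ (G' w))
  have hℓ : ℓ (Θ (G' w)) ≠ 0 := by simpa [ℓ] using h.ne _
  let u : ℂ → ℂ := fun x => ℓ (f x) / ℓ (Θ (G' x))
  have hu : DifferentiableAt ℂ u w :=
    (ℓ.differentiableAt.comp w hf).div (ℓ.differentiableAt.comp w hT.differentiableAt) hℓ
  have he : f =ᶠ[𝓝 w] fun x => u x • Θ (G' x) := by
    filter_upwards [hG.2, (ℓ.continuous.continuousAt.comp hT.continuousAt).eventually_ne hℓ]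
      with x ⟨a, ha⟩ hx
    obtain ⟨b, hb⟩ := h.shift (G x) hl
    have e : f x = (a * b) • Θ (G' x) := by rw [ha, hb, smul_smul]
    have hx' : ℓ (Θ (G' x)) ≠ 0 := hx
    simp only [u]
    rw [e, map_smul, smul_eq_mul, mul_div_cancel_right₀ _ hx']
  rw [he.deriv_eq, he.self_of_nhds, (hu.hasDerivAt.fun_smul hT).deriv, QF_smul, norm_smul, mul_pow]
  have := mul_le_mul_of_nonneg_left (hb _ hz (deriv G w)) (pow_nonneg (norm_nonneg (u w)) 4)
  linarith

/-- The growth theorem. -/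
theorem Ab.growth (h : Ab L Θ) {f : ℂ → W} (hf : Differentiable ℂ f)
    (hp : ∀ w, f (w + 2 * π * I) = f w) {C : ℝ}
    (hC : ∀ w, ‖f w‖ ≤ Real.exp (C * Real.exp |w.re|)) (hc : ∀ w, f w ∈ cone Θ univ)
    {u0 u1 : ℂ} {z0 z1 : E} (e0 : f 0 = u0 • Θ z0) (n0 : f 0 ≠ 0) (e1 : f (π * I) = u1 • Θ z1)
    (n1 : f (π * I) ≠ 0) : (z1 - z0) + (z1 - z0) ∈ L := by
  have : CompleteSpace W := FiniteDimensional.complete ℂ W
  have : CompleteSpace E := FiniteDimensional.complete ℂ E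
  choose G hG using h.exists_lift hf hc n0
  set g : ℂ → E := fun w => deriv (G w) w with hg
  have hpt : ∀ w G', IsLift Θ f w G' → g w = deriv G' w := fun w G' hG' => by
    obtain ⟨l, -, hl⟩ := h.lift_unique hf n0 (hG w) hG'
    exact (EventuallyEq.deriv_eq hl).trans (deriv_add_const l)
  have hloc : ∀ w, g =ᶠ[𝓝 w] deriv (G w) := fun w => (hG w).ev.mono fun x hx => hpt x _ hx
  have hgd : Differentiable ℂ g := fun w =>
    (hG w).1.deriv.differentiableAt.congr_of_eventuallyEq (hloc w)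
  have hgp : ∀ w, g (w + 2 * π * I) = g w := fun w => by
    have hs : Tendsto (fun x : ℂ => x + 2 * π * I) (𝓝 w) (𝓝 (w + 2 * π * I)) :=
      (continuous_add_const _).tendsto w
    have : IsLift Θ f w fun x => G (w + 2 * π * I) (x + 2 * π * I) :=
      ⟨(hG _).1.comp_of_eq (by fun_prop) rfl,
        (hs.eventually (hG _).2).mono fun x hx => by rwa [hp] at hx⟩
    rw [hpt w _ this, deriv_comp_add_const]
  obtain ⟨c, hc0, hb⟩ := h.fs_lift
  have hconst : ∀ w, g w = g 0 := fun w => by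
    rw [SeparatingDual.eq_iff_forall_dual_eq (R := ℂ)]
    intro φ
    refine growth_const hf hp hC n0 (g := fun w => φ (g w)) (φ.differentiable.comp hgd)
      (fun w => by simp only [hgp]) (c := c / (‖φ‖ ^ 2 + 1)) (by positivity) (fun w => ?_) w
    refine le_trans ?_ (hb f w _ (hG w) (hf w))
    have h1 : ‖φ (g w)‖ ^ 2 ≤ (‖φ‖ ^ 2 + 1) * ‖g w‖ ^ 2 := by
      have := pow_le_pow_left₀ (norm_nonneg _) (φ.le_opNorm (g w)) 2
      nlinarith [sq_nonneg ‖g w‖]
    calc c / (‖φ‖ ^ 2 + 1) * ‖f w‖ ^ 4 * ‖φ (g w)‖ ^ 2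
        ≤ c / (‖φ‖ ^ 2 + 1) * ‖f w‖ ^ 4 * ((‖φ‖ ^ 2 + 1) * ‖g w‖ ^ 2) := by gcongr
      _ = c * ‖f w‖ ^ 4 * ‖g w‖ ^ 2 := by field_simp
  have hlc : IsLocallyConstant fun w : ℂ => G w w - w • g 0 - z0 ∈ L := by
    rw [IsLocallyConstant.iff_eventually_eq]
    intro w
    obtain ⟨r, hr, hball⟩ := Metric.eventually_nhds_iff_ball.1 (hG w).ev
    have hd : ∀ x ∈ ball w r, HasDerivAt (fun x => G w x - x • g 0) 0 x := fun x hx => by
      have a1 := (hball x hx).1.differentiableAt.hasDerivAt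
      rw [← hpt x _ (hball x hx), hconst] at a1
      simpa using a1.fun_sub ((hasDerivAt_id x).smul_const (g 0))
    filter_upwards [ball_mem_nhds w hr] with x hx
    have a2 := isOpen_ball.is_const_of_deriv_eq_zero (convex_ball w r).isPreconnected
      (fun x hx => (hd x hx).differentiableAt.differentiableWithinAt)
      (fun x hx => (hd x hx).deriv) hx (mem_ball_self hr)
    obtain ⟨l, hl, hl'⟩ := h.lift_unique hf n0 (hG x) (hball x hx)
    have a3 : G x x - x • g 0 - z0 = (G w w - w • g 0 - z0) + l := by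
      rw [hl'.self_of_nhds, ← a2]; abel
    rw [a3, eq_iff_iff]
    exact L.add_mem_cancel_right hl
  have hall : ∀ w (u : ℂ) z, f w = u • Θ z → f w ≠ 0 → z - w • g 0 - z0 ∈ L := by
    have key : ∀ w (u : ℂ) z, f w = u • Θ z → f w ≠ 0 → z - G w w ∈ L := fun w u z e n => by
      obtain ⟨a, ha⟩ := (hG w).2.self_of_nhds
      exact h.sub_mem (e.symm.trans ha) (e ▸ n)
    have b0 : G 0 0 - (0 : ℂ) • g 0 - z0 ∈ L := by
      simpa using L.neg_mem (key 0 u0 z0 e0 n0)
    intro w u z e n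
    have b1 : G w w - w • g 0 - z0 ∈ L := (hlc.apply_eq_of_preconnectedSpace w 0).mpr b0
    convert L.add_mem (key w u z e n) b1 using 1
    abel
  have a1 := hall _ _ _ e1 n1
  have a2 := hall (0 + 2 * π * I) u0 z0 (by rw [hp, e0]) (by rw [hp]; exact n0)
  convert L.sub_mem (L.add_mem a1 a1) a2 using 1
  rw [zero_add, mul_assoc, two_mul, add_smul]
  abel

end Pool.Agent.PW.G
end

-- part Pool.Agent.P.MP_65ad7c_ag.GBall
section

/-! An irreducible affine variety contains a Zariski dense holomorphic ball. -/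

namespace Pool.Agent.PW.G

open Filter Topology Set Polynomial
open scoped nonZeroDivisors IntermediateField

lemma prim {S A : Type*} [CommRing S] [IsDomain S] [CharZero S] [CommRing A] [IsDomain A]
    [Algebra S A] [FaithfulSMul S A] [Module.Finite S A] :
    ∃ θ : A, ∀ a : A, ∃ Δ : S, Δ ≠ 0 ∧ ∃ Q : S[X], algebraMap S A Δ * a = aeval θ Q := by
  let K := FractionRing S
  let F := FractionRing A
  let _ : Algebra K F := FractionRing.liftAlgebra S F
  have : IsScalarTower S K F := FractionRing.isScalarTower_liftAlgebra S F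
  have : IsLocalization (Algebra.algebraMapSubmonoid A S⁰) F := inferInstance
  have : FiniteDimensional K F := .of_isLocalization S A S⁰
  obtain ⟨θ', hθ⟩ := Field.exists_primitive_element K F
  obtain ⟨a, b, hb, rfl⟩ := IsFractionRing.div_surjective (A := A) θ'
  obtain ⟨r, hr, b', hb'⟩ := (Algebra.IsAlgebraic.isAlgebraic (R := S) b).exists_nonzero_dvd hb
  refine ⟨a * b', fun x => ?_⟩
  have h1 : algebraMap A F x ∈ (K⟮algebraMap A F a / algebraMap A F b⟯).toSubalgebra := by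
    rw [hθ]; trivial
  rw [IntermediateField.adjoin_simple_toSubalgebra_of_isAlgebraic (IsAlgebraic.of_finite K _),
    Algebra.adjoin_singleton_eq_range_aeval] at h1
  obtain ⟨p, hp⟩ := h1
  obtain ⟨c, hc, hQ⟩ := IsLocalization.integerNormalization_spec S⁰
    (p.comp (C (algebraMap S K r)⁻¹ * X))
  refine ⟨c, nonZeroDivisors.ne_zero hc,
    IsLocalization.integerNormalization S⁰ (p.comp (C (algebraMap S K r)⁻¹ * X)), ?_⟩
  apply IsFractionRing.injective A F
  have hbF : algebraMap A F b ≠ 0 := IsFractionRing.to_map_ne_zero_of_mem_nonZeroDivisors hb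
  have hrF : algebraMap S F r ≠ 0 := by
    rw [IsScalarTower.algebraMap_apply S K F, _root_.map_ne_zero]
    exact IsFractionRing.to_map_ne_zero_of_mem_nonZeroDivisors (mem_nonZeroDivisors_of_ne_zero hr)
  have e : (algebraMap S F r)⁻¹ * algebraMap A F (a * b') =
      algebraMap A F a / algebraMap A F b := by
    have e1 : algebraMap S F r = algebraMap A F b * algebraMap A F b' := by
      rw [IsScalarTower.algebraMap_apply S A F, hb', map_mul]
    have : algebraMap A F b' ≠ 0 := fun h => hrF (by rw [e1, h, mul_zero])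
    rw [e1, map_mul, mul_inv, div_eq_mul_inv]
    calc _ = algebraMap A F a * (algebraMap A F b)⁻¹ *
          ((algebraMap A F b')⁻¹ * algebraMap A F b') := by ring
      _ = _ := by rw [inv_mul_cancel₀ this, mul_one]
  rw [← aeval_algebraMap_apply, ← aeval_map_algebraMap K, hQ, ← algebraMap_smul K, map_smul,
    aeval_comp, map_mul, map_mul (aeval _), aeval_C, aeval_X, map_inv₀,
    ← IsScalarTower.algebraMap_apply, ← IsScalarTower.algebraMap_apply, e, Algebra.smul_def,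
    ← IsScalarTower.algebraMap_apply]
  exact congrArg _ hp.symm

/-- Evaluation of a polynomial in `(y, t)`. -/
noncomputable def ev {d : ℕ} (y : Fin d → ℂ) (t : ℂ) : (MvPolynomial (Fin d) ℂ)[X] →+* ℂ :=
  eval₂RingHom (MvPolynomial.eval y) t

lemma mv_contDiff {d : ℕ} (c : MvPolynomial (Fin d) ℂ) :
    ContDiff ℂ 1 fun y : Fin d → ℂ => MvPolynomial.eval y c :=
  contDiff_iff_contDiffAt.2 fun y => (AnalyticOnNhd.eval_mvPolynomial c y trivial).contDiffAt

lemma ev_contDiff {d : ℕ} (p : (MvPolynomial (Fin d) ℂ)[X]) :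
    ContDiff ℂ 1 fun u : (Fin d → ℂ) × ℂ => ev u.1 u.2 p := by
  induction p using Polynomial.induction_on' with
  | add p q hp hq => simpa only [map_add] using hp.add hq
  | monomial n a =>
    simp only [ev, coe_eval₂RingHom, eval₂_monomial]
    exact ((mv_contDiff a).comp contDiff_fst).mul (contDiff_snd.pow n)

lemma ev_deriv {d : ℕ} (p : (MvPolynomial (Fin d) ℂ)[X]) (y : Fin d → ℂ) (t : ℂ) :
    HasDerivAt (fun t => ev y t p) (ev y t (derivative p)) t := by
  simpa only [ev, coe_eval₂RingHom, eval₂_eq_eval_map, derivative_map] using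
    (p.map (MvPolynomial.eval y)).hasDerivAt t

lemma mv_zero {d : ℕ} {c : MvPolynomial (Fin d) ℂ} {y : Fin d → ℂ}
    (h : ∀ᶠ x in 𝓝 y, MvPolynomial.eval x c = 0) : c = 0 :=
  MvPolynomial.funext fun x => by
    simpa using (AnalyticOnNhd.eval_mvPolynomial c).eqOn_zero_of_preconnected_of_eventuallyEq_zero
      isPreconnected_univ (mem_univ y) h (mem_univ x)

lemma ev_comp {d : ℕ} (p : (MvPolynomial (Fin d) ℂ)[X]) {ψ : (Fin d → ℂ) → ℂ} {y : Fin d → ℂ}
    (h : DifferentiableAt ℂ ψ y) : DifferentiableAt ℂ (fun y => ev y (ψ y) p) y :=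
  DifferentiableAt.comp (g := fun u : (Fin d → ℂ) × ℂ => ev u.1 u.2 p) (f := fun y => (y, ψ y)) y
    ((ev_contDiff p).differentiable one_ne_zero _) (differentiableAt_id.prodMk h)

lemma exists_root_fun {d : ℕ} {m : (MvPolynomial (Fin d) ℂ)[X]} {y0 : Fin d → ℂ} {t0 : ℂ}
    (ht0 : ev y0 t0 m = 0) (hμ : ev y0 t0 (derivative m) ≠ 0) : ∃ ψ : (Fin d → ℂ) → ℂ,
      (∀ᶠ y in 𝓝 y0, DifferentiableAt ℂ ψ y) ∧ ∀ᶠ y in 𝓝 y0, ev y (ψ y) m = 0 := by
  have cdf := (ev_contDiff m).contDiffAt (x := (y0, t0))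
  have hinv : (fderiv ℂ (fun u : (Fin d → ℂ) × ℂ => ev u.1 u.2 m) (y0, t0) ∘L
      .inr ℂ (Fin d → ℂ) ℂ).IsInvertible := by
    refine ⟨ContinuousLinearEquiv.unitsEquivAut ℂ (Units.mk0 _ hμ), ?_⟩
    have h1 := (cdf.differentiableAt one_ne_zero).hasFDerivAt.comp t0
      (hasFDerivAt_prodMk_right y0 t0)
    rw [h1.unique (ev_deriv m y0 t0).hasFDerivAt]
    ext; simp
  exact ⟨_, ((cdf.contDiffAt_implicitFunction one_ne_zero hinv).eventually (by simp)).mono
    fun y hy => hy.differentiableAt one_ne_zero,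
    (cdf.eventually_apply_implicitFunction one_ne_zero hinv).mono fun y hy => hy.trans ht0⟩

theorem dense_ball {σ : Type} [Finite σ] (q : Ideal (MvPolynomial σ ℂ)) [hq : q.IsPrime] :
    ∃ (d : ℕ) (U : Set (Fin d → ℂ)) (v : (Fin d → ℂ) → σ → ℂ), IsOpen U ∧ U.Nonempty ∧
      (∀ i, ∀ y ∈ U, DifferentiableAt ℂ (fun y => v y i) y) ∧
      (∀ y ∈ U, ∀ F ∈ q, MvPolynomial.eval (v y) F = 0) ∧
      ∀ F, ∀ y ∈ U, (∀ᶠ x in 𝓝 y, MvPolynomial.eval (v x) F = 0) → F ∈ q := by
  classical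
  have := Fintype.ofFinite σ
  let A := MvPolynomial σ ℂ ⧸ q
  obtain ⟨d, g, ginj, gfin⟩ := exists_finite_inj_algHom_of_fg ℂ A
  let S := MvPolynomial (Fin d) ℂ
  let _ : Algebra S A := g.toRingHom.toAlgebra
  have : Module.Finite S A := gfin
  have : FaithfulSMul S A := (faithfulSMul_iff_algebraMap_injective S A).2 ginj
  obtain ⟨θ, hθ⟩ := prim (S := S) (A := A)
  have hint : IsIntegral S θ := Algebra.IsIntegral.isIntegral θ
  set m := minpoly S θ with hm
  have hdvd : ∀ (R : S[X]) y t, aeval θ R = 0 → ev y t m = 0 → ev y t R = 0 := by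
    intro R y t hR h0
    obtain ⟨T, rfl⟩ := minpoly.isIntegrallyClosed_dvd hint hR
    rw [map_mul, h0, zero_mul]
  have hnz : ∀ R : S[X], aeval θ R ≠ 0 → ∃ c : S, c ≠ 0 ∧ ∀ y t, ev y t m = 0 → ev y t R = 0 →
      MvPolynomial.eval y c = 0 := by
    intro R hR
    obtain ⟨p, hp0, hp⟩ := (Algebra.IsAlgebraic.isAlgebraic (R := S)
      (aeval θ R)).exists_nonzero_coeff_and_aeval_eq_zero (mem_nonZeroDivisors_of_ne_zero hR)
    refine ⟨p.coeff 0, hp0, fun y t h1 h2 => ?_⟩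
    have h3 := hdvd (p.comp R) y t (by rw [aeval_comp, hp]) h1
    simp only [ev, coe_eval₂RingHom] at h2 h3
    rwa [eval₂_comp, h2, eval₂_at_zero] at h3
  choose Δ hΔ Q hQ using fun i : σ => hθ (Ideal.Quotient.mk q (MvPolynomial.X i))
  let v : (Fin d → ℂ) → ℂ → σ → ℂ := fun y t i => ev y t (Q i) / MvPolynomial.eval y (Δ i)
  set D : S := ∏ i, Δ i with hD
  have hD0 : D ≠ 0 := Finset.prod_ne_zero_iff.2 fun i _ => hΔ i
  have hDi : ∀ y, MvPolynomial.eval y D ≠ 0 → ∀ i, MvPolynomial.eval y (Δ i) ≠ 0 := by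
    intro y hy i
    rw [hD, map_prod] at hy
    exact Finset.prod_ne_zero_iff.1 hy i (Finset.mem_univ i)
  have star : ∀ F : MvPolynomial σ ℂ, ∃ c : S, c ≠ 0 ∧ ∃ R : S[X],
      algebraMap S A c * Ideal.Quotient.mk q F = aeval θ R ∧ ∀ y t, MvPolynomial.eval y D ≠ 0 →
        MvPolynomial.eval y c ≠ 0 ∧
          ev y t R = MvPolynomial.eval y c * MvPolynomial.eval (v y t) F := by
    intro F
    induction F using MvPolynomial.induction_on with
    | C a =>
      refine ⟨1, one_ne_zero, C (MvPolynomial.C a), ?_, fun y t _ => ?_⟩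
      · rw [map_one, one_mul, aeval_C]
        exact (g.commutes a).symm
      · simp [ev]
    | add F G hF hG =>
      obtain ⟨c, hc, R, h1, h2⟩ := hF
      obtain ⟨c', hc', R', h1', h2'⟩ := hG
      refine ⟨c * c', mul_ne_zero hc hc', C c' * R + C c * R', ?_, fun y t hy => ?_⟩
      · simp only [map_add, map_mul, aeval_C, ← h1, ← h1']; ring
      · refine ⟨by rw [map_mul]; exact mul_ne_zero (h2 y t hy).1 (h2' y t hy).1, ?_⟩
        simp only [map_add, map_mul, (h2 y t hy).2, (h2' y t hy).2]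
        simp only [ev, coe_eval₂RingHom, eval₂_C]; ring
    | mul_X F i hF =>
      obtain ⟨c, hc, R, h1, h2⟩ := hF
      refine ⟨c * Δ i, mul_ne_zero hc (hΔ i), R * Q i, ?_, fun y t hy => ?_⟩
      · simp only [map_mul, ← h1, ← hQ]; ring
      · have := hDi y hy i
        refine ⟨by rw [map_mul]; exact mul_ne_zero (h2 y t hy).1 this, ?_⟩
        simp only [map_mul, (h2 y t hy).2, MvPolynomial.eval_X, v]
        field_simp
  have hmon : m.Monic := minpoly.monic hint
  have hdeg : 0 < m.natDegree := minpoly.natDegree_pos hint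
  have hder : aeval θ (derivative m) ≠ 0 := fun h => by
    have h1 := minpoly.isIntegrallyClosed_dvd hint h
    have h2 : derivative m = 0 :=
      eq_zero_of_dvd_of_natDegree_lt h1 (natDegree_derivative_lt hdeg.ne')
    exact hdeg.ne' (derivative_eq_zero.1 h2)
  obtain ⟨c', hc', hsep⟩ := hnz _ hder
  obtain ⟨y0, hy0⟩ : ∃ y0, MvPolynomial.eval y0 (D * c') ≠ 0 := by
    by_contra! h
    exact mul_ne_zero hD0 hc' (MvPolynomial.funext fun x => by rw [h, map_zero])
  rw [map_mul, mul_ne_zero_iff] at hy0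
  obtain ⟨t0, ht0⟩ : ∃ t0, ev y0 t0 m = 0 := by
    obtain ⟨t0, h⟩ := IsAlgClosed.exists_root (m.map (MvPolynomial.eval y0)) (by
      rw [hmon.degree_map]; exact (natDegree_pos_iff_degree_pos.1 hdeg).ne')
    exact ⟨t0, by simpa only [ev, coe_eval₂RingHom, eval₂_eq_eval_map] using h.eq_zero⟩
  have hμ : ev y0 t0 (derivative m) ≠ 0 := fun h => hy0.2 (hsep _ _ ht0 h)
  obtain ⟨ψ, e1, e2⟩ := exists_root_fun ht0 hμ
  have e3 := (MvPolynomial.continuous_eval D).continuousAt.eventually_ne hy0.1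
  obtain ⟨U, hU, hUo, hy⟩ := eventually_nhds_iff.1 (e1.and (e2.and e3))
  refine ⟨d, U, fun y => v y (ψ y), hUo, ⟨_, hy⟩, fun i y hy => ?_, fun y hy F hF => ?_,
    fun F y hy hF => ?_⟩
  · have a2 := ev_comp (Q i) (hU y hy).1
    have a3 : DifferentiableAt ℂ (fun y => MvPolynomial.eval y (Δ i)) y :=
      (mv_contDiff _).differentiable one_ne_zero _
    simp only [v, div_eq_mul_inv]
    exact a2.fun_mul (a3.fun_inv (hDi y (hU y hy).2.2 i))
  · obtain ⟨c, -, R, h1, h2⟩ := star F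
    rw [Ideal.Quotient.eq_zero_iff_mem.2 hF, mul_zero] at h1
    obtain ⟨h3, h4⟩ := h2 y (ψ y) (hU y hy).2.2
    rw [hdvd R y _ h1.symm (hU y hy).2.1] at h4
    exact (mul_eq_zero.1 h4.symm).resolve_left h3
  · by_contra hFq
    obtain ⟨c, hc, R, h1, h2⟩ := star F
    obtain ⟨e, he, h3⟩ := hnz R (h1 ▸ mul_ne_zero (fun h => hc (ginj (h.trans (map_zero g).symm)))
      (fun h => hFq (Ideal.Quotient.eq_zero_iff_mem.1 h)))
    refine he (mv_zero (y := y) ?_)
    filter_upwards [hF, hUo.mem_nhds hy] with x hx hxU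
    refine h3 x (ψ x) (hU x hxU).2.1 ?_
    rw [(h2 x (ψ x) (hU x hxU).2.2).2, hx, mul_zero]

end Pool.Agent.PW.G
end

-- part Pool.Agent.P.MP_65ad7c_ag.GEnd
section

/-! From twistor lines to the triviality of rational maps to embedded tori. -/

namespace Pool.Agent.PW.G

open Complex Filter Topology Set MvPolynomial
open scoped Real ComplexConjugate

/-- Exponential type in `exp |re w|`. -/
def ET {V : Type*} [NormedAddCommGroup V] (u : ℂ → V) : Prop :=
  ∃ C : ℝ, ∀ w, ‖u w‖ ≤ Real.exp (C * Real.exp |w.re|)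

lemma ET.const {V : Type*} [NormedAddCommGroup V] (a : V) : ET fun _ => a := by
  refine ⟨‖a‖, fun w => ?_⟩
  have h1 : 1 ≤ Real.exp |w.re| := Real.one_le_exp (abs_nonneg _)
  have h2 := Real.add_one_le_exp (‖a‖ * Real.exp |w.re|)
  nlinarith [norm_nonneg a]

lemma ET.add {V : Type*} [NormedAddCommGroup V] {u v : ℂ → V} (hu : ET u) (hv : ET v) :
    ET fun w => u w + v w := by
  obtain ⟨C, hC⟩ := hu
  obtain ⟨D, hD⟩ := hv
  refine ⟨|C| + |D| + 1, fun w => (norm_add_le _ _).trans ((add_le_add (hC w) (hD w)).trans ?_)⟩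
  set x := Real.exp |w.re|
  have h1 : 1 ≤ x := Real.one_le_exp (abs_nonneg _)
  have hC := le_abs_self C
  have hD := le_abs_self D
  have hC0 := abs_nonneg C
  have hD0 := abs_nonneg D
  have a1 : Real.exp (C * x) ≤ Real.exp ((|C| + |D|) * x) := by gcongr; linarith
  have a2 : Real.exp (D * x) ≤ Real.exp ((|C| + |D|) * x) := by gcongr; linarith
  have a3 : 2 ≤ Real.exp x := by linarith [Real.add_one_le_exp x]
  rw [add_mul _ 1, one_mul, Real.exp_add]
  nlinarith [Real.exp_pos ((|C| + |D|) * x)]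

lemma ET.smul {V : Type*} [NormedAddCommGroup V] [NormedSpace ℂ V] {u : ℂ → ℂ} {v : ℂ → V}
    (hu : ET u) (hv : ET v) : ET fun w => u w • v w := by
  obtain ⟨C, hC⟩ := hu
  obtain ⟨D, hD⟩ := hv
  refine ⟨C + D, fun w => ?_⟩
  rw [norm_smul, add_mul, Real.exp_add]
  exact mul_le_mul (hC w) (hD w) (norm_nonneg _) (Real.exp_pos _).le

lemma ET.sum {V κ : Type*} [NormedAddCommGroup V] (s : Finset κ) {u : κ → ℂ → V}
    (hu : ∀ i, ET (u i)) : ET fun w => ∑ i ∈ s, u i w := by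
  classical
  induction s using Finset.induction_on with
  | empty => simpa using ET.const (0 : V)
  | insert a s ha ih => simpa only [Finset.sum_insert ha] using (hu a).add ih

lemma ET.eval {ι : Type*} {F : ℂ → ι → ℂ} (hF : ∀ i, ET fun w => F w i) (p : MvPolynomial ι ℂ) :
    ET fun w => eval (F w) p := by
  induction p using MvPolynomial.induction_on with
  | C a => simpa using ET.const a
  | add p q hp hq => simpa only [map_add] using hp.add hq
  | mul_X p i hp => simpa only [map_mul, eval_X, smul_eq_mul] using hp.smul (hF i)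

lemma diff_eval {ι X : Type*} [NormedAddCommGroup X] [NormedSpace ℂ X] {F : X → ι → ℂ} {x : X}
    (hF : ∀ i, DifferentiableAt ℂ (fun w => F w i) x) (p : MvPolynomial ι ℂ) :
    DifferentiableAt ℂ (fun w => eval (F w) p) x := by
  induction p using MvPolynomial.induction_on with
  | C a => simp
  | add p q hp hq => simpa only [map_add] using hp.fun_add hq
  | mul_X p i hp => simpa only [map_mul, eval_X] using hp.fun_mul (hF i)

lemma anti_const {d : ℕ} {E : Type*} [NormedAddCommGroup E] [NormedSpace ℂ E]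
    {F G : (Fin d → ℂ) → E} {z1 : Fin d → ℂ} {k : E}
    (h : ∀ᶠ z in 𝓝 z1, DifferentiableAt ℂ F z ∧ DifferentiableAt ℂ G (star z) ∧
      F z = G (star z) - k) : ∀ᶠ z in 𝓝 z1, F z = F z1 := by
  obtain ⟨r, hr, hb⟩ := Metric.eventually_nhds_iff_ball.1 h.eventually_nhds
  filter_upwards [Metric.ball_mem_nhds z1 hr] with z hz
  refine Metric.isOpen_ball.is_const_of_fderiv_eq_zero (𝕜 := ℂ)
    (convex_ball z1 r).isPreconnected
    (fun x hx => (hb x hx).self_of_nhds.1.differentiableWithinAt) (fun x hx => ?_) hz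
    (Metric.mem_ball_self hr)
  obtain ⟨h1, h2, -⟩ := (hb x hx).self_of_nhds
  have a1 := h1.hasFDerivAt.restrictScalars ℝ
  have a2 := ((h2.hasFDerivAt.restrictScalars ℝ).comp x
    ((starL' ℝ : (Fin d → ℂ) ≃L[ℝ] (Fin d → ℂ)).hasFDerivAt (x := x))).sub_const k
  have a3 := a1.unique (a2.congr_of_eventuallyEq ((hb x hx).mono fun y hy => hy.2.2))
  have a4 : ∀ v, fderiv ℂ F x v = fderiv ℂ G (star x) (star v) := fun v =>
    ContinuousLinearMap.ext_iff.1 a3 v
  refine ContinuousLinearMap.ext fun v => ?_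
  have a5 := a4 (I • v)
  rw [star_smul, map_smul, map_smul, ← a4, star_def, conj_I, neg_smul, eq_neg_iff_add_eq_zero,
    ← add_smul, smul_eq_zero] at a5
  exact a5.resolve_left (by rw [← two_mul]; exact mul_ne_zero two_ne_zero I_ne_zero)

/-- The conjugate polynomial. -/
noncomputable def cj {ι : Type*} (τ : ι → ι) (p : MvPolynomial ι ℂ) : MvPolynomial ι ℂ :=
  map (starRingEnd ℂ) (rename τ p)

lemma eval_cj {ι : Type*} (τ : ι → ι) (p : MvPolynomial ι ℂ) (y : ι → ℂ) :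
    eval (fun i => conj (y (τ i))) p = conj (eval y (cj τ p)) := by
  induction p using MvPolynomial.induction_on with
  | C a => simp [cj]
  | add p q hp hq => simp only [cj, map_add] at *; rw [hp, hq]
  | mul_X p i hp => simp only [cj, map_mul, eval_X, rename_X, map_X] at *; rw [hp]

lemma cj_cj {ι : Type*} {τ : ι → ι} (hτ : ∀ i, τ (τ i) = i) (p : MvPolynomial ι ℂ) :
    cj τ (cj τ p) = p := by
  induction p using MvPolynomial.induction_on with
  | C a => simp [cj]
  | add p q hp hq => simp only [cj, map_add] at *; rw [hp, hq]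
  | mul_X p i hp => simp only [cj, map_mul, rename_X, map_X, hτ] at *; rw [hp]

lemma exists_sep {ι : Type*} {M : Set (ι → ℂ)} (hfin : (vanishingIdeal ℂ M).minimalPrimes.Finite)
    {P : Ideal (MvPolynomial ι ℂ)} (hP : P ∈ (vanishingIdeal ℂ M).minimalPrimes) :
    ∃ e ∉ P, ∀ p ∈ P, ∀ y ∈ M, eval y e * eval y p = 0 := by
  classical
  have hp := hP.isPrime
  have : ∀ Q ∈ (vanishingIdeal ℂ M).minimalPrimes, Q ≠ P → ∃ e ∈ Q, e ∉ P := fun Q hQ hne => by
    by_contra! h
    exact hne (le_antisymm h (hP.2 hQ.1 h))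
  choose! e he he' using this
  refine ⟨∏ Q ∈ hfin.toFinset.erase P, e Q, fun h => ?_, fun p hp y hy => ?_⟩
  · obtain ⟨Q, hQ, hQP⟩ := Ideal.IsPrime.prod_mem_iff.1 h
    rw [Finset.mem_erase, Finite.mem_toFinset] at hQ
    exact he' Q hQ.2 hQ.1 hQP
  · have : (∏ Q ∈ hfin.toFinset.erase P, e Q) * p ∈ (vanishingIdeal ℂ M).radical := by
      rw [← Ideal.sInf_minimalPrimes, Ideal.mem_sInf]
      intro Q hQ
      by_cases hQP : Q = P
      · rw [hQP]; exact P.mul_mem_left _ hp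
      · exact Q.mul_mem_right _ (Ideal.prod_mem Q (Finset.mem_erase.2 ⟨hQP, hfin.mem_toFinset.2 hQ⟩)
          (he Q hQ hQP))
    obtain ⟨n, hn⟩ := this
    have h1 : eval y (_ ^ n) = 0 := hn y hy
    rw [map_pow, map_mul] at h1
    exact (pow_eq_zero_iff'.1 h1).1

theorem alb_abstract {ι σ : Type} [Finite σ] {M : Set (ι → ℂ)} {τ : ι → ι} (hτ : ∀ i, τ (τ i) = i)
    (T : ι → MvPolynomial σ ℂ) (R : Set (σ → ℂ))
    (hR : ∀ x ∈ zeroLocus ℂ (vanishingIdeal ℂ R), (fun i => eval x (T i)) ∈ M)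
    (hM : ∀ y ∈ M, ∃ x ∈ R, y = fun i => eval x (T i))
    (htw : ∀ y ∈ M, ∃ F : ℂ → ι → ℂ, (∀ w, F w ∈ M) ∧ (∀ i, Differentiable ℂ fun w => F w i) ∧
      (∀ w, F (w + 2 * π * I) = F w) ∧ (∀ i, ET fun w => F w i) ∧ F 0 = y ∧
      ∀ i, F (π * I) i = conj (y (τ i)))
    {P : Ideal (MvPolynomial ι ℂ)} (hP : P ∈ (vanishingIdeal ℂ M).minimalPrimes)
    {E : Type*} [NormedAddCommGroup E] [NormedSpace ℂ E] [FiniteDimensional ℂ E] {m : ℕ}
    {L : AddSubgroup E} {Θ : E → Fin m → ℂ} (h : Ab L fun z => (WithLp.toLp 2 (Θ z)))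
    (f : Fin m → MvPolynomial ι ℂ)
    (hf : ∀ y ∈ M ∩ zeroLocus ℂ P, (fun i => eval y (f i)) ≠ 0 →
      ∃ (c : ℂ) (z : E), (fun i => eval y (f i)) = c • Θ z) {i0 : Fin m} (hi0 : f i0 ∉ P) :
    ∃ a, ∀ j k, C (Θ a k) * f j - C (Θ a j) * f k ∈ P := by
  classical
  have hp := hP.isPrime
  let t : MvPolynomial ι ℂ →+* MvPolynomial σ ℂ := (aeval T : _ →ₐ[ℂ] _)
  have ht : ∀ x p, eval x (t p) = eval (fun i => eval x (T i)) p := fun x p => by
    induction p using MvPolynomial.induction_on with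
    | C a => simp [t]
    | add p q hp hq => simp only [map_add, hp, hq]
    | mul_X p i hp => simp only [map_mul, hp]; simp [t]
  have hI : vanishingIdeal ℂ M = (vanishingIdeal ℂ R).comap t := by
    ext p
    refine ⟨fun hp x hx => ?_, fun hp y hy => ?_⟩
    · exact (ht x p).trans (hp _ (hR x (zeroLocus_vanishingIdeal_le R hx)))
    · obtain ⟨x, hx, rfl⟩ := hM y hy
      exact (ht x p).symm.trans (hp x hx)
  have hfin : (vanishingIdeal ℂ M).minimalPrimes.Finite := by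
    rw [hI]
    exact ((Ideal.finite_minimalPrimes_of_isNoetherianRing _ _).image _).subset
      (Ideal.minimalPrimes_comap_subset t _)
  obtain ⟨e, heP, he⟩ := exists_sep hfin hP
  obtain ⟨q, hq, hRq, hqP⟩ := Ideal.exists_comap_eq_of_mem_minimalPrimes t P (hI ▸ hP)
  let φ : (ι → ℂ) → EuclideanSpace ℂ (Fin m) := fun y => WithLp.toLp 2 fun i => eval y (f i)
  have hφ : ∀ y ∈ M ∩ zeroLocus ℂ P, φ y ∈ cone (fun z => (WithLp.toLp 2 (Θ z))) univ := by
    intro y hy
    by_cases h0 : (fun i => eval y (f i)) = 0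
    · exact ⟨0, 0, trivial, by simp [φ, h0]⟩
    · obtain ⟨c, z, hz⟩ := hf y hy h0
      exact ⟨c, z, trivial, by simp [φ, hz]⟩
  have hφ0 : ∀ y, eval y (f i0) ≠ 0 → φ y ≠ 0 := fun y hy h0 => hy (by
    simpa [φ] using congrArg (fun x : EuclideanSpace ℂ (Fin m) => x i0) h0)
  have main : ∀ y ∈ M, eval y e ≠ 0 → y ∈ M ∩ zeroLocus ℂ P ∧
      (fun i => conj (y (τ i))) ∈ M ∩ zeroLocus ℂ P ∧ ∀ (u0 u1 : ℂ) (z0 z1 : E),
        φ y = u0 • WithLp.toLp 2 (Θ z0) → φ y ≠ 0 →
        φ (fun i => conj (y (τ i))) = u1 • WithLp.toLp 2 (Θ z1) →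
        φ (fun i => conj (y (τ i))) ≠ 0 → (z1 - z0) + (z1 - z0) ∈ L := by
    intro y hy hey
    obtain ⟨F, a1, a2, a3, a4, a5, a6⟩ := htw y hy
    have hd : ∀ p, Differentiable ℂ fun w => eval (F w) p := fun p w =>
      diff_eval (fun i => a2 i w) p
    have hZ : ∀ w, F w ∈ M ∩ zeroLocus ℂ P := fun w => ⟨a1 w, fun p hp => by
      have e1 : ∀ᶠ x in 𝓝 (0 : ℂ), eval (F x) e ≠ 0 :=
        (hd e).continuous.continuousAt.eventually_ne (by rwa [a5])
      exact AnalyticOnNhd.eqOn_zero_of_preconnected_of_eventuallyEq_zero (U := univ)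
        (fun z _ => (hd p).analyticAt z) isPreconnected_univ trivial
        (e1.mono fun x hx => (mul_eq_zero.1 (he p hp _ (a1 x))).resolve_left hx) (mem_univ w)⟩
    have a7 : F (π * I) = fun i => conj (y (τ i)) := funext a6
    refine ⟨a5 ▸ hZ 0, a7 ▸ hZ _, fun u0 u1 z0 z1 e0 n0 e1 n1 => ?_⟩
    have hs : ∀ w, φ (F w) = ∑ i, eval (F w) (f i) • EuclideanSpace.single i (1 : ℂ) := fun w => by
      ext j; simp [φ, Pi.single_apply]
    obtain ⟨C, hC⟩ : ET fun w => φ (F w) := by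
      simp only [hs]
      exact ET.sum _ fun i => (ET.eval a4 _).smul (ET.const _)
    refine h.growth (f := fun w => φ (F w)) ?_ (fun w => by rw [a3]) hC (fun w => hφ _ (hZ w))
      (by rw [a5]; exact e0) (by rwa [a5]) (by rw [a7]; exact e1) (by rwa [a7])
    simp only [hs]
    exact Differentiable.fun_sum fun i _ => (hd _).smul_const _
  have hcj : ∀ p ∈ P, cj τ p ∈ P := fun p hp' => by
    refine (hp.mem_or_mem (hP.1.2 (show e * cj τ p ∈ _ from fun y hy => ?_))).resolve_left heP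
    change eval y _ = 0
    rw [map_mul]
    by_cases hey : eval y e = 0
    · rw [hey, zero_mul]
    · have : eval _ p = 0 := (main y hy hey).2.1.2 p hp'
      rw [eval_cj, map_eq_zero] at this
      rw [this, mul_zero]
  have hi0' : cj τ (f i0) ∉ P := fun h => hi0 (cj_cj hτ (f i0) ▸ hcj _ h)
  obtain ⟨d, U, v, hU, ⟨y0, hy0⟩, hv, hvq, hden⟩ := dense_ball q
  let Y : (Fin d → ℂ) → ι → ℂ := fun z i => eval (v z) (T i)
  have hYM : ∀ z ∈ U, Y z ∈ M := fun z hz => hR _ fun p hp => hvq z hz p (hRq hp)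
  have hYd : ∀ z ∈ U, ∀ p, DifferentiableAt ℂ (fun z => eval (Y z) p) z := fun z hz p =>
    diff_eval (fun i => diff_eval (fun j => hv j z hz) (T i)) p
  have hden' : ∀ p, ∀ z ∈ U, (∀ᶠ x in 𝓝 z, eval (Y x) p = 0) → p ∈ P := fun p z hz h0 => by
    rw [← hqP]
    exact hden _ z hz (h0.mono fun x hx => (ht _ _).trans hx)
  obtain ⟨z1, hz1, hn⟩ : ∃ z1 ∈ U, eval (Y z1) (e * (f i0 * cj τ (f i0))) ≠ 0 := by
    by_contra! h0
    rcases hp.mem_or_mem (hden' _ y0 hy0 (mem_of_superset (hU.mem_nhds hy0) h0)) with h1 | h1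
    · exact heP h1
    · exact (hp.mem_or_mem h1).elim hi0 hi0'
  have hev : ∀ᶠ z in 𝓝 z1, z ∈ U ∧ eval (Y z) e ≠ 0 ∧ φ (Y z) ≠ 0 ∧
      φ (fun i => conj (Y z (τ i))) ≠ 0 := by
    filter_upwards [hU.mem_nhds hz1, (hYd z1 hz1 _).continuousAt.eventually_ne hn] with z hz hne
    simp only [map_mul, mul_ne_zero_iff] at hne
    exact ⟨hz, hne.1, hφ0 _ hne.2.1, hφ0 _ (by rw [eval_cj]; simpa using hne.2.2)⟩
  let a : (Fin d → ℂ) → EuclideanSpace ℂ (Fin m) := fun z => φ (Y z)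
  let b : (Fin d → ℂ) → EuclideanSpace ℂ (Fin m) := fun z => φ fun i => conj (Y (star z) (τ i))
  have ha : ∀ z ∈ U, DifferentiableAt ℂ a z := fun z hz =>
    differentiableAt_euclidean.2 fun i => hYd z hz _
  have hb : ∀ z ∈ U, DifferentiableAt ℂ b (star z) := fun z hz =>
    differentiableAt_euclidean.2 fun i => by
      simp only [b, φ, eval_cj]
      exact (hYd z hz (cj τ (f i))).star_star
  obtain ⟨h1, h2, h3, h4⟩ := hev.self_of_nhds
  obtain ⟨u0, w0, -, e0⟩ := hφ _ (main _ (hYM z1 h1) h2).1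
  obtain ⟨u1, w1, -, e1⟩ := hφ _ (main _ (hYM z1 h1) h2).2.1
  obtain ⟨Φ, hΦ, hl⟩ := h.lift (e0 ▸ h3)
  obtain ⟨Ψ, hΨ, hl'⟩ := h.lift (e1 ▸ h4)
  rw [← e0] at hΦ hl
  rw [← e1] at hΨ hl'
  have ca : Tendsto a (𝓝 z1) (𝓝 (φ (Y z1))) := (ha z1 h1).continuousAt
  have cb : Tendsto (fun z => b (star z)) (𝓝 z1) (𝓝 (φ fun i => conj (Y z1 (τ i)))) := by
    have := ((hb z1 h1).continuousAt.comp (f := star) continuous_star.continuousAt).tendsto
    simpa [Function.comp_def, b] using this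
  have hall : ∀ᶠ z in 𝓝 z1, DifferentiableAt ℂ (Φ ∘ a) z ∧ DifferentiableAt ℂ (Ψ ∘ b) (star z) ∧
      (∃ c : ℂ, a z = c • WithLp.toLp 2 (Θ (Φ (a z)))) ∧
      (Ψ (b (star z)) - Φ (a z)) + (Ψ (b (star z)) - Φ (a z)) ∈ L := by
    filter_upwards [hev, ca.eventually hl, cb.eventually hl',
      ca.eventually (hΦ.eventually (by simp)), cb.eventually (hΨ.eventually (by simp))]
      with z ⟨k1, k2, k3, k4⟩ k5 k6 k7 k8
    obtain ⟨m1, m2, m3⟩ := main _ (hYM z k1) k2
    have eb : b (star z) = φ fun i => conj (Y z (τ i)) := by simp [b]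
    obtain ⟨c, hc⟩ := k5 (hφ _ m1) k3
    obtain ⟨c', hc'⟩ := k6 (eb ▸ hφ _ m2) (eb ▸ k4)
    exact ⟨(k7.differentiableAt one_ne_zero).comp z (ha z k1),
      (k8.differentiableAt one_ne_zero).comp _ (hb z k1), ⟨c, hc⟩,
      m3 c c' _ _ hc k3 (eb ▸ hc') k4⟩
  have cD : ContinuousAt (fun z => Ψ (b (star z)) - Φ (a z)) z1 :=
    (hall.self_of_nhds.2.1.continuousAt.comp (f := star) continuous_star.continuousAt).sub
      hall.self_of_nhds.1.continuousAt
  obtain ⟨V, hV, hVc⟩ := h.disc_const (cD.add cD)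
  have hconst := anti_const (F := Φ ∘ a) (G := Ψ ∘ b) (k := Ψ (b (star z1)) - Φ (a z1)) (z1 := z1) (by
    filter_upwards [hall, hV] with z hz hzV
    refine ⟨hz.1, hz.2.1, ?_⟩
    have := hVc z hzV z1 (mem_of_mem_nhds hV) hz.2.2.2 hall.self_of_nhds.2.2.2
    simp only [Pi.add_apply, ← two_smul ℂ] at this
    rw [← smul_right_injective E two_ne_zero this]
    simp)
  refine ⟨Φ (a z1), fun j k => hden' _ z1 h1 ?_⟩
  filter_upwards [hall, hconst] with z ⟨_, _, ⟨c, hc⟩, _⟩ hz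
  rw [show Φ (a z) = Φ (a z1) from hz] at hc
  have hc' : ∀ i, eval (Y z) (f i) = c * Θ (Φ (a z1)) i := fun i => by
    simpa [a, φ] using congrArg (fun x : EuclideanSpace ℂ (Fin m) => x i) hc
  simp only [map_sub, map_mul, eval_C, hc']
  ring

end Pool.Agent.PW.G
end

-- part Pool.Agent.P.MP_65ad7c_ag.GPar
section

/-! Embedded tori and the parametrisation of the character variety. -/

open Set Filter Topology MvPolynomial

namespace Pool.Agent.PW.G

lemma ab_of {g M : ℕ} {Λ : Submodule ℤ (EC g)} [DiscreteTopology Λ] [IsZLattice ℝ Λ]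
    {Θ : EC g → Fin (M + 1) → ℂ} (h : IsAbelianEmb Λ Θ) :
    Ab Λ.toAddSubgroup fun z => (WithLp.toLp 2 (Θ z) : EuclideanSpace ℂ (Fin (M + 1))) := by
  let e := (EuclideanSpace.equiv (Fin (M + 1)) ℂ).symm
  have he : (fun z => (WithLp.toLp 2 (Θ z) : EuclideanSpace ℂ (Fin (M + 1)))) = e ∘ Θ := rfl
  refine ⟨?_, fun z h0 => h.ne z (e.map_eq_zero_iff.1 h0), fun z w => ?_, fun z v ⟨c, hc⟩ => ?_,
    ?_, ?_⟩
  · rw [he]
    refine e.contDiff.comp (contDiff_pi.2 fun i => contDiffOn_univ.1 ?_)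
    exact_mod_cast Lib.SCV.contDiffOn_nat isOpen_univ 1 _
      (differentiable_pi.1 h.hol i).differentiableOn
  · refine Iff.trans (exists_congr fun c => ?_) (h.inj z w)
    change e (Θ w) = c • e (Θ z) ↔ _
    rw [← map_smul, e.injective.eq_iff]
  · refine h.imm z v ⟨c, e.injective ?_⟩
    rw [he, e.comp_fderiv] at hc
    rw [map_smul]; exact hc
  · obtain ⟨ε, hε, hb⟩ := Metric.isOpen_singleton_iff.1 (isOpen_discrete ({0} : Set Λ))
    exact ⟨ε, hε, fun l hl hn => congrArg Subtype.val (hb ⟨l, hl⟩ (by simpa using hn))⟩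
  · let b := (Module.Free.chooseBasis ℤ Λ).ofZLatticeBasis ℝ Λ
    refine ⟨Metric.closedBall 0 (∑ i, ‖b i‖), isCompact_closedBall _ _, fun z =>
      ⟨ZSpan.floor b z, ?_, ?_⟩⟩
    · exact (Module.Basis.ofZLatticeBasis_span ℝ Λ _).le (ZSpan.floor b z).2
    · simpa [ZSpan.fract_apply] using ZSpan.norm_fract_le b z

lemma exists_par {Γ : Type} [Group Γ] (hfg : Group.FG Γ) (r : ℕ) :
    ∃ (σ : Type) (_ : Finite σ) (T : Γ → MvPolynomial σ ℂ) (R : Set (σ → ℂ)),
      (∀ x ∈ zeroLocus ℂ (vanishingIdeal ℂ R), (fun i => eval x (T i)) ∈ charVar Γ r) ∧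
      ∀ y ∈ charVar Γ r, ∃ x ∈ R, y = fun i => eval x (T i) := by
  obtain ⟨S, hS, hfin⟩ := Monoid.fg_iff.1 (Group.fg_iff_monoid_fg.1 hfg)
  have := hfin.to_subtype
  let σ := S × Fin r × Fin r
  let pt : (Γ →* Mat r) → σ → ℂ := fun ρ s => ρ s.1 s.2.1 s.2.2
  have : ∀ γ : Γ, ∃ N : Matrix (Fin r) (Fin r) (MvPolynomial σ ℂ),
      ∀ ρ, (eval (pt ρ)).mapMatrix N = ρ γ := fun γ => by
    have hγ : γ ∈ Submonoid.closure S := hS ▸ trivial
    induction hγ using Submonoid.closure_induction with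
    | mem s hs => exact ⟨Matrix.of fun i j => X (⟨s, hs⟩, i, j), fun ρ => by ext i j; simp [pt]⟩
    | one => exact ⟨1, fun ρ => by simp⟩
    | mul a b _ _ ha hb =>
      obtain ⟨A, hA⟩ := ha
      obtain ⟨B, hB⟩ := hb
      exact ⟨A * B, fun ρ => by rw [map_mul, map_mul, hA, hB]⟩
  choose N hN using this
  have htr : ∀ x γ, eval x (N γ).trace = ((eval x).mapMatrix (N γ)).trace := fun x γ => by
    simp [Matrix.trace]
  refine ⟨σ, inferInstance, fun γ => (N γ).trace, range pt, fun x hx => ?_, ?_⟩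
  · have key : ∀ A B : Matrix (Fin r) (Fin r) (MvPolynomial σ ℂ),
        (∀ ρ, (eval (pt ρ)).mapMatrix A = (eval (pt ρ)).mapMatrix B) →
          (eval x).mapMatrix A = (eval x).mapMatrix B := fun A B h => by
      ext i j
      have : eval x (A i j - B i j) = 0 := hx _ (by
        rintro _ ⟨ρ, rfl⟩
        change eval _ _ = 0
        rw [map_sub, sub_eq_zero]
        exact congrFun (congrFun (h ρ) i) j)
      rw [map_sub, sub_eq_zero] at this
      exact this
    simp only [htr]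
    exact mem_charVar
      { toFun := fun γ => (eval x).mapMatrix (N γ)
        map_one' := (key _ 1 fun ρ => by rw [hN, map_one, map_one]).trans (map_one _)
        map_mul' := fun a b =>
          (key _ (N a * N b) fun ρ => by rw [map_mul, hN, hN, hN, map_mul]).trans (map_mul _ _ _) }
  · rintro y ⟨ρ, hρ⟩
    refine ⟨_, ⟨(Units.coeHom _).comp ρ, rfl⟩, funext fun γ => ?_⟩
    rw [htr, hN, hρ]; rfl

end Pool.Agent.PW.G
end

-- part Pool.Agent.P.MP_65ad7c_ag.Sec56
section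

open MeasureTheory Set Filter Topology Metric Matrix
open scoped ComplexOrder ContDiff Matrix.Norms.Frobenius RealInnerProductSpace ENNReal
open Pool.Agent.Lib.Sob

noncomputable section
namespace Pool.Agent.PW

/-- SEC 5-6 (writer h63): twistor lines through irreducible characters of every rank give the
theorem. -/
theorem alb_of_tw {Γ : Type} [Group Γ] (hfg : Group.FG Γ)
    (htw : ∀ s : ℕ, 0 < s → ∀ ρ : Γ →* Mat s, Irr ρ → TWc Γ s fun γ => (ρ γ).trace) (r : ℕ) :
    AlbTrivial Γ r := by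
  intro P hP g M Λ _ _ Θ hΘ f hf y hy y' hy' h0 _
  obtain ⟨σ, _, T, R, hR, hM⟩ := G.exists_par hfg r
  obtain ⟨i0, hi0⟩ := Function.ne_iff.1 h0
  obtain ⟨a, ha⟩ := G.alb_abstract (τ := fun γ => γ⁻¹) inv_inv T R hR hM
    (fun y hy => G.tw_all htw hy) hP (G.ab_of hΘ) f hf (i0 := i0) fun h => hi0 (hy.2 _ h)
  obtain ⟨k, hk⟩ := Function.ne_iff.1 (hΘ.ne a)
  have key : ∀ x ∈ MvPolynomial.zeroLocus ℂ P,
      (fun i => MvPolynomial.eval x (f i)) = (MvPolynomial.eval x (f k) / Θ a k) • Θ a :=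
    fun x hx => funext fun j => by
      have : MvPolynomial.eval x _ = 0 := hx _ (ha j k)
      simp only [map_sub, map_mul, MvPolynomial.eval_C, sub_eq_zero] at this
      rw [Pi.smul_apply, smul_eq_mul, div_mul_eq_mul_div, eq_div_iff hk, mul_comm, this, mul_comm]
  rw [key y hy.2] at h0 ⊢
  rw [key y' hy'.2]
  exact ⟨_ / _, by rw [smul_smul, div_mul_cancel₀ _ (left_ne_zero_of_smul h0)]⟩

/-- SEC 5-6: the trivial group (the character variety is one point). -/
theorem alb_of_subsingleton {Γ : Type} [Group Γ] [Subsingleton Γ] (r : ℕ) : AlbTrivial Γ r := by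
  refine alb_of_tw inferInstance (fun s _ ρ _ => ?_) r
  convert G.tw_trivial (Γ := Γ) s using 2 with γ
  rw [Subsingleton.elim γ 1]; simp

end Pool.Agent.PW
end
end

-- part Pool.Agent.P.MP_65ad7c_ag.Main
section

open MeasureTheory Set Filter Topology Metric Matrix
open scoped ComplexOrder ContDiff Matrix.Norms.Frobenius RealInnerProductSpace ENNReal
open Pool.Agent.Lib.Sob

noncomputable section
namespace Pool.Agent.PW

open scoped Manifold in
theorem main (n r : ℕ) (X : Type) [TopologicalSpace X] [T2Space X] [CompactSpace X]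
    [ConnectedSpace X] [ChartedSpace (EC n) X] [IsManifold 𝓘(ℂ, EC n) ω X] (hK : IsKahler n X)
    (x₀ : X) : AlbTrivial (FundamentalGroup X x₀) r := by
  rcases Nat.eq_zero_or_pos n with rfl | hn
  · have := subsingleton_pi1 X x₀
    exact alb_of_subsingleton r
  obtain ⟨A⟩ := exists_katlas n X hK x₀
  refine alb_of_tw A.toAtlas.fg (fun s hs ρ hρ => ?_) r
  obtain ⟨m, γs, β, hb⟩ := hρ.burn
  have hE : 2 ≤ Module.finrank ℝ (EC n) := by
    rw [finrank_real_of_complex, finrank_euclideanSpace_fin]; omega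
  obtain ⟨C, hC, h1⟩ := exists_hm A.toAtlas hE hs γs β (∑ s ∈ A.S, ‖ρ s‖)
  obtain ⟨h, D, hh⟩ := h1 ρ hb fun s hs =>
    Finset.single_le_sum (f := fun s => ‖ρ s‖) (fun _ _ => norm_nonneg _) hs
  obtain ⟨C', hC', h2⟩ := ph_of_hm A hn hs hC
  obtain ⟨h', D', hp⟩ := h2 ρ h D hh
  exact tw_of_ph A hC' hp

end Pool.Agent.PW
end
end
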