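import Pool.Agent.P.MP_65ad7c_ag.QDefs
import Pool.Agent.P.MP_65ad7c_ag.SBrA
import Pool.Agent.K.MP_65ad7c_ag.C3

/-! The intersection complex in elementary form. -/

open Set TopologicalSpace Pool.Agent.PW.S Pool.Agent.PWD.TI

set_option backward.isDefEq.respectTransparency false

noncomputable section
namespace Pool.Agent.PQ

variable {Y : Type} [TopologicalSpace Y] {I : PCx Y} {n : ℕ} {V : Opens Y}

theorem q_locBd {O : Opens Y} {y : Y} {c : (((toCx I).gam O).X n).obj V} :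
    LocBd (I := I) (n := n) (V := V) O y c.1 ↔ ((toCx I).gam O).LocBd y c := by
  constructor
  · rintro ⟨W, h, b, hy, hb, e⟩
    refine ⟨W, h, hy, ?_⟩
    cases n with
    | zero =>
      have e' : PW.dv I 0 0 W b = PW.rs _ h c.1 := e
      rw [sbra_d00] at e'
      exact Subtype.ext e'.symm
    | succ n => exact ⟨⟨b, hb⟩, Subtype.ext e⟩
  · rintro ⟨W, h, hy, e⟩
    cases n with
    | zero =>
      have e' : PW.rs (I.X 0) h c.1 = 0 := congrArg Subtype.val (Submodule.mem_bot ℂ |>.1 e)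
      exact ⟨W, h, 0, hy, map_zero (PW.rs (I.X 0) inf_le_left),
        (map_zero (PW.dv I 0 0 W)).trans e'.symm⟩
    | succ n =>
      obtain ⟨b, hb⟩ := e
      exact ⟨W, h, b.1, hy, b.2, congrArg Subtype.val hb⟩

theorem q_locBd_bot {O : Opens Y} {y : Y} {c : Sec I n V} (h : LocBd O y c) :
    (toCx I).LocBd y (n := n) c := by
  obtain ⟨W, h, b, hy, -, e⟩ := h
  refine ⟨W, h, hy, ?_⟩
  rw [toCx_bd]
  exact ⟨b, e⟩

theorem q_lc {O : Opens Y} {S : Set Y} (h : LocConst I O S n) : LCon ((toCx I).gam O) S n := by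
  intro x hx
  obtain ⟨W, B, hW, hB, h⟩ := h.lc x hx
  refine ⟨W, B.comap (Submodule.subtype _), hW, fun b hb => Subtype.ext (hB _ hb).cyc,
    fun y hy hyW => ⟨fun b hb e => Subtype.ext ((h y hy hyW).1 _ hb (q_locBd.2 e)),
      fun W' l s hy' hs => ?_⟩⟩
  obtain ⟨b, hb, e⟩ := (h y hy hyW).2 W' l s.1 hy' ⟨congrArg Subtype.val hs, s.2⟩
  exact ⟨⟨b, (hB b hb).van⟩, hb, q_locBd.1 e⟩

theorem IsIC.sx {d : ℕ} {U : ℕ → Opens Y} {one : Sec I 0 (U 1)} (h : IsIC d U I one) :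
    SX d U (toCx I) one := by
  have hI : CInj univ (toCx I) := fun n =>
    inj_of_injective (I.X n) (h.inj n).choose (h.inj n).choose_spec
  refine ⟨⟨h.mono, ⟨_, h.top⟩, hI, h.closed.cyc, h.ne, fun x V hV hx c hc => ?_,
    fun c x hx n h0 hn V hV s hs => q_locBd_bot ((h.supp c x hx n h0 hn).ex V hV s
      ⟨hs, (hI n).eq_zero_of_bot inf_le_right _⟩),
    fun c h0 x hx n hn V hV s hs => q_locBd.1 ((h.cosupp c h0 x hx n hn).ex V hV s.1
      ⟨congrArg Subtype.val hs, s.2⟩)⟩, h.bot, h.top, h.chart, fun c n => q_lc (h.lc c n)⟩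
  obtain ⟨a, ha⟩ := h.gen V hV x hx c ⟨hc, (hI 0).eq_zero_of_bot inf_le_right _⟩
  obtain ⟨W, l, hW, e⟩ := q_locBd_bot ha
  refine ⟨W, l, a, hW, sub_eq_zero.1 ?_⟩
  have e' : ((toCx I).X 0).res l (c - a • ((toCx I).X 0).res hV one) = 0 :=
    Submodule.mem_bot ℂ |>.1 e
  rw [map_sub, map_smul, PS.res_res] at e'
  exact e'

end Pool.Agent.PQ
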