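import Pool.Agent.P.MP_65ad7c_ag.QDefs
import Pool.Agent.K.MP_65ad7c_ag.C34
import Pool.Agent.K.MP_65ad7c_ag.C36
import Pool.Agent.K.MP_65ad7c_ag.C37
import Pool.Agent.P.MP_65ad7c_ag.QForms
import Pool.Agent.P.MP_65ad7c_ag.QNf2
import Pool.Agent.P.MP_65ad7c_ag.QNg2
import Pool.Agent.P.MP_65ad7c_ag.QN0
import Pool.Agent.P.MP_65ad7c_ag.QNc
import Pool.Agent.P.MP_65ad7c_ag.QNi2
import Pool.Agent.P.MP_65ad7c_ag.QNi

-- part Pool.Agent.P.MP_65ad7c_ag.QBet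
section

/-! The flow on a space embedded onto a component. -/

open Set
open scoped Manifold ContDiff ComplexConjugate Matrix
open Pool.Agent.PW (EC IsKahler)

noncomputable section
namespace Pool.Agent.PQ

/-- an isotopy from the identity to an involution that contains the relation `S` -/
def HasFlow {Y : Type} [TopologicalSpace Y] (S : Y → Y → Prop) : Prop :=
  ∃ Φ Φ' : C(Y × unitInterval, Y), (∀ y, Φ (y, 0) = y) ∧
    (∀ y t, Φ' (Φ (y, t), t) = y) ∧ (∀ y t, Φ (Φ' (y, t), t) = y) ∧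
    (∀ y, Φ (Φ (y, 1), 1) = y) ∧ ∀ y y' : Y, S y y' → y' = Φ (y, 1)

theorem HasFlow.homeo {Y Y' : Type} [TopologicalSpace Y] [TopologicalSpace Y'] (σ : Y ≃ₜ Y')
    {S : Y → Y → Prop} {S' : Y' → Y' → Prop} (h : HasFlow S')
    (hS : ∀ y y', S y y' → S' (σ y) (σ y')) : HasFlow S := by
  obtain ⟨Φ, Φ', h0, h1, h2, h3, h4⟩ := h
  refine ⟨⟨fun x => σ.symm (Φ (σ x.1, x.2)), by fun_prop⟩,
    ⟨fun x => σ.symm (Φ' (σ x.1, x.2)), by fun_prop⟩, fun y => ?_, fun y t => ?_, fun y t => ?_,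
    fun y => ?_, fun y y' hy => ?_⟩
  · simp [h0]
  · simp [h1]
  · simp [h2]
  · simp [h3]
  · simp [← h4 _ _ (hS y y' hy)]

theorem HasFlow.emb {Y E : Type} [TopologicalSpace Y] [TopologicalSpace E] {e : Y → E}
    (he : Topology.IsEmbedding e) {C : Set E} (hC : range e = C) {T : E → E → Prop}
    (h : HasFlow fun y y' : C => T y.1 y'.1) : HasFlow fun y y' => T (e y) (e y') := by
  subst hC
  exact h.homeo he.toHomeomorph fun _ _ hy => hy

variable {r : ℕ} {Γ : Type} [Group Γ] {G : Subgroup (GL (Fin r) ℂ)}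

theorem inv_eq : Inv Γ G = PW.Inv Γ G := by
  rw [← Algebra.adjoin_eq (PW.Inv Γ G)]
  refine congrArg (Algebra.adjoin ℂ) (Set.ext fun f => and_congr_right fun _ => ?_)
  constructor
  · intro h g ρ
    refine h g.1 g.2 ρ _ fun γ => ?_
    show ((g * ρ γ * g⁻¹ : G) : GL (Fin r) ℂ).1 * g.1.1 = g.1.1 * (ρ γ).1.1
    rw [← Units.val_mul, ← Units.val_mul, ← Subgroup.coe_mul, ← Subgroup.coe_mul,
      inv_mul_cancel_right]
  · intro h g hg ρ ρ' e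
    rw [← h ⟨g, hg⟩ ρ]
    refine congrArg f (MonoidHom.ext fun γ => ?_)
    have e1 : (show Γ →* G from ρ') γ * ⟨g, hg⟩ = ⟨g, hg⟩ * (show Γ →* G from ρ) γ :=
      Subtype.ext (Units.ext (e γ))
    exact eq_mul_inv_of_mul_eq e1

/-- the involution for a subalgebra `A` -/
def IsS' (A : Subalgebra ℂ ((Γ →* G) → ℂ)) (y y' : A → ℂ) : Prop :=
  ∀ f f' : A, (∀ ρ ρ' : Γ →* G, (∀ γ, (ρ' γ).1.1 = (ρ γ⁻¹).1.1ᴴ) →
    f'.1 ρ = starRingEnd ℂ (f.1 ρ')) → y' f = starRingEnd ℂ (y f')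

theorem flow_gen (A : Subalgebra ℂ ((Γ →* G) → ℂ)) (hA : A = PW.Inv Γ G)
    (H : ∀ P ∈ minimalPrimes (PW.Inv Γ G), HasFlow fun y y' : PW.Comp P => PW.IsS y.1 y'.1)
    {Y : Type} [TopologicalSpace Y] {e : Y → A → ℂ} (he : Topology.IsEmbedding e)
    (hY : ∃ P ∈ minimalPrimes A, ∀ y, y ∈ range e ↔
      (∃ φ : A →ₐ[ℂ] ℂ, ⇑φ = y) ∧ ∀ f ∈ P, y f = 0) :
    HasFlow fun y y' => IsS' A (e y) (e y') := by
  subst hA
  obtain ⟨P, hP, hY⟩ := hY
  exact HasFlow.emb (T := PW.IsS) he (Set.ext hY) (H P hP)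

theorem hasFlow (n r : ℕ) (X : Type) [TopologicalSpace X] [T2Space X] [CompactSpace X]
    [ConnectedSpace X] [ChartedSpace (EC n) X] [IsManifold 𝓘(ℂ, EC n) ω X] (hK : IsKahler n X)
    (x₀ : X) (G : Subgroup (GL (Fin r) ℂ)) (hG : IsRed G)
    (Y : Type) [TopologicalSpace Y] (e : Y → Fn (FundamentalGroup X x₀) G → ℂ)
    (he : Topology.IsEmbedding e) (hY : IsComp (Set.range e)) :
    HasFlow fun y y' => IsS (e y) (e y') :=
  flow_gen (Inv (FundamentalGroup X x₀) G) inv_eq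
    (fun P hP => PW.exists_flow n r X hK x₀ G hG P hP) he hY

theorem rot_isS (K : PW.RotSys Γ) (hG : PW.IsRed G) (P : Ideal (PW.Inv Γ G))
    (hP : P ∈ minimalPrimes _) (y : PW.Comp P) : ∃ y' : PW.Comp P, PW.IsS y.1 y'.1 := by
  rcases Nat.eq_zero_or_pos r with rfl | hr
  · refine ⟨y, fun f f' h => ?_⟩
    obtain ⟨φ, hφ⟩ := y.2.1
    have hf : ∀ f : PW.Inv Γ G, y.1 f = f.1 1 := fun f => by
      have hf : f = algebraMap ℂ (PW.Inv Γ G) (f.1 1) := by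
        refine Subtype.ext (funext fun ρ => ?_)
        have : ρ = 1 := MonoidHom.ext fun γ => Subtype.ext (Units.ext (Subsingleton.elim _ _))
        rw [this]
        rfl
      rw [← hφ, hf, AlgHom.commutes]
      rfl
    rw [hf, hf, h 1 1 fun _ => Subsingleton.elim _ _, Complex.conj_conj]
  · obtain ⟨Ψ, h⟩ := PW.L.exists_Flow K hG hr
    exact ⟨⟨Ψ y.1 Real.pi, h.mem_comp hG hP y.2 _⟩, h.isS y.2.1⟩

theorem isS_gen (A : Subalgebra ℂ ((Γ →* G) → ℂ)) (hA : A = PW.Inv Γ G)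
    (H : ∀ P ∈ minimalPrimes (PW.Inv Γ G), ∀ y : PW.Comp P, ∃ y' : PW.Comp P, PW.IsS y.1 y'.1)
    {Y : Type} {e : Y → A → ℂ} (hY : ∃ P ∈ minimalPrimes A, ∀ y, y ∈ range e ↔
      (∃ φ : A →ₐ[ℂ] ℂ, ⇑φ = y) ∧ ∀ f ∈ P, y f = 0) (y : Y) : ∃ y', IsS' A (e y) (e y') := by
  subst hA
  obtain ⟨P, hP, hY⟩ := hY
  obtain ⟨y', h⟩ := H P hP ⟨e y, (hY _).1 ⟨y, rfl⟩⟩
  obtain ⟨z, hz⟩ := (hY _).2 y'.2
  exact ⟨z, hz ▸ h⟩

theorem exists_isS (n r : ℕ) (X : Type) [TopologicalSpace X] [T2Space X] [CompactSpace X]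
    [ConnectedSpace X] [ChartedSpace (EC n) X] [IsManifold 𝓘(ℂ, EC n) ω X] (hK : IsKahler n X)
    (x₀ : X) (G : Subgroup (GL (Fin r) ℂ)) (hG : IsRed G)
    (Y : Type) (e : Y → Fn (FundamentalGroup X x₀) G → ℂ) (hY : IsComp (Set.range e)) (y : Y) :
    ∃ y', IsS (e y) (e y') := by
  obtain ⟨K⟩ := PW.exists_rotSys n X hK x₀
  exact isS_gen (Inv (FundamentalGroup X x₀) G) inv_eq (fun P hP => rot_isS K hG P hP) hY y

end Pool.Agent.PQ
end
end

-- part Pool.Agent.P.MP_65ad7c_ag.QMain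
section

/-! Assembly. -/

noncomputable section
namespace Pool.Agent.PQ

theorem Model.tate {Y : Type} [TopologicalSpace Y] {S : Y → Y → Prop} (M : Model S)
    (h : HasFlow S) (j k : ℕ) : M.W j (2 * k + 1) = M.W j (2 * k) ∧
      (∀ x ∈ M.W j (2 * k) ∩ M.F j (k + 1), ∃ b : Sec M.I (j - 1) ⊤, x = dv j b) ∧
      ∀ x : Sec M.I j ⊤, dv (j + 1) x = 0 →
        ∃ w ∈ M.W j (2 * k), ∃ f ∈ M.F j (k + 1), x = w + f := by
  obtain ⟨Φ, Φ', h0, h1, h2, h3, h4⟩ := h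
  obtain ⟨i, p, hR, hW, hF⟩ := M.isRes
  have := M.R.fin
  obtain ⟨a1, a2, a3⟩ := PQA.fin_sx M.R.π M.ic.sx hR Φ Φ' h0 h1 h2 h3 h4 j k
  rw [hW, hW, hF]
  refine ⟨by rw [a1], fun x hx => ?_, fun x hx => ?_⟩
  · obtain ⟨b, hb⟩ := a2 x hx.1 hx.2
    exact ⟨b, hb.symm⟩
  · obtain ⟨w, hw, f, hf, e⟩ := Submodule.mem_sup.1 (a3 x hx)
    exact ⟨w, hw, f, hf, e.symm⟩

end Pool.Agent.PQ
end
end

-- part Pool.Agent.P.MP_65ad7c_ag.QNj
section

/-! The local Poincare lemma with compact supports on the manifold. -/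

open Set Pool.Agent.HT MeasureTheory Filter Topology Metric
open scoped ContDiff

noncomputable section
namespace Pool.Agent.QN

variable {N d n m : ℕ} {ι : Type} {Z : Set (Amb N)} {D : ι → Set (Amb N)}

theorem bd_QNj (A : AC d Z D) {C : Set (Fin d → ℂ)} (hC : IsCompact C)
    (hCb : C ⊆ ball A.c A.ρ) {G : Set (Amb N)} (hCG : MapsTo A.ψ C G) {K : Set (Amb N)}
    (hK : IsCompact K) (hKW : K ⊆ A.W) {a : SF (Amb N) n} (ha : a ∈ Nul (Z \ K) n)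
    {σ : SF (Fin d → ℂ) n} (hσ : ∀ z ∈ ball A.c A.ρ, σ.1 z = pull A.ψ a.1 z)
    (he : ExE C n σ) : Om.mk Z a ∈ Bd Z (Z ∩ G) n := by
  cases n with
  | zero =>
    have he' : σ = 0 := he
    have h0 : Om.mk Z a = 0 := Om.mk_eq_zero.2 (nul_of_chart A hK hKW ha fun z hz => by
      rw [← hσ z hz, he']; rfl)
    rw [h0]
    exact Submodule.zero_mem _
  | succ n =>
    obtain ⟨η, hη, hdη⟩ := he
    obtain ⟨β, hβ, hβη⟩ := of_chart A hC hCb hη
    have hC' : IsCompact (A.ψ '' C) := hC.image A.ψ_smooth.continuous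
    have hCW : A.ψ '' C ⊆ A.W := image_subset_iff.2 fun z hz => (A.ψ_mem z (hCb hz)).2
    refine ⟨Om.mk Z β, mem_Ac.2 ⟨_, hC', image_subset_iff.2 fun z hz =>
      ⟨(A.ψ_mem z (hCb hz)).1, hCG hz⟩, hβ⟩, ?_⟩
    refine (Om.d_mk Z β).trans (Om.mk_eq_mk.2 ?_)
    refine nul_of_chart A (hK.union hC') (union_subset hKW hCW)
      (Submodule.sub_mem _ (Nul.anti (sdiff_subset_sdiff_right subset_union_right) (Nul.d hβ))
        (Nul.anti (sdiff_subset_sdiff_right subset_union_left) ha)) fun z hz => ?_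
    have e1 : pull A.ψ β.1 =ᶠ[𝓝 z] η.1 := by
      filter_upwards [isOpen_ball.mem_nhds hz] with y hy using hβη y hy
    have e2 : pull A.ψ (extDeriv β.1) z = σ.1 z := by
      rw [← pull_extDeriv A.ψ_smooth.contDiffAt (β.diff _), e1.extDeriv_eq, ← hdη, SF.d_val]
    have e3 : pull A.ψ (SF.d n β - a).1 z = pull A.ψ (extDeriv β.1) z - pull A.ψ a.1 z := by
      ext v
      simp [pull_apply]
    rw [e3, e2, hσ z hz, sub_self]

theorem closed_QNj (A : AC d Z D) {C : Set (Fin d → ℂ)} (hC : IsClosed C)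
    (hCb : C ⊆ ball A.c A.ρ) {a : SF (Amb N) n} (ha : SF.d n a ∈ Nul Z (n + 1))
    {σ : SF (Fin d → ℂ) n} (hs : Off C σ)
    (hσ : ∀ z ∈ ball A.c A.ρ, σ.1 z = pull A.ψ a.1 z) : SF.d n σ = 0 := by
  refine SF.ext (funext fun z => ?_)
  by_cases hz : z ∈ ball A.c A.ρ
  · have e1 : σ.1 =ᶠ[𝓝 z] pull A.ψ a.1 := by
      filter_upwards [isOpen_ball.mem_nhds hz] with y hy using hσ y hy
    rw [SF.d_val, e1.extDeriv_eq, pull_extDeriv A.ψ_smooth.contDiffAt (a.diff _)]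
    refine Nul.gen ha ?_
    filter_upwards [isOpen_ball.mem_nhds hz] with y hy using
      ⟨A.ψ_smooth.contDiffAt, (A.ψ_mem y hy).1⟩
  · exact Off.d hC hs z fun h => hz (hCb h)

theorem loc_poin (h : Geo d Z D) {b : Module.Basis (Fin m) ℝ (Fin d → ℂ)}
    {lam : Module.Dual ℂ (Om Z m)} (hl : IsLam Z b lam) {x : Amb N} (hx : x ∈ Z)
    {G : Set (Amb N)} (hG : IsOpen G) (hxG : x ∈ G) :
    ∃ G', IsOpen G' ∧ x ∈ G' ∧ G' ⊆ G ∧
      (∀ n < m, ∀ α ∈ Ac Z (Z ∩ G') n, Om.d Z n α = 0 → α ∈ Bd Z (Z ∩ G) n) ∧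
      ∀ α ∈ Ac Z (Z ∩ G') m, lam α = 0 → α ∈ Bd Z (Z ∩ G) m := by
  obtain ⟨A, rfl⟩ := h.chart x hx
  have hc : A.c ∈ ball A.c A.ρ := mem_ball_self A.ρ_pos
  have hO : ball A.c A.ρ ∩ A.ψ ⁻¹' G ∈ 𝓝 A.c :=
    (isOpen_ball.inter (hG.preimage A.ψ_smooth.continuous)).mem_nhds ⟨hc, hxG⟩
  obtain ⟨l, u, hlu, hsub, hnb⟩ := exists_box b hO
  have hCb : box b l u ⊆ ball A.c A.ρ := fun z hz => (hsub hz).1
  have hCG : MapsTo A.ψ (box b l u) G := fun z hz => (hsub hz).2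
  have key : ∀ (n : ℕ) (a : SF (Amb N) n),
      Om.mk Z a ∈ Ac Z (Z ∩ (G ∩ A.W ∩ A.φ ⁻¹' interior (box b l u))) n →
      ∃ σ : SF (Fin d → ℂ) n, Off (box b l u) σ ∧
        (∀ z ∈ ball A.c A.ρ, σ.1 z = pull A.ψ a.1 z) ∧
        (ExE (box b l u) n σ → Om.mk Z a ∈ Bd Z (Z ∩ G) n) := by
    intro n a ha
    obtain ⟨K, hK, hKU, hn⟩ := mem_Ac.1 ha
    obtain ⟨σ, hs, hσ⟩ := to_chart A hK (fun y hy => ⟨(hKU hy).1, (hKU hy).2.1.2⟩) hn
    refine ⟨σ, fun z hz => hs z fun hz' => hz ?_, hσ, fun he =>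
      bd_QNj A (box_compact b l u) hCb hCG hK (fun y hy => (hKU hy).2.1.2) hn hσ he⟩
    obtain ⟨y, hy, rfl⟩ := hz'
    exact interior_subset (hKU hy).2.2
  refine ⟨G ∩ A.W ∩ A.φ ⁻¹' interior (box b l u),
    (hG.inter A.W_open).inter (isOpen_interior.preimage A.φ_smooth.continuous),
    ⟨⟨hxG, (A.ψ_mem _ hc).2⟩, ?_⟩, fun y hy => hy.1.1, fun n hn α hα hd => ?_,
    fun α hα h0 => ?_⟩
  · rw [mem_preimage, A.φψ _ hc]
    exact mem_interior_iff_mem_nhds.2 hnb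
  · obtain ⟨a, rfl⟩ := Om.mk_surj α
    obtain ⟨σ, hs, hσ, he⟩ := key n a hα
    exact he (poin_lt b hlu hn σ hs
      (closed_QNj A (box_closed b) hCb (Om.mk_eq_zero.1 hd) hs hσ))
  · obtain ⟨a, rfl⟩ := Om.mk_surj α
    obtain ⟨σ, hs, hσ, he⟩ := key m a hα
    refine he (poin_top volume b hlu σ hs ?_)
    have h1 := hl _ _ (ac_isChart A) a (by
      rw [ac_image]
      exact Ac.mono Z (inter_subset_inter_right _ fun y hy => hy.1.2) hα)
    rw [h0] at h1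
    rw [← setIntegral_eq_integral_of_forall_compl_eq_zero (s := ball A.c A.ρ)
      (fun z hz => by rw [hs z fun h' => hz (hCb h')]; rfl), h1]
    refine setIntegral_congr_fun measurableSet_ball fun z hz => ?_
    rw [ac_pull A _ hz, hσ z hz]

end Pool.Agent.QN
end
end

-- part Pool.Agent.P.MP_65ad7c_ag.QNk
section

/-! The canonical resolution datum. -/

open Set CategoryTheory TopologicalSpace Opposite

noncomputable section
namespace Pool.Agent.PQ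

open Pool.Agent.HT (SF Om)

variable {Y : Type} [TopologicalSpace Y] {N d : ℕ} {ι : Type} {Z : Set (Amb N)}
  {D : ι → Set (Amb N)} (π : C(↥(Z \ ⋃ a, D a), Y))

variable (d) in
/-- The canonical pairing. -/
def kev {j : ℕ} {V : Opens Y} (q : ℕ) (l : Sec (PW.Kx d π) j V) (α : Form N q) : ℂ :=
  if h : q + j = 2 * d then
    ofDual ((show ∀ q : {q // q + j = 2 * d}, Module.Dual ℂ (HT.Ac Z (PW.up π V) q.1) from l)
      ⟨q, h⟩) α
  else 0

/-- The value of a section on a class. -/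
def kv {j : ℕ} {V : Opens Y} (l : Sec (PW.Kx d π) j V) (q : ℕ) (h : q + j = 2 * d) :
    Module.Dual ℂ (HT.Ac Z (PW.up π V) q) :=
  (show ∀ q : {q // q + j = 2 * d}, Module.Dual ℂ (HT.Ac Z (PW.up π V) q.1) from l) ⟨q, h⟩

variable {π} {j : ℕ} {V W : Opens Y}

theorem kev_eq {q : ℕ} (h : q + j = 2 * d) (l : Sec (PW.Kx d π) j V) (α : Form N q) :
    kev d π q l α = ofDual (kv π l q h) α := dif_pos h

theorem kv_ext {l l' : Sec (PW.Kx d π) j V} (h : ∀ q hq α, kv π l q hq α = kv π l' q hq α) :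
    l = l' := funext fun q => LinearMap.ext fun α => h q.1 q.2 α

theorem kv_zero (q : ℕ) (h : q + j = 2 * d) : kv π (0 : Sec (PW.Kx d π) j V) q h = 0 := rfl

theorem kv_add (l l' : Sec (PW.Kx d π) j V) (q : ℕ) (h : q + j = 2 * d) :
    kv π (l + l') q h = kv π l q h + kv π l' q h := rfl

theorem kv_sub (l l' : Sec (PW.Kx d π) j V) (q : ℕ) (h : q + j = 2 * d) :
    kv π (l - l') q h = kv π l q h - kv π l' q h := rfl

theorem kv_smul (a : ℂ) (l : Sec (PW.Kx d π) j V) (q : ℕ) (h : q + j = 2 * d) :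
    kv π (a • l) q h = a • kv π l q h := rfl

theorem kv_rs (hle : W ≤ V) (l : Sec (PW.Kx d π) j V) (q : ℕ) (h : q + j = 2 * d)
    (α : HT.Ac Z (PW.up π W) q) :
    kv π (rs hle l) q h α = kv π l q h ⟨α.1, PW.ac_mono π hle q α.2⟩ := rfl

theorem kv_dv (l : Sec (PW.Kx d π) j V) (q : ℕ) (h : q + (j + 1) = 2 * d)
    (α : HT.Ac Z (PW.up π V) q) : kv π (dv (j + 1) l) q h α =
      kv π l (q + 1) (by omega) ⟨Om.d Z q α.1, PW.ac_d _ q α.1 α.2⟩ :=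
  PW.S.dualCx_dv j V l ⟨q, h⟩ α

theorem exists_kv (q : ℕ) (h : q + j = 2 * d) (lam : Module.Dual ℂ (HT.Ac Z (PW.up π V) q)) :
    ∃ l : Sec (PW.Kx d π) j V, kv π l q h = lam := by
  classical
  exact ⟨(Pi.single ⟨q, h⟩ lam : ∀ q : {q // q + j = 2 * d},
    Module.Dual ℂ (HT.Ac Z (PW.up π V) q.1)), Pi.single_eq_same (M := fun q : {q // q + j = 2 * d} =>
      Module.Dual ℂ (HT.Ac Z (PW.up π V) q.1)) _ _⟩

theorem kev_ne_QNk {q : ℕ} (h : ¬q + j = 2 * d) (l : Sec (PW.Kx d π) j V) (α : Form N q) :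
    kev d π q l α = 0 := dif_neg h

theorem kev_cl_QNk {q : ℕ} (h : q + j = 2 * d) (l : Sec (PW.Kx d π) j V) (α : SF (Amb N) q)
    (hα : cl Z α ∈ HT.Ac Z (PW.up π V) q) : kev d π q l α.1 = kv π l q h ⟨cl Z α, hα⟩ :=
  (kev_eq h l α.1).trans (ofDual_cl _ α hα)

theorem ofDual_lin_QNk {q : ℕ} {U : Set (Amb N)} (a : ℂ) (f g : Module.Dual ℂ (HT.Ac Z U q))
    (α : Form N q) : ofDual (a • f + g) α = a * ofDual f α + ofDual g α := by
  unfold ofDual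
  split_ifs
  · rw [LinearMap.add_apply, LinearMap.smul_apply, smul_eq_mul]
  · rw [mul_zero, add_zero]

theorem kev_lin_QNk (q : ℕ) (a : ℂ) (l l' : Sec (PW.Kx d π) j V) (α : Form N q) :
    kev d π q (a • l + l') α = a * kev d π q l α + kev d π q l' α := by
  by_cases h : q + j = 2 * d
  · rw [kev_eq h, kev_eq h, kev_eq h, kv_add, kv_smul, ofDual_lin_QNk]
  · rw [kev_ne_QNk h, kev_ne_QNk h, kev_ne_QNk h, mul_zero, add_zero]

theorem kev_isFun_QNk (q : ℕ) (l : Sec (PW.Kx d π) j V) : IsFun Z (PW.up π V) (kev d π q l) := by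
  by_cases h : q + j = 2 * d
  · rw [funext (kev_eq h l)]
    exact isFun_ofDual _
  · rw [funext (kev_ne_QNk h l)]
    exact ⟨fun a _ _ _ _ => by rw [mul_zero, add_zero], fun _ _ _ => rfl⟩

theorem kev_inj_QNk (l : Sec (PW.Kx d π) j V)
    (h : ∀ q, q + j = 2 * d → ∀ α, Ac Z (PW.up π V) α → kev d π q l α = 0) : l = 0 := by
  refine kv_ext fun q hq α => ?_
  obtain ⟨α, hα⟩ := α
  obtain ⟨β, rfl⟩ := Submodule.Quotient.mk_surjective _ α
  exact (kev_cl_QNk hq l β hα).symm.trans (h q hq β.1 ((ac_iff β).1 hα))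

theorem kev_surj_QNk (q : ℕ) (h : q + j = 2 * d) (φ : Form N q → ℂ)
    (hφ : IsFun Z (PW.up π V) φ) :
    ∃ l : Sec (PW.Kx d π) j V, ∀ α, Ac Z (PW.up π V) α → kev d π q l α = φ α := by
  obtain ⟨l, hl⟩ := exists_kv (π := π) (V := V) q h (toDual φ hφ)
  refine ⟨l, fun α hα => ?_⟩
  have h1 := (ac_iff (⟨α, hα.1⟩ : SF (Amb N) q)).2 hα
  refine (kev_cl_QNk h l ⟨α, hα.1⟩ h1).trans ?_
  rw [hl]
  exact toDual_cl hφ ⟨α, hα.1⟩ h1

theorem kev_rs_QNk (q : ℕ) (hle : W ≤ V) (l : Sec (PW.Kx d π) j V) (α : Form N q)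
    (hα : Ac Z (PW.up π W) α) : kev d π q (rs hle l) α = kev d π q l α := by
  by_cases h : q + j = 2 * d
  · have h1 := (ac_iff (⟨α, hα.1⟩ : SF (Amb N) q)).2 hα
    exact (kev_cl_QNk h (rs hle l) ⟨α, hα.1⟩ h1).trans ((kv_rs hle l q h _).trans
      (kev_cl_QNk h l ⟨α, hα.1⟩ (PW.ac_mono π hle q h1)).symm)
  · rw [kev_ne_QNk h, kev_ne_QNk h]

theorem kev_dv_QNk (q : ℕ) (l : Sec (PW.Kx d π) j V) (α : Form N q)
    (hα : Ac Z (PW.up π V) α) : kev d π q (dv (j + 1) l) α = kev d π (q + 1) l (dd α) := by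
  by_cases h : q + (j + 1) = 2 * d
  · have h1 := (ac_iff (⟨α, hα.1⟩ : SF (Amb N) q)).2 hα
    exact (kev_cl_QNk h (dv (j + 1) l) ⟨α, hα.1⟩ h1).trans ((kv_dv l q h _).trans
      (kev_cl_QNk (by omega) l (SF.d q ⟨α, hα.1⟩) (PW.ac_d _ q _ h1)).symm)
  · rw [kev_ne_QNk h, kev_ne_QNk (by omega)]

variable (π) in
/-- The canonical resolution datum. -/
def kres [Finite ι] (h : IsSNC d Z D) : Res Y where
  N := N
  d := d
  ι := ι
  fin := inferInstance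
  Z := Z
  D := D
  snc := h
  π := π
  up := PW.up π
  up_eq _ := rfl
  K := PW.Kx d π
  ev q l α := kev d π q l α
  lin _ _ q := kev_lin_QNk q
  isFun _ _ q := kev_isFun_QNk q
  inj _ _ := kev_inj_QNk
  surj _ _ q := kev_surj_QNk q
  ev_rs _ _ _ q := kev_rs_QNk q
  ev_dv _ _ q := kev_dv_QNk q

end Pool.Agent.PQ
end
end

-- part Pool.Agent.P.MP_65ad7c_ag.QNl
section

/-! The local cohomology of the complex of duals of compactly supported forms. -/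

open Set CategoryTheory TopologicalSpace Opposite

noncomputable section
namespace Pool.Agent.PQ

open Pool.Agent.HT (SF Om Geo)
open Pool.Agent.QN

variable {Y : Type} [TopologicalSpace Y] {N d : ℕ} {ι : Type} {Z : Set (Amb N)}
  {D : ι → Set (Amb N)} {π : C(↥(Z \ ⋃ a, D a), Y)} {j : ℕ} {V : Opens Y}

theorem van_bot (c : Sec (PW.Kx d π) j V) : Van ⊥ c := by
  refine kv_ext fun q hq α => ?_
  have h0 : PW.up π (V ⊓ ⊥) = ∅ := by simp [PW.up]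
  have h1 : α = 0 := by
    have h2 : α.1 ∈ HT.Ac Z ∅ q := h0 ▸ α.2
    rw [ac_empty] at h2
    exact Subtype.ext h2
  rw [h1, map_zero, map_zero]

theorem exact_top (I : PCx Y) (x : Y) (n : ℕ) : ExactAt I ⊤ x n := by
  refine ⟨fun V hx c hc => ⟨V ⊓ ⊤, inf_le_left, 0, ⟨hx, trivial⟩, ?_, ?_⟩⟩
  · exact map_zero _
  · exact (map_zero _).trans hc.van.symm

variable [Finite ι] {b : Module.Basis (Fin (2 * d)) ℝ (Fin d → ℂ)}
  {lam : Module.Dual ℂ (Om Z (2 * d))}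

/-- the local Poincare lemma in terms of open sets of `Y` -/
theorem loc_Y (h : Geo d Z D) (hπ : IsHomeomorph π) (hl : IsLam Z b lam) {x : Y} (hx : x ∈ V) :
    ∃ W : Opens Y, W ≤ V ∧ x ∈ W ∧
      (∀ n < 2 * d, ∀ α ∈ HT.Ac Z (PW.up π W) n, Om.d Z n α = 0 → α ∈ Bd Z (PW.up π V) n) ∧
      ∀ α ∈ HT.Ac Z (PW.up π W) (2 * d), lam α = 0 → α ∈ Bd Z (PW.up π V) (2 * d) := by
  obtain ⟨G, hG, e⟩ := up_open h π V
  obtain ⟨u, rfl⟩ := hπ.surjective x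
  have hu : u.1 ∈ Z ∩ G := e ▸ (⟨u, hx, rfl⟩ : u.1 ∈ PW.up π V)
  obtain ⟨G', hG', huG', hsub, h1, h2⟩ := loc_poin h hl hu.1 hG hu.2
  let W : Opens Y := ⟨π '' (Subtype.val ⁻¹' G'),
    hπ.isOpenMap _ (hG'.preimage continuous_subtype_val)⟩
  have hW : PW.up π W ⊆ Z ∩ G' := by
    rintro _ ⟨v, ⟨w, hw, hwv⟩, rfl⟩
    obtain rfl := hπ.injective hwv
    exact ⟨w.2.1, hw⟩
  refine ⟨W, ?_, ⟨u, huG', rfl⟩, fun n hn α hα hd => ?_, fun α hα hd => ?_⟩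
  · rintro _ ⟨v, hv, rfl⟩
    have h3 : v.1 ∈ PW.up π V := e ▸ (⟨v.2.1, hsub hv⟩ : v.1 ∈ Z ∩ G)
    obtain ⟨w, hw, hwv⟩ := h3
    obtain rfl := Subtype.ext hwv
    exact hw
  · rw [e]
    exact h1 n hn α (HT.Ac.mono Z hW hα) hd
  · rw [e]
    exact h2 α (HT.Ac.mono Z hW hα) hd

theorem kv_bd {c : Sec (PW.Kx d π) j V} (hc : dv (j + 1) c = 0) (q : ℕ) (hq : q + j = 2 * d)
    (α : HT.Ac Z (PW.up π V) q) (hα : α.1 ∈ Bd Z (PW.up π V) q) : kv π c q hq α = 0 := by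
  cases q with
  | zero =>
    have h1 : α = 0 := Subtype.ext hα
    rw [h1, map_zero]
  | succ q =>
    obtain ⟨β, hβ, e⟩ := hα
    have h1 := kv_dv c q (by omega) ⟨β, hβ⟩
    rw [hc, kv_zero] at h1
    have h2 : α = ⟨Om.d Z q β, PW.ac_d _ q β hβ⟩ := Subtype.ext e.symm
    rw [h2]
    exact h1.symm

theorem kx_exact (h : Geo d Z D) (hπ : IsHomeomorph π) (hl : IsLam Z b lam) (x : Y) {n : ℕ}
    (hn : 0 < n) : ExactAt (PW.Kx d π) ⊥ x n := by
  obtain ⟨n, rfl⟩ : ∃ n', n = n' + 1 := ⟨n - 1, by omega⟩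
  refine ⟨fun V hx c hc => ?_⟩
  obtain ⟨W, hW, hxW, h1, -⟩ := loc_Y h hπ hl hx
  by_cases hq : ∃ q, q + (n + 1) = 2 * d
  · obtain ⟨q, hq⟩ := hq
    let δ : HT.Ac Z (PW.up π W) q →ₗ[ℂ] HT.Ac Z (PW.up π W) (q + 1) :=
      (Om.d Z q).restrict (PW.ac_d _ q)
    have h2 : kv π (rs hW c) q hq ∈ (LinearMap.ker δ).dualAnnihilator := by
      refine (Submodule.mem_dualAnnihilator _).2 fun α hα => ?_
      rw [kv_rs]
      exact kv_bd hc.cyc q hq _ (h1 q (by omega) α.1 α.2 (congrArg Subtype.val hα))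
    rw [← LinearMap.range_dualMap_eq_dualAnnihilator_ker] at h2
    obtain ⟨μ, hμ⟩ := h2
    have hq1 : q + 1 + n = 2 * d := by omega
    obtain ⟨l, hl'⟩ := exists_kv (π := π) (V := W) (q + 1) hq1 μ
    refine ⟨W, hW, l, hxW, van_bot l, kv_ext fun q' hq' α => ?_⟩
    obtain rfl : q' = q := by omega
    refine (kv_dv l q' hq' α).trans ?_
    rw [hl', ← hμ]
    rfl
  · exact ⟨W, hW, 0, hxW, van_bot _, kv_ext fun q' hq' _ => (hq ⟨q', hq'⟩).elim⟩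

end Pool.Agent.PQ
end
end

-- part Pool.Agent.P.MP_65ad7c_ag.QNl2
section

/-! The fundamental class generates the cohomology in degree zero. -/

open Set CategoryTheory TopologicalSpace Opposite

noncomputable section
namespace Pool.Agent.PQ

open Pool.Agent.HT (SF Om Geo)
open Pool.Agent.QN

variable {Y : Type} [TopologicalSpace Y] {N d : ℕ} {ι : Type} {Z : Set (Amb N)}
  {D : ι → Set (Amb N)} {π : C(↥(Z \ ⋃ a, D a), Y)} {j : ℕ} {V : Opens Y}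

variable [Finite ι] {b : Module.Basis (Fin (2 * d)) ℝ (Fin d → ℂ)}
  {lam : Module.Dual ℂ (Om Z (2 * d))}

variable {one : Sec (PW.Kx d π) 0 ⊤}

omit [Finite ι] in
theorem key_QNl2 (h : Geo d Z D) {t : ℕ} (ht : t + 0 = 2 * d) {e : Fin t → Fin d → ℂ}
    {lam : Module.Dual ℂ (Om Z t)} (hl : IsLam Z e lam) (h1 : ∀ α, kv π one t ht α = lam α.1)
    (q : ℕ) (hq : q + (0 + 1) = 2 * d) (α : HT.Ac Z (PW.up π ⊤) q) :
    kv π (dv (0 + 1) one) q hq α = 0 := by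
  obtain rfl : t = q + 1 := by omega
  rw [kv_dv]
  exact (h1 _).trans (hl.stokes h α.1)

theorem smul_QNl2 {A : Type} [AddCommGroup A] [Module ℂ A] (φ ψ : Module.Dual ℂ A)
    (h : ∀ α, ψ α = 0 → φ α = 0) : ∃ a : ℂ, ∀ α, φ α = a * ψ α := by
  by_cases h0 : ∃ β, ψ β ≠ 0
  · obtain ⟨β, hβ⟩ := h0
    refine ⟨φ β / ψ β, fun α => ?_⟩
    have h1 := h (ψ β • α - ψ α • β) (by simp [mul_comm])
    rw [map_sub, map_smul, map_smul, smul_eq_mul, smul_eq_mul] at h1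
    field_simp
    linear_combination h1
  · push Not at h0
    exact ⟨0, fun α => by rw [h α (h0 α), zero_mul]⟩

theorem one_closed (h : Geo d Z D) (hl : IsLam Z b lam)
    (h1 : ∀ α, kv π one (2 * d) rfl α = lam α.1) : Cyc ⊥ one := by
  exact ⟨kv_ext fun q hq α => key_QNl2 h rfl hl h1 q hq α, van_bot one⟩

theorem one_ne (h : Geo d Z D) (hπ : IsHomeomorph π) (hl : IsLam Z b lam)
    (h1 : ∀ α, kv π one (2 * d) rfl α = lam α.1) (V : Opens Y) (hV : V ≠ ⊥) :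
    rs (le_top : V ≤ ⊤) one ≠ 0 := by
  intro h0
  obtain ⟨x, hx⟩ : (V : Set Y).Nonempty := (Opens.ne_bot_iff_nonempty V).1 hV
  obtain ⟨z, rfl⟩ := hπ.surjective x
  obtain ⟨W, hW, e⟩ := up_open h π V
  have hz : z.1 ∈ Z ∩ W := e ▸ ⟨z, hx, rfl⟩
  obtain ⟨α, hα, hne⟩ := hl.ne h hz.1 hW hz.2
  rw [← e] at hα
  have h2 := kv_rs (le_top : V ≤ ⊤) one (2 * d) rfl ⟨α, hα⟩
  rw [h0, h1] at h2
  exact hne h2.symm

theorem one_gen (h : Geo d Z D) (hπ : IsHomeomorph π) (hl : IsLam Z b lam)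
    (h1 : ∀ α, kv π one (2 * d) rfl α = lam α.1) (V : Opens Y) (x : Y) (hx : x ∈ V)
    (c : Sec (PW.Kx d π) 0 V) (hc : Cyc ⊥ c) :
    ∃ a : ℂ, LocBd ⊥ x (c - a • rs (le_top : V ≤ ⊤) one) := by
  obtain ⟨W, hW, hxW, -, h2⟩ := loc_Y h hπ hl hx
  obtain ⟨a, ha⟩ := smul_QNl2 (kv π (rs hW c) (2 * d) rfl)
    (lam.comp (HT.Ac Z (PW.up π W) (2 * d)).subtype) fun α hα => by
      rw [kv_rs]
      exact kv_bd hc.cyc _ _ _ (h2 α.1 α.2 hα)
  refine ⟨a, W, hW, 0, hxW, van_bot _, ?_⟩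
  have h3 : dv 0 (0 : Sec (PW.Kx d π) (0 - 1) W) = 0 := map_zero _
  rw [h3]
  refine kv_ext fun q hq α => ?_
  obtain rfl : q = 2 * d := hq
  have h4 := ha α
  rw [kv_rs] at h4
  rw [kv_rs, kv_sub, kv_smul, LinearMap.sub_apply, LinearMap.smul_apply, kv_rs, h1, h4]
  exact (sub_self _).symm

end Pool.Agent.PQ
end
end

-- part Pool.Agent.P.MP_65ad7c_ag.QNm
section

/-! A model exists when the space is the complement of the divisor. -/

open Set CategoryTheory TopologicalSpace Opposite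

noncomputable section
namespace Pool.Agent.PQ

open Pool.Agent.HT (SF Om Geo)
open Pool.Agent.QN

variable {Y : Type} [TopologicalSpace Y] {N d : ℕ} {ι : Type} {Z : Set (Amb N)}
  {D : ι → Set (Amb N)} {π : C(↥(Z \ ⋃ a, D a), Y)}

/-- the trivial stratification -/
def triv : ℕ → Opens Y
  | 0 => ⊥
  | _ + 1 => ⊤

theorem y_chart [Finite ι] (h : Geo d Z D) (hπ : IsHomeomorph π) (x : Y) :
    ∃ (W : Opens Y) (φ : W → Fin d → ℂ), x ∈ W ∧ Topology.IsOpenEmbedding φ := by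
  let e := hπ.homeomorph
  obtain ⟨A, hA⟩ := h.chart (e.symm x).1 (e.symm x).2.1
  have hc : Continuous fun y : Y => (e.symm y).1 := continuous_subtype_val.comp e.symm.continuous
  let W : Opens Y := ⟨(fun y : Y => (e.symm y).1) ⁻¹' A.W, A.W_open.preimage hc⟩
  refine ⟨W, fun y => A.φ (e.symm y.1).1, ?_, ?_⟩
  · change (e.symm x).1 ∈ A.W
    rw [← hA]
    exact (A.ψ_mem _ (Metric.mem_ball_self A.ρ_pos)).2
  · have hz : ∀ y : W, A.ψ (A.φ (e.symm y.1).1) = (e.symm y.1).1 := fun y =>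
      A.ψφ _ ⟨(e.symm y.1).2.1, y.2⟩
    refine .of_continuous_injective_isOpenMap
      (A.φ_smooth.continuous.comp (hc.comp continuous_subtype_val)) (fun y y' hy => ?_) ?_
    · refine Subtype.ext (e.symm.injective (Subtype.ext ?_))
      rw [← hz y, ← hz y']
      exact congrArg A.ψ hy
    · intro S hS
      obtain ⟨G, hG, eG⟩ := up_open h π ⟨Subtype.val '' S, W.2.isOpenMap_subtype_val S hS⟩
      have : (fun y : W => A.φ (e.symm y.1).1) '' S = Metric.ball A.c A.ρ ∩ A.ψ ⁻¹' G := by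
        ext z
        constructor
        · rintro ⟨y, hy, rfl⟩
          refine ⟨A.φ_mem _ y.2, ?_⟩
          rw [mem_preimage, hz y]
          exact (eG.subset ⟨e.symm y.1, ⟨y, hy, (e.apply_symm_apply y.1).symm⟩, rfl⟩).2
        · rintro ⟨h1, h2⟩
          obtain ⟨u, ⟨y, hy, hu⟩, hu'⟩ := eG.superset ⟨(A.ψ_mem z h1).1, h2⟩
          refine ⟨y, hy, ?_⟩
          have : e.symm y.1 = u := by rw [hu]; exact e.symm_apply_apply u
          change A.φ (e.symm y.1).1 = z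
          rw [this, hu', A.φψ z h1]
      rw [this]
      exact Metric.isOpen_ball.inter (hG.preimage A.ψ_smooth.continuous)

theorem rs_rs_QNm {I : PCx Y} {n : ℕ} {V W T : Opens Y} (h : W ≤ V) (h' : T ≤ W) (c : Sec I n V) :
    rs h' (rs h c) = rs (h'.trans h) c := by
  unfold rs
  rw [← ModuleCat.comp_apply, ← Functor.map_comp]
  rfl

theorem dv_zero_QNm {I : PCx Y} {V : Opens Y} (c : Sec I 0 V) : dv 0 c = 0 := by
  unfold dv ap
  rw [I.shape 0 0 (by simp)]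
  rfl

theorem kx_ic [Finite ι] (h : Geo d Z D) (hπ : IsHomeomorph π)
    {b : Module.Basis (Fin (2 * d)) ℝ (Fin d → ℂ)} {lam : Module.Dual ℂ (Om Z (2 * d))}
    (hl : IsLam Z b lam) {one : Sec (PW.Kx d π) 0 ⊤}
    (h1 : ∀ α, kv π one (2 * d) rfl α = lam α.1) : IsIC d triv (PW.Kx d π) one := by
  have hc := one_closed h hl h1
  refine ⟨monotone_nat_of_le_succ fun _ => le_top, rfl, rfl, fun c x hx => ?_,
    kx_inj h π d, hc, fun V _ hV => one_ne h hπ hl h1 V hV,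
    fun V _ x hx c hc => one_gen h hπ hl h1 V x hx c hc,
    fun _ x _ n hn _ => kx_exact h hπ hl x hn, fun c hc x _ n _ => ?_, fun c n => ⟨fun x hx => ?_⟩⟩
  · rcases c with _ | c
    · obtain ⟨W, φ, hW, hφ⟩ := y_chart h hπ x
      have e : ((W : Set Y) ∩ ((triv (0 + 1) : Opens Y) \ (triv 0 : Opens Y))) = W :=
        inter_eq_left.2 fun y _ => ⟨trivial, id⟩
      exact ⟨W, φ ∘ Homeomorph.setCongr e, hW, hφ.comp (Homeomorph.setCongr e).isOpenEmbedding⟩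
    · exact (hx.2 trivial).elim
  · obtain ⟨c, rfl⟩ := Nat.exists_eq_add_one.2 hc
    exact exact_top _ x n
  · rcases c with _ | c
    swap
    · exact (hx.2 trivial).elim
    rcases n with _ | n
    · refine ⟨⊤, Submodule.span ℂ {one}, trivial, fun b hb => ?_, fun y _ _ => ⟨fun b hb hy => ?_,
        fun V hV c hy hc => ?_⟩⟩
      · obtain ⟨a, rfl⟩ := Submodule.mem_span_singleton.1 hb
        refine ⟨?_, van_bot _⟩
        exact (map_smul (ModuleCat.Hom.hom _) a one).trans (by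
          rw [show (ModuleCat.Hom.hom _) one = _ from hc.cyc, smul_zero])
      · obtain ⟨a, rfl⟩ := Submodule.mem_span_singleton.1 hb
        obtain ⟨W, hW, b, hy, -, e⟩ := hy.bd
        have e' : a • rs hW one = 0 :=
          (map_smul (ModuleCat.Hom.hom _) a one).symm.trans (e.symm.trans (dv_zero_QNm b))
        rcases smul_eq_zero.1 e' with h0 | h0
        · rw [h0, zero_smul]
        · exact (one_ne h hπ hl h1 W (fun hb => by rw [hb] at hy; exact hy) h0).elim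
      · obtain ⟨a, ha⟩ := one_gen h hπ hl h1 V y hy c hc
        refine ⟨a • one, Submodule.mem_span_singleton.2 ⟨a, rfl⟩, ?_⟩
        rwa [show rs hV (a • one) = a • rs hV one from map_smul (ModuleCat.Hom.hom _) a one]
    · refine ⟨⊤, ⊥, trivial, fun b hb => ?_, fun y _ _ => ⟨fun b hb _ => hb,
        fun V hV c hy hc => ⟨0, zero_mem _, ?_⟩⟩⟩
      · rw [show b = 0 from hb]
        exact ⟨map_zero (ModuleCat.Hom.hom _), van_bot _⟩
      · rw [show rs hV (0 : Sec (PW.Kx d π) (n + 1) ⊤) = 0 from map_zero (ModuleCat.Hom.hom _),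
          sub_zero]
        exact (kx_exact h hπ hl y n.succ_pos).ex V hy c hc

theorem model_smooth (S : Y → Y → Prop) (N d : ℕ) (ι : Type) [Finite ι] (Z : Set (Amb N))
    (D : ι → Set (Amb N)) (h : IsSNC d Z D) (π : ↥(Z \ ⋃ a, D a) ≃ₜ Y) (cjZ : MapsTo cj Z Z)
    (cjD : ∀ a, ∃ b, MapsTo cj (D a) (D b))
    (cjπ : ∀ u u', u'.1 = cj u.1 → S (π u) (π u')) :
    ∃ M : Model S, M.R.N = N ∧ M.R.ι = ι ∧ HEq M.R.Z Z ∧ HEq M.R.D D ∧ M.I = M.R.K ∧
      HEq M.p (𝟙 M.I) := by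
  have hg := h.ht.geo'
  obtain ⟨b, hb⟩ := exists_fr d
  obtain ⟨lam, hl⟩ := exists_lam hg b
  let p : C(↥(Z \ ⋃ a, D a), Y) := π
  obtain ⟨one, h1⟩ := exists_kv (π := p) (d := d) (j := 0) (V := ⊤) (2 * d) rfl
    (lam.domRestrict _)
  have hid : ∀ j (l : Sec (PW.Kx d p) j ⊤), mp (𝟙 (PW.Kx d p) ≫ 𝟙 (PW.Kx d p)) l = l := fun _ _ => rfl
  have e : (fun (i : Fin (2 * d)) (k : Fin d) =>
      if (k : ℕ) = i / 2 then Complex.I ^ ((i : ℕ) % 2) else 0) = fr d := by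
    funext i k
    rw [fr, Pi.single_apply]
    simp only [Fin.ext_iff]
  have hi : IsInt d Z (PW.up p ⊤) (kev d p (2 * d) one) := ⟨fun O f hf α h2 h3 => by
    rw [e, ← hb, kev_eq rfl, h1]
    exact (ofDual_cl _ ⟨α, h2.1⟩ ((ac_iff ⟨α, h2.1⟩).2 h2)).trans
      (hl O f (chart_iff.1 hf) ⟨α, h2.1⟩ ((ac_iff ⟨α, h2.1⟩).2 h3))⟩
  exact ⟨⟨kres p h, triv, PW.Kx d p, one,
    kx_ic hg π.isHomeomorph hl fun α => by rw [h1]; rfl, cjZ, cjD, cjπ, 𝟙 _, 𝟙 _,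
    ⟨Homotopy.ofEq (Category.comp_id _)⟩, hi,
    fun j _ l hl => (hid j l).symm ▸ hl, fun j _ l hl => (hid j l).symm ▸ hl,
    fun j _ l hl => (hid j l).symm ▸ hl⟩, rfl, rfl, HEq.rfl, HEq.rfl, rfl, HEq.rfl⟩

end Pool.Agent.PQ
end
end
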