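import Pool.Agent.P.MP_65ad7c_ag.DIa
import Pool.Agent.K.MP_65ad7c_ag.C43
import Pool.Agent.P.MP_65ad7c_ag.HGeo0

/-! Topology of a normal crossing model: the map to `Y` is proper. -/

open Set Filter Topology TopologicalSpace
open scoped ContDiff ComplexConjugate
open Pool.Agent.HT

noncomputable section
namespace Pool.Agent.PWD

theorem cj_cj {M : ℕ} (x : Amb M) : cj M (cj M x) = x := by
  ext p; simp [cj]

theorem proj_dot {N : ℕ} (c v : Fin N → ℂ) (k : Fin N) :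
    ∑ j, c j * proj v (j, k) = (c ⬝ᵥ v) * conj (v k) / ∑ k, v k * conj (v k) := by
  simp [proj, dotProduct, Finset.sum_mul, Finset.sum_div, mul_div_assoc, mul_assoc]

theorem norm_sum_conj {N : ℕ} (v : Fin N → ℂ) : ‖∑ k, v k * conj (v k)‖ = ∑ k, ‖v k‖ ^ 2 := by
  simp only [Complex.mul_conj, ← Complex.ofReal_sum, Complex.normSq_eq_norm_sq, Complex.norm_real]
  exact Real.norm_of_nonneg (by positivity)

theorem norm_proj_dot_le {N : ℕ} (c : Fin N → ℂ) {v : Fin N → ℂ} (hv : v ≠ 0) (k : Fin N) :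
    ‖∑ j, c j * proj v (j, k)‖ * ‖v‖ ≤ ‖c ⬝ᵥ v‖ := by
  have h0 : 0 < ∑ k, ‖v k‖ ^ 2 := norm_sum_conj v ▸ norm_pos_iff.2 (sum_mul_conj_ne hv)
  have h1 : ‖v‖ ≤ √(∑ k, ‖v k‖ ^ 2) := (pi_norm_le_iff_of_nonneg (by positivity)).2 fun j =>
    Real.le_sqrt_of_sq_le (Finset.single_le_sum (f := fun k => ‖v k‖ ^ 2)
      (fun _ _ => by positivity) (Finset.mem_univ j))
  have h2 := (Real.le_sqrt (norm_nonneg _) h0.le).1 h1
  rw [proj_dot, norm_div, norm_mul, norm_sum_conj, RCLike.norm_conj, div_mul_eq_mul_div,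
    div_le_iff₀ h0, mul_assoc]
  have := norm_le_pi_norm v k
  gcongr
  nlinarith [norm_nonneg v]

theorem le_norm_proj_dot {N : ℕ} (c : Fin (N + 1) → ℂ) {v : Fin (N + 1) → ℂ} (hv : v ≠ 0) :
    ∃ k, ‖c ⬝ᵥ v‖ ≤ (N + 1) * ‖∑ j, c j * proj v (j, k)‖ * ‖v‖ := by
  have h0 : 0 < ∑ k, ‖v k‖ ^ 2 := norm_sum_conj v ▸ norm_pos_iff.2 (sum_mul_conj_ne hv)
  obtain ⟨k, hk⟩ := Finite.exists_max fun k => ‖v k‖
  have h1 : ‖v‖ = ‖v k‖ :=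
    le_antisymm ((pi_norm_le_iff_of_nonneg (norm_nonneg _)).2 hk) (norm_le_pi_norm v k)
  have h2 : ∑ j, ‖v j‖ ^ 2 ≤ (N + 1) * ‖v k‖ ^ 2 := by
    refine (Finset.sum_le_card_nsmul _ _ (‖v k‖ ^ 2) fun j _ => ?_).trans (by simp)
    have := hk j
    gcongr
  refine ⟨k, ?_⟩
  rw [proj_dot, norm_div, norm_mul, norm_sum_conj, RCLike.norm_conj, h1, ← mul_div_assoc,
    div_mul_eq_mul_div, le_div_iff₀ h0]
  nlinarith [norm_nonneg (c ⬝ᵥ v)]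

variable {R : Type} [CommRing R] [Algebra ℂ R] {Y : Set (R → ℂ)} {a d m : ℕ} {Q : Data Y a}
  {S : (R → ℂ) → (R → ℂ) → Prop} {U : ℕ → Opens Y} {W W' : Set Y}

section basic
omit [CommRing R] [Algebra ℂ R]

theorem Data.mem_pre {x : Amb Q.M} :
    x ∈ Q.pre W ↔ (x ∈ Q.X ∧ x ∉ ⋃ i ∈ Q.al, Q.D i) ∧ Q.π x ∈ W := Iff.rfl

theorem Data.pre_mono (h : W' ⊆ W) : Q.pre W' ⊆ Q.pre W := fun _ hx => ⟨hx.1, h hx.2⟩

theorem Data.pre_sub : Q.pre W ⊆ Q.X := fun _ hx => hx.1.1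

theorem Data.pre_univ : Q.pre univ = Q.X \ ⋃ i ∈ Q.al, Q.D i := inter_univ _

theorem Data.pre_inter : Q.pre (W ∩ W') = Q.pre W ∩ Q.pre W' :=
  Set.ext fun _ => ⟨fun h => ⟨⟨h.1, h.2.1⟩, h.1, h.2.2⟩, fun h => ⟨h.1.1, h.1.2, h.2.2⟩⟩

theorem vecf_ne {N : ℕ} (f : Fin N → R) (y : Y) : vecf f y ≠ 0 := fun h => by
  simpa [vecf] using congrFun h 0

theorem vecf_cont {N : ℕ} (f : Fin N → R) : Continuous (vecf (Y := Y) f) :=
  continuous_pi fun j => Fin.cases continuous_const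
    (fun j => (continuous_apply (f j)).comp continuous_subtype_val) j

theorem isOpen_PN {N b : ℕ} (f : Fin N → R) (c : Fin b → Fin (N + 1) → ℂ) (ε : ℝ) :
    IsOpen (PN (Y := Y) f c ε) := by
  have := vecf_cont (Y := Y) f
  simp only [PN, ofPred_forall]
  exact isOpen_iInter_of_finite fun i => isOpen_lt (by fun_prop) (by fun_prop)

theorem sub_PN {N b : ℕ} (f : Fin N → R) (c : Fin b → Fin (N + 1) → ℂ) {ε : ℝ} (hε : 0 < ε) :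
    {y : Y | ∀ i, c i ⬝ᵥ vecf f y = 0} ⊆ PN f c ε := fun y hy i => by
  rw [hy i, norm_zero]
  exact mul_pos hε (norm_pos_iff.2 (vecf_ne f y))

theorem PN_mono {N b : ℕ} (f : Fin N → R) (c : Fin b → Fin (N + 1) → ℂ) {ε ε' : ℝ} (h : ε ≤ ε') :
    PN (Y := Y) f c ε ⊆ PN f c ε' := fun _ hy i =>
  (hy i).trans_le (mul_le_mul_of_nonneg_right h (norm_nonneg _))

theorem Data.cont_j : Continuous fun y => proj (Q.vec y) :=
  continuous_iff_continuousAt.2 fun y =>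
    (proj_contDiffAt (vecf_ne Q.f y)).continuousAt.comp (vecf_cont Q.f).continuousAt

theorem Data.j_ne (y : Y) : proj (Q.vec y) (0, 0) ≠ 0 := by
  simpa [proj, Data.vec, vecf] using sum_mul_conj_ne (vecf_ne Q.f y)

end basic

namespace Data.IsModel
variable (hQ : Q.IsModel S d m U)
include hQ

theorem geo : Geo d Q.X Q.D := hQ.snc.geo'

theorem closedU (T : Finset (Fin Q.r)) : IsClosed (⋃ i ∈ T, Q.D i) :=
  T.finite_toSet.isClosed_biUnion fun i _ => hQ.geo.closed i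

theorem exists_ret : ∃ ρ : Wein.Ret (Amb Q.M), ρ.S = Q.X := by
  have h := hQ.geo.isSubmanifold (p := 0) Fin.elim0
  rw [strat, iInter_of_empty, inter_univ] at h
  exact Wein.exists_ret _ h.1 h.2

/-- the part of the model over an open set is open in `X` -/
theorem pre_open (hW : IsOpen W) : ∃ G, IsOpen G ∧ Q.pre W = Q.X ∩ G := by
  obtain ⟨G, hG, h⟩ := continuousOn_iff'.1 hQ.cont W hW
  refine ⟨G ∩ (⋃ i ∈ Q.al, Q.D i)ᶜ, hG.inter (hQ.closedU _).isOpen_compl, Set.ext fun x => ?_⟩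
  have := Set.ext_iff.1 h x
  exact ⟨fun hx => ⟨hx.1.1, (this.1 ⟨hx.2, hx.1, trivial⟩).1, hx.1.2⟩,
    fun hx => ⟨⟨hx.1, hx.2.2⟩, (this.2 ⟨hx.2.1, ⟨hx.1, hx.2.2⟩, trivial⟩).1⟩⟩

theorem pre_ev (hW : IsOpen W) {x : Amb Q.M} (hx : x ∈ Q.pre W) :
    ∀ᶠ y in 𝓝 x, y ∈ Q.X → y ∈ Q.pre W := by
  obtain ⟨G, hG, h⟩ := hQ.pre_open hW
  rw [h] at hx ⊢
  exact mem_of_superset (hG.mem_nhds hx.2) fun y hy hX => ⟨hX, hy⟩

theorem pre_disj (h : W ⊆ U 1) {x : Amb Q.M} (hx : x ∈ Q.pre W) : x ∉ ⋃ i ∈ Q.be, Q.D i :=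
  fun hE => (hQ.exc x ⟨hx.1, trivial⟩).2 hE (h hx.2)

theorem cj_mem (T : Finset (Fin Q.r)) {x : Amb Q.M} :
    cj Q.M x ∈ ⋃ i ∈ T, Q.D i ↔ x ∈ ⋃ i ∈ T, Q.D i := by
  simp only [mem_iUnion]
  exact exists₂_congr fun i _ => ⟨fun h => cj_cj x ▸ hQ.cjD i h, fun h => hQ.cjD i h⟩

theorem cj_pre {s : Y → Y} (hS : ∀ y y' : Y, S y.1 y'.1 → y' = s y) :
    MapsTo (cj Q.M) (Q.pre (s ⁻¹' W)) (Q.pre W) := fun x hx =>
  ⟨⟨hQ.cjX hx.1.1, fun h => hx.1.2 ((hQ.cj_mem _).1 h)⟩, by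
    rw [mem_preimage, hS _ _ (hQ.real x ⟨hx.1, trivial⟩)]; exact hx.2⟩

theorem inj_j (hY : IsVar Y) : Function.Injective fun y => proj (Q.vec y) := fun y y' h => by
  refine (hY.closedEmb hQ.gen).injective (funext fun j => ?_)
  have h0 := congrArg (fun p : Amb (Q.N + 1) => p (0, 0)) h
  have h1 := congrArg (fun p : Amb (Q.N + 1) => p (j.succ, 0)) h
  simp only [proj, Data.vec, Fin.cons_zero, Fin.cons_succ, map_one, mul_one, one_div,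
    inv_inj] at h0 h1
  rw [h0] at h1
  exact (div_left_inj' (sum_mul_conj_ne (vecf_ne Q.f y'))).1 h1

theorem mem_pre_of_ph (hY : IsVar Y) {x : Amb Q.M} (hx : x ∈ Q.X) {y : Y}
    (h : Q.ph x = proj (Q.vec y)) : x ∈ Q.pre {y} := by
  have h1 : x ∉ ⋃ i ∈ Q.al, Q.D i := fun hA => Data.j_ne y (h ▸ hQ.ph_inf x hA)
  exact ⟨⟨hx, h1⟩, hQ.inj_j hY ((hQ.ph_eq x ⟨⟨hx, h1⟩, trivial⟩).symm.trans h)⟩

/-- `π` is closed -/
theorem closed_image (hY : IsVar Y) {C : Set (Amb Q.M)} (hC : IsClosed C) :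
    IsClosed (Q.π '' (Q.pre univ ∩ C)) := by
  have h := (((hQ.snc.compact.inter_right hC).image_of_continuousOn
    (hQ.ph_cont.mono inter_subset_left)).isClosed).preimage Data.cont_j
  convert h using 1
  ext y
  refine ⟨?_, fun ⟨x, hx, e⟩ => ?_⟩
  · rintro ⟨x, hx, rfl⟩
    exact ⟨x, ⟨hx.1.1.1, hx.2⟩, hQ.ph_eq x hx.1⟩
  · have := hQ.mem_pre_of_ph hY hx.1 e
    exact ⟨x, ⟨⟨this.1, trivial⟩, hx.2⟩, this.2⟩

/-- `π` is proper -/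
theorem compact_pre (hY : IsVar Y) {K : Set Y} (hK : IsCompact K) : IsCompact (Q.pre K) := by
  have h := hQ.ph_cont.preimage_isClosed_of_isClosed hQ.snc.compact.isClosed
    (hK.image Data.cont_j).isClosed
  convert hQ.snc.compact.of_isClosed_subset h inter_subset_left using 1
  ext x
  refine ⟨fun hx => ⟨hx.1.1, _, hx.2, (hQ.ph_eq x ⟨hx.1, trivial⟩).symm⟩,
    fun ⟨hx, y, hy, e⟩ => ?_⟩
  exact Data.pre_mono (singleton_subset_iff.2 hy) (hQ.mem_pre_of_ph hY hx e.symm)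

/-- neighbourhoods of `pre K` contain a saturated neighbourhood -/
theorem exists_nbhd (hY : IsVar Y) {K : Set Y} {G : Set (Amb Q.M)} (hG : IsOpen G)
    (h : Q.pre K ⊆ G) : ∃ O : Opens Y, K ⊆ O ∧ Q.pre O ⊆ G := by
  refine ⟨⟨_, (hQ.closed_image hY hG.isClosed_compl).isOpen_compl⟩, ?_, fun x hx => ?_⟩
  · rintro y hy ⟨x, hx, rfl⟩
    exact hx.2 (h ⟨hx.1.1, hy⟩)
  · by_contra hx'
    exact hx.2 ⟨x, ⟨⟨hx.1, trivial⟩, hx'⟩, rfl⟩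

theorem exists_nbhd_pt (hY : IsVar Y) {x : Amb Q.M} (hx : x ∈ Q.pre (U 1)) {G : Set (Amb Q.M)}
    (hG : G ∈ 𝓝 x) : ∃ O : Opens Y, Q.π x ∈ O ∧ Q.pre O ⊆ G := by
  obtain ⟨O, h1, h2⟩ := hQ.exists_nbhd hY (K := {Q.π x}) (G := interior G) isOpen_interior
    fun y hy => by
      rw [hQ.inj ⟨hy.1, by rw [mem_preimage, hy.2]; exact hx.2⟩ hx hy.2]
      exact mem_interior_iff_mem_nhds.2 hG
  exact ⟨O, h1 rfl, h2.trans interior_subset⟩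

section hyp
variable {b : ℕ} (e : Fin b → Fin (a + 1))

/-- the part of the model over a linear section -/
theorem pre_hyp : Q.pre {y | ∀ i, Q.c (e i) ⬝ᵥ vecf Q.f y = 0} =
    (Q.X ∩ ⋂ i, Q.D (Q.h (e i))) \ ⋃ i ∈ Q.al, Q.D i := by
  have key : ∀ x ∈ Q.pre univ, ∀ i, x ∈ Q.D (Q.h i) ↔ Q.c i ⬝ᵥ vecf Q.f (Q.π x) = 0 := by
    intro x hx i
    rw [hQ.ph_hyp i x hx.1.1, hQ.ph_eq x hx, Data.vec_eq]
    simp only [proj_dot]
    refine ⟨fun h => ?_, fun h k => by simp [h]⟩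
    simpa [vecf, sum_mul_conj_ne (vecf_ne Q.f (Q.π x))] using
      (div_eq_zero_iff.1 (h 0)).resolve_right (sum_mul_conj_ne (vecf_ne Q.f (Q.π x)))
  ext x
  exact ⟨fun hx => ⟨⟨hx.1.1, mem_iInter.2 fun i => (key x ⟨hx.1, trivial⟩ _).2 (hx.2 i)⟩, hx.1.2⟩,
    fun hx => ⟨⟨hx.1.1, hx.2⟩, fun i =>
      (key x ⟨⟨hx.1.1, hx.2⟩, trivial⟩ _).1 (mem_iInter.1 hx.1.2 i)⟩⟩

theorem cont_L : ContinuousOn (fun x (p : Fin b × Fin (Q.N + 1)) =>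
    ∑ j, Q.c (e p.1) j * Q.ph x (j, p.2)) Q.X := by
  have := hQ.ph_cont
  fun_prop

/-- open sets that contain the closure of a linear section contain a projective neighbourhood -/
theorem exists_PN {G : Set (Amb Q.M)} (hG : IsOpen G) (h : (Q.X ∩ ⋂ i, Q.D (Q.h (e i))) ⊆ G) :
    ∃ ε > 0, Q.pre (PN Q.f (fun i => Q.c (e i)) ε) ⊆ G := by
  obtain ⟨ε, hε, h1⟩ := (hQ.snc.compact.diff hG).exists_forall_le'
    ((hQ.cont_L e).norm.mono sdiff_subset) (a := 0) fun x hx => norm_pos_iff.2 fun h0 =>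
      hx.2 (h ⟨hx.1, mem_iInter.2 fun i => (hQ.ph_hyp _ x hx.1).2 fun k => congrFun h0 (i, k)⟩)
  refine ⟨ε, hε, fun x hx => by_contra fun hx' => (h1 x ⟨hx.1.1, hx'⟩).not_gt ?_⟩
  refine (pi_norm_lt_iff hε).2 fun p => ?_
  rw [hQ.ph_eq x ⟨hx.1, trivial⟩]
  exact lt_of_mul_lt_mul_right ((norm_proj_dot_le _ (vecf_ne Q.f _) _).trans_lt (hx.2 p.1))
    (norm_nonneg _)

/-- a projective neighbourhood comes from a neighbourhood in `X` -/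
theorem PN_open {ε : ℝ} (hε : 0 < ε) : ∃ G, IsOpen G ∧ (Q.X ∩ ⋂ i, Q.D (Q.h (e i))) ⊆ G ∧
    (Q.X ∩ G) \ (⋃ i ∈ Q.al, Q.D i) = Q.pre (PN Q.f (fun i => Q.c (e i)) ε) := by
  obtain ⟨G1, hG1, h1⟩ := hQ.pre_open (isOpen_PN Q.f (fun i => Q.c (e i)) ε)
  obtain ⟨G2, hG2, h2⟩ := continuousOn_iff'.1 (hQ.cont_L e).norm (Iio (ε / (Q.N + 1))) isOpen_Iio
  refine ⟨G1 ∪ G2, hG1.union hG2, fun x hx => Or.inr ((Set.ext_iff.1 h2 x).1 ⟨?_, hx.1⟩).1,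
    Set.ext fun x => ⟨fun hx => hx.1.2.elim (fun h => h1 ▸ ⟨hx.1.1, h⟩) fun h => ?_,
      fun hx => ⟨⟨hx.1.1, Or.inl (h1 ▸ hx).2⟩, hx.1.2⟩⟩⟩
  · have : (fun p : Fin b × Fin (Q.N + 1) => ∑ j, Q.c (e p.1) j * Q.ph x (j, p.2)) = 0 :=
      funext fun p => (hQ.ph_hyp _ x hx.1).1 (mem_iInter.1 hx.2 p.1) p.2
    rw [mem_preimage, this, norm_zero, mem_Iio]
    positivity
  · refine ⟨⟨hx.1.1, hx.2⟩, fun i => ?_⟩
    obtain ⟨k, hk⟩ := le_norm_proj_dot (Q.c (e i)) (vecf_ne Q.f (Q.π x))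
    have h3 := (norm_le_pi_norm _ (i, k)).trans_lt ((Set.ext_iff.1 h2 x).2 ⟨h, hx.1.1⟩).1
    rw [hQ.ph_eq x ⟨⟨hx.1.1, hx.2⟩, trivial⟩, lt_div_iff₀' (by positivity)] at h3
    exact hk.trans_lt (mul_lt_mul_of_pos_right h3 (norm_pos_iff.2 (vecf_ne Q.f _)))

end hyp

end Data.IsModel

end Pool.Agent.PWD
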