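import Pool.Agent.K.MP_65ad7c_ag.C46

/-! The de Rham complex of a model, extended by zero, is a soft resolution. -/

open Set Filter Topology TopologicalSpace Metric
open scoped ContDiff
open Pool.Agent.HT

noncomputable section
namespace Pool.Agent.PWD

/-- contractible neighbourhoods in a manifold -/
theorem exists_contr {N d : ℕ} {ι : Type} {Z : Set (Amb N)} {D : ι → Set (Amb N)} (h : Geo d Z D)
    {x : Amb N} (hx : x ∈ Z) {G : Set (Amb N)} (hG : G ∈ 𝓝 x) :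
    ∃ (G' : Set (Amb N)) (H : ℝ × Amb N → Amb N), G' ∈ 𝓝 x ∧ Z ∩ G' ⊆ G ∧ ContDiff ℝ ∞ H ∧
      (∀ t, ∀ y ∈ Z ∩ G', H (t, y) ∈ Z ∩ G') ∧ (∀ y ∈ Z ∩ G', H (1, y) = y) ∧
      ∀ y, H (0, y) = x := by
  obtain ⟨A, rfl⟩ := h.chart x hx
  have hc := mem_ball_self (x := A.c) A.ρ_pos
  obtain ⟨r, hr, hb⟩ := Metric.mem_nhds_iff.1
    (inter_mem (A.ψ_smooth.continuous.continuousAt hG) (ball_mem_nhds _ A.ρ_pos))
  refine ⟨A.W ∩ A.φ ⁻¹' ball A.c r, fun p => A.ψ (A.c + Real.smoothTransition p.1 • (A.φ p.2 - A.c)),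
    inter_mem (A.W_open.mem_nhds (A.ψ_mem _ hc).2) (A.φ_smooth.continuous.continuousAt
      (by rw [A.φψ _ hc]; exact ball_mem_nhds _ hr)), fun y hy => ?_,
    A.ψ_smooth.comp (contDiff_const.add ((Real.smoothTransition.contDiff.comp contDiff_fst).smul
      ((A.φ_smooth.comp contDiff_snd).sub contDiff_const))), fun t y hy => ?_, fun y hy => ?_,
    fun y => by simp⟩
  · rw [← A.ψφ y ⟨hy.1, hy.2.1⟩]; exact (hb hy.2.2).1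
  · have h1 : A.c + Real.smoothTransition t • (A.φ y - A.c) ∈ ball A.c r :=
      (convex_ball A.c r).add_smul_sub_mem (mem_ball_self hr) hy.2.2
        ⟨Real.smoothTransition.nonneg t, Real.smoothTransition.le_one t⟩
    have h2 := A.ψ_mem _ (hb h1).2
    exact ⟨h2.1, h2.2, by rw [mem_preimage, A.φψ _ (hb h1).2]; exact h1⟩
  · simp [A.ψφ y ⟨hy.1, hy.2.1⟩]

variable {R : Type} [CommRing R] [Algebra ℂ R] {Y : Set (R → ℂ)} {a n d m : ℕ} {Q : Data Y a}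
  {S : (R → ℂ) → (R → ℂ) → Prop} {U : ℕ → Opens Y}

namespace Data.IsModel
variable (hQ : Q.IsModel S d m U)
include hQ

theorem van_loc {W : Set Y} {η : Form (Amb Q.M) n}
    (h : ∀ y ∈ W, ∃ O : Opens Y, y ∈ O ∧ Van (Q.pre O) η) : Van (Q.pre W) η :=
  Van.loc fun x hx => by
    obtain ⟨O, h1, h2⟩ := h _ hx.2
    exact ⟨_, hQ.pre_ev O.isOpen ⟨hx.1, h1⟩, h2.anti fun y hy => hy.2 hy.1.1.1⟩

/-- forms on open subsets of `X` glue -/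
theorem glue_forms {ι : Type} (T : ι → Set (Amb Q.M)) (hX : ∀ i, T i ⊆ Q.X)
    (hT : ∀ i, ∀ x ∈ T i, ∀ᶠ y in 𝓝 x, y ∈ Q.X → y ∈ T i) (η : ι → Form (Amb Q.M) n)
    (hs : ∀ i, Sm (T i) (η i)) (hc : ∀ i j, Van (T i ∩ T j) (η i - η j)) :
    ∃ z : Form (Amb Q.M) n, Sm (⋃ i, T i) z ∧ ∀ i, Van (T i) (z - η i) := by
  classical
  obtain ⟨ρ, hρ⟩ := hQ.exists_ret
  have hr : ∀ i, ∀ x ∈ ρ.W, ρ.r x ∈ T i → ∀ᶠ y in 𝓝 x, y ∈ ρ.W ∧ ρ.r y ∈ T i := fun i x hx h => by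
    filter_upwards [ρ.isOpen.mem_nhds hx, ρ.smooth.continuous.continuousAt.eventually (hT i _ h)]
      with y h1 h2 using ⟨h1, h2 (hρ ▸ ρ.maps h1)⟩
  have hf : ∀ i, ∀ x ∈ T i, ρ.r x = x := fun i x hx => ρ.fix x (hρ ▸ hX i hx)
  let z : Form (Amb Q.M) n := fun x =>
    if h : ∃ i, ρ.r x ∈ T i then pull ρ.r (η h.choose) x else 0
  have hz : ∀ i, ∀ x ∈ T i, z =ᶠ[𝓝 x] pull ρ.r (η i) := fun i x hx => by
    filter_upwards [hr i x (ρ.sub (hρ ▸ hX i hx)) ((hf i x hx).symm ▸ hx)] with y hy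
    have h : ∃ i, ρ.r y ∈ T i := ⟨i, hy.2⟩
    refine (dif_pos h).trans (sub_eq_zero.1 (van_iff.1 (hc h.choose i) ρ.r y ?_))
    filter_upwards [hr _ y hy.1 h.choose_spec, hr i y hy.1 hy.2] with w h1 h2
    exact ⟨ρ.smooth.contDiffAt, h1.2, h2.2⟩
  refine ⟨z, sm_iff.2 fun x hx => ?_, fun i => (Van.of_eq fun x hx => (hz i x hx).self_of_nhds).trans
    (Van.pull_self _ (fun _ _ => ρ.smooth.contDiffAt) (hf i))⟩
  obtain ⟨i, hi⟩ := mem_iUnion.1 hx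
  exact (((hs i).pull (fun _ _ => Eventually.of_forall fun _ => ρ.smooth.contDiffAt)
    fun y hy => (hf i y hy).symm ▸ hy).congr (hz i)).ev hi

theorem isSh (n : ℕ) : (Q.A n).IsSh := by
  refine ⟨fun W x h => ?_, fun O x h => ?_⟩
  · obtain ⟨η, hη, rfl⟩ := cl_surj x
    exact cl_eq_zero.2 (hQ.van_loc fun y hy => (near_cl.1 (h y hy)).imp fun _ h => h.2)
  · choose η hη e using fun i => cl_surj (x i)
    obtain ⟨z, h1, h2⟩ := hQ.glue_forms (fun i => Q.pre (O i)) (fun _ => pre_sub)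
      (fun i _ => hQ.pre_ev (O i).isOpen) η (fun i => (hη i).1) fun i j => by
        have := h i j
        rw [← e i, ← e j, res_cl, res_cl, cl_eq] at this
        exact this.anti fun y hy => ⟨hy.1.1, hy.1.2, hy.2.2⟩
    have hm : ∀ y ∈ Q.pre (⨆ i, O i : Opens Y), ∃ i, y ∈ Q.pre (O i) := fun y hy =>
      (Opens.mem_iSup.1 hy.2).imp fun i hi => ⟨hy.1, hi⟩
    refine ⟨cl z (adm_iff.2 ⟨h1.anti fun y hy => mem_iUnion.2 (hm y hy), fun y hy hE => ?_⟩),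
      fun i => by rw [← e i, res_cl, cl_eq]; exact h2 i⟩
    obtain ⟨i, hi⟩ := hm y hy
    obtain ⟨G, hG, h3⟩ := ((hη i).of_sub (h1.anti (subset_iUnion (fun i => Q.pre (O i)) i))
      (h2 i)).near hi hE
    exact ⟨_, inter_mem hG (hQ.pre_ev (O i).isOpen hi), h3.anti fun w hw =>
      ⟨hw.2.2 hw.1.1.1, hw.2.1⟩⟩

/-- cutting off an admissible form -/
theorem adm_cut {W W' : Set Y} (hW : IsOpen W) {η : Form (Amb Q.M) n} (h : Q.Adm W η)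
    {χ : Amb Q.M → ℝ} (hχ : ∀ x ∈ tsupport χ, x ∈ Q.pre W' → x ∈ Q.pre W)
    (hs : Sm (Q.pre W') fun x => χ x • η x) : Q.Adm W' fun x => χ x • η x :=
  adm_iff.2 ⟨hs, fun x hx hE => by
    by_cases hx' : x ∈ tsupport χ
    · obtain ⟨G, hG, h1⟩ := h.near (hχ x hx' hx) hE
      exact ⟨_, inter_mem hG (hQ.pre_ev hW (hχ x hx' hx)),
        (h1.anti fun w hw => ⟨hw.2.2 hw.1.1.1, hw.2.1⟩).fsmul χ⟩
    · exact ⟨_, (isClosed_tsupport χ).isOpen_compl.mem_nhds hx', .of_zero fun w hw => by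
        ext v; simp [image_eq_zero_of_notMem_tsupport hw.2]⟩⟩

variable (hY : IsVar Y)
include hY

theorem soft (n : ℕ) : (⊤ : Sub (Q.A n)).Soft := fun K O O₁ hK h h₁ x _ => by
  obtain ⟨η, hη, rfl⟩ := cl_surj x
  obtain ⟨G, hG, e⟩ := hQ.pre_open O.isOpen
  obtain ⟨χ, -, h1, h2, h3⟩ := exists_cut (hQ.compact_pre hY hK) hG
    (fun y hy => (e ▸ pre_mono h hy).2) (hη.1.anti (pre_mono h))
  obtain ⟨G', hG', h4, h5⟩ := mem_nhdsSet_iff_exists.1 h2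
  obtain ⟨O₂, h6, h7⟩ := hQ.exists_nbhd hY hG' h4
  refine ⟨cl _ (hQ.adm_cut O.isOpen hη (fun y hy hy' => e ▸ ⟨hy'.1.1, h1 hy⟩) (.of_contDiff h3)),
    trivial, O₂ ⊓ (O ⊓ O₁), inf_le_right.trans inf_le_left, inf_le_right.trans inf_le_right,
    fun y hy => ⟨h6 hy, h hy, h₁ hy⟩, cl_eq.2 (.of_eq fun y hy => ?_)⟩
  exact (congrArg (· • η y) (h5 (h7 ⟨hy.1, hy.2.1⟩))).trans (one_smul _ _)

theorem near_zero {W : Opens Y} (x : (Q.A n).obj W) {y : Y} (hy : y ∈ W) (hU : y ∉ U 1) :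
    (⊥ : Sub (Q.A n)).Near x y := by
  obtain ⟨η, ⟨h1, G, hG, h2, h3⟩, rfl⟩ := cl_surj x
  obtain ⟨O, h4, h5⟩ := hQ.exists_nbhd hY (K := {y}) hG fun w hw => h2 ⟨⟨hw.1, by
    rw [mem_preimage, hw.2]; exact hy⟩, (hQ.exc w ⟨hw.1, trivial⟩).1 (by rw [hw.2]; exact hU)⟩
  exact near_cl.2 ⟨O ⊓ W, inf_le_right, ⟨h4 rfl, hy⟩,
    h3.anti fun w hw => ⟨⟨hw.1, hw.2.2⟩, h5 ⟨hw.1, hw.2.1⟩⟩⟩

/-- the local situation of the Poincare lemma -/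
theorem exists_loc {W : Opens Y} {η : Form (Amb Q.M) n} (h : Q.Adm W η)
    (hd : Van (Q.pre W) (extDeriv η)) {y : Y} (hy : y ∈ W) (hU : y ∈ U 1) :
    ∃ (α : SF (Amb Q.M) n) (T : Set (Amb Q.M)) (H : ℝ × Amb Q.M → Amb Q.M) (x : Amb Q.M)
      (O : Opens Y), ContDiff ℝ ∞ H ∧ (∀ t, ∀ y ∈ T, H (t, y) ∈ T) ∧ (∀ y ∈ T, H (1, y) = y) ∧
      (∀ y, H (0, y) = x) ∧ Van T (extDeriv α.1) ∧ O ≤ W ∧ O ≤ U 1 ∧ y ∈ O ∧ Q.pre O ⊆ T ∧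
      Van T (η - α.1) := by
  obtain ⟨x, hx, rfl⟩ := hQ.surj (mem_univ y)
  have hx' : x ∈ Q.pre W := ⟨hx.1, hy⟩
  obtain ⟨χ, -, -, h2, h3⟩ := exists_cut isCompact_singleton isOpen_univ (subset_univ {x})
    (h.1.anti (singleton_subset_iff.2 hx'))
  rw [nhdsSet_singleton] at h2
  obtain ⟨G, H, hG, h4, hH, h5, h6, h7⟩ := exists_contr hQ.geo hx.1.1
    (inter_mem h2 (hQ.pre_ev W.isOpen hx'))
  obtain ⟨O, h8, h9⟩ := hQ.exists_nbhd_pt hY ⟨hx.1, hU⟩ hG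
  have hT : Q.X ∩ G ⊆ Q.pre W := fun w hw => (h4 hw).2 hw.1
  have he : Van (Q.X ∩ G) (η - fun x => χ x • η x) := .of_eq fun w hw => by
    rw [(h4 hw).1, one_smul]
  exact ⟨⟨_, h3⟩, Q.X ∩ G, H, x, O ⊓ (W ⊓ U 1), hH, h5, h6, h7,
    (he.d_sub (h.1.anti hT) (.of_contDiff h3)).symm.of_sub (hd.anti hT),
    inf_le_right.trans inf_le_left, inf_le_right.trans inf_le_right, ⟨h8, hy, hU⟩,
    fun w hw => ⟨hw.1.1, h9 ⟨hw.1, hw.2.1⟩⟩, he⟩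

variable {I : Cx Y} {one : Sec I 0 (U 1)} {u : ∀ n W, Form (Amb Q.M) n →ₗ[ℂ] Sec I n W}

/-- the de Rham complex of the model -/
def dr (hu : Q.IsNat one u) : DR one where
  A := Q.A
  d := Q.dA
  e := cl _ (hQ.adm_one subset_rfl)
  u := hu.uA
  d_d n W x := by
    obtain ⟨η, h, rfl⟩ := cl_surj x
    exact cl_eq_zero.2 (Van.dd h.1)
  sh := hQ.isSh
  soft := hQ.soft hY
  zero n W x y := hQ.near_zero hY x
  de := cl_eq_zero.2 (.of_zero fun x _ => congrFun d_one0 x)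
  poin0 W hW x hx y hy := by
    obtain ⟨η, h, rfl⟩ := cl_surj x
    obtain ⟨α, T, H, x, O, h1, h2, h3, h4, h5, h6, -, h8, h9, h10⟩ :=
      hQ.exists_loc hY h (cl_eq_zero.1 hx) hy (hW hy)
    exact ⟨_, near_cl.2 ⟨O, h6, h8, (h10.trans (Van.poin0 h1 h2 h3 h4 h5)).anti h9⟩⟩
  poin n W x hx y hy := by
    by_cases hU : y ∈ U 1
    · obtain ⟨η, h, rfl⟩ := cl_surj x
      obtain ⟨α, T, H, x, O, h1, h2, h3, h4, h5, h6, h7, h8, h9, h10⟩ :=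
        hQ.exists_loc hY h (cl_eq_zero.1 hx) hy hU
      obtain ⟨β, hβ, e⟩ := Van.poin h1 h2 h3 h4 h5
      exact ⟨O, h6, h8, cl β (hQ.adm_of_le h7 (.of_contDiff hβ)), trivial,
        cl_eq.2 ((e.trans h10.symm).anti h9)⟩
    · obtain ⟨O, h1, h2, h3⟩ := hQ.near_zero hY x hy hU
      exact ⟨O, h1, h2, (Submodule.mem_bot ℂ).1 h3 ▸ Submodule.zero_mem _⟩
  u_res n W W' hW x := by
    obtain ⟨η, h, rfl⟩ := cl_surj x
    exact hu.res n W W' hW η h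
  u_d n W x := by
    obtain ⟨η, h, rfl⟩ := cl_surj x
    exact hu.d n W η h
  u_e := hu.one

theorem isSig (hu : Q.IsNat one u) {s : C(Y, Y)} (hS : ∀ y y' : Y, S y.1 y'.1 → y' = s y) :
    (hQ.dr hY hu).IsSig s (hQ.sig hS) where
  res n W W' h x := by
    obtain ⟨η, h, rfl⟩ := cl_surj x
    rfl
  d n W x := by
    obtain ⟨η, h, rfl⟩ := cl_surj x
    exact cl_eq.2 (Van.d_pull h.1 (fun _ _ => (cj Q.M).contDiff.contDiffAt) (hQ.cj_pre hS))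
  e _ := rfl

section dict
variable (hu : Q.IsNat one u) {W : Opens Y} {B : Set Y} {η : Form (Amb Q.M) n}

theorem dr_d (h : Q.Adm W η) :
    ((hQ.dr hY hu).d n).app W (cl η h) = 0 ↔ Van (Q.pre W) (extDeriv η) := cl_eq_zero

theorem dr_van (h : Q.Adm W η) : (hQ.dr hY hu).Van B (cl η h) ↔
    ∃ O : Opens Y, O ≤ W ∧ (W : Set Y) ∩ B ⊆ O ∧ Van (Q.pre O) η := by
  refine ⟨fun hv => ⟨⨆ O : {O : Opens Y // O ≤ W ∧ Van (Q.pre O) η}, O.1, iSup_le fun O => O.2.1,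
    fun y hy => ?_, hQ.van_loc fun y hy => ?_⟩,
    fun ⟨O, h1, h2, h3⟩ y hy hB => near_cl.2 ⟨O, h1, h2 ⟨hy, hB⟩, h3⟩⟩
  · obtain ⟨O, h1, h2, h3⟩ := near_cl.1 (hv y hy.1 hy.2)
    exact Opens.mem_iSup.2 ⟨⟨O, h1, h3⟩, h2⟩
  · obtain ⟨O, hO⟩ := Opens.mem_iSup.1 hy
    exact ⟨O.1, hO, O.2.2⟩

theorem dr_van_open (hB : IsOpen B) (h : Q.Adm W η) :
    (hQ.dr hY hu).Van B (cl η h) ↔ Van (Q.pre (W ∩ B)) η :=
  (hQ.dr_van hY hu h).trans ⟨fun ⟨_, _, h2, h3⟩ => h3.anti (pre_mono h2),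
    fun h1 => ⟨W ⊓ ⟨B, hB⟩, inf_le_left, subset_rfl, h1⟩⟩

theorem dr_ex_zero {η : Form (Amb Q.M) 0} (h : Q.Adm W η) :
    (hQ.dr hY hu).Ex B (cl η h) ↔ Van (Q.pre W) η := cl_eq_zero

theorem dr_ex_succ {η : Form (Amb Q.M) (n + 1)} (h : Q.Adm W η) : (hQ.dr hY hu).Ex B (cl η h) ↔
    ∃ ζ, ∃ hζ : Q.Adm W ζ, (hQ.dr hY hu).Van B (cl ζ hζ) ∧ Van (Q.pre W) (extDeriv ζ - η) := by
  refine ⟨fun ⟨z, h1, h2⟩ => ?_, fun ⟨ζ, hζ, h1, h2⟩ => ⟨cl ζ hζ, h1, cl_eq.2 h2⟩⟩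
  obtain ⟨ζ, hζ, rfl⟩ := cl_surj z
  exact ⟨ζ, hζ, h1, cl_eq.1 h2⟩

theorem dr_rel (h : Q.Adm W η) {Z : Set Y} {α : Sec I n ⊤} : (hQ.dr hY hu).Rel Z (cl η h) α ↔
    ∃ (O : Opens Y) (_ : O ≤ W) (k : ℕ) (t : Sec I k O), Z ⊆ O ∧
      rs le_top α - u n O η = dd k n t := Iff.rfl

end dict

end Data.IsModel

end Pool.Agent.PWD
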