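import Pool.Agent.P.MP_65ad7c_ag.DL2

/-! Germs of families of forms: pointwise equality, wedge products with `dh / h`. -/

open Set Filter Topology
open scoped ContDiff
open Pool.Agent.HT

noncomputable section
namespace Pool.Agent.PWD

variable {V V' : Type} [NormedAddCommGroup V] [NormedSpace ℝ V] [NormedAddCommGroup V']
  [NormedSpace ℝ V'] {ι : Type} {f g : GF V} {x : V}

theorem pullG_add (γ : V' → V) (f g : GF V) : pullG γ (f + g) = pullG γ f + pullG γ g := rfl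
theorem pullG_sub (γ : V' → V) (f g : GF V) : pullG γ (f - g) = pullG γ f - pullG γ g := rfl
theorem pullG_smul (γ : V' → V) (c : ℂ) (f : GF V) : pullG γ (c • f) = c • pullG γ f := rfl
theorem pullG_zero (γ : V' → V) : pullG γ (0 : GF V) = 0 := rfl

theorem pullG_sum (γ : V' → V) {κ : Type} (s : Finset κ) (f : κ → GF V) :
    pullG γ (∑ i ∈ s, f i) = ∑ i ∈ s, pullG γ (f i) := by
  induction s using Finset.cons_induction with
  | empty => rfl
  | cons a s ha ih => rw [Finset.sum_cons, Finset.sum_cons, pullG_add, ih]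

theorem pullG_lg {γ : V' → V} {h : V → ℂ} {y : V'} (hγ : DifferentiableAt ℝ γ y)
    (hh : DifferentiableAt ℝ h (γ y)) (f : GF V) (n : ℕ) :
    pullG γ (lg h f) n y = lg (h ∘ γ) (pullG γ f) n y := by
  rw [lg, pullG_wG]
  exact wG_congr (by rw [fderiv_comp y hh hγ]; rfl) (fun _ => rfl) n

theorem lg_mul {h u z : V → ℂ} (e : h =ᶠ[𝓝 x] u * z) (hu : DifferentiableAt ℝ u x)
    (hz : DifferentiableAt ℝ z x) (u0 : u x ≠ 0) (z0 : z x ≠ 0) (f : GF V) (n : ℕ) :
    lg h f n x = (lg z f + lg u f) n x := by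
  rw [lg, lg, lg, ← wG_add_left]
  refine wG_congr ?_ (fun _ => rfl) n
  rw [e.fderiv_eq, e.self_of_nhds, fderiv_mul hu hz]
  ext v
  simp
  field_simp

theorem lg_add (h : V → ℂ) (f g : GF V) : lg h (f + g) = lg h f + lg h g := wG_add _ _ _
theorem lg_sub (h : V → ℂ) (f g : GF V) : lg h (f - g) = lg h f - lg h g := wG_sub _ _ _

/-- equality near `x` -/
def EqN (x : V) (f g : GF V) : Prop := ∀ᶠ y in 𝓝 x, ∀ n, f n y = g n y

theorem EqN.rfl : EqN x f f := Eventually.of_forall fun _ _ => Eq.refl _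

theorem EqN.symm (h : EqN x f g) : EqN x g f := h.mono fun _ hy n => (hy n).symm

theorem EqN.trans {k : GF V} (h : EqN x f g) (h' : EqN x g k) : EqN x f k :=
  (h.and h').mono fun _ hy n => (hy.1 n).trans (hy.2 n)

theorem EqN.add {f' g' : GF V} (h : EqN x f g) (h' : EqN x f' g') : EqN x (f + f') (g + g') :=
  (h.and h').mono fun _ hy n => congrArg₂ (· + ·) (hy.1 n) (hy.2 n)

theorem EqN.sub {f' g' : GF V} (h : EqN x f g) (h' : EqN x f' g') : EqN x (f - f') (g - g') :=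
  (h.and h').mono fun _ hy n => congrArg₂ (· - ·) (hy.1 n) (hy.2 n)

theorem EqN.smul (c : ℂ) (h : EqN x f g) : EqN x (c • f) (c • g) :=
  h.mono fun _ hy n => congrArg (c • ·) (hy n)

theorem EqN.sum {κ : Type} (s : Finset κ) {f g : κ → GF V} (h : ∀ i ∈ s, EqN x (f i) (g i)) :
    EqN x (∑ i ∈ s, f i) (∑ i ∈ s, g i) := by
  induction s using Finset.cons_induction with
  | empty => exact .rfl
  | cons a s ha ih =>
    rw [Finset.sum_cons, Finset.sum_cons]
    exact (h a (by simp)).add (ih fun i hi => h i (by simp [hi]))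

theorem EqN.d (h : EqN x f g) : EqN x (dG f) (dG g) :=
  h.eventually_nhds.mono fun y hy n => by
    cases n with
    | zero => rfl
    | succ n => exact EventuallyEq.extDeriv_eq (hy.mono fun _ h => h n)

theorem EqN.conj (h : EqN x f g) : EqN x (conjG f) (conjG g) :=
  h.mono fun _ hy n => congrArg _ (hy n)

theorem EqN.lg {h h' : V → ℂ} (e : h =ᶠ[𝓝 x] h') (k : EqN x f g) : EqN x (lg h f) (lg h' g) :=
  (e.eventually_nhds.and k).mono fun _ hy n =>
    wG_congr (by rw [EventuallyEq.fderiv_eq hy.1, Eventually.self_of_nhds hy.1]) hy.2 n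

/-- the operator whose kernel is `F^p` -/
def tyG (J : V → V →L[ℝ] V) (p : ℕ) (f : GF V) : GF V := fun n x => tyA (J x) p n (f n x)

theorem EqN.ty (J : V → V →L[ℝ] V) (p : ℕ) (h : EqN x f g) : EqN x (tyG J p f) (tyG J p g) :=
  h.mono fun _ hy n => congrArg _ (hy n)

variable [LinearOrder ι] {C : Ctx V ι} {S O : Set V} {α : Finset ι} {w p : ℕ}

omit [LinearOrder ι] in
theorem Ctx.fn_iff : C.FN S α p x f ↔ C.NulN S α x (tyG C.J p f) := Iff.rfl

omit [LinearOrder ι] in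
theorem EqN.nul (h : EqN x f g) : C.NulN S α x (f - g) := by
  obtain ⟨O, h1, hO, hx⟩ := eventually_nhds_iff.1 h
  exact ⟨O, hO, hx, .of_zero fun n y hy => sub_eq_zero.2 (h1 y hy.1.2 n)⟩

theorem Ctx.NulN.of_sub (h : C.NulN S α x (f - g)) (h' : C.NulN S α x g) : C.NulN S α x f := by
  simpa using h.add h'

theorem Ctx.NulN.symm (h : C.NulN S α x (f - g)) : C.NulN S α x (g - f) := by simpa using h.neg

theorem Ctx.NulN.trans {k : GF V} (h : C.NulN S α x (f - g)) (h' : C.NulN S α x (g - k)) :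
    C.NulN S α x (f - k) := by simpa using h.add h'

theorem Ctx.NulN.eqN (h : C.NulN S α x f) (e : EqN x g f) : C.NulN S α x g := e.nul.of_sub h

theorem Ctx.FN.eqN (h : C.FN S α p x f) (e : EqN x g f) : C.FN S α p x g :=
  Ctx.fn_iff.2 ((Ctx.fn_iff.1 h).eqN (e.ty _ p))

theorem Ctx.WN.eqN (hC : C.OK S) (h : C.WN S α w x f) (e : EqN x g f) : C.WN S α w x g :=
  h.congr hC e.nul

omit [LinearOrder ι] in
theorem Ctx.NulN.wG (ξ : V → V →L[ℝ] ℂ) (h : C.NulN S α x f) : C.NulN S α x (wG ξ f) :=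
  h.imp fun _ h => ⟨h.1, h.2.1, h.2.2.wG ξ⟩

omit [NormedAddCommGroup V] [NormedSpace ℝ V] [LinearOrder ι] in
theorem off_mono (D : ι → Set V) {α α' : Finset ι} (h : α ⊆ α') : Off D α ⊆ Off D α' :=
  biUnion_subset_biUnion_left h

theorem LW.shrink (hC : C.OK S) {O' : Set V} (hO : O' ⊆ O) (h : LW (C.G O) C.D S O α w f) :
    LW (C.G O') C.D S O' α w f := by
  induction h with
  | zero => exact .zero
  | smooth h => exact .smooth fun n => (h n).mono hO
  | add _ _ h1 h2 => exact .add h1 h2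
  | mono i _ h => exact .mono i h
  | up hi hh _ h => exact .up hi (hC.mono _ _ _ hO hh) h
  | van hi hh _ hv h => exact .van hi (hC.mono _ _ _ hO hh) h (hv.anti (by gcongr))

namespace Ctx
variable {i : ι} {h : V → ℂ}

theorem WN.up (hC : C.OK S) (hi : i ∈ α) (hO : IsOpen O) (hx : x ∈ O) (hh : h ∈ C.G O i)
    (hf : C.WN S (α.erase i) w x f) : C.WN S α (w + 1) x (lg h f) := by
  obtain ⟨O', g, hO', hx', h1, h2⟩ := hf
  refine ⟨O ∩ O', lg h g, hO.inter hO', ⟨hx, hx'⟩, .up hi (hC.mono _ _ _ inter_subset_left hh)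
    (h1.shrink hC inter_subset_right), ?_⟩
  rw [← lg_sub]
  exact (h2.wG _).anti fun y hy => ⟨⟨hy.1.1, hy.1.2.2⟩, fun k =>
    hy.2 (off_mono _ (Finset.erase_subset _ _) k)⟩

theorem WN.van (hC : C.OK S) (hi : i ∈ α) (hO : IsOpen O) (hx : x ∈ O) (hh : h ∈ C.G O i)
    (hf : C.WN S (α.erase i) w x f) (hv : C.NulN (S ∩ C.D i) (α.erase i) x f) :
    C.WN S α w x (lg h f) := by
  obtain ⟨O', g, hO', hx', h1, h2⟩ := hf
  obtain ⟨O₂, hO₂, hx₂, h3⟩ := hv
  refine ⟨O ∩ (O' ∩ O₂), lg h g, hO.inter (hO'.inter hO₂), ⟨hx, hx', hx₂⟩,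
    .van hi (hC.mono _ _ _ inter_subset_left hh)
    (h1.shrink hC (inter_subset_right.trans inter_subset_left)) ?_, ?_⟩
  · have := (h3.anti (S' := (S ∩ C.D i ∩ (O ∩ (O' ∩ O₂))) \ Off C.D (α.erase i))
      fun y hy => ⟨⟨hy.1.1, hy.1.2.2.2⟩, hy.2⟩).sub
        (h2.anti fun y hy => ⟨⟨hy.1.1.1, hy.1.2.2.1⟩, hy.2⟩)
    rwa [sub_sub_cancel] at this
  · rw [← lg_sub]
    exact (h2.wG _).anti fun y hy => ⟨⟨hy.1.1, hy.1.2.2.1⟩, fun k =>
      hy.2 (off_mono _ (Finset.erase_subset _ _) k)⟩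

theorem WN.of_lw (hO : IsOpen O) (hx : x ∈ O) (h : LW (C.G O) C.D S O α w f) : C.WN S α w x f :=
  ⟨O, f, hO, hx, h, by rw [sub_self]; exact .zero⟩

theorem WN.neg (h : C.WN S α w x f) : C.WN S α w x (-f) :=
  neg_one_smul ℂ f ▸ h.smul (-1)

/-- if there is only one equation for each divisor, `dz / z` raises the weight by one -/
theorem WN.lg {z : ι → V → ℂ} (hC : C.OK S) (hG : ∀ O i, C.G O i = {z i}) (hi : i ∈ α)
    (hf : C.WN S α w x f) : C.WN S α (w + 1) x (lg (z i) f) := by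
  obtain ⟨O, g, hO, hx, h1, h2⟩ := hf
  have hz : ∀ i, z i ∈ C.G O i := fun i => by rw [hG]; rfl
  refine WN.congr hC (f := PWD.lg (z i) g) ?_ (lg_sub _ f g ▸ NulN.wG _ ⟨O, hO, hx, h2⟩)
  clear h2
  induction h1 with
  | zero => exact .of_nul (NulN.wG _ .zero)
  | smooth h => exact .up hC hi hO hx (hz i) (.of_smG hO hx h)
  | add _ _ h1 h2 => rw [lg_add]; exact (h1 hi).add hC (h2 hi)
  | mono j h1 h2 =>
    rcases eq_or_ne i j with rfl | hij
    · exact .up hC hi hO hx (hz i) (.of_lw hO hx h1)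
    · exact (h2 (Finset.mem_erase.2 ⟨hij, hi⟩)).anti subset_rfl (Finset.erase_subset _ _)
  | @up α w f j h hj hh h1 h2 =>
    obtain rfl : h = z j := by rwa [hG] at hh
    rcases eq_or_ne i j with rfl | hij
    · exact .of_nul (by rw [PWD.lg, PWD.lg, wG_self]; exact .zero)
    · rw [PWD.lg, PWD.lg, wG_wG]
      exact (WN.up hC hj hO hx hh (h2 (Finset.mem_erase.2 ⟨hij, hi⟩))).neg
  | @van α w f j h hj hh h1 hv h2 =>
    obtain rfl : h = z j := by rwa [hG] at hh
    rcases eq_or_ne i j with rfl | hij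
    · exact .of_nul (by rw [PWD.lg, PWD.lg, wG_self]; exact .zero)
    · rw [PWD.lg, PWD.lg, wG_wG]
      exact (WN.van hC hj hO hx hh (h2 (Finset.mem_erase.2 ⟨hij, hi⟩))
        (NulN.wG _ ⟨O, hO, hx, hv⟩)).neg

end Ctx

end Pool.Agent.PWD
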