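import Pool.Agent.P.MP_65ad7c_ag.DK1
import Pool.Agent.K.MP_65ad7c_ag.C48

/-! Residues and types at one point of one stratum. -/

open Set Filter Topology
open scoped ContDiff

noncomputable section
namespace Pool.Agent.PWD.Ctx

variable {V : Type} [NormedAddCommGroup V] [NormedSpace ℝ V] {ι : Type} [LinearOrder ι]
  {C : Ctx V ι} {X S O : Set V} {T α β : Finset ι} {x : V} {f g : GF V} {w p : ℕ}
  {r r' : Finset ι → GF V}

/-- the local theory at `x`, whether `x` lies in `S` or not -/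
structure Loc (C : Ctx V ι) (S : Set V) (α : Finset ι) (x : V) : Prop where
  ok : C.OK S
  cl : IsClosed S
  clD : ∀ i, IsClosed (C.D i)
  eqs : ∃ e, C.Eqs α x e
  lt : x ∈ S → ∃ e, C.LT S α x e
  lt' : ∀ I, x ∈ St S C.D I → ∃ e, C.LT (St S C.D I) ∅ x e

theorem Glob.loc (h : C.Glob X) (hT : Disjoint T α) (hβ : Disjoint β α) (J : Finset ι)
    (hx : x ∈ X) : C.Loc (C.SJ X T β J) α x :=
  ⟨h.okSJ J, h.clSJ J, h.cl, h.eqs α hx, h.ltSJ hT hβ, fun _ => h.ltSt⟩

theorem NulN.prjZ (z : ℤ) (h : C.NulN S α x f) : C.NulN S α x (prjZ z f) := by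
  rcases prjZ_cases z f with e | ⟨m, -, e⟩
  · rw [e]; exact NulN.zero
  · rw [e]; exact h.prj m
theorem SmN.prjZ (z : ℤ) (h : C.SmN S α x f) : C.SmN S α x (prjZ z f) := by
  rcases prjZ_cases z f with e | ⟨m, -, e⟩
  · rw [e]; exact SmN.zero
  · rw [e]; exact h.prj m
theorem WN.prjZ (z : ℤ) (h : C.WN S α w x f) : C.WN S α w x (prjZ z f) := by
  rcases prjZ_cases z f with e | ⟨m, -, e⟩
  · rw [e]; exact WN.of_nul NulN.zero
  · rw [e]; exact h.prj m
theorem TN.prjZ (z : ℤ) (h : C.TN S α w x f) : C.TN S α w x (prjZ z f) := by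
  rcases prjZ_cases z f with e | ⟨m, -, e⟩
  · rw [e]; exact TN.of_nul NulN.zero
  · rw [e]; exact h.prj m
theorem FN.prjZ (z : ℤ) (h : C.FN S α p x f) : C.FN S α p x (prjZ z f) := by
  rcases prjZ_cases z f with e | ⟨m, -, e⟩
  · rw [e]; exact FN.zero
  · rw [e]; exact h.prj m
theorem WN.topZ {z : ℤ} {w' : ℕ} (h : C.WN S α w x f) (hz : z < w') :
    C.WN S α w' x (PWD.prjZ z f) := by
  rcases prjZ_cases z f with e | ⟨m, hm, e⟩
  · rw [e]; exact WN.of_nul NulN.zero
  · rw [e]; exact (h.top m).mono (by omega)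
theorem WN.txtZ {z : ℤ} {w' : ℕ} (h : C.WN S α w x f) (hz : z < w') :
    C.TN S α w' x (PWD.prjZ z f) := by
  rcases prjZ_cases z f with e | ⟨m, hm, e⟩
  · rw [e]; exact TN.of_nul NulN.zero
  · rw [e]; exact (h.txt m).mono (by omega)
theorem RN.ev (h : C.RN S α w x f r) : ∀ᶠ y in 𝓝 x, C.RN S α w y f r := by
  cases w with
  | zero => exact NulN.ev h
  | succ q =>
    obtain ⟨e, h1, h2⟩ := h
    filter_upwards [h1.ev, h2.ev] with y k1 k2 using ⟨e, k1, k2⟩
theorem FN.of_ty (h : TyV C.J (S \ Off C.D α) p f) : C.FN S α p x f :=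
  ⟨univ, isOpen_univ, trivial, by rwa [inter_univ]⟩

namespace Loc
variable (h : C.Loc S α x)
include h

theorem txt (hf : C.TN S α w x f) : C.WN S α w x f := by
  by_cases hx : x ∈ S
  · obtain ⟨e, he⟩ := h.lt hx
    exact he.txt w f hf
  · exact WN.of_nul (NulN.of_notMem h.cl hx f)
theorem fn_nul (hf : C.NulN S α x f) : C.FN S α p x f := by
  by_cases hx : x ∈ S
  · obtain ⟨e, he⟩ := h.lt hx
    exact he.tyN p f hf
  · exact FN.of_notMem h.cl hx f
theorem fn_zero (f : GF V) : C.FN S α 0 x f := by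
  by_cases hx : x ∈ S
  · obtain ⟨e, he⟩ := h.lt hx
    exact he.ty0 f
  · exact FN.of_notMem h.cl hx f
theorem fn_mono {p' : ℕ} (hp : p ≤ p') (hf : C.FN S α p' x f) : C.FN S α p x f := by
  by_cases hx : x ∈ S
  · obtain ⟨e, he⟩ := h.lt hx
    induction p', hp using Nat.le_induction with
    | base => exact hf
    | succ k _ ih => exact ih (he.tyA k f hf)
  · exact FN.of_notMem h.cl hx f
theorem fn_d (hs : C.SmN S α x f) (hf : C.FN S α p x f) : C.FN S α p x (dG f) := by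
  by_cases hx : x ∈ S
  · obtain ⟨e, he⟩ := h.lt hx
    exact he.tyd p f hs hf
  · exact FN.of_notMem h.cl hx _
theorem fn_congr (hf : C.FN S α p x f) (e : C.NulN S α x (g - f)) : C.FN S α p x g := by
  have k := (h.fn_nul (p := p) e).add hf
  rwa [sub_add_cancel] at k

theorem cond_fn (p : ℕ) : Cond (S \ Off C.D α) (C.FN S α p x) where
  add _ _ k k' := k.add k'
  neg f k := by
    have k' := k.smul (-1)
    rwa [negG] at k'
  van _ k := h.fn_nul (NulN.of_van k)

end Loc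

theorem cond_ty (h : ∀ x ∈ S, C.Loc S α x) (p : ℕ) :
    Cond (S \ Off C.D α) (TyV C.J (S \ Off C.D α) p) where
  add _ _ k k' := FN.glob fun _ _ => (FN.of_ty k).add (FN.of_ty k')
  neg f k := FN.glob fun y hy => ((h y hy).cond_fn p).neg f (FN.of_ty k)
  van _ k := FN.glob fun y hy => (h y hy).fn_nul (NulN.of_van k)

end Pool.Agent.PWD.Ctx
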