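import Pool.Agent.P.MP_65ad7c_ag.DK2
import Pool.Agent.K.MP_65ad7c_ag.C50

/-! The weight and type filtrations on `K(T, α, β)`. -/

open Set Filter Topology
open scoped ContDiff

noncomputable section
namespace Pool.Agent.PWD.Ctx

variable {V : Type} [NormedAddCommGroup V] [NormedSpace ℝ V] {ι : Type} [LinearOrder ι]
  {C : Ctx V ι} {X : Set V} {T α β : Finset ι}

/-- solving `a = d b` column by column -/
theorem exists_sol [FiniteDimensional ℝ V] {n : ℤ} {x : V} {c g : Finset ι → GF V}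
    {hc : SmK (C.SK X T α β) c} (hn : Fam.mk c hc ∈ C.kDg X T α β n)
    (hg : ∀ J, C.SmN (C.SJ X T β J) α x (g J)) : ∃ b hb, Fam.mk b hb ∈ C.kDg X T α β (n - 1) ∧
      (∀ J, C.NulN (C.SJ X T β J) α x (b J - prjZ (n - 1 - J.card) (g J))) ∧
      ∀ J, C.NulN (C.SJ X T β J) α x (c J - dG (b J) - prjZ (n - J.card) (c J - dG (g J))) := by
  obtain ⟨b, hb, h1, h2⟩ := exists_loc (n - 1) hg
  refine ⟨b, hb, h1, fun J => ?_, fun J => ?_⟩
  · have := (h2 J).neg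
    rwa [neg_sub] at this
  · have s1 : C.SmN (C.SJ X T β J) α x (prjZ (n - 1 - J.card) (g J)) := (hg J).prjZ _
    have s2 : C.SmN (C.SJ X T β J) α x (b J) := SmN.of_smS (hb J)
    have h3 : C.NulN (C.SJ X T β J) α x (c J - prjZ (n - J.card) (c J)) :=
      NulN.of_van (mem_kDg.1 hn J)
    have h4 := h3.add (((h2 J).d (s1.sub s2)).sub (NulN.d_sub s1 s2))
    have e : prjZ (n - J.card) (dG (g J)) = dG (prjZ (n - 1 - J.card) (g J)) := by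
      rw [← prjZ_dG]
      congr 1
      ring
    rw [prjZ_sub, e]
    convert h4 using 1
    abel

theorem opn_DK3a {P : Finset ι → V → GF V → Prop}
    (hP : ∀ J x, Cond (C.SK X T α β J) (P J x))
    (hev : ∀ J x f, P J x f → ∀ᶠ y in 𝓝 x, P J y f) : G.Opn (C.kSys X T α β P) := by
  intro n x a ha
  obtain ⟨c, hc, rfl⟩ := a.surj
  obtain ⟨h1, h2⟩ := (mem_kSys fun J => hP J x).1 ha
  have h3 : ∀ᶠ y in 𝓝 (x : V), ∀ J ∈ β.powerset, P J y (c J) :=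
    (eventually_all_finset _).2 fun J _ => hev J x _ (h2 J)
  filter_upwards [continuous_subtype_val.continuousAt.eventually h3] with y hy
  refine (mem_kSys fun J => hP J y).2 ⟨h1, fun J => ?_⟩
  by_cases hJ : J ⊆ β
  · exact hy J (Finset.mem_powerset.2 hJ)
  · refine (hP J y).van _ ?_
    rw [SK, SJ_of_not hJ, empty_sdiff]
    exact VanG.empty

theorem cut_deg_DK3a {χ : V → ℂ} (hχ : ContDiff ℝ ∞ χ) {n : ℤ} {a : C.K X T α β}
    (ha : a ∈ C.kDg X T α β n) : Fam.map (okM _ hχ) a ∈ C.kDg X T α β n := by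
  obtain ⟨c, hc, rfl, e⟩ := Fam.deg_surj ha
  rw [Fam.map_mk]
  exact Fam.mem_deg_of fun J => by rw [prjZ_mulG, e]

omit [LinearOrder ι] in
theorem wi_mono_DK3a {q q' : ℤ} {J J' : Finset ι} (h : q + J.card ≤ q' + J'.card) :
    wi q J ≤ wi q' J' := by
  unfold wi
  omega

/-- the three index sets, with the geometric input -/
structure Tri (C : Ctx V ι) (X : Set V) (T α β : Finset ι) : Prop where
  g : C.Glob X
  hT : Disjoint T α
  hβ : Disjoint β α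

namespace Tri
variable (h : C.Tri X T α β)
include h

theorem loc (J : Finset ι) (x : X) : C.Loc (C.SJ X T β J) α x := h.g.loc h.hT h.hβ J x.2

section mem
variable {c : Finset ι → GF V} {hc : SmK (C.SK X T α β) c} {p q n : ℤ} {x : X}
theorem mem_kY : Fam.mk c hc ∈ C.kY X T α β q n x ↔ Fam.mk c hc ∈ C.kDg X T α β n ∧
    ∀ J, ∃ r, C.RN (C.SJ X T β J) α (wi q J) x (c J) r := mem_kSys fun J => (h.loc J x).cond_y _
theorem mem_kFL : Fam.mk c hc ∈ C.kFL X T α β p n x ↔ Fam.mk c hc ∈ C.kDg X T α β n ∧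
    ∀ J, C.FN (C.SJ X T β J) α p.toNat x (c J) := mem_kSys fun J => (h.loc J x).cond_fn _
theorem mem_kF : Fam.mk c hc ∈ C.kF X T α β p n ↔ Fam.mk c hc ∈ C.kDg X T α β n ∧
    ∀ J, TyV C.J (C.SK X T α β J) p.toNat (c J) :=
  and_congr_right fun _ => Fam.mem_col fun J => cond_ty (fun x hx => h.loc J ⟨x, SJ_X J hx⟩) _
end mem

theorem W_mono (q n : ℤ) (x : X) : C.kW X T α β (q - 1) n x ≤ C.kW X T α β q n x := by
  intro a ha
  obtain ⟨c, hc, rfl⟩ := a.surj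
  obtain ⟨h1, h2⟩ := h.g.mem_kW.1 ha
  exact h.g.mem_kW.2 ⟨h1, fun J => (h2 J).mono (wi_mono_DK3a (by omega))⟩

theorem W_bot [Fintype ι] : ∃ q, ∀ n x, C.kW X T α β q n x ≤ C.kNul X T α β n x := by
  refine ⟨-(Fintype.card ι : ℤ) - 1, fun n x a ha => ?_⟩
  obtain ⟨c, hc, rfl⟩ := a.surj
  obtain ⟨h1, h2⟩ := h.g.mem_kW.1 ha
  refine mem_kNul.2 ⟨h1, fun J => ?_⟩
  have h3 : wi (-(Fintype.card ι : ℤ) - 1) J = 0 := by
    have := J.card_le_univ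
    unfold wi
    omega
  have h4 := h2 J
  rw [h3] at h4
  exact h4.nul

theorem W_opn (q : ℤ) : G.Opn (C.kW X T α β q) :=
  opn_DK3a (fun J _ => cond_wn (h.g.okSJ J) _ _) fun _ _ _ hf => hf.ev

theorem W_d (q : ℤ) : G.Up (C.kd X T α β) (C.kW X T α β q) (C.kW X T α β q) := by
  intro n x a ha
  obtain ⟨c, hc, rfl⟩ := a.surj
  obtain ⟨h1, h2⟩ := h.g.mem_kW.1 ha
  have h3 := C.kd_mem X T α β n _ h1
  rw [kd_mk] at h3 ⊢
  exact h.g.mem_kW.2 ⟨h3, fun J => (h2 J).d (h.g.okSJ J) (SmN.of_smS (hc J))⟩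

theorem W_δ (q : ℤ) : G.Up (C.kδ X T α β) (C.kW X T α β q) (C.kW X T α β (q - 1)) := by
  intro n x a ha
  obtain ⟨c, hc, rfl⟩ := a.surj
  obtain ⟨h1, h2⟩ := h.g.mem_kW.1 ha
  have h3 := C.kδ_mem X T α β n _ h1
  rw [kδ_mk] at h3 ⊢
  refine h.g.mem_kW.2 ⟨h3, fun J => WN.eps (WN.sum (h.g.okSJ J) _ fun i hi => WN.smul _ ?_)⟩
  have h4 := Finset.card_erase_add_one hi
  exact ((h2 (J.erase i)).anti (C.SJ_erase X T β i) subset_rfl).mono (wi_mono_DK3a (by omega))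

theorem W_e (q : ℤ) (c : ℕ) : G.Keep (C.ke X T α β c) (C.kW X T α β q) := by
  intro n x a ha
  obtain ⟨b, hb, rfl⟩ := a.surj
  obtain ⟨h1, h2⟩ := h.g.mem_kW.1 ha
  have h3 := C.ke_mem X T α β c n _ h1
  rw [ke_mk] at h3 ⊢
  refine h.g.mem_kW.2 ⟨h3, fun J => ?_⟩
  split_ifs
  exacts [h2 J, WN.of_nul NulN.zero]

theorem W_cut (q : ℤ) : ∀ m ∈ Fam.cuts _, G.Keep m (C.kW X T α β q) := by
  rintro _ ⟨χ, hχ, rfl⟩ n x a ha
  obtain ⟨c, hc, rfl⟩ := a.surj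
  obtain ⟨h1, h2⟩ := h.g.mem_kW.1 ha
  have h3 := cut_deg_DK3a hχ h1
  rw [Fam.map_mk] at h3 ⊢
  exact h.g.mem_kW.2 ⟨h3, fun J =>
    (h2 J).mul (h.g.okSJ J) isOpen_univ (mem_univ _) hχ.contDiffOn⟩

theorem nul_W (q n : ℤ) (x : X) : C.kNul X T α β n x ≤ C.kW X T α β q n x := by
  intro a ha
  obtain ⟨c, hc, rfl⟩ := a.surj
  obtain ⟨h1, h2⟩ := mem_kNul.1 ha
  exact h.g.mem_kW.2 ⟨h1, fun J => WN.of_nul (h2 J)⟩

theorem nul_Wt (q n : ℤ) (x : X) : C.kNul X T α β n x ≤ C.kWt X T α β q n x := by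
  intro a ha
  obtain ⟨c, hc, rfl⟩ := a.surj
  obtain ⟨h1, h2⟩ := mem_kNul.1 ha
  exact h.g.mem_kWt.2 ⟨h1, fun J => TN.of_nul (h2 J)⟩

theorem Wt_W (q n : ℤ) (x : X) : C.kWt X T α β q n x ≤ C.kW X T α β q n x := by
  intro a ha
  obtain ⟨c, hc, rfl⟩ := a.surj
  obtain ⟨h1, h2⟩ := h.g.mem_kWt.1 ha
  exact h.g.mem_kW.2 ⟨h1, fun J => (h.loc J x).txt (h2 J)⟩

theorem Wt_opn (q : ℤ) : G.Opn (C.kWt X T α β q) :=
  opn_DK3a (fun J _ => cond_tn (h.g.okSJ J) _ _) fun _ _ _ hf => hf.ev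

theorem Wt_D (q : ℤ) : G.Up (C.kD X T α β) (C.kWt X T α β q) (C.kWt X T α β q) := by
  intro n x a ha
  obtain ⟨c, hc, rfl⟩ := a.surj
  obtain ⟨h1, h2⟩ := h.g.mem_kWt.1 ha
  have h3 : C.kD X T α β (Fam.mk c hc) ∈ C.kDg X T α β (n + 1) :=
    add_mem (C.kd_mem X T α β n _ h1) (C.kδ_mem X T α β n _ h1)
  rw [kD_mk] at h3 ⊢
  refine h.g.mem_kWt.2 ⟨h3, fun J => TN.add (h.g.okSJ J)
    ((h2 J).d (h.g.okSJ J) (SmN.of_smS (hc J)))
    (TN.eps (TN.sum (h.g.okSJ J) _ fun i hi => TN.smul _ ?_))⟩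
  have h4 := Finset.card_erase_add_one hi
  exact ((h2 (J.erase i)).anti (C.SJ_erase X T β i) subset_rfl).mono (wi_mono_DK3a (by omega))

theorem Wt_cut (q : ℤ) : ∀ m ∈ Fam.cuts _, G.Keep m (C.kWt X T α β q) := by
  rintro _ ⟨χ, hχ, rfl⟩ n x a ha
  obtain ⟨c, hc, rfl⟩ := a.surj
  obtain ⟨h1, h2⟩ := h.g.mem_kWt.1 ha
  have h3 := cut_deg_DK3a hχ h1
  rw [Fam.map_mk] at h3 ⊢
  exact h.g.mem_kWt.2 ⟨h3, fun J =>
    (h2 J).mul (h.g.okSJ J) isOpen_univ (mem_univ _) hχ.contDiffOn⟩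

theorem stab (q q' : ℤ) (c : ℕ) (n : ℤ) (x : X) : ∀ a ∈ C.kW X T α β q' n x,
    C.ke X T α β c a = a → n - q ≤ 2 * c → a ∈ C.kWt X T α β q n x := by
  intro a ha he hn
  obtain ⟨b, hb, rfl, e1, e2⟩ := C.col_surj X T α β (n := n) ha.1 he
  obtain ⟨h1, h2⟩ := h.g.mem_kW.1 ha
  refine h.g.mem_kWt.2 ⟨h1, fun J => ?_⟩
  by_cases hJ : J.card = c
  · rw [← e1 J]
    refine (h2 J).txtZ ?_
    unfold wi
    omega
  · rw [e2 J hJ]
    exact TN.of_nul NulN.zero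

end Tri

end Pool.Agent.PWD.Ctx
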