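import Pool.Agent.K.MP_65ad7c_ag.C50

/-! Local cohomology and conjugate residues at one point of one stratum. -/

open Set Filter Topology
open scoped ContDiff

noncomputable section
namespace Pool.Agent.PWD.Ctx

variable {V : Type} [NormedAddCommGroup V] [NormedSpace ℝ V] {ι : Type} [LinearOrder ι]
  {C : Ctx V ι} {S : Set V} {α : Finset ι} {x : V} {f g f' g' : GF V} {w : ℕ} {z : ℤ}

theorem conj_zero_DM2 : conjG (0 : GF V) = 0 := by
  funext n x; ext v; simp [conjG]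

theorem conj_neg_DM2 (f : GF V) : conjG (-f) = -conjG f := by
  funext n x; ext v; simp [conjG]

theorem conj_sub_DM2 (f g : GF V) : conjG (f - g) = conjG f - conjG g := by
  rw [sub_eq_add_neg, conjG_add, conj_neg_DM2, sub_eq_add_neg]

theorem conj_sum_DM2 {κ : Type} (s : Finset κ) (f : κ → GF V) :
    conjG (∑ i ∈ s, f i) = ∑ i ∈ s, conjG (f i) := by
  classical
  induction s using Finset.induction_on with
  | empty => rw [Finset.sum_empty, Finset.sum_empty, conj_zero_DM2]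
  | insert a s ha ih => rw [Finset.sum_insert ha, Finset.sum_insert ha, conjG_add, ih]

theorem prjZ_sum_DM2 {κ : Type} (z : ℤ) (s : Finset κ) (f : κ → GF V) :
    PWD.prjZ z (∑ i ∈ s, f i) = ∑ i ∈ s, PWD.prjZ z (f i) := by
  classical
  induction s using Finset.induction_on with
  | empty => rw [Finset.sum_empty, Finset.sum_empty, prjZ_zero]
  | insert a s ha ih => rw [Finset.sum_insert ha, Finset.sum_insert ha, prjZ_add, ih]

theorem sign_DM2 (n : ℕ) : starRingEnd ℂ ((-1 : ℂ) ^ n) = (-1) ^ n := by simp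

theorem sign_sign_DM2 (n : ℕ) (f : GF V) : (-1 : ℂ) ^ n • (-1 : ℂ) ^ n • f = f := by
  rw [smul_smul, ← mul_pow, neg_mul_neg, one_mul, one_pow, oneG_smul]

theorem zero_smul_DM2 (f : GF V) : (0 : ℂ) • f = 0 := by
  funext n x; ext v; simp

theorem prjZ_lg_ne_DM2 (e : ι → V → ℂ) {I : Finset ι} (hz : z ≠ I.card) :
    PWD.prjZ z (lgI e I oneG) = 0 := by
  rcases prjZ_cases z (lgI e I (oneG : GF V)) with h | ⟨m, rfl, h⟩
  · exact h
  rw [h]
  rcases lt_or_ge m I.card with hm | hm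
  · exact prj_lgI_lt e I hm _
  obtain ⟨n, rfl⟩ : ∃ n, m = n + I.card := ⟨m - I.card, by omega⟩
  have hn : n ≠ 0 := by omega
  have e1 : prj n (oneG : GF V) = 0 := by
    rw [prj, oneG, Pi.single_eq_of_ne hn, Pi.single_zero]
  rw [prj_lgI, e1, lgI_zero]

theorem prjZ_lg_eq_DM2 (e : ι → V → ℂ) (I : Finset ι) :
    PWD.prjZ I.card (lgI e I oneG) = lgI e I oneG := by
  have e1 : prj 0 (oneG : GF V) = oneG := by rw [prj, oneG, Pi.single_eq_same]
  have h := prj_lgI e I 0 (oneG : GF V)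
  rwa [zero_add, e1, ← prjZ_nat] at h

omit [LinearOrder ι] in
theorem const_DM2 {T : Set V} {c : ℂ} (h : C.NulN T ∅ x (c • oneG)) (hx : x ∈ T) : c = 0 := by
  obtain ⟨O, -, hxO, hv⟩ := h
  have h1 := hv 0 (fun _ => x) univ isOpen_univ contDiffOn_const
    (fun _ _ => ⟨⟨hx, hxO⟩, by rw [Off_empty]; exact notMem_empty _⟩) x (mem_univ _)
  have h2 := congrArg (fun a : HT.Alt V 0 => a Fin.elim0) h1
  simpa [Pool.Agent.HT.pull_apply, oneG] using h2

theorem smG_one_DM2 (c : ℂ) : SmG univ (c • (oneG : GF V)) := SmS.smG_DL2 (SmS.one.smul c)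

theorem CJ.ev (h : C.CJ S α w x f g) : ∀ᶠ y in 𝓝 x, C.CJ S α w y f g := by
  obtain ⟨r, h1, h2⟩ := h
  filter_upwards [h1.ev, h2.ev] with y a b using ⟨r, a, b⟩

theorem CJ.symm (h : C.CJ S α w x f g) : C.CJ S α w x g f := by
  obtain ⟨r, h1, h2⟩ := h
  refine ⟨_, h2, ?_⟩
  have e : (fun I => (-1 : ℂ) ^ (w + 1) • conjG ((-1 : ℂ) ^ (w + 1) • conjG (r I))) = r :=
    funext fun I => by rw [conjG_smul, conjG_conjG, sign_DM2, sign_sign_DM2]
  rwa [e]

theorem LT.res_DM2 {e : ι → V → ℂ} (hC : C.OK S) (he : C.LT S α x e) {q : ℕ} {γ : Finset ι → ℂ}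
    {u : GF V} (h1 : C.SmN S α x u) (h2 : C.WN S α (q + 1) x u)
    (h3 : C.NulN S α x (f - ∑ I ∈ α.powerset, γ I • lgI e I oneG - dG u)) :
    C.RN S α (q + 1) x (PWD.prjZ q f) fun I => γ I • oneG := by
  refine ⟨e, he.eqs, RH.mk_DL2 (β := fun I => γ I • oneG) isOpen_univ (mem_univ _)
    (fun I => smG_one_DM2 _) ?_ fun I _ => ?_⟩
  · have e1 : ∑ I ∈ α.powersetCard q, lgI e I (γ I • oneG) =
        PWD.prjZ q (∑ I ∈ α.powerset, γ I • lgI e I oneG) := by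
      rw [prjZ_sum_DM2]
      refine Finset.sum_subset_zero_on_sdiff ?_ ?_ ?_
      · intro I hI
        exact Finset.mem_powerset.2 (Finset.mem_powersetCard.1 hI).1
      · intro I hI
        obtain ⟨a, b⟩ := Finset.mem_sdiff.1 hI
        have hq : (q : ℤ) ≠ I.card := fun c =>
          b (Finset.mem_powersetCard.2 ⟨Finset.mem_powerset.1 a, by omega⟩)
        rw [prjZ_smul, prjZ_lg_ne_DM2 e hq, zeroG]
      · intro I hI
        rw [prjZ_smul, ← (Finset.mem_powersetCard.1 hI).2, prjZ_lg_eq_DM2, lgI_smul]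
    have e2 : dG (PWD.prjZ (q - 1) u) = PWD.prjZ q (dG u) := by
      rw [← prjZ_dG, sub_add_cancel]
    have h4 : C.WN S α q x (PWD.prjZ q (dG u)) :=
      e2 ▸ (h2.topZ (by omega)).d hC (h1.prjZ _)
    refine h4.congr hC ?_
    rw [e1, ← prjZ_sub, ← prjZ_sub]
    exact h3.prjZ _
  · rw [sub_self]; exact NulN.zero

namespace Loc
variable (h : C.Loc S α x)
include h

theorem cl_DM2 (I : Finset ι) : IsClosed (St S C.D I) :=
  h.cl.inter (isClosed_biInter fun i _ => h.clD i)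

theorem fn_DM2 (I : Finset ι) (f : GF V) : C.FN (St S C.D I) ∅ (0 - I.card) x f := by
  rw [Nat.zero_sub]
  by_cases hx : x ∈ St S C.D I
  · exact (h.lt' I hx).choose_spec.ty0 f
  · exact FN.of_notMem (h.cl_DM2 I) hx f

theorem rn_sm_DM2 {r : Finset ι → GF V} (hf : C.RN S α w x f r) : ∃ r' : Finset ι → GF V,
    (∀ I, C.SmN (St S C.D I) ∅ x (r' I)) ∧ C.RN S α w x f r' ∧
      ∀ I ⊆ α, I.card + 1 = w → C.NulN (St S C.D I) ∅ x (r' I - r I) := by
  obtain ⟨r', h1, h2⟩ := h.rn_sm hf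
  refine ⟨r', fun I => (h1 I).anti (subset_univ _) subset_rfl, h.rn_congr hf ?_
    fun I a b => (h2 I a b).symm, fun I a b => (h2 I a b).symm⟩
  rw [sub_self]; exact WN.of_nul NulN.zero

theorem uniq_DM2 {r r' : Finset ι → GF V} (h1 : C.RN S α w x f r) (h2 : C.RN S α w x f r') :
    ∀ I ⊆ α, I.card + 1 = w → C.NulN (St S C.D I) ∅ x (r I - r' I) :=
  (h.rn_ker (h.rn_sub h1 h2)).1 (by rw [sub_self]; exact WN.of_nul NulN.zero)

theorem pp (h1 : C.SmN S α x f) (h2 : C.WN S α w x (dG f)) :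
    ∃ g w', C.SmN S α x g ∧ C.WN S α w' x (f - dG g) := by
  by_cases hx : x ∈ S
  swap
  · exact ⟨0, 0, SmN.zero, WN.of_nul (NulN.of_notMem h.cl hx _)⟩
  obtain ⟨e, he⟩ := h.lt hx
  obtain ⟨γ, u, u1, u2, -, u3⟩ := he.l4 w _ h1.d h2 (NulN.dd h1)
  have a1 : C.NulN S α x (∑ I ∈ α.powerset, γ I • lgI e I oneG - dG (f - u)) := by
    have := u3.neg.sub (NulN.d_sub h1 u1)
    rwa [show ∀ a b c d : GF V, -(a - b - c) - (d - (a - c)) = b - d from fun a b c d => by abel]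
      at this
  have a2 : C.NulN S α x (∑ I ∈ α.powerset, γ I • lgI e I oneG) := NulN.sum _ fun I hI => by
    have hI' := Finset.mem_powerset.1 hI
    by_cases hxI : x ∈ St S C.D I
    · rw [he.pp2 γ _ (h1.sub u1) a1 I hI' hxI, zero_smul_DM2]; exact NulN.zero
    · exact (he.off I hI' hxI _).smul _
  obtain ⟨γ', v, v1, v2⟩ := he.pp1 _ (h1.sub u1) (a1.symm.of_sub a2)
  have a3 : C.WN S α (max w (α.card + 1)) x (∑ I ∈ α.powerset, γ' I • lgI e I oneG) :=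
    WN.sum h.ok _ fun I hI => by
      have hI' := Finset.mem_powerset.1 hI
      refine ((WN.lgI h.ok he.eqs hI' isOpen_univ (mem_univ _) (SmS.smG_DL2 SmS.one)).smul _).mono ?_
      exact (Nat.succ_le_succ (Finset.card_le_card hI')).trans (le_max_right _ _)
  refine ⟨v, _, v1, ((u2.mono (le_max_left _ _)).add h.ok a3).congr h.ok ?_⟩
  rwa [show ∀ a b c d : GF V, a - d - (b + c) = a - b - c - d from fun a b c d => by abel]

theorem l4 (h1 : C.SmN S α x f) (h2 : C.WN S α w x f) (h3 : C.NulN S α x (dG f))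
    (hz : w ≤ z ∨ z < 0) :
    ∃ g, C.SmN S α x g ∧ C.WN S α w x g ∧ C.NulN S α x (prjZ z (f - dG g)) := by
  by_cases hx : x ∈ S
  swap
  · exact ⟨0, SmN.zero, WN.of_nul NulN.zero, NulN.of_notMem h.cl hx _⟩
  obtain ⟨e, he⟩ := h.lt hx
  obtain ⟨γ, u, u1, u2, u3, u4⟩ := he.l4 w _ h1 h2 h3
  refine ⟨u, u1, u2, ?_⟩
  have e1 : prjZ z (∑ I ∈ α.powerset, γ I • lgI e I oneG) = 0 := by
    rw [prjZ_sum_DM2]
    refine Finset.sum_eq_zero fun I _ => ?_
    by_cases hI : z = I.card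
    · rw [u3 I (by omega), zero_smul_DM2, prjZ_zero]
    · rw [prjZ_smul, prjZ_lg_ne_DM2 e hI, zeroG]
  have := u4.prjZ z
  rwa [sub_right_comm, prjZ_sub, e1, sub_zero] at this

theorem cj_wn (hf : C.CJ S α w x f g) : C.WN S α w x f := h.rn_wn hf.choose_spec.1
theorem cj_of_wn (hf : C.WN S α (w - 1) x f) (hg : C.WN S α (w - 1) x g) : C.CJ S α w x f g :=
  ⟨0, h.rn_of_wn hf fun _ _ _ => NulN.zero, h.rn_of_wn hg fun _ _ _ => NulN.zero.conj.smul _⟩
theorem cj_add (h1 : C.CJ S α w x f g) (h2 : C.CJ S α w x f' g') :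
    C.CJ S α w x (f + f') (g + g') := by
  obtain ⟨r, a, b⟩ := h1
  obtain ⟨r', a', b'⟩ := h2
  refine ⟨_, h.rn_add a a', ?_⟩
  have e : (fun I => (-1 : ℂ) ^ (w + 1) • conjG ((r + r') I)) =
      (fun I => (-1 : ℂ) ^ (w + 1) • conjG (r I)) + fun I => (-1 : ℂ) ^ (w + 1) • conjG (r' I) :=
    funext fun I => by rw [Pi.add_apply, Pi.add_apply, conjG_add, smul_add]
  rw [e]
  exact h.rn_add b b'
theorem cj_neg (h1 : C.CJ S α w x f g) : C.CJ S α w x (-f) (-g) := by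
  obtain ⟨r, a, b⟩ := h1
  refine ⟨_, h.rn_neg a, ?_⟩
  have e : (fun I => (-1 : ℂ) ^ (w + 1) • conjG ((-r) I)) =
      -fun I => (-1 : ℂ) ^ (w + 1) • conjG (r I) :=
    funext fun I => by rw [Pi.neg_apply, Pi.neg_apply, conj_neg_DM2, smul_neg]
  rw [e]
  exact h.rn_neg b
theorem cj_congr (h1 : C.CJ S α w x f g) (e : C.NulN S α x (f' - f)) (e' : C.NulN S α x (g' - g)) :
    C.CJ S α w x f' g' := by
  obtain ⟨r, a, b⟩ := h1
  exact ⟨r, h.rn_congr a (WN.of_nul e) fun _ _ _ => by rw [sub_self]; exact NulN.zero,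
    h.rn_congr b (WN.of_nul e') fun _ _ _ => by rw [sub_self]; exact NulN.zero⟩
theorem cj_d (h1 : C.CJ S α w x f g) (hf : C.SmN S α x f) (hg : C.SmN S α x g) :
    C.CJ S α w x (dG f) (dG g) := by
  obtain ⟨r, a, b⟩ := h1
  obtain ⟨r', s1, s2, s3⟩ := h.rn_sm_DM2 a
  have b' : C.RN S α w x g fun I => (-1 : ℂ) ^ (w + 1) • conjG (r' I) :=
    h.rn_congr b (by rw [sub_self]; exact WN.of_nul NulN.zero) fun I c d => by
      have := (s3 I c d).conj.smul ((-1 : ℂ) ^ (w + 1))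
      rwa [conj_sub_DM2, smul_sub] at this
  refine ⟨_, h.rn_d s2 hf fun I _ _ => s1 I, ?_⟩
  have e : (fun I : Finset ι => (-1 : ℂ) ^ (w + 1) • conjG ((-1 : ℂ) ^ I.card • dG (r' I))) =
      fun I => (-1 : ℂ) ^ I.card • dG ((-1 : ℂ) ^ (w + 1) • conjG (r' I)) :=
    funext fun I => by rw [dG_smul, dG_conjG, conjG_smul, sign_DM2, smul_comm]
  rw [e]
  exact h.rn_d b' hg fun I _ _ => (s1 I).conj.smul _
theorem cj_prjZ (z : ℤ) (h1 : C.CJ S α w x f g) : C.CJ S α w x (prjZ z f) (prjZ z g) := by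
  obtain ⟨r, a, b⟩ := h1
  refine ⟨_, h.rn_prjZ z a, ?_⟩
  have e : (fun I : Finset ι => (-1 : ℂ) ^ (w + 1) • conjG (prjZ (z - I.card) (r I))) =
      fun I => prjZ (z - I.card) ((-1 : ℂ) ^ (w + 1) • conjG (r I)) :=
    funext fun I => by rw [prjZ_smul, prjZ_conjG]
  rw [e]
  exact h.rn_prjZ z b
theorem cj_ker (h1 : C.CJ S α w x f g) (hf : C.WN S α (w - 1) x f) : C.WN S α (w - 1) x g := by
  obtain ⟨r, a, b⟩ := h1
  exact (h.rn_ker b).2 fun I c d => ((h.rn_ker a).1 hf I c d).conj.smul _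
theorem cj_ex {r : Finset ι → GF V} (hf : C.RN S α w x f r) :
    ∃ g, C.SmN S α x g ∧ C.CJ S α w x f g := by
  obtain ⟨r', s1, s2, -⟩ := h.rn_sm_DM2 hf
  obtain ⟨g, g1, -, g2⟩ := h.rn_lift (w := w) (p := 0)
    (r := fun I => (-1 : ℂ) ^ (w + 1) • conjG (r' I))
    (fun I _ _ => (s1 I).conj.smul _) fun I _ _ => h.fn_DM2 I _
  exact ⟨g, g1, r', s2, g2⟩
/-- Poincare lemma for the residues -/
theorem kca (h1 : C.CJ S α w x f g) (hf : C.SmN S α x f) (hd : C.WN S α (w - 1) x (dG f))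
    (hz : w ≤ z ∨ z < 0) : ∃ f' g', C.SmN S α x f' ∧ C.SmN S α x g' ∧ C.CJ S α w x f' g' ∧
      C.WN S α (w - 1) x (prjZ z (f - dG f')) := by
  obtain ⟨r, s1, s2, -⟩ := h.rn_sm_DM2 h1.choose_spec.1
  have a1 := (h.rn_ker (h.rn_d s2 hf fun I _ _ => s1 I)).1 hd
  have a2 : ∀ I : Finset ι, ∃ (c : ℂ) (t : GF V), C.SmN (St S C.D I) ∅ x t ∧
      (I ⊆ α → I.card + 1 = w → C.NulN (St S C.D I) ∅ x (r I - c • oneG - dG t)) := fun I => by
    by_cases hI : I ⊆ α ∧ I.card + 1 = w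
    swap
    · exact ⟨0, 0, SmN.zero, fun a b => absurd ⟨a, b⟩ hI⟩
    by_cases hx : x ∈ St S C.D I
    swap
    · exact ⟨0, 0, SmN.zero, fun _ _ => NulN.of_notMem (h.cl_DM2 I) hx _⟩
    obtain ⟨e, he⟩ := h.lt' I hx
    have a3 := (a1 I hI.1 hI.2).smul ((-1 : ℂ) ^ I.card)
    rw [sign_sign_DM2] at a3
    obtain ⟨γ, t, t1, t2⟩ := he.pp1 _ (s1 I) a3
    rw [Finset.powerset_empty, Finset.sum_singleton, lgI_empty] at t2
    exact ⟨γ ∅, t, t1, fun _ _ => t2⟩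
  choose c t t1 t2 using a2
  obtain ⟨u, u1, -, u2⟩ := h.rn_lift (w := w) (p := 0) (r := fun I => (-1 : ℂ) ^ I.card • t I)
    (fun I _ _ => (t1 I).smul _) fun I _ _ => h.fn_DM2 I _
  obtain ⟨v, v1, v2⟩ := h.cj_ex u2
  refine ⟨u, v, u1, v1, v2, ?_⟩
  refine (h.rn_ker (h.rn_prjZ z (h.rn_sub s2 (h.rn_d u2 u1 fun I _ _ => (t1 I).smul _)))).2
    fun I a b => ?_
  have e1 : prjZ (z - I.card) (oneG : GF V) = 0 := by
    have := prjZ_lg_ne_DM2 (z := z - I.card) (fun (_ : ι) (_ : V) => (0 : ℂ)) (I := ∅)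
      (by rw [Finset.card_empty]; omega)
    rwa [lgI_empty] at this
  have a4 := (t2 I a b).prjZ (z - I.card)
  rw [sub_right_comm, prjZ_sub, prjZ_smul, e1, zeroG, sub_zero] at a4
  rwa [Pi.sub_apply, dG_smul, sign_sign_DM2]
/-- closed forms with conjugate constant residues -/
theorem kcb (h1 : C.CJ S α w x f g) (hf : C.SmN S α x f) (hg : C.SmN S α x g)
    (hd : C.NulN S α x (dG f)) (hd' : C.NulN S α x (dG g)) (hz : z + 1 = w ∨ z < 0) :
    ∃ u, C.SmN S α x u ∧ C.NulN S α x (prjZ z (g - conjG f - dG u)) := by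
  by_cases hz0 : z < 0
  · exact ⟨0, SmN.zero, by rw [prjZ_neg hz0]; exact NulN.zero⟩
  by_cases hx : x ∈ S
  swap
  · exact ⟨0, SmN.zero, NulN.of_notMem h.cl hx _⟩
  obtain ⟨q, rfl⟩ : ∃ q : ℕ, z = q := ⟨z.toNat, by omega⟩
  obtain rfl : w = q + 1 := by omega
  obtain ⟨e, he⟩ := h.lt hx
  obtain ⟨γ, u, u1, u2, -, u3⟩ := he.l4 _ _ hf (h.cj_wn h1) hd
  obtain ⟨γ', v, v1, v2, -, v3⟩ := he.l4 _ _ hg (h.cj_wn h1.symm) hd'
  obtain ⟨ρ, a, b⟩ := h.cj_prjZ q h1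
  have a1 := h.uniq_DM2 a (he.res_DM2 h.ok u1 u2 u3)
  have a2 := h.uniq_DM2 b (he.res_DM2 h.ok v1 v2 v3)
  have a3 : ∀ I : Finset ι, ∃ t, I ⊆ α → C.SmN S α x t ∧ C.NulN S α x
      (conjG (lgI e I oneG) - (-1 : ℂ) ^ I.card • lgI e I oneG - dG t) := fun I => by
    by_cases hI : I ⊆ α
    · obtain ⟨t, ht⟩ := he.conj I hI
      exact ⟨t, fun _ => ht⟩
    · exact ⟨0, fun a => absurd a hI⟩
  choose t ht using a3
  have t1 : ∀ I ∈ α.powerset, C.SmN S α x (starRingEnd ℂ (γ I) • t I) := fun I hI =>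
    (ht I (Finset.mem_powerset.1 hI)).1.smul _
  have t2 := SmN.sum _ t1
  refine ⟨v - conjG u - _, (v1.sub u1.conj).sub t2, ?_⟩
  have a4 : C.NulN S α x (prjZ q (∑ I ∈ α.powerset,
      (γ' I - (-1 : ℂ) ^ I.card * starRingEnd ℂ (γ I)) • lgI e I oneG)) := by
    rw [prjZ_sum_DM2]
    refine NulN.sum _ fun I hI => ?_
    have hI' := Finset.mem_powerset.1 hI
    by_cases hq : (q : ℤ) = I.card
    swap
    · rw [prjZ_smul, prjZ_lg_ne_DM2 e hq, zeroG]; exact NulN.zero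
    by_cases hxI : x ∈ St S C.D I
    swap
    · exact ((he.off I hI' hxI _).smul _).prjZ _
    have hq' : I.card = q := by omega
    have a5 := ((a1 I hI' (by omega)).conj.smul ((-1 : ℂ) ^ (q + 1 + 1))).sub (a2 I hI' (by omega))
    have e1 : (-1 : ℂ) ^ (q + 1 + 1) • conjG (ρ I - γ I • oneG) -
        ((-1 : ℂ) ^ (q + 1 + 1) • conjG (ρ I) - γ' I • oneG) =
        (γ' I - (-1 : ℂ) ^ I.card * starRingEnd ℂ (γ I)) • oneG := by
      rw [conj_sub_DM2, conjG_smul, conjG_oneG, hq', pow_succ, pow_succ]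
      module
    rw [e1] at a5
    rw [const_DM2 a5 hxI, zero_smul_DM2, prjZ_zero]
    exact NulN.zero
  refine NulN.of_sub ?_ a4
  rw [← prjZ_sub]
  refine NulN.prjZ _ ?_
  have a6 := ((v3.sub u3.conj).sub (NulN.sum α.powerset fun I hI =>
    (ht I (Finset.mem_powerset.1 hI)).2.smul (starRingEnd ℂ (γ I)))).sub
    (((NulN.d_sub (v1.sub u1.conj) t2).add (NulN.d_sub v1 u1.conj)).sub (NulN.d_sum_DL2 _ t1))
  have e2 : ∑ I ∈ α.powerset, starRingEnd ℂ (γ I) •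
      (conjG (lgI e I oneG) - (-1 : ℂ) ^ I.card • lgI e I oneG - dG (t I)) =
      conjG (∑ I ∈ α.powerset, γ I • lgI e I oneG) - (∑ I ∈ α.powerset, γ' I • lgI e I oneG -
        ∑ I ∈ α.powerset, (γ' I - (-1 : ℂ) ^ I.card * starRingEnd ℂ (γ I)) • lgI e I oneG) -
        ∑ I ∈ α.powerset, dG (starRingEnd ℂ (γ I) • t I) := by
    rw [conj_sum_DM2, ← Finset.sum_sub_distrib, ← Finset.sum_sub_distrib, ← Finset.sum_sub_distrib]
    refine Finset.sum_congr rfl fun I _ => ?_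
    rw [conjG_smul, dG_smul]
    module
  rw [e2, conj_sub_DM2, conj_sub_DM2, dG_conjG] at a6
  rwa [show ∀ a b c d e f i j k l m : GF V, a - b - c - (d - e - f) - (e - (b - i) - j) -
      (k - (l - m) + (l - (c - f)) - (m - j)) = a - d - k - i from
    fun a b c d e f i j k l m => by abel] at a6

end Loc

end Pool.Agent.PWD.Ctx
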