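import Pool.Agent.K.MP_65ad7c_ag.C51
import Pool.Agent.K.MP_65ad7c_ag.C54

/-! Local cohomology of `K(T, α, β)` and pairs with conjugate residues. -/

open Set Filter Topology
open scoped ContDiff

noncomputable section
namespace Pool.Agent.PWD.Ctx.Tri

variable {V : Type} [NormedAddCommGroup V] [NormedSpace ℝ V] {ι : Type} [LinearOrder ι]
  {C : Ctx V ι} {X : Set V} {T α β : Finset ι} (h : C.Tri X T α β)

omit [LinearOrder ι] in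
theorem wi_DK4a (q : ℤ) (J : Finset ι) : wi (q - 1) J = wi q J - 1 := by
  unfold wi; omega

include h

theorem mem_kCj {c c' : Finset ι → GF V} {hc : SmK (C.SK X T α β) c} {hc' : SmK (C.SK X T α β) c'}
    {q n : ℤ} {x : X} : (Fam.mk c hc, Fam.mk c' hc') ∈ C.kCj X T α β q n x ↔
      (Fam.mk c hc ∈ C.kDg X T α β n ∧ Fam.mk c' hc' ∈ C.kDg X T α β n) ∧
      ∀ J, C.CJ (C.SJ X T β J) α (wi q J) x (c J) (c' J) :=
  and_congr_right fun _ => Fam.mem_rel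
    ⟨fun _ _ _ _ a b J => (h.loc J x).cj_add (a J) (b J), fun _ _ a J => (h.loc J x).cj_neg (a J),
      fun _ _ a b J => (h.loc J x).cj_of_wn (.of_nul (.of_van (a J))) (.of_nul (.of_van (b J)))⟩

theorem Cj_le (q n : ℤ) (x : X) (a b) (hab : (a, b) ∈ C.kCj X T α β q n x) :
    a ∈ C.kW X T α β q n x := by
  obtain ⟨c, hc, rfl⟩ := a.surj
  obtain ⟨c', hc', rfl⟩ := b.surj
  rw [h.mem_kCj] at hab
  exact h.g.mem_kW.2 ⟨hab.1.1, fun J => (h.loc J x).cj_wn (hab.2 J)⟩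
theorem Cj_symm (q n : ℤ) (x : X) (a b) (hab : (a, b) ∈ C.kCj X T α β q n x) :
    (b, a) ∈ C.kCj X T α β q n x := by
  obtain ⟨c, hc, rfl⟩ := a.surj
  obtain ⟨c', hc', rfl⟩ := b.surj
  rw [h.mem_kCj] at hab ⊢
  exact ⟨⟨hab.1.2, hab.1.1⟩, fun J => (hab.2 J).symm⟩
theorem le_Cj (q n : ℤ) (x : X) : ∀ a ∈ C.kW X T α β (q - 1) n x, (a, 0) ∈ C.kCj X T α β q n x := by
  intro a ha
  obtain ⟨c, hc, rfl⟩ := a.surj
  rw [h.g.mem_kW] at ha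
  exact (h.mem_kCj (c' := 0) (hc' := SmK.zero)).2 ⟨⟨ha.1, zero_mem _⟩, fun J =>
    (h.loc J x).cj_of_wn (wi_DK4a q J ▸ ha.2 J) (.of_nul .zero)⟩
theorem Cj_opn (q : ℤ) : G.Opn (C.kCj X T α β q) := by
  rintro n x ⟨a, b⟩ hab
  obtain ⟨c, hc, rfl⟩ := a.surj
  obtain ⟨c', hc', rfl⟩ := b.surj
  rw [h.mem_kCj] at hab
  have h1 : ∀ᶠ y : X in 𝓝 x, ∀ J ∈ β.powerset,
      C.CJ (C.SJ X T β J) α (wi q J) y (c J) (c' J) :=
    (eventually_all_finset _).2 fun J _ =>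
      continuous_subtype_val.continuousAt.eventually (hab.2 J).ev
  filter_upwards [h1] with y hy
  refine h.mem_kCj.2 ⟨hab.1, fun J => ?_⟩
  by_cases hJ : J ⊆ β
  · exact hy J (Finset.mem_powerset.2 hJ)
  · have h2 : y.1 ∉ C.SJ X T β J := by rw [SJ_of_not hJ]; exact notMem_empty _
    exact (h.loc J y).cj_of_wn (.of_nul (.of_notMem (h.g.clSJ J) h2 _))
      (.of_nul (.of_notMem (h.g.clSJ J) h2 _))
theorem Cj_d (q n : ℤ) (x : X) (a b) (hab : (a, b) ∈ C.kCj X T α β q n x) :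
    (C.kd X T α β a, C.kd X T α β b) ∈ C.kCj X T α β q (n + 1) x := by
  obtain ⟨c, hc, rfl⟩ := a.surj
  obtain ⟨c', hc', rfl⟩ := b.surj
  rw [h.mem_kCj] at hab
  have h1 := C.kd_mem X T α β n _ hab.1.1
  have h2 := C.kd_mem X T α β n _ hab.1.2
  rw [kd_mk] at h1 h2
  rw [kd_mk, kd_mk, h.mem_kCj]
  exact ⟨⟨h1, h2⟩, fun J => (h.loc J x).cj_d (hab.2 J) (.of_smS (hc J)) (.of_smS (hc' J))⟩
theorem Cj_e (q : ℤ) (c : ℕ) (n : ℤ) (x : X) (a b) (hab : (a, b) ∈ C.kCj X T α β q n x) :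
    (C.ke X T α β c a, C.ke X T α β c b) ∈ C.kCj X T α β q n x := by
  obtain ⟨f, hf, rfl⟩ := a.surj
  obtain ⟨f', hf', rfl⟩ := b.surj
  rw [h.mem_kCj] at hab
  have h1 := C.ke_mem X T α β c n _ hab.1.1
  have h2 := C.ke_mem X T α β c n _ hab.1.2
  rw [ke_mk] at h1 h2
  rw [ke_mk, ke_mk, h.mem_kCj]
  refine ⟨⟨h1, h2⟩, fun J => ?_⟩
  split_ifs
  · exact hab.2 J
  · exact (h.loc J x).cj_of_wn (.of_nul .zero) (.of_nul .zero)
theorem Cj_W (q n : ℤ) (x : X) (a b) (hab : (a, b) ∈ C.kCj X T α β q n x)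
    (ha : a ∈ C.kW X T α β (q - 1) n x) : b ∈ C.kW X T α β (q - 1) n x := by
  obtain ⟨c, hc, rfl⟩ := a.surj
  obtain ⟨c', hc', rfl⟩ := b.surj
  rw [h.mem_kCj] at hab
  rw [h.g.mem_kW] at ha ⊢
  refine ⟨hab.1.2, fun J => ?_⟩
  rw [wi_DK4a]
  exact (h.loc J x).cj_ker (hab.2 J) (wi_DK4a q J ▸ ha.2 J)

end Pool.Agent.PWD.Ctx.Tri
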