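import Pool.Agent.K.MP_65ad7c_ag.C56

/-! Hodge theory for the residues. -/

open Set Filter Topology
open scoped ContDiff

noncomputable section
namespace Pool.Agent.PWD

section comp
variable {V : Type} [NormedAddCommGroup V] [NormedSpace ℝ V] {J : V → V →L[ℝ] V} {S : Set V}
  {p p' : ℕ} {f g u v : GF V} {z : ℤ} {s : ℂ}

theorem tyA_zero_DR3 (L : V →L[ℝ] V) (p n : ℕ) : tyA L p n 0 = 0 := by
  have h := tyA_add L p n 0 0
  rw [add_zero] at h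
  exact left_eq_add.1 h

theorem ty_prj_DR3 (z : ℤ) (h : TyV J S p f) : TyV J S p (prjZ z f) :=
  (VanG.prjZ z h).congr fun n x _ => by
    by_cases e : (n : ℤ) = z
    · simp only [prjZ, if_pos e]
    · simp only [prjZ, if_neg e]
      exact tyA_zero_DR3 _ _ _

theorem ty_smul_DR3 (s : ℂ) (h : TyV J S p f) : TyV J S p (s • f) :=
  (VanG.smul s h).congr fun _ _ _ => tyA_smul _ _ _ _ _

theorem ty_zero_DR3 : TyV J S p (0 : GF V) := VanG.of_zero fun _ _ _ => tyA_zero_DR3 _ _ _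

theorem conjG_zero_DR3 : conjG (0 : GF V) = 0 := by
  ext n x v; simp [conjG]

theorem ss_DR3 (hs : s * s = 1) (f : GF V) : s • s • f = f := by
  rw [smul_smul, hs, one_smul]

theorem van_of_DR3 (hs : s * s = 1) (h : VanG S (s • f)) : VanG S f := ss_DR3 hs f ▸ h.smul s

theorem sg_mul_DR3 (k : ℕ) : (-1 : ℂ) ^ k * (-1) ^ k = 1 := by
  rw [← mul_pow]; simp

theorem sg_conj_DR3 (k : ℕ) : starRingEnd ℂ ((-1 : ℂ) ^ k) = (-1) ^ k := by simp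

theorem c1_DR3 (H : Hdg J S) (hs : s * s = 1) (hf : SmS S f) (hg : SmS S g) (ht : TyV J S p f)
    (hz : prjZ (z + 1) f = f) (e : VanG S (s • dG g - f)) :
    ∃ g', SmS S g' ∧ TyV J S p g' ∧ prjZ z g' = g' ∧ VanG S (s • dG g' - f) := by
  obtain ⟨g1, h1, h2, h3⟩ := H.h1 p f (s • g) hf (hg.smul s) ht (by
    rw [dG_smul, ← neg_sub]; exact e.neg)
  refine ⟨s • prjZ z g1, (h1.prjZ z).smul s, ty_smul_DR3 s (ty_prj_DR3 z h2),
    by rw [prjZ_smul, prjZ_prjZ], ?_⟩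
  have h4 := (h3.prjZ (z + 1)).neg
  rwa [prjZ_sub, hz, prjZ_dG, neg_sub, ← ss_DR3 hs (dG _), ← dG_smul s (prjZ z g1)] at h4

theorem c2_DR3 (H : Hdg J S) (h0 : ∀ f, TyV J S 0 f) (hs : s * s = 1) (hc : starRingEnd ℂ s = s)
    (hp : p = 0 ∨ p' = 0 ∨ (p : ℤ) + p' = z + 1 + 1) (hf : SmS S f) (hz : prjZ (z + 1) f = f)
    (hd : VanG S (dG f)) : ∃ u v g, (SmS S u ∧ SmS S v ∧ SmS S g) ∧ (TyV J S p u ∧ TyV J S p' v) ∧
      (prjZ (z + 1) u = u ∧ prjZ (z + 1) v = v ∧ prjZ z g = g) ∧ VanG S (dG u) ∧ VanG S (dG v) ∧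
      VanG S (f - u - s • conjG v - s • dG g) := by
  by_cases hp0 : p = 0
  · refine ⟨f, 0, 0, ⟨hf, .zero, .zero⟩, ⟨hp0 ▸ h0 f, ty_zero_DR3⟩, ⟨hz, prjZ_zero _, prjZ_zero _⟩,
      hd, by rw [dG_zero]; exact .zero, ?_⟩
    rw [conjG_zero_DR3, dG_zero, zeroG, sub_self, sub_zero, sub_zero]
    exact .zero
  by_cases hp1 : p' = 0
  · refine ⟨0, s • conjG f, 0, ⟨.zero, hf.conj.smul s, .zero⟩, ⟨ty_zero_DR3, hp1 ▸ h0 _⟩,
      ⟨prjZ_zero _, by rw [prjZ_smul, prjZ_conjG, hz], prjZ_zero _⟩,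
      by rw [dG_zero]; exact .zero, ?_, ?_⟩
    · rw [dG_smul, dG_conjG]
      exact hd.conj.smul s
    · rw [conjG_smul, conjG_conjG, hc, ss_DR3 hs, dG_zero, zeroG, sub_zero, sub_zero, sub_self]
      exact .zero
  obtain ⟨m, hm⟩ : ∃ m : ℕ, z + 1 = m := ⟨(z + 1).toNat, by omega⟩
  obtain ⟨u, v, g, h1, h2, h3, h4, h5, h6, h7, h8⟩ := H.h2 m p p' f (by omega) hf hd
  refine ⟨prjZ (z + 1) u, s • prjZ (z + 1) v, s • prjZ z g,
    ⟨h1.prjZ _, (h2.prjZ _).smul s, (h3.prjZ _).smul s⟩,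
    ⟨ty_prj_DR3 _ h4, ty_smul_DR3 s (ty_prj_DR3 _ h5)⟩,
    ⟨prjZ_prjZ _ _, by rw [prjZ_smul, prjZ_prjZ], by rw [prjZ_smul, prjZ_prjZ]⟩, ?_, ?_, ?_⟩
  · rw [← prjZ_dG]
    exact h6.prjZ _
  · rw [dG_smul, ← prjZ_dG]
    exact (h7.prjZ _).smul s
  · have h9 := h8.prjZ (z + 1)
    rw [← prjZ_nat, ← hm, hz, prjZ_sub, prjZ_sub, prjZ_sub, hz, prjZ_conjG, prjZ_dG] at h9
    rwa [conjG_smul, hc, ss_DR3 hs, dG_smul, ss_DR3 hs]

theorem c3_DR3 (H : Hdg J S) (hs : s * s = 1) (hc : starRingEnd ℂ s = s)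
    (hp : z + 1 + 1 ≤ (p : ℤ) + p') (hu : SmS S u) (hv : SmS S v) (hg : SmS S g)
    (tu : TyV J S p u) (tv : TyV J S p' v) (hz : prjZ (z + 1) u = u) (du : VanG S (dG u))
    (dv : VanG S (dG v)) (e : VanG S (u - s • conjG v - s • dG g)) :
    ∃ g', SmS S g' ∧ prjZ z g' = g' ∧ VanG S (s • dG g' - u) := by
  rcases prjZ_cases (z + 1) u with e0 | ⟨m, hm, e0⟩
  · refine ⟨0, .zero, prjZ_zero _, ?_⟩
    rw [← hz, e0, dG_zero, zeroG, sub_zero]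
    exact .zero
  obtain ⟨g1, h1, h2⟩ := H.h3 m p p' u (s • v) (s • g) (by omega) hu (hv.smul s) (hg.smul s) tu
    (ty_smul_DR3 s tv) du (by rw [dG_smul]; exact dv.smul s) (by rwa [conjG_smul, hc, dG_smul])
  refine ⟨s • prjZ z g1, (h1.prjZ z).smul s, by rw [prjZ_smul, prjZ_prjZ], ?_⟩
  have h4 := (h2.prjZ (z + 1)).neg
  rwa [← e0, hz, prjZ_sub, hz, prjZ_dG, neg_sub, ← ss_DR3 hs (dG _),
    ← dG_smul s (prjZ z g1)] at h4

theorem hdg_empty_DR3 : Hdg J ∅ where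
  h1 _ _ g _ hg _ _ := ⟨g, hg, .empty, .empty⟩
  h2 _ _ _ _ _ _ _ := ⟨0, 0, 0, .zero, .zero, .zero, .empty, .empty, .empty, .empty, .empty⟩
  h3 _ _ _ _ _ g _ _ _ hg _ _ _ _ _ := ⟨g, hg, .empty⟩

end comp

end Pool.Agent.PWD

namespace Pool.Agent.PWD.Ctx.Tri

variable {V : Type} [NormedAddCommGroup V] [NormedSpace ℝ V] {ι : Type}
  [LinearOrder ι] {C : Ctx V ι} {X : Set V} {T α β : Finset ι} (h : C.Tri X T α β) (p q n : ℤ)
include h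

theorem hdgB (j : Finset ι × Finset ι) : Hdg C.J (C.SB X T α β q j) := by
  unfold SB
  split_ifs
  · by_cases hJ : j.1 ⊆ β
    · rw [SJ_of hJ, St_St]
      exact h.g.hdg _
    · rw [SJ_of_not hJ, St, empty_inter]
      exact hdg_empty_DR3
  · exact hdg_empty_DR3

theorem ty0_DR3 (j : Finset ι × Finset ι) (f : GF V) : TyV C.J (C.SB X T α β q j) 0 f := by
  unfold SB
  split_ifs
  · have h1 := FN.glob (C := C) (S := St (C.SJ X T β j.1) C.D j.2) (α := ∅) (p := 0) (f := f)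
      fun x hx => (h.g.ltSt hx).elim fun e he => he.ty0 f
    rwa [Off_empty, sdiff_empty] at h1
  · exact VanG.empty

omit h in
theorem cases_DR3 (j : Finset ι × Finset ι) :
    C.SB X T α β q j = ∅ ∨ (j.2.card : ℤ) = q + j.1.card := by
  unfold SB
  split_ifs with h1
  · have h2 := h1.2
    unfold wi at h2
    exact Or.inr (by omega)
  · exact Or.inl rfl

theorem bF_top : C.bDg X T α β q n ≤ C.bF X T α β q 0 n := fun b hb => by
  obtain ⟨c, hc, rfl⟩ := b.surj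
  refine h.mem_bF.2 ⟨hb, fun j => ?_⟩
  rw [Int.toNat_zero, Nat.zero_sub]
  exact h.ty0_DR3 q j _
theorem bκ_mem : ∀ b ∈ C.bDg X T α β q n, C.bκ X T α β q b ∈ C.bDg X T α β q n := by
  have _ := h
  intro b hb
  obtain ⟨c, hc, rfl, e⟩ := Fam.deg_surj hb
  exact Fam.mem_deg_of fun j => by rw [prjZ_smul, prjZ_conjG, e j]
theorem bκ_bd (b : C.B X T α β q) :
    C.bκ X T α β q (C.bd X T α β q b) = C.bd X T α β q (C.bκ X T α β q b) := by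
  have _ := h
  obtain ⟨c, hc, rfl⟩ := b.surj
  refine Fam.mk_eq.2 fun j => ?_
  change VanG _ ((-1 : ℂ) ^ j.2.card • conjG ((-1 : ℂ) ^ j.2.card • dG (c j)) -
    (-1 : ℂ) ^ j.2.card • dG ((-1 : ℂ) ^ j.2.card • conjG (c j)))
  rw [conjG_smul, sg_conj_DR3, dG_smul, dG_conjG, sub_self]
  exact VanG.zero
theorem b_h1 : ∀ b ∈ C.bF X T α β q p n, ∀ c ∈ C.bDg X T α β q (n - 1), C.bd X T α β q c = b →
    ∃ c' ∈ C.bF X T α β q p (n - 1), C.bd X T α β q c' = b := by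
  intro b hb c _ e
  obtain ⟨f, hf, rfl, hz⟩ := Fam.deg_surj hb.1
  obtain ⟨g, hg, rfl⟩ := c.surj
  have e' := Fam.mk_eq.1 e
  choose g' h1 h2 h3 h4 using fun j => c1_DR3 (h.hdgB q j) (sg_mul_DR3 j.2.card) (hf j) (hg j)
    ((h.mem_bF.1 hb).2 j) (z := n - 1 - (j.1.card + j.2.card))
    (by rw [sub_right_comm, sub_add_cancel]; exact hz j) (e' j)
  exact ⟨Fam.mk g' h1, h.mem_bF.2 ⟨Fam.mem_deg_of h3, h2⟩, Fam.mk_eq.2 h4⟩
theorem b_h2 : ∀ b ∈ C.bDg X T α β q n, C.bd X T α β q b = 0 →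
    ∃ u ∈ C.bF X T α β q p n, ∃ v ∈ C.bF X T α β q (n + q - p + 1) n,
      ∃ c ∈ C.bDg X T α β q (n - 1), C.bd X T α β q u = 0 ∧ C.bd X T α β q v = 0 ∧
        b - u - C.bκ X T α β q v = C.bd X T α β q c := by
  intro b hb e
  obtain ⟨f, hf, rfl, hz⟩ := Fam.deg_surj hb
  have e' := Fam.mk_eq_zero.1 e
  have ez : ∀ j : Finset ι × Finset ι,
      n - ((j.1.card : ℤ) + j.2.card) = n - 1 - (j.1.card + j.2.card) + 1 := fun j => by ring
  have key : ∀ j : Finset ι × Finset ι, ∃ u v g, (SmS (C.SB X T α β q j) u ∧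
      SmS (C.SB X T α β q j) v ∧ SmS (C.SB X T α β q j) g) ∧
      (TyV C.J (C.SB X T α β q j) (p.toNat - j.2.card) u ∧
        TyV C.J (C.SB X T α β q j) ((n + q - p + 1).toNat - j.2.card) v) ∧
      (prjZ (n - 1 - (j.1.card + j.2.card) + 1) u = u ∧
        prjZ (n - 1 - (j.1.card + j.2.card) + 1) v = v ∧
        prjZ (n - 1 - (j.1.card + j.2.card)) g = g) ∧ VanG (C.SB X T α β q j) (dG u) ∧
      VanG (C.SB X T α β q j) (dG v) ∧ VanG (C.SB X T α β q j)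
        (f j - u - (-1 : ℂ) ^ j.2.card • conjG v - (-1 : ℂ) ^ j.2.card • dG g) := fun j => by
    rcases cases_DR3 (C := C) (X := X) (T := T) (α := α) (β := β) q j with e0 | e0
    · rw [e0]
      exact ⟨0, 0, 0, ⟨.zero, .zero, .zero⟩, ⟨.empty, .empty⟩,
        ⟨prjZ_zero _, prjZ_zero _, prjZ_zero _⟩, .empty, .empty, .empty⟩
    · exact c2_DR3 (h.hdgB q j) (h.ty0_DR3 q j) (sg_mul_DR3 _) (sg_conj_DR3 _) (by omega) (hf j)
        (ez j ▸ hz j) (van_of_DR3 (sg_mul_DR3 _) (e' j))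
  choose u v g h1 h2 h3 h4 h5 h6 using key
  exact ⟨Fam.mk u fun j => (h1 j).1,
    h.mem_bF.2 ⟨Fam.mem_deg_of fun j => ez j ▸ (h3 j).1, fun j => (h2 j).1⟩,
    Fam.mk v fun j => (h1 j).2.1,
    h.mem_bF.2 ⟨Fam.mem_deg_of fun j => ez j ▸ (h3 j).2.1, fun j => (h2 j).2⟩,
    Fam.mk g fun j => (h1 j).2.2, Fam.mem_deg_of fun j => (h3 j).2.2,
    Fam.mk_eq_zero.2 fun j => (h4 j).smul _, Fam.mk_eq_zero.2 fun j => (h5 j).smul _,
    Fam.mk_eq.2 h6⟩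
theorem b_h3 : ∀ u ∈ C.bF X T α β q p n, ∀ v ∈ C.bF X T α β q (n + q - p + 1) n,
    ∀ c ∈ C.bDg X T α β q (n - 1), C.bd X T α β q u = 0 → C.bd X T α β q v = 0 →
      u - C.bκ X T α β q v = C.bd X T α β q c →
      ∃ c' ∈ C.bDg X T α β q (n - 1), C.bd X T α β q c' = u := by
  intro a ha b hb c _ da db e
  obtain ⟨u, hu, rfl, hz⟩ := Fam.deg_surj ha.1
  obtain ⟨v, hv, rfl⟩ := b.surj
  obtain ⟨g, hg, rfl⟩ := c.surj
  have da' := Fam.mk_eq_zero.1 da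
  have db' := Fam.mk_eq_zero.1 db
  have e' := Fam.mk_eq.1 e
  have ez : ∀ j : Finset ι × Finset ι,
      n - ((j.1.card : ℤ) + j.2.card) = n - 1 - (j.1.card + j.2.card) + 1 := fun j => by ring
  have key : ∀ j : Finset ι × Finset ι, ∃ g', SmS (C.SB X T α β q j) g' ∧
      prjZ (n - 1 - (j.1.card + j.2.card)) g' = g' ∧
      VanG (C.SB X T α β q j) ((-1 : ℂ) ^ j.2.card • dG g' - u j) := fun j => by
    rcases cases_DR3 (C := C) (X := X) (T := T) (α := α) (β := β) q j with e0 | e0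
    · rw [e0]
      exact ⟨0, .zero, prjZ_zero _, .empty⟩
    · exact c3_DR3 (h.hdgB q j) (sg_mul_DR3 _) (sg_conj_DR3 _) (by omega) (hu j) (hv j) (hg j)
        ((h.mem_bF.1 ha).2 j) ((h.mem_bF.1 hb).2 j) (ez j ▸ hz j)
        (van_of_DR3 (sg_mul_DR3 _) (da' j)) (van_of_DR3 (sg_mul_DR3 _) (db' j)) (e' j)
  choose g' h1 h2 h3 using key
  exact ⟨Fam.mk g' h1, Fam.mem_deg_of h2, Fam.mk_eq.2 h3⟩

end Pool.Agent.PWD.Ctx.Tri
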