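import Pool.Agent.K.MP_65ad7c_ag.C56

/-! Global residues. -/

open Set Filter Topology
open scoped ContDiff Manifold

noncomputable section
namespace Pool.Agent.PWD.Ctx

section col
variable {V : Type} [NormedAddCommGroup V] [NormedSpace ℝ V] [FiniteDimensional ℝ V] {ι : Type}
  [LinearOrder ι] {C : Ctx V ι} {X S : Set V} {α : Finset ι} {w p : ℕ}

omit [LinearOrder ι] in
/-- a finite smooth partition of unity on a compact set -/
theorem pouDR1b (hX : IsCompact X) (U : X → Set V) (hU : ∀ x, U x ∈ 𝓝 x.1) :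
    ∃ (t : Finset X) (χ : t → V → ℂ), (∀ k, ContDiff ℝ ∞ (χ k)) ∧
      (∀ k, tsupport (χ k) ⊆ U k) ∧ ∀ y ∈ X, ∑ k, χ k y = 1 := by
  obtain ⟨t, ht⟩ := hX.elim_nhds_subcover' (fun x hx => interior (U ⟨x, hx⟩))
    fun x hx => interior_mem_nhds.2 (hU ⟨x, hx⟩)
  obtain ⟨ρ, hρ⟩ := SmoothPartitionOfUnity.exists_isSubordinate 𝓘(ℝ, V) hX.isClosed
    (fun k : t => interior (U k)) (fun _ => isOpen_interior) fun y hy => by
      obtain ⟨k, hk, hy⟩ := mem_iUnion₂.1 (ht hy)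
      exact mem_iUnion.2 ⟨⟨k, hk⟩, hy⟩
  refine ⟨t, fun k y => (ρ k y : ℂ), fun k => ?_, fun k => ?_, fun y hy => ?_⟩
  · exact Complex.ofRealCLM.contDiff.comp (ρ k).contMDiff.contDiff
  · refine Subset.trans ?_ ((hρ k).trans interior_subset)
    exact closure_mono fun y hy h0 => hy (by simp [h0])
  · have := ρ.sum_eq_one hy
    rw [finsum_eq_sum_of_fintype] at this
    show ∑ k, ((ρ k y : ℝ) : ℂ) = 1
    exact_mod_cast this

omit [FiniteDimensional ℝ V] [LinearOrder ι] in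
theorem vanDR1b {κ : Type} [Fintype κ] {χ : κ → V → ℂ} (h : ∀ y ∈ X, ∑ k, χ k y = 1) (hS : S ⊆ X)
    (f : GF V) : VanG S (f - ∑ k, mulG (χ k) f) := VanG.of_zero fun n y hy => by
  have e : (∑ k, mulG (χ k) f) n y = ∑ k, χ k y • f n y := by
    rw [Finset.sum_apply, Finset.sum_apply]
    rfl
  show f n y - (∑ k, mulG (χ k) f) n y = 0
  rw [e, ← Finset.sum_smul, h y (hS hy), one_smul, sub_self]

omit [FiniteDimensional ℝ V] in
theorem sumDR1b {κ : Type} (t : Finset κ) {χ : κ → V → ℂ} (hχ : ∀ k, ContDiff ℝ ∞ (χ k)) {y : V}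
    (hl : C.Loc S α y) {g : κ → GF V} {s : κ → Finset ι → GF V}
    (h : ∀ k, y ∈ tsupport (χ k) → C.RN S α w y (g k) (s k)) :
    C.RN S α w y (∑ k ∈ t, mulG (χ k) (g k)) fun I => ∑ k ∈ t, mulG (χ k) (s k I) := by
  classical
  induction t using Finset.induction_on with
  | empty =>
    simp only [Finset.sum_empty]
    exact hl.rn_of_wn (WN.of_nul NulN.zero) fun _ _ _ => NulN.zero
  | insert k t hk ih =>
    simp only [Finset.sum_insert hk]
    refine hl.rn_add (r := fun I => mulG (χ k) (s k I)) ?_ ih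
    by_cases hy : y ∈ tsupport (χ k)
    · exact hl.rn_mul (hχ k) (h k hy)
    · exact hl.rn_of_wn (WN.of_nul (NulN.mul_of_zero hy _)) fun _ _ _ => NulN.mul_of_zero hy _

omit [FiniteDimensional ℝ V] in
theorem selfDR1b {y : V} (f : GF V) : C.NulN S α y (f - f) := by
  rw [sub_self]
  exact NulN.zero

/-- global residues in one column -/
theorem exDR1b (hX : IsCompact X) (hS : S ⊆ X) (hl : ∀ x : X, C.Loc S α x) {f : GF V}
    (h : ∀ x : X, ∃ r, C.RN S α w x f r) :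
    ∃ r : Finset ι → GF V, (∀ I, SmS univ (r I)) ∧ ∀ x : X, C.RN S α w x f r := by
  have h1 : ∀ x : X, ∃ g : Finset ι → GF V, (∀ I, SmS univ (g I)) ∧ C.RN S α w x f g := by
    intro x
    obtain ⟨r, hr⟩ := h x
    obtain ⟨r', s1, s2⟩ := (hl x).rn_sm hr
    choose g g1 g2 using fun I => (s1 I).glob
    refine ⟨g, fun I => (g1 I).anti fun y _ => ⟨trivial, by simp [Off_empty]⟩,
      (hl x).rn_congr hr (WN.of_nul (selfDR1b f)) fun I hI hc => ?_⟩
    exact ((s2 I hI hc).trans ((g2 I).anti (subset_univ _) subset_rfl)).symm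
  choose g g1 g2 using h1
  obtain ⟨t, χ, c1, c2, c3⟩ := pouDR1b hX (fun x => {y | C.RN S α w y f (g x)})
    fun x => (g2 x).ev
  refine ⟨fun I => ∑ k, mulG (χ k) (g k I), fun I => SmS.sum _ fun k _ =>
    (g1 k I).mul isOpen_univ subset_rfl (c1 k).contDiffOn, fun x => ?_⟩
  refine (hl x).rn_congr (sumDR1b Finset.univ c1 (hl x) (g := fun _ => f) (s := fun k => g k)
    fun k hk => c2 k hk) (WN.of_nul (NulN.of_van ?_)) fun _ _ _ => selfDR1b _
  exact vanDR1b c3 (sdiff_subset.trans hS) f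

/-- global forms with given residues in one column -/
theorem liftDR1b (hX : IsCompact X) (hS : S ⊆ X) (hl : ∀ x : X, C.Loc S α x)
    {r : Finset ι → GF V} (h1 : ∀ I ⊆ α, I.card + 1 = w → SmS (St S C.D I) (r I))
    (h2 : ∀ I ⊆ α, I.card + 1 = w → TyV C.J (St S C.D I) (p - I.card) (r I)) :
    ∃ f, SmS (S \ Off C.D α) f ∧ ∀ x : X, C.FN S α p x f ∧ C.RN S α w x f r := by
  have h3 : ∀ x : X, ∃ g, SmS (S \ Off C.D α) g ∧ C.FN S α p x g ∧ C.RN S α w x g r := by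
    intro x
    obtain ⟨f, f1, f2, f3⟩ := (hl x).rn_lift (p := p) (w := w) (r := r)
      (fun I hI hc => SmN.of_smS ((h1 I hI hc).anti sdiff_subset))
      fun I hI hc => FN.of_ty (VanG.anti (h2 I hI hc) sdiff_subset)
    obtain ⟨g, g1, g2⟩ := f1.glob
    exact ⟨g, g1, (hl x).fn_congr f2 g2.symm,
      (hl x).rn_congr f3 (WN.of_nul g2.symm) fun _ _ _ => selfDR1b _⟩
  choose g g1 g2 g3 using h3
  obtain ⟨t, χ, c1, c2, c3⟩ := pouDR1b hX
    (fun x => {y | C.FN S α p y (g x) ∧ C.RN S α w y (g x) r}) fun x => (g2 x).ev.and (g3 x).ev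
  refine ⟨∑ k, mulG (χ k) (g k), SmS.sum _ fun k _ =>
    (g1 k).mul isOpen_univ (subset_univ _) (c1 k).contDiffOn, fun x => ⟨FN.sum _ fun k _ => ?_, ?_⟩⟩
  · by_cases hy : x.1 ∈ tsupport (χ k)
    · exact (c2 k hy).1.mul _
    · exact FN.mul_of_zero hy _
  · refine (hl x).rn_congr (sumDR1b Finset.univ c1 (hl x) (g := fun k => g k) (s := fun _ => r)
      fun k hk => (c2 k hk).2) (WN.of_nul (selfDR1b _)) fun I _ _ => NulN.of_van ?_
    exact vanDR1b c3 (sdiff_subset.trans (inter_subset_left.trans hS)) (r I)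

end col

namespace Tri

variable {V : Type} [NormedAddCommGroup V] [NormedSpace ℝ V] [FiniteDimensional ℝ V] {ι : Type}
  [LinearOrder ι] {C : Ctx V ι} {X : Set V} {T α β : Finset ι} (h : C.Tri X T α β) {p q n : ℤ}
  {a a' : C.K X T α β} {b : C.B X T α β q}
include h

theorem res_ex (h1 : a ∈ C.kDg X T α β n) (h2 : a ∈ G.Gam (C.kY X T α β q) n) :
    ∃ b, (a, b) ∈ C.Res X T α β q n := by
  obtain ⟨c, hc, rfl, hd⟩ := Fam.deg_surj h1
  choose r r1 r2 using fun J => exDR1b h.g.cpt (SJ_X J) (h.loc J)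
    fun x => (h.mem_kY.1 ((Submodule.mem_iInf _).1 h2 x)).2 J
  refine ⟨Fam.mk (fun j => prjZ (n - (j.1.card + j.2.card)) (r j.1 j.2))
    fun j => ((r1 j.1 j.2).anti (subset_univ _)).prjZ _,
    h.mem_Res.2 ⟨⟨h1, Fam.mem_deg_of fun j => prjZ_prjZ _ _⟩, fun x hx J => ?_⟩⟩
  have := (h.loc J ⟨x, hx⟩).rn_prjZ (n - J.card) (r2 J ⟨x, hx⟩)
  rw [hd J] at this
  simpa only [sub_sub] using this

theorem res_lift (hb : b ∈ C.bF X T α β q p n) :
    ∃ a ∈ C.kF X T α β p n, (a, b) ∈ C.Res X T α β q n := by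
  obtain ⟨r, hr, rfl, hd⟩ := Fam.deg_surj hb.1
  have hSB : ∀ J, ∀ I ⊆ α, I.card + 1 = wi q J →
      C.SB X T α β q (J, I) = St (C.SJ X T β J) C.D I := fun J I hI hc => if_pos ⟨hI, hc⟩
  choose f f1 f2 using fun J => liftDR1b (w := wi q J) (p := p.toNat) h.g.cpt (SJ_X J) (h.loc J)
    (r := fun I => r (J, I)) (fun I hI hc => hSB J I hI hc ▸ hr (J, I))
    fun I hI hc => hSB J I hI hc ▸ (h.mem_bF.1 hb).2 (J, I)
  have hc : SmK (C.SK X T α β) fun J => prjZ (n - J.card) (f J) := fun J => (f1 J).prjZ _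
  have hdeg : Fam.mk _ hc ∈ C.kDg X T α β n := Fam.mem_deg_of fun J => prjZ_prjZ _ _
  refine ⟨Fam.mk _ hc, h.mem_kF.2 ⟨hdeg, fun J => FN.glob fun x hx =>
    (f2 J ⟨x, SJ_X J hx⟩).1.prjZ _⟩, h.mem_Res.2 ⟨⟨hdeg, hb.1⟩, fun x hx J => ?_⟩⟩
  have := (h.loc J ⟨x, hx⟩).rn_prjZ (n - J.card) (f2 J ⟨x, hx⟩).2
  have e : (fun I : Finset ι => prjZ (n - J.card - I.card) (r (J, I))) = fun I => r (J, I) :=
    funext fun I => by rw [sub_sub]; exact hd (J, I)
  rwa [e] at this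

end Tri

end Pool.Agent.PWD.Ctx
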