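import Pool.Agent.K.MP_65ad7c_ag.C53
import Pool.Agent.K.MP_65ad7c_ag.C57
import Pool.Agent.K.MP_65ad7c_ag.C58

/-! The graded pieces are pure Hodge structures. -/

open Set Filter Topology
open scoped ContDiff

noncomputable section
namespace Pool.Agent.PWD.Ctx.Tri

variable {V : Type} [NormedAddCommGroup V] [NormedSpace ℝ V] [FiniteDimensional ℝ V] {ι : Type}
  [LinearOrder ι] {C : Ctx V ι} {X : Set V} {T α β : Finset ι} (h : C.Tri X T α β) (p q b : ℤ)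
include h

omit [FiniteDimensional ℝ V] in
theorem gδ_DR4 {q n : ℤ} {z : C.K X T α β} (hz : z ∈ G.Gam (C.kW X T α β q) n) :
    C.kδ X T α β z ∈ G.Gam (C.kW X T α β (q - 1)) (n + 1) :=
  (Submodule.mem_iInf _).2 fun x => h.W_δ q n x z ((Submodule.mem_iInf _).1 hz x)

omit [FiniteDimensional ℝ V] in
theorem gδ'_DR4 {q n : ℤ} {z : C.K X T α β} (hz : z ∈ G.Gam (C.kW X T α β q) (n - 1)) :
    C.kδ X T α β z ∈ G.Gam (C.kW X T α β (q - 1)) n := by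
  have := h.gδ_DR4 hz
  rwa [sub_add_cancel] at this

omit [FiniteDimensional ℝ V] in
theorem gd_DR4 {q n : ℤ} {z : C.K X T α β} (hz : z ∈ G.Gam (C.kW X T α β q) n) :
    C.kd X T α β z ∈ G.Gam (C.kW X T α β q) (n + 1) :=
  (Submodule.mem_iInf _).2 fun x => h.W_d q n x z ((Submodule.mem_iInf _).1 hz x)

omit [FiniteDimensional ℝ V] in
theorem WY_DR4 {q n : ℤ} {z : C.K X T α β} (hz : z ∈ G.Gam (C.kW X T α β (q - 1)) n) :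
    z ∈ G.Gam (C.kY X T α β q) n :=
  (Submodule.mem_iInf _).2 fun x => h.W_Y q n x ((Submodule.mem_iInf _).1 hz x)

omit [FiniteDimensional ℝ V] in
theorem YW_DR4 {q n : ℤ} {z : C.K X T α β} (hz : z ∈ G.Gam (C.kY X T α β q) n) :
    z ∈ G.Gam (C.kW X T α β q) n :=
  (Submodule.mem_iInf _).2 fun x => h.Y_W q n x ((Submodule.mem_iInf _).1 hz x)

omit [FiniteDimensional ℝ V] in
theorem dD_DR4 {q n : ℤ} {x : C.K X T α β} (hx : x ∈ G.Gam (C.kW X T α β q) n)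
    (hD : C.kD X T α β x ∈ G.Gam (C.kW X T α β (q - 1)) (n + 1)) :
    C.kd X T α β x ∈ G.Gam (C.kW X T α β (q - 1)) (n + 1) := by
  have := Submodule.sub_mem _ hD (h.gδ_DR4 hx)
  rwa [LinearMap.add_apply, add_sub_cancel_right] at this

omit [FiniteDimensional ℝ V] in
theorem subD_DR4 {q n : ℤ} {x z : C.K X T α β} (hz : z ∈ G.Gam (C.kW X T α β q) (n - 1)) :
    x - C.kD X T α β z ∈ G.Gam (C.kW X T α β (q - 1)) n ↔
      x - C.kd X T α β z ∈ G.Gam (C.kW X T α β (q - 1)) n := by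
  rw [LinearMap.add_apply, ← sub_sub]
  exact Submodule.sub_mem_iff_left _ (h.gδ'_DR4 hz)

omit [FiniteDimensional ℝ V] in
theorem resd_DR4 {q n : ℤ} {a : C.K X T α β} {r : C.B X T α β q}
    (ha : (a, r) ∈ C.Res X T α β q (n - 1)) :
    (C.kd X T α β a, C.bd X T α β q r) ∈ C.Res X T α β q n := by
  have := h.res_d ha
  rwa [sub_add_cancel] at this

omit [FiniteDimensional ℝ V] in
theorem closed_DR4 {q n : ℤ} {a : C.K X T α β} {r : C.B X T α β q}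
    (ha : (a, r) ∈ C.Res X T α β q n) (hr : C.bd X T α β q r = 0) :
    C.kD X T α β a ∈ G.Gam (C.kW X T α β (q - 1)) (n + 1) := by
  rw [LinearMap.add_apply]
  exact Submodule.add_mem _ ((h.res_ker (h.res_d ha)).2 hr) (h.gδ_DR4 (h.YW_DR4 (h.res_Y ha)))

theorem congr_DR4 {q n : ℤ} {a a' : C.K X T α β} {r : C.B X T α β q}
    (ha : (a, r) ∈ C.Res X T α β q n) (h1 : a - a' ∈ G.Gam (C.kW X T α β (q - 1)) n) :
    (a', r) ∈ C.Res X T α β q n := by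
  obtain ⟨s, hs⟩ := h.res_ex (h.gam_le (q - 1) n h1).1 (h.WY_DR4 h1)
  obtain rfl := (h.res_ker hs).1 h1
  have := Submodule.sub_mem _ ha hs
  rwa [Prod.mk_sub_mk, sub_sub_cancel, sub_zero] at this

theorem one_DR4 {p q n : ℤ} {x : C.K X T α β} (hF : x ∈ C.kF X T α β p n)
    (hx : x ∈ G.Gam (C.kW X T α β q) n)
    (hd : C.kd X T α β x ∈ G.Gam (C.kW X T α β (q - 1)) (n + 1)) :
    ∃ z ∈ C.kF X T α β p (n - 1), z ∈ G.Gam (C.kW X T α β q) (n - 1) ∧ ∃ r ∈ C.bF X T α β q p n,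
      (x - C.kd X T α β z, r) ∈ C.Res X T α β q n ∧ C.bd X T α β q r = 0 ∧
      x - C.kd X T α β z ∈ C.kF X T α β p n := by
  obtain ⟨z, hz, h1⟩ := h.ac_Y p q n x ⟨hF, hx⟩ ⟨h.F_d p n x hF, h.WY_DR4 hd⟩
  obtain ⟨r, hr⟩ := h.res_ex h1.1.1 h1.2
  refine ⟨z, hz.1, hz.2, r, h.res_F hr h1.1, hr, (h.res_ker (h.res_d hr)).1 ?_, h1.1⟩
  rwa [map_sub, kd_kd, sub_zero]

theorem two_DR4 {q n : ℤ} {z : C.K X T α β} {r : C.B X T α β q}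
    (hz : z ∈ G.Gam (C.kW X T α β q) (n - 1)) (hr : (C.kd X T α β z, r) ∈ C.Res X T α β q n) :
    ∃ s ∈ C.bDg X T α β q (n - 1), C.bd X T α β q s = r := by
  have h0 := h.gam_le q (n - 1) hz
  obtain ⟨u, -, h1⟩ := h.ac_Y 0 q (n - 1) z ⟨h0, hz⟩ ⟨h.F_d 0 (n - 1) z h0, by
    rw [sub_add_cancel]; exact h.res_Y hr⟩
  obtain ⟨s, hs⟩ := h.res_ex h1.1.1 h1.2
  refine ⟨s, hs.1.2, ?_⟩
  have h2 := h.resd_DR4 hs
  rw [map_sub, kd_kd, sub_zero] at h2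
  have h3 := Submodule.sub_mem _ h2 hr
  rw [Prod.mk_sub_mk, sub_self] at h3
  exact sub_eq_zero.1 ((h.res_ker h3).1 (Submodule.zero_mem _))

theorem fin_DR4 {p q n : ℤ} {x z : C.K X T α β} {r c : C.B X T α β q}
    (hz : z ∈ G.Gam (C.kW X T α β q) (n - 1))
    (hr : (x - C.kd X T α β z, r) ∈ C.Res X T α β q n) (hc : c ∈ C.bF X T α β q p (n - 1))
    (hcr : C.bd X T α β q c = r) :
    ∃ a ∈ C.kF X T α β p (n - 1), z + a ∈ G.Gam (C.kW X T α β q) (n - 1) ∧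
      x - C.kD X T α β (z + a) ∈ G.Gam (C.kW X T α β (q - 1)) n := by
  obtain ⟨a, ha, hac⟩ := h.res_lift hc
  have h1 := Submodule.add_mem _ hz (h.YW_DR4 (h.res_Y hac))
  refine ⟨a, ha, h1, (h.subD_DR4 h1).2 ?_⟩
  have h2 := Submodule.sub_mem _ hr (h.resd_DR4 hac)
  rw [Prod.mk_sub_mk, hcr, sub_self] at h2
  rw [map_add, ← sub_sub]
  exact (h.res_ker h2).2 rfl

theorem strict : ∀ x ∈ C.kF X T α β p b ⊓ G.Gam (C.kW X T α β q) b,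
    ∀ z ∈ G.Gam (C.kW X T α β q) (b - 1), x - C.kD X T α β z ∈ G.Gam (C.kW X T α β (q - 1)) b →
    ∃ z' ∈ C.kF X T α β p (b - 1) ⊓ G.Gam (C.kW X T α β q) (b - 1),
      x - C.kD X T α β z' ∈ G.Gam (C.kW X T α β (q - 1)) b := by
  intro x hx z hz h1
  rw [h.subD_DR4 hz] at h1
  have h2 := h.gd_DR4 h1
  rw [map_sub, kd_kd, sub_zero] at h2
  obtain ⟨z1, hzF, hz1, r, hrF, hr, -, -⟩ := h.one_DR4 hx.1 hx.2 h2
  obtain ⟨s, hs, hsr⟩ := h.two_DR4 (Submodule.sub_mem _ hz hz1) (h.congr_DR4 hr (by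
    rwa [map_sub, sub_sub_sub_cancel_right]))
  obtain ⟨c, hc, hcr⟩ := h.b_h1 p q b r hrF s hs hsr
  obtain ⟨a, ha, h3, h4⟩ := h.fin_DR4 hz1 hr hc hcr
  exact ⟨z1 + a, ⟨Submodule.add_mem _ hzF ha, h3⟩, h4⟩

theorem span : ∀ x ∈ G.Gam (C.kW X T α β q) b,
    C.kD X T α β x ∈ G.Gam (C.kW X T α β (q - 1)) (b + 1) →
    ∃ f ∈ C.kF X T α β p b ⊓ G.Gam (C.kW X T α β q) b, ∃ g ∈ G.Gam (C.kCj X T α β q) b,
      ∃ z ∈ G.Gam (C.kW X T α β q) (b - 1), g.1 ∈ C.kF X T α β (b + q - p + 1) b ∧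
      C.kD X T α β f ∈ G.Gam (C.kW X T α β (q - 1)) (b + 1) ∧
      C.kD X T α β g.1 ∈ G.Gam (C.kW X T α β (q - 1)) (b + 1) ∧
      x - f - g.2 - C.kD X T α β z ∈ G.Gam (C.kW X T α β (q - 1)) b := by
  intro x hx h1
  obtain ⟨z1, -, hz1, r, hrF, hr, hr0, -⟩ := h.one_DR4 (h.gam_le q b hx) hx (h.dD_DR4 hx h1)
  obtain ⟨u, hu, v, hv, c, hc, hu0, hv0, he⟩ := h.b_h2 p q b r hrF.1 hr0
  obtain ⟨f, hf, hfu⟩ := h.res_lift hu
  obtain ⟨g1, hg1, hgv⟩ := h.res_lift hv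
  obtain ⟨g2, -, hg2⟩ := h.res_lift (h.bF_top q b (h.bκ_mem q b v hv.1))
  have h2 := Submodule.sub_mem _ (Submodule.sub_mem _ hr hfu) hg2
  rw [Prod.mk_sub_mk, Prod.mk_sub_mk, he, sub_right_comm x, sub_right_comm (x - f)] at h2
  obtain ⟨a, -, h3, h4⟩ := h.fin_DR4 hz1 h2 (h.bF_top q (b - 1) hc) rfl
  exact ⟨f, ⟨hf, h.YW_DR4 (h.res_Y hfu)⟩, (g1, g2), (h.res_cj hgv).2 hg2, z1 + a, h3, hg1,
    h.closed_DR4 hfu hu0, h.closed_DR4 hgv hv0, h4⟩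

theorem conj : ∀ x ∈ C.kF X T α β p b ⊓ G.Gam (C.kW X T α β q) b,
    C.kD X T α β x ∈ G.Gam (C.kW X T α β (q - 1)) (b + 1) →
    ∃ g ∈ G.Gam (C.kCj X T α β q) b, ∃ z ∈ G.Gam (C.kW X T α β q) (b - 1),
      g.1 ∈ C.kF X T α β p b ∧ x - g.1 - C.kD X T α β z ∈ G.Gam (C.kW X T α β (q - 1)) b := by
  intro x hx h1
  obtain ⟨z1, -, hz1, r, hrF, hr, -, h2⟩ := h.one_DR4 hx.1 hx.2 (h.dD_DR4 hx.2 h1)
  obtain ⟨g2, -, hg2⟩ := h.res_lift (h.bF_top q b (h.bκ_mem q b r hrF.1))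
  refine ⟨(x - C.kd X T α β z1, g2), (h.res_cj hr).2 hg2, z1, hz1, h2, (h.subD_DR4 hz1).2 ?_⟩
  rw [sub_sub_cancel, sub_self]
  exact Submodule.zero_mem _

theorem disj : ∀ f ∈ C.kF X T α β p b ⊓ G.Gam (C.kW X T α β q) b,
    ∀ g ∈ G.Gam (C.kCj X T α β q) b, ∀ z ∈ G.Gam (C.kW X T α β q) (b - 1),
    g.1 ∈ C.kF X T α β (b + q - p + 1) b →
    C.kD X T α β f ∈ G.Gam (C.kW X T α β (q - 1)) (b + 1) →
    C.kD X T α β g.1 ∈ G.Gam (C.kW X T α β (q - 1)) (b + 1) →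
    f - g.2 - C.kD X T α β z ∈ G.Gam (C.kW X T α β (q - 1)) b →
    ∃ z' ∈ G.Gam (C.kW X T α β q) (b - 1),
      f - C.kD X T α β z' ∈ G.Gam (C.kW X T α β (q - 1)) b := by
  rintro f hf ⟨g1, g2⟩ hg z hz hgF h1 h2 h3
  rw [h.subD_DR4 hz] at h3
  obtain ⟨z1, -, hz1, r, hrF, hr, hr0, -⟩ := h.one_DR4 hf.1 hf.2 (h.dD_DR4 hf.2 h1)
  have hgY : g1 ∈ G.Gam (C.kY X T α β q) b :=
    (Submodule.mem_iInf _).2 fun x => h.Cj_Y ((Submodule.mem_iInf _).1 hg x)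
  obtain ⟨v, hv⟩ := h.res_ex hgF.1 hgY
  have hv0 := (h.res_ker (h.res_d hv)).1 (h.dD_DR4 (h.YW_DR4 hgY) h2)
  have h4 := Submodule.sub_mem _ hr ((h.res_cj hv).1 hg)
  rw [Prod.mk_sub_mk] at h4
  obtain ⟨s, hs, hsr⟩ := h.two_DR4 (Submodule.sub_mem _ hz hz1) (h.congr_DR4 h4 (by
    rwa [map_sub, sub_right_comm f, sub_sub_sub_cancel_right]))
  obtain ⟨c, hc, hcr⟩ := h.b_h3 p q b r hrF v (h.res_F hv hgF) s hs hr0 hv0 hsr.symm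
  obtain ⟨a, -, h5, h6⟩ := h.fin_DR4 hz1 hr (h.bF_top q (b - 1) hc) hcr
  exact ⟨z1 + a, h5, h6⟩

end Pool.Agent.PWD.Ctx.Tri
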