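import Pool.Agent.K.MP_65ad7c_ag.C4
import Pool.Agent.K.MP_65ad7c_ag.C5

open Set Filter Topology TopologicalSpace Pool.Agent.PW.S

noncomputable section
namespace Pool.Agent.PWD.TI

variable {Y : Type} [TopologicalSpace Y]

variable {d : ℕ} {U : ℕ → Opens Y} {I : Cx Y} {one : (I.X 0).obj (U 1)}

theorem dtr0_bd_res {A : Cx Y} {n : ℕ} {W W' : Opens Y} (h : W' ≤ W) {s : (A.X n).obj W}
    (hs : s ∈ A.Bd n W) : (A.X n).res h s ∈ A.Bd n W' := by
  cases n with
  | zero =>
    have : s = 0 := hs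
    rw [this, map_zero]; exact zero_mem _
  | succ n =>
    obtain ⟨b, rfl⟩ := hs
    exact ⟨(A.X n).res h b, ((A.d n).nat h b).symm⟩

theorem dtr0_push_bd (f : C(Y, Y)) (A : Cx Y) (n : ℕ) (V : Opens Y) :
    (A.push f).Bd n V = A.Bd n (pre f V) := by
  cases n <;> rfl

theorem dtr0_img_le (g : Y ≃ₜ Y) {W V : Opens Y} (h : W ≤ pre (g : C(Y, Y)) V) : img g W ≤ V := by
  intro x hx
  have := h (show g.symm x ∈ W from hx)
  simpa using this

theorem dtr0_mem_img (g : Y ≃ₜ Y) {W : Opens Y} {y : Y} (h : y ∈ W) : g y ∈ img g W := by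
  simpa [img] using h

theorem dtr0_pre_img (g : Y ≃ₜ Y) (O : Opens Y) : pre (g : C(Y, Y)) (img g O) = O :=
  le_antisymm (pre_img_le g O) fun _ hx => dtr0_mem_img g hx

theorem dtr0_gam_push (f : C(Y, Y)) (A : Cx Y) (O : Opens Y) :
    (A.push f).gam O = (A.gam (pre f O)).push f := rfl

theorem exAt_push (g : Y ≃ₜ Y) {A : Cx Y} {y : Y} {n : ℕ} (h : A.ExAt y n) :
    (A.push (g : C(Y, Y))).ExAt (g y) n := by
  intro V hV c hc
  obtain ⟨W, hW, hy, hb⟩ := h (pre (g : C(Y, Y)) V) hV c hc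
  refine ⟨img g W, dtr0_img_le g hW, dtr0_mem_img g hy, ?_⟩
  rw [dtr0_push_bd]
  have := dtr0_bd_res (pre_img_le g W) hb
  rw [PS.res_res] at this
  exact this

theorem exAt_gam_push (g : Y ≃ₜ Y) {A : Cx Y} {O : Opens Y} {y : Y} {n : ℕ}
    (h : (A.gam O).ExAt y n) : ((A.push (g : C(Y, Y))).gam (img g O)).ExAt (g y) n := by
  rw [dtr0_gam_push, dtr0_pre_img]
  exact exAt_push g h

theorem CAX.push (h : CAX U I one) (g : Y ≃ₜ Y) :
    CAX (fun c => img g (U c)) (I.push (g : C(Y, Y))) (onePush g one) := by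
  refine ⟨fun a b hab => pre_mono _ (h.mono hab), ?_, fun n => inj_push (h.inj n) g, ?_, ?_, ?_,
    ?_, ?_⟩
  · obtain ⟨m, hm⟩ := h.top
    exact ⟨m, by rw [hm]; rfl⟩
  · have := (I.d 0).nat (pre_img_le g (U 1)) one
    rw [h.closed, map_zero] at this
    exact this.symm
  · intro V hV h0
    have h1 : pre (g : C(Y, Y)) V ≠ ⊥ := by
      intro e
      apply h0
      rw [eq_bot_iff] at e ⊢
      intro x hx
      exact (e (show g.symm x ∈ pre (g : C(Y, Y)) V by simpa using hx)).elim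
    have := h.ne (pre (g : C(Y, Y)) V) ((pre_mono _ hV).trans (pre_img_le g (U 1))) h1
    rw [← (I.X 0).res_res (pre_img_le g (U 1)) (pre_mono _ hV)] at this
    exact this
  · intro x V hV hx c hc
    obtain ⟨W, hW, a, hy, hb⟩ := h.gen (g.symm x) (pre (g : C(Y, Y)) V)
      ((pre_mono _ hV).trans (pre_img_le g (U 1))) (by simpa using hx) c hc
    refine ⟨img g W, dtr0_img_le g hW, a, hy, ?_⟩
    have := congrArg ((I.X 0).res (pre_img_le g W)) hb
    rw [map_smul, PS.res_res, PS.res_res,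
      ← (I.X 0).res_res (pre_img_le g (U 1)) (pre_mono _ ((dtr0_img_le g hW).trans hV))] at this
    exact this
  · intro c x hx n h0 hn
    have := exAt_push g (h.supp c (g.symm x) hx n h0 hn)
    rwa [g.apply_symm_apply] at this
  · intro c h0 x hx n hn
    have := exAt_gam_push g (h.cosupp c h0 (g.symm x) hx n hn)
    rwa [g.apply_symm_apply] at this

/-- closed sections of degree zero are determined by their restriction to `U 1` -/
theorem CAX.eq_zero (h : CAX U I one) {W : Opens Y} {s : (I.X 0).obj W}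
    (hd : (I.d 0).app W s = 0) (h0 : (I.X 0).res (inf_le_left : W ⊓ U 1 ≤ W) s = 0) : s = 0 := by
  have key : ∀ c, (I.X 0).res (inf_le_left : W ⊓ U (c + 1) ≤ W) s = 0 := by
    intro c
    induction c with
    | zero => exact h0
    | succ c ih =>
      refine inj_sep (h.inj 0) _ fun x hx => ?_
      have h1 : (I.X 0).res (inf_le_left : W ⊓ U (c + 1 + 1) ⊓ U (c + 1) ≤ _)
          ((I.X 0).res (inf_le_left : W ⊓ U (c + 1 + 1) ≤ W) s) = 0 := by
        rw [PS.res_res, ← (I.X 0).res_res (inf_le_left : W ⊓ U (c + 1) ≤ W)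
          (inf_le_inf_right _ inf_le_left), ih, map_zero]
      have h2 : (I.d 0).app _ ((I.X 0).res (inf_le_left : W ⊓ U (c + 1 + 1) ≤ W) s) = 0 := by
        rw [← (I.d 0).nat, hd, map_zero]
      obtain ⟨W', hW', hx', hb⟩ := h.cosupp (c + 1) (Nat.succ_pos c) x hx.2 0 (Nat.zero_le _)
        (W ⊓ U (c + 1 + 1)) hx ⟨_, h1⟩ (Subtype.ext h2)
      have hb' : ((I.gam (U (c + 1))).X 0).res hW' ⟨_, h1⟩ = 0 := hb
      exact ⟨W', hW', hx', congrArg Subtype.val hb'⟩
  obtain ⟨m, hm⟩ := h.top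
  have hle : W ≤ W ⊓ U (m + 1) := le_inf le_rfl (le_top.trans (hm ▸ h.mono (Nat.le_succ m)))
  have := congrArg ((I.X 0).res hle) (key m)
  rwa [PS.res_res, PS.res_self, map_zero] at this

end Pool.Agent.PWD.TI
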