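import Pool.Agent.P.MP_65ad7c_ag.DB1

/-! Block BC: the cone of the map from forms on `X` to `K(T, α, β)`. -/

open Set Filter Topology
open scoped ContDiff

noncomputable section
namespace Pool.Agent.PWD

section fam
variable {V : Type} [NormedAddCommGroup V] [NormedSpace ℝ V] {κ : Type} {S : κ → Set V}

theorem bc_mul_mk {χ : V → ℂ} (hχ : ContDiff ℝ ∞ χ) {c : κ → GF V} (hc : SmK S c) :
    Fam.map (okM S hχ) (Fam.mk c hc) = Fam.mk (fun j => mulG χ (c j)) ((okM S hχ).sm c hc) := rfl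

theorem bc_mul_deg {χ : V → ℂ} (hχ : ContDiff ℝ ∞ χ) {s : κ → ℤ} {n : ℤ} {a : Fam S}
    (ha : a ∈ Fam.deg S s n) : Fam.map (okM S hχ) a ∈ Fam.deg S s n := by
  obtain ⟨c, hc, rfl, hh⟩ := Fam.deg_surj ha
  rw [bc_mul_mk hχ]
  exact Fam.mem_deg_of fun j => by rw [prjZ_mulG, hh]

theorem bc_bump [FiniteDimensional ℝ V] {K O : Set V} (hK : IsCompact K) (hO : IsOpen O)
    (hKO : K ⊆ O) : ∃ χ : V → ℂ, ContDiff ℝ ∞ χ ∧ tsupport χ ⊆ O ∧ ∀ x ∈ K, ∀ᶠ y in 𝓝 x, χ y = 1 := by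
  obtain ⟨χ, k1, -, k2, -, k3⟩ := Wein.exists_bump K O hK hO hKO
  exact ⟨fun y => (χ y : ℂ), Complex.ofRealCLM.contDiff.comp k1,
    (tsupport_comp_subset (g := fun r : ℝ => (r : ℂ)) rfl χ).trans k2, fun x hx =>
      (eventually_nhdsSet_iff_forall.1 k3 x hx).mono fun y hy => by
        show ((χ y : ℝ) : ℂ) = 1
        rw [hy, Complex.ofReal_one]⟩

end fam

variable {V : Type} [NormedAddCommGroup V] [NormedSpace ℝ V] {ι : Type} [LinearOrder ι]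

namespace Ctx
variable (C : Ctx V ι) (X : Set V) (T α β : Finset ι)

/-- the open part of `X` -/
def bX : Unit → Set V := fun _ => X \ Off C.D α

theorem okR : Ok (C.bX X α) (C.SK X T α β) fun c => Pi.single ∅ (c ()) where
  sm c h := SmK.single (by
    rw [SK, SJ_empty]; exact (h ()).anti (sdiff_subset_sdiff_left inter_subset_left))
  add c c' _ _ J := by
    show VanG _ ((Pi.single ∅ (c () + c' ()) - (Pi.single ∅ (c ()) + Pi.single ∅ (c' ())) :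
      Finset ι → GF V) J)
    rw [Pi.single_add, sub_self]; exact VanG.zero
  van c _ h J := by
    by_cases e : J = ∅
    · subst e
      show VanG _ ((Pi.single ∅ (c ()) : Finset ι → GF V) ∅)
      rw [Pi.single_eq_same, SK, SJ_empty]
      exact (h ()).anti (sdiff_subset_sdiff_left inter_subset_left)
    · show VanG _ ((Pi.single ∅ (c ()) : Finset ι → GF V) J)
      rw [Pi.single_eq_of_ne e]; exact VanG.zero

/-- forms that vanish near `M ∩ D β` -/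
def bP : Submodule ℤ (Fam (C.bX X α)) :=
  Fam.col _ fun _ f => ∀ x ∈ St X C.D T ∩ Off C.D β, C.NulN X α x f

/-- forms of degree `n` -/
def bG (n : ℤ) : Submodule ℤ (Fam (C.bX X α)) := Fam.deg _ (fun _ => 0) n

/-- forms of degree `n` that vanish near `x` -/
def bM (n : ℤ) (x : V) : Submodule ℤ (Fam (C.bX X α)) :=
  C.bG X α n ⊓ Fam.col _ fun _ => C.NulN X α x

variable {C X T α β}

theorem mem_bP {c : Unit → GF V} {hc : SmK (C.bX X α) c} : Fam.mk c hc ∈ C.bP X T α β ↔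
    ∀ x ∈ St X C.D T ∩ Off C.D β, C.NulN X α x (c ()) :=
  (Fam.mem_col fun _ => ⟨fun _ _ a b x hx => (a x hx).add (b x hx), fun _ a x hx => (a x hx).neg,
    fun _ a _ _ => NulN.of_van a⟩).trans ⟨fun a => a (), fun a _ => a⟩

theorem mem_bM {c : Unit → GF V} {hc : SmK (C.bX X α) c} {n : ℤ} {x : V} :
    Fam.mk c hc ∈ C.bM X α n x ↔ Fam.mk c hc ∈ C.bG X α n ∧ C.NulN X α x (c ()) :=
  and_congr_right fun _ => (Fam.mem_col (P := fun _ => C.NulN X α x) fun _ => cond_nul X x).trans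
      ⟨fun a => a (), fun a _ => a⟩

omit [LinearOrder ι] in
theorem bG_surj {n : ℤ} {a : Fam (C.bX X α)} (ha : a ∈ C.bG X α n) :
    ∃ c h, Fam.mk c h = a ∧ prjZ n (c ()) = c () := by
  obtain ⟨c, h, e, hh⟩ := Fam.deg_surj ha
  exact ⟨c, h, e, by simpa only [sub_zero] using hh ()⟩

omit [LinearOrder ι] in
theorem mem_bG_of {n : ℤ} {c : Unit → GF V} {hc : SmK (C.bX X α) c} (e : prjZ n (c ()) = c ()) :
    Fam.mk c hc ∈ C.bG X α n :=
  Fam.mem_deg_of fun _ => by simpa only [sub_zero] using e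

variable (C X T α β)

/-- minus the exterior derivative -/
def bd1 : Fam (C.bX X α) →ₗ[ℤ] Fam (C.bX X α) := Fam.map (okD _ fun _ => -1)

/-- restriction to column `∅` -/
def br0 : Fam (C.bX X α) →ₗ[ℤ] C.K X T α β := Fam.map (C.okR X T α β)

variable {C X T α β}

omit [LinearOrder ι] in
theorem bd1_mk {c : Unit → GF V} {hc : SmK (C.bX X α) c} : C.bd1 X α (Fam.mk c hc) =
    Fam.mk (fun j => (-1 : ℂ) • dG (c j)) ((okD _ fun _ => -1).sm c hc) := rfl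

theorem br0_mk {c : Unit → GF V} {hc : SmK (C.bX X α) c} : C.br0 X T α β (Fam.mk c hc) =
    Fam.mk (Pi.single ∅ (c ())) ((C.okR X T α β).sm c hc) := rfl

theorem bd1_P : ∀ a ∈ C.bP X T α β, C.bd1 X α a ∈ C.bP X T α β := fun a ha => by
  obtain ⟨c, hc, rfl⟩ := a.surj
  rw [bd1_mk]
  exact mem_bP.2 fun x hx => ((mem_bP.1 ha x hx).d (SmN.of_smS (hc ()))).smul _

theorem bmul_P {χ : V → ℂ} (hχ : ContDiff ℝ ∞ χ) :
    ∀ a ∈ C.bP X T α β, Fam.map (okM _ hχ) a ∈ C.bP X T α β := fun a ha => by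
  obtain ⟨c, hc, rfl⟩ := a.surj
  rw [bc_mul_mk hχ]
  exact mem_bP.2 fun x hx => (mem_bP.1 ha x hx).mul _

omit [LinearOrder ι] in
theorem bd1_G {n : ℤ} {a : Fam (C.bX X α)} (ha : a ∈ C.bG X α n) :
    C.bd1 X α a ∈ C.bG X α (n + 1) := by
  obtain ⟨c, hc, rfl, e⟩ := bG_surj ha
  rw [bd1_mk]
  exact mem_bG_of (by rw [prjZ_smul, prjZ_dG, e])

theorem br0_G {n : ℤ} {a : Fam (C.bX X α)} (ha : a ∈ C.bG X α n) :
    C.br0 X T α β a ∈ C.kDg X T α β n := by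
  obtain ⟨c, hc, rfl, e⟩ := bG_surj ha
  rw [br0_mk]
  refine Fam.mem_deg_of fun J => ?_
  by_cases hJ : J = ∅
  · subst hJ
    simpa only [Pi.single_eq_same, Finset.card_empty, Nat.cast_zero, sub_zero] using e
  · rw [Pi.single_eq_of_ne hJ, prjZ_zero]

theorem br0_M {n : ℤ} {x : V} {a : Fam (C.bX X α)} (ha : a ∈ C.bM X α n x) :
    C.br0 X T α β a ∈ C.bN X T α β n x := by
  have h1 := br0_G (T := T) (β := β) ha.1
  obtain ⟨c, hc, rfl⟩ := a.surj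
  rw [br0_mk] at h1 ⊢
  refine mem_bN.2 ⟨h1, fun J => ?_⟩
  by_cases hJ : J = ∅
  · subst hJ
    rw [Pi.single_eq_same]
    exact (mem_bM.1 ha).2.anti (SJ_X _) subset_rfl
  · rw [Pi.single_eq_of_ne hJ]; exact NulN.zero

theorem bd1_M {n : ℤ} {x : V} {a : Fam (C.bX X α)} (ha : a ∈ C.bM X α n x) :
    C.bd1 X α a ∈ C.bM X α (n + 1) x := by
  have h1 := bd1_G ha.1
  obtain ⟨c, hc, rfl⟩ := a.surj
  rw [bd1_mk] at h1 ⊢
  exact mem_bM.2 ⟨h1, ((mem_bM.1 ha).2.d (SmN.of_smS (hc ()))).smul _⟩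

theorem kD_N {n : ℤ} {x : V} {a : C.K X T α β} (ha : a ∈ C.bN X T α β n x) :
    C.kD X T α β a ∈ C.bN X T α β (n + 1) x := by
  have h1 := kD_mem n ha.1
  obtain ⟨c, hc, rfl⟩ := a.surj
  rw [bc_kD_mk] at h1 ⊢
  exact mem_bN.2 ⟨h1, fun J => (((mem_bN.1 ha).2 J).d (SmN.of_smS (hc J))).add
    (bc_cob_nul fun i _ => (mem_bN.1 ha).2 _)⟩

omit [LinearOrder ι] in
theorem bd1_bd1 (a : Fam (C.bX X α)) : C.bd1 X α (C.bd1 X α a) = 0 := by
  obtain ⟨c, hc, rfl⟩ := a.surj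
  rw [bd1_mk, bd1_mk]
  refine Fam.mk_eq_zero.2 fun j => ?_
  show VanG _ ((-1 : ℂ) • dG ((-1 : ℂ) • dG (c j)))
  rw [dG_smul]
  exact ((VanG.dd (hc j)).smul _).smul _

theorem SJ_off {J : Finset ι} {i : ι} (hi : i ∈ J) : C.SJ X T β J ⊆ St X C.D T ∩ Off C.D β := by
  intro y hy
  refine ⟨SJ_sub J hy, ?_⟩
  by_cases hJ : J ⊆ β
  · rw [SJ_of hJ] at hy
    exact mem_iUnion₂.2 ⟨i, hJ hi, mem_iInter₂.1 hy.2 i (Finset.mem_union_right _ hi)⟩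
  · rw [SJ_of_not hJ] at hy; exact hy.elim

theorem br0_chain {a : Fam (C.bX X α)} (ha : a ∈ C.bP X T α β) :
    C.br0 X T α β (C.bd1 X α a) + C.kD X T α β (C.br0 X T α β a) = 0 := by
  obtain ⟨c, hc, rfl⟩ := a.surj
  rw [bd1_mk, br0_mk, br0_mk, bc_kD_mk, Fam.mk_add]
  refine Fam.mk_eq_zero.2 fun J => ?_
  have h1 : VanG (C.SK X T α β J) (cobG (Pi.single ∅ (c ())) J) := by
    refine (VanG.sum _ fun i hi => VanG.smul _ ?_).eps
    by_cases e : J.erase i = ∅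
    · rw [e, Pi.single_eq_same]
      exact NulN.glob fun y hy => (mem_bP.1 ha y (SJ_off hi hy)).anti (SJ_X _) subset_rfl
    · rw [Pi.single_eq_of_ne e]; exact VanG.zero
  show VanG _ ((Pi.single ∅ ((-1 : ℂ) • dG (c ())) : Finset ι → GF V) J +
    (dG ((Pi.single ∅ (c ()) : Finset ι → GF V) J) + cobG (Pi.single ∅ (c ())) J))
  by_cases hJ : J = ∅
  · subst hJ
    rwa [Pi.single_eq_same, Pi.single_eq_same, negG, neg_add_cancel_left]
  · rwa [Pi.single_eq_of_ne hJ, Pi.single_eq_of_ne hJ, dG_zero, zero_add, zero_add]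

theorem bN_sep {a : C.K X T α β} {n : ℤ} (h : ∀ x ∈ St X C.D T, a ∈ C.bN X T α β n x) : a = 0 := by
  obtain ⟨c, hc, rfl⟩ := a.surj
  exact Fam.mk_eq_zero.2 fun J => NulN.glob fun y hy => (mem_bN.1 (h y (SJ_sub J hy))).2 J

variable (C X T α β)

/-- the cone -/
abbrev BA : Type := C.bP X T α β × C.K X T α β

/-- the differential of the cone -/
def bD : C.BA X T α β →ₗ[ℤ] C.BA X T α β :=
  (((C.bd1 X α).restrict bd1_P).comp (LinearMap.fst ℤ _ _)).prod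
    (((C.br0 X T α β).comp (C.bP X T α β).subtype).coprod (C.kD X T α β))

/-- degrees -/
def bDeg : G.Gr ℤ (C.BA X T α β) := fun n =>
  ((C.bG X α n).comap (C.bP X T α β).subtype).prod (C.kDg X T α β (n - 1))

/-- germs that vanish -/
def bNul : G.Sys ℤ V (C.BA X T α β) := fun n x =>
  ((C.bM X α n x).comap (C.bP X T α β).subtype).prod (C.bN X T α β (n - 1) x)

/-- cut-off operators -/
def bCut {χ : V → ℂ} (hχ : ContDiff ℝ ∞ χ) : C.BA X T α β →ₗ[ℤ] C.BA X T α β :=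
  ((Fam.map (okM _ hχ)).restrict (bmul_P hχ)).prodMap (Fam.map (okM _ hχ))

variable {C X T α β}

theorem bD_bD (a : C.BA X T α β) : C.bD X T α β (C.bD X T α β a) = 0 := by
  refine Prod.ext (Subtype.ext (bd1_bd1 a.1.1)) ?_
  show C.br0 X T α β (C.bd1 X α a.1.1) +
    C.kD X T α β (C.br0 X T α β a.1.1 + C.kD X T α β a.2) = 0
  rw [map_add, kD_kD, add_zero, br0_chain a.1.2]

theorem bD_deg {n : ℤ} {a : C.BA X T α β} (ha : a ∈ C.bDeg X T α β n) :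
    C.bD X T α β a ∈ C.bDeg X T α β (n + 1) := by
  refine ⟨bd1_G ha.1, ?_⟩
  show C.br0 X T α β a.1.1 + C.kD X T α β a.2 ∈ C.kDg X T α β (n + 1 - 1)
  rw [add_sub_cancel_right]
  exact add_mem (br0_G ha.1) (by simpa only [sub_add_cancel] using kD_mem (n - 1) ha.2)

theorem bD_nul {n : ℤ} {x : V} {a : C.BA X T α β} (ha : a ∈ C.bNul X T α β n x) :
    C.bD X T α β a ∈ C.bNul X T α β (n + 1) x := by
  refine ⟨bd1_M ha.1, ?_⟩
  show C.br0 X T α β a.1.1 + C.kD X T α β a.2 ∈ C.bN X T α β (n + 1 - 1) x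
  rw [add_sub_cancel_right]
  exact add_mem (br0_M ha.1) (by simpa only [sub_add_cancel] using kD_N ha.2)

theorem bDeg_neg (n : ℤ) (hn : n < 0) : C.bDeg X T α β n ≤ ⊥ := fun a ha => by
  refine Prod.ext (Subtype.ext ?_) (C.kDg_neg X T α β (n - 1) (by omega) ha.2)
  obtain ⟨c, hc, e, hh⟩ := bG_surj ha.1
  refine e.symm.trans (Fam.mk_eq_zero.2 fun _ => ?_)
  show VanG _ (c ())
  rw [← hh, prjZ_neg hn]; exact VanG.zero

theorem bNul_ev [Fintype ι] {n : ℤ} {x : V} {a : C.BA X T α β} (ha : a ∈ C.bNul X T α β n x) :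
    ∀ᶠ y in 𝓝 x, a ∈ C.bNul X T α β n y := by
  obtain ⟨⟨a, hP⟩, b⟩ := a
  obtain ⟨c, hc, rfl⟩ := a.surj
  obtain ⟨e, he, rfl⟩ := b.surj
  filter_upwards [(mem_bM.1 ha.1).2.ev, eventually_all.2 fun J => ((mem_bN.1 ha.2).2 J).ev]
    with y h1 h2
  exact ⟨mem_bM.2 ⟨ha.1.1, h1⟩, mem_bN.2 ⟨ha.2.1, h2⟩⟩

theorem bCut_deg {χ : V → ℂ} (hχ : ContDiff ℝ ∞ χ) {n : ℤ} {a : C.BA X T α β}
    (ha : a ∈ C.bDeg X T α β n) : C.bCut X T α β hχ a ∈ C.bDeg X T α β n :=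
  ⟨bc_mul_deg hχ ha.1, bc_mul_deg hχ ha.2⟩

theorem bCut_nul {χ : V → ℂ} (hχ : ContDiff ℝ ∞ χ) {n : ℤ} {x : V} {a : C.BA X T α β}
    (ha : a ∈ C.bNul X T α β n x) : C.bCut X T α β hχ a ∈ C.bNul X T α β n x := by
  have h1 := bCut_deg hχ (a := a) ⟨ha.1.1, ha.2.1⟩
  obtain ⟨⟨a, hP⟩, b⟩ := a
  obtain ⟨c, hc, rfl⟩ := a.surj
  obtain ⟨e, he, rfl⟩ := b.surj
  exact ⟨mem_bM.2 ⟨h1.1, (mem_bM.1 ha.1).2.mul _⟩,
    mem_bN.2 ⟨h1.2, fun J => ((mem_bN.1 ha.2).2 J).mul _⟩⟩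

theorem bCut_one {χ : V → ℂ} (hχ : ContDiff ℝ ∞ χ) {n : ℤ} {x : V} (hx : ∀ᶠ y in 𝓝 x, χ y = 1)
    {a : C.BA X T α β} (ha : a ∈ C.bDeg X T α β n) :
    a - C.bCut X T α β hχ a ∈ C.bNul X T α β n x := by
  have h1 := sub_mem ha (bCut_deg hχ ha)
  obtain ⟨⟨a, hP⟩, b⟩ := a
  obtain ⟨c, hc, rfl⟩ := a.surj
  obtain ⟨e, he, rfl⟩ := b.surj
  exact ⟨(mem_bM (hc := hc.sub ((okM _ hχ).sm c hc))).2 ⟨h1.1, NulN.mul_of_one hx _⟩,
    (mem_bN (hc := he.sub ((okM _ hχ).sm e he))).2 ⟨h1.2, fun J => NulN.mul_of_one hx _⟩⟩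

theorem bCut_zero {χ : V → ℂ} (hχ : ContDiff ℝ ∞ χ) {n : ℤ} {x : V} (hx : x ∉ tsupport χ)
    {a : C.BA X T α β} (ha : a ∈ C.bDeg X T α β n) :
    C.bCut X T α β hχ a ∈ C.bNul X T α β n x := by
  have h1 := bCut_deg hχ ha
  obtain ⟨⟨a, hP⟩, b⟩ := a
  obtain ⟨c, hc, rfl⟩ := a.surj
  obtain ⟨e, he, rfl⟩ := b.surj
  exact ⟨mem_bM.2 ⟨h1.1, NulN.mul_of_zero hx _⟩, mem_bN.2 ⟨h1.2, fun J => NulN.mul_of_zero hx _⟩⟩

end Ctx

end Pool.Agent.PWD
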