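import Pool.Agent.K.MP_65ad7c_ag.C62

/-! Block BC: germs of forms along a stratum compute `K(T, α, β)`. -/

open Set Filter Topology
open scoped ContDiff

noncomputable section
namespace Pool.Agent.PWD.Ctx

variable {V : Type} [NormedAddCommGroup V] [NormedSpace ℝ V] [FiniteDimensional ℝ V] {ι : Type}
  [LinearOrder ι] [Fintype ι] {C : Ctx V ι} {X : Set V} {T α β : Finset ι}

/-- the cone is locally acyclic along the stratum -/
theorem Glob.bc_la (h : C.Glob X) (hT : Disjoint T α) (hβ : Disjoint β α) {x : V}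
    (hx : x ∈ St X C.D T) (m : ℤ) (a : C.BA X T α β) (ha : a ∈ C.bDeg X T α β m)
    (hd : C.bD X T α β a ∈ C.bNul X T α β (m + 1) x) :
    ∃ b ∈ C.bDeg X T α β (m - 1), a - C.bD X T α β b ∈ C.bNul X T α β m x := by
  obtain ⟨⟨a, hP⟩, b⟩ := a
  obtain ⟨f, hf, rfl, ef⟩ := bG_surj ha.1
  have hb : b ∈ C.kDg X T α β (m - 1) := ha.2
  have d1 : C.bd1 X α (Fam.mk f hf) ∈ C.bM X α (m + 1) x := hd.1
  have d2 : C.br0 X T α β (Fam.mk f hf) + C.kD X T α β b ∈ C.bN X T α β (m + 1 - 1) x := hd.2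
  rw [add_sub_cancel_right] at d2
  by_cases hxβ : x ∈ Off C.D β
  · obtain ⟨j, hj, hxj⟩ := mem_iUnion₂.1 hxβ
    have f0 : Fam.mk f hf ∈ C.bM X α m x := mem_bM.2 ⟨ha.1, mem_bP.1 hP x ⟨hx, hxβ⟩⟩
    have d3 := sub_mem d2 (br0_M f0)
    rw [add_sub_cancel_left] at d3
    obtain ⟨e, he, he'⟩ := h.bc_loc hT hβ hj hxj hb (by rwa [sub_add_cancel])
    refine ⟨(0, e), ⟨zero_mem _, he⟩, ?_, ?_⟩
    · show Fam.mk f hf - C.bd1 X α 0 ∈ C.bM X α m x
      rwa [map_zero, sub_zero]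
    · show b - (C.br0 X T α β 0 + C.kD X T α β e) ∈ C.bN X T α β (m - 1) x
      rwa [map_zero, zero_add]
  · obtain ⟨c, hc, rfl, ec⟩ := Fam.deg_surj hb
    have ec0 : prjZ (m - 1) (c ∅) = c ∅ := by
      simpa only [Finset.card_empty, Nat.cast_zero, sub_zero] using ec ∅
    rw [bd1_mk] at d1
    rw [br0_mk, bc_kD_mk, Fam.mk_add] at d2
    have e1 : C.NulN X α x (dG (f ())) := ((mem_bM.1 d1).2.neg).bc_of (by rw [negG, neg_neg])
    have e2 : C.NulN (St X C.D T) α x (f () - dG ((-1 : ℂ) • c ∅)) := by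
      have := (mem_bN.1 d2).2 ∅
      rw [SJ_empty] at this
      refine this.bc_of ?_
      show _ = (Pi.single ∅ (f ()) : Finset ι → GF V) ∅ + (dG (c ∅) + cobG c ∅)
      rw [Pi.single_eq_same, cobG, Finset.sum_empty, eps_zero_DL2b, add_zero, dG_smul, negG,
        sub_neg_eq_add]
    have s1 : C.SmN (St X C.D T) α x ((-1 : ℂ) • c ∅) := by
      have := hc ∅
      rw [SK, SJ_empty] at this
      exact (SmN.of_smS this).smul _
    have ht := h.ht ∅ T α (Finset.empty_subset _) hT x hx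
    rw [St_empty] at ht
    obtain ⟨g, ⟨O, o1, o2, o3⟩, g2, g3⟩ := ht (f ()) _ (SmN.of_smS (hf ())) s1 e1 e2
    obtain ⟨χ, k1, k2, k3⟩ := bc_bump (isCompact_singleton (x := x))
      (o1.inter (h.clOff β).isOpen_compl) (singleton_subset_iff.2 ⟨o2, hxβ⟩)
    have u1 : SmS (X \ Off C.D α) (mulG χ g) := SmS.cut k1 o1 (k2.trans inter_subset_left)
      (o3.anti fun y hy => ⟨⟨hy.1.1, hy.2⟩, hy.1.2⟩)
    have u2 : C.NulN X α x (g - mulG χ g) := NulN.mul_of_one (k3 x rfl) g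
    have u3 : SmK (C.bX X α) fun _ => (-1 : ℂ) • prjZ (m - 1) (mulG χ g) :=
      fun _ => (u1.prjZ _).smul _
    have u4 : Fam.mk _ u3 ∈ C.bP X T α β := mem_bP.2 fun y hy =>
      ((NulN.mul_of_zero (fun a => (k2 a).2 hy.2) g).bc_prjZ _).smul _
    have u5 : ((⟨_, u4⟩, 0) : C.BA X T α β) ∈ C.bDeg X T α β (m - 1) :=
      ⟨mem_bG_of (by rw [prjZ_smul, prjZ_prjZ]), zero_mem _⟩
    have u6 := sub_mem ha (show _ ∈ C.bDeg X T α β m by simpa only [sub_add_cancel] using bD_deg u5)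
    refine ⟨_, u5, ?_, ?_⟩
    · refine (mem_bM (hc := hf.sub ((okD _ fun _ => -1).sm _ u3))).2 ⟨u6.1, ?_⟩
      have s2 : C.SmN X α x g := ⟨O, o1, o2, o3⟩
      have s3 : C.SmN X α x (mulG χ g) := SmN.of_smS u1
      have w1 : C.NulN X α x (f () - dG (mulG χ g)) :=
        (g2.add ((u2.d (s2.sub s3)).sub (NulN.d_sub s2 s3))).bc_of (by abel)
      refine (w1.bc_prjZ m).bc_of ?_
      show f () - (-1 : ℂ) • dG ((-1 : ℂ) • prjZ (m - 1) (mulG χ g)) = _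
      rw [dG_smul, negG, negG, neg_neg, ← prjZ_dG, sub_add_cancel, prjZ_sub, ef]
    · have u7 : Fam.mk c hc - (C.br0 X T α β (Fam.mk _ u3) + C.kD X T α β 0) ∈
          C.kDg X T α β (m - 1) := u6.2
      show Fam.mk c hc - (C.br0 X T α β (Fam.mk _ u3) + C.kD X T α β 0) ∈ C.bN X T α β (m - 1) x
      rw [map_zero, add_zero, br0_mk, Fam.mk_sub] at u7 ⊢
      refine mem_bN.2 ⟨u7, fun J => ?_⟩
      by_cases hJ : J = ∅
      · subst hJ
        rw [SJ_empty]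
        refine ((g3.add (u2.anti inter_subset_left subset_rfl)).neg.bc_prjZ (m - 1)).bc_of ?_
        show c ∅ - (Pi.single ∅ ((-1 : ℂ) • prjZ (m - 1) (mulG χ g)) : Finset ι → GF V) ∅ = _
        rw [Pi.single_eq_same, sub_add_sub_cancel, negG, negG, neg_sub, prjZ_sub, prjZ_neg', ec0]
        abel
      · obtain ⟨i, hi⟩ := Finset.nonempty_iff_ne_empty.2 hJ
        exact NulN.of_notMem (h.clSJ J) (fun a => hxβ (SJ_off hi a).2) _

/-- the cone is acyclic along the stratum -/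
theorem Glob.bc_ac (h : C.Glob X) (hT : Disjoint T α) (hβ : Disjoint β α) (m : ℤ)
    (a : C.BA X T α β) (ha : a ∈ C.bDeg X T α β m)
    (hd : ∀ x ∈ St X C.D T, C.bD X T α β a ∈ C.bNul X T α β (m + 1) x) :
    ∃ b ∈ C.bDeg X T α β (m - 1), ∀ x ∈ St X C.D T, a - C.bD X T α β b ∈ C.bNul X T α β m x := by
  have : CompactSpace (St X C.D T) := isCompact_iff_compactSpace.1 (h.cptSt T)
  have hc : G.CutS (C.bDeg X T α β) (fun n (x : St X C.D T) => C.bNul X T α β n x.1)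
      {m | ∃ (χ : V → ℂ) (hχ : ContDiff ℝ ∞ χ), m = C.bCut X T α β hχ} := by
    refine G.cutS_restrict ?_ ?_ fun y _ U hU => ?_
    · rintro _ ⟨χ, hχ, rfl⟩ n a ha
      exact bCut_deg hχ ha
    · rintro _ ⟨χ, hχ, rfl⟩ n x _ a ha
      exact bCut_nul hχ ha
    · obtain ⟨O, o1, o2, o3⟩ := mem_nhds_iff.1 hU
      obtain ⟨χ, k1, k2, k3⟩ := bc_bump (isCompact_singleton (x := y)) o2 (singleton_subset_iff.2 o3)
      exact ⟨_, ⟨χ, k1, rfl⟩, (k3 y rfl).eventually_nhds.mono fun z hz _ n a ha => bCut_one k1 hz ha,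
        tsupport χ, isClosed_tsupport χ, k2.trans o1, fun z _ hz n a ha => bCut_zero k1 hz ha⟩
  have := G.LA.global (S := fun n (x : St X C.D T) => C.bNul X T α β n x.1)
    (S' := fun n (_ : St X C.D T) => C.bDeg X T α β n) bD_bD bDeg_neg hc
    ⟨fun n x a ha => ⟨ha.1.1, ha.2.1⟩,
      G.opn_restrict fun n x _ a ha => (bNul_ev ha).mono fun _ hy _ => hy, fun n x a ha => bD_nul ha⟩
    ⟨fun n x => le_rfl, fun n x a ha => .of_forall fun _ => ha, fun n x a ha => bD_deg ha⟩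
    le_rfl (fun n x a ha => ⟨ha.1.1, ha.2.1⟩)
    (by rintro _ ⟨χ, hχ, rfl⟩ n x a ha; exact bCut_nul hχ ha)
    (by rintro _ ⟨χ, hχ, rfl⟩ n x a ha; exact bCut_deg hχ ha)
    (fun x => h.bc_la hT hβ x.2) m a ⟨ha, G.mem_Gam.2 fun _ => ha⟩
    ⟨bD_deg ha, G.mem_Gam.2 fun x => hd x.1 x.2⟩
  obtain ⟨b, hb, hb'⟩ := this
  exact ⟨b, hb.1, fun x hx => G.mem_Gam.1 hb'.2 ⟨x, hx⟩⟩

/-- every class comes from a form on `X` that is closed near `M` and zero near `M ∩ D β` -/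
theorem Glob.bc_surj (h : C.Glob X) (hT : Disjoint T α) (hβ : Disjoint β α) {m : ℕ}
    {a : C.K X T α β} (ha : a ∈ C.kDg X T α β m) (hd : C.kD X T α β a = 0) :
    ∃ (f : GF V) (hf : SmS (X \ Off C.D α) f), prj m f = f ∧
      (∀ x ∈ St X C.D T, C.NulN X α x (dG f)) ∧
      (∀ x ∈ St X C.D T ∩ Off C.D β, C.NulN X α x f) ∧
      ∃ b ∈ C.kDg X T α β (m - 1),
        a - C.k0 X T α β f (hf.anti (diff_subset_diff_left inter_subset_left)) =
          C.kD X T α β b := by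
  have h0 : C.bD X T α β (0, a) = 0 := by
    refine Prod.ext (Subtype.ext (map_zero (C.bd1 X α))) ?_
    show C.br0 X T α β 0 + C.kD X T α β a = 0
    rw [map_zero, hd, add_zero]
  obtain ⟨⟨⟨u, hP⟩, b⟩, hb, hb'⟩ := h.bc_ac hT hβ (m + 1) (0, a)
    ⟨zero_mem _, by rwa [add_sub_cancel_right]⟩ fun x _ => h0 ▸ zero_mem _
  rw [add_sub_cancel_right] at hb
  obtain ⟨f, hf, rfl, ef⟩ := bG_surj hb.1
  refine ⟨f (), hf (), by rwa [← prjZ_nat], fun x hx => ?_, mem_bP.1 hP, b, hb.2, ?_⟩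
  · have d1 : 0 - C.bd1 X α (Fam.mk f hf) ∈ C.bM X α (m + 1) x := (hb' x hx).1
    rw [zero_sub, neg_mem_iff, bd1_mk] at d1
    exact ((mem_bM.1 d1).2.neg).bc_of (by rw [negG, neg_neg])
  · have : a - (C.br0 X T α β (Fam.mk f hf) + C.kD X T α β b) = 0 :=
      bN_sep fun x hx => (hb' x hx).2
    rw [← sub_sub, sub_eq_zero] at this
    exact this

/-- such a form is exact near `M` if its class is zero -/
theorem Glob.bc_inj (h : C.Glob X) (hT : Disjoint T α) (hβ : Disjoint β α) {m : ℕ} {f : GF V}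
    (hf : ∀ x ∈ St X C.D T, C.SmN X α x f) (hm : prj m f = f)
    (hd : ∀ x ∈ St X C.D T, C.NulN X α x (dG f))
    (hv : ∀ x ∈ St X C.D T ∩ Off C.D β, C.NulN X α x f) (hf' : SmS (St X C.D T \ Off C.D α) f)
    {b : C.K X T α β} (hb : b ∈ C.kDg X T α β (m - 1))
    (he : C.k0 X T α β f hf' = C.kD X T α β b) :
    ∃ g : GF V, SmS (X \ Off C.D α) g ∧ (∀ x ∈ St X C.D T ∩ Off C.D β, C.NulN X α x g) ∧
      ∀ x ∈ St X C.D T, C.NulN X α x (f - dG g) := by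
  have hO : IsOpen {x | C.SmN X α x f} := isOpen_iff_mem_nhds.2 fun x hx => SmN.ev hx
  obtain ⟨χ, k1, k2, k3⟩ := bc_bump (h.cptSt T) hO hf
  have u1 : SmS (X \ Off C.D α) (mulG χ f) := SmS.cut k1 hO k2 (SmS.loc fun y hy => by
    obtain ⟨O, o1, o2, o3⟩ := hy.2
    exact ⟨O, o1, o2, o3.anti fun z hz => ⟨⟨hz.1.1.1, hz.2⟩, hz.1.1.2⟩⟩)
  have u2 : ∀ x ∈ St X C.D T, C.NulN X α x (f - mulG χ f) := fun x hx => NulN.mul_of_one (k3 x hx) f
  have u3 : SmK (C.bX X α) fun _ => mulG χ f := fun _ => u1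
  have u4 : Fam.mk _ u3 ∈ C.bP X T α β := mem_bP.2 fun y hy => (hv y hy).mul χ
  have u5 : ((⟨_, u4⟩, -b) : C.BA X T α β) ∈ C.bDeg X T α β m :=
    ⟨mem_bG_of (by rw [prjZ_mulG, prjZ_nat, hm]), neg_mem hb⟩
  have u6 : C.br0 X T α β (Fam.mk _ u3) = C.k0 X T α β f hf' := by
    refine (Fam.mk_eq.2 fun J => ?_).symm
    show VanG _ ((Pi.single ∅ f : Finset ι → GF V) J - (Pi.single ∅ (mulG χ f) : Finset ι → GF V) J)
    by_cases hJ : J = ∅
    · subst hJ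
      rw [Pi.single_eq_same, Pi.single_eq_same, SK, SJ_empty]
      exact NulN.glob fun x hx => (u2 x hx).anti inter_subset_left subset_rfl
    · rw [Pi.single_eq_of_ne hJ, Pi.single_eq_of_ne hJ, sub_zero]; exact VanG.zero
  obtain ⟨⟨⟨u, hP⟩, e⟩, hb, hb'⟩ := h.bc_ac hT hβ m _ u5 fun x hx => by
    refine ⟨(mem_bM (hc := (okD _ fun _ => -1).sm _ u3)).2 ⟨(bD_deg u5).1, NulN.smul _ ?_⟩, ?_⟩
    · have s3 : C.SmN X α x (mulG χ f) := SmN.of_smS u1
      exact ((hd x hx).sub (((u2 x hx).d ((hf x hx).sub s3)).sub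
        (NulN.d_sub (hf x hx) s3))).bc_of (by abel)
    · show C.br0 X T α β (Fam.mk _ u3) + C.kD X T α β (-b) ∈ C.bN X T α β (m + 1 - 1) x
      rw [u6, he, map_neg, add_neg_cancel]
      exact zero_mem _
  obtain ⟨g, hg, rfl⟩ := u.surj
  refine ⟨(-1 : ℂ) • g (), (hg ()).smul _, fun x hx => (mem_bP.1 hP x hx).smul _, fun x hx => ?_⟩
  have d1 := (mem_bM (hc := u3.sub ((okD _ fun _ => -1).sm _ hg))).1 (hb' x hx).1
  refine ((u2 x hx).add d1.2).bc_of ?_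
  show _ = f - mulG χ f + (mulG χ f - (-1 : ℂ) • dG (g ()))
  rw [dG_smul, sub_add_sub_cancel]

end Pool.Agent.PWD.Ctx
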