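import Pool.Agent.K.MP_65ad7c_ag.C6

open Set Filter Topology TopologicalSpace Pool.Agent.PW.S

set_option backward.isDefEq.respectTransparency false

noncomputable section
namespace Pool.Agent.PWD.TI

variable {Y : Type} [TopologicalSpace Y]

variable {d : ℕ} {U : ℕ → Opens Y} {I : Cx Y} {one : (I.X 0).obj (U 1)}

theorem dtr1_pre (g : Y ≃ₜ Y) (W : Opens Y) : ∃ V, W = pre (g : C(Y, Y)) V :=
  ⟨img g W, Opens.ext (Set.ext fun x => by simp [img, pre])⟩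

theorem dtr1_sub_congr {A : Cx Y} {S S' : ∀ n V, Submodule ℂ ((A.X n).obj V)} (h : S = S')
    (a b a' b') : A.sub S a b = A.sub S' a' b' := by
  subst h; rfl

theorem dtr1_ker (F : PS Y) {V W W' : Opens Y} (h : W ≤ V) (h' : W' ≤ V) (e : W = W') :
    LinearMap.ker (F.res h) = LinearMap.ker (F.res h') := by
  subst e; rfl

theorem dtr1_gam (g : Y ≃ₜ Y) (A : Cx Y) (O : Opens Y) :
    (A.push (g : C(Y, Y))).gam (img g O) = (A.gam O).push (g : C(Y, Y)) := by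
  have h : (fun n V => LinearMap.ker (((A.push (g : C(Y, Y))).X n).res
      (inf_le_left : V ⊓ img g O ≤ V))) = fun n V => LinearMap.ker ((A.X n).res
        (inf_le_left : pre (g : C(Y, Y)) V ⊓ O ≤ pre (g : C(Y, Y)) V)) := by
    funext n V
    have h1 : pre (g : C(Y, Y)) (V ⊓ img g O) ≤ pre (g : C(Y, Y)) V ⊓ O :=
      fun x hx => ⟨hx.1, pre_img_le g O hx.2⟩
    have h2 : pre (g : C(Y, Y)) V ⊓ O ≤ pre (g : C(Y, Y)) (V ⊓ img g O) :=
      fun x hx => ⟨hx.1, by simpa [img] using hx.2⟩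
    exact dtr1_ker (A.X n) (pre_mono _ inf_le_left) inf_le_left (le_antisymm h1 h2)
  refine (dtr1_sub_congr (A := A.push (g : C(Y, Y))) h _ _ ?_ ?_).trans rfl
  · intro n V W hW s hs
    exact (((A.gam O).X n).res (pre_mono _ hW) ⟨s, hs⟩).2
  · intro n V s hs
    exact (((A.gam O).d n).app _ ⟨s, hs⟩).2

theorem dtr1_locBd (g : Y ≃ₜ Y) {A : Cx Y} {y : Y} {n : ℕ} {V : Opens Y}
    (s : (A.X n).obj (pre (g : C(Y, Y)) V)) :
    (A.push (g : C(Y, Y))).LocBd (g y) (V := V) s ↔ A.LocBd y s := by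
  constructor
  · rintro ⟨W, h, hy, hs⟩
    refine ⟨pre (g : C(Y, Y)) W, pre_mono _ h, hy, ?_⟩
    cases n <;> exact hs
  · rintro ⟨W, h, hy, hs⟩
    obtain ⟨W, rfl⟩ := dtr1_pre g W
    refine ⟨W, fun x hx => ?_, hy, ?_⟩
    · obtain ⟨x, rfl⟩ := g.surjective x
      exact h hx
    · cases n <;> exact hs

theorem dtr1_push (g : Y ≃ₜ Y) {A : Cx Y} {S : Set Y} {n : ℕ} (h : LCon A S n) :
    LCon (A.push (g : C(Y, Y))) (g '' S) n := by
  rintro _ ⟨x, hx, rfl⟩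
  obtain ⟨W, B, hW, h1, h2⟩ := h x hx
  obtain ⟨W, rfl⟩ := dtr1_pre g W
  refine ⟨W, B, hW, h1, ?_⟩
  rintro _ ⟨y, hy, rfl⟩ hyW
  obtain ⟨h3, h4⟩ := h2 y hy hyW
  refine ⟨fun b hb hl => h3 b hb ((dtr1_locBd g b).1 hl), fun W' hW' s hy' hs => ?_⟩
  obtain ⟨b, hb, hl⟩ := h4 (pre (g : C(Y, Y)) W') (pre_mono _ hW') s hy' hs
  exact ⟨b, hb, (dtr1_locBd g _).2 hl⟩

theorem LCon.push (g : Y ≃ₜ Y) {A : Cx Y} {O : Opens Y} {S : Set Y} {n : ℕ}
    (h : LCon (A.gam O) S n) : LCon ((A.push (g : C(Y, Y))).gam (img g O)) (g '' S) n := by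
  rw [dtr1_gam]
  exact dtr1_push g h

theorem SX.push (h : SX d U I one) (g : Y ≃ₜ Y) :
    SX d (fun c => img g (U c)) (I.push (g : C(Y, Y))) (onePush g one) := by
  refine ⟨h.toCAX.push g, ?_, ?_, fun c x hx => ?_, fun c n => ?_⟩
  · show img g (U 0) = ⊥
    rw [h.zero]; rfl
  · show img g (U (d + 1)) = ⊤
    rw [h.top']; rfl
  · obtain ⟨W, φ, hW, hφ⟩ := h.chart c (g.symm x) hx
    let e : ↥(((img g W : Opens Y) : Set Y) ∩ (img g (U (c + 1)) \ img g (U c))) ≃ₜ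
        ↥((W : Set Y) ∩ (U (c + 1) \ U c)) := g.symm.sets rfl
    exact ⟨img g W, φ ∘ e, hW, hφ.comp e.isOpenEmbedding⟩
  · have h1 := (h.lc c n).push g
    rw [g.image_eq_preimage_symm] at h1
    exact h1

end Pool.Agent.PWD.TI
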