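import Pool.Agent.K.MP_65ad7c_ag.C65

/-! The Hodge theoretic argument. -/

open Set Filter Topology
open scoped ContDiff

noncomputable section
namespace Pool.Agent.PWD.Ctx

variable {V : Type} [NormedAddCommGroup V] [NormedSpace ℝ V] [FiniteDimensional ℝ V] {ι : Type}
  [LinearOrder ι] [Fintype ι] {C : Ctx V ι} {X : Set V} {T T' α α' β β' : Finset ι}

/-- the natural maps are morphisms of mixed Hodge structures -/
theorem Tri.hom (h : C.Tri X T α β) (h' : C.Tri X T' α' β') (hT : T ⊆ T') (hα : α ⊆ α')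
    (hβ : β' ⊆ β) (n : ℤ) :
    (∀ j, (h.kh.Wc n j).map (C.kmap X hT hα hβ) ≤ h'.kh.Wc n j) ∧
    (∀ p, (h.kh.Fc n p).map (C.kmap X hT hα hβ) ≤ h'.kh.Fc n p) ∧
    ∀ p, (h.kh.Fbc n p).map (C.kmap X hT hα hβ) ≤ h'.kh.Fbc n p := by
  refine (G.KH.hom h.kh h'.kh (C.kmap X hT hα hβ) (kmap_D hT hα hβ) (kmap_κ hT hα hβ)
    (kmap_deg hT hα hβ) (fun q m a ha => G.mem_Gam.2 fun x => ?_) (fun p m a ha => ?_) n).2.2
  · have h1 : a ∈ C.kW X T α β q m x := G.mem_Gam.1 ha x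
    have h0 := kmap_deg hT hα hβ m a h1.1
    obtain ⟨c, hc, rfl⟩ := a.surj
    exact h'.g.mem_kW.2 ⟨h0, fun J => ((h.g.mem_kW.1 h1).2 J).anti (C.SJ_anti X hT hβ J) hα⟩
  · have h1 : a ∈ C.kF X T α β p m := ha.1
    have h0 := kmap_deg hT hα hβ m a h1.1
    obtain ⟨c, hc, rfl⟩ := a.surj
    exact h'.mem_kF.2 ⟨h0, fun J => VanG.anti ((h.mem_kF.1 h1).2 J) (C.SK_anti X hT hα hβ J)⟩

theorem Glob.odd (h : C.Glob X) (hT : Disjoint T (α ∪ β)) (hβ : Disjoint β α) {i : ι}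
    (hi : i ∉ α ∪ β) {ρ : C.K X T α β →ₗ[ℤ] C.K X T α β} (hρ : Endo ρ) (n : ℤ)
    (hσ : ∀ x ∈ C.kP X T α β n, x - ρ (C.kκ X T α β x) ∈ C.kN X T α β i n) (j : ℤ) :
    C.kP X T α β n ⊓ C.kWc X T α β n (2 * j + 1) ≤ C.kN X T α β i n ⊔ C.kWc X T α β n (2 * j) := by
  classical
  have : CompactSpace X := isCompact_iff_compactSpace.1 h.cpt
  have hT' : Disjoint T α := hT.mono_right Finset.subset_union_left
  have K0 : C.Tri X T α β := ⟨h, hT', hβ⟩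
  have K1 : C.Tri X T α (insert i β) :=
    ⟨h, hT', Finset.disjoint_insert_left.2 ⟨fun e => hi (Finset.mem_union_left _ e), hβ⟩⟩
  have K2 : C.Tri X T (α ∪ β) {i} := ⟨h, hT, Finset.disjoint_singleton_left.2 hi⟩
  have K3 : C.Tri X T (α ∪ β) ∅ := ⟨h, hT, Finset.disjoint_empty_left _⟩
  have K4 : C.Tri X ∅ (α ∪ β) ∅ := ⟨h, Finset.disjoint_empty_left _, Finset.disjoint_empty_left _⟩
  have a12 := K1.hom K2 subset_rfl Finset.subset_union_left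
    (Finset.singleton_subset_iff.2 (Finset.mem_insert_self i β)) n
  have a10 := K1.hom K0 subset_rfl subset_rfl (Finset.subset_insert i β) n
  have a43 := K4.hom K3 (Finset.empty_subset T) subset_rfl subset_rfl n
  have a03 := K0.hom K3 subset_rfl Finset.subset_union_left (Finset.empty_subset β) n
  have hN := Good.map (Good.comap (K2.kh.mhs n).good_B (K1.kh.mhs n) _ a12.1 a12.2.1 a12.2.2)
    inf_le_right (K1.kh.mhs n) (K0.kh.mhs n) _ a10.1 a10.2.1 a10.2.2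
  have hP := Good.comap (Good.map (K4.kh.mhs n).good_Z le_rfl (K4.kh.mhs n) (K3.kh.mhs n) _
    a43.1 a43.2.1 a43.2.2) (K0.kh.mhs n) _ a03.1 a03.2.1 a03.2.2
  have hr := (G.KH.hom K0.kh K0.kh ρ hρ.D hρ.κ hρ.deg hρ.W (fun p m a ha => hρ.F p m a ha.1) n).2.2
  exact G.KH.odd K0.kh n hN hP kB_kN ρ hr.1 hr.2.1 hr.2.2 hσ j

end Pool.Agent.PWD.Ctx
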