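import Mathlib

/-! Abstract algebra of creation, annihilation, multiplication and differentiation operators. -/

open Filter Topology

noncomputable section
namespace Pool.Agent.PWD.Loc

section cp
variable {α R : Type} [Ring R]

/-- product of commuting elements over a finite set -/
def cp (J : Finset α) (f : α → R) : R := (J.toList.map f).prod

@[simp] theorem cp_empty (f : α → R) : cp ∅ f = 1 := by simp [cp]

theorem cp_insert [DecidableEq α] {f : α → R} (h : ∀ i j, Commute (f i) (f j)) {k : α}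
    {J : Finset α} (hk : k ∉ J) : cp (insert k J) f = f k * cp J f := by
  have hp := (Finset.toList_insert hk).map f
  rw [cp, hp.prod_eq' (List.pairwise_map.2 (List.pairwise_of_forall h))]
  simp [cp]

theorem cp_erase [DecidableEq α] {f : α → R} (h : ∀ i j, Commute (f i) (f j)) {k : α}
    {J : Finset α} (hk : k ∈ J) : cp J f = f k * cp (J.erase k) f := by
  rw [← cp_insert h (Finset.notMem_erase k J), Finset.insert_erase hk]

theorem cp_single (f : α → R) (k : α) : cp {k} f = f k := by simp [cp]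

theorem cp_mem {S : Type} [SetLike S R] [SubmonoidClass S R] {A : S} {J : Finset α} {f : α → R}
    (h : ∀ i ∈ J, f i ∈ A) : cp J f ∈ A :=
  list_prod_mem fun y hy => by
    obtain ⟨i, hi, rfl⟩ := List.mem_map.1 hy
    exact h i (Finset.mem_toList.1 hi)

theorem commute_cp {T : R} {J : Finset α} {f : α → R} (h : ∀ i ∈ J, Commute T (f i)) :
    Commute T (cp J f) :=
  Commute.list_prod_right _ _ fun y hy => by
    obtain ⟨i, hi, rfl⟩ := List.mem_map.1 hy
    exact h i (Finset.mem_toList.1 hi)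

theorem cp_union [DecidableEq α] {f : α → R} (h : ∀ i j, Commute (f i) (f j)) {J J' : Finset α}
    (hd : Disjoint J J') : cp (J ∪ J') f = cp J f * cp J' f := by
  induction J using Finset.induction_on with
  | empty => simp
  | insert k J hk ih =>
    rw [Finset.disjoint_insert_left] at hd
    rw [Finset.insert_union, cp_insert h (by simp [hk, hd.1]), cp_insert h hk, ih hd.2, mul_assoc]

theorem cp_map {R' : Type} [Ring R'] {Φ : Type} [FunLike Φ R R'] [MonoidHomClass Φ R R'] (φ : Φ)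
    (J : Finset α) (f : α → R) : φ (cp J f) = cp J fun i => φ (f i) := by
  simp [cp, map_list_prod, Function.comp_def]

end cp

/-- endomorphisms that preserve a submodule -/
def Stb {M : Type} [AddCommGroup M] [Module ℂ M] (N : Submodule ℂ M) :
    Subalgebra ℂ (Module.End ℂ M) where
  carrier := {T | ∀ v ∈ N, T v ∈ N}
  mul_mem' ha hb v hv := ha _ (hb v hv)
  add_mem' ha hb v hv := N.add_mem (ha v hv) (hb v hv)
  algebraMap_mem' c v hv := N.smul_mem c hv

theorem mem_Stb {M : Type} [AddCommGroup M] [Module ℂ M] {N : Submodule ℂ M}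
    {T : Module.End ℂ M} : T ∈ Stb N ↔ ∀ v ∈ N, T v ∈ N := Iff.rfl

/-- The canonical anticommutation relations. The index `(k, false)` stands for `dz_k`, the index
`(k, true)` for its conjugate. -/
structure CAR (K R : Type) [DecidableEq K] [Ring R] where
  a : K × Bool → R
  b : K × Bool → R
  car : ∀ i j, b i * a j + a j * b i = if i = j then 1 else 0
  aa : ∀ i j, a i * a j + a j * a i = 0
  bb : ∀ i j, b i * b j + b j * b i = 0

/-- Coordinates `x`, derivatives `D` and evaluations `ev k` on the hyperplane `x_k = 0`. -/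
structure Site (K R : Type) [DecidableEq K] [Ring R] extends CAR K R where
  x : K × Bool → R
  D : K × Bool → R
  ev : K → R
  xa : ∀ i j, Commute (x i) (a j)
  xb : ∀ i j, Commute (x i) (b j)
  Da : ∀ i j, Commute (D i) (a j)
  Db : ∀ i j, Commute (D i) (b j)
  eva : ∀ k j, Commute (ev k) (a j)
  evb : ∀ k j, Commute (ev k) (b j)
  xx : ∀ i j, Commute (x i) (x j)
  DD : ∀ i j, Commute (D i) (D j)
  Dx : ∀ i j, D i * x j - x j * D i = if i = j then 1 else 0
  evx : ∀ k i, i.1 ≠ k → Commute (ev k) (x i)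
  evD : ∀ k i, i.1 ≠ k → Commute (ev k) (D i)
  evev : ∀ k l, Commute (ev k) (ev l)

variable {K R : Type} [DecidableEq K] [Ring R]

namespace CAR
variable (s : CAR K R)

/-- occupation number -/
def n (i : K × Bool) : R := s.a i * s.b i

/-- the word `dz_{k_1} ... dz_{k_r}` -/
def aL (L : List K) : R := (L.map fun k => s.a (k, false)).prod

/-- holomorphic degree -/
def Nh [Fintype K] : R := ∑ k, s.n (k, false)

end CAR

/-- the holomorphic indices over `al` -/
def pf (al : Finset K) : Finset (K × Bool) := al ×ˢ {false}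

/-- all indices over `al` -/
def pb (al : Finset K) : Finset (K × Bool) := al ×ˢ Finset.univ

omit [DecidableEq K] in
@[simp] theorem mem_pf {al : Finset K} {i : K × Bool} : i ∈ pf al ↔ i.1 ∈ al ∧ i.2 = false := by
  rw [pf, Finset.mem_product, Finset.mem_singleton]

omit [DecidableEq K] in
@[simp] theorem mem_pb {al : Finset K} {i : K × Bool} : i ∈ pb al ↔ i.1 ∈ al := by simp [pb]

namespace Site
variable [Algebra ℂ R] (s : Site K R)

/-- the vector fields of the logarithmic frame with poles at the indices `po` -/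
def X (po : Finset (K × Bool)) (i : K × Bool) : R := if i ∈ po then s.x i * s.D i else s.D i

/-- the exterior derivative in the logarithmic frame -/
def δ [Fintype K] (po : Finset (K × Bool)) : R := ∑ i, s.a i * s.X po i

/-- the part of the exterior derivative away from the site `k` -/
def δo [Fintype K] (po : Finset (K × Bool)) (k : K) : R :=
  ∑ i ∈ Finset.univ.filter (fun i : K × Bool => i.1 ≠ k), s.a i * s.X po i

/-- change of frame -/
def Z (i : K × Bool) : R := 1 + (s.x i - 1) * s.n i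

/-- the Euler field -/
def Eu (k : K) : R := s.x (k, false) * s.D (k, false) + s.x (k, true) * s.D (k, true)

/-- the rotation field -/
def Th (k : K) : R := Complex.I • (s.x (k, false) * s.D (k, false) - s.x (k, true) * s.D (k, true))

/-- limit of the scalings at a pole -/
def Q (k : K) : R := s.ev k * (1 - s.n (k, true))

/-- pull-back to the hyperplane -/
def P (k : K) : R := s.ev k * (1 - s.n (k, true)) * (1 - s.n (k, false))

/-- residue -/
def Rs (k : K) : R := s.ev k * (1 - s.n (k, true)) * s.n (k, false)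

/-- value of the polar coefficient on the hyperplane -/
def Ee (k : K) : R := s.ev k * s.n (k, false)

def ZZ (J : Finset K) : R := cp J fun k => s.Z (k, false)
def PP (J : Finset K) : R := cp J s.P
def RR (J : Finset K) : R := cp J s.Rs

/-- generators at the site `k` -/
def gen (k : K) : Set R :=
  {T | (∃ t, T = s.a (k, t) ∨ T = s.b (k, t) ∨ T = s.x (k, t) ∨ T = s.D (k, t)) ∨ T = s.ev k}

/-- operators built from the generators at the site `k` -/
def In (k : K) : Subalgebra ℂ R := Algebra.adjoin ℂ (s.gen k)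

/-- operators that commute with the generators at all other sites -/
def Out (k : K) : Subalgebra ℂ R := Subalgebra.centralizer ℂ {T | ∃ l, l ≠ k ∧ T ∈ s.gen l}

/-- operators on functions in the variable `k` -/
def FOut (k : K) : Subalgebra ℂ R :=
  s.Out k ⊓ Subalgebra.centralizer ℂ (Set.range s.a ∪ Set.range s.b)

/-- A site at which the domain can be scaled. -/
structure Fr (k : K) where
  I0 : R
  I1 : R
  ev_x : ∀ t, s.ev k * s.x (k, t) = 0
  D_ev : ∀ t, s.D (k, t) * s.ev k = 0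
  l0 : I0 * (s.Eu k + 1) = 1
  r0 : (s.Eu k + 1) * I0 = 1
  l1 : I1 * (s.Eu k + 2) = 1
  r1 : (s.Eu k + 2) * I1 = 1
  had : 1 - s.ev k =
    s.x (k, false) * I0 * s.D (k, false) + s.x (k, true) * I0 * s.D (k, true)

/-- A site at which the hyperplane is removed. -/
structure Po (k : K) where
  T : R
  Av : R
  S : R
  C : R
  lT : T * s.Th k = 1 - Av
  rT : s.Th k * T = 1 - Av
  Av_Th : Av * s.Th k = 0
  lS : S * s.Eu k = 1 - C
  rS : s.Eu k * S = 1
  C_out : C ∈ s.FOut k
  C_Th : Commute C (s.Th k)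

end Site

/-- A system of words: lists without repetition in `al`, determined by their sets of letters. -/
structure Words {τ : Type} (al : Finset K) (σ : Finset τ) (wd : τ → List K) : Prop where
  nodup : ∀ t ∈ σ, (wd t).Nodup
  sub : ∀ t ∈ σ, (wd t).toFinset ⊆ al
  inj : ∀ t ∈ σ, ∀ t' ∈ σ, (wd t).toFinset = (wd t').toFinset → t = t'

variable {M : Type} [AddCommGroup M] [Module ℂ M]

/-- `C` is stable under the solvers `S ρ` for small `ρ` -/
def Stab (S : ℝ → Module.End ℂ M) (C C' : Submodule ℂ M) : Prop :=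
  ∀ f ∈ C, ∀ᶠ ρ in 𝓝[>] (0 : ℝ), S ρ f ∈ C'

/-- A module with a vacuum vector and a submodule of negligible elements. -/
structure Vac (K M : Type) [DecidableEq K] [AddCommGroup M] [Module ℂ M] extends
    Site K (Module.End ℂ M) where
  N : Submodule ℂ M
  vac : M
  N_a : ∀ i, a i ∈ Stb N
  N_b : ∀ i, b i ∈ Stb N
  N_x : ∀ i, x i ∈ Stb N
  N_D : ∀ i, D i ∈ Stb N
  N_ev : ∀ k, ev k ∈ Stb N
  vac_D : ∀ i, D i vac = 0
  vac_b : ∀ i, b i vac = 0
  vac_N : ∀ c : ℂ, c • vac ∈ N → c = 0
  ker : ∀ u, (∀ i, D i u = 0) → (∀ i, b i u = 0) → ∃ c : ℂ, u = c • vac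

/-- The model of the punctured polydisc. -/
structure PPM (K M : Type) [DecidableEq K] [AddCommGroup M] [Module ℂ M] extends Vac K M where
  al : Finset K
  fr : ∀ k ∉ al, toSite.Fr k
  po : ∀ k ∈ al, toSite.Po k
  N_I0 : ∀ k h, (fr k h).I0 ∈ Stb N
  N_I1 : ∀ k h, (fr k h).I1 ∈ Stb N
  N_T : ∀ k h, (po k h).T ∈ Stb N
  N_S : ∀ k h, (po k h).S ∈ Stb N
  x_inj : ∀ i u, x i u = 0 → u = 0

/-- The model of the logarithmic complex. -/
structure LogM (K M : Type) [DecidableEq K] [AddCommGroup M] [Module ℂ M] extends Vac K M where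
  fr : ∀ k, toSite.Fr k
  S : K → ℝ → Module.End ℂ M
  Fl : ℕ → Submodule ℂ M
  N_I0 : ∀ k, (fr k).I0 ∈ Stb N
  N_I1 : ∀ k, (fr k).I1 ∈ Stb N
  N_inj : ∀ i u, x i u ∈ N → u ∈ N
  S_out : ∀ k ρ, S k ρ ∈ toSite.FOut k
  S_D : ∀ k f, ∀ᶠ ρ in 𝓝[>] (0 : ℝ), D (k, true) (S k ρ f) - f ∈ N
  S_N : ∀ k, Stab (S k) N N
  Fl_N : ∀ p, N ≤ Fl p
  Fl_zero : Fl 0 = ⊤
  Fl_anti : ∀ p, Fl (p + 1) ≤ Fl p
  Fl_a : ∀ p k, ∀ u ∈ Fl p, a (k, false) u ∈ Fl (p + 1)
  Fl_b : ∀ p k, ∀ u ∈ Fl (p + 1), b (k, false) u ∈ Fl p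
  Fl_a' : ∀ p k, a (k, true) ∈ Stb (Fl p)
  Fl_b' : ∀ p k, b (k, true) ∈ Stb (Fl p)
  Fl_x : ∀ p i, x i ∈ Stb (Fl p)
  Fl_D : ∀ p i, D i ∈ Stb (Fl p)
  Fl_ev : ∀ p k, ev k ∈ Stb (Fl p)
  Fl_inj : ∀ p i u, x i u ∈ Fl p → u ∈ Fl p
  Fl_S : ∀ p k, Stab (S k) (Fl p) (Fl p)

namespace Vac
variable (s : Vac K M)

/-- the constant logarithmic forms -/
def Cst (al : Finset K) : Submodule ℂ M :=
  Submodule.span ℂ {u | ∃ L : List K, L.Nodup ∧ L.toFinset ⊆ al ∧ u = s.aL L s.vac}

/-- all `w`-fold residues vanish -/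
def W (al : Finset K) (w : ℕ) : Submodule ℂ M :=
  ⨅ (J : Finset K) (_ : J ⊆ al) (_ : J.card = w), s.N.comap (s.RR J)

/-- no poles along `J` -/
def Sm (J : Finset K) : Submodule ℂ M := LinearMap.range (s.ZZ J) ⊔ s.N

/-- smooth top residues -/
def Y (al : Finset K) (q : ℕ) : Submodule ℂ M :=
  s.W al (q + 1) ⊓ ⨅ (J : Finset K) (_ : J ⊆ al) (_ : J.card = q), (s.Sm (al \ J)).comap (s.RR J)

theorem mem_W {al : Finset K} {w : ℕ} {f : M} :
    f ∈ s.W al w ↔ ∀ J ⊆ al, J.card = w → s.RR J f ∈ s.N := by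
  simp [W, Submodule.mem_iInf]

theorem mem_Sm {J : Finset K} {f : M} : f ∈ s.Sm J ↔ ∃ g, f - s.ZZ J g ∈ s.N := by
  rw [Sm, Submodule.mem_sup]
  constructor
  · rintro ⟨_, ⟨g, rfl⟩, v, hv, rfl⟩
    exact ⟨g, by simpa using hv⟩
  · rintro ⟨g, hg⟩
    exact ⟨_, ⟨g, rfl⟩, _, hg, by simp⟩

theorem mem_Y {al : Finset K} {q : ℕ} {f : M} : f ∈ s.Y al q ↔
    f ∈ s.W al (q + 1) ∧ ∀ J ⊆ al, J.card = q → s.RR J f ∈ s.Sm (al \ J) := by
  simp [Y, Submodule.mem_iInf]

end Vac

end Pool.Agent.PWD.Loc
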