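import Pool.Agent.K.MP_65ad7c_ag.C73

/-! Values of the basic operators. -/

open Set Filter Topology TopologicalSpace MeasureTheory Metric
open scoped ContDiff ComplexConjugate

noncomputable section
namespace Pool.Agent.PWD.Loc

variable {d : ℕ} {F : Type} [NormedAddCommGroup F] [NormedSpace ℂ F] {Ω : Opens (E d)}
  {z c : E d} {k l : Fin d} {i j : Fin d × Bool}

section lin
variable {G G' : Type} [NormedAddCommGroup G] [NormedSpace ℂ G] [NormedAddCommGroup G']
  [NormedSpace ℂ G']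

@[simp] theorem cov_false (k : Fin d) (v : E d) : cov (k, false) v = v k := rfl
@[simp] theorem cov_true (k : Fin d) (v : E d) : cov (k, true) v = conj (v k) := rfl
theorem cov_ne_zero {v : E d} : cov i v ≠ 0 ↔ v i.1 ≠ 0 := by
  obtain ⟨k, _ | _⟩ := i <;> simp
theorem cov_single_ne (h : i.1 ≠ k) (t : ℂ) : cov i (Pi.single k t) = 0 := by
  obtain ⟨l, _ | _⟩ := i <;> simp [Pi.single_eq_of_ne h]
theorem wv_cov (i j : Fin d × Bool) : wv i (cov j) = if i = j then 1 else 0 := by
  by_cases h : j.1 = i.1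
  · obtain ⟨k, s⟩ := i
    obtain ⟨l, t⟩ := j
    obtain rfl : l = k := h
    cases s <;> cases t <;> simp [wv] <;> norm_num
  · rw [wv, cov_single_ne h, cov_single_ne h, if_neg fun e : i = j => h (by rw [e])]
    simp
theorem map_single_DPA1 (L : E d →L[ℝ] G) (k : Fin d) (t : ℂ) :
    L (Pi.single k t) = t • wv (k, false) L + conj t • wv (k, true) L := by
  have e : (Pi.single k t : E d) =
      t.re • (Pi.single k 1 : E d) + t.im • (Pi.single k Complex.I : E d) := by
    rw [← Pi.single_smul, ← Pi.single_smul, ← Pi.single_add]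
    simp
  rw [e, map_add, map_smul, map_smul, ← Complex.coe_smul, ← Complex.coe_smul]
  simp only [wv, if_true, Bool.false_eq_true, if_false]
  match_scalars <;> apply Complex.ext <;> simp <;> ring
theorem sum_cov_wv (L : E d →L[ℝ] G) (v : E d) : ∑ i, cov i v • wv i L = L v := by
  conv_rhs => rw [← Finset.univ_sum_single v, map_sum]
  rw [Fintype.sum_prod_type]
  refine Finset.sum_congr rfl fun k _ => ?_
  rw [Fintype.sum_bool, map_single_DPA1, add_comm]
  rfl
theorem map_single (L : E d →L[ℝ] G) (k : Fin d) (t : ℂ) :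
    L (Pi.single k t) = t • wv (k, false) L + conj t • wv (k, true) L := map_single_DPA1 L k t
theorem wv_zero (i : Fin d × Bool) : wv i (0 : E d →L[ℝ] G) = 0 := by simp [wv]
theorem wv_add (i : Fin d × Bool) (L L' : E d →L[ℝ] G) : wv i (L + L') = wv i L + wv i L' := by
  simp only [wv, add_apply]
  module
theorem wv_sub (i : Fin d × Bool) (L L' : E d →L[ℝ] G) : wv i (L - L') = wv i L - wv i L' := by
  simp only [wv, sub_apply]
  module
theorem wv_smul (i : Fin d × Bool) (t : ℂ) (L : E d →L[ℝ] G) : wv i (t • L) = t • wv i L := by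
  simp only [wv, smul_apply]
  module
theorem wv_smulRight (i : Fin d × Bool) (L : E d →L[ℝ] ℂ) (u : G) :
    wv i (L.smulRight u) = wv i L • u := by
  simp only [wv, ContinuousLinearMap.smulRight_apply, smul_eq_mul]
  module
theorem wv_comp (i : Fin d × Bool) (T : G →L[ℂ] G') (L : E d →L[ℝ] G) :
    wv i ((T.restrictScalars ℝ).comp L) = T (wv i L) := by
  simp only [wv, map_smul, map_add]
  rfl
theorem wv_congr {L L' : E d →L[ℝ] G} (h : ∀ t, L (Pi.single i.1 t) = L' (Pi.single i.1 t)) :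
    wv i L = wv i L' := by rw [wv, wv, h, h]
theorem eq_zero_of_wv {L : E d →L[ℝ] G} (h : ∀ i, wv i L = 0) : L = 0 :=
  ContinuousLinearMap.ext fun v => by simp [← sum_cov_wv L v, h]
theorem wv_contDiff (i : Fin d × Bool) : ContDiff ℝ ∞ (wv i : (E d →L[ℝ] G) → G) :=
  ((ContinuousLinearMap.apply ℝ G (Pi.single i.1 1 : E d)).contDiff.add
    ((ContinuousLinearMap.apply ℝ G (Pi.single i.1 Complex.I : E d)).contDiff.const_smul
      _)).const_smul _

end lin

theorem op_val_DPA1 {T : (E d → F) → E d → F} (h : Good Ω T) (f : Fn Ω F)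
    (h0 : ∀ z ∉ Ω, T f.1 z = 0) : (op Ω T f).1 = T f.1 := funext fun z => by
  by_cases hz : z ∈ Ω
  · exact op_apply h f hz
  · rw [Fn.zero _ hz, h0 z hz]

theorem good_cst_DPA1 (L : F →L[ℂ] F) : Good Ω fun (f : E d → F) z => L (f z) :=
  ⟨fun f => (L.restrictScalars ℝ).contDiff.comp_contDiffOn (Fn.smooth f),
    fun _ _ _ _ => map_add L _ _, fun _ _ _ _ => map_smul L _ _⟩

theorem good_mul_DPA1 {g : E d → ℂ} (hg : ContDiffOn ℝ ∞ g Ω) :
    Good Ω fun (f : E d → F) z => g z • f z :=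
  ⟨fun f => hg.smul (Fn.smooth f), fun _ _ _ _ => smul_add _ _ _, fun _ _ _ _ => smul_comm _ _ _⟩

theorem good_dw_DPA1 (i : Fin d × Bool) :
    Good Ω fun (f : E d → F) z => wv i (fderiv ℝ f z) :=
  ⟨fun f => (wv_contDiff i).comp_contDiffOn
      ((Fn.smooth f).fderiv_of_isOpen Ω.isOpen (by simp)),
    fun f g _ hz => by rw [fderiv_add (Fn.diff f hz) (Fn.diff g hz), wv_add],
    fun c f _ hz => by rw [fderiv_const_smul (Fn.diff f hz), wv_smul]⟩

theorem good_cmp_DPA1 {ψ : E d → E d} (hψ : ContDiffOn ℝ ∞ ψ Ω) (hm : MapsTo ψ Ω Ω) :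
    Good Ω fun (f : E d → F) z => f (ψ z) :=
  ⟨fun f => (Fn.smooth f).comp hψ hm, fun _ _ _ _ => rfl, fun _ _ _ _ => rfl⟩

theorem cst_val (L : F →L[ℂ] F) (f : Fn Ω F) : (cst Ω L f).1 = fun z => L (f.1 z) :=
  op_val_DPA1 (good_cst_DPA1 L) f fun z hz => by rw [Fn.zero f hz, map_zero]
theorem cst_one : cst Ω (1 : F →L[ℂ] F) = 1 :=
  end_ext fun f z _ => by rw [cst_val]; rfl
theorem cst_zero : cst Ω (0 : F →L[ℂ] F) = 0 :=
  end_ext fun f z _ => by rw [cst_val]; rfl
theorem cst_mul (L L' : F →L[ℂ] F) : cst Ω (L * L') = cst Ω L * cst Ω L' :=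
  end_ext fun f z _ => by rw [Module.End.mul_apply, cst_val, cst_val, cst_val]; rfl
theorem cst_add (L L' : F →L[ℂ] F) : cst Ω (L + L') = cst Ω L + cst Ω L' :=
  end_ext fun f z _ => by
    rw [LinearMap.add_apply, Submodule.coe_add, cst_val, cst_val, cst_val]; rfl
theorem cst_sub (L L' : F →L[ℂ] F) : cst Ω (L - L') = cst Ω L - cst Ω L' :=
  end_ext fun f z _ => by
    rw [LinearMap.sub_apply, Submodule.coe_sub, cst_val, cst_val, cst_val]; rfl
theorem cst_smul (t : ℂ) (L : F →L[ℂ] F) : cst Ω (t • L) = t • cst Ω L :=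
  end_ext fun f z _ => by
    rw [LinearMap.smul_apply, Submodule.coe_smul, cst_val, cst_val]; rfl
theorem mul_val {g : E d → ℂ} (hg : ContDiffOn ℝ ∞ g Ω) (f : Fn Ω F) :
    (mul Ω F g f).1 = fun z => g z • f.1 z :=
  op_val_DPA1 (good_mul_DPA1 hg) f fun z hz => by rw [Fn.zero f hz, smul_zero]
theorem xc_val (c : E d) (i : Fin d × Bool) (f : Fn Ω F) :
    (xc Ω F c i f).1 = fun z => cov i (z - c) • f.1 z :=
  mul_val ((cov i).contDiff.comp (contDiff_id.sub contDiff_const)).contDiffOn f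
theorem dw_apply (i : Fin d × Bool) (f : Fn Ω F) (hz : z ∈ Ω) :
    (dw Ω F i f).1 z = wv i (fderiv ℝ f.1 z) := op_apply (good_dw_DPA1 i) f hz
theorem cmp_apply {ψ : E d → E d} (hψ : ContDiffOn ℝ ∞ ψ Ω) (hm : MapsTo ψ Ω Ω) (f : Fn Ω F)
    (hz : z ∈ Ω) : (cmp Ω F ψ f).1 z = f.1 (ψ z) := by
  rw [cmp, if_pos hm]
  exact op_apply (good_cmp_DPA1 hψ hm) f hz
theorem cmp_fderiv {ψ : E d → E d} (hψ : ContDiffOn ℝ ∞ ψ Ω) (hm : MapsTo ψ Ω Ω) (f : Fn Ω F)
    (hz : z ∈ Ω) : fderiv ℝ (cmp Ω F ψ f).1 z = (fderiv ℝ f.1 (ψ z)).comp (fderiv ℝ ψ z) := by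
  rw [cmp, if_pos hm, op_fderiv (good_cmp_DPA1 hψ hm) f hz]
  exact fderiv_comp z (Fn.diff f (hm hz))
    ((hψ.contDiffAt (Ω.isOpen.mem_nhds hz)).differentiableAt (by simp))
theorem cmp_bad {ψ : E d → E d} (hm : ¬MapsTo ψ Ω Ω) : cmp Ω F ψ = 1 := by rw [cmp, if_neg hm]
theorem update_contDiff (k : Fin d) (t : ℂ) :
    ContDiff ℝ ∞ fun z : E d => Function.update z k t := by
  refine contDiff_pi.2 fun l => ?_
  by_cases h : l = k
  · subst h
    simp only [Function.update_self]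
    exact contDiff_const
  · simp only [Function.update_of_ne h]
    exact contDiff_apply ℝ ℂ l
theorem fderiv_apply_DPA1 {g : E d → E d} (hd : DifferentiableAt ℝ g z) (v : E d) (l : Fin d) :
    fderiv ℝ (fun y => g y l) z v = fderiv ℝ g z v l :=
  congrArg (fun L : E d →L[ℝ] ℂ => L v) (hasFDerivAt_pi'.1 hd.hasFDerivAt l).fderiv
theorem update_fderiv (k : Fin d) (t : ℂ) (z v : E d) :
    fderiv ℝ (fun z : E d => Function.update z k t) z v = Function.update v k 0 := by
  have hd := (update_contDiff k t).differentiable (by simp) z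
  funext l
  rw [← fderiv_apply_DPA1 hd v l]
  by_cases h : l = k
  · subst h
    simp
  · simp only [Function.update_of_ne h]
    exact congrArg (fun L : E d →L[ℝ] ℂ => L v) (hasFDerivAt_apply l z).fderiv
theorem evc_apply (hm : MapsTo (fun z : E d => Function.update z k (c k)) Ω Ω) (f : Fn Ω F)
    (hz : z ∈ Ω) : (evc Ω F c k f).1 z = f.1 (Function.update z k (c k)) :=
  cmp_apply (update_contDiff k (c k)).contDiffOn hm f hz
theorem eu_apply (c : E d) (k : Fin d) (f : Fn Ω F) (hz : z ∈ Ω) :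
    (eu Ω F c k f).1 z = fderiv ℝ f.1 z (Pi.single k (z k - c k)) := by
  rw [eu, LinearMap.add_apply, Submodule.coe_add, Pi.add_apply, Module.End.mul_apply,
    Module.End.mul_apply, xc_val, xc_val, map_single]
  simp only [dw_apply _ f hz]
  rfl
theorem th_apply (c : E d) (k : Fin d) (f : Fn Ω F) (hz : z ∈ Ω) :
    (th Ω F c k f).1 z = fderiv ℝ f.1 z (Pi.single k (Complex.I * (z k - c k))) := by
  rw [th, LinearMap.smul_apply, Submodule.coe_smul, Pi.smul_apply, LinearMap.sub_apply,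
    Submodule.coe_sub, Pi.sub_apply, Module.End.mul_apply, Module.End.mul_apply, xc_val, xc_val,
    map_single]
  simp only [dw_apply _ f hz, cov_false, cov_true, Pi.sub_apply, map_mul, Complex.conj_I]
  module

end Pool.Agent.PWD.Loc
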