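import Pool.Agent.K.MP_65ad7c_ag.C72
import Pool.Agent.K.MP_65ad7c_ag.C74
import Pool.Agent.P.MP_65ad7c_ag.DL1

-- part Pool.Agent.P.MP_65ad7c_ag.DPG1
section

/-! Consequences of the anticommutation relations. -/

noncomputable section
namespace Pool.Agent.PWD.Loc

variable {K R : Type} [DecidableEq K] [Ring R] [Algebra ℂ R]

theorem half_DPG1 {y : R} (h : y + y = 0) : y = 0 := by
  have h2 : y = (2 : ℂ)⁻¹ • (y + y) := by
    rw [← two_smul ℂ y, smul_smul, inv_mul_cancel₀ two_ne_zero, one_smul]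
  rw [h2, h, smul_zero]

namespace CAR
variable (s : CAR K R) {i j : K × Bool}

theorem a_a (i : K × Bool) : s.a i * s.a i = 0 := half_DPG1 (s.aa i i)
theorem b_b (i : K × Bool) : s.b i * s.b i = 0 := half_DPG1 (s.bb i i)
theorem b_a (i : K × Bool) : s.b i * s.a i = 1 - s.n i := 
  eq_sub_of_add_eq (by simpa [n] using s.car i i)
theorem b_a_ne (h : i ≠ j) : s.b i * s.a j = -(s.a j * s.b i) := eq_neg_of_add_eq_zero_left (by simpa [h] using s.car i j)
theorem a_swap (i j : K × Bool) : s.a i * s.a j = -(s.a j * s.a i) := eq_neg_of_add_eq_zero_left (s.aa i j)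
theorem b_swap (i j : K × Bool) : s.b i * s.b j = -(s.b j * s.b i) := eq_neg_of_add_eq_zero_left (s.bb i j)
theorem a_n (i : K × Bool) : s.a i * s.n i = 0 := by rw [n, ← mul_assoc, a_a, zero_mul]
theorem n_a (i : K × Bool) : s.n i * s.a i = s.a i := by
  have h := s.a_n i
  rw [n, mul_assoc, b_a, mul_sub, h, sub_zero, mul_one]
theorem n_n (i : K × Bool) : s.n i * s.n i = s.n i := by
  have h := s.n_a i
  rw [n] at h ⊢
  rw [← mul_assoc, h]
theorem b_n (i : K × Bool) : s.b i * s.n i = s.b i := by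
  rw [n, ← mul_assoc, b_a, sub_mul, one_mul, n, mul_assoc, b_b, mul_zero, sub_zero]
theorem n_b (i : K × Bool) : s.n i * s.b i = 0 := by rw [n, mul_assoc, b_b, mul_zero]
theorem n_a_ne (h : i ≠ j) : Commute (s.n i) (s.a j) := by
  rw [Commute, SemiconjBy, n, mul_assoc, s.b_a_ne h, mul_neg, ← mul_assoc, s.a_swap i j, neg_mul,
    neg_neg, mul_assoc]
theorem n_b_ne (h : i ≠ j) : Commute (s.n i) (s.b j) := by
  rw [Commute, SemiconjBy, n, mul_assoc, s.b_swap i j, ← mul_assoc, s.b_a_ne h.symm, mul_neg,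
    neg_mul, mul_assoc]
theorem n_comm (i j : K × Bool) : Commute (s.n i) (s.n j) := by
  by_cases h : i = j
  · rw [h]
  · exact (s.n_a_ne h).mul_right (s.n_b_ne h)
omit [Algebra ℂ R] in
@[simp] theorem aL_nil : s.aL [] = 1 := rfl
omit [Algebra ℂ R] in
@[simp] theorem aL_cons (k : K) (L : List K) : s.aL (k :: L) = s.a (k, false) * s.aL L := rfl
theorem aL_perm {L L' : List K} (h : L.Perm L') : s.aL L = s.aL L' ∨ s.aL L = -s.aL L' := by
  induction h with
  | nil => exact Or.inl rfl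
  | cons k _ ih =>
    rcases ih with h | h
    · exact Or.inl (by rw [aL_cons, aL_cons, h])
    · exact Or.inr (by rw [aL_cons, aL_cons, h, mul_neg])
  | swap k l L =>
    exact Or.inr (by simp only [aL_cons, ← mul_assoc]; rw [s.a_swap (l, false), neg_mul])
  | trans _ _ h1 h2 =>
    rcases h1 with h1 | h1 <;> rcases h2 with h2 | h2 <;> rw [h1, h2] <;> simp
theorem a_aL (i : K × Bool) (L : List K) :
    s.a i * s.aL L = (-1 : ℂ) ^ L.length • (s.aL L * s.a i) := by
  induction L with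
  | nil => simp
  | cons k L ih =>
    rw [aL_cons, ← mul_assoc, s.a_swap, neg_mul, mul_assoc, ih, List.length_cons, pow_succ,
      mul_smul_comm, mul_neg_one, neg_smul, mul_assoc]
theorem b_aL {L : List K} (h : i.2 = true ∨ i.1 ∉ L) :
    s.b i * s.aL L = (-1 : ℂ) ^ L.length • (s.aL L * s.b i) := by
  induction L with
  | nil => simp
  | cons k L ih =>
    have h1 : i ≠ (k, false) := by
      rintro rfl
      simp at h
    rw [aL_cons, ← mul_assoc, s.b_a_ne h1, neg_mul, mul_assoc,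
      ih (h.imp_right fun h hm => h (List.mem_cons_of_mem _ hm)), List.length_cons, pow_succ,
      mul_smul_comm, mul_neg_one, neg_smul, mul_assoc]
theorem n_aL_of_mem {L : List K} {k : K} (h : k ∈ L) : s.n (k, false) * s.aL L = s.aL L := by
  induction L with
  | nil => simp at h
  | cons l L ih =>
    by_cases e : k = l
    · rw [aL_cons, ← mul_assoc, e, n_a]
    · rw [aL_cons, ← mul_assoc, (s.n_a_ne (by simpa using e)).eq, mul_assoc,
        ih ((List.mem_cons.1 h).resolve_left e)]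
omit [Algebra ℂ R] in
theorem commute_aL {T : R} {L : List K} (h : ∀ k ∈ L, Commute T (s.a (k, false))) :
    Commute T (s.aL L) := Commute.list_prod_right _ _ fun y hy => by
  obtain ⟨k, hk, rfl⟩ := List.mem_map.1 hy
  exact h k hk
theorem n_aL {L : List K} (h : i.2 = true ∨ i.1 ∉ L) : Commute (s.n i) (s.aL L) := s.commute_aL fun k hk => s.n_a_ne (by
  rintro rfl
  simp [hk] at h)
theorem Nh_a [Fintype K] (k : K) : s.Nh * s.a (k, false) = s.a (k, false) * (s.Nh + 1) := by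
  have h : Commute (∑ l ∈ Finset.univ.erase k, s.n (l, false)) (s.a (k, false)) :=
    Commute.sum_left _ _ _ fun l hl => s.n_a_ne (by simpa using hl)
  rw [Nh, ← Finset.add_sum_erase _ _ (Finset.mem_univ k), add_mul, h.eq, n_a, mul_add, mul_add, a_n,
    zero_add, mul_one, add_comm]
theorem Nh_b [Fintype K] (k : K) : s.Nh * s.b (k, false) = s.b (k, false) * (s.Nh - 1) := by
  have h : Commute (∑ l ∈ Finset.univ.erase k, s.n (l, false)) (s.b (k, false)) :=
    Commute.sum_left _ _ _ fun l hl => s.n_b_ne (by simpa using hl)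
  rw [Nh, ← Finset.add_sum_erase _ _ (Finset.mem_univ k), add_mul, h.eq, n_b, mul_sub, mul_add, b_n,
    zero_add, mul_one, add_sub_cancel_left]
theorem Nh_a' [Fintype K] (k : K) : Commute s.Nh (s.a (k, true)) := Commute.sum_left _ _ _ fun l _ => s.n_a_ne (by simp)
theorem Nh_b' [Fintype K] (k : K) : Commute s.Nh (s.b (k, true)) := Commute.sum_left _ _ _ fun l _ => s.n_b_ne (by simp)

end CAR

end Pool.Agent.PWD.Loc
end
end

-- part Pool.Agent.P.MP_65ad7c_ag.DPF2
section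

/-! Creation and annihilation operators of a Fock space. -/

open Set Filter Topology TopologicalSpace Metric
open scoped ContDiff ComplexConjugate
open Pool.Agent.HT (Form Alt pull der kill)

noncomputable section
namespace Pool.Agent.PWD.Loc

variable {d : ℕ} {F : Type} [NormedAddCommGroup F] [NormedSpace ℂ F] (Φ : FK d F)

/-- the complex structure -/
abbrev Jc (d : ℕ) : E d →L[ℝ] E d := Complex.I • ContinuousLinearMap.id ℝ _

/-- the projection that kills the coordinates in `J` -/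
def kR (J : Finset (Fin d)) : E d →L[ℝ] E d := (kill (J : Set (Fin d))).restrictScalars ℝ

namespace FK

theorem wv_anti_DPF2 (i : Fin d × Bool) (T : F →L[ℂ] F) :
    wv i Φ.io * T + T * wv i Φ.io =
      (2⁻¹ : ℂ) • ((Φ.io (Pi.single i.1 1) * T + T * Φ.io (Pi.single i.1 1)) +
        (if i.2 then Complex.I else -Complex.I) •
          (Φ.io (Pi.single i.1 Complex.I) * T + T * Φ.io (Pi.single i.1 Complex.I))) := by
  simp only [wv, smul_mul_assoc, mul_smul_comm, add_mul, mul_add, smul_add]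
  abel

theorem car_aux (i j : Fin d × Bool) :
    wv i Φ.io * Φ.ep (cov j) + Φ.ep (cov j) * wv i Φ.io = if i = j then 1 else 0 := by
  have h : wv i Φ.io * Φ.ep (cov j) + Φ.ep (cov j) * wv i Φ.io = wv i (cov j) • 1 := by
    rw [wv_anti_DPF2, Φ.car, Φ.car, wv, smul_assoc, add_smul, smul_assoc]
  rw [h, wv_cov, ite_smul, one_smul, zero_smul]

theorem bb_aux (i j : Fin d × Bool) : wv i Φ.io * wv j Φ.io + wv j Φ.io * wv i Φ.io = 0 := by
  have h : ∀ v, Φ.io v * wv j Φ.io + wv j Φ.io * Φ.io v = 0 := fun v => by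
    rw [add_comm, wv_anti_DPF2, Φ.anti_io, Φ.anti_io, smul_zero, add_zero, smul_zero]
  rw [wv_anti_DPF2, h, h, smul_zero, add_zero, smul_zero]

/-- the operators `dz_k ∧` and their duals -/
def C : CAR (Fin d) (F →L[ℂ] F) where
  a i := Φ.ep (cov i)
  b i := wv i Φ.io
  car := Φ.car_aux
  aa _ _ := Φ.anti_ep _ _
  bb := Φ.bb_aux

/-- the vacuum -/
def vac : F := Φ.phi 0 (ContinuousAlternatingMap.constOfIsEmpty ℝ (E d) (Fin 0) (1 : ℂ))

/-- the vector with given components -/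
def all (u : ∀ n, Alt (E d) n) : F := ∑ n ∈ Finset.range (2 * d + 1), Φ.phi n (u n)

/-- holomorphic degree at least `p` -/
def HF (p : ℕ) : Submodule ℂ F :=
  ⨆ (b : ℕ) (_ : p ≤ b), Module.End.eigenspace (Φ.C.Nh : F →L[ℂ] F).toLinearMap (b : ℂ)

theorem ep_eq (l : E d →L[ℝ] ℂ) : Φ.ep l = ∑ i, wv i l • Φ.C.a i := by
  have h : l = ∑ i, wv i l • cov i := by
    ext1 v
    rw [← sum_cov_wv l v, sum_apply]
    exact Finset.sum_congr rfl fun i _ => mul_comm _ _
  refine (congrArg Φ.ep h).trans ?_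
  rw [map_sum]
  exact Finset.sum_congr rfl fun i _ => map_smul _ _ _

theorem io_eq (v : E d) : Φ.io v = ∑ i, cov i v • Φ.C.b i := (sum_cov_wv Φ.io v).symm

theorem alt_eq_zero {n : ℕ} (h : 2 * d < n) (a : Alt (E d) n) : a = 0 := by
  ext v
  refine a.toAlternatingMap.map_linearDependent v fun hv => ?_
  have h1 := hv.fintype_card_le_finrank
  rw [Fintype.card_fin, Module.finrank_pi_fintype] at h1
  simp only [Complex.finrank_real_complex, Finset.sum_const, Finset.card_univ, Fintype.card_fin,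
    smul_eq_mul] at h1
  omega

theorem psi_all (u : ∀ n, Alt (E d) n) (n : ℕ) : Φ.psi n (Φ.all u) = u n := by
  rw [all, map_sum, Finset.sum_eq_single n, Φ.psi_phi]
  · exact fun m _ hm => Φ.psi_phi_ne m n _ hm.symm
  · intro hn
    exact alt_eq_zero (by rw [Finset.mem_range] at hn; omega) _

theorem all_psi (u : F) : Φ.all (fun n => Φ.psi n u) = u :=
  sub_eq_zero.1 (Φ.ext _ fun n => by rw [map_sub, psi_all, sub_self])

theorem psi_vac (n : ℕ) (z : E d) : Φ.psi n Φ.vac = (oneG : GF (E d)) n z := by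
  cases n with
  | zero => rw [vac, Φ.psi_phi, oneG, Pi.single_eq_same]
  | succ n =>
    rw [vac, Φ.psi_phi_ne 0 (n + 1) _ (Nat.succ_ne_zero n), oneG,
      Pi.single_eq_of_ne (Nat.succ_ne_zero n)]
    rfl

theorem psi_vac_zero_DPF2 (v : Fin 0 → E d) : Φ.psi 0 Φ.vac v = 1 := by
  rw [vac, Φ.psi_phi]
  rfl

theorem psi_vac_succ_DPF2 (n : ℕ) : Φ.psi (n + 1) Φ.vac = 0 :=
  Φ.psi_phi_ne 0 (n + 1) _ (Nat.succ_ne_zero n)

theorem psi_cons_DPF2 (n : ℕ) (u : F) (w : Fin (n + 1) → E d) :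
    Φ.psi (n + 1) u w = Φ.psi n (Φ.io (w 0) u) (Fin.tail w) := by
  rw [Φ.psi_io, ContinuousAlternatingMap.curryLeft_apply_apply]
  exact congrArg _ (Fin.cons_self_tail w).symm

theorem vac_ne : Φ.vac ≠ 0 := fun h => by
  have h1 := Φ.psi_vac_zero_DPF2 Fin.elim0
  rw [h, map_zero] at h1
  exact zero_ne_one h1

theorem b_vac (i : Fin d × Bool) : Φ.C.b i Φ.vac = 0 := by
  have h : ∀ v, Φ.io v Φ.vac = 0 := fun v => Φ.ext _ fun n => by
    rw [Φ.psi_io, psi_vac_succ_DPF2]
    ext w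
    rw [ContinuousAlternatingMap.curryLeft_apply_apply]
    rfl
  show wv i Φ.io Φ.vac = 0
  rw [wv, smul_apply, add_apply, smul_apply, h, h, smul_zero, add_zero, smul_zero]

theorem ker_b {u : F} (h : ∀ i, Φ.C.b i u = 0) : ∃ c : ℂ, u = c • Φ.vac := by
  have h1 : ∀ v, Φ.io v u = 0 := fun v => by
    rw [io_eq, sum_apply]
    exact Finset.sum_eq_zero fun i _ => by
      rw [smul_apply, h, smul_zero]
  refine ⟨Φ.psi 0 u Fin.elim0, sub_eq_zero.1 (Φ.ext _ fun n => ?_)⟩
  rw [map_sub, map_smul, sub_eq_zero]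
  ext w
  cases n with
  | zero =>
    rw [ContinuousAlternatingMap.smul_apply, psi_vac_zero_DPF2, smul_eq_mul, mul_one]
    exact congrArg _ (Subsingleton.elim _ _)
  | succ n =>
    rw [psi_vac_succ_DPF2, ContinuousAlternatingMap.smul_apply, psi_cons_DPF2, h1, map_zero]
    exact (smul_zero _).symm

/-- an operator that intertwines the contractions is a pull-back -/
theorem psi_comp {T : F →L[ℂ] F} {M : E d →L[ℝ] E d} (h : ∀ v, Φ.io v * T = T * Φ.io (M v))
    (h0 : ∀ u, Φ.psi 0 (T u) = Φ.psi 0 u) (n : ℕ) (u : F) :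
    Φ.psi n (T u) = (Φ.psi n u).compContinuousLinearMap M := by
  induction n generalizing u with
  | zero =>
    ext w
    rw [h0, ContinuousAlternatingMap.compContinuousLinearMap_apply]
    exact congrArg _ (Subsingleton.elim _ _)
  | succ n ih =>
    ext w
    have e : Φ.io (w 0) (T u) = T (Φ.io (M (w 0)) u) := DFunLike.congr_fun (h (w 0)) u
    rw [psi_cons_DPF2, e, ih, ContinuousAlternatingMap.compContinuousLinearMap_apply,
      ContinuousAlternatingMap.compContinuousLinearMap_apply, psi_cons_DPF2]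
    rfl

theorem cov_kR_DPF2 (J : Finset (Fin d)) (i : Fin d × Bool) (v : E d) :
    cov i (kR J v) = if i.1 ∈ J then 0 else cov i v := by
  obtain ⟨k, t⟩ := i
  have h : kR J v k = if k ∈ J then 0 else v k := by
    split_ifs with hk
    · exact Pool.Agent.HT.kill_of_mem (Finset.mem_coe.2 hk) v
    · exact Pool.Agent.HT.kill_of_notMem (fun h => hk (Finset.mem_coe.1 h)) v
  cases t
  · rw [cov_false, cov_false, h]
  · rw [cov_true, cov_true, h, apply_ite (starRingEnd ℂ), map_zero]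

theorem b_proj_DPF2 {K R : Type} [DecidableEq K] [Ring R] [Algebra ℂ R] (s : CAR K R)
    (i : K × Bool) : s.b i * ((1 - s.n (i.1, true)) * (1 - s.n (i.1, false))) = 0 := by
  have h : ∀ j, s.b j * (1 - s.n j) = 0 := fun j => by rw [mul_sub, mul_one, s.b_n, sub_self]
  obtain ⟨k, t⟩ := i
  cases t
  · have c : Commute (1 - s.n (k, true)) (1 - s.n (k, false)) :=
      (Commute.one_left _).sub_left ((Commute.one_right _).sub_right (s.n_comm _ _))
    rw [c.eq, ← mul_assoc, h, zero_mul]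
  · rw [← mul_assoc, h, zero_mul]

theorem psi_kill (J : Finset (Fin d)) (n : ℕ) (u : F) :
    Φ.psi n (cp J (fun k => (1 - Φ.C.n (k, true)) * (1 - Φ.C.n (k, false))) u) =
      (Φ.psi n u).compContinuousLinearMap (kR J) := by
  have c1 : ∀ i j, Commute (1 - Φ.C.n i) (1 - Φ.C.n j) := fun i j =>
    (Commute.one_left _).sub_left ((Commute.one_right _).sub_right (Φ.C.n_comm i j))
  have c2 : ∀ k l : Fin d, Commute ((1 - Φ.C.n (k, true)) * (1 - Φ.C.n (k, false)))
      ((1 - Φ.C.n (l, true)) * (1 - Φ.C.n (l, false))) := fun k l =>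
    ((c1 _ _).mul_right (c1 _ _)).mul_left ((c1 _ _).mul_right (c1 _ _))
  refine Φ.psi_comp (fun v => ?_) (fun u => ?_) n u
  · rw [io_eq, io_eq, Finset.sum_mul, Finset.mul_sum]
    refine Finset.sum_congr rfl fun i _ => ?_
    rw [smul_mul_assoc, mul_smul_comm, cov_kR_DPF2]
    split_ifs with hi
    · rw [cp_erase c2 hi, ← mul_assoc, b_proj_DPF2, zero_mul, smul_zero, zero_smul]
    · refine congrArg _ (commute_cp fun k hk => ?_).eq
      have c3 : ∀ t, Commute (Φ.C.b i) (1 - Φ.C.n (k, t)) := fun t =>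
        (Commute.one_right _).sub_right
          (Φ.C.n_b_ne fun e => hi (by rw [← e]; exact hk)).symm
      exact (c3 _).mul_right (c3 _)
  · have h1 : ∀ i u, Φ.psi 0 ((1 - Φ.C.n i) u) = Φ.psi 0 u := fun i u => by
      have e : Φ.psi 0 (Φ.C.n i u) = 0 := Φ.psi_ep0 (cov i) (Φ.C.b i u)
      rw [sub_apply, map_sub, e, sub_zero]
      rfl
    induction J using Finset.induction_on with
    | empty =>
      rw [cp_empty]
      rfl
    | insert k J hk ih =>
      rw [cp_insert c2 hk]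
      exact (h1 _ _).trans ((h1 _ _).trans ih)

/-- the exterior derivative in terms of creation operators -/
theorem psi_d (L : E d →L[ℝ] F) (n : ℕ) :
    Φ.psi (n + 1) (∑ i, Φ.C.a i (wv i L)) = ContinuousAlternatingMap.alternatizeUncurryFin
      (((Φ.psi n).restrictScalars ℝ).comp L) := by
  have h : ((Φ.psi n).restrictScalars ℝ).comp L =
      ∑ i, (cov i).smulRight (Φ.psi n (wv i L)) := by
    ext1 v
    have e : Φ.psi n (L v) = ∑ i, cov i v • Φ.psi n (wv i L) := by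
      rw [← sum_cov_wv L v, map_sum]
      exact Finset.sum_congr rfl fun i _ => map_smul _ _ _
    rw [sum_apply]
    exact e
  rw [h, map_sum, ← ContinuousAlternatingMap.alternatizeUncurryFinCLM_apply, map_sum]
  exact Finset.sum_congr rfl fun i _ => Φ.psi_ep n (cov i) (wv i L)

end FK

end Pool.Agent.PWD.Loc
end
end

-- part Pool.Agent.P.MP_65ad7c_ag.DPF3
section

/-! The filtration by holomorphic degree. -/

open Set Filter Topology TopologicalSpace Metric
open scoped ContDiff ComplexConjugate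
open Pool.Agent.HT (Form Alt pull der kill)

noncomputable section
namespace Pool.Agent.PWD.Loc

variable {d : ℕ} {F : Type} [NormedAddCommGroup F] [NormedSpace ℂ F] (Φ : FK d F)

namespace FK

theorem smul_zero_DPF3 {n : ℕ} (c : ℂ) : c • (0 : Alt (E d) n) = 0 := by ext; simp

theorem zero_smul_DPF3 {n : ℕ} (a : Alt (E d) n) : (0 : ℂ) • a = 0 := by ext; simp

theorem cancel_DPF3 {n : ℕ} {c : ℂ} (hc : c ≠ 0) {a : Alt (E d) n} (h : c • a = 0) : a = 0 := by
  ext v
  have := congrArg (fun b : Alt (E d) n => b v) h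
  simpa [hc] using this

theorem mem_HF_DPF3 {p b : ℕ} (h : p ≤ b) {u : F} (hu : Φ.C.Nh u = (b : ℂ) • u) : u ∈ Φ.HF p :=
  Submodule.mem_iSup_of_mem b (Submodule.mem_iSup_of_mem h (Module.End.mem_eigenspace_iff.2 hu))

theorem HF_le_DPF3 {p : ℕ} {Q : Submodule ℂ F}
    (h : ∀ b, p ≤ b → ∀ u, Φ.C.Nh u = (b : ℂ) • u → u ∈ Q) : Φ.HF p ≤ Q :=
  iSup₂_le fun b hb u hu => h b hb u (Module.End.mem_eigenspace_iff.1 hu)

theorem HF_map_DPF3 {p : ℕ} {Q : Submodule ℂ F} (T : F →L[ℂ] F)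
    (h : ∀ b, p ≤ b → ∀ u, Φ.C.Nh u = (b : ℂ) • u → T u ∈ Q) : ∀ u ∈ Φ.HF p, T u ∈ Q :=
  fun _ hu => Φ.HF_le_DPF3 (Q := Q.comap T.toLinearMap) h hu

theorem sum_eig_DPF3 {K : Type} [DecidableEq K] (e : K → F →L[ℂ] F) (h1 : ∀ k, e k * e k = e k)
    (h2 : ∀ k l, Commute (e k) (e l)) (J : Finset K) :
    ⨆ b : ℕ, Module.End.eigenspace (∑ k ∈ J, e k).toLinearMap (b : ℂ) = ⊤ := by
  induction J using Finset.induction_on with
  | empty =>
    refine top_unique fun u _ => Submodule.mem_iSup_of_mem 0 (Module.End.mem_eigenspace_iff.2 ?_)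
    simp
  | insert k J hk ih =>
    refine top_unique (ih.symm.le.trans (iSup_le fun b u hu => ?_))
    have hu' : (∑ l ∈ J, e l) u = (b : ℂ) • u := Module.End.mem_eigenspace_iff.1 hu
    have hc : Commute (∑ l ∈ J, e l) (e k) := Commute.sum_left _ _ _ fun l _ => h2 l k
    have a1 : (∑ l ∈ J, e l) (e k u) = (b : ℂ) • e k u := by
      rw [← mul_apply_eq_comp, hc.eq, mul_apply_eq_comp, hu', map_smul]
    have a2 : e k (e k u) = e k u := by rw [← mul_apply_eq_comp, h1]
    rw [← add_sub_cancel (e k u) u, Finset.sum_insert hk]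
    refine Submodule.add_mem _
      (Submodule.mem_iSup_of_mem (b + 1) (Module.End.mem_eigenspace_iff.2 ?_))
      (Submodule.mem_iSup_of_mem b (Module.End.mem_eigenspace_iff.2 ?_))
    · change e k (e k u) + (∑ l ∈ J, e l) (e k u) = _
      rw [a1, a2, Nat.cast_succ, add_smul, one_smul, add_comm]
    · change e k (u - e k u) + (∑ l ∈ J, e l) (u - e k u) = _
      rw [map_sub, map_sub, a1, a2, hu', sub_self, zero_add, smul_sub]

theorem comm_HF_DPF3 {T : F →L[ℂ] F} (h : Commute Φ.C.Nh T) (p : ℕ) :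
    ∀ u ∈ Φ.HF p, T u ∈ Φ.HF p :=
  Φ.HF_map_DPF3 T fun b hb u hu => Φ.mem_HF_DPF3 hb (by
    rw [← mul_apply_eq_comp, h.eq, mul_apply_eq_comp, hu, map_smul])

theorem eig_b_DPF3 (k : Fin d) {e : ℕ} {u : F} (hu : Φ.C.Nh u = ((e + 1 : ℕ) : ℂ) • u) :
    Φ.C.Nh (Φ.C.b (k, false) u) = (e : ℂ) • Φ.C.b (k, false) u := by
  rw [← mul_apply_eq_comp, Φ.C.Nh_b, mul_apply_eq_comp,
    _root_.sub_apply, hu, one_apply_eq_self, Nat.cast_succ, add_smul,
    one_smul, add_sub_cancel_right, map_smul]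

theorem HF_zero : Φ.HF 0 = ⊤ := by
  refine top_unique ((sum_eig_DPF3 (fun k => Φ.C.n (k, false)) (fun _ => Φ.C.n_n _)
    (fun _ _ => Φ.C.n_comm _ _) Finset.univ).symm.le.trans (iSup_le fun b u hu => ?_))
  exact Φ.mem_HF_DPF3 (Nat.zero_le b) (Module.End.mem_eigenspace_iff.1 hu)
theorem HF_anti (p : ℕ) : Φ.HF (p + 1) ≤ Φ.HF p :=
  Φ.HF_le_DPF3 fun _ hb _ hu => Φ.mem_HF_DPF3 (Nat.le_of_succ_le hb) hu
theorem HF_a (p : ℕ) (k : Fin d) : ∀ u ∈ Φ.HF p, Φ.C.a (k, false) u ∈ Φ.HF (p + 1) :=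
  Φ.HF_map_DPF3 _ fun b hb u hu => Φ.mem_HF_DPF3 (Nat.succ_le_succ hb) (by
    rw [← mul_apply_eq_comp, Φ.C.Nh_a, mul_apply_eq_comp,
      _root_.add_apply, hu, one_apply_eq_self, Nat.cast_succ, add_smul,
      one_smul, map_add, map_smul])
theorem HF_b (p : ℕ) (k : Fin d) : ∀ u ∈ Φ.HF (p + 1), Φ.C.b (k, false) u ∈ Φ.HF p :=
  Φ.HF_map_DPF3 _ fun b hb u hu => by
    obtain ⟨e, rfl⟩ : ∃ e, b = e + 1 := ⟨b - 1, by omega⟩
    exact Φ.mem_HF_DPF3 (Nat.le_of_succ_le_succ hb) (Φ.eig_b_DPF3 k hu)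
theorem HF_a' (p : ℕ) (k : Fin d) : ∀ u ∈ Φ.HF p, Φ.C.a (k, true) u ∈ Φ.HF p :=
  Φ.comm_HF_DPF3 (Φ.C.Nh_a' k) p
theorem HF_b' (p : ℕ) (k : Fin d) : ∀ u ∈ Φ.HF p, Φ.C.b (k, true) u ∈ Φ.HF p :=
  Φ.comm_HF_DPF3 (Φ.C.Nh_b' k) p
theorem HF_n (p : ℕ) (i : Fin d × Bool) : ∀ u ∈ Φ.HF p, Φ.C.n i u ∈ Φ.HF p :=
  Φ.comm_HF_DPF3 (Commute.sum_left _ _ _ fun _ _ => Φ.C.n_comm _ _) p

theorem psi0_DPF3 (u : F) : Φ.psi 0 (Φ.C.Nh u) = 0 := by
  rw [CAR.Nh, _root_.sum_apply, map_sum]
  exact Finset.sum_eq_zero fun k _ => Φ.psi_ep0 _ _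

theorem alt_ext_DPF3 {n : ℕ} {a a' : Alt (E d) (n + 1)}
    (h : ∀ v, a.curryLeft v = a'.curryLeft v) : a = a' := by
  ext w
  have := congrArg (fun c : Alt (E d) n => c (Fin.tail w)) (h (w 0))
  simpa [Matrix.vecCons] using this

theorem der_curry_DPF3 {n : ℕ} (J : E d →L[ℝ] E d) (a : Alt (E d) (n + 1)) (v : E d) :
    (der J a).curryLeft v = a.curryLeft (J v) + der J (a.curryLeft v) := by
  ext w
  simp [Pool.Agent.HT.der_apply, Fin.sum_univ_succ, Matrix.vecCons, Fin.cons_update]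

theorem io_I_DPF3 (v : E d) : Φ.io (Jc d v) + (2 * Complex.I) • (Φ.C.Nh * Φ.io v) =
    (2 * Complex.I) • (Φ.io v * Φ.C.Nh) - Complex.I • Φ.io v := by
  simp only [Φ.io_eq, Finset.mul_sum, Finset.sum_mul, Finset.smul_sum, ← Finset.sum_add_distrib,
    ← Finset.sum_sub_distrib]
  refine Finset.sum_congr rfl fun i _ => ?_
  obtain ⟨k, _ | _⟩ := i
  · have e : cov (k, false) (Jc d v) = Complex.I * cov (k, false) v := by simp
    rw [e, mul_smul_comm, smul_mul_assoc, Φ.C.Nh_b, mul_sub, mul_one]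
    module
  · have e : cov (k, true) (Jc d v) = -Complex.I * cov (k, true) v := by simp
    rw [e, mul_smul_comm, smul_mul_assoc, (Φ.C.Nh_b' k).eq]
    module

/-- the type operator -/
theorem psi_der (n : ℕ) (u : F) :
    der (Jc d) (Φ.psi n u) = Complex.I • Φ.psi n ((2 : ℂ) • Φ.C.Nh u - (n : ℂ) • u) := by
  induction n generalizing u with
  | zero =>
    rw [Nat.cast_zero, zero_smul, sub_zero, map_smul, psi0_DPF3, smul_zero_DPF3, smul_zero_DPF3]
    ext v
    simp [Pool.Agent.HT.der_apply]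
  | succ n ih =>
    refine alt_ext_DPF3 fun v => ?_
    rw [← map_smul, der_curry_DPF3, ← Φ.psi_io, ← Φ.psi_io, ← Φ.psi_io, ih, ← map_smul, ← map_add]
    refine congrArg _ ?_
    have h := congrArg (fun T : F →L[ℂ] F => T u) (Φ.io_I_DPF3 v)
    simp only [_root_.add_apply, _root_.sub_apply,
      _root_.smul_apply, mul_apply_eq_comp] at h
    rw [map_smul, map_sub, map_smul, map_smul, Nat.cast_succ]
    linear_combination (norm := module) h

theorem psi_eig_DPF3 (n : ℕ) : ∀ (e : ℕ) (u : F), n < e → Φ.C.Nh u = (e : ℂ) • u →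
    Φ.psi n u = 0 := by
  induction n with
  | zero =>
    intro e u he hu
    have h := Φ.psi0_DPF3 u
    rw [hu, map_smul] at h
    exact cancel_DPF3 (Nat.cast_ne_zero.2 he.ne') h
  | succ n ih =>
    intro e u he hu
    refine alt_ext_DPF3 fun v => ?_
    have z : (0 : Alt (E d) (n + 1)).curryLeft v = 0 := by ext w; simp
    rw [z, ← Φ.psi_io, Φ.io_eq, _root_.sum_apply, map_sum]
    refine Finset.sum_eq_zero fun i _ => ?_
    rw [_root_.smul_apply, map_smul]
    refine (congrArg (cov i v • ·) ?_).trans (smul_zero_DPF3 _)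
    obtain ⟨k, _ | _⟩ := i
    · obtain ⟨e, rfl⟩ : ∃ c, e = c + 1 := ⟨e - 1, by omega⟩
      exact ih e _ (by omega) (Φ.eig_b_DPF3 k hu)
    · refine ih e _ (by omega) ?_
      rw [← mul_apply_eq_comp, (Φ.C.Nh_b' k).eq, mul_apply_eq_comp, hu,
        map_smul]

theorem ty_eig_DPF3 (p n : ℕ) {e : ℕ} {u : F} (hu : Φ.C.Nh u = (e : ℂ) • u) :
    tyA (Jc d) p n (Φ.psi n u) =
      ((List.range' p (n + 1 - p)).map fun b : ℕ => 2 * Complex.I * (e - b)).prod • Φ.psi n u := by
  unfold tyA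
  induction List.range' p (n + 1 - p) with
  | nil => simp
  | cons b l ih =>
    rw [List.foldr_cons, ih, List.map_cons, List.prod_cons, ← map_smul (Φ.psi n), psi_der,
      map_smul Φ.C.Nh, hu]
    simp only [map_sub, map_smul]
    module

theorem ty_of_HF_DPF3 (p n : ℕ) {u : F} (hu : u ∈ Φ.HF p) : tyA (Jc d) p n (Φ.psi n u) = 0 := by
  let Q : Submodule ℂ F :=
    { carrier := {u | tyA (Jc d) p n (Φ.psi n u) = 0}
      add_mem' := fun {a b} ha hb => by
        change tyA (Jc d) p n (Φ.psi n (a + b)) = 0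
        rw [map_add, tyA_add, ha, hb, add_zero]
      zero_mem' := by
        change tyA (Jc d) p n (Φ.psi n 0) = 0
        rw [← zero_smul ℂ (0 : F), map_smul, tyA_smul, zero_smul_DPF3]
      smul_mem' := fun c a ha => by
        change tyA (Jc d) p n (Φ.psi n (c • a)) = 0
        rw [map_smul, tyA_smul, ha, smul_zero_DPF3] }
  refine Φ.HF_le_DPF3 (Q := Q) (fun e he w hw => ?_) hu
  change tyA (Jc d) p n (Φ.psi n w) = 0
  rw [Φ.ty_eig_DPF3 p n hw]
  by_cases h : n < e
  · rw [Φ.psi_eig_DPF3 n e w h hw, smul_zero_DPF3]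
  · rw [List.prod_eq_zero (List.mem_map.2 ⟨e, ?_, by simp⟩), zero_smul_DPF3]
    rw [List.mem_range'_1]
    omega

theorem ty_anti_DPF3 (J : E d →L[ℝ] E d) (p n : ℕ) {a : Alt (E d) n} (h : tyA J (p + 1) n a = 0) :
    tyA J p n a = 0 := by
  by_cases hp : n < p
  · rw [tyA_big J (by omega)] at h
    rwa [tyA_big J hp]
  · have e : n + 1 - p = n + 1 - (p + 1) + 1 := by omega
    unfold tyA at h ⊢
    rw [e, List.range'_succ, List.foldr_cons, h]
    ext v
    simp [Pool.Agent.HT.der_apply]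

theorem ty_iff (p : ℕ) (u : F) : (∀ n, tyA (Jc d) p n (Φ.psi n u) = 0) ↔ u ∈ Φ.HF p := by
  refine ⟨fun h => ?_, fun hu n => Φ.ty_of_HF_DPF3 p n hu⟩
  induction p with
  | zero => rw [HF_zero]; trivial
  | succ p ih =>
    have h1 : Φ.HF p ≤ Module.End.eigenspace (Φ.C.Nh : F →L[ℂ] F).toLinearMap (p : ℂ) ⊔
        Φ.HF (p + 1) := Φ.HF_le_DPF3 fun b hb w hw => by
      rcases hb.eq_or_lt with rfl | hb
      · exact Submodule.mem_sup_left (Module.End.mem_eigenspace_iff.2 hw)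
      · exact Submodule.mem_sup_right (Φ.mem_HF_DPF3 hb hw)
    obtain ⟨v, hv, w, hw, rfl⟩ := Submodule.mem_sup.1 (h1 (ih fun n => ty_anti_DPF3 _ p n (h n)))
    have hv' : Φ.C.Nh v = (p : ℂ) • v := Module.End.mem_eigenspace_iff.1 hv
    have h0 : v = 0 := Φ.ext v fun n => by
      have h2 := h n
      rw [map_add, tyA_add, Φ.ty_of_HF_DPF3 (p + 1) n hw, add_zero, Φ.ty_eig_DPF3 (p + 1) n hv'] at h2
      refine cancel_DPF3 (List.prod_ne_zero fun h3 => ?_) h2
      obtain ⟨b, hb, h4⟩ := List.mem_map.1 h3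
      rw [List.mem_range'_1] at hb
      have h5 : (p : ℂ) - b ≠ 0 := sub_ne_zero.2 (Nat.cast_injective.ne (by omega))
      exact mul_ne_zero (mul_ne_zero two_ne_zero Complex.I_ne_zero) h5 h4
    rwa [h0, zero_add]

end FK

end Pool.Agent.PWD.Loc
end
end
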