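import Pool.Agent.K.MP_65ad7c_ag.C74

/-! Functions with values in a closed subspace; density; cut-off. -/

open Set Filter Topology TopologicalSpace MeasureTheory Metric
open scoped ContDiff ComplexConjugate

noncomputable section
namespace Pool.Agent.PWD.Loc

variable {d : ℕ} {F : Type} [NormedAddCommGroup F] [NormedSpace ℂ F] {Ω : Opens (E d)}
  {z c : E d} {k l : Fin d} {i j : Fin d × Bool}

variable {C C' : Submodule ℂ F} {U : Set (E d)} {al : Finset (Fin d)}

theorem fderiv_mem_DPA3 (hC : IsClosed (C : Set F)) {f : E d → F}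
    (hf : DifferentiableAt ℝ f z) (h : ∀ᶠ y in 𝓝 z, f y ∈ C) (v : E d) :
    fderiv ℝ f z v ∈ C := by
  have hl : HasDerivAt (fun t : ℝ => z + t • v) v 0 := by
    simpa using ((hasDerivAt_id (0 : ℝ)).smul_const v).const_add z
  have h0 : z + (0 : ℝ) • v = z := by simp
  have hd : HasDerivAt (fun t : ℝ => f (z + t • v)) (fderiv ℝ f z v) 0 := by
    have h1 : HasFDerivAt f (fderiv ℝ f z) (z + (0 : ℝ) • v) := by
      rw [h0]
      exact hf.hasFDerivAt
    exact h1.comp_hasDerivAt 0 hl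
  have hc : Tendsto (fun t : ℝ => z + t • v) (𝓝 0) (𝓝 z) := by
    have := hl.continuousAt.tendsto
    rwa [h0] at this
  refine hC.mem_of_tendsto hd.tendsto_slope_zero ?_
  filter_upwards [nhdsWithin_le_nhds (hc.eventually h)] with t ht
  refine C.smul_of_tower_mem _ (C.sub_mem ?_ ?_)
  · rw [zero_add]
    exact ht
  · rw [h0]
    exact h.self_of_nhds

theorem dense_ne_DPA3 (al : Finset (Fin d)) (c : E d) : Dense {z : E d | ∀ k ∈ al, z k ≠ c k} :=
  dense_pi (al : Set (Fin d)) (s := fun k => ({c k}ᶜ : Set ℂ))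
    fun k _ => dense_compl_singleton (c k)

theorem mem_of_dense_DPA3 (hC : IsClosed (C : Set F)) {S : Set (E d)} (hS : Dense S)
    {f : E d → F} (hf : ContinuousAt f z) (h : ∀ᶠ y in 𝓝 z, y ∈ S → f y ∈ C) : f z ∈ C := by
  have : (𝓝[S] z).NeBot := mem_closure_iff_nhdsWithin_neBot.1 (hS z)
  exact hC.mem_of_tendsto (hf.tendsto.mono_left (nhdsWithin_le_nhds (s := S)))
    (eventually_nhdsWithin_iff.2 h)

theorem cst_Nb {L : F →L[ℂ] F} (h : ∀ u ∈ C, L u ∈ C') {f : Fn Ω F} (hf : f ∈ Nb Ω C U) :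
    cst Ω L f ∈ Nb Ω C' U := by
  intro z hz
  rw [cst_val]
  exact h _ (hf z hz)
theorem cst_Ng {L : F →L[ℂ] F} (h : ∀ u ∈ C, L u ∈ C') {f : Fn Ω F} (hf : f ∈ Ng Ω C c) :
    cst Ω L f ∈ Ng Ω C' c := by
  rw [mem_Ng] at hf ⊢
  filter_upwards [hf] with z hz
  rw [cst_val]
  exact h _ hz
theorem mul_Nb (g : E d → ℂ) : mul Ω F g ∈ Stb (Nb Ω C U) := by
  intro f hf z hz
  by_cases hg : Good Ω (fun (f : E d → F) z => g z • f z)
  · by_cases hΩ : z ∈ Ω
    · rw [mul, op_apply hg f hΩ]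
      exact C.smul_mem _ (hf z hz)
    · rw [Fn.zero _ hΩ]
      exact C.zero_mem
  · rw [mul, op_bad hg]
    exact hf z hz
theorem dw_Nb (hC : IsClosed (C : Set F)) (hU : IsOpen U) (i : Fin d × Bool) :
    dw Ω F i ∈ Stb (Nb Ω C U) := by
  intro f hf z hz
  by_cases hΩ : z ∈ Ω
  · rw [dw_apply i f hΩ]
    have key : ∀ v, fderiv ℝ f.1 z v ∈ C := fun v =>
      fderiv_mem_DPA3 hC (Fn.diff f hΩ) (by
        filter_upwards [hU.mem_nhds hz] with y hy using hf y hy) v
    exact C.smul_mem _ (C.add_mem (key _) (C.smul_mem _ (key _)))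
  · rw [Fn.zero _ hΩ]
    exact C.zero_mem
theorem update_mem_ball {r : ℝ} (hz : z ∈ ball c r) {t : ℂ} (ht : ‖t - c k‖ < r) :
    Function.update z k t ∈ ball c r := by
  have hr : 0 < r := pos_of_mem_ball hz
  rw [mem_ball, dist_pi_lt_iff hr] at hz ⊢
  intro j
  by_cases hj : j = k
  · subst hj
    rw [Function.update_self, dist_eq_norm]
    exact ht
  · rw [Function.update_of_ne hj]
    exact hz j
theorem evc_Nb (r : ℝ) (k : Fin d) : evc Ω F c k ∈ Stb (Nb Ω C (ball c r)) := by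
  intro f hf z hz
  by_cases hm : MapsTo (fun z : E d => Function.update z k (c k)) Ω Ω
  · by_cases hΩ : z ∈ Ω
    · rw [evc_apply hm f hΩ]
      refine hf _ (update_mem_ball hz ?_)
      rw [sub_self, norm_zero]
      exact pos_of_mem_ball hz
    · rw [Fn.zero _ hΩ]
      exact C.zero_mem
  · rw [evc, cmp_bad hm]
    exact hf z hz
theorem xc_inj (hC : IsClosed (C : Set F)) (hU : IsOpen U) {f : Fn Ω F}
    (h : xc Ω F c i f ∈ Nb Ω C U) : f ∈ Nb Ω C U := by
  intro z hz
  by_cases hΩ : z ∈ Ω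
  · refine mem_of_dense_DPA3 hC (dense_ne_DPA3 {i.1} c) (Fn.cda f hΩ).continuousAt ?_
    filter_upwards [hU.mem_nhds hz] with y hy hne
    have h1 := h y hy
    rw [xc_val] at h1
    have h2 : cov i (y - c) ≠ 0 := by
      rw [cov_ne_zero]
      exact sub_ne_zero.2 (hne i.1 (Finset.mem_singleton_self _))
    exact (C.smul_mem_iff h2).1 h1
  · rw [Fn.zero _ hΩ]
    exact C.zero_mem
theorem Rg_dense (al : Finset (Fin d)) : Dense (Rg al : Set (E d)) :=
  dense_ne_DPA3 al 0
theorem Rg_preconnected (al : Finset (Fin d)) : IsPreconnected (Rg al : Set (E d)) := by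
  have h : (Rg al : Set (E d)) =
      Set.pi univ (fun k => if k ∈ al then ({0}ᶜ : Set ℂ) else univ) := by
    ext z
    simp only [SetLike.mem_coe, mem_Rg, Set.mem_pi, mem_univ, true_imp_iff]
    refine forall_congr' fun k => ?_
    by_cases hk : k ∈ al <;> simp [hk]
  rw [h]
  refine isPreconnected_univ_pi fun k => ?_
  split_ifs
  · exact (isConnected_compl_singleton_of_one_lt_rank (by simp) (0 : ℂ)).isPreconnected
  · exact isPreconnected_univ
theorem Rg_empty : Rg (∅ : Finset (Fin d)) = ⊤ := by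
  ext z
  simp [mem_Rg]
theorem Rg_update (hk : k ∉ al) (hz : z ∈ Rg al) (t : ℂ) : Function.update z k t ∈ Rg al := by
  intro j hj
  have hjk : j ≠ k := fun h => hk (h ▸ hj)
  rw [Function.update_of_ne hjk]
  exact hz j hj
theorem Rg_update_ne (hz : z ∈ Rg al) {t : ℂ} (ht : t ≠ 0) : Function.update z k t ∈ Rg al := by
  intro j hj
  by_cases hjk : j = k
  · subst hjk
    rw [Function.update_self]
    exact ht
  · rw [Function.update_of_ne hjk]
    exact hz j hj
/-- a closed condition extends across the hyperplanes -/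
theorem Ng_of_Rg (hC : IsClosed (C : Set F)) {f : Fn ⊤ F}
    (h : ∀ᶠ z in 𝓝[Rg al] c, f.1 z ∈ C) : f ∈ Ng ⊤ C c := by
  rw [eventually_nhdsWithin_iff] at h
  rw [mem_Ng]
  filter_upwards [h.eventually_nhds] with z hz
  exact mem_of_dense_DPA3 hC (Rg_dense al) (Fn.cda f (Opens.mem_top z)).continuousAt hz
theorem const_of_dw (hΩ : IsPreconnected (Ω : Set (E d))) {f : Fn Ω F}
    (h : ∀ i, dw Ω F i f = 0) : ∃ u, ∀ z ∈ Ω, f.1 z = u := by
  refine Ω.isOpen.exists_is_const_of_fderiv_eq_zero (𝕜 := ℝ) hΩ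
    (fun z hz => (Fn.diff f hz).differentiableWithinAt) fun z hz => ?_
  refine eq_zero_of_wv fun i => ?_
  rw [← dw_apply i f hz, h i]
  rfl
theorem dw_const (u : F) (i : Fin d × Bool) :
    dw Ω F i (Fn.mk (fun _ => u) contDiffOn_const) = 0 := by
  refine Fn.ext fun z hz => ?_
  rw [dw_apply i _ hz]
  have h : (Fn.mk (Ω := Ω) (fun _ => u) contDiffOn_const).1 =ᶠ[𝓝 z] fun _ => u := by
    filter_upwards [Ω.isOpen.mem_nhds hz] with y hy using Fn.mk_apply _ hy
  rw [h.fderiv_eq, fderiv_fun_const]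
  exact wv_zero i
theorem exists_cut {r : ℝ} (hr : 0 < r) {g : E d → F} (hg : ContDiffOn ℝ ∞ g (ball c r ∩ Ω)) :
    ∃ f : Fn Ω F, ∀ z ∈ ball c (r / 2) ∩ Ω, f.1 z = g z := by
  let χ : ContDiffBump c := ⟨r / 2, 3 * r / 4, by positivity, by linarith⟩
  have hs : ContDiffOn ℝ ∞ (fun z => χ z • g z) Ω := by
    intro z hz
    refine ContDiffAt.contDiffWithinAt ?_
    by_cases hb : z ∈ ball c r
    · exact χ.contDiff.contDiffAt.smul
        (hg.contDiffAt ((isOpen_ball.inter Ω.isOpen).mem_nhds ⟨hb, hz⟩))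
    · have h1 : z ∉ tsupport χ := by
        rw [χ.tsupport_eq]
        intro h
        apply hb
        refine closedBall_subset_ball ?_ h
        change 3 * r / 4 < r
        linarith
      have h2 : (fun z => χ z • g z) =ᶠ[𝓝 z] fun _ => 0 := by
        filter_upwards [notMem_tsupport_iff_eventuallyEq.1 h1] with y hy
        rw [hy, Pi.zero_apply, zero_smul]
      exact contDiffAt_const.congr_of_eventuallyEq h2
  refine ⟨Fn.mk _ hs, fun z hz => ?_⟩
  rw [Fn.mk_apply hs hz.2, χ.one_of_mem_closedBall (ball_subset_closedBall hz.1), one_smul]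

end Pool.Agent.PWD.Loc
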