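import Pool.Agent.K.MP_65ad7c_ag.C78
import Pool.Agent.Lib.Mergelyan.Pompeiu
import Pool.Agent.K.MP_65ad7c_ag.C75
import Pool.Agent.K.MP_65ad7c_ag.C48

-- part Pool.Agent.P.MP_65ad7c_ag.DPA5
section

/-! Scaling of one coordinate. -/

open Set Filter Topology TopologicalSpace MeasureTheory Metric
open scoped ContDiff ComplexConjugate

noncomputable section
namespace Pool.Agent.PWD.Loc

variable {d : ℕ} {F : Type} [NormedAddCommGroup F] [NormedSpace ℂ F] {Ω : Opens (E d)}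
  {z c : E d} {k l : Fin d} {i j : Fin d × Bool}

/-- the inclusion of one coordinate -/
def sg_DPA5 (k : Fin d) : ℂ →L[ℝ] E d := ContinuousLinearMap.single ℝ (fun _ : Fin d => ℂ) k

theorem sg_apply_DPA5 (k : Fin d) (t : ℂ) : sg_DPA5 k t = Pi.single k t := rfl

/-- scaling of the coordinate `k` about `c k` -/
def sc_DPA5 (c : E d) (k : Fin d) (s : ℝ) (z : E d) : E d :=
  z + (s - 1) • sg_DPA5 k (z k - c k)

theorem sc_eq_DPA5 (c : E d) (k : Fin d) (s : ℝ) (z : E d) :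
    sc_DPA5 c k s z = Function.update z k (c k + s * (z k - c k)) := by
  funext j
  by_cases hj : j = k
  · subst hj
    simp [sc_DPA5, sg_apply_DPA5]
    ring
  · simp [sc_DPA5, sg_apply_DPA5, hj]

theorem sc_k_DPA5 (c : E d) (k : Fin d) (s : ℝ) (z : E d) :
    sc_DPA5 c k s z k - c k = s • (z k - c k) := by
  rw [sc_eq_DPA5]
  simp

theorem sc_one_DPA5 (c : E d) (k : Fin d) (z : E d) : sc_DPA5 c k 1 z = z := by
  simp [sc_DPA5]

theorem sc_zero_DPA5 (c : E d) (k : Fin d) (z : E d) :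
    sc_DPA5 c k 0 z = Function.update z k (c k) := by
  rw [sc_eq_DPA5]
  simp

theorem sc_deriv_DPA5 (c : E d) (k : Fin d) (s : ℝ) (z : E d) :
    HasDerivAt (fun s => sc_DPA5 c k s z) (Pi.single k (z k - c k)) s := by
  have h := (((hasDerivAt_id s).sub_const 1).smul_const (sg_DPA5 k (z k - c k))).const_add z
  rw [one_smul] at h
  exact h

theorem sc_fderiv_DPA5 (c : E d) (k : Fin d) (s : ℝ) (z : E d) :
    fderiv ℝ (sc_DPA5 c k s) z (Pi.single k (z k - c k)) =
      Pi.single k (sc_DPA5 c k s z k - c k) := by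
  have h1 : HasFDerivAt (fun z : E d => z k - c k)
      (ContinuousLinearMap.proj k : E d →L[ℝ] ℂ) z :=
    (ContinuousLinearMap.proj k : E d →L[ℝ] ℂ).hasFDerivAt.sub_const (c k)
  have h2 := (hasFDerivAt_id z).add
    (((sg_DPA5 k).hasFDerivAt.comp z h1).const_smul (s - 1))
  have h3 : fderiv ℝ (sc_DPA5 c k s) z = _ := h2.fderiv
  rw [h3, sc_k_DPA5, ← sg_apply_DPA5, ← sg_apply_DPA5, map_smul]
  simp only [add_apply, ContinuousLinearMap.id_apply,
    smul_apply, ContinuousLinearMap.comp_apply,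
    ContinuousLinearMap.proj_apply, sg_apply_DPA5, Pi.single_eq_same]
  rw [sub_smul, one_smul]
  abel

theorem iok_DPA5 (h : ∀ z ∈ Ω, ∀ t, Function.update z k t ∈ Ω) (c : E d) (m : ℕ) :
    IOK Ω (Icc (0 : ℝ) 1) (fun s => (s : ℂ) ^ m) (sc_DPA5 c k) where
  compact := isCompact_Icc
  int := (by fun_prop : Continuous fun s : ℝ => (s : ℂ) ^ m).integrableOn_Icc
  smooth := by
    refine ContDiff.contDiffOn ?_
    have h1 : ContDiff ℝ ∞ fun p : ℝ × E d => sg_DPA5 k (p.2 k - c k) :=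
      (sg_DPA5 k).contDiff.comp
        (((contDiff_apply ℝ ℂ k).comp contDiff_snd).sub contDiff_const)
    exact contDiff_snd.add ((contDiff_fst.sub contDiff_const).smul h1)
  maps s z hz := by
    rw [sc_eq_DPA5]
    exact h z hz _

theorem f_deriv_DPA5 (h : ∀ z ∈ Ω, ∀ t, Function.update z k t ∈ Ω) (c : E d) (f : Fn Ω F)
    (hz : z ∈ Ω) (s : ℝ) :
    HasDerivAt (fun s => f.1 (sc_DPA5 c k s z))
      (fderiv ℝ f.1 (sc_DPA5 c k s z) (Pi.single k (z k - c k))) s :=
  (Fn.diff f ((iok_DPA5 h c 0).maps s hz)).hasFDerivAt.comp_hasDerivAt s (sc_deriv_DPA5 c k s z)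

theorem f_cont_DPA5 (h : ∀ z ∈ Ω, ∀ t, Function.update z k t ∈ Ω) (c : E d) (f : Fn Ω F)
    (hz : z ∈ Ω) : Continuous fun s => f.1 (sc_DPA5 c k s z) :=
  continuous_iff_continuousAt.2 fun s => (f_deriv_DPA5 h c f hz s).continuousAt

variable [CompleteSpace F]

theorem ftc_DPA5 {g g' : ℝ → F} (hg : ∀ s, HasDerivAt g (g' s) s) (hc : Continuous g') :
    ∫ s in Icc (0 : ℝ) 1, g' s = g 1 - g 0 := by
  rw [integral_Icc_eq_integral_Ioc, ← intervalIntegral.integral_of_le zero_le_one]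
  exact intervalIntegral.integral_eq_sub_of_hasDerivAt (fun s _ => hg s)
    (hc.intervalIntegrable _ _)

theorem left_DPA5 (h : ∀ z ∈ Ω, ∀ t, Function.update z k t ∈ Ω) (c : E d) (m : ℕ) :
    intg Ω F (Icc (0 : ℝ) 1) (fun s => (s : ℂ) ^ m) (sc_DPA5 c k) *
      (eu Ω F c k + ((m + 1 : ℕ) : Module.End ℂ (Fn Ω F))) = 1 := by
  refine end_ext fun f z hz => ?_
  rw [Module.End.mul_apply, (iok_DPA5 h c m).apply _ hz, Module.End.one_apply]
  set u := (eu Ω F c k + ((m + 1 : ℕ) : Module.End ℂ (Fn Ω F))) f with hu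
  have hd : ∀ s : ℝ, HasDerivAt (fun s : ℝ => s ^ (m + 1) • f.1 (sc_DPA5 c k s z))
      ((s : ℂ) ^ m • u.1 (sc_DPA5 c k s z)) s := by
    intro s
    have h1 := (hasDerivAt_pow (m + 1) s).smul (f_deriv_DPA5 h c f hz s)
    refine h1.congr_deriv ?_
    rw [hu, LinearMap.add_apply, Module.End.natCast_apply, Submodule.coe_add, Pi.add_apply,
      eu_apply c k f ((iok_DPA5 h c 0).maps s hz), sc_k_DPA5, ← sg_apply_DPA5, ← sg_apply_DPA5,
      map_smul, map_smul, ← Complex.ofReal_pow, Complex.coe_smul, Submodule.coe_smul_of_tower,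
      Pi.smul_apply, ← Nat.cast_smul_eq_nsmul ℝ, smul_add, smul_smul, smul_smul,
      Nat.add_sub_cancel, pow_succ, mul_comm (s ^ m) ((m + 1 : ℕ) : ℝ)]
  have hc : Continuous fun s : ℝ => (s : ℂ) ^ m • u.1 (sc_DPA5 c k s z) :=
    (by fun_prop : Continuous fun s : ℝ => (s : ℂ) ^ m).smul (f_cont_DPA5 h c u hz)
  rw [ftc_DPA5 hd hc, sc_one_DPA5]
  simp

theorem comm_DPA5 (h : ∀ z ∈ Ω, ∀ t, Function.update z k t ∈ Ω) (c : E d) (m : ℕ) :
    Commute (intg Ω F (Icc (0 : ℝ) 1) (fun s => (s : ℂ) ^ m) (sc_DPA5 c k))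
      (eu Ω F c k + ((m + 1 : ℕ) : Module.End ℂ (Fn Ω F))) :=
  ((iok_DPA5 h c m).comm_field (X := fun z => Pi.single k (z k - c k))
    (fun f _ hz => eu_apply c k f hz) fun s z _ => sc_fderiv_DPA5 c k s z).add_right
    (Nat.commute_cast _ _)

theorem had_DPA5 (h : ∀ z ∈ Ω, ∀ t, Function.update z k t ∈ Ω) (c : E d) :
    1 - evc Ω F c k =
      xc Ω F c (k, false) * intg Ω F (Icc (0 : ℝ) 1) (fun s => (s : ℂ) ^ 0) (sc_DPA5 c k) *
        dw Ω F (k, false) +
      xc Ω F c (k, true) * intg Ω F (Icc (0 : ℝ) 1) (fun s => (s : ℂ) ^ 0) (sc_DPA5 c k) *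
        dw Ω F (k, true) := by
  refine end_ext fun f z hz => ?_
  have hm := (iok_DPA5 h c 0).maps
  have c0 := f_cont_DPA5 h c (dw Ω F (k, false) f) hz
  have c1 := f_cont_DPA5 h c (dw Ω F (k, true) f) hz
  have hd : ∀ s : ℝ, HasDerivAt (fun s : ℝ => f.1 (sc_DPA5 c k s z))
      ((z k - c k) • (dw Ω F (k, false) f).1 (sc_DPA5 c k s z) +
        conj (z k - c k) • (dw Ω F (k, true) f).1 (sc_DPA5 c k s z)) s := by
    intro s
    refine (f_deriv_DPA5 h c f hz s).congr_deriv ?_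
    rw [map_single, dw_apply _ _ (hm s hz), dw_apply _ _ (hm s hz)]
  have d0 : Continuous fun s : ℝ =>
      (z k - c k) • (dw Ω F (k, false) f).1 (sc_DPA5 c k s z) := c0.const_smul _
  have d1 : Continuous fun s : ℝ =>
      conj (z k - c k) • (dw Ω F (k, true) f).1 (sc_DPA5 c k s z) := c1.const_smul _
  have key := ftc_DPA5 hd (d0.add d1)
  rw [integral_add d0.integrableOn_Icc d1.integrableOn_Icc,
    integral_smul, integral_smul, sc_one_DPA5, sc_zero_DPA5] at key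
  rw [LinearMap.sub_apply, Module.End.one_apply, Submodule.coe_sub, Pi.sub_apply,
    evc_apply (fun z hz => h z hz _) f hz, LinearMap.add_apply, Submodule.coe_add, Pi.add_apply,
    Module.End.mul_apply, Module.End.mul_apply, Module.End.mul_apply, Module.End.mul_apply,
    xc_val, xc_val]
  simp only [(iok_DPA5 h c 0).apply _ hz]
  simp only [pow_zero, one_smul, cov_false, cov_true, Pi.sub_apply]
  exact key.symm

theorem stb_DPA5 (h : ∀ z ∈ Ω, ∀ t, Function.update z k t ∈ Ω) (c : E d) (m : ℕ) (r : ℝ) :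
    intg Ω F (Icc (0 : ℝ) 1) (fun s => (s : ℂ) ^ m) (sc_DPA5 c k) ∈
      Stb (Nb Ω ⊥ (ball c r)) := by
  intro f hf z hz
  refine (iok_DPA5 h c m).mem (by simp) f fun s hs => hf _ ?_
  rw [sc_eq_DPA5]
  refine update_mem_ball hz ?_
  have h1 : ‖z k - c k‖ < r := by
    have := norm_le_pi_norm (z - c) k
    rw [mem_ball, dist_eq_norm] at hz
    exact lt_of_le_of_lt this hz
  rw [add_sub_cancel_left, norm_mul, Complex.norm_real, Real.norm_of_nonneg hs.1]
  exact lt_of_le_of_lt (mul_le_of_le_one_left (norm_nonneg _) hs.2) h1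

theorem exists_scal (h : ∀ z ∈ Ω, ∀ t, Function.update z k t ∈ Ω) (c : E d) :
    ∃ I0 I1 : Module.End ℂ (Fn Ω F),
      I0 * (eu Ω F c k + 1) = 1 ∧ (eu Ω F c k + 1) * I0 = 1 ∧
      I1 * (eu Ω F c k + 2) = 1 ∧ (eu Ω F c k + 2) * I1 = 1 ∧
      1 - evc Ω F c k = xc Ω F c (k, false) * I0 * dw Ω F (k, false) +
        xc Ω F c (k, true) * I0 * dw Ω F (k, true) ∧
      ∀ r, I0 ∈ Stb (Nb Ω ⊥ (ball c r)) ∧ I1 ∈ Stb (Nb Ω ⊥ (ball c r)) := by
  have l0 := left_DPA5 (F := F) h c 0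
  have l1 := left_DPA5 (F := F) h c 1
  have r0 := (comm_DPA5 (F := F) h c 0).eq.symm.trans l0
  have r1 := (comm_DPA5 (F := F) h c 1).eq.symm.trans l1
  have e0 : ((0 + 1 : ℕ) : Module.End ℂ (Fn Ω F)) = 1 := by norm_num
  have e1 : ((1 + 1 : ℕ) : Module.End ℂ (Fn Ω F)) = 2 := by norm_num
  rw [e0] at l0 r0
  rw [e1] at l1 r1
  exact ⟨_, _, l0, r0, l1, r1, had_DPA5 h c, fun r => ⟨stb_DPA5 h c 0 r, stb_DPA5 h c 1 r⟩⟩

end Pool.Agent.PWD.Loc
end
end

-- part Pool.Agent.P.MP_65ad7c_ag.DPA6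
section

/-! Rotation of one coordinate. -/

open Set Filter Topology TopologicalSpace MeasureTheory Metric
open scoped ContDiff ComplexConjugate

noncomputable section
namespace Pool.Agent.PWD.Loc

variable {d : ℕ} {F : Type} [NormedAddCommGroup F] [NormedSpace ℂ F] {Ω : Opens (E d)}
  {z c : E d} {k l : Fin d} {i j : Fin d × Bool}

/-- rotation of the coordinate `k` -/
def rot_DPA6 (k : Fin d) (θ : ℝ) (z : E d) : E d :=
  fun j => (if j = k then Complex.exp (θ * Complex.I) else 1) * z j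

theorem rot_smooth_DPA6 (k : Fin d) : ContDiff ℝ ∞ fun p : ℝ × E d => rot_DPA6 k p.1 p.2 := by
  refine contDiff_pi.2 fun j => ?_
  have h2 : ContDiff ℝ ∞ fun p : ℝ × E d => p.2 j := (contDiff_apply ℝ ℂ j).comp contDiff_snd
  unfold rot_DPA6
  split_ifs
  · have h1 : ContDiff ℝ ∞ fun p : ℝ × E d => ((p.1 : ℝ) : ℂ) :=
      Complex.ofRealCLM.contDiff.comp contDiff_fst
    exact (Complex.contDiff_exp.comp (h1.mul contDiff_const)).mul h2
  · exact contDiff_const.mul h2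

theorem rot_fderiv_DPA6 (k : Fin d) (θ : ℝ) (z v : E d) :
    fderiv ℝ (rot_DPA6 k θ) z v = rot_DPA6 k θ v := by
  let L : E d →L[ℝ] E d := ContinuousLinearMap.pi fun j =>
    (if j = k then Complex.exp (θ * Complex.I) else 1) • ContinuousLinearMap.proj j
  have h : rot_DPA6 k θ = L := rfl
  rw [h, L.fderiv]

theorem rot_single_DPA6 (k : Fin d) (θ : ℝ) (z : E d) :
    rot_DPA6 k θ (Pi.single k (Complex.I * z k)) = Pi.single k (Complex.I * rot_DPA6 k θ z k) := by
  funext j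
  by_cases h : j = k
  · subst h
    simp only [rot_DPA6, if_true, Pi.single_eq_same]
    ring
  · simp [rot_DPA6, h]

theorem rot_deriv_DPA6 (k : Fin d) (θ : ℝ) (z : E d) :
    HasDerivAt (fun t => rot_DPA6 k t z) (Pi.single k (Complex.I * rot_DPA6 k θ z k)) θ := by
  refine hasDerivAt_pi.2 fun j => ?_
  by_cases h : j = k
  · subst h
    simp only [rot_DPA6, if_true, Pi.single_eq_same]
    have h1 : HasDerivAt (fun t : ℝ => (t : ℂ) * Complex.I) (1 * Complex.I) θ :=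
      Complex.ofRealCLM.hasDerivAt.mul_const Complex.I
    refine (h1.cexp.mul_const (z j)).congr_deriv ?_
    ring
  · simp only [rot_DPA6, if_neg h, Pi.single_eq_of_ne h]
    exact hasDerivAt_const _ _

theorem rot_zero_DPA6 (k : Fin d) (z : E d) : rot_DPA6 k 0 z = z := by
  funext j
  simp [rot_DPA6]

theorem rot_two_pi_DPA6 (k : Fin d) (z : E d) : rot_DPA6 k (2 * Real.pi) z = z := by
  funext j
  simp [rot_DPA6]

theorem rot_ball_DPA6 (hc : c k = 0) (θ : ℝ) {r : ℝ} (hz : z ∈ ball c r) :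
    rot_DPA6 k θ z ∈ ball c r := by
  refine lt_of_le_of_lt ?_ (mem_ball.1 hz)
  refine (dist_pi_le_iff dist_nonneg).2 fun j => le_trans (le_of_eq ?_) (dist_le_pi_dist z c j)
  by_cases h : j = k
  · subst h
    simp [rot_DPA6, hc]
  · simp [rot_DPA6, h]

variable [CompleteSpace F] {al : Finset (Fin d)}

theorem iok_DPA6 (al : Finset (Fin d)) (k : Fin d) {w : ℝ → ℂ} (hw : Continuous w) :
    IOK (Rg al) (Icc 0 (2 * Real.pi)) w (rot_DPA6 k) where
  compact := isCompact_Icc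
  int := hw.integrableOn_Icc
  smooth := (rot_smooth_DPA6 k).contDiffOn
  maps θ z hz := fun j hj => by
    refine mul_ne_zero ?_ (hz j hj)
    split_ifs
    · exact Complex.exp_ne_zero _
    · exact one_ne_zero

omit [CompleteSpace F] in
theorem th_deriv_DPA6 (hc : c k = 0) (f : Fn (Rg al) F) (hz : z ∈ Rg al) (θ : ℝ) :
    HasDerivAt (fun t => f.1 (rot_DPA6 k t z)) ((th _ F c k f).1 (rot_DPA6 k θ z)) θ := by
  have hm : rot_DPA6 k θ z ∈ Rg al := (iok_DPA6 al k (w := 0) continuous_zero).maps θ hz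
  rw [th_apply c k f hm, hc, sub_zero]
  exact (Fn.diff f hm).hasFDerivAt.comp_hasDerivAt θ (rot_deriv_DPA6 k θ z)

omit [CompleteSpace F] in
theorem cont_DPA6 (k : Fin d) (f : Fn (Rg al) F) (hz : z ∈ Rg al) :
    Continuous fun t => f.1 (rot_DPA6 k t z) :=
  continuous_iff_continuousAt.2 fun θ =>
    ContinuousAt.comp (f := fun t => rot_DPA6 k t z)
      (Fn.cda f ((iok_DPA6 al k (w := 0) continuous_zero).maps θ hz)).continuousAt
      (rot_deriv_DPA6 k θ z).continuousAt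

/-- integration by parts along the orbit -/
theorem parts_DPA6 (hc : c k = 0) (f : Fn (Rg al) F) (hz : z ∈ Rg al) {w w' : ℝ → ℂ}
    (hw : ∀ t, HasDerivAt w (w' t) t) (hw' : Continuous w') :
    ∫ t in Icc 0 (2 * Real.pi), w t • (th _ F c k f).1 (rot_DPA6 k t z) =
      (w (2 * Real.pi) - w 0) • f.1 z - ∫ t in Icc 0 (2 * Real.pi), w' t • f.1 (rot_DPA6 k t z) := by
  have hp : (0 : ℝ) ≤ 2 * Real.pi := by positivity
  have hw0 : Continuous w := continuous_iff_continuousAt.2 fun t => (hw t).continuousAt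
  have c1 : Continuous fun t => w t • (th _ F c k f).1 (rot_DPA6 k t z) :=
    hw0.smul (cont_DPA6 k (th _ F c k f) hz)
  have c2 : Continuous fun t => w' t • f.1 (rot_DPA6 k t z) := hw'.smul (cont_DPA6 k f hz)
  have h := intervalIntegral.integral_eq_sub_of_hasDerivAt (a := 0) (b := 2 * Real.pi)
    (fun t _ => (hw t).smul (th_deriv_DPA6 hc f hz t)) ((c1.add c2).intervalIntegrable _ _)
  rw [intervalIntegral.integral_add (c1.intervalIntegrable _ _) (c2.intervalIntegrable _ _),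
    intervalIntegral.integral_of_le hp, intervalIntegral.integral_of_le hp] at h
  rw [integral_Icc_eq_integral_Ioc, integral_Icc_eq_integral_Ioc, eq_sub_iff_add_eq, h]
  simp only [Pi.smul_apply', rot_zero_DPA6, rot_two_pi_DPA6, sub_smul]

theorem exists_rot (hc : c k = 0) : ∃ T Av : Module.End ℂ (Fn (Rg al) F),
    T * th _ F c k = 1 - Av ∧ th _ F c k * T = 1 - Av ∧ Av * th _ F c k = 0 ∧
    ∀ r, T ∈ Stb (Nb _ ⊥ (ball c r)) := by
  have hpi : (Real.pi : ℂ) ≠ 0 := Complex.ofReal_ne_zero.2 Real.pi_ne_zero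
  have hw : ∀ t : ℝ, HasDerivAt (fun t : ℝ => ((t : ℂ) - Real.pi) / (2 * Real.pi))
      (1 / (2 * Real.pi)) t := fun t =>
    (Complex.ofRealCLM.hasDerivAt.sub_const (Real.pi : ℂ)).div_const _
  have hT := iok_DPA6 al k (continuous_iff_continuousAt.2 fun t => (hw t).continuousAt)
  have hA := iok_DPA6 al k (w := fun _ => 1 / (2 * Real.pi)) continuous_const
  have h1 : intg (Rg al) F (Icc 0 (2 * Real.pi)) (fun t : ℝ => ((t : ℂ) - Real.pi) / (2 * Real.pi))
      (rot_DPA6 k) * th _ F c k =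
      1 - intg (Rg al) F (Icc 0 (2 * Real.pi)) (fun _ => 1 / (2 * Real.pi)) (rot_DPA6 k) := by
    refine end_ext fun f z hz => ?_
    rw [Module.End.mul_apply, hT.apply _ hz, parts_DPA6 hc f hz hw continuous_const,
      LinearMap.sub_apply, Submodule.coe_sub, Pi.sub_apply, hA.apply _ hz, Module.End.one_apply]
    have e : (((2 * Real.pi : ℝ) : ℂ) - Real.pi) / (2 * Real.pi) -
        (((0 : ℝ) : ℂ) - Real.pi) / (2 * Real.pi) = 1 := by
      push_cast
      field_simp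
      ring
    rw [e, one_smul]
  refine ⟨_, _, h1, ?_, ?_, fun r f hf z hz => ?_⟩
  · rw [← h1]
    refine (hT.comm_field (X := fun z => Pi.single k (Complex.I * z k)) (fun f z hz => ?_)
      fun u z _ => ?_).eq.symm
    · rw [th_apply c k f hz, hc, sub_zero]
    · rw [rot_fderiv_DPA6, rot_single_DPA6]
  · refine end_ext fun f z hz => ?_
    rw [Module.End.mul_apply, hA.apply _ hz,
      parts_DPA6 hc f hz (fun t => hasDerivAt_const t _) continuous_const]
    simp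
  · exact hT.mem (by simp) f fun u _ => hf _ (rot_ball_DPA6 hc u hz)

end Pool.Agent.PWD.Loc
end
end

-- part Pool.Agent.P.MP_65ad7c_ag.DPA7
section

/-! Integration along rays in the punctured plane. -/

open Set Filter Topology TopologicalSpace MeasureTheory Metric
open scoped ContDiff ComplexConjugate

noncomputable section
namespace Pool.Agent.PWD.Loc

variable {d : ℕ} {F : Type} [NormedAddCommGroup F] [NormedSpace ℂ F] {Ω : Opens (E d)}
  {z c : E d} {k l : Fin d} {i j : Fin d × Bool}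

/-- the radial flow -/
def fl_DPA7 (k : Fin d) (t : ℝ) (z : E d) : E d :=
  Function.update z k (((Real.exp t : ℝ) : ℂ) * z k)

/-- the logarithmic radius -/
def lg_DPA7 (k : Fin d) (ρ : ℝ) (z : E d) : ℝ := Real.log (‖z k‖ / ρ)

theorem fl_self_DPA7 (t : ℝ) (z : E d) : fl_DPA7 k t z k = ((Real.exp t : ℝ) : ℂ) * z k :=
  Function.update_self _ _ _

theorem fl_ne_DPA7 (h : l ≠ k) (t : ℝ) (z : E d) : fl_DPA7 k t z l = z l :=
  Function.update_of_ne h _ _

theorem fl_zero_DPA7 (z : E d) : fl_DPA7 k 0 z = z := by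
  simp [fl_DPA7]

theorem fl_fl_DPA7 (s t : ℝ) (z : E d) : fl_DPA7 k s (fl_DPA7 k t z) = fl_DPA7 k (s + t) z := by
  funext l
  by_cases h : l = k
  · subst h
    rw [fl_self_DPA7, fl_self_DPA7, fl_self_DPA7, Real.exp_add]
    push_cast
    ring
  · rw [fl_ne_DPA7 h, fl_ne_DPA7 h, fl_ne_DPA7 h]

theorem fl_norm_DPA7 (t : ℝ) (z : E d) : ‖fl_DPA7 k t z k‖ = Real.exp t * ‖z k‖ := by
  rw [fl_self_DPA7, norm_mul, Complex.norm_real, Real.norm_of_nonneg (Real.exp_pos t).le]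

theorem lg_fl_DPA7 {ρ : ℝ} (hρ : 0 < ρ) (hz : z k ≠ 0) (t : ℝ) :
    lg_DPA7 k ρ (fl_DPA7 k t z) = t + lg_DPA7 k ρ z := by
  have h0 : 0 < ‖z k‖ := norm_pos_iff.2 hz
  rw [lg_DPA7, lg_DPA7, fl_norm_DPA7, mul_div_assoc,
    Real.log_mul (Real.exp_pos t).ne' (by positivity), Real.log_exp]

theorem fl_smooth_DPA7 (k : Fin d) : ContDiff ℝ ∞ fun p : ℝ × E d => fl_DPA7 k p.1 p.2 := by
  refine contDiff_pi.2 fun l => ?_
  by_cases h : l = k
  · subst h
    simp only [fl_self_DPA7]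
    exact (Complex.ofRealCLM.contDiff.comp (Real.contDiff_exp.comp contDiff_fst)).mul
      ((contDiff_apply ℝ ℂ l).comp contDiff_snd)
  · simp only [fl_ne_DPA7 h]
    exact (contDiff_apply ℝ ℂ l).comp contDiff_snd

theorem upd_deriv_DPA7 (z : E d) {a : ℝ → ℂ} {a' : ℂ} {t : ℝ} (h : HasDerivAt a a' t) :
    HasDerivAt (fun τ => Function.update z k (a τ)) (Pi.single k a' : E d) t := by
  refine hasDerivAt_pi.2 fun l => ?_
  by_cases hl : l = k
  · subst hl
    simpa using h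
  · simp only [Function.update_of_ne hl, Pi.single_eq_of_ne hl]
    exact hasDerivAt_const _ _

theorem fl_deriv_DPA7 (z : E d) (t : ℝ) :
    HasDerivAt (fun τ => fl_DPA7 k τ z) (Pi.single k (fl_DPA7 k t z k) : E d) t := by
  rw [fl_self_DPA7]
  exact upd_deriv_DPA7 z ((Real.hasDerivAt_exp t).ofReal_comp.mul_const (z k))

theorem curve_DPA7 {G : Type} [NormedAddCommGroup G] [NormedSpace ℝ G] {ψ : E d → G}
    (hψ : DifferentiableAt ℝ ψ z) {γ : ℝ → E d} {v : E d} {v' : G} (h0 : γ 0 = z)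
    (hγ : HasDerivAt γ v 0) (h : HasDerivAt (fun τ => ψ (γ τ)) v' 0) : fderiv ℝ ψ z v = v' := by
  have h1 : HasFDerivAt ψ (fderiv ℝ ψ z) (γ 0) := by
    rw [h0]
    exact hψ.hasFDerivAt
  exact (h1.comp_hasDerivAt 0 hγ).unique h

variable {al : Finset (Fin d)}

theorem fl_mem_DPA7 (hk : k ∈ al) (hz : z ∈ Rg al) (t : ℝ) : fl_DPA7 k t z ∈ Rg al :=
  Rg_update_ne hz (mul_ne_zero (by exact_mod_cast (Real.exp_pos t).ne') (mem_Rg.1 hz k hk))

theorem lg_smooth_DPA7 (hk : k ∈ al) {ρ : ℝ} (hρ : 0 < ρ) :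
    ContDiffOn ℝ ∞ (lg_DPA7 k ρ) (Rg al) := fun z hz => by
  have h0 : z k ≠ 0 := mem_Rg.1 hz k hk
  have h1 : 0 < ‖z k‖ := norm_pos_iff.2 h0
  have h2 : ContDiffAt ℝ ∞ (fun y : E d => ‖y k‖) z :=
    ContDiffAt.norm ℂ (contDiff_apply ℝ ℂ k).contDiffAt h0
  exact ((h2.div_const ρ).log (by positivity)).contDiffWithinAt

theorem iok_DPA7 (hk : k ∈ al) {ρ : ℝ} (hρ : 0 < ρ) :
    IOK (Rg al) (Icc (0 : ℝ) 1) (fun _ => 1)
      (fun u z => fl_DPA7 k (0 - lg_DPA7 k ρ z * u) z) where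
  compact := isCompact_Icc
  int := continuous_const.integrableOn_Icc
  smooth := by
    have h1 : ContDiffOn ℝ ∞ (fun p : ℝ × E d => lg_DPA7 k ρ p.2) (univ ×ˢ (Rg al : Set (E d))) :=
      (lg_smooth_DPA7 hk hρ).comp contDiff_snd.contDiffOn fun p hp => hp.2
    exact (fl_smooth_DPA7 k).comp_contDiffOn
      ((contDiffOn_const.sub (h1.mul contDiff_fst.contDiffOn)).prodMk contDiff_snd.contDiffOn)
  maps := fun _ _ hz => fl_mem_DPA7 hk hz _

theorem ret_smooth_DPA7 (hk : k ∈ al) {ρ : ℝ} (hρ : 0 < ρ) :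
    ContDiffOn ℝ ∞ (fun z => fl_DPA7 k (-lg_DPA7 k ρ z) z) (Rg al) :=
  (fl_smooth_DPA7 k).comp_contDiffOn ((lg_smooth_DPA7 hk hρ).neg.prodMk contDiffOn_id)

theorem orbit_deriv_DPA7 (hk : k ∈ al) (hc : c k = 0) (f : Fn (Rg al) F) (hz : z ∈ Rg al)
    (t : ℝ) :
    HasDerivAt (fun τ => f.1 (fl_DPA7 k τ z)) ((eu _ F c k f).1 (fl_DPA7 k t z)) t := by
  rw [eu_apply c k f (fl_mem_DPA7 hk hz t), hc, sub_zero]
  exact (Fn.diff f (fl_mem_DPA7 hk hz t)).hasFDerivAt.comp_hasDerivAt t (fl_deriv_DPA7 z t)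

theorem orbit_cont_DPA7 (hk : k ∈ al) (f : Fn (Rg al) F) (hz : z ∈ Rg al) :
    Continuous fun τ => f.1 (fl_DPA7 k τ z) :=
  continuous_iff_continuousAt.2 fun t =>
    (orbit_deriv_DPA7 (c := 0) hk rfl f hz t).continuousAt

variable [CompleteSpace F]

/-- the integral along the ray -/
def ray_DPA7 (al : Finset (Fin d)) (F : Type) [NormedAddCommGroup F] [NormedSpace ℂ F]
    (k : Fin d) (ρ : ℝ) : Module.End ℂ (Fn (Rg al) F) :=
  mul _ F (fun z => ((lg_DPA7 k ρ z : ℝ) : ℂ)) *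
    intg _ F (Icc (0 : ℝ) 1) (fun _ => 1) (fun u z => fl_DPA7 k (0 - lg_DPA7 k ρ z * u) z)

theorem ray_apply_DPA7 (hk : k ∈ al) {ρ : ℝ} (hρ : 0 < ρ) (f : Fn (Rg al) F) (hz : z ∈ Rg al) :
    (ray_DPA7 al F k ρ f).1 z = ∫ t in (-lg_DPA7 k ρ z)..0, f.1 (fl_DPA7 k t z) := by
  have hg : ContDiffOn ℝ ∞ (fun z => ((lg_DPA7 k ρ z : ℝ) : ℂ)) (Rg al) :=
    Complex.ofRealCLM.contDiff.comp_contDiffOn (lg_smooth_DPA7 hk hρ)
  rw [ray_DPA7, Module.End.mul_apply, mul_val hg]
  beta_reduce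
  rw [(iok_DPA7 hk hρ).apply f hz]
  simp only [one_smul]
  rw [integral_Icc_eq_integral_Ioc, ← intervalIntegral.integral_of_le zero_le_one,
    Complex.coe_smul,
    intervalIntegral.smul_integral_comp_sub_mul (fun t => f.1 (fl_DPA7 k t z))]
  simp

theorem ray_fl_DPA7 (hk : k ∈ al) {ρ : ℝ} (hρ : 0 < ρ) (f : Fn (Rg al) F) (hz : z ∈ Rg al)
    (τ : ℝ) : (ray_DPA7 al F k ρ f).1 (fl_DPA7 k τ z) =
      ∫ t in (-lg_DPA7 k ρ z)..τ, f.1 (fl_DPA7 k t z) := by
  rw [ray_apply_DPA7 hk hρ f (fl_mem_DPA7 hk hz τ), lg_fl_DPA7 hρ (mem_Rg.1 hz k hk)]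
  simp only [fl_fl_DPA7]
  rw [intervalIntegral.integral_comp_add_right (fun t => f.1 (fl_DPA7 k t z))]
  congr 1 <;> ring

theorem exists_ray (hk : k ∈ al) (hc : c k = 0) {r : ℝ} (hr : 0 < r) :
    ∃ S C : Module.End ℂ (Fn (Rg al) F),
      S * eu _ F c k = 1 - C ∧ eu _ F c k * S = 1 ∧ (∀ L, Commute C (cst _ L)) ∧
      (∀ i : Fin d × Bool, i.1 ≠ k → Commute C (xc _ F c i) ∧ Commute C (dw _ F i)) ∧
      (∀ l, l ≠ k → Commute C (evc _ F c l)) ∧ Commute C (th _ F c k) ∧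
      S ∈ Stb (Nb _ ⊥ (ball c r)) := by
  have hρ : 0 < r / 2 := by positivity
  have hψ := ret_smooth_DPA7 hk hρ
  have hm : MapsTo (fun z => fl_DPA7 k (-lg_DPA7 k (r / 2) z) z) (Rg al) (Rg al) :=
    fun z hz => fl_mem_DPA7 hk hz _
  have hd : ∀ z ∈ Rg al, DifferentiableAt ℝ (fun z => fl_DPA7 k (-lg_DPA7 k (r / 2) z) z) z :=
    fun z hz => (hψ.contDiffAt ((Rg al).isOpen.mem_nhds hz)).differentiableAt (by simp)
  refine ⟨ray_DPA7 al F k (r / 2), cmp _ F fun z => fl_DPA7 k (-lg_DPA7 k (r / 2) z) z,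
    ?_, ?_, fun L => cst_comm_cmp L _, fun i hi => ⟨?_, ?_⟩, fun l hl => ?_, ?_, ?_⟩
  · refine end_ext fun f z hz => ?_
    rw [Module.End.mul_apply, ray_apply_DPA7 hk hρ _ hz,
      intervalIntegral.integral_eq_sub_of_hasDerivAt
        (fun t _ => orbit_deriv_DPA7 hk hc f hz t)
        ((orbit_cont_DPA7 hk _ hz).intervalIntegrable _ _), fl_zero_DPA7,
      LinearMap.sub_apply, Submodule.coe_sub, Pi.sub_apply, cmp_apply hψ hm f hz]
    rfl
  · refine end_ext fun f z hz => ?_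
    have h1 := orbit_deriv_DPA7 hk hc (ray_DPA7 al F k (r / 2) f) hz 0
    simp only [ray_fl_DPA7 hk hρ f hz] at h1
    have h2 := intervalIntegral.integral_hasDerivAt_right
      ((orbit_cont_DPA7 hk f hz).intervalIntegrable (-lg_DPA7 k (r / 2) z) 0)
      ((orbit_cont_DPA7 hk f hz).stronglyMeasurableAtFilter _ _)
      (orbit_cont_DPA7 hk f hz).continuousAt
    have h3 := h1.unique h2
    rw [fl_zero_DPA7] at h3
    exact h3
  · refine cmp_comm_mul hψ ?_ fun z _ => ?_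
    · exact ((cov i).contDiff.comp (contDiff_id.sub contDiff_const)).contDiffOn
    · obtain ⟨l, b⟩ := i
      cases b
      · rw [cov_false, cov_false, Pi.sub_apply, Pi.sub_apply, fl_ne_DPA7 hi]
      · rw [cov_true, cov_true, Pi.sub_apply, Pi.sub_apply, fl_ne_DPA7 hi]
  · refine cmp_comm_dw hψ fun z hz t => ?_
    have ha : HasDerivAt (fun τ : ℝ => z i.1 + (τ : ℂ) * t) t 0 := by
      simpa using ((hasDerivAt_id (0 : ℝ)).ofReal_comp.mul_const t).const_add (z i.1)
    refine curve_DPA7 (hd z hz) (γ := fun τ : ℝ => Function.update z i.1 (z i.1 + (τ : ℂ) * t))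
      (by simp) (upd_deriv_DPA7 z ha) ?_
    refine (upd_deriv_DPA7 (k := i.1) (fl_DPA7 k (-lg_DPA7 k (r / 2) z) z) ha).congr_of_eventuallyEq
      (Eventually.of_forall fun τ => ?_)
    simp only [fl_DPA7, lg_DPA7, Function.update_of_ne (Ne.symm hi)]
    exact Function.update_comm hi _ _ _
  · refine cmp_comm_cmp hψ (update_contDiff l (c l)).contDiffOn fun z _ => ?_
    simp only [fl_DPA7, lg_DPA7, Function.update_of_ne (Ne.symm hl)]
    exact Function.update_comm hl _ _ _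
  · refine cmp_comm_field hψ (X := fun z => Pi.single k (Complex.I * (z k - c k)))
      (fun f z hz => th_apply c k f hz) fun z hz => ?_
    have ha : HasDerivAt (fun τ : ℝ => Complex.exp ((τ : ℂ) * Complex.I) * z k)
        (Complex.I * z k) 0 := by
      simpa using (((hasDerivAt_id (0 : ℝ)).ofReal_comp.mul_const Complex.I).cexp).mul_const (z k)
    simp only [hc, sub_zero]
    refine curve_DPA7 (hd z hz)
      (γ := fun τ : ℝ => Function.update z k (Complex.exp ((τ : ℂ) * Complex.I) * z k))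
      (by simp) (upd_deriv_DPA7 z ha) ?_
    have hb := upd_deriv_DPA7 (k := k) z
      (ha.const_mul ((Real.exp (-lg_DPA7 k (r / 2) z) : ℝ) : ℂ))
    rw [fl_self_DPA7, mul_left_comm]
    refine hb.congr_of_eventuallyEq (Eventually.of_forall fun τ => ?_)
    simp only [fl_DPA7, lg_DPA7, Function.update_self, Function.update_idem, norm_mul,
      Complex.norm_exp_ofReal_mul_I, one_mul]
  · intro f hf z hzb
    by_cases hz : z ∈ Rg al
    · rw [ray_apply_DPA7 hk hρ f hz, Submodule.mem_bot]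
      have h0 : 0 < ‖z k‖ := norm_pos_iff.2 (mem_Rg.1 hz k hk)
      have h1 : ‖z k‖ < r := by
        have h2 : dist (z k) (c k) < r := (dist_le_pi_dist z c k).trans_lt (mem_ball.1 hzb)
        rwa [hc, dist_zero_right] at h2
      rw [intervalIntegral.integral_congr (g := fun _ => (0 : F)) fun t ht => ?_]
      · simp
      · refine (Submodule.mem_bot ℂ).1 (hf _ (update_mem_ball hzb ?_))
        rw [hc, sub_zero, ← fl_self_DPA7, fl_norm_DPA7]
        rcases mem_uIcc.1 ht with h | h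
        · have h3 : Real.exp t ≤ 1 := Real.exp_le_one_iff.2 h.2
          nlinarith
        · have h3 : Real.exp t ≤ Real.exp (-lg_DPA7 k (r / 2) z) := Real.exp_le_exp.2 h.2
          rw [lg_DPA7, Real.exp_neg, Real.exp_log (by positivity), inv_div,
            le_div_iff₀ h0] at h3
          linarith
    · rw [Fn.zero _ hz]
      exact Submodule.zero_mem _

end Pool.Agent.PWD.Loc
end
end

-- part Pool.Agent.P.MP_65ad7c_ag.DPA8
section

/-! Solution of the Cauchy-Riemann equation in one variable. -/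

open Set Filter Topology TopologicalSpace MeasureTheory Metric
open scoped ContDiff ComplexConjugate

noncomputable section
namespace Pool.Agent.PWD.Loc

variable {d : ℕ} {F : Type} [NormedAddCommGroup F] [NormedSpace ℂ F] {Ω : Opens (E d)}
  {z c : E d} {k l : Fin d} {i j : Fin d × Bool}

/-- a fixed bump function -/
def chi_DPA8 : ContDiffBump (0 : ℂ) := ⟨1, 2, one_pos, one_lt_two⟩

/-- the rescaled bump function -/
def cut_DPA8 (a : ℂ) (ρ : ℝ) (t : ℂ) : ℂ := (chi_DPA8 (ρ⁻¹ • (t - a)) : ℝ)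

theorem cut_smooth_DPA8 (a : ℂ) (ρ : ℝ) : ContDiff ℝ ∞ (cut_DPA8 a ρ) :=
  Complex.ofRealCLM.contDiff.comp
    (chi_DPA8.contDiff.comp ((contDiff_id.sub contDiff_const).const_smul ρ⁻¹))

theorem cut_one_DPA8 {a t : ℂ} {ρ : ℝ} (hρ : 0 < ρ) (h : ‖t - a‖ ≤ ρ) : cut_DPA8 a ρ t = 1 := by
  rw [cut_DPA8, chi_DPA8.one_of_mem_closedBall, Complex.ofReal_one]
  rw [mem_closedBall_zero_iff, norm_smul, norm_inv, Real.norm_of_nonneg hρ.le,
    inv_mul_le_iff₀ hρ]
  simpa [chi_DPA8] using h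

theorem cut_zero_DPA8 {a t : ℂ} {ρ : ℝ} (hρ : 0 < ρ) (h : 2 * ρ ≤ ‖t - a‖) :
    cut_DPA8 a ρ t = 0 := by
  rw [cut_DPA8, chi_DPA8.zero_of_le_dist, Complex.ofReal_zero]
  rw [dist_zero_right, norm_smul, norm_inv, Real.norm_of_nonneg hρ.le, le_inv_mul_iff₀ hρ]
  simpa [chi_DPA8, mul_comm] using h

theorem g_smooth_DPA8 (a : ℂ) (ρ : ℝ) (k : Fin d) :
    ContDiff ℝ ∞ fun z : E d => cut_DPA8 a ρ (z k) :=
  (cut_smooth_DPA8 a ρ).comp (contDiff_apply ℝ ℂ k)

theorem g_fderiv_DPA8 (a : ℂ) (ρ : ℝ) (h : i.1 ≠ k) (z : E d) :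
    wv i (fderiv ℝ (fun z : E d => cut_DPA8 a ρ (z k)) z) = 0 := by
  rw [← wv_zero (G := ℂ) i]
  refine wv_congr fun t => ?_
  have h1 : HasFDerivAt (fun z : E d => z k) (ContinuousLinearMap.proj k : E d →L[ℝ] ℂ) z :=
    (ContinuousLinearMap.proj k : E d →L[ℝ] ℂ).hasFDerivAt
  have h2 := ((cut_smooth_DPA8 a ρ).differentiable (by simp) (z k)).hasFDerivAt.comp z h1
  have h3 : fderiv ℝ (fun z : E d => cut_DPA8 a ρ (z k)) z = _ := h2.fderiv
  rw [h3]
  simp [Pi.single_eq_of_ne h.symm]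

theorem iok_DPA8 (k : Fin d) : IOK (⊤ : Opens (E d)) (closedBall (0 : ℂ) 1)
    (fun w => ((Real.pi : ℂ) * w)⁻¹) (fun w z => z - Pi.single k w) where
  compact := isCompact_closedBall _ _
  int := by
    have h : IntegrableOn (fun w : ℂ => w⁻¹) (ball 0 2) := by
      refine integrableOn_ball_of_norm_le_rpow (C := 1) (α := 1) (by simp) (by simp) ?_ ?_
      · exact ae_of_all _ fun w => by simp [Real.rpow_neg_one]
      · exact measurable_inv.aestronglyMeasurable
    simp only [mul_inv]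
    exact (h.mono_set (closedBall_subset_ball one_lt_two)).const_mul _
  smooth := (contDiff_snd.sub
    ((ContinuousLinearMap.single ℝ (fun _ : Fin d => ℂ) k).contDiff.comp contDiff_fst)).contDiffOn
  maps _ _ _ := trivial

variable [CompleteSpace F]

theorem key_DPA8 (G : Fn (⊤ : Opens (E d)) F) (z : E d) (k : Fin d)
    (h0 : ∀ w : ℂ, 3 / 4 ≤ ‖w‖ → G.1 (z - Pi.single k w) = 0) :
    ∫ w in closedBall (0 : ℂ) 1, ((Real.pi : ℂ) * w)⁻¹ •
      (dw ⊤ F (k, true) G).1 (z - Pi.single k w) = G.1 z := by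
  have hs : ∀ H : Fn (⊤ : Opens (E d)) F, ContDiff ℝ ∞ H.1 := fun H =>
    contDiff_iff_contDiffAt.2 fun y => Fn.cda H trivial
  let σ : ℂ →L[ℝ] E d := ContinuousLinearMap.single ℝ (fun _ : Fin d => ℂ) k
  have hφ : ContDiff ℝ ∞ fun w : ℂ => z - Pi.single k w := contDiff_const.sub σ.contDiff
  rw [SeparatingDual.eq_iff_forall_dual_eq (R := ℂ)]
  intro ℓ
  have hc : Continuous fun w : ℂ => (dw ⊤ F (k, true) G).1 (z - Pi.single k w) :=
    (hs _).continuous.comp hφ.continuous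
  rw [← ContinuousLinearMap.integral_comp_comm _ ((iok_DPA8 k).integrable hc.continuousOn)]
  let h : ℂ → ℂ := fun w => ℓ (G.1 (z - Pi.single k w))
  have h1 : ContDiff ℝ 1 h :=
    ((ℓ.restrictScalars ℝ).contDiff.comp ((hs G).comp hφ)).of_le (by exact_mod_cast le_top)
  have h2 : HasCompactSupport h := by
    refine HasCompactSupport.intro (isCompact_closedBall (0 : ℂ) 1) fun w hw => ?_
    rw [mem_closedBall_zero_iff, not_le] at hw
    simp only [h, h0 w (by linarith), map_zero]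
  have h3 : ∀ w, Pool.Agent.Lib.Mergelyan.dbar h w =
      -ℓ ((dw ⊤ F (k, true) G).1 (z - Pi.single k w)) := by
    intro w
    have a1 : HasFDerivAt (fun w : ℂ => z - Pi.single k w) (-σ) w := σ.hasFDerivAt.const_sub z
    have a2 := (ℓ.restrictScalars ℝ).hasFDerivAt.comp w
      ((Fn.diff G (z := z - Pi.single k w) trivial).hasFDerivAt.comp w a1)
    have a3 : fderiv ℝ h w = _ := a2.fderiv
    have a4 : ∀ y : E d, (dw ⊤ F (k, true) G).1 y = wv (k, true) (fderiv ℝ G.1 y) :=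
      fun y => dw_apply _ G trivial
    rw [a4, Pool.Agent.Lib.Mergelyan.dbar, a3]
    simp [wv, σ]
    ring
  have h4 := Pool.Agent.Lib.Mergelyan.pompeiu_zero h1 h2
  have hpi : (Real.pi : ℂ) ≠ 0 := by exact_mod_cast Real.pi_ne_zero
  have h5 : ∀ w, ℓ (((Real.pi : ℂ) * w)⁻¹ • (dw ⊤ F (k, true) G).1 (z - Pi.single k w)) =
      -(Real.pi : ℂ)⁻¹ * (Pool.Agent.Lib.Mergelyan.dbar h w * w⁻¹) := by
    intro w
    rw [h3, map_smul, smul_eq_mul, mul_inv]
    ring
  simp only [h5]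
  rw [setIntegral_eq_integral_of_forall_compl_eq_zero, integral_const_mul, h4]
  · simp only [h, Pi.single_zero, sub_zero]
    field_simp
  · intro w hw
    rw [mem_closedBall_zero_iff, not_le] at hw
    have : h =ᶠ[𝓝 w] fun _ => 0 := by
      have ho : IsOpen {u : ℂ | 3 / 4 < ‖u‖} := isOpen_lt continuous_const continuous_norm
      filter_upwards [ho.mem_nhds (show 3 / 4 < ‖w‖ by linarith)] with u hu
      simp only [h, h0 u (le_of_lt hu), map_zero]
    rw [Pool.Agent.Lib.Mergelyan.dbar_eq_zero_of_eventuallyEq this, zero_mul, mul_zero]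

theorem exists_db (c : E d) (k : Fin d) : ∃ S : ℝ → Module.End ℂ (Fn (⊤ : Opens (E d)) F),
    (∀ ρ L, Commute (S ρ) (cst _ L)) ∧
    (∀ ρ (i : Fin d × Bool), i.1 ≠ k → Commute (S ρ) (xc _ F c i) ∧ Commute (S ρ) (dw _ F i)) ∧
    (∀ ρ l, l ≠ k → Commute (S ρ) (evc _ F c l)) ∧
    (∀ f, ∀ᶠ ρ in 𝓝[>] (0 : ℝ), dw _ F (k, true) (S ρ f) - f ∈ Ng _ ⊥ c) ∧
    ∀ C : Submodule ℂ F, IsClosed (C : Set F) → Stab S (Ng _ C c) (Ng _ C c) := by
  have hI := iok_DPA8 k
  have hg := fun ρ => (g_smooth_DPA8 (c k) ρ k).contDiffOn (s := ((⊤ : Opens (E d)) : Set (E d)))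
  have hdw : ∀ i : Fin d × Bool, Commute (intg ⊤ F (closedBall (0 : ℂ) 1)
      (fun w => ((Real.pi : ℂ) * w)⁻¹) (fun w z => z - Pi.single k w)) (dw ⊤ F i) := fun i =>
    hI.comm_dw fun u z _ t => by
      rw [fderiv_sub_const]
      simp
  refine ⟨fun ρ => intg ⊤ F (closedBall (0 : ℂ) 1) (fun w => ((Real.pi : ℂ) * w)⁻¹)
    (fun w z => z - Pi.single k w) * mul ⊤ F fun z => cut_DPA8 (c k) ρ (z k), fun ρ L => ?_,
    fun ρ i hi => ⟨?_, ?_⟩, fun ρ l hl => ?_, fun f => ?_, fun C hC f hf => ?_⟩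
  · exact (hI.comm_cst L).mul_left (cst_comm_mul L _)
  · refine Commute.mul_left (hI.comm_mul ?_ fun u z _ => ?_) (mul_comm_mul _ _)
    · exact ((cov i).contDiff.comp (contDiff_id.sub contDiff_const)).contDiffOn
    · rw [sub_right_comm, map_sub (cov i) (z - c), cov_single_ne hi, sub_zero]
  · exact (hdw i).mul_left (mul_comm_dw (hg ρ) fun z _ => g_fderiv_DPA8 _ _ hi z)
  · refine Commute.mul_left (hI.comm_cmp (update_contDiff l (c l)).contDiffOn fun u z _ => ?_)
      (cmp_comm_mul (update_contDiff l (c l)).contDiffOn (hg ρ) fun z _ => ?_).symm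
    · funext m
      by_cases hm : m = l
      · subst hm
        simp [Pi.single_eq_of_ne hl]
      · simp [Function.update_of_ne hm]
    · rw [Function.update_of_ne hl.symm]
  · filter_upwards [Ioo_mem_nhdsGT (show (0 : ℝ) < 1 / 4 by norm_num)] with ρ hρ
    rw [mem_Ng]
    filter_upwards [ball_mem_nhds c hρ.1] with z hz
    have hzk : ‖z k - c k‖ ≤ ρ :=
      (norm_le_pi_norm (z - c) k).trans (mem_ball_iff_norm.1 hz).le
    rw [Submodule.mem_bot, Submodule.coe_sub, Pi.sub_apply, sub_eq_zero, Module.End.mul_apply,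
      ← Module.End.mul_apply, ← (hdw (k, true)).eq, Module.End.mul_apply, hI.apply _ trivial,
      key_DPA8, mul_val (hg ρ)]
    · simp only [cut_one_DPA8 hρ.1 hzk, one_smul]
    · intro w hw
      rw [mul_val (hg ρ)]
      simp only
      rw [cut_zero_DPA8 hρ.1, zero_smul]
      have h1 := norm_sub_norm_le w (z k - c k)
      have h2 : (z - Pi.single k w : E d) k - c k = -(w - (z k - c k)) := by
        simp only [Pi.sub_apply, Pi.single_eq_same]; ring
      rw [h2, norm_neg]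
      linarith [hρ.2]
  · obtain ⟨r, hr, hf⟩ := mem_Ng_iff.1 hf
    filter_upwards [Ioo_mem_nhdsGT (half_pos hr)] with ρ hρ
    refine mem_Ng_iff.2 ⟨r, hr, fun z hz => ?_⟩
    rw [Module.End.mul_apply]
    refine hI.mem hC _ fun u _ => ?_
    rw [mul_val (hg ρ)]
    simp only
    by_cases h : 2 * ρ ≤ ‖(z - Pi.single k u : E d) k - c k‖
    · rw [cut_zero_DPA8 hρ.1 h, zero_smul]
      exact C.zero_mem
    · refine C.smul_mem _ (hf _ ?_)
      have e : (z - Pi.single k u : E d) = Function.update z k ((z - Pi.single k u : E d) k) := by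
        funext m
        by_cases hm : m = k
        · subst hm
          simp
        · simp [Function.update_of_ne hm, Pi.single_eq_of_ne hm]
      rw [e]
      exact update_mem_ball hz (by linarith [not_le.1 h, hρ.2])

end Pool.Agent.PWD.Loc
end
end

-- part Pool.Agent.P.MP_65ad7c_ag.DPG2
section

/-! Operators that live at one site. -/

noncomputable section
namespace Pool.Agent.PWD.Loc

variable {K R : Type} [DecidableEq K] [Ring R] [Algebra ℂ R]

namespace Site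
variable (s : Site K R) {i j : K × Bool} {k l : K} {T T' : R} {po : Finset (K × Bool)}

theorem mem_Out : T ∈ s.Out k ↔ (∀ i : K × Bool, i.1 ≠ k → Commute T (s.a i) ∧
    Commute T (s.b i) ∧ Commute T (s.x i) ∧ Commute T (s.D i)) ∧
    ∀ l, l ≠ k → Commute T (s.ev l) := by
  rw [Out, Subalgebra.mem_centralizer_iff]
  constructor
  · intro h
    refine ⟨fun i hi => ⟨?_, ?_, ?_, ?_⟩, fun l hl => ?_⟩
    · exact (h _ ⟨i.1, hi, Or.inl ⟨i.2, Or.inl rfl⟩⟩).symm
    · exact (h _ ⟨i.1, hi, Or.inl ⟨i.2, Or.inr (Or.inl rfl)⟩⟩).symm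
    · exact (h _ ⟨i.1, hi, Or.inl ⟨i.2, Or.inr (Or.inr (Or.inl rfl))⟩⟩).symm
    · exact (h _ ⟨i.1, hi, Or.inl ⟨i.2, Or.inr (Or.inr (Or.inr rfl))⟩⟩).symm
    · exact (h _ ⟨l, hl, Or.inr rfl⟩).symm
  · rintro ⟨h, h'⟩ g ⟨l, hl, ⟨t, rfl | rfl | rfl | rfl⟩ | rfl⟩
    · exact (h (l, t) hl).1.symm
    · exact (h (l, t) hl).2.1.symm
    · exact (h (l, t) hl).2.2.1.symm
    · exact (h (l, t) hl).2.2.2.symm
    · exact (h' l hl).symm

theorem mem_FOut : T ∈ s.FOut k ↔ (∀ i, Commute T (s.a i) ∧ Commute T (s.b i)) ∧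
    (∀ i : K × Bool, i.1 ≠ k → Commute T (s.x i) ∧ Commute T (s.D i)) ∧
    ∀ l, l ≠ k → Commute T (s.ev l) := by
  rw [FOut, Algebra.mem_inf, mem_Out, Subalgebra.mem_centralizer_iff]
  constructor
  · rintro ⟨⟨h, h'⟩, h''⟩
    exact ⟨fun i => ⟨(h'' _ (Or.inl ⟨i, rfl⟩)).symm, (h'' _ (Or.inr ⟨i, rfl⟩)).symm⟩,
      fun i hi => (h i hi).2.2, h'⟩
  · rintro ⟨h, h', h''⟩
    refine ⟨⟨fun i hi => ⟨(h i).1, (h i).2, h' i hi⟩, h''⟩, ?_⟩
    rintro g (⟨i, rfl⟩ | ⟨i, rfl⟩)
    · exact (h i).1.symm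
    · exact (h i).2.symm

theorem FOut_le (k : K) : s.FOut k ≤ s.Out k := inf_le_left

/-- a subalgebra that contains the generators contains `In k` -/
theorem In_le {A : Subalgebra ℂ R} (ha : ∀ t, s.a (k, t) ∈ A) (hb : ∀ t, s.b (k, t) ∈ A)
    (hx : ∀ t, s.x (k, t) ∈ A) (hD : ∀ t, s.D (k, t) ∈ A) (he : s.ev k ∈ A) : s.In k ≤ A := by
  refine Algebra.adjoin_le ?_
  rintro g (⟨t, rfl | rfl | rfl | rfl⟩ | rfl)
  · exact ha t
  · exact hb t
  · exact hx t
  · exact hD t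
  · exact he

omit [DecidableEq K] in
theorem mem_cent_DPG2 {g : R} (h : Commute T g) : g ∈ Subalgebra.centralizer ℂ {T} := by
  rw [Subalgebra.mem_centralizer_iff]
  rintro _ rfl
  exact h

theorem commute_of_Out (h : T ∈ s.Out k) (h' : T' ∈ s.In l) (hl : l ≠ k) : Commute T T' := by
  obtain ⟨h1, h2⟩ := s.mem_Out.1 h
  have h3 : s.In l ≤ Subalgebra.centralizer ℂ {T} :=
    s.In_le (fun t => mem_cent_DPG2 (h1 (l, t) hl).1) (fun t => mem_cent_DPG2 (h1 (l, t) hl).2.1)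
      (fun t => mem_cent_DPG2 (h1 (l, t) hl).2.2.1) (fun t => mem_cent_DPG2 (h1 (l, t) hl).2.2.2)
      (mem_cent_DPG2 (h2 l hl))
  exact (Subalgebra.mem_centralizer_iff ℂ).1 (h3 h') T rfl

theorem a_In (i : K × Bool) : s.a i ∈ s.In i.1 :=
  Algebra.subset_adjoin (Or.inl ⟨i.2, Or.inl rfl⟩)
theorem b_In (i : K × Bool) : s.b i ∈ s.In i.1 :=
  Algebra.subset_adjoin (Or.inl ⟨i.2, Or.inr (Or.inl rfl)⟩)
theorem x_In (i : K × Bool) : s.x i ∈ s.In i.1 :=
  Algebra.subset_adjoin (Or.inl ⟨i.2, Or.inr (Or.inr (Or.inl rfl))⟩)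
theorem D_In (i : K × Bool) : s.D i ∈ s.In i.1 :=
  Algebra.subset_adjoin (Or.inl ⟨i.2, Or.inr (Or.inr (Or.inr rfl))⟩)
theorem ev_In (k : K) : s.ev k ∈ s.In k := Algebra.subset_adjoin (Or.inr rfl)
theorem n_In (i : K × Bool) : s.n i ∈ s.In i.1 := mul_mem (s.a_In i) (s.b_In i)
theorem X_In (i : K × Bool) : s.X po i ∈ s.In i.1 := by
  unfold X
  split_ifs
  · exact mul_mem (s.x_In i) (s.D_In i)
  · exact s.D_In i
theorem Z_In (i : K × Bool) : s.Z i ∈ s.In i.1 :=
  add_mem (one_mem _) (mul_mem (sub_mem (s.x_In i) (one_mem _)) (s.n_In i))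
theorem Eu_In (k : K) : s.Eu k ∈ s.In k :=
  add_mem (mul_mem (s.x_In (k, false)) (s.D_In (k, false)))
    (mul_mem (s.x_In (k, true)) (s.D_In (k, true)))
theorem Th_In (k : K) : s.Th k ∈ s.In k :=
  Subalgebra.smul_mem _ (sub_mem (mul_mem (s.x_In (k, false)) (s.D_In (k, false)))
    (mul_mem (s.x_In (k, true)) (s.D_In (k, true)))) _
theorem Q_In (k : K) : s.Q k ∈ s.In k :=
  mul_mem (s.ev_In k) (sub_mem (one_mem _) (s.n_In (k, true)))
theorem P_In (k : K) : s.P k ∈ s.In k :=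
  mul_mem (s.Q_In k) (sub_mem (one_mem _) (s.n_In (k, false)))
theorem Rs_In (k : K) : s.Rs k ∈ s.In k := mul_mem (s.Q_In k) (s.n_In (k, false))
theorem Ee_In (k : K) : s.Ee k ∈ s.In k := mul_mem (s.ev_In k) (s.n_In (k, false))

omit [Algebra ℂ R] in
theorem D_x_DPG2 (h : i ≠ j) : Commute (s.D i) (s.x j) := by
  have := s.Dx i j
  rw [if_neg h, sub_eq_zero] at this
  exact this

omit [DecidableEq K] in
theorem ne_DPG2 (h : j.1 ≠ i.1) : i ≠ j := fun e => h (e ▸ rfl)

theorem x_FOut (i : K × Bool) : s.x i ∈ s.FOut i.1 :=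
  s.mem_FOut.2 ⟨fun j => ⟨s.xa i j, s.xb i j⟩,
    fun j hj => ⟨s.xx i j, (s.D_x_DPG2 (ne_DPG2 hj).symm).symm⟩,
    fun l hl => (s.evx l i hl.symm).symm⟩
theorem D_FOut (i : K × Bool) : s.D i ∈ s.FOut i.1 :=
  s.mem_FOut.2 ⟨fun j => ⟨s.Da i j, s.Db i j⟩,
    fun j hj => ⟨s.D_x_DPG2 (ne_DPG2 hj), s.DD i j⟩,
    fun l hl => (s.evD l i hl.symm).symm⟩
theorem ev_FOut (k : K) : s.ev k ∈ s.FOut k :=
  s.mem_FOut.2 ⟨fun j => ⟨s.eva k j, s.evb k j⟩,
    fun j hj => ⟨s.evx k j hj, s.evD k j hj⟩, fun l _ => s.evev k l⟩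
theorem X_FOut (i : K × Bool) : s.X po i ∈ s.FOut i.1 := by
  unfold X
  split_ifs
  · exact mul_mem (s.x_FOut i) (s.D_FOut i)
  · exact s.D_FOut i
theorem Eu_FOut (k : K) : s.Eu k ∈ s.FOut k :=
  add_mem (mul_mem (s.x_FOut (k, false)) (s.D_FOut (k, false)))
    (mul_mem (s.x_FOut (k, true)) (s.D_FOut (k, true)))
theorem Th_FOut (k : K) : s.Th k ∈ s.FOut k :=
  Subalgebra.smul_mem _ (sub_mem (mul_mem (s.x_FOut (k, false)) (s.D_FOut (k, false)))
    (mul_mem (s.x_FOut (k, true)) (s.D_FOut (k, true)))) _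

omit [Algebra ℂ R] in
theorem even_DPG2 {u v w : R} (hu : u * w = -(w * u)) (hv : v * w = -(w * v)) :
    Commute (u * v) w := by
  show u * v * w = w * (u * v)
  rw [mul_assoc, hv, mul_neg, ← mul_assoc, hu, neg_mul, neg_neg, mul_assoc]

theorem ab_Out (k : K) (t t' : Bool) : s.a (k, t) * s.b (k, t') ∈ s.Out k := by
  refine s.mem_Out.2 ⟨fun i hi => ⟨?_, ?_, ?_, ?_⟩, fun l _ => ?_⟩
  · exact even_DPG2 (s.toCAR.a_swap _ _) (s.toCAR.b_a_ne (ne_DPG2 (i := (k, t')) hi))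
  · refine even_DPG2 ?_ (s.toCAR.b_swap _ _)
    rw [s.toCAR.b_a_ne (ne_DPG2 (i := (k, t)) hi).symm, neg_neg]
  · exact ((s.xa i _).mul_right (s.xb i _)).symm
  · exact ((s.Da i _).mul_right (s.Db i _)).symm
  · exact ((s.eva l _).mul_right (s.evb l _)).symm
theorem n_Out (i : K × Bool) : s.n i ∈ s.Out i.1 := s.ab_Out i.1 i.2 i.2
theorem Z_Out (i : K × Bool) : s.Z i ∈ s.Out i.1 :=
  add_mem (one_mem _) (mul_mem (sub_mem (s.FOut_le _ (s.x_FOut i)) (one_mem _)) (s.n_Out i))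
theorem Q_Out (k : K) : s.Q k ∈ s.Out k :=
  mul_mem (s.FOut_le _ (s.ev_FOut k)) (sub_mem (one_mem _) (s.n_Out (k, true)))
theorem P_Out (k : K) : s.P k ∈ s.Out k :=
  mul_mem (s.Q_Out k) (sub_mem (one_mem _) (s.n_Out (k, false)))
theorem Rs_Out (k : K) : s.Rs k ∈ s.Out k := mul_mem (s.Q_Out k) (s.n_Out (k, false))
theorem Ee_Out (k : K) : s.Ee k ∈ s.Out k :=
  mul_mem (s.FOut_le _ (s.ev_FOut k)) (s.n_Out (k, false))
theorem FOut_n (h : T ∈ s.FOut k) (i : K × Bool) : Commute T (s.n i) :=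
  ((s.mem_FOut.1 h).1 i).1.mul_right ((s.mem_FOut.1 h).1 i).2
theorem Z_comm (i j : K × Bool) : Commute (s.Z i) (s.Z j) := by
  have h1 : Commute (s.x i - 1) (s.x j - 1) :=
    ((s.xx i j).sub_right (Commute.one_right _)).sub_left (Commute.one_left _)
  have h2 : ∀ i j, Commute (s.x i - 1) (s.n j) := fun i j =>
    (s.FOut_n (s.x_FOut i) j).sub_left (Commute.one_left _)
  have h3 : Commute ((s.x i - 1) * s.n i) ((s.x j - 1) * s.n j) :=
    (h1.mul_right (h2 i j)).mul_left ((h2 j i).symm.mul_right (s.toCAR.n_comm i j))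
  exact (Commute.one_left _).add_left ((Commute.one_right _).add_right h3)
theorem P_comm (k l : K) : Commute (s.P k) (s.P l) := by
  by_cases h : l = k
  · rw [h]
  · exact s.commute_of_Out (s.P_Out k) (s.P_In l) h
theorem Rs_comm (k l : K) : Commute (s.Rs k) (s.Rs l) := by
  by_cases h : l = k
  · rw [h]
  · exact s.commute_of_Out (s.Rs_Out k) (s.Rs_In l) h
theorem X_comm (i j : K × Bool) : Commute (s.X po i) (s.X po j) := by
  by_cases h : i = j
  · rw [h]
  · have h1 := s.D_x_DPG2 h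
    have h2 := (s.D_x_DPG2 (Ne.symm h)).symm
    have h3 := s.xx i j
    have h4 := s.DD i j
    unfold X
    split_ifs
    · exact (h3.mul_right h2).mul_left (h1.mul_right h4)
    · exact h2.mul_left h4
    · exact h1.mul_right h4
    · exact h4
theorem X_a (i j : K × Bool) : Commute (s.X po i) (s.a j) :=
  ((s.mem_FOut.1 (s.X_FOut i)).1 j).1
theorem X_b (i j : K × Bool) : Commute (s.X po i) (s.b j) :=
  ((s.mem_FOut.1 (s.X_FOut i)).1 j).2
/-- an inverse commutes with everything the element commutes with -/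
theorem commute_inv {A I : R} (hl : I * A = 1) (hr : A * I = 1) (h : Commute T A) :
    Commute T I := by
  show T * I = I * T
  calc T * I = I * A * T * I := by rw [hl, one_mul]
    _ = I * T * (A * I) := by rw [mul_assoc I A, ← h.eq, ← mul_assoc, ← mul_assoc]
    _ = I * T := by rw [hr, mul_one]

end Site

end Pool.Agent.PWD.Loc
end
end

-- part Pool.Agent.P.MP_65ad7c_ag.DPG3
section

/-! The exterior derivative in a logarithmic frame. -/

noncomputable section
namespace Pool.Agent.PWD.Loc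

variable {K R : Type} [DecidableEq K] [Ring R] [Algebra ℂ R]

theorem half_DPG3 {y : R} (h : y + y = 0) : y = 0 := by
  have e : y = (2 : ℂ)⁻¹ • (y + y) := by rw [← two_smul ℂ y, smul_smul]; simp
  rw [e, h, smul_zero]

omit [Algebra ℂ R] in
theorem eux_DPG3 {x D x' D' : R} (h1 : D * x - x * D = 1) (h2 : D' * x - x * D' = 0)
    (h3 : Commute x x') : (x * D + x' * D') * x = x * (x * D + x' * D' + 1) := by
  linear_combination (norm := noncomm_ring) x * h1 + x' * h2 - h3.eq * D'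

omit [Algebra ℂ R] in
theorem deu_DPG3 {x D x' D' : R} (h1 : D * x - x * D = 1) (h2 : D * x' - x' * D = 0)
    (h3 : Commute D D') : D * (x * D + x' * D') = (x * D + x' * D' + 1) * D := by
  linear_combination (norm := noncomm_ring) h1 * D + h2 * D' + x' * h3.eq

namespace Site
variable (s : Site K R) {i j : K × Bool} {k l : K} {T T' : R} {po : Finset (K × Bool)}

omit [Algebra ℂ R] in
theorem xn_DPG3 (i j : K × Bool) : Commute (s.x i) (s.n j) := (s.xa i j).mul_right (s.xb i j)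

omit [Algebra ℂ R] in
theorem Dn_DPG3 (i j : K × Bool) : Commute (s.D i) (s.n j) := (s.Da i j).mul_right (s.Db i j)

omit [Algebra ℂ R] in
theorem evn_DPG3 (k : K) (j : K × Bool) : Commute (s.ev k) (s.n j) :=
  (s.eva k j).mul_right (s.evb k j)

theorem Xn_DPG3 (i j : K × Bool) : Commute (s.X po i) (s.n j) :=
  (s.X_a i j).mul_right (s.X_b i j)

theorem Qa_DPG3 (k : K) : Commute (s.Q k) (s.a (k, false)) :=
  (s.eva k _).mul_left ((Commute.one_left _).sub_left (s.n_a_ne (by simp)))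

theorem Qb_DPG3 (k : K) : Commute (s.Q k) (s.b (k, false)) :=
  (s.evb k _).mul_left ((Commute.one_left _).sub_left (s.n_b_ne (by simp)))

theorem Qn_DPG3 (k : K) : Commute (s.Q k) (s.n (k, false)) :=
  (s.Qa_DPG3 k).mul_right (s.Qb_DPG3 k)

theorem Za_DPG3 (i : K × Bool) : s.Z i * s.a i = s.x i * s.a i := by
  have h := s.n_a i
  unfold Z
  linear_combination (norm := noncomm_ring) (s.x i - 1) * h

theorem aX_DPG3 (i j : K × Bool) :
    s.a i * (s.a j * s.X po j) + s.a j * s.X po j * s.a i = 0 := by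
  have h1 := s.aa i j
  have h2 := (s.X_a (po := po) j i).eq
  linear_combination (norm := noncomm_ring) h1 * s.X po j + s.a j * h2

theorem bX_DPG3 (i j : K × Bool) : s.b i * (s.a j * s.X po j) + s.a j * s.X po j * s.b i =
    if i = j then s.X po j else 0 := by
  have h1 := s.car i j
  have h2 := (s.X_b (po := po) j i).eq
  split_ifs at h1 ⊢
  · linear_combination (norm := noncomm_ring) h1 * s.X po j + s.a j * h2
  · linear_combination (norm := noncomm_ring) h1 * s.X po j + s.a j * h2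

end Site

namespace Site
variable (s : Site K R) {i j : K × Bool} {k l : K} {T T' : R} {po : Finset (K × Bool)}
section fin
variable [Fintype K]

theorem δ_split (po : Finset (K × Bool)) (k : K) : s.δ po =
    s.a (k, false) * s.X po (k, false) + s.a (k, true) * s.X po (k, true) + s.δo po k := by
  have h : (Finset.univ.filter fun i : K × Bool => i.1 = k) = {(k, false), (k, true)} := by
    ext ⟨l, t⟩
    cases t <;> simp
  rw [δ, δo, ← Finset.sum_filter_add_sum_filter_not Finset.univ (fun i : K × Bool => i.1 = k), h,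
    Finset.sum_pair (by simp)]
theorem δ_δ (po : Finset (K × Bool)) : s.δ po * s.δ po = 0 := by
  refine half_DPG3 ?_
  rw [δ, Finset.sum_mul_sum]
  nth_rewrite 2 [Finset.sum_comm]
  rw [← Finset.sum_add_distrib]
  refine Finset.sum_eq_zero fun i _ => ?_
  rw [← Finset.sum_add_distrib]
  refine Finset.sum_eq_zero fun j _ => ?_
  have h1 := s.aa i j
  have h2 := (s.X_a (po := po) i j).eq
  have h3 := (s.X_a (po := po) j i).eq
  have h4 := (s.X_comm (po := po) j i).eq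
  linear_combination (norm := noncomm_ring) h1 * (s.X po i * s.X po j) + s.a i * h2 * s.X po j +
    s.a j * h3 * s.X po i + s.a j * s.a i * h4
theorem a_δ (po : Finset (K × Bool)) (i : K × Bool) : s.a i * s.δ po + s.δ po * s.a i = 0 := by
  rw [δ, Finset.mul_sum, Finset.sum_mul, ← Finset.sum_add_distrib]
  exact Finset.sum_eq_zero fun j _ => s.aX_DPG3 i j
theorem b_δ (po : Finset (K × Bool)) (i : K × Bool) :
    s.b i * s.δ po + s.δ po * s.b i = s.X po i := by
  rw [δ, Finset.mul_sum, Finset.sum_mul, ← Finset.sum_add_distrib,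
    Finset.sum_congr rfl fun j _ => s.bX_DPG3 i j]
  simp
theorem X_δ (po : Finset (K × Bool)) (i : K × Bool) : Commute (s.X po i) (s.δ po) :=
  Commute.sum_right _ _ _ fun j _ => (s.X_a i j).mul_right (s.X_comm i j)
theorem a_δo (po : Finset (K × Bool)) (k : K) (t : Bool) :
    s.a (k, t) * s.δo po k + s.δo po k * s.a (k, t) = 0 := by
  rw [δo, Finset.mul_sum, Finset.sum_mul, ← Finset.sum_add_distrib]
  exact Finset.sum_eq_zero fun j _ => s.aX_DPG3 _ j
theorem b_δo (po : Finset (K × Bool)) (k : K) (t : Bool) :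
    s.b (k, t) * s.δo po k + s.δo po k * s.b (k, t) = 0 := by
  rw [δo, Finset.mul_sum, Finset.sum_mul, ← Finset.sum_add_distrib]
  refine Finset.sum_eq_zero fun j hj => ?_
  rw [s.bX_DPG3, if_neg]
  rintro rfl
  exact (Finset.mem_filter.1 hj).2 rfl
theorem Out_δo (h : T ∈ s.Out k) (po : Finset (K × Bool)) : Commute T (s.δo po k) :=
  Commute.sum_right _ _ _ fun j hj =>
    s.commute_of_Out h (mul_mem (s.a_In j) (s.X_In j)) (Finset.mem_filter.1 hj).2
theorem δ_mem {A : Subalgebra ℂ R} (ha : ∀ i, s.a i ∈ A) (hx : ∀ i, s.x i ∈ A)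
    (hD : ∀ i, s.D i ∈ A) (po : Finset (K × Bool)) : s.δ po ∈ A := by
  refine sum_mem fun i _ => mul_mem (ha i) ?_
  unfold X
  split_ifs
  · exact mul_mem (hx i) (hD i)
  · exact hD i
/-- change of frame -/
theorem δ_Z (h : i ∉ po) : s.δ (insert i po) * s.Z i = s.Z i * s.δ po := by
  rw [δ, δ, Finset.mul_sum, Finset.sum_mul]
  refine Finset.sum_congr rfl fun j _ => ?_
  by_cases hj : j = i
  · subst hj
    have h1 := s.Za_DPG3 j
    have h2 := s.a_n j
    have h3 := (s.xa j j).eq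
    have h4 : Commute (s.x j * s.D j * (s.x j - 1)) (s.n j) :=
      ((s.xn_DPG3 j j).mul_left (s.Dn_DPG3 j j)).mul_left
        ((s.xn_DPG3 j j).sub_left (Commute.one_left _))
    rw [X, X, if_pos (Finset.mem_insert_self _ _), if_neg h, ← mul_assoc (s.Z j), h1, Z]
    linear_combination (norm := noncomm_ring) s.a j * h4.eq +
      h2 * (s.x j * s.D j * (s.x j - 1)) - h3 * s.D j
  · have e : s.X (insert i po) j = s.X po j := by simp [X, hj]
    have hD : Commute (s.x i) (s.D j) := by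
      have h1 := s.Dx j i
      rw [if_neg hj, sub_eq_zero] at h1
      exact h1.symm
    have hX : Commute (s.x i) (s.X po j) := by
      unfold X
      split_ifs
      · exact (s.xx i j).mul_right hD
      · exact hD
    have h1 : Commute (s.x i) (s.a j * s.X po j) := (s.xa i j).mul_right hX
    have h2 : Commute (s.n i) (s.a j * s.X po j) :=
      (s.n_a_ne (Ne.symm hj)).mul_right (s.Xn_DPG3 j i).symm
    rw [e]
    exact (((Commute.one_left _).add_left
      ((h1.sub_left (Commute.one_left _)).mul_left h2)).eq).symm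


end fin

/-! ### sites that can be scaled -/

theorem Eu_x (k : K) (t : Bool) : s.Eu k * s.x (k, t) = s.x (k, t) * (s.Eu k + 1) := by
  cases t
  · exact eux_DPG3 (by simpa using s.Dx (k, false) (k, false))
      (by simpa using s.Dx (k, true) (k, false)) (s.xx _ _)
  · rw [Eu, add_comm (s.x (k, false) * s.D (k, false))]
    exact eux_DPG3 (by simpa using s.Dx (k, true) (k, true))
      (by simpa using s.Dx (k, false) (k, true)) (s.xx _ _)
theorem D_Eu (k : K) (t : Bool) : s.D (k, t) * s.Eu k = (s.Eu k + 1) * s.D (k, t) := by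
  cases t
  · exact deu_DPG3 (by simpa using s.Dx (k, false) (k, false))
      (by simpa using s.Dx (k, false) (k, true)) (s.DD _ _)
  · rw [Eu, add_comm (s.x (k, false) * s.D (k, false))]
    exact deu_DPG3 (by simpa using s.Dx (k, true) (k, true))
      (by simpa using s.Dx (k, true) (k, false)) (s.DD _ _)
theorem Q_eq (k : K) : s.Q k = s.P k + s.Rs k := by
  unfold Q P Rs
  noncomm_ring
theorem Rs_a (k : K) : s.Rs k * s.a (k, false) = s.a (k, false) * s.P k := by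
  have h1 := (s.Qa_DPG3 k).eq
  have h2 := s.n_a (k, false)
  have h3 := s.a_n (k, false)
  change s.Q k * s.n (k, false) * _ = _ * (s.Q k * (1 - s.n (k, false)))
  linear_combination (norm := noncomm_ring) s.Q k * h2 + h1 * (1 - s.n (k, false)) + s.Q k * h3
theorem a_Rs (k : K) : s.a (k, false) * s.Rs k = 0 := by
  have h1 := (s.Qa_DPG3 k).eq
  have h3 := s.a_n (k, false)
  change _ * (s.Q k * s.n (k, false)) = 0
  linear_combination (norm := noncomm_ring) s.Q k * h3 - h1 * s.n (k, false)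
theorem P_a (k : K) (t : Bool) : s.P k * s.a (k, t) = 0 := by
  have h2 := s.n_a (k, t)
  have h3 := (s.n_comm (k, true) (k, false)).eq
  unfold P
  cases t
  · linear_combination (norm := noncomm_ring) -(s.ev k * (1 - s.n (k, true)) * h2)
  · linear_combination (norm := noncomm_ring) s.ev k * h3 * s.a (k, true) -
      s.ev k * (1 - s.n (k, false)) * h2
theorem b_P (k : K) (t : Bool) : s.b (k, t) * s.P k = 0 := by
  have h2 := s.b_n (k, t)
  cases t
  · have h1 := (s.Qb_DPG3 k).eq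
    change _ * (s.Q k * (1 - s.n (k, false))) = 0
    linear_combination (norm := noncomm_ring) -(h1 * (1 - s.n (k, false))) - s.Q k * h2
  · have h1 := (s.evb k (k, true)).eq
    unfold P
    linear_combination (norm := noncomm_ring)
      -(h1 * ((1 - s.n (k, true)) * (1 - s.n (k, false)))) - s.ev k * h2 * (1 - s.n (k, false))
theorem a_P_b (k : K) : s.a (k, false) * s.P k * s.b (k, false) = s.Rs k := by
  have h1 := (s.Qa_DPG3 k).eq
  have h2 := s.n_b (k, false)
  change _ * (s.Q k * (1 - s.n (k, false))) * _ = s.Q k * (s.a (k, false) * s.b (k, false))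
  linear_combination (norm := noncomm_ring) -(h1 * s.b (k, false)) - s.a (k, false) * s.Q k * h2
theorem b_a_P (k : K) : s.b (k, false) * s.a (k, false) * s.P k = s.P k := by
  have h1 := (s.Qn_DPG3 k).eq
  have h2 := s.n_n (k, false)
  rw [s.b_a]
  change _ * (s.Q k * (1 - s.n (k, false))) = s.Q k * (1 - s.n (k, false))
  linear_combination (norm := noncomm_ring) h1 * (1 - s.n (k, false)) + s.Q k * h2
theorem Rs_n (k : K) : s.Rs k * s.n (k, true) = 0 := by
  have h2 := s.n_n (k, true)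
  have h3 := (s.n_comm (k, false) (k, true)).eq
  unfold Rs
  linear_combination (norm := noncomm_ring) s.ev k * (1 - s.n (k, true)) * h3 -
    s.ev k * h2 * s.n (k, false)
theorem n_Rs (k : K) : s.n (k, true) * s.Rs k = 0 := by
  have h2 := s.n_n (k, true)
  have h3 := (s.evn_DPG3 k (k, true)).eq
  unfold Rs
  linear_combination (norm := noncomm_ring) -(h3 * ((1 - s.n (k, true)) * s.n (k, false))) -
    s.ev k * h2 * s.n (k, false)
theorem Ee_eq (k : K) : s.Ee k = s.Rs k + s.Ee k * s.n (k, true) := by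
  have h3 := (s.n_comm (k, true) (k, false)).eq
  unfold Rs Ee
  linear_combination (norm := noncomm_ring) s.ev k * h3
theorem a_Z (i : K × Bool) : s.a i * s.Z i = s.a i := by
  have h1 := (s.xa i i).eq
  have h2 := s.a_n i
  unfold Z
  linear_combination (norm := noncomm_ring) (s.x i - 1) * h2 - h1 * s.n i
theorem Z_a (i : K × Bool) : s.Z i * s.a i = s.x i * s.a i := s.Za_DPG3 i
theorem Z_n (i : K × Bool) : s.Z i * s.n i = s.x i * s.n i := by
  have h2 := s.n_n i
  unfold Z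
  linear_combination (norm := noncomm_ring) (s.x i - 1) * h2
theorem n_Z (i : K × Bool) : s.n i * s.Z i = s.x i * s.n i := by
  have h1 := (s.xn_DPG3 i i).eq
  have h2 := s.n_n i
  unfold Z
  linear_combination (norm := noncomm_ring) (s.x i - 1) * h2 - h1 * s.n i
theorem Z_one_sub (i : K × Bool) : s.Z i * (1 - s.n i) = 1 - s.n i := by
  have h2 := s.n_n i
  unfold Z
  linear_combination (norm := noncomm_ring) -((s.x i - 1) * h2)
theorem one_sub_Z (i : K × Bool) : (1 - s.n i) * s.Z i = 1 - s.n i := by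
  have h1 := (s.xn_DPG3 i i).eq
  have h2 := s.n_n i
  unfold Z
  linear_combination (norm := noncomm_ring) h1 * s.n i - (s.x i - 1) * h2

variable {s}

theorem Fr.ev_ev (h : s.Fr k) : s.ev k * s.ev k = s.ev k := by
  have h1 := h.had
  have h2 := h.ev_x false
  have h3 := h.ev_x true
  linear_combination (norm := noncomm_ring) -(s.ev k * h1) - h2 * (h.I0 * s.D (k, false)) -
    h3 * (h.I0 * s.D (k, true))
theorem inv_FOut_DPG3 {A I : R} (hA : A ∈ s.FOut k) (hl : I * A = 1) (hr : A * I = 1) :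
    I ∈ s.FOut k := by
  obtain ⟨h1, h2, h3⟩ := s.mem_FOut.1 hA
  have c : ∀ {T : R}, Commute A T → Commute I T := fun hT => (commute_inv hl hr hT.symm).symm
  exact s.mem_FOut.2 ⟨fun i => ⟨c (h1 i).1, c (h1 i).2⟩,
    fun i hi => ⟨c (h2 i hi).1, c (h2 i hi).2⟩, fun l hl => c (h3 l hl)⟩
theorem Fr.Q_idem_DPG3 (h : s.Fr k) : IsIdempotentElem (s.Q k) :=
  IsIdempotentElem.mul_of_commute ((Commute.one_right _).sub_right (s.evn_DPG3 k _)) h.ev_ev
    (IsIdempotentElem.one_sub (s.n_n (k, true)))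
theorem Fr.I0_FOut (h : s.Fr k) : h.I0 ∈ s.FOut k :=
  inv_FOut_DPG3 (add_mem (s.Eu_FOut k) (one_mem _)) h.l0 h.r0
theorem Fr.I1_FOut (h : s.Fr k) : h.I1 ∈ s.FOut k :=
  inv_FOut_DPG3 (add_mem (s.Eu_FOut k) (ofNat_mem _ 2)) h.l1 h.r1
theorem Fr.P_P (h : s.Fr k) : s.P k * s.P k = s.P k :=
  (h.Q_idem_DPG3.mul_of_commute ((Commute.one_right _).sub_right (s.Qn_DPG3 k))
    (IsIdempotentElem.one_sub (s.n_n (k, false)))).eq
theorem Fr.Rs_Rs (h : s.Fr k) : s.Rs k * s.Rs k = s.Rs k :=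
  (h.Q_idem_DPG3.mul_of_commute (s.Qn_DPG3 k) (s.n_n (k, false))).eq
theorem Fr.Rs_Ee (h : s.Fr k) : s.Rs k * s.Ee k = s.Rs k := by
  have h1 := h.ev_ev
  have h2 := s.n_n (k, false)
  have h3 : Commute (s.ev k) ((1 - s.n (k, true)) * s.n (k, false)) :=
    ((Commute.one_right _).sub_right (s.evn_DPG3 k _)).mul_right (s.evn_DPG3 k _)
  unfold Rs Ee
  linear_combination (norm := noncomm_ring) -(s.ev k * h3.eq * s.n (k, false)) +
    h1 * ((1 - s.n (k, true)) * s.n (k, false) * s.n (k, false)) +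
    s.ev k * (1 - s.n (k, true)) * h2
theorem Fr.Rs_Z (h : s.Fr k) : s.Rs k * s.Z (k, false) = 0 := by
  have h1 := h.ev_x false
  have h2 := (s.xn_DPG3 (k, false) (k, true)).eq
  rw [Rs, mul_assoc, s.n_Z]
  linear_combination (norm := noncomm_ring) s.ev k * h2 * s.n (k, false) +
    h1 * ((1 - s.n (k, true)) * s.n (k, false))
theorem Fr.Ee_Z (h : s.Fr k) : s.Ee k * s.Z (k, false) = 0 := by
  rw [Ee, mul_assoc, s.n_Z, ← mul_assoc, h.ev_x, zero_mul]
theorem Fr.X_ev (h : s.Fr k) (t : Bool) : s.X po (k, t) * s.ev k = 0 := by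
  unfold X
  split_ifs
  · rw [mul_assoc, h.D_ev, mul_zero]
  · exact h.D_ev t
theorem Fr.Rs_δ [Fintype K] (h : s.Fr k) (hf : (k, false) ∈ po) (ht : (k, true) ∉ po) :
    Commute (s.Rs k) (s.δ po) := by
  have r : ∀ t, s.a (k, t) * s.X po (k, t) * s.Rs k = 0 := fun t => by
    have h1 := h.X_ev (po := po) t
    unfold Rs
    linear_combination (norm := noncomm_ring)
      s.a (k, t) * h1 * ((1 - s.n (k, true)) * s.n (k, false))
  have l0 : s.Rs k * (s.a (k, false) * s.X po (k, false)) = 0 := by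
    have h1 := h.ev_x false
    have h2 : Commute (s.x (k, false)) ((1 - s.n (k, true)) * s.n (k, false) * s.a (k, false)) :=
      (((Commute.one_right _).sub_right (s.xn_DPG3 _ _)).mul_right (s.xn_DPG3 _ _)).mul_right
        (s.xa _ _)
    rw [X, if_pos hf, Rs]
    linear_combination (norm := noncomm_ring)
      h1 * ((1 - s.n (k, true)) * s.n (k, false) * s.a (k, false) * s.D (k, false)) -
        s.ev k * h2.eq * s.D (k, false)
  have l1 : s.Rs k * (s.a (k, true) * s.X po (k, true)) = 0 := by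
    have h1 := s.Rs_n k
    have h2 := s.n_a (k, true)
    linear_combination (norm := noncomm_ring) h1 * (s.a (k, true) * s.X po (k, true)) -
      s.Rs k * h2 * s.X po (k, true)
  rw [s.δ_split po k]
  exact (Commute.add_right (l0.trans (r false).symm) (l1.trans (r true).symm)).add_right
    (s.Out_δo (s.Rs_Out k) po)
theorem Fr.P_δ [Fintype K] (h : s.Fr k) (po : Finset (K × Bool)) : Commute (s.P k) (s.δ po) := by
  have r : ∀ t, Commute (s.P k) (s.a (k, t) * s.X po (k, t)) := fun t => by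
    have h1 := h.X_ev (po := po) t
    have h2 : s.a (k, t) * s.X po (k, t) * s.P k = 0 := by
      unfold P
      linear_combination (norm := noncomm_ring)
        s.a (k, t) * h1 * ((1 - s.n (k, true)) * (1 - s.n (k, false)))
    have h3 : s.P k * (s.a (k, t) * s.X po (k, t)) = 0 := by
      rw [← mul_assoc, s.P_a, zero_mul]
    exact h3.trans h2.symm
  rw [s.δ_split po k]
  exact ((r false).add_right (r true)).add_right (s.Out_δo (s.P_Out k) po)

end Site

end Pool.Agent.PWD.Loc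
end
end

-- part Pool.Agent.P.MP_65ad7c_ag.DPD0
section

/-! The two models. -/

open Set Filter Topology TopologicalSpace Metric
open scoped ContDiff ComplexConjugate
open Pool.Agent.HT (Form Alt pull der kill)

noncomputable section
namespace Pool.Agent.PWD.Loc

variable {d : ℕ} {F : Type} [NormedAddCommGroup F] [NormedSpace ℂ F] [FiniteDimensional ℂ F]
  (Φ : FK d F)

namespace FK

/-- the operators on functions with values in the Fock space -/
def site (Ω : Opens (E d)) (c : E d) : Site (Fin d) (Module.End ℂ (Fn Ω F)) where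
  a i := cst Ω (Φ.C.a i)
  b i := cst Ω (Φ.C.b i)
  car i j := by
    rw [← cst_mul, ← cst_mul, ← cst_add, Φ.C.car]
    split_ifs
    exacts [cst_one, cst_zero]
  aa i j := by rw [← cst_mul, ← cst_mul, ← cst_add, Φ.C.aa, cst_zero]
  bb i j := by rw [← cst_mul, ← cst_mul, ← cst_add, Φ.C.bb, cst_zero]
  x := xc Ω F c
  D := dw Ω F
  ev := evc Ω F c
  xa _ _ := cst_comm_mul _ _
  xb _ _ := cst_comm_mul _ _
  Da _ _ := cst_comm_dw _ _
  Db _ _ := cst_comm_dw _ _
  eva _ _ := cst_comm_cmp _ _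
  evb _ _ := cst_comm_cmp _ _
  xx _ _ := mul_comm_mul _ _
  DD := dw_comm_dw
  Dx := dw_xc c
  evx _ _ h := evc_comm_xc h
  evD _ _ h := evc_comm_dw h
  evev := evc_comm_evc

/-- the constant function `vac` -/
def vacF (Ω : Opens (E d)) : Fn Ω F := Fn.mk (fun _ => Φ.vac) contDiffOn_const

omit [FiniteDimensional ℂ F] in
theorem vacF_b (Ω : Opens (E d)) (i : Fin d × Bool) : cst Ω (Φ.C.b i) (Φ.vacF Ω) = 0 :=
  Fn.ext fun z hz => by simp [cst_val, vacF, Fn.mk_apply _ hz, Φ.b_vac]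

omit [FiniteDimensional ℂ F] in
theorem ker_F {Ω : Opens (E d)} (hΩ : IsPreconnected (Ω : Set (E d))) (u : Fn Ω F)
    (hD : ∀ i, dw Ω F i u = 0) (hb : ∀ i, cst Ω (Φ.C.b i) u = 0) : ∃ c : ℂ, u = c • Φ.vacF Ω := by
  obtain ⟨v, hv⟩ := const_of_dw hΩ hD
  by_cases h : ∃ z, z ∈ Ω
  · obtain ⟨z, hz⟩ := h
    obtain ⟨t, ht⟩ := Φ.ker_b (u := v) fun i => by
      have := congrFun (cst_val (Φ.C.b i) u) z
      rw [hb i, hv z hz] at this
      exact this.symm
    exact ⟨t, Fn.ext fun y hy => by simp [hv y hy, ht, vacF, Fn.mk_apply _ hy]⟩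
  · exact ⟨0, Fn.ext fun y hy => (h ⟨y, hy⟩).elim⟩

/-- a site that can be scaled -/
def fr {Ω : Opens (E d)} {k : Fin d} (h : ∀ z ∈ Ω, ∀ t, Function.update z k t ∈ Ω) (c : E d) :
    (Φ.site Ω c).Fr k :=
  have : CompleteSpace F := FiniteDimensional.complete ℂ F
  have H := (exists_scal (F := F) h c).choose_spec.choose_spec
  { I0 := (exists_scal (F := F) h c).choose
    I1 := (exists_scal (F := F) h c).choose_spec.choose
    ev_x := evc_xc fun z hz => h z hz _
    D_ev := dw_evc fun z hz => h z hz _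
    l0 := H.1
    r0 := H.2.1
    l1 := H.2.2.1
    r1 := H.2.2.2.1
    had := H.2.2.2.2.1 }

theorem fr_Nb {Ω : Opens (E d)} {k : Fin d} (h : ∀ z ∈ Ω, ∀ t, Function.update z k t ∈ Ω)
    (c : E d) (r : ℝ) : (Φ.fr h c).I0 ∈ Stb (Nb Ω ⊥ (ball c r)) ∧
      (Φ.fr h c).I1 ∈ Stb (Nb Ω ⊥ (ball c r)) :=
  have : CompleteSpace F := FiniteDimensional.complete ℂ F
  (exists_scal (F := F) h c).choose_spec.choose_spec.2.2.2.2.2 r

theorem exists_po {al : Finset (Fin d)} {k : Fin d} (hk : k ∈ al) {c : E d} (hc : c k = 0) {r : ℝ}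
    (hr : 0 < r) : ∃ h : (Φ.site (Rg al) c).Po k, h.T ∈ Stb (Nb _ ⊥ (ball c r)) ∧
      h.S ∈ Stb (Nb _ ⊥ (ball c r)) := by
  have : CompleteSpace F := FiniteDimensional.complete ℂ F
  obtain ⟨T, Av, h1, h2, h3, h4⟩ := exists_rot (F := F) (al := al) hc
  obtain ⟨S, C, g1, g2, g3, g4, g5, g6, g7⟩ := exists_ray (F := F) hk hc hr
  exact ⟨⟨T, Av, S, C, h1, h2, h3, g1, g2,
    (Site.mem_FOut _).2 ⟨fun _ => ⟨g3 _, g3 _⟩, g4, g5⟩, g6⟩, h4 r, g7⟩

omit [FiniteDimensional ℂ F] in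
theorem cst_bot {Ω : Opens (E d)} (L : F →L[ℂ] F) (U : Set (E d)) : cst Ω L ∈ Stb (Nb Ω ⊥ U) :=
  fun _ hf => cst_Nb (fun u hu => by rw [(Submodule.mem_bot ℂ).1 hu]; simp) hf

omit [FiniteDimensional ℂ F] in
theorem bot_closed : IsClosed ((⊥ : Submodule ℂ F) : Set F) := isClosed_singleton

/-- the model of the punctured polydisc of radius `r` -/
def ppM (al : Finset (Fin d)) (c : E d) (hc : ∀ k ∈ al, c k = 0) (r : ℝ) (hr : 0 < r) :
    PPM (Fin d) (Fn (Rg al) F) where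
  toSite := Φ.site (Rg al) c
  N := Nb _ ⊥ (ball c r)
  vac := Φ.vacF _
  N_a _ := cst_bot _ _
  N_b _ := cst_bot _ _
  N_x _ := mul_Nb _
  N_D := dw_Nb bot_closed isOpen_ball
  N_ev := evc_Nb r
  vac_D := dw_const _
  vac_b := Φ.vacF_b _
  vac_N t ht := by
    obtain ⟨z, hz, hz'⟩ := (Rg_dense al).inter_open_nonempty _ isOpen_ball ⟨c, mem_ball_self hr⟩
    have := (Submodule.mem_bot ℂ).1 (ht z hz)
    simpa [vacF, Fn.mk_apply _ hz', Φ.vac_ne] using this
  ker := Φ.ker_F (Rg_preconnected al)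
  al := al
  fr k hk := Φ.fr (fun _ hz t => Rg_update hk hz t) c
  po k hk := (Φ.exists_po hk (hc k hk) hr).choose
  N_I0 _ _ := (Φ.fr_Nb _ c r).1
  N_I1 _ _ := (Φ.fr_Nb _ c r).2
  N_T k hk := (Φ.exists_po hk (hc k hk) hr).choose_spec.1
  N_S k hk := (Φ.exists_po hk (hc k hk) hr).choose_spec.2
  x_inj i u hu := Fn.ext fun z _ =>
    (Submodule.mem_bot ℂ).1 (xc_inj (c := c) (i := i) (f := u) bot_closed isOpen_univ
      (by rw [show xc _ F c i u = 0 from hu]; exact Submodule.zero_mem _) z trivial)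

omit [FiniteDimensional ℂ F] in
theorem Ng_inj {C : Submodule ℂ F} (hC : IsClosed (C : Set F)) {c : E d} (i : Fin d × Bool)
    (u : Fn ⊤ F) (h : xc ⊤ F c i u ∈ Ng ⊤ C c) : u ∈ Ng ⊤ C c := by
  obtain ⟨r, hr, h⟩ := mem_Ng_iff.1 h
  exact mem_Ng_iff.2 ⟨r, hr, xc_inj hC isOpen_ball h⟩

/-- the model of the logarithmic complex at `c` -/
def logM (c : E d) : LogM (Fin d) (Fn (⊤ : Opens (E d)) F) :=
  have : CompleteSpace F := FiniteDimensional.complete ℂ F
  { toSite := Φ.site ⊤ c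
    N := Ng ⊤ ⊥ c
    vac := Φ.vacF _
    N_a := fun _ => Stb_Ng fun _ _ => cst_bot _ _
    N_b := fun _ => Stb_Ng fun _ _ => cst_bot _ _
    N_x := fun _ => Stb_Ng fun _ _ => mul_Nb _
    N_D := fun i => Stb_Ng fun _ _ => dw_Nb bot_closed isOpen_ball i
    N_ev := fun k => Stb_Ng fun r _ => evc_Nb r k
    vac_D := dw_const _
    vac_b := Φ.vacF_b _
    vac_N := fun t ht => by
      have := (Submodule.mem_bot ℂ).1 (mem_Ng.1 ht).self_of_nhds
      simpa [vacF, Fn.mk_apply _ (show c ∈ (⊤ : Opens (E d)) from trivial), Φ.vac_ne] using this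
    ker := Φ.ker_F isPreconnected_univ
    fr := fun _ => Φ.fr (Ω := ⊤) (fun _ _ _ => Opens.mem_top _) c
    S := fun k => (exists_db (F := F) c k).choose
    Fl := fun p => Ng ⊤ (Φ.HF p) c
    N_I0 := fun _ => Stb_Ng fun r _ => (Φ.fr_Nb _ c r).1
    N_I1 := fun _ => Stb_Ng fun r _ => (Φ.fr_Nb _ c r).2
    N_inj := Ng_inj bot_closed
    S_out := fun k ρ =>
      have H := (exists_db (F := F) c k).choose_spec
      (Site.mem_FOut _).2 ⟨fun _ => ⟨H.1 _ _, H.1 _ _⟩, H.2.1 ρ, H.2.2.1 ρ⟩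
    S_D := fun k => (exists_db (F := F) c k).choose_spec.2.2.2.1
    S_N := fun k => (exists_db (F := F) c k).choose_spec.2.2.2.2 _ bot_closed
    Fl_N := fun p f hf => (mem_Ng.1 hf).mono fun _ h => bot_le (a := Φ.HF p) h
    Fl_zero := by
      rw [Φ.HF_zero]
      exact eq_top_iff.2 fun _ _ => Eventually.of_forall fun _ => trivial
    Fl_anti := fun p f hf => (mem_Ng.1 hf).mono fun _ h => Φ.HF_anti p h
    Fl_a := fun p k _ hu => cst_Ng (Φ.HF_a p k) hu
    Fl_b := fun p k _ hu => cst_Ng (Φ.HF_b p k) hu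
    Fl_a' := fun p k _ hu => cst_Ng (Φ.HF_a' p k) hu
    Fl_b' := fun p k _ hu => cst_Ng (Φ.HF_b' p k) hu
    Fl_x := fun _ _ => Stb_Ng fun _ _ => mul_Nb _
    Fl_D := fun p i => Stb_Ng fun _ _ =>
      dw_Nb (Submodule.closed_of_finiteDimensional _) isOpen_ball i
    Fl_ev := fun _ k => Stb_Ng fun r _ => evc_Nb r k
    Fl_inj := fun p => Ng_inj (Submodule.closed_of_finiteDimensional _)
    Fl_S := fun p k => (exists_db (F := F) c k).choose_spec.2.2.2.2 _
      (Submodule.closed_of_finiteDimensional _) }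

theorem logM_site (c : E d) : (Φ.logM c).toSite = Φ.site ⊤ c := rfl
theorem logM_N (c : E d) : (Φ.logM c).N = Ng ⊤ ⊥ c := rfl
theorem logM_vac (c : E d) : (Φ.logM c).vac = Φ.vacF ⊤ := rfl
theorem logM_Fl (c : E d) (p : ℕ) : (Φ.logM c).Fl p = Ng ⊤ (Φ.HF p) c := rfl

/-- the change from the logarithmic frame to the standard frame -/
def U (po : Finset (Fin d × Bool)) (z : E d) : F →L[ℂ] F :=
  cp po fun i => 1 + ((cov i z)⁻¹ - 1) • Φ.C.n i

/-- the form whose coefficients in the logarithmic frame are `g` -/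
def ren (po : Finset (Fin d × Bool)) : (E d → F) →ₗ[ℂ] GF (E d) where
  toFun g := fun n z => Φ.psi n (Φ.U po z (g z))
  map_add' g g' := by ext n z v; simp
  map_smul' t g := by ext n z v; simp

omit [FiniteDimensional ℂ F] in
theorem ren_apply (po : Finset (Fin d × Bool)) (g : E d → F) (n : ℕ) (z : E d) :
    Φ.ren po g n z = Φ.psi n (Φ.U po z (g z)) := rfl

/-- near `c`, the form `f` has the coefficients `g` in the frame with poles along `al` -/
def Hat (al : Finset (Fin d)) (c : E d) (g : Fn (⊤ : Opens (E d)) F) (f : GF (E d)) : Prop :=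
  ∀ᶠ z in 𝓝[Rg al] c, ∀ n, f n z = Φ.ren (pf al) g.1 n z

end FK

/-- wedge product with the `dz_k / z_k`, `k ∈ L` -/
def lgL (L : List (Fin d)) (f : GF (E d)) : GF (E d) := L.foldr (fun k g => lg (fun z => z k) g) f

end Pool.Agent.PWD.Loc
end
end

-- part Pool.Agent.P.MP_65ad7c_ag.DPS0
section

/-! Index bookkeeping for the standard chart. -/

open Set Filter Topology TopologicalSpace Metric
open scoped ContDiff ComplexConjugate
open Pool.Agent.HT (Form Alt pull der kill)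

noncomputable section
namespace Pool.Agent.PWD.Loc

variable {d : ℕ} {ι : Type} [LinearOrder ι] {κ : ι → Option (Fin d)} {c z : E d}
  {α I t : Finset ι} {i : ι} {k : Fin d} {f : GF (E d)} {p q : ℕ}

open Classical in
/-- the coordinates that belong to the indices in `α` -/
def alK (κ : ι → Option (Fin d)) (α : Finset ι) : Finset (Fin d) :=
  Finset.univ.filter fun k => ∃ i ∈ α, κ i = some k

/-- the coordinates that belong to `I`, in the order of `I` -/
def wdK (κ : ι → Option (Fin d)) (I : Finset ι) : List (Fin d) := (I.sort (· ≤ ·)).filterMap κ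

/-- every index in `I` has a coordinate -/
def Gd (κ : ι → Option (Fin d)) (I : Finset ι) : Prop := ∀ i ∈ I, ∃ k, κ i = some k

open Classical in
/-- subsets of `α` all of whose indices have a coordinate -/
def sg (κ : ι → Option (Fin d)) (α : Finset ι) : Finset (Finset ι) := α.powerset.filter (Gd κ)

open Classical in
/-- the same with `q` elements -/
def sgq (κ : ι → Option (Fin d)) (α : Finset ι) (q : ℕ) : Finset (Finset ι) :=
  (α.powersetCard q).filter (Gd κ)

/-- the hypotheses on a standard chart -/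
structure Std (κ : ι → Option (Fin d)) (c : E d) : Prop where
  inj : ∀ i j k, κ i = some k → κ j = some k → i = j
  cen : ∀ i k, κ i = some k → c k = 0

omit [LinearOrder ι] in
theorem std_ok' (S : Set (E d)) : (Ctx.std κ).OK S := by
  refine ⟨fun O i h hh => ?_, fun O i h hh y _ hy => ?_, fun _ _ _ _ => Subset.rfl⟩
  · obtain rfl : h = zc κ i := hh
    unfold zc
    cases κ i with
    | none => exact contDiffOn_const
    | some k => exact (contDiff_apply ℝ ℂ k).contDiffOn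
  · obtain rfl : h = zc κ i := hh
    exact hy
omit [LinearOrder ι] in
theorem zc_some (h : κ i = some k) : zc κ i = fun z => z k := by
  funext z
  rw [zc, h]
  rfl
omit [LinearOrder ι] in
theorem zc_none (h : κ i = none) : zc κ i = fun _ => 1 := by
  funext z
  rw [zc, h]
  rfl
omit [LinearOrder ι] in
theorem mem_alK : k ∈ alK κ α ↔ ∃ i ∈ α, κ i = some k := by simp [alK]
omit [LinearOrder ι] in
theorem alK_empty : alK κ (∅ : Finset ι) = ∅ := by simp [alK]
omit [LinearOrder ι] in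
theorem alK_mono (h : I ⊆ α) : alK κ I ⊆ alK κ α := fun _ hk =>
  (mem_alK.1 hk).elim fun i hi => mem_alK.2 ⟨i, h hi.1, hi.2⟩
omit [LinearOrder ι] in
theorem alK_single (h : κ i = some k) : alK κ {i} = {k} := by
  ext l
  simp [mem_alK, h, eq_comm]
omit [LinearOrder ι] in
theorem mem_sg : I ∈ sg κ α ↔ I ⊆ α ∧ Gd κ I := by simp [sg]
omit [LinearOrder ι] in
theorem mem_sgq : I ∈ sgq κ α q ↔ I ⊆ α ∧ I.card = q ∧ Gd κ I := by
  simp [sgq, Finset.mem_powersetCard, and_assoc]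
omit [LinearOrder ι] in
theorem Std.alK_c (h : Std κ c) : ∀ k ∈ alK κ α, c k = 0 := fun k hk =>
  (mem_alK.1 hk).elim fun i hi => h.cen i k hi.2
omit [LinearOrder ι] in
theorem Std.alK_disj (h : Std κ c) (hd : Disjoint α t) : Disjoint (alK κ α) (alK κ t) :=
  Finset.disjoint_left.2 fun k h1 h2 => by
    obtain ⟨i, hi, e⟩ := mem_alK.1 h1
    obtain ⟨j, hj, e'⟩ := mem_alK.1 h2
    exact Finset.disjoint_left.1 hd hi (h.inj j i k e' e ▸ hj)
theorem Std.alK_erase (h : Std κ c) (hk : κ i = some k) :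
    alK κ (α.erase i) = (alK κ α).erase k := by
  ext l
  simp only [mem_alK, Finset.mem_erase]
  constructor
  · rintro ⟨j, ⟨h1, h2⟩, e⟩
    exact ⟨fun hl => h1 (h.inj j i k (hl ▸ e) hk), j, h2, e⟩
  · rintro ⟨h1, j, h2, e⟩
    refine ⟨j, ⟨fun hj => h1 ?_, h2⟩, e⟩
    rw [hj, hk] at e
    exact (Option.some_injective _ e).symm
theorem alK_erase_none (hk : κ i = none) : alK κ (α.erase i) = alK κ α := by
  refine (alK_mono (Finset.erase_subset i α)).antisymm fun l hl => ?_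
  obtain ⟨j, hj, e⟩ := mem_alK.1 hl
  refine mem_alK.2 ⟨j, Finset.mem_erase.2 ⟨fun h => ?_, hj⟩, e⟩
  rw [h, hk] at e
  cases e
theorem wdK_toFinset : (wdK κ I).toFinset = alK κ I := by
  ext l
  simp [wdK, mem_alK, List.mem_filterMap]
theorem wdK_length (h : Gd κ I) : (wdK κ I).length = I.card := by
  rw [wdK, ← Finset.length_sort (· ≤ ·), List.filterMap_length_eq_length]
  exact fun j hj => Option.isSome_iff_exists.2 (h j ((Finset.mem_sort _).1 hj))
theorem Std.nodup (h : Std κ c) (I : Finset ι) : (wdK κ I).Nodup :=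
  (Finset.sort_nodup I _).filterMap fun a a' b h1 h2 => h.inj a a' b h1 h2
omit [LinearOrder ι] in
theorem sub_DPS0 (h : Std κ c) (hI : Gd κ I) (e : alK κ I ⊆ alK κ t) : I ⊆ t := fun j hj => by
  obtain ⟨l, hl⟩ := hI j hj
  obtain ⟨j', h1, h2⟩ := mem_alK.1 (e (mem_alK.2 ⟨j, hj, hl⟩))
  exact h.inj j' j l h2 hl ▸ h1
theorem Std.words (h : Std κ c) (α : Finset ι) : Words (alK κ α) (sg κ α) (wdK κ) :=
  ⟨fun I _ => h.nodup I, fun _ hI => wdK_toFinset.trans_subset (alK_mono (mem_sg.1 hI).1),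
    fun _ hI _ hI' e => by
      rw [wdK_toFinset, wdK_toFinset] at e
      exact (sub_DPS0 h (mem_sg.1 hI).2 e.subset).antisymm (sub_DPS0 h (mem_sg.1 hI').2 e.superset)⟩
theorem Std.wordsq (h : Std κ c) (α : Finset ι) (q : ℕ) :
    Words (alK κ α) (sgq κ α q) (wdK κ) :=
  have e : ∀ I ∈ sgq κ α q, I ∈ sg κ α := fun _ hI =>
    mem_sg.2 ⟨(mem_sgq.1 hI).1, (mem_sgq.1 hI).2.2⟩
  ⟨fun I hI => (h.words α).nodup I (e I hI), fun I hI => (h.words α).sub I (e I hI),
    fun I hI I' hI' => (h.words α).inj I (e I hI) I' (e I' hI')⟩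
theorem Std.surj (h : Std κ c) : ∀ J ⊆ alK κ α, ∃ I ∈ sg κ α, (wdK κ I).toFinset = J := by
  classical
  have _ := h
  intro J hJ
  refine ⟨α.filter fun i => ∃ k ∈ J, κ i = some k, mem_sg.2 ⟨Finset.filter_subset _ _,
    fun i hi => (Finset.mem_filter.1 hi).2.imp fun _ hk => hk.2⟩, ?_⟩
  rw [wdK_toFinset]
  ext l
  rw [mem_alK]
  constructor
  · rintro ⟨j, hj, e⟩
    obtain ⟨l', h1, h2⟩ := (Finset.mem_filter.1 hj).2
    rw [e] at h2
    exact Option.some_injective _ h2 ▸ h1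
  · intro hl
    obtain ⟨j, hj, e⟩ := mem_alK.1 (hJ hl)
    exact ⟨j, Finset.mem_filter.2 ⟨hj, l, hl, e⟩, e⟩
theorem Std.surjq (h : Std κ c) :
    ∀ J ⊆ alK κ α, J.card = q → ∃ I ∈ sgq κ α q, (wdK κ I).toFinset = J := fun J hJ hq => by
  obtain ⟨I, hI, e⟩ := h.surj J hJ
  refine ⟨I, mem_sgq.2 ⟨(mem_sg.1 hI).1, ?_, (mem_sg.1 hI).2⟩, e⟩
  rw [← wdK_length (mem_sg.1 hI).2, ← List.toFinset_card_of_nodup (h.nodup I), e, hq]
theorem lgI_gd (h : Gd κ I) (f : GF (E d)) : lgI (zc κ) I f = lgL (wdK κ I) f := by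
  have h' : ∀ j ∈ I.sort (· ≤ ·), ∃ k, κ j = some k := fun j hj => h j ((Finset.mem_sort _).1 hj)
  unfold lgI lgL wdK
  generalize I.sort (· ≤ ·) = L at h'
  induction L with
  | nil => rfl
  | cons j L ih =>
    obtain ⟨l, hl⟩ := h' j List.mem_cons_self
    rw [List.filterMap_cons_some hl, List.foldr_cons, List.foldr_cons, zc_some hl,
      ih fun j hj => h' j (List.mem_cons_of_mem _ hj)]
theorem lg_one_DPS0 (f : GF (E d)) : lg (fun _ => 1) f = 0 := by
  funext n
  cases n with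
  | zero => rfl
  | succ n =>
    ext x v
    simp [lg, wG_applyDL1a]
theorem lgI_bad (h : ¬Gd κ I) (f : GF (E d)) : lgI (zc κ) I f = 0 := by
  have h' : ∃ j ∈ I.sort (· ≤ ·), κ j = none := by
    by_contra hc
    exact h fun j hj => Option.ne_none_iff_exists'.1 fun e => hc ⟨j, (Finset.mem_sort _).2 hj, e⟩
  unfold lgI
  generalize I.sort (· ≤ ·) = L at h'
  induction L with
  | nil => simp at h'
  | cons j L ih =>
    obtain ⟨j', h1, h2⟩ := h'
    rw [List.foldr_cons]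
    rcases List.mem_cons.1 h1 with rfl | h1
    · rw [zc_none h2, lg_one_DPS0]
    · rw [ih ⟨j', h1, h2⟩]
      exact wG_zero _
theorem sum_sg (γ : Finset ι → ℂ) (β : Finset ι → GF (E d)) :
    ∑ I ∈ α.powerset, γ I • lgI (zc κ) I (β I) = ∑ I ∈ sg κ α, γ I • lgL (wdK κ I) (β I) := by
  rw [sg, Finset.sum_filter]
  refine Finset.sum_congr rfl fun I _ => ?_
  split_ifs with h
  · rw [lgI_gd h]
  · rw [lgI_bad h]
    ext n x v
    simp
theorem sum_sgq (β : Finset ι → GF (E d)) :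
    ∑ I ∈ α.powersetCard q, lgI (zc κ) I (β I) = ∑ I ∈ sgq κ α q, lgL (wdK κ I) (β I) := by
  rw [sgq, Finset.sum_filter]
  refine Finset.sum_congr rfl fun I _ => ?_
  split_ifs with h
  · rw [lgI_gd h]
  · rw [lgI_bad h]
omit [LinearOrder ι] in
theorem zc_zero_DPS0 : zc κ i z = 0 ↔ ∃ k, κ i = some k ∧ z k = 0 := by
  unfold zc
  cases κ i <;> simp
omit [LinearOrder ι] in
theorem mem_St_DPS0 : z ∈ St univ (Ctx.std κ).D I ↔ ∀ i ∈ I, ∃ k, κ i = some k ∧ z k = 0 := by
  simp only [St, univ_inter, mem_iInter, Ctx.std, mem_ofPred_eq, zc_zero_DPS0]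
omit [LinearOrder ι] in
theorem off_eq : Off (Ctx.std κ).D α = (Rg (alK κ α) : Set (E d))ᶜ := by
  ext z
  simp only [Off, mem_iUnion, Ctx.std, mem_ofPred_eq, zc_zero_DPS0, mem_compl_iff,
    SetLike.mem_coe, mem_Rg, mem_alK, not_forall, not_not]
  exact ⟨fun ⟨i, hi, k, h1, h2⟩ => ⟨k, ⟨i, hi, h1⟩, h2⟩,
    fun ⟨k, ⟨i, hi, h1⟩, h2⟩ => ⟨i, hi, k, h1, h2⟩⟩
omit [LinearOrder ι] in
theorem St_gd (h : Gd κ I) : St univ (Ctx.std κ).D I = {z | ∀ k ∈ alK κ I, z k = 0} := by
  ext z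
  rw [mem_St_DPS0]
  refine ⟨fun h1 k hk => ?_, fun h1 i hi => (h i hi).imp fun k hk =>
    ⟨hk, h1 k (mem_alK.2 ⟨i, hi, hk⟩)⟩⟩
  obtain ⟨i, hi, e⟩ := mem_alK.1 hk
  obtain ⟨k', e', h2⟩ := h1 i hi
  rw [e] at e'
  exact Option.some_injective _ e' ▸ h2
omit [LinearOrder ι] in
theorem St_bad (h : ¬Gd κ I) : St univ (Ctx.std κ).D I = ∅ :=
  eq_empty_of_forall_notMem fun _ hz => h fun i hi => (mem_St_DPS0.1 hz i hi).imp fun _ hk => hk.1
omit [LinearOrder ι] in
theorem Std.mem_St (h : Std κ c) : c ∈ St univ (Ctx.std κ).D I ↔ Gd κ I :=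
  mem_St_DPS0.trans (forall₂_congr fun i _ => exists_congr fun k =>
    and_iff_left_of_imp (h.cen i k))
theorem lgI_congr {h h' : ι → E d → ℂ} (e : ∀ i ∈ I, h i = h' i) (f : GF (E d)) :
    lgI h I f = lgI h' I f :=
  List.foldr_ext _ _ _ fun j hj _ => by rw [e j ((Finset.mem_sort _).1 hj)]
omit [LinearOrder ι] in
theorem eqs_std : (Ctx.std κ).Eqs α c (zc κ) :=
  ⟨univ, isOpen_univ, trivial, fun _ _ _ _ => rfl⟩
omit [LinearOrder ι] in
theorem eqs_eq {h : ι → E d → ℂ} (hh : (Ctx.std κ).Eqs α c h) : ∀ i ∈ α, h i = zc κ i :=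
  hh.elim fun O hO => hO.2.2 O Subset.rfl
theorem RH_ind {h : ι → E d → ℂ} {r : Finset ι → GF (E d)} (hh : (Ctx.std κ).Eqs α c h)
    (hf : (Ctx.std κ).RH univ α h q c f r) : (Ctx.std κ).RH univ α (zc κ) q c f r := by
  obtain ⟨O, β, h1, h2, h3, h4, h5⟩ := hf
  refine ⟨O, β, h1, h2, h3, ?_, h5⟩
  rwa [Finset.sum_congr rfl fun I hI => lgI_congr (h' := zc κ)
    (fun i hi => eqs_eq hh i ((Finset.mem_powersetCard.1 hI).1 hi)) (β I)] at h4

end Pool.Agent.PWD.Loc
end
end
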