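import Pool.Agent.K.MP_65ad7c_ag.C79
import Pool.Agent.K.MP_65ad7c_ag.C48

-- part Pool.Agent.P.MP_65ad7c_ag.DPD1
section

/-! Pointwise dictionary: algebraic operators. -/

open Set Filter Topology TopologicalSpace Metric
open scoped ContDiff ComplexConjugate
open Pool.Agent.HT (Form Alt pull der kill)

noncomputable section
namespace Pool.Agent.PWD.Loc

section abs
variable {K R : Type} [DecidableEq K] [Ring R] [Algebra ℂ R]

/-- product of the factors `1 + t i • n i` -/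
def CAR.G_DPD1 (s : CAR K R) (po : Finset (K × Bool)) (t : K × Bool → ℂ) : R :=
  cp po fun i => 1 + t i • s.n i

variable (s : CAR K R) {po : Finset (K × Bool)} {t t' : K × Bool → ℂ} {i : K × Bool}

theorem CAR.fc_DPD1 (i j : K × Bool) (x y : ℂ) :
    Commute (1 + x • s.n i) (1 + y • s.n j) :=
  (Commute.one_left _).add_left ((Commute.one_right _).add_right
    (((s.n_comm i j).smul_left x).smul_right y))

theorem CAR.G_empty_DPD1 (t : K × Bool → ℂ) : s.G_DPD1 ∅ t = 1 := cp_empty _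

theorem CAR.G_insert_DPD1 (h : i ∉ po) (t : K × Bool → ℂ) :
    s.G_DPD1 (insert i po) t = (1 + t i • s.n i) * s.G_DPD1 po t :=
  cp_insert (fun i j => s.fc_DPD1 i j _ _) h

theorem CAR.G_fc_DPD1 (i : K × Bool) (x : ℂ) : Commute (1 + x • s.n i) (s.G_DPD1 po t) :=
  commute_cp fun j _ => s.fc_DPD1 i j _ _

theorem CAR.fi_DPD1 (i : K × Bool) {x y : ℂ} (h : (1 + x) * (1 + y) = 1) :
    (1 + x • s.n i) * (1 + y • s.n i) = 1 := by
  have e : x + y + x * y = 0 := by linear_combination h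
  have e2 : (1 + x • s.n i) * (1 + y • s.n i) = 1 + (x + y + x * y) • s.n i := by
    rw [mul_add, add_mul, add_mul, smul_mul_smul_comm, s.n_n, add_smul, add_smul, mul_one, mul_one,
      one_mul]
    abel
  rw [e2, e, zero_smul, add_zero]

theorem CAR.G_inv_DPD1 (h : ∀ i ∈ po, (1 + t i) * (1 + t' i) = 1) :
    s.G_DPD1 po t * s.G_DPD1 po t' = 1 := by
  induction po using Finset.induction_on with
  | empty => rw [s.G_empty_DPD1, s.G_empty_DPD1, mul_one]
  | insert i po hi ih =>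
    rw [s.G_insert_DPD1 hi, s.G_insert_DPD1 hi, mul_assoc, ← mul_assoc (s.G_DPD1 po t),
      ← (s.G_fc_DPD1 i (t' i)).eq, mul_assoc, ih fun j hj => h j (Finset.mem_insert_of_mem hj),
      mul_one, s.fi_DPD1 i (h i (Finset.mem_insert_self _ _))]

theorem CAR.G_a_ins_DPD1 (h : i ∉ po) (t : K × Bool → ℂ) :
    s.G_DPD1 (insert i po) t * s.a i = (1 + t i) • (s.a i * s.G_DPD1 po t) := by
  have hc : Commute (s.a i) (s.G_DPD1 po t) := commute_cp fun j hj =>
    (Commute.one_right _).add_right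
      ((s.n_a_ne (fun e : j = i => h (e ▸ hj))).symm.smul_right _)
  rw [s.G_insert_DPD1 h, mul_assoc, ← hc.eq, ← mul_assoc, add_mul, one_mul, smul_mul_assoc, s.n_a,
    ← smul_mul_assoc, add_smul, one_smul]

theorem CAR.G_a_DPD1 (h : i ∈ po) (t : K × Bool → ℂ) :
    s.G_DPD1 po t * s.a i = (1 + t i) • (s.a i * s.G_DPD1 po t) := by
  have h1 := s.G_a_ins_DPD1 (Finset.notMem_erase i po) t
  have h2 := s.G_insert_DPD1 (Finset.notMem_erase i po) t
  rw [Finset.insert_erase h] at h1 h2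
  rw [h1, h2, ← mul_assoc, mul_add, mul_one, mul_smul_comm, s.a_n, smul_zero, add_zero]

theorem Site.aL_Z_DPD1 (s : Site K R) {L : List K} {k : K} (h : k ∈ L) :
    s.aL L * s.Z (k, false) = s.aL L := by
  have h1 : s.a (k, false) * s.aL L = 0 := by
    rw [← s.n_aL_of_mem h, ← mul_assoc, s.a_n, zero_mul]
  have h2 : s.aL L * s.a (k, false) = 0 := by
    rw [s.a_aL] at h1
    exact (smul_eq_zero_iff_right (pow_ne_zero _ (by norm_num))).1 h1
  have h3 : Commute (s.x (k, false) - 1) (s.n (k, false)) :=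
    ((s.xa _ _).mul_right (s.xb _ _)).sub_left (Commute.one_left _)
  rw [Site.Z, h3.eq, mul_add, mul_one, CAR.n, ← mul_assoc, ← mul_assoc, h2, zero_mul, zero_mul,
    add_zero]

theorem Site.aL_ZZ_DPD1 (s : Site K R) {L : List K} {J : Finset K} (h : J ⊆ L.toFinset) :
    s.aL L * s.ZZ J = s.aL L := by
  induction J using Finset.induction_on with
  | empty => rw [Site.ZZ, cp_empty, mul_one]
  | insert k J hk ih =>
    rw [Site.ZZ, cp_insert (fun _ _ => s.Z_comm _ _) hk, ← mul_assoc,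
      s.aL_Z_DPD1 (List.mem_toFinset.1 (h (Finset.mem_insert_self _ _)))]
    exact ih ((Finset.subset_insert _ _).trans h)

theorem Site.aL_ZZ'_DPD1 (s : Site K R) {L : List K} {al : Finset K} (h : L.toFinset ⊆ al) :
    s.aL L * s.ZZ al = s.aL L * s.ZZ (al \ L.toFinset) := by
  have e : s.ZZ al = s.ZZ L.toFinset * s.ZZ (al \ L.toFinset) := by
    rw [Site.ZZ, Site.ZZ, Site.ZZ, ← cp_union (fun _ _ => s.Z_comm _ _) Finset.disjoint_sdiff,
      Finset.union_sdiff_of_subset h]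
  rw [e, ← mul_assoc, s.aL_ZZ_DPD1 subset_rfl]

end abs

variable {d : ℕ} {F : Type} [NormedAddCommGroup F] [NormedSpace ℂ F] (Φ : FK d F)
  {Ω : Opens (E d)} {z c : E d} {po : Finset (Fin d × Bool)} {al J : Finset (Fin d)} {k : Fin d}
  {i : Fin d × Bool}

namespace FK

theorem U_eq_DPD1 (po : Finset (Fin d × Bool)) (z : E d) :
    Φ.U po z = Φ.C.G_DPD1 po fun i => (cov i z)⁻¹ - 1 := rfl

theorem G_HF_DPD1 (p : ℕ) (po : Finset (Fin d × Bool)) (t : Fin d × Bool → ℂ) :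
    ∀ u ∈ Φ.HF p, Φ.C.G_DPD1 po t u ∈ Φ.HF p := by
  induction po using Finset.induction_on with
  | empty => exact fun u hu => by rwa [Φ.C.G_empty_DPD1]
  | insert i po hi ih =>
    intro u hu
    rw [Φ.C.G_insert_DPD1 hi]
    exact add_mem (ih u hu) (Submodule.smul_mem _ _ (Φ.HF_n p i _ (ih u hu)))

theorem G_vac_DPD1 (po : Finset (Fin d × Bool)) (t : Fin d × Bool → ℂ) :
    Φ.C.G_DPD1 po t Φ.vac = Φ.vac := by
  induction po using Finset.induction_on with
  | empty => rw [Φ.C.G_empty_DPD1]; rfl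
  | insert i po hi ih =>
    rw [Φ.C.G_insert_DPD1 hi]
    change Φ.C.G_DPD1 po t Φ.vac + t i • Φ.C.a i (Φ.C.b i (Φ.C.G_DPD1 po t Φ.vac)) = _
    rw [ih, Φ.b_vac, map_zero, smul_zero, add_zero]

theorem G_cda_DPD1 {t : Fin d × Bool → E d → ℂ} (ht : ∀ i ∈ po, ContDiffAt ℝ ∞ (t i) z)
    {g : E d → F} (hg : ContDiffAt ℝ ∞ g z) :
    ContDiffAt ℝ ∞ (fun y => Φ.C.G_DPD1 po (fun i => t i y) (g y)) z := by
  induction po using Finset.induction_on with
  | empty =>
    simp only [Φ.C.G_empty_DPD1]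
    exact hg
  | insert i po hi ih =>
    have h := ih fun j hj => ht j (Finset.mem_insert_of_mem hj)
    simp only [Φ.C.G_insert_DPD1 hi]
    exact h.add ((ht i (Finset.mem_insert_self _ _)).smul
      (((Φ.C.n i).restrictScalars ℝ).contDiff.contDiffAt.comp z h))

theorem inv_cda_DPD1 (hz : z i.1 ≠ 0) : ContDiffAt ℝ ∞ (fun y : E d => (cov i y)⁻¹ - 1) z :=
  ((cov i).contDiff.contDiffAt.inv (cov_ne_zero.2 hz)).sub contDiffAt_const

theorem UV_DPD1 (hz : ∀ i ∈ po, z i.1 ≠ 0) :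
    Φ.U po z * Φ.C.G_DPD1 po (fun i => cov i z - 1) = 1 :=
  Φ.C.G_inv_DPD1 fun i hi => by
    have := cov_ne_zero.2 (hz i hi)
    field_simp
    ring

theorem lg_ren_DPD1 (k : Fin d) (g : E d → F) (n : ℕ) (z : E d) :
    lg (fun z => z k) (Φ.ren po g) n z =
      Φ.psi n ((z k)⁻¹ • Φ.C.a (k, false) (Φ.U po z (g z))) := by
  have e : fderiv ℝ (fun z : E d => z k) z = cov (k, false) :=
    (ContinuousLinearMap.proj (R := ℝ) (φ := fun _ : Fin d => ℂ) k).fderiv
  have e2 : (z k)⁻¹ • Φ.C.a (k, false) (Φ.U po z (g z)) =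
      Φ.ep ((z k)⁻¹ • cov (k, false)) (Φ.U po z (g z)) := by
    rw [map_smul]
    rfl
  rw [e2]
  cases n with
  | zero => exact (Φ.psi_ep0 _ _).symm
  | succ n =>
    rw [Φ.psi_ep, ← e]
    rfl

theorem a_val_DPD1 (i : Fin d × Bool) (g : Fn Ω F) (z : E d) :
    ((Φ.site Ω c).a i g).1 z = Φ.C.a i (g.1 z) := congrFun (cst_val (Φ.C.a i) g) z

theorem Z_val_DPD1 (hc : c i.1 = 0) (g : Fn Ω F) (z : E d) :
    ((Φ.site Ω c).Z i g).1 z = (1 + (cov i z - 1) • Φ.C.n i) (g.1 z) := by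
  have h0 : cov i c = 0 := by
    by_contra h
    exact cov_ne_zero.1 h hc
  have h1 : ((Φ.site Ω c).n i g).1 z = Φ.C.n i (g.1 z) := by
    have h2 := congrFun (cst_val (Φ.C.a i) (cst Ω (Φ.C.b i) g)) z
    rw [cst_val (Φ.C.b i) g] at h2
    exact h2
  have h3 := congrFun (xc_val c i ((Φ.site Ω c).n i g)) z
  change g.1 z + ((xc Ω F c i ((Φ.site Ω c).n i g)).1 z - ((Φ.site Ω c).n i g).1 z) =
    g.1 z + (cov i z - 1) • Φ.C.n i (g.1 z)
  rw [h3, h1, map_sub, h0, sub_zero, sub_smul, one_smul]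

theorem U_empty (z : E d) : Φ.U ∅ z = 1 := Φ.C.G_empty_DPD1 _
theorem U_insert (h : i ∉ po) (z : E d) :
    Φ.U (insert i po) z = (1 + ((cov i z)⁻¹ - 1) • Φ.C.n i) * Φ.U po z :=
  Φ.C.G_insert_DPD1 h _
theorem U_inv (hz : ∀ i ∈ po, z i.1 ≠ 0) : ∃ V : F →L[ℂ] F, V * Φ.U po z = 1 ∧ Φ.U po z * V = 1 ∧
    ∀ p, ∀ u ∈ Φ.HF p, V u ∈ Φ.HF p := by
  refine ⟨Φ.C.G_DPD1 po fun i => cov i z - 1, Φ.C.G_inv_DPD1 fun i hi => ?_, Φ.UV_DPD1 hz,
    fun p => Φ.G_HF_DPD1 p po _⟩
  have := cov_ne_zero.2 (hz i hi)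
  field_simp
  ring
theorem U_HF (p : ℕ) (po : Finset (Fin d × Bool)) (z : E d) :
    ∀ u ∈ Φ.HF p, Φ.U po z u ∈ Φ.HF p := Φ.G_HF_DPD1 p po _
theorem U_cda (hz : ∀ i ∈ po, z i.1 ≠ 0) : ContDiffAt ℝ ∞ (Φ.U po) z := by
  induction po using Finset.induction_on with
  | empty =>
    rw [show Φ.U ∅ = fun _ => 1 from funext Φ.U_empty]
    exact contDiffAt_const
  | insert i po hi ih =>
    rw [show Φ.U (insert i po) = _ from funext (Φ.U_insert hi)]
    exact (contDiffAt_const.add ((inv_cda_DPD1 (hz i (Finset.mem_insert_self _ _))).smul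
      contDiffAt_const)).mul (ih fun j hj => hz j (Finset.mem_insert_of_mem hj))
theorem ren_congr {g g' : E d → F} (h : g z = g' z) (n : ℕ) :
    Φ.ren po g n z = Φ.ren po g' n z := by
  rw [ren_apply, ren_apply, h]
theorem ren_eq_zero (hz : ∀ i ∈ po, z i.1 ≠ 0) {g : E d → F} :
    (∀ n, Φ.ren po g n z = 0) ↔ g z = 0 := by
  refine ⟨fun h => ?_, fun h n => by rw [ren_apply, h, map_zero, map_zero]⟩
  obtain ⟨V, h1, -, -⟩ := Φ.U_inv hz
  have h2 : Φ.U po z (g z) = 0 := Φ.ext _ h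
  have h3 : (V * Φ.U po z) (g z) = V (Φ.U po z (g z)) := rfl
  rw [h1, h2, map_zero] at h3
  exact h3
theorem ren_ty (hz : ∀ i ∈ po, z i.1 ≠ 0) {g : E d → F} (p : ℕ) :
    (∀ n, tyA (Jc d) p n (Φ.ren po g n z) = 0) ↔ g z ∈ Φ.HF p := by
  refine (Φ.ty_iff p (Φ.U po z (g z))).trans ⟨fun h => ?_, Φ.U_HF p po z _⟩
  obtain ⟨V, h1, -, h2⟩ := Φ.U_inv hz
  have h3 : (V * Φ.U po z) (g z) ∈ Φ.HF p := h2 p _ h
  rw [h1] at h3
  exact h3
theorem ren_cda (hz : ∀ i ∈ po, z i.1 ≠ 0) {g : E d → F} (hg : ContDiffAt ℝ ∞ g z) (n : ℕ) :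
    ContDiffAt ℝ ∞ (Φ.ren po g n) z :=
  ((Φ.psi n).restrictScalars ℝ).contDiff.contDiffAt.comp z
    (Φ.G_cda_DPD1 (t := fun i y => (cov i y)⁻¹ - 1) (fun i hi => inv_cda_DPD1 (hz i hi)) hg)
theorem ren_vac (hz : z ∈ Ω) (n : ℕ) : Φ.ren po (Φ.vacF Ω).1 n z = (oneG : GF (E d)) n z := by
  rw [ren_apply, vacF, Fn.mk_apply _ hz, U_eq_DPD1, G_vac_DPD1, Φ.psi_vac n z]
theorem ren_a (hk : (k, false) ∈ po) (g : Fn Ω F) (n : ℕ) (z : E d) :
    lg (fun z => z k) (Φ.ren po g.1) n z = Φ.ren po ((Φ.site Ω c).a (k, false) g).1 n z := by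
  have h := Φ.C.G_a_DPD1 hk fun i => (cov i z)⁻¹ - 1
  rw [cov_false, add_sub_cancel] at h
  rw [lg_ren_DPD1, ren_apply, a_val_DPD1]
  exact congrArg (Φ.psi n) (DFunLike.congr_fun h (g.1 z)).symm
theorem ren_a_ins (hk : (k, false) ∉ po) (g : Fn Ω F) (n : ℕ) (z : E d) :
    lg (fun z => z k) (Φ.ren po g.1) n z =
      Φ.ren (insert (k, false) po) ((Φ.site Ω c).a (k, false) g).1 n z := by
  have h := Φ.C.G_a_ins_DPD1 hk fun i => (cov i z)⁻¹ - 1
  rw [cov_false, add_sub_cancel] at h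
  rw [lg_ren_DPD1, ren_apply, a_val_DPD1]
  exact congrArg (Φ.psi n) (DFunLike.congr_fun h (g.1 z)).symm
theorem ren_Z (h : i ∉ po) (hc : c i.1 = 0) (hz : z i.1 ≠ 0) (g : Fn Ω F) (n : ℕ) :
    Φ.ren (insert i po) ((Φ.site Ω c).Z i g).1 n z = Φ.ren po g.1 n z := by
  have h1 : Φ.U (insert i po) z * (1 + (cov i z - 1) • Φ.C.n i) = Φ.U po z := by
    have := cov_ne_zero.2 hz
    rw [Φ.U_insert h, U_eq_DPD1, (Φ.C.G_fc_DPD1 i _).eq, mul_assoc, Φ.C.fi_DPD1, mul_one]
    field_simp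
    ring
  rw [ren_apply, ren_apply, Φ.Z_val_DPD1 hc, ← h1]
  rfl
theorem ren_ZZ (hd : Disjoint al J) (hc : ∀ k ∈ J, c k = 0) (hz : z ∈ Rg J) (g : Fn Ω F) (n : ℕ) :
    Φ.ren (pf (al ∪ J)) ((Φ.site Ω c).ZZ J g).1 n z = Φ.ren (pf al) g.1 n z := by
  induction J using Finset.induction_on with
  | empty =>
    rw [Finset.union_empty, Site.ZZ, cp_empty]
    rfl
  | insert k J hk ih =>
    rw [Finset.disjoint_insert_right] at hd
    have e : pf (al ∪ insert k J) = insert (k, false) (pf (al ∪ J)) := by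
      ext ⟨l, t⟩
      cases t <;> simp
    rw [e, Site.ZZ, cp_insert (fun _ _ => Site.Z_comm _ _ _) hk, Module.End.mul_apply,
      Φ.ren_Z (by simp [hk, hd.1]) (hc k (Finset.mem_insert_self _ _))
        (hz k (Finset.mem_insert_self _ _))]
    exact ih hd.2 (fun l hl => hc l (Finset.mem_insert_of_mem hl))
      fun l hl => hz l (Finset.mem_insert_of_mem hl)
theorem lgL_congr {f g : GF (E d)} (h : ∀ n, f n z = g n z) (L : List (Fin d)) (n : ℕ) :
    lgL L f n z = lgL L g n z := by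
  induction L generalizing n with
  | nil => exact h n
  | cons k L ih => exact wG_congr rfl ih n
theorem ren_aL {L : List (Fin d)} (hL : ∀ k ∈ L, (k, false) ∈ po) (g : Fn Ω F) (n : ℕ) (z : E d) :
    lgL L (Φ.ren po g.1) n z = Φ.ren po ((Φ.site Ω c).aL L g).1 n z := by
  induction L generalizing n with
  | nil =>
    rw [CAR.aL_nil]
    rfl
  | cons k L ih =>
    rw [CAR.aL_cons, Module.End.mul_apply, ← Φ.ren_a (hL k List.mem_cons_self)]
    exact wG_congr rfl (ih fun l hl => hL l (List.mem_cons_of_mem _ hl)) n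
theorem ren_wr {L : List (Fin d)} (hL : L.toFinset ⊆ al) (hc : ∀ k ∈ al, c k = 0) (hz : z ∈ Rg al)
    (g : Fn Ω F) (n : ℕ) : lgL L (Φ.ren ∅ g.1) n z =
      Φ.ren (pf al) ((Φ.site Ω c).aL L ((Φ.site Ω c).ZZ (al \ L.toFinset) g)).1 n z := by
  have h1 : ∀ n, Φ.ren ∅ g.1 n z = Φ.ren (pf al) ((Φ.site Ω c).ZZ al g).1 n z := fun n => by
    have h := Φ.ren_ZZ (Finset.disjoint_empty_left al) hc hz g n
    rw [Finset.empty_union, show pf (∅ : Finset (Fin d)) = ∅ by simp [pf]] at h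
    exact h.symm
  rw [lgL_congr h1, Φ.ren_aL (c := c)
    (fun k hk => mem_pf.2 ⟨hL (List.mem_toFinset.2 hk), rfl⟩), ← Module.End.mul_apply,
    (Φ.site Ω c).aL_ZZ'_DPD1 hL, Module.End.mul_apply]
theorem ren_exists (hΩ : ∀ z ∈ Ω, ∀ i ∈ po, z i.1 ≠ 0) {r : ℝ} (hr : 0 < r) {f : GF (E d)}
    (hf : ∀ n, ContDiffOn ℝ ∞ (f n) (ball c r ∩ Ω)) :
    ∃ g : Fn Ω F, ∀ z ∈ ball c (r / 2) ∩ Ω, ∀ n, f n z = Φ.ren po g.1 n z := by
  have hO : IsOpen (ball c r ∩ (Ω : Set (E d))) := isOpen_ball.inter Ω.isOpen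
  have h1 : ContDiffOn ℝ ∞ (fun y => Φ.C.G_DPD1 po (fun i => cov i y - 1)
      (Φ.all fun n => f n y)) (ball c r ∩ Ω) := fun y hy => by
    refine (Φ.G_cda_DPD1 (t := fun i y => cov i y - 1)
      (fun i _ => (cov i).contDiff.contDiffAt.sub contDiffAt_const) ?_).contDiffWithinAt
    exact ContDiffAt.sum fun n _ => ((Φ.phi n).restrictScalars ℝ).contDiff.contDiffAt.comp y
      ((hf n).contDiffAt (hO.mem_nhds hy))
  obtain ⟨g, hg⟩ := exists_cut hr h1
  refine ⟨g, fun y hy n => ?_⟩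
  have h2 := DFunLike.congr_fun (Φ.UV_DPD1 (hΩ y hy.2)) (Φ.all fun n => f n y)
  rw [ren_apply, hg y hy]
  exact ((congrArg (Φ.psi n) h2).trans (Φ.psi_all _ n)).symm

end FK

end Pool.Agent.PWD.Loc
end
end

-- part Pool.Agent.P.MP_65ad7c_ag.DPD2
section

/-! Pointwise dictionary: the exterior derivative and restriction to strata. -/

open Set Filter Topology TopologicalSpace Metric
open scoped ContDiff ComplexConjugate
open Pool.Agent.HT (Form Alt pull der kill)

noncomputable section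
namespace Pool.Agent.PWD.Loc

variable {d : ℕ} {F : Type} [NormedAddCommGroup F] [NormedSpace ℂ F] (Φ : FK d F)
  {Ω : Opens (E d)} {z c : E d} {po : Finset (Fin d × Bool)} {al J : Finset (Fin d)} {k : Fin d}
  {i : Fin d × Bool}

namespace FK

theorem step_DPD2 (hz : z i.1 ≠ 0) {h : E d → F} (hh : DifferentiableAt ℝ h z)
    (wt : Fin d × Bool → ℂ) :
    ∑ j, wt j • Φ.C.a j (wv j (fderiv ℝ
      (fun y => ((1 : F →L[ℂ] F) + ((cov i y)⁻¹ - 1) • Φ.C.n i) (h y)) z)) =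
    ((1 : F →L[ℂ] F) + ((cov i z)⁻¹ - 1) • Φ.C.n i)
      (∑ j, (wt j * if j = i then cov i z else 1) • Φ.C.a j (wv j (fderiv ℝ h z))) := by
  have h0 : cov i z ≠ 0 := cov_ne_zero.2 hz
  have h1 : HasFDerivAt (fun y => (cov i y)⁻¹ - 1) ((-((cov i z) ^ 2)⁻¹) • cov i) z :=
    ((hasDerivAt_inv h0).comp_hasFDerivAt z (cov i).hasFDerivAt).sub_const 1
  have h2 : HasFDerivAt (fun y => Φ.C.n i (h y))
      (((Φ.C.n i).restrictScalars ℝ).comp (fderiv ℝ h z)) z :=
    ((Φ.C.n i).restrictScalars ℝ).hasFDerivAt.comp z hh.hasFDerivAt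
  have h3 : fderiv ℝ (fun y => ((1 : F →L[ℂ] F) + ((cov i y)⁻¹ - 1) • Φ.C.n i) (h y)) z = _ :=
    (hh.hasFDerivAt.fun_add (h1.fun_smul h2)).fderiv
  rw [h3, map_sum]
  refine Finset.sum_congr rfl fun j _ => ?_
  rw [wv_add, wv_add, wv_smul, wv_comp, wv_smulRight, wv_smul, wv_cov]
  generalize wv j (fderiv ℝ h z) = v
  by_cases hj : j = i
  · subst hj
    have e1 : ∀ u, Φ.C.a j (Φ.C.n j u) = 0 := fun u => congrArg (fun T => T u) (Φ.C.a_n j)
    have e2 : Φ.C.n j (Φ.C.a j v) = Φ.C.a j v := congrArg (fun T => T v) (Φ.C.n_a j)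
    simp only [map_add, map_smul, e1, smul_zero, add_zero, if_true, add_apply, smul_apply,
      one_apply_eq_self, e2]
    rw [sub_smul, one_smul, add_sub_cancel, smul_smul, mul_inv_cancel_right₀ h0]
  · have e1 : Φ.C.n i (Φ.C.a j v) = Φ.C.a j (Φ.C.n i v) :=
      congrArg (fun T => T v) (Φ.C.n_a_ne (Ne.symm hj)).eq
    simp only [map_add, map_smul, if_neg hj, smul_zero, zero_smul, add_zero, mul_one, add_apply,
      smul_apply, one_apply_eq_self, e1]

theorem diff_DPD2 (hp : ∀ i ∈ po, z i.1 ≠ 0) {g : E d → F} (hg : DifferentiableAt ℝ g z) :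
    DifferentiableAt ℝ (fun y => Φ.U po y (g y)) z := by
  have h1 := (Φ.U_cda hp).differentiableAt (by simp)
  have h2 : DifferentiableAt ℝ (fun y => (Φ.U po y).restrictScalars ℝ) z :=
    (ContinuousLinearMap.restrictScalarsL ℂ F F ℝ ℝ).differentiableAt.comp z h1
  exact h2.clm_apply hg

theorem key_DPD2 (hp : ∀ i ∈ po, z i.1 ≠ 0) {g : E d → F} (hg : DifferentiableAt ℝ g z)
    (wt : Fin d × Bool → ℂ) :
    ∑ j, wt j • Φ.C.a j (wv j (fderiv ℝ (fun y => Φ.U po y (g y)) z)) =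
      Φ.U po z (∑ j, (wt j * if j ∈ po then cov j z else 1) • Φ.C.a j (wv j (fderiv ℝ g z))) := by
  induction po using Finset.induction_on generalizing wt with
  | empty => simp [U_empty]
  | insert i po hi ih =>
    have hp' : ∀ j ∈ po, z j.1 ≠ 0 := fun j hj => hp j (Finset.mem_insert_of_mem hj)
    simp only [Φ.U_insert hi, mul_apply_eq_comp]
    rw [Φ.step_DPD2 (hp i (Finset.mem_insert_self _ _)) (Φ.diff_DPD2 hp' hg), ih hp']
    congr 2
    refine Finset.sum_congr rfl fun j _ => ?_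
    congr 1
    by_cases hj : j = i
    · subst hj
      simp [hi]
    · simp [hj]

theorem delta_DPD2 (hz : z ∈ Ω) (hc : ∀ i ∈ po, c i.1 = 0) (g : Fn Ω F) :
    ((Φ.site Ω c).δ po g).1 z =
      ∑ j, (1 * if j ∈ po then cov j z else 1) • Φ.C.a j (wv j (fderiv ℝ g.1 z)) := by
  rw [Site.δ, LinearMap.sum_apply, Submodule.coe_sum, Finset.sum_apply]
  refine Finset.sum_congr rfl fun j _ => ?_
  show (cst Ω (Φ.C.a j) ((Φ.site Ω c).X po j g)).1 z = _
  rw [cst_val, Site.X]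
  by_cases hj : j ∈ po
  · have h0 : cov j c = 0 := not_not.1 fun h => cov_ne_zero.1 h (hc j hj)
    rw [if_pos hj, if_pos hj]
    show Φ.C.a j ((xc Ω F c j (dw Ω F j g)).1 z) = _
    rw [xc_val]
    simp only [dw_apply j g hz, map_sub, h0, sub_zero, map_smul, one_mul]
  · rw [if_neg hj, if_neg hj]
    show Φ.C.a j ((dw Ω F j g).1 z) = _
    rw [dw_apply j g hz, one_mul, one_smul]

theorem ren_δ (hz : z ∈ Ω) (hp : ∀ i ∈ po, z i.1 ≠ 0) (hc : ∀ i ∈ po, c i.1 = 0) (g : Fn Ω F)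
    (n : ℕ) : dG (Φ.ren po g.1) n z = Φ.ren po ((Φ.site Ω c).δ po g).1 n z := by
  have h1 := Φ.key_DPD2 hp (Fn.diff g hz) fun _ => 1
  rw [ren_apply, Φ.delta_DPD2 hz hc, ← h1]
  simp only [one_smul]
  cases n with
  | zero =>
    rw [map_sum]
    exact (Finset.sum_eq_zero fun j _ => Φ.psi_ep0 _ _).symm
  | succ n =>
    rw [psi_d]
    exact congrArg ContinuousAlternatingMap.alternatizeUncurryFin
      (((Φ.psi n).restrictScalars ℝ).hasFDerivAt.comp z
        (Φ.diff_DPD2 hp (Fn.diff g hz)).hasFDerivAt).fderiv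

theorem n_DPD2 (i : Fin d × Bool) : 1 - (Φ.site Ω c).n i = cst Ω (1 - Φ.C.n i) := by
  rw [cst_sub, cst_one, CAR.n, CAR.n, cst_mul]
  rfl

theorem comm_DPD2 {T : F →L[ℂ] F} (h : ∀ i, Commute T (Φ.C.n i)) (k : Fin d) :
    Commute T ((1 - Φ.C.n (k, true)) * (1 - Φ.C.n (k, false))) :=
  ((Commute.one_right _).sub_right (h _)).mul_right ((Commute.one_right _).sub_right (h _))

theorem kR_DPD2 (J : Finset (Fin d)) (z : E d) (l : Fin d) :
    kR J z l = if l ∈ J then 0 else z l := by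
  split_ifs with h
  · exact HT.kill_of_mem (Finset.mem_coe.2 h) z
  · exact HT.kill_of_notMem (mt Finset.mem_coe.1 h) z

theorem PP_apply (hc : ∀ k ∈ J, c k = 0) (g : Fn (⊤ : Opens (E d)) F) (z : E d) :
    ((Φ.site ⊤ c).PP J g).1 z =
      cp J (fun k => (1 - Φ.C.n (k, true)) * (1 - Φ.C.n (k, false))) (g.1 (kR J z)) := by
  induction J using Finset.induction_on generalizing z with
  | empty =>
    have e : kR ∅ z = z := funext fun l => by simp [kR_DPD2]
    simp [Site.PP, e]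
  | insert k J hk ih =>
    have e : kR (insert k J) z = kR J (Function.update z k (c k)) := funext fun l => by
      rw [kR_DPD2, kR_DPD2]
      by_cases hl : l = k
      · subst hl
        simp [hc l (Finset.mem_insert_self _ _)]
      · simp [hl]
    rw [Site.PP, cp_insert (Site.P_comm _) hk, cp_insert (fun k l => Φ.comm_DPD2
      (fun i => (Φ.comm_DPD2 (Φ.C.n_comm i) k).symm) l) hk, Site.P, n_DPD2, n_DPD2, e]
    show (evc ⊤ F c k (cst ⊤ _ (cst ⊤ _ ((Φ.site ⊤ c).PP J g)))).1 z = _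
    rw [evc_apply (Ω := ⊤) (fun _ _ => Opens.mem_top _) _ (Opens.mem_top z), cst_val, cst_val]
    simp only [ih fun l hl => hc l (Finset.mem_insert_of_mem hl)]
    rfl

theorem ren_PP (hc : ∀ k ∈ J, c k = 0) (hp : ∀ i ∈ po, i.1 ∉ J) (g : Fn (⊤ : Opens (E d)) F)
    (n : ℕ) (z : E d) :
    pullG (kR J) (Φ.ren po g.1) n z = Φ.ren po ((Φ.site ⊤ c).PP J g).1 n z := by
  have e : Φ.U po (kR J z) = Φ.U po z := by
    unfold U cp
    refine congrArg List.prod (List.map_congr_left fun i hi => ?_)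
    have h1 : kR J z i.1 = z i.1 := by rw [kR_DPD2, if_neg (hp i (Finset.mem_toList.1 hi))]
    have h2 : cov i (kR J z) = cov i z := by
      unfold cov
      split_ifs <;> simp [h1]
    rw [h2]
  have hcm : Commute (Φ.U po z)
      (cp J fun k => (1 - Φ.C.n (k, true)) * (1 - Φ.C.n (k, false))) :=
    commute_cp fun k _ => Φ.comm_DPD2 (fun i => (commute_cp fun j _ =>
      (Commute.one_right _).add_right ((Φ.C.n_comm i j).smul_right _)).symm) k
  rw [ren_apply, Φ.PP_apply hc]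
  show (Φ.psi n (Φ.U po (kR J z) (g.1 (kR J z)))).compContinuousLinearMap
    (fderiv ℝ (kR J) z) = _
  rw [ContinuousLinearMap.fderiv, ← psi_kill, e]
  exact congrArg (fun T : F →L[ℂ] F => Φ.psi n (T (g.1 (kR J z)))) hcm.eq.symm

end FK

end Pool.Agent.PWD.Loc
end
end

-- part Pool.Agent.P.MP_65ad7c_ag.DPG4
section

/-! Homotopy formulas at one site. -/

noncomputable section
namespace Pool.Agent.PWD.Loc

section abstract
variable {R : Type} [Ring R]

theorem can_DPG4 {L G B Y : R} (h1 : L * G = 1 - B) (h2 : G * L = 1 - B) (h3 : B * G = 0)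
    (h4 : G * B = 0) (hL : Commute Y L) (hB : Commute Y B) : Commute Y G := by
  have e1 : L * G + B = 1 := by rw [h1, sub_add_cancel]
  have e2 : G * Y = (G * L) * (Y * G) + (G * B) * Y := by
    calc G * Y = G * Y * (L * G + B) := by rw [e1, mul_one]
      _ = G * (Y * L) * G + G * (Y * B) := by noncomm_ring
      _ = _ := by
        rw [hL.eq, hB.eq]
        noncomm_ring
  have e3 : B * (Y * G) = 0 := by rw [← mul_assoc, ← hB.eq, mul_assoc, h3, mul_zero]
  rw [h2, h4, zero_mul, add_zero, sub_mul, one_mul, e3, sub_zero] at e2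
  exact e2.symm

theorem inv0_DPG4 {E G0 I0 I1 ev N p0 p1 p2 : R} (hs : p0 + p1 + p2 = 1)
    (n0 : N * p0 = 0) (n1 : N * p1 = p1) (n2 : N * p2 = 2 * p2)
    (m0 : p0 * N = 0) (m1 : p1 * N = p1) (m2 : p2 * N = 2 * p2)
    (o01 : p0 * p1 = 0) (o02 : p0 * p2 = 0) (o10 : p1 * p0 = 0) (o20 : p2 * p0 = 0)
    (cG : Commute N G0) (c0 : Commute N I0) (c1 : Commute N I1)
    (e0 : Commute p0 E) (e1 : Commute p1 E) (e2 : Commute p2 E)
    (g0 : Commute p0 G0) (g1 : Commute p0 I0) (g2 : Commute p0 I1)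
    (v0 : Commute p0 ev) (v1 : Commute p1 ev) (v2 : Commute p2 ev)
    (EG : E * G0 = 1 - ev) (GE : G0 * E = 1 - ev) (vG : ev * G0 = 0) (Gv : G0 * ev = 0)
    (l0 : I0 * (E + 1) = 1) (r0 : (E + 1) * I0 = 1) (l1 : I1 * (E + 2) = 1)
    (r1 : (E + 2) * I1 = 1) :
    (E + N) * (G0 * p0 + I0 * p1 + I1 * p2) = 1 - ev * p0 ∧
    (G0 * p0 + I0 * p1 + I1 * p2) * (E + N) = 1 - ev * p0 ∧
    (ev * p0) * (G0 * p0 + I0 * p1 + I1 * p2) = 0 ∧
    (G0 * p0 + I0 * p1 + I1 * p2) * (ev * p0) = 0 := by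
  have a0 : (E + N) * (G0 * p0) = (1 - ev) * p0 := by
    rw [add_mul, ← mul_assoc, EG, ← mul_assoc, cG.eq, mul_assoc G0, n0, mul_zero, add_zero]
  have a1 : (E + N) * (I0 * p1) = p1 := by
    rw [add_mul, ← mul_assoc N, c0.eq, mul_assoc I0, n1]
    calc E * (I0 * p1) + I0 * p1 = ((E + 1) * I0) * p1 := by noncomm_ring
      _ = p1 := by rw [r0, one_mul]
  have a2 : (E + N) * (I1 * p2) = p2 := by
    rw [add_mul, ← mul_assoc N, c1.eq, mul_assoc I1, n2]
    calc E * (I1 * p2) + I1 * (2 * p2) = ((E + 2) * I1) * p2 := by noncomm_ring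
      _ = p2 := by rw [r1, one_mul]
  have b0 : G0 * p0 * (E + N) = (1 - ev) * p0 := by
    rw [mul_assoc, mul_add, m0, add_zero, e0.eq, ← mul_assoc, GE]
  have b1 : I0 * p1 * (E + N) = p1 := by
    rw [mul_assoc, mul_add, m1, e1.eq]
    calc I0 * (E * p1 + p1) = (I0 * (E + 1)) * p1 := by noncomm_ring
      _ = p1 := by rw [l0, one_mul]
  have b2 : I1 * p2 * (E + N) = p2 := by
    rw [mul_assoc, mul_add, m2, e2.eq]
    calc I1 * (E * p2 + 2 * p2) = (I1 * (E + 2)) * p2 := by noncomm_ring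
      _ = p2 := by rw [l1, one_mul]
  have hs' : (1 - ev) * p0 + p1 + p2 = 1 - ev * p0 := by
    rw [sub_mul, one_mul, ← hs]
    abel
  refine ⟨?_, ?_, ?_, ?_⟩
  · rw [mul_add, mul_add, a0, a1, a2, hs']
  · rw [add_mul, add_mul, b0, b1, b2, hs']
  · have t0 : ev * p0 * (G0 * p0) = 0 := by
      rw [mul_assoc, ← mul_assoc p0, g0.eq, ← mul_assoc, ← mul_assoc, vG, zero_mul, zero_mul]
    have t1 : ev * p0 * (I0 * p1) = 0 := by
      rw [mul_assoc, ← mul_assoc p0, g1.eq, mul_assoc, o01, mul_zero, mul_zero]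
    have t2 : ev * p0 * (I1 * p2) = 0 := by
      rw [mul_assoc, ← mul_assoc p0, g2.eq, mul_assoc, o02, mul_zero, mul_zero]
    rw [mul_add, mul_add, t0, t1, t2, add_zero, add_zero]
  · have t0 : G0 * p0 * (ev * p0) = 0 := by
      rw [mul_assoc, ← mul_assoc p0, v0.eq, ← mul_assoc, ← mul_assoc, Gv, zero_mul, zero_mul]
    have t1 : I0 * p1 * (ev * p0) = 0 := by
      rw [mul_assoc, ← mul_assoc p1, v1.eq, mul_assoc, o10, mul_zero, mul_zero]
    have t2 : I1 * p2 * (ev * p0) = 0 := by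
      rw [mul_assoc, ← mul_assoc p2, v2.eq, mul_assoc, o20, mul_zero, mul_zero]
    rw [add_mul, add_mul, t0, t1, t2, add_zero, add_zero]

theorem inv_DPG4 {E G0 I0 I1 ev m m' : R} (hm : m * m = m) (hm' : m' * m' = m')
    (c : Commute m m') (hc : ∀ Y ∈ [E, G0, I0, I1, ev], Commute m Y ∧ Commute m' Y)
    (EG : E * G0 = 1 - ev) (GE : G0 * E = 1 - ev) (vG : ev * G0 = 0) (Gv : G0 * ev = 0)
    (l0 : I0 * (E + 1) = 1) (r0 : (E + 1) * I0 = 1) (l1 : I1 * (E + 2) = 1)
    (r1 : (E + 2) * I1 = 1) {G B : R}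
    (hG : G = G0 * ((1 - m') * (1 - m)) + I0 * (m * (1 - m') + m' * (1 - m)) + I1 * (m * m'))
    (hB : B = ev * ((1 - m') * (1 - m))) :
    (E + (m + m')) * G = 1 - B ∧ G * (E + (m + m')) = 1 - B ∧ B * G = 0 ∧ G * B = 0 := by
  have q1 : ∀ z, m * (m * z) = m * z := fun z => by rw [← mul_assoc, hm]
  have q3 : m' * m = m * m' := c.eq.symm
  have q4 : ∀ z, m' * (m * z) = m * (m' * z) := fun z => by rw [← mul_assoc, q3, mul_assoc]
  have cN : ∀ Y ∈ [E, G0, I0, I1, ev], Commute (m + m') Y := fun Y hY =>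
    (hc Y hY).1.add_left (hc Y hY).2
  have u : ∀ Y ∈ [E, G0, I0, I1, ev], Commute (1 - m) Y ∧ Commute (1 - m') Y := fun Y hY =>
    ⟨(Commute.one_left Y).sub_left (hc Y hY).1, (Commute.one_left Y).sub_left (hc Y hY).2⟩
  have c0 : ∀ Y ∈ [E, G0, I0, I1, ev], Commute ((1 - m') * (1 - m)) Y := fun Y hY =>
    (u Y hY).2.mul_left (u Y hY).1
  have c1 : ∀ Y ∈ [E, G0, I0, I1, ev], Commute (m * (1 - m') + m' * (1 - m)) Y := fun Y hY =>
    ((hc Y hY).1.mul_left (u Y hY).2).add_left ((hc Y hY).2.mul_left (u Y hY).1)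
  have c2 : ∀ Y ∈ [E, G0, I0, I1, ev], Commute (m * m') Y := fun Y hY =>
    (hc Y hY).1.mul_left (hc Y hY).2
  subst hG hB
  refine inv0_DPG4 ?_ ?_ ?_ ?_ ?_ ?_ ?_ ?_ ?_ ?_ ?_ (cN _ (by simp)) (cN _ (by simp))
    (cN _ (by simp)) (c0 _ (by simp)) (c1 _ (by simp)) (c2 _ (by simp)) (c0 _ (by simp))
    (c0 _ (by simp)) (c0 _ (by simp)) (c0 _ (by simp)) (c1 _ (by simp)) (c2 _ (by simp))
    EG GE vG Gv l0 r0 l1 r1
  all_goals
    simp only [mul_add, add_mul, mul_sub, sub_mul, mul_assoc, mul_one, one_mul, two_mul, hm, hm',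
      q1, q3, q4]
    try abel

theorem av_DPG4 {Th T Av : R} (lT : T * Th = 1 - Av) (rT : Th * T = 1 - Av) (hA : Av * Th = 0) :
    Th * Av = 0 ∧ Av * Av = Av ∧ (∀ Y, Commute Y Th → Commute Y Av) ∧
    (1 - Av) * T * (1 - Av) * Th = 1 - Av ∧
    ∀ Y, Commute Y Th → Commute Y ((1 - Av) * T * (1 - Av)) := by
  have h1 : Th * Av = 0 := by
    have e : Th * (1 - Av) = (1 - Av) * Th := by
      calc Th * (1 - Av) = Th * (T * Th) := by rw [lT]
        _ = (1 - Av) * Th := by rw [← mul_assoc, rT]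
    rw [mul_sub, sub_mul, hA, mul_one, one_mul, sub_zero] at e
    exact sub_eq_self.1 e
  have h2 : Av * (1 - Av) = 0 := by rw [← rT, ← mul_assoc, hA, zero_mul]
  have h3 : Av * Av = Av := by
    rw [mul_sub, mul_one] at h2
    exact (sub_eq_zero.1 h2).symm
  have h4 : (1 - Av) * Av = 0 := by rw [sub_mul, one_mul, h3, sub_self]
  have h5 : (1 - Av) * (1 - Av) = 1 - Av := by rw [mul_sub, mul_one, h4, sub_zero]
  have h6 : ∀ Y, Commute Y Th → Commute Y Av := fun Y hY => by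
    have e1 : Av * Y * (1 - Av) = 0 := by
      rw [← rT, mul_assoc, ← mul_assoc Y, hY.eq, ← mul_assoc, ← mul_assoc, hA, zero_mul, zero_mul]
    have e2 : (1 - Av) * Y * Av = 0 := by
      rw [← lT, mul_assoc T, ← hY.eq, mul_assoc, mul_assoc, h1, mul_zero, mul_zero]
    rw [mul_sub, mul_one] at e1
    rw [sub_mul, sub_mul, one_mul] at e2
    exact (sub_eq_zero.1 e2).trans (sub_eq_zero.1 e1).symm
  have h7 : (1 - Av) * T * (1 - Av) * Th = 1 - Av := by
    rw [mul_assoc, sub_mul 1 Av Th, hA, one_mul, sub_zero, mul_assoc, lT, h5]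
  have h8 : Th * ((1 - Av) * T * (1 - Av)) = 1 - Av := by
    rw [← mul_assoc, ← mul_assoc, mul_sub Th, h1, mul_one, sub_zero, rT, h5]
  refine ⟨h1, h3, h6, h7, fun Y hY => can_DPG4 h8 h7 ?_ ?_ hY (h6 Y hY)⟩
  · rw [← mul_assoc, ← mul_assoc, h2, zero_mul, zero_mul]
  · rw [mul_assoc, h4, mul_zero]

theorem sol_DPG4 {E S C Y : R} (lS : S * E = 1 - C) (rS : E * S = 1) (hE : Commute Y E)
    (hC : Commute Y C) : Commute Y S := by
  have h1 : C * S = 0 := by
    have e : (1 - C) * S = S := by rw [← lS, mul_assoc, rS, mul_one]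
    rw [sub_mul, one_mul] at e
    exact sub_eq_self.1 e
  have h2 : S * Y = Y * S := by
    calc S * Y = S * Y * (E * S) := by rw [rS, mul_one]
      _ = S * (Y * E) * S := by noncomm_ring
      _ = (1 - C) * Y * S := by rw [hE.eq, ← mul_assoc, lS]
      _ = Y * S - Y * (C * S) := by rw [sub_mul, one_mul, ← hC.eq, sub_mul, mul_assoc]
      _ = Y * S := by rw [h1, mul_zero, sub_zero]
  exact h2.symm

end abstract

variable {K R : Type} [DecidableEq K] [Ring R] [Algebra ℂ R]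

namespace Site
variable [Fintype K] {s : Site K R} {k : K} {po : Finset (K × Bool)}

omit [Fintype K] in
theorem FOut_DPG4 {T T' : R} (hT : T ∈ s.FOut k) (h : ∀ Y, Commute Y T → Commute Y T') :
    T' ∈ s.FOut k := by
  rw [mem_FOut] at hT ⊢
  exact ⟨fun i => ⟨(h _ (hT.1 i).1.symm).symm, (h _ (hT.1 i).2.symm).symm⟩,
    fun i hi => ⟨(h _ (hT.2.1 i hi).1.symm).symm, (h _ (hT.2.1 i hi).2.symm).symm⟩,
    fun l hl => (h _ (hT.2.2 l hl).symm).symm⟩

omit [Algebra ℂ R] in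
theorem δx_DPG4 {i : K × Bool} (h : i ∉ po) : s.δ po * s.x i = s.x i * s.δ po + s.a i := by
  have e : ∀ j, s.a j * s.X po j * s.x i =
      s.x i * (s.a j * s.X po j) + if j = i then s.a i else 0 := by
    intro j
    have h1 := s.Dx j i
    have h2 := (s.xa i j).eq
    by_cases hj : j = i
    · subst hj
      rw [if_pos rfl] at h1 ⊢
      rw [X, if_neg h, mul_assoc, eq_add_of_sub_eq h1, mul_add, mul_one, ← mul_assoc, ← h2,
        mul_assoc, add_comm]
    · rw [if_neg hj] at h1 ⊢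
      have h3 : Commute (s.D j) (s.x i) := sub_eq_zero.1 h1
      have h4 : Commute (s.X po j) (s.x i) := by
        unfold X
        split_ifs
        · exact (s.xx j i).mul_left h3
        · exact h3
      rw [add_zero, ((s.xa i j).symm.mul_left h4).eq]
  rw [δ, Finset.sum_mul, Finset.mul_sum, Finset.sum_congr rfl fun j _ => e j,
    Finset.sum_add_distrib, Finset.sum_ite_eq', if_pos (Finset.mem_univ _)]

theorem xb_DPG4 {i : K × Bool} (h : i ∉ po) :
    s.x i * s.b i * s.δ po + s.δ po * (s.x i * s.b i) = s.x i * s.D i + s.n i := by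
  have h1 := s.b_δ po i
  rw [X, if_neg h] at h1
  rw [← mul_assoc (s.δ po), δx_DPG4 h, ← h1, CAR.n]
  noncomm_ring

theorem Fr.aux_DPG4 (h : s.Fr k) {i m B : R} (hm : m * m = m) (c : Commute m (s.n (k, true)))
    (hc : ∀ Y ∈ s.FOut k, Commute m Y) (hi : i ∈ s.In k) (hm2 : m ∈ s.In k)
    (hL : i * s.δ po + s.δ po * i = s.Eu k + (m + s.n (k, true)))
    (hB : B = s.ev k * ((1 - s.n (k, true)) * (1 - m))) (hδ : Commute B (s.δ po)) : ∃ G : R,
    1 - B = s.δ po * (i * G) + i * G * s.δ po ∧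
    ∀ A : Subalgebra ℂ R, s.In k ≤ A → h.I0 ∈ A → h.I1 ∈ A → i * G ∈ A := by
  obtain ⟨G0, hG0⟩ : ∃ G0, G0 = s.x (k, false) * h.I0 * h.I0 * s.D (k, false)
    + s.x (k, true) * h.I0 * h.I0 * s.D (k, true) := ⟨_, rfl⟩
  have e1 : ∀ t, s.Eu k * (s.x (k, t) * h.I0 * h.I0 * s.D (k, t)) =
      s.x (k, t) * h.I0 * s.D (k, t) := fun t => by
    rw [← mul_assoc, ← mul_assoc, ← mul_assoc, s.Eu_x, mul_assoc (s.x (k, t)), h.r0, mul_one]
  have e2 : ∀ t, (s.x (k, t) * h.I0 * h.I0 * s.D (k, t)) * s.Eu k =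
      s.x (k, t) * h.I0 * s.D (k, t) := fun t => by
    rw [mul_assoc, s.D_Eu, ← mul_assoc, mul_assoc _ h.I0 (s.Eu k + 1), h.l0, mul_one]
  have e3 : ∀ t, s.ev k * (s.x (k, t) * h.I0 * h.I0 * s.D (k, t)) = 0 := fun t => by
    rw [← mul_assoc, ← mul_assoc, ← mul_assoc, h.ev_x, zero_mul, zero_mul, zero_mul]
  have e4 : ∀ t, (s.x (k, t) * h.I0 * h.I0 * s.D (k, t)) * s.ev k = 0 := fun t => by
    rw [mul_assoc, h.D_ev, mul_zero]
  have f0 : ∀ t, s.x (k, t) * h.I0 * h.I0 * s.D (k, t) ∈ s.FOut k := fun t =>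
    mul_mem (mul_mem (mul_mem (s.x_FOut (k, t)) h.I0_FOut) h.I0_FOut) (s.D_FOut (k, t))
  have hF : ∀ Y ∈ [s.Eu k, G0, h.I0, h.I1, s.ev k], Y ∈ s.FOut k := by
    simp only [List.mem_cons, List.not_mem_nil, or_false, forall_eq_or_imp, forall_eq]
    exact ⟨s.Eu_FOut k, hG0 ▸ add_mem (f0 _) (f0 _), h.I0_FOut, h.I1_FOut, s.ev_FOut k⟩
  obtain ⟨G, hG⟩ : ∃ G, G = G0 * ((1 - s.n (k, true)) * (1 - m))
    + h.I0 * (m * (1 - s.n (k, true)) + s.n (k, true) * (1 - m)) + h.I1 * (m * s.n (k, true)) :=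
    ⟨_, rfl⟩
  obtain ⟨g1, g2, g3, g4⟩ := inv_DPG4 hm (s.n_n (k, true)) c
    (fun Y hY => ⟨hc Y (hF Y hY), (s.FOut_n (hF Y hY) _).symm⟩)
    (by rw [hG0, mul_add, e1, e1, h.had]) (by rw [hG0, add_mul, e2, e2, h.had])
    (by rw [hG0, mul_add, e3, e3, add_zero]) (by rw [hG0, add_mul, e4, e4, add_zero])
    h.l0 h.r0 h.l1 h.r1 hG hB
  have hd := s.δ_δ po
  have cL : Commute (s.δ po) (s.Eu k + (m + s.n (k, true))) := by
    rw [← hL]
    change _ * _ = _ * _
    rw [mul_add, add_mul, ← mul_assoc (s.δ po) (s.δ po), hd, mul_assoc i, hd, zero_mul, mul_zero,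
      add_zero, zero_add, mul_assoc]
  have cG := can_DPG4 g1 g2 g3 g4 cL hδ.symm
  refine ⟨G, ?_, fun A hA h0 h1 => mul_mem (hA hi) ?_⟩
  · rw [mul_assoc i, ← cG.eq, ← g1, ← hL]
    noncomm_ring
  · have n1 : s.n (k, true) ∈ A := hA (s.n_In (k, true))
    have n2 : m ∈ A := hA hm2
    have f1 : ∀ t, s.x (k, t) * h.I0 * h.I0 * s.D (k, t) ∈ A := fun t =>
      mul_mem (mul_mem (mul_mem (hA (s.x_In (k, t))) h0) h0) (hA (s.D_In (k, t)))
    have n3 := sub_mem (one_mem A) n1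
    have n4 := sub_mem (one_mem A) n2
    rw [hG]
    exact add_mem (add_mem (mul_mem (hG0 ▸ add_mem (f1 _) (f1 _)) (mul_mem n3 n4))
      (mul_mem h0 (add_mem (mul_mem n2 n3) (mul_mem n1 n4)))) (mul_mem h1 (mul_mem n2 n1))

/-- the radial homotopy -/
theorem Fr.hty (h : s.Fr k) (ht : (k, true) ∉ po) : ∃ H : R,
    1 - (if (k, false) ∈ po then s.Q k else s.P k) = s.δ po * H + H * s.δ po ∧
    (∀ A : Subalgebra ℂ R, s.In k ≤ A → h.I0 ∈ A → h.I1 ∈ A → H ∈ A) ∧
    ((k, false) ∈ po → s.Rs k * H = 0) := by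
  have i1 : s.x (k, true) * s.b (k, true) ∈ s.In k :=
    mul_mem (s.x_In (k, true)) (s.b_In (k, true))
  by_cases hf : (k, false) ∈ po
  · rw [if_pos hf]
    obtain ⟨G, h1, h2⟩ := h.aux_DPG4 (po := po) (m := 0) (B := s.Q k)
      (i := s.b (k, false) + s.x (k, true) * s.b (k, true)) (mul_zero 0) (Commute.zero_left _)
      (fun Y _ => Commute.zero_left Y) (add_mem (s.b_In (k, false)) i1) (zero_mem _)
      (by
        have e1 := s.b_δ po (k, false)
        rw [X, if_pos hf] at e1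
        rw [Eu, zero_add, add_assoc, ← xb_DPG4 ht, ← e1]
        noncomm_ring)
      (by rw [Q, sub_zero, mul_one])
      (by
        rw [s.Q_eq]
        exact (h.P_δ po).add_left (h.Rs_δ hf ht))
    refine ⟨_, h1, h2, fun _ => ?_⟩
    have c : Commute (s.x (k, true)) ((1 - s.n (k, true)) * s.n (k, false)) :=
      ((Commute.one_right _).sub_right (s.FOut_n (s.x_FOut (k, true)) _)).mul_right
        (s.FOut_n (s.x_FOut (k, true)) _)
    have e1 : s.Rs k * s.b (k, false) = 0 := by rw [Rs, mul_assoc, s.n_b, mul_zero]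
    have e2 : s.Rs k * s.x (k, true) = 0 := by
      rw [Rs, mul_assoc (s.ev k), mul_assoc, ← c.eq, ← mul_assoc, h.ev_x, zero_mul]
    rw [← mul_assoc, mul_add, e1, ← mul_assoc, e2, zero_mul, add_zero, zero_mul]
  · rw [if_neg hf]
    obtain ⟨G, h1, h2⟩ := h.aux_DPG4 (po := po) (m := s.n (k, false)) (B := s.P k)
      (i := s.x (k, false) * s.b (k, false) + s.x (k, true) * s.b (k, true)) (s.n_n _)
      (s.n_comm _ _) (fun Y hY => (s.FOut_n hY _).symm)
      (add_mem (mul_mem (s.x_In (k, false)) (s.b_In (k, false))) i1) (s.n_In (k, false))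
      (by
        have e1 := xb_DPG4 (s := s) hf
        have e2 := xb_DPG4 (s := s) ht
        rw [Eu, add_add_add_comm, ← e1, ← e2]
        noncomm_ring)
      (by rw [P, mul_assoc]) (h.P_δ po)
    exact ⟨_, h1, h2, fun hf' => absurd hf' hf⟩

theorem Po.δS_DPG4 (h : s.Po k) (hf : (k, false) ∈ po) (ht : (k, true) ∈ po) {ar : R}
    (har : ar = (2⁻¹ : ℂ) • (s.a (k, false) + s.a (k, true))) :
    Commute ar h.S ∧ Commute (s.δ po - ar * s.Eu k) h.S := by
  have x0 : s.X po (k, false) = s.x (k, false) * s.D (k, false) := if_pos hf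
  have x1 : s.X po (k, true) = s.x (k, true) * s.D (k, true) := if_pos ht
  have ca : ∀ t, Commute (s.a (k, t)) h.S := fun t => sol_DPG4 h.lS h.rS
    ((s.mem_FOut.1 (s.Eu_FOut k)).1 _).1.symm ((s.mem_FOut.1 h.C_out).1 _).1.symm
  have cT : Commute (s.Th k) h.S := by
    refine sol_DPG4 h.lS h.rS ?_ h.C_Th.symm
    rw [Th, Eu, ← x0, ← x1]
    exact (((s.X_comm _ _).add_right (s.X_comm _ _)).sub_left
      ((s.X_comm _ _).add_right (s.X_comm _ _))).smul_left _
  have co : Commute (s.δo po k) h.S := sol_DPG4 h.lS h.rS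
    (s.Out_δo (s.FOut_le k (s.Eu_FOut k)) po).symm (s.Out_δo (s.FOut_le k h.C_out) po).symm
  have e : s.δ po - ar * s.Eu k =
      ((-Complex.I * 2⁻¹) • (s.a (k, false) - s.a (k, true))) * s.Th k + s.δo po k := by
    rw [s.δ_split po k, har, Th, Eu, ← x0, ← x1, smul_mul_smul_comm, smul_mul_assoc]
    have e1 : -Complex.I * 2⁻¹ * Complex.I = 2⁻¹ := by
      linear_combination (-2⁻¹ : ℂ) * Complex.I_mul_I
    rw [e1]
    simp only [mul_add, add_mul, mul_sub, sub_mul]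
    module
  refine ⟨har ▸ ((ca _).add_left (ca _)).smul_left _, ?_⟩
  rw [e]
  exact ((((ca _).sub_left (ca _)).smul_left _).mul_left cT).add_left co

/-- averaging over rotations, followed by the retraction onto a circle -/
theorem Po.hty (h : s.Po k) (hf : (k, false) ∈ po) (ht : (k, true) ∈ po) : ∃ H B : R,
    1 - B = s.δ po * H + H * s.δ po ∧
    (∀ A : Subalgebra ℂ R, s.In k ≤ A → h.T ∈ A → h.S ∈ A → H ∈ A ∧ B ∈ A) ∧
    B ∈ s.Out k ∧ (∀ t, s.X po (k, t) * B = 0) ∧ (s.b (k, false) + s.b (k, true)) * B = 0 ∧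
    Commute B (s.b (k, false) - s.b (k, true)) ∧
    ∃ G₁ G₂ G₃ : R, 1 - B = G₁ * s.X po (k, false) + G₂ * s.X po (k, true) +
      G₃ * (s.b (k, false) + s.b (k, true)) := by
  obtain ⟨ar, har⟩ : ∃ ar, ar = (2⁻¹ : ℂ) • (s.a (k, false) + s.a (k, true)) := ⟨_, rfl⟩
  obtain ⟨br, hbr⟩ : ∃ br, br = s.b (k, false) + s.b (k, true) := ⟨_, rfl⟩
  obtain ⟨bm, hbm⟩ : ∃ bm, bm = s.b (k, false) - s.b (k, true) := ⟨_, rfl⟩
  have x0 : s.X po (k, false) = s.x (k, false) * s.D (k, false) := if_pos hf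
  have x1 : s.X po (k, true) = s.x (k, true) * s.D (k, true) := if_pos ht
  have hE : s.Eu k = s.X po (k, false) + s.X po (k, true) := by rw [Eu, x0, x1]
  have hT : s.Th k = Complex.I • (s.X po (k, false) - s.X po (k, true)) := by rw [Th, x0, x1]
  obtain ⟨v1, v2, v3, v4, v5⟩ := av_DPG4 h.lT h.rT h.Av_Th
  obtain ⟨T', hT'⟩ : ∃ T', T' = (1 - h.Av) * h.T * (1 - h.Av) := ⟨_, rfl⟩
  rw [← hT'] at v4 v5
  obtain ⟨c1, c2⟩ := h.δS_DPG4 hf ht har
  have fa : ∀ Y ∈ s.FOut k, Commute Y ar := fun Y hY =>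
    har ▸ (((s.mem_FOut.1 hY).1 _).1.add_right ((s.mem_FOut.1 hY).1 _).1).smul_right _
  have fb : ∀ Y ∈ s.FOut k, Commute Y br := fun Y hY =>
    hbr ▸ ((s.mem_FOut.1 hY).1 _).2.add_right ((s.mem_FOut.1 hY).1 _).2
  have fm : ∀ Y ∈ s.FOut k, Commute Y bm := fun Y hY =>
    hbm ▸ ((s.mem_FOut.1 hY).1 _).2.sub_right ((s.mem_FOut.1 hY).1 _).2
  have hAv : h.Av ∈ s.FOut k := FOut_DPG4 (s.Th_FOut k) v3
  have hne : ((k, false) : K × Bool) ≠ (k, true) := by simp
  have k00 := s.car (k, false) (k, false)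
  have k11 := s.car (k, true) (k, true)
  have k01 := s.car (k, false) (k, true)
  have k10 := s.car (k, true) (k, false)
  rw [if_pos rfl] at k00 k11
  rw [if_neg hne] at k01
  rw [if_neg hne.symm] at k10
  have r1 : br * ar + ar * br = 1 := by
    rw [har, mul_smul_comm, smul_mul_assoc, ← smul_add]
    have e : br * (s.a (k, false) + s.a (k, true)) + (s.a (k, false) + s.a (k, true)) * br
        = (2 : ℂ) • (1 : R) := by
      rw [hbr, two_smul]
      linear_combination (norm := noncomm_ring) k00 + k11 + k01 + k10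
    rw [e, smul_smul, inv_mul_cancel₀ two_ne_zero, one_smul]
  have r2 : bm * ar + ar * bm = 0 := by
    rw [har, mul_smul_comm, smul_mul_assoc, ← smul_add]
    have e : bm * (s.a (k, false) + s.a (k, true)) + (s.a (k, false) + s.a (k, true)) * bm
        = 0 := by
      rw [hbm]
      linear_combination (norm := noncomm_ring) k00 - k11 + k01 - k10
    rw [e, smul_zero]
  have r3 : br * br = 0 := by
    rw [hbr]
    linear_combination (norm := noncomm_ring)
      s.b_b (k, false) + s.b_b (k, true) + s.bb (k, false) (k, true)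
  have r4 : bm * br + br * bm = 0 := by
    rw [hbr, hbm]
    linear_combination (norm := noncomm_ring) s.bb (k, false) (k, false) - s.bb (k, true) (k, true)
  have d1 : br * s.δ po + s.δ po * br = s.Eu k := by
    rw [hE, hbr]
    linear_combination (norm := noncomm_ring) s.b_δ po (k, false) + s.b_δ po (k, true)
  have d2 : (Complex.I • bm) * s.δ po + s.δ po * (Complex.I • bm) = s.Th k := by
    rw [hT, mul_smul_comm, smul_mul_assoc, ← smul_add, hbm]
    congr 1
    linear_combination (norm := noncomm_ring) s.b_δ po (k, false) - s.b_δ po (k, true)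
  have dT : Commute (s.δ po) (s.Th k) :=
    hT ▸ ((s.X_δ po _).symm.sub_right (s.X_δ po _).symm).smul_right _
  have dA := (v3 _ dT).eq
  have dT' := (v5 _ dT).eq
  have cC := (fa _ h.C_out).eq
  have cCb := (fb _ h.C_out).eq
  have d3 : s.δ po * h.S = h.S * s.δ po + h.C * ar := by
    linear_combination (norm := noncomm_ring)
      c2.eq + ar * h.rS - ar * h.lS + c1.eq * s.Eu k - cC
  have d4 : s.δ po * (h.S * br) + h.S * br * s.δ po = 1 - h.C * (br * ar) := by
    linear_combination (norm := noncomm_ring) d3 * br + h.S * d1 + h.lS + h.C * r1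
  have eC : s.Eu k * h.C = 0 := by
    linear_combination (norm := noncomm_ring) s.Eu k * h.lS - h.rS * s.Eu k
  have eB : s.Eu k * (h.C * (br * ar) * h.Av) = 0 := by
    rw [← mul_assoc, ← mul_assoc, eC, zero_mul, zero_mul]
  have tB : s.Th k * (h.C * (br * ar) * h.Av) = 0 := by
    have c : Commute (s.Th k) (h.C * (br * ar)) :=
      h.C_Th.symm.mul_right ((fb _ (s.Th_FOut k)).mul_right (fa _ (s.Th_FOut k)))
    rw [← mul_assoc, c.eq, mul_assoc, v1, mul_zero]
  have cA : Commute (h.C * (br * ar)) h.Av :=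
    (v3 _ h.C_Th).mul_left ((fb _ hAv).symm.mul_left (fa _ hAv).symm)
  refine ⟨T' * (Complex.I • bm) + h.S * br * h.Av, h.C * (br * ar) * h.Av, ?_, ?_, ?_, ?_, ?_, ?_,
    Complex.I • h.T + h.Av * br * ar * h.S, h.Av * br * ar * h.S - Complex.I • h.T, h.Av * ar, ?_⟩
  · generalize Complex.I • bm = bt at d2 ⊢
    linear_combination (norm := noncomm_ring)
      -(dT' * bt) - T' * d2 - v4 - d4 * h.Av + h.S * br * dA
  · intro A hA a1 a2
    have m1 : h.Av ∈ A := by
      rw [show h.Av = 1 - h.T * s.Th k by rw [h.lT, sub_sub_cancel]]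
      exact sub_mem (one_mem A) (mul_mem a1 (hA (s.Th_In k)))
    have m2 : h.C ∈ A := by
      rw [show h.C = 1 - h.S * s.Eu k by rw [h.lS, sub_sub_cancel]]
      exact sub_mem (one_mem A) (mul_mem a2 (hA (s.Eu_In k)))
    have m3 : ar ∈ A :=
      har ▸ A.smul_mem (add_mem (hA (s.a_In (k, false))) (hA (s.a_In (k, true)))) _
    have m4 : br ∈ A := hbr ▸ add_mem (hA (s.b_In (k, false))) (hA (s.b_In (k, true)))
    have m5 : bm ∈ A := hbm ▸ sub_mem (hA (s.b_In (k, false))) (hA (s.b_In (k, true)))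
    have m6 := sub_mem (one_mem A) m1
    exact ⟨add_mem (mul_mem (hT' ▸ mul_mem (mul_mem m6 a1) m6) (A.smul_mem m5 _))
      (mul_mem (mul_mem a2 m4) m1), mul_mem (mul_mem m2 (mul_mem m4 m3)) m1⟩
  · refine mul_mem (mul_mem (s.FOut_le k h.C_out) ?_) (s.FOut_le k hAv)
    rw [eq_sub_of_add_eq r1, har, hbr, smul_mul_assoc, add_mul, mul_add, mul_add]
    exact sub_mem (one_mem _) ((s.Out k).smul_mem (add_mem (add_mem (s.ab_Out k _ _)
      (s.ab_Out k _ _)) (add_mem (s.ab_Out k _ _) (s.ab_Out k _ _))) _)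
  · generalize h.C * (br * ar) * h.Av = B at eB tB
    rw [hT, smul_mul_assoc, smul_eq_zero_iff_right Complex.I_ne_zero, sub_mul, sub_eq_zero] at tB
    rw [hE, add_mul, tB, ← two_smul ℂ, smul_eq_zero_iff_right two_ne_zero] at eB
    rintro (_ | _)
    · rw [tB, eB]
    · exact eB
  · rw [← hbr, ← mul_assoc, ← mul_assoc, ← cCb, mul_assoc h.C, ← mul_assoc br, r3, zero_mul,
      mul_zero, zero_mul]
  · rw [← hbm]
    refine ((fm _ h.C_out).mul_left ?_).mul_left (fm _ hAv)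
    change _ * _ = _ * _
    linear_combination (norm := noncomm_ring) br * r2 - r4 * ar
  · have e1 : h.T * s.Th k =
        Complex.I • h.T * s.X po (k, false) - Complex.I • h.T * s.X po (k, true) := by
      rw [hT, mul_smul_comm, smul_mul_assoc, smul_mul_assoc, mul_sub, smul_sub]
    have e2 := h.lS
    rw [hE] at e2
    rw [← hbr]
    generalize Complex.I • h.T = T1 at e1 ⊢
    linear_combination (norm := noncomm_ring) e1 - h.lT - cA.eq - h.Av * br * ar * e2
      - h.Av * r1 - h.Av * cCb * ar - h.Av * br * cC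

/-- the radial one-form times a constant form is exact -/
theorem Po.rad (h : s.Po k) (hf : (k, false) ∈ po) (ht : (k, true) ∈ po) :
    ∃ G : K × Bool → R, s.δ po * h.S =
      (2⁻¹ : ℂ) • (s.a (k, false) + s.a (k, true)) + ∑ i, G i * s.X po i := by
  obtain ⟨ar, har⟩ : ∃ ar, ar = (2⁻¹ : ℂ) • (s.a (k, false) + s.a (k, true)) := ⟨_, rfl⟩
  have x0 : s.X po (k, false) = s.x (k, false) * s.D (k, false) := if_pos hf
  have x1 : s.X po (k, true) = s.x (k, true) * s.D (k, true) := if_pos ht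
  have c := (h.δS_DPG4 hf ht har).2.eq
  refine ⟨fun i => h.S * s.a i - (if i = (k, false) then h.S * ar else 0)
    - (if i = (k, true) then h.S * ar else 0), ?_⟩
  simp only [sub_mul, ite_mul, zero_mul, Finset.sum_sub_distrib, Finset.sum_ite_eq',
    Finset.mem_univ, if_true, mul_assoc]
  rw [← Finset.mul_sum, ← har, ← δ]
  rw [sub_mul, mul_assoc, h.rS, mul_one, Eu, ← x0, ← x1] at c
  rw [eq_add_of_sub_eq c]
  noncomm_ring

end Site

end Pool.Agent.PWD.Loc
end
end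

-- part Pool.Agent.P.MP_65ad7c_ag.DPG5
section

/-! Words applied to the vacuum; iterated homotopies. -/

open Filter Topology

noncomputable section
namespace Pool.Agent.PWD.Loc

variable {K M τ : Type} [DecidableEq K] [AddCommGroup M] [Module ℂ M]
  {al J : Finset K} {σ : Finset τ} {wd : τ → List K} {k : K} {w p q : ℕ} {f g : M}

theorem anti_DPG5 {A B : Module.End ℂ M} (h : A * B + B * A = 0) (u : M) : A (B u) = -B (A u) := by
  have := congrArg (fun T : Module.End ℂ M => T u) h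
  simpa [eq_neg_iff_add_eq_zero] using this

theorem sq_DPG5 {A : Module.End ℂ M} (h : A * A + A * A = 0) (u : M) : A (A u) = 0 := by
  have h1 : A (A u) + A (A u) = 0 := eq_neg_iff_add_eq_zero.1 (anti_DPG5 h u)
  have h2 : A (A u) = (2 : ℂ)⁻¹ • (A (A u) + A (A u)) := by
    rw [← two_smul ℂ, smul_smul]
    norm_num
  rw [h2, h1, smul_zero]

theorem one_DPG5 {A B : Module.End ℂ M} (h : A * B + B * A = 1) (u : M) :
    A (B u) + B (A u) = u := by
  have := congrArg (fun T : Module.End ℂ M => T u) h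
  simpa using this

/-- the words span -/
theorem span_words {α β : K → Module.End ℂ M} {C : Submodule ℂ M} {v : M}
    (hα : ∀ k ∈ al, α k ∈ Stb C) (hβ : ∀ k ∈ al, β k ∈ Stb C)
    (car : ∀ k ∈ al, ∀ l ∈ al, β k * α l + α l * β k = if k = l then 1 else 0)
    (bb : ∀ k ∈ al, ∀ l ∈ al, β k * β l + β l * β k = 0)
    (h0 : ∀ u ∈ C, (∀ k ∈ al, β k u = 0) → ∃ c : ℂ, u = c • v) :
    C ≤ Submodule.span ℂ {u | ∃ L : List K, L.Nodup ∧ L.toFinset ⊆ al ∧ u = (L.map α).prod v} := by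
  have key : ∀ J : Finset K, J ⊆ al → ∀ u ∈ C, (∀ k ∈ al, k ∉ J → β k u = 0) →
      u ∈ Submodule.span ℂ
        {u | ∃ L : List K, L.Nodup ∧ L.toFinset ⊆ J ∧ u = (L.map α).prod v} := by
    intro J
    induction J using Finset.induction_on with
    | empty =>
      intro _ u hu h
      obtain ⟨c, rfl⟩ := h0 u hu fun k hk => h k hk (Finset.notMem_empty k)
      exact Submodule.smul_mem _ _ (Submodule.subset_span ⟨[], List.nodup_nil, by simp, by simp⟩)
    | insert m J hm ih =>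
      intro hJ u hu h
      have hma : m ∈ al := hJ (Finset.mem_insert_self m J)
      have hJ' : J ⊆ al := (Finset.subset_insert m J).trans hJ
      have h1 := ih hJ' (β m u) (hβ m hma u hu) fun k hk hkJ => by
        by_cases hkm : k = m
        · rw [hkm]
          exact sq_DPG5 (bb m hma m hma) u
        · rw [anti_DPG5 (bb k hk m hma), h k hk (by simp [hkm, hkJ]), map_zero, neg_zero]
      have h2 := ih hJ' (β m (α m u)) (hβ m hma _ (hα m hma u hu)) fun k hk hkJ => by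
        by_cases hkm : k = m
        · rw [hkm]
          exact sq_DPG5 (bb m hma m hma) _
        · have hc := car k hk m hma
          rw [if_neg hkm] at hc
          rw [anti_DPG5 (bb k hk m hma), anti_DPG5 hc, h k hk (by simp [hkm, hkJ])]
          simp
      have hc := car m hma m hma
      rw [if_pos rfl] at hc
      rw [← one_DPG5 hc u]
      refine Submodule.add_mem _ (Submodule.span_mono ?_ h2) ?_
      · rintro _ ⟨L, a, b, rfl⟩
        exact ⟨L, a, b.trans (Finset.subset_insert m J), rfl⟩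
      · refine Submodule.mem_comap.1 (Submodule.span_le.2 ?_ h1)
        rintro _ ⟨L, a, b, rfl⟩
        refine Submodule.subset_span ⟨m :: L, List.nodup_cons.2
          ⟨fun hL => hm (b (List.mem_toFinset.2 hL)), a⟩, ?_, by simp⟩
        rw [List.toFinset_cons]
        exact Finset.insert_subset_insert m b
  exact fun u hu => key al le_rfl u hu fun k hk hk' => absurd hk hk'

/-- iterated homotopies -/
theorem iter_hty {δ : Module.End ℂ M} {B H : K → Module.End ℂ M} {N C : Submodule ℂ M}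
    (hδ : δ * δ = 0) (h : ∀ k, 1 - B k = δ * H k + H k * δ) (hN : ∀ k, H k ∈ Stb N)
    (hδN : δ ∈ Stb N) (hC : ∀ k, H k ∈ Stb C) (hδC : δ ∈ Stb C) (L : List K) :
    (L.map B).prod ∈ Stb N ∧ (L.map B).prod ∈ Stb C ∧ Commute (L.map B).prod δ ∧
      ∀ f ∈ C, δ f ∈ N → ∃ g ∈ C, f - (L.map B).prod f - δ g ∈ N := by
  have hB : ∀ k, B k = 1 - (δ * H k + H k * δ) := fun k => by
    rw [← h k, sub_sub_cancel]
  induction L with
  | nil =>
    refine ⟨one_mem _, one_mem _, Commute.one_left _, fun f _ _ => ⟨0, zero_mem _, ?_⟩⟩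
    simp
  | cons k L ih =>
    obtain ⟨h1, h2, h3, h4⟩ := ih
    have b1 : B k ∈ Stb N := by
      rw [hB]
      exact sub_mem (one_mem _) (add_mem (mul_mem hδN (hN k)) (mul_mem (hN k) hδN))
    have b2 : B k ∈ Stb C := by
      rw [hB]
      exact sub_mem (one_mem _) (add_mem (mul_mem hδC (hC k)) (mul_mem (hC k) hδC))
    have b3 : Commute (B k) δ := by
      rw [hB]
      refine Commute.sub_left (Commute.one_left _) ?_
      rw [Commute, SemiconjBy, add_mul, mul_add, mul_assoc (H k), hδ, ← mul_assoc δ δ, hδ,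
        mul_zero, zero_mul, add_zero, zero_add, mul_assoc]
    rw [List.map_cons, List.prod_cons]
    refine ⟨mul_mem b1 h1, mul_mem b2 h2, b3.mul_left h3, fun f hf hδf => ?_⟩
    obtain ⟨g, hg, hfg⟩ := h4 f hf hδf
    refine ⟨g + H k ((L.map B).prod f), add_mem hg (hC k _ (h2 f hf)), ?_⟩
    have e1 : δ ((L.map B).prod f) = (L.map B).prod (δ f) :=
      (congrArg (fun T : Module.End ℂ M => T f) h3.eq).symm
    have e2 : H k (δ ((L.map B).prod f)) ∈ N := by
      rw [e1]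
      exact hN k _ (h1 _ hδf)
    have e3 : f - (B k * (L.map B).prod) f - δ (g + H k ((L.map B).prod f)) =
        (f - (L.map B).prod f - δ g) + H k (δ ((L.map B).prod f)) := by
      rw [Module.End.mul_apply]
      generalize (L.map B).prod f = u
      rw [hB k]
      simp only [LinearMap.sub_apply, LinearMap.add_apply, Module.End.mul_apply,
        Module.End.one_apply, map_add]
      abel
    rw [e3]
    exact add_mem hfg e2

namespace Vac
variable (s : Vac K M)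

theorem In_N (k : K) : s.In k ≤ Stb s.N := by
  refine Algebra.adjoin_le ?_
  rintro T (⟨t, rfl | rfl | rfl | rfl⟩ | rfl)
  exacts [s.N_a _, s.N_b _, s.N_x _, s.N_D _, s.N_ev _]

theorem δ_N [Fintype K] (po : Finset (K × Bool)) : s.δ po ∈ Stb s.N := by
  refine sum_mem fun i _ => mul_mem (s.N_a i) ?_
  unfold Site.X
  split_ifs
  · exact mul_mem (s.N_x i) (s.N_D i)
  · exact s.N_D i

theorem aL_N (L : List K) : s.aL L ∈ Stb s.N :=
  list_prod_mem fun y hy => by
    obtain ⟨i, _, rfl⟩ := List.mem_map.1 hy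
    exact s.N_a _

theorem n_N_DPG5 (i : K × Bool) : s.n i ∈ Stb s.N := mul_mem (s.N_a i) (s.N_b i)

theorem ZZ_N (J : Finset K) : s.ZZ J ∈ Stb s.N :=
  cp_mem fun _ _ =>
    add_mem (one_mem _) (mul_mem (sub_mem (s.N_x _) (one_mem _)) (s.n_N_DPG5 _))

theorem PP_N (J : Finset K) : s.PP J ∈ Stb s.N :=
  cp_mem fun _ _ => mul_mem (mul_mem (s.N_ev _) (sub_mem (one_mem _) (s.n_N_DPG5 _)))
    (sub_mem (one_mem _) (s.n_N_DPG5 _))

theorem RR_N (J : Finset K) : s.RR J ∈ Stb s.N :=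
  cp_mem fun _ _ => mul_mem (mul_mem (s.N_ev _) (sub_mem (one_mem _) (s.n_N_DPG5 _)))
    (s.n_N_DPG5 _)

theorem D_word (i : K × Bool) (L : List K) : s.D i (s.aL L s.vac) = 0 := by
  have h : Commute (s.D i) (s.aL L) := s.commute_aL fun k _ => s.Da i _
  rw [← Module.End.mul_apply, h.eq, Module.End.mul_apply, s.vac_D, map_zero]

theorem ev_vac (h : s.toSite.Fr k) : s.ev k s.vac = s.vac := by
  have h1 := congrArg (fun T : Module.End ℂ M => T s.vac) h.had
  simp only [LinearMap.sub_apply, LinearMap.add_apply, Module.End.mul_apply,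
    Module.End.one_apply, s.vac_D, map_zero, add_zero] at h1
  exact (sub_eq_zero.1 h1).symm

/-- span of the words with letters in a set -/
def U_DPG5 (S : Finset K) : Submodule ℂ M :=
  Submodule.span ℂ {u | ∃ L : List K, L.toFinset ⊆ S ∧ u = s.aL L s.vac}

theorem a_U_DPG5 {S : Finset K} (hk : k ∈ S) : s.a (k, false) ∈ Stb (s.U_DPG5 S) := by
  refine fun u hu => Submodule.mem_comap.1 (Submodule.span_le.2 ?_ hu)
  rintro _ ⟨L, b, rfl⟩
  refine Submodule.subset_span ⟨k :: L, ?_, by simp⟩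
  rw [List.toFinset_cons]
  exact Finset.insert_subset hk b

theorem kill_DPG5 {β : K → Module.End ℂ M} (h0 : ∀ k ∈ al, β k s.vac = 0)
    (car : ∀ k ∈ al, ∀ l ∈ al,
      β k * s.a (l, false) + s.a (l, false) * β k = if k = l then 1 else 0)
    (hk : k ∈ al) (L : List K) (hL : L.toFinset ⊆ al) (hkL : k ∉ L) :
    β k (s.aL L s.vac) = 0 := by
  induction L with
  | nil => simpa using h0 k hk
  | cons m L ih =>
    rw [List.toFinset_cons, Finset.insert_subset_iff] at hL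
    rw [List.mem_cons, not_or] at hkL
    have hc := car k hk m hL.1
    rw [if_neg hkL.1] at hc
    rw [CAR.aL_cons, Module.End.mul_apply, anti_DPG5 hc, ih hL.2 hkL.2, map_zero, neg_zero]

theorem b_U_DPG5 {β : K → Module.End ℂ M} (h0 : ∀ k ∈ al, β k s.vac = 0)
    (car : ∀ k ∈ al, ∀ l ∈ al,
      β k * s.a (l, false) + s.a (l, false) * β k = if k = l then 1 else 0)
    (hk : k ∈ al) {S : Finset K} (hS : S ⊆ al) : β k ∈ Stb (s.U_DPG5 S) := by
  refine fun u hu => Submodule.mem_comap.1 (Submodule.span_le.2 ?_ hu)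
  rintro _ ⟨L, b, rfl⟩
  change β k (s.aL L s.vac) ∈ s.U_DPG5 S
  induction L with
  | nil =>
    rw [CAR.aL_nil, Module.End.one_apply, h0 k hk]
    exact zero_mem _
  | cons m L ih =>
    rw [List.toFinset_cons, Finset.insert_subset_iff] at b
    have hc := congrArg (fun T : Module.End ℂ M => T (s.aL L s.vac)) (car k hk m (hS b.1))
    simp only [LinearMap.add_apply, Module.End.mul_apply] at hc
    rw [CAR.aL_cons, Module.End.mul_apply, eq_sub_of_add_eq hc]
    refine sub_mem ?_ (s.a_U_DPG5 b.1 _ (ih b.2))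
    split_ifs
    · exact Submodule.subset_span ⟨L, b.2, rfl⟩
    · exact zero_mem _

theorem off_DPG5 {β : K → Module.End ℂ M} (h0 : ∀ k ∈ al, β k s.vac = 0)
    (car : ∀ k ∈ al, ∀ l ∈ al,
      β k * s.a (l, false) + s.a (l, false) * β k = if k = l then 1 else 0)
    {S : Finset K} (hS : S ⊆ al) (L : List K) (hL : L.toFinset ⊆ al) (h : ¬ L.toFinset ⊆ S) :
    ∀ u ∈ s.U_DPG5 S, (L.map β).reverse.prod u = 0 := by
  induction L with
  | nil => simp at h
  | cons m L ih =>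
    rw [List.toFinset_cons, Finset.insert_subset_iff] at hL h
    intro u hu
    rw [List.map_cons, List.reverse_cons, List.prod_append, List.prod_singleton,
      Module.End.mul_apply]
    by_cases hm : m ∈ S
    · exact ih hL.2 (fun h' => h ⟨hm, h'⟩) _ (s.b_U_DPG5 h0 car hL.1 hS u hu)
    · have : β m u = 0 := by
        refine (Submodule.span_le (p := LinearMap.ker (β m))).2 ?_ hu
        rintro _ ⟨L', b, rfl⟩
        exact s.kill_DPG5 h0 car hL.1 L' (b.trans hS) fun h' => hm (b (List.mem_toFinset.2 h'))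
      rw [this, map_zero]

theorem diag_DPG5 {β : K → Module.End ℂ M} (h0 : ∀ k ∈ al, β k s.vac = 0)
    (car : ∀ k ∈ al, ∀ l ∈ al,
      β k * s.a (l, false) + s.a (l, false) * β k = if k = l then 1 else 0)
    (L : List K) (hL : L.toFinset ⊆ al) (hn : L.Nodup) :
    (L.map β).reverse.prod (s.aL L s.vac) = s.vac := by
  induction L with
  | nil => simp
  | cons m L ih =>
    rw [List.toFinset_cons, Finset.insert_subset_iff] at hL
    rw [List.nodup_cons] at hn
    have hc := car m hL.1 m hL.1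
    rw [if_pos rfl] at hc
    have h1 := one_DPG5 hc (s.aL L s.vac)
    rw [s.kill_DPG5 h0 car hL.1 L hL.2 hn.1, map_zero, add_zero] at h1
    rw [List.map_cons, List.reverse_cons, List.prod_append, List.prod_singleton,
      Module.End.mul_apply, CAR.aL_cons, Module.End.mul_apply, h1, ih hL.2 hn.2]

/-- the words are independent -/
theorem indep (hw : Words al σ wd) {β : K → Module.End ℂ M} {T : Module.End ℂ M}
    (hβ : ∀ k ∈ al, β k ∈ Stb s.N) (h0 : ∀ k ∈ al, β k s.vac = 0)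
    (car : ∀ k ∈ al, ∀ l ∈ al,
      β k * s.a (l, false) + s.a (l, false) * β k = if k = l then 1 else 0)
    (hT : ∀ k ∈ al, Commute T (β k)) (hv : T s.vac = s.vac) {γ : τ → ℂ}
    (h : T (∑ t ∈ σ, γ t • s.aL (wd t) s.vac) ∈ s.N) : ∀ t ∈ σ, γ t = 0 := by
  classical
  by_contra hne
  push Not at hne
  obtain ⟨t0, ht0, hγ0⟩ := hne
  obtain ⟨t, ht, hmax⟩ := (σ.filter fun t => γ t ≠ 0).exists_max_image
    (fun t => (wd t).toFinset.card) ⟨t0, Finset.mem_filter.2 ⟨ht0, hγ0⟩⟩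
  rw [Finset.mem_filter] at ht
  have hmem : ∀ y ∈ ((wd t).map β).reverse, ∃ k ∈ al, y = β k := fun y hy => by
    obtain ⟨i, hi, rfl⟩ := List.mem_map.1 (List.mem_reverse.1 hy)
    exact ⟨i, hw.sub t ht.1 (List.mem_toFinset.2 hi), rfl⟩
  have hBN : ((wd t).map β).reverse.prod ∈ Stb s.N := list_prod_mem fun y hy => by
    obtain ⟨k, hk, rfl⟩ := hmem y hy
    exact hβ k hk
  have hBT : Commute T ((wd t).map β).reverse.prod := Commute.list_prod_right _ _ fun y hy => by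
    obtain ⟨k, hk, rfl⟩ := hmem y hy
    exact hT k hk
  have h1 := hBN _ h
  rw [← Module.End.mul_apply, ← hBT.eq, Module.End.mul_apply, map_sum,
    Finset.sum_eq_single_of_mem t ht.1, map_smul,
    s.diag_DPG5 h0 car _ (hw.sub t ht.1) (hw.nodup t ht.1), map_smul, hv] at h1
  · exact ht.2 (s.vac_N _ h1)
  · intro t' ht' hne
    by_cases hγ : γ t' = 0
    · rw [hγ, zero_smul, map_zero]
    · rw [map_smul, s.off_DPG5 h0 car (hw.sub t' ht') _ (hw.sub t ht.1) (fun hs => hne ?_) _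
        (Submodule.subset_span ⟨wd t', le_rfl, rfl⟩), smul_zero]
      exact (hw.inj t ht.1 t' ht' (Finset.eq_of_subset_of_card_le hs
        (hmax t' (Finset.mem_filter.2 ⟨ht', hγ⟩)))).symm

/-- coefficients of a constant logarithmic form -/
theorem Cst_coeff (hw : Words al σ wd) (hs : ∀ J ⊆ al, ∃ t ∈ σ, (wd t).toFinset = J)
    (h : f ∈ s.Cst al) : ∃ γ : τ → ℂ, f = ∑ t ∈ σ, γ t • s.aL (wd t) s.vac := by
  classical
  induction h using Submodule.span_induction with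
  | mem u hu =>
    obtain ⟨L, hn, hL, rfl⟩ := hu
    obtain ⟨t, ht, he⟩ := hs _ hL
    have hp : L.Perm (wd t) := List.perm_of_nodup_nodup_toFinset_eq hn (hw.nodup t ht) he.symm
    have key : ∀ c : ℂ, ∑ t' ∈ σ, (if t' = t then c else 0) • s.aL (wd t') s.vac
        = c • s.aL (wd t) s.vac := fun c => by
      rw [Finset.sum_eq_single_of_mem t ht, if_pos rfl]
      intro t' _ h'
      rw [if_neg h', zero_smul]
    rcases s.aL_perm hp with h | h
    · exact ⟨fun t' => if t' = t then 1 else 0, by rw [key, h, one_smul]⟩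
    · exact ⟨fun t' => if t' = t then -1 else 0, by rw [key, h, neg_one_smul, LinearMap.neg_apply]⟩
  | zero => exact ⟨0, by simp⟩
  | add u v _ _ hu hv =>
    obtain ⟨γ, rfl⟩ := hu
    obtain ⟨γ', rfl⟩ := hv
    exact ⟨γ + γ', by simp [add_smul, Finset.sum_add_distrib]⟩
  | smul c u _ hu =>
    obtain ⟨γ, rfl⟩ := hu
    exact ⟨c • γ, by simp [Finset.smul_sum, smul_smul]⟩

end Vac

end Pool.Agent.PWD.Loc
end
end

-- part Pool.Agent.P.MP_65ad7c_ag.DPG7
section

/-! The filtration by vanishing of residues. -/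

open Filter Topology

noncomputable section
namespace Pool.Agent.PWD.Loc

section ring
variable {K R : Type} [DecidableEq K] [Ring R] [Algebra ℂ R] (s : Site K R) {k : K}

omit [Algebra ℂ R] in
theorem ev_n_DPG7 (k : K) (i : K × Bool) : Commute (s.ev k) (s.n i) :=
  (s.eva k i).mul_right (s.evb k i)

omit [Algebra ℂ R] in
theorem x_n_DPG7 (i j : K × Bool) : Commute (s.x i) (s.n j) := (s.xa i j).mul_right (s.xb i j)

theorem n_Rs_DPG7 (i : K × Bool) (k : K) : Commute (s.n i) (s.Rs k) :=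
  ((ev_n_DPG7 s k i).symm.mul_right ((Commute.one_right _).sub_right (s.n_comm _ _))).mul_right
    (s.n_comm _ _)

theorem n_Z_DPG7 (i : K × Bool) : s.n i * s.Z i = s.x i * s.n i := by
  have h1 := (x_n_DPG7 s i i).eq
  have h2 := s.n_n i
  unfold Site.Z
  linear_combination (norm := noncomm_ring) -(h1 * s.n i) + s.x i * h2 - h2

theorem one_sub_Z_DPG7 (i : K × Bool) : (1 - s.n i) * s.Z i = 1 - s.n i := by
  have h := n_Z_DPG7 s i
  rw [sub_mul, h]
  unfold Site.Z
  noncomm_ring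

theorem Z_one_sub_DPG7 (i : K × Bool) : s.Z i * (1 - s.n i) = 1 - s.n i := by
  have h2 := s.n_n i
  unfold Site.Z
  linear_combination (norm := noncomm_ring) -(s.x i * h2) + h2

theorem a_P_DPG7 (k : K) :
    s.a (k, false) * s.P k = s.ev k * (1 - s.n (k, true)) * s.a (k, false) := by
  have h1 : Commute (s.a (k, false)) (s.ev k * (1 - s.n (k, true))) :=
    (s.eva k _).symm.mul_right ((Commute.one_right _).sub_right (s.n_a_ne (by simp)).symm)
  unfold Site.P
  rw [← mul_assoc, h1.eq, mul_assoc, mul_sub (s.a (k, false)), mul_one, s.a_n, sub_zero]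

theorem Rs_a_DPG7 (k : K) : s.Rs k * s.a (k, false) = s.a (k, false) * s.P k := by
  rw [a_P_DPG7, Site.Rs, mul_assoc, s.n_a]

theorem P_b_DPG7 (k : K) : s.P k * s.b (k, false) = s.b (k, false) * s.Rs k := by
  have h1 : Commute (s.b (k, false)) (s.ev k * (1 - s.n (k, true))) :=
    (s.evb k _).symm.mul_right ((Commute.one_right _).sub_right (s.n_b_ne (by simp)).symm)
  unfold Site.P Site.Rs
  rw [← mul_assoc (s.b (k, false)), h1.eq, mul_assoc, mul_assoc _ (s.b (k, false)), s.b_n, sub_mul,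
    one_mul, s.n_b, sub_zero]

variable {s}

theorem ev_ev_DPG7 (h : s.Fr k) : s.ev k * s.ev k = s.ev k := by
  have h1 := h.had
  have h2 := h.ev_x false
  have h3 := h.ev_x true
  linear_combination (norm := noncomm_ring) -(s.ev k * h1) - h2 * h.I0 * s.D (k, false)
    - h3 * h.I0 * s.D (k, true)

omit [Algebra ℂ R] in
theorem idem_DPG7 {e u v : R} (he : e * e = e) (hu : u * u = u) (hv : v * v = v)
    (h1 : Commute e u) (h2 : Commute e v) (h3 : Commute u v) :
    e * u * v * (e * u * v) = e * u * v := by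
  rw [Commute.mul_mul_mul_comm (h2.mul_left h3).symm, Commute.mul_mul_mul_comm h1.symm, he, hu, hv]

theorem nn_DPG7 (i : K × Bool) : (1 - s.n i) * (1 - s.n i) = 1 - s.n i := by
  have h2 := s.n_n i
  linear_combination (norm := noncomm_ring) h2

theorem Rs_Rs_DPG7 (h : s.Fr k) : s.Rs k * s.Rs k = s.Rs k :=
  idem_DPG7 (ev_ev_DPG7 h) (nn_DPG7 _) (s.n_n _)
    ((Commute.one_right _).sub_right (ev_n_DPG7 s _ _)) (ev_n_DPG7 s _ _)
    ((Commute.one_left _).sub_left (s.n_comm _ _))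

theorem P_P_DPG7 (h : s.Fr k) : s.P k * s.P k = s.P k :=
  idem_DPG7 (ev_ev_DPG7 h) (nn_DPG7 _) (nn_DPG7 _)
    ((Commute.one_right _).sub_right (ev_n_DPG7 s _ _))
    ((Commute.one_right _).sub_right (ev_n_DPG7 s _ _))
    ((Commute.one_left _).sub_left ((Commute.one_right _).sub_right (s.n_comm _ _)))

theorem Rs_Z_DPG7 (h : s.Fr k) : s.Rs k * s.Z (k, false) = 0 := by
  have h1 : Commute (1 - s.n (k, true)) (s.x (k, false)) :=
    (Commute.one_left _).sub_left (x_n_DPG7 s _ _).symm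
  rw [Site.Rs, mul_assoc, n_Z_DPG7, ← mul_assoc, mul_assoc (s.ev k), h1.eq, ← mul_assoc,
    h.ev_x false, zero_mul, zero_mul]

end ring

variable {K M τ : Type} [DecidableEq K] [AddCommGroup M] [Module ℂ M]
  {al J : Finset K} {σ : Finset τ} {wd : τ → List K} {k : K} {w p q : ℕ} {f g : M}

namespace LogM
variable (s : LogM K M)

theorem RR_insert (hk : k ∉ J) : s.RR (insert k J) = s.Rs k * s.RR J :=
  cp_insert s.Rs_comm hk
theorem ZZ_insert (hk : k ∉ J) : s.ZZ (insert k J) = s.Z (k, false) * s.ZZ J :=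
  cp_insert (f := fun k => s.Z (k, false)) (fun _ _ => s.Z_comm _ _) hk
theorem PP_insert (hk : k ∉ J) : s.PP (insert k J) = s.P k * s.PP J :=
  cp_insert s.P_comm hk
theorem RR_union (I J : Finset K) : s.RR I * s.RR J = s.RR (I ∪ J) := by
  induction I using Finset.induction_on with
  | empty => simp [Site.RR]
  | insert k I hk ih =>
    rw [s.RR_insert hk, mul_assoc, ih, Finset.insert_union]
    by_cases h : k ∈ I ∪ J
    · rw [Finset.insert_eq_of_mem h, Site.RR, cp_erase s.Rs_comm h, ← mul_assoc,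
        Rs_Rs_DPG7 (s.fr k)]
    · rw [s.RR_insert h]
/-- an operator at the site `k` commutes with the products over sets that avoid `k` -/
theorem Out_RR {T : Module.End ℂ M} (h : T ∈ s.Out k) (hk : k ∉ J) : Commute T (s.RR J) :=
  commute_cp fun l hl => s.commute_of_Out h (s.Rs_In l) fun e => hk (e ▸ hl)
theorem Out_ZZ {T : Module.End ℂ M} (h : T ∈ s.Out k) (hk : k ∉ J) : Commute T (s.ZZ J) :=
  commute_cp fun l hl => s.commute_of_Out h (s.Z_In (l, false)) fun e => hk (e ▸ hl)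
theorem Out_PP {T : Module.End ℂ M} (h : T ∈ s.Out k) (hk : k ∉ J) : Commute T (s.PP J) :=
  commute_cp fun l hl => s.commute_of_Out h (s.P_In l) fun e => hk (e ▸ hl)
theorem In_RR {T : Module.End ℂ M} (h : T ∈ s.In k) (hk : k ∉ J) : Commute T (s.RR J) :=
  commute_cp fun l hl => (s.commute_of_Out (s.Rs_Out l) h fun e => hk (e ▸ hl)).symm
theorem In_ZZ {T : Module.End ℂ M} (h : T ∈ s.In k) (hk : k ∉ J) : Commute T (s.ZZ J) :=
  commute_cp fun l hl => (s.commute_of_Out (s.Z_Out (l, false)) h fun e => hk (e ▸ hl)).symm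
theorem In_PP {T : Module.End ℂ M} (h : T ∈ s.In k) (hk : k ∉ J) : Commute T (s.PP J) :=
  commute_cp fun l hl => (s.commute_of_Out (s.P_Out l) h fun e => hk (e ▸ hl)).symm
theorem RR_erase_DPG7 (hk : k ∈ J) : s.RR J = s.RR (J.erase k) * s.Rs k := by
  rw [← (s.In_RR (s.Rs_In k) (Finset.notMem_erase k J)).eq, ← s.RR_insert (Finset.notMem_erase k J),
    Finset.insert_erase hk]
theorem RR_Z_DPG7 (hk : k ∈ J) : s.RR J * s.Z (k, false) = 0 := by
  rw [s.RR_erase_DPG7 hk, mul_assoc, Rs_Z_DPG7 (s.fr k), mul_zero]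
theorem RR_a_DPG7 (hk : k ∈ J) (f : M) : s.RR J (s.a (k, false) f) =
    (s.RR (J.erase k) * (s.a (k, false) * s.P k)) f := by
  rw [← Rs_a_DPG7, ← mul_assoc, ← s.RR_erase_DPG7 hk]
  rfl
theorem inj_DPG7 {C : Submodule ℂ M} (hn : ∀ i, s.n i ∈ Stb C)
    (hx : ∀ i u, s.x i u ∈ C → u ∈ C) (h : s.ZZ J f ∈ C) : f ∈ C := by
  induction J using Finset.induction_on with
  | empty => simpa [Site.ZZ] using h
  | insert k J hk ih =>
    apply ih
    rw [s.ZZ_insert hk, Module.End.mul_apply] at h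
    generalize s.ZZ J f = u at h
    have h1 : ((1 - s.n (k, false)) * s.Z (k, false)) u ∈ C :=
      (Stb C).sub_mem (Stb C).one_mem (hn _) _ h
    have h2 : (s.n (k, false) * s.Z (k, false)) u ∈ C := hn _ _ h
    rw [one_sub_Z_DPG7] at h1
    rw [n_Z_DPG7] at h2
    simpa using C.add_mem h1 (hx _ _ h2)
theorem n_Fl_DPG7 (i : K × Bool) (p : ℕ) : s.n i ∈ Stb (s.Fl p) := by
  obtain ⟨k, t⟩ := i
  cases t
  · cases p with
    | zero => intro v _; rw [s.Fl_zero]; trivial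
    | succ p => exact fun v hv => s.Fl_a p k _ (s.Fl_b p k v hv)
  · exact (Stb _).mul_mem (s.Fl_a' p k) (s.Fl_b' p k)
theorem RR_ZZ {I : Finset K} (hI : k ∈ I) (hJ : k ∈ J) : s.RR I * s.ZZ J = 0 := by
  rw [← Finset.insert_erase hJ, s.ZZ_insert (Finset.notMem_erase k J), ← mul_assoc,
    s.RR_Z_DPG7 hI, zero_mul]
theorem ZZ_inj (h : s.ZZ J f ∈ s.N) : f ∈ s.N :=
  s.inj_DPG7 (fun i => s.In_N _ (s.n_In i)) s.N_inj h
theorem ZZ_inj_Fl (h : s.ZZ J f ∈ s.Fl p) : f ∈ s.Fl p :=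
  s.inj_DPG7 (fun i => s.n_Fl_DPG7 i p) (s.Fl_inj p) h
theorem RR_Fl (J : Finset K) (p : ℕ) : s.RR J ∈ Stb (s.Fl p) :=
  cp_mem fun k _ => (Stb _).mul_mem ((Stb _).mul_mem (s.Fl_ev p k)
    ((Stb _).sub_mem (Stb _).one_mem (s.n_Fl_DPG7 _ p))) (s.n_Fl_DPG7 _ p)
theorem n_Fl (i : K × Bool) (p : ℕ) : s.n i ∈ Stb (s.Fl p) := s.n_Fl_DPG7 i p

theorem W_zero (al : Finset K) : s.W al 0 = s.N := by
  ext f
  rw [Vac.mem_W]
  constructor
  · intro h
    simpa [Site.RR] using h ∅ (Finset.empty_subset _) rfl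
  · intro h J _ _
    exact s.RR_N J f h
theorem N_le_W (al : Finset K) (w : ℕ) : s.N ≤ s.W al w :=
  fun f hf => s.mem_W.2 fun J _ _ => s.RR_N J f hf
theorem W_mono {w' : ℕ} (h : w ≤ w') : s.W al w ≤ s.W al w' := by
  intro f hf
  refine s.mem_W.2 fun J hJ hc => ?_
  obtain ⟨I, hI, hIc⟩ := Finset.exists_subset_card_eq (s := J) (n := w) (hc ▸ h)
  rw [← Finset.sdiff_union_of_subset hI, ← s.RR_union]
  exact s.RR_N _ _ (s.mem_W.1 hf I (hI.trans hJ) hIc)
theorem W_ZZ (al : Finset K) (w : ℕ) (g : M) : s.ZZ al g ∈ s.W al (w + 1) := by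
  refine s.mem_W.2 fun J hJ hc => ?_
  obtain ⟨k, hk⟩ := Finset.card_pos.1 (by omega : 0 < J.card)
  rw [← Module.End.mul_apply, s.RR_ZZ hk (hJ hk)]
  exact s.N.zero_mem
theorem In_app_DPG7 {T : Module.End ℂ M} (hT : T ∈ s.In k) (hk : k ∉ J) (h : s.RR J f ∈ s.N) :
    s.RR J (T f) ∈ s.N := by
  rw [← Module.End.mul_apply, ← (s.In_RR hT hk).eq]
  exact s.In_N k hT _ h
theorem up_DPG7 (hk : k ∈ J) (h : s.RR (J.erase k) f ∈ s.N) :
    s.RR J (s.a (k, false) f) ∈ s.N := by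
  rw [s.RR_a_DPG7 hk]
  exact s.In_app_DPG7 ((s.In k).mul_mem (s.a_In (k, false)) (s.P_In k)) (Finset.notMem_erase k J) h
theorem W_Z (hk : k ∉ J) (h : f ∈ s.W J w) : s.Z (k, false) f ∈ s.W (insert k J) w := by
  refine s.mem_W.2 fun I hI hc => ?_
  by_cases hkI : k ∈ I
  · rw [← Module.End.mul_apply, s.RR_Z_DPG7 hkI]
    exact s.N.zero_mem
  · exact s.In_app_DPG7 (s.Z_In (k, false)) hkI
      (s.mem_W.1 h I ((Finset.subset_insert_iff_of_notMem hkI).1 hI) hc)
theorem W_a (h : f ∈ s.W al w) (k : K) : s.a (k, false) f ∈ s.W al (w + 1) := by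
  refine s.mem_W.2 fun I hI hc => ?_
  by_cases hkI : k ∈ I
  · exact s.up_DPG7 hkI (s.mem_W.1 h _ ((Finset.erase_subset k I).trans hI)
      (by rw [Finset.card_erase_of_mem hkI, hc]; rfl))
  · exact s.In_app_DPG7 (s.a_In (k, false)) hkI (s.mem_W.1 (s.W_mono (Nat.le_succ w) h) I hI hc)
theorem W_up (hk : k ∉ J) (h : f ∈ s.W J w) : s.a (k, false) f ∈ s.W (insert k J) (w + 1) := by
  refine s.mem_W.2 fun I hI hc => ?_
  by_cases hkI : k ∈ I
  · exact s.up_DPG7 hkI (s.mem_W.1 h _ (Finset.subset_insert_iff.1 hI)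
      (by rw [Finset.card_erase_of_mem hkI, hc]; rfl))
  · exact s.In_app_DPG7 (s.a_In (k, false)) hkI (s.mem_W.1 (s.W_mono (Nat.le_succ w) h) I
      ((Finset.subset_insert_iff_of_notMem hkI).1 hI) hc)
theorem W_van (hk : k ∉ J) (h : f ∈ s.W J w) (hP : s.P k f ∈ s.N) :
    s.a (k, false) f ∈ s.W (insert k J) w := by
  refine s.mem_W.2 fun I hI hc => ?_
  by_cases hkI : k ∈ I
  · rw [s.RR_a_DPG7 hkI]
    exact s.RR_N _ _ (s.N_a _ _ hP)
  · exact s.In_app_DPG7 (s.a_In (k, false)) hkI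
      (s.mem_W.1 h I ((Finset.subset_insert_iff_of_notMem hkI).1 hI) hc)
theorem W_RR (J : Finset K) : s.RR J ∈ Stb (s.W al w) := by
  intro f hf
  refine s.mem_W.2 fun I hI hc => ?_
  rw [← Module.End.mul_apply, s.RR_union, Finset.union_comm, ← s.RR_union]
  exact s.RR_N _ _ (s.mem_W.1 hf I hI hc)
theorem W_n (k : K) : s.n (k, true) ∈ Stb (s.W al w) := by
  intro f hf
  refine s.mem_W.2 fun I hI hc => ?_
  have h : Commute (s.n (k, true)) (s.RR I) := commute_cp fun l _ => n_Rs_DPG7 s.toSite _ l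
  rw [← Module.End.mul_apply, ← h.eq]
  exact s.In_N k (s.n_In (k, true)) _ (s.mem_W.1 hf I hI hc)

/-- the filtration is generated by the elementary rules -/
theorem W_ind {A : Finset K → ℕ → M → Prop} (nul : ∀ J w, ∀ f ∈ s.N, A J w f)
    (smooth : ∀ w f, A ∅ (w + 1) f) (add : ∀ J w f g, A J w f → A J w g → A J w (f + g))
    (mono : ∀ J w f k, k ∉ J → A J w f → A (insert k J) w (s.Z (k, false) f))
    (up : ∀ J w f k, k ∉ J → A J w f → A (insert k J) (w + 1) (s.a (k, false) f))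
    (van : ∀ J w f k, k ∉ J → A J w f → s.P k f ∈ s.N → A (insert k J) w (s.a (k, false) f))
    (h : f ∈ s.W al w) : A al w f := by
  induction al using Finset.induction_on generalizing w f with
  | empty =>
    cases w with
    | zero => exact nul _ _ f (s.W_zero ∅ ▸ h)
    | succ w => exact smooth w f
  | insert k J hk ih =>
    cases w with
    | zero => exact nul _ _ f (s.W_zero (insert k J) ▸ h)
    | succ w =>
      have hT : ∀ T ∈ s.In k, T f ∈ s.W J (w + 1) := fun T hT => s.mem_W.2 fun I hI hc =>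
        s.In_app_DPG7 hT (fun e => hk (hI e))
          (s.mem_W.1 h I (hI.trans (Finset.subset_insert k J)) hc)
      have h1 := mono J _ _ k hk (ih (hT (1 - s.n (k, false))
        ((s.In k).sub_mem (s.In k).one_mem (s.n_In (k, false)))))
      have h2 : (s.P k * s.b (k, false)) f ∈ s.W J w := by
        refine s.mem_W.2 fun I hI hc => ?_
        have hkI : k ∉ I := fun e => hk (hI e)
        rw [← Module.End.mul_apply,
          ← (s.In_RR ((s.In k).mul_mem (s.P_In k) (s.b_In (k, false))) hkI).eq, P_b_DPG7,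
          mul_assoc, ← s.RR_insert hkI]
        exact s.N_b _ _ (s.mem_W.1 h _ (Finset.insert_subset_insert k hI)
          (by rw [Finset.card_insert_of_notMem hkI, hc]))
      have h3 := up J _ _ k hk (ih h2)
      have h4 := van J _ _ k hk (ih (hT ((1 - s.P k) * s.b (k, false)) ((s.In k).mul_mem
        ((s.In k).sub_mem (s.In k).one_mem (s.P_In k)) (s.b_In (k, false))))) (by
          rw [← Module.End.mul_apply, ← mul_assoc, mul_sub, mul_one, P_P_DPG7 (s.fr k), sub_self,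
            zero_mul]
          exact s.N.zero_mem)
      have h5 := add _ _ _ _ h1 (add _ _ _ _ h3 h4)
      have e : s.Z (k, false) * (1 - s.n (k, false)) + (s.a (k, false) * (s.P k * s.b (k, false))
          + s.a (k, false) * ((1 - s.P k) * s.b (k, false))) = 1 := by
        rw [Z_one_sub_DPG7, CAR.n]
        noncomm_ring
      have e2 := congrArg (fun T : Module.End ℂ M => T f) e
      simp only [LinearMap.add_apply, Module.End.one_apply] at e2
      rw [← e2]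
      exact h5

section fin
variable [Fintype K]

theorem RR_δ (h : J ⊆ al) : Commute (s.RR J) (s.δ (pf al)) :=
  (commute_cp fun k hk => ((s.fr k).Rs_δ (by simp [h hk]) (by simp)).symm).symm
theorem δ_ZZ (h : J ⊆ al) : s.δ (pf al) * s.ZZ J = s.ZZ J * s.δ (pf (al \ J)) := by
  induction J using Finset.induction_on with
  | empty => simp [Site.ZZ]
  | insert k J hk ih =>
    have hka : k ∈ al := h (Finset.mem_insert_self k J)
    have e : pf (al \ J) = insert (k, false) (pf (al \ insert k J)) := by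
      ext ⟨l, t⟩
      by_cases hl : l = k
      · subst hl
        simp [hka, hk]
      · simp [hl]
    rw [s.ZZ_insert hk, (s.In_ZZ (s.Z_In (k, false)) hk).eq, ← mul_assoc,
      ih ((Finset.subset_insert k J).trans h), mul_assoc, e, s.δ_Z (by simp), mul_assoc]
theorem δ_W (al : Finset K) (w : ℕ) : s.δ (pf al) ∈ Stb (s.W al w) := by
  intro f hf
  refine s.mem_W.2 fun I hI hc => ?_
  rw [← Module.End.mul_apply, (s.RR_δ hI).eq]
  exact s.δ_N _ _ (s.mem_W.1 hf I hI hc)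
theorem δ_Sm (h : J ⊆ al) : s.δ (pf al) ∈ Stb (s.Sm J) := by
  intro f hf
  obtain ⟨g, hg⟩ := s.mem_Sm.1 hf
  refine s.mem_Sm.2 ⟨s.δ (pf (al \ J)) g, ?_⟩
  rw [← Module.End.mul_apply, ← s.δ_ZZ h, Module.End.mul_apply, ← map_sub]
  exact s.δ_N _ _ hg
theorem δ_Y (al : Finset K) (q : ℕ) : s.δ (pf al) ∈ Stb (s.Y al q) := by
  intro f hf
  obtain ⟨h1, h2⟩ := s.mem_Y.1 hf
  refine s.mem_Y.2 ⟨s.δ_W al _ f h1, fun I hI hc => ?_⟩
  rw [← Module.End.mul_apply, (s.RR_δ hI).eq]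
  exact s.δ_Sm Finset.sdiff_subset _ (h2 I hI hc)
theorem δ_Fl (po : Finset (K × Bool)) (p : ℕ) : s.δ po ∈ Stb (s.Fl p) := by
  refine s.δ_mem (fun ⟨k, t⟩ => ?_) (s.Fl_x p) (s.Fl_D p) po
  cases t
  · exact fun v hv => s.Fl_anti p (s.Fl_a p k v hv)
  · exact s.Fl_a' p k

end fin

end LogM

end Pool.Agent.PWD.Loc
end
end

-- part Pool.Agent.P.MP_65ad7c_ag.DPG8
section

/-! The logarithmic Poincare lemma; residues. -/

open Filter Topology

noncomputable section
namespace Pool.Agent.PWD.Loc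

variable {K M τ : Type} [DecidableEq K] [AddCommGroup M] [Module ℂ M]
  {al J : Finset K} {σ : Finset τ} {wd : τ → List K} {k : K} {w p q : ℕ} {f g : M}

namespace Site
variable {R : Type} [Ring R] [Algebra ℂ R] (s : Site K R)

theorem Q_a_DPG8 (k : K) : Commute (s.Q k) (s.a (k, false)) :=
  (s.eva k _).mul_left ((Commute.one_left _).sub_left (s.n_a_ne (by simp)))

theorem Q_b_DPG8 (k : K) : Commute (s.Q k) (s.b (k, false)) :=
  (s.evb k _).mul_left ((Commute.one_left _).sub_left (s.n_b_ne (by simp)))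

theorem Rs_a_DPG8 (k : K) : s.Rs k * s.a (k, false) = s.a (k, false) * s.P k := by
  change s.Q k * s.n (k, false) * s.a (k, false) = s.a (k, false) * (s.Q k * (1 - s.n (k, false)))
  rw [mul_assoc, s.n_a, ← mul_assoc, ← (s.Q_a_DPG8 k).eq, mul_assoc, mul_sub, s.a_n, mul_one,
    sub_zero]

theorem Rs_eq_DPG8 (k : K) : s.Rs k = s.a (k, false) * (s.Q k * s.b (k, false)) := by
  rw [← mul_assoc, ← (s.Q_a_DPG8 k).eq, mul_assoc]
  rfl

theorem b_P_DPG8 (k : K) : s.b (k, false) * s.P k = 0 := by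
  change s.b (k, false) * (s.Q k * (1 - s.n (k, false))) = 0
  rw [← mul_assoc, ← (s.Q_b_DPG8 k).eq, mul_assoc, mul_sub, s.b_n, mul_one, sub_self, mul_zero]

theorem b_Q_DPG8 (k : K) : s.b (k, true) * s.Q k = 0 := by
  rw [Q, ← mul_assoc, ← (s.evb k _).eq, mul_assoc, mul_sub, s.b_n, mul_one, sub_self, mul_zero]

theorem Out_aL_DPG8 {T : R} (h : T ∈ s.Out k) {L : List K} (hk : k ∉ L) : Commute T (s.aL L) :=
  s.commute_aL fun l hl => s.commute_of_Out h (s.a_In (l, false)) fun e => hk (e ▸ hl)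

omit [Algebra ℂ R] in
theorem car_DPG8 (k l : K) : s.b (k, false) * s.a (l, false) + s.a (l, false) * s.b (k, false) =
    if k = l then 1 else 0 := by
  rw [s.car]
  simp

end Site

namespace LogM
variable (s : LogM K M)

theorem RR_erase_DPG8 (hk : k ∈ J) : s.RR J = s.RR (J.erase k) * s.Rs k := by
  rw [← (s.Out_RR (s.Rs_Out k) (Finset.notMem_erase k J)).eq,
    ← s.RR_insert (Finset.notMem_erase k J), Finset.insert_erase hk]

theorem aL_ZZ_DPG8 (al : Finset K) (L : List K) : Commute (s.ZZ (al \ L.toFinset)) (s.aL L) :=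
  s.commute_aL fun k hk => (s.In_ZZ (s.a_In (k, false)) (by simp [hk])).symm

theorem lp [Fintype K] (h : f ∈ s.W al w) (hd : s.δ (pf al) f ∈ s.N) :
    ∃ u ∈ s.Cst al, u ∈ s.W al w ∧ ∃ g ∈ s.W al w, f - u - s.δ (pf al) g ∈ s.N := by
  choose H h1 h2 h3 using fun k => (s.fr k).hty (po := pf al) (by simp)
  have hN : ∀ k, H k ∈ Stb s.N := fun k => h2 k _ (s.In_N k) (s.N_I0 k) (s.N_I1 k)
  have hC : ∀ k, H k ∈ Stb (s.W al w) := fun k v hv => s.mem_W.2 fun J hJ hc => by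
    by_cases hk : k ∈ J
    · rw [← Module.End.mul_apply, s.RR_erase_DPG8 hk, mul_assoc, h3 k (by simp [hJ hk]), mul_zero]
      exact zero_mem _
    · have h4 := h2 k (Subalgebra.centralizer ℂ {s.RR J})
        (fun T hT => by
          rw [Subalgebra.mem_centralizer_iff]
          rintro _ rfl
          exact (s.In_RR hT hk).symm.eq)
        (by
          rw [Subalgebra.mem_centralizer_iff]
          rintro _ rfl
          exact (s.Out_RR (s.FOut_le k (s.fr k).I0_FOut) hk).symm.eq)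
        (by
          rw [Subalgebra.mem_centralizer_iff]
          rintro _ rfl
          exact (s.Out_RR (s.FOut_le k (s.fr k).I1_FOut) hk).symm.eq)
      rw [← Module.End.mul_apply, (Subalgebra.mem_centralizer_iff ℂ).1 h4 _ rfl]
      exact hN k _ (s.mem_W.1 hv J hJ hc)
  set B : K → Module.End ℂ M := fun k => if (k, false) ∈ pf al then s.Q k else s.P k with hB
  obtain ⟨-, h4, -, h5⟩ := iter_hty (B := B) (s.δ_δ (pf al)) h1 hN (s.δ_N _) hC (s.δ_W al w)
    Finset.univ.toList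
  refine ⟨_, ?_, h4 f h, h5 f h hd⟩
  have hc : ∀ k l, Commute (B k) (B l) := fun k l => by
    by_cases e : l = k
    · rw [e]
    · refine s.commute_of_Out (k := k) (l := l) ?_ ?_ e
      · simp only [hB]
        split_ifs
        exacts [s.Q_Out k, s.P_Out k]
      · simp only [hB]
        split_ifs
        exacts [s.Q_In l, s.P_In l]
  have hz : ∀ (T : Module.End ℂ M) k, T * B k = 0 → T ((Finset.univ.toList.map B).prod f) = 0 :=
    fun T k e => by
    rw [← Module.End.mul_apply, show (Finset.univ.toList.map B).prod = cp Finset.univ B from rfl,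
      cp_erase hc (Finset.mem_univ k), ← mul_assoc, e, zero_mul]
    rfl
  have hm : ∀ u, u ∈ (⨅ i, LinearMap.ker (s.D i)) ⊓ (⨅ (i) (_ : i ∉ pf al), LinearMap.ker (s.b i))
      ↔ (∀ i, s.D i u = 0) ∧ ∀ i ∉ pf al, s.b i u = 0 := fun u => by
    simp only [Submodule.mem_inf, Submodule.mem_iInf, LinearMap.mem_ker]
  refine span_words (al := al) (α := fun k => s.a (k, false)) (β := fun k => s.b (k, false))
    (C := (⨅ i, LinearMap.ker (s.D i)) ⊓ (⨅ (i) (_ : i ∉ pf al), LinearMap.ker (s.b i)))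
    (fun k hk u hu => ?_) (fun k hk u hu => ?_) (fun k _ l _ => s.car_DPG8 k l)
    (fun k _ l _ => s.bb _ _) (fun u hu h0 => ?_) ((hm _).2 ⟨fun i => ?_, fun i hi => ?_⟩)
  · obtain ⟨u1, u2⟩ := (hm u).1 hu
    refine (hm _).2 ⟨fun i => ?_, fun i hi => ?_⟩
    · rw [← Module.End.mul_apply, (s.Da i _).eq, Module.End.mul_apply, u1, map_zero]
    · rw [← Module.End.mul_apply, s.b_a_ne (fun e => hi (by simp [e, hk])), LinearMap.neg_apply,
        Module.End.mul_apply, u2 i hi, map_zero, neg_zero]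
  · obtain ⟨u1, u2⟩ := (hm u).1 hu
    refine (hm _).2 ⟨fun i => ?_, fun i hi => ?_⟩
    · rw [← Module.End.mul_apply, (s.Db i _).eq, Module.End.mul_apply, u1, map_zero]
    · rw [← Module.End.mul_apply, s.b_swap, LinearMap.neg_apply, Module.End.mul_apply, u2 i hi,
        map_zero, neg_zero]
  · obtain ⟨u1, u2⟩ := (hm u).1 hu
    refine s.ker u u1 fun i => ?_
    by_cases hi : i ∈ pf al
    · obtain ⟨k, t⟩ := i
      obtain ⟨e1, rfl⟩ := mem_pf.1 hi
      exact h0 k e1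
    · exact u2 i hi
  · obtain ⟨k, t⟩ := i
    refine hz _ k ?_
    simp only [hB, Site.Q, Site.P]
    split_ifs
    · rw [← mul_assoc, (s.fr k).D_ev, zero_mul]
    · rw [← mul_assoc, ← mul_assoc, (s.fr k).D_ev, zero_mul, zero_mul]
  · obtain ⟨k, t⟩ := i
    refine hz _ k ?_
    simp only [hB]
    split_ifs with e
    · cases t
      · exact absurd e hi
      · exact s.b_Q_DPG8 k
    · exact s.b_P k t

theorem Rs_word_DPG8 (k : K) (L : List K) :
    s.Rs k (s.aL L s.vac) = if k ∈ L then s.aL L s.vac else 0 := by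
  have h0 : ∀ i : K × Bool, i.2 = true ∨ i.1 ∉ L → s.n i (s.aL L s.vac) = 0 := fun i hi => by
    rw [← Module.End.mul_apply, (s.n_aL hi).eq, Module.End.mul_apply, CAR.n, Module.End.mul_apply,
      s.vac_b, map_zero, map_zero]
  rw [Site.Rs, Module.End.mul_apply, Module.End.mul_apply]
  split_ifs with hk
  · rw [← Module.End.mul_apply (s.n _), s.n_aL_of_mem hk, LinearMap.sub_apply, h0 _ (Or.inl rfl),
      sub_zero, Module.End.one_apply, ← Module.End.mul_apply,
      (s.commute_aL fun l _ => s.eva k _).eq, Module.End.mul_apply, s.ev_vac (s.fr k)]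
  · rw [h0 (k, false) (Or.inr hk), map_zero, map_zero]

theorem RR_word_DPG8 (J : Finset K) (L : List K) :
    s.RR J (s.aL L s.vac) = if J ⊆ L.toFinset then s.aL L s.vac else 0 := by
  induction J using Finset.induction_on with
  | empty => simp [Site.RR]
  | insert k J hk ih =>
    rw [s.RR_insert hk, Module.End.mul_apply, ih]
    by_cases h : J ⊆ L.toFinset
    · simp [h, s.Rs_word_DPG8, Finset.insert_subset_iff]
    · simp [h, Finset.insert_subset_iff]

theorem W_coeff (hw : Words al σ wd) {γ : τ → ℂ}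
    (h : ∑ t ∈ σ, γ t • s.aL (wd t) s.vac ∈ s.W al w) :
    ∀ t ∈ σ, w ≤ (wd t).length → γ t = 0 := by
  intro t ht hl
  have h1 := s.mem_W.1 (s.W_mono hl h) _ (hw.sub t ht) (List.toFinset_card_of_nodup (hw.nodup t ht))
  have h2 := s.indep hw (β := fun k => s.b (k, false)) (T := 1)
    (γ := fun t' => if (wd t).toFinset ⊆ (wd t').toFinset then γ t' else 0)
    (fun k _ => s.N_b _) (fun k _ => s.vac_b _) (fun k _ l _ => s.car_DPG8 k l)
    (fun k _ => Commute.one_left _) rfl (by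
      simpa only [map_sum, map_smul, s.RR_word_DPG8, Module.End.one_apply, smul_ite, ite_smul,
        smul_zero, zero_smul] using h1) t ht
  simpa using h2

/-- the form `dz_L / z_L` times the smooth form `g` -/
def wr (al : Finset K) (L : List K) (g : M) : M := s.aL L (s.ZZ (al \ L.toFinset) g)

theorem RR_aL_DPG8 {L : List K} (hL : L.Nodup) :
    s.RR L.toFinset * s.aL L = s.aL L * s.PP L.toFinset := by
  induction L with
  | nil => simp [Site.RR, Site.PP]
  | cons k L ih =>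
    obtain ⟨h1, h2⟩ := List.nodup_cons.1 hL
    have hk : k ∉ L.toFinset := by simpa using h1
    rw [List.toFinset_cons, s.RR_insert hk, s.PP_insert hk, s.aL_cons, mul_assoc,
      ← mul_assoc (s.RR _), ← (s.In_RR (s.a_In (k, false)) hk).eq, mul_assoc, ih h2, ← mul_assoc,
      s.Rs_a_DPG8, mul_assoc, ← mul_assoc (s.P k), (s.Out_aL_DPG8 (s.P_Out k) h1).eq]
    simp only [mul_assoc]

theorem RR_wr_self {L : List K} (hL : L.Nodup) (g : M) :
    s.RR L.toFinset (s.wr al L g) = s.wr al L (s.PP L.toFinset g) := by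
  have h : Commute (s.ZZ (al \ L.toFinset)) (s.PP L.toFinset) :=
    commute_cp fun k hk => (s.Out_ZZ (s.P_Out k) (by simp [hk])).symm
  rw [wr, wr, ← Module.End.mul_apply, s.RR_aL_DPG8 hL, Module.End.mul_apply,
    ← Module.End.mul_apply (s.PP _), ← h.eq, Module.End.mul_apply]

theorem RR_wr_ne {L : List K} (hJ : J ⊆ al) (h : ¬J ⊆ L.toFinset) (g : M) :
    s.RR J (s.wr al L g) = 0 := by
  obtain ⟨k, h1, h2⟩ := Finset.not_subset.1 h
  have h3 := s.RR_ZZ (I := {k}) (J := al \ L.toFinset) (Finset.mem_singleton_self k)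
    (Finset.mem_sdiff.2 ⟨hJ h1, h2⟩)
  rw [Site.RR, cp_single] at h3
  rw [wr, s.RR_erase_DPG8 h1, Module.End.mul_apply, ← Module.End.mul_apply (s.Rs k),
    (s.Out_aL_DPG8 (s.Rs_Out k) (by simpa using h2)).eq, Module.End.mul_apply,
    ← Module.End.mul_apply (s.Rs k), h3, LinearMap.zero_apply, map_zero, map_zero]

theorem kill_DPG8 {F : ℕ → Submodule ℂ M}
    (hF : ∀ p k, ∀ u ∈ F p, s.b (k, false) u ∈ F (p - 1)) {L : List K} (hL : L.Nodup) {v : M}
    (hv : ∀ k ∈ L, s.b (k, false) v = 0) (h : s.aL L v ∈ F p) : v ∈ F (p - L.length) := by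
  induction L generalizing p with
  | nil => simpa using h
  | cons k L ih =>
    obtain ⟨h1, h2⟩ := List.nodup_cons.1 hL
    have h3 : s.b (k, false) (s.aL L v) = 0 := by
      rw [← Module.End.mul_apply, s.b_aL (Or.inr h1), LinearMap.smul_apply, Module.End.mul_apply,
        hv k List.mem_cons_self, map_zero, smul_zero]
    have h4 := hF p k _ h
    rw [s.aL_cons, Module.End.mul_apply, ← Module.End.mul_apply (s.b _), s.b_a,
      LinearMap.sub_apply, CAR.n, Module.End.mul_apply, h3, map_zero, sub_zero,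
      Module.End.one_apply] at h4
    have h5 := ih h2 (fun l hl => hv l (List.mem_cons_of_mem _ hl)) h4
    rwa [List.length_cons, Nat.add_comm, ← Nat.sub_sub]

theorem b_ZZ_DPG8 {L : List K} (g : M) :
    ∀ k ∈ L, s.b (k, false) (s.ZZ (al \ L.toFinset) (s.PP L.toFinset g)) = 0 := fun k hk => by
  rw [← Module.End.mul_apply, (s.In_ZZ (s.b_In (k, false)) (by simp [hk])).eq,
    Module.End.mul_apply, ← Module.End.mul_apply (s.b _), Site.PP,
    cp_erase s.P_comm (List.mem_toFinset.2 hk), ← mul_assoc, s.b_P_DPG8, zero_mul,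
    LinearMap.zero_apply, map_zero]

theorem wr_N {L : List K} (hL : L.Nodup) (h : s.wr al L (s.PP L.toFinset g) ∈ s.N) :
    s.PP L.toFinset g ∈ s.N :=
  s.ZZ_inj (s.kill_DPG8 (F := fun _ => s.N) (p := 0) (fun _ _ => s.N_b _) hL (s.b_ZZ_DPG8 g) h)

theorem wr_Fl {L : List K} (hL : L.Nodup) (h : s.wr al L (s.PP L.toFinset g) ∈ s.Fl p) :
    s.PP L.toFinset g ∈ s.Fl (p - L.length) := by
  refine s.ZZ_inj_Fl (s.kill_DPG8 (fun p k u hu => ?_) hL (s.b_ZZ_DPG8 g) h)
  cases p with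
  | zero => rw [Nat.zero_sub, s.Fl_zero]; trivial
  | succ p => exact s.Fl_b p k u hu

theorem eq_DPG8 {L : List K} (hL : L.Nodup) (hc : J.card = L.length) (h : J ⊆ L.toFinset) :
    J = L.toFinset :=
  Finset.eq_of_subset_of_card_le h (by rw [hc, List.toFinset_card_of_nodup hL])

theorem resV {L : List K} (hL : L.Nodup) (h : s.PP L.toFinset g ∈ s.N) :
    s.wr al L g ∈ s.W al L.length := s.mem_W.2 fun J hJ hc => by
  by_cases e : J ⊆ L.toFinset
  · rw [eq_DPG8 hL hc e, s.RR_wr_self hL]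
    exact s.aL_N L _ (s.ZZ_N _ _ h)
  · rw [s.RR_wr_ne hJ e]
    exact zero_mem _

theorem RR_sum_DPG8 (hw : Words al σ wd) (hq : ∀ t ∈ σ, (wd t).length = q) (β : τ → M) {t : τ}
    (ht : t ∈ σ) : s.RR (wd t).toFinset (∑ t ∈ σ, s.wr al (wd t) (β t)) =
      s.wr al (wd t) (s.PP (wd t).toFinset (β t)) := by
  rw [map_sum, Finset.sum_eq_single_of_mem t ht fun t' ht' e => s.RR_wr_ne (hw.sub t ht)
    (fun h => e (hw.inj t ht t' ht' (eq_DPG8 (hw.nodup t' ht') (by
      rw [List.toFinset_card_of_nodup (hw.nodup t ht), hq t ht, hq t' ht']) h)).symm) _,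
    s.RR_wr_self (hw.nodup t ht)]

theorem resU (hw : Words al σ wd) (hq : ∀ t ∈ σ, (wd t).length = q) {β : τ → M}
    (h : ∑ t ∈ σ, s.wr al (wd t) (β t) ∈ s.W al q) :
    ∀ t ∈ σ, s.PP (wd t).toFinset (β t) ∈ s.N := fun t ht => by
  have h1 := s.mem_W.1 h _ (hw.sub t ht)
    ((List.toFinset_card_of_nodup (hw.nodup t ht)).trans (hq t ht))
  rw [s.RR_sum_DPG8 hw hq β ht] at h1
  exact s.wr_N (hw.nodup t ht) h1

theorem resF (hw : Words al σ wd) (hq : ∀ t ∈ σ, (wd t).length = q) {β : τ → M}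
    (h : f - ∑ t ∈ σ, s.wr al (wd t) (β t) ∈ s.W al q) (hf : f ∈ s.Fl p) :
    ∀ t ∈ σ, s.PP (wd t).toFinset (β t) ∈ s.Fl (p - q) := fun t ht => by
  have h1 := s.mem_W.1 h _ (hw.sub t ht)
    ((List.toFinset_card_of_nodup (hw.nodup t ht)).trans (hq t ht))
  rw [map_sub, s.RR_sum_DPG8 hw hq β ht] at h1
  have h2 := sub_mem (s.RR_Fl (wd t).toFinset p f hf) (s.Fl_N p h1)
  rw [sub_sub_cancel] at h2
  rw [← hq t ht]
  exact s.wr_Fl (hw.nodup t ht) h2

theorem W_Y_DPG8 (h : f ∈ s.W al q) : f ∈ s.Y al q :=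
  s.mem_Y.2 ⟨s.W_mono (Nat.le_succ q) h, fun J hJ hc =>
    Submodule.mem_sup_right (s.mem_W.1 h J hJ hc)⟩

theorem wr_Y_DPG8 {L : List K} (hL : L.Nodup) (g : M) : s.wr al L g ∈ s.Y al L.length := by
  refine s.mem_Y.2 ⟨s.mem_W.2 fun J hJ hc => ?_, fun J hJ hc => ?_⟩
  · rw [s.RR_wr_ne hJ fun e => by
      have := (Finset.card_le_card e).trans (List.toFinset_card_le L)
      omega]
    exact zero_mem _
  · by_cases e : J ⊆ L.toFinset
    · rw [eq_DPG8 hL hc e, s.RR_wr_self hL, wr, ← Module.End.mul_apply, ← (s.aL_ZZ_DPG8 al L).eq]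
      exact Submodule.mem_sup_left ⟨_, rfl⟩
    · rw [s.RR_wr_ne hJ e]
      exact zero_mem _

theorem Y_of (hw : Words al σ wd) (hq : ∀ t ∈ σ, (wd t).length = q) {β : τ → M}
    (h : f - ∑ t ∈ σ, s.wr al (wd t) (β t) ∈ s.W al q) : f ∈ s.Y al q := by
  have h1 := add_mem (s.W_Y_DPG8 h) (sum_mem (S := s.Y al q) (t := σ)
    (f := fun t => s.wr al (wd t) (β t)) fun t ht => hq t ht ▸ s.wr_Y_DPG8 (hw.nodup t ht) _)
  rwa [sub_add_cancel] at h1

theorem RR_eq_DPG8 {L : List K} (hL : L.Nodup) : ∃ B, s.RR L.toFinset = s.aL L * B := by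
  induction L with
  | nil => exact ⟨1, by simp [Site.RR]⟩
  | cons k L ih =>
    obtain ⟨h1, h2⟩ := List.nodup_cons.1 hL
    have hk : k ∉ L.toFinset := by simpa using h1
    obtain ⟨B, hB⟩ := ih h2
    refine ⟨B * (s.Q k * s.b (k, false)), ?_⟩
    rw [List.toFinset_cons, s.RR_insert hk, (s.Out_RR (s.Rs_Out k) hk).eq, s.Rs_eq_DPG8,
      ← mul_assoc, ← (s.In_RR (s.a_In (k, false)) hk).eq, hB, s.aL_cons]
    simp only [mul_assoc]

theorem Y_elim (hw : Words al σ wd) (hq : ∀ t ∈ σ, (wd t).length = q)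
    (hs : ∀ J ⊆ al, J.card = q → ∃ t ∈ σ, (wd t).toFinset = J) (h : f ∈ s.Y al q) :
    ∃ β : τ → M, f - ∑ t ∈ σ, s.wr al (wd t) (β t) ∈ s.W al q := by
  have h1 : ∀ t, ∃ b, t ∈ σ → s.RR (wd t).toFinset f - s.wr al (wd t) b ∈ s.N := fun t => by
    by_cases ht : t ∈ σ
    · obtain ⟨v, hv⟩ := s.mem_Sm.1 ((s.mem_Y.1 h).2 _ (hw.sub t ht)
        ((List.toFinset_card_of_nodup (hw.nodup t ht)).trans (hq t ht)))
      obtain ⟨B, hB⟩ := s.RR_eq_DPG8 (hw.nodup t ht)
      have h2 : Commute (s.ZZ (al \ (wd t).toFinset)) (s.RR (wd t).toFinset) :=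
        commute_cp fun k hk => (s.Out_ZZ (s.Rs_Out k) (by simp [hk])).symm
      have h3 := s.RR_N (wd t).toFinset _ hv
      rw [map_sub, ← Module.End.mul_apply, s.RR_union, Finset.union_self,
        ← Module.End.mul_apply _ (s.ZZ _), ← h2.eq] at h3
      refine ⟨B v, fun _ => ?_⟩
      rwa [wr, ← Module.End.mul_apply (s.aL _), ← (s.aL_ZZ_DPG8 al _).eq,
        ← Module.End.mul_apply _ B, mul_assoc, ← hB]
    · exact ⟨0, fun e => absurd e ht⟩
  choose β hβ using h1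
  refine ⟨β, s.mem_W.2 fun J hJ hc => ?_⟩
  obtain ⟨t, ht, rfl⟩ := hs J hJ hc
  have h2 := s.RR_N (wd t).toFinset _ (hβ t ht)
  rw [map_sub, ← Module.End.mul_apply, s.RR_union, Finset.union_self,
    s.RR_wr_self (hw.nodup t ht)] at h2
  rwa [map_sub, s.RR_sum_DPG8 hw hq β ht]

theorem W_le_Y (al : Finset K) (q : ℕ) : s.W al q ≤ s.Y al q := fun _ h => s.W_Y_DPG8 h

theorem Y_ZZ (al : Finset K) (q : ℕ) (g : M) : s.ZZ al g ∈ s.Y al q := by
  refine s.mem_Y.2 ⟨s.W_ZZ al q g, fun J hJ _ => ?_⟩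
  rcases J.eq_empty_or_nonempty with rfl | ⟨k, hk⟩
  · rw [Site.RR, cp_empty, Finset.sdiff_empty]
    exact Submodule.mem_sup_left ⟨g, rfl⟩
  · rw [← Module.End.mul_apply, s.RR_ZZ hk (hJ hk)]
    exact zero_mem _

theorem Y_a (h : f ∈ s.Y al q) (k : K) : s.a (k, false) f ∈ s.Y al (q + 1) := by
  obtain ⟨h1, h2⟩ := s.mem_Y.1 h
  refine s.mem_Y.2 ⟨s.W_a h1 k, fun J hJ hc => ?_⟩
  by_cases hk : k ∈ J
  · have hi : s.a (k, false) * s.P k ∈ s.In k := mul_mem (s.a_In (k, false)) (s.P_In k)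
    have hk' : k ∉ al \ J := by simp [hk]
    obtain ⟨v, hv⟩ := s.mem_Sm.1 (h2 (J.erase k) ((Finset.erase_subset k J).trans hJ)
      (by rw [Finset.card_erase_of_mem hk, hc, Nat.add_sub_cancel]))
    rw [Finset.sdiff_erase (hJ hk), s.ZZ_insert hk', (s.Out_ZZ (s.Z_Out (k, false)) hk').eq] at hv
    have h3 := s.In_N k hi _ hv
    rw [map_sub, ← Module.End.mul_apply, ← Module.End.mul_apply _ (_ * _), ← mul_assoc,
      (s.In_ZZ hi hk').eq, (s.In_RR hi (Finset.notMem_erase k J)).eq, ← s.Rs_a_DPG8, ← mul_assoc,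
      ← s.RR_erase_DPG8 hk, mul_assoc] at h3
    exact s.mem_Sm.2 ⟨_, h3⟩
  · rw [← Module.End.mul_apply, ← (s.In_RR (s.a_In (k, false)) hk).eq]
    exact Submodule.mem_sup_right (s.N_a _ _ (s.mem_W.1 h1 J hJ hc))

end LogM

end Pool.Agent.PWD.Loc
end
end
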