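import Pool.Agent.K.MP_65ad7c_ag.C80
import Pool.Agent.K.MP_65ad7c_ag.C81

/-! Logarithmic forms and their coefficients. -/

open Set Filter Topology TopologicalSpace Metric
open scoped ContDiff ComplexConjugate
open Pool.Agent.HT (Form Alt pull der kill)

noncomputable section
namespace Pool.Agent.PWD.Loc

variable {d : ℕ} {F : Type} [NormedAddCommGroup F] [NormedSpace ℂ F] [FiniteDimensional ℂ F]
  {Φ : FK d F} {ι : Type} [LinearOrder ι] {κ : ι → Option (Fin d)} {c : E d} {α I : Finset ι}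
  {al J : Finset (Fin d)} {k : Fin d} {f f' : GF (E d)} {g g' : Fn (⊤ : Opens (E d)) F}
  {w p q : ℕ} {O : Set (E d)}

theorem pf_ne_DPS2 {z : E d} (hz : z ∈ (Rg al : Set (E d))) : ∀ i ∈ pf al, z i.1 ≠ 0 :=
  fun i hi => hz i.1 (mem_pf.1 hi).1

theorem pf_empty_DPS2 : pf (∅ : Finset (Fin d)) = ∅ := by simp [pf]

theorem pf_insert_DPS2 (k : Fin d) (J : Finset (Fin d)) :
    pf (insert k J) = insert (k, false) (pf J) := by
  ext ⟨l, t⟩
  simp only [mem_pf, Finset.mem_insert, Prod.mk.injEq]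
  tauto

theorem Rg_mono_DPS2 (h : J ⊆ al) (c : E d) : 𝓝[Rg al] c ≤ 𝓝[Rg J] c :=
  nhdsWithin_mono c fun _ hz k hk => hz k (h hk)

namespace FK.Hat
omit [LinearOrder ι]

omit [FiniteDimensional ℂ F] in
theorem self (al : Finset (Fin d)) (c : E d) (g : Fn (⊤ : Opens (E d)) F) :
    Φ.Hat al c g (Φ.ren (pf al) g.1) := Eventually.of_forall fun _ _ => rfl
omit [FiniteDimensional ℂ F] in
theorem zero : Φ.Hat al c 0 0 := Eventually.of_forall fun _ _ => by
  rw [Submodule.coe_zero, map_zero]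
omit [FiniteDimensional ℂ F] in
theorem add (h : Φ.Hat al c g f) (h' : Φ.Hat al c g' f') : Φ.Hat al c (g + g') (f + f') := by
  filter_upwards [h, h'] with z h1 h2 n
  rw [Submodule.coe_add, map_add]
  simp only [Pi.add_apply, h1 n, h2 n]
omit [FiniteDimensional ℂ F] in
theorem sub (h : Φ.Hat al c g f) (h' : Φ.Hat al c g' f') : Φ.Hat al c (g - g') (f - f') := by
  filter_upwards [h, h'] with z h1 h2 n
  rw [Submodule.coe_sub, map_sub]
  simp only [Pi.sub_apply, h1 n, h2 n]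
omit [FiniteDimensional ℂ F] in
theorem smul (t : ℂ) (h : Φ.Hat al c g f) : Φ.Hat al c (t • g) (t • f) := by
  filter_upwards [h] with z h1 n
  rw [Submodule.coe_smul, map_smul]
  simp only [Pi.smul_apply, h1 n]
omit [FiniteDimensional ℂ F] in
theorem sum {τ : Type} (σ : Finset τ) {g : τ → Fn (⊤ : Opens (E d)) F} {f : τ → GF (E d)}
    (h : ∀ t ∈ σ, Φ.Hat al c (g t) (f t)) : Φ.Hat al c (∑ t ∈ σ, g t) (∑ t ∈ σ, f t) := by
  classical
  induction σ using Finset.induction_on with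
  | empty => simpa only [Finset.sum_empty] using zero
  | insert a s ha ih =>
    rw [Finset.sum_insert ha, Finset.sum_insert ha]
    exact add (h a (Finset.mem_insert_self a s))
      (ih fun t ht => h t (Finset.mem_insert_of_mem ht))
omit [FiniteDimensional ℂ F] in
theorem congr (h : Φ.Hat (alK κ α) c g f) (h' : (Ctx.std κ).NulN univ α c (f' - f)) :
    Φ.Hat (alK κ α) c g f' := by
  filter_upwards [h, nul_iff.1 h'] with z h1 h2 n
  rw [← h1 n]
  exact sub_eq_zero.1 (h2 n)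
theorem mem_N (h : Φ.Hat al c g f) :
    g ∈ (Φ.logM c).N ↔ ∀ᶠ z in 𝓝[Rg al] c, ∀ n, f n z = 0 := by
  rw [logM_N]
  constructor
  · intro hg
    filter_upwards [h, (mem_Ng.1 hg).filter_mono nhdsWithin_le_nhds, self_mem_nhdsWithin]
      with z h1 h2 hz n
    rw [h1 n]
    exact (Φ.ren_eq_zero (pf_ne_DPS2 hz)).2 ((Submodule.mem_bot ℂ).1 h2) n
  · intro hf
    refine Ng_of_Rg (al := al) bot_closed ?_
    filter_upwards [h, hf, self_mem_nhdsWithin] with z h1 h2 hz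
    exact (Submodule.mem_bot ℂ).2
      ((Φ.ren_eq_zero (pf_ne_DPS2 hz)).1 fun n => (h1 n).symm.trans (h2 n))
theorem nul (h : Φ.Hat (alK κ α) c g f) : g ∈ (Φ.logM c).N ↔ (Ctx.std κ).NulN univ α c f :=
  (mem_N h).trans nul_iff.symm
theorem unique (h : Φ.Hat al c g f) (h' : Φ.Hat al c g' f) : g - g' ∈ (Φ.logM c).N :=
  (mem_N (sub h h')).2 (Eventually.of_forall fun _ _ => by rw [sub_self]; rfl)
theorem mem_Fl (h : Φ.Hat al c g f) :
    g ∈ (Φ.logM c).Fl p ↔ ∀ᶠ z in 𝓝[Rg al] c, ∀ n, tyA (Jc d) p n (f n z) = 0 := by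
  rw [logM_Fl]
  constructor
  · intro hg
    filter_upwards [h, (mem_Ng.1 hg).filter_mono nhdsWithin_le_nhds, self_mem_nhdsWithin]
      with z h1 h2 hz n
    rw [h1 n]
    exact (Φ.ren_ty (pf_ne_DPS2 hz) p).2 h2 n
  · intro hf
    refine Ng_of_Rg (al := al) (Submodule.closed_of_finiteDimensional _) ?_
    filter_upwards [h, hf, self_mem_nhdsWithin] with z h1 h2 hz
    exact (Φ.ren_ty (pf_ne_DPS2 hz) p).1 fun n => by rw [← h1 n]; exact h2 n
theorem fn (h : Φ.Hat (alK κ α) c g f) : g ∈ (Φ.logM c).Fl p ↔ (Ctx.std κ).FN univ α p c f :=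
  (mem_Fl h).trans fn_iff.symm
theorem dif (hc : ∀ k ∈ al, c k = 0) (h : Φ.Hat al c g f) :
    Φ.Hat al c ((Φ.logM c).δ (pf al) g) (dG f) := by
  filter_upwards [ev_nhds h] with z ⟨hz, h1⟩ n
  have h2 := Φ.ren_δ (Ω := ⊤) (c := c) (Opens.mem_top z) (pf_ne_DPS2 hz)
    (fun i hi => hc i.1 (mem_pf.1 hi).1) g n
  refine Eq.trans ?_ h2
  cases n with
  | zero => rfl
  | succ n =>
    have h3 : f n =ᶠ[𝓝 z] Φ.ren (pf al) g.1 n := h1.mono fun y hy => hy n
    exact h3.extDeriv_eq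
omit [FiniteDimensional ℂ F] in
theorem smN (α : Finset ι) (c : E d) (g : Fn (⊤ : Opens (E d)) F) :
    (Ctx.std κ).SmN univ α c (Φ.ren (pf (alK κ α)) g.1) :=
  sm_iff.2 ⟨1, one_pos, fun n z hz =>
    (Φ.ren_cda (pf_ne_DPS2 hz.2) (Fn.cda g (Opens.mem_top z)) n).contDiffWithinAt⟩
omit [FiniteDimensional ℂ F] in
theorem smG (g : Fn (⊤ : Opens (E d)) F) : SmG univ (Φ.ren (pf ∅) g.1) := fun n z _ =>
  (Φ.ren_cda (fun _ hi => absurd (mem_pf.1 hi).1 (Finset.notMem_empty _))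
    (Fn.cda g (Opens.mem_top z)) n).contDiffWithinAt
omit [FiniteDimensional ℂ F] in
theorem of_smG (hO : IsOpen O) (hc : c ∈ O) (hf : SmG O f) : ∃ g, Φ.Hat ∅ c g f := by
  obtain ⟨r, hr, hb⟩ := Metric.isOpen_iff.1 hO c hc
  obtain ⟨g, hg⟩ := Φ.ren_exists (Ω := ⊤) (po := pf ∅) (c := c)
    (fun _ _ i hi => absurd (mem_pf.1 hi).1 (Finset.notMem_empty _)) hr
    (fun n => (hf n).mono fun z hz => hb hz.1)
  refine ⟨g, ?_⟩
  filter_upwards [mem_nhdsWithin_of_mem_nhds (ball_mem_nhds c (half_pos hr))] with z hz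
  exact hg z ⟨hz, Opens.mem_top z⟩
theorem vac (al : Finset (Fin d)) (c : E d) : Φ.Hat al c (Φ.logM c).vac oneG :=
  Eventually.of_forall fun z n => (Φ.ren_vac (Ω := ⊤) (Opens.mem_top z) n).symm
theorem Z (hk : k ∉ J) (hc : c k = 0) (h : Φ.Hat J c g f) :
    Φ.Hat (insert k J) c ((Φ.logM c).Z (k, false) g) f := by
  filter_upwards [h.filter_mono (Rg_mono_DPS2 (Finset.subset_insert k J) c), self_mem_nhdsWithin]
    with z h1 hz n
  rw [h1 n, pf_insert_DPS2]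
  exact (Φ.ren_Z (Ω := ⊤) (i := (k, false)) (fun h => hk (mem_pf.1 h).1) hc
    (hz k (Finset.mem_insert_self k J)) g n).symm
theorem ZZ (hc : ∀ k ∈ al, c k = 0) (h : Φ.Hat ∅ c g f) :
    Φ.Hat al c ((Φ.logM c).ZZ al g) f := by
  filter_upwards [h.filter_mono (Rg_mono_DPS2 (Finset.empty_subset al) c), self_mem_nhdsWithin]
    with z h1 hz n
  have h2 := Φ.ren_ZZ (Ω := ⊤) (Finset.disjoint_empty_left al) hc hz g n
  rw [Finset.empty_union] at h2
  rw [h1 n]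
  exact h2.symm
theorem a (hk : k ∈ al) (h : Φ.Hat al c g f) :
    Φ.Hat al c ((Φ.logM c).a (k, false) g) (lg (fun z => z k) f) := by
  filter_upwards [h] with z h1 n
  exact (lgL_congr h1 [k] n).trans (Φ.ren_a (Ω := ⊤) (c := c) (mem_pf.2 ⟨hk, rfl⟩) g n z)
theorem a_ins (hk : k ∉ J) (h : Φ.Hat J c g f) :
    Φ.Hat (insert k J) c ((Φ.logM c).a (k, false) g) (lg (fun z => z k) f) := by
  filter_upwards [h.filter_mono (Rg_mono_DPS2 (Finset.subset_insert k J) c)] with z h1 n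
  rw [pf_insert_DPS2]
  exact (lgL_congr h1 [k] n).trans
    (Φ.ren_a_ins (Ω := ⊤) (c := c) (fun h => hk (mem_pf.1 h).1) g n z)
theorem aL {L : List (Fin d)} (hL : L.toFinset ⊆ al) (h : Φ.Hat al c g f) :
    Φ.Hat al c ((Φ.logM c).aL L g) (lgL L f) := by
  filter_upwards [h] with z h1 n
  exact (lgL_congr h1 L n).trans (Φ.ren_aL (Ω := ⊤) (c := c)
    (fun k hk => mem_pf.2 ⟨hL (List.mem_toFinset.2 hk), rfl⟩) g n z)
theorem wr {L : List (Fin d)} (hL : L.toFinset ⊆ al) (hc : ∀ k ∈ al, c k = 0)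
    (h : Φ.Hat ∅ c g f) : Φ.Hat al c ((Φ.logM c).wr al L g) (lgL L f) := by
  filter_upwards [h.filter_mono (Rg_mono_DPS2 (Finset.empty_subset al) c), self_mem_nhdsWithin]
    with z h1 hz n
  rw [pf_empty_DPS2] at h1
  exact (lgL_congr h1 L n).trans (Φ.ren_wr (Ω := ⊤) hL hc hz g n)
theorem PP (hc : ∀ k ∈ J, c k = 0) (hd : Disjoint al J) (h : Φ.Hat al c g f) :
    Φ.Hat al c ((Φ.logM c).PP J g) (pullG (kR J) f) := by
  filter_upwards [(kR_tendsto hc hd).eventually h] with z h1 n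
  have h2 := Φ.ren_PP (c := c) (po := pf al) hc
    (fun i hi hJ => Finset.disjoint_left.1 hd (mem_pf.1 hi).1 hJ) g n z
  refine Eq.trans ?_ h2
  rw [pullG_kR, pullG_kR, h1 n]

end FK.Hat

end Pool.Agent.PWD.Loc
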