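import Pool.Agent.K.MP_65ad7c_ag.C82
import Pool.Agent.K.MP_65ad7c_ag.C81
import Pool.Agent.K.MP_65ad7c_ag.C73

-- part Pool.Agent.P.MP_65ad7c_ag.DPS3
section

/-! The weight filtrations in terms of coefficients. -/

open Set Filter Topology TopologicalSpace Metric
open scoped ContDiff ComplexConjugate
open Pool.Agent.HT (Form Alt pull der kill)

noncomputable section
namespace Pool.Agent.PWD.Loc

variable {d : ℕ} {F : Type} [NormedAddCommGroup F] [NormedSpace ℂ F] [FiniteDimensional ℂ F]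
  {Φ : FK d F} {ι : Type} [LinearOrder ι] {κ : ι → Option (Fin d)} {c : E d} {α I : Finset ι}
  {al J : Finset (Fin d)} {k : Fin d} {f f' : GF (E d)} {g g' : Fn (⊤ : Opens (E d)) F}
  {w p q : ℕ} {O : Set (E d)}

theorem lg_one_DPS3 (f : GF (E d)) : lg (fun _ : E d => (1 : ℂ)) f = 0 := by
  funext n
  cases n with
  | zero => rfl
  | succ n => ext x v; simp [lg, wG_applyDL1a]

omit [LinearOrder ι] in
theorem St_single_DPS3 (i : ι) : St univ (Ctx.std κ).D {i} = univ ∩ (Ctx.std κ).D i := by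
  simp [St]

omit [LinearOrder ι] in
theorem hat_nul_DPS3 (h : Φ.Hat (alK κ α) c g f) (h' : Φ.Hat (alK κ α) c g f') :
    (Ctx.std κ).NulN univ α c (f - f') :=
  (h.sub h').nul.1 (by rw [sub_self]; exact Submodule.zero_mem _)

theorem P_iff_DPS3 {i : ι} (h : Std κ c) (hk : κ i = some k)
    (hg : Φ.Hat (alK κ (α.erase i)) c g f) :
    (Φ.logM c).P k g ∈ (Φ.logM c).N ↔
      (Ctx.std κ).NulN (univ ∩ (Ctx.std κ).D i) (α.erase i) c f := by
  have hd : Disjoint (α.erase i) {i} := by simp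
  have hI : Gd κ {i} := fun j hj => ⟨k, by rw [Finset.mem_singleton.1 hj, hk]⟩
  have h1 := (hg.PP h.alK_c (h.alK_disj hd)).mem_N
  rw [← St_single_DPS3, h.nulSt_iff hI hd, ← h1, alK_single hk, Site.PP, cp_single]

theorem lw_hat_DPS3 (Φ : FK d F) (h : Std κ c) (hO : IsOpen O) (hc : c ∈ O)
    (hf : LW ((Ctx.std κ).G O) (Ctx.std κ).D univ O α w f) :
    ∃ g ∈ (Φ.logM c).W (alK κ α) w, Φ.Hat (alK κ α) c g f := by
  induction hf with
  | zero => exact ⟨0, Submodule.zero_mem _, .zero⟩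
  | smooth hs =>
    obtain ⟨g, hg⟩ := FK.Hat.of_smG (Φ := Φ) hO hc hs
    exact ⟨_, (Φ.logM c).W_ZZ _ _ g, hg.ZZ h.alK_c⟩
  | add _ _ h1 h2 =>
    obtain ⟨g1, a1, b1⟩ := h1
    obtain ⟨g2, a2, b2⟩ := h2
    exact ⟨g1 + g2, Submodule.add_mem _ a1 a2, b1.add b2⟩
  | @mono α w f i _ ih =>
    obtain ⟨g, a, b⟩ := ih
    by_cases hi : i ∈ α
    · cases hk : κ i with
      | none => rw [alK_erase_none hk] at a b; exact ⟨g, a, b⟩
      | some k =>
        rw [h.alK_erase hk] at a b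
        have hm : k ∈ alK κ α := mem_alK.2 ⟨i, hi, hk⟩
        rw [← Finset.insert_erase hm]
        exact ⟨_, (Φ.logM c).W_Z (Finset.notMem_erase _ _) a,
          b.Z (Finset.notMem_erase _ _) (h.cen i k hk)⟩
    · rw [Finset.erase_eq_of_notMem hi] at a b
      exact ⟨g, a, b⟩
  | @up α w f i u hi hu _ ih =>
    obtain ⟨g, a, b⟩ := ih
    obtain rfl : u = zc κ i := hu
    cases hk : κ i with
    | none => rw [zc_none hk, lg_one_DPS3]; exact ⟨0, Submodule.zero_mem _, .zero⟩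
    | some k =>
      rw [h.alK_erase hk] at a b
      have hm : k ∈ alK κ α := mem_alK.2 ⟨i, hi, hk⟩
      rw [← Finset.insert_erase hm, zc_some hk]
      exact ⟨_, (Φ.logM c).W_up (Finset.notMem_erase _ _) a, b.a_ins (Finset.notMem_erase _ _)⟩
  | @van α w f i u hi hu _ hv ih =>
    obtain ⟨g, a, b⟩ := ih
    obtain rfl : u = zc κ i := hu
    cases hk : κ i with
    | none => rw [zc_none hk, lg_one_DPS3]; exact ⟨0, Submodule.zero_mem _, .zero⟩
    | some k =>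
      have hP := (P_iff_DPS3 h hk b).2 ⟨O, hO, hc, hv⟩
      rw [h.alK_erase hk] at a b
      have hm : k ∈ alK κ α := mem_alK.2 ⟨i, hi, hk⟩
      rw [← Finset.insert_erase hm, zc_some hk]
      exact ⟨_, (Φ.logM c).W_van (Finset.notMem_erase _ _) a hP,
        b.a_ins (Finset.notMem_erase _ _)⟩

theorem Std.wn_hat (Φ : FK d F) (h : Std κ c) (hf : (Ctx.std κ).WN univ α w c f) :
    ∃ g ∈ (Φ.logM c).W (alK κ α) w, Φ.Hat (alK κ α) c g f := by
  obtain ⟨O, f', hO, hc, h1, h2⟩ := hf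
  obtain ⟨g, a, b⟩ := lw_hat_DPS3 Φ h hO hc h1
  exact ⟨g, a, b.congr ⟨O, hO, hc, h2⟩⟩

theorem split_DPS3 (h : Std κ c) (hk : k ∉ J) (e : alK κ α = insert k J) :
    ∃ i ∈ α, κ i = some k ∧ alK κ (α.erase i) = J := by
  obtain ⟨i, hi, hi'⟩ := mem_alK.1 (e ▸ Finset.mem_insert_self k J : k ∈ alK κ α)
  exact ⟨i, hi, hi', by rw [h.alK_erase hi', e, Finset.erase_insert hk]⟩

theorem Std.hat_wn (h : Std κ c) (hg : g ∈ (Φ.logM c).W (alK κ α) w)
    (hf : Φ.Hat (alK κ α) c g f) : (Ctx.std κ).WN univ α w c f := by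
  have hC : (Ctx.std κ).OK univ := std_ok' _
  refine (Φ.logM c).W_ind (A := fun J w g => ∀ α : Finset ι, alK κ α = J → ∀ f,
    Φ.Hat J c g f → (Ctx.std κ).WN univ α w c f) ?_ ?_ ?_ ?_ ?_ ?_ hg α rfl f hf
  · rintro _ w g hg α rfl f hf
    exact .of_nul (hf.nul.1 hg)
  · intro w g α e f hf
    have h1 := FK.Hat.self (Φ := Φ) ∅ c g
    have h2 := FK.Hat.smG (Φ := Φ) g
    rw [← e] at hf h1 h2
    exact (Ctx.WN.of_smG isOpen_univ (mem_univ c) h2).congr hC (hat_nul_DPS3 hf h1)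
  · rintro _ w g g' h1 h2 α rfl f hf
    exact ((h1 α rfl _ (.self _ c g)).add hC (h2 α rfl _ (.self _ c g'))).congr hC
      (hat_nul_DPS3 hf ((FK.Hat.self _ c g).add (.self _ c g')))
  · intro J w g k hk h1 α e f hf
    obtain ⟨i, hi, hi', e'⟩ := split_DPS3 h hk e
    have h2 := (FK.Hat.self (Φ := Φ) J c g).Z hk (h.cen i k hi')
    rw [← e] at hf h2
    exact ((h1 _ e' _ (.self J c g)).anti subset_rfl (Finset.erase_subset _ _)).congr hC
      (hat_nul_DPS3 hf h2)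
  · intro J w g k hk h1 α e f hf
    obtain ⟨i, hi, hi', e'⟩ := split_DPS3 h hk e
    have h2 := (FK.Hat.self (Φ := Φ) J c g).a_ins hk
    rw [← e, ← zc_some hi'] at h2
    rw [← e] at hf
    exact (Ctx.WN.up hC hi isOpen_univ (mem_univ c) (h := zc κ i) rfl
      (h1 _ e' _ (.self J c g))).congr hC (hat_nul_DPS3 hf h2)
  · intro J w g k hk h1 hP α e f hf
    obtain ⟨i, hi, hi', e'⟩ := split_DPS3 h hk e
    have h0 := FK.Hat.self (Φ := Φ) J c g
    have h2 := h0.a_ins hk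
    rw [← e, ← zc_some hi'] at h2
    rw [← e] at hf
    have h3 := h1 _ e' _ h0
    generalize Φ.ren (pf J) g.1 = f0 at h0 h2 h3
    rw [← e'] at h0
    exact (Ctx.WN.van hC hi isOpen_univ (mem_univ c) (h := zc κ i) rfl h3
      ((P_iff_DPS3 h hi' h0).1 hP)).congr hC (hat_nul_DPS3 hf h2)

omit [LinearOrder ι] in
theorem tw_hat_DPS3 (Φ : FK d F) (h : Std κ c) (hO : IsOpen O) (hc : c ∈ O)
    (hf : TW {u | ∃ i ∈ α, u ∈ (Ctx.std κ).G O i} O w f) :
    ∃ g, Φ.Hat (alK κ α) c g f ∧ (w = 0 → g ∈ (Φ.logM c).N) ∧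
      ∀ q, w ≤ q + 1 → g ∈ (Φ.logM c).Y (alK κ α) q := by
  induction hf with
  | zero => exact ⟨0, .zero, fun _ => Submodule.zero_mem _, fun _ _ => Submodule.zero_mem _⟩
  | smooth hs =>
    obtain ⟨g, hg⟩ := FK.Hat.of_smG (Φ := Φ) hO hc hs
    exact ⟨_, hg.ZZ h.alK_c, fun e => absurd e (Nat.succ_ne_zero _),
      fun q _ => (Φ.logM c).Y_ZZ _ q g⟩
  | add _ _ h1 h2 =>
    obtain ⟨g1, a1, b1, c1⟩ := h1
    obtain ⟨g2, a2, b2, c2⟩ := h2
    exact ⟨g1 + g2, a1.add a2, fun e => Submodule.add_mem _ (b1 e) (b2 e),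
      fun q e => Submodule.add_mem _ (c1 q e) (c2 q e)⟩
  | @log w f u hu _ ih =>
    obtain ⟨g, a1, b1, c1⟩ := ih
    obtain ⟨i, hi, hu⟩ := hu
    obtain rfl : u = zc κ i := hu
    cases hk : κ i with
    | none =>
      rw [zc_none hk, lg_one_DPS3]
      exact ⟨0, .zero, fun _ => Submodule.zero_mem _, fun _ _ => Submodule.zero_mem _⟩
    | some k =>
      rw [zc_some hk]
      refine ⟨_, a1.a (mem_alK.2 ⟨i, hi, hk⟩), fun e => absurd e (Nat.succ_ne_zero _),
        fun q e => ?_⟩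
      cases q with
      | zero =>
        exact (Φ.logM c).W_le_Y _ 0 ((Φ.logM c).N_le_W _ 0
          ((Φ.logM c).N_a _ _ (b1 (by omega))))
      | succ q => exact (Φ.logM c).Y_a (c1 q (by omega)) k

theorem Std.tn_hat (Φ : FK d F) (h : Std κ c) (hf : (Ctx.std κ).TN univ α (q + 1) c f) :
    ∃ g ∈ (Φ.logM c).Y (alK κ α) q, Φ.Hat (alK κ α) c g f := by
  obtain ⟨O, f', hO, hc, h1, h2⟩ := hf
  obtain ⟨g, a, -, b⟩ := tw_hat_DPS3 Φ h hO hc h1
  exact ⟨g, b q le_rfl, a.congr ⟨O, hO, hc, h2⟩⟩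

end Pool.Agent.PWD.Loc
end
end

-- part Pool.Agent.P.MP_65ad7c_ag.DPS4
section

/-! Residues in terms of coefficients. -/

open Set Filter Topology TopologicalSpace Metric
open scoped ContDiff ComplexConjugate
open Pool.Agent.HT (Form Alt pull der kill)

noncomputable section
namespace Pool.Agent.PWD.Loc

variable {d : ℕ} {F : Type} [NormedAddCommGroup F] [NormedSpace ℂ F] [FiniteDimensional ℂ F]
  {Φ : FK d F} {ι : Type} [LinearOrder ι] {κ : ι → Option (Fin d)} {c : E d} {α I : Finset ι}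
  {al J : Finset (Fin d)} {k : Fin d} {f f' : GF (E d)} {g g' : Fn (⊤ : Opens (E d)) F}
  {w p q : ℕ} {O : Set (E d)}
  {r : Finset ι → GF (E d)}

theorem len_DPS4 : ∀ I ∈ sgq κ α q, (wdK κ I).length = q := fun _ hI =>
  (wdK_length (mem_sgq.1 hI).2.2).trans (mem_sgq.1 hI).2.1

theorem Std.sum_DPS4 (h : Std κ c) {b : Finset ι → Fn (⊤ : Opens (E d)) F}
    {β : Finset ι → GF (E d)} (hb : ∀ I, Φ.Hat ∅ c (b I) (β I)) :
    Φ.Hat (alK κ α) c (∑ I ∈ sgq κ α q, (Φ.logM c).wr (alK κ α) (wdK κ I) (b I))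
      (∑ I ∈ α.powersetCard q, lgI (zc κ) I (β I)) := by
  rw [sum_sgq]
  refine FK.Hat.sum _ fun I hI => FK.Hat.wr ?_ h.alK_c (hb I)
  rw [wdK_toFinset]
  exact alK_mono (mem_sgq.1 hI).1

theorem Std.rh_hat (Φ : FK d F) (h : Std κ c) (hf : (Ctx.std κ).RH univ α (zc κ) q c f r) :
    ∃ (g : Fn (⊤ : Opens (E d)) F) (b : Finset ι → Fn (⊤ : Opens (E d)) F),
      Φ.Hat (alK κ α) c g f ∧
      g - ∑ I ∈ sgq κ α q, (Φ.logM c).wr (alK κ α) (wdK κ I) (b I) ∈ (Φ.logM c).W (alK κ α) q ∧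
      ∀ I ∈ sgq κ α q, Φ.Hat ∅ c ((Φ.logM c).PP (alK κ I) (b I)) (pullG (kR (alK κ I)) (r I)) := by
  obtain ⟨O, β, hO, hc, hβ, hW, hV⟩ := hf
  choose b hb using fun I => FK.Hat.of_smG (Φ := Φ) hO hc (hβ I)
  obtain ⟨g0, hg0, hH⟩ := h.wn_hat Φ hW
  have h1 := hH.add (h.sum_DPS4 (α := α) (q := q) hb)
  rw [sub_add_cancel] at h1
  refine ⟨_, b, h1, by rwa [add_sub_cancel_right], fun I hI => ?_⟩
  obtain ⟨hIα, hIq, hG⟩ := mem_sgq.1 hI
  have h2 := FK.Hat.PP (J := alK κ I) h.alK_c (Finset.disjoint_empty_left _) (hb I)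
  have h3 := (h.nulSt_iff (α := ∅) hG (Finset.disjoint_empty_left _)).1
    (Ctx.NulN.of_open_DL2 hO hc (hV I (Finset.mem_powersetCard.2 ⟨hIα, hIq⟩)))
  rw [alK_empty, pullG_sub] at h3
  filter_upwards [h2, h3] with z e2 e3 n
  rw [← e2 n]
  exact sub_eq_zero.1 (e3 n)

theorem Std.rh_Y (h : Std κ c) (hf : (Ctx.std κ).RH univ α (zc κ) q c f r)
    (hg : Φ.Hat (alK κ α) c g f) : g ∈ (Φ.logM c).Y (alK κ α) q := by
  obtain ⟨g', b, h1, h2, -⟩ := h.rh_hat Φ hf
  have h3 := (Φ.logM c).Y_of (h.wordsq α q) len_DPS4 h2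
  have h4 := (Φ.logM c).W_le_Y (alK κ α) q ((Φ.logM c).N_le_W (alK κ α) q (hg.unique h1))
  have h5 := Submodule.add_mem _ h4 h3
  rwa [sub_add_cancel] at h5

theorem Std.Y_rh (h : Std κ c) (hY : g ∈ (Φ.logM c).Y (alK κ α) q)
    (hg : Φ.Hat (alK κ α) c g f) : ∃ r, (Ctx.std κ).RH univ α (zc κ) q c f r := by
  obtain ⟨b, hb⟩ := (Φ.logM c).Y_elim (h.wordsq α q) len_DPS4 h.surjq hY
  refine ⟨fun I => Φ.ren (pf ∅) (b I).1, univ, fun I => Φ.ren (pf ∅) (b I).1, isOpen_univ, trivial,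
    fun I => FK.Hat.smG (b I),
    h.hat_wn hb (hg.sub (h.sum_DPS4 fun I => FK.Hat.self ∅ c (b I))), fun I _ => ?_⟩
  rw [sub_self]
  exact .zero

end Pool.Agent.PWD.Loc
end
end

-- part Pool.Agent.P.MP_65ad7c_ag.DPG9
section

/-! Division by a coordinate; the modified solver. -/

open Filter Topology

noncomputable section
namespace Pool.Agent.PWD.Loc

section ring
variable {K R : Type} [DecidableEq K] [Ring R] [Algebra ℂ R]

namespace Site
variable (s : Site K R) {k : K}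

theorem Z_n_DPG9 (i : K × Bool) : s.Z i * s.n i = s.x i * s.n i := by
  have h := s.n_n i
  unfold Z
  rw [add_mul, mul_assoc, h]
  noncomm_ring

theorem Z_one_sub_DPG9 (i : K × Bool) : s.Z i * (1 - s.n i) = 1 - s.n i := by
  have h : s.n i * (1 - s.n i) = 0 := by rw [mul_sub, s.n_n i, mul_one, sub_self]
  unfold Z
  rw [add_mul, mul_assoc, h, mul_zero, add_zero, one_mul]

theorem D_Z_DPG9 (k : K) : Commute (s.D (k, true)) (s.Z (k, false)) := by
  have h1 : Commute (s.D (k, true)) (s.x (k, false)) := by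
    have h := s.Dx (k, true) (k, false)
    rw [if_neg (by simp)] at h
    exact sub_eq_zero.1 h
  exact (Commute.one_right _).add_right
    ((h1.sub_right (Commute.one_right _)).mul_right (s.FOut_n (s.D_FOut (k, true)) _))

theorem b_Z_DPG9 (k : K) : Commute (s.b (k, true)) (s.Z (k, false)) :=
  (Commute.one_right _).add_right
    (((s.xb _ _).symm.sub_right (Commute.one_right _)).mul_right (s.n_b_ne (by simp)).symm)

theorem b_Ee_DPG9 (k : K) : Commute (s.b (k, true)) (s.Ee k) :=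
  (s.evb _ _).symm.mul_right (s.n_b_ne (by simp)).symm

variable {s}

omit [Algebra ℂ R] in
theorem Fr.ev_ev_DPG9 (h : s.Fr k) : s.ev k * s.ev k = s.ev k := by
  have h1 : s.ev k * (1 - s.ev k) = 0 := by
    rw [h.had, mul_add, ← mul_assoc, ← mul_assoc, ← mul_assoc, ← mul_assoc, h.ev_x, h.ev_x]
    simp
  rw [mul_sub, mul_one, sub_eq_zero] at h1
  exact h1.symm

theorem Fr.I0_FOut_DPG9 (h : s.Fr k) : h.I0 ∈ s.FOut k := by
  have key : ∀ T : R, Commute (s.Eu k) T → Commute h.I0 T := fun T hT =>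
    (commute_inv h.l0 h.r0 (hT.symm.add_right (Commute.one_right T))).symm
  obtain ⟨h1, h2, h3⟩ := s.mem_FOut.1 (s.Eu_FOut k)
  exact s.mem_FOut.2 ⟨fun i => ⟨key _ (h1 i).1, key _ (h1 i).2⟩,
    fun i hi => ⟨key _ (h2 i hi).1, key _ (h2 i hi).2⟩, fun l hl => key _ (h3 l hl)⟩

theorem Fr.Ee_Z_DPG9 (h : s.Fr k) : s.Ee k * s.Z (k, false) = 0 := by
  have h1 : s.n (k, false) * s.Z (k, false) = s.x (k, false) * s.n (k, false) := by
    have h2 : Commute (s.Z (k, false)) (s.n (k, false)) :=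
      (Commute.one_left _).add_left
        (((s.FOut_n (s.x_FOut (k, false)) _).sub_left (Commute.one_left _)).mul_left
          (Commute.refl _))
    rw [← h2.eq, Z_n_DPG9]
  unfold Ee
  rw [mul_assoc, h1, ← mul_assoc, h.ev_x, zero_mul]

theorem Fr.n_Ee_DPG9 (h : s.Fr k) {T : R} (hT : Commute T (s.ev k)) :
    s.ev k * T * s.n (k, false) * s.Ee k = s.ev k * T * s.n (k, false) := by
  have h1 := (s.FOut_n (s.ev_FOut k) (k, false)).eq
  unfold Ee
  calc s.ev k * T * s.n (k, false) * (s.ev k * s.n (k, false))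
      = s.ev k * T * (s.n (k, false) * s.ev k) * s.n (k, false) := by noncomm_ring
    _ = s.ev k * (T * s.ev k) * (s.n (k, false) * s.n (k, false)) := by rw [← h1]; noncomm_ring
    _ = (s.ev k * s.ev k) * T * s.n (k, false) := by rw [hT.eq, s.n_n]; noncomm_ring
    _ = _ := by rw [h.ev_ev_DPG9]

theorem Fr.Ee_Ee_DPG9 (h : s.Fr k) : s.Ee k * (1 - s.Ee k) = 0 := by
  have h1 := h.n_Ee_DPG9 (Commute.one_left _)
  rw [mul_one] at h1
  rw [mul_sub, mul_one, sub_eq_zero]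
  exact h1.symm

theorem Fr.Rs_Ee_DPG9 (h : s.Fr k) : s.Rs k * (1 - s.Ee k) = 0 := by
  have h1 := h.n_Ee_DPG9 (T := 1 - s.n (k, true))
    ((Commute.one_left _).sub_left (s.FOut_n (s.ev_FOut k) _).symm)
  rw [mul_sub, mul_one, sub_eq_zero]
  exact h1.symm

omit [Algebra ℂ R] in
theorem Fr.D_Ee_DPG9 (h : s.Fr k) : s.D (k, true) * (1 - s.Ee k) = s.D (k, true) := by
  unfold Ee
  rw [mul_sub, ← mul_assoc, h.D_ev, zero_mul, mul_one, sub_zero]

theorem Fr.split_DPG9 (h : s.Fr k) :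
    (1 : R) - s.Z (k, false) * ((1 - s.n (k, false)) + s.n (k, false) * h.I0 * s.D (k, false)) =
      s.Ee k + s.x (k, true) * h.I0 * s.n (k, false) * s.D (k, true) := by
  have h1 := (s.FOut_n h.I0_FOut_DPG9 (k, false)).eq
  have h2 := (s.FOut_n (s.D_FOut (k, false)) (k, false)).eq
  have h3 := (s.FOut_n (s.D_FOut (k, true)) (k, false)).eq
  have h4 : s.Z (k, false) * (s.n (k, false) * h.I0 * s.D (k, false)) =
      s.x (k, false) * h.I0 * s.D (k, false) * s.n (k, false) := by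
    calc _ = (s.Z (k, false) * s.n (k, false)) * h.I0 * s.D (k, false) := by noncomm_ring
      _ = s.x (k, false) * (s.n (k, false) * h.I0) * s.D (k, false) := by
        rw [Z_n_DPG9]; noncomm_ring
      _ = s.x (k, false) * h.I0 * (s.n (k, false) * s.D (k, false)) := by
        rw [← h1]; noncomm_ring
      _ = _ := by rw [← h2]; noncomm_ring
  have h5 : s.x (k, true) * h.I0 * s.n (k, false) * s.D (k, true) =
      s.x (k, true) * h.I0 * s.D (k, true) * s.n (k, false) := by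
    rw [mul_assoc _ (s.n _), ← h3, ← mul_assoc]
  have h6 : (1 - s.ev k) * s.n (k, false) =
      s.x (k, false) * h.I0 * s.D (k, false) * s.n (k, false) +
        s.x (k, true) * h.I0 * s.D (k, true) * s.n (k, false) := by rw [h.had, add_mul]
  rw [mul_add, Z_one_sub_DPG9, h4, h5]
  unfold Ee
  rw [sub_mul, one_mul] at h6
  linear_combination (norm := noncomm_ring) h6

end Site

end ring

variable {K M τ : Type} [DecidableEq K] [AddCommGroup M] [Module ℂ M]
  {al J : Finset K} {σ : Finset τ} {wd : τ → List K} {k : K} {w p q : ℕ} {f g : M}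

namespace LogM
variable (s : LogM K M)

theorem n_N_DPG9 (i : K × Bool) : s.n i ∈ Stb s.N := mul_mem (s.N_a i) (s.N_b i)

theorem Z_N_DPG9 (i : K × Bool) : s.Z i ∈ Stb s.N :=
  add_mem (one_mem _) (mul_mem (sub_mem (s.N_x i) (one_mem _)) (s.n_N_DPG9 i))

theorem ZZ_N_DPG9 (J : Finset K) : s.ZZ J ∈ Stb s.N := cp_mem fun _ _ => s.Z_N_DPG9 _

theorem Ee_N_DPG9 (k : K) : s.Ee k ∈ Stb s.N := mul_mem (s.N_ev k) (s.n_N_DPG9 _)

theorem ZZ_erase_DPG9 (hk : k ∈ J) : s.ZZ J = s.ZZ (J.erase k) * s.Z (k, false) := by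
  rw [← (s.Out_ZZ (s.Z_Out (k, false)) (Finset.notMem_erase k J)).eq,
    ← s.ZZ_insert (Finset.notMem_erase k J), Finset.insert_erase hk]

/-- holomorphic in `z_k` with vanishing polar value: no pole -/
theorem hol_one (hE : s.Ee k f ∈ s.N) (hD : s.D (k, true) f ∈ s.N) :
    ∃ g, f - s.Z (k, false) g ∈ s.N := by
  refine ⟨((1 - s.n (k, false)) + s.n (k, false) * (s.fr k).I0 * s.D (k, false)) f, ?_⟩
  have h1 : f - s.Z (k, false)
      (((1 - s.n (k, false)) + s.n (k, false) * (s.fr k).I0 * s.D (k, false)) f) =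
      s.Ee k f + (s.x (k, true) * (s.fr k).I0 * s.n (k, false)) (s.D (k, true) f) :=
    LinearMap.congr_fun (s.fr k).split_DPG9 f
  rw [h1]
  exact add_mem hE (mul_mem (mul_mem (s.N_x _) (s.N_I0 k)) (s.n_N_DPG9 _) _ hD)

theorem hol_step_DPG9 {h : M} (hE : s.Ee k g ∈ s.N)
    (hD : s.D (k, true) g - s.Z (k, false) h ∈ s.N) : ∃ g', g - s.Z (k, false) g' ∈ s.N := by
  obtain ⟨ρ, hρ⟩ := (s.S_D k h).exists
  have h1 : s.Ee k (g - s.Z (k, false) (s.S k ρ h)) ∈ s.N := by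
    have h2 : s.Ee k (s.Z (k, false) (s.S k ρ h)) = 0 :=
      LinearMap.congr_fun (s.fr k).Ee_Z_DPG9 _
    rwa [map_sub, h2, sub_zero]
  have h3 : s.D (k, true) (g - s.Z (k, false) (s.S k ρ h)) ∈ s.N := by
    have h4 : s.D (k, true) (s.Z (k, false) (s.S k ρ h)) =
        s.Z (k, false) (s.D (k, true) (s.S k ρ h)) := LinearMap.congr_fun (s.D_Z_DPG9 k).eq _
    have h5 := sub_mem hD (s.Z_N_DPG9 (k, false) _ hρ)
    rw [map_sub, ← h4] at h5
    rw [map_sub]
    simpa using h5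
  obtain ⟨g', hg'⟩ := s.hol_one h1 h3
  refine ⟨s.S k ρ h + g', ?_⟩
  rwa [map_add, ← sub_sub]

theorem hol (hE : ∀ k ∈ J, s.Ee k f ∈ s.N) (hD : ∀ k ∈ J, s.D (k, true) f ∈ s.Sm J) :
    f ∈ s.Sm J := by
  have key : ∀ J' : Finset K, J' ⊆ J → ∃ g, f - s.ZZ J' g ∈ s.N := by
    intro J'
    induction J' using Finset.induction_on with
    | empty => exact fun _ => ⟨f, by simp [Site.ZZ]⟩
    | insert j J' hj ih =>
      intro hs
      have hjJ : j ∈ J := hs (Finset.mem_insert_self _ _)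
      have hs' : J' ⊆ J := (Finset.subset_insert _ _).trans hs
      obtain ⟨g, hg⟩ := ih hs'
      have e1 : s.Ee j g ∈ s.N := by
        have a1 := sub_mem (hE j hjJ) (s.Ee_N_DPG9 j _ hg)
        have a2 : s.Ee j (s.ZZ J' g) = s.ZZ J' (s.Ee j g) :=
          LinearMap.congr_fun (s.Out_ZZ (s.Ee_Out j) hj).eq g
        rw [map_sub, sub_sub_cancel, a2] at a1
        exact s.ZZ_inj a1
      obtain ⟨h0, hh⟩ := s.mem_Sm.1 (hD j hjJ)
      have e2 : s.ZZ J = s.ZZ J' * (s.Z (j, false) * s.ZZ (J \ insert j J')) := by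
        rw [← mul_assoc, ← (s.Out_ZZ (s.Z_Out (j, false)) hj).eq, ← s.ZZ_insert hj]
        have a1 := cp_union (f := fun k => s.Z (k, false)) (fun _ _ => s.Z_comm _ _)
          (Finset.disjoint_sdiff (s := insert j J') (t := J))
        rw [Finset.union_sdiff_of_subset hs] at a1
        exact a1
      have e3 : s.D (j, true) g - s.Z (j, false) (s.ZZ (J \ insert j J') h0) ∈ s.N := by
        have a1 := sub_mem hh (s.N_D (j, true) _ hg)
        have a2 : s.D (j, true) (s.ZZ J' g) = s.ZZ J' (s.D (j, true) g) :=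
          LinearMap.congr_fun (s.Out_ZZ (s.FOut_le j (s.D_FOut (j, true))) hj).eq g
        have a3 : s.ZZ J h0 = s.ZZ J' (s.Z (j, false) (s.ZZ (J \ insert j J') h0)) :=
          LinearMap.congr_fun e2 h0
        rw [map_sub, a2, a3] at a1
        refine s.ZZ_inj (J := J') ?_
        rw [map_sub]
        simpa using a1
      obtain ⟨g', hg'⟩ := s.hol_step_DPG9 e1 e3
      refine ⟨g', ?_⟩
      have a1 := add_mem hg (s.ZZ_N_DPG9 J' _ hg')
      have a2 : s.ZZ (insert j J') g' = s.ZZ J' (s.Z (j, false) g') := by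
        rw [s.ZZ_insert hj, (s.Out_ZZ (s.Z_Out (j, false)) hj).eq]
        rfl
      rw [map_sub] at a1
      rw [a2]
      simpa using a1
  exact s.mem_Sm.2 (key J (subset_refl J))

/-- the homotopy operator in the direction of the conjugate of `dz_k` -/
def Kb (al : Finset K) (k : K) (ρ : ℝ) : Module.End ℂ M :=
  (if k ∈ al then 1 - s.Ee k else 1) * s.S k ρ * s.b (k, true)

theorem comm_ite_DPG9 (al : Finset K) {T : Module.End ℂ M} (h : Commute T (s.Ee k)) :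
    Commute T (if k ∈ al then 1 - s.Ee k else 1) := by
  split_ifs
  · exact (Commute.one_right T).sub_right h
  · exact Commute.one_right T

theorem ite_mem_DPG9 (al : Finset K) {A : Subalgebra ℂ (Module.End ℂ M)} (h : s.Ee k ∈ A) :
    (if k ∈ al then 1 - s.Ee k else 1) ∈ A := by
  split_ifs
  · exact sub_mem (one_mem _) h
  · exact one_mem _

theorem Kb_Out_even (al : Finset K) (k : K) (ρ : ℝ) {T : Module.End ℂ M} {l : K} (hl : l ≠ k)
    (h : T ∈ s.In l) (h' : T ∈ s.Out l) : Commute T (s.Kb al k ρ) :=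
  ((s.comm_ite_DPG9 al (s.commute_of_Out h' (s.Ee_In k) hl.symm)).mul_right
    (s.commute_of_Out (s.FOut_le k (s.S_out k ρ)) h hl).symm).mul_right
    (s.commute_of_Out h' (s.b_In (k, true)) hl.symm)

theorem Kb_aD (al : Finset K) (k : K) (ρ : ℝ) {l : K} (hl : l ≠ k) :
    s.a (l, true) * s.D (l, true) * s.Kb al k ρ =
      -(s.Kb al k ρ * (s.a (l, true) * s.D (l, true))) := by
  have h1 : (if k ∈ al then 1 - s.Ee k else 1) * s.S k ρ ∈ s.Out k :=
    mul_mem (s.ite_mem_DPG9 al (s.Ee_Out k)) (s.FOut_le k (s.S_out k ρ))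
  have h2 := (s.commute_of_Out h1 (mul_mem (s.a_In (l, true)) (s.D_In (l, true))) hl).eq
  have h3 := s.b_a_ne (i := (k, true)) (j := (l, true)) (by simpa using hl.symm)
  have h4 := (s.Db (l, true) (k, true)).eq
  unfold Kb
  generalize (if k ∈ al then 1 - s.Ee k else 1) * s.S k ρ = E at h2 ⊢
  calc s.a (l, true) * s.D (l, true) * (E * s.b (k, true))
      = (s.a (l, true) * s.D (l, true) * E) * s.b (k, true) := by noncomm_ring
    _ = E * s.a (l, true) * (s.D (l, true) * s.b (k, true)) := by rw [← h2]; noncomm_ring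
    _ = -(E * (-(s.a (l, true) * s.b (k, true))) * s.D (l, true)) := by rw [h4]; noncomm_ring
    _ = _ := by rw [← h3]; noncomm_ring

theorem b_Kb (al : Finset K) (k : K) (ρ : ℝ) : s.b (k, true) * s.Kb al k ρ = 0 := by
  have h1 : Commute (s.b (k, true)) ((if k ∈ al then 1 - s.Ee k else 1) * s.S k ρ) :=
    (s.comm_ite_DPG9 al (s.b_Ee_DPG9 k)).mul_right ((s.mem_FOut.1 (s.S_out k ρ)).1 _).2.symm
  unfold Kb
  rw [← mul_assoc, h1.eq, mul_assoc, s.b_b, mul_zero]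

theorem D_Kb (al : Finset K) (k : K) (f : M) :
    ∀ᶠ ρ in 𝓝[>] (0 : ℝ), s.D (k, true) (s.Kb al k ρ f) - s.b (k, true) f ∈ s.N := by
  have h1 : s.D (k, true) * (if k ∈ al then 1 - s.Ee k else 1) = s.D (k, true) := by
    split_ifs
    · exact (s.fr k).D_Ee_DPG9
    · exact mul_one _
  filter_upwards [s.S_D k (s.b (k, true) f)] with ρ hρ
  have h2 : s.D (k, true) (s.Kb al k ρ f) = s.D (k, true) (s.S k ρ (s.b (k, true) f)) :=
    LinearMap.congr_fun h1 _
  rwa [h2]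

theorem Kb_N (al : Finset K) (k : K) : Stab (s.Kb al k) s.N s.N := by
  intro f hf
  filter_upwards [s.S_N k _ (s.N_b (k, true) f hf)] with ρ hρ
  exact s.ite_mem_DPG9 al (s.Ee_N_DPG9 k) _ hρ

theorem Kb_Fl (al : Finset K) (k : K) (p : ℕ) : Stab (s.Kb al k) (s.Fl p) (s.Fl p) := by
  intro f hf
  filter_upwards [s.Fl_S p k _ (s.Fl_b' p k f hf)] with ρ hρ
  exact s.ite_mem_DPG9 al (A := Stb (s.Fl p)) (mul_mem (s.Fl_ev p k) (s.n_Fl _ p)) _ hρ

theorem Kb_ZZ_DPG9 (al : Finset K) (ρ : ℝ) (hk : k ∉ J) : Commute (s.Kb al k ρ) (s.ZZ J) :=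
  commute_cp fun j hj => (s.Kb_Out_even al k ρ (l := j) (fun h => hk (h ▸ hj))
    (s.Z_In (j, false)) (s.Z_Out (j, false))).symm

theorem Kb_Z_DPG9 (hk : k ∈ al) (g : M) : ∀ᶠ ρ in 𝓝[>] (0 : ℝ),
    ∃ g', s.Kb al k ρ (s.Z (k, false) g) - s.Z (k, false) g' ∈ s.N := by
  filter_upwards [s.S_D k (s.b (k, true) g), s.S_D k (s.Z (k, false) (s.b (k, true) g))]
    with ρ h1 h2
  have e0 : s.b (k, true) (s.Z (k, false) g) = s.Z (k, false) (s.b (k, true) g) :=
    LinearMap.congr_fun (s.b_Z_DPG9 k).eq g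
  have e1 : s.Kb al k ρ (s.Z (k, false) g) =
      (1 - s.Ee k) (s.S k ρ (s.Z (k, false) (s.b (k, true) g))) := by
    unfold Kb
    rw [if_pos hk, ← e0]
    rfl
  have e2 : s.Ee k ((1 - s.Ee k) (s.S k ρ (s.Z (k, false) (s.b (k, true) g)))) = 0 :=
    LinearMap.congr_fun (s.fr k).Ee_Ee_DPG9 _
  have e3 : s.D (k, true) ((1 - s.Ee k) (s.S k ρ (s.Z (k, false) (s.b (k, true) g)))) =
      s.D (k, true) (s.S k ρ (s.Z (k, false) (s.b (k, true) g))) :=
    LinearMap.congr_fun (s.fr k).D_Ee_DPG9 _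
  rw [e1]
  exact s.hol_step_DPG9 (h := s.b (k, true) g) (e2 ▸ zero_mem _) (e3 ▸ h2)

theorem Kb_Sm (k : K) (h : J ⊆ al) : Stab (s.Kb al k) (s.Sm J) (s.Sm J) := by
  intro f hf
  obtain ⟨g, hg⟩ := s.mem_Sm.1 hf
  by_cases hk : k ∈ J
  · filter_upwards [s.Kb_N al k _ hg, s.Kb_Z_DPG9 (h hk) g] with ρ h1 ⟨g', h2⟩
    refine s.mem_Sm.2 ⟨g', ?_⟩
    have e1 : ∀ u, s.ZZ J u = s.ZZ (J.erase k) (s.Z (k, false) u) := fun u =>
      LinearMap.congr_fun (s.ZZ_erase_DPG9 hk) u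
    have e2 : s.Kb al k ρ (s.ZZ (J.erase k) (s.Z (k, false) g)) =
        s.ZZ (J.erase k) (s.Kb al k ρ (s.Z (k, false) g)) :=
      LinearMap.congr_fun (s.Kb_ZZ_DPG9 al ρ (Finset.notMem_erase k J)).eq _
    have h3 := add_mem h1 (s.ZZ_N_DPG9 (J.erase k) _ h2)
    rw [map_sub, map_sub, e1, e2] at h3
    rw [e1]
    simpa using h3
  · filter_upwards [s.Kb_N al k _ hg] with ρ h1
    refine s.mem_Sm.2 ⟨s.Kb al k ρ g, ?_⟩
    have e2 : s.Kb al k ρ (s.ZZ J g) = s.ZZ J (s.Kb al k ρ g) :=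
      LinearMap.congr_fun (s.Kb_ZZ_DPG9 al ρ hk).eq _
    rwa [map_sub, e2] at h1

theorem RR_Kb_DPG9 (k : K) (h : J ⊆ al) {C : Submodule ℂ M} (hC : Stab (s.Kb al k) C C)
    (hf : s.RR J f ∈ C) : ∀ᶠ ρ in 𝓝[>] (0 : ℝ), s.RR J (s.Kb al k ρ f) ∈ C := by
  by_cases hk : k ∈ J
  · refine Eventually.of_forall fun ρ => ?_
    have e1 : s.RR J = s.RR (J.erase k) * s.Rs k := by
      rw [← (s.Out_RR (s.Rs_Out k) (Finset.notMem_erase k J)).eq,
        ← s.RR_insert (Finset.notMem_erase k J), Finset.insert_erase hk]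
    have e2 : s.RR J * s.Kb al k ρ = 0 := by
      unfold Kb
      rw [if_pos (h hk), e1, ← mul_assoc, ← mul_assoc, mul_assoc _ (s.Rs k),
        (s.fr k).Rs_Ee_DPG9]
      simp
    have e3 : s.RR J (s.Kb al k ρ f) = 0 := LinearMap.congr_fun e2 f
    rw [e3]
    exact zero_mem _
  · filter_upwards [hC _ hf] with ρ h1
    have e1 : Commute (s.Kb al k ρ) (s.RR J) :=
      commute_cp fun j hj => (s.Kb_Out_even al k ρ (l := j) (fun h => hk (h ▸ hj))
        (s.Rs_In j) (s.Rs_Out j)).symm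
    have e2 : s.Kb al k ρ (s.RR J f) = s.RR J (s.Kb al k ρ f) := LinearMap.congr_fun e1.eq f
    rwa [e2] at h1

theorem Kb_W (al : Finset K) (k : K) (w : ℕ) : Stab (s.Kb al k) (s.W al w) (s.W al w) := by
  intro f hf
  have h1 : ∀ᶠ ρ in 𝓝[>] (0 : ℝ), ∀ J ∈ al.powersetCard w, s.RR J (s.Kb al k ρ f) ∈ s.N := by
    refine (eventually_all_finset _).2 fun J hJ => ?_
    obtain ⟨a1, a2⟩ := Finset.mem_powersetCard.1 hJ
    exact s.RR_Kb_DPG9 k a1 (s.Kb_N al k) (s.mem_W.1 hf J a1 a2)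
  filter_upwards [h1] with ρ hρ
  exact s.mem_W.2 fun J a1 a2 => hρ J (Finset.mem_powersetCard.2 ⟨a1, a2⟩)

theorem Kb_Y (al : Finset K) (k : K) (q : ℕ) : Stab (s.Kb al k) (s.Y al q) (s.Y al q) := by
  intro f hf
  obtain ⟨hf1, hf2⟩ := s.mem_Y.1 hf
  have h1 : ∀ᶠ ρ in 𝓝[>] (0 : ℝ), ∀ J ∈ al.powersetCard q,
      s.RR J (s.Kb al k ρ f) ∈ s.Sm (al \ J) := by
    refine (eventually_all_finset _).2 fun J hJ => ?_
    obtain ⟨a1, a2⟩ := Finset.mem_powersetCard.1 hJ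
    exact s.RR_Kb_DPG9 k a1 (s.Kb_Sm k Finset.sdiff_subset) (hf2 J a1 a2)
  filter_upwards [h1, s.Kb_W al k (q + 1) f hf1] with ρ hρ h2
  exact s.mem_Y.2 ⟨h2, fun J a1 a2 => hρ J (Finset.mem_powersetCard.2 ⟨a1, a2⟩)⟩

end LogM

end Pool.Agent.PWD.Loc
end
end

-- part Pool.Agent.P.MP_65ad7c_ag.DPG10
section

/-! The filtered Dolbeault lemma. -/

open Filter Topology

noncomputable section
namespace Pool.Agent.PWD.Loc

variable {K M τ : Type} [DecidableEq K] [AddCommGroup M] [Module ℂ M]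
  {al J : Finset K} {σ : Finset τ} {wd : τ → List K} {k : K} {w p q : ℕ} {f g : M}

theorem app_DPG10 {A B : Module.End ℂ M} (h : Commute A B) (v : M) : A (B v) = B (A v) :=
  congrArg (fun T : Module.End ℂ M => T v) h.eq

namespace LogM
variable [Fintype K] (s : LogM K M)

theorem Sm_DPG10 {T : Module.End ℂ M} (hN : T ∈ Stb s.N) (hx : ∀ i, Commute T (s.x i))
    (hn : ∀ l, Commute T (s.n (l, false))) (J : Finset K) : T ∈ Stb (s.Sm J) := by
  have hZ : Commute T (s.ZZ J) := commute_cp fun l _ =>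
    (Commute.one_right T).add_right (((hx _).sub_right (Commute.one_right T)).mul_right (hn l))
  intro v hv
  obtain ⟨g, hg⟩ := s.mem_Sm.1 hv
  refine s.mem_Sm.2 ⟨T g, ?_⟩
  rw [← app_DPG10 hZ, ← map_sub]
  exact hN _ hg

theorem nRR_DPG10 (k : K) (J : Finset K) : Commute (s.n (k, true)) (s.RR J) :=
  commute_cp fun l _ => by
    by_cases h : l = k
    · subst h
      exact (s.n_Rs l).trans (s.Rs_n l).symm
    · exact s.commute_of_Out (s.n_Out (k, true)) (s.Rs_In l) h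

theorem bδ_DPG10 (al : Finset K) (k : K) (v : M) :
    s.b (k, true) (s.δ (pf al) v) = s.D (k, true) v - s.δ (pf al) (s.b (k, true) v) := by
  have h := s.b_δ (pf al) (k, true)
  rw [Site.X, if_neg (by simp)] at h
  exact eq_sub_of_add_eq (congrArg (fun T : Module.End ℂ M => T v) h)

theorem nδ_DPG10 (al : Finset K) (k : K) (v : M) :
    s.n (k, true) (s.δ (pf al) v) =
      s.a (k, true) (s.D (k, true) v) + s.δ (pf al) (s.n (k, true) v) := by
  have h : s.a (k, true) (s.δ (pf al) (s.b (k, true) v)) + s.δ (pf al) (s.n (k, true) v) = 0 :=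
    congrArg (fun T : Module.End ℂ M => T (s.b (k, true) v)) (s.a_δ (pf al) (k, true))
  show s.a (k, true) (s.b (k, true) (s.δ (pf al) v)) = _
  rw [bδ_DPG10, map_sub, eq_neg_of_add_eq_zero_left h, sub_neg_eq_add]

theorem δδ_DPG10 (al : Finset K) (f g : M) :
    s.δ (pf al) (f - s.δ (pf al) g) = s.δ (pf al) f := by
  have h : s.δ (pf al) (s.δ (pf al) g) = 0 :=
    congrArg (fun T : Module.End ℂ M => T g) (s.δ_δ (pf al))
  rw [map_sub, h, sub_zero]

theorem N_le_Y (al : Finset K) (q : ℕ) : s.N ≤ s.Y al q := fun v hv =>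
  s.mem_Y.2 ⟨s.N_le_W al _ hv, fun J _ _ => by
    have h := s.W_RR (al := al) (w := 0) J
    rw [s.W_zero] at h
    exact Submodule.mem_sup_right (h v hv)⟩

theorem Y_n (k : K) : s.n (k, true) ∈ Stb (s.Y al q) := fun v hv => by
  obtain ⟨h1, h2⟩ := s.mem_Y.1 hv
  refine s.mem_Y.2 ⟨s.W_n k v h1, fun J hJ hc => ?_⟩
  rw [← app_DPG10 (s.nRR_DPG10 k J)]
  exact s.Sm_DPG10 (mul_mem (s.N_a _) (s.N_b _))
    (fun i => ((s.xa i _).mul_right (s.xb i _)).symm) (fun l => s.n_comm _ _) _ _ (h2 J hJ hc)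

theorem l3_step (h : f ∈ s.W al (q + 1)) (hF : f ∈ s.Fl p) (hd : s.δ (pf al) f ∈ s.Y al q)
    (J : Finset K) : ∃ g ∈ s.W al (q + 1), g ∈ s.Fl p ∧
      ∀ k ∈ J, s.n (k, true) (f - s.δ (pf al) g) ∈ s.Y al q := by
  induction J using Finset.induction_on with
  | empty => exact ⟨0, zero_mem _, zero_mem _, by simp⟩
  | insert m J hm ih =>
    obtain ⟨g, g1, g2, g3⟩ := ih
    have f1 : f - s.δ (pf al) g ∈ s.W al (q + 1) := sub_mem h (s.δ_W al _ g g1)
    have f2 : f - s.δ (pf al) g ∈ s.Fl p := sub_mem hF (s.δ_Fl _ p g g2)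
    have f3 : s.δ (pf al) (f - s.δ (pf al) g) ∈ s.Y al q := by rwa [δδ_DPG10]
    have e : ∀ η, f - s.δ (pf al) (g + η) = f - s.δ (pf al) g - s.δ (pf al) η := fun η => by
      rw [map_add, sub_add_eq_sub_sub]
    generalize f - s.δ (pf al) g = u at g3 f1 f2 f3 e
    have f4 : ∀ j ∈ J, s.a (j, true) (s.D (j, true) u) ∈ s.Y al q := fun j hj => by
      rw [← eq_sub_iff_add_eq.2 (s.nδ_DPG10 al j u).symm |>.symm]
      exact sub_mem (s.Y_n j _ f3) (s.δ_Y al q _ (g3 j hj))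
    obtain ⟨ρ, ⟨⟨r1, r2⟩, r3⟩, r4, r5⟩ := ((((s.Kb_W al m _ u f1).and (s.Kb_Fl al m p u f2)).and
      (s.D_Kb al m u)).and (((eventually_all_finset J).2 fun j hj => s.Kb_Y al m q _ (g3 j hj)).and
        ((eventually_all_finset J).2 fun j hj => s.Kb_Y al m q _ (f4 j hj)))).exists
    refine ⟨g + s.Kb al m ρ u, add_mem g1 r1, add_mem g2 r2, fun k hk => ?_⟩
    rw [e]
    rcases Finset.mem_insert.1 hk with rfl | hk
    · have b0 : s.b (k, true) (s.Kb al k ρ u) = 0 :=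
        congrArg (fun T : Module.End ℂ M => T u) (s.b_Kb al k ρ)
      refine s.N_le_Y al q (s.N_a (k, true) _ ?_)
      rw [map_sub, bδ_DPG10, b0, map_zero, sub_zero, ← neg_sub]
      exact neg_mem r3
    · have hne : k ≠ m := fun e => hm (e ▸ hk)
      have a1 : s.a (k, true) (s.D (k, true) (s.Kb al m ρ u)) =
          -s.Kb al m ρ (s.a (k, true) (s.D (k, true) u)) :=
        congrArg (fun T : Module.End ℂ M => T u) (s.Kb_aD al m ρ hne)
      rw [map_sub, nδ_DPG10, a1,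
        app_DPG10 (s.Kb_Out_even al m ρ hne (s.n_In (k, true)) (s.n_Out (k, true)))]
      exact sub_mem (g3 k hk) (add_mem (neg_mem (r5 k hk)) (s.δ_Y al q _ (r4 k hk)))

theorem red_DPG10 (hn : ∀ k, s.n (k, true) f ∈ s.Y al q) (J : Finset K) :
    ∃ u, f - u ∈ s.Y al q ∧ (∀ k, s.n (k, true) u ∈ s.Y al q) ∧ ∀ k ∈ J, s.b (k, true) u = 0 := by
  induction J using Finset.induction_on with
  | empty => exact ⟨f, by simp, hn, by simp⟩
  | insert m J hm ih =>
    obtain ⟨u, u1, u2, u3⟩ := ih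
    refine ⟨u - s.n (m, true) u, ?_, fun k => ?_, fun k hk => ?_⟩
    · rw [← sub_add]
      exact add_mem u1 (u2 m)
    · rw [map_sub]
      exact sub_mem (u2 k) (s.Y_n k _ (u2 m))
    · rw [map_sub]
      rcases Finset.mem_insert.1 hk with rfl | hk
      · exact sub_eq_zero.2 (congrArg (fun T : Module.End ℂ M => T u) (s.b_n (k, true))).symm
      · have hne : ((m, true) : K × Bool) ≠ (k, true) := fun e => hm ((Prod.mk.inj e).1 ▸ hk)
        rw [← app_DPG10 (s.n_b_ne hne), u3 k hk, map_zero, sub_zero]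

theorem l3_end (h : f ∈ s.W al (q + 1)) (hd : s.δ (pf al) f ∈ s.Y al q)
    (hn : ∀ k, s.n (k, true) f ∈ s.Y al q) : f ∈ s.Y al q := by
  obtain ⟨u, u1, -, u3⟩ := s.red_DPG10 hn Finset.univ
  have u4 : u ∈ s.W al (q + 1) := by
    simpa using sub_mem h (s.mem_Y.1 u1).1
  have u5 : s.δ (pf al) u ∈ s.Y al q := by
    simpa using sub_mem hd (s.δ_Y al q _ u1)
  have u6 : u ∈ s.Y al q := by
    refine s.mem_Y.2 ⟨u4, fun I hI hc => s.hol (fun k hk => ?_) fun k hk => ?_⟩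
    · obtain ⟨k1, k2⟩ := Finset.mem_sdiff.1 hk
      have e1 : s.Ee k (s.RR I u) = s.Rs k (s.RR I u) + s.Ee k (s.n (k, true) (s.RR I u)) :=
        congrArg (fun T : Module.End ℂ M => T (s.RR I u)) (s.Ee_eq k)
      have e2 : s.n (k, true) u = 0 := by
        show s.a (k, true) (s.b (k, true) u) = 0
        rw [u3 k (Finset.mem_univ k), map_zero]
      have e3 : s.RR (insert k I) u = s.Rs k (s.RR I u) :=
        congrArg (fun T : Module.End ℂ M => T u) (s.RR_insert k2)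
      rw [e1, app_DPG10 (s.nRR_DPG10 k I), e2, map_zero, map_zero, add_zero, ← e3]
      exact s.mem_W.1 u4 _ (Finset.insert_subset k1 hI) (by rw [Finset.card_insert_of_notMem k2, hc])
    · obtain ⟨-, k2⟩ := Finset.mem_sdiff.1 hk
      have e1 := s.bδ_DPG10 al k u
      rw [u3 k (Finset.mem_univ k), map_zero, sub_zero] at e1
      rw [app_DPG10 (s.In_RR (s.D_In (k, true)) k2), ← e1,
        ← app_DPG10 (s.In_RR (s.b_In (k, true)) k2)]
      exact s.Sm_DPG10 (s.N_b _) (fun i => (s.xb i _).symm)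
        (fun l => (s.n_b_ne (by simp)).symm) _ _ ((s.mem_Y.1 u5).2 I hI hc)
  simpa using add_mem u1 u6

theorem l3 (h : f ∈ s.W al (q + 1)) (hF : f ∈ s.Fl p) (hd : s.δ (pf al) f ∈ s.Y al q) :
    ∃ g ∈ s.W al (q + 1), g ∈ s.Fl p ∧ f - s.δ (pf al) g ∈ s.Y al q := by
  obtain ⟨g, g1, g2, g3⟩ := s.l3_step h hF hd Finset.univ
  exact ⟨g, g1, g2, s.l3_end (sub_mem h (s.δ_W al _ g g1)) (by rwa [δδ_DPG10])
    fun k => g3 k (Finset.mem_univ k)⟩

end LogM

end Pool.Agent.PWD.Loc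
end
end

-- part Pool.Agent.P.MP_65ad7c_ag.DPF1
section

/-! Existence of a Fock space. -/

open Set Filter Topology TopologicalSpace Metric
open scoped ContDiff ComplexConjugate
open Pool.Agent.HT (Form Alt pull der kill)

noncomputable section
namespace Pool.Agent.PWD.Loc

section gen
variable {V : Type} [NormedAddCommGroup V] [NormedSpace ℝ V]

/-- one alternating form in each degree -/
abbrev G_DPF1 (V : Type) [NormedAddCommGroup V] [NormedSpace ℝ V] := (n : ℕ) → Alt V n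

/-- contraction -/
def io_DPF1 (v : V) : Module.End ℂ (G_DPF1 V) where
  toFun u n := (u (n + 1)).curryLeft v
  map_add' u u' := by funext n; ext w; simp
  map_smul' c u := by funext n; ext w; simp

/-- exterior multiplication, as a function -/
def ep0_DPF1 (l : V →L[ℝ] ℂ) (u : G_DPF1 V) : G_DPF1 V
  | 0 => 0
  | n + 1 => ContinuousAlternatingMap.alternatizeUncurryFin (l.smulRight (u n))

theorem ep0_succ_DPF1 (l : V →L[ℝ] ℂ) (u : G_DPF1 V) (n : ℕ) (w : Fin (n + 1) → V) :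
    ep0_DPF1 l u (n + 1) w =
      ∑ i : Fin (n + 1), (-1 : ℂ) ^ (i : ℕ) * (l (w i) * u n (i.removeNth w)) := by
  simp [ep0_DPF1, ContinuousAlternatingMap.alternatizeUncurryFin_apply]

theorem ep0_zero_DPF1 (l : V →L[ℝ] ℂ) (u : G_DPF1 V) : ep0_DPF1 l u 0 = 0 := rfl

/-- exterior multiplication -/
def ep_DPF1 : (V →L[ℝ] ℂ) →ₗ[ℂ] Module.End ℂ (G_DPF1 V) :=
  LinearMap.mk₂ ℂ ep0_DPF1
    (fun l l' u => by
      funext n; cases n <;> ext w
      · simp [ep0_zero_DPF1]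
      · simp [ep0_succ_DPF1, add_mul, mul_add, Finset.sum_add_distrib])
    (fun c l u => by
      funext n; cases n <;> ext w
      · simp [ep0_zero_DPF1]
      · simp [ep0_succ_DPF1, Finset.mul_sum, mul_left_comm, mul_assoc])
    (fun l u u' => by
      funext n; cases n <;> ext w
      · simp [ep0_zero_DPF1]
      · simp [ep0_succ_DPF1, mul_add, Finset.sum_add_distrib])
    (fun c l u => by
      funext n; cases n <;> ext w
      · simp [ep0_zero_DPF1]
      · simp [ep0_succ_DPF1, Finset.mul_sum, mul_left_comm])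

theorem io_apply_DPF1 (v : V) (u : G_DPF1 V) (n : ℕ) (w : Fin n → V) :
    io_DPF1 v u n w = u (n + 1) (Matrix.vecCons v w) := rfl

theorem ep_apply_DPF1 (l : V →L[ℝ] ℂ) (u : G_DPF1 V) : ep_DPF1 l u = ep0_DPF1 l u := rfl

theorem car_DPF1 (v : V) (l : V →L[ℝ] ℂ) :
    io_DPF1 v * ep_DPF1 l + ep_DPF1 l * io_DPF1 v = l v • 1 := by
  refine LinearMap.ext fun u => funext fun n => ContinuousAlternatingMap.ext fun w => ?_
  show io_DPF1 v (ep_DPF1 l u) n w + ep_DPF1 l (io_DPF1 v u) n w = l v * u n w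
  rw [io_apply_DPF1, ep_apply_DPF1, ep_apply_DPF1, ep0_succ_DPF1]
  cases n with
  | zero => simp [ep0_zero_DPF1, Subsingleton.elim (Fin.removeNth 0 (Matrix.vecCons v w)) w]
  | succ n =>
    rw [ep0_succ_DPF1, Fin.sum_univ_succ (n := n + 1), add_assoc, ← Finset.sum_add_distrib,
      Finset.sum_eq_zero, add_zero]
    · simp
    · intro i _
      have h1 : (i.succ).removeNth (Matrix.vecCons v w) = Matrix.vecCons v (i.removeNth w) :=
        Fin.cons_comp_succ_succAbove _ _ _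
      rw [h1, io_apply_DPF1, Fin.val_succ, pow_succ, Matrix.cons_val_succ]
      ring

theorem io_add_DPF1 (v w : V) : io_DPF1 (v + w) = io_DPF1 v + io_DPF1 w :=
  LinearMap.ext fun u => funext fun n => map_add (u (n + 1)).curryLeft v w

theorem io_smul_DPF1 (c : ℝ) (v : V) : io_DPF1 (c • v) = (c : ℂ) • io_DPF1 v := by
  refine LinearMap.ext fun u => funext fun n => ContinuousAlternatingMap.ext fun w => ?_
  show (u (n + 1)).curryLeft (c • v) w = (c : ℂ) * (u (n + 1)).curryLeft v w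
  rw [map_smul, ContinuousAlternatingMap.smul_apply, Complex.real_smul]

theorem io_sq_DPF1 (v : V) : io_DPF1 v * io_DPF1 v = 0 :=
  LinearMap.ext fun u => funext fun n => (u (n + 2)).curryLeft_same v

theorem anti_io_DPF1 (v w : V) : io_DPF1 v * io_DPF1 w + io_DPF1 w * io_DPF1 v = 0 := by
  have h := io_sq_DPF1 (v + w)
  rwa [io_add_DPF1, add_mul, mul_add, mul_add, io_sq_DPF1, io_sq_DPF1, zero_add, add_zero] at h

theorem comm_DPF1 {R : Type} [Ring R] [Algebra ℂ R] {i a b : R} {s t : ℂ}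
    (h1 : i * a + a * i = s • 1) (h2 : i * b + b * i = t • 1) :
    i * (a * b + b * a) = (a * b + b * a) * i := by
  have e1 : i * a = s • 1 - a * i := eq_sub_of_add_eq h1
  have e2 : i * b = t • 1 - b * i := eq_sub_of_add_eq h2
  rw [mul_add, ← mul_assoc, ← mul_assoc, e1, e2, sub_mul, sub_mul, mul_assoc a, mul_assoc b, e1, e2]
  simp only [smul_mul_assoc, one_mul, mul_sub, mul_smul_comm, mul_one, add_mul, mul_assoc]
  abel

theorem anti_ep_DPF1 (l l' : V →L[ℝ] ℂ) :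
    ep_DPF1 l * ep_DPF1 l' + ep_DPF1 l' * ep_DPF1 l = 0 := by
  refine LinearMap.ext fun u => funext fun n => ?_
  induction n generalizing u with
  | zero => exact add_zero _
  | succ n ih =>
    ext w
    have h := congrArg (fun T : Module.End ℂ (G_DPF1 V) => T u n (Fin.tail w))
      (comm_DPF1 (car_DPF1 (w 0) l) (car_DPF1 (w 0) l'))
    simp only [Module.End.mul_apply] at h
    rw [ih, io_apply_DPF1] at h
    rw [← Fin.cons_self_tail w]
    exact h

theorem fin_DPF1 [FiniteDimensional ℝ V] : FiniteDimensional ℂ (G_DPF1 V) := by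
  let b := Module.finBasis ℝ V
  let L : G_DPF1 V →ₗ[ℂ] ((Σ n : Fin (Module.finrank ℝ V + 1),
      (Fin n → Fin (Module.finrank ℝ V))) → ℂ) :=
    { toFun := fun u s => u s.1 fun i => b (s.2 i)
      map_add' := fun _ _ => rfl
      map_smul' := fun _ _ => rfl }
  refine Module.Finite.of_injective L ((injective_iff_map_eq_zero L).2 fun u hu => ?_)
  funext n
  refine ContinuousAlternatingMap.toAlternatingMap_injective (b.ext_alternating fun s hs => ?_)
  have hn : n < Module.finrank ℝ V + 1 := by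
    simpa [Nat.lt_succ_iff] using Fintype.card_le_of_injective s hs
  exact congrFun hu ⟨⟨n, hn⟩, s⟩

theorem finA_DPF1 [FiniteDimensional ℝ V] (n : ℕ) : FiniteDimensional ℂ (Alt V n) := by
  have := fin_DPF1 (V := V)
  exact Module.Finite.of_surjective
    (LinearMap.proj (R := ℂ) (φ := fun n : ℕ => Alt V n) n) (Function.surjective_eval n)

end gen

theorem of_equiv_DPF1 {d : ℕ} {F : Type} [NormedAddCommGroup F] [NormedSpace ℂ F]
    [FiniteDimensional ℂ F] (e : G_DPF1 (E d) ≃ₗ[ℂ] F) : Nonempty (FK d F) := by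
  let Φ : Module.End ℂ (G_DPF1 (E d)) ≃ₐ[ℂ] (F →L[ℂ] F) :=
    (e.conjAlgEquiv ℂ).trans (Module.End.toContinuousLinearMap F)
  have hΦ : ∀ T u, e.symm (Φ T u) = T (e.symm u) := fun T u => e.symm_apply_apply _
  have := fun n => finA_DPF1 (V := E d) n
  exact ⟨{
    io := LinearMap.toContinuousLinearMap
      { toFun := fun v => Φ (io_DPF1 v)
        map_add' := fun v w => by rw [io_add_DPF1, map_add]
        map_smul' := fun c v => by rw [io_smul_DPF1, map_smul, Complex.coe_smul]; rfl }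
    ep := Φ.toLinearMap ∘ₗ ep_DPF1
    psi := fun n => LinearMap.toContinuousLinearMap
      (LinearMap.proj (R := ℂ) (φ := fun n : ℕ => Alt (E d) n) n ∘ₗ e.symm.toLinearMap)
    phi := fun n => LinearMap.toContinuousLinearMap
      (e.toLinearMap ∘ₗ LinearMap.single ℂ (fun n : ℕ => Alt (E d) n) n)
    car := fun v l => by
      show Φ _ * Φ _ + Φ _ * Φ _ = _
      rw [← map_mul Φ, ← map_mul Φ, ← map_add Φ, car_DPF1, map_smul, map_one]
    anti_io := fun v w => by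
      show Φ _ * Φ _ + Φ _ * Φ _ = _
      rw [← map_mul Φ, ← map_mul Φ, ← map_add Φ, anti_io_DPF1, map_zero]
    anti_ep := fun l l' => by
      show Φ _ * Φ _ + Φ _ * Φ _ = _
      rw [← map_mul Φ, ← map_mul Φ, ← map_add Φ, anti_ep_DPF1, map_zero]
    psi_io := fun n v u => congrFun (hΦ (io_DPF1 v) u) n
    psi_ep0 := fun l u => congrFun (hΦ (ep_DPF1 l) u) 0
    psi_ep := fun n l u => congrFun (hΦ (ep_DPF1 l) u) (n + 1)
    psi_phi := fun n a => (congrFun (e.symm_apply_apply (Pi.single n a)) n).trans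
      (Pi.single_eq_same n a)
    psi_phi_ne := fun n m a h => (congrFun (e.symm_apply_apply (Pi.single n a)) m).trans
      (Pi.single_eq_of_ne h a)
    ext := fun u hu => (map_eq_zero_iff e.symm e.symm.injective).1 (funext hu) }⟩

theorem exists_FK (d : ℕ) : ∃ (F : Type) (_ : NormedAddCommGroup F) (_ : NormedSpace ℂ F)
    (_ : FiniteDimensional ℂ F), Nonempty (FK d F) := by
  have := fin_DPF1 (V := E d)
  exact ⟨Fin (Module.finrank ℂ (G_DPF1 (E d))) → ℂ, inferInstance, inferInstance, inferInstance,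
    of_equiv_DPF1 (Module.finBasis ℂ _).equivFun⟩

end Pool.Agent.PWD.Loc
end
end

-- part Pool.Agent.P.MP_65ad7c_ag.DPM2
section

/-! Local exactness for logarithmic forms. -/

open Set Filter Topology TopologicalSpace Metric
open scoped ContDiff ComplexConjugate
open Pool.Agent.HT (Form Alt pull der kill)

noncomputable section
namespace Pool.Agent.PWD.Loc

variable {d : ℕ} {ι : Type} [LinearOrder ι] {κ : ι → Option (Fin d)} {c : E d} {α : Finset ι}

theorem Std.l4 (h : Std κ c) : ∀ w f, (Ctx.std κ).SmN univ α c f → (Ctx.std κ).WN univ α w c f →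
    (Ctx.std κ).NulN univ α c (dG f) →
    ∃ (γ : Finset ι → ℂ) (g : GF (E d)), (Ctx.std κ).SmN univ α c g ∧ (Ctx.std κ).WN univ α w c g ∧
    (∀ I, w ≤ I.card → γ I = 0) ∧
    (Ctx.std κ).NulN univ α c (f - ∑ I ∈ α.powerset, γ I • lgI (zc κ) I oneG - dG g) := by
  classical
  intro w f _ hw hd
  obtain ⟨F, _, _, _, ⟨Φ⟩⟩ := exists_FK d
  obtain ⟨g, hg, hf⟩ := h.wn_hat Φ hw
  have hδ := (hf.dif h.alK_c).nul.2 hd
  obtain ⟨u, hu, huW, g1, hg1, hN⟩ := (Φ.logM c).lp hg hδ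
  obtain ⟨γ, rfl⟩ := (Φ.logM c).toVac.Cst_coeff (h.words α) h.surj hu
  have hγ := (Φ.logM c).W_coeff (h.words α) huW
  have h1 := FK.Hat.self (Φ := Φ) (alK κ α) c g1
  refine ⟨fun I => if I ∈ sg κ α then γ I else 0, _, FK.Hat.smN α c g1, h.hat_wn hg1 h1, ?_, ?_⟩
  · intro I hI
    by_cases hs : I ∈ sg κ α
    · exact (if_pos hs).trans (hγ I hs (by rw [wdK_length (mem_sg.1 hs).2]; exact hI))
    · exact if_neg hs
  · rw [sum_sg (fun I => if I ∈ sg κ α then γ I else 0) fun _ => oneG,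
      Finset.sum_congr rfl fun I hI => by rw [if_pos hI]]
    refine ((hf.sub (FK.Hat.sum (sg κ α) fun I hI => FK.Hat.smul (γ I) ?_)).sub
      (h1.dif h.alK_c)).nul.1 hN
    exact (FK.Hat.vac (alK κ α) c).aL ((h.words α).sub I hI)

theorem Std.l3 (h : Std κ c) : ∀ w p f r, (Ctx.std κ).SmN univ α c f → (Ctx.std κ).WN univ α w c f →
    (Ctx.std κ).FN univ α p c f → (Ctx.std κ).RN univ α w c (dG f) r →
    ∃ g r', (Ctx.std κ).SmN univ α c g ∧ (Ctx.std κ).WN univ α w c g ∧ (Ctx.std κ).FN univ α p c g ∧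
      (Ctx.std κ).RN univ α w c (f - dG g) r' := by
  intro w p f r _ hw hF hR
  obtain ⟨F, _, _, _, ⟨Φ⟩⟩ := exists_FK d
  obtain ⟨g, hg, hf⟩ := h.wn_hat Φ hw
  cases w with
  | zero =>
    have h0 := FK.Hat.self (Φ := Φ) (alK κ α) c 0
    refine ⟨_, r, FK.Hat.smN α c 0, h.hat_wn (Submodule.zero_mem _) h0,
      h0.fn.1 (Submodule.zero_mem _), ?_⟩
    refine (hf.sub (h0.dif h.alK_c)).nul.1 ?_
    rw [map_zero, sub_zero]
    exact hf.nul.2 hw.nul
  | succ q =>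
    obtain ⟨e, he, hr⟩ := hR
    have hY := h.rh_Y (RH_ind he hr) (hf.dif h.alK_c)
    obtain ⟨g1, hg1, hF1, hY1⟩ := (Φ.logM c).l3 hg (hf.fn.2 hF) hY
    have h1 := FK.Hat.self (Φ := Φ) (alK κ α) c g1
    obtain ⟨r', hr'⟩ := h.Y_rh hY1 (hf.sub (h1.dif h.alK_c))
    exact ⟨_, r', FK.Hat.smN α c g1, h.hat_wn hg1 h1, h1.fn.1 hF1, zc κ, eqs_std, hr'⟩

theorem Std.txt (h : Std κ c) : ∀ w f, (Ctx.std κ).TN univ α w c f → (Ctx.std κ).WN univ α w c f := by
  have _ := h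
  rintro w f ⟨O, g, hO, hc, h1, h2⟩
  have key : (Ctx.std κ).WN univ α w c g := by
    clear h2
    induction h1 with
    | zero => exact .of_nul .zero
    | smooth hs => exact .of_smG hO hc hs
    | add _ _ a b => exact a.add (std_ok' _) b
    | log hh _ a =>
      obtain ⟨i, hi, rfl⟩ := hh
      exact Ctx.WN.lg (std_ok' _) (fun _ _ => rfl) hi a
  exact key.congr (std_ok' _) ⟨O, hO, hc, h2⟩

theorem Std.top (h : Std κ c) : ∀ q f, (Ctx.std κ).WN univ α (q + 1) c f →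
    ∃ r, (Ctx.std κ).RH univ α (zc κ) q c (prj q f) r := by
  intro q f hf
  obtain ⟨F, _, _, _, ⟨Φ⟩⟩ := exists_FK d
  obtain ⟨g, hY, hg⟩ := h.tn_hat Φ (hf.txt q)
  exact h.Y_rh hY hg

end Pool.Agent.PWD.Loc
end
end

-- part Pool.Agent.P.MP_65ad7c_ag.DPM3
section

/-! Residues. -/

open Set Filter Topology TopologicalSpace Metric
open scoped ContDiff ComplexConjugate
open Pool.Agent.HT (Form Alt pull der kill)

noncomputable section
namespace Pool.Agent.PWD.Loc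

theorem ZZ_Fl_DPM3 {K M : Type} [DecidableEq K] [AddCommGroup M] [Module ℂ M] (s : LogM K M)
    (J : Finset K) (p : ℕ) : s.ZZ J ∈ Stb (s.Fl p) :=
  cp_mem fun _ _ => (Stb (s.Fl p)).add_mem (one_mem _)
    ((Stb (s.Fl p)).mul_mem ((Stb (s.Fl p)).sub_mem (s.Fl_x p _) (one_mem _)) (s.n_Fl _ p))

theorem aL_Fl_DPM3 {K M : Type} [DecidableEq K] [AddCommGroup M] [Module ℂ M] (s : LogM K M)
    (L : List K) {p : ℕ} {u : M} (hu : u ∈ s.Fl p) : s.aL L u ∈ s.Fl (p + L.length) := by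
  induction L with
  | nil => simpa [CAR.aL] using hu
  | cons k L ih =>
    have e : s.aL (k :: L) u = s.a (k, false) (s.aL L u) := by simp [CAR.aL]
    rw [e, List.length_cons, ← add_assoc]
    exact s.Fl_a _ k _ ih

variable {d : ℕ} {ι : Type} [LinearOrder ι] {κ : ι → Option (Fin d)} {c : E d} {α : Finset ι}

omit [LinearOrder ι] in
theorem nul_bad_DPM3 {I : Finset ι} (hI : ¬Gd κ I) (f : GF (E d)) :
    (Ctx.std κ).NulN (St univ (Ctx.std κ).D I) ∅ c f :=
  ⟨univ, isOpen_univ, trivial, by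
    rw [St_bad hI, empty_inter, empty_sdiff]
    exact VanG.empty⟩

theorem len_DPM3 {q : ℕ} : ∀ t ∈ sgq κ α q, (wdK κ t).length = q := fun _ ht =>
  (wdK_length (mem_sgq.1 ht).2.2).trans (mem_sgq.1 ht).2.1

theorem Std.resU (h : Std κ c) : ∀ q f r, (Ctx.std κ).RH univ α (zc κ) q c f r →
    (Ctx.std κ).WN univ α q c f →
    ∀ I ∈ α.powersetCard q, (Ctx.std κ).NulN (St univ (Ctx.std κ).D I) ∅ c (r I) := by
  intro q f r hf hw I hI
  by_cases hG : Gd κ I
  swap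
  · exact nul_bad_DPM3 hG _
  obtain ⟨F, _, _, _, ⟨Φ⟩⟩ := exists_FK d
  obtain ⟨g, b, hg, hW, hP⟩ := h.rh_hat Φ hf
  obtain ⟨g', hg', hg''⟩ := h.wn_hat Φ hw
  have hI' : I ∈ sgq κ α q :=
    mem_sgq.2 ⟨(Finset.mem_powersetCard.1 hI).1, (Finset.mem_powersetCard.1 hI).2, hG⟩
  have h1 : g ∈ (Φ.logM c).W (alK κ α) q := by
    have := Submodule.add_mem _ ((Φ.logM c).N_le_W (alK κ α) q (hg.unique hg'')) hg'
    rwa [sub_add_cancel] at this
  have h2 := Submodule.sub_mem _ h1 hW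
  rw [sub_sub_cancel] at h2
  have h3 := (Φ.logM c).resU (h.wordsq α q) len_DPM3 h2 I hI'
  rw [wdK_toFinset] at h3
  rw [h.nulSt_iff hG (Finset.disjoint_empty_left I), alK_empty]
  exact (hP I hI').mem_N.1 h3

theorem Std.resF (h : Std κ c) : ∀ q p f r, (Ctx.std κ).RH univ α (zc κ) q c f r →
    (Ctx.std κ).FN univ α p c f →
    ∀ I ∈ α.powersetCard q, (Ctx.std κ).FN (St univ (Ctx.std κ).D I) ∅ (p - q) c (r I) := by
  intro q p f r hf hw I hI
  by_cases hG : Gd κ I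
  swap
  · exact Ctx.fn_iff.2 (nul_bad_DPM3 hG _)
  obtain ⟨F, _, _, _, ⟨Φ⟩⟩ := exists_FK d
  obtain ⟨g, b, hg, hW, hP⟩ := h.rh_hat Φ hf
  have hI' : I ∈ sgq κ α q :=
    mem_sgq.2 ⟨(Finset.mem_powersetCard.1 hI).1, (Finset.mem_powersetCard.1 hI).2, hG⟩
  have h3 := (Φ.logM c).resF (h.wordsq α q) len_DPM3 hW (hg.fn.2 hw) I hI'
  rw [wdK_toFinset] at h3
  rw [h.fnSt_iff hG (Finset.disjoint_empty_left I), alK_empty]
  exact (hP I hI').mem_Fl.1 h3

theorem Std.resV (h : Std κ c) : ∀ I ⊆ α, ∀ O β, IsOpen O → c ∈ O → SmG O β →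
    VanG (St univ (Ctx.std κ).D I ∩ O) β → (Ctx.std κ).WN univ α I.card c (lgI (zc κ) I β) := by
  intro I hI O β hO hc hβ hv
  by_cases hG : Gd κ I
  swap
  · rw [lgI_bad hG]
    exact Ctx.WN.of_nul Ctx.NulN.zero
  obtain ⟨F, _, _, _, ⟨Φ⟩⟩ := exists_FK d
  obtain ⟨b, hb⟩ := FK.Hat.of_smG (Φ := Φ) hO hc hβ
  have hL : (wdK κ I).toFinset ⊆ alK κ α := by
    rw [wdK_toFinset]
    exact alK_mono hI
  have h1 := FK.Hat.wr hL h.alK_c hb
  have h2 : (Ctx.std κ).NulN (St univ (Ctx.std κ).D I) ∅ c β := Ctx.NulN.of_open_DL2 hO hc hv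
  rw [h.nulSt_iff hG (Finset.disjoint_empty_left I), alK_empty] at h2
  have h3 := (FK.Hat.PP (J := alK κ I) h.alK_c (Finset.disjoint_empty_left _) hb).mem_N.2 h2
  rw [← wdK_toFinset] at h3
  have h4 := (Φ.logM c).resV (al := alK κ α) (h.nodup I) h3
  rw [wdK_length hG] at h4
  rw [lgI_gd hG]
  exact h.hat_wn h4 h1

theorem Std.ext (h : Std κ c) : ∀ I ⊆ α, ∀ p r, (Ctx.std κ).SmN (St univ (Ctx.std κ).D I) ∅ c r →
    (Ctx.std κ).FN (St univ (Ctx.std κ).D I) ∅ p c r →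
    ∃ O β, IsOpen O ∧ c ∈ O ∧ SmG O β ∧ VanG (St univ (Ctx.std κ).D I ∩ O) (r - β) ∧
      (Ctx.std κ).FN univ α (p + I.card) c (lgI (zc κ) I β) := by
  intro I hI p r hs hF
  by_cases hG : Gd κ I
  swap
  · refine ⟨univ, 0, isOpen_univ, trivial, fun n => contDiffOn_const, ?_, ?_⟩
    · rw [St_bad hG, empty_inter]
      exact VanG.empty
    · rw [lgI_bad hG]
      exact Ctx.FN.zero
  obtain ⟨F, _, _, _, ⟨Φ⟩⟩ := exists_FK d
  obtain ⟨O, hO, hc, hβ⟩ := smG_of_smN (h.smSt hG (Finset.disjoint_empty_left I) hs)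
  refine ⟨O, _, hO, hc, hβ, ?_, ?_⟩
  · refine VanG.pull_sub isOpen_univ (subset_univ _) (kR (alK κ I)).contDiff.contDiffOn ?_ r
    intro y hy
    rw [St_gd hG] at hy
    funext k
    rw [kR_apply]
    split_ifs with hk
    · exact (hy.1 k hk).symm
    · rfl
  · obtain ⟨b, hb⟩ := FK.Hat.of_smG (Φ := Φ) hO hc hβ
    have hL : (wdK κ I).toFinset ⊆ alK κ α := by
      rw [wdK_toFinset]
      exact alK_mono hI
    have h1 := FK.Hat.wr hL h.alK_c hb
    rw [h.fnSt_iff hG (Finset.disjoint_empty_left I), alK_empty] at hF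
    have h2 := hb.mem_Fl.2 hF
    have h3 := aL_Fl_DPM3 (Φ.logM c) (wdK κ I)
      (ZZ_Fl_DPM3 (Φ.logM c) (alK κ α \ (wdK κ I).toFinset) p b h2)
    rw [wdK_length hG] at h3
    rw [lgI_gd hG]
    exact h1.fn.1 h3

end Pool.Agent.PWD.Loc
end
end
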