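import Pool.Agent.K.MP_65ad7c_ag.C80
import Pool.Agent.K.MP_65ad7c_ag.C81
import Pool.Agent.K.MP_65ad7c_ag.C85
import Pool.Agent.K.MP_65ad7c_ag.C83

/-! Cohomology of the punctured polydisc. -/

open Set Filter Topology TopologicalSpace Metric
open scoped ContDiff ComplexConjugate
open Pool.Agent.HT (Form Alt pull der kill)

noncomputable section
namespace Pool.Agent.PWD.Loc

variable {d : ℕ} {ι : Type} [LinearOrder ι] {κ : ι → Option (Fin d)} {c : E d} {α : Finset ι}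

section aux
variable {F : Type} [NormedAddCommGroup F] [NormedSpace ℂ F] (Φ : FK d F)

theorem nb_DPM1 {al : Finset (Fin d)} {C : Submodule ℂ F} {u : Fn (Rg al) F} :
    (∀ᶠ z in 𝓝[Rg al] c, u.1 z ∈ C) ↔ ∃ r > 0, u ∈ Nb (Rg al) C (ball c r) := by
  rw [ev_ball]
  refine exists_congr fun r => and_congr Iff.rfl ⟨fun h z hz => ?_, fun h z hz => h z hz.1⟩
  by_cases h' : z ∈ Rg al
  · exact h z ⟨hz, h'⟩
  · rw [Fn.zero u h']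
    exact C.zero_mem

omit [LinearOrder ι] in
theorem hat_DPM1 {po : Finset (Fin d × Bool)} (hp : ∀ z ∈ Rg (alK κ α), ∀ i ∈ po, z i.1 ≠ 0)
    (hc : ∀ i ∈ po, c i.1 = 0) {f : GF (E d)} (hf : (Ctx.std κ).SmN univ α c f) :
    ∃ g : Fn (Rg (alK κ α)) F, ∀ᶠ z in 𝓝[Rg (alK κ α)] c, (∀ n, f n z = Φ.ren po g.1 n z) ∧
      ∀ n, dG f n z = Φ.ren po ((Φ.site _ c).δ po g).1 n z := by
  obtain ⟨r, hr, hf⟩ := sm_iff.1 hf
  obtain ⟨g, hg⟩ := Φ.ren_exists hp hr hf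
  refine ⟨g, ?_⟩
  filter_upwards [ev_nhds (ev_ball.2 ⟨r / 2, half_pos hr, hg⟩)] with z ⟨hz, h⟩
  refine ⟨h.self_of_nhds, fun n => ?_⟩
  rw [← Φ.ren_δ hz (hp z hz) hc]
  cases n with
  | zero => rfl
  | succ n => exact Filter.EventuallyEq.extDeriv_eq (h.mono fun y hy => hy n)

theorem pb_DPM1 {al : Finset (Fin d)} : ∀ z ∈ Rg al, ∀ i ∈ pb al, z i.1 ≠ 0 :=
  fun _ hz _ hi => hz _ (mem_pb.1 hi)

theorem sum_DPM1 (h : Std κ c) (γ : Finset ι → ℂ) {z : E d} (hz : z ∈ Rg (alK κ α)) (n : ℕ) :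
    (∑ I ∈ α.powerset, γ I • lgI (zc κ) I oneG : GF (E d)) n z = Φ.ren (pb (alK κ α))
      (∑ t ∈ sg κ α, γ t • (Φ.site (Rg (alK κ α)) c).aL (wdK κ t) (Φ.vacF _)).1 n z := by
  rw [sum_sg γ fun _ => oneG, Submodule.coe_sum, map_sum, Finset.sum_apply, Finset.sum_apply,
    Finset.sum_apply, Finset.sum_apply]
  refine Finset.sum_congr rfl fun t ht => ?_
  rw [Submodule.coe_smul, map_smul, Pi.smul_apply, Pi.smul_apply, Pi.smul_apply, Pi.smul_apply,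
    ← Φ.ren_aL fun k hk => mem_pb.2 ((h.words α).sub t ht (List.mem_toFinset.2 hk)),
    FK.lgL_congr fun m => Φ.ren_vac hz m]

theorem δ_DPM1 [FiniteDimensional ℂ F] (Ω : Opens (E d)) (p : ℕ) (r : ℝ) :
    (Φ.site Ω c).δ ∅ ∈ Stb (Nb Ω (Φ.HF p) (ball c r)) := by
  have h1 : ∀ i, cst Ω (Φ.C.a i) ∈ Stb (Nb Ω (Φ.HF p) (ball c r)) := by
    rintro ⟨k, _ | _⟩ w hw
    · exact cst_Nb (fun u hu => Φ.HF_anti p (Φ.HF_a p k u hu)) hw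
    · exact cst_Nb (Φ.HF_a' p k) hw
  have h2 : ∀ i, xc Ω F c i ∈ Stb (Nb Ω (Φ.HF p) (ball c r)) := fun _ => mul_Nb _
  have h3 : ∀ i, dw Ω F i ∈ Stb (Nb Ω (Φ.HF p) (ball c r)) :=
    dw_Nb (Submodule.closed_of_finiteDimensional _) isOpen_ball
  exact (Φ.site Ω c).δ_mem h1 h2 h3 ∅

end aux

theorem Std.pp1 (h : Std κ c) : ∀ f, (Ctx.std κ).SmN univ α c f → (Ctx.std κ).NulN univ α c (dG f) →
    ∃ (γ : Finset ι → ℂ) (g : GF (E d)), (Ctx.std κ).SmN univ α c g ∧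
      (Ctx.std κ).NulN univ α c (f - ∑ I ∈ α.powerset, γ I • lgI (zc κ) I oneG - dG g) := by
  intro f hf hd
  obtain ⟨F, _, _, _, ⟨Φ⟩⟩ := exists_FK d
  have hc : ∀ i ∈ pb (alK κ α), c i.1 = 0 := fun i hi => h.alK_c _ (mem_pb.1 hi)
  obtain ⟨v, hv⟩ := hat_DPM1 Φ pb_DPM1 hc hf
  obtain ⟨r, hr, hN⟩ := (nb_DPM1 (c := c) (C := ⊥)
      (u := (Φ.site _ c).δ (pb (alK κ α)) v)).1 (by
    filter_upwards [hv, nul_iff.1 hd, self_mem_nhdsWithin] with z h1 h2 hz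
    exact (Φ.ren_eq_zero (pb_DPM1 z hz)).1 fun n => (h1.2 n).symm.trans (h2 n))
  obtain ⟨u, hu, g, hg⟩ := (Φ.ppM (alK κ α) c h.alK_c r hr).pp1 hN
  obtain ⟨γ, rfl⟩ := Vac.Cst_coeff _ (h.words α) h.surj hu
  refine ⟨γ, Φ.ren (pb (alK κ α)) g.1, sm_iff.2 ⟨1, one_pos, fun n z hz =>
    (Φ.ren_cda (pb_DPM1 z hz.2) (Fn.cda g hz.2) n).contDiffWithinAt⟩, nul_iff.2 ?_⟩
  filter_upwards [hv, nb_DPM1.2 ⟨r, hr, hg⟩, self_mem_nhdsWithin] with z h1 h2 hz n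
  have h3 := (Φ.ren_eq_zero (pb_DPM1 z hz)).2 h2 n
  rw [Submodule.coe_sub, Submodule.coe_sub, map_sub, map_sub] at h3
  rw [Pi.sub_apply, Pi.sub_apply, Pi.sub_apply, Pi.sub_apply, h1.1, sum_DPM1 Φ h γ hz,
    Φ.ren_δ hz (pb_DPM1 z hz) hc]
  exact h3

theorem Std.pp2 (h : Std κ c) : ∀ (γ : Finset ι → ℂ) (g : GF (E d)), (Ctx.std κ).SmN univ α c g →
    (Ctx.std κ).NulN univ α c (∑ I ∈ α.powerset, γ I • lgI (zc κ) I oneG - dG g) →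
    ∀ I ⊆ α, c ∈ St univ (Ctx.std κ).D I → γ I = 0 := by
  intro γ g hg hd I hI hc'
  obtain ⟨F, _, _, _, ⟨Φ⟩⟩ := exists_FK d
  have hc : ∀ i ∈ pb (alK κ α), c i.1 = 0 := fun i hi => h.alK_c _ (mem_pb.1 hi)
  obtain ⟨v, hv⟩ := hat_DPM1 Φ pb_DPM1 hc hg
  obtain ⟨r, hr, hN⟩ := (nb_DPM1 (c := c) (C := ⊥)
      (u := ∑ t ∈ sg κ α, γ t • (Φ.site (Rg (alK κ α)) c).aL (wdK κ t) (Φ.vacF _) -
        (Φ.site _ c).δ (pb (alK κ α)) v)).1 (by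
    filter_upwards [hv, nul_iff.1 hd, self_mem_nhdsWithin] with z h1 h2 hz
    refine (Φ.ren_eq_zero (pb_DPM1 z hz)).1 fun n => ?_
    have h3 := h2 n
    rw [Pi.sub_apply, Pi.sub_apply, h1.2, sum_DPM1 Φ h γ hz] at h3
    rw [Submodule.coe_sub, map_sub]
    exact h3)
  exact (Φ.ppM (alK κ α) c h.alK_c r hr).pp2 (h.words α) hN I (mem_sg.2 ⟨hI, h.mem_St.1 hc'⟩)

theorem Std.tyd : ∀ p f, (Ctx.std κ).SmN univ α c f → (Ctx.std κ).FN univ α p c f →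
    (Ctx.std κ).FN univ α p c (dG f) := by
  intro p f hf hF
  obtain ⟨F, _, _, _, ⟨Φ⟩⟩ := exists_FK d
  obtain ⟨v, hv⟩ := hat_DPM1 Φ (po := ∅) (by simp) (by simp) hf
  obtain ⟨r, hr, hN⟩ := (nb_DPM1 (c := c) (C := Φ.HF p) (u := v)).1 (by
    filter_upwards [hv, fn_iff.1 hF] with z h1 h2
    exact (Φ.ren_ty (po := ∅) (by simp) p).1 fun n => h1.1 n ▸ h2 n)
  refine fn_iff.2 ?_
  filter_upwards [hv, nb_DPM1.2 ⟨r, hr, δ_DPM1 Φ _ p r v hN⟩] with z h1 h2 n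
  rw [h1.2]
  exact (Φ.ren_ty (po := ∅) (by simp) p).2 h2 n

end Pool.Agent.PWD.Loc
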