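import Pool.Agent.K.MP_65ad7c_ag.C86

/-! Restriction to a smaller stratum. -/

open Set Filter Topology TopologicalSpace Metric
open scoped ContDiff ComplexConjugate
open Pool.Agent.HT (Form Alt pull der kill)

noncomputable section
namespace Pool.Agent.PWD.Loc

variable {d : ℕ} {ι : Type} [LinearOrder ι] {κ : ι → Option (Fin d)} {c : E d} {α : Finset ι}

omit [LinearOrder ι] in
theorem pull_nul_DPM5 (h : Std κ c) {t : Finset ι} (hd : Disjoint α t) {f : GF (E d)}
    (hf : (Ctx.std κ).NulN univ α c f) :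
    (Ctx.std κ).NulN univ α c (pullG (kR (alK κ t)) f) := by
  rw [nul_iff] at hf ⊢
  filter_upwards [(kR_tendsto (h.alK_c (α := t)) (h.alK_disj hd)).eventually hf] with z hz n
  rw [pullG_kR, hz n]
  ext v
  simp

omit [LinearOrder ι] in
theorem st_iff_DPM5 (h : Std κ c) {t : Finset ι} (hG : Gd κ t) (hd : Disjoint α t)
    {f : GF (E d)} : (Ctx.std κ).NulN (St univ (Ctx.std κ).D t) α c f ↔
      (Ctx.std κ).NulN univ α c (pullG (kR (alK κ t)) f) := by
  rw [h.nulSt_iff hG hd, nul_iff]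

omit [LinearOrder ι] in
theorem d_pull_DPM5 (h : Std κ c) {t : Finset ι} (hG : Gd κ t) (hd : Disjoint α t)
    {f : GF (E d)} (hf : (Ctx.std κ).SmN (St univ (Ctx.std κ).D t) α c f) :
    (Ctx.std κ).NulN univ α c
      (dG (pullG (kR (alK κ t)) f) - pullG (kR (alK κ t)) (dG f)) := by
  obtain ⟨O, hO, hc, hf⟩ := hf
  have hcc : kR (alK κ t) c = c := by
    funext k
    rw [kR_apply]
    split_ifs with hk
    · exact (h.alK_c k hk).symm
    · rfl
  refine ⟨kR (alK κ t) ⁻¹' O, hO.preimage (kR _).continuous, by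
    rw [mem_preimage, hcc]; exact hc, ?_⟩
  refine VanG.d_pull isOpen_univ (subset_univ _) (kR _).contDiff.contDiffOn ?_ hf
  rintro z ⟨⟨-, hz⟩, hz'⟩
  refine ⟨⟨?_, hz⟩, ?_⟩
  · rw [St_gd hG]
    intro k hk
    rw [kR_apply, if_pos hk]
  · rw [off_eq] at hz' ⊢
    intro hh
    apply hz'
    intro hr
    apply hh
    intro k hk
    have hk' : k ∉ alK κ t := Finset.disjoint_left.1 (h.alK_disj hd) hk
    rw [kR_apply, if_neg hk']
    exact hr k hk

omit [LinearOrder ι] in
theorem pull_lg_DPM5 (h : Std κ c) {t : Finset ι} (hd : Disjoint α t) {i : ι} (hi : i ∈ α)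
    (f : GF (E d)) :
    pullG (kR (alK κ t)) (lg (zc κ i) f) = lg (zc κ i) (pullG (kR (alK κ t)) f) := by
  have e : zc κ i ∘ kR (alK κ t) = zc κ i := by
    cases hk : κ i with
    | none => rw [zc_none hk]; rfl
    | some k =>
      rw [zc_some hk]
      funext z
      have hk' : k ∉ alK κ t :=
        Finset.disjoint_left.1 (h.alK_disj hd) (mem_alK.2 ⟨i, hi, hk⟩)
      simp only [Function.comp_apply]
      rw [kR_apply, if_neg hk']
  have hdz : ∀ y, DifferentiableAt ℝ (zc κ i) y := by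
    intro y
    cases hk : κ i with
    | none => rw [zc_none hk]; exact differentiableAt_const _
    | some k => rw [zc_some hk]; exact differentiableAt_apply k y
  funext n y
  rw [pullG_lg (kR _).differentiableAt (hdz _), e]

theorem pull_lgI_DPM5 (h : Std κ c) {t : Finset ι} (hd : Disjoint α t) {I : Finset ι}
    (hI : I ⊆ α) : pullG (kR (alK κ t)) (lgI (zc κ) I oneG) = lgI (zc κ) I oneG := by
  have key : ∀ L : List ι, (∀ i ∈ L, i ∈ α) →
      pullG (kR (alK κ t)) (L.foldr (fun i g => lg (zc κ i) g) oneG) =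
        L.foldr (fun i g => lg (zc κ i) g) oneG := by
    intro L
    induction L with
    | nil => intro _; exact pullG_oneG _
    | cons a L ih =>
      intro hL
      rw [List.foldr_cons, pull_lg_DPM5 h hd (hL a (List.mem_cons_self ..)),
        ih fun i hi => hL i (List.mem_cons_of_mem _ hi)]
  exact key _ fun i hi => hI ((Finset.mem_sort _).1 hi)

theorem Std.ht (h : Std κ c) {t : Finset ι} (hd : Disjoint α t) (ht : c ∈ St univ (Ctx.std κ).D t) :
    (Ctx.std κ).HT univ α (St univ (Ctx.std κ).D t) c := by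
  intro f c' hf hc' hdf hfc
  have hG : Gd κ t := h.mem_St.1 ht
  have res : ∀ {u : GF (E d)}, (Ctx.std κ).SmN univ α c u →
      (Ctx.std κ).SmN (St univ (Ctx.std κ).D t) α c u :=
    fun hu => hu.anti (subset_univ _) subset_rfl
  have hc1 : (Ctx.std κ).SmN univ α c (pullG (kR (alK κ t)) c') := h.smSt hG hd hc'
  have hf1 : (Ctx.std κ).SmN univ α c (f - dG (pullG (kR (alK κ t)) c')) := hf.sub hc1.d
  have hdf1 : (Ctx.std κ).NulN univ α c (dG (f - dG (pullG (kR (alK κ t)) c'))) :=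
    (Ctx.NulN.d_sub hf hc1.d).of_sub (hdf.sub (Ctx.NulN.dd hc1))
  obtain ⟨γ, g1, hg1, hn⟩ := h.pp1 _ hf1 hdf1
  have hg2 : (Ctx.std κ).SmN univ α c (pullG (kR (alK κ t)) g1) := h.smSt hG hd (res hg1)
  have hS : pullG (kR (alK κ t)) (∑ I ∈ α.powerset, γ I • lgI (zc κ) I oneG) =
      ∑ I ∈ α.powerset, γ I • lgI (zc κ) I oneG := by
    rw [pullG_sum]
    refine Finset.sum_congr rfl fun I hI => ?_
    rw [pullG_smul, pull_lgI_DPM5 h hd (Finset.mem_powerset.1 hI)]
  have n1 := pull_nul_DPM5 h hd hn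
  rw [pullG_sub, pullG_sub, pullG_sub, hS] at n1
  have n2 := (st_iff_DPM5 h hG hd).1 hfc
  rw [pullG_sub] at n2
  have n3 := d_pull_DPM5 h hG hd hc'
  have n4 := d_pull_DPM5 h hG hd (res hc1)
  rw [pullG_kR_kR] at n4
  have n5 := d_pull_DPM5 h hG hd (res hg1)
  have n6 := Ctx.NulN.d_sub (hc1.add hg1) hg2
  have n7 := Ctx.NulN.d_add hc1 hg1
  refine ⟨pullG (kR (alK κ t)) c' + g1 - pullG (kR (alK κ t)) g1, (hc1.add hg1).sub hg2, ?_, ?_⟩
  · have n8 := ((((((hn.sub n1).add n2).sub n3).add n4).add n5).sub n6).sub n7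
    have e : ∀ (f S a b pf pa pb pc x y z : GF (E d)),
        f - a - S - b - (pf - pa - S - pb) + (pf - pc) - (a - pc) + (a - pa) + (x - pb) -
          (y - (z - x)) - (z - (a + b)) = f - y := by
      intros; abel
    rw [e] at n8
    exact n8
  · rw [st_iff_DPM5 h hG hd, pullG_sub, pullG_sub, pullG_add, pullG_kR_kR, pullG_kR_kR]
    have e : ∀ a b : GF (E d), a - (a + b - b) = 0 := by
      intros; abel
    rw [e]
    exact Ctx.NulN.zero

end Pool.Agent.PWD.Loc
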