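import Pool.Agent.K.MP_65ad7c_ag.C83
import Pool.Agent.K.MP_65ad7c_ag.C84
import Pool.Agent.K.MP_65ad7c_ag.C87
import Pool.Agent.K.MP_65ad7c_ag.C48
import Pool.Agent.P.MP_65ad7c_ag.HGeo0

-- part Pool.Agent.P.MP_65ad7c_ag.DLM
section

/-! The local theory for coordinate hyperplanes. -/

open Set

noncomputable section
namespace Pool.Agent.PWD

variable {d : ℕ} {ι : Type} [LinearOrder ι] {κ : ι → Option (Fin d)} {c : Fin d → ℂ}

omit [LinearOrder ι] in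
theorem std_ok (S : Set (Fin d → ℂ)) : (Ctx.std κ).OK S := Loc.std_ok' S

theorem std_lt (hκ : ∀ i j k, κ i = some k → κ j = some k → i = j)
    (hc : ∀ i k, κ i = some k → c k = 0) (α : Finset ι) :
    (Ctx.std κ).LT univ α c (zc κ) :=
  have h : Loc.Std κ c := ⟨hκ, hc⟩
  { eqs := Loc.eqs_std
    pp1 := h.pp1
    pp2 := h.pp2
    l4 := h.l4
    l3 := h.l3
    off := h.off
    ind := fun _ _ _ _ => Loc.RH_ind
    resU := h.resU
    resF := h.resF
    resV := h.resV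
    ext := h.ext
    txt := h.txt
    conj := Loc.Std.conj
    ty0 := Loc.Std.ty0
    tyN := Loc.Std.tyN
    tyA := Loc.Std.tyA
    tyd := Loc.Std.tyd
    top := h.top }

omit [LinearOrder ι] in
theorem std_ht (hκ : ∀ i j k, κ i = some k → κ j = some k → i = j)
    (hc : ∀ i k, κ i = some k → c k = 0) {α t : Finset ι} (h : Disjoint α t)
    (ht : c ∈ St univ (Ctx.std κ).D t) :
    (Ctx.std κ).HT univ α (St univ (Ctx.std κ).D t) c := by
  classical
  let _ : LinearOrder ι := linearOrderOfSTO WellOrderingRel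
  exact Loc.Std.ht ⟨hκ, hc⟩ h ht

end Pool.Agent.PWD
end
end

-- part Pool.Agent.P.MP_65ad7c_ag.DCb
section

/-! Transport of germ conditions along a chart. -/

open Set Filter Topology
open scoped ContDiff
open Pool.Agent.HT

noncomputable section
namespace Pool.Agent.PWD

variable {V V' : Type} [NormedAddCommGroup V] [NormedSpace ℝ V] [NormedAddCommGroup V']
  [NormedSpace ℝ V'] {ι : Type} [LinearOrder ι]

/-- a chart of `S` at `x`, adapted to the divisors in `β` -/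
structure Cht (C : Ctx V ι) (S : Set V) (x : V) (C' : Ctx V' ι) (c : V') (β : Finset ι)
    (z : ι → V' → ℂ) where
  ψ : V' → V
  φ : V → V'
  W : Set V
  W' : Set V'
  W_open : IsOpen W
  W'_open : IsOpen W'
  c_mem : c ∈ W'
  ψc : ψ c = x
  ψ_smooth : ContDiff ℝ ∞ ψ
  φ_smooth : ContDiff ℝ ∞ φ
  ψ_mem : ∀ y ∈ W', ψ y ∈ S ∩ W
  φ_mem : ∀ y ∈ W, φ y ∈ W'
  φψ : ∀ y ∈ W', φ (ψ y) = y
  ψφ : ∀ y ∈ S ∩ W, ψ (φ y) = y
  memD : ∀ i ∈ β, ∀ y ∈ W', ψ y ∈ C.D i ↔ y ∈ C'.D i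
  hol : ∀ y ∈ W', ∀ v, fderiv ℝ ψ y (C'.J y v) = C.J (ψ y) (fderiv ℝ ψ y v)
  G' : ∀ O i, C'.G O i = {z i}
  eqn : ∀ i ∈ β, z i ∘ φ ∈ C.G W i
  unit : ∀ i ∈ β, ∀ O, IsOpen O → x ∈ O → ∀ h ∈ C.G O i, ∃ (u : V' → ℂ) (O' : Set V'),
    IsOpen O' ∧ c ∈ O' ∧ ContDiffOn ℝ ∞ u O' ∧ ∀ y ∈ O', u y ≠ 0 ∧ h (ψ y) = u y * z i y
  ok : C.OK S
  ok' : C'.OK univ

namespace Cht
variable {C : Ctx V ι} {S : Set V} {x : V} {C' : Ctx V' ι} {c : V'} {β α : Finset ι}
  {z : ι → V' → ℂ} (A : Cht C S x C' c β z) {T : Set V} {T' : Set V'} {f g : GF V}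
  {f' g' : GF V'} {w p q : ℕ}

/-- the equations given by the chart -/
def e (i : ι) : V → ℂ := z i ∘ A.φ

/-- sets that correspond under the chart -/
def Cor (T : Set V) (T' : Set V') : Prop := T ⊆ S ∧ ∀ y ∈ A.W', A.ψ y ∈ T ↔ y ∈ T'

theorem x_mem : x ∈ A.W := mem_of_eq_of_mem A.ψc.symm (A.ψ_mem c A.c_mem).2

theorem φx : A.φ x = c := (congrArg A.φ A.ψc.symm).trans (A.φψ c A.c_mem)

include A in
theorem z_mem (O i) : z i ∈ C'.G O i := by rw [A.G']; rfl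

include A in
theorem z_smooth (i : ι) : ContDiff ℝ ∞ (z i) :=
  contDiffOn_univ.1 (A.ok'.smooth univ i _ (A.z_mem _ i))

theorem cor_univ : A.Cor S univ := ⟨subset_rfl, fun y hy => iff_of_true (A.ψ_mem y hy).1 trivial⟩

theorem Cor.st (h : A.Cor T T') {I : Finset ι} (hI : I ⊆ β) :
    A.Cor (St T C.D I) (St T' C'.D I) :=
  ⟨inter_subset_left.trans h.1, fun y hy => and_congr (h.2 y hy) (by
    simp only [mem_iInter]
    exact forall₂_congr fun i hi => A.memD i (hI hi) y hy)⟩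

theorem Cor.inter (h : A.Cor T T') {i : ι} (hi : i ∈ β) : A.Cor (T ∩ C.D i) (T' ∩ C'.D i) :=
  ⟨inter_subset_left.trans h.1, fun y hy => and_congr (h.2 y hy) (A.memD i hi y hy)⟩

theorem Cor.mem (h : A.Cor T T') : x ∈ T ↔ c ∈ T' := A.ψc ▸ h.2 c A.c_mem

theorem mem_off (hα : α ⊆ β) {y : V'} (hy : y ∈ A.W') : A.ψ y ∈ Off C.D α ↔ y ∈ Off C'.D α := by
  simp only [Off, mem_iUnion]
  exact exists₂_congr fun i hi => A.memD i (hα hi) y hy

theorem open_to {O : Set V} (hO : IsOpen O) (hx : x ∈ O) :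
    IsOpen (A.W' ∩ A.ψ ⁻¹' O) ∧ c ∈ A.W' ∩ A.ψ ⁻¹' O :=
  ⟨A.W'_open.inter (hO.preimage A.ψ_smooth.continuous), A.c_mem, by rwa [mem_preimage, A.ψc]⟩

theorem open_from {O : Set V'} (hO : IsOpen O) (hc : c ∈ O) :
    IsOpen (A.W ∩ A.φ ⁻¹' O) ∧ x ∈ A.W ∩ A.φ ⁻¹' O :=
  ⟨A.W_open.inter (hO.preimage A.φ_smooth.continuous), A.x_mem, by rwa [mem_preimage, A.φx]⟩

theorem maps_to (h : A.Cor T T') (hα : α ⊆ β) (O : Set V) :
    MapsTo A.ψ ((T' ∩ (A.W' ∩ A.ψ ⁻¹' O)) \ Off C'.D α) ((T ∩ O) \ Off C.D α) := fun y hy =>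
  ⟨⟨(h.2 y hy.1.2.1).2 hy.1.1, hy.1.2.2⟩, fun k => hy.2 ((A.mem_off hα hy.1.2.1).1 k)⟩

theorem maps_from (h : A.Cor T T') (hα : α ⊆ β) (O : Set V') :
    MapsTo A.φ ((T ∩ (A.W ∩ A.φ ⁻¹' O)) \ Off C.D α) ((T' ∩ O) \ Off C'.D α) := fun y hy => by
  have h1 := A.φ_mem y hy.1.2.1
  have h2 := A.ψφ y ⟨h.1 hy.1.1, hy.1.2.1⟩
  exact ⟨⟨(h.2 _ h1).1 (h2.symm ▸ hy.1.1), hy.1.2.2⟩, fun k =>
    hy.2 (h2 ▸ (A.mem_off hα h1).2 k)⟩

theorem pp (g : GF V') : EqN c (pullG A.ψ (pullG A.φ g)) g := by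
  filter_upwards [A.W'_open.mem_nhds A.c_mem] with y hy n
  have h1 : A.φ ∘ A.ψ =ᶠ[𝓝 y] id := mem_of_superset (A.W'_open.mem_nhds hy) A.φψ
  refine (pull_comp _ (cda_diff A.ψ_smooth.contDiffAt) (cda_diff A.φ_smooth.contDiffAt)).symm.trans
    ((pull_congr _ h1).trans ?_)
  ext v
  simp [pull_apply]

theorem van_pp (h : T ⊆ S ∩ A.W) (f : GF V) : VanG T (f - pullG A.φ (pullG A.ψ f)) := by
  have := VanG.pull_sub isOpen_univ (subset_univ T) (A.ψ_smooth.comp A.φ_smooth).contDiffOn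
    (fun y hy => A.ψφ y (h hy)) f
  refine this.congr fun n y _ => congrArg (f n y - ·) ?_
  exact (pull_comp _ (cda_diff A.φ_smooth.contDiffAt) (cda_diff A.ψ_smooth.contDiffAt)).symm

theorem nul_pp (h : A.Cor T T') (f : GF V) : C.NulN T α x (f - pullG A.φ (pullG A.ψ f)) :=
  ⟨A.W, A.W_open, A.x_mem, A.van_pp (fun _ hy => ⟨h.1 hy.1.1, hy.1.2⟩) f⟩

theorem sm_to (h : A.Cor T T') (hα : α ⊆ β) (hf : C.SmN T α x f) :
    C'.SmN T' α c (pullG A.ψ f) := by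
  obtain ⟨O, hO, hx, hf⟩ := hf
  exact ⟨_, (A.open_to hO hx).1, (A.open_to hO hx).2,
    hf.pull isOpen_univ (subset_univ _) A.ψ_smooth.contDiffOn (A.maps_to h hα O)⟩

theorem sm_from (h : A.Cor T T') (hα : α ⊆ β) (hf : C'.SmN T' α c f') :
    C.SmN T α x (pullG A.φ f') := by
  obtain ⟨O, hO, hx, hf⟩ := hf
  exact ⟨_, (A.open_from hO hx).1, (A.open_from hO hx).2,
    hf.pull isOpen_univ (subset_univ _) A.φ_smooth.contDiffOn (A.maps_from h hα O)⟩

theorem smG_to {O : Set V} (hO : IsOpen O) (hf : SmG O f) :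
    SmG (A.W' ∩ A.ψ ⁻¹' O) (pullG A.ψ f) := fun n _ hy =>
  (pull_contDiffAt A.ψ_smooth.contDiffAt ((hf n).contDiffAt (hO.mem_nhds hy.2))).contDiffWithinAt

theorem smG_from {O : Set V'} (hO : IsOpen O) (hf : SmG O f') :
    SmG (A.W ∩ A.φ ⁻¹' O) (pullG A.φ f') := fun n _ hy =>
  (pull_contDiffAt A.φ_smooth.contDiffAt ((hf n).contDiffAt (hO.mem_nhds hy.2))).contDiffWithinAt

theorem d_to (h : A.Cor T T') (hα : α ⊆ β) (hf : C.SmN T α x f) :
    C'.NulN T' α c (dG (pullG A.ψ f) - pullG A.ψ (dG f)) := by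
  obtain ⟨O, hO, hx, hf⟩ := hf
  exact ⟨_, (A.open_to hO hx).1, (A.open_to hO hx).2,
    VanG.d_pull isOpen_univ (subset_univ _) A.ψ_smooth.contDiffOn (A.maps_to h hα O) hf⟩

theorem d_from (h : A.Cor T T') (hα : α ⊆ β) (hf : C'.SmN T' α c f') :
    C'.NulN T' α c (pullG A.ψ (dG (pullG A.φ f')) - dG f') :=
  (A.d_to h hα (A.sm_from h hα hf)).symm.trans (A.pp f').d.nul

theorem lg_from (i : ι) (g : GF V') : pullG A.φ (lg (z i) g) = lg (A.e i) (pullG A.φ g) :=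
  funext fun n => funext fun _ =>
    pullG_lg (cda_diff A.φ_smooth.contDiffAt) (cda_diff (A.z_smooth i).contDiffAt) g n

theorem lg_to (i : ι) (h : EqN c (pullG A.ψ f) f') :
    EqN c (pullG A.ψ (lg (A.e i) f)) (lg (z i) f') :=
  EqN.trans (Eventually.of_forall fun _ => pullG_lg (cda_diff A.ψ_smooth.contDiffAt)
    (cda_diff ((A.z_smooth i).comp A.φ_smooth).contDiffAt) f)
    (EqN.lg (mem_of_superset (A.W'_open.mem_nhds A.c_mem) fun y hy => congrArg (z i) (A.φψ y hy)) h)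

theorem lgI_to (I : Finset ι) (h : EqN c (pullG A.ψ f) f') :
    EqN c (pullG A.ψ (lgI A.e I f)) (lgI z I f') := by
  unfold lgI
  induction I.sort (· ≤ ·) with
  | nil => exact h
  | cons i L ih => exact A.lg_to i ih

theorem lgI_one (I : Finset ι) : EqN c (pullG A.ψ (lgI A.e I oneG)) (lgI z I oneG) :=
  A.lgI_to I (pullG_oneG A.ψ ▸ EqN.rfl)

theorem sum_one (s : Finset (Finset ι)) (γ : Finset ι → ℂ) :
    EqN c (pullG A.ψ (∑ I ∈ s, γ I • lgI A.e I oneG)) (∑ I ∈ s, γ I • lgI z I oneG) := by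
  rw [pullG_sum]
  exact EqN.sum s fun I _ => (A.lgI_one I).smul (γ I)

theorem ty_to (p : ℕ) (f : GF V) :
    EqN c (pullG A.ψ (tyG C.J p f)) (tyG C'.J p (pullG A.ψ f)) :=
  mem_of_superset (A.W'_open.mem_nhds A.c_mem) fun y hy n => tyA_comp (A.hol y hy) p n _

/-- an arbitrary equation differs from the coordinate by a unit -/
theorem lg_unit {i : ι} (hi : i ∈ α) (hα : α ⊆ β) {O : Set V} (hO : IsOpen O) (hx : x ∈ O)
    {h : V → ℂ} (hh : h ∈ C.G O i) : ∃ (ξ : V' → V' →L[ℝ] ℂ) (O' : Set V'), IsOpen O' ∧ c ∈ O' ∧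
      ContDiffOn ℝ ∞ ξ O' ∧ ∀ f, C'.NulN univ α c
        (pullG A.ψ (lg h f) - (lg (z i) (pullG A.ψ f) + wG ξ (pullG A.ψ f))) := by
  obtain ⟨u, O', hO', hc, hu, h1⟩ := A.unit i (hα hi) O hO hx h hh
  refine ⟨fun y => (u y)⁻¹ • fderiv ℝ u y, O', hO', hc, (hu.inv fun y hy => (h1 y hy).1).smul
    (hu.fderiv_of_isOpen hO' (by simp)), fun f => ⟨O' ∩ (A.W' ∩ A.ψ ⁻¹' O),
      hO'.inter (A.open_to hO hx).1, ⟨hc, (A.open_to hO hx).2⟩, .of_zero fun n y hy => ?_⟩⟩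
  refine sub_eq_zero.2 ((pullG_lg (cda_diff A.ψ_smooth.contDiffAt)
    (cda_diff ((A.ok.smooth O i h hh).contDiffAt (hO.mem_nhds hy.1.2.2.2))) f n).trans ?_)
  rw [lg_mul (h := h ∘ A.ψ) (u := u) (z := z i) (mem_of_superset (hO'.mem_nhds hy.1.2.1) fun y hy => (h1 y hy).2)
    (cda_diff (hu.contDiffAt (hO'.mem_nhds hy.1.2.1))) (cda_diff (A.z_smooth i).contDiffAt)
    (h1 y hy.1.2.1).1 (A.ok'.ne univ i _ (A.z_mem _ i) y ⟨trivial, trivial⟩
      fun k => hy.2 (mem_biUnion hi k))]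
  rfl

theorem wn_lg {i : ι} (hi : i ∈ α) (hα : α ⊆ β) {O : Set V} (hO : IsOpen O) (hx : x ∈ O)
    {h : V → ℂ} (hh : h ∈ C.G O i) (hf : C'.WN univ α w c (pullG A.ψ f)) :
    C'.WN univ α (w + 1) c (pullG A.ψ (lg h f)) := by
  obtain ⟨ξ, O', hO', hc, hξ, h1⟩ := A.lg_unit hi hα hO hx hh
  exact ((hf.lg A.ok' A.G' hi).add A.ok'
    ((hf.wG A.ok' hO' hc hξ).mono (Nat.le_succ w))).congr A.ok' (h1 f)

section fd
variable [FiniteDimensional ℝ V] [FiniteDimensional ℝ V']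

omit [FiniteDimensional ℝ V'] in
theorem nul_to (h : A.Cor T T') (hα : α ⊆ β) (hf : C.NulN T α x f) :
    C'.NulN T' α c (pullG A.ψ f) := by
  obtain ⟨O, hO, hx, hf⟩ := hf
  exact ⟨_, (A.open_to hO hx).1, (A.open_to hO hx).2,
    hf.pull isOpen_univ (subset_univ _) A.ψ_smooth.contDiffOn (A.maps_to h hα O)⟩

omit [FiniteDimensional ℝ V] in
theorem nul_from (h : A.Cor T T') (hα : α ⊆ β) (hf : C'.NulN T' α c f') :
    C.NulN T α x (pullG A.φ f') := by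
  obtain ⟨O, hO, hx, hf⟩ := hf
  exact ⟨_, (A.open_from hO hx).1, (A.open_from hO hx).2,
    hf.pull isOpen_univ (subset_univ _) A.φ_smooth.contDiffOn (A.maps_from h hα O)⟩

omit [FiniteDimensional ℝ V] in
theorem nul_of (h : A.Cor T T') (hα : α ⊆ β) (hf : C'.NulN T' α c (pullG A.ψ f)) :
    C.NulN T α x f := (A.nul_pp h f).of_sub (A.nul_from h hα hf)

theorem fn_iff (h : A.Cor T T') (hα : α ⊆ β) :
    C.FN T α p x f ↔ C'.FN T' α p c (pullG A.ψ f) :=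
  ⟨fun hf => (A.nul_to h hα (Ctx.fn_iff.1 hf)).eqN (A.ty_to p f).symm,
    fun hf => A.nul_of h hα ((Ctx.fn_iff.1 hf).eqN (A.ty_to p f))⟩

theorem fn_from (h : A.Cor T T') (hα : α ⊆ β) (hf : C'.FN T' α p c f') :
    C.FN T α p x (pullG A.φ f') := (A.fn_iff h hα).2 (hf.eqN (A.pp f'))

omit [FiniteDimensional ℝ V'] in
theorem lw_to {O : Set V} (hO : IsOpen O) (hx : x ∈ O) (h : LW (C.G O) C.D S O α w f)
    (hα : α ⊆ β) : C'.WN univ α w c (pullG A.ψ f) := by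
  induction h with
  | zero => exact .of_nul .zero
  | smooth h => exact .of_smG (A.open_to hO hx).1 (A.open_to hO hx).2 (A.smG_to hO h)
  | add _ _ h1 h2 => exact (h1 hα).add A.ok' (h2 hα)
  | mono i _ h =>
    exact (h ((Finset.erase_subset _ _).trans hα)).anti subset_rfl (Finset.erase_subset _ _)
  | up hi hh _ h =>
    exact A.wn_lg hi hα hO hx hh
      ((h ((Finset.erase_subset _ _).trans hα)).anti subset_rfl (Finset.erase_subset _ _))
  | van hi hh _ hv h =>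
    obtain ⟨ξ, O', hO', hc, hξ, h1⟩ := A.lg_unit hi hα hO hx hh
    have h2 := h ((Finset.erase_subset _ _).trans hα)
    exact ((h2.van A.ok' hi isOpen_univ trivial (A.z_mem _ _) (A.nul_to (A.cor_univ.inter A (hα hi))
      ((Finset.erase_subset _ _).trans hα) ⟨O, hO, hx, hv⟩)).add A.ok'
      ((h2.wG A.ok' hO' hc hξ).anti subset_rfl (Finset.erase_subset _ _))).congr A.ok' (h1 _)

omit [FiniteDimensional ℝ V] in
theorem lw_from {O : Set V'} (hO : IsOpen O) (hc : c ∈ O) (h : LW (C'.G O) C'.D univ O α w f')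
    (hα : α ⊆ β) : C.WN S α w x (pullG A.φ f') := by
  induction h with
  | zero => exact .of_nul .zero
  | smooth h => exact .of_smG (A.open_from hO hc).1 (A.open_from hO hc).2 (A.smG_from hO h)
  | add _ _ h1 h2 => exact (h1 hα).add A.ok (h2 hα)
  | mono i _ h =>
    exact (h ((Finset.erase_subset _ _).trans hα)).anti subset_rfl (Finset.erase_subset _ _)
  | up hi hh _ h =>
    rw [A.G'] at hh
    rw [hh, A.lg_from]
    exact (h ((Finset.erase_subset _ _).trans hα)).up A.ok hi A.W_open A.x_mem (A.eqn _ (hα hi))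
  | van hi hh _ hv h =>
    rw [A.G'] at hh
    rw [hh, A.lg_from]
    exact (h ((Finset.erase_subset _ _).trans hα)).van A.ok hi A.W_open A.x_mem (A.eqn _ (hα hi))
      (A.nul_from (A.cor_univ.inter A (hα hi)) ((Finset.erase_subset _ _).trans hα) ⟨O, hO, hc, hv⟩)

omit [FiniteDimensional ℝ V'] in
theorem wn_to (hα : α ⊆ β) (hf : C.WN S α w x f) : C'.WN univ α w c (pullG A.ψ f) := by
  obtain ⟨O, g, hO, hx, h1, h2⟩ := hf
  exact (A.lw_to hO hx h1 hα).congr A.ok' (A.nul_to (f := f - g) A.cor_univ hα ⟨O, hO, hx, h2⟩)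

omit [FiniteDimensional ℝ V] in
theorem wn_from (hα : α ⊆ β) (hf : C'.WN univ α w c f') : C.WN S α w x (pullG A.φ f') := by
  obtain ⟨O, g, hO, hx, h1, h2⟩ := hf
  exact (A.lw_from hO hx h1 hα).congr A.ok (A.nul_from (f' := f' - g) A.cor_univ hα ⟨O, hO, hx, h2⟩)

omit [FiniteDimensional ℝ V] in
theorem wn_of (hα : α ⊆ β) (hf : C'.WN univ α w c (pullG A.ψ f)) : C.WN S α w x f :=
  (A.wn_from hα hf).congr A.ok (A.nul_pp A.cor_univ f)

include A in
theorem txt (hα : α ⊆ β) (hf : C.TN S α w x f) : C.WN S α w x f := by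
  obtain ⟨O, g, hO, hx, h1, h2⟩ := hf
  refine (A.wn_of (f := g) hα ?_).congr A.ok ⟨O, hO, hx, h2⟩
  clear h2
  induction h1 with
  | zero => exact .of_nul .zero
  | smooth h => exact .of_smG (A.open_to hO hx).1 (A.open_to hO hx).2 (A.smG_to hO h)
  | add _ _ h1 h2 => exact h1.add A.ok' h2
  | log hh _ h =>
    obtain ⟨i, hi, hh⟩ := hh
    exact A.wn_lg hi hα hO hx hh h

end fd

end Cht

end Pool.Agent.PWD
end
end

-- part Pool.Agent.P.MP_65ad7c_ag.DCc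
section

/-! Transport of residues and of the local theory along a chart. -/

open Set Filter Topology
open scoped ContDiff
open Pool.Agent.HT

noncomputable section
namespace Pool.Agent.PWD

variable {V V' : Type} [NormedAddCommGroup V] [NormedSpace ℝ V] [NormedAddCommGroup V']
  [NormedSpace ℝ V'] {ι : Type} [LinearOrder ι] [FiniteDimensional ℝ V] [FiniteDimensional ℝ V']

theorem pullG_prj (γ : V' → V) (m : ℕ) (f : GF V) : pullG γ (prj m f) = prj m (pullG γ f) := by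
  funext n
  rcases eq_or_ne n m with rfl | h
  · simp [pullG, prj]
  · simp only [pullG, prj, Pi.single_eq_of_ne h]; rfl

namespace Cht
variable {C : Ctx V ι} {S : Set V} {x : V} {C' : Ctx V' ι} {c : V'} {β α : Finset ι}
  {z : ι → V' → ℂ} (A : Cht C S x C' c β z) (hα : α ⊆ β) {f g : GF V}
  {f' g' : GF V'} {w p q : ℕ} {r : Finset ι → GF V} {r' : Finset ι → GF V'}

omit [FiniteDimensional ℝ V'] in
theorem van_to {T O : Set V} {T' : Set V'} (h : A.Cor T T') (hf : VanG (T ∩ O) f) :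
    VanG (T' ∩ (A.W' ∩ A.ψ ⁻¹' O)) (pullG A.ψ f) :=
  hf.pull isOpen_univ (subset_univ _) A.ψ_smooth.contDiffOn fun y hy =>
    mem_inter ((h.2 y hy.2.1).2 hy.1) hy.2.2

omit [FiniteDimensional ℝ V] in
theorem van_from {T : Set V} {T' O : Set V'} (h : A.Cor T T') (hf : VanG (T' ∩ O) f') :
    VanG (T ∩ (A.W ∩ A.φ ⁻¹' O)) (pullG A.φ f') :=
  hf.pull isOpen_univ (subset_univ _) A.φ_smooth.contDiffOn fun y hy =>
    mem_inter ((h.2 _ (A.φ_mem y hy.2.1)).1 (by rw [A.ψφ y ⟨h.1 hy.1, hy.2.1⟩]; exact hy.1)) hy.2.2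

omit [FiniteDimensional ℝ V] [FiniteDimensional ℝ V'] in
theorem eqN_sub (f : GF V) (h : EqN c (pullG A.ψ g) g') :
    EqN c (pullG A.ψ (f - g)) (pullG A.ψ f - g') := by
  rw [pullG_sub]; exact EqN.rfl.sub h

include hα

theorem eqs : C.Eqs α x A.e :=
  ⟨A.W, A.W_open, A.x_mem, fun _ hO i hi => A.ok.mono _ _ _ hO (A.eqn i (hα hi))⟩

theorem cor_st {I : Finset ι} (hI : I ⊆ α) : A.Cor (St S C.D I) (St univ C'.D I) :=
  A.cor_univ.st A (hI.trans hα)

theorem rh_to (h : C.RH S α A.e q x f r) :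
    C'.RH univ α z q c (pullG A.ψ f) fun I => pullG A.ψ (r I) := by
  obtain ⟨O, b, hO, hx, h1, h2, h3⟩ := h
  refine ⟨_, fun I => pullG A.ψ (b I), (A.open_to hO hx).1, (A.open_to hO hx).2,
    fun I => A.smG_to hO (h1 I), (A.wn_to hα h2).eqN A.ok' ?_, fun I hI => ?_⟩
  · rw [pullG_sub, pullG_sum]
    exact EqN.rfl.sub (EqN.sum _ fun I _ => (A.lgI_to I EqN.rfl).symm)
  · exact A.van_to (A.cor_st hα (Finset.mem_powersetCard.1 hI).1) (h3 I hI)

theorem rh_of (h : C'.RH univ α z q c (pullG A.ψ f) r') :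
    C.RH S α A.e q x f fun I => pullG A.φ (r' I) := by
  obtain ⟨O, b, hO, hx, h1, h2, h3⟩ := h
  refine ⟨_, fun I => pullG A.φ (b I), (A.open_from hO hx).1, (A.open_from hO hx).2,
    fun I => A.smG_from hO (h1 I), A.wn_of hα (h2.eqN A.ok' ?_), fun I hI => ?_⟩
  · rw [pullG_sub, pullG_sum]
    exact EqN.rfl.sub (EqN.sum _ fun I _ => A.lgI_to I (A.pp _))
  · exact A.van_from (A.cor_st hα (Finset.mem_powersetCard.1 hI).1) (h3 I hI)

omit [FiniteDimensional ℝ V] [FiniteDimensional ℝ V'] in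
theorem wn_list {h : ι → V → ℂ} (hh : C.Eqs α x h) {O : Set V} (hO : IsOpen O) (hx : x ∈ O)
    (hf : SmG O f) (L : List ι) (hL : ∀ i ∈ L, i ∈ α) :
    C'.WN univ α (L.length + 1) c (L.foldr (fun i g => lg (z i) g) (pullG A.ψ f)) ∧
    C'.WN univ α L.length c (pullG A.ψ (L.foldr (fun i g => lg (h i) g) f) -
      L.foldr (fun i g => lg (z i) g) (pullG A.ψ f)) := by
  induction L with
  | nil =>
    exact ⟨.of_smG (A.open_to hO hx).1 (A.open_to hO hx).2 (A.smG_to hO hf), .of_nul EqN.rfl.nul⟩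
  | cons i L ih =>
    obtain ⟨h1, h2⟩ := ih fun j hj => hL j (List.mem_cons_of_mem _ hj)
    have hi := hL i List.mem_cons_self
    obtain ⟨O₁, hO₁, hx₁, h3⟩ := hh
    obtain ⟨ξ, O', hO', hc, hξ, h4⟩ := A.lg_unit hi hα hO₁ hx₁ (h3 _ subset_rfl i hi)
    refine ⟨h1.lg A.ok' A.G' hi, ((h2.lg A.ok' A.G' hi).add A.ok'
      (((h2.mono (Nat.le_succ _)).add A.ok' h1).wG A.ok' hO' hc hξ)).congr A.ok' ?_⟩
    convert h4 (L.foldr (fun i g => lg (h i) g) f) using 1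
    rw [sub_add_cancel, lg_sub, List.foldr_cons, List.foldr_cons]
    abel

theorem ind {h : ι → V → ℂ} (hh : C.Eqs α x h) (hf : C.RH S α h q x f r) :
    C.RH S α A.e q x f r := by
  obtain ⟨O, b, hO, hx, h1, h2, h3⟩ := hf
  refine ⟨O, b, hO, hx, h1, ?_, h3⟩
  have : C.WN S α q x (∑ I ∈ α.powersetCard q, (lgI h I (b I) - lgI A.e I (b I))) :=
    .sum A.ok _ fun I hI => by
      obtain ⟨k1, rfl⟩ := Finset.mem_powersetCard.1 hI
      have := (A.wn_list hα hh hO hx (h1 I) (I.sort (· ≤ ·))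
        fun i hi => k1 ((Finset.mem_sort _).1 hi)).2
      rw [Finset.length_sort] at this
      exact A.wn_of hα (this.eqN A.ok' (A.eqN_sub _ (A.lgI_to I EqN.rfl)))
  convert h2.add A.ok this using 1
  rw [Finset.sum_sub_distrib]
  abel

omit hα [FiniteDimensional ℝ V] [FiniteDimensional ℝ V'] in
include A in
theorem eqs' : C'.Eqs α c z := ⟨univ, isOpen_univ, trivial, fun O _ i _ => A.z_mem O i⟩

theorem rn_to (h : C.RN S α w x f r) :
    C'.RN univ α w c (pullG A.ψ f) fun I => pullG A.ψ (r I) := by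
  cases w with
  | zero => exact A.nul_to A.cor_univ hα h
  | succ q => exact ⟨z, A.eqs', A.rh_to hα (A.ind hα h.choose_spec.1 h.choose_spec.2)⟩

theorem rn_of (L : C'.LT univ α c z) (h : C'.RN univ α w c f' r')
    (e : C'.NulN univ α c (pullG A.ψ f - f')) : C.RN S α w x f fun I => pullG A.φ (r' I) := by
  cases w with
  | zero => exact A.nul_of A.cor_univ hα (e.of_sub h)
  | succ q =>
    exact ⟨A.e, A.eqs hα, A.rh_of hα ((L.ind _ _ _ _ h.choose_spec.1 h.choose_spec.2).congr A.ok'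
      (.of_nul e) fun I _ => EqN.rfl.nul)⟩

omit hα [FiniteDimensional ℝ V] [FiniteDimensional ℝ V'] in
include A in
theorem rn_congr (h : C'.RN univ α w c f' r') (e : C'.NulN univ α c (g' - f')) :
    C'.RN univ α w c g' r' := by
  cases w with
  | zero => exact e.of_sub h
  | succ q =>
    exact ⟨_, h.choose_spec.1, h.choose_spec.2.congr A.ok' (.of_nul e) fun I _ => EqN.rfl.nul⟩

omit [FiniteDimensional ℝ V'] in
theorem closed_to {T : Set V} {T' : Set V'} (h : A.Cor T T') (hf : C.SmN T α x f)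
    (hd : C.NulN T α x (dG f)) : C'.NulN T' α c (dG (pullG A.ψ f)) :=
  (A.d_to h hα hf).of_sub (A.nul_to h hα hd)

omit [FiniteDimensional ℝ V] in
theorem nul_exact {k : GF V} {k' : GF V'} (e : EqN c (pullG A.ψ k) k') (hg : C'.SmN univ α c g')
    (h : C'.NulN univ α c (k' - dG g')) : C.NulN S α x (k - dG (pullG A.φ g')) :=
  A.nul_of A.cor_univ hα ((e.nul.trans h).trans (A.d_from A.cor_univ hα hg).symm)

/-- the local theory passes from the model to the chart domain -/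
theorem lt (L : C'.LT univ α c z) : C.LT S α x A.e where
  eqs := A.eqs hα
  pp1 f h1 h2 := by
    obtain ⟨γ, g, h3, h4⟩ := L.pp1 _ (A.sm_to A.cor_univ hα h1) (A.closed_to hα A.cor_univ h1 h2)
    exact ⟨γ, _, A.sm_from A.cor_univ hα h3, A.nul_exact hα (A.eqN_sub f (A.sum_one _ γ)) h3 h4⟩
  pp2 γ g h1 h2 I hI hx :=
    L.pp2 γ _ (A.sm_to A.cor_univ hα h1) (((A.sum_one _ γ).symm.nul.trans
      (A.nul_to A.cor_univ hα h2)).trans (A.d_to A.cor_univ hα h1).symm) I hI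
      (((A.cor_st hα hI).mem A).1 hx)
  l4 w f h1 h2 h3 := by
    obtain ⟨γ, g, h4, h5, h6, h7⟩ := L.l4 w _ (A.sm_to A.cor_univ hα h1) (A.wn_to hα h2)
      (A.closed_to hα A.cor_univ h1 h3)
    exact ⟨γ, _, A.sm_from A.cor_univ hα h4, A.wn_from hα h5, h6,
      A.nul_exact hα (A.eqN_sub f (A.sum_one _ γ)) h4 h7⟩
  l3 w p f r h1 h2 h3 h4 := by
    obtain ⟨g, r', k1, k2, k3, k4⟩ := L.l3 w p _ _ (A.sm_to A.cor_univ hα h1) (A.wn_to hα h2)
      ((A.fn_iff A.cor_univ hα).1 h3) (A.rn_congr (A.rn_to hα h4) (A.d_to A.cor_univ hα h1))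
    refine ⟨_, _, A.sm_from A.cor_univ hα k1, A.wn_from hα k2, A.fn_from A.cor_univ hα k3,
      A.rn_of hα L k4 ?_⟩
    rw [pullG_sub, sub_sub_sub_cancel_left]
    exact (A.d_from A.cor_univ hα k1).symm
  off I hI hx f := A.nul_of A.cor_univ hα
    ((L.off I hI (fun h => hx (((A.cor_st hα hI).mem A).2 h)) _).eqN (A.lgI_to I EqN.rfl))
  ind _ _ _ _ := A.ind hα
  resU q f r h1 h2 I hI := A.nul_of (A.cor_st hα (Finset.mem_powersetCard.1 hI).1)
    (Finset.empty_subset _) (L.resU q _ _ (A.rh_to hα h1) (A.wn_to hα h2) I hI)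
  resF q p f r h1 h2 I hI := (A.fn_iff (A.cor_st hα (Finset.mem_powersetCard.1 hI).1)
    (Finset.empty_subset _)).2 (L.resF q p _ _ (A.rh_to hα h1) ((A.fn_iff A.cor_univ hα).1 h2) I hI)
  resV I hI O b hO hx h1 h2 := A.wn_of hα ((L.resV I hI _ _ (A.open_to hO hx).1 (A.open_to hO hx).2
    (A.smG_to hO h1) (A.van_to (A.cor_st hα hI) h2)).eqN A.ok' (A.lgI_to I EqN.rfl))
  ext I hI p r h1 h2 := by
    have hc := A.cor_st hα hI
    obtain ⟨O, b, hO, hx, k1, k2, k3⟩ := L.ext I hI p _ (A.sm_to hc (Finset.empty_subset _) h1)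
      ((A.fn_iff hc (Finset.empty_subset _)).1 h2)
    refine ⟨_, pullG A.φ b, (A.open_from hO hx).1, (A.open_from hO hx).2, A.smG_from hO k1, ?_,
      (A.fn_iff A.cor_univ hα).2 (k3.eqN (A.lgI_to I (A.pp b)))⟩
    have := (A.van_pp (T := St S C.D I ∩ (A.W ∩ A.φ ⁻¹' O)) (fun y hy => ⟨hy.1.1, hy.2.1⟩) r).add
      (A.van_from hc k2)
    rwa [pullG_sub, sub_add_sub_cancel] at this
  txt _ _ := A.txt hα
  conj I hI := by
    obtain ⟨g, h1, h2⟩ := L.conj I hI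
    refine ⟨_, A.sm_from A.cor_univ hα h1, A.nul_exact hα ?_ h1 h2⟩
    rw [pullG_sub, pullG_smul, ← conjG_pullG]
    exact (A.lgI_one I).conj.sub ((A.lgI_one I).smul _)
  ty0 f := (A.fn_iff A.cor_univ hα).2 (L.ty0 _)
  tyN p f h := (A.fn_iff A.cor_univ hα).2 (L.tyN p _ (A.nul_to A.cor_univ hα h))
  tyA p f h := (A.fn_iff A.cor_univ hα).2 (L.tyA p _ ((A.fn_iff A.cor_univ hα).1 h))
  tyd p f h1 h2 := (A.fn_iff A.cor_univ hα).2 (by
    have := (L.tyd p _ (A.sm_to A.cor_univ hα h1) ((A.fn_iff A.cor_univ hα).1 h2)).sub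
      (L.tyN p _ (A.d_to A.cor_univ hα h1))
    rwa [sub_sub_cancel] at this)
  top q f h := by
    obtain ⟨r, hr⟩ := L.top q _ (A.wn_to hα h)
    exact ⟨_, A.rh_of hα (pullG_prj A.ψ q f ▸ hr)⟩

theorem ht {T : Set V} {T' : Set V'} (h : A.Cor T T') (L : C'.HT univ α T' c) : C.HT S α T x :=
  fun f k h1 h2 h3 h4 => by
    obtain ⟨g, k1, k2, k3⟩ := L _ _ (A.sm_to A.cor_univ hα h1) (A.sm_to h hα h2)
      (A.closed_to hα A.cor_univ h1 h3) ((A.nul_to h hα h4).trans (A.d_to h hα h2).symm)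
    exact ⟨_, A.sm_from A.cor_univ hα k1, A.nul_exact hα EqN.rfl k1 k2,
      A.nul_of h hα (k3.trans (A.pp g).symm.nul)⟩

end Cht

end Pool.Agent.PWD
end
end

-- part Pool.Agent.P.MP_65ad7c_ag.DCd
section

/-! Adapted charts are holomorphic; local equations differ by units. -/

open Set Filter Topology Metric
open scoped ContDiff ComplexConjugate
open Pool.Agent.HT

noncomputable section
namespace Pool.Agent.PWD

theorem exists_cplx {E F : Type} [NormedAddCommGroup E] [NormedSpace ℂ E] [NormedAddCommGroup F]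
    [NormedSpace ℂ F] (L : E →L[ℝ] F) (h : ∀ v, L (Complex.I • v) = Complex.I • L v) :
    ∃ L' : E →L[ℂ] F, L'.restrictScalars ℝ = L :=
  ⟨{ toFun := L, map_add' := map_add L, cont := L.continuous
     map_smul' := fun c v => by
      conv_lhs => rw [← c.re_add_im, add_smul, mul_smul, map_add, Complex.coe_smul,
        Complex.coe_smul, map_smul, map_smul, h]
      conv_rhs => rw [RingHom.id_apply, ← c.re_add_im, add_smul, mul_smul, Complex.coe_smul,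
        Complex.coe_smul] }, rfl⟩

/-- division by a coordinate -/
theorem hadamard {d : ℕ} {H : (Fin d → ℂ) → ℂ} {c : Fin d → ℂ} {k : Fin d} (hc : c k = 0)
    (h : ∀ᶠ y in 𝓝 c, ContDiffAt ℝ ∞ H y ∧ DifferentiableAt ℂ H y ∧ (y k = 0 → H y = 0))
    (h0 : fderiv ℂ H c ≠ 0) : ∃ (u : (Fin d → ℂ) → ℂ) (O : Set (Fin d → ℂ)), IsOpen O ∧ c ∈ O ∧
      ContDiffOn ℝ ∞ u O ∧ ∀ y ∈ O, u y ≠ 0 ∧ H y = u y * y k := by
  obtain ⟨O, h1, hO, hcO⟩ := _root_.eventually_nhds_iff.1 h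
  obtain ⟨χ, hχ, -, hs, -, hχ1⟩ := Wein.exists_bump {c} O isCompact_singleton hO
    (singleton_subset_iff.2 hcO)
  rw [nhdsSet_singleton] at hχ1
  have hH := Wein.contDiff_smul_cut O hO χ hχ hs H fun y hy => (h1 y hy).1.contDiffWithinAt
  set H' : (Fin d → ℂ) → ℂ := fun x => χ x • H x
  obtain ⟨r, hr, hb⟩ := Metric.eventually_nhds_iff_ball.1 (hχ1.eventually_nhds.and h)
  have he : ∀ y ∈ ball c r, H' =ᶠ[𝓝 y] H := fun y hy => (hb y hy).1.mono fun w hw => by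
    simp [H', hw]
  let P : ℝ × (Fin d → ℂ) → Fin d → ℂ := fun p =>
    p.2 - Pi.single k (p.2 k) + p.1 • (Pi.single k (p.2 k) : Fin d → ℂ)
  have hs1 : ContDiff ℝ ∞ fun p : ℝ × (Fin d → ℂ) => (Pi.single k (p.2 k) : Fin d → ℂ) :=
    (ContinuousLinearMap.single ℝ (fun _ : Fin d => ℂ) k).contDiff.comp
      (contDiff_pi.1 contDiff_snd k)
  have hP : ContDiff ℝ ∞ P := (contDiff_snd.sub hs1).add (contDiff_fst.smul hs1)
  have hF : ContDiff ℝ ∞ fun p => fderiv ℝ H' (P p) (Pi.single k 1) :=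
    ((hH.fderiv_right (m := ∞) (by simp)).comp hP).clm_apply contDiff_const
  let u : (Fin d → ℂ) → ℂ := fun y => ∫ t in (0 : ℝ)..1, fderiv ℝ H' (P (t, y)) (Pi.single k 1)
  have hu : ContDiff ℝ ∞ u := contDiff_infty.2 fun n => par_nat n hF
  have key : ∀ y ∈ ball c r, H y = u y * y k := fun y hy => by
    have m0 : y - Pi.single k (y k) ∈ ball c r := (dist_pi_lt_iff hr).2 fun j => by
      rcases eq_or_ne j k with rfl | hj
      · simpa [hc] using hr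
      · simpa [hj] using (dist_pi_lt_iff hr).1 hy j
    have m1 : ∀ t ∈ uIcc (0 : ℝ) 1, P (t, y) ∈ ball c r := fun t ht => by
      simpa [P] using (convex_ball c r).add_smul_sub_mem m0 hy (uIcc_of_le (zero_le_one' ℝ) ▸ ht)
    have := intervalIntegral.integral_eq_sub_of_hasDerivAt (f := fun t => H' (P (t, y)))
      (f' := fun t => fderiv ℝ H' (P (t, y)) (Pi.single k 1) * y k) (a := 0) (b := 1)
      (fun t ht => ?_) ((cont_ii hF.continuous y).mul_const _)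
    · rw [intervalIntegral.integral_mul_const, (he _ (m1 1 (by simp))).self_of_nhds,
        (he _ (m1 0 (by simp))).self_of_nhds, (hb _ (m1 0 (by simp))).2.2.2 (by simp [P])] at this
      simpa [P] using this.symm
    · have h2 : HasDerivAt (fun t : ℝ => P (t, y)) (Pi.single k (y k)) t := by
        simpa [P] using (hasDerivAt_id t).smul_const (Pi.single k (y k) : Fin d → ℂ)
      refine ((cda_diff hH.contDiffAt).hasFDerivAt.comp_hasDerivAt t h2).congr_deriv ?_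
      rw [(he _ (m1 t ht)).fderiv_eq, ((hb _ (m1 t ht)).2.2.1.hasFDerivAt.restrictScalars ℝ).fderiv]
      simp only [ContinuousLinearMap.coe_restrictScalars']
      rw [mul_comm, ← smul_eq_mul, ← map_smul, ← Pi.single_smul, smul_eq_mul, mul_one]
  refine ⟨u, ball c r ∩ {y | u y ≠ 0}, isOpen_ball.inter (isOpen_ne_fun hu.continuous
    continuous_const), ⟨mem_ball_self hr, fun u0 => h0 ?_⟩, hu.contDiffOn,
    fun y hy => ⟨hy.2, key y hy.1⟩⟩
  have h2 := ((cda_diff (hu.contDiffAt (x := c))).hasFDerivAt.mul (hasFDerivAt_apply k c)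
    ).congr_of_eventuallyEq (mem_of_superset (ball_mem_nhds c hr) key)
  have h3 := (h.self_of_nhds.2.1.hasFDerivAt.restrictScalars ℝ).unique h2
  ext1 v
  simpa [u0, hc] using congrArg (· v) h3

variable {N d : ℕ} {ι : Type} {X : Set (Amb N)} {D : ι → Set (Amb N)}

theorem proj_smul {a : ℂ} (ha : a ≠ 0) (u : Fin N → ℂ) : proj (a • u) = proj u := by
  ext p
  have : ∀ i j, a * u i * conj (a * u j) = a * conj a * (u i * conj (u j)) := fun i j => by
    rw [map_mul]; ring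
  simp only [proj, Pi.smul_apply, smul_eq_mul, this, ← Finset.mul_sum]
  exact mul_div_mul_left _ _ (mul_ne_zero ha ((map_ne_zero _).2 ha))

theorem fderiv_proj_smul {u : Fin N → ℂ} (hu : u ≠ 0) (a : ℂ) : fderiv ℝ proj u (a • u) = 0 := by
  have hl : HasDerivAt (fun t : ℝ => (1 + t • a) • u) (a • u) 0 := by
    simpa using (((hasDerivAt_id (0 : ℝ)).smul_const a).const_add 1).smul_const u
  have h1 := (cda_diff (proj_contDiffAt hu)).hasFDerivAt.comp_hasDerivAt_of_eq 0 hl (by simp)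
  refine h1.unique ((hasDerivAt_const _ (proj u)).congr_of_eventuallyEq ?_)
  have : ContinuousAt (fun t : ℝ => 1 + t • a) 0 := by fun_prop
  exact (this.eventually_ne (y := 0) (by simp)).mono fun t ht => proj_smul ht u

theorem chart_mem {O : Set (Fin d → ℂ)} {g : (Fin d → ℂ) → Fin N → ℂ} (h : IsChart X O g)
    {z : Fin d → ℂ} (hz : z ∈ O) : proj (g z) ∈ X := by
  obtain ⟨W, -, e⟩ := h.opn O subset_rfl h.isOpen
  exact (e.subset ⟨z, hz, rfl⟩).1

section ac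
variable (A : AC d X D) {y : Fin d → ℂ}

theorem ac_ev (hy : y ∈ ball A.c A.ρ) : A.ψ =ᶠ[𝓝 y] proj ∘ A.f :=
  mem_of_superset (isOpen_ball.mem_nhds hy) A.ψ_eq

theorem ac_inj (hy : y ∈ ball A.c A.ρ) : Function.Injective (fderiv ℝ A.ψ y) := by
  have h1 := (cda_diff A.φ_smooth.contDiffAt).hasFDerivAt.comp y
    (cda_diff A.ψ_smooth.contDiffAt).hasFDerivAt
  have h2 := h1.unique ((hasFDerivAt_id _).congr_of_eventuallyEq
    (mem_of_superset (isOpen_ball.mem_nhds hy) A.φψ))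
  exact Function.LeftInverse.injective fun v => congrArg (· v) h2

theorem ac_hol (hy : y ∈ ball A.c A.ρ) (v : Fin d → ℂ) :
    fderiv ℝ A.ψ y (Complex.I • v) = JP N (A.ψ y) (fderiv ℝ A.ψ y v) := by
  rw [(ac_ev A hy).fderiv_eq, A.ψ_eq y hy,
    JP_hol (A.f_hol.differentiableAt (isOpen_ball.mem_nhds hy)) (A.f_ne y hy)]

theorem ac_chart : IsChart X (ball A.c A.ρ) A.f := by
  refine ⟨isOpen_ball, A.f_hol, A.f_ne, fun z hz v a hv => ac_inj A hz ?_,
    fun z hz w hw e => ?_, fun O hO hO' => ⟨A.W ∩ A.φ ⁻¹' O,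
      A.W_open.inter (hO'.preimage A.φ_smooth.continuous), Set.ext fun x => ⟨?_, fun hx => ?_⟩⟩⟩
  · rw [(ac_ev A hz).fderiv_eq, ((cda_diff (proj_contDiffAt (A.f_ne z hz))).hasFDerivAt.comp z
      ((A.f_hol.differentiableAt (isOpen_ball.mem_nhds hz)).hasFDerivAt.restrictScalars ℝ)).fderiv]
    simp [hv, fderiv_proj_smul (A.f_ne z hz)]
  · rw [← A.φψ z hz, ← A.φψ w hw, A.ψ_eq z hz, A.ψ_eq w hw]
    exact congrArg A.φ e
  · rintro ⟨z, hz, rfl⟩
    rw [Function.comp_apply, ← A.ψ_eq z (hO hz)]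
    exact ⟨(A.ψ_mem z (hO hz)).1, (A.ψ_mem z (hO hz)).2, by rwa [mem_preimage, A.φψ z (hO hz)]⟩
  · exact ⟨A.φ x, hx.2.2, (A.ψ_eq _ (hO hx.2.2)).symm.trans (A.ψφ x ⟨hx.1, hx.2.1⟩)⟩

/-- transition maps are biholomorphic -/
theorem ac_trans {O : Set (Fin d → ℂ)} {g : (Fin d → ℂ) → Fin N → ℂ} (h : IsChart X O g)
    {z : Fin d → ℂ} (hz : z ∈ O) (hW : proj (g z) ∈ A.W) : ∃ L : (Fin d → ℂ) →L[ℂ] Fin d → ℂ,
      HasFDerivAt (A.φ ∘ proj ∘ g) L z ∧ Function.Surjective L := by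
  have h1 := (cda_diff (A.φ_smooth.contDiffAt.comp z (h.smooth hz))).hasFDerivAt
  have h2 := ((cda_diff A.ψ_smooth.contDiffAt).hasFDerivAt.comp z h1).unique
    ((cda_diff (h.smooth hz)).hasFDerivAt.congr_of_eventuallyEq (by
      filter_upwards [h.isOpen.mem_nhds hz,
        (h.smooth hz).continuousAt.eventually_mem (A.W_open.mem_nhds hW)] with w k1 k2
      exact A.ψφ _ ⟨chart_mem h k1, k2⟩))
  have h3 : ∀ v, fderiv ℝ A.ψ (A.φ (proj (g z))) (fderiv ℝ (A.φ ∘ proj ∘ g) z v) =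
      fderiv ℝ (proj ∘ g) z v := fun v => congrArg (· v) h2
  obtain ⟨L, hL⟩ := exists_cplx (fderiv ℝ (A.φ ∘ proj ∘ g) z) fun v =>
    ac_inj A (A.φ_mem _ hW) (by
      rw [h3, ac_hol A (A.φ_mem _ hW), h3, A.ψφ _ ⟨chart_mem h hz, hW⟩,
        JP_hol (h.hol.differentiableAt (h.isOpen.mem_nhds hz)) (h.ne z hz)])
  refine ⟨L, hasFDerivAt_of_restrictScalars ℝ h1 hL,
    (LinearMap.injective_iff_surjective (f := L.toLinearMap)).1 fun v w e => h.fderiv_inj hz ?_⟩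
  rw [← h3, ← h3, ← hL]
  exact congrArg _ e

theorem zc_smooth (κ : ι → Option (Fin d)) (i : ι) : ContDiff ℝ ∞ (zc κ i) := by
  unfold zc
  cases κ i with
  | none => exact contDiff_const
  | some k => exact contDiff_apply ℝ ℂ k

theorem ac_memD (i : ι) (hy : y ∈ ball A.c A.ρ) : A.ψ y ∈ D i ↔ zc A.κ i y = 0 := by
  rw [A.memD i y hy, zc]
  cases A.κ i <;> simp

theorem ac_eqn (i : ι) : Eqn d X (D i) A.W (zc A.κ i ∘ A.φ) := by
  refine ⟨((zc_smooth A.κ i).comp A.φ_smooth).contDiffOn, fun O g h z hz hW => ?_⟩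
  obtain ⟨L, h1, h2⟩ := ac_trans A h hz hW
  have h3 := ac_memD A i (A.φ_mem _ hW)
  rw [A.ψφ _ ⟨chart_mem h hz, hW⟩] at h3
  rw [h3]
  unfold zc
  cases A.κ i with
  | none => exact ⟨differentiableAt_const (1 : ℂ), Iff.rfl, fun k => (one_ne_zero k).elim⟩
  | some k =>
    have h4 := (hasFDerivAt_apply (𝕜 := ℂ) k _).comp z h1
    refine ⟨h4.differentiableAt, Iff.rfl, fun _ h0 => ?_⟩
    obtain ⟨v, hv⟩ := h2 (Pi.single k 1)
    simpa [hv] using congrArg (· v) (h4.fderiv.symm.trans h0)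

theorem ac_unit (i : ι) {O : Set (Amb N)} (hO : IsOpen O) (hx : A.ψ A.c ∈ O) {h : Amb N → ℂ}
    (hh : Eqn d X (D i) O h) : ∃ (u : (Fin d → ℂ) → ℂ) (O' : Set (Fin d → ℂ)), IsOpen O' ∧
      A.c ∈ O' ∧ ContDiffOn ℝ ∞ u O' ∧ ∀ y ∈ O', u y ≠ 0 ∧ h (A.ψ y) = u y * zc A.κ i y := by
  have hc := mem_ball_self (x := A.c) A.ρ_pos
  have h1 : ∀ y ∈ ball A.c A.ρ ∩ A.ψ ⁻¹' O, ContDiffAt ℝ ∞ (h ∘ A.ψ) y ∧
      DifferentiableAt ℂ (h ∘ A.ψ) y ∧ (zc A.κ i y = 0 ↔ h (A.ψ y) = 0) ∧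
      (zc A.κ i y = 0 → fderiv ℂ (h ∘ A.ψ) y ≠ 0) := fun y hy => by
    have e : h ∘ A.ψ =ᶠ[𝓝 y] h ∘ proj ∘ A.f := (ac_ev A hy.1).fun_comp h
    have := hh.2 _ _ (ac_chart A) y hy.1 (A.ψ_eq y hy.1 ▸ hy.2)
    rw [← A.ψ_eq y hy.1, ac_memD A i hy.1, ← e.fderiv_eq] at this
    exact ⟨(hh.1.contDiffAt (hO.mem_nhds hy.2)).comp y A.ψ_smooth.contDiffAt,
      this.1.congr_of_eventuallyEq e, this.2⟩
  have h2 := isOpen_ball.inter (hO.preimage A.ψ_smooth.continuous) (s := ball A.c A.ρ)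
  unfold zc at h1 ⊢
  cases hk : A.κ i with
  | none =>
    rw [hk] at h1
    exact ⟨h ∘ A.ψ, _, h2, ⟨hc, hx⟩, fun y hy => (h1 y hy).1.contDiffWithinAt,
      fun y hy => ⟨fun k => one_ne_zero ((h1 y hy).2.2.1.2 k), (mul_one _).symm⟩⟩
  | some k =>
    rw [hk] at h1
    exact hadamard (A.κ_c i k hk) (mem_of_superset (h2.mem_nhds ⟨hc, hx⟩) fun y hy =>
      ⟨(h1 y hy).1, (h1 y hy).2.1, (h1 y hy).2.2.1.1⟩) ((h1 _ ⟨hc, hx⟩).2.2.2 (A.κ_c i k hk))

end ac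

end Pool.Agent.PWD
end
end
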