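import Pool.Agent.K.MP_65ad7c_ag.C66
import Pool.Agent.K.MP_65ad7c_ag.C91

/-! From classes in the complexes `K` to forms on projective neighbourhoods. -/

open Set Filter Topology TopologicalSpace
open scoped ContDiff
open Pool.Agent.HT (Form Amb cj pull)

noncomputable section
namespace Pool.Agent.PWD.Data.IsModel

variable {R : Type} [CommRing R] [Algebra ℂ R] {Y : Set (R → ℂ)} {a d m n : ℕ} {Q : Data Y a}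
  {S : (R → ℂ) → (R → ℂ) → Prop} {U : ℕ → Opens Y} (hQ : Q.IsModel S d m U)
  (hG : (Q.C d).Glob Q.X)
include hQ hG

theorem s0 {x : (Q.C d).K Q.X Q.T Q.al Q.be} (hx : x ∈ (Q.C d).kZ Q.X Q.T Q.al Q.be n) :
    ∃ ε > 0, ∃ (η : Form (Amb Q.M) n) (hs : Sm (St Q.X Q.D Q.T \ Off Q.D Q.al) η),
      Q.Adm (Q.PZ ε) η ∧ Van (Q.pre (Q.PZ ε)) (extDeriv η) ∧
      x - (Q.C d).kf Q.X Q.T Q.al Q.be η hs ∈ (Q.C d).kB Q.X Q.T Q.al Q.be n := by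
  obtain ⟨η, hs, G, G', o1, o2, h1, h2, h3, h4, h5, h6⟩ := hG.surj hQ.disjT' hQ.disjB hx
  obtain ⟨ε, hε, h7⟩ := hQ.PZ_in (o1.inter (o2.union (hQ.closedU Q.be).isOpen_compl))
    (fun y hy => ⟨h1 hy, (em _).imp (fun k => h2 ⟨hy, k⟩) id⟩)
  exact ⟨ε, hε, η, hs, ⟨h3.anti fun y hy => hy.1, G', o2,
    fun y hy => (h7 hy.1).2.resolve_right fun k => k hy.2,
    h5.anti fun y hy => ⟨⟨hy.1.1.1, hy.2⟩, hy.1.1.2⟩⟩,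
    h4.anti fun y hy => ⟨⟨hy.1.1, (h7 hy).1⟩, hy.1.2⟩, h6⟩

theorem s1 {x : (Q.C d).K Q.X Q.T Q.al (insert Q.h0 Q.be)}
    (hx : x ∈ (Q.C d).kZ Q.X Q.T Q.al (insert Q.h0 Q.be) n) :
    ∃ ε > 0, ∃ (η : Form (Amb Q.M) n) (hs : Sm (St Q.X Q.D Q.T \ Off Q.D Q.al) η),
      Q.Adm (Q.PZ ε) η ∧ Van (Q.pre (Q.PZ ε)) (extDeriv η) ∧ Van (Q.pre (Q.PH ε)) η ∧
      x - (Q.C d).kf Q.X Q.T Q.al (insert Q.h0 Q.be) η hs ∈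
        (Q.C d).kB Q.X Q.T Q.al (insert Q.h0 Q.be) n := by
  obtain ⟨η, hs, G, G', o1, o2, h1, h2, h3, h4, h5, h6⟩ := hG.surj hQ.disjT' hQ.disjB' hx
  have e1 : Off Q.D Q.be ⊆ Off Q.D (insert Q.h0 Q.be) := off_mono _ (Finset.subset_insert _ _)
  have e2 : Q.D Q.h0 ⊆ Off Q.D (insert Q.h0 Q.be) := fun y hy =>
    mem_biUnion (Finset.mem_insert_self Q.h0 Q.be) hy
  obtain ⟨ε, hε, h7⟩ := hQ.PZ_in (o1.inter (o2.union (hQ.closedU Q.be).isOpen_compl))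
    (fun y hy => ⟨h1 hy, (em _).imp (fun k => h2 ⟨hy, e1 k⟩) id⟩)
  obtain ⟨δ, hδ, h8⟩ := hQ.PH_in o2 (fun y hy => h2 ⟨hy.1, e2 hy.2⟩)
  have h9 := (pre_mono (Q.PZ_mono (min_le_left ε δ))).trans h7
  have h10 := (pre_mono (Q.PH_mono (min_le_right ε δ))).trans h8
  exact ⟨min ε δ, lt_min hε hδ, η, hs, ⟨h3.anti fun y hy => hy.1, G', o2,
    fun y hy => (h9 hy.1).2.resolve_right fun k => k hy.2,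
    h5.anti fun y hy => ⟨⟨hy.1.1.1, hy.2⟩, hy.1.1.2⟩⟩,
    h4.anti fun y hy => ⟨⟨hy.1.1, (h9 hy).1⟩, hy.1.2⟩,
    h5.anti fun y hy => ⟨⟨hy.1.1, h10 hy⟩, hy.1.2⟩, h6⟩

theorem s4 {x : (Q.C d).K Q.X ∅ (Q.al ∪ Q.be) ∅} (hx : x ∈ (Q.C d).kZ Q.X ∅ (Q.al ∪ Q.be) ∅ n) :
    ∃ (η : Form (Amb Q.M) n) (hs : Sm (St Q.X Q.D ∅ \ Off Q.D (Q.al ∪ Q.be)) η),
      Q.Adm (U 1) η ∧ Van (Q.pre (U 1)) (extDeriv η) ∧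
      x - (Q.C d).kf Q.X ∅ (Q.al ∪ Q.be) ∅ η hs ∈ (Q.C d).kB Q.X ∅ (Q.al ∪ Q.be) ∅ n := by
  obtain ⟨η, hs, G, G', -, -, h1, -, h3, h4, -, h6⟩ :=
    hG.surj (Finset.disjoint_empty_left _) (Finset.disjoint_empty_left _) hx
  rw [St_empty] at h1
  have e := hQ.pre_U1
  refine ⟨η, hs, hQ.adm_of_le subset_rfl (h3.anti e.subset), h4.anti fun y hy => ?_, h6⟩
  have k := e.subset hy
  exact ⟨⟨k.1, h1 k.1⟩, k.2⟩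

variable (hY : IsVar Y) {I : Cx Y} {one : Sec I 0 (U 1)}
  {u : ∀ n W, Form (Amb Q.M) n →ₗ[ℂ] Sec I n W} (hu : Q.IsNat one u) {η : Form (Amb Q.M) n} {ε : ℝ}

theorem j3 (hε : 0 < ε) (h : Q.Adm (Q.PZ ε ⊓ U 1 : Opens Y) η)
    (hd : Van (Q.pre (Q.PZ ε ⊓ U 1 : Opens Y)) (extDeriv η))
    (hs : Sm (St Q.X Q.D Q.T \ Off Q.D (Q.al ∪ Q.be)) η)
    (hb : (Q.C d).kf Q.X Q.T (Q.al ∪ Q.be) ∅ η hs ∈ (Q.C d).kB Q.X Q.T (Q.al ∪ Q.be) ∅ n) :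
    ∃ ε' > 0, ε' ≤ ε ∧ ∀ h' : Q.Adm (Q.PZ ε' ⊓ U 1 : Opens Y) η,
      (hQ.dr hY hu).Ex ∅ (cl η h') := by
  obtain ⟨G, o1, h1, -, e⟩ := hQ.PZ_out hε
  obtain ⟨G₁, G₁', o2, -, h2, -, h3⟩ := hG.inj (η := η) hQ.disjT (Finset.disjoint_empty_left _) o1
    isOpen_empty h1 (fun y hy => by have k := hy.2; rw [Off_empty] at k; exact k)
    (h.1.anti e.subset) (hd.anti e.subset) (.of_zero fun y hy => hy.1.2.elim) hs hb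
  obtain ⟨δ, hδ, h4⟩ := hQ.PZ_in o2 h2
  have h5 : Q.pre (Q.PZ (min ε δ) ⊓ U 1 : Opens Y) ⊆ (Q.X ∩ G₁) \ Off Q.D (Q.al ∪ Q.be) :=
    fun y hy => ⟨⟨hy.1.1, h4 ⟨hy.1, Q.PZ_mono (min_le_right ε δ) hy.2.1⟩⟩,
      (hQ.pre_U1.subset ⟨hy.1, hy.2.2⟩).2⟩
  refine ⟨min ε δ, lt_min hε hδ, min_le_left _ _, fun h' => ?_⟩
  cases n with
  | zero => exact (hQ.dr_ex_zero hY hu h').2 (Van.anti h3 h5)
  | succ n =>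
    obtain ⟨ζ, k1, -, k3⟩ := h3
    exact (hQ.dr_ex_succ hY hu h').2 ⟨ζ, hQ.adm_of_le (fun _ hy => hy.2) (k1.anti h5),
      fun _ _ k => k.elim, k3.anti h5⟩

theorem j2 (hε : 0 < ε) (h : Q.Adm (Q.PZ ε ⊓ U 1 : Opens Y) η)
    (hd : Van (Q.pre (Q.PZ ε ⊓ U 1 : Opens Y)) (extDeriv η))
    (hv : Van (Q.pre (Q.PH ε ⊓ U 1 : Opens Y)) η)
    (hs : Sm (St Q.X Q.D Q.T \ Off Q.D (Q.al ∪ Q.be)) η)
    (hb : (Q.C d).kf Q.X Q.T (Q.al ∪ Q.be) {Q.h0} η hs ∈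
      (Q.C d).kB Q.X Q.T (Q.al ∪ Q.be) {Q.h0} n) :
    ∃ ε' > 0, ε' ≤ ε ∧ ∀ h' : Q.Adm (Q.PZ ε' ⊓ U 1 : Opens Y) η,
      (hQ.dr hY hu).Ex (Q.PH ε') (cl η h') := by
  obtain ⟨G, o1, h1, -, e⟩ := hQ.PZ_out hε
  obtain ⟨G', o1', h1', -, e'⟩ := hQ.PH_out hε
  have e0 : Off Q.D {Q.h0} = Q.D Q.h0 := Finset.set_biUnion_singleton _ _
  obtain ⟨G₁, G₁', o2, o2', h2, h2', h3⟩ := hG.inj (η := η) hQ.disjT hQ.disjH o1 o1' h1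
    (fun y hy => h1' ⟨hy.1, e0.subset hy.2⟩)
    (h.1.anti e.subset) (hd.anti e.subset) (hv.anti e'.subset) hs hb
  obtain ⟨δ, hδ, h4⟩ := hQ.PZ_in o2 h2
  obtain ⟨δ', hδ', h4'⟩ := hQ.PH_in o2' (fun y hy => h2' ⟨hy.1, e0.superset hy.2⟩)
  have l1 : min ε (min δ δ') ≤ δ := (min_le_right _ _).trans (min_le_left _ _)
  have l2 : min ε (min δ δ') ≤ δ' := (min_le_right _ _).trans (min_le_right _ _)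
  have h5 : Q.pre (Q.PZ (min ε (min δ δ')) ⊓ U 1 : Opens Y) ⊆
      (Q.X ∩ G₁) \ Off Q.D (Q.al ∪ Q.be) :=
    fun y hy => ⟨⟨hy.1.1, h4 ⟨hy.1, Q.PZ_mono l1 hy.2.1⟩⟩, (hQ.pre_U1.subset ⟨hy.1, hy.2.2⟩).2⟩
  refine ⟨min ε (min δ δ'), lt_min hε (lt_min hδ hδ'), min_le_left _ _, fun h' => ?_⟩
  cases n with
  | zero => exact (hQ.dr_ex_zero hY hu h').2 (Van.anti h3 h5)
  | succ n =>
    obtain ⟨ζ, k1, k2, k3⟩ := h3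
    refine (hQ.dr_ex_succ hY hu h').2 ⟨ζ, hQ.adm_of_le (fun _ hy => hy.2) (k1.anti h5),
      (hQ.dr_van_open hY hu (Q.PH _).isOpen _).2 (k2.anti fun y hy => ?_), k3.anti h5⟩
    exact ⟨⟨hy.1.1, h4' ⟨hy.1, Q.PH_mono l2 hy.2.2⟩⟩, (hQ.pre_U1.subset ⟨hy.1, hy.2.1.2⟩).2⟩

end Pool.Agent.PWD.Data.IsModel
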