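import Pool.Agent.K.MP_65ad7c_ag.C66

/-! From forms near the section to cocycles and coboundaries of the complexes `K`. -/

open Set Filter Topology TopologicalSpace
open scoped ContDiff
open Pool.Agent.HT (Form Amb cj pull)

noncomputable section
namespace Pool.Agent.PWD.Data.IsModel

variable {R : Type} [CommRing R] [Algebra ℂ R] {Y : Set (R → ℂ)} {a d m n : ℕ} {Q : Data Y a}
  {S : (R → ℂ) → (R → ℂ) → Prop} {U : ℕ → Opens Y} {O : Opens Y} {η : Form (Amb Q.M) n}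
  (hQ : Q.IsModel S d m U)
include hQ

theorem sub0_DFg (hO : Q.Z ⊆ O) : St Q.X Q.D Q.T \ Off Q.D Q.al ⊆ Q.pre O := by
  rw [← hQ.pre_Z]
  exact pre_mono hO

theorem sub3_DFg (hO : Q.Z ⊆ O) :
    St Q.X Q.D Q.T \ Off Q.D (Q.al ∪ Q.be) ⊆ Q.pre (O ⊓ U 1 : Opens Y) := by
  rw [← hQ.pre_ZU]
  exact pre_mono (inter_subset_inter_left _ hO)

theorem sub4_DFg : St Q.X Q.D ∅ \ Off Q.D (Q.al ∪ Q.be) ⊆ Q.pre (U 1) := by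
  rw [St_empty, hQ.pre_U1]

theorem vanE_DFg (hO : Q.Z ⊆ O) (h : Q.Adm O η) :
    Van ((St Q.X Q.D Q.T ∩ Off Q.D Q.be) \ Off Q.D Q.al) η := by
  obtain ⟨-, O2, -, h1, h2⟩ := h
  refine h2.anti fun x hx => ?_
  have hx' : x ∈ Q.pre O := hQ.sub0_DFg hO ⟨hx.1.1, hx.2⟩
  exact ⟨hx', h1 ⟨hx', hx.1.2⟩⟩

omit [CommRing R] [Algebra ℂ R] hQ in
theorem van0_DFg (A B : Set (Amb Q.M)) : Van ((A ∩ Off Q.D ∅) \ B) η :=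
  Van.of_zero fun x hx => by
    rw [Off_empty] at hx
    exact hx.1.2.elim

theorem sm0 (hO : Q.Z ⊆ O) (h : Q.Adm O η) : Sm (St Q.X Q.D Q.T \ Off Q.D Q.al) η :=
  h.1.anti (hQ.sub0_DFg hO)
theorem sm3 (hO : Q.Z ⊆ O) (h : Q.Adm (O ⊓ U 1 : Opens Y) η) :
    Sm (St Q.X Q.D Q.T \ Off Q.D (Q.al ∪ Q.be)) η := h.1.anti (hQ.sub3_DFg hO)
theorem sm4 (h : Q.Adm (U 1) η) : Sm (St Q.X Q.D ∅ \ Off Q.D (Q.al ∪ Q.be)) η :=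
  h.1.anti hQ.sub4_DFg

theorem z0 (hO : Q.Z ⊆ O) (h : Q.Adm O η) (hd : Van (Q.pre O) (extDeriv η))
    (hs : Sm (St Q.X Q.D Q.T \ Off Q.D Q.al) η) :
    (Q.C d).kf Q.X Q.T Q.al Q.be η hs ∈ (Q.C d).kZ Q.X Q.T Q.al Q.be n :=
  Ctx.kf_Z (C := Q.C d) hs (hd.anti (hQ.sub0_DFg hO)) (hQ.vanE_DFg hO h)

theorem z4 (hd : Van (Q.pre (U 1)) (extDeriv η))
    (hs : Sm (St Q.X Q.D ∅ \ Off Q.D (Q.al ∪ Q.be)) η) :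
    (Q.C d).kf Q.X ∅ (Q.al ∪ Q.be) ∅ η hs ∈ (Q.C d).kZ Q.X ∅ (Q.al ∪ Q.be) ∅ n :=
  Ctx.kf_Z (C := Q.C d) hs (hd.anti hQ.sub4_DFg) (van0_DFg _ _)

variable (hY : IsVar Y) {I : Cx Y} {one : Sec I 0 (U 1)}
  {u : ∀ n W, Form (Amb Q.M) n →ₗ[ℂ] Sec I n W} (hu : Q.IsNat one u)

theorem z1 (hO : Q.Z ⊆ O) (h : Q.Adm O η) (hd : Van (Q.pre O) (extDeriv η))
    (hv : (hQ.dr hY hu).Van Q.H (cl η h)) (hs : Sm (St Q.X Q.D Q.T \ Off Q.D Q.al) η) :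
    (Q.C d).kf Q.X Q.T Q.al (insert Q.h0 Q.be) η hs ∈
      (Q.C d).kZ Q.X Q.T Q.al (insert Q.h0 Q.be) n := by
  refine Ctx.kf_Z (C := Q.C d) hs (hd.anti (hQ.sub0_DFg hO)) ?_
  show Van ((St Q.X Q.D Q.T ∩ Off Q.D (insert Q.h0 Q.be)) \ Off Q.D Q.al) η
  have hsub : (St Q.X Q.D Q.T ∩ Off Q.D (insert Q.h0 Q.be)) \ Off Q.D Q.al ⊆ Q.pre O :=
    fun x hx => hQ.sub0_DFg hO ⟨hx.1.1, hx.2⟩
  obtain ⟨O3, -, h3, h4⟩ := (hQ.dr_van hY hu h).1 hv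
  refine Van.loc fun x hx => ?_
  have hx2 : x ∈ Q.D Q.h0 ∪ Off Q.D Q.be := by
    have := hx.1.2
    rwa [Off, Finset.set_biUnion_insert] at this
  rcases hx2 with hx2 | hx2
  · have hH : x ∈ Q.pre Q.H := by
      rw [hQ.pre_H]
      exact ⟨⟨hx.1.1, hx2⟩, hx.2⟩
    have h5 : x ∈ Q.pre O3 := ⟨hH.1, h3 ⟨(hsub hx).2, hH.2⟩⟩
    exact ⟨_, hQ.pre_ev O3.isOpen h5, h4.anti fun y hy => hy.2 hy.1.1.1.1⟩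
  · obtain ⟨G, hG, h5⟩ := h.near (hsub hx) hx2
    exact ⟨G, hG, h5.anti (inter_subset_inter_left _ hsub)⟩

theorem b0 (hO : Q.Z ⊆ O) (h : Q.Adm O η) (he : (hQ.dr hY hu).Ex ∅ (cl η h))
    (hs : Sm (St Q.X Q.D Q.T \ Off Q.D Q.al) η) :
    (Q.C d).kf Q.X Q.T Q.al Q.be η hs ∈ (Q.C d).kB Q.X Q.T Q.al Q.be n := by
  refine Ctx.kf_B (C := Q.C d) hs ?_
  cases n with
  | zero => exact ((hQ.dr_ex_zero hY hu h).1 he).anti (hQ.sub0_DFg hO)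
  | succ n =>
    obtain ⟨ζ, hζ, -, h2⟩ := (hQ.dr_ex_succ hY hu h).1 he
    exact ⟨ζ, hQ.sm0 hO hζ, hQ.vanE_DFg hO hζ, h2.anti (hQ.sub0_DFg hO)⟩

theorem b2 (hO : Q.Z ⊆ O) (h : Q.Adm (O ⊓ U 1 : Opens Y) η) (he : (hQ.dr hY hu).Ex Q.H (cl η h))
    (hs : Sm (St Q.X Q.D Q.T \ Off Q.D (Q.al ∪ Q.be)) η) :
    (Q.C d).kf Q.X Q.T (Q.al ∪ Q.be) {Q.h0} η hs ∈ (Q.C d).kB Q.X Q.T (Q.al ∪ Q.be) {Q.h0} n := by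
  refine Ctx.kf_B (C := Q.C d) hs ?_
  cases n with
  | zero => exact ((hQ.dr_ex_zero hY hu h).1 he).anti (hQ.sub3_DFg hO)
  | succ n =>
    obtain ⟨ζ, hζ, h1, h2⟩ := (hQ.dr_ex_succ hY hu h).1 he
    obtain ⟨O3, -, h3, h4⟩ := (hQ.dr_van hY hu hζ).1 h1
    refine ⟨ζ, hQ.sm3 hO hζ, h4.anti fun x hx => ?_, h2.anti (hQ.sub3_DFg hO)⟩
    have hx2 : x ∈ Q.D Q.h0 := by
      have : x ∈ Off Q.D {Q.h0} := hx.1.2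
      rwa [Off, Finset.set_biUnion_singleton] at this
    have hH : x ∈ Q.pre (Q.H ∩ U 1) := by
      rw [hQ.pre_HU]
      exact ⟨⟨hx.1.1, hx2⟩, hx.2⟩
    exact ⟨hH.1, h3 ⟨⟨hO (Q.H_Z hH.2.1), hH.2.2⟩, hH.2.1⟩⟩

theorem b3 (hO : Q.Z ⊆ O) (h : Q.Adm (O ⊓ U 1 : Opens Y) η) (he : (hQ.dr hY hu).Ex ∅ (cl η h))
    (hs : Sm (St Q.X Q.D Q.T \ Off Q.D (Q.al ∪ Q.be)) η) :
    (Q.C d).kf Q.X Q.T (Q.al ∪ Q.be) ∅ η hs ∈ (Q.C d).kB Q.X Q.T (Q.al ∪ Q.be) ∅ n := by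
  refine Ctx.kf_B (C := Q.C d) hs ?_
  cases n with
  | zero => exact ((hQ.dr_ex_zero hY hu h).1 he).anti (hQ.sub3_DFg hO)
  | succ n =>
    obtain ⟨ζ, hζ, -, h2⟩ := (hQ.dr_ex_succ hY hu h).1 he
    exact ⟨ζ, hQ.sm3 hO hζ, van0_DFg _ _, h2.anti (hQ.sub3_DFg hO)⟩

end Pool.Agent.PWD.Data.IsModel
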