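import Pool.Agent.K.MP_65ad7c_ag.C45
import Pool.Agent.K.MP_65ad7c_ag.C68

/-! The cone of `u` is locally exact on the open stratum. -/

open Set TopologicalSpace CategoryTheory

noncomputable section
namespace Pool.Agent.PWD.SY

variable {Y : Type} [TopologicalSpace Y] {U : ℕ → Opens Y} {I : Cx Y} {one : Sec I 0 (U 1)}
  (C : DR one) {n : ℕ} {W W' : Opens Y} {B B' : Set Y}

theorem van_iff {x : (C.A n).obj W} : C.Van B x ↔ x ∈ (van (C.A n) B).sub W := Iff.rfl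

theorem van_sing (x : (C.A n).obj W) : C.Van (U 1 : Set Y)ᶜ x :=
  fun y hy hB => C.zero n W x y hy hB

theorem u_supp {x : (C.A n).obj W} (hx : C.Van B x) : Supp Bᶜ (C.u n W x) := by
  intro y hy hB
  obtain ⟨O, h, hyO, e⟩ := near_bot.1 (hx y hy (not_not.1 hB))
  exact ⟨O, h, hyO, by rw [C.u_res, e, map_zero]⟩

theorem u_closed {x : (C.A n).obj W} (hx : (C.d n).app W x = 0) :
    dd n (n + 1) (C.u n W x) = 0 := by
  rw [C.u_d, hx, map_zero]

theorem res_closed {x : (C.A n).obj W} (hx : (C.d n).app W x = 0) (h : W' ≤ W) :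
    (C.d n).app W' ((C.A n).res h x) = 0 := by
  rw [← (C.d n).nat, hx, map_zero]

theorem ex_bd {x : (C.A n).obj W} (hx : C.Ex B x) : Bd Bᶜ (C.u n W x) := by
  cases n with
  | zero =>
    have e : x = 0 := hx
    rw [e, map_zero]
    exact bd_zero _
  | succ n =>
    obtain ⟨z, hz, e⟩ := hx
    exact bd_succ_iff.2 ⟨C.u n W z, u_supp C hz, by rw [C.u_d, e]⟩

theorem ex_mono {x : (C.A n).obj W} (hx : C.Ex B x) (h : B' ⊆ B) : C.Ex B' x := by
  cases n with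
  | zero => exact hx
  | succ n =>
    obtain ⟨z, hz, e⟩ := hx
    exact ⟨z, fun y hy hB => hz y hy (h hB), e⟩

theorem rel_iff {Z : Set Y} {x : (C.A n).obj W} {α : Sec I n ⊤} : C.Rel Z x α ↔
    ∃ (O : Opens Y) (h : O ≤ W), Z ⊆ O ∧
      Bd univ (rs le_top α - C.u n O ((C.A n).res h x)) :=
  ⟨fun ⟨O, h, k, t, hZ, e⟩ => ⟨O, h, hZ, k, t, supp_univ t, e.symm⟩,
    fun ⟨O, h, hZ, k, t, _, e⟩ => ⟨O, h, k, t, hZ, e.symm⟩⟩

/-- terms of the cone -/
def cX : ℕ → PSh ℂ Y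
  | 0 => C.A 0
  | n + 1 => (C.A (n + 1)).prod (IP I n)

/-- differential of the cone -/
def cD : ∀ n, Hom (cX C n) (cX C (n + 1))
  | 0 => ⟨fun W => ((C.d 0).app W).prod (C.u 0 W), fun h x =>
      Prod.ext ((C.d 0).nat h x) (C.u_res 0 _ _ h x)⟩
  | n + 1 => ⟨fun W => (((C.d (n + 1)).app W).comp (LinearMap.fst ℂ _ (Sec I n W))).prod
      ((C.u (n + 1) W).comp (LinearMap.fst ℂ _ (Sec I n W)) -
        (dd n (n + 1)).comp (LinearMap.snd ℂ ((C.A (n + 1)).obj W) (Sec I n W))), fun h x =>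
      Prod.ext ((C.d (n + 1)).nat h x.1) ((map_sub (rs h) _ _).trans
        (congrArg₂ (· - ·) (C.u_res (n + 1) _ _ h x.1) (rs_d h x.2)))⟩

theorem cD_zero (a : (C.A 0).obj W) :
    (cD C 0).app W a = (((C.d 0).app W a, C.u 0 W a) : (C.A 1).obj W × Sec I 0 W) := rfl

theorem cD_succ (a : (C.A (n + 1)).obj W) (b : Sec I n W) :
    (cD C (n + 1)).app W (a, b) = (((C.d (n + 1)).app W a, C.u (n + 1) W a - dd n (n + 1) b) :
      (C.A (n + 2)).obj W × Sec I (n + 1) W) := rfl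

theorem cX_res (h : W' ≤ W) (a : (C.A (n + 1)).obj W) (b : Sec I n W) :
    (cX C (n + 1)).res h (a, b) = (((C.A (n + 1)).res h a, rs h b) :
      (C.A (n + 1)).obj W' × Sec I n W') := rfl

theorem cD_cD (n : ℕ) (W : Opens Y) (x : (cX C n).obj W) :
    (cD C (n + 1)).app W ((cD C n).app W x) = 0 := by
  cases n with
  | zero =>
    refine (cD_succ C ((C.d 0).app W x) (C.u 0 W x)).trans (Prod.ext (C.d_d 0 W x) ?_)
    exact sub_eq_zero.2 (C.u_d 0 W x).symm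
  | succ n =>
    obtain ⟨a, b⟩ := x
    refine (cD_succ C ((C.d (n + 1)).app W a) (C.u (n + 1) W a - dd n (n + 1) b)).trans
      (Prod.ext (C.d_d (n + 1) W a) ?_)
    have e : C.u (n + 1 + 1) W ((C.d (n + 1)).app W a) -
        dd (n + 1) (n + 1 + 1) (C.u (n + 1) W a - dd n (n + 1) (show Sec I n W from b)) = 0 := by
      rw [map_sub, d_d, C.u_d, sub_zero, sub_self]
    exact e

theorem dyc0_ex0 (hI : IsIC U I one) (x : (C.A 0).obj W) (h1 : (C.d 0).app W x = 0)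
    (h2 : C.u 0 W x = 0) {y : Y} (hy : y ∈ W) (hU : y ∈ U 1) :
    (⊥ : Sub (C.A 0)).Near x y := by
  obtain ⟨c, hc⟩ := C.poin0 (W ⊓ U 1) inf_le_right ((C.A 0).res inf_le_left x)
    (res_closed C h1 _) y ⟨hy, hU⟩
  obtain ⟨O, h, hyO, e⟩ := near_bot.1 hc
  rw [map_sub, map_smul, (C.A 0).res_res, (C.A 0).res_res, sub_eq_zero] at e
  have e2 : c • rs (h.trans inf_le_right) one = 0 := by
    have e3 := congrArg (C.u 0 O) e
    rw [map_smul, ← C.u_res, ← C.u_res, h2, map_zero, C.u_e] at e3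
    exact e3.symm
  have c0 : c = 0 := by
    by_contra c0
    refine hI.ne y hU ⟨O, h.trans inf_le_right, 0, 0, hyO, supp_zero _, ?_⟩
    rw [map_zero]
    exact ((smul_eq_zero.1 e2).resolve_left c0).symm
  rw [c0, zero_smul] at e
  exact near_bot.2 ⟨O, h.trans inf_le_left, hyO, e⟩

theorem dyc0_prim (a : (C.A (n + 1)).obj W) (b : Sec I n W) (h1 : (C.d (n + 1)).app W a = 0)
    (h2 : C.u (n + 1) W a - dd n (n + 1) b = 0) {y : Y} (hy : y ∈ W) :
    ∃ (O : Opens Y) (h : O ≤ W), y ∈ O ∧ ∃ a' : (C.A n).obj O,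
      (C.d n).app O a' = (C.A (n + 1)).res h a ∧ dd n (n + 1) (rs h b - C.u n O a') = 0 := by
  obtain ⟨O, h, hyO, a', -, e⟩ := near_map.1 (C.poin n W a h1 y hy)
  refine ⟨O, h, hyO, a', e, ?_⟩
  rw [map_sub, ← rs_d, C.u_d, e, ← C.u_res, ← sub_eq_zero.1 h2, sub_self]

theorem dyc0_zero (hI : IsIC U I one) {O : Opens Y} (h : O ≤ W) (a : (C.A 1).obj W)
    (b : Sec I 0 W) (a' : (C.A 0).obj O) (ha : (C.d 0).app O a' = (C.A 1).res h a)
    (hb : dd 0 1 (rs h b - C.u 0 O a') = 0) {y : Y} (hy : y ∈ O) (hU : y ∈ U 1) :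
    ∃ (O' : Opens Y) (h' : O' ≤ W), y ∈ O' ∧ ∃ z : (C.A 0).obj O',
      (C.d 0).app O' z = (C.A 1).res h' a ∧ C.u 0 O' z = rs h' b := by
  obtain ⟨c, O', h', k, t, hy', -, e⟩ := hI.norm (O ⊓ U 1) inf_le_right
    (rs inf_le_left (rs h b - C.u 0 O a'))
    ⟨supp_univ _, by rw [← rs_d, hb, map_zero]⟩ y ⟨hy, hU⟩
  rw [d_ne (Nat.succ_ne_zero k), map_sub, map_smul, rs_comp, rs_comp, map_sub, rs_comp] at e
  refine ⟨O', (h'.trans inf_le_left).trans h, hy', (C.A 0).res (h'.trans inf_le_left) a' +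
    c • (C.A 0).res (h'.trans inf_le_right) C.e, ?_, ?_⟩
  · rw [map_add, map_smul, res_closed C C.de, smul_zero, add_zero, ← (C.d 0).nat, ha,
      (C.A 1).res_res]
  · rw [map_add, map_smul, ← C.u_res, ← C.u_res, C.u_e]
    rw [eq_comm, sub_sub, sub_eq_zero] at e
    exact e.symm

theorem dyc0_succ (hI : IsIC U I one) {O : Opens Y} (h : O ≤ W) (a : (C.A (n + 2)).obj W)
    (b : Sec I (n + 1) W) (a' : (C.A (n + 1)).obj O)
    (ha : (C.d (n + 1)).app O a' = (C.A (n + 2)).res h a)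
    (hb : dd (n + 1) (n + 2) (rs h b - C.u (n + 1) O a') = 0) {y : Y} (hy : y ∈ O)
    (hU : y ∈ U 1) :
    ∃ (O' : Opens Y) (h' : O' ≤ W), y ∈ O' ∧ ∃ (z : (C.A (n + 1)).obj O') (t : Sec I n O'),
      (C.d (n + 1)).app O' z = (C.A (n + 2)).res h' a ∧
        C.u (n + 1) O' z - dd n (n + 1) t = rs h' b := by
  obtain ⟨O', h', k, t, hy', ht, e⟩ := hI.supp 0 (n + 1) O (rs h b - C.u (n + 1) O a')
    (Nat.succ_pos n) (Nat.zero_le _) ⟨supp_univ _, hb⟩ y hy hU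
  obtain ⟨t', -, e'⟩ := bd_succ_iff.1 (⟨k, t, ht, e⟩ : Bd univ _)
  refine ⟨O', h'.trans h, hy', (C.A (n + 1)).res h' a', -t', ?_, ?_⟩
  · rw [← (C.d (n + 1)).nat, ha, (C.A (n + 2)).res_res]
  · rw [map_neg, e', map_sub, rs_comp, ← C.u_res]
    abel

theorem cone_ex0 (hI : IsIC U I one) (x : (cX C 0).obj W) (hx : (cD C 0).app W x = 0) {y : Y}
    (hy : y ∈ W) (hU : y ∈ U 1) : (⊥ : Sub (cX C 0)).Near x y :=
  dyc0_ex0 C hI x (congrArg Prod.fst hx) (congrArg Prod.snd hx) hy hU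

theorem cone_ex (hI : IsIC U I one) (x : (cX C (n + 1)).obj W) (hx : (cD C (n + 1)).app W x = 0)
    {y : Y} (hy : y ∈ W) (hU : y ∈ U 1) : (Sub.map (cD C n) ⊤).Near x y := by
  obtain ⟨a, b⟩ := x
  have h1 : (C.d (n + 1)).app W a = 0 := congrArg Prod.fst hx
  have h2 : C.u (n + 1) W a - dd n (n + 1) (show Sec I n W from b) = 0 := congrArg Prod.snd hx
  obtain ⟨O, h, hyO, a', ha', hb'⟩ := dyc0_prim C a b h1 h2 hy
  cases n with
  | zero =>
    obtain ⟨O', h', hy', z, e1, e2⟩ := dyc0_zero C hI h a b a' ha' hb' hyO hU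
    exact near_map.2 ⟨O', h', hy', z, trivial, Prod.ext e1 e2⟩
  | succ n =>
    obtain ⟨O', h', hy', z, t, e1, e2⟩ := dyc0_succ C hI h a b a' ha' hb' hyO hU
    exact near_map.2 ⟨O', h', hy', (z, t), trivial, Prod.ext e1 e2⟩

end Pool.Agent.PWD.SY
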