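import Pool.Agent.K.MP_65ad7c_ag.C68

-- part Pool.Agent.P.MP_65ad7c_ag.DS2
section

/-! Local lifts glue near a compact set if the kernel is soft. -/

open Set TopologicalSpace

noncomputable section
namespace Pool.Agent.PWD.SY

variable {k : Type} [Ring k] {X : Type} [TopologicalSpace X] {P Q : PSh k X}

theorem lift_union [T2Space X] (hP : P.IsSh) (hQ : Q.IsSh) (f : Hom P Q) {S : Sub P} (loc : S.Loc)
    {M : Set X} (soft : SoftOn M (ker f S)) {K L : Set X} (hK : IsCompact K) (hL : IsCompact L)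
    (hM : K ⊆ M) {O : Opens X} {t : Q.obj O}
    (h1 : ∃ (O' : Opens X) (h : O' ≤ O), K ⊆ O' ∧ ∃ z ∈ S.sub O', f.app O' z = Q.res h t)
    (h2 : ∃ (O' : Opens X) (h : O' ≤ O), L ⊆ O' ∧ ∃ z ∈ S.sub O', f.app O' z = Q.res h t) :
    ∃ (O' : Opens X) (h : O' ≤ O), K ∪ L ⊆ O' ∧ ∃ z ∈ S.sub O', f.app O' z = Q.res h t := by
  obtain ⟨O1, g1, k1, z1, s1, e1⟩ := h1
  obtain ⟨O2, g2, k2, z2, s2, e2⟩ := h2
  have hd : P.res (inf_le_left : O1 ⊓ O2 ≤ O1) z1 - P.res inf_le_right z2 ∈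
      (ker f S).sub (O1 ⊓ O2) := by
    refine mem_ker.2 ⟨sub_mem (S.res_mem _ s1) (S.res_mem _ s2), ?_⟩
    rw [map_sub, ← f.nat, ← f.nat, e1, e2, Q.res_res, Q.res_res, sub_self]
  obtain ⟨w, hw, O3, g3, g3', k3, e3⟩ := soft (K ∩ L) (O1 ⊓ O2) O2 (hK.inter_right hL.isClosed)
    (inter_subset_left.trans hM) (fun y hy => ⟨k1 hy.1, k2 hy.2⟩) (inter_subset_right.trans k2) _ hd
  obtain ⟨hw1, hw2⟩ := mem_ker.1 hw
  obtain ⟨V, V', kV, kV', hV⟩ := sep_compact hK hL k3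
  have s2' : z2 + w ∈ S.sub O2 := add_mem s2 hw1
  have e2' : f.app O2 (z2 + w) = Q.res g2 t := by rw [map_add, hw2, add_zero, e2]
  have e4 : P.res (g3.trans inf_le_left) z1 = P.res g3' (z2 + w) := by
    rw [map_add, e3, map_sub, P.res_res, P.res_res, add_sub_cancel]
  have g5 : V ⊓ O1 ⊓ (V' ⊓ O2) ≤ O3 := (inf_le_inf inf_le_left inf_le_left).trans hV
  obtain ⟨z, a1, a2⟩ := sh_glue2 hP (V := V ⊓ O1) (V' := V' ⊓ O2) le_sup_left le_sup_right le_rfl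
    (P.res inf_le_right z1) (P.res inf_le_right (z2 + w)) (by
      have e5 := congrArg (P.res g5) e4
      rw [P.res_res, P.res_res] at e5
      rw [P.res_res, P.res_res]
      exact e5)
  have g : V ⊓ O1 ⊔ V' ⊓ O2 ≤ O := sup_le (inf_le_right.trans g1) (inf_le_right.trans g2)
  refine ⟨V ⊓ O1 ⊔ V' ⊓ O2, g, ?_, z, loc _ _ fun y hy => ?_, sh_ext hQ fun y hy => ?_⟩
  · rintro y (hy | hy)
    · exact Opens.mem_sup.2 (Or.inl ⟨kV hy, k1 hy⟩)
    · exact Opens.mem_sup.2 (Or.inr ⟨kV' hy, k2 hy⟩)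
  · rcases Opens.mem_sup.1 hy with hy | hy
    · exact ⟨_, le_sup_left, hy, a1 ▸ S.res_mem _ s1⟩
    · exact ⟨_, le_sup_right, hy, a2 ▸ S.res_mem _ s2'⟩
  · rcases Opens.mem_sup.1 hy with hy | hy
    · refine ⟨_, le_sup_left, hy, ?_⟩
      rw [f.nat, a1, ← f.nat, e1, Q.res_res, Q.res_res]
    · refine ⟨_, le_sup_right, hy, ?_⟩
      rw [f.nat, a2, ← f.nat, e2', Q.res_res, Q.res_res]

theorem lift_cpt [T2Space X] (hP : P.IsSh) (hQ : Q.IsSh) (f : Hom P Q) {S : Sub P} (loc : S.Loc)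
    {M : Set X} (soft : SoftOn M (ker f S)) {K : Set X} (hK : IsCompact K) (hM : K ⊆ M)
    {O : Opens X} {t : Q.obj O} (ht : ∀ y ∈ K, (S.map f).Near t y) :
    ∃ (O' : Opens X) (h : O' ≤ O), K ⊆ O' ∧ ∃ z ∈ S.sub O', f.app O' z = Q.res h t := by
  classical
  choose V hV hy z hz e using fun y : K => near_map.1 (ht y y.2)
  obtain ⟨T, hT⟩ := hK.elim_finite_subcover (fun y : K => (V y : Set X)) (fun y => (V y).isOpen)
    fun y hy' => mem_iUnion.2 ⟨⟨y, hy'⟩, hy _⟩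
  obtain ⟨C, c1, c2, c3⟩ := hK.finite_compact_cover T (fun y : K => (V y : Set X))
    (fun y _ => (V y).isOpen) hT
  have key : ∀ T' : Finset K, T' ⊆ T → ∃ (O' : Opens X) (h : O' ≤ O), (⋃ i ∈ T', C i) ⊆ O' ∧
      ∃ z ∈ S.sub O', f.app O' z = Q.res h t := by
    intro T'
    induction T' using Finset.induction_on with
    | empty =>
      exact fun _ => ⟨⊥, bot_le, by simp, 0, zero_mem _, sh_ext hQ fun y hy => absurd hy (by simp)⟩
    | insert a T' _ ih =>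
      intro h
      rw [Finset.set_biUnion_insert]
      refine lift_union hP hQ f loc soft (c1 a) (T'.isCompact_biUnion fun i _ => c1 i) ?_
        ⟨V a, hV a, c2 a, z a, hz a, e a⟩ (ih ((Finset.subset_insert _ _).trans h))
      refine subset_trans ?_ hM
      rw [c3]
      exact subset_biUnion_of_mem (u := C) (h (Finset.mem_insert_self a T'))
  obtain ⟨O', h, h1, h2⟩ := key T subset_rfl
  exact ⟨O', h, c3 ▸ h1, h2⟩

end Pool.Agent.PWD.SY
end
end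

-- part Pool.Agent.P.MP_65ad7c_ag.DS3
section

/-! Local lifts glue on an open set if the kernel is soft. -/

open Set TopologicalSpace

noncomputable section
namespace Pool.Agent.PWD.SY

variable {k : Type} [Ring k] {X : Type} [TopologicalSpace X] {P Q : PSh k X}

theorem exists_exh [T2Space X] [LocallyCompactSpace X] [SecondCountableTopology X] (W : Opens X) :
    ∃ K : ℕ → Set X, (∀ n, IsCompact (K n)) ∧ (∀ n, K n ⊆ W) ∧
      (∀ n, K n ⊆ interior (K (n + 1))) ∧ ∀ y ∈ W, ∃ n, y ∈ K n := by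
  have := W.isOpen.locallyCompactSpace
  let E := CompactExhaustion.choice (W : Set X)
  refine ⟨fun n => Subtype.val '' E n, fun n => (E.isCompact n).image continuous_subtype_val,
    fun n => Subtype.coe_image_subset _ _, fun n => (image_mono (E.subset_interior_succ n)).trans
      (W.isOpen.isOpenMap_subtype_val.image_interior_subset _), fun y hy => ?_⟩
  obtain ⟨n, hn⟩ := E.exists_mem ⟨y, hy⟩
  exact ⟨n, _, hn, rfl⟩

/-- lifts of `t` near `K` -/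
def ds3T (f : Hom P Q) (S : Sub P) {W : Opens X} (t : Q.obj W) (K : Set X) : Type :=
  {p : Σ O : Opens X, P.obj O // ∃ h : p.1 ≤ W, K ⊆ p.1 ∧ p.2 ∈ S.sub p.1 ∧
    f.app p.1 p.2 = Q.res h t}

theorem ds3_step [T2Space X] (hP : P.IsSh) (hQ : Q.IsSh) (f : Hom P Q) {S : Sub P} (loc : S.Loc)
    {W : Opens X} (soft : SoftOn W (ker f S)) {t : Q.obj W} (ht : ∀ y ∈ W, (S.map f).Near t y)
    {K L : Set X} (hK : IsCompact K) (hL : IsCompact L) (hKL : K ⊆ L) (hW : L ⊆ W)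
    (p : ds3T f S t K) : ∃ q : ds3T f S t L, ∀ (G : Opens X) (_ : (G : Set X) ⊆ K) (h : G ≤ p.1.1)
      (h' : G ≤ q.1.1), P.res h' q.1.2 = P.res h p.1.2 := by
  obtain ⟨⟨O, z⟩, h, k1, k2, k3⟩ := p
  obtain ⟨O', h', l1, z', l2, l3⟩ := lift_cpt hP hQ f loc soft hL hW fun y hy => ht y (hW hy)
  obtain ⟨w, hw, O₂, m1, m2, m3, m4⟩ := soft K (O ⊓ O') O' hK (hKL.trans hW)
    (subset_inter k1 (hKL.trans l1)) (hKL.trans l1)
    (P.res inf_le_left z - P.res inf_le_right z')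
    ⟨sub_mem (S.res_mem _ k2) (S.res_mem _ l2), by
      change f.app _ _ = 0
      rw [map_sub, ← f.nat, ← f.nat, k3, l3, Q.res_res, Q.res_res, sub_self]⟩
  refine ⟨⟨⟨O', z' + w⟩, h', l1, add_mem l2 hw.1, ?_⟩, fun G hG g g' => ?_⟩
  · rw [map_add, (mem_ker.1 hw).2, add_zero, l3]
  · have h1 := congrArg (P.res (show G ≤ O₂ from hG.trans m3)) m4
    simp only [map_sub, P.res_res] at h1
    change P.res g' (z' + w) = P.res g z
    rw [map_add, h1, add_sub_cancel]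

theorem lift_opn [T2Space X] [LocallyCompactSpace X] [SecondCountableTopology X] (hP : P.IsSh)
    (hQ : Q.IsSh) (f : Hom P Q) {S : Sub P} (loc : S.Loc) {W : Opens X}
    (soft : SoftOn W (ker f S)) {t : Q.obj W} (ht : ∀ y ∈ W, (S.map f).Near t y) :
    ∃ z ∈ S.sub W, f.app W z = t := by
  obtain ⟨K, k1, k2, k3, k4⟩ := exists_exh W
  choose nx hnx using fun n => ds3_step hP hQ f loc soft ht (k1 n) (k1 (n + 1))
    ((k3 n).trans interior_subset) (k2 (n + 1))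
  obtain ⟨O₀, h₀, l1, z₀, l2, l3⟩ := lift_cpt hP hQ f loc soft (k1 0) (k2 0)
    fun y hy => ht y (k2 0 hy)
  let q : ∀ n, ds3T f S t (K n) := fun n => Nat.rec ⟨⟨O₀, z₀⟩, h₀, l1, l2, l3⟩ nx n
  let G : ℕ → Opens X := fun n => ⟨interior (K n), isOpen_interior⟩
  have g1 : ∀ n, G n ≤ (q n).1.1 := fun n => interior_subset.trans (q n).2.2.1
  have g2 : Monotone G := monotone_nat_of_le_succ fun n => interior_subset.trans (k3 n)
  have g3 : ∀ n m (h : n ≤ m), P.res (g2 h) (P.res (g1 m) (q m).1.2) = P.res (g1 n) (q n).1.2 := by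
    intro n m h
    induction m, h using Nat.le_induction with
    | base => exact P.res_id _ _
    | succ m h ih =>
      rw [← ih, ← hnx m (q m) (G m) interior_subset (g1 m) ((g2 m.le_succ).trans (g1 (m + 1))),
        P.res_res, P.res_res]
  have g4 : ∀ y ∈ W, ∃ n, y ∈ G n := fun y hy => (k4 y hy).elim fun n hn => ⟨n + 1, k3 n hn⟩
  have g5 : ∀ n, G n ≤ W := fun n => interior_subset.trans (k2 n)
  obtain ⟨z, hz⟩ := sh_glue hP G g5 g4 (fun n => P.res (g1 n) (q n).1.2) fun i j => by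
    rcases le_total i j with h | h
    · rw [← g3 i j h]
      simp only [P.res_res]
    · rw [← g3 j i h]
      simp only [P.res_res]
  refine ⟨z, loc W z fun y hy => ?_, sh_ext hQ fun y hy => ?_⟩
  · obtain ⟨n, hn⟩ := g4 y hy
    exact ⟨G n, g5 n, hn, hz n ▸ S.res_mem _ (q n).2.2.2.1⟩
  · obtain ⟨n, hn⟩ := g4 y hy
    refine ⟨G n, g5 n, hn, ?_⟩
    rw [f.nat, hz, ← f.nat, (q n).2.2.2.2, Q.res_res]

end Pool.Agent.PWD.SY
end
end

-- part Pool.Agent.P.MP_65ad7c_ag.DS4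
section

/-! Locally exact soft complexes are exact; sections vanishing near a closed set. -/

open Set TopologicalSpace

noncomputable section
namespace Pool.Agent.PWD.SY

variable {k : Type} [Ring k] {X : Type} [TopologicalSpace X]

theorem exact_of_soft [T2Space X] [LocallyCompactSpace X] [SecondCountableTopology X]
    {P : ℕ → PSh k X} (hP : ∀ n, (P n).IsSh) (D : ∀ n, Hom (P n) (P (n + 1)))
    (DD : ∀ n O x, (D (n + 1)).app O ((D n).app O x) = 0) (S : ∀ n, Sub (P n))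
    (loc : ∀ n, (S n).Loc) (maps : ∀ n, Sub.Maps (D n) (S n) (S (n + 1))) (W : Opens X)
    (soft : ∀ n, SoftOn W (S n))
    (ex0 : ∀ O : Opens X, ∀ x ∈ (S 0).sub O, (D 0).app O x = 0 → ∀ y ∈ O, y ∈ W →
      (⊥ : Sub (P 0)).Near x y)
    (ex : ∀ n (O : Opens X), ∀ x ∈ (S (n + 1)).sub O, (D (n + 1)).app O x = 0 → ∀ y ∈ O, y ∈ W →
      ((S n).map (D n)).Near x y) :
    (∀ x ∈ (S 0).sub W, (D 0).app W x = 0 → x = 0) ∧
      ∀ n, ∀ x ∈ (S (n + 1)).sub W, (D (n + 1)).app W x = 0 →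
        ∃ z ∈ (S n).sub W, (D n).app W z = x := by
  have key : ∀ n, SoftOn W (ker (D n) (S n)) := by
    intro n
    induction n with
    | zero =>
      intro K O O₁ _ hKW hKO hKO1 x hx
      have h1 : O ⊓ O₁ ⊓ W ≤ O := inf_le_left.trans inf_le_left
      refine ⟨0, Submodule.zero_mem _, O ⊓ O₁ ⊓ W, h1, inf_le_left.trans inf_le_right,
        fun y hy => ⟨⟨hKO hy, hKO1 hy⟩, hKW hy⟩, ?_⟩
      rw [map_zero]
      have := (hP 0).sep _ ((P 0).res h1 x) fun y hy =>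
        (near_res h1 hy).2 (ex0 O x (mem_ker.1 hx).1 (mem_ker.1 hx).2 y (h1 hy) hy.2)
      exact ((Submodule.mem_bot k).1 this).symm
    | succ n ih =>
      intro K O O₁ hK hKW hKO hKO1 x hx
      obtain ⟨O', h, hKO', z, hz, e⟩ := lift_cpt (hP n) (hP (n + 1)) (D n) (loc n) ih hK hKW
        (t := x) fun y hy => ex n O x (mem_ker.1 hx).1 (mem_ker.1 hx).2 y (hKO hy) (hKW hy)
      obtain ⟨z', hz', O₂, h2, h21, hK2, e2⟩ := soft n K O' O₁ hK hKW hKO' hKO1 z hz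
      refine ⟨(D n).app O₁ z', mem_ker.2 ⟨maps n O₁ z' hz', DD n O₁ z'⟩, O₂, h2.trans h, h21, hK2, ?_⟩
      rw [(D n).nat, e2, ← (D n).nat, e, (P (n + 1)).res_res]
  refine ⟨fun x hx hd => ?_, fun n x hx hd => ?_⟩
  · exact (Submodule.mem_bot k).1 ((hP 0).sep _ x fun y hy => ex0 W x hx hd y hy hy)
  · exact lift_opn (hP n) (hP (n + 1)) (D n) (loc n) (key n) fun y hy => ex n W x hx hd y hy hy

theorem soft_van [T2Space X] [LocallyCompactSpace X] {P : PSh k X} (hP : P.IsSh)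
    (soft : (⊤ : Sub P).Soft) {B : Set X} (hB : IsClosed B) : (van P B).Soft := by
  intro K O O₁ hK hKO hKO1 x hx
  obtain ⟨Z, hZO, hZ, hZn⟩ := exists_zero_set hP x
  obtain ⟨N, hN, hKN, hNO⟩ := exists_compact_between hK (O ⊓ O₁).isOpen
    (fun y hy => ⟨hKO hy, hKO1 hy⟩ : K ⊆ ((O ⊓ O₁ : Opens X) : Set X))
  have hL : IsCompact ((N \ interior N) ∪ (B ∩ N)) :=
    (hN.diff isOpen_interior).union (hN.inter_left hB)
  have hLN : (N \ interior N) ∪ (B ∩ N) ⊆ N := by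
    rintro y (hy | hy)
    · exact hy.1
    · exact hy.2
  have hKL : K ∩ ((N \ interior N) ∪ (B ∩ N)) ⊆ Z := by
    rintro y ⟨hy, hy' | hy'⟩
    · exact absurd (hKN hy) hy'.2
    · exact hZn y (mem_van.1 hx y (hKO hy) hy'.1)
  obtain ⟨V, V', hKV, hLV, hVV⟩ := sep_compact hK hL hKL
  have hz : ∀ {A : Opens X} (h : A ≤ O), A ≤ Z → P.res h x = 0 := fun {A} h hA => by
    have := P.res_res hZO hA x
    rw [hZ, map_zero] at this
    exact this.symm
  obtain ⟨w, hw1, hw2⟩ := sh_glue2 hP (V := V ⊓ O) (V' := V') (W := (V ⊓ O) ⊔ V') le_sup_left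
    le_sup_right le_rfl (P.res inf_le_right x) 0 (by
      rw [map_zero, P.res_res]
      exact hz _ ((inf_le_inf_right V' inf_le_left).trans hVV))
  obtain ⟨w', -, O₂, h2, h21, hK2, e2⟩ := soft (K ∪ ((N \ interior N) ∪ (B ∩ N))) ((V ⊓ O) ⊔ V') O₁
    (hK.union hL) (by
      rintro y (hy | hy)
      · exact (le_sup_left : V ⊓ O ≤ (V ⊓ O) ⊔ V') ⟨hKV hy, hKO hy⟩
      · exact (le_sup_right : V' ≤ (V ⊓ O) ⊔ V') (hLV hy)) (by
      rintro y (hy | hy)
      · exact hKO1 hy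
      · exact (hNO (hLN hy)).2) w trivial
  let G1 : Opens X := ⟨interior N, isOpen_interior⟩
  let Nc : Opens X := ⟨Nᶜ, hN.isClosed.isOpen_compl⟩
  let G2 : Opens X := O₁ ⊓ (Nc ⊔ (O₂ ⊓ V'))
  have hG1 : G1 ≤ O₁ := fun y hy => (hNO (interior_subset hy)).2
  have hG2 : G2 ≤ O₁ := inf_le_left
  have hLG : ∀ y ∈ O₁, (y ∈ N → y ∈ (N \ interior N) ∪ (B ∩ N)) → y ∈ G2 := by
    intro y hy h
    refine ⟨hy, ?_⟩
    by_cases hyN : y ∈ N
    · exact (le_sup_right : O₂ ⊓ V' ≤ Nc ⊔ (O₂ ⊓ V')) ⟨hK2 (Or.inr (h hyN)), hLV (h hyN)⟩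
    · exact (le_sup_left : Nc ≤ Nc ⊔ (O₂ ⊓ V')) hyN
  have hcov : O₁ ≤ G1 ⊔ G2 := by
    intro y hy
    by_cases hyi : y ∈ interior N
    · exact (le_sup_left : G1 ≤ G1 ⊔ G2) hyi
    · exact (le_sup_right : G2 ≤ G1 ⊔ G2) (hLG y hy fun hyN => Or.inl ⟨hyN, hyi⟩)
  have h12 : G1 ⊓ G2 ≤ O₂ ⊓ V' := by
    rintro y ⟨hy1, -, hy2⟩
    rcases Opens.mem_sup.1 hy2 with h | h
    · exact absurd (interior_subset hy1) h
    · exact h
  have hww : ∀ {A : Opens X} (h : A ≤ O₂), P.res (h.trans h21) w' = P.res (h.trans h2) w :=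
    fun {A} h => by rw [← P.res_res h21 h, e2, P.res_res]
  obtain ⟨x', hx1, hx2⟩ := sh_glue2 hP hG1 hG2 hcov (P.res hG1 w') 0 (by
    rw [map_zero, P.res_res]
    have h3 := hww (h12.trans inf_le_left)
    have h4 := P.res_res (le_sup_right : V' ≤ (V ⊓ O) ⊔ V') (h12.trans inf_le_right) w
    rw [hw2, map_zero] at h4
    exact h3.trans h4.symm)
  refine ⟨x', mem_van.2 fun y hy hyB => near_bot.2 ⟨G2, hG2, hLG y hy fun hyN => Or.inr ⟨hyB, hyN⟩,
    hx2⟩, G1 ⊓ O₂ ⊓ (V ⊓ O), inf_le_right.trans inf_le_right,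
    (inf_le_left.trans inf_le_left).trans hG1,
    fun y hy => ⟨⟨hKN hy, hK2 (Or.inl hy)⟩, hKV hy, hKO hy⟩, ?_⟩
  have a1 : G1 ⊓ O₂ ⊓ (V ⊓ O) ≤ G1 := inf_le_left.trans inf_le_left
  have a2 : G1 ⊓ O₂ ⊓ (V ⊓ O) ≤ O₂ := inf_le_left.trans inf_le_right
  have a3 : G1 ⊓ O₂ ⊓ (V ⊓ O) ≤ V ⊓ O := inf_le_right
  have b1 := P.res_res hG1 a1 x'
  rw [hx1, P.res_res] at b1
  have b2 := hww a2
  have b3 := P.res_res (le_sup_left : V ⊓ O ≤ (V ⊓ O) ⊔ V') a3 w
  rw [hw1, P.res_res] at b3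
  exact b1.symm.trans (b2.trans b3.symm)

end Pool.Agent.PWD.SY
end
end
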