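import Pool.Agent.K.MP_65ad7c_ag.C94
import Pool.Agent.K.MP_65ad7c_ag.C95

/-! Comparison of the de Rham complex and `I` relative to a closed set containing the singular
points. -/

open Set TopologicalSpace CategoryTheory

noncomputable section
namespace Pool.Agent.PWD.SY

variable {Y : Type} [TopologicalSpace Y] [T2Space Y] [LocallyCompactSpace Y]
  [SecondCountableTopology Y] {U : ℕ → Opens Y} {I : Cx Y} {one : Sec I 0 (U 1)}
  (C : DR one) {n : ℕ} {W : Opens Y} {B : Set Y}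

omit [T2Space Y] [LocallyCompactSpace Y] [SecondCountableTopology Y] in
theorem dyc_sh : ∀ n, (cX C n).IsSh
  | 0 => C.sh 0
  | n + 1 => sh_prod (C.sh (n + 1)) (IP_sh I n)

omit [T2Space Y] [LocallyCompactSpace Y] [SecondCountableTopology Y] in
theorem dyc_soft (hI : IsIC U I one) : ∀ n, (⊤ : Sub (cX C n)).Soft
  | 0 => C.soft 0
  | n + 1 => soft_prod (C.soft (n + 1)) (IP_soft hI.inj n)

theorem cone_exact (hI : IsIC U I one) (hB : IsClosed B) (hW : ∀ y ∈ W, y ∉ U 1 → y ∈ B) :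
    (∀ x ∈ (van (cX C 0) B).sub W, (cD C 0).app W x = 0 → x = 0) ∧
      ∀ n, ∀ x ∈ (van (cX C (n + 1)) B).sub W, (cD C (n + 1)).app W x = 0 →
        ∃ z ∈ (van (cX C n) B).sub W, (cD C n).app W z = x := by
  refine exact_of_soft (dyc_sh C) (cD C) (cD_cD C) (fun n => van (cX C n) B)
    (fun n => van_loc _ _) (fun n => van_maps _ _) W
    (fun n => softOn_of_soft (soft_van (dyc_sh C n) (dyc_soft C hI n) hB) _) ?_ ?_
  · intro O x hx hd y hy hyW
    by_cases hyB : y ∈ B
    · exact hx y hy hyB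
    · have hU : y ∈ U 1 := by
        by_contra h
        exact hyB (hW y hyW h)
      exact cone_ex0 C hI x hd hy hU
  · intro n O x hx hd y hy hyW
    by_cases hyB : y ∈ B
    · obtain ⟨O', h, hyO, h0⟩ := near_bot.1 (hx y hy hyB)
      exact near_map.2 ⟨O', h, hyO, 0, zero_mem _, by rw [map_zero, h0]⟩
    · have hU : y ∈ U 1 := by
        by_contra h
        exact hyB (hW y hyW h)
      obtain ⟨O', h, hyO, z, -, hz⟩ := near_map.1 (cone_ex C hI x hd hy hU)
      let G : Opens Y := ⟨Bᶜ, hB.isOpen_compl⟩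
      refine near_map.2 ⟨O' ⊓ G, inf_le_left.trans h, ⟨hyO, hyB⟩,
        (cX C n).res inf_le_left z, ?_, ?_⟩
      · intro y' hy' hB'
        exact absurd hB' hy'.2
      · rw [← (cD C n).nat, hz, PSh.res_res]

theorem cmp_surj (hI : IsIC U I one) (hB : IsClosed B) (hW : ∀ y ∈ W, y ∉ U 1 → y ∈ B)
    {s : Sec I n W} (hs : Supp Bᶜ s) (hd : dd n (n + 1) s = 0) :
    ∃ x : (C.A n).obj W, C.Van B x ∧ (C.d n).app W x = 0 ∧ Bd Bᶜ (s - C.u n W x) := by
  have hv : ((0, s) : (C.A (n + 1)).obj W × Sec I n W) ∈ (van (cX C (n + 1)) B).sub W :=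
    (van_prod (P := C.A (n + 1)) (Q := IP I n)).2 ⟨zero_mem _, supp_iff.1 hs⟩
  have hc : (cD C (n + 1)).app W ((0, s) : (C.A (n + 1)).obj W × Sec I n W) = 0 := by
    refine (cD_succ C 0 s).trans ?_
    rw [map_zero, map_zero, hd, sub_zero]
    rfl
  obtain ⟨z, hz, hzd⟩ := (cone_exact C hI hB hW).2 n _ hv hc
  cases n with
  | zero =>
    have e := (cD_zero C z).symm.trans hzd
    have e1 : (C.d 0).app W z = 0 := congrArg Prod.fst e
    have e2 : C.u 0 W z = s := congrArg Prod.snd e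
    refine ⟨z, (van_iff C).2 hz, e1, ?_⟩
    rw [e2, sub_self]
    exact bd_zero _
  | succ n =>
    obtain ⟨a, b⟩ := z
    have e := (cD_succ C a b).symm.trans hzd
    have e1 : (C.d (n + 1)).app W a = 0 := congrArg Prod.fst e
    have e2 : C.u (n + 1) W a - dd n (n + 1) b = s := congrArg Prod.snd e
    have hab := (van_prod (P := C.A (n + 1)) (Q := IP I n)).1 hz
    refine ⟨a, (van_iff C).2 hab.1, e1, ?_⟩
    have e3 : s - C.u (n + 1) W a = -dd n (n + 1) b := by
      rw [← e2]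
      abel
    rw [e3]
    exact Bd.neg ⟨n, b, supp_iff.2 hab.2, rfl⟩

theorem cmp_inj (hI : IsIC U I one) (hB : IsClosed B) (hW : ∀ y ∈ W, y ∉ U 1 → y ∈ B)
    {x : (C.A n).obj W} (hv : C.Van B x) (hx : (C.d n).app W x = 0)
    (hb : Bd Bᶜ (C.u n W x)) : C.Ex B x := by
  cases n with
  | zero =>
    have hu : C.u 0 W x = 0 := bd_zero_iff.1 hb
    have hc : (cD C 0).app W x = 0 := by
      rw [cD_zero, hx, hu]
      rfl
    exact (cone_exact C hI hB hW).1 x ((van_iff C).1 hv) hc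
  | succ n =>
    obtain ⟨t, ht, htd⟩ := bd_succ_iff.1 hb
    have hv' : ((x, t) : (C.A (n + 1)).obj W × Sec I n W) ∈ (van (cX C (n + 1)) B).sub W :=
      (van_prod (P := C.A (n + 1)) (Q := IP I n)).2 ⟨(van_iff C).1 hv, supp_iff.1 ht⟩
    have hc : (cD C (n + 1)).app W ((x, t) : (C.A (n + 1)).obj W × Sec I n W) = 0 := by
      refine (cD_succ C x t).trans ?_
      rw [hx, htd, sub_self]
      rfl
    obtain ⟨z, hz, hzd⟩ := (cone_exact C hI hB hW).2 n _ hv' hc
    cases n with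
    | zero =>
      have e := (cD_zero C z).symm.trans hzd
      exact ⟨z, (van_iff C).2 hz, congrArg Prod.fst e⟩
    | succ n =>
      obtain ⟨a, b⟩ := z
      have e := (cD_succ C a b).symm.trans hzd
      have hab := (van_prod (P := C.A (n + 1)) (Q := IP I n)).1 hz
      exact ⟨a, (van_iff C).2 hab.1, congrArg Prod.fst e⟩

end Pool.Agent.PWD.SY
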